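import Pool.Agent.Sims.BddM

/-!
# Module `ACut` : level moves with multiplier `a^{±1}`

Let `e` be orbit-minimal, `cnt e 0 = 2`, `cnt e 1, cnt e 2 ≥ 3`, and `(z, A)` a level move, `z.1 = 0`: `capC e A = 2`.
Replacing `A` by its complement and `z` by `z⁻¹` (`act_wh_compl`, `capC_compl`) we may assume `z = a`.  If `A`
separates `b` from `b⁻¹` then `3 ≤ cnt e 1 ≤ capC e A` by `OMin.le_cap` (multiplier `b` or `b⁻¹`): contradiction;
same for `c`.  So `A` contains both or none of `b^{±1}`, and both or none of `c^{±1}`.  If none of the four: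
`wh a A` is the identity (`wh_congr`, or on generators).  If all four: `A` is the complement of `{a⁻¹}`, and
`act (wh a A) e = act (wh a⁻¹ {a⁻¹}) e = e` (`act_wh_compl`).  Otherwise `A = Sb` or `A = Sc`.
* `wh_Sb_same`: `wh a Sb` maps `a ↦ a`, `b ↦ a⁻¹ b a`, `c ↦ c`, so for `g = b^s c^t`, `h = b^u c^v` the word `a g a h` goes to
  `b^s a c^t b^u a c^v ~ a c^t b^u a c^v b^s`.
* `wh_Sb_opp1`: `a b^s c^t b^u a⁻¹ c^v ↦ a a⁻¹ b^s a c^t a⁻¹ b^u a a⁻¹ c^v = b^s a c^t a⁻¹ b^u c^v ~ a c^t a⁻¹ (b^u c^v b^s)`.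
* `wh_Sc_opp2`: `wh a Sc`: `c ↦ a⁻¹ c a`: `a c^s a⁻¹ b^u c^v b^w ↦ c^s b^u a⁻¹ c^v a b^w a a⁻¹ ...`: precisely
  `a (a⁻¹ c^s a) a⁻¹ b^u (a⁻¹ c^v a) b^w = c^s b^u a⁻¹ c^v a b^w ~ a (b^w c^s b^u) a⁻¹ c^v`.
* `wh_Sb_Sc`: on classes `wh a Sc` is `swp ∘ wh a Sb ∘ swp`.
Difficulty 2.
-/

namespace Pool.Agent.Sims

open FreeGroup (of)

theorem ACut_wh_false (z : Fin 3 × Bool) : wh z (fun _ => false) = MulEquiv.refl _ := by
  apply Rel_ext
  intro i
  refine ⟨true, ?_⟩
  rw [MulEquiv.refl_apply]
  by_cases hi : i = z.1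
  · rw [Rel_wh_self' z _ (x := (i, true)) hi]
  · rw [wh_lett_ne z _ (x := (i, true)) hi]
    simp

theorem ACut_false (z : Fin 3 × Bool) (A : Fin 3 × Bool → Bool)
    (h : ∀ x : Fin 3 × Bool, x.1 ≠ z.1 → A x = false) (e : CC) : act (wh z A) e = e := by
  rw [wh_congr z (B := fun _ => false) h, ACut_wh_false, act_refl]

theorem ACut_sep {e : CC} (he : OMin e) (A : Fin 3 × Bool → Bool) (hc : capC e A = 2) (i : Fin 3)
    (h : 3 ≤ cnt e i) : A (i, false) = A (i, true) := by
  by_contra hne
  cases h1 : A (i, true) with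
  | true =>
    have h2 : A (i, false) = false := by
      cases h3 : A (i, false) with
      | true => exact absurd (h3.trans h1.symm) hne
      | false => rfl
    have h4 := he.le_cap (i, true) A h1 h2
    have h5 : cnt e i ≤ capC e A := h4
    omega
  | false =>
    have h2 : A (i, false) = true := by
      cases h3 : A (i, false) with
      | true => rfl
      | false => exact absurd (h3.trans h1.symm) hne
    have h4 := he.le_cap (i, false) A h2 h1
    have h5 : cnt e i ≤ capC e A := h4
    omega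

theorem ACut_pos {e : CC} (he : OMin e) (h0 : cnt e 0 = 2) (h1 : 3 ≤ cnt e 1) (h2 : 3 ≤ cnt e 2)
    {A : Fin 3 × Bool → Bool} (hz : A (0, true) = true)
    (hz' : A (0, false) = false) (hc : capC e A = 2) :
    act (wh (0, true) A) e = e ∨ (capC e Sb = 2 ∧ act (wh (0, true) A) e = act (wh (0, true) Sb) e) ∨
      (capC e Sc = 2 ∧ act (wh (0, true) A) e = act (wh (0, true) Sc) e) := by
  have hb := ACut_sep he A hc 1 h1
  have hc' := ACut_sep he A hc 2 h2
  cases c1 : A (1, true) with
  | true =>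
    cases c2 : A (2, true) with
    | true =>
      left
      rw [← act_wh_compl]
      apply ACut_false
      rintro ⟨i, b⟩ hi
      have hi' : i ≠ 0 := hi
      have h3 : i = 1 ∨ i = 2 := by
        clear hi
        revert i
        decide
      rcases h3 with rfl | rfl
      · cases b with
        | true => simp [c1]
        | false => simp [hb, c1]
      · cases b with
        | true => simp [c2]
        | false => simp [hc', c2]
    | false =>
      right; left
      have h3 : A = Sb := by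
        funext x
        rcases x with ⟨i, b⟩
        have h4 : i = 0 ∨ i = 1 ∨ i = 2 := by
          revert i
          decide
        rcases h4 with rfl | rfl | rfl
        · cases b with
          | true => rw [hz]; rfl
          | false => rw [hz']; rfl
        · cases b with
          | true => rw [c1]; rfl
          | false => rw [hb, c1]; rfl
        · cases b with
          | true => rw [c2]; rfl
          | false => rw [hc', c2]; rfl
      rw [← h3]
      exact ⟨hc, rfl⟩
  | false =>
    cases c2 : A (2, true) with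
    | true =>
      right; right
      have h3 : A = Sc := by
        funext x
        rcases x with ⟨i, b⟩
        have h4 : i = 0 ∨ i = 1 ∨ i = 2 := by
          revert i
          decide
        rcases h4 with rfl | rfl | rfl
        · cases b with
          | true => rw [hz]; rfl
          | false => rw [hz']; rfl
        · cases b with
          | true => rw [c1]; rfl
          | false => rw [hb, c1]; rfl
        · cases b with
          | true => rw [c2]; rfl
          | false => rw [hc', c2]; rfl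
      rw [← h3]
      exact ⟨hc, rfl⟩
    | false =>
      left
      apply ACut_false
      rintro ⟨i, b⟩ hi
      have hi' : i ≠ 0 := hi
      have h3 : i = 1 ∨ i = 2 := by
        clear hi
        revert i
        decide
      rcases h3 with rfl | rfl
      · cases b with
        | true => exact c1
        | false => rw [hb, c1]
      · cases b with
        | true => exact c2
        | false => rw [hc', c2]

theorem acut {e : CC} (he : OMin e) (h0 : cnt e 0 = 2) (h1 : 3 ≤ cnt e 1) (h2 : 3 ≤ cnt e 2)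
    {z : Fin 3 × Bool} {A : Fin 3 × Bool → Bool} (hz0 : z.1 = 0) (hz : A z = true)
    (hz' : A (bar z) = false) (hc : capC e A = cnt e z.1) :
    act (wh z A) e = e ∨ (capC e Sb = 2 ∧ act (wh z A) e = act (wh (0, true) Sb) e) ∨
      (capC e Sc = 2 ∧ act (wh z A) e = act (wh (0, true) Sc) e) := by
  rcases z with ⟨i, b⟩
  have hi : i = 0 := hz0
  subst hi
  have hc2 : capC e A = 2 := hc.trans h0
  cases b with
  | true => exact ACut_pos he h0 h1 h2 hz hz' hc2
  | false =>
    have h3 := ACut_pos he h0 h1 h2 (A := fun x => !A x) (by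
      have : A (0, true) = false := hz'
      simp [this]) (by simp [hz]) (by rw [capC_compl, hc2])
    have h4 : act (wh (0, true) (fun x => !A x)) e = act (wh (0, false) A) e :=
      act_wh_compl (0, false) A e
    rw [h4] at h3
    exact h3

theorem ACut_Sb : wh ((0, true) : Fin 3 × Bool) Sb (of 0) = of 0 ∧
    wh ((0, true) : Fin 3 × Bool) Sb (of 1) = (of 0)⁻¹ * of 1 * of 0 ∧
    wh ((0, true) : Fin 3 × Bool) Sb (of 2) = of 2 := by
  refine ⟨?_, ?_, ?_⟩
  · exact wh_lett_self (0, true) Sb
  · have h := wh_lett_ne ((0, true) : Fin 3 × Bool) Sb (x := (1, true)) (by decide)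
    have h1 : Sb (bar (1, true)) = true := rfl
    have h2 : Sb (1, true) = true := rfl
    rw [h1, h2, if_pos rfl, if_pos rfl] at h
    exact h
  · have h := wh_lett_ne ((0, true) : Fin 3 × Bool) Sb (x := (2, true)) (by decide)
    have h1 : Sb (bar (2, true)) = false := rfl
    have h2 : Sb (2, true) = false := rfl
    rw [h1, h2, if_neg (by decide), if_neg (by decide), one_mul, mul_one] at h
    exact h

theorem ACut_Sc : wh ((0, true) : Fin 3 × Bool) Sc (of 0) = of 0 ∧
    wh ((0, true) : Fin 3 × Bool) Sc (of 2) = (of 0)⁻¹ * of 2 * of 0 ∧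
    wh ((0, true) : Fin 3 × Bool) Sc (of 1) = of 1 := by
  refine ⟨?_, ?_, ?_⟩
  · exact wh_lett_self (0, true) Sc
  · have h := wh_lett_ne ((0, true) : Fin 3 × Bool) Sc (x := (2, true)) (by decide)
    have h1 : Sc (bar (2, true)) = true := rfl
    have h2 : Sc (2, true) = true := rfl
    rw [h1, h2, if_pos rfl, if_pos rfl] at h
    exact h
  · have h := wh_lett_ne ((0, true) : Fin 3 × Bool) Sc (x := (1, true)) (by decide)
    have h1 : Sc (bar (1, true)) = false := rfl
    have h2 : Sc (1, true) = false := rfl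
    rw [h1, h2, if_neg (by decide), if_neg (by decide), one_mul, mul_one] at h
    exact h

theorem ACut_conj_zpow {G : Type*} [Group G] (x y : G) (n : ℤ) :
    (x⁻¹ * y * x) ^ n = x⁻¹ * y ^ n * x := by
  have h := @conj_zpow G _ n x⁻¹ y
  rw [inv_inv] at h
  exact h

theorem wh_Sb_same (s t u v : ℤ) :
    act (wh (0, true) Sb) (same (of 1 ^ s * of 2 ^ t) (of 1 ^ u * of 2 ^ v)) =
      same (of 2 ^ t * of 1 ^ u) (of 2 ^ v * of 1 ^ s) := by
  obtain ⟨h0, h1, h2⟩ := ACut_Sb
  unfold same
  rw [act_mk]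
  simp only [map_mul, map_zpow, map_inv, h0, h1, h2, ACut_conj_zpow]
  rw [ConjClasses.mk_eq_mk_iff_isConj, isConj_iff]
  exact ⟨(of 1 ^ s)⁻¹, by group⟩

theorem wh_Sc_same (s t u v : ℤ) :
    act (wh (0, true) Sc) (same (of 2 ^ s * of 1 ^ t) (of 2 ^ u * of 1 ^ v)) =
      same (of 1 ^ t * of 2 ^ u) (of 1 ^ v * of 2 ^ s) := by
  obtain ⟨h0, h2, h1⟩ := ACut_Sc
  unfold same
  rw [act_mk]
  simp only [map_mul, map_zpow, map_inv, h0, h1, h2, ACut_conj_zpow]
  rw [ConjClasses.mk_eq_mk_iff_isConj, isConj_iff]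
  exact ⟨(of 2 ^ s)⁻¹, by group⟩

theorem wh_Sb_opp (s t u v : ℤ) :
    act (wh (0, true) Sb) (opp (of 1 ^ s * of 2 ^ t * of 1 ^ u) (of 2 ^ v)) =
      opp (of 2 ^ t) (of 1 ^ u * of 2 ^ v * of 1 ^ s) := by
  obtain ⟨h0, h1, h2⟩ := ACut_Sb
  unfold opp
  rw [act_mk]
  simp only [map_mul, map_zpow, map_inv, h0, h1, h2, ACut_conj_zpow]
  rw [ConjClasses.mk_eq_mk_iff_isConj, isConj_iff]
  exact ⟨(of 1 ^ s)⁻¹, by group⟩

theorem wh_Sc_opp (s u v w : ℤ) :
    act (wh (0, true) Sc) (opp (of 2 ^ s) (of 1 ^ u * of 2 ^ v * of 1 ^ w)) =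
      opp (of 1 ^ w * of 2 ^ s * of 1 ^ u) (of 2 ^ v) := by
  obtain ⟨h0, h2, h1⟩ := ACut_Sc
  unfold opp
  rw [act_mk]
  simp only [map_mul, map_zpow, map_inv, h0, h1, h2, ACut_conj_zpow]
  rw [ConjClasses.mk_eq_mk_iff_isConj, isConj_iff]
  exact ⟨of 0 * of 1 ^ w, by group⟩

end Pool.Agent.Sims
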