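import Pool.Agent.Sims.TwDefs

/-!
# Module `ArcA` : arc forms

A list `L = [(ε_1, g_1), …, (ε_n, g_n)]` with `g_i ∈ ⟨b, c⟩` stands for the class of `a^{ε_1} g_1 a^{ε_2} g_2 … a^{ε_n} g_n`.
`ArcOK L`: the list is not empty and if `g_i = 1` then the cyclically next sign is the same.
* `arc_len`: the word `(0, ε_1) :: g_1.toWord ++ (0, ε_2) :: g_2.toWord ++ …` is cyclically reduced; `cycLen_cls`, `cnt_cls`, `cntL`.
* `exists_arc`: take `w = rep V`, rotate it so that it starts with a letter `x_0^{±1}` (`cnt V 0 ≥ 1`), and split it at the letters `x_0^{±1}`.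
  (Alternatively via `exists_syl`-like recursion on the word; see `SylA_group`.)
* `arc_conj`: `φ (lett (0, ε)) = p * lett (0, ε) * p⁻¹` and `φ g = g`; so `φ (arcP L) = p * (arcP L') * p⁻¹`.
Difficulty 2.
-/

namespace Pool.Agent.Sims

open FreeGroup (of)

/-- the product of the arcs -/
def arcP (L : List (Bool × FreeGroup (Fin 3))) : FreeGroup (Fin 3) :=
  (L.map (fun q => lett (0, q.1) * q.2)).prod

/-- valid arc form -/
def ArcOK (L : List (Bool × FreeGroup (Fin 3))) : Prop :=
  L ≠ [] ∧ (∀ q ∈ L, In12 q.2) ∧ cyc (fun q r => if q.2 = 1 ∧ q.1 ≠ r.1 then 1 else 0) L = 0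

/-- the word of an arc form -/
def ArcA_W (L : List (Bool × FreeGroup (Fin 3))) : List (Fin 3 × Bool) :=
  L.flatMap (fun q => (0, q.1) :: q.2.toWord)

theorem ArcA_W_cons (q : Bool × FreeGroup (Fin 3)) (t : List (Bool × FreeGroup (Fin 3))) :
    ArcA_W (q :: t) = (0, q.1) :: (q.2.toWord ++ ArcA_W t) := by
  simp [ArcA_W]

theorem ArcA_mk (L : List (Bool × FreeGroup (Fin 3))) : FreeGroup.mk (ArcA_W L) = arcP L := by
  induction L with
  | nil => simp [ArcA_W, arcP, FreeGroup.one_eq_mk]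
  | cons q t ih =>
    rw [ArcA_W_cons]
    have h1 : FreeGroup.mk ((0, q.1) :: (q.2.toWord ++ ArcA_W t)) =
        FreeGroup.mk [((0 : Fin 3), q.1)] * FreeGroup.mk q.2.toWord * FreeGroup.mk (ArcA_W t) := by
      rw [FreeGroup.mul_mk, FreeGroup.mul_mk]; simp
    rw [h1, ih, FreeGroup.mk_toWord]
    simp [arcP, lett]

theorem ArcA_lin (f : Fin 3 × Bool → Fin 3 × Bool → ℕ) (q : Bool × FreeGroup (Fin 3))
    (t : List (Bool × FreeGroup (Fin 3))) (w : Bool × FreeGroup (Fin 3)) :
    lin f (0, q.1) (q.2.toWord ++ ArcA_W t) (0, w.1) =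
      lin (fun q r : Bool × FreeGroup (Fin 3) => lin f (0, q.1) q.2.toWord (0, r.1)) q t w := by
  induction t generalizing q with
  | nil => simp [ArcA_W, lin]
  | cons r t ih => rw [ArcA_W_cons, lin_append, ih, lin]

theorem ArcA_cyc (f : Fin 3 × Bool → Fin 3 × Bool → ℕ) (L : List (Bool × FreeGroup (Fin 3))) :
    cyc f (ArcA_W L) =
      cyc (fun q r : Bool × FreeGroup (Fin 3) => lin f (0, q.1) q.2.toWord (0, r.1)) L := by
  cases L with
  | nil => simp [ArcA_W, cyc]
  | cons q t => rw [ArcA_W_cons, cyc, cyc, ArcA_lin]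

theorem ArcA_seg {q r : Bool × FreeGroup (Fin 3)} (hq : In12 q.2) :
    lin (fun a b : Fin 3 × Bool => if b = bar a then 1 else 0) (0, q.1) q.2.toWord (0, r.1) =
      if q.2 = 1 ∧ q.1 ≠ r.1 then 1 else 0 := by
  have hred : FreeGroup.IsReduced q.2.toWord := FreeGroup.isReduced_toWord
  rcases hw : q.2.toWord with _ | ⟨y, w⟩
  · have h1 : q.2 = 1 := FreeGroup.toWord_eq_nil_iff.1 hw
    simp only [lin]
    rcases q with ⟨a, g⟩
    rcases r with ⟨b, h⟩
    simp only at h1
    subst h1
    cases a <;> cases b <;> simp [bar]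
  · have h1 : q.2 ≠ 1 := by
      intro h; rw [h, FreeGroup.toWord_one] at hw; simp at hw
    rw [if_neg (fun h => h1 h.1)]
    rw [hw] at hred
    have hIn : ∀ x ∈ y :: w, x.1 ≠ 0 := by
      intro x hx
      exact hq x (by rw [hw]; exact hx)
    rw [lin]
    have h2 : (if y = bar (0, q.1) then 1 else 0) = 0 := by
      rw [if_neg]
      intro h
      apply hIn y (by simp)
      rw [h]; rfl
    have h3 : lin (fun a b : Fin 3 × Bool => if b = bar a then 1 else 0) y w (0, r.1) = 0 := by
      rw [SylB_lin_zero]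
      have h4 : (y :: (w ++ [((0 : Fin 3), r.1)])) = (y :: w) ++ [((0 : Fin 3), r.1)] := rfl
      rw [h4, List.isChain_append]
      refine ⟨?_, List.isChain_singleton _, ?_⟩
      · unfold FreeGroup.IsReduced at hred
        refine List.IsChain.imp (fun a b h => ?_) hred
        rw [if_neg]
        intro h5
        have h6 : a.1 = b.1 := by rw [h5]; rfl
        have h7 := h h6
        rw [h5] at h7
        simp [bar] at h7
      · intro a ha b hb
        have hb' : b = (0, r.1) := by simpa using hb.symm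
        have ha' : a ∈ y :: w := List.mem_of_mem_getLast? ha
        rw [if_neg]
        intro h5
        apply hIn a ha'
        have h6 : a.1 = b.1 := by rw [h5]; rfl
        rw [h6, hb']
    rw [h3, h2]

theorem ArcA_CR_iff {L : List (Bool × FreeGroup (Fin 3))} (h : ∀ q ∈ L, In12 q.2) :
    CR (ArcA_W L) ↔ cyc (fun q r => if q.2 = 1 ∧ q.1 ≠ r.1 then 1 else 0) L = 0 := by
  rw [SylB_CR_iff, ArcA_cyc]
  rw [SylB_cyc_congr (g := fun q r : Bool × FreeGroup (Fin 3) =>
    if q.2 = 1 ∧ q.1 ≠ r.1 then 1 else 0) L]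
  intro q hq r _
  exact ArcA_seg (h q hq)

theorem ArcA_cntL {L : List (Bool × FreeGroup (Fin 3))} (h : ∀ q ∈ L, In12 q.2) :
    cntL (ArcA_W L) 0 = L.length := by
  induction L with
  | nil => simp [ArcA_W, cntL]
  | cons q t ih =>
    have ih' := ih (fun q hq => h q (List.mem_cons_of_mem _ hq))
    have hq := h q List.mem_cons_self
    unfold cntL at ih' ⊢
    rw [ArcA_W_cons, List.countP_cons_of_pos (by simp), List.countP_append, ih']
    have h0 : List.countP (fun x : Fin 3 × Bool => decide (x.1 = 0)) q.2.toWord = 0 := by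
      rw [List.countP_eq_zero]
      intro x hx
      simpa using hq x hx
    rw [h0]
    simp

theorem ArcA_length (L : List (Bool × FreeGroup (Fin 3))) :
    (ArcA_W L).length = L.length + (L.map (fun q => q.2.norm)).sum := by
  induction L with
  | nil => simp [ArcA_W]
  | cons q t ih =>
    rw [ArcA_W_cons]
    simp only [List.length_cons, List.length_append, List.map_cons, List.sum_cons]
    rw [ih, FreeGroup.norm]
    omega

theorem arc_len {L : List (Bool × FreeGroup (Fin 3))} (h : ArcOK L) :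
    cycLen (ConjClasses.mk (arcP L)) = L.length + (L.map (fun q => q.2.norm)).sum ∧
      cnt (ConjClasses.mk (arcP L)) 0 = L.length := by
  obtain ⟨_, hIn, hc⟩ := h
  have hCR : CR (ArcA_W L) := (ArcA_CR_iff hIn).2 hc
  have hcls : ConjClasses.mk (arcP L) = cls (ArcA_W L) := by
    unfold cls
    rw [ArcA_mk]
  rw [hcls]
  exact ⟨by rw [cycLen_cls hCR, ArcA_length], by rw [cnt_cls hCR, ArcA_cntL hIn]⟩

theorem ArcA_group (l : List (Fin 3 × Bool)) (hl : FreeGroup.IsReduced l) :
    ∃ (w : List (Fin 3 × Bool)) (L : List (Bool × FreeGroup (Fin 3))), l = w ++ ArcA_W L ∧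
      (∀ x ∈ w, x.1 ≠ 0) ∧ ∀ q ∈ L, In12 q.2 := by
  induction l with
  | nil => exact ⟨[], [], by simp [ArcA_W], by simp, by simp⟩
  | cons y l ih =>
    have hl' : FreeGroup.IsReduced l := by
      unfold FreeGroup.IsReduced at hl ⊢
      exact hl.tail
    obtain ⟨w, L, h1, h2, h3⟩ := ih hl'
    by_cases hy : y.1 = 0
    · have hw : FreeGroup.IsReduced w := red_mid hl' ⟨[], ArcA_W L, by simp [h1]⟩
      have hw' : (FreeGroup.mk w).toWord = w := by
        rw [FreeGroup.toWord_mk]
        exact (FreeGroup.isReduced_iff_reduce_eq).1 hw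
      refine ⟨[], (y.2, FreeGroup.mk w) :: L, ?_, by simp, ?_⟩
      · rw [ArcA_W_cons, hw', h1]
        simp only [List.nil_append]
        congr 1
        exact Prod.ext hy rfl
      · intro q hq
        rcases List.mem_cons.1 hq with rfl | hq
        · exact In12_mk h2
        · exact h3 q hq
    · refine ⟨y :: w, L, by rw [h1]; rfl, ?_, h3⟩
      intro x hx
      rcases List.mem_cons.1 hx with rfl | hx
      · exact hy
      · exact h2 x hx

theorem exists_arc {V : CC} (h : 1 ≤ cnt V 0) : ∃ L, ArcOK L ∧ ConjClasses.mk (arcP L) = V := by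
  have hw := rep_CR V
  have hc := cls_rep V
  have h' : 0 < cnt V 0 := h
  rw [cnt, cntL, List.countP_pos_iff] at h'
  obtain ⟨x, hx, hxi⟩ := h'
  have hxi' : x.1 = 0 := by simpa using hxi
  obtain ⟨u, v, huv⟩ := List.append_of_mem hx
  have hrot : rep V ~r (x :: (v ++ u)) := by
    rw [huv]
    have := List.isRotated_append (l := u) (l' := x :: v)
    simpa using this
  have hCR : CR (x :: (v ++ u)) := CR_of_rotated hrot hw
  have hcls : cls (x :: (v ++ u)) = V := by rw [← cls_of_rotated hrot, hc]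
  have hred : FreeGroup.IsReduced (v ++ u) := by
    have := hCR.1
    unfold FreeGroup.IsReduced at this ⊢
    exact this.tail
  obtain ⟨w, L, h1, h2, h3⟩ := ArcA_group (v ++ u) hred
  have hwr : FreeGroup.IsReduced w := red_mid hred ⟨[], ArcA_W L, by simp [h1]⟩
  have hw' : (FreeGroup.mk w).toWord = w := by
    rw [FreeGroup.toWord_mk]
    exact (FreeGroup.isReduced_iff_reduce_eq).1 hwr
  have he : x :: (v ++ u) = ArcA_W ((x.2, FreeGroup.mk w) :: L) := by
    rw [ArcA_W_cons, hw', h1]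
    congr 1
    exact Prod.ext hxi' rfl
  have hIn : ∀ q ∈ (x.2, FreeGroup.mk w) :: L, In12 q.2 := by
    intro q hq
    rcases List.mem_cons.1 hq with rfl | hq
    · exact In12_mk h2
    · exact h3 q hq
  rw [he] at hCR hcls
  refine ⟨(x.2, FreeGroup.mk w) :: L, ⟨by simp, hIn, (ArcA_CR_iff hIn).1 hCR⟩, ?_⟩
  rw [← ArcA_mk]
  exact hcls

theorem ArcA_isConj (p x : FreeGroup (Fin 3)) :
    ConjClasses.mk (p * x * p⁻¹) = ConjClasses.mk x := by
  rw [ConjClasses.mk_eq_mk_iff_isConj]
  exact (isConj_iff.2 ⟨p, rfl⟩).symm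

theorem arc_conj {φ : FreeGroup (Fin 3) ≃* FreeGroup (Fin 3)} {p : FreeGroup (Fin 3)}
    (h : Tw φ p p⁻¹) {L : List (Bool × FreeGroup (Fin 3))} (hL : ArcOK L) :
    act φ (ConjClasses.mk (arcP L)) =
      ConjClasses.mk (arcP (L.map (fun q => (q.1, p⁻¹ * q.2 * p)))) := by
  obtain ⟨_, hIn, _⟩ := hL
  obtain ⟨_, _, h0, hφ⟩ := h
  have hlett : ∀ ε : Bool, φ (lett (0, ε)) = p * lett (0, ε) * p⁻¹ := by
    intro ε
    cases ε with
    | true => rw [lett_true, h0]
    | false =>
      rw [lett_false, map_inv, h0]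
      group
  have key : ∀ L : List (Bool × FreeGroup (Fin 3)), (∀ q ∈ L, In12 q.2) →
      φ (arcP L) = p * arcP (L.map (fun q => (q.1, p⁻¹ * q.2 * p))) * p⁻¹ := by
    intro L
    induction L with
    | nil => intro _; simp [arcP]
    | cons q t ih =>
      intro hq
      have ih' := ih (fun q h => hq q (List.mem_cons_of_mem _ h))
      have h1 : arcP (q :: t) = lett (0, q.1) * q.2 * arcP t := by simp [arcP]
      have h2 : arcP ((q :: t).map (fun q => (q.1, p⁻¹ * q.2 * p))) =
          lett (0, q.1) * (p⁻¹ * q.2 * p) * arcP (t.map (fun q => (q.1, p⁻¹ * q.2 * p))) := by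
        simp [arcP]
      rw [h1, h2, map_mul, map_mul, ih', hlett, hφ _ (hq q List.mem_cons_self)]
      group
  rw [act_mk, key L hIn, ArcA_isConj]

theorem ArcOK_conj {p : FreeGroup (Fin 3)} (hp : In12 p) {L : List (Bool × FreeGroup (Fin 3))}
    (hL : ArcOK L) : ArcOK (L.map (fun q => (q.1, p⁻¹ * q.2 * p))) := by
  obtain ⟨h1, h2, h3⟩ := hL
  refine ⟨by simpa using h1, ?_, ?_⟩
  · intro q hq
    obtain ⟨q', hq', rfl⟩ := List.mem_map.1 hq
    exact In12_mul (In12_mul (In12_inv hp) (h2 q' hq')) hp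
  · rw [Rel_cyc_map]
    have : (fun x y : Bool × FreeGroup (Fin 3) =>
        if (x.1, p⁻¹ * x.2 * p).2 = 1 ∧ (x.1, p⁻¹ * x.2 * p).1 ≠ (y.1, p⁻¹ * y.2 * p).1
          then 1 else 0) =
        (fun q r => if q.2 = 1 ∧ q.1 ≠ r.1 then 1 else 0) := by
      funext x y
      have h : p⁻¹ * x.2 * p = 1 ↔ x.2 = 1 := by
        constructor
        · intro h
          have h2 : x.2 = p * (p⁻¹ * x.2 * p) * p⁻¹ := by group
          rw [h2, h]; group
        · intro h; rw [h]; group
      simp only [h]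
    rw [this]
    exact h3

end Pool.Agent.Sims
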