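import Pool.Agent.Sims.TwDefs

/-!
# Module `Par` : parity of capacities, pair cuts
-/

namespace Pool.Agent.Sims

theorem Par_cap (w : List (Fin 3 × Bool)) (A : Fin 3 × Bool → Bool) :
    cap w A + 2 * cyc (fun x y => if A x && A (bar y) then 1 else 0) w =
      (w.map (fun x => if A x then 1 else 0)).sum + (w.map (fun y => if A (bar y) then 1 else 0)).sum := by
  rw [two_mul, ← cyc_fst, ← cyc_snd (fun y => if A (bar y) then 1 else 0)]
  unfold cap
  rw [← cyc_add, ← cyc_add, ← cyc_add]
  congr 1
  funext x y
  generalize A x = a1
  generalize A (bar y) = a2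
  revert a1 a2
  decide

theorem Par_sum (w : List (Fin 3 × Bool)) (A : Fin 3 × Bool → Bool) :
    ((w.map (fun x => if A x then 1 else 0)).sum + (w.map (fun y => if A (bar y) then 1 else 0)).sum) % 2
      = (∑ i, if A (i, true) = A (i, false) then 0 else cntL w i) % 2 := by
  unfold cntL
  induction w with
  | nil => simp
  | cons a w ih =>
    have h1 : (∑ i, if A (i, true) = A (i, false) then 0
        else List.countP (fun x => decide (x.1 = i)) (a :: w)) =
        (∑ i, if A (i, true) = A (i, false) then 0
          else List.countP (fun x => decide (x.1 = i)) w) +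
        (if A (a.1, true) = A (a.1, false) then 0 else 1) := by
      have h2 : (if A (a.1, true) = A (a.1, false) then 0 else 1) =
          ∑ i, if i = a.1 then (if A (a.1, true) = A (a.1, false) then 0 else 1) else 0 := by
        rw [Finset.sum_ite_eq' Finset.univ a.1]
        simp
      rw [h2, ← Finset.sum_add_distrib]
      refine Finset.sum_congr rfl (fun i _ => ?_)
      rw [List.countP_cons]
      by_cases hi : i = a.1
      · subst hi
        by_cases h3 : A (a.1, true) = A (a.1, false)
        · simp [h3]
        · simp [h3]
      · have hi' : ¬ a.1 = i := fun h => hi h.symm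
        by_cases h3 : A (i, true) = A (i, false)
        · simp [h3, hi]
        · simp [h3, hi, hi']
    rw [h1]
    simp only [List.map_cons, List.sum_cons]
    obtain ⟨i, b⟩ := a
    have h5 : ((if A (i, b) then 1 else 0) + (if A (bar (i, b)) then 1 else 0) : ℕ) % 2 =
        (if A (i, true) = A (i, false) then 0 else 1) % 2 := by
      cases b
      · show ((if A (i, false) then 1 else 0) + (if A (i, true) then 1 else 0) : ℕ) % 2 = _
        cases A (i, false) <;> cases A (i, true) <;> simp
      · show ((if A (i, true) then 1 else 0) + (if A (i, false) then 1 else 0) : ℕ) % 2 = _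
        cases A (i, false) <;> cases A (i, true) <;> simp
    generalize (if A (i, b) then 1 else 0 : ℕ) = u1 at *
    generalize (if A (bar (i, b)) then 1 else 0 : ℕ) = u2 at *
    have h6 : ((i, b) : Fin 3 × Bool).1 = i := rfl
    rw [h6]
    generalize (if A (i, true) = A (i, false) then 0 else 1 : ℕ) = u3 at *
    generalize (∑ i, if A (i, true) = A (i, false) then 0
          else List.countP (fun x => decide (x.1 = i)) w) = u4 at *
    generalize (List.map (fun x => if A x then 1 else 0) w).sum = u5 at *
    generalize (List.map (fun y => if A (bar y) then 1 else 0) w).sum = u6 at *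
    omega

theorem cap_parity (c : CC) (A : Fin 3 × Bool → Bool) :
    capC c A % 2 = (∑ i, if A (i, true) = A (i, false) then 0 else cnt c i) % 2 := by
  unfold capC cnt
  rw [← Par_sum, ← Par_cap]
  omega

theorem cap_pair_even (c : CC) (i : Fin 3) : capC c (PrC i) % 2 = 0 := by
  rw [cap_parity]
  simp [PrC]

theorem Par_succ : ∀ i : Fin 3, i + 1 ≠ i := by decide

theorem cap_pair_pos {c : CC} (h : ∀ i, 1 ≤ cnt c i) (i : Fin 3) : 1 ≤ capC c (PrC i) := by
  by_contra h1
  have h2 : capC c (fun x => decide (x.1 = i)) = 0 := by
    have : capC c (PrC i) = 0 := by omega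
    exact this
  rcases cap_pair_zero c i h2 with h3 | h3
  · have := h i
    omega
  · have h4 : i + 1 ≠ i := Par_succ i
    have h5 := h3 (i + 1) h4
    have := h (i + 1)
    omega

end Pool.Agent.Sims
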