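import Pool.Agent.Sims.TwPot

/-!
# Module `TwCo` : long chains of twists are trivial

* `upN_pot`: induction on `k`; one `up` move is `act (pot 2 (ind A))` (`wh_pot`), `pot_add`.
* `up_self`: put `A' = A ∪ {c} ∖ {c⁻¹}`; `act (wh c A') V = act (pot 2 (ind A')) V = act (pot 2 (ind A)) V = V` (`pot_congr`); level by `pot_Lv`.
* `up_self_of_long`: `coarea` for the potential of `upN_pot`, `u = b`, `v = b⁻¹` (`UpN_Sm` for the count), with `p = 0` (`pot_zero`); `up_self`.
Difficulty 1-2.
-/

namespace Pool.Agent.Sims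

open FreeGroup (of)

theorem upN_pot {k : ℕ} {V V' : CC} (h : UpN k V V') : ∃ q : Fin 3 × Bool → ℤ,
    (∀ x, 0 ≤ q x ∧ q x ≤ k) ∧ q (1, true) = k ∧ q (1, false) = 0 ∧ V' = act (pot 2 q) V := by
  induction k generalizing V with
  | zero =>
    have h1 : V' = V := h
    refine ⟨0, fun x => ⟨le_rfl, le_rfl⟩, rfl, rfl, ?_⟩
    rw [pot_zero, h1]
  | succ k ih =>
    obtain ⟨W, ⟨A, -, hy, hy', hW⟩, h2⟩ := h
    obtain ⟨q, hq, hq1, hq0, hV⟩ := ih h2
    have hy1 : A (1, true) = true := hy
    have hy0 : A (1, false) = false := hy'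
    have hW' : W = act (pot 2 (ind A)) V := by
      rw [hW]
      exact wh_pot 2 A V
    refine ⟨q + ind A, fun x => ?_, ?_, ?_, ?_⟩
    · have h3 := hq x
      have h4 : (q + ind A) x = q x + ind A x := rfl
      have h5 : 0 ≤ ind A x ∧ ind A x ≤ 1 := by
        unfold ind
        split_ifs <;> simp
      rw [h4]
      push_cast
      omega
    · have h4 : (q + ind A) (1, true) = q (1, true) + ind A (1, true) := rfl
      have h5 : ind A (1, true) = 1 := by simp [ind, hy1]
      rw [h4, h5, hq1]
      push_cast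
      rfl
    · have h4 : (q + ind A) (1, false) = q (1, false) + ind A (1, false) := rfl
      have h5 : ind A (1, false) = 0 := by simp [ind, hy0]
      rw [h4, h5, hq0]
      rfl
    · rw [hV, hW', pot_add]

theorem up_self {V : CC} {A : Fin 3 × Bool → Bool} (h1 : A (1, true) = true)
    (h2 : A (1, false) = false) (h : act (pot 2 (ind A)) V = V) : Mv .up V V := by
  obtain ⟨A', hA'⟩ : ∃ A' : Fin 3 × Bool → Bool,
      A' = fun x => (A x && decide (x ≠ (2, false))) || decide (x = (2, true)) := ⟨_, rfl⟩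
  have e1 : act (pot 2 (ind A')) V = act (pot 2 (ind A)) V := by
    apply pot_congr
    intro x hx
    have h3 : x ≠ (2, false) := fun h => hx (by rw [h])
    have h4 : x ≠ (2, true) := fun h => hx (by rw [h])
    simp [ind, hA', h3, h4]
  have e2 : act (pot 2 (ind A')) V = V := e1.trans h
  have hj : A' (2, true) = true := by simp [hA']
  have hj' : A' (2, false) = false := by simp [hA']
  have hL : Lv V (2, true) A' := pot_Lv hj hj' (by rw [e2])
  have hy : A' (1, true) = true := by simp [hA', h1]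
  have hy' : A' (1, false) = false := by simp [hA', h2]
  refine ⟨A', hL, hy, hy', ?_⟩
  have e3 : act (wh (2, true) A') V = V := by rw [wh_pot, e2]
  exact e3.symm

theorem up_self_of_long {k : ℕ} {V V' : CC} (h : UpN k V V') (hk : 2 * cnt V 2 < k) :
    Mv .up V V := by
  obtain ⟨q, hq, hq1, hq0, hV⟩ := upN_pot h
  have h1 : cnt (act (pot 2 q) V) 2 ≤ cnt V 2 := by
    rw [← hV]
    exact ((UpN_Sm h).2 2).le
  obtain ⟨t, ht, ht', hp⟩ := coarea h1 (u := (1, true)) (v := (1, false)) (by decide) (by decide)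
    (by rw [hq1, hq0]; omega)
  have h2 := hp 0
  rw [zero_add, pot_zero] at h2
  refine up_self ?_ ?_ h2
  · simpa using ht'
  · simpa using ht

end Pool.Agent.Sims
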