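import Pool.Agent.Sims.TwChain
import Pool.Agent.Sims.TwCo
import Pool.Agent.Sims.Par

/-!
# Module `EvCh` : refined chain bounds for an even least count

* `even_cross`: `s` syllable form with respect to `j = 2` (`SValid`), `X` a set of letters different from `c^{±1}`.  The number of cyclically consecutive pairs `(q, r)` of `s` with exactly one of `q.1`, `bar r.1` in `X` has
  the parity of `∑_q ([q.1 ∈ X] + [bar q.1 ∈ X])` (`cyc_fst`, `cyc_snd`, `cyc_add`: `[x ≠ y] ≡ x + y mod 2`), which counts, over the occurrences of `x_i^{±1}`, `[(i,true) ∈ X] + [(i,false) ∈ X]` each; for `i = 0, 1` the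
  number of occurrences is even, so the sum is even.
* `even_up`: as `up_self_of_long` (module `TwCo`, see also `coarea` in `TwPot`): `V' = act (pot 2 q) V`, `0 ≤ q ≤ k`, `q b = k`, `q b⁻¹ = 0`; both `V` and `V'` have the same count of `c`, so
  `∑_{pairs} |q(x) - q(y)| ≤ 2 cnt V 2` (`TwPot_diff`), and the sum is `∑_{t=1}^{k} (number of pairs separated by {q ≥ t})` at least (`TwPot_layer`).  Each of these numbers is even (`even_cross`); if all were nonzero, they
  would be `≥ 2` and `2 k ≤ 2 cnt V 2`, contradiction.  So some `X = {q ≥ t}` (`1 ≤ t ≤ k`, so `b ∈ X`, `b⁻¹ ∉ X`) separates no pair: `NoX`, `act (pot 2 (ind X)) V = V` (`TwPot_NoX_act`, `pot_zero`) and `up_self`.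
  (The case in which `V` has no syllable form: all potentials fix `V`, `TwPot_cases`.)
* `ev_chain`: as `strict_bound` (module `TwChain`): `chain_bound` with `K = cnt c 2`, `hK` by `even_up` (`Sm`: counts are constant on `G`); `hud`: a level cut with multiplier `b` which separates `c` has capacity
  `cnt 1 < cnt 2` and `≥ cnt 2` (`OMin.le_cap`).
* `ev_odd`: `cnt 0` even, `cnt 1` odd: there are no twists: a twist `A` separates `b` and `c`; `cap_parity`: `cap A ≡ [A separates a] cnt 0 + cnt 1 + cnt 2`.  Multiplier `c`: `cap A = cnt 2`, so `cnt 1` is even,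
  contradiction.  Multiplier `b`: `cap A = cnt 1` and `≥ cnt 2`, so `cnt 1 = cnt 2` and `cnt 1 ≡ 2 cnt 1`, contradiction.  So every level move of `V ∈ G` is trivial (`h0`) or `NT` (`Lv_cases`): the set `Cl c` is closed:
  `Bdd_of_closed` (as in `CaseII` or `TwTieB`).
Difficulty 3.
-/

namespace Pool.Agent.Sims

open FreeGroup (of)

theorem EvCh_cap (s : List ((Fin 3 × Bool) × ℤ)) (X : Fin 3 × Bool → Bool) :
    cyc (fun q r : (Fin 3 × Bool) × ℤ => if X q.1 = X (bar r.1) then 0 else 1) s +
      2 * cyc (fun q r : (Fin 3 × Bool) × ℤ => if X q.1 && X (bar r.1) then 1 else 0) s =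
      (s.map (fun q : (Fin 3 × Bool) × ℤ => if X q.1 then 1 else 0)).sum +
        (s.map (fun q : (Fin 3 × Bool) × ℤ => if X (bar q.1) then 1 else 0)).sum := by
  rw [two_mul, ← cyc_fst, ← cyc_snd (fun q : (Fin 3 × Bool) × ℤ => if X (bar q.1) then 1 else 0)]
  rw [← cyc_add, ← cyc_add, ← cyc_add]
  congr 1
  funext x y
  generalize X x.1 = a1
  generalize X (bar y.1) = a2
  revert a1 a2
  decide

theorem EvCh_sum (X : Fin 3 × Bool → Bool) (s : List ((Fin 3 × Bool) × ℤ))
    (hs : ∀ q ∈ s, q.1.1 ≠ 2) :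
    (s.map (fun q : (Fin 3 × Bool) × ℤ => if X q.1 then 1 else 0)).sum +
        (s.map (fun q : (Fin 3 × Bool) × ℤ => if X (bar q.1) then 1 else 0)).sum =
      ((if X (0, true) then 1 else 0) + (if X (0, false) then 1 else 0)) *
        s.countP (fun q => decide (q.1.1 = 0)) +
      ((if X (1, true) then 1 else 0) + (if X (1, false) then 1 else 0)) *
        s.countP (fun q => decide (q.1.1 = 1)) := by
  induction s with
  | nil => simp
  | cons a t ih =>
    have ih' := ih (fun q hq => hs q (List.mem_cons_of_mem _ hq))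
    have ha := hs a List.mem_cons_self
    simp only [List.map_cons, List.sum_cons]
    obtain ⟨⟨i, b⟩, k⟩ := a
    have hi : i = 0 ∨ i = 1 := by
      have h2 : ∀ i : Fin 3, i ≠ 2 → i = 0 ∨ i = 1 := by decide
      exact h2 i ha
    rcases hi with rfl | rfl
    · rw [List.countP_cons_of_pos (by simp), List.countP_cons_of_neg (by simp)]
      have h5 : ((if X (0, b) then 1 else 0) + (if X (bar (0, b)) then 1 else 0) : ℕ) =
          (if X (0, true) then 1 else 0) + (if X (0, false) then 1 else 0) := by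
        cases b
        · show ((if X (0, false) then 1 else 0) + (if X (0, true) then 1 else 0) : ℕ) = _
          rw [add_comm]
        · rfl
      show ((if X (0, b) then 1 else 0) + (t.map (fun q : (Fin 3 × Bool) × ℤ =>
        if X q.1 then 1 else 0)).sum) + ((if X (bar (0, b)) then 1 else 0) +
        (t.map (fun q : (Fin 3 × Bool) × ℤ => if X (bar q.1) then 1 else 0)).sum) = _
      rw [mul_add, mul_one]
      omega
    · rw [List.countP_cons_of_neg (by simp), List.countP_cons_of_pos (by simp)]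
      have h5 : ((if X (1, b) then 1 else 0) + (if X (bar (1, b)) then 1 else 0) : ℕ) =
          (if X (1, true) then 1 else 0) + (if X (1, false) then 1 else 0) := by
        cases b
        · show ((if X (1, false) then 1 else 0) + (if X (1, true) then 1 else 0) : ℕ) = _
          rw [add_comm]
        · rfl
      show ((if X (1, b) then 1 else 0) + (t.map (fun q : (Fin 3 × Bool) × ℤ =>
        if X q.1 then 1 else 0)).sum) + ((if X (bar (1, b)) then 1 else 0) +
        (t.map (fun q : (Fin 3 × Bool) × ℤ => if X (bar q.1) then 1 else 0)).sum) = _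
      rw [mul_add ((if X (1, true) then 1 else 0) + (if X (1, false) then 1 else 0)), mul_one]
      omega

theorem EvCh_mul {a n : ℕ} (h : n % 2 = 0) : (a * n) % 2 = 0 := by
  rw [Nat.mul_mod, h, mul_zero, Nat.zero_mod]

theorem even_cross {s : List ((Fin 3 × Bool) × ℤ)} (hs : SValid 2 s)
    (h0 : (s.countP (fun q => decide (q.1.1 = 0))) % 2 = 0)
    (h1 : (s.countP (fun q => decide (q.1.1 = 1))) % 2 = 0) (X : Fin 3 × Bool → Bool) :
    (cyc (fun q r : (Fin 3 × Bool) × ℤ => if X q.1 = X (bar r.1) then 0 else 1) s) % 2 = 0 := by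
  have h2 := EvCh_cap s X
  rw [EvCh_sum X s hs.1] at h2
  have h3 := EvCh_mul (a := (if X (0, true) then 1 else 0) + (if X (0, false) then 1 else 0)) h0
  have h4 := EvCh_mul (a := (if X (1, true) then 1 else 0) + (if X (1, false) then 1 else 0)) h1
  omega

theorem EvCh_cases (V : CC) :
    (∀ q : Fin 3 × Bool → ℤ, act (pot 2 q) V = V) ∨
    ∃ s : List ((Fin 3 × Bool) × ℤ), SValid 2 s ∧
      (∀ i : Fin 3, i ≠ 2 → s.countP (fun q => decide (q.1.1 = i)) = cnt V i) ∧
      ∀ q : Fin 3 × Bool → ℤ, act (pot 2 q) V = cls (expand 2 (shift q s)) ∧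
      cnt (act (pot 2 q) V) 2 = cyc (fun a b => (a.2 + q a.1 - q (bar b.1)).natAbs) s := by
  rcases WhEff_cases 2 V with ⟨k, rfl⟩ | ⟨s, -, hs, rfl⟩
  · exact Or.inl (fun q => act_pot_pow 2 q k)
  · refine Or.inr ⟨s, hs, ?_, fun q => ?_⟩
    · intro i hi
      rw [cnt_cls hs.2, cntL_expand_ne _ _ hi]
      unfold cntL
      rw [List.countP_map]
      rfl
    · have hs' := SValid_shift 2 q s hs
      refine ⟨act_pot _ _ _ hs.1, ?_⟩
      rw [act_pot _ _ _ hs.1, cnt_cls hs'.2, cntL_expand_self _ _ hs'.1, sum_shift]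

theorem even_up {k : ℕ} {V V' : CC} (h : UpN k V V') (hk : cnt V 2 < k)
    (h0 : cnt V 0 % 2 = 0) (h1 : cnt V 1 % 2 = 0) : Mv .up V V := by
  obtain ⟨q, hq, hq1, hq0, hV⟩ := upN_pot h
  have h2 : cnt (act (pot 2 q) V) 2 ≤ cnt V 2 := by
    rw [← hV]
    exact ((UpN_Sm h).2 2).le
  have hex : ∃ t : ℤ, 0 < t ∧ t ≤ k ∧
      act (pot 2 (ind (fun x => decide (t ≤ q x)))) V = V := by
    rcases EvCh_cases V with h3 | ⟨s, hs, hcnt, hform⟩
    · exact ⟨k, by omega, le_rfl, h3 _⟩
    · by_contra hcon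
      have hd := TwPot_diff (fun q => (hform q).2) h2
      have e0 := hcnt 0 (by decide)
      have e1 := hcnt 1 (by decide)
      have h5 : ∀ t ∈ Finset.Ioc (0 : ℤ) k, 2 ≤ cyc (fun a b : (Fin 3 × Bool) × ℤ =>
          if decide (t ≤ q a.1) = decide (t ≤ q (bar b.1)) then 0 else 1) s := by
        intro t ht
        rw [Finset.mem_Ioc] at ht
        have h6 := even_cross hs (by rw [e0]; exact h0) (by rw [e1]; exact h1)
          (fun x => decide (t ≤ q x))
        by_contra h7
        apply hcon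
        refine ⟨t, ht.1, ht.2, ?_⟩
        have h8 : NoX (fun x => decide (t ≤ q x)) s := by
          unfold NoX
          have h9 : cyc (fun a b : (Fin 3 × Bool) × ℤ =>
              if decide (t ≤ q a.1) = decide (t ≤ q (bar b.1)) then 0 else 1) s < 2 :=
            not_le.mp h7
          have h10 : cyc (fun a b : (Fin 3 × Bool) × ℤ =>
              if decide (t ≤ q a.1) = decide (t ≤ q (bar b.1)) then 0 else 1) s = 0 := by
            have h11 : cyc (fun a b : (Fin 3 × Bool) × ℤ =>
              if decide (t ≤ q a.1) = decide (t ≤ q (bar b.1)) then 0 else 1) s % 2 = 0 := h6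
            omega
          exact h10
        have h12 := TwPot_NoX_act (fun q => (hform q).1) h8 0
        rwa [zero_add, pot_zero] at h12
      have h6 : (Finset.Ioc (0 : ℤ) k).card * 2 ≤
          ∑ t ∈ Finset.Ioc (0 : ℤ) k, cyc (fun a b : (Fin 3 × Bool) × ℤ =>
          if decide (t ≤ q a.1) = decide (t ≤ q (bar b.1)) then 0 else 1) s := by
        rw [← smul_eq_mul, ← Finset.sum_const]
        exact Finset.sum_le_sum h5
      rw [TwPot_cyc_sum] at h6
      have h7 : cyc (fun a b : (Fin 3 × Bool) × ℤ => ∑ t ∈ Finset.Ioc (0 : ℤ) k,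
          if decide (t ≤ q a.1) = decide (t ≤ q (bar b.1)) then 0 else 1) s ≤
          cyc (fun a b : (Fin 3 × Bool) × ℤ => (q a.1 - q (bar b.1)).natAbs) s := by
        apply cyc_mono
        intro a b
        exact TwPot_layer _ _ _ _
      rw [Int.card_Ioc] at h6
      omega
  obtain ⟨t, ht, ht', hp⟩ := hex
  refine up_self ?_ ?_ hp
  · rw [hq1]
    simpa using ht'
  · rw [hq0]
    simpa using ht

theorem ev_chain {c : CC} {G : Set CC} {B : ℕ} (hO : OMin c) (hc : c ∈ G)
    (hG : ∀ V ∈ G, Sm c V)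
    (hcl : ∀ V ∈ G, ∀ (z : Fin 3 × Bool) (A : Fin 3 × Bool → Bool), Lv V z A →
      act (wh z A) V ∈ G)
    (h0 : ∀ V ∈ G, ∀ (z : Fin 3 × Bool) (A : Fin 3 × Bool → Bool), Lv V z A → z.1 = 0 →
      act (wh z A) V = V)
    (hB : ∀ V ∈ G, ∃ E : Finset CC, E.card ≤ B ∧ ∀ W ∈ Cl V, W ∈ E)
    (h12 : cnt c 1 < cnt c 2) (he0 : cnt c 0 % 2 = 0) (he1 : cnt c 1 % 2 = 0) :
    Bdd c ((cnt c 2 + 1) * B) := by
  refine chain_bound hO hc hG hcl h0 ?_ ?_ hB
  · intro V hV V'
    have hOV : OMin V := Sm_OMin hO (hG V hV)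
    have e1 := (hG V hV).2 1
    have e2 := (hG V hV).2 2
    constructor
    · rintro ⟨A, ⟨_, _, h⟩, hy, hy', _⟩
      have h3 := hOV.le_cap (Dir.y .upB) A hy hy'
      have h4 : capC V A = cnt V 1 := h
      have h5 : cnt V 2 ≤ capC V A := h3
      omega
    · rintro ⟨A, ⟨_, _, h⟩, hy, hy', _⟩
      have h3 := hOV.le_cap (Dir.y .dnB) A hy hy'
      have h4 : capC V A = cnt V 1 := h
      have h5 : cnt V 2 ≤ capC V A := h3
      omega
  · intro V hV V' h
    have e0 := (hG V hV).2 0
    have e1 := (hG V hV).2 1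
    have e2 := (hG V hV).2 2
    exact even_up h (by omega) (by omega) (by omega)

theorem EvCh_noMv {V V' : CC} {d : Dir} (hO : OMin V) (h12 : cnt V 1 ≤ cnt V 2)
    (he0 : cnt V 0 % 2 = 0) (he1 : cnt V 1 % 2 = 1) : ¬ Mv d V V' := by
  rintro ⟨A, ⟨hz, hz', h⟩, hy, hy', _⟩
  have hpar := cap_parity V A
  rw [Fin.sum_univ_three] at hpar
  have h3 := hO.le_cap d.y A hy hy'
  have hz0 : A (d.z.1, true) ≠ A (d.z.1, false) := by
    intro h4
    rcases hd : d.z with ⟨i, b⟩
    rw [hd] at hz hz' h4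
    cases b
    · have h5 : A (i, true) = false := hz'
      have h6 : A (i, false) = true := hz
      have h7 : A (i, true) = A (i, false) := h4
      rw [h5, h6] at h7
      exact absurd h7 (by decide)
    · have h5 : A (i, false) = false := hz'
      have h6 : A (i, true) = true := hz
      have h7 : A (i, true) = A (i, false) := h4
      rw [h5, h6] at h7
      exact absurd h7 (by decide)
  have hy0 : A (d.y.1, true) ≠ A (d.y.1, false) := by
    intro h4
    rcases hd : d.y with ⟨i, b⟩
    rw [hd] at hy hy' h4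
    cases b
    · have h5 : A (i, true) = false := hy'
      have h6 : A (i, false) = true := hy
      have h7 : A (i, true) = A (i, false) := h4
      rw [h5, h6] at h7
      exact absurd h7 (by decide)
    · have h5 : A (i, false) = false := hy'
      have h6 : A (i, true) = true := hy
      have h7 : A (i, true) = A (i, false) := h4
      rw [h5, h6] at h7
      exact absurd h7 (by decide)
  have h5 : A (1, true) ≠ A (1, false) ∧ A (2, true) ≠ A (2, false) := by
    cases d
    · exact ⟨hy0, hz0⟩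
    · exact ⟨hy0, hz0⟩
    · exact ⟨hz0, hy0⟩
    · exact ⟨hz0, hy0⟩
  rw [if_neg h5.1, if_neg h5.2] at hpar
  have h6 : (if A (0, true) = A (0, false) then 0 else cnt V 0) % 2 = 0 := by
    split_ifs
    · rfl
    · exact he0
  cases d
  · have h7 : capC V A = cnt V 2 := h
    omega
  · have h7 : capC V A = cnt V 2 := h
    omega
  · have h7 : capC V A = cnt V 1 := h
    have h8 : cnt V 2 ≤ capC V A := h3
    omega
  · have h7 : capC V A = cnt V 1 := h
    have h8 : cnt V 2 ≤ capC V A := h3
    omega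

theorem ev_odd {c : CC} {G : Set CC} {B : ℕ} (hO : OMin c) (hc : c ∈ G)
    (hG : ∀ V ∈ G, Sm c V)
    (hcl : ∀ V ∈ G, ∀ (z : Fin 3 × Bool) (A : Fin 3 × Bool → Bool), Lv V z A →
      act (wh z A) V ∈ G)
    (h0 : ∀ V ∈ G, ∀ (z : Fin 3 × Bool) (A : Fin 3 × Bool → Bool), Lv V z A → z.1 = 0 →
      act (wh z A) V = V)
    (hB : ∀ V ∈ G, ∃ E : Finset CC, E.card ≤ B ∧ ∀ W ∈ Cl V, W ∈ E)
    (h12 : cnt c 1 ≤ cnt c 2) (he0 : cnt c 0 % 2 = 0) (he1 : cnt c 1 % 2 = 1) :
    Bdd c B := by
  obtain ⟨π, hπ, _, _⟩ := exists_SPerm_one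
  obtain ⟨E', hE'c, hE'⟩ := hB c hc
  have hb : Bdd c E'.card := by
    refine Bdd_of_closed hO (Cl c) E' (fun e he _ => hE' e he)
      ⟨π, c, Cl_refl c, (hπ c).symm⟩ ?_
    intro e he _ z A hz hz' hl
    refine ⟨π, act (wh z A) e, ?_, (hπ _).symm⟩
    have heG := TwChain_mem hcl hc he
    have hL : Lv e z A := ⟨hz, hz', hl⟩
    by_cases hz0 : z.1 = 0
    · rw [h0 e heG z A hL hz0]
      exact he
    · rcases Lv_cases hL hz0 with h | ⟨d, h⟩
      · exact TwChain_nt he h
      · have e0 := (hG e heG).2 0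
        have e1 := (hG e heG).2 1
        have e2 := (hG e heG).2 2
        exact absurd h (EvCh_noMv (Sm_OMin hO (hG e heG)) (by omega) (by omega) (by omega))
  exact Bdd_mono hb hE'c

end Pool.Agent.Sims
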