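import Pool.Agent.Sims.TwSt
import Pool.Agent.Sims.Par

/-!
# Module `OddR1` : `n = cnt 0` odd, smaller than the other two counts, all pair cuts `> n`

Facts for `V` orbit-minimal with counts `n < n₁, n₂`, `n` odd, all pair capacities `> n` (`cap_parity`, `OMin.le_cap`; submodularity `capC_submod`, `capC_submod'`).
(A) Level `a`-moves (`z.1 = 0`, `cap A = n`): `A` does not separate `b` or `c` (capacity `≥ n₁, n₂`), so up to complement (`Lv_compl`) `A ∋ a`, `A ∌ a⁻¹`, and `A` is
    `{a}` (trivial), everything but `a⁻¹` (trivial, `Lv_triv'`), `Sb` or `Sc`.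
(B) `phi_rigid`: suppose `capC V Sb = n`.  Then `cap Sc ≠ n` (`capC_submod'` for `Sb, Sc`: the two pair cuts `{b,b⁻¹}`, `{c,c⁻¹}` have capacity `> n`).  All level moves with
    `z.1 ≠ 0` are trivial: let `S = Sb = {a, b, b⁻¹}`.
    `z.1 = 1`, `cap A = n₁`.  Parity: `n [A separates a] + n₂ [A separates c]` is even.
      - `A` does not separate `c`: then it does not separate `a`; up to complement `a, a⁻¹ ∉ A`: `A = {z}` (trivial) or `A = {z, c, c⁻¹}`: `cap (A∖S) + cap (S∖A) ≤ n₁ + n`,
        `A∖S = {c,c⁻¹}` has `> n`, `S∖A = {a, z⁻¹}` has `≥ n₁`: contradiction.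
      - `A` separates `c`: `n₁ = cap A ≥ n₂`, and `A` separates `a` iff `n₂` is odd.  If it does, up to complement `A = {a, y, w}` with `y` a letter of `b`, `w` of `c`;
        `cap (A∩S) + cap (A∪S) ≤ n₁ + n`; `A∩S = {a, y}` has `≥ n₁`, `A∪S = {a,b,b⁻¹,w}` has `≥ n₂ > n`: contradiction.  If not, up to complement
        `A = {y, w}`, `A∩S = {y}` (`n₁`), `A∪S = {a,b,b⁻¹,w}` (`≥ n₂ > n`): contradiction.
    `z.1 = 2`, `cap A = n₂`.  Not separating `a`, `b`: up to complement `A = {z}` or `{z, b, b⁻¹}`: `A∩S = {b,b⁻¹} > n`, `A∪S = {a,b,b⁻¹,z} ≥ n₂`: contradiction.  Separating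
      exactly one of `a, b`: by parity it is `b` (`n₁` even); up to complement `A = {y, z}`, `A∩S = {y}` (`n₁ > n`), `A∪S = {a,b,b⁻¹,z}` (`≥ n₂`): contradiction.
      Separating both: up to complement `A = {a, y, z}`, `A∩S = {a,y} (≥ n₁)`, `A∪S = {a,b,b⁻¹,z} (≥ n₂)`: contradiction.
(C) The only nontrivial level move of `V` is the one with `A = Sb`, `z = a` (or its complement); for `z = a⁻¹` the cut is `Sbᶜ`, the same move.  The image
    `V' = act (wh (0,true) Sb) V` has `capC V' Sc = n` (`Lv_inv` and complement: `{a, c, c⁻¹}`), the same counts, orbit-minimal.  By symmetry (`swp`: `act_swp_swp`,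
    `cnt_swp`, `capC_swp`, `orb_SPerm`, `act_wh_SPerm`) its only nontrivial level move leads back to `V`.  So `{V, V'}` is closed: `Bdd V 2`.
    If `capC V Sc = n` use `swp`.
(D) `odd_r1`: if some `V ∈ orb c` with the counts of `c` has `cap Sb = n` or `cap Sc = n` then `Bdd c 2` (`Bdd_orb`).  Otherwise `ns_bound` for `G = {V | Sm c V}`:
    `h0` by (A); `hN`: `A` does not separate the other generator of `b, c`, so by parity it does not separate `a`.
Difficulty 3.
-/

namespace Pool.Agent.Sims

open FreeGroup (of)

set_option linter.unusedVariables false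

/-- the cut with the given values -/
def OddR1_mk (a b c d e f : Bool) : Fin 3 × Bool → Bool := fun x =>
  if x.1 = 0 then (if x.2 then a else b) else if x.1 = 1 then (if x.2 then c else d) else
    (if x.2 then e else f)

theorem OddR1_eta (A : Fin 3 × Bool → Bool) :
    A = OddR1_mk (A (0, true)) (A (0, false)) (A (1, true)) (A (1, false)) (A (2, true))
      (A (2, false)) := by
  funext x
  rcases x with ⟨i, b⟩
  fin_cases i <;> cases b <;> rfl

theorem OddR1_op2 (g : Bool → Bool → Bool) (a b c d e f a' b' c' d' e' f' : Bool) :
    (fun x => g (OddR1_mk a b c d e f x) (OddR1_mk a' b' c' d' e' f' x)) =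
      OddR1_mk (g a a') (g b b') (g c c') (g d d') (g e e') (g f f') := by
  funext x
  rcases x with ⟨i, b⟩
  fin_cases i <;> cases b <;> rfl

theorem OddR1_bool {F : Bool → Bool → Bool → Bool → Bool → Bool → ℕ} {n0 n1 n2 : ℕ}
    (hn0 : n0 % 2 = 1) (h01 : n0 < n1) (h02 : n0 < n2)
    (h0 : ∀ a b c d e f, (if a = b then 0 else n0) ≤ F a b c d e f)
    (h1 : ∀ a b c d e f, (if c = d then 0 else n1) ≤ F a b c d e f)
    (h2 : ∀ a b c d e f, (if e = f then 0 else n2) ≤ F a b c d e f)
    (hp : ∀ a b c d e f, F a b c d e f % 2 =
      ((if a = b then 0 else n0) + (if c = d then 0 else n1) + (if e = f then 0 else n2)) % 2)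
    (hI1 : n0 < F false false true true false false)
    (hI2 : n0 < F false false false false true true)
    (hI2' : n0 < F true true true true false false)
    (hsub : ∀ a b c d e f a' b' c' d' e' f', F (a && a') (b && b') (c && c') (d && d') (e && e')
      (f && f') + F (a || a') (b || b') (c || c') (d || d') (e || e') (f || f') ≤
        F a b c d e f + F a' b' c' d' e' f')
    (hsub' : ∀ a b c d e f a' b' c' d' e' f', F (a && !a') (b && !b') (c && !c') (d && !d')
      (e && !e') (f && !f') + F (!a && a') (!b && b') (!c && c') (!d && d') (!e && e')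
        (!f && f') ≤ F a b c d e f + F a' b' c' d' e' f')
    (hS : F true false true true false false = n0) (a b c d e f : Bool) :
    (c ≠ d → F a b c d e f = n1 → a = b ∧ b = e ∧ e = f) ∧
      (e ≠ f → F a b c d e f = n2 → a = b ∧ b = c ∧ c = d) := by
  have p := hp a b c d e f
  have s1 := hsub a b c d e f true false true true false false
  have s2 := hsub' a b c d e f true false true true false false
  have l0 := h0 a b c d e f
  have l1 := h1 a b c d e f
  have l2 := h2 a b c d e f
  have m1 := h1 (a && true) (b && false) (c && true) (d && true) (e && false) (f && false)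
  have m2 := h2 (a && true) (b && false) (c && true) (d && true) (e && false) (f && false)
  have k1 := h1 (a || true) (b || false) (c || true) (d || true) (e || false) (f || false)
  have k2 := h2 (a || true) (b || false) (c || true) (d || true) (e || false) (f || false)
  have r1 := h1 (a && !true) (b && !false) (c && !true) (d && !true) (e && !false) (f && !false)
  have r2 := h2 (a && !true) (b && !false) (c && !true) (d && !true) (e && !false) (f && !false)
  have q1 := h1 (!a && true) (!b && false) (!c && true) (!d && true) (!e && false) (!f && false)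
  have q2 := h2 (!a && true) (!b && false) (!c && true) (!d && true) (!e && false) (!f && false)
  clear h0 h1 h2 hp hsub hsub'
  cases a <;> cases b <;> cases c <;> cases d <;> cases e <;> cases f <;>
    simp at p s1 s2 l0 l1 l2 m1 m2 k1 k2 r1 r2 q1 q2 ⊢ <;> omega

theorem OddR1_le {V : CC} (hO : OMin V) (i : Fin 3) (A : Fin 3 × Bool → Bool) :
    (if A (i, true) = A (i, false) then 0 else cnt V i) ≤ capC V A := by
  split
  · exact Nat.zero_le _
  · next hne =>
    cases h : A (i, true) with
    | true =>
      have h' : A (i, false) = false := by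
        rw [h] at hne
        simpa using hne
      exact hO.le_cap (i, true) A h h'
    | false =>
      have h' : A (i, false) = true := by
        rw [h] at hne
        simpa using hne
      exact hO.le_cap (i, false) A h' h

/-- `a`-moves -/
theorem odd_amove {V : CC} (hO : OMin V) (h01 : cnt V 0 < cnt V 1) (h02 : cnt V 0 < cnt V 2)
    {z : Fin 3 × Bool} {A : Fin 3 × Bool → Bool} (h : Lv V z A) (hz : z.1 = 0) :
    act (wh z A) V = V ∨ (capC V Sb = cnt V 0 ∧ act (wh z A) V = act (wh (0, true) Sb) V) ∨
      (capC V Sc = cnt V 0 ∧ act (wh z A) V = act (wh (0, true) Sc) V) := by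
  -- reduction to `z = (0, true)`
  have key : ∀ A : Fin 3 × Bool → Bool, Lv V (0, true) A →
      act (wh (0, true) A) V = V ∨
      (capC V Sb = cnt V 0 ∧ act (wh (0, true) A) V = act (wh (0, true) Sb) V) ∨
      (capC V Sc = cnt V 0 ∧ act (wh (0, true) A) V = act (wh (0, true) Sc) V) := by
    intro A hL
    obtain ⟨hA, hA', hc⟩ := id hL
    have hc' : capC V A = cnt V 0 := hc
    have e1 := OddR1_le hO 1 A
    have e2 := OddR1_le hO 2 A
    rw [hc'] at e1 e2
    have s1 : A (1, true) = A (1, false) := by
      by_contra hne
      rw [if_neg hne] at e1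
      omega
    have s2 : A (2, true) = A (2, false) := by
      by_contra hne
      rw [if_neg hne] at e2
      omega
    cases hb : A (1, true) with
    | false =>
      cases hcc : A (2, true) with
      | false =>
        left
        apply Lv_triv
        rintro ⟨i, b⟩ hi
        have hi' : i ≠ 0 := hi
        fin_cases i
        · exact absurd rfl hi'
        · cases b
          · exact s1 ▸ hb
          · exact hb
        · cases b
          · exact s2 ▸ hcc
          · exact hcc
      | true =>
        right; right
        have hAS : ∀ x, A x = Sc x := by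
          rintro ⟨i, b⟩
          fin_cases i
          · cases b
            · exact hA'
            · exact hA
          · cases b
            · exact s1 ▸ hb
            · exact hb
          · cases b
            · exact s2 ▸ hcc
            · exact hcc
        rw [funext hAS] at hc' ⊢
        exact ⟨hc', rfl⟩
    | true =>
      cases hcc : A (2, true) with
      | false =>
        right; left
        have hAS : ∀ x, A x = Sb x := by
          rintro ⟨i, b⟩
          fin_cases i
          · cases b
            · exact hA'
            · exact hA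
          · cases b
            · exact s1 ▸ hb
            · exact hb
          · cases b
            · exact s2 ▸ hcc
            · exact hcc
        rw [funext hAS] at hc' ⊢
        exact ⟨hc', rfl⟩
      | true =>
        left
        apply Lv_triv'
        rintro ⟨i, b⟩ hi
        have hi' : i ≠ 0 := hi
        fin_cases i
        · exact absurd rfl hi'
        · cases b
          · exact s1 ▸ hb
          · exact hb
        · cases b
          · exact s2 ▸ hcc
          · exact hcc
  rcases z with ⟨i, b⟩
  obtain rfl : i = 0 := hz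
  cases b with
  | true => exact key A h
  | false =>
    obtain ⟨h1, h2⟩ := Lv_compl h
    have h3 := key _ h1
    have h4 : act (wh (0, true) (fun x => !A x)) V = act (wh (0, false) A) V := h2
    rw [h4] at h3
    exact h3

theorem OddR1_uniform {V : CC} {z : Fin 3 × Bool} {A : Fin 3 × Bool → Bool} (b : Bool)
    (h : ∀ x, x.1 ≠ z.1 → A x = b) : act (wh z A) V = V := by
  cases b with
  | false => exact Lv_triv V h
  | true => exact Lv_triv' V h

theorem phi_rigid {V : CC} (hO : OMin V) (h0 : cnt V 0 % 2 = 1) (h01 : cnt V 0 < cnt V 1)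
    (h02 : cnt V 0 < cnt V 2) (hI : ∀ i, cnt V 0 < capC V (PrC i)) (hS : capC V Sb = cnt V 0)
    {z : Fin 3 × Bool} {A : Fin 3 × Bool → Bool} (h : Lv V z A) :
    act (wh z A) V = V ∨ act (wh z A) V = act (wh (0, true) Sb) V := by
  by_cases hz : z.1 = 0
  · rcases odd_amove hO h01 h02 h hz with h1 | ⟨_, h1⟩ | ⟨h2, _⟩
    · exact Or.inl h1
    · exact Or.inr h1
    · exfalso
      have h3 := capC_submod' V Sb Sc
      have e1 : (fun x => Sb x && !Sc x) = PrC 1 := by
        funext x; revert x; decide
      have e2 : (fun x => !Sb x && Sc x) = PrC 2 := by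
        funext x; revert x; decide
      rw [e1, e2, hS, h2] at h3
      have h4 := hI 1
      have h5 := hI 2
      omega
  · left
    have hF := OddR1_bool (F := fun a b c d e f => capC V (OddR1_mk a b c d e f))
      (n0 := cnt V 0) (n1 := cnt V 1) (n2 := cnt V 2) h0 h01 h02
      (fun a b c d e f => OddR1_le hO 0 (OddR1_mk a b c d e f))
      (fun a b c d e f => OddR1_le hO 1 (OddR1_mk a b c d e f))
      (fun a b c d e f => OddR1_le hO 2 (OddR1_mk a b c d e f))
      (fun a b c d e f => by
        have := cap_parity V (OddR1_mk a b c d e f)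
        rw [Fin.sum_univ_three] at this
        exact this)
      (by
        have : OddR1_mk false false true true false false = PrC 1 := by
          funext x; revert x; decide
        show cnt V 0 < capC V (OddR1_mk false false true true false false)
        rw [this]; exact hI 1)
      (by
        have : OddR1_mk false false false false true true = PrC 2 := by
          funext x; revert x; decide
        show cnt V 0 < capC V (OddR1_mk false false false false true true)
        rw [this]; exact hI 2)
      (by
        have : OddR1_mk true true true true false false = fun x => !(PrC 2) x := by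
          funext x; revert x; decide
        show cnt V 0 < capC V (OddR1_mk true true true true false false)
        rw [this, capC_compl]; exact hI 2)
      (fun a b c d e f a' b' c' d' e' f' => by
        have := capC_submod V (OddR1_mk a b c d e f) (OddR1_mk a' b' c' d' e' f')
        rw [OddR1_op2 (fun x y => x && y), OddR1_op2 (fun x y => x || y)] at this
        exact this)
      (fun a b c d e f a' b' c' d' e' f' => by
        have := capC_submod' V (OddR1_mk a b c d e f) (OddR1_mk a' b' c' d' e' f')
        rw [OddR1_op2 (fun x y => x && !y), OddR1_op2 (fun x y => !x && y)] at this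
        exact this)
      (by
        have : OddR1_mk true false true true false false = Sb := by
          funext x; revert x; decide
        show capC V (OddR1_mk true false true true false false) = cnt V 0
        rw [this]; exact hS)
      (A (0, true)) (A (0, false)) (A (1, true)) (A (1, false)) (A (2, true)) (A (2, false))
    obtain ⟨hA, hA', hc⟩ := h
    rcases z with ⟨i, b⟩
    have hne : A (i, true) ≠ A (i, false) := by
      cases b with
      | true =>
        have h1 : A (i, true) = true := hA
        have h2 : A (i, false) = false := hA'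
        rw [h1, h2]; decide
      | false =>
        have h1 : A (i, false) = true := hA
        have h2 : A (i, true) = false := hA'
        rw [h1, h2]; decide
    have hc' : capC V A = cnt V i := hc
    rw [OddR1_eta A] at hc'
    have hi : i ≠ 0 := hz
    fin_cases i
    · exact absurd rfl hi
    · obtain ⟨g1, g2, g3⟩ := hF.1 hne hc'
      refine OddR1_uniform (A (0, true)) ?_
      rintro ⟨j, b'⟩ hj
      have hj' : j ≠ 1 := hj
      fin_cases j
      · cases b'
        · exact g1.symm
        · rfl
      · exact absurd rfl hj'
      · cases b'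
        · exact (g1.trans (g2.trans g3)).symm
        · exact (g1.trans g2).symm
    · obtain ⟨g1, g2, g3⟩ := hF.2 hne hc'
      refine OddR1_uniform (A (0, true)) ?_
      rintro ⟨j, b'⟩ hj
      have hj' : j ≠ 2 := hj
      fin_cases j
      · cases b'
        · exact g1.symm
        · rfl
      · cases b'
        · exact (g1.trans (g2.trans g3)).symm
        · exact (g1.trans g2).symm
      · exact absurd rfl hj'

theorem OddR1_phi_b {V : CC} (hO : OMin V) (h0 : cnt V 0 % 2 = 1) (h01 : cnt V 0 < cnt V 1)
    (h02 : cnt V 0 < cnt V 2) (hI : ∀ W ∈ orb V, ∀ i, cnt V 0 < capC W (PrC i))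
    (hS : capC V Sb = cnt V 0) : Bdd V 2 := by
  classical
  obtain ⟨π, hπ, _, _⟩ := exists_SPerm_one
  have hL : Lv V (0, true) Sb := ⟨by decide, by decide, hS⟩
  set V' := act (wh (0, true) Sb) V with hV'
  obtain ⟨hL1, hb1⟩ := Lv_inv hL
  obtain ⟨hL2, hb2⟩ := Lv_compl hL1
  have hSm := Lv_Sm hL
  rw [← hV'] at hL1 hb1 hL2 hb2 hSm
  have hcut : (fun x => !((Sb x && decide (x ≠ ((0 : Fin 3), true))) ||
      decide (x = bar ((0 : Fin 3), true)))) = Sc := by
    funext x; revert x; decide
  have hbb : bar (bar ((0 : Fin 3), true)) = (0, true) := rfl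
  rw [hcut, hbb] at hL2 hb2
  rw [hb1] at hb2
  -- the swapped class
  set U := act swp.aut V' with hU
  have hO' : OMin V' := Sm_OMin hO hSm
  have hOU : OMin U := OMin_SPerm swp hO'
  obtain ⟨c0, c1, c2⟩ := cnt_swp V'
  rw [← hU] at c0 c1 c2
  have hUorb : U ∈ orb V := orb_trans hSm.1 (orb_SPerm swp V')
  have hUrig : ∀ {z : Fin 3 × Bool} {A : Fin 3 × Bool → Bool}, Lv U z A →
      act (wh z A) U = U ∨ act (wh z A) U = act (wh (0, true) Sb) U := by
    intro z A hzA
    refine phi_rigid hOU ?_ ?_ ?_ ?_ ?_ hzA
    · rw [c0, hSm.2 0]; exact h0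
    · rw [c0, c1, hSm.2 0, hSm.2 2]; exact h02
    · rw [c0, c2, hSm.2 0, hSm.2 1]; exact h01
    · intro i
      rw [c0, hSm.2 0]
      exact hI U hUorb i
    · rw [c0, hU, (capC_swp V').1]
      exact hL2.2.2
  have hUb : act (wh (0, true) Sb) U = act swp.aut V := by
    have h1 := act_wh_SPerm swp (0, true) Sb V'
    have h2 : swp.letter ((0 : Fin 3), true) = (0, true) := by decide
    have h3 : (fun x => Sb (swp.letter x)) = Sc := by
      funext x; revert x; decide
    rw [h2, h3, hb2] at h1
    exact h1
  have hss : ∀ z : Fin 3 × Bool, swp.letter (swp.letter z) = z := by decide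
  have hsb : ∀ z : Fin 3 × Bool, swp.letter (bar (swp.letter z)) = bar z := by decide
  have hrig' : ∀ {z : Fin 3 × Bool} {A : Fin 3 × Bool → Bool}, Lv V' z A →
      act (wh z A) V' = V' ∨ act (wh z A) V' = V := by
    intro z A hzA
    have h1 := act_wh_SPerm swp z (fun x => A (swp.letter x)) V'
    have h2 : (fun x => (fun x => A (swp.letter x)) (swp.letter x)) = A := by
      funext x
      have : swp.letter (swp.letter x) = x := by revert x; decide
      show A (swp.letter (swp.letter x)) = A x
      rw [this]
    rw [h2] at h1
    have hzU : Lv U (swp.letter z) (fun x => A (swp.letter x)) := by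
      obtain ⟨g1, g2, g3⟩ := hzA
      refine ⟨?_, ?_, ?_⟩
      · have : swp.letter (swp.letter z) = z := hss z
        show A (swp.letter (swp.letter z)) = true
        rw [this]; exact g1
      · have : swp.letter (bar (swp.letter z)) = bar z := hsb z
        show A (swp.letter (bar (swp.letter z))) = false
        rw [this]; exact g2
      · rw [hU, capC_SPerm, h2, g3]
        have := cnt_SPerm swp V' z.1
        exact this.symm
    have h3 := hUrig hzU
    rw [h1, hUb] at h3
    rcases h3 with h3 | h3
    · left
      have h4 := congrArg (act swp.aut) h3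
      rw [hU, act_swp_swp, act_swp_swp] at h4
      exact h4
    · right
      have h4 := congrArg (act swp.aut) h3
      rw [act_swp_swp, act_swp_swp] at h4
      exact h4
  have hb : Bdd V ({V, V'} : Finset CC).card := by
    refine Bdd_of_closed hO {V, V'} {V, V'} ?_ ⟨π, V, by simp, (hπ V).symm⟩ ?_
    · intro e he _
      rcases he with he | he
      · rw [he]; simp
      · rw [Set.mem_singleton_iff] at he
        rw [he]; simp
    · intro e he _ z A hz hz' hl
      refine ⟨π, act (wh z A) e, ?_, (hπ _).symm⟩
      rcases he with he | he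
      · subst he
        rcases phi_rigid hO h0 h01 h02 (fun i => hI e (orb_refl e) i) hS ⟨hz, hz', hl⟩
          with h1 | h1
        · rw [h1]; simp
        · rw [h1]; simp [hV']
      · rw [Set.mem_singleton_iff] at he
        rw [he] at hl ⊢
        rcases hrig' (z := z) (A := A) ⟨hz, hz', hl⟩ with h1 | h1
        · rw [h1]; simp
        · rw [h1]; simp
  exact Bdd_mono hb (Finset.card_le_two)

theorem odd_phi {V : CC} (hO : OMin V) (h0 : cnt V 0 % 2 = 1) (h01 : cnt V 0 < cnt V 1)
    (h02 : cnt V 0 < cnt V 2) (hI : ∀ W ∈ orb V, ∀ i, cnt V 0 < capC W (PrC i))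
    (hS : capC V Sb = cnt V 0 ∨ capC V Sc = cnt V 0) : Bdd V 2 := by
  rcases hS with hS | hS
  · exact OddR1_phi_b hO h0 h01 h02 hI hS
  · obtain ⟨c0, c1, c2⟩ := cnt_swp V
    have horb : act swp.aut V ∈ orb V := orb_SPerm swp V
    refine Bdd_orb horb (OddR1_phi_b (OMin_SPerm swp hO) ?_ ?_ ?_ ?_ ?_)
    · rw [c0]; exact h0
    · rw [c0, c1]; exact h02
    · rw [c0, c2]; exact h01
    · intro W hW i
      rw [c0]
      rw [orb_eq horb] at hW
      exact hI W hW i
    · rw [c0, (capC_swp V).1]; exact hS

theorem odd_r1 {c : CC} (hO : OMin c) (h0 : cnt c 0 % 2 = 1) (h01 : cnt c 0 < cnt c 1)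
    (h12 : cnt c 1 ≤ cnt c 2) (hI : ∀ W ∈ orb c, ∀ i, cnt c 0 < capC W (PrC i)) :
    Bdd c ((2 * cnt c 2 + 1) * (2 * (cycLen c - cnt c 0) + 1)) := by
  by_cases hex : ∃ V, Sm c V ∧ (capC V Sb = cnt V 0 ∨ capC V Sc = cnt V 0)
  · obtain ⟨V, hV, hS⟩ := hex
    have e0 := hV.2 0
    have e1 := hV.2 1
    have e2 := hV.2 2
    have hb : Bdd V 2 := by
      refine odd_phi (Sm_OMin hO hV) ?_ ?_ ?_ ?_ hS
      · rw [e0]; exact h0
      · rw [e0, e1]; exact h01
      · rw [e0, e2]; exact lt_of_lt_of_le h01 h12
      · intro W hW i
        rw [e0]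
        rw [orb_eq hV.1] at hW
        exact hI W hW i
    refine Bdd_mono (Bdd_orb hV.1 hb) ?_
    calc 2 ≤ (2 * cnt c 2 + 1) * 1 := by omega
      _ ≤ (2 * cnt c 2 + 1) * (2 * (cycLen c - cnt c 0) + 1) :=
        Nat.mul_le_mul_left _ (by omega)
  · have hex' : ∀ V, Sm c V → capC V Sb ≠ cnt V 0 ∧ capC V Sc ≠ cnt V 0 := fun V hV =>
      ⟨fun h => hex ⟨V, hV, Or.inl h⟩, fun h => hex ⟨V, hV, Or.inr h⟩⟩
    refine ns_bound (G := {V | Sm c V}) hO (Sm_refl c) (fun V hV => hV)
      (fun V hV z A hL => Sm_trans hV (Lv_Sm hL)) ?_ ?_ h12 (by omega) (by omega) (by omega)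
    · intro V hV z A hL hz
      have hV' : Sm c V := hV
      have e0 := hV'.2 0
      have e1 := hV'.2 1
      have e2 := hV'.2 2
      rcases odd_amove (Sm_OMin hO hV') (by omega) (by omega) hL hz with h1 | ⟨h1, _⟩ | ⟨h1, _⟩
      · exact h1
      · exact absurd h1 (hex' V hV').1
      · exact absurd h1 (hex' V hV').2
    · intro V hV z A hL hz hN
      left
      have hV' : Sm c V := hV
      have e0 := hV'.2 0
      obtain ⟨hA, hA', hc⟩ := hL
      have hp := cap_parity V A
      rw [Fin.sum_univ_three] at hp
      rcases z with ⟨i, b⟩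
      have hne : A (i, true) ≠ A (i, false) := by
        cases b with
        | true =>
          have h1 : A (i, true) = true := hA
          have h2 : A (i, false) = false := hA'
          rw [h1, h2]; decide
        | false =>
          have h1 : A (i, false) = true := hA
          have h2 : A (i, true) = false := hA'
          rw [h1, h2]; decide
      have hc' : capC V A = cnt V i := hc
      have hi : i ≠ 0 := hz
      show A (0, true) = A (0, false)
      by_contra hn0
      fin_cases i
      · exact hi rfl
      · have h2 : A (2, true) = A (2, false) := hN 2 (by decide) (show (2 : Fin 3) ≠ 1 by decide)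
        have hne' : A (1, true) ≠ A (1, false) := hne
        have hc'' : capC V A = cnt V 1 := hc'
        rw [if_neg hn0, if_neg hne', if_pos h2, hc''] at hp
        omega
      · have h1 : A (1, true) = A (1, false) := hN 1 (by decide) (show (1 : Fin 3) ≠ 2 by decide)
        have hne' : A (2, true) ≠ A (2, false) := hne
        have hc'' : capC V A = cnt V 2 := hc'
        rw [if_neg hn0, if_neg hne', if_pos h1, hc''] at hp
        omega

end Pool.Agent.Sims
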