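import Pool.Agent.Sims.TpL
import Pool.Agent.Sims.EvCh
import Pool.Agent.Sims.OddR1

/-!
# Module `EvR1N` : `n = cnt 0` even, `≥ 4`, smaller than the other counts, no level move with multiplier `a`

* `ev_arith`: with `p = n₁ + n₂`, `m = n + p ≥ p + 4`: `F3 m ≥ (p+3)(p+2)(p-3)` (`F3` monotone: `F3 m = (m-1)(m-2)(m-7)`), `p ≥ n₁ + n₂ ≥ 10`.
  `(n₂+1)(p+1)^2 ≤ (p-4)(p+1)^2 ≤ (p+3)(p+2)(p-3)` since `n₂ ≤ p - 5`; `5 (p+1)^2 ≤ (p+3)(p+2)(p-3)` for `p ≥ 10`; `(p+1)^2 ≤ ...`.
* `ev_r1_notphi`: `G = {V | Sm c V}`; `h0` as in `odd_r1` (`odd_amove` does not use parity); `hB` by `twoport` (`h = cnt c 0 / 2`, `Sm_OMin`; `cycLen` and `cnt` are constant on `G`).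
  `cnt c 1` odd: `ev_odd`.  `cnt c 1` even, `cnt c 1 < cnt c 2`: `ev_chain`.  `cnt c 1 = cnt c 2` (even): `tie_bound` (`5 * B`).  `cycLen_eq_sum`, `Bdd_mono`.
* `phi_notw`: `cap V Sb = cnt V 0`, `n < n₁ ≤ n₂`: no twist is level.  A twist `A` with multiplier `c` (capacity `n₂`): `A ∩ Sb` contains exactly one of `b, b⁻¹` (capacity `≥ n₁`), `A ∪ Sb` contains `b, b⁻¹` and exactly one of `c, c⁻¹` (capacity
  `≥ n₂`); `capC_submod`: `n₁ + n₂ ≤ n + n₂`, contradiction.  Multiplier `b` (capacity `n₁`): `n₁ + n₂ ≤ n + n₁`, contradiction.  (`OddR1_le`.)  The statement is in terms of `Mv`; by `mv_Cl` (`TwUp`) the same holds for all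
  `W ∈ Cl V` (otherwise `V ∈ Cl W` (`NT_symm`) would have one).
Difficulty 2.
-/

namespace Pool.Agent.Sims

open FreeGroup (of)

theorem ev_arith {m n n1 n2 : ℕ} (hm : m = n + n1 + n2) (h4 : 4 ≤ n) (h01 : n < n1)
    (h12 : n1 ≤ n2) : (n2 + 1) * (n1 + n2 + 1) ^ 2 ≤ F3 m ∧ 5 * (n1 + n2 + 1) ^ 2 ≤ F3 m := by
  subst hm
  unfold F3
  obtain ⟨k, hk⟩ : ∃ k, n1 + n2 = k + 10 := ⟨n1 + n2 - 10, by omega⟩
  have hF : (k + 13) * (k + 12) * (k + 7) ≤
      (n + n1 + n2 - 1) * (n + n1 + n2 - 2) * (n + n1 + n2 - 7) :=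
    Nat.mul_le_mul (Nat.mul_le_mul (by omega) (by omega)) (by omega)
  have h2 : n2 + 1 ≤ k + 6 := by omega
  rw [hk]
  constructor
  · refine le_trans ?_ hF
    refine le_trans (Nat.mul_le_mul_right _ h2) ?_
    nlinarith
  · refine le_trans ?_ hF
    nlinarith [Nat.zero_le (k ^ 3)]

theorem ev_r1_notphi {c : CC} (hO : OMin c) (h4 : 4 ≤ cnt c 0) (he : cnt c 0 % 2 = 0)
    (h01 : cnt c 0 < cnt c 1) (h12 : cnt c 1 ≤ cnt c 2)
    (hP : ∀ V, Sm c V → capC V Sb ≠ cnt V 0 ∧ capC V Sc ≠ cnt V 0) :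
    Bdd c (F3 (cycLen c)) := by
  have hlen : cycLen c = cnt c 0 + cnt c 1 + cnt c 2 := by
    rw [cycLen_eq_sum, Fin.sum_univ_three]
  obtain ⟨ha1, ha2⟩ := ev_arith hlen h4 h01 h12
  have hc : c ∈ {V | Sm c V} := Sm_refl c
  have hG : ∀ V ∈ {V | Sm c V}, Sm c V := fun V hV => hV
  have hcl : ∀ V ∈ {V | Sm c V}, ∀ (z : Fin 3 × Bool) (A : Fin 3 × Bool → Bool), Lv V z A →
      act (wh z A) V ∈ {V | Sm c V} := fun V hV z A hL => Sm_trans hV (Lv_Sm hL)
  have h0 : ∀ V ∈ {V | Sm c V}, ∀ (z : Fin 3 × Bool) (A : Fin 3 × Bool → Bool), Lv V z A →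
      z.1 = 0 → act (wh z A) V = V := by
    intro V hV z A hL hz
    have hV' : Sm c V := hV
    have e0 := hV'.2 0
    have e1 := hV'.2 1
    have e2 := hV'.2 2
    rcases odd_amove (Sm_OMin hO hV') (by omega) (by omega) hL hz with h1 | ⟨h1, _⟩ | ⟨h1, _⟩
    · exact h1
    · exact absurd h1 (hP V hV').1
    · exact absurd h1 (hP V hV').2
  have hB : ∀ V ∈ {V | Sm c V}, ∃ E : Finset CC, E.card ≤ (cnt c 1 + cnt c 2 + 1) ^ 2 ∧
      ∀ W ∈ Cl V, W ∈ E := by
    intro V hV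
    have hV' : Sm c V := hV
    have e0 := hV'.2 0
    have e3 := Sm_len hV'
    obtain ⟨E, hE, hE2⟩ := twoport (V := V) (Sm_OMin hO hV') (h := cnt c 0 / 2) (by omega)
      (by omega)
    refine ⟨E, hE.trans (le_of_eq ?_), hE2⟩
    congr 2
    omega
  rcases Nat.mod_two_eq_zero_or_one (cnt c 1) with h1 | h1
  · rcases Nat.lt_or_ge (cnt c 1) (cnt c 2) with hlt | hge
    · exact Bdd_mono (ev_chain hO hc hG hcl h0 hB hlt he h1) ha1
    · exact Bdd_mono (tie_bound hO hc hG hcl h0 hB (le_antisymm h12 hge) (by omega)) ha2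
  · refine Bdd_mono (ev_odd hO hc hG hcl h0 hB h12 he h1) ?_
    omega

theorem EvR1N_cut {V : CC} (hO : OMin V) (h01 : cnt V 0 < cnt V 1)
    (hS : capC V Sb = cnt V 0 ∨ capC V Sc = cnt V 0) (A : Fin 3 × Bool → Bool)
    (h1 : A (1, true) ≠ A (1, false)) (h2 : A (2, true) ≠ A (2, false)) :
    cnt V 2 < capC V A := by
  rcases hS with hS | hS
  · have hs := capC_submod V A Sb
    have e1 := OddR1_le hO 1 (fun x => A x && Sb x)
    have e2 := OddR1_le hO 2 (fun x => A x || Sb x)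
    have s1 : Sb (1, true) = true := by decide
    have s2 : Sb (1, false) = true := by decide
    have s3 : Sb (2, true) = false := by decide
    have s4 : Sb (2, false) = false := by decide
    simp only [s1, s2, s3, s4, Bool.and_true, Bool.or_false] at e1 e2
    rw [if_neg h1] at e1
    rw [if_neg h2] at e2
    omega
  · have hs := capC_submod V A Sc
    have e1 := OddR1_le hO 2 (fun x => A x && Sc x)
    have e2 := OddR1_le hO 1 (fun x => A x || Sc x)
    have s1 : Sc (2, true) = true := by decide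
    have s2 : Sc (2, false) = true := by decide
    have s3 : Sc (1, true) = false := by decide
    have s4 : Sc (1, false) = false := by decide
    simp only [s1, s2, s3, s4, Bool.and_true, Bool.or_false] at e1 e2
    rw [if_neg h2] at e1
    rw [if_neg h1] at e2
    omega

theorem phi_notw {V : CC} (hO : OMin V) (h01 : cnt V 0 < cnt V 1) (h12 : cnt V 1 ≤ cnt V 2)
    (hS : capC V Sb = cnt V 0 ∨ capC V Sc = cnt V 0) (d : Dir) (W : CC) : ¬ Mv d V W := by
  rintro ⟨A, ⟨hA, hA', hcap⟩, hy, hy', -⟩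
  cases d with
  | up =>
    have a1 : A (2, true) = true := hA
    have a2 : A (2, false) = false := hA'
    have a3 : A (1, true) = true := hy
    have a4 : A (1, false) = false := hy'
    have a5 : capC V A = cnt V 2 := hcap
    have := EvR1N_cut hO h01 hS A (by rw [a3, a4]; decide) (by rw [a1, a2]; decide)
    omega
  | dn =>
    have a1 : A (2, true) = true := hA
    have a2 : A (2, false) = false := hA'
    have a3 : A (1, false) = true := hy
    have a4 : A (1, true) = false := hy'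
    have a5 : capC V A = cnt V 2 := hcap
    have := EvR1N_cut hO h01 hS A (by rw [a3, a4]; decide) (by rw [a1, a2]; decide)
    omega
  | upB =>
    have a1 : A (1, true) = true := hA
    have a2 : A (1, false) = false := hA'
    have a3 : A (2, true) = true := hy
    have a4 : A (2, false) = false := hy'
    have a5 : capC V A = cnt V 1 := hcap
    have := EvR1N_cut hO h01 hS A (by rw [a1, a2]; decide) (by rw [a3, a4]; decide)
    omega
  | dnB =>
    have a1 : A (1, true) = true := hA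
    have a2 : A (1, false) = false := hA'
    have a3 : A (2, false) = true := hy
    have a4 : A (2, true) = false := hy'
    have a5 : capC V A = cnt V 1 := hcap
    have := EvR1N_cut hO h01 hS A (by rw [a1, a2]; decide) (by rw [a3, a4]; decide)
    omega

theorem phi_notw' {V : CC} (hO : OMin V) (h01 : cnt V 0 < cnt V 1) (h12 : cnt V 1 ≤ cnt V 2)
    (hS : capC V Sb = cnt V 0 ∨ capC V Sc = cnt V 0) {V' : CC} (hV' : V' ∈ Cl V) (d : Dir)
    (W : CC) : ¬ Mv d V' W := by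
  intro h
  obtain ⟨W', hW', -⟩ := mv_Cl (Sm_OMin hO (Cl_Sm hV')) (Cl_symm hV') h
  exact phi_notw hO h01 h12 hS d W' hW'

end Pool.Agent.Sims
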