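import Pool.Agent.Sims.TwDefs

/-!
# Module `TwBasic` : elementary facts on level moves

* `Lv_Sm`: `orb_level` (with `orb_refl`), `cnt_wh_self`, `cnt_wh_ne`.
* `Lv_compl`: `capC_compl`, `act_wh_compl`.   `Lv_inv`: `act_wh_inv`; the inverse move leads back to `V`, so by `cycLen_wh` for it
  (and `Lv_Sm`: same length and counts) its cut has capacity `cnt`.
* `Lv_triv`, `Lv_triv'`: `wh z A` depends only on the letters `≠ z^{±1}` (`wh_congr`); if none of them is in `A` it is the identity; if all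
  of them are in `A` it is the same as its complement `(Aᶜ, z⁻¹)` (`act_wh_compl`), again the identity.
* `NT_symm`, `Mv_rev`: by `Lv_inv` (and `Lv_compl` to get back to the letter `d.z`).  E.g. `up`: `A ∋ c, b`, `A ∌ c⁻¹, b⁻¹`; the inverse is
  `(A∖c ∪ c⁻¹, c⁻¹)`, its complement has the letter `c`, contains `c, b⁻¹` and not `c⁻¹, b`: `dn`.
* `Lv_cases`: `z.1 = 1` or `2`; if the other one of `b, c` is not separated: `NT`.  Otherwise, after `Lv_compl`, `z = (1,true)` or `(2,true)`, and
  `A` contains exactly one of the two letters of the other generator: one of the four directions.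
* `NT_SPerm`, `Mv_fb`, `Mv_swp`: `act_wh_SPerm`, `capC_SPerm`, `cnt_SPerm` (for `B := fun x => A (σ.inv.letter x)`; see the use of
  `act_wh_SPerm` in `PeakX.peak`).  For `fb` and `upB`, `dnB` use `Lv_compl` (the multiplier `b` becomes `b⁻¹`).
Difficulty 2 (long but easy).
-/

namespace Pool.Agent.Sims

open FreeGroup (of)

theorem Sm_refl (V : CC) : Sm V V := ⟨orb_refl V, fun _ => rfl⟩

theorem Sm_symm {V V' : CC} (h : Sm V V') : Sm V' V := by
  refine ⟨?_, fun i => (h.2 i).symm⟩
  rw [orb_eq h.1]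
  exact orb_refl V

theorem Sm_trans {V V' V'' : CC} (h : Sm V V') (h' : Sm V' V'') : Sm V V'' :=
  ⟨orb_trans h.1 h'.1, fun i => (h'.2 i).trans (h.2 i)⟩

theorem Sm_OMin {V V' : CC} (hO : OMin V) (h : Sm V V') : OMin V' := OMin_orb hO h.1

theorem Sm_len {V V' : CC} (h : Sm V V') : cycLen V' = cycLen V := h.1.2

theorem Lv_Sm {V : CC} {z : Fin 3 × Bool} {A : Fin 3 × Bool → Bool} (h : Lv V z A) :
    Sm V (act (wh z A) V) := by
  refine ⟨orb_level (orb_refl V) h.1 h.2.1 h.2.2, fun i => ?_⟩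
  by_cases hi : i = z.1
  · subst hi
    rw [cnt_wh_self V z A h.1 h.2.1, h.2.2]
  · exact cnt_wh_ne V z A hi

theorem Lv_compl {V : CC} {z : Fin 3 × Bool} {A : Fin 3 × Bool → Bool} (h : Lv V z A) :
    Lv V (bar z) (fun x => !A x) ∧ act (wh (bar z) (fun x => !A x)) V = act (wh z A) V := by
  refine ⟨⟨?_, ?_, ?_⟩, act_wh_compl z A V⟩
  · simp [h.2.1]
  · simp [h.1]
  · rw [capC_compl, h.2.2]
    rfl

theorem Lv_inv {V : CC} {z : Fin 3 × Bool} {A : Fin 3 × Bool → Bool} (h : Lv V z A) :
    Lv (act (wh z A) V) (bar z) (fun x => (A x && decide (x ≠ z)) || decide (x = bar z)) ∧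
    act (wh (bar z) (fun x => (A x && decide (x ≠ z)) || decide (x = bar z)))
      (act (wh z A) V) = V := by
  have h1 : (fun x => (A x && decide (x ≠ z)) || decide (x = bar z)) (bar z) = true := by simp
  have h2 : (fun x => (A x && decide (x ≠ z)) || decide (x = bar z)) (bar (bar z)) = false := by
    simp [(bar_ne z).symm]
  have h3 := act_wh_inv z A V
  refine ⟨⟨h1, h2, ?_⟩, h3⟩
  have h4 := cycLen_wh (act (wh z A) V) (bar z)
    (fun x => (A x && decide (x ≠ z)) || decide (x = bar z)) h1 h2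
  rw [h3] at h4
  have h5 := Sm_len (Lv_Sm h)
  omega

/-- the result depends only on the letters `≠ z^{±1}` -/
theorem act_wh_congr (V : CC) {z : Fin 3 × Bool} {A B : Fin 3 × Bool → Bool}
    (h : ∀ x, x.1 ≠ z.1 → A x = B x) : act (wh z A) V = act (wh z B) V := by
  rw [wh_congr z h]

theorem Lv_triv (V : CC) {z : Fin 3 × Bool} {A : Fin 3 × Bool → Bool}
    (h : ∀ x, x.1 ≠ z.1 → A x = false) : act (wh z A) V = V := by
  have key : wh z A = MulEquiv.refl _ := by
    apply Rel_ext
    intro i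
    refine ⟨true, ?_⟩
    rw [MulEquiv.refl_apply]
    by_cases hi : i = z.1
    · exact Rel_wh_self' z A (x := (i, true)) hi
    · have h2 : (bar (i, true) : Fin 3 × Bool).1 ≠ z.1 := hi
      rw [wh_lett_ne z A (x := (i, true)) hi, h (i, true) hi, h _ h2]
      simp
  rw [key, act_refl]

theorem Lv_triv' (V : CC) {z : Fin 3 × Bool} {A : Fin 3 × Bool → Bool}
    (h : ∀ x, x.1 ≠ z.1 → A x = true) : act (wh z A) V = V := by
  rw [← act_wh_compl z A V]
  apply Lv_triv
  intro x hx
  have hx' : x.1 ≠ z.1 := hx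
  simp [h x hx']

theorem NT_Sm {V V' : CC} (h : NT V V') : Sm V V' := by
  obtain ⟨z, A, hL, -, -, rfl⟩ := h
  exact Lv_Sm hL

theorem Mv_Sm {d : Dir} {V V' : CC} (h : Mv d V V') : Sm V V' := by
  obtain ⟨A, hL, -, -, rfl⟩ := h
  exact Lv_Sm hL

theorem UpN_Sm {k : ℕ} {V V' : CC} (h : UpN k V V') : Sm V V' := by
  induction k generalizing V with
  | zero =>
    have h1 : V' = V := h
    rw [h1]
    exact Sm_refl V
  | succ k ih =>
    obtain ⟨W, h1, h2⟩ := h
    exact Sm_trans (Mv_Sm h1) (ih h2)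

theorem NT_symm {V V' : CC} (h : NT V V') : NT V' V := by
  obtain ⟨z, A, hL, hz, hs, rfl⟩ := h
  have h1 := Lv_inv hL
  refine ⟨bar z, _, h1.1, hz, ?_, h1.2.symm⟩
  intro i hi hi'
  have hi2 : i ≠ z.1 := hi'
  have e1 : ∀ b : Bool, ((i, b) : Fin 3 × Bool) ≠ z := fun b h => hi2 (by rw [← h])
  have e2 : ∀ b : Bool, ((i, b) : Fin 3 × Bool) ≠ bar z := fun b h => hi2 (by
    have := congrArg Prod.fst h
    exact this)
  have h2 : A (i, true) = A (i, false) := hs i hi hi2
  simp [NSep, e1, e2, h2]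

theorem Cl_refl (V : CC) : V ∈ Cl V := Relation.ReflTransGen.refl

theorem Cl_symm {V V' : CC} (h : V' ∈ Cl V) : V ∈ Cl V' := by
  have h1 : Relation.ReflTransGen NT V V' := h
  change Relation.ReflTransGen NT V' V
  induction h1 with
  | refl => exact Relation.ReflTransGen.refl
  | tail h2 h3 ih => exact Relation.ReflTransGen.head (NT_symm h3) (ih h2)

theorem Cl_trans {V V' V'' : CC} (h : V' ∈ Cl V) (h' : V'' ∈ Cl V') : V'' ∈ Cl V :=
  Relation.ReflTransGen.trans h h'

theorem Cl_Sm {V V' : CC} (h : V' ∈ Cl V) : Sm V V' := by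
  have h1 : Relation.ReflTransGen NT V V' := h
  clear h
  induction h1 with
  | refl => exact Sm_refl V
  | tail _ h3 ih => exact Sm_trans ih (NT_Sm h3)

/-- level move with multiplier `z`, with `y`, not `y⁻¹` in the cut -/
def TwBasic_G (z y : Fin 3 × Bool) (V V' : CC) : Prop := ∃ A : Fin 3 × Bool → Bool, Lv V z A ∧
  A y = true ∧ A (bar y) = false ∧ V' = act (wh z A) V

theorem TwBasic_Mv {d : Dir} {V V' : CC} : Mv d V V' ↔ TwBasic_G d.z d.y V V' := Iff.rfl

theorem TwBasic_compl {z y : Fin 3 × Bool} {V V' : CC} (h : TwBasic_G z y V V') :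
    TwBasic_G (bar z) (bar y) V V' := by
  obtain ⟨A, hL, h1, h2, rfl⟩ := h
  have h3 := Lv_compl hL
  exact ⟨_, h3.1, by simp [h2], by simp [h1], h3.2.symm⟩

theorem TwBasic_rev {z y : Fin 3 × Bool} (hzy : y.1 ≠ z.1) {V V' : CC} (h : TwBasic_G z y V V') :
    TwBasic_G z (bar y) V' V := by
  obtain ⟨A, hL, h1, h2, rfl⟩ := h
  have h3 := Lv_inv hL
  have e1 : y ≠ z := fun h => hzy (by rw [h])
  have e2 : y ≠ bar z := fun h => hzy (by rw [h]; rfl)
  have e3 : bar y ≠ z := fun h => hzy (by rw [← h]; rfl)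
  have e4 : bar y ≠ bar z := fun h => e1 (bar_inj.1 h)
  have h4 : TwBasic_G (bar z) y (act (wh z A) V) V := by
    refine ⟨_, h3.1, ?_, ?_, h3.2.symm⟩
    · simp [h1, e1]
    · simp only [h2, Bool.false_and, Bool.false_or, decide_eq_false_iff_not]
      exact e4
  have h5 := TwBasic_compl h4
  rwa [bar_bar] at h5

theorem TwBasic_SPerm (σ : SPerm (Fin 3)) {V : CC} {z : Fin 3 × Bool} {A : Fin 3 × Bool → Bool}
    (h : Lv V z A) : Lv (act σ.aut V) (σ.letter z) (fun x => A (σ.inv.letter x)) ∧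
    act (wh (σ.letter z) (fun x => A (σ.inv.letter x))) (act σ.aut V) =
      act σ.aut (act (wh z A) V) := by
  have e : (fun x => (fun x => A (σ.inv.letter x)) (σ.letter x)) = A := by
    funext x
    simp only [SPerm.inv_letter]
  refine ⟨⟨?_, ?_, ?_⟩, ?_⟩
  · simp only [SPerm.inv_letter]
    exact h.1
  · simp only [← SPerm.letter_bar, SPerm.inv_letter]
    exact h.2.1
  · rw [capC_SPerm, e, h.2.2]
    exact (cnt_SPerm σ V z.1).symm
  · rw [act_wh_SPerm, e]

theorem TwBasic_GSPerm (σ : SPerm (Fin 3)) {z y : Fin 3 × Bool} {V V' : CC}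
    (h : TwBasic_G z y V V') :
    TwBasic_G (σ.letter z) (σ.letter y) (act σ.aut V) (act σ.aut V') := by
  obtain ⟨A, hL, h1, h2, rfl⟩ := h
  have h3 := TwBasic_SPerm σ hL
  refine ⟨_, h3.1, ?_, ?_, h3.2.symm⟩
  · simp only [SPerm.inv_letter]
    exact h1
  · simp only [← SPerm.letter_bar, SPerm.inv_letter]
    exact h2

theorem Mv_rev {d : Dir} {V V' : CC} (h : Mv d V V') : Mv d.rev V' V := by
  have h1 : TwBasic_G d.z d.y V V' := h
  have h2 : TwBasic_G d.z (bar d.y) V' V := TwBasic_rev (by cases d <;> decide) h1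
  have e1 : d.rev.z = d.z := by cases d <;> rfl
  have e2 : d.rev.y = bar d.y := by cases d <;> rfl
  rw [TwBasic_Mv, e1, e2]
  exact h2

/-- a chain of `up` moves can be extended at the end -/
theorem UpN_succ {k : ℕ} {V V' V'' : CC} (h : UpN k V V') (h' : Mv .up V' V'') :
    UpN (k + 1) V V'' := by
  induction k generalizing V with
  | zero =>
    have h1 : V' = V := h
    rw [h1] at h'
    exact ⟨V'', h', rfl⟩
  | succ k ih =>
    obtain ⟨W, h1, h2⟩ := h
    exact ⟨W, h1, ih h2⟩

theorem TwBasic_cases {V : CC} {z : Fin 3 × Bool} {A : Fin 3 × Bool → Bool} (h : Lv V z A)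
    (hz : z.1 ≠ 0) (hz2 : z.2 = true) :
    NT V (act (wh z A) V) ∨ ∃ d, Mv d V (act (wh z A) V) := by
  by_cases hN : ∀ i, i ≠ 0 → i ≠ z.1 → NSep A i
  · exact Or.inl ⟨z, A, h, hz, hN, rfl⟩
  · right
    push Not at hN
    obtain ⟨i, hi, hi', hs⟩ := hN
    have hs' : A (i, true) ≠ A (i, false) := hs
    have hG : TwBasic_G z (i, A (i, true)) V (act (wh z A) V) := by
      refine ⟨A, h, ?_, ?_, rfl⟩
      · cases h1 : A (i, true) with
        | true => exact h1
        | false =>
          rw [h1] at hs'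
          cases h2 : A (i, false) with
          | true => rfl
          | false => exact absurd h2.symm hs'
      · cases h1 : A (i, true) with
        | true =>
          rw [h1] at hs'
          change A (i, false) = false
          cases h2 : A (i, false) with
          | true => exact absurd h2.symm hs'
          | false => rfl
        | false => exact h1
    rcases z with ⟨j, s⟩
    simp only at hz hz2 hi' hG
    subst hz2
    generalize A (i, true) = b at hG
    have hcase : (i = 1 ∧ j = 2) ∨ (i = 2 ∧ j = 1) := by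
      clear hG hs hs' h
      revert i j
      decide
    rcases hcase with ⟨rfl, rfl⟩ | ⟨rfl, rfl⟩
    · cases b with
      | true => exact ⟨.up, hG⟩
      | false => exact ⟨.dn, hG⟩
    · cases b with
      | true => exact ⟨.upB, hG⟩
      | false => exact ⟨.dnB, hG⟩

theorem Lv_cases {V : CC} {z : Fin 3 × Bool} {A : Fin 3 × Bool → Bool} (h : Lv V z A)
    (hz : z.1 ≠ 0) : NT V (act (wh z A) V) ∨ ∃ d, Mv d V (act (wh z A) V) := by
  cases hb : z.2 with
  | true => exact TwBasic_cases h hz hb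
  | false =>
    have h1 := Lv_compl h
    rw [← h1.2]
    exact TwBasic_cases h1.1 hz (by simp [hb])

theorem NT_SPerm {σ : SPerm (Fin 3)} (hσ : σ.perm 0 = 0) {V V' : CC} (h : NT V V') :
    NT (act σ.aut V) (act σ.aut V') := by
  obtain ⟨z, A, hL, hz, hs, rfl⟩ := h
  have h1 := TwBasic_SPerm σ hL
  refine ⟨_, _, h1.1, ?_, ?_, h1.2.symm⟩
  · change σ.perm z.1 ≠ 0
    intro h2
    apply hz
    apply σ.perm.injective
    rw [h2, hσ]
  · intro i hi hi'
    have hi2 : i ≠ σ.perm z.1 := hi'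
    have h3 : σ.perm.symm i ≠ 0 := by
      intro h4
      apply hi
      rw [← hσ, ← h4, Equiv.apply_symm_apply]
    have h4 : σ.perm.symm i ≠ z.1 := by
      intro h5
      apply hi2
      rw [← h5, Equiv.apply_symm_apply]
    have h5 : A (σ.perm.symm i, true) = A (σ.perm.symm i, false) := hs _ h3 h4
    change A (σ.inv.letter (i, true)) = A (σ.inv.letter (i, false))
    have h6 : σ.inv.sign i = σ.sign (σ.perm.symm i) := rfl
    have h7 : σ.inv.perm i = σ.perm.symm i := rfl
    simp only [SPerm.letter, h7]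
    by_cases h8 : σ.inv.sign i = true
    · simp only [h8, if_true]
      exact h5
    · simp only [h8, Bool.not_true, Bool.not_false]
      exact h5.symm

theorem Cl_SPerm {σ : SPerm (Fin 3)} (hσ : σ.perm 0 = 0) {V V' : CC} (h : V' ∈ Cl V) :
    act σ.aut V' ∈ Cl (act σ.aut V) := by
  have h1 : Relation.ReflTransGen NT V V' := h
  clear h
  induction h1 with
  | refl => exact Cl_refl _
  | tail _ h3 ih => exact Relation.ReflTransGen.tail ih (NT_SPerm hσ h3)

theorem act_fb_fb (V : CC) : act fb.aut (act fb.aut V) = V := by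
  have h := act_SPerm_inv fb V
  exact h

theorem Mv_fb {d : Dir} {V V' : CC} (h : Mv d V V') :
    Mv d.rev (act fb.aut V) (act fb.aut V') := by
  have h1 := TwBasic_GSPerm fb (TwBasic_Mv.1 h)
  cases d with
  | up => exact h1
  | dn => exact h1
  | upB => exact TwBasic_compl h1
  | dnB => exact TwBasic_compl h1

theorem Mv_swp {d : Dir} {V V' : CC} (h : Mv d V V') :
    Mv d.par (act swp.aut V) (act swp.aut V') := by
  have h1 := TwBasic_GSPerm swp (TwBasic_Mv.1 h)
  have e1 : d.par.z = swp.letter d.z := by cases d <;> decide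
  have e2 : d.par.y = swp.letter d.y := by cases d <;> decide
  rw [TwBasic_Mv, e1, e2]
  exact h1

theorem OMin_SPerm (σ : SPerm (Fin 3)) {V : CC} (h : OMin V) : OMin (act σ.aut V) :=
  OMin_orb h (orb_SPerm σ V)

theorem cnt_fb (V : CC) (i : Fin 3) : cnt (act fb.aut V) i = cnt V i := cnt_SPerm fb V i

end Pool.Agent.Sims
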