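import Pool.Agent.Sims.ConjD
import Pool.Agent.Sims.ArcA
import Pool.Agent.Sims.TwBasic

/-!
# Module `OnePort` : groups of classes without separation of `a`
-/

namespace Pool.Agent.Sims

open FreeGroup (of)

theorem oneport {V : CC} (hO : OMin V) (h0 : 1 ≤ cnt V 0) :
    ∃ E : Finset CC, E.card ≤ 2 * (cycLen V - cnt V 0) + 1 ∧
      ∀ (φ : FreeGroup (Fin 3) ≃* FreeGroup (Fin 3)) (p : FreeGroup (Fin 3)), Tw φ p p⁻¹ →
        cycLen (act φ V) = cycLen V → act φ V ∈ E := by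
  classical
  obtain ⟨L, hL, rfl⟩ := exists_arc h0
  have hsum : ∀ M : List (Bool × FreeGroup (Fin 3)), (M.map (fun q => q.2.norm)).sum =
      LT (M.map Prod.snd) := by
    intro M
    unfold LT
    rw [List.map_map]
    rfl
  have hsnd : ∀ p : FreeGroup (Fin 3), (L.map (fun q => (q.1, p⁻¹ * q.2 * p))).map Prod.snd =
      cjT p (L.map Prod.snd) := by
    intro p
    unfold cjT
    rw [List.map_map, List.map_map]
    rfl
  have hlen : ∀ (φ : FreeGroup (Fin 3) ≃* FreeGroup (Fin 3)) (p : FreeGroup (Fin 3)), Tw φ p p⁻¹ →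
      cycLen (act φ (ConjClasses.mk (arcP L))) = L.length + LT (cjT p (L.map Prod.snd)) := by
    intro φ p hφ
    rw [arc_conj hφ hL, (arc_len (ArcOK_conj hφ.1 hL)).1, hsum, hsnd, List.length_map]
  obtain ⟨hl1, hl2⟩ := arc_len hL
  rw [hsum] at hl1
  have hC : CMin (L.map Prod.snd) := by
    intro x hx
    obtain ⟨φ, h1, h2⟩ := exists_tw hx (In12_inv hx)
    have h3 := hO φ
    rw [hlen φ x ⟨hx, In12_inv hx, h1, h2⟩, hl1] at h3
    omega
  obtain ⟨E, hE, hE2⟩ := conj_count hC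
  refine ⟨E.image (fun S => ConjClasses.mk (arcP ((L.map Prod.fst).zip S))), ?_, ?_⟩
  · refine Finset.card_image_le.trans ?_
    rw [hl1, hl2]
    omega
  · intro φ p hφ hcy
    rw [hlen φ p hφ, hl1] at hcy
    have h1 := hE2 p ⟨hφ.1, by omega⟩
    rw [Finset.mem_image]
    refine ⟨_, h1, ?_⟩
    rw [arc_conj hφ hL, ← hsnd p]
    congr 2
    rw [List.map_map, List.zip_map']
    rfl

theorem nt_tw (V : CC) {z : Fin 3 × Bool} {A : Fin 3 × Bool → Bool} (hz : z.1 ≠ 0)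
    (hn : ∀ i, i ≠ 0 → i ≠ z.1 → NSep A i) (h0 : NSep A 0) :
    ∃ (φ : FreeGroup (Fin 3) ≃* FreeGroup (Fin 3)) (p : FreeGroup (Fin 3)), Tw φ p p⁻¹ ∧
      act (wh z A) V = act φ V := by
  obtain ⟨y, hy0, hyz, hall⟩ : ∃ y : Fin 3, y ≠ 0 ∧ y ≠ z.1 ∧ ∀ i, i = 0 ∨ i = y ∨ i = z.1 := by
    have : ∀ k : Fin 3, k ≠ 0 → ∃ y : Fin 3, y ≠ 0 ∧ y ≠ k ∧ ∀ i, i = 0 ∨ i = y ∨ i = k := by
      decide
    exact this _ hz
  have hzl : In12 (lett z) := In12_lett hz
  set e : Bool → FreeGroup (Fin 3) := fun b => if b then lett z else 1 with he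
  have hee : ∀ b : Bool, In12 (e b) := by
    intro b
    cases b
    · simpa [he] using In12_one
    · simpa [he] using hzl
  have heinv : ∀ b : Bool, (if b then (lett z)⁻¹ else 1) = (e b)⁻¹ := by
    intro b
    cases b <;> simp [he]
  have hy := hn y hy0 hyz
  unfold NSep at hy h0
  have hp : In12 (e (A (y, true)) * (e (A (0, true)))⁻¹) := In12_mul (hee _) (In12_inv (hee _))
  obtain ⟨φ, h1, h2⟩ := exists_tw hp (In12_inv hp)
  refine ⟨φ, _, ⟨hp, In12_inv hp, h1, h2⟩, ?_⟩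
  apply act_conj _ _ (e (A (y, true)))⁻¹
  intro i
  rcases hall i with rfl | rfl | rfl
  · have h3 : ((0, true) : Fin 3 × Bool).1 ≠ z.1 := fun h => hz h.symm
    have h4 := wh_lett_ne z A h3
    rw [lett_true] at h4
    have h5 : A (bar (0, true)) = A (0, true) := h0.symm
    rw [h4, h1, h5, heinv]
    show (e (A (0, true)))⁻¹ * of 0 * e (A (0, true)) = _
    group
  · have h3 : ((i, true) : Fin 3 × Bool).1 ≠ z.1 := hyz
    have h4 := wh_lett_ne z A h3
    rw [lett_true] at h4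
    have h5 : A (bar (i, true)) = A (i, true) := hy.symm
    rw [h4, h2 _ (In12_of hy0), h5, heinv]
    show (e (A (i, true)))⁻¹ * of i * e (A (i, true)) = _
    group
  · have h3 : wh z A (of z.1) = of z.1 := potFun_of_self _ _
    rw [h3, h2 _ (In12_of hz)]
    have h4 : ∀ b, Commute (e b) (of z.1) := by
      intro b
      cases b
      · simp [he]
      · obtain ⟨k, c⟩ := z
        cases c
        · show Commute (lett (k, false)) (of k)
          rw [lett_false]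
          exact (Commute.refl _).inv_left
        · exact Commute.refl _
    have h5 := (h4 (A (y, true))).eq
    rw [inv_inv, mul_assoc, ← h5]
    group

theorem Tw_comp {φ ψ : FreeGroup (Fin 3) ≃* FreeGroup (Fin 3)} {p q : FreeGroup (Fin 3)}
    (h : Tw φ p p⁻¹) (h' : Tw ψ q q⁻¹) : Tw (φ.trans ψ) (p * q) (p * q)⁻¹ := by
  obtain ⟨a1, a2, a3, a4⟩ := h
  obtain ⟨b1, b2, b3, b4⟩ := h'
  refine ⟨In12_mul a1 b1, In12_inv (In12_mul a1 b1), ?_, ?_⟩
  · rw [MulEquiv.trans_apply, a3, map_mul, map_mul, b3, b4 _ a1, b4 _ a2]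
    group
  · intro g hg
    rw [MulEquiv.trans_apply, a4 g hg, b4 g hg]

theorem Cl_oneport {V : CC} (hO : OMin V) (h0 : 1 ≤ cnt V 0)
    (h : ∀ W ∈ Cl V, ∀ (z : Fin 3 × Bool) (A : Fin 3 × Bool → Bool), Lv W z A → z.1 ≠ 0 →
      (∀ i, i ≠ 0 → i ≠ z.1 → NSep A i) → NSep A 0 ∨ act (wh z A) W = W) :
    ∃ E : Finset CC, E.card ≤ 2 * (cycLen V - cnt V 0) + 1 ∧ ∀ W ∈ Cl V, W ∈ E := by
  obtain ⟨E, hE, hE2⟩ := oneport hO h0
  refine ⟨E, hE, ?_⟩
  have key : ∀ W ∈ Cl V, ∃ (φ : FreeGroup (Fin 3) ≃* FreeGroup (Fin 3)) (p : FreeGroup (Fin 3)),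
      Tw φ p p⁻¹ ∧ W = act φ V := by
    intro W hW
    have hW' : Relation.ReflTransGen NT V W := hW
    induction hW' with
    | refl =>
      refine ⟨MulEquiv.refl _, 1, ⟨In12_one, by simpa using In12_one, by simp, fun g _ => rfl⟩, ?_⟩
      rw [act_refl]
    | @tail W W' h1 h2 ih =>
      have hWc : W ∈ Cl V := h1
      obtain ⟨φ, p, hφ, hW5⟩ := ih hWc
      obtain ⟨z, A, hL, hz, hn, rfl⟩ := h2
      rcases h W hWc z A hL hz hn with h3 | h3
      · obtain ⟨ψ, q, hψ, he⟩ := nt_tw W hz hn h3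
        refine ⟨φ.trans ψ, p * q, Tw_comp hφ hψ, ?_⟩
        rw [he, hW5, act_act]
      · exact ⟨φ, p, hφ, by rw [h3]; exact hW5⟩
  intro W hW
  obtain ⟨φ, p, hφ, hWe⟩ := key W hW
  have h1 := Sm_len (Cl_Sm hW)
  rw [hWe] at h1 ⊢
  exact hE2 φ p hφ h1

end Pool.Agent.Sims
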