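import Pool.Agent.Sims.EdgeM

/-!
# Module `SylEdge` : edges at the vertices `x_j^{±1}` in terms of syllable forms

`edgS` of `cls (expand j s)` can be computed with the word `expand j s` (the sum is invariant under rotation: `cyc_rotated`, `rep_rotated`).
Use `SylC_cyc_expand` and `SylC_lin_zpw` as in `cap_expand_nonsep`.  For consecutive syllables `(x,k), (y,l)`:
* `k > 0`: the pairs are `(x, x_j), (x_j, x_j), …, (x_j, y)`: an edge `x - x_j⁻¹`, `k-1` edges `x_j - x_j⁻¹`, an edge `x_j - y⁻¹`.
* `k < 0`: an edge `x - x_j`, `|k|-1` edges `x_j - x_j⁻¹`, an edge `x_j⁻¹ - y⁻¹`.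
* `k = 0`: an edge `x - y⁻¹`.
Difficulty 2.
-/

namespace Pool.Agent.Sims

theorem SylEdge_lin_congr {β : Type*} {f g : β → β → ℕ} (x : β) (l : List β) (z : β)
    (h : ∀ q ∈ x :: l, ∀ r ∈ l ++ [z], f q r = g q r) : lin f x l z = lin g x l z := by
  induction l generalizing x with
  | nil => exact h x (by simp) z (by simp)
  | cons a l ih =>
    rw [lin, lin, h x (by simp) a (by simp), ih a]
    intro q hq r hr
    exact h q (List.mem_cons_of_mem _ hq) r (List.mem_cons_of_mem _ hr)

theorem SylEdge_cyc_congr {β : Type*} {f g : β → β → ℕ} (s : List β)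
    (h : ∀ q ∈ s, ∀ r ∈ s, f q r = g q r) : cyc f s = cyc g s := by
  cases s with
  | nil => rfl
  | cons x l =>
    refine SylEdge_lin_congr x l x ?_
    intro q hq r hr
    refine h q hq r ?_
    rcases List.mem_append.1 hr with h1 | h1
    · exact List.mem_cons_of_mem _ h1
    · rw [List.mem_singleton] at h1
      subst h1
      exact List.mem_cons_self

theorem SylEdge_edgS {j : Fin 3} {s : List ((Fin 3 × Bool) × ℤ)} (hs : SValid j s)
    (A B : Fin 3 × Bool → Bool) (g : (Fin 3 × Bool) × ℤ → (Fin 3 × Bool) × ℤ → ℕ)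
    (h : ∀ q ∈ s, ∀ r ∈ s,
      lin (fun x y => if (A x && B (bar y)) || (B x && A (bar y)) then 1 else 0)
        q.1 (zpw j q.2) r.1 = g q r) :
    edgS (cls (expand j s)) A B = cyc g s := by
  unfold edgS
  rw [cyc_rotated _ (rep_rotated hs.2), SylC_cyc_expand]
  exact SylEdge_cyc_congr s h

theorem edgS_expand {j : Fin 3} {s : List ((Fin 3 × Bool) × ℤ)} (hs : SValid j s)
    {P : Fin 3 × Bool → Bool} (h1 : P (j, true) = false) (h2 : P (j, false) = false) :
    edgS (cls (expand j s)) (sgl (j, false)) P =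
      cyc (fun q r => (if 0 < q.2 ∧ P q.1 = true then 1 else 0) +
        (if q.2 < 0 ∧ P (bar r.1) = true then 1 else 0)) s := by
  refine SylEdge_edgS hs _ _ _ ?_
  intro q hq r hr
  have hqj : q.1.1 ≠ j := hs.1 q hq
  have hrj : r.1.1 ≠ j := hs.1 r hr
  have e1 : sgl (j, false) q.1 = false := by
    unfold sgl; exact decide_eq_false (fun h => hqj (by rw [h]))
  have e2 : sgl (j, false) (bar r.1) = false := by
    unfold sgl; exact decide_eq_false (fun h => hrj (by rw [← bar_fst r.1, h]))
  have e3 : sgl (j, false) (j, true) = false := by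
    unfold sgl; exact decide_eq_false (fun h => by simpa using congrArg Prod.snd h)
  have e4 : sgl (j, false) (j, false) = true := by unfold sgl; exact decide_eq_true rfl
  have b1 : bar (j, true) = (j, false) := rfl
  have b2 : bar (j, false) = (j, true) := rfl
  rcases SylC_lin_zpw (fun x y => if (sgl (j, false) x && P (bar y)) || (P x && sgl (j, false) (bar y))
      then 1 else 0) q.1 j q.2 r.1 with ⟨h3, h4⟩ | ⟨n, h3, h4⟩ | ⟨n, h3, h4⟩
  · rw [h4, h3, e1, e2]; simp
  · have h5 : 0 < q.2 := by omega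
    have h6 : ¬ (q.2 < 0) := by omega
    rw [h4]
    simp only [b1, e1, e2, e3, e4, h1, h5, h6, Bool.false_and, Bool.and_false, Bool.and_true,
      Bool.false_or, Bool.or_false, true_and, false_and, if_false]
    simp
  · have h5 : ¬ (0 < q.2) := by omega
    have h6 : q.2 < 0 := by omega
    rw [h4]
    simp only [b2, e1, e2, e3, e4, h1, h2, h5, h6, Bool.false_and, Bool.and_false, Bool.and_true,
      Bool.true_and, Bool.false_or, Bool.or_false, true_and, false_and, if_false]
    simp

theorem edgS_jj {j : Fin 3} {s : List ((Fin 3 × Bool) × ℤ)} (hs : SValid j s) :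
    edgS (cls (expand j s)) (sgl (j, true)) (sgl (j, false)) =
      (s.map (fun q => q.2.natAbs - 1)).sum := by
  rw [← cyc_fst]
  refine SylEdge_edgS hs _ _ _ ?_
  intro q hq r hr
  have hqj : q.1.1 ≠ j := hs.1 q hq
  have hrj : r.1.1 ≠ j := hs.1 r hr
  have e1 : ∀ b, sgl (j, b) q.1 = false := by
    intro b; unfold sgl; exact decide_eq_false (fun h => hqj (by rw [h]))
  have e2 : ∀ b, sgl (j, b) (bar r.1) = false := by
    intro b; unfold sgl; exact decide_eq_false (fun h => hrj (by rw [← bar_fst r.1, h]))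
  have e3 : sgl (j, false) (j, true) = false := by
    unfold sgl; exact decide_eq_false (fun h => by simpa using congrArg Prod.snd h)
  have e3' : sgl (j, true) (j, false) = false := by
    unfold sgl; exact decide_eq_false (fun h => by simpa using congrArg Prod.snd h)
  have e4 : ∀ b, sgl (j, b) (j, b) = true := by intro b; unfold sgl; exact decide_eq_true rfl
  have b1 : bar (j, true) = (j, false) := rfl
  have b2 : bar (j, false) = (j, true) := rfl
  rcases SylC_lin_zpw (fun x y => if (sgl (j, true) x && sgl (j, false) (bar y)) ||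
      (sgl (j, false) x && sgl (j, true) (bar y)) then 1 else 0) q.1 j q.2 r.1 with
    ⟨h3, h4⟩ | ⟨n, h3, h4⟩ | ⟨n, h3, h4⟩
  · rw [h4, h3]; simp [e1]
  · rw [h4, h3]
    simp only [b1, e1, e2, e3, e3', e4, Bool.false_and, Bool.and_false, Bool.and_true,
      Bool.true_and, Bool.false_or, Bool.or_false, if_true]
    simp
    omega
  · rw [h4, h3]
    simp only [b2, e1, e2, e3, e3', e4, Bool.false_and, Bool.and_false, Bool.and_true,
      Bool.true_and, Bool.false_or, Bool.or_false, if_true]
    simp
    omega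

/-- edges between two sets containing neither `x_j` nor `x_j⁻¹` -/
theorem edgS_zero {j : Fin 3} {s : List ((Fin 3 × Bool) × ℤ)} (hs : SValid j s)
    {P Q : Fin 3 × Bool → Bool} (h1 : P (j, true) = false) (h2 : P (j, false) = false)
    (h3 : Q (j, true) = false) (h4 : Q (j, false) = false) :
    edgS (cls (expand j s)) P Q =
      cyc (fun q r => if q.2 = 0 ∧ ((P q.1 && Q (bar r.1)) || (Q q.1 && P (bar r.1))) = true
        then 1 else 0) s := by
  refine SylEdge_edgS hs _ _ _ ?_
  intro q hq r hr
  have b1 : bar (j, true) = (j, false) := rfl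
  have b2 : bar (j, false) = (j, true) := rfl
  rcases SylC_lin_zpw (fun x y => if (P x && Q (bar y)) || (Q x && P (bar y))
      then 1 else 0) q.1 j q.2 r.1 with ⟨h5, h6⟩ | ⟨n, h5, h6⟩ | ⟨n, h5, h6⟩
  · rw [h6, h5]; simp
  · have h7 : ¬ (q.2 = 0) := by omega
    rw [h6]
    simp [b1, h1, h2, h3, h4, h7]
  · have h7 : ¬ (q.2 = 0) := by omega
    rw [h6]
    simp [b2, h1, h2, h3, h4, h7]

end Pool.Agent.Sims
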