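import Pool.Agent.Sims.TwCo
import Pool.Agent.Sims.SylEdge

/-!
# Module `TwTie` : equal counts, three consecutive twists

`V` orbit-minimal, `cnt V 1 = cnt V 2 = N`, `UpN 3 V V'`.  Claim `Mv up V V`.
Let `q` be the potential of `upN_pot` (values `0..3`, `q b = 3`, `q b⁻¹ = 0`), `A_i = {x | q x ≥ i}`, `A_3 ⊆ A_2 ⊆ A_1`; `b ∈ A_3`, `b⁻¹ ∉ A_1`.
`cnt (act (pot 2 q) V) 2 = N` (`UpN_Sm`).  By `pot_split` with `α = 2`: `W₁ = act (pot 2 (ind A_3)) V` has count `N` (`max (q-2) 0 = ind A_3`);
with `α = 1`: `W₂ = act (pot 2 (ind A_2 + ind A_3)) V` has count `N`.  So `W₁, W₂` are orbit-minimal, with the same counts as `V` (`pot_Sm`), and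
`W₂ = act (pot 2 (ind A_2)) W₁`, `V = act (pot 2 (-ind A_3)) W₁`, `V' = act (pot 2 (ind A_1)) W₂`, `W₁ = act (pot 2 (-ind A_2)) W₂` (`pot_add`).
(I) `tie_interior`: let `W` be orbit-minimal with both counts `N`, `P ⊆ R` sets of letters, `b ∈ P`, `b⁻¹ ∉ R`, and suppose `act (pot 2 (ind R)) W` and
  `act (pot 2 (-ind P)) W` have `N` letters `c^{±1}`.  Let `P', R'` be `P, R` without the letters `c^{±1}` and `S' = ` the letters `≠ c^{±1}` not in `R`.
  `A⁺ = R' ∪ {c}` has capacity `N` (`pot_Lv`, `pot_congr`); `A⁻ = {c} ∪ (letters ≠ c^{±1} not in P)` has capacity `N` (`-ind P` and `1 - ind P` give the same class,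
  `pot_const`).  `capC_submod'`: `cap P' + cap S' ≤ 2N` (`A⁺∖A⁻ = P'`, `A⁻∖A⁺ = S'`); both separate `b` so both are `≥ N`, hence `= N`.
  `2 e(c⁻¹, P') = cap {c⁻¹} + cap P' - cap (P' ∪ c⁻¹) = N + N - N = N` (`capC_union`, `capC_single`; `P' ∪ {c⁻¹}` is the complement of `A⁻`), and
  `2 e(c⁻¹, S') = N` (`S' ∪ {c⁻¹}` is the complement of `A⁺`).  The edges at `c⁻¹`: `N = cap {c⁻¹} = e(c⁻¹, everything else)`
  `= e(c⁻¹,P') + e(c⁻¹,S') + e(c⁻¹,R'∖P') + e(c⁻¹,c)` (`edgS_union`; `edgS c {z} (all letters ≠ z) = cap {z}` by `capC_union`, as the cut of all letters has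
  capacity `0`).  So `e(c⁻¹, c) = 0`, `e(c⁻¹, R'∖P') = 0`.  Conclusions, for a valid syllable form `s` of `W` (`j = 2`): all exponents have `|k| ≤ 1` (`edgS_jj`);
  `X(P) = X(Sᶜ…)`: `2 X(P') = N`, `2 X(S') = N`, `2 X(R') = N`, `2 X((P')ᶜ) = N`, where `X(·) = e(c⁻¹, ·)` is given by `edgS_expand`.
(II) Apply (I) to `W₁` (`P = A_3`, `R = A_2`) and to `W₂` (`P = A_2`, `R = A_1`).  Let `s` be a valid syllable form of `W₁` (`V` has letters `b`, so it is not a power of `c`), `s' = shift (ind A_2) s`
  one of `W₂`.  With `A = A_2` (without `c^{±1}`) and `B` its complement (without `c^{±1}`): `X_{W₁}(A) = X_{W₂}(A) = N/2`, `X_{W₁}(B) = X_{W₂}(B) = N/2`.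
  By `cyc_shift` and `edgS_expand`, for a pair `(x,k), (y,l)` with `u = x`, `v = y⁻¹`, new exponent `k' = k + [A u] - [A v]`:
   - `u, v` on the same side of `A`: no change of the contribution to `X(A)`, `X(B)`.
   - `u ∈ A, v ∉ A`: the contribution to `X(A)` grows by `[k+1 > 0] - [k > 0] = [k = 0]`, the one to `X(B)` by `[k+1 < 0] - [k < 0] = -[k = -1]`.
   - `u ∉ A, v ∈ A`: to `X(A)`: `[k-1 < 0] - [k < 0] = [k = 0]`; to `X(B)`: `[k-1 > 0] - [k > 0] = -[k = 1]`.
  So no crossing pair has `k = 0`, nor `k = -1` (`u ∈ A`), nor `k = 1` (`v ∈ A`).  The other values are excluded by `|k| ≤ 1`, `|k'| ≤ 1`.  Hence there are no crossing pairs: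
  `NoX A_2 s`, and `act (pot 2 (p + ind A_2)) W₁ = act (pot 2 p) W₁` for all `p` (`NoX_shift`, `act_pot`); with `p = -ind A_3` and `pot_add`:
  `act (pot 2 (ind A_2)) V = V`.  `up_self`.
Difficulty 3.
-/

namespace Pool.Agent.Sims

open FreeGroup (of)

/-- restriction to the letters different from `c^{±1}` -/
def TwTie_r (Q : Fin 3 × Bool → Bool) : Fin 3 × Bool → Bool := fun x => Q x && decide (x.1 ≠ 2)

theorem TwTie_cases (x : Fin 3 × Bool) : x = (2, true) ∨ x = (2, false) ∨ x.1 ≠ 2 := by
  rcases x with ⟨i, b⟩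
  by_cases h : i = 2
  · subst h
    cases b
    · right; left; rfl
    · left; rfl
  · right; right; exact h

theorem TwTie_all (W : CC) : capC W (fun _ => true) = 0 := by
  unfold capC cap
  have h := cyc_fst (fun _ : Fin 3 × Bool => 0) (rep W)
  simpa using h

theorem TwTie_cap_all (W : CC) : edgS W (sgl (2, false)) (fun x => !(sgl (2, false)) x) = cnt W 2 := by
  have h1 := capC_union W (sgl (2, false)) (fun x => !(sgl (2, false)) x) (by
    intro x hx; simp [hx])
  have h2 : capC W (fun x => !(sgl (2, false)) x) = capC W (sgl (2, false)) := capC_compl W _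
  have h3 : capC W (sgl (2, false)) = cnt W 2 := capC_single W (2, false)
  have h4 : capC W (fun x => (sgl (2, false)) x || !(sgl (2, false)) x) = 0 := by
    rw [← TwTie_all W]
    apply capC_congr
    intro x
    cases (sgl (2, false)) x <;> rfl
  rw [h2, h3, h4] at h1
  omega

theorem TwTie_interior {W : CC} {N : ℕ} {P R : Fin 3 × Bool → Bool} (hO : OMin W) (h1 : cnt W 1 = N)
    (h2 : cnt W 2 = N) (hPR : ∀ x, P x = true → R x = true) (hP : P (1, true) = true)
    (hR : R (1, false) = false) (hcR : cnt (act (pot 2 (ind R)) W) 2 = N)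
    (hcP : cnt (act (pot 2 (-ind P)) W) 2 = N) :
    2 * edgS W (sgl (2, false)) (TwTie_r P) = N ∧ 2 * edgS W (sgl (2, false)) (TwTie_r R) = N ∧
    2 * edgS W (sgl (2, false)) (TwTie_r (fun x => !P x)) = N ∧
    2 * edgS W (sgl (2, false)) (TwTie_r (fun x => !R x)) = N ∧
    edgS W (sgl (2, true)) (sgl (2, false)) = 0 := by
  have hPb : P (1, false) = false := by
    cases h : P (1, false)
    · rfl
    · rw [hPR _ h] at hR; exact absurd hR (by decide)
  have hRb : R (1, true) = true := hPR _ hP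
  -- the two cuts
  have hAp : capC W (fun x => TwTie_r R x || decide (x = (2, true))) = N := by
    have e1 : act (pot 2 (ind (fun x => TwTie_r R x || decide (x = (2, true))))) W =
        act (pot 2 (ind R)) W := by
      apply pot_congr
      intro x hx
      have hne : x ≠ (2, true) := fun h => hx (by rw [h])
      simp [ind, TwTie_r, hx, hne]
    have e2 := pot_Lv (V := W) (j := 2) (A := fun x => TwTie_r R x || decide (x = (2, true)))
      (by simp) (by simp [TwTie_r]) (by rw [e1, hcR, h2])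
    rw [e2.2.2, h2]
  have hAm : capC W (fun x => TwTie_r (fun x => !P x) x || decide (x = (2, true))) = N := by
    have e1 : act (pot 2 (ind (fun x => TwTie_r (fun x => !P x) x || decide (x = (2, true))))) W =
        act (pot 2 (-ind P)) W := by
      apply pot_const 1
      intro x hx
      have hne : x ≠ (2, true) := fun h => hx (by rw [h])
      cases hPx : P x <;> simp [ind, TwTie_r, hx, hne, hPx]
    have e2 := pot_Lv (V := W) (j := 2)
      (A := fun x => TwTie_r (fun x => !P x) x || decide (x = (2, true)))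
      (by simp) (by simp [TwTie_r]) (by rw [e1, hcP, h2])
    rw [e2.2.2, h2]
  have hsub := capC_submod' W (fun x => TwTie_r R x || decide (x = (2, true)))
    (fun x => TwTie_r (fun x => !P x) x || decide (x = (2, true)))
  rw [hAp, hAm] at hsub
  have e1 : capC W (fun x => (TwTie_r R x || decide (x = (2, true))) &&
      !(TwTie_r (fun x => !P x) x || decide (x = (2, true)))) = capC W (TwTie_r P) := by
    apply capC_congr
    intro x
    rcases TwTie_cases x with rfl | rfl | hx
    · simp [TwTie_r]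
    · simp [TwTie_r]
    · have hne : x ≠ (2, true) := fun h => hx (by rw [h])
      have := hPR x
      cases hPx : P x <;> cases hRx : R x <;> simp_all [TwTie_r]
  have e2 : capC W (fun x => !(TwTie_r R x || decide (x = (2, true))) &&
      (TwTie_r (fun x => !P x) x || decide (x = (2, true)))) = capC W (TwTie_r (fun x => !R x)) := by
    apply capC_congr
    intro x
    rcases TwTie_cases x with rfl | rfl | hx
    · simp [TwTie_r]
    · simp [TwTie_r]
    · have hne : x ≠ (2, true) := fun h => hx (by rw [h])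
      have := hPR x
      cases hPx : P x <;> cases hRx : R x <;> simp_all [TwTie_r]
  rw [e1, e2] at hsub
  have l1 := hO.le_cap (1, true) (TwTie_r P) (by simp [TwTie_r, hP]) (by simp [TwTie_r, bar, hPb])
  have l2 := hO.le_cap (1, false) (TwTie_r (fun x => !R x)) (by simp [TwTie_r, hR])
    (by simp [TwTie_r, bar, hRb])
  have l1' : cnt W 1 ≤ capC W (TwTie_r P) := l1
  have l2' : cnt W 1 ≤ capC W (TwTie_r (fun x => !R x)) := l2
  have hcs : capC W (sgl (2, false)) = N := by
    have : capC W (sgl (2, false)) = cnt W 2 := capC_single W (2, false)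
    rw [this, h2]
  have u1 := capC_union W (sgl (2, false)) (TwTie_r P) (by
    intro x hx
    simp only [sgl, decide_eq_true_eq] at hx
    rw [hx]; simp [TwTie_r])
  have u2 := capC_union W (sgl (2, false)) (TwTie_r (fun x => !R x)) (by
    intro x hx
    simp only [sgl, decide_eq_true_eq] at hx
    rw [hx]; simp [TwTie_r])
  have c1 : capC W (fun x => sgl (2, false) x || TwTie_r P x) = N := by
    rw [← hAm, ← capC_compl W (fun x => TwTie_r (fun x => !P x) x || decide (x = (2, true)))]
    apply capC_congr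
    intro x
    rcases TwTie_cases x with rfl | rfl | hx
    · simp [TwTie_r, sgl]
    · simp [TwTie_r, sgl]
    · have hne : x ≠ (2, true) := fun h => hx (by rw [h])
      have hne' : x ≠ (2, false) := fun h => hx (by rw [h])
      cases hPx : P x <;> simp [TwTie_r, sgl, hx, hne, hne', hPx]
  have c2 : capC W (fun x => sgl (2, false) x || TwTie_r (fun x => !R x) x) = N := by
    rw [← hAp, ← capC_compl W (fun x => TwTie_r R x || decide (x = (2, true)))]
    apply capC_congr
    intro x
    rcases TwTie_cases x with rfl | rfl | hx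
    · simp [TwTie_r, sgl]
    · simp [TwTie_r, sgl]
    · have hne : x ≠ (2, true) := fun h => hx (by rw [h])
      have hne' : x ≠ (2, false) := fun h => hx (by rw [h])
      cases hRx : R x <;> simp [TwTie_r, sgl, hx, hne, hne', hRx]
  rw [c1, hcs] at u1
  rw [c2, hcs] at u2
  -- the edges at `c⁻¹`
  obtain ⟨D, hD⟩ : ∃ D : Fin 3 × Bool → Bool, D = TwTie_r (fun x => R x && !P x) := ⟨_, rfl⟩
  have hall := TwTie_cap_all W
  rw [h2] at hall
  have s1 : (fun x => !(sgl (2, false)) x) = (fun x : Fin 3 × Bool => TwTie_r P x ||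
      (fun x => TwTie_r (fun x => !R x) x || (fun x => D x || sgl (2, true) x) x) x) := by
    funext x
    rw [hD]
    rcases TwTie_cases x with rfl | rfl | hx
    · simp [TwTie_r, sgl]
    · simp [TwTie_r, sgl]
    · have hne : x ≠ (2, true) := fun h => hx (by rw [h])
      have hne' : x ≠ (2, false) := fun h => hx (by rw [h])
      have := hPR x
      cases hPx : P x <;> cases hRx : R x <;> simp_all [TwTie_r, sgl]
  have dis : ∀ Q : Fin 3 × Bool → Bool, ∀ x, sgl (2, false) x = true → TwTie_r Q x = false := by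
    intro Q x hx
    simp only [sgl, decide_eq_true_eq] at hx
    rw [hx]; simp [TwTie_r]
  have dis2 : ∀ Q : Fin 3 × Bool → Bool, ∀ x, TwTie_r Q x = true → sgl (2, true) x = false := by
    intro Q x hx
    simp only [TwTie_r, Bool.and_eq_true, decide_eq_true_eq] at hx
    simp only [sgl, decide_eq_false_iff_not]
    intro h
    exact hx.2 (by rw [h])
  have dis3 : ∀ x : Fin 3 × Bool, sgl (2, false) x = true → sgl (2, true) x = false := by
    intro x hx
    simp only [sgl, decide_eq_true_eq] at hx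
    rw [hx]; simp [sgl]
  rw [s1] at hall
  have t1 := edgS_union W (sgl (2, false)) (TwTie_r P)
    (fun x => TwTie_r (fun x => !R x) x || (fun x => D x || sgl (2, true) x) x) (dis P) (by
      intro x hx
      simp only [Bool.or_eq_false_iff]
      exact ⟨dis _ x hx, by rw [hD]; exact dis _ x hx, dis3 x hx⟩) (by
      intro x hx
      simp only [Bool.or_eq_false_iff]
      refine ⟨?_, ?_, dis2 P x hx⟩
      · have := hPR x
        simp only [TwTie_r, Bool.and_eq_true, decide_eq_true_eq] at hx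
        simp [TwTie_r, this hx.1]
      · rw [hD]
        simp only [TwTie_r, Bool.and_eq_true, decide_eq_true_eq] at hx
        simp [TwTie_r, hx.1])
  have t2 := edgS_union W (sgl (2, false)) (TwTie_r (fun x => !R x))
    (fun x => D x || sgl (2, true) x) (dis _) (by
      intro x hx
      simp only [Bool.or_eq_false_iff]
      exact ⟨by rw [hD]; exact dis _ x hx, dis3 x hx⟩) (by
      intro x hx
      simp only [Bool.or_eq_false_iff]
      refine ⟨?_, dis2 _ x hx⟩
      rw [hD]
      simp only [TwTie_r, Bool.and_eq_true, decide_eq_true_eq, Bool.not_eq_true'] at hx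
      simp [TwTie_r, hx.1])
  have t3 := edgS_union W (sgl (2, false)) D (sgl (2, true)) (by
      intro x hx; rw [hD]; exact dis _ x hx) dis3 (by
      intro x hx; rw [hD] at hx; exact dis2 _ x hx)
  rw [t1, t2, t3] at hall
  have r1 : TwTie_r R = (fun x => TwTie_r P x || D x) := by
    funext x
    rw [hD]
    have := hPR x
    cases hPx : P x <;> cases hRx : R x <;> simp_all [TwTie_r]
  have r2 : TwTie_r (fun x => !P x) = (fun x => TwTie_r (fun x => !R x) x || D x) := by
    funext x
    rw [hD]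
    have := hPR x
    cases hPx : P x <;> cases hRx : R x <;> simp_all [TwTie_r]
  have t4 := edgS_union W (sgl (2, false)) (TwTie_r P) D (dis P) (by
      intro x hx; rw [hD]; exact dis _ x hx) (by
      intro x hx
      rw [hD]
      simp only [TwTie_r, Bool.and_eq_true, decide_eq_true_eq] at hx
      simp [TwTie_r, hx.1])
  have t5 := edgS_union W (sgl (2, false)) (TwTie_r (fun x => !R x)) D (dis _) (by
      intro x hx; rw [hD]; exact dis _ x hx) (by
      intro x hx
      rw [hD]
      simp only [TwTie_r, Bool.and_eq_true, decide_eq_true_eq, Bool.not_eq_true'] at hx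
      simp [TwTie_r, hx.1])
  have hsym : edgS W (sgl (2, true)) (sgl (2, false)) = edgS W (sgl (2, false)) (sgl (2, true)) := by
    unfold edgS
    congr 1
    funext x y
    rw [Bool.or_comm]
  rw [r1, r2, t4, t5, hsym]
  have g1 : capC W (TwTie_r P) = N := by omega
  have g2 : capC W (TwTie_r (fun x => !R x)) = N := by omega
  rw [g1] at u1
  rw [g2] at u2
  refine ⟨by omega, by omega, by omega, by omega, by omega⟩

theorem TwTie_cyc_le {β : Type*} {f g : β → β → ℕ} (h : ∀ x y, f x y ≤ g x y) (l : List β) :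
    cyc f l ≤ cyc g l := by
  have h1 := cyc_add f (fun x y => g x y - f x y) l
  have h2 : (fun x y => f x y + (g x y - f x y)) = g := by
    funext x y
    have := h x y
    omega
  rw [h2] at h1
  omega

theorem TwTie_cross {s : List ((Fin 3 × Bool) × ℤ)} (hs : SValid 2 s) {A : Fin 3 × Bool → Bool}
    (ha : edgS (cls (expand 2 s)) (sgl (2, false)) (TwTie_r A) =
      edgS (cls (expand 2 (shift (ind A) s))) (sgl (2, false)) (TwTie_r A))
    (hb : edgS (cls (expand 2 s)) (sgl (2, false)) (TwTie_r (fun x => !A x)) =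
      edgS (cls (expand 2 (shift (ind A) s))) (sgl (2, false)) (TwTie_r (fun x => !A x)))
    (hc : edgS (cls (expand 2 s)) (sgl (2, true)) (sgl (2, false)) = 0)
    (hd : edgS (cls (expand 2 (shift (ind A) s))) (sgl (2, true)) (sgl (2, false)) = 0) :
    NoX A s := by
  have hs' := SValid_shift 2 (ind A) s hs
  have hmem : ∀ q ∈ s, q.1.1 ≠ 2 := hs.1
  have key : ∀ B : Fin 3 × Bool → Bool,
      edgS (cls (expand 2 s)) (sgl (2, false)) (TwTie_r B) =
        cyc (fun q r => (if 0 < q.2 ∧ B q.1 = true then 1 else 0) +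
          (if q.2 < 0 ∧ B (bar r.1) = true then 1 else 0)) s ∧
      edgS (cls (expand 2 (shift (ind A) s))) (sgl (2, false)) (TwTie_r B) =
        cyc (fun q r => (if 0 < q.2 + ind A q.1 - ind A (bar r.1) ∧ B q.1 = true then 1 else 0) +
          (if q.2 + ind A q.1 - ind A (bar r.1) < 0 ∧ B (bar r.1) = true then 1 else 0)) s := by
    intro B
    constructor
    · rw [edgS_expand hs (by simp [TwTie_r]) (by simp [TwTie_r])]
      apply WhEff_cyc_congr
      intro q hq r hr
      have h1 : q.1.1 ≠ 2 := hmem q hq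
      have h2 : (bar r.1).1 ≠ 2 := hmem r hr
      have e1 : TwTie_r B q.1 = B q.1 := by simp [TwTie_r, h1]
      have e2 : TwTie_r B (bar r.1) = B (bar r.1) := by
        have h3 : decide ((bar r.1).1 ≠ 2) = true := decide_eq_true h2
        simp only [TwTie_r, h3, Bool.and_true]
      rw [e1, e2]
    · rw [edgS_expand hs' (by simp [TwTie_r]) (by simp [TwTie_r])]
      rw [cyc_shift (fun q y => (if 0 < q.2 ∧ TwTie_r B q.1 = true then 1 else 0) +
          (if q.2 < 0 ∧ TwTie_r B (bar y) = true then 1 else 0)) (ind A) s]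
      apply WhEff_cyc_congr
      intro q hq r hr
      have h1 : q.1.1 ≠ 2 := hmem q hq
      have h2 : (bar r.1).1 ≠ 2 := hmem r hr
      have e1 : TwTie_r B q.1 = B q.1 := by simp [TwTie_r, h1]
      have e2 : TwTie_r B (bar r.1) = B (bar r.1) := by
        have h3 : decide ((bar r.1).1 ≠ 2) = true := decide_eq_true h2
        simp only [TwTie_r, h3, Bool.and_true]
      simp only [e1, e2]
  obtain ⟨a1, a2⟩ := key A
  obtain ⟨b1, b2⟩ := key (fun x => !A x)
  rw [a1, a2] at ha
  rw [b1, b2] at hb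
  rw [edgS_jj hs, ← cyc_fst] at hc
  rw [edgS_jj hs', ← cyc_fst,
    cyc_shift (fun (q : (Fin 3 × Bool) × ℤ) (_ : Fin 3 × Bool) => q.2.natAbs - 1) (ind A) s] at hd
  unfold NoX
  have hle := TwTie_cyc_le (f := fun (q r : (Fin 3 × Bool) × ℤ) =>
      (if A q.1 = A (bar r.1) then 0 else 1) +
      (((if 0 < q.2 ∧ A q.1 = true then 1 else 0) + (if q.2 < 0 ∧ A (bar r.1) = true then 1 else 0)) +
      ((if 0 < q.2 + ind A q.1 - ind A (bar r.1) ∧ (!A q.1) = true then 1 else 0) +
          (if q.2 + ind A q.1 - ind A (bar r.1) < 0 ∧ (!A (bar r.1)) = true then 1 else 0))))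
    (g := fun (q r : (Fin 3 × Bool) × ℤ) =>
      (((if 0 < q.2 + ind A q.1 - ind A (bar r.1) ∧ A q.1 = true then 1 else 0) +
          (if q.2 + ind A q.1 - ind A (bar r.1) < 0 ∧ A (bar r.1) = true then 1 else 0)) +
      ((if 0 < q.2 ∧ (!A q.1) = true then 1 else 0) + (if q.2 < 0 ∧ (!A (bar r.1)) = true then 1 else 0))) +
      ((q.2.natAbs - 1) + ((q.2 + ind A q.1 - ind A (bar r.1)).natAbs - 1))) (by
      intro q r
      unfold ind
      generalize A q.1 = u
      generalize A (bar r.1) = v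
      generalize q.2 = m
      cases u <;> cases v <;> simp <;> split_ifs <;> omega) s
  beta_reduce at ha hb hc hd hle
  simp only [cyc_add] at ha hb hc hd hle
  omega

theorem up_self_of_three {V V' : CC} (hO : OMin V) (hN : cnt V 1 = cnt V 2) (h1 : 1 ≤ cnt V 1)
    (h : UpN 3 V V') : Mv .up V V := by
  obtain ⟨q, hq, hqb, hqb', hV'⟩ := upN_pot h
  have hSm := UpN_Sm h
  have hcq : cnt (act (pot 2 q) V) 2 = cnt V 2 := by rw [← hV']; exact hSm.2 2
  obtain ⟨A1, hA1⟩ : ∃ A : Fin 3 × Bool → Bool, A = fun x => decide (1 ≤ q x) := ⟨_, rfl⟩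
  obtain ⟨A2, hA2⟩ : ∃ A : Fin 3 × Bool → Bool, A = fun x => decide (2 ≤ q x) := ⟨_, rfl⟩
  obtain ⟨A3, hA3⟩ : ∃ A : Fin 3 × Bool → Bool, A = fun x => decide (3 ≤ q x) := ⟨_, rfl⟩
  have hq3 : ∀ x, 0 ≤ q x ∧ q x ≤ 3 := fun x => by
    have := hq x
    exact_mod_cast this
  have f3 : (fun x => max (q x - 2) 0) = ind A3 := by
    funext x
    have := hq3 x
    by_cases hx : 3 ≤ q x
    · simp only [ind, hA3, hx, decide_true, if_true]; omega
    · simp only [ind, hA3, hx, decide_false]; simp; omega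
  have f2 : (fun x => max (q x - 1) 0) = ind A2 + ind A3 := by
    funext x
    have := hq3 x
    simp only [Pi.add_apply, ind, hA2, hA3, decide_eq_true_eq]
    split_ifs <;> omega
  have f1 : q = ind A1 + (ind A2 + ind A3) := by
    funext x
    have := hq3 x
    simp only [Pi.add_apply, ind, hA1, hA2, hA3, decide_eq_true_eq]
    split_ifs <;> omega
  have hc3 : cnt (act (pot 2 (ind A3)) V) 2 = cnt V 2 := by
    rw [← f3]; exact (pot_split hO hcq 2).1
  have hc2 : cnt (act (pot 2 (ind A2 + ind A3)) V) 2 = cnt V 2 := by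
    rw [← f2]; exact (pot_split hO hcq 1).1
  obtain ⟨W1, hW1⟩ : ∃ W, W = act (pot 2 (ind A3)) V := ⟨_, rfl⟩
  obtain ⟨W2, hW2⟩ : ∃ W, W = act (pot 2 (ind A2 + ind A3)) V := ⟨_, rfl⟩
  have sm1 : Sm V W1 := by rw [hW1]; exact pot_Sm hc3
  have sm2 : Sm V W2 := by rw [hW2]; exact pot_Sm hc2
  have w12 : act (pot 2 (ind A2)) W1 = W2 := by rw [hW1, hW2, pot_add]
  have w1V : act (pot 2 (-ind A3)) W1 = V := by
    rw [hW1, pot_add, neg_add_cancel, pot_zero]
  have w2V' : act (pot 2 (ind A1)) W2 = V' := by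
    rw [hW2, pot_add, ← f1, hV']
  have w21 : act (pot 2 (-ind A2)) W2 = W1 := by
    rw [hW2, hW1, pot_add, neg_add_cancel_left]
  have hb3 : A3 (1, true) = true := by simp [hA3, hqb]
  have hb2 : A2 (1, true) = true := by simp [hA2, hqb]
  have hb2' : A2 (1, false) = false := by simp [hA2, hqb']
  have hb1' : A1 (1, false) = false := by simp [hA1, hqb']
  have i1 := TwTie_interior (W := W1) (N := cnt V 2) (P := A3) (R := A2) (Sm_OMin hO sm1)
    (by rw [sm1.2, hN]) (sm1.2 2)
    (by intro x hx; simp only [hA3, hA2, decide_eq_true_eq] at hx ⊢; omega) hb3 hb2'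
    (by rw [w12]; exact sm2.2 2) (by rw [w1V])
  have i2 := TwTie_interior (W := W2) (N := cnt V 2) (P := A2) (R := A1) (Sm_OMin hO sm2)
    (by rw [sm2.2, hN]) (sm2.2 2)
    (by intro x hx; simp only [hA1, hA2, decide_eq_true_eq] at hx ⊢; omega) hb2 hb1'
    (by rw [w2V']; exact hSm.2 2) (by rw [w21]; exact sm1.2 2)
  obtain ⟨_, i1a, _, i1b, i1c⟩ := i1
  obtain ⟨i2a, _, i2b, _, i2c⟩ := i2
  refine up_self (A := A2) hb2 hb2' ?_
  rcases WhEff_cases 2 W1 with ⟨k, hk⟩ | ⟨s, _, hs, hsW⟩
  · have e1 : V = W1 := by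
      rw [← w1V]
      conv_lhs => rw [hk, act_pot_pow]
      exact hk.symm
    rw [e1, hk, act_pot_pow]
  · have hmem : ∀ q ∈ s, q.1.1 ≠ 2 := hs.1
    have hW2s : W2 = cls (expand 2 (shift (ind A2) s)) := by
      rw [← w12, ← hsW, act_pot 2 _ s hmem]
    have hno : NoX A2 s := by
      apply TwTie_cross hs
      · rw [hsW, ← hW2s]; omega
      · rw [hsW, ← hW2s]; omega
      · rw [hsW]; exact i1c
      · rw [← hW2s]; exact i2c
    have hV : V = cls (expand 2 (shift (-ind A3) s)) := by
      rw [← act_pot 2 _ s hmem, hsW, w1V]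
    have hstep : act (pot 2 (ind A2)) V = act (pot 2 (-ind A3 + ind A2)) W1 := by
      conv_lhs => rw [← w1V]
      rw [pot_add, add_comm]
    rw [hstep, ← hsW, act_pot 2 _ s hmem, NoX_shift hno, ← hV]

end Pool.Agent.Sims
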