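import Pool.Agent.Sims.TwUp
import Pool.Agent.Sims.TwTie

/-!
# Module `TwTieB` : equal counts, at most five groups

* `mv_swap`: `Mv d V W` with the cut `A`, multiplier `z = d.z`; let `y` be the letter of the other generator in `A` (`y = d.y`: for `up` `c, b`; for
  `dn` `c, b⁻¹`; for `upB` `b, c`; for `dnB` `b, c⁻¹`).  `act_wh_swap` with `a := z`, `b := y`:  `act (wh y A) V = act σ (act (wh y A') W)`,
  `A' = (A∖z) ∪ {z⁻¹}`, `σ` the permutation `Rel_swapPerm z y` (it fixes the generator `0`; if the statement of `act_wh_swap` does not show this, use its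
  proof: the witness is `Rel_swapPerm a b`, so repeat it here with the extra property).  `X = act (wh y A) V`: if `y` is negative take the complement
  (`Lv_compl`); `cap A = cnt V z.1 = cnt V y.1`, so it is a level move, `Mv d.par V X`.  `Y = act (wh y A') W` has the same length as `X` (`cycLen_SPerm`), i.e. as `W`, so it
  is a level move of `W` (`cycLen_wh`), `Mv d.par.rev W Y`.  (E.g. `d = up`: `A ∋ c, b`, `X = act (wh b A) V`: `upB`; `A' ∋ b, c⁻¹`: `dnB`.)
* `tie_collapse`: for `d = up`: `UpN 3 V0 W`, so `Mv up V0 V0` (`up_self_of_three`), `V ∈ Cl V0` (`mv_uniq`), `V1 ∈ Cl V0` (`mv_Cl'`), so `V1 ∈ Cl V`.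
  `d = dn`: reverse everything: `Mv up W V1`, `Mv up V1 V`, `Mv up V V0`; `Mv up W W`; `V1, V ∈ Cl W`.  `upB`, `dnB`: `Mv_swp`, `Cl_SPerm`, `act_swp_swp`, `cnt_swp`.
* `tie_bound`: call `P+` the property of having an `up` move (equivalently an `upB` move, by `mv_swap`), `P-` the property of having a `dn` (`dnB`) move;
  both depend only on the `Cl`-class (`mv_Cl`).
  (b) Some `V ∈ G` has `P+` and `P-`.  Let `V_d` be its images under the four directions `d`.  `E = Cl V ∪ ⋃_d Cl V_d` is closed up to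
      signed permutations: from `W ∈ Cl V` by uniqueness (`mv_Cl'`).  From `W ∈ Cl V_d`: a move `Mv d.rev W W'` leads to `Cl V`.  A move `Mv d.par.rev W W'`:
      by `mv_swap` for `Mv d V V_d`: `X = act σ Y`, `Mv d.par V X`, `Mv d.par.rev V_d Y`; `X ∈ Cl V_{d.par}`, `W' ∈ Cl Y` (`mv_Cl'`), so `act σ W' ∈ Cl X ⊆ E`
      (`Cl_SPerm`) and `W'` is the image of an element of `E` under `σ.inv`.  A move `Mv d W W'`: `V_d` has a move `d` as well (`mv_Cl`), and `V` has a move `d.rev`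
      (to some `V0`, `Mv d V0 V`), so `V_d ∈ Cl V` by `tie_collapse`, and `W ∈ Cl V`: done before.  A move `Mv d.par W W'`: then `V_d` has also a move `d`
      (`mv_swap` for `d.par`), the same.
  (c) Otherwise, some `V ∈ G` has `P+` (the case `P-` is symmetric: replace every `d` by `d.rev`), so not `P-`.  Let `V_up`, `V_upB`; both have `P-`, so
      not `P+` (case (b) applied to them).  `E = Cl V ∪ Cl V_up ∪ Cl V_upB` is closed as before.
  (e) No `V ∈ G` has `P+` or `P-`: `E = Cl c`.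
  In all cases `Bdd_of_closed` (and `Bdd_orb`) gives at most `5 B`.
* `st_bound`: `strict_bound` or `tie_bound` (`5 ≤ 2 cnt c 2 + 1`).
Difficulty 3.
-/

namespace Pool.Agent.Sims

open FreeGroup (of)

theorem TwTieB_CR (k : Fin 3) : CR [((k, true) : Fin 3 × Bool)] := by
  refine ⟨List.isChain_singleton _, ?_⟩
  intro a ha b hb
  simp only [List.getLast?_singleton, List.head?_cons, Option.mem_def, Option.some_inj] at ha hb
  subst ha hb
  intro _
  rfl

theorem TwTieB_perm {z y : Fin 3 × Bool} (hz0 : z.1 ≠ 0) (hy0 : y.1 ≠ 0)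
    {A A' : Fin 3 × Bool → Bool} {σ : SPerm (Fin 3)}
    (h : ∀ c : CC, act (wh y A) c = act σ.aut (act (wh y A') (act (wh z A) c))) :
    σ.perm 0 = 0 := by
  by_contra hk
  set k : Fin 3 := σ.perm 0 with hkdef
  have hX : act (wh y A) (act (wh y A).symm (cls [((k, true) : Fin 3 × Bool)])) =
      cls [((k, true) : Fin 3 × Bool)] := by
    rw [act_act]
    have e : (wh y A).symm.trans (wh y A) = MulEquiv.refl _ := by
      apply MulEquiv.ext
      intro g
      simp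
    rw [e, act_refl]
  have h1 := h (act (wh y A).symm (cls [((k, true) : Fin 3 × Bool)]))
  have c0 : cnt (cls [((k, true) : Fin 3 × Bool)]) 0 = 0 := by
    rw [cnt_cls (TwTieB_CR k)]
    simp [cntL, hk]
  have ck : cnt (cls [((k, true) : Fin 3 × Bool)]) k = 1 := by
    rw [cnt_cls (TwTieB_CR k)]
    simp [cntL]
  have d0 := cnt_wh_ne (act (wh y A).symm (cls [((k, true) : Fin 3 × Bool)])) y A
    (i := 0) (fun h => hy0 h.symm)
  have d1 := cnt_wh_ne (act (wh y A).symm (cls [((k, true) : Fin 3 × Bool)])) z A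
    (i := 0) (fun h => hz0 h.symm)
  have d2 := cnt_wh_ne (act (wh z A) (act (wh y A).symm (cls [((k, true) : Fin 3 × Bool)]))) y A'
    (i := 0) (fun h => hy0 h.symm)
  have d3 := cnt_SPerm σ (act (wh y A') (act (wh z A)
    (act (wh y A).symm (cls [((k, true) : Fin 3 × Bool)])))) 0
  rw [← h1, hX, ← hkdef, ck, d2, d1, ← d0, hX, c0] at d3
  omega

theorem TwTieB_sw {V : CC} {z y : Fin 3 × Bool} {A : Fin 3 × Bool → Bool} (hzy : z.1 ≠ y.1)
    (hz0 : z.1 ≠ 0) (hy0 : y.1 ≠ 0) (hN : cnt V z.1 = cnt V y.1) (hL : Lv V z A)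
    (hy : A y = true) (hy' : A (bar y) = false) :
    ∃ σ : SPerm (Fin 3), σ.perm 0 = 0 ∧ Lv V y A ∧
      Lv (act (wh z A) V) y (fun x => (A x && decide (x ≠ z)) || decide (x = bar z)) ∧
      act (wh y A) V = act σ.aut
        (act (wh y (fun x => (A x && decide (x ≠ z)) || decide (x = bar z))) (act (wh z A) V)) := by
  obtain ⟨σ, hσ⟩ := act_wh_swap z y hzy A hL.1 hL.2.1 hy hy'
  have hLy : Lv V y A := ⟨hy, hy', by rw [hL.2.2, hN]⟩
  refine ⟨σ, TwTieB_perm hz0 hy0 hσ, hLy, ?_, hσ V⟩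
  have n1 : y ≠ z := fun h => hzy (by rw [h])
  have n2 : bar y ≠ z := fun h => hzy (by rw [← h]; rfl)
  have n3 : bar y ≠ bar z := fun h => n1 (bar_inj.1 h)
  apply TwUp_Lv_of_len
  · simp [hy, n1]
  · simp [hy', n3]
  · have h1 := congrArg cycLen (hσ V)
    rw [cycLen_SPerm, Sm_len (Lv_Sm hLy)] at h1
    rw [← h1, Sm_len (Lv_Sm hL)]

theorem mv_swap {d : Dir} {V W : CC} (hN : cnt V 1 = cnt V 2) (h : Mv d V W) :
    ∃ (X Y : CC) (σ : SPerm (Fin 3)), σ.perm 0 = 0 ∧ Mv d.par V X ∧ Mv d.par.rev W Y ∧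
      X = act σ.aut Y := by
  obtain ⟨A, hL, hy, hy', rfl⟩ := h
  cases d with
  | up =>
    have hb : A (1, true) = true := hy
    have hb' : A (1, false) = false := hy'
    have hc : A (2, true) = true := hL.1
    have hc' : A (2, false) = false := hL.2.1
    obtain ⟨σ, h0, h1, h2, h3⟩ := TwTieB_sw (V := V) (z := (2, true)) (y := (1, true)) (A := A)
      (by decide) (by decide) (by decide) hN.symm hL hy hy'
    refine ⟨_, _, σ, h0, ⟨A, h1, hc, hc', rfl⟩, ⟨_, h2, ?_, ?_, rfl⟩, h3⟩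
    · show ((A (2, false) && decide (((2, false) : Fin 3 × Bool) ≠ (2, true))) ||
        decide (((2, false) : Fin 3 × Bool) = bar (2, true))) = true
      simp [bar]
    · show ((A (2, true) && decide (((2, true) : Fin 3 × Bool) ≠ (2, true))) ||
        decide (((2, true) : Fin 3 × Bool) = bar (2, true))) = false
      simp [bar]
  | upB =>
    have hb : A (1, true) = true := hL.1
    have hb' : A (1, false) = false := hL.2.1
    obtain ⟨σ, h0, h1, h2, h3⟩ := TwTieB_sw (V := V) (z := (1, true)) (y := (2, true)) (A := A)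
      (by decide) (by decide) (by decide) hN hL hy hy'
    refine ⟨_, _, σ, h0, ⟨A, h1, hb, hb', rfl⟩, ⟨_, h2, ?_, ?_, rfl⟩, h3⟩
    · show ((A (1, false) && decide (((1, false) : Fin 3 × Bool) ≠ (1, true))) ||
        decide (((1, false) : Fin 3 × Bool) = bar (1, true))) = true
      simp [bar]
    · show ((A (1, true) && decide (((1, true) : Fin 3 × Bool) ≠ (1, true))) ||
        decide (((1, true) : Fin 3 × Bool) = bar (1, true))) = false
      simp [bar]
  | dn =>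
    have hc : A (2, true) = true := hL.1
    have hc' : A (2, false) = false := hL.2.1
    have hb : A (1, false) = true := hy
    have hb' : A (1, true) = false := hy'
    obtain ⟨σ, h0, h1, h2, h3⟩ := TwTieB_sw (V := V) (z := (2, true)) (y := (1, false)) (A := A)
      (by decide) (by decide) (by decide) hN.symm hL hy hy'
    obtain ⟨g1, g1'⟩ := Lv_compl h1
    obtain ⟨g2, g2'⟩ := Lv_compl h2
    refine ⟨_, _, σ, h0, ⟨_, g1, ?_, ?_, rfl⟩, ⟨_, g2, ?_, ?_, rfl⟩, ?_⟩
    · show (!A (2, false)) = true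
      rw [hc']
      rfl
    · show (!A (2, true)) = false
      rw [hc]
      rfl
    · show (!((A (2, true) && decide (((2, true) : Fin 3 × Bool) ≠ (2, true))) ||
        decide (((2, true) : Fin 3 × Bool) = bar (2, true)))) = true
      simp [bar]
    · show (!((A (2, false) && decide (((2, false) : Fin 3 × Bool) ≠ (2, true))) ||
        decide (((2, false) : Fin 3 × Bool) = bar (2, true)))) = false
      simp [bar]
    · exact (g1'.trans h3).trans (congrArg (act σ.aut) g2'.symm)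
  | dnB =>
    have hb : A (1, true) = true := hL.1
    have hb' : A (1, false) = false := hL.2.1
    have hc : A (2, false) = true := hy
    have hc' : A (2, true) = false := hy'
    obtain ⟨σ, h0, h1, h2, h3⟩ := TwTieB_sw (V := V) (z := (1, true)) (y := (2, false)) (A := A)
      (by decide) (by decide) (by decide) hN hL hy hy'
    obtain ⟨g1, g1'⟩ := Lv_compl h1
    obtain ⟨g2, g2'⟩ := Lv_compl h2
    refine ⟨_, _, σ, h0, ⟨_, g1, ?_, ?_, rfl⟩, ⟨_, g2, ?_, ?_, rfl⟩, ?_⟩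
    · show (!A (1, false)) = true
      rw [hb']
      rfl
    · show (!A (1, true)) = false
      rw [hb]
      rfl
    · show (!((A (1, true) && decide (((1, true) : Fin 3 × Bool) ≠ (1, true))) ||
        decide (((1, true) : Fin 3 × Bool) = bar (1, true)))) = true
      simp [bar]
    · show (!((A (1, false) && decide (((1, false) : Fin 3 × Bool) ≠ (1, true))) ||
        decide (((1, false) : Fin 3 × Bool) = bar (1, true)))) = false
      simp [bar]
    · exact (g1'.trans h3).trans (congrArg (act σ.aut) g2'.symm)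

theorem TwTieB_up {V0 V V1 W : CC} (hO : OMin V0) (hN : cnt V0 1 = cnt V0 2)
    (h1 : 1 ≤ cnt V0 1) (m1 : Mv .up V0 V) (m2 : Mv .up V V1) (m3 : Mv .up V1 W) :
    V1 ∈ Cl V ∧ V1 ∈ Cl V0 ∧ V ∈ Cl V0 := by
  have hU : UpN 3 V0 W := ⟨V, m1, V1, m2, W, m3, rfl⟩
  have h0 := up_self_of_three hO hN h1 hU
  have e1 : V ∈ Cl V0 := mv_uniq hO h0 m1
  have e2 : V1 ∈ Cl V0 := mv_Cl' hO e1 h0 m2
  exact ⟨Cl_trans (Cl_symm e1) e2, e2, e1⟩

theorem TwTieB_dn {V0 V V1 W : CC} (hO : OMin V0) (hN : cnt V0 1 = cnt V0 2)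
    (h1 : 1 ≤ cnt V0 1) (m1 : Mv .dn V0 V) (m2 : Mv .dn V V1) (m3 : Mv .dn V1 W) :
    V1 ∈ Cl V := by
  have hS : Sm V0 W := Sm_trans (Mv_Sm m1) (Sm_trans (Mv_Sm m2) (Mv_Sm m3))
  obtain ⟨e1, -, -⟩ := TwTieB_up (Sm_OMin hO hS) (by rw [hS.2, hS.2]; exact hN)
    (by rw [hS.2]; exact h1) (Mv_rev m3) (Mv_rev m2) (Mv_rev m1)
  exact Cl_symm e1

theorem tie_collapse {d : Dir} {V0 V V1 W : CC} (hO : OMin V0) (hN : cnt V0 1 = cnt V0 2)
    (h1 : 1 ≤ cnt V0 1) (m1 : Mv d V0 V) (m2 : Mv d V V1) (m3 : Mv d V1 W) : V1 ∈ Cl V := by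
  have hs : cnt (act swp.aut V0) 1 = cnt (act swp.aut V0) 2 := by
    rw [(cnt_swp V0).2.1, (cnt_swp V0).2.2, hN]
  have hs1 : 1 ≤ cnt (act swp.aut V0) 1 := by
    rw [(cnt_swp V0).2.1, ← hN]
    exact h1
  cases d with
  | up => exact (TwTieB_up hO hN h1 m1 m2 m3).1
  | dn => exact TwTieB_dn hO hN h1 m1 m2 m3
  | upB =>
    have := (TwTieB_up (OMin_SPerm swp hO) hs hs1 (Mv_swp m1) (Mv_swp m2) (Mv_swp m3)).1
    have h2 := Cl_SPerm TwUp_swp0 this
    rwa [act_swp_swp, act_swp_swp] at h2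
  | dnB =>
    have := TwTieB_dn (OMin_SPerm swp hO) hs hs1 (Mv_swp m1) (Mv_swp m2) (Mv_swp m3)
    have h2 := Cl_SPerm TwUp_swp0 this
    rwa [act_swp_swp, act_swp_swp] at h2

theorem TwTieB_dir (d d' : Dir) : d' = d ∨ d' = d.par ∨ d' = d.rev ∨ d' = d.par.rev := by
  cases d <;> cases d' <;> simp [Dir.par, Dir.rev]

theorem TwTieB_parpar (d : Dir) : d.par.par = d := by
  cases d <;> rfl

theorem TwTieB_revrev (d : Dir) : d.rev.rev = d := by
  cases d <;> rfl

theorem TwTieB_revpar (d : Dir) : d.rev.par = d.par.rev := by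
  cases d <;> rfl

theorem TwTieB_close {c V : CC} {G : Set CC} {B : ℕ} (hO : OMin c)
    (hG : ∀ V ∈ G, Sm c V)
    (hcl : ∀ V ∈ G, ∀ (z : Fin 3 × Bool) (A : Fin 3 × Bool → Bool), Lv V z A →
      act (wh z A) V ∈ G)
    (h0 : ∀ V ∈ G, ∀ (z : Fin 3 × Bool) (A : Fin 3 × Bool → Bool), Lv V z A → z.1 = 0 →
      act (wh z A) V = V)
    (hB : ∀ V ∈ G, ∃ E : Finset CC, E.card ≤ B ∧ ∀ W ∈ Cl V, W ∈ E)
    (h12 : cnt c 1 = cnt c 2) (hV : V ∈ G)
    (hiv : ∀ (d : Dir) (V' : CC), Mv d V V' → (∃ W, Mv d V' W) → V' ∈ Cl V) :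
    Bdd c (5 * B) := by
  classical
  have hOG : ∀ W ∈ G, OMin W := fun W hW => Sm_OMin hO (hG W hW)
  have hNG : ∀ W ∈ G, cnt W 1 = cnt W 2 := by
    intro W hW
    rw [(hG W hW).2, (hG W hW).2, h12]
  have hClG : ∀ W ∈ G, ∀ W' ∈ Cl W, W' ∈ G := by
    intro W hW W' hW'
    have h' : Relation.ReflTransGen NT W W' := hW'
    induction h' with
    | refl => exact hW
    | tail hab hbc ih =>
      obtain ⟨z, A, hL, -, -, rfl⟩ := hbc
      exact hcl _ (ih hab) z A hL
  have hMvG : ∀ W ∈ G, ∀ (d : Dir) (W' : CC), Mv d W W' → W' ∈ G := by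
    intro W hW d W' hM
    obtain ⟨A, hL, -, -, rfl⟩ := hM
    exact hcl W hW _ A hL
  have hf : ∀ d : Dir, ∃ V', ∀ W, Mv d V W → Mv d V V' := by
    intro d
    by_cases h : ∃ W, Mv d V W
    · obtain ⟨W, hW⟩ := h
      exact ⟨W, fun _ _ => hW⟩
    · exact ⟨V, fun W hW => absurd ⟨W, hW⟩ h⟩
  choose f hf using hf
  have hF : ∀ d : Dir, ∃ E : Finset CC, E.card ≤ B ∧ ((∃ W0, Mv d V W0) →
      ∀ W ∈ Cl (f d), W ∈ E) := by
    intro d
    by_cases h : ∃ W, Mv d V W
    · obtain ⟨W, hW⟩ := h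
      obtain ⟨E, h1, h2⟩ := hB (f d) (hMvG V hV d _ (hf d W hW))
      exact ⟨E, h1, fun _ => h2⟩
    · exact ⟨∅, by simp, fun h' => absurd h' h⟩
  choose F hF1 hF2 using hF
  obtain ⟨F0, hF01, hF02⟩ := hB V hV
  obtain ⟨π, hπ, _, _⟩ := exists_SPerm_one
  set E : Set CC := {W | W ∈ Cl V ∨ ∃ d : Dir, (∃ W0, Mv d V W0) ∧ W ∈ Cl (f d)} with hE
  set E' : Finset CC := F0 ∪ (F .up ∪ (F .dn ∪ (F .upB ∪ F .dnB))) with hE'
  have hEE' : ∀ e ∈ E, e ∈ E' := by
    intro e he
    rcases he with he | ⟨d, hd, he⟩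
    · exact Finset.mem_union_left _ (hF02 e he)
    · have h1 := hF2 d hd e he
      apply Finset.mem_union_right
      cases d with
      | up => exact Finset.mem_union_left _ h1
      | dn => exact Finset.mem_union_right _ (Finset.mem_union_left _ h1)
      | upB => exact Finset.mem_union_right _ (Finset.mem_union_right _
          (Finset.mem_union_left _ h1))
      | dnB => exact Finset.mem_union_right _ (Finset.mem_union_right _
          (Finset.mem_union_right _ h1))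
  have hcard : E'.card ≤ 5 * B := by
    have a1 := Finset.card_union_le F0 (F .up ∪ (F .dn ∪ (F .upB ∪ F .dnB)))
    have a2 := Finset.card_union_le (F .up) (F .dn ∪ (F .upB ∪ F .dnB))
    have a3 := Finset.card_union_le (F .dn) (F .upB ∪ F .dnB)
    have a4 := Finset.card_union_le (F .upB) (F .dnB)
    have b1 := hF1 .up
    have b2 := hF1 .dn
    have b3 := hF1 .upB
    have b4 := hF1 .dnB
    rw [← hE'] at a1
    omega
  have claimV : ∀ (e e' : CC) (d' : Dir), e ∈ Cl V → Mv d' e e' → e' ∈ E := by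
    intro e e' d' he hM
    obtain ⟨V1, hV1, -⟩ := mv_Cl (hOG e (hClG V hV e he)) (Cl_symm he) hM
    exact Or.inr ⟨d', ⟨V1, hV1⟩, mv_Cl' (hOG V hV) he (hf d' V1 hV1) hM⟩
  have hone : ∀ e ∈ E, ∃ σ : SPerm (Fin 3), ∃ e' ∈ E, e = act σ.aut e' :=
    fun e he => ⟨π, e, he, (hπ e).symm⟩
  have main : Bdd V E'.card := by
    apply Bdd_of_closed (hOG V hV) E E' (fun e he _ => hEE' e he)
    · exact ⟨π, V, Or.inl (Cl_refl V), (hπ V).symm⟩
    · intro e he _ z A hz hz' hcap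
      have hL : Lv e z A := ⟨hz, hz', hcap⟩
      have heG : e ∈ G := by
        rcases he with he | ⟨d, ⟨W0, hW0⟩, he⟩
        · exact hClG V hV e he
        · exact hClG _ (hMvG V hV d _ (hf d W0 hW0)) e he
      by_cases hz0 : z.1 = 0
      · rw [h0 e heG z A hL hz0]
        exact hone e he
      rcases Lv_cases hL hz0 with hNT | ⟨d', hM⟩
      · apply hone
        rcases he with he | ⟨d, hd, he⟩
        · exact Or.inl (Cl_trans he (TwUp_cl hNT))
        · exact Or.inr ⟨d, hd, Cl_trans he (TwUp_cl hNT)⟩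
      · rcases he with he | ⟨d, ⟨W0, hW0⟩, he⟩
        · exact hone _ (claimV e _ d' he hM)
        · have Mfd := hf d W0 hW0
          have hfG : f d ∈ G := hMvG V hV d _ Mfd
          rcases TwTieB_dir d d' with rfl | rfl | rfl | rfl
          · obtain ⟨V1, hV1, -⟩ := mv_Cl (hOG e heG) (Cl_symm he) hM
            have h1 := hiv _ (f d') Mfd ⟨V1, hV1⟩
            exact hone _ (claimV e _ _ (Cl_trans h1 he) hM)
          · obtain ⟨V1, hV1, -⟩ := mv_Cl (hOG e heG) (Cl_symm he) hM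
            obtain ⟨X, Y, σ, -, hX, -, -⟩ := mv_swap (hNG _ hfG) hV1
            rw [TwTieB_parpar] at hX
            have h1 := hiv _ (f d) Mfd ⟨X, hX⟩
            exact hone _ (claimV e _ _ (Cl_trans h1 he) hM)
          · exact hone _ (Or.inl (mv_Cl' (hOG _ hfG) he (Mv_rev Mfd) hM))
          · obtain ⟨X, Y, σ, hσ, hX, hY, hXY⟩ := mv_swap (hNG V hV) Mfd
            have h1 : act (wh z A) e ∈ Cl Y := mv_Cl' (hOG _ hfG) he hY hM
            have h2 := Cl_SPerm hσ h1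
            rw [← hXY] at h2
            have h3 : X ∈ Cl (f d.par) := mv_uniq (hOG V hV) (hf d.par X hX) hX
            refine ⟨σ.inv, act σ.aut (act (wh z A) e), Or.inr ⟨d.par, ⟨X, hX⟩,
              Cl_trans h3 h2⟩, ?_⟩
            rw [act_SPerm_inv]
  exact Bdd_mono (Bdd_orb (hG V hV).1 main) hcard

theorem tie_bound {c : CC} {G : Set CC} {B : ℕ} (hO : OMin c) (hc : c ∈ G)
    (hG : ∀ V ∈ G, Sm c V)
    (hcl : ∀ V ∈ G, ∀ (z : Fin 3 × Bool) (A : Fin 3 × Bool → Bool), Lv V z A →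
      act (wh z A) V ∈ G)
    (h0 : ∀ V ∈ G, ∀ (z : Fin 3 × Bool) (A : Fin 3 × Bool → Bool), Lv V z A → z.1 = 0 →
      act (wh z A) V = V)
    (hB : ∀ V ∈ G, ∃ E : Finset CC, E.card ≤ B ∧ ∀ W ∈ Cl V, W ∈ E)
    (h12 : cnt c 1 = cnt c 2) (h1 : 1 ≤ cnt c 1) : Bdd c (5 * B) := by
  have hMvG : ∀ W ∈ G, ∀ (d : Dir) (W' : CC), Mv d W W' → W' ∈ G := by
    intro W hW d W' hM
    obtain ⟨A, hL, -, -, rfl⟩ := hM
    exact hcl W hW _ A hL
  by_cases hb : ∃ V ∈ G, ∃ d : Dir, (∃ W, Mv d V W) ∧ (∃ W, Mv d.rev V W)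
  · obtain ⟨V, hV, d0, ⟨W1, hW1⟩, ⟨W2, hW2⟩⟩ := hb
    have hNV : cnt V 1 = cnt V 2 := by
      rw [(hG V hV).2, (hG V hV).2, h12]
    have hall : ∀ d : Dir, ∃ W, Mv d V W := by
      intro d
      rcases TwTieB_dir d0 d with rfl | rfl | rfl | rfl
      · exact ⟨W1, hW1⟩
      · obtain ⟨X, _, _, _, hX, _, _⟩ := mv_swap hNV hW1
        exact ⟨X, hX⟩
      · exact ⟨W2, hW2⟩
      · obtain ⟨X, _, _, _, hX, _, _⟩ := mv_swap hNV hW2
        rw [TwTieB_revpar] at hX
        exact ⟨X, hX⟩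
    apply TwTieB_close hO hG hcl h0 hB h12 hV
    rintro d V' hM ⟨W, hW⟩
    obtain ⟨V0, hV0⟩ := hall d.rev
    have hV0' := Mv_rev hV0
    rw [TwTieB_revrev] at hV0'
    have hG0 : V0 ∈ G := hMvG V hV _ _ hV0
    have hS := hG V0 hG0
    exact tie_collapse (Sm_OMin hO hS) (by rw [hS.2, hS.2, h12]) (by rw [hS.2]; exact h1)
      hV0' hM hW
  · apply TwTieB_close hO hG hcl h0 hB h12 hc
    rintro d V' hM ⟨W, hW⟩
    exact absurd ⟨V', hMvG c hc d V' hM, d, ⟨W, hW⟩, ⟨c, Mv_rev hM⟩⟩ hb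

end Pool.Agent.Sims
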