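import Pool.Agent.Sims.TwChain
import Pool.Agent.Sims.TwTieB
import Pool.Agent.Sims.OnePort

/-!
# Module `TwSt` : strict and tie together; the version used below

* `st_bound`: `strict_bound` or `tie_bound` (`5 ≤ 2 cnt c 2 + 1`), `Bdd_mono`.
* `ns_bound`: in `G` every level move with multiplier `b^{±1}, c^{±1}` which does not separate the other one of `b, c` either does not
  separate `a` or is trivial.  By `Cl_oneport` the hypothesis `hB` of `st_bound` holds with `B = 2 (cycLen c - cnt c 0) + 1`.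
Difficulty 1.
-/

namespace Pool.Agent.Sims

open FreeGroup (of)

theorem st_bound {c : CC} {G : Set CC} {B : ℕ} (hO : OMin c) (hc : c ∈ G)
    (hG : ∀ V ∈ G, Sm c V)
    (hcl : ∀ V ∈ G, ∀ (z : Fin 3 × Bool) (A : Fin 3 × Bool → Bool), Lv V z A →
      act (wh z A) V ∈ G)
    (h0 : ∀ V ∈ G, ∀ (z : Fin 3 × Bool) (A : Fin 3 × Bool → Bool), Lv V z A → z.1 = 0 →
      act (wh z A) V = V)
    (hB : ∀ V ∈ G, ∃ E : Finset CC, E.card ≤ B ∧ ∀ W ∈ Cl V, W ∈ E)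
    (h12 : cnt c 1 ≤ cnt c 2) (h1 : 1 ≤ cnt c 1) (h2 : 2 ≤ cnt c 2) :
    Bdd c ((2 * cnt c 2 + 1) * B) := by
  rcases h12.lt_or_eq with h | h
  · exact strict_bound hO hc hG hcl h0 hB h
  · exact Bdd_mono (tie_bound hO hc hG hcl h0 hB h h1) (Nat.mul_le_mul_right B (by omega))

theorem ns_bound {c : CC} {G : Set CC} (hO : OMin c) (hc : c ∈ G)
    (hG : ∀ V ∈ G, Sm c V)
    (hcl : ∀ V ∈ G, ∀ (z : Fin 3 × Bool) (A : Fin 3 × Bool → Bool), Lv V z A →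
      act (wh z A) V ∈ G)
    (h0 : ∀ V ∈ G, ∀ (z : Fin 3 × Bool) (A : Fin 3 × Bool → Bool), Lv V z A → z.1 = 0 →
      act (wh z A) V = V)
    (hN : ∀ V ∈ G, ∀ (z : Fin 3 × Bool) (A : Fin 3 × Bool → Bool), Lv V z A → z.1 ≠ 0 →
      (∀ i, i ≠ 0 → i ≠ z.1 → NSep A i) → NSep A 0 ∨ act (wh z A) V = V)
    (h12 : cnt c 1 ≤ cnt c 2) (h00 : 1 ≤ cnt c 0) (h1 : 1 ≤ cnt c 1) (h2 : 2 ≤ cnt c 2) :
    Bdd c ((2 * cnt c 2 + 1) * (2 * (cycLen c - cnt c 0) + 1)) := by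
  refine st_bound hO hc hG hcl h0 (fun V hV => ?_) h12 h1 h2
  have hS := hG V hV
  have hClG : ∀ W ∈ Cl V, W ∈ G := by
    intro W hW
    have h3 : Relation.ReflTransGen NT V W := hW
    clear hW
    induction h3 with
    | refl => exact hV
    | tail _ h4 ih =>
      obtain ⟨z, A, hL, -, -, rfl⟩ := h4
      exact hcl _ ih z A hL
  obtain ⟨E, hE, hE'⟩ := Cl_oneport (Sm_OMin hO hS) (by rw [hS.2 0]; exact h00)
    (fun W hW => hN W (hClG W hW))
  refine ⟨E, ?_, hE'⟩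
  rw [hS.2 0, Sm_len hS] at hE
  exact hE

end Pool.Agent.Sims
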