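import Pool.Agent.Sims.TripD
import Pool.Agent.Sims.TwSt

/-!
# Module `CaseII` : some pair cut is smaller than all counts

Let `l` be the minimum of `capC W (PrC i)` over `W ∈ orb c` and `i`; `l ≥ 1` (`cap_pair_pos`; all `W ∈ orb c` have the counts of `c` up to a permutation, `cnt_orb`), and `l` is less than all counts.
* If `TP l V` for some `V ∈ orb c`: `trip_bound`, `Bdd_orb`, `8 m + 6 ≤ F3 m`.
* Otherwise choose `V ∈ orb c`, `i` with `capC V (PrC i) = l`.  A signed permutation makes `i = 0` and `cnt 1 ≤ cnt 2` (`capC_SPerm`, `cnt_SPerm`, `orb_SPerm`, `Bdd_orb`, `orb_eq`; the conditions on `orb` do not change).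
  `G = {W | Sm V W ∧ capC W (PrC 0) = l}`.  `cross_pair` (for `i = 0`; no `W ∈ orb V` is a tripod): a level move `(z, A)` of `W ∈ G` with `A` separating `a` is trivial with `z.1 = 0`.  So: `a`-moves are
  trivial (`h0`); `hN`: if `z.1 ≠ 0` then `NSep A 0`; `hcl`: trivial moves, and `nocross` otherwise.  `ns_bound`.
  `(2 n₂ + 1)(2 (m - n₀) + 1) ≤ F3 m` for `m ≥ 11`, all counts `≥ 3` (`n₂ ≤ m - 6`).
Difficulty 2-3.
-/

namespace Pool.Agent.Sims

theorem CaseII_F3 {m a b c : ℕ} (hm : 11 ≤ m) (h : m = a + b + c) (ha : 3 ≤ a) (hb : 3 ≤ b)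
    (hc : 3 ≤ c) : (2 * c + 1) * (2 * (m - a) + 1) ≤ F3 m ∧ 8 * m + 6 ≤ F3 m := by
  obtain ⟨k, rfl⟩ : ∃ k, m = k + 11 := ⟨m - 11, by omega⟩
  have h1 : k + 11 - 1 = k + 10 := by omega
  have h2 : k + 11 - 2 = k + 9 := by omega
  have h3 : k + 11 - 7 = k + 4 := by omega
  have h4 : 2 * c + 1 ≤ 2 * k + 11 := by omega
  have h5 : 2 * (k + 11 - a) + 1 ≤ 2 * k + 17 := by omega
  unfold F3
  rw [h1, h2, h3]
  constructor
  · refine (Nat.mul_le_mul h4 h5).trans ?_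
    nlinarith [Nat.zero_le k, Nat.zero_le (k * k), Nat.zero_le (k * k * k)]
  · nlinarith [Nat.zero_le k, Nat.zero_le (k * k), Nat.zero_le (k * k * k)]

theorem CaseII_pair (σ : SPerm (Fin 3)) (V : CC) {i j : Fin 3} (h : σ.perm i = j) :
    capC (act σ.aut V) (PrC j) = capC V (PrC i) := by
  rw [capC_SPerm]
  apply capC_congr
  intro x
  have h1 : (σ.letter x).1 = σ.perm x.1 := rfl
  simp only [PrC, h1]
  have h2 : σ.perm x.1 = j ↔ x.1 = i := by
    rw [← h]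
    exact σ.perm.injective.eq_iff
  simp only [h2]

theorem CaseII_norm {c V : CC} (hV : V ∈ orb c) (i : Fin 3) :
    ∃ d ∈ orb c, capC d (PrC 0) = capC V (PrC i) ∧ cnt d 1 ≤ cnt d 2 := by
  have h1 := CaseII_pair (⟨Equiv.swap i 0, fun _ => true⟩ : SPerm (Fin 3)) V
    (i := i) (j := 0) (Equiv.swap_apply_left i 0)
  have h2 : act (SPerm.aut (⟨Equiv.swap i 0, fun _ => true⟩ : SPerm (Fin 3))) V ∈ orb c :=
    orb_trans hV (orb_SPerm _ V)
  generalize act (SPerm.aut (⟨Equiv.swap i 0, fun _ => true⟩ : SPerm (Fin 3))) V = e at h1 h2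
  rcases le_total (cnt e 1) (cnt e 2) with h3 | h3
  · exact ⟨e, h2, h1, h3⟩
  · refine ⟨act swp.aut e, orb_trans h2 (orb_SPerm _ e), ?_, ?_⟩
    · rw [CaseII_pair swp e (i := 0) (j := 0) (by decide), h1]
    · rw [(cnt_swp e).2.1, (cnt_swp e).2.2]
      exact h3

theorem CaseII_main {c : CC} {l : ℕ} (hO : OMin c) (hm : 11 ≤ cycLen c)
    (h3 : ∀ W ∈ orb c, ∀ i, 3 ≤ cnt W i) (hl : ∀ W ∈ orb c, ∀ i, l < cnt W i)
    (hcap : ∀ W ∈ orb c, ∀ i, l ≤ capC W (PrC i)) (hT : ∀ W ∈ orb c, ¬ TP l W)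
    {d : CC} (hd : d ∈ orb c) (h0 : capC d (PrC 0) = l) (h12 : cnt d 1 ≤ cnt d 2) :
    Bdd c (F3 (cycLen c)) := by
  have hOd := OMin_orb hO hd
  have key : ∀ W ∈ {W | Sm d W ∧ capC W (PrC 0) = l}, ∀ (z : Fin 3 × Bool)
      (A : Fin 3 × Bool → Bool), Lv W z A → ¬ NSep A 0 → z.1 = 0 ∧ act (wh z A) W = W := by
    intro W hW z A h hs
    have hWc : W ∈ orb c := orb_trans hd hW.1.1
    obtain ⟨h1, h2 | h2⟩ := cross_pair (OMin_orb hO hWc) (hl W hWc) (hcap W hWc) hW.2 h hs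
    · exact ⟨h1, h2⟩
    · exact absurd h2.1 (hT W hWc)
  have hb := ns_bound (c := d) (G := {W | Sm d W ∧ capC W (PrC 0) = l}) hOd ⟨Sm_refl d, h0⟩
    (fun V hV => hV.1)
    (by
      intro W hW z A h
      refine ⟨Sm_trans hW.1 (Lv_Sm h), ?_⟩
      by_cases hs : NSep A 0
      · rw [nocross h hs]
        exact hW.2
      · rw [(key W hW z A h hs).2]
        exact hW.2)
    (by
      intro W hW z A h hz
      refine (key W hW z A h ?_).2
      intro hs
      have e1 := Cross_nsep hs z hz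
      have e2 := Cross_nsep hs (bar z) hz
      obtain ⟨hz1, hz2, -⟩ := h
      rw [hz1] at e1
      rw [hz2, ← e1] at e2
      exact absurd e2 (by decide))
    (by
      intro W hW z A h hz _
      left
      by_contra hs
      exact hz (key W hW z A h hs).1)
    h12 (by have := h3 d hd 0; omega) (by have := h3 d hd 1; omega)
    (by have := h3 d hd 2; omega)
  have hlen : cycLen d = cycLen c := hd.2
  have hsum := cycLen_eq_sum d
  rw [Fin.sum_univ_three] at hsum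
  have hF := CaseII_F3 (m := cycLen d) (by omega) hsum (h3 d hd 0) (h3 d hd 1) (h3 d hd 2)
  apply Bdd_orb hd
  rw [← hlen]
  exact Bdd_mono hb hF.1

theorem case_two {c : CC} (hO : OMin c) (hm : 11 ≤ cycLen c) (h3 : ∀ i, 3 ≤ cnt c i)
    (h : ∃ V ∈ orb c, ∃ i, ∀ j, capC V (PrC i) < cnt V j) : Bdd c (F3 (cycLen c)) := by
  classical
  obtain ⟨V0, hV0, i0, h0⟩ := h
  have hex : ∃ n, ∃ W ∈ orb c, ∃ i, capC W (PrC i) = n := ⟨_, V0, hV0, i0, rfl⟩
  obtain ⟨l, hl⟩ : ∃ l, l = Nat.find hex := ⟨_, rfl⟩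
  have hspec : ∃ W ∈ orb c, ∃ i, capC W (PrC i) = l := by
    rw [hl]
    exact Nat.find_spec hex
  have hmin : ∀ W ∈ orb c, ∀ i, l ≤ capC W (PrC i) := by
    intro W hW i
    rw [hl]
    exact Nat.find_min' hex ⟨W, hW, i, rfl⟩
  have hlc : ∀ k, l < cnt c k := by
    intro k
    obtain ⟨p, hp⟩ := cnt_orb hO hV0
    have h1 := hp (p.symm k)
    rw [Equiv.apply_symm_apply] at h1
    rw [← h1]
    exact lt_of_le_of_lt (hmin V0 hV0 i0) (h0 _)
  have h3' : ∀ W ∈ orb c, ∀ i, 3 ≤ cnt W i := by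
    intro W hW i
    obtain ⟨p, hp⟩ := cnt_orb hO hW
    rw [hp]
    exact h3 _
  have hlc' : ∀ W ∈ orb c, ∀ i, l < cnt W i := by
    intro W hW i
    obtain ⟨p, hp⟩ := cnt_orb hO hW
    rw [hp]
    exact hlc _
  obtain ⟨V, hV, i, hi⟩ := hspec
  by_cases hT : ∃ W ∈ orb c, TP l W
  · obtain ⟨W, hW, hT⟩ := hT
    have hl1 : 1 ≤ l := by
      rw [← hi]
      exact cap_pair_pos (fun j => by have := h3' V hV j; omega) i
    have hb := trip_bound (OMin_orb hO hW) hl1 (hlc' W hW)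
      (fun W' hW' j => hmin W' (orb_trans hW hW') j) hT
    have hlen : cycLen W = cycLen c := hW.2
    have hsum := cycLen_eq_sum W
    rw [Fin.sum_univ_three] at hsum
    have hF := CaseII_F3 (m := cycLen W) (by omega) hsum (h3' W hW 0) (h3' W hW 1) (h3' W hW 2)
    apply Bdd_orb hW
    rw [← hlen]
    exact Bdd_mono hb hF.2
  · have hT' : ∀ W ∈ orb c, ¬ TP l W := fun W hW h => hT ⟨W, hW, h⟩
    obtain ⟨d, hd, h1, h2⟩ := CaseII_norm hV i
    exact CaseII_main hO hm h3' hlc' hmin hT' hd (h1.trans hi) h2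

end Pool.Agent.Sims
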