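import Pool.Agent.Sims.EvBas
import Pool.Agent.Sims.ArcA

/-!
# Module `EvMvC` : the counts of a pattern

* `pat_cnt`: the reduced word: `w = π.flatMap (fun t => (0, port t.1 t.2) :: (if t.2 then (g t.1).toWord else invRev (g t.1).toWord))`.  It is cyclically reduced: inside a block clear (`g` has no letters `a^{±1}`); between blocks: the last letter of a
  nonempty `(g k).toWord` is not `a^{±1}`; if `g k = 1` the two consecutive letters are `(0, port k d)` and `(0, !port k (!d))`, equal since `port k true ≠ port k false`.  So `cnt V i = Σ_t cntL (g t.1).toWord i` for `i ≠ 0`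
  (`cnt_cls`; inversion does not change `cntL`), which is `#{t | t.1} * cntL (g true).toWord i + #{t | !t.1} * cntL (g false).toWord i`.
Difficulty 2.
-/

namespace Pool.Agent.Sims

open FreeGroup (of)

theorem EvMvC_inv (g : FreeGroup (Fin 3)) (i : Fin 3) :
    cntL (g⁻¹).toWord i = cntL g.toWord i := by
  unfold cntL
  rw [FreeGroup.toWord_inv, FreeGroup.invRev, List.countP_reverse, List.countP_map]
  rfl

theorem EvMvC_arc {L : List (Bool × FreeGroup (Fin 3))} (hIn : ∀ q ∈ L, In12 q.2)
    (hc : cyc (fun q r => if q.2 = 1 ∧ q.1 ≠ r.1 then 1 else 0) L = 0) {i : Fin 3} (hi : i ≠ 0) :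
    cnt (ConjClasses.mk (arcP L)) i = (L.map (fun q => cntL q.2.toWord i)).sum := by
  have hCR : CR (ArcA_W L) := (ArcA_CR_iff hIn).2 hc
  have hcls : ConjClasses.mk (arcP L) = cls (ArcA_W L) := by
    unfold cls
    rw [ArcA_mk]
  rw [hcls, cnt_cls hCR]
  clear hCR hcls hc
  induction L with
  | nil => simp [ArcA_W, cntL]
  | cons q t ih =>
    have ih' := ih (fun q hq => hIn q (List.mem_cons_of_mem _ hq))
    unfold cntL at ih' ⊢
    rw [ArcA_W_cons, List.countP_cons_of_neg (by simpa using fun h => hi h.symm),
      List.countP_append, ih', List.map_cons, List.sum_cons]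

/-- the arcs of a pattern -/
def EvMvC_L (port : Bool → Bool → Bool) (g : Bool → FreeGroup (Fin 3))
    (π : List (Bool × Bool)) : List (Bool × FreeGroup (Fin 3)) :=
  π.map (fun t => (port t.1 t.2, if t.2 then g t.1 else (g t.1)⁻¹))

theorem EvMvC_gw (port : Bool → Bool → Bool) (g : Bool → FreeGroup (Fin 3))
    (π : List (Bool × Bool)) : arcP (EvMvC_L port g π) = gw port g π := by
  unfold arcP EvMvC_L gw
  rw [List.map_map]
  rfl

theorem EvMvC_lin {β : Type*} {f g : β → β → ℕ} (h : ∀ x y, f x y = 0 → g x y = 0) (x : β)
    (l : List β) (z : β) (h0 : lin f x l z = 0) : lin g x l z = 0 := by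
  induction l generalizing x with
  | nil => exact h x z h0
  | cons y l ih =>
    rw [lin] at h0 ⊢
    rw [h x y (by omega), ih y (by omega)]

theorem pat_cnt {port : Bool → Bool → Bool} {π : List (Bool × Bool)} (hc : Cons port π)
    {g : Bool → FreeGroup (Fin 3)} (hg : ∀ k, In12 (g k))
    (hg1 : ∀ k, g k = 1 → port k true ≠ port k false) {i : Fin 3} (hi : i ≠ 0) :
    cnt (ConjClasses.mk (gw port g π)) i =
      π.countP (fun t => t.1) * cntL (g true).toWord i +
        π.countP (fun t => !t.1) * cntL (g false).toWord i := by
  rw [← EvMvC_gw, EvMvC_arc (L := EvMvC_L port g π) ?_ ?_ hi]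
  · unfold EvMvC_L
    rw [List.map_map]
    clear hc
    induction π with
    | nil => simp
    | cons t π ih =>
      rw [List.map_cons, List.sum_cons, ih]
      rcases t with ⟨k, d⟩
      have h1 : ((fun q : Bool × FreeGroup (Fin 3) => cntL q.2.toWord i) ∘
          fun t : Bool × Bool => (port t.1 t.2, if t.2 then g t.1 else (g t.1)⁻¹)) (k, d) =
          cntL (g k).toWord i := by
        cases d
        · show cntL (if false = true then g k else (g k)⁻¹).toWord i = _
          rw [if_neg (by decide), EvMvC_inv]
        · show cntL (if true = true then g k else (g k)⁻¹).toWord i = _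
          rw [if_pos rfl]
      rw [h1]
      cases k
      · simp only [List.countP_cons, Bool.not_false, if_true]
        simp
        ring
      · simp only [List.countP_cons, Bool.not_true]
        simp
        ring
  · intro q hq
    obtain ⟨t, -, rfl⟩ := List.mem_map.1 hq
    rcases t with ⟨k, d⟩
    cases d
    · simpa using In12_inv (hg k)
    · simpa using hg k
  · unfold EvMvC_L
    rw [Rel_cyc_map]
    unfold Cons at hc
    cases π with
    | nil => rfl
    | cons t π =>
      rw [cyc] at hc ⊢
      refine EvMvC_lin ?_ t π t hc
      rintro ⟨k, d⟩ ⟨k', d'⟩ h0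
      have h1 : port k' d' = !port k (!d) := by
        by_contra hne
        rw [if_neg hne] at h0
        omega
      rw [if_neg]
      rintro ⟨h2, h3⟩
      simp only at h2 h3
      have h4 : g k = 1 := by
        cases d
        · simpa using h2
        · simpa using h2
      have h5 := hg1 k h4
      rw [h1] at h3
      cases d
      · simp only [Bool.not_false] at h3
        revert h3 h5
        cases port k true <;> cases port k false <;> simp
      · simp only [Bool.not_true] at h3
        revert h3 h5
        cases port k true <;> cases port k false <;> simp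

end Pool.Agent.Sims
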