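import Pool.Agent.Sims.EvBas
import Pool.Agent.Sims.EvMvC

/-!
# Module `EvMvT` : patterns `Π a^j g^{±1}`

* `gT_move`: `B (0, true) = B (0, false) = false`: `φ` fixes `a`: `φ (gT j g) = gT j (φ g)`.  `gT_tau`: same for `τ`.
* `gT_cnt`: `g ≠ 1`, all `t.1 ≠ 0`, `In12 g`: `cnt (mk (gT j g)) i = j.length * cntL g.toWord i` for `i ≠ 0` (`j ≠ []`).
Difficulty 2.
-/

namespace Pool.Agent.Sims

open FreeGroup (of)

theorem EvMvT_hom (φ : FreeGroup (Fin 3) ≃* FreeGroup (Fin 3)) (h : φ (of 0) = of 0)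
    (j : List (ℤ × Bool)) (g : FreeGroup (Fin 3)) : φ (gT j g) = gT j (φ g) := by
  unfold gT
  induction j with
  | nil => simp
  | cons t j ih =>
    rw [List.map_cons, List.prod_cons, map_mul, ih, List.map_cons, List.prod_cons]
    congr 1
    rw [map_mul, map_zpow, h]
    rcases t with ⟨k, d⟩
    cases d
    · simp
    · simp

theorem gT_move {j : List (ℤ × Bool)} {g : FreeGroup (Fin 3)} {y : Fin 3 × Bool} {B : Ct}
    (hy : y.1 ≠ 0) (h0 : B (0, true) = false) (h0' : B (0, false) = false) :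
    act (wh y B) (ConjClasses.mk (gT j g)) = ConjClasses.mk (gT j (wh y B g)) := by
  rw [act_mk, EvMvT_hom]
  have h := wh_lett_ne y B (x := ((0 : Fin 3), true)) (fun h => hy h.symm)
  rw [lett_true] at h
  have hb : bar ((0 : Fin 3), true) = (0, false) := rfl
  rw [h, hb, h0, h0']
  simp

theorem wh_In12 {y : Fin 3 × Bool} (hy : y.1 ≠ 0) (B : Ct) {g : FreeGroup (Fin 3)}
    (hg : In12 g) : In12 (wh y B g) := by
  obtain ⟨p, q, h⟩ := Good_wh hy B
  exact h.2.2.2 g hg

theorem gT_tau {j : List (ℤ × Bool)} {g : FreeGroup (Fin 3)} (τ : SPerm (Fin 3)) (hτ : Fix0 τ) :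
    act τ.aut (ConjClasses.mk (gT j g)) = ConjClasses.mk (gT j (τ.aut g)) := by
  rw [act_mk, EvMvT_hom]
  have h := (Good_SPerm hτ).2.2.1
  rw [h]
  simp

/-- the arcs of `a^k h` -/
def EvMvT_b (g : FreeGroup (Fin 3)) (t : ℤ × Bool) : List (Bool × FreeGroup (Fin 3)) :=
  List.replicate (t.1.natAbs - 1) (decide (0 < t.1), 1) ++
    [(decide (0 < t.1), if t.2 then g else g⁻¹)]

theorem EvMvT_arcP_append (L L' : List (Bool × FreeGroup (Fin 3))) :
    arcP (L ++ L') = arcP L * arcP L' := by
  unfold arcP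
  rw [List.map_append, List.prod_append]

theorem EvMvT_b_prod (g : FreeGroup (Fin 3)) {t : ℤ × Bool} (ht : t.1 ≠ 0) :
    arcP (EvMvT_b g t) = of 0 ^ t.1 * (if t.2 then g else g⁻¹) := by
  unfold EvMvT_b
  rw [EvMvT_arcP_append]
  have h1 : ∀ s : Bool, arcP (List.replicate (t.1.natAbs - 1) (s, 1)) =
      lett (0, s) ^ (t.1.natAbs - 1) := by
    intro s
    unfold arcP
    rw [List.map_replicate, List.prod_replicate, mul_one]
  rw [h1]
  have h2 : arcP [(decide (0 < t.1), if t.2 then g else g⁻¹)] =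
      lett (0, decide (0 < t.1)) * (if t.2 then g else g⁻¹) := by
    simp [arcP]
  rw [h2, ← mul_assoc, ← pow_succ]
  congr 1
  have h3 : t.1.natAbs - 1 + 1 = t.1.natAbs := by
    have := Int.natAbs_pos.2 ht
    omega
  rw [h3]
  rcases lt_or_gt_of_ne ht with h | h
  · rw [decide_eq_false (by omega), lett_false, inv_pow, ← zpow_natCast, ← zpow_neg]
    congr 1
    omega
  · rw [decide_eq_true h, lett_true, ← zpow_natCast]
    congr 1
    omega

/-- the mismatch function -/
def EvMvT_f (q r : Bool × FreeGroup (Fin 3)) : ℕ := if q.2 = 1 ∧ q.1 ≠ r.1 then 1 else 0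

theorem EvMvT_rep (s : Bool) (h : FreeGroup (Fin 3)) (m : ℕ) : ∀ x : Bool × FreeGroup (Fin 3),
    (x.2 ≠ 1 ∨ x.1 = s) → lin EvMvT_f x (List.replicate m (s, 1)) (s, h) = 0 := by
  induction m with
  | zero =>
    intro x hx
    rw [List.replicate_zero, lin, EvMvT_f, if_neg]
    rintro ⟨h1, h2⟩
    rcases hx with hx | hx
    · exact hx h1
    · exact h2 hx
  | succ m ih =>
    intro x hx
    rw [List.replicate_succ, lin, ih (s, 1) (Or.inr rfl), EvMvT_f, if_neg]
    rintro ⟨h1, h2⟩
    rcases hx with hx | hx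
    · exact hx h1
    · exact h2 hx

theorem EvMvT_ne (g : FreeGroup (Fin 3)) (hg : g ≠ 1) (d : Bool) :
    (if d then g else g⁻¹) ≠ 1 := by
  cases d
  · simpa using hg
  · simpa using hg

theorem EvMvT_lin (g : FreeGroup (Fin 3)) (hg : g ≠ 1) (j : List (ℤ × Bool)) :
    ∀ x z : Bool × FreeGroup (Fin 3), x.2 ≠ 1 →
      lin EvMvT_f x (j.flatMap (EvMvT_b g)) z = 0 := by
  induction j with
  | nil =>
    intro x z hx
    rw [List.flatMap_nil, lin, EvMvT_f, if_neg]
    exact fun h => hx h.1
  | cons t j ih =>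
    intro x z hx
    rw [List.flatMap_cons]
    unfold EvMvT_b
    rw [List.append_assoc, List.singleton_append, lin_append, EvMvT_rep _ _ _ _ (Or.inl hx)]
    have h := ih (decide (0 < t.1), if t.2 then g else g⁻¹) z (EvMvT_ne g hg t.2)
    unfold EvMvT_b at h
    rw [h]

theorem EvMvT_cyc (g : FreeGroup (Fin 3)) (hg : g ≠ 1) (j : List (ℤ × Bool)) :
    cyc EvMvT_f (j.flatMap (EvMvT_b g)) = 0 := by
  cases j with
  | nil => rfl
  | cons t j =>
    rw [List.flatMap_cons]
    have h : EvMvT_b g t = List.replicate (t.1.natAbs - 1) (decide (0 < t.1), 1) ++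
        [(decide (0 < t.1), if t.2 then g else g⁻¹)] := rfl
    rw [h, List.append_assoc, List.singleton_append,
      cyc_rotated EvMvT_f (List.isRotated_append), List.cons_append, cyc]
    rcases hm : t.1.natAbs - 1 with _ | m
    · rw [List.replicate_zero, List.append_nil]
      exact EvMvT_lin g hg j _ _ (EvMvT_ne g hg t.2)
    · rw [List.replicate_succ, lin_append, EvMvT_lin g hg j _ _ (EvMvT_ne g hg t.2),
        EvMvT_rep _ _ _ _ (Or.inr rfl)]

theorem gT_cnt {j : List (ℤ × Bool)} (hj : ∀ t ∈ j, t.1 ≠ 0) {g : FreeGroup (Fin 3)}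
    (hg : In12 g) (hg1 : g ≠ 1) {i : Fin 3} (hi : i ≠ 0) :
    cnt (ConjClasses.mk (gT j g)) i = j.length * cntL g.toWord i := by
  have h1 : gT j g = arcP (j.flatMap (EvMvT_b g)) := by
    clear hg hg1
    induction j with
    | nil => simp [gT, arcP]
    | cons t j ih =>
      rw [List.flatMap_cons, EvMvT_arcP_append, EvMvT_b_prod g (hj t List.mem_cons_self),
        ← ih (fun t ht => hj t (List.mem_cons_of_mem _ ht))]
      unfold gT
      rw [List.map_cons, List.prod_cons]
  rw [h1, EvMvC_arc (L := j.flatMap (EvMvT_b g)) ?_ (EvMvT_cyc g hg1 j) hi]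
  · clear h1 hj
    induction j with
    | nil => simp
    | cons t j ih =>
      rw [List.flatMap_cons, List.map_append, List.sum_append, ih, List.length_cons]
      have h2 : ((EvMvT_b g t).map (fun q => cntL q.2.toWord i)).sum = cntL g.toWord i := by
        unfold EvMvT_b
        rw [List.map_append, List.sum_append, List.map_replicate]
        have h3 : cntL (1 : FreeGroup (Fin 3)).toWord i = 0 := by
          rw [FreeGroup.toWord_one]
          rfl
        rw [h3]
        rcases t with ⟨k, d⟩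
        cases d
        · simp [EvMvC_inv, -FreeGroup.toWord_inv]
        · simp
      rw [h2]
      ring
  · intro q hq
    rw [List.mem_flatMap] at hq
    obtain ⟨t, -, ht⟩ := hq
    unfold EvMvT_b at ht
    rw [List.mem_append] at ht
    rcases ht with ht | ht
    · rw [List.eq_of_mem_replicate ht]
      exact In12_one
    · rw [List.mem_singleton.1 ht]
      show In12 (if t.2 then g else g⁻¹)
      split_ifs
      · exact hg
      · exact In12_inv hg

end Pool.Agent.Sims
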