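import Pool.Agent.Sims.EvBas

/-!
# Module `EvN4` : normal forms of words with two letters `b^{±1}` and two letters `c^{±1}`

* `norm4`: a list `u` of four letters, two of generator `1` and two of generator `2`: there is `τ` with `Fix0 τ` such that `u.map τ.inv.letter` is in the list `N4` of the 12 lists which begin with `(1, true)` and whose
  first letter of generator `2` is `(2, true)`.  (The signed permutations fixing `a` are generated by the exchange of `b, c` and the two sign changes.)  `norm4` is stated with `u = u₀.map τ.letter`.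
  Finite check: `u` is one of `96` lists; e.g. by cases on the first letter and on the position of the first letter of the other generator.
Difficulty 2.
-/

namespace Pool.Agent.Sims

/-- the eight signed permutations which fix `a` -/
def EvN4_sp (p s1 s2 : Bool) : SPerm (Fin 3) :=
  ⟨if p then 1 else Equiv.swap 1 2, fun i => if i = 1 then s1 else if i = 2 then s2 else true⟩

theorem EvN4_fix (p s1 s2 : Bool) : Fix0 (EvN4_sp p s1 s2) := by
  revert p s1 s2
  unfold Fix0
  decide

/-- the twelve normal forms -/
def EvN4_F : Finset (List (Fin 3 × Bool)) :=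
  {[(1, true), (1, true), (2, true), (2, true)], [(1, true), (1, true), (2, true), (2, false)],
    [(1, true), (1, false), (2, true), (2, true)], [(1, true), (1, false), (2, true), (2, false)],
    [(1, true), (2, true), (1, true), (2, true)], [(1, true), (2, true), (1, true), (2, false)],
    [(1, true), (2, true), (1, false), (2, true)], [(1, true), (2, true), (1, false), (2, false)],
    [(1, true), (2, true), (2, true), (1, true)], [(1, true), (2, true), (2, false), (1, true)],
    [(1, true), (2, true), (2, true), (1, false)], [(1, true), (2, true), (2, false), (1, false)]}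

theorem EvN4_len (u : List (Fin 3 × Bool)) : u.length = cntL u 0 + cntL u 1 + cntL u 2 := by
  induction u with
  | nil => simp [cntL]
  | cons x u ih =>
    obtain ⟨i, e⟩ := x
    unfold cntL at ih ⊢
    fin_cases i <;> simp [List.countP_cons] <;> omega

theorem EvN4_check : ∀ a b c d : Fin 3 × Bool, cntL [a, b, c, d] 0 = 0 → cntL [a, b, c, d] 1 = 2 →
    cntL [a, b, c, d] 2 = 2 → ∃ p s1 s2 : Bool, ∃ u0 ∈ EvN4_F,
      [a, b, c, d] = u0.map (EvN4_sp p s1 s2).letter := by
  decide +kernel

theorem norm4 : ∃ F : Finset (List (Fin 3 × Bool)), F.card ≤ 12 ∧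
    ∀ u : List (Fin 3 × Bool), cntL u 0 = 0 → cntL u 1 = 2 → cntL u 2 = 2 →
      ∃ τ : SPerm (Fin 3), Fix0 τ ∧ ∃ u0 ∈ F, u = u0.map τ.letter := by
  refine ⟨EvN4_F, by decide, ?_⟩
  intro u h0 h1 h2
  have hl : u.length = 4 := by rw [EvN4_len, h0, h1, h2]
  match u, hl with
  | [a, b, c, d], _ =>
    obtain ⟨p, s1, s2, u0, hu0, h⟩ := EvN4_check a b c d h0 h1 h2
    exact ⟨EvN4_sp p s1 s2, EvN4_fix p s1 s2, u0, hu0, h⟩

end Pool.Agent.Sims
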