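import Pool.Agent.Sims.EvMvE
import Pool.Agent.Sims.EvMvC
import Pool.Agent.Sims.EvMvT
import Pool.Agent.Sims.EvN4

/-!
# Module `EvCt` : the numbers of patterns

* `ct12`: `V = mk (gT j g)`, `cnt V 1 = cnt V 2 = n`, `2 * j.length = n > 0`: by `gT_cnt` `cntL g.toWord i = 2` for `i = 1, 2`, and `0` for `i = 0`; so `g.toWord` is a list as in `norm4`, `g = τ.aut g₀` with `g₀ = mk u₀` (`gT_tau`).
* `ct60`: `V = mk (gw port g π)`: by `pat_cnt` `cntL (g true).toWord i + cntL (g false).toWord i = 2` for `i = 1, 2`; `u = (g true).toWord ++ (g false).toWord` is as in `norm4`, so `(g true).toWord = (u₀.take l).map τ.letter`,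
  `(g false).toWord = (u₀.drop l).map τ.letter` with `l ≤ 4`: `12 * 5 = 60` classes up to `τ` (`pat_tau`).
Difficulty 2.
-/

namespace Pool.Agent.Sims

open FreeGroup (of)

theorem EvCt_zero {g : FreeGroup (Fin 3)} (hg : In12 g) : cntL g.toWord 0 = 0 := by
  unfold cntL
  rw [List.countP_eq_zero]
  intro x hx
  simpa using hg x hx

theorem EvCt_length (l : List (Fin 3 × Bool)) :
    l.length = cntL l 0 + cntL l 1 + cntL l 2 := by
  unfold cntL
  induction l with
  | nil => rfl
  | cons x l ih =>
    rw [List.length_cons, ih, List.countP_cons, List.countP_cons, List.countP_cons]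
    rcases x with ⟨i, b⟩
    fin_cases i
    · simp
      omega
    · simp
      omega
    · simp
      omega

theorem EvCt_append (u v : List (Fin 3 × Bool)) (i : Fin 3) :
    cntL (u ++ v) i = cntL u i + cntL v i := by
  unfold cntL
  rw [List.countP_append]

theorem EvCt_aut (τ : SPerm (Fin 3)) (u : List (Fin 3 × Bool)) (g : FreeGroup (Fin 3))
    (h : g.toWord = u.map τ.letter) : g = τ.aut (FreeGroup.mk u) := by
  rw [Rel_aut_apply, Rel_hom_mk, ← h, FreeGroup.mk_toWord]

theorem ct12 {n : ℕ} (hn : 0 < n) (j : List (ℤ × Bool)) (hj : ∀ t ∈ j, t.1 ≠ 0)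
    (hl : 2 * j.length = n) : ∃ F : Finset CC, F.card ≤ 12 ∧
      ∀ g : FreeGroup (Fin 3), In12 g → g ≠ 1 → (∀ i, cnt (ConjClasses.mk (gT j g)) i = n) →
        ∃ τ : SPerm (Fin 3), Fix0 τ ∧ ∃ e ∈ F, ConjClasses.mk (gT j g) = act τ.aut e := by
  classical
  obtain ⟨F, hF, h⟩ := norm4
  refine ⟨F.image (fun u => ConjClasses.mk (gT j (FreeGroup.mk u))),
    Finset.card_image_le.trans hF, ?_⟩
  intro g hg hg1 hc
  have hpos : 0 < j.length := by omega
  have key : ∀ i : Fin 3, i ≠ 0 → cntL g.toWord i = 2 := by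
    intro i hi
    have h1 := hc i
    rw [gT_cnt hj hg hg1 hi, ← hl, mul_comm 2] at h1
    exact Nat.eq_of_mul_eq_mul_left hpos h1
  obtain ⟨τ, hτ, u0, hu0, hu⟩ := h g.toWord (EvCt_zero hg) (key 1 (by decide)) (key 2 (by decide))
  refine ⟨τ, hτ, _, Finset.mem_image_of_mem _ hu0, ?_⟩
  rw [gT_tau τ hτ, ← EvCt_aut τ u0 g hu]

theorem ct60 {n : ℕ} (hn : 0 < n) {port : Bool → Bool → Bool} {π : List (Bool × Bool)}
    (hc : Cons port π) (h1 : 2 * π.countP (fun t => t.1) = n)
    (h2 : 2 * π.countP (fun t => !t.1) = n) : ∃ F : Finset CC, F.card ≤ 60 ∧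
      ∀ V, Pat port π V → (∀ i, cnt V i = n) →
        ∃ τ : SPerm (Fin 3), Fix0 τ ∧ ∃ e ∈ F, V = act τ.aut e := by
  classical
  obtain ⟨F, hF, h⟩ := norm4
  refine ⟨(F ×ˢ Finset.range 5).image (fun q => ConjClasses.mk (gw port
    (fun k => FreeGroup.mk (if k then q.1.take q.2 else q.1.drop q.2)) π)), ?_, ?_⟩
  · refine Finset.card_image_le.trans ?_
    rw [Finset.card_product, Finset.card_range]
    omega
  · rintro V ⟨g, hg, hg1, rfl⟩ hcnt
    set m := π.countP (fun t => t.1) with hm
    have h2' : π.countP (fun t => !t.1) = m := by omega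
    have hpos : 0 < m := by omega
    have key : ∀ i : Fin 3, i ≠ 0 →
        cntL ((g true).toWord ++ (g false).toWord) i = 2 := by
      intro i hi
      have h3 := hcnt i
      rw [pat_cnt hc hg hg1 hi, h2', ← hm, ← Nat.mul_add, ← h1, mul_comm 2 m] at h3
      rw [EvCt_append]
      exact Nat.eq_of_mul_eq_mul_left hpos h3
    have key0 : cntL ((g true).toWord ++ (g false).toWord) 0 = 0 := by
      rw [EvCt_append, EvCt_zero (hg true), EvCt_zero (hg false)]
    obtain ⟨τ, hτ, u0, hu0, hu⟩ := h _ key0 (key 1 (by decide)) (key 2 (by decide))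
    have hlen : ((g true).toWord ++ (g false).toWord).length = 4 := by
      rw [EvCt_length, key0, key 1 (by decide), key 2 (by decide)]
    rw [List.length_append] at hlen
    have ht : (g true).toWord = (u0.take (g true).toWord.length).map τ.letter := by
      rw [List.map_take, ← hu, List.take_left]
    have hf : (g false).toWord = (u0.drop (g true).toWord.length).map τ.letter := by
      rw [List.map_drop, ← hu, List.drop_left]
    have hmem : (u0, (g true).toWord.length) ∈ F ×ˢ Finset.range 5 :=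
      Finset.mem_product.2 ⟨hu0, Finset.mem_range.2
        (show (g true).toWord.length < 5 by omega)⟩
    refine ⟨τ, hτ, _, Finset.mem_image_of_mem _ hmem, ?_⟩
    rw [pat_tau τ hτ]
    have hfun : (fun k => τ.aut (FreeGroup.mk (if k = true then
        (u0, (g true).toWord.length).1.take (u0, (g true).toWord.length).2
        else (u0, (g true).toWord.length).1.drop (u0, (g true).toWord.length).2))) = g := by
      funext k
      cases k
      · rw [if_neg (by decide)]
        exact (EvCt_aut τ _ _ hf).symm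
      · rw [if_pos rfl]
        exact (EvCt_aut τ _ _ ht).symm
    rw [hfun]

end Pool.Agent.Sims
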