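import Pool.Agent.Sims.EvF1

/-!
# Module `EvFX` : cuts of a 6-cycle

`r : Fin 6 → letters` injective (so bijective), `2 edgS {r i} {r (i+1)} = n` for all `i`.
* `full_zero`: the degree of `r i` is `n` (`capC_sgl`, `Eq3.c`) and the edges to `r (i+1)` and `r (i-1)` are `n/2` each (`capC_edgS`, `edgS_split`, `edgS_mono`), so all other edges at `r i` are `0`.
* `full_cap`: `capC V Q` is the sum of `edgS V {x} {y}` over `x ∈ Q`, `y ∉ Q` (prove by `capC_edgS` and repeated `edgS_split`, or via the sum over letters); only the pairs of neighbours contribute.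
  So `2 * capC V Q = n * #{i | Q (r i) ≠ Q (r (i+1))}`.
* `full_two`: hence (`n ≥ 4 > 0`) `Q` has capacity `n` iff it changes exactly twice around the cycle.
* `full_cross`: `Q` nontrivial of capacity `n`: `Q ∘ r` changes exactly twice and takes both values at least twice: there is an interval crossing it; shift: `C (r i) = Q (r (i+1))` changes twice
  as well, and it crosses `Q` (an arc of length between 2 and 4 and its shift: finite check by `decide` over the Boolean functions on `Fin 6`).
* `full_not`: corollary.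
Difficulty 3.
-/

namespace Pool.Agent.Sims

theorem EvFX_cyc_sum {β ι : Type*} [DecidableEq ι] (s : Finset ι) (f : ι → β → β → ℕ)
    (l : List β) : cyc (fun x y => ∑ k ∈ s, f k x y) l = ∑ k ∈ s, cyc (f k) l := by
  induction s using Finset.induction_on with
  | empty =>
    simp only [Finset.sum_empty]
    cases l with
    | nil => rfl
    | cons a l =>
      rw [cyc]
      have : ∀ (x : β) (l : List β) (z : β), lin (fun _ _ => 0) x l z = 0 := by
        intro x l z
        induction l generalizing x with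
        | nil => rfl
        | cons b l ih => rw [lin, ih]
      exact this a l a
  | insert k s hk ih =>
    simp only [Finset.sum_insert hk]
    rw [cyc_add, ih]

theorem EvFX_bij {r : Fin 6 → Fin 3 × Bool} (hr : Function.Injective r) :
    Function.Bijective r :=
  (Fintype.bijective_iff_injective_and_card r).2 ⟨hr, by decide⟩

theorem EvFX_sgl {r : Fin 6 → Fin 3 × Bool} (hr : Function.Injective r) (u v : Fin 6) :
    sgl (r u) (r v) = decide (v = u) := by
  unfold sgl
  exact decide_eq_decide.2 hr.eq_iff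

/-- the number of edges between disjoint sets -/
theorem EvFX_sum (V : CC) {r : Fin 6 → Fin 3 × Bool} (hr : Function.Injective r) {A B : Ct}
    (hAB : ∀ x, A x = true → B x = false) :
    edgS V A B = ∑ k : Fin 6 × Fin 6, if A (r k.1) && B (r k.2) then
      edgS V (sgl (r k.1)) (sgl (r k.2)) else 0 := by
  let F : Fin 6 × Fin 6 → Fin 3 × Bool → Fin 3 × Bool → ℕ := fun k x y =>
    if A (r k.1) && B (r k.2) then (if (sgl (r k.1) x && sgl (r k.2) (bar y)) ||
          (sgl (r k.2) x && sgl (r k.1) (bar y)) then 1 else 0) else 0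
  have h1 : ∀ k : Fin 6 × Fin 6, cyc (F k) (rep V) = (if A (r k.1) && B (r k.2) then
      edgS V (sgl (r k.1)) (sgl (r k.2)) else 0) := by
    intro k
    by_cases h : (A (r k.1) && B (r k.2)) = true
    · simp only [F, h, if_true]
      rfl
    · simp only [F, h]
      have := EvFX_cyc_sum (∅ : Finset ℕ) (fun _ _ _ => 0) (rep V)
      simpa using this
  have h0 := EvFX_cyc_sum (Finset.univ : Finset (Fin 6 × Fin 6)) F (rep V)
  refine Eq.trans ?_ (h0.trans (Finset.sum_congr rfl (fun k _ => h1 k)))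
  unfold edgS
  apply congrArg (fun g => cyc g (rep V))
  funext x y
  simp only [F]
  obtain ⟨a, ha⟩ := (EvFX_bij hr).2 x
  obtain ⟨b, hb⟩ := (EvFX_bij hr).2 (bar y)
  rw [← ha, ← hb]
  have h2 : ∀ k : Fin 6 × Fin 6, (if A (r k.1) && B (r k.2) then
      (if (sgl (r k.1) (r a) && sgl (r k.2) (r b)) ||
          (sgl (r k.2) (r a) && sgl (r k.1) (r b)) then 1 else 0) else 0) =
      (if k = (a, b) then (if A (r a) && B (r b) then 1 else 0) else 0) +
      (if k = (b, a) then (if A (r b) && B (r a) then 1 else 0) else 0) := by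
    intro k
    obtain ⟨i, j⟩ := k
    have e1 := EvFX_sgl hr
    simp only [e1, Prod.mk.injEq]
    by_cases hab : a = b
    · subst hab
      have h3 : ¬ (A (r a) && B (r a)) = true := by
        intro h
        rw [Bool.and_eq_true] at h
        rw [hAB _ h.1] at h
        simp at h
      by_cases hi : i = a
      · by_cases hj : j = a
        · subst hi hj
          simp [h3]
        · simp [hi, hj, Ne.symm hj]
      · simp [hi, Ne.symm hi]
    · by_cases hi : i = a
      · subst hi
        by_cases hj : j = b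
        · subst hj
          have : ¬ (j = i) := fun h => hab h.symm
          simp [hab, this]
        · have h4 : ¬ (b = i) := fun h => hab h.symm
          simp [hj, Ne.symm hj, hab, h4]
      · by_cases hj : i = b
        · subst hj
          by_cases hk : j = a
          · subst hk
            simp [hab, Ne.symm hi]
          · simp [hi, Ne.symm hi, hk, Ne.symm hk]
        · simp [hi, Ne.symm hi, hj, Ne.symm hj]
  rw [Finset.sum_congr rfl (fun k _ => h2 k), Finset.sum_add_distrib, Finset.sum_ite_eq',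
    Finset.sum_ite_eq']
  simp only [Finset.mem_univ, if_true]
  have h3 := hAB (r a)
  have h4 := hAB (r b)
  clear h2 h1 h0
  generalize A (r a) = a1 at *
  generalize A (r b) = a2 at *
  generalize B (r a) = b1 at *
  generalize B (r b) = b2 at *
  revert a1 a2 b1 b2
  decide

theorem EvFX_card (q : Fin 6 → Bool) :
    (∑ k : Fin 6 × Fin 6, if (q k.1 && !q k.2) && (decide (k.2 = k.1 + 1) || decide (k.1 = k.2 + 1))
      then 1 else 0) = (Finset.univ.filter (fun i => q i ≠ q (i + 1))).card := by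
  revert q
  decide

theorem EvFX_shift (q : Fin 6 → Bool)
    (h : (Finset.univ.filter (fun i => q i ≠ q (i + 1))).card = 2) :
    (Finset.univ.filter (fun i => q (i + 1) ≠ q (i + 1 + 1))).card = 2 := by
  revert q
  decide

theorem EvFX_arc (q : Fin 6 → Bool)
    (h : (Finset.univ.filter (fun i => q i ≠ q (i + 1))).card = 2)
    (h1 : ∃ i j, i ≠ j ∧ q i = true ∧ q j = true) (h2 : ∃ i j, i ≠ j ∧ q i = false ∧ q j = false) :
    (∃ i, q (i + 1) = true ∧ q i = true) ∧ (∃ i, q (i + 1) = true ∧ q i = false) ∧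
      (∃ i, q (i + 1) = false ∧ q i = true) ∧ (∃ i, q (i + 1) = false ∧ q i = false) := by
  revert q
  decide

theorem full_zero {n : ℕ} {V : CC} (E : Eq3 n V) {r : Fin 6 → Fin 3 × Bool}
    (hr : Function.Injective r) (he : ∀ i, 2 * edgS V (sgl (r i)) (sgl (r (i + 1))) = n)
    {i j : Fin 6} (h1 : j ≠ i) (h2 : j ≠ i + 1) (h3 : i ≠ j + 1) :
    edgS V (sgl (r i)) (sgl (r j)) = 0 := by
  have h1' := h1
  have h2' := h2
  clear h1 h2
  have h1 : capC V (sgl (r i)) = n := by rw [capC_sgl, E.c]
  rw [capC_edgS, EvFX_sum V hr (by intro x hx; simp [hx])] at h1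
  have h2 : ∀ k : Fin 6 × Fin 6, (if (sgl (r i) (r k.1) && !sgl (r i) (r k.2)) = true then
      edgS V (sgl (r k.1)) (sgl (r k.2)) else 0) =
      if k.1 = i then (if k.2 = i then 0 else edgS V (sgl (r i)) (sgl (r k.2))) else 0 := by
    intro k
    have e1 := EvFX_sgl hr
    simp only [e1]
    by_cases ha : k.1 = i
    · by_cases hb : k.2 = i
      · simp [ha, hb]
      · simp [ha, hb]
    · simp [ha]
  have h5 : (∑ j : Fin 6, if j = i then 0 else edgS V (sgl (r i)) (sgl (r j))) = n := by
    have h8 : (∑ k : Fin 6 × Fin 6, if (sgl (r i) (r k.1) && !sgl (r i) (r k.2)) = true then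
      edgS V (sgl (r k.1)) (sgl (r k.2)) else 0) = ∑ k : Fin 6 × Fin 6,
      if k.1 = i then (if k.2 = i then 0 else edgS V (sgl (r i)) (sgl (r k.2))) else 0 :=
      Finset.sum_congr rfl (fun k _ => h2 k)
    have h9 : (∑ k : Fin 6 × Fin 6,
      if k.1 = i then (if k.2 = i then 0 else edgS V (sgl (r i)) (sgl (r k.2))) else 0) =
      ∑ j : Fin 6, if j = i then 0 else edgS V (sgl (r i)) (sgl (r j)) := by
      rw [Fintype.sum_prod_type, Finset.sum_eq_single i]
      · simp
      · intro b _ hb
        simp [hb]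
      · simp
    exact (h8.trans h9).symm.trans h1
  have ha := he i
  obtain ⟨i', hi'⟩ : ∃ i' : Fin 6, i' + 1 = i := ⟨i - 1, by simp⟩
  have hb := he i'
  rw [hi', edgS_comm] at hb
  have d1 : ∀ a : Fin 6, a ≠ a + 1 + 1 := by decide
  have d2 : ∀ a : Fin 6, a ≠ a + 1 := by decide
  have hne : i' ≠ i + 1 := by
    rw [← hi']
    exact d1 i'
  have hne2 : i' ≠ i := by
    rw [← hi']
    exact d2 i'
  have hne3 : i + 1 ≠ i := (d2 i).symm
  have hj' : j ≠ i' := by
    rintro rfl
    exact h3 hi'.symm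
  have h6 : edgS V (sgl (r i)) (sgl (r (i + 1))) + edgS V (sgl (r i)) (sgl (r i')) +
      edgS V (sgl (r i)) (sgl (r j)) ≤ n := by
    rw [← h5]
    have h7 : ∑ k ∈ ({i + 1, i', j} : Finset (Fin 6)),
        (if k = i then 0 else edgS V (sgl (r i)) (sgl (r k))) ≤
        ∑ k : Fin 6, if k = i then 0 else edgS V (sgl (r i)) (sgl (r k)) :=
      Finset.sum_le_sum_of_subset (Finset.subset_univ _)
    rw [Finset.sum_insert, Finset.sum_insert, Finset.sum_singleton, if_neg hne3, if_neg hne2,
      if_neg h1'] at h7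
    · omega
    · simpa using hj'.symm
    · simp only [Finset.mem_insert, Finset.mem_singleton, not_or]
      exact ⟨hne.symm, h2'.symm⟩
  omega

theorem full_cap {n : ℕ} {V : CC} (E : Eq3 n V) {r : Fin 6 → Fin 3 × Bool}
    (hr : Function.Injective r) (he : ∀ i, 2 * edgS V (sgl (r i)) (sgl (r (i + 1))) = n)
    (Q : Ct) :
    2 * capC V Q = n * (Finset.univ.filter (fun i => Q (r i) ≠ Q (r (i + 1)))).card := by
  rw [capC_edgS, EvFX_sum V hr (by intro x hx; simp [hx]), ← EvFX_card (fun i => Q (r i)),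
    Finset.mul_sum, Finset.mul_sum]
  apply Finset.sum_congr rfl
  rintro ⟨i, j⟩ -
  simp only
  by_cases hq : (Q (r i) && !Q (r j)) = true
  · rw [if_pos hq]
    have hij : j ≠ i := by
      rintro rfl
      simp at hq
    by_cases h1 : j = i + 1
    · subst h1
      have : ((Q (r i) && !Q (r (i + 1))) && (decide (i + 1 = i + 1) || decide (i = i + 1 + 1)))
          = true := by rw [hq]; simp
      rw [if_pos this, he i, mul_one]
    · by_cases h2 : i = j + 1
      · subst h2
        have : ((Q (r (j + 1)) && !Q (r j)) && (decide (j = j + 1 + 1) || decide (j + 1 = j + 1)))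
            = true := by rw [hq]; simp
        rw [if_pos this, edgS_comm, he j, mul_one]
      · rw [full_zero E hr he hij h1 h2]
        simp [h1, h2]
  · rw [if_neg hq]
    have : ¬ ((Q (r i) && !Q (r j)) && (decide (j = i + 1) || decide (i = j + 1))) = true := by
      intro h
      rw [Bool.and_eq_true] at h
      exact hq h.1
    rw [if_neg this, mul_zero, mul_zero]

theorem full_two {n : ℕ} {V : CC} (E : Eq3 n V) {r : Fin 6 → Fin 3 × Bool}
    (hr : Function.Injective r) (he : ∀ i, 2 * edgS V (sgl (r i)) (sgl (r (i + 1))) = n)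
    (Q : Ct) :
    capC V Q = n ↔ (Finset.univ.filter (fun i => Q (r i) ≠ Q (r (i + 1)))).card = 2 := by
  have h1 := full_cap E hr he Q
  have h4 := E.h4
  constructor
  · intro h
    rw [h] at h1
    have : n * (Finset.univ.filter (fun i => Q (r i) ≠ Q (r (i + 1)))).card = n * 2 := by
      rw [← h1, mul_comm]
    exact Nat.eq_of_mul_eq_mul_left (by omega) this
  · intro h
    rw [h] at h1
    omega

theorem full_cross {n : ℕ} {V : CC} (E : Eq3 n V) (hF : Full n V) {Q : Ct} (hQ : NC n V Q)
    (hn : Ntr Q) : VX n V Q := by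
  obtain ⟨r, hr, he⟩ := hF
  have hb := EvFX_bij hr
  let e := Equiv.ofBijective r hb
  have he' : ∀ i, e.symm (r i) = i := fun i => e.symm_apply_apply i
  have h2 := (full_two E hr he Q).1 hQ.2
  have hN1 : ∃ i j, i ≠ j ∧ Q (r i) = true ∧ Q (r j) = true := by
    obtain ⟨⟨x, y, hxy, hx, hy⟩, _⟩ := hn
    obtain ⟨i, rfl⟩ := hb.2 x
    obtain ⟨j, rfl⟩ := hb.2 y
    exact ⟨i, j, fun h => hxy (by rw [h]), hx, hy⟩
  have hN2 : ∃ i j, i ≠ j ∧ Q (r i) = false ∧ Q (r j) = false := by
    obtain ⟨_, ⟨x, y, hxy, hx, hy⟩⟩ := hn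
    obtain ⟨i, rfl⟩ := hb.2 x
    obtain ⟨j, rfl⟩ := hb.2 y
    exact ⟨i, j, fun h => hxy (by rw [h]), hx, hy⟩
  obtain ⟨⟨i1, a1, b1⟩, ⟨i2, a2, b2⟩, ⟨i3, a3, b3⟩, ⟨i4, a4, b4⟩⟩ :=
    EvFX_arc (fun i => Q (r i)) h2 hN1 hN2
  refine ⟨fun x => Q (r (e.symm x + 1)), ⟨⟨⟨r i1, ?_⟩, ⟨r i3, ?_⟩⟩, ?_⟩, ⟨r i1, ?_, ?_⟩,
    ⟨r i2, ?_, ?_⟩, ⟨r i3, ?_, ?_⟩, ⟨r i4, ?_, ?_⟩⟩
  · simpa [he'] using a1
  · simpa [he'] using a3
  · rw [full_two E hr he]
    simp only [he']
    exact EvFX_shift (fun i => Q (r i)) h2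
  · simpa [he'] using a1
  · exact b1
  · simpa [he'] using a2
  · exact b2
  · simpa [he'] using a3
  · exact b3
  · simpa [he'] using a4
  · exact b4

theorem full_not {n : ℕ} {V : CC} (E : Eq3 n V) {Q : Ct} (hQ : NC n V Q)
    (hn : Ntr Q) (hu : ¬ VX n V Q) : ¬ Full n V := by
  exact fun hF => hu (full_cross E hF hQ hn)

end Pool.Agent.Sims
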