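import Pool.Agent.Sims.EvBas

/-!
# Module `EvFac` : cyclic factors

`Fac V u` : `u` is a cyclic factor of the cyclic word `V` (not wrapping around more than once);  `FI V u` : `u` or its inverse is a cyclic factor.
* `fac_sub`: rotate (`CR_of_rotated`, `cls_of_rotated`).  `fi_sub`, `fi_inv`: `FreeGroup.invRev`.
* `fi_edge`: `0 < edgS V (sgl x) (sgl (bar q))` iff `FI V [x, q]`, for `x ≠ bar q`: `EdgeM_cyc_pos`, `edgS` unfolded: the summand at `(x', y')` is `1` iff `x' = x ∧ bar y' = bar q` or `x' = bar q ∧ bar y' = x`,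
  i.e. the pair is `x q` or `q⁻¹ x⁻¹`.  (`2 ≤ cycLen V`.)
* `fi_red`: a cyclic factor is reduced.
* `ps_fi`: `invRev [x, y, t] = [bar t, bar y, bar x]`.
* `tg_exists`: every cyclic factor `[x, y]` extends to `[x, y, t]` for some `t` if `cycLen V ≥ 3`.
Difficulty 2.
-/

namespace Pool.Agent.Sims

/-- cyclic factor -/
def Fac (V : CC) (u : List (Fin 3 × Bool)) : Prop := ∃ l, CR (u ++ l) ∧ cls (u ++ l) = V

/-- cyclic factor up to inversion -/
def FI (V : CC) (u : List (Fin 3 × Bool)) : Prop := Fac V u ∨ Fac V (FreeGroup.invRev u)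

theorem fac_sub {V : CC} {u v w : List (Fin 3 × Bool)} (h : Fac V (u ++ v ++ w)) : Fac V v := by
  obtain ⟨l, h1, h2⟩ := h
  have hr : (u ++ v ++ w ++ l) ~r (v ++ (w ++ l ++ u)) := by
    have h3 : (u ++ (v ++ w ++ l)) ~r ((v ++ w ++ l) ++ u) := List.isRotated_append
    simpa [List.append_assoc] using h3
  refine ⟨w ++ l ++ u, CR_of_rotated hr h1, ?_⟩
  rw [← cls_of_rotated hr, h2]

theorem fi_sub {V : CC} {u v w : List (Fin 3 × Bool)} (h : FI V (u ++ v ++ w)) : FI V v := by
  rcases h with h | h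
  · exact Or.inl (fac_sub h)
  · right
    have h1 : FreeGroup.invRev (u ++ v ++ w) =
        FreeGroup.invRev w ++ FreeGroup.invRev v ++ FreeGroup.invRev u := by
      simp [FreeGroup.invRev]
    rw [h1] at h
    exact fac_sub h

theorem fi_inv {V : CC} {u : List (Fin 3 × Bool)} (h : FI V u) : FI V (FreeGroup.invRev u) := by
  rcases h with h | h
  · right
    rwa [FreeGroup.invRev_invRev]
  · exact Or.inl h

theorem fi_red {V : CC} {u : List (Fin 3 × Bool)} (h : FI V u) : FreeGroup.IsReduced u := by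
  rcases h with ⟨l, h1, h2⟩ | ⟨l, h1, h2⟩
  · exact red_mid h1.1 ⟨[], l, by simp⟩
  · have h3 : FreeGroup.IsReduced (FreeGroup.invRev u) := red_mid h1.1 ⟨[], l, by simp⟩
    have h4 := Cyc_invRev_reduced h3
    rwa [FreeGroup.invRev_invRev] at h4

theorem ps_fi {V : CC} {x y t : Fin 3 × Bool} : Ps V x y t ↔ FI V [x, y, t] := by
  unfold Ps FI Tg Fac
  have h1 : FreeGroup.invRev [x, y, t] = [bar t, bar y, bar x] := by
    simp [FreeGroup.invRev, bar]
  rw [h1]
  rfl

theorem ps_inv {V : CC} {x y t : Fin 3 × Bool} (h : Ps V x y t) :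
    Ps V (bar t) (bar y) (bar x) := by
  rw [ps_fi] at h ⊢
  have h1 := fi_inv h
  have h2 : FreeGroup.invRev [x, y, t] = [bar t, bar y, bar x] := by
    simp [FreeGroup.invRev, bar]
  rwa [h2] at h1

theorem fi_edge {V : CC} (hl : 2 ≤ cycLen V) {x q : Fin 3 × Bool} (hxq : x ≠ bar q) :
    0 < edgS V (sgl x) (sgl (bar q)) ↔ FI V [x, q] := by
  have hir : FreeGroup.invRev [x, q] = [bar q, bar x] := by
    simp [FreeGroup.invRev, bar]
  constructor
  · intro h
    unfold edgS at h
    rcases EdgeM_cyc_pos _ _ h with ⟨a, h1, h2⟩ | ⟨a, b, l, h1, h2⟩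
    · rw [cycLen_eq_rep, h1] at hl
      simp at hl
    · have hcr := CR_of_rotated h1 (rep_CR V)
      have hcl : cls (a :: b :: l) = V := by rw [← cls_of_rotated h1, cls_rep]
      split_ifs at h2 with h3
      · simp only [sgl, Bool.or_eq_true, Bool.and_eq_true, decide_eq_true_eq] at h3
        rcases h3 with ⟨rfl, h4⟩ | ⟨rfl, h4⟩
        · rw [bar_inj] at h4
          subst h4
          exact Or.inl ⟨l, hcr, hcl⟩
        · right
          have h5 : b = bar x := by rw [← h4, bar_bar]
          subst h5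
          rw [hir]
          exact ⟨l, hcr, hcl⟩
      · exact absurd h2 (lt_irrefl _)
  · intro h
    unfold edgS
    rcases h with ⟨l, h1, h2⟩ | ⟨l, h1, h2⟩
    · have hr : rep V ~r ([x, q] ++ l) := by rw [← h2]; exact rep_rotated h1
      rw [cyc_rotated _ hr]
      simp only [List.cons_append, List.nil_append, cyc, lin]
      apply Nat.lt_of_lt_of_le _ (Nat.le_add_right _ _)
      simp [sgl]
    · rw [hir] at h1 h2
      have hr : rep V ~r ([bar q, bar x] ++ l) := by rw [← h2]; exact rep_rotated h1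
      rw [cyc_rotated _ hr]
      simp only [List.cons_append, List.nil_append, cyc, lin]
      apply Nat.lt_of_lt_of_le _ (Nat.le_add_right _ _)
      simp [sgl]

theorem tg_exists {V : CC} (hl : 3 ≤ cycLen V) {x y : Fin 3 × Bool} (h : FI V [x, y]) :
    ∃ t, Ps V x y t := by
  have hir : FreeGroup.invRev [x, y] = [bar y, bar x] := by
    simp [FreeGroup.invRev, bar]
  rcases h with ⟨l, h1, h2⟩ | ⟨l, h1, h2⟩
  · have hlen := cycLen_cls h1
    rw [h2] at hlen
    cases l with
    | nil => simp at hlen; omega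
    | cons t l => exact ⟨t, Or.inl ⟨l, h1, h2⟩⟩
  · rw [hir] at h1 h2
    have hlen := cycLen_cls h1
    rw [h2] at hlen
    rcases List.eq_nil_or_concat l with h3 | ⟨l', s, h3⟩
    · subst h3
      simp at hlen
      omega
    · subst h3
      refine ⟨bar s, Or.inr ⟨l', ?_⟩⟩
      have hr : ([bar y, bar x] ++ (l' ++ [s])) ~r (s :: bar y :: bar x :: l') := by
        have h4 : (([bar y, bar x] ++ l') ++ [s]) ~r ([s] ++ ([bar y, bar x] ++ l')) :=
          List.isRotated_append
        simpa [List.append_assoc] using h4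
      rw [bar_bar]
      rw [List.concat_eq_append] at h1 h2
      exact ⟨CR_of_rotated hr h1, by rw [← cls_of_rotated hr, h2]⟩

/-- the two ends of a passage are neighbours of the two sides -/
theorem ps_edge {V : CC} (hl : 2 ≤ cycLen V) {x y t : Fin 3 × Bool} (h : Ps V x y t) :
    0 < edgS V (sgl x) (sgl (bar y)) ∧ 0 < edgS V (sgl y) (sgl (bar t)) := by
  rw [ps_fi] at h
  have h1 : FI V [x, y] := fi_sub (u := []) (v := [x, y]) (w := [t]) (by simpa using h)
  have h2 : FI V [y, t] := fi_sub (u := [x]) (v := [y, t]) (w := []) (by simpa using h)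
  have aux : ∀ a b : Fin 3 × Bool, FI V [a, b] → a ≠ bar b := by
    intro a b hab e
    have h3 := fi_red hab
    rw [e] at h3
    unfold FreeGroup.IsReduced at h3
    simp [bar] at h3
  exact ⟨(fi_edge hl (aux _ _ h1)).2 h1, (fi_edge hl (aux _ _ h2)).2 h2⟩

end Pool.Agent.Sims
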