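import Pool.Agent.Sims.EvBasS

/-!
# Module `EvEM` : the classes `EM M V`, and the level orbit

* `EM_orb`: induction, `orb_level` / `Lv_Sm`, `orb_trans`.
* `StM_symm`: `Lv_inv` (same multiplier generator); `EM_symm` by `Relation.ReflTransGen.symmetric`.
* `EM_mono`: `Relation.ReflTransGen.mono`.
* `EM_SPerm`: if `σ` maps the generators in `M` to generators in `M'`: `TwBasic_SPerm`, `letter_fst`.
* `orb_em`: `closure_principle` (file `Conn`) applied to the set `EM (fun _ => True) V` : it contains `V`, and it is closed under level moves (`capC e A = cnt e z.1` is `Lv e z A`).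
* `bdd_of_cov`: by `orb_em`, `Conn_act_comp` (composition of signed permutations).
* `cov_mono`, `cov_union`, `cov_bind`: finite sets.  For `cov_bind`: let `F` be the cover of `S`, filter it to the members of `S` (classical), take the union of the covers of the `T q`
  (`Finset.card_biUnion_le_card_mul`).
* `cntMv`: `F` = image of `{V} ∪ LS V z` under `A ↦ act (wh z A) V`; a level cut which is not nontrivial acts trivially (`Lv_ntr`).
Difficulty 2.
-/

namespace Pool.Agent.Sims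

theorem EM_refl (M : Fin 3 → Prop) (V : CC) : V ∈ EM M V :=
  Relation.ReflTransGen.refl

theorem EM_step {M : Fin 3 → Prop} {V W : CC} (h : W ∈ EM M V) {z : Fin 3 × Bool} {A : Ct}
    (hz : M z.1) (hA : Lv W z A) : act (wh z A) W ∈ EM M V :=
  Relation.ReflTransGen.tail h ⟨z, A, hz, hA, rfl⟩

theorem EM_trans {M : Fin 3 → Prop} {U V W : CC} (h : V ∈ EM M U) (h' : W ∈ EM M V) :
    W ∈ EM M U :=
  Relation.ReflTransGen.trans h h'

theorem EvEM_StM_symm {M : Fin 3 → Prop} {V W : CC} (h : StM M V W) : StM M W V := by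
  obtain ⟨z, A, hz, hA, rfl⟩ := h
  have h1 := Lv_inv hA
  exact ⟨bar z, _, hz, h1.1, h1.2.symm⟩

theorem EM_symm {M : Fin 3 → Prop} {V W : CC} (h : W ∈ EM M V) : V ∈ EM M W := by
  have h1 : Relation.ReflTransGen (StM M) V W := h
  change Relation.ReflTransGen (StM M) W V
  induction h1 with
  | refl => exact Relation.ReflTransGen.refl
  | tail _ h3 ih => exact Relation.ReflTransGen.head (EvEM_StM_symm h3) (ih (by assumption))

theorem EM_eq {M : Fin 3 → Prop} {V W : CC} (h : W ∈ EM M V) : EM M W = EM M V := by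
  ext U
  exact ⟨fun h' => EM_trans h h', fun h' => EM_trans (EM_symm h) h'⟩

theorem EM_mono {M M' : Fin 3 → Prop} (hM : ∀ i, M i → M' i) {V W : CC} (h : W ∈ EM M V) :
    W ∈ EM M' V := by
  refine Relation.ReflTransGen.mono ?_ _ _ h
  rintro x y ⟨z, A, hz, hA, h⟩
  exact ⟨z, A, hM _ hz, hA, h⟩

theorem EM_orb {M : Fin 3 → Prop} {V W : CC} (h : W ∈ EM M V) : W ∈ orb V := by
  have h1 : Relation.ReflTransGen (StM M) V W := h
  clear h
  induction h1 with
  | refl => exact orb_refl V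
  | tail _ h3 ih =>
    obtain ⟨z, A, _, hA, rfl⟩ := h3
    exact orb_level ih hA.1 hA.2.1 hA.2.2

theorem Eq3.em {n : ℕ} {M : Fin 3 → Prop} {V W : CC} (E : Eq3 n V) (h : W ∈ EM M V) : Eq3 n W := E.orb' (EM_orb h)

theorem EM_SPerm {M M' : Fin 3 → Prop} {V W : CC} (h : W ∈ EM M V) (σ : SPerm (Fin 3))
    (hσ : ∀ i, M i → M' (σ.perm i)) : act σ.aut W ∈ EM M' (act σ.aut V) := by
  have h1 : Relation.ReflTransGen (StM M) V W := h
  clear h
  induction h1 with
  | refl => exact EM_refl M' _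
  | tail _ h3 ih =>
    obtain ⟨z, A, hz, hA, rfl⟩ := h3
    have h4 := TwBasic_SPerm σ hA
    rw [← h4.2]
    exact EM_step ih (by rw [letter_fst]; exact hσ _ hz) h4.1

theorem orb_em {V : CC} (hO : OMin V) {d : CC} (hd : d ∈ orb V) :
    ∃ σ : SPerm (Fin 3), ∃ e ∈ EM (fun _ => True) V, d = act σ.aut e := by
  obtain ⟨π, hπ, _, _⟩ := exists_SPerm_one
  refine closure_principle hO (EM (fun _ => True) V) ⟨π, V, EM_refl _ V, (hπ V).symm⟩ ?_ d hd
  intro e he _ z A hz hz' hl
  exact ⟨π, act (wh z A) e, EM_step he trivial ⟨hz, hz', hl⟩, (hπ _).symm⟩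

theorem bdd_of_cov {V : CC} (hO : OMin V) {N : ℕ} {S : Set CC} (hS : Cov S N)
    (h : ∀ e ∈ EM (fun _ => True) V, ∃ σ : SPerm (Fin 3), ∃ s ∈ S, e = act σ.aut s) : Bdd V N := by
  obtain ⟨F, hF, hFS⟩ := hS
  refine ⟨F, hF, fun d hd => ?_⟩
  obtain ⟨σ, e, he, rfl⟩ := orb_em hO hd
  obtain ⟨τ, s, hs, rfl⟩ := h e he
  exact ⟨_, s, hFS s hs, Conn_act_comp σ τ s⟩

theorem cov_mono {S S' : Set CC} {N N' : ℕ} (h : Cov S N) (hS : ∀ W ∈ S', W ∈ S) (hN : N ≤ N') :
    Cov S' N' := by
  obtain ⟨F, hF, hFS⟩ := h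
  exact ⟨F, hF.trans hN, fun W hW => hFS W (hS W hW)⟩

theorem cov_union {S S' : Set CC} {N N' : ℕ} (h : Cov S N) (h' : Cov S' N') :
    Cov (S ∪ S') (N + N') := by
  classical
  obtain ⟨F, hF, hFS⟩ := h
  obtain ⟨F', hF', hFS'⟩ := h'
  refine ⟨F ∪ F', (Finset.card_union_le F F').trans (Nat.add_le_add hF hF'), ?_⟩
  rintro W (hW | hW)
  · exact Finset.mem_union_left _ (hFS W hW)
  · exact Finset.mem_union_right _ (hFS' W hW)

theorem cov_bind {S : Set CC} {N K : ℕ} (h : Cov S N) (T : CC → Set CC)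
    (hT : ∀ q ∈ S, Cov (T q) K) : Cov {W | ∃ q ∈ S, W ∈ T q} (N * K) := by
  classical
  obtain ⟨F, hF, hFS⟩ := h
  choose G hG hGT using hT
  let H : CC → Finset CC := fun q => if hq : q ∈ S then G q hq else ∅
  refine ⟨F.biUnion H, ?_, ?_⟩
  · refine (Finset.card_biUnion_le_card_mul F H K ?_).trans (Nat.mul_le_mul_right K hF)
    intro q _
    by_cases hq : q ∈ S
    · simp only [H, dif_pos hq]
      exact hG q hq
    · simp only [H, dif_neg hq, Finset.card_empty]
      exact Nat.zero_le _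
  · rintro W ⟨q, hq, hW⟩
    rw [Finset.mem_biUnion]
    refine ⟨q, hFS q hq, ?_⟩
    simp only [H, dif_pos hq]
    exact hGT q hq W hW

/-- a finite union over the nontrivial moves -/
theorem cntMv2 (V : CC) (z : Fin 3 × Bool) (T : CC → Set CC) {K K' : ℕ} (h0 : Cov (T V) K)
    (hT : ∀ A ∈ LS V z, Cov (T (act (wh z A) V)) K') :
    Cov {W | ∃ A, Lv V z A ∧ W ∈ T (act (wh z A) V)} (K + (LS V z).card * K') := by
  classical
  obtain ⟨F, hF, hFS⟩ := h0
  choose G hG hGT using hT
  let H : Ct → Finset CC := fun A => if hA : A ∈ LS V z then G A hA else ∅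
  refine ⟨F ∪ (LS V z).biUnion H, ?_, ?_⟩
  · refine (Finset.card_union_le _ _).trans (Nat.add_le_add hF ?_)
    refine Finset.card_biUnion_le_card_mul (LS V z) H K' ?_
    intro A hA
    simp only [H, dif_pos hA]
    exact hG A hA
  · rintro W ⟨A, hA, hW⟩
    by_cases hn : Ntr A
    · have hm : A ∈ LS V z := by
        simp only [LS, Finset.mem_filter, Finset.mem_univ, true_and]
        exact ⟨hA, hn⟩
      refine Finset.mem_union_right _ ?_
      rw [Finset.mem_biUnion]
      refine ⟨A, hm, ?_⟩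
      simp only [H, dif_pos hm]
      exact hGT A hm W hW
    · rw [Lv_ntr hA hn] at hW
      exact Finset.mem_union_left _ (hFS W hW)

/-- the number of level `z`-neighbours -/
theorem cntMv (V : CC) (z : Fin 3 × Bool) :
    Cov {W | ∃ A, Lv V z A ∧ W = act (wh z A) V} (1 + (LS V z).card) := by
  have h := cntMv2 V z (fun W => {W}) (K := 1) (K' := 1)
    ⟨{V}, by simp, by simp⟩ (fun A _ => ⟨{act (wh z A) V}, by simp, by simp⟩)
  rw [mul_one] at h
  exact cov_mono h (fun W hW => by obtain ⟨A, hA, hW⟩ := hW; exact ⟨A, hA, hW⟩) le_rfl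

end Pool.Agent.Sims
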