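import Pool.Agent.Sims.EvX0
import Pool.Agent.Sims.EvEM

/-!
# Module `EvNB` : crossings of `S_z` are visible through every nontrivial level `z`-cut

* `crs_bar`: `Lv_compl`, `stc_compl`, `VX_compl`.
* `crs_ntr`: the witness `A` of `Crs n V z` is nontrivial, since `VX n _ (stc A z)` implies `Ntr (stc A z)` (`VX_Ntr`) and `stc A z` has the same letters `≠ z^{±1}` as `A`:
  if `A` contains only `z` then `stc A z` contains only `z⁻¹`, etc.
* `nb`: let `A₀` be the witness, nontrivial.  If `A₀ ⊆ A`: `tri_up`.  If `A ⊆ A₀`: `tri_down`.  Otherwise `A` and `A₀` cross (`z` in both, `z⁻¹` outside of both), so by `f1` (`Lv_NC`) `I = A ∩ A₀` and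
  `J = A ∪ A₀` are level `z`-cuts.  If `I` is nontrivial: `tri_down` from `A₀` to `I`, `tri_up` from `I` to `A`.  If `J` is nontrivial: `tri_up` from `A₀` to `J`, `tri_down` to `A`.
  Otherwise `I = {z}` and `J` is everything except `z⁻¹`, i.e. `A = opc z A₀` pointwise (`funext`): `x0`.
* `nb'`: `V' = act (wh z Q) V`, `Q' = stc Q z` is a nontrivial level `z⁻¹`-cut at `V'`, `act (wh (bar z) Q') V' = V` (`Lv_inv`) and `stc Q' (bar z) = Q` pointwise (`bar_bar`).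
  By `crs_bar` `Crs n V' (bar z)`, and `nb` gives `VX n V Q`.
* `crs_pair`: if `Crs n V z` and `{z, z⁻¹} = PrC z.1` has capacity `n`, then it is crossed by the nontrivial level `z`-cut of `crs_ntr`.
Difficulty 2.
-/

namespace Pool.Agent.Sims

theorem EvNB_fst {x z : Fin 3 × Bool} (h : x.1 = z.1) : x = z ∨ x = bar z := by
  rcases x with ⟨i, b⟩
  rcases z with ⟨j, c⟩
  have hi : i = j := h
  subst hi
  cases b <;> cases c
  · left; rfl
  · right; rfl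
  · right; rfl
  · left; rfl

theorem EvNB_two {A : Ct} (h : Ntr A) (x : Fin 3 × Bool) :
    (∃ u, u ≠ x ∧ A u = true) ∧ ∃ v, v ≠ x ∧ A v = false := by
  obtain ⟨⟨a, b, hab, ha, hb⟩, ⟨c, d, hcd, hc, hd⟩⟩ := h
  constructor
  · by_cases hx : a = x
    · exact ⟨b, fun h => hab (by rw [hx, h]), hb⟩
    · exact ⟨a, hx, ha⟩
  · by_cases hx : c = x
    · exact ⟨d, fun h => hcd (by rw [hx, h]), hd⟩
    · exact ⟨c, hx, hc⟩

theorem EvNB_stc_ne {A : Ct} {z u : Fin 3 × Bool} (h1 : u ≠ z) (h2 : u ≠ bar z) :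
    stc A z u = A u := by
  simp [stc, h1, h2]

theorem EvNB_stc_z (A : Ct) (z : Fin 3 × Bool) : stc A z z = false := by
  have h : z ≠ bar z := (bar_ne z).symm
  simp [stc, h]

theorem EvNB_stc_bar (A : Ct) (z : Fin 3 × Bool) : stc A z (bar z) = true := by
  simp [stc]

theorem EvNB_Ntr {A : Ct} {z : Fin 3 × Bool} (hz : A z = true) (hz' : A (bar z) = false)
    (h : Ntr (stc A z)) : Ntr A := by
  obtain ⟨u, hu, hu'⟩ := (EvNB_two h (bar z)).1
  obtain ⟨v, hv, hv'⟩ := (EvNB_two h z).2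
  have h1 : u ≠ z := by
    intro h0
    rw [h0, EvNB_stc_z] at hu'
    exact Bool.false_ne_true hu'
  have h2 : v ≠ bar z := by
    intro h0
    rw [h0, EvNB_stc_bar] at hv'
    exact Bool.false_ne_true hv'.symm
  rw [EvNB_stc_ne h1 hu] at hu'
  rw [EvNB_stc_ne hv h2] at hv'
  exact ⟨⟨z, u, h1.symm, hz, hu'⟩, ⟨bar z, v, h2.symm, hz', hv'⟩⟩

theorem EvNB_stc_stc {A : Ct} {z : Fin 3 × Bool} (hz : A z = true) (hz' : A (bar z) = false)
    (x : Fin 3 × Bool) : stc (stc A z) (bar z) x = A x := by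
  by_cases h1 : x = z
  · have h2 := EvNB_stc_bar (stc A z) (bar z)
    rw [bar_bar] at h2
    rw [h1, h2, hz]
  · by_cases h2 : x = bar z
    · rw [h2, EvNB_stc_z, hz']
    · rw [EvNB_stc_ne h2 (by rw [bar_bar]; exact h1), EvNB_stc_ne h1 h2]

theorem crs_bar {n : ℕ} {V : CC} {z : Fin 3 × Bool} (h : Crs n V z) : Crs n V (bar z) := by
  obtain ⟨A, hA, hX⟩ := h
  obtain ⟨h1, h2⟩ := Lv_compl hA
  refine ⟨fun x => !A x, h1, ?_⟩
  rw [h2]
  exact (VX_congr (fun x => stc_compl x)).2 (VX_compl.2 hX)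

theorem crs_ntr {n : ℕ} {V : CC} {z : Fin 3 × Bool} (h : Crs n V z) :
    ∃ A, Lv V z A ∧ Ntr A ∧ VX n (act (wh z A) V) (stc A z) := by
  obtain ⟨A, hA, hX⟩ := h
  exact ⟨A, hA, EvNB_Ntr hA.1 hA.2.1 (VX_Ntr hX), hX⟩

theorem nb {n : ℕ} {V : CC} (E : Eq3 n V) {z : Fin 3 × Bool} {A : Ct} (h : Crs n V z)
    (hA : Lv V z A) (hn : Ntr A) : VX n (act (wh z A) V) (stc A z) := by
  obtain ⟨A₀, hA₀, hn₀, hX₀⟩ := crs_ntr h
  by_cases s1 : ∀ x, A₀ x = true → A x = true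
  · exact tri_up E hA₀ hA hn s1 hX₀
  by_cases s2 : ∀ x, A x = true → A₀ x = true
  · exact tri_down E hA hn hA₀ s2 hX₀
  obtain ⟨x₂, hx₂⟩ := not_forall.1 s1
  obtain ⟨x₁, hx₁⟩ := not_forall.1 s2
  have a1 : A₀ x₂ = true ∧ A x₂ = false := by
    revert hx₂
    cases A₀ x₂ <;> cases A x₂ <;> simp
  have a2 : A x₁ = true ∧ A₀ x₁ = false := by
    revert hx₁
    cases A₀ x₁ <;> cases A x₁ <;> simp
  have hcr : Crossg A A₀ :=
    ⟨⟨z, hA.1, hA₀.1⟩, ⟨x₁, a2.1, a2.2⟩, ⟨x₂, a1.2, a1.1⟩, ⟨bar z, hA.2.1, hA₀.2.1⟩⟩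
  have hNA : NC n V A := ((Lv_NC E).1 hA).2.2
  have hNA₀ : NC n V A₀ := ((Lv_NC E).1 hA₀).2.2
  obtain ⟨f1a, -, -, -, f1b⟩ := f1 E hNA hNA₀ hcr
  have hI : Lv V z (fun x => A x && A₀ x) :=
    (Lv_NC E).2 ⟨by simp [hA.1, hA₀.1], by simp [hA.2.1], f1a⟩
  have hJ : Lv V z (fun x => A x || A₀ x) :=
    (Lv_NC E).2 ⟨by simp [hA.1], by simp [hA.2.1, hA₀.2.1], f1b⟩
  by_cases nI : Ntr (fun x => A x && A₀ x)
  · have h1 := tri_down E hI nI hA₀ (fun x hx => by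
      simp only [Bool.and_eq_true] at hx
      exact hx.2) hX₀
    exact tri_up E hI hA hn (fun x hx => by
      simp only [Bool.and_eq_true] at hx
      exact hx.1) h1
  by_cases nJ : Ntr (fun x => A x || A₀ x)
  · have h1 := tri_up E hA₀ hJ nJ (fun x hx => by simp [hx]) hX₀
    exact tri_down E hA hn hJ (fun x hx => by simp [hx]) h1
  -- `A` is opposite to `A₀`
  have hx₁b : x₁ ≠ bar z := by
    intro h0
    rw [h0, hA.2.1] at a2
    exact Bool.false_ne_true a2.1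
  have hx₂z : x₂ ≠ z := by
    intro h0
    rw [h0, hA.1] at a1
    exact Bool.false_ne_true a1.2.symm
  have hopp : A = opc z A₀ := by
    funext x
    unfold opc
    by_cases hx : x.1 = z.1
    · rw [if_pos hx]
      rcases EvNB_fst hx with rfl | rfl
      · rw [hA.1, hA₀.1]
      · rw [hA.2.1, hA₀.2.1]
    · rw [if_neg hx]
      have hxz : x ≠ z := fun h0 => hx (by rw [h0])
      have hxb : x ≠ bar z := fun h0 => hx (by rw [h0, bar_fst])
      have i1 : ¬ (A x = true ∧ A₀ x = true) := by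
        rintro ⟨h1, h2⟩
        apply nI
        refine ⟨⟨z, x, hxz.symm, by simp [hA.1, hA₀.1], by simp [h1, h2]⟩,
          ⟨bar z, x₁, hx₁b.symm, by simp [hA.2.1], by simp [a2.2]⟩⟩
      have i2 : ¬ (A x = false ∧ A₀ x = false) := by
        rintro ⟨h1, h2⟩
        apply nJ
        refine ⟨⟨z, x₂, hx₂z.symm, by simp [hA.1], by simp [a1.1]⟩,
          ⟨bar z, x, hxb.symm, by simp [hA.2.1, hA₀.2.1], by simp [h1, h2]⟩⟩
      revert i1 i2
      cases A x <;> cases A₀ x <;> simp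
  rw [hopp] at hA hn ⊢
  exact x0 E hA₀ hA hn₀ hn hX₀

theorem nb' {n : ℕ} {V : CC} (E : Eq3 n V) {z : Fin 3 × Bool} {Q : Ct} (hQ : Lv V z Q)
    (hn : Ntr Q) (h : Crs n (act (wh z Q) V) z) : VX n V Q := by
  obtain ⟨h1, h2⟩ := Lv_inv hQ
  have h1' : Lv (act (wh z Q) V) (bar z) (stc Q z) := h1
  have h2' : act (wh (bar z) (stc Q z)) (act (wh z Q) V) = V := h2
  have hst : stc (stc Q z) (bar z) = Q := funext fun x => EvNB_stc_stc hQ.1 hQ.2.1 x
  have hN : Ntr (stc Q z) := by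
    apply EvNB_Ntr (z := bar z) (EvNB_stc_bar Q z)
    · rw [bar_bar]
      exact EvNB_stc_z Q z
    · rw [hst]
      exact hn
  have h3 := nb (E.lv hQ) (crs_bar h) h1' hN
  rw [h2', hst] at h3
  exact h3

theorem crs_pair {n : ℕ} {V : CC} (E : Eq3 n V) {z : Fin 3 × Bool} (h : Crs n V z) :
    VX n V (PrC z.1) := by
  obtain ⟨A, hA, hN, -⟩ := crs_ntr h
  refine ⟨A, ((Lv_NC E).1 hA).2.2, ?_⟩
  obtain ⟨u, hu, hu'⟩ := (EvNB_two hN z).1
  obtain ⟨v, hv, hv'⟩ := (EvNB_two hN (bar z)).2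
  have hu1 : u.1 ≠ z.1 := by
    intro h0
    rcases EvNB_fst h0 with h1 | h1
    · exact hu h1
    · rw [h1, hA.2.1] at hu'
      exact Bool.false_ne_true hu'
  have hv1 : v.1 ≠ z.1 := by
    intro h0
    rcases EvNB_fst h0 with h1 | h1
    · rw [h1, hA.1] at hv'
      exact Bool.false_ne_true hv'.symm
    · exact hv h1
  exact ⟨⟨z, hA.1, by simp [PrC]⟩, ⟨u, hu', by simp [PrC, hu1]⟩,
    ⟨bar z, hA.2.1, by simp [PrC]⟩, ⟨v, hv', by simp [PrC, hv1]⟩⟩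

end Pool.Agent.Sims
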