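import Pool.Agent.Sims.EvDetC
import Pool.Agent.Sims.EvFac
import Pool.Agent.Sims.EvFX
import Pool.Agent.Sims.EvNB

/-!
# Module `EvDet` : crossed letters of a full class have deterministic passages

* `det_full`: `V` full, `Crs n V z`.  First claim (for every crossed letter `z`): `Ps V x (bar z) t → Ps V x' (bar z) t → x = x'`.  In the 6-cycle `z` has exactly two neighbours (edges of `V` with a positive
  number, `full_zero`); let `u ≠ z⁻¹` be one of them, `A = {z, u}` (`pr z u`): capacity `n` (`capC_pr`), a nontrivial level `z`-cut.  `nb`: some `C` of capacity `n` at `V₁ = act (wh z A) V` crosses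
  `stc A z = {u, z⁻¹}`; it contains exactly one of the two; WLOG `z⁻¹ ∈ C`, `u ∉ C` (complement).  `rs z.1 A` is `{u}`.  `det_core`: whether `x = u` depends only on `t`.  Both `x`, `x'` are neighbours of `z`
  (`ps_edge`: `0 < edgS V {x} {z}`), so `x = x'`.
  Now `DetL V z`: let `Ps V x z t`, `Ps V x' z t'`.  If `t = t'`: the claim for `bar z` (`crs_bar`) gives `x = x'`.  If `x = x'`: `Ps V (bar t) (bar z) (bar x)` and `Ps V (bar t') (bar z) (bar x)` (`ps_inv`), and the
  claim for `z` gives `bar t = bar t'`.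
Difficulty 3.
-/

namespace Pool.Agent.Sims

theorem EvDet_len {n : ℕ} {V : CC} (E : Eq3 n V) : 2 ≤ cycLen V := by
  rw [cycLen_eq_sum, Fin.sum_univ_three, E.c 0, E.c 1, E.c 2]
  have := E.h4
  omega

theorem EvDet_ne {x z : Fin 3 × Bool} (h1 : x ≠ z) (h2 : x ≠ bar z) : x.1 ≠ z.1 := by
  obtain ⟨a, b⟩ := x
  obtain ⟨c, d⟩ := z
  simp only [bar, ne_eq, Prod.mk.injEq, not_and] at *
  intro h
  have h3 := h1 h
  have h4 := h2 h
  cases b <;> cases d <;> simp_all

theorem EvDet_f1 : ∀ i : Fin 6, i + 1 ≠ i := by decide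

theorem EvDet_f2 : ∀ i : Fin 6, i - 1 ≠ i := by decide

theorem EvDet_f3 : ∀ i : Fin 6, i + 1 ≠ i - 1 := by decide

theorem EvDet_f4 : ∀ i k : Fin 6, (k = i + 1 ∨ k = i - 1) →
    (Finset.univ.filter (fun x : Fin 6 => (decide (x = i) || decide (x = k)) ≠
      (decide (x + 1 = i) || decide (x + 1 = k)))).card = 2 := by decide

theorem EvDet_f5 : ∀ i k : Fin 6,
    ∃ j1 j2 : Fin 6, j1 ≠ j2 ∧ j1 ≠ i ∧ j1 ≠ k ∧ j2 ≠ i ∧ j2 ≠ k := by decide

theorem EvDet_f6 : ∀ i j : Fin 6, i = j + 1 → j = i - 1 := by decide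

/-- one of the two neighbours is not `bar z` -/
theorem EvDet_claim {n : ℕ} {V : CC} (E : Eq3 n V) (hF : Full n V) {z : Fin 3 × Bool}
    (h : Crs n V z) {x x' t : Fin 3 × Bool} (hx : Ps V x (bar z) t) (hx' : Ps V x' (bar z) t) :
    x = x' := by
  obtain ⟨r, hr, he⟩ := hF
  have hlen := EvDet_len E
  have hn4 := E.h4
  have hbij : Function.Bijective r := by
    rw [Fintype.bijective_iff_injective_and_card]
    exact ⟨hr, by simp⟩
  obtain ⟨i, hi⟩ := hbij.2 z
  -- the neighbours of z
  have hnbr : ∀ y : Fin 3 × Bool, Ps V y (bar z) t → y = r (i + 1) ∨ y = r (i - 1) := by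
    intro y hy
    have hed := (ps_edge hlen hy).1
    rw [bar_bar] at hed
    have hyz : y ≠ z := by
      have h1 := fi_red (ps_fi.1 hy)
      rw [FreeGroup.IsReduced, List.isChain_cons_cons] at h1
      intro h2
      have h3 := h1.1 (by rw [h2]; rfl)
      rw [h2] at h3
      revert h3
      obtain ⟨a, b⟩ := z
      cases b <;> simp [bar]
    obtain ⟨j, hj⟩ := hbij.2 y
    by_contra hcon
    push Not at hcon
    have h1 : j ≠ i + 1 := fun h0 => hcon.1 (by rw [← hj, h0])
    have h2 : i ≠ j + 1 := fun h0 => hcon.2 (by rw [← hj, ← EvDet_f6 i j h0])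
    have h3 : j ≠ i := fun h0 => hyz (by rw [← hj, ← hi, h0])
    have h4 := full_zero E hr he h3 h1 h2
    rw [hi, hj, edgS_comm] at h4
    omega
  have hne1 : i + 1 ≠ i := EvDet_f1 i
  have hne2 : i - 1 ≠ i := EvDet_f2 i
  have hne3 : i + 1 ≠ i - 1 := EvDet_f3 i
  -- key : for a neighbour `u` different from `bar z`
  have key : ∀ k : Fin 6, (k = i + 1 ∨ k = i - 1) → r k ≠ bar z → (x = r k ↔ x' = r k) := by
    intro k hk hkz
    have hki : k ≠ i := by rcases hk with rfl | rfl <;> assumption
    have huz : r k ≠ z := fun h0 => hki (hr (by rw [h0, hi]))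
    set A : Ct := fun y => decide (y = z) || decide (y = r k) with hAdef
    have hAz : A z = true := by simp [hAdef]
    have hAbz : A (bar z) = false := by
      simp only [hAdef, Bool.or_eq_false_iff, decide_eq_false_iff_not]
      exact ⟨bar_ne z, fun h0 => hkz h0.symm⟩
    have hAu : A (r k) = true := by simp [hAdef]
    have hAcap : capC V A = n := by
      rw [full_two E hr he A]
      have hAr : ∀ j, A (r j) = (decide (j = i) || decide (j = k)) := by
        intro j
        simp only [hAdef]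
        congr 1
        · apply decide_eq_decide.2
          constructor
          · intro h0; exact hr (by rw [h0, hi])
          · intro h0; rw [h0, hi]
        · apply decide_eq_decide.2
          exact ⟨fun h0 => hr h0, fun h0 => by rw [h0]⟩
      simp only [hAr]
      exact EvDet_f4 i k hk
    have hLv : Lv V z A := (Lv_NC E).2 ⟨hAz, hAbz, ⟨⟨z, hAz⟩, ⟨bar z, hAbz⟩⟩, hAcap⟩
    have hNtr : Ntr A := by
      refine ⟨⟨z, r k, huz.symm, hAz, hAu⟩, ?_⟩
      -- two letters outside
      obtain ⟨j1, j2, h12, h1i, h1k, h2i, h2k⟩ := EvDet_f5 i k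
      refine ⟨r j1, r j2, fun h0 => h12 (hr h0), ?_, ?_⟩
      · simp only [hAdef, Bool.or_eq_false_iff, decide_eq_false_iff_not]
        exact ⟨fun h0 => h1i (hr (by rw [h0, hi])), fun h0 => h1k (hr h0)⟩
      · simp only [hAdef, Bool.or_eq_false_iff, decide_eq_false_iff_not]
        exact ⟨fun h0 => h2i (hr (by rw [h0, hi])), fun h0 => h2k (hr h0)⟩
    obtain ⟨C, hC, hCr⟩ := nb E h hLv hNtr
    -- wlog C (bar z) = true
    obtain ⟨C, hC, hCr, hCz⟩ : ∃ C, NC n (act (wh z A) V) C ∧ Crossg C (stc A z) ∧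
        C (bar z) = true := by
      cases hb : C (bar z)
      · exact ⟨fun y => !C y, NC_compl hC, Crossg_compl hCr, by simp [hb]⟩
      · exact ⟨C, hC, hCr, hb⟩
    have hst : ∀ y, stc A z y = true → y = r k ∨ y = bar z := by
      intro y hy
      simp only [stc, hAdef, Bool.or_eq_true, Bool.and_eq_true, decide_eq_true_eq] at hy
      rcases hy with ⟨h1 | h1, h2⟩ | h1
      · exact absurd h1 h2
      · exact Or.inl h1
      · exact Or.inr h1
    have hCu : C (r k) = false := by
      obtain ⟨-, -, ⟨y, hy1, hy2⟩, -⟩ := hCr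
      rcases hst y hy2 with h0 | h0
      · rw [← h0]; exact hy1
      · rw [h0, hCz] at hy1; exact absurd hy1 (by simp)
    have hrs : ∀ y, rs z.1 A y = true ↔ y = r k := by
      intro y
      simp only [rs, hAdef, Bool.or_eq_true, Bool.and_eq_true, decide_eq_true_eq]
      constructor
      · rintro ⟨h1 | h1, h2⟩
        · exact absurd (by rw [h1]) h2
        · exact h1
      · intro h1
        refine ⟨Or.inr h1, ?_⟩
        rw [h1]
        exact EvDet_ne huz hkz
    have hX' : ∀ y, rs z.1 A y = true → C y = false := by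
      intro y hy
      rw [(hrs y).1 hy]; exact hCu
    have d1 := det_core E hLv hC hCr hCz hX' hx
    have d2 := det_core E hLv hC hCr hCz hX' hx'
    rw [← hrs x, ← hrs x']
    cases hb : rs z.1 A (bar t)
    · exact (d1.1 hb).trans (d2.1 hb).symm
    · exact (d1.2 hb).trans (d2.2 hb).symm
  -- conclusion
  have hx1 := hnbr x hx
  have hx2 := hnbr x' hx'
  have hex : ∃ k : Fin 6, (k = i + 1 ∨ k = i - 1) ∧ r k ≠ bar z := by
    by_cases h0 : r (i + 1) = bar z
    · refine ⟨i - 1, Or.inr rfl, ?_⟩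
      intro h1
      exact hne3 (hr (by rw [h0, h1]))
    · exact ⟨i + 1, Or.inl rfl, h0⟩
  obtain ⟨k, hk, hkz⟩ := hex
  have hkey := key k hk hkz
  have h12 : r (i + 1) ≠ r (i - 1) := fun h0 => hne3 (hr h0)
  rcases hk with rfl | rfl
  · rcases hx1 with h1 | h1 <;> rcases hx2 with h2 | h2
    · rw [h1, h2]
    · exact absurd ((hkey.1 h1).symm.trans h2) h12
    · exact absurd ((hkey.2 h2).symm.trans h1) h12
    · rw [h1, h2]
  · rcases hx1 with h1 | h1 <;> rcases hx2 with h2 | h2
    · rw [h1, h2]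
    · exact absurd (h1.symm.trans (hkey.2 h2)) h12
    · exact absurd (h2.symm.trans (hkey.1 h1)) h12
    · rw [h1, h2]

theorem det_full {n : ℕ} {V : CC} (E : Eq3 n V) (hF : Full n V) {z : Fin 3 × Bool}
    (h : Crs n V z) : DetL V z := by
  intro x t x' t' h1 h2
  constructor
  · intro hxx
    have h3 := ps_inv h1
    have h4 := ps_inv h2
    rw [← hxx] at h4
    exact bar_inj.1 (EvDet_claim E hF h h3 h4)
  · intro htt
    rw [← htt] at h2
    have hb := crs_bar h
    have h1' : Ps V x (bar (bar z)) t := by rw [bar_bar]; exact h1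
    have h2' : Ps V x' (bar (bar z)) t := by rw [bar_bar]; exact h2
    exact EvDet_claim E hF hb h1' h2'

end Pool.Agent.Sims
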