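import Pool.Agent.Sims.EvDetC
import Pool.Agent.Sims.EvFac
import Pool.Agent.Sims.EvNB

/-!
# Module `EvDet5` : crossed letters in the 5-cycle case have deterministic passages

* `det_five`: `Five n V`, `T = PrC 0` of capacity `n`, not crossed; `z.1 ≠ 0`, `Crs n V z`.  In the 5-cycle with the vertices `T`, `r 0, …, r 3` (`r 0, …, r 3` are the four letters `≠ a^{±1}`) `z = r i` has two
  neighbours (blocks), all other edges at `z` are `0` (degree `n`).  Choose a neighbour letter `u ≠ z⁻¹`, `X = {u}`, if there is one, otherwise `X = T` (the neighbours are then `T` and `z⁻¹`).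
  `A = z ∪ X` has capacity `n` (`capC_union`), level, nontrivial.  `nb`: `C` crosses `Q = stc A z = X ∪ z⁻¹` at `V₁`.
  `T` has capacity `n` and is not crossed at `V₁` (`per`).  Hence `C` does not divide `T` if `T ∩ Q = ∅` or `T ⊆ Q` and `C` crosses `Q` suitably: if `C` divided `T`, then `C` would cross `T`: for `X = T`: `C ∖ T ⊇ C ∖ Q ≠ ∅`, and outside
  of `C ∪ T` there is the part outside of `C ∪ Q`; for `X = {u}` with `z⁻¹ ∈ C`, `u ∉ C`: `z⁻¹ ∈ C ∖ T`, and `u` is outside of `C ∪ T`.  So (after complementing `C`) `z⁻¹ ∈ C`, `X ∩ C = ∅`, and `T ⊆ C` or `T ∩ C = ∅`.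
  `det_core`: for a passage `Ps V x (bar z) t` the truth value of `x ∈ X` depends only on the class of `t` modulo `eT` (if `t, t' ∈ T` then `bar t, bar t' ∈ T`, `C` has the same value on them, and `X` has the same value
  on them).  The letters `x`, `x'` are in the two neighbour blocks of `z`, so `eT x x'` iff (`x ∈ X` iff `x' ∈ X`).
  So: `Ps V x (bar z) t → Ps V x' (bar z) t' → eT t t' → eT x x'`.  The rest as before (`eT (bar x) (bar x')` iff `eT x x'`).
Difficulty 4.
-/

namespace Pool.Agent.Sims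

/-- a cut which divides `T` and has letters inside and outside off `T` crosses `T` -/
theorem EvDet5_cross {Q : Ct} (h : Q (0, true) ≠ Q (0, false)) {u v : Fin 3 × Bool} (hu : u.1 ≠ 0)
    (hv : v.1 ≠ 0) (hu' : Q u = true) (hv' : Q v = false) : Crossg Q (PrC 0) := by
  have hT : ∀ s, PrC 0 (0, s) = true := by intro s; simp [PrC]
  have hU : PrC 0 u = false := by simp [PrC, hu]
  have hV : PrC 0 v = false := by simp [PrC, hv]
  have h1 : ∃ x, Q x = true ∧ PrC 0 x = true := by
    cases h3 : Q (0, true)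
    · refine ⟨(0, false), ?_, hT _⟩
      rw [h3] at h
      cases h4 : Q (0, false)
      · exact absurd h4.symm h
      · rfl
    · exact ⟨(0, true), h3, hT _⟩
  have h2 : ∃ x, Q x = false ∧ PrC 0 x = true := by
    cases h3 : Q (0, true)
    · exact ⟨(0, true), h3, hT _⟩
    · refine ⟨(0, false), ?_, hT _⟩
      rw [h3] at h
      cases h4 : Q (0, false)
      · rfl
      · exact absurd h4.symm h
  exact ⟨h1, ⟨u, hu', hU⟩, h2, ⟨v, hv', hV⟩⟩

theorem EvDet5_T {u : Fin 3 × Bool} (h : u.1 = 0) : u = (0, true) ∨ u = (0, false) := by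
  obtain ⟨i, s⟩ := u
  simp only at h
  subst h
  cases s
  · exact Or.inr rfl
  · exact Or.inl rfl

theorem EvDet5_fst {x z : Fin 3 × Bool} (h : x.1 = z.1) : x = z ∨ x = bar z := by
  obtain ⟨i, s⟩ := x
  obtain ⟨j, t⟩ := z
  simp only at h
  subst h
  cases s <;> cases t <;> simp [bar]

/-- a function which does not distinguish `a`, `a⁻¹` -/
theorem EvDet5_eT {F : Ct} (hF : F (0, true) = F (0, false)) {t t' : Fin 3 × Bool}
    (h : eT t t') : F (bar t) = F (bar t') := by
  rcases h with rfl | ⟨h1, h2⟩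
  · rfl
  · have h3 : (bar t).1 = 0 := h1
    have h4 : (bar t').1 = 0 := h2
    rcases EvDet5_T h3 with h5 | h5 <;> rcases EvDet5_T h4 with h6 | h6 <;> rw [h5, h6]
    · exact hF
    · exact hF.symm

/-- blocks: `T` or a letter off `T` -/
def EvDet5_Blk (X : Ct) : Prop := X = PrC 0 ∨ ∃ u : Fin 3 × Bool, u.1 ≠ 0 ∧ X = sgl u

theorem EvDet5_Blk_eT {X : Ct} (h : EvDet5_Blk X) {x x' : Fin 3 × Bool} (hx : X x = true)
    (hx' : X x' = true) : eT x x' := by
  rcases h with rfl | ⟨u, hu, rfl⟩
  · right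
    simp only [PrC, decide_eq_true_eq] at hx hx'
    exact ⟨hx, hx'⟩
  · left
    simp only [sgl, decide_eq_true_eq] at hx hx'
    rw [hx, hx']

theorem EvDet5_Blk_NC {n : ℕ} {V : CC} (E : Eq3 n V) (hT : NC n V (PrC 0)) {X : Ct}
    (h : EvDet5_Blk X) : NC n V X := by
  rcases h with rfl | ⟨u, hu, rfl⟩
  · exact hT
  · refine ⟨⟨⟨u, by simp [sgl]⟩, ⟨bar u, by simp [sgl, bar_ne]⟩⟩, ?_⟩
    rw [capC_sgl, E.c]

/-- the letters which are not in the two neighbour blocks are not neighbours -/
theorem EvDet5_nbr {n : ℕ} {V : CC} (E : Eq3 n V) {z : Fin 3 × Bool} {X Y : Ct}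
    (hXz : X z = false) (hYz : Y z = false) (hXY : ∀ x, X x = true → Y x = false)
    (h1 : 2 * edgS V (sgl z) X = n) (h2 : 2 * edgS V (sgl z) Y = n) {x : Fin 3 × Bool}
    (hx : x ≠ z) (hx1 : X x = false) (hx2 : Y x = false) : edgS V (sgl z) (sgl x) = 0 := by
  have e1 : edgS V (sgl z) (fun y => !sgl z y) = n := by
    rw [← capC_edgS, capC_sgl, E.c]
  have hd : ∀ y, sgl z y = true → (!sgl z y) = false := by intro y hy; rw [hy]; rfl
  have e2 := edgS_split V (P := sgl z) (Q := fun y => !sgl z y) X hd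
  have e3 := edgS_split V (P := sgl z) (Q := fun y => !sgl z y && !X y) Y (by
    intro y hy
    simp [hy])
  have e4 : edgS V (sgl z) (fun y => !sgl z y && X y) = edgS V (sgl z) X := by
    refine edgS_congr V (fun _ => rfl) fun y => ?_
    by_cases hy : y = z
    · rw [hy, hXz]; simp
    · simp [sgl, hy]
  have e5 : edgS V (sgl z) (fun y => (!sgl z y && !X y) && Y y) = edgS V (sgl z) Y := by
    refine edgS_congr V (fun _ => rfl) fun y => ?_
    by_cases hy : y = z
    · rw [hy, hYz]; simp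
    · cases hY : Y y
      · simp
      · cases hX : X y
        · simp [sgl, hy]
        · rw [hXY y hX] at hY
          exact absurd hY (by decide)
  have e6 : edgS V (sgl z) (sgl x) ≤
      edgS V (sgl z) (fun y => (!sgl z y && !X y) && !Y y) := by
    refine edgS_mono V (fun _ h => h) fun y hy => ?_
    simp only [sgl, decide_eq_true_eq] at hy
    subst hy
    simp [sgl, hx, hx1, hx2]
  omega

/-- the two neighbour blocks of a letter off `T`; the first one does not contain `z⁻¹` -/
theorem EvDet5_blocks {n : ℕ} {V : CC} (h5 : Five n V) {z : Fin 3 × Bool} (hz : z.1 ≠ 0) :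
    ∃ X Y : Ct, EvDet5_Blk X ∧ EvDet5_Blk Y ∧ X z = false ∧ Y z = false ∧ X (bar z) = false ∧
      (∀ x, X x = true → Y x = false) ∧ 2 * edgS V (sgl z) X = n ∧
      2 * edgS V (sgl z) Y = n := by
  -- it is enough to find them without the third condition
  suffices h : ∃ X Y : Ct, EvDet5_Blk X ∧ EvDet5_Blk Y ∧ X z = false ∧ Y z = false ∧
      (∀ x, X x = true → Y x = false) ∧ 2 * edgS V (sgl z) X = n ∧
      2 * edgS V (sgl z) Y = n by
    obtain ⟨X, Y, a1, a2, a3, a4, a5, a6, a7⟩ := h
    cases hb : X (bar z)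
    · exact ⟨X, Y, a1, a2, a3, a4, hb, a5, a6, a7⟩
    · refine ⟨Y, X, a2, a1, a4, a3, a5 _ hb, ?_, a7, a6⟩
      intro x hx
      cases hX : X x
      · rfl
      · rw [a5 x hX] at hx; exact absurd hx (by decide)
  obtain ⟨r, hinj, hoff, q0, q1, q2, q3, q4⟩ := h5
  have hs : ∃ i, r i = z := by
    have hinj' : Function.Injective
        (fun i => (⟨r i, hoff i⟩ : {x : Fin 3 × Bool // x.1 ≠ 0})) := by
      intro i j hij
      exact hinj (congrArg Subtype.val hij)
    have hcard : Fintype.card (Fin 4) = Fintype.card {x : Fin 3 × Bool // x.1 ≠ 0} := by decide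
    obtain ⟨i, hi⟩ := ((Fintype.bijective_iff_injective_and_card _).2 ⟨hinj', hcard⟩).2 ⟨z, hz⟩
    exact ⟨i, congrArg Subtype.val hi⟩
  obtain ⟨i, rfl⟩ := hs
  have b0 : EvDet5_Blk (PrC 0) := Or.inl rfl
  have b1 : ∀ j, EvDet5_Blk (sgl (r j)) := fun j => Or.inr ⟨r j, hoff j, rfl⟩
  have c0 : ∀ j, PrC 0 (r j) = false := by
    intro j; simp only [PrC, decide_eq_false_iff_not]; exact hoff j
  have c1 : ∀ j k, j ≠ k → sgl (r j) (r k) = false := by
    intro j k hjk
    simp only [sgl, decide_eq_false_iff_not]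
    exact fun h => hjk (hinj h.symm)
  have d0 : ∀ j x, PrC 0 x = true → sgl (r j) x = false := by
    intro j x hx
    simp only [PrC, decide_eq_true_eq] at hx
    simp only [sgl, decide_eq_false_iff_not]
    rintro rfl
    exact hoff j hx
  have d0' : ∀ j x, sgl (r j) x = true → PrC 0 x = false := by
    intro j x hx
    simp only [sgl, decide_eq_true_eq] at hx
    rw [hx]; exact c0 j
  have d1 : ∀ j k, j ≠ k → ∀ x, sgl (r j) x = true → sgl (r k) x = false := by
    intro j k hjk x hx
    simp only [sgl, decide_eq_true_eq] at hx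
    rw [hx]; exact c1 k j hjk.symm
  have hi : i = 0 ∨ i = 1 ∨ i = 2 ∨ i = 3 := by
    clear * -; revert i; decide
  rcases hi with rfl | rfl | rfl | rfl
  · exact ⟨PrC 0, sgl (r 1), b0, b1 1, c0 0, c1 1 0 (by decide), d0 1,
      by rw [edgS_comm]; exact q0, q1⟩
  · exact ⟨sgl (r 0), sgl (r 2), b1 0, b1 2, c1 0 1 (by decide), c1 2 1 (by decide),
      d1 0 2 (by decide), by rw [edgS_comm]; exact q1, q2⟩
  · exact ⟨sgl (r 1), sgl (r 3), b1 1, b1 3, c1 1 2 (by decide), c1 3 2 (by decide),
      d1 1 3 (by decide), by rw [edgS_comm]; exact q2, q3⟩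
  · exact ⟨sgl (r 2), PrC 0, b1 2, b0, c1 2 3 (by decide), c0 3, d0' 2,
      by rw [edgS_comm]; exact q3, q4⟩

/-- the side of a passage depends only on the class of the other end -/
theorem EvDet5_core {n : ℕ} {V : CC} (E : Eq3 n V) (hT : NC n V (PrC 0))
    (hu : ¬ VX n V (PrC 0)) {z : Fin 3 × Bool} (hz : z.1 ≠ 0) (h : Crs n V z) {X : Ct}
    (hB : EvDet5_Blk X) (hXz : X z = false) (hXb : X (bar z) = false)
    (he : 2 * edgS V (sgl z) X = n) {x t x' t' : Fin 3 × Bool} (h1 : Ps V x (bar z) t)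
    (h2 : Ps V x' (bar z) t') (h3 : eT t t') : X x = true ↔ X x' = true := by
  have hXN := EvDet5_Blk_NC E hT hB
  obtain ⟨A, hAd⟩ : ∃ A : Ct, A = fun y => sgl z y || X y := ⟨_, rfl⟩
  have hsz : sgl z z = true := by simp [sgl]
  have hszb : sgl z (bar z) = false := by simp [sgl, bar_ne]
  have hdis : ∀ y, sgl z y = true → X y = false := by
    intro y hy
    simp only [sgl, decide_eq_true_eq] at hy
    rw [hy]; exact hXz
  have hA : Lv V z A := by
    refine ⟨by rw [hAd]; simp [hsz], by rw [hAd]; simp [hszb, hXb], ?_⟩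
    have e1 := capC_union V (sgl z) X hdis
    rw [capC_sgl, E.c, hXN.2, he] at e1
    rw [hAd, E.c]
    omega
  have hAx : ∀ y, X y = true → A y = true := by intro y hy; rw [hAd]; simp [hy]
  have hzb0 : (bar z).1 ≠ 0 := hz
  have hAn : Ntr A := by
    have hX1 : ∃ y, X y = true := hXN.1.1
    obtain ⟨y, hy⟩ := hX1
    refine ⟨⟨z, y, ?_, hA.1, hAx y hy⟩, ?_⟩
    · rintro rfl
      rw [hXz] at hy
      exact absurd hy (by decide)
    · rcases hB with rfl | ⟨u, hu0, rfl⟩
      · obtain ⟨k, hk0, hk1⟩ : ∃ k : Fin 3, k ≠ 0 ∧ k ≠ z.1 := by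
          clear * - hz
          generalize z.1 = i at hz
          revert i; decide
        refine ⟨bar z, (k, true), ?_, hA.2.1, ?_⟩
        · intro h9
          exact hk1 (congrArg Prod.fst h9).symm
        · rw [hAd]
          simp only [sgl, PrC, Bool.or_eq_false_iff, decide_eq_false_iff_not]
          refine ⟨?_, hk0⟩
          intro h9
          exact hk1 (congrArg Prod.fst h9)
      · refine ⟨bar z, (0, true), ?_, hA.2.1, ?_⟩
        · intro h9
          exact hzb0 (congrArg Prod.fst h9)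
        · rw [hAd]
          simp only [sgl, Bool.or_eq_false_iff, decide_eq_false_iff_not]
          refine ⟨?_, ?_⟩
          · intro h9
            exact hz (congrArg Prod.fst h9).symm
          · intro h9
            exact hu0 (congrArg Prod.fst h9).symm
  have hvx := nb E h hA hAn
  have hTz : PrC 0 z = PrC 0 (bar z) := rfl
  have hper := per E hT hu hA hTz
  -- the crossing cut, normalized
  obtain ⟨C, hC, hX, hCz⟩ : ∃ C, NC n (act (wh z A) V) C ∧ Crossg C (stc A z) ∧
      C (bar z) = true := by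
    obtain ⟨C, hC, hX⟩ := hvx
    cases hCb : C (bar z)
    · exact ⟨_, NC_compl hC, Crossg_compl hX, by simp [hCb]⟩
    · exact ⟨C, hC, hX, hCb⟩
  have hst : ∀ y, stc A z y = true ↔ (X y = true ∨ y = bar z) := by
    intro y
    simp only [stc, Bool.or_eq_true, Bool.and_eq_true, decide_eq_true_eq]
    constructor
    · rintro (⟨h4, h5⟩ | h4)
      · left
        rw [hAd] at h4
        simp only [sgl, Bool.or_eq_true, decide_eq_true_eq] at h4
        rcases h4 with h4 | h4
        · exact absurd h4 h5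
        · exact h4
      · exact Or.inr h4
    · rintro (h4 | h4)
      · left
        refine ⟨hAx y h4, ?_⟩
        rintro rfl
        rw [hXz] at h4
        exact absurd h4 (by decide)
      · exact Or.inr h4
  obtain ⟨-, -, ⟨y3, hy3, hy3'⟩, ⟨y4, hy4, hy4'⟩⟩ := id hX
  have hX3 : X y3 = true := by
    rcases (hst y3).1 hy3' with h4 | h4
    · exact h4
    · rw [h4, hCz] at hy3
      exact absurd hy3 (by decide)
  have hX4 : X y4 = false := by
    cases h4 : X y4
    · rfl
    · rw [(hst y4).2 (Or.inl h4)] at hy4'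
      exact absurd hy4' (by decide)
  have hCT : C (0, true) = C (0, false) := by
    by_contra hne
    have hv : ∃ v : Fin 3 × Bool, v.1 ≠ 0 ∧ C v = false := by
      rcases hB with rfl | ⟨u, hu0, rfl⟩
      · refine ⟨y4, ?_, hy4⟩
        simpa [PrC] using hX4
      · refine ⟨y3, ?_, hy3⟩
        simp only [sgl, decide_eq_true_eq] at hX3
        rw [hX3]; exact hu0
    obtain ⟨v, hv0, hv1⟩ := hv
    exact hper.2 ⟨C, hC, EvDet5_cross hne hzb0 hv0 hCz hv1⟩
  have hXC : ∀ y, X y = true → C y = false := by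
    intro y hy
    rcases hB with rfl | ⟨u, hu0, rfl⟩
    · simp only [PrC, decide_eq_true_eq] at hy hX3
      rcases EvDet5_T hy with rfl | rfl <;> rcases EvDet5_T hX3 with rfl | rfl
      · exact hy3
      · rw [hCT]; exact hy3
      · rw [← hCT]; exact hy3
      · exact hy3
    · simp only [sgl, decide_eq_true_eq] at hy hX3
      rw [hy, ← hX3]; exact hy3
  have hrs : ∀ y, rs z.1 A y = X y := by
    intro y
    by_cases hy : y.1 = z.1
    · have e1 : X y = false := by
        rcases EvDet5_fst hy with rfl | rfl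
        · exact hXz
        · exact hXb
      rw [e1]
      simp [rs, hy]
    · have e2 : y ≠ z := by rintro rfl; exact hy rfl
      simp [rs, hAd, sgl, hy, e2]
  have hcore := fun {x t : Fin 3 × Bool} (h : Ps V x (bar z) t) =>
    det_core E hA hC hX hCz (fun y hy => hXC y (by rw [← hrs]; exact hy)) h
  have hXT : X (0, true) = X (0, false) := by
    rcases hB with rfl | ⟨u, hu0, rfl⟩
    · rfl
    · have e1 : ∀ s, sgl u (0, s) = false := by
        intro s
        simp only [sgl, decide_eq_false_iff_not]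
        intro h9
        exact hu0 (congrArg Prod.fst h9).symm
      rw [e1, e1]
  have k1 := hcore h1
  have k2 := hcore h2
  simp only [hrs] at k1 k2
  have g1 : X (bar t) = X (bar t') := EvDet5_eT hXT h3
  have g2 : C (bar t) = C (bar t') := EvDet5_eT hCT h3
  cases hXt : X (bar t)
  · rw [k1.1 hXt, k2.1 (by rw [← g1]; exact hXt), g2]
  · rw [k1.2 hXt, k2.2 (by rw [← g1]; exact hXt)]

theorem EvDet5_half {n : ℕ} {V : CC} (E : Eq3 n V) (h5 : Five n V) (hT : NC n V (PrC 0))
    (hu : ¬ VX n V (PrC 0)) {z : Fin 3 × Bool} (hz : z.1 ≠ 0) (h : Crs n V z)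
    {x t x' t' : Fin 3 × Bool} (h1 : Ps V x (bar z) t) (h2 : Ps V x' (bar z) t')
    (h3 : eT t t') : eT x x' := by
  obtain ⟨X, Y, a1, a2, a3, a4, a5, a6, a7, a8⟩ := EvDet5_blocks h5 hz
  have hiff := EvDet5_core E hT hu hz h a1 a3 a5 a7 h1 h2 h3
  have hl : 2 ≤ cycLen V := by
    rw [cycLen_eq_sum, Fin.sum_univ_three, E.c, E.c, E.c]
    have := E.h4
    omega
  have hin : ∀ {x t : Fin 3 × Bool}, Ps V x (bar z) t → X x = true ∨ Y x = true := by
    intro x t hp
    have e1 := (ps_edge hl hp).1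
    rw [bar_bar, edgS_comm] at e1
    by_contra hcon
    rw [not_or, Bool.not_eq_true, Bool.not_eq_true] at hcon
    have hxz : x ≠ z := by
      intro hxz
      have e3 := fi_red (ps_fi.1 hp)
      rw [hxz] at e3
      unfold FreeGroup.IsReduced at e3
      rw [List.isChain_cons_cons] at e3
      have e4 := e3.1 rfl
      rw [bar_snd] at e4
      cases hz2 : z.2 <;> rw [hz2] at e4 <;> exact absurd e4 (by decide)
    have e2 := EvDet5_nbr E a3 a4 a6 a7 a8 hxz hcon.1 hcon.2
    omega
  rcases hin h1 with e1 | e1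
  · exact EvDet5_Blk_eT a1 e1 (hiff.1 e1)
  · rcases hin h2 with e2 | e2
    · exact EvDet5_Blk_eT a1 (hiff.2 e2) e2
    · exact EvDet5_Blk_eT a2 e1 e2

theorem det_five {n : ℕ} {V : CC} (E : Eq3 n V) (h5 : Five n V) (hT : NC n V (PrC 0))
    (hu : ¬ VX n V (PrC 0)) {z : Fin 3 × Bool} (hz : z.1 ≠ 0) (h : Crs n V z) : DetT V z := by
  intro x t x' t' h1 h2
  have hbar : ∀ {y y' : Fin 3 × Bool}, eT y y' → eT (bar y) (bar y') := by
    rintro y y' (rfl | ⟨h3, h4⟩)
    · exact Or.inl rfl
    · exact Or.inr ⟨h3, h4⟩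
  constructor
  · intro h3
    have h4 := EvDet5_half E h5 hT hu hz h (ps_inv h1) (ps_inv h2) (hbar h3)
    have h5 := hbar h4
    rwa [bar_bar, bar_bar] at h5
  · intro h3
    have hz' : (bar z).1 ≠ 0 := hz
    refine EvDet5_half E h5 hT hu hz' (crs_bar h) ?_ ?_ h3
    · rw [bar_bar]; exact h1
    · rw [bar_bar]; exact h2

end Pool.Agent.Sims
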