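import Pool.Agent.Sims.EvF1

/-!
# Module `EvTr` : transport of cuts and of visible crossings through a level move

`B` level `y`-cut at `V`, `Q` a cut disjoint from `B` (so `Q y = false`), `V' = act (wh y B) V`.  `tp y B Q` is `Q` if `y⁻¹ ∉ Q`, and `Q ∪ (B ∖ y)` if `y⁻¹ ∈ Q`.
* `trNC`: `capC_wh_disj` (if `Q (bar y) = false`; then `tp y B Q = Q` pointwise), `capC_wh_disj'` (if `Q (bar y) = true`).  In both cases `y ∉ tp y B Q`, so it is proper.
* `trX`: let `C` cross `Q`, `C` of capacity `n`.  Claim: there is `C₁` of capacity `n` crossing `Q` and disjoint from `B`.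
  (i) `C`, `B` do not cross (`not_Crossg`): `C ∩ B = ∅`: take `C`.  `C ⊆ B` is impossible (`C` meets `Q`, `Q ∩ B = ∅`).  `B ⊆ C`: take the complement of `C`.  `C ∪ B` everything: impossible since
  `Q ∖ C ≠ ∅` and `Q ∩ B = ∅`.
  (ii) `C`, `B` cross (`B` has capacity `n` by `Lv_NC`): by `f1` `C ∖ B` and `C ∪ B` have capacity `n`.  Take `u` with `Q u = false`, `B u = false`.  If `u ∈ C` then `C ∖ B` crosses `Q`
  (`(C∖B) ∩ Q = C ∩ Q`, `Q ∖ (C∖B) = Q ∖ C`, `u ∈ (C∖B) ∖ Q`, and `B` is outside of both), take `C₁ = C ∖ B`.  If `u ∉ C` then `C ∪ B` crosses `Q` (`u` outside of both, `B ⊆ (C∪B) ∖ Q`), take the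
  complement of `C ∪ B`.
  Now `C' = tp y B C₁` has capacity `n` at `V'` by `trNC`, and it crosses `tp y B Q`: in all four cases (`y⁻¹ ∈ C₁` or not, `y⁻¹ ∈ Q` or not) `C₁ ∩ Q ⊆ C' ∩ tp Q`; `C₁ ∖ Q` is disjoint from `B`, so it
  is contained in `C' ∖ tp Q`; similarly `Q ∖ C₁ ⊆ tp Q ∖ C'`; and `y` is outside of both.
* `nest_unc`: immediate.
* `per`: persistence.  `Q` uncrossed of capacity `n` at `V`, not separating `y, y⁻¹`.  `B` does not cross `Q`.  Replacing `Q` by its complement (`NC_compl`, `VX_compl`) we may assume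
  `Q y = Q y⁻¹ = false`; then by `not_Crossg` `B ∩ Q = ∅` or `Q ⊆ B` (`B ⊆ Q` is impossible because of `y`, `B ∪ Q = everything` because of `y⁻¹`); in the second case replace `(y, B)` by
  `(y⁻¹, Bᶜ)` (`Lv_compl`: same class `V'`).  So `B ∩ Q = ∅`, `tp y B Q = Q`, and `NC n V' Q` by `trNC`.  If `Q` were crossed at `V'`: the inverse move `(y⁻¹, stc B y)` leads from `V'` back to `V`
  (`Lv_inv`), `stc B y` is disjoint from `Q`, `y` is outside of both, so `trX` at `V'` gives a crossing of `Q` at `V`; contradiction.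
Difficulty 2.
-/

namespace Pool.Agent.Sims

theorem EvTr_y {V : CC} {y : Fin 3 × Bool} {B Q : Ct} (hB : Lv V y B)
    (hd : ∀ x, Q x = true → B x = false) : Q y = false := by
  by_contra h
  have h1 := hd y (by simpa using h)
  rw [hB.1] at h1
  exact absurd h1 (by decide)

theorem EvTr_swap {B Q : Ct} (hd : ∀ x, Q x = true → B x = false) :
    ∀ x, B x = true → Q x = false := by
  intro x hx
  by_contra h
  have h1 := hd x (by simpa using h)
  rw [hx] at h1
  exact absurd h1 (by decide)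

theorem EvTr_tp {y : Fin 3 × Bool} {B Q : Ct} (h : Q (bar y) = false) (x : Fin 3 × Bool) :
    tp y B Q x = Q x := by
  simp [tp, h]

theorem trNC {n : ℕ} {V : CC} (E : Eq3 n V) {y : Fin 3 × Bool} {B Q : Ct} (hQ : NC n V Q)
    (hB : Lv V y B) (hd : ∀ x, Q x = true → B x = false) :
    NC n (act (wh y B) V) (tp y B Q) := by
  have hy := EvTr_y hB hd
  have hs := EvTr_swap hd
  cases h : Q (bar y) with
  | false =>
    have h1 : NC n (act (wh y B) V) Q :=
      ⟨hQ.1, by rw [capC_wh_disj V y B Q hB.1 hB.2.1 hy h hs, hQ.2]⟩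
    exact NC_congr h1 (fun x => (EvTr_tp h x).symm)
  | true =>
    have e : tp y B Q = fun x => Q x || (B x && decide (x ≠ y)) := by
      funext x
      simp [tp, h]
    rw [e]
    refine ⟨⟨⟨bar y, by simp [h]⟩, ⟨y, by simp [hy]⟩⟩, ?_⟩
    rw [capC_wh_disj' V y B Q hB.1 hB.2.1 hy h hs, hQ.2]

theorem EvTr_disj {n : ℕ} {V : CC} (E : Eq3 n V) {y : Fin 3 × Bool} {B Q : Ct}
    (hB : Lv V y B) (hd : ∀ x, Q x = true → B x = false) (hne : ∃ x, Q x = false ∧ B x = false)
    (hX : VX n V Q) : ∃ C, NC n V C ∧ Crossg C Q ∧ ∀ x, C x = true → B x = false := by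
  obtain ⟨C, hC, hX⟩ := hX
  have hy := EvTr_y hB hd
  obtain ⟨⟨x, x1, x2⟩, ⟨w, w1, w2⟩, ⟨z, z1, z2⟩, ⟨v, v1, v2⟩⟩ := id hX
  by_cases hc : Crossg C B
  · have hBn : NC n V B := ((Lv_NC E).1 hB).2.2
    obtain ⟨-, f2, -, -, f5⟩ := f1 E hC hBn hc
    obtain ⟨u, u1, u2⟩ := hne
    cases hu : C u with
    | true =>
      refine ⟨_, f2, ⟨⟨x, ?_, x2⟩, ⟨u, ?_, u1⟩, ⟨z, ?_, z2⟩, ⟨y, ?_, hy⟩⟩, ?_⟩
      · simp [x1, hd x x2]
      · simp [hu, u2]
      · simp [z1]
      · simp [hB.1]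
      · intro t ht
        have ht' : (C t && !B t) = true := ht
        simp only [Bool.and_eq_true] at ht'
        simpa using ht'.2
    | false =>
      refine ⟨_, NC_compl f5, ⟨⟨z, ?_, z2⟩, ⟨u, ?_, u1⟩, ⟨x, ?_, x2⟩, ⟨y, ?_, hy⟩⟩, ?_⟩
      · simp [z1, hd z z2]
      · simp [hu, u2]
      · simp [x1]
      · simp [hB.1]
      · intro t ht
        have ht' : (!(C t || B t)) = true := ht
        revert ht'
        cases C t <;> cases B t <;> decide
  · rcases not_Crossg hc with h | h | h | h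
    · exact ⟨C, hC, hX, h⟩
    · exfalso
      have h1 := h x x1
      rw [hd x x2] at h1
      exact absurd h1 (by decide)
    · refine ⟨_, NC_compl hC, Crossg_compl hX, ?_⟩
      intro t ht
      have ht' : (!C t) = true := ht
      by_contra hb
      have h1 := h t (by simpa using hb)
      rw [h1] at ht'
      exact absurd ht' (by decide)
    · exfalso
      rcases h z with h1 | h1
      · rw [z1] at h1
        exact absurd h1 (by decide)
      · rw [hd z z2] at h1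
        exact absurd h1 (by decide)

theorem trX {n : ℕ} {V : CC} (E : Eq3 n V) {y : Fin 3 × Bool} {B Q : Ct} (hQ : NC n V Q)
    (hB : Lv V y B) (hd : ∀ x, Q x = true → B x = false) (hne : ∃ x, Q x = false ∧ B x = false)
    (hX : VX n V Q) : VX n (act (wh y B) V) (tp y B Q) := by
  obtain ⟨C, hC, hXC, hdC⟩ := EvTr_disj E hB hd hne hX
  have hyQ := EvTr_y hB hd
  have hyC := EvTr_y hB hdC
  refine ⟨tp y B C, trNC E hC hB hdC, ?_⟩
  obtain ⟨⟨x, x1, x2⟩, ⟨w, w1, w2⟩, ⟨z, z1, z2⟩, ⟨v, v1, v2⟩⟩ := hXC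
  refine ⟨⟨x, ?_, ?_⟩, ⟨w, ?_, ?_⟩, ⟨z, ?_, ?_⟩, ⟨y, ?_, ?_⟩⟩
  · simp [tp, x1]
  · simp [tp, x2]
  · simp [tp, w1]
  · simp [tp, w2, hdC w w1]
  · simp [tp, z1, hd z z2]
  · simp [tp, z2]
  · simp [tp, hyC]
  · simp [tp, hyQ]

theorem nest_unc {n : ℕ} {V : CC} {B Q : Ct} (hB : NC n V B) (hu : ¬ VX n V Q) : ¬ Crossg B Q :=
  fun h => hu ⟨B, hB, h⟩

theorem EvTr_per {n : ℕ} {V : CC} (E : Eq3 n V) {y : Fin 3 × Bool} {B Q : Ct} (hQ : NC n V Q)
    (hu : ¬ VX n V Q) (hB : Lv V y B) (hy' : Q (bar y) = false)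
    (hd : ∀ x, Q x = true → B x = false) :
    NC n (act (wh y B) V) Q ∧ ¬ VX n (act (wh y B) V) Q := by
  have hy := EvTr_y hB hd
  have h1 : NC n (act (wh y B) V) Q := NC_congr (trNC E hQ hB hd) (EvTr_tp hy')
  refine ⟨h1, fun hX => hu ?_⟩
  obtain ⟨hL, hV⟩ := Lv_inv hB
  have hbb : bar (bar y) = y := by
    rw [bar_bar]
  have hd' : ∀ x, Q x = true →
      (fun x => (B x && decide (x ≠ y)) || decide (x = bar y)) x = false := by
    intro x hx
    have hxy : x ≠ bar y := by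
      rintro rfl
      rw [hy'] at hx
      exact absurd hx (by decide)
    simp [hd x hx, hxy]
  have hyy : y ≠ bar y := fun h => bar_ne y h.symm
  have h2 := trX (E.lv hB) h1 hL hd' ⟨y, hy, by simp [hyy]⟩ hX
  rw [hV] at h2
  refine (VX_congr (fun x => ?_)).1 h2
  exact EvTr_tp (by rw [hbb]; exact hy) x

theorem EvTr_per' {n : ℕ} {V : CC} (E : Eq3 n V) {y : Fin 3 × Bool} {B Q : Ct} (hQ : NC n V Q)
    (hu : ¬ VX n V Q) (hB : Lv V y B) (hy : Q y = false) (hy' : Q (bar y) = false) :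
    NC n (act (wh y B) V) Q ∧ ¬ VX n (act (wh y B) V) Q := by
  have hBn : NC n V B := ((Lv_NC E).1 hB).2.2
  rcases not_Crossg (nest_unc hBn hu) with h | h | h | h
  · exact EvTr_per E hQ hu hB hy' (EvTr_swap h)
  · exfalso
    have h1 := h y hB.1
    rw [hy] at h1
    exact absurd h1 (by decide)
  · obtain ⟨hL, hV⟩ := Lv_compl hB
    have hbb : bar (bar y) = y := by rw [bar_bar]
    have := EvTr_per E hQ hu hL (by rw [hbb]; exact hy) (by
      intro x hx
      simp [h x hx])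
    rwa [hV] at this
  · exfalso
    rcases h (bar y) with h1 | h1
    · rw [hB.2.1] at h1
      exact absurd h1 (by decide)
    · rw [hy'] at h1
      exact absurd h1 (by decide)

theorem per {n : ℕ} {V : CC} (E : Eq3 n V) {y : Fin 3 × Bool} {B Q : Ct} (hQ : NC n V Q)
    (hu : ¬ VX n V Q) (hB : Lv V y B) (hy : Q y = Q (bar y)) :
    NC n (act (wh y B) V) Q ∧ ¬ VX n (act (wh y B) V) Q := by
  cases h : Q y with
  | false =>
    exact EvTr_per' E hQ hu hB h (by rw [← hy, h])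
  | true =>
    have h' : Q (bar y) = true := by rw [← hy, h]
    obtain ⟨h1, h2⟩ := EvTr_per' E (NC_compl hQ) (fun hX => hu (VX_compl.1 hX)) hB
      (by simp [h]) (by simp [h'])
    refine ⟨NC_congr (NC_compl h1) (fun x => by simp), fun hX => h2 (VX_compl.2 hX)⟩

end Pool.Agent.Sims
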