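import Pool.Agent.Sims.EvL3
import Pool.Agent.Sims.EvTr

/-!
# Module `EvEU` : the case of an uncrossed cut `{x, b, b⁻¹}`
-/

namespace Pool.Agent.Sims

open FreeGroup (of)

theorem eu_per {n : ℕ} {V : CC} (E : Eq3 n V) {x : Fin 3 × Bool} (hx : x.1 = 0)
    (hU : NC n V (UU x)) (hu : ¬ VX n V (UU x)) {W : CC} (hW : W ∈ EM (fun i => i ≠ 0) V) :
    NC n W (UU x) ∧ ¬ VX n W (UU x) := by
  have hW' : Relation.ReflTransGen (StM (fun i => i ≠ 0)) V W := hW
  induction hW' with
  | refl => exact ⟨hU, hu⟩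
  | @tail Y Z hY hstep ih =>
    have hYE : Y ∈ EM (fun i => i ≠ 0) V := hY
    obtain ⟨h1, h2⟩ := ih hYE
    obtain ⟨z, A, hz, hA, rfl⟩ := hstep
    have hz' : z.1 ≠ 0 := hz
    have hEY : Eq3 n Y := E.em hYE
    apply per hEY h1 h2 hA
    have e1 : z ≠ x := by
      intro h
      exact hz' (by rw [h, hx])
    have e2 : bar z ≠ x := by
      intro h
      apply hz'
      have h3 : (bar z).1 = x.1 := by rw [h]
      rw [bar_fst] at h3
      rw [h3, hx]
    simp only [UU, e1, e2, decide_false, Bool.false_or, bar_fst]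
    rfl

theorem EvEU_b1 {n : ℕ} {W : CC} (E : Eq3 n W) {x : Fin 3 × Bool} (hx : x.1 = 0)
    (hu : ¬ VX n W (UU x)) {B : Ct} (hB : Lv W (1, true) B) :
    ∃ s : ℤ, act (wh (1, true) B) W = act (pot 1 (fun y => s * ind (sgl x) y)) W := by
  have hNC : NC n W B := ((Lv_NC E).mp hB).2.2
  have hb1 : B (1, true) = true := hB.1
  have hb2 : B (1, false) = false := hB.2.1
  rcases not_Crossg (nest_unc hNC hu) with h | h | h | h
  · have := h _ hb1
    simp [UU] at this
  · refine ⟨ind B x, ?_⟩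
    rw [wh_pot]
    apply pot_congr
    intro y hy
    by_cases hyx : y = x
    · subst hyx
      simp [ind, sgl]
    · have h1 : B y = false := by
        by_contra h2
        have h3 := h y (by simpa using h2)
        simp [UU, hyx, hy] at h3
      simp [ind, sgl, h1, hyx]
  · have h3 := h (1, false) (by simp [UU])
    rw [hb2] at h3
    exact absurd h3 (by decide)
  · refine ⟨ind B x - 1, ?_⟩
    rw [wh_pot]
    apply pot_const 1
    intro y hy
    by_cases hyx : y = x
    · subst hyx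
      simp [ind, sgl]
    · have h1 : B y = true := by
        rcases h y with h2 | h2
        · exact h2
        · simp [UU, hyx, hy] at h2
      simp [ind, sgl, h1, hyx]

theorem EvEU_c1 {n : ℕ} {W : CC} (E : Eq3 n W) {x : Fin 3 × Bool} (hx : x.1 = 0)
    (hu : ¬ VX n W (UU x)) {B : Ct} (hB : Lv W (2, true) B) :
    ∃ s : ℤ, act (wh (2, true) B) W = act (pot 2 (fun y => s * ind (sgl (bar x)) y)) W := by
  have hNC : NC n W B := ((Lv_NC E).mp hB).2.2
  have hb1 : B (2, true) = true := hB.1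
  have hb2 : B (2, false) = false := hB.2.1
  have hx2 : x ≠ (2, true) := by
    intro h
    rw [h] at hx
    exact absurd hx (by decide)
  have hx3 : x ≠ (2, false) := by
    intro h
    rw [h] at hx
    exact absurd hx (by decide)
  -- letters different from `bar x` and `c^{±1}` are in `U`
  have key : ∀ y : Fin 3 × Bool, y.1 ≠ 2 → y ≠ bar x → UU x y = true := by
    intro y hy hyx
    clear hu hx2 hx3
    obtain ⟨i, b⟩ := x
    obtain ⟨k, c⟩ := y
    simp only at hx
    subst hx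
    revert b c k
    decide
  rcases not_Crossg (nest_unc hNC hu) with h | h | h | h
  · refine ⟨ind B (bar x), ?_⟩
    rw [wh_pot]
    apply pot_congr
    intro y hy
    by_cases hyx : y = bar x
    · subst hyx
      simp [ind, sgl]
    · have h1 : B y = false := by
        by_contra h2
        have h3 := h y (by simpa using h2)
        rw [key y hy hyx] at h3
        exact absurd h3 (by decide)
      simp [ind, sgl, h1, hyx]
  · have h3 := h _ hb1
    simp [UU, hx2.symm] at h3
  · refine ⟨ind B (bar x) - 1, ?_⟩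
    rw [wh_pot]
    apply pot_const 1
    intro y hy
    by_cases hyx : y = bar x
    · subst hyx
      simp [ind, sgl]
    · have h1 : B y = true := h y (key y hy hyx)
      simp [ind, sgl, h1, hyx]
  · rcases h (2, false) with h2 | h2
    · rw [hb2] at h2
      exact absurd h2 (by decide)
    · simp [UU, hx3.symm] at h2

/-- a level move with multiplier `z`, `z.1 = i` is a level move with multiplier `(i, true)` -/
theorem EvEU_wlog {W : CC} {z : Fin 3 × Bool} {B : Ct} (hB : Lv W z B) :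
    ∃ B' : Ct, Lv W (z.1, true) B' ∧ act (wh (z.1, true) B') W = act (wh z B) W := by
  obtain ⟨i, b⟩ := z
  cases b with
  | true => exact ⟨B, hB, rfl⟩
  | false =>
    obtain ⟨h1, h2⟩ := Lv_compl hB
    exact ⟨_, h1, h2⟩

theorem EvEU_b {n : ℕ} {W : CC} (E : Eq3 n W) {x : Fin 3 × Bool} (hx : x.1 = 0)
    (hu : ¬ VX n W (UU x)) {z : Fin 3 × Bool} (hz : z.1 = 1) {B : Ct} (hB : Lv W z B) :
    ∃ s : ℤ, act (wh z B) W = act (pot 1 (fun y => s * ind (sgl x) y)) W := by
  obtain ⟨B', h1, h2⟩ := EvEU_wlog hB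
  rw [hz] at h1 h2
  rw [← h2]
  exact EvEU_b1 E hx hu h1

theorem EvEU_c {n : ℕ} {W : CC} (E : Eq3 n W) {x : Fin 3 × Bool} (hx : x.1 = 0)
    (hu : ¬ VX n W (UU x)) {z : Fin 3 × Bool} (hz : z.1 = 2) {B : Ct} (hB : Lv W z B) :
    ∃ s : ℤ, act (wh z B) W = act (pot 2 (fun y => s * ind (sgl (bar x)) y)) W := by
  obtain ⟨B', h1, h2⟩ := EvEU_wlog hB
  rw [hz] at h1 h2
  rw [← h2]
  exact EvEU_c1 E hx hu h1

/-- the two families of potentials commute -/
theorem EvEU_comm {x : Fin 3 × Bool} (hx : x.1 = 0) (s t : ℤ) (V : CC) :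
    act (pot 1 (fun y => s * ind (sgl x) y)) (act (pot 2 (fun y => t * ind (sgl (bar x)) y)) V) =
    act (pot 2 (fun y => t * ind (sgl (bar x)) y)) (act (pot 1 (fun y => s * ind (sgl x) y)) V) := by
  rw [act_act, act_act]
  congr 1
  apply Rel_ext
  intro i
  refine ⟨true, ?_⟩
  rw [lett_true, MulEquiv.trans_apply, MulEquiv.trans_apply, Rel_pot_apply, Rel_pot_apply,
    Rel_pot_apply, Rel_pot_apply]
  obtain ⟨k, b⟩ := x
  simp only at hx
  subst hx
  have h10 : (0 : Fin 3) ≠ 1 := by decide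
  have h20 : (0 : Fin 3) ≠ 2 := by decide
  have h12 : (1 : Fin 3) ≠ 2 := by decide
  have h21 : (2 : Fin 3) ≠ 1 := by decide
  fin_cases i
  · simp only [Fin.zero_eta, Fin.isValue]
    cases b
    · simp [potFun_of_ne _ h10, potFun_of_ne _ h20, potFun_of_ne _ h12, potFun_of_ne _ h21,
        potFun_of_self, ind, sgl, bar, map_mul, map_zpow, mul_assoc]
    · simp [potFun_of_ne _ h10, potFun_of_ne _ h20, potFun_of_ne _ h12, potFun_of_ne _ h21,
        potFun_of_self, ind, sgl, bar, map_mul, map_zpow, mul_assoc]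
  · simp only [Fin.mk_one, Fin.isValue]
    simp [potFun_of_ne _ h10, potFun_of_ne _ h20, potFun_of_ne _ h12, potFun_of_ne _ h21,
        potFun_of_self, ind, sgl, bar, map_mul, map_zpow, mul_assoc]
  · simp only [Fin.reduceFinMk, Fin.isValue]
    simp [potFun_of_ne _ h10, potFun_of_ne _ h20, potFun_of_ne _ h12, potFun_of_ne _ h21,
        potFun_of_self, ind, sgl, bar, map_mul, map_zpow, mul_assoc]

theorem EvEU_add (j : Fin 3) (X : Ct) (s t : ℤ) (V : CC) :
    act (pot j (fun y => s * ind X y)) (act (pot j (fun y => t * ind X y)) V) =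
    act (pot j (fun y => (s + t) * ind X y)) V := by
  rw [pot_add]
  apply pot_congr
  intro y _
  simp only [Pi.add_apply]
  ring

theorem EvEU_zero (j : Fin 3) (X : Ct) (V : CC) :
    act (pot j (fun y => (0 : ℤ) * ind X y)) V = V := by
  have h : act (pot j (fun y => (0 : ℤ) * ind X y)) V = act (pot j 0) V := by
    apply pot_congr
    intro y _
    simp
  rw [h, pot_zero]

theorem EvEU_form {n : ℕ} {V : CC} (E : Eq3 n V) {x : Fin 3 × Bool} (hx : x.1 = 0)
    (hU : NC n V (UU x)) (hu : ¬ VX n V (UU x)) {W : CC} (hW : W ∈ EM (fun i => i ≠ 0) V) :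
    ∃ s t : ℤ, W = act (pot 1 (fun y => s * ind (sgl x) y))
      (act (pot 2 (fun y => t * ind (sgl (bar x)) y)) V) := by
  have hW' : Relation.ReflTransGen (StM (fun i => i ≠ 0)) V W := hW
  induction hW' with
  | refl => exact ⟨0, 0, by rw [EvEU_zero, EvEU_zero]⟩
  | @tail Y Z hY hstep ih =>
    have hYE : Y ∈ EM (fun i => i ≠ 0) V := hY
    obtain ⟨s, t, hst⟩ := ih hYE
    obtain ⟨h1, h2⟩ := eu_per E hx hU hu hYE
    obtain ⟨z, A, hz, hA, rfl⟩ := hstep
    have hz' : z.1 ≠ 0 := hz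
    have hEY : Eq3 n Y := E.em hYE
    have h3 : z.1 = 1 ∨ z.1 = 2 := by
      revert hz'
      generalize z.1 = i
      revert i
      decide
    rcases h3 with h3 | h3
    · obtain ⟨r, hr⟩ := EvEU_b hEY hx h2 h3 hA
      refine ⟨r + s, t, ?_⟩
      rw [hr, hst, EvEU_add]
    · obtain ⟨r, hr⟩ := EvEU_c hEY hx h2 h3 hA
      refine ⟨s, r + t, ?_⟩
      rw [hr, hst, ← EvEU_comm hx, EvEU_add]

theorem eu {n : ℕ} {V : CC} (E : Eq3 n V) {x : Fin 3 × Bool} (hx : x.1 = 0)
    (hU : NC n V (UU x)) (hu : ¬ VX n V (UU x)) : Cov (EM (fun i => i ≠ 0) V) 9 := by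
  classical
  obtain ⟨F1, hF1, hF1'⟩ := line3 E 1 (sgl x)
  obtain ⟨F2, hF2, hF2'⟩ := line3 E 2 (sgl (bar x))
  -- representatives
  let P : CC × CC → CC → Prop := fun p W => ∃ s t : ℤ,
    p.1 = act (pot 1 (fun y => s * ind (sgl x) y)) V ∧
    p.2 = act (pot 2 (fun y => t * ind (sgl (bar x)) y)) V ∧
    W = act (pot 1 (fun y => s * ind (sgl x) y)) (act (pot 2 (fun y => t * ind (sgl (bar x)) y)) V)
  have huniq : ∀ p W W', P p W → P p W' → W = W' := by
    rintro p W W' ⟨s, t, h1, h2, h3⟩ ⟨s', t', h1', h2', h3'⟩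
    rw [h3, h3', ← h2, h2', EvEU_comm hx, ← h1, h1', EvEU_comm hx]
  let G : CC × CC → CC := fun p => if h : ∃ W, P p W then h.choose else V
  refine ⟨(F1 ×ˢ F2).image G, ?_, ?_⟩
  · refine Finset.card_image_le.trans ?_
    rw [Finset.card_product]
    calc F1.card * F2.card ≤ 3 * 3 := Nat.mul_le_mul hF1 hF2
      _ = 9 := by norm_num
  · intro W hW
    obtain ⟨s, t, hst⟩ := EvEU_form E hx hU hu hW
    have hEW : Eq3 n W := E.em hW
    have c1 : cnt (act (pot 1 (fun y => s * ind (sgl x) y)) V) 1 = n := by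
      have h1 := hEW.c 1
      rw [hst, EvEU_comm hx, cnt_pot_ne _ _ _ (by decide)] at h1
      exact h1
    have c2 : cnt (act (pot 2 (fun y => t * ind (sgl (bar x)) y)) V) 2 = n := by
      have h1 := hEW.c 2
      rw [hst, cnt_pot_ne _ _ _ (by decide)] at h1
      exact h1
    have m1 := hF1' _ ⟨s, rfl, c1⟩
    have m2 := hF2' _ ⟨t, rfl, c2⟩
    rw [Finset.mem_image]
    refine ⟨(_, _), Finset.mk_mem_product m1 m2, ?_⟩
    have hex : ∃ W, P (act (pot 1 (fun y => s * ind (sgl x) y)) V,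
        act (pot 2 (fun y => t * ind (sgl (bar x)) y)) V) W := ⟨_, s, t, rfl, rfl, rfl⟩
    have hG : G (act (pot 1 (fun y => s * ind (sgl x) y)) V,
        act (pot 2 (fun y => t * ind (sgl (bar x)) y)) V) = hex.choose := by
      simp only [G]
      rw [dif_pos hex]
    rw [hG, hst]
    exact huniq _ _ _ hex.choose_spec ⟨s, t, rfl, rfl, rfl⟩

end Pool.Agent.Sims
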