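import Pool.Agent.Sims.EvSt

/-!
# Module `EvPatE` : the pattern of a full class with deterministic `b`, `c`
-/

namespace Pool.Agent.Sims

/-- the cyclically consecutive pairs of a list -/
def EvPatE_pr {β : Type*} (B : List β) : List (β × β) := List.zip B (B.rotate 1)

theorem EvPatE_lin {β : Type*} (f : β → β → ℕ) : ∀ (l : List β) (x z : β),
    lin f x l z = ((List.zip (x :: l) (l ++ [z])).map (fun p => f p.1 p.2)).sum
  | [], x, z => by simp [lin]
  | y :: l, x, z => by
    have ih := EvPatE_lin f l y z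
    simp only [lin, List.cons_append, List.zip_cons_cons, List.map_cons, List.sum_cons]
    rw [ih]

theorem EvPatE_cyc {β : Type*} (f : β → β → ℕ) (B : List β) :
    cyc f B = ((EvPatE_pr B).map (fun p => f p.1 p.2)).sum := by
  cases B with
  | nil => simp [cyc, EvPatE_pr]
  | cons x l =>
    rw [cyc, EvPatE_lin, EvPatE_pr]
    simp [List.rotate_cons_succ]

theorem EvPatE_zip {β : Type*} : ∀ (l : List β) (x z : β) (p : β × β),
    p ∈ List.zip (x :: l) (l ++ [z]) →
    (∃ B1 B2, x :: l = B1 ++ p.1 :: p.2 :: B2) ∨ (∃ B1, x :: l = B1 ++ [p.1] ∧ p.2 = z)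
  | [], x, z, p, h => by
    simp only [List.nil_append, List.zip_cons_cons, List.zip_nil_right, List.mem_singleton] at h
    subst h
    exact Or.inr ⟨[], by simp⟩
  | y :: l, x, z, p, h => by
    simp only [List.cons_append, List.zip_cons_cons, List.mem_cons] at h
    rcases h with h | h
    · subst h
      exact Or.inl ⟨[], l, by simp⟩
    · rcases EvPatE_zip l y z p (by simpa using h) with ⟨B1, B2, hB⟩ | ⟨B1, hB, hz⟩
      · exact Or.inl ⟨x :: B1, B2, by simp [hB]⟩
      · exact Or.inr ⟨x :: B1, by simp [hB], hz⟩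

theorem EvPatE_mem {β : Type*} {B : List β} (hB : 2 ≤ B.length) {p : β × β}
    (h : p ∈ EvPatE_pr B) : (∃ B1 B2, B = B1 ++ p.1 :: p.2 :: B2) ∨
      (∃ B1, B = p.2 :: (B1 ++ [p.1])) := by
  cases B with
  | nil => simp at hB
  | cons x l =>
    rw [EvPatE_pr] at h
    have h' : p ∈ List.zip (x :: l) (l ++ [x]) := by simpa [List.rotate_cons_succ] using h
    rcases EvPatE_zip l x x p h' with h1 | ⟨B1, h1, h2⟩
    · exact Or.inl h1
    · right
      cases B1 with
      | nil =>
        simp only [List.nil_append, List.cons.injEq] at h1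
        rw [h1.2] at hB; simp at hB
      | cons y B1 =>
        simp only [List.cons_append, List.cons.injEq] at h1
        refine ⟨B1, ?_⟩
        rw [h1.2, h2]

theorem EvPatE_map {β γ : Type*} (h : β → γ) (B : List β) :
    EvPatE_pr (B.map h) = (EvPatE_pr B).map (Prod.map h h) := by
  unfold EvPatE_pr
  rw [← List.map_rotate, List.zip_map]

theorem EvPatE_fst {β : Type*} (B : List β) : (EvPatE_pr B).map Prod.fst = B := by
  unfold EvPatE_pr
  apply List.map_fst_zip
  simp

theorem EvPatE_len {β : Type*} (B : List β) : (EvPatE_pr B).length = B.length := by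
  unfold EvPatE_pr
  simp

theorem EvPatE_adj {β : Type*} {B : List β} {q : (β × β) × (β × β)}
    (h : q ∈ EvPatE_pr (EvPatE_pr B)) : q.1.2 = q.2.1 := by
  obtain ⟨i, hi, rfl⟩ := List.mem_iff_getElem.1 h
  have hl : i < B.length := by
    have := hi
    rw [EvPatE_len, EvPatE_len] at this
    exact this
  simp only [EvPatE_pr, List.getElem_zip, List.getElem_rotate, List.length_zip,
    List.length_rotate, min_self]

/-- a path between two letters `a^{±1}` -/
structure EvPatE_P (V : CC) (x : Fin 3 × Bool) (γ : List (Fin 3 × Bool)) (x' : Fin 3 × Bool) :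
    Prop where
  hx : x.1 = 0
  hx' : x'.1 = 0
  hγ : ∀ y ∈ γ, y.1 ≠ 0
  fi : FI V (x :: (γ ++ [x']))

theorem EvPatE_P.inv {V : CC} {x x' : Fin 3 × Bool} {γ : List (Fin 3 × Bool)}
    (h : EvPatE_P V x γ x') : EvPatE_P V (bar x') (FreeGroup.invRev γ) (bar x) := by
  refine ⟨h.hx', h.hx, ?_, ?_⟩
  · intro y hy
    simp only [FreeGroup.invRev, List.mem_reverse, List.mem_map] at hy
    obtain ⟨a, ha, rfl⟩ := hy
    exact h.hγ a ha
  · have h1 := fi_inv h.fi
    have h2 : FreeGroup.invRev (x :: (γ ++ [x'])) =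
        bar x' :: (FreeGroup.invRev γ ++ [bar x]) := by
      simp [FreeGroup.invRev, bar]
    rwa [h2] at h1

theorem EvPatE_es (x x' : Fin 3 × Bool) (γ : List (Fin 3 × Bool)) :
    es (bar x') (FreeGroup.invRev γ) (bar x) = evss x γ x' := by
  simp [es, FreeGroup.invRev_invRev]

theorem EvPatE_P.eq {V : CC} (hd : ∀ y : Fin 3 × Bool, y.1 ≠ 0 → DetL V y)
    {x x' y y' : Fin 3 × Bool} {γ δ : List (Fin 3 × Bool)}
    (h : EvPatE_P V x γ x') (h' : EvPatE_P V y δ y') (e : evss x γ x' = evss y δ y') :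
    x = y ∧ γ = δ ∧ x' = y' :=
  st_eq hd h.hγ h'.hγ h.hx' h'.hx' h.fi h'.fi e

theorem EvPatE_P.fi2 {V : CC} {x x' : Fin 3 × Bool} {γ : List (Fin 3 × Bool)}
    (h : EvPatE_P V x γ x') : FI V [x, γ.headD x'] := by
  cases γ with
  | nil => simpa using h.fi
  | cons y γ =>
    have h1 : FI V ([] ++ [x, y] ++ (γ ++ [x'])) := by simpa using h.fi
    simpa using fi_sub h1

theorem EvPatE_P.red {V : CC} {x x' : Fin 3 × Bool} {γ : List (Fin 3 × Bool)}
    (h : EvPatE_P V x γ x') : γ.headD x' ≠ bar x := by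
  have h1 := fi_red h.fi2
  intro h2
  rw [h2] at h1
  unfold FreeGroup.IsReduced at h1
  simp [bar] at h1

theorem EvPatE_P.swap {V : CC} (hd : ∀ y : Fin 3 × Bool, y.1 ≠ 0 → DetL V y)
    {x x' y y' : Fin 3 × Bool} {γ δ : List (Fin 3 × Bool)}
    (h : EvPatE_P V x γ x') (h' : EvPatE_P V y δ y') :
    es y δ y' = evss x γ x' ↔ evss y δ y' = es x γ x' := by
  constructor
  · intro e
    obtain ⟨e1, e2, e3⟩ := h'.inv.eq hd h e
    subst e1 e2 e3
    rw [EvPatE_es]
  · intro e
    obtain ⟨e1, e2, e3⟩ := h'.eq hd h.inv e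
    subst e1 e2 e3
    rw [EvPatE_es]

theorem EvPatE_sum {β : Type*} (f : β → ℕ) (P : β → Bool) : ∀ L : List β,
    (∀ p ∈ L, f p = if P p then 1 else 0) → (L.map f).sum = L.countP P
  | [], _ => by simp
  | a :: L, h => by
    have ih := EvPatE_sum f P L (fun p hp => h p (List.mem_cons_of_mem _ hp))
    have h1 := h a (by simp)
    rw [List.map_cons, List.sum_cons, ih, h1, List.countP_cons]
    ring

/-- start state of a pair of blocks -/
def EvPatE_F (p : (Bool × List (Fin 3 × Bool)) × (Bool × List (Fin 3 × Bool))) :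
    (Fin 3 × Bool) × (Fin 3 × Bool) := evss ((0 : Fin 3), p.1.1) p.1.2 ((0 : Fin 3), p.2.1)

/-- end state of a pair of blocks -/
def EvPatE_G (p : (Bool × List (Fin 3 × Bool)) × (Bool × List (Fin 3 × Bool))) :
    (Fin 3 × Bool) × (Fin 3 × Bool) := es ((0 : Fin 3), p.1.1) p.1.2 ((0 : Fin 3), p.2.1)

theorem EvPatE_cnt {n : ℕ} {V : CC} (hd : ∀ y : Fin 3 × Bool, y.1 ≠ 0 → DetL V y)
    {B : List (Bool × List (Fin 3 × Bool))}
    (hB : ∀ t ∈ B, ∀ x ∈ t.2, x.1 ≠ 0) (hC : CR (wB B)) (hV : cls (wB B) = V)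
    (hP : ∀ p ∈ EvPatE_pr B, EvPatE_P V ((0 : Fin 3), p.1.1) p.1.2 ((0 : Fin 3), p.2.1))
    {x x' : Fin 3 × Bool} {γ : List (Fin 3 × Bool)} (h : EvPatE_P V x γ x')
    (hS : 2 * edgS V (sgl x) (sgl (bar (γ.headD x'))) = n) :
    2 * (EvPatE_pr B).countP (fun p => decide (EvPatE_F p = evss x γ x' ∨
      EvPatE_F p = es x γ x')) = n := by
  rw [← hS, st_cnt hB hC hV h.hx h.red, EvPatE_cyc]
  congr 1
  symm
  apply EvPatE_sum
  intro p hp
  have h1 := (h.swap hd (hP p hp))
  have h2 := st_ne hd h.hγ h.hx h.hx' h.fi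
  have e1 : evss ((0 : Fin 3), p.1.1) p.1.2 ((0 : Fin 3), p.2.1) = EvPatE_F p := rfl
  have e2 : es ((0 : Fin 3), p.1.1) p.1.2 ((0 : Fin 3), p.2.1) = EvPatE_G p := rfl
  have e3 : (x, γ.headD x') = evss x γ x' := rfl
  rw [e1, e2] at h1
  rw [e1, e2, e3]
  by_cases ha : EvPatE_F p = evss x γ x'
  · have hb : ¬ EvPatE_F p = es x γ x' := fun hb => h2 (ha.symm.trans hb)
    have hc : ¬ EvPatE_G p = evss x γ x' := fun hc => hb (h1.1 hc)
    simp [ha, hc]
  · by_cases hb : EvPatE_F p = es x γ x'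
    · have hc : EvPatE_G p = evss x γ x' := h1.2 hb
      rw [if_neg ha, if_pos hc]
      simp [hb]
    · have hc : ¬ EvPatE_G p = evss x γ x' := fun hc => hb (h1.1 hc)
      rw [if_neg ha, if_neg hc]
      simp [ha, hb]

theorem EvPatE_flat {β : Type*} (f : β → List (Fin 3 × Bool)) : ∀ L : List β,
    FreeGroup.mk (L.flatMap f) = (L.map (fun t => FreeGroup.mk (f t))).prod
  | [] => by simp [FreeGroup.one_eq_mk]
  | a :: L => by
    rw [List.flatMap_cons, ← FreeGroup.mul_mk, EvPatE_flat f L, List.map_cons, List.prod_cons]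

theorem EvPatE_path {V : CC} {B : List (Bool × List (Fin 3 × Bool))} (hl : 2 ≤ B.length)
    (hB : ∀ t ∈ B, ∀ x ∈ t.2, x.1 ≠ 0) (hC : CR (wB B)) (hV : cls (wB B) = V) :
    ∀ p ∈ EvPatE_pr B, EvPatE_P V ((0 : Fin 3), p.1.1) p.1.2 ((0 : Fin 3), p.2.1) := by
  intro p hp
  have hm : p.1 ∈ B := by
    have := List.mem_map_of_mem (f := Prod.fst) hp
    rwa [EvPatE_fst] at this
  refine ⟨rfl, rfl, hB p.1 hm, ?_⟩
  rcases EvPatE_mem hl hp with ⟨B1, B2, h⟩ | ⟨B1, h⟩
  · rw [h] at hC hV
    exact Or.inl (blk_fac1 hC hV)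
  · rw [h] at hC hV
    exact Or.inl (blk_fac2 hC hV)

theorem pat_full {n : ℕ} {V : CC} (E : Eq3 n V) (hF : Full n V)
    (hd : ∀ y : Fin 3 × Bool, y.1 ≠ 0 → DetL V y) :
    ∃ (port : Bool → Bool → Bool) (π : List (Bool × Bool)), Cons port π ∧
      2 * π.countP (fun t => t.1) = n ∧ 2 * π.countP (fun t => !t.1) = n ∧ Pat port π V := by
  obtain ⟨B, hB0, hB, hC, hV, hBl⟩ := blk (V := V) (by rw [E.c 0]; have := E.h4; omega)
  rw [E.c 0] at hBl
  have h4 := E.h4
  have hP := EvPatE_path (by omega) hB hC hV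
  obtain ⟨S, hS4, hSn, hSm⟩ := st_four E hF
  have hmemS : ∀ {x x' : Fin 3 × Bool} {γ : List (Fin 3 × Bool)}, EvPatE_P V x γ x' →
      evss x γ x' ∈ S := fun h => hSm _ _ h.hx h.fi2
  have hcnt : ∀ {x x' : Fin 3 × Bool} {γ : List (Fin 3 × Bool)}, EvPatE_P V x γ x' →
      2 * (EvPatE_pr B).countP (fun p => decide (EvPatE_F p = evss x γ x' ∨
      EvPatE_F p = es x γ x')) = n := by
    intro x x' γ h
    exact EvPatE_cnt hd hB hC hV hP h (hSn _ (hmemS h)).2
  -- the first path
  have hne : EvPatE_pr B ≠ [] := by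
    intro h
    have := EvPatE_len B
    rw [h] at this
    simp at this
    omega
  obtain ⟨p1, hp1⟩ := List.exists_mem_of_ne_nil _ hne
  have P1 := hP p1 hp1
  generalize hx1 : ((0 : Fin 3), p1.1.1) = x1 at P1
  generalize hg1 : p1.1.2 = γ1 at P1
  generalize hx1' : ((0 : Fin 3), p1.2.1) = x1' at P1
  have hex : ∃ p ∈ EvPatE_pr B, ¬ (EvPatE_F p = evss x1 γ1 x1' ∨ EvPatE_F p = es x1 γ1 x1') := by
    by_contra hcon
    push Not at hcon
    have h1 := hcnt P1
    have h2 : (EvPatE_pr B).countP (fun p => decide (EvPatE_F p = evss x1 γ1 x1' ∨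
      EvPatE_F p = es x1 γ1 x1')) = (EvPatE_pr B).length := by
      rw [List.countP_eq_length]
      intro p hp
      simpa using hcon p hp
    rw [h2, EvPatE_len, hBl] at h1
    omega
  obtain ⟨p2, hp2, hn2⟩ := hex
  have P2 := hP p2 hp2
  have hF2 : EvPatE_F p2 = evss ((0 : Fin 3), p2.1.1) p2.1.2 ((0 : Fin 3), p2.2.1) := rfl
  generalize hx2 : ((0 : Fin 3), p2.1.1) = x2 at P2 hF2
  generalize hg2 : p2.1.2 = γ2 at P2 hF2
  generalize hx2' : ((0 : Fin 3), p2.2.1) = x2' at P2 hF2
  rw [hF2] at hn2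
  push Not at hn2
  obtain ⟨hn21, hn22⟩ := hn2
  -- the four states are different
  have d1 : evss x1 γ1 x1' ≠ es x1 γ1 x1' := st_ne hd P1.hγ P1.hx P1.hx' P1.fi
  have d2 : evss x2 γ2 x2' ≠ es x2 γ2 x2' := st_ne hd P2.hγ P2.hx P2.hx' P2.fi
  have d3 : es x2 γ2 x2' ≠ evss x1 γ1 x1' := fun h => hn22 ((P1.swap hd P2).1 h)
  have d4 : es x2 γ2 x2' ≠ es x1 γ1 x1' := by
    intro h
    apply hn21
    have := (P1.inv.swap hd P2).1 (by rw [h]; rfl)
    rw [this, EvPatE_es]
  have hSeq : S = {evss x1 γ1 x1', es x1 γ1 x1', evss x2 γ2 x2', es x2 γ2 x2'} := by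
    symm
    apply Finset.eq_of_subset_of_card_le
    · intro s hs
      simp only [Finset.mem_insert, Finset.mem_singleton] at hs
      rcases hs with rfl | rfl | rfl | rfl
      · exact hmemS P1
      · exact hmemS P1.inv
      · exact hmemS P2
      · exact hmemS P2.inv
    · rw [hS4]
      rw [Finset.card_insert_of_notMem, Finset.card_insert_of_notMem,
        Finset.card_insert_of_notMem, Finset.card_singleton]
      · simpa using d2
      · simp only [Finset.mem_insert, Finset.mem_singleton, not_or]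
        exact ⟨fun h => hn22 h.symm, fun h => d4 h.symm⟩
      · simp only [Finset.mem_insert, Finset.mem_singleton, not_or]
        exact ⟨d1, fun h => hn21 h.symm, fun h => d3 h.symm⟩
  -- labels
  set s1 := evss x1 γ1 x1' with hs1
  set e1 := es x1 γ1 x1' with he1
  set s2 := evss x2 γ2 x2' with hs2
  set e2 := es x2 γ2 x2' with he2
  let st : Bool → Bool → (Fin 3 × Bool) × (Fin 3 × Bool) := fun k d =>
    if k then (if d then s1 else e1) else (if d then s2 else e2)
  let lab : (Fin 3 × Bool) × (Fin 3 × Bool) → Bool × Bool := fun s =>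
    if s = s1 then (true, true) else if s = e1 then (true, false) else
      if s = s2 then (false, true) else (false, false)
  let g : Bool → FreeGroup (Fin 3) := fun k => if k then FreeGroup.mk γ1 else FreeGroup.mk γ2
  have key : ∀ p ∈ EvPatE_pr B, EvPatE_F p = st (lab (EvPatE_F p)).1 (lab (EvPatE_F p)).2 ∧
      EvPatE_G p = st (lab (EvPatE_F p)).1 (!(lab (EvPatE_F p)).2) ∧
      FreeGroup.mk p.1.2 = (if (lab (EvPatE_F p)).2 then g (lab (EvPatE_F p)).1
        else (g (lab (EvPatE_F p)).1)⁻¹) := by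
    intro p hp
    have Pp := hP p hp
    have hm : EvPatE_F p ∈ S := hmemS Pp
    rw [hSeq] at hm
    simp only [Finset.mem_insert, Finset.mem_singleton] at hm
    by_cases h1 : EvPatE_F p = s1
    · obtain ⟨a1, a2, a3⟩ := Pp.eq hd P1 h1
      have hG : EvPatE_G p = e1 := by
        show es _ _ _ = _
        rw [a1, a2, a3]
      simp only [lab, st, g, if_pos h1, if_true, Bool.not_true, Bool.false_eq_true, if_false]
      exact ⟨h1, hG, by rw [a2]⟩
    by_cases h2 : EvPatE_F p = e1
    · obtain ⟨a1, a2, a3⟩ := Pp.eq hd P1.inv h2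
      have hG : EvPatE_G p = s1 := by
        show es _ _ _ = _
        rw [a1, a2, a3, EvPatE_es]
      simp only [lab, st, g, if_neg h1, if_pos h2, if_true, Bool.not_false, Bool.false_eq_true,
        if_false]
      exact ⟨h2, hG, by rw [a2, FreeGroup.inv_mk]⟩
    by_cases h3 : EvPatE_F p = s2
    · obtain ⟨a1, a2, a3⟩ := Pp.eq hd P2 h3
      have hG : EvPatE_G p = e2 := by
        show es _ _ _ = _
        rw [a1, a2, a3]
      simp only [lab, st, g, if_neg h1, if_neg h2, if_pos h3, if_true, Bool.not_true,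
        Bool.false_eq_true, if_false]
      exact ⟨h3, hG, by rw [a2]⟩
    · have h4' : EvPatE_F p = e2 := by tauto
      obtain ⟨a1, a2, a3⟩ := Pp.eq hd P2.inv h4'
      have hG : EvPatE_G p = s2 := by
        show es _ _ _ = _
        rw [a1, a2, a3, EvPatE_es]
      simp only [lab, st, g, if_neg h1, if_neg h2, if_neg h3, if_true, Bool.not_false,
        Bool.false_eq_true, if_false]
      exact ⟨h4', hG, by rw [a2, FreeGroup.inv_mk]⟩
  refine ⟨fun k d => (st k d).1.2, (EvPatE_pr B).map (fun p => lab (EvPatE_F p)), ?_, ?_, ?_, ?_⟩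
  · -- consistency
    unfold Cons
    rw [EvPatE_cyc, EvPatE_map, List.map_map]
    apply List.sum_eq_zero
    intro a ha
    rw [List.mem_map] at ha
    obtain ⟨q, hq, rfl⟩ := ha
    have hadj := EvPatE_adj hq
    have hq1 : q.1 ∈ EvPatE_pr B := by
      have := List.mem_map_of_mem (f := Prod.fst) hq
      rwa [EvPatE_fst] at this
    have hq2 : q.2 ∈ EvPatE_pr B := by
      have h1 : q.2 ∈ (EvPatE_pr B).rotate 1 := by
        unfold EvPatE_pr at hq ⊢
        exact (List.of_mem_zip (a := q.1) (b := q.2) hq).2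
      simpa using h1
    obtain ⟨k1, k2, k3⟩ := key _ hq1
    obtain ⟨l1, l2, l3⟩ := key _ hq2
    simp only [Function.comp, Prod.map_fst, Prod.map_snd]
    rw [if_pos]
    rw [← k2, ← l1]
    show q.2.1.1 = !(!q.1.2.1)
    rw [Bool.not_not, hadj]
  · rw [List.countP_map]
    have h1 := hcnt P1
    rw [← h1]
    congr 1
    apply List.countP_congr
    intro p hp
    simp only [Function.comp, decide_eq_true_eq, lab, ← hs1, ← he1]
    by_cases h1 : EvPatE_F p = s1
    · simp [h1]
    by_cases h2 : EvPatE_F p = e1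
    · simp [h2, Ne.symm d1]
    by_cases h3 : EvPatE_F p = s2
    · simp [h3, hn21, hn22]
    · simp [h1, h2, h3]
  · rw [List.countP_map]
    have h1 := hcnt P2
    rw [← h1]
    congr 1
    apply List.countP_congr
    intro p hp
    have hm : EvPatE_F p ∈ S := hmemS (hP p hp)
    rw [hSeq] at hm
    simp only [Finset.mem_insert, Finset.mem_singleton] at hm
    simp only [Function.comp, decide_eq_true_eq, lab, ← hs2, ← he2]
    by_cases h1 : EvPatE_F p = s1
    · simp [h1, Ne.symm hn21, Ne.symm d3]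
    by_cases h2 : EvPatE_F p = e1
    · simp [h2, Ne.symm hn22, Ne.symm d4, Ne.symm d1]
    by_cases h3 : EvPatE_F p = s2
    · simp [h3, hn21, hn22]
    · have h4' : EvPatE_F p = e2 := by tauto
      simp [h4', d3, d4, Ne.symm d2]
  · refine ⟨g, ?_, ?_, ?_⟩
    · intro k
      cases k
      · exact In12_mk P2.hγ
      · exact In12_mk P1.hγ
    · have aux : ∀ {x x' : Fin 3 × Bool} {γ : List (Fin 3 × Bool)}, EvPatE_P V x γ x' →
          FreeGroup.mk γ = 1 → (evss x γ x').1.2 ≠ (es x γ x').1.2 := by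
        intro x x' γ h h1
        have hr : FreeGroup.IsReduced γ := by
          have := fi_red h.fi
          exact red_mid this ⟨[x], [x'], by simp⟩
        have hγ : γ = [] := by
          have h2 := hr.reduce_eq
          have h3 : (FreeGroup.mk γ).toWord = [] := by rw [h1]; simp
          rw [FreeGroup.toWord_mk, h2] at h3
          exact h3
        subst hγ
        have h2 := h.red
        simp only [List.headD_nil] at h2
        have h3 : x'.2 = x.2 := by
          by_contra h4
          apply h2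
          apply Prod.ext
          · rw [h.hx']; exact h.hx.symm
          · simp only [bar_snd]
            revert h4
            cases x.2 <;> cases x'.2 <;> simp
        show x.2 ≠ !x'.2
        rw [h3]
        simp
      intro k
      cases k
      · intro h
        exact aux P2 h
      · intro h
        exact aux P1 h
    · rw [← hV, cls]
      congr 1
      unfold gw
      rw [List.map_map, wB]
      conv_lhs => rw [← EvPatE_fst B]
      rw [List.flatMap_map, EvPatE_flat]
      congr 1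
      apply List.map_congr_left
      intro p hp
      obtain ⟨k1, k2, k3⟩ := key _ hp
      simp only [Function.comp]
      rw [← k1, ← k3]
      have : ((0 : Fin 3), p.1.1) :: p.1.2 = [((0 : Fin 3), p.1.1)] ++ p.1.2 := rfl
      rw [this, ← FreeGroup.mul_mk]
      rfl

end Pool.Agent.Sims
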