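import Pool.Agent.Sims.EvFac

/-!
# Module `EvPath` : blocks between the letters `a^{±1}`

* `wB B` : the word of a list of blocks `(ε, γ)` : `a^ε γ`, `γ` a list of letters of the generators `b`, `c`.
* `blk`: rotate `rep V` such that it begins with a letter `a^{±1}` and split it (induction on lists: every list is `γ₀ ++ wB B`; here `γ₀ = []`).
* `blk_fac`: for cyclically consecutive blocks `t, t'` (positions `i`, `i+1` modulo the length): the path `a^{t.1} t.2 a^{t'.1}` is a cyclic factor: rotate; for a list with at least two blocks.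
  (State with `B = B₁ ++ t :: t' :: B₂` or `B = t' :: (B₁ ++ [t])`.)
* `det_path`: `V` with `DetL V y` for all `y.1 ≠ 0`.  Two paths `p γ x'` and `p δ x''` (up to inversion factors of `V`), `γ`, `δ` without letters `a^{±1}`, `x'.1 = x''.1 = 0`, the first letters after `p` agree: then
  `γ = δ` and `x' = x''`.  Induction on `γ`: if `γ = []` the first letter is `x'`, of generator `0`, so `δ = []` and `x'' = x'`.  If `γ = q :: γ'` then `δ = q :: δ'`; the next letters of the two paths agree by `DetL V q`
  (`ps_fi`, `fi_sub`: `Ps V p q t`, `Ps V p q t'` imply `t = t'`); induction for the paths `q γ' x'` and `q δ' x''`.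
* `det_pathT`: the same with `DetT`: paths `p γ x'` and `p' δ x''` with `eT p p'`, and the first letters after `p`, `p'` agree and are not `a^{±1}`: then `γ = δ`.  (The next letters are equal modulo `eT`: if one of them
  is `a^{±1}` so is the other one and both paths end; otherwise they are equal.)
* `no_pal`: a nonempty reduced word `γ` is not equal to its inverse `invRev γ` (for `γ = invRev γ`: the middle letter would be its own inverse, or the two middle letters would be inverse to each other).
Difficulty 3.
-/

namespace Pool.Agent.Sims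

/-- the word of a list of blocks -/
def wB (B : List (Bool × List (Fin 3 × Bool))) : List (Fin 3 × Bool) :=
  B.flatMap (fun t => ((0 : Fin 3), t.1) :: t.2)

theorem EvPath_app (B C : List (Bool × List (Fin 3 × Bool))) : wB (B ++ C) = wB B ++ wB C := by
  simp [wB]

theorem EvPath_cons (t : Bool × List (Fin 3 × Bool)) (C : List (Bool × List (Fin 3 × Bool))) :
    wB (t :: C) = ((0 : Fin 3), t.1) :: (t.2 ++ wB C) := by
  simp [wB]

theorem EvPath_split : ∀ L : List (Fin 3 × Bool), ∃ (γ : List (Fin 3 × Bool))
    (B : List (Bool × List (Fin 3 × Bool))), (∀ y ∈ γ, y.1 ≠ 0) ∧ (∀ t ∈ B, ∀ x ∈ t.2, x.1 ≠ 0) ∧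
      L = γ ++ wB B ∧ B.length = cntL L 0
  | [] => ⟨[], [], by simp, by simp, by simp [wB], by simp [cntL]⟩
  | y :: L => by
    obtain ⟨γ, B, h1, h2, h3, h4⟩ := EvPath_split L
    by_cases hy : y.1 = 0
    · refine ⟨[], (y.2, γ) :: B, by simp, ?_, ?_, ?_⟩
      · intro t ht
        rcases List.mem_cons.1 ht with rfl | ht
        · exact h1
        · exact h2 t ht
      · rw [EvPath_cons, List.nil_append, h3, ← hy]
      · rw [List.length_cons, h4]
        simp [cntL, hy]
    · refine ⟨y :: γ, B, ?_, h2, ?_, ?_⟩
      · intro z hz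
        rcases List.mem_cons.1 hz with rfl | hz
        · exact hy
        · exact h1 z hz
      · rw [List.cons_append, h3]
      · rw [h4]
        simp [cntL, hy]

theorem EvPath_red2 {V : CC} {a b : Fin 3 × Bool} (h : FI V [a, b]) : a ≠ bar b := by
  intro e
  have h3 := fi_red h
  rw [e] at h3
  unfold FreeGroup.IsReduced at h3
  simp [bar] at h3

theorem blk {V : CC} (h : 0 < cnt V 0) : ∃ B : List (Bool × List (Fin 3 × Bool)), B ≠ [] ∧
    (∀ t ∈ B, ∀ x ∈ t.2, x.1 ≠ 0) ∧ CR (wB B) ∧ cls (wB B) = V ∧ B.length = cnt V 0 := by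
  have h0 : 0 < cntL (rep V) 0 := h
  have h1 : ∃ x ∈ rep V, x.1 = 0 := by
    unfold cntL at h0
    rw [List.countP_pos_iff] at h0
    obtain ⟨x, hx, hx0⟩ := h0
    exact ⟨x, hx, by simpa using hx0⟩
  obtain ⟨x, hx, hx0⟩ := h1
  obtain ⟨p, q, hpq⟩ := List.append_of_mem hx
  have hr : rep V ~r (x :: (q ++ p)) := by
    rw [hpq]
    have h2 : (p ++ x :: q) ~r ((x :: q) ++ p) := List.isRotated_append
    simpa using h2
  obtain ⟨γ, B, h1, h2, h3, h4⟩ := EvPath_split (x :: (q ++ p))
  have hγ : γ = [] := by
    cases γ with
    | nil => rfl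
    | cons a γ =>
      exfalso
      simp only [List.cons_append, List.cons.injEq] at h3
      apply h1 a (by simp)
      rw [← h3.1, hx0]
  subst hγ
  rw [List.nil_append] at h3
  have hB : B ≠ [] := by
    rintro rfl
    simp [wB] at h3
  refine ⟨B, hB, h2, ?_, ?_, ?_⟩
  · rw [← h3]
    exact CR_of_rotated hr (rep_CR V)
  · rw [← h3, ← cls_of_rotated hr, cls_rep]
  · rw [h4]
    exact (cntL_rotated hr 0).symm

theorem blk_fac1 {V : CC} {B1 B2 : List (Bool × List (Fin 3 × Bool))}
    {t t' : Bool × List (Fin 3 × Bool)} (hC : CR (wB (B1 ++ t :: t' :: B2)))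
    (hV : cls (wB (B1 ++ t :: t' :: B2)) = V) :
    Fac V (((0 : Fin 3), t.1) :: (t.2 ++ [((0 : Fin 3), t'.1)])) := by
  have h0 : Fac V (wB (B1 ++ t :: t' :: B2)) := ⟨[], by simpa using hC, by simpa using hV⟩
  rw [EvPath_app, EvPath_cons, EvPath_cons] at h0
  have h1 : Fac V (wB B1 ++ (((0 : Fin 3), t.1) :: (t.2 ++ [((0 : Fin 3), t'.1)])) ++
      (t'.2 ++ wB B2)) := by simpa [List.append_assoc] using h0
  exact fac_sub h1

theorem blk_fac2 {V : CC} {B1 : List (Bool × List (Fin 3 × Bool))}
    {t t' : Bool × List (Fin 3 × Bool)} (hC : CR (wB (t' :: (B1 ++ [t]))))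
    (hV : cls (wB (t' :: (B1 ++ [t]))) = V) :
    Fac V (((0 : Fin 3), t.1) :: (t.2 ++ [((0 : Fin 3), t'.1)])) := by
  have hr : wB (t' :: (B1 ++ [t])) ~r
      ((((0 : Fin 3), t.1) :: (t.2 ++ [((0 : Fin 3), t'.1)])) ++ (t'.2 ++ wB B1)) := by
    rw [EvPath_cons, EvPath_app, EvPath_cons]
    have h2 : ((((0 : Fin 3), t'.1) :: (t'.2 ++ wB B1)) ++ (((0 : Fin 3), t.1) :: t.2)) ~r
      ((((0 : Fin 3), t.1) :: t.2) ++ (((0 : Fin 3), t'.1) :: (t'.2 ++ wB B1))) :=
      List.isRotated_append
    simpa [List.append_assoc, wB] using h2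
  exact ⟨t'.2 ++ wB B1, CR_of_rotated hr hC, by rw [← cls_of_rotated hr, hV]⟩

theorem det_path {V : CC} (hd : ∀ y : Fin 3 × Bool, y.1 ≠ 0 → DetL V y)
    {γ δ : List (Fin 3 × Bool)} (hγ : ∀ y ∈ γ, y.1 ≠ 0) (hδ : ∀ y ∈ δ, y.1 ≠ 0)
    {p x' x'' : Fin 3 × Bool} (hx' : x'.1 = 0) (hx'' : x''.1 = 0)
    (h1 : FI V (p :: (γ ++ [x']))) (h2 : FI V (p :: (δ ++ [x''])))
    (hh : (γ ++ [x']).head? = (δ ++ [x'']).head?) : γ = δ ∧ x' = x'' := by
  induction γ generalizing p δ with
  | nil =>
    cases δ with
    | nil =>
      simp only [List.nil_append, List.head?_cons, Option.some.injEq] at hh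
      exact ⟨rfl, hh⟩
    | cons d δ =>
      exfalso
      simp only [List.nil_append, List.cons_append, List.head?_cons, Option.some.injEq] at hh
      exact hδ d (by simp) (by rw [← hh, hx'])
  | cons q γ ih =>
    cases δ with
    | nil =>
      exfalso
      simp only [List.nil_append, List.cons_append, List.head?_cons, Option.some.injEq] at hh
      exact hγ q (by simp) (by rw [hh, hx''])
    | cons d δ =>
      simp only [List.cons_append, List.head?_cons, Option.some.injEq] at hh
      subst hh
      have hq : q.1 ≠ 0 := hγ q (by simp)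
      have aux : ∀ (ε : List (Fin 3 × Bool)) (z : Fin 3 × Bool),
          FI V (p :: (q :: ε ++ [z])) → ∃ t, (ε ++ [z]).head? = some t ∧ Ps V p q t := by
        intro ε z h
        cases ε with
        | nil =>
          refine ⟨z, rfl, ?_⟩
          rw [ps_fi]
          simpa using h
        | cons e ε =>
          refine ⟨e, rfl, ?_⟩
          rw [ps_fi]
          exact fi_sub (u := []) (v := [p, q, e]) (w := ε ++ [z]) (by simpa using h)
      obtain ⟨t, ht, ht'⟩ := aux γ x' h1
      obtain ⟨u, hu, hu'⟩ := aux δ x'' h2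
      have htu : t = u := (hd q hq p t p u ht' hu').1 rfl
      have h3 := ih (fun y hy => hγ y (by simp [hy])) (fun y hy => hδ y (by simp [hy]))
        (fi_sub (u := [p]) (v := q :: (γ ++ [x'])) (w := []) (by simpa using h1))
        (fi_sub (u := [p]) (v := q :: (δ ++ [x''])) (w := []) (by simpa using h2))
        (by rw [ht, hu, htu])
      exact ⟨by rw [h3.1], h3.2⟩

theorem det_pathT {V : CC} (hd : ∀ y : Fin 3 × Bool, y.1 ≠ 0 → DetT V y)
    {γ δ : List (Fin 3 × Bool)} (hγ : ∀ y ∈ γ, y.1 ≠ 0) (hδ : ∀ y ∈ δ, y.1 ≠ 0)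
    {p p' x' x'' : Fin 3 × Bool} (hp : eT p p') (hx' : x'.1 = 0) (hx'' : x''.1 = 0)
    (h1 : FI V (p :: (γ ++ [x']))) (h2 : FI V (p' :: (δ ++ [x''])))
    (hn : γ ≠ []) (hh : γ.head? = δ.head?) : γ = δ := by
  induction γ generalizing p p' δ with
  | nil => exact absurd rfl hn
  | cons q γ ih =>
    cases δ with
    | nil => simp at hh
    | cons d δ =>
      simp only [List.head?_cons, Option.some.injEq] at hh
      subst hh
      have hq : q.1 ≠ 0 := hγ q (by simp)
      have aux : ∀ (r : Fin 3 × Bool) (ε : List (Fin 3 × Bool)) (z : Fin 3 × Bool),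
          FI V (r :: (q :: ε ++ [z])) → Ps V r q (ε.headD z) := by
        intro r ε z h
        cases ε with
        | nil =>
          rw [ps_fi]
          simpa using h
        | cons e ε =>
          rw [ps_fi]
          exact fi_sub (u := []) (v := [r, q, e]) (w := ε ++ [z]) (by simpa using h)
      have hT := (hd q hq _ _ _ _ (aux p γ x' h1) (aux p' δ x'' h2)).1 hp
      cases γ with
      | nil =>
        cases δ with
        | nil => rfl
        | cons e δ =>
          exfalso
          simp only [List.headD_nil, List.headD_cons] at hT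
          have he : e.1 ≠ 0 := hδ e (by simp)
          rcases hT with hT | hT
          · exact he (by rw [← hT, hx'])
          · exact he hT.2
      | cons r γ =>
        have hr : r.1 ≠ 0 := hγ r (by simp)
        cases δ with
        | nil =>
          exfalso
          simp only [List.headD_nil, List.headD_cons] at hT
          rcases hT with hT | hT
          · exact hr (by rw [hT, hx''])
          · exact hr hT.1
        | cons e δ =>
          simp only [List.headD_cons] at hT
          have hre : r = e := by
            rcases hT with hT | hT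
            · exact hT
            · exact absurd hT.1 hr
          subst hre
          have h3 := ih (δ := r :: δ) (p := q) (p' := q) (fun y hy => hγ y (by simp [hy]))
            (fun y hy => hδ y (by simp [hy])) (Or.inl rfl)
            (fi_sub (u := [p]) (v := q :: (r :: γ ++ [x'])) (w := []) (by simpa using h1))
            (fi_sub (u := [p']) (v := q :: (r :: δ ++ [x''])) (w := []) (by simpa using h2))
            (by simp) rfl
          rw [h3]

theorem no_pal {γ : List (Fin 3 × Bool)} (hr : FreeGroup.IsReduced γ) (hn : γ ≠ []) :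
    γ ≠ FreeGroup.invRev γ := by
  have key : ∀ (n : ℕ) (γ : List (Fin 3 × Bool)), γ.length = n → FreeGroup.IsReduced γ →
      γ ≠ [] → γ ≠ FreeGroup.invRev γ := by
    intro n
    induction n using Nat.strong_induction_on with
    | _ n ih =>
      intro γ hl hr hn h
      cases γ with
      | nil => exact hn rfl
      | cons a m =>
        rcases List.eq_nil_or_concat m with h1 | ⟨m, b, rfl⟩
        · subst h1
          simp only [FreeGroup.invRev, List.map_cons, List.map_nil, List.reverse_cons,
            List.reverse_nil, List.nil_append, List.cons.injEq, and_true] at h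
          have := congrArg Prod.snd h
          simp at this
        · rw [List.concat_eq_append] at *
          have h2 : FreeGroup.invRev (a :: (m ++ [b])) = bar b :: (FreeGroup.invRev m ++ [bar a]) := by
            simp [FreeGroup.invRev, bar]
          rw [h2] at h
          simp only [List.cons.injEq] at h
          obtain ⟨h3, h4⟩ := h
          have h5 := List.append_inj' h4 rfl
          by_cases hm : m = []
          · subst hm
            rw [h3] at hr
            unfold FreeGroup.IsReduced at hr
            simp [bar] at hr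
          · refine ih m.length ?_ m rfl (red_mid hr ⟨[a], [b], by simp⟩) hm h5.1
            rw [← hl]
            simp
  exact key _ γ rfl hr hn

end Pool.Agent.Sims
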