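import Pool.Agent.Sims.Red
import Pool.Agent.Sims.EvPath

/-!
# Module `EvPatT` : the pattern in the 5-cycle case

`Five n V` with `r 0, …, r 3`; `DetT V y` for `y.1 ≠ 0`.  Blocks `B` (`blk`), paths `x γ x'` as in `EvPatE`.  Group the blocks: maximal runs of blocks with `γ = []` give powers `a^{j}`; so the cyclic word is
`Π a^{j_i} γ_i` with `j_i ≠ 0`, `γ_i ≠ []` without letters `a^{±1}`.  (There is a block with `γ ≠ []` since `cnt V 1 = n > 0`; rotate such that the word ends with a nonempty `γ`.  Or use a decomposition like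
`exists_syl`/`SylA_group` for the generator `0` and collect the letters between the `a`-powers.)
The first letter `q` of `γ_i`: an edge between `a^{±1}` and `q⁻¹`, so `q⁻¹ ∈ {r 0, r 3}` (the block `T = {a, a⁻¹}` has degree `n` in the contracted graph: `capC V (PrC 0) = n` as the 5-cycle has the edges `T–r 0`, `T–r 3` with `n/2` each,
and ... use: the degree of `r 1` and `r 2` is `n` and is used up by their two neighbours, so they have no edges to `T`).  In the same way the first letter of `γ_i⁻¹` is the inverse of `r 0` or `r 3`.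
(1) If `γ_i` and `γ_j` begin with the same letter they are equal (`det_pathT`); the same for inverses.
(2) `γ_i` and `γ_i⁻¹` do not begin with the same letter (`no_pal` and (1)).  So if `γ_i` begins with `(r 0)⁻¹` then `γ_i⁻¹` begins with `(r 3)⁻¹` and vice versa.  Let `g = mk γ` for a `γ = γ_i` or `γ_i⁻¹` which begins with `(r 0)⁻¹`.
    All `γ_i` are `γ` or `invRev γ`.
(3) Their number is `n/2`: every `γ_i` contains exactly one of the edges between `T` and `r 0` (at its beginning or at its end), the number of these edges is `edgS V T {r 0} = n/2`.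
`V = mk (gT j g)`, `j` the list of the `(j_i, [γ_i = γ])`.
Difficulty 5.
-/

namespace Pool.Agent.Sims

open FreeGroup (of)

/-! ### grouping of blocks -/

theorem EvPatT_wB_cons (t : Bool × List (Fin 3 × Bool)) (B : List (Bool × List (Fin 3 × Bool))) :
    wB (t :: B) = ((0 : Fin 3), t.1) :: (t.2 ++ wB B) := by
  simp [wB]

theorem EvPatT_wB_append (B B' : List (Bool × List (Fin 3 × Bool))) :
    wB (B ++ B') = wB B ++ wB B' := by
  simp [wB]

theorem EvPatT_lett0 (b : Bool) : lett ((0 : Fin 3), b) = of 0 ^ (if b then (1 : ℤ) else -1) := by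
  cases b
  · simp [lett_false]
  · simp [lett_true]

theorem EvPatT_mk_cons (x : Fin 3 × Bool) (l : List (Fin 3 × Bool)) :
    FreeGroup.mk (x :: l) = lett x * FreeGroup.mk l := by
  simp [lett, FreeGroup.mul_mk]

theorem EvPatT_group : ∀ (B : List (Bool × List (Fin 3 × Bool))) (hB : B ≠ []),
    FreeGroup.IsReduced (wB B) → (B.getLast hB).2 ≠ [] →
    ∃ L : List (ℤ × List (Fin 3 × Bool)), L ≠ [] ∧
      L.length = B.countP (fun t => decide (t.2 ≠ [])) ∧
      (∀ t ∈ L, t.1 ≠ 0 ∧ t.2 ≠ [] ∧ ∃ ε, (ε, t.2) ∈ B) ∧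
      FreeGroup.mk (wB B) = (L.map (fun t => of (0 : Fin 3) ^ t.1 * FreeGroup.mk t.2)).prod ∧
      (∀ u ∈ L.head?, ∀ b ∈ B.head?, (0 < u.1 ↔ b.1 = true)) := by
  intro B
  induction B with
  | nil => intro h; exact absurd rfl h
  | cons t B' ih =>
    intro hB hr hlast
    by_cases hB' : B' = []
    · subst hB'
      have ht : t.2 ≠ [] := by simpa using hlast
      refine ⟨[(if t.1 then (1 : ℤ) else -1, t.2)], by simp, ?_, ?_, ?_, ?_⟩
      · simp [ht]
      · intro u hu
        rw [List.mem_singleton] at hu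
        subst hu
        refine ⟨?_, ht, t.1, by simp⟩
        cases t.1 <;> simp
      · rw [EvPatT_wB_cons, EvPatT_mk_cons, EvPatT_lett0]
        simp [wB]
      · intro u hu b hb
        simp only [List.head?_cons, Option.mem_def, Option.some.injEq] at hu hb
        subst hu
        subst hb
        cases t.1 <;> simp
    · have hr' : FreeGroup.IsReduced (wB B') := by
        rw [EvPatT_wB_cons] at hr
        refine red_mid hr ⟨((0 : Fin 3), t.1) :: t.2, [], by simp⟩
      have hlast' : (B'.getLast hB').2 ≠ [] := by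
        rw [List.getLast_cons hB'] at hlast
        exact hlast
      obtain ⟨L', hL', hlen, hmem, hprod, hsgn⟩ := ih hB' hr' hlast'
      obtain ⟨u', L'', rfl⟩ := List.exists_cons_of_ne_nil hL'
      obtain ⟨t', B'', rfl⟩ := List.exists_cons_of_ne_nil hB'
      by_cases ht : t.2 = []
      · -- same sign
        have hsame : t.1 = t'.1 := by
          rw [EvPatT_wB_cons, ht, EvPatT_wB_cons] at hr
          have h1 := (List.isChain_cons_cons.1 hr).1
          exact h1 rfl
        have hs := hsgn u' (by simp) t' (by simp)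
        have hu0 := (hmem u' (by simp)).1
        refine ⟨((if t.1 then (1 : ℤ) else -1) + u'.1, u'.2) :: L'', by simp, ?_, ?_, ?_, ?_⟩
        · rw [List.countP_cons_of_neg (by simp [ht])]
          simpa using hlen
        · intro u hu
          rcases List.mem_cons.1 hu with h | h
          · subst h
            refine ⟨?_, (hmem u' (by simp)).2.1, ?_⟩
            · rw [hsame]
              rcases h2 : t'.1 with _ | _
              · rw [h2] at hs
                have : ¬ (0 < u'.1) := fun h3 => by simpa using hs.1 h3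
                simp only [Bool.false_eq_true, if_false]
                omega
              · rw [h2] at hs
                have : 0 < u'.1 := hs.2 rfl
                simp only [if_true]
                omega
            · obtain ⟨ε, hε⟩ := (hmem u' (by simp)).2.2
              exact ⟨ε, List.mem_cons_of_mem _ hε⟩
          · obtain ⟨h1, h2, ε, hε⟩ := hmem u (List.mem_cons_of_mem _ h)
            exact ⟨h1, h2, ε, List.mem_cons_of_mem _ hε⟩
        · rw [EvPatT_wB_cons, ht, List.nil_append, EvPatT_mk_cons, hprod, EvPatT_lett0]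
          simp only [List.map_cons, List.prod_cons]
          rw [zpow_add]
          simp only [mul_assoc]
        · intro u hu b hb
          simp only [List.head?_cons, Option.mem_def, Option.some.injEq] at hu hb
          subst hu
          subst hb
          rw [hsame]
          rcases h2 : t'.1 with _ | _
          · rw [h2] at hs
            have : ¬ (0 < u'.1) := fun h3 => by simpa using hs.1 h3
            simp only [Bool.false_eq_true, if_false, iff_false]
            omega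
          · rw [h2] at hs
            have : 0 < u'.1 := hs.2 rfl
            simp only [if_true, iff_true]
            omega
      · refine ⟨(if t.1 then (1 : ℤ) else -1, t.2) :: u' :: L'', by simp, ?_, ?_, ?_, ?_⟩
        · rw [List.countP_cons_of_pos (by simp [ht])]
          simpa using hlen
        · intro u hu
          rcases List.mem_cons.1 hu with h | h
          · subst h
            refine ⟨?_, ht, t.1, by simp⟩
            cases t.1 <;> simp
          · obtain ⟨h1, h2, ε, hε⟩ := hmem u h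
            exact ⟨h1, h2, ε, List.mem_cons_of_mem _ hε⟩
        · rw [EvPatT_wB_cons, EvPatT_mk_cons, ← FreeGroup.mul_mk, hprod, EvPatT_lett0]
          simp only [List.map_cons, List.prod_cons, mul_assoc]
        · intro u hu b hb
          simp only [List.head?_cons, Option.mem_def, Option.some.injEq] at hu hb
          subst hu
          subst hb
          cases t.1 <;> simp

/-! ### the capacity of the pair cut -/

theorem EvPatT_lin1 (γ : List (Fin 3 × Bool)) (hγ : ∀ y ∈ γ, y.1 ≠ 0) (q z : Fin 3 × Bool)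
    (hq : q.1 ≠ 0) (hz : z.1 = 0) :
    lin (fun x y => if PrC 0 x = PrC 0 (bar y) then 0 else 1) q γ z = 1 := by
  induction γ generalizing q with
  | nil => simp [lin, PrC, hq, hz]
  | cons a γ ih =>
    have ha : a.1 ≠ 0 := hγ a (by simp)
    show (if PrC 0 q = PrC 0 (bar a) then 0 else 1) + _ = 1
    rw [ih (fun y hy => hγ y (List.mem_cons_of_mem _ hy)) a ha]
    simp [PrC, hq, ha]

theorem EvPatT_lin2 (γ : List (Fin 3 × Bool)) (hγ : ∀ y ∈ γ, y.1 ≠ 0) (x z : Fin 3 × Bool)
    (hx : x.1 = 0) (hz : z.1 = 0) :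
    lin (fun x y => if PrC 0 x = PrC 0 (bar y) then 0 else 1) x γ z =
      if γ ≠ [] then 2 else 0 := by
  cases γ with
  | nil => simp [lin, PrC, hx, hz]
  | cons a γ =>
    have ha : a.1 ≠ 0 := hγ a (by simp)
    show (if PrC 0 x = PrC 0 (bar a) then 0 else 1) +
      lin (fun x y => if PrC 0 x = PrC 0 (bar y) then 0 else 1) a γ z = _
    rw [EvPatT_lin1 γ (fun y hy => hγ y (List.mem_cons_of_mem _ hy)) a z ha hz]
    simp [PrC, hx, ha]

theorem EvPatT_lin3 (B : List (Bool × List (Fin 3 × Bool)))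
    (hB : ∀ t ∈ B, ∀ x ∈ t.2, x.1 ≠ 0) (γ : List (Fin 3 × Bool)) (hγ : ∀ y ∈ γ, y.1 ≠ 0)
    (x z : Fin 3 × Bool) (hx : x.1 = 0) (hz : z.1 = 0) :
    lin (fun x y => if PrC 0 x = PrC 0 (bar y) then 0 else 1) x (γ ++ wB B) z =
      (if γ ≠ [] then 2 else 0) + 2 * B.countP (fun t => decide (t.2 ≠ [])) := by
  induction B generalizing γ x with
  | nil =>
    have : γ ++ wB [] = γ := by simp [wB]
    rw [this, EvPatT_lin2 γ hγ x z hx hz]
    simp
  | cons t B ih =>
    rw [EvPatT_wB_cons, lin_append, EvPatT_lin2 γ hγ x ((0 : Fin 3), t.1) hx rfl,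
      ih (fun t' ht' => hB t' (List.mem_cons_of_mem _ ht')) t.2 (hB t (by simp))
        ((0 : Fin 3), t.1) rfl, List.countP_cons]
    by_cases ht : t.2 = [] <;> simp [ht] <;> omega

theorem EvPatT_cap (B : List (Bool × List (Fin 3 × Bool))) (hne : B ≠ [])
    (hB : ∀ t ∈ B, ∀ x ∈ t.2, x.1 ≠ 0) :
    cap (wB B) (PrC 0) = 2 * B.countP (fun t => decide (t.2 ≠ [])) := by
  obtain ⟨t, B', rfl⟩ := List.exists_cons_of_ne_nil hne
  unfold cap
  rw [EvPatT_wB_cons]
  show lin _ ((0 : Fin 3), t.1) (t.2 ++ wB B') ((0 : Fin 3), t.1) = _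
  rw [EvPatT_lin3 B' (fun t' ht' => hB t' (List.mem_cons_of_mem _ ht')) t.2 (hB t (by simp))
        ((0 : Fin 3), t.1) ((0 : Fin 3), t.1) rfl rfl, List.countP_cons]
  by_cases ht : t.2 = [] <;> simp [ht] <;> omega

/-! ### edges -/

theorem EvPatT_surj {r : Fin 4 → Fin 3 × Bool} (hr : Function.Injective r)
    (h0 : ∀ i, (r i).1 ≠ 0) (x : Fin 3 × Bool) (hx : x.1 ≠ 0) : ∃ i, r i = x := by
  have h1 : (Finset.univ.image r) = Finset.univ.filter (fun x : Fin 3 × Bool => x.1 ≠ 0) := by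
    apply Finset.eq_of_subset_of_card_le
    · intro y hy
      obtain ⟨i, _, rfl⟩ := Finset.mem_image.1 hy
      exact Finset.mem_filter.2 ⟨Finset.mem_univ _, h0 i⟩
    · rw [Finset.card_image_of_injective _ hr]
      decide
  have h2 : x ∈ Finset.univ.image r := by
    rw [h1]
    exact Finset.mem_filter.2 ⟨Finset.mem_univ _, hx⟩
  obtain ⟨i, _, hi⟩ := Finset.mem_image.1 h2
  exact ⟨i, hi⟩

/-- three disjoint sets of neighbours -/
theorem EvPatT_three (V : CC) (P A B C : Ct) (hPA : ∀ x, P x = true → A x = false)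
    (hPB : ∀ x, P x = true → B x = false) (hPC : ∀ x, P x = true → C x = false)
    (hAB : ∀ x, A x = true → B x = false) (hAC : ∀ x, A x = true → C x = false)
    (hBC : ∀ x, B x = true → C x = false) :
    edgS V P A + edgS V P B + edgS V P C ≤ capC V P := by
  have h1 := edgS_union V P A (fun x => B x || C x) hPA
    (fun x hx => by simp [hPB x hx, hPC x hx]) (fun x hx => by simp [hAB x hx, hAC x hx])
  have h2 := edgS_union V P B C hPB hPC hBC
  have h3 : edgS V P (fun x => A x || (B x || C x)) ≤ edgS V P (fun x => !P x) := by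
    apply edgS_mono V (fun x hx => hx)
    intro x hx
    by_contra hcon
    have hP : P x = true := by simpa using hcon
    simp [hPA x hP, hPB x hP, hPC x hP] at hx
  rw [capC_edgS]
  omega

theorem EvPatT_sgl_disj {x y : Fin 3 × Bool} (h : x ≠ y) :
    ∀ z, sgl x z = true → sgl y z = false := by
  intro z hz
  have : z = x := by simpa [sgl] using hz
  subst this
  simpa [sgl] using h

theorem EvPatT_sgl_PrC {x : Fin 3 × Bool} (h : x.1 ≠ 0) :
    ∀ z, sgl x z = true → PrC 0 z = false := by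
  intro z hz
  have : z = x := by simpa [sgl] using hz
  subst this
  simpa [PrC] using h

theorem EvPatT_PrC_sgl {x : Fin 3 × Bool} (h : x.1 ≠ 0) :
    ∀ z, PrC 0 z = true → sgl x z = false := by
  intro z hz
  by_contra hcon
  have h2 : sgl x z = true := by simpa using hcon
  rw [EvPatT_sgl_PrC h z h2] at hz
  exact absurd hz (by simp)

/-- the degrees in the contracted graph -/
theorem EvPatT_deg {n : ℕ} {V : CC} (E : Eq3 n V) {r : Fin 4 → Fin 3 × Bool}
    (hr : Function.Injective r) (h0 : ∀ i, (r i).1 ≠ 0)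
    (e0 : 2 * edgS V (PrC 0) (sgl (r 0)) = n) (e1 : 2 * edgS V (sgl (r 0)) (sgl (r 1)) = n)
    (e2 : 2 * edgS V (sgl (r 1)) (sgl (r 2)) = n) (e3 : 2 * edgS V (sgl (r 2)) (sgl (r 3)) = n)
    (e4 : 2 * edgS V (sgl (r 3)) (PrC 0) = n) :
    edgS V (PrC 0) (sgl (r 1)) = 0 ∧ edgS V (PrC 0) (sgl (r 2)) = 0 ∧ capC V (PrC 0) = n := by
  have hne : ∀ i j : Fin 4, i ≠ j → r i ≠ r j := fun i j h hc => h (hr hc)
  have f1 : edgS V (PrC 0) (sgl (r 1)) = 0 := by
    have h := EvPatT_three V (sgl (r 1)) (sgl (r 0)) (sgl (r 2)) (PrC 0)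
      (EvPatT_sgl_disj (hne _ _ (by decide))) (EvPatT_sgl_disj (hne _ _ (by decide)))
      (EvPatT_sgl_PrC (h0 _)) (EvPatT_sgl_disj (hne _ _ (by decide)))
      (EvPatT_sgl_PrC (h0 _)) (EvPatT_sgl_PrC (h0 _))
    rw [capC_sgl, E.c, edgS_comm V (sgl (r 1)) (sgl (r 0)), edgS_comm V (sgl (r 1)) (PrC 0)] at h
    omega
  have f2 : edgS V (PrC 0) (sgl (r 2)) = 0 := by
    have h := EvPatT_three V (sgl (r 2)) (sgl (r 1)) (sgl (r 3)) (PrC 0)
      (EvPatT_sgl_disj (hne _ _ (by decide))) (EvPatT_sgl_disj (hne _ _ (by decide)))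
      (EvPatT_sgl_PrC (h0 _)) (EvPatT_sgl_disj (hne _ _ (by decide)))
      (EvPatT_sgl_PrC (h0 _)) (EvPatT_sgl_PrC (h0 _))
    rw [capC_sgl, E.c, edgS_comm V (sgl (r 2)) (sgl (r 1)), edgS_comm V (sgl (r 2)) (PrC 0)] at h
    omega
  refine ⟨f1, f2, ?_⟩
  rw [capC_edgS]
  have g : edgS V (PrC 0) (fun x => !PrC 0 x) =
      edgS V (PrC 0) (fun x => sgl (r 0) x || (sgl (r 1) x || (sgl (r 2) x || sgl (r 3) x))) := by
    apply edgS_congr V (fun x => rfl)
    intro x
    by_cases hx : x.1 = 0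
    · have h1 : PrC 0 x = true := by simpa [PrC] using hx
      rw [h1, EvPatT_PrC_sgl (h0 0) x h1, EvPatT_PrC_sgl (h0 1) x h1, EvPatT_PrC_sgl (h0 2) x h1,
        EvPatT_PrC_sgl (h0 3) x h1]
      rfl
    · have h1 : PrC 0 x = false := by simpa [PrC] using hx
      obtain ⟨i, hi⟩ := EvPatT_surj hr h0 x hx
      rw [h1]
      have h2 : sgl (r i) x = true := by simp [sgl, hi]
      fin_cases i <;> simp_all
  have g1 := edgS_union V (PrC 0) (sgl (r 0)) (fun x => sgl (r 1) x || (sgl (r 2) x || sgl (r 3) x))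
    (EvPatT_PrC_sgl (h0 0))
    (fun x hx => by
      simp [EvPatT_PrC_sgl (h0 1) x hx, EvPatT_PrC_sgl (h0 2) x hx, EvPatT_PrC_sgl (h0 3) x hx])
    (fun x hx => by
      simp [EvPatT_sgl_disj (hne 0 1 (by decide)) x hx, EvPatT_sgl_disj (hne 0 2 (by decide)) x hx,
        EvPatT_sgl_disj (hne 0 3 (by decide)) x hx])
  have g2 := edgS_union V (PrC 0) (sgl (r 1)) (fun x => sgl (r 2) x || sgl (r 3) x)
    (EvPatT_PrC_sgl (h0 1))
    (fun x hx => by
      simp [EvPatT_PrC_sgl (h0 2) x hx, EvPatT_PrC_sgl (h0 3) x hx])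
    (fun x hx => by
      simp [EvPatT_sgl_disj (hne 1 2 (by decide)) x hx,
        EvPatT_sgl_disj (hne 1 3 (by decide)) x hx])
  have g3 := edgS_union V (PrC 0) (sgl (r 2)) (sgl (r 3))
    (EvPatT_PrC_sgl (h0 2)) (EvPatT_PrC_sgl (h0 3)) (EvPatT_sgl_disj (hne 2 3 (by decide)))
  rw [edgS_comm V (sgl (r 3)) (PrC 0)] at e4
  omega

/-! ### paths -/

/-- `γ` is the middle part of a path between letters `a^{±1}` -/
def EvPatT_P (V : CC) (γ : List (Fin 3 × Bool)) : Prop :=
  (∀ y ∈ γ, y.1 ≠ 0) ∧ ∃ ε ε' : Bool, FI V (((0 : Fin 3), ε) :: (γ ++ [((0 : Fin 3), ε')]))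

theorem EvPatT_P_inv {V : CC} {γ : List (Fin 3 × Bool)} (h : EvPatT_P V γ) :
    EvPatT_P V (FreeGroup.invRev γ) := by
  obtain ⟨h1, ε, ε', h2⟩ := h
  refine ⟨?_, !ε', !ε, ?_⟩
  · intro y hy
    simp only [FreeGroup.invRev, List.mem_reverse, List.mem_map] at hy
    obtain ⟨x, hx, rfl⟩ := hy
    exact h1 x hx
  · have h3 := fi_inv h2
    have h4 : FreeGroup.invRev (((0 : Fin 3), ε) :: (γ ++ [((0 : Fin 3), ε')])) =
        ((0 : Fin 3), !ε') :: (FreeGroup.invRev γ ++ [((0 : Fin 3), !ε)]) := by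
      simp [FreeGroup.invRev]
    rw [h4] at h3
    exact h3

theorem EvPatT_P_red {V : CC} {γ : List (Fin 3 × Bool)} (h : EvPatT_P V γ) :
    FreeGroup.IsReduced γ := by
  obtain ⟨_, ε, ε', h2⟩ := h
  exact red_mid (fi_red h2) ⟨[((0 : Fin 3), ε)], [((0 : Fin 3), ε')], by simp⟩

theorem EvPatT_P_eq {V : CC} (hd : ∀ y : Fin 3 × Bool, y.1 ≠ 0 → DetT V y)
    {γ δ : List (Fin 3 × Bool)} (h : EvPatT_P V γ) (h' : EvPatT_P V δ) (hn : γ ≠ [])
    (hh : γ.head? = δ.head?) : γ = δ := by
  obtain ⟨h1, ε, ε', h2⟩ := h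
  obtain ⟨h1', η, η', h2'⟩ := h'
  exact det_pathT hd h1 h1' (p := ((0 : Fin 3), ε)) (p' := ((0 : Fin 3), η))
    (x' := ((0 : Fin 3), ε')) (x'' := ((0 : Fin 3), η')) (Or.inr ⟨rfl, rfl⟩) rfl rfl h2 h2' hn hh

theorem EvPatT_head {V : CC} (hl : 2 ≤ cycLen V) {r : Fin 4 → Fin 3 × Bool}
    (hr : Function.Injective r) (h0 : ∀ i, (r i).1 ≠ 0)
    (f1 : edgS V (PrC 0) (sgl (r 1)) = 0) (f2 : edgS V (PrC 0) (sgl (r 2)) = 0)
    {γ : List (Fin 3 × Bool)} (h : EvPatT_P V γ) (hn : γ ≠ []) :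
    γ.head? = some (bar (r 0)) ∨ γ.head? = some (bar (r 3)) := by
  obtain ⟨h1, ε, ε', h2⟩ := h
  obtain ⟨q, γ', rfl⟩ := List.exists_cons_of_ne_nil hn
  have hq : q.1 ≠ 0 := h1 q (by simp)
  have h3 : FI V [((0 : Fin 3), ε), q] := by
    apply fi_sub (u := []) (w := γ' ++ [((0 : Fin 3), ε')])
    simpa using h2
  have hne : ((0 : Fin 3), ε) ≠ bar q := by
    intro hc
    have := congrArg Prod.fst hc
    exact hq this.symm
  have h4 := (fi_edge hl hne).2 h3
  have h5 : edgS V (sgl ((0 : Fin 3), ε)) (sgl (bar q)) ≤ edgS V (PrC 0) (sgl (bar q)) := by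
    apply edgS_mono V ?_ (fun x hx => hx)
    intro x hx
    have : x = ((0 : Fin 3), ε) := by simpa [sgl] using hx
    subst this
    simp [PrC]
  obtain ⟨i, hi⟩ := EvPatT_surj hr h0 (bar q) hq
  rw [← hi] at h4 h5
  have h6 : 0 < edgS V (PrC 0) (sgl (r i)) := lt_of_lt_of_le h4 h5
  have h7 : q = bar (r i) := by rw [hi, bar_bar]
  have h8 : i = 0 ∨ i = 3 := by
    fin_cases i
    · exact Or.inl rfl
    · exact absurd f1 (by simpa using h6.ne')
    · exact absurd f2 (by simpa using h6.ne')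
    · exact Or.inr rfl
  rcases h8 with h8 | h8
  · left
    rw [h7, h8]
    rfl
  · right
    rw [h7, h8]
    rfl

/-- every block is a path -/
theorem EvPatT_block {V : CC} {B : List (Bool × List (Fin 3 × Bool))}
    (hB : ∀ t ∈ B, ∀ x ∈ t.2, x.1 ≠ 0) (hC : CR (wB B)) (hV : cls (wB B) = V)
    (hlen : 2 ≤ B.length) {s : Bool × List (Fin 3 × Bool)} (hs : s ∈ B) : EvPatT_P V s.2 := by
  refine ⟨hB s hs, ?_⟩
  obtain ⟨C1, C2, rfl⟩ := List.append_of_mem hs
  cases C2 with
  | cons s' C2 =>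
    exact ⟨s.1, s'.1, Or.inl (blk_fac1 hC hV)⟩
  | nil =>
    cases C1 with
    | nil => simp at hlen
    | cons t' C1 =>
      exact ⟨s.1, t'.1, Or.inl (blk_fac2 (B1 := C1) (t := s) (t' := t') hC hV)⟩

theorem pat_five {n : ℕ} {V : CC} (E : Eq3 n V) (h5 : Five n V)
    (hd : ∀ y : Fin 3 × Bool, y.1 ≠ 0 → DetT V y) :
    ∃ (j : List (ℤ × Bool)) (g : FreeGroup (Fin 3)), 2 * j.length = n ∧ (∀ t ∈ j, t.1 ≠ 0) ∧
      In12 g ∧ g ≠ 1 ∧ V = ConjClasses.mk (gT j g) := by
  classical
  obtain ⟨r, hr, h0, e0, e1, e2, e3, e4⟩ := h5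
  obtain ⟨f1, f2, hcap⟩ := EvPatT_deg E hr h0 e0 e1 e2 e3 e4
  have hn4 := E.h4
  obtain ⟨B, hBne, hBl, hBC, hBV, hBlen⟩ := blk (V := V) (by rw [E.c]; omega)
  have hcnt : 2 * B.countP (fun t => decide (t.2 ≠ [])) = n := by
    rw [← EvPatT_cap B hBne hBl, ← capC_cls hBC, hBV, hcap]
  obtain ⟨t, htB, ht⟩ : ∃ t ∈ B, t.2 ≠ [] := by
    have : 0 < B.countP (fun t => decide (t.2 ≠ [])) := by omega
    obtain ⟨t, h1, h2⟩ := List.countP_pos_iff.1 this
    exact ⟨t, h1, by simpa using h2⟩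
  obtain ⟨B1, B2, rfl⟩ := List.append_of_mem htB
  obtain ⟨B', hB'⟩ : ∃ B', B' = B2 ++ (B1 ++ [t]) := ⟨_, rfl⟩
  have hperm : B'.Perm (B1 ++ t :: B2) := by
    rw [hB']
    have : B1 ++ t :: B2 = (B1 ++ [t]) ++ B2 := by simp
    rw [this]
    exact List.perm_append_comm
  have hrot : wB (B1 ++ t :: B2) ~r wB B' := by
    have h1 : B1 ++ t :: B2 = (B1 ++ [t]) ++ B2 := by simp
    rw [h1, hB', EvPatT_wB_append (B1 ++ [t]) B2, EvPatT_wB_append B2 (B1 ++ [t])]
    exact List.isRotated_append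
  have hC' : CR (wB B') := CR_of_rotated hrot hBC
  have hV' : cls (wB B') = V := by rw [← cls_of_rotated hrot, hBV]
  have hl' : ∀ s ∈ B', ∀ x ∈ s.2, x.1 ≠ 0 := fun s hs => hBl s (hperm.mem_iff.1 hs)
  have hne' : B' ≠ [] := by
    rw [hB']
    simp
  have hlast' : (B'.getLast hne').2 ≠ [] := by
    have : B'.getLast hne' = t := by
      subst hB'
      simp
    rw [this]
    exact ht
  have hlen' : 2 ≤ B'.length := by
    rw [hperm.length_eq, hBlen, E.c]
    omega
  have hcyc : 2 ≤ cycLen V := by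
    rw [cycLen_eq_sum, Fin.sum_univ_three, E.c, E.c, E.c]
    omega
  obtain ⟨L, hLne, hLlen, hLmem, hLprod, _⟩ := EvPatT_group B' hne' hC'.isReduced hlast'
  have hLn : 2 * L.length = n := by
    rw [hLlen, ← EvPatT_cap B' hne' hl', ← capC_cls hC', hV', hcap]
  have hP : ∀ s ∈ L, EvPatT_P V s.2 := by
    intro s hs
    obtain ⟨_, _, ε, hε⟩ := hLmem s hs
    exact EvPatT_block hl' hC' hV' hlen' hε
  -- the standard path
  have hkey : ∀ γ : List (Fin 3 × Bool), EvPatT_P V γ → γ ≠ [] →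
      γ.head? = some (bar (r 0)) ∨ (FreeGroup.invRev γ).head? = some (bar (r 0)) := by
    intro γ hγ hγn
    have hinv := EvPatT_P_inv hγ
    have hinvn : FreeGroup.invRev γ ≠ [] := by
      intro hc
      apply hγn
      simpa [FreeGroup.invRev] using hc
    rcases EvPatT_head hcyc hr h0 f1 f2 hγ hγn with h1 | h1
    · exact Or.inl h1
    · rcases EvPatT_head hcyc hr h0 f1 f2 hinv hinvn with h2 | h2
      · exact Or.inr h2
      · exfalso
        exact no_pal (EvPatT_P_red hγ) hγn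
          (EvPatT_P_eq hd hγ hinv hγn (by rw [h1, h2]))
  obtain ⟨γ₀, hγ₀, hγ₀n, hγ₀h⟩ : ∃ γ₀, EvPatT_P V γ₀ ∧ γ₀ ≠ [] ∧
      γ₀.head? = some (bar (r 0)) := by
    obtain ⟨s, hs⟩ := List.exists_mem_of_ne_nil L hLne
    have hsn := (hLmem s hs).2.1
    rcases hkey s.2 (hP s hs) hsn with h1 | h1
    · exact ⟨s.2, hP s hs, hsn, h1⟩
    · refine ⟨FreeGroup.invRev s.2, EvPatT_P_inv (hP s hs), ?_, h1⟩
      intro hc
      apply hsn
      simpa [FreeGroup.invRev] using hc
  have hall : ∀ s ∈ L, s.2 ≠ γ₀ → FreeGroup.invRev s.2 = γ₀ := by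
    intro s hs hne
    have hsn := (hLmem s hs).2.1
    rcases hkey s.2 (hP s hs) hsn with h1 | h1
    · exact absurd (EvPatT_P_eq hd (hP s hs) hγ₀ hsn (by rw [h1, hγ₀h])) hne
    · symm
      exact EvPatT_P_eq hd hγ₀ (EvPatT_P_inv (hP s hs)) hγ₀n (by rw [h1, hγ₀h])
  refine ⟨L.map (fun s => (s.1, decide (s.2 = γ₀))), FreeGroup.mk γ₀, ?_, ?_, ?_, ?_, ?_⟩
  · rw [List.length_map, hLn]
  · intro u hu
    obtain ⟨s, hs, rfl⟩ := List.mem_map.1 hu
    exact (hLmem s hs).1
  · exact In12_mk hγ₀.1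
  · intro hc
    apply hγ₀n
    have h1 : (FreeGroup.mk γ₀).toWord = γ₀ := by
      rw [FreeGroup.toWord_mk]
      exact (EvPatT_P_red hγ₀).reduce_eq
    rw [hc, FreeGroup.toWord_one] at h1
    exact h1.symm
  · rw [← hV']
    unfold cls gT
    rw [hLprod, List.map_map]
    congr 2
    apply List.map_congr_left
    intro s hs
    show of 0 ^ s.1 * FreeGroup.mk s.2 =
      of 0 ^ s.1 * (if decide (s.2 = γ₀) = true then FreeGroup.mk γ₀ else (FreeGroup.mk γ₀)⁻¹)
    by_cases h : s.2 = γ₀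
    · simp [h]
    · have h1 := hall s hs h
      rw [← h1, FreeGroup.inv_mk, FreeGroup.invRev_invRev]
      have h2 : ¬ (s.2 = FreeGroup.invRev s.2) := by
        rw [h1]
        exact h
      simp [h2]

end Pool.Agent.Sims
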