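import Pool.Agent.Sims.EvBas

/-!
# Module `EvAlg` : identities for products of two Whitehead automorphisms

All identities were checked by computer for all `A`, `B`.  Proof method: see `act_wh_swap`, `act_wh_comm`, `act_wh_comm'` in `Rel.lean` (`Rel_ext`, `Rel_act_conj`, `wh_lett_self`, `wh_lett_ne`).
* `wh_1a`: `a ∈ A`, `a⁻¹ ∉ A`, `y ∈ B`, `y⁻¹ ∉ B`, `A ∩ B = {a}`, `a⁻¹ ∉ B`, `y⁻¹ ∉ A`:  `(B, y) (A, a) c = (A, a) (A ∪ B, y) c`  (in fact the two automorphisms are equal or conjugate).
* `wh_1b`: the same with `y⁻¹ ∈ A`: `(B, y) (A, a) c = σ (A ∪ B, a) (A, y⁻¹) c` with `σ = Rel_swapPerm a y` (`a ↦ y ↦ a⁻¹`).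
  (For `y⁻¹ ∈ A` and `y ∉ A` the cut `A` is also a `y⁻¹`-cut; `act_wh_swap` for `a`, `y⁻¹`, `A`: `(A, y⁻¹) c = ρ (stc A a, y⁻¹) (A, a) c`.)
* `wh_swap'`: the explicit version of `act_wh_swap` (its proof shows it with `σ = Rel_swapPerm a b`).
* `wh_two`: two potentials with the same multiplier: `wh z A = pot z.1 (whp z A)`; if `B' ⊆ A` as potentials (see the statement) the product is a Whitehead automorphism again:
  first `(A, z)`, then `(B, z⁻¹)` with `z⁻¹ ∈ B`, `z ∉ B`, `B ∖ z⁻¹ ⊆ A ∖ z`: the product is `(A ∖ (B ∖ z⁻¹), z)`; if `A ∖ z ⊆ B ∖ z⁻¹`: the product is `(B ∖ (A ∖ z), z⁻¹)`.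
  (Compare the potentials on the letters `≠ z^{±1}`: `pot_add`, `pot_congr`, `sgn (bar z) = - sgn z`.)
Difficulty 2.
-/

namespace Pool.Agent.Sims

set_option linter.unusedVariables false
set_option linter.unusedSimpArgs false

theorem wh_swap' (a b : Fin 3 × Bool) (hab : a.1 ≠ b.1) (A : Ct)
    (ha : A a = true) (ha' : A (bar a) = false) (hb : A b = true) (hb' : A (bar b) = false)
    (c : CC) : act (wh b A) c = act (Rel_swapPerm a b).aut (act (wh b (stc A a)) (act (wh a A) c)) := by
  rw [act_act, act_act]
  set C : Ct := stc A a with hC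
  have hCa : C a = false := by
    have : a ≠ bar a := fun h => bar_ne a h.symm
    simp [hC, stc, this]
  have hCa' : C (bar a) = true := by simp [hC, stc]
  have hCx : ∀ x : Fin 3 × Bool, x.1 ≠ a.1 → C x = A x := by
    intro x hx
    have e1 : x ≠ a := fun h => hx (by rw [h])
    have e2 : x ≠ bar a := fun h => hx (by rw [h]; rfl)
    simp [hC, stc, e1, e2]
  have hσ : ∀ x : Fin 3 × Bool,
      (Rel_swapPerm a b).aut (lett x) = lett ((Rel_swapPerm a b).letter x) :=
    fun x => SPerm.hom_lett _ x
  have key : wh b A = ((wh a A).trans (wh b C)).trans (Rel_swapPerm a b).aut := by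
    apply Rel_ext
    intro i
    simp only [MulEquiv.trans_apply]
    by_cases hia : i = a.1
    · refine ⟨a.2, ?_⟩
      have e : ((i, a.2) : Fin 3 × Bool) = a := by rw [hia]
      rw [e, wh_lett_self a A, wh_lett_ne b A hab, wh_lett_ne b C hab, ha, ha', hCa, hCa']
      simp only [if_true, if_false, Bool.false_eq_true, one_mul, mul_one, map_mul, map_inv, hσ,
        Rel_swapPerm_a, Rel_swapPerm_b a b hab, lett_bar, inv_inv]
    · by_cases hib : i = b.1
      · refine ⟨b.2, ?_⟩
        have e : ((i, b.2) : Fin 3 × Bool) = b := by rw [hib]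
        have hba : b.1 ≠ a.1 := fun h => hab h.symm
        rw [e, wh_lett_self b A, wh_lett_ne a A hba, hb, hb']
        simp only [if_true, if_false, Bool.false_eq_true, one_mul, map_mul,
          wh_lett_self b C]
        rw [wh_lett_ne b C hab, hCa, hCa']
        simp only [if_true, if_false, Bool.false_eq_true, mul_one, map_mul, map_inv, hσ,
          Rel_swapPerm_a, Rel_swapPerm_b a b hab, lett_bar, inv_inv]
        group
      · refine ⟨true, ?_⟩
        have f1 : ((i, true) : Fin 3 × Bool).1 ≠ a.1 := hia
        have f2 : ((i, true) : Fin 3 × Bool).1 ≠ b.1 := hib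
        have f3 : (bar (i, true) : Fin 3 × Bool).1 ≠ a.1 := hia
        have f4 : (bar (i, true) : Fin 3 × Bool).1 ≠ b.1 := hib
        have hwa : wh b C (lett a) = (lett b)⁻¹ * lett a := by
          rw [wh_lett_ne b C hab, hCa, hCa']
          simp
        rw [wh_lett_ne a A f1, wh_lett_ne b A f2]
        by_cases c1 : A (i, true) = true <;> by_cases c2 : A (bar (i, true)) = true
        all_goals
          simp only [c1, c2, if_true, if_false, Bool.false_eq_true, map_mul, map_inv, map_one, hwa,
            wh_lett_ne b C f2, hCx _ f1, hCx _ f3, hσ, Rel_swapPerm_a, Rel_swapPerm_b a b hab,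
            Rel_swapPerm_ne a b _ f1 f2, lett_bar, inv_inv, one_mul, mul_one]
        all_goals try simp only [mul_assoc, inv_mul_cancel_left, mul_inv_cancel_left, mul_inv_rev,
            inv_inv, mul_inv_cancel, inv_mul_cancel, mul_one]
  rw [key]
  rfl

theorem wh_1a (a y : Fin 3 × Bool) (hay : a.1 ≠ y.1) (A B : Ct) (ha : A a = true)
    (ha' : A (bar a) = false) (hy : B y = true) (hy' : B (bar y) = false) (hBa : B a = true)
    (hBa' : B (bar a) = false) (hAB : ∀ x, A x = true → B x = true → x = a)
    (hAy : A (bar y) = false) (c : CC) :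
    act (wh y B) (act (wh a A) c) = act (wh a A) (act (wh y (fun x => A x || B x)) c) := by
  rw [act_act, act_act]
  set D : Ct := fun x => A x || B x with hD
  have hya : y.1 ≠ a.1 := fun h => hay h.symm
  have hAy0 : A y = false := by
    by_contra h
    have h' : A y = true := by simpa using h
    have := hAB y h' hy
    exact hya (by rw [this])
  have e1 : wh y B (lett a) = lett a * lett y := by
    rw [wh_lett_ne y B hay, hBa, hBa']; simp
  have e1' : wh y D (lett a) = lett a * lett y := by
    have d1 : D a = true := by simp [hD, ha]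
    have d2 : D (bar a) = false := by simp [hD, ha', hBa']
    rw [wh_lett_ne y D hay, d1, d2]; simp
  have e2 : wh a A (lett y) = lett y := by
    rw [wh_lett_ne a A hya, hAy0, hAy]; simp
  have e3 : wh a A (lett a) = lett a := wh_lett_self a A
  have key : (wh a A).trans (wh y B) = (wh y D).trans (wh a A) := by
    apply Rel_ext
    intro i
    simp only [MulEquiv.trans_apply]
    by_cases hia : i = a.1
    · refine ⟨a.2, ?_⟩
      have e : ((i, a.2) : Fin 3 × Bool) = a := by rw [hia]
      rw [e, e3, e1, e1', map_mul, e2, e3]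
    · by_cases hib : i = y.1
      · refine ⟨y.2, ?_⟩
        have e : ((i, y.2) : Fin 3 × Bool) = y := by rw [hib]
        rw [e, wh_lett_self y D, e2, wh_lett_self y B]
      · refine ⟨true, ?_⟩
        have f1 : ((i, true) : Fin 3 × Bool).1 ≠ a.1 := hia
        have f2 : ((i, true) : Fin 3 × Bool).1 ≠ y.1 := hib
        have n1 : ((i, true) : Fin 3 × Bool) ≠ a := fun h => f1 (by rw [h])
        have n2 : (bar (i, true) : Fin 3 × Bool) ≠ a := fun h => hia (by rw [← h]; rfl)
        have g1 := hAB (i, true)
        have g2 := hAB (bar (i, true))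
        rw [wh_lett_ne a A f1, wh_lett_ne y D f2]
        have d1 : D (i, true) = (A (i, true) || B (i, true)) := rfl
        have d2 : D (bar (i, true)) = (A (bar (i, true)) || B (bar (i, true))) := rfl
        rw [d1, d2]
        by_cases c1 : A (i, true) = true <;> by_cases c2 : A (bar (i, true)) = true <;>
        by_cases c3 : B (i, true) = true <;> by_cases c4 : B (bar (i, true)) = true
        all_goals first
          | (exfalso; exact n1 (g1 c1 c3))
          | (exfalso; exact n2 (g2 c2 c4))
          | (try simp only [Bool.not_eq_true] at c1 c2 c3 c4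
             simp only [c1, c2, c3, c4, if_true, if_false, Bool.false_eq_true, map_mul, map_inv,
              map_one, e1, e2, e3, wh_lett_ne y B f2, wh_lett_ne a A f1, one_mul, mul_one,
              mul_assoc, Bool.or_true, Bool.true_or, Bool.or_false, Bool.false_or, Bool.or_self,
              mul_inv_rev])
  rw [key]

theorem wh_1b (a y : Fin 3 × Bool) (hay : a.1 ≠ y.1) (A B : Ct) (ha : A a = true)
    (ha' : A (bar a) = false) (hy : B y = true) (hy' : B (bar y) = false) (hBa : B a = true)
    (hBa' : B (bar a) = false) (hAB : ∀ x, A x = true → B x = true → x = a)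
    (hAy : A (bar y) = true) (c : CC) :
    act (wh y B) (act (wh a A) c) = act (Rel_swapPerm a y).aut
      (act (wh a (fun x => A x || B x)) (act (wh (bar y) A) c)) := by
  rw [act_act, act_act, act_act]
  set D : Ct := fun x => A x || B x with hD
  have hya : y.1 ≠ a.1 := fun h => hay h.symm
  have hay' : a.1 ≠ (bar y).1 := hay
  have hAy0 : A y = false := by
    by_contra h
    have h' : A y = true := by simpa using h
    have := hAB y h' hy
    exact hya (by rw [this])
  have hσ : ∀ x : Fin 3 × Bool,
      (Rel_swapPerm a y).aut (lett x) = lett ((Rel_swapPerm a y).letter x) :=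
    fun x => SPerm.hom_lett _ x
  have s1 : (Rel_swapPerm a y).aut (lett a) = lett y := by rw [hσ, Rel_swapPerm_a]
  have s2 : (Rel_swapPerm a y).aut (lett y) = (lett a)⁻¹ := by
    rw [hσ, Rel_swapPerm_b a y hay, lett_bar]
  have e1 : wh y B (lett a) = lett a * lett y := by
    rw [wh_lett_ne y B hay, hBa, hBa']; simp
  have e2 : wh a A (lett y) = (lett a)⁻¹ * lett y := by
    rw [wh_lett_ne a A hya, hAy0, hAy]; simp
  have e3 : wh a A (lett a) = lett a := wh_lett_self a A
  have e4 : wh (bar y) A (lett a) = lett a * (lett y)⁻¹ := by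
    rw [wh_lett_ne (bar y) A hay', ha, ha', lett_bar]; simp
  have e5 : wh a D (lett y) = (lett a)⁻¹ * lett y * lett a := by
    have d1 : D y = true := by simp [hD, hy]
    have d2 : D (bar y) = true := by simp [hD, hAy]
    rw [wh_lett_ne a D hya, d1, d2]; simp
  have e6 : wh (bar y) A (lett y) = lett y := Rel_wh_self' (bar y) A rfl
  have e7 : wh a D (lett a) = lett a := wh_lett_self a D
  have key : (wh a A).trans (wh y B) =
      ((wh (bar y) A).trans (wh a D)).trans (Rel_swapPerm a y).aut := by
    apply Rel_ext
    intro i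
    simp only [MulEquiv.trans_apply]
    by_cases hia : i = a.1
    · refine ⟨a.2, ?_⟩
      have e : ((i, a.2) : Fin 3 × Bool) = a := by rw [hia]
      rw [e, e3, e1, e4, map_mul, map_inv, e5, e7]
      simp only [map_mul, map_inv, s1, s2]
      group
    · by_cases hib : i = y.1
      · refine ⟨y.2, ?_⟩
        have e : ((i, y.2) : Fin 3 × Bool) = y := by rw [hib]
        rw [e, e2, e6, e5]
        simp only [map_mul, map_inv, s1, s2, e1, wh_lett_self y B]
        group
      · refine ⟨true, ?_⟩
        have f1 : ((i, true) : Fin 3 × Bool).1 ≠ a.1 := hia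
        have f2 : ((i, true) : Fin 3 × Bool).1 ≠ y.1 := hib
        have f2' : ((i, true) : Fin 3 × Bool).1 ≠ (bar y).1 := hib
        have n1 : ((i, true) : Fin 3 × Bool) ≠ a := fun h => f1 (by rw [h])
        have n2 : (bar (i, true) : Fin 3 × Bool) ≠ a := fun h => hia (by rw [← h]; rfl)
        have s3 : (Rel_swapPerm a y).aut (lett (i, true)) = lett (i, true) := by
          rw [hσ, Rel_swapPerm_ne a y _ f1 f2]
        have g1 := hAB (i, true)
        have g2 := hAB (bar (i, true))
        rw [wh_lett_ne a A f1, wh_lett_ne (bar y) A f2']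
        have d1 : D (i, true) = (A (i, true) || B (i, true)) := rfl
        have d2 : D (bar (i, true)) = (A (bar (i, true)) || B (bar (i, true))) := rfl
        by_cases c1 : A (i, true) = true <;> by_cases c2 : A (bar (i, true)) = true <;>
        by_cases c3 : B (i, true) = true <;> by_cases c4 : B (bar (i, true)) = true
        all_goals first
          | (exfalso; exact n1 (g1 c1 c3))
          | (exfalso; exact n2 (g2 c2 c4))
          | (try simp only [Bool.not_eq_true] at c1 c2 c3 c4
             simp only [c1, c2, c3, c4, d1, d2, if_true, if_false, Bool.false_eq_true, map_mul,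
              map_inv, map_one, e1, e5, e7, wh_lett_ne y B f2, wh_lett_ne a D f1, one_mul,
              mul_one, Bool.or_true, Bool.true_or, Bool.or_false, Bool.false_or, Bool.or_self,
              lett_bar, inv_inv, s1, s2, s3]
             try group)
  rw [key]
  rfl

theorem wh_two1 (z : Fin 3 × Bool) (A B : Ct) (hBz : B z = false) (hBz' : B (bar z) = true)
    (hsub : ∀ x, x.1 ≠ z.1 → B x = true → A x = true) (c : CC) :
    act (wh (bar z) B) (act (wh z A) c) = act (wh z (fun x => decide (x = z) || (A x && !B x))) c := by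
  rw [act_act]
  set D : Ct := fun x => decide (x = z) || (A x && !B x) with hD
  have e0 : wh (bar z) B (lett z) = lett z := Rel_wh_self' (bar z) B rfl
  have key : (wh z A).trans (wh (bar z) B) = wh z D := by
    apply Rel_ext
    intro i
    refine ⟨true, ?_⟩
    simp only [MulEquiv.trans_apply]
    by_cases hi : i = z.1
    · rw [Rel_wh_self' z A (x := (i, true)) hi, Rel_wh_self' z D (x := (i, true)) hi]
      exact Rel_wh_self' (bar z) B hi
    · have f1 : ((i, true) : Fin 3 × Bool).1 ≠ z.1 := hi
      have f2 : ((i, true) : Fin 3 × Bool).1 ≠ (bar z).1 := hi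
      have n1 : ((i, true) : Fin 3 × Bool) ≠ z := fun h => f1 (by rw [h])
      have n2 : (bar (i, true) : Fin 3 × Bool) ≠ z := fun h => hi (by rw [← h]; rfl)
      have g1 := hsub (i, true) hi
      have g2 := hsub (bar (i, true)) hi
      have d1 : D (i, true) = (A (i, true) && !B (i, true)) := by simp [hD, n1]
      have d2 : D (bar (i, true)) = (A (bar (i, true)) && !B (bar (i, true))) := by
        simp [hD, n2]
      rw [wh_lett_ne z A f1, wh_lett_ne z D f1, d1, d2]
      by_cases c1 : A (i, true) = true <;> by_cases c2 : A (bar (i, true)) = true <;>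
      by_cases c3 : B (i, true) = true <;> by_cases c4 : B (bar (i, true)) = true
      all_goals first
        | (exfalso; exact c1 (g1 c3))
        | (exfalso; exact c2 (g2 c4))
        | (try simp only [Bool.not_eq_true] at c1 c2 c3 c4
           simp only [c1, c2, c3, c4, if_true, if_false, Bool.false_eq_true, map_mul, map_inv,
            map_one, e0, wh_lett_ne (bar z) B f2, lett_bar, inv_inv, one_mul, mul_one,
            Bool.and_true, Bool.and_false, Bool.not_true, Bool.not_false, Bool.and_self]
           try group)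
  rw [key]

theorem wh_two2 (z : Fin 3 × Bool) (A B : Ct) (hBz : B z = false) (hBz' : B (bar z) = true)
    (hsub : ∀ x, x.1 ≠ z.1 → A x = true → B x = true) (c : CC) :
    act (wh (bar z) B) (act (wh z A) c) =
      act (wh (bar z) (fun x => decide (x = bar z) || (B x && (!A x && decide (x.1 ≠ z.1))))) c := by
  rw [act_act]
  set D : Ct := fun x => decide (x = bar z) || (B x && (!A x && decide (x.1 ≠ z.1))) with hD
  have e0 : wh (bar z) B (lett z) = lett z := Rel_wh_self' (bar z) B rfl
  have key : (wh z A).trans (wh (bar z) B) = wh (bar z) D := by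
    apply Rel_ext
    intro i
    refine ⟨true, ?_⟩
    simp only [MulEquiv.trans_apply]
    by_cases hi : i = z.1
    · rw [Rel_wh_self' z A (x := (i, true)) hi, Rel_wh_self' (bar z) D (x := (i, true)) hi]
      exact Rel_wh_self' (bar z) B hi
    · have f1 : ((i, true) : Fin 3 × Bool).1 ≠ z.1 := hi
      have f2 : ((i, true) : Fin 3 × Bool).1 ≠ (bar z).1 := hi
      have n1 : ((i, true) : Fin 3 × Bool) ≠ bar z := fun h => f2 (by rw [h])
      have n2 : (bar (i, true) : Fin 3 × Bool) ≠ bar z := fun h => hi (by
        have := congrArg Prod.fst h; exact this)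
      have g1 := hsub (i, true) hi
      have g2 := hsub (bar (i, true)) hi
      have f3 : (bar (i, true) : Fin 3 × Bool).1 ≠ z.1 := hi
      have d1 : D (i, true) = (B (i, true) && !A (i, true)) := by simp [hD, n1, hi]
      have d2 : D (bar (i, true)) = (B (bar (i, true)) && !A (bar (i, true))) := by
        simp [hD, n2, hi]
      rw [wh_lett_ne z A f1, wh_lett_ne (bar z) D f2, d1, d2]
      by_cases c1 : A (i, true) = true <;> by_cases c2 : A (bar (i, true)) = true <;>
      by_cases c3 : B (i, true) = true <;> by_cases c4 : B (bar (i, true)) = true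
      all_goals first
        | (exfalso; exact c3 (g1 c1))
        | (exfalso; exact c4 (g2 c2))
        | (try simp only [Bool.not_eq_true] at c1 c2 c3 c4
           simp only [c1, c2, c3, c4, if_true, if_false, Bool.false_eq_true, map_mul, map_inv,
            map_one, e0, wh_lett_ne (bar z) B f2, lett_bar, inv_inv, one_mul, mul_one,
            Bool.and_true, Bool.and_false, Bool.not_true, Bool.not_false, Bool.and_self]
           try group)
  rw [key]

end Pool.Agent.Sims
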