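import Pool.Agent.Sims.EvCP

/-!
# Module `EvST` : if all nontrivial cuts of capacity `n` except `{a, a⁻¹}` are crossed, the graph is a 5-cycle after contraction

* `starT`: `T = PrC 0 = {a, a⁻¹}` has capacity `n` and is not crossed; there is a nontrivial cut `Q` of capacity `n` which is neither `T` nor its complement; all such cuts are crossed.
  `Q` is crossed by some `C`: `cp_four`, four blocks, and the unions of two neighbouring blocks have capacity `n` (`cp_arc4`).  `T` is contained in one block: if `a`, `a⁻¹` are in different blocks,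
  a union of two neighbouring blocks contains exactly one of `a`, `a⁻¹`; choose it such that it crosses `T` (e.g. if `a` is in block `i`, `a⁻¹` in block `i+1`: blocks `i+1, i+2`; if `a⁻¹` is in block
  `i+2`: blocks `i, i+1`): contradiction.  Rotate: `T ⊆ bk f 0`.
  (i) `T ≠ bk f 0`: the block `0` has exactly three letters, the others are singletons.  It is nontrivial of capacity `n`, not `T` and not the complement of `T` (three letters), so it is crossed by some `C`;
  `cp_refine4` gives five blocks, the blocks `0`, `1` of `f'` have together three letters, so one of them has two letters.  As before `T` is contained in one block of `f'`: `T` is not crossed by `C`, and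
  the blocks `0`, `1` of `f'` have capacity `n` (`cp_cap5`) and do not cross `T`; so `T` is the block with two letters.  Rotate: `cp_T`.
  (ii) `T = bk f 0`: another block `Y` has exactly two letters (`6 = 2 + 2 + 1 + 1`), nontrivial of capacity `n`, not `T` and not its complement (which has four letters), so it is crossed by some `C`.  `C` does not
  divide `T`: if it did, then, as it does not cross `T`, `C` or its complement would be contained in `T`, but `C` and its complement both meet `Y`.  So all blocks different from `Y` are not divided; rotate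
  `Y` to `0`: `cp_refine4`, and `T` is one of the five blocks; rotate it to `0`: `cp_T`.
Difficulty 4.
-/

namespace Pool.Agent.Sims

/-- a cut which divides `T` and has letters inside and outside off `T` crosses `T` -/
theorem EvST_cross {Q : Ct} (h : Q (0, true) ≠ Q (0, false)) {u v : Fin 3 × Bool} (hu : u.1 ≠ 0)
    (hv : v.1 ≠ 0) (hu' : Q u = true) (hv' : Q v = false) : Crossg Q (PrC 0) := by
  have hT : ∀ s, PrC 0 (0, s) = true := by intro s; simp [PrC]
  have hU : PrC 0 u = false := by simp [PrC, hu]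
  have hV : PrC 0 v = false := by simp [PrC, hv]
  have h1 : ∃ x, Q x = true ∧ PrC 0 x = true := by
    cases h3 : Q (0, true)
    · refine ⟨(0, false), ?_, hT _⟩
      rw [h3] at h
      cases h4 : Q (0, false)
      · exact absurd h4.symm h
      · rfl
    · exact ⟨(0, true), h3, hT _⟩
  have h2 : ∃ x, Q x = false ∧ PrC 0 x = true := by
    cases h3 : Q (0, true)
    · exact ⟨(0, true), h3, hT _⟩
    · refine ⟨(0, false), ?_, hT _⟩
      rw [h3] at h
      cases h4 : Q (0, false)
      · rfl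
      · exact absurd h4.symm h
  exact ⟨h1, ⟨u, hu', hU⟩, h2, ⟨v, hv', hV⟩⟩

theorem EvST_off {m : ℕ} {f : Fin 3 × Bool → Fin m} {u : Fin 3 × Bool}
    (h1 : f u ≠ f (0, true)) (h2 : f u ≠ f (0, false)) : u.1 ≠ 0 := by
  intro h
  obtain ⟨i, s⟩ := u
  simp only at h
  subst h
  cases s
  · exact h2 rfl
  · exact h1 rfl

/-- `T` is contained in one block -/
theorem EvST_stay4 {n : ℕ} {V : CC} (E : Eq3 n V) (hu : ¬ VX n V (PrC 0))
    {f : Fin 3 × Bool → Fin 4} (h : CPm n V 4 f) : f (0, true) = f (0, false) := by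
  by_contra hne
  obtain ⟨i, hi⟩ : ∃ i, i = f (0, true) := ⟨_, rfl⟩
  obtain ⟨j, hj⟩ : ∃ j, j = f (0, false) := ⟨_, rfl⟩
  rw [← hi, ← hj] at hne
  -- choose the arc
  have key : ∃ k u v : Fin 4, u ≠ i ∧ u ≠ j ∧ v ≠ i ∧ v ≠ j ∧ (u = k ∨ u = k + 1) ∧
      ¬ (v = k ∨ v = k + 1) ∧ ¬ ((i = k ∨ i = k + 1) ↔ (j = k ∨ j = k + 1)) := by
    revert hne
    clear hi hj
    revert i j
    decide
  obtain ⟨k, u, v, h1, h2, h3, h4, h5, h6, h7⟩ := key
  obtain ⟨u', hu'⟩ := h.1 u
  obtain ⟨v', hv'⟩ := h.1 v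
  have hN := cp_arc4 E h k
  have hval : ∀ x, (bk f k x || bk f (k + 1) x) = true ↔ (f x = k ∨ f x = k + 1) := by
    intro x; simp [bk]
  refine hu ⟨_, hN, EvST_cross ?_ (u := u') (v := v') ?_ ?_ ?_ ?_⟩
  · intro heq
    apply h7
    rw [hi, hj, ← hval, ← hval]
    rw [heq]
  · refine EvST_off (f := f) ?_ ?_
    · rw [hu', ← hi]; exact h1
    · rw [hu', ← hj]; exact h2
  · refine EvST_off (f := f) ?_ ?_
    · rw [hv', ← hi]; exact h3
    · rw [hv', ← hj]; exact h4
  · exact (hval u').2 (by rw [hu']; exact h5)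
  · rw [← Bool.not_eq_true]
    exact fun h9 => h6 (by rw [← hv']; exact (hval v').1 h9)

/-- the letters off `T` -/
abbrev EvST_S : Type := {x : Fin 3 × Bool // x.1 ≠ 0}

theorem EvST_T {u : Fin 3 × Bool} (h : u.1 = 0) : u = (0, true) ∨ u = (0, false) := by
  obtain ⟨i, s⟩ := u
  simp only at h
  subst h
  cases s
  · exact Or.inr rfl
  · exact Or.inl rfl

theorem starT {n : ℕ} {V : CC} (E : Eq3 n V) (hT : NC n V (PrC 0)) (hu : ¬ VX n V (PrC 0))
    (hex : ∃ Q, NC n V Q ∧ Ntr Q ∧ (∃ x, Q x ≠ PrC 0 x) ∧ ∃ x, Q x = PrC 0 x)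
    (hall : ∀ Q, NC n V Q → Ntr Q → (∃ x, Q x ≠ PrC 0 x) → (∃ x, Q x = PrC 0 x) → VX n V Q) :
    Five n V := by
  obtain ⟨Q, hQ, hQn, hQ1, hQ2⟩ := hex
  obtain ⟨C0, hC0, hX0⟩ := hall Q hQ hQn hQ1 hQ2
  obtain ⟨f0, hf0, -⟩ := cp_four E hC0 hQ hX0
  have hst := EvST_stay4 E hu hf0
  -- rotate
  obtain ⟨f, hf⟩ : ∃ f : Fin 3 × Bool → Fin 4, f = fun x => f0 x - f0 (0, true) := ⟨_, rfl⟩
  have hcp : CPm n V 4 f := by rw [hf]; exact cp_rot hf0 _
  have ha : f (0, true) = 0 := by rw [hf]; simp
  have ha' : f (0, false) = 0 := by rw [hf]; simp [hst]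
  have hTf : ∀ u : Fin 3 × Bool, u.1 = 0 → f u = 0 := by
    intro u h
    rcases EvST_T h with rfl | rfl
    · exact ha
    · exact ha'
  have hsurj := hcp.1
  have hoff : ∀ u, f u ≠ 0 → u.1 ≠ 0 := fun u h h0 => h (hTf u h0)
  have hPT : ∀ u : Fin 3 × Bool, PrC 0 u = true ↔ u.1 = 0 := by intro u; simp [PrC]
  have hPF : ∀ u : Fin 3 × Bool, PrC 0 u = false ↔ u.1 ≠ 0 := by intro u; simp [PrC]
  by_cases hy : ∃ y : Fin 3 × Bool, y.1 ≠ 0 ∧ f y = 0
  · -- case (i)
    obtain ⟨y, hy0, hy1⟩ := hy
    -- injectivity off `T`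
    have hinjS : Function.Injective (fun u : EvST_S => f u.1) := by
      have hs : Function.Surjective (fun u : EvST_S => f u.1) := by
        intro k
        by_cases hk : k = 0
        · exact ⟨⟨y, hy0⟩, by rw [hk]; exact hy1⟩
        · obtain ⟨u, huk⟩ := hsurj k
          exact ⟨⟨u, hoff u (by rw [huk]; exact hk)⟩, huk⟩
      have hcard : Fintype.card EvST_S = Fintype.card (Fin 4) := by decide
      exact ((Fintype.bijective_iff_surjective_and_card _).2 ⟨hs, hcard⟩).1
    have hinj : ∀ u v : Fin 3 × Bool, u.1 ≠ 0 → v.1 ≠ 0 → f u = f v → u = v := by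
      intro u v h1 h2 h3
      have := hinjS (a₁ := ⟨u, h1⟩) (a₂ := ⟨v, h2⟩) h3
      exact congrArg Subtype.val this
    have hNC := cp_cap4 E hcp 0
    obtain ⟨p, hp⟩ := hsurj 1
    obtain ⟨q, hq⟩ := hsurj 2
    have hpq : p ≠ q := by
      rintro rfl
      rw [hp] at hq
      exact absurd hq (by decide)
    have hbk : ∀ u, bk f 0 u = true ↔ f u = 0 := by intro u; simp [bk]
    have hbkf : ∀ u, bk f 0 u = false ↔ f u ≠ 0 := by intro u; simp [bk]
    have hN : Ntr (bk f 0) := by
      refine ⟨⟨(0, true), (0, false), by decide, (hbk _).2 ha, (hbk _).2 ha'⟩,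
        ⟨p, q, hpq, (hbkf _).2 ?_, (hbkf _).2 ?_⟩⟩
      · rw [hp]; decide
      · rw [hq]; decide
    obtain ⟨C, hC, hX⟩ := hall _ hNC hN
      ⟨y, by rw [(hbk y).2 hy1, (hPF y).2 hy0]; decide⟩
      ⟨(0, true), by rw [(hbk _).2 ha, (hPT _).2 rfl]⟩
    have hone : ∀ u, f u = 1 → u = p := by
      intro u h1
      refine hinj u p (hoff u ?_) (hoff p ?_) (by rw [h1, hp])
      · rw [h1]; decide
      · rw [hp]; decide
    have h1 : (∀ x, f x = 1 → C x = true) ∨ (∀ x, f x = 1 → C x = false) := by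
      cases hCp : C p
      · right; intro x hx; rw [hone x hx]; exact hCp
      · left; intro x hx; rw [hone x hx]; exact hCp
    obtain ⟨f', hf', g0, g1, g2, g3⟩ := cp_refine4 E hcp hC hX h1
    have hp2 : f' p = 2 := (g1 p).1 hp
    have hp0 : p.1 ≠ 0 := hoff p (by rw [hp]; decide)
    -- `T` is contained in one block of `f'`
    have hT' : f' (0, true) = f' (0, false) := by
      by_contra hne
      have e1 := (g0 _).1 ha
      have e2 := (g0 _).1 ha'
      have e3 := (g0 _).1 hy1
      have e4 := cp_cap5 E hf' (f' y)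
      refine hu ⟨_, e4, EvST_cross ?_ (u := y) (v := p) hy0 hp0 ?_ ?_⟩
      · simp only [bk, ne_eq, decide_eq_decide]
        intro h8
        rcases e1 with e1 | e1 <;> rcases e2 with e2 | e2 <;> rcases e3 with e3 | e3 <;>
          rw [e1, e2] at hne h8 <;> rw [e3] at h8 <;> revert hne h8 <;> decide
      · simp [bk]
      · simp only [bk, decide_eq_false_iff_not]
        rw [hp2]
        rcases e3 with e3 | e3 <;> rw [e3] <;> decide
    obtain ⟨k, hk⟩ : ∃ k, k = f' (0, true) := ⟨_, rfl⟩
    have hk01 : k = 0 ∨ k = 1 := by rw [hk]; exact (g0 _).1 ha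
    have hyk : f' y ≠ k := by
      intro hyk
      have hk' : ∃ k' : Fin 5, (k' = 0 ∨ k' = 1) ∧ k' ≠ k := by
        rcases hk01 with h | h
        · exact ⟨1, Or.inr rfl, by rw [h]; decide⟩
        · exact ⟨0, Or.inl rfl, by rw [h]; decide⟩
      obtain ⟨k', h5, h6⟩ := hk'
      obtain ⟨u, hu'⟩ := hf'.1 k'
      have h7 : f u = 0 := (g0 u).2 (by rw [hu']; exact h5)
      by_cases h8 : u.1 = 0
      · rcases EvST_T h8 with rfl | rfl
        · exact h6 (by rw [← hu', hk])
        · exact h6 (by rw [← hu', hk, hT'])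
      · have := hinj u y h8 hy0 (by rw [h7, hy1])
        exact h6 (by rw [← hu', this, hyk])
    have hTk : ∀ x : Fin 3 × Bool, f' x = k ↔ x.1 = 0 := by
      intro x
      constructor
      · intro hx
        by_contra h8
        have h7 : f x = 0 := (g0 x).2 (by rw [hx]; exact hk01)
        have := hinj x y h8 hy0 (by rw [h7, hy1])
        exact hyk (by rw [← this, hx])
      · intro h8
        rcases EvST_T h8 with rfl | rfl
        · exact hk.symm
        · rw [← hT']; exact hk.symm
    refine cp_T (cp_rot hf' k) fun x => ?_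
    rw [sub_eq_zero]
    exact hTk x
  · -- case (ii)
    have hTf' : ∀ u : Fin 3 × Bool, f u = 0 → u.1 = 0 := by
      intro u h1
      by_contra h2
      exact hy ⟨u, h2, h1⟩
    -- a pair with equal values
    have hpig : ∃ x x' : EvST_S, x ≠ x' ∧ f x.1 = f x'.1 := by
      have hmap : ∀ u : EvST_S, f u.1 ≠ 0 := fun u h => hy ⟨u.1, u.2, h⟩
      obtain ⟨x, x', h1, h2⟩ := Fintype.exists_ne_map_eq_of_card_lt
        (fun u : EvST_S => (⟨f u.1, hmap u⟩ : {k : Fin 4 // k ≠ 0})) (by decide)
      exact ⟨x, x', h1, congrArg Subtype.val h2⟩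
    obtain ⟨x, x', hxx, hfx⟩ := hpig
    -- uniqueness of the pair
    have huniq : ∀ w : EvST_S, (∃ w' : EvST_S, w' ≠ w ∧ f w'.1 = f w.1) →
        ∀ u v : EvST_S, u ≠ w → v ≠ w → f u.1 = f v.1 → u = v := by
      intro w hw u v h1 h2 h3
      obtain ⟨w', hw1, hw2⟩ := hw
      have hmap : ∀ u : {u : EvST_S // u ≠ w}, f u.1.1 ≠ 0 := fun u h => hy ⟨u.1.1, u.1.2, h⟩
      have hs : Function.Surjective (fun u : {u : EvST_S // u ≠ w} =>
          (⟨f u.1.1, hmap u⟩ : {k : Fin 4 // k ≠ 0})) := by
        rintro ⟨k, hk⟩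
        obtain ⟨t, ht⟩ := hsurj k
        have ht0 : t.1 ≠ 0 := hoff t (by rw [ht]; exact hk)
        by_cases htw : (⟨t, ht0⟩ : EvST_S) = w
        · refine ⟨⟨w', hw1⟩, ?_⟩
          apply Subtype.ext
          change f w'.1 = k
          rw [hw2, ← htw]; exact ht
        · refine ⟨⟨⟨t, ht0⟩, htw⟩, ?_⟩
          apply Subtype.ext
          exact ht
      have hcard : Fintype.card {u : EvST_S // u ≠ w} = Fintype.card {k : Fin 4 // k ≠ 0} := by
        have h5 : Fintype.card {u : EvST_S // u ≠ w} = Fintype.card EvST_S - 1 := by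
          have := Fintype.card_subtype_compl (fun u : EvST_S => u = w)
          rw [Fintype.card_subtype_eq] at this
          exact this
        rw [h5]
        decide
      have hb := ((Fintype.bijective_iff_surjective_and_card _).2 ⟨hs, hcard⟩).1
      have := hb (a₁ := ⟨u, h1⟩) (a₂ := ⟨v, h2⟩) (Subtype.ext h3)
      exact congrArg Subtype.val this
    have huniq2 : ∀ u v : EvST_S, f u.1 = f v.1 → f u.1 ≠ f x.1 → u = v := by
      intro u v h1 h2
      refine huniq x ⟨x', hxx.symm, hfx.symm⟩ u v ?_ ?_ h1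
      · rintro rfl; exact h2 rfl
      · rintro rfl; exact h2 h1
    obtain ⟨i, hi⟩ : ∃ i, i = f x.1 := ⟨_, rfl⟩
    have hi0 : i ≠ 0 := by rw [hi]; exact fun h => hy ⟨x.1, x.2, h⟩
    have hNC := cp_cap4 E hcp i
    have hbk : ∀ u, bk f i u = true ↔ f u = i := by intro u; simp [bk]
    have hbkf : ∀ u, bk f i u = false ↔ f u ≠ i := by intro u; simp [bk]
    have hN : Ntr (bk f i) := by
      refine ⟨⟨x.1, x'.1, fun h => hxx (Subtype.ext h), (hbk _).2 hi.symm,
        (hbk _).2 (by rw [hi, hfx])⟩,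
        ⟨(0, true), (0, false), by decide, (hbkf _).2 ?_, (hbkf _).2 ?_⟩⟩
      · rw [ha]; exact hi0.symm
      · rw [ha']; exact hi0.symm
    have hj : ∃ j : Fin 4, j ≠ 0 ∧ j ≠ i := by
      revert hi0; clear hi hNC hbk hbkf hN; revert i; decide
    obtain ⟨j, hj0, hji⟩ := hj
    obtain ⟨w, hw⟩ := hsurj j
    have hw0 : w.1 ≠ 0 := hoff w (by rw [hw]; exact hj0)
    obtain ⟨C, hC, hX⟩ := hall _ hNC hN
      ⟨x.1, by rw [(hbk _).2 hi.symm, (hPF _).2 x.2]; decide⟩
      ⟨w, by rw [(hbkf _).2 (by rw [hw]; exact hji), (hPF _).2 hw0]⟩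
    -- `C` does not divide `T`
    have hCT : C (0, true) = C (0, false) := by
      by_contra hne
      obtain ⟨⟨u, hu1, hu2⟩, -, ⟨v, hv1, hv2⟩, -⟩ := hX
      rw [hbk] at hu2 hv2
      exact hu ⟨C, hC, EvST_cross hne (hoff u (by rw [hu2]; exact hi0))
        (hoff v (by rw [hv2]; exact hi0)) hu1 hv1⟩
    have hdiv : ∀ u v, f u = f v → f u ≠ i → C u = C v := by
      intro u v h1 h2
      by_cases h3 : f u = 0
      · have h4 : f v = 0 := by rw [← h1]; exact h3
        rcases EvST_T (hTf' u h3) with rfl | rfl <;> rcases EvST_T (hTf' v h4) with rfl | rfl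
        · rfl
        · exact hCT
        · exact hCT.symm
        · rfl
      · have := huniq2 ⟨u, hoff u h3⟩ ⟨v, hoff v (by rw [← h1]; exact h3)⟩ h1
          (by rw [← hi]; exact h2)
        rw [show u = v from congrArg Subtype.val this]
    -- rotate the pair to the block `0`
    obtain ⟨g, hg⟩ : ∃ g : Fin 3 × Bool → Fin 4, g = fun u => f u - i := ⟨_, rfl⟩
    have hcg : CPm n V 4 g := by rw [hg]; exact cp_rot hcp i
    have hbg : bk g 0 = bk f i := by
      funext u
      simp only [bk, hg, sub_eq_zero]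
    have hX' : Crossg C (bk g 0) := by rw [hbg]; exact hX
    have h1 : (∀ u, g u = 1 → C u = true) ∨ (∀ u, g u = 1 → C u = false) := by
      obtain ⟨p, hp⟩ := hcg.1 1
      have hpp : ∀ u, g u = 1 → C u = C p := by
        intro u hu1
        have e1 : f u = f p := by
          have : f u - i = f p - i := by rw [hg] at hu1 hp; simp only at hu1 hp; rw [hu1, hp]
          exact sub_left_injective this
        refine hdiv u p e1 ?_
        intro e2
        rw [hg] at hu1
        simp only at hu1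
        rw [e2, sub_self] at hu1
        exact absurd hu1 (by decide)
      cases hCp : C p
      · right; intro u hu1; rw [hpp u hu1]; exact hCp
      · left; intro u hu1; rw [hpp u hu1]; exact hCp
    obtain ⟨f', hf', g0, g1, g2, g3⟩ := cp_refine4 E hcg hC hX' h1
    have hk : ∃ k : Fin 5, ∀ u, g u = -i ↔ f' u = k := by
      have h4 : i = 1 ∨ i = 2 ∨ i = 3 := by
        revert hi0; clear * -; revert i; decide
      rcases h4 with h4 | h4 | h4
      · refine ⟨4, fun u => ?_⟩
        rw [← g3 u, h4]; exact Iff.rfl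
      · refine ⟨3, fun u => ?_⟩
        rw [← g2 u, h4]; exact Iff.rfl
      · refine ⟨2, fun u => ?_⟩
        rw [← g1 u, h4]; exact Iff.rfl
    obtain ⟨k, hk⟩ := hk
    refine cp_T (cp_rot hf' k) fun u => ?_
    rw [sub_eq_zero, ← hk u]
    have e5 : g u = -i ↔ f u = 0 := by
      rw [hg]
      simp only
      constructor
      · intro h; rwa [sub_eq_neg_self] at h
      · intro h; rw [h, zero_sub]
    rw [e5]
    exact ⟨hTf' u, hTf u⟩

end Pool.Agent.Sims
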