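import Pool.Agent.Sims.EvSG
import Pool.Agent.Sims.EvST
import Pool.Agent.Sims.EvI

/-!
# Module `EvUnc` : the three possibilities when `b` and `c` are crossed

Hypotheses: `Crs n W b` and `Crs n W c` for all `W ∈ EM (· ≠ 0) V` (`b = (1, true)`, `c = (2, true)`).
* `unc_sep`: a nontrivial cut `Q` of capacity `n` separating `b, b⁻¹` (or `c, c⁻¹`) is crossed: WLOG `b ∈ Q`, `b⁻¹ ∉ Q` (complement: `VX_compl`); it is a level `b`-cut, `act (wh b Q) V ∈ EM (· ≠ 0) V`; `nb'`.
* `unc_cases`: a nontrivial cut `Q` of capacity `n` which is not crossed separates neither `b` nor `c`; also it is not `{b, b⁻¹}`, `{c, c⁻¹}` or one of their complements (`crs_pair`, `VX_compl`).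
  Considering `Q` on `a, a⁻¹`, `b^{±1}`, `c^{±1}` we see that `Q` or its complement is `PrC 0` or `UU x` with `x = a` or `x = a⁻¹`
  (`{a, c, c⁻¹}` is the complement of `UU a⁻¹`).
* `unc3`: if all nontrivial cuts of capacity `n` are crossed: `starG` (there is one: `crs_ntr` for `b`).  Otherwise one of the cuts of `unc_cases` is not crossed (`NC_compl`, `VX_compl`, `Ntr`).
  If it is `UU x`: second alternative.  Otherwise no `UU x` is an uncrossed cut of capacity `n`, and `PrC 0` has capacity `n` and is not crossed: then all nontrivial cuts of capacity `n` except `PrC 0`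
  and its complement are crossed, `starT` (a nontrivial level `b`-cut exists, it separates `b`, so it is neither `PrC 0` nor its complement).
* `unc4`: the same with all three letters crossed for all `W ∈ orb V`: then `Full`: `PrC 0` is crossed by `crs_pair`, and a `UU x` separates `a`: `nb'` for `a`.
Difficulty 3.
-/

namespace Pool.Agent.Sims

/-- cuts not separating `b` or `c` -/
def EvUnc_Q (q0 q0' q1 q2 : Bool) : Ct :=
  fun x => if x.1 = 0 then (if x.2 then q0 else q0') else if x.1 = 1 then q1 else q2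

theorem EvUnc_eq {Q : Ct} (h1 : Q (1, true) = Q (1, false)) (h2 : Q (2, true) = Q (2, false)) :
    Q = EvUnc_Q (Q (0, true)) (Q (0, false)) (Q (1, true)) (Q (2, true)) := by
  funext x
  rcases x with ⟨i, b⟩
  fin_cases i <;> cases b <;> simp [EvUnc_Q, h1, h2]

theorem EvUnc_dec : ∀ q0 q0' q1 q2 : Bool,
    ((∃ x y : Fin 3 × Bool, x ≠ y ∧ EvUnc_Q q0 q0' q1 q2 x = true ∧ EvUnc_Q q0 q0' q1 q2 y = true) ∧
      ∃ x y : Fin 3 × Bool, x ≠ y ∧ EvUnc_Q q0 q0' q1 q2 x = false ∧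
        EvUnc_Q q0 q0' q1 q2 y = false) →
    (∀ x, EvUnc_Q q0 q0' q1 q2 x = PrC 0 x) ∨ (∀ x, EvUnc_Q q0 q0' q1 q2 x = !PrC 0 x) ∨
    (∀ x, EvUnc_Q q0 q0' q1 q2 x = PrC 1 x) ∨ (∀ x, EvUnc_Q q0 q0' q1 q2 x = !PrC 1 x) ∨
    (∀ x, EvUnc_Q q0 q0' q1 q2 x = PrC 2 x) ∨ (∀ x, EvUnc_Q q0 q0' q1 q2 x = !PrC 2 x) ∨
    ((∀ x, EvUnc_Q q0 q0' q1 q2 x = UU (0, true) x) ∨
      (∀ x, EvUnc_Q q0 q0' q1 q2 x = !UU (0, true) x)) ∨
    ((∀ x, EvUnc_Q q0 q0' q1 q2 x = UU (0, false) x) ∨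
      (∀ x, EvUnc_Q q0 q0' q1 q2 x = !UU (0, false) x)) := by
  unfold EvUnc_Q PrC UU
  decide

theorem EvUnc_bar1 : bar ((1 : Fin 3), true) = (1, false) := rfl

theorem EvUnc_bar (i : Fin 3) : bar (i, true) = (i, false) := rfl

theorem unc_sep {n : ℕ} {V : CC} (E : Eq3 n V) {z : Fin 3 × Bool}
    (h : ∀ Q, Lv V z Q → Ntr Q → Crs n (act (wh z Q) V) z) {Q : Ct} (hQ : NC n V Q) (hn : Ntr Q)
    (hz : Q z ≠ Q (bar z)) : VX n V Q := by
  cases h1 : Q z
  · have h2 : Q (bar z) = true := by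
      cases h3 : Q (bar z)
      · exact absurd (h1.trans h3.symm) hz
      · rfl
    have hL : Lv V z (fun x => !Q x) := by
      rw [Lv_NC E]
      exact ⟨by simp [h1], by simp [h2], NC_compl hQ⟩
    have hn' := Ntr_compl hn
    have := nb' E hL hn' (h _ hL hn')
    rwa [VX_compl] at this
  · have h2 : Q (bar z) = false := by
      cases h3 : Q (bar z)
      · rfl
      · exact absurd (h1.trans h3.symm) hz
    have hL : Lv V z Q := by
      rw [Lv_NC E]
      exact ⟨h1, h2, hQ⟩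
    exact nb' E hL hn (h _ hL hn)

theorem EvUnc_cases {n : ℕ} {V : CC} (E : Eq3 n V)
    (hb : ∀ W ∈ EM (fun i => i ≠ 0) V, Crs n W (1, true))
    (hc : ∀ W ∈ EM (fun i => i ≠ 0) V, Crs n W (2, true)) {Q : Ct} (hQ : NC n V Q)
    (hn : Ntr Q) (hv : ¬ VX n V Q) :
    (∀ x, Q x = PrC 0 x) ∨ (∀ x, Q x = !PrC 0 x) ∨
      ∃ x : Fin 3 × Bool, x.1 = 0 ∧ ((∀ y, Q y = UU x y) ∨ (∀ y, Q y = !UU x y)) := by
  have hrefl : V ∈ EM (fun i => i ≠ 0) V := Relation.ReflTransGen.refl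
  have hstep : ∀ (z : Fin 3 × Bool) (A : Ct), z.1 ≠ 0 → Lv V z A →
      act (wh z A) V ∈ EM (fun i => i ≠ 0) V := by
    intro z A hz hA
    exact Relation.ReflTransGen.single ⟨z, A, hz, hA, rfl⟩
  have h1 : Q (1, true) = Q (1, false) := by
    by_contra hne
    exact hv (unc_sep E (z := (1, true)) (fun P hP _ => hb _ (hstep _ P (by decide) hP)) hQ hn hne)
  have h2 : Q (2, true) = Q (2, false) := by
    by_contra hne
    exact hv (unc_sep E (z := (2, true)) (fun P hP _ => hc _ (hstep _ P (by decide) hP)) hQ hn hne)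
  have hx1 : VX n V (PrC 1) := crs_pair E (z := (1, true)) (hb V hrefl)
  have hx2 : VX n V (PrC 2) := crs_pair E (z := (2, true)) (hc V hrefl)
  have hdec := EvUnc_dec (Q (0, true)) (Q (0, false)) (Q (1, true)) (Q (2, true))
  rw [← EvUnc_eq h1 h2] at hdec
  rcases hdec hn with h | h | h | h | h | h | h | h
  · exact Or.inl h
  · exact Or.inr (Or.inl h)
  · exact absurd ((VX_congr h).2 hx1) hv
  · exact absurd ((VX_congr h).2 (VX_compl.2 hx1)) hv
  · exact absurd ((VX_congr h).2 hx2) hv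
  · exact absurd ((VX_congr h).2 (VX_compl.2 hx2)) hv
  · exact Or.inr (Or.inr ⟨(0, true), rfl, h⟩)
  · exact Or.inr (Or.inr ⟨(0, false), rfl, h⟩)

theorem unc3 {n : ℕ} {V : CC} (E : Eq3 n V)
    (hb : ∀ W ∈ EM (fun i => i ≠ 0) V, Crs n W (1, true))
    (hc : ∀ W ∈ EM (fun i => i ≠ 0) V, Crs n W (2, true)) :
    Full n V ∨ (∃ x : Fin 3 × Bool, x.1 = 0 ∧ NC n V (UU x) ∧ ¬ VX n V (UU x)) ∨
      (NC n V (PrC 0) ∧ ¬ VX n V (PrC 0) ∧ Five n V) := by
  have hrefl : V ∈ EM (fun i => i ≠ 0) V := Relation.ReflTransGen.refl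
  obtain ⟨A, hA, hAn, -⟩ := crs_ntr (hb V hrefl)
  have hA' := (Lv_NC E).1 hA
  by_cases hall : ∀ Q, NC n V Q → Ntr Q → VX n V Q
  · exact Or.inl (starG E ⟨A, hA'.2.2, hAn⟩ hall)
  · by_cases hU : ∃ x : Fin 3 × Bool, x.1 = 0 ∧ NC n V (UU x) ∧ ¬ VX n V (UU x)
    · exact Or.inr (Or.inl hU)
    · right; right
      have key : ∀ Q, NC n V Q → Ntr Q → ¬ VX n V Q →
          (∀ x, Q x = PrC 0 x) ∨ (∀ x, Q x = !PrC 0 x) := by
        intro Q hQ hn hv
        rcases EvUnc_cases E hb hc hQ hn hv with h | h | ⟨x, hx, h | h⟩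
        · exact Or.inl h
        · exact Or.inr h
        · exact absurd ⟨x, hx, NC_congr hQ h, fun hc => hv ((VX_congr h).2 hc)⟩ hU
        · refine absurd ⟨x, hx, ?_, ?_⟩ hU
          · exact NC_congr (NC_compl hQ) (fun y => by rw [h y, Bool.not_not])
          · intro hc
            exact hv ((VX_congr h).2 (VX_compl.2 hc))
      push Not at hall
      obtain ⟨Q, hQ, hn, hv⟩ := hall
      have hT : NC n V (PrC 0) ∧ ¬ VX n V (PrC 0) := by
        rcases key Q hQ hn hv with h | h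
        · exact ⟨NC_congr hQ h, fun hc => hv ((VX_congr h).2 hc)⟩
        · refine ⟨NC_congr (NC_compl hQ) (fun y => by rw [h y, Bool.not_not]), ?_⟩
          intro hc
          exact hv ((VX_congr h).2 (VX_compl.2 hc))
      refine ⟨hT.1, hT.2, starT E hT.1 hT.2 ⟨A, hA'.2.2, hAn, ⟨(1, true), ?_⟩, (1, false), ?_⟩ ?_⟩
      · rw [hA'.1]
        simp [PrC]
      · have := hA'.2.1
        rw [EvUnc_bar] at this
        rw [this]
        simp [PrC]
      · intro P hP hPn h1 h2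
        by_contra hv'
        rcases key P hP hPn hv' with h | h
        · obtain ⟨x, hx⟩ := h1
          exact hx (h x)
        · obtain ⟨x, hx⟩ := h2
          have := h x
          rw [hx] at this
          cases hp : PrC 0 x <;> simp [hp] at this

theorem unc4 {n : ℕ} {V : CC} (E : Eq3 n V)
    (h : ∀ W ∈ orb V, ∀ i, Crs n W (i, true)) : Full n V := by
  have hem : ∀ W ∈ EM (fun i => i ≠ 0) V, W ∈ orb V := by
    intro W hW
    have hW' : Relation.ReflTransGen (StM (fun i => i ≠ 0)) V W := hW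
    induction hW' with
    | refl => exact orb_refl V
    | @tail W W' h1 h2 ih =>
      obtain ⟨z, A, _, hA, rfl⟩ := h2
      exact orb_trans (ih h1) (Lv_Sm hA).1
  have hb : ∀ W ∈ EM (fun i => i ≠ 0) V, Crs n W (1, true) := fun W hW => h W (hem W hW) 1
  have hc : ∀ W ∈ EM (fun i => i ≠ 0) V, Crs n W (2, true) := fun W hW => h W (hem W hW) 2
  have hx0 : VX n V (PrC 0) := crs_pair E (z := (0, true)) (h V (orb_refl V) 0)
  have hsep0 : ∀ Q, NC n V Q → Ntr Q → Q (0, true) ≠ Q (0, false) → VX n V Q := by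
    intro Q hQ hn hne
    exact unc_sep E (z := (0, true)) (fun P hP _ => h _ (Lv_Sm hP).1 0) hQ hn hne
  obtain ⟨A, hA, hAn, -⟩ := crs_ntr (h V (orb_refl V) 0)
  refine starG E ⟨A, ((Lv_NC E).1 hA).2.2, hAn⟩ ?_
  intro Q hQ hn
  by_contra hv
  rcases EvUnc_cases E hb hc hQ hn hv with h1 | h1 | ⟨x, hx, h1⟩
  · exact hv ((VX_congr h1).2 hx0)
  · exact hv ((VX_congr h1).2 (VX_compl.2 hx0))
  · apply hv
    apply hsep0 Q hQ hn
    have hU : UU x (0, true) ≠ UU x (0, false) := by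
      rcases x with ⟨i, b⟩
      simp only at hx
      subst hx
      cases b <;> simp [UU]
    rcases h1 with h1 | h1
    · rw [h1, h1]
      exact hU
    · rw [h1, h1]
      intro h2
      exact hU (Bool.not_inj h2)

end Pool.Agent.Sims
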