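import Pool.Agent.Sims.EvBU
import Pool.Agent.Sims.EvUnc
import Pool.Agent.Sims.EvEU
import Pool.Agent.Sims.EvDet
import Pool.Agent.Sims.EvDet5
import Pool.Agent.Sims.EvPatE
import Pool.Agent.Sims.EvPatT
import Pool.Agent.Sims.EvCt

/-!
# Module `EvC3` : exactly one rigid letter

* `c3`: `a` is rigid at `V`; for all `W ∈ orb V` and `i ≠ j` one of `x_i, x_j` is crossed.  By `crs_em` `a` is rigid at all `W ∈ EM (· ≠ 0) V`, so `b` and `c` are crossed there.  `unc3`:
  (i) `UU x` uncrossed: `eu` gives a cover with `9` elements (`τ = ` identity: `exists_SPerm_one`, or `flp (fun _ => true)`): `bddU`: `72`.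
  (ii) `Five`: `det_five` for all `y.1 ≠ 0` (`crs_bar`), `pat_five`: `V = mk (gT j g)`.  For all `W ∈ EM (· ≠ 0) V`: `PrC 0` has capacity `n` and is not crossed at `W` (`per`, induction) and `W = mk (gT j g')` for some `g'` with `In12 g'`, `g' ≠ 1`:
  induction: a level move `(B, y)` at `W`, `y.1 ≠ 0`: `B` does not cross `PrC 0` (`nest_unc`, `Lv_NC`), so `PrC 0 ⊆ B` or `PrC 0 ∩ B = ∅` (`y, y⁻¹` exclude the other cases of `not_Crossg`); replacing `(y, B)` by `(y⁻¹, Bᶜ)` we are in the second
  case, `gT_move`, `wh_In12`.  `ct12` and `bddU`: `8·12 = 96`.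
  (iii) `Full`: `det_full`, `pat_full`: `Pat port π V`; `pat_move` and induction: `Pat port π W` for all `W ∈ EM (· ≠ 0) V`.  `ct60`, `bddU`: `8·60 = 480`.
Difficulty 3.
-/

namespace Pool.Agent.Sims

theorem evc3_mono {V : CC} {N N' : ℕ} (h : Bdd V N) (hN : N ≤ N') : Bdd V N' := by
  obtain ⟨F, hF, h⟩ := h
  exact ⟨F, hF.trans hN, h⟩

theorem evc3_five {n : ℕ} {V : CC} (E : Eq3 n V) {j : List (ℤ × Bool)}
    (hT : NC n V (PrC 0)) (hu : ¬ VX n V (PrC 0))
    {g : FreeGroup (Fin 3)} (hg : In12 g) (hg1 : g ≠ 1) (hV : V = ConjClasses.mk (gT j g))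
    {W : CC} (hW : W ∈ EM (fun i => i ≠ 0) V) :
    NC n W (PrC 0) ∧ ¬ VX n W (PrC 0) ∧ ∃ g' : FreeGroup (Fin 3), In12 g' ∧ g' ≠ 1 ∧
      W = ConjClasses.mk (gT j g') := by
  change Relation.ReflTransGen (StM (fun i => i ≠ 0)) V W at hW
  induction hW with
  | refl => exact ⟨hT, hu, g, hg, hg1, hV⟩
  | @tail W W' hW hst ih =>
    obtain ⟨ih1, ih2, g', hg', hg1', hW'⟩ := ih
    obtain ⟨y, B, hy, hB, rfl⟩ := hst
    have EW : Eq3 n W := E.em hW
    have hyy : PrC 0 y = PrC 0 (bar y) := rfl
    have hp := per EW ih1 ih2 hB hyy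
    have hpy : PrC 0 y = false := by
      rw [PrC]; exact decide_eq_false hy
    have hpy' : PrC 0 (bar y) = false := hpy
    have hncr := nest_unc ((Lv_NC EW).1 hB).2.2 ih2
    refine ⟨hp.1, hp.2, ?_⟩
    have h01 : PrC 0 ((0 : Fin 3), true) = true := rfl
    have h02 : PrC 0 ((0 : Fin 3), false) = true := rfl
    rcases not_Crossg hncr with h | h | h | h
    · have b1 : B (0, true) = false := by
        by_contra hh
        rw [Bool.not_eq_false] at hh
        have := h _ hh
        rw [h01] at this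
        exact absurd this (by decide)
      have b2 : B (0, false) = false := by
        by_contra hh
        rw [Bool.not_eq_false] at hh
        have := h _ hh
        rw [h02] at this
        exact absurd this (by decide)
      refine ⟨wh y B g', wh_In12 hy B hg', fun h => hg1' ?_, ?_⟩
      · exact (map_eq_one_iff _ (MulEquiv.injective _)).1 h
      · rw [hW', gT_move hy b1 b2]
    · exfalso
      have := h y hB.1
      rw [hpy] at this
      exact absurd this (by decide)
    · have hc := Lv_compl hB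
      have hy' : (bar y).1 ≠ 0 := hy
      have b1 : (fun x => !B x) (0, true) = false := by
        change (!B (0, true)) = false
        rw [h _ h01]; rfl
      have b2 : (fun x => !B x) (0, false) = false := by
        change (!B (0, false)) = false
        rw [h _ h02]; rfl
      refine ⟨wh (bar y) (fun x => !B x) g', wh_In12 hy' _ hg', fun h => hg1' ?_, ?_⟩
      · exact (map_eq_one_iff _ (MulEquiv.injective _)).1 h
      · rw [← hc.2, hW', gT_move hy' b1 b2]
    · exfalso
      rcases h (bar y) with h | h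
      · rw [hB.2.1] at h
        exact absurd h (by decide)
      · rw [hpy'] at h
        exact absurd h (by decide)

theorem evc3_pat {port : Bool → Bool → Bool} {π : List (Bool × Bool)} (hc : Cons port π) {V : CC}
    (h : Pat port π V) {W : CC} (hW : W ∈ EM (fun i => i ≠ 0) V) : Pat port π W := by
  change Relation.ReflTransGen (StM (fun i => i ≠ 0)) V W at hW
  induction hW with
  | refl => exact h
  | @tail W W' hW hst ih =>
    obtain ⟨y, B, hy, hB, rfl⟩ := hst
    exact pat_move hc ih hy hB.1 hB.2.1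

theorem c3 {n : ℕ} {V : CC} (E : Eq3 n V) (ha : ¬ Crs n V (0, true))
    (h2 : ∀ W ∈ orb V, ∀ i j : Fin 3, i ≠ j → Crs n W (i, true) ∨ Crs n W (j, true)) :
    Bdd V 480 := by
  have hn : 0 < n := by
    have := E.h4
    omega
  have ha' : ∀ W ∈ EM (fun i => i ≠ 0) V, ¬ Crs n W (0, true) := by
    intro W hW h
    exact ha ((crs_em E (M := fun i => i ≠ 0) (z := (0, true)) (fun h => h rfl) hW).1 h)
  have hb : ∀ W ∈ EM (fun i => i ≠ 0) V, Crs n W (1, true) := by
    intro W hW
    rcases h2 W (EM_orb hW) 1 0 (by decide) with h | h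
    · exact h
    · exact absurd h (ha' W hW)
  have hc : ∀ W ∈ EM (fun i => i ≠ 0) V, Crs n W (2, true) := by
    intro W hW
    rcases h2 W (EM_orb hW) 2 0 (by decide) with h | h
    · exact h
    · exact absurd h (ha' W hW)
  have hVV : V ∈ EM (fun i => i ≠ 0) V := Relation.ReflTransGen.refl
  have hcr : ∀ y : Fin 3 × Bool, y.1 ≠ 0 → Crs n V y := by
    rintro ⟨i, s⟩ hy
    have h1 : ∀ i : Fin 3, i ≠ 0 → Crs n V (i, true) := by
      intro i hi
      fin_cases i
      · exact absurd rfl hi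
      · exact hb V hVV
      · exact hc V hVV
    cases s with
    | true => exact h1 i hy
    | false => exact crs_bar (h1 i hy)
  rcases unc3 E hb hc with hF | ⟨x, hx, hU, hu⟩ | ⟨hT, hu, h5⟩
  · obtain ⟨port, π, hcons, k1, k2, hP⟩ := pat_full E hF (fun y hy => det_full E hF (hcr y hy))
    obtain ⟨F, hF1, hF2⟩ := ct60 hn hcons k1 k2
    refine evc3_mono (bddU E ha' hF1 ?_) (by norm_num)
    intro W hW
    exact hF2 W (evc3_pat hcons hP hW) (E.em hW).c
  · obtain ⟨F, hF1, hF2⟩ := eu E hx hU hu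
    obtain ⟨π, hπ1, hπ2, -⟩ := exists_SPerm_one
    refine evc3_mono (bddU E ha' hF1 ?_) (by norm_num)
    intro W hW
    exact ⟨π, hπ2, W, hF2 W hW, (hπ1 W).symm⟩
  · obtain ⟨j, g, hl, hj, hg, hg1, hV⟩ := pat_five E h5
      (fun y hy => det_five E h5 hT hu hy (hcr y hy))
    obtain ⟨F, hF1, hF2⟩ := ct12 hn j hj hl
    refine evc3_mono (bddU E ha' hF1 ?_) (by norm_num)
    intro W hW
    obtain ⟨-, -, g', hg', hg1', hW'⟩ := evc3_five E hT hu hg hg1 hV hW
    obtain ⟨τ, hτ, e, he, hh⟩ := hF2 g' hg' hg1' (by rw [← hW']; exact (E.em hW).c)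
    exact ⟨τ, hτ, e, he, by rw [hW']; exact hh⟩

end Pool.Agent.Sims
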