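import Pool.Agent.Sims.EvBas

/-!
# Module `EvN6` : normal forms of words with two letters of each generator

* `norm6`: a list `v` of six letters, two of each generator: `v = v₀.map σ.letter` with `v₀` in a list of `120` lists (the generators appear in the order `0, 1, 2`, the first letter of each generator is positive).
* `ct120`: `cls (replicate h v).flatten`, `Rel_act_cls`.
-/

namespace Pool.Agent.Sims

theorem EvN6_split (p : Fin 3) (l : List (Fin 3 × Bool)) (h : cntL l p = 1) :
    ∃ (w : List (Fin 3 × Bool)) (n : ℕ) (b : Bool), n ≤ w.length ∧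
      l = w.take n ++ (p, b) :: w.drop n ∧ cntL w p = 0 ∧ ∀ q, q ≠ p → cntL w q = cntL l q := by
  have h1 : 0 < l.countP (fun x => decide (x.1 = p)) := by
    have : l.countP (fun x => decide (x.1 = p)) = 1 := h
    omega
  obtain ⟨a, ha, hp⟩ := List.countP_pos_iff.1 h1
  obtain ⟨s, t, rfl⟩ := List.append_of_mem ha
  have hp' : a.1 = p := by simpa using hp
  refine ⟨s ++ t, s.length, a.2, by simp, ?_, ?_, ?_⟩
  · have : a = (p, a.2) := by rw [← hp']
    rw [← this]
    simp
  · simp only [cntL, List.countP_append, List.countP_cons, hp', decide_true, if_true] at h ⊢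
    omega
  · intro q hq
    have : ¬ (a.1 = q) := by rw [hp']; exact fun h => hq h.symm
    simp [cntL, List.countP_append, List.countP_cons, this]

/-- the normal forms -/
def EvN6_bld (t : Fin 5 × Fin 3 × Bool × Bool × Bool) : List (Fin 3 × Bool) :=
  (0, true) :: (((1, true) :: (([(2, true), (2, t.2.2.2.2)] : List (Fin 3 × Bool)).take t.2.1.val ++
      (1, t.2.2.2.1) :: ([(2, true), (2, t.2.2.2.2)] : List (Fin 3 × Bool)).drop t.2.1.val)).take t.1.val ++
    (0, t.2.2.1) :: (((1, true) :: (([(2, true), (2, t.2.2.2.2)] : List (Fin 3 × Bool)).take t.2.1.val ++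
      (1, t.2.2.2.1) :: ([(2, true), (2, t.2.2.2.2)] : List (Fin 3 × Bool)).drop t.2.1.val))).drop t.1.val)

theorem EvN6_len (v : List (Fin 3 × Bool)) : v.length = cntL v 0 + cntL v 1 + cntL v 2 := by
  induction v with
  | nil => simp [cntL]
  | cons a v ih =>
    have h0 : a.1 = 0 ∨ a.1 = 1 ∨ a.1 = 2 := by
      rcases a with ⟨i, b⟩
      fin_cases i <;> simp
    simp only [cntL, List.countP_cons, List.length_cons] at ih ⊢
    rw [ih]
    rcases h0 with h | h | h <;> simp [h] <;> omega

theorem EvN6_head (v : List (Fin 3 × Bool)) (x : Fin 3 × Bool) (l : List (Fin 3 × Bool))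
    (hv : v = x :: l) (h : cntL v x.1 = 2) :
    ∃ (w : List (Fin 3 × Bool)) (n : ℕ) (b : Bool), n ≤ w.length ∧
      v = x :: (w.take n ++ (x.1, b) :: w.drop n) ∧ cntL w x.1 = 0 ∧ ∀ q, q ≠ x.1 → cntL w q = cntL v q := by
  subst hv
  have h1 : cntL l x.1 = 1 := by
    simp only [cntL, List.countP_cons, decide_true, if_true] at h ⊢
    omega
  obtain ⟨w, n, b, hn, hl, hw, hq⟩ := EvN6_split x.1 l h1
  refine ⟨w, n, b, hn, by rw [← hl], hw, ?_⟩
  intro q hq'
  rw [hq q hq']
  have : ¬ (x.1 = q) := fun h => hq' h.symm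
  simp [cntL, List.countP_cons, this]

theorem EvN6_third : ∀ p q r : Fin 3, p ≠ q → r ≠ p → r ≠ q →
    ∀ f : Fin 3 → ℕ, f 0 + f 1 + f 2 = f p + f q + f r := by
  intro p q r h1 h2 h3 f
  fin_cases p <;> fin_cases q <;> fin_cases r <;> simp at h1 h2 h3 ⊢ <;> omega

theorem EvN6_ex3 : ∀ p q : Fin 3, p ≠ q → ∃ r : Fin 3, r ≠ p ∧ r ≠ q := by decide

theorem EvN6_neg (s b : Bool) : ∃ c : Bool, b = if s then c else !c := by
  cases s <;> cases b <;> simp

theorem norm6 : ∃ F : Finset (List (Fin 3 × Bool)), F.card ≤ 120 ∧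
    ∀ v : List (Fin 3 × Bool), (∀ i, cntL v i = 2) →
      ∃ σ : SPerm (Fin 3), ∃ v0 ∈ F, v = v0.map σ.letter := by
  refine ⟨Finset.univ.image EvN6_bld, ?_, ?_⟩
  · refine le_trans Finset.card_image_le ?_
    simp
  intro v hv
  have hlen := EvN6_len v
  rw [hv, hv, hv] at hlen
  obtain ⟨x, l, hxl⟩ : ∃ x l, v = x :: l := by
    cases v with
    | nil => simp at hlen
    | cons x l => exact ⟨x, l, rfl⟩
  obtain ⟨w, n, b, hn, hvw, hw0, hwq⟩ := EvN6_head v x l hxl (hv x.1)
  have hwlen : w.length = 4 := by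
    have := congrArg List.length hvw
    simp only [List.length_cons, List.length_append, List.length_take, List.length_drop] at this
    omega
  obtain ⟨y, l', hyl⟩ : ∃ y l, w = y :: l := by
    cases w with
    | nil => simp at hwlen
    | cons x l => exact ⟨x, l, rfl⟩
  have hyx : y.1 ≠ x.1 := by
    intro h
    rw [hyl] at hw0
    simp [cntL, List.countP_cons, h] at hw0
  have hwy : cntL w y.1 = 2 := by rw [hwq _ hyx, hv]
  obtain ⟨u, m, c, hm, hwu, hu0, huq⟩ := EvN6_head w y l' hyl hwy
  have hulen : u.length = 2 := by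
    have := congrArg List.length hwu
    simp only [List.length_cons, List.length_append, List.length_take, List.length_drop] at this
    omega
  obtain ⟨z, z', hz⟩ : ∃ z z', u = [z, z'] := by
    match u, hulen with
    | [z, z'], _ => exact ⟨z, z', rfl⟩
  have hux : cntL u x.1 = 0 := by rw [huq _ hyx.symm, hw0]
  have hzy : z.1 ≠ y.1 := by
    intro h; rw [hz] at hu0; simp [cntL, List.countP_cons, h] at hu0
  have hzx : z.1 ≠ x.1 := by
    intro h; rw [hz] at hux; simp [cntL, List.countP_cons, h] at hux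
  have hz'y : z'.1 ≠ y.1 := by
    intro h; rw [hz] at hu0; simp [cntL, List.countP_cons, h] at hu0
  have hz'x : z'.1 ≠ x.1 := by
    intro h; rw [hz] at hux; simp [cntL, List.countP_cons, h] at hux
  have hz' : z'.1 = z.1 := by
    have : ∀ p q r s : Fin 3, p ≠ q → r ≠ p → r ≠ q → s ≠ p → s ≠ q → s = r := by decide
    exact this x.1 y.1 z.1 z'.1 hyx.symm hzx hzy hz'x hz'y
  -- the signed permutation
  let f : Fin 3 → Fin 3 := ![x.1, y.1, z.1]
  have hf : Function.Injective f := by
    intro i j hij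
    fin_cases i <;> fin_cases j <;> simp [f] at hij ⊢
    · exact hyx hij.symm
    · exact hzx hij.symm
    · exact hyx hij
    · exact hzy hij.symm
    · exact hzx hij
    · exact hzy hij
  let σ : SPerm (Fin 3) := ⟨Equiv.ofBijective f (Finite.injective_iff_bijective.1 hf), ![x.2, y.2, z.2]⟩
  obtain ⟨s0, hs0⟩ := EvN6_neg x.2 b
  obtain ⟨s1, hs1⟩ := EvN6_neg y.2 c
  obtain ⟨s2, hs2⟩ := EvN6_neg z.2 z'.2
  have e0 : σ.letter (0, true) = x := by
    simp only [SPerm.letter, σ, Equiv.ofBijective_apply, f]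
    rcases x with ⟨x1, x2⟩
    cases x2 <;> simp
  have e1 : σ.letter (1, true) = y := by
    simp only [SPerm.letter, σ, Equiv.ofBijective_apply, f]
    rcases y with ⟨x1, x2⟩
    cases x2 <;> simp
  have e2 : σ.letter (2, true) = z := by
    simp only [SPerm.letter, σ, Equiv.ofBijective_apply, f]
    rcases z with ⟨x1, x2⟩
    cases x2 <;> simp
  have e3 : σ.letter (0, s0) = (x.1, b) := by
    simp only [SPerm.letter, σ, Equiv.ofBijective_apply, f]
    rw [hs0]; rfl
  have e4 : σ.letter (1, s1) = (y.1, c) := by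
    simp only [SPerm.letter, σ, Equiv.ofBijective_apply, f]
    rw [hs1]; rfl
  have e5 : σ.letter (2, s2) = z' := by
    have : z' = (z.1, z'.2) := by rw [← hz']
    rw [this]
    simp only [SPerm.letter, σ, Equiv.ofBijective_apply, f]
    rw [hs2]; rfl
  refine ⟨σ, EvN6_bld (⟨n, by omega⟩, ⟨m, by omega⟩, s0, s1, s2), Finset.mem_image.2 ⟨_, Finset.mem_univ _, rfl⟩, ?_⟩
  simp only [EvN6_bld]
  rw [hvw, hwu, hz]
  simp only [List.map_cons, List.map_append, List.map_take, List.map_drop, e0, e1, e2, e3, e4, e5, List.map_nil]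

theorem EvN6_flat (h : ℕ) (v : List (Fin 3 × Bool)) (f : Fin 3 × Bool → Fin 3 × Bool) :
    (List.replicate h (v.map f)).flatten = (List.replicate h v).flatten.map f := by
  rw [List.map_flatten, List.map_replicate]

theorem ct120 (h : ℕ) : ∃ F : Finset CC, F.card ≤ 120 ∧
    ∀ v : List (Fin 3 × Bool), (∀ i, cntL v i = 2) →
      ∃ σ : SPerm (Fin 3), ∃ e ∈ F, cls (List.replicate h v).flatten = act σ.aut e := by
  classical
  obtain ⟨F, hF, H⟩ := norm6
  refine ⟨F.image (fun v => cls (List.replicate h v).flatten), le_trans Finset.card_image_le hF, ?_⟩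
  intro v hv
  obtain ⟨σ, v0, hv0, rfl⟩ := H v hv
  refine ⟨σ, _, Finset.mem_image_of_mem _ hv0, ?_⟩
  rw [EvN6_flat, Rel_act_cls]

end Pool.Agent.Sims
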