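import Pool.Agent.Sims.EvFac
import Pool.Agent.Sims.EvFX

/-!
# Module `EvPow` : a full class with all letters deterministic is a power

Let `w = rep V`, of length `N = 3 n`, considered as a periodic sequence `w_i` (`i` modulo `N`).
(1) `DetL`: if `(w_i, w_{i+1}) = (w_j, w_{j+1})` then `w_{i+2} = w_{j+2}` and `w_{i-1} = w_{j-1}`; hence `w_{i+k} = w_{j+k}` for all integers `k`.
(2) If `(w_i, w_{i+1}) = (w_{j+1}⁻¹, w_j⁻¹)` then by (1) for passages and inverse passages `w_{i+k} = w_{j+1-k}⁻¹` for all `k`.  One of `j - i`, `j + 1 - i` is even, `= 2 k`: in the first case `w_{i+k} = w_{i+k+1}⁻¹`,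
    in the second case `w_{i+k} = w_{i+k}⁻¹`: both are impossible (reduced word; `bar_ne`).
(3) A pair `(w_i, w_{i+1}) = (x, y)` is an edge `{x, y⁻¹}` of the 6-cycle (`full_zero`), each of the six edges occurs (`n/2 > 0` times), and by (2) each edge occurs in only one of its two directions.  So exactly six
    pairs occur.
(4) Let `d > 0` be minimal with `(w_d, w_{d+1}) = (w_0, w_1)`.  By (1) `w_{i+d} = w_i` for all `i`; the pairs `(w_i, w_{i+1})`, `0 ≤ i < d`, are different (if two of them are equal, (1) gives a smaller period), and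
    all pairs that occur are among them.  So `d = 6`.  `N` is a multiple of `6` (`w_N = w_0`, division with remainder and minimality of `d`), so `w = (w_0 … w_5)^{N/6}`.
`v = w_0 … w_5`; `cntL v i = 2` as `cnt V i = n = (N/6) * cntL v i`, `N/6 = n/2`.
Difficulty 4.
-/

namespace Pool.Agent.Sims

/-- the word as a periodic sequence -/
def EvPow_W (w : List (Fin 3 × Bool)) (i : ℤ) : Fin 3 × Bool :=
  w.getD (i % (w.length : ℤ)).toNat (0, true)

theorem EvPow_rot (w : List (Fin 3 × Bool)) (h3 : 3 ≤ w.length) (i : ℤ) :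
    ∃ l, w ~r (EvPow_W w i :: EvPow_W w (i + 1) :: EvPow_W w (i + 2) :: l) := by
  have hN : (0 : ℤ) < w.length := by omega
  set m : ℕ := (i % (w.length : ℤ)).toNat with hm
  have hm0 : 0 ≤ i % (w.length : ℤ) := Int.emod_nonneg _ (by omega)
  have hm1 : i % (w.length : ℤ) < w.length := Int.emod_lt_of_pos _ hN
  have key : ∀ k : ℕ, k < w.length → (w.rotate m).getD k (0, true) = EvPow_W w (i + k) := by
    intro k hk
    have hk' : k < (w.rotate m).length := by rw [List.length_rotate]; exact hk
    rw [List.getD_eq_getElem _ _ hk', List.getElem_rotate]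
    unfold EvPow_W
    have e1 : ((i + k) % (w.length : ℤ)).toNat = (k + m) % w.length := by
      have e2 : ((k + m : ℕ) : ℤ) = k + i % (w.length : ℤ) := by
        push_cast
        rw [hm, Int.toNat_of_nonneg hm0]
      have e3 : (((k + m) % w.length : ℕ) : ℤ) = (i + k) % (w.length : ℤ) := by
        rw [Int.natCast_mod, e2, Int.add_emod_emod, add_comm]
      rw [← e3, Int.toNat_natCast]
    rw [e1, List.getD_eq_getElem _ _ (Nat.mod_lt _ (by omega))]
  have hlen : (w.rotate m).length = w.length := List.length_rotate w m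
  have k0 := key 0 (by omega)
  have k1 := key 1 (by omega)
  have k2 := key 2 (by omega)
  rcases hr : w.rotate m with _ | ⟨a, _ | ⟨b, _ | ⟨c, l⟩⟩⟩
  · rw [hr] at hlen; simp at hlen; omega
  · rw [hr] at hlen; simp at hlen; omega
  · rw [hr] at hlen; simp at hlen; omega
  · refine ⟨l, m, ?_⟩
    rw [hr] at k0 k1 k2 ⊢
    simp only [List.getD_cons_zero, List.getD_cons_succ, Nat.cast_zero, add_zero, Nat.cast_one,
      Nat.cast_ofNat] at k0 k1 k2
    rw [k0, k1, k2]

theorem EvPow_conv (w : List (Fin 3 × Bool)) (h3 : 3 ≤ w.length) {x q : Fin 3 × Bool}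
    {l : List (Fin 3 × Bool)} (h : (x :: q :: l) ~r w) :
    ∃ i : ℤ, EvPow_W w i = x ∧ EvPow_W w (i + 1) = q := by
  obtain ⟨m, hm⟩ := h.symm
  have hlen : (w.rotate m).length = w.length := List.length_rotate w m
  have key : ∀ k : ℕ, k < w.length → (w.rotate m).getD k (0, true) = EvPow_W w ((m : ℤ) + k) := by
    intro k hk
    have hk' : k < (w.rotate m).length := by rw [List.length_rotate]; exact hk
    rw [List.getD_eq_getElem _ _ hk', List.getElem_rotate]
    unfold EvPow_W
    have e1 : (((m : ℤ) + k) % (w.length : ℤ)).toNat = (k + m) % w.length := by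
      have e3 : (((k + m) % w.length : ℕ) : ℤ) = ((m : ℤ) + k) % (w.length : ℤ) := by
        rw [Int.natCast_mod]; push_cast; rw [add_comm]
      rw [← e3, Int.toNat_natCast]
    rw [e1, List.getD_eq_getElem _ _ (Nat.mod_lt _ (by omega))]
  have k0 := key 0 (by omega)
  have k1 := key 1 (by omega)
  rw [hm] at k0 k1
  simp only [List.getD_cons_zero, List.getD_cons_succ, Nat.cast_zero, add_zero,
    Nat.cast_one] at k0 k1
  exact ⟨m, k0.symm, k1.symm⟩

theorem EvPow_per (w : List (Fin 3 × Bool)) (i : ℤ) :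
    EvPow_W w (i + w.length) = EvPow_W w i := by
  unfold EvPow_W
  rw [Int.add_emod_right]

theorem EvPow_nat (w : List (Fin 3 × Bool)) {i : ℕ} (hi : i < w.length) :
    EvPow_W w i = w[i] := by
  unfold EvPow_W
  have : ((i : ℤ) % (w.length : ℤ)).toNat = i := by
    rw [Int.emod_eq_of_lt (by omega) (by omega), Int.toNat_natCast]
  rw [this, List.getD_eq_getElem _ _ hi]

/-- a word with period `m` is a power -/
theorem EvPow_power (m : ℕ) (f : ℕ → Fin 3 × Bool) (hf : ∀ i, f (i + m) = f i) (h : ℕ) :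
    (List.range (m * h)).map f = (List.replicate h ((List.range m).map f)).flatten := by
  induction h with
  | zero => simp
  | succ h ih =>
    rw [List.replicate_succ', List.flatten_append, ← ih, Nat.mul_succ, List.range_add,
      List.map_append]
    congr 1
    rw [List.map_map]
    simp only [List.flatten_cons, List.flatten_nil, List.append_nil]
    apply List.map_congr_left
    intro i _
    simp only [Function.comp_apply]
    have : ∀ k, f (m * k + i) = f i := by
      intro k
      induction k with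
      | zero => simp
      | succ k ihk => rw [Nat.mul_succ, add_right_comm, hf, ihk]
    exact this h

theorem EvPow_cntL (h : ℕ) (v : List (Fin 3 × Bool)) (i : Fin 3) :
    cntL (List.replicate h v).flatten i = h * cntL v i := by
  induction h with
  | zero => simp [cntL]
  | succ h ih =>
    rw [List.replicate_succ, List.flatten_cons, SameB_cntL_append, ih]
    ring

theorem pow_full {n : ℕ} {V : CC} (E : Eq3 n V) (hF : Full n V)
    (hd : ∀ y : Fin 3 × Bool, DetL V y) :
    ∃ (v : List (Fin 3 × Bool)) (h : ℕ), v.length = 6 ∧ (∀ i, cntL v i = 2) ∧ 2 * h = n ∧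
      V = cls (List.replicate h v).flatten := by
  obtain ⟨r, hr, hre⟩ := hF
  have h4 := E.h4
  have hlen : cycLen V = 3 * n := by
    rw [cycLen_eq_sum, Fin.sum_univ_three, E.c, E.c, E.c]; ring
  have hwl : (rep V).length = 3 * n := by rw [← cycLen_eq_rep, hlen]
  have hCR := rep_CR V
  have hcls := cls_rep V
  have hcnt : ∀ i, cntL (rep V) i = n := fun i => E.c i
  generalize rep V = w at hwl hCR hcls hcnt
  have hl3 : 3 ≤ w.length := by omega
  set W := EvPow_W w with hW
  -- passages
  have hPs : ∀ i : ℤ, Ps V (W i) (W (i + 1)) (W (i + 2)) := by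
    intro i
    obtain ⟨l, hl⟩ := EvPow_rot w hl3 i
    exact Or.inl ⟨l, CR_of_rotated hl hCR, by rw [← cls_of_rotated hl, hcls]⟩
  have hPs' : ∀ i : ℤ, Ps V (bar (W (i + 2))) (bar (W (i + 1))) (bar (W i)) :=
    fun i => ps_inv (hPs i)
  have hred : ∀ i : ℤ, W i ≠ bar (W (i + 1)) := by
    intro i heq
    have h1 : FI V [W i, W (i + 1), W (i + 2)] := ps_fi.1 (hPs i)
    have h2 := fi_red h1
    rw [FreeGroup.isReduced_cons_cons] at h2
    have h3 := h2.1
    rw [heq] at h3
    have h4 := h3 rfl
    simp [bar] at h4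
  -- (1)
  have fwd : ∀ i j : ℤ, W i = W j → W (i + 1) = W (j + 1) →
      ∀ k : ℤ, W (i + k) = W (j + k) ∧ W (i + k + 1) = W (j + k + 1) := by
    intro i j h0 h1 k
    induction k using Int.induction_on with
    | zero => rw [add_zero, add_zero]; exact ⟨h0, h1⟩
    | succ k ih =>
      refine ⟨by rw [← add_assoc, ← add_assoc]; exact ih.2, ?_⟩
      have p1 := hPs (i + k)
      have p2 := hPs (j + k)
      rw [ih.1, ih.2] at p1
      have := (hd _ _ _ _ _ p1 p2).1 rfl
      have e1 : i + ((k : ℤ) + 1) + 1 = i + k + 2 := by ring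
      have e2 : j + ((k : ℤ) + 1) + 1 = j + k + 2 := by ring
      rw [e1, e2, this]
    | pred k ih =>
      have e1 : i + (-(k : ℤ) - 1) + 1 = i + -(k : ℤ) := by ring
      have e2 : j + (-(k : ℤ) - 1) + 1 = j + -(k : ℤ) := by ring
      refine ⟨?_, by rw [e1, e2]; exact ih.1⟩
      have p1 := hPs (i + (-(k : ℤ) - 1))
      have p2 := hPs (j + (-(k : ℤ) - 1))
      have e3 : i + (-(k : ℤ) - 1) + 2 = i + -(k : ℤ) + 1 := by ring
      have e4 : j + (-(k : ℤ) - 1) + 2 = j + -(k : ℤ) + 1 := by ring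
      rw [e1, e3, ih.1, ih.2] at p1
      rw [e2, e4] at p2
      exact (hd _ _ _ _ _ p1 p2).2 rfl
  -- (2)
  have rev : ∀ i j : ℤ, W i = bar (W (j + 1)) → W (i + 1) = bar (W j) →
      ∀ k : ℤ, W (i + k) = bar (W (j + 1 - k)) ∧ W (i + k + 1) = bar (W (j - k)) := by
    intro i j h0 h1 k
    induction k using Int.induction_on with
    | zero => rw [add_zero, sub_zero, sub_zero]; exact ⟨h0, h1⟩
    | succ k ih =>
      have e0 : j + 1 - ((k : ℤ) + 1) = j - k := by ring
      refine ⟨by rw [e0, ← add_assoc]; exact ih.2, ?_⟩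
      have p1 := hPs (i + k)
      have p2 := hPs' (j - k - 1)
      have e1 : j - (k : ℤ) - 1 + 2 = j + 1 - k := by ring
      have e2 : j - (k : ℤ) - 1 + 1 = j - k := by ring
      rw [e1, e2] at p2
      rw [ih.1, ih.2] at p1
      have := (hd _ _ _ _ _ p1 p2).1 rfl
      have e3 : i + ((k : ℤ) + 1) + 1 = i + k + 2 := by ring
      have e4 : j - ((k : ℤ) + 1) = j - k - 1 := by ring
      rw [e3, e4, this]
    | pred k ih =>
      have e1 : i + (-(k : ℤ) - 1) + 1 = i + -(k : ℤ) := by ring
      have e2 : j - (-(k : ℤ) - 1) = j + 1 - -(k : ℤ) := by ring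
      refine ⟨?_, by rw [e1, e2]; exact ih.1⟩
      have p1 := hPs (i + (-(k : ℤ) - 1))
      have p2 := hPs' (j - -(k : ℤ))
      have e3 : i + (-(k : ℤ) - 1) + 2 = i + -(k : ℤ) + 1 := by ring
      have e4 : j - -(k : ℤ) + 1 = j + 1 - -(k : ℤ) := by ring
      rw [e1, e3, ih.1, ih.2] at p1
      rw [e4] at p2
      have := (hd _ _ _ _ _ p1 p2).2 rfl
      have e5 : j + 1 - (-(k : ℤ) - 1) = j - -(k : ℤ) + 2 := by ring
      rw [e5, this]
  have norev : ∀ i j : ℤ, W i = bar (W (j + 1)) → W (i + 1) = bar (W j) → False := by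
    intro i j h0 h1
    have hk := rev i j h0 h1
    rcases Int.even_or_odd' (j - i) with ⟨k, hk1 | hk1⟩
    · have := (hk k).1
      have e1 : j + 1 - k = i + k + 1 := by omega
      rw [e1] at this
      exact hred _ this
    · have := (hk (k + 1)).1
      have e1 : j + 1 - (k + 1) = i + (k + 1) := by omega
      rw [e1] at this
      exact bar_ne _ this.symm
  -- (3) edges
  have hrb : Function.Bijective r := by
    rw [Fintype.bijective_iff_injective_and_card]
    exact ⟨hr, by simp⟩
  have hedge : ∀ i : ℤ, ∃ e : Fin 6, (W i = r e ∧ bar (W (i + 1)) = r (e + 1)) ∨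
      (W i = r (e + 1) ∧ bar (W (i + 1)) = r e) := by
    intro i
    obtain ⟨a, ha⟩ := hrb.2 (W i)
    obtain ⟨b, hb⟩ := hrb.2 (bar (W (i + 1)))
    have hpos := (ps_edge (by omega) (hPs i)).1
    rw [← ha, ← hb] at hpos
    have hab : b ≠ a := by
      rintro rfl
      exact hred i (ha.symm.trans hb)
    by_cases h1 : b = a + 1
    · exact ⟨a, Or.inl ⟨ha.symm, by rw [← h1, hb]⟩⟩
    · by_cases h2 : a = b + 1
      · exact ⟨b, Or.inr ⟨by rw [← h2, ha], hb.symm⟩⟩
      · rw [full_zero E hr hre hab h1 h2] at hpos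
        exact absurd hpos (lt_irrefl 0)
  choose e he using hedge
  have hinj : ∀ i j : ℤ, e i = e j → W i = W j ∧ W (i + 1) = W (j + 1) := by
    intro i j hij
    have hi := he i
    have hj := he j
    rw [hij] at hi
    rcases hi with ⟨a1, a2⟩ | ⟨a1, a2⟩ <;> rcases hj with ⟨b1, b2⟩ | ⟨b1, b2⟩
    · exact ⟨a1.trans b1.symm, bar_inj.1 (a2.trans b2.symm)⟩
    · exfalso
      refine norev i j (a1.trans b2.symm) ?_
      have := a2.trans b1.symm
      rw [← this, bar_bar]
    · exfalso
      refine norev i j (a1.trans b2.symm) ?_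
      have := a2.trans b1.symm
      rw [← this, bar_bar]
    · exact ⟨a1.trans b1.symm, bar_inj.1 (a2.trans b2.symm)⟩
  have hsame : ∀ i j : ℤ, W i = W j → W (i + 1) = W (j + 1) → e i = e j := by
    intro i j h0 h1
    have hne : ∀ a : Fin 6, a + 1 + 1 ≠ a := by decide
    have hi := he i
    have hj := he j
    rw [h0, h1] at hi
    rcases hi with ⟨a1, a2⟩ | ⟨a1, a2⟩ <;> rcases hj with ⟨b1, b2⟩ | ⟨b1, b2⟩
    · exact hr (a1.symm.trans b1)
    · exfalso
      have c1 := hr (a1.symm.trans b1)
      have c2 := hr (a2.symm.trans b2)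
      rw [c1] at c2
      exact hne _ c2
    · exfalso
      have c1 := hr (a1.symm.trans b1)
      have c2 := hr (a2.symm.trans b2)
      rw [c2] at c1
      exact hne _ c1
    · exact hr (a2.symm.trans b2)
  have hsurj : ∀ a : Fin 6, ∃ i : ℤ, e i = a := by
    intro a
    have hpos : 0 < edgS V (sgl (r a)) (sgl (bar (bar (r (a + 1))))) := by
      rw [bar_bar]
      have := hre a
      omega
    have hne : ∀ a : Fin 6, a ≠ a + 1 := by decide
    have hFI := (fi_edge (by omega) (by
      rw [bar_bar]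
      exact fun h => hne a (hr h))).1 hpos
    have hne2 : ∀ a : Fin 6, a + 1 + 1 ≠ a := by decide
    rcases hFI with ⟨l, hl1, hl2⟩ | ⟨l, hl1, hl2⟩
    · have hrot := rotated_of_cls_eq hl1 hCR (hl2.trans hcls.symm)
      obtain ⟨i, hi1, hi2⟩ := EvPow_conv w hl3 hrot
      refine ⟨i, ?_⟩
      have hi := he i
      change W i = _ at hi1
      change W (i + 1) = _ at hi2
      rw [hi1, hi2, bar_bar] at hi
      rcases hi with ⟨a1, a2⟩ | ⟨a1, a2⟩
      · exact (hr a1).symm
      · exfalso
        have c1 := hr a1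
        have c2 := hr a2
        rw [← c2] at c1
        exact hne2 _ c1.symm
    · have hrot := rotated_of_cls_eq hl1 hCR (hl2.trans hcls.symm)
      have hinv : FreeGroup.invRev [r a, bar (r (a + 1))] = [r (a + 1), bar (r a)] := by
        simp [FreeGroup.invRev, bar]
      rw [hinv] at hrot
      obtain ⟨i, hi1, hi2⟩ := EvPow_conv w hl3 hrot
      refine ⟨i, ?_⟩
      have hi := he i
      change W i = _ at hi1
      change W (i + 1) = _ at hi2
      rw [hi1, hi2, bar_bar] at hi
      rcases hi with ⟨a1, a2⟩ | ⟨a1, a2⟩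
      · exfalso
        have c1 := hr a1
        have c2 := hr a2
        rw [← c1] at c2
        exact hne2 _ c2.symm
      · exact (hr a2).symm
  -- (4) the period
  obtain ⟨d, hd1, hd6, hdp⟩ : ∃ d : ℕ, 1 ≤ d ∧ d ≤ 6 ∧ ∀ i : ℤ, W (i + d) = W i := by
    obtain ⟨x, y, hxy, hexy⟩ := Fintype.exists_ne_map_eq_of_card_lt
      (fun i : Fin 7 => e ((i : ℕ) : ℤ)) (by simp)
    have aux : ∀ x y : Fin 7, x < y → e ((x : ℕ) : ℤ) = e ((y : ℕ) : ℤ) →
        ∃ d : ℕ, 1 ≤ d ∧ d ≤ 6 ∧ ∀ i : ℤ, W (i + d) = W i := by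
      intro x y hlt hexy
      have hlt' : (x : ℕ) < (y : ℕ) := hlt
      refine ⟨(y : ℕ) - (x : ℕ), by omega, by omega, ?_⟩
      intro i
      obtain ⟨h0, h1⟩ := hinj _ _ hexy
      have := (fwd _ _ h0 h1 (i - x)).1
      have e1 : ((x : ℕ) : ℤ) + (i - x) = i := by ring
      have e2 : ((y : ℕ) : ℤ) + (i - x) = i + (((y : ℕ) - (x : ℕ) : ℕ) : ℤ) := by
        push_cast [Nat.cast_sub hlt'.le]; ring
      rw [e1, e2] at this
      exact this.symm
    rcases lt_or_gt_of_ne hxy with h | h
    · exact aux x y h hexy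
    · exact aux y x h hexy.symm
  have hep : ∀ i : ℤ, e (i + d) = e i := by
    intro i
    apply hsame
    · exact hdp i
    · rw [add_right_comm]; exact hdp (i + 1)
  have hep' : ∀ (i k : ℤ), e (i + d * k) = e i := by
    intro i k
    induction k using Int.induction_on with
    | zero => rw [mul_zero, add_zero]
    | succ k ih => rw [mul_add, mul_one, ← add_assoc, hep, ih]
    | pred k ih =>
      have e1 : i + (d : ℤ) * (-(k : ℤ) - 1) = i + d * (-(k : ℤ)) - d := by ring
      rw [e1, ← hep, sub_add_cancel, ih]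
  have hmod : ∀ i : ℤ, e (i % d) = e i := by
    intro i
    have h1 := hep' (i % d) (i / d)
    rw [Int.emod_add_mul_ediv] at h1
    exact h1.symm
  have hsurj' : ∀ a : Fin 6, ∃ j : Fin d, e ((j : ℕ) : ℤ) = a := by
    intro a
    obtain ⟨i, hi⟩ := hsurj a
    have h0 : 0 ≤ i % (d : ℤ) := Int.emod_nonneg _ (by omega)
    have h1 : i % (d : ℤ) < d := Int.emod_lt_of_pos _ (by omega)
    refine ⟨⟨(i % (d : ℤ)).toNat, by omega⟩, ?_⟩
    show e (((i % (d : ℤ)).toNat : ℕ) : ℤ) = a
    rw [Int.toNat_of_nonneg h0, hmod, hi]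
  have hcard : 6 ≤ d := by
    have := Fintype.card_le_of_surjective (fun j : Fin d => e ((j : ℕ) : ℤ)) hsurj'
    simpa using this
  have hd6' : d = 6 := le_antisymm hd6 hcard
  subst hd6'
  have hbij : Function.Injective (fun j : Fin 6 => e ((j : ℕ) : ℤ)) :=
    Finite.injective_iff_surjective.2 hsurj'
  have hN6 : w.length % 6 = 0 := by
    have h1 : e ((w.length : ℕ) : ℤ) = e 0 := by
      apply hsame
      · have := EvPow_per w 0
        rw [zero_add] at this
        exact this
      · have := EvPow_per w 1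
        rw [add_comm] at this
        rw [zero_add]
        exact this
    have h2 : e (((w.length % 6 : ℕ)) : ℤ) = e ((w.length : ℕ) : ℤ) := by
      have := hmod ((w.length : ℕ) : ℤ)
      rw [← this]
      congr 1
    have h3 : e (((w.length % 6 : ℕ)) : ℤ) = e (((0 : ℕ)) : ℤ) := by
      rw [h2, h1]; rfl
    have h5 := @hbij ⟨w.length % 6, Nat.mod_lt _ (by norm_num)⟩ ⟨0, by norm_num⟩ h3
    exact congrArg Fin.val h5
  obtain ⟨h, hh⟩ : ∃ h, w.length = 6 * h := ⟨w.length / 6, by omega⟩
  have h2n : 2 * h = n := by omega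
  set f : ℕ → Fin 3 × Bool := fun i => W i with hf
  have hfp : ∀ i, f (i + 6) = f i := by
    intro i
    have := hdp i
    simp only [hf]
    push_cast
    exact this
  have hwf : w = (List.range (6 * h)).map f := by
    apply List.ext_getElem
    · rw [List.length_map, List.length_range, hh]
    · intro i h1 h2
      rw [List.getElem_map, List.getElem_range]
      exact (EvPow_nat w h1).symm
  refine ⟨(List.range 6).map f, h, by simp, ?_, h2n, ?_⟩
  · intro i
    have h6 := hcnt i
    rw [hwf, EvPow_power 6 f hfp h, EvPow_cntL] at h6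
    have h7 : h * cntL ((List.range 6).map f) i = h * 2 := by rw [h6]; omega
    exact Nat.eq_of_mul_eq_mul_left (by omega) h7
  · rw [← EvPow_power 6 f hfp h, ← hwf, hcls]

end Pool.Agent.Sims
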