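import Pool.Agent.Sims.EvUnc
import Pool.Agent.Sims.EvDet
import Pool.Agent.Sims.EvPow
import Pool.Agent.Sims.EvN6

/-!
# Module `EvC4` : no rigid letter

* `c4`: all letters are crossed for all `W ∈ orb V`: every `W ∈ orb V` is full (`unc4` with `orb_eq`), all letters are deterministic (`det_full`, `crs_bar`), `pow_full`: `W = cls (replicate h v).flatten`, `2 h = n`; `ct120`.
Difficulty 2.
-/

namespace Pool.Agent.Sims

theorem c4 {n : ℕ} {V : CC} (E : Eq3 n V) (h : ∀ W ∈ orb V, ∀ i, Crs n W (i, true)) :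
    Bdd V 120 := by
  obtain ⟨F, hF, hF'⟩ := ct120 (n / 2)
  refine ⟨F, hF, ?_⟩
  intro W hW
  have EW : Eq3 n W := E.orb' hW
  have hW' : ∀ W' ∈ orb W, ∀ i, Crs n W' (i, true) := by
    intro W' hW' i
    rw [orb_eq hW] at hW'
    exact h W' hW' i
  have hfull : Full n W := unc4 EW hW'
  have hdet : ∀ y : Fin 3 × Bool, DetL W y := by
    rintro ⟨i, b⟩
    apply det_full EW hfull
    cases b with
    | true => exact h W hW i
    | false => exact crs_bar (h W hW i)
  obtain ⟨v, k, -, hv2, hk, hVv⟩ := pow_full EW hfull hdet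
  have hk' : k = n / 2 := by omega
  obtain ⟨σ, e, he, heq⟩ := hF' v hv2
  refine ⟨σ, e, he, ?_⟩
  rw [hVv, hk']
  exact heq

end Pool.Agent.Sims
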