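import Pool.Agent.Sims.EvC2
import Pool.Agent.Sims.EvC3
import Pool.Agent.Sims.EvC4
import Pool.Agent.Sims.CaseII

/-!
# Module `EvR3` : three equal counts `n ≥ 4`, all pair cuts `≥ n`

`Eq3 n c`: `W ∈ orb c` has all counts `n` (`cnt_orb`).  Let `A` be proper.  If `A` separates some generator `x_i` (`A (i,true) ≠ A (i,false)`) then `n ≤ capC W A` by `OMin.le_cap` (for `z = (i, true)` or `(i, false)`; `OMin_orb`).
Otherwise `A` is a union of one or two pairs, so `A` or its complement is `PrC i` pointwise (`capC_compl`, `capC_congr`): hypothesis.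
Cases:
1. some `W ∈ orb c` and `i ≠ j` with `¬ Crs n W (i,true)`, `¬ Crs n W (j,true)`: `exists_SPerm_two` for `z = (i,true)`, `y = (j,true)`: `σ`; `Crs_SPerm` for `σ⁻¹` gives `¬ Crs n (σW) (0,true)`, `¬ Crs n (σW) (1,true)`: `c2`, `Bdd_SPerm`, `Bdd_orb`.
2. not 1, and some `W ∈ orb c`, `i` with `¬ Crs n W (i,true)`: in the same way move `i` to `0` (`orb (σW) = orb c`; the hypothesis of `c3` follows from not 1 with `Crs_SPerm`, signs are irrelevant by `crs_bar`, or apply not 1 directly since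
   `orb (σ W) = orb W = orb c`): `c3`.
3. otherwise `c4`.
`cycLen c = 3 n ≥ 12` (`cycLen_eq_sum`), `540 ≤ 550 = F3 12 ≤ F3 (3 n)` (monotonicity of the product; `F3 m = (m-1)(m-2)(m-7)`), `Bdd_mono`.
Difficulty 2.
-/

namespace Pool.Agent.Sims

theorem EvR3_cut {A : Ct} (h : Prp A) (hns : ∀ i, A (i, true) = A (i, false)) :
    ∃ i, (∀ x, PrC i x = A x) ∨ (∀ x, PrC i x = !A x) := by
  obtain ⟨⟨⟨x1, x2⟩, hx⟩, ⟨⟨y1, y2⟩, hy⟩⟩ := h
  have hA : ∀ (j : Fin 3) (b : Bool), A (j, b) = A (j, true) := by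
    intro j b
    cases b
    · exact (hns j).symm
    · rfl
  rw [hA] at hx hy
  have key : ∀ (f : Fin 3 → Bool) (x y : Fin 3), f x = true → f y = false →
      ∃ i : Fin 3, (∀ j : Fin 3, decide (j = i) = f j) ∨ (∀ j : Fin 3, decide (j = i) = !f j) := by
    decide
  obtain ⟨i, h1 | h1⟩ := key (fun j => A (j, true)) x1 y1 hx hy
  · refine ⟨i, Or.inl ?_⟩
    rintro ⟨j, b⟩
    rw [hA]
    exact h1 j
  · refine ⟨i, Or.inr ?_⟩
    rintro ⟨j, b⟩
    rw [hA]
    exact h1 j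

theorem EvR3_Eq3 {c : CC} (hO : OMin c) (h4 : 4 ≤ cnt c 0) (h01 : cnt c 0 = cnt c 1)
    (h12 : cnt c 1 = cnt c 2) (hI : ∀ W ∈ orb c, ∀ i, cnt c 0 ≤ capC W (PrC i)) :
    Eq3 (cnt c 0) c := by
  have hc : ∀ i, cnt c i = cnt c 0 := by
    intro i
    fin_cases i
    · rfl
    · exact h01.symm
    · exact (h01.trans h12).symm
  refine ⟨hO, h4, hc, ?_⟩
  intro W hW A hA
  have hcW : ∀ i, cnt W i = cnt c 0 := by
    obtain ⟨p, hp⟩ := cnt_orb hO hW
    intro i
    rw [hp i, hc]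
  by_cases hns : ∀ i, A (i, true) = A (i, false)
  · obtain ⟨i, h1 | h1⟩ := EvR3_cut hA hns
    · rw [← capC_congr W h1]
      exact hI W hW i
    · have h2 := hI W hW i
      rw [capC_congr W h1, capC_compl] at h2
      exact h2
  · push Not at hns
    obtain ⟨i, hi⟩ := hns
    have hOW := OMin_orb hO hW
    cases h1 : A (i, true)
    · have h2 : A (i, false) = true := by
        cases h3 : A (i, false)
        · exact absurd (h1.trans h3.symm) hi
        · rfl
      have := hOW.le_cap (i, false) A h2 h1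
      rw [hcW] at this
      exact this
    · have h2 : A (i, false) = false := by
        cases h3 : A (i, false)
        · rfl
        · exact absurd (h1.trans h3.symm) hi
      have := hOW.le_cap (i, true) A h1 h2
      rw [hcW] at this
      exact this

theorem EvR3_ncrs {n : ℕ} {W : CC} {z : Fin 3 × Bool} (h : ¬ Crs n W z) (σ : SPerm (Fin 3)) :
    ¬ Crs n (act σ.aut W) (σ.letter z) := by
  intro hc
  have := Crs_SPerm hc σ.inv
  rw [act_SPerm_inv, SPerm.inv_letter] at this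
  exact h this

theorem EvR3_F3 {m n : ℕ} (hm : m = 3 * n) (h4 : 4 ≤ n) : 540 ≤ F3 m := by
  obtain ⟨k, rfl⟩ : ∃ k, m = k + 12 := ⟨m - 12, by omega⟩
  unfold F3
  have h1 : k + 12 - 1 = k + 11 := by omega
  have h2 : k + 12 - 2 = k + 10 := by omega
  have h3 : k + 12 - 7 = k + 5 := by omega
  rw [h1, h2, h3]
  nlinarith [Nat.zero_le k, Nat.zero_le (k * k), Nat.zero_le (k * k * k)]

theorem even_r3 {c : CC} (hO : OMin c) (h4 : 4 ≤ cnt c 0) (h01 : cnt c 0 = cnt c 1)
    (h12 : cnt c 1 = cnt c 2) (hI : ∀ W ∈ orb c, ∀ i, cnt c 0 ≤ capC W (PrC i)) :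
    Bdd c (F3 (cycLen c)) := by
  have E := EvR3_Eq3 hO h4 h01 h12 hI
  have hlen : cycLen c = 3 * cnt c 0 := by
    rw [cycLen_eq_sum, Fin.sum_univ_three, ← h12, ← h01]
    ring
  have hF := EvR3_F3 hlen h4
  generalize hn : cnt c 0 = n at E
  by_cases h1 : ∃ W ∈ orb c, ∃ i j : Fin 3, i ≠ j ∧ ¬ Crs n W (i, true) ∧ ¬ Crs n W (j, true)
  · obtain ⟨W, hW, i, j, hij, hi, hj⟩ := h1
    obtain ⟨σ, hσ1, hσ2⟩ := exists_SPerm_two (z := (i, true)) (y := (j, true)) hij
    have ha := EvR3_ncrs hi σ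
    have hb := EvR3_ncrs hj σ
    rw [hσ1] at ha
    rw [hσ2] at hb
    have E' := Eq3_SPerm (E.orb' hW) σ
    have h2 := c2 E' ha hb
    have h3 := Bdd_SPerm σ (E.orb' hW).hO h2
    exact Bdd_mono (Bdd_orb hW h3) hF
  · by_cases h2 : ∃ W ∈ orb c, ∃ i, ¬ Crs n W (i, true)
    · obtain ⟨W, hW, i, hi⟩ := h2
      obtain ⟨j, hij⟩ : ∃ j : Fin 3, i ≠ j := by
        have : ∀ i : Fin 3, ∃ j : Fin 3, i ≠ j := by decide
        exact this i
      obtain ⟨σ, hσ1, _⟩ := exists_SPerm_two (z := (i, true)) (y := (j, true)) hij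
      have ha := EvR3_ncrs hi σ
      rw [hσ1] at ha
      have E' := Eq3_SPerm (E.orb' hW) σ
      have h3 := c3 E' ha (by
        intro W' hW' i' j' hij'
        rw [orb_SPerm_eq σ (E.orb' hW).hO, orb_eq hW] at hW'
        by_contra hcon
        push Not at hcon
        exact h1 ⟨W', hW', i', j', hij', hcon.1, hcon.2⟩)
      have h4 := Bdd_SPerm σ (E.orb' hW).hO h3
      exact Bdd_mono (Bdd_orb hW h4) (by omega)
    · push Not at h2
      exact Bdd_mono (c4 E h2) (by omega)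

end Pool.Agent.Sims
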