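import Pool.Agent.Sims.Perm3

/-!
# Module `BddM` : counting orbits

* `Bdd_ncard`: `orb c` is contained in the image of `S ×ˢ E` (`S` the set of the 48 signed permutations,
  `exists_SPerm_finset`) under `(σ, e) ↦ act σ.aut e`.
* `orb_level`: `cycLen_wh` and `act_act`.  `orb_SPerm`: `cycLen_SPerm`.
* `cnt_orb`: apply `closure_principle` to `E := {e | ∃ p, ∀ i, cnt e i = cnt c (p i)}`: level moves preserve all
  counts (`cnt_wh_self`, `cnt_wh_ne`), signed permutations permute them (`cnt_SPerm`).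
* `Bdd_of_closed`: apply `closure_principle` to `E ∩ orb c`.  If `c = act σ e` then `e = act σ⁻¹ c ∈ orb c`
  (`act_SPerm_inv`); if `act (wh z A) e = act σ e'` is a level move from `e ∈ orb c` then it is in `orb c`, so
  `e' ∈ orb c`.  All members of `orb c` are then signed images of members of `E ∩ orb c ⊆ E'`.
Difficulty 2.
-/

namespace Pool.Agent.Sims

open FreeGroup (of)

theorem Bdd_ncard {c : CC} {N : ℕ} (h : Bdd c N) : (orb c).Finite ∧ (orb c).ncard ≤ 48 * N := by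
  classical
  obtain ⟨E, hE, h⟩ := h
  obtain ⟨S, hS, hS'⟩ := exists_SPerm_finset
  have hsub : orb c ⊆ (((S ×ˢ E).image fun q => act q.1.aut q.2 : Finset CC) : Set CC) := by
    intro d hd
    obtain ⟨σ, e, he, rfl⟩ := h d hd
    exact Finset.mem_coe.2 (Finset.mem_image.2 ⟨(σ, e), Finset.mem_product.2 ⟨hS' σ, he⟩, rfl⟩)
  refine ⟨(Finset.finite_toSet _).subset hsub, ?_⟩
  calc (orb c).ncard ≤ ((((S ×ˢ E).image fun q => act q.1.aut q.2 : Finset CC) : Set CC)).ncard :=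
        Set.ncard_le_ncard hsub (Finset.finite_toSet _)
    _ = ((S ×ˢ E).image fun q => act q.1.aut q.2).card := Set.ncard_coe_finset _
    _ ≤ (S ×ˢ E).card := Finset.card_image_le
    _ = S.card * E.card := Finset.card_product _ _
    _ ≤ 48 * N := Nat.mul_le_mul hS hE

theorem Bdd_mono {c : CC} {N N' : ℕ} (h : Bdd c N) (hN : N ≤ N') : Bdd c N' := by
  obtain ⟨E, hE, h⟩ := h
  exact ⟨E, hE.trans hN, h⟩

theorem Bdd_orb {c d : CC} {N : ℕ} (hd : d ∈ orb c) (h : Bdd d N) : Bdd c N := by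
  obtain ⟨E, hE, h⟩ := h
  rw [orb_eq hd] at h
  exact ⟨E, hE, h⟩

theorem orb_SPerm (σ : SPerm (Fin 3)) (c : CC) : act σ.aut c ∈ orb c :=
  ⟨⟨σ.aut, rfl⟩, cycLen_SPerm σ c⟩

theorem orb_trans {c d e : CC} (h : d ∈ orb c) (h' : e ∈ orb d) : e ∈ orb c := by
  rwa [orb_eq h] at h'

theorem orb_refl (c : CC) : c ∈ orb c := ⟨⟨MulEquiv.refl _, (act_refl c).symm⟩, rfl⟩

theorem orb_level {c e : CC} (he : e ∈ orb c) {z : Fin 3 × Bool} {A : Fin 3 × Bool → Bool}
    (hz : A z = true) (hz' : A (bar z) = false) (h : capC e A = cnt e z.1) :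
    act (wh z A) e ∈ orb c := by
  refine orb_trans he ⟨⟨wh z A, rfl⟩, ?_⟩
  have := cycLen_wh e z A hz hz'
  omega

private theorem BddM_cnt_level {e : CC} {z : Fin 3 × Bool} {A : Fin 3 × Bool → Bool}
    (hz : A z = true) (hz' : A (bar z) = false) (h : capC e A = cnt e z.1) (i : Fin 3) :
    cnt (act (wh z A) e) i = cnt e i := by
  by_cases hi : i = z.1
  · subst hi
    rw [cnt_wh_self e z A hz hz', h]
  · exact cnt_wh_ne e z A hi

theorem cnt_orb {c d : CC} (h : OMin c) (hd : d ∈ orb c) :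
    ∃ p : Equiv.Perm (Fin 3), ∀ i, cnt d i = cnt c (p i) := by
  obtain ⟨π, hπ, _, _⟩ := exists_SPerm_one
  have key := closure_principle h {e | ∃ p : Equiv.Perm (Fin 3), ∀ i, cnt e i = cnt c (p i)}
    ⟨π, c, ⟨Equiv.refl _, fun _ => rfl⟩, (hπ c).symm⟩
    (fun e he _ z A hz hz' hl => by
      obtain ⟨p, hp⟩ := he
      refine ⟨π, act (wh z A) e, ⟨p, fun i => ?_⟩, (hπ _).symm⟩
      rw [BddM_cnt_level hz hz' hl, hp]) d hd
  obtain ⟨σ, e, ⟨p, hp⟩, rfl⟩ := key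
  refine ⟨σ.perm.symm.trans p, fun i => ?_⟩
  have h1 := cnt_SPerm σ e (σ.perm.symm i)
  rw [Equiv.apply_symm_apply] at h1
  rw [h1, hp]
  rfl

theorem Bdd_of_closed {c : CC} (h : OMin c) (E : Set CC) (E' : Finset CC)
    (hE' : ∀ e ∈ E, e ∈ orb c → e ∈ E')
    (h0 : ∃ σ : SPerm (Fin 3), ∃ e ∈ E, c = act σ.aut e)
    (hE : ∀ e ∈ E, e ∈ orb c → ∀ (z : Fin 3 × Bool) (A : Fin 3 × Bool → Bool), A z = true →
      A (bar z) = false → capC e A = cnt e z.1 →
      ∃ σ : SPerm (Fin 3), ∃ e' ∈ E, act (wh z A) e = act σ.aut e') : Bdd c E'.card := by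
  have back : ∀ (σ : SPerm (Fin 3)) (e : CC), act σ.aut e ∈ orb c → e ∈ orb c := by
    intro σ e he
    have h1 := orb_SPerm σ.inv (act σ.aut e)
    rw [act_SPerm_inv] at h1
    exact orb_trans he h1
  have key := closure_principle h {e | e ∈ E ∧ e ∈ orb c}
    (by
      obtain ⟨σ, e, he, hc⟩ := h0
      refine ⟨σ, e, ⟨he, back σ e ?_⟩, hc⟩
      rw [← hc]
      exact orb_refl c)
    (fun e he _ z A hz hz' hl => by
      obtain ⟨σ, e', he', hc⟩ := hE e he.1 he.2 z A hz hz' hl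
      refine ⟨σ, e', ⟨he', back σ e' ?_⟩, hc⟩
      rw [← hc]
      exact orb_level he.2 hz hz' hl)
  refine ⟨E', le_rfl, fun d hd => ?_⟩
  obtain ⟨σ, e, he, hde⟩ := key d hd
  exact ⟨σ, e, hE' e he.1 he.2, hde⟩

end Pool.Agent.Sims
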