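import Pool.Agent.Sims.SameA

/-!
# Module `SameB` : consequences of orbit-minimality for words with two letters `a^{±1}`

* `same_norm_min`: key: for every `φ` with `Good φ p q` and all `s, t ∈ ⟨b,c⟩` the class of
  `a (s q φ(g) p t) a (s q φ(h) p t)` is in the orbit of `same g h` (`exists_tw` and composition), its length is
  `2 + |s q φ(g) p t| + |s q φ(h) p t|` (`same_len`).  Let `u = q φ(g) p`, `v = q φ(h) p`, and let `y` be a cyclically
  reduced element of the class of `u v⁻¹`, `y = s (u v⁻¹) s⁻¹` with `s ∈ ⟨b,c⟩` (conjugate elements of `⟨b,c⟩`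
  are conjugate by an element of `⟨b,c⟩`: e.g. the conjugator of Mathlib's `reduceCyclically` is a prefix of
  the word).  With `t = v⁻¹ s⁻¹` we get `(y, 1)`; so `|g| + |h| ≤ |y| = ‖[u v⁻¹]‖ = ‖act φ [g h⁻¹]‖` (`mk_same`).
* `same_norm`: `≤` is the case `φ = 1`; `≥`: `‖[g h⁻¹]‖ ≤ |g h⁻¹| ≤ |g| + |h|`.
* `opp_norm_min`, `opp_norm`: the same with `a ↦ s a t`: `opp (t g t⁻¹) (s⁻¹ h s)`; choose `t g t⁻¹` and `s⁻¹ h s`
  cyclically reduced (if `φ(g) = 1` ... does not occur as `g ≠ 1`).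
* `same_cnt`: if `|g| + |h| = ‖[g h⁻¹]‖` then the word `G H⁻¹` is a cyclically reduced word of the class
  `[g h⁻¹]` (its length is the cyclic length: `|g h⁻¹| = |g| + |h|`, `(g h⁻¹).toWord = G ++ H⁻¹` and
  `CR_iff_norm`); count letters (`cnt_cls`).
* `opp_cnt`: `g.toWord`, `h.toWord` are cyclically reduced.
Difficulty 2-3.
-/

namespace Pool.Agent.Sims

open FreeGroup (of)

/-- every class of `⟨b,c⟩` contains a cyclically reduced element obtained by conjugation inside `⟨b,c⟩` -/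
theorem exists_conj12 {g : FreeGroup (Fin 3)} (hg : In12 g) :
    ∃ s, In12 s ∧ (s * g * s⁻¹).norm = cycLen (ConjClasses.mk g) := by
  obtain ⟨C, R, hR, h⟩ := Cyc_split g
  have hC : In12 (FreeGroup.mk C) := by
    apply In12_mk
    intro x hx
    apply hg
    rw [h]
    simp [hx]
  have hgm : g = FreeGroup.mk C * FreeGroup.mk R * (FreeGroup.mk C)⁻¹ := by
    rw [FreeGroup.inv_mk, FreeGroup.mul_mk, FreeGroup.mul_mk, ← h, FreeGroup.mk_toWord]
  refine ⟨(FreeGroup.mk C)⁻¹, In12_inv hC, ?_⟩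
  have h1 : (FreeGroup.mk C)⁻¹ * g * (FreeGroup.mk C)⁻¹⁻¹ = FreeGroup.mk R := by
    rw [hgm]; group
  rw [h1, ← Cyc_cls_split h, cycLen_cls hR, FreeGroup.norm, FreeGroup.toWord_mk, hR.1.reduce_eq]

theorem SameB_Good_refl : Good (MulEquiv.refl (FreeGroup (Fin 3))) 1 1 := by
  refine ⟨In12_one, In12_one, by simp, fun g hg => hg⟩

theorem SameB_Good_tw {p q : FreeGroup (Fin 3)} (hp : In12 p) (hq : In12 q) :
    ∃ ψ : FreeGroup (Fin 3) ≃* FreeGroup (Fin 3), Good ψ p q ∧ ∀ g, In12 g → ψ g = g := by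
  obtain ⟨ψ, h1, h2⟩ := exists_tw hp hq
  exact ⟨ψ, ⟨hp, hq, h1, fun g hg => by rw [h2 g hg]; exact hg⟩, h2⟩

theorem same_norm_min {g h : FreeGroup (Fin 3)} (hg : In12 g) (hh : In12 h)
    (hO : OMin (same g h)) {φ : FreeGroup (Fin 3) ≃* FreeGroup (Fin 3)} {p q : FreeGroup (Fin 3)}
    (hφ : Good φ p q) :
    g.norm + h.norm ≤ cycLen (act φ (ConjClasses.mk (g * h⁻¹))) := by
  have hp := hφ.1
  have hq := hφ.2.1
  have hpres := hφ.2.2.2
  set u : FreeGroup (Fin 3) := q * φ g * p with hu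
  set v : FreeGroup (Fin 3) := q * φ h * p with hv
  have hu12 : In12 u := In12_mul (In12_mul hq (hpres g hg)) hp
  have hv12 : In12 v := In12_mul (In12_mul hq (hpres h hh)) hp
  have hy12 : In12 (u * v⁻¹) := In12_mul hu12 (In12_inv hv12)
  obtain ⟨s, hs, hsn⟩ := exists_conj12 hy12
  have ht : In12 (v⁻¹ * s⁻¹) := In12_mul (In12_inv hv12) (In12_inv hs)
  obtain ⟨ψ, hψ, hψ1⟩ := SameB_Good_tw ht hs
  have h1 : act ψ (act φ (same g h)) = same (s * (u * v⁻¹) * s⁻¹) 1 := by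
    rw [act_same hφ, act_same hψ, ← hu, ← hv, hψ1 u hu12, hψ1 v hv12]
    congr 1
    · group
    · group
  have h2 : cycLen (same g h) ≤ cycLen (same (s * (u * v⁻¹) * s⁻¹) 1) := by
    rw [← h1, act_act]
    exact hO _
  have h3 : In12 (s * (u * v⁻¹) * s⁻¹) := In12_mul (In12_mul hs hy12) (In12_inv hs)
  rw [(same_len hg hh).1, (same_len h3 In12_one).1, hsn, FreeGroup.norm_one] at h2
  have h4 : ConjClasses.mk (u * v⁻¹) = act φ (ConjClasses.mk (g * h⁻¹)) := by
    rw [hu, hv]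
    exact mk_same g h
  rw [h4] at h2
  omega

theorem same_norm {g h : FreeGroup (Fin 3)} (hg : In12 g) (hh : In12 h)
    (hO : OMin (same g h)) : g.norm + h.norm = cycLen (ConjClasses.mk (g * h⁻¹)) := by
  apply le_antisymm
  · have := same_norm_min hg hh hO SameB_Good_refl
    rwa [act_refl] at this
  · refine le_trans (cycLen_le_norm _) ?_
    refine le_trans (FreeGroup.norm_mul_le _ _) ?_
    rw [FreeGroup.norm_inv_eq]

theorem SameB_conj_ne {g s : FreeGroup (Fin 3)} (hg : g ≠ 1) : s * g * s⁻¹ ≠ 1 := by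
  intro h
  apply hg
  have : g = s⁻¹ * (s * g * s⁻¹) * s := by group
  rw [this, h]
  group

theorem opp_norm_min {g h : FreeGroup (Fin 3)} (hg : In12 g) (hh : In12 h) (hg1 : g ≠ 1)
    (hh1 : h ≠ 1) (hO : OMin (opp g h)) {φ : FreeGroup (Fin 3) ≃* FreeGroup (Fin 3)}
    {p q : FreeGroup (Fin 3)} (hφ : Good φ p q) :
    g.norm + h.norm ≤
      cycLen (act φ (ConjClasses.mk g)) + cycLen (act φ (ConjClasses.mk h)) := by
  have hp := hφ.1
  have hq := hφ.2.1
  have hpres := hφ.2.2.2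
  set u : FreeGroup (Fin 3) := q * φ g * q⁻¹ with hu
  set v : FreeGroup (Fin 3) := p⁻¹ * φ h * p with hv
  have hu12 : In12 u := In12_mul (In12_mul hq (hpres g hg)) (In12_inv hq)
  have hv12 : In12 v := In12_mul (In12_mul (In12_inv hp) (hpres h hh)) hp
  have hφg : φ g ≠ 1 := fun h' => hg1 ((MulEquiv.map_eq_one_iff φ).1 h')
  have hφh : φ h ≠ 1 := fun h' => hh1 ((MulEquiv.map_eq_one_iff φ).1 h')
  have hu1 : u ≠ 1 := SameB_conj_ne hφg
  have hv1 : v ≠ 1 := by
    have := SameB_conj_ne (s := p⁻¹) hφh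
    rwa [inv_inv] at this
  obtain ⟨s, hs, hsn⟩ := exists_conj12 hu12
  obtain ⟨t, ht, htn⟩ := exists_conj12 hv12
  obtain ⟨ψ, hψ, hψ1⟩ := SameB_Good_tw (In12_inv ht) hs
  have h1 : act ψ (act φ (opp g h)) = opp (s * u * s⁻¹) (t * v * t⁻¹) := by
    rw [act_opp hφ, act_opp hψ, ← hu, ← hv, hψ1 u hu12, hψ1 v hv12, inv_inv]
  have h2 : cycLen (opp g h) ≤ cycLen (opp (s * u * s⁻¹) (t * v * t⁻¹)) := by
    rw [← h1, act_act]
    exact hO _
  have h3 : In12 (s * u * s⁻¹) := In12_mul (In12_mul hs hu12) (In12_inv hs)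
  have h3' : In12 (t * v * t⁻¹) := In12_mul (In12_mul ht hv12) (In12_inv ht)
  rw [(opp_len hg hh hg1 hh1).1, (opp_len h3 h3' (SameB_conj_ne hu1) (SameB_conj_ne hv1)).1, hsn,
    htn] at h2
  have h4 := (mk_opp (φ := φ) (p := p) (q := q) g h)
  rw [← hu, ← hv] at h4
  rw [h4.1, h4.2] at h2
  omega

theorem opp_norm {g h : FreeGroup (Fin 3)} (hg : In12 g) (hh : In12 h) (hg1 : g ≠ 1)
    (hh1 : h ≠ 1) (hO : OMin (opp g h)) :
    g.norm = cycLen (ConjClasses.mk g) ∧ h.norm = cycLen (ConjClasses.mk h) := by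
  have h1 := opp_norm_min hg hh hg1 hh1 hO SameB_Good_refl
  rw [act_refl, act_refl] at h1
  have h2 := cycLen_le_norm g
  have h3 := cycLen_le_norm h
  constructor <;> omega

theorem SameB_cntL_append (u v : List (Fin 3 × Bool)) (i : Fin 3) :
    cntL (u ++ v) i = cntL u i + cntL v i := by
  unfold cntL
  exact List.countP_append

theorem SameB_cntL_invRev (u : List (Fin 3 × Bool)) (i : Fin 3) :
    cntL (FreeGroup.invRev u) i = cntL u i := by
  unfold cntL FreeGroup.invRev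
  rw [List.countP_reverse, List.countP_map]
  rfl

theorem same_cnt {g h : FreeGroup (Fin 3)} (hg : In12 g) (hh : In12 h)
    (hn : g.norm + h.norm = cycLen (ConjClasses.mk (g * h⁻¹))) {i : Fin 3} (hi : i ≠ 0) :
    cnt (same g h) i = cnt (ConjClasses.mk (g * h⁻¹)) i := by
  rw [(same_len hg hh).2.2 i hi]
  have h1 : FreeGroup.mk (g.toWord ++ h⁻¹.toWord) = g * h⁻¹ := by
    rw [← FreeGroup.mul_mk, FreeGroup.mk_toWord, FreeGroup.mk_toWord]
  have h2 : (g * h⁻¹).toWord.length = g.norm + h.norm := by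
    apply le_antisymm
    · have := FreeGroup.norm_mul_le g h⁻¹
      rw [FreeGroup.norm_inv_eq] at this
      exact this
    · rw [hn]
      exact cycLen_le_norm _
  have h3 : (g * h⁻¹).toWord = g.toWord ++ h⁻¹.toWord := by
    have h4 : (g * h⁻¹).toWord.Sublist (g.toWord ++ h⁻¹.toWord) := FreeGroup.toWord_mul_sublist _ _
    apply h4.eq_of_length
    rw [h2, List.length_append]
    show g.norm + h.norm = g.norm + h⁻¹.norm
    rw [FreeGroup.norm_inv_eq]
  have hCR : CR (g * h⁻¹).toWord := by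
    rw [CR_iff_norm, ← hn]
    exact h2
  have h5 : cls (g * h⁻¹).toWord = ConjClasses.mk (g * h⁻¹) := by
    unfold cls
    rw [FreeGroup.mk_toWord]
  rw [← h5, cnt_cls hCR, h3, SameB_cntL_append, FreeGroup.toWord_inv, SameB_cntL_invRev]

theorem opp_cnt {g h : FreeGroup (Fin 3)} (hg : In12 g) (hh : In12 h) (hg1 : g ≠ 1)
    (hh1 : h ≠ 1) (hg2 : g.norm = cycLen (ConjClasses.mk g))
    (hh2 : h.norm = cycLen (ConjClasses.mk h)) {i : Fin 3} (hi : i ≠ 0) :
    cnt (opp g h) i = cnt (ConjClasses.mk g) i + cnt (ConjClasses.mk h) i := by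
  rw [(opp_len hg hh hg1 hh1).2.2 i hi]
  have key : ∀ x : FreeGroup (Fin 3), x.norm = cycLen (ConjClasses.mk x) →
      cnt (ConjClasses.mk x) i = cntL x.toWord i := by
    intro x hx
    have hCR := (CR_iff_norm x).2 hx
    have h5 : cls x.toWord = ConjClasses.mk x := by
      unfold cls
      rw [FreeGroup.mk_toWord]
    rw [← h5, cnt_cls hCR]
  rw [key g hg2, key h hh2]

end Pool.Agent.Sims
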