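import Pool.Agent.Sims.LoA
import Pool.Agent.Sims.SameB
import Pool.Agent.Sims.BddM

/-!
# Module `LoE` : the classes of the words `loW M t r s` are in one orbit

Let `U = mk (uW M t)`, `x = (uW M t).rotate r`, `k = mk (take r' (uW M t))` (`r' = r mod length`): `mk x = k⁻¹ U k` (`List.rotate_eq_drop_append_take_mod`).  `cls (loW M t r s)` is the class of `a g a h` with
`g = (mk (drop s x))⁻¹`, `h = mk (take s x)`, `h g⁻¹ = mk x`.
`tau (-t)` (`b ↦ b c^{-t}`, `a, c` fixed) maps `mk (uW M 0)` to `c^t U c^{-t}` (`uW_tau`): `B c b b c^M b c ↦ c^t B c b c^{-t} b c^{-t} c^M b c^{-t} c`.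
Then `ψ` (`exists_tw`: `ψ a = p a q`, `ψ = id` on `⟨b, c⟩`) with `q = k⁻¹ c^{-t}`, `p = q⁻¹ g` maps the class of `a a c^t U c^{-t}` to that of `p a q p a q c^t U c^{-t}`, which is conjugate (by `p`) to
`a (q p) a (q c^t U c^{-t} p) = a g a (k⁻¹ U k g) = a g a h`.
The cyclic lengths are equal (`cycLen_cls`, `loW_CR`, `loW_length`, `w0_CR`, `w0_length`).
Difficulty 2.
-/

namespace Pool.Agent.Sims

open FreeGroup (of)

theorem LoE_mk_cons (x : Fin 3 × Bool) (l : List (Fin 3 × Bool)) :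
    FreeGroup.mk (x :: l) = lett x * FreeGroup.mk l := by
  rw [lett, FreeGroup.mul_mk]
  rfl

theorem LoE_mk_append (l l' : List (Fin 3 × Bool)) :
    FreeGroup.mk (l ++ l') = FreeGroup.mk l * FreeGroup.mk l' := by
  rw [FreeGroup.mul_mk]

theorem LoE_mk_rep_true (n : ℕ) (i : Fin 3) :
    FreeGroup.mk (List.replicate n (i, true)) = of i ^ (n : ℤ) := by
  induction n with
  | zero =>
    rw [List.replicate_zero, Nat.cast_zero, zpow_zero]
    rfl
  | succ n ih =>
    rw [List.replicate_succ, LoE_mk_cons, ih, lett_true, Nat.cast_succ, add_comm, zpow_add,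
      zpow_one]

theorem LoE_mk_rep_false (n : ℕ) (i : Fin 3) :
    FreeGroup.mk (List.replicate n (i, false)) = of i ^ (-(n : ℤ)) := by
  induction n with
  | zero =>
    rw [List.replicate_zero, Nat.cast_zero, neg_zero, zpow_zero]
    rfl
  | succ n ih =>
    rw [List.replicate_succ, LoE_mk_cons, ih, lett_false, Nat.cast_succ, add_comm, neg_add,
      zpow_add, zpow_neg_one]

theorem LoE_mk_uW {M t : ℕ} (ht : t ≤ M) : FreeGroup.mk (uW M t) =
    (of 1)⁻¹ * (of 2 * (of 1 * (of 2 ^ (-(t : ℤ)) * (of 1 * (of 2 ^ ((M : ℤ) - t) *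
      (of 1 * of 2)))))) := by
  unfold uW
  rw [LoE_mk_cons, LoE_mk_cons, LoE_mk_cons, LoE_mk_append, LoE_mk_cons, LoE_mk_append,
    LoE_mk_cons, LoE_mk_rep_true, LoE_mk_rep_false, lett_false, lett_true, lett_true,
    Nat.cast_sub ht]
  rfl

theorem LoE_tau_one (k : ℤ) : tau k (of 1) = of 1 * of 2 ^ k := by
  show potFun (2 : Fin 3) (fun x => if x = (1, true) then k else 0) (of 1) = _
  rw [potFun_of_ne _ (by decide)]
  simp

theorem LoE_tau_two (k : ℤ) : tau k (of 2) = of 2 := by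
  show potFun (2 : Fin 3) (fun x => if x = (1, true) then k else 0) (of 2) = _
  rw [potFun_of_self]

theorem uW_tau {M t : ℕ} (ht : t ≤ M) : tau (-(t : ℤ)) (FreeGroup.mk (uW M 0)) =
    of 2 ^ (t : ℤ) * FreeGroup.mk (uW M t) * of 2 ^ (-(t : ℤ)) := by
  rw [LoE_mk_uW (Nat.zero_le M), LoE_mk_uW ht]
  simp only [map_mul, map_inv, map_zpow, LoE_tau_one, LoE_tau_two]
  push_cast
  group

theorem lo_orb {M t r s : ℕ} (ht : t ≤ M) (hs : s ≤ M + 6) :
    cls (loW M t r s) ∈ orb (cls (w0 M)) := by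
  refine ⟨?_, ?_⟩
  · set x := (uW M t).rotate r with hx
    set k := FreeGroup.mk ((uW M t).take (r % (uW M t).length)) with hk
    have hxne : ∀ y ∈ x, y.1 ≠ 0 := by
      intro y hy
      rw [hx, List.mem_rotate] at hy
      exact uW_ne0 M t y hy
    have hk12 : In12 k := In12_mk (fun y hy => uW_ne0 M t y (List.mem_of_mem_take hy))
    have hg12 : In12 (FreeGroup.mk (x.drop s))⁻¹ :=
      In12_inv (In12_mk (fun y hy => hxne y (List.mem_of_mem_drop hy)))
    have hc12 : In12 (of 2 ^ (-(t : ℤ))) := In12_zpow (In12_of (by decide)) _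
    have hkx : FreeGroup.mk x = k⁻¹ * FreeGroup.mk (uW M t) * k := by
      have h1 : FreeGroup.mk (uW M t) =
          k * FreeGroup.mk ((uW M t).drop (r % (uW M t).length)) := by
        rw [hk, ← LoE_mk_append, List.take_append_drop]
      have h2 : FreeGroup.mk x = FreeGroup.mk ((uW M t).drop (r % (uW M t).length)) * k := by
        rw [hk, ← LoE_mk_append, hx, List.rotate_eq_drop_append_take_mod]
      rw [h2, h1]
      group
    have hsplit : FreeGroup.mk x = FreeGroup.mk (x.take s) * FreeGroup.mk (x.drop s) := by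
      rw [← LoE_mk_append, List.take_append_drop]
    have hlo : cls (loW M t r s) =
        same (FreeGroup.mk (x.drop s))⁻¹ (FreeGroup.mk (x.take s)) := by
      unfold cls same loW
      rw [LoE_mk_cons, LoE_mk_append, LoE_mk_cons, lett_true, FreeGroup.inv_mk, ← hx]
      congr 1
      group
    have hw0 : cls (w0 M) = same 1 (FreeGroup.mk (uW M 0)) := by
      unfold cls same w0
      rw [LoE_mk_cons, LoE_mk_cons, lett_true, mul_one, mul_assoc]
    set g := (FreeGroup.mk (x.drop s))⁻¹ with hg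
    have hq12 : In12 (k⁻¹ * of 2 ^ (-(t : ℤ))) := In12_mul (In12_inv hk12) hc12
    have hp12 : In12 ((k⁻¹ * of 2 ^ (-(t : ℤ)))⁻¹ * g) := In12_mul (In12_inv hq12) hg12
    obtain ⟨ψ, hψ, hψ1⟩ := SameB_Good_tw hp12 hq12
    refine ⟨(tau (-(t : ℤ))).trans ψ, ?_⟩
    rw [← act_act, hw0, act_same (Good_tau _), map_one, uW_tau ht, act_same hψ, hlo]
    have hV12 : In12 (1 * (of 2 ^ (t : ℤ) * FreeGroup.mk (uW M t) * of 2 ^ (-(t : ℤ))) * 1) :=
      In12_mul (In12_mul In12_one (In12_mul (In12_mul (In12_zpow (In12_of (by decide)) _)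
        (In12_mk (uW_ne0 M t))) hc12)) In12_one
    rw [hψ1 _ hV12]
    have h5 : (1 : FreeGroup (Fin 3)) * 1 * 1 = 1 := by group
    rw [h5, map_one]
    have h6 : FreeGroup.mk (x.take s) = k⁻¹ * FreeGroup.mk (uW M t) * k * g := by
      rw [← hkx, hsplit, hg]
      group
    rw [h6]
    congr 1
    · group
    · group
  · rw [cycLen_cls (loW_CR _ _ _ _), cycLen_cls (w0_CR _), loW_length ht hs, w0_length]

end Pool.Agent.Sims
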