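import Pool.Agent.Sims.SameA

/-!
# Module `SameC` : counting `ESame Y` and `EOpp Y Z`

* `ESame_fin`: let `w = rep Y`, `ℓ = w.length = ‖Y‖ ≥ 1`.  If `same g h ∈ ESame Y` (with `g, h` as in the
  definition) then `|g h⁻¹| ≤ |g| + |h| = ‖Y‖ ≤ |g h⁻¹|`, so `(g h⁻¹).toWord = g.toWord ++ (h⁻¹).toWord` and this word
  is cyclically reduced (`CR_iff_norm`), hence a rotation `w.rotate r`, `r < ℓ` (`rep_rotated`), and
  `g = mk ((w.rotate r).take i)`, `h⁻¹ = mk ((w.rotate r).drop i)` with `i = |g| ≤ ℓ`.  So `ESame Y` is contained in the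
  image of `range ℓ ×ˢ range (ℓ+1)`.
* `EOpp_fin`: `g.toWord` is a rotation of `rep Y`, `h.toWord` a rotation of `rep Z`; the lengths are `≥ 1`.
Difficulty 2.
-/

namespace Pool.Agent.Sims

open FreeGroup (of)

theorem SameC_split {Y : CC} {g k : FreeGroup (Fin 3)} (hY : ConjClasses.mk (g * k) = Y)
    (hn : g.norm + k.norm = cycLen Y) :
    (g * k).toWord = g.toWord ++ k.toWord ∧ CR (g * k).toWord := by
  have h1 : cycLen Y ≤ (g * k).norm := by
    rw [← hY]; exact cycLen_le_norm _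
  have h2 : List.Sublist (g * k).toWord (g.toWord ++ k.toWord) :=
    FreeGroup.toWord_mul_sublist g k
  have h3 : (g * k).toWord = g.toWord ++ k.toWord := by
    apply h2.eq_of_length_le
    rw [List.length_append]
    have e1 : g.norm = g.toWord.length := rfl
    have e2 : k.norm = k.toWord.length := rfl
    have e3 : (g * k).norm = (g * k).toWord.length := rfl
    omega
  refine ⟨h3, ?_⟩
  rw [CR_iff_norm, hY]
  have e1 : g.norm = g.toWord.length := rfl
  have e2 : k.norm = k.toWord.length := rfl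
  have e3 : (g * k).norm = (g * k).toWord.length := rfl
  rw [e3, h3, List.length_append]
  omega

theorem SameC_rot {Y : CC} {g : FreeGroup (Fin 3)} (hY : ConjClasses.mk g = Y)
    (hg : CR g.toWord) (hl : 1 ≤ cycLen Y) :
    ∃ r < cycLen Y, (rep Y).rotate r = g.toWord := by
  have hc : cls g.toWord = Y := by
    rw [cls, FreeGroup.mk_toWord, hY]
  have hr := rep_rotated hg
  rw [hc] at hr
  obtain ⟨n, hn⟩ := hr
  refine ⟨n % cycLen Y, Nat.mod_lt _ (by omega), ?_⟩
  rw [cycLen_eq_rep, List.rotate_mod, hn]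

theorem ESame_fin (Y : CC) (hY : 1 ≤ cycLen Y) :
    ∃ E : Finset CC, E.card ≤ cycLen Y * (cycLen Y + 1) ∧ ∀ e ∈ ESame Y, e ∈ E := by
  classical
  refine ⟨(Finset.range (cycLen Y) ×ˢ Finset.range (cycLen Y + 1)).image
    (fun p => same (FreeGroup.mk (((rep Y).rotate p.1).take p.2))
      (FreeGroup.mk (((rep Y).rotate p.1).drop p.2))⁻¹), ?_, ?_⟩
  · refine Finset.card_image_le.trans ?_
    rw [Finset.card_product, Finset.card_range, Finset.card_range]
  · rintro e ⟨g, h, hg, hh, hmk, hn, rfl⟩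
    have hn' : g.norm + (h⁻¹).norm = cycLen Y := by rw [FreeGroup.norm_inv_eq]; exact hn
    obtain ⟨h1, h2⟩ := SameC_split hmk hn'
    obtain ⟨r, hr, hrot⟩ := SameC_rot hmk h2 hY
    rw [Finset.mem_image]
    have e1 : g.norm = g.toWord.length := rfl
    refine ⟨(r, g.norm), ?_, ?_⟩
    · rw [Finset.mem_product, Finset.mem_range, Finset.mem_range]
      exact ⟨hr, by simp only; omega⟩
    · simp only
      rw [hrot, h1, e1, List.take_left' rfl, List.drop_left' rfl, FreeGroup.mk_toWord,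
        FreeGroup.mk_toWord, inv_inv]

theorem EOpp_fin (Y Z : CC) :
    ∃ E : Finset CC, E.card ≤ cycLen Y * cycLen Z ∧ ∀ e ∈ EOpp Y Z, e ∈ E := by
  classical
  refine ⟨(Finset.range (cycLen Y) ×ˢ Finset.range (cycLen Z)).image
    (fun p => opp (FreeGroup.mk ((rep Y).rotate p.1)) (FreeGroup.mk ((rep Z).rotate p.2))), ?_, ?_⟩
  · refine Finset.card_image_le.trans ?_
    rw [Finset.card_product, Finset.card_range, Finset.card_range]
  · rintro e ⟨g, h, hg, hh, hg1, hh1, hY, hZ, hgn, hhn, rfl⟩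
    have hpos : ∀ x : FreeGroup (Fin 3), x ≠ 1 → 1 ≤ x.norm := by
      intro x hx
      by_contra hc
      exact hx (FreeGroup.norm_eq_zero.mp (by omega))
    have c1 : CR g.toWord := by rw [CR_iff_norm, hY]; exact hgn
    have c2 : CR h.toWord := by rw [CR_iff_norm, hZ]; exact hhn
    obtain ⟨r, hr, hrot⟩ := SameC_rot hY c1 (by have := hpos g hg1; omega)
    obtain ⟨t, ht, htrot⟩ := SameC_rot hZ c2 (by have := hpos h hh1; omega)
    rw [Finset.mem_image]
    refine ⟨(r, t), ?_, ?_⟩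
    · rw [Finset.mem_product, Finset.mem_range, Finset.mem_range]
      exact ⟨hr, ht⟩
    · simp only
      rw [hrot, htrot, FreeGroup.mk_toWord, FreeGroup.mk_toWord]

theorem SameC_hom_mk (σ : SPerm (Fin 3)) (w : List (Fin 3 × Bool)) :
    σ.aut (FreeGroup.mk w) = FreeGroup.mk (w.map σ.letter) := by
  induction w with
  | nil =>
    change σ.aut 1 = 1
    exact map_one _
  | cons x l ih =>
    have e1 : (FreeGroup.mk (x :: l) : FreeGroup (Fin 3)) = lett x * FreeGroup.mk l := by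
      rw [lett, FreeGroup.mul_mk]; rfl
    have e2 : (FreeGroup.mk ((x :: l).map σ.letter) : FreeGroup (Fin 3)) =
        lett (σ.letter x) * FreeGroup.mk (l.map σ.letter) := by
      rw [lett, FreeGroup.mul_mk]; rfl
    rw [e1, e2, map_mul, ih]
    congr 1
    exact SPerm.hom_lett σ x

theorem SameC_norm (σ : SPerm (Fin 3)) (g : FreeGroup (Fin 3)) : (σ.aut g).norm = g.norm := by
  have hred : FreeGroup.IsReduced (g.toWord.map σ.letter) := by
    have h1 : FreeGroup.IsReduced g.toWord := FreeGroup.isReduced_toWord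
    unfold FreeGroup.IsReduced at h1 ⊢
    rw [List.isChain_map]
    refine h1.imp (fun x y h h1 => ?_)
    have h2 : x.1 = y.1 := σ.perm.injective h1
    have h4 : x = y := Prod.ext h2 (h h2)
    rw [h4]
  have h2 : σ.aut g = FreeGroup.mk (g.toWord.map σ.letter) := by
    conv_lhs => rw [← FreeGroup.mk_toWord (x := g)]
    exact SameC_hom_mk σ _
  have h3 : (σ.aut g).toWord = g.toWord.map σ.letter := by
    rw [h2, FreeGroup.toWord_mk, hred.reduce_eq]
  change (σ.aut g).toWord.length = g.toWord.length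
  rw [h3, List.length_map]

theorem SameC_aut_inv (σ : SPerm (Fin 3)) (g : FreeGroup (Fin 3)) :
    σ.aut (σ.inv.aut g) = g := σ.hom_hom_inv g

/-- signed permutations with `a ↦ a` -/
theorem ESame_SPerm {σ : SPerm (Fin 3)} (hσ : Fix0 σ) {Y Z : CC} (h : Y = act σ.aut Z) {e : CC}
    (he : e ∈ ESame Y) : ∃ e' ∈ ESame Z, e = act σ.aut e' := by
  obtain ⟨g, k, hg, hk, hmk, hn, rfl⟩ := he
  have hG : Good σ.inv.aut 1 1 := Good_SPerm (Fix0_inv hσ)
  have hG2 : Good σ.aut 1 1 := Good_SPerm hσ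
  refine ⟨same (σ.inv.aut g) (σ.inv.aut k),
    ⟨σ.inv.aut g, σ.inv.aut k, hG.2.2.2 g hg, hG.2.2.2 k hk, ?_, ?_, rfl⟩, ?_⟩
  · have : σ.inv.aut g * (σ.inv.aut k)⁻¹ = σ.inv.aut (g * k⁻¹) := by
      rw [map_mul, map_inv]
    rw [this, ← act_mk, hmk, h, act_SPerm_inv]
  · rw [SameC_norm, SameC_norm, hn, h, cycLen_SPerm]
  · rw [act_same hG2, SameC_aut_inv, SameC_aut_inv, one_mul, mul_one, one_mul, mul_one]

theorem EOpp_SPerm {σ : SPerm (Fin 3)} (hσ : Fix0 σ) {Y Z Y' Z' : CC} (h : Y = act σ.aut Y')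
    (h' : Z = act σ.aut Z') {e : CC} (he : e ∈ EOpp Y Z) :
    ∃ e' ∈ EOpp Y' Z', e = act σ.aut e' := by
  obtain ⟨g, k, hg, hk, hg1, hk1, hY, hZ, hgn, hkn, rfl⟩ := he
  have hG : Good σ.inv.aut 1 1 := Good_SPerm (Fix0_inv hσ)
  have hG2 : Good σ.aut 1 1 := Good_SPerm hσ
  refine ⟨opp (σ.inv.aut g) (σ.inv.aut k),
    ⟨σ.inv.aut g, σ.inv.aut k, hG.2.2.2 g hg, hG.2.2.2 k hk, ?_, ?_, ?_, ?_, ?_, ?_, rfl⟩, ?_⟩
  · intro hc
    apply hg1
    rw [← SameC_aut_inv σ g, hc, map_one]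
  · intro hc
    apply hk1
    rw [← SameC_aut_inv σ k, hc, map_one]
  · rw [← act_mk, hY, h, act_SPerm_inv]
  · rw [← act_mk, hZ, h', act_SPerm_inv]
  · rw [SameC_norm, hgn, h, cycLen_SPerm]
  · rw [SameC_norm, hkn, h', cycLen_SPerm]
  · rw [act_opp hG2, SameC_aut_inv, SameC_aut_inv]
    simp

end Pool.Agent.Sims
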