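import Pool.Agent.Sims.LoF
import Pool.Agent.Sims.SameC
import Pool.Agent.Sims.BddM

/-!
# Module `LoG` : injectivity with signed permutations

* `lo_inj`: counts: `cnt (cls (loW ..))` is `2, 4, M + 2` at `0, 1, 2` (`cnt_cls`, `loW_cnt`), three different numbers for `M ≥ 3`; `cnt_SPerm`: `cnt (act σ.aut c) (σ.perm i) = cnt c i` (see module `Perm3`), so `σ.perm = σ'.perm`.
  Then apply `σ'.inv` (or compare letters): with `ε i = decide (σ.sign i = σ'.sign i)` the class of `(loW M t r s).map (flp ε).letter` is the class of `loW M t' r' s'`: `SameC_hom_mk`, `act_mk`,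
  `σ'.inv.letter (σ.letter x) = (flp ε).letter x` for `σ.perm = σ'.perm`.  Both words are cyclically reduced (`loW_CR`; the image of a cyclically reduced word under a letter permutation is cyclically reduced), `rotated_of_cls_eq`, `lo_inj0`.
Difficulty 2.
-/

namespace Pool.Agent.Sims

open FreeGroup (of)

/-- the counts of the words `loW` -/
def LoG_f (M : ℕ) (i : Fin 3) : ℕ := if i = 0 then 2 else if i = 1 then 4 else M + 2

theorem LoG_f_inj {M : ℕ} (hM : 3 ≤ M) : Function.Injective (LoG_f M) := by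
  intro i j h
  unfold LoG_f at h
  fin_cases i <;> fin_cases j <;> simp at h ⊢ <;> omega

theorem LoG_cnt {M t : ℕ} (ht : t ≤ M) (r s : ℕ) (i : Fin 3) :
    cnt (cls (loW M t r s)) i = LoG_f M i := by
  rw [cnt_cls (loW_CR M t r s)]
  obtain ⟨h0, h1, h2⟩ := loW_cnt ht r s
  unfold LoG_f
  fin_cases i
  · simpa using h0
  · simpa using h1
  · simpa using h2

theorem lo_inj {M t t' r r' s s' : ℕ} (hM : 3 ≤ M) (ht : t ≤ M) (ht' : t' ≤ M)
    (hr : r < M + 6) (hr' : r' < M + 6) (hs : s ≤ M + 6) (hs' : s' ≤ M + 6)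
    {σ σ' : SPerm (Fin 3)}
    (h : act σ.aut (cls (loW M t r s)) = act σ'.aut (cls (loW M t' r' s'))) :
    (σ.perm = σ'.perm ∧ σ.sign = σ'.sign) ∧ t = t' ∧ r = r' ∧ s = s' := by
  have hperm : σ.perm = σ'.perm := by
    have h1 : ∀ j, cnt (act σ.aut (cls (loW M t r s))) j = LoG_f M (σ.perm.symm j) := by
      intro j
      have := cnt_SPerm σ (cls (loW M t r s)) (σ.perm.symm j)
      rw [Equiv.apply_symm_apply, LoG_cnt ht] at this
      exact this
    have h2 : ∀ j, cnt (act σ'.aut (cls (loW M t' r' s'))) j = LoG_f M (σ'.perm.symm j) := by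
      intro j
      have := cnt_SPerm σ' (cls (loW M t' r' s')) (σ'.perm.symm j)
      rw [Equiv.apply_symm_apply, LoG_cnt ht'] at this
      exact this
    have h3 : σ.perm.symm = σ'.perm.symm := by
      ext j
      have h4 := h1 j
      rw [h, h2 j] at h4
      exact congrArg Fin.val (LoG_f_inj hM h4.symm)
    exact Equiv.symm_bijective.1 h3
  rw [act_SPerm_cls, act_SPerm_cls] at h
  have hrot := rotated_of_cls_eq (Rel_CR_map σ (loW_CR M t r s)) (Rel_CR_map σ' (loW_CR M t' r' s')) h
  have hrot2 := hrot.map σ'.inv.letter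
  rw [List.map_map, List.map_map] at hrot2
  have e1 : σ'.inv.letter ∘ σ'.letter = id := by
    funext x
    exact σ'.inv_letter x
  have e2 : σ'.inv.letter ∘ σ.letter = (flp (fun i => σ.sign i == σ'.sign i)).letter := by
    funext x
    obtain ⟨i, b⟩ := x
    simp only [Function.comp, SPerm.letter, SPerm.inv, flp, Equiv.refl_apply, hperm,
      Equiv.symm_apply_apply]
    by_cases h1 : σ.sign i = true <;> by_cases h2 : σ'.sign i = true <;> simp [h1, h2]
  rw [e1, e2, List.map_id] at hrot2
  obtain ⟨h1, h2⟩ := lo_inj0 (by omega) ht ht' hr hr' hs hs' hrot2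
  refine ⟨⟨hperm, ?_⟩, h2⟩
  funext i
  have := h1 i
  simpa using this

end Pool.Agent.Sims
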