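import Pool.Agent.Sims.LoD
import Pool.Agent.Sims.LoE
import Pool.Agent.Sims.LoG

/-!
# Module `LoH` : the lower bound

* `fin_len`: the classes of cyclic length `m` are the classes of words of length `m` (`exists_CR`, `cycLen_cls`): image of a finite set (`List.finite_length_eq`).
* `lo_card`: the map `(π, ε, t, r, s) ↦ act (SPerm.mk π ε).aut (cls (loW M t r s))` from `Equiv.Perm (Fin 3) × (Fin 3 → Bool) × Fin (M + 1) × Fin (M + 6) × Fin (M + 7)` to `orb (cls (w0 M))` (`lo_orb`, `orb_SPerm`, `orb_trans`) is injective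
  (`lo_inj`); the cardinality of the source is `6 * 8 * (M + 1) * (M + 6) * (M + 7)`; `Set.ncard_le_ncard`, `Set.ncard_image_of_injective`, `fin_len`.
* `lo_main`: `m = M + 8`, `w = w0 M`, `F3 m = (m - 1) (m - 2) (m - 7) = (M + 7) (M + 6) (M + 1)`.
Difficulty 2.
-/

namespace Pool.Agent.Sims

open FreeGroup (of)

theorem fin_len (m : ℕ) : {c : CC | cycLen c = m}.Finite := by
  refine ((List.finite_length_eq (Fin 3 × Bool) m).image cls).subset ?_
  intro c hc
  obtain ⟨w, hw, rfl⟩ := exists_CR c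
  refine ⟨w, ?_, rfl⟩
  have h1 : cycLen (cls w) = m := hc
  rw [cycLen_cls hw] at h1
  exact h1

theorem orb_fin (c : CC) : (orb c).Finite := by
  refine (fin_len (cycLen c)).subset ?_
  intro d hd
  exact hd.2

theorem lo_card {M : ℕ} (hM : 3 ≤ M) :
    48 * ((M + 1) * (M + 6) * (M + 7)) ≤ (orb (cls (w0 M))).ncard := by
  classical
  let f : Equiv.Perm (Fin 3) × (Fin 3 → Bool) × Fin (M + 1) × Fin (M + 6) × Fin (M + 7) → CC :=
    fun q => act (SPerm.mk q.1 q.2.1).aut (cls (loW M q.2.2.1 q.2.2.2.1 q.2.2.2.2))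
  have hf : Function.Injective f := by
    rintro ⟨π, ε, t, r, s⟩ ⟨π', ε', t', r', s'⟩ h
    have h1 := lo_inj (σ := SPerm.mk π ε) (σ' := SPerm.mk π' ε') hM (Nat.lt_succ_iff.1 t.2)
      (Nat.lt_succ_iff.1 t'.2) r.2 r'.2 (Nat.lt_succ_iff.1 s.2) (Nat.lt_succ_iff.1 s'.2) h
    obtain ⟨⟨h2, h3⟩, h4, h5, h6⟩ := h1
    simp only at h2 h3
    rw [h2, h3, Fin.ext h4, Fin.ext h5, Fin.ext h6]
  have hsub : Set.range f ⊆ orb (cls (w0 M)) := by
    rintro _ ⟨⟨π, ε, t, r, s⟩, rfl⟩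
    exact orb_trans (lo_orb (Nat.lt_succ_iff.1 t.2) (Nat.lt_succ_iff.1 s.2))
      (orb_SPerm _ _)
  have h1 : (Set.range f).ncard = 48 * ((M + 1) * (M + 6) * (M + 7)) := by
    rw [← Set.image_univ, Set.ncard_image_of_injective _ hf, Set.ncard_univ, Nat.card_eq_fintype_card]
    rw [Fintype.card_prod, Fintype.card_prod, Fintype.card_prod, Fintype.card_prod,
      Fintype.card_perm, Fintype.card_fun, Fintype.card_fin, Fintype.card_bool, Fintype.card_fin,
      Fintype.card_fin, Fintype.card_fin]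
    have : Nat.factorial 3 * (2 ^ 3 * ((M + 1) * ((M + 6) * (M + 7)))) =
      48 * ((M + 1) * (M + 6) * (M + 7)) := by
      rw [show Nat.factorial 3 = 6 from rfl]
      ring
    exact this
  rw [← h1]
  exact Set.ncard_le_ncard hsub (orb_fin _)

theorem lo_main {m : ℕ} (hm : 11 ≤ m) : ∃ w : List (Fin 3 × Bool), CR w ∧ w.length = m ∧
    OMin (cls w) ∧ 48 * F3 m ≤ (orb (cls w)).ncard := by
  obtain ⟨M, rfl⟩ : ∃ M, m = M + 8 := ⟨m - 8, by omega⟩
  refine ⟨w0 M, w0_CR M, w0_length M, w0_omin (by omega), ?_⟩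
  have h := lo_card (M := M) (by omega)
  have e : F3 (M + 8) = (M + 1) * (M + 6) * (M + 7) := by
    unfold F3
    rw [show M + 8 - 1 = M + 7 by omega, show M + 8 - 2 = M + 6 by omega,
      show M + 8 - 7 = M + 1 by omega]
    ring
  rw [e]
  exact h

end Pool.Agent.Sims
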