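import Pool.Agent.Sims.PqFl

/-!
# Module `PqRo` : the symmetry `ρ : a ↦ a⁻¹, b ↔ c`

`qro.letter` maps `(0, e) ↦ (0, !e)`, `(1, e) ↦ (2, e)`, `(2, e) ↦ (1, e)`.
* `q_ro_ro`: the letter map is an involution.
* `q_ro_capSb`: `Sb (qro.letter x)`: `(0, false)`, `(2, ±)` : the complement of `Sb`... precisely `Sb (ρ x) = true` iff `ρ x ∈ {a, b, b⁻¹}` iff `x ∈ {a⁻¹, c, c⁻¹}`, the complement of `Sb`.  So `capC (ρ V) Sb = capC V Sb` (`capC_SPerm`, `capC_compl`).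
* `q_ro_capP1`, `q_ro_capP2`: `PrC 1 (ρ x)` iff `x.1 = 2`.  `q_ro_cnt`: `cnt_SPerm`: `cnt (ρ V) 0 = cnt V 0`, `cnt (ρ V) 1 = cnt V 2`, `cnt (ρ V) 2 = cnt V 1`.
* `q_ro_OK`: `OMin_SPerm`; the pair cuts: `W ∈ orb (ρ c)` implies `ρ W ∈ orb c` (`orb_trans`, `orb_SPerm`, `q_ro_ro`), and `capC (ρ W) (PrC i)` is one of the `capC W (PrC i')`.
* `q_ro_HS`: `Sm (ρ c) (ρ V)`: `orb` and counts.
* `q_ro_th`: on generators.  `q_ro_fl`: `ρ β ρ` (`β` of `q_fl_act`): `a ↦ a⁻¹ ↦ a ↦ a⁻¹`, `b ↦ c ↦ c ↦ b`, `c ↦ b ↦ a b a⁻¹ ↦ a⁻¹ c a`; the conjugation by `a` (`g = a`, `act_conj`) makes it `a ↦ a⁻¹`, `b ↦ a b a⁻¹`, `c ↦ c`.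
* `q_ro_T`: `ρ φ ρ : a ↦ a⁻¹ ↦ b^{-x} a⁻¹ c^{-y} ↦ c^{-x} a b^{-y}`, and `b ↦ c ↦ c ↦ b`, `c ↦ c`; in general on `⟨b, c⟩` the identity (`In12_induction`, `φ g = g`).
* `q_ro_Rm`: `q_ro_T`.  `q_ro_Jc`: `φ a = a c^j` (`y = 0` and `x` replaced: do it directly): `ρ φ ρ : a ↦ a⁻¹ ↦ c^{-j} a⁻¹ ↦ b^{-j} a`.  `q_ro_Jb`: `φ a = b^j a`: `ρ φ ρ : a ↦ a⁻¹ ↦ a⁻¹ b^{-j} ↦ a c^{-j}`.
* `q_ro_TB`: `q_ro_HS`, `q_ro_th`.
* `q_ro_fs`: `ρ σ ρ = σ'` for `σ = flp s`, `σ' = flp (s ∘ swap 1 2)`.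
Difficulty 2.
-/

namespace Pool.Agent.Sims

open FreeGroup (of)

theorem PqRo_of : qro.aut (of 0) = (of 0)⁻¹ ∧ qro.aut (of 1) = of 2 ∧ qro.aut (of 2) = of 1 := by
  have h : ∀ i, qro.aut (of i) = lett (qro.letter (i, true)) := fun i => SPerm.hom_lett _ (i, true)
  refine ⟨?_, ?_, ?_⟩
  · rw [h, ← lett_false]
    congr 1
  · rw [h, ← lett_true]
    congr 1
  · rw [h, ← lett_true]
    congr 1

theorem PqRo_inv (g : FreeGroup (Fin 3)) : qro.aut (qro.aut g) = g := by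
  obtain ⟨h0, h1, h2⟩ := PqRo_of
  have h : (qro.aut.toMonoidHom).comp qro.aut.toMonoidHom = MonoidHom.id _ := by
    apply FreeGroup.ext_hom
    intro i
    show qro.aut (qro.aut (of i)) = of i
    fin_cases i
    · show qro.aut (qro.aut (of 0)) = of 0
      rw [h0, map_inv, h0, inv_inv]
    · show qro.aut (qro.aut (of 1)) = of 1
      rw [h1, h2]
    · show qro.aut (qro.aut (of 2)) = of 2
      rw [h2, h1]
  exact DFunLike.congr_fun h g

theorem PqRo_In12 {g : FreeGroup (Fin 3)} (hg : In12 g) : In12 (qro.aut g) := by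
  obtain ⟨h0, h1, h2⟩ := PqRo_of
  have e1 : In12 (qro.aut.toMonoidHom (of 1)) := by
    show In12 (qro.aut (of 1))
    rw [h1]; exact In12_of (by decide)
  have e2 : In12 (qro.aut.toMonoidHom (of 2)) := by
    show In12 (qro.aut (of 2))
    rw [h2]; exact In12_of (by decide)
  exact hom_In12 qro.aut.toMonoidHom e1 e2 hg

theorem q_ro_ro (V : CC) : act qro.aut (act qro.aut V) = V := by
  rw [act_act]
  have h : qro.aut.trans qro.aut = MulEquiv.refl _ := by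
    apply MulEquiv.ext
    intro g
    show qro.aut (qro.aut g) = g
    exact PqRo_inv g
  rw [h, act_refl]

theorem PqRo_cnt (V : CC) : cnt (act qro.aut V) 0 = cnt V 0 ∧ cnt (act qro.aut V) 1 = cnt V 2 ∧
    cnt (act qro.aut V) 2 = cnt V 1 :=
  ⟨cnt_SPerm qro V 0, cnt_SPerm qro V 2, cnt_SPerm qro V 1⟩

theorem q_ro_cnt (V : CC) : cnt (act qro.aut V) 0 = cnt V 0 := (PqRo_cnt V).1

theorem q_ro_capP1 (V : CC) : capC (act qro.aut V) (PrC 1) = capC V (PrC 2) := by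
  rw [capC_SPerm]
  apply capC_congr
  intro x
  revert x
  decide

theorem q_ro_capP2 (V : CC) : capC (act qro.aut V) (PrC 2) = capC V (PrC 1) := by
  rw [capC_SPerm]
  apply capC_congr
  intro x
  revert x
  decide

theorem PqRo_capP0 (V : CC) : capC (act qro.aut V) (PrC 0) = capC V (PrC 0) := by
  rw [capC_SPerm]
  apply capC_congr
  intro x
  revert x
  decide

theorem PqRo_capSb (V : CC) : capC (act qro.aut V) Sb = capC V Sb := by
  rw [capC_SPerm, ← capC_compl V Sb]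
  apply capC_congr
  intro x
  revert x
  decide

theorem q_ro_OK {c : CC} (h : qOK c) : qOK (act qro.aut c) := by
  obtain ⟨e0, e1, e2⟩ := PqRo_cnt c
  refine ⟨OMin_SPerm qro h.om, ?_, ?_, ?_, ?_, ?_⟩
  · rw [e0]; exact h.h4
  · rw [e0]; exact h.ev
  · rw [e0, e1]; exact h.h2
  · rw [e0, e2]; exact h.h1
  · intro W hW i
    rw [e0]
    have hW2 : act qro.aut W ∈ orb c := by
      have h1 : act qro.aut W ∈ orb (act qro.aut c) := orb_trans hW (orb_SPerm qro W)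
      have h2 : c ∈ orb (act qro.aut c) := by
        have := orb_SPerm qro (act qro.aut c)
        rwa [q_ro_ro] at this
      rw [← orb_eq (orb_SPerm qro c)]
      exact h1
    fin_cases i
    · have := h.pr _ hW2 0
      rw [PqRo_capP0] at this
      exact this
    · have := h.pr _ hW2 2
      rw [q_ro_capP2] at this
      exact this
    · have := h.pr _ hW2 1
      rw [q_ro_capP1] at this
      exact this

theorem q_ro_HS {c V : CC} (h : qHS c V) : qHS (act qro.aut c) (act qro.aut V) := by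
  obtain ⟨⟨ho, hc⟩, hcap⟩ := h
  obtain ⟨e0, e1, e2⟩ := PqRo_cnt c
  obtain ⟨f0, f1, f2⟩ := PqRo_cnt V
  refine ⟨⟨?_, ?_⟩, ?_⟩
  · rw [orb_eq (orb_SPerm qro c)]
    exact orb_trans ho (orb_SPerm qro V)
  · intro i
    fin_cases i
    · show cnt (act qro.aut V) 0 = cnt (act qro.aut c) 0
      rw [e0, f0, hc]
    · show cnt (act qro.aut V) 1 = cnt (act qro.aut c) 1
      rw [e1, f1, hc]
    · show cnt (act qro.aut V) 2 = cnt (act qro.aut c) 2
      rw [e2, f2, hc]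
  · rw [PqRo_capSb, f0, hcap]

theorem PqRo_th_of : qth.aut (of 0) = (of 0)⁻¹ ∧ qth.aut (of 1) = of 1 ∧
    qth.aut (of 2) = of 2 := by
  refine ⟨?_, ?_, ?_⟩
  · show (flp _).aut (of 0) = _
    rw [flp_of]
    rfl
  · show (flp _).aut (of 1) = _
    rw [flp_of]
    rfl
  · show (flp _).aut (of 2) = _
    rw [flp_of]
    rfl

theorem q_ro_th (V : CC) : act qro.aut (act qth.aut V) = act qth.aut (act qro.aut V) := by
  rw [act_act, act_act]
  apply act_conj _ _ 1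
  obtain ⟨h0, h1, h2⟩ := PqRo_of
  obtain ⟨t0, t1, t2⟩ := PqRo_th_of
  intro i
  rw [one_mul, inv_one, mul_one, MulEquiv.trans_apply, MulEquiv.trans_apply]
  fin_cases i
  · show qro.aut (qth.aut (of 0)) = qth.aut (qro.aut (of 0))
    rw [t0, h0, map_inv, map_inv, h0, t0]
  · show qro.aut (qth.aut (of 1)) = qth.aut (qro.aut (of 1))
    rw [t1, h1, t2]
  · show qro.aut (qth.aut (of 2)) = qth.aut (qro.aut (of 2))
    rw [t2, h2, t1]

theorem q_ro_fl (V : CC) : qfl (act qro.aut V) = act qro.aut (qfl V) := by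
  obtain ⟨β, b0, b1, b2, hβ⟩ := q_fl_act
  obtain ⟨h0, h1, h2⟩ := PqRo_of
  rw [hβ, hβ, act_act, act_act]
  apply act_conj _ _ (of 0)
  intro i
  rw [MulEquiv.trans_apply, MulEquiv.trans_apply]
  fin_cases i
  · show β (qro.aut (of 0)) = of 0 * qro.aut (β (of 0)) * (of 0)⁻¹
    rw [h0, map_inv, b0, map_inv, h0]
    group
  · show β (qro.aut (of 1)) = of 0 * qro.aut (β (of 1)) * (of 0)⁻¹
    rw [h1, b1, b2, map_mul, map_mul, map_inv, h0, h1]
    group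
  · show β (qro.aut (of 2)) = of 0 * qro.aut (β (of 2)) * (of 0)⁻¹
    rw [h2, b1, b2, h2]

theorem PqRo_T {p q : FreeGroup (Fin 3)} {V W : CC} (h : qT p q V W) :
    qT (qro.aut q)⁻¹ (qro.aut p)⁻¹ (act qro.aut V) (act qro.aut W) := by
  obtain ⟨φ, ⟨hp, hq, ha, hg⟩, rfl⟩ := h
  obtain ⟨h0, h1, h2⟩ := PqRo_of
  refine ⟨(qro.aut.trans φ).trans qro.aut, ⟨In12_inv (PqRo_In12 hq), In12_inv (PqRo_In12 hp),
    ?_, ?_⟩, ?_⟩
  · show qro.aut (φ (qro.aut (of 0))) = _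
    rw [h0, map_inv, ha, map_inv, map_mul, map_mul, h0]
    group
  · intro g hg12
    show qro.aut (φ (qro.aut g)) = g
    rw [hg _ (PqRo_In12 hg12), PqRo_inv]
  · rw [act_act, act_act]
    congr 1
    apply MulEquiv.ext
    intro g
    show qro.aut (φ g) = qro.aut (φ (qro.aut (qro.aut g)))
    rw [PqRo_inv]

theorem PqRo_pow1 (k : ℤ) : (qro.aut (of 1 ^ k))⁻¹ = of 2 ^ (-k) := by
  rw [map_zpow, PqRo_of.2.1, zpow_neg]

theorem PqRo_pow2 (k : ℤ) : (qro.aut (of 2 ^ k))⁻¹ = of 1 ^ (-k) := by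
  rw [map_zpow, PqRo_of.2.2, zpow_neg]

theorem PqRo_pow0 : (qro.aut (1 : FreeGroup (Fin 3)))⁻¹ = 1 := by
  rw [map_one, inv_one]

theorem q_ro_T {x y : ℤ} {V W : CC} (h : qT (of 2 ^ y) (of 1 ^ x) V W) :
    qT (of 2 ^ (-x)) (of 1 ^ (-y)) (act qro.aut V) (act qro.aut W) := by
  have := PqRo_T h
  rwa [PqRo_pow1, PqRo_pow2] at this

theorem q_ro_Rm {c V W : CC} (h : qRm c V W) :
    qRm (act qro.aut c) (act qro.aut V) (act qro.aut W) := by
  obtain ⟨h1, h2, x, y, h3⟩ := h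
  exact ⟨q_ro_HS h1, q_ro_HS h2, -y, -x, q_ro_T h3⟩

theorem q_ro_Jc {c V W : CC} (h : qJc c V W) :
    qJb (act qro.aut c) (act qro.aut V) (act qro.aut W) := by
  obtain ⟨h1, h2, h3, j, hj, h4⟩ := h
  refine ⟨q_ro_HS h1, q_ro_HS h2, ?_, -j, neg_ne_zero.2 hj, ?_⟩
  · rw [q_ro_capP2, q_ro_cnt, h3]
  · have := PqRo_T h4
    rwa [PqRo_pow2, PqRo_pow0] at this

theorem q_ro_Jb {c V W : CC} (h : qJb c V W) :
    qJc (act qro.aut c) (act qro.aut V) (act qro.aut W) := by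
  obtain ⟨h1, h2, h3, j, hj, h4⟩ := h
  refine ⟨q_ro_HS h1, q_ro_HS h2, ?_, -j, neg_ne_zero.2 hj, ?_⟩
  · rw [q_ro_capP1, q_ro_cnt, h3]
  · have := PqRo_T h4
    rwa [PqRo_pow1, PqRo_pow0] at this

theorem q_ro_TB {c V : CC} (h : qTB c V) : qTB (act qro.aut c) (act qro.aut V) := by
  refine ⟨q_ro_HS h.1, ?_⟩
  rw [← q_ro_th]
  exact q_ro_HS h.2

theorem q_ro_fs {s : Fin 3 → Bool} (hs : s 0 = true) : ∃ s' : Fin 3 → Bool, s' 0 = true ∧
    ∀ V : CC, act qro.aut (act (flp s).aut V) = act (flp s').aut (act qro.aut V) := by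
  refine ⟨fun i => s (Equiv.swap 1 2 i), ?_, ?_⟩
  · show s (Equiv.swap 1 2 0) = true
    rw [show Equiv.swap (1 : Fin 3) 2 0 = 0 from by decide]
    exact hs
  · intro V
    rw [act_act, act_act]
    apply act_conj _ _ 1
    obtain ⟨h0, h1, h2⟩ := PqRo_of
    intro i
    rw [one_mul, inv_one, mul_one, MulEquiv.trans_apply, MulEquiv.trans_apply]
    have k0 : Equiv.swap (1 : Fin 3) 2 0 = 0 := by decide
    have k1 : Equiv.swap (1 : Fin 3) 2 1 = 2 := by decide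
    have k2 : Equiv.swap (1 : Fin 3) 2 2 = 1 := by decide
    fin_cases i
    · show qro.aut ((flp s).aut (of 0)) = (flp _).aut (qro.aut (of 0))
      rw [flp_of, h0, map_inv, flp_of]
      rw [k0, hs]
      simp [h0]
    · show qro.aut ((flp s).aut (of 1)) = (flp _).aut (qro.aut (of 1))
      rw [flp_of, h1, flp_of]
      rw [k2]
      by_cases h : s 1 = true
      · simp [h, h1]
      · simp [h, h1]
    · show qro.aut ((flp s).aut (of 2)) = (flp _).aut (qro.aut (of 2))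
      rw [flp_of, h2, flp_of]
      rw [k1]
      by_cases h : s 2 = true
      · simp [h, h2]
      · simp [h, h2]

end Pool.Agent.Sims
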