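import Pool.Agent.Sims.PqSy

/-!
# Module `PqFl` : the involution `qfl`

* `q_fl_act`: the automorphism `β = qab.trans qth.aut` satisfies `β a = a⁻¹`, `β b = a b a⁻¹`, `β c = c`: `wh (0, true) Sb = pot 0 (whp (0, true) Sb)`, `potFun_of_self`, `potFun_of_ne`: `b ↦ a⁻¹ b a` (`Sb (1, ±) = true`),
  `c ↦ c` (`Sb (2, ±) = false`), then `a ↦ a⁻¹`.
* `q_fl_fl`: `β (β a) = a`, `β (β b) = a⁻¹ (a b a⁻¹) a = b`: `act_act`, `act_conj` with `g = 1`.
* `q_fl_HS`: `V` has `Sm c V`, `capC V Sb = cnt V 0`: `Lv V (0, true) Sb`, so `Sm V (act qab V)` (`Lv_Sm`) and `Lv (act qab V) (0, false) A'` with `A' = {a⁻¹, b, b⁻¹}` (`Lv_inv`), so `capC (act qab V) Sc = cnt (act qab V) 0`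
  (`capC_compl`, `capC_congr`); then `q_th_capSb`, `q_th_Sm`, `q_th_cnt`.
* `q_fl_capP`: `PhLB_nc` (`Sb` does not separate `b, b⁻¹` nor `c, c⁻¹`) for `i = 1, 2`, and `q_th_capP`.
* `q_fl_Rm`: `W = φ V`, `φ a = c^y a b^x`.  `qfl W = (β φ β) (qfl V)` (`q_fl_fl`).  `β φ β` maps `a ↦ a⁻¹ ↦ b^{-x} a⁻¹ c^{-y} ↦ (a b^{-x} a⁻¹) a c^{-y} = a b^{-x} c^{-y}`,
  `b ↦ a b a⁻¹ ↦ c^y a b^x b b^{-x} a⁻¹ c^{-y} ↦ c^y a⁻¹ (a b a⁻¹) a c^{-y} = c^y b c^{-y}`, `c ↦ c = c^y c c^{-y}`.  Composed with the conjugation by `c^{-y}` (`act_conj`, `g = c^y`): `a ↦ c^{-y} a b^{-x}`, `b ↦ b`, `c ↦ c`.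
  So `qT (c^{-y}) (b^{-x})`; take the automorphism of `q_T_ex`.  `q_fl_HS` for both.
* `q_wh_Sb`: definition and `q_th_th`.  `q_wh_Sc`: `act (wh (0, true) Sc) V`: `b ↦ b`, `c ↦ a⁻¹ c a`; `qfl (θ V) = θ qab θ V`: `a ↦ a`, `b ↦ a b a⁻¹`, `c ↦ c`; these differ by the conjugation by `a` (`act_conj`).
* `q_fl_two`: `capC (qfl V) Sc = capC (act qab V) Sb` (`q_th_capSc`) `= cnt (act qab (act qab V)) 0` (`cnt_wh_self`), `act qab V = act (pot 0 (ind Sb)) V` (`wh_pot`), `pot_add`, `pot_congr`.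
Difficulty 2.
-/

namespace Pool.Agent.Sims

open FreeGroup (of)

theorem PqFl_ab : qab (of 0) = of 0 ∧ qab (of 1) = (of 0)⁻¹ * of 1 * of 0 ∧ qab (of 2) = of 2 := by
  refine ⟨?_, ?_, ?_⟩
  · show potFun 0 (whp (0, true) Sb) (of 0) = _
    rw [potFun_of_self]
  · show potFun 0 (whp (0, true) Sb) (of 1) = _
    rw [potFun_of_ne _ (by decide)]
    simp [whp, Sb, sgn]
  · show potFun 0 (whp (0, true) Sb) (of 2) = _
    rw [potFun_of_ne _ (by decide)]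
    simp [whp, Sb]

theorem PqFl_th : qth.aut (of 0) = (of 0)⁻¹ ∧ qth.aut (of 1) = of 1 ∧ qth.aut (of 2) = of 2 := by
  refine ⟨?_, ?_, ?_⟩
  · rw [← lett_false, ← lett_true]
    exact SPerm.hom_lett qth (0, true)
  · rw [← lett_true]
    exact SPerm.hom_lett qth (1, true)
  · rw [← lett_true]
    exact SPerm.hom_lett qth (2, true)

theorem q_fl_act : ∃ β : FreeGroup (Fin 3) ≃* FreeGroup (Fin 3), β (of 0) = (of 0)⁻¹ ∧
    β (of 1) = of 0 * of 1 * (of 0)⁻¹ ∧ β (of 2) = of 2 ∧ ∀ V : CC, qfl V = act β V := by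
  refine ⟨qab.trans qth.aut, ?_, ?_, ?_, ?_⟩
  · show qth.aut (qab (of 0)) = _
    rw [PqFl_ab.1, PqFl_th.1]
  · show qth.aut (qab (of 1)) = _
    rw [PqFl_ab.2.1, map_mul, map_mul, map_inv, PqFl_th.1, PqFl_th.2.1, inv_inv]
  · show qth.aut (qab (of 2)) = _
    rw [PqFl_ab.2.2, PqFl_th.2.2]
  · intro V
    exact act_act _ _ _

theorem q_fl_fl (V : CC) : qfl (qfl V) = V := by
  obtain ⟨β, h0, h1, h2, h⟩ := q_fl_act
  rw [h, h, act_act]
  have h3 : act (β.trans β) V = act (MulEquiv.refl _) V := by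
    apply act_conj _ _ 1
    intro i
    show β (β (of i)) = 1 * of i * 1⁻¹
    rw [one_mul, inv_one, mul_one]
    fin_cases i
    · show β (β (of 0)) = of 0
      rw [h0, map_inv, h0, inv_inv]
    · show β (β (of 1)) = of 1
      rw [h1, map_mul, map_mul, map_inv, h0, h1]
      group
    · show β (β (of 2)) = of 2
      rw [h2, h2]
  rw [h3, act_refl]

theorem PqFl_Lv {c V : CC} (h : qHS c V) : Lv V (0, true) Sb :=
  ⟨by decide, by decide, h.2⟩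

theorem q_fl_HS {c V : CC} (h : qHS c V) : qHS c (qfl V) := by
  have h1 := PqFl_Lv h
  have h2 : Sm V (act qab V) := Lv_Sm h1
  have h3 : Sm c (act qab V) := Sm_trans h.1 h2
  refine ⟨q_th_Sm h3, ?_⟩
  have h4 := (Lv_inv h1).1.2.2
  have h5 : capC (act qab V) Sc = cnt (act qab V) 0 := by
    rw [← capC_compl]
    refine Eq.trans (capC_congr _ ?_) h4
    rintro ⟨i, e⟩
    revert i e
    decide
  rw [qfl, q_th_capSb, q_th_cnt]
  exact h5

theorem q_fl_capP (V : CC) {i : Fin 3} (hi : i ≠ 0) :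
    capC (qfl V) (PrC i) = capC V (PrC i) := by
  rw [qfl, q_th_capP]
  apply PhLB_nc (by decide) (by decide)
  have h : ∀ i : Fin 3, i ≠ 0 → Sb (i, true) = Sb (i, false) := by decide
  exact h i hi

theorem q_fl_Rm {c V W : CC} (h : qRm c V W) : qRm c (qfl V) (qfl W) := by
  obtain ⟨hV, hW, x, y, φ, ⟨-, -, hφ, hφ'⟩, rfl⟩ := h
  refine ⟨q_fl_HS hV, q_fl_HS hW, -x, -y, ?_⟩
  obtain ⟨ψ, hψ⟩ := q_T_ex (p := of 2 ^ (-y)) (q := of 1 ^ (-x))
    (In12_zpow (In12_of (by decide)) _) (In12_zpow (In12_of (by decide)) _)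
  refine ⟨ψ, hψ, ?_⟩
  obtain ⟨-, -, hψ1, hψ2⟩ := hψ
  obtain ⟨β, h0, h1, h2, h⟩ := q_fl_act
  have e1 : qfl (act φ V) = act ((β.trans φ).trans β) (qfl V) := by
    conv_lhs => rw [← q_fl_fl V]
    rw [h, h (qfl V), act_act, act_act]
    rfl
  rw [e1]
  apply act_conj _ _ (of 2 ^ y)
  have f1 : φ (of 1) = of 1 := hφ' _ (In12_of (by decide))
  have f2 : φ (of 2) = of 2 := hφ' _ (In12_of (by decide))
  have g1 : ψ (of 1) = of 1 := hψ2 _ (In12_of (by decide))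
  have g2 : ψ (of 2) = of 2 := hψ2 _ (In12_of (by decide))
  have cz : ∀ k : ℤ, (of (0 : Fin 3) * of 1 * (of 0)⁻¹) ^ k = of 0 * of 1 ^ k * (of 0)⁻¹ := by
    intro k
    exact conj_zpow
  intro i
  show β (φ (β (of i))) = _
  fin_cases i
  · show β (φ (β (of 0))) = of 2 ^ y * ψ (of 0) * (of 2 ^ y)⁻¹
    rw [h0, map_inv, map_inv, hφ, hψ1, map_mul, map_mul, map_zpow, map_zpow, h0, h1, h2, cz]
    group
  · show β (φ (β (of 1))) = of 2 ^ y * ψ (of 1) * (of 2 ^ y)⁻¹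
    rw [h1, map_mul, map_mul, map_inv, map_mul, map_mul, map_inv, hφ, f1, g1, map_mul, map_mul,
      map_zpow, map_zpow, h0, h1, h2, cz]
    group
  · show β (φ (β (of 2))) = of 2 ^ y * ψ (of 2) * (of 2 ^ y)⁻¹
    rw [h2, f2, g2, h2]
    group

theorem q_wh_Sb (V : CC) : act (wh (0, true) Sb) V = act qth.aut (qfl V) :=
  (q_th_th _).symm

theorem q_wh_Sc (V : CC) : act (wh (0, true) Sc) V = qfl (act qth.aut V) := by
  rw [qfl, act_act, act_act]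
  apply act_conj _ _ (of 0)⁻¹
  intro i
  fin_cases i
  · show potFun 0 (whp (0, true) Sc) (of 0) = (of 0)⁻¹ * qth.aut (qab (qth.aut (of 0))) * (of 0)⁻¹⁻¹
    rw [potFun_of_self, PqFl_th.1, map_inv, PqFl_ab.1, map_inv, PqFl_th.1]
    group
  · show potFun 0 (whp (0, true) Sc) (of 1) = (of 0)⁻¹ * qth.aut (qab (qth.aut (of 1))) * (of 0)⁻¹⁻¹
    rw [potFun_of_ne _ (by decide), PqFl_th.2.1, PqFl_ab.2.1, map_mul, map_mul, map_inv, PqFl_th.1,
      PqFl_th.2.1]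
    have h1 : whp (0, true) Sc (1, false) = 0 := by simp [whp, Sc]
    have h2 : whp (0, true) Sc (1, true) = 0 := by simp [whp, Sc]
    rw [h1, h2]
    group
  · show potFun 0 (whp (0, true) Sc) (of 2) = (of 0)⁻¹ * qth.aut (qab (qth.aut (of 2))) * (of 0)⁻¹⁻¹
    rw [potFun_of_ne _ (by decide), PqFl_th.2.2, PqFl_ab.2.2, PqFl_th.2.2]
    simp [whp, Sc, sgn]

theorem q_fl_two (V : CC) : capC (qfl V) Sc =
    cnt (act (pot 0 (fun x => 2 * ind Sb x)) V) 0 := by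
  rw [qfl, q_th_capSc]
  have h1 := cnt_wh_self (act qab V) (0, true) Sb (by decide) (by decide)
  rw [← h1, wh_pot, qab, wh_pot, pot_add]
  have h2 : ind Sb + ind Sb = fun x => 2 * ind Sb x := by
    funext x
    show ind Sb x + ind Sb x = 2 * ind Sb x
    ring
  rw [h2]

end Pool.Agent.Sims
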