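import Pool.Agent.Sims.PqCy
import Pool.Agent.Sims.PqFl

/-!
# Module `PqNp` : forbidden patterns

`V = mk (arcP L)`, `capC V Sb = cnt V 0` and `capC (qfl V) Sc = cnt V 0`.  Then no letter `a` of the cyclic word has a letter `c^±` on its left and `b^±` on its right, and no letter `a⁻¹` has `b^±` on its left and `c^±` on its right.
For consecutive pairs `(q, r)` of `L` the letter between the arcs is `(0, r.1)`, the last letter of `q.2` is `bar y` where `ahd (q.2)⁻¹ = some y`, the first letter of `r.2` is `x` where `ahd r.2 = some x`.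
Proof.  Let `f k = cnt (act (pot 0 (fun x => k * ind Sb x)) V) 0`.  `f 0 = cnt V 0` (`pot_zero`), `f 1 = capC V Sb` (`wh_pot`, `cnt_wh_self`), `f 2 = capC (qfl V) Sc` (`q_fl_two`): all three are equal.
1. Suppose the pattern occurs at the consecutive pair `(q, r)`.  Rotate `L` so that `r` is the first and `q` the last arc (`L = r :: t ++ [q]`, or `L = [q]`, `r = q`); `q_zip_rot`-like: from `p ∈ L.zip (L.rotate 1)` get `n` with `L.rotate n` of this form
   (`List.mem_iff_getElem`, `List.getElem_zip`, `List.getElem_rotate`); `V` does not change (`q_arcP_rot`).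
2. `W = ArcA_W L = (0, r.1) :: r.2.toWord ++ ⋯ ++ (0, q.1) :: q.2.toWord` is cyclically reduced (`ArcA_CR_iff`), `cls W = V` (`ArcA_mk`).  Rotate the first letter to the end: `W' = r.2.toWord ++ ⋯ ++ q.2.toWord ++ [(0, r.1)]`.  Write
   `W' = W'' ++ [y', (0, r.1)]`, `y'` the last letter of `q.2` (`y'.1 = 2` or `1`), `W''` begins with `x` (it is not empty since `x.1 ≠ y'.1`).
3. `W''` is of the form `zpw 0 k ++ expand 0 s'` with letters `≠ 0` (lemma of `SylA` used in `exists_syl`); it begins with `x`, `x.1 ≠ 0`, so `k = 0` and `s'` begins with `(x, _)`.  So `W' = expand 0 s`, `s = s' ++ [(y', ε)]`, `ε = 1` if `r.1`, else `-1`.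
4. For every potential `q`: `act (pot 0 q) V = cls (expand 0 (shift q s))` (`act_pot`), `SValid` (`SValid_shift`), so `cnt (..) 0 = cyc (fun a b => (a.2 + q a.1 - q (bar b.1)).natAbs) s` (`cnt_cls`, `cntL_expand_self`, `sum_shift`).
5. Sum over the cyclic pairs of `s`: `|A + 2D| + |A| ≥ 2 |A + D|` (`D = ind Sb a.1 - ind Sb (bar b.1)`), so `f 0 + f 2 ≥ 2 f 1`, and for the pair (last, first) = `((y', ε), (x, _))`: pattern 1: `A = 1`, `D = 0 - 1`: `1 + 1 > 0`;
   pattern 2: `A = -1`, `D = 1 - 0`: `1 + 1 > 0`.  So `f 0 + f 2 > 2 f 1`, contradiction.  (`cyc` of `x :: l` is `lin f x l x`; `lin_append` splits off the last pair.)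
Difficulty 3.
-/

namespace Pool.Agent.Sims

open FreeGroup (of)

theorem PqNp_rot {β : Type*} {L : List β} {q r : β} (h : (q, r) ∈ L.zip (L.rotate 1)) :
    ∃ (n : ℕ) (t t' : List β), L.rotate n = r :: t ∧ r :: t = t' ++ [q] := by
  obtain ⟨i, hi, he⟩ := List.mem_iff_getElem.1 h
  rw [List.getElem_zip] at he
  have hi1 : i < L.length := by
    rw [List.length_zip] at hi
    exact lt_of_lt_of_le hi (min_le_left _ _)
  have e1 : L[i] = q := congrArg Prod.fst he
  have e2 : (L.rotate 1)[i]'(by rw [List.length_rotate]; exact hi1) = r := congrArg Prod.snd he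
  rw [List.getElem_rotate] at e2
  have hlen : (L.rotate (i + 1)).length = L.length := List.length_rotate _ _
  have hpos : 0 < L.length := by omega
  have hne : L.rotate (i + 1) ≠ [] := by
    intro h0
    rw [h0] at hlen
    simp at hlen
    omega
  obtain ⟨r', t, hrt⟩ := List.exists_cons_of_ne_nil hne
  have hr' : r' = r := by
    have h0 : (L.rotate (i + 1))[0]'(by rw [hlen]; exact hpos) = r' := by
      simp [hrt]
    rw [List.getElem_rotate] at h0
    rw [← h0, ← e2]
    congr 2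
    omega
  subst hr'
  refine ⟨i + 1, t, (r' :: t).dropLast, hrt, ?_⟩
  have hl : (L.rotate (i + 1)).getLast hne = q := by
    rw [List.getLast_eq_getElem, List.getElem_rotate, ← e1]
    have e3 : ((L.rotate (i + 1)).length - 1 + (i + 1)) % L.length = i := by
      rw [hlen, show L.length - 1 + (i + 1) = i + L.length by omega, Nat.add_mod_right,
        Nat.mod_eq_of_lt hi1]
    simp only [e3]
  have hl' : (r' :: t).getLast (by simp) = q := by
    rw [← hl]
    congr 1
    exact hrt.symm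
  rw [← hl', List.dropLast_append_getLast]

theorem PqNp_zpw (e : Bool) (l : List (Fin 3 × Bool)) :
    ((0 : Fin 3), e) :: l = zpw 0 (if e then 1 else -1) ++ l := by
  cases e <;> simp [zpw]

theorem PqNp_expand {x : Fin 3 × Bool} {l : List (Fin 3 × Bool)}
    (hl : FreeGroup.IsReduced (x :: l)) :
    ∃ (m : ℤ) (s : List ((Fin 3 × Bool) × ℤ)), x :: l = expand 0 ((x, m) :: s) ∧
      ∀ q ∈ s, q.1.1 ≠ 0 := by
  have hred : FreeGroup.IsReduced l := by
    unfold FreeGroup.IsReduced at hl ⊢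
    exact hl.tail
  obtain ⟨k, s, hs, hq⟩ := SylA_group 0 l hred
  exact ⟨k, s, by rw [hs]; rfl, hq⟩

theorem PqNp_cnt {s : List ((Fin 3 × Bool) × ℤ)} (hs : SValid 0 s) (k : ℤ) :
    cnt (act (pot 0 (fun x => k * ind Sb x)) (cls (expand 0 s))) 0 =
      cyc (fun a b : (Fin 3 × Bool) × ℤ =>
        (a.2 + k * ind Sb a.1 - k * ind Sb (bar b.1)).natAbs) s := by
  have hv := SValid_shift 0 (fun x => k * ind Sb x) s hs
  rw [act_pot 0 _ s hs.1, cnt_cls hv.2, cntL_expand_self 0 _ hv.1, sum_shift]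

theorem PqNp_core {V : CC} {y x : Fin 3 × Bool} {e : Bool} {l : List (Fin 3 × Bool)}
    (hy : y.1 ≠ 0) (hx : x.1 ≠ 0) (hCR : CR (y :: (0, e) :: x :: l))
    (hV : cls (y :: (0, e) :: x :: l) = V)
    (h1 : capC V Sb = cnt V 0) (h2 : capC (qfl V) Sc = cnt V 0) :
    ((if e then 1 else -1 : ℤ) + 0 * ind Sb y - 0 * ind Sb (bar x)).natAbs +
      ((if e then 1 else -1 : ℤ) + 2 * ind Sb y - 2 * ind Sb (bar x)).natAbs ≤
      2 * ((if e then 1 else -1 : ℤ) + 1 * ind Sb y - 1 * ind Sb (bar x)).natAbs := by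
  have hred : FreeGroup.IsReduced (x :: l) := by
    have := hCR.1
    unfold FreeGroup.IsReduced at this ⊢
    exact this.tail.tail
  obtain ⟨m, s, hs, hq⟩ := PqNp_expand hred
  have he : y :: (0, e) :: x :: l = expand 0 ((y, if e then 1 else -1) :: (x, m) :: s) := by
    rw [hs, PqNp_zpw]
    rfl
  have hS : SValid 0 ((y, if e then 1 else -1) :: (x, m) :: s) := by
    refine ⟨?_, by rw [← he]; exact hCR⟩
    intro q hq'
    rcases List.mem_cons.mp hq' with rfl | h
    · exact hy
    · rcases List.mem_cons.mp h with rfl | h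
      · exact hx
      · exact hq q h
  rw [he] at hV
  have f0 := PqNp_cnt hS 0
  have f1 := PqNp_cnt hS 1
  have f2 := PqNp_cnt hS 2
  rw [hV] at f0 f1 f2
  have g0 : cnt (act (pot 0 (fun x => 0 * ind Sb x)) V) 0 = cnt V 0 := by
    have : (fun x => 0 * ind Sb x) = (0 : Fin 3 × Bool → ℤ) := by
      funext x
      simp
    rw [this, pot_zero]
  have g1 : cnt (act (pot 0 (fun x => 1 * ind Sb x)) V) 0 = cnt V 0 := by
    have : (fun x => 1 * ind Sb x) = ind Sb := by
      funext x
      simp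
    rw [this, ← wh_pot, cnt_wh_self V (0, true) Sb (by decide) (by decide), h1]
  have g2 : cnt (act (pot 0 (fun x => 2 * ind Sb x)) V) 0 = cnt V 0 := by
    rw [← q_fl_two, h2]
  rw [g0] at f0
  rw [g1] at f1
  rw [g2] at f2
  simp only [cyc, lin] at f0 f1 f2
  have hle : lin (fun a b : (Fin 3 × Bool) × ℤ =>
        (a.2 + 1 * ind Sb a.1 - 1 * ind Sb (bar b.1)).natAbs +
        (a.2 + 1 * ind Sb a.1 - 1 * ind Sb (bar b.1)).natAbs) (x, m) s (y, if e then 1 else -1) ≤
      lin (fun a b : (Fin 3 × Bool) × ℤ =>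
        (a.2 + 0 * ind Sb a.1 - 0 * ind Sb (bar b.1)).natAbs +
        (a.2 + 2 * ind Sb a.1 - 2 * ind Sb (bar b.1)).natAbs) (x, m) s
          (y, if e then 1 else -1) := by
    refine lin_mono (fun a b => ?_) _ _ _
    omega
  rw [Lin_add, Lin_add] at hle
  omega

theorem q_nopat {L : List (Bool × FreeGroup (Fin 3))} (hL : ArcOK L)
    (h1 : capC (ConjClasses.mk (arcP L)) Sb = cnt (ConjClasses.mk (arcP L)) 0)
    (h2 : capC (qfl (ConjClasses.mk (arcP L))) Sc = cnt (ConjClasses.mk (arcP L)) 0)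
    {q r : Bool × FreeGroup (Fin 3)} (hqr : (q, r) ∈ L.zip (L.rotate 1)) :
    ¬ (r.1 = true ∧ (∃ e, ahd (q.2)⁻¹ = some (2, e)) ∧ ∃ e', ahd r.2 = some (1, e')) ∧
      ¬ (r.1 = false ∧ (∃ e, ahd (q.2)⁻¹ = some (1, e)) ∧ ∃ e', ahd r.2 = some (2, e')) := by
  obtain ⟨n, t, t', hn, ht'⟩ := PqNp_rot hqr
  have hrot : L ~r (r :: t) := ⟨n, hn⟩
  have hOK : ArcOK (r :: t) := by
    obtain ⟨a1, a2, a3⟩ := hL
    refine ⟨by simp, fun x hx => a2 x (hrot.perm.mem_iff.2 hx), ?_⟩
    rw [← cyc_rotated _ hrot]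
    exact a3
  have hV := q_arcP_rot hrot
  rw [hV] at h1 h2
  have hCR : CR (ArcA_W (r :: t)) := (ArcA_CR_iff hOK.2.1).2 hOK.2.2
  have hcls : cls (ArcA_W (r :: t)) = ConjClasses.mk (arcP (r :: t)) := by
    unfold cls
    rw [ArcA_mk]
  have key : ∀ y x : Fin 3 × Bool, ahd (q.2)⁻¹ = some y → ahd r.2 = some x → y.1 ≠ x.1 →
      ∃ l, ArcA_W (r :: t) ~r (bar y :: (0, r.1) :: x :: l) := by
    intro y x hy hx hyx
    unfold ahd at hy hx
    obtain ⟨w1, hw1⟩ := List.head?_eq_some_iff.1 hx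
    obtain ⟨w2, hw2⟩ := List.head?_eq_some_iff.1 hy
    have hq2 : q.2.toWord = FreeGroup.invRev w2 ++ [bar y] := by
      have e1 : (q.2⁻¹).toWord = FreeGroup.invRev q.2.toWord := FreeGroup.toWord_inv _
      rw [e1] at hw2
      have e2 : FreeGroup.invRev (FreeGroup.invRev q.2.toWord) = FreeGroup.invRev (y :: w2) := by
        rw [hw2]
      rw [FreeGroup.invRev_invRev] at e2
      rw [e2]
      simp [FreeGroup.invRev, bar]
    have eA : ArcA_W (r :: t) = (0, r.1) :: x :: (w1 ++ ArcA_W t) := by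
      rw [ArcA_W_cons, hw1]
      rfl
    have eB : ArcA_W (r :: t) = (ArcA_W t' ++ (0, q.1) :: FreeGroup.invRev w2) ++ [bar y] := by
      rw [ht']
      simp [ArcA_W, hq2]
    generalize ArcA_W t' ++ (0, q.1) :: FreeGroup.invRev w2 = U at eB
    generalize w1 ++ ArcA_W t = Z at eA
    rw [eA] at eB
    rcases U with _ | ⟨u0, U⟩
    · simp at eB
    · rcases U with _ | ⟨u1, U⟩
      · simp only [List.cons_append, List.nil_append, List.cons.injEq] at eB
        obtain ⟨-, e3, -⟩ := eB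
        exact absurd (by rw [e3]; rfl) hyx
      · simp only [List.cons_append, List.cons.injEq] at eB
        obtain ⟨e3, e4, e5⟩ := eB
        refine ⟨U, ?_⟩
        rw [eA, e5]
        have := List.isRotated_append (l := (0, r.1) :: x :: U) (l' := [bar y])
        simpa using this
  constructor
  · rintro ⟨hr, ⟨e, he⟩, e', he'⟩
    obtain ⟨l, hl⟩ := key _ _ he he' (by simp)
    have := PqNp_core (V := ConjClasses.mk (arcP (r :: t))) (y := bar (2, e)) (x := (1, e'))
      (e := r.1) (l := l) (by simp) (by simp) (CR_of_rotated hl hCR)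
      (by rw [← cls_of_rotated hl, hcls]) h1 h2
    rw [hr] at this
    simp [ind, Sb, bar] at this
  · rintro ⟨hr, ⟨e, he⟩, e', he'⟩
    obtain ⟨l, hl⟩ := key _ _ he he' (by simp)
    have := PqNp_core (V := ConjClasses.mk (arcP (r :: t))) (y := bar (1, e)) (x := (2, e'))
      (e := r.1) (l := l) (by simp) (by simp) (CR_of_rotated hl hCR)
      (by rw [← cls_of_rotated hl, hcls]) h1 h2
    rw [hr] at this
    simp [ind, Sb, bar] at this

end Pool.Agent.Sims
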