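import Pool.Agent.Sims.PqTC
import Pool.Agent.Sims.PqNp

/-!
# Module `PqTF` : `V` and `qfl V` are not both of the form `qTB`

`q_TB_fl`.  Proof: `q_setup`: `V = mk (arcP L)`, `T = tarcs L`, `qTA h T` (`q_TB_TA`).  `q_nopat` applies: `capC (qfl V) Sc = cnt V 0` since `θ (qfl V)` is a half-state (`q_th_capSb`).  All arcs are nontrivial powers of `b` or of `c`;
for `g = b^k`: `ahd g = some (1, ·)` and `ahd g⁻¹ = some (1, ·)`; for `g = c^l`: `some (2, ·)` both.
For a consecutive pair `(q, r)` let `x(q, r)` be the kind (`b` or `c`) of the arc at the X-side of the letter `(0, r.1)`: this is `r` if `r.1 = true`, `q` if `r.1 = false`; and `y(q, r)` the kind of the other arc (`q` if `r.1 = true`, `r` if `r.1 = false`).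
`q_nopat` says: not (`y(q,r) = c` and `x(q,r) = b`).  So `[x(q,r) = b] ≤ [y(q,r) = b]`.  Sum over all consecutive pairs: the number of `b`-ends at the port X is `qe true true 0 T = h`, at Y `qe true false 0 T = h`
(`q_tarcs_zip`; for the arc of `q` with left port `q.1` and right port `!r.1`; regroup the sum of the left ends with `q_sum_zip`/rotation so that it is indexed by the next pair).  So equality for each pair: `q` and `r` are of the same kind for all
consecutive pairs; `q_prop`: all arcs are of the same kind; contradiction to `q_TA_ex`.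
Difficulty 2-3.
-/

namespace Pool.Agent.Sims

open FreeGroup (of)

theorem PqTF_sum {β : Type*} (Z : List β) (f g : β → ℕ) (hle : ∀ p ∈ Z, f p ≤ g p)
    (hs : (Z.map f).sum = (Z.map g).sum) : ∀ p ∈ Z, f p = g p := by
  intro p hp
  by_contra hne
  have h1 := List.sum_lt_sum f g hle ⟨p, hp, lt_of_le_of_ne (hle p hp) hne⟩
  exact absurd hs h1.ne

theorem PqTF_qfo_hd {g : FreeGroup (Fin 3)} (h : qfo true g = true) : ∃ e, ahd g = some (1, e) := by
  unfold qfo at h
  cases hg : ahd g with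
  | none => rw [hg] at h; simp at h
  | some x =>
    rw [hg] at h
    obtain ⟨x1, x2⟩ := x
    simp only [if_true, decide_eq_true_eq] at h
    exact ⟨x2, by rw [h]⟩

theorem PqTF_qfo_hd' {g : FreeGroup (Fin 3)} (h : qfo false g = true) : ∃ e, ahd g = some (2, e) := by
  unfold qfo at h
  cases hg : ahd g with
  | none => rw [hg] at h; simp at h
  | some x =>
    rw [hg] at h
    obtain ⟨x1, x2⟩ := x
    simp only [Bool.false_eq_true, if_false, decide_eq_true_eq] at h
    exact ⟨x2, by rw [h]⟩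

theorem PqTF_B_inv {g : FreeGroup (Fin 3)} (h : qB g) : qB g⁻¹ := by
  obtain ⟨k, hk, rfl⟩ := h
  exact ⟨-k, neg_ne_zero.2 hk, by rw [zpow_neg]⟩

theorem PqTF_C_inv {g : FreeGroup (Fin 3)} (h : qC g) : qC g⁻¹ := by
  obtain ⟨k, hk, rfl⟩ := h
  exact ⟨-k, neg_ne_zero.2 hk, by rw [zpow_neg]⟩

theorem PqTF_B_hd {g : FreeGroup (Fin 3)} (h : qB g) :
    (∃ e, ahd g = some (1, e)) ∧ ∃ e, ahd g⁻¹ = some (1, e) :=
  ⟨PqTF_qfo_hd (q_x_B h true true).2.2.1, PqTF_qfo_hd (q_x_B (PqTF_B_inv h) true true).2.2.1⟩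

theorem PqTF_C_hd {g : FreeGroup (Fin 3)} (h : qC g) :
    (∃ e, ahd g = some (2, e)) ∧ ∃ e, ahd g⁻¹ = some (2, e) :=
  ⟨PqTF_qfo_hd' (q_x_C h true true).2.2.1, PqTF_qfo_hd' (q_x_C (PqTF_C_inv h) true true).2.2.1⟩

/-- on arcs of one syllable `qfo true` is the kind `b` -/
theorem PqTF_fo {g : FreeGroup (Fin 3)} (h : qB g ∨ qC g) :
    (qfo true g = true ↔ qB g) ∧ (qfo true g⁻¹ = true ↔ qB g) := by
  rcases h with h | h
  · refine ⟨⟨fun _ => h, fun _ => (q_x_B h true true).2.2.1⟩, ⟨fun _ => h, fun _ =>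
      (q_x_B (PqTF_B_inv h) true true).2.2.1⟩⟩
  · have h1 := (q_x_C h true true).2.2.2
    have h2 := (q_x_C (PqTF_C_inv h) true true).2.2.2
    have h3 : ¬ qB g := fun hB => by
      have := (q_x_B hB true true).2.2.1
      rw [h1] at this
      exact absurd this (by simp)
    refine ⟨⟨fun h4 => ?_, fun h4 => absurd h4 h3⟩, ⟨fun h4 => ?_, fun h4 => absurd h4 h3⟩⟩
    · rw [h1] at h4
      exact absurd h4 (by simp)
    · rw [h2] at h4
      exact absurd h4 (by simp)

open Classical in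
/-- value of `qe true p 0` of the arcs, regrouped -/
theorem PqTF_qe (L : List (Bool × FreeGroup (Fin 3)))
    (hone : ∀ q ∈ L, qB q.2 ∨ qC q.2) (p : Bool) :
    qe true p 0 (tarcs L) = ((L.zip (L.rotate 1)).map (fun z =>
      (if z.2.1 = p ∧ qB z.2.2 then 1 else 0) + (if (!z.2.1) = p ∧ qB z.1.2 then 1 else 0))).sum := by
  have e1 : qe true p 0 (tarcs L) = ((L.zip (L.rotate 1)).map (fun z =>
      (if z.1.1 = p ∧ qB z.1.2 then 1 else 0) + (if (!z.2.1) = p ∧ qB z.1.2 then 1 else 0))).sum := by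
    unfold qe
    rw [q_tarcs_zip, List.map_map]
    congr 1
    refine List.map_congr_left fun z hz => ?_
    have hz1 : z.1 ∈ L := (List.of_mem_zip (a := z.1) (b := z.2) hz).1
    obtain ⟨f1, f2⟩ := PqTF_fo (hone z.1 hz1)
    simp only [Function.comp, neg_zero, zpow_zero, one_mul]
    have g1 : (z.1.1 = p ∧ qfo true z.1.2 = true) = (z.1.1 = p ∧ qB z.1.2) := by rw [f1]
    have g2 : ((!z.2.1) = p ∧ qfo true z.1.2⁻¹ = true) = ((!z.2.1) = p ∧ qB z.1.2) := by rw [f2]
    simp only [g1, g2]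
  rw [e1, List.sum_map_add, List.sum_map_add]
  congr 1
  have h1 := q_sum_zip (fun q : Bool × FreeGroup (Fin 3) => if q.1 = p ∧ qB q.2 then 1 else 0)
    (fun _ => 0) L
  have h2 := q_sum_zip (fun _ : Bool × FreeGroup (Fin 3) => 0)
    (fun q => if q.1 = p ∧ qB q.2 then 1 else 0) L
  simp only [add_zero, zero_add] at h1 h2
  have h3 : (L.map (fun _ : Bool × FreeGroup (Fin 3) => (0 : ℕ))).sum = 0 := by simp
  rw [h3] at h1 h2
  rw [h1, h2, add_zero, zero_add]

theorem q_TB_fl {c V : CC} (hc : qOK c) (hV : qTB c V) (h : qTB c (qfl V)) : False := by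
  classical
  obtain ⟨h', L, hh, h0, hL, hlen, rfl, hX⟩ := q_setup hc hV.1.1
  have hA := q_TB_TA hc hL hV h0
  have hcnt : cnt (qfl (ConjClasses.mk (arcP L))) 0 = cnt (ConjClasses.mk (arcP L)) 0 := by
    rw [h.1.1.2 0, hV.1.1.2 0]
  have h2 : capC (qfl (ConjClasses.mk (arcP L))) Sc = cnt (ConjClasses.mk (arcP L)) 0 := by
    rw [← q_th_capSb, h.2.2, q_th_cnt, hcnt]
  have hnp : ∀ q r : Bool × FreeGroup (Fin 3), (q, r) ∈ L.zip (L.rotate 1) → _ :=
    fun q r hqr => q_nopat hL hV.1.2 h2 (q := q) (r := r) hqr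
  -- all labels have one syllable
  have hone : ∀ q ∈ L, qB q.2 ∨ qC q.2 := by
    intro q hq
    obtain ⟨i, hi, hqi⟩ := List.mem_iff_getElem.1 hq
    have hi2 : i < (tarcs L).length := by
      rw [q_tarcs_zip]
      simpa using hi
    have h3 := hA.one _ (List.getElem_mem hi2)
    have h4 : ((tarcs L)[i]).2.2 = q.2 := by
      simp only [q_tarcs_zip, List.getElem_map, List.getElem_zip, hqi]
    rw [h4] at h3
    exact h3
  have hX1 := PqTF_qe L hone true
  have hY1 := PqTF_qe L hone false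
  rw [hA.nb true] at hX1
  rw [hA.nb false] at hY1
  have hmem : ∀ z ∈ L.zip (L.rotate 1), z.1 ∈ L ∧ z.2 ∈ L := by
    intro z hz
    obtain ⟨k1, k2⟩ := List.of_mem_zip (a := z.1) (b := z.2) hz
    exact ⟨k1, List.mem_rotate.1 k2⟩
  have key : ∀ z ∈ L.zip (L.rotate 1), (z.2.1 = true → qB z.2.2 → qB z.1.2) ∧
      (z.2.1 = false → qB z.1.2 → qB z.2.2) := by
    rintro ⟨q, r⟩ hz
    obtain ⟨k1, k2⟩ := hmem _ hz
    obtain ⟨n1, n2⟩ := hnp q r hz
    simp only at k1 k2 ⊢
    constructor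
    · intro hr hB
      rcases hone q k1 with h5 | h5
      · exact h5
      · exact (n1 ⟨hr, (PqTF_C_hd h5).2, (PqTF_B_hd hB).1⟩).elim
    · intro hr hB
      rcases hone r k2 with h5 | h5
      · exact h5
      · exact (n2 ⟨hr, (PqTF_B_hd hB).2, (PqTF_C_hd h5).1⟩).elim
  have hle : ∀ z ∈ L.zip (L.rotate 1),
      ((if z.2.1 = true ∧ qB z.2.2 then 1 else 0) + (if (!z.2.1) = true ∧ qB z.1.2 then 1 else 0) : ℕ) ≤
        (if z.2.1 = false ∧ qB z.2.2 then 1 else 0) + (if (!z.2.1) = false ∧ qB z.1.2 then 1 else 0) := by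
    intro z hz
    obtain ⟨k1, k2⟩ := key z hz
    cases hr : z.2.1 with
    | true =>
      have k3 := k1 hr
      by_cases hB : qB z.2.2
      · simp [hB, k3 hB]
      · simp [hB]
    | false =>
      have k3 := k2 hr
      by_cases hB : qB z.1.2
      · simp [hB, k3 hB]
      · simp [hB]
  have heq := PqTF_sum _ _ _ hle (hX1.symm.trans hY1)
  have hall : ∀ z ∈ L.zip (L.rotate 1), qB z.1.2 → qB z.2.2 := by
    intro z hz hB
    have h5 := heq z hz
    cases hr : z.2.1 with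
    | true =>
      rw [hr] at h5
      by_contra hn
      simp [hB, hn] at h5
    | false => exact (key z hz).2 hr hB
  obtain ⟨⟨e, he, heB⟩, ⟨e', he', heC⟩⟩ := q_TA_ex (by omega) hA
  have hmemT : ∀ e ∈ tarcs L, ∃ q ∈ L, e.2.2 = q.2 := by
    intro e he
    rw [q_tarcs_zip, List.mem_map] at he
    obtain ⟨z, hz, rfl⟩ := he
    exact ⟨z.1, (hmem z hz).1, rfl⟩
  obtain ⟨q, hq, e1⟩ := hmemT e he
  obtain ⟨q', hq', e2⟩ := hmemT e' he'
  have hfin := q_prop (L := L) (P := fun q => qB q.2) (fun z hz => hall z hz) ⟨q, hq, e1 ▸ heB⟩ q' hq'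
  rw [e2] at heC
  have g1 := (q_x_C heC true true).2.2.2
  have g2 := (q_x_B hfin true true).2.2.1
  rw [g1] at g2
  exact absurd g2 (by simp)

end Pool.Agent.Sims
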