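import Pool.Agent.Sims.PqE1
import Pool.Agent.Sims.PqTF
import Pool.Agent.Sims.PqRo

/-!
# Module `PqE1b` : a neighbour room containing a class `qTB` (general case)

`q_E1`: `qTB c V`, `qTB c W`, `qRm c (qfl V) W`.  Then `W` is `θ V` up to sign changes of `b`, `c`.
Proof.  `U := qfl W`: `qfl U = W` (`q_fl_fl`), `qRm c V U` (`q_fl_Rm`, `q_fl_fl`).  `V = mk (arcP L)` (`q_setup`), `U = qcl L (qbc true i j)` (`q_Rm_bc`), `T = tarcs L`.
* `i = 0, j = 0`: `U = V` (`qbc true 0 0 = 1`): `q_TB_fl`.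
* `i ≠ 0, j ≠ 0`: `capC U (PrC 1) = capC W (PrC 1) = cnt c 0`, `capC U (PrC 2) = cnt c 0` (`q_fl_capP`, `q_TB_pr`), so `xc (const ..) (ast u T) = 2h` (`cutT_bb`, `cutT_cc`, `q_cap_cl`); `q_TM_mix` and `q_TA_TB` (for `upd u L`) give `qTB c U`;
  `q_TB_fl` for `U`: contradiction.
* `i ≠ 0, j = 0`: `q_E1_main` (`qT 1 (of 1 ^ (-i)) V U` from `q_cl_T`: `u false = of 2 ^ 0 = 1`, `(u true)⁻¹ = of 1 ^ (-i)`), `s = fun k => decide (k ≠ 1)`.
* `i = 0, j ≠ 0`: `qT (of 2 ^ j) 1 V U`; `q_ro_T` (`y = j`, `x = 0`): `qT 1 (of 1 ^ (-j)) (ρ V) (ρ U)`; `q_E1_main` for `ρ c`, `ρ V`, `ρ U` (`q_ro_OK`, `q_ro_TB`, `q_ro_HS`, `q_ro_fl`): `ρ W = qfl (ρ U) = σ θ ρ V`, so `W = ρ σ ρ θ V`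
  (`q_ro_ro`, `q_ro_th`, `q_ro_fs`).
Difficulty 2.
-/

namespace Pool.Agent.Sims

open FreeGroup (of)

theorem PqE1b_in12 (p : Bool) (i j : ℤ) (q : Bool) : In12 (qbc p i j q) := by
  unfold qbc
  by_cases h : q = p
  · rw [if_pos h]
    exact q_nat_in12 false i
  · rw [if_neg h]
    exact q_nat_in12 true j

theorem PqE1b_one (L : List (Bool × FreeGroup (Fin 3))) : qcl L (qbc true 0 0) = ConjClasses.mk (arcP L) := by
  have h1 : qbc true 0 0 = 1 := by
    funext q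
    unfold qbc
    cases q <;> simp
  have h2 : upd 1 L = L := by
    rw [← TpLa_back (upd 1 L), tarcs_upd, ast_one, TpLa_back]
  rw [h1, qcl, h2]

theorem q_E1 {c V W : CC} (hc : qOK c) (hV : qTB c V) (hW : qTB c W) (h : qRm c (qfl V) W) :
    ∃ s : Fin 3 → Bool, s 0 = true ∧ W = act (flp s).aut (act qth.aut V) := by
  obtain ⟨U, hU⟩ : ∃ U, U = qfl W := ⟨_, rfl⟩
  have hUW : qfl U = W := by rw [hU, q_fl_fl]
  have hR : qRm c V U := by
    have h1 := q_fl_Rm h
    rw [q_fl_fl, ← hU] at h1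
    exact h1
  have hWU : qTB c (qfl U) := by
    rw [hUW]
    exact hW
  obtain ⟨n, L, h2, hcnt, hL, hLl, rfl, hX⟩ := q_setup hc hV.1.1
  obtain ⟨i, j, hij⟩ := q_Rm_bc hL hR
  have hu := PqE1b_in12 true i j
  have hq := q_cl_T hL hu
  rw [← hij] at hq
  have huf : qbc true i j false = of 2 ^ j := by
    unfold qbc
    simp
  have hut : (qbc true i j true)⁻¹ = of 1 ^ (-i) := by
    unfold qbc
    simp
  rw [huf, hut] at hq
  by_cases hi : i = 0
  · by_cases hj : j = 0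
    · exfalso
      rw [hi, hj, PqE1b_one] at hij
      rw [hij] at hWU
      exact q_TB_fl hc hV hWU
    · rw [hi] at hq
      have h3 := q_ro_T hq
      simp only [neg_zero, zpow_zero] at h3
      have h4 : qTB (act qro.aut c) (qfl (act qro.aut U)) := by
        rw [q_ro_fl]
        exact q_ro_TB hWU
      have h5 := q_E1_main (q_ro_OK hc) (q_ro_TB hV) hj h3 (q_ro_HS hR.2.1) h4
      obtain ⟨s', hs', hs''⟩ := q_ro_fs (s := fun k => decide (k ≠ 1)) (by decide)
      refine ⟨s', hs', ?_⟩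
      rw [q_ro_fl, hUW, ← q_ro_th] at h5
      rw [← q_ro_ro W, h5, hs'', q_ro_ro]
  · by_cases hj : j = 0
    · rw [hj, zpow_zero] at hq
      have h5 := q_E1_main hc hV hi hq hR.2.1 hWU
      rw [hUW] at h5
      exact ⟨_, by decide, h5⟩
    · exfalso
      have hTA := q_TB_TA hc hL hV hcnt
      have hTOK : TOK n (tarcs L) := hX.1
      have hp := q_TB_pr hc hWU
      rw [q_fl_capP U (by decide), q_fl_capP U (by decide), hcnt, hij] at hp
      have x1 : xc (fun _ => true) (ast (qbc true i j) (tarcs L)) = 2 * n := by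
        rw [← q_cap_cl hL hu, cutT_cc]
        exact hp.1
      have x2 : xc (fun _ => false) (ast (qbc true i j) (tarcs L)) = 2 * n := by
        rw [← q_cap_cl hL hu, cutT_bb]
        exact hp.2
      obtain ⟨-, y1, y2⟩ := q_TM_mix hTOK hTA x1 x2 hi hj
      rw [← tarcs_upd] at y1 y2
      have h6 : Sm c (ConjClasses.mk (arcP (upd (qbc true i j) L))) := by
        have h7 := hR.2.1.1
        rw [hij] at h7
        exact h7
      have h8 := q_TA_TB hc (upd_ArcOK hL hu) h6 hcnt y1 y2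
      have h9 : qTB c U := by
        rw [hij]
        exact h8
      exact q_TB_fl hc h9 hWU

end Pool.Agent.Sims
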