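import Pool.Agent.Sims.PqCy

/-!
# Module `PqArc` : uniqueness of arc forms, forms with respect to `c`

* `q_arc_inj`: `ArcA_W L = ArcA_W L'` with labels in `⟨b, c⟩` implies `L = L'`: induction on `L`; `(0, q.1) :: (q.2.toWord ++ ArcA_W t)`; a word without letters `(0, ·)` followed by nothing or a letter `(0, ·)` determines the decomposition
  (`List.takeWhile` of the letters with `x.1 ≠ 0`), and `FreeGroup.toWord_inj`.
* `q_arc_split`: if `ArcA_W L = u ++ v`, labels in `⟨b, c⟩`, `v = []` or `v` begins with a letter `(0, ·)`, then `L = L1 ++ L2` with `ArcA_W L1 = u`, `ArcA_W L2 = v` (induction on `L`; if `u = []` take `L1 = []`; otherwise `u` contains the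
  whole first block, since `v` begins with `(0, ·)` or is empty).
* `q_arc_uniq`: `ArcA_W L`, `ArcA_W L'` are cyclically reduced (`ArcA_CR_iff`) of the same class (`ArcA_mk`), so rotations (`rotated_of_cls_eq`): `ArcA_W L = u ++ v`, `ArcA_W L' = v ++ u` (`Cyc_rot_split`).  If `v = []` or `u = []` then
  `L = L'` (`q_arc_inj`).  Otherwise `v` begins with `(0, ·)` (as `ArcA_W L'` does); `q_arc_split`: `L = L1 ++ L2`, and `ArcA_W L' = ArcA_W (L2 ++ L1)`, so `L' = L2 ++ L1`.
* `q_cform`: forms `Π c^l R` with `l ≠ 0`, `R ∈ ⟨a, b⟩`, `R ≠ 1`.  Apply `σ = ⟨Equiv.swap 0 2, fun _ => true⟩` (`a ↔ c`): `σ (Π c^l R) = Π a^l (σ R)`, `σ R ∈ ⟨b, c⟩`, `σ R ≠ 1`.  Lemma: for `P` with `l ≠ 0`, `R' ∈ ⟨b, c⟩`, `R' ≠ 1`, `P ≠ []`, the list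
  `L = P.flatMap (fun (l, R') => replicate (|l| - 1) (sgn l, 1) ++ [(sgn l, R')])` is `ArcOK` with `arcP L = Π a^l R'` (the arcs with label `1` stand between two letters of the same sign).  So the two lists `L`, `L'` of `P`, `P'` are
  rotations of each other (`q_arc_uniq`, `act_mk`); an arc with a label `σ R ≠ 1` of `L` is in `L'`, so `σ R = σ R'` for some `(l', R') ∈ P'`, `R = R'`.
  (If `P = []`: nothing to prove.  If `P' = []` and `P ≠ []`: the class of `L` has `cnt 0 ≥ 1` (`arc_len`), the class of `1` has not; or show `ConjClasses.mk 1` has `cycLen 0`.)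
Difficulty 3.
-/

namespace Pool.Agent.Sims

open FreeGroup (of)

theorem PqArc_tw {u v : List (Fin 3 × Bool)} (hu : ∀ x ∈ u, x.1 ≠ 0) (hv : ∀ x ∈ v.head?, x.1 = 0) :
    (u ++ v).takeWhile (fun x => decide (x.1 ≠ 0)) = u := by
  rw [List.takeWhile_append_of_pos]
  · rcases v with _ | ⟨y, v⟩
    · simp
    · have h : y.1 = 0 := hv y rfl
      rw [List.takeWhile_cons_of_neg (by simp [h]), List.append_nil]
  · intro a ha
    simpa using hu a ha

theorem PqArc_head (L : List (Bool × FreeGroup (Fin 3))) : ∀ x ∈ (ArcA_W L).head?, x.1 = 0 := by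
  rcases L with _ | ⟨q, t⟩
  · intro x hx
    simp [ArcA_W] at hx
  · intro x hx
    rw [ArcA_W_cons] at hx
    simp only [List.head?_cons, Option.mem_def, Option.some.injEq] at hx
    rw [← hx]

theorem PqArc_append (L L' : List (Bool × FreeGroup (Fin 3))) :
    ArcA_W (L ++ L') = ArcA_W L ++ ArcA_W L' := by
  unfold ArcA_W
  rw [List.flatMap_append]

theorem q_arc_inj {L L' : List (Bool × FreeGroup (Fin 3))} (hL : ∀ q ∈ L, In12 q.2)
    (hL' : ∀ q ∈ L', In12 q.2) (h : ArcA_W L = ArcA_W L') : L = L' := by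
  induction L generalizing L' with
  | nil =>
    rcases L' with _ | ⟨q', t'⟩
    · rfl
    · rw [ArcA_W_cons] at h
      simp [ArcA_W] at h
  | cons q t ih =>
    rcases L' with _ | ⟨q', t'⟩
    · rw [ArcA_W_cons] at h
      simp [ArcA_W] at h
    · rw [ArcA_W_cons, ArcA_W_cons] at h
      obtain ⟨h1, h2⟩ := List.cons.inj h
      have h3 : q.1 = q'.1 := congrArg Prod.snd h1
      have h4 := PqArc_tw (hL q List.mem_cons_self) (PqArc_head t)
      have h5 := PqArc_tw (hL' q' List.mem_cons_self) (PqArc_head t')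
      rw [h2, h5] at h4
      have h6 : q'.2 = q.2 := FreeGroup.toWord_inj.1 h4
      rw [h6] at h2
      have h7 := List.append_cancel_left h2
      have h8 := ih (fun x hx => hL x (List.mem_cons_of_mem _ hx))
        (fun x hx => hL' x (List.mem_cons_of_mem _ hx)) h7
      rw [h8, Prod.ext h3 h6.symm]

theorem q_arc_split {L : List (Bool × FreeGroup (Fin 3))} (hL : ∀ q ∈ L, In12 q.2)
    {u v : List (Fin 3 × Bool)} (h : ArcA_W L = u ++ v) (hv : ∀ x ∈ v.head?, x.1 = 0) :
    ∃ L1 L2, L = L1 ++ L2 ∧ ArcA_W L1 = u ∧ ArcA_W L2 = v := by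
  induction L generalizing u with
  | nil =>
    have h1 : u ++ v = [] := by rw [← h]; rfl
    obtain ⟨hu, hv'⟩ := List.append_eq_nil_iff.1 h1
    exact ⟨[], [], rfl, hu.symm, hv'.symm⟩
  | cons q t ih =>
    rcases u with _ | ⟨y, u⟩
    · exact ⟨[], q :: t, rfl, rfl, h⟩
    · rw [ArcA_W_cons] at h
      obtain ⟨h1, h2⟩ := List.cons.inj h
      have hq := hL q List.mem_cons_self
      have ht : ∀ q ∈ t, In12 q.2 := fun x hx => hL x (List.mem_cons_of_mem _ hx)
      rcases List.append_eq_append_iff.1 h2 with ⟨a, h3, h4⟩ | ⟨c, h3, h4⟩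
      · obtain ⟨L1, L2, e1, e2, e3⟩ := ih ht h4
        refine ⟨q :: L1, L2, by rw [e1, List.cons_append], ?_, e3⟩
        rw [ArcA_W_cons, e2, h1, h3]
      · have hc : c = [] := by
          rcases c with _ | ⟨z, c⟩
          · rfl
          · exfalso
            have h5 : z.1 = 0 := hv z (by rw [h4]; rfl)
            exact hq z (by rw [h3]; simp) h5
        rw [hc, List.append_nil] at h3
        rw [hc, List.nil_append] at h4
        refine ⟨[q], t, rfl, ?_, h4.symm⟩
        rw [ArcA_W_cons, h1, h3]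
        simp [ArcA_W]

theorem q_arc_uniq {L L' : List (Bool × FreeGroup (Fin 3))} (hL : ArcOK L) (hL' : ArcOK L')
    (h : ConjClasses.mk (arcP L) = ConjClasses.mk (arcP L')) : L ~r L' := by
  have h1 : CR (ArcA_W L) := (ArcA_CR_iff hL.2.1).2 hL.2.2
  have h2 : CR (ArcA_W L') := (ArcA_CR_iff hL'.2.1).2 hL'.2.2
  have h3 : cls (ArcA_W L) = cls (ArcA_W L') := by
    unfold cls
    rw [ArcA_mk, ArcA_mk]
    exact h
  obtain ⟨u, v, hu, hv⟩ := Cyc_rot_split (rotated_of_cls_eq h1 h2 h3)
  by_cases hv0 : v = []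
  · have h4 : L = L' := q_arc_inj hL.2.1 hL'.2.1 (by rw [hu, hv, hv0]; simp)
    rw [h4]
  · have hvh : ∀ x ∈ v.head?, x.1 = 0 := by
      intro x hx
      refine PqArc_head L' x ?_
      rw [hv]
      rcases v with _ | ⟨y, v⟩
      · exact absurd rfl hv0
      · exact hx
    obtain ⟨L1, L2, e1, e2, e3⟩ := q_arc_split hL.2.1 hu hvh
    have h4 : L' = L2 ++ L1 := by
      refine q_arc_inj hL'.2.1 ?_ (by rw [PqArc_append, e2, e3, hv])
      intro q hq
      refine hL.2.1 q ?_
      rw [e1]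
      rw [List.mem_append] at hq ⊢
      exact hq.symm
    rw [h4, e1]
    exact List.isRotated_append

/-- the permutation `a ↔ c` -/
def PqArc_s : SPerm (Fin 3) := ⟨Equiv.swap 0 2, fun _ => true⟩

/-- the block of `c^l R` -/
def PqArc_B (q : ℤ × FreeGroup (Fin 3)) : List (Bool × FreeGroup (Fin 3)) :=
  List.replicate (q.1.natAbs - 1) (decide (0 ≤ q.1), 1) ++ [(decide (0 ≤ q.1), PqArc_s.aut q.2)]

theorem PqArc_s_of : PqArc_s.aut (of 2) = of 0 := by
  rw [← lett_true, Rel_aut_apply, SPerm.hom_lett]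
  rfl

theorem PqArc_s_in {R : FreeGroup (Fin 3)} (hR : ∀ x ∈ R.toWord, x.1 ≠ 2) :
    In12 (PqArc_s.aut R) := by
  have key : ∀ w : List (Fin 3 × Bool), (∀ x ∈ w, x.1 ≠ 2) → In12 (PqArc_s.aut (FreeGroup.mk w)) := by
    intro w
    induction w with
    | nil =>
      intro _
      rw [← FreeGroup.one_eq_mk, map_one]
      exact In12_one
    | cons x w ih =>
      intro h
      have h2 : FreeGroup.mk (x :: w) = lett x * FreeGroup.mk w := by
        rw [lett, FreeGroup.mul_mk]
        rfl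
      rw [h2, map_mul]
      refine In12_mul ?_ (ih fun y hy => h y (List.mem_cons_of_mem _ hy))
      rw [Rel_aut_apply, SPerm.hom_lett]
      refine In12_lett ?_
      have h3 := h x List.mem_cons_self
      have h4 : ∀ i : Fin 3, i ≠ 2 → (Equiv.swap (0 : Fin 3) 2) i ≠ 0 := by decide
      exact h4 x.1 h3
  have h := key R.toWord hR
  rwa [FreeGroup.mk_toWord] at h

theorem PqArc_arcP_append (L L' : List (Bool × FreeGroup (Fin 3))) :
    arcP (L ++ L') = arcP L * arcP L' := by
  unfold arcP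
  rw [List.map_append, List.prod_append]

theorem PqArc_arcP_rep (n : ℕ) (s : Bool) :
    arcP (List.replicate n (s, 1)) = lett ((0 : Fin 3), s) ^ n := by
  unfold arcP
  rw [List.map_replicate, List.prod_replicate, mul_one]

theorem PqArc_arcP_B (q : ℤ × FreeGroup (Fin 3)) (hq : q.1 ≠ 0) :
    arcP (PqArc_B q) = of 0 ^ q.1 * PqArc_s.aut q.2 := by
  have h1 : ∀ s : Bool, arcP [(s, PqArc_s.aut q.2)] = lett ((0 : Fin 3), s) * PqArc_s.aut q.2 := by
    intro s
    simp [arcP]
  unfold PqArc_B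
  rw [PqArc_arcP_append, PqArc_arcP_rep, h1, ← mul_assoc, ← pow_succ]
  have h2 : q.1.natAbs - 1 + 1 = q.1.natAbs := by omega
  rw [h2]
  congr 1
  rcases le_or_gt 0 q.1 with h | h
  · rw [decide_eq_true h, lett_true]
    conv_rhs => rw [← Int.natAbs_of_nonneg h]
    rw [zpow_natCast]
  · rw [decide_eq_false (by omega), lett_false, inv_pow]
    have h3 : q.1 = -(q.1.natAbs : ℤ) := by omega
    conv_rhs => rw [h3]
    rw [zpow_neg, zpow_natCast]

theorem PqArc_arcP_flat (P : List (ℤ × FreeGroup (Fin 3))) (hP : ∀ q ∈ P, q.1 ≠ 0) :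
    arcP (P.flatMap PqArc_B) =
      PqArc_s.aut ((P.map (fun q => of (2 : Fin 3) ^ q.1 * q.2)).prod) := by
  induction P with
  | nil => simp [arcP]
  | cons q P ih =>
    rw [List.flatMap_cons, PqArc_arcP_append, ih fun x hx => hP x (List.mem_cons_of_mem _ hx),
      PqArc_arcP_B q (hP q List.mem_cons_self), List.map_cons, List.prod_cons, map_mul, map_mul,
      map_zpow, PqArc_s_of]

/-- the relation of `ArcOK` -/
def PqArc_f (q r : Bool × FreeGroup (Fin 3)) : ℕ := if q.2 = 1 ∧ q.1 ≠ r.1 then 1 else 0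

theorem PqArc_f_zero (q r : Bool × FreeGroup (Fin 3)) : PqArc_f q r = 0 ↔ (q.2 = 1 → q.1 = r.1) := by
  unfold PqArc_f
  split_ifs with h
  · simp only [one_ne_zero, false_iff]
    intro h'
    exact h.2 (h' h.1)
  · simp only [true_iff]
    intro h1
    by_contra h2
    exact h ⟨h1, h2⟩

theorem PqArc_chain_B (s : Bool) (R : FreeGroup (Fin 3)) (hR : R ≠ 1)
    (l : List (Bool × FreeGroup (Fin 3)))
    (hl : List.IsChain (fun a b => PqArc_f a b = 0) l) (n : ℕ) :
    List.IsChain (fun a b => PqArc_f a b = 0) (List.replicate n (s, 1) ++ ((s, R) :: l)) := by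
  induction n with
  | zero =>
    rw [List.replicate_zero, List.nil_append, List.isChain_cons]
    refine ⟨fun y _ => ?_, hl⟩
    rw [PqArc_f_zero]
    intro h
    exact absurd h hR
  | succ n ih =>
    rw [List.replicate_succ, List.cons_append, List.isChain_cons]
    refine ⟨fun y hy => ?_, ih⟩
    rw [PqArc_f_zero]
    intro _
    cases n with
    | zero =>
      rw [List.replicate_zero, List.nil_append] at hy
      simp only [List.head?_cons, Option.mem_def, Option.some.injEq] at hy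
      rw [← hy]
    | succ n =>
      rw [List.replicate_succ, List.cons_append] at hy
      simp only [List.head?_cons, Option.mem_def, Option.some.injEq] at hy
      rw [← hy]

theorem PqArc_chain (P : List (ℤ × FreeGroup (Fin 3))) (hP : ∀ q ∈ P, PqArc_s.aut q.2 ≠ 1)
    (z : Bool × FreeGroup (Fin 3)) :
    List.IsChain (fun a b => PqArc_f a b = 0) (P.flatMap PqArc_B ++ [z]) := by
  induction P with
  | nil => exact List.isChain_singleton _
  | cons q P ih =>
    rw [List.flatMap_cons, List.append_assoc]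
    unfold PqArc_B
    rw [List.append_assoc, List.singleton_append]
    exact PqArc_chain_B _ _ (hP q List.mem_cons_self) _
      (ih fun x hx => hP x (List.mem_cons_of_mem _ hx)) _

theorem PqArc_ne {R : FreeGroup (Fin 3)} (hR : R ≠ 1) : PqArc_s.aut R ≠ 1 := by
  intro h
  exact hR ((map_eq_one_iff _ (MulEquiv.injective PqArc_s.aut)).1 h)

theorem PqArc_OK {P : List (ℤ × FreeGroup (Fin 3))} (hne : P ≠ [])
    (hP : ∀ q ∈ P, q.1 ≠ 0 ∧ q.2 ≠ 1 ∧ ∀ x ∈ q.2.toWord, x.1 ≠ 2) :
    ArcOK (P.flatMap PqArc_B) := by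
  have hne' : P.flatMap PqArc_B ≠ [] := by
    rcases P with _ | ⟨q, P⟩
    · exact absurd rfl hne
    · rw [List.flatMap_cons]
      intro h
      have h1 := (List.append_eq_nil_iff.1 h).1
      unfold PqArc_B at h1
      exact List.cons_ne_nil _ _ (List.append_eq_nil_iff.1 h1).2
  refine ⟨hne', ?_, ?_⟩
  · intro x hx
    rw [List.mem_flatMap] at hx
    obtain ⟨q, hq, hx⟩ := hx
    unfold PqArc_B at hx
    rw [List.mem_append] at hx
    rcases hx with hx | hx
    · rw [List.eq_of_mem_replicate hx]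
      exact In12_one
    · rw [List.mem_singleton] at hx
      rw [hx]
      exact PqArc_s_in (hP q hq).2.2
  · show cyc PqArc_f (P.flatMap PqArc_B) = 0
    have h1 := PqArc_chain P (fun q hq => PqArc_ne (hP q hq).2.1)
    generalize P.flatMap PqArc_B = L at hne' h1
    rcases L with _ | ⟨x, l⟩
    · rfl
    · rw [cyc, SylB_lin_zero]
      exact h1 x

theorem q_cform {P P' : List (ℤ × FreeGroup (Fin 3))}
    (hP : ∀ q ∈ P, q.1 ≠ 0 ∧ q.2 ≠ 1 ∧ ∀ x ∈ q.2.toWord, x.1 ≠ 2)
    (hP' : ∀ q ∈ P', q.1 ≠ 0 ∧ q.2 ≠ 1 ∧ ∀ x ∈ q.2.toWord, x.1 ≠ 2)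
    (h : ConjClasses.mk ((P.map (fun q => of (2 : Fin 3) ^ q.1 * q.2)).prod) =
      ConjClasses.mk ((P'.map (fun q => of (2 : Fin 3) ^ q.1 * q.2)).prod)) :
    ∀ q ∈ P, ∃ q' ∈ P', q'.2 = q.2 := by
  intro q hq
  have hne : P ≠ [] := List.ne_nil_of_mem hq
  have hOK := PqArc_OK hne hP
  have h1 := congrArg (act PqArc_s.aut) h
  rw [act_mk, act_mk, ← PqArc_arcP_flat P fun q hq => (hP q hq).1,
    ← PqArc_arcP_flat P' fun q hq => (hP' q hq).1] at h1
  by_cases hne' : P' = []
  · exfalso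
    have h2 := (arc_len hOK).2
    rw [h1, hne'] at h2
    have h3 : ConjClasses.mk (arcP (([] : List (ℤ × FreeGroup (Fin 3))).flatMap PqArc_B)) =
        cls ([] : List (Fin 3 × Bool)) := by
      unfold cls
      rw [← FreeGroup.one_eq_mk]
      rfl
    have hCR : CR ([] : List (Fin 3 × Bool)) := by
      rw [SylB_CR_iff]
      rfl
    rw [h3, cnt_cls hCR] at h2
    have h4 : (P.flatMap PqArc_B).length = 0 := by
      rw [← h2]
      rfl
    exact hOK.1 (List.length_eq_zero_iff.1 h4)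
  · have hOK' := PqArc_OK hne' hP'
    have hrot := q_arc_uniq hOK hOK' h1
    have hmem : (decide (0 ≤ q.1), PqArc_s.aut q.2) ∈ P.flatMap PqArc_B := by
      rw [List.mem_flatMap]
      refine ⟨q, hq, ?_⟩
      unfold PqArc_B
      simp
    have hmem' := hrot.mem_iff.1 hmem
    rw [List.mem_flatMap] at hmem'
    obtain ⟨q', hq', hm⟩ := hmem'
    refine ⟨q', hq', ?_⟩
    unfold PqArc_B at hm
    rw [List.mem_append] at hm
    rcases hm with hm | hm
    · exfalso
      have h2 := List.eq_of_mem_replicate hm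
      exact PqArc_ne (hP q hq).2.1 (congrArg Prod.snd h2)
    · rw [List.mem_singleton] at hm
      have h2 : PqArc_s.aut q.2 = PqArc_s.aut q'.2 := congrArg Prod.snd hm
      exact (MulEquiv.injective PqArc_s.aut h2).symm

end Pool.Agent.Sims
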