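import Pool.Agent.Sims.PqDefs

/-!
# Module `PqEw` : words in `b` and `a b a⁻¹`

`D = a b^{-j''} a⁻¹ b^j`.
* `q_form1`: for `m ≠ 0` the reduced word of `b^s a b^m a⁻¹ b^t` is `zpw 1 s ++ (0, true) :: (zpw 1 m ++ (0, false) :: zpw 1 t)` (`FreeGroup.IsReduced`, `List.isChain_append`; `mk_zpw`).  So `(s, m, t)` is determined: compare the parts before
  the first letter `(0, true)`, between it and `(0, false)`, and after (`zpw 1 s = zpw 1 s'` implies `s = s'`: lengths and signs).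
* `q_form0`: the word of `b^k` is `zpw 1 k`, without letters `(0, ·)`.  `q_form2`: for `m, k, n ≠ 0` the word of `a b^m a⁻¹ b^k a b^n a⁻¹` contains four letters `(0, ·)`; the words of `q_form1` contain two.
* `q_E2_word`: `d, d' ∈ {0, j}`, `e, e' ∈ {0, j''}`, `j, j'', k, k' ≠ 0` and `b^{-d'} a b^k a⁻¹ b^d = a b^{-e'} a⁻¹ b^{k'} a b^e a⁻¹`.  Cases for `(e', e)`:
  `(0, 0)`: the right side is `b^{k'}`: impossible (`q_form0`).  `(j'', j'')`: impossible (`q_form2`).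
  `(j'', 0)`: the right side is `a b^{-j''} a⁻¹ b^{k'}`: `-d' = 0`, `k = -j''`, `d = k' ≠ 0`, so `d = j`: the element is `a b^{-j''} a⁻¹ b^j = D`.
  `(0, j'')`: the right side is `b^{k'} a b^{j''} a⁻¹`: `-d' = k' ≠ 0`, so `d' = j`, `k = j''`, `d = 0`: the element is `b^{-j} a b^{j''} a⁻¹ = D⁻¹`.
* `q_R_ne`, `q_R_noc`: the elements are `≠ 1` (the word of `q_form1` is not empty; for the second kind: cases as above, or abelianization/length) and have no letter `c`: products of elements without letter `c` (lemma: the set of elements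
  without letter `c` is a subgroup: `FreeGroup.toWord_mul_sublist`, `FreeGroup.toWord_inv`; as `In12_mul`, `In12_inv`).
Difficulty 2-3.
-/

namespace Pool.Agent.Sims

open FreeGroup (of)

theorem PqEw_mem {i : Fin 3} {k : ℤ} {x : Fin 3 × Bool} (h : x ∈ zpw i k) : x.1 = i := by
  rw [zpw] at h
  rw [List.eq_of_mem_replicate h]

theorem PqEw_01 : ¬ (0 : Fin 3) = 1 := by decide

theorem PqEw_not {k : ℤ} (e : Bool) : ((0, e) : Fin 3 × Bool) ∉ zpw 1 k := by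
  intro h
  exact PqEw_01 (PqEw_mem h)

theorem PqEw_rz (k : ℤ) : FreeGroup.IsReduced (zpw (1 : Fin 3) k) := (CR_zpw 1 k).1

theorem PqEw_nil {k : ℤ} (hk : k ≠ 0) : zpw (1 : Fin 3) k ≠ [] := by
  intro h
  have h1 : (zpw (1 : Fin 3) k).length = k.natAbs := by rw [zpw, List.length_replicate]
  rw [h, List.length_nil] at h1
  omega

theorem PqEw_inj {s t : ℤ} (h : zpw (1 : Fin 3) s = zpw 1 t) : s = t := by
  unfold zpw at h
  rw [List.replicate_inj] at h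
  obtain ⟨h1, h2⟩ := h
  rcases h2 with h2 | h2
  · omega
  · have h3 : decide (0 ≤ s) = decide (0 ≤ t) := congrArg Prod.snd h2
    rw [decide_eq_decide] at h3
    omega

/-- a letter `(0, e)` between words -/
theorem PqEw_red {u v : List (Fin 3 × Bool)} (e : Bool) (hu : FreeGroup.IsReduced u)
    (hv : FreeGroup.IsReduced v) (h1 : ∀ x ∈ u.getLast?, x.1 = 1) (h2 : ∀ x ∈ v.head?, x.1 = 1) :
    FreeGroup.IsReduced (u ++ (0, e) :: v) := by
  unfold FreeGroup.IsReduced at *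
  rw [List.isChain_append, List.isChain_cons]
  refine ⟨hu, ⟨?_, hv⟩, ?_⟩
  · intro y hy h
    have h3 := h2 y hy
    rw [← h] at h3
    exact absurd h3 PqEw_01
  · intro x hx y hy h
    rw [List.head?_cons, Option.mem_some_iff] at hy
    subst hy
    have h3 := h1 x hx
    rw [h] at h3
    exact absurd h3 PqEw_01

theorem PqEw_last {k : ℤ} : ∀ x ∈ (zpw (1 : Fin 3) k).getLast?, x.1 = 1 := fun _ hx =>
  PqEw_mem (List.mem_of_mem_getLast? hx)

theorem PqEw_head {k : ℤ} : ∀ x ∈ (zpw (1 : Fin 3) k).head?, x.1 = 1 := fun _ hx =>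
  PqEw_mem (List.mem_of_mem_head? hx)

theorem PqEw_head' {k : ℤ} (hk : k ≠ 0) (l : List (Fin 3 × Bool)) :
    ∀ x ∈ (zpw (1 : Fin 3) k ++ l).head?, x.1 = 1 := by
  intro x hx
  rw [List.head?_append_of_ne_nil _ (PqEw_nil hk)] at hx
  exact PqEw_head x hx

/-- the word of `b^s a b^m a⁻¹ b^t` -/
theorem PqEw_w1 {s m t : ℤ} (hm : m ≠ 0) :
    ((of (1 : Fin 3)) ^ s * (of 0 * of 1 ^ m * (of 0)⁻¹) * of 1 ^ t).toWord =
      zpw 1 s ++ (0, true) :: (zpw 1 m ++ (0, false) :: zpw 1 t) := by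
  have h1 : ((of (1 : Fin 3)) ^ s * (of 0 * of 1 ^ m * (of 0)⁻¹) * of 1 ^ t) =
      FreeGroup.mk (zpw 1 s ++ (0, true) :: (zpw 1 m ++ (0, false) :: zpw 1 t)) := by
    rw [← FreeGroup.mul_mk, mk_zpw]
    have h2 : ((0, true) :: (zpw 1 m ++ (0, false) :: zpw 1 t) : List (Fin 3 × Bool)) =
        [(0, true)] ++ (zpw 1 m ++ ([(0, false)] ++ zpw 1 t)) := rfl
    rw [h2, ← FreeGroup.mul_mk, ← FreeGroup.mul_mk, ← FreeGroup.mul_mk, mk_zpw, mk_zpw]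
    have h3 : FreeGroup.mk [((0 : Fin 3), true)] = of 0 := rfl
    have h4 : FreeGroup.mk [((0 : Fin 3), false)] = (of 0)⁻¹ := rfl
    rw [h3, h4]
    group
  rw [h1, FreeGroup.toWord_mk]
  refine FreeGroup.IsReduced.reduce_eq ?_
  exact PqEw_red true (PqEw_rz s) (PqEw_red false (PqEw_rz m) (PqEw_rz t) PqEw_last PqEw_head)
    PqEw_last (PqEw_head' hm _)

theorem PqEw_w0 (k : ℤ) : ((of (1 : Fin 3)) ^ k).toWord = zpw 1 k := by
  rw [← mk_zpw, FreeGroup.toWord_mk]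
  exact FreeGroup.IsReduced.reduce_eq (PqEw_rz k)

theorem PqEw_w2 {m1 k m2 : ℤ} (h1 : m1 ≠ 0) (hk : k ≠ 0) (h2 : m2 ≠ 0) :
    (of (0 : Fin 3) * of 1 ^ m1 * (of 0)⁻¹ * of 1 ^ k * (of 0 * of 1 ^ m2 * (of 0)⁻¹)).toWord =
      [] ++ (0, true) :: (zpw 1 m1 ++ (0, false) :: (zpw 1 k ++ (0, true) ::
        (zpw 1 m2 ++ (0, false) :: []))) := by
  have h3 : (of (0 : Fin 3) * of 1 ^ m1 * (of 0)⁻¹ * of 1 ^ k * (of 0 * of 1 ^ m2 * (of 0)⁻¹)) =
      FreeGroup.mk ([] ++ (0, true) :: (zpw 1 m1 ++ (0, false) :: (zpw 1 k ++ (0, true) ::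
        (zpw 1 m2 ++ (0, false) :: [])))) := by
    have h4 : ([] ++ (0, true) :: (zpw 1 m1 ++ (0, false) :: (zpw 1 k ++ (0, true) ::
        (zpw 1 m2 ++ (0, false) :: []))) : List (Fin 3 × Bool)) =
        [(0, true)] ++ (zpw 1 m1 ++ ([(0, false)] ++ (zpw 1 k ++ ([(0, true)] ++
          (zpw 1 m2 ++ [(0, false)]))))) := rfl
    rw [h4, ← FreeGroup.mul_mk, ← FreeGroup.mul_mk, ← FreeGroup.mul_mk, ← FreeGroup.mul_mk,
      ← FreeGroup.mul_mk, ← FreeGroup.mul_mk, mk_zpw, mk_zpw, mk_zpw]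
    have h3 : FreeGroup.mk [((0 : Fin 3), true)] = of 0 := rfl
    have h4 : FreeGroup.mk [((0 : Fin 3), false)] = (of 0)⁻¹ := rfl
    rw [h3, h4]
    group
  rw [h3, FreeGroup.toWord_mk]
  refine FreeGroup.IsReduced.reduce_eq ?_
  have hn : FreeGroup.IsReduced ([] : List (Fin 3 × Bool)) := List.isChain_nil
  refine PqEw_red true hn (PqEw_red false (PqEw_rz _) (PqEw_red true (PqEw_rz _)
    (PqEw_red false (PqEw_rz _) hn PqEw_last ?_) PqEw_last (PqEw_head' h2 _)) PqEw_last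
    (PqEw_head' hk _)) ?_ (PqEw_head' h1 _)
  · intro x hx
    simp at hx
  · intro x hx
    simp at hx

theorem PqEw_cnt (k : ℤ) : cntL (zpw (1 : Fin 3) k) 0 = 0 := by
  unfold cntL
  rw [List.countP_eq_zero]
  intro x hx
  rw [PqEw_mem hx]
  decide

theorem PqEw_c1 (s m t : ℤ) :
    cntL (zpw 1 s ++ (0, true) :: (zpw 1 m ++ (0, false) :: zpw (1 : Fin 3) t)) 0 = 2 := by
  have h1 := PqEw_cnt s
  have h2 := PqEw_cnt m
  have h3 := PqEw_cnt t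
  unfold cntL at *
  rw [List.countP_append, List.countP_cons, List.countP_append, List.countP_cons, h1, h2, h3]
  rfl

theorem PqEw_c2 (m1 k m2 : ℤ) :
    cntL ([] ++ (0, true) :: (zpw 1 m1 ++ (0, false) :: (zpw 1 k ++ (0, true) ::
        (zpw (1 : Fin 3) m2 ++ (0, false) :: [])))) 0 = 4 := by
  have h1 := PqEw_cnt m1
  have h2 := PqEw_cnt k
  have h3 := PqEw_cnt m2
  unfold cntL at *
  rw [List.countP_append, List.countP_cons, List.countP_append, List.countP_cons,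
    List.countP_append, List.countP_cons, List.countP_append, List.countP_cons, h1, h2, h3]
  rfl

/-- elements without letter `c` -/
theorem PqEw_mk {w : List (Fin 3 × Bool)} (h : ∀ x ∈ w, x.1 ≠ 2) :
    ∀ x ∈ (FreeGroup.mk w).toWord, x.1 ≠ 2 := by
  intro x hx
  rw [FreeGroup.toWord_mk] at hx
  exact h x ((FreeGroup.Red.sublist FreeGroup.reduce.red).subset hx)

theorem PqEw_mul {g h : FreeGroup (Fin 3)} (hg : ∀ x ∈ g.toWord, x.1 ≠ 2)
    (hh : ∀ x ∈ h.toWord, x.1 ≠ 2) : ∀ x ∈ (g * h).toWord, x.1 ≠ 2 := by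
  rw [← FreeGroup.mk_toWord (x := g), ← FreeGroup.mk_toWord (x := h), FreeGroup.mul_mk]
  apply PqEw_mk
  intro x hx
  rcases List.mem_append.1 hx with hx | hx
  · exact hg x hx
  · exact hh x hx

theorem PqEw_b (k : ℤ) : ∀ x ∈ ((of (1 : Fin 3)) ^ k).toWord, x.1 ≠ 2 := by
  intro x hx
  rw [PqEw_w0] at hx
  rw [PqEw_mem hx]
  decide

theorem PqEw_a : ∀ x ∈ (of (0 : Fin 3)).toWord, x.1 ≠ 2 := by
  rw [FreeGroup.toWord_of]
  decide

theorem PqEw_a' : ∀ x ∈ ((of (0 : Fin 3))⁻¹).toWord, x.1 ≠ 2 := by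
  rw [FreeGroup.toWord_inv, FreeGroup.toWord_of]
  decide

theorem q_form1 {s m t s' m' t' : ℤ} (hm : m ≠ 0) (hm' : m' ≠ 0)
    (h : (of (1 : Fin 3)) ^ s * (of 0 * of 1 ^ m * (of 0)⁻¹) * of 1 ^ t =
      of 1 ^ s' * (of 0 * of 1 ^ m' * (of 0)⁻¹) * of 1 ^ t') : s = s' ∧ m = m' ∧ t = t' := by
  have h1 := congrArg FreeGroup.toWord h
  rw [PqEw_w1 hm, PqEw_w1 hm'] at h1
  have n1 : ((0, true) : Fin 3 × Bool) ∉ zpw 1 m ++ (0, false) :: zpw 1 t := by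
    intro h2
    rw [List.mem_append, List.mem_cons] at h2
    rcases h2 with h2 | h2 | h2
    · exact PqEw_not _ h2
    · exact absurd h2 (by decide)
    · exact PqEw_not _ h2
  rw [List.append_cons_inj_of_notMem (PqEw_not _) n1] at h1
  obtain ⟨e1, -, e2⟩ := h1
  rw [List.append_cons_inj_of_notMem (PqEw_not _) (PqEw_not _)] at e2
  exact ⟨PqEw_inj e1, PqEw_inj e2.1, PqEw_inj e2.2.2⟩

theorem q_form0 {s m t k : ℤ} (hm : m ≠ 0)
    (h : (of (1 : Fin 3)) ^ s * (of 0 * of 1 ^ m * (of 0)⁻¹) * of 1 ^ t = of 1 ^ k) :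
    False := by
  have h1 := congrArg FreeGroup.toWord h
  rw [PqEw_w1 hm, PqEw_w0] at h1
  have h2 := PqEw_c1 s m t
  rw [h1, PqEw_cnt] at h2
  omega

theorem q_form2 {s m t m1 k m2 : ℤ} (hm : m ≠ 0) (h1 : m1 ≠ 0) (hk : k ≠ 0) (h2 : m2 ≠ 0)
    (h : (of (1 : Fin 3)) ^ s * (of 0 * of 1 ^ m * (of 0)⁻¹) * of 1 ^ t =
      of 0 * of 1 ^ m1 * (of 0)⁻¹ * of 1 ^ k * (of 0 * of 1 ^ m2 * (of 0)⁻¹)) : False := by
  have h3 := congrArg FreeGroup.toWord h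
  rw [PqEw_w1 hm, PqEw_w2 h1 hk h2] at h3
  have h4 := PqEw_c1 s m t
  rw [h3, PqEw_c2] at h4
  omega

theorem q_E2_word {j j'' k k' d d' e e' : ℤ} (hj : j ≠ 0) (hj'' : j'' ≠ 0) (hk : k ≠ 0)
    (hk' : k' ≠ 0) (hd : d = 0 ∨ d = j) (hd' : d' = 0 ∨ d' = j) (he : e = 0 ∨ e = j'')
    (he' : e' = 0 ∨ e' = j'')
    (h : (of (1 : Fin 3)) ^ (-d') * (of 0 * of 1 ^ k * (of 0)⁻¹) * of 1 ^ d =
      of 0 * of 1 ^ (-e') * (of 0)⁻¹ * of 1 ^ k' * (of 0 * of 1 ^ e * (of 0)⁻¹)) :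
    (of (1 : Fin 3)) ^ (-d') * (of 0 * of 1 ^ k * (of 0)⁻¹) * of 1 ^ d =
        of 0 * of 1 ^ (-j'') * (of 0)⁻¹ * of 1 ^ j ∨
      (of (1 : Fin 3)) ^ (-d') * (of 0 * of 1 ^ k * (of 0)⁻¹) * of 1 ^ d =
        (of 0 * of 1 ^ (-j'') * (of 0)⁻¹ * of 1 ^ j)⁻¹ := by
  rcases he' with rfl | rfl
  · rcases he with rfl | rfl
    · exfalso
      refine q_form0 (s := -d') (t := d) (k := k') hk ?_
      rw [h]
      group
    · right
      have h1 : (of (1 : Fin 3)) ^ (-d') * (of 0 * of 1 ^ k * (of 0)⁻¹) * of 1 ^ d =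
          (of (1 : Fin 3)) ^ k' * (of 0 * of 1 ^ e * (of 0)⁻¹) * of 1 ^ (0 : ℤ) := by
        rw [h]
        group
      obtain ⟨e1, e2, e3⟩ := q_form1 hk hj'' h1
      have e4 : d' = j := by
        rcases hd' with e4 | e4
        · exfalso
          apply hk'
          omega
        · exact e4
      rw [e4, e2, e3]
      group
  · rcases he with rfl | rfl
    · left
      have h1 : (of (1 : Fin 3)) ^ (-d') * (of 0 * of 1 ^ k * (of 0)⁻¹) * of 1 ^ d =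
          (of (1 : Fin 3)) ^ (0 : ℤ) * (of 0 * of 1 ^ (-e') * (of 0)⁻¹) * of 1 ^ k' := by
        rw [h]
        group
      obtain ⟨e1, e2, e3⟩ := q_form1 hk (neg_ne_zero.2 hj'') h1
      have e4 : d = j := by
        rcases hd with e4 | e4
        · exfalso
          apply hk'
          omega
        · exact e4
      rw [e1, e2, e4]
      group
    · exfalso
      exact q_form2 hk (neg_ne_zero.2 hj'') hk' hj'' h

theorem q_R1 {s m t : ℤ} (hm : m ≠ 0) :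
    (of (1 : Fin 3)) ^ s * (of 0 * of 1 ^ m * (of 0)⁻¹) * of 1 ^ t ≠ 1 ∧
      ∀ x ∈ ((of (1 : Fin 3)) ^ s * (of 0 * of 1 ^ m * (of 0)⁻¹) * of 1 ^ t).toWord,
        x.1 ≠ 2 := by
  refine ⟨fun h => ?_, ?_⟩
  · refine q_form0 (s := s) (t := t) (k := 0) hm ?_
    rw [h, zpow_zero]
  · exact PqEw_mul (PqEw_mul (PqEw_b _) (PqEw_mul (PqEw_mul PqEw_a (PqEw_b _)) PqEw_a')) (PqEw_b _)

theorem q_R2 {m1 k m2 : ℤ} (hk : k ≠ 0) :
    of (0 : Fin 3) * of 1 ^ m1 * (of 0)⁻¹ * of 1 ^ k * (of 0 * of 1 ^ m2 * (of 0)⁻¹) ≠ 1 ∧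
      ∀ x ∈ (of (0 : Fin 3) * of 1 ^ m1 * (of 0)⁻¹ * of 1 ^ k *
        (of 0 * of 1 ^ m2 * (of 0)⁻¹)).toWord, x.1 ≠ 2 := by
  refine ⟨fun h => ?_, ?_⟩
  · have h1 : (of (1 : Fin 3)) ^ (0 : ℤ) * (of 0 * of 1 ^ (m1 + m2) * (of 0)⁻¹) * of 1 ^ (0 : ℤ) =
        of 1 ^ (-k) := by
      have h2 : (of (1 : Fin 3)) ^ (0 : ℤ) * (of 0 * of 1 ^ (m1 + m2) * (of 0)⁻¹) *
          of 1 ^ (0 : ℤ) = ((of 0 * of 1 ^ m2 * (of 0)⁻¹)) *
            (of 0 * of 1 ^ m1 * (of 0)⁻¹ * of 1 ^ k * (of 0 * of 1 ^ m2 * (of 0)⁻¹)) *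
            (of 0 * of 1 ^ m2 * (of 0)⁻¹)⁻¹ * of 1 ^ (-k) := by
        rw [add_comm, zpow_add]
        group
      rw [h2, h]
      group
    by_cases hm : m1 + m2 = 0
    · rw [hm] at h1
      have h3 : (of (1 : Fin 3)) ^ (0 : ℤ) = of 1 ^ (-k) := by
        rw [← h1]
        group
      have h4 := congrArg FreeGroup.toWord h3
      rw [PqEw_w0, PqEw_w0] at h4
      have h5 := PqEw_inj h4
      omega
    · exact q_form0 hm h1
  · exact PqEw_mul (PqEw_mul (PqEw_mul (PqEw_mul PqEw_a (PqEw_b _)) PqEw_a') (PqEw_b _))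
      (PqEw_mul (PqEw_mul PqEw_a (PqEw_b _)) PqEw_a')

end Pool.Agent.Sims
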