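import Pool.Agent.Sims.PqSB
import Pool.Agent.Sims.PqArc
import Pool.Agent.Sims.PqEw

/-!
# Module `PqE2` : the jumps of `V` and of `qfl V`

`q_E2`: `qJb c V W`, `qJb c (qfl V) W'`.  Then `W' = qfl W`.
* `q_SA_prod`: `V = mk (arcP L)`, `qSA h j (tarcs L)`.  The arcs have equal ports, so `q.1 ≠ r.1` for consecutive pairs `(q, r)` (`q_tarcs_zip`); `q_pairs` with `ty = Prod.fst`: `L ~r Q0.flatMap (fun p => [p.1, p.2])`, `p.1 = (true, b^k)`,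
  `p.2 = (false, b^d c^l b^{-d'})` (`qSA.ax`, `qSA.ay` for the arcs `(q.1, !r.1, q.2)` in `tarcs L`).  So `V = mk (Π a b^k a⁻¹ b^d c^l b^{-d'})`; `Q` = list of the `(k, d, l, d')` (choose for each pair: induction on `Q0`, or `List.map` with
  `Classical.choose`).
* `q_E2`: `V = mk (arcP L)` (`q_setup`), `q_Jb_SA`: `j ≠ 0`, `qSA h j (tarcs L)`, `qT (b^j) 1 V W`; `q_SA_prod`: `Q`.  `qfl V = mk (arcP L')`, `j'' ≠ 0`, `qT (b^{j''}) 1 (qfl V) W'`, `Q'`.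
  1. `q_regroup` with `f (k,d,l,d') = a b^k a⁻¹ b^d`, `g (k,d,l,d') = c^l b^{-d'}`: `V = mk (Π c^{l_q} R_{qr})`, `R_{qr} = b^{-d'_q} (a b^{k_r} a⁻¹) b^{d_r}` over the consecutive pairs of `Q`.
  2. `β` of `q_fl_act`; `V = qfl (qfl V) = act β (qfl V)` and `β (a b^k a⁻¹ b^e c^l b^{-e'}) = b^k (a b^e a⁻¹) c^l (a b^{-e'} a⁻¹)`; `q_regroup` with `f = b^k (a b^e a⁻¹)`, `g = c^l (a b^{-e'} a⁻¹)`:
     `V = mk (Π c^{l_q} R'_{qr})`, `R'_{qr} = a b^{-e'_q} a⁻¹ b^{k_r} (a b^{e_r} a⁻¹)`.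
  3. `q_cform` (`q_R1`, `q_R2`): every `R_{qr}` is some `R'_{q'r'}`; `q_E2_word`: `R_{qr} = D` or `D⁻¹`, `D = a b^{-j''} a⁻¹ b^j`.
  4. So `V = mk g` with `g = Π c^{l} D^{±1}`.  `W = act φ V`, `φ a = b^j a`; `W' = act φ' (act β V)`, `φ' a = b^{j''} a`.  `β (φ c) = c = φ' (β c)`;
     `β (φ D) = β (b^j a b^{-j''} a⁻¹ b^{-j} b^j) = (a b^j a⁻¹) a⁻¹ (a b^{-j''} a⁻¹) a = a b^j a⁻¹ b^{-j''}`;
     `φ' (β D) = φ' (a⁻¹ (a b^{-j''} a⁻¹) a (a b^j a⁻¹)) = φ' (b^{-j''} a b^j a⁻¹) = b^{-j''} b^{j''} a b^j a⁻¹ b^{-j''} = a b^j a⁻¹ b^{-j''}`.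
     So `β (φ g) = φ' (β g)` and `qfl W = act β (act φ V) = W'`.
Difficulty 3.
-/

namespace Pool.Agent.Sims

open FreeGroup (of)

theorem PqE2_list {j : ℤ} : ∀ Q0 : List ((Bool × FreeGroup (Fin 3)) × (Bool × FreeGroup (Fin 3))),
    (∀ p ∈ Q0, p.1.1 = true ∧ qB p.1.2 ∧ p.2.1 = false ∧ ∃ d l d' : ℤ, (d = 0 ∨ d = j) ∧
      (d' = 0 ∨ d' = j) ∧ l ≠ 0 ∧ p.2.2 = of 1 ^ d * of 2 ^ l * of 1 ^ (-d')) →
    ∃ Q : List (ℤ × ℤ × ℤ × ℤ),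
      (∀ q ∈ Q, q.1 ≠ 0 ∧ (q.2.1 = 0 ∨ q.2.1 = j) ∧ q.2.2.1 ≠ 0 ∧
        (q.2.2.2 = 0 ∨ q.2.2.2 = j)) ∧
      arcP (Q0.flatMap (fun p => [p.1, p.2])) = (Q.map (fun q => of 0 * of 1 ^ q.1 * (of 0)⁻¹ *
        of 1 ^ q.2.1 * (of 2 ^ q.2.2.1 * of 1 ^ (-q.2.2.2)))).prod := by
  intro Q0
  induction Q0 with
  | nil =>
    intro _
    exact ⟨[], by simp, by simp [arcP]⟩
  | cons p Q0 ih =>
    intro h
    obtain ⟨Q, hQ, hP⟩ := ih (fun q hq => h q (List.mem_cons_of_mem _ hq))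
    obtain ⟨h1, ⟨k, hk, h2⟩, h3, d, l, d', hd, hd', hl, h4⟩ := h p List.mem_cons_self
    refine ⟨(k, d, l, d') :: Q, ?_, ?_⟩
    · intro q hq
      rcases List.mem_cons.1 hq with rfl | hq
      · exact ⟨hk, hd, hl, hd'⟩
      · exact hQ q hq
    · rw [List.map_cons, List.prod_cons, ← hP]
      obtain ⟨⟨t1, g1⟩, ⟨t2, g2⟩⟩ := p
      simp only at h1 h2 h3 h4
      subst h1 h2 h3 h4
      have e1 : lett ((0 : Fin 3), true) = of 0 := rfl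
      have e2 : lett ((0 : Fin 3), false) = (of 0)⁻¹ := rfl
      simp only [arcP, List.flatMap_cons, List.map_append, List.map_cons, List.map_nil,
        List.prod_append, List.prod_cons, List.prod_nil, e1, e2, mul_one, mul_assoc]

theorem q_SA_prod {h : ℕ} {j : ℤ} {L : List (Bool × FreeGroup (Fin 3))} (hL : ArcOK L)
    (hS : qSA h j (tarcs L)) : ∃ Q : List (ℤ × ℤ × ℤ × ℤ),
    (∀ q ∈ Q, q.1 ≠ 0 ∧ (q.2.1 = 0 ∨ q.2.1 = j) ∧ q.2.2.1 ≠ 0 ∧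
      (q.2.2.2 = 0 ∨ q.2.2.2 = j)) ∧
    ConjClasses.mk (arcP L) = ConjClasses.mk ((Q.map (fun q => of 0 * of 1 ^ q.1 * (of 0)⁻¹ *
      of 1 ^ q.2.1 * (of 2 ^ q.2.2.1 * of 1 ^ (-q.2.2.2)))).prod) := by
  have hz : ∀ p ∈ L.zip (L.rotate 1), (Prod.fst p.1 : Bool) ≠ Prod.fst p.2 := by
    intro p hp
    have h1 := hS.eq (p.1.1, !p.2.1, p.1.2) (by
      rw [q_tarcs_zip]
      exact List.mem_map.2 ⟨p, hp, rfl⟩)
    simp only at h1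
    rw [h1]
    cases p.2.1 <;> simp
  obtain ⟨Q0, -, hrot, hQ0⟩ := q_pairs (Prod.fst : Bool × FreeGroup (Fin 3) → Bool) hL.1 hz
  have hmem : ∀ q ∈ L, ∃ e ∈ tarcs L, e.1 = q.1 ∧ e.2.2 = q.2 := by
    intro q hq
    rw [← TpLa_back L, List.mem_map] at hq
    obtain ⟨e, he, rfl⟩ := hq
    exact ⟨e, he, rfl, rfl⟩
  obtain ⟨Q, hQ, hP⟩ := PqE2_list (j := j) Q0 (by
    rintro ⟨p1, p2⟩ hp
    obtain ⟨h1, h2, h3⟩ := hQ0 (p1, p2) hp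
    obtain ⟨m1, m2⟩ := List.of_mem_zip h3
    obtain ⟨e, he, e1, e2⟩ := hmem p1 m1
    obtain ⟨e', he', e1', e2'⟩ := hmem p2 (List.mem_rotate.1 m2)
    refine ⟨h1, ?_, h2, ?_⟩
    · have := hS.ax e he (e1.trans h1)
      rwa [e2] at this
    · obtain ⟨d, l, d', hd, hd', hl, h4⟩ := hS.ay e' he' (e1'.trans h2)
      exact ⟨d, l, d', hd, hd', hl, e2' ▸ h4⟩)
  refine ⟨Q, hQ, ?_⟩
  rw [q_arcP_rot hrot, hP]

theorem PqE2_zip {β γ δ : Type*} (F : β → γ → δ) (l : List β) (l' : List γ) :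
    (l.zip l').map (fun p => F p.1 p.2) = List.zipWith F l l' := by
  unfold List.zip
  rw [List.map_zipWith]

theorem PqE2_hom {G H : Type*} [Group G] [Group H] (F1 F2 : G →* H) (c D : G) (hc : F1 c = F2 c)
    (hD : F1 D = F2 D) : ∀ P : List (ℤ × G), (∀ q ∈ P, q.2 = D ∨ q.2 = D⁻¹) →
      F1 ((P.map (fun q => c ^ q.1 * q.2)).prod) = F2 ((P.map (fun q => c ^ q.1 * q.2)).prod) := by
  intro P
  induction P with
  | nil => intro _; simp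
  | cons q P ih =>
    intro h
    have h1 := ih (fun r hr => h r (List.mem_cons_of_mem _ hr))
    rw [List.map_cons, List.prod_cons, map_mul, map_mul, h1, map_mul, map_mul, map_zpow,
      map_zpow, hc]
    rcases h q List.mem_cons_self with h2 | h2
    · rw [h2, hD]
    · rw [h2, map_inv, map_inv, hD]

theorem q_E2 {c V W W' : CC} (hc : qOK c) (h : qJb c V W) (h' : qJb c (qfl V) W') :
    W' = qfl W := by
  obtain ⟨β, hβ0, hβ1, hβ2, hβ⟩ := q_fl_act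
  obtain ⟨h1, L, j, -, -, hL, hVL, -, hj, hS, ⟨φ, hφ, hW⟩, -⟩ := PqSB_set hc h
  obtain ⟨h2, L', j2, -, -, hL', hVL', -, hj2, hS', ⟨φ', hφ', hW'⟩, -⟩ := PqSB_set hc h'
  obtain ⟨Q, hQ, hQV⟩ := q_SA_prod hL hS
  obtain ⟨Q', hQ', hQV'⟩ := q_SA_prod hL' hS'
  set P : List (ℤ × FreeGroup (Fin 3)) := (Q.zip (Q.rotate 1)).map (fun p =>
    (p.1.2.2.1, of 1 ^ (-p.1.2.2.2) * (of 0 * of 1 ^ p.2.1 * (of 0)⁻¹) * of 1 ^ p.2.2.1)) with hPdef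
  set P' : List (ℤ × FreeGroup (Fin 3)) := (Q'.zip (Q'.rotate 1)).map (fun p =>
    (p.1.2.2.1, of 0 * of 1 ^ (-p.1.2.2.2) * (of 0)⁻¹ * of 1 ^ p.2.1 *
      (of 0 * of 1 ^ p.2.2.1 * (of 0)⁻¹))) with hP'def
  have hVP : V = ConjClasses.mk ((P.map (fun q => of (2 : Fin 3) ^ q.1 * q.2)).prod) := by
    rw [hVL, hQV]
    have h3 := q_regroup (fun q : ℤ × ℤ × ℤ × ℤ => of (0 : Fin 3) * of 1 ^ q.1 * (of 0)⁻¹ *
      of 1 ^ q.2.1) (fun q => of 2 ^ q.2.2.1 * of 1 ^ (-q.2.2.2)) Q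
    rw [h3, hPdef, List.map_map, ← PqE2_zip]
    congr 2
    apply List.map_congr_left
    intro p _
    simp only [Function.comp_apply, mul_assoc]
  have hβr : ∀ q : ℤ × ℤ × ℤ × ℤ, β (of 0 * of 1 ^ q.1 * (of 0)⁻¹ *
      of 1 ^ q.2.1 * (of 2 ^ q.2.2.1 * of 1 ^ (-q.2.2.2))) =
      (of 1 ^ q.1 * (of 0 * of 1 ^ q.2.1 * (of 0)⁻¹)) *
        (of 2 ^ q.2.2.1 * (of 0 * of 1 ^ (-q.2.2.2) * (of 0)⁻¹)) := by
    intro q
    simp only [map_mul, map_inv, map_zpow, hβ0, hβ1, hβ2, conj_zpow]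
    group
  have hVP' : V = ConjClasses.mk ((P'.map (fun q => of (2 : Fin 3) ^ q.1 * q.2)).prod) := by
    have h4 : V = act β (qfl V) := by rw [← hβ, q_fl_fl]
    rw [h4, hVL', hQV', act_mk, map_list_prod, List.map_map]
    have h5 : (Q'.map (β ∘ fun q => of (0 : Fin 3) * of 1 ^ q.1 * (of 0)⁻¹ *
        of 1 ^ q.2.1 * (of 2 ^ q.2.2.1 * of 1 ^ (-q.2.2.2)))) =
        Q'.map (fun q => (of 1 ^ q.1 * (of 0 * of 1 ^ q.2.1 * (of 0)⁻¹)) *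
        (of 2 ^ q.2.2.1 * (of 0 * of 1 ^ (-q.2.2.2) * (of 0)⁻¹))) := by
      apply List.map_congr_left
      intro q _
      rw [Function.comp_apply, hβr]
    rw [h5]
    have h3 := q_regroup (fun q : ℤ × ℤ × ℤ × ℤ => of (1 : Fin 3) ^ q.1 *
      (of 0 * of 1 ^ q.2.1 * (of 0)⁻¹))
      (fun q => of 2 ^ q.2.2.1 * (of 0 * of 1 ^ (-q.2.2.2) * (of 0)⁻¹)) Q'
    rw [h3, hP'def, List.map_map, ← PqE2_zip]
    congr 2
    apply List.map_congr_left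
    intro p _
    simp only [Function.comp_apply, mul_assoc]
  have hP : ∀ q ∈ P, q.1 ≠ 0 ∧ q.2 ≠ 1 ∧ ∀ x ∈ q.2.toWord, x.1 ≠ 2 := by
    intro q hq
    rw [hPdef, List.mem_map] at hq
    obtain ⟨⟨p1, p2⟩, hp, rfl⟩ := hq
    obtain ⟨m1, m2⟩ := List.of_mem_zip hp
    have a1 := hQ p1 m1
    have a2 := hQ p2 (List.mem_rotate.1 m2)
    exact ⟨a1.2.2.1, q_R1 a2.1⟩
  have hP' : ∀ q ∈ P', q.1 ≠ 0 ∧ q.2 ≠ 1 ∧ ∀ x ∈ q.2.toWord, x.1 ≠ 2 := by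
    intro q hq
    rw [hP'def, List.mem_map] at hq
    obtain ⟨⟨p1, p2⟩, hp, rfl⟩ := hq
    obtain ⟨m1, m2⟩ := List.of_mem_zip hp
    have a1 := hQ' p1 m1
    have a2 := hQ' p2 (List.mem_rotate.1 m2)
    exact ⟨a1.2.2.1, q_R2 a2.1⟩
  have hR : ∀ q ∈ P, q.2 = of 0 * of 1 ^ (-j2) * (of 0)⁻¹ * of 1 ^ j ∨
      q.2 = (of 0 * of 1 ^ (-j2) * (of 0)⁻¹ * of 1 ^ j)⁻¹ := by
    intro q hq
    obtain ⟨q', hq', he⟩ := q_cform hP hP' (hVP.symm.trans hVP') q hq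
    rw [hPdef, List.mem_map] at hq
    obtain ⟨⟨p1, p2⟩, hp, rfl⟩ := hq
    rw [hP'def, List.mem_map] at hq'
    obtain ⟨⟨p1', p2'⟩, hp', rfl⟩ := hq'
    obtain ⟨m1, m2⟩ := List.of_mem_zip hp
    obtain ⟨m1', m2'⟩ := List.of_mem_zip hp'
    have a1 := hQ p1 m1
    have a2 := hQ p2 (List.mem_rotate.1 m2)
    have b1 := hQ' p1' m1'
    have b2 := hQ' p2' (List.mem_rotate.1 m2')
    exact q_E2_word hj hj2 a2.1 b2.1 a2.2.1 a1.2.2.2 b2.2.1 b1.2.2.2 he.symm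
  obtain ⟨-, -, hφ0, hφ1⟩ := hφ
  obtain ⟨-, -, hφ'0, hφ'1⟩ := hφ'
  have i1 : In12 (of 1) := In12_of (by decide)
  have i2 : In12 (of 2) := In12_of (by decide)
  have hc2 : (φ.trans β) (of 2) = (β.trans φ') (of 2) := by
    rw [MulEquiv.trans_apply, MulEquiv.trans_apply, hφ1 _ i2, hβ2, hφ'1 _ i2]
  have hD : (φ.trans β) (of 0 * of 1 ^ (-j2) * (of 0)⁻¹ * of 1 ^ j) =
      (β.trans φ') (of 0 * of 1 ^ (-j2) * (of 0)⁻¹ * of 1 ^ j) := by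
    rw [MulEquiv.trans_apply, MulEquiv.trans_apply]
    simp only [map_mul, map_inv, map_zpow, hφ0, hφ1 _ i1, hβ0, hβ1, hφ'0, hφ'1 _ i1,
      conj_zpow, mul_one]
    group
  have key := PqE2_hom (φ.trans β).toMonoidHom (β.trans φ').toMonoidHom (of 2) _ hc2 hD P hR
  rw [hW', hβ, hβ, hW, act_act, act_act, hVP, act_mk, act_mk]
  exact congrArg ConjClasses.mk key.symm

end Pool.Agent.Sims
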