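import Pool.Agent.Sims.PqAs
import Pool.Agent.Sims.PqE1b
import Pool.Agent.Sims.PqE2

/-!
# Module `PqK` : the case Φ, final bound

* `q_caseTB`: `E0 = {V, V', θ V, θ V'}`, `V'` the other class of this kind in the room (`q_TB_pair`), or `V`.
* `q_caseJb`: `E0 = {V, W, qfl V, qfl W}`.
* `q_bound`: four cases.
-/

namespace Pool.Agent.Sims

open FreeGroup (of)

theorem PqK_in {E : Finset CC} {V : CC} (h : V ∈ E) : qIn E V :=
  ⟨fun _ => true, rfl, V, h, (q_fs_one V).symm⟩

theorem PqK_card4 {c : CC} {E : Finset CC} (hE : E.card ≤ 4)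
    (h : Bdd c (2 * E.card * (cycLen c - cnt c 0 + 1) ^ 2)) :
    Bdd c (8 * (cycLen c - cnt c 0 + 1) ^ 2) := by
  refine Bdd_mono h ?_
  apply Nat.mul_le_mul_right
  omega

theorem PqK_TBth {c V : CC} (h : qTB c V) : qTB c (act qth.aut V) := by
  refine ⟨h.2, ?_⟩
  rw [q_th_th]
  exact h.1

theorem PqK_star {c V : CC} (hc : qOK c) (hV : qTB c V) : ∃ W, qTB c W ∧ qRm c V W ∧
    qRm c (act qth.aut V) (act qth.aut W) ∧
    ∀ W', qTB c W' → (qRm c V W' ∨ qRm c (act qth.aut V) (act qth.aut W')) →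
      W' = V ∨ W' = W := by
  classical
  by_cases hex : ∃ W, qTB c W ∧ W ≠ V ∧ (qRm c V W ∨ qRm c (act qth.aut V) (act qth.aut W))
  · obtain ⟨W, hW, hne, h⟩ := hex
    obtain ⟨h1, h2, h3⟩ := q_TB_pair hc hV hW hne h
    refine ⟨W, hW, h1, h2, fun W' hW' hr => ?_⟩
    by_cases hWV : W' = V
    · exact Or.inl hWV
    · exact Or.inr (h3 W' hW' hWV hr)
  · refine ⟨V, hV, q_Rm_refl hV.1, q_Rm_refl hV.2, fun W' hW' hr => ?_⟩
    left
    by_contra hne
    exact hex ⟨W', hW', hne, hr⟩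

theorem q_caseTB {c V : CC} (hc : qOK c) (hV : qTB c V) :
    Bdd c (8 * (cycLen c - cnt c 0 + 1) ^ 2) := by
  classical
  obtain ⟨W, hW, hVW, hVW', huniq⟩ := PqK_star hc hV
  have hcard : ({V, W, act qth.aut V, act qth.aut W} : Finset CC).card ≤ 4 := by
    refine le_trans (Finset.card_insert_le _ _) ?_
    refine Nat.succ_le_succ (le_trans (Finset.card_insert_le _ _) ?_)
    refine Nat.succ_le_succ (le_trans (Finset.card_insert_le _ _) ?_)
    simp
  set E : Finset CC := {V, W, act qth.aut V, act qth.aut W} with hE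
  have hmem : ∀ e ∈ E, e = V ∨ e = W ∨ e = act qth.aut V ∨ e = act qth.aut W := by
    intro e he
    simpa [hE] using he
  have mV : V ∈ E := by simp [hE]
  have mW : W ∈ E := by simp [hE]
  have mV' : act qth.aut V ∈ E := by simp [hE]
  have mW' : act qth.aut W ∈ E := by simp [hE]
  have hTB : ∀ e ∈ E, qTB c e := by
    intro e he
    rcases hmem e he with rfl | rfl | rfl | rfl
    · exact hV
    · exact hW
    · exact PqK_TBth hV
    · exact PqK_TBth hW
  have hth : ∀ e ∈ E, act qth.aut e ∈ E := by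
    intro e he
    rcases hmem e he with rfl | rfl | rfl | rfl
    · exact mV'
    · exact mW'
    · rw [q_th_th]; exact mV
    · rw [q_th_th]; exact mW
  -- special states in the rooms of `e`, `qfl e` are of kind TB
  have hsp : ∀ e ∈ E, ∀ U U', (qRm c e U ∨ qRm c (qfl e) U) → qSp c U U' → qTB c U := by
    intro e he U U' hr hs
    have hr' : qRm c U e ∨ qRm c (qfl U) e := by
      rcases hr with hr | hr
      · exact Or.inl (q_Rm_symm hr)
      · right
        have := q_fl_Rm (q_Rm_symm hr)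
        rwa [q_fl_fl] at this
    rcases hs with hs | hs | hs
    · exact absurd (hTB e he) (q_no_TB_Jb hc hs hr')
    · exact absurd (hTB e he) (q_no_TB_Jc hc hs hr')
    · obtain ⟨h1, h2, h3⟩ := hs
      refine ⟨h1, ?_⟩
      rw [← h3]
      exact h2
  have hroom : ∀ e ∈ E, ∀ U, qTB c U → qRm c e U → U ∈ E := by
    intro e he U hU hr
    rcases hmem e he with rfl | rfl | rfl | rfl
    · rcases huniq U hU (Or.inl hr) with rfl | rfl
      · exact mV
      · exact mW
    · rcases huniq U hU (Or.inl (q_Rm_trans hVW hr)) with rfl | rfl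
      · exact mV
      · exact mW
    · have h2 : qRm c (act qth.aut V) (act qth.aut (act qth.aut U)) := by
        rw [q_th_th]; exact hr
      rcases huniq (act qth.aut U) (PqK_TBth hU) (Or.inr h2) with h | h
      · have : U = act qth.aut V := by rw [← h, q_th_th]
        rw [this]; exact mV'
      · have : U = act qth.aut W := by rw [← h, q_th_th]
        rw [this]; exact mW'
    · have h2 : qRm c (act qth.aut V) (act qth.aut (act qth.aut U)) := by
        rw [q_th_th]; exact q_Rm_trans hVW' hr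
      rcases huniq (act qth.aut U) (PqK_TBth hU) (Or.inr h2) with h | h
      · have : U = act qth.aut V := by rw [← h, q_th_th]
        rw [this]; exact mV'
      · have : U = act qth.aut W := by rw [← h, q_th_th]
        rw [this]; exact mW'
  refine PqK_card4 hcard (q_close hc ⟨V, mV⟩ (fun e he => (hTB e he).1) ?_ ?_ ?_)
  · intro e he U U' hr hs
    exact PqK_in (hroom e he U (hsp e he U U' (Or.inl hr) hs) hr)
  · intro e he U U' hr hs
    obtain ⟨s, hs0, hU⟩ := q_E1 hc (hTB e he) (hsp e he U U' (Or.inr hr) hs) hr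
    exact ⟨s, hs0, act qth.aut e, hth e he, hU⟩
  · intro e he U hs
    have hr : qRm c e e := q_Rm_refl (hTB e he).1
    rcases hs with hs | hs | hs
    · exact absurd (hTB e he) (q_no_TB_Jb hc hs (Or.inl hr))
    · exact absurd (hTB e he) (q_no_TB_Jc hc hs (Or.inl hr))
    · rw [hs.2.2]
      exact PqK_in (hth e he)

/-- special states in the room of a state with a jump -/
theorem PqK_room {c V W : CC} (hc : qOK c) (h : qJb c V W) {U U' : CC} (hr : qRm c V U)
    (hs : qSp c U U') : U = V ∨ U = W := by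
  rcases hs with hs | hs | hs
  · refine q_Jb_same hc h hr ?_
    rw [hs.2.2.1]
    exact hs.1.1.2 0
  · exact absurd hs (q_no_Jc_Jb hc h (Or.inl hr))
  · exfalso
    refine q_no_TB_Jb hc h (Or.inl hr) ⟨hs.1, ?_⟩
    rw [← hs.2.2]
    exact hs.2.1

theorem PqK_room' {c V W : CC} (hc : qOK c) (h : qJb c V W) {U U' : CC}
    (hr : qRm c (qfl V) U) (hs : qSp c U U') : U = qfl V ∨ U = qfl W := by
  have hr' : qRm c V (qfl U) := by
    have := q_fl_Rm hr
    rwa [q_fl_fl] at this
  rcases hs with hs | hs | hs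
  · have h2 : capC (qfl U) (PrC 2) = cnt c 0 := by
      rw [q_fl_capP U (by decide), hs.2.2.1]
      exact hs.1.1.2 0
    rcases q_Jb_same hc h hr' h2 with h3 | h3
    · left; rw [← h3, q_fl_fl]
    · right; rw [← h3, q_fl_fl]
  · exact absurd hs (q_no_Jc_Jb hc h (Or.inr hr))
  · exfalso
    refine q_no_TB_Jb hc h (Or.inr hr) ⟨hs.1, ?_⟩
    rw [← hs.2.2]
    exact hs.2.1

theorem q_caseJb {c V W : CC} (hc : qOK c) (h : qJb c V W) :
    Bdd c (8 * (cycLen c - cnt c 0 + 1) ^ 2) := by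
  classical
  have h' : qJb c W V := q_Jb_symm hc h
  have hcard : ({V, W, qfl V, qfl W} : Finset CC).card ≤ 4 := by
    refine le_trans (Finset.card_insert_le _ _) ?_
    refine Nat.succ_le_succ (le_trans (Finset.card_insert_le _ _) ?_)
    refine Nat.succ_le_succ (le_trans (Finset.card_insert_le _ _) ?_)
    simp
  set E : Finset CC := {V, W, qfl V, qfl W} with hE
  have hmem : ∀ e ∈ E, e = V ∨ e = W ∨ e = qfl V ∨ e = qfl W := by
    intro e he
    simpa [hE] using he
  have mV : V ∈ E := by simp [hE]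
  have mW : W ∈ E := by simp [hE]
  have mV' : qfl V ∈ E := by simp [hE]
  have mW' : qfl W ∈ E := by simp [hE]
  have hHS : ∀ e ∈ E, qHS c e := by
    intro e he
    rcases hmem e he with rfl | rfl | rfl | rfl
    · exact h.1
    · exact h.2.1
    · exact q_fl_HS h.1
    · exact q_fl_HS h.2.1
  have hfl : ∀ e ∈ E, qfl e ∈ E := by
    intro e he
    rcases hmem e he with rfl | rfl | rfl | rfl
    · exact mV'
    · exact mW'
    · rw [q_fl_fl]; exact mV
    · rw [q_fl_fl]; exact mW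
  have hroom : ∀ e ∈ E, ∀ U U', qRm c e U → qSp c U U' → U ∈ E := by
    intro e he U U' hr hs
    rcases hmem e he with rfl | rfl | rfl | rfl
    · rcases PqK_room hc h hr hs with rfl | rfl
      · exact mV
      · exact mW
    · rcases PqK_room hc h' hr hs with rfl | rfl
      · exact mW
      · exact mV
    · rcases PqK_room' hc h hr hs with rfl | rfl
      · exact mV'
      · exact mW'
    · rcases PqK_room' hc h' hr hs with rfl | rfl
      · exact mW'
      · exact mV'
  refine PqK_card4 hcard (q_close hc ⟨V, mV⟩ hHS ?_ ?_ ?_)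
  · intro e he U U' hr hs
    exact PqK_in (hroom e he U U' hr hs)
  · intro e he U U' hr hs
    exact PqK_in (hroom (qfl e) (hfl e he) U U' hr hs)
  · intro e he U hs
    have hcases : (∃ Z ∈ E, qJb c e Z ∧ ∀ U, qJb c e U → U = Z) ∨
        (∀ U, qJb c e U → U ∈ E) := by
      right
      intro U hU
      rcases hmem e he with rfl | rfl | rfl | rfl
      · rw [q_Jb_uniq hc hU h]; exact mW
      · rw [q_Jb_uniq hc hU h']; exact mV
      · rw [q_E2 hc h hU]; exact mW'
      · rw [q_E2 hc h' hU]; exact mV'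
    have hJb : ∀ U, qJb c e U → U ∈ E := by
      intro U hU
      rcases hmem e he with rfl | rfl | rfl | rfl
      · rw [q_Jb_uniq hc hU h]; exact mW
      · rw [q_Jb_uniq hc hU h']; exact mV
      · rw [q_E2 hc h hU]; exact mW'
      · rw [q_E2 hc h' hU]; exact mV'
    have hnJc : ∀ U, ¬ qJc c e U := by
      intro U
      rcases hmem e he with rfl | rfl | rfl | rfl
      · exact q_no_Jc_Jb hc h (Or.inl (q_Rm_refl h.1))
      · exact q_no_Jc_Jb hc h' (Or.inl (q_Rm_refl h'.1))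
      · exact q_no_Jc_Jb hc h (Or.inr (q_Rm_refl (q_fl_HS h.1)))
      · exact q_no_Jc_Jb hc h' (Or.inr (q_Rm_refl (q_fl_HS h'.1)))
    have hnTB : ¬ qTB c e := by
      rcases hmem e he with rfl | rfl | rfl | rfl
      · exact q_no_TB_Jb hc h (Or.inl (q_Rm_refl h.1))
      · exact q_no_TB_Jb hc h' (Or.inl (q_Rm_refl h'.1))
      · exact q_no_TB_Jb hc h (Or.inr (q_Rm_refl (q_fl_HS h.1)))
      · exact q_no_TB_Jb hc h' (Or.inr (q_Rm_refl (q_fl_HS h'.1)))
    rcases hs with hs | hs | hs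
    · exact PqK_in (hJb U hs)
    · exact absurd hs (hnJc U)
    · exfalso
      refine hnTB ⟨hs.1, ?_⟩
      rw [← hs.2.2]
      exact hs.2.1

theorem q_bound {c V : CC} (hc : qOK c) (hV : qHS c V) :
    Bdd c (8 * (cycLen c - cnt c 0 + 1) ^ 2) := by
  classical
  by_cases h1 : ∃ V', qTB c V'
  · obtain ⟨V', h⟩ := h1
    exact q_caseTB hc h
  by_cases h2 : ∃ V' W', qJb c V' W'
  · obtain ⟨V', W', h⟩ := h2
    exact q_caseJb hc h
  by_cases h3 : ∃ V' W', qJc c V' W'
  · obtain ⟨V', W', h⟩ := h3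
    have h4 := q_caseJb (q_ro_OK hc) (q_ro_Jc h)
    rw [cycLen_SPerm, q_ro_cnt] at h4
    exact Bdd_orb (orb_SPerm qro c) h4
  have hn : ∀ U U', ¬ qSp c U U' := by
    intro U U' hs
    rcases hs with hs | hs | hs
    · exact h2 ⟨U, U', hs⟩
    · exact h3 ⟨U, U', hs⟩
    · refine h1 ⟨U, hs.1, ?_⟩
      rw [← hs.2.2]
      exact hs.2.1
  refine PqK_card4 (E := {V}) (by simp) (q_close hc ⟨V, by simp⟩ ?_ ?_ ?_ ?_)
  · intro e he
    rw [Finset.mem_singleton] at he
    rw [he]
    exact hV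
  · intro e _ U U' _ hs
    exact absurd hs (hn U U')
  · intro e _ U U' _ hs
    exact absurd hs (hn U U')
  · intro e _ U hs
    exact absurd hs (hn e U)

theorem PqK_arith {m n n1 n2 : ℕ} (hm : m = n + n1 + n2) (h4 : 4 ≤ n) (h01 : n < n1)
    (h12 : n1 ≤ n2) : 8 * (m - n + 1) ^ 2 ≤ F3 m := by
  obtain ⟨p, hp⟩ : ∃ p, n1 + n2 = p + 10 := ⟨n1 + n2 - 10, by omega⟩
  obtain ⟨k, hk⟩ : ∃ k, n = k + 4 := ⟨n - 4, by omega⟩
  have e1 : m = p + k + 14 := by omega
  subst e1
  unfold F3
  have e2 : p + k + 14 - n + 1 = p + 11 := by omega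
  have e3 : p + k + 14 - 1 = p + k + 13 := by omega
  have e4 : p + k + 14 - 2 = p + k + 12 := by omega
  have e5 : p + k + 14 - 7 = p + k + 7 := by omega
  rw [e2, e3, e4, e5]
  nlinarith [Nat.zero_le p, Nat.zero_le k, Nat.zero_le (p * k), Nat.zero_le (p * p),
    Nat.zero_le (k * k), Nat.zero_le (p * p * p), Nat.zero_le (p * p * k),
    Nat.zero_le (p * k * k), Nat.zero_le (k * k * k)]

theorem phi_bound {c : CC} (hO : OMin c) (h4 : 4 ≤ cnt c 0) (he : cnt c 0 % 2 = 0)
    (h01 : cnt c 0 < cnt c 1) (h12 : cnt c 1 ≤ cnt c 2)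
    (hI : ∀ W ∈ orb c, ∀ i, cnt c 0 ≤ capC W (PrC i))
    (hΦ : ∃ V, Sm c V ∧ (capC V Sb = cnt V 0 ∨ capC V Sc = cnt V 0)) :
    Bdd c (F3 (cycLen c)) := by
  have hc : qOK c := ⟨hO, h4, he, h01, lt_of_lt_of_le h01 h12, hI⟩
  have hHS : ∃ V, qHS c V := by
    obtain ⟨V, hV, h | h⟩ := hΦ
    · exact ⟨V, hV, h⟩
    · refine ⟨act qth.aut V, q_th_Sm hV, ?_⟩
      rw [q_th_capSb, q_th_cnt, h]
  obtain ⟨V, hV⟩ := hHS
  refine Bdd_mono (q_bound hc hV) (PqK_arith (n1 := cnt c 1) (n2 := cnt c 2) ?_ h4 h01 h12)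
  rw [cycLen_eq_sum, Fin.sum_univ_three]

end Pool.Agent.Sims
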