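import Pool.Agent.Sims.EvUe

/-!
# Module `EvU` : moves of a rigid letter can be done last

* `lemU`: induction along the path.  `W' = σ (A, z) W₁` with `W₁ ∈ EM (M ∖ i) V`, `z = (i, true)`; the next step `(B, y) W'`, `M y.1`, is `σ (B ∘ σ, σ⁻¹ y) (A, z) W₁` (`TwBasic_SPerm`, `act_wh_SPerm`, `act_SPerm_inv`);
  `M (σ⁻¹ y).1` since `σ` fixes the letters outside `M`.  `¬ Crs n W₁ z` says exactly that `stc A z` is not visibly crossed.  `exch_same` / `exch_diff`; in the second case the new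
  `W₁' = (B', y') W₁` with `y'.1 = (σ⁻¹ y).1 ≠ i` is in `EM (M ∖ i) V`.  Compositions of signed permutations: `Conn_act_comp`, `Conn_comp_letter`.  A level `(i, false)`-cut is replaced by its complement
  (`Lv_compl`).
Difficulty 2.
-/

namespace Pool.Agent.Sims

theorem EvU_act_id (π : SPerm (Fin 3)) (h : ∀ x, π.letter x = x) (c : CC) :
    act π.aut c = c := by
  obtain ⟨w, _, rfl⟩ := exists_CR c
  rw [act_SPerm_cls]
  congr 1
  have : π.letter = id := funext h
  rw [this, List.map_id]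

theorem EvU_orb {M : Fin 3 → Prop} {V W : CC} (h : W ∈ EM M V) : W ∈ orb V := by
  have h1 : Relation.ReflTransGen (StM M) V W := h
  clear h
  induction h1 with
  | refl => exact orb_refl V
  | tail _ h3 ih =>
    obtain ⟨z, A, _, hA, rfl⟩ := h3
    exact orb_level ih hA.1 hA.2.1 hA.2.2

theorem EvU_pull (σ : SPerm (Fin 3)) {U : CC} {y : Fin 3 × Bool} {B : Ct}
    (h : Lv (act σ.aut U) y B) : Lv U (σ.inv.letter y) (fun x => B (σ.letter x)) ∧
    act (wh y B) (act σ.aut U) =
      act σ.aut (act (wh (σ.inv.letter y) (fun x => B (σ.letter x))) U) := by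
  have hy : σ.letter (σ.inv.letter y) = y := SPerm.letter_inv σ y
  refine ⟨⟨?_, ?_, ?_⟩, ?_⟩
  · simp only [hy]
    exact h.1
  · simp only [SPerm.letter_bar, hy]
    exact h.2.1
  · rw [← capC_SPerm, h.2.2]
    have h2 := cnt_SPerm σ U (σ.inv.letter y).1
    have h3 : σ.perm (σ.inv.letter y).1 = y.1 := congrArg Prod.fst hy
    rw [h3] at h2
    exact h2
  · have h2 := act_wh_SPerm σ (σ.inv.letter y) B U
    rw [hy] at h2
    exact h2

theorem lemU {n : ℕ} {V : CC} (E : Eq3 n V) {M : Fin 3 → Prop} {i : Fin 3} (hi : M i)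
    (hr : ∀ W ∈ EM (fun j => M j ∧ j ≠ i) V, ¬ Crs n W (i, true)) {W : CC} (hW : W ∈ EM M V) :
    ∃ (σ : SPerm (Fin 3)) (W1 : CC) (A : Ct), W1 ∈ EM (fun j => M j ∧ j ≠ i) V ∧
      Lv W1 (i, true) A ∧ (∀ x : Fin 3 × Bool, ¬ M x.1 → σ.letter x = x) ∧
      W = act σ.aut (act (wh (i, true) A) W1) := by
  have h1 : Relation.ReflTransGen (StM M) V W := hW
  clear hW
  induction h1 with
  | refl =>
    have hπ' : ∀ x : Fin 3 × Bool,
        (⟨Equiv.refl _, fun _ => true⟩ : SPerm (Fin 3)).letter x = x := by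
      rintro ⟨i, b⟩
      simp [SPerm.letter]
    have hπ := EvU_act_id _ hπ'
    have hL : Lv V (i, true) (sgl (i, true)) := by
      refine ⟨by simp [sgl], ?_, capC_sgl V _⟩
      simp only [sgl, decide_eq_false_iff_not]
      exact bar_ne _
    refine ⟨⟨Equiv.refl _, fun _ => true⟩, V, sgl (i, true), Relation.ReflTransGen.refl, hL, fun x _ => hπ' x, ?_⟩
    rw [hπ, Lv_triv]
    intro x hx
    simp only [sgl, decide_eq_false_iff_not]
    rintro rfl
    exact hx rfl
  | @tail W' W'' _ h3 ih =>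
    obtain ⟨σ, W1, A, hW1, hA, hσ, rfl⟩ := ih
    obtain ⟨y, B, hy, hB, rfl⟩ := h3
    have hE1 : Eq3 n W1 := E.orb' (EvU_orb hW1)
    have hu : ¬ VX n (act (wh (i, true) A) W1) (stc A (i, true)) :=
      fun hc => hr W1 hW1 ⟨A, hA, hc⟩
    obtain ⟨hB', hact⟩ := EvU_pull σ hB
    have hMy : M (σ.inv.letter y).1 := by
      by_contra hc
      have h4 := hσ _ hc
      rw [SPerm.letter_inv] at h4
      rw [← h4] at hc
      exact hc hy
    rw [hact]
    by_cases hyi : (σ.inv.letter y).1 = i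
    · obtain ⟨A', hA', h5⟩ := exch_same hE1 hA hu hB' hyi
      exact ⟨σ, W1, A', hW1, hA', hσ, by rw [h5]⟩
    · obtain ⟨σ2, z', y', A', B', hz', hy', hL1, hL2, hσ2, h5⟩ := exch_diff hE1 hA hu hB' hyi
      have hfix : ∀ x : Fin 3 × Bool, ¬ M x.1 → (Conn_comp σ σ2).letter x = x := by
        intro x hx
        rw [Conn_comp_letter]
        have e1 : x.1 ≠ i := fun h => hx (by rw [h]; exact hi)
        have e2 : x.1 ≠ (σ.inv.letter y).1 := fun h => hx (by rw [h]; exact hMy)
        rw [hσ2 x e1 e2, hσ x hx]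
      have hW1' : act (wh y' B') W1 ∈ EM (fun j => M j ∧ j ≠ i) V :=
        Relation.ReflTransGen.tail hW1 ⟨y', B', ⟨by rw [hy']; exact hMy, by rw [hy']; exact hyi⟩,
          hL1, rfl⟩
      obtain ⟨j, b⟩ := z'
      change j = i at hz'
      subst hz'
      cases b
      · have h6 := Lv_compl hL2
        refine ⟨Conn_comp σ σ2, act (wh y' B') W1, fun x => !A' x, hW1', h6.1, hfix, ?_⟩
        have h7 : act (wh (j, true) (fun x => !A' x)) (act (wh y' B') W1) =
          act (wh (j, false) A') (act (wh y' B') W1) := h6.2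
        rw [h5, Conn_act_comp, h7]
      · refine ⟨Conn_comp σ σ2, act (wh y' B') W1, A', hW1', hL2, hfix, ?_⟩
        rw [h5, Conn_act_comp]

end Pool.Agent.Sims
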