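import Pool.Agent.Sims.RtF1
import Pool.Agent.Sims.SylEdge

/-!
# Module `RtX0a` : port of `EvX0a`
-/

namespace Pool.Agent.Sims

namespace Pw

open FreeGroup (of)

variable {P : Fin 3 → Prop}

theorem EvX0a_true {n : ℕ} {V : CC} (E : EqP n P V) {j : Fin 3} {A : Ct} (hA : LP P V (j, true) A)
    (hA' : LP P V (j, true) (opc (j, true) A)) (hn : Ntr A) :
    edgS (act (wh (j, true) A) V) (rs j A) (rs j (fun x => !A x)) =
      edgS (act (wh (j, true) (opc (j, true) A)) V) (rs j A) (rs j (fun x => !A x)) ∧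
    edgS (act (wh (j, true) A) V) (sgl (j, true)) (sgl (j, false)) =
      edgS (act (wh (j, true) A) V) (rs j A) (rs j (fun x => !A x)) ∧
    edgS (act (wh (j, true) (opc (j, true) A)) V) (sgl (j, true)) (sgl (j, false)) =
      edgS (act (wh (j, true) A) V) (rs j A) (rs j (fun x => !A x)) ∧
    (edgS (act (wh (j, true) A) V) (rs j A) (rs j (fun x => !A x)) = 0 →
      act (wh (j, true) A) V = V ∧ act (wh (j, true) (opc (j, true) A)) V = V) := by
  have hz : A (j, true) = true := hA.1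
  have hz' : A (j, false) = false := hA.2.1
  obtain ⟨⟨x1, x2, hx12, hx1, hx2⟩, ⟨y1, y2, hy12, hy1, hy2⟩⟩ := hn
  -- a letter inside and a letter outside
  have hin : ∃ x, x.1 ≠ j ∧ A x = true := by
    have key : ∀ x : Fin 3 × Bool, A x = true → x ≠ (j, true) → x.1 ≠ j := by
      rintro ⟨i, b⟩ h1 h2 h3
      simp only at h3
      subst h3
      cases b
      · rw [hz'] at h1; exact absurd h1 (by simp)
      · exact h2 rfl
    by_cases h : x1 = (j, true)
    · exact ⟨x2, key x2 hx2 (fun h' => hx12 (h.trans h'.symm)), hx2⟩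
    · exact ⟨x1, key x1 hx1 h, hx1⟩
  have hout : ∃ x, x.1 ≠ j ∧ A x = false := by
    have key : ∀ x : Fin 3 × Bool, A x = false → x ≠ (j, false) → x.1 ≠ j := by
      rintro ⟨i, b⟩ h1 h2 h3
      simp only at h3
      subst h3
      cases b
      · exact h2 rfl
      · rw [hz] at h1; exact absurd h1 (by simp)
    by_cases h : y1 = (j, false)
    · exact ⟨y2, key y2 hy2 (fun h' => hy12 (h.trans h'.symm)), hy2⟩
    · exact ⟨y1, key y1 hy1 h, hy1⟩
  obtain ⟨x, hxj, hxA⟩ := hin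
  obtain ⟨y, hyj, hyA⟩ := hout
  have hX : Crossg A (opc (j, true) A) := by
    refine ⟨⟨(j, true), hz, ?_⟩, ⟨x, hxA, ?_⟩, ⟨y, hyA, ?_⟩, ⟨(j, false), hz', ?_⟩⟩
    · simp [opc, hz]
    · simp [opc, hxj, hxA]
    · simp [opc, hyj, hyA]
    · simp [opc, hz']
  have hf := f1e E ((Lv_NC E).1 hA).2.2 ((Lv_NC E).1 hA').2.2 hX
  have hjj : edgS V (sgl (j, true)) (sgl (j, false)) = 0 := by
    rw [← hf.1]
    apply edgS_congr
    · rintro ⟨i, b⟩
      by_cases hi : i = j
      · subst hi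
        cases b <;> simp [sgl, opc, hz, hz']
      · have : ¬ ((i, b) = (j, true)) := fun h => hi (congrArg Prod.fst h)
        simp [sgl, opc, hi]
    · rintro ⟨i, b⟩
      by_cases hi : i = j
      · subst hi
        cases b <;> simp [sgl, opc, hz, hz']
      · have : ¬ ((i, b) = (j, true)) := fun h => hi (congrArg Prod.fst h)
        simp [sgl, opc, hi]
  have hDD : edgS V (rs j A) (rs j (fun x => !A x)) = 0 := by
    rw [← hf.2.1]
    apply edgS_congr
    · rintro ⟨i, b⟩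
      by_cases hi : i = j
      · subst hi
        cases b <;> simp [rs, opc, hz, hz']
      · simp [rs, opc, hi]
    · rintro ⟨i, b⟩
      by_cases hi : i = j
      · subst hi
        cases b <;> simp [rs, opc, hz, hz']
      · simp [rs, opc, hi]
  have hc1 : cnt (act (wh (j, true) A) V) j = cnt V j := (Lv_Sm (LP_Lv hA)).2 j
  have e2 : act (wh (j, true) (opc (j, true) A)) V = act (pot j (-ind A)) V := by
    rw [wh_pot]
    apply pot_const 1
    intro x hx
    have h' : opc (j, true) A x = !A x := if_neg hx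
    cases hA : A x <;> simp [ind, h', hA]
  rw [e2]
  rw [wh_pot] at hc1 ⊢
  rcases WhEff_cases j V with ⟨k, rfl⟩ | ⟨s, -, hs, rfl⟩
  · rw [act_pot_pow, act_pot_pow, hjj, hDD]
    simp
  · have hv : ∀ q : Fin 3 × Bool → ℤ, act (pot j q) (cls (expand j s)) = cls (expand j (shift q s)) :=
      fun q => act_pot _ _ _ hs.1
    have hP : ∀ q ∈ s, q.1.1 ≠ j := hs.1
    rw [EvX0a_edge hs] at hDD
    rw [edgS_jj hs, ← cyc_fst] at hjj
    have herr : cyc (fun (q r : (Fin 3 × Bool) × ℤ) => (q.2.natAbs - 1) +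
        (if q.2 = 0 ∧ EvX0a_mix j A q.1 r.1 = true then 1 else 0)) s = 0 := by
      rw [cyc_add (fun (q _ : (Fin 3 × Bool) × ℤ) => (q.2.natAbs - 1))
        (fun (q r : (Fin 3 × Bool) × ℤ) =>
          (if q.2 = 0 ∧ EvX0a_mix j A q.1 r.1 = true then 1 else 0)) s, hjj, hDD]
    rw [hv] at hc1
    rw [EvX0a_cnt hs, cnt_cls hs.2, cntL_expand_self _ _ hs.1, ← cyc_fst] at hc1
    have E1 := EvX0a_cyc (fun q : (Fin 3 × Bool) × ℤ => q.1.1 ≠ j) _
      (fun q r => if q.2 + ind A q.1 - ind A (bar r.1) = 0 ∧ EvX0a_mix j A q.1 r.1 = true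
        then 1 else 0)
      (fun q r => (q.2 + (-ind A) q.1 - (-ind A) (bar r.1)).natAbs - 1)
      (fun q r hq hr h0 => (EvX0a_num (A := A q.1) (B := A (bar r.1)) rfl rfl
        (EvX0a_mix_iff hq hr) h0).1) s hP herr
    have E2 := EvX0a_cyc (fun q : (Fin 3 × Bool) × ℤ => q.1.1 ≠ j) _
      (fun q r => if q.2 + (-ind A) q.1 - (-ind A) (bar r.1) = 0 ∧
        EvX0a_mix j A q.1 r.1 = true then 1 else 0)
      (fun q r => (q.2 + ind A q.1 - ind A (bar r.1)).natAbs - 1)
      (fun q r hq hr h0 => (EvX0a_num (A := A q.1) (B := A (bar r.1)) rfl rfl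
        (EvX0a_mix_iff hq hr) h0).2.1) s hP herr
    have E3 := EvX0a_cyc (fun q : (Fin 3 × Bool) × ℤ => q.1.1 ≠ j) _
      (fun q r => (q.2 + ind A q.1 - ind A (bar r.1)).natAbs +
        (if q.2 + ind A q.1 - ind A (bar r.1) = 0 ∧ EvX0a_mix j A q.1 r.1 = true
        then 1 else 0))
      (fun q r => q.2.natAbs + ((q.2 + ind A q.1 - ind A (bar r.1)).natAbs - 1))
      (fun q r hq hr h0 => (EvX0a_num (A := A q.1) (B := A (bar r.1)) rfl rfl
        (EvX0a_mix_iff hq hr) h0).2.2.1) s hP herr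
    have E4 := EvX0a_cyc (fun q : (Fin 3 × Bool) × ℤ => q.1.1 ≠ j) _
      (fun q r => if A q.1 = A (bar r.1) then 0 else 1)
      (fun q r => (if q.2 + ind A q.1 - ind A (bar r.1) = 0 ∧ EvX0a_mix j A q.1 r.1 = true
        then 1 else 0) + ((q.2 + ind A q.1 - ind A (bar r.1)).natAbs - 1))
      (fun q r hq hr h0 => (EvX0a_num (A := A q.1) (B := A (bar r.1)) rfl rfl
        (EvX0a_mix_iff hq hr) h0).2.2.2) s hP herr
    have A3 := cyc_add (fun (q r : (Fin 3 × Bool) × ℤ) =>
        (q.2 + ind A q.1 - ind A (bar r.1)).natAbs)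
      (fun q r => (if q.2 + ind A q.1 - ind A (bar r.1) = 0 ∧ EvX0a_mix j A q.1 r.1 = true
        then 1 else 0)) s
    have A3' := cyc_add (fun (q _ : (Fin 3 × Bool) × ℤ) => q.2.natAbs)
      (fun q r => ((q.2 + ind A q.1 - ind A (bar r.1)).natAbs - 1)) s
    have A4 := cyc_add (fun (q r : (Fin 3 × Bool) × ℤ) =>
      (if q.2 + ind A q.1 - ind A (bar r.1) = 0 ∧ EvX0a_mix j A q.1 r.1 = true
        then 1 else 0)) (fun q r => ((q.2 + ind A q.1 - ind A (bar r.1)).natAbs - 1)) s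
    have e12 : cyc (fun (q r : (Fin 3 × Bool) × ℤ) =>
        (if q.2 + ind A q.1 - ind A (bar r.1) = 0 ∧ EvX0a_mix j A q.1 r.1 = true
        then 1 else 0)) s = cyc (fun (q r : (Fin 3 × Bool) × ℤ) =>
        ((q.2 + ind A q.1 - ind A (bar r.1)).natAbs - 1)) s := by
      omega
    rw [hv, hv, EvX0a_edge' hs, EvX0a_edge' hs, EvX0a_jj' hs, EvX0a_jj' hs]
    refine ⟨e12.trans E2.symm, e12.symm, E1.symm, ?_⟩
    intro h0
    have hNoX : NoX A s := by
      unfold NoX
      omega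
    have h1 := NoX_shift hNoX 0
    have h2 := NoX_shift hNoX (-ind A)
    rw [zero_add] at h1
    rw [neg_add_cancel] at h2
    have h3 : cls (expand j (shift 0 s)) = cls (expand j s) := by
      rw [← hv, pot_zero]
    rw [h1, ← h2, h3]
    exact ⟨rfl, rfl⟩

theorem x0a {n : ℕ} {V : CC} (E : EqP n P V) {z : Fin 3 × Bool} {A : Ct} (hA : LP P V z A)
    (hA' : LP P V z (opc z A)) (hn : Ntr A) (hn' : Ntr (opc z A)) :
    edgS (act (wh z A) V) (rs z.1 A) (rs z.1 (fun x => !A x)) =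
      edgS (act (wh z (opc z A)) V) (rs z.1 A) (rs z.1 (fun x => !A x)) ∧
    edgS (act (wh z A) V) (sgl z) (sgl (bar z)) =
      edgS (act (wh z A) V) (rs z.1 A) (rs z.1 (fun x => !A x)) ∧
    edgS (act (wh z (opc z A)) V) (sgl z) (sgl (bar z)) =
      edgS (act (wh z A) V) (rs z.1 A) (rs z.1 (fun x => !A x)) ∧
    (edgS (act (wh z A) V) (rs z.1 A) (rs z.1 (fun x => !A x)) = 0 →
      act (wh z A) V = V ∧ act (wh z (opc z A)) V = V) := by
  obtain ⟨j, b⟩ := z
  cases b
  · have h1 := Lv_compl hA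
    have h2 := Lv_compl hA'
    have e1 : (fun x => !opc (j, false) A x) = opc (j, true) (fun x => !A x) := by
      funext x
      by_cases hx : x.1 = j <;> simp [opc, hx]
    have hb : bar (j, false) = (j, true) := rfl
    rw [e1, hb] at h2
    rw [hb] at h1
    have e3 : (fun x => !!A x) = A := by funext x; simp
    have key := EvX0a_true E h1.1 h2.1 (Ntr_compl hn)
    rw [e3, h1.2, h2.2] at key
    have c1 : ∀ W : CC, edgS W (rs j (fun x => !A x)) (rs j A) =
      edgS W (rs j A) (rs j (fun x => !A x)) := fun W => edgS_comm _ _ _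
    have c2 : ∀ W : CC, edgS W (sgl (j, true)) (sgl (j, false)) =
      edgS W (sgl (j, false)) (sgl (j, true)) := fun W => edgS_comm _ _ _
    simp only [c1, c2] at key
    exact key
  · exact EvX0a_true E hA hA' hn

end Pw

end Pool.Agent.Sims
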