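import Pool.Agent.Sims.RtTri
import Pool.Agent.Sims.RtX0a

/-!
# Module `RtX0` : port of `EvX0`
-/

namespace Pool.Agent.Sims

namespace Pw

open FreeGroup (of)

variable {P : Fin 3 → Prop}

theorem x0 {n : ℕ} {V : CC} (E : EqP n P V) {z : Fin 3 × Bool} {A : Ct} (hA : LP P V z A)
    (hA' : LP P V z (opc z A)) (hn : Ntr A) (hn' : Ntr (opc z A))
    (h : VP n P (act (wh z A) V) (stc A z)) :
    VP n P (act (wh z (opc z A)) V) (stc (opc z A) z) := by
  have E₁ := E.lv hA
  have E₂ := E.lv hA'
  have hz1 : A z = true := hA.1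
  have hz2 : A (bar z) = false := hA.2.1
  have hbz : bar z ≠ z := bar_ne z
  have hQ : NP n P (act (wh z A) V) (stc A z) := ((Lv_NC E₁).1 (Lv_inv hA).1).2.2
  obtain ⟨d, hd, hdz⟩ := EvX0_in hn hz2
  obtain ⟨d', hd', hdz'⟩ := EvX0_out hn hz1
  have hdz1 : d ≠ z := fun h => hdz (by rw [h])
  have hdz2 : d ≠ bar z := fun h => hdz (by rw [h]; rfl)
  have hdz1' : d' ≠ z := fun h => hdz' (by rw [h])
  have hdz2' : d' ≠ bar z := fun h => hdz' (by rw [h]; rfl)
  -- values of `Q₂`
  have q2z : stc (opc z A) z z = false := by simp [stc, hbz.symm]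
  have q2bz : stc (opc z A) z (bar z) = true := by simp [stc]
  have q2d : stc (opc z A) z d = false := by simp [stc, opc, hdz, hd, hdz2]
  have q2d' : stc (opc z A) z d' = true := by simp [stc, opc, hdz', hd', hdz1']
  obtain ⟨C, hC, hX, hCz⟩ : ∃ C, NP n P (act (wh z A) V) C ∧ Crossg C (stc A z) ∧
      C (bar z) = true := by
    obtain ⟨C, hC, hX⟩ := h
    by_cases hc : C (bar z) = true
    · exact ⟨C, hC, hX, hc⟩
    · refine ⟨fun x => !C x, NC_compl hC, Crossg_compl hX, ?_⟩
      simp only [Bool.not_eq_true] at hc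
      simp [hc]
  obtain ⟨e1, -, -, -, -, e6⟩ := f1e E₁ hC hQ hX
  obtain ⟨s1, s2, s3, s4⟩ := x0a E hA hA' hn hn'
  cases hcz : C z with
  | false =>
    have h0 : edgS (act (wh z A) V) (sgl z) (sgl (bar z)) = 0 := by
      rw [edgS_comm]
      refine Nat.le_zero.1 (le_trans (edgS_mono _ ?_ ?_) e1.le)
      · intro x hx
        simp only [sgl, decide_eq_true_eq] at hx
        subst hx
        simp [hCz, stc]
      · intro x hx
        simp only [sgl, decide_eq_true_eq] at hx
        subst hx
        simp [hcz, stc, hbz.symm]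
    rw [s2] at h0
    obtain ⟨-, hV2⟩ := s4 h0
    rw [hV2]
    refine ⟨fun x => !opc z A x, NC_compl ((Lv_NC E).1 hA').2.2, ?_, ?_, ?_, ?_⟩
    · exact ⟨bar z, by simp [opc, hz2], q2bz⟩
    · exact ⟨d, by simp [opc, hdz, hd], q2d⟩
    · exact ⟨d', by simp [opc, hdz', hd'], q2d'⟩
    · exact ⟨z, by simp [opc, hz1], q2z⟩
  | true =>
    have hle : edgS (act (wh z A) V) (fun x => !C x && stc A z x) (fun x => !C x && !stc A z x) ≤
        edgS (act (wh z A) V) (rs z.1 A) (rs z.1 (fun x => !A x)) := by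
      refine edgS_mono _ ?_ ?_
      · intro x hx
        simp only [Bool.and_eq_true, Bool.not_eq_true'] at hx
        obtain ⟨hx1, hx2⟩ := hx
        have hxz : x ≠ z := fun h => by rw [h, hcz] at hx1; exact Bool.false_ne_true hx1.symm
        have hxb : x ≠ bar z := fun h => by rw [h, hCz] at hx1; exact Bool.false_ne_true hx1.symm
        have hxj : x.1 ≠ z.1 := fun h => by
          rcases EvX0_let h with h | h
          · exact hxz h
          · exact hxb h
        simp only [stc, hxz, hxb, ne_eq, not_false_eq_true, decide_true, Bool.and_true,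
          decide_false, Bool.or_false] at hx2
        simp [rs, hx2, hxj]
      · intro x hx
        simp only [Bool.and_eq_true, Bool.not_eq_true'] at hx
        obtain ⟨hx1, hx2⟩ := hx
        have hxz : x ≠ z := fun h => by rw [h, hcz] at hx1; exact Bool.false_ne_true hx1.symm
        have hxb : x ≠ bar z := fun h => by rw [h, hCz] at hx1; exact Bool.false_ne_true hx1.symm
        have hxj : x.1 ≠ z.1 := fun h => by
          rcases EvX0_let h with h | h
          · exact hxz h
          · exact hxb h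
        simp only [stc, hxz, hxb, ne_eq, not_false_eq_true, decide_true, Bool.and_true,
          decide_false, Bool.or_false] at hx2
        simp [rs, hx2, hxj]
    have hcap := capC_pr (act (wh z (opc z A)) V) (z := z) (y := bar z) hbz.symm
    have hzP : ¬ P z.1 := LP_fst hA
    rw [E₂.c _ hzP, E₂.c _ (show ¬ P (bar z).1 from hzP)] at hcap
    have hP : PrpP P (pr z (bar z)) := by
      refine ⟨⟨⟨z, by simp [pr]⟩, ⟨d, by simp [pr, hdz1, hdz2]⟩⟩, ?_⟩
      intro i hi
      have n1 := fun b => P_ne (LP_fst hA) hi b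
      simp [pr, n1]
    have hlow := E₂.low hP
    refine ⟨pr z (bar z), ⟨hP, by omega⟩, ?_, ?_, ?_, ?_⟩
    · exact ⟨bar z, by simp [pr], q2bz⟩
    · exact ⟨z, by simp [pr], q2z⟩
    · exact ⟨d', by simp [pr, hdz1', hdz2'], q2d'⟩
    · exact ⟨d, by simp [pr, hdz1, hdz2], q2d⟩

end Pw

end Pool.Agent.Sims
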