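import Pool.Agent.Sims.RtEM
import Pool.Agent.Sims.RtX0

/-!
# Module `RtNB` : port of `EvNB`
-/

namespace Pool.Agent.Sims

namespace Pw

open FreeGroup (of)

variable {P : Fin 3 → Prop}

theorem crs_bar {n : ℕ} {V : CC} {z : Fin 3 × Bool} (h : CrP n P V z) : CrP n P V (bar z) := by
  obtain ⟨A, hA, hX⟩ := h
  obtain ⟨h1, h2⟩ := Lv_compl hA
  refine ⟨fun x => !A x, h1, ?_⟩
  rw [h2]
  exact (VX_congr (fun x => stc_compl x)).2 (VX_compl.2 hX)

theorem crs_ntr {n : ℕ} {V : CC} {z : Fin 3 × Bool} (h : CrP n P V z) :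
    ∃ A, LP P V z A ∧ Ntr A ∧ VP n P (act (wh z A) V) (stc A z) := by
  obtain ⟨A, hA, hX⟩ := h
  exact ⟨A, hA, EvNB_Ntr hA.1 hA.2.1 (VX_Ntr hX), hX⟩

theorem nb {n : ℕ} {V : CC} (E : EqP n P V) {z : Fin 3 × Bool} {A : Ct} (h : CrP n P V z)
    (hA : LP P V z A) (hn : Ntr A) : VP n P (act (wh z A) V) (stc A z) := by
  obtain ⟨A₀, hA₀, hn₀, hX₀⟩ := crs_ntr h
  by_cases s1 : ∀ x, A₀ x = true → A x = true
  · exact tri_up E hA₀ hA hn s1 hX₀
  by_cases s2 : ∀ x, A x = true → A₀ x = true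
  · exact tri_down E hA hn hA₀ s2 hX₀
  obtain ⟨x₂, hx₂⟩ := not_forall.1 s1
  obtain ⟨x₁, hx₁⟩ := not_forall.1 s2
  have a1 : A₀ x₂ = true ∧ A x₂ = false := by
    revert hx₂
    cases A₀ x₂ <;> cases A x₂ <;> simp
  have a2 : A x₁ = true ∧ A₀ x₁ = false := by
    revert hx₁
    cases A₀ x₁ <;> cases A x₁ <;> simp
  have hcr : Crossg A A₀ :=
    ⟨⟨z, hA.1, hA₀.1⟩, ⟨x₁, a2.1, a2.2⟩, ⟨x₂, a1.2, a1.1⟩, ⟨bar z, hA.2.1, hA₀.2.1⟩⟩
  have hNA : NP n P V A := ((Lv_NC E).1 hA).2.2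
  have hNA₀ : NP n P V A₀ := ((Lv_NC E).1 hA₀).2.2
  obtain ⟨f1a, -, -, -, f1b⟩ := f1 E hNA hNA₀ hcr
  have hI : LP P V z (fun x => A x && A₀ x) :=
    (Lv_NC E).2 ⟨by simp [hA.1, hA₀.1], by simp [hA.2.1], f1a⟩
  have hJ : LP P V z (fun x => A x || A₀ x) :=
    (Lv_NC E).2 ⟨by simp [hA.1], by simp [hA.2.1, hA₀.2.1], f1b⟩
  by_cases nI : Ntr (fun x => A x && A₀ x)
  · have h1 := tri_down E hI nI hA₀ (fun x hx => by
      simp only [Bool.and_eq_true] at hx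
      exact hx.2) hX₀
    exact tri_up E hI hA hn (fun x hx => by
      simp only [Bool.and_eq_true] at hx
      exact hx.1) h1
  by_cases nJ : Ntr (fun x => A x || A₀ x)
  · have h1 := tri_up E hA₀ hJ nJ (fun x hx => by simp [hx]) hX₀
    exact tri_down E hA hn hJ (fun x hx => by simp [hx]) h1
  -- `A` is opposite to `A₀`
  have hx₁b : x₁ ≠ bar z := by
    intro h0
    rw [h0, hA.2.1] at a2
    exact Bool.false_ne_true a2.1
  have hx₂z : x₂ ≠ z := by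
    intro h0
    rw [h0, hA.1] at a1
    exact Bool.false_ne_true a1.2.symm
  have hopp : A = opc z A₀ := by
    funext x
    unfold opc
    by_cases hx : x.1 = z.1
    · rw [if_pos hx]
      rcases EvNB_fst hx with rfl | rfl
      · rw [hA.1, hA₀.1]
      · rw [hA.2.1, hA₀.2.1]
    · rw [if_neg hx]
      have hxz : x ≠ z := fun h0 => hx (by rw [h0])
      have hxb : x ≠ bar z := fun h0 => hx (by rw [h0, bar_fst])
      have i1 : ¬ (A x = true ∧ A₀ x = true) := by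
        rintro ⟨h1, h2⟩
        apply nI
        refine ⟨⟨z, x, hxz.symm, by simp [hA.1, hA₀.1], by simp [h1, h2]⟩,
          ⟨bar z, x₁, hx₁b.symm, by simp [hA.2.1], by simp [a2.2]⟩⟩
      have i2 : ¬ (A x = false ∧ A₀ x = false) := by
        rintro ⟨h1, h2⟩
        apply nJ
        refine ⟨⟨z, x₂, hx₂z.symm, by simp [hA.1], by simp [a1.1]⟩,
          ⟨bar z, x, hxb.symm, by simp [hA.2.1, hA₀.2.1], by simp [h1, h2]⟩⟩
      revert i1 i2
      cases A x <;> cases A₀ x <;> simp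
  rw [hopp] at hA hn ⊢
  exact x0 E hA₀ hA hn₀ hn hX₀

theorem nb' {n : ℕ} {V : CC} (E : EqP n P V) {z : Fin 3 × Bool} {Q : Ct} (hQ : LP P V z Q)
    (hn : Ntr Q) (h : CrP n P (act (wh z Q) V) z) : VP n P V Q := by
  obtain ⟨h1, h2⟩ := Lv_inv hQ
  have h1' : LP P (act (wh z Q) V) (bar z) (stc Q z) := h1
  have h2' : act (wh (bar z) (stc Q z)) (act (wh z Q) V) = V := h2
  have hst : stc (stc Q z) (bar z) = Q := funext fun x => EvNB_stc_stc hQ.1 hQ.2.1 x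
  have hN : Ntr (stc Q z) := by
    apply EvNB_Ntr (z := bar z) (EvNB_stc_bar Q z)
    · rw [bar_bar]
      exact EvNB_stc_z Q z
    · rw [hst]
      exact hn
  have h3 := nb (E.lv hQ) (crs_bar h) h1' hN
  rw [h2', hst] at h3
  exact h3

theorem crs_pair {n : ℕ} {V : CC} (E : EqP n P V) {z : Fin 3 × Bool} (h : CrP n P V z) :
    VP n P V (PrC z.1) := by
  obtain ⟨A, hA, hN, -⟩ := crs_ntr h
  refine ⟨A, ((Lv_NC E).1 hA).2.2, ?_⟩
  obtain ⟨u, hu, hu'⟩ := (EvNB_two hN z).1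
  obtain ⟨v, hv, hv'⟩ := (EvNB_two hN (bar z)).2
  have hu1 : u.1 ≠ z.1 := by
    intro h0
    rcases EvNB_fst h0 with h1 | h1
    · exact hu h1
    · rw [h1, hA.2.1] at hu'
      exact Bool.false_ne_true hu'
  have hv1 : v.1 ≠ z.1 := by
    intro h0
    rcases EvNB_fst h0 with h1 | h1
    · rw [h1, hA.1] at hv'
      exact Bool.false_ne_true hv'.symm
    · exact hv h1
  exact ⟨⟨z, hA.1, by simp [PrC]⟩, ⟨u, hu', by simp [PrC, hu1]⟩,
    ⟨bar z, hA.2.1, by simp [PrC]⟩, ⟨v, hv', by simp [PrC, hv1]⟩⟩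

end Pw

end Pool.Agent.Sims
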