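import Pool.Agent.Sims.RtId
import Pool.Agent.Sims.RtIs

/-!
# Module `RtI` : port of `EvI`
-/

namespace Pool.Agent.Sims

namespace Pw

open FreeGroup (of)

variable {P : Fin 3 → Prop}

/-- the main case: `z`, `z⁻¹` outside of `B` -/
theorem EvI_main {n : ℕ} {V : CC} (E : EqP n P V) {y z : Fin 3 × Bool} {B : Ct} (hB : LP P V y B)
    (hyz : y.1 ≠ z.1) (hz : B z = false) (hz' : B (bar z) = false) (h : CrP n P V z) :
    CrP n P (act (wh y B) V) z := by
  -- the complementary use of `crs_disj`
  have hsup : ∀ A : Ct, LP P V z A → (∀ x, B x = true → A x = true) →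
      VP n P (act (wh z A) V) (stc A z) → CrP n P (act (wh y B) V) z := by
    intro A hA hs hV
    have hA2 := Lv_compl hA
    have h1 : VP n P (act (wh (bar z) (fun x => !A x)) V) (stc (fun x => !A x) (bar z)) := by
      rw [hA2.2, VX_congr (fun x => stc_compl (A := A) (z := z) x), VX_compl]
      exact hV
    have h2 : CrP n P (act (wh y B) V) (bar z) := by
      refine crs_disj E hB (by rw [bar_fst]; exact hyz) hz' (by rw [bar_bar]; exact hz) hA2.1 ?_ h1
      intro x hx
      by_contra hc
      simp only [Bool.not_eq_false] at hc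
      have := hs x hc
      simp [this] at hx
    have h3 := crs_bar h2
    rw [bar_bar] at h3
    exact h3
  obtain ⟨A, hA, hAn, hAV⟩ := crs_ntr h
  have hAz : A z = true := hA.1
  have hAz' : A (bar z) = false := hA.2.1
  by_cases hX : Crossg A B
  · have hNA := ((Lv_NC E).1 hA).2.2
    have hNB := ((Lv_NC E).1 hB).2.2
    obtain ⟨-, g1, -, -, g2⟩ := f1 E hNA hNB hX
    have hL1 : LP P V z (fun x => A x && !B x) := (Lv_NC E).2 ⟨by simp [hAz, hz], by simp [hAz'], g1⟩
    have hL2 : LP P V z (fun x => A x || B x) := (Lv_NC E).2 ⟨by simp [hAz], by simp [hAz', hz'], g2⟩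
    by_cases hn1 : Ntr (fun x => A x && !B x)
    · refine crs_disj E hB hyz hz hz' hL1 ?_ (nb E h hL1 hn1)
      intro x hx
      simp only [Bool.and_eq_true, Bool.not_eq_true'] at hx
      exact hx.2
    · by_cases hn2 : Ntr (fun x => A x || B x)
      · refine hsup _ hL2 ?_ (nb E h hL2 hn2)
        intro x hx
        simp [hx]
      · exfalso
        have hby : B (bar y) = false := hB.2.1
        have hbyz : bar y ≠ z := fun h => hyz (by rw [← h]; rfl)
        have hbybz : bar y ≠ bar z := fun h => hyz (by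
          have := congrArg Prod.fst h
          exact this)
        obtain ⟨u, hu1, hu2⟩ := hX.1
        have huz' : u ≠ bar z := fun h => by rw [h, hAz'] at hu1; exact Bool.false_ne_true hu1
        by_cases hAy : A (bar y) = true
        · -- `A₁` contains `z` and `y⁻¹`; its complement contains `z⁻¹` and `u`
          apply hn1
          refine ⟨⟨z, bar y, Ne.symm hbyz, by simp [hAz, hz], by simp [hAy, hby]⟩,
            ⟨bar z, u, Ne.symm huz', by simp [hAz'], by simp [hu2]⟩⟩
        · simp only [Bool.not_eq_true] at hAy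
          -- `A₂` contains `z` and `u`; its complement contains `z⁻¹` and `y⁻¹`
          have huz : u ≠ z := fun h => by rw [h, hz] at hu2; exact Bool.false_ne_true hu2
          apply hn2
          refine ⟨⟨z, u, Ne.symm huz, by simp [hAz], by simp [hu1]⟩,
            ⟨bar z, bar y, Ne.symm hbybz, by simp [hAz', hz'], by simp [hAy, hby]⟩⟩
  · rcases not_Crossg hX with h1 | h1 | h1 | h1
    · exact crs_disj E hB hyz hz hz' hA h1 hAV
    · have := h1 z hAz
      rw [hz] at this
      exact absurd this Bool.false_ne_true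
    · exact hsup A hA h1 hAV
    · rcases h1 (bar z) with h2 | h2
      · rw [hAz'] at h2
        exact absurd h2 Bool.false_ne_true
      · rw [hz'] at h2
        exact absurd h2 Bool.false_ne_true

/-- the case `z ∉ B` -/
theorem EvI_out {n : ℕ} {V : CC} (E : EqP n P V) {y z : Fin 3 × Bool} {B : Ct} (hB : LP P V y B)
    (hyz : y.1 ≠ z.1) (hn : Ntr B) (hz : B z = false) (h : CrP n P V z) :
    CrP n P (act (wh y B) V) z := by
  cases hz' : B (bar z) with
  | false => exact EvI_main E hB hyz hz hz' h
  | true => exact crs_sep E hB hyz hn hz hz' h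

theorem crs_inv' {n : ℕ} {V : CC} (E : EqP n P V) {y z : Fin 3 × Bool} {B : Ct} (hB : LP P V y B)
    (hyz : y.1 ≠ z.1) (h : CrP n P V z) : CrP n P (act (wh y B) V) z := by
  by_cases hn : Ntr B
  · cases hz : B z with
    | false => exact EvI_out E hB hyz hn hz h
    | true =>
      have hB2 := Lv_compl hB
      rw [← hB2.2]
      exact EvI_out E hB2.1 (by rw [bar_fst]; exact hyz) (Ntr_compl hn) (by simp [hz]) h
  · rw [Lv_ntr hB hn]
    exact h

theorem crs_inv {n : ℕ} {V : CC} (E : EqP n P V) {y z : Fin 3 × Bool} {B : Ct} (hB : LP P V y B)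
    (hyz : y.1 ≠ z.1) : CrP n P (act (wh y B) V) z ↔ CrP n P V z := by
  constructor
  · intro h
    have h1 := Lv_inv hB
    have h2 := crs_inv' (E.lv hB) h1.1 (by rw [bar_fst]; exact hyz) h
    rw [h1.2] at h2
    exact h2
  · exact crs_inv' E hB hyz

theorem crs_em {n : ℕ} {V W : CC} (E : EqP n P V) {M : Fin 3 → Prop} {z : Fin 3 × Bool}
    (hM : ¬ M z.1) (hW : W ∈ EP P M V) : CrP n P W z ↔ CrP n P V z := by
  have h : Relation.ReflTransGen (StP P M) V W := hW
  have key : EqP n P W ∧ (CrP n P W z ↔ CrP n P V z) := by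
    induction h with
    | refl => exact ⟨E, Iff.rfl⟩
    | tail hab hbc ih =>
      obtain ⟨y, A, hy, hA, rfl⟩ := hbc
      have ih' := ih hab
      refine ⟨ih'.1.lv hA, ?_⟩
      rw [crs_inv ih'.1 hA (fun h => hM (h ▸ hy))]
      exact ih'.2
  exact key.2

end Pw

end Pool.Agent.Sims
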