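import Pool.Agent.Sims.EvAlg
import Pool.Agent.Sims.RtNB

/-!
# Module `RtUe` : port of `EvUe`
-/

namespace Pool.Agent.Sims

namespace Pw

open FreeGroup (of)

variable {P : Fin 3 → Prop}

theorem exch_same {n : ℕ} {W : CC} (E : EqP n P W) {z y : Fin 3 × Bool} {A B : Ct} (hA : LP P W z A)
    (hu : ¬ VP n P (act (wh z A) W) (stc A z)) (hB : LP P (act (wh z A) W) y B) (hyz : y.1 = z.1) :
    ∃ A', LP P W z A' ∧ act (wh y B) (act (wh z A) W) = act (wh z A') W := by
  have hzb : bar z ≠ z := bar_ne z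
  obtain ⟨B', hB', hBe⟩ : ∃ B', LP P (act (wh z A) W) (bar z) B' ∧
      act (wh (bar z) B') (act (wh z A) W) = act (wh y B) (act (wh z A) W) := by
    rcases EvUe_eq_of_fst hyz with h | h
    · subst h
      obtain ⟨h1, h2⟩ := Lv_compl hB
      exact ⟨_, h1, h2⟩
    · subst h
      exact ⟨B, hB, rfl⟩
  rw [← hBe]
  have hcnt : ∀ i, cnt (act (wh (bar z) B') (act (wh z A) W)) i = cnt W i := by
    intro i
    rw [(Lv_Sm (LP_Lv hB')).2, (Lv_Sm (LP_Lv hA)).2]
  have hBz' : B' (bar z) = true := hB'.1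
  have hBz : B' z = false := by
    have := hB'.2.1
    rwa [bar_bar] at this
  have hnc : NP n P (act (wh z A) W) B' := ((Lv_NC (E.lv hA)).1 hB').2.2
  rcases not_Crossg (nest_unc hnc hu) with h | h | h | h
  · have := h (bar z) hBz'
    rw [EvUe_stc_bar] at this
    exact absurd this (by simp)
  · have hsub : ∀ x, x.1 ≠ z.1 → B' x = true → A x = true := by
      intro x hx hb
      have := h x hb
      rwa [EvUe_stc_ne hx] at this
    have key := wh_two1 z A B' hBz hBz' hsub W
    have hz1 : (fun x => decide (x = z) || (A x && !B' x)) z = true := by simp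
    have hz2 : (fun x => decide (x = z) || (A x && !B' x)) (bar z) = false := by
      simp [hzb, hA.2.1]
    refine ⟨_, ⟨hz1, hz2, ?_, ?_⟩, key⟩
    · rw [← cnt_wh_self W z _ hz1 hz2, ← key, hcnt]
    · intro i hi
      simp [(fun b => (P_ne (LP_fst hA) hi b).1), hA.2.2.2 i hi, hB'.2.2.2 i hi]
  · have hsub : ∀ x, x.1 ≠ z.1 → A x = true → B' x = true := by
      intro x hx hb
      exact h x (by rw [EvUe_stc_ne hx]; exact hb)
    have key := wh_two2 z A B' hBz hBz' hsub W
    set C : Ct := fun x => decide (x = bar z) || (B' x && (!A x && decide (x.1 ≠ z.1))) with hC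
    have hz1 : C (bar z) = true := by simp [hC]
    have hz2 : C (bar (bar z)) = false := by
      rw [bar_bar]
      simp [hC, hzb.symm]
    have hL : LP P W (bar z) C := by
      refine ⟨hz1, hz2, ?_, ?_⟩
      · rw [← cnt_wh_self W (bar z) C hz1 hz2, ← key, hcnt]
      · intro i hi
        simp [hC, (fun b => (P_ne (LP_fst hA) hi b).2), hA.2.2.2 i hi, hB'.2.2.2 i hi]
    obtain ⟨h1, h2⟩ := Lv_compl hL
    rw [bar_bar] at h1 h2
    exact ⟨_, h1, by rw [key, h2]⟩
  · rcases h z with h1 | h1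
    · rw [hBz] at h1
      exact absurd h1 (by simp)
    · rw [EvUe_stc_self] at h1
      exact absurd h1 (by simp)

theorem EvUe_level {n : ℕ} {W R : CC} (E : EqP n P W) (hR : ∀ i, ¬ P i → cnt R i = n) {σ : SPerm (Fin 3)}
    {z' y' : Fin 3 × Bool} {A' B' : Ct} (hzy : z'.1 ≠ y'.1) (hy : ¬ P y'.1) (hz : ¬ P z'.1) (hA : PF P A') (hB : PF P B')
    (hσ : ∀ i, ¬ P i → ¬ P (σ.perm i)) (h1 : B' y' = true)
    (h2 : B' (bar y') = false) (h3 : A' z' = true) (h4 : A' (bar z') = false)
    (he : R = act σ.aut (act (wh z' A') (act (wh y' B') W))) :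
    LP P W y' B' ∧ LP P (act (wh y' B') W) z' A' := by
  have hX : ∀ i, ¬ P i → cnt (act (wh z' A') (act (wh y' B') W)) i = n := by
    intro i hi
    rw [← cnt_SPerm σ, ← he]
    exact hR _ (hσ i hi)
  have e1 : capC W B' = n := by
    rw [← cnt_wh_self W y' B' h1 h2, ← cnt_wh_ne (act (wh y' B') W) z' A' (Ne.symm hzy)]
    exact hX _ hy
  have e2 : capC (act (wh y' B') W) A' = n := by
    rw [← cnt_wh_self _ z' A' h3 h4]
    exact hX _ hz
  refine ⟨⟨h1, h2, ?_, hB⟩, h3, h4, ?_, hA⟩
  · rw [e1, E.c _ hy]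
  · rw [e2, cnt_wh_ne W y' B' hzy, E.c _ hz]

theorem EvUe_core {n : ℕ} {W : CC} (E : EqP n P W) {z y : Fin 3 × Bool} {A B : Ct} (hA : LP P W z A)
    (hB : LP P (act (wh z A) W) y B) (hyz : y.1 ≠ z.1)
    (hd : ∀ x, B x = true → stc A z x = false) :
    ∃ (σ : SPerm (Fin 3)) (z' y' : Fin 3 × Bool) (A' B' : Ct), z'.1 = z.1 ∧ y'.1 = y.1 ∧
      LP P W y' B' ∧ LP P (act (wh y' B') W) z' A' ∧
      (∀ x : Fin 3 × Bool, x.1 ≠ z.1 → x.1 ≠ y.1 → σ.letter x = x) ∧
      act (wh y B) (act (wh z A) W) = act σ.aut (act (wh z' A') (act (wh y' B') W)) := by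
  have hzy : z.1 ≠ y.1 := Ne.symm hyz
  have hR : ∀ i, ¬ P i → cnt (act (wh y B) (act (wh z A) W)) i = n := ((E.lv hA).lv hB).c
  have hyP : ¬ P y.1 := LP_fst hB
  have hzP : ¬ P z.1 := LP_fst hA
  have hAP := hA.2.2.2
  have hBP := hB.2.2.2
  have hyz' : y ≠ z := fun h => hyz (by rw [h])
  have hbz : B (bar z) = false := by
    cases h : B (bar z)
    · rfl
    · have := hd _ h
      rw [EvUe_stc_bar] at this
      exact absurd this (by simp)
  have hAB : ∀ x, A x = true → B x = true → x = z := by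
    intro x h1 h2
    by_contra hne
    have h3 := hd x h2
    simp [stc, h1, hne] at h3
  have hAy : A y = false := by
    cases h : A y
    · rfl
    · exact absurd (hAB y h hB.1) hyz'
  obtain ⟨π, hπ, hπl⟩ := EvUe_one
  have hπP : ∀ i, ¬ P i → ¬ P (π.perm i) := by
    intro i hi
    have h1 : π.perm i = i := congrArg Prod.fst (hπl (i, true))
    rw [h1]
    exact hi
  have hsw : ∀ i, ¬ P i → ¬ P ((Rel_swapPerm z y).perm i) := by
    intro i hi h
    exact hi ((P_swap hzP hyP i).2 h)
  have hor : PF P (fun x => A x || B x) := PF_or hAP hBP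
  by_cases hz : B z = true
  · by_cases hy : A (bar y) = true
    · have key := wh_1b z y hzy A B hA.1 hA.2.1 hB.1 hB.2.1 hz hbz hAB hy W
      have hz1 : (fun x => A x || B x) z = true := by simp [hA.1]
      have hz2 : (fun x => A x || B x) (bar z) = false := by simp [hA.2.1, hbz]
      have hy2 : A (bar (bar y)) = false := by rw [bar_bar]; exact hAy
      obtain ⟨l1, l2⟩ := EvUe_level E hR (z' := z) (y' := bar y) hzy hyP hzP hor hAP hsw
        hy hy2 hz1 hz2 key
      exact ⟨_, z, bar y, _, A, rfl, rfl, l1, l2, fun x h1 h2 => Rel_swapPerm_ne z y x h1 h2, key⟩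
    · have hy' : A (bar y) = false := by simpa using hy
      have key := wh_1a z y hzy A B hA.1 hA.2.1 hB.1 hB.2.1 hz hbz hAB hy' W
      have h1 : (fun x => A x || B x) y = true := by simp [hB.1]
      have h2 : (fun x => A x || B x) (bar y) = false := by simp [hB.2.1, hy']
      have key' := key.trans (hπ _).symm
      obtain ⟨l1, l2⟩ := EvUe_level E hR (z' := z) (y' := y) hzy hyP hzP hAP hor hπP
        h1 h2 hA.1 hA.2.1 key'
      exact ⟨π, z, y, A, _, rfl, rfl, l1, l2, fun x _ _ => hπl x, key'⟩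
  · have hz' : B z = false := by simpa using hz
    have hAB1 : ∀ x, A x = true → B x = false := by
      intro x h
      cases h1 : B x
      · rfl
      · have := hAB x h h1
        rw [this, hz'] at h1
        exact absurd h1 (by simp)
    have hAB2 : ∀ x, B x = true → A x = false := by
      intro x h
      cases h1 : A x
      · rfl
      · have := hAB1 x h1
        rw [h] at this
        exact absurd this (by simp)
    by_cases hy : A (bar y) = true
    · have key := (act_wh_comm' y z hyz B A hB.1 hB.2.1 hA.1 hA.2.1 hAB2 hy hbz W).symm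
      have h1 : (fun x => A x || (B x && decide (x ≠ y))) z = true := by simp [hA.1]
      have h2 : (fun x => A x || (B x && decide (x ≠ y))) (bar z) = false := by
        simp [hA.2.1, hbz]
      have key' := key.trans (hπ _).symm
      obtain ⟨l1, l2⟩ := EvUe_level E hR (z' := z) (y' := y) hzy hyP hzP (by
        intro i hi
        simp [(fun b => (P_ne hyP hi b).1), hAP i hi, hBP i hi]) hBP hπP hB.1 hB.2.1 h1 h2 key'
      exact ⟨π, z, y, _, B, rfl, rfl, l1, l2, fun x _ _ => hπl x, key'⟩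
    · have hy' : A (bar y) = false := by simpa using hy
      have key := act_wh_comm z y hzy A B hA.1 hA.2.1 hB.1 hB.2.1 hAB1 hbz hy' W
      have key' := key.trans (hπ _).symm
      obtain ⟨l1, l2⟩ := EvUe_level E hR (z' := z) (y' := y) hzy hyP hzP hAP hBP hπP
        hB.1 hB.2.1 hA.1 hA.2.1 key'
      exact ⟨π, z, y, A, B, rfl, rfl, l1, l2, fun x _ _ => hπl x, key'⟩

theorem exch_diff {n : ℕ} {W : CC} (E : EqP n P W) {z y : Fin 3 × Bool} {A B : Ct} (hA : LP P W z A)
    (hu : ¬ VP n P (act (wh z A) W) (stc A z)) (hB : LP P (act (wh z A) W) y B) (hyz : y.1 ≠ z.1) :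
    ∃ (σ : SPerm (Fin 3)) (z' y' : Fin 3 × Bool) (A' B' : Ct), z'.1 = z.1 ∧ y'.1 = y.1 ∧
      LP P W y' B' ∧ LP P (act (wh y' B') W) z' A' ∧
      (∀ x : Fin 3 × Bool, x.1 ≠ z.1 → x.1 ≠ y.1 → σ.letter x = x) ∧
      act (wh y B) (act (wh z A) W) = act σ.aut (act (wh z' A') (act (wh y' B') W)) := by
  have hnc : NP n P (act (wh z A) W) B := ((Lv_NC (E.lv hA)).1 hB).2.2
  obtain ⟨cA, cAe⟩ := Lv_compl hA
  obtain ⟨cB, cBe⟩ := Lv_compl hB
  rcases not_Crossg (nest_unc hnc hu) with h | h | h | h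
  · exact EvUe_core E hA hB hyz h
  · have hB' : LP P (act (wh (bar z) (fun x => !A x)) W) y B := by rw [cAe]; exact hB
    have := EvUe_core E cA hB' (by simpa using hyz) (by
      intro x hx
      rw [stc_compl, h x hx]
      rfl)
    rw [cAe] at this
    simpa using this
  · have := EvUe_core E hA cB (by simpa using hyz) (by
      intro x hx
      cases hq : stc A z x
      · rfl
      · rw [h x hq] at hx
        exact absurd hx (by simp))
    rw [cBe] at this
    simpa using this
  · have cB' : LP P (act (wh (bar z) (fun x => !A x)) W) (bar y) (fun x => !B x) := by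
      rw [cAe]; exact cB
    have := EvUe_core E cA cB' (by simpa using hyz) (by
      intro x hx
      rw [stc_compl]
      rcases h x with h1 | h1
      · rw [h1] at hx
        exact absurd hx (by simp)
      · rw [h1]
        rfl)
    rw [cAe, cBe] at this
    simpa using this

end Pw

end Pool.Agent.Sims
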