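import Pool.Agent.Sims.RtB2
import Pool.Agent.Sims.RtUe
import Pool.Agent.Sims.RtI
import Pool.Agent.Sims.EvU

/-!
# Module `RtB3` : moves of an uncrossed single letter can be done last (square letters present)

Notation as in `RtB2`; `i` a letter in `M`, not in `P`, not in `Q`, `¬ CrP n P (sq Q V) (i, true)`; by `Pw.crs_em` (and `sq_bq`) the same holds at all `W₁ ∈ SQ P Q (M ∖ i) V`.
Induction along the path: `W' = act σ.aut (act (wh (i,true) A) W₁)`, `W₁ ∈ SQ P Q (M ∖ i) V`, `A` a level `(i,true)`-cut at `W₁`, fixed on `P` and `Q`; `σ` fixes the letters outside of `M` and the letters of `Q`.  Next step `(B, y)` at `W'`: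
`act (wh y B) W' = act σ.aut (act (wh (σ⁻¹ y) (B ∘ σ)) (act (wh (i,true) A) W₁))` (`act_wh_SPerm`, `TwBasic_SPerm`); `B ∘ σ` is again fixed on `P` and `Q ∖ y`; `M (σ⁻¹ y).1`.  So let `σ = 1`, `W₂ = act (wh (i,true) A) W₁`, `(B, y)` a step at `W₂`,
`S = stc A (i,true)`; at `sq Q W₂ = act (wh (i,true) A) (sq Q W₁)` the cut `S` is not crossed by `NP n P`-cuts.
(1) `y.1 ∉ Q`: then `B` is fixed on `P' = P ∪ Q`; at the level of `sq Q`: `LP P' (sq Q W₂) y B`, `LP P' (sq Q W₁) (i,true) A` (`pw_cap`, `pw_cnt`), `EqP n P' (sq Q W₁)` (fewer cuts), `S` is not crossed by `NP n P'`-cuts.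
    `y.1 = i`: `Pw.exch_same`; `y.1 ≠ i`: `Pw.exch_diff`: `= act σ.aut (act (wh z' A') (act (wh y' B') (sq Q W₁)))`, with `A'`, `B'` `P'`-fixed.  Back to `W₁`: `pw_wh`, `pw_SPerm` (`σ` fixes the letters `x.1 ≠ i, y.1`, in particular those of `Q`) and `pw_inj`
    (all counts are positive: hypothesis `hc`).  A `z'`-cut with `z' = (i,false)` is replaced by its complement (`Lv_compl`).
(2) `y.1 = k ∈ Q` (so `k ≠ i`): `sq Q (act (wh y B) W₂) = act (pot k (2 whp y B)) (sq Q W₂)`; by `Pw.pot_split` also `act (pot k (whp y B)) (sq Q W₂)` has count `n` of `k`, so `B` has capacity `n` at `sq Q W₂` and is `P`-fixed: `NP n P (sq Q W₂) B`, so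
    `B` does not cross `S`.  `A` is fixed on `k`; replacing `((i,true), A)` by `((i,false), Aᶜ)` we may assume `y, y⁻¹ ∉ A` (so `y, y⁻¹ ∉ S`; write `z` for `(i,true)` or `(i,false)`).  By `not_Crossg` (`y ∈ B ∖ S`, `y⁻¹` outside of both)
    `B ∧ S = ∅` or `S ⊆ B`; in the second case replace `(y, B)` by `(y⁻¹, Bᶜ)`.  So `B ∧ S = ∅`: `z⁻¹ ∉ B`, `A ∧ B ⊆ {z}`.
    If `z ∉ B`: `act_wh_comm` (at the level of `W₁`): `act (wh y B) (act (wh z A) W₁) = act (wh z A) (act (wh y B) W₁)`.  If `z ∈ B`: `wh_1a` (as in `EvUe` (γ)): `= act (wh z A) (act (wh y (A ∪ B)) W₁)`.  In both cases the cut `B' = B` or `A ∪ B`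
    is `P`-fixed and fixed on `Q ∖ k`; the moves are level: the counts of `k` and of `i` do not change in the total, `cnt_wh_ne`, `cnt_wh_self`.  `σ = 1`.
Difficulty 4.
-/

namespace Pool.Agent.Sims

/-- the exponents of the substitution `sq Q` -/
def RtB3_e (Q : Fin 3 → Bool) : Fin 3 → ℕ := fun i => if Q i then 2 else 1

theorem RtB3_he (Q : Fin 3 → Bool) : ∀ i, 1 ≤ RtB3_e Q i := by
  intro i
  unfold RtB3_e
  split <;> omega

theorem RtB3_e1 {Q : Fin 3 → Bool} {i : Fin 3} (h : Q i = false) : RtB3_e Q i = 1 := by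
  simp [RtB3_e, h]

theorem RtB3_ene {Q : Fin 3 → Bool} {i : Fin 3} (h : RtB3_e Q i ≠ 1) : Q i = true := by
  by_contra hc
  simp only [Bool.not_eq_true] at hc
  exact h (RtB3_e1 hc)

/-- a `z`-cut which is fixed on the square letters: capacity -/
theorem RtB3_cap {Q : Fin 3 → Bool} {V : CC} {A : Ct}
    (hA : ∀ k, Q k = true → A (k, true) = A (k, false)) : capC (sq Q V) A = capC V A := by
  have h := pw_cap (RtB3_he Q) V A
  have h0 : (∑ i : Fin 3, (if A (i, true) = A (i, false) then 0 else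
      (RtB3_e Q i - 1) * cnt V i)) = 0 := by
    apply Finset.sum_eq_zero
    intro i _
    by_cases hq : Q i = true
    · rw [if_pos (hA i hq)]
    · simp only [Bool.not_eq_true] at hq
      rw [RtB3_e1 hq]
      simp
  rw [h0, add_zero] at h
  exact h

theorem RtB3_cnt {Q : Fin 3 → Bool} {V : CC} {i : Fin 3} (hQ : Q i = false) :
    cnt (sq Q V) i = cnt V i := by
  have h := pw_cnt (RtB3_he Q) V i
  rw [RtB3_e1 hQ, one_mul] at h
  exact h

theorem RtB3_cnt2 {Q : Fin 3 → Bool} {V : CC} {i : Fin 3} (hQ : Q i = true) :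
    cnt (sq Q V) i = 2 * cnt V i := by
  have h := pw_cnt (RtB3_he Q) V i
  have h1 : RtB3_e Q i = 2 := by simp [RtB3_e, hQ]
  rw [h1] at h
  exact h

/-- moves of a letter outside of `Q` along a `Q`-fixed cut -/
theorem RtB3_wh {Q : Fin 3 → Bool} {z : Fin 3 × Bool} {A : Ct} (hz : Q z.1 = false)
    (hA : ∀ k, Q k = true → A (k, true) = A (k, false)) (V : CC) :
    sq Q (act (wh z A) V) = act (wh z A) (sq Q V) :=
  pw_wh (e := RtB3_e Q) (RtB3_e1 hz) (fun k _ hk => hA k (RtB3_ene hk)) V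

theorem RtB3_QF {Q : Fin 3 → Bool} {i : Fin 3} {A : Ct} (hQ : Q i = false) (h : QF Q i A) :
    ∀ k, Q k = true → A (k, true) = A (k, false) := by
  intro k hk
  apply h k hk
  rintro rfl
  rw [hQ] at hk
  exact Bool.false_ne_true hk

/-- the world where also the square letters are fixed -/
def RtB3_P (P : Fin 3 → Prop) (Q : Fin 3 → Bool) : Fin 3 → Prop := fun k => P k ∨ Q k = true

theorem RtB3_PF {P : Fin 3 → Prop} {Q : Fin 3 → Bool} {A : Ct} :
    PF (RtB3_P P Q) A ↔ (PF P A ∧ ∀ k, Q k = true → A (k, true) = A (k, false)) := by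
  constructor
  · intro h
    exact ⟨fun k hk => h k (Or.inl hk), fun k hk => h k (Or.inr hk)⟩
  · rintro ⟨h1, h2⟩ k (hk | hk)
    · exact h1 k hk
    · exact h2 k hk

theorem RtB3_E {n : ℕ} {P : Fin 3 → Prop} {Q : Fin 3 → Bool} {V : CC} (E : EqP n P V) :
    EqP n (RtB3_P P Q) V :=
  ⟨E.h4, fun i hi => E.c i (fun h => hi (Or.inl h)),
    fun hA => E.low ⟨hA.1, (RtB3_PF.1 hA.2).1⟩⟩

theorem RtB3_VP {n : ℕ} {P : Fin 3 → Prop} {Q : Fin 3 → Bool} {V : CC} {S : Ct}
    (h : VP n (RtB3_P P Q) V S) : VP n P V S := by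
  obtain ⟨C, hC, hX⟩ := h
  exact ⟨C, ⟨⟨hC.1.1, (RtB3_PF.1 hC.1.2).1⟩, hC.2⟩, hX⟩

/-- level cuts of letters outside of `Q` -/
theorem RtB3_LP {P : Fin 3 → Prop} {Q : Fin 3 → Bool} {V : CC} {z : Fin 3 × Bool} {A : Ct}
    (hz : Q z.1 = false) :
    LP (RtB3_P P Q) (sq Q V) z A ↔ (Lv V z A ∧ PF P A ∧ QF Q z.1 A) := by
  constructor
  · intro h
    obtain ⟨h1, h2⟩ := RtB3_PF.1 h.2.2.2
    refine ⟨⟨h.1, h.2.1, ?_⟩, h1, fun k hk _ => h2 k hk⟩
    have h3 := h.2.2.1
    rw [RtB3_cap h2, RtB3_cnt hz] at h3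
    exact h3
  · rintro ⟨h1, h2, h3⟩
    have h4 := RtB3_QF hz h3
    refine ⟨h1.1, h1.2.1, ?_, RtB3_PF.2 ⟨h2, h4⟩⟩
    rw [RtB3_cap h4, RtB3_cnt hz]
    exact h1.2.2

/-- back from the squares -/
theorem RtB3_inj {Q : Fin 3 → Bool} {V W : CC} (hV : ∀ i, 0 < cnt V i) (hW : ∀ i, 0 < cnt W i)
    (h : sq Q V = sq Q W) : V = W := pw_inj (RtB3_he Q) hV hW h

theorem RtB3_SPerm {Q : Fin 3 → Bool} {σ : SPerm (Fin 3)} {i j : Fin 3} (hi : Q i = false)
    (hj : Q j = false) (hσ : ∀ x : Fin 3 × Bool, x.1 ≠ i → x.1 ≠ j → σ.letter x = x) (V : CC) :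
    sq Q (act σ.aut V) = act σ.aut (sq Q V) := by
  have hfix : ∀ k, k ≠ i → k ≠ j → σ.perm k = k := by
    intro k h1 h2
    exact congrArg Prod.fst (hσ (k, true) h1 h2)
  have hQ : ∀ k, Q k = true → σ.perm k = k := by
    intro k hk
    apply hfix k
    · rintro rfl
      rw [hi] at hk
      exact Bool.false_ne_true hk
    · rintro rfl
      rw [hj] at hk
      exact Bool.false_ne_true hk
  apply pw_SPerm
  intro k
  have key : Q (σ.perm k) = Q k := by
    cases hk : Q k with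
    | true => rw [hQ k hk, hk]
    | false =>
      cases hk' : Q (σ.perm k) with
      | false => rfl
      | true =>
        have h1 := hQ _ hk'
        have h2 := σ.perm.injective h1
        rw [h2, hk] at hk'
        exact hk'.symm
  simp only [key]

/-- the exchange with a move of a square letter: the normalised case -/
theorem RtB3_core {U : CC} {z y : Fin 3 × Bool} {A B : Ct} (hzy : z.1 ≠ y.1) (hA : Lv U z A)
    (hB : Lv (act (wh z A) U) y B) (hAy' : A (bar y) = false)
    (hd : ∀ x, B x = true → stc A z x = false) :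
    ∃ B' : Ct, (B' = B ∨ B' = fun x => A x || B x) ∧ Lv U y B' ∧ Lv (act (wh y B') U) z A ∧
      act (wh y B) (act (wh z A) U) = act (wh z A) (act (wh y B') U) := by
  have hbz : B (bar z) = false := by
    cases h : B (bar z)
    · rfl
    · have := hd _ h
      rw [EvUe_stc_bar] at this
      exact absurd this (by simp)
  have hAB : ∀ x, A x = true → B x = true → x = z := by
    intro x h1 h2
    by_contra hne
    have h3 := hd x h2
    simp [stc, h1, hne] at h3
  have hcnt : ∀ i, cnt (act (wh y B) (act (wh z A) U)) i = cnt U i := by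
    intro i
    rw [(Lv_Sm hB).2, (Lv_Sm hA).2]
  have hlev : ∀ B' : Ct, B' y = true → B' (bar y) = false →
      act (wh y B) (act (wh z A) U) = act (wh z A) (act (wh y B') U) →
      Lv U y B' ∧ Lv (act (wh y B') U) z A := by
    intro B' h1 h2 he
    have e1 : capC U B' = cnt U y.1 := by
      rw [← cnt_wh_self U y B' h1 h2, ← cnt_wh_ne (act (wh y B') U) z A (Ne.symm hzy), ← he,
        hcnt]
    have e2 : capC (act (wh y B') U) A = cnt (act (wh y B') U) z.1 := by
      rw [← cnt_wh_self _ z A hA.1 hA.2.1, ← he, hcnt, cnt_wh_ne U y B' hzy]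
    exact ⟨⟨h1, h2, e1⟩, hA.1, hA.2.1, e2⟩
  cases hz : B z with
  | true =>
    have key := wh_1a z y hzy A B hA.1 hA.2.1 hB.1 hB.2.1 hz hbz hAB hAy' U
    obtain ⟨l1, l2⟩ := hlev (fun x => A x || B x) (by simp [hB.1]) (by simp [hB.2.1, hAy']) key
    exact ⟨_, Or.inr rfl, l1, l2, key⟩
  | false =>
    have hAB1 : ∀ x, A x = true → B x = false := by
      intro x h
      cases h1 : B x
      · rfl
      · have := hAB x h h1
        rw [this, hz] at h1
        exact absurd h1 (by simp)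
    have key := act_wh_comm z y hzy A B hA.1 hA.2.1 hB.1 hB.2.1 hAB1 hbz hAy' U
    obtain ⟨l1, l2⟩ := hlev B hB.1 hB.2.1 key
    exact ⟨B, Or.inl rfl, l1, l2, key⟩

/-- the exchange with a move of a square letter: `y, y⁻¹` outside of `A` -/
theorem RtB3_core2 {P : Fin 3 → Prop} {Q : Fin 3 → Bool} {U : CC} {z y : Fin 3 × Bool} {A B : Ct}
    (hzy : z.1 ≠ y.1) (hA : Lv U z A) (hPA : PF P A) (hQA : QF Q z.1 A) (hz : Q z.1 = false)
    (hB : Lv (act (wh z A) U) y B) (hPB : PF P B) (hQB : QF Q y.1 B)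
    (hAy : A y = false) (hAy' : A (bar y) = false) (hX : ¬ Crossg B (stc A z)) :
    ∃ (y' : Fin 3 × Bool) (B' : Ct), y'.1 = y.1 ∧ Lv U y' B' ∧ PF P B' ∧ QF Q y'.1 B' ∧
      Lv (act (wh y' B') U) z A ∧
      act (wh y B) (act (wh z A) U) = act (wh z A) (act (wh y' B') U) := by
  have hQA' := RtB3_QF hz hQA
  have hyz : y.1 ≠ z.1 := Ne.symm hzy
  -- the disjoint case
  have hdis : ∀ (y : Fin 3 × Bool) (B : Ct), z.1 ≠ y.1 → Lv (act (wh z A) U) y B → PF P B →
      QF Q y.1 B → A (bar y) = false → (∀ x, B x = true → stc A z x = false) →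
      ∃ (B' : Ct), Lv U y B' ∧ PF P B' ∧ QF Q y.1 B' ∧
      Lv (act (wh y B') U) z A ∧
      act (wh y B) (act (wh z A) U) = act (wh z A) (act (wh y B') U) := by
    intro y B hzy hB hPB hQB hAy' hd
    obtain ⟨B', hB', l1, l2, key⟩ := RtB3_core hzy hA hB hAy' hd
    refine ⟨B', l1, ?_, ?_, l2, key⟩
    · rcases hB' with rfl | rfl
      · exact hPB
      · intro k hk
        simp only [hPA k hk, hPB k hk]
    · rcases hB' with rfl | rfl
      · exact hQB
      · intro k hk hk'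
        simp only [hQA' k hk, hQB k hk hk']
  rcases not_Crossg hX with h | h | h | h
  · obtain ⟨B', h1, h2, h3, h4, h5⟩ := hdis y B hzy hB hPB hQB hAy' h
    exact ⟨y, B', rfl, h1, h2, h3, h4, h5⟩
  · have := h y hB.1
    rw [EvUe_stc_ne hyz, hAy] at this
    exact absurd this (by simp)
  · obtain ⟨cB, cBe⟩ := Lv_compl hB
    obtain ⟨B', h1, h2, h3, h4, h5⟩ := hdis (bar y) (fun x => !B x) hzy cB
      (fun k hk => by simp only [hPB k hk]) (fun k hk hk' => by simp only [hQB k hk hk'])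
      (by rw [bar_bar]; exact hAy) (by
        intro x hx
        cases hq : stc A z x
        · rfl
        · rw [h x hq] at hx
          exact absurd hx (by simp))
    refine ⟨bar y, B', rfl, h1, h2, h3, h4, ?_⟩
    rw [← cBe]
    exact h5
  · rcases h (bar y) with h1 | h1
    · rw [hB.2.1] at h1
      exact absurd h1 (by simp)
    · have hyz' : (bar y).1 ≠ z.1 := hyz
      rw [EvUe_stc_ne hyz', hAy'] at h1
      exact absurd h1 (by simp)

/-- the exchange with a move of a square letter -/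
theorem RtB3_sq {n : ℕ} {P : Fin 3 → Prop} {Q : Fin 3 → Bool} {U : CC} {i : Fin 3}
    (B1 : BQ n P Q U) (hi : Q i = false) {A : Ct} (hA : Lv U (i, true) A) (hPA : PF P A)
    (hQA : QF Q i A) (hu : ¬ VP n P (sq Q (act (wh (i, true) A) U)) (stc A (i, true)))
    {y : Fin 3 × Bool} {B : Ct} (hy : Q y.1 = true)
    (hB : Lv (act (wh (i, true) A) U) y B) (hPB : PF P B) (hQB : QF Q y.1 B) :
    ∃ (z y' : Fin 3 × Bool) (A' B' : Ct), z.1 = i ∧ y'.1 = y.1 ∧ Lv U y' B' ∧ PF P B' ∧
      QF Q y'.1 B' ∧ Lv (act (wh y' B') U) z A' ∧ PF P A' ∧ QF Q i A' ∧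
      act (wh y B) (act (wh (i, true) A) U) = act (wh z A') (act (wh y' B') U) := by
  have hyi : y.1 ≠ i := by
    intro h
    rw [h, hi] at hy
    exact Bool.false_ne_true hy
  have hiy : (i, true).1 ≠ y.1 := Ne.symm hyi
  -- `B` is a cut of capacity `n` of the squares
  have hN : NP n P (sq Q (act (wh (i, true) A) U)) B := by
    refine ⟨⟨⟨⟨y, hB.1⟩, ⟨bar y, hB.2.1⟩⟩, hPB⟩, ?_⟩
    have h1 := pw_cap (RtB3_he Q) (act (wh (i, true) A) U) B
    have h2 : (∑ k : Fin 3, (if B (k, true) = B (k, false) then 0 else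
        (RtB3_e Q k - 1) * cnt (act (wh (i, true) A) U) k)) =
        cnt (act (wh (i, true) A) U) y.1 := by
      rw [Finset.sum_eq_single y.1]
      · have hne : B (y.1, true) ≠ B (y.1, false) := by
          obtain ⟨k, b⟩ := y
          have e1 := hB.1
          have e2 := hB.2.1
          cases b
          · change B (k, true) = false at e2
            show B (k, true) ≠ B (k, false)
            rw [e1, e2]
            simp
          · change B (k, false) = false at e2
            show B (k, true) ≠ B (k, false)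
            rw [e1, e2]
            simp
        rw [if_neg hne]
        have : RtB3_e Q y.1 = 2 := by simp [RtB3_e, hy]
        rw [this]
        simp
      · intro k _ hk
        by_cases hq : Q k = true
        · rw [if_pos (hQB k hq hk)]
        · simp only [Bool.not_eq_true] at hq
          rw [RtB3_e1 hq]
          simp
      · intro h
        exact absurd (Finset.mem_univ _) h
    rw [h2, hB.2.2] at h1
    have h3 : cnt (act (wh (i, true) A) U) y.1 = cnt U y.1 := (Lv_Sm hA).2 _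
    have h4 := bq_cnt B1 hy
    have h5 : capC (sq Q (act (wh (i, true) A) U)) B = cnt (act (wh (i, true) A) U) y.1 +
      cnt (act (wh (i, true) A) U) y.1 := h1
    rw [h5, h3]
    omega
  have hX : ¬ Crossg B (stc A (i, true)) := Pw.nest_unc hN hu
  have hAyy : A (bar y) = A y := by
    have := hQA y.1 hy hyi
    obtain ⟨k, b⟩ := y
    cases b
    · exact this
    · exact this.symm
  cases hAy : A y with
  | false =>
    obtain ⟨y', B', h1, h2, h3, h4, h5, h6⟩ := RtB3_core2 (z := (i, true)) hiy hA hPA hQA hi hB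
      hPB hQB hAy (by rw [hAyy, hAy]) hX
    exact ⟨(i, true), y', A, B', rfl, h1, h2, h3, h4, h5, hPA, hQA, h6⟩
  | true =>
    obtain ⟨cA, cAe⟩ := Lv_compl hA
    have hB' : Lv (act (wh (bar (i, true)) (fun x => !A x)) U) y B := by rw [cAe]; exact hB
    have hPA' : PF P (fun x => !A x) := fun k hk => by simp only [hPA k hk]
    have hQA' : QF Q i (fun x => !A x) := fun k hk hk' => by simp only [hQA k hk hk']
    have hX' : ¬ Crossg B (stc (fun x => !A x) (bar (i, true))) := by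
      have : stc (fun x => !A x) (bar (i, true)) = fun x => !(stc A (i, true) x) :=
        funext fun x => stc_compl x
      rw [this]
      rintro ⟨⟨a, a1, a2⟩, ⟨b, b1, b2⟩, ⟨c, c1, c2⟩, ⟨d, d1, d2⟩⟩
      apply hX
      refine ⟨⟨b, b1, ?_⟩, ⟨a, a1, ?_⟩, ⟨d, d1, ?_⟩, ⟨c, c1, ?_⟩⟩
      · simpa using b2
      · simpa using a2
      · simpa using d2
      · simpa using c2
    obtain ⟨y', B', h1, h2, h3, h4, h5, h6⟩ := RtB3_core2 (z := bar (i, true)) hiy cA hPA' hQA'
      hi hB' hPB hQB (by simp [hAy]) (by simp [hAyy, hAy]) hX'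
    rw [cAe] at h6
    exact ⟨bar (i, true), y', _, B', rfl, h1, h2, h3, h4, h5, hPA', hQA', h6⟩

theorem lemUQ {n : ℕ} {P : Fin 3 → Prop} {Q : Fin 3 → Bool} {V : CC} (B : BQ n P Q V)
    (hc : ∀ i, 0 < cnt V i) {M : Fin 3 → Prop} {i : Fin 3} (hi : M i) (hMP : ∀ k, M k → ¬ P k)
    (hQ : Q i = false) (hr : ¬ CrP n P (sq Q V) (i, true)) {W : CC} (hW : W ∈ SQ P Q M V) :
    ∃ (σ : SPerm (Fin 3)) (W1 : CC) (A : Ct), W1 ∈ SQ P Q (fun j => M j ∧ j ≠ i) V ∧
      Lv W1 (i, true) A ∧ PF P A ∧ QF Q i A ∧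
      (∀ x : Fin 3 × Bool, (¬ M x.1 ∨ Q x.1 = true) → σ.letter x = x) ∧
      W = act σ.aut (act (wh (i, true) A) W1) := by
  have h1 : Relation.ReflTransGen (StQ P Q M) V W := hW
  clear hW
  induction h1 with
  | refl =>
    have hπ' : ∀ x : Fin 3 × Bool,
        (⟨Equiv.refl _, fun _ => true⟩ : SPerm (Fin 3)).letter x = x := by
      rintro ⟨i, b⟩
      simp [SPerm.letter]
    have hπ := EvU_act_id _ hπ'
    have hL : Lv V (i, true) (sgl (i, true)) := by
      refine ⟨by simp [sgl], ?_, capC_sgl V _⟩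
      simp only [sgl, decide_eq_false_iff_not]
      exact bar_ne _
    have hf : ∀ k, k ≠ i → sgl (i, true) (k, true) = sgl (i, true) (k, false) := by
      intro k hk
      simp [sgl, hk]
    refine ⟨⟨Equiv.refl _, fun _ => true⟩, V, sgl (i, true), Relation.ReflTransGen.refl, hL,
      ?_, ?_, fun x _ => hπ' x, ?_⟩
    · intro k hk
      apply hf
      rintro rfl
      exact hMP _ hi hk
    · intro k _ hk
      exact hf k hk
    · rw [hπ, Lv_triv]
      intro x hx
      simp only [sgl, decide_eq_false_iff_not]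
      rintro rfl
      exact hx rfl
  | @tail W' W'' _ h3 ih =>
    obtain ⟨σ, W1, A, hW1, hA, hPA, hQA, hσ, rfl⟩ := ih
    obtain ⟨y, C, hy, hC, hPC, hQC, rfl⟩ := h3
    obtain ⟨B1, hEP⟩ := sq_bq B hW1
    have hE1 : EqP n P (sq Q W1) := B1.e
    have hQA' := RtB3_QF hQ hQA
    have hsq2 : sq Q (act (wh (i, true) A) W1) = act (wh (i, true) A) (sq Q W1) :=
      RtB3_wh (z := (i, true)) hQ hQA' W1
    have hLP : LP (RtB3_P P Q) (sq Q W1) (i, true) A :=
      (RtB3_LP (z := (i, true)) hQ).2 ⟨hA, hPA, hQA⟩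
    have hLP' : LP P (sq Q W1) (i, true) A :=
      ⟨hLP.1, hLP.2.1, hLP.2.2.1, hPA⟩
    have hu : ¬ VP n P (act (wh (i, true) A) (sq Q W1)) (stc A (i, true)) :=
      fun hc => hr ((Pw.crs_em B.e (fun h => h.2 rfl) hEP).1 ⟨A, hLP', hc⟩)
    have hc1 : ∀ k, 0 < cnt W1 k := fun k => by rw [SQ_cnt hW1 k]; exact hc k
    -- pull the step back by `σ`
    obtain ⟨hC', hact⟩ := EvU_pull σ hC
    have hσQ : ∀ k, Q k = true → ∀ b, σ.letter (k, b) = (k, b) := fun k hk b =>
      hσ (k, b) (Or.inr hk)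
    have hσP : ∀ k, P k → ∀ b, σ.letter (k, b) = (k, b) := fun k hk b =>
      hσ (k, b) (Or.inl (fun h => hMP k h hk))
    have hMy : M (σ.inv.letter y).1 := by
      by_contra hcc
      have h4 := hσ _ (Or.inl hcc)
      rw [SPerm.letter_inv] at h4
      rw [← h4] at hcc
      exact hcc hy
    have hPC' : PF P (fun x => C (σ.letter x)) := by
      intro k hk
      simp only [hσP k hk]
      exact hPC k hk
    have hQC' : QF Q (σ.inv.letter y).1 (fun x => C (σ.letter x)) := by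
      intro k hk hk'
      simp only [hσQ k hk]
      apply hQC k hk
      rintro rfl
      apply hk'
      have h5 : σ.letter y = y := hσ y (Or.inr hk)
      have h6 : σ.inv.letter y = y := by
        rw [← letter_inj σ, SPerm.letter_inv, h5]
      rw [h6]
    rw [hact]
    generalize σ.inv.letter y = y₁ at *
    generalize (fun x => C (σ.letter x)) = C₁ at *
    have hidl : ∀ x : Fin 3 × Bool,
        (⟨Equiv.refl _, fun _ => true⟩ : SPerm (Fin 3)).letter x = x := by
      rintro ⟨i, b⟩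
      simp [SPerm.letter]
    have fin : ∀ (σ2 : SPerm (Fin 3)) (z' y' : Fin 3 × Bool) (A' B' : Ct), z'.1 = i → M y'.1 →
        y'.1 ≠ i → Lv W1 y' B' → PF P B' → QF Q y'.1 B' → Lv (act (wh y' B') W1) z' A' →
        PF P A' → QF Q i A' →
        (∀ x : Fin 3 × Bool, (¬ M x.1 ∨ Q x.1 = true) → σ2.letter x = x) →
        act (wh y₁ C₁) (act (wh (i, true) A) W1) =
          act σ2.aut (act (wh z' A') (act (wh y' B') W1)) →
        ∃ (σ : SPerm (Fin 3)) (W2 : CC) (A2 : Ct), W2 ∈ SQ P Q (fun j => M j ∧ j ≠ i) V ∧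
          Lv W2 (i, true) A2 ∧ PF P A2 ∧ QF Q i A2 ∧
          (∀ x : Fin 3 × Bool, (¬ M x.1 ∨ Q x.1 = true) → σ.letter x = x) ∧
          act (wh y₁ C₁) (act (wh (i, true) A) W1) = act σ.aut (act (wh (i, true) A2) W2) := by
      intro σ2 z' y' A' B' hz' hMy' hyi' l1 l2 l3 l4 l5 l6 l7 l8
      have hW1' : act (wh y' B') W1 ∈ SQ P Q (fun j => M j ∧ j ≠ i) V :=
        SQ_step hW1 (z := y') ⟨hMy', hyi'⟩ l1 l2 l3
      obtain ⟨j, b⟩ := z'
      change j = i at hz'
      subst hz'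
      cases b
      · have h6 := Lv_compl l4
        refine ⟨σ2, act (wh y' B') W1, fun x => !A' x, hW1', h6.1,
          fun k hk => by simp only [l5 k hk], fun k hk hk' => by simp only [l6 k hk hk'], l7, ?_⟩
        have h7 : act (wh (j, true) (fun x => !A' x)) (act (wh y' B') W1) =
          act (wh (j, false) A') (act (wh y' B') W1) := h6.2
        rw [l8, h7]
      · exact ⟨σ2, act (wh y' B') W1, A', hW1', l4, l5, l6, l7, l8⟩
    have fin2 : (∃ (σ : SPerm (Fin 3)) (W2 : CC) (A2 : Ct),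
          W2 ∈ SQ P Q (fun j => M j ∧ j ≠ i) V ∧
          Lv W2 (i, true) A2 ∧ PF P A2 ∧ QF Q i A2 ∧
          (∀ x : Fin 3 × Bool, (¬ M x.1 ∨ Q x.1 = true) → σ.letter x = x) ∧
          act (wh y₁ C₁) (act (wh (i, true) A) W1) = act σ.aut (act (wh (i, true) A2) W2)) →
        ∃ (σ' : SPerm (Fin 3)) (W2 : CC) (A2 : Ct), W2 ∈ SQ P Q (fun j => M j ∧ j ≠ i) V ∧
          Lv W2 (i, true) A2 ∧ PF P A2 ∧ QF Q i A2 ∧
          (∀ x : Fin 3 × Bool, (¬ M x.1 ∨ Q x.1 = true) → σ'.letter x = x) ∧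
          act σ.aut (act (wh y₁ C₁) (act (wh (i, true) A) W1)) =
            act σ'.aut (act (wh (i, true) A2) W2) := by
      rintro ⟨σ2, W2, A2, g1, g2, g3, g4, g5, g6⟩
      refine ⟨Conn_comp σ σ2, W2, A2, g1, g2, g3, g4, ?_, ?_⟩
      · intro x hx
        rw [Conn_comp_letter, g5 x hx, hσ x hx]
      · rw [g6, Conn_act_comp]
    apply fin2
    have hc2 : ∀ k, 0 < cnt (act (wh y₁ C₁) (act (wh (i, true) A) W1)) k := by
      intro k
      rw [(Lv_Sm hC').2, (Lv_Sm hA).2]
      exact hc1 k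
    cases hy₁ : Q y₁.1 with
    | true =>
      have hu2 : ¬ VP n P (sq Q (act (wh (i, true) A) W1)) (stc A (i, true)) := by
        rw [hsq2]; exact hu
      obtain ⟨z', y', A', B', e1, e2, e3, e4, e5, e6, e7, e8, e9⟩ :=
        RtB3_sq B1 hQ hA hPA hQA hu2 hy₁ hC' hPC' hQC'
      refine fin ⟨Equiv.refl _, fun _ => true⟩ z' y' A' B' e1 (by rw [e2]; exact hMy) ?_ e3 e4 e5
        e6 e7 e8 (fun x _ => hidl x) ?_
      · rw [e2]
        rintro h
        rw [h, hQ] at hy₁
        exact Bool.false_ne_true hy₁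
      · rw [EvU_act_id _ hidl]
        exact e9
    | false =>
      have hLP2 : LP (RtB3_P P Q) (act (wh (i, true) A) (sq Q W1)) y₁ C₁ := by
        rw [← hsq2]
        exact (RtB3_LP hy₁).2 ⟨hC', hPC', hQC'⟩
      have hu' : ¬ VP n (RtB3_P P Q) (act (wh (i, true) A) (sq Q W1)) (stc A (i, true)) :=
        fun h => hu (RtB3_VP h)
      have E' : EqP n (RtB3_P P Q) (sq Q W1) := RtB3_E hE1
      have hsq3 : sq Q (act (wh y₁ C₁) (act (wh (i, true) A) W1)) =
          act (wh y₁ C₁) (act (wh (i, true) A) (sq Q W1)) := by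
        rw [RtB3_wh hy₁ (RtB3_QF hy₁ hQC'), hsq2]
      by_cases hyi : y₁.1 = i
      · obtain ⟨A', hA', h5⟩ := Pw.exch_same E' hLP hu' hLP2 hyi
        obtain ⟨m1, m2, m3⟩ := (RtB3_LP (z := (i, true)) hQ).1 hA'
        refine ⟨⟨Equiv.refl _, fun _ => true⟩, W1, A', hW1, m1, m2, m3, fun x _ => hidl x, ?_⟩
        rw [EvU_act_id _ hidl]
        apply RtB3_inj hc2
        · intro k
          rw [(Lv_Sm m1).2]
          exact hc1 k
        · rw [hsq3, h5]
          exact (RtB3_wh (z := (i, true)) hQ (RtB3_QF hQ m3) W1).symm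
      · obtain ⟨σ2, z', y', A', B', hz', hy', hL1, hL2, hσ2, h5⟩ :=
          Pw.exch_diff E' hLP hu' hLP2 hyi
        have hQy' : Q y'.1 = false := by rw [hy']; exact hy₁
        have hQz' : Q z'.1 = false := by rw [hz']; exact hQ
        obtain ⟨m1, m2, m3⟩ := (RtB3_LP hQy').1 hL1
        have hsq4 : sq Q (act (wh y' B') W1) = act (wh y' B') (sq Q W1) :=
          RtB3_wh hQy' (RtB3_QF hQy' m3) W1
        rw [← hsq4] at hL2
        obtain ⟨m4, m5, m6⟩ := (RtB3_LP hQz').1 hL2
        refine fin σ2 z' y' A' B' hz' (by rw [hy']; exact hMy) (by rw [hy']; exact hyi) m1 m2 m3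
          m4 m5 (by rw [← (show z'.1 = i from hz')]; exact m6) ?_ ?_
        · intro x hx
          apply hσ2 x
          · rintro h
            rcases hx with hx | hx
            · exact hx (by rw [h]; exact hi)
            · rw [h] at hx
              change Q i = true at hx
              rw [hQ] at hx
              exact Bool.false_ne_true hx
          · rintro h
            rcases hx with hx | hx
            · exact hx (by rw [h]; exact hMy)
            · rw [h, hy₁] at hx
              exact Bool.false_ne_true hx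
        · apply RtB3_inj hc2
          · intro k
            obtain ⟨k', rfl⟩ := σ2.perm.surjective k
            rw [cnt_SPerm, (Lv_Sm m4).2, (Lv_Sm m1).2]
            exact hc1 k'
          · rw [hsq3, h5, RtB3_SPerm (i := i) (j := y₁.1) hQ hy₁ hσ2,
              RtB3_wh hQz' (RtB3_QF hQz' m6), hsq4]

end Pool.Agent.Sims
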