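import Pool.Agent.Sims.RtBasS

/-!
# Module `RtEM` : port of `EvEM`
-/

namespace Pool.Agent.Sims

namespace Pw

open FreeGroup (of)

variable {P : Fin 3 → Prop}

theorem EM_refl (M : Fin 3 → Prop) (V : CC) : V ∈ EP P M V :=
  Relation.ReflTransGen.refl

theorem EM_step {M : Fin 3 → Prop} {V W : CC} (h : W ∈ EP P M V) {z : Fin 3 × Bool} {A : Ct}
    (hz : M z.1) (hA : LP P W z A) : act (wh z A) W ∈ EP P M V :=
  Relation.ReflTransGen.tail h ⟨z, A, hz, hA, rfl⟩

theorem EM_trans {M : Fin 3 → Prop} {U V W : CC} (h : V ∈ EP P M U) (h' : W ∈ EP P M V) :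
    W ∈ EP P M U :=
  Relation.ReflTransGen.trans h h'

theorem EvEM_StM_symm {M : Fin 3 → Prop} {V W : CC} (h : StP P M V W) : StP P M W V := by
  obtain ⟨z, A, hz, hA, rfl⟩ := h
  have h1 := Lv_inv hA
  exact ⟨bar z, _, hz, h1.1, h1.2.symm⟩

theorem EM_symm {M : Fin 3 → Prop} {V W : CC} (h : W ∈ EP P M V) : V ∈ EP P M W := by
  have h1 : Relation.ReflTransGen (StP P M) V W := h
  change Relation.ReflTransGen (StP P M) W V
  induction h1 with
  | refl => exact Relation.ReflTransGen.refl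
  | tail _ h3 ih => exact Relation.ReflTransGen.head (EvEM_StM_symm h3) (ih (by assumption))

theorem EM_eq {M : Fin 3 → Prop} {V W : CC} (h : W ∈ EP P M V) : EP P M W = EP P M V := by
  ext U
  exact ⟨fun h' => EM_trans h h', fun h' => EM_trans (EM_symm h) h'⟩

theorem EM_mono {M M' : Fin 3 → Prop} (hM : ∀ i, M i → M' i) {V W : CC} (h : W ∈ EP P M V) :
    W ∈ EP P M' V := by
  refine Relation.ReflTransGen.mono ?_ _ _ h
  rintro x y ⟨z, A, hz, hA, h⟩
  exact ⟨z, A, hM _ hz, hA, h⟩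

theorem EM_orb {M : Fin 3 → Prop} {V W : CC} (h : W ∈ EP P M V) : W ∈ orb V := by
  have h1 : Relation.ReflTransGen (StP P M) V W := h
  clear h
  induction h1 with
  | refl => exact orb_refl V
  | tail _ h3 ih =>
    obtain ⟨z, A, _, hA, rfl⟩ := h3
    exact orb_level ih hA.1 hA.2.1 hA.2.2.1

theorem _root_.Pool.Agent.Sims.EqP.em {n : ℕ} {M : Fin 3 → Prop} {V W : CC} (E : EqP n P V) (h : W ∈ EP P M V) : EqP n P W := by
  have h1 : Relation.ReflTransGen (StP P M) V W := h
  clear h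
  induction h1 with
  | refl => exact E
  | tail _ h3 ih =>
    obtain ⟨z, A, _, hA, rfl⟩ := h3
    exact ih.lv hA

/-- copy in the namespace `Pw` -/
theorem EqP.em {n : ℕ} {M : Fin 3 → Prop} {V W : CC} (E : EqP n P V) (h : W ∈ EP P M V) :
    EqP n P W := Pool.Agent.Sims.EqP.em E h

/-- copy in the namespace `Pw` -/
theorem EqP.lv {n : ℕ} {V : CC} (E : EqP n P V) {z : Fin 3 × Bool} {A : Ct} (h : LP P V z A) :
    EqP n P (act (wh z A) V) := Pool.Agent.Sims.EqP.lv E h

theorem EM_SPerm {M M' : Fin 3 → Prop} {V W : CC} (h : W ∈ EP P M V) (σ : SPerm (Fin 3))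
    (hσP : ∀ i, P i ↔ P (σ.perm i)) (hσ : ∀ i, M i → M' (σ.perm i)) : act σ.aut W ∈ EP P M' (act σ.aut V) := by
  have h1 : Relation.ReflTransGen (StP P M) V W := h
  clear h
  induction h1 with
  | refl => exact EM_refl M' _
  | tail _ h3 ih =>
    obtain ⟨z, A, hz, hA, rfl⟩ := h3
    have h4 := LP_SPerm σ hσP hA
    rw [← h4.2]
    exact EM_step ih (by rw [letter_fst]; exact hσ _ hz) h4.1

/-- a finite union over the nontrivial moves -/
theorem cntMv2 (V : CC) (z : Fin 3 × Bool) (T : CC → Set CC) {K K' : ℕ} (h0 : Cov (T V) K)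
    (hT : ∀ A ∈ LSP P V z, Cov (T (act (wh z A) V)) K') :
    Cov {W | ∃ A, LP P V z A ∧ W ∈ T (act (wh z A) V)} (K + (LSP P V z).card * K') := by
  classical
  obtain ⟨F, hF, hFS⟩ := h0
  choose G hG hGT using hT
  let H : Ct → Finset CC := fun A => if hA : A ∈ LSP P V z then G A hA else ∅
  refine ⟨F ∪ (LSP P V z).biUnion H, ?_, ?_⟩
  · refine (Finset.card_union_le _ _).trans (Nat.add_le_add hF ?_)
    refine Finset.card_biUnion_le_card_mul (LSP P V z) H K' ?_
    intro A hA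
    simp only [H, dif_pos hA]
    exact hG A hA
  · rintro W ⟨A, hA, hW⟩
    by_cases hn : Ntr A
    · have hm : A ∈ LSP P V z := by
        simp only [LSP, Finset.mem_filter, Finset.mem_univ, true_and]
        exact ⟨hA, hn⟩
      refine Finset.mem_union_right _ ?_
      rw [Finset.mem_biUnion]
      refine ⟨A, hm, ?_⟩
      simp only [H, dif_pos hm]
      exact hGT A hm W hW
    · rw [Lv_ntr hA hn] at hW
      exact Finset.mem_union_left _ (hFS W hW)

/-- the number of level `z`-neighbours -/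
theorem cntMv (V : CC) (z : Fin 3 × Bool) :
    Cov {W | ∃ A, LP P V z A ∧ W = act (wh z A) V} (1 + (LSP P V z).card) := by
  have h := cntMv2 (P := P) V z (fun W => {W}) (K := 1) (K' := 1)
    ⟨{V}, by simp, by simp⟩ (fun A _ => ⟨{act (wh z A) V}, by simp, by simp⟩)
  rw [mul_one] at h
  exact cov_mono h (fun W hW => by obtain ⟨A, hA, hW⟩ := hW; exact ⟨A, hA, hW⟩) le_rfl

end Pw

end Pool.Agent.Sims
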