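import Pool.Agent.Sims.RtG2
import Pool.Agent.Sims.RtEM

/-!
# Module `RtDef2` : the worlds `P2`, `P0`; covers up to signed permutations

* `P2`, `P0` : the fixed letter is `c = x_2`, resp. `a = x_0`;  `LL` : the set of the light letters
* `CovF2 S N`, `CovF0 S N` : up to signed permutations with `c ↦ c^{±1}` (`Fix2`), resp. `a ↦ a` (`Fix0`), the set `S` has at most `N` elements
* `hv_eqp`: `EqP n P2 V` : `c`: `cnt V 0 = cnt V 1 = n`; `low`: `Hv.lo` for `V ∈ orb V`.
* `hv_ep`: induction along the path, `hv_lv` (`LP_Lv`).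
* `covF2_sub`: choose for every `e ∈ F` which is used a `W ∈ S` with `W = act σ.aut e` (`act_SPerm_inv`, `Conn_act_comp`: composition and inverse of `Fix2` permutations).
* `capT`: a step `(A, z)` of `EP P2`: `A` contains both or none of `c^{±1}`; in the first case replace it by the complement (`Lv_compl`); `PrC 2` is disjoint from `A`, `z.1 ≠ 2`: `capC_wh_disj`.
* `cap2`: `capC_pr`.  `cap3`, `cap4`: `capC_union` for `pr u v` and `sgl w`, `edgS_union`; `cap4`: the complement of `PrC 2` is the union of the four light letters `z, z⁻¹, y, y⁻¹` (`y.1 ≠ z.1`, both `≠ 2`).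
Difficulty 2.
-/

namespace Pool.Agent.Sims

/-- the letter `c` is fixed -/
def P2 : Fin 3 → Prop := fun i => i = 2

/-- the letter `a` is fixed -/
def P0 : Fin 3 → Prop := fun i => i = 0

/-- the light letters -/
def LL : Ct := fun x => decide (x.1 ≠ 2)

/-- cover up to signed permutations fixing `c` up to sign -/
def CovF2 (S : Set CC) (N : ℕ) : Prop := ∃ F : Finset CC, F.card ≤ N ∧
  ∀ W ∈ S, ∃ σ : SPerm (Fin 3), Fix2 σ ∧ ∃ e ∈ F, W = act σ.aut e

/-- cover up to signed permutations fixing `a` -/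
def CovF0 (S : Set CC) (N : ℕ) : Prop := ∃ F : Finset CC, F.card ≤ N ∧
  ∀ W ∈ S, ∃ σ : SPerm (Fin 3), Fix0 σ ∧ ∃ e ∈ F, W = act σ.aut e

theorem hv_eqp {n K : ℕ} {V : CC} (H : Hv n K V) : EqP n P2 V := by
  refine ⟨H.h4, ?_, fun {A} hA => H.lo V (orb_refl V) A hA.1⟩
  intro i hi
  have h2 : i ≠ 2 := hi
  have h3 : i = 0 ∨ i = 1 := by
    have key : ∀ i : Fin 3, i ≠ 2 → i = 0 ∨ i = 1 := by decide
    exact key i h2
  rcases h3 with rfl | rfl
  · exact H.c0
  · exact H.c1

theorem hv_ep {n K : ℕ} {V : CC} (H : Hv n K V) {M : Fin 3 → Prop} {W : CC} (hW : W ∈ EP P2 M V) :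
    Hv n K W := by
  have hW' : Relation.ReflTransGen (StP P2 M) V W := hW
  induction hW' with
  | refl => exact H
  | tail h1 hs ih =>
    obtain ⟨z, A, _, hA, rfl⟩ := hs
    exact hv_lv (ih h1) (Pw.LP_Lv hA)

theorem covF2_mono {S S' : Set CC} {N N' : ℕ} (h : CovF2 S N) (hS : ∀ W ∈ S', W ∈ S)
    (hN : N ≤ N') : CovF2 S' N' := by
  obtain ⟨F, h1, h2⟩ := h
  exact ⟨F, h1.trans hN, fun W hW => h2 W (hS W hW)⟩

theorem covF2_of_cov {S : Set CC} {N : ℕ} (h : Cov S N) : CovF2 S N := by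
  obtain ⟨F, h1, h2⟩ := h
  obtain ⟨π, hπ, _, hf⟩ := exists_SPerm_one
  exact ⟨F, h1, fun W hW => ⟨π, hf, W, h2 W hW, (hπ W).symm⟩⟩

theorem covF2_sub {S : Set CC} {N : ℕ} (h : CovF2 S N) : ∃ F : Finset CC, F.card ≤ N ∧
    (∀ e ∈ F, e ∈ S) ∧ ∀ W ∈ S, ∃ σ : SPerm (Fin 3), Fix2 σ ∧ ∃ e ∈ F, W = act σ.aut e := by
  classical
  obtain ⟨F, h1, h2⟩ := h
  obtain ⟨g, hg⟩ : ∃ g : CC → CC, ∀ e, (∃ W ∈ S, ∃ σ : SPerm (Fin 3), Fix2 σ ∧ W = act σ.aut e) →
      g e ∈ S ∧ ∃ σ : SPerm (Fin 3), Fix2 σ ∧ g e = act σ.aut e := by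
    have h3 : ∀ e : CC, ∃ W, (∃ W ∈ S, ∃ σ : SPerm (Fin 3), Fix2 σ ∧ W = act σ.aut e) →
        W ∈ S ∧ ∃ σ : SPerm (Fin 3), Fix2 σ ∧ W = act σ.aut e := by
      intro e
      by_cases h4 : ∃ W ∈ S, ∃ σ : SPerm (Fin 3), Fix2 σ ∧ W = act σ.aut e
      · obtain ⟨W, hW, hσ⟩ := h4
        exact ⟨W, fun _ => ⟨hW, hσ⟩⟩
      · exact ⟨e, fun h => absurd h h4⟩
    choose g hg using h3
    exact ⟨g, hg⟩
  refine ⟨(F.filter (fun e => ∃ W ∈ S, ∃ σ : SPerm (Fin 3), Fix2 σ ∧ W = act σ.aut e)).image g,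
    (Finset.card_image_le.trans (Finset.card_filter_le _ _)).trans h1, ?_, ?_⟩
  · intro e he
    obtain ⟨e', he', rfl⟩ := Finset.mem_image.1 he
    exact (hg e' (Finset.mem_filter.1 he').2).1
  · intro W hW
    obtain ⟨σ, hσ, e, he, hWe⟩ := h2 W hW
    have h3 : ∃ W ∈ S, ∃ σ : SPerm (Fin 3), Fix2 σ ∧ W = act σ.aut e := ⟨W, hW, σ, hσ, hWe⟩
    obtain ⟨h4, τ, hτ, h5⟩ := hg e h3
    obtain ⟨π, hπ, _, hf, _⟩ := SPerm_mul σ τ.inv
    refine ⟨π, hf hσ (Fix2_inv hτ), g e, Finset.mem_image.2 ⟨e, Finset.mem_filter.2 ⟨he, h3⟩, rfl⟩, ?_⟩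
    rw [← hπ, h5, act_SPerm_inv, hWe]

theorem capT {M : Fin 3 → Prop} {V W : CC} (hW : W ∈ EP P2 M V) :
    capC W (PrC 2) = capC V (PrC 2) := by
  have hW' : Relation.ReflTransGen (StP P2 M) V W := hW
  induction hW' with
  | refl => rfl
  | tail h1 hs ih =>
    rename_i U W'
    obtain ⟨z, A, _, hA, rfl⟩ := hs
    rw [← ih h1]
    have key : ∀ (z : Fin 3 × Bool) (A : Ct), LP P2 U z A → A (2, true) = false →
        capC (act (wh z A) U) (PrC 2) = capC U (PrC 2) := by
      intro z A hA h0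
      have h3 : A (2, true) = A (2, false) := hA.2.2.2 2 rfl
      have hz2 : z.1 ≠ 2 := by
        intro h
        obtain ⟨i, b⟩ := z
        have h' : i = 2 := h
        subst h'
        have h4 := hA.1
        cases b
        · rw [← h3, h0] at h4
          exact absurd h4 (by decide)
        · rw [h0] at h4
          exact absurd h4 (by decide)
      apply capC_wh_disj U z A (PrC 2) hA.1 hA.2.1
      · exact decide_eq_false hz2
      · exact decide_eq_false hz2
      · intro x hx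
        by_contra hcon
        have h5 : PrC 2 x = true := by simpa using hcon
        have h6 : x.1 = 2 := by simpa [PrC] using h5
        obtain ⟨i, b⟩ := x
        have h' : i = 2 := h6
        subst h'
        cases b
        · rw [← h3, h0] at hx
          exact absurd hx (by decide)
        · rw [h0] at hx
          exact absurd hx (by decide)
    by_cases h0 : A (2, true) = false
    · exact key z A hA h0
    · obtain ⟨h2, h3⟩ := Pw.Lv_compl hA
      rw [← h3]
      refine key _ _ h2 ?_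
      simpa using h0

theorem cap2 {n : ℕ} {V : CC} {u v : Fin 3 × Bool} (hu : cnt V u.1 = n) (hv : cnt V v.1 = n)
    (huv : u ≠ v) : capC V (pr u v) + 2 * edgS V (sgl u) (sgl v) = 2 * n := by
  have h := capC_pr V huv
  rw [hu, hv] at h
  omega

theorem cap3 {n : ℕ} {V : CC} {u v w : Fin 3 × Bool} (hu : cnt V u.1 = n) (hv : cnt V v.1 = n)
    (hw : cnt V w.1 = n) (huv : u ≠ v) (huw : u ≠ w) (hvw : v ≠ w) :
    capC V (fun x => pr u v x || sgl w x) + 2 * (edgS V (sgl u) (sgl v) + edgS V (sgl u) (sgl w) +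
      edgS V (sgl v) (sgl w)) = 3 * n := by
  have h1 := capC_pr V huv
  have h2 := capC_union V (pr u v) (sgl w) (by
    intro x hx
    by_contra hcon
    have h5 : sgl w x = true := by simpa using hcon
    have h6 : x = w := by simpa [sgl] using h5
    subst h6
    simp only [pr, Bool.or_eq_true, decide_eq_true_eq] at hx
    rcases hx with h | h
    · exact huw h.symm
    · exact hvw h.symm)
  have h3 : edgS V (pr u v) (sgl w) = edgS V (sgl u) (sgl w) + edgS V (sgl v) (sgl w) := by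
    rw [edgS_comm, edgS_comm V (sgl u), edgS_comm V (sgl v)]
    exact edgS_union V (sgl w) (sgl u) (sgl v) (by
      intro x hx
      have h6 : x = w := by simpa [sgl] using hx
      subst h6
      simpa [sgl] using Ne.symm huw) (by
      intro x hx
      have h6 : x = w := by simpa [sgl] using hx
      subst h6
      simpa [sgl] using Ne.symm hvw) (by
      intro x hx
      have h6 : x = u := by simpa [sgl] using hx
      subst h6
      simpa [sgl] using huv)
  rw [capC_sgl] at h2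
  rw [h3] at h2
  rw [hu, hv] at h1
  rw [hw] at h2
  omega

theorem cap4 {n : ℕ} {V : CC} {z y : Fin 3 × Bool} (hz2 : z.1 ≠ 2) (hy2 : y.1 ≠ 2)
    (hzy : y.1 ≠ z.1) (hz : cnt V z.1 = n) (hy : cnt V y.1 = n) :
    capC V (PrC 2) + 2 * (edgS V (sgl z) (sgl y) + edgS V (sgl z) (sgl (bar y)) +
      edgS V (sgl (bar z)) (sgl y) + edgS V (sgl (bar z)) (sgl (bar y)) +
      edgS V (sgl z) (sgl (bar z)) + edgS V (sgl y) (sgl (bar y))) = 4 * n := by
  have hzb : z ≠ bar z := by
    intro h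
    have h2 := congrArg Prod.snd h
    revert h2
    simp [bar]
  have hyb : y ≠ bar y := by
    intro h
    have h2 := congrArg Prod.snd h
    revert h2
    simp [bar]
  have hzy1 : ∀ x x' : Fin 3 × Bool, x.1 = z.1 → x'.1 = y.1 → x ≠ x' := by
    rintro x x' h h' rfl
    exact hzy (h'.symm.trans h)
  have b1 : (bar z).1 = z.1 := rfl
  have b2 : (bar y).1 = y.1 := rfl
  have sg : ∀ {u v : Fin 3 × Bool}, u ≠ v → ∀ x, sgl u x = true → sgl v x = false := by
    intro u v huv x hx
    have h6 : x = u := by simpa [sgl] using hx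
    subst h6
    simpa [sgl] using huv
  have h1 := capC_pr V hzb
  have h2 := capC_pr V hyb
  rw [b1, hz] at h1
  rw [b2, hy] at h2
  have hdisj : ∀ x, pr z (bar z) x = true → pr y (bar y) x = false := by
    intro x hx
    have hx1 : x.1 = z.1 := by
      simp only [pr, Bool.or_eq_true, decide_eq_true_eq] at hx
      rcases hx with h | h
      · rw [h]
      · rw [h]; rfl
    simp only [pr, Bool.or_eq_false_iff, decide_eq_false_iff_not]
    exact ⟨hzy1 x y hx1 rfl, hzy1 x (bar y) hx1 rfl⟩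
  have h3 := capC_union V (pr z (bar z)) (pr y (bar y)) hdisj
  have h4 : edgS V (pr z (bar z)) (pr y (bar y)) =
      edgS V (pr z (bar z)) (sgl y) + edgS V (pr z (bar z)) (sgl (bar y)) := by
    refine edgS_union V (pr z (bar z)) (sgl y) (sgl (bar y)) ?_ ?_ (sg hyb)
    · intro x hx
      have := hdisj x hx
      simp only [pr, Bool.or_eq_false_iff] at this
      exact this.1
    · intro x hx
      have := hdisj x hx
      simp only [pr, Bool.or_eq_false_iff] at this
      exact this.2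
  have h5 : ∀ u : Fin 3 × Bool, u.1 = y.1 → edgS V (pr z (bar z)) (sgl u) =
      edgS V (sgl z) (sgl u) + edgS V (sgl (bar z)) (sgl u) := by
    intro u hu
    rw [edgS_comm, edgS_comm V (sgl z), edgS_comm V (sgl (bar z))]
    exact edgS_union V (sgl u) (sgl z) (sgl (bar z)) (sg (Ne.symm (hzy1 z u rfl hu)))
      (sg (Ne.symm (hzy1 (bar z) u rfl hu))) (sg hzb)
  have h6 : capC V (fun x => pr z (bar z) x || pr y (bar y) x) = capC V (PrC 2) := by
    rw [← capC_compl V (PrC 2)]
    apply capC_congr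
    intro x
    have key : ∀ (z y x : Fin 3 × Bool), z.1 ≠ 2 → y.1 ≠ 2 → y.1 ≠ z.1 →
        (pr z (bar z) x || pr y (bar y) x) = !PrC 2 x := by
      decide
    exact key z y x hz2 hy2 hzy
  rw [h6, h4, h5 y rfl, h5 (bar y) rfl] at h3
  omega

end Pool.Agent.Sims
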