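import Pool.Agent.Sims.RtQ5
import Pool.Agent.Sims.RtB3
import Pool.Agent.Sims.RtDef2

/-!
# Module `RtD2` : the base classes, window = all light letters: at most 120 up to signed permutations fixing `c` up to sign

`BQ n PN Qc Ω`, `{c, c⁻¹}` crossed at `sq Qc Ω` (then at all `sq Qc Ω'`, `pn_pr`).  All counts positive (`pn_pos`).
* `st_cov`: for `BQ n PN Qc e` and `z.1 ≠ 2` the classes `act (wh z A) e`, `A` level and `QF Qc z.1 A`: at most `5` (`lsq_cov` with `lsq4`).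
* `covFl_sub`: as `covF2_sub` (keep the members of `F` which are `act σ⁻¹ W`, `W ∈ S`; needs that `S` is closed under `Fl0`: instead replace each `e ∈ F` used by some `W ∈ S` by that `W`; `Fl0` is closed under composition and inverses).
* `e4_two`: `0` uncrossed at `sq Qc Ω`.  `lemUQ` (`M = ⊤`, `i = 0`, `pn_crp`): every `W ∈ SQ PN Qc ⊤ Ω` is `act σ.aut (act (wh (0,true) A) W1)`, `W1 ∈ SQ PN Qc (· ≠ 0) Ω` (the predicate `True ∧ j ≠ 0` is `j ≠ 0`: `SQ_mono`), `σ.letter` fixes `c`, so `Fix2 σ`.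
  (ii) `1` is crossed at all `sq Qc Ω'`, `Ω' ∈ SQ PN Qc (· ≠ 0) Ω`: `CX n Qc (· ≠ 0) Ω 1`, and `CX .. 2` by `hX`.  `q_three`, with `ct24` (`bq_cnt`, `bq_cnt'` for the classes `Ω'`), `ctT6`, or `Cov 9`: `CovFl (SQ PN Qc (· ≠ 0) Ω) 24`; `covFl_sub`.  `W1 = act τ.aut e`, `Fl0 τ`,
  `e ∈ SQ PN Qc (· ≠ 0) Ω`.  `act (wh (0,true) A) (act τ.aut e) = act τ.aut (act (wh (0,true) A') e)` with `A' = A ∘ τ.letter` level for `e` and `QF` (`TwBasic_SPerm` for `τ.inv`; `τ.letter (0,true) = (0,true)`): `24 * 5 = 120` (`st_cov` for `e`).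
  (i) otherwise there is `Ω1 ∈ SQ PN Qc (· ≠ 0) Ω` with `1` uncrossed at `sq Qc Ω1`; `0` is uncrossed at `sq Qc Ω1` too (`crs_em` with `M = (· ≠ 0)`, `pn_sq`).  `SQ_eq`: start from `Ω1`.  `lemUQ` for `i = 0`, `M = ⊤`, and for `W1` again `lemUQ` with `i = 1`, `M = (· ≠ 0)`:
  `W1 = act σ1.aut (act (wh (1,true) B) W2)`, `W2 ∈ SQ PN Qc (· = 2) Ω1`, `σ1` fixes the letters of generators `0` and `2` (so `Fl0 σ1`).  `sq_line`: `4` classes `W2`; `st_cov` for `z = (1,true)` (5), and for `z = (0,true)` after transport over `σ1` (5): `4 * 5 * 5 = 100`.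
* `e4_count`: (iii) if for `i = 0, 1` and all `Ω' ∈ SQ PN Qc ⊤ Ω` the letter `i` is crossed at `sq Qc Ω'`: `CX n Qc ⊤ Ω i` for all `i`, `q_pow`, `ctP12`: `12`.  Otherwise some light `i` is uncrossed at `sq Qc Ω'`, `Ω' ∈ SQ PN Qc ⊤ Ω`.  `SQ_eq`.  If `i = 0`: `e4_two`.  If
  `i = 1`: apply `e4_two` to `act ρ.aut Ω'`, `ρ` the exchange of `a` and `b` (`bq_SPerm`, `Crs_SPerm` (`EvBasS`), `VX_SPerm`, `pw_SPerm`), and `SQ_SPerm` to come back; `Fix2 ρ`.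
Difficulty 4.
-/

namespace Pool.Agent.Sims

theorem RtD2_qc {i : Fin 3} (h : i ≠ 2) : Qc i = false := decide_eq_false h

theorem RtD2_qc' {i : Fin 3} (h : Qc i = true) : i = 2 := of_decide_eq_true h

theorem RtD2_fl_comp {σ τ : SPerm (Fin 3)} (h : Fl0 σ) (h' : Fl0 τ) : Fl0 (Conn_comp σ τ) := by
  obtain ⟨h1, h2⟩ := h
  obtain ⟨h3, h4⟩ := h'
  refine ⟨?_, ?_⟩
  · show τ.perm.trans σ.perm = 1
    rw [h1, h3]
    rfl
  · show (τ.sign 0 == σ.sign (τ.perm 0)) = true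
    rw [h3, h4]
    show (true == σ.sign 0) = true
    rw [h2]
    rfl

theorem RtD2_fl_inv {σ : SPerm (Fin 3)} (h : Fl0 σ) : Fl0 σ.inv := by
  obtain ⟨h1, h2⟩ := h
  refine ⟨?_, ?_⟩
  · show σ.perm.symm = 1
    rw [h1]
    rfl
  · show σ.sign (σ.perm.symm 0) = true
    rw [h1]
    exact h2

theorem RtD2_fl_fix {σ : SPerm (Fin 3)} (h : Fl0 σ) : Fix2 σ := by
  show σ.perm 2 = 2
  rw [h.1]
  rfl

theorem RtD2_lv {σ : SPerm (Fin 3)} {V : CC} {z : Fin 3 × Bool} {A : Ct}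
    (h : Lv (act σ.aut V) (σ.letter z) A) : Lv V z (fun x => A (σ.letter x)) := by
  refine ⟨h.1, ?_, ?_⟩
  · show A (σ.letter (bar z)) = false
    rw [SPerm.letter_bar]
    exact h.2.1
  · rw [← capC_SPerm, h.2.2]
    exact cnt_SPerm σ V z.1

theorem RtD2_qf {σ : SPerm (Fin 3)} (h : Fix2 σ) {j : Fin 3} {A : Ct} (hA : QF Qc j A) :
    QF Qc j (fun x => A (σ.letter x)) := by
  intro i hi hij
  have h2 := RtD2_qc' hi
  subst h2
  have h3 := hA 2 rfl hij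
  have h4 : ∀ b : Bool, A (σ.letter (2, b)) = A (2, true) := by
    intro b
    have e1 : (σ.letter (2, b)).1 = 2 := h
    generalize σ.letter (2, b) = y at e1
    obtain ⟨y1, y2⟩ := y
    have e2 : y1 = 2 := e1
    subst e2
    cases y2
    · exact h3.symm
    · rfl
  exact (h4 true).trans (h4 false).symm

theorem st_cov {n : ℕ} {e : CC} (B : BQ n PN Qc e) {z : Fin 3 × Bool} (hz : z.1 ≠ 2) :
    Cov {W | ∃ A, Lv e z A ∧ QF Qc z.1 A ∧ W = act (wh z A) e} 5 := by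
  have h1 := lsq_cov (lsq4 B hz (decide_eq_false hz) (fun h => h) (Or.inr rfl)
    (fun i _ => B.e.c i (fun h => h)))
  refine cov_mono h1 ?_ (by norm_num)
  rintro W ⟨A, hA, hA', rfl⟩
  exact ⟨A, hA, fun i hi => hi.elim, hA', rfl⟩

theorem covFl_sub {S : Set CC} {N : ℕ} (h : CovFl S N) : ∃ F : Finset CC, F.card ≤ N ∧
    (∀ e ∈ F, e ∈ S) ∧ ∀ W ∈ S, ∃ σ : SPerm (Fin 3), Fl0 σ ∧ ∃ e ∈ F, W = act σ.aut e := by
  classical
  obtain ⟨F, h1, h2⟩ := h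
  obtain ⟨g, hg⟩ : ∃ g : CC → CC, ∀ e, (∃ W ∈ S, ∃ σ : SPerm (Fin 3), Fl0 σ ∧ W = act σ.aut e) →
      g e ∈ S ∧ ∃ σ : SPerm (Fin 3), Fl0 σ ∧ g e = act σ.aut e := by
    have h3 : ∀ e : CC, ∃ W, (∃ W ∈ S, ∃ σ : SPerm (Fin 3), Fl0 σ ∧ W = act σ.aut e) →
        W ∈ S ∧ ∃ σ : SPerm (Fin 3), Fl0 σ ∧ W = act σ.aut e := by
      intro e
      by_cases h4 : ∃ W ∈ S, ∃ σ : SPerm (Fin 3), Fl0 σ ∧ W = act σ.aut e
      · obtain ⟨W, hW, hσ⟩ := h4
        exact ⟨W, fun _ => ⟨hW, hσ⟩⟩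
      · exact ⟨e, fun h => absurd h h4⟩
    choose g hg using h3
    exact ⟨g, hg⟩
  refine ⟨(F.filter (fun e => ∃ W ∈ S, ∃ σ : SPerm (Fin 3), Fl0 σ ∧ W = act σ.aut e)).image g,
    (Finset.card_image_le.trans (Finset.card_filter_le _ _)).trans h1, ?_, ?_⟩
  · intro e he
    obtain ⟨e', he', rfl⟩ := Finset.mem_image.1 he
    exact (hg e' (Finset.mem_filter.1 he').2).1
  · intro W hW
    obtain ⟨σ, hσ, e, he, hWe⟩ := h2 W hW
    have h3 : ∃ W ∈ S, ∃ σ : SPerm (Fin 3), Fl0 σ ∧ W = act σ.aut e := ⟨W, hW, σ, hσ, hWe⟩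
    obtain ⟨h4, τ, hτ, h5⟩ := hg e h3
    refine ⟨Conn_comp σ τ.inv, RtD2_fl_comp hσ (RtD2_fl_inv hτ), g e,
      Finset.mem_image.2 ⟨e, Finset.mem_filter.2 ⟨he, h3⟩, rfl⟩, ?_⟩
    rw [← Conn_act_comp, h5, act_SPerm_inv, hWe]

theorem RtD2_last {n : ℕ} {Ω : CC} (B : BQ n PN Qc Ω) (h0 : ¬ Crs n (sq Qc Ω) (0, true)) {N : ℕ}
    {F0 : Finset CC} (hN : F0.card ≤ N) (hB : ∀ e ∈ F0, BQ n PN Qc e)
    (hF : ∀ W1 ∈ SQ PN Qc (fun i => i ≠ 0) Ω, ∃ τ : SPerm (Fin 3), Fl0 τ ∧ ∃ e ∈ F0, W1 = act τ.aut e) :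
    CovF2 (SQ PN Qc (fun _ => True) Ω) (N * 5) := by
  classical
  have h1 : ∀ e ∈ F0, ∃ G : Finset CC, G.card ≤ 5 ∧
      ∀ A, Lv e (0, true) A → QF Qc 0 A → act (wh (0, true) A) e ∈ G := by
    intro e he
    obtain ⟨G, hG, hG'⟩ := st_cov (hB e he) (z := (0, true)) (by decide)
    exact ⟨G, hG, fun A hA hA' => hG' _ ⟨A, hA, hA', rfl⟩⟩
  choose! G hG hG' using h1
  refine ⟨F0.biUnion G, ?_, ?_⟩
  · exact (Finset.card_biUnion_le_card_mul F0 G 5 hG).trans (Nat.mul_le_mul_right 5 hN)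
  · intro W hW
    obtain ⟨σ, W1, A, hW1, hL, hPF, hQF, hfix, hWe⟩ := lemUQ B (pn_pos B) (M := fun _ => True) (i := 0)
      trivial (fun _ _ h => h) rfl (fun h => h0 (pn_crp.1 h)) hW
    obtain ⟨τ, hτ, e, he, hW1e⟩ := hF W1 (SQ_mono (fun i hi => hi.2) hW1)
    subst hW1e
    have hτ0 : τ.letter (0, true) = (0, true) := by
      show (τ.perm 0, if τ.sign 0 then true else !true) = ((0, true) : Fin 3 × Bool)
      rw [hτ.1, hτ.2]
      rfl
    have hσ2 : Fix2 σ := by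
      have := hfix (2, true) (Or.inr rfl)
      exact congrArg Prod.fst this
    rw [← hτ0] at hL hWe
    have h2 := RtD2_lv hL
    have h3 := RtD2_qf (RtD2_fl_fix hτ) hQF
    rw [act_wh_SPerm] at hWe
    obtain ⟨π, hπ, -, hf, -⟩ := SPerm_mul σ τ
    refine ⟨π, hf hσ2 (RtD2_fl_fix hτ), _, Finset.mem_biUnion.2 ⟨e, he, hG' e he _ h2 h3⟩, ?_⟩
    rw [hWe, hπ]

theorem RtD2_perm : ∀ p : Equiv.Perm (Fin 3), p 0 = 0 → p 2 = 2 → p = 1 := by decide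

theorem RtD2_sqs {σ : SPerm (Fin 3)} (h : Fix2 σ) (V : CC) : sq Qc (act σ.aut V) = act σ.aut (sq Qc V) := by
  unfold sq
  refine pw_SPerm ?_ V
  intro i
  have key : ∀ p : Equiv.Perm (Fin 3), p 2 = 2 → ∀ i, (if Qc (p i) = true then 2 else 1 : ℕ) = if Qc i = true then 2 else 1 := by
    unfold Qc
    decide
  exact key σ.perm h i

theorem RtD2_q {σ : SPerm (Fin 3)} (h : Fix2 σ) (i : Fin 3) : Qc (σ.perm i) = Qc i := by
  have key : ∀ p : Equiv.Perm (Fin 3), p 2 = 2 → ∀ i, Qc (p i) = Qc i := by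
    unfold Qc
    decide
  exact key σ.perm h i

theorem e4_two {n : ℕ} {Ω : CC} (B : BQ n PN Qc Ω) (hX : VX n (sq Qc Ω) (PrC 2))
    (h0 : ¬ Crs n (sq Qc Ω) (0, true)) : CovF2 (SQ PN Qc (fun _ => True) Ω) 120 := by
  classical
  by_cases hcr : ∀ Ω' ∈ SQ PN Qc (fun i => i ≠ 0) Ω, Crs n (sq Qc Ω') (1, true)
  · have c1 : CX n Qc (fun i => i ≠ 0) Ω 1 := Or.inr ⟨rfl, hcr⟩
    have c2 : CX n Qc (fun i => i ≠ 0) Ω 2 := Or.inl ⟨rfl, hX⟩
    have hn : 0 < n := by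
      have := B.e.h4
      omega
    have hcnt : ∀ Ω' ∈ SQ PN Qc (fun i => i ≠ 0) Ω, cnt Ω' 1 = n ∧ 2 * cnt Ω' 2 = n := by
      intro Ω' h
      have B' := (pn_sq B h).1
      exact ⟨bq_cnt' B' rfl (fun h => h), bq_cnt B' rfl⟩
    have hcov : CovFl (SQ PN Qc (fun i => i ≠ 0) Ω) 24 := by
      rcases q_three B rfl c1 c2 with ⟨port, π, hc, h1, h2, h3⟩ | h1 | ⟨j, h1, h2, h3⟩
      · obtain ⟨F, hF, hF'⟩ := ct24 hn hc h1 h2
        exact ⟨F, hF, fun W hW => hF' W ⟨h3 W hW, hcnt W hW⟩⟩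
      · obtain ⟨F, hF, hF'⟩ := h1
        refine ⟨F, hF.trans (by norm_num), fun W hW => ⟨⟨1, fun _ => true⟩, ⟨rfl, rfl⟩, W, hF' W hW, ?_⟩⟩
        obtain ⟨w, _, rfl⟩ := exists_CR W
        rw [Rel_act_cls]
        have e : (SPerm.letter ⟨1, fun _ => true⟩ : Fin 3 × Bool → Fin 3 × Bool) = id := rfl
        rw [e, List.map_id]
      · obtain ⟨F, hF, hF'⟩ := ctT6 hn h2 h1
        exact ⟨F, hF.trans (by norm_num), fun W hW => hF' W ⟨h3 W hW, hcnt W hW⟩⟩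
    obtain ⟨F, hF, hFS, hFW⟩ := covFl_sub hcov
    have h := RtD2_last B h0 hF (fun e he => (pn_sq B (hFS e he)).1) hFW
    exact h
  · push Not at hcr
    obtain ⟨Ω1, hΩ1, hcr⟩ := hcr
    obtain ⟨B1, hem⟩ := pn_sq B hΩ1
    have h01 : ¬ Crs n (sq Qc Ω1) (0, true) := by
      rw [crs_em (pn_eq3 B.e) (M := fun i => i ≠ 0) (z := (0, true)) (fun h => h rfl) hem]
      exact h0
    have heq : SQ PN Qc (fun _ => True) Ω1 = SQ PN Qc (fun _ => True) Ω :=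
      SQ_eq (SQ_mono (fun _ _ => trivial) hΩ1)
    rw [← heq]
    have hcov : Cov {W | ∃ e ∈ SQ PN Qc (fun i => i = 2) Ω1,
        W ∈ {W | ∃ A, Lv e (1, true) A ∧ QF Qc 1 A ∧ W = act (wh (1, true) A) e}} (4 * 5) :=
      cov_bind (sq_line B1 (pn_pos B1) rfl).1
        (fun e => {W | ∃ A, Lv e (1, true) A ∧ QF Qc 1 A ∧ W = act (wh (1, true) A) e})
        (fun e he => st_cov (pn_sq B1 he).1 (z := (1, true)) (show (1 : Fin 3) ≠ 2 by decide))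
    obtain ⟨F, hF, hFW⟩ := hcov
    have h := RtD2_last B1 h01 (N := 20) (F0 := F.filter (fun e => BQ n PN Qc e))
      ((Finset.card_filter_le _ _).trans hF) (fun e he => (Finset.mem_filter.1 he).2) ?_
    · exact covF2_mono h (fun W hW => hW) (by norm_num)
    · intro W1 hW1
      obtain ⟨σ, W2, A, hW2, hL, hPF, hQF, hfix, hWe⟩ := lemUQ B1 (pn_pos B1) (M := fun j => j ≠ 0) (i := 1)
        (show (1 : Fin 3) ≠ 0 by decide) (fun _ _ h => h) rfl (fun h => hcr (pn_crp.1 h)) hW1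
      have hW2' : W2 ∈ SQ PN Qc (fun i => i = 2) Ω1 := by
        refine SQ_mono (fun i hi => ?_) hW2
        have key : ∀ i : Fin 3, i ≠ 0 → i ≠ 1 → i = 2 := by decide
        exact key i hi.1 hi.2
      have hσ0 : σ.letter (0, true) = (0, true) := hfix (0, true) (Or.inl (fun h => h rfl))
      have hσ2 : σ.letter (2, true) = (2, true) := hfix (2, true) (Or.inr rfl)
      have hp : σ.perm = 1 := RtD2_perm σ.perm (congrArg Prod.fst hσ0) (congrArg Prod.fst hσ2)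
      have hs : σ.sign 0 = true := by
        have h1 : (if σ.sign 0 = true then true else !true) = true := congrArg Prod.snd hσ0
        by_contra hc
        rw [if_neg hc] at h1
        exact absurd h1 (by decide)
      have hB2 : BQ n PN Qc (act (wh (1, true) A) W2) := by
        have B2 := (pn_sq B1 hW2').1
        exact (pn_sq B2 (SQ_step (M := fun _ => True) (SQ_refl _ _) trivial hL hPF hQF)).1
      refine ⟨σ, ⟨hp, hs⟩, _, Finset.mem_filter.2 ⟨hFW _ ⟨W2, hW2', A, hL, hQF, rfl⟩, hB2⟩, hWe⟩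

theorem e4_count {n : ℕ} {Ω : CC} (B : BQ n PN Qc Ω) (hX : VX n (sq Qc Ω) (PrC 2)) :
    CovF2 (SQ PN Qc (fun _ => True) Ω) 120 := by
  classical
  by_cases hcr : ∀ i : Fin 3, i ≠ 2 → ∀ Ω' ∈ SQ PN Qc (fun _ => True) Ω, Crs n (sq Qc Ω') (i, true)
  · have hall : ∀ i, CX n Qc (fun _ => True) Ω i := by
      intro i
      by_cases hi : i = 2
      · subst hi
        exact Or.inl ⟨rfl, hX⟩
      · exact Or.inr ⟨decide_eq_false hi, hcr i hi⟩
    refine covF2_mono (ctP12 n) (fun W hW => ?_) (by norm_num)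
    obtain ⟨v, h, h1, h2, h3⟩ := q_pow B rfl hall W hW
    exact ⟨v, h, h1, h2 0, h2 1, h2 2, h3⟩
  · push Not at hcr
    obtain ⟨i, hi, Ω', hΩ', hcr⟩ := hcr
    obtain ⟨B', -⟩ := pn_sq B hΩ'
    have hX' := pn_pr B (j := 2) rfl hX hΩ'
    rw [← SQ_eq hΩ']
    have hi' : i = 0 ∨ i = 1 := by
      have key : ∀ i : Fin 3, i ≠ 2 → i = 0 ∨ i = 1 := by decide
      exact key i hi
    rcases hi' with rfl | rfl
    · exact e4_two B' hX' hcr
    · obtain ⟨ρ, hρ⟩ : ∃ ρ : SPerm (Fin 3), ρ = ⟨Equiv.swap 0 1, fun _ => true⟩ := ⟨_, rfl⟩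
      have hρ2 : Fix2 ρ := by
        rw [hρ]
        show Equiv.swap (0 : Fin 3) 1 2 = 2
        decide
      have hρi : ρ.inv.letter (0, true) = (1, true) := by
        rw [hρ]
        decide
      have B2 : BQ n PN Qc (act ρ.aut Ω') := bq_SPerm (fun _ => Iff.rfl) (RtD2_q hρ2) B'
      have hX2 : VX n (sq Qc (act ρ.aut Ω')) (PrC 2) := by
        rw [RtD2_sqs hρ2]
        refine (VX_congr (fun x => ?_)).1 (VX_SPerm hX' ρ)
        have key : ∀ x, PrC 2 ((⟨Equiv.swap 0 1, fun _ => true⟩ : SPerm (Fin 3)).inv.letter x) = PrC 2 x := by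
          decide
        rw [hρ]
        exact key x
      have h02 : ¬ Crs n (sq Qc (act ρ.aut Ω')) (0, true) := by
        intro hc
        rw [RtD2_sqs hρ2] at hc
        have h1 := Crs_SPerm hc ρ.inv
        rw [act_SPerm_inv, hρi] at h1
        exact hcr h1
      obtain ⟨F, hF, hFW⟩ := e4_two B2 hX2 h02
      refine ⟨F, hF, fun W hW => ?_⟩
      have h1 : act ρ.aut W ∈ SQ PN Qc (fun _ => True) (act ρ.aut Ω') :=
        SQ_SPerm (fun _ => Iff.rfl) (RtD2_q hρ2) (fun _ _ => trivial) hW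
      obtain ⟨σ, hσ, e, he, hWe⟩ := hFW _ h1
      obtain ⟨π, hπ, -, hf, -⟩ := SPerm_mul ρ.inv σ
      refine ⟨π, hf (Fix2_inv hρ2) hσ, e, he, ?_⟩
      rw [← hπ, ← hWe, act_SPerm_inv]

end Pool.Agent.Sims
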