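import Pool.Agent.Sims.RtP4

/-!
# Module `RtN` : numerical inequalities

`F3 m = (m-1)(m-2)(m-7)`.  All of them are checked numerically for small values.
* `n_mono`.
* `n_b1`: `12 * card (TB1 K) ≤ F3 (8 + K)` for `K ≥ 5` (`card (TB1 K)` = `34, 50, 70, 95, 125` for `K = 5..9`).  `card (TB1 K) = Σ_{u ≤ K/2} choose (K - 2u + 2) 2`; e.g. show `card (TB1 (K+2)) = card (TB1 K) + choose (K+4) 2` (split by `u₁ = 0`
  or `u₁ ≥ 1`), and by induction with step `2` `24 * card (TB1 K) ≤ (K+2)(K+4)(2K+3) + 3` or a similar polynomial bound, then `nlinarith`.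
* `n_b0`: `choose (K+3) 3 = (K+3)(K+2)(K+1)/6`.
* `n_d`: `n ≥ 4`: `TD n K ⊆` the triples with sum `≤ m = 2K/n ≤ K/2`; `card ≤ choose (m+3) 3`; `45 (m+3)(m+2)(m+1) ≤ 6 (2m+7)(2m+6)(2m+1) ≤ 6 F3 (8 + K)` for `m ≥ 1`, and `K ≥ 5`; `n_mono`.
* `n_t3`: `T3 κ` = triples with `t_i + (t₁+t₂+t₃) ≤ κ` for all `i`: `card` = `7, 11, 17, 26, 35, 48` for `κ = 3..8`; `120 * card ≤ F3 (8 + 2κ)` for `κ ≥ 3`.  E.g. the four rotations of `(κ - Σ t, t₁, t₂, t₃)`; or
  `card (T3 (κ+4)) = card (T3 κ) +` (number of the triples with some `t_i = 0`), and for these a direct count; any polynomial bound like `24 * card (T3 κ) ≤ κ³ + 9κ² + 26κ + c`.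
* `n_c`: `36 * choose (K+2) 2 = 18 (K+2)(K+1)`, `K ≥ 5`.
* `n_cc`: with `u = k+1`, `v = k'+1`, `S = k + k'`: the left side is `18 ((u+v)² + (u+v) + 2uv) ≤ 27 (S+2)² + 18 (S+2) ≤ (2S+7)(2S+6)(2S+1)` for `S ≥ 3`.
Difficulty 3.
-/

namespace Pool.Agent.Sims

/-- triples with `t_i + t₁ + t₂ + t₃ ≤ κ` -/
def T3 (κ : ℕ) : Finset (ℕ × ℕ × ℕ) :=
  ((Finset.range (κ + 1)) ×ˢ (Finset.range (κ + 1)) ×ˢ (Finset.range (κ + 1))).filter
    (fun u => u.1 + (u.1 + u.2.1 + u.2.2) ≤ κ ∧ u.2.1 + (u.1 + u.2.1 + u.2.2) ≤ κ ∧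
      u.2.2 + (u.1 + u.2.1 + u.2.2) ≤ κ)

theorem n_mono {a b : ℕ} (ha : 7 ≤ a) (hab : a ≤ b) : F3 a ≤ F3 b := by
  unfold F3
  exact Nat.mul_le_mul (Nat.mul_le_mul (by omega) (by omega)) (by omega)

theorem RtN_F3 (K : ℕ) : F3 (8 + K) = (K + 7) * (K + 6) * (K + 1) := by
  unfold F3
  have h1 : 8 + K - 1 = K + 7 := by omega
  have h2 : 8 + K - 2 = K + 6 := by omega
  have h3 : 8 + K - 7 = K + 1 := by omega
  rw [h1, h2, h3]

theorem RtN_choose3 (K : ℕ) : 6 * Nat.choose (K + 3) 3 = (K + 3) * (K + 2) * (K + 1) := by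
  have h := Nat.descFactorial_eq_factorial_mul_choose (K + 3) 3
  have h2 : (K + 3).descFactorial 3 = (K + 3) * (K + 2) * (K + 1) := by
    simp only [Nat.descFactorial_succ, Nat.descFactorial_zero, Nat.add_sub_cancel, Nat.sub_zero]
    have e1 : K + 3 - 1 = K + 2 := by omega
    have e2 : K + 3 - 2 = K + 1 := by omega
    rw [e1, e2]
    ring
  rw [h2] at h
  have h3 : Nat.factorial 3 = 6 := rfl
  rw [h3] at h
  exact h.symm

theorem RtN_choose2 (K : ℕ) : 2 * Nat.choose (K + 2) 2 = (K + 2) * (K + 1) := by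
  have h := Nat.descFactorial_eq_factorial_mul_choose (K + 2) 2
  have h2 : (K + 2).descFactorial 2 = (K + 2) * (K + 1) := by
    simp only [Nat.descFactorial_succ, Nat.descFactorial_zero, Nat.sub_zero]
    have e1 : K + 2 - 1 = K + 1 := by omega
    rw [e1]
    ring
  rw [h2] at h
  have h3 : Nat.factorial 2 = 2 := rfl
  rw [h3] at h
  exact h.symm

theorem n_b0 {K : ℕ} (hK : 5 ≤ K) : Nat.choose (K + 3) 3 ≤ F3 (8 + K) := by
  have h := RtN_choose3 K
  rw [RtN_F3]
  have h2 : (K + 3) * (K + 2) * (K + 1) ≤ (K + 7) * (K + 6) * (K + 1) :=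
    Nat.mul_le_mul (Nat.mul_le_mul (by omega) (by omega)) (le_refl _)
  omega

theorem RtN_step1 (K : ℕ) : (TB1 (K + 2)).card ≤ Nat.choose (K + 4) 2 + (TB1 K).card := by
  classical
  have hsub : TB1 (K + 2) ⊆ (TC (K + 2)).image (fun p : ℕ × ℕ => (0, p.1, p.2)) ∪
      (TB1 K).image (fun u : ℕ × ℕ × ℕ => (u.1 + 1, u.2.1, u.2.2)) := by
    rintro ⟨a, b, c⟩ h
    simp only [TB1, Finset.mem_filter, Finset.mem_product, Finset.mem_range] at h
    rcases Nat.eq_zero_or_pos a with ha | ha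
    · subst ha
      apply Finset.mem_union_left
      refine Finset.mem_image.2 ⟨(b, c), ?_, rfl⟩
      simp only [TC, Finset.mem_filter, Finset.mem_product, Finset.mem_range]
      omega
    · apply Finset.mem_union_right
      refine Finset.mem_image.2 ⟨(a - 1, b, c), ?_, ?_⟩
      · simp only [TB1, Finset.mem_filter, Finset.mem_product, Finset.mem_range]
        omega
      · simp only [Prod.mk.injEq, and_true]
        omega
  refine (Finset.card_le_card hsub).trans ((Finset.card_union_le _ _).trans ?_)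
  exact Nat.add_le_add (Finset.card_image_le.trans (tc_card (K + 2))) Finset.card_image_le

theorem RtN_b1 (K : ℕ) : 24 * (TB1 K).card ≤ 2 * K ^ 3 + 15 * K ^ 2 + 34 * K + 24 := by
  have h : ∀ K, 24 * (TB1 K).card ≤ 2 * K ^ 3 + 15 * K ^ 2 + 34 * K + 24 ∧
      24 * (TB1 (K + 1)).card ≤ 2 * (K + 1) ^ 3 + 15 * (K + 1) ^ 2 + 34 * (K + 1) + 24 := by
    intro K
    induction K with
    | zero =>
      have e0 : (TB1 0).card = 1 := by decide
      have e1 : (TB1 (0 + 1)).card = 3 := by decide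
      rw [e0, e1]
      norm_num
    | succ K ih =>
      refine ⟨ih.2, ?_⟩
      have h1 := RtN_step1 K
      have h2 := RtN_choose2 (K + 2)
      have h3 : 2 * Nat.choose (K + 4) 2 = (K + 4) * (K + 3) := h2
      have h4 := ih.1
      have e : K + 1 + 1 = K + 2 := rfl
      rw [e]
      nlinarith
  exact (h K).1

theorem n_b1 {K : ℕ} (hK : 5 ≤ K) : 12 * (TB1 K).card ≤ F3 (8 + K) := by
  have h := RtN_b1 K
  rw [RtN_F3]
  nlinarith [sq_nonneg K, pow_pos (by omega : 0 < K) 3]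

theorem n_d {n K : ℕ} (hn : 4 ≤ n) (hK : 5 ≤ K) : 45 * (TD n K).card ≤ F3 (8 + K) := by
  classical
  obtain ⟨m, hm⟩ : ∃ m, m = K / 2 := ⟨_, rfl⟩
  have hsub : TD n K ⊆ TB0 m := by
    rintro ⟨a, b, c⟩ h
    simp only [TD, Finset.mem_filter, Finset.mem_product, Finset.mem_range] at h
    have h2 : 4 * (a + b + c) ≤ n * (a + b + c) := Nat.mul_le_mul_right _ hn
    simp only [TB0, Finset.mem_filter, Finset.mem_product, Finset.mem_range]
    omega
  have h1 : (TD n K).card ≤ Nat.choose (m + 3) 3 := (Finset.card_le_card hsub).trans (tb0_card m)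
  have h2 := RtN_choose3 m
  have hK2 : 2 * m ≤ K := by omega
  rw [RtN_F3]
  have h3 : 6 * (45 * (TD n K).card) ≤ 45 * ((m + 3) * (m + 2) * (m + 1)) := by
    rw [← h2]; omega
  have h4 : (2 * m + 7) * (2 * m + 6) * (2 * m + 1) ≤ (K + 7) * (K + 6) * (K + 1) :=
    Nat.mul_le_mul (Nat.mul_le_mul (by omega) (by omega)) (by omega)
  rcases Nat.eq_zero_or_pos m with hm0 | hm0
  · omega
  · have h5 : 45 * ((m + 3) * (m + 2) * (m + 1)) ≤ 6 * ((2 * m + 7) * (2 * m + 6) * (2 * m + 1)) := by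
      nlinarith [pow_pos hm0 3, pow_pos hm0 2]
    omega

/-- pairs -/
def RtN_Q (κ : ℕ) : Finset (ℕ × ℕ) :=
  ((Finset.range (κ + 1)) ×ˢ (Finset.range (κ + 1))).filter
    (fun u => 2 * u.1 + u.2 ≤ κ ∧ u.1 + 2 * u.2 ≤ κ)

theorem RtN_stepQ (κ : ℕ) : (RtN_Q (κ + 3)).card ≤ (RtN_Q κ).card + (κ + 4) := by
  classical
  have hsub : RtN_Q (κ + 3) ⊆ (RtN_Q κ).image (fun p : ℕ × ℕ => (p.1 + 1, p.2 + 1)) ∪
      ((Finset.range ((κ + 3) / 2 + 1)).image (fun v : ℕ => (0, v)) ∪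
        (Finset.range ((κ + 3) / 2)).image (fun v : ℕ => (v + 1, 0))) := by
    rintro ⟨a, b⟩ h
    simp only [RtN_Q, Finset.mem_filter, Finset.mem_product, Finset.mem_range] at h
    rcases Nat.eq_zero_or_pos a with ha | ha
    · subst ha
      apply Finset.mem_union_right
      apply Finset.mem_union_left
      refine Finset.mem_image.2 ⟨b, ?_, rfl⟩
      rw [Finset.mem_range]
      omega
    · rcases Nat.eq_zero_or_pos b with hb | hb
      · subst hb
        apply Finset.mem_union_right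
        apply Finset.mem_union_right
        refine Finset.mem_image.2 ⟨a - 1, ?_, ?_⟩
        · rw [Finset.mem_range]
          omega
        · simp only [Prod.mk.injEq, and_true]
          omega
      · apply Finset.mem_union_left
        refine Finset.mem_image.2 ⟨(a - 1, b - 1), ?_, ?_⟩
        · simp only [RtN_Q, Finset.mem_filter, Finset.mem_product, Finset.mem_range]
          omega
        · simp only [Prod.mk.injEq]
          omega
  refine (Finset.card_le_card hsub).trans ((Finset.card_union_le _ _).trans ?_)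
  have h1 := Finset.card_image_le (s := RtN_Q κ) (f := fun p : ℕ × ℕ => (p.1 + 1, p.2 + 1))
  have h2 := Finset.card_union_le ((Finset.range ((κ + 3) / 2 + 1)).image (fun v : ℕ => (0, v)))
    ((Finset.range ((κ + 3) / 2)).image (fun v : ℕ => (v + 1, 0)))
  have h3 := Finset.card_image_le (s := Finset.range ((κ + 3) / 2 + 1)) (f := fun v : ℕ => ((0 : ℕ), v))
  have h4 := Finset.card_image_le (s := Finset.range ((κ + 3) / 2)) (f := fun v : ℕ => (v + 1, (0 : ℕ)))
  rw [Finset.card_range] at h3 h4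
  omega

theorem RtN_Qb (κ : ℕ) : 6 * (RtN_Q κ).card ≤ κ ^ 2 + 5 * κ + 6 := by
  have h : ∀ κ, 6 * (RtN_Q κ).card ≤ κ ^ 2 + 5 * κ + 6 ∧
      6 * (RtN_Q (κ + 1)).card ≤ (κ + 1) ^ 2 + 5 * (κ + 1) + 6 ∧
      6 * (RtN_Q (κ + 2)).card ≤ (κ + 2) ^ 2 + 5 * (κ + 2) + 6 := by
    intro κ
    induction κ with
    | zero =>
      have e0 : (RtN_Q 0).card = 1 := by decide
      have e1 : (RtN_Q (0 + 1)).card = 1 := by decide
      have e2 : (RtN_Q (0 + 2)).card = 3 := by decide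
      rw [e0, e1, e2]
      norm_num
    | succ κ ih =>
      refine ⟨ih.2.1, ih.2.2, ?_⟩
      have h1 := RtN_stepQ κ
      have h4 := ih.1
      have e : κ + 1 + 2 = κ + 3 := rfl
      rw [e]
      nlinarith
  exact (h κ).1

theorem RtN_stepT (κ : ℕ) : (T3 (κ + 4)).card ≤ (T3 κ).card + 3 * (RtN_Q (κ + 4)).card := by
  classical
  have hsub : T3 (κ + 4) ⊆ (T3 κ).image (fun p : ℕ × ℕ × ℕ => (p.1 + 1, p.2.1 + 1, p.2.2 + 1)) ∪
      ((RtN_Q (κ + 4)).image (fun p : ℕ × ℕ => (0, p.1, p.2)) ∪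
        ((RtN_Q (κ + 4)).image (fun p : ℕ × ℕ => (p.1, 0, p.2)) ∪
          (RtN_Q (κ + 4)).image (fun p : ℕ × ℕ => (p.1, p.2, 0)))) := by
    rintro ⟨a, b, c⟩ h
    simp only [T3, Finset.mem_filter, Finset.mem_product, Finset.mem_range] at h
    rcases Nat.eq_zero_or_pos a with ha | ha
    · subst ha
      apply Finset.mem_union_right
      apply Finset.mem_union_left
      refine Finset.mem_image.2 ⟨(b, c), ?_, rfl⟩
      simp only [RtN_Q, Finset.mem_filter, Finset.mem_product, Finset.mem_range]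
      omega
    · rcases Nat.eq_zero_or_pos b with hb | hb
      · subst hb
        apply Finset.mem_union_right
        apply Finset.mem_union_right
        apply Finset.mem_union_left
        refine Finset.mem_image.2 ⟨(a, c), ?_, rfl⟩
        simp only [RtN_Q, Finset.mem_filter, Finset.mem_product, Finset.mem_range]
        omega
      · rcases Nat.eq_zero_or_pos c with hc | hc
        · subst hc
          apply Finset.mem_union_right
          apply Finset.mem_union_right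
          apply Finset.mem_union_right
          refine Finset.mem_image.2 ⟨(a, b), ?_, rfl⟩
          simp only [RtN_Q, Finset.mem_filter, Finset.mem_product, Finset.mem_range]
          omega
        · apply Finset.mem_union_left
          refine Finset.mem_image.2 ⟨(a - 1, b - 1, c - 1), ?_, ?_⟩
          · simp only [T3, Finset.mem_filter, Finset.mem_product, Finset.mem_range]
            omega
          · simp only [Prod.mk.injEq]
            omega
  refine (Finset.card_le_card hsub).trans ((Finset.card_union_le _ _).trans ?_)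
  have h1 := Finset.card_image_le (s := T3 κ)
    (f := fun p : ℕ × ℕ × ℕ => (p.1 + 1, p.2.1 + 1, p.2.2 + 1))
  have h2 := Finset.card_union_le ((RtN_Q (κ + 4)).image (fun p : ℕ × ℕ => (0, p.1, p.2)))
    ((RtN_Q (κ + 4)).image (fun p : ℕ × ℕ => (p.1, 0, p.2)) ∪
          (RtN_Q (κ + 4)).image (fun p : ℕ × ℕ => (p.1, p.2, 0)))
  have h3 := Finset.card_union_le ((RtN_Q (κ + 4)).image (fun p : ℕ × ℕ => (p.1, 0, p.2)))
    ((RtN_Q (κ + 4)).image (fun p : ℕ × ℕ => (p.1, p.2, 0)))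
  have h4 := Finset.card_image_le (s := RtN_Q (κ + 4)) (f := fun p : ℕ × ℕ => ((0 : ℕ), p.1, p.2))
  have h5 := Finset.card_image_le (s := RtN_Q (κ + 4)) (f := fun p : ℕ × ℕ => (p.1, (0 : ℕ), p.2))
  have h6 := Finset.card_image_le (s := RtN_Q (κ + 4)) (f := fun p : ℕ × ℕ => (p.1, p.2, (0 : ℕ)))
  omega

theorem RtN_Tb (κ : ℕ) : 48 * (T3 κ).card ≤ 2 * κ ^ 3 + 27 * κ ^ 2 + 112 * κ + 48 := by
  have h : ∀ κ, 48 * (T3 κ).card ≤ 2 * κ ^ 3 + 27 * κ ^ 2 + 112 * κ + 48 ∧
      48 * (T3 (κ + 1)).card ≤ 2 * (κ + 1) ^ 3 + 27 * (κ + 1) ^ 2 + 112 * (κ + 1) + 48 ∧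
      48 * (T3 (κ + 2)).card ≤ 2 * (κ + 2) ^ 3 + 27 * (κ + 2) ^ 2 + 112 * (κ + 2) + 48 ∧
      48 * (T3 (κ + 3)).card ≤ 2 * (κ + 3) ^ 3 + 27 * (κ + 3) ^ 2 + 112 * (κ + 3) + 48 := by
    intro κ
    induction κ with
    | zero =>
      have e0 : (T3 0).card = 1 := by decide
      have e1 : (T3 (0 + 1)).card = 1 := by decide
      have e2 : (T3 (0 + 2)).card = 4 := by decide
      have e3 : (T3 (0 + 3)).card = 7 := by decide +kernel
      rw [e0, e1, e2, e3]
      norm_num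
    | succ κ ih =>
      refine ⟨ih.2.1, ih.2.2.1, ih.2.2.2, ?_⟩
      have h1 := RtN_stepT κ
      have h2 := RtN_Qb (κ + 4)
      have h4 := ih.1
      have e : κ + 1 + 3 = κ + 4 := rfl
      rw [e]
      nlinarith
  exact (h κ).1

theorem n_t3 {κ : ℕ} (hκ : 3 ≤ κ) : 120 * (T3 κ).card ≤ F3 (8 + 2 * κ) := by
  rcases lt_or_ge κ 10 with h | h
  · have e3 : (T3 3).card = 7 := by decide +kernel
    have e4 : (T3 4).card = 11 := by decide +kernel
    have e5 : (T3 5).card = 17 := by decide +kernel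
    have e6 : (T3 6).card = 26 := by decide +kernel
    have e7 : (T3 7).card = 35 := by decide +kernel
    have e8 : (T3 8).card = 48 := by decide +kernel
    have e9 : (T3 9).card = 63 := by decide +kernel
    interval_cases κ
    · rw [e3]; decide
    · rw [e4]; decide
    · rw [e5]; decide
    · rw [e6]; decide
    · rw [e7]; decide
    · rw [e8]; decide
    · rw [e9]; decide
  · have h1 := RtN_Tb κ
    rw [RtN_F3]
    obtain ⟨t, rfl⟩ := Nat.exists_eq_add_of_le h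
    nlinarith [sq_nonneg t, Nat.zero_le (t ^ 3), Nat.zero_le (t ^ 2)]

theorem n_c {K : ℕ} (hK : 5 ≤ K) : 36 * Nat.choose (K + 2) 2 ≤ F3 (8 + K) := by
  have h := RtN_choose2 K
  rw [RtN_F3]
  obtain ⟨t, rfl⟩ := Nat.exists_eq_add_of_le hK
  nlinarith [Nat.zero_le (t ^ 3), Nat.zero_le (t ^ 2)]

theorem n_cc {k k' : ℕ} (hk : 1 ≤ k) (hk' : 1 ≤ k') (h : 3 ≤ k + k') :
    36 * (Nat.choose (k' + 2) 2 + 2 * ((k + 1) * (k' + 1)) + Nat.choose (k + 2) 2) ≤
      F3 (8 + 2 * (k + k')) := by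
  have h1 := RtN_choose2 k
  have h2 := RtN_choose2 k'
  rw [RtN_F3]
  have h3 : 4 * ((k + 1) * (k' + 1)) ≤ (k + k' + 2) ^ 2 := by
    zify
    nlinarith [sq_nonneg ((k : ℤ) - k')]
  have h4 : 2 * (Nat.choose (k' + 2) 2 + 2 * ((k + 1) * (k' + 1)) + Nat.choose (k + 2) 2) =
      (k + k' + 2) ^ 2 + (k + k' + 2) + 2 * ((k + 1) * (k' + 1)) := by
    rw [mul_add, mul_add, h1, h2]
    ring
  obtain ⟨S, hS⟩ : ∃ S, S = k + k' := ⟨_, rfl⟩
  rw [← hS] at h3 h4 h ⊢
  obtain ⟨t, rfl⟩ := Nat.exists_eq_add_of_le h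
  nlinarith [Nat.zero_le (t ^ 3), Nat.zero_le (t ^ 2)]

end Pool.Agent.Sims
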