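import Pool.Agent.Sims.RtP0

/-!
# Module `RtP3` : minimal potentials on a closed visible set form a chain

`X` closed and visible at `V` (`Ec V X`, `Ti n V 0 X`), `s` as in `hv_gl`, `gl s X = 0` (hypothesis `hX` below; for `X = LL` it is trivial).
* `g_e`: for `Y, Y' ⊆ X`, `gl s X = 0`: edge by edge: both ends outside of `X`: `2|k| ≤ |k| + |k|`.  Both ends in `X`: for gain `0`: the left side is the number of `Y ∖ Y'`, `Y' ∖ Y` separating the ends, the right side the number of `Y`, `Y'`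
  separating the ends.  For gain `k ≠ 0`: the left side is `2|k|` plus the number of the ends in the symmetric difference, the right side is `2 + |k + 1_Y(x) - 1_Y(y)| + |k + 1_{Y'}(x) - 1_{Y'}(y)|`: check the `4 × 4` positions of the ends
  (ends in `Y ∧ Y'`, `Y ∖ Y'`, `Y' ∖ Y`, none).
* `win_chain`: `Y, Y' ⊆ X` with `gf s (ind Y) = gf s (ind Y') = K = gf s 0`: if `Y ∖ Y'` and `Y' ∖ Y` are both nonempty, `g_e` gives `2 n + 2 K ≤ n + 2 K` (`hv_low`): contradiction.
* `win_bd`: for a nonempty proper subset `Y` of `X`: `n ≤ 2 ·` (number of the edges with gain `0` between `Y` and `X ∖ Y`): `gc s 0 Y + gc s 0 (X ∖ Y) = gc s 0 X + 2 ·` this number (edge by edge, `gl s X = 0`).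
* `win_rep`: there are `Y₁ ⊆ Y₂ ⊆ Y₃ ⊆ X` such that every minimal `p` (`gf s p = K`) is on `X` of the form `t + t₁ 1_{Y₁} + t₂ 1_{Y₂} + t₃ 1_{Y₃}` with `t_i ≥ 0`, where `t_i > 0` only if `Y_i` is a nonempty proper subset of `X` with
  `gf s (ind Y_i) = K`, and `n (t₁ + t₂ + t₃) ≤ 2 E`, `E` the sum of the absolute values of the gains of the edges of `s` at `p` inside `X` (`gx s p X`).
  Proof: let `p' = p` on `X`, `= min_X p` outside of `X`.  `p'` is minimal: `gf s p + gf s 0 = gf s p' + gf s p''`, `p'' = p - p'` (edges inside and outside of `X` separately), and both are `≥ K`.  Its level sets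
  `{p' ≥ α}`, `min_X p < α ≤ max_X p`, are nonempty proper subsets `Y` of `X` with `gf s (ind Y) = K` (`pot_split` twice).  Let `𝒴` be the set of all nonempty proper `Y ⊆ X` with `gf s (ind Y) = K`; it is a chain (`win_chain`), so it has at most one
  member of each of the sizes `1, 2, 3` (`X` has at most `4` letters).  `Y_i` = the member of size `i`, or (if there is none) `Y_{i-1}` (`Y₀ = ∅`), and `t_i` = number of the levels `α` with `{p' ≥ α} = ` the member of size `i`.
  `E ≥` the sum over the edges `e` of `s` inside `X` with gain `0` at `0` of `|p x - p y| = Σ_α [e is an edge between {p' ≥ α} and its complement]`, and each level contributes at least `n/2` (`win_bd`).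
  The number of the possible sizes: if `X` has at most `3` (`2`) letters then `t₃ = 0` (`t₂ = t₃ = 0`): `h3`, `h2`.
Difficulty 4.
-/

namespace Pool.Agent.Sims

/-- sum of the absolute values of the gains at `p` of the edges inside `X` -/
def gx (s : List ((Fin 3 × Bool) × ℤ)) (p : Fin 3 × Bool → ℤ) (X : Ct) : ℕ :=
  cyc (fun a r => if X a.1 && X (bar r.1) then (a.2 + p a.1 - p (bar r.1)).natAbs else 0) s

/-- sum over the edges -/
def P3s (s : List ((Fin 3 × Bool) × ℤ)) (f : Edg → ℕ) : ℕ := ((EvPatE_pr s).map f).sum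

theorem P3_mono {s : List ((Fin 3 × Bool) × ℤ)} {f g : Edg → ℕ}
    (h : ∀ e ∈ EvPatE_pr s, f e ≤ g e) : P3s s f ≤ P3s s g := List.sum_le_sum h

theorem P3_congr {s : List ((Fin 3 × Bool) × ℤ)} {f g : Edg → ℕ}
    (h : ∀ e ∈ EvPatE_pr s, f e = g e) : P3s s f = P3s s g :=
  le_antisymm (P3_mono fun e he => (h e he).le) (P3_mono fun e he => (h e he).ge)

theorem P3_add (s : List ((Fin 3 × Bool) × ℤ)) (f g : Edg → ℕ) :
    P3s s (fun e => f e + g e) = P3s s f + P3s s g := by
  unfold P3s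
  rw [List.sum_map_add]

theorem P3_two (s : List ((Fin 3 × Bool) × ℤ)) (f : Edg → ℕ) :
    P3s s (fun e => 2 * f e) = 2 * P3s s f := by
  unfold P3s
  rw [List.sum_map_mul_left]

theorem P3_swap (s : List ((Fin 3 × Bool) × ℤ)) (A : Finset ℕ) (f : ℕ → Edg → ℕ) :
    ∑ α ∈ A, P3s s (f α) = P3s s (fun e => ∑ α ∈ A, f α e) := by
  unfold P3s
  induction EvPatE_pr s with
  | nil => simp
  | cons e l ih => simp only [List.map_cons, List.sum_cons, Finset.sum_add_distrib, ih]

/-- one term of the capacity -/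
def P3t (q : Fin 3 × Bool → ℤ) (Y : Ct) (e : Edg) : ℕ :=
  if gk q e = 0 then (if Y e.1.1 = Y (bar e.2.1) then 0 else 1) else
    (if Y e.1.1 then 1 else 0) + (if Y (bar e.2.1) then 1 else 0)

theorem P3_gf (s : List ((Fin 3 × Bool) × ℤ)) (p : Fin 3 × Bool → ℤ) :
    gf s p = P3s s (fun e => (gk p e).natAbs) := gf_sum s p

theorem P3_gc (s : List ((Fin 3 × Bool) × ℤ)) (q : Fin 3 × Bool → ℤ) (Y : Ct) :
    gc s q Y = P3s s (P3t q Y) := by
  unfold gc P3s
  rw [EvPatE_cyc]
  rfl

theorem P3_gx (s : List ((Fin 3 × Bool) × ℤ)) (p : Fin 3 × Bool → ℤ) (X : Ct) :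
    gx s p X = P3s s (fun e => if X e.1.1 && X (bar e.2.1) then (gk p e).natAbs else 0) := by
  unfold gx P3s
  rw [EvPatE_cyc]
  rfl

theorem P3_t1 (k : ℤ) (X Yx Yy Zx Zy : Bool) (h1 : Yx = true → X = true) (h2 : Yy = true → X = true)
    (h3 : Zx = true → X = true) (h4 : Zy = true → X = true) :
    (if k = 0 then (if (Yx && !Zx) = (Yy && !Zy) then 0 else 1) else
      (if (Yx && !Zx) then 1 else 0) + (if (Yy && !Zy) then 1 else 0)) +
    (if k = 0 then (if (Zx && !Yx) = (Zy && !Yy) then 0 else 1) else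
      (if (Zx && !Yx) then 1 else 0) + (if (Zy && !Yy) then 1 else 0)) + 2 * k.natAbs ≤
    (if k = 0 then 0 else (if X then 1 else 0) + (if X then 1 else 0)) +
      (k + (if Yx then 1 else 0) - (if Yy then 1 else 0)).natAbs +
      (k + (if Zx then 1 else 0) - (if Zy then 1 else 0)).natAbs := by
  cases X <;> cases Yx <;> cases Yy <;> cases Zx <;> cases Zy <;> simp at h1 h2 h3 h4 ⊢ <;>
    (try split_ifs) <;> omega

theorem g_e {s : List ((Fin 3 × Bool) × ℤ)} {X Y Y' : Ct} (hX : gl s X = 0)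
    (hY : ∀ x, Y x = true → X x = true) (hY' : ∀ x, Y' x = true → X x = true) :
    gc s 0 (fun x => Y x && !Y' x) + gc s 0 (fun x => Y' x && !Y x) + 2 * gf s 0 ≤
      gc s 0 X + gf s (ind Y) + gf s (ind Y') := by
  have hg := gl_iff.1 hX
  rw [P3_gc, P3_gc, P3_gc, P3_gf, P3_gf, P3_gf, ← P3_two, ← P3_add, ← P3_add, ← P3_add, ← P3_add]
  refine P3_mono fun e he => ?_
  have h0 : gk 0 e = e.1.2 := by simp [gk]
  have h5 := P3_t1 e.1.2 (X e.1.1) (Y e.1.1) (Y (bar e.2.1)) (Y' e.1.1) (Y' (bar e.2.1)) (hY _)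
    (fun h => by rw [hg e he]; exact hY _ h) (hY' _) (fun h => by rw [hg e he]; exact hY' _ h)
  have h6 : P3t 0 X e = if e.1.2 = 0 then 0 else (if X e.1.1 then 1 else 0) + (if X e.1.1 then 1 else 0) := by
    simp only [P3t, h0, ← hg e he, if_true]
  rw [h6]
  simp only [P3t, h0]
  exact h5

theorem P3_K {n K : ℕ} {V : CC} (H : Hv n K V) {s : List ((Fin 3 × Bool) × ℤ)}
    (hs : SValid 2 s) (hV : cls (expand 2 s) = V) : gf s 0 = K := by
  rw [← g_cnt hs hV 0, pot_zero]
  exact H.c2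

theorem P3_min {n K : ℕ} {V : CC} (H : Hv n K V) {s : List ((Fin 3 × Bool) × ℤ)}
    (hs : SValid 2 s) (hV : cls (expand 2 s) = V) (q : Fin 3 × Bool → ℤ) : K ≤ gf s q := by
  rw [← g_cnt hs hV q]
  exact hv_min H q

theorem P3_low {n K : ℕ} {V : CC} (H : Hv n K V) {s : List ((Fin 3 × Bool) × ℤ)}
    (hs : SValid 2 s) (hV : cls (expand 2 s) = V) (q : Fin 3 × Bool → ℤ) {Y : Ct} (hY : LtN Y) :
    n ≤ gc s q Y := by
  rw [← g_cap hs hV q hY.1]
  exact hv_low H q hY

theorem P3_lt {X Y : Ct} (hX : Lt X) (h : ∀ x, Y x = true → X x = true) : Lt Y := by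
  constructor
  · by_contra h1
    have h2 := h _ (Bool.eq_true_of_not_eq_false h1)
    rw [hX.1] at h2
    exact Bool.noConfusion h2
  · by_contra h1
    have h2 := h _ (Bool.eq_true_of_not_eq_false h1)
    rw [hX.2] at h2
    exact Bool.noConfusion h2

theorem P3_n {n : ℕ} {V : CC} {s : List ((Fin 3 × Bool) × ℤ)}
    (hs : SValid 2 s) (hV : cls (expand 2 s) = V) {X : Ct} (hT : Ti n V 0 X) : gc s 0 X = n := by
  rw [← g_cap hs hV 0 hT.1.1]
  exact hT.2

theorem win_chain {n K : ℕ} {V : CC} (H : Hv n K V) {s : List ((Fin 3 × Bool) × ℤ)}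
    (hs : SValid 2 s) (hV : cls (expand 2 s) = V) {X : Ct} (hX : gl s X = 0) (hT : Ti n V 0 X)
    {Y Y' : Ct} (hY : ∀ x, Y x = true → X x = true) (hY' : ∀ x, Y' x = true → X x = true)
    (h : gf s (ind Y) = K) (h' : gf s (ind Y') = K) :
    (∀ x, Y x = true → Y' x = true) ∨ ∀ x, Y' x = true → Y x = true := by
  by_contra hno
  push Not at hno
  obtain ⟨⟨x, hx, hx'⟩, y, hy, hy'⟩ := hno
  have hx'' : Y' x = false := by simpa using hx'
  have hy'' : Y y = false := by simpa using hy'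
  have h1 := g_e hX hY hY'
  have h2 : n ≤ gc s 0 (fun x => Y x && !Y' x) := by
    refine P3_low H hs hV 0 ⟨P3_lt hT.1.1 fun z hz => ?_, x, by simp [hx, hx'']⟩
    simp only [Bool.and_eq_true] at hz
    exact hY z hz.1
  have h3 : n ≤ gc s 0 (fun x => Y' x && !Y x) := by
    refine P3_low H hs hV 0 ⟨P3_lt hT.1.1 fun z hz => ?_, y, by simp [hy, hy'']⟩
    simp only [Bool.and_eq_true] at hz
    exact hY' z hz.1
  rw [h, h', P3_K H hs hV, P3_n hs hV hT] at h1
  have := H.h4
  omega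

/-- number of the edges with gain `0` between `Y` and `X ∖ Y` -/
def P3c (s : List ((Fin 3 × Bool) × ℤ)) (X Y : Ct) : ℕ :=
  P3s s (fun e => if e.1.2 = 0 ∧ X e.1.1 = true ∧ Y e.1.1 ≠ Y (bar e.2.1) then 1 else 0)

theorem P3_t2 (k : ℤ) (X Yx Yy : Bool) (h1 : Yx = true → X = true) (h2 : Yy = true → X = true) :
    (if k = 0 then (if Yx = Yy then 0 else 1) else (if Yx then 1 else 0) + (if Yy then 1 else 0)) +
    (if k = 0 then (if (X && !Yx) = (X && !Yy) then 0 else 1) else
      (if (X && !Yx) then 1 else 0) + (if (X && !Yy) then 1 else 0)) =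
    (if k = 0 then 0 else (if X then 1 else 0) + (if X then 1 else 0)) +
      2 * (if k = 0 ∧ X = true ∧ Yx ≠ Yy then 1 else 0) := by
  by_cases hk : k = 0 <;>
  cases X <;> cases Yx <;> cases Yy <;> simp [hk] at h1 h2 ⊢

theorem win_bd {n K : ℕ} {V : CC} (H : Hv n K V) {s : List ((Fin 3 × Bool) × ℤ)}
    (hs : SValid 2 s) (hV : cls (expand 2 s) = V) {X : Ct} (hX : gl s X = 0) (hT : Ti n V 0 X)
    {Y : Ct} (hY : ∀ x, Y x = true → X x = true) (h1 : ∃ x, Y x = true)
    (h2 : ∃ x, X x = true ∧ Y x = false) : n ≤ 2 * P3c s X Y := by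
  have hg := gl_iff.1 hX
  have e1 : gc s 0 Y + gc s 0 (fun x => X x && !Y x) = gc s 0 X + 2 * P3c s X Y := by
    unfold P3c
    rw [P3_gc, P3_gc, P3_gc, ← P3_two, ← P3_add, ← P3_add]
    refine P3_congr fun e he => ?_
    have h0 : gk 0 e = e.1.2 := by simp [gk]
    have h5 := P3_t2 e.1.2 (X e.1.1) (Y e.1.1) (Y (bar e.2.1)) (hY _)
      (fun h => by rw [hg e he]; exact hY _ h)
    have h6 : P3t 0 X e = if e.1.2 = 0 then 0 else
        (if X e.1.1 then 1 else 0) + (if X e.1.1 then 1 else 0) := by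
      simp only [P3t, h0, ← hg e he, if_true]
    rw [h6]
    simp only [P3t, h0, ← hg e he]
    exact h5
  have h3 : n ≤ gc s 0 Y := P3_low H hs hV 0 ⟨P3_lt hT.1.1 hY, h1⟩
  have h4 : n ≤ gc s 0 (fun x => X x && !Y x) := by
    obtain ⟨x, hx, hx'⟩ := h2
    refine P3_low H hs hV 0 ⟨P3_lt hT.1.1 fun z hz => ?_, x, by simp [hx, hx']⟩
    simp only [Bool.and_eq_true] at hz
    exact hz.1
  rw [P3_n hs hV hT] at e1
  omega

theorem P3_cst {s : List ((Fin 3 × Bool) × ℤ)} {p q : Fin 3 × Bool → ℤ} (m : ℤ)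
    (h : ∀ x, p x = q x + m) : gf s p = gf s q := by
  rw [P3_gf, P3_gf]
  refine P3_congr fun e _ => ?_
  have : gk p e = gk q e := by
    simp only [gk, h]
    ring
  rw [this]

/-- the potential `p` on `X`, and `0` outside of `X`, is minimal -/
theorem P3_cut {n K : ℕ} {V : CC} (H : Hv n K V) {s : List ((Fin 3 × Bool) × ℤ)}
    (hs : SValid 2 s) (hV : cls (expand 2 s) = V) {X : Ct} (hX : gl s X = 0)
    {p : Fin 3 × Bool → ℤ} (hp : gf s p = K) : gf s (fun x => if X x then p x else 0) = K := by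
  have hg := gl_iff.1 hX
  have e1 : gf s (fun x => if X x then p x else 0) + gf s (fun x => if X x then 0 else p x) =
      gf s p + gf s 0 := by
    rw [P3_gf, P3_gf, P3_gf, P3_gf, ← P3_add, ← P3_add]
    refine P3_congr fun e he => ?_
    have h0 : gk 0 e = e.1.2 := by simp [gk]
    have h1 := hg e he
    rw [h0]
    simp only [gk]
    cases hx : X e.1.1 with
    | true =>
      rw [hx] at h1
      simp only [← h1, if_true]
      simp
    | false =>
      rw [hx] at h1
      simp only [← h1]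
      simp
      omega
  have h1 := P3_min H hs hV (fun x => if X x then p x else 0)
  have h2 := P3_min H hs hV (fun x => if X x then 0 else p x)
  rw [hp, P3_K H hs hV] at e1
  omega

/-- level sets are minimal -/
theorem P3_lev {n K : ℕ} {V : CC} (H : Hv n K V) {s : List ((Fin 3 × Bool) × ℤ)}
    (hs : SValid 2 s) (hV : cls (expand 2 s) = V) {p : Fin 3 × Bool → ℤ} (hp : gf s p = K) (α : ℤ) :
    gf s (ind fun x => decide (α < p x)) = K := by
  have h1 : cnt (act (pot 2 p) V) 2 = cnt V 2 := by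
    rw [g_cnt hs hV, hp, H.c2]
  have h2 := (pot_split H.hO h1 α).1
  have h3 := (pot_split H.hO h2 1).2
  rw [g_cnt hs hV, H.c2] at h3
  rw [← h3]
  congr 1
  funext x
  simp only [ind]
  by_cases hx : α < p x
  · rw [if_pos (by simpa using hx), min_eq_right]
    exact le_max_of_le_left (by omega)
  · rw [if_neg (by simpa using hx), max_eq_right (by omega), min_eq_left (by omega)]

/-- number of the letters -/
def P3n (Y : Ct) : ℕ := (Finset.univ.filter (fun x => Y x = true)).card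

theorem P3_sub_card {Y Z : Ct} (h : ∀ x, Y x = true → Z x = true) : P3n Y ≤ P3n Z :=
  Finset.card_le_card fun x hx => by
    simp only [Finset.mem_filter, Finset.mem_univ, true_and] at hx ⊢
    exact h x hx

theorem P3_eq_of_card {Y Z : Ct} (h : ∀ x, Y x = true → Z x = true) (hc : P3n Z ≤ P3n Y) : Y = Z := by
  have h1 : Finset.univ.filter (fun x => Y x = true) = Finset.univ.filter (fun x => Z x = true) := by
    refine Finset.eq_of_subset_of_card_le (fun x hx => ?_) hc
    simp only [Finset.mem_filter, Finset.mem_univ, true_and] at hx ⊢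
    exact h x hx
  funext x
  have h2 := Finset.ext_iff.1 h1 x
  simp only [Finset.mem_filter, Finset.mem_univ, true_and] at h2
  exact Bool.eq_iff_iff.2 h2

theorem P3_sum (N : ℕ) {a : ℤ} (h0 : 0 ≤ a) (hN : a ≤ N) :
    (a : ℤ) = ∑ α ∈ Finset.range N, (if ((α : ℕ) : ℤ) < a then 1 else 0) := by
  obtain ⟨m, rfl⟩ := Int.eq_ofNat_of_zero_le h0
  have hm : m ≤ N := by exact_mod_cast hN
  rw [Finset.sum_ite, Finset.sum_const_zero, add_zero, Finset.sum_const, nsmul_eq_mul, mul_one]
  have h1 : (Finset.range N).filter (fun α : ℕ => (α : ℤ) < (m : ℤ)) = Finset.range m := by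
    ext α
    simp only [Finset.mem_filter, Finset.mem_range, Nat.cast_lt]
    omega
  rw [h1, Finset.card_range]

theorem P3_diff (N : ℕ) {a b : ℤ} (ha : 0 ≤ a) (hb : 0 ≤ b) :
    ∑ α ∈ Finset.range N, (if decide (((α : ℕ) : ℤ) < a) ≠ decide (((α : ℕ) : ℤ) < b) then 1 else 0) ≤
      (a - b).natAbs := by
  rw [Finset.sum_ite, Finset.sum_const_zero, add_zero, Finset.sum_const, smul_eq_mul, mul_one]
  have h1 : (Finset.range N).filter (fun α : ℕ => decide ((α : ℤ) < a) ≠ decide ((α : ℤ) < b)) ⊆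
      Finset.Ico (min a b).toNat (max a b).toNat := by
    intro α hα
    simp only [Finset.mem_filter, Finset.mem_range, ne_eq, decide_eq_decide, Finset.mem_Ico] at hα ⊢
    omega
  refine (Finset.card_le_card h1).trans ?_
  rw [Nat.card_Ico]
  omega

open Classical in
/-- the union of the minimal sets with at most `i` letters -/
noncomputable def P3Y (s : List ((Fin 3 × Bool) × ℤ)) (K : ℕ) (X : Ct) (i : ℕ) : Ct := fun x =>
  decide (∃ Z : Ct, (∀ y, Z y = true → X y = true) ∧ (∃ y, X y = true ∧ Z y = false) ∧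
    gf s (ind Z) = K ∧ P3n Z ≤ i ∧ Z x = true)

theorem P3Y_iff {s : List ((Fin 3 × Bool) × ℤ)} {K : ℕ} {X : Ct} {i : ℕ} {x : Fin 3 × Bool} :
    P3Y s K X i x = true ↔ ∃ Z : Ct, (∀ y, Z y = true → X y = true) ∧
      (∃ y, X y = true ∧ Z y = false) ∧ gf s (ind Z) = K ∧ P3n Z ≤ i ∧ Z x = true := by
  unfold P3Y
  exact decide_eq_true_iff

theorem P3Y_mono {s : List ((Fin 3 × Bool) × ℤ)} {K : ℕ} {X : Ct} {i j : ℕ} (h : i ≤ j)
    (x : Fin 3 × Bool) (hx : P3Y s K X i x = true) : P3Y s K X j x = true := by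
  rw [P3Y_iff] at hx ⊢
  obtain ⟨Z, h1, h2, h3, h4, h5⟩ := hx
  exact ⟨Z, h1, h2, h3, h4.trans h, h5⟩

theorem P3Y_sub {s : List ((Fin 3 × Bool) × ℤ)} {K : ℕ} {X : Ct} {i : ℕ}
    (x : Fin 3 × Bool) (hx : P3Y s K X i x = true) : X x = true := by
  rw [P3Y_iff] at hx
  obtain ⟨Z, h1, h2, h3, h4, h5⟩ := hx
  exact h1 x h5

theorem P3Y_zero {s : List ((Fin 3 × Bool) × ℤ)} {K : ℕ} {X : Ct}
    (x : Fin 3 × Bool) : P3Y s K X 0 x = false := by
  by_contra hx
  have hx' := Bool.eq_true_of_not_eq_false hx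
  rw [P3Y_iff] at hx'
  obtain ⟨Z, h1, h2, h3, h4, h5⟩ := hx'
  have h6 : 0 < P3n Z := Finset.card_pos.2 ⟨x, by simp [h5]⟩
  omega

theorem P3Y_eq {n K : ℕ} {V : CC} (H : Hv n K V) {s : List ((Fin 3 × Bool) × ℤ)}
    (hs : SValid 2 s) (hV : cls (expand 2 s) = V) {X : Ct} (hX : gl s X = 0) (hT : Ti n V 0 X)
    {Z : Ct} (h1 : ∀ y, Z y = true → X y = true) (h2 : ∃ y, X y = true ∧ Z y = false)
    (h3 : gf s (ind Z) = K) : P3Y s K X (P3n Z) = Z := by
  funext x
  refine Bool.eq_iff_iff.2 ⟨fun hx => ?_, fun hx => P3Y_iff.2 ⟨Z, h1, h2, h3, le_rfl, hx⟩⟩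
  obtain ⟨Z', g1, g2, g3, g4, g5⟩ := P3Y_iff.1 hx
  rcases win_chain H hs hV hX hT g1 h1 g3 h3 with h | h
  · exact h x g5
  · rw [P3_eq_of_card h g4]
    exact g5

theorem P3_four {X : Ct} (hX : Lt X) : P3n X ≤ 4 := by
  have h1 : Finset.univ.filter (fun x => X x = true) ⊆
      Finset.univ.filter (fun x : Fin 3 × Bool => x.1 ≠ 2) := by
    intro x hx
    simp only [Finset.mem_filter, Finset.mem_univ, true_and] at hx ⊢
    rintro h
    obtain ⟨i, b⟩ := x
    simp only at h
    subst h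
    cases b
    · rw [hX.2] at hx
      exact Bool.noConfusion hx
    · rw [hX.1] at hx
      exact Bool.noConfusion hx
  refine (Finset.card_le_card h1).trans ?_
  decide

theorem P3_three {X : Ct} (hX : Lt X) (u : Fin 3 × Bool) (hu : u.1 ≠ 2) (hu' : X u = false) :
    P3n X ≤ 3 := by
  have h1 : ∀ x, X x = true → (fun x => X x || decide (x = u)) x = true := by
    intro x hx
    simp [hx]
  have h2 : Lt (fun x => X x || decide (x = u)) := by
    constructor
    · simp only [hX.1, Bool.false_or, decide_eq_false_iff_not]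
      rintro rfl
      exact hu rfl
    · simp only [hX.2, Bool.false_or, decide_eq_false_iff_not]
      rintro rfl
      exact hu rfl
  have h3 := P3_four h2
  by_contra h4
  have h5 := P3_eq_of_card h1 (by omega)
  have h6 := congrFun h5 u
  simp [hu'] at h6

theorem P3_twoo {X : Ct} (hX : Lt X) (u v : Fin 3 × Bool) (huv : u ≠ v) (hu : u.1 ≠ 2) (hv : v.1 ≠ 2)
    (hu' : X u = false) (hv' : X v = false) : P3n X ≤ 2 := by
  have h1 : ∀ x, X x = true → (fun x => X x || decide (x = u)) x = true := by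
    intro x hx
    simp [hx]
  have h2 : Lt (fun x => X x || decide (x = u)) := by
    constructor
    · simp only [hX.1, Bool.false_or, decide_eq_false_iff_not]
      rintro rfl
      exact hu rfl
    · simp only [hX.2, Bool.false_or, decide_eq_false_iff_not]
      rintro rfl
      exact hu rfl
  have h3 := P3_three h2 v hv (by simp [hv', huv.symm])
  by_contra h4
  have h5 := P3_eq_of_card h1 (by omega)
  have h6 := congrFun h5 u
  simp [hu'] at h6

theorem win_rep {n K : ℕ} {V : CC} (H : Hv n K V) {s : List ((Fin 3 × Bool) × ℤ)}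
    (hs : SValid 2 s) (hV : cls (expand 2 s) = V) {X : Ct} (hX : gl s X = 0) (hT : Ti n V 0 X) :
    ∃ Y1 Y2 Y3 : Ct, (∀ x, Y1 x = true → Y2 x = true) ∧ (∀ x, Y2 x = true → Y3 x = true) ∧
      (∀ x, Y3 x = true → X x = true) ∧ ∀ p : Fin 3 × Bool → ℤ, gf s p = K →
        ∃ (t : ℤ) (t1 t2 t3 : ℕ), (∀ x, X x = true →
          p x = t + t1 * ind Y1 x + t2 * ind Y2 x + t3 * ind Y3 x) ∧
          n * (t1 + t2 + t3) ≤ 2 * gx s p X ∧
          (0 < t1 → (∃ x, Y1 x = true) ∧ (∃ x, X x = true ∧ Y1 x = false) ∧ gf s (ind Y1) = K) ∧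
          (0 < t2 → (∃ x, Y2 x = true) ∧ (∃ x, X x = true ∧ Y2 x = false) ∧ gf s (ind Y2) = K) ∧
          (0 < t3 → (∃ x, Y3 x = true) ∧ (∃ x, X x = true ∧ Y3 x = false) ∧ gf s (ind Y3) = K) ∧
          ((∃ u : Fin 3 × Bool, u.1 ≠ 2 ∧ X u = false) → t3 = 0) ∧
          ((∃ u v : Fin 3 × Bool, u ≠ v ∧ u.1 ≠ 2 ∧ v.1 ≠ 2 ∧ X u = false ∧ X v = false) →
            t2 = 0 ∧ t3 = 0) := by
  have hg := gl_iff.1 hX
  refine ⟨P3Y s K X 1, P3Y s K X 2, P3Y s K X 3, P3Y_mono (by norm_num), P3Y_mono (by norm_num),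
    P3Y_sub, fun p hp => ?_⟩
  obtain ⟨x0, hx0, hmin⟩ : ∃ x0, X x0 = true ∧ ∀ x, X x = true → p x0 ≤ p x := by
    obtain ⟨y, hy⟩ := hT.1.2
    obtain ⟨x0, h1, h2⟩ := Finset.exists_min_image (Finset.univ.filter (fun x => X x = true)) p
      ⟨y, by simp [hy]⟩
    simp only [Finset.mem_filter, Finset.mem_univ, true_and] at h1 h2
    exact ⟨x0, h1, h2⟩
  set r : Fin 3 × Bool → ℤ := fun x => if X x then p x - p x0 else 0 with hr
  have hrK : gf s r = K := by
    refine P3_cut H hs hV hX (p := fun x => p x - p x0) ?_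
    rw [← hp]
    exact (P3_cst (p x0) fun x => by ring).symm
  have hr0 : ∀ x, 0 ≤ r x := by
    intro x
    simp only [hr]
    split_ifs with h
    · have := hmin x h
      omega
    · exact le_rfl
  have hrx0 : r x0 = 0 := by simp [hr]
  have hrX : ∀ x, X x = true → r x = p x - p x0 := fun x hx => by simp [hr, hx]
  obtain ⟨N, hN⟩ : ∃ N : ℕ, ∀ x, r x ≤ N := by
    refine ⟨∑ x, (r x).natAbs, fun x => ?_⟩
    have h1 : (r x).natAbs ≤ ∑ x, (r x).natAbs :=
      Finset.single_le_sum (f := fun x => (r x).natAbs) (fun _ _ => Nat.zero_le _) (Finset.mem_univ x)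
    have := hr0 x
    omega
  set L : ℕ → Ct := fun α x => decide ((α : ℤ) < r x) with hL
  have hLX : ∀ α x, L α x = true → X x = true := by
    intro α x hx
    by_contra h
    have h1 : r x = 0 := by simp [hr, h]
    simp only [hL, decide_eq_true_eq] at hx
    omega
  have hLx0 : ∀ α, L α x0 = false := by
    intro α
    simp only [hL, hrx0, decide_eq_false_iff_not]
    omega
  have hLK : ∀ α, gf s (ind (L α)) = K := fun α => P3_lev H hs hV hrK α
  have hLY : ∀ α, P3Y s K X (P3n (L α)) = L α := fun α =>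
    P3Y_eq H hs hV hX hT (hLX α) ⟨x0, hx0, hLx0 α⟩ (hLK α)
  have hLlt : ∀ α, P3n (L α) < P3n X := by
    intro α
    refine lt_of_le_of_ne (P3_sub_card (hLX α)) fun he => ?_
    have h1 := P3_eq_of_card (hLX α) he.ge
    have h2 := hLx0 α
    rw [h1, hx0] at h2
    exact Bool.noConfusion h2
  have hX4 := P3_four hT.1.1
  set t : ℕ → ℕ := fun i => ((Finset.range N).filter (fun α => P3n (L α) = i)).card with ht
  have htpos : ∀ i, 0 < t i → 0 < i → (∃ x, P3Y s K X i x = true) ∧
      (∃ x, X x = true ∧ P3Y s K X i x = false) ∧ gf s (ind (P3Y s K X i)) = K ∧ i < P3n X := by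
    intro i hi hi0
    obtain ⟨α, hα⟩ := Finset.card_pos.1 hi
    simp only [Finset.mem_filter] at hα
    have h1 := hLY α
    rw [hα.2] at h1
    rw [h1]
    refine ⟨?_, ⟨x0, hx0, hLx0 α⟩, hLK α, by rw [← hα.2]; exact hLlt α⟩
    have h2 : 0 < P3n (L α) := by rw [hα.2]; exact hi0
    obtain ⟨x, hx⟩ := Finset.card_pos.1 h2
    simp only [Finset.mem_filter, Finset.mem_univ, true_and] at hx
    exact ⟨x, hx⟩
  refine ⟨p x0, t 1, t 2, t 3, ?_, ?_, ?_, ?_, ?_, ?_, ?_⟩
  · intro x hx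
    have h1 : r x = ∑ α ∈ Finset.range N, ind (L α) x := by
      rw [P3_sum N (hr0 x) (hN x)]
      refine Finset.sum_congr rfl fun α _ => ?_
      simp only [ind, hL, decide_eq_true_eq]
    have h2 : ∑ j ∈ Finset.range 4, ∑ α ∈ (Finset.range N).filter (fun α => P3n (L α) = j),
        ind (L α) x = ∑ α ∈ Finset.range N, ind (L α) x := by
      refine Finset.sum_fiberwise_of_maps_to (fun α _ => ?_) _
      have := hLlt α
      simp only [Finset.mem_range]
      omega
    have h3 : ∀ j, ∑ α ∈ (Finset.range N).filter (fun α => P3n (L α) = j), ind (L α) x =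
        t j * ind (P3Y s K X j) x := by
      intro j
      rw [Finset.sum_congr rfl (g := fun _ => ind (P3Y s K X j) x) ?_, Finset.sum_const, nsmul_eq_mul]
      intro α hα
      simp only [Finset.mem_filter] at hα
      rw [← hα.2, hLY]
    have h4 : ind (P3Y s K X 0) x = 0 := by simp [ind, P3Y_zero]
    rw [← h2, Finset.sum_range_succ, Finset.sum_range_succ, Finset.sum_range_succ,
      Finset.sum_range_succ, Finset.sum_range_zero, h3, h3, h3, h3, h4, hrX x hx] at h1
    linarith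
  · have h1 : n * (t 1 + t 2 + t 3) ≤ ∑ α ∈ Finset.range N, 2 * P3c s X (L α) := by
      have e1 : n * (t 1 + t 2 + t 3) = ∑ α ∈ Finset.range N, n * ((if P3n (L α) = 1 then 1 else 0) +
          (if P3n (L α) = 2 then 1 else 0) + (if P3n (L α) = 3 then 1 else 0)) := by
        rw [← Finset.mul_sum, Finset.sum_add_distrib, Finset.sum_add_distrib, ← Finset.card_filter,
          ← Finset.card_filter, ← Finset.card_filter]
      rw [e1]
      refine Finset.sum_le_sum fun α _ => ?_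
      by_cases h0 : P3n (L α) = 0
      · simp [h0]
      · obtain ⟨x, hx⟩ := Finset.card_pos.1 (Nat.pos_of_ne_zero h0)
        simp only [Finset.mem_filter, Finset.mem_univ, true_and] at hx
        have h2 := win_bd H hs hV hX hT (hLX α) ⟨x, hx⟩ ⟨x0, hx0, hLx0 α⟩
        refine le_trans ?_ h2
        have h3 : ((if P3n (L α) = 1 then 1 else 0) + (if P3n (L α) = 2 then 1 else 0) +
          (if P3n (L α) = 3 then 1 else 0)) ≤ 1 := by
          split_ifs <;> omega
        calc n * _ ≤ n * 1 := Nat.mul_le_mul_left n h3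
          _ = n := mul_one n
    refine h1.trans ?_
    rw [← Finset.mul_sum]
    refine Nat.mul_le_mul_left 2 ?_
    unfold P3c
    rw [P3_swap, P3_gx]
    refine P3_mono fun e he => ?_
    by_cases h2 : e.1.2 = 0 ∧ X e.1.1 = true
    · have hxy := hg e he
      have h3 : X (bar e.2.1) = true := by rw [← hxy]; exact h2.2
      rw [if_pos (by simp [h2.2, h3])]
      have h4 : gk p e = r e.1.1 - r (bar e.2.1) := by
        rw [hrX _ h2.2, hrX _ h3]
        simp only [gk, h2.1]
        ring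
      rw [h4]
      refine le_trans (le_of_eq ?_) (P3_diff N (hr0 e.1.1) (hr0 (bar e.2.1)))
      refine Finset.sum_congr rfl fun α _ => ?_
      simp only [hL, h2.1, h2.2, true_and]
    · have h3 : ∑ α ∈ Finset.range N, (if e.1.2 = 0 ∧ X e.1.1 = true ∧ L α e.1.1 ≠ L α (bar e.2.1)
          then 1 else 0) = 0 := by
        refine Finset.sum_eq_zero fun α _ => ?_
        rw [if_neg]
        rintro ⟨g1, g2, _⟩
        exact h2 ⟨g1, g2⟩
      rw [h3]
      exact Nat.zero_le _
  · intro h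
    obtain ⟨h1, h2, h3, _⟩ := htpos 1 h (by norm_num)
    exact ⟨h1, h2, h3⟩
  · intro h
    obtain ⟨h1, h2, h3, _⟩ := htpos 2 h (by norm_num)
    exact ⟨h1, h2, h3⟩
  · intro h
    obtain ⟨h1, h2, h3, _⟩ := htpos 3 h (by norm_num)
    exact ⟨h1, h2, h3⟩
  · rintro ⟨u, hu, hu'⟩
    by_contra h
    obtain ⟨_, _, _, h4⟩ := htpos 3 (Nat.pos_of_ne_zero h) (by norm_num)
    have := P3_three hT.1.1 u hu hu'
    omega
  · rintro ⟨u, v, huv, hu, hv, hu', hv'⟩
    have h5 := P3_twoo hT.1.1 u v huv hu hv hu' hv'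
    constructor
    · by_contra h
      obtain ⟨_, _, _, h4⟩ := htpos 2 (Nat.pos_of_ne_zero h) (by norm_num)
      omega
    · by_contra h
      obtain ⟨_, _, _, h4⟩ := htpos 3 (Nat.pos_of_ne_zero h) (by norm_num)
      omega

end Pool.Agent.Sims
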