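import Pool.Agent.Sims.RtD1
import Pool.Agent.Sims.RtD2
import Pool.Agent.Sims.RtP3
import Pool.Agent.Sims.RtN

/-!
# Module `RtD3` : conclusion for a window consisting of all light letters

`Osc G W m` : `W = act (pot 2 p) G` with `0 ≤ p ≤ m`.
* `osc_SPerm`: `Fix2 σ`: if `σ.sign 2`: `act (pot 2 p) (act σ.aut G) = act σ.aut (act (pot 2 (p ∘ σ.letter)) G)`; else the same with `m - p ∘ σ.letter` (`pot_const`).  (On generators: as in `ps_SPerm`, module `RtP2`.)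
* `e4_t3`: let `e` satisfy `Hv n K e`, `capC e (PrC 2) = n`, `2 K = n k`.  There are `Y1, Y2, Y3` (depending on `e` only) such that: if `p` is feasible at `e` (`cnt (act (pot 2 p) e) 2 = K`), `0 ≤ p ≤ m`, then `act (pot 2 p) e = act (pot 2 (t1 ind Y1 + t2 ind Y2 + t3 ind Y3)) e`,
  `t1 + t2 + t3 ≤ min m k`, and for every `i` with `ti > 0`: `cnt (act (pot 2 (ind Yi)) e) 2 = K`, and `Osc (act (pot 2 (k · ind Yi)) e) (act (pot 2 p) e) (k - ti)`.
  Proof: `s` a syllable list (`hv_gl`); `X = LL`: `gl s LL = 0` (all heads are light, `gf_light`/`SValid`), `Ti n e 0 LL` (`hv_ti0`, `capC_compl`).  `win_rep`: `p x = t + Σ ti ind Yi x` for light `x` (`pot_const`, `pot_congr`: same class), `n Σ ti ≤ 2 gx s p LL ≤ 2 gf s p = 2 K = n k`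
  (`gx ≤ gf` termwise), so `Σ ti ≤ k`.  `Σ ti ≤ m`: if all `ti = 0` clear; else let `i` be the first, `l` the last index with `ti > 0`, `tl > 0`: `Yi` contains a light letter with `p = t + Σ`, some light letter outside `Yl` has `p = t` (also outside `Yj ⊆ Yl`, `j ≤ l`).
  `gf s (ind Yi) = K` is `cnt (act (pot 2 (ind Yi)) e) 2 = K` (`g_cnt`).  Last claim: `p' = Σ tj ind Yj - k ind Yi`; with `v = ti + .. + t3` (`Σ_{l ≥ i} tl`): on `Yi` the values of `p'` are in `[v - k, Σ - k] ⊆ [v - k, 0]`, outside `Yi` in `[0, v - ti]`; so `p' + (k - v)` has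
  values in `[0, k - ti]` (on the letters `c^{±1}` put `0`, `pot_congr`), `pot_add`, `pot_const`.
* `e4_bdd`: `e4_all`, `e4_ext`: `V = pw (e2 k) Ω`, `2 K = n k`; `k ≥ 3` (`K > n`).  `R = {pw (e2 k) Ω' | Ω' ∈ SQ PN Qc ⊤ Ω}`.  `CovF2 R 120` (`e4_count`, `pw_SPerm`: `e2 k (σ.perm i) = e2 k i` for `Fix2 σ`), `covF2_sub`: finite set `F ⊆ R`.  `ER n V ⊆ R` (`er_e4`), all of `R` satisfies
  the hypotheses of `e4_t3` (`pw_hv`).  Let `d ∈ orb V`.  `r2_cover`: `d = act σ.aut W`, `W = act (pot 2 p) G`, `G ∈ R`, `cnt W 2 = K`; after adding a constant `Osc G W m` for some `m`.  Choose `(σ, G, W)` and `m` with `d = act σ.aut W`, `G ∈ R`, `cnt W 2 = K`, `Osc G W m` and `m`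
  minimal.  `G = act τ.aut e`, `e ∈ F`, `osc_SPerm`: `W = act τ.aut W'`, `Osc e W' m`, `d = act (σ τ).aut W'` (`Conn_act_comp`-type composition).  `e4_t3` for `e`: `t1, t2, t3`.  For `ti > 0`: `e = pw (e2 k) Ω'`; `lvl_one` (`2 cnt Ω' 2 = n = capC Ω' (PrC 2)`) and `lvl_step`:
  `act (pot 2 (ind Yi)) Ω' ∈ SQ ..`, and `act (pot 2 (k ind Yi)) e = pw (e2 k) (act (pot 2 (ind Yi)) Ω') ∈ R` (`pw_pot`).  Minimality of `m`: `m ≤ k - ti`, so `ti + Σ ≤ k`; for `ti = 0` this is `Σ ≤ k`.  So `(t1,t2,t3) ∈ T3 k`.  At most `120 * (T3 k).card ≤ F3 (8 + 2 k)` (`n_t3`)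
  classes up to signed permutations, and `8 + 2 k ≤ 2 n + K = cycLen V` (`n ≥ 4`, `2 K = n k ≥ 4 k`), `n_mono`.
Difficulty 4.
-/

namespace Pool.Agent.Sims

/-- potential with values in `[0, m]` -/
def Osc (G W : CC) (m : ℕ) : Prop :=
  ∃ p : Fin 3 × Bool → ℤ, (∀ x, 0 ≤ p x ∧ p x ≤ m) ∧ W = act (pot 2 p) G

private theorem RtD3_zpow (b : Bool) (k : ℤ) :
    (lett ((2 : Fin 3), b) : FreeGroup (Fin 3)) ^ k =
      (FreeGroup.of 2) ^ (if b = true then k else -k) := by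
  cases b with
  | true => rw [lett_true, if_pos rfl]
  | false => rw [lett_false, if_neg (by decide), zpow_neg, inv_zpow]

private theorem RtD3_comm {σ : SPerm (Fin 3)} (hσ : Fix2 σ) (p : Fin 3 × Bool → ℤ) (V : CC) :
    act σ.aut (act (pot 2 (fun x => if σ.sign 2 = true then p (σ.letter x) else
      - p (σ.letter x))) V) = act (pot 2 p) (act σ.aut V) := by
  have hσ' : σ.perm 2 = 2 := hσ
  rw [act_act, act_act]
  congr 1
  apply Rel_ext
  intro i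
  refine ⟨true, ?_⟩
  have hof : σ.aut (FreeGroup.of 2) = lett ((2 : Fin 3), σ.sign 2) := by
    rw [← lett_true, Rel_aut_apply, SPerm.hom_lett]
    simp only [SPerm.letter, hσ']
    cases σ.sign 2 <;> rfl
  show σ.aut (pot 2 _ (lett (i, true))) = pot 2 p (σ.aut (lett (i, true)))
  by_cases hi : i = 2
  · subst hi
    rw [Rel_pot_self 2 _ (x := ((2 : Fin 3), true)) rfl, Rel_aut_apply, SPerm.hom_lett,
      Rel_pot_self 2 p (x := σ.letter ((2 : Fin 3), true)) hσ']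
  · have h2 : (σ.letter (i, true)).1 ≠ 2 := by
      intro h
      apply hi
      have h3 : σ.perm i = 2 := h
      rw [← hσ'] at h3
      exact σ.perm.injective h3
    rw [Rel_pot_ne _ (x := (i, true)) hi, map_mul, map_mul, map_zpow, map_zpow, hof,
      Rel_aut_apply, SPerm.hom_lett, Rel_pot_ne p h2, RtD3_zpow, RtD3_zpow, SPerm.letter_bar]
    cases σ.sign 2 <;> simp

theorem RtD3_osc {e : CC} {P : Fin 3 × Bool → ℤ} {Y : Ct} {k c : ℤ} {m : ℕ}
    (h : ∀ x : Fin 3 × Bool, x.1 ≠ 2 → 0 ≤ P x - k * ind Y x + c ∧ P x - k * ind Y x + c ≤ m) :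
    Osc (act (pot 2 (fun x => k * ind Y x)) e) (act (pot 2 P) e) m := by
  refine ⟨fun x => if x.1 = 2 then 0 else P x - k * ind Y x + c, fun x => ?_, ?_⟩
  · by_cases hx : x.1 = 2
    · simp only [if_pos hx]
      exact ⟨le_rfl, Int.natCast_nonneg _⟩
    · simp only [if_neg hx]
      exact h x hx
  · rw [pot_add]
    symm
    refine pot_const c (fun x hx => ?_) e
    simp only [Pi.add_apply, if_neg hx]
    ring

theorem RtD3_ind {Y : Ct} {x : Fin 3 × Bool} (h : Y x = true) : ind Y x = 1 := if_pos h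

theorem RtD3_ind' {Y : Ct} {x : Fin 3 × Bool} (h : Y x = false) : ind Y x = 0 := by
  unfold ind
  rw [h]
  rfl

theorem RtD3_01 (Y : Ct) (x : Fin 3 × Bool) : ind Y x = 0 ∨ ind Y x = 1 := by
  cases h : Y x
  · exact Or.inl (RtD3_ind' h)
  · exact Or.inr (RtD3_ind h)

theorem RtD3_sub {Y Y' : Ct} (h : ∀ x, Y x = true → Y' x = true) {x : Fin 3 × Bool} (hx : Y' x = false) :
    Y x = false := by
  by_contra hc
  rw [Bool.not_eq_false] at hc
  rw [h x hc] at hx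
  exact absurd hx (by decide)

theorem RtD3_ran (p : Fin 3 × Bool → ℤ) (G : CC) : ∃ m : ℕ, Osc G (act (pot 2 p) G) m := by
  obtain ⟨c, hc⟩ : ∃ c : ℕ, ∀ x, |p x| ≤ c := by
    refine ⟨∑ x, (p x).natAbs, fun x => ?_⟩
    have h1 : (p x).natAbs ≤ ∑ x, (p x).natAbs :=
      Finset.single_le_sum (f := fun x => (p x).natAbs) (fun _ _ => Nat.zero_le _) (Finset.mem_univ x)
    rw [Int.abs_eq_natAbs]
    exact_mod_cast h1
  refine ⟨2 * c, fun x => p x + c, fun x => ?_, ?_⟩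
  · have := abs_le.1 (hc x)
    push_cast
    constructor <;> linarith [this.1, this.2]
  · symm
    exact pot_const (c : ℤ) (fun x _ => rfl) G

theorem RtD3_e2 {k : ℕ} {σ : SPerm (Fin 3)} (h : Fix2 σ) (i : Fin 3) : e2 k (σ.perm i) = e2 k i := by
  have h' : σ.perm 2 = 2 := h
  unfold e2
  by_cases hi : i = 2
  · rw [hi, h']
  · have h1 : σ.perm i ≠ 2 := by
      intro h2
      rw [← h'] at h2
      exact hi (σ.perm.injective h2)
    rw [Function.update_of_ne h1, Function.update_of_ne hi]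

theorem osc_SPerm {σ : SPerm (Fin 3)} (hσ : Fix2 σ) {G W : CC} {m : ℕ}
    (h : Osc (act σ.aut G) W m) : ∃ W', W = act σ.aut W' ∧ Osc G W' m := by
  obtain ⟨p, hp, hW⟩ := h
  rw [← RtD3_comm hσ p G] at hW
  refine ⟨_, hW, ?_⟩
  by_cases hs : σ.sign 2 = true
  · simp only [if_pos hs]
    exact ⟨fun x => p (σ.letter x), fun x => hp _, rfl⟩
  · simp only [if_neg hs]
    refine ⟨fun x => - p (σ.letter x) + m, fun x => ?_, ?_⟩
    · have := hp (σ.letter x)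
      constructor <;> linarith [this.1, this.2]
    · symm
      exact pot_const (m : ℤ) (fun x _ => rfl) G

theorem e4_t3 {n K k : ℕ} {e : CC} (H : Hv n K e) (hT : capC e (PrC 2) = n) (hK : 2 * K = n * k) :
    ∃ Y1 Y2 Y3 : Ct, ∀ (W : CC) (m : ℕ), Osc e W m → cnt W 2 = K → ∃ t1 t2 t3 : ℕ,
      W = act (pot 2 (fun x => t1 * ind Y1 x + t2 * ind Y2 x + t3 * ind Y3 x)) e ∧
      t1 + t2 + t3 ≤ m ∧ t1 + t2 + t3 ≤ k ∧
      (0 < t1 → cnt (act (pot 2 (ind Y1)) e) 2 = K ∧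
        Osc (act (pot 2 (fun x => (k : ℤ) * ind Y1 x)) e) W (k - t1)) ∧
      (0 < t2 → cnt (act (pot 2 (ind Y2)) e) 2 = K ∧
        Osc (act (pot 2 (fun x => (k : ℤ) * ind Y2 x)) e) W (k - t2)) ∧
      (0 < t3 → cnt (act (pot 2 (ind Y3)) e) 2 = K ∧
        Osc (act (pot 2 (fun x => (k : ℤ) * ind Y3 x)) e) W (k - t3)) := by
  obtain ⟨s, -, hs, hV⟩ := hv_gl H
  have hbar : ∀ x : Fin 3 × Bool, (bar x).1 = x.1 := fun _ => rfl
  have hLL : gl s LL = 0 := by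
    rw [gl_iff]
    intro e he
    obtain ⟨h1, h2⟩ := gf_light hs e he
    unfold LL
    rw [hbar, decide_eq_decide]
    exact ⟨fun _ => h2, fun _ => h1⟩
  have hTi : Ti n e 0 LL := by
    rw [hv_ti0]
    refine ⟨⟨⟨rfl, rfl⟩, ⟨(0, true), rfl⟩⟩, ?_⟩
    rw [← hT, ← capC_compl e (PrC 2)]
    apply capC_congr
    intro x
    unfold LL PrC
    rw [decide_not]
  obtain ⟨Y1, Y2, Y3, h12, h23, h3L, hrep⟩ := win_rep H hs hV hLL hTi
  refine ⟨Y1, Y2, Y3, ?_⟩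
  rintro W m ⟨p, hpm, rfl⟩ hWK
  have hp : gf s p = K := by rw [← g_cnt hs hV p]; exact hWK
  obtain ⟨t, t1, t2, t3, ht, hn, hY1, hY2, hY3, -, -⟩ := hrep p hp
  have hgx : gx s p LL = K := by
    rw [← hp]
    unfold gx gf
    have hl : ∀ a ∈ s, a.1.1 ≠ 2 := hs.1
    apply SylB_cyc_congr
    intro a ha r hr
    have e1 : LL a.1 = true := decide_eq_true (hl a ha)
    have e2 : LL (bar r.1) = true := decide_eq_true (by rw [hbar]; exact hl r hr)
    rw [e1, e2]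
    rfl
  rw [hgx, hK] at hn
  have hn0 : 0 < n := by
    have := H.h4
    omega
  have hk : t1 + t2 + t3 ≤ k := Nat.le_of_mul_le_mul_left hn hn0
  have hLL' : ∀ x : Fin 3 × Bool, LL x = true → x.1 ≠ 2 := fun x hx => of_decide_eq_true hx
  have hWP : act (pot 2 p) e =
      act (pot 2 (fun x => (t1 : ℤ) * ind Y1 x + t2 * ind Y2 x + t3 * ind Y3 x)) e := by
    refine pot_const t (fun x hx => ?_) e
    rw [ht x (decide_eq_true hx)]
    ring
  have hm : t1 + t2 + t3 ≤ m := by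
    rcases Nat.eq_zero_or_pos (t1 + t2 + t3) with h0 | h0
    · omega
    have hA : ∃ x, LL x = true ∧ (t1 : ℤ) * ind Y1 x + t2 * ind Y2 x + t3 * ind Y3 x = t1 + t2 + t3 := by
      rcases Nat.eq_zero_or_pos t1 with h1 | h1
      · rcases Nat.eq_zero_or_pos t2 with h2 | h2
        · have h3 : 0 < t3 := by omega
          obtain ⟨⟨x, hx⟩, -, -⟩ := hY3 h3
          refine ⟨x, h3L x hx, ?_⟩
          rw [h1, h2, RtD3_ind hx]
          push_cast
          ring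
        · obtain ⟨⟨x, hx⟩, -, -⟩ := hY2 h2
          refine ⟨x, h3L x (h23 x hx), ?_⟩
          rw [h1, RtD3_ind hx, RtD3_ind (h23 x hx)]
          push_cast
          ring
      · obtain ⟨⟨x, hx⟩, -, -⟩ := hY1 h1
        refine ⟨x, h3L x (h23 x (h12 x hx)), ?_⟩
        rw [RtD3_ind hx, RtD3_ind (h12 x hx), RtD3_ind (h23 x (h12 x hx))]
        ring
    have hB : ∃ y, LL y = true ∧ (t1 : ℤ) * ind Y1 y + t2 * ind Y2 y + t3 * ind Y3 y = 0 := by
      rcases Nat.eq_zero_or_pos t3 with h3 | h3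
      · rcases Nat.eq_zero_or_pos t2 with h2 | h2
        · have h1 : 0 < t1 := by omega
          obtain ⟨-, ⟨y, hy, hy'⟩, -⟩ := hY1 h1
          refine ⟨y, hy, ?_⟩
          rw [h3, h2, RtD3_ind' hy']
          push_cast
          ring
        · obtain ⟨-, ⟨y, hy, hy'⟩, -⟩ := hY2 h2
          refine ⟨y, hy, ?_⟩
          rw [h3, RtD3_ind' hy', RtD3_ind' (RtD3_sub h12 hy')]
          push_cast
          ring
      · obtain ⟨-, ⟨y, hy, hy'⟩, -⟩ := hY3 h3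
        refine ⟨y, hy, ?_⟩
        rw [RtD3_ind' hy', RtD3_ind' (RtD3_sub h23 hy'), RtD3_ind' (RtD3_sub h12 (RtD3_sub h23 hy'))]
        ring
    obtain ⟨x, hx, hx'⟩ := hA
    obtain ⟨y, hy, hy'⟩ := hB
    have e1 := ht x hx
    have e2 := ht y hy
    have b1 := (hpm x).2
    have b2 := (hpm y).1
    have : ((t1 + t2 + t3 : ℕ) : ℤ) ≤ m := by
      push_cast
      linarith
    exact_mod_cast this
  rw [hWP]
  refine ⟨t1, t2, t3, rfl, hm, hk, fun h => ⟨?_, ?_⟩, fun h => ⟨?_, ?_⟩, fun h => ⟨?_, ?_⟩⟩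
  · rw [g_cnt hs hV]
    exact (hY1 h).2.2
  · refine RtD3_osc (c := (k : ℤ) - (t1 + t2 + t3)) (fun x _ => ?_)
    have hk' : (t1 : ℤ) + t2 + t3 ≤ k := by exact_mod_cast hk
    have hc : ((k - t1 : ℕ) : ℤ) = k - t1 := by
      rw [Nat.cast_sub (by omega)]
    rw [hc]
    have n1 : (0 : ℤ) ≤ t1 := Int.natCast_nonneg _
    have n2 : (0 : ℤ) ≤ t2 := Int.natCast_nonneg _
    have n3 : (0 : ℤ) ≤ t3 := Int.natCast_nonneg _
    rcases hx1 : Y1 x with _ | _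
    · rw [RtD3_ind' hx1]
      rcases RtD3_01 Y2 x with e2 | e2 <;> rcases RtD3_01 Y3 x with e3 | e3 <;> rw [e2, e3] <;>
        constructor <;> linarith
    · rw [RtD3_ind hx1, RtD3_ind (h12 x hx1), RtD3_ind (h23 x (h12 x hx1))]
      constructor <;> linarith
  · rw [g_cnt hs hV]
    exact (hY2 h).2.2
  · refine RtD3_osc (c := (k : ℤ) - (t2 + t3)) (fun x _ => ?_)
    have hk' : (t1 : ℤ) + t2 + t3 ≤ k := by exact_mod_cast hk
    have hc : ((k - t2 : ℕ) : ℤ) = k - t2 := by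
      rw [Nat.cast_sub (by omega)]
    rw [hc]
    have n1 : (0 : ℤ) ≤ t1 := Int.natCast_nonneg _
    have n2 : (0 : ℤ) ≤ t2 := Int.natCast_nonneg _
    have n3 : (0 : ℤ) ≤ t3 := Int.natCast_nonneg _
    rcases hx2 : Y2 x with _ | _
    · rw [RtD3_ind' hx2, RtD3_ind' (RtD3_sub h12 hx2)]
      rcases RtD3_01 Y3 x with e3 | e3 <;> rw [e3] <;> constructor <;> linarith
    · rw [RtD3_ind hx2, RtD3_ind (h23 x hx2)]
      rcases RtD3_01 Y1 x with e1 | e1 <;> rw [e1] <;> constructor <;> linarith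
  · rw [g_cnt hs hV]
    exact (hY3 h).2.2
  · refine RtD3_osc (c := (k : ℤ) - t3) (fun x _ => ?_)
    have hk' : (t1 : ℤ) + t2 + t3 ≤ k := by exact_mod_cast hk
    have hc : ((k - t3 : ℕ) : ℤ) = k - t3 := by
      rw [Nat.cast_sub (by omega)]
    rw [hc]
    have n1 : (0 : ℤ) ≤ t1 := Int.natCast_nonneg _
    have n2 : (0 : ℤ) ≤ t2 := Int.natCast_nonneg _
    have n3 : (0 : ℤ) ≤ t3 := Int.natCast_nonneg _
    rcases hx3 : Y3 x with _ | _
    · rw [RtD3_ind' hx3, RtD3_ind' (RtD3_sub h23 hx3), RtD3_ind' (RtD3_sub h12 (RtD3_sub h23 hx3))]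
      constructor <;> linarith
    · rw [RtD3_ind hx3]
      rcases RtD3_01 Y1 x with e1 | e1 <;> rcases RtD3_01 Y2 x with e2 | e2 <;> rw [e1, e2] <;>
        constructor <;> linarith

theorem e4_bdd {n K : ℕ} {V : CC} (H : Hv n K V) (hG : GdC n V) {U I : Ct} {κ : ℤ}
    (hR : RotW n V U I κ) (hU : ∀ x : Fin 3 × Bool, x.1 ≠ 2 → U x = true) :
    Bdd V (F3 (cycLen V)) := by
  classical
  obtain ⟨k, Ω, hk, hK, hVe, B, hX⟩ := e4_ext H hR hU
  have hn4 := H.h4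
  have hKn := H.hK
  have hk3 : 3 ≤ k := by
    by_contra hc
    have h1 : k ≤ 2 := by omega
    have h2 : n * k ≤ n * 2 := Nat.mul_le_mul_left n h1
    omega
  -- the set of the charts
  obtain ⟨R, hRd⟩ : ∃ R : Set CC, R = {X | ∃ Ω' ∈ SQ PN Qc (fun _ => True) Ω, X = pw (e2 k) Ω'} := ⟨_, rfl⟩
  have hRi : ∀ X, X ∈ R ↔ ∃ Ω' ∈ SQ PN Qc (fun _ => True) Ω, X = pw (e2 k) Ω' := by
    intro X
    rw [hRd]
    rfl
  have HV : Hv n K (pw (e2 k) Ω) := by rw [← hVe]; exact H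
  have hRH : ∀ X ∈ R, Hv n K X ∧ capC X (PrC 2) = n := by
    intro X hXR
    obtain ⟨Ω', hΩ', rfl⟩ := (hRi X).1 hXR
    exact pw_hv hk hK B HV hΩ'
  have hcov : CovF2 R 120 := by
    obtain ⟨F, hF, hFW⟩ := e4_count B hX
    refine ⟨F.image (pw (e2 k)), Finset.card_image_le.trans hF, fun X hXR => ?_⟩
    obtain ⟨Ω', hΩ', rfl⟩ := (hRi X).1 hXR
    obtain ⟨σ, hσ, e, he, hWe⟩ := hFW Ω' hΩ'
    refine ⟨σ, hσ, _, Finset.mem_image_of_mem _ he, ?_⟩
    rw [hWe, pw_SPerm (RtD3_e2 hσ)]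
  obtain ⟨F, hF, hFR, hFW⟩ := covF2_sub hcov
  have hY : ∀ e ∈ F, ∃ Y1 Y2 Y3 : Ct, ∀ (W : CC) (m : ℕ), Osc e W m → cnt W 2 = K → ∃ t1 t2 t3 : ℕ,
      W = act (pot 2 (fun x => t1 * ind Y1 x + t2 * ind Y2 x + t3 * ind Y3 x)) e ∧
      t1 + t2 + t3 ≤ m ∧ t1 + t2 + t3 ≤ k ∧
      (0 < t1 → cnt (act (pot 2 (ind Y1)) e) 2 = K ∧
        Osc (act (pot 2 (fun x => (k : ℤ) * ind Y1 x)) e) W (k - t1)) ∧
      (0 < t2 → cnt (act (pot 2 (ind Y2)) e) 2 = K ∧
        Osc (act (pot 2 (fun x => (k : ℤ) * ind Y2 x)) e) W (k - t2)) ∧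
      (0 < t3 → cnt (act (pot 2 (ind Y3)) e) 2 = K ∧
        Osc (act (pot 2 (fun x => (k : ℤ) * ind Y3 x)) e) W (k - t3)) := by
    intro e he
    obtain ⟨h1, h2⟩ := hRH e (hFR e he)
    exact e4_t3 h1 h2 hK
  choose! Y1 Y2 Y3 hYY using hY
  -- the rotated charts are charts
  have hrot : ∀ e ∈ R, ∀ Y : Ct, cnt (act (pot 2 (ind Y)) e) 2 = K →
      act (pot 2 (fun x => (k : ℤ) * ind Y x)) e ∈ R := by
    intro e he Y hYK
    have hce := (hRH e he).1.c2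
    obtain ⟨Ω', hΩ', rfl⟩ := (hRi e).1 he
    obtain ⟨B', -⟩ := pn_sq B hΩ'
    have h1 : 2 * cnt Ω' 2 = capC Ω' (PrC 2) := by
      rw [bq_cnt B' rfl, B'.t 2 rfl]
    have h2 := lvl_one hk (pn_pos B') h1 (Y := Y) (by rw [hYK, hce])
    have h3 := lvl_step hΩ' h2
    rw [hRi]
    refine ⟨_, h3, ?_⟩
    have h4 := pw_pot (e := e2 k) (j := 2) (p := ind Y)
      (fun i hi hi' => absurd (show e2 k i = 1 from Function.update_of_ne hi _ _) hi') Ω'
    rw [h4]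
    have h5 : e2 k 2 = k := Function.update_self _ _ _
    rw [h5]
  refine Bdd_mono (N := (F.card * (T3 k).card)) ?_ ?_
  · refine ⟨(F ×ˢ T3 k).image (fun q => act (pot 2 (fun x => (q.2.1 : ℤ) * ind (Y1 q.1) x +
      (q.2.2.1 : ℤ) * ind (Y2 q.1) x + (q.2.2.2 : ℤ) * ind (Y3 q.1) x)) q.1), ?_, ?_⟩
    · refine Finset.card_image_le.trans ?_
      rw [Finset.card_product]
    · intro d hd
      have hex : ∃ m : ℕ, ∃ (σ : SPerm (Fin 3)) (G W : CC), d = act σ.aut W ∧ G ∈ R ∧ cnt W 2 = K ∧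
          Osc G W m := by
        obtain ⟨σ, G, p, hG', hc, hd'⟩ := r2_cover H hG hd
        obtain ⟨m, hm⟩ := RtD3_ran p G
        obtain ⟨Ω', hΩ', hGΩ⟩ := er_e4 H hG hk hK B hVe hG'
        exact ⟨m, σ, G, _, hd', (hRi G).2 ⟨Ω', hΩ', hGΩ⟩, hc, hm⟩
      obtain ⟨m, ⟨σ, G, W, hdW, hGR, hWK, hosc⟩, hmin⟩ : ∃ m : ℕ, (∃ (σ : SPerm (Fin 3)) (G W : CC),
          d = act σ.aut W ∧ G ∈ R ∧ cnt W 2 = K ∧ Osc G W m) ∧ ∀ m', (∃ (σ : SPerm (Fin 3)) (G W : CC),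
          d = act σ.aut W ∧ G ∈ R ∧ cnt W 2 = K ∧ Osc G W m') → m ≤ m' :=
        ⟨Nat.find hex, Nat.find_spec hex, fun m' h => Nat.find_min' hex h⟩
      obtain ⟨τ, hτ, e, he, rfl⟩ := hFW G hGR
      obtain ⟨W', rfl, hosc'⟩ := osc_SPerm hτ hosc
      have hW'K : cnt W' 2 = K := by
        have h1 := cnt_SPerm τ W' 2
        have h2 : τ.perm 2 = 2 := hτ
        rw [h2, hWK] at h1
        exact h1.symm
      obtain ⟨π, hπ, -, -, -⟩ := SPerm_mul σ τ
      rw [hπ] at hdW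
      obtain ⟨t1, t2, t3, hW', hm, hk', a1, a2, a3⟩ := hYY e he W' m hosc' hW'K
      have key : ∀ (t : ℕ) (Y : Ct), t ≤ t1 + t2 + t3 → (0 < t → cnt (act (pot 2 (ind Y)) e) 2 = K ∧
          Osc (act (pot 2 (fun x => (k : ℤ) * ind Y x)) e) W' (k - t)) → t + (t1 + t2 + t3) ≤ k := by
        intro t Y ht hh
        rcases Nat.eq_zero_or_pos t with h0 | h0
        · omega
        · obtain ⟨b1, b2⟩ := hh h0
          have h1 := hmin (k - t) ⟨π, _, W', hdW, hrot e (hFR e he) Y b1, hW'K, b2⟩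
          omega
      have c1 := key t1 (Y1 e) (by omega) a1
      have c2 := key t2 (Y2 e) (by omega) a2
      have c3 := key t3 (Y3 e) (by omega) a3
      refine ⟨π, _, Finset.mem_image.2 ⟨(e, t1, t2, t3), Finset.mem_product.2 ⟨he, ?_⟩, rfl⟩, ?_⟩
      · refine Finset.mem_filter.2 ⟨?_, c1, c2, c3⟩
        simp only [Finset.mem_product, Finset.mem_range]
        omega
      · rw [hdW]
        congr 1
  · have h1 : F.card * (T3 k).card ≤ 120 * (T3 k).card := Nat.mul_le_mul_right _ hF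
    have h2 := n_t3 hk3
    have h3 : cycLen V = n + n + K := by
      rw [cycLen_eq_sum, Fin.sum_univ_three, H.c0, H.c1, H.c2]
    have h4 : 4 * k ≤ n * k := Nat.mul_le_mul_right k hn4
    have h5 : F3 (8 + 2 * k) ≤ F3 (cycLen V) := n_mono (by omega) (by omega)
    omega

end Pool.Agent.Sims
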