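import Pool.Agent.Sims.RtE12

/-!
# Module `RtE13` : conclusion for a window which is not the set of all light letters

* `win_z`: a closed set `U` with `U ≠ ∅`, `U ≠` all light letters contains a light letter `z` with `z⁻¹ ∉ U`: otherwise `U` is a union of pairs, i.e. `{a, a⁻¹}` or `{b, b⁻¹}` on light letters: `ec_npr`.
* `e_bdd`: `RotW n V U I κ`, `z ∈ U`, `z⁻¹ ∉ U`.  Signed permutation `σ` with `σ.letter z = (1,true)`, `Fix2 σ`; `V' = act σ.aut V`: `hv_sp`, `gd_sp`, `rot_sp`: window `U' ∋ (1,true)`, `∌ (1,false)`.  `th1_mk`: `act (wh (1,true) U') V' = th k Ω`, `T : Th1 n K k Ω`.  It is a light move of `V'`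
  (`Lt U'`, `capC V' U' = n = cnt V' 1`), so `th k Ω ∈ ER n V'`; `er_inv`: `GdC n (th k Ω)`; `th k Ω ∈ orb V' = orb V` (`Lv_Sm`).  `cycLen V = 2 n + K` (`cycLen_eq_sum`).  Let `D = SQ P2 Qt (· ≠ 2) Ω`.  (a) `n < capC Ω (PrC 2)`: `clg_nd`, `e_single`.  (b) `capC Ω (PrC 2) = n` (`th1_facts`: `≥ n`) and no `Ω' ∈ D` has
  a rotation at `th k Ω'`: `clg_dt`, `e_single`.  (c) `capC Ω (PrC 2) = n` and some `Ω' ∈ D` has a rotation at `th k Ω'`: `Th1 n K k Ω'` (`th1_sq`), `capC Ω' (PrC 2) = n` (`th1_D`); `th2_ex`: `Ω' = pw (e2 k') Ω0`, `Th2 n K k k' Ω0`.  `Ω ∈ SQ P2 Qt (· ≠ 2) Ω'` (`SQ_symm`), and the set of `clg2` contains `Ω'` (`SQ_refl`)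
  and is closed under `StQ P2 Qt (· ≠ 2)` (`ClG.s`): it contains `Ω`: `e_double`.  `Bdd_orb` to return from `th k Ω` to `V`.
Difficulty 3.
-/

namespace Pool.Agent.Sims

theorem win_z {n K : ℕ} {V : CC} (H : Hv n K V) {U : Ct} (hU : Ec V U) (h1 : ∃ x, U x = true)
    (h2 : ∃ x : Fin 3 × Bool, x.1 ≠ 2 ∧ U x = false) :
    ∃ z : Fin 3 × Bool, z.1 ≠ 2 ∧ U z = true ∧ U (bar z) = false := by
  by_contra hcon
  push Not at hcon
  have hL : Lt U := hU.1
  have e0 : U (0, true) = U (0, false) := by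
    have a1 := hcon (0, true) (by decide)
    have a2 := hcon (0, false) (by decide)
    simp only [bar, Bool.not_true, Bool.not_false] at a1 a2
    cases h : U (0, true) <;> cases h' : U (0, false) <;> simp_all
  have e1 : U (1, true) = U (1, false) := by
    have a1 := hcon (1, true) (by decide)
    have a2 := hcon (1, false) (by decide)
    simp only [bar, Bool.not_true, Bool.not_false] at a1 a2
    cases h : U (1, true) <;> cases h' : U (1, false) <;> simp_all
  obtain ⟨x, hx⟩ := h1
  obtain ⟨y, hy2, hy⟩ := h2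
  have t2 : U (2, true) = false := hL.1
  have f2 : U (2, false) = false := hL.2
  cases h : U (0, true) with
  | true =>
    cases h' : U (1, true) with
    | true =>
      rw [h] at e0
      rw [h'] at e1
      rcases y with ⟨i, b⟩
      fin_cases i
      · cases b
        · simp_all
        · simp_all
      · cases b
        · simp_all
        · simp_all
      · exact hy2 rfl
    | false =>
      rw [h] at e0
      rw [h'] at e1
      refine ec_npr H hU (i := 0) (by decide) ?_
      rintro ⟨i, b⟩ hi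
      fin_cases i
      · cases b
        · simpa [PrC] using e0.symm
        · simpa [PrC] using h
      · cases b
        · simpa [PrC] using e1.symm
        · simpa [PrC] using h'
      · exact absurd rfl hi
  | false =>
    cases h' : U (1, true) with
    | true =>
      rw [h] at e0
      rw [h'] at e1
      refine ec_npr H hU (i := 1) (by decide) ?_
      rintro ⟨i, b⟩ hi
      fin_cases i
      · cases b
        · simpa [PrC] using e0.symm
        · simpa [PrC] using h
      · cases b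
        · simpa [PrC] using e1.symm
        · simpa [PrC] using h'
      · exact absurd rfl hi
    | false =>
      rw [h] at e0
      rw [h'] at e1
      rcases x with ⟨i, b⟩
      fin_cases i
      · cases b
        · exact absurd (e0.trans hx) Bool.false_ne_true
        · exact absurd (h.symm.trans hx) Bool.false_ne_true
      · cases b
        · exact absurd (e1.trans hx) Bool.false_ne_true
        · exact absurd (h'.symm.trans hx) Bool.false_ne_true
      · cases b
        · exact absurd (f2.symm.trans hx) Bool.false_ne_true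
        · exact absurd (t2.symm.trans hx) Bool.false_ne_true

theorem RtE13_sp (z : Fin 3 × Bool) (hz : z.1 ≠ 2) :
    ∃ σ : SPerm (Fin 3), Fix2 σ ∧ σ.letter z = (1, true) := by
  rcases z with ⟨i, b⟩
  fin_cases i
  · refine ⟨⟨Equiv.swap 0 1, fun _ => b⟩, ?_, ?_⟩
    · show Equiv.swap (0 : Fin 3) 1 2 = 2
      decide
    · cases b
      · show (Equiv.swap (0 : Fin 3) 1 0, _) = _
        simp
      · show (Equiv.swap (0 : Fin 3) 1 0, _) = _
        simp
  · refine ⟨⟨Equiv.refl _, fun _ => b⟩, rfl, ?_⟩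
    cases b <;> rfl
  · exact absurd rfl hz

theorem RtE13_main {n K k : ℕ} {Ω : CC} (T : Th1 n K k Ω) (hG : GdC n (th k Ω)) :
    Bdd (th k Ω) (F3 (2 * n + K)) := by
  have hf := th1_facts T
  rcases Nat.lt_or_ge n (capC Ω (PrC 2)) with hD | hD
  · exact e_single T (clg_nd T hD) hG
  · have hD' : capC Ω (PrC 2) = n := le_antisymm hD hf.2.2.2.1
    by_cases hN : ∀ Ω' ∈ SQ P2 Qt (fun i => i ≠ 2) Ω, ∀ (U I : Ct) (κ : ℤ),
        ¬ RotW n (th k Ω') U I κ
    · exact e_single T (clg_dt T hN) hG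
    · push Not at hN
      obtain ⟨Ω', hΩ', U, I, κ, hR⟩ := hN
      have T' : Th1 n K k Ω' := (th1_sq T hΩ').1
      have hD2 : capC Ω' (PrC 2) = n := by rw [th1_D T hΩ', hD']
      obtain ⟨k', Ω0, -, hΩ0, T2⟩ := th2_ex T' hD2 hR
      have hC := clg2 T2
      have hback : Ω ∈ SQ P2 Qt (fun i => i ≠ 2) Ω' := SQ_symm hΩ'
      have key : ∀ W : CC, Relation.ReflTransGen (StQ P2 Qt (fun i => i ≠ 2)) Ω' W →
          W ∈ {Ω | ∃ Ω0' ∈ SQ PN Qtc (fun _ => True) Ω0, Ω = pw (e2 k') Ω0'} := by
        intro W hW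
        induction hW with
        | refl => exact ⟨Ω0, SQ_refl _ _, hΩ0⟩
        | tail _ hst ih => exact hC.s _ ih _ hst
      exact e_double T2 (key Ω hback) hG

theorem e_bdd {n K : ℕ} {V : CC} (H : Hv n K V) (hG : GdC n V) {U I : Ct} {κ : ℤ}
    (hR : RotW n V U I κ) (h2 : ∃ x : Fin 3 × Bool, x.1 ≠ 2 ∧ U x = false) :
    Bdd V (F3 (cycLen V)) := by
  have hUne : ∃ x, U x = true := by
    obtain ⟨x, hx, -⟩ := hR.ne'
    exact ⟨x, hx⟩
  obtain ⟨z, hz2, hz, hz'⟩ := win_z H hR.ec hUne h2
  obtain ⟨σ, hσ, hσz⟩ := RtE13_sp z hz2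
  have hV' : Hv n K (act σ.aut V) := hv_sp hσ H
  have hG' : GdC n (act σ.aut V) := gd_sp hσ hG
  obtain ⟨κ', hR', -⟩ := rot_sp hσ hR
  have i1 : σ.inv.letter (1, true) = z := by rw [← hσz, SPerm.inv_letter]
  have i2 : σ.inv.letter (1, false) = bar z := by
    have : ((1 : Fin 3), false) = bar ((1 : Fin 3), true) := rfl
    rw [this, SPerm.letter_bar, i1]
  have hu1 : (fun x => U (σ.inv.letter x)) (1, true) = true := by
    show U (σ.inv.letter (1, true)) = true
    rw [i1]; exact hz
  have hu2 : (fun x => U (σ.inv.letter x)) (1, false) = false := by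
    show U (σ.inv.letter (1, false)) = false
    rw [i2]; exact hz'
  obtain ⟨k, Ω, -, he, T⟩ := th1_mk hV' hR' hu1 hu2
  have hcap : capC (act σ.aut V) (fun x => U (σ.inv.letter x)) = n := (hv_ti0.mp hR'.t0).2
  have hLv : Lv (act σ.aut V) (1, true) (fun x => U (σ.inv.letter x)) :=
    ⟨hu1, hu2, by rw [hcap]; exact hV'.c1.symm⟩
  have hst : StR n (act σ.aut V) (th k Ω) := by
    refine Or.inl ⟨(1, true), _, by decide, hR'.ec.1, hLv, he.symm⟩
  have hER : th k Ω ∈ ER n (act σ.aut V) := Relation.ReflTransGen.single hst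
  have hGd : GdC n (th k Ω) := (er_inv hV' hG' hER).2
  have horb : th k Ω ∈ orb V := by
    have h1 : act σ.aut V ∈ orb V := orb_SPerm σ V
    have h3 : act (wh (1, true) (fun x => U (σ.inv.letter x))) (act σ.aut V) ∈
        orb (act σ.aut V) := (Lv_Sm hLv).1
    rw [he] at h3
    exact orb_trans h1 h3
  have hlen : cycLen V = 2 * n + K := by
    rw [cycLen_eq_sum, Fin.sum_univ_three, H.c0, H.c1, H.c2]
    ring
  rw [hlen]
  exact Bdd_orb horb (RtE13_main T hGd)

end Pool.Agent.Sims
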