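import Pool.Agent.Sims.RtG3

/-!
# Module `RtG4` : good charts exist

`GdC n V`: for every tight `(q, Y)`: `q` is constant on `Y`, or not constant on `X ∧ Y` for some visible `X`.

`good_ex`.  For a potential `p` with `cnt (act (pot 2 p) V) 2 = K` let `m(p)` be the number of the visible sets (`Ti n (act (pot 2 p) V) 0 X`; there are at most `64` sets).  Choose `p` with `m(p)` maximal; write `W = act (pot 2 p) V`.
Suppose no such `W` is good.  Call `(W, q, Y)` a counterexample if `W` has maximal `m`, `(q, Y)` is tight at `W`, `q` is not constant on `Y`, and `q` is constant on `X ∧ Y` for every visible `X` of `W`.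
Take one with the number of the letters in `Y` maximal and, among these, with `osc = max_Y q - min_Y q` minimal.
(i) Every visible `X` at `W` meeting `Y` is contained in `Y`.  Let `X ⊄ Y`, `v` the value of `q` on `X ∧ Y`, `q* = v` on `X`, `q* = q` elsewhere: `(q*, X)`, `(q*, Y)` are tight (`hv_loc`), so `(q*, X ∨ Y)` is tight (`hv_sub`),
    `q*` is not constant on it, and it is again a counterexample with more letters: let `X'` be visible and `x, y ∈ X' ∧ (X ∨ Y)` with `q* x ≠ q* y`.  Not both are in `X`.  If none is in `X`: `x, y ∈ X' ∧ Y`, `q x ≠ q y`: contradiction.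
    If `x ∈ X`, `y ∉ X`: `y ∈ Y`, `q y ≠ v`.  `X'` meets `X`, so `X ∨ X'` is visible (`hv_sub`); it contains `y` and the points of `X ∧ Y`, where `q = v ≠ q y`: contradiction.
(ii) `Y₀` = the letters of `Y` with maximal `q`; `W' = act (pot 2 (ind Y₀)) W` has count `K` (`hv_step`), it is again in the class of potentials of `V` (`pot_add`).  Every visible `X` of `W` is visible at `W'`: if `X` does not meet
    `Y`, then `ind Y₀ = 0` on `X` (`hv_loc`, `hv_pot`); otherwise `X ⊆ Y`, `q` is constant on `X = X ∧ Y`, so `X ⊆ Y₀` or `X ∧ Y₀ = ∅`: `ind Y₀` is constant on `X`.  By maximality of `m` the visible sets of `W'` and `W`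
    are the same.  `(q - ind Y₀, Y)` is tight at `W'` (`hv_pot`).  If `q - ind Y₀` is constant on `Y` then `Y` is visible at `W'` (`hv_loc`), hence at `W`, but then `q` is constant on `Y ∧ Y`: contradiction.  Otherwise
    `(W', q - ind Y₀, Y)` is a counterexample (`ind Y₀` is constant on `X ∧ Y` for visible `X`), with the same `Y` and `osc` smaller by `1`: contradiction.
(Formally: well-founded recursion, e.g. first fix the maximal `m` (`Nat.find` or `Nat.findGreatest`, bounded by `64`), then strong induction on `6 - card Y`, inside induction on `osc`.)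
Difficulty 4.
-/

namespace Pool.Agent.Sims

/-- good charts -/
def GdC (n : ℕ) (V : CC) : Prop := ∀ (q : Fin 3 × Bool → ℤ) (Y : Ct), Ti n V q Y →
  (∀ x y, Y x = true → Y y = true → q x = q y) ∨
  ∃ X, Ti n V 0 X ∧ ∃ u v, X u = true ∧ Y u = true ∧ X v = true ∧ Y v = true ∧ q u ≠ q v

open Classical in
/-- the visible sets -/
noncomputable def RtG4_vis (n : ℕ) (W : CC) : Finset Ct := Finset.univ.filter (fun X => Ti n W 0 X)

theorem RtG4_mem {n : ℕ} {W : CC} {X : Ct} : X ∈ RtG4_vis n W ↔ Ti n W 0 X := by
  simp [RtG4_vis]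

/-- a counterexample -/
structure RtG4_Bad (n : ℕ) (W : CC) (q : Fin 3 × Bool → ℤ) (Y : Ct) : Prop where
  ti : Ti n W q Y
  nc : ∃ x y, Y x = true ∧ Y y = true ∧ q x ≠ q y
  vc : ∀ X, Ti n W 0 X → ∀ u v, X u = true → Y u = true → X v = true → Y v = true → q u = q v

/-- oscillation -/
def RtG4_osc (q : Fin 3 × Bool → ℤ) (Y : Ct) : ℕ :=
  ∑ z : (Fin 3 × Bool) × (Fin 3 × Bool), if Y z.1 = true ∧ Y z.2 = true then (q z.1 - q z.2).natAbs else 0

/-- number of the letters outside of `Y` -/
def RtG4_out (Y : Ct) : ℕ := (Finset.univ.filter (fun x : Fin 3 × Bool => Y x = false)).card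

theorem RtG4_or {n K : ℕ} {W : CC} (H : Hv n K W) {q : Fin 3 × Bool → ℤ} {X Y : Ct}
    (hb : RtG4_Bad n W q Y) (hX : Ti n W 0 X) {u : Fin 3 × Bool} (h1 : X u = true) (h2 : Y u = true)
    {w : Fin 3 × Bool} (h3 : X w = true) (h4 : Y w = false) :
    ∃ q' Y', RtG4_Bad n W q' Y' ∧ RtG4_out Y' < RtG4_out Y := by
  have hn : 0 < cnt W 0 := by
    have := H.h4
    rw [H.c0]
    omega
  have hcst : ∀ x, X x = true → Y x = true → q x = q u := fun x hx hy => hb.vc X hX x u hx hy h1 h2
  have hX' : Ti n W (fun x => if X x = true then q u else q x) X := by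
    refine hv_loc hn (-(q u)) ?_ hX
    intro x hx
    simp [hx]
  have hY' : Ti n W (fun x => if X x = true then q u else q x) Y := by
    refine hv_loc hn 0 ?_ hb.ti
    intro x hx
    by_cases hxX : X x = true
    · simp [hxX, hcst x hxX hx]
    · simp [hxX]
  have hU := (hv_sub H hX' hY' ⟨u, h1, h2⟩).1
  refine ⟨fun x => if X x = true then q u else q x, fun x => X x || Y x, ⟨hU, ?_, ?_⟩, ?_⟩
  · obtain ⟨a, b, ha, hb', hab⟩ := hb.nc
    refine ⟨a, b, by simp [ha], by simp [hb'], ?_⟩
    have e : ∀ x, Y x = true → (if X x = true then q u else q x) = q x := by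
      intro x hx
      by_cases hxX : X x = true
      · simp [hxX, hcst x hxX hx]
      · simp [hxX]
    change (if X a = true then q u else q a) ≠ (if X b = true then q u else q b)
    rw [e a ha, e b hb']
    exact hab
  · intro X' hX'' x y hx hx' hy hy'
    have hx2 : X x = true ∨ Y x = true := by simpa using hx'
    have hy2 : X y = true ∨ Y y = true := by simpa using hy'
    change (if X x = true then q u else q x) = (if X y = true then q u else q y)
    have mix : ∀ x y : Fin 3 × Bool, X' x = true → X' y = true → X x = true → X y = false →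
        Y y = true → q y = q u := by
      intro x y hx hy hxX hyX hyY
      have hU' := (hv_sub H hX hX'' ⟨x, hxX, hx⟩).1
      exact hb.vc _ hU' y u (by simp [hy]) hyY (by simp [h1]) h2
    by_cases hxX : X x = true
    · by_cases hyX : X y = true
      · simp [hxX, hyX]
      · have hyX' : X y = false := by simpa using hyX
        have hyY : Y y = true := by
          rcases hy2 with h | h
          · exact absurd h hyX
          · exact h
        simp only [hxX, if_true, hyX', Bool.false_eq_true, if_false]
        exact (mix x y hx hy hxX hyX' hyY).symm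
    · have hxX' : X x = false := by simpa using hxX
      have hxY : Y x = true := by
        rcases hx2 with h | h
        · exact absurd h hxX
        · exact h
      by_cases hyX : X y = true
      · simp only [hyX, if_true, hxX', Bool.false_eq_true, if_false]
        exact mix y x hy hx hyX hxX' hxY
      · have hyY : Y y = true := by
          rcases hy2 with h | h
          · exact absurd h hyX
          · exact h
        simp only [hxX, hyX, if_false]
        exact hb.vc X' hX'' x y hx hxY hy hyY
  · unfold RtG4_out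
    apply Finset.card_lt_card
    rw [Finset.ssubset_iff_of_subset]
    · refine ⟨w, by simp [h4], ?_⟩
      simp [h3]
    · intro x hx
      simp only [Finset.mem_filter, Finset.mem_univ, true_and] at hx ⊢
      have : ¬ (X x || Y x) = true := by simp [hx]
      by_contra hc
      apply this
      simp only [Bool.or_eq_true]
      right
      simpa using hc

/-- the letters of `Y` where `q` is maximal -/
def RtG4_top (q : Fin 3 × Bool → ℤ) (Y : Ct) : Ct :=
  fun x => Y x && decide (∀ y, Y y = true → q y ≤ q x)

theorem RtG4_top_iff {q : Fin 3 × Bool → ℤ} {Y : Ct} {x : Fin 3 × Bool} :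
    RtG4_top q Y x = true ↔ Y x = true ∧ ∀ y, Y y = true → q y ≤ q x := by
  simp [RtG4_top]

theorem RtG4_top_ex {q : Fin 3 × Bool → ℤ} {Y : Ct} (h : ∃ x, Y x = true) :
    ∃ x, RtG4_top q Y x = true := by
  obtain ⟨x, hx⟩ := h
  obtain ⟨z, hz, hz'⟩ := Finset.exists_max_image (Finset.univ.filter (fun x => Y x = true)) q
    ⟨x, by simp [hx]⟩
  simp only [Finset.mem_filter, Finset.mem_univ, true_and] at hz hz'
  exact ⟨z, RtG4_top_iff.2 ⟨hz, hz'⟩⟩

theorem RtG4_top_eq {q : Fin 3 × Bool → ℤ} {Y : Ct} {x y : Fin 3 × Bool} (hx : Y x = true)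
    (hy : Y y = true) (h : q x = q y) : RtG4_top q Y x = RtG4_top q Y y := by
  rw [Bool.eq_iff_iff, RtG4_top_iff, RtG4_top_iff, h]
  simp [hx, hy]

theorem RtG4_osc_lt {q : Fin 3 × Bool → ℤ} {Y : Ct}
    (hnc : ∃ x y, Y x = true ∧ Y y = true ∧ q x ≠ q y) :
    RtG4_osc (q - ind (RtG4_top q Y)) Y < RtG4_osc q Y := by
  unfold RtG4_osc
  have key : ∀ x y : Fin 3 × Bool, Y x = true → Y y = true →
      ((q - ind (RtG4_top q Y)) x - (q - ind (RtG4_top q Y)) y).natAbs ≤ (q x - q y).natAbs := by
    intro x y hx hy
    simp only [Pi.sub_apply, ind]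
    by_cases h1 : RtG4_top q Y x = true
    · by_cases h2 : RtG4_top q Y y = true
      · simp [h1, h2]
      · have h3 : q y < q x := by
          rcases lt_or_ge (q y) (q x) with h | h
          · exact h
          · exact absurd (RtG4_top_iff.2 ⟨hy, fun z hz => ((RtG4_top_iff.1 h1).2 z hz).trans h⟩) h2
        simp only [h1, h2, if_true, if_false]
        omega
    · by_cases h2 : RtG4_top q Y y = true
      · have h3 : q x < q y := by
          rcases lt_or_ge (q x) (q y) with h | h
          · exact h
          · exact absurd (RtG4_top_iff.2 ⟨hx, fun z hz => ((RtG4_top_iff.1 h2).2 z hz).trans h⟩) h1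
        simp only [h1, h2, if_true, if_false]
        omega
      · simp [h1, h2]
  obtain ⟨a, b, ha, hb, hab⟩ := hnc
  obtain ⟨u, hu⟩ := RtG4_top_ex (q := q) (Y := Y) ⟨a, ha⟩
  -- a letter which is not on top
  obtain ⟨w, hw, hw'⟩ : ∃ w, Y w = true ∧ q w < q u := by
    have h1 := (RtG4_top_iff.1 hu).2 a ha
    have h2 := (RtG4_top_iff.1 hu).2 b hb
    rcases lt_or_eq_of_le h1 with h | h
    · exact ⟨a, ha, h⟩
    · rcases lt_or_eq_of_le h2 with h' | h'
      · exact ⟨b, hb, h'⟩
      · exact absurd (h.trans h'.symm) hab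
  have hwt : ¬ RtG4_top q Y w = true := by
    intro h
    have := (RtG4_top_iff.1 h).2 u (RtG4_top_iff.1 hu).1
    omega
  apply Finset.sum_lt_sum
  · rintro ⟨x, y⟩ _
    by_cases h : Y x = true ∧ Y y = true
    · simp only [h, and_self, if_true]
      exact key x y h.1 h.2
    · simp only [h, if_false]
      exact le_refl _
  · refine ⟨(u, w), Finset.mem_univ _, ?_⟩
    have hu' := (RtG4_top_iff.1 hu).1
    have e1 : (q - ind (RtG4_top q Y)) u = q u - 1 := by simp [ind, hu]
    have e2 : (q - ind (RtG4_top q Y)) w = q w := by simp [ind, hwt]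
    simp only [hu', hw, and_self, if_true, e1, e2]
    omega

theorem RtG4_main {n K M : ℕ} {V : CC} (H : Hv n K V)
    (hM : ∀ p : Fin 3 × Bool → ℤ, cnt (act (pot 2 p) V) 2 = K →
      (RtG4_vis n (act (pot 2 p) V)).card ≤ M) :
    ∀ (k l : ℕ) (p q : Fin 3 × Bool → ℤ) (Y : Ct), cnt (act (pot 2 p) V) 2 = K →
      (RtG4_vis n (act (pot 2 p) V)).card = M → RtG4_Bad n (act (pot 2 p) V) q Y →
      RtG4_out Y = k → RtG4_osc q Y = l → False := by
  intro k
  induction k using Nat.strong_induction_on with
  | _ k ihk =>
    intro l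
    induction l using Nat.strong_induction_on with
    | _ l ihl =>
      intro p q Y hp hm hb hk hl
      have HW := hv_orb H hp
      have hn : 0 < cnt (act (pot 2 p) V) 0 := by
        have := HW.h4
        rw [HW.c0]
        omega
      by_cases hc : ∃ X u w, Ti n (act (pot 2 p) V) 0 X ∧ X u = true ∧ Y u = true ∧ X w = true ∧
          Y w = false
      · obtain ⟨X, u, w, hX, h1, h2, h3, h4⟩ := hc
        obtain ⟨q', Y', hb', hlt⟩ := RtG4_or HW hb hX h1 h2 h3 h4
        exact ihk _ (hk ▸ hlt) _ p q' Y' hp hm hb' rfl rfl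
      · have hsub : ∀ X, Ti n (act (pot 2 p) V) 0 X → (∃ u, X u = true ∧ Y u = true) →
            ∀ w, X w = true → Y w = true := by
          intro X hX hu w hw
          obtain ⟨u, hu1, hu2⟩ := hu
          by_contra hwY
          exact hc ⟨X, u, w, hX, hu1, hu2, hw, by simpa using hwY⟩
        have hnc := hb.nc
        have hst : cnt (act (pot 2 (ind (RtG4_top q Y))) (act (pot 2 p) V)) 2 = K := by
          refine hv_step HW hb.ti (fun x hx => (RtG4_top_iff.1 hx).1) ?_ ?_
          · intro x y hx hy hy'
            rcases lt_or_ge (q y) (q x) with h | h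
            · exact h
            · have : RtG4_top q Y y = true :=
                RtG4_top_iff.2 ⟨hy, fun z hz => ((RtG4_top_iff.1 hx).2 z hz).trans h⟩
              rw [this] at hy'
              exact absurd hy' (by decide)
          · obtain ⟨a, b, ha, hb', hab⟩ := hnc
            by_cases h1 : RtG4_top q Y a = true
            · by_cases h2 : RtG4_top q Y b = true
              · exact absurd (le_antisymm ((RtG4_top_iff.1 h2).2 a ha) ((RtG4_top_iff.1 h1).2 b hb')) hab
              · exact ⟨b, hb', by simpa using h2⟩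
            · exact ⟨a, ha, by simpa using h1⟩
        -- visible sets stay visible
        have hind : ∀ X, Ti n (act (pot 2 p) V) 0 X → ∀ x y, X x = true → X y = true →
            ind (RtG4_top q Y) x = ind (RtG4_top q Y) y := by
          intro X hX x y hx hy
          by_cases hm : ∃ u, X u = true ∧ Y u = true
          · have hx' := hsub X hX hm x hx
            have hy' := hsub X hX hm y hy
            have e := hb.vc X hX x y hx hx' hy hy'
            simp only [ind, RtG4_top_eq hx' hy' e]
          · have hx' : ¬ RtG4_top q Y x = true := fun h => hm ⟨x, hx, (RtG4_top_iff.1 h).1⟩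
            have hy' : ¬ RtG4_top q Y y = true := fun h => hm ⟨y, hy, (RtG4_top_iff.1 h).1⟩
            simp only [ind, hx', hy', if_false]
        have hvis : ∀ X, Ti n (act (pot 2 p) V) 0 X →
            Ti n (act (pot 2 (ind (RtG4_top q Y))) (act (pot 2 p) V)) 0 X := by
          intro X hX
          rw [hv_pot]
          obtain ⟨x0, hx0⟩ := hX.1.2
          refine hv_loc hn (-(ind (RtG4_top q Y) x0)) ?_ hX
          intro x hx
          have := hind X hX x x0 hx hx0
          simp [this]
        have hp' : act (pot 2 (ind (RtG4_top q Y))) (act (pot 2 p) V) =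
            act (pot 2 (ind (RtG4_top q Y) + p)) V := pot_add 2 _ _ V
        rw [hp'] at hst hvis
        have hss : RtG4_vis n (act (pot 2 p) V) ⊆
            RtG4_vis n (act (pot 2 (ind (RtG4_top q Y) + p)) V) := by
          intro X hX
          rw [RtG4_mem] at hX ⊢
          exact hvis X hX
        have hle := hM _ hst
        have hcard : (RtG4_vis n (act (pot 2 (ind (RtG4_top q Y) + p)) V)).card ≤
            (RtG4_vis n (act (pot 2 p) V)).card := by
          rw [hm]
          exact hle
        have heq := Finset.eq_of_subset_of_card_le hss hcard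
        have hvis' : ∀ X, Ti n (act (pot 2 (ind (RtG4_top q Y) + p)) V) 0 X →
            Ti n (act (pot 2 p) V) 0 X := by
          intro X hX
          rw [← RtG4_mem, heq, RtG4_mem]
          exact hX
        have hti : Ti n (act (pot 2 (ind (RtG4_top q Y) + p)) V) (q - ind (RtG4_top q Y)) Y := by
          rw [← hp', hv_pot]
          have e : q - ind (RtG4_top q Y) + ind (RtG4_top q Y) = q := by
            funext x
            simp
          rw [e]
          exact hb.ti
        by_cases hcs : ∃ x y, Y x = true ∧ Y y = true ∧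
            (q - ind (RtG4_top q Y)) x ≠ (q - ind (RtG4_top q Y)) y
        · refine ihl _ (hl ▸ RtG4_osc_lt hnc) (ind (RtG4_top q Y) + p) _ Y hst ?_
            ⟨hti, hcs, ?_⟩ hk rfl
          · rw [← heq]
            exact hm
          · intro X hX u v h1 h2 h3 h4
            have hX' := hvis' X hX
            have e1 := hb.vc X hX' u v h1 h2 h3 h4
            have e2 := hind X hX' u v h1 h3
            simp only [Pi.sub_apply]
            rw [e1, e2]
        · push Not at hcs
          have hW' := hv_orb H hst
          have hn' : 0 < cnt (act (pot 2 (ind (RtG4_top q Y) + p)) V) 0 := by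
            have := hW'.h4
            rw [hW'.c0]
            omega
          obtain ⟨a, b, ha, hb', hab⟩ := hnc
          have hYv : Ti n (act (pot 2 (ind (RtG4_top q Y) + p)) V) 0 Y := by
            refine hv_loc hn' ((q - ind (RtG4_top q Y)) a) ?_ hti
            intro x hx
            rw [hcs x a hx ha]
            simp
          exact hab (hb.vc Y (hvis' Y hYv) a b ha ha hb' hb')

theorem good_ex {n K : ℕ} {V : CC} (H : Hv n K V) :
    ∃ p : Fin 3 × Bool → ℤ, cnt (act (pot 2 p) V) 2 = K ∧ GdC n (act (pot 2 p) V) := by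
  -- a potential with the maximal number of visible sets
  obtain ⟨p, hp, hmax⟩ : ∃ p : Fin 3 × Bool → ℤ, cnt (act (pot 2 p) V) 2 = K ∧
      ∀ p' : Fin 3 × Bool → ℤ, cnt (act (pot 2 p') V) 2 = K →
        (RtG4_vis n (act (pot 2 p') V)).card ≤ (RtG4_vis n (act (pot 2 p) V)).card := by
    have hwf := (measure (fun p : Fin 3 × Bool → ℤ =>
      (Finset.univ : Finset Ct).card - (RtG4_vis n (act (pot 2 p) V)).card)).wf
    obtain ⟨p, hp, hp'⟩ := hwf.has_min {p | cnt (act (pot 2 p) V) 2 = K}
      ⟨0, by
        change cnt (act (pot 2 0) V) 2 = K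
        rw [pot_zero]
        exact H.c2⟩
    refine ⟨p, hp, ?_⟩
    intro p' hp''
    have h1 := hp' p' hp''
    have h2 : ¬ ((Finset.univ : Finset Ct).card - (RtG4_vis n (act (pot 2 p') V)).card <
      (Finset.univ : Finset Ct).card - (RtG4_vis n (act (pot 2 p) V)).card) := h1
    have h3 : (RtG4_vis n (act (pot 2 p') V)).card ≤ (Finset.univ : Finset Ct).card :=
      Finset.card_le_card (Finset.subset_univ _)
    have h4 : (RtG4_vis n (act (pot 2 p) V)).card ≤ (Finset.univ : Finset Ct).card :=
      Finset.card_le_card (Finset.subset_univ _)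
    omega
  refine ⟨p, hp, ?_⟩
  intro q Y hY
  by_contra hcon
  push Not at hcon
  obtain ⟨⟨x, y, hx, hy, hxy⟩, h2⟩ := hcon
  exact RtG4_main H (M := (RtG4_vis n (act (pot 2 p) V)).card) (fun p' h => hmax p' h) _ _ p q Y hp rfl
    ⟨hY, ⟨x, y, hx, hy, hxy⟩, fun X hX u v h1 h2' h3 h4 => h2 X hX u v h1 h2' h3 h4⟩ rfl rfl

end Pool.Agent.Sims
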