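import Pool.Agent.Sims.RtNE
import Pool.Agent.Sims.RtD3
import Pool.Agent.Sims.RtE13
import Pool.Agent.Sims.RtG4

/-!
# Module `RtZ` : the case of two equal small even counts and a large third count

* `hv_mk`: `n = cnt c 0`, `K = cnt c 2`.  `lo`: `W ∈ orb c`, `A` proper.  If `A` separates some pair `x_i, x_i⁻¹`: `capC W A ≥ cnt W i` (`OMin.le_cap` for `W`), and `cnt W i ≥ n` (`cnt_orb`: the counts of `W` are a permutation of those of `c`).  Otherwise `A` or its complement is some `PrC i` (`EvR3_cut`): `hI`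
  (`capC_compl`, congruence).
* `er_orb`: `G ∈ ER n V` implies `G ∈ orb V` (`er_inv` at each step; a light level move: `Lv_Sm`; a rotation: `rot_cnt`, `pot_Sm`).
* `even_r2z`: `Hv n K c`; `good_ex`: `V = act (pot 2 p) c`, `cnt V 2 = K`, `GdC n V`; `hv_orb`: `Hv n K V`; `V ∈ orb c` (`pot_Sm`).  If no `G ∈ ER n V` has a rotation: `ne_bdd` for `V`.  Otherwise some `G ∈ ER n V` has a rotation `U, I, κ`; `er_inv`: `Hv n K G`, `GdC n G`; `G ∈ orb c`, `cycLen G = cycLen c`.  If all
  light letters are in `U`: `e4_bdd`; else `e_bdd`.  `Bdd_orb`.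
Difficulty 2.
-/

namespace Pool.Agent.Sims

theorem RtZ_omin {c W : CC} (hO : OMin c) (hW : W ∈ orb c) : OMin W := by
  obtain ⟨⟨φ, rfl⟩, hl⟩ := hW
  intro ψ
  rw [hl, act_act]
  exact hO _

theorem hv_mk {c : CC} (hO : OMin c) (h4 : 4 ≤ cnt c 0) (h01 : cnt c 0 = cnt c 1)
    (h12 : cnt c 1 < cnt c 2) (hI : ∀ W ∈ orb c, ∀ i, cnt c 0 ≤ capC W (PrC i)) :
    Hv (cnt c 0) (cnt c 2) c := by
  refine ⟨hO, h4, rfl, h01.symm, rfl, by omega, ?_⟩
  intro W hW A hA
  by_cases hns : ∀ i, A (i, true) = A (i, false)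
  · obtain ⟨i, h | h⟩ := EvR3_cut hA hns
    · have e : PrC i = A := funext h
      rw [← e]
      exact hI W hW i
    · have e : (fun x => !PrC i x) = A := by
        funext x
        rw [h x, Bool.not_not]
      rw [← e, capC_compl]
      exact hI W hW i
  · push Not at hns
    obtain ⟨i, hi⟩ := hns
    obtain ⟨p, hp⟩ := cnt_orb hO hW
    have h1 : cnt c 0 ≤ cnt W i := by
      rw [hp]
      generalize p i = k
      fin_cases k
      · exact le_rfl
      · exact h01.le
      · show cnt c 0 ≤ cnt c 2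
        omega
    have hOW : OMin W := RtZ_omin hO hW
    rcases Bool.eq_false_or_eq_true (A (i, true)) with h2 | h2
    · have h3 : A (bar (i, true)) = false := by
        show A (i, false) = false
        rw [h2] at hi
        simpa using hi.symm
      exact h1.trans (hOW.le_cap (i, true) A h2 h3)
    · have h3 : A (i, false) = true := by
        rw [h2] at hi
        simpa using hi.symm
      exact h1.trans (hOW.le_cap (i, false) A h3 h2)

theorem er_orb {n K : ℕ} {V G : CC} (H : Hv n K V) (hG : GdC n V) (h : G ∈ ER n V) :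
    G ∈ orb V := by
  have h' : Relation.ReflTransGen (StR n) V G := h
  induction h' with
  | refl => exact orb_refl V
  | tail h1 h2 ih =>
    have ih' := ih h1
    obtain ⟨H', hG'⟩ := er_inv H hG h1
    rcases h2 with ⟨z, A, hz, hA, hL, rfl⟩ | ⟨U, I, κ, hR, rfl⟩
    · exact orb_trans ih' (Lv_Sm hL).1
    · exact orb_trans ih' (pot_Sm (by rw [rot_cnt H' hR, H'.c2])).1

theorem even_r2z {c : CC} (hO : OMin c) (h4 : 4 ≤ cnt c 0) (h01 : cnt c 0 = cnt c 1)
    (h12 : cnt c 1 < cnt c 2) (hI : ∀ W ∈ orb c, ∀ i, cnt c 0 ≤ capC W (PrC i)) :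
    Bdd c (F3 (cycLen c)) := by
  have H := hv_mk hO h4 h01 h12 hI
  obtain ⟨p, hp, hGd⟩ := good_ex H
  have HV := hv_orb H hp
  have hVorb : act (pot 2 p) c ∈ orb c := (pot_Sm hp).1
  have hlen : cycLen (act (pot 2 p) c) = cycLen c := hVorb.2
  by_cases hN : ∀ G ∈ ER (cnt c 0) (act (pot 2 p) c), ∀ (U I : Ct) (κ : ℤ), ¬ RotW (cnt c 0) G U I κ
  · have h1 := ne_bdd HV hGd hN
    rw [hlen] at h1
    exact Bdd_orb hVorb h1
  · push Not at hN
    obtain ⟨G, hG, U, I, κ, hR⟩ := hN
    obtain ⟨HG, hGG⟩ := er_inv HV hGd hG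
    have hGorb : G ∈ orb c := orb_trans hVorb (er_orb HV hGd hG)
    have h1 : Bdd G (F3 (cycLen G)) := by
      by_cases hU : ∀ x : Fin 3 × Bool, x.1 ≠ 2 → U x = true
      · exact e4_bdd HG hGG hR hU
      · push Not at hU
        obtain ⟨x, hx, hx'⟩ := hU
        exact e_bdd HG hGG hR ⟨x, hx, by simpa using hx'⟩
    rw [hGorb.2] at h1
    exact Bdd_orb hGorb h1

end Pool.Agent.Sims
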