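import Pool.Agent.Sims.OddMain
import Pool.Agent.Sims.EvR1N
import Pool.Agent.Sims.LoH
import Pool.Agent.Sims.EvR3
import Pool.Agent.Sims.PqK
import Pool.Agent.Sims.RtZ

/-!
# Module `BddAll` : the upper bound for all cyclic words of length at least 11
-/

namespace Pool.Agent.Sims

open FreeGroup (of)

theorem even_r2 {c : CC} (hO : OMin c) (h4 : 4 ≤ cnt c 0) (h01 : cnt c 0 = cnt c 1)
    (h12 : cnt c 1 < cnt c 2) (hI : ∀ W ∈ orb c, ∀ i, cnt c 0 ≤ capC W (PrC i)) :
    Bdd c (F3 (cycLen c)) := even_r2z hO h4 h01 h12 hI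

/-- least count even and at least 4 -/
theorem even_bdd {c : CC} (hO : OMin c) (hm : 11 ≤ cycLen c) {i : Fin 3}
    (hi : ∀ j, cnt c i ≤ cnt c j) (h4 : 4 ≤ cnt c i) (he : cnt c i % 2 = 0) :
    Bdd c (F3 (cycLen c)) := by
  obtain ⟨σ, hs1, hs2⟩ := exists_sorted c
  have hd : act σ.aut c ∈ orb c := orb_SPerm σ c
  have hO' : OMin (act σ.aut c) := OMin_orb hO hd
  have hL : cycLen (act σ.aut c) = cycLen c := hd.2
  have hp : ∀ j, cnt (act σ.aut c) (σ.perm j) = cnt c j := cnt_SPerm σ c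
  have hmin : ∀ j, cnt (act σ.aut c) 0 ≤ cnt (act σ.aut c) j := by
    intro j
    fin_cases j
    · exact le_rfl
    · exact hs1
    · exact hs1.trans hs2
  have h0 : cnt (act σ.aut c) 0 = cnt c i := by
    apply le_antisymm
    · rw [← hp i]
      exact hmin _
    · have h3 := hp (σ.perm.symm 0)
      rw [Equiv.apply_symm_apply] at h3
      rw [h3]
      exact hi _
  rw [← h0] at h4 he
  clear h0 hp hi
  apply Bdd_orb hd
  rw [← hL] at hm ⊢
  clear hL hd
  generalize act σ.aut c = d at *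
  by_cases hc2 : ∃ V ∈ orb d, ∃ i, ∀ j, capC V (PrC i) < cnt V j
  · exact case_two hO' hm (fun j => by have := hmin j; omega) hc2
  push Not at hc2
  have hI : ∀ W ∈ orb d, ∀ i, cnt d 0 ≤ capC W (PrC i) := by
    intro W hW i
    obtain ⟨j, hj⟩ := hc2 W hW i
    obtain ⟨p, hp⟩ := cnt_orb hO' hW
    have h5 := hmin (p j)
    rw [← hp j] at h5
    omega
  rcases hs1.lt_or_eq with h01 | h01
  · by_cases hΦ : ∃ V, Sm d V ∧ (capC V Sb = cnt V 0 ∨ capC V Sc = cnt V 0)
    · exact phi_bound hO' h4 he h01 hs2 hI hΦ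
    · push Not at hΦ
      exact ev_r1_notphi hO' h4 he h01 hs2 hΦ
  · rcases hs2.lt_or_eq with h12 | h12
    · exact even_r2 hO' h4 h01 h12 hI
    · exact even_r3 hO' h4 h01 h12 hI

/-- the upper bound -/
theorem bdd_all {c : CC} (hO : OMin c) (hm : 11 ≤ cycLen c) : Bdd c (F3 (cycLen c)) := by
  obtain ⟨i, -, hi⟩ := Finset.exists_min_image Finset.univ (fun j => cnt c j)
    ⟨0, Finset.mem_univ _⟩
  have hi' : ∀ j, cnt c i ≤ cnt c j := fun j => hi j (Finset.mem_univ j)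
  by_cases h : cnt c i ≤ 2 ∨ cnt c i % 2 = 1
  · exact odd_bdd hO hm hi' h
  · push Not at h
    exact even_bdd hO hm hi' (by omega) (by omega)

theorem upper_all {c : CC} (hO : OMin c) (hm : 11 ≤ cycLen c) :
    (orb c).Finite ∧ (orb c).ncard ≤ 48 * F3 (cycLen c) := Bdd_ncard (bdd_all hO hm)

/-- `N_3(m) = 48 F3(m)` -/
theorem max_all {m : ℕ} (hm : 11 ≤ m) :
    IsGreatest {k | ∃ w : List (Fin 3 × Bool), CR w ∧ w.length = m ∧ OMin (cls w) ∧
      k = (orb (cls w)).ncard} (48 * F3 m) := by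
  constructor
  · obtain ⟨w, hw, hl, hO, hc⟩ := lo_main hm
    refine ⟨w, hw, hl, hO, le_antisymm hc ?_⟩
    have h1 := cycLen_cls hw
    have h2 := (upper_all hO (by omega)).2
    rw [h1, hl] at h2
    exact h2
  · rintro k ⟨w, hw, hl, hO, rfl⟩
    have h1 := cycLen_cls hw
    have h2 := (upper_all hO (by omega)).2
    rw [h1, hl] at h2
    exact h2

end Pool.Agent.Sims
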