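import Pool.Agent.Sims.OddMain
import Pool.Agent.Sims.EvR1N
import Pool.Agent.Sims.LoH
import Pool.Agent.Sims.EvR3
import Pool.Agent.Sims.PqK

/-!
# Module `BddPart` : the upper bound outside the tie case
-/

namespace Pool.Agent.Sims

open FreeGroup (of)

/-- the tie case: two letters have the same even number at least 4 of occurrences, the third letter has more -/
def TieC (c : CC) : Prop :=
  ∃ i j k : Fin 3, i ≠ j ∧ cnt c i = cnt c j ∧ cnt c i < cnt c k ∧ 4 ≤ cnt c i ∧ cnt c i % 2 = 0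

theorem part_even {c : CC} (hO : OMin c) (hm : 11 ≤ cycLen c) (hT : ¬ TieC c) {i : Fin 3}
    (hi : ∀ j, cnt c i ≤ cnt c j) (h4 : 4 ≤ cnt c i) (he : cnt c i % 2 = 0) :
    Bdd c (F3 (cycLen c)) := by
  obtain ⟨σ, hs1, hs2⟩ := exists_sorted c
  have hd : act σ.aut c ∈ orb c := orb_SPerm σ c
  have hO' : OMin (act σ.aut c) := OMin_orb hO hd
  have hL : cycLen (act σ.aut c) = cycLen c := hd.2
  have hp : ∀ j, cnt (act σ.aut c) (σ.perm j) = cnt c j := cnt_SPerm σ c
  have hmin : ∀ j, cnt (act σ.aut c) 0 ≤ cnt (act σ.aut c) j := by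
    intro j
    fin_cases j
    · exact le_rfl
    · exact hs1
    · exact hs1.trans hs2
  have h0 : cnt (act σ.aut c) 0 = cnt c i := by
    apply le_antisymm
    · rw [← hp i]
      exact hmin _
    · have h3 := hp (σ.perm.symm 0)
      rw [Equiv.apply_symm_apply] at h3
      rw [h3]
      exact hi _
  have hT' : ¬ (cnt (act σ.aut c) 0 = cnt (act σ.aut c) 1 ∧
      cnt (act σ.aut c) 1 < cnt (act σ.aut c) 2) := by
    rintro ⟨h5, h6⟩
    refine hT ⟨σ.perm.symm 0, σ.perm.symm 1, σ.perm.symm 2, ?_, ?_, ?_, ?_, ?_⟩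
    · intro h
      have h7 := σ.perm.symm.injective h
      exact absurd h7 (by decide)
    · rw [← hp, ← hp (σ.perm.symm 1), Equiv.apply_symm_apply, Equiv.apply_symm_apply]
      exact h5
    · rw [← hp, ← hp (σ.perm.symm 2), Equiv.apply_symm_apply, Equiv.apply_symm_apply]
      omega
    · rw [← hp, Equiv.apply_symm_apply]
      omega
    · rw [← hp, Equiv.apply_symm_apply]
      omega
  rw [← h0] at h4 he
  clear h0 hp hi hT
  apply Bdd_orb hd
  rw [← hL] at hm ⊢
  clear hL hd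
  generalize act σ.aut c = d at *
  by_cases hc2 : ∃ V ∈ orb d, ∃ i, ∀ j, capC V (PrC i) < cnt V j
  · exact case_two hO' hm (fun j => by have := hmin j; omega) hc2
  push Not at hc2
  have hI : ∀ W ∈ orb d, ∀ i, cnt d 0 ≤ capC W (PrC i) := by
    intro W hW i
    obtain ⟨j, hj⟩ := hc2 W hW i
    obtain ⟨p, hp⟩ := cnt_orb hO' hW
    have h5 := hmin (p j)
    rw [← hp j] at h5
    omega
  rcases hs1.lt_or_eq with h01 | h01
  · by_cases hΦ : ∃ V, Sm d V ∧ (capC V Sb = cnt V 0 ∨ capC V Sc = cnt V 0)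
    · exact phi_bound hO' h4 he h01 hs2 hI hΦ
    · push Not at hΦ
      exact ev_r1_notphi hO' h4 he h01 hs2 hΦ
  · rcases hs2.lt_or_eq with h12 | h12
    · exact absurd ⟨h01, h12⟩ hT'
    · exact even_r3 hO' h4 h01 h12 hI

/-- the upper bound outside the tie case -/
theorem part_all {c : CC} (hO : OMin c) (hm : 11 ≤ cycLen c) (hT : ¬ TieC c) :
    Bdd c (F3 (cycLen c)) := by
  obtain ⟨i, -, hi⟩ := Finset.exists_min_image Finset.univ (fun j => cnt c j)
    ⟨0, Finset.mem_univ _⟩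
  have hi' : ∀ j, cnt c i ≤ cnt c j := fun j => hi j (Finset.mem_univ j)
  by_cases h : cnt c i ≤ 2 ∨ cnt c i % 2 = 1
  · exact odd_bdd hO hm hi' h
  · push Not at h
    exact part_even hO hm hT hi' (by omega) (by omega)

theorem part_upper {c : CC} (hO : OMin c) (hm : 11 ≤ cycLen c) (hT : ¬ TieC c) :
    (orb c).Finite ∧ (orb c).ncard ≤ 48 * F3 (cycLen c) := Bdd_ncard (part_all hO hm hT)

/-- the lower bound, with the letter counts of the word -/
theorem part_lower {m : ℕ} (hm : 11 ≤ m) : ∃ w : List (Fin 3 × Bool), CR w ∧ w.length = m ∧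
    OMin (cls w) ∧ ¬ TieC (cls w) ∧ 48 * F3 m ≤ (orb (cls w)).ncard := by
  obtain ⟨M, rfl⟩ : ∃ M, m = M + 8 := ⟨m - 8, by omega⟩
  have hM : 3 ≤ M := by omega
  refine ⟨w0 M, w0_CR M, w0_length M, w0_omin hM, ?_, ?_⟩
  · rintro ⟨i, j, k, hij, h1, h2, h3, h4⟩
    have hc := loW_cnt (M := M) (t := 0) (Nat.zero_le _) 0 (M + 6)
    rw [← w0_eq] at hc
    have h5 : ∀ i, cnt (cls (w0 M)) i = cntL (w0 M) i := fun i => cnt_cls (w0_CR M) i
    rw [h5, h5] at h1 h2
    rw [h5] at h3 h4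
    have hh : ∀ i : Fin 3, cntL (w0 M) i = if i = 0 then 2 else if i = 1 then 4 else M + 2 := by
      intro i
      fin_cases i
      · simpa using hc.1
      · simpa using hc.2.1
      · simpa using hc.2.2
    rw [hh i, hh j] at h1
    rw [hh i, hh k] at h2
    rw [hh i] at h3 h4
    clear hh h5 hc
    revert hij h1 h2 h3 h4
    fin_cases i <;> fin_cases j <;> fin_cases k <;> simp <;> omega
  · have h1 := lo_card hM
    have h2 : F3 (M + 8) = (M + 1) * (M + 6) * (M + 7) := by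
      unfold F3
      have e1 : M + 8 - 1 = M + 7 := by omega
      have e2 : M + 8 - 2 = M + 6 := by omega
      have e3 : M + 8 - 7 = M + 1 := by omega
      rw [e1, e2, e3]
      ring
    rw [h2]
    exact h1

end Pool.Agent.Sims
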