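import Pool.Agent.Sims.ConjDefs

/-!
# Module `ConjA` : one conjugation step

* `cjT_mul`: `(xy)⁻¹ g (xy) = y⁻¹ (x⁻¹ g x) y`.
* `norm_cj`: reduced words: `z⁻¹` cancels the first letter of `g` iff it is `z`, `z` cancels the last letter iff it is `z⁻¹`.  If both and `g ≠ 1` then
  `|g| ≥ 3` (`[z, z⁻¹]` is not reduced), otherwise check `|g| = 1` as well.
* `rr_mono`: `rr z g = 2`: nothing to prove (`rr ≤ 2`).  `rr z g = 1`, first letter `z`: the word of `z⁻¹ g z` is that of `g` without its first letter, followed by `z`;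
  its last letter `z` is `w⁻¹` only for `w = z⁻¹`; so `rr w ≤ 1`.  The same at the other end.  `rr z g = 0`: the word is `z⁻¹, g, z`: `rr w = 0`.
* `LT_cj`: sum up; the entries `1` contribute `0` to `LT`, `nn`, `RR` (`rr z 1 = 0`) before and after.
* `RR_sum`: `∑_z rr z g = 2` for `g ≠ 1`.
* `RR_mono`: entrywise `rr_mono`.
Difficulty 2.
-/

namespace Pool.Agent.Sims

open FreeGroup (of)

theorem cjT_mul (x y : FreeGroup (Fin 3)) (T : List (FreeGroup (Fin 3))) :
    cjT (x * y) T = cjT y (cjT x T) := by
  unfold cjT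
  rw [List.map_map]
  apply List.map_congr_left
  intro g _
  simp only [Function.comp_apply, mul_inv_rev]
  group

theorem cjT_one (T : List (FreeGroup (Fin 3))) : cjT 1 T = T := by
  unfold cjT
  simp

theorem nn_cj (x : FreeGroup (Fin 3)) (T : List (FreeGroup (Fin 3))) : nn (cjT x T) = nn T := by
  unfold nn cjT
  rw [List.map_map]
  congr 1
  apply List.map_congr_left
  intro g _
  simp only [Function.comp_apply]
  have h : x⁻¹ * g * x = 1 ↔ g = 1 := by
    constructor
    · intro h
      have h2 : g = x * (x⁻¹ * g * x) * x⁻¹ := by group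
      rw [h2, h]; group
    · rintro rfl; group
  by_cases hg : g = 1
  · rw [if_pos hg, if_pos (h.2 hg)]
  · rw [if_neg hg, if_neg (fun h' => hg (h.1 h'))]

theorem ConjA_mul (x : Fin 3 × Bool) (g : FreeGroup (Fin 3)) :
    (lett x * g).toWord = FreeGroup.reduce (x :: g.toWord) := by
  have h1 : lett x * g = FreeGroup.mk (x :: g.toWord) := by
    conv_lhs => rw [← FreeGroup.mk_toWord (x := g)]
    rw [lett, FreeGroup.mul_mk]; rfl
  rw [h1, FreeGroup.toWord_mk]

theorem ConjA_left_pos {x : Fin 3 × Bool} {g : FreeGroup (Fin 3)}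
    (h : g.toWord.head? = some (bar x)) : (lett x * g).toWord = g.toWord.tail := by
  rw [ConjA_mul, FreeGroup.reduce.cons, FreeGroup.reduce_toWord]
  generalize g.toWord = v at h
  rcases v with _ | ⟨y, w⟩
  · simp at h
  · have hy : y = bar x := by simpa using h
    have h2 : x.1 = y.1 ∧ x.2 = !y.2 := by rw [hy]; simp
    exact if_pos h2

theorem ConjA_left_neg {x : Fin 3 × Bool} {g : FreeGroup (Fin 3)}
    (h : ¬ g.toWord.head? = some (bar x)) : (lett x * g).toWord = x :: g.toWord := by
  rw [ConjA_mul, FreeGroup.reduce.cons, FreeGroup.reduce_toWord]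
  generalize g.toWord = v at h
  rcases v with _ | ⟨y, w⟩
  · rfl
  · have h2 : ¬ (x.1 = y.1 ∧ x.2 = !y.2) := by
      rintro ⟨h3, h4⟩
      apply h
      rw [List.head?_cons]
      congr 1
      refine Prod.ext (by simp [h3]) ?_
      simp [h4]
    exact if_neg h2

theorem ConjA_inv (g : FreeGroup (Fin 3)) : (g⁻¹).toWord = (g.toWord.map bar).reverse := by
  rw [FreeGroup.toWord_inv]; rfl

theorem ConjA_head (x : Fin 3 × Bool) (g : FreeGroup (Fin 3)) :
    (g⁻¹).toWord.head? = some x ↔ g.toWord.getLast? = some (bar x) := by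
  rw [ConjA_inv, List.head?_reverse, List.getLast?_map]
  constructor
  · intro h
    rcases hl : g.toWord.getLast? with _ | y
    · rw [hl] at h; simp at h
    · rw [hl] at h
      simp only [Option.map_some] at h
      have := Option.some.inj h
      rw [← this, bar_bar]
  · intro h
    rw [h]; simp

theorem ConjA_eq (x : Fin 3 × Bool) (g : FreeGroup (Fin 3)) :
    g * lett x = (lett (bar x) * g⁻¹)⁻¹ := by rw [lett_bar]; group

theorem ConjA_barbar (l : List (Fin 3 × Bool)) : List.map (bar ∘ bar) l = l := by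
  have : (bar ∘ bar : Fin 3 × Bool → Fin 3 × Bool) = id := by funext y; simp
  rw [this, List.map_id]

theorem ConjA_right_pos {x : Fin 3 × Bool} {g : FreeGroup (Fin 3)}
    (h : g.toWord.getLast? = some (bar x)) : (g * lett x).toWord = g.toWord.dropLast := by
  rw [ConjA_eq, ConjA_inv, ConjA_left_pos (by rw [bar_bar]; exact (ConjA_head x g).2 h), ConjA_inv,
    List.tail_reverse, List.map_reverse, List.reverse_reverse, ← List.map_dropLast, List.map_map,
    ConjA_barbar]

theorem ConjA_right_neg {x : Fin 3 × Bool} {g : FreeGroup (Fin 3)}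
    (h : ¬ g.toWord.getLast? = some (bar x)) : (g * lett x).toWord = g.toWord ++ [x] := by
  rw [ConjA_eq, ConjA_inv, ConjA_left_neg
    (by rw [bar_bar]; exact fun h' => h ((ConjA_head x g).1 h')), ConjA_inv,
    List.map_cons, List.reverse_cons, List.map_reverse, List.reverse_reverse, List.map_map,
    bar_bar, ConjA_barbar]

theorem ConjA_w11 {z : Fin 3 × Bool} {g : FreeGroup (Fin 3)}
    (h1 : g.toWord.head? = some z) (h2 : g.toWord.getLast? = some (bar z)) :
    ((lett z)⁻¹ * g * lett z).toWord = g.toWord.tail.dropLast ∧ 2 ≤ g.toWord.length := by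
  have h3 : 2 ≤ g.toWord.length ∧ g.toWord.tail.getLast? = some (bar z) := by
    generalize g.toWord = v at h1 h2
    rcases v with _ | ⟨y, w⟩
    · simp at h1
    · rcases w with _ | ⟨y2, w⟩
      · have e1 : y = z := by simpa using h1
        have e2 : y = bar z := by simpa using h2
        rw [e1] at e2
        exact absurd e2.symm (bar_ne z)
      · refine ⟨by simp, ?_⟩
        rw [List.getLast?_cons_cons] at h2
        simpa using h2
  have h4 : (lett (bar z) * g).toWord = g.toWord.tail := ConjA_left_pos (by rw [bar_bar]; exact h1)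
  refine ⟨?_, h3.1⟩
  rw [← lett_bar, ConjA_right_pos (by rw [h4]; exact h3.2), h4]

theorem ConjA_w10 {z : Fin 3 × Bool} {g : FreeGroup (Fin 3)}
    (h1 : g.toWord.head? = some z) (h2 : ¬ g.toWord.getLast? = some (bar z)) :
    ((lett z)⁻¹ * g * lett z).toWord = g.toWord.tail ++ [z] := by
  have h3 : ¬ g.toWord.tail.getLast? = some (bar z) := by
    generalize g.toWord = v at h1 h2
    rcases v with _ | ⟨y, w⟩
    · simp
    · rcases w with _ | ⟨y2, w⟩
      · simp
      · rw [List.getLast?_cons_cons] at h2
        simpa using h2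
  have h4 : (lett (bar z) * g).toWord = g.toWord.tail := ConjA_left_pos (by rw [bar_bar]; exact h1)
  rw [← lett_bar, ConjA_right_neg (by rw [h4]; exact h3), h4]

theorem ConjA_last {w : List (Fin 3 × Bool)} (hw : w ≠ []) (a : Fin 3 × Bool) :
    (a :: w).getLast? = w.getLast? := by
  rcases w with _ | ⟨y, w⟩
  · exact absurd rfl hw
  · rw [List.getLast?_cons_cons]

theorem ConjA_w01 {z : Fin 3 × Bool} {g : FreeGroup (Fin 3)}
    (h1 : ¬ g.toWord.head? = some z) (h2 : g.toWord.getLast? = some (bar z)) :
    ((lett z)⁻¹ * g * lett z).toWord = bar z :: g.toWord.dropLast := by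
  have hne : g.toWord ≠ [] := by intro h; rw [h] at h2; simp at h2
  have h4 : (lett (bar z) * g).toWord = bar z :: g.toWord :=
    ConjA_left_neg (by rw [bar_bar]; exact h1)
  rw [← lett_bar, ConjA_right_pos (by rw [h4, ConjA_last hne]; exact h2), h4]
  generalize g.toWord = v at hne
  rcases v with _ | ⟨y, w⟩
  · exact absurd rfl hne
  · rw [List.dropLast_cons_cons]

theorem ConjA_w00 {z : Fin 3 × Bool} {g : FreeGroup (Fin 3)} (hne : g.toWord ≠ [])
    (h1 : ¬ g.toWord.head? = some z) (h2 : ¬ g.toWord.getLast? = some (bar z)) :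
    ((lett z)⁻¹ * g * lett z).toWord = bar z :: (g.toWord ++ [z]) := by
  have h4 : (lett (bar z) * g).toWord = bar z :: g.toWord :=
    ConjA_left_neg (by rw [bar_bar]; exact h1)
  rw [← lett_bar, ConjA_right_neg (by rw [h4, ConjA_last hne]; exact h2), h4]
  rfl

theorem norm_cj (z : Fin 3 × Bool) {g : FreeGroup (Fin 3)} (hg : g ≠ 1) :
    ((lett z)⁻¹ * g * lett z).norm + 2 * rr z g = g.norm + 2 := by
  have hne : g.toWord ≠ [] := fun h => hg (FreeGroup.toWord_eq_nil_iff.1 h)
  have hpos : 1 ≤ g.toWord.length := List.length_pos_iff.2 hne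
  unfold FreeGroup.norm rr
  by_cases h1 : g.toWord.head? = some z
  · by_cases h2 : g.toWord.getLast? = some (bar z)
    · obtain ⟨h3, h4⟩ := ConjA_w11 h1 h2
      rw [if_pos h1, if_pos h2, h3]
      simp only [List.length_dropLast, List.length_tail]
      omega
    · rw [if_pos h1, if_neg h2, ConjA_w10 h1 h2]
      simp only [List.length_append, List.length_tail, List.length_singleton]
      omega
  · by_cases h2 : g.toWord.getLast? = some (bar z)
    · rw [if_neg h1, if_pos h2, ConjA_w01 h1 h2]
      simp only [List.length_cons, List.length_dropLast]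
      omega
    · rw [if_neg h1, if_neg h2, ConjA_w00 hne h1 h2]
      simp only [List.length_cons, List.length_append, List.length_nil]

theorem ConjA_rr_le (z : Fin 3 × Bool) (g : FreeGroup (Fin 3)) : rr z g ≤ 2 := by
  unfold rr
  split_ifs <;> omega

theorem rr_mono {z w : Fin 3 × Bool} (hw : w ≠ bar z) {g : FreeGroup (Fin 3)} (hg : g ≠ 1) :
    rr w ((lett z)⁻¹ * g * lett z) ≤ rr z g := by
  have hne : g.toWord ≠ [] := fun h => hg (FreeGroup.toWord_eq_nil_iff.1 h)
  by_cases h1 : g.toWord.head? = some z
  · by_cases h2 : g.toWord.getLast? = some (bar z)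
    · have h3 : rr z g = 2 := by unfold rr; rw [if_pos h1, if_pos h2]
      rw [h3]; exact ConjA_rr_le _ _
    · have h3 : rr z g = 1 := by unfold rr; rw [if_pos h1, if_neg h2]
      rw [h3]
      unfold rr
      rw [ConjA_w10 h1 h2]
      have h4 : ¬ ((g.toWord.tail ++ [z]).getLast? = some (bar w)) := by
        rw [List.getLast?_concat]
        intro h'
        apply hw
        rw [Option.some.inj h', bar_bar]
      rw [if_neg h4]
      split_ifs <;> omega
  · by_cases h2 : g.toWord.getLast? = some (bar z)
    · have h3 : rr z g = 1 := by unfold rr; rw [if_neg h1, if_pos h2]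
      rw [h3]
      unfold rr
      rw [ConjA_w01 h1 h2]
      have h4 : ¬ ((bar z :: g.toWord.dropLast).head? = some w) := by
        rw [List.head?_cons]
        intro h'
        exact hw (Option.some.inj h').symm
      rw [if_neg h4]
      split_ifs <;> omega
    · unfold rr
      rw [ConjA_w00 hne h1 h2]
      have h4 : ¬ ((bar z :: (g.toWord ++ [z])).head? = some w) := by
        rw [List.head?_cons]
        intro h'
        exact hw (Option.some.inj h').symm
      have h5 : ¬ ((bar z :: (g.toWord ++ [z])).getLast? = some (bar w)) := by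
        rw [← List.cons_append, List.getLast?_concat]
        intro h'
        apply hw
        rw [Option.some.inj h', bar_bar]
      rw [if_neg h4, if_neg h5]
      exact Nat.zero_le _

theorem rr_sum {g : FreeGroup (Fin 3)} (hg : g ≠ 1) : ∑ z : Fin 3 × Bool, rr z g = 2 := by
  have hne : g.toWord ≠ [] := fun h => hg (FreeGroup.toWord_eq_nil_iff.1 h)
  obtain ⟨a, ha⟩ : ∃ a, g.toWord.head? = some a := ⟨_, List.head?_eq_some_head hne⟩
  obtain ⟨b, hb⟩ : ∃ b, g.toWord.getLast? = some b := ⟨_, List.getLast?_eq_some_getLast hne⟩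
  unfold rr
  rw [ha, hb, Finset.sum_add_distrib]
  have h1 : ∀ a : Fin 3 × Bool, ∑ z : Fin 3 × Bool, (if some a = some z then 1 else 0) = 1 := by
    decide
  have h2 : ∀ a : Fin 3 × Bool, ∑ z : Fin 3 × Bool, (if some a = some (bar z) then 1 else 0) = 1 := by
    decide
  rw [h1 a, h2 b]

theorem ConjA_rr_one (z : Fin 3 × Bool) : rr z (1 : FreeGroup (Fin 3)) = 0 := by
  unfold rr
  rw [FreeGroup.toWord_one]
  simp

theorem LT_cj (z : Fin 3 × Bool) (T : List (FreeGroup (Fin 3))) :
    LT (cjT (lett z) T) + 2 * RR z T = LT T + 2 * nn T := by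
  induction T with
  | nil => simp [LT, cjT, RR, nn]
  | cons g T ih =>
    unfold LT cjT RR nn at ih ⊢
    simp only [List.map_cons, List.sum_cons] at ih ⊢
    by_cases hg : g = 1
    · subst hg
      rw [if_pos rfl, ConjA_rr_one]
      have h1 : (lett z)⁻¹ * 1 * lett z = 1 := by group
      rw [h1, FreeGroup.norm_one]
      omega
    · rw [if_neg hg]
      have := norm_cj z hg
      omega

theorem RR_sum (T : List (FreeGroup (Fin 3))) : ∑ z : Fin 3 × Bool, RR z T = 2 * nn T := by
  induction T with
  | nil => simp [RR, nn]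
  | cons g T ih =>
    unfold RR nn at ih ⊢
    simp only [List.map_cons, List.sum_cons] at ih ⊢
    rw [Finset.sum_add_distrib, ih]
    by_cases hg : g = 1
    · subst hg
      rw [if_pos rfl]
      simp [ConjA_rr_one]
    · rw [if_neg hg, rr_sum hg]
      ring

theorem ConjA_mono_term {z w : Fin 3 × Bool} (hw : w ≠ bar z) (g : FreeGroup (Fin 3)) :
    rr w ((lett z)⁻¹ * g * lett z) ≤ rr z g := by
  by_cases hg : g = 1
  · subst hg
    have h1 : (lett z)⁻¹ * 1 * lett z = 1 := by group
    rw [h1, ConjA_rr_one]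
    exact Nat.zero_le _
  · exact rr_mono hw hg

theorem RR_mono {z w : Fin 3 × Bool} (hw : w ≠ bar z) (T : List (FreeGroup (Fin 3))) :
    RR w (cjT (lett z) T) ≤ RR z T := by
  induction T with
  | nil => simp [RR, cjT]
  | cons g T ih =>
    unfold RR cjT at ih ⊢
    simp only [List.map_cons, List.sum_cons] at ih ⊢
    have := ConjA_mono_term hw g
    omega

/-- if the sums are equal then all terms are equal -/
theorem RR_mono_eq {z w : Fin 3 × Bool} (hw : w ≠ bar z) {T : List (FreeGroup (Fin 3))}
    (h : RR w (cjT (lett z) T) = RR z T) {g : FreeGroup (Fin 3)} (hg : g ∈ T) (hg1 : g ≠ 1) :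
    rr w ((lett z)⁻¹ * g * lett z) = rr z g := by
  induction T with
  | nil => simp at hg
  | cons g' T ih =>
    have h1 := ConjA_mono_term hw g'
    have h2 := RR_mono hw T
    unfold RR cjT at ih h h2
    simp only [List.map_cons, List.sum_cons] at h
    rcases List.mem_cons.1 hg with rfl | hg'
    · omega
    · exact ih (by omega) hg'

end Pool.Agent.Sims
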