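import Pool.Agent.Sims.ConjA

/-!
# Module `ConjB` : level conjugations form a path

`T` satisfies `CMin T`.  For a reduced word `x = z_1 … z_L` with letters `≠ x_0^{±1}` put `T_r = cjT (z_1 … z_r) T`, `L_r = LT T_r`, `R_r = RR z_{r+1} T_r`.
`L_{r+1} = L_r + 2 nn - 2 R_r` (`LT_cj`, `nn_cj`) and `R_{r+1} ≤ R_r` (`RR_mono`, as `z_{r+2} ≠ z_{r+1}⁻¹`): the differences `L_{r+1} - L_r` do not
decrease.  `L_0 = N ≤ L_r`.  If `L_L = N` then all differences are `0`: the first one is `≥ 0`, so all are `≥ 0`, and they sum up to `0`.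
* `lvl_path`: this, in the form: for `x = mk u`, `u` reduced, `Lw T x`: for every decomposition `u = v ++ z :: v'`: `Lw T (mk v)` and
  `RR z (cjT (mk v) T) = nn T`.
* `lvl_dirs`: if `1 ≤ nn T` at most two letters `z` satisfy `RR z T = nn T` (`RR_sum`); the first letter of a level `x ≠ 1` is such a letter.
* `lvl_uniq`: compare the words `u, u'` of `x, y` (same length, same first letter); suppose they agree up to `v` (`v ≠ []`, last letter `z₀`) and continue with
  different letters `z ≠ z'`.  `T' = cjT (mk v) T` has `LT T' = N`, `CMin T'`, and three different letters `z, z', z₀⁻¹` with `RR = nn` (for `z₀⁻¹`: `T'` and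
  `cjT z₀⁻¹ T' = cjT (mk (v without z₀)) T` have the same `LT`, use `LT_cj`); contradiction as in `lvl_dirs`.
Difficulty 2-3.
-/

namespace Pool.Agent.Sims

open FreeGroup (of)

theorem ConjB_snoc (v : List (Fin 3 × Bool)) (z : Fin 3 × Bool) (T : List (FreeGroup (Fin 3))) :
    cjT (FreeGroup.mk (v ++ [z])) T = cjT (lett z) (cjT (FreeGroup.mk v) T) := by
  rw [← cjT_mul]
  congr 1

theorem ConjB_step (v : List (Fin 3 × Bool)) (z : Fin 3 × Bool) (T : List (FreeGroup (Fin 3))) :
    LT (cjT (FreeGroup.mk (v ++ [z])) T) + 2 * RR z (cjT (FreeGroup.mk v) T) =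
      LT (cjT (FreeGroup.mk v) T) + 2 * nn T := by
  rw [ConjB_snoc, LT_cj, nn_cj]

theorem ConjB_ne {v s : List (Fin 3 × Bool)} {z w : Fin 3 × Bool}
    (h : FreeGroup.IsReduced (v ++ z :: w :: s)) : w ≠ bar z := by
  have h1 : FreeGroup.IsReduced (z :: w :: s) := red_mid h ⟨v, [], by simp⟩
  have h2 := (FreeGroup.isReduced_cons_cons.1 h1).1
  rintro rfl
  have h3 := h2 rfl
  simp [bar] at h3

theorem ConjB_chain {T : List (FreeGroup (Fin 3))} : ∀ (s v : List (Fin 3 × Bool))
    (z : Fin 3 × Bool), FreeGroup.IsReduced (v ++ z :: s) →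
    RR z (cjT (FreeGroup.mk v) T) ≤ nn T →
    LT (cjT (FreeGroup.mk v) T) ≤ LT (cjT (FreeGroup.mk (v ++ z :: s)) T) ∧
    (LT (cjT (FreeGroup.mk (v ++ z :: s)) T) ≤ LT (cjT (FreeGroup.mk v) T) →
      ∀ (v1 s1 : List (Fin 3 × Bool)) (z1 : Fin 3 × Bool), z :: s = v1 ++ z1 :: s1 →
        LT (cjT (FreeGroup.mk (v ++ v1)) T) = LT (cjT (FreeGroup.mk v) T) ∧
        RR z1 (cjT (FreeGroup.mk (v ++ v1)) T) = nn T) := by
  intro s
  induction s with
  | nil =>
    intro v z _ hR
    have h1 := ConjB_step v z T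
    refine ⟨by omega, ?_⟩
    intro h2 v1 s1 z1 h3
    rcases v1 with _ | ⟨a, v1⟩
    · simp only [List.nil_append, List.cons.injEq] at h3
      rw [List.append_nil, ← h3.1]
      exact ⟨rfl, by omega⟩
    · simp at h3
  | cons w s ih =>
    intro v z hred hR
    have h1 := ConjB_step v z T
    have hne := ConjB_ne hred
    have hm := RR_mono hne (cjT (FreeGroup.mk v) T)
    rw [← ConjB_snoc] at hm
    have e : v ++ z :: w :: s = (v ++ [z]) ++ w :: s := by simp
    rw [e] at hred ⊢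
    obtain ⟨i1, i2⟩ := ih (v ++ [z]) w hred (by omega)
    refine ⟨by omega, ?_⟩
    intro h2 v1 s1 z1 h3
    rcases v1 with _ | ⟨a, v1⟩
    · simp only [List.nil_append, List.cons.injEq] at h3
      rw [List.append_nil, ← h3.1]
      exact ⟨rfl, by omega⟩
    · simp only [List.cons_append, List.cons.injEq] at h3
      obtain ⟨h4, h5⟩ := h3
      subst h4
      obtain ⟨j1, j2⟩ := i2 (by omega) v1 s1 z1 h5
      have e2 : v ++ z :: v1 = (v ++ [z]) ++ v1 := by simp
      rw [e2]
      exact ⟨by omega, j2⟩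

theorem lvl_path {T : List (FreeGroup (Fin 3))} (hT : CMin T) {u : List (Fin 3 × Bool)}
    (hu : FreeGroup.IsReduced u) (hx : Lw T (FreeGroup.mk u)) {v v' : List (Fin 3 × Bool)}
    {z : Fin 3 × Bool} (h : u = v ++ z :: v') :
    Lw T (FreeGroup.mk v) ∧ RR z (cjT (FreeGroup.mk v) T) = nn T := by
  obtain ⟨h12, hL⟩ := hx
  have hlet : ∀ x ∈ u, x.1 ≠ 0 := by
    intro x hx
    apply h12 x
    rw [FreeGroup.toWord_mk, hu.reduce_eq]
    exact hx
  have hnil : cjT (FreeGroup.mk ([] : List (Fin 3 × Bool))) T = T := by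
    have : FreeGroup.mk ([] : List (Fin 3 × Bool)) = 1 := rfl
    rw [this, cjT_one]
  have hv : In12 (FreeGroup.mk v) := by
    apply In12_mk
    intro x hx
    apply hlet
    rw [h]
    exact List.mem_append_left _ hx
  rcases u with _ | ⟨z0, s0⟩
  · simp at h
  · have h0 : z0.1 ≠ 0 := hlet z0 (by simp)
    have h1 := ConjB_step [] z0 T
    rw [hnil, List.nil_append] at h1
    have h2 := hT (FreeGroup.mk [z0]) (In12_lett h0)
    obtain ⟨-, j⟩ := ConjB_chain (T := T) s0 [] z0 (by simpa using hu) (by rw [hnil]; omega)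
    rw [hnil, List.nil_append, hL] at j
    obtain ⟨j1, j2⟩ := j le_rfl v v' z h
    rw [List.nil_append] at j1 j2
    exact ⟨⟨hv, j1⟩, j2⟩

theorem ConjB_dir {T : List (FreeGroup (Fin 3))} (hT : CMin T) {x : FreeGroup (Fin 3)}
    (hx : Lw T x) {z : Fin 3 × Bool} {s : List (Fin 3 × Bool)} (h : x.toWord = z :: s) :
    RR z T = nn T := by
  have hx' : Lw T (FreeGroup.mk x.toWord) := by rw [FreeGroup.mk_toWord]; exact hx
  have h1 := (lvl_path hT FreeGroup.isReduced_toWord hx' (v := []) (v' := s) (z := z)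
    (by simpa using h)).2
  have : FreeGroup.mk ([] : List (Fin 3 × Bool)) = 1 := rfl
  rwa [this, cjT_one] at h1

theorem ConjB_card {T : List (FreeGroup (Fin 3))} (hn : 1 ≤ nn T) (S : Finset (Fin 3 × Bool))
    (hS : ∀ z ∈ S, RR z T = nn T) : S.card ≤ 2 := by
  have h1 : S.card * nn T ≤ 2 * nn T := by
    rw [← RR_sum T, ← smul_eq_mul, ← Finset.sum_const]
    calc ∑ _z ∈ S, nn T = ∑ z ∈ S, RR z T := Finset.sum_congr rfl (fun z hz => (hS z hz).symm)
      _ ≤ ∑ z : Fin 3 × Bool, RR z T :=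
        Finset.sum_le_sum_of_subset (Finset.subset_univ _)
  exact Nat.le_of_mul_le_mul_right h1 (by omega)

theorem ConjB_two (S : Finset (Fin 3 × Bool)) (h : S.card ≤ 2) :
    ∃ z1 z2, ∀ z ∈ S, z = z1 ∨ z = z2 := by
  rcases Nat.lt_or_ge S.card 1 with h0 | h0
  · have : S = ∅ := Finset.card_eq_zero.1 (by omega)
    exact ⟨(0, true), (0, true), by rw [this]; simp⟩
  rcases Nat.lt_or_ge S.card 2 with h1 | h1
  · obtain ⟨a, ha⟩ := Finset.card_eq_one.1 (show S.card = 1 by omega)
    exact ⟨a, a, by rw [ha]; simp⟩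
  · obtain ⟨a, b, -, hab⟩ := Finset.card_eq_two.1 (show S.card = 2 by omega)
    exact ⟨a, b, by rw [hab]; simp⟩

theorem lvl_dirs {T : List (FreeGroup (Fin 3))} (hT : CMin T) (hn : 1 ≤ nn T) :
    ∃ z1 z2 : Fin 3 × Bool, ∀ x, Lw T x → x ≠ 1 →
      x.toWord.head? = some z1 ∨ x.toWord.head? = some z2 := by
  obtain ⟨z1, z2, hz⟩ := ConjB_two (Finset.univ.filter (fun z => RR z T = nn T))
    (ConjB_card hn _ (fun z hz => (Finset.mem_filter.1 hz).2))
  refine ⟨z1, z2, ?_⟩
  intro x hx hx1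
  rcases hw : x.toWord with _ | ⟨z, s⟩
  · exact absurd (FreeGroup.toWord_eq_nil_iff.1 hw) hx1
  · have h1 := ConjB_dir hT hx hw
    rcases hz z (Finset.mem_filter.2 ⟨Finset.mem_univ _, h1⟩) with h | h
    · left; simp [h]
    · right; simp [h]

theorem ConjB_first {β : Type*} : ∀ (l l' : List β), l.length = l'.length → l ≠ l' →
    ∃ (v s s' : List β) (z z' : β), l = v ++ z :: s ∧ l' = v ++ z' :: s' ∧ z ≠ z' := by
  intro l
  induction l with
  | nil =>
    intro l' h1 h2
    exact absurd (List.length_eq_zero_iff.1 h1.symm).symm h2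
  | cons a l ih =>
    intro l' h1 h2
    rcases l' with _ | ⟨b, l'⟩
    · simp at h1
    · by_cases hab : a = b
      · subst hab
        obtain ⟨v, s, s', z, z', e1, e2, e3⟩ := ih l' (by simpa using h1) (by
          intro h3; exact h2 (by rw [h3]))
        exact ⟨a :: v, s, s', z, z', by rw [e1]; rfl, by rw [e2]; rfl, e3⟩
      · exact ⟨[], l, l', a, b, rfl, rfl, hab⟩

theorem lvl_uniq {T : List (FreeGroup (Fin 3))} (hT : CMin T) (hn : 1 ≤ nn T)
    {x y : FreeGroup (Fin 3)} (hx : Lw T x) (hy : Lw T y) (hl : x.norm = y.norm)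
    (hh : x.toWord.head? = y.toWord.head?) : x = y := by
  by_contra hxy
  have hne : x.toWord ≠ y.toWord := fun h => hxy (FreeGroup.toWord_injective h)
  obtain ⟨v, s, s', z, z', e1, e2, e3⟩ := ConjB_first x.toWord y.toWord hl hne
  have hx' : Lw T (FreeGroup.mk x.toWord) := by rw [FreeGroup.mk_toWord]; exact hx
  have hy' : Lw T (FreeGroup.mk y.toWord) := by rw [FreeGroup.mk_toWord]; exact hy
  have rx : FreeGroup.IsReduced x.toWord := FreeGroup.isReduced_toWord
  have ry : FreeGroup.IsReduced y.toWord := FreeGroup.isReduced_toWord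
  obtain ⟨⟨a1, a2⟩, a3⟩ := lvl_path hT rx hx' e1
  obtain ⟨-, b3⟩ := lvl_path hT ry hy' e2
  rcases List.eq_nil_or_concat v with hv | ⟨v0, z0, hv⟩
  · subst hv
    rw [e1, e2] at hh
    simp at hh
    exact e3 hh
  · rw [List.concat_eq_append] at hv
    have e4 : x.toWord = v0 ++ z0 :: (z :: s) := by rw [e1, hv]; simp
    have e5 : y.toWord = v0 ++ z0 :: (z' :: s') := by rw [e2, hv]; simp
    obtain ⟨⟨-, c2⟩, -⟩ := lvl_path hT rx hx' e4
    have n1 : z ≠ bar z0 := ConjB_ne (by rw [← e4]; exact rx)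
    have n2 : z' ≠ bar z0 := ConjB_ne (by rw [← e5]; exact ry)
    have h1 := LT_cj (bar z0) (cjT (FreeGroup.mk v) T)
    have h2 : cjT (lett (bar z0)) (cjT (FreeGroup.mk v) T) = cjT (FreeGroup.mk v0) T := by
      rw [← cjT_mul, hv, lett_bar]
      congr 1
      have : FreeGroup.mk (v0 ++ [z0]) = FreeGroup.mk v0 * lett z0 := rfl
      rw [this]
      group
    rw [h2, c2, a2, nn_cj] at h1
    have h3 : RR (bar z0) (cjT (FreeGroup.mk v) T) = nn T := by omega
    have h4 := ConjB_card (T := cjT (FreeGroup.mk v) T) (by rw [nn_cj]; exact hn)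
      {z, z', bar z0} (by
        intro t ht
        rw [nn_cj]
        simp only [Finset.mem_insert, Finset.mem_singleton] at ht
        rcases ht with rfl | rfl | rfl
        · exact a3
        · exact b3
        · exact h3)
    rw [Finset.card_eq_three.2 ⟨z, z', bar z0, e3, n1, n2, rfl⟩] at h4
    omega

end Pool.Agent.Sims
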