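import Pool.Agent.Sims.ConjB

/-!
# Module `ConjC` : a long level path is periodic

`CMin T`, `1 ≤ nn T`, `N = LT T`, `x = z_1 … z_L` (reduced word) level, `L > N`.  Let `T_r`, `x_r = z_1 … z_r`.  By `lvl_path` `RR z_{r+1} T_r = nn T` for all `r < L`, so by `RR_mono_eq` for every
nontrivial entry `g` of `T` the number `rr z_{r+1} (g^{x_r})` (`g^x = x⁻¹ g x`) does not depend on `r < L`.
* It is not `2`: the length would drop by `2` in every step (`norm_cj`), `|g| - 2L ≥ 1` while `|g| ≤ N < L`.
* So it is `≤ 1` for all nontrivial entries, and as the sum is `nn T`, it is `1` for all of them.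
* If `g^{x_r}` starts with `z_{r+1}` (and does not end with `z_{r+1}⁻¹`), then `g^{x_{r+1}}` is the rotated word, it ends with `z_{r+1}`, so not with `z_{r+2}⁻¹`, and it
  starts with `z_{r+2}`.  In this case put `v = g`.  If `g^{x_r}` ends with `z_{r+1}⁻¹` the same holds for `v = g⁻¹`.  By induction
  `z_{r+1}` is the letter number `r mod |v|` of `v` for all `r < L`.
* Let `g₁` be a nontrivial entry of `T`, `v₁` as above, `p = |v₁|`.  For every other nontrivial entry (another position of the list) `g`, `v`, `q = |v|`: `p + q ≤ N < L`, and the first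
  `p + q` letters of `x` spell `v₁ v` and also `v v₁` (letter `p + r` is letter `r mod p` of `v₁`, i.e. the letter `r` of `x`, i.e. of `v`).  So `v₁` commutes with all
  entries of `T`: `cjT v₁ T = T`.
* `y = v₁⁻¹ x` is the suffix `z_{p+1} … z_L` of `x`; `In12 y`, `|y| = L - p < L`, `cjT x T = cjT y (cjT v₁ T) = cjT y T`.
Difficulty 3.
-/

namespace Pool.Agent.Sims

open FreeGroup (of)

/-- the conjugate by the prefix of length `r` -/
def ConjC_g (u : List (Fin 3 × Bool)) (g : FreeGroup (Fin 3)) (r : ℕ) : FreeGroup (Fin 3) :=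
  (FreeGroup.mk (u.take r))⁻¹ * g * FreeGroup.mk (u.take r)

theorem ConjC_g_zero (u : List (Fin 3 × Bool)) (g : FreeGroup (Fin 3)) : ConjC_g u g 0 = g := by
  unfold ConjC_g
  have : FreeGroup.mk (List.take 0 u) = (1 : FreeGroup (Fin 3)) := rfl
  rw [this]; simp

theorem ConjC_mk_succ (u : List (Fin 3 × Bool)) {r : ℕ} (h : r < u.length) :
    FreeGroup.mk (u.take (r + 1)) = FreeGroup.mk (u.take r) * lett u[r] := by
  rw [List.take_succ_eq_append_getElem h]
  rfl

theorem ConjC_g_succ (u : List (Fin 3 × Bool)) (g : FreeGroup (Fin 3)) {r : ℕ}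
    (h : r < u.length) : ConjC_g u g (r + 1) = (lett u[r])⁻¹ * ConjC_g u g r * lett u[r] := by
  unfold ConjC_g
  rw [ConjC_mk_succ u h]
  group

theorem ConjC_g_ne (u : List (Fin 3 × Bool)) {g : FreeGroup (Fin 3)} (hg : g ≠ 1) (r : ℕ) :
    ConjC_g u g r ≠ 1 := by
  unfold ConjC_g
  intro h
  apply hg
  have h2 : g = FreeGroup.mk (u.take r) * ((FreeGroup.mk (u.take r))⁻¹ * g *
      FreeGroup.mk (u.take r)) * (FreeGroup.mk (u.take r))⁻¹ := by group
  rw [h2, h]
  group

theorem ConjC_decomp (u : List (Fin 3 × Bool)) {r : ℕ} (h : r < u.length) :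
    u = u.take r ++ u[r] :: u.drop (r + 1) := by
  rw [List.getElem_cons_drop, List.take_append_drop]

theorem ConjC_adj {u : List (Fin 3 × Bool)} (hu : FreeGroup.IsReduced u) {r : ℕ}
    (h : r + 1 < u.length) : u[r + 1] ≠ bar (u[r]'(by omega)) := by
  have e : u = u.take r ++ (u[r]'(by omega)) :: u[r + 1] :: u.drop (r + 2) := by
    rw [List.getElem_cons_drop, List.getElem_cons_drop, List.take_append_drop]
  have hu' := hu
  rw [e] at hu'
  exact ConjB_ne hu'

section
variable {T : List (FreeGroup (Fin 3))} {u : List (Fin 3 × Bool)}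

theorem ConjC_rr_succ (hT : CMin T) (hu : FreeGroup.IsReduced u) (hx : Lw T (FreeGroup.mk u))
    {g : FreeGroup (Fin 3)} (hg : g ∈ T) (hg1 : g ≠ 1) {r : ℕ} (h : r + 1 < u.length) :
    rr u[r + 1] (ConjC_g u g (r + 1)) = rr (u[r]'(by omega)) (ConjC_g u g r) := by
  have hr : r < u.length := by omega
  have h1 := (lvl_path hT hu hx (ConjC_decomp u hr)).2
  have h2 := (lvl_path hT hu hx (ConjC_decomp u h)).2
  rw [List.take_succ_eq_append_getElem hr, ConjB_snoc] at h2
  rw [ConjC_g_succ u g hr]
  refine RR_mono_eq (ConjC_adj hu h) (h2.trans h1.symm) ?_ (ConjC_g_ne u hg1 r)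
  exact List.mem_map.2 ⟨g, hg, rfl⟩

theorem ConjC_rr_const (hT : CMin T) (hu : FreeGroup.IsReduced u) (hx : Lw T (FreeGroup.mk u))
    {g : FreeGroup (Fin 3)} (hg : g ∈ T) (hg1 : g ≠ 1) (h0 : 0 < u.length) :
    ∀ (r : ℕ) (h : r < u.length), rr u[r] (ConjC_g u g r) = rr u[0] g := by
  intro r
  induction r with
  | zero => intro h; rw [ConjC_g_zero]
  | succ r ih =>
    intro h
    rw [ConjC_rr_succ hT hu hx hg hg1 h]
    exact ih (by omega)

theorem ConjC_norm_le {g : FreeGroup (Fin 3)} : ∀ (T : List (FreeGroup (Fin 3))), g ∈ T →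
    g.norm ≤ LT T := by
  intro T hg
  unfold LT
  exact List.single_le_sum (by simp) _ (List.mem_map.2 ⟨g, hg, rfl⟩)

theorem ConjC_norm_le2 {g g' : FreeGroup (Fin 3)} (hne : g ≠ g') :
    ∀ (T : List (FreeGroup (Fin 3))), g ∈ T → g' ∈ T → g.norm + g'.norm ≤ LT T := by
  intro T
  induction T with
  | nil => intro h; simp at h
  | cons a T ih =>
    intro h h'
    have e : LT (a :: T) = a.norm + LT T := by unfold LT; simp
    rw [e]
    rcases List.mem_cons.1 h with h1 | h1
    · rcases List.mem_cons.1 h' with h2 | h2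
      · exact absurd (h1.trans h2.symm) hne
      · have := ConjC_norm_le T h2
        rw [h1]; omega
    · rcases List.mem_cons.1 h' with h2 | h2
      · have := ConjC_norm_le T h1
        rw [h2]; omega
      · have := ih h1 h2
        omega

theorem ConjC_rr_le (z : Fin 3 × Bool) (g : FreeGroup (Fin 3)) : rr z g ≤ 2 := by
  unfold rr
  split_ifs <;> omega

theorem ConjC_rr_one (z : Fin 3 × Bool) : rr z (1 : FreeGroup (Fin 3)) = 0 := by
  unfold rr
  simp

theorem ConjC_ne_two (hT : CMin T) (hu : FreeGroup.IsReduced u) (hx : Lw T (FreeGroup.mk u))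
    {g : FreeGroup (Fin 3)} (hg : g ∈ T) (hg1 : g ≠ 1) (h0 : 0 < u.length)
    (hl : LT T < u.length) : rr u[0] g ≠ 2 := by
  intro h2
  have h3 : ∀ r, r ≤ u.length → (ConjC_g u g r).norm + 2 * r = g.norm := by
    intro r
    induction r with
    | zero => intro _; rw [ConjC_g_zero]; rfl
    | succ r ih =>
      intro hr
      have h4 := ih (by omega)
      have h5 := norm_cj u[r] (ConjC_g_ne u hg1 r)
      rw [← ConjC_g_succ u g (by omega),
        ConjC_rr_const hT hu hx hg hg1 h0 r (by omega), h2] at h5
      omega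
  have h4 := h3 u.length le_rfl
  have h5 := ConjC_norm_le T hg
  omega

theorem ConjC_sum_eq {α : Type*} (f h : α → ℕ) : ∀ (l : List α), (∀ a ∈ l, f a ≤ h a) →
    (l.map f).sum = (l.map h).sum → ∀ a ∈ l, f a = h a := by
  intro l
  induction l with
  | nil => intro _ _ a ha; simp at ha
  | cons b l ih =>
    intro h1 h2 a ha
    simp only [List.map_cons, List.sum_cons] at h2
    have h3 := h1 b (by simp)
    have h4 : (l.map f).sum ≤ (l.map h).sum :=
      List.sum_le_sum (fun i hi => h1 i (List.mem_cons_of_mem _ hi))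
    rcases List.mem_cons.1 ha with rfl | ha
    · omega
    · exact ih (fun i hi => h1 i (List.mem_cons_of_mem _ hi)) (by omega) a ha

theorem ConjC_eq_one (hT : CMin T) (hu : FreeGroup.IsReduced u) (hx : Lw T (FreeGroup.mk u))
    (h0 : 0 < u.length) (hl : LT T < u.length) {g : FreeGroup (Fin 3)} (hg : g ∈ T)
    (hg1 : g ≠ 1) : rr u[0] g = 1 := by
  have h1 := (lvl_path hT hu hx (ConjC_decomp u h0)).2
  have e : FreeGroup.mk (List.take 0 u) = (1 : FreeGroup (Fin 3)) := rfl
  rw [e, cjT_one] at h1
  have h2 := ConjC_sum_eq (rr u[0]) (fun g => if g = 1 then 0 else 1) T (by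
    intro a ha
    by_cases ha1 : a = 1
    · rw [ha1, ConjC_rr_one]; simp
    · have h3 := ConjC_rr_le u[0] a
      have h4 := ConjC_ne_two hT hu hx ha ha1 h0 hl
      simp only [ha1, if_false]
      omega) h1 g hg
  rw [h2]
  simp [hg1]

/-- the word of a conjugate, first case -/
theorem ConjC_word {z : Fin 3 × Bool} {G : FreeGroup (Fin 3)} {w : List (Fin 3 × Bool)}
    (h : G.toWord = z :: w) (hl : G.toWord.getLast? ≠ some (bar z)) :
    ((lett z)⁻¹ * G * lett z).toWord = w ++ [z] := by
  have hG : G = FreeGroup.mk (z :: w) := by rw [← h, FreeGroup.mk_toWord]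
  have e1 : (lett z)⁻¹ * G * lett z = FreeGroup.mk (w ++ [z]) := by
    have e2 : FreeGroup.mk (z :: w) = lett z * FreeGroup.mk w := rfl
    have e3 : FreeGroup.mk (w ++ [z]) = FreeGroup.mk w * lett z := rfl
    rw [hG, e2, e3]
    group
  have hr : FreeGroup.IsReduced (z :: w) := by
    rw [← h]; exact FreeGroup.isReduced_toWord
  have hw : FreeGroup.IsReduced w := red_mid hr ⟨[z], [], by simp⟩
  have hr2 : FreeGroup.IsReduced (w ++ [z]) := by
    unfold FreeGroup.IsReduced
    rw [List.isChain_append]
    refine ⟨hw, List.isChain_singleton _, ?_⟩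
    intro a ha b hb h1
    simp only [List.head?_cons, Option.mem_def, Option.some.injEq] at hb
    subst hb
    have ha' : (z :: w).getLast? = some a := by
      rw [Option.mem_def] at ha
      rw [List.getLast?_cons, ha]
      rfl
    rw [h, ha'] at hl
    by_contra h2
    apply hl
    congr 1
    refine Prod.ext h1 ?_
    simp only [bar_snd]
    revert h2
    cases a.2 <;> cases z.2 <;> simp
  rw [e1, FreeGroup.toWord_mk, hr2.reduce_eq]

theorem ConjC_rot (hu : FreeGroup.IsReduced u) (h0 : 0 < u.length) {g : FreeGroup (Fin 3)}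
    (h1 : ∀ (r : ℕ) (h : r < u.length), rr u[r] (ConjC_g u g r) = 1)
    (h2 : g.toWord.head? = some u[0]) :
    ∀ (r : ℕ) (h : r < u.length), (ConjC_g u g r).toWord = g.toWord.rotate r ∧
      (ConjC_g u g r).toWord.head? = some u[r] := by
  intro r
  induction r with
  | zero => intro h; rw [ConjC_g_zero, List.rotate_zero]; exact ⟨rfl, h2⟩
  | succ r ih =>
    intro h
    have hr : r < u.length := by omega
    obtain ⟨a1, a2⟩ := ih hr
    have a3 := h1 r hr
    rcases hw : (ConjC_g u g r).toWord with _ | ⟨z, w⟩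
    · rw [hw] at a2; simp at a2
    · have hz : z = u[r] := by
        rw [hw] at a2; simpa using a2
      have a4 : (ConjC_g u g r).toWord.getLast? ≠ some (bar z) := by
        intro hc
        unfold rr at a3
        rw [if_pos a2, ← hz, if_pos hc] at a3
        omega
      have a5 := ConjC_word hw a4
      rw [hz, ← ConjC_g_succ u g hr] at a5
      refine ⟨?_, ?_⟩
      · rw [a5, ← List.rotate_rotate, ← a1, hw, List.rotate_cons_succ, List.rotate_zero, hz]
      · have a6 := h1 (r + 1) h
        unfold rr at a6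
        by_contra hc
        rw [if_neg hc] at a6
        have a7 : (ConjC_g u g (r + 1)).toWord.getLast? = some (bar u[r + 1]) := by
          by_contra hc2
          rw [if_neg hc2] at a6
          omega
        rw [a5, List.getLast?_append, List.getLast?_singleton] at a7
        simp only [Option.some_or, Option.some.injEq] at a7
        have a8 := ConjC_adj hu h
        apply a8
        rw [a7, bar_bar]

/-- periodicity -/
def ConjC_per (u W : List (Fin 3 × Bool)) : Prop :=
  ∀ r, r < u.length → u[r]? = W[r % W.length]?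

theorem ConjC_per_of (hu : FreeGroup.IsReduced u) (h0 : 0 < u.length) {g : FreeGroup (Fin 3)}
    (h1 : ∀ (r : ℕ) (h : r < u.length), rr u[r] (ConjC_g u g r) = 1)
    (h2 : g.toWord.head? = some u[0]) : ConjC_per u g.toWord := by
  intro r hr
  obtain ⟨a1, a2⟩ := ConjC_rot hu h0 h1 h2 r hr
  have hpos : 0 < g.toWord.length := by
    rcases hw : g.toWord with _ | ⟨z, w⟩
    · rw [hw] at h2; simp at h2
    · simp
  rw [a1, ← List.rotate_mod, List.head?_rotate (Nat.mod_lt _ hpos)] at a2
  rw [a2, List.getElem?_eq_getElem hr]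

theorem ConjC_per_take {W : List (Fin 3 × Bool)} (h : ConjC_per u W) (hl : W.length ≤ u.length) :
    W = u.take W.length := by
  apply List.ext_getElem?
  intro i
  rcases Nat.lt_or_ge i W.length with hi | hi
  · rw [List.getElem?_take_of_lt hi, h i (by omega), Nat.mod_eq_of_lt hi]
  · rw [List.getElem?_eq_none hi, List.getElem?_eq_none]
    rw [List.length_take]
    omega

theorem ConjC_per_append {W W' : List (Fin 3 × Bool)} (h : ConjC_per u W) (h' : ConjC_per u W')
    (hl : W.length + W'.length ≤ u.length) :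
    W ++ W' = u.take (W.length + W'.length) := by
  apply List.ext_getElem?
  intro i
  rcases Nat.lt_or_ge i W.length with hi | hi
  · rw [List.getElem?_append_left hi, List.getElem?_take_of_lt (by omega), h i (by omega),
      Nat.mod_eq_of_lt hi]
  · rw [List.getElem?_append_right hi]
    rcases Nat.lt_or_ge i (W.length + W'.length) with hi2 | hi2
    · rw [List.getElem?_take_of_lt hi2]
      have e1 := h i (by omega)
      have e2 := h (i - W.length) (by omega)
      have e3 := h' (i - W.length) (by omega)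
      rw [Nat.mod_eq_of_lt (by omega : i - W.length < W'.length)] at e3
      have e4 : i % W.length = (i - W.length) % W.length := by
        conv_lhs => rw [← Nat.sub_add_cancel hi]
        rw [Nat.add_mod_right]
      rw [← e3, e1, e2, e4]
    · rw [List.getElem?_eq_none (by omega), List.getElem?_eq_none]
      rw [List.length_take]
      omega

theorem ConjC_rr_inv (z : Fin 3 × Bool) (g : FreeGroup (Fin 3)) : rr z g⁻¹ = rr z g := by
  have e1 : (g⁻¹.toWord.head? = some z) ↔ (g.toWord.getLast? = some (bar z)) := by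
    rw [FreeGroup.toWord_inv, FreeGroup.invRev, List.head?_reverse, List.getLast?_map]
    rcases g.toWord.getLast? with _ | a
    · simp
    · simp only [Option.map_some, Option.some.injEq]
      constructor
      · intro h; rw [← h]; simp [bar]
      · intro h; rw [h]; simp [bar]
  have e2 : (g⁻¹.toWord.getLast? = some (bar z)) ↔ (g.toWord.head? = some z) := by
    rw [FreeGroup.toWord_inv, FreeGroup.invRev, List.getLast?_reverse, List.head?_map]
    rcases g.toWord.head? with _ | a
    · simp
    · simp only [Option.map_some, Option.some.injEq]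
      constructor
      · intro h
        have h1 := congrArg Prod.fst h
        have h2 := congrArg Prod.snd h
        simp only [bar_fst, bar_snd] at h1 h2
        refine Prod.ext h1 ?_
        simpa using h2
      · intro h; rw [h]; simp [bar]
  unfold rr
  rw [if_congr e1 rfl rfl, if_congr e2 rfl rfl]
  omega

theorem ConjC_g_inv (u : List (Fin 3 × Bool)) (g : FreeGroup (Fin 3)) (r : ℕ) :
    ConjC_g u g⁻¹ r = (ConjC_g u g r)⁻¹ := by
  unfold ConjC_g
  group

/-- every nontrivial entry or its inverse is a prefix, and `u` is periodic with its length -/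
theorem ConjC_entry (hT : CMin T) (hu : FreeGroup.IsReduced u) (hx : Lw T (FreeGroup.mk u))
    (h0 : 0 < u.length) (hl : LT T < u.length) {g : FreeGroup (Fin 3)} (hg : g ∈ T)
    (hg1 : g ≠ 1) : ∃ W : List (Fin 3 × Bool), (FreeGroup.mk W = g ∨ FreeGroup.mk W = g⁻¹) ∧
      W.length = g.norm ∧ ConjC_per u W := by
  have h1 := ConjC_eq_one hT hu hx h0 hl hg hg1
  have h2 : ∀ (r : ℕ) (h : r < u.length), rr u[r] (ConjC_g u g r) = 1 := by
    intro r h
    rw [ConjC_rr_const hT hu hx hg hg1 h0 r h, h1]
  by_cases hh : g.toWord.head? = some u[0]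
  · exact ⟨g.toWord, Or.inl FreeGroup.mk_toWord, rfl, ConjC_per_of hu h0 h2 hh⟩
  · have hh' : g⁻¹.toWord.head? = some u[0] := by
      have h3 : g.toWord.getLast? = some (bar u[0]) := by
        unfold rr at h1
        rw [if_neg hh] at h1
        by_contra hc
        rw [if_neg hc] at h1
        omega
      rw [FreeGroup.toWord_inv, FreeGroup.invRev, List.head?_reverse, List.getLast?_map, h3]
      simp [bar]
    refine ⟨g⁻¹.toWord, Or.inr FreeGroup.mk_toWord, ?_, ConjC_per_of hu h0 ?_ hh'⟩
    · have : g⁻¹.norm = g.norm := FreeGroup.norm_inv_eq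
      exact this
    · intro r h
      rw [ConjC_g_inv, ConjC_rr_inv]
      exact h2 r h

end

theorem lvl_period {T : List (FreeGroup (Fin 3))} (hT : CMin T) (hn : 1 ≤ nn T)
    {x : FreeGroup (Fin 3)} (hx : Lw T x) (hl : LT T < x.norm) :
    ∃ y, Lw T y ∧ y.norm < x.norm ∧ cjT y T = cjT x T := by
  have hu : FreeGroup.IsReduced x.toWord := FreeGroup.isReduced_toWord
  have hx' : Lw T (FreeGroup.mk x.toWord) := by rw [FreeGroup.mk_toWord]; exact hx
  have hl' : LT T < x.toWord.length := hl
  have h0 : 0 < x.toWord.length := by omega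
  have hex : ∃ g1 ∈ T, g1 ≠ 1 := by
    by_contra hc
    push Not at hc
    have : nn T = 0 := by
      unfold nn
      rw [List.sum_eq_zero_iff]
      intro a ha
      obtain ⟨g, hg, rfl⟩ := List.mem_map.1 ha
      simp [hc g hg]
    omega
  obtain ⟨g1, hg1, hg11⟩ := hex
  obtain ⟨W1, hW1, hW1l, hW1p⟩ := ConjC_entry hT hu hx' h0 hl' hg1 hg11
  have hpos : 1 ≤ g1.norm := by
    rcases Nat.eq_zero_or_pos g1.norm with h | h
    · exact absurd (FreeGroup.norm_eq_zero.1 h) hg11
    · exact h
  have hle : g1.norm ≤ LT T := ConjC_norm_le T hg1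
  have hcomm : ∀ g ∈ T, Commute (FreeGroup.mk W1) g := by
    intro g hg
    by_cases hg0 : g = 1
    · rw [hg0]; exact Commute.one_right _
    by_cases hgg : g = g1
    · rw [hgg]
      rcases hW1 with h | h
      · rw [h]
      · rw [h]; exact (Commute.refl g1).inv_left
    · obtain ⟨W, hW, hWl, hWp⟩ := ConjC_entry hT hu hx' h0 hl' hg hg0
      have h3 := ConjC_norm_le2 (Ne.symm hgg) T hg1 hg
      have e1 := ConjC_per_append hW1p hWp (by omega)
      have e2 := ConjC_per_append hWp hW1p (by omega)
      have e3 : W1 ++ W = W ++ W1 := by rw [e1, e2, add_comm]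
      have e4 : Commute (FreeGroup.mk W1) (FreeGroup.mk W) := by
        have e5 : FreeGroup.mk (W1 ++ W) = FreeGroup.mk (W ++ W1) := by rw [e3]
        exact e5
      rcases hW with h | h
      · rw [h] at e4; exact e4
      · rw [h] at e4; exact Commute.inv_right_iff.1 e4
  have hfix : cjT (FreeGroup.mk W1) T = T := by
    unfold cjT
    conv_rhs => rw [← List.map_id T]
    apply List.map_congr_left
    intro g hg
    have h3 := (hcomm g hg).eq
    rw [mul_assoc, ← h3]
    exact inv_mul_cancel_left _ _
  have hp := ConjC_per_take hW1p (by omega)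
  have hxe : x = FreeGroup.mk W1 * FreeGroup.mk (x.toWord.drop W1.length) := by
    have e1 : FreeGroup.mk (x.toWord.take W1.length ++ x.toWord.drop W1.length) = x := by
      rw [List.take_append_drop, FreeGroup.mk_toWord]
    conv_lhs => rw [← e1]
    rw [← hp]
    rfl
  have hr : FreeGroup.IsReduced (x.toWord.drop W1.length) := by
    refine red_mid hu ⟨x.toWord.take W1.length, [], ?_⟩
    rw [List.append_nil, List.take_append_drop]
  have hc : cjT x T = cjT (FreeGroup.mk (x.toWord.drop W1.length)) T := by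
    conv_lhs => rw [hxe]
    rw [cjT_mul, hfix]
  refine ⟨FreeGroup.mk (x.toWord.drop W1.length), ⟨?_, ?_⟩, ?_, hc.symm⟩
  · apply In12_mk
    intro a ha
    exact hx.1 a (List.mem_of_mem_drop ha)
  · rw [← hc]; exact hx.2
  · have e : (FreeGroup.mk (x.toWord.drop W1.length)).norm = (x.toWord.drop W1.length).length := by
      unfold FreeGroup.norm
      rw [FreeGroup.toWord_mk, hr.reduce_eq]
    rw [e, List.length_drop]
    have : x.norm = x.toWord.length := rfl
    omega

end Pool.Agent.Sims
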