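import Pool.Agent.Sims.ConjC

/-!
# Module `ConjD` : number of level conjugates

If `nn T = 0` all entries are `1` and `cjT x T = T`: `E = {T}`.  Otherwise let `z1, z2` be as in `lvl_dirs`.  By `lvl_period` (strong induction on the norm) every
`cjT x T` with `Lw T x` is `cjT y T` with `Lw T y`, `y.norm ≤ LT T`.  For `1 ≤ r ≤ LT T` and `i = 1, 2` let `f r i = cjT y T` where `y` is the element with `Lw T y`, `y.norm = r`,
first letter `z_i` if there is one (unique by `lvl_uniq`), `T` otherwise.  `E = {T} ∪ {f r i}`.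
Difficulty 2.
-/

namespace Pool.Agent.Sims

open FreeGroup (of)

theorem ConjD_zero {T : List (FreeGroup (Fin 3))} (h : nn T = 0) (x : FreeGroup (Fin 3)) :
    cjT x T = T := by
  have h1 : ∀ g ∈ T, g = 1 := by
    intro g hg
    unfold nn at h
    rw [List.sum_eq_zero_iff] at h
    by_contra hne
    have := h 1 (List.mem_map.2 ⟨g, hg, by simp [hne]⟩)
    exact one_ne_zero this
  unfold cjT
  conv_rhs => rw [← List.map_id T]
  apply List.map_congr_left
  intro g hg
  rw [h1 g hg]
  simp

theorem ConjD_short {T : List (FreeGroup (Fin 3))} (hT : CMin T) (hn : 1 ≤ nn T) :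
    ∀ (N : ℕ) (x : FreeGroup (Fin 3)), x.norm ≤ N → Lw T x →
      ∃ y, Lw T y ∧ y.norm ≤ LT T ∧ cjT y T = cjT x T := by
  intro N
  induction N with
  | zero =>
    intro x hx hL
    exact ⟨x, hL, by omega, rfl⟩
  | succ N ih =>
    intro x hx hL
    by_cases hl : LT T < x.norm
    · obtain ⟨y, hy, hyn, hyc⟩ := lvl_period hT hn hL hl
      obtain ⟨y', h1, h2, h3⟩ := ih y (by omega) hy
      exact ⟨y', h1, h2, h3.trans hyc⟩
    · exact ⟨x, hL, by omega, rfl⟩

open Classical in
/-- the conjugate of norm `r` in the direction `z` -/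
noncomputable def ConjD_f (T : List (FreeGroup (Fin 3))) (z : Fin 3 × Bool) (r : ℕ) :
    List (FreeGroup (Fin 3)) :=
  if h : ∃ y, Lw T y ∧ y.norm = r ∧ y.toWord.head? = some z then cjT h.choose T else T

theorem ConjD_f_eq {T : List (FreeGroup (Fin 3))} (hT : CMin T) (hn : 1 ≤ nn T)
    {y : FreeGroup (Fin 3)} (hy : Lw T y) {z : Fin 3 × Bool} (hz : y.toWord.head? = some z) :
    ConjD_f T z y.norm = cjT y T := by
  have h : ∃ y', Lw T y' ∧ y'.norm = y.norm ∧ y'.toWord.head? = some z := ⟨y, hy, rfl, hz⟩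
  unfold ConjD_f
  rw [dif_pos h]
  obtain ⟨h1, h2, h3⟩ := h.choose_spec
  rw [lvl_uniq hT hn h1 hy h2 (h3.trans hz.symm)]

theorem conj_count {T : List (FreeGroup (Fin 3))} (hT : CMin T) :
    ∃ E : Finset (List (FreeGroup (Fin 3))), E.card ≤ 2 * LT T + 1 ∧
      ∀ x, Lw T x → cjT x T ∈ E := by
  classical
  rcases Nat.eq_zero_or_pos (nn T) with h0 | hn
  · refine ⟨{T}, by simp, ?_⟩
    intro x _
    rw [ConjD_zero h0 x]
    simp
  · obtain ⟨z1, z2, hz⟩ := lvl_dirs hT hn
    refine ⟨insert T ((Finset.Icc 1 (LT T)).image (ConjD_f T z1) ∪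
      (Finset.Icc 1 (LT T)).image (ConjD_f T z2)), ?_, ?_⟩
    · refine (Finset.card_insert_le _ _).trans ?_
      have h1 := Finset.card_union_le ((Finset.Icc 1 (LT T)).image (ConjD_f T z1))
        ((Finset.Icc 1 (LT T)).image (ConjD_f T z2))
      have h2 : ((Finset.Icc 1 (LT T)).image (ConjD_f T z1)).card ≤ LT T := by
        refine Finset.card_image_le.trans ?_
        rw [Nat.card_Icc]; omega
      have h3 : ((Finset.Icc 1 (LT T)).image (ConjD_f T z2)).card ≤ LT T := by
        refine Finset.card_image_le.trans ?_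
        rw [Nat.card_Icc]; omega
      omega
    · intro x hx
      obtain ⟨y, hy, hyn, hyc⟩ := ConjD_short hT hn x.norm x le_rfl hx
      rw [← hyc]
      by_cases h1 : y = 1
      · rw [h1, cjT_one]
        exact Finset.mem_insert_self _ _
      · have hpos : 1 ≤ y.norm := by
          rcases Nat.eq_zero_or_pos y.norm with h | h
          · exact absurd (FreeGroup.norm_eq_zero.1 h) h1
          · exact h
        apply Finset.mem_insert_of_mem
        rcases hz y hy h1 with h | h
        · apply Finset.mem_union_left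
          exact Finset.mem_image.2 ⟨y.norm, Finset.mem_Icc.2 ⟨hpos, hyn⟩, ConjD_f_eq hT hn hy h⟩
        · apply Finset.mem_union_right
          exact Finset.mem_image.2 ⟨y.norm, Finset.mem_Icc.2 ⟨hpos, hyn⟩, ConjD_f_eq hT hn hy h⟩

end Pool.Agent.Sims
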