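import Pool.Agent.Sims.In12B

/-!
# Definitions: simultaneous conjugation of a list of elements of `F_3`

* `cjT x T` : all entries conjugated, `g ↦ x⁻¹ g x`;  `LT T` : sum of the lengths
* `rr z g` : the number of letters of `g` cancelled by `z⁻¹` on the left and by `z` on the right (`0, 1, 2`)
* `nn T` : number of nontrivial entries; `RR z T` : sum of `rr z g` over the nontrivial entries
* `Lw T x` : `x ∈ ⟨b, c⟩` and `cjT x T` has the same total length as `T`
* `CMin T` : no conjugation by an element of `⟨b, c⟩` shortens `T`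
-/

namespace Pool.Agent.Sims

open FreeGroup (of)

/-- simultaneous conjugation -/
def cjT (x : FreeGroup (Fin 3)) (T : List (FreeGroup (Fin 3))) : List (FreeGroup (Fin 3)) :=
  T.map (fun g => x⁻¹ * g * x)

/-- total length -/
def LT (T : List (FreeGroup (Fin 3))) : ℕ := (T.map FreeGroup.norm).sum

/-- number of cancelled letters in `z⁻¹ g z` -/
def rr (z : Fin 3 × Bool) (g : FreeGroup (Fin 3)) : ℕ :=
  (if g.toWord.head? = some z then 1 else 0) + (if g.toWord.getLast? = some (bar z) then 1 else 0)

/-- number of nontrivial entries -/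
def nn (T : List (FreeGroup (Fin 3))) : ℕ := (T.map (fun g => if g = 1 then 0 else 1)).sum

/-- sum of `rr z` -/
def RR (z : Fin 3 × Bool) (T : List (FreeGroup (Fin 3))) : ℕ := (T.map (rr z)).sum

/-- the conjugation by `x` is level -/
def Lw (T : List (FreeGroup (Fin 3))) (x : FreeGroup (Fin 3)) : Prop :=
  In12 x ∧ LT (cjT x T) = LT T

/-- minimality -/
def CMin (T : List (FreeGroup (Fin 3))) : Prop := ∀ x, In12 x → LT T ≤ LT (cjT x T)

end Pool.Agent.Sims
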