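import Pool.Agent.Sims.Cyc

/-!
# Module `Rel` : relations between Whitehead automorphisms (all checked by computer in rank 3)

Each is checked on the generators (use `pot_lett`-type formulas: `potFun_of_self`, `potFun_of_ne`;
for a letter `x = (i,b)` treat `b = true` and `false`, generators suffice).
* `act_wh_compl` (E0): `wh z⁻¹ Aᶜ = inn_g ∘ wh z A` with `g = lett z ^ {±1}` (`act_conj`).
* `act_wh_mono` (E1): `A ⊆ B`: `wh z B = wh z (B∖A ∪ {z}) ∘ wh z A` (`potFun_comp`).
* `act_wh_swap` (E2): `a, b ∈ A`, `a⁻¹, b⁻¹ ∉ A`, `a.1 ≠ b.1`: with `C = A∖{a} ∪ {a⁻¹}` and `π` the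
  signed permutation with `a ↦ b`, `b ↦ a⁻¹`, others fixed: `wh b A = π ∘ wh b C ∘ wh a A`.
* `wh_comm` (E3): `A ∩ B = ∅`, `a ∈ A`, `b ∈ B`, `a⁻¹ ∉ A ∪ B`, `b⁻¹ ∉ A ∪ B`, `a.1 ≠ b.1`:
  `wh b B ∘ wh a A = wh a A ∘ wh b B`.
* `wh_comm'` (E3'): `A ∩ B = ∅`, `a ∈ A`, `a⁻¹ ∈ B`, `b ∈ B`, `b⁻¹ ∉ A ∪ B`, `a.1 ≠ b.1`:
  `wh b (B ∪ A∖{a}) ∘ wh a A = wh a A ∘ wh b B`.
* `SPerm` relations: inverse, conjugation.
Difficulty 2 (case bashing over the membership of `x, x⁻¹` in `A`, `B`).
-/

namespace Pool.Agent.Sims

open FreeGroup (of)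

set_option linter.unusedSimpArgs false
set_option linter.unusedVariables false

variable {α : Type*} [DecidableEq α]

theorem Rel_pot_apply (j : α) (p : α × Bool → ℤ) (g : FreeGroup α) :
    pot j p g = potFun j p g := rfl

theorem Rel_aut_apply (σ : SPerm α) (g : FreeGroup α) : σ.aut g = σ.hom g := rfl

theorem Rel_pot_ne {j : α} (p : α × Bool → ℤ) {x : α × Bool} (h : x.1 ≠ j) :
    pot j p (lett x) = (of j) ^ (-(p (bar x))) * lett x * (of j) ^ (p x) := by
  rcases x with ⟨i, b⟩
  simp only at h
  cases b with
  | true =>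
    rw [Rel_pot_apply, lett_true, potFun_of_ne p h]
    rfl
  | false =>
    rw [Rel_pot_apply, lett_false, map_inv, potFun_of_ne p h]
    have : bar ((i, false) : α × Bool) = (i, true) := rfl
    rw [this]
    group

theorem Rel_pot_self (j : α) (p : α × Bool → ℤ) {x : α × Bool} (h : x.1 = j) :
    pot j p (lett x) = lett x := by
  rcases x with ⟨i, b⟩
  simp only at h
  subst h
  cases b with
  | true => rw [Rel_pot_apply, lett_true, potFun_of_self]
  | false => rw [Rel_pot_apply, lett_false, map_inv, potFun_of_self]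

theorem Rel_lett_eq_zpow (z : α × Bool) : (of z.1 : FreeGroup α) ^ (sgn z) = lett z := by
  rcases z with ⟨i, b⟩
  cases b with
  | true => simp [sgn, lett_true]
  | false => simp [sgn, lett_false]

/-- two automorphisms agreeing on one letter for each generator are equal -/
theorem Rel_ext {φ ψ : FreeGroup α ≃* FreeGroup α}
    (h : ∀ i, ∃ s, φ (lett (i, s)) = ψ (lett (i, s))) : φ = ψ := by
  have h2 : ∀ i, φ (of i) = ψ (of i) := by
    intro i
    obtain ⟨s, hs⟩ := h i
    cases s with
    | true => simpa [lett_true] using hs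
    | false =>
      rw [lett_false, map_inv, map_inv] at hs
      exact inv_injective hs
  have h3 : φ.toMonoidHom = ψ.toMonoidHom := by
    ext i
    exact h2 i
  apply MulEquiv.ext
  intro g
  exact DFunLike.congr_fun h3 g

theorem Rel_act_conj (φ ψ : FreeGroup α ≃* FreeGroup α) (g : FreeGroup α)
    (h : ∀ i, ∃ s, φ (lett (i, s)) = g * ψ (lett (i, s)) * g⁻¹) (c : ConjClasses (FreeGroup α)) :
    act φ c = act ψ c := by
  apply act_conj φ ψ g _ c
  intro i
  obtain ⟨s, hs⟩ := h i
  cases s with
  | true => simpa [lett_true] using hs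
  | false =>
    rw [lett_false, map_inv, map_inv] at hs
    have := congrArg (fun t => t⁻¹) hs
    simp only [inv_inv, mul_inv_rev] at this
    rw [this]
    group

theorem wh_lett_self (z : α × Bool) (A : α × Bool → Bool) : wh z A (lett z) = lett z :=
  Rel_pot_self z.1 _ rfl

theorem Rel_wh_self' (z : α × Bool) (A : α × Bool → Bool) {x : α × Bool} (h : x.1 = z.1) :
    wh z A (lett x) = lett x :=
  Rel_pot_self z.1 _ h

theorem Rel_wh_apply_inv (z : α × Bool) (A : α × Bool → Bool) (g : FreeGroup α) :
    wh z A g⁻¹ = (wh z A g)⁻¹ := map_inv _ _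

theorem wh_lett_ne (z : α × Bool) (A : α × Bool → Bool) {x : α × Bool} (h : x.1 ≠ z.1) :
    wh z A (lett x) = (if A (bar x) then (lett z)⁻¹ else 1) * lett x *
      (if A x then lett z else 1) := by
  rw [wh, Rel_pot_ne _ h]
  congr 1
  · congr 1
    by_cases hA : A (bar x) = true
    · simp only [whp, hA, if_true]
      rw [zpow_neg, Rel_lett_eq_zpow]
    · simp [whp, hA]
  · by_cases hA : A x = true
    · simp only [whp, hA, if_true]
      rw [Rel_lett_eq_zpow]
    · simp [whp, hA]

/-- `wh z A` only depends on the values of `A` at the letters `≠ z^{±1}` -/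
theorem wh_congr (z : α × Bool) {A B : α × Bool → Bool} (h : ∀ x, x.1 ≠ z.1 → A x = B x) :
    wh z A = wh z B := by
  apply Rel_ext
  intro i
  refine ⟨true, ?_⟩
  by_cases hi : i = z.1
  · rw [Rel_wh_self' z A (x := (i, true)) hi, Rel_wh_self' z B (x := (i, true)) hi]
  · rw [wh_lett_ne z A (x := (i, true)) hi, wh_lett_ne z B (x := (i, true)) hi,
      h (i, true) hi, h (bar (i, true)) hi]

/-- the inverse of `wh z A`: `act (wh z⁻¹ A') (act (wh z A) c) = c`, `A' = A∖{z} ∪ {z⁻¹}` -/
theorem act_wh_inv (z : α × Bool) (A : α × Bool → Bool) (c : ConjClasses (FreeGroup α)) :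
    act (wh (bar z) (fun x => (A x && decide (x ≠ z)) || decide (x = bar z)))
      (act (wh z A) c) = c := by
  set A' : α × Bool → Bool := fun x => (A x && decide (x ≠ z)) || decide (x = bar z) with hA'
  have h1 : ∀ x : α × Bool, x.1 ≠ z.1 → A' x = A x := by
    intro x hx
    have e1 : x ≠ z := fun h => hx (by rw [h])
    have e2 : x ≠ bar z := fun h => hx (by rw [h]; rfl)
    simp [hA', e1, e2]
  rw [act_act]
  have key : (wh z A).trans (wh (bar z) A') = MulEquiv.refl _ := by
    apply Rel_ext
    intro i
    refine ⟨true, ?_⟩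
    rw [MulEquiv.trans_apply, MulEquiv.refl_apply]
    by_cases hi : i = z.1
    · rw [Rel_wh_self' z A (x := (i, true)) hi, Rel_wh_self' (bar z) A' (x := (i, true)) hi]
    · have hz : wh (bar z) A' (lett z) = lett z := Rel_wh_self' (bar z) A' rfl
      have hb : (bar (i, true) : α × Bool).1 ≠ z.1 := hi
      rw [wh_lett_ne z A (x := (i, true)) hi, map_mul, map_mul,
        wh_lett_ne (bar z) A' (x := (i, true)) hi, h1 (i, true) hi, h1 (bar (i, true)) hb, lett_bar]
      by_cases c1 : A (i, true) = true <;> by_cases c2 : A (bar (i, true)) = true <;>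
        simp only [c1, c2, if_true, if_false, map_inv, map_one, hz] <;> simp [mul_assoc, hz]
  rw [key, act_refl]

theorem act_wh_compl (z : α × Bool) (A : α × Bool → Bool) (c : ConjClasses (FreeGroup α)) :
    act (wh (bar z) (fun x => !A x)) c = act (wh z A) c := by
  apply Rel_act_conj _ _ (lett z)
  intro i
  refine ⟨true, ?_⟩
  by_cases hi : i = z.1
  · rw [Rel_wh_self' z A (x := (i, true)) hi, Rel_wh_self' (bar z) _ (x := (i, true)) hi]
    rcases z with ⟨j, b⟩
    simp only at hi
    subst hi
    cases b with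
    | true => simp [lett_true]
    | false => simp [lett_true, lett_false]
  · rw [wh_lett_ne z A (x := (i, true)) hi, wh_lett_ne (bar z) _ (x := (i, true)) hi, lett_bar]
    by_cases c1 : A (i, true) = true <;> by_cases c2 : A (bar (i, true)) = true <;>
      simp [c1, c2, mul_assoc]

theorem act_wh_mono (z : α × Bool) (A B : α × Bool → Bool) (hAB : ∀ x, A x = true → B x = true)
    (c : ConjClasses (FreeGroup α)) :
    act (wh z B) c = act (wh z (fun x => (B x && !A x) || decide (x = z))) (act (wh z A) c) := by
  rw [act_act]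
  set D : α × Bool → Bool := fun x => (B x && !A x) || decide (x = z) with hD
  have h1 : ∀ x : α × Bool, x.1 ≠ z.1 → D x = (B x && !A x) := by
    intro x hx
    have e1 : x ≠ z := fun h => hx (by rw [h])
    simp [hD, e1]
  have key : wh z B = (wh z A).trans (wh z D) := by
    apply Rel_ext
    intro i
    refine ⟨true, ?_⟩
    rw [MulEquiv.trans_apply]
    by_cases hi : i = z.1
    · rw [Rel_wh_self' z A (x := (i, true)) hi, Rel_wh_self' z B (x := (i, true)) hi,
        Rel_wh_self' z D (x := (i, true)) hi]
    · have hb : (bar (i, true) : α × Bool).1 ≠ z.1 := hi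
      have hz : wh z D (lett z) = lett z := wh_lett_self z D
      rw [wh_lett_ne z A (x := (i, true)) hi, wh_lett_ne z B (x := (i, true)) hi, map_mul, map_mul,
        wh_lett_ne z D (x := (i, true)) hi, h1 (i, true) hi, h1 (bar (i, true)) hb]
      have d1 := hAB (i, true)
      have d2 := hAB (bar (i, true))
      by_cases c1 : A (i, true) = true <;> by_cases c2 : A (bar (i, true)) = true <;>
      by_cases c3 : B (i, true) = true <;> by_cases c4 : B (bar (i, true)) = true <;>
      simp_all [mul_assoc]
  rw [key]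

/-- the signed permutation `a ↦ b ↦ a⁻¹` -/
def Rel_swapPerm (a b : α × Bool) : SPerm α :=
  ⟨Equiv.swap a.1 b.1, fun i => if i = a.1 then decide (a.2 = b.2) else
    if i = b.1 then decide (b.2 = !a.2) else true⟩

theorem Rel_swapPerm_a (a b : α × Bool) : (Rel_swapPerm a b).letter a = b := by
  rcases a with ⟨i, s⟩
  rcases b with ⟨j, t⟩
  simp only [Rel_swapPerm, SPerm.letter, Equiv.swap_apply_left, if_true]
  cases s <;> cases t <;> simp

theorem Rel_swapPerm_b (a b : α × Bool) (hab : a.1 ≠ b.1) :
    (Rel_swapPerm a b).letter b = bar a := by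
  rcases a with ⟨i, s⟩
  rcases b with ⟨j, t⟩
  simp only at hab
  have hab' : j ≠ i := fun h => hab h.symm
  simp only [Rel_swapPerm, SPerm.letter, Equiv.swap_apply_right, bar, if_neg hab', if_true]
  cases s <;> cases t <;> simp

theorem Rel_swapPerm_ne (a b x : α × Bool) (ha : x.1 ≠ a.1) (hb : x.1 ≠ b.1) :
    (Rel_swapPerm a b).letter x = x := by
  rcases x with ⟨k, r⟩
  simp only at ha hb
  simp [Rel_swapPerm, SPerm.letter, ha, hb, Equiv.swap_apply_of_ne_of_ne ha hb]

theorem act_wh_swap (a b : α × Bool) (hab : a.1 ≠ b.1) (A : α × Bool → Bool)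
    (ha : A a = true) (ha' : A (bar a) = false) (hb : A b = true) (hb' : A (bar b) = false) :
    ∃ σ : SPerm α, ∀ c : ConjClasses (FreeGroup α),
      act (wh b A) c = act σ.aut
        (act (wh b (fun x => (A x && decide (x ≠ a)) || decide (x = bar a))) (act (wh a A) c)) := by
  refine ⟨Rel_swapPerm a b, fun c => ?_⟩
  rw [act_act, act_act]
  set C : α × Bool → Bool := fun x => (A x && decide (x ≠ a)) || decide (x = bar a) with hC
  have hCa : C a = false := by
    have : a ≠ bar a := fun h => bar_ne a h.symm
    simp [hC, this]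
  have hCa' : C (bar a) = true := by simp [hC]
  have hCx : ∀ x : α × Bool, x.1 ≠ a.1 → C x = A x := by
    intro x hx
    have e1 : x ≠ a := fun h => hx (by rw [h])
    have e2 : x ≠ bar a := fun h => hx (by rw [h]; rfl)
    simp [hC, e1, e2]
  have hσ : ∀ x : α × Bool, (Rel_swapPerm a b).aut (lett x) = lett ((Rel_swapPerm a b).letter x) :=
    fun x => SPerm.hom_lett _ x
  have key : wh b A = ((wh a A).trans (wh b C)).trans (Rel_swapPerm a b).aut := by
    apply Rel_ext
    intro i
    simp only [MulEquiv.trans_apply]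
    by_cases hia : i = a.1
    · refine ⟨a.2, ?_⟩
      have e : ((i, a.2) : α × Bool) = a := by rw [hia]
      rw [e, wh_lett_self a A, wh_lett_ne b A hab, wh_lett_ne b C hab, ha, ha', hCa, hCa']
      simp only [if_true, if_false, Bool.false_eq_true, one_mul, mul_one, map_mul, map_inv, hσ,
        Rel_swapPerm_a, Rel_swapPerm_b a b hab, lett_bar, inv_inv]
    · by_cases hib : i = b.1
      · refine ⟨b.2, ?_⟩
        have e : ((i, b.2) : α × Bool) = b := by rw [hib]
        have hba : b.1 ≠ a.1 := fun h => hab h.symm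
        rw [e, wh_lett_self b A, wh_lett_ne a A hba, hb, hb']
        simp only [if_true, if_false, Bool.false_eq_true, one_mul, map_mul,
          wh_lett_self b C]
        rw [wh_lett_ne b C hab, hCa, hCa']
        simp only [if_true, if_false, Bool.false_eq_true, mul_one, map_mul, map_inv, hσ,
          Rel_swapPerm_a, Rel_swapPerm_b a b hab, lett_bar, inv_inv]
        group
      · refine ⟨true, ?_⟩
        have f1 : ((i, true) : α × Bool).1 ≠ a.1 := hia
        have f2 : ((i, true) : α × Bool).1 ≠ b.1 := hib
        have f3 : (bar (i, true) : α × Bool).1 ≠ a.1 := hia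
        have f4 : (bar (i, true) : α × Bool).1 ≠ b.1 := hib
        have hwa : wh b C (lett a) = (lett b)⁻¹ * lett a := by
          rw [wh_lett_ne b C hab, hCa, hCa']
          simp
        rw [wh_lett_ne a A f1, wh_lett_ne b A f2]
        by_cases c1 : A (i, true) = true <;> by_cases c2 : A (bar (i, true)) = true
        all_goals
          simp only [c1, c2, if_true, if_false, Bool.false_eq_true, map_mul, map_inv, map_one, hwa,
            wh_lett_ne b C f2, hCx _ f1, hCx _ f3, hσ, Rel_swapPerm_a, Rel_swapPerm_b a b hab,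
            Rel_swapPerm_ne a b _ f1 f2, lett_bar, inv_inv, one_mul, mul_one]
        all_goals try simp only [mul_assoc, inv_mul_cancel_left, mul_inv_cancel_left, mul_inv_rev,
            inv_inv, mul_inv_cancel, inv_mul_cancel, mul_one]
  rw [key]
  rfl

theorem act_wh_comm (a b : α × Bool) (hab : a.1 ≠ b.1) (A B : α × Bool → Bool)
    (ha : A a = true) (ha' : A (bar a) = false) (hb : B b = true) (hb' : B (bar b) = false)
    (hAB : ∀ x, A x = true → B x = false) (h1 : B (bar a) = false) (h2 : A (bar b) = false)
    (c : ConjClasses (FreeGroup α)) :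
    act (wh b B) (act (wh a A) c) = act (wh a A) (act (wh b B) c) := by
  rw [act_act, act_act]
  have hBa : B a = false := hAB a ha
  have hAb : A b = false := by
    by_contra h
    have h' : A b = true := by simpa using h
    rw [hAB b h'] at hb
    exact absurd hb (by simp)
  have hba : b.1 ≠ a.1 := fun h => hab h.symm
  have e1 : wh b B (lett a) = lett a := by
    rw [wh_lett_ne b B hab, hBa, h1]; simp
  have e2 : wh a A (lett b) = lett b := by
    rw [wh_lett_ne a A hba, hAb, h2]; simp
  have key : (wh a A).trans (wh b B) = (wh b B).trans (wh a A) := by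
    apply Rel_ext
    intro i
    simp only [MulEquiv.trans_apply]
    by_cases hia : i = a.1
    · refine ⟨a.2, ?_⟩
      have e : ((i, a.2) : α × Bool) = a := by rw [hia]
      rw [e, wh_lett_self a A, e1, wh_lett_self a A]
    · by_cases hib : i = b.1
      · refine ⟨b.2, ?_⟩
        have e : ((i, b.2) : α × Bool) = b := by rw [hib]
        rw [e, wh_lett_self b B, e2, wh_lett_self b B]
      · refine ⟨true, ?_⟩
        have f1 : ((i, true) : α × Bool).1 ≠ a.1 := hia
        have f2 : ((i, true) : α × Bool).1 ≠ b.1 := hib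
        have g1 := hAB (i, true)
        have g2 := hAB (bar (i, true))
        rw [wh_lett_ne a A f1, wh_lett_ne b B f2]
        by_cases c1 : A (i, true) = true <;> by_cases c2 : A (bar (i, true)) = true <;>
        by_cases c3 : B (i, true) = true <;> by_cases c4 : B (bar (i, true)) = true
        all_goals first
          | (exfalso; simp_all; done)
          | simp only [c1, c2, c3, c4, if_true, if_false, Bool.false_eq_true, map_mul, map_inv,
              map_one, e1, e2, wh_lett_ne b B f2, wh_lett_ne a A f1, one_mul, mul_one, mul_assoc]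
  rw [key]

theorem act_wh_comm' (a b : α × Bool) (hab : a.1 ≠ b.1) (A B : α × Bool → Bool)
    (ha : A a = true) (ha' : A (bar a) = false) (hb : B b = true) (hb' : B (bar b) = false)
    (hAB : ∀ x, A x = true → B x = false) (h1 : B (bar a) = true) (h2 : A (bar b) = false)
    (c : ConjClasses (FreeGroup α)) :
    act (wh b (fun x => B x || (A x && decide (x ≠ a)))) (act (wh a A) c) =
      act (wh a A) (act (wh b B) c) := by
  rw [act_act, act_act]
  set D : α × Bool → Bool := fun x => B x || (A x && decide (x ≠ a)) with hD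
  have hBa : B a = false := hAB a ha
  have hAb : A b = false := by
    by_contra h
    have h' : A b = true := by simpa using h
    rw [hAB b h'] at hb
    exact absurd hb (by simp)
  have hba : b.1 ≠ a.1 := fun h => hab h.symm
  have hDx : ∀ x : α × Bool, x.1 ≠ a.1 → D x = (B x || A x) := by
    intro x hx
    have e1 : x ≠ a := fun h => hx (by rw [h])
    simp [hD, e1]
  have hDa : D a = false := by simp [hD, hBa]
  have hDa' : D (bar a) = true := by simp [hD, h1]
  have e1 : wh b D (lett a) = (lett b)⁻¹ * lett a := by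
    rw [wh_lett_ne b D hab, hDa, hDa']; simp
  have e1' : wh b B (lett a) = (lett b)⁻¹ * lett a := by
    rw [wh_lett_ne b B hab, hBa, h1]; simp
  have e2 : wh a A (lett b) = lett b := by
    rw [wh_lett_ne a A hba, hAb, h2]; simp
  have e3 : wh a A (lett a) = lett a := wh_lett_self a A
  have key : (wh a A).trans (wh b D) = (wh b B).trans (wh a A) := by
    apply Rel_ext
    intro i
    simp only [MulEquiv.trans_apply]
    by_cases hia : i = a.1
    · refine ⟨a.2, ?_⟩
      have e : ((i, a.2) : α × Bool) = a := by rw [hia]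
      rw [e, wh_lett_self a A, e1, e1', map_mul, map_inv, e2, e3]
    · by_cases hib : i = b.1
      · refine ⟨b.2, ?_⟩
        have e : ((i, b.2) : α × Bool) = b := by rw [hib]
        rw [e, wh_lett_self b B, e2, wh_lett_self b D]
      · refine ⟨true, ?_⟩
        have f1 : ((i, true) : α × Bool).1 ≠ a.1 := hia
        have f2 : ((i, true) : α × Bool).1 ≠ b.1 := hib
        have f3 : (bar (i, true) : α × Bool).1 ≠ a.1 := hia
        have g1 := hAB (i, true)
        have g2 := hAB (bar (i, true))
        rw [wh_lett_ne a A f1, wh_lett_ne b B f2]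
        by_cases c1 : A (i, true) = true <;> by_cases c2 : A (bar (i, true)) = true <;>
        by_cases c3 : B (i, true) = true <;> by_cases c4 : B (bar (i, true)) = true
        all_goals first
          | (exfalso; simp_all; done)
          | simp only [c1, c2, c3, c4, if_true, if_false, Bool.false_eq_true, map_mul, map_inv,
              map_one, e1, e2, e3, wh_lett_ne b D f2, wh_lett_ne a A f1, hDx _ f1, hDx _ f3,
              one_mul, mul_one, mul_assoc, mul_inv_cancel_left, mul_inv_rev, inv_inv, Bool.or_true,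
              Bool.true_or, Bool.or_false, Bool.false_or, Bool.or_self, inv_mul_cancel_left]
  rw [key]

theorem act_SPerm_inv (σ : SPerm α) (c : ConjClasses (FreeGroup α)) :
    act σ.inv.aut (act σ.aut c) = c := by
  rw [act_act]
  have key : σ.aut.trans σ.inv.aut = MulEquiv.refl _ := by
    apply MulEquiv.ext
    intro g
    exact σ.hom_inv_hom g
  rw [key, act_refl]

theorem act_SPerm_inv' (σ : SPerm α) (c : ConjClasses (FreeGroup α)) :
    act σ.aut (act σ.inv.aut c) = c := by
  rw [act_act]
  have key : σ.inv.aut.trans σ.aut = MulEquiv.refl _ := by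
    apply MulEquiv.ext
    intro g
    exact σ.hom_hom_inv g
  rw [key, act_refl]

theorem Rel_hom_mk (σ : SPerm α) (w : List (α × Bool)) :
    σ.hom (FreeGroup.mk w) = FreeGroup.mk (w.map σ.letter) := by
  induction w with
  | nil =>
    change σ.hom 1 = 1
    exact map_one _
  | cons x l ih =>
    have e1 : (FreeGroup.mk (x :: l) : FreeGroup α) = lett x * FreeGroup.mk l := by
      rw [lett, FreeGroup.mul_mk]; rfl
    have e2 : (FreeGroup.mk ((x :: l).map σ.letter) : FreeGroup α) =
        lett (σ.letter x) * FreeGroup.mk (l.map σ.letter) := by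
      rw [lett, FreeGroup.mul_mk]; rfl
    rw [e1, e2, map_mul, ih, SPerm.hom_lett]

theorem Rel_act_cls (σ : SPerm α) (w : List (α × Bool)) :
    act σ.aut (cls w) = cls (w.map σ.letter) := by
  rw [cls, cls, act_mk, Rel_aut_apply, Rel_hom_mk]

theorem Rel_letter_fst_snd (σ : SPerm α) {x y : α × Bool} (h : x.1 = y.1 → x.2 = y.2) :
    (σ.letter x).1 = (σ.letter y).1 → (σ.letter x).2 = (σ.letter y).2 := by
  intro h1
  have h2 : x.1 = y.1 := σ.perm.injective h1
  have h3 := h h2
  have h4 : x = y := Prod.ext h2 h3
  rw [h4]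

theorem Rel_CR_map (σ : SPerm α) {w : List (α × Bool)} (hw : CR w) : CR (w.map σ.letter) := by
  refine ⟨?_, ?_⟩
  · have h1 := hw.1
    unfold FreeGroup.IsReduced at h1 ⊢
    rw [List.isChain_map]
    exact h1.imp (fun x y h => Rel_letter_fst_snd σ h)
  · intro a ha b hb
    rw [List.getLast?_map] at ha
    rw [List.head?_map] at hb
    simp only [Option.mem_def, Option.map_eq_some_iff] at ha hb
    obtain ⟨a', ha', rfl⟩ := ha
    obtain ⟨b', hb', rfl⟩ := hb
    exact Rel_letter_fst_snd σ (hw.2 a' ha' b' hb')

theorem Rel_lin_append {β : Type*} (f : β → β → ℕ) (x : β) (l : List β) (y : β) (m : List β)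
    (z : β) : lin f x (l ++ y :: m) z = lin f x l y + lin f y m z := by
  induction l generalizing x with
  | nil => rfl
  | cons a l ih =>
    change f x a + lin f a (l ++ y :: m) z = f x a + lin f a l y + lin f y m z
    rw [ih]; omega

theorem Rel_cyc_append {β : Type*} (f : β → β → ℕ) (u v : List β) :
    cyc f (u ++ v) = cyc f (v ++ u) := by
  cases u with
  | nil => simp
  | cons a u =>
    cases v with
    | nil => simp
    | cons b v =>
      change lin f a (u ++ b :: v) a = lin f b (v ++ a :: u) b
      rw [Rel_lin_append, Rel_lin_append]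
      omega

theorem Rel_cyc_rotated {β : Type*} (f : β → β → ℕ) {u v : List β} (h : u ~r v) :
    cyc f u = cyc f v := by
  obtain ⟨n, rfl⟩ := h
  rw [List.rotate_eq_drop_append_take_mod, Rel_cyc_append, List.take_append_drop]

theorem Rel_lin_map {β γ : Type*} (f : γ → γ → ℕ) (g : β → γ) (x : β) (l : List β) (z : β) :
    lin f (g x) (l.map g) (g z) = lin (fun x y => f (g x) (g y)) x l z := by
  induction l generalizing x with
  | nil => rfl
  | cons a l ih =>
    change f (g x) (g a) + lin f (g a) (l.map g) (g z) = _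
    rw [ih]; rfl

theorem Rel_cyc_map {β γ : Type*} (f : γ → γ → ℕ) (g : β → γ) (l : List β) :
    cyc f (l.map g) = cyc (fun x y => f (g x) (g y)) l := by
  cases l with
  | nil => rfl
  | cons a l => exact Rel_lin_map f g a l a

/-- signed permutations preserve the length -/
theorem cycLen_SPerm (σ : SPerm α) (c : ConjClasses (FreeGroup α)) :
    cycLen (act σ.aut c) = cycLen c := by
  obtain ⟨w, hw, rfl⟩ := exists_CR c
  rw [Rel_act_cls, cycLen_cls (Rel_CR_map σ hw), cycLen_cls hw, List.length_map]

theorem cnt_SPerm (σ : SPerm α) (c : ConjClasses (FreeGroup α)) (i : α) :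
    cnt (act σ.aut c) (σ.perm i) = cnt c i := by
  obtain ⟨w, hw, rfl⟩ := exists_CR c
  rw [Rel_act_cls, cnt, cnt, cntL, cntL]
  rw [(rep_rotated (Rel_CR_map σ hw)).perm.countP_eq, (rep_rotated hw).perm.countP_eq,
    List.countP_map]
  congr 1
  funext x
  simp [SPerm.letter]

theorem capC_SPerm (σ : SPerm α) (c : ConjClasses (FreeGroup α)) (A : α × Bool → Bool) :
    capC (act σ.aut c) A = capC c (fun x => A (σ.letter x)) := by
  obtain ⟨w, hw, rfl⟩ := exists_CR c
  rw [Rel_act_cls, capC, capC, cap, cap]
  rw [Rel_cyc_rotated _ (rep_rotated (Rel_CR_map σ hw)), Rel_cyc_rotated _ (rep_rotated hw),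
    Rel_cyc_map]
  simp only [SPerm.letter_bar]

/-- conjugation of a Whitehead automorphism by a signed permutation -/
theorem act_wh_SPerm (σ : SPerm α) (z : α × Bool) (A : α × Bool → Bool)
    (c : ConjClasses (FreeGroup α)) :
    act (wh (σ.letter z) A) (act σ.aut c) = act σ.aut (act (wh z (fun x => A (σ.letter x))) c) := by
  rw [act_act, act_act]
  have key : σ.aut.trans (wh (σ.letter z) A) =
      (wh z (fun x => A (σ.letter x))).trans σ.aut := by
    apply Rel_ext
    intro i
    refine ⟨true, ?_⟩
    simp only [MulEquiv.trans_apply]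
    have hσ : ∀ x : α × Bool, σ.aut (lett x) = lett (σ.letter x) := fun x => SPerm.hom_lett _ x
    by_cases hi : i = z.1
    · rw [Rel_wh_self' z _ (x := (i, true)) hi, hσ]
      apply Rel_wh_self'
      change σ.perm i = σ.perm z.1
      rw [hi]
    · have h2 : (σ.letter (i, true)).1 ≠ (σ.letter z).1 := by
        change σ.perm i ≠ σ.perm z.1
        exact fun h => hi (σ.perm.injective h)
      rw [hσ, wh_lett_ne z _ (x := (i, true)) hi, wh_lett_ne _ A h2, ← SPerm.letter_bar]
      by_cases c1 : A (σ.letter (i, true)) = true <;>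
      by_cases c2 : A (σ.letter (bar (i, true))) = true <;>
      simp only [c1, c2, if_true, if_false, Bool.false_eq_true, map_mul, map_inv, map_one, hσ]
  rw [key]

end Pool.Agent.Sims
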