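import Pool.Agent.Sims.NielsenB
import Pool.Agent.Sims.Rel

/-!
# Module `NielsenC` : Aut(F_n) is generated by signed permutations and Whitehead automorphisms

Let `φ` be an automorphism of `F = FreeGroup (Fin n)`, `U i = φ (x_i)`.  For a Nielsen move `U → V` there is
an elementary automorphism `ε` (sign change, or `x_i ↦ x_i x_j^{±1}`, `x_j^{±1} x_i`) with
`V i = φ (ε (x_i))`.  So every `V` with `NEq U V` is `V i = (φ ∘ ε)(x_i)` with `ε` in the subgroup `G`
generated by the elementary automorphisms; in particular `V i ≠ 1`.  By `exists_NRed` choose such a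
`V`, Nielsen reduced, `ψ = φ ∘ ε`.  Each `x_j` is a product `x_j = ∏ sym V (l_k)` (write
`ψ⁻¹(x_j)` as a reduced word `l`; consecutive letters of `l` are not inverse, so the product
of the values `≠ 1` by injectivity of `ψ`), and `norm_prod_ge` gives `l.length ≤ |x_j| = 1`; so `x_j = V_i^{±1}`
for some `i`.  Hence `ψ⁻¹` maps every generator to a letter; being injective it is a signed
permutation (`i ↦` index is injective on the finite type `Fin n`).  So `φ = ψ ε⁻¹` lies in the subgroup
generated.  Finally each elementary automorphism is a signed permutation or `wh z A`: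
`x_i ↦ x_i z` is `wh z {z, x_i}`, `x_i ↦ z⁻¹ x_i` is `wh z {z, x_i⁻¹}`.
Difficulty 3.
-/

namespace Pool.Agent.Sims

variable {n : ℕ}

/-- the generating set -/
def WhSet (n : ℕ) : Set (FreeGroup (Fin n) ≃* FreeGroup (Fin n)) :=
  {φ | (∃ σ : SPerm (Fin n), φ = σ.aut) ∨
    ∃ (z : Fin n × Bool) (A : Fin n × Bool → Bool), A z = true ∧ A (bar z) = false ∧ φ = wh z A}

/-- words in the generating set -/
def NielsenC_G (n : ℕ) (φ : FreeGroup (Fin n) ≃* FreeGroup (Fin n)) : Prop :=
  ∃ l : List (FreeGroup (Fin n) ≃* FreeGroup (Fin n)), (∀ ψ ∈ l, ψ ∈ WhSet n) ∧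
      φ = l.foldr (fun ψ θ => θ.trans ψ) (MulEquiv.refl _)

theorem NielsenC_foldr (l m : List (FreeGroup (Fin n) ≃* FreeGroup (Fin n))) :
    (l ++ m).foldr (fun ψ θ => θ.trans ψ) (MulEquiv.refl _) =
      (m.foldr (fun ψ θ => θ.trans ψ) (MulEquiv.refl _)).trans
        (l.foldr (fun ψ θ => θ.trans ψ) (MulEquiv.refl _)) := by
  induction l with
  | nil => ext x; simp
  | cons a l ih =>
    rw [List.cons_append, List.foldr_cons, ih, List.foldr_cons]
    ext x; simp

theorem NielsenC_G_trans {φ ψ : FreeGroup (Fin n) ≃* FreeGroup (Fin n)} (h1 : NielsenC_G n φ)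
    (h2 : NielsenC_G n ψ) : NielsenC_G n (φ.trans ψ) := by
  obtain ⟨l, hl, rfl⟩ := h1
  obtain ⟨m, hm, rfl⟩ := h2
  refine ⟨m ++ l, ?_, ?_⟩
  · intro θ hθ
    rcases List.mem_append.1 hθ with h | h
    · exact hm _ h
    · exact hl _ h
  · rw [NielsenC_foldr]

theorem NielsenC_G_one : NielsenC_G n (MulEquiv.refl _) := ⟨[], by simp, rfl⟩

theorem NielsenC_G_mem {φ : FreeGroup (Fin n) ≃* FreeGroup (Fin n)} (h : φ ∈ WhSet n) :
    NielsenC_G n φ := by
  refine ⟨[φ], ?_, ?_⟩
  · intro ψ hψ
    rw [List.mem_singleton] at hψ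
    rw [hψ]; exact h
  · ext x; simp

/-- the value of the inverse of a `pot` on a generator -/
theorem NielsenC_pot_symm (j : Fin n) (p : Fin n × Bool → ℤ) (g : FreeGroup (Fin n)) :
    (pot j p).symm g = potFun j (-p) g := rfl

/-- `x_i ↦ x_i x_j^{±1}` -/
theorem NielsenC_elR (i j : Fin n) (h : i ≠ j) (b : Bool) :
    ∃ e : FreeGroup (Fin n) ≃* FreeGroup (Fin n), e.symm ∈ WhSet n ∧
      e (FreeGroup.of i) = FreeGroup.of i * lett (j, b) ∧
      ∀ k, k ≠ i → e (FreeGroup.of k) = FreeGroup.of k := by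
  refine ⟨(wh (j, !b) (fun x => decide (x = (j, !b)) || decide (x = (i, true)))).symm, ?_, ?_, ?_⟩
  · right
    refine ⟨(j, !b), (fun x => decide (x = (j, !b)) || decide (x = (i, true))), ?_, ?_, ?_⟩
    · simp
    · have h' : j ≠ i := fun h0 => h h0.symm
      simp [bar, h']
    · rfl
  · rw [wh, NielsenC_pot_symm, potFun_of_ne _ h]
    cases b with
    | true =>
      simp [whp, sgn, h, lett_true]
    | false =>
      simp [whp, sgn, h, lett_false]
  · intro k hk
    rw [wh, NielsenC_pot_symm]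
    by_cases hkj : k = j
    · subst hkj; exact potFun_of_self _ _
    · rw [potFun_of_ne _ hkj]
      simp [whp, hk, hkj]

/-- `x_i ↦ x_j^{±1} x_i` -/
theorem NielsenC_elL (i j : Fin n) (h : i ≠ j) (b : Bool) :
    ∃ e : FreeGroup (Fin n) ≃* FreeGroup (Fin n), e.symm ∈ WhSet n ∧
      e (FreeGroup.of i) = lett (j, b) * FreeGroup.of i ∧
      ∀ k, k ≠ i → e (FreeGroup.of k) = FreeGroup.of k := by
  refine ⟨(wh (j, b) (fun x => decide (x = (j, b)) || decide (x = (i, false)))).symm, ?_, ?_, ?_⟩
  · right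
    refine ⟨(j, b), (fun x => decide (x = (j, b)) || decide (x = (i, false))), ?_, ?_, ?_⟩
    · simp
    · have h' : j ≠ i := fun h0 => h h0.symm
      simp [bar, h']
    · rfl
  · rw [wh, NielsenC_pot_symm, potFun_of_ne _ h]
    cases b with
    | true =>
      simp [whp, sgn, h, lett_true]
    | false =>
      simp [whp, sgn, h, lett_false]
  · intro k hk
    rw [wh, NielsenC_pot_symm]
    by_cases hkj : k = j
    · subst hkj; exact potFun_of_self _ _
    · rw [potFun_of_ne _ hkj]
      simp [whp, hk, hkj]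

/-- `x_i ↦ x_i⁻¹` -/
theorem NielsenC_elI (i : Fin n) :
    ∃ e : FreeGroup (Fin n) ≃* FreeGroup (Fin n), e.symm ∈ WhSet n ∧
      e (FreeGroup.of i) = (FreeGroup.of i)⁻¹ ∧
      ∀ k, k ≠ i → e (FreeGroup.of k) = FreeGroup.of k := by
  have key : ∀ (σ : SPerm (Fin n)) (x : Fin n × Bool), σ.aut.symm (lett x) = lett (σ.inv.letter x) :=
    fun σ x => SPerm.hom_lett σ.inv x
  refine ⟨(SPerm.aut ⟨Equiv.refl _, fun k => decide (k ≠ i)⟩).symm, ?_, ?_, ?_⟩
  · left
    exact ⟨_, rfl⟩
  · rw [← lett_true, key, ← lett_bar]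
    simp [SPerm.letter, SPerm.inv, bar]
  · intro k hk
    rw [← lett_true, key]
    simp [SPerm.letter, SPerm.inv, hk]

theorem NielsenC_step {φ : FreeGroup (Fin n) ≃* FreeGroup (Fin n)}
    {U V : Fin n → FreeGroup (Fin n)} (hU : ∀ i, U i = φ (FreeGroup.of i)) (h : NMove U V) :
    ∃ e : FreeGroup (Fin n) ≃* FreeGroup (Fin n), e.symm ∈ WhSet n ∧
      ∀ i, V i = φ (e (FreeGroup.of i)) := by
  have fin : ∀ (i : Fin n) (v : FreeGroup (Fin n)) (e : FreeGroup (Fin n) ≃* FreeGroup (Fin n)),
      e.symm ∈ WhSet n → v = φ (e (FreeGroup.of i)) →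
      (∀ k, k ≠ i → e (FreeGroup.of k) = FreeGroup.of k) →
      ∃ e : FreeGroup (Fin n) ≃* FreeGroup (Fin n), e.symm ∈ WhSet n ∧
        ∀ k, Function.update U i v k = φ (e (FreeGroup.of k)) := by
    intro i v e he hv hk
    refine ⟨e, he, ?_⟩
    intro k
    by_cases h : k = i
    · subst h; rw [Function.update_self]; exact hv
    · rw [Function.update_of_ne h, hU, hk k h]
  cases h with
  | inv i =>
    obtain ⟨e, he, h1, h2⟩ := NielsenC_elI i
    exact fin i _ e he (by rw [h1, map_inv, hU]) h2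
  | mulR i j hij =>
    obtain ⟨e, he, h1, h2⟩ := NielsenC_elR i j hij true
    exact fin i _ e he (by rw [h1, map_mul, lett_true, hU, hU]) h2
  | mulRi i j hij =>
    obtain ⟨e, he, h1, h2⟩ := NielsenC_elR i j hij false
    exact fin i _ e he (by rw [h1, map_mul, lett_false, map_inv, hU, hU]) h2
  | mulL i j hij =>
    obtain ⟨e, he, h1, h2⟩ := NielsenC_elL i j hij true
    exact fin i _ e he (by rw [h1, map_mul, lett_true, hU, hU]) h2
  | mulLi i j hij =>
    obtain ⟨e, he, h1, h2⟩ := NielsenC_elL i j hij false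
    exact fin i _ e he (by rw [h1, map_mul, lett_false, map_inv, hU, hU]) h2

theorem NielsenC_NEq {φ : FreeGroup (Fin n) ≃* FreeGroup (Fin n)}
    {U V : Fin n → FreeGroup (Fin n)} (hU : ∀ i, U i = φ (FreeGroup.of i)) (h : NEq U V) :
    ∃ e : FreeGroup (Fin n) ≃* FreeGroup (Fin n), NielsenC_G n e.symm ∧
      ∀ i, V i = φ (e (FreeGroup.of i)) := by
  unfold NEq at h
  induction h with
  | refl => exact ⟨MulEquiv.refl _, NielsenC_G_one, hU⟩
  | tail _ hs ih =>
    obtain ⟨e, he, h1⟩ := ih
    obtain ⟨e', he', h2⟩ := NielsenC_step (φ := e.trans φ) h1 hs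
    refine ⟨e'.trans e, ?_, ?_⟩
    · have : (e'.trans e).symm = e.symm.trans e'.symm := rfl
      rw [this]
      exact NielsenC_G_trans he (NielsenC_G_mem he')
    · intro i; exact h2 i

theorem NielsenC_lett_inj {x y : Fin n × Bool} (h : (lett x : FreeGroup (Fin n)) = lett y) :
    x = y := by
  have h1 := congrArg FreeGroup.toWord h
  simpa [lett, FreeGroup.toWord_mk, FreeGroup.reduce_singleton] using h1

theorem NielsenC_sym {ψ : FreeGroup (Fin n) ≃* FreeGroup (Fin n)}
    {V : Fin n → FreeGroup (Fin n)} (hV : ∀ i, V i = ψ (FreeGroup.of i)) (x : Fin n × Bool) :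
    sym V x = ψ (lett x) := by
  rcases x with ⟨i, b⟩
  cases b with
  | true => simp [sym, hV, lett_true]
  | false => simp [sym, hV, lett_false]

theorem NielsenC_prod {ψ : FreeGroup (Fin n) ≃* FreeGroup (Fin n)}
    {V : Fin n → FreeGroup (Fin n)} (hV : ∀ i, V i = ψ (FreeGroup.of i))
    (l : List (Fin n × Bool)) :
    (l.map (sym V)).prod = ψ (FreeGroup.mk l) := by
  induction l with
  | nil => 
    have : (FreeGroup.mk ([] : List (Fin n × Bool))) = 1 := rfl
    simp [this]
  | cons a l ih =>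
    rw [List.map_cons, List.prod_cons, ih, NielsenC_sym hV, ← map_mul, lett, FreeGroup.mul_mk]
    rfl

/-- words in the generating set (as iterated compositions) -/
theorem aut_generated (φ : FreeGroup (Fin n) ≃* FreeGroup (Fin n)) :
    ∃ l : List (FreeGroup (Fin n) ≃* FreeGroup (Fin n)), (∀ ψ ∈ l, ψ ∈ WhSet n) ∧
      φ = l.foldr (fun ψ θ => θ.trans ψ) (MulEquiv.refl _) := by
  change NielsenC_G n φ
  obtain ⟨V, hV, hred⟩ := exists_NRed (fun i => φ (FreeGroup.of i)) (by
    intro V hV i
    obtain ⟨e, _, h2⟩ := NielsenC_NEq (φ := φ) (fun i => rfl) hV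
    rw [h2 i]
    intro h0
    have h1 : e (FreeGroup.of i) = 1 := by
      apply φ.injective; rw [h0, map_one]
    have h2 : (FreeGroup.of i : FreeGroup (Fin n)) = 1 := by
      apply e.injective; rw [h1, map_one]
    exact FreeGroup.of_ne_one i h2)
  obtain ⟨e, he, h2⟩ := NielsenC_NEq (φ := φ) (fun i => rfl) hV
  set ψ : FreeGroup (Fin n) ≃* FreeGroup (Fin n) := e.trans φ with hψ
  have hVψ : ∀ i, V i = ψ (FreeGroup.of i) := h2
  -- preimages of generators are letters
  have key : ∀ j : Fin n, ∃ x : Fin n × Bool, ψ.symm (FreeGroup.of j) = lett x := by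
    intro j
    set g := ψ.symm (FreeGroup.of j) with hg
    have hgj : ψ g = FreeGroup.of j := by rw [hg]; simp
    have hchain : g.toWord.IsChain (fun x y => sym V x * sym V y ≠ 1) := by
      have h3 : FreeGroup.IsReduced g.toWord := FreeGroup.isReduced_toWord
      refine List.IsChain.imp ?_ h3
      intro x y hxy h0
      rw [NielsenC_sym hVψ, NielsenC_sym hVψ, ← map_mul] at h0
      have h4 : lett x * lett y = 1 := by
        apply ψ.injective; rw [h0, map_one]
      have h5 : lett x = lett (bar y) := by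
        rw [lett_bar]; exact eq_inv_of_mul_eq_one_left h4
      have h6 := NielsenC_lett_inj h5
      have h7 : x.1 = y.1 := by rw [h6]; rfl
      have h8 := hxy h7
      rw [h6] at h8
      simp [bar] at h8
    have h9 := norm_prod_ge V hred g.toWord hchain
    rw [NielsenC_prod hVψ, FreeGroup.mk_toWord, hgj, FreeGroup.norm_of] at h9
    match hw : g.toWord with
    | [] =>
      exfalso
      have h10 : g = 1 := by
        rw [← FreeGroup.toWord_eq_nil_iff]; exact hw
      rw [h10, map_one] at hgj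
      exact FreeGroup.of_ne_one j hgj.symm
    | [x] =>
      refine ⟨x, ?_⟩
      rw [← FreeGroup.mk_toWord (x := g), hw]; rfl
    | x :: y :: l =>
      exfalso
      rw [hw] at h9
      simp at h9
  choose x hx using key
  have hinj : Function.Injective (fun j => (x j).1) := by
    intro j k hjk
    by_contra hne
    simp only at hjk
    have : x j = x k ∨ x j = bar (x k) := by
      by_cases hb : (x j).2 = (x k).2
      · left; exact Prod.ext hjk hb
      · right
        refine Prod.ext hjk ?_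
        rw [bar_snd]
        cases h1 : (x j).2 <;> cases h2 : (x k).2 <;> simp_all
    rcases this with h | h
    · have h1 : ψ.symm (FreeGroup.of j) = ψ.symm (FreeGroup.of k) := by rw [hx, hx, h]
      exact hne (FreeGroup.of_injective (ψ.symm.injective h1))
    · have h1 : ψ.symm (FreeGroup.of j) = ψ.symm (FreeGroup.of k)⁻¹ := by
        rw [map_inv, hx, hx, h, lett_bar]
      have h2 := ψ.symm.injective h1
      have h3 : (lett (j, true) : FreeGroup (Fin n)) = lett (k, false) := by
        rw [lett_true, lett_false]; exact h2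
      have h4 := NielsenC_lett_inj h3
      simp at h4
  have hbij : Function.Bijective (fun j => (x j).1) := hinj.bijective_of_finite
  set σ : SPerm (Fin n) := ⟨Equiv.ofBijective _ hbij, fun j => (x j).2⟩ with hσ
  have hσψ : ∀ j, ψ.symm (FreeGroup.of j) = σ.aut (FreeGroup.of j) := by
    intro j
    have h1 : σ.aut (lett (j, true)) = lett (σ.letter (j, true)) := SPerm.hom_lett σ (j, true)
    rw [← lett_true, h1, lett_true, hx]
    congr 1
    refine Prod.ext ?_ ?_
    · rfl
    · simp [SPerm.letter, hσ]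
  have hψσ : ψ = σ.inv.aut := by
    have h1 : ∀ g, ψ.symm g = σ.aut g := by
      intro g
      have : (ψ.symm.toMonoidHom) = σ.aut.toMonoidHom := by
        apply FreeGroup.ext_hom
        intro j
        exact hσψ j
      exact DFunLike.congr_fun this g
    ext g
    have h2 := h1 (ψ g)
    rw [MulEquiv.symm_apply_apply] at h2
    have h3 : σ.inv.hom (σ.hom (ψ g)) = ψ g := σ.hom_inv_hom (ψ g)
    rw [← h3]
    change σ.inv.hom (σ.aut (ψ g)) = σ.inv.hom g
    rw [← h2]
  have hφ : φ = e.symm.trans ψ := by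
    ext g
    simp [hψ]
  rw [hφ, hψσ]
  exact NielsenC_G_trans he (NielsenC_G_mem (Or.inl ⟨_, rfl⟩))

end Pool.Agent.Sims
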