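import Pool.Agent.Sims.PeakX
import Pool.Agent.Sims.NielsenC

/-!
# Module `Conn` : Whitehead's theorem

`chain_of_orbit`: by `aut_generated` any two classes in the same orbit are joined by a chain of
steps.
`reduce_chain`: let `c, d` be joined by a chain and `M = max (cycLen c) (cycLen d)`.  Then they are joined by
a chain all of whose members have length `≤ M`.  Proof: let `N` be the maximum of the lengths in the
chain, `N > M`, `r` the number of members of length `N`; induct on `(N, r)` lexicographically.  Take the last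
member `e` of length `N` (it is neither the first nor the last member), `e⁻` its predecessor
(length `≤ N`), `e⁺` its successor (length `< N`); `peak` replaces `e` by members of length `< N`.
`Whitehead-minimal ⇒ orbit-minimal` (`OMin_of_wh`): suppose `cycLen d < cycLen c` for a `d` in the orbit.  Take
a chain from `c` to `d` with all lengths `≤ cycLen c =: N` and minimal number `r` of members of length `N`
(`r ≥ 1`, the first member is `c`).  The last member `e` of length `N` is followed by a shorter one.  If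
`e = c` (first member) this contradicts Whitehead-minimality.  Otherwise `peak` removes it.
`conn`: if `c` is orbit-minimal and `d ∈ orb c` then `reduce_chain` gives a chain with all lengths `≤ cycLen c`,
hence `= cycLen c`.
`closure_principle`: immediate from `conn` (steps at constant length; for the second kind the
length is constant iff `capC e A = cnt e z.1`, `cycLen_wh`; every member is orbit-minimal).
Difficulty 3.
-/

namespace Pool.Agent.Sims

variable {n : ℕ}

/-- minimal under Whitehead automorphisms of the second kind -/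
def WMin (c : ConjClasses (FreeGroup (Fin n))) : Prop :=
  ∀ (z : Fin n × Bool) (A : Fin n × Bool → Bool), A z = true → A (bar z) = false →
    cycLen c ≤ cycLen (act (wh z A) c)

theorem Conn_orbit_of_step {c d : ConjClasses (FreeGroup (Fin n))} (h : IsStep c d) :
    ∃ φ : FreeGroup (Fin n) ≃* FreeGroup (Fin n), d = act φ c := by
  rcases h with ⟨σ, h⟩ | ⟨z, A, _, _, h⟩
  · exact ⟨_, h⟩
  · exact ⟨_, h⟩

theorem Conn_chain (c : ConjClasses (FreeGroup (Fin n)))
    (φ : FreeGroup (Fin n) ≃* FreeGroup (Fin n)) :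
    Relation.ReflTransGen IsStep c (act φ c) := by
  obtain ⟨l, hl, rfl⟩ := aut_generated φ
  induction l with
  | nil => simp only [List.foldr_nil, act_refl]; exact Relation.ReflTransGen.refl
  | cons ψ l ih =>
    simp only [List.foldr_cons]
    rw [← act_act]
    refine Relation.ReflTransGen.tail (ih (fun ψ' h => hl ψ' (List.mem_cons_of_mem _ h))) ?_
    rcases hl ψ List.mem_cons_self with ⟨σ, h⟩ | ⟨z, A, hz, hz', h⟩
    · exact Or.inl ⟨σ, by rw [h]⟩
    · exact Or.inr ⟨z, A, hz, hz', by rw [h]⟩

/-- chain of steps, all members after the first of length `≤ N` -/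
def Conn_Ch (N : ℕ) (c d : ConjClasses (FreeGroup (Fin n))) : Prop :=
  Relation.ReflTransGen (fun x y => IsStep x y ∧ cycLen y ≤ N) c d

theorem Conn_Ch_exists {c d : ConjClasses (FreeGroup (Fin n))}
    (h : Relation.ReflTransGen IsStep c d) : ∃ N, Conn_Ch N c d := by
  induction h with
  | refl => exact ⟨0, Relation.ReflTransGen.refl⟩
  | @tail b e _ hbe ih =>
    obtain ⟨N, hN⟩ := ih
    refine ⟨max N (cycLen e), ?_⟩
    refine Relation.ReflTransGen.tail ?_ ⟨hbe, le_max_right _ _⟩
    refine Relation.ReflTransGen.mono ?_ _ _ hN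
    intro x y hxy
    exact ⟨hxy.1, hxy.2.trans (le_max_left _ _)⟩

theorem Conn_path {N : ℕ} {c d : ConjClasses (FreeGroup (Fin n))} (h : Conn_Ch N c d)
    (hc : cycLen c ≤ N) (hd : cycLen d < N) : Path N c d := by
  unfold Conn_Ch at h
  revert hc
  induction h using Relation.ReflTransGen.head_induction_on with
  | refl => intro _; exact Path.refl _ _
  | @head a e hae _ ih =>
    intro hc
    obtain ⟨h1, h2⟩ := hae
    have h3 := ih h2
    rcases h2.lt_or_eq with h4 | h4
    · exact Relation.ReflTransGen.head ⟨h1, h4⟩ h3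
    · rcases Relation.ReflTransGen.cases_head h3 with h5 | ⟨f, h5, h6⟩
      · subst h5; omega
      · have h7 := peak (IsStep_symm h1) h5.1 (by omega) (by rw [h4]; exact h5.2)
        rw [h4] at h7
        exact h7.trans h6

theorem Conn_path_Ch {N : ℕ} {c d : ConjClasses (FreeGroup (Fin n))} (h : Path (N + 1) c d) :
    Conn_Ch N c d := by
  refine Relation.ReflTransGen.mono ?_ _ _ h
  intro x y hxy
  exact ⟨hxy.1, Nat.lt_succ_iff.mp hxy.2⟩

theorem Conn_descend {c d : ConjClasses (FreeGroup (Fin n))} (hd : cycLen d ≤ cycLen c) (k : ℕ) :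
    ∀ (_ : Conn_Ch (cycLen c + k) c d), Conn_Ch (cycLen c) c d := by
  induction k with
  | zero => intro h; exact h
  | succ k ih =>
    intro h
    apply ih
    apply Conn_path_Ch
    exact Conn_path h (by omega) (by omega)

theorem Conn_reduce {c : ConjClasses (FreeGroup (Fin n))}
    (φ : FreeGroup (Fin n) ≃* FreeGroup (Fin n)) (hd : cycLen (act φ c) ≤ cycLen c) :
    Conn_Ch (cycLen c) c (act φ c) := by
  obtain ⟨N, hN⟩ := Conn_Ch_exists (Conn_chain c φ)
  apply Conn_descend hd N
  refine Relation.ReflTransGen.mono ?_ _ _ hN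
  intro x y hxy
  exact ⟨hxy.1, hxy.2.trans (Nat.le_add_left _ _)⟩

theorem OMin_of_WMin {c : ConjClasses (FreeGroup (Fin n))} (h : WMin c) : OMin c := by
  intro φ
  by_contra hlt
  push Not at hlt
  have h1 := Conn_path (Conn_reduce φ hlt.le) le_rfl hlt
  rcases Relation.ReflTransGen.cases_head h1 with h5 | ⟨f, h5, h6⟩
  · rw [← h5] at hlt; omega
  · rcases h5 with ⟨⟨σ, h7⟩ | ⟨z, A, hz, hz', h7⟩, h8⟩
    · rw [h7, cycLen_SPerm] at h8; omega
    · rw [h7] at h8
      have := h z A hz hz'
      omega

theorem conn {c d : ConjClasses (FreeGroup (Fin n))} (h : OMin c) (hd : d ∈ orb c) :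
    Relation.ReflTransGen (fun x y => IsStep x y ∧ cycLen y = cycLen c) c d := by
  obtain ⟨⟨φ, rfl⟩, hlen⟩ := hd
  have h1 := Conn_reduce φ hlen.le
  have key : ∀ x, Conn_Ch (cycLen c) c x →
      Relation.ReflTransGen (fun x y => IsStep x y ∧ cycLen y = cycLen c) c x ∧
      ∃ ψ : FreeGroup (Fin n) ≃* FreeGroup (Fin n), x = act ψ c := by
    intro x hx
    unfold Conn_Ch at hx
    induction hx with
    | refl => exact ⟨Relation.ReflTransGen.refl, MulEquiv.refl _, (act_refl c).symm⟩
    | @tail b e _ hbe ih =>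
      obtain ⟨ih1, ψ, ih2⟩ := ih
      obtain ⟨θ, hθ⟩ := Conn_orbit_of_step hbe.1
      have he : e = act (ψ.trans θ) c := by rw [hθ, ih2, act_act]
      refine ⟨Relation.ReflTransGen.tail ih1 ⟨hbe.1, ?_⟩, _, he⟩
      apply le_antisymm hbe.2
      rw [he]; exact h _
  exact (key _ h1).1

theorem OMin_orb {c d : ConjClasses (FreeGroup (Fin n))} (h : OMin c) (hd : d ∈ orb c) :
    OMin d := by
  obtain ⟨⟨φ, rfl⟩, hlen⟩ := hd
  intro ψ
  rw [hlen, act_act]
  exact h _

theorem orb_eq {c d : ConjClasses (FreeGroup (Fin n))} (hd : d ∈ orb c) :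
    orb d = orb c := by
  obtain ⟨⟨φ, rfl⟩, hlen⟩ := hd
  ext x
  constructor
  · rintro ⟨⟨ψ, rfl⟩, h2⟩
    exact ⟨⟨φ.trans ψ, by rw [act_act]⟩, h2.trans hlen⟩
  · rintro ⟨⟨ψ, rfl⟩, h2⟩
    refine ⟨⟨φ.symm.trans ψ, ?_⟩, h2.trans hlen.symm⟩
    rw [act_act]
    congr 1
    ext i
    simp

theorem OMin.le_cap {c : ConjClasses (FreeGroup (Fin n))} (h : OMin c) (z : Fin n × Bool)
    (A : Fin n × Bool → Bool) (hz : A z = true) (hz' : A (bar z) = false) :
    cnt c z.1 ≤ capC c A := by
  have h1 := cycLen_wh c z A hz hz'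
  have h2 := h (wh z A)
  omega

/-- composition of signed permutations -/
def Conn_comp (τ σ : SPerm (Fin n)) : SPerm (Fin n) :=
  ⟨σ.perm.trans τ.perm, fun i => σ.sign i == τ.sign (σ.perm i)⟩

theorem Conn_comp_letter (τ σ : SPerm (Fin n)) (x : Fin n × Bool) :
    (Conn_comp τ σ).letter x = τ.letter (σ.letter x) := by
  rcases x with ⟨i, b⟩
  simp only [Conn_comp, SPerm.letter, Equiv.trans_apply]
  have h : ∀ s t b : Bool, (if (s == t) = true then b else !b) =
      (if t = true then (if s = true then b else !b) else !(if s = true then b else !b)) := by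
    decide
  exact congrArg _ (h _ _ _)

theorem Conn_act_comp (τ σ : SPerm (Fin n)) (c : ConjClasses (FreeGroup (Fin n))) :
    act τ.aut (act σ.aut c) = act (Conn_comp τ σ).aut c := by
  rw [act_act]
  apply act_conj _ _ 1
  intro i
  have h1 : (σ.aut.trans τ.aut) (FreeGroup.of i) = τ.hom (σ.hom (lett (i, true))) := rfl
  have h2 : (Conn_comp τ σ).aut (FreeGroup.of i) = (Conn_comp τ σ).hom (lett (i, true)) := rfl
  rw [h1, h2, SPerm.hom_lett, SPerm.hom_lett, SPerm.hom_lett, Conn_comp_letter]
  simp

/-- closure principle: `E` is a set of classes such that every level move from an orbit-minimal member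
of `E` leads to an image of a member of `E` under a signed permutation -/
theorem closure_principle {c : ConjClasses (FreeGroup (Fin n))} (h : OMin c)
    (E : Set (ConjClasses (FreeGroup (Fin n))))
    (h0 : ∃ σ : SPerm (Fin n), ∃ e ∈ E, c = act σ.aut e)
    (hE : ∀ e ∈ E, OMin e → ∀ (z : Fin n × Bool) (A : Fin n × Bool → Bool), A z = true →
      A (bar z) = false → capC e A = cnt e z.1 →
      ∃ σ : SPerm (Fin n), ∃ e' ∈ E, act (wh z A) e = act σ.aut e') :
    ∀ d ∈ orb c, ∃ σ : SPerm (Fin n), ∃ e ∈ E, d = act σ.aut e := by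
  intro d hd
  have h1 := conn h hd
  have key : ∀ x, Relation.ReflTransGen (fun x y => IsStep x y ∧ cycLen y = cycLen c) c x →
      x ∈ orb c ∧ ∃ σ : SPerm (Fin n), ∃ e ∈ E, x = act σ.aut e := by
    intro x hx
    induction hx with
    | refl => exact ⟨⟨⟨MulEquiv.refl _, (act_refl c).symm⟩, rfl⟩, h0⟩
    | @tail b b' _ hbb ih =>
      obtain ⟨ihb, σ, e, he, rfl⟩ := ih
      obtain ⟨hstep, hlen⟩ := hbb
      obtain ⟨θ, hθ⟩ := Conn_orbit_of_step hstep
      refine ⟨?_, ?_⟩
      · obtain ⟨⟨φ, hφ⟩, _⟩ := ihb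
        exact ⟨⟨φ.trans θ, by rw [hθ, hφ, act_act]⟩, hlen⟩
      · rcases hstep with ⟨τ, hτ⟩ | ⟨z, A, hz, hz', hτ⟩
        · exact ⟨Conn_comp τ σ, e, he, by rw [hτ, Conn_act_comp]⟩
        · have heo : e ∈ orb (act σ.aut e) :=
            ⟨⟨σ.inv.aut, (act_SPerm_inv σ e).symm⟩, (cycLen_SPerm σ e).symm⟩
          have hemin : OMin e := OMin_orb (OMin_orb h ihb) heo
          set z' := σ.inv.letter z with hz0
          have hzz : z = σ.letter z' := by rw [hz0, SPerm.letter_inv]
          have h2 : b' = act σ.aut (act (wh z' (fun x => A (σ.letter x))) e) := by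
            rw [hτ, hzz, act_wh_SPerm]
          have hA1 : (fun x => A (σ.letter x)) z' = true := by
            simp only [← hzz]; exact hz
          have hA2 : (fun x => A (σ.letter x)) (bar z') = false := by
            simp only [SPerm.letter_bar, ← hzz]; exact hz'
          have h3 := cycLen_wh e z' (fun x => A (σ.letter x)) hA1 hA2
          have h4 : cycLen (act (wh z' (fun x => A (σ.letter x))) e) = cycLen e := by
            rw [← cycLen_SPerm σ (act (wh z' (fun x => A (σ.letter x))) e), ← h2, hlen,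
              ← cycLen_SPerm σ e]
            exact ihb.2.symm
          obtain ⟨ρ, e', he', h5⟩ := hE e he hemin z' (fun x => A (σ.letter x)) hA1 hA2 (by omega)
          exact ⟨Conn_comp σ ρ, e', he', by rw [h2, h5, Conn_act_comp]⟩
  exact (key d h1).2

end Pool.Agent.Sims
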