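import Pool.Agent.Sims.TwBasic

/-!
# Module `TwPot` : potentials

Let `V` be a class and `j` a generator.  If `V` is not a power of `x_j` take a valid syllable form `s` (`WhEff_cases`): by `act_pot`,
`cntL_expand_self`, `sum_shift`, `cnt (act (pot j q) V) j = Σ |k + q x - q y⁻¹|` (cyclic sum over the consecutive `(x,k), (y,l)` of `s`), and
`cnt V j = Σ |k|`.  If `V` is a power of `x_j`, `act (pot j q) V = V` (`act_pot_pow`).
* `pot_congr`: equality of automorphisms (`Rel_ext`, `Rel_pot_ne`, `Rel_pot_self`).  `pot_const`: conjugation by a power of `x_j`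
  (`Rel_act_conj`).
* `wh_pot`: `wh (j, true) A = pot j (ind A)` by definition (`whp`, `sgn`).
* `pot_min`: the length of `act (pot j q) V` is at least that of `V`, the other counts agree (`cnt_pot_ne`, `cycLen_eq_sum`).
* `pot_split`: let `q₁ = max (q - α) 0`, `q₂ = min q α`, `q = q₁ + q₂`.  For every pair `u = x, v = y⁻¹` the numbers `d₁ = q₁ u - q₁ v`, `d₂ = q₂ u - q₂ v`
  have the same sign, so `|k + d₁| + |k + d₂| ≤ |k| + |k + d₁ + d₂|`.  Sum up: `f q₁ + f q₂ ≤ f 0 + f q = 2 cnt V j`, and `pot_min`.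
* `NoX A s`: no cyclically consecutive letters `x, y` with exactly one of `x, y⁻¹` in `A`.  Then `shift (p + ind A) s = shift p s` (`NoX_shift`).
* `coarea`: `Σ |k| = cnt V j`, `Σ |k + d| ≤ cnt V j`, `d = q x - q y⁻¹`, so `Σ |d| ≤ 2 cnt V j`.  For every pair, `|d|` is at least the number of `t` with
  `q v < t ≤ q u` (`u, v` the two given letters) such that exactly one of `x, y⁻¹` is in `{q ≥ t}`.  If every such `t` had a pair with exactly one of
  `x, y⁻¹` in `{q ≥ t}`, then `q u - q v ≤ Σ |d| ≤ 2 cnt V j`, a contradiction.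
* `line_range`: for `q = t • ind A`: `Σ |d| = |t| · (number of pairs with exactly one of x, y⁻¹ in A) ≥ |t|` (the number is positive: otherwise
  `act (pot j (ind A)) V = V`).
Difficulty 2-3.
-/

namespace Pool.Agent.Sims

open FreeGroup (of)

/-- no cyclically consecutive `x, y` with exactly one of `x, y⁻¹` in `A` -/
def NoX (A : Fin 3 × Bool → Bool) (s : List ((Fin 3 × Bool) × ℤ)) : Prop :=
  cyc (fun q r => if A q.1 = A (bar r.1) then 0 else 1) s = 0

theorem pot_add (j : Fin 3) (p q : Fin 3 × Bool → ℤ) (V : CC) :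
    act (pot j p) (act (pot j q) V) = act (pot j (p + q)) V := by
  rw [act_act]
  have key : (pot j q).trans (pot j p) = pot j (p + q) := by
    apply MulEquiv.ext
    intro g
    exact DFunLike.congr_fun (potFun_comp j p q) g
  rw [key]

theorem pot_zero (j : Fin 3) (V : CC) : act (pot j 0) V = V := by
  have key : (pot j (0 : Fin 3 × Bool → ℤ)) = MulEquiv.refl _ := by
    apply MulEquiv.ext
    intro g
    exact DFunLike.congr_fun (potFun_zero j) g
  rw [key, act_refl]

theorem pot_congr {j : Fin 3} {p q : Fin 3 × Bool → ℤ} (h : ∀ x, x.1 ≠ j → p x = q x) (V : CC) :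
    act (pot j p) V = act (pot j q) V := by
  have key : pot j p = pot j q := by
    apply Rel_ext
    intro i
    refine ⟨true, ?_⟩
    by_cases hi : i = j
    · rw [Rel_pot_self j p (x := (i, true)) hi, Rel_pot_self j q (x := (i, true)) hi]
    · rw [Rel_pot_ne p (x := (i, true)) hi, Rel_pot_ne q (x := (i, true)) hi,
        h (i, true) hi, h (bar (i, true)) hi]
  rw [key]

theorem pot_const {j : Fin 3} {p q : Fin 3 × Bool → ℤ} (k : ℤ) (h : ∀ x, x.1 ≠ j → p x = q x + k)
    (V : CC) : act (pot j p) V = act (pot j q) V := by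
  apply Rel_act_conj _ _ ((of j) ^ (-k))
  intro i
  refine ⟨true, ?_⟩
  by_cases hi : i = j
  · rw [Rel_pot_self j p (x := (i, true)) hi, Rel_pot_self j q (x := (i, true)) hi]
    subst hi
    rw [lett_true]
    group
  · rw [Rel_pot_ne p (x := (i, true)) hi, Rel_pot_ne q (x := (i, true)) hi,
      h (i, true) hi, h (bar (i, true)) hi]
    have e1 : (of j : FreeGroup (Fin 3)) ^ (-(q (bar (i, true)) + k)) =
        (of j) ^ (-k) * (of j) ^ (-(q (bar (i, true)))) := by
      rw [← zpow_add]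
      congr 1
      ring
    have e2 : (of j : FreeGroup (Fin 3)) ^ (q (i, true) + k) =
        (of j) ^ (q (i, true)) * ((of j) ^ (-k))⁻¹ := by
      rw [← zpow_neg, ← zpow_add]
      congr 1
      ring
    rw [e1, e2]
    simp only [mul_assoc]

theorem wh_pot (j : Fin 3) (A : Fin 3 × Bool → Bool) (V : CC) :
    act (wh (j, true) A) V = act (pot j (ind A)) V := by
  apply pot_congr
  intro x _
  simp [whp, ind, sgn]

theorem TwPot_len (V : CC) (j : Fin 3) (q : Fin 3 × Bool → ℤ) :
    cycLen (act (pot j q) V) + cnt V j = cycLen V + cnt (act (pot j q) V) j := by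
  rw [cycLen_eq_sum, cycLen_eq_sum, ← Finset.add_sum_erase _ _ (Finset.mem_univ j),
    ← Finset.add_sum_erase Finset.univ (fun i => cnt V i) (Finset.mem_univ j)]
  have h : ∑ x ∈ Finset.univ.erase j, cnt (act (pot j q) V) x =
      ∑ x ∈ Finset.univ.erase j, cnt V x := by
    apply Finset.sum_congr rfl
    intro x hx
    exact cnt_pot_ne V j q (Finset.ne_of_mem_erase hx)
  rw [h]
  ring

theorem pot_min {V : CC} (hO : OMin V) (j : Fin 3) (q : Fin 3 × Bool → ℤ) :
    cnt V j ≤ cnt (act (pot j q) V) j := by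
  have h1 := TwPot_len V j q
  have h2 := hO (pot j q)
  omega

/-- counts after a potential -/
theorem TwPot_cases (V : CC) (j : Fin 3) :
    (∀ q : Fin 3 × Bool → ℤ, act (pot j q) V = V) ∨
    ∃ s : List ((Fin 3 × Bool) × ℤ), ∀ q : Fin 3 × Bool → ℤ,
      act (pot j q) V = cls (expand j (shift q s)) ∧
      cnt (act (pot j q) V) j = cyc (fun a b => (a.2 + q a.1 - q (bar b.1)).natAbs) s := by
  rcases WhEff_cases j V with ⟨k, rfl⟩ | ⟨s, -, hs, rfl⟩
  · exact Or.inl (fun q => act_pot_pow j q k)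
  · refine Or.inr ⟨s, fun q => ?_⟩
    have hs' := SValid_shift j q s hs
    refine ⟨act_pot _ _ _ hs.1, ?_⟩
    rw [act_pot _ _ _ hs.1, cnt_cls hs'.2, cntL_expand_self _ _ hs'.1, sum_shift]

theorem TwPot_cyc_zero {β : Type*} (l : List β) : cyc (fun _ _ : β => (0 : ℕ)) l = 0 := by
  rw [cyc_fst (fun _ : β => (0 : ℕ))]
  simp

theorem TwPot_cyc_sum {β ι : Type*} (S : Finset ι) (f : ι → β → β → ℕ) (l : List β) :
    ∑ t ∈ S, cyc (f t) l = cyc (fun x y => ∑ t ∈ S, f t x y) l := by
  classical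
  induction S using Finset.induction_on with
  | empty => simp [TwPot_cyc_zero]
  | insert a S ha ih =>
    rw [Finset.sum_insert ha, ih, ← cyc_add]
    congr 1
    funext x y
    rw [Finset.sum_insert ha]

theorem pot_split {V : CC} (hO : OMin V) {j : Fin 3} {q : Fin 3 × Bool → ℤ}
    (h : cnt (act (pot j q) V) j = cnt V j) (α : ℤ) :
    cnt (act (pot j (fun x => max (q x - α) 0)) V) j = cnt V j ∧
    cnt (act (pot j (fun x => min (q x) α)) V) j = cnt V j := by
  rcases TwPot_cases V j with h0 | ⟨s, hs⟩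
  · rw [h0, h0]
    exact ⟨rfl, rfl⟩
  · have m1 := pot_min hO j (fun x => max (q x - α) 0)
    have m2 := pot_min hO j (fun x => min (q x) α)
    have e1 := (hs (fun x => max (q x - α) 0)).2
    have e2 := (hs (fun x => min (q x) α)).2
    have e3 := (hs q).2
    have e4 := (hs 0).2
    rw [pot_zero] at e4
    have key : cyc (fun a b : (Fin 3 × Bool) × ℤ =>
        (a.2 + (max (q a.1 - α) 0) - (max (q (bar b.1) - α) 0)).natAbs) s +
        cyc (fun a b : (Fin 3 × Bool) × ℤ =>
        (a.2 + (min (q a.1) α) - (min (q (bar b.1)) α)).natAbs) s ≤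
        cyc (fun a b : (Fin 3 × Bool) × ℤ => (a.2 + q a.1 - q (bar b.1)).natAbs) s +
        cyc (fun a b : (Fin 3 × Bool) × ℤ =>
          (a.2 + (0 : Fin 3 × Bool → ℤ) a.1 - (0 : Fin 3 × Bool → ℤ) (bar b.1)).natAbs) s := by
      rw [← cyc_add, ← cyc_add]
      apply cyc_mono
      intro a b
      simp only [Pi.zero_apply]
      omega
    omega

/-- a potential with the same count gives a class of the same type -/
theorem pot_Sm {V : CC} {j : Fin 3} {q : Fin 3 × Bool → ℤ}
    (h : cnt (act (pot j q) V) j = cnt V j) : Sm V (act (pot j q) V) := by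
  have h1 := TwPot_len V j q
  refine ⟨⟨⟨pot j q, rfl⟩, by omega⟩, ?_⟩
  intro i
  by_cases hi : i = j
  · rw [hi, h]
  · exact cnt_pot_ne V j q hi

/-- a `0/1` potential with the same count is a level move -/
theorem pot_Lv {V : CC} {j : Fin 3} {A : Fin 3 × Bool → Bool} (hj : A (j, true) = true)
    (hj' : A (j, false) = false) (h : cnt (act (pot j (ind A)) V) j = cnt V j) :
    Lv V (j, true) A := by
  refine ⟨hj, hj', ?_⟩
  have h1 := cnt_wh_self V (j, true) A hj hj'
  rw [wh_pot] at h1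
  exact h1.symm.trans h

theorem TwPot_shiftLin {A : Fin 3 × Bool → Bool} (p : Fin 3 × Bool → ℤ)
    (t : List ((Fin 3 × Bool) × ℤ)) (z : Fin 3 × Bool) (w : (Fin 3 × Bool) × ℤ) (hw : w.1 = z) :
    ∀ q : (Fin 3 × Bool) × ℤ,
    lin (fun q r => if A q.1 = A (bar r.1) then 0 else 1) q t w = 0 →
    shiftLin (p + ind A) (q :: t) z = shiftLin p (q :: t) z := by
  induction t with
  | nil =>
    intro q h
    have h1 : A q.1 = A (bar z) := by
      have h2 : (if A q.1 = A (bar w.1) then 0 else 1) = 0 := h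
      rw [hw] at h2
      by_contra h3
      rw [if_neg h3] at h2
      exact one_ne_zero h2
    simp only [shiftLin, Pi.add_apply, ind, h1]
    congr 2
    ring
  | cons r t ih =>
    intro q h
    have h0 : (if A q.1 = A (bar r.1) then 0 else 1) +
        lin (fun q r => if A q.1 = A (bar r.1) then 0 else 1) r t w = 0 := h
    have h1 : A q.1 = A (bar r.1) := by
      by_contra h3
      rw [if_neg h3] at h0
      omega
    have h2 := ih r (by omega)
    simp only [shiftLin, Pi.add_apply, ind, h1]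
    congr 1
    · congr 1
      ring

theorem NoX_shift {A : Fin 3 × Bool → Bool} {s : List ((Fin 3 × Bool) × ℤ)} (h : NoX A s)
    (p : Fin 3 × Bool → ℤ) : shift (p + ind A) s = shift p s := by
  cases s with
  | nil => rfl
  | cons q t => exact TwPot_shiftLin p t q.1 q rfl q h

theorem NoX_of_shift {A : Fin 3 × Bool → Bool} {s : List ((Fin 3 × Bool) × ℤ)}
    {p : Fin 3 × Bool → ℤ} (h : NoX A (shift p s)) : NoX A s := by
  unfold NoX at h ⊢
  rw [cyc_shift (fun (q : (Fin 3 × Bool) × ℤ) (y : Fin 3 × Bool) =>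
    if A q.1 = A (bar y) then 0 else 1) p s] at h
  exact h

theorem TwPot_NoX_act {V : CC} {j : Fin 3} {s : List ((Fin 3 × Bool) × ℤ)}
    (hs : ∀ q : Fin 3 × Bool → ℤ, act (pot j q) V = cls (expand j (shift q s)))
    {A : Fin 3 × Bool → Bool} (h : NoX A s) (p : Fin 3 × Bool → ℤ) :
    act (pot j (p + ind A)) V = act (pot j p) V := by
  rw [hs, hs, NoX_shift h]

/-- the sum of the differences of the potential -/
theorem TwPot_diff {V : CC} {j : Fin 3} {s : List ((Fin 3 × Bool) × ℤ)}
    (hs : ∀ q : Fin 3 × Bool → ℤ,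
      cnt (act (pot j q) V) j = cyc (fun a b => (a.2 + q a.1 - q (bar b.1)).natAbs) s)
    {q : Fin 3 × Bool → ℤ} (h : cnt (act (pot j q) V) j ≤ cnt V j) :
    cyc (fun a b : (Fin 3 × Bool) × ℤ => (q a.1 - q (bar b.1)).natAbs) s ≤ 2 * cnt V j := by
  have e3 := hs q
  have e4 := hs 0
  rw [pot_zero] at e4
  have key : cyc (fun a b : (Fin 3 × Bool) × ℤ => (q a.1 - q (bar b.1)).natAbs) s ≤
        cyc (fun a b : (Fin 3 × Bool) × ℤ => (a.2 + q a.1 - q (bar b.1)).natAbs) s +
        cyc (fun a b : (Fin 3 × Bool) × ℤ =>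
          (a.2 + (0 : Fin 3 × Bool → ℤ) a.1 - (0 : Fin 3 × Bool → ℤ) (bar b.1)).natAbs) s := by
    rw [← cyc_add]
    apply cyc_mono
    intro a b
    simp only [Pi.zero_apply]
    omega
  omega

theorem TwPot_layer (m n x y : ℤ) :
    ∑ t ∈ Finset.Ioc m n, (if decide (t ≤ x) = decide (t ≤ y) then 0 else 1) ≤
      (x - y).natAbs := by
  have h1 : ∑ t ∈ Finset.Ioc m n, (if decide (t ≤ x) = decide (t ≤ y) then 0 else 1) =
      ((Finset.Ioc m n).filter (fun t => ¬ (decide (t ≤ x) = decide (t ≤ y)))).card := by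
    rw [Finset.card_filter]
    apply Finset.sum_congr rfl
    intro t _
    by_cases h : decide (t ≤ x) = decide (t ≤ y)
    · simp only [h, not_true_eq_false, if_true, if_false]
    · rw [if_neg h, if_pos h]
  rw [h1]
  have h2 : ((Finset.Ioc m n).filter (fun t => ¬ (decide (t ≤ x) = decide (t ≤ y)))) ⊆
      Finset.Ioc (min x y) (max x y) := by
    intro t ht
    rw [Finset.mem_filter, decide_eq_decide] at ht
    rw [Finset.mem_Ioc]
    omega
  refine (Finset.card_le_card h2).trans ?_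
  rw [Int.card_Ioc]
  omega

theorem coarea {V : CC} {j : Fin 3} {q : Fin 3 × Bool → ℤ}
    (h : cnt (act (pot j q) V) j ≤ cnt V j) {u v : Fin 3 × Bool} (hu : u.1 ≠ j) (hv : v.1 ≠ j)
    (hk : q v + 2 * (cnt V j : ℤ) < q u) :
    ∃ t : ℤ, q v < t ∧ t ≤ q u ∧
      ∀ p, act (pot j (p + ind (fun x => decide (t ≤ q x)))) V = act (pot j p) V := by
  rcases TwPot_cases V j with h0 | ⟨s, hs⟩
  · exact ⟨q u, by omega, le_rfl, fun p => by rw [h0, h0]⟩
  by_contra hcon
  have hd := TwPot_diff (fun q => (hs q).2) h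
  have h1 : ∀ t ∈ Finset.Ioc (q v) (q u), 1 ≤ cyc (fun a b : (Fin 3 × Bool) × ℤ =>
      if decide (t ≤ q a.1) = decide (t ≤ q (bar b.1)) then 0 else 1) s := by
    intro t ht
    rw [Finset.mem_Ioc] at ht
    by_contra h2
    apply hcon
    refine ⟨t, ht.1, ht.2, fun p => ?_⟩
    apply TwPot_NoX_act (fun q => (hs q).1)
    unfold NoX
    exact Nat.lt_one_iff.mp (not_le.mp h2)
  have h2 : (Finset.Ioc (q v) (q u)).card ≤
      ∑ t ∈ Finset.Ioc (q v) (q u), cyc (fun a b : (Fin 3 × Bool) × ℤ =>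
      if decide (t ≤ q a.1) = decide (t ≤ q (bar b.1)) then 0 else 1) s := by
    rw [Finset.card_eq_sum_ones]
    exact Finset.sum_le_sum h1
  rw [TwPot_cyc_sum] at h2
  have h3 : cyc (fun a b : (Fin 3 × Bool) × ℤ => ∑ t ∈ Finset.Ioc (q v) (q u),
      if decide (t ≤ q a.1) = decide (t ≤ q (bar b.1)) then 0 else 1) s ≤
      cyc (fun a b : (Fin 3 × Bool) × ℤ => (q a.1 - q (bar b.1)).natAbs) s := by
    apply cyc_mono
    intro a b
    exact TwPot_layer _ _ _ _
  rw [Int.card_Ioc] at h2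
  omega

theorem line_range {V : CC} {j : Fin 3} {A : Fin 3 × Bool → Bool}
    (h : act (pot j (ind A)) V ≠ V) {t : ℤ}
    (ht : cnt (act (pot j (fun x => t * ind A x)) V) j ≤ cnt V j) : t.natAbs ≤ 2 * cnt V j := by
  rcases TwPot_cases V j with h0 | ⟨s, hs⟩
  · exact absurd (h0 _) h
  have hd := TwPot_diff (fun q => (hs q).2) ht
  have hX : 1 ≤ cyc (fun a b : (Fin 3 × Bool) × ℤ => if A a.1 = A (bar b.1) then 0 else 1) s := by
    by_contra h2
    apply h
    have h3 := TwPot_NoX_act (fun q => (hs q).1) (A := A) (by unfold NoX; omega) 0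
    rwa [zero_add, pot_zero] at h3
  have h4 : t.natAbs * cyc (fun a b : (Fin 3 × Bool) × ℤ =>
      if A a.1 = A (bar b.1) then 0 else 1) s ≤
      cyc (fun a b : (Fin 3 × Bool) × ℤ => (t * ind A a.1 - t * ind A (bar b.1)).natAbs) s := by
    have h5 : t.natAbs * cyc (fun a b : (Fin 3 × Bool) × ℤ =>
      if A a.1 = A (bar b.1) then 0 else 1) s = ∑ _i ∈ Finset.range t.natAbs,
        cyc (fun a b : (Fin 3 × Bool) × ℤ => if A a.1 = A (bar b.1) then 0 else 1) s := by
      rw [Finset.sum_const, Finset.card_range, smul_eq_mul]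
    rw [h5, TwPot_cyc_sum]
    apply cyc_mono
    intro a b
    rw [Finset.sum_const, Finset.card_range, smul_eq_mul]
    cases h6 : A a.1 <;> cases h7 : A (bar b.1) <;> simp [ind, h6, h7]
  have h8 : t.natAbs * 1 ≤ t.natAbs * cyc (fun a b : (Fin 3 × Bool) × ℤ =>
      if A a.1 = A (bar b.1) then 0 else 1) s := Nat.mul_le_mul_left _ hX
  omega

end Pool.Agent.Sims
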