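import Pool.Agent.Sims.TripDefs
import Pool.Agent.Sims.TwBasic
import Pool.Agent.Sims.TwPot
import Pool.Agent.Sims.Par

/-!
# Module `Cross` : level moves crossing a minimal pair cut

`V` is orbit-minimal, `l` is less than all counts and at most all pair capacities of `V`.
* `cross_pair`: `cap (PrC i) = l`, `(z, A)` level, `A` separates `x_i`.  Let `P = PrC i = {x, x⁻¹}` with `x ∈ A`, `x⁻¹ ∉ A`.
  If `z.1 ≠ i`: `capC_submod` (`A∩P = {x}`, capacity `cnt V i`; `A∪P` separates `z.1`): `cnt V i + cnt V z.1 ≤ cnt V z.1 + l`: contradiction.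
  So `z.1 = i`, `z = x` (as `A z`).  `A = {z} ∪ A'`, `A'` = the letters of `A` of the other two generators.  `capC_submod'` (`A∖P = A'`, `P∖A = {z⁻¹}`): `cap A' ≤ l`; so `A'` does not separate
  any generator: `A'` is empty, everything (both trivial: `Lv_triv`, `Lv_triv'`), or a pair `{y, y⁻¹}`, `y.1 = j`.  Then `cap (PrC j) ≤ l` and `capC_submod` (`A∩P = {z}`, `A∪P`, whose complement is the third pair): `cap (PrC k) ≤ l`; so all
  pair cuts have capacity `l`: `TP l V`.  `wh z A = pot i (± ind (PrC j))`; if `j = i + 1` this is `Ln V i (±1)`, if `j = i + 2` then `± ind (PrC (i+2))` and `∓ ind (PrC (i+1))`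
  differ by a constant on the letters `≠ x_i^{±1}` (`pot_const`): `Ln V i (∓1)`.
* `nocross`: a level move `(z, A)` with `A` not separating `x_i` preserves `cap (PrC i)`: up to complement (`Lv_compl`) `A` is disjoint from `PrC i`, `capC_wh_disj`.
* `ln_move`: `cap (PrC j) = l` for the two `j ≠ i`.  If `z.1 = j ≠ i`: `cross_pair` for `j`.  If `z.1 = i`: for `j ≠ i`, `A` does not separate `x_j` (otherwise `cross_pair` for `j` gives `z.1 = j`).  So
  `A = {z} ∪` (nothing, a pair, or both pairs): trivial or `Ln V i (±1)` as above.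
Difficulty 2-3.
-/

namespace Pool.Agent.Sims

theorem Cross_lp (V : CC) (z : Fin 3 × Bool) :
    act (wh z (PrC (z.1 + 1))) V = Ln V z.1 (sgn z) := by
  unfold wh Ln
  apply pot_congr
  intro x _
  simp only [whp, PrC, lp, decide_eq_true_eq]

theorem Cross_lp' (V : CC) (z : Fin 3 × Bool) :
    act (wh z (PrC (z.1 + 2))) V = Ln V z.1 (-sgn z) := by
  unfold wh Ln
  apply pot_const (sgn z)
  intro x hx
  simp only [whp, PrC, lp, decide_eq_true_eq]
  obtain ⟨i, b⟩ := z
  obtain ⟨j, d⟩ := x
  have h12 : i + 1 ≠ i + 2 := by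
    clear hx
    revert i
    decide
  have hj : j = i + 1 ∨ j = i + 2 := by
    simp only at hx
    clear h12
    revert hx
    revert i j
    decide
  rcases hj with rfl | rfl
  · simp [h12]
  · simp [h12.symm]

theorem Cross_sgn (z : Fin 3 × Bool) : sgn z = 1 ∨ sgn z = -1 := by
  rcases z with ⟨i, b⟩
  cases b <;> simp [sgn]

theorem Cross_fin (i j : Fin 3) (h : j ≠ i) : j = i + 1 ∨ j = i + 2 := by
  revert i j
  decide

theorem Cross_nsep {A : Fin 3 × Bool → Bool} {j : Fin 3} (h : NSep A j) (x : Fin 3 × Bool)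
    (hx : x.1 = j) : A x = A (j, true) := by
  obtain ⟨k, b⟩ := x
  simp only at hx
  subst hx
  cases b
  · exact h.symm
  · rfl

/-- the shape of a cut which separates only its multiplier -/
theorem Cross_shape (V : CC) {z : Fin 3 × Bool} {A : Fin 3 × Bool → Bool}
    (h1 : NSep A (z.1 + 1)) (h2 : NSep A (z.1 + 2)) :
    act (wh z A) V = V ∨
      (∀ x, x.1 ≠ z.1 → A x = PrC (z.1 + 1) x) ∨ (∀ x, x.1 ≠ z.1 → A x = PrC (z.1 + 2) x) := by
  have h12 : z.1 + 1 ≠ z.1 + 2 := by
    generalize z.1 = i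
    revert i
    decide
  have hA : ∀ x : Fin 3 × Bool, x.1 ≠ z.1 → (x.1 = z.1 + 1 ∧ A x = A (z.1 + 1, true)) ∨
      (x.1 = z.1 + 2 ∧ A x = A (z.1 + 2, true)) := by
    intro x hx
    rcases Cross_fin _ _ hx with h | h
    · exact Or.inl ⟨h, Cross_nsep h1 x h⟩
    · exact Or.inr ⟨h, Cross_nsep h2 x h⟩
  cases ha : A (z.1 + 1, true) <;> cases hb : A (z.1 + 2, true)
  · left
    apply Lv_triv
    intro x hx
    rcases hA x hx with h | h
    · rw [h.2, ha]
    · rw [h.2, hb]
  · right; right
    intro x hx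
    rcases hA x hx with h | h
    · rw [h.2, ha]
      simp only [PrC, h.1]
      simp [h12]
    · rw [h.2, hb]
      simp only [PrC, h.1]
      simp
  · right; left
    intro x hx
    rcases hA x hx with h | h
    · rw [h.2, ha]
      simp only [PrC, h.1]
      simp
    · rw [h.2, hb]
      simp only [PrC, h.1]
      simp [h12.symm]
  · left
    apply Lv_triv'
    intro x hx
    rcases hA x hx with h | h
    · rw [h.2, ha]
    · rw [h.2, hb]

theorem Cross_form (V : CC) {z : Fin 3 × Bool} {A : Fin 3 × Bool → Bool}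
    (h1 : NSep A (z.1 + 1)) (h2 : NSep A (z.1 + 2)) :
    act (wh z A) V = V ∨ ∃ e : ℤ, (e = 1 ∨ e = -1) ∧ act (wh z A) V = Ln V z.1 e := by
  rcases Cross_shape V h1 h2 with h | h | h
  · exact Or.inl h
  · right
    refine ⟨sgn z, Cross_sgn z, ?_⟩
    rw [act_wh_congr V h, Cross_lp]
  · right
    refine ⟨-sgn z, ?_, ?_⟩
    · rcases Cross_sgn z with h' | h' <;> rw [h'] <;> simp
    · rw [act_wh_congr V h, Cross_lp']

theorem Cross_self {V : CC} {l : ℕ} (hO : OMin V) (hc : ∀ j, l < cnt V j)
    {i : Fin 3} (hi : capC V (PrC i) = l)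
    {z : Fin 3 × Bool} {A : Fin 3 × Bool → Bool} (h : Lv V z A) (hs : ¬ NSep A i) : z.1 = i := by
  by_contra hz
  obtain ⟨hz1, hz2, hcap⟩ := h
  obtain ⟨x, hx1, hx2, hx3⟩ : ∃ x : Fin 3 × Bool, x.1 = i ∧ A x = true ∧ A (bar x) = false := by
    unfold NSep at hs
    cases ht : A (i, true) <;> cases hf : A (i, false)
    · rw [ht, hf] at hs; exact absurd rfl hs
    · exact ⟨(i, false), rfl, hf, ht⟩
    · exact ⟨(i, true), rfl, ht, hf⟩
    · rw [ht, hf] at hs; exact absurd rfl hs
  have h1 := capC_submod V A (PrC i)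
  have h2 : capC V (fun y => A y && PrC i y) = cnt V i := by
    rw [← hx1, ← capC_single V x]
    apply capC_congr
    intro y
    simp only [PrC]
    by_cases hy : y = x
    · subst hy
      simp [hx2]
    · by_cases hy2 : y = bar x
      · subst hy2
        rw [hx3]
        simp [bar_ne x]
      · have : y.1 ≠ x.1 := by
          intro hyy
          obtain ⟨a, b⟩ := y
          obtain ⟨c, d⟩ := x
          simp only at hyy
          subst hyy
          cases b <;> cases d <;> simp [bar] at hy hy2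
        simp [this, hy]
  have h3 := hO.le_cap z (fun y => A y || PrC i y) (by simp [hz1]) (by simp [hz2, PrC, hz])
  have h4 := hc i
  omega

theorem Cross_rest {V : CC} {l : ℕ} (hO : OMin V) (hc : ∀ j, l < cnt V j)
    {z : Fin 3 × Bool} (hi : capC V (PrC z.1) = l) {A : Fin 3 × Bool → Bool} (h : Lv V z A) :
    capC V (fun y => A y && !PrC z.1 y) ≤ l ∧ ∀ j, j ≠ z.1 → NSep A j := by
  obtain ⟨hz1, hz2, hcap⟩ := h
  have h1 := capC_submod' V A (PrC z.1)
  have h2 : capC V (fun y => !A y && PrC z.1 y) = cnt V z.1 := by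
    have := capC_single V (bar z)
    rw [bar_fst] at this
    rw [← this]
    apply capC_congr
    intro y
    simp only [PrC]
    by_cases hy : y = z
    · subst hy
      have := bar_ne y
      simp [hz1, this.symm]
    · by_cases hy2 : y = bar z
      · subst hy2
        rw [hz2]
        simp
      · have : y.1 ≠ z.1 := by
          intro hyy
          obtain ⟨a, b⟩ := y
          obtain ⟨c, d⟩ := z
          simp only at hyy
          subst hyy
          cases b <;> cases d <;> simp [bar] at hy hy2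
        simp [this, hy2]
  have h3 : capC V (fun y => A y && !PrC z.1 y) ≤ l := by omega
  refine ⟨h3, ?_⟩
  intro j hj
  by_contra hs
  have hle : ∀ x : Fin 3 × Bool, x.1 = j → A x = true → A (bar x) = false → False := by
    intro x hx hx1 hx2
    have h4 := hO.le_cap x (fun y => A y && !PrC z.1 y) (by simp [hx1, PrC, hx, hj])
      (by simp [hx2])
    have h5 := hc x.1
    omega
  unfold NSep at hs
  cases ht : A (j, true) <;> cases hf : A (j, false)
  · rw [ht, hf] at hs; exact absurd rfl hs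
  · exact hle (j, false) rfl hf ht
  · exact hle (j, true) rfl ht hf
  · rw [ht, hf] at hs; exact absurd rfl hs

theorem Cross_TP {V : CC} {l : ℕ} (hO : OMin V) (hc : ∀ j, l < cnt V j)
    (hm : ∀ j, l ≤ capC V (PrC j)) {z : Fin 3 × Bool} (hi : capC V (PrC z.1) = l)
    {A : Fin 3 × Bool → Bool} (h : Lv V z A) {j k : Fin 3} (hjk : ∀ y : Fin 3, y = z.1 ∨ y = j ∨ y = k)
    (hj : j ≠ z.1) (hk : k ≠ z.1) (hkj : k ≠ j)
    (hA : ∀ x, x.1 ≠ z.1 → A x = PrC j x) : TP l V := by
  have h1 := (Cross_rest hO hc hi h).1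
  have h2 : capC V (fun y => A y && !PrC z.1 y) = capC V (PrC j) := by
    apply capC_congr
    intro y
    by_cases hy : y.1 = z.1
    · simp [PrC, hy, hj.symm]
    · rw [hA y hy]
      simp [PrC, hy]
  have h3 := capC_submod V A (PrC z.1)
  obtain ⟨hz1, hz2, hcap⟩ := h
  have h4 : capC V (fun y => A y && PrC z.1 y) = cnt V z.1 := by
    rw [← capC_single V z]
    apply capC_congr
    intro y
    simp only [PrC]
    by_cases hy : y = z
    · subst hy
      simp [hz1]
    · by_cases hy2 : y = bar z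
      · subst hy2
        rw [hz2]
        simp [bar_ne z]
      · have : y.1 ≠ z.1 := by
          intro hyy
          obtain ⟨a, b⟩ := y
          obtain ⟨c, d⟩ := z
          simp only at hyy
          subst hyy
          cases b <;> cases d <;> simp [bar] at hy hy2
        simp [this, hy]
  have h5 : capC V (fun y => A y || PrC z.1 y) = capC V (PrC k) := by
    rw [← capC_compl V (PrC k)]
    apply capC_congr
    intro y
    by_cases hy : y.1 = z.1
    · simp [PrC, hy, hk.symm]
    · rw [hA y hy]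
      rcases hjk y.1 with h | h | h
      · exact absurd h hy
      · simp [PrC, h, hkj.symm]
      · simp [PrC, h, hkj, hk]
  intro y
  rcases hjk y with h | h | h
  · rw [h, hi]
  · have := hm y
    subst h
    omega
  · have := hm y
    subst h
    omega

theorem cross_pair {V : CC} {l : ℕ} (hO : OMin V) (hc : ∀ j, l < cnt V j)
    (hm : ∀ j, l ≤ capC V (PrC j)) {i : Fin 3} (hi : capC V (PrC i) = l)
    {z : Fin 3 × Bool} {A : Fin 3 × Bool → Bool} (h : Lv V z A) (hs : ¬ NSep A i) :
    z.1 = i ∧ (act (wh z A) V = V ∨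
      (TP l V ∧ ∃ e : ℤ, (e = 1 ∨ e = -1) ∧ act (wh z A) V = Ln V i e)) := by
  have hz : z.1 = i := Cross_self hO hc hi h hs
  refine ⟨hz, ?_⟩
  subst hz
  have h1 := Cross_rest hO hc hi h
  have e1 : z.1 + 1 ≠ z.1 := by generalize z.1 = i; revert i; decide
  have e2 : z.1 + 2 ≠ z.1 := by generalize z.1 = i; revert i; decide
  have e3 : z.1 + 1 ≠ z.1 + 2 := by generalize z.1 = i; revert i; decide
  have e4 : ∀ y : Fin 3, y = z.1 ∨ y = z.1 + 1 ∨ y = z.1 + 2 := by
    generalize z.1 = i; revert i; decide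
  have n1 := h1.2 _ e1
  have n2 := h1.2 _ e2
  rcases Cross_form V n1 n2 with h2 | h2
  · exact Or.inl h2
  · rcases Cross_shape V n1 n2 with h3 | h3 | h3
    · exact Or.inl h3
    · exact Or.inr ⟨Cross_TP hO hc hm hi h e4 e1 e2 e3.symm h3, h2⟩
    · refine Or.inr ⟨Cross_TP hO hc hm hi h (k := z.1 + 1) ?_ e2 e1 e3 h3, h2⟩
      intro y
      rcases e4 y with h | h | h
      · exact Or.inl h
      · exact Or.inr (Or.inr h)
      · exact Or.inr (Or.inl h)

theorem Cross_nocross {V : CC} {i : Fin 3} {z : Fin 3 × Bool} {A : Fin 3 × Bool → Bool}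
    (h : Lv V z A) (hs : NSep A i) (ha : A (i, true) = false) :
    capC (act (wh z A) V) (PrC i) = capC V (PrC i) := by
  obtain ⟨hz1, hz2, hcap⟩ := h
  have hx : ∀ x : Fin 3 × Bool, x.1 = i → A x = false := by
    intro x hx
    rw [Cross_nsep hs x hx, ha]
  have hzi : z.1 ≠ i := by
    intro hz
    rw [hx z hz] at hz1
    exact absurd hz1 (by decide)
  apply capC_wh_disj V z A (PrC i) hz1 hz2
  · simp [PrC, hzi]
  · simp [PrC, hzi]
  · intro x hAx
    have : x.1 ≠ i := by
      intro h
      rw [hx x h] at hAx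
      exact absurd hAx (by decide)
    simp [PrC, this]

theorem nocross {V : CC} {i : Fin 3} {z : Fin 3 × Bool} {A : Fin 3 × Bool → Bool} (h : Lv V z A)
    (hs : NSep A i) : capC (act (wh z A) V) (PrC i) = capC V (PrC i) := by
  cases ha : A (i, true)
  · exact Cross_nocross h hs ha
  · obtain ⟨h1, h2⟩ := Lv_compl h
    rw [← h2]
    apply Cross_nocross h1
    · unfold NSep at hs ⊢
      simp only
      rw [hs]
    · simp [ha]

theorem ln_move {V : CC} {l : ℕ} (hO : OMin V) (hc : ∀ j, l < cnt V j)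
    (hm : ∀ j, l ≤ capC V (PrC j)) {i : Fin 3} (hi : ∀ j, j ≠ i → capC V (PrC j) = l)
    {z : Fin 3 × Bool} {A : Fin 3 × Bool → Bool} (h : Lv V z A) :
    act (wh z A) V = V ∨ ∃ e : ℤ, (e = 1 ∨ e = -1) ∧ act (wh z A) V = Ln V z.1 e ∧
      (z.1 = i ∨ TP l V) := by
  by_cases hz : z.1 = i
  · have e1 : z.1 + 1 ≠ z.1 := by generalize z.1 = i; revert i; decide
    have e2 : z.1 + 2 ≠ z.1 := by generalize z.1 = i; revert i; decide
    have hn : ∀ j, j ≠ z.1 → NSep A j := by
      intro j hj
      by_contra hs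
      exact hj (Cross_self hO hc (hi j (hz ▸ hj)) h hs).symm
    rcases Cross_form V (hn _ e1) (hn _ e2) with h2 | ⟨e, h2, h3⟩
    · exact Or.inl h2
    · exact Or.inr ⟨e, h2, h3, Or.inl hz⟩
  · have hs : ¬ NSep A z.1 := by
      intro hs
      obtain ⟨hz1, hz2, -⟩ := h
      have := Cross_nsep hs z rfl
      have h' := Cross_nsep hs (bar z) rfl
      rw [hz1] at this
      rw [hz2, ← this] at h'
      exact absurd h' (by decide)
    rcases cross_pair hO hc hm (hi _ hz) h hs with ⟨-, h1 | ⟨h1, e, h2, h3⟩⟩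
    · exact Or.inl h1
    · exact Or.inr ⟨e, h2, h3, Or.inr h1⟩

end Pool.Agent.Sims
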