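import Mathlib

/-!
# Module `Red` : a middle part of a reduced word is reduced
-/

namespace Pool.Agent.Sims

theorem red_mid {α : Type*} {l L : List (α × Bool)} (h : FreeGroup.IsReduced L)
    (hs : ∃ s t, s ++ l ++ t = L) : FreeGroup.IsReduced l := by
  obtain ⟨s, t, rfl⟩ := hs
  unfold FreeGroup.IsReduced at h ⊢
  exact (List.isChain_append.1 (List.isChain_append.1 h).1).2.1

end Pool.Agent.Sims
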