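import Pool.Agent.Sims.Defs
import Pool.Agent.Sims.Red

/-!
# Module `Cyc` : conjugacy classes of a free group = cyclically reduced words up to rotation

Mathlib has `FreeGroup.reduceCyclically`, `reduceCyclically.conj_conjugator_reduceCyclically`
(`L = conjugator L ++ reduceCyclically L ++ invRev (conjugator L)`).

Proof of `rotated_of_cls_eq`: it is enough to show
`reduceCyclically (x * g * x⁻¹).toWord ~r reduceCyclically g.toWord` for a letter `x`
(then induct on a word of the conjugating element, and use `reduceCyclically w = w` for `w` CR).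
For a reduced word `L` write `L = C ++ R ++ C⁻¹`, `R` cyclically reduced.  If `C ≠ []` then
`x L x⁻¹` reduces to `(xC) R (xC)⁻¹` (reduced), or, if `C` starts with `x⁻¹`, to `C' R C'⁻¹` with
`C = x⁻¹ C'`: the same `R`.  If `C = []`: `x R x⁻¹` with `R = r₁…r_k` cyclically reduced: reduced
(same `R`), or `r₁ = x⁻¹` (then `x R x⁻¹ = r₂…r_k x⁻¹` is a rotation of `R`, cyclically reduced), or
`r_k = x` (then it is `x r₁ … r_{k-1}`); both cannot happen as `R` is cyclically reduced, `k ≥ 2`;
for `k = 1`, `R = x^{±1}` is fixed.
`cycLen_cls`: for any `g` in the class, `g.toWord = C ++ R ++ C⁻¹`, `R ~r w`, so `|g| ≥ |R| = |w|`.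
Difficulty 2 (about 150-250 lines).
-/

namespace Pool.Agent.Sims

open FreeGroup (of)

variable {α : Type*} [DecidableEq α]

set_option linter.unusedSectionVars false

theorem cls_append_comm (u v : List (α × Bool)) : cls (u ++ v) = cls (v ++ u) := by
  unfold cls
  rw [ConjClasses.mk_eq_mk_iff_isConj, isConj_iff]
  refine ⟨(FreeGroup.mk u)⁻¹, ?_⟩
  rw [← FreeGroup.mul_mk, ← FreeGroup.mul_mk]
  group

theorem Cyc_rot_split {β : Type*} {u v : List β} (h : u ~r v) :
    ∃ p q : List β, u = p ++ q ∧ v = q ++ p := by
  obtain ⟨n, hn, rfl⟩ := List.isRotated_iff_mod.1 h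
  refine ⟨u.take n, u.drop n, (List.take_append_drop n u).symm, ?_⟩
  exact List.rotate_eq_drop_append_take hn

theorem cls_of_rotated {u v : List (α × Bool)} (h : u ~r v) : cls u = cls v := by
  obtain ⟨p, q, rfl, rfl⟩ := Cyc_rot_split h
  exact cls_append_comm p q

theorem CR_of_rotated {u v : List (α × Bool)} (h : u ~r v) (hu : CR u) : CR v := by
  obtain ⟨p, q, rfl, rfl⟩ := Cyc_rot_split h
  rcases List.eq_nil_or_concat p with hp | ⟨p', a, hp⟩
  · subst hp
    simpa using hu
  rcases List.eq_nil_or_concat q with hq | ⟨q', b, hq⟩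
  · subst hq
    simpa using hu
  obtain ⟨h1, h2⟩ := hu
  unfold FreeGroup.IsReduced at h1
  rw [List.isChain_append] at h1
  obtain ⟨h3, h4, h5⟩ := h1
  have hpne : p ≠ [] := by rw [hp]; simp
  have hqne : q ≠ [] := by rw [hq]; simp
  have e1 : (p ++ q).getLast? = q.getLast? := List.getLast?_append_of_ne_nil _ hqne
  have e2 : (p ++ q).head? = p.head? := List.head?_append_of_ne_nil _ hpne
  have e3 : (q ++ p).getLast? = p.getLast? := List.getLast?_append_of_ne_nil _ hpne
  have e4 : (q ++ p).head? = q.head? := List.head?_append_of_ne_nil _ hqne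
  rw [e1, e2] at h2
  refine ⟨?_, ?_⟩
  · unfold FreeGroup.IsReduced
    rw [List.isChain_append]
    exact ⟨h4, h3, h2⟩
  · rw [e3, e4]
    exact h5

theorem Cyc_split (g : FreeGroup α) : ∃ C R : List (α × Bool), CR R ∧
    g.toWord = C ++ R ++ FreeGroup.invRev C := by
  refine ⟨FreeGroup.reduceCyclically.conjugator g.toWord, FreeGroup.reduceCyclically g.toWord,
    FreeGroup.reduceCyclically.isCyclicallyReduced FreeGroup.isReduced_toWord, ?_⟩
  exact (FreeGroup.reduceCyclically.conj_conjugator_reduceCyclically _).symm

theorem Cyc_cls_split {g : FreeGroup α} {C R : List (α × Bool)}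
    (h : g.toWord = C ++ R ++ FreeGroup.invRev C) : cls R = ConjClasses.mk g := by
  unfold cls
  rw [ConjClasses.mk_eq_mk_iff_isConj, isConj_iff]
  refine ⟨FreeGroup.mk C, ?_⟩
  rw [← FreeGroup.mk_toWord (x := g), h, FreeGroup.inv_mk, FreeGroup.mul_mk, FreeGroup.mul_mk]

theorem exists_CR (c : ConjClasses (FreeGroup α)) : ∃ w : List (α × Bool), CR w ∧ cls w = c := by
  induction c using Quotient.inductionOn with
  | h g =>
    obtain ⟨C, R, hR, h⟩ := Cyc_split g
    exact ⟨R, hR, Cyc_cls_split h⟩

theorem Cyc_invRev_reduced {l : List (α × Bool)} (h : FreeGroup.IsReduced l) :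
    FreeGroup.IsReduced (FreeGroup.invRev l) := by
  apply FreeGroup.IsReduced.of_reduce_eq
  rw [FreeGroup.reduce_invRev, h.reduce_eq]

theorem Cyc_aux (l : List (α × Bool)) : ∀ u v : List (α × Bool), FreeGroup.IsReduced l → CR u →
    CR v → FreeGroup.mk v = FreeGroup.mk l * FreeGroup.mk u * (FreeGroup.mk l)⁻¹ → u ~r v := by
  induction l using List.reverseRecOn with
  | nil =>
    intro u v _ hu hv h
    have h1 : FreeGroup.mk v = FreeGroup.mk u := by
      rw [h, ← FreeGroup.one_eq_mk]
      group
    have h2 := FreeGroup.reduce.sound h1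
    rw [hu.1.reduce_eq, hv.1.reduce_eq] at h2
    rw [h2]
  | append_singleton l x ih =>
    intro u v hl hu hv h
    have hl' : FreeGroup.IsReduced l := red_mid hl ⟨[], [x], by simp⟩
    have hx : FreeGroup.mk [bar x] = (FreeGroup.mk [x])⁻¹ := lett_bar x
    rcases List.eq_nil_or_concat u with rfl | ⟨u₁, e, hue⟩
    · have h1 : FreeGroup.mk v = 1 := by
        rw [h, ← FreeGroup.one_eq_mk]
        group
      rw [FreeGroup.one_eq_mk] at h1
      have h2 := FreeGroup.reduce.sound h1
      rw [hv.1.reduce_eq, FreeGroup.reduce_nil] at h2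
      rw [h2]
    · obtain ⟨b, u₂, hub⟩ : ∃ b u₂, u = b :: u₂ := by
        cases u with
        | nil => simp at hue
        | cons b u₂ => exact ⟨b, u₂, rfl⟩
      by_cases hb : b = bar x
      · -- the first letter cancels
        subst hb
        have hrot : u ~r u₂ ++ [bar x] := by
          rw [hub]
          exact List.IsRotated.cons_append_singleton
        refine hrot.trans (ih _ _ hl' (CR_of_rotated hrot hu) hv ?_)
        have e1 : FreeGroup.mk u = FreeGroup.mk [bar x] * FreeGroup.mk u₂ := by
          rw [hub, FreeGroup.mul_mk]; rfl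
        rw [h, e1, ← FreeGroup.mul_mk, ← FreeGroup.mul_mk, hx]
        group
      by_cases he : e = x
      · subst he
        have hue' : u = u₁ ++ [e] := by rw [hue]; simp
        have hrot : u ~r e :: u₁ := by
          rw [hue']
          exact List.IsRotated.cons_append_singleton.symm
        refine hrot.trans (ih _ _ hl' (CR_of_rotated hrot hu) hv ?_)
        have e1 : FreeGroup.mk (e :: u₁) = FreeGroup.mk [e] * FreeGroup.mk u₁ := by
          rw [FreeGroup.mul_mk]; rfl
        rw [h, e1, hue', ← FreeGroup.mul_mk, ← FreeGroup.mul_mk]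
        group
      · -- no cancellation
        exfalso
        set m := l ++ [x] with hm
        have hmne : m ≠ [] := by rw [hm]; simp
        have hune : u ≠ [] := by rw [hub]; simp
        have hue' : u = u₁ ++ [e] := by rw [hue]; simp
        have hlast : m.getLast? = some x := by rw [hm]; simp
        have hW : FreeGroup.IsReduced (m ++ (u ++ FreeGroup.invRev m)) := by
          unfold FreeGroup.IsReduced
          refine List.isChain_append.2 ⟨hl, List.isChain_append.2
            ⟨hu.1, Cyc_invRev_reduced hl, ?_⟩, ?_⟩
          · intro p hp q hq h3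
            have e1 : u.getLast? = some e := by rw [hue']; simp
            rw [e1] at hp
            have e2 : (FreeGroup.invRev m).head? = some (bar x) := by
              rw [hm, FreeGroup.invRev_append]
              simp [FreeGroup.invRev, bar]
            rw [e2] at hq
            simp only [Option.mem_def, Option.some.injEq] at hp hq
            subst hp hq
            by_contra h4
            apply he
            have h5 : e.2 = x.2 := by
              simp only [bar_snd] at h4
              revert h4
              cases e.2 <;> cases x.2 <;> simp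
            exact Prod.ext h3 h5
          · intro p hp q hq h3
            rw [hlast] at hp
            have e2 : (u ++ FreeGroup.invRev m).head? = some b := by rw [hub]; simp
            rw [e2] at hq
            simp only [Option.mem_def, Option.some.injEq] at hp hq
            subst hp hq
            by_contra h4
            apply hb
            have h5 : b.2 = (bar x).2 := by
              simp only [bar_snd]
              revert h4
              cases x.2 <;> cases b.2 <;> simp
            have h6 : b.1 = (bar x).1 := h3.symm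
            exact Prod.ext h6 h5
        have h1 : FreeGroup.mk v = FreeGroup.mk (m ++ (u ++ FreeGroup.invRev m)) := by
          rw [h, FreeGroup.inv_mk, FreeGroup.mul_mk, FreeGroup.mul_mk, List.append_assoc]
        have h2 := FreeGroup.reduce.sound h1
        rw [hv.1.reduce_eq, hW.reduce_eq] at h2
        obtain ⟨y, m', hm'⟩ : ∃ y m', m = y :: m' := by
          cases hmm : m with
          | nil => exact absurd hmm hmne
          | cons y m' => exact ⟨y, m', rfl⟩
        have h3 := hv.2 (bar y) (by
          have e3 : v = (y :: m' ++ (u ++ FreeGroup.invRev m')) ++ [bar y] := by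
            rw [h2, hm', FreeGroup.invRev_cons]
            simp [FreeGroup.invRev, bar]
          rw [e3, List.getLast?_concat]
          rfl) y (by
          rw [h2, hm']
          simp) rfl
        simp at h3

theorem rotated_of_cls_eq {u v : List (α × Bool)} (hu : CR u) (hv : CR v) (h : cls u = cls v) :
    u ~r v := by
  unfold cls at h
  rw [ConjClasses.mk_eq_mk_iff_isConj, isConj_iff] at h
  obtain ⟨g, hg⟩ := h
  refine Cyc_aux g.toWord u v FreeGroup.isReduced_toWord hu hv ?_
  rw [FreeGroup.mk_toWord, hg]

theorem cycLen_cls {w : List (α × Bool)} (hw : CR w) : cycLen (cls w) = w.length := by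
  apply le_antisymm
  · apply Nat.sInf_le
    refine ⟨FreeGroup.mk w, rfl, ?_⟩
    rw [FreeGroup.norm, FreeGroup.toWord_mk, hw.1.reduce_eq]
  · apply le_csInf
    · exact ⟨_, FreeGroup.mk w, rfl, rfl⟩
    · rintro n ⟨g, hg, rfl⟩
      obtain ⟨C, R, hR, h⟩ := Cyc_split g
      have h1 : cls R = cls w := by rw [Cyc_cls_split h, hg]
      have h2 := (rotated_of_cls_eq hR hw h1).perm.length_eq
      rw [FreeGroup.norm, h, ← h2]
      simp only [List.length_append]
      omega

theorem rep_CR (c : ConjClasses (FreeGroup α)) : CR (rep c) := by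
  unfold rep
  rw [dif_pos (exists_CR c)]
  exact (exists_CR c).choose_spec.1

theorem cls_rep (c : ConjClasses (FreeGroup α)) : cls (rep c) = c := by
  unfold rep
  rw [dif_pos (exists_CR c)]
  exact (exists_CR c).choose_spec.2

theorem rep_rotated {w : List (α × Bool)} (hw : CR w) : rep (cls w) ~r w :=
  rotated_of_cls_eq (rep_CR _) hw (cls_rep _)

theorem cycLen_le_norm (g : FreeGroup α) : cycLen (ConjClasses.mk g) ≤ g.norm :=
  Nat.sInf_le ⟨g, rfl, rfl⟩

/-- `|g|` equals the cyclic length iff the reduced word of `g` is cyclically reduced. -/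
theorem CR_iff_norm (g : FreeGroup α) : CR g.toWord ↔ g.norm = cycLen (ConjClasses.mk g) := by
  constructor
  · intro h
    have h1 := cycLen_cls h
    unfold cls at h1
    rw [FreeGroup.mk_toWord] at h1
    rw [h1]
    rfl
  · intro h
    obtain ⟨C, R, hR, hs⟩ := Cyc_split g
    have h1 := cycLen_cls hR
    rw [Cyc_cls_split hs, ← h, FreeGroup.norm, hs] at h1
    simp only [List.length_append, FreeGroup.invRev_length] at h1
    have h2 : C = [] := List.eq_nil_of_length_eq_zero (by omega)
    rw [hs, h2]
    simpa using hR

theorem act_mk (φ : FreeGroup α ≃* FreeGroup α) (g : FreeGroup α) :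
    act φ (ConjClasses.mk g) = ConjClasses.mk (φ g) := rfl

theorem act_act (φ ψ : FreeGroup α ≃* FreeGroup α) (c : ConjClasses (FreeGroup α)) :
    act φ (act ψ c) = act (ψ.trans φ) c := by
  induction c using Quotient.inductionOn with
  | h g => rfl

theorem act_refl (c : ConjClasses (FreeGroup α)) : act (MulEquiv.refl _) c = c := by
  induction c using Quotient.inductionOn with
  | h g => rfl

/-- automorphisms that differ by an inner one act in the same way -/
theorem act_conj (φ ψ : FreeGroup α ≃* FreeGroup α) (g : FreeGroup α)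
    (h : ∀ i, φ (of i) = g * ψ (of i) * g⁻¹) (c : ConjClasses (FreeGroup α)) :
    act φ c = act ψ c := by
  have h1 : φ.toMonoidHom = (MulAut.conj g).toMonoidHom.comp ψ.toMonoidHom := by
    apply FreeGroup.ext_hom
    intro i
    simpa using h i
  induction c using Quotient.inductionOn with
  | h x =>
    change ConjClasses.mk (φ x) = ConjClasses.mk (ψ x)
    rw [ConjClasses.mk_eq_mk_iff_isConj]
    apply IsConj.symm
    rw [isConj_iff]
    refine ⟨g, ?_⟩
    have h2 := DFunLike.congr_fun h1 x
    simpa using h2.symm

end Pool.Agent.Sims
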