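import Mathlib

/-!
# Sims' problem (MP_217908_al): definitions

Letters of the free group on `α` are pairs `(i, true) = x_i`, `(i, false) = x_i⁻¹`
(as in Mathlib).  Cyclic words are conjugacy classes.

* `cls w`       : the conjugacy class of the word `w`
* `CR w`        : `w` is cyclically reduced
* `cycLen c`    : cyclic length (= minimal reduced length over the class)
* `act φ c`     : the action of an automorphism on conjugacy classes
* `lin`, `cyc`  : sums over the cyclically consecutive pairs of a list
* `cap w A`     : capacity of the cut `A` in the Whitehead graph of the cyclic word `w`: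
                  number of `i` with exactly one of `w_i`, `w_{i+1}⁻¹` in `A`
* `cntL i w`    : number of letters `x_i^{±1}` in `w`
* `rep c`       : a chosen cyclically reduced word in the class `c`
* `cnt c i`, `capC c A` : the same for classes
* `pot j p`     : the automorphism `x_j ↦ x_j`, `x ↦ x_j^{-p(x⁻¹)} x x_j^{p(x)}` (letters `x ≠ x_j^{±1}`)
* `wh z A`      : the Whitehead automorphism `(A, z)`: letters `x ≠ z^{±1}` go to
                  `z^{-[x⁻¹∈A]} x z^{[x∈A]}`
-/

namespace Pool.Agent.Sims

variable {α : Type*} [DecidableEq α]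

open FreeGroup (of)

set_option linter.unusedSectionVars false
set_option linter.unusedVariables false

/-- the inverse letter -/
def bar (x : α × Bool) : α × Bool := (x.1, !x.2)

@[simp] theorem bar_bar (x : α × Bool) : bar (bar x) = x := by simp [bar]
@[simp] theorem bar_fst (x : α × Bool) : (bar x).1 = x.1 := rfl
@[simp] theorem bar_snd (x : α × Bool) : (bar x).2 = !x.2 := rfl
theorem bar_ne (x : α × Bool) : bar x ≠ x := by
  intro h; have := congrArg Prod.snd h; simp [bar] at this
theorem bar_inj {x y : α × Bool} : bar x = bar y ↔ x = y := by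
  constructor
  · intro h; rw [← bar_bar x, h, bar_bar]
  · rintro rfl; rfl

/-- the conjugacy class of a word -/
def cls (w : List (α × Bool)) : ConjClasses (FreeGroup α) := ConjClasses.mk (FreeGroup.mk w)

/-- cyclically reduced -/
abbrev CR (w : List (α × Bool)) : Prop := FreeGroup.IsCyclicallyReduced w

/-- cyclic length of a conjugacy class -/
noncomputable def cycLen (c : ConjClasses (FreeGroup α)) : ℕ :=
  sInf {n | ∃ g : FreeGroup α, ConjClasses.mk g = c ∧ g.norm = n}

/-- action of automorphisms on conjugacy classes -/
def act (φ : FreeGroup α ≃* FreeGroup α) (c : ConjClasses (FreeGroup α)) :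
    ConjClasses (FreeGroup α) := ConjClasses.map φ.toMonoidHom c

/-- sum of `f` over consecutive pairs of the path `x, l, z` -/
def lin {β : Type*} (f : β → β → ℕ) : β → List β → β → ℕ
  | x, [], z => f x z
  | x, (y :: l), z => f x y + lin f y l z

/-- sum of `f` over the cyclically consecutive pairs of a list -/
def cyc {β : Type*} (f : β → β → ℕ) : List β → ℕ
  | [] => 0
  | (x :: l) => lin f x l x

/-- capacity of a cut in the Whitehead graph of a cyclic word -/
def cap (w : List (α × Bool)) (A : α × Bool → Bool) : ℕ :=
  cyc (fun x y => if A x = A (bar y) then 0 else 1) w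

/-- number of occurrences of the generator `i` -/
def cntL (w : List (α × Bool)) (i : α) : ℕ := w.countP (fun x => decide (x.1 = i))

/-- the automorphism with multiplier `x_j` and potential `p` -/
def potFun (j : α) (p : α × Bool → ℤ) : FreeGroup α →* FreeGroup α :=
  FreeGroup.lift (fun i => if i = j then FreeGroup.of j else
    (FreeGroup.of j) ^ (-(p (i, false))) * FreeGroup.of i * (FreeGroup.of j) ^ (p (i, true)))

theorem potFun_of_self (j : α) (p : α × Bool → ℤ) : potFun j p (of j) = of j := by
  simp [potFun]

theorem potFun_of_ne {j i : α} (p : α × Bool → ℤ) (h : i ≠ j) :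
    potFun j p (of i) = (of j) ^ (-(p (i, false))) * of i * (of j) ^ (p (i, true)) := by
  simp [potFun, h]

theorem potFun_comp (j : α) (p q : α × Bool → ℤ) :
    (potFun j p).comp (potFun j q) = potFun j (p + q) := by
  ext i
  by_cases h : i = j
  · subst h; simp [potFun_of_self]
  · rw [MonoidHom.comp_apply, potFun_of_ne q h, potFun_of_ne _ h]
    rw [MonoidHom.map_mul, MonoidHom.map_mul, MonoidHom.map_zpow, MonoidHom.map_zpow,
      potFun_of_self, potFun_of_ne p h]
    simp only [Pi.add_apply]
    group

theorem potFun_zero (j : α) : potFun j (0 : α × Bool → ℤ) = MonoidHom.id _ := by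
  ext i
  by_cases h : i = j
  · subst h; simp [potFun_of_self]
  · rw [potFun_of_ne _ h]; simp

/-- `pot j p`: multiplier `x_j`, potential `p` -/
def pot (j : α) (p : α × Bool → ℤ) : FreeGroup α ≃* FreeGroup α where
  toFun := potFun j p
  invFun := potFun j (-p)
  left_inv g := by
    have := DFunLike.congr_fun (potFun_comp j (-p) p) g
    simpa [potFun_zero] using this
  right_inv g := by
    have := DFunLike.congr_fun (potFun_comp j p (-p)) g
    simpa [potFun_zero] using this
  map_mul' := map_mul _

/-- sign of a letter as an integer -/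
def sgn (z : α × Bool) : ℤ := if z.2 then 1 else -1

/-- potential of a Whitehead automorphism -/
def whp (z : α × Bool) (A : α × Bool → Bool) : α × Bool → ℤ :=
  fun x => if A x then sgn z else 0

/-- the Whitehead automorphism `(A, z)` -/
def wh (z : α × Bool) (A : α × Bool → Bool) : FreeGroup α ≃* FreeGroup α := pot z.1 (whp z A)

/-- signed permutation -/
structure SPerm (α : Type*) where
  /-- permutation of the generators -/
  perm : Equiv.Perm α
  /-- signs -/
  sign : α → Bool

/-- value of a signed permutation on a letter: `x_i^ε ↦ x_{σ i}^{± ε}` -/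
def SPerm.letter (σ : SPerm α) (x : α × Bool) : α × Bool :=
  (σ.perm x.1, if σ.sign x.1 then x.2 else !x.2)

/-- inverse signed permutation -/
def SPerm.inv (σ : SPerm α) : SPerm α := ⟨σ.perm.symm, fun i => σ.sign (σ.perm.symm i)⟩

/-- element of the free group given by a letter -/
def lett (x : α × Bool) : FreeGroup α := FreeGroup.mk [x]

theorem lett_true (i : α) : lett (i, true) = of i := rfl
theorem lett_bar (x : α × Bool) : lett (bar x) = (lett x)⁻¹ := by
  simp [lett, FreeGroup.inv_mk, FreeGroup.invRev, bar]
theorem lett_false (i : α) : lett (i, false) = (of i)⁻¹ := by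
  have := lett_bar (i, true)
  simpa [bar, lett_true] using this

theorem SPerm.letter_bar (σ : SPerm α) (x : α × Bool) : σ.letter (bar x) = bar (σ.letter x) := by
  rcases x with ⟨i, b⟩
  by_cases h : σ.sign i <;> simp [SPerm.letter, bar, h]

theorem SPerm.inv_letter (σ : SPerm α) (x : α × Bool) : σ.inv.letter (σ.letter x) = x := by
  rcases x with ⟨i, b⟩
  simp only [SPerm.letter, SPerm.inv, Equiv.symm_apply_apply]
  by_cases h : σ.sign i <;> simp [h]

theorem SPerm.letter_inv (σ : SPerm α) (x : α × Bool) : σ.letter (σ.inv.letter x) = x := by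
  rcases x with ⟨i, b⟩
  simp only [SPerm.letter, SPerm.inv, Equiv.apply_symm_apply]
  by_cases h : σ.sign (σ.perm.symm i) <;> simp [h]

/-- endomorphism of a signed permutation -/
def SPerm.hom (σ : SPerm α) : FreeGroup α →* FreeGroup α :=
  FreeGroup.lift (fun i => lett (σ.letter (i, true)))

theorem SPerm.hom_lett (σ : SPerm α) (x : α × Bool) : σ.hom (lett x) = lett (σ.letter x) := by
  rcases x with ⟨i, b⟩
  cases b with
  | true => rw [lett_true, SPerm.hom, FreeGroup.lift_apply_of]
  | false =>
    have h1 : (i, false) = bar (i, true) := rfl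
    rw [h1, lett_bar, map_inv, SPerm.letter_bar, lett_bar, lett_true, SPerm.hom, FreeGroup.lift_apply_of]

theorem SPerm.hom_inv_hom (σ : SPerm α) (g : FreeGroup α) : σ.inv.hom (σ.hom g) = g := by
  have : (σ.inv.hom).comp σ.hom = MonoidHom.id _ := by
    ext i
    rw [MonoidHom.comp_apply, ← lett_true, SPerm.hom_lett, SPerm.hom_lett, SPerm.inv_letter]
    rfl
  exact DFunLike.congr_fun this g

theorem SPerm.hom_hom_inv (σ : SPerm α) (g : FreeGroup α) : σ.hom (σ.inv.hom g) = g := by
  have : (σ.hom).comp σ.inv.hom = MonoidHom.id _ := by
    ext i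
    rw [MonoidHom.comp_apply, ← lett_true, SPerm.hom_lett, SPerm.hom_lett, SPerm.letter_inv]
    rfl
  exact DFunLike.congr_fun this g

/-- the automorphism of a signed permutation -/
def SPerm.aut (σ : SPerm α) : FreeGroup α ≃* FreeGroup α where
  toFun := σ.hom
  invFun := σ.inv.hom
  left_inv := σ.hom_inv_hom
  right_inv := σ.hom_hom_inv
  map_mul' := map_mul _

/-- A chosen cyclically reduced word in the conjugacy class `c` (see `rep_CR`, `cls_rep`). -/
noncomputable def rep (c : ConjClasses (FreeGroup α)) : List (α × Bool) :=
  open Classical in if h : ∃ w : List (α × Bool), CR w ∧ cls w = c then h.choose else []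

/-- number of letters `x_i^{±1}` in a cyclically reduced word of the class `c` -/
noncomputable def cnt (c : ConjClasses (FreeGroup α)) (i : α) : ℕ := cntL (rep c) i

/-- capacity of the cut `A` in the Whitehead graph of the class `c` -/
noncomputable def capC (c : ConjClasses (FreeGroup α)) (A : α × Bool → Bool) : ℕ := cap (rep c) A

/-- `c` has minimal cyclic length in its automorphic orbit -/
def OMin (c : ConjClasses (FreeGroup α)) : Prop :=
  ∀ φ : FreeGroup α ≃* FreeGroup α, cycLen c ≤ cycLen (act φ c)

/-- elementary step: signed permutation or Whitehead automorphism of the second kind -/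
def IsStep (c d : ConjClasses (FreeGroup α)) : Prop :=
  (∃ σ : SPerm α, d = act σ.aut c) ∨
    ∃ (z : α × Bool) (A : α × Bool → Bool), A z = true ∧ A (bar z) = false ∧ d = act (wh z A) c

/-- the automorphic orbit at the length of `c` (Sims' set `A(u)`) -/
def orb (c : ConjClasses (FreeGroup α)) : Set (ConjClasses (FreeGroup α)) :=
  {d | (∃ φ : FreeGroup α ≃* FreeGroup α, d = act φ c) ∧ cycLen d = cycLen c}

end Pool.Agent.Sims
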