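import Pool.Agent.Sims.TriDefs

/-!
# Module `EdgeM` : edges of the Whitehead graph

* `capC_union`: for every pair of letters `x, y` with `u = [A x], u' = [A ȳ], v = [B x], v' = [B ȳ]`
  (`u v = 0`, `u' v' = 0`): `[u ∨ v ≠ u' ∨ v'] + 2 [u v' ∨ v u'] = [u ≠ u'] + [v ≠ v']` (finite check); sum over the
  cyclic word (`cyc_add`).
* `edgS_union`: similarly.
* `edgS_pos`: a cyclic sum is positive iff some term is: there is a cyclically consecutive pair `(x, y)` of
  letters of `rep c` with `{x, ȳ} = {z, y'}`; rotate the word so that it starts with this pair.  (The word has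
  length at least 2, because the pair consists of letters of different generators.)
* `cnt_ne_one`: let `cnt c i = 1`, `‖c‖ ≥ 2`.  Rotate a representing word to `z :: w`, `z.1 = i`, `w ≠ []` has no
  letters `x_i^{±1}`; let `y` be the inverse of the first letter of `w`.  Then `edgS c {z} {y} = 1 ≥ 1` and
  `capC {z, y} = 1 + n_y - 2 * 1 = n_y - 1` (`capC_union`, `capC_single`), and `{z,y}` separates `y` from `y⁻¹`:
  contradiction to `OMin.le_cap`.
* `cap_pair_zero`: `A = {x | x.1 = i}`; the capacity is the number of consecutive pairs with exactly one letter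
  of the generator `i`.  If it is `0` then all or no letters of the word are of this generator.
Difficulty 2.
-/

namespace Pool.Agent.Sims

open FreeGroup (of)

section
variable {α : Type*} [DecidableEq α]

theorem capC_union (c : ConjClasses (FreeGroup α)) (A B : α × Bool → Bool)
    (h : ∀ x, A x = true → B x = false) :
    capC c (fun x => A x || B x) + 2 * edgS c A B = capC c A + capC c B := by
  unfold capC cap edgS
  rw [two_mul, ← cyc_add, ← cyc_add, ← cyc_add]
  congr 1
  funext x y
  beta_reduce
  have h1 := h x
  have h2 := h (bar y)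
  generalize A x = a1 at *
  generalize A (bar y) = a2 at *
  generalize B x = b1 at *
  generalize B (bar y) = b2 at *
  clear h
  revert a1 a2 b1 b2
  decide

theorem edgS_union (c : ConjClasses (FreeGroup α)) (A B C : α × Bool → Bool)
    (h : ∀ x, A x = true → B x = false) (h' : ∀ x, A x = true → C x = false)
    (h'' : ∀ x, B x = true → C x = false) :
    edgS c A (fun x => B x || C x) = edgS c A B + edgS c A C := by
  unfold edgS
  rw [← cyc_add]
  congr 1
  funext x y
  beta_reduce
  have h1 := h x
  have h2 := h (bar y)
  have h3 := h' x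
  have h4 := h' (bar y)
  have h5 := h'' x
  have h6 := h'' (bar y)
  generalize A x = a1 at *
  generalize A (bar y) = a2 at *
  generalize B x = b1 at *
  generalize B (bar y) = b2 at *
  generalize C x = c1 at *
  generalize C (bar y) = c2 at *
  clear h h' h''
  revert a1 a2 b1 b2 c1 c2
  decide

theorem EdgeM_lin_pos {β : Type*} (f : β → β → ℕ) (x : β) (l : List β) (z : β)
    (h : 0 < lin f x l z) :
    ∃ l1 u v l2, x :: (l ++ [z]) = l1 ++ u :: v :: l2 ∧ 0 < f u v := by
  induction l generalizing x with
  | nil => exact ⟨[], x, z, [], rfl, h⟩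
  | cons a l ih =>
    have h1 : 0 < f x a + lin f a l z := h
    rcases Nat.eq_zero_or_pos (f x a) with h2 | h2
    · obtain ⟨l1, u, v, l2, h3, h4⟩ := ih a (by omega)
      exact ⟨x :: l1, u, v, l2, congrArg (List.cons x) h3, h4⟩
    · exact ⟨[], x, a, l ++ [z], rfl, h2⟩

theorem EdgeM_cyc_pos {β : Type*} (f : β → β → ℕ) (w : List β) (h : 0 < cyc f w) :
    (∃ x, w = [x] ∧ 0 < f x x) ∨ ∃ x y l, w ~r x :: y :: l ∧ 0 < f x y := by
  cases w with
  | nil => exact absurd h (by simp [cyc])
  | cons x l =>
    obtain ⟨l1, u, v, l2, h1, h2⟩ := EdgeM_lin_pos f x l x h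
    rcases List.eq_nil_or_concat l2 with h3 | ⟨l3, e, h3⟩
    · subst h3
      have h4 : (x :: l) ++ [x] = (l1 ++ [u]) ++ [v] := by
        rw [List.cons_append, h1, List.append_assoc]; rfl
      have h5 := List.append_inj' h4 rfl
      obtain ⟨h6, h7⟩ := h5
      have h8 : x = v := by simpa using h7
      subst h8
      cases l1 with
      | nil =>
        left
        have h9 : x :: l = [u] := h6
        have h10 : x = u := (List.cons.inj h9).1
        subst h10
        exact ⟨x, h9, h2⟩
      | cons a l1 =>
        right
        have h9 : a = x := by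
          have := h6
          rw [List.cons_append] at this
          exact (List.cons.inj this).1.symm
        subst h9
        refine ⟨u, a, l1, ?_, h2⟩
        rw [h6]
        exact List.isRotated_append
    · rw [List.concat_eq_append] at h3
      subst h3
      right
      have h4 : (x :: l) ++ [x] = (l1 ++ u :: v :: l3) ++ [e] := by
        rw [List.cons_append, h1]; simp
      obtain ⟨h6, h7⟩ := List.append_inj' h4 rfl
      refine ⟨u, v, l3 ++ l1, ?_, h2⟩
      rw [h6]
      exact List.isRotated_append

theorem edgS_pos {c : ConjClasses (FreeGroup α)} {z y : α × Bool} (hzy : z.1 ≠ y.1)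
    (h : 0 < edgS c (sgl z) (sgl y)) :
    ∃ l : List (α × Bool), (CR (z :: bar y :: l) ∧ cls (z :: bar y :: l) = c) ∨
      (CR (y :: bar z :: l) ∧ cls (y :: bar z :: l) = c) := by
  unfold edgS at h
  rcases EdgeM_cyc_pos _ _ h with ⟨x, h1, h2⟩ | ⟨x, x', l, h1, h2⟩
  · exfalso
    split_ifs at h2 with h3
    · simp only [sgl, Bool.or_eq_true, Bool.and_eq_true, decide_eq_true_eq] at h3
      rcases h3 with ⟨rfl, h4⟩ | ⟨rfl, h4⟩
      · exact hzy (by rw [← h4, bar_fst])
      · exact hzy (by rw [← h4, bar_fst])
    · exact absurd h2 (lt_irrefl _)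
  · split_ifs at h2 with h3
    · simp only [sgl, Bool.or_eq_true, Bool.and_eq_true, decide_eq_true_eq] at h3
      have hcr := CR_of_rotated h1 (rep_CR c)
      have hcl : cls (x :: x' :: l) = c := by rw [← cls_of_rotated h1, cls_rep]
      rcases h3 with ⟨rfl, h4⟩ | ⟨rfl, h4⟩
      · have h5 : x' = bar y := by rw [← h4, bar_bar]
        subst h5
        exact ⟨l, Or.inl ⟨hcr, hcl⟩⟩
      · have h5 : x' = bar z := by rw [← h4, bar_bar]
        subst h5
        exact ⟨l, Or.inr ⟨hcr, hcl⟩⟩
    · exact absurd h2 (lt_irrefl _)

theorem capC_pr (c : ConjClasses (FreeGroup α)) {z y : α × Bool} (h : z ≠ y) :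
    capC c (pr z y) + 2 * edgS c (sgl z) (sgl y) = cnt c z.1 + cnt c y.1 := by
  have h1 := capC_union c (sgl z) (sgl y) (by
    intro x hx
    simp only [sgl, decide_eq_true_eq] at hx
    simp only [sgl, decide_eq_false_iff_not]
    rw [hx]
    exact h)
  have h2 := capC_single c z
  have h3 := capC_single c y
  have h4 : capC c (sgl z) = cnt c z.1 := h2
  have h5 : capC c (sgl y) = cnt c y.1 := h3
  rw [h4, h5] at h1
  exact h1

theorem EdgeM_lin_zero (i : α) (x : α × Bool) (l : List (α × Bool)) (z : α × Bool)
    (h : lin (fun x y => if (decide (x.1 = i)) = (decide ((bar y).1 = i)) then 0 else 1) x l z = 0) :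
    ∀ y ∈ l, (y.1 = i ↔ x.1 = i) := by
  induction l generalizing x with
  | nil => intro y hy; exact absurd hy (by simp)
  | cons a l ih =>
    have h1 : (if (decide (x.1 = i)) = (decide ((bar a).1 = i)) then 0 else 1) +
      lin (fun x y => if (decide (x.1 = i)) = (decide ((bar y).1 = i)) then 0 else 1) a l z = 0 := h
    have h2 : (decide (x.1 = i)) = (decide ((bar a).1 = i)) := by
      by_contra h3
      rw [if_neg h3] at h1
      omega
    have h3 : x.1 = i ↔ a.1 = i := by
      rw [bar_fst] at h2
      exact decide_eq_decide.1 h2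
    have h4 := ih a (by omega)
    intro y hy
    rcases List.mem_cons.1 hy with rfl | hy
    · exact h3.symm
    · exact (h4 y hy).trans h3.symm

theorem cap_pair_zero (c : ConjClasses (FreeGroup α)) (i : α)
    (h : capC c (fun x => decide (x.1 = i)) = 0) : cnt c i = 0 ∨ ∀ j, j ≠ i → cnt c j = 0 := by
  unfold capC cap at h
  unfold cnt cntL
  generalize rep c = w at *
  cases w with
  | nil => left; rfl
  | cons x l =>
    have h1 := EdgeM_lin_zero i x l x h
    by_cases hx : x.1 = i
    · right
      intro j hj
      rw [List.countP_eq_zero]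
      intro y hy
      have h2 : y.1 = i := by
        rcases List.mem_cons.1 hy with rfl | hy
        · exact hx
        · exact (h1 y hy).2 hx
      simp only [decide_eq_true_eq]
      rw [h2]
      exact fun h => hj h.symm
    · left
      rw [List.countP_eq_zero]
      intro y hy
      simp only [decide_eq_true_eq]
      rcases List.mem_cons.1 hy with rfl | hy
      · exact hx
      · exact fun h => hx ((h1 y hy).1 h)

end

theorem cnt_ne_one {n : ℕ} {c : ConjClasses (FreeGroup (Fin n))} (h : OMin c)
    (h2 : 2 ≤ cycLen c) (i : Fin n) : cnt c i ≠ 1 := by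
  intro h1
  have h3 : 0 < (rep c).countP (fun x => decide (x.1 = i)) := by
    have : cntL (rep c) i = 1 := h1
    unfold cntL at this
    omega
  obtain ⟨z, hz, hzi⟩ := List.countP_pos_iff.1 h3
  have hzi' : z.1 = i := by simpa using hzi
  obtain ⟨s, t, hst⟩ := List.append_of_mem hz
  have hrot : rep c ~r z :: (t ++ s) := by
    rw [hst]
    exact List.isRotated_append
  rw [cycLen_eq_rep] at h2
  have hlen := hrot.perm.length_eq
  have hcnt : cntL (z :: (t ++ s)) i = 1 := by
    rw [← cntL_rotated hrot]
    exact h1
  generalize t ++ s = w at *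
  cases w with
  | nil =>
    simp only [List.length_cons, List.length_nil] at hlen
    omega
  | cons y' w =>
    unfold cntL at hcnt
    rw [List.countP_cons, List.countP_cons,
      if_pos (show (decide (z.1 = i)) = true from decide_eq_true hzi')] at hcnt
    have hy' : y'.1 ≠ i := by
      intro hy
      rw [if_pos (show (decide (y'.1 = i)) = true from decide_eq_true hy)] at hcnt
      omega
    have hed : 1 ≤ edgS c (sgl z) (sgl (bar y')) := by
      unfold edgS
      rw [cyc_rotated _ hrot]
      show 1 ≤ (if (sgl z z && sgl (bar y') (bar y')) || (sgl (bar y') z && sgl z (bar y')) then 1 else 0) + _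
      rw [if_pos (by simp [sgl])]
      omega
    have hzy : z ≠ bar y' := by
      intro h
      apply hy'
      rw [← hzi', h, bar_fst]
    have h5 := capC_pr c hzy
    have h6 := h.le_cap (bar y') (pr z (bar y')) (by simp [pr]) (by
      rw [bar_bar]
      have h7 : y' ≠ z := by
        intro h
        exact hy' (by rw [h, hzi'])
      have h8 : y' ≠ bar y' := fun h => bar_ne y' h.symm
      simp [pr, h7, h8])
    rw [hzi', h1] at h5
    omega

end Pool.Agent.Sims
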