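import Pool.Agent.Sims.EvLS

/-!
# Module `EvLS7` : at most seven nontrivial level `z`-cuts

Notation: a member of `LS V z` is `{z} ∪ X`, `X` a nonempty proper subset of the four letters `U` different from `z^{±1}`.
* `ls_disj`: if `{z} ∪ X` and `{z} ∪ Y` are level and `X ∩ Y = ∅` (both nonempty), they cross (corners `{z}`, `X`, `Y`, and the rest with `z⁻¹`), so `2 edgS {z} X = 2 edgS {z} Y = n`.  Since the degree
  of `z` is `n` (`capC_sgl`, `capC_edgS`, `edgS_split`), `edgS V {z} P = 0` for every `P` disjoint from `X ∪ Y ∪ {z}`.  So there are no three such pairwise disjoint nonempty sets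
  (`2 edgS {z} X₃ = n > 0`).
  The dual statements hold for the complements (multiplier `z⁻¹`): `{z⁻¹} ∪ Xᶜ`.
* `ls_seven`.  Let `s₁, s₂, s₃` be the numbers of members with `|X| = 1, 2, 3`.  `s₁ ≤ 2` (`ls_disj`), `s₃ ≤ 2` (dual).
  (a) Three pairwise intersecting different 2-sets are impossible: triangle `{x,y}, {y,w}, {x,w}`: the intersections are three disjoint singletons; star `{x,y}, {x,w}, {x,v}`: the unions are three 3-sets.
  (b) `s₂ ≤ 3`: among four different 2-subsets of a 4-set either three lie in different complementary pairs, i.e. they are pairwise intersecting, (a); or they are `X, Xᶜ, Y, Yᶜ`, and then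
  `X ∩ Y`, `Xᶜ ∩ Y`, `X ∩ Yᶜ` are three singletons.  So there are at most `2 + 3 + 2 = 7` members: `ls_seven`.
(The proof of `ls_six` uses the same facts: file `EvLS6`.)
Difficulty 3.
-/

namespace Pool.Agent.Sims

theorem EvLS7_ex {z : Fin 3 × Bool} {A : Ct} (hz : A z = true) (hn : Ntr A) :
    ∃ x, x ≠ z ∧ A x = true := by
  obtain ⟨⟨x, y, hxy, hx, hy⟩, -⟩ := hn
  by_cases h : x = z
  · exact ⟨y, fun h' => hxy (h.trans h'.symm), hy⟩
  · exact ⟨x, h, hx⟩

/-- two disjoint sets: the edges at `z` -/
theorem ls_disj {n : ℕ} {V : CC} (E : Eq3 n V) {z : Fin 3 × Bool} {A B : Ct} (hA : Lv V z A)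
    (hB : Lv V z B) (hn : Ntr A) (hn' : Ntr B) (hd : ∀ x, A x = true → B x = true → x = z) :
    2 * edgS V (sgl z) (fun x => A x && decide (x ≠ z)) = n ∧
      2 * edgS V (sgl z) (fun x => B x && decide (x ≠ z)) = n ∧
      ∀ P : Ct, P z = false → (∀ x, P x = true → A x = false ∧ B x = false) →
        edgS V (sgl z) P = 0 := by
  obtain ⟨hA1, hA2, hA3⟩ := (Lv_NC E).1 hA
  obtain ⟨hB1, hB2, hB3⟩ := (Lv_NC E).1 hB
  have hX : Crossg A B := by
    refine ⟨⟨z, hA1, hB1⟩, ?_, ?_, ⟨bar z, hA2, hB2⟩⟩
    · obtain ⟨x, hx, hAx⟩ := EvLS7_ex hA1 hn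
      refine ⟨x, hAx, ?_⟩
      cases hb : B x
      · rfl
      · exact absurd (hd x hAx hb) hx
    · obtain ⟨x, hx, hBx⟩ := EvLS7_ex hB1 hn'
      refine ⟨x, ?_, hBx⟩
      cases hb : A x
      · rfl
      · exact absurd (hd x hb hBx) hx
  obtain ⟨h1, h2, h3, h4, h5, h6⟩ := f1e E hA3 hB3 hX
  have e1 : ∀ x, (A x && B x) = sgl z x := by
    intro x
    by_cases hx : x = z
    · subst hx; simp [sgl, hA1, hB1]
    · cases ha : A x <;> cases hb : B x <;> simp [sgl, hx]
      exact hx (hd x ha hb)
  have e2 : ∀ x, (A x && !B x) = (A x && decide (x ≠ z)) := by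
    intro x
    by_cases hx : x = z
    · subst hx; simp [hA1, hB1]
    · cases ha : A x <;> cases hb : B x <;> simp [hx]
      exact hx (hd x ha hb)
  have e3 : ∀ x, (!A x && B x) = (B x && decide (x ≠ z)) := by
    intro x
    by_cases hx : x = z
    · subst hx; simp [hA1, hB1]
    · cases ha : A x <;> cases hb : B x <;> simp [hx]
      exact hx (hd x ha hb)
  refine ⟨?_, ?_, ?_⟩
  · rw [← edgS_congr V e1 e2]; exact h3
  · rw [← edgS_congr V e1 e3]; exact h4
  · intro P hPz hP
    have : edgS V (sgl z) P ≤ edgS V (fun x => A x && B x) (fun x => !A x && !B x) := by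
      apply edgS_mono
      · intro x hx
        beta_reduce
        rw [e1 x]; exact hx
      · intro x hx
        obtain ⟨p1, p2⟩ := hP x hx
        simp [p1, p2]
    omega

/-- no three disjoint sets -/
theorem ls_three {n : ℕ} {V : CC} (E : Eq3 n V) {z : Fin 3 × Bool} {A B C : Ct} (hA : Lv V z A)
    (hB : Lv V z B) (hC : Lv V z C) (hn : Ntr A) (hn' : Ntr B) (hn'' : Ntr C)
    (h1 : ∀ x, A x = true → B x = true → x = z) (h2 : ∀ x, A x = true → C x = true → x = z)
    (h3 : ∀ x, B x = true → C x = true → x = z) : False := by
  obtain ⟨-, -, p⟩ := ls_disj E hA hB hn hn' h1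
  obtain ⟨-, q, -⟩ := ls_disj E hA hC hn hn'' h2
  have := p (fun x => C x && decide (x ≠ z)) (by simp) (by
    intro x hx
    simp only [Bool.and_eq_true, decide_eq_true_eq] at hx
    constructor
    · cases ha : A x
      · rfl
      · exact absurd (h2 x ha hx.1) hx.2
    · cases ha : B x
      · rfl
      · exact absurd (h3 x ha hx.1) hx.2)
  have h4 := E.h4
  omega

/-- the cut with given values -/
def EvLS7_T (z : Fin 3 × Bool) (b : Bool × Bool × Bool × Bool) : Ct := fun x =>
  if x.1 = z.1 then decide (x.2 = z.2) else if x.1 = z.1 + 1 then (if x.2 then b.1 else b.2.1)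
    else (if x.2 then b.2.2.1 else b.2.2.2)

theorem EvLS7_T_eq {z : Fin 3 × Bool} {A : Ct} (h1 : A z = true) (h2 : A (bar z) = false) :
    EvLS7_T z (A (z.1 + 1, true), A (z.1 + 1, false), A (z.1 + 2, true), A (z.1 + 2, false)) = A := by
  funext x
  obtain ⟨i, s⟩ := z
  obtain ⟨j, t⟩ := x
  simp only [bar] at h2
  simp only [EvLS7_T]
  by_cases hij : j = i
  · subst hij
    simp only [if_true]
    cases s <;> cases t <;> simp_all
  · rw [if_neg hij]
    by_cases hj : j = i + 1
    · rw [if_pos hj, hj]
      cases t <;> simp
    · rw [if_neg hj]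
      have : j = i + 2 := by
        clear h1 h2 s t A
        revert i j; decide
      rw [this]
      cases t <;> simp

theorem EvLS7_T_z (z : Fin 3 × Bool) (b : Bool × Bool × Bool × Bool) :
    EvLS7_T z b z = true ∧ EvLS7_T z b (bar z) = false := by
  simp [EvLS7_T]

theorem EvLS7_T_and (z : Fin 3 × Bool) (b c : Bool × Bool × Bool × Bool) :
    (fun x => EvLS7_T z b x && EvLS7_T z c x) =
      EvLS7_T z (b.1 && c.1, b.2.1 && c.2.1, b.2.2.1 && c.2.2.1, b.2.2.2 && c.2.2.2) := by
  funext x
  simp only [EvLS7_T]
  split_ifs <;> simp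

theorem EvLS7_T_or (z : Fin 3 × Bool) (b c : Bool × Bool × Bool × Bool) :
    (fun x => EvLS7_T z b x || EvLS7_T z c x) =
      EvLS7_T z (b.1 || c.1, b.2.1 || c.2.1, b.2.2.1 || c.2.2.1, b.2.2.2 || c.2.2.2) := by
  funext x
  simp only [EvLS7_T]
  split_ifs <;> simp

theorem EvLS7_T_Ntr (z : Fin 3 × Bool) (b : Bool × Bool × Bool × Bool) :
    Ntr (EvLS7_T z b) ↔ (b ≠ (false, false, false, false) ∧ b ≠ (true, true, true, true)) := by
  obtain ⟨i, s⟩ := z
  obtain ⟨b1, b2, b3, b4⟩ := b
  unfold Ntr
  revert i s b1 b2 b3 b4
  decide

theorem EvLS7_fin (e : Bool × Bool × Bool × Bool → ℕ) (h01 : ∀ b, e b ≤ 1)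
    (h0 : e (false, false, false, false) = 0) (h1 : e (true, true, true, true) = 0)
    (hI : ∀ b c : Bool × Bool × Bool × Bool,
      (b.1 && c.1, b.2.1 && c.2.1, b.2.2.1 && c.2.2.1, b.2.2.2 && c.2.2.2) ≠
        (false, false, false, false) →
      e b + e c ≤ 1 + e (b.1 && c.1, b.2.1 && c.2.1, b.2.2.1 && c.2.2.1, b.2.2.2 && c.2.2.2))
    (hU : ∀ b c : Bool × Bool × Bool × Bool,
      (b.1 || c.1, b.2.1 || c.2.1, b.2.2.1 || c.2.2.1, b.2.2.2 || c.2.2.2) ≠
        (true, true, true, true) →
      e b + e c ≤ 1 + e (b.1 || c.1, b.2.1 || c.2.1, b.2.2.1 || c.2.2.1, b.2.2.2 || c.2.2.2))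
    (hD : ∀ b c d : Bool × Bool × Bool × Bool,
      ((b.1 && c.1) || (b.1 && d.1) || (c.1 && d.1)) = false →
      ((b.2.1 && c.2.1) || (b.2.1 && d.2.1) || (c.2.1 && d.2.1)) = false →
      ((b.2.2.1 && c.2.2.1) || (b.2.2.1 && d.2.2.1) || (c.2.2.1 && d.2.2.1)) = false →
      ((b.2.2.2 && c.2.2.2) || (b.2.2.2 && d.2.2.2) || (c.2.2.2 && d.2.2.2)) = false →
      e b + e c + e d ≤ 2)
    (hD' : ∀ b c d : Bool × Bool × Bool × Bool,
      ((!b.1 && !c.1) || (!b.1 && !d.1) || (!c.1 && !d.1)) = false →
      ((!b.2.1 && !c.2.1) || (!b.2.1 && !d.2.1) || (!c.2.1 && !d.2.1)) = false →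
      ((!b.2.2.1 && !c.2.2.1) || (!b.2.2.1 && !d.2.2.1) || (!c.2.2.1 && !d.2.2.1)) = false →
      ((!b.2.2.2 && !c.2.2.2) || (!b.2.2.2 && !d.2.2.2) || (!c.2.2.2 && !d.2.2.2)) = false →
      e b + e c + e d ≤ 2) :
    ∑ b, e b ≤ 7 := by
  have s1 := hD (true, false, false, false) (false, true, false, false) (false, false, true, false)
    rfl rfl rfl rfl
  have s2 := hD (true, false, false, false) (false, true, false, false) (false, false, false, true)
    rfl rfl rfl rfl
  have s3 := hD (true, false, false, false) (false, false, true, false) (false, false, false, true)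
    rfl rfl rfl rfl
  have s4 := hD (false, true, false, false) (false, false, true, false) (false, false, false, true)
    rfl rfl rfl rfl
  have t1 := hD' (false, true, true, true) (true, false, true, true) (true, true, false, true)
    rfl rfl rfl rfl
  have t2 := hD' (false, true, true, true) (true, false, true, true) (true, true, true, false)
    rfl rfl rfl rfl
  have t3 := hD' (false, true, true, true) (true, true, false, true) (true, true, true, false)
    rfl rfl rfl rfl
  have t4 := hD' (true, false, true, true) (true, true, false, true) (true, true, true, false)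
    rfl rfl rfl rfl
  have i1 := hI (true, true, false, false) (true, false, true, false) (by decide)
  have i2 := hI (true, true, false, false) (true, false, false, true) (by decide)
  have i3 := hI (true, false, true, false) (true, false, false, true) (by decide)
  have i4 := hI (true, true, false, false) (false, true, true, false) (by decide)
  have i5 := hI (true, true, false, false) (false, true, false, true) (by decide)
  have i6 := hI (false, true, true, false) (false, true, false, true) (by decide)
  have i7 := hI (true, false, true, false) (false, true, true, false) (by decide)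
  have i8 := hI (true, false, true, false) (false, false, true, true) (by decide)
  have i9 := hI (false, true, true, false) (false, false, true, true) (by decide)
  have i10 := hI (true, false, false, true) (false, true, false, true) (by decide)
  have i11 := hI (true, false, false, true) (false, false, true, true) (by decide)
  have i12 := hI (false, true, false, true) (false, false, true, true) (by decide)
  have u1 := hU (true, true, false, false) (true, false, true, false) (by decide)
  have u2 := hU (true, true, false, false) (true, false, false, true) (by decide)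
  have u3 := hU (true, false, true, false) (true, false, false, true) (by decide)
  have u4 := hU (true, true, false, false) (false, true, true, false) (by decide)
  have u5 := hU (true, true, false, false) (false, true, false, true) (by decide)
  have u6 := hU (false, true, true, false) (false, true, false, true) (by decide)
  have u7 := hU (true, false, true, false) (false, true, true, false) (by decide)
  have u8 := hU (true, false, true, false) (false, false, true, true) (by decide)
  have u9 := hU (false, true, true, false) (false, false, true, true) (by decide)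
  have u10 := hU (true, false, false, true) (false, true, false, true) (by decide)
  have u11 := hU (true, false, false, true) (false, false, true, true) (by decide)
  have u12 := hU (false, true, false, true) (false, false, true, true) (by decide)
  simp only [Bool.and_true, Bool.and_false, Bool.true_and, Bool.false_and, Bool.or_true,
    Bool.or_false, Bool.true_or, Bool.false_or, Bool.and_self, Bool.or_self]
    at i1 i2 i3 i4 i5 i6 i7 i8 i9 i10 i11 i12 u1 u2 u3 u4 u5 u6 u7 u8 u9 u10 u11 u12
  have b1 := h01 (true, true, false, false)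
  have b2 := h01 (true, false, true, false)
  have b3 := h01 (true, false, false, true)
  have b4 := h01 (false, true, true, false)
  have b5 := h01 (false, true, false, true)
  have b6 := h01 (false, false, true, true)
  clear hI hU hD hD' h01
  -- singles
  have S1 : e (true, false, false, false) + e (false, true, false, false) +
      e (false, false, true, false) + e (false, false, false, true) ≤ 2 := by omega
  have S3 : e (false, true, true, true) + e (true, false, true, true) +
      e (true, true, false, true) + e (true, true, true, false) ≤ 2 := by omega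
  -- triangles
  have a1 : e (true, true, false, false) + e (true, false, true, false) +
      e (false, true, true, false) ≤ 2 := by omega
  have a2 : e (true, true, false, false) + e (true, false, false, true) +
      e (false, true, false, true) ≤ 2 := by omega
  have a3 : e (true, false, true, false) + e (true, false, false, true) +
      e (false, false, true, true) ≤ 2 := by omega
  have a4 : e (false, true, true, false) + e (false, true, false, true) +
      e (false, false, true, true) ≤ 2 := by omega
  -- 4-cycles
  have c1 : e (true, true, false, false) + e (false, true, true, false) +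
      e (false, false, true, true) + e (true, false, false, true) ≤ 3 := by omega
  have c2 : e (true, true, false, false) + e (false, true, false, true) +
      e (false, false, true, true) + e (true, false, true, false) ≤ 3 := by omega
  have c3 : e (true, false, true, false) + e (false, true, true, false) +
      e (false, true, false, true) + e (true, false, false, true) ≤ 3 := by omega
  have S2 : e (true, true, false, false) + e (true, false, true, false) +
      e (true, false, false, true) + e (false, true, true, false) +
      e (false, true, false, true) + e (false, false, true, true) ≤ 3 := by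
    clear i1 i2 i3 i4 i5 i6 i7 i8 i9 i10 i11 i12 u1 u2 u3 u4 u5 u6 u7 u8 u9 u10 u11 u12
      s1 s2 s3 s4 t1 t2 t3 t4 S1 S3
    omega
  have hsum : ∑ b, e b = e (true, true, true, true) + e (true, true, true, false) +
      e (true, true, false, true) + e (true, true, false, false) + e (true, false, true, true) +
      e (true, false, true, false) + e (true, false, false, true) + e (true, false, false, false) +
      e (false, true, true, true) + e (false, true, true, false) +
      e (false, true, false, true) + e (false, true, false, false) + e (false, false, true, true) +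
      e (false, false, true, false) + e (false, false, false, true) +
      e (false, false, false, false) := by
    rw [Fintype.sum_prod_type]
    simp only [Fintype.sum_prod_type, Fintype.sum_bool]
    ring
  rw [hsum]
  clear i1 i2 i3 i4 i5 i6 i7 i8 i9 i10 i11 i12 u1 u2 u3 u4 u5 u6 u7 u8 u9 u10 u11 u12
    s1 s2 s3 s4 t1 t2 t3 t4 a1 a2 a3 a4 c1 c2 c3 hsum b1 b2 b3 b4 b5 b6
  omega

theorem ls_seven {n : ℕ} {V : CC} (E : Eq3 n V) (z : Fin 3 × Bool) : (LS V z).card ≤ 7 := by
  classical
  have hcard : (LS V z).card ≤
      (Finset.univ.filter (fun b : Bool × Bool × Bool × Bool => EvLS7_T z b ∈ LS V z)).card := by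
    apply Finset.card_le_card_of_injOn
      (fun A => (A (z.1 + 1, true), A (z.1 + 1, false), A (z.1 + 2, true), A (z.1 + 2, false)))
    · intro A hA
      have hA' := ls_mem.1 (Finset.mem_coe.1 hA)
      have := EvLS7_T_eq hA'.1.1 hA'.1.2.1
      simp only [Finset.coe_filter, Finset.mem_univ, true_and, Set.mem_setOf_eq]
      rw [this]; exact Finset.mem_coe.1 hA
    · intro A hA B hB hAB
      have hA' := ls_mem.1 (Finset.mem_coe.1 hA)
      have hB' := ls_mem.1 (Finset.mem_coe.1 hB)
      rw [← EvLS7_T_eq hA'.1.1 hA'.1.2.1, ← EvLS7_T_eq hB'.1.1 hB'.1.2.1]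
      beta_reduce at hAB
      rw [hAB]
  refine hcard.trans ?_
  rw [Finset.card_filter]
  have hP : ∀ b, EvLS7_T z b ∈ LS V z ↔ (Lv V z (EvLS7_T z b) ∧
      (b ≠ (false, false, false, false) ∧ b ≠ (true, true, true, true))) := by
    intro b
    rw [ls_mem, EvLS7_T_Ntr]
  apply EvLS7_fin
  · intro b; split_ifs <;> omega
  · rw [if_neg]
    rw [hP]; simp
  · rw [if_neg]
    rw [hP]; simp
  · intro b c hbc
    by_cases hb : EvLS7_T z b ∈ LS V z
    · by_cases hc : EvLS7_T z c ∈ LS V z
      · rw [if_pos hb, if_pos hc, if_pos]
        rw [hP] at hb hc ⊢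
        refine ⟨?_, hbc, ?_⟩
        · rw [← EvLS7_T_and]; exact ls_inter E hb.1 hc.1
        · intro h
          apply hb.2.2
          obtain ⟨b1, b2, b3, b4⟩ := b
          simp only [Prod.mk.injEq, Bool.and_eq_true] at h ⊢
          exact ⟨h.1.1, h.2.1.1, h.2.2.1.1, h.2.2.2.1⟩
      · rw [if_neg hc]
        have : (if EvLS7_T z b ∈ LS V z then 1 else 0) ≤ 1 := by split_ifs <;> omega
        omega
    · rw [if_neg hb]
      have : (if EvLS7_T z c ∈ LS V z then 1 else 0) ≤ 1 := by split_ifs <;> omega
      omega
  · intro b c hbc
    by_cases hb : EvLS7_T z b ∈ LS V z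
    · by_cases hc : EvLS7_T z c ∈ LS V z
      · rw [if_pos hb, if_pos hc, if_pos]
        rw [hP] at hb hc ⊢
        refine ⟨?_, ?_, hbc⟩
        · rw [← EvLS7_T_or]; exact ls_union E hb.1 hc.1
        · intro h
          apply hb.2.1
          obtain ⟨b1, b2, b3, b4⟩ := b
          simp only [Prod.mk.injEq, Bool.or_eq_false_iff] at h ⊢
          exact ⟨h.1.1, h.2.1.1, h.2.2.1.1, h.2.2.2.1⟩
      · rw [if_neg hc]
        have : (if EvLS7_T z b ∈ LS V z then 1 else 0) ≤ 1 := by split_ifs <;> omega
        omega
    · rw [if_neg hb]
      have : (if EvLS7_T z c ∈ LS V z then 1 else 0) ≤ 1 := by split_ifs <;> omega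
      omega
  · intro b c d h1 h2 h3 h4
    by_contra hlt
    have hall : EvLS7_T z b ∈ LS V z ∧ EvLS7_T z c ∈ LS V z ∧ EvLS7_T z d ∈ LS V z := by
      refine ⟨?_, ?_, ?_⟩
      · by_contra hb
        rw [if_neg hb] at hlt
        apply hlt
        split_ifs <;> omega
      · by_contra hb
        rw [if_neg hb] at hlt
        apply hlt
        split_ifs <;> omega
      · by_contra hb
        rw [if_neg hb] at hlt
        apply hlt
        split_ifs <;> omega
    obtain ⟨hb, hc, hd⟩ := hall
    rw [ls_mem] at hb hc hd
    obtain ⟨b1, b2, b3, b4⟩ := b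
    obtain ⟨c1, c2, c3, c4⟩ := c
    obtain ⟨d1, d2, d3, d4⟩ := d
    simp only [Bool.or_eq_false_iff, Bool.and_eq_false_iff] at h1 h2 h3 h4
    refine ls_three E hb.1 hc.1 hd.1 hb.2 hc.2 hd.2 ?_ ?_ ?_
    · intro x hx hy
      simp only [EvLS7_T] at hx hy
      split_ifs at hx hy with g1 g2 g3
      · rw [decide_eq_true_eq] at hx
        exact Prod.ext g1 hx
      all_goals subst hx hy; simp_all
    · intro x hx hy
      simp only [EvLS7_T] at hx hy
      split_ifs at hx hy with g1 g2 g3
      · rw [decide_eq_true_eq] at hx
        exact Prod.ext g1 hx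
      all_goals subst hx hy; simp_all
    · intro x hx hy
      simp only [EvLS7_T] at hx hy
      split_ifs at hx hy with g1 g2 g3
      · rw [decide_eq_true_eq] at hx
        exact Prod.ext g1 hx
      all_goals subst hx hy; simp_all
  · intro b c d h1 h2 h3 h4
    by_contra hlt
    have hall : EvLS7_T z b ∈ LS V z ∧ EvLS7_T z c ∈ LS V z ∧ EvLS7_T z d ∈ LS V z := by
      refine ⟨?_, ?_, ?_⟩
      · by_contra hb
        rw [if_neg hb] at hlt
        apply hlt
        split_ifs <;> omega
      · by_contra hb
        rw [if_neg hb] at hlt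
        apply hlt
        split_ifs <;> omega
      · by_contra hb
        rw [if_neg hb] at hlt
        apply hlt
        split_ifs <;> omega
    obtain ⟨hb, hc, hd⟩ := hall
    rw [ls_mem] at hb hc hd
    obtain ⟨b1, b2, b3, b4⟩ := b
    obtain ⟨c1, c2, c3, c4⟩ := c
    obtain ⟨d1, d2, d3, d4⟩ := d
    simp only [Bool.or_eq_false_iff, Bool.and_eq_false_iff, Bool.not_eq_false'] at h1 h2 h3 h4
    refine ls_three E (Lv_compl hb.1).1 (Lv_compl hc.1).1 (Lv_compl hd.1).1 (Ntr_compl hb.2)
      (Ntr_compl hc.2) (Ntr_compl hd.2) ?_ ?_ ?_
    · intro x hx hy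
      simp only [EvLS7_T, Bool.not_eq_true'] at hx hy
      split_ifs at hx hy with g1 g2 g3
      · rw [decide_eq_false_iff_not] at hx
        refine Prod.ext g1 ?_
        simp only [bar]
        cases h : x.2 <;> cases h' : z.2 <;> simp_all
      all_goals subst hx hy; simp_all
    · intro x hx hy
      simp only [EvLS7_T, Bool.not_eq_true'] at hx hy
      split_ifs at hx hy with g1 g2 g3
      · rw [decide_eq_false_iff_not] at hx
        refine Prod.ext g1 ?_
        simp only [bar]
        cases h : x.2 <;> cases h' : z.2 <;> simp_all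
      all_goals subst hx hy; simp_all
    · intro x hx hy
      simp only [EvLS7_T, Bool.not_eq_true'] at hx hy
      split_ifs at hx hy with g1 g2 g3
      · rw [decide_eq_false_iff_not] at hx
        refine Prod.ext g1 ?_
        simp only [bar]
        cases h : x.2 <;> cases h' : z.2 <;> simp_all
      all_goals subst hx hy; simp_all

end Pool.Agent.Sims
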