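import Pool.Agent.Sims.EvU
import Pool.Agent.Sims.EvLS7
import Pool.Agent.Sims.EvEM

/-!
# Module `EvBU` : the bound for one rigid letter

* `bddU`: `¬ Crs n W a` for all `W ∈ EM (· ≠ 0) V`, and every `W ∈ EM (· ≠ 0) V` is `act τ.aut e`, `Fix0 τ`, `e ∈ F`.  By `lemU` (`i = 0`, `M = True`) every element of `EM ⊤ V` is `σ (A, a) W`, `W ∈ EM (· ≠ 0) V`, `A` level at `W`;
  `W = τ e`, so it is `σ τ (A ∘ τ, a) e` (`τ.letter a = a`), `A ∘ τ` level at `e` (`TwBasic_SPerm` for `τ⁻¹`).  For `e ∈ F ∩ orb V` (`e = τ⁻¹ W`, so `Eq3 n e`: `Eq3_SPerm`) `cntMv` and `ls_seven` give at most `8` classes.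
  `bdd_of_cov`, `cov_bind` with `S = {e ∈ F | Eq3 n e}`.
Difficulty 2.
-/

namespace Pool.Agent.Sims

theorem bddU {n : ℕ} {V : CC} (E : Eq3 n V)
    (ha : ∀ W ∈ EM (fun i => i ≠ 0) V, ¬ Crs n W (0, true)) {F : Finset CC} {N : ℕ}
    (hF : F.card ≤ N)
    (hcov : ∀ W ∈ EM (fun i => i ≠ 0) V, ∃ τ : SPerm (Fin 3), Fix0 τ ∧ ∃ e ∈ F, W = act τ.aut e) :
    Bdd V (N * 8) := by
  have hS : Cov {e | e ∈ F ∧ Eq3 n e} N := ⟨F, hF, fun W hW => hW.1⟩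
  have hT := cov_bind hS
    (fun e => {W | ∃ A, Lv e (0, true) A ∧ W = act (wh (0, true) A) e}) (K := 8)
    (fun q hq => by
      have h7 := ls_seven hq.2 (0, true)
      exact cov_mono (cntMv q (0, true)) (fun W hW => hW) (by omega))
  refine bdd_of_cov E.hO hT ?_
  intro W hW
  have hr : ∀ W ∈ EM (fun j : Fin 3 => (fun _ : Fin 3 => True) j ∧ j ≠ 0) V,
      ¬ Crs n W (0, true) := by
    intro W hW
    exact ha W (EM_mono (fun i hi => hi.2) hW)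
  obtain ⟨σ, W1, A, hW1, hA, _, rfl⟩ := lemU E (M := fun _ => True) (i := 0) trivial hr hW
  have hW1' : W1 ∈ EM (fun i => i ≠ 0) V := EM_mono (fun i hi => hi.2) hW1
  have hE1 : Eq3 n W1 := Eq3.em E hW1'
  obtain ⟨τ, hτ, e, he, rfl⟩ := hcov W1 hW1'
  have hE2 : Eq3 n e := by
    have h1 := Eq3_SPerm hE1 τ.inv
    rwa [act_SPerm_inv] at h1
  have hl : τ.letter (0, true) = (0, true) := by
    obtain ⟨h1, h2⟩ := hτ
    show (τ.perm 0, if τ.sign 0 then true else !true) = (0, true)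
    rw [h1, h2]
    rfl
  have hl' : τ.inv.letter (0, true) = (0, true) := by
    have h1 := SPerm.inv_letter τ (0, true)
    rwa [hl] at h1
  obtain ⟨h3, h4⟩ := EvU_pull τ hA
  rw [hl'] at h3 h4
  refine ⟨Conn_comp σ τ, _, ⟨e, ⟨he, hE2⟩, _, h3, rfl⟩, ?_⟩
  rw [h4, Conn_act_comp]

end Pool.Agent.Sims
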