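import Pool.Agent.Sims.EvDefs

/-!
# Module `EvBas` : basic facts about `Prp`, `NC`, `Crossg`, `Eq3`, `edgS`

Everything is routine.
* `Eq3.orb'`: `OMin_orb`, `orb_eq`, `cnt_orb` (all counts of `V` are `n`, so all counts of `W ∈ orb V` are `n`).
* `Lv_NC`: a level cut of a class with `Eq3` has capacity `cnt V z.1 = n`.
* `edgS_comm`: the summand is symmetric (`Bool.or_comm`).  `edgS_mono`: `cyc_mono`.  `edgS_cap`: `capC_union` (additivity formula) with `capC` of the union replaced.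
* `capC_sgl`: `capC_single`.   `edgS_empty`: `cyc` of the zero function.
* `edgS_split`: additivity in the second argument along any cut `C` (`edgS_union`, the parts being `Q ∧ C`, `Q ∧ ¬C`), the hypothesis being disjointness of `P` and `Q`.
* `VX_compl`: the crossing relation is symmetric under complements.
* `Lv_ntr`: for a level `z`-cut which is not nontrivial, `A` is constant on the letters `≠ z^{±1}`: since `A z = true`, `A z⁻¹ = false`, if some `x ≠ z, z⁻¹` is in `A` and some `y ≠ z, z⁻¹` is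
  not in `A` then `A` has two elements and so has its complement.  Then `Lv_triv`, `Lv_triv'`.
Difficulty 1.
-/

namespace Pool.Agent.Sims

theorem Eq3.orb' {n : ℕ} {V W : CC} (E : Eq3 n V) (h : W ∈ orb V) : Eq3 n W := by
  refine ⟨OMin_orb E.hO h, E.h4, ?_, ?_⟩
  · obtain ⟨p, hp⟩ := cnt_orb E.hO h
    intro i
    rw [hp, E.c]
  · intro U hU A hA
    exact E.lo U (orb_trans h hU) A hA

theorem Eq3.lv {n : ℕ} {V : CC} (E : Eq3 n V) {z : Fin 3 × Bool} {A : Ct} (h : Lv V z A) :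
    Eq3 n (act (wh z A) V) :=
  E.orb' (Lv_Sm h).1

theorem Eq3.low {n : ℕ} {V : CC} (E : Eq3 n V) {A : Ct} (h : Prp A) : n ≤ capC V A :=
  E.lo V (orb_refl V) A h

theorem Lv_Prp {V : CC} {z : Fin 3 × Bool} {A : Ct} (h : Lv V z A) : Prp A :=
  ⟨⟨z, h.1⟩, ⟨bar z, h.2.1⟩⟩

theorem Lv_NC {n : ℕ} {V : CC} (E : Eq3 n V) {z : Fin 3 × Bool} {A : Ct} :
    Lv V z A ↔ (A z = true ∧ A (bar z) = false ∧ NC n V A) := by
  constructor
  · intro h
    refine ⟨h.1, h.2.1, Lv_Prp h, ?_⟩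
    rw [h.2.2, E.c]
  · rintro ⟨h1, h2, -, h3⟩
    exact ⟨h1, h2, by rw [h3, E.c]⟩

theorem Prp_compl {A : Ct} (h : Prp A) : Prp (fun x => !A x) := by
  obtain ⟨⟨x, hx⟩, ⟨y, hy⟩⟩ := h
  exact ⟨⟨y, by simp [hy]⟩, ⟨x, by simp [hx]⟩⟩

theorem NC_compl {n : ℕ} {V : CC} {A : Ct} (h : NC n V A) : NC n V (fun x => !A x) :=
  ⟨Prp_compl h.1, by rw [capC_compl, h.2]⟩

theorem NC_congr {n : ℕ} {V : CC} {A B : Ct} (h : NC n V A) (hAB : ∀ x, A x = B x) : NC n V B := by
  have : A = B := funext hAB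
  rwa [← this]

theorem Ntr_compl {A : Ct} (h : Ntr A) : Ntr (fun x => !A x) := by
  obtain ⟨⟨x, y, hxy, hx, hy⟩, ⟨z, w, hzw, hz, hw⟩⟩ := h
  exact ⟨⟨z, w, hzw, by simp [hz], by simp [hw]⟩, ⟨x, y, hxy, by simp [hx], by simp [hy]⟩⟩

theorem Ntr_Prp {A : Ct} (h : Ntr A) : Prp A := by
  obtain ⟨⟨x, y, hxy, hx, hy⟩, ⟨z, w, hzw, hz, hw⟩⟩ := h
  exact ⟨⟨x, hx⟩, ⟨z, hz⟩⟩

theorem Crossg_symm {A B : Ct} (h : Crossg A B) : Crossg B A := by
  obtain ⟨⟨x, h1, h2⟩, ⟨y, h3, h4⟩, ⟨z, h5, h6⟩, ⟨w, h7, h8⟩⟩ := h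
  exact ⟨⟨x, h2, h1⟩, ⟨z, h6, h5⟩, ⟨y, h4, h3⟩, ⟨w, h8, h7⟩⟩

theorem Crossg_compl {A B : Ct} (h : Crossg A B) : Crossg (fun x => !A x) B := by
  obtain ⟨⟨x, h1, h2⟩, ⟨y, h3, h4⟩, ⟨z, h5, h6⟩, ⟨w, h7, h8⟩⟩ := h
  exact ⟨⟨z, by simp [h5], h6⟩, ⟨w, by simp [h7], h8⟩, ⟨x, by simp [h1], h2⟩,
    ⟨y, by simp [h3], h4⟩⟩

theorem Crossg_compl' {A B : Ct} (h : Crossg A B) : Crossg A (fun x => !B x) :=
  Crossg_symm (Crossg_compl (Crossg_symm h))

/-- a crossed cut is nontrivial -/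
theorem Crossg_Ntr {A B : Ct} (h : Crossg A B) : Ntr B := by
  obtain ⟨⟨x, h1, h2⟩, ⟨y, h3, h4⟩, ⟨z, h5, h6⟩, ⟨w, h7, h8⟩⟩ := h
  refine ⟨⟨x, z, ?_, h2, h6⟩, ⟨y, w, ?_, h4, h8⟩⟩
  · rintro rfl
    rw [h1] at h5
    exact absurd h5 (by decide)
  · rintro rfl
    rw [h3] at h7
    exact absurd h7 (by decide)

/-- cuts which do not cross -/
theorem not_Crossg {A B : Ct} (h : ¬ Crossg A B) :
    (∀ x, A x = true → B x = false) ∨ (∀ x, A x = true → B x = true) ∨
      (∀ x, B x = true → A x = true) ∨ (∀ x, A x = true ∨ B x = true) := by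
  by_contra hc
  push Not at hc
  obtain ⟨⟨x, h1, h2⟩, ⟨y, h3, h4⟩, ⟨z, h5, h6⟩, ⟨w, h7, h8⟩⟩ := hc
  apply h
  refine ⟨⟨x, h1, ?_⟩, ⟨y, h3, ?_⟩, ⟨z, ?_, h5⟩, ⟨w, ?_, ?_⟩⟩
  · simpa using h2
  · simpa using h4
  · simpa using h6
  · simpa using h7
  · simpa using h8

theorem EvBas_VX {n : ℕ} {V : CC} {Q : Ct} (h : VX n V Q) : VX n V (fun x => !Q x) := by
  obtain ⟨C, hC, hX⟩ := h
  exact ⟨C, hC, Crossg_compl' hX⟩

theorem VX_congr {n : ℕ} {V : CC} {Q Q' : Ct} (h : ∀ x, Q x = Q' x) : VX n V Q ↔ VX n V Q' := by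
  have : Q = Q' := funext h
  rw [this]

theorem VX_compl {n : ℕ} {V : CC} {Q : Ct} : VX n V (fun x => !Q x) ↔ VX n V Q := by
  constructor
  · intro h
    exact (VX_congr (fun x => by simp)).1 (EvBas_VX h)
  · exact EvBas_VX

theorem VX_Ntr {n : ℕ} {V : CC} {Q : Ct} (h : VX n V Q) : Ntr Q := by
  obtain ⟨C, hC, hX⟩ := h
  exact Crossg_Ntr hX

theorem Lv_ntr {V : CC} {z : Fin 3 × Bool} {A : Ct} (h : Lv V z A) (hn : ¬ Ntr A) :
    act (wh z A) V = V := by
  by_cases h1 : ∃ x, x.1 ≠ z.1 ∧ A x = true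
  · by_cases h2 : ∃ x, x.1 ≠ z.1 ∧ A x = false
    · exfalso
      obtain ⟨x, hx, hx'⟩ := h1
      obtain ⟨y, hy, hy'⟩ := h2
      apply hn
      refine ⟨⟨z, x, ?_, h.1, hx'⟩, ⟨bar z, y, ?_, h.2.1, hy'⟩⟩
      · rintro rfl; exact hx rfl
      · rintro rfl; exact hy rfl
    · apply Lv_triv'
      intro x hx
      by_contra hc
      exact h2 ⟨x, hx, by simpa using hc⟩
  · apply Lv_triv
    intro x hx
    by_contra hc
    exact h1 ⟨x, hx, by simpa using hc⟩

theorem edgS_comm (V : CC) (A B : Ct) : edgS V A B = edgS V B A := by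
  unfold edgS
  congr 1
  funext x y
  rw [Bool.or_comm]

theorem edgS_mono (V : CC) {A A' B B' : Ct} (hA : ∀ x, A x = true → A' x = true)
    (hB : ∀ x, B x = true → B' x = true) : edgS V A B ≤ edgS V A' B' := by
  unfold edgS
  apply cyc_mono
  intro x y
  have h1 := hA x
  have h2 := hA (bar y)
  have h3 := hB x
  have h4 := hB (bar y)
  generalize A x = a1 at *
  generalize A (bar y) = a2 at *
  generalize B x = b1 at *
  generalize B (bar y) = b2 at *
  generalize A' x = c1 at *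
  generalize A' (bar y) = c2 at *
  generalize B' x = d1 at *
  generalize B' (bar y) = d2 at *
  clear hA hB
  revert a1 a2 b1 b2 c1 c2 d1 d2
  decide

theorem edgS_congr (V : CC) {A A' B B' : Ct} (hA : ∀ x, A x = A' x) (hB : ∀ x, B x = B' x) :
    edgS V A B = edgS V A' B' := by
  have h1 : A = A' := funext hA
  have h2 : B = B' := funext hB
  rw [h1, h2]

theorem EvBas_lin_zero {β : Type*} (f : β → β → ℕ) (h : ∀ x y, f x y = 0) :
    ∀ (x : β) (l : List β) (z : β), lin f x l z = 0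
  | x, [], z => h x z
  | x, (y :: l), z => by
    rw [lin, h x y, EvBas_lin_zero f h y l z]

theorem edgS_empty (V : CC) {A B : Ct} (hA : ∀ x, A x = false) : edgS V A B = 0 := by
  unfold edgS
  have hf : ∀ x y : Fin 3 × Bool,
      (if (A x && B (bar y)) || (B x && A (bar y)) then 1 else 0) = 0 := by
    intro x y
    simp [hA]
  cases rep V with
  | nil => rfl
  | cons x l => exact EvBas_lin_zero _ hf x l x

/-- additivity along any cut -/
theorem edgS_split (V : CC) {P Q : Ct} (C : Ct) (h : ∀ x, P x = true → Q x = false) :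
    edgS V P Q = edgS V P (fun x => Q x && C x) + edgS V P (fun x => Q x && !C x) := by
  rw [← edgS_union V P (fun x => Q x && C x) (fun x => Q x && !C x)]
  · apply edgS_congr V (fun _ => rfl)
    intro x
    cases Q x <;> cases C x <;> rfl
  · intro x hx
    simp [h x hx]
  · intro x hx
    simp [h x hx]
  · intro x hx
    have hx' : (Q x && C x) = true := hx
    simp only [Bool.and_eq_true] at hx'
    simp [hx'.2]

/-- the capacity is the number of edges to the complement -/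
theorem capC_edgS (V : CC) (A : Ct) : capC V A = edgS V A (fun x => !A x) := by
  unfold capC cap edgS
  congr 1
  funext x y
  beta_reduce
  generalize A x = a1
  generalize A (bar y) = a2
  revert a1 a2
  decide

theorem capC_sgl (V : CC) (z : Fin 3 × Bool) : capC V (sgl z) = cnt V z.1 :=
  capC_single V z

end Pool.Agent.Sims
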