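import Pool.Agent.Sims.EvBas

/-!
# Module `EvBasS` : equivariance under signed permutations

`σ` signed permutation, `σV = act σ.aut V`.  Main tools: `capC_SPerm` (`capC (σV) A = capC V (A ∘ σ.letter)`), `cnt_SPerm`, `TwBasic_SPerm` (`Lv`), `OMin_SPerm`, `orb_SPerm`, `orb_eq`, `orb_trans`,
`act_wh_SPerm`, `act_SPerm_inv`, `act_SPerm_inv'`, `SPerm.inv_letter`, `SPerm.letter_inv`, `SPerm.letter_bar`, `edgS`: rewrite it with `capC_union` for disjoint sets is not possible in general, so use the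
definition: `rep (σV) ~r (rep V).map σ.letter` (`Rel_CR_map`, `rep_rotated`, `Rel_act_cls`, `cls_rep`), `cyc_rotated`, `Rel_cyc_map`, `SPerm.letter_bar`.
`σ.letter` is a bijection of the letters with inverse `σ.inv.letter`, so existence statements transfer.
In all statements only one direction is stated; the other one follows by applying it to `σ.inv`.
`stc_SPerm`: `stc A z` composed with `σ.inv.letter` is `stc (A ∘ σ.inv.letter) (σ.letter z)` (injectivity of `σ.letter`, `SPerm.letter_bar`).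
`Ps_SPerm`: map the word.
Difficulty 2.
-/

namespace Pool.Agent.Sims

set_option linter.unusedVariables false

theorem letter_inj (σ : SPerm (Fin 3)) {x y : Fin 3 × Bool} : σ.letter x = σ.letter y ↔ x = y := by
  constructor
  · intro h
    have := congrArg σ.inv.letter h
    rwa [SPerm.inv_letter, SPerm.inv_letter] at this
  · rintro rfl
    rfl

theorem letter_fst (σ : SPerm (Fin 3)) (x : Fin 3 × Bool) : (σ.letter x).1 = σ.perm x.1 := rfl

theorem EvBasS_iff (σ : SPerm (Fin 3)) (x z : Fin 3 × Bool) :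
    σ.inv.letter x = z ↔ x = σ.letter z := by
  constructor
  · intro h
    rw [← h, SPerm.letter_inv]
  · rintro rfl
    exact SPerm.inv_letter σ z

theorem Eq3_SPerm {n : ℕ} {V : CC} (E : Eq3 n V) (σ : SPerm (Fin 3)) : Eq3 n (act σ.aut V) :=
  E.orb' (orb_SPerm σ V)

theorem NC_SPerm {n : ℕ} {V : CC} {A : Ct} (h : NC n V A) (σ : SPerm (Fin 3)) :
    NC n (act σ.aut V) (fun x => A (σ.inv.letter x)) := by
  obtain ⟨⟨⟨x, hx⟩, ⟨y, hy⟩⟩, hc⟩ := h
  refine ⟨⟨⟨σ.letter x, ?_⟩, ⟨σ.letter y, ?_⟩⟩, ?_⟩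
  · show A (σ.inv.letter (σ.letter x)) = true
    rw [SPerm.inv_letter, hx]
  · show A (σ.inv.letter (σ.letter y)) = false
    rw [SPerm.inv_letter, hy]
  · rw [capC_SPerm, ← hc]
    apply capC_congr
    intro x
    rw [SPerm.inv_letter]

theorem Crossg_SPerm {A B : Ct} (h : Crossg A B) (σ : SPerm (Fin 3)) :
    Crossg (fun x => A (σ.letter x)) (fun x => B (σ.letter x)) := by
  obtain ⟨⟨x, h1, h2⟩, ⟨y, h3, h4⟩, ⟨z, h5, h6⟩, ⟨w, h7, h8⟩⟩ := h
  refine ⟨⟨σ.inv.letter x, ?_, ?_⟩, ⟨σ.inv.letter y, ?_, ?_⟩, ⟨σ.inv.letter z, ?_, ?_⟩,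
    ⟨σ.inv.letter w, ?_, ?_⟩⟩ <;>
  · beta_reduce
    rw [SPerm.letter_inv]
    assumption

theorem VX_SPerm {n : ℕ} {V : CC} {Q : Ct} (h : VX n V Q) (σ : SPerm (Fin 3)) :
    VX n (act σ.aut V) (fun x => Q (σ.inv.letter x)) := by
  obtain ⟨C, hC, hX⟩ := h
  exact ⟨_, NC_SPerm hC σ, Crossg_SPerm hX σ.inv⟩

theorem stc_SPerm (σ : SPerm (Fin 3)) (A : Ct) (z : Fin 3 × Bool) (x : Fin 3 × Bool) :
    stc A z (σ.inv.letter x) = stc (fun x => A (σ.inv.letter x)) (σ.letter z) x := by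
  unfold stc
  beta_reduce
  have h1 : decide (σ.inv.letter x ≠ z) = decide (x ≠ σ.letter z) := by
    rw [decide_eq_decide]
    exact not_congr (EvBasS_iff σ x z)
  have h2 : decide (σ.inv.letter x = bar z) = decide (x = bar (σ.letter z)) := by
    rw [decide_eq_decide, ← SPerm.letter_bar]
    exact EvBasS_iff σ x (bar z)
  rw [h1, h2]

theorem Crs_SPerm {n : ℕ} {V : CC} {z : Fin 3 × Bool} (h : Crs n V z) (σ : SPerm (Fin 3)) :
    Crs n (act σ.aut V) (σ.letter z) := by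
  obtain ⟨A, hL, hX⟩ := h
  obtain ⟨h1, h2⟩ := TwBasic_SPerm σ hL
  refine ⟨_, h1, ?_⟩
  rw [h2]
  exact (VX_congr (fun x => stc_SPerm σ A z x)).1 (VX_SPerm hX σ)

theorem edgS_SPerm (V : CC) (σ : SPerm (Fin 3)) (A B : Ct) :
    edgS (act σ.aut V) A B = edgS V (fun x => A (σ.letter x)) (fun x => B (σ.letter x)) := by
  obtain ⟨w, hw, rfl⟩ := exists_CR V
  rw [Rel_act_cls, edgS, edgS]
  rw [Rel_cyc_rotated _ (rep_rotated (Rel_CR_map σ hw)), Rel_cyc_rotated _ (rep_rotated hw),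
    Rel_cyc_map]
  simp only [SPerm.letter_bar]

theorem Full_SPerm {n : ℕ} {V : CC} (h : Full n V) (σ : SPerm (Fin 3)) :
    Full n (act σ.aut V) := by
  obtain ⟨r, hr, he⟩ := h
  refine ⟨fun i => σ.letter (r i), fun i j hij => hr ((letter_inj σ).1 hij), ?_⟩
  intro i
  rw [edgS_SPerm, ← he i]
  congr 1
  apply edgS_congr
  · intro x
    show decide (σ.letter x = σ.letter (r i)) = decide (x = r i)
    rw [decide_eq_decide]
    exact letter_inj σ
  · intro x
    show decide (σ.letter x = σ.letter (r (i + 1))) = decide (x = r (i + 1))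
    rw [decide_eq_decide]
    exact letter_inj σ

theorem Ntr_SPerm {A : Ct} (h : Ntr A) (σ : SPerm (Fin 3)) : Ntr (fun x => A (σ.letter x)) := by
  obtain ⟨⟨x, y, hxy, hx, hy⟩, ⟨z, w, hzw, hz, hw⟩⟩ := h
  refine ⟨⟨σ.inv.letter x, σ.inv.letter y, ?_, ?_, ?_⟩,
    ⟨σ.inv.letter z, σ.inv.letter w, ?_, ?_, ?_⟩⟩
  · exact fun h => hxy ((letter_inj σ.inv).1 h)
  · beta_reduce; rw [SPerm.letter_inv]; exact hx
  · beta_reduce; rw [SPerm.letter_inv]; exact hy
  · exact fun h => hzw ((letter_inj σ.inv).1 h)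
  · beta_reduce; rw [SPerm.letter_inv]; exact hz
  · beta_reduce; rw [SPerm.letter_inv]; exact hw

theorem orb_SPerm_eq (σ : SPerm (Fin 3)) {V : CC} (hO : OMin V) : orb (act σ.aut V) = orb V :=
  orb_eq (orb_SPerm σ V)

theorem Bdd_SPerm {V : CC} {N : ℕ} (σ : SPerm (Fin 3)) (hO : OMin V) (h : Bdd (act σ.aut V) N) :
    Bdd V N :=
  Bdd_orb (orb_SPerm σ V) h

theorem EvBasS_perm : ∀ i j : Fin 3, i ≠ j → ∃ e : Equiv.Perm (Fin 3), e i = 0 ∧ e j = 1 := by
  decide

/-- a signed permutation mapping two given letters of different generators to `(0, true)`, `(1, true)` -/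
theorem exists_SPerm_two {z y : Fin 3 × Bool} (h : z.1 ≠ y.1) :
    ∃ σ : SPerm (Fin 3), σ.letter z = (0, true) ∧ σ.letter y = (1, true) := by
  obtain ⟨e, h0, h1⟩ := EvBasS_perm z.1 y.1 h
  refine ⟨⟨e, fun k => if k = z.1 then z.2 else y.2⟩, ?_, ?_⟩
  · refine Prod.ext h0 ?_
    show (if (if z.1 = z.1 then z.2 else y.2) = true then z.2 else !z.2) = true
    simp only [if_true]
    cases z.2 <;> rfl
  · refine Prod.ext h1 ?_
    show (if (if y.1 = z.1 then z.2 else y.2) = true then y.2 else !y.2) = true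
    have hne : y.1 ≠ z.1 := fun h' => h h'.symm
    simp only [if_neg hne]
    cases y.2 <;> rfl

end Pool.Agent.Sims
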