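import Pool.Agent.Sims.EvPF
import Pool.Agent.Sims.EvU
import Pool.Agent.Sims.EvI

/-!
# Module `EvC2` : two rigid letters

`¬ Crs n V a`, `¬ Crs n V b` with `a = (0, true)`, `b = (1, true)`.
Let `P = EM (· = 2) V`.  By `crs_em`: `¬ Crs n W a` for all `W ∈ EM (· ≠ 0) V`, and `¬ Crs n W b` for all `W ∈ P`.
`lemU` twice: every `e ∈ EM ⊤ V` is `σ (A, a) W₁`, `W₁ ∈ EM (fun j => True ∧ j ≠ 0) V` (`A` level at `W₁`), and every such `W₁` (`M = (True ∧ · ≠ 0)`, `i = 1`) is `τ (C, b) q`, `q ∈ EM (fun j => (True ∧ j ≠ 0) ∧ j ≠ 1) V = P`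
(`EM_mono` to change the predicates), where `τ` fixes the letters `a^{±1}`.  So `e = σ (A, a) τ X = σ τ (A', a) X`, `X = act (wh b C) q`, `A' = A ∘ τ`, level at `X` (`TwBasic_SPerm` for `τ⁻¹`, `act_SPerm_inv`).
So it suffices to cover `S = {W | ∃ q ∈ P, ∃ C, Lv q b C ∧ ∃ A, Lv (act (wh b C) q) a A ∧ W = act (wh a A) (act (wh b C) q)}` (`bdd_of_cov`).
For `q ∈ P`: `T q = {W | ∃ C, Lv q b C ∧ ∃ A, …}`.  `cntMv2` with `T' X = {W | ∃ A, Lv X a A ∧ W = act (wh a A) X}`:  `cntMv` gives the cover of `T' X` with `1 + #LS X a` elements.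
- `q` not full: `#LS q a ≤ 5`, `#LS q b ≤ 5` (`ls_six`); for `C ∈ LS q b` the class `X = act (wh b C) q` is not full: the cut `stc C b` has capacity `n` at `X` (`Lv_inv`), is nontrivial, and is not visibly crossed
  since `¬ Crs n q b`; `full_not`.  So `#LS X a ≤ 5`, and `T q` has a cover with `6 + 5·6 = 36` elements.
- `q` full: `#LS ≤ 7` (`ls_seven`), and as before `X` is not full for `C ∈ LS q b`: `8 + 7·6 = 50`.
`pbd V 2`: either `P` has a cover with `10` elements: `cov_bind` gives `10·50 = 500 ≤ 540`; or `P` has a cover with `15` elements and all `q ∈ P` are not full: `15·36 = 540`.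
(`Ntr (stc C b)`: same letters `≠ b^{±1}` as `C`.)
Difficulty 3.
-/

namespace Pool.Agent.Sims

theorem ntr_stc {z : Fin 3 × Bool} {A : Ct} (hz : A z = true) (hz' : A (bar z) = false)
    (h : Ntr A) : Ntr (stc A z) := by
  obtain ⟨⟨x, y, hxy, hx, hy⟩, ⟨u, v, huv, hu, hv⟩⟩ := h
  have e1 : ∃ x, x ≠ z ∧ A x = true := by
    by_cases hxz : x = z
    · exact ⟨y, fun h => hxy (by rw [hxz, h]), hy⟩
    · exact ⟨x, hxz, hx⟩
  have e2 : ∃ u, u ≠ bar z ∧ A u = false := by
    by_cases hxz : u = bar z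
    · exact ⟨v, fun h => huv (by rw [hxz, h]), hv⟩
    · exact ⟨u, hxz, hu⟩
  obtain ⟨x, hxz, hx⟩ := e1
  obtain ⟨u, huz, hu⟩ := e2
  refine ⟨⟨x, bar z, ?_, ?_, ?_⟩, ⟨z, u, ?_, ?_, ?_⟩⟩
  · intro h
    rw [h, hz'] at hx
    exact Bool.false_ne_true hx
  · simp [stc, hx, hxz]
  · simp [stc]
  · intro h
    rw [← h, hz] at hu
    exact Bool.false_ne_true hu.symm
  · simp [stc, (bar_ne z).symm]
  · simp [stc, hu, huz]

theorem EvC2_lv {n : ℕ} {q : CC} (E : Eq3 n q) (hb : ¬ Crs n q (1, true)) {C : Ct}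
    (hC : C ∈ LS q (1, true)) :
    Cov {W | ∃ A, Lv (act (wh (1, true) C) q) (0, true) A ∧
      W = act (wh (0, true) A) (act (wh (1, true) C) q)} 6 := by
  obtain ⟨hL, hN⟩ := ls_mem.1 hC
  have E' := E.lv hL
  have h1 := (Lv_inv hL).1
  have h2 : NC n (act (wh (1, true) C) q) (stc C (1, true)) := ((Lv_NC E').1 h1).2.2
  have h3 : Ntr (stc C (1, true)) := ntr_stc hL.1 hL.2.1 hN
  have h4 : ¬ VX n (act (wh (1, true) C) q) (stc C (1, true)) := fun h => hb ⟨C, hL, h⟩
  have h5 := full_not E' h2 h3 h4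
  have h6 : (LS (act (wh (1, true) C) q) (0, true)).card ≤ 5 := by
    by_contra hcon
    exact h5 (ls_six E' (0, true) (by omega))
  exact cov_mono (cntMv _ _) (fun W hW => hW) (by omega)

theorem c2_q {n : ℕ} {q : CC} (E : Eq3 n q) (hb : ¬ Crs n q (1, true)) :
    Cov {W | ∃ C, Lv q (1, true) C ∧ ∃ A, Lv (act (wh (1, true) C) q) (0, true) A ∧
      W = act (wh (0, true) A) (act (wh (1, true) C) q)} 50 ∧
    (¬ Full n q → Cov {W | ∃ C, Lv q (1, true) C ∧ ∃ A, Lv (act (wh (1, true) C) q) (0, true) A ∧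
      W = act (wh (0, true) A) (act (wh (1, true) C) q)} 36) := by
  have h0 := cntMv q (0, true)
  have key := cntMv2 q (1, true)
    (fun X => {W | ∃ A, Lv X (0, true) A ∧ W = act (wh (0, true) A) X})
    (K := 1 + (LS q (0, true)).card) (K' := 6) h0 (fun C hC => EvC2_lv E hb hC)
  constructor
  · have h1 := ls_seven E (0, true)
    have h2 := ls_seven E (1, true)
    exact cov_mono key (fun W hW => hW) (by omega)
  · intro hF
    have h1 : (LS q (0, true)).card ≤ 5 := by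
      by_contra hcon
      exact hF (ls_six E (0, true) (by omega))
    have h2 : (LS q (1, true)).card ≤ 5 := by
      by_contra hcon
      exact hF (ls_six E (1, true) (by omega))
    exact cov_mono key (fun W hW => hW) (by omega)

theorem c2_form {n : ℕ} {V : CC} (E : Eq3 n V) (ha : ¬ Crs n V (0, true))
    (hb : ¬ Crs n V (1, true)) {e : CC} (he : e ∈ EM (fun _ => True) V) :
    ∃ σ : SPerm (Fin 3), ∃ q ∈ EM (fun i => i = 2) V, ∃ C, Lv q (1, true) C ∧
      ∃ A, Lv (act (wh (1, true) C) q) (0, true) A ∧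
        e = act σ.aut (act (wh (0, true) A) (act (wh (1, true) C) q)) := by
  obtain ⟨σ, W1, A, hW1, hA, -, he1⟩ := lemU E (M := fun _ => True) (i := 0) trivial
    (fun W hW h => ha ((crs_em E (M := fun j => True ∧ j ≠ 0) (z := (0, true))
      (fun h => h.2 rfl) hW).1 h)) he
  obtain ⟨τ, q, C, hq, hC, hτ, he2⟩ := lemU E (M := fun j => True ∧ j ≠ 0) (i := 1)
    ⟨trivial, by decide⟩
    (fun W hW h => hb ((crs_em E (M := fun j => (True ∧ j ≠ 0) ∧ j ≠ 1) (z := (1, true))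
      (fun h => h.2 rfl) hW).1 h)) hW1
  have t1 : τ.letter (0, true) = (0, true) := hτ _ (fun h => h.2 rfl)
  have t2 : τ.letter (bar (0, true)) = bar (0, true) := hτ _ (fun h => h.2 rfl)
  have hq' : q ∈ EM (fun i => i = 2) V := by
    refine EM_mono ?_ hq
    intro i hi
    revert hi
    revert i
    decide
  refine ⟨Conn_comp σ τ, q, hq', C, hC, fun x => A (τ.letter x), ?_, ?_⟩
  · have h1 := TwBasic_SPerm τ.inv hA
    rw [he2, act_SPerm_inv] at h1
    obtain ⟨⟨p1, p2, p3⟩, -⟩ := h1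
    refine ⟨?_, ?_, ?_⟩
    · change A (τ.letter (0, true)) = true
      rw [t1]; exact hA.1
    · change A (τ.letter (bar (0, true))) = false
      rw [t2]; exact hA.2.1
    · have h2 := hA.2.2
      rw [he2, capC_SPerm] at h2
      rw [h2]
      have h3 := cnt_SPerm τ (act (wh (1, true) C) q) 0
      have h4 : τ.perm 0 = 0 := congrArg Prod.fst t1
      rw [h4] at h3
      exact h3
  · rw [he1, he2, ← Conn_act_comp]
    have h1 := act_wh_SPerm τ (0, true) A (act (wh (1, true) C) q)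
    rw [t1] at h1
    rw [h1]

theorem c2 {n : ℕ} {V : CC} (E : Eq3 n V) (ha : ¬ Crs n V (0, true))
    (hb : ¬ Crs n V (1, true)) : Bdd V 540 := by
  have hb' : ∀ q ∈ EM (fun i => i = 2) V, ¬ Crs n q (1, true) := fun q hq h =>
    hb ((crs_em E (M := fun i => i = 2) (z := (1, true)) (by decide) hq).1 h)
  have form : ∀ e ∈ EM (fun _ => True) V, ∃ σ : SPerm (Fin 3),
      ∃ s ∈ {W | ∃ q ∈ EM (fun i => i = 2) V, W ∈ {W | ∃ C, Lv q (1, true) C ∧ ∃ A,
        Lv (act (wh (1, true) C) q) (0, true) A ∧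
          W = act (wh (0, true) A) (act (wh (1, true) C) q)}}, e = act σ.aut s := by
    intro e he
    obtain ⟨σ, q, hq, C, hC, A, hA, h⟩ := c2_form E ha hb he
    exact ⟨σ, _, ⟨q, hq, C, hC, A, hA, rfl⟩, h⟩
  rcases pbd E 2 with h | ⟨h, hF⟩
  · have := cov_bind h (fun q => {W | ∃ C, Lv q (1, true) C ∧ ∃ A,
        Lv (act (wh (1, true) C) q) (0, true) A ∧
          W = act (wh (0, true) A) (act (wh (1, true) C) q)})
      (fun q hq => (c2_q (E.em hq) (hb' q hq)).1)
    exact bdd_of_cov E.hO (cov_mono this (fun W hW => hW) (by norm_num)) form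
  · have := cov_bind h (fun q => {W | ∃ C, Lv q (1, true) C ∧ ∃ A,
        Lv (act (wh (1, true) C) q) (0, true) A ∧
          W = act (wh (0, true) A) (act (wh (1, true) C) q)})
      (fun q hq => (c2_q (E.em hq) (hb' q hq)).2 (hF q hq))
    exact bdd_of_cov E.hO (cov_mono this (fun W hW => hW) (by norm_num)) form

end Pool.Agent.Sims
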