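import Pool.Agent.Sims.EvEM
import Pool.Agent.Sims.SylEdge

/-!
# Module `EvCL` : closed sets of letters

`c = (j, true)`, `c⁻¹ = (j, false)`.
* `clo_of_nox`: if no mixed syllable exists (`NoX X s`) then `Clo j V X` (`TwPot_NoX_act`, `TwPot_cases`; in the first alternative of `TwPot_cases` everything acts trivially).
* `clo_compl`: `ind X + ind Xᶜ` is the constant `1`: `pot_const`: from `act (pot j (p + ind X)) V = act (pot j p) V` for all `p` get the same for `Xᶜ` (use `p - ind X`).
* `clo_congr`: `pot_congr`.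
* `clo_all`: `pot_const`.
* `cl`: `A` level `c`-cut, `D = rs j A`, `D' = rs j Aᶜ`; `edgS V D D' = 0`, `edgS V {c} {c⁻¹} = 0` and `edgS V' {c} {c⁻¹} = 0`, `V' = act (wh (j,true) A) V`.
  Syllable form `s` of `V` (`TwPot_cases` / `exists_syl`).  All exponents of `V` satisfy `|k| ≤ 1` and the mixed syllables (one end in `D`, the other one in `D'`) have `k ≠ 0`.  In `V'` the mixed syllables with
  `x ∈ D` have the exponent `k + 1`, those with `x ∈ D'` have `k - 1`, of absolute value `≤ 1`: so it is `0`.  So `cnt V' j = cnt V j - #(mixed syllables)`, but `cnt V' j = cnt V j` (level), so there are none: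
  `NoX`, `clo_of_nox`.
Difficulty 2.
-/

namespace Pool.Agent.Sims

theorem clo_congr {j : Fin 3} {V : CC} {X Y : Ct} (h : ∀ x : Fin 3 × Bool, x.1 ≠ j → X x = Y x)
    (hX : Clo j V X) : Clo j V Y := by
  intro p
  rw [← hX p]
  apply pot_congr
  intro x hx
  simp only [Pi.add_apply, ind, h x hx]

theorem clo_compl {j : Fin 3} {V : CC} {X : Ct} (hX : Clo j V X) : Clo j V (fun x => !X x) := by
  intro p
  have h1 := hX (p - ind X)
  have h2 : act (pot j (p + ind (fun x => !X x))) V = act (pot j (p - ind X)) V := by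
    apply pot_const 1
    intro x _
    simp only [Pi.add_apply, Pi.sub_apply, ind]
    rcases Bool.eq_false_or_eq_true (X x) with h3 | h3
    · simp [h3]
    · simp [h3]
  rw [h2, ← h1, sub_add_cancel]

theorem clo_all (j : Fin 3) (V : CC) : Clo j V (fun _ => true) := by
  intro p
  apply pot_const 1
  intro x _
  simp only [Pi.add_apply, ind, if_true]

theorem clo_pot {j : Fin 3} {V : CC} {X : Ct} (hX : Clo j V X) (q : Fin 3 × Bool → ℤ) :
    Clo j (act (pot j q) V) X := by
  intro p
  rw [pot_add, pot_add]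
  have h1 : p + ind X + q = (p + q) + ind X := by
    rw [add_right_comm]
  rw [h1]
  exact hX (p + q)

theorem clo_of_nox {j : Fin 3} {V : CC} {X : Ct} {s : List ((Fin 3 × Bool) × ℤ)}
    (hs : ∀ q : Fin 3 × Bool → ℤ, act (pot j q) V = cls (expand j (shift q s))) (h : NoX X s) :
    Clo j V X := fun p => by rw [hs, hs, NoX_shift h]

theorem EvCL_lin_congr {β : Type*} {f g : β → β → ℕ} (x : β) (l : List β) (z : β)
    (h : ∀ q ∈ x :: l, ∀ r ∈ l ++ [z], f q r = g q r) : lin f x l z = lin g x l z := by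
  induction l generalizing x with
  | nil => exact h x (by simp) z (by simp)
  | cons a l ih =>
    rw [lin, lin, h x (by simp) a (by simp), ih a]
    intro q hq r hr
    exact h q (List.mem_cons_of_mem _ hq) r (List.mem_cons_of_mem _ hr)

theorem EvCL_cyc_congr {β : Type*} {f g : β → β → ℕ} (s : List β)
    (h : ∀ q ∈ s, ∀ r ∈ s, f q r = g q r) : cyc f s = cyc g s := by
  cases s with
  | nil => rfl
  | cons x l =>
    refine EvCL_lin_congr x l x ?_
    intro q hq r hr
    refine h q hq r ?_
    rcases List.mem_append.1 hr with h1 | h1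
    · exact List.mem_cons_of_mem _ h1
    · rw [List.mem_singleton] at h1
      subst h1
      exact List.mem_cons_self

theorem EvCL_pt (k : ℤ) (a b : Bool) :
    (k + (if a then (1 : ℤ) else 0) - (if b then (1 : ℤ) else 0)).natAbs +
        (if a = b then 0 else 1) ≤
      k.natAbs + ((if k = 0 ∧ ((a && !b) || (!a && b)) = true then 2 else 0) +
        (2 * (k.natAbs - 1) +
        2 * ((k + (if a then (1 : ℤ) else 0) - (if b then (1 : ℤ) else 0)).natAbs - 1))) := by
  cases a <;> cases b <;> simp <;> split_ifs <;> omega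

theorem EvCL_two {β : Type*} (f : β → β → ℕ) (l : List β) :
    cyc (fun x y => 2 * f x y) l = 2 * cyc f l := by
  rw [two_mul, ← cyc_add]
  congr 1
  funext x y
  ring

theorem cl {n : ℕ} {V : CC} (E : Eq3 n V) {j : Fin 3} {A : Ct} (hA : Lv V (j, true) A)
    (h0 : edgS V (rs j A) (rs j (fun x => !A x)) = 0)
    (h1 : edgS V (sgl (j, true)) (sgl (j, false)) = 0)
    (h2 : edgS (act (wh (j, true) A) V) (sgl (j, true)) (sgl (j, false)) = 0) : Clo j V A := by
  have hw := cnt_wh_self V (j, true) A hA.1 hA.2.1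
  have hL : capC V A = cnt V j := hA.2.2
  rw [hL] at hw
  rw [wh_pot] at h2 hw
  rcases WhEff_cases j V with ⟨k, rfl⟩ | ⟨s, -, hs, rfl⟩
  · intro p
    rw [act_pot_pow, act_pot_pow]
  · have hact : ∀ q : Fin 3 × Bool → ℤ, act (pot j q) (cls (expand j s)) =
        cls (expand j (shift q s)) := fun q => act_pot _ _ _ hs.1
    have hs' := SValid_shift j (ind A) s hs
    apply clo_of_nox hact
    rw [hact, edgS_jj hs', ← cyc_fst (fun q : (Fin 3 × Bool) × ℤ => q.2.natAbs - 1),
      cyc_shift (fun (q : (Fin 3 × Bool) × ℤ) (_ : Fin 3 × Bool) => q.2.natAbs - 1)] at h2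
    rw [edgS_jj hs, ← cyc_fst (fun q : (Fin 3 × Bool) × ℤ => q.2.natAbs - 1)] at h1
    rw [hact, cnt_cls hs'.2, cnt_cls hs.2, cntL_expand_self _ _ hs'.1,
      cntL_expand_self _ _ hs.1, sum_shift,
      ← cyc_fst (fun q : (Fin 3 × Bool) × ℤ => q.2.natAbs)] at hw
    rw [edgS_zero hs (by simp [rs]) (by simp [rs]) (by simp [rs]) (by simp [rs])] at h0
    have h3 : cyc (fun q r : (Fin 3 × Bool) × ℤ =>
        if q.2 = 0 ∧ ((A q.1 && !A (bar r.1)) || (!A q.1 && A (bar r.1))) = true
        then 1 else 0) s = 0 := by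
      refine Eq.trans ?_ h0
      apply EvCL_cyc_congr
      intro q hq r hr
      have hqj : q.1.1 ≠ j := hs.1 q hq
      have hrj : (bar r.1).1 ≠ j := hs.1 r hr
      simp only [rs, hqj, hrj, ne_eq, not_false_eq_true, decide_true, Bool.and_true]
    have h3' : cyc (fun q r : (Fin 3 × Bool) × ℤ =>
        if q.2 = 0 ∧ ((A q.1 && !A (bar r.1)) || (!A q.1 && A (bar r.1))) = true
        then 2 else 0) s = 0 := by
      have h4 := EvCL_two (fun q r : (Fin 3 × Bool) × ℤ =>
        if q.2 = 0 ∧ ((A q.1 && !A (bar r.1)) || (!A q.1 && A (bar r.1))) = true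
        then 1 else 0) s
      rw [h3, mul_zero] at h4
      refine Eq.trans ?_ h4
      congr 1
      funext q r
      split_ifs <;> rfl
    have key : cyc (fun q r : (Fin 3 × Bool) × ℤ =>
        (q.2 + ind A q.1 - ind A (bar r.1)).natAbs +
          (if A q.1 = A (bar r.1) then 0 else 1)) s ≤
        cyc (fun q r : (Fin 3 × Bool) × ℤ => q.2.natAbs +
          ((if q.2 = 0 ∧ ((A q.1 && !A (bar r.1)) || (!A q.1 && A (bar r.1))) = true
          then 2 else 0) + (2 * (q.2.natAbs - 1) +
          2 * ((q.2 + ind A q.1 - ind A (bar r.1)).natAbs - 1)))) s := by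
      apply cyc_mono
      intro q r
      exact EvCL_pt q.2 (A q.1) (A (bar r.1))
    rw [cyc_add (fun q r : (Fin 3 × Bool) × ℤ => (q.2 + ind A q.1 - ind A (bar r.1)).natAbs)
      (fun q r => if A q.1 = A (bar r.1) then 0 else 1)] at key
    rw [cyc_add (fun q _ : (Fin 3 × Bool) × ℤ => q.2.natAbs), cyc_add, cyc_add, EvCL_two,
      EvCL_two, h3', h1, h2, hw] at key
    unfold NoX
    omega

end Pool.Agent.Sims
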