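import Pool.Agent.Sims.EvF1

/-!
# Module `EvCP` : cyclic partitions (`CPm`)

* `cp_four`: `A`, `B` of capacity `n` crossing: `f x = 0` on `A ∧ B`, `1` on `A ∧ ¬B`, `2` on `¬A ∧ ¬B`, `3` on `¬A ∧ B`: `f1e`.
* `cp_rot`, `cp_refl`: relabelling of the blocks by a rotation or the reflection `i ↦ -i` (`edgS_comm`; `bk (fun x => f x + k) i = bk f (i - k)`).
* `cp_cap`: the capacity of a block is `n` (`m ≥ 4`): `capC_edgS` and additivity over the other blocks: two neighbours with `n/2` each.  (`m = 4, 5`; use `edgS_split` repeatedly.)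
* `cp_arc`: the union of two neighbouring blocks has capacity `n` (`capC_union`).
* `cp_refine`: `C` of capacity `n` crosses the block `Y = bk f 0`, and the block `1` is not divided by `C`; `m ≥ 4`.  Let `Y₁ = Y ∧ C`, `Y₂ = Y ∧ ¬C`, `Z₁ = C ∧ ¬Y`, `Z₂ = ¬C ∧ ¬Y`.
  `f1e` (for `C`, `Y`, `cp_cap`): `2 e(Y₁,Y₂) = 2 e(Y₁,Z₁) = 2 e(Y₂,Z₂) = n`, `e(Y₁,Z₂) = e(Y₂,Z₁) = 0`.
  WLOG the block `1` is contained in the complement of `C` (otherwise replace `C` by its complement), so `e(Y₁, bk f 1) = 0`, and therefore `2 e(Y₂, bk f 1) = n` (`2 e(Y, bk f 1) = n`).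
  The edges of `Y` go to the blocks `1` and `m-1 = -1` only.  `2 e(Y₂, Z₂) = n` is used up by the block `1`, so `e(Y₂, bk f (-1)) = 0` and `2 e(Y₁, bk f (-1)) = n`.
  So `f' x = 0` on `Y₁`, `1` on `Y₂`, `f x + 1` (as a number) on the other letters is a cyclic partition into `m + 1` blocks.
  (State and prove it for `m = 4` and `m = 5` separately if that is easier: only `cp_refine4`, `cp_refine5` are used.)
* `cp_full`: `m = 6`: `f` is a bijection; `r = f⁻¹`; `bk f i = sgl (r i)`.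
* `cp_T`: `m = 5` with the block `0` equal to `{a, a⁻¹} = PrC 0`: the other four blocks are singletons `r 0, …, r 3`: `Five`.
Difficulty 3.
-/

namespace Pool.Agent.Sims

theorem EvCP_mk4 {n : ℕ} {V : CC} {f : Fin 3 × Bool → Fin 4} (hs : Function.Surjective f)
    (e01 : 2 * edgS V (bk f 0) (bk f 1) = n) (e12 : 2 * edgS V (bk f 1) (bk f 2) = n)
    (e23 : 2 * edgS V (bk f 2) (bk f 3) = n) (e30 : 2 * edgS V (bk f 3) (bk f 0) = n)
    (z02 : edgS V (bk f 0) (bk f 2) = 0) (z13 : edgS V (bk f 1) (bk f 3) = 0) :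
    CPm n V 4 f := by
  refine ⟨hs, ?_, ?_⟩
  · intro i
    fin_cases i
    · exact e01
    · exact e12
    · exact e23
    · exact e30
  · intro i j h1 h2 h3
    fin_cases i <;> fin_cases j <;>
      first
        | exact absurd rfl h1
        | exact absurd rfl h2
        | exact absurd rfl h3
        | exact z02
        | exact z13
        | exact (edgS_comm _ _ _).trans z02
        | exact (edgS_comm _ _ _).trans z13

theorem EvCP_mk5 {n : ℕ} {V : CC} {f : Fin 3 × Bool → Fin 5} (hs : Function.Surjective f)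
    (e01 : 2 * edgS V (bk f 0) (bk f 1) = n) (e12 : 2 * edgS V (bk f 1) (bk f 2) = n)
    (e23 : 2 * edgS V (bk f 2) (bk f 3) = n) (e34 : 2 * edgS V (bk f 3) (bk f 4) = n)
    (e40 : 2 * edgS V (bk f 4) (bk f 0) = n)
    (z02 : edgS V (bk f 0) (bk f 2) = 0) (z03 : edgS V (bk f 0) (bk f 3) = 0)
    (z13 : edgS V (bk f 1) (bk f 3) = 0) (z14 : edgS V (bk f 1) (bk f 4) = 0)
    (z24 : edgS V (bk f 2) (bk f 4) = 0) :
    CPm n V 5 f := by
  refine ⟨hs, ?_, ?_⟩
  · intro i
    fin_cases i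
    · exact e01
    · exact e12
    · exact e23
    · exact e34
    · exact e40
  · intro i j h1 h2 h3
    fin_cases i <;> fin_cases j <;>
      first
        | exact absurd rfl h1
        | exact absurd rfl h2
        | exact absurd rfl h3
        | exact z02
        | exact z03
        | exact z13
        | exact z14
        | exact z24
        | exact (edgS_comm _ _ _).trans z02
        | exact (edgS_comm _ _ _).trans z03
        | exact (edgS_comm _ _ _).trans z13
        | exact (edgS_comm _ _ _).trans z14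
        | exact (edgS_comm _ _ _).trans z24

theorem EvCP_mk6 {n : ℕ} {V : CC} {f : Fin 3 × Bool → Fin 6} (hs : Function.Surjective f)
    (e01 : 2 * edgS V (bk f 0) (bk f 1) = n) (e12 : 2 * edgS V (bk f 1) (bk f 2) = n)
    (e23 : 2 * edgS V (bk f 2) (bk f 3) = n) (e34 : 2 * edgS V (bk f 3) (bk f 4) = n)
    (e45 : 2 * edgS V (bk f 4) (bk f 5) = n) (e50 : 2 * edgS V (bk f 5) (bk f 0) = n)
    (z02 : edgS V (bk f 0) (bk f 2) = 0) (z03 : edgS V (bk f 0) (bk f 3) = 0)
    (z04 : edgS V (bk f 0) (bk f 4) = 0)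
    (z13 : edgS V (bk f 1) (bk f 3) = 0) (z14 : edgS V (bk f 1) (bk f 4) = 0)
    (z15 : edgS V (bk f 1) (bk f 5) = 0)
    (z24 : edgS V (bk f 2) (bk f 4) = 0) (z25 : edgS V (bk f 2) (bk f 5) = 0)
    (z35 : edgS V (bk f 3) (bk f 5) = 0) :
    CPm n V 6 f := by
  refine ⟨hs, ?_, ?_⟩
  · intro i
    fin_cases i
    · exact e01
    · exact e12
    · exact e23
    · exact e34
    · exact e45
    · exact e50
  · intro i j h1 h2 h3
    fin_cases i <;> fin_cases j <;>
      first
        | exact absurd rfl h1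
        | exact absurd rfl h2
        | exact absurd rfl h3
        | exact z02
        | exact z03
        | exact z04
        | exact z13
        | exact z14
        | exact z15
        | exact z24
        | exact z25
        | exact z35
        | exact (edgS_comm _ _ _).trans z02
        | exact (edgS_comm _ _ _).trans z03
        | exact (edgS_comm _ _ _).trans z04
        | exact (edgS_comm _ _ _).trans z13
        | exact (edgS_comm _ _ _).trans z14
        | exact (edgS_comm _ _ _).trans z15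
        | exact (edgS_comm _ _ _).trans z24
        | exact (edgS_comm _ _ _).trans z25
        | exact (edgS_comm _ _ _).trans z35

/-- additivity over the blocks -/
theorem EvCP_sum {V : CC} {m : ℕ} (f : Fin 3 × Bool → Fin m) {P Q : Ct}
    (h : ∀ x, P x = true → Q x = false) :
    edgS V P Q = ∑ i, edgS V P (fun x => Q x && bk f i x) := by
  classical
  have key : ∀ s : Finset (Fin m),
      edgS V P (fun x => Q x && decide (f x ∈ s)) = ∑ i ∈ s, edgS V P (fun x => Q x && bk f i x) := by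
    intro s
    induction s using Finset.induction_on with
    | empty =>
      rw [Finset.sum_empty, edgS_comm]
      exact edgS_empty V (by intro x; simp)
    | insert a s ha ih =>
      rw [Finset.sum_insert ha, ← ih]
      rw [edgS_split V (bk f a) (P := P) (Q := fun x => Q x && decide (f x ∈ insert a s))]
      · congr 1
        · apply edgS_congr V (fun x => rfl)
          intro x
          by_cases hx : f x = a <;> simp [bk, hx]
        · apply edgS_congr V (fun x => rfl)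
          intro x
          by_cases hx : f x = a
          · simp [bk, hx, ha]
          · simp [bk, hx]
      · intro x hx
        simp [h x hx]
  rw [← key Finset.univ]
  apply edgS_congr V (fun x => rfl)
  intro x
  simp

theorem EvCP_bk {m : ℕ} (f : Fin 3 × Bool → Fin m) (i : Fin m) (x : Fin 3 × Bool) :
    bk f i x = true ↔ f x = i := by simp [bk]

theorem EvCP_bkf {m : ℕ} (f : Fin 3 × Bool → Fin m) (i : Fin m) (x : Fin 3 × Bool) :
    bk f i x = false ↔ f x ≠ i := by simp [bk]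

theorem EvCP_cap {V : CC} {m : ℕ} (f : Fin 3 × Bool → Fin m) (i : Fin m) :
    capC V (bk f i) = ∑ j, if j = i then 0 else edgS V (bk f i) (bk f j) := by
  rw [capC_edgS, EvCP_sum f (by intro x hx; simp [hx])]
  refine Finset.sum_congr rfl fun j _ => ?_
  split_ifs with hj
  · subst hj
    rw [edgS_comm]
    exact edgS_empty V (by intro x; by_cases hx : bk f j x = true <;> simp [hx])
  · apply edgS_congr V (fun x => rfl)
    intro x
    by_cases hx : f x = j
    · have h2 : bk f i x = false := (EvCP_bkf f i x).2 (by rw [hx]; exact hj)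
      simp [h2]
    · have h2 : bk f j x = false := (EvCP_bkf f j x).2 hx
      simp [h2]

theorem cp_four {n : ℕ} {V : CC} (E : Eq3 n V) {A B : Ct} (hA : NC n V A) (hB : NC n V B)
    (hX : Crossg A B) : ∃ f : Fin 3 × Bool → Fin 4, CPm n V 4 f ∧
      (∀ x, f x = 0 ↔ A x = true ∧ B x = true) ∧ (∀ x, f x = 1 ↔ A x = true ∧ B x = false) ∧
      (∀ x, f x = 2 ↔ A x = false ∧ B x = false) ∧ (∀ x, f x = 3 ↔ A x = false ∧ B x = true) := by
  obtain ⟨g1, g2, g3, g4, g5, g6⟩ := f1e E hA hB hX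
  obtain ⟨f, hf⟩ : ∃ f : Fin 3 × Bool → Fin 4, f = fun x =>
    if A x = true then (if B x = true then 0 else 1) else (if B x = true then 3 else 2) := ⟨_, rfl⟩
  have h0 : ∀ x, f x = 0 ↔ A x = true ∧ B x = true := by
    intro x; rw [hf]; cases hAx : A x <;> cases hBx : B x <;> simp [hAx, hBx]
  have h1 : ∀ x, f x = 1 ↔ A x = true ∧ B x = false := by
    intro x; rw [hf]; cases hAx : A x <;> cases hBx : B x <;> simp [hAx, hBx]
  have h2 : ∀ x, f x = 2 ↔ A x = false ∧ B x = false := by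
    intro x; rw [hf]; cases hAx : A x <;> cases hBx : B x <;> simp [hAx, hBx]
  have h3 : ∀ x, f x = 3 ↔ A x = false ∧ B x = true := by
    intro x; rw [hf]; cases hAx : A x <;> cases hBx : B x <;> simp [hAx, hBx]
  have b0 : ∀ x, bk f 0 x = (A x && B x) := by
    intro x; rw [Bool.eq_iff_iff, EvCP_bk, h0]; simp
  have b1 : ∀ x, bk f 1 x = (A x && !B x) := by
    intro x; rw [Bool.eq_iff_iff, EvCP_bk, h1]; simp
  have b2 : ∀ x, bk f 2 x = (!A x && !B x) := by
    intro x; rw [Bool.eq_iff_iff, EvCP_bk, h2]; simp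
  have b3 : ∀ x, bk f 3 x = (!A x && B x) := by
    intro x; rw [Bool.eq_iff_iff, EvCP_bk, h3]; simp
  refine ⟨f, ?_, h0, h1, h2, h3⟩
  obtain ⟨⟨x0, hx0⟩, ⟨x1, hx1⟩, ⟨x3, hx3⟩, ⟨x2, hx2⟩⟩ := hX
  apply EvCP_mk4
  · intro i
    fin_cases i
    · exact ⟨x0, (h0 _).2 hx0⟩
    · exact ⟨x1, (h1 _).2 hx1⟩
    · exact ⟨x2, (h2 _).2 hx2⟩
    · exact ⟨x3, (h3 _).2 hx3⟩
  · rw [edgS_congr V b0 b1]; exact g3
  · rw [edgS_congr V b1 b2]; exact g5
  · rw [edgS_congr V b2 b3, edgS_comm]; exact g6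
  · rw [edgS_congr V b3 b0, edgS_comm]; exact g4
  · rw [edgS_congr V b0 b2]; exact g1
  · rw [edgS_congr V b1 b3]; exact g2

theorem cp_rot {n : ℕ} {V : CC} {m : ℕ} [NeZero m] {f : Fin 3 × Bool → Fin m} (h : CPm n V m f)
    (k : Fin m) : CPm n V m (fun x => f x - k) := by
  have hb : ∀ i x, bk (fun x => f x - k) i x = bk f (i + k) x := by
    intro i x
    rw [Bool.eq_iff_iff, EvCP_bk, EvCP_bk]
    exact sub_eq_iff_eq_add
  refine ⟨?_, ?_, ?_⟩
  · intro i
    obtain ⟨x, hx⟩ := h.1 (i + k)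
    exact ⟨x, by simp [hx]⟩
  · intro i
    rw [edgS_congr V (hb i) (hb (i + 1)), show i + 1 + k = i + k + 1 by abel]
    exact h.2.1 _
  · intro i j h1 h2 h3
    rw [edgS_congr V (hb i) (hb j)]
    apply h.2.2
    · intro h'; exact h1 (add_right_cancel h')
    · intro h'; apply h2
      have : j + k = i + 1 + k := by rw [h']; abel
      exact add_right_cancel this
    · intro h'; apply h3
      have : i + k = j + 1 + k := by rw [h']; abel
      exact add_right_cancel this

theorem cp_refl {n : ℕ} {V : CC} {m : ℕ} [NeZero m] {f : Fin 3 × Bool → Fin m} (h : CPm n V m f) :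
    CPm n V m (fun x => -(f x)) := by
  have hb : ∀ i x, bk (fun x => -(f x)) i x = bk f (-i) x := by
    intro i x
    rw [Bool.eq_iff_iff, EvCP_bk, EvCP_bk]
    exact neg_eq_iff_eq_neg
  refine ⟨?_, ?_, ?_⟩
  · intro i
    obtain ⟨x, hx⟩ := h.1 (-i)
    exact ⟨x, by simp [hx]⟩
  · intro i
    rw [edgS_congr V (hb i) (hb (i + 1)), edgS_comm]
    have := h.2.1 (-(i + 1))
    rwa [show -(i + 1) + 1 = -i by abel] at this
  · intro i j h1 h2 h3
    rw [edgS_congr V (hb i) (hb j)]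
    apply h.2.2
    · intro h'; exact h1 (neg_injective h')
    · intro h'; apply h3
      have : -j + (j + i) = -i + 1 + (j + i) := by rw [h']
      have h4 : i = j + 1 := by
        calc i = -j + (j + i) := by abel
          _ = -i + 1 + (j + i) := this
          _ = j + 1 := by abel
      exact h4
    · intro h'; apply h2
      have : -i + (j + i) = -j + 1 + (j + i) := by rw [h']
      calc j = -i + (j + i) := by abel
        _ = -j + 1 + (j + i) := this
        _ = i + 1 := by abel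

theorem EvCP_prp {m : ℕ} [NeZero m] (hm : 2 ≤ m) {f : Fin 3 × Bool → Fin m}
    (h : Function.Surjective f) (i : Fin m) : Prp (bk f i) := by
  obtain ⟨x, hx⟩ := h i
  haveI : Nontrivial (Fin m) := Fin.nontrivial_iff_two_le.2 hm
  obtain ⟨j, hj⟩ := exists_ne i
  obtain ⟨y, hy⟩ := h j
  exact ⟨⟨x, (EvCP_bk _ _ _).2 hx⟩, ⟨y, (EvCP_bkf _ _ _).2 (by rw [hy]; exact hj)⟩⟩

theorem cp_cap4 {n : ℕ} {V : CC} (E : Eq3 n V) {f : Fin 3 × Bool → Fin 4} (h : CPm n V 4 f)
    (i : Fin 4) : NC n V (bk f i) := by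
  refine ⟨EvCP_prp (by norm_num) h.1 i, ?_⟩
  have e01 := h.2.1 0
  have e12 := h.2.1 1
  have e23 := h.2.1 2
  have e30 := h.2.1 3
  have z02 := h.2.2 0 2 (by decide) (by decide) (by decide)
  have z13 := h.2.2 1 3 (by decide) (by decide) (by decide)
  have c01 := edgS_comm V (bk f 0) (bk f 1)
  have c12 := edgS_comm V (bk f 1) (bk f 2)
  have c23 := edgS_comm V (bk f 2) (bk f 3)
  have c03 := edgS_comm V (bk f 0) (bk f 3)
  have c02 := edgS_comm V (bk f 0) (bk f 2)
  have c13 := edgS_comm V (bk f 1) (bk f 3)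
  change 2 * edgS V (bk f 0) (bk f 1) = n at e01
  change 2 * edgS V (bk f 1) (bk f 2) = n at e12
  change 2 * edgS V (bk f 2) (bk f 3) = n at e23
  change 2 * edgS V (bk f 3) (bk f 0) = n at e30
  rw [EvCP_cap, Fin.sum_univ_four]
  fin_cases i
  · change 0 + edgS V (bk f 0) (bk f 1) + edgS V (bk f 0) (bk f 2) + edgS V (bk f 0) (bk f 3) = n
    omega
  · change edgS V (bk f 1) (bk f 0) + 0 + edgS V (bk f 1) (bk f 2) + edgS V (bk f 1) (bk f 3) = n
    omega
  · change edgS V (bk f 2) (bk f 0) + edgS V (bk f 2) (bk f 1) + 0 + edgS V (bk f 2) (bk f 3) = n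
    omega
  · change edgS V (bk f 3) (bk f 0) + edgS V (bk f 3) (bk f 1) + edgS V (bk f 3) (bk f 2) + 0 = n
    omega

theorem cp_cap5 {n : ℕ} {V : CC} (E : Eq3 n V) {f : Fin 3 × Bool → Fin 5} (h : CPm n V 5 f)
    (i : Fin 5) : NC n V (bk f i) := by
  refine ⟨EvCP_prp (by norm_num) h.1 i, ?_⟩
  have e01 := h.2.1 0
  have e12 := h.2.1 1
  have e23 := h.2.1 2
  have e34 := h.2.1 3
  have e40 := h.2.1 4
  have z02 := h.2.2 0 2 (by decide) (by decide) (by decide)
  have z03 := h.2.2 0 3 (by decide) (by decide) (by decide)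
  have z13 := h.2.2 1 3 (by decide) (by decide) (by decide)
  have z14 := h.2.2 1 4 (by decide) (by decide) (by decide)
  have z24 := h.2.2 2 4 (by decide) (by decide) (by decide)
  have c01 := edgS_comm V (bk f 0) (bk f 1)
  have c12 := edgS_comm V (bk f 1) (bk f 2)
  have c23 := edgS_comm V (bk f 2) (bk f 3)
  have c34 := edgS_comm V (bk f 3) (bk f 4)
  have c04 := edgS_comm V (bk f 0) (bk f 4)
  have c02 := edgS_comm V (bk f 0) (bk f 2)
  have c03 := edgS_comm V (bk f 0) (bk f 3)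
  have c13 := edgS_comm V (bk f 1) (bk f 3)
  have c14 := edgS_comm V (bk f 1) (bk f 4)
  have c24 := edgS_comm V (bk f 2) (bk f 4)
  change 2 * edgS V (bk f 0) (bk f 1) = n at e01
  change 2 * edgS V (bk f 1) (bk f 2) = n at e12
  change 2 * edgS V (bk f 2) (bk f 3) = n at e23
  change 2 * edgS V (bk f 3) (bk f 4) = n at e34
  change 2 * edgS V (bk f 4) (bk f 0) = n at e40
  rw [EvCP_cap, Fin.sum_univ_five]
  fin_cases i
  · change 0 + edgS V (bk f 0) (bk f 1) + edgS V (bk f 0) (bk f 2) + edgS V (bk f 0) (bk f 3) +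
      edgS V (bk f 0) (bk f 4) = n
    omega
  · change edgS V (bk f 1) (bk f 0) + 0 + edgS V (bk f 1) (bk f 2) + edgS V (bk f 1) (bk f 3) +
      edgS V (bk f 1) (bk f 4) = n
    omega
  · change edgS V (bk f 2) (bk f 0) + edgS V (bk f 2) (bk f 1) + 0 + edgS V (bk f 2) (bk f 3) +
      edgS V (bk f 2) (bk f 4) = n
    omega
  · change edgS V (bk f 3) (bk f 0) + edgS V (bk f 3) (bk f 1) + edgS V (bk f 3) (bk f 2) + 0 +
      edgS V (bk f 3) (bk f 4) = n
    omega
  · change edgS V (bk f 4) (bk f 0) + edgS V (bk f 4) (bk f 1) + edgS V (bk f 4) (bk f 2) +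
      edgS V (bk f 4) (bk f 3) + 0 = n
    omega

theorem cp_arc4 {n : ℕ} {V : CC} (E : Eq3 n V) {f : Fin 3 × Bool → Fin 4} (h : CPm n V 4 f)
    (i : Fin 4) : NC n V (fun x => bk f i x || bk f (i + 1) x) := by
  have hne : i + 1 ≠ i := by revert i; decide
  have hne2 : i + 2 ≠ i := by revert i; decide
  have hne3 : i + 2 ≠ i + 1 := by revert i; decide
  have hu := capC_union V (bk f i) (bk f (i + 1)) (by
    intro x hx
    rw [EvCP_bk] at hx
    rw [EvCP_bkf, hx]
    exact fun h => hne h.symm)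
  have h1 := (cp_cap4 E h i).2
  have h2 := (cp_cap4 E h (i + 1)).2
  have h3 := h.2.1 i
  refine ⟨⟨?_, ?_⟩, by omega⟩
  · obtain ⟨x, hx⟩ := h.1 i
    exact ⟨x, by simp [bk, hx]⟩
  · obtain ⟨x, hx⟩ := h.1 (i + 2)
    refine ⟨x, ?_⟩
    simp [bk, hx, hne2, hne3]

/-- the common part of the refinement lemmas -/
theorem EvCP_ref {n : ℕ} {V : CC} (E : Eq3 n V) {m : ℕ} {f : Fin 3 × Bool → Fin m}
    {i0 i1 i2 : Fin m} (h01 : i1 ≠ i0) (h02 : i2 ≠ i0) (h12 : i1 ≠ i2)
    {C : Ct} (hC : NC n V C) (hY : NC n V (bk f i0)) (hX : Crossg C (bk f i0))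
    (e1 : 2 * edgS V (bk f i0) (bk f i1) = n) (e2 : 2 * edgS V (bk f i0) (bk f i2) = n)
    (h1 : ∀ x, f x = i1 → C x = false) :
    2 * edgS V (fun x => bk f i0 x && C x) (fun x => bk f i0 x && !C x) = n ∧
    edgS V (fun x => bk f i0 x && C x) (bk f i1) = 0 ∧
    2 * edgS V (fun x => bk f i0 x && !C x) (bk f i1) = n ∧
    edgS V (fun x => bk f i0 x && !C x) (bk f i2) = 0 ∧
    2 * edgS V (fun x => bk f i0 x && C x) (bk f i2) = n := by
  obtain ⟨g1, g2, g3, g4, g5, g6⟩ := f1e E hC hY hX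
  -- g1 : e (C ∧ Y) (¬C ∧ ¬Y) = 0 ; g2 : e (C ∧ ¬Y) (¬C ∧ Y) = 0
  -- g4 : 2 e (C ∧ Y) (¬C ∧ Y) = n ; g6 : 2 e (¬C ∧ Y) (¬C ∧ ¬Y) = n
  have d1 : ∀ x, bk f i1 x = true → bk f i0 x = false := by
    intro x hx
    rw [EvCP_bk] at hx
    rw [EvCP_bkf, hx]
    exact h01
  have d2 : ∀ x, bk f i2 x = true → bk f i0 x = false := by
    intro x hx
    rw [EvCP_bk] at hx
    rw [EvCP_bkf, hx]
    exact h02
  have sp : ∀ j : Fin m, (∀ x, bk f j x = true → bk f i0 x = false) →
      edgS V (bk f i0) (bk f j) = edgS V (fun x => bk f i0 x && C x) (bk f j) +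
        edgS V (fun x => bk f i0 x && !C x) (bk f j) := by
    intro j hj
    rw [edgS_comm V (bk f i0), edgS_split V C hj, edgS_comm V (bk f j),
      edgS_comm V (bk f j)]
  have a1 : edgS V (fun x => bk f i0 x && C x) (bk f i1) = 0 := by
    have : edgS V (fun x => bk f i0 x && C x) (bk f i1) ≤
        edgS V (fun x => C x && bk f i0 x) (fun x => !C x && !bk f i0 x) := by
      apply edgS_mono
      · intro x hx
        simp only [Bool.and_eq_true] at hx ⊢
        exact ⟨hx.2, hx.1⟩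
      · intro x hx
        have := h1 x ((EvCP_bk _ _ _).1 hx)
        have := d1 x hx
        simp [*]
    omega
  have s1 := sp i1 d1
  have s2 := sp i2 d2
  have a2 : 2 * edgS V (fun x => bk f i0 x && !C x) (bk f i1) = n := by omega
  have a3 : edgS V (fun x => bk f i0 x && !C x) (bk f i2) = 0 := by
    rw [edgS_split V C (P := fun x => bk f i0 x && !C x) (Q := bk f i2)]
    · have b1 : edgS V (fun x => bk f i0 x && !C x) (fun x => bk f i2 x && C x) = 0 := by
        have : edgS V (fun x => bk f i0 x && !C x) (fun x => bk f i2 x && C x) ≤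
            edgS V (fun x => !C x && bk f i0 x) (fun x => C x && !bk f i0 x) := by
          apply edgS_mono
          · intro x hx
            simp only [Bool.and_eq_true] at hx ⊢
            exact ⟨hx.2, hx.1⟩
          · intro x hx
            simp only [Bool.and_eq_true] at hx ⊢
            exact ⟨hx.2, by simp [d2 x hx.1]⟩
        rw [edgS_comm V (fun x => C x && !bk f i0 x)] at g2
        omega
      have b2 : edgS V (fun x => bk f i0 x && !C x) (fun x => bk f i2 x && !C x) = 0 := by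
        have hsp := edgS_split V (bk f i1) (P := fun x => !C x && bk f i0 x)
          (Q := fun x => !C x && !bk f i0 x) (by
            intro x hx
            simp only [Bool.and_eq_true] at hx
            simp [hx.2])
        have c1 : edgS V (fun x => bk f i0 x && !C x) (bk f i1) ≤
            edgS V (fun x => !C x && bk f i0 x)
              (fun x => (!C x && !bk f i0 x) && bk f i1 x) := by
          apply edgS_mono
          · intro x hx
            simp only [Bool.and_eq_true] at hx ⊢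
            exact ⟨hx.2, hx.1⟩
          · intro x hx
            have q1 := h1 x ((EvCP_bk _ _ _).1 hx)
            have q2 := d1 x hx
            simp [q1, q2, hx]
        have c2 : edgS V (fun x => bk f i0 x && !C x) (fun x => bk f i2 x && !C x) ≤
            edgS V (fun x => !C x && bk f i0 x)
              (fun x => (!C x && !bk f i0 x) && !bk f i1 x) := by
          apply edgS_mono
          · intro x hx
            simp only [Bool.and_eq_true] at hx ⊢
            exact ⟨hx.2, hx.1⟩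
          · intro x hx
            simp only [Bool.and_eq_true] at hx
            have q2 := d2 x hx.1
            have q3 : bk f i1 x = false := by
              rw [EvCP_bkf, (EvCP_bk _ _ _).1 hx.1]
              exact fun h => h12 h.symm
            simp [q2, q3, hx.2]
        omega
      omega
    · intro x hx
      simp only [Bool.and_eq_true] at hx
      by_contra hcon
      have := d2 x (by simpa using hcon)
      rw [this] at hx
      simp at hx
  have a4 : 2 * edgS V (fun x => bk f i0 x && C x) (fun x => bk f i0 x && !C x) = n := by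
    rw [← g4]
    congr 1
    apply edgS_congr V
    · intro x; exact Bool.and_comm _ _
    · intro x; exact Bool.and_comm _ _
  refine ⟨a4, a1, a2, a3, ?_⟩
  omega

/-- parts of a block have no edges to a far block -/
theorem EvCP_far {V : CC} {m : ℕ} {f : Fin 3 × Bool → Fin m} {i j : Fin m} (C : Ct)
    (h : edgS V (bk f i) (bk f j) = 0) :
    edgS V (fun x => bk f i x && C x) (bk f j) = 0 ∧
    edgS V (fun x => bk f i x && !C x) (bk f j) = 0 := by
  constructor
  · have : edgS V (fun x => bk f i x && C x) (bk f j) ≤ edgS V (bk f i) (bk f j) :=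
      edgS_mono V (by intro x hx; simp only [Bool.and_eq_true] at hx; exact hx.1)
        (fun x hx => hx)
    omega
  · have : edgS V (fun x => bk f i x && !C x) (bk f j) ≤ edgS V (bk f i) (bk f j) :=
      edgS_mono V (by intro x hx; simp only [Bool.and_eq_true] at hx; exact hx.1)
        (fun x hx => hx)
    omega

theorem EvCP_refine4 {n : ℕ} {V : CC} (E : Eq3 n V) {f : Fin 3 × Bool → Fin 4} (h : CPm n V 4 f)
    {C : Ct} (hC : NC n V C) (hX : Crossg C (bk f 0))
    (h1 : ∀ x, f x = 1 → C x = false) :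
    ∃ f' : Fin 3 × Bool → Fin 5, CPm n V 5 f' ∧ (∀ x, f x = 0 ↔ (f' x = 0 ∨ f' x = 1)) ∧
      (∀ x, f x = 1 ↔ f' x = 2) ∧ (∀ x, f x = 2 ↔ f' x = 3) ∧ (∀ x, f x = 3 ↔ f' x = 4) := by
  have e01 : 2 * edgS V (bk f 0) (bk f 1) = n := h.2.1 0
  have e12 : 2 * edgS V (bk f 1) (bk f 2) = n := h.2.1 1
  have e23 : 2 * edgS V (bk f 2) (bk f 3) = n := h.2.1 2
  have e30 : 2 * edgS V (bk f 3) (bk f 0) = n := h.2.1 3
  have z02 := h.2.2 0 2 (by decide) (by decide) (by decide)
  have z13 := h.2.2 1 3 (by decide) (by decide) (by decide)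
  obtain ⟨r1, r2, r3, r4, r5⟩ := EvCP_ref E (i0 := 0) (i1 := 1) (i2 := 3) (by decide) (by decide)
    (by decide) hC (cp_cap4 E h 0) hX e01 (by rw [edgS_comm]; exact e30) h1
  obtain ⟨f', hf'⟩ : ∃ f' : Fin 3 × Bool → Fin 5, f' = fun x =>
    if f x = 0 then (if C x = true then 0 else 1) else (if f x = 1 then 2 else if f x = 2 then 3 else 4) :=
    ⟨_, rfl⟩
  have hcase : ∀ x, f x = 0 ∨ f x = 1 ∨ f x = 2 ∨ f x = 3 := by
    intro x
    generalize f x = y
    revert y
    decide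
  have k0 : ∀ x, f' x = 0 ↔ f x = 0 ∧ C x = true := by
    intro x; rw [hf']; rcases hcase x with hx | hx | hx | hx <;> cases hCx : C x <;> simp [hx, hCx]
  have k1 : ∀ x, f' x = 1 ↔ f x = 0 ∧ C x = false := by
    intro x; rw [hf']; rcases hcase x with hx | hx | hx | hx <;> cases hCx : C x <;> simp [hx, hCx]
  have k2 : ∀ x, f' x = 2 ↔ f x = 1 := by
    intro x; rw [hf']; rcases hcase x with hx | hx | hx | hx <;> cases hCx : C x <;> simp [hx, hCx]
  have k3 : ∀ x, f' x = 3 ↔ f x = 2 := by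
    intro x; rw [hf']; rcases hcase x with hx | hx | hx | hx <;> cases hCx : C x <;> simp [hx, hCx]
  have k4 : ∀ x, f' x = 4 ↔ f x = 3 := by
    intro x; rw [hf']; rcases hcase x with hx | hx | hx | hx <;> cases hCx : C x <;> simp [hx, hCx]
  have b0 : ∀ x, bk f' 0 x = (bk f 0 x && C x) := by
    intro x; rw [Bool.eq_iff_iff, EvCP_bk, k0, Bool.and_eq_true, EvCP_bk]
  have b1 : ∀ x, bk f' 1 x = (bk f 0 x && !C x) := by
    intro x; rw [Bool.eq_iff_iff, EvCP_bk, k1, Bool.and_eq_true, EvCP_bk]; simp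
  have b2 : ∀ x, bk f' 2 x = bk f 1 x := by
    intro x; rw [Bool.eq_iff_iff, EvCP_bk, k2, EvCP_bk]
  have b3 : ∀ x, bk f' 3 x = bk f 2 x := by
    intro x; rw [Bool.eq_iff_iff, EvCP_bk, k3, EvCP_bk]
  have b4 : ∀ x, bk f' 4 x = bk f 3 x := by
    intro x; rw [Bool.eq_iff_iff, EvCP_bk, k4, EvCP_bk]
  refine ⟨f', ?_, ?_, fun x => (k2 x).symm, fun x => (k3 x).symm, fun x => (k4 x).symm⟩
  · obtain ⟨⟨x0, hx0⟩, -, ⟨x1, hx1⟩, -⟩ := hX
    obtain ⟨x2, hx2⟩ := h.1 1
    obtain ⟨x3, hx3⟩ := h.1 2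
    obtain ⟨x4, hx4⟩ := h.1 3
    apply EvCP_mk5
    · intro i
      fin_cases i
      · exact ⟨x0, (k0 _).2 ⟨(EvCP_bk _ _ _).1 hx0.2, hx0.1⟩⟩
      · exact ⟨x1, (k1 _).2 ⟨(EvCP_bk _ _ _).1 hx1.2, hx1.1⟩⟩
      · exact ⟨x2, (k2 _).2 hx2⟩
      · exact ⟨x3, (k3 _).2 hx3⟩
      · exact ⟨x4, (k4 _).2 hx4⟩
    · rw [edgS_congr V b0 b1]; exact r1
    · rw [edgS_congr V b1 b2]; exact r3
    · rw [edgS_congr V b2 b3]; exact e12
    · rw [edgS_congr V b3 b4]; exact e23
    · rw [edgS_congr V b4 b0, edgS_comm]; exact r5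
    · rw [edgS_congr V b0 b2]; exact r2
    · rw [edgS_congr V b0 b3]; exact (EvCP_far C z02).1
    · rw [edgS_congr V b1 b3]; exact (EvCP_far C z02).2
    · rw [edgS_congr V b1 b4]; exact r4
    · rw [edgS_congr V b2 b4]; exact z13
  · intro x
    rw [k0, k1]
    constructor
    · intro hx
      cases hCx : C x
      · exact Or.inr ⟨hx, rfl⟩
      · exact Or.inl ⟨hx, rfl⟩
    · rintro (hx | hx) <;> exact hx.1

theorem cp_refine4 {n : ℕ} {V : CC} (E : Eq3 n V) {f : Fin 3 × Bool → Fin 4} (h : CPm n V 4 f)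
    {C : Ct} (hC : NC n V C) (hX : Crossg C (bk f 0))
    (h1 : (∀ x, f x = 1 → C x = true) ∨ (∀ x, f x = 1 → C x = false)) :
    ∃ f' : Fin 3 × Bool → Fin 5, CPm n V 5 f' ∧ (∀ x, f x = 0 ↔ (f' x = 0 ∨ f' x = 1)) ∧
      (∀ x, f x = 1 ↔ f' x = 2) ∧ (∀ x, f x = 2 ↔ f' x = 3) ∧ (∀ x, f x = 3 ↔ f' x = 4) := by
  rcases h1 with h1 | h1
  · exact EvCP_refine4 E h (NC_compl hC) (Crossg_compl hX) (by intro x hx; simp [h1 x hx])
  · exact EvCP_refine4 E h hC hX h1

theorem EvCP_refine5 {n : ℕ} {V : CC} (E : Eq3 n V) {f : Fin 3 × Bool → Fin 5} (h : CPm n V 5 f)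
    {C : Ct} (hC : NC n V C) (hX : Crossg C (bk f 0))
    (h1 : ∀ x, f x = 1 → C x = false) :
    ∃ f' : Fin 3 × Bool → Fin 6, CPm n V 6 f' := by
  have e01 : 2 * edgS V (bk f 0) (bk f 1) = n := h.2.1 0
  have e12 : 2 * edgS V (bk f 1) (bk f 2) = n := h.2.1 1
  have e23 : 2 * edgS V (bk f 2) (bk f 3) = n := h.2.1 2
  have e34 : 2 * edgS V (bk f 3) (bk f 4) = n := h.2.1 3
  have e40 : 2 * edgS V (bk f 4) (bk f 0) = n := h.2.1 4
  have z02 := h.2.2 0 2 (by decide) (by decide) (by decide)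
  have z03 := h.2.2 0 3 (by decide) (by decide) (by decide)
  have z13 := h.2.2 1 3 (by decide) (by decide) (by decide)
  have z14 := h.2.2 1 4 (by decide) (by decide) (by decide)
  have z24 := h.2.2 2 4 (by decide) (by decide) (by decide)
  obtain ⟨r1, r2, r3, r4, r5⟩ := EvCP_ref E (i0 := 0) (i1 := 1) (i2 := 4) (by decide) (by decide)
    (by decide) hC (cp_cap5 E h 0) hX e01 (by rw [edgS_comm]; exact e40) h1
  obtain ⟨f', hf'⟩ : ∃ f' : Fin 3 × Bool → Fin 6, f' = fun x =>
    if f x = 0 then (if C x = true then 0 else 1) else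
      (if f x = 1 then 2 else if f x = 2 then 3 else if f x = 3 then 4 else 5) :=
    ⟨_, rfl⟩
  have hcase : ∀ x, f x = 0 ∨ f x = 1 ∨ f x = 2 ∨ f x = 3 ∨ f x = 4 := by
    intro x
    generalize f x = y
    revert y
    decide
  have k0 : ∀ x, f' x = 0 ↔ f x = 0 ∧ C x = true := by
    intro x; rw [hf']; rcases hcase x with hx | hx | hx | hx | hx <;> cases hCx : C x <;> simp [hx, hCx]
  have k1 : ∀ x, f' x = 1 ↔ f x = 0 ∧ C x = false := by
    intro x; rw [hf']; rcases hcase x with hx | hx | hx | hx | hx <;> cases hCx : C x <;> simp [hx, hCx]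
  have k2 : ∀ x, f' x = 2 ↔ f x = 1 := by
    intro x; rw [hf']; rcases hcase x with hx | hx | hx | hx | hx <;> cases hCx : C x <;> simp [hx, hCx]
  have k3 : ∀ x, f' x = 3 ↔ f x = 2 := by
    intro x; rw [hf']; rcases hcase x with hx | hx | hx | hx | hx <;> cases hCx : C x <;> simp [hx, hCx]
  have k4 : ∀ x, f' x = 4 ↔ f x = 3 := by
    intro x; rw [hf']; rcases hcase x with hx | hx | hx | hx | hx <;> cases hCx : C x <;> simp [hx, hCx]
  have k5 : ∀ x, f' x = 5 ↔ f x = 4 := by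
    intro x; rw [hf']; rcases hcase x with hx | hx | hx | hx | hx <;> cases hCx : C x <;> simp [hx, hCx]
  have b0 : ∀ x, bk f' 0 x = (bk f 0 x && C x) := by
    intro x; rw [Bool.eq_iff_iff, EvCP_bk, k0, Bool.and_eq_true, EvCP_bk]
  have b1 : ∀ x, bk f' 1 x = (bk f 0 x && !C x) := by
    intro x; rw [Bool.eq_iff_iff, EvCP_bk, k1, Bool.and_eq_true, EvCP_bk]; simp
  have b2 : ∀ x, bk f' 2 x = bk f 1 x := by
    intro x; rw [Bool.eq_iff_iff, EvCP_bk, k2, EvCP_bk]
  have b3 : ∀ x, bk f' 3 x = bk f 2 x := by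
    intro x; rw [Bool.eq_iff_iff, EvCP_bk, k3, EvCP_bk]
  have b4 : ∀ x, bk f' 4 x = bk f 3 x := by
    intro x; rw [Bool.eq_iff_iff, EvCP_bk, k4, EvCP_bk]
  have b5 : ∀ x, bk f' 5 x = bk f 4 x := by
    intro x; rw [Bool.eq_iff_iff, EvCP_bk, k5, EvCP_bk]
  refine ⟨f', ?_⟩
  obtain ⟨⟨x0, hx0⟩, -, ⟨x1, hx1⟩, -⟩ := hX
  obtain ⟨x2, hx2⟩ := h.1 1
  obtain ⟨x3, hx3⟩ := h.1 2
  obtain ⟨x4, hx4⟩ := h.1 3
  obtain ⟨x5, hx5⟩ := h.1 4
  apply EvCP_mk6
  · intro i
    fin_cases i
    · exact ⟨x0, (k0 _).2 ⟨(EvCP_bk _ _ _).1 hx0.2, hx0.1⟩⟩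
    · exact ⟨x1, (k1 _).2 ⟨(EvCP_bk _ _ _).1 hx1.2, hx1.1⟩⟩
    · exact ⟨x2, (k2 _).2 hx2⟩
    · exact ⟨x3, (k3 _).2 hx3⟩
    · exact ⟨x4, (k4 _).2 hx4⟩
    · exact ⟨x5, (k5 _).2 hx5⟩
  · rw [edgS_congr V b0 b1]; exact r1
  · rw [edgS_congr V b1 b2]; exact r3
  · rw [edgS_congr V b2 b3]; exact e12
  · rw [edgS_congr V b3 b4]; exact e23
  · rw [edgS_congr V b4 b5]; exact e34
  · rw [edgS_congr V b5 b0, edgS_comm]; exact r5
  · rw [edgS_congr V b0 b2]; exact r2
  · rw [edgS_congr V b0 b3]; exact (EvCP_far C z02).1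
  · rw [edgS_congr V b0 b4]; exact (EvCP_far C z03).1
  · rw [edgS_congr V b1 b3]; exact (EvCP_far C z02).2
  · rw [edgS_congr V b1 b4]; exact (EvCP_far C z03).2
  · rw [edgS_congr V b1 b5]; exact r4
  · rw [edgS_congr V b2 b4]; exact z13
  · rw [edgS_congr V b2 b5]; exact z14
  · rw [edgS_congr V b3 b5]; exact z24

theorem cp_refine5 {n : ℕ} {V : CC} (E : Eq3 n V) {f : Fin 3 × Bool → Fin 5} (h : CPm n V 5 f)
    {C : Ct} (hC : NC n V C) (hX : Crossg C (bk f 0))
    (h1 : (∀ x, f x = 1 → C x = true) ∨ (∀ x, f x = 1 → C x = false)) :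
    ∃ f' : Fin 3 × Bool → Fin 6, CPm n V 6 f' := by
  rcases h1 with h1 | h1
  · exact EvCP_refine5 E h (NC_compl hC) (Crossg_compl hX) (by intro x hx; simp [h1 x hx])
  · exact EvCP_refine5 E h hC hX h1

theorem cp_full {n : ℕ} {V : CC} {f : Fin 3 × Bool → Fin 6} (h : CPm n V 6 f) : Full n V := by
  have hb : Function.Bijective f :=
    (Fintype.bijective_iff_surjective_and_card f).2 ⟨h.1, by simp⟩
  obtain ⟨r, hr⟩ : ∃ r : Fin 6 → Fin 3 × Bool, ∀ i, f (r i) = i :=
    ⟨fun i => (h.1 i).choose, fun i => (h.1 i).choose_spec⟩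
  refine ⟨r, ?_, ?_⟩
  · intro i j hij
    rw [← hr i, ← hr j, hij]
  · have hbk : ∀ i x, sgl (r i) x = bk f i x := by
      intro i x
      rw [Bool.eq_iff_iff, EvCP_bk]
      simp only [sgl, decide_eq_true_eq]
      constructor
      · intro hx; rw [hx]; exact hr i
      · intro hx; exact hb.1 (hx.trans (hr i).symm)
    intro i
    rw [edgS_congr V (hbk i) (hbk (i + 1))]
    exact h.2.1 i

theorem cp_T {n : ℕ} {V : CC} {f : Fin 3 × Bool → Fin 5} (h : CPm n V 5 f)
    (hT : ∀ x : Fin 3 × Bool, f x = 0 ↔ x.1 = 0) : Five n V := by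
  obtain ⟨r, hr⟩ : ∃ r : Fin 5 → Fin 3 × Bool, ∀ i, f (r i) = i :=
    ⟨fun i => (h.1 i).choose, fun i => (h.1 i).choose_spec⟩
  -- injectivity on the letters outside block 0
  have hcard : Fintype.card {x : Fin 3 × Bool // x.1 ≠ 0} = Fintype.card {i : Fin 5 // i ≠ 0} := by
    decide
  let g : {x : Fin 3 × Bool // x.1 ≠ 0} → {i : Fin 5 // i ≠ 0} :=
    fun x => ⟨f x.1, fun hx => x.2 ((hT _).1 hx)⟩
  have hgs : Function.Surjective g := by
    rintro ⟨i, hi⟩
    refine ⟨⟨r i, ?_⟩, ?_⟩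
    · intro hx
      have := (hT _).2 hx
      rw [hr] at this
      exact hi this
    · exact Subtype.ext (hr i)
  have hgb : Function.Bijective g := (Fintype.bijective_iff_surjective_and_card g).2 ⟨hgs, hcard⟩
  have hinj : ∀ x y : Fin 3 × Bool, x.1 ≠ 0 → y.1 ≠ 0 → f x = f y → x = y := by
    intro x y hx hy hxy
    have := @hgb.1 ⟨x, hx⟩ ⟨y, hy⟩ (Subtype.ext hxy)
    exact congrArg Subtype.val this
  have hr0 : ∀ i : Fin 5, i ≠ 0 → (r i).1 ≠ 0 := by
    intro i hi hx
    have := (hT _).2 hx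
    rw [hr] at this
    exact hi this
  have hbk : ∀ i : Fin 5, i ≠ 0 → ∀ x, sgl (r i) x = bk f i x := by
    intro i hi x
    rw [Bool.eq_iff_iff, EvCP_bk]
    simp only [sgl, decide_eq_true_eq]
    constructor
    · intro hx; rw [hx]; exact hr i
    · intro hx
      apply hinj x (r i) _ (hr0 i hi) (hx.trans (hr i).symm)
      intro hx0
      apply hi
      rw [← hx]
      exact (hT x).2 hx0
  have hbk0 : ∀ x, PrC 0 x = bk f 0 x := by
    intro x
    rw [Bool.eq_iff_iff, EvCP_bk, hT]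
    simp [PrC]
  refine ⟨![r 1, r 2, r 3, r 4], ?_, ?_, ?_, ?_, ?_, ?_, ?_⟩
  · have hri : ∀ i j : Fin 5, r i = r j → i = j := by
      intro i j hij
      rw [← hr i, ← hr j, hij]
    intro i j hij
    fin_cases i <;> fin_cases j <;> simp at hij ⊢ <;>
      exact absurd (hri _ _ hij) (by decide)
  · intro i
    fin_cases i
    · exact hr0 1 (by decide)
    · exact hr0 2 (by decide)
    · exact hr0 3 (by decide)
    · exact hr0 4 (by decide)
  · change 2 * edgS V (PrC 0) (sgl (r 1)) = n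
    rw [edgS_congr V hbk0 (hbk 1 (by decide))]
    exact h.2.1 0
  · change 2 * edgS V (sgl (r 1)) (sgl (r 2)) = n
    rw [edgS_congr V (hbk 1 (by decide)) (hbk 2 (by decide))]
    exact h.2.1 1
  · change 2 * edgS V (sgl (r 2)) (sgl (r 3)) = n
    rw [edgS_congr V (hbk 2 (by decide)) (hbk 3 (by decide))]
    exact h.2.1 2
  · change 2 * edgS V (sgl (r 3)) (sgl (r 4)) = n
    rw [edgS_congr V (hbk 3 (by decide)) (hbk 4 (by decide))]
    exact h.2.1 3
  · change 2 * edgS V (sgl (r 4)) (PrC 0) = n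
    rw [edgS_congr V (hbk 4 (by decide)) hbk0]
    exact h.2.1 4

end Pool.Agent.Sims
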