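import Pool.Agent.Sims.TriDefs

/-!
# Module `Perm3` : signed permutations

* `act_SPerm_cls`: `SPerm.hom_lett` and induction on the word.
* `SPerm_mul`: composition: `perm := σ.perm ∘ ρ.perm` (`ρ.perm.trans σ.perm`),
  `sign i := (σ.sign (ρ.perm i) == ρ.sign i)` (xnor); compare on letters, then on generators.
* `exists_SPerm_finset`: `SPerm (Fin 3) ≃ Equiv.Perm (Fin 3) × (Fin 3 → Bool)`, which has `6 * 8` elements.
* `exists_sorted`: choose a permutation sorting the three counts (`cnt_SPerm`), signs `true`.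
* `act_swp_tau`: `sig k = swp ∘ tau k ∘ swp` (check on the generators: `b ↦ c ↦ c ↦ b`,
  `c ↦ b ↦ b c^k ↦ c b^k`, `a ↦ a`).
Difficulty 1-2.
-/

namespace Pool.Agent.Sims

open FreeGroup (of)

theorem act_SPerm_cls {α : Type*} [DecidableEq α] (σ : SPerm α) (w : List (α × Bool)) :
    act σ.aut (cls w) = cls (w.map σ.letter) := Rel_act_cls σ w

theorem SPerm_mul (σ ρ : SPerm (Fin 3)) : ∃ π : SPerm (Fin 3),
    (∀ c, act σ.aut (act ρ.aut c) = act π.aut c) ∧ (Fix0 σ → Fix0 ρ → Fix0 π) ∧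
      (Fix2 σ → Fix2 ρ → Fix2 π) ∧ ∀ x, π.letter x = σ.letter (ρ.letter x) := by
  refine ⟨Conn_comp σ ρ, fun c => Conn_act_comp σ ρ c, ?_, ?_, fun x => Conn_comp_letter σ ρ x⟩
  · rintro ⟨h1, h2⟩ ⟨h3, h4⟩
    refine ⟨?_, ?_⟩
    · show σ.perm (ρ.perm 0) = 0
      rw [h3, h1]
    · show (ρ.sign 0 == σ.sign (ρ.perm 0)) = true
      rw [h3, h4, h2]
      rfl
  · intro h1 h2
    show σ.perm (ρ.perm 2) = 2
    rw [show ρ.perm 2 = 2 from h2, show σ.perm 2 = 2 from h1]

theorem Fix0_inv {σ : SPerm (Fin 3)} (h : Fix0 σ) : Fix0 σ.inv := by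
  obtain ⟨h1, h2⟩ := h
  have h3 : σ.perm.symm 0 = 0 := by rw [Equiv.symm_apply_eq, h1]
  refine ⟨h3, ?_⟩
  show σ.sign (σ.perm.symm 0) = true
  rw [h3, h2]

theorem Fix2_inv {σ : SPerm (Fin 3)} (h : Fix2 σ) : Fix2 σ.inv := by
  have h1 : σ.perm 2 = 2 := h
  show σ.perm.symm 2 = 2
  rw [Equiv.symm_apply_eq, h1]

theorem exists_SPerm_finset : ∃ S : Finset (SPerm (Fin 3)), S.card ≤ 48 ∧ ∀ σ, σ ∈ S := by
  classical
  refine ⟨(Finset.univ : Finset (Equiv.Perm (Fin 3) × (Fin 3 → Bool))).image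
    (fun q => ⟨q.1, q.2⟩), ?_, ?_⟩
  · refine Finset.card_image_le.trans ?_
    rw [Finset.card_univ, Fintype.card_prod, Fintype.card_perm, Fintype.card_fun, Fintype.card_fin,
      Fintype.card_bool]
    decide
  · intro σ
    exact Finset.mem_image.2 ⟨(σ.perm, σ.sign), Finset.mem_univ _, rfl⟩

private theorem Perm3_act_id (π : SPerm (Fin 3)) (h : ∀ x, π.letter x = x) (c : CC) :
    act π.aut c = c := by
  obtain ⟨w, _, rfl⟩ := exists_CR c
  rw [act_SPerm_cls]
  congr 1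
  have : π.letter = id := funext h
  rw [this, List.map_id]

/-- the trivial signed permutation -/
theorem exists_SPerm_one : ∃ π : SPerm (Fin 3), (∀ c, act π.aut c = c) ∧ Fix0 π ∧ Fix2 π := by
  refine ⟨⟨Equiv.refl _, fun _ => true⟩, fun c => Perm3_act_id _ (fun x => ?_) c, ⟨rfl, rfl⟩, rfl⟩
  rcases x with ⟨i, b⟩
  simp [SPerm.letter]

theorem exists_sorted (c : CC) : ∃ σ : SPerm (Fin 3),
    cnt (act σ.aut c) 0 ≤ cnt (act σ.aut c) 1 ∧ cnt (act σ.aut c) 1 ≤ cnt (act σ.aut c) 2 := by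
  refine ⟨⟨(Tuple.sort (fun i => cnt c i)).symm, fun _ => true⟩, ?_⟩
  have hm := Tuple.monotone_sort (fun i => cnt c i)
  have key : ∀ j, cnt (act (SPerm.aut ⟨(Tuple.sort (fun i => cnt c i)).symm, fun _ => true⟩) c) j =
      cnt c (Tuple.sort (fun i => cnt c i) j) := by
    intro j
    have h := cnt_SPerm ⟨(Tuple.sort (fun i => cnt c i)).symm, fun _ => true⟩ c
      (Tuple.sort (fun i => cnt c i) j)
    simp only [Equiv.symm_apply_apply] at h
    exact h
  rw [key, key, key]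
  exact ⟨hm (by decide : (0 : Fin 3) ≤ 1), hm (by decide : (1 : Fin 3) ≤ 2)⟩

theorem act_swp_swp (c : CC) : act swp.aut (act swp.aut c) = c := by
  rw [Conn_act_comp]
  apply Perm3_act_id
  intro x
  rw [Conn_comp_letter]
  rcases x with ⟨i, b⟩
  simp [SPerm.letter, swp]

theorem flp_of (s : Fin 3 → Bool) (i : Fin 3) :
    (flp s).aut (of i) = if s i then of i else (of i)⁻¹ := by
  have h : (flp s).aut (of i) = lett ((flp s).letter (i, true)) := SPerm.hom_lett _ (i, true)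
  rw [h]
  by_cases hs : s i = true
  · simp [SPerm.letter, flp, hs, lett_true]
  · simp [SPerm.letter, flp, hs, lett_false]

theorem swp_of : swp.aut (of 0) = of 0 ∧ swp.aut (of 1) = of 2 ∧ swp.aut (of 2) = of 1 := by
  have h : ∀ i, swp.aut (of i) = lett (swp.letter (i, true)) := fun i => SPerm.hom_lett _ (i, true)
  refine ⟨?_, ?_, ?_⟩
  · rw [h, ← lett_true]
    congr 1
  · rw [h, ← lett_true]
    congr 1
  · rw [h, ← lett_true]
    congr 1

theorem act_sig_eq (k : ℤ) (c : CC) : act (sig k) c = act swp.aut (act (tau k) (act swp.aut c)) := by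
  rw [act_act, act_act]
  apply act_conj _ _ 1
  intro i
  obtain ⟨h0, h1, h2⟩ := swp_of
  have hs : ∀ g, sig k g = potFun 1 (fun x => if x = (2, true) then k else 0) g := fun _ => rfl
  have ht : ∀ g, tau k g = potFun 2 (fun x => if x = (1, true) then k else 0) g := fun _ => rfl
  simp only [MulEquiv.trans_apply, one_mul, inv_one, mul_one]
  fin_cases i
  · show sig k (of 0) = swp.aut (tau k (swp.aut (of 0)))
    rw [h0, hs, ht, potFun_of_ne _ (by decide), potFun_of_ne _ (by decide)]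
    simp [h0]
  · show sig k (of 1) = swp.aut (tau k (swp.aut (of 1)))
    rw [h1, hs, ht, potFun_of_self, potFun_of_self, h2]
  · show sig k (of 2) = swp.aut (tau k (swp.aut (of 2)))
    rw [h2, hs, ht, potFun_of_ne _ (by decide), potFun_of_ne _ (by decide)]
    simp [h1, h2]

theorem cnt_swp (c : CC) : cnt (act swp.aut c) 0 = cnt c 0 ∧ cnt (act swp.aut c) 1 = cnt c 2 ∧
    cnt (act swp.aut c) 2 = cnt c 1 :=
  ⟨cnt_SPerm swp c 0, cnt_SPerm swp c 2, cnt_SPerm swp c 1⟩

theorem cnt_flp (s : Fin 3 → Bool) (c : CC) (i : Fin 3) : cnt (act (flp s).aut c) i = cnt c i :=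
  cnt_SPerm (flp s) c i

/-- the cut `Sb` becomes `Sc` -/
theorem capC_swp (c : CC) : capC (act swp.aut c) Sb = capC c Sc ∧
    capC (act swp.aut c) Sc = capC c Sb := by
  rw [capC_SPerm, capC_SPerm]
  constructor <;>
  · apply capC_congr
    intro x
    revert x
    decide

end Pool.Agent.Sims
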