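import Pool.Agent.Sims.SameB

/-!
# Module `YbcM` : the classes `[b^j c^t]`

* `Ybc_cyc`: for `j, t ≠ 0` the word `zpw 1 j ++ zpw 2 t` is cyclically reduced; length and counts.
* `Ybc_tau`: for `j > 0` the class `[b^j c^t]` has the syllable form (generator `c`)
  `(b,0), …, (b,0), (b,t)` (`j - 1` times `(b,0)`); `shift` by the potential `k` at `b` gives
  `(b,k), …, (b,k), (b,t+k)` (consecutive letters `b, b`: `p(b) - p(b⁻¹) = k`); so `cnt _ 2 = (j-1)|k| + |t+k|`.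
  For `j < 0`: letters `b⁻¹`, exponents `-k, …, -k, t-k`.  With `|k| = 1`: `≥ |j| - 1 + |t| - 1`.
  (Alternatively: `act_pot`, `cntL_expand_self`, `sum_shift`.)
* `Ybc_sig`: `act_sig_eq`, and `swp [b^j c^t] = [c^j b^t] = [b^t c^j]`.
* `Yc_tau`, `Yc_sig`: `tau k` fixes `c`; `sig k`, `k = ±1`, maps `c^t` to `(c b^k)^t`, a cyclically reduced word with
  `|t|` letters `b^{±1}`.
* `Ybc_inj`, `Ybc_conj`: exponent sums (homomorphisms to `ℤ`).
* `Ybc_norm`.
Difficulty 2.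
-/

namespace Pool.Agent.Sims

open FreeGroup (of)

theorem YbcM_zpw_mem {i : Fin 3} {k : ℤ} {x : Fin 3 × Bool} (h : x ∈ zpw i k) : x.1 = i := by
  rw [zpw] at h
  rw [List.eq_of_mem_replicate h]

theorem YbcM_red_zpw (i : Fin 3) (k : ℤ) : FreeGroup.IsReduced (zpw i k) := (CR_zpw i k).1

theorem YbcM_red_append {i j : Fin 3} (hij : i ≠ j) {u v : List (Fin 3 × Bool)}
    (hu : FreeGroup.IsReduced u) (hv : FreeGroup.IsReduced v)
    (hu' : ∀ x ∈ u.getLast?, x.1 = i) (hv' : ∀ x ∈ v.head?, x.1 = j) :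
    FreeGroup.IsReduced (u ++ v) := by
  unfold FreeGroup.IsReduced at *
  rw [List.isChain_append]
  refine ⟨hu, hv, ?_⟩
  intro x hx y hy h
  exact absurd ((hu' x hx).symm.trans (h.trans (hv' y hy))) hij

theorem YbcM_last {i : Fin 3} {k : ℤ} : ∀ x ∈ (zpw i k).getLast?, x.1 = i := by
  intro x hx
  exact YbcM_zpw_mem (List.mem_of_mem_getLast? hx)

theorem YbcM_head {i : Fin 3} {k : ℤ} : ∀ x ∈ (zpw i k).head?, x.1 = i := by
  intro x hx
  exact YbcM_zpw_mem (List.mem_of_mem_head? hx)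

theorem YbcM_red2 {i j : Fin 3} (hij : i ≠ j) (s t : ℤ) :
    FreeGroup.IsReduced (zpw i s ++ zpw j t) :=
  YbcM_red_append hij (YbcM_red_zpw i s) (YbcM_red_zpw j t) YbcM_last YbcM_head

theorem YbcM_len (i : Fin 3) (k : ℤ) : (zpw i k).length = k.natAbs := by
  rw [zpw, List.length_replicate]

theorem YbcM_ne_nil {i : Fin 3} {k : ℤ} (hk : k ≠ 0) : zpw i k ≠ [] := by
  intro h
  have := YbcM_len i k
  rw [h] at this
  simp only [List.length_nil] at this
  omega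

theorem YbcM_CR2 {i j : Fin 3} (hij : i ≠ j) {s t : ℤ} (hs : s ≠ 0) (ht : t ≠ 0) :
    CR (zpw i s ++ zpw j t) := by
  unfold CR
  rw [FreeGroup.isCyclicallyReduced_iff]
  refine ⟨YbcM_red2 hij s t, ?_⟩
  intro a ha b hb h
  rw [List.getLast?_append_of_ne_nil _ (YbcM_ne_nil ht)] at ha
  rw [List.head?_append_of_ne_nil _ (YbcM_ne_nil hs)] at hb
  exact absurd ((YbcM_head b hb).symm.trans (h.symm.trans (YbcM_last a ha))) hij

theorem YbcM_cntL_zpw (i k : Fin 3) (s : ℤ) :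
    cntL (zpw i s) k = if i = k then s.natAbs else 0 := by
  unfold cntL
  rw [zpw, List.countP_replicate]
  simp

theorem YbcM_cls (j t : ℤ) : Ybc j t = cls (zpw 1 j ++ zpw 2 t) := by
  rw [Ybc, cls, ← mk_zpw, ← mk_zpw, FreeGroup.mul_mk]

theorem YbcM_Yc (t : ℤ) : Yc t = cls (zpw 2 t) := by
  rw [Yc, cls, ← mk_zpw]

theorem Ybc_cyc {j t : ℤ} (hj : j ≠ 0) (ht : t ≠ 0) :
    cycLen (Ybc j t) = j.natAbs + t.natAbs ∧ cnt (Ybc j t) 0 = 0 ∧ cnt (Ybc j t) 1 = j.natAbs ∧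
      cnt (Ybc j t) 2 = t.natAbs := by
  have h := YbcM_CR2 (i := 1) (j := 2) (by decide) hj ht
  have hc : ∀ i, cnt (Ybc j t) i = cntL (zpw 1 j) i + cntL (zpw 2 t) i := by
    intro i
    rw [YbcM_cls, cnt_cls h]
    unfold cntL
    rw [List.countP_append]
  refine ⟨?_, ?_, ?_, ?_⟩
  · rw [YbcM_cls, cycLen_cls h, List.length_append, YbcM_len, YbcM_len]
  · rw [hc, YbcM_cntL_zpw, YbcM_cntL_zpw]; simp
  · rw [hc, YbcM_cntL_zpw, YbcM_cntL_zpw]; simp
  · rw [hc, YbcM_cntL_zpw, YbcM_cntL_zpw]; simp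

theorem Yc_cyc (t : ℤ) : cycLen (Yc t) = t.natAbs ∧ cnt (Yc t) 0 = 0 ∧ cnt (Yc t) 1 = 0 ∧
    cnt (Yc t) 2 = t.natAbs := by
  have h := CR_zpw (2 : Fin 3) t
  refine ⟨?_, ?_, ?_, ?_⟩
  · rw [YbcM_Yc, cycLen_cls h, YbcM_len]
  · rw [YbcM_Yc, cnt_cls h, YbcM_cntL_zpw]; simp
  · rw [YbcM_Yc, cnt_cls h, YbcM_cntL_zpw]; simp
  · rw [YbcM_Yc, cnt_cls h, YbcM_cntL_zpw]; simp

/-- the exact formula -/
theorem YbcM_tau_eq {j t k : ℤ} (hj : j ≠ 0) :
    cnt (act (tau k) (Ybc j t)) 2 =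
      (j.natAbs - 1) * k.natAbs + (t + (if 0 ≤ j then k else -k)).natAbs := by
  set x : Fin 3 × Bool := (1, decide (0 ≤ j)) with hx
  set s : List ((Fin 3 × Bool) × ℤ) := List.replicate (j.natAbs - 1) (x, 0) ++ [(x, t)] with hs
  set p : Fin 3 × Bool → ℤ := fun y => if y = (1, true) then k else 0 with hp
  have hmem : ∀ q ∈ s, q.1 = x := by
    intro q hq
    rw [hs, List.mem_append] at hq
    rcases hq with hq | hq
    · rw [List.eq_of_mem_replicate hq]
    · rw [List.mem_singleton] at hq; rw [hq]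
  have hs2 : ∀ q ∈ s, q.1.1 ≠ 2 := by
    intro q hq
    rw [hmem q hq]; simp [hx]
  have hz0 : zpw (2 : Fin 3) 0 = [] := by simp [zpw]
  have hrep : ∀ n : ℕ, expand (2 : Fin 3) (List.replicate n (x, 0) ++ [(x, t)]) =
      List.replicate (n + 1) x ++ zpw 2 t := by
    intro n
    induction n with
    | zero => simp [expand]
    | succ n ih =>
      rw [List.replicate_succ, List.cons_append, SylB_expand_cons, ih, hz0]
      rw [List.replicate_succ (n := n + 1)]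
      simp
  have hn : j.natAbs - 1 + 1 = j.natAbs := by omega
  have hexp : expand (2 : Fin 3) s = zpw 1 j ++ zpw 2 t := by
    rw [hs, hrep, hn]
    rfl
  have hCR : CR (expand (2 : Fin 3) s) := by
    rw [hexp]
    by_cases ht : t = 0
    · rw [ht, hz0, List.append_nil]; exact CR_zpw _ _
    · exact YbcM_CR2 (by decide) hj ht
  have hval : SValid (2 : Fin 3) s := ⟨hs2, hCR⟩
  have hval' := SValid_shift (2 : Fin 3) p s hval
  have h1 : act (tau k) (Ybc j t) = cls (expand 2 (shift p s)) := by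
    rw [YbcM_cls, ← hexp, tau, ← hp, act_pot 2 p s hs2]
  rw [h1, cnt_cls hval'.2, cntL_expand_self 2 _ hval'.1, sum_shift]
  set e : ℤ := (if 0 ≤ j then k else -k) with he
  have h2 : cyc (fun q r : (Fin 3 × Bool) × ℤ => (q.2 + p q.1 - p (bar r.1)).natAbs) s =
      cyc (fun q _ => (q.2 + e).natAbs) s := by
    apply SylB_cyc_congr
    intro q hq r hr
    rw [hmem q hq, hmem r hr]
    have h3 : p x - p (bar x) = e := by
      rw [hp, he, hx]
      by_cases h : 0 ≤ j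
      · simp [bar, h]
      · simp [bar, h]
    rw [← h3]
    congr 1
    ring
  rw [h2, cyc_fst (fun q : (Fin 3 × Bool) × ℤ => (q.2 + e).natAbs) s]
  rw [hs, List.map_append, List.sum_append, List.map_replicate, List.sum_replicate]
  have h4 : e.natAbs = k.natAbs := by
    rw [he]; split_ifs <;> simp
  simp [h4]

theorem Ybc_tau {j t k : ℤ} (hj : j ≠ 0) (hk : k = 1 ∨ k = -1) :
    j.natAbs + t.natAbs ≤ cnt (act (tau k) (Ybc j t)) 2 + 2 := by
  rw [YbcM_tau_eq hj]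
  have h1 : k.natAbs = 1 := by rcases hk with h | h <;> simp [h]
  rw [h1, Nat.mul_one]
  split_ifs <;> omega

theorem YbcM_swp (j t : ℤ) : act swp.aut (Ybc j t) = Ybc t j := by
  rw [Ybc, Ybc, act_mk, map_mul, map_zpow, map_zpow, swp_of.2.1, swp_of.2.2,
    ConjClasses.mk_eq_mk_iff_isConj, isConj_iff]
  exact ⟨(of 2 ^ j)⁻¹, by group⟩

theorem Ybc_sig {j t k : ℤ} (ht : t ≠ 0) (hk : k = 1 ∨ k = -1) :
    j.natAbs + t.natAbs ≤ cnt (act (sig k) (Ybc j t)) 1 + 2 := by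
  rw [act_sig_eq, (cnt_swp _).2.1, YbcM_swp]
  have := Ybc_tau (j := t) (t := j) ht hk
  omega

theorem Yc_tau (t k : ℤ) : act (tau k) (Yc t) = Yc t := by
  rw [YbcM_Yc, tau, act_pot_pow]

theorem YbcM_Yc_swp (t : ℤ) : act swp.aut (Yc t) = Ybc t 0 := by
  rw [Ybc, Yc, act_mk, map_zpow, swp_of.2.2, zpow_zero, mul_one]

theorem Yc_sig {t k : ℤ} (hk : k = 1 ∨ k = -1) : cnt (act (sig k) (Yc t)) 1 = t.natAbs := by
  rw [act_sig_eq, (cnt_swp _).2.1, YbcM_Yc_swp]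
  by_cases ht : t = 0
  · have h0 : Ybc t 0 = Yc 0 := by rw [ht]; simp [Ybc, Yc]
    rw [h0, Yc_tau, (Yc_cyc 0).2.2.2, ht]
  · rw [YbcM_tau_eq ht]
    have h1 : k.natAbs = 1 := by rcases hk with h | h <;> simp [h]
    rw [h1, Nat.mul_one]
    split_ifs <;> omega

theorem YbcM_norm {w : List (Fin 3 × Bool)} (h : FreeGroup.IsReduced w) :
    (FreeGroup.mk w).norm = w.length := by
  rw [FreeGroup.norm, FreeGroup.toWord_mk, h.reduce_eq]

theorem Ybc_norm (s t u : ℤ) (ht : t ≠ 0) :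
    (of 1 ^ s * of 2 ^ t * of 1 ^ u : FreeGroup (Fin 3)).norm =
      s.natAbs + t.natAbs + u.natAbs := by
  rw [← mk_zpw, ← mk_zpw, ← mk_zpw, FreeGroup.mul_mk, FreeGroup.mul_mk]
  have h1 : FreeGroup.IsReduced (zpw (1 : Fin 3) s ++ zpw 2 t ++ zpw 1 u) := by
    apply YbcM_red_append (i := 2) (j := 1) (by decide) (YbcM_red2 (by decide) s t)
      (YbcM_red_zpw 1 u) ?_ YbcM_head
    intro x hx
    rw [List.getLast?_append_of_ne_nil _ (YbcM_ne_nil ht)] at hx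
    exact YbcM_last x hx
  rw [YbcM_norm h1, List.length_append, List.length_append, YbcM_len, YbcM_len, YbcM_len]

theorem bc_norm (s t : ℤ) :
    (of 1 ^ s * of 2 ^ t : FreeGroup (Fin 3)).norm = s.natAbs + t.natAbs ∧
      (of 2 ^ t * of 1 ^ s : FreeGroup (Fin 3)).norm = s.natAbs + t.natAbs := by
  constructor
  · rw [← mk_zpw, ← mk_zpw, FreeGroup.mul_mk, YbcM_norm (YbcM_red2 (by decide) s t),
      List.length_append, YbcM_len, YbcM_len]
  · rw [← mk_zpw, ← mk_zpw, FreeGroup.mul_mk, YbcM_norm (YbcM_red2 (by decide) t s),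
      List.length_append, YbcM_len, YbcM_len, Nat.add_comm]

theorem Ybc_conj (s t u : ℤ) :
    ConjClasses.mk (of 1 ^ s * of 2 ^ t * of 1 ^ u : FreeGroup (Fin 3)) = Ybc (s + u) t := by
  rw [Ybc, ConjClasses.mk_eq_mk_iff_isConj, isConj_iff]
  refine ⟨of 1 ^ u, ?_⟩
  rw [zpow_add (of (1 : Fin 3))]
  have h : (of (1 : Fin 3) ^ s) * (of (1 : Fin 3)) ^ u = (of (1 : Fin 3)) ^ u * (of (1 : Fin 3)) ^ s := by
    rw [← zpow_add, ← zpow_add, add_comm]
  rw [h]
  group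

/-- exponent sum -/
def YbcM_hom (i : Fin 3) : FreeGroup (Fin 3) →* Multiplicative ℤ :=
  FreeGroup.lift (fun k => if k = i then Multiplicative.ofAdd 1 else 1)

theorem YbcM_hom_conj (i : Fin 3) {g h : FreeGroup (Fin 3)}
    (hgh : ConjClasses.mk g = ConjClasses.mk h) : YbcM_hom i g = YbcM_hom i h := by
  rw [ConjClasses.mk_eq_mk_iff_isConj, isConj_iff] at hgh
  obtain ⟨c, hc⟩ := hgh
  rw [← hc, map_mul, map_mul, map_inv, mul_comm (YbcM_hom i c), mul_assoc, mul_inv_cancel, mul_one]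

theorem YbcM_hom_zpow (i k : Fin 3) (t : ℤ) :
    YbcM_hom i (of k ^ t) = Multiplicative.ofAdd (if k = i then t else 0) := by
  rw [map_zpow, YbcM_hom, FreeGroup.lift_apply_of]
  split_ifs with h
  · rw [← ofAdd_zsmul]; simp
  · simp

theorem Ybc_inj {j t j' t' : ℤ} (h : Ybc j t = Ybc j' t') : j = j' ∧ t = t' := by
  rw [Ybc, Ybc] at h
  constructor
  · have h1 := YbcM_hom_conj 1 h
    rw [map_mul, map_mul, YbcM_hom_zpow, YbcM_hom_zpow, YbcM_hom_zpow, YbcM_hom_zpow,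
      ← ofAdd_add, ← ofAdd_add] at h1
    have h2 := Multiplicative.ofAdd.injective h1
    simpa using h2
  · have h1 := YbcM_hom_conj 2 h
    rw [map_mul, map_mul, YbcM_hom_zpow, YbcM_hom_zpow, YbcM_hom_zpow, YbcM_hom_zpow,
      ← ofAdd_add, ← ofAdd_add] at h1
    have h2 := Multiplicative.ofAdd.injective h1
    simpa using h2

theorem Yc_inj {t t' : ℤ} (h : Yc t = Yc t') : t = t' := by
  have h1 : Ybc 0 t = Ybc 0 t' := by
    rw [Ybc, Ybc, zpow_zero, one_mul, one_mul]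
    exact h
  exact (Ybc_inj h1).2

/-- sign changes -/
theorem Ybc_abs (j t : ℤ) : ∃ σ : SPerm (Fin 3), Fix0 σ ∧ Ybc j t = act σ.aut (Ybc |j| |t|) := by
  refine ⟨flp (fun i => if i = 1 then decide (0 ≤ j) else if i = 2 then decide (0 ≤ t) else true),
    ⟨rfl, by simp [flp]⟩, ?_⟩
  have key : ∀ (i : Fin 3) (r : ℤ), (if decide (0 ≤ r) = true then of i else (of i)⁻¹) ^ |r| =
      (of i : FreeGroup (Fin 3)) ^ r := by
    intro i r
    by_cases h : 0 ≤ r
    · simp only [h, decide_true, if_true]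
      rw [abs_of_nonneg h]
    · simp only [h, decide_false, Bool.false_eq_true, if_false]
      rw [abs_of_neg (not_le.1 h), inv_zpow, ← zpow_neg, neg_neg]
  rw [Ybc, Ybc, act_mk, map_mul, map_zpow, map_zpow, flp_of, flp_of]
  have h1 : (if (1 : Fin 3) = 1 then decide (0 ≤ j) else if (1 : Fin 3) = 2 then decide (0 ≤ t) else true) = decide (0 ≤ j) := by
    simp
  have h2 : (if (2 : Fin 3) = 1 then decide (0 ≤ j) else if (2 : Fin 3) = 2 then decide (0 ≤ t) else true) = decide (0 ≤ t) := by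
    simp
  rw [h1, h2, key 1 j, key 2 t]

end Pool.Agent.Sims
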