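import Pool.Agent.Sims.OddR3
import Pool.Agent.Sims.TwTie
import Pool.Agent.Sims.Perm3
import Pool.Agent.Sims.YbcM

/-!
# Definitions for part V (three equal even counts `n`, all cuts `≥ n`)

Letters `a = (0,·)`, `b = (1,·)`, `c = (2,·)`; a cut is a Boolean function on the six letters.

* `Ct`            : cuts;  `Prp A` : nonempty and proper;  `Ntr A` : at least two letters inside, at least two outside
* `Crossg A B`    : the four corners of `A`, `B` are nonempty
* `NC n V A`      : proper cut of capacity `n`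
* `stc A z`       : `(A ∖ z) ∪ z⁻¹`: the old sphere `S_z` seen after the move `(A, z)` (same form as in `Lv_inv`, `act_wh_swap`)
* `opc z A`       : `A` on the letters `z^{±1}`, complement of `A` on the other letters
* `rs i A`        : `A` without the letters `x_i^{±1}`
* `tp y B E`      : `E`, with `B ∖ y` added if `y⁻¹ ∈ E` : the cut `E` (disjoint from `B`) after the move `(B, y)`
* `VX n V E`      : some cut of capacity `n` crosses `E` (`E` is visibly crossed at `V`)
* `Crs n V z`     : for some level `z`-cut `A` the old sphere `S_z` is visibly crossed at `(A, z) V`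
* `Eq3 n V`       : `V` is minimal, all counts are `n ≥ 4`, all proper cuts of all classes of the level orbit are `≥ n`
* `StM M`, `EM M V` : one level move, resp. all classes reachable by level moves, with multipliers `x_i^{±1}`, `M i`
* `LS V z`        : the set of the nontrivial level `z`-cuts of `V`
* `Full n V`      : the Whitehead graph of `V` is a 6-cycle with `n/2`-fold edges
* `Five n V`      : the Whitehead graph with `{a, a⁻¹}` contracted is a 5-cycle with `n/2`-fold edges
* `bk f i`, `CPm n V m f` : blocks of `f`; cyclic partition into `m` blocks with `n/2`-fold edges between neighbours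
* `Cov S N`       : the set `S` of classes is contained in a finite set with at most `N` elements
* `Clo j V X`     : the potential `1_X` (multiplier `x_j`) acts trivially on `V` and all its images under potentials
* `Tg V x y t`    : `x y t` is a cyclic subword of `V`;  `Ps V x y t` : `x y t` or its inverse is a cyclic subword
* `DetL V y`, `DetT V y` : passages through the letter `y` are deterministic (`DetT`: not distinguishing `a`, `a⁻¹`)
* `gw`, `Cons`, `Pat` : patterns `Π a^{±} g_k^{±}` with consistent ports;  `gT` : patterns `Π a^{j} g^{±}`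
* `UU x`          : the cut `{x, b, b⁻¹}`
-/

namespace Pool.Agent.Sims

open FreeGroup (of)

/-- cuts -/
abbrev Ct := Fin 3 × Bool → Bool

/-- nonempty and proper -/
def Prp (A : Ct) : Prop := (∃ x, A x = true) ∧ ∃ x, A x = false

/-- at least two letters inside and two letters outside -/
def Ntr (A : Ct) : Prop :=
  (∃ x y, x ≠ y ∧ A x = true ∧ A y = true) ∧ ∃ x y, x ≠ y ∧ A x = false ∧ A y = false

/-- all four corners are nonempty -/
def Crossg (A B : Ct) : Prop :=
  (∃ x, A x = true ∧ B x = true) ∧ (∃ x, A x = true ∧ B x = false) ∧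
    (∃ x, A x = false ∧ B x = true) ∧ ∃ x, A x = false ∧ B x = false

/-- proper cut of capacity `n` -/
def NC (n : ℕ) (V : CC) (A : Ct) : Prop := Prp A ∧ capC V A = n

/-- `(A ∖ z) ∪ z⁻¹` -/
def stc (A : Ct) (z : Fin 3 × Bool) : Ct := fun x => (A x && decide (x ≠ z)) || decide (x = bar z)

/-- `A` on `z^{±1}`, the complement of `A` elsewhere -/
def opc (z : Fin 3 × Bool) (A : Ct) : Ct := fun x => if x.1 = z.1 then A x else !A x

/-- `A` without the letters `x_i^{±1}` -/
def rs (i : Fin 3) (A : Ct) : Ct := fun x => A x && decide (x.1 ≠ i)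

/-- `E` after the move `(B, y)` (`E` disjoint from `B`) -/
def tp (y : Fin 3 × Bool) (B E : Ct) : Ct := fun x => E x || (E (bar y) && (B x && decide (x ≠ y)))

/-- visibly crossed -/
def VX (n : ℕ) (V : CC) (E : Ct) : Prop := ∃ C, NC n V C ∧ Crossg C E

/-- the sphere `S_z` is crossed -/
def Crs (n : ℕ) (V : CC) (z : Fin 3 × Bool) : Prop :=
  ∃ A, Lv V z A ∧ VX n (act (wh z A) V) (stc A z)

/-- three equal counts `n`, all cuts `≥ n` -/
structure Eq3 (n : ℕ) (V : CC) : Prop where
  hO : OMin V
  h4 : 4 ≤ n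
  c : ∀ i, cnt V i = n
  lo : ∀ W ∈ orb V, ∀ A, Prp A → n ≤ capC W A

/-- one level move with multiplier in `M` -/
def StM (M : Fin 3 → Prop) (V W : CC) : Prop :=
  ∃ (z : Fin 3 × Bool) (A : Ct), M z.1 ∧ Lv V z A ∧ W = act (wh z A) V

/-- classes reachable by level moves with multipliers in `M` -/
def EM (M : Fin 3 → Prop) (V : CC) : Set CC := {W | Relation.ReflTransGen (StM M) V W}

open Classical in
/-- nontrivial level `z`-cuts -/
noncomputable def LS (V : CC) (z : Fin 3 × Bool) : Finset Ct :=
  Finset.univ.filter (fun A => Lv V z A ∧ Ntr A)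

/-- 6-cycle with `n/2`-fold edges -/
def Full (n : ℕ) (V : CC) : Prop := ∃ r : Fin 6 → Fin 3 × Bool, Function.Injective r ∧
  ∀ i, 2 * edgS V (sgl (r i)) (sgl (r (i + 1))) = n

/-- 5-cycle with `n/2`-fold edges after contraction of `{a, a⁻¹}` -/
def Five (n : ℕ) (V : CC) : Prop := ∃ r : Fin 4 → Fin 3 × Bool, Function.Injective r ∧
  (∀ i, (r i).1 ≠ 0) ∧ 2 * edgS V (PrC 0) (sgl (r 0)) = n ∧
  2 * edgS V (sgl (r 0)) (sgl (r 1)) = n ∧ 2 * edgS V (sgl (r 1)) (sgl (r 2)) = n ∧
  2 * edgS V (sgl (r 2)) (sgl (r 3)) = n ∧ 2 * edgS V (sgl (r 3)) (PrC 0) = n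

/-- blocks -/
def bk {m : ℕ} (f : Fin 3 × Bool → Fin m) (i : Fin m) : Ct := fun x => decide (f x = i)

/-- cyclic partition into `m` blocks with `n/2`-fold edges -/
def CPm (n : ℕ) (V : CC) (m : ℕ) [NeZero m] (f : Fin 3 × Bool → Fin m) : Prop :=
  Function.Surjective f ∧ (∀ i, 2 * edgS V (bk f i) (bk f (i + 1)) = n) ∧
    ∀ i j, j ≠ i → j ≠ i + 1 → i ≠ j + 1 → edgS V (bk f i) (bk f j) = 0

/-- contained in a finite set with at most `N` elements -/
def Cov (S : Set CC) (N : ℕ) : Prop := ∃ F : Finset CC, F.card ≤ N ∧ ∀ W ∈ S, W ∈ F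

/-- the potential `1_X` acts trivially -/
def Clo (j : Fin 3) (V : CC) (X : Ct) : Prop :=
  ∀ p : Fin 3 × Bool → ℤ, act (pot j (p + ind X)) V = act (pot j p) V

/-- cyclic subword `x y t` -/
def Tg (V : CC) (x y t : Fin 3 × Bool) : Prop :=
  ∃ l, CR (x :: y :: t :: l) ∧ cls (x :: y :: t :: l) = V

/-- `x y t` or its inverse is a cyclic subword -/
def Ps (V : CC) (x y t : Fin 3 × Bool) : Prop := Tg V x y t ∨ Tg V (bar t) (bar y) (bar x)

/-- deterministic passages through `y` -/
def DetL (V : CC) (y : Fin 3 × Bool) : Prop :=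
  ∀ x t x' t', Ps V x y t → Ps V x' y t' → (x = x' ↔ t = t')

/-- equal or both `a^{±1}` -/
def eT (x x' : Fin 3 × Bool) : Prop := x = x' ∨ (x.1 = 0 ∧ x'.1 = 0)

/-- deterministic passages through `y`, not distinguishing `a`, `a⁻¹` -/
def DetT (V : CC) (y : Fin 3 × Bool) : Prop :=
  ∀ x t x' t', Ps V x y t → Ps V x' y t' → (eT x x' ↔ eT t t')

/-- the element `Π a^{port k d} g_k^{d}` -/
def gw (port : Bool → Bool → Bool) (g : Bool → FreeGroup (Fin 3)) (π : List (Bool × Bool)) :
    FreeGroup (Fin 3) :=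
  (π.map (fun t => lett ((0 : Fin 3), port t.1 t.2) * (if t.2 then g t.1 else (g t.1)⁻¹))).prod

/-- consistency of the ports -/
def Cons (port : Bool → Bool → Bool) (π : List (Bool × Bool)) : Prop :=
  cyc (fun t t' : Bool × Bool => if port t'.1 t'.2 = !port t.1 (!t.2) then 0 else 1) π = 0

/-- `V` has the pattern `π` -/
def Pat (port : Bool → Bool → Bool) (π : List (Bool × Bool)) (V : CC) : Prop :=
  ∃ g : Bool → FreeGroup (Fin 3), (∀ k, In12 (g k)) ∧
    (∀ k, g k = 1 → port k true ≠ port k false) ∧ V = ConjClasses.mk (gw port g π)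

/-- the element `Π a^{j} g^{±1}` -/
def gT (j : List (ℤ × Bool)) (g : FreeGroup (Fin 3)) : FreeGroup (Fin 3) :=
  (j.map (fun t => of 0 ^ t.1 * (if t.2 then g else g⁻¹))).prod

/-- the cut `{x, b, b⁻¹}` -/
def UU (x : Fin 3 × Bool) : Ct := fun y => decide (y = x) || decide (y.1 = 1)

end Pool.Agent.Sims
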