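import Pool.Agent.Sims.EvF1
import Pool.Agent.Sims.SylEdge

/-!
# Module `EvDetC` : the passages through `z` and the edges after a level move

`A = z ∪ X` level `z`-cut at `V` (`X = rs z.1 A`, letters `≠ z^{±1}`), `V₁ = act (wh z A) V`, `Q = stc A z = X ∪ z⁻¹`.  `C` has capacity `n` at `V₁`, crosses `Q`, contains `z⁻¹` and is disjoint from `X`.
Corners at `V₁` (`f1e` for `C`, `Q`; `Q` has capacity `n` by `Lv_inv`): `C ∧ Q = {z⁻¹}`, `¬C ∧ Q = X`, `E₄ = C ∧ ¬Q`, `E₃ = ¬C ∧ ¬Q`, with `e(z⁻¹, E₃) = 0` and `e(X, E₄) = 0` at `V₁`.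
So: (1) an edge of `V₁` between `z⁻¹` and a letter `u ∉ Q` has `u ∈ C`; (2) an edge of `V₁` between a letter of `X` and a letter `u ∉ Q` has `u ∉ C`.

Let `x z⁻¹ t` be a cyclic subword of `V` (up to inversion, `Ps V x (bar z) t`), `u = t⁻¹` (so `x` is the neighbour on the side of `z`, `u` the one on the side of `z⁻¹`; `x ≠ z`, `u ≠ z⁻¹` since the word is reduced).
In `V` the letter `z⁻¹` belongs to a syllable `x₀ z^{-m} y₀`, `m ≥ 1`, with ends `x₀` and `u₀ = y₀⁻¹` (`≠ z^{±1}`); in `V₁` this syllable becomes `x₀ z^{-m'} y₀`, `m' = m - [x₀ ∈ X] + [u₀ ∈ X] ≥ 0`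
(`act_pot`: `shift`), so in `V₁` there is the edge `{x₀, u₀}` if `m' = 0`, and otherwise the edges `{x₀, z}`, `{z⁻¹, u₀}` and (if `m' ≥ 2`) `{z, z⁻¹}`.  Cases (`x ∈ X` implies `x = x₀`, `u ∈ X` implies `u = u₀`):
- `x ∈ X`, `u ∉ X`, `u ≠ z` : `m = 1`, `m' = 0`: edge `{x, u}`, so `u ∉ C` by (2).   - `x ∈ X`, `u = z`: `m ≥ 2`, `m' ≥ 1`: edge `{x, z}`: `z ∉ C`.
- `x ∈ X`, `u ∈ X`: `m' = m = 1`: edge `{x, z}`: `z ∉ C`.
- `x ∉ X`, `u ∉ X`, `u ≠ z`: `u = u₀`, `m' = m - [x₀ ∈ X] ≥ 1` (if `x₀ ∈ X` then `x ≠ x₀`, so `m ≥ 2`): edge `{z⁻¹, u}`: `u ∈ C` by (1).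
- `x ∉ X`, `u = z`: `m ≥ 2`; then `m' ≥ 2` or (`x₀ ∈ X` and `m' ≥ m - 1`): if `x₀ ∉ X`: `m' ≥ 2`: edge `{z, z⁻¹}`: `z ∈ C`.  If `x₀ ∈ X`: `x = z⁻¹ ≠ x₀`, so `z⁻¹ z⁻¹ z⁻¹` is contained in the
  syllable, `m ≥ 3`, `m' ≥ 2`: `z ∈ C`.
- `x ∉ X`, `u ∈ X`: `u = u₀`, `m' = m + 1 - [x₀ ∈ X] ≥ 2` (as before `x₀ ∈ X` implies `m ≥ 2`): edge `{z, z⁻¹}`: `z ∈ C`.
This is the statement.  (Edges of `V₁`: `edgS_expand`, `edgS_jj`, `edgS_zero`, or `0 < cyc`; the case `z = (j, false)` can be reduced to `z = (j, true)` by the sign change `flp` of `x_j`, or treat both by hand.)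
Difficulty 4.
-/

namespace Pool.Agent.Sims

/-- the logic of the cases -/
theorem EvDetC_core {z : Fin 3 × Bool} {A C : Ct} {x₀ u₀ : Fin 3 × Bool} (hx : x₀.1 ≠ z.1)
    (hu : u₀.1 ≠ z.1) {m m' : ℤ} (hm' : m' = m - ind A x₀ + ind A u₀)
    (k0 : m' = 0 → A x₀ = true → A u₀ = false → C u₀ = false)
    (k1 : 1 ≤ m' → A x₀ = true → C z = false) (k1' : 1 ≤ m' → A u₀ = false → C u₀ = true)
    (k2 : 2 ≤ m' → C z = true) {x v : Fin 3 × Bool}
    (hc : (x = x₀ ∧ v = u₀ ∧ m = 1) ∨ (x = x₀ ∧ v = z ∧ 2 ≤ m) ∨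
      (x = bar z ∧ v = z ∧ 3 ≤ m) ∨ (x = bar z ∧ v = u₀ ∧ 2 ≤ m)) :
    (rs z.1 A v = false → (rs z.1 A x = true ↔ C v = false)) ∧
    (rs z.1 A v = true → (rs z.1 A x = true ↔ C z = false)) := by
  have e1 : rs z.1 A x₀ = A x₀ := by simp [rs, hx]
  have e2 : rs z.1 A u₀ = A u₀ := by simp [rs, hu]
  have e3 : rs z.1 A z = false := by simp [rs]
  have e4 : rs z.1 A (bar z) = false := by simp [rs]
  have i1 : A x₀ = true → ind A x₀ = 1 := fun h => by simp [ind, h]
  have i2 : A x₀ = false → ind A x₀ = 0 := fun h => by simp [ind, h]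
  have i3 : A u₀ = true → ind A u₀ = 1 := fun h => by simp [ind, h]
  have i4 : A u₀ = false → ind A u₀ = 0 := fun h => by simp [ind, h]
  rcases hc with ⟨rfl, rfl, h⟩ | ⟨rfl, rfl, h⟩ | ⟨rfl, rfl, h⟩ | ⟨rfl, rfl, h⟩
  · rw [e1, e2]
    rcases Bool.eq_false_or_eq_true (A x) with a1 | a1 <;>
      rcases Bool.eq_false_or_eq_true (A v) with a2 | a2
    · rw [i1 a1, i3 a2] at hm'
      have h3 := k1 (by omega) a1
      simp [a1, a2, h3]
    · rw [i1 a1, i4 a2] at hm'
      have h3 := k0 (by omega) a1 a2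
      simp [a1, a2, h3]
    · rw [i2 a1, i3 a2] at hm'
      have h3 := k2 (by omega)
      simp [a1, a2, h3]
    · rw [i2 a1, i4 a2] at hm'
      have h3 := k1' (by omega) a2
      simp [a1, a2, h3]
  · rw [e1, e3]
    rcases Bool.eq_false_or_eq_true (A x) with a1 | a1
    · rw [i1 a1] at hm'
      have h4 : 0 ≤ ind A u₀ := by unfold ind; split_ifs <;> omega
      have h3 := k1 (by omega) a1
      simp [a1, h3]
    · rw [i2 a1] at hm'
      have h4 : 0 ≤ ind A u₀ := by unfold ind; split_ifs <;> omega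
      have h3 := k2 (by omega)
      simp [a1, h3]
  · rw [e4, e3]
    have h4 : 0 ≤ ind A u₀ := by unfold ind; split_ifs <;> omega
    have h5 : ind A x₀ ≤ 1 := by unfold ind; split_ifs <;> omega
    have h3 := k2 (by omega)
    simp [h3]
  · rw [e4, e2]
    have h5 : ind A x₀ ≤ 1 := by unfold ind; split_ifs <;> omega
    rcases Bool.eq_false_or_eq_true (A v) with a2 | a2
    · rw [i3 a2] at hm'
      have h3 := k2 (by omega)
      simp [a2, h3]
    · rw [i4 a2] at hm'
      have h3 := k1' (by omega) a2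
      simp [a2, h3]

/-- the last syllable -/
theorem EvDetC_suffix {β : Type*} (c d q : β) (hq : q ≠ d) :
    ∀ (n m : ℕ) (A B : List β), List.replicate m c ++ q :: A = List.replicate n d ++ B →
      n ≤ m ∧ (1 ≤ n → c = d) := by
  intro n
  induction n with
  | zero => intro m A B _; exact ⟨Nat.zero_le _, fun h => absurd h (by omega)⟩
  | succ n ih =>
    intro m A B h
    cases m with
    | zero =>
      rw [List.replicate_zero, List.nil_append, List.replicate_succ, List.cons_append] at h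
      exact absurd (List.cons.inj h).1 hq
    | succ m =>
      rw [List.replicate_succ, List.replicate_succ, List.cons_append, List.cons_append] at h
      obtain ⟨h1, h2⟩ := List.cons.inj h
      have h3 := ih m A B h2
      exact ⟨by omega, fun _ => h1⟩

theorem EvDetC_expand_cons (j : Fin 3) (q : (Fin 3 × Bool) × ℤ)
    (t : List ((Fin 3 × Bool) × ℤ)) :
    expand j (q :: t) = q.1 :: (zpw j q.2 ++ expand j t) := by
  simp [expand]

theorem EvDetC_expand_concat (j : Fin 3) (t : List ((Fin 3 × Bool) × ℤ))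
    (q : (Fin 3 × Bool) × ℤ) :
    expand j (t ++ [q]) = expand j t ++ q.1 :: zpw j q.2 := by
  simp [expand]

theorem EvDetC_adj_last {β : Type*} (r q : β) (s₀ s₁ : List β) (h : r :: s₀ = s₁ ++ [q])
    (f : β → β → ℕ) : f q r ≤ cyc f (r :: s₀) := by
  have h1 : r :: s₀ ~r q :: s₁ := by
    rw [h]
    exact List.isRotated_append
  rw [cyc_rotated f h1]
  cases s₁ with
  | nil =>
    have h2 : r = q := (List.cons.inj h).1
    subst h2
    exact le_rfl
  | cons a s₂ =>
    have h2 : r = a := (List.cons.inj h).1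
    subst h2
    show f q r ≤ f q r + lin f r s₂ q
    omega

/-- the position of a subword with middle letter `x_j^{±1}` -/
theorem EvDetC_loc {V : CC} {j : Fin 3} (hV : ∃ i, i ≠ j ∧ 0 < cnt V i) {x y t : Fin 3 × Bool}
    (hy : y.1 = j) (h : Tg V x y t) :
    ∃ (s : List ((Fin 3 × Bool) × ℤ)) (q r : (Fin 3 × Bool) × ℤ), SValid j s ∧
      V = cls (expand j s) ∧ q.1.1 ≠ j ∧ r.1.1 ≠ j ∧
      (∀ f : (Fin 3 × Bool) × ℤ → (Fin 3 × Bool) × ℤ → ℕ, f q r ≤ cyc f s) ∧
      ∃ m : ℤ, 1 ≤ m ∧ q.2 = sgn y * m ∧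
        ((x = q.1 ∧ t = r.1 ∧ m = 1) ∨ (x = q.1 ∧ t = y ∧ 2 ≤ m) ∨
          (x = y ∧ t = y ∧ 3 ≤ m) ∨ (x = y ∧ t = r.1 ∧ 2 ≤ m)) := by
  obtain ⟨l, hCR, hcl⟩ := h
  have hsgn : ∀ k : ℤ, y = (j, decide (0 ≤ k)) → k = sgn y * (k.natAbs : ℤ) := by
    intro k hk
    rw [hk]
    by_cases h0 : 0 ≤ k
    · simp only [sgn, h0, decide_true, if_true]
      omega
    · simp only [sgn, h0, decide_false, Bool.false_eq_true, if_false]
      omega
  by_cases hx : x.1 = j
  · -- the run starts before `x`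
    obtain ⟨k, s', hs', hq'⟩ := SylA_group j (x :: y :: t :: l) hCR.1
    have hk2 : ∃ n, k.natAbs = n + 2 := by
      rcases hn : k.natAbs with _ | _ | n
      · exfalso
        rw [zpw, hn, List.replicate_zero, List.nil_append] at hs'
        cases s' with
        | nil => simp [expand] at hs'
        | cons a s' =>
          rw [EvDetC_expand_cons] at hs'
          exact hq' a (by simp) (by rw [← (List.cons.inj hs').1, hx])
      · exfalso
        rw [zpw, hn, List.replicate_succ, List.replicate_zero, List.cons_append,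
          List.nil_append] at hs'
        have h1 := (List.cons.inj hs').2
        cases s' with
        | nil => simp [expand] at h1
        | cons a s' =>
          rw [EvDetC_expand_cons] at h1
          exact hq' a (by simp) (by rw [← (List.cons.inj h1).1, hy])
      · exact ⟨n, rfl⟩
    obtain ⟨n, hn⟩ := hk2
    obtain ⟨c, hc⟩ : ∃ c, c = ((j, decide (0 ≤ k)) : Fin 3 × Bool) := ⟨_, rfl⟩
    have hz : zpw j k = List.replicate (n + 2) c := by rw [zpw, hn, hc]
    have hs2 := hs'
    rw [hz, List.replicate_succ, List.replicate_succ, List.cons_append, List.cons_append] at hs2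
    obtain ⟨hxc, hs3⟩ := List.cons.inj hs2
    obtain ⟨hyc, hs4⟩ := List.cons.inj hs3
    -- `s'` is not empty
    obtain ⟨a, s'', rfl⟩ : ∃ a s'', s' = a :: s'' := by
      cases s' with
      | nil =>
        exfalso
        obtain ⟨i, hij, hi⟩ := hV
        rw [← hcl, cnt_cls hCR, hs', hz] at hi
        have h1 : expand j [] = [] := rfl
        rw [h1, List.append_nil, cntL, List.countP_replicate] at hi
        have h2 : ¬ (c.1 = i) := by rw [hc]; exact fun h => hij h.symm
        simp [h2] at hi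
      | cons a s'' => exact ⟨a, s'', rfl⟩
    have hrot : (x :: y :: t :: l) ~r (expand j (a :: s'') ++ zpw j k) := by
      rw [hs']
      exact List.isRotated_append
    have hCR2 := CR_of_rotated hrot hCR
    have hcl2 : cls (expand j (a :: s'') ++ zpw j k) = V := by rw [← cls_of_rotated hrot, hcl]
    have hw : expand j (a :: s'') ++ zpw j k =
        a.1 :: ((zpw j a.2 ++ expand j s'') ++ zpw j k) := by
      rw [EvDetC_expand_cons]
      rfl
    have hred : FreeGroup.IsReduced ((zpw j a.2 ++ expand j s'') ++ zpw j k) := by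
      have h1 := hCR2.1
      rw [hw] at h1
      unfold FreeGroup.IsReduced at h1 ⊢
      exact h1.tail
    obtain ⟨k₀, s₀, hs₀, hq₀⟩ := SylA_group j _ hred
    have hw2 : expand j (a :: s'') ++ zpw j k = expand j ((a.1, k₀) :: s₀) := by
      rw [hw, hs₀, EvDetC_expand_cons]
    have haj : a.1.1 ≠ j := hq' a (by simp)
    have hval : ∀ q ∈ (a.1, k₀) :: s₀, q.1.1 ≠ j := by
      intro q hq
      rcases List.mem_cons.1 hq with rfl | hq
      · exact haj
      · exact hq₀ q hq
    obtain ⟨s₁, q, hlast⟩ : ∃ s₁ q, (a.1, k₀) :: s₀ = s₁ ++ [q] := by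
      rcases List.eq_nil_or_concat ((a.1, k₀) :: s₀) with h1 | ⟨s₁, q, h1⟩
      · exact absurd h1 (by simp)
      · exact ⟨s₁, q, by rw [h1, List.concat_eq_append]⟩
    have hqj : q.1.1 ≠ j := hval q (by rw [hlast]; simp)
    have hrev : List.replicate q.2.natAbs ((j, decide (0 ≤ q.2)) : Fin 3 × Bool) ++
        q.1 :: (expand j s₁).reverse = List.replicate (n + 2) c ++
          (expand j (a :: s'')).reverse := by
      have h1 := congrArg List.reverse hw2
      rw [hlast, EvDetC_expand_concat, List.reverse_append, List.reverse_append,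
        List.reverse_cons, hz, zpw, List.reverse_replicate, List.reverse_replicate] at h1
      rw [h1]
      simp
    have hqc : q.1 ≠ c := by
      intro h1
      exact hqj (by rw [h1, hc])
    obtain ⟨hnm, hcd⟩ := EvDetC_suffix _ c q.1 hqc _ _ _ _ hrev
    have hyq : y = (j, decide (0 ≤ q.2)) := by rw [hyc, ← hcd (by omega)]
    refine ⟨(a.1, k₀) :: s₀, q, (a.1, k₀), ⟨hval, ?_⟩, ?_, hqj, haj,
      fun f => EvDetC_adj_last _ _ _ _ hlast f, (q.2.natAbs : ℤ), by omega, hsgn q.2 hyq, ?_⟩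
    · rw [← hw2]; exact hCR2
    · rw [← hw2, hcl2]
    · cases n with
      | zero =>
        right; right; right
        refine ⟨by rw [hxc, hyc], ?_, by omega⟩
        rw [List.replicate_zero, List.nil_append, EvDetC_expand_cons] at hs4
        exact (List.cons.inj hs4).1
      | succ n =>
        right; right; left
        refine ⟨by rw [hxc, hyc], ?_, by omega⟩
        rw [List.replicate_succ, List.cons_append] at hs4
        rw [(List.cons.inj hs4).1, hyc]
  · -- `x` is the letter before the run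
    have hred : FreeGroup.IsReduced (y :: t :: l) := by
      have h1 := hCR.1
      unfold FreeGroup.IsReduced at h1 ⊢
      exact h1.tail
    obtain ⟨k, s', hs', hq'⟩ := SylA_group j (y :: t :: l) hred
    have hw : x :: y :: t :: l = expand j ((x, k) :: s') := by
      rw [EvDetC_expand_cons, hs']
    have hval : ∀ q ∈ (x, k) :: s', q.1.1 ≠ j := by
      intro q hq
      rcases List.mem_cons.1 hq with rfl | hq
      · exact hx
      · exact hq' q hq
    have hk1 : ∃ n, k.natAbs = n + 1 := by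
      rcases hn : k.natAbs with _ | n
      · exfalso
        rw [zpw, hn, List.replicate_zero, List.nil_append] at hs'
        cases s' with
        | nil => simp [expand] at hs'
        | cons a s' =>
          rw [EvDetC_expand_cons] at hs'
          exact hq' a (by simp) (by rw [← (List.cons.inj hs').1, hy])
      · exact ⟨n, rfl⟩
    obtain ⟨n, hn⟩ := hk1
    have hs2 := hs'
    rw [zpw, hn, List.replicate_succ, List.cons_append] at hs2
    obtain ⟨hyc, hs3⟩ := List.cons.inj hs2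
    have hS : SValid j ((x, k) :: s') := ⟨hval, by rw [← hw]; exact hCR⟩
    have hVs : V = cls (expand j ((x, k) :: s')) := by rw [← hw, hcl]
    cases n with
    | zero =>
      rw [List.replicate_zero, List.nil_append] at hs3
      cases s' with
      | nil => exact absurd hs3 (by simp [expand])
      | cons r s'' =>
        rw [EvDetC_expand_cons] at hs3
        refine ⟨(x, k) :: r :: s'', (x, k), r, hS, hVs, hx, hq' r (by simp), fun f => ?_,
          (k.natAbs : ℤ), by omega, hsgn k hyc, ?_⟩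
        · show f (x, k) r ≤ f (x, k) r + lin f r s'' (x, k)
          omega
        · left
          exact ⟨rfl, (List.cons.inj hs3).1, by omega⟩
    | succ n =>
      rw [List.replicate_succ, List.cons_append] at hs3
      have htc : t = y := by rw [(List.cons.inj hs3).1, hyc]
      obtain ⟨r, hr, hadj⟩ : ∃ r ∈ (x, k) :: s',
          ∀ f : (Fin 3 × Bool) × ℤ → (Fin 3 × Bool) × ℤ → ℕ, f (x, k) r ≤ cyc f ((x, k) :: s') := by
        cases s' with
        | nil => exact ⟨(x, k), by simp, fun f => le_rfl⟩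
        | cons r s'' =>
          refine ⟨r, by simp, fun f => ?_⟩
          show f (x, k) r ≤ f (x, k) r + lin f r s'' (x, k)
          omega
      exact ⟨(x, k) :: s', (x, k), r, hS, hVs, hx, hval r hr, hadj, (k.natAbs : ℤ), by omega,
        hsgn k hyc, Or.inr (Or.inl ⟨rfl, htc, by omega⟩)⟩

/-- no edges between two sets: the contribution of a syllable -/
theorem EvDetC_vanish {j : Fin 3} {s : List ((Fin 3 × Bool) × ℤ)} (hs : SValid j s)
    {q r : (Fin 3 × Bool) × ℤ}
    (hadj : ∀ f : (Fin 3 × Bool) × ℤ → (Fin 3 × Bool) × ℤ → ℕ, f q r ≤ cyc f s)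
    (p : Fin 3 × Bool → ℤ) {P R : Ct}
    (h : edgS (act (pot j p) (cls (expand j s))) P R = 0) {y : Fin 3 × Bool} (hy : y.1 = j)
    {m' : ℤ} (hm : q.2 + p q.1 - p (bar r.1) = sgn y * m') (hm0 : 0 ≤ m') :
    (m' = 0 → (P q.1 && R (bar r.1) || R q.1 && P (bar r.1)) = false) ∧
    (1 ≤ m' → (P q.1 && R (bar y) || R q.1 && P (bar y)) = false) ∧
    (1 ≤ m' → (P y && R (bar r.1) || R y && P (bar r.1)) = false) ∧
    (2 ≤ m' → (P y && R (bar y) || R y && P (bar y)) = false) := by
  have hs' := SValid_shift j p s hs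
  rw [act_pot _ _ _ hs.1] at h
  unfold edgS at h
  obtain ⟨f, hf⟩ : ∃ f : Fin 3 × Bool → Fin 3 × Bool → ℕ,
    f = fun x y => if (P x && R (bar y)) || (R x && P (bar y)) then 1 else 0 := ⟨_, rfl⟩
  have hf0 : ∀ a b, f a b = 0 → (P a && R (bar b) || R a && P (bar b)) = false := by
    intro a b hab
    rw [hf] at hab
    by_contra h1
    rw [Bool.not_eq_false] at h1
    simp only [h1, if_true] at hab
    exact one_ne_zero hab
  rw [← hf, cyc_rotated _ (rep_rotated hs'.2), SylC_cyc_expand,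
    cyc_shift (fun (q : (Fin 3 × Bool) × ℤ) (y : Fin 3 × Bool) => lin f q.1 (zpw j q.2) y)] at h
  have h2 := hadj (fun q r : (Fin 3 × Bool) × ℤ =>
    lin f q.1 (zpw j (q.2 + p q.1 - p (bar r.1))) r.1)
  have h3 : lin f q.1 (zpw j (sgn y * m')) r.1 = 0 := by
    rw [← hm]
    have h4 : cyc (fun q r : (Fin 3 × Bool) × ℤ =>
      lin f q.1 (zpw j (q.2 + p q.1 - p (bar r.1))) r.1) s = 0 := h
    rw [h4] at h2
    exact Nat.le_zero.1 h2
  rcases y with ⟨i, b⟩
  have hi : i = j := hy
  subst hi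
  rcases SylC_lin_zpw f q.1 i (sgn (i, b) * m') r.1 with ⟨h5, h6⟩ | ⟨n, h5, h6⟩ | ⟨n, h5, h6⟩
  · rw [h6] at h3
    have h7 : m' = 0 := by
      cases b <;> simp [sgn] at h5 <;> omega
    exact ⟨fun _ => hf0 _ _ h3, fun h => by omega, fun h => by omega, fun h => by omega⟩
  · have h7 : b = true ∧ m' = n + 1 := by
      cases b
      · simp [sgn] at h5; omega
      · simp [sgn] at h5; exact ⟨rfl, h5⟩
    obtain ⟨rfl, h8⟩ := h7
    rw [h6] at h3
    refine ⟨fun h => by omega, fun _ => hf0 _ _ (by omega), fun _ => hf0 _ _ (by omega),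
      fun h => hf0 _ _ ?_⟩
    have h9 : n * f (i, true) (i, true) = 0 := by omega
    rcases Nat.mul_eq_zero.1 h9 with h10 | h10
    · omega
    · exact h10
  · have h7 : b = false ∧ m' = n + 1 := by
      cases b
      · simp [sgn] at h5; exact ⟨rfl, by omega⟩
      · simp [sgn] at h5; omega
    obtain ⟨rfl, h8⟩ := h7
    rw [h6] at h3
    refine ⟨fun h => by omega, fun _ => hf0 _ _ (by omega), fun _ => hf0 _ _ (by omega),
      fun h => hf0 _ _ ?_⟩
    have h9 : n * f (i, false) (i, false) = 0 := by omega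
    rcases Nat.mul_eq_zero.1 h9 with h10 | h10
    · omega
    · exact h10

theorem det_core {n : ℕ} {V : CC} (E : Eq3 n V) {z : Fin 3 × Bool} {A C : Ct} (hA : Lv V z A)
    (hC : NC n (act (wh z A) V) C) (hX : Crossg C (stc A z)) (hz : C (bar z) = true)
    (hX' : ∀ x, rs z.1 A x = true → C x = false) {x t : Fin 3 × Bool} (h : Ps V x (bar z) t) :
    (rs z.1 A (bar t) = false → (rs z.1 A x = true ↔ C (bar t) = false)) ∧
    (rs z.1 A (bar t) = true → (rs z.1 A x = true ↔ C z = false)) := by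
  have E1 : Eq3 n (act (wh z A) V) := E.lv hA
  have hQ : NC n (act (wh z A) V) (stc A z) := by
    have h1 := (Lv_inv hA).1
    exact ((Lv_NC E1).1 h1).2.2
  obtain ⟨hf1, hf2, -⟩ := f1e E1 hC hQ hX
  have hne : z ≠ bar z := (bar_ne z).symm
  -- values of `stc A z`
  have q1 : stc A z (bar z) = true := by simp [stc]
  have q2 : stc A z z = false := by simp [stc, hne]
  have q3 : ∀ u : Fin 3 × Bool, u.1 ≠ z.1 → stc A z u = A u := by
    intro u hu
    have h1 : u ≠ z := fun h => hu (by rw [h])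
    have h2 : u ≠ bar z := fun h => hu (by rw [h, bar_fst])
    simp [stc, h1, h2]
  have hX2 : ∀ u : Fin 3 × Bool, u.1 ≠ z.1 → A u = true → C u = false := by
    intro u hu hAu
    exact hX' u (by simp [rs, hu, hAu])
  have hVn : ∃ i, i ≠ z.1 ∧ 0 < cnt V i := by
    have h4 := E.h4
    obtain ⟨i, hi⟩ : ∃ i : Fin 3, i ≠ z.1 := exists_ne z.1
    exact ⟨i, hi, by rw [E.c i]; omega⟩
  have hi01 : ∀ u, ind A u = 0 ∨ ind A u = 1 := by
    intro u
    unfold ind
    split_ifs
    · right; rfl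
    · left; rfl
  have hp : ∀ u, whp z A u = sgn z * ind A u := by
    intro u
    unfold whp ind
    split_ifs <;> simp
  have hsz : sgn (bar z) = - sgn z := by
    rcases z with ⟨i, b⟩
    cases b <;> simp [sgn]
  -- from the absence of edges to the conclusions
  have N1 : ∀ u, u.1 ≠ z.1 → A u = false →
      ((fun x => C x && stc A z x) (bar z) && (fun x => !C x && !stc A z x) u ||
        (fun x => !C x && !stc A z x) (bar z) && (fun x => C x && stc A z x) u) = false →
      C u = true := by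
    intro u hu hAu hN
    simp only [hz, q1, q3 u hu, hAu] at hN
    simpa using hN
  have N2 : ((fun x => C x && stc A z x) z && (fun x => !C x && !stc A z x) (bar z) ||
        (fun x => !C x && !stc A z x) z && (fun x => C x && stc A z x) (bar z)) = false →
      C z = true := by
    intro hN
    simp only [hz, q1, q2] at hN
    simpa using hN
  have N3 : ∀ u, u.1 ≠ z.1 → A u = true →
      ((fun x => C x && !stc A z x) u && (fun x => !C x && stc A z x) z ||
        (fun x => !C x && stc A z x) u && (fun x => C x && !stc A z x) z) = false →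
      C z = false := by
    intro u hu hAu hN
    simp only [hX2 u hu hAu, q2, q3 u hu, hAu] at hN
    simpa using hN
  have N4 : ∀ u v, u.1 ≠ z.1 → v.1 ≠ z.1 → A u = true → A v = false →
      ((fun x => C x && !stc A z x) u && (fun x => !C x && stc A z x) v ||
        (fun x => !C x && stc A z x) u && (fun x => C x && !stc A z x) v) = false →
      C v = false := by
    intro u v hu hv hAu hAv hN
    simp only [hX2 u hu hAu, q3 u hu, q3 v hv, hAu, hAv] at hN
    simpa using hN
  have sw : ∀ (P R : Ct) (a b : Fin 3 × Bool), (P a && R b || R a && P b) = false →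
      (P b && R a || R b && P a) = false := by
    intro P R a b h1
    rw [Bool.or_comm, Bool.and_comm (R b), Bool.and_comm (P b)]
    exact h1
  unfold wh at hf1 hf2
  rcases h with h | h
  · obtain ⟨s, q, r, hs, hV, hqj, hrj, hadj, m, hm1, hqm, hcase⟩ :=
      EvDetC_loc hVn (bar_fst z) h
    rw [hV] at hf1 hf2
    have hm' : q.2 + whp z A q.1 - whp z A (bar r.1) =
        sgn (bar z) * (m - ind A q.1 + ind A (bar r.1)) := by
      rw [hqm, hp, hp, hsz]
      ring
    have hm0 : 0 ≤ m - ind A q.1 + ind A (bar r.1) := by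
      rcases hi01 q.1 with h1 | h1 <;> rcases hi01 (bar r.1) with h2 | h2 <;> omega
    obtain ⟨a0, a1, a2, a3⟩ := EvDetC_vanish hs hadj (whp z A) hf1 (bar_fst z) hm' hm0
    obtain ⟨b0, b1, b2, b3⟩ := EvDetC_vanish hs hadj (whp z A) hf2 (bar_fst z) hm' hm0
    rw [bar_bar] at a1 a3 b1 b3
    have hrj' : (bar r.1).1 ≠ z.1 := hrj
    refine EvDetC_core (m := m) (x₀ := q.1) (u₀ := bar r.1) hqj hrj rfl ?_ ?_ ?_ ?_ ?_
    · intro h0 h1 h2
      exact N4 _ _ hqj hrj' h1 h2 (b0 h0)
    · intro h0 h1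
      exact N3 _ hqj h1 (b1 h0)
    · intro h0 h1
      exact N1 _ hrj' h1 (a2 h0)
    · intro h0
      exact N2 (sw (fun x => C x && stc A z x) (fun x => !C x && !stc A z x) _ _ (a3 h0))
    · rcases hcase with ⟨c1, c2, c3⟩ | ⟨c1, c2, c3⟩ | ⟨c1, c2, c3⟩ | ⟨c1, c2, c3⟩
      · exact Or.inl ⟨c1, by rw [c2], c3⟩
      · exact Or.inr (Or.inl ⟨c1, by rw [c2, bar_bar], c3⟩)
      · exact Or.inr (Or.inr (Or.inl ⟨c1, by rw [c2, bar_bar], c3⟩))
      · exact Or.inr (Or.inr (Or.inr ⟨c1, by rw [c2], c3⟩))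
  · rw [bar_bar] at h
    obtain ⟨s, q, r, hs, hV, hqj, hrj, hadj, m, hm1, hqm, hcase⟩ := EvDetC_loc hVn rfl h
    rw [hV] at hf1 hf2
    have hm' : q.2 + whp z A q.1 - whp z A (bar r.1) =
        sgn z * (m - ind A (bar r.1) + ind A q.1) := by
      rw [hqm, hp, hp]
      ring
    have hm0 : 0 ≤ m - ind A (bar r.1) + ind A q.1 := by
      rcases hi01 q.1 with h1 | h1 <;> rcases hi01 (bar r.1) with h2 | h2 <;> omega
    obtain ⟨a0, a1, a2, a3⟩ := EvDetC_vanish hs hadj (whp z A) hf1 rfl hm' hm0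
    obtain ⟨b0, b1, b2, b3⟩ := EvDetC_vanish hs hadj (whp z A) hf2 rfl hm' hm0
    have hrj' : (bar r.1).1 ≠ z.1 := hrj
    have sx : ∀ a b : Fin 3 × Bool, bar a = b → a = bar b := by
      intro a b h1
      rw [← h1, bar_bar]
    refine EvDetC_core (m := m) (x₀ := bar r.1) (u₀ := q.1) hrj' hqj rfl ?_ ?_ ?_ ?_ ?_
    · intro h0 h1 h2
      exact N4 _ _ hrj' hqj h1 h2
        (sw (fun x => C x && !stc A z x) (fun x => !C x && stc A z x) _ _ (b0 h0))
    · intro h0 h1
      exact N3 _ hrj' h1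
        (sw (fun x => C x && !stc A z x) (fun x => !C x && stc A z x) _ _ (b2 h0))
    · intro h0 h1
      exact N1 _ hqj h1
        (sw (fun x => C x && stc A z x) (fun x => !C x && !stc A z x) _ _ (a1 h0))
    · intro h0
      exact N2 (a3 h0)
    · rcases hcase with ⟨c1, c2, c3⟩ | ⟨c1, c2, c3⟩ | ⟨c1, c2, c3⟩ | ⟨c1, c2, c3⟩
      · exact Or.inl ⟨sx _ _ c2, c1, c3⟩
      · exact Or.inr (Or.inr (Or.inr ⟨sx _ _ c2, c1, c3⟩))
      · exact Or.inr (Or.inr (Or.inl ⟨sx _ _ c2, c1, c3⟩))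
      · exact Or.inr (Or.inl ⟨sx _ _ c2, c1, c3⟩)

end Pool.Agent.Sims
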