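import Pool.Agent.Sims.EvBas

/-!
# Module `EvF1` : uncrossing

`A`, `B` of capacity `n`, crossing.  The four corners are proper, so all have capacity `≥ n` (`Eq3.low`).  `capC_submod`, `capC_submod'` give `≤ 2n` for the sums of opposite corners, so all corners have
capacity `n` (complement: `NC_compl`, `capC_compl`).
`capC_union` for `A ∧ B` and ... : let `X₁ = A ∧ B`, `X₂ = A ∧ ¬B`, `X₃ = ¬A ∧ B`, `X₄ = ¬A ∧ ¬B` (a partition of the letters), `e_ij = edgS V X_i X_j`.
From `capC_union` applied to the disjoint pairs: `cap X_i + cap X_j = cap (X_i ∪ X_j) + 2 e_ij`, where `X₁ ∪ X₂ = A`, `X₁ ∪ X₃ = B`, `X₂ ∪ X₄ = Bᶜ`, `X₃ ∪ X₄ = Aᶜ` have capacity `n`: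
`2 e₁₂ = 2 e₁₃ = 2 e₂₄ = 2 e₃₄ = n`.  And `cap X₁ = e₁₂ + e₁₃ + e₁₄` (`capC_edgS`, `edgS_split`), so `e₁₄ = 0`; `cap X₂ = e₁₂ + e₂₄ + e₂₃` so `e₂₃ = 0`.
Difficulty 1.
-/

namespace Pool.Agent.Sims

/-- the four corners of two crossing cuts of capacity `n` -/
theorem EvF1_caps {n : ℕ} {V : CC} (E : Eq3 n V) {A B : Ct} (hA : NC n V A) (hB : NC n V B)
    (hX : Crossg A B) :
    capC V (fun x => A x && B x) = n ∧ capC V (fun x => A x && !B x) = n ∧
    capC V (fun x => !A x && B x) = n ∧ capC V (fun x => !A x && !B x) = n := by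
  obtain ⟨⟨x, h1, h2⟩, ⟨y, h3, h4⟩, ⟨z, h5, h6⟩, ⟨w, h7, h8⟩⟩ := hX
  have p1 : Prp (fun x => A x && B x) := ⟨⟨x, by simp [h1, h2]⟩, ⟨w, by simp [h7]⟩⟩
  have p2 : Prp (fun x => A x && !B x) := ⟨⟨y, by simp [h3, h4]⟩, ⟨w, by simp [h7]⟩⟩
  have p3 : Prp (fun x => !A x && B x) := ⟨⟨z, by simp [h5, h6]⟩, ⟨w, by simp [h8]⟩⟩
  have p4 : Prp (fun x => !A x && !B x) := ⟨⟨w, by simp [h7, h8]⟩, ⟨x, by simp [h1]⟩⟩
  have e4 : capC V (fun x => A x || B x) = capC V (fun x => !A x && !B x) := by
    rw [← capC_compl V (fun x => A x || B x)]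
    apply capC_congr
    intro x
    cases A x <;> cases B x <;> rfl
  have l1 := E.low p1
  have l2 := E.low p2
  have l3 := E.low p3
  have l4 := E.low p4
  have s1 := capC_submod V A B
  have s2 := capC_submod' V A B
  rw [hA.2, hB.2] at s1 s2
  rw [e4] at s1
  omega

theorem f1 {n : ℕ} {V : CC} (E : Eq3 n V) {A B : Ct} (hA : NC n V A) (hB : NC n V B)
    (hX : Crossg A B) :
    NC n V (fun x => A x && B x) ∧ NC n V (fun x => A x && !B x) ∧
    NC n V (fun x => !A x && B x) ∧ NC n V (fun x => !A x && !B x) ∧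
    NC n V (fun x => A x || B x) := by
  obtain ⟨c1, c2, c3, c4⟩ := EvF1_caps E hA hB hX
  obtain ⟨⟨x, h1, h2⟩, ⟨y, h3, h4⟩, ⟨z, h5, h6⟩, ⟨w, h7, h8⟩⟩ := hX
  have p4 : NC n V (fun x => !A x && !B x) := ⟨⟨⟨w, by simp [h7, h8]⟩, ⟨x, by simp [h1]⟩⟩, c4⟩
  refine ⟨⟨⟨⟨x, by simp [h1, h2]⟩, ⟨w, by simp [h7]⟩⟩, c1⟩,
    ⟨⟨⟨y, by simp [h3, h4]⟩, ⟨w, by simp [h7]⟩⟩, c2⟩,
    ⟨⟨⟨z, by simp [h5, h6]⟩, ⟨w, by simp [h8]⟩⟩, c3⟩, p4, ?_⟩
  apply NC_congr (NC_compl p4)
  intro x
  cases A x <;> cases B x <;> rfl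

theorem f1e {n : ℕ} {V : CC} (E : Eq3 n V) {A B : Ct} (hA : NC n V A) (hB : NC n V B)
    (hX : Crossg A B) :
    edgS V (fun x => A x && B x) (fun x => !A x && !B x) = 0 ∧
    edgS V (fun x => A x && !B x) (fun x => !A x && B x) = 0 ∧
    2 * edgS V (fun x => A x && B x) (fun x => A x && !B x) = n ∧
    2 * edgS V (fun x => A x && B x) (fun x => !A x && B x) = n ∧
    2 * edgS V (fun x => A x && !B x) (fun x => !A x && !B x) = n ∧
    2 * edgS V (fun x => !A x && B x) (fun x => !A x && !B x) = n := by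
  obtain ⟨c1, c2, c3, c4⟩ := EvF1_caps E hA hB hX
  have cA := hA.2
  have cB := hB.2
  have cA' := capC_compl V A
  have cB' := capC_compl V B
  have u12 := capC_union V (fun x => A x && B x) (fun x => A x && !B x)
    (by intro x; cases A x <;> cases B x <;> decide)
  have u13 := capC_union V (fun x => A x && B x) (fun x => !A x && B x)
    (by intro x; cases A x <;> cases B x <;> decide)
  have u24 := capC_union V (fun x => A x && !B x) (fun x => !A x && !B x)
    (by intro x; cases A x <;> cases B x <;> decide)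
  have u34 := capC_union V (fun x => !A x && B x) (fun x => !A x && !B x)
    (by intro x; cases A x <;> cases B x <;> decide)
  have e12 : (fun x => (A x && B x) || (A x && !B x)) = A := by
    funext x; cases A x <;> cases B x <;> rfl
  have e13 : (fun x => (A x && B x) || (!A x && B x)) = B := by
    funext x; cases A x <;> cases B x <;> rfl
  have e24 : (fun x => (A x && !B x) || (!A x && !B x)) = fun x => !B x := by
    funext x; cases A x <;> cases B x <;> rfl
  have e34 : (fun x => (!A x && B x) || (!A x && !B x)) = fun x => !A x := by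
    funext x; cases A x <;> cases B x <;> rfl
  beta_reduce at u12 u13 u24 u34
  rw [e12] at u12
  rw [e13] at u13
  rw [e24] at u24
  rw [e34] at u34
  -- capacity of the first corner
  have k1 := capC_edgS V (fun x => A x && B x)
  rw [edgS_split V A (by intro x; cases A x <;> cases B x <;> decide)] at k1
  have k1a : edgS V (fun x => A x && B x) (fun x => !(A x && B x) && A x) =
      edgS V (fun x => A x && B x) (fun x => A x && !B x) := by
    apply edgS_congr V (fun _ => rfl)
    intro x; cases A x <;> cases B x <;> rfl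
  have k1b : edgS V (fun x => A x && B x) (fun x => !(A x && B x) && !A x) =
      edgS V (fun x => A x && B x) (fun x => !A x && B x) +
      edgS V (fun x => A x && B x) (fun x => !A x && !B x) := by
    rw [edgS_split V B (by intro x; cases A x <;> cases B x <;> decide)]
    congr 1
    · apply edgS_congr V (fun _ => rfl)
      intro x; cases A x <;> cases B x <;> rfl
    · apply edgS_congr V (fun _ => rfl)
      intro x; cases A x <;> cases B x <;> rfl
  rw [k1a, k1b] at k1
  -- capacity of the second corner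
  have k2 := capC_edgS V (fun x => A x && !B x)
  rw [edgS_split V A (by intro x; cases A x <;> cases B x <;> decide)] at k2
  have k2a : edgS V (fun x => A x && !B x) (fun x => !(A x && !B x) && A x) =
      edgS V (fun x => A x && B x) (fun x => A x && !B x) := by
    rw [edgS_comm]
    apply edgS_congr V _ (fun _ => rfl)
    intro x; cases A x <;> cases B x <;> rfl
  have k2b : edgS V (fun x => A x && !B x) (fun x => !(A x && !B x) && !A x) =
      edgS V (fun x => A x && !B x) (fun x => !A x && B x) +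
      edgS V (fun x => A x && !B x) (fun x => !A x && !B x) := by
    rw [edgS_split V B (by intro x; cases A x <;> cases B x <;> decide)]
    congr 1
    · apply edgS_congr V (fun _ => rfl)
      intro x; cases A x <;> cases B x <;> rfl
    · apply edgS_congr V (fun _ => rfl)
      intro x; cases A x <;> cases B x <;> rfl
  rw [k2a, k2b] at k2
  omega

end Pool.Agent.Sims
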