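import Pool.Agent.Sims.EvNB
import Pool.Agent.Sims.EvAlg

/-!
# Module `EvIs` : `Crs n V z` under a move separating `z`, `z⁻¹`

* `crs_sep`: `z⁻¹ ∈ B`, `z ∉ B`, `B` nontrivial.  `V' = act (wh y B) V`.  `B` is also a level `z⁻¹`-cut at `V` (all counts are `n`), nontrivial; by `nb` (and `crs_bar`) `stc B z⁻¹` is visibly
  crossed at `V₂ = act (wh (bar z) B) V`.  `wh_swap'` (`a = y`, `b = z⁻¹`): `V₂ = σ V''` with `V'' = act (wh (bar z) (stc B y)) V'`, `σ = Rel_swapPerm y (bar z)`: `y ↦ z⁻¹ ↦ y⁻¹`.  `stc B y` is a level `z⁻¹`-cut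
  at `V'` (`z⁻¹ ∈ stc B y`, `z ∉ stc B y`; its capacity at `V'` is `n` by `Lv_inv`).  `VX_SPerm` (with `σ⁻¹`, `act_SPerm_inv`) gives `VX n V'' (fun x => stc B (bar z) (σ.letter x))`, and this cut is
  pointwise `stc (stc B y) (bar z)`: both are `(B ∖ {y, z⁻¹}) ∪ {y⁻¹, z}` (check the letters `y, y⁻¹, z, z⁻¹` with `Rel_swapPerm_a`, `Rel_swapPerm_b`, `SPerm.letter_bar`, the others with `Rel_swapPerm_ne`).
  So `Crs n V' (bar z)`, and `crs_bar`.
Difficulty 2.
-/

namespace Pool.Agent.Sims

theorem crs_sep {n : ℕ} {V : CC} (E : Eq3 n V) {y z : Fin 3 × Bool} {B : Ct} (hB : Lv V y B)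
    (hyz : y.1 ≠ z.1) (hn : Ntr B) (hz : B z = false) (hz' : B (bar z) = true)
    (h : Crs n V z) : Crs n (act (wh y B) V) z := by
  have hbb : ∀ x : Fin 3 × Bool, bar (bar x) = x := fun x => by simp [bar]
  have hzy : z.1 ≠ y.1 := fun e => hyz e.symm
  have hab : y.1 ≠ (bar z).1 := by simpa [bar] using hyz
  have hBz : Lv V (bar z) B := by
    refine ⟨hz', by rw [hbb]; exact hz, ?_⟩
    rw [hB.2.2, E.c, E.c]
  have X := nb E (crs_bar h) hBz hn
  have hsw := wh_swap' y (bar z) hab B hB.1 hB.2.1 hz' (by rw [hbb]; exact hz) V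
  rw [hsw] at X
  have X1 := VX_SPerm X (Rel_swapPerm y (bar z)).inv
  rw [act_SPerm_inv] at X1
  have hii : ∀ x, (Rel_swapPerm y (bar z)).inv.inv.letter x = (Rel_swapPerm y (bar z)).letter x := by
    intro x
    conv_lhs => rw [← SPerm.inv_letter (Rel_swapPerm y (bar z)) x]
    rw [SPerm.inv_letter]
  have E' := E.lv hB
  have hne1 : ∀ u v : Fin 3 × Bool, u.1 ≠ v.1 → u ≠ v := fun u v h e => h (by rw [e])
  have n1 : bar z ≠ y := hne1 _ _ (by simpa [bar] using hzy)
  have n2 : z ≠ bar y := hne1 _ _ (by simpa [bar] using hzy)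
  have n3 : z ≠ y := hne1 _ _ hzy
  have n4 : bar z ≠ bar y := hne1 _ _ (by simpa [bar] using hzy)
  have hL := (Lv_inv hB).1
  have key : Crs n (act (wh y B) V) (bar z) := by
    refine ⟨stc B y, ⟨?_, ?_, ?_⟩, ?_⟩
    · simp [stc, hz', n1]
    · rw [hbb]; simp [stc, hz, n2]
    · have h1 := hL.2.2
      rw [E'.c] at h1
      rw [E'.c]
      exact h1
    · refine (VX_congr ?_).1 X1
      intro x
      show stc B (bar z) ((Rel_swapPerm y (bar z)).inv.inv.letter x) = stc (stc B y) (bar z) x
      rw [hii]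
      have sa := Rel_swapPerm_a y (bar z)
      have sb := Rel_swapPerm_b y (bar z) hab
      by_cases hx1 : x = y
      · subst hx1
        rw [sa]
        simp [stc, hbb, (bar_ne z), (bar_ne x).symm, n3.symm]
      by_cases hx2 : x = bar y
      · subst hx2
        rw [SPerm.letter_bar, sa, hbb]
        simp [stc, hbb, n4.symm]
      by_cases hx3 : x = bar z
      · subst hx3
        rw [sb]
        simp [stc, hbb, hB.2.1, bar_ne z, n2.symm]
      by_cases hx4 : x = z
      · have e1 : (Rel_swapPerm y (bar z)).letter x = y := by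
          have e2 := SPerm.letter_bar (Rel_swapPerm y (bar z)) (bar z)
          rw [hbb, sb, hbb] at e2
          rw [hx4]; exact e2
        rw [e1, hx4]
        simp [stc, hbb, hB.1, n1.symm]
      · have e1 : x.1 ≠ y.1 := by
          intro e
          rcases x with ⟨i, s⟩
          rcases y with ⟨j, t⟩
          simp only at e
          subst e
          cases s <;> cases t <;> simp [bar] at hx1 hx2
        have e2 : x.1 ≠ (bar z).1 := by
          intro e
          rcases x with ⟨i, s⟩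
          rcases z with ⟨j, t⟩
          simp only [bar] at e
          subst e
          cases s <;> cases t <;> simp [bar] at hx3 hx4
        rw [Rel_swapPerm_ne y (bar z) x e1 e2]
        simp [stc, hbb, hx1, hx2, hx3, hx4]
  have := crs_bar key
  rwa [hbb] at this

end Pool.Agent.Sims
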