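import Pool.Agent.Sims.EvF1

/-!
# Module `EvLS` : nontrivial level `z`-cuts

A member of `LS V z` is `{z} ∪ X`, `X` a nonempty proper subset of the four letters `U` different from `z^{±1}`; it has capacity `n` (`Lv_NC`).
* `ls_mem`: unfolding.
* `ls_inter`, `ls_union`: two members of `LS V z` : intersection and union are level `z`-cuts (if they are comparable trivially, otherwise they cross: `z` in both, `z⁻¹` outside; `f1`).
* `ls_cross0`: incomparable members cross with `z ∈ A ∧ B`, `z⁻¹ ∈ ¬A ∧ ¬B`; `f1e` and `edgS_mono`.
* `ls_chain3`: a chain of subsets `X` of a four-element set, nonempty and proper: at most one of each of the sizes `1, 2, 3`, so at most `3` members (the size is injective on a chain).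
Difficulty 2.
-/

namespace Pool.Agent.Sims

theorem ls_mem {V : CC} {z : Fin 3 × Bool} {A : Ct} : A ∈ LS V z ↔ Lv V z A ∧ Ntr A := by
  simp only [LS, Finset.mem_filter, Finset.mem_univ, true_and]

theorem EvLS_cmp {V : CC} {z : Fin 3 × Bool} {A B : Ct} (hA : Lv V z A) (hB : Lv V z B) :
    (∀ x, A x = true → B x = true) ∨ (∀ x, B x = true → A x = true) ∨ Crossg A B := by
  by_cases h1 : ∃ x, A x = true ∧ B x = false
  · by_cases h2 : ∃ x, A x = false ∧ B x = true
    · exact Or.inr (Or.inr ⟨⟨z, hA.1, hB.1⟩, h1, h2, ⟨bar z, hA.2.1, hB.2.1⟩⟩)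
    · refine Or.inr (Or.inl fun x hx => ?_)
      by_contra hc
      exact h2 ⟨x, by simpa using hc, hx⟩
  · refine Or.inl fun x hx => ?_
    by_contra hc
    exact h1 ⟨x, hx, by simpa using hc⟩

theorem ls_inter {n : ℕ} {V : CC} (E : Eq3 n V) {z : Fin 3 × Bool} {A B : Ct} (hA : Lv V z A)
    (hB : Lv V z B) : Lv V z (fun x => A x && B x) := by
  rcases EvLS_cmp hA hB with h | h | h
  · have e : (fun x => A x && B x) = A := by
      funext x
      have := h x
      cases hx : A x <;> simp_all
    rw [e]
    exact hA
  · have e : (fun x => A x && B x) = B := by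
      funext x
      have := h x
      cases hx : B x <;> simp_all
    rw [e]
    exact hB
  · have h1 := (f1 E ((Lv_NC E).1 hA).2.2 ((Lv_NC E).1 hB).2.2 h).1
    refine (Lv_NC E).2 ⟨?_, ?_, h1⟩
    · simp [hA.1, hB.1]
    · simp [hA.2.1, hB.2.1]

theorem ls_union {n : ℕ} {V : CC} (E : Eq3 n V) {z : Fin 3 × Bool} {A B : Ct} (hA : Lv V z A)
    (hB : Lv V z B) : Lv V z (fun x => A x || B x) := by
  rcases EvLS_cmp hA hB with h | h | h
  · have e : (fun x => A x || B x) = B := by
      funext x
      have := h x
      cases hx : A x <;> simp_all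
    rw [e]
    exact hB
  · have e : (fun x => A x || B x) = A := by
      funext x
      have := h x
      cases hx : B x <;> simp_all
    rw [e]
    exact hA
  · have h1 := (f1 E ((Lv_NC E).1 hA).2.2 ((Lv_NC E).1 hB).2.2 h).2.2.2.2
    refine (Lv_NC E).2 ⟨?_, ?_, h1⟩
    · simp [hA.1, hB.1]
    · simp [hA.2.1, hB.2.1]

theorem ls_cross0 {n : ℕ} {V : CC} (E : Eq3 n V) {z : Fin 3 × Bool} {A B : Ct} (hA : Lv V z A)
    (hB : Lv V z B) (h1 : ∃ x, A x = true ∧ B x = false) (h2 : ∃ x, A x = false ∧ B x = true) :
    edgS V (sgl z) (sgl (bar z)) = 0 := by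
  have hX : Crossg A B := ⟨⟨z, hA.1, hB.1⟩, h1, h2, ⟨bar z, hA.2.1, hB.2.1⟩⟩
  have h3 := (f1e E ((Lv_NC E).1 hA).2.2 ((Lv_NC E).1 hB).2.2 hX).1
  have h4 := edgS_mono V (A := sgl z) (A' := fun x => A x && B x) (B := sgl (bar z))
    (B' := fun x => !A x && !B x)
    (fun x hx => by
      have : x = z := of_decide_eq_true hx
      subst this
      simp [hA.1, hB.1])
    (fun x hx => by
      have : x = bar z := of_decide_eq_true hx
      subst this
      simp [hA.2.1, hB.2.1])
  omega

theorem ls_chain3 {V : CC} {z : Fin 3 × Bool}
    (h : ∀ A ∈ LS V z, ∀ B ∈ LS V z, (∀ x, A x = true → B x = true) ∨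
      (∀ x, B x = true → A x = true)) : (LS V z).card ≤ 3 := by
  have hc : (LS V z).card ≤ (Finset.Icc 2 4).card := by
    refine Finset.card_le_card_of_injOn
      (fun A => (Finset.univ.filter (fun x => A x = true)).card) ?_ ?_
    · intro A hA
      have hN : Ntr A := (ls_mem.1 hA).2
      obtain ⟨⟨x, y, hxy, hx, hy⟩, u, v, huv, hu, hv⟩ := hN
      have h1 : 2 ≤ (Finset.univ.filter (fun x => A x = true)).card := by
        have : ({x, y} : Finset (Fin 3 × Bool)) ⊆ Finset.univ.filter (fun x => A x = true) := by
          intro t ht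
          simp only [Finset.mem_insert, Finset.mem_singleton] at ht
          rcases ht with rfl | rfl <;> simp [hx, hy]
        have h2 := Finset.card_le_card this
        rwa [Finset.card_pair hxy] at h2
      have h2 : 2 ≤ (Finset.univ.filter (fun x => ¬ A x = true)).card := by
        have : ({u, v} : Finset (Fin 3 × Bool)) ⊆ Finset.univ.filter (fun x => ¬ A x = true) := by
          intro t ht
          simp only [Finset.mem_insert, Finset.mem_singleton] at ht
          rcases ht with rfl | rfl <;> simp [hu, hv]
        have h2 := Finset.card_le_card this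
        rwa [Finset.card_pair huv] at h2
      have h3 := Finset.card_filter_add_card_filter_not (s := (Finset.univ : Finset (Fin 3 × Bool)))
        (fun x => A x = true)
      have h4 : (Finset.univ : Finset (Fin 3 × Bool)).card = 6 := by decide
      simp only [Finset.coe_Icc, Set.mem_Icc]
      omega
    · intro A hA B hB hAB
      have hAB' : (Finset.univ.filter (fun x => A x = true)).card =
        (Finset.univ.filter (fun x => B x = true)).card := hAB
      have key : ∀ A B : Ct, (∀ x, A x = true → B x = true) →
          (Finset.univ.filter (fun x => A x = true)).card =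
          (Finset.univ.filter (fun x => B x = true)).card → A = B := by
        intro A B hs hc
        have h1 : Finset.univ.filter (fun x => A x = true) =
            Finset.univ.filter (fun x => B x = true) := by
          apply Finset.eq_of_subset_of_card_le
          · intro x hx
            simp only [Finset.mem_filter, Finset.mem_univ, true_and] at hx ⊢
            exact hs x hx
          · exact hc.ge
        funext x
        have h2 : (x ∈ Finset.univ.filter (fun x => A x = true)) ↔
            (x ∈ Finset.univ.filter (fun x => B x = true)) := by rw [h1]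
        simp only [Finset.mem_filter, Finset.mem_univ, true_and] at h2
        exact Bool.eq_iff_iff.2 h2
      rcases h A hA B hB with h1 | h1
      · exact key A B h1 hAB'
      · exact (key B A h1 hAB'.symm).symm
  simpa using hc

end Pool.Agent.Sims
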