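import Pool.Agent.Sims.EvLS7

/-!
# Module `EvLS6` : six nontrivial level `z`-cuts: the graph is a 6-cycle

Notation: a member of `LS V z` is `{z} ∪ X`, `X` a nonempty proper subset of the four letters `U` different from `z^{±1}`.
Facts from `EvLS7`: `ls_three` (no three pairwise disjoint `X`'s), the dual statement for the complements (multiplier `z⁻¹`: `Lv_compl`), and in the notation of its header: `s₁ ≤ 2`, `s₃ ≤ 2`, (a), (b).
  (c) `ls_six`: let there be at least `6` members.  Then `s₂ ≥ 2`.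
  Case `s₂ = 3`: by (a) two of them are disjoint: `X = {x, x'}`, `Y = {y, y'}` (complementary), and the third one is `{x, y}` after renaming.  By `ls_inter`, `ls_union` `{x}, {y}, {x,x',y}, {x,y,y'}` belong
  to `LS` as well.  Edges (write `p–q` for `2 edgS {p} {q} = n`): `{z,x}` and `{z,y}`: `z–x`, `z–y` (so all the other edges at `z` are `0`).  Dual (complements `{y', z⁻¹}`, `{x', z⁻¹}`): `z⁻¹–y'`, `z⁻¹–x'`.
  `{z} ∪ X` and `{z,x,y}` cross with corners `{z,x}`, `{x'}`, `{y}`, `{z⁻¹,y'}`: `2 edgS {z,x} {x'} = n`, so `x–x'` (as `z x'` has no edge).  Symmetrically `y–y'`.  So `z x x' z⁻¹ y' y` is a 6-cycle: `Full`.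
  Case `s₂ = 2`: `s₁ = s₃ = 2`: `{a}, {b}` and `{a, b}` (union).  The other 2-set is not disjoint from `{a, b}` (three disjoint sets), so it is `{a, p}` after renaming, and `q` is the fourth letter.
  `z–a`, `z–b`.  `{z,a,b}` and `{z,a,p}` cross with corners `{z,a}`, `{b}`, `{p}`, `{z⁻¹,q}`: edges `{z,a}–p`, `{z,a}–b`, `p–{z⁻¹,q}`, `b–{z⁻¹,q}`, `edgS {b} {p} = 0`, `edgS {z,a} {z⁻¹,q} = 0`.
  Since the edges at `z` go to `a`, `b` only: `a–p`, `edgS {a} {b} = 0`.  `{a,b,p}` is a 3-set of `LS`: the other one `Z` meets it in a 2-set, `{a,b}` or `{a,p}` (`s₂ = 2`): `Z = {a,b,q}` or `{a,p,q}`.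
  If `Z = {a,b,q}`: dual singletons `p`, `q`: `z⁻¹–p`, `z⁻¹–q`; so `edgS {p} {q} = 0`, `edgS {b} {z⁻¹} = 0`, `b–q`, and `z a p z⁻¹ q b` is a 6-cycle.
  If `Z = {a,p,q}`: dual singletons `b`, `q`: `z⁻¹–b`, `z⁻¹–q`; so `edgS {p} {z⁻¹} = 0`, `p–q`, and `z a p q z⁻¹ b` is a 6-cycle.
  (For Lean it may be simpler to work with the Boolean vector of the 14 sets `X`, or with the edge numbers of the graph (`edgS` between letters) and linear arithmetic after choosing names of the letters.)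
Difficulty 4.
-/

namespace Pool.Agent.Sims

set_option linter.unusedSimpArgs false

/-- the number of edges between two letters -/
noncomputable abbrev EvLS6_w (V : CC) (x y : Fin 3 × Bool) : ℕ := edgS V (sgl x) (sgl y)

theorem EvLS6_comm (V : CC) (x y : Fin 3 × Bool) : EvLS6_w V x y = EvLS6_w V y x :=
  edgS_comm V _ _

/-- `{z, x, y}` has capacity `n` -/
def EvLS6_T (V : CC) (n : ℕ) (z x y : Fin 3 × Bool) : Prop :=
  EvLS6_w V z x + EvLS6_w V z y + EvLS6_w V x y = n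

noncomputable instance (V : CC) (n : ℕ) (z x y : Fin 3 × Bool) :
    Decidable (EvLS6_T V n z x y) := by
  unfold EvLS6_T; infer_instance

theorem EvLS6_Tc {V : CC} {n : ℕ} {z x y : Fin 3 × Bool} (h : EvLS6_T V n z x y) :
    EvLS6_T V n z y x := by
  unfold EvLS6_T at h ⊢
  have := EvLS6_comm V x y
  omega

theorem EvLS6_all {x0 x1 x2 x3 x4 x5 : Fin 3 × Bool} (h : [x0, x1, x2, x3, x4, x5].Nodup)
    (t : Fin 3 × Bool) : t = x0 ∨ t = x1 ∨ t = x2 ∨ t = x3 ∨ t = x4 ∨ t = x5 := by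
  have h1 : [x0, x1, x2, x3, x4, x5].toFinset = Finset.univ := by
    apply Finset.eq_univ_of_card
    rw [List.toFinset_card_of_nodup h]
    simp
  have h2 : t ∈ [x0, x1, x2, x3, x4, x5].toFinset := by rw [h1]; exact Finset.mem_univ t
  simpa using h2

theorem EvLS6_deg {n : ℕ} {V : CC} (E : Eq3 n V) {x0 x1 x2 x3 x4 x5 : Fin 3 × Bool}
    (h : [x0, x1, x2, x3, x4, x5].Nodup) :
    EvLS6_w V x0 x1 + EvLS6_w V x0 x2 + EvLS6_w V x0 x3 + EvLS6_w V x0 x4 + EvLS6_w V x0 x5 = n := by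
  have hall := EvLS6_all h
  simp only [List.nodup_cons, List.mem_cons, List.not_mem_nil, or_false, not_or, List.nodup_nil,
    not_false_eq_true, and_true] at h
  obtain ⟨⟨a1, a2, a3, a4, a5⟩, ⟨b2, b3, b4, b5⟩, ⟨c3, c4, c5⟩, ⟨d4, d5⟩, e5⟩ := h
  have h1 : capC V (sgl x0) = n := by rw [capC_sgl, E.c]
  rw [capC_edgS] at h1
  have h2 : edgS V (sgl x0) (fun x => !(sgl x0 x)) =
      edgS V (sgl x0) (fun x => sgl x1 x || (fun x => sgl x2 x || (fun x => sgl x3 x ||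
        (fun x => sgl x4 x || sgl x5 x) x) x) x) := by
    apply edgS_congr
    · intro x; rfl
    · intro x
      simp only [sgl]
      rcases hall x with rfl | rfl | rfl | rfl | rfl | rfl <;>
        simp [a1, a2, a3, a4, a5, Ne.symm a1, Ne.symm a2, Ne.symm a3, Ne.symm a4, Ne.symm a5]
  rw [h2, edgS_union, edgS_union, edgS_union, edgS_union] at h1
  · unfold EvLS6_w
    omega
  all_goals
    intro x hx
    simp only [sgl, decide_eq_true_eq] at hx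
    subst hx
    simp [sgl, a1, a2, a3, a4, a5, b2, b3, b4, b5, c3, c4, c5, d4, d5, e5]

theorem EvLS6_pair {n : ℕ} {V : CC} (E : Eq3 n V) {x y : Fin 3 × Bool} (h : x ≠ y) :
    capC V (pr x y) + 2 * EvLS6_w V x y = 2 * n := by
  rw [capC_pr V h, E.c, E.c]; ring

theorem EvLS6_pairb {n : ℕ} {V : CC} (E : Eq3 n V) {x y t : Fin 3 × Bool} (h : x ≠ y)
    (h1 : t ≠ x) (h2 : t ≠ y) : 2 * EvLS6_w V x y ≤ n := by
  have h3 := EvLS6_pair E h
  have h4 := E.low (A := pr x y) ⟨⟨x, by simp [pr]⟩, ⟨t, by simp [pr, h1, h2]⟩⟩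
  omega

theorem EvLS6_tcap {n : ℕ} {V : CC} (E : Eq3 n V) {x y t : Fin 3 × Bool} (h : x ≠ y)
    (h1 : x ≠ t) (h2 : y ≠ t) : capC V (fun s => pr x y s || sgl t s) +
      2 * (EvLS6_w V x y + EvLS6_w V x t + EvLS6_w V y t) = 3 * n := by
  have h3 := EvLS6_pair E h
  have h4 := capC_union V (pr x y) (sgl t) (by
    intro s hs
    simp only [pr, Bool.or_eq_true, decide_eq_true_eq] at hs
    rcases hs with rfl | rfl <;> simp [sgl, h1, h2])
  have h5 : capC V (sgl t) = n := by rw [capC_sgl, E.c]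
  have h6 : edgS V (pr x y) (sgl t) = EvLS6_w V x t + EvLS6_w V y t := by
    rw [edgS_comm]
    have h7 : edgS V (sgl t) (pr x y) = edgS V (sgl t) (fun s => sgl x s || sgl y s) :=
      edgS_congr V (fun _ => rfl) (fun _ => rfl)
    rw [h7, edgS_union V (sgl t) (sgl x) (sgl y)]
    · rw [EvLS6_comm V x t, EvLS6_comm V y t]
    · intro s hs; simp only [sgl, decide_eq_true_eq] at hs; subst hs; simp [sgl, Ne.symm h1]
    · intro s hs; simp only [sgl, decide_eq_true_eq] at hs; subst hs; simp [sgl, Ne.symm h2]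
    · intro s hs; simp only [sgl, decide_eq_true_eq] at hs; subst hs; simp [sgl, h]
  omega

/-- the linear system of the edge numbers -/
theorem EvLS6_sys {n : ℕ} {V : CC} (E : Eq3 n V) {z Z a b p q : Fin 3 × Bool}
    (h : [z, Z, a, b, p, q].Nodup) :
    (EvLS6_w V z Z + EvLS6_w V z a + EvLS6_w V z b + EvLS6_w V z p + EvLS6_w V z q = n ∧
     EvLS6_w V z Z + EvLS6_w V Z a + EvLS6_w V Z b + EvLS6_w V Z p + EvLS6_w V Z q = n ∧
     EvLS6_w V z a + EvLS6_w V Z a + EvLS6_w V a b + EvLS6_w V a p + EvLS6_w V a q = n ∧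
     EvLS6_w V z b + EvLS6_w V Z b + EvLS6_w V a b + EvLS6_w V b p + EvLS6_w V b q = n ∧
     EvLS6_w V z p + EvLS6_w V Z p + EvLS6_w V a p + EvLS6_w V b p + EvLS6_w V p q = n ∧
     EvLS6_w V z q + EvLS6_w V Z q + EvLS6_w V a q + EvLS6_w V b q + EvLS6_w V p q = n) ∧
    (2 * EvLS6_w V z a ≤ n ∧ 2 * EvLS6_w V z b ≤ n ∧ 2 * EvLS6_w V z p ≤ n ∧
      2 * EvLS6_w V z q ≤ n) ∧
    (2 * EvLS6_w V Z a ≤ n ∧ 2 * EvLS6_w V Z b ≤ n ∧ 2 * EvLS6_w V Z p ≤ n ∧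
      2 * EvLS6_w V Z q ≤ n) ∧
    (2 * EvLS6_w V a b ≤ n ∧ 2 * EvLS6_w V a p ≤ n ∧ 2 * EvLS6_w V a q ≤ n ∧
      2 * EvLS6_w V b p ≤ n ∧ 2 * EvLS6_w V b q ≤ n ∧ 2 * EvLS6_w V p q ≤ n) := by
  have d0 := EvLS6_deg E h
  have d1 := EvLS6_deg E (x0 := Z) (x1 := z) (x2 := a) (x3 := b) (x4 := p) (x5 := q)
    ((List.Perm.nodup_iff (.swap _ _ _)).1 h)
  have d2 := EvLS6_deg E (x0 := a) (x1 := z) (x2 := Z) (x3 := b) (x4 := p) (x5 := q)
    ((List.Perm.nodup_iff ((List.Perm.cons _ (.swap _ _ _)).trans (.swap _ _ _))).1 h)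
  have hb : [z, Z, b, a, p, q].Nodup :=
    (List.Perm.nodup_iff (List.Perm.cons _ (List.Perm.cons _ (.swap _ _ _)))).1 h
  have d3 := EvLS6_deg E (x0 := b) (x1 := z) (x2 := Z) (x3 := a) (x4 := p) (x5 := q)
    ((List.Perm.nodup_iff ((List.Perm.cons _ (.swap _ _ _)).trans (.swap _ _ _))).1 hb)
  have hp1 : [z, Z, a, p, b, q].Nodup :=
    (List.Perm.nodup_iff (List.Perm.cons _ (List.Perm.cons _ (.cons _ (.swap _ _ _))))).1 h
  have hp : [z, Z, p, a, b, q].Nodup :=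
    (List.Perm.nodup_iff (List.Perm.cons _ (List.Perm.cons _ (.swap _ _ _)))).1 hp1
  have d4 := EvLS6_deg E (x0 := p) (x1 := z) (x2 := Z) (x3 := a) (x4 := b) (x5 := q)
    ((List.Perm.nodup_iff ((List.Perm.cons _ (.swap _ _ _)).trans (.swap _ _ _))).1 hp)
  have hq1 : [z, Z, a, b, q, p].Nodup :=
    (List.Perm.nodup_iff (List.Perm.cons _ (List.Perm.cons _ (.cons _ (.cons _ (.swap _ _ _)))))).1 h
  have hq2 : [z, Z, a, q, b, p].Nodup :=
    (List.Perm.nodup_iff (List.Perm.cons _ (List.Perm.cons _ (.cons _ (.swap _ _ _))))).1 hq1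
  have hq : [z, Z, q, a, b, p].Nodup :=
    (List.Perm.nodup_iff (List.Perm.cons _ (List.Perm.cons _ (.swap _ _ _)))).1 hq2
  have d5 := EvLS6_deg E (x0 := q) (x1 := z) (x2 := Z) (x3 := a) (x4 := b) (x5 := p)
    ((List.Perm.nodup_iff ((List.Perm.cons _ (.swap _ _ _)).trans (.swap _ _ _))).1 hq)
  have c1 := EvLS6_comm V Z z
  have c2 := EvLS6_comm V a z
  have c3 := EvLS6_comm V a Z
  have c4 := EvLS6_comm V b z
  have c5 := EvLS6_comm V b Z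
  have c6 := EvLS6_comm V b a
  have c7 := EvLS6_comm V p z
  have c8 := EvLS6_comm V p Z
  have c9 := EvLS6_comm V p a
  have c10 := EvLS6_comm V p b
  have c11 := EvLS6_comm V q z
  have c12 := EvLS6_comm V q Z
  have c13 := EvLS6_comm V q a
  have c14 := EvLS6_comm V q b
  have c15 := EvLS6_comm V q p
  simp only [List.nodup_cons, List.mem_cons, List.not_mem_nil, or_false, not_or, List.nodup_nil,
    not_false_eq_true, and_true] at h
  obtain ⟨⟨a1, a2, a3, a4, a5⟩, ⟨b2, b3, b4, b5⟩, ⟨e3, e4, e5⟩, ⟨f4, f5⟩, g5⟩ := h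
  refine ⟨⟨by omega, by omega, by omega, by omega, by omega, by omega⟩,
    ⟨EvLS6_pairb E a2 (Ne.symm a1) b2, EvLS6_pairb E a3 (Ne.symm a1) b3,
      EvLS6_pairb E a4 (Ne.symm a1) b4, EvLS6_pairb E a5 (Ne.symm a1) b5⟩,
    ⟨EvLS6_pairb E b2 a1 a2, EvLS6_pairb E b3 a1 a3, EvLS6_pairb E b4 a1 a4,
      EvLS6_pairb E b5 a1 a5⟩,
    ⟨EvLS6_pairb E e3 a2 a3, EvLS6_pairb E e4 a2 a4, EvLS6_pairb E e5 a2 a5,
      EvLS6_pairb E f4 a3 a4, EvLS6_pairb E f5 a3 a5, EvLS6_pairb E g5 a4 a5⟩⟩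

theorem EvLS6_s1 {z Z a b p q : Fin 3 × Bool} (h : [z, Z, a, b, p, q].Nodup) :
    [z, Z, b, a, p, q].Nodup :=
  (List.Perm.nodup_iff (List.Perm.cons _ (List.Perm.cons _ (.swap _ _ _)))).1 h

theorem EvLS6_s2 {z Z a b p q : Fin 3 × Bool} (h : [z, Z, a, b, p, q].Nodup) :
    [z, Z, a, p, b, q].Nodup :=
  (List.Perm.nodup_iff (List.Perm.cons _ (List.Perm.cons _ (.cons _ (.swap _ _ _))))).1 h

theorem EvLS6_s3 {z Z a b p q : Fin 3 × Bool} (h : [z, Z, a, b, p, q].Nodup) :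
    [z, Z, a, b, q, p].Nodup :=
  (List.Perm.nodup_iff (List.Perm.cons _ (List.Perm.cons _ (.cons _ (.cons _ (.swap _ _ _)))))).1 h

theorem EvLS6_full {n : ℕ} {V : CC} {x0 x1 x2 x3 x4 x5 : Fin 3 × Bool}
    (h : [x0, x1, x2, x3, x4, x5].Nodup) (h0 : 2 * EvLS6_w V x0 x1 = n)
    (h1 : 2 * EvLS6_w V x1 x2 = n) (h2 : 2 * EvLS6_w V x2 x3 = n)
    (h3 : 2 * EvLS6_w V x3 x4 = n) (h4 : 2 * EvLS6_w V x4 x5 = n)
    (h5 : 2 * EvLS6_w V x5 x0 = n) : Full n V := by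
  refine ⟨fun i => [x0, x1, x2, x3, x4, x5].get i, List.nodup_iff_injective_get.1 h, ?_⟩
  intro i
  fin_cases i
  · exact h0
  · exact h1
  · exact h2
  · exact h3
  · exact h4
  · exact h5

theorem EvLS6_core1 {n : ℕ} {V : CC} (E : Eq3 n V) {z Z a b p q : Fin 3 × Bool}
    (h : [z, Z, a, b, p, q].Nodup) (u1 : 2 * EvLS6_w V z a = n) (u2 : 2 * EvLS6_w V z b = n)
    (v1 : 2 * EvLS6_w V Z p = n) (v2 : 2 * EvLS6_w V Z q = n) (t : EvLS6_T V n z a p) :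
    Full n V := by
  obtain ⟨⟨d0, d1, d2, d3, d4, d5⟩, -, -, -⟩ := EvLS6_sys E h
  unfold EvLS6_T at t
  have hn : [z, a, p, Z, q, b].Nodup := by
    refine (List.Perm.nodup_iff ?_).1 h
    refine List.Perm.cons _ ?_
    exact (List.Perm.swap a Z _).trans ((List.Perm.cons _ (List.Perm.cons _ (.swap _ _ _))).trans
      ((List.Perm.cons _ (.swap _ _ _)).trans
        (List.Perm.cons _ (List.Perm.cons _ (List.Perm.cons _ (.swap _ _ _))))))
  have c1 := EvLS6_comm V p Z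
  have c2 := EvLS6_comm V q b
  have c3 := EvLS6_comm V b z
  exact EvLS6_full hn (by omega) (by omega) (by omega) (by omega) (by omega) (by omega)

theorem EvLS6_core2 {n : ℕ} {V : CC} (E : Eq3 n V) {z Z a b p q : Fin 3 × Bool}
    (h : [z, Z, a, b, p, q].Nodup) (u1 : 2 * EvLS6_w V z a = n) (u2 : 2 * EvLS6_w V z b = n)
    (v1 : 2 * EvLS6_w V Z b = n) (v2 : 2 * EvLS6_w V Z q = n) : Full n V := by
  obtain ⟨⟨d0, d1, d2, d3, d4, d5⟩, -, -, -⟩ := EvLS6_sys E h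
  have hn : [z, a, p, q, Z, b].Nodup := by
    refine (List.Perm.nodup_iff ?_).1 h
    refine List.Perm.cons _ ?_
    exact (List.Perm.swap a Z _).trans ((List.Perm.cons _ (List.Perm.cons _ (.swap _ _ _))).trans
      ((List.Perm.cons _ (.swap _ _ _)).trans
        ((List.Perm.cons _ (List.Perm.cons _ (List.Perm.cons _ (.swap _ _ _)))).trans
          (List.Perm.cons _ (List.Perm.cons _ (.swap _ _ _))))))
  have c1 := EvLS6_comm V q Z
  have c3 := EvLS6_comm V b z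
  exact EvLS6_full hn (by omega) (by omega) (by omega) (by omega) (by omega) (by omega)

theorem EvLS6_core3 {n : ℕ} {V : CC} (E : Eq3 n V) {z Z a b p q : Fin 3 × Bool}
    (h : [z, Z, a, b, p, q].Nodup) (u1 : 2 * EvLS6_w V z a = n) (u2 : 2 * EvLS6_w V z b = n)
    (v1 : 2 * EvLS6_w V Z a = n) (v2 : 2 * EvLS6_w V Z b = n) : False := by
  obtain ⟨⟨d0, d1, d2, d3, d4, d5⟩, -, -, ⟨-, -, -, -, -, g⟩⟩ := EvLS6_sys E h
  have h4 := E.h4
  omega

theorem EvLS6_path {n : ℕ} {V : CC} (E : Eq3 n V) {z Z y w x v : Fin 3 × Bool}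
    (h : [z, Z, y, w, x, v].Nodup) (h1 : EvLS6_T V n z y x) (h2 : EvLS6_T V n z w v)
    (h3 : EvLS6_T V n z y w) : 2 * EvLS6_w V z y = n ∧ 2 * EvLS6_w V z w = n ∧
      2 * EvLS6_w V Z x = n ∧ 2 * EvLS6_w V Z v = n := by
  obtain ⟨⟨d0, d1, d2, d3, d4, d5⟩, ⟨e1, e2, e3, e4⟩, ⟨f1, f2, f3, f4⟩, -⟩ := EvLS6_sys E h
  unfold EvLS6_T at h1 h2 h3
  refine ⟨by omega, by omega, by omega, by omega⟩

theorem EvLS6_tri {n : ℕ} {V : CC} (E : Eq3 n V) {z Z a b p q : Fin 3 × Bool}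
    (h : [z, Z, a, b, p, q].Nodup) (h1 : EvLS6_T V n z a b) (h2 : EvLS6_T V n z a p)
    (h3 : EvLS6_T V n z b p) : False := by
  obtain ⟨⟨d0, d1, d2, d3, d4, d5⟩, ⟨e1, e2, e3, e4⟩, ⟨f1, f2, f3, f4⟩, -⟩ := EvLS6_sys E h
  unfold EvLS6_T at h1 h2 h3
  have h4 := E.h4
  omega

theorem EvLS6_star {n : ℕ} {V : CC} (E : Eq3 n V) {z Z a b p q : Fin 3 × Bool}
    (h : [z, Z, a, b, p, q].Nodup) (h1 : EvLS6_T V n z a b) (h2 : EvLS6_T V n z a p)
    (h3 : EvLS6_T V n z a q) : False := by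
  obtain ⟨⟨d0, d1, d2, d3, d4, d5⟩, ⟨e1, e2, e3, e4⟩, ⟨f1, f2, f3, f4⟩, -⟩ := EvLS6_sys E h
  unfold EvLS6_T at h1 h2 h3
  have h4 := E.h4
  omega

theorem EvLS6_ite (t : Prop) [Decidable t] : (if t then 1 else 0 : ℕ) ≤ 1 := by
  split_ifs <;> omega

theorem EvLS6_prop {t1 t2 t3 t4 t5 t6 : Prop} [Decidable t1] [Decidable t2] [Decidable t3]
    [Decidable t4] [Decidable t5] [Decidable t6]
    (h : 3 ≤ (if t1 then 1 else 0 : ℕ) + (if t2 then 1 else 0) + (if t3 then 1 else 0) +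
      (if t4 then 1 else 0) + (if t5 then 1 else 0) + (if t6 then 1 else 0)) :
    (t1 ∧ t2 ∧ t3) ∨
    (t1 ∧ t2 ∧ t4) ∨
    (t1 ∧ t2 ∧ t5) ∨
    (t1 ∧ t2 ∧ t6) ∨
    (t1 ∧ t3 ∧ t4) ∨
    (t1 ∧ t3 ∧ t5) ∨
    (t1 ∧ t3 ∧ t6) ∨
    (t1 ∧ t4 ∧ t5) ∨
    (t1 ∧ t4 ∧ t6) ∨
    (t1 ∧ t5 ∧ t6) ∨
    (t2 ∧ t3 ∧ t4) ∨
    (t2 ∧ t3 ∧ t5) ∨
    (t2 ∧ t3 ∧ t6) ∨
    (t2 ∧ t4 ∧ t5) ∨
    (t2 ∧ t4 ∧ t6) ∨
    (t2 ∧ t5 ∧ t6) ∨
    (t3 ∧ t4 ∧ t5) ∨
    (t3 ∧ t4 ∧ t6) ∨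
    (t3 ∧ t5 ∧ t6) ∨
    (t4 ∧ t5 ∧ t6) := by
  by_cases h1 : t1 <;> by_cases h2 : t2 <;> by_cases h3 : t3 <;> by_cases h4 : t4 <;>
    by_cases h5 : t5 <;> by_cases h6 : t6 <;> simp [h1, h2, h3, h4, h5, h6] at h ⊢

theorem EvLS6_two {t1 t2 t3 t4 : Prop} [Decidable t1] [Decidable t2] [Decidable t3]
    [Decidable t4]
    (h : 2 ≤ (if t1 then 1 else 0 : ℕ) + (if t2 then 1 else 0) + (if t3 then 1 else 0) +
      (if t4 then 1 else 0)) : (t1 ∧ t2) ∨ (t1 ∧ t3) ∨ (t1 ∧ t4) ∨ (t2 ∧ t3) ∨ (t2 ∧ t4) ∨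
      (t3 ∧ t4) := by
  by_cases h1 : t1 <;> by_cases h2 : t2 <;> by_cases h3 : t3 <;> by_cases h4 : t4 <;>
    simp [h1, h2, h3, h4] at h ⊢

/-- the weights of the masks -/
noncomputable def EvLS6_c (V : CC) (n : ℕ) (z Z a b p q : Fin 3 × Bool) :
    Bool × Bool × Bool × Bool → ℕ
  | (true, false, false, false) => if 2 * EvLS6_w V z a = n then 1 else 0
  | (false, true, false, false) => if 2 * EvLS6_w V z b = n then 1 else 0
  | (false, false, true, false) => if 2 * EvLS6_w V z p = n then 1 else 0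
  | (false, false, false, true) => if 2 * EvLS6_w V z q = n then 1 else 0
  | (true, true, false, false) => if EvLS6_T V n z a b then 1 else 0
  | (true, false, true, false) => if EvLS6_T V n z a p then 1 else 0
  | (true, false, false, true) => if EvLS6_T V n z a q then 1 else 0
  | (false, true, true, false) => if EvLS6_T V n z b p then 1 else 0
  | (false, true, false, true) => if EvLS6_T V n z b q then 1 else 0
  | (false, false, true, true) => if EvLS6_T V n z p q then 1 else 0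
  | (false, true, true, true) => if 2 * EvLS6_w V Z a = n then 1 else 0
  | (true, false, true, true) => if 2 * EvLS6_w V Z b = n then 1 else 0
  | (true, true, false, true) => if 2 * EvLS6_w V Z p = n then 1 else 0
  | (true, true, true, false) => if 2 * EvLS6_w V Z q = n then 1 else 0
  | (false, false, false, false) => 0
  | (true, true, true, true) => 0

theorem EvLS6_le {n : ℕ} {V : CC} (E : Eq3 n V) {z a b p q : Fin 3 × Bool}
    (hnd : [z, bar z, a, b, p, q].Nodup) {A : Ct} (hA : A ∈ LS V z) :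
    1 ≤ EvLS6_c V n z (bar z) a b p q (A a, A b, A p, A q) := by
  have hall := EvLS6_all hnd
  rw [ls_mem] at hA
  obtain ⟨hL, hN⟩ := hA
  obtain ⟨hz, hZ, -, hcap⟩ := (Lv_NC E).1 hL
  simp only [List.nodup_cons, List.mem_cons, List.not_mem_nil, or_false, not_or, List.nodup_nil,
    not_false_eq_true, and_true] at hnd
  obtain ⟨⟨a1, a2, a3, a4, a5⟩, ⟨b2, b3, b4, b5⟩, ⟨e3, e4, e5⟩, ⟨f4, f5⟩, g5⟩ := hnd
  have sing : ∀ x : Fin 3 × Bool, z ≠ x → (∀ y, A y = pr z x y) → 2 * EvLS6_w V z x = n := by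
    intro x hx hy
    have h1 := EvLS6_pair E hx
    rw [← capC_congr V hy, hcap] at h1
    omega
  have dbl : ∀ x y : Fin 3 × Bool, z ≠ x → z ≠ y → x ≠ y →
      (∀ t, A t = (pr z x t || sgl y t)) → EvLS6_T V n z x y := by
    intro x y hx hy hxy ht
    have h1 := EvLS6_tcap E hx hy hxy
    rw [← capC_congr V ht, hcap] at h1
    unfold EvLS6_T
    omega
  have trp : ∀ x : Fin 3 × Bool, bar z ≠ x → (∀ y, (!A y) = pr (bar z) x y) →
      2 * EvLS6_w V (bar z) x = n := by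
    intro x hx hy
    have h1 := EvLS6_pair E hx
    rw [← capC_congr V hy, capC_compl, hcap] at h1
    omega
  have hor : ∀ t : Fin 3 × Bool, ∀ r : Bool, (t = z → A z = r) → (t = bar z → A (bar z) = r) →
      (t = a → A a = r) → (t = b → A b = r) → (t = p → A p = r) → (t = q → A q = r) →
      A t = r := by
    intro t r r1 r2 r3 r4 r5 r6
    rcases hall t with h | h | h | h | h | h
    · rw [h]; exact r1 h
    · rw [h]; exact r2 h
    · rw [h]; exact r3 h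
    · rw [h]; exact r4 h
    · rw [h]; exact r5 h
    · rw [h]; exact r6 h
  rcases ha : A a <;> rcases hb : A b <;> rcases hp : A p <;> rcases hq : A q <;>
    simp only [EvLS6_c]
  · exfalso
    obtain ⟨⟨x, y, hxy, hx, hy⟩, -⟩ := hN
    have aux : ∀ t, A t = true → t = z := by
      intro t ht
      rcases hall t with h | h | h | h | h | h
      · exact h
      · rw [h, hZ] at ht; exact absurd ht (by decide)
      · rw [h, ha] at ht; exact absurd ht (by decide)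
      · rw [h, hb] at ht; exact absurd ht (by decide)
      · rw [h, hp] at ht; exact absurd ht (by decide)
      · rw [h, hq] at ht; exact absurd ht (by decide)
    exact hxy ((aux x hx).trans (aux y hy).symm)
  · rw [if_pos (sing q a5 (by
      intro t
      rcases hall t with h | h | h | h | h | h <;> rw [h] <;>
        simp [pr, hz, hZ, ha, hb, hp, hq, a1, a2, a3, a4, a5, b2, b3, b4, b5, e3, e4, e5, f4, f5, g5, Ne.symm a1, Ne.symm a2, Ne.symm a3, Ne.symm a4, Ne.symm a5, Ne.symm b2, Ne.symm b3, Ne.symm b4, Ne.symm b5, Ne.symm e3, Ne.symm e4, Ne.symm e5, Ne.symm f4, Ne.symm f5, Ne.symm g5]))]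
  · rw [if_pos (sing p a4 (by
      intro t
      rcases hall t with h | h | h | h | h | h <;> rw [h] <;>
        simp [pr, hz, hZ, ha, hb, hp, hq, a1, a2, a3, a4, a5, b2, b3, b4, b5, e3, e4, e5, f4, f5, g5, Ne.symm a1, Ne.symm a2, Ne.symm a3, Ne.symm a4, Ne.symm a5, Ne.symm b2, Ne.symm b3, Ne.symm b4, Ne.symm b5, Ne.symm e3, Ne.symm e4, Ne.symm e5, Ne.symm f4, Ne.symm f5, Ne.symm g5]))]
  · rw [if_pos (dbl p q a4 a5 g5 (by
      intro t
      rcases hall t with h | h | h | h | h | h <;> rw [h] <;>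
        simp [pr, sgl, hz, hZ, ha, hb, hp, hq, a1, a2, a3, a4, a5, b2, b3, b4, b5, e3, e4, e5, f4, f5, g5, Ne.symm a1, Ne.symm a2, Ne.symm a3, Ne.symm a4, Ne.symm a5, Ne.symm b2, Ne.symm b3, Ne.symm b4, Ne.symm b5, Ne.symm e3, Ne.symm e4, Ne.symm e5, Ne.symm f4, Ne.symm f5, Ne.symm g5]))]
  · rw [if_pos (sing b a3 (by
      intro t
      rcases hall t with h | h | h | h | h | h <;> rw [h] <;>
        simp [pr, hz, hZ, ha, hb, hp, hq, a1, a2, a3, a4, a5, b2, b3, b4, b5, e3, e4, e5, f4, f5, g5, Ne.symm a1, Ne.symm a2, Ne.symm a3, Ne.symm a4, Ne.symm a5, Ne.symm b2, Ne.symm b3, Ne.symm b4, Ne.symm b5, Ne.symm e3, Ne.symm e4, Ne.symm e5, Ne.symm f4, Ne.symm f5, Ne.symm g5]))]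
  · rw [if_pos (dbl b q a3 a5 f5 (by
      intro t
      rcases hall t with h | h | h | h | h | h <;> rw [h] <;>
        simp [pr, sgl, hz, hZ, ha, hb, hp, hq, a1, a2, a3, a4, a5, b2, b3, b4, b5, e3, e4, e5, f4, f5, g5, Ne.symm a1, Ne.symm a2, Ne.symm a3, Ne.symm a4, Ne.symm a5, Ne.symm b2, Ne.symm b3, Ne.symm b4, Ne.symm b5, Ne.symm e3, Ne.symm e4, Ne.symm e5, Ne.symm f4, Ne.symm f5, Ne.symm g5]))]
  · rw [if_pos (dbl b p a3 a4 f4 (by
      intro t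
      rcases hall t with h | h | h | h | h | h <;> rw [h] <;>
        simp [pr, sgl, hz, hZ, ha, hb, hp, hq, a1, a2, a3, a4, a5, b2, b3, b4, b5, e3, e4, e5, f4, f5, g5, Ne.symm a1, Ne.symm a2, Ne.symm a3, Ne.symm a4, Ne.symm a5, Ne.symm b2, Ne.symm b3, Ne.symm b4, Ne.symm b5, Ne.symm e3, Ne.symm e4, Ne.symm e5, Ne.symm f4, Ne.symm f5, Ne.symm g5]))]
  · rw [if_pos (trp a b2 (by
      intro t
      rcases hall t with h | h | h | h | h | h <;> rw [h] <;>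
        simp [pr, hz, hZ, ha, hb, hp, hq, a1, a2, a3, a4, a5, b2, b3, b4, b5, e3, e4, e5, f4, f5, g5, Ne.symm a1, Ne.symm a2, Ne.symm a3, Ne.symm a4, Ne.symm a5, Ne.symm b2, Ne.symm b3, Ne.symm b4, Ne.symm b5, Ne.symm e3, Ne.symm e4, Ne.symm e5, Ne.symm f4, Ne.symm f5, Ne.symm g5]))]
  · rw [if_pos (sing a a2 (by
      intro t
      rcases hall t with h | h | h | h | h | h <;> rw [h] <;>
        simp [pr, hz, hZ, ha, hb, hp, hq, a1, a2, a3, a4, a5, b2, b3, b4, b5, e3, e4, e5, f4, f5, g5, Ne.symm a1, Ne.symm a2, Ne.symm a3, Ne.symm a4, Ne.symm a5, Ne.symm b2, Ne.symm b3, Ne.symm b4, Ne.symm b5, Ne.symm e3, Ne.symm e4, Ne.symm e5, Ne.symm f4, Ne.symm f5, Ne.symm g5]))]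
  · rw [if_pos (dbl a q a2 a5 e5 (by
      intro t
      rcases hall t with h | h | h | h | h | h <;> rw [h] <;>
        simp [pr, sgl, hz, hZ, ha, hb, hp, hq, a1, a2, a3, a4, a5, b2, b3, b4, b5, e3, e4, e5, f4, f5, g5, Ne.symm a1, Ne.symm a2, Ne.symm a3, Ne.symm a4, Ne.symm a5, Ne.symm b2, Ne.symm b3, Ne.symm b4, Ne.symm b5, Ne.symm e3, Ne.symm e4, Ne.symm e5, Ne.symm f4, Ne.symm f5, Ne.symm g5]))]
  · rw [if_pos (dbl a p a2 a4 e4 (by
      intro t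
      rcases hall t with h | h | h | h | h | h <;> rw [h] <;>
        simp [pr, sgl, hz, hZ, ha, hb, hp, hq, a1, a2, a3, a4, a5, b2, b3, b4, b5, e3, e4, e5, f4, f5, g5, Ne.symm a1, Ne.symm a2, Ne.symm a3, Ne.symm a4, Ne.symm a5, Ne.symm b2, Ne.symm b3, Ne.symm b4, Ne.symm b5, Ne.symm e3, Ne.symm e4, Ne.symm e5, Ne.symm f4, Ne.symm f5, Ne.symm g5]))]
  · rw [if_pos (trp b b3 (by
      intro t
      rcases hall t with h | h | h | h | h | h <;> rw [h] <;>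
        simp [pr, hz, hZ, ha, hb, hp, hq, a1, a2, a3, a4, a5, b2, b3, b4, b5, e3, e4, e5, f4, f5, g5, Ne.symm a1, Ne.symm a2, Ne.symm a3, Ne.symm a4, Ne.symm a5, Ne.symm b2, Ne.symm b3, Ne.symm b4, Ne.symm b5, Ne.symm e3, Ne.symm e4, Ne.symm e5, Ne.symm f4, Ne.symm f5, Ne.symm g5]))]
  · rw [if_pos (dbl a b a2 a3 e3 (by
      intro t
      rcases hall t with h | h | h | h | h | h <;> rw [h] <;>
        simp [pr, sgl, hz, hZ, ha, hb, hp, hq, a1, a2, a3, a4, a5, b2, b3, b4, b5, e3, e4, e5, f4, f5, g5, Ne.symm a1, Ne.symm a2, Ne.symm a3, Ne.symm a4, Ne.symm a5, Ne.symm b2, Ne.symm b3, Ne.symm b4, Ne.symm b5, Ne.symm e3, Ne.symm e4, Ne.symm e5, Ne.symm f4, Ne.symm f5, Ne.symm g5]))]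
  · rw [if_pos (trp p b4 (by
      intro t
      rcases hall t with h | h | h | h | h | h <;> rw [h] <;>
        simp [pr, hz, hZ, ha, hb, hp, hq, a1, a2, a3, a4, a5, b2, b3, b4, b5, e3, e4, e5, f4, f5, g5, Ne.symm a1, Ne.symm a2, Ne.symm a3, Ne.symm a4, Ne.symm a5, Ne.symm b2, Ne.symm b3, Ne.symm b4, Ne.symm b5, Ne.symm e3, Ne.symm e4, Ne.symm e5, Ne.symm f4, Ne.symm f5, Ne.symm g5]))]
  · rw [if_pos (trp q b5 (by
      intro t
      rcases hall t with h | h | h | h | h | h <;> rw [h] <;>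
        simp [pr, hz, hZ, ha, hb, hp, hq, a1, a2, a3, a4, a5, b2, b3, b4, b5, e3, e4, e5, f4, f5, g5, Ne.symm a1, Ne.symm a2, Ne.symm a3, Ne.symm a4, Ne.symm a5, Ne.symm b2, Ne.symm b3, Ne.symm b4, Ne.symm b5, Ne.symm e3, Ne.symm e4, Ne.symm e5, Ne.symm f4, Ne.symm f5, Ne.symm g5]))]
  · exfalso
    obtain ⟨-, ⟨x, y, hxy, hx, hy⟩⟩ := hN
    have aux : ∀ t, A t = false → t = bar z := by
      intro t ht
      rcases hall t with h | h | h | h | h | h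
      · rw [h, hz] at ht; exact absurd ht (by decide)
      · exact h
      · rw [h, ha] at ht; exact absurd ht (by decide)
      · rw [h, hb] at ht; exact absurd ht (by decide)
      · rw [h, hp] at ht; exact absurd ht (by decide)
      · rw [h, hq] at ht; exact absurd ht (by decide)
    exact hxy ((aux x hx).trans (aux y hy).symm)

theorem EvLS6_card {n : ℕ} {V : CC} (E : Eq3 n V) {z a b p q : Fin 3 × Bool}
    (hnd : [z, bar z, a, b, p, q].Nodup) :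
    (LS V z).card ≤ ∑ m : Bool × Bool × Bool × Bool, EvLS6_c V n z (bar z) a b p q m := by
  classical
  have hall := EvLS6_all hnd
  have hinj : Set.InjOn (fun A : Ct => (A a, A b, A p, A q)) (LS V z : Set Ct) := by
    intro A hA B hB hAB
    rw [Finset.mem_coe, ls_mem] at hA hB
    obtain ⟨hz, hZ, -⟩ := (Lv_NC E).1 hA.1
    obtain ⟨hz', hZ', -⟩ := (Lv_NC E).1 hB.1
    simp only [Prod.mk.injEq] at hAB
    obtain ⟨h1, h2, h3, h4⟩ := hAB
    funext t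
    rcases hall t with h | h | h | h | h | h <;> rw [h]
    · rw [hz, hz']
    · rw [hZ, hZ']
    · exact h1
    · exact h2
    · exact h3
    · exact h4
  rw [← Finset.card_image_of_injOn hinj, Finset.card_eq_sum_ones]
  calc ∑ _m ∈ (LS V z).image (fun A : Ct => (A a, A b, A p, A q)), 1
      ≤ ∑ m ∈ (LS V z).image (fun A : Ct => (A a, A b, A p, A q)),
          EvLS6_c V n z (bar z) a b p q m := by
        apply Finset.sum_le_sum
        intro m hm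
        obtain ⟨A, hA, rfl⟩ := Finset.mem_image.1 hm
        exact EvLS6_le E hnd hA
    _ ≤ ∑ m, EvLS6_c V n z (bar z) a b p q m :=
        Finset.sum_le_sum_of_subset (Finset.subset_univ _)

theorem ls_six {n : ℕ} {V : CC} (E : Eq3 n V) (z : Fin 3 × Bool) (h : 6 ≤ (LS V z).card) :
    Full n V := by
  obtain ⟨a, b, p, q, hnd⟩ : ∃ a b p q : Fin 3 × Bool, [z, bar z, a, b, p, q].Nodup := by
    refine ⟨(z.1 + 1, true), (z.1 + 1, false), (z.1 + 2, true), (z.1 + 2, false), ?_⟩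
    revert z
    intro z _
    rcases z with ⟨i, c⟩
    fin_cases i <;> cases c <;> decide
  have h4 := E.h4
  have hc := h.trans (EvLS6_card E hnd)
  rw [Fintype.sum_prod_type] at hc
  simp only [Fintype.sum_prod_type, Fintype.sum_bool, EvLS6_c] at hc
  have nd_abpq := hnd
  have nd_abqp := (EvLS6_s3 hnd)
  have nd_apbq := (EvLS6_s2 hnd)
  have nd_apqb := (EvLS6_s3 (EvLS6_s2 hnd))
  have nd_aqbp := (EvLS6_s2 (EvLS6_s3 hnd))
  have nd_aqpb := (EvLS6_s2 (EvLS6_s3 (EvLS6_s2 hnd)))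
  have nd_bapq := (EvLS6_s1 hnd)
  have nd_baqp := (EvLS6_s3 (EvLS6_s1 hnd))
  have nd_bpaq := (EvLS6_s2 (EvLS6_s1 hnd))
  have nd_bpqa := (EvLS6_s3 (EvLS6_s2 (EvLS6_s1 hnd)))
  have nd_bqap := (EvLS6_s2 (EvLS6_s3 (EvLS6_s1 hnd)))
  have nd_bqpa := (EvLS6_s2 (EvLS6_s3 (EvLS6_s2 (EvLS6_s1 hnd))))
  have nd_pabq := (EvLS6_s1 (EvLS6_s2 hnd))
  have nd_paqb := (EvLS6_s3 (EvLS6_s1 (EvLS6_s2 hnd)))
  have nd_pbaq := (EvLS6_s1 (EvLS6_s2 (EvLS6_s1 hnd)))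
  have nd_pbqa := (EvLS6_s3 (EvLS6_s1 (EvLS6_s2 (EvLS6_s1 hnd))))
  have nd_pqab := (EvLS6_s2 (EvLS6_s3 (EvLS6_s1 (EvLS6_s2 hnd))))
  have nd_pqba := (EvLS6_s2 (EvLS6_s3 (EvLS6_s1 (EvLS6_s2 (EvLS6_s1 hnd)))))
  have nd_qabp := (EvLS6_s1 (EvLS6_s2 (EvLS6_s3 hnd)))
  have nd_qapb := (EvLS6_s1 (EvLS6_s2 (EvLS6_s3 (EvLS6_s2 hnd))))
  have nd_qbap := (EvLS6_s1 (EvLS6_s2 (EvLS6_s3 (EvLS6_s1 hnd))))
  have nd_qbpa := (EvLS6_s1 (EvLS6_s2 (EvLS6_s3 (EvLS6_s2 (EvLS6_s1 hnd)))))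
  have nd_qpab := (EvLS6_s1 (EvLS6_s2 (EvLS6_s3 (EvLS6_s1 (EvLS6_s2 hnd)))))
  have nd_qpba := (EvLS6_s1 (EvLS6_s2 (EvLS6_s3 (EvLS6_s1 (EvLS6_s2 (EvLS6_s1 hnd))))))
  obtain ⟨⟨d0, d1, d2, d3, d4, d5⟩, ⟨e1, e2, e3, e4⟩, ⟨f1, f2, f3, f4⟩,
    ⟨g1, g2, g3, g4, g5, g6⟩⟩ := EvLS6_sys E hnd
  -- singles
  obtain ⟨S1, hS1d⟩ : ∃ S1, S1 = (if 2 * EvLS6_w V z a = n then 1 else 0 : ℕ) +
      (if 2 * EvLS6_w V z b = n then 1 else 0) + (if 2 * EvLS6_w V z p = n then 1 else 0) +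
      (if 2 * EvLS6_w V z q = n then 1 else 0) := ⟨_, rfl⟩
  obtain ⟨S3, hS3d⟩ : ∃ S3, S3 = (if 2 * EvLS6_w V (bar z) a = n then 1 else 0 : ℕ) +
      (if 2 * EvLS6_w V (bar z) b = n then 1 else 0) +
      (if 2 * EvLS6_w V (bar z) p = n then 1 else 0) +
      (if 2 * EvLS6_w V (bar z) q = n then 1 else 0) := ⟨_, rfl⟩
  obtain ⟨S2, hS2d⟩ : ∃ S2, S2 = (if EvLS6_T V n z a b then 1 else 0 : ℕ) +
      (if EvLS6_T V n z a p then 1 else 0) + (if EvLS6_T V n z a q then 1 else 0) +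
      (if EvLS6_T V n z b p then 1 else 0) + (if EvLS6_T V n z b q then 1 else 0) +
      (if EvLS6_T V n z p q then 1 else 0) := ⟨_, rfl⟩
  have hsum : 6 ≤ S1 + S2 + S3 := by
    rw [hS1d, hS2d, hS3d]
    omega
  have hS1le : S1 ≤ 2 := by
    rw [hS1d]
    clear hS2d hS3d hc hsum hS1d
    split_ifs <;> omega
  have hS3le : S3 ≤ 2 := by
    rw [hS3d]
    clear hS2d hS3d hc hsum hS1d
    split_ifs <;> omega
  have hkey : 2 ≤ S1 ∧ 2 ≤ S3 := by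
    by_cases h3 : 3 ≤ S2
    swap
    · exact ⟨by omega, by omega⟩
    rw [hS2d] at h3
    rcases EvLS6_prop h3 with
      ⟨x1, x2, x3⟩ |
      ⟨x1, x2, x3⟩ |
      ⟨x1, x2, x3⟩ |
      ⟨x1, x2, x3⟩ |
      ⟨x1, x2, x3⟩ |
      ⟨x1, x2, x3⟩ |
      ⟨x1, x2, x3⟩ |
      ⟨x1, x2, x3⟩ |
      ⟨x1, x2, x3⟩ |
      ⟨x1, x2, x3⟩ |
      ⟨x1, x2, x3⟩ |
      ⟨x1, x2, x3⟩ |
      ⟨x1, x2, x3⟩ |
      ⟨x1, x2, x3⟩ |
      ⟨x1, x2, x3⟩ |
      ⟨x1, x2, x3⟩ |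
      ⟨x1, x2, x3⟩ |
      ⟨x1, x2, x3⟩ |
      ⟨x1, x2, x3⟩ |
      ⟨x1, x2, x3⟩
    · exact (EvLS6_star E nd_abpq x1 x2 x3).elim
    · exact (EvLS6_tri E nd_abpq x1 x2 x3).elim
    · have hp := EvLS6_path E nd_abpq x2 x3 x1
      obtain ⟨h5, h6, h7, h8⟩ := hp
      rw [if_pos h5, if_pos h6] at hS1d
      rw [if_pos h7, if_pos h8] at hS3d
      exact ⟨by omega, by omega⟩
    · have hp := EvLS6_path E nd_apbq x1 x3 x2
      obtain ⟨h5, h6, h7, h8⟩ := hp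
      rw [if_pos h5, if_pos h6] at hS1d
      rw [if_pos h7, if_pos h8] at hS3d
      exact ⟨by omega, by omega⟩
    · have hp := EvLS6_path E nd_abqp x2 x3 x1
      obtain ⟨h5, h6, h7, h8⟩ := hp
      rw [if_pos h5, if_pos h6] at hS1d
      rw [if_pos h7, if_pos h8] at hS3d
      exact ⟨by omega, by omega⟩
    · exact (EvLS6_tri E nd_abqp x1 x2 x3).elim
    · have hp := EvLS6_path E nd_aqbp x1 (EvLS6_Tc x3) x2
      obtain ⟨h5, h6, h7, h8⟩ := hp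
      rw [if_pos h5, if_pos h6] at hS1d
      rw [if_pos h7, if_pos h8] at hS3d
      exact ⟨by omega, by omega⟩
    · exact (EvLS6_star E nd_bapq (EvLS6_Tc x1) x2 x3).elim
    · have hp := EvLS6_path E nd_bpaq (EvLS6_Tc x1) x3 x2
      obtain ⟨h5, h6, h7, h8⟩ := hp
      rw [if_pos h5, if_pos h6] at hS1d
      rw [if_pos h7, if_pos h8] at hS3d
      exact ⟨by omega, by omega⟩
    · have hp := EvLS6_path E nd_bqap (EvLS6_Tc x1) (EvLS6_Tc x3) x2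
      obtain ⟨h5, h6, h7, h8⟩ := hp
      rw [if_pos h5, if_pos h6] at hS1d
      rw [if_pos h7, if_pos h8] at hS3d
      exact ⟨by omega, by omega⟩
    · have hp := EvLS6_path E nd_apqb x2 (EvLS6_Tc x3) x1
      obtain ⟨h5, h6, h7, h8⟩ := hp
      rw [if_pos h5, if_pos h6] at hS1d
      rw [if_pos h7, if_pos h8] at hS3d
      exact ⟨by omega, by omega⟩
    · have hp := EvLS6_path E nd_aqpb x1 (EvLS6_Tc x3) x2
      obtain ⟨h5, h6, h7, h8⟩ := hp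
      rw [if_pos h5, if_pos h6] at hS1d
      rw [if_pos h7, if_pos h8] at hS3d
      exact ⟨by omega, by omega⟩
    · exact (EvLS6_tri E nd_apqb x1 x2 x3).elim
    · have hp := EvLS6_path E nd_bpqa x3 (EvLS6_Tc x1) x2
      obtain ⟨h5, h6, h7, h8⟩ := hp
      rw [if_pos h5, if_pos h6] at hS1d
      rw [if_pos h7, if_pos h8] at hS3d
      exact ⟨by omega, by omega⟩
    · exact (EvLS6_star E nd_pabq (EvLS6_Tc x1) (EvLS6_Tc x2) x3).elim
    · have hp := EvLS6_path E nd_pqab (EvLS6_Tc x1) (EvLS6_Tc x2) x3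
      obtain ⟨h5, h6, h7, h8⟩ := hp
      rw [if_pos h5, if_pos h6] at hS1d
      rw [if_pos h7, if_pos h8] at hS3d
      exact ⟨by omega, by omega⟩
    · have hp := EvLS6_path E nd_bqpa x2 (EvLS6_Tc x1) x3
      obtain ⟨h5, h6, h7, h8⟩ := hp
      rw [if_pos h5, if_pos h6] at hS1d
      rw [if_pos h7, if_pos h8] at hS3d
      exact ⟨by omega, by omega⟩
    · have hp := EvLS6_path E nd_pqba (EvLS6_Tc x2) (EvLS6_Tc x1) x3
      obtain ⟨h5, h6, h7, h8⟩ := hp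
      rw [if_pos h5, if_pos h6] at hS1d
      rw [if_pos h7, if_pos h8] at hS3d
      exact ⟨by omega, by omega⟩
    · exact (EvLS6_star E nd_qabp (EvLS6_Tc x1) (EvLS6_Tc x2) (EvLS6_Tc x3)).elim
    · exact (EvLS6_tri E nd_bpqa x1 x2 x3).elim
  have hS2 : 2 ≤ S2 := by omega
  rw [hS2d] at hS2
  have hU := EvLS6_two (hS1d ▸ hkey.1)
  have hW := EvLS6_two (hS3d ▸ hkey.2)
  have hTab : 2 * EvLS6_w V z a = n → 2 * EvLS6_w V z b = n →
      2 * EvLS6_w V (bar z) p = n → 2 * EvLS6_w V (bar z) q = n →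
      EvLS6_T V n z a p ∨ EvLS6_T V n z a q ∨ EvLS6_T V n z b p ∨ EvLS6_T V n z b q := by
    intro h1 h2 h3 h4
    by_contra hc
    simp only [not_or] at hc
    obtain ⟨c1, c2, c3, c4⟩ := hc
    have c5 : ¬ EvLS6_T V n z p q := by
      intro c6
      unfold EvLS6_T at c6
      omega
    rw [if_neg c1, if_neg c2, if_neg c3, if_neg c4, if_neg c5] at hS2
    have := EvLS6_ite (EvLS6_T V n z a b)
    omega
  have hTap : 2 * EvLS6_w V z a = n → 2 * EvLS6_w V z p = n →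
      2 * EvLS6_w V (bar z) b = n → 2 * EvLS6_w V (bar z) q = n →
      EvLS6_T V n z a b ∨ EvLS6_T V n z a q ∨ EvLS6_T V n z b p ∨ EvLS6_T V n z p q := by
    intro h1 h2 h3 h4
    by_contra hc
    simp only [not_or] at hc
    obtain ⟨c1, c2, c3, c4⟩ := hc
    have c5 : ¬ EvLS6_T V n z b q := by
      intro c6
      unfold EvLS6_T at c6
      omega
    rw [if_neg c1, if_neg c2, if_neg c3, if_neg c4, if_neg c5] at hS2
    have := EvLS6_ite (EvLS6_T V n z a p)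
    omega
  have hTaq : 2 * EvLS6_w V z a = n → 2 * EvLS6_w V z q = n →
      2 * EvLS6_w V (bar z) b = n → 2 * EvLS6_w V (bar z) p = n →
      EvLS6_T V n z a b ∨ EvLS6_T V n z a p ∨ EvLS6_T V n z b q ∨ EvLS6_T V n z p q := by
    intro h1 h2 h3 h4
    by_contra hc
    simp only [not_or] at hc
    obtain ⟨c1, c2, c3, c4⟩ := hc
    have c5 : ¬ EvLS6_T V n z b p := by
      intro c6
      unfold EvLS6_T at c6
      omega
    rw [if_neg c1, if_neg c2, if_neg c3, if_neg c4, if_neg c5] at hS2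
    have := EvLS6_ite (EvLS6_T V n z a q)
    omega
  have hTbp : 2 * EvLS6_w V z b = n → 2 * EvLS6_w V z p = n →
      2 * EvLS6_w V (bar z) a = n → 2 * EvLS6_w V (bar z) q = n →
      EvLS6_T V n z a b ∨ EvLS6_T V n z b q ∨ EvLS6_T V n z a p ∨ EvLS6_T V n z p q := by
    intro h1 h2 h3 h4
    by_contra hc
    simp only [not_or] at hc
    obtain ⟨c1, c2, c3, c4⟩ := hc
    have c5 : ¬ EvLS6_T V n z a q := by
      intro c6
      unfold EvLS6_T at c6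
      omega
    rw [if_neg c1, if_neg c2, if_neg c3, if_neg c4, if_neg c5] at hS2
    have := EvLS6_ite (EvLS6_T V n z b p)
    omega
  have hTbq : 2 * EvLS6_w V z b = n → 2 * EvLS6_w V z q = n →
      2 * EvLS6_w V (bar z) a = n → 2 * EvLS6_w V (bar z) p = n →
      EvLS6_T V n z a b ∨ EvLS6_T V n z b p ∨ EvLS6_T V n z a q ∨ EvLS6_T V n z p q := by
    intro h1 h2 h3 h4
    by_contra hc
    simp only [not_or] at hc
    obtain ⟨c1, c2, c3, c4⟩ := hc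
    have c5 : ¬ EvLS6_T V n z a p := by
      intro c6
      unfold EvLS6_T at c6
      omega
    rw [if_neg c1, if_neg c2, if_neg c3, if_neg c4, if_neg c5] at hS2
    have := EvLS6_ite (EvLS6_T V n z b q)
    omega
  have hTpq : 2 * EvLS6_w V z p = n → 2 * EvLS6_w V z q = n →
      2 * EvLS6_w V (bar z) a = n → 2 * EvLS6_w V (bar z) b = n →
      EvLS6_T V n z a p ∨ EvLS6_T V n z b p ∨ EvLS6_T V n z a q ∨ EvLS6_T V n z b q := by
    intro h1 h2 h3 h4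
    by_contra hc
    simp only [not_or] at hc
    obtain ⟨c1, c2, c3, c4⟩ := hc
    have c5 : ¬ EvLS6_T V n z a b := by
      intro c6
      unfold EvLS6_T at c6
      omega
    rw [if_neg c1, if_neg c2, if_neg c3, if_neg c4, if_neg c5] at hS2
    have := EvLS6_ite (EvLS6_T V n z p q)
    omega
  rcases hU with ⟨u1, u2⟩ | ⟨u1, u2⟩ | ⟨u1, u2⟩ | ⟨u1, u2⟩ | ⟨u1, u2⟩ | ⟨u1, u2⟩
  · rcases hW with ⟨v1, v2⟩ | ⟨v1, v2⟩ | ⟨v1, v2⟩ | ⟨v1, v2⟩ | ⟨v1, v2⟩ | ⟨v1, v2⟩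
    · exact (EvLS6_core3 E nd_abpq u1 u2 v1 v2).elim
    · exact EvLS6_core2 E nd_baqp u2 u1 v1 v2
    · exact EvLS6_core2 E nd_bapq u2 u1 v1 v2
    · exact EvLS6_core2 E nd_abqp u1 u2 v1 v2
    · exact EvLS6_core2 E nd_abpq u1 u2 v1 v2
    · rcases hTab u1 u2 v1 v2 with t | t | t | t
      · exact EvLS6_core1 E nd_abpq u1 u2 v1 v2 t
      · exact EvLS6_core1 E nd_abqp u1 u2 v2 v1 t
      · exact EvLS6_core1 E nd_bapq u2 u1 v1 v2 t
      · exact EvLS6_core1 E nd_baqp u2 u1 v2 v1 t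
  · rcases hW with ⟨v1, v2⟩ | ⟨v1, v2⟩ | ⟨v1, v2⟩ | ⟨v1, v2⟩ | ⟨v1, v2⟩ | ⟨v1, v2⟩
    · exact EvLS6_core2 E nd_paqb u2 u1 v1 v2
    · exact (EvLS6_core3 E nd_apbq u1 u2 v1 v2).elim
    · exact EvLS6_core2 E nd_pabq u2 u1 v1 v2
    · exact EvLS6_core2 E nd_apqb u1 u2 v2 v1
    · rcases hTap u1 u2 v1 v2 with t | t | t | t
      · exact EvLS6_core1 E nd_apbq u1 u2 v1 v2 t
      · exact EvLS6_core1 E nd_apqb u1 u2 v2 v1 t
      · exact EvLS6_core1 E nd_pabq u2 u1 v1 v2 (EvLS6_Tc t)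
      · exact EvLS6_core1 E nd_paqb u2 u1 v2 v1 t
    · exact EvLS6_core2 E nd_apbq u1 u2 v1 v2
  · rcases hW with ⟨v1, v2⟩ | ⟨v1, v2⟩ | ⟨v1, v2⟩ | ⟨v1, v2⟩ | ⟨v1, v2⟩ | ⟨v1, v2⟩
    · exact EvLS6_core2 E nd_qapb u2 u1 v1 v2
    · exact EvLS6_core2 E nd_qabp u2 u1 v1 v2
    · exact (EvLS6_core3 E nd_aqbp u1 u2 v1 v2).elim
    · rcases hTaq u1 u2 v1 v2 with t | t | t | t
      · exact EvLS6_core1 E nd_aqbp u1 u2 v1 v2 t
      · exact EvLS6_core1 E nd_aqpb u1 u2 v2 v1 t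
      · exact EvLS6_core1 E nd_qabp u2 u1 v1 v2 (EvLS6_Tc t)
      · exact EvLS6_core1 E nd_qapb u2 u1 v2 v1 (EvLS6_Tc t)
    · exact EvLS6_core2 E nd_aqpb u1 u2 v2 v1
    · exact EvLS6_core2 E nd_aqbp u1 u2 v2 v1
  · rcases hW with ⟨v1, v2⟩ | ⟨v1, v2⟩ | ⟨v1, v2⟩ | ⟨v1, v2⟩ | ⟨v1, v2⟩ | ⟨v1, v2⟩
    · exact EvLS6_core2 E nd_pbqa u2 u1 v2 v1
    · exact EvLS6_core2 E nd_bpqa u1 u2 v2 v1
    · rcases hTbp u1 u2 v1 v2 with t | t | t | t
      · exact EvLS6_core1 E nd_bpaq u1 u2 v1 v2 (EvLS6_Tc t)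
      · exact EvLS6_core1 E nd_bpqa u1 u2 v2 v1 t
      · exact EvLS6_core1 E nd_pbaq u2 u1 v1 v2 (EvLS6_Tc t)
      · exact EvLS6_core1 E nd_pbqa u2 u1 v2 v1 t
    · exact (EvLS6_core3 E nd_bpaq u1 u2 v1 v2).elim
    · exact EvLS6_core2 E nd_pbaq u2 u1 v1 v2
    · exact EvLS6_core2 E nd_bpaq u1 u2 v1 v2
  · rcases hW with ⟨v1, v2⟩ | ⟨v1, v2⟩ | ⟨v1, v2⟩ | ⟨v1, v2⟩ | ⟨v1, v2⟩ | ⟨v1, v2⟩
    · exact EvLS6_core2 E nd_qbpa u2 u1 v2 v1
    · rcases hTbq u1 u2 v1 v2 with t | t | t | t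
      · exact EvLS6_core1 E nd_bqap u1 u2 v1 v2 (EvLS6_Tc t)
      · exact EvLS6_core1 E nd_bqpa u1 u2 v2 v1 t
      · exact EvLS6_core1 E nd_qbap u2 u1 v1 v2 (EvLS6_Tc t)
      · exact EvLS6_core1 E nd_qbpa u2 u1 v2 v1 (EvLS6_Tc t)
    · exact EvLS6_core2 E nd_bqpa u1 u2 v2 v1
    · exact EvLS6_core2 E nd_qbap u2 u1 v1 v2
    · exact (EvLS6_core3 E nd_bqap u1 u2 v1 v2).elim
    · exact EvLS6_core2 E nd_bqap u1 u2 v2 v1
  · rcases hW with ⟨v1, v2⟩ | ⟨v1, v2⟩ | ⟨v1, v2⟩ | ⟨v1, v2⟩ | ⟨v1, v2⟩ | ⟨v1, v2⟩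
    · rcases hTpq u1 u2 v1 v2 with t | t | t | t
      · exact EvLS6_core1 E nd_pqab u1 u2 v1 v2 (EvLS6_Tc t)
      · exact EvLS6_core1 E nd_pqba u1 u2 v2 v1 (EvLS6_Tc t)
      · exact EvLS6_core1 E nd_qpab u2 u1 v1 v2 (EvLS6_Tc t)
      · exact EvLS6_core1 E nd_qpba u2 u1 v2 v1 (EvLS6_Tc t)
    · exact EvLS6_core2 E nd_qpba u2 u1 v2 v1
    · exact EvLS6_core2 E nd_pqba u1 u2 v2 v1
    · exact EvLS6_core2 E nd_qpab u2 u1 v2 v1
    · exact EvLS6_core2 E nd_pqab u1 u2 v2 v1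
    · exact (EvLS6_core3 E nd_pqab u1 u2 v1 v2).elim

end Pool.Agent.Sims
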