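import Pool.Agent.Sims.EvCL
import Pool.Agent.Sims.EvF1

/-!
# Module `EvLem2` : two equal steps

`c = (j, true)`, `c⁻¹ = (j, false)`.  For a potential `p` with `cnt (act (pot j p) V) j = n` write `V_p = act (pot j p) V`; it satisfies `Eq3 n` (`pot_Sm`, `Eq3.orb'`).
For a set `X` of letters `≠ c^{±1}` write `c ∪ X`, `c⁻¹ ∪ X` for the cuts.  If `V_p` and `V_{p + 1_X}` both have count `n` then `c ∪ X` is a level `c`-cut at `V_p` and `c⁻¹ ∪ X` is a level `c⁻¹`-cut at
`V_{p+1_X}` (`pot_Lv`, `pot_add`; for the second one: `-1_X = 1_{Xᶜ} - 1`, `pot_const`, and `Lv_compl`); both have capacity `n`.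

* `lemS2` (two equal steps).  `q = 2·1_X` with `X` nonempty and `≠` all letters `≠ c^{±1}`.  By `pot_split` `V_{1_X}` has count `n`.  At `V' = V_{1_X}` the cuts `c ∪ X` and `c⁻¹ ∪ X` cross (corners `X`, `c`, `c⁻¹`, `Xᶜ`):
  `f1e`: `edgS V' {c} {c⁻¹} = 0`, `edgS V' X Xᶜ = 0` (`Xᶜ`: letters `≠ c^{±1}` outside of `X`).  Suppose `edgS V {c} {c⁻¹} = 0`.  Mixed syllables (ends in `X` and `Xᶜ`): normalize the exponent `k` of `V` by the
  direction from `X` to `Xᶜ`; it is `k + 1` at `V'`.  `k + 1 ≠ 0`, `|k + 1| ≤ 1`, `|k| ≤ 1`, so `k = 0`, and `cnt V' j = cnt V j + #(mixed)`, so there are no mixed syllables: `Clo j V X`.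
Difficulty 3.
-/

namespace Pool.Agent.Sims

set_option linter.unusedVariables false
set_option linter.unusedSimpArgs false

/-- pointwise congruence on the pairs where a cyclic sum vanishes -/
theorem EvLem2_lin {β : Type*} {G f h : β → β → ℕ} (S : β → Prop) (l : List β) :
    ∀ (x z : β), S x → S z → (∀ y ∈ l, S y) → lin G x l z = 0 →
      (∀ x y, S x → S y → G x y = 0 → f x y = h x y) → lin f x l z = lin h x l z := by
  induction l with
  | nil =>
    intro x z hx hz _ h0 hf
    exact hf x z hx hz h0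
  | cons a l ih =>
    intro x z hx hz hl h0 hf
    rw [lin] at h0
    rw [lin, lin, hf x a hx (hl a (by simp)) (by omega),
      ih a z (hl a (by simp)) hz (fun y hy => hl y (by simp [hy])) (by omega) hf]

theorem EvLem2_cyc {β : Type*} {G f h : β → β → ℕ} (s : List β) (h0 : cyc G s = 0)
    (hf : ∀ x ∈ s, ∀ y ∈ s, G x y = 0 → f x y = h x y) : cyc f s = cyc h s := by
  cases s with
  | nil => rfl
  | cons x l =>
    refine EvLem2_lin (fun y => y ∈ x :: l) l x x (by simp) (by simp)
      (fun y hy => by simp [hy]) h0 ?_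
    intro a b ha hb hab
    exact hf a ha b hb hab

/-- number of edges `c - c⁻¹` after a potential -/
theorem EvLem2_jj {j : Fin 3} {s : List ((Fin 3 × Bool) × ℤ)} (hs : SValid j s)
    (p : Fin 3 × Bool → ℤ) :
    edgS (act (pot j p) (cls (expand j s))) (sgl (j, true)) (sgl (j, false)) =
      cyc (fun a b => (a.2 + p a.1 - p (bar b.1)).natAbs - 1) s := by
  rw [act_pot j p s hs.1, edgS_jj (SValid_shift j p s hs), ← cyc_fst (fun q : (Fin 3 × Bool) × ℤ => q.2.natAbs - 1)]
  exact cyc_shift (fun (q : (Fin 3 × Bool) × ℤ) (_ : Fin 3 × Bool) => q.2.natAbs - 1) p s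

/-- number of edges between sets of letters `≠ c^{±1}` after a potential -/
theorem EvLem2_rs {j : Fin 3} {s : List ((Fin 3 × Bool) × ℤ)} (hs : SValid j s)
    (p : Fin 3 × Bool → ℤ) (P Q : Ct) :
    edgS (act (pot j p) (cls (expand j s))) (rs j P) (rs j Q) =
      cyc (fun a b => if a.2 + p a.1 - p (bar b.1) = 0 ∧
        ((P a.1 && Q (bar b.1)) || (Q a.1 && P (bar b.1))) = true then 1 else 0) s := by
  have e : ∀ (P : Ct) (b : Bool), rs j P (j, b) = false := by
    intro P b
    simp [rs]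
  rw [act_pot j p s hs.1, edgS_zero (SValid_shift j p s hs) (e P true) (e P false) (e Q true)
    (e Q false)]
  have h1 := cyc_shift (fun (q : (Fin 3 × Bool) × ℤ) (y : Fin 3 × Bool) =>
    if q.2 = 0 ∧ ((rs j P q.1 && rs j Q (bar y)) || (rs j Q q.1 && rs j P (bar y))) = true
      then 1 else 0) p s
  rw [h1]
  apply SylEdge_cyc_congr
  intro q hq r hr
  have hq' : q.1.1 ≠ j := hs.1 q hq
  have hr' : (bar r.1).1 ≠ j := hs.1 r hr
  have f1 : ∀ P : Ct, rs j P q.1 = P q.1 := by
    intro P
    unfold rs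
    rw [decide_eq_true hq', Bool.and_true]
  have f2 : ∀ P : Ct, rs j P (bar r.1) = P (bar r.1) := by
    intro P
    unfold rs
    rw [decide_eq_true hr', Bool.and_true]
  simp only [f1, f2]

/-- the cut `c ∪ X` -/
def EvLem2_up (j : Fin 3) (X : Ct) : Ct := fun x => decide (x = (j, true)) || rs j X x

/-- the cut `c⁻¹ ∪ X` -/
def EvLem2_dn (j : Fin 3) (X : Ct) : Ct := fun x => decide (x = (j, false)) || rs j X x

theorem EvLem2_ind {X Y : Ct} {x : Fin 3 × Bool} (h : X x = Y x) :
    ind X x = ind Y x := by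
  unfold ind
  rw [h]

theorem EvLem2_NCup {n : ℕ} {V : CC} (E : Eq3 n V) {j : Fin 3} {X : Ct}
    (h : cnt (act (pot j (ind X)) V) j = n) : NC n V (EvLem2_up j X) := by
  have h0 : act (pot j (ind (EvLem2_up j X))) V = act (pot j (ind X)) V := by
    apply pot_congr
    intro x hx
    apply EvLem2_ind
    have h1 : x ≠ (j, true) := fun h => hx (by rw [h])
    simp [EvLem2_up, rs, h1, hx]
  have h1 : Lv V (j, true) (EvLem2_up j X) := by
    apply pot_Lv
    · simp [EvLem2_up]
    · simp [EvLem2_up, rs]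
    · rw [h0, h, E.c]
  exact ((Lv_NC E).1 h1).2.2

theorem EvLem2_NCdn {n : ℕ} {V : CC} (E : Eq3 n V) {j : Fin 3} {X : Ct}
    (h : cnt (act (pot j (fun x => - ind X x)) V) j = n) : NC n V (EvLem2_dn j X) := by
  have h0 : act (pot j (ind (fun x => !(EvLem2_dn j X x)))) V =
      act (pot j (fun x => - ind X x)) V := by
    apply pot_const 1
    intro x hx
    have h1 : x ≠ (j, false) := fun h => hx (by rw [h])
    have h2 : (EvLem2_dn j X x) = X x := by simp [EvLem2_dn, rs, h1, hx]
    simp only [ind, h2]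
    cases X x <;> simp
  have h1 : Lv V (j, true) (fun x => !(EvLem2_dn j X x)) := by
    apply pot_Lv
    · simp [EvLem2_dn, rs]
    · simp [EvLem2_dn]
    · rw [h0, h, E.c]
  exact NC_congr (NC_compl ((Lv_NC E).1 h1).2.2) (fun x => by simp)

/-- the crossing of the cuts given by adding `1_U` and subtracting `1_D` -/
theorem EvLem2_cross {n : ℕ} {V : CC} (E : Eq3 n V) {j : Fin 3} {U D : Ct}
    (hU : cnt (act (pot j (ind U)) V) j = n)
    (hD : cnt (act (pot j (fun x => - ind D x)) V) j = n)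
    (h1 : ∃ x : Fin 3 × Bool, x.1 ≠ j ∧ U x = true ∧ D x = true)
    (h2 : ∃ x : Fin 3 × Bool, x.1 ≠ j ∧ U x = false ∧ D x = false) :
    edgS V (sgl (j, true)) (sgl (j, false)) = 0 ∧
    edgS V (rs j (fun x => U x && D x)) (rs j (fun x => !U x && !D x)) = 0 ∧
    2 * edgS V (rs j (fun x => U x && D x))
      (fun x => sgl (j, true) x || rs j (fun x => U x && !D x) x) = n := by
  have a1 := EvLem2_NCup E hU
  have a2 := EvLem2_NCdn E hD
  obtain ⟨x, x0, x1, x2⟩ := h1
  obtain ⟨y, y0, y1, y2⟩ := h2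
  have x3 : x ≠ (j, true) := fun h => x0 (by rw [h])
  have x4 : x ≠ (j, false) := fun h => x0 (by rw [h])
  have y3 : y ≠ (j, true) := fun h => y0 (by rw [h])
  have y4 : y ≠ (j, false) := fun h => y0 (by rw [h])
  have hX : Crossg (EvLem2_up j U) (EvLem2_dn j D) := by
    refine ⟨⟨x, ?_, ?_⟩, ⟨(j, true), ?_, ?_⟩, ⟨(j, false), ?_, ?_⟩, ⟨y, ?_, ?_⟩⟩
    · simp [EvLem2_up, rs, x0, x1]
    · simp [EvLem2_dn, rs, x0, x2]
    · simp [EvLem2_up]
    · simp [EvLem2_dn, rs]
    · simp [EvLem2_up, rs]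
    · simp [EvLem2_dn]
    · simp [EvLem2_up, y1, y3, rs]
    · simp [EvLem2_dn, y2, y4, rs]
  obtain ⟨f1, f2, f3, -, -, -⟩ := f1e E a1 a2 hX
  have up : ∀ z, EvLem2_up j U z = (decide (z = (j, true)) || (U z && decide (z.1 ≠ j))) :=
    fun z => rfl
  have dn : ∀ z, EvLem2_dn j D z = (decide (z = (j, false)) || (D z && decide (z.1 ≠ j))) :=
    fun z => rfl
  have hk : ∀ z : Fin 3 × Bool, z = (j, true) ∨ z = (j, false) ∨ z.1 ≠ j := by
    rintro ⟨i, b⟩
    by_cases hi : i = j
    · subst hi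
      cases b
      · right; left; rfl
      · left; rfl
    · right; right; exact hi
  refine ⟨?_, ?_, ?_⟩
  · refine Nat.eq_zero_of_le_zero ((edgS_mono V ?_ ?_).trans f2.le)
    · intro z hz
      have hz' : z = (j, true) := by simpa [sgl] using hz
      subst hz'
      simp [up, dn]
    · intro z hz
      have hz' : z = (j, false) := by simpa [sgl] using hz
      subst hz'
      simp [up, dn]
  · refine Nat.eq_zero_of_le_zero ((edgS_mono V ?_ ?_).trans f1.le)
    · intro z hz
      simp only [rs, Bool.and_eq_true, decide_eq_true_eq] at hz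
      simp [up, dn, hz]
    · intro z hz
      simp only [rs, Bool.and_eq_true, decide_eq_true_eq] at hz
      have z3 : z ≠ (j, true) := fun h => hz.2 (by rw [h])
      have z4 : z ≠ (j, false) := fun h => hz.2 (by rw [h])
      have z5 : U z = false := by simpa using hz.1.1
      have z6 : D z = false := by simpa using hz.1.2
      simp [up, dn, z3, z4, z5, z6]
  · rw [← f3]
    congr 1
    apply edgS_congr
    · intro z
      rcases hk z with rfl | rfl | hz
      · simp [up, dn, rs]
      · simp [up, dn, rs]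
      · have z3 : z ≠ (j, true) := fun h => hz (by rw [h])
        have z4 : z ≠ (j, false) := fun h => hz (by rw [h])
        simp [up, dn, rs, z3, z4, hz]
    · intro z
      rcases hk z with rfl | rfl | hz
      · simp [up, dn, rs, sgl]
      · simp [up, dn, rs, sgl]
      · have z3 : z ≠ (j, true) := fun h => hz (by rw [h])
        have z4 : z ≠ (j, false) := fun h => hz (by rw [h])
        simp [up, dn, rs, sgl, z3, z4, hz]

/-- the potentials with the same count -/
theorem EvLem2_Eq3 {n : ℕ} {V : CC} (E : Eq3 n V) {j : Fin 3} {p : Fin 3 × Bool → ℤ}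
    (h : cnt (act (pot j p) V) j = n) : Eq3 n (act (pot j p) V) :=
  E.orb' (pot_Sm (by rw [h, E.c])).1

/-- comparison of three points on a line -/
theorem EvLem2_at {n : ℕ} {V : CC} (E : Eq3 n V) {j : Fin 3} {p : Fin 3 × Bool → ℤ}
    {U D : Ct} (h : cnt (act (pot j p) V) j = n)
    (hU : cnt (act (pot j (p + ind U)) V) j = n) (hD : cnt (act (pot j (p - ind D)) V) j = n)
    (h1 : ∃ x : Fin 3 × Bool, x.1 ≠ j ∧ U x = true ∧ D x = true)
    (h2 : ∃ x : Fin 3 × Bool, x.1 ≠ j ∧ U x = false ∧ D x = false) :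
    edgS (act (pot j p) V) (sgl (j, true)) (sgl (j, false)) = 0 ∧
    edgS (act (pot j p) V) (rs j (fun x => U x && D x)) (rs j (fun x => !U x && !D x)) = 0 ∧
    2 * edgS (act (pot j p) V) (rs j (fun x => U x && D x))
      (fun x => sgl (j, true) x || rs j (fun x => U x && !D x) x) = n := by
  apply EvLem2_cross (EvLem2_Eq3 E h) _ _ h1 h2
  · rw [pot_add, add_comm]
    exact hU
  · rw [pot_add]
    have e : (fun x => - ind D x) + p = p - ind D := by
      funext x
      simp only [Pi.add_apply, Pi.sub_apply]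
      ring
    rw [e]
    exact hD

theorem lemS2 {n : ℕ} {V : CC} (E : Eq3 n V) {j : Fin 3} {X : Ct}
    (h1 : ∃ x : Fin 3 × Bool, x.1 ≠ j ∧ X x = true) (h2 : ∃ x : Fin 3 × Bool, x.1 ≠ j ∧ X x = false)
    (hn : cnt (act (pot j (fun x => 2 * ind X x)) V) j = n)
    (he : edgS V (sgl (j, true)) (sgl (j, false)) = 0) : Clo j V X := by
  rcases WhEff_cases j V with ⟨k, rfl⟩ | ⟨s, -, hs, rfl⟩
  · intro p
    rw [act_pot_pow, act_pot_pow]
  · have hind : ∀ x, ind X x = 0 ∨ ind X x = 1 := by
      intro x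
      unfold ind
      cases X x <;> simp
    have hc : cnt (cls (expand j s)) j = n := E.c j
    have hX1 : cnt (act (pot j (ind X)) (cls (expand j s))) j = n := by
      have := (pot_split E.hO (q := fun x => 2 * ind X x) (by rw [hn, hc]) 1).2
      rw [hc] at this
      rw [← this]
      congr 2
      congr 1
      funext x
      rcases hind x with h | h <;> rw [h] <;> simp
    obtain ⟨x, x0, x1⟩ := h1
    obtain ⟨y, y0, y1⟩ := h2
    obtain ⟨g1, g2, -⟩ := EvLem2_at E (p := ind X) (U := X) (D := X) hX1 (by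
      rw [← hn]
      congr 2
      congr 1
      funext x
      simp only [Pi.add_apply]
      ring) (by
      rw [sub_self, pot_zero, hc]) ⟨x, x0, x1, x1⟩ ⟨y, y0, y1, y1⟩
    -- the counts
    have c0 : cyc (fun a b : (Fin 3 × Bool) × ℤ => a.2.natAbs) s = n := by
      rw [cyc_fst (fun a : (Fin 3 × Bool) × ℤ => a.2.natAbs), ← cntL_expand_self j s hs.1,
        ← cnt_cls hs.2, hc]
    have c1 : cyc (fun a b : (Fin 3 × Bool) × ℤ =>
        (a.2 + ind X a.1 - ind X (bar b.1)).natAbs) s = n := by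
      rw [← hX1, act_pot j _ s hs.1, cnt_cls (SValid_shift j _ s hs).2,
        cntL_expand_self _ _ (SValid_shift j _ s hs).1, sum_shift]
    have e0 := EvLem2_jj hs 0
    rw [pot_zero, he] at e0
    have e1 := EvLem2_jj hs (ind X)
    rw [g1] at e1
    have e2 := EvLem2_rs hs (ind X) (fun x => X x && X x) (fun x => !X x && !X x)
    rw [g2] at e2
    have hsum : cyc (fun a b : (Fin 3 × Bool) × ℤ =>
        ((a.2 + (0 : Fin 3 × Bool → ℤ) a.1 - (0 : Fin 3 × Bool → ℤ) (bar b.1)).natAbs - 1) +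
        (((a.2 + ind X a.1 - ind X (bar b.1)).natAbs - 1) +
        (if a.2 + ind X a.1 - ind X (bar b.1) = 0 ∧
          (((X a.1 && X a.1) && (!X (bar b.1) && !X (bar b.1))) ||
            ((!X a.1 && !X a.1) && (X (bar b.1) && X (bar b.1)))) = true then 1 else 0))) s = 0 := by
      rw [cyc_add, cyc_add, ← e0, ← e1, ← e2]
    have key := EvLem2_cyc (f := fun a b : (Fin 3 × Bool) × ℤ =>
        (a.2 + ind X a.1 - ind X (bar b.1)).natAbs)
      (h := fun a b : (Fin 3 × Bool) × ℤ => a.2.natAbs + (if X a.1 = X (bar b.1) then 0 else 1))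
      s hsum (by
      intro a _ b _ hab
      simp only [Pi.zero_apply] at hab
      unfold ind at hab ⊢
      cases hXa : X a.1 <;> cases hXb : X (bar b.1) <;>
        simp only [hXa, hXb, Bool.not_true, Bool.not_false, Bool.and_self, Bool.and_true,
          Bool.true_and, Bool.false_and, Bool.and_false, Bool.or_self, Bool.or_true,
          Bool.or_false, Bool.false_or, and_true, and_false, if_true, if_false,
          Bool.false_eq_true, Bool.true_eq_false, reduceCtorEq] at hab ⊢
      · omega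
      · split_ifs at hab <;> omega
      · split_ifs at hab <;> omega
      · omega)
    rw [cyc_add, c0, c1] at key
    refine clo_of_nox (s := s) (fun q => act_pot j q s hs.1) ?_
    unfold NoX
    omega

end Pool.Agent.Sims
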