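import Pool.Agent.Sims.EvCL
import Pool.Agent.Sims.EvLem2

/-!
# Module `EvLem3` : three steps

`c = (j, true)`, `c⁻¹ = (j, false)`.  For a potential `p` with `cnt (act (pot j p) V) j = n` write `V_p = act (pot j p) V`; it satisfies `Eq3 n` (`pot_Sm`, `Eq3.orb'`).
For a set `X` of letters `≠ c^{±1}` write `c ∪ X`, `c⁻¹ ∪ X` for the cuts.  If `V_p` and `V_{p + 1_X}` both have count `n` then `c ∪ X` is a level `c`-cut at `V_p` and `c⁻¹ ∪ X` is a level `c⁻¹`-cut at
`V_{p+1_X}` (`pot_Lv`, `pot_add`; for the second one: `-1_X = 1_{Xᶜ} - 1`, `pot_const`, and `Lv_compl`); both have capacity `n`.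

* `lemS3` (three steps).  `q` has the level sets `X₁ = {q ≥ 1} ⊇ X₂ = {q ≥ 2} ⊇ X₃ = {q ≥ 3} ≠ ∅`, `X₁ ≠` all letters `≠ c^{±1}`.  By `pot_split` (truncations) the potentials
  `1_{X₃}, 1_{X₂}, 1_{X₁}, 1_{X₂}+1_{X₃}, 1_{X₁}+1_{X₂}, 1_{X₁}+1_{X₂}+1_{X₃}` all have count `n`.
  Crossing cuts (`f1e`); in each line the first cut comes from adding, the second one from subtracting:
  - at `V_{X₃}`: `c ∪ X₂` and `c⁻¹ ∪ X₃` cross (corners `X₃`, `c ∪ (X₂∖X₃)`, `c⁻¹`, `X₂ᶜ`): `e(c,c⁻¹) = 0`, `e(X₃, X₂ᶜ) = 0`;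
  - at `V_{X₂}`: `c ∪ X₃` and `c⁻¹ ∪ X₂` (corners `X₃`, `c`, `c⁻¹ ∪ (X₂∖X₃)`, `X₂ᶜ`): `e(c,c⁻¹) = 0`, `2 e(X₃, c) = n`;  and `c ∪ X₁`, `c⁻¹ ∪ X₂` (corners `X₂`, `c ∪ (X₁∖X₂)`, `c⁻¹`, `X₁ᶜ`):
    `e(X₂, X₁ᶜ) = 0`, `2 e(X₂, c ∪ (X₁∖X₂)) = n`, hence `e(X₂, X₁∖X₂) = 0` (as `2 e(X₂, c) ≥ 2 e(X₃, c) = n`);
  - at `V_{X₁}`: `c ∪ X₂` and `c⁻¹ ∪ X₁` (corners `X₂`, `c`, `c⁻¹ ∪ (X₁∖X₂)`, `X₁ᶜ`): `e(c,c⁻¹) = 0`;
  - at `V_{X₂+X₃}`: `c ∪ X₁` and `c⁻¹ ∪ X₃` (corners `X₃`, `c ∪ (X₁∖X₃)`, `c⁻¹`, `X₁ᶜ`): `e(c,c⁻¹) = 0`;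
  - at `V_{X₁+X₂}`: `c ∪ X₃` and `c⁻¹ ∪ X₂` (corners `X₃`, `c`, `c⁻¹ ∪ (X₂∖X₃)`, `X₂ᶜ`): `e(c,c⁻¹) = 0`.
  Consider a syllable of `V` with one end in `X₂` and the other one not in `X₂`; let `k` be its exponent, normalized in the direction from the `X₂`-end to the other end.  At `V_p` it is
  `k + p(x) - p(y)`, and `e(c,c⁻¹) = 0` at `V_p` means that its absolute value is `≤ 1`.  Regions: `R₃ = X₃`, `R₂ = X₂∖X₃`, `R₁ = X₁∖X₂`, `R₀ = X₁ᶜ`.
  - `R₃–R₀`: shifts `1, 1, 1, 2, 2` at the five points, so `k ∈ {-2, -1}`; `k + 1 ≠ 0` at `V_{X₃}` (`e(X₃, X₂ᶜ) = 0`), and `k + 2 ≠ 0` at `V_{X₂+X₃}` (`e(X₃, X₁ᶜ) = 0`: opposite corners of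
    `c ∪ X₁`, `c⁻¹ ∪ X₃`).  None.
  - `R₃–R₁`: shifts `1, 1, 0, 2, 1` at `X₃, X₂, X₁, X₂+X₃, X₁+X₂`: `k = -1`, excluded at `V_{X₃}`.  None.
  - `R₂–R₀`: shifts `0, 1, 1, 1, 2`: `k = -1`, excluded at `V_{X₂}` (`e(X₂, X₁ᶜ) = 0`).  None.
  - `R₂–R₁`: shifts `0, 1, 0, 1, 1`: `k ∈ {-1, 0}`; `k = -1` is excluded at `V_{X₂}` (`e(X₂, X₁∖X₂) = 0`).  So `k = 0`: such a syllable contributes `0` to `cnt V j` and `1` to `cnt V_{X₂} j`.
  As the other syllables are not changed from `V` to `V_{X₂}` and the counts are equal, there are no syllables of the last kind either: `NoX X₂`, `Clo j V X₂`.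
Difficulty 4.
-/

namespace Pool.Agent.Sims

set_option linter.unusedVariables false
set_option linter.unusedSimpArgs false
set_option linter.unnecessarySeqFocus false

/-- the arithmetic of a mixed syllable -/
theorem EvLem3_arith (k : ℤ) (x1 x2 x3 y1 y2 y3 : Bool)
    (hx12 : x2 = true → x1 = true) (hx23 : x3 = true → x2 = true)
    (hy12 : y2 = true → y1 = true) (hy23 : y3 = true → y2 = true)
    (c1 : (k + (if x3 then 1 else 0) - (if y3 then 1 else 0)).natAbs ≤ 1)
    (c2 : (k + (if x2 then 1 else 0) - (if y2 then 1 else 0)).natAbs ≤ 1)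
    (c3 : (k + (if x1 then 1 else 0) - (if y1 then 1 else 0)).natAbs ≤ 1)
    (c4 : (k + ((if x2 then 1 else 0) + (if x3 then 1 else 0)) -
      ((if y2 then 1 else 0) + (if y3 then 1 else 0))).natAbs ≤ 1)
    (c5 : (k + ((if x1 then 1 else 0) + (if x2 then 1 else 0)) -
      ((if y1 then 1 else 0) + (if y2 then 1 else 0))).natAbs ≤ 1)
    (z1 : k + (if x3 then 1 else 0) - (if y3 then 1 else 0) = 0 →
      ((x3 && !y2) || (!x2 && y3)) = false)
    (z2 : k + (if x2 then 1 else 0) - (if y2 then 1 else 0) = 0 →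
      ((x2 && !y1) || (!x1 && y2)) = false)
    (z3 : k + (if x2 then 1 else 0) - (if y2 then 1 else 0) = 0 →
      ((x2 && (y1 && !y2)) || ((x1 && !x2) && y2)) = false)
    (z4 : k + ((if x2 then 1 else 0) + (if x3 then 1 else 0)) -
      ((if y2 then 1 else 0) + (if y3 then 1 else 0)) = 0 →
      ((x3 && !y1) || (!x1 && y3)) = false) :
    (k + (if x2 then 1 else 0) - (if y2 then 1 else 0)).natAbs =
      k.natAbs + (if x2 = y2 then 0 else 1) := by
  revert hx12 hx23 hy12 hy23 c1 c2 c3 c4 c5 z1 z2 z3 z4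
  cases x1 <;> cases x2 <;> cases x3 <;> cases y1 <;> cases y2 <;> cases y3 <;> simp <;> omega

theorem EvLem3_if {P : Prop} [Decidable P] (h : (if P then 1 else 0 : ℕ) = 0) : ¬ P := by
  intro hP
  rw [if_pos hP] at h
  exact one_ne_zero h

theorem EvLem3_ite (X : Ct) (x : Fin 3 × Bool) : ind X x = if X x = true then 1 else 0 := rfl

theorem lemS3 {n : ℕ} {V : CC} (E : Eq3 n V) {j : Fin 3} {X1 X2 X3 : Ct}
    (h12 : ∀ x, X2 x = true → X1 x = true) (h23 : ∀ x, X3 x = true → X2 x = true)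
    (h3 : ∃ x : Fin 3 × Bool, x.1 ≠ j ∧ X3 x = true) (h1 : ∃ x : Fin 3 × Bool, x.1 ≠ j ∧ X1 x = false)
    (hn : cnt (act (pot j (ind X1 + ind X2 + ind X3)) V) j = n) : Clo j V X2 := by
  rcases WhEff_cases j V with ⟨k, rfl⟩ | ⟨s, -, hs, rfl⟩
  · intro p
    rw [act_pot_pow, act_pot_pow]
  · obtain ⟨u, u0, u3⟩ := h3
    obtain ⟨v, v0, v1⟩ := h1
    have u2 := h23 u u3
    have u1 := h12 u u2
    have v2 : X2 v = false := by
      by_contra h
      have := h12 v (by simpa using h)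
      rw [v1] at this
      exact absurd this (by decide)
    have v3 : X3 v = false := by
      by_contra h
      have := h23 v (by simpa using h)
      rw [v2] at this
      exact absurd this (by decide)
    have hc : cnt (cls (expand j s)) j = n := E.c j
    have hi : ∀ x, (ind X1 x = 0 ∧ ind X2 x = 0 ∧ ind X3 x = 0) ∨
        (ind X1 x = 1 ∧ ind X2 x = 0 ∧ ind X3 x = 0) ∨
        (ind X1 x = 1 ∧ ind X2 x = 1 ∧ ind X3 x = 0) ∨
        (ind X1 x = 1 ∧ ind X2 x = 1 ∧ ind X3 x = 1) := by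
      intro x
      have a1 := h12 x
      have a2 := h23 x
      simp only [EvLem3_ite]
      revert a1 a2
      cases X1 x <;> cases X2 x <;> cases X3 x <;> simp
    have q0 := pot_split E.hO (q := ind X1 + ind X2 + ind X3) (by rw [hn, hc])
    have s1 : cnt (act (pot j (ind X1)) (cls (expand j s))) j = n := by
      rw [← hc, ← (q0 1).2]
      congr 2
      congr 1
      funext x
      simp only [Pi.add_apply]
      rcases hi x with ⟨e1, e2, e3⟩ | ⟨e1, e2, e3⟩ | ⟨e1, e2, e3⟩ | ⟨e1, e2, e3⟩ <;>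
        rw [e1, e2, e3] <;> decide
    have s12 : cnt (act (pot j (ind X1 + ind X2)) (cls (expand j s))) j = n := by
      rw [← hc, ← (q0 2).2]
      congr 2
      congr 1
      funext x
      simp only [Pi.add_apply]
      rcases hi x with ⟨e1, e2, e3⟩ | ⟨e1, e2, e3⟩ | ⟨e1, e2, e3⟩ | ⟨e1, e2, e3⟩ <;>
        rw [e1, e2, e3] <;> decide
    have s23 : cnt (act (pot j (ind X2 + ind X3)) (cls (expand j s))) j = n := by
      rw [← hc, ← (q0 1).1]
      congr 2
      congr 1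
      funext x
      simp only [Pi.add_apply]
      rcases hi x with ⟨e1, e2, e3⟩ | ⟨e1, e2, e3⟩ | ⟨e1, e2, e3⟩ | ⟨e1, e2, e3⟩ <;>
        rw [e1, e2, e3] <;> decide
    have s3 : cnt (act (pot j (ind X3)) (cls (expand j s))) j = n := by
      rw [← hc, ← (q0 2).1]
      congr 2
      congr 1
      funext x
      simp only [Pi.add_apply]
      rcases hi x with ⟨e1, e2, e3⟩ | ⟨e1, e2, e3⟩ | ⟨e1, e2, e3⟩ | ⟨e1, e2, e3⟩ <;>
        rw [e1, e2, e3] <;> decide
    have s2 : cnt (act (pot j (ind X2)) (cls (expand j s))) j = n := by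
      have := (pot_split E.hO (q := ind X2 + ind X3) (by rw [s23, hc]) 1).2
      rw [← hc, ← this]
      congr 2
      congr 1
      funext x
      simp only [Pi.add_apply]
      rcases hi x with ⟨e1, e2, e3⟩ | ⟨e1, e2, e3⟩ | ⟨e1, e2, e3⟩ | ⟨e1, e2, e3⟩ <;>
        rw [e2, e3] <;> decide
    have s0 : cnt (act (pot j 0) (cls (expand j s))) j = n := by rw [pot_zero, hc]
    -- the crossings
    obtain ⟨g31, g32, -⟩ := EvLem2_at E (p := ind X3) (U := X2) (D := X3) s3
      (by rw [add_comm]; exact s23) (by rw [sub_self]; exact s0) ⟨u, u0, u2, u3⟩ ⟨v, v0, v2, v3⟩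
    obtain ⟨g21, -, g23⟩ := EvLem2_at E (p := ind X2) (U := X3) (D := X2) s2
      s23 (by rw [sub_self]; exact s0) ⟨u, u0, u3, u2⟩ ⟨v, v0, v3, v2⟩
    obtain ⟨-, k22, k23⟩ := EvLem2_at E (p := ind X2) (U := X1) (D := X2) s2
      (by rw [add_comm]; exact s12) (by rw [sub_self]; exact s0) ⟨u, u0, u1, u2⟩ ⟨v, v0, v1, v2⟩
    obtain ⟨g11, -, -⟩ := EvLem2_at E (p := ind X1) (U := X2) (D := X1) s1
      s12 (by rw [sub_self]; exact s0) ⟨u, u0, u2, u1⟩ ⟨v, v0, v2, v1⟩
    obtain ⟨g41, g42, -⟩ := EvLem2_at E (p := ind X2 + ind X3) (U := X1) (D := X3) s23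
      (by rw [show ind X2 + ind X3 + ind X1 = ind X1 + ind X2 + ind X3 by ring]; exact hn)
      (by rw [add_sub_cancel_right]; exact s2) ⟨u, u0, u1, u3⟩ ⟨v, v0, v1, v3⟩
    obtain ⟨g51, -, -⟩ := EvLem2_at E (p := ind X1 + ind X2) (U := X3) (D := X2) s12
      hn (by rw [add_sub_cancel_right]; exact s1) ⟨u, u0, u3, u2⟩ ⟨v, v0, v3, v2⟩
    -- no edges between `X2` and `X1 ∖ X2` at `V_{X2}`
    have k24 : edgS (act (pot j (ind X2)) (cls (expand j s))) (rs j X2)
        (rs j (fun x => X1 x && !X2 x)) = 0 := by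
      set W := act (pot j (ind X2)) (cls (expand j s)) with hW
      have m1 : edgS W (rs j (fun x => X3 x && X2 x))
          (fun x => sgl (j, true) x || rs j (fun x => X3 x && !X2 x) x) ≤
          edgS W (rs j (fun x => X1 x && X2 x)) (sgl (j, true)) := by
        apply edgS_mono
        · intro z hz
          simp only [rs, Bool.and_eq_true, decide_eq_true_eq] at hz ⊢
          exact ⟨⟨h12 z hz.1.2, hz.1.2⟩, hz.2⟩
        · intro z hz
          simp only [rs, Bool.or_eq_true, Bool.and_eq_true, decide_eq_true_eq] at hz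
          rcases hz with hz | hz
          · exact hz
          · exfalso
            have := h23 z hz.1.1
            have h' := hz.1.2
            rw [this] at h'
            exact absurd h' (by decide)
      have m2 := edgS_union W (rs j (fun x => X1 x && X2 x)) (sgl (j, true))
        (rs j (fun x => X1 x && !X2 x)) (by
          intro z hz
          simp only [rs, Bool.and_eq_true, decide_eq_true_eq] at hz
          have : z ≠ (j, true) := fun h => hz.2 (by rw [h])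
          simp [sgl, this]) (by
          intro z hz
          simp only [rs, Bool.and_eq_true, decide_eq_true_eq] at hz
          simp [rs, hz.1.2]) (by
          intro z hz
          have hz' : z = (j, true) := by simpa [sgl] using hz
          subst hz'
          simp [rs])
      have m3 : edgS W (rs j X2) (rs j (fun x => X1 x && !X2 x)) ≤
          edgS W (rs j (fun x => X1 x && X2 x)) (rs j (fun x => X1 x && !X2 x)) := by
        apply edgS_mono
        · intro z hz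
          simp only [rs, Bool.and_eq_true, decide_eq_true_eq] at hz ⊢
          exact ⟨⟨h12 z hz.1, hz.1⟩, hz.2⟩
        · intro z hz
          exact hz
      omega
    -- translation into sums over the syllables
    have c0 : cyc (fun a b : (Fin 3 × Bool) × ℤ => a.2.natAbs) s = n := by
      rw [cyc_fst (fun a : (Fin 3 × Bool) × ℤ => a.2.natAbs), ← cntL_expand_self j s hs.1,
        ← cnt_cls hs.2, hc]
    have c2 : cyc (fun a b : (Fin 3 × Bool) × ℤ =>
        (a.2 + ind X2 a.1 - ind X2 (bar b.1)).natAbs) s = n := by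
      rw [← s2, act_pot j _ s hs.1, cnt_cls (SValid_shift j _ s hs).2,
        cntL_expand_self _ _ (SValid_shift j _ s hs).1, sum_shift]
    have e1 := EvLem2_jj hs (ind X3)
    rw [g31] at e1
    have e2 := EvLem2_jj hs (ind X2)
    rw [g21] at e2
    have e3 := EvLem2_jj hs (ind X1)
    rw [g11] at e3
    have e4 := EvLem2_jj hs (ind X2 + ind X3)
    rw [g41] at e4
    have e5 := EvLem2_jj hs (ind X1 + ind X2)
    rw [g51] at e5
    have d1 := EvLem2_rs hs (ind X3) (fun x => X2 x && X3 x) (fun x => !X2 x && !X3 x)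
    rw [g32] at d1
    have d2 := EvLem2_rs hs (ind X2) (fun x => X1 x && X2 x) (fun x => !X1 x && !X2 x)
    rw [k22] at d2
    have d3 := EvLem2_rs hs (ind X2) X2 (fun x => X1 x && !X2 x)
    rw [k24] at d3
    have d4 := EvLem2_rs hs (ind X2 + ind X3) (fun x => X1 x && X3 x) (fun x => !X1 x && !X3 x)
    rw [g42] at d4
    have hsum := congrArg₂ (· + ·) (congrArg₂ (· + ·) (congrArg₂ (· + ·) (congrArg₂ (· + ·) e1 e2)
      (congrArg₂ (· + ·) e3 e4)) (congrArg₂ (· + ·) (congrArg₂ (· + ·) d1 d2)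
      (congrArg₂ (· + ·) d3 d4))) e5
    beta_reduce at hsum
    rw [← cyc_add, ← cyc_add, ← cyc_add, ← cyc_add, ← cyc_add, ← cyc_add, ← cyc_add,
      ← cyc_add] at hsum
    have key := EvLem2_cyc (f := fun a b : (Fin 3 × Bool) × ℤ =>
        (a.2 + ind X2 a.1 - ind X2 (bar b.1)).natAbs)
      (h := fun a b : (Fin 3 × Bool) × ℤ => a.2.natAbs + (if X2 a.1 = X2 (bar b.1) then 0 else 1))
      s hsum.symm (by
      intro a _ b _ hab
      simp only [Pi.add_apply, EvLem3_ite, Nat.add_eq_zero_iff] at hab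
      obtain ⟨⟨⟨⟨p1, p2⟩, p3, p4⟩, ⟨w1, w2⟩, w3, w4⟩, p5⟩ := hab
      have f12 := h12 a.1
      have f23 := h23 a.1
      have f12' := h12 (bar b.1)
      have f23' := h23 (bar b.1)
      simp only [EvLem3_ite]
      refine EvLem3_arith a.2 (X1 a.1) (X2 a.1) (X3 a.1) (X1 (bar b.1)) (X2 (bar b.1))
        (X3 (bar b.1)) f12 f23 f12' f23' (by omega) (by omega) (by omega) (by omega) (by omega)
        ?_ ?_ ?_ ?_
      · intro h0
        by_contra hcon
        apply EvLem3_if w1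
        refine ⟨h0, ?_⟩
        revert hcon f12 f23 f12' f23'
        cases X1 a.1 <;> cases X2 a.1 <;> cases X3 a.1 <;> cases X1 (bar b.1) <;>
          cases X2 (bar b.1) <;> cases X3 (bar b.1) <;> decide
      · intro h0
        by_contra hcon
        apply EvLem3_if w2
        refine ⟨h0, ?_⟩
        revert hcon f12 f23 f12' f23'
        cases X1 a.1 <;> cases X2 a.1 <;> cases X3 a.1 <;> cases X1 (bar b.1) <;>
          cases X2 (bar b.1) <;> cases X3 (bar b.1) <;> decide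
      · intro h0
        by_contra hcon
        apply EvLem3_if w3
        refine ⟨h0, ?_⟩
        revert hcon f12 f23 f12' f23'
        cases X1 a.1 <;> cases X2 a.1 <;> cases X3 a.1 <;> cases X1 (bar b.1) <;>
          cases X2 (bar b.1) <;> cases X3 (bar b.1) <;> decide
      · intro h0
        by_contra hcon
        apply EvLem3_if w4
        refine ⟨h0, ?_⟩
        revert hcon f12 f23 f12' f23'
        cases X1 a.1 <;> cases X2 a.1 <;> cases X3 a.1 <;> cases X1 (bar b.1) <;>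
          cases X2 (bar b.1) <;> cases X3 (bar b.1) <;> decide)
    rw [cyc_add, c0, c2] at key
    refine clo_of_nox (s := s) (fun q => act_pot j q s hs.1) ?_
    unfold NoX
    omega

end Pool.Agent.Sims
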