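import Pool.Agent.Sims.EvLem2
import Pool.Agent.Sims.EvLem3

/-!
# Module `EvLem` : minimal potentials have maximum at most 2

* `lemS`: `hmin` says that no closed set is contained in `{q ≥ 1}`.  (`clo_all`: `X₁` is not everything.)  If `q x ≥ 3` for some letter `x ≠ c^{±1}`: `lemS3` for `min q 3`, contradiction to `hmin` for `X₂`.
  If `q` takes only the values `0` and `2` (and `2` is taken): `lemS2` and `hmin`.
Difficulty 2.
-/

namespace Pool.Agent.Sims

set_option linter.unusedVariables false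
set_option linter.unusedSimpArgs false

theorem EvLem_ind (q : Fin 3 × Bool → ℤ) (t : ℤ) (x : Fin 3 × Bool) :
    ind (fun x => decide (t ≤ q x)) x = if t ≤ q x then 1 else 0 := by
  unfold ind
  by_cases h : t ≤ q x
  · simp [h]
  · simp [h]

theorem EvLem_le {n : ℕ} {V : CC} (E : Eq3 n V) {j : Fin 3} {q : Fin 3 × Bool → ℤ}
    (hq : ∀ x, 0 ≤ q x)
    (hmin : ∀ X, Clo j V X → (∃ x : Fin 3 × Bool, x.1 ≠ j ∧ X x = true) →
      ∃ x : Fin 3 × Bool, x.1 ≠ j ∧ X x = true ∧ q x = 0)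
    (hn : cnt (act (pot j q) V) j = n) (x0 : Fin 3 × Bool) (hx0 : x0.1 ≠ j) : q x0 ≤ 2 := by
  by_contra hcon
  obtain ⟨v, v0, -, v1⟩ := hmin _ (clo_all j V) ⟨x0, hx0, rfl⟩
  have h3 := (pot_split E.hO (q := q) (by rw [hn, E.c]) 3).2
  rw [E.c] at h3
  have hcl : Clo j V (fun x => decide (2 ≤ q x)) := by
    refine lemS3 E (X1 := fun x => decide (1 ≤ q x)) (X2 := fun x => decide (2 ≤ q x))
      (X3 := fun x => decide (3 ≤ q x)) ?_ ?_ ⟨x0, hx0, ?_⟩ ⟨v, v0, ?_⟩ ?_
    · intro x hx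
      simp only [decide_eq_true_eq] at hx ⊢
      omega
    · intro x hx
      simp only [decide_eq_true_eq] at hx ⊢
      omega
    · simp only [decide_eq_true_eq]
      omega
    · simp only [decide_eq_false_iff_not]
      omega
    · rw [← h3]
      congr 2
      congr 1
      funext x
      simp only [Pi.add_apply, EvLem_ind]
      have := hq x
      split_ifs <;> omega
  obtain ⟨w, -, w1, w2⟩ := hmin _ hcl ⟨x0, hx0, by
    simp only [decide_eq_true_eq]
    omega⟩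
  simp only [decide_eq_true_eq] at w1
  omega

theorem lemS {n : ℕ} {V : CC} (E : Eq3 n V) {j : Fin 3} {q : Fin 3 × Bool → ℤ}
    (hq : ∀ x, 0 ≤ q x)
    (hmin : ∀ X, Clo j V X → (∃ x : Fin 3 × Bool, x.1 ≠ j ∧ X x = true) →
      ∃ x : Fin 3 × Bool, x.1 ≠ j ∧ X x = true ∧ q x = 0)
    (hn : cnt (act (pot j q) V) j = n) :
    (∀ x : Fin 3 × Bool, x.1 ≠ j → q x ≤ 2) ∧
    ((∀ x : Fin 3 × Bool, x.1 ≠ j → q x ≠ 1) → (∃ x : Fin 3 × Bool, x.1 ≠ j ∧ q x ≠ 0) →
      0 < edgS V (sgl (j, true)) (sgl (j, false))) := by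
  refine ⟨EvLem_le E hq hmin hn, ?_⟩
  rintro h1 ⟨x0, hx0, hx0'⟩
  by_contra hcon
  obtain ⟨v, v0, -, v1⟩ := hmin _ (clo_all j V) ⟨x0, hx0, rfl⟩
  have hx1 : 1 ≤ q x0 := by
    have := hq x0
    omega
  have hcl : Clo j V (fun x => decide (1 ≤ q x)) := by
    refine lemS2 E (X := fun x => decide (1 ≤ q x)) ⟨x0, hx0, ?_⟩ ⟨v, v0, ?_⟩ ?_ (by omega)
    · simp only [decide_eq_true_eq]
      exact hx1
    · simp only [decide_eq_false_iff_not]
      omega
    · rw [← hn]
      congr 1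
      apply pot_congr
      intro x hx
      simp only [EvLem_ind]
      have h2 := hq x
      have h3 := EvLem_le E hq hmin hn x hx
      have h4 := h1 x hx
      split_ifs <;> omega
  obtain ⟨w, -, w1, w2⟩ := hmin _ hcl ⟨x0, hx0, by
    simp only [decide_eq_true_eq]
    exact hx1⟩
  simp only [decide_eq_true_eq] at w1
  omega

end Pool.Agent.Sims
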