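import Pool.Agent.Sims.EvBas

/-!
# Module `EvMvE` : patterns under moves with multipliers `b^{±1}`, `c^{±1}`

* `pat_move`: `V = mk (gw port g π)`, `φ = wh y B`, `y.1 ≠ 0`, `B y = true`, `B (bar y) = false` (not needed to be level).  For `x = a^{±1}`: `φ (lett x) = (if B (bar x) then (lett y)⁻¹ else 1) * lett x * (if B x then lett y else 1)`
  (`wh_lett_ne`).  `φ` maps `⟨b, c⟩` to itself (`hom_In12`, `Good_wh`).  Put `u ε = if B (0, ε) then lett y else 1` and
  `g' k = u (port k true) * φ (g k) * (u (port k false))⁻¹`.  Then `(g' k)⁻¹ = u (port k false) * φ (g k)⁻¹ * (u (port k true))⁻¹`, so for `t = (k, d)`, with `G t = if d then g k else (g k)⁻¹` :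
  `φ (lett (0, port k d) * G t) = (u (!port k d))⁻¹ * lett (0, port k d) * G' t * u (port k (!d))`.
  By `Cons` the next element `t'` of the pattern has `port t' = !port k (!d)`, so the factor `u (port k (!d))` cancels with the first factor `(u (!port t'))⁻¹` of the next term.  Cyclically (also from the last to the first element) everything
  cancels up to conjugation: `φ (gw port g π)` is conjugate to `gw port g' π`.  (`act_mk`.  Induction on the list with the accumulated factor; the cyclic closure is the `Cons` condition for (last, first).)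
  Condition on the ports: if `port k true = port k false` then `g' k` is conjugate to `φ (g k)`, `≠ 1` since `g k ≠ 1`.
* `pat_tau`: `τ` with `Fix0 τ`: `τ.aut` fixes `a` and maps `⟨b,c⟩` to itself: `act τ.aut (mk (gw port g π)) = mk (gw port (τ g) π)`.
Difficulty 3.
-/

namespace Pool.Agent.Sims

open FreeGroup (of)

/-- one factor -/
def EvMvE_W (port : Bool → Bool → Bool) (g : Bool → FreeGroup (Fin 3)) (t : Bool × Bool) :
    FreeGroup (Fin 3) :=
  lett ((0 : Fin 3), port t.1 t.2) * (if t.2 then g t.1 else (g t.1)⁻¹)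

theorem EvMvE_gw (port : Bool → Bool → Bool) (g : Bool → FreeGroup (Fin 3))
    (π : List (Bool × Bool)) : gw port g π = (π.map (EvMvE_W port g)).prod := rfl

/-- the correction factor -/
def EvMvE_u (y : Fin 3 × Bool) (B : Ct) (ε : Bool) : FreeGroup (Fin 3) :=
  if B ((0 : Fin 3), ε) then lett y else 1

theorem EvMvE_let {y : Fin 3 × Bool} {B : Ct} (hy : y.1 ≠ 0) (ε : Bool) :
    wh y B (lett ((0 : Fin 3), ε)) =
      (EvMvE_u y B (!ε))⁻¹ * lett ((0 : Fin 3), ε) * EvMvE_u y B ε := by
  rw [wh_lett_ne y B (x := ((0 : Fin 3), ε)) (fun h => hy h.symm)]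
  unfold EvMvE_u bar
  by_cases h1 : B ((0 : Fin 3), !ε) = true
  · simp [h1]
  · simp [h1]

theorem EvMvE_fac {port : Bool → Bool → Bool} {g : Bool → FreeGroup (Fin 3)}
    {y : Fin 3 × Bool} {B : Ct} (hy : y.1 ≠ 0) (t : Bool × Bool) :
    wh y B (EvMvE_W port g t) = (EvMvE_u y B (!port t.1 t.2))⁻¹ *
      EvMvE_W port (fun k => EvMvE_u y B (port k true) * wh y B (g k) *
        (EvMvE_u y B (port k false))⁻¹) t * EvMvE_u y B (port t.1 (!t.2)) := by
  obtain ⟨k, d⟩ := t
  unfold EvMvE_W
  rw [map_mul, EvMvE_let hy]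
  cases d
  · simp only [if_false, Bool.not_false, Bool.false_eq_true, map_inv]
    group
  · simp only [if_true, Bool.not_true]
    group

theorem EvMvE_lin {port : Bool → Bool → Bool} {g : Bool → FreeGroup (Fin 3)}
    {y : Fin 3 × Bool} {B : Ct} (hy : y.1 ≠ 0) (l : List (Bool × Bool)) :
    ∀ x z : Bool × Bool,
      lin (fun t t' : Bool × Bool => if port t'.1 t'.2 = !port t.1 (!t.2) then 0 else 1) x l z = 0 →
      wh y B (((x :: l).map (EvMvE_W port g)).prod) = (EvMvE_u y B (!port x.1 x.2))⁻¹ *
        ((x :: l).map (EvMvE_W port (fun k => EvMvE_u y B (port k true) * wh y B (g k) *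
        (EvMvE_u y B (port k false))⁻¹))).prod * EvMvE_u y B (!port z.1 z.2) := by
  induction l with
  | nil =>
    intro x z h
    have h1 : port z.1 z.2 = !port x.1 (!x.2) := by
      by_contra h2
      change (if port z.1 z.2 = !port x.1 (!x.2) then 0 else 1) = 0 at h
      rw [if_neg h2] at h
      exact absurd h (by decide)
    rw [List.map_cons, List.map_nil, List.prod_cons, List.prod_nil, mul_one, List.map_cons,
      List.map_nil, List.prod_cons, List.prod_nil, mul_one, EvMvE_fac hy, h1, Bool.not_not]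
  | cons a l ih =>
    intro x z h
    have h0 : (if port a.1 a.2 = !port x.1 (!x.2) then 0 else 1) +
        lin (fun t t' : Bool × Bool => if port t'.1 t'.2 = !port t.1 (!t.2) then 0 else 1) a l z
        = 0 := h
    have h1 : port a.1 a.2 = !port x.1 (!x.2) := by
      by_contra h2
      rw [if_neg h2] at h0
      omega
    rw [if_pos h1, zero_add] at h0
    have h3 := ih a z h0
    have h4 : ∀ G : Bool → FreeGroup (Fin 3), ((x :: a :: l).map (EvMvE_W port G)).prod =
        EvMvE_W port G x * ((a :: l).map (EvMvE_W port G)).prod := by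
      intro G; rw [List.map_cons, List.prod_cons]
    rw [h4, h4, map_mul, h3, EvMvE_fac hy, h1, Bool.not_not]
    group

theorem EvMvE_u_in {y : Fin 3 × Bool} {B : Ct} (hy : y.1 ≠ 0) (ε : Bool) :
    In12 (EvMvE_u y B ε) := by
  unfold EvMvE_u
  split_ifs
  · exact In12_lett hy
  · exact In12_one

theorem pat_move {port : Bool → Bool → Bool} {π : List (Bool × Bool)} (hc : Cons port π) {V : CC}
    (h : Pat port π V) {y : Fin 3 × Bool} {B : Ct} (hy : y.1 ≠ 0) (hB : B y = true)
    (hB' : B (bar y) = false) : Pat port π (act (wh y B) V) := by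
  obtain ⟨g, hg, hg1, rfl⟩ := h
  obtain ⟨p, q, hgood⟩ := Good_wh hy B
  refine ⟨fun k => EvMvE_u y B (port k true) * wh y B (g k) * (EvMvE_u y B (port k false))⁻¹,
    fun k => In12_mul (In12_mul (EvMvE_u_in hy _) (hgood.2.2.2 _ (hg k)))
      (In12_inv (EvMvE_u_in hy _)), ?_, ?_⟩
  · intro k hk hp
    simp only at hk
    rw [hp] at hk
    have h1 : wh y B (g k) = 1 := by
      have h2 : EvMvE_u y B (port k false) * wh y B (g k) = EvMvE_u y B (port k false) :=
        mul_inv_eq_one.1 hk
      exact mul_eq_left.1 h2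
    have h3 : g k = 1 := by
      apply (wh y B).injective
      rw [h1, map_one]
    exact hg1 k h3 hp
  · rw [act_mk, ConjClasses.mk_eq_mk_iff_isConj]
    cases π with
    | nil =>
      rw [EvMvE_gw, EvMvE_gw, List.map_nil, List.map_nil, List.prod_nil, map_one]
    | cons x l =>
      have h1 := EvMvE_lin (port := port) (g := g) (B := B) hy l x x hc
      rw [EvMvE_gw, EvMvE_gw, h1]
      rw [isConj_iff]
      refine ⟨EvMvE_u y B (!port x.1 x.2), ?_⟩
      group

theorem pat_tau {port : Bool → Bool → Bool} {π : List (Bool × Bool)}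
    {g : Bool → FreeGroup (Fin 3)} (τ : SPerm (Fin 3)) (hτ : Fix0 τ) :
    act τ.aut (ConjClasses.mk (gw port g π)) =
      ConjClasses.mk (gw port (fun k => τ.aut (g k)) π) := by
  rw [act_mk]
  congr 1
  rw [EvMvE_gw, EvMvE_gw, map_list_prod, List.map_map]
  congr 1
  apply List.map_congr_left
  intro t _
  rw [Function.comp_apply]
  unfold EvMvE_W
  have h1 : ∀ ε : Bool, τ.aut (lett ((0 : Fin 3), ε)) = lett ((0 : Fin 3), ε) := by
    intro ε
    show τ.hom (lett ((0 : Fin 3), ε)) = _
    rw [SPerm.hom_lett]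
    congr 1
    unfold SPerm.letter
    simp [hτ.1, hτ.2]
  rw [map_mul, h1]
  congr 1
  cases t.2
  · simp
  · simp

end Pool.Agent.Sims
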