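import Pool.Agent.Sims.EvRep
import Pool.Agent.Sims.EvLS6

/-!
# Module `EvP10` : bounds for `EM (· = j) V`, first part

By `rep2` every `W` is `act (pot j (ind A₁ + ind A₂)) V` with level cuts `A₂ ⊆ A₁`.  A level cut is `{c}` (`c = (j, true)`), a member of `LS V c`, or everything except `c⁻¹`; the last one is
excluded for `A₁`, hence for `A₂` (`rep2` with `X` = everything, `clo_all`).
* `p10`: `edgS V {c} {c⁻¹} > 0`: by `ls_cross0` `LS V c` is a chain, so it has at most `3` members (`ls_chain3`), and with `{c}` we have a chain of at most `4` cuts; the number of pairs `A₂ ⊆ A₁` is at most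
  `4 + 3 + 2 + 1 = 10` (a pair is determined by the set `{A₁, A₂}`: `≤ C(4,2) + 4`).
* `p15`: not `Full`, `edgS V {c} {c⁻¹} = 0`.  `A₁ = A₂` is only possible for `{c}` (`rep2`).  So the number of pairs is at most `1 + ℓ + s`, `ℓ` the cardinality of `LS V c`, `s` the number of
  pairs `A₂ ⊊ A₁` in `LS V c`.  `ℓ ≤ 5` by `ls_six`.  If `LS V c` is a chain: `ℓ ≤ 3`, `s ≤ 3`: at most `7`.  Otherwise two members are incomparable: `s ≤ C(ℓ,2) - 1 ≤ 9`: at most `15`.
  (`s` is at most the number of two-element subsets of `LS V c` which are chains.)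
Difficulty 3.
-/

namespace Pool.Agent.Sims

/-- the class of an unordered pair of cuts -/
noncomputable def evp_f (j : Fin 3) (V : CC) : Sym2 Ct → CC :=
  Sym2.lift ⟨fun A B => act (pot j (ind A + ind B)) V, fun A B => by
    change act (pot j (ind A + ind B)) V = act (pot j (ind B + ind A)) V
    rw [add_comm]⟩

theorem evp_f_mk (j : Fin 3) (V : CC) (A B : Ct) :
    evp_f j V s(A, B) = act (pot j (ind A + ind B)) V := rfl

theorem evp_not_Ntr {V : CC} {j : Fin 3} {A : Ct} (hA : Lv V (j, true) A) (hN : ¬ Ntr A)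
    (hx : ∃ x : Fin 3 × Bool, x.1 ≠ j ∧ A x = false) : A = sgl (j, true) := by
  obtain ⟨x, hxj, hxA⟩ := hx
  have h1 : A (j, true) = true := hA.1
  have h2 : A (j, false) = false := hA.2.1
  have hxc : x ≠ (j, false) := by
    rintro rfl
    exact hxj rfl
  funext y
  rw [sgl]
  by_cases hy : y = (j, true)
  · rw [hy, h1]; simp
  · rw [decide_eq_false hy]
    by_contra hAy
    rw [Bool.not_eq_false] at hAy
    apply hN
    exact ⟨⟨y, (j, true), hy, hAy, h1⟩, ⟨x, (j, false), hxc, hxA, h2⟩⟩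

theorem evp_sgl_not {V : CC} {j : Fin 3} : sgl (j, true) ∉ LS V (j, true) := by
  classical
  intro h
  rw [LS, Finset.mem_filter] at h
  obtain ⟨-, -, ⟨x, y, hxy, hx, hy⟩, -⟩ := h
  rw [sgl, decide_eq_true_iff] at hx hy
  exact hxy (hx.trans hy.symm)

/-- representatives -/
theorem evp_rep {n : ℕ} {V : CC} (E : Eq3 n V) {j : Fin 3} {W : CC}
    (hW : W ∈ EM (fun i => i = j) V) : ∃ A1 A2 : Ct,
      (A1 ∈ LS V (j, true) ∨ A1 = sgl (j, true)) ∧ (A2 ∈ LS V (j, true) ∨ A2 = sgl (j, true)) ∧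
      (∀ x, A2 x = true → A1 x = true) ∧
      (A1 = A2 → Ntr A1 → 0 < edgS V (sgl (j, true)) (sgl (j, false))) ∧
      W = act (pot j (ind A1 + ind A2)) V := by
  classical
  obtain ⟨A1, A2, h1, h2, h3, h4, h5, h6⟩ := rep2 E hW
  obtain ⟨x, hx, -, hxA⟩ := h5 (fun _ => true) (clo_all j V) (by
    refine ⟨(j + 1, true), ?_, rfl⟩
    fin_cases j <;> decide)
  have hxA2 : A2 x = false := by
    by_contra h
    rw [Bool.not_eq_false] at h
    rw [h3 x h] at hxA
    exact absurd hxA (by decide)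
  refine ⟨A1, A2, ?_, ?_, h3, h4, h6⟩
  · by_cases hN : Ntr A1
    · left
      rw [LS, Finset.mem_filter]
      exact ⟨Finset.mem_univ _, h1, hN⟩
    · right
      exact evp_not_Ntr h1 hN ⟨x, hx, hxA⟩
  · by_cases hN : Ntr A2
    · left
      rw [LS, Finset.mem_filter]
      exact ⟨Finset.mem_univ _, h2, hN⟩
    · right
      exact evp_not_Ntr h2 hN ⟨x, hx, hxA2⟩

theorem evp_lv {V : CC} {j : Fin 3} {A : Ct} (h : A ∈ LS V (j, true)) :
    Lv V (j, true) A ∧ Ntr A := by
  classical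
  rw [LS, Finset.mem_filter] at h
  exact h.2

theorem p10 {n : ℕ} {V : CC} (E : Eq3 n V) {j : Fin 3}
    (he : 0 < edgS V (sgl (j, true)) (sgl (j, false))) : Cov (EM (fun i => i = j) V) 10 := by
  classical
  have hchain : ∀ A ∈ LS V (j, true), ∀ B ∈ LS V (j, true), (∀ x, A x = true → B x = true) ∨
      (∀ x, B x = true → A x = true) := by
    intro A hA B hB
    by_contra hcon
    push Not at hcon
    obtain ⟨⟨x, hx1, hx2⟩, ⟨y, hy1, hy2⟩⟩ := hcon
    have := ls_cross0 E (evp_lv hA).1 (evp_lv hB).1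
      ⟨x, hx1, by simpa using hx2⟩ ⟨y, by simpa using hy2, hy1⟩
    have hb : bar ((j, true) : Fin 3 × Bool) = (j, false) := rfl
    rw [hb] at this
    omega
  have h3 := ls_chain3 hchain
  set L' := insert (sgl (j, true)) (LS V (j, true)) with hL'
  have hc : L'.card ≤ 4 := (Finset.card_insert_le _ _).trans (by omega)
  refine ⟨L'.sym2.image (evp_f j V), ?_, ?_⟩
  · refine Finset.card_image_le.trans ?_
    rw [Finset.card_sym2]
    calc Nat.choose (L'.card + 1) 2 ≤ Nat.choose 5 2 := Nat.choose_le_choose 2 (by omega)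
      _ = 10 := by decide
  · intro W hW
    obtain ⟨A1, A2, h1, h2, -, -, h6⟩ := evp_rep E hW
    rw [Finset.mem_image]
    refine ⟨s(A1, A2), ?_, ?_⟩
    · rw [Finset.mk_mem_sym2_iff, hL', Finset.mem_insert, Finset.mem_insert]
      exact ⟨h1.symm, h2.symm⟩
    · rw [evp_f_mk, h6]

theorem evp_count {V : CC} {j : Fin 3} (h5 : (LS V (j, true)).card ≤ 5) :
    ∃ P : Finset (Sym2 Ct), P.card + (LS V (j, true)).card ≤ 14 ∧
      ∀ A ∈ LS V (j, true), ∀ B ∈ LS V (j, true), A ≠ B → (∀ x, A x = true → B x = true) →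
        s(A, B) ∈ P := by
  classical
  set L := LS V (j, true) with hL
  have hoff := Sym2.card_image_offDiag L
  by_cases hch : ∀ A ∈ L, ∀ B ∈ L, (∀ x, A x = true → B x = true) ∨
      (∀ x, B x = true → A x = true)
  · have h3 := ls_chain3 hch
    refine ⟨L.offDiag.image Sym2.mk.uncurry, ?_, ?_⟩
    · rw [hoff]
      have h1 : Nat.choose L.card 2 ≤ Nat.choose 3 2 := Nat.choose_le_choose 2 h3
      have h2 : Nat.choose 3 2 = 3 := by decide
      omega
    · intro A hA B hB hAB _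
      rw [Finset.mem_image]
      exact ⟨(A, B), by rw [Finset.mem_offDiag]; exact ⟨hA, hB, hAB⟩, rfl⟩
  · push Not at hch
    obtain ⟨A0, hA0, B0, hB0, ⟨x, hx1, hx2⟩, ⟨y, hy1, hy2⟩⟩ := hch
    have hne : A0 ≠ B0 := by
      rintro rfl
      exact hx2 hx1
    have hmem : s(A0, B0) ∈ L.offDiag.image Sym2.mk.uncurry := by
      rw [Finset.mem_image]
      exact ⟨(A0, B0), by rw [Finset.mem_offDiag]; exact ⟨hA0, hB0, hne⟩, rfl⟩
    refine ⟨(L.offDiag.image Sym2.mk.uncurry).erase s(A0, B0), ?_, ?_⟩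
    · rw [Finset.card_erase_of_mem hmem, hoff]
      have h1 : Nat.choose L.card 2 ≤ Nat.choose 5 2 := Nat.choose_le_choose 2 h5
      have h2 : Nat.choose 5 2 = 10 := by decide
      omega
    · intro A hA B hB hAB hsub
      rw [Finset.mem_erase, Finset.mem_image]
      refine ⟨?_, (A, B), by rw [Finset.mem_offDiag]; exact ⟨hA, hB, hAB⟩, rfl⟩
      intro h
      rw [Sym2.eq_iff] at h
      rcases h with ⟨rfl, rfl⟩ | ⟨rfl, rfl⟩
      · exact hx2 (hsub x hx1)
      · exact hy2 (hsub y hy1)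

theorem p15 {n : ℕ} {V : CC} (E : Eq3 n V) {j : Fin 3} (hF : ¬ Full n V)
    (he : edgS V (sgl (j, true)) (sgl (j, false)) = 0) : Cov (EM (fun i => i = j) V) 15 := by
  classical
  have h5 : (LS V (j, true)).card ≤ 5 := by
    by_contra h
    exact hF (ls_six E (j, true) (by omega))
  obtain ⟨P, hP1, hP2⟩ := evp_count h5
  obtain ⟨c, hc⟩ : ∃ c, c = sgl ((j, true) : Fin 3 × Bool) := ⟨_, rfl⟩
  obtain ⟨Q, hQ⟩ : ∃ Q : Finset (Sym2 Ct), Q = insert s(c, c) ((LS V (j, true)).image (fun A => s(A, c)) ∪ P) := ⟨_, rfl⟩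
  have hQc : Q.card ≤ 15 := by
    have h1 : ((LS V (j, true)).image (fun A => s(A, c))).card ≤ (LS V (j, true)).card :=
      Finset.card_image_le
    have h2 := Finset.card_union_le ((LS V (j, true)).image (fun A => s(A, c))) P
    have h3 := Finset.card_insert_le s(c, c) ((LS V (j, true)).image (fun A => s(A, c)) ∪ P)
    rw [hQ]
    omega
  refine ⟨Q.image (evp_f j V), Finset.card_image_le.trans hQc, ?_⟩
  intro W hW
  obtain ⟨A1, A2, h1, h2, h3, h4, h6⟩ := evp_rep E hW
  rw [Finset.mem_image]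
  refine ⟨s(A1, A2), ?_, by rw [evp_f_mk, h6]⟩
  rw [hQ, Finset.mem_insert, Finset.mem_union, Finset.mem_image]
  rcases h2 with h2 | h2
  · rcases h1 with h1 | h1
    · have hne : A2 ≠ A1 := by
        intro h
        have := h4 h.symm (evp_lv h1).2
        omega
      right; right
      rw [Sym2.eq_swap]
      exact hP2 A2 h2 A1 h1 hne h3
    · exfalso
      obtain ⟨x, y, hxy, hx, hy⟩ := (evp_lv h2).2.1
      have e1 := h3 x hx
      have e2 := h3 y hy
      rw [h1, sgl, decide_eq_true_iff] at e1 e2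
      exact hxy (e1.trans e2.symm)
  · rcases h1 with h1 | h1
    · right; left
      exact ⟨A1, h1, by rw [h2, hc]⟩
    · left
      rw [h1, h2, hc]

end Pool.Agent.Sims
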