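import Pool.Agent.Sims.EvP10
import Pool.Agent.Sims.EvFX

/-!
# Module `EvPF` : bounds for `EM (· = j) V`, `V` full

`r` as in `Full`; `c = (j, true)`, `c⁻¹ = (j, false)`.  Rotating (`i ↦ i + k`) and reflecting (`i ↦ -i`) `r` we may assume `r 0 = c`, `r d = c⁻¹`, `d ∈ {1, 2, 3}`.
`d = 1`: `edgS V {c} {c⁻¹} > 0`: `p10`.  Now `d = 2, 3`: `edgS V {c} {c⁻¹} = 0` (`full_zero`).
Let `X = {r 1}` (`d = 2`) or `{r 1, r 2}` (`d = 3`), `A = c ∪ X`.  `A` is an arc, so it is a level `c`-cut (`full_two`).  The letters of `X` have no edges to the letters `≠ c^{±1}` outside of `X`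
(`full_zero`, `edgS_split`), so if `edgS V' {c} {c⁻¹} = 0` for `V' = act (wh c A) V` then `Clo j V X` (`cl`, `clo_congr`), and by `clo_compl` (and `clo_congr`) also the set `X'` of the other letters `≠ c^{±1}` is closed.
If `edgS V' {c} {c⁻¹} > 0`: `p10` at `V'`, and `EM (· = j) V' = EM (· = j) V` (`EM_eq`).
If `X` and `X'` are closed: `rep2`: `A₂ ⊆ A₁` are level cuts, and `A₁` contains neither `X` nor `X'`.  By `full_two` a level cut is an arc containing `r 0` and not `r d`: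
* `d = 2`: `A₁ ∈ {{r0}, {r0,r5}, {r0,r5,r4}}` (not containing `r1`, nor all of `r3, r4, r5`): at most `3 + 2 + 1 = 6` pairs;
* `d = 3`: `A₁ ∈ {{r0}, {r0,r1}, {r0,r5}, {r5,r0,r1}}`: at most `9` pairs `A₂ ⊆ A₁`.
So at most `10` classes.
* `pbd`: if some `W ∈ EM (· = j) V` is full: `pF` at `W`, `EM_eq`.  Otherwise `p10` or `p15` (`cov_mono`).
Difficulty 3.
-/

namespace Pool.Agent.Sims

theorem EvPF_zero {V : CC} {P Q : Ct}
    (h : ∀ x y, P x = true → Q y = true → edgS V (sgl x) (sgl y) = 0) : edgS V P Q = 0 := by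
  by_contra hne
  have hpos : 0 < edgS V P Q := Nat.pos_of_ne_zero hne
  unfold edgS at hpos
  rcases EdgeM_cyc_pos _ _ hpos with ⟨x, h1, h2⟩ | ⟨x, y, l, h1, h2⟩
  · split_ifs at h2 with h3
    · have key : ∀ p q : Fin 3 × Bool, edgS V (sgl p) (sgl q) = 0 →
          ¬ (sgl p x && sgl q (bar x)) = true ∧ ¬ (sgl q x && sgl p (bar x)) = true := by
        intro p q hpq
        unfold edgS at hpq
        rw [h1] at hpq
        change (if (sgl p x && sgl q (bar x)) || (sgl q x && sgl p (bar x)) then 1 else 0) = 0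
          at hpq
        split_ifs at hpq with h5
        simp only [Bool.or_eq_true, not_or] at h5
        exact h5
      simp only [Bool.or_eq_true, Bool.and_eq_true] at h3
      rcases h3 with ⟨p1, p2⟩ | ⟨p1, p2⟩
      · exact (key _ _ (h x (bar x) p1 p2)).1 (by simp [sgl])
      · exact (key _ _ (h (bar x) x p2 p1)).2 (by simp [sgl])
    · exact absurd h2 (lt_irrefl _)
  · split_ifs at h2 with h3
    · have key : ∀ p q : Fin 3 × Bool, edgS V (sgl p) (sgl q) = 0 →
          ¬ (sgl p x && sgl q (bar y)) = true ∧ ¬ (sgl q x && sgl p (bar y)) = true := by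
        intro p q hpq
        unfold edgS at hpq
        rw [cyc_rotated _ h1] at hpq
        have h4 : (if (sgl p x && sgl q (bar y)) || (sgl q x && sgl p (bar y)) then 1 else 0) +
            lin (fun x y => if (sgl p x && sgl q (bar y)) || (sgl q x && sgl p (bar y)) then 1
              else 0) y l x = 0 := hpq
        have h6 : (if (sgl p x && sgl q (bar y)) || (sgl q x && sgl p (bar y)) then 1 else 0) = 0 := by
          omega
        split_ifs at h6 with h5
        simp only [Bool.or_eq_true, not_or] at h5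
        exact h5
      simp only [Bool.or_eq_true, Bool.and_eq_true] at h3
      rcases h3 with ⟨p1, p2⟩ | ⟨p1, p2⟩
      · exact (key _ _ (h x (bar y) p1 p2)).1 (by simp [sgl])
      · exact (key _ _ (h (bar y) x p2 p1)).2 (by simp [sgl])
    · exact absurd h2 (lt_irrefl _)

/-- cuts allowed for `A₁`, `A₂` -/
def EvPF_good (d : Fin 6) (I b : Fin 6 → Bool) : Prop :=
  (Finset.univ.filter (fun i => b i ≠ b (i + 1))).card = 2 ∧
    (∃ i, i ≠ 0 ∧ i ≠ d ∧ I i = true ∧ b i = false) ∧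
    (∃ i, i ≠ 0 ∧ i ≠ d ∧ I i = false ∧ b i = false)

instance (d : Fin 6) (I b : Fin 6 → Bool) : Decidable (EvPF_good d I b) := by
  unfold EvPF_good; infer_instance

/-- the pairs -/
def EvPF_T (d : Fin 6) (I : Fin 6 → Bool) (vec : Bool × Bool × Bool × Bool → Fin 6 → Bool) :
    Finset ((Bool × Bool × Bool × Bool) × (Bool × Bool × Bool × Bool)) :=
  ((Finset.univ.filter (fun b => EvPF_good d I (vec b))) ×ˢ
    (Finset.univ.filter (fun b => EvPF_good d I (vec b)))).filter
      (fun p => ∀ i, vec p.2 i = true → vec p.1 i = true)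

theorem EvPF_cov {n : ℕ} {V : CC} (E : Eq3 n V) {j : Fin 3} (e : Fin 6 ≃ Fin 3 × Bool)
    (he : ∀ i, 2 * edgS V (sgl (e i)) (sgl (e (i + 1))) = n) {d : Fin 6}
    (h0 : e 0 = (j, true)) (hd : e d = (j, false)) (I : Fin 6 → Bool)
    (hI : ∃ i, i ≠ 0 ∧ i ≠ d ∧ I i = true) (hI' : ∃ i, i ≠ 0 ∧ i ≠ d ∧ I i = false)
    (hClo : Clo j V (fun x => I (e.symm x))) (vec : Bool × Bool × Bool × Bool → Fin 6 → Bool)
    (hvec : ∀ b : Fin 6 → Bool, b 0 = true → b d = false → ∃ q, vec q = b)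
    (hcard : (EvPF_T d I vec).card ≤ 10) : Cov (EM (fun i => i = j) V) 10 := by
  classical
  refine ⟨(EvPF_T d I vec).image (fun p => act (pot j (ind (fun x => vec p.1 (e.symm x)) +
    ind (fun x => vec p.2 (e.symm x)))) V), Finset.card_image_le.trans hcard, ?_⟩
  intro W hW
  obtain ⟨A1, A2, hA1, hA2, hsub, -, hX, hWe⟩ := rep2 E hW
  have hfst : ∀ i, (e i).1 ≠ j ↔ (i ≠ 0 ∧ i ≠ d) := by
    intro i
    constructor
    · intro h
      constructor
      · rintro rfl
        exact h (by rw [h0])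
      · rintro rfl
        exact h (by rw [hd])
    · rintro ⟨h1, h2⟩ h
      rcases hb : (e i).2 with _ | _
      · apply h2
        apply e.injective
        rw [hd]
        exact Prod.ext h hb
      · apply h1
        apply e.injective
        rw [h0]
        exact Prod.ext h hb
  obtain ⟨x1, hx1, hx1', hx1''⟩ := hX _ hClo (by
    obtain ⟨i, hi1, hi2, hi3⟩ := hI
    exact ⟨e i, (hfst i).2 ⟨hi1, hi2⟩, by simpa using hi3⟩)
  obtain ⟨x2, hx2, hx2', hx2''⟩ := hX _ (clo_compl hClo) (by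
    obtain ⟨i, hi1, hi2, hi3⟩ := hI'
    exact ⟨e i, (hfst i).2 ⟨hi1, hi2⟩, by simpa using hi3⟩)
  have hz1 := (Lv_NC E).1 hA1
  have hz2 := (Lv_NC E).1 hA2
  obtain ⟨q1, hq1⟩ := hvec (fun i => A1 (e i)) (by rw [h0]; exact hz1.1) (by
    rw [hd]; exact hz1.2.1)
  obtain ⟨q2, hq2⟩ := hvec (fun i => A2 (e i)) (by rw [h0]; exact hz2.1) (by
    rw [hd]; exact hz2.2.1)
  have hf : ∀ x, A1 x = false → A2 x = false := by
    intro x hx
    cases h : A2 x
    · rfl
    · rw [hsub x h] at hx; exact absurd hx (by simp)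
  have g1 : EvPF_good d I (vec q1) := by
    rw [hq1]
    refine ⟨(full_two E e.injective he A1).1 hz1.2.2.2, ⟨e.symm x1, ?_, ?_, ?_, ?_⟩,
      ⟨e.symm x2, ?_, ?_, ?_, ?_⟩⟩
    · exact ((hfst _).1 (by simpa using hx1)).1
    · exact ((hfst _).1 (by simpa using hx1)).2
    · simpa using hx1'
    · simpa using hx1''
    · exact ((hfst _).1 (by simpa using hx2)).1
    · exact ((hfst _).1 (by simpa using hx2)).2
    · simpa using hx2'
    · simpa using hx2''
  have g2 : EvPF_good d I (vec q2) := by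
    rw [hq2]
    refine ⟨(full_two E e.injective he A2).1 hz2.2.2.2, ⟨e.symm x1, ?_, ?_, ?_, ?_⟩,
      ⟨e.symm x2, ?_, ?_, ?_, ?_⟩⟩
    · exact ((hfst _).1 (by simpa using hx1)).1
    · exact ((hfst _).1 (by simpa using hx1)).2
    · simpa using hx1'
    · simpa using hf _ hx1''
    · exact ((hfst _).1 (by simpa using hx2)).1
    · exact ((hfst _).1 (by simpa using hx2)).2
    · simpa using hx2'
    · simpa using hf _ hx2''
  refine Finset.mem_image.2 ⟨(q1, q2), ?_, ?_⟩
  · unfold EvPF_T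
    simp only [Finset.mem_filter, Finset.mem_product, Finset.mem_univ, true_and]
    refine ⟨⟨g1, g2⟩, ?_⟩
    intro i hi
    rw [hq2] at hi
    rw [hq1]
    exact hsub _ hi
  · beta_reduce
    rw [hWe]
    simp only [hq1, hq2, Equiv.apply_symm_apply]

/-- closed arcs -/
theorem EvPF_arc {n : ℕ} {V : CC} (E : Eq3 n V) {j : Fin 3} (e : Fin 6 ≃ Fin 3 × Bool)
    (he : ∀ i, 2 * edgS V (sgl (e i)) (sgl (e (i + 1))) = n) {d : Fin 6}
    (h0 : e 0 = (j, true)) (hd : e d = (j, false)) (I : Fin 6 → Bool)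
    (hd2 : d ≠ 0 ∧ d ≠ 1 ∧ (0 : Fin 6) ≠ d + 1)
    (hI0 : I 0 = true) (hId : I d = false)
    (hI2 : (Finset.univ.filter (fun i => I i ≠ I (i + 1))).card = 2)
    (hI : ∃ i, i ≠ 0 ∧ i ≠ d ∧ I i = true) (hI' : ∃ i, i ≠ 0 ∧ i ≠ d ∧ I i = false)
    (hII : ∀ a b : Fin 6, a ≠ 0 → a ≠ d → b ≠ 0 → b ≠ d → I a = true → I b = false →
      b ≠ a ∧ b ≠ a + 1 ∧ a ≠ b + 1)
    (vec : Bool × Bool × Bool × Bool → Fin 6 → Bool)
    (hvec : ∀ b : Fin 6 → Bool, b 0 = true → b d = false → ∃ q, vec q = b)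
    (hcard : (EvPF_T d I vec).card ≤ 10) : Cov (EM (fun i => i = j) V) 10 := by
  have hA : Lv V (j, true) (fun x => I (e.symm x)) := by
    rw [Lv_NC E]
    refine ⟨?_, ?_, ⟨?_, ?_⟩, ?_⟩
    · rw [← h0]; simpa using hI0
    · have : bar ((j, true) : Fin 3 × Bool) = (j, false) := rfl
      rw [this, ← hd]; simpa using hId
    · exact ⟨e 0, by simpa using hI0⟩
    · exact ⟨e d, by simpa using hId⟩
    · rw [full_two E e.injective he]
      simpa using hI2
  have hnj : ∀ x : Fin 3 × Bool, x.1 ≠ j → e.symm x ≠ 0 ∧ e.symm x ≠ d := by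
    intro x hx
    constructor
    · intro h
      apply hx
      have : x = e 0 := by rw [← h]; simp
      rw [this, h0]
    · intro h
      apply hx
      have : x = e d := by rw [← h]; simp
      rw [this, hd]
  by_cases hV' : edgS (act (wh (j, true) (fun x => I (e.symm x))) V) (sgl (j, true))
      (sgl (j, false)) = 0
  · have hc : Clo j V (fun x => I (e.symm x)) := by
      apply cl E hA _ _ hV'
      · apply EvPF_zero
        intro x y hx hy
        simp only [rs, Bool.and_eq_true, decide_eq_true_eq, Bool.not_eq_true'] at hx hy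
        obtain ⟨a1, a2⟩ := hnj x hx.2
        obtain ⟨b1, b2⟩ := hnj y hy.2
        obtain ⟨c1, c2, c3⟩ := hII _ _ a1 a2 b1 b2 hx.1 hy.1
        have := full_zero E e.injective he c1 c2 c3
        simpa using this
      · rw [← h0, ← hd]
        exact full_zero E e.injective he hd2.1 (by simpa using hd2.2.1) hd2.2.2
    exact EvPF_cov E e he h0 hd I hI hI' hc vec hvec hcard
  · have h1 : act (wh (j, true) (fun x => I (e.symm x))) V ∈ EM (fun i => i = j) V :=
      EM_step (EM_refl _ _) rfl hA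
    have := p10 (E.lv hA) (Nat.pos_of_ne_zero hV')
    rwa [EM_eq h1] at this

theorem EvPF_two {n : ℕ} {V : CC} (E : Eq3 n V) {j : Fin 3} (e : Fin 6 ≃ Fin 3 × Bool)
    (he : ∀ i, 2 * edgS V (sgl (e i)) (sgl (e (i + 1))) = n)
    (h0 : e 0 = (j, true)) (hd : e 2 = (j, false)) : Cov (EM (fun i => i = j) V) 10 := by
  refine EvPF_arc E e he h0 hd ![true, true, false, false, false, false] (by decide) rfl rfl
    (by decide) (by decide) (by decide) (by decide)
    (fun q => ![true, q.1, false, q.2.1, q.2.2.1, q.2.2.2]) ?_ (by decide)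
  intro b hb0 hb2
  refine ⟨(b 1, b 3, b 4, b 5), ?_⟩
  funext i
  fin_cases i
  · exact hb0.symm
  · rfl
  · exact hb2.symm
  · rfl
  · rfl
  · rfl

theorem EvPF_three {n : ℕ} {V : CC} (E : Eq3 n V) {j : Fin 3} (e : Fin 6 ≃ Fin 3 × Bool)
    (he : ∀ i, 2 * edgS V (sgl (e i)) (sgl (e (i + 1))) = n)
    (h0 : e 0 = (j, true)) (hd : e 3 = (j, false)) : Cov (EM (fun i => i = j) V) 10 := by
  refine EvPF_arc E e he h0 hd ![true, true, true, false, false, false] (by decide) rfl rfl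
    (by decide) (by decide) (by decide) (by decide)
    (fun q => ![true, q.1, q.2.1, false, q.2.2.1, q.2.2.2]) ?_ (by decide)
  intro b hb0 hb2
  refine ⟨(b 1, b 2, b 4, b 5), ?_⟩
  funext i
  fin_cases i
  · exact hb0.symm
  · rfl
  · rfl
  · exact hb2.symm
  · rfl
  · rfl

theorem EvPF_one {n : ℕ} {V : CC} (E : Eq3 n V) {j : Fin 3} (e : Fin 6 ≃ Fin 3 × Bool)
    (he : ∀ i, 2 * edgS V (sgl (e i)) (sgl (e (i + 1))) = n)
    (h0 : e 0 = (j, true)) (hd : e 1 = (j, false)) : Cov (EM (fun i => i = j) V) 10 := by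
  apply p10 E
  have := he 0
  rw [zero_add, h0, hd] at this
  have h4 := E.h4
  omega

theorem pF {n : ℕ} {V : CC} (E : Eq3 n V) {j : Fin 3} (hF : Full n V) :
    Cov (EM (fun i => i = j) V) 10 := by
  obtain ⟨r, hr, he⟩ := hF
  have hbij : Function.Bijective r := by
    rw [Fintype.bijective_iff_injective_and_card]
    exact ⟨hr, by simp⟩
  obtain ⟨k, hk⟩ := hbij.2 (j, true)
  -- rotate
  let e1 : Fin 6 ≃ Fin 3 × Bool := (Equiv.addRight k).trans (Equiv.ofBijective r hbij)
  have he1 : ∀ i, e1 i = r (i + k) := fun i => rfl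
  have h10 : e1 0 = (j, true) := by rw [he1, zero_add, hk]
  have hedge1 : ∀ i, 2 * edgS V (sgl (e1 i)) (sgl (e1 (i + 1))) = n := by
    intro i
    rw [he1, he1, add_right_comm]
    exact he _
  -- reflect
  let e2 : Fin 6 ≃ Fin 3 × Bool := (Equiv.neg (Fin 6)).trans e1
  have he2 : ∀ i, e2 i = e1 (-i) := fun i => rfl
  have h20 : e2 0 = (j, true) := by rw [he2, neg_zero, h10]
  have hedge2 : ∀ i, 2 * edgS V (sgl (e2 i)) (sgl (e2 (i + 1))) = n := by
    intro i
    rw [he2, he2, edgS_comm]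
    have := hedge1 (-(i + 1))
    have h3 : ∀ i : Fin 6, -(i + 1) + 1 = -i := by decide
    rwa [h3] at this
  obtain ⟨l, hl⟩ : ∃ l, e1 l = (j, false) := ⟨e1.symm (j, false), by simp⟩
  have hl0 : l ≠ 0 := by
    rintro rfl
    rw [h10] at hl
    simp at hl
  have hcases : l = 1 ∨ l = 2 ∨ l = 3 ∨ l = -1 ∨ l = -2 := by
    clear hl
    revert l; decide
  rcases hcases with rfl | rfl | rfl | rfl | rfl
  · exact EvPF_one E e1 hedge1 h10 hl
  · exact EvPF_two E e1 hedge1 h10 hl
  · exact EvPF_three E e1 hedge1 h10 hl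
  · exact EvPF_one E e2 hedge2 h20 (by rw [he2, hl])
  · exact EvPF_two E e2 hedge2 h20 (by rw [he2, hl])

theorem pbd {n : ℕ} {V : CC} (E : Eq3 n V) (j : Fin 3) :
    Cov (EM (fun i => i = j) V) 10 ∨
      (Cov (EM (fun i => i = j) V) 15 ∧ ∀ W ∈ EM (fun i => i = j) V, ¬ Full n W) := by
  by_cases h : ∃ W ∈ EM (fun i => i = j) V, Full n W
  · left
    obtain ⟨W, hW, hF⟩ := h
    have := pF (E.em hW) (j := j) hF
    rwa [EM_eq hW] at this
  · have h' : ∀ W ∈ EM (fun i => i = j) V, ¬ Full n W := fun W hW hF => h ⟨W, hW, hF⟩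
    by_cases he : edgS V (sgl (j, true)) (sgl (j, false)) = 0
    · right
      exact ⟨p15 E (h' V (EM_refl _ _)) he, h'⟩
    · left
      exact p10 E (Nat.pos_of_ne_zero he)

end Pool.Agent.Sims
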