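import Pool.Agent.Sims.EvLem
import Pool.Agent.Sims.EvEM

/-!
# Module `EvRep` : representatives of the classes in `EM (fun i => i = j) V`

* `em_pot`: every `W ∈ EM (· = j) V` is `act (pot j q) V` for some `q` with `q x = 0` for `x.1 = j`, and has `cnt W j = n`: induction; `wh z A = pot z.1 (whp z A)`, `pot_add`, `pot_congr`; the counts are those
  of `V` (`Eq3.em`).
* `minrep`: among all `q` with `W = act (pot j q) V`, `0 ≤ q` everywhere, `q x = 0` for `x.1 = j`, take one with minimal sum over the letters (nonnegative integers; existence: add a constant to a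
  potential given by `em_pot`, `pot_const`, `pot_congr`).  If `X` is closed, contains a letter `≠ x_j^{±1}`, and `q ≥ 1` on the letters `≠ x_j^{±1}` of `X`, then `q - 1_X` (restricted to the letters `≠ x_j^{±1}`) is
  a smaller one.
* `rep2`: `lemS` for the potential of `minrep`: `q ≤ 2`.  `A₁ = c ∪ {q ≥ 1}`, `A₂ = c ∪ {q ≥ 2}` (`c = (j, true)`; `c⁻¹` is in none of them).  They are level cuts by `pot_split` (`min q 1`, `max (q - 1) 0`)
  and `pot_Lv` (for `A₂ = {c}`: `capC_sgl`), and `ind A₁ + ind A₂ = q` on the letters `≠ x_j^{±1}` (`pot_congr`).  If `A₁ = A₂` is nontrivial, `q` takes only the values `0, 2` on these letters.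
Difficulty 2.
-/

namespace Pool.Agent.Sims

theorem em_pot {n : ℕ} {V : CC} (E : Eq3 n V) {j : Fin 3} {W : CC}
    (hW : W ∈ EM (fun i => i = j) V) : cnt W j = n ∧ ∃ q : Fin 3 × Bool → ℤ,
      (∀ x : Fin 3 × Bool, x.1 = j → q x = 0) ∧ W = act (pot j q) V := by
  refine ⟨(E.em hW).c j, ?_⟩
  have h : Relation.ReflTransGen (StM (fun i => i = j)) V W := hW
  clear hW
  induction h with
  | refl => exact ⟨0, fun x _ => rfl, (pot_zero j V).symm⟩
  | tail _ hst ih =>
    obtain ⟨q, hq, rfl⟩ := ih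
    obtain ⟨z, A, hz, -, rfl⟩ := hst
    subst hz
    refine ⟨fun x => if x.1 = z.1 then 0 else (whp z A + q) x, fun x hx => if_pos hx, ?_⟩
    have h1 : act (wh z A) (act (pot z.1 q) V) = act (pot z.1 (whp z A + q)) V := by
      unfold wh
      rw [pot_add]
    rw [h1]
    apply pot_congr
    intro x hx
    rw [if_neg hx]

theorem minrep {n : ℕ} {V : CC} (E : Eq3 n V) {j : Fin 3} {W : CC}
    (hW : W ∈ EM (fun i => i = j) V) : ∃ q : Fin 3 × Bool → ℤ, (∀ x, 0 ≤ q x) ∧
      (∀ x : Fin 3 × Bool, x.1 = j → q x = 0) ∧ W = act (pot j q) V ∧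
      cnt (act (pot j q) V) j = n ∧
      ∀ X, Clo j V X → (∃ x : Fin 3 × Bool, x.1 ≠ j ∧ X x = true) →
        ∃ x : Fin 3 × Bool, x.1 ≠ j ∧ X x = true ∧ q x = 0 := by
  classical
  obtain ⟨hc, q0, hq0, hW0⟩ := em_pot E hW
  let S : ℕ → Prop := fun N => ∃ q : Fin 3 × Bool → ℤ, (∀ x, 0 ≤ q x) ∧
    (∀ x : Fin 3 × Bool, x.1 = j → q x = 0) ∧ W = act (pot j q) V ∧ ∑ x, q x = (N : ℤ)
  have hS : ∃ N, S N := by
    set k : ℤ := ∑ x, |q0 x| with hk
    have hle : ∀ x, |q0 x| ≤ k := fun x =>
      Finset.single_le_sum (f := fun x => |q0 x|) (fun y _ => abs_nonneg _) (Finset.mem_univ x)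
    have hnn : ∀ x, 0 ≤ (fun x : Fin 3 × Bool => if x.1 = j then (0 : ℤ) else q0 x + k) x := by
      intro x
      by_cases hx : x.1 = j
      · simp [hx]
      · have h1 := hle x
        have h2 := neg_abs_le (q0 x)
        simp only [hx, if_false]
        omega
    refine ⟨(∑ x, (fun x : Fin 3 × Bool => if x.1 = j then (0 : ℤ) else q0 x + k) x).toNat,
      fun x => if x.1 = j then 0 else q0 x + k, hnn, fun x hx => if_pos hx, ?_, ?_⟩
    · rw [hW0]
      symm
      apply pot_const k
      intro x hx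
      rw [if_neg hx]
    · rw [Int.toNat_of_nonneg (Finset.sum_nonneg fun x _ => hnn x)]
  obtain ⟨q, h1, h2, h3, h4⟩ := Nat.find_spec hS
  refine ⟨q, h1, h2, h3, by rw [← h3]; exact hc, ?_⟩
  intro X hX hx
  by_contra hcon
  obtain ⟨x0, hx0, hx0'⟩ := hx
  have hge : ∀ x : Fin 3 × Bool, x.1 ≠ j → X x = true → 1 ≤ q x := by
    intro x hxj hXx
    have h5 := h1 x
    by_contra h6
    exact hcon ⟨x, hxj, hXx, by omega⟩
  set q' : Fin 3 × Bool → ℤ := fun x => if x.1 = j then 0 else q x - ind X x with hq'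
  have hnn : ∀ x, 0 ≤ q' x := by
    intro x
    rw [hq']
    by_cases hxj : x.1 = j
    · simp [hxj]
    · simp only [hxj, if_false]
      have h5 := h1 x
      by_cases hXx : X x = true
      · have h6 := hge x hxj hXx
        simp only [ind, hXx, if_true]
        omega
      · simp only [ind, hXx]
        simp
        exact h5
  have hle : ∀ x, q' x ≤ q x := by
    intro x
    rw [hq']
    by_cases hxj : x.1 = j
    · simp only [hxj, if_true]
      exact h1 x
    · simp only [hxj, if_false]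
      have : 0 ≤ ind X x := by
        unfold ind
        split_ifs <;> omega
      omega
  have hlt : q' x0 < q x0 := by
    rw [hq']
    simp only [hx0, if_false, ind, hx0', if_true]
    omega
  have hsum : ∑ x, q' x < ∑ x, q x :=
    Finset.sum_lt_sum (fun x _ => hle x) ⟨x0, Finset.mem_univ _, hlt⟩
  have hW' : W = act (pot j q') V := by
    rw [h3, ← hX q']
    apply pot_congr
    intro x hx
    rw [hq']
    simp only [Pi.add_apply, hx, if_false]
    omega
  have hpos : 0 ≤ ∑ x, q' x := Finset.sum_nonneg fun x _ => hnn x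
  have hmin := Nat.find_min' hS (m := (∑ x, q' x).toNat)
    ⟨q', hnn, fun x hx => if_pos hx, hW', by rw [Int.toNat_of_nonneg hpos]⟩
  rw [h4] at hsum
  omega

theorem rep2 {n : ℕ} {V : CC} (E : Eq3 n V) {j : Fin 3} {W : CC}
    (hW : W ∈ EM (fun i => i = j) V) : ∃ A1 A2 : Ct, Lv V (j, true) A1 ∧ Lv V (j, true) A2 ∧
      (∀ x, A2 x = true → A1 x = true) ∧
      (A1 = A2 → Ntr A1 → 0 < edgS V (sgl (j, true)) (sgl (j, false))) ∧
      (∀ X, Clo j V X → (∃ x : Fin 3 × Bool, x.1 ≠ j ∧ X x = true) →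
        ∃ x : Fin 3 × Bool, x.1 ≠ j ∧ X x = true ∧ A1 x = false) ∧
      W = act (pot j (ind A1 + ind A2)) V := by
  obtain ⟨q, h1, h2, h3, h4, h5⟩ := minrep E hW
  obtain ⟨h6, h7⟩ := lemS E h1 h5 h4
  have hcV : cnt V j = n := E.c j
  have h4' : cnt (act (pot j q) V) j = cnt V j := by rw [h4, hcV]
  obtain ⟨hs2, hs1⟩ := pot_split E.hO h4' 1
  have hjt : q (j, true) = 0 := h2 _ rfl
  have hjf : q (j, false) = 0 := h2 _ rfl
  have hne : ∀ x : Fin 3 × Bool, x.1 ≠ j → x ≠ (j, true) := by
    rintro x hx rfl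
    exact hx rfl
  have e1 : ∀ x : Fin 3 × Bool, x.1 ≠ j →
      ind (fun x => decide (x = (j, true)) || decide (1 ≤ q x)) x = min (q x) 1 := by
    intro x hx
    have := h1 x
    unfold ind
    simp only [hne x hx, decide_false, Bool.false_or, decide_eq_true_eq]
    split_ifs <;> omega
  have e2 : ∀ x : Fin 3 × Bool, x.1 ≠ j →
      ind (fun x => decide (x = (j, true)) || decide (2 ≤ q x)) x = max (q x - 1) 0 := by
    intro x hx
    have := h1 x
    have := h6 x hx
    unfold ind
    simp only [hne x hx, decide_false, Bool.false_or, decide_eq_true_eq]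
    split_ifs <;> omega
  have hfalse : ((j, false) : Fin 3 × Bool) ≠ (j, true) := by simp
  refine ⟨fun x => decide (x = (j, true)) || decide (1 ≤ q x),
    fun x => decide (x = (j, true)) || decide (2 ≤ q x), ?_, ?_, ?_, ?_, ?_, ?_⟩
  · apply pot_Lv
    · simp
    · simp [hjf]
    · rw [pot_congr e1]
      exact hs1
  · apply pot_Lv
    · simp
    · simp [hjf]
    · rw [pot_congr e2]
      exact hs2
  · intro x hx
    simp only [Bool.or_eq_true, decide_eq_true_eq] at hx ⊢
    rcases hx with hx | hx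
    · exact Or.inl hx
    · exact Or.inr (by omega)
  · intro hA hN
    apply h7
    · intro x hx hq1
      have h8 := congrFun hA x
      simp [hne x hx, hq1] at h8
    · obtain ⟨⟨x, y, hxy, hx, hy⟩, -⟩ := hN
      have key : ∀ x : Fin 3 × Bool, x ≠ (j, true) →
          (decide (x = (j, true)) || decide (1 ≤ q x)) = true →
          ∃ x : Fin 3 × Bool, x.1 ≠ j ∧ q x ≠ 0 := by
        intro x hx1 hx2
        simp only [hx1, decide_false, Bool.false_or, decide_eq_true_eq] at hx2
        refine ⟨x, fun h => ?_, by omega⟩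
        rw [h2 x h] at hx2
        omega
      by_cases hxj : x = (j, true)
      · exact key y (fun h => hxy (hxj.trans h.symm)) hy
      · exact key x hxj hx
  · intro X hX hx
    obtain ⟨x, hxj, hXx, hq⟩ := h5 X hX hx
    refine ⟨x, hxj, hXx, ?_⟩
    simp [hne x hxj, hq]
  · rw [h3]
    apply pot_congr
    intro x hx
    have := h1 x
    have := h6 x hx
    rw [Pi.add_apply, e1 x hx, e2 x hx]
    omega

end Pool.Agent.Sims
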