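import Pool.Agent.Sims.EvCP

/-!
# Module `EvSG` : if all nontrivial cuts of capacity `n` are crossed, the graph is a 6-cycle

* `starG`: let `Q` be nontrivial of capacity `n`, crossed by `C`: `cp_four` gives a cyclic partition `f` with four blocks.  Six letters, four blocks: some block `Y` has at least two letters; rotate
  (`cp_rot`) so that it is the block `0`.  It has capacity `n` (`cp_cap4`), its complement has at least three letters, so it is nontrivial, hence crossed by some `C`.  The blocks `1` and `3` are not both divided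
  by `C`: otherwise they have at least two letters each and `6 ≥ 2 + 2 + 2 + 1`.  By reflection (`cp_refl`, which fixes the block `0` and exchanges `1`, `3`) we may assume that the block `1` is not divided:
  `cp_refine4`.  Now five blocks: rotate such that the block `0` has two letters, the others are singletons, so they are not divided: `cp_refine5`, `cp_full`.
Difficulty 3.
-/

namespace Pool.Agent.Sims

theorem EvSG_sum {m : ℕ} (f : Fin 3 × Bool → Fin m) :
    ∑ i : Fin m, (Finset.univ.filter (fun x => f x = i)).card = 6 := by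
  rw [← Finset.card_eq_sum_card_fiberwise (f := f) (s := Finset.univ) (t := Finset.univ)
    (fun x _ => Finset.mem_univ _)]
  rfl

theorem EvSG_pos {m : ℕ} {f : Fin 3 × Bool → Fin m} (hf : Function.Surjective f) (i : Fin m) :
    1 ≤ (Finset.univ.filter (fun x => f x = i)).card := by
  obtain ⟨x, hx⟩ := hf i
  exact Finset.card_pos.2 ⟨x, by simp [hx]⟩

theorem EvSG_two {m : ℕ} {f : Fin 3 × Bool → Fin m} {i : Fin m} {x y : Fin 3 × Bool}
    (hxy : x ≠ y) (hx : f x = i) (hy : f y = i) :
    2 ≤ (Finset.univ.filter (fun x => f x = i)).card :=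
  Finset.one_lt_card.2 ⟨x, by simp [hx], y, by simp [hy], hxy⟩

theorem EvSG_pig {m : ℕ} (hm : m < 6) (f : Fin 3 × Bool → Fin m) :
    ∃ x y, x ≠ y ∧ f x = f y := by
  by_contra hcon
  push Not at hcon
  have hinj : Function.Injective f := by
    intro x y hxy
    by_contra hne
    exact hcon x y hne hxy
  have := Fintype.card_le_of_injective f hinj
  have h6 : Fintype.card (Fin 3 × Bool) = 6 := rfl
  rw [h6, Fintype.card_fin] at this
  omega

theorem EvSG_Ntr {m : ℕ} [NeZero m] {f : Fin 3 × Bool → Fin m} (hf : Function.Surjective f)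
    {x y : Fin 3 × Bool} (hxy : x ≠ y) (hx : f x = 0) (hy : f y = 0) {i j : Fin m} (hi : i ≠ 0)
    (hj : j ≠ 0) (hij : i ≠ j) : Ntr (bk f 0) := by
  obtain ⟨u, hu⟩ := hf i
  obtain ⟨v, hv⟩ := hf j
  refine ⟨⟨x, y, hxy, by simp [bk, hx], by simp [bk, hy]⟩, u, v, ?_, ?_, ?_⟩
  · rintro rfl
    exact hij (hu.symm.trans hv)
  · simp [bk, hu, hi]
  · simp [bk, hv, hj]

theorem EvSG_five {n : ℕ} {V : CC} (E : Eq3 n V) (hall : ∀ Q, NC n V Q → Ntr Q → VX n V Q)
    {f : Fin 3 × Bool → Fin 5} (h : CPm n V 5 f) : Full n V := by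
  obtain ⟨x, y, hxy, hf⟩ := EvSG_pig (by norm_num) f
  have h' := cp_rot h (f x)
  set g : Fin 3 × Bool → Fin 5 := fun t => f t - f x with hg
  have hgx : g x = 0 := by simp [hg]
  have hgy : g y = 0 := by simp [hg, hf]
  have hN : Ntr (bk g 0) := EvSG_Ntr h'.1 hxy hgx hgy (i := 1) (j := 2) (by decide) (by decide)
    (by decide)
  obtain ⟨C, hC, hX⟩ := hall _ (cp_cap5 E h' 0) hN
  have huniq : ∀ s t : Fin 3 × Bool, g s = 1 → g t = 1 → s = t := by
    intro s t hs ht
    by_contra hne
    have h1 := EvSG_sum g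
    rw [Fin.sum_univ_five] at h1
    have h2 := EvSG_two hxy hgx hgy
    have h3 := EvSG_two hne hs ht
    have h4 := EvSG_pos h'.1 2
    have h5 := EvSG_pos h'.1 3
    have h6 := EvSG_pos h'.1 4
    omega
  obtain ⟨s, hs⟩ := h'.1 1
  obtain ⟨f', hf'⟩ := cp_refine5 E h' hC hX (by
    cases hCs : C s
    · right
      intro t ht
      rw [huniq t s ht hs]
      exact hCs
    · left
      intro t ht
      rw [huniq t s ht hs]
      exact hCs)
  exact cp_full hf'

theorem starG {n : ℕ} {V : CC} (E : Eq3 n V) (hex : ∃ Q, NC n V Q ∧ Ntr Q)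
    (hall : ∀ Q, NC n V Q → Ntr Q → VX n V Q) : Full n V := by
  obtain ⟨Q, hQ, hQn⟩ := hex
  obtain ⟨C0, hC0, hX0⟩ := hall Q hQ hQn
  obtain ⟨f, h, -⟩ := cp_four E hC0 hQ hX0
  obtain ⟨x, y, hxy, hf⟩ := EvSG_pig (by norm_num) f
  have h' := cp_rot h (f x)
  set g : Fin 3 × Bool → Fin 4 := fun t => f t - f x with hg
  have hgx : g x = 0 := by simp [hg]
  have hgy : g y = 0 := by simp [hg, hf]
  have hN : Ntr (bk g 0) := EvSG_Ntr h'.1 hxy hgx hgy (i := 1) (j := 2) (by decide) (by decide)
    (by decide)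
  obtain ⟨C, hC, hX⟩ := hall _ (cp_cap4 E h' 0) hN
  by_cases h1 : (∀ x, g x = 1 → C x = true) ∨ (∀ x, g x = 1 → C x = false)
  · obtain ⟨f', hf', -⟩ := cp_refine4 E h' hC hX h1
    exact EvSG_five E hall hf'
  · have h3 : (∀ x, g x = 3 → C x = true) ∨ (∀ x, g x = 3 → C x = false) := by
      by_contra h3
      push Not at h1 h3
      obtain ⟨⟨s, hs, hs'⟩, t, ht, ht'⟩ := h1
      obtain ⟨⟨u, hu, hu'⟩, v, hv, hv'⟩ := h3
      have hst : s ≠ t := by
        rintro rfl
        cases hc : C s
        · exact ht' hc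
        · exact hs' hc
      have huv : u ≠ v := by
        rintro rfl
        cases hc : C u
        · exact hv' hc
        · exact hu' hc
      have e1 := EvSG_sum g
      rw [Fin.sum_univ_four] at e1
      have e2 := EvSG_two hxy hgx hgy
      have e3 := EvSG_two hst hs ht
      have e4 := EvSG_two huv hu hv
      have e5 := EvSG_pos h'.1 2
      omega
    have hr := cp_refl h'
    have hbk : bk (fun t => -(g t)) 0 = bk g 0 := by
      funext t
      simp only [bk, neg_eq_zero]
    have hneg : ∀ a : Fin 4, -a = 1 ↔ a = 3 := by decide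
    obtain ⟨f', hf', -⟩ := cp_refine4 E hr hC (by rw [hbk]; exact hX) (by
      rcases h3 with h3 | h3
      · left
        intro t ht
        exact h3 t ((hneg _).1 ht)
      · right
        intro t ht
        exact h3 t ((hneg _).1 ht))
    exact EvSG_five E hall hf'

end Pool.Agent.Sims
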