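import Pool.Agent.Sims.EvPath
import Pool.Agent.Sims.EvFX

/-!
# Module `EvSt` : the states of the paths between letters `a^{±1}`

The path `x γ x'` (`x.1 = x'.1 = 0`, `γ` without letters `a^{±1}`) has the start state `evss x γ x' = (x, first letter of γ x')` and the end state `es x γ x'` = the start state of the inverse path
`x'⁻¹ γ⁻¹ x⁻¹`.
* `st_eq`: `det_path`.
* `st_ne`: if `γ ≠ []` and the start state is the end state then `γ = invRev γ` by `st_eq` (`fi_inv`), contradiction to `no_pal` (`fi_red`).  If `γ = []` then `x' = x` since the word is reduced, and the states `(x, x)` and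
  `(x⁻¹, x⁻¹)` are different.
* `st_four`: `V` full.  `FI V [x, q]` iff `edgS V {x} {q⁻¹} > 0` (`fi_edge`; `q ≠ x⁻¹` as `FI V [x, q]` implies reduced; `2 ≤ cycLen V = 3 n`), i.e. iff `q⁻¹` is one of the two neighbours of `x` in the 6-cycle (`full_zero`),
  and then `2 edgS V {x} {q⁻¹} = n`.  Two letters `x`, two neighbours each: four states.
* `st_cnt`: `edgS V {x} {q⁻¹}` is the number of the cyclically consecutive letters `(u, v)` of the word `wB B` with `(u, v) = (x, q)` or `(u, v) = (q⁻¹, x⁻¹)` (`edgS` unfolded for the cyclically reduced word `wB B`: `rep V ~r wB B`,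
  `cyc_rotated`; `bar`).  The pairs of the first kind are the beginnings of the paths with start state `(x, q)` (`u = x` has the generator `0`, so it is the first letter of a block, and `v` is the first letter of `γ x'`); the pairs of the
  second kind are the ends of the paths with end state `(x, q)`.  (Expand the `cyc` over `wB B` into a `cyc` over `B`, similar to `SylB_cyc_expand`: the block `(ε, γ)` with successor `(ε', γ')` contributes `lin f (0, ε) γ (0, ε')`;
  a pair inside of `γ` contributes `0` since both letters have generators `≠ 0`; so for `γ ≠ []` the first and the last pair remain, and for `γ = []` the only pair `(x, x')`, `x' = x`, is both; it counts once for the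
  start state `(x, x)` and once for the end state `(x⁻¹, x⁻¹)`.)
Difficulty 3.
-/

namespace Pool.Agent.Sims

/-- start state -/
def evss (x : Fin 3 × Bool) (γ : List (Fin 3 × Bool)) (x' : Fin 3 × Bool) :
    (Fin 3 × Bool) × (Fin 3 × Bool) := (x, γ.headD x')

/-- end state -/
def es (x : Fin 3 × Bool) (γ : List (Fin 3 × Bool)) (x' : Fin 3 × Bool) :
    (Fin 3 × Bool) × (Fin 3 × Bool) := evss (bar x') (FreeGroup.invRev γ) (bar x)

theorem EvSt_head (γ : List (Fin 3 × Bool)) (x' : Fin 3 × Bool) :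
    (γ ++ [x']).head? = some (γ.headD x') := by
  cases γ <;> rfl

theorem EvSt_inv {V : CC} {x x' : Fin 3 × Bool} {γ : List (Fin 3 × Bool)}
    (h : FI V (x :: (γ ++ [x']))) :
    FI V (bar x' :: (FreeGroup.invRev γ ++ [bar x])) := by
  have h1 := fi_inv h
  have h2 : FreeGroup.invRev (x :: (γ ++ [x'])) =
      bar x' :: (FreeGroup.invRev γ ++ [bar x]) := by
    simp [FreeGroup.invRev, bar]
  rwa [h2] at h1

theorem EvSt_inv0 {γ : List (Fin 3 × Bool)} (h : ∀ y ∈ γ, y.1 ≠ 0) :
    ∀ y ∈ FreeGroup.invRev γ, y.1 ≠ 0 := by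
  intro y hy
  simp only [FreeGroup.invRev, List.mem_reverse, List.mem_map] at hy
  obtain ⟨a, ha, rfl⟩ := hy
  exact h a ha

theorem EvSt_red2 {V : CC} {a b : Fin 3 × Bool} (h : FI V [a, b]) : a ≠ bar b := by
  intro e
  have h3 := fi_red h
  rw [e] at h3
  unfold FreeGroup.IsReduced at h3
  simp [bar] at h3

theorem EvSt_last (γ : List (Fin 3 × Bool)) (a : Fin 3 × Bool) :
    (FreeGroup.invRev γ).headD (bar a) = bar (γ.getLastD a) := by
  rcases List.eq_nil_or_concat γ with h | ⟨γ', c, h⟩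
  · subst h
    simp [FreeGroup.invRev]
  · rw [h, List.concat_eq_append]
    simp [FreeGroup.invRev, bar]

theorem EvSt_diag {V : CC} (hl : 2 ≤ cycLen V) (x : Fin 3 × Bool) :
    edgS V (sgl x) (sgl x) = 0 := by
  by_contra h0
  have h : 0 < edgS V (sgl x) (sgl x) := Nat.pos_of_ne_zero h0
  unfold edgS at h
  rcases EdgeM_cyc_pos _ _ h with ⟨a, h1, h2⟩ | ⟨a, b, l, h1, h2⟩
  · rw [cycLen_eq_rep, h1] at hl
    simp at hl
  · have hcr := CR_of_rotated h1 (rep_CR V)
    split_ifs at h2 with h3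
    · simp only [sgl, Bool.or_self, Bool.and_eq_true, decide_eq_true_eq] at h3
      have h4 : FreeGroup.IsReduced [a, b] := red_mid hcr.1 ⟨[], l, by simp⟩
      unfold FreeGroup.IsReduced at h4
      have h5 : a = bar b := by rw [h3.1, h3.2]
      rw [h5] at h4
      simp [bar] at h4
    · exact absurd h2 (lt_irrefl _)

theorem EvSt_expand (f : Fin 3 × Bool → Fin 3 × Bool → ℕ) (z : Bool × List (Fin 3 × Bool)) :
    ∀ (C : List (Bool × List (Fin 3 × Bool))) (t : Bool × List (Fin 3 × Bool)),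
    lin f ((0 : Fin 3), t.1) (t.2 ++ wB C) ((0 : Fin 3), z.1) =
      lin (fun t t' : Bool × List (Fin 3 × Bool) =>
        lin f ((0 : Fin 3), t.1) t.2 ((0 : Fin 3), t'.1)) t C z
  | [], t => by simp [wB, lin]
  | c :: C, t => by
    have h1 : t.2 ++ wB (c :: C) = t.2 ++ (((0 : Fin 3), c.1) :: (c.2 ++ wB C)) := by
      simp [wB]
    rw [h1, lin_append, EvSt_expand f z C c]
    rfl

theorem EvSt_cyc (f : Fin 3 × Bool → Fin 3 × Bool → ℕ) (B : List (Bool × List (Fin 3 × Bool))) :
    cyc f (wB B) = cyc (fun t t' : Bool × List (Fin 3 × Bool) =>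
        lin f ((0 : Fin 3), t.1) t.2 ((0 : Fin 3), t'.1)) B := by
  cases B with
  | nil => simp [wB, cyc]
  | cons t C =>
    have h1 : wB (t :: C) = ((0 : Fin 3), t.1) :: (t.2 ++ wB C) := by simp [wB]
    rw [h1, cyc, cyc, EvSt_expand]

theorem EvSt_f1z {x q : Fin 3 × Bool} : ∀ (γ : List (Fin 3 × Bool)) (a z : Fin 3 × Bool),
    a ≠ x → (∀ y ∈ γ, y ≠ x) →
    lin (fun u v : Fin 3 × Bool => if u = x ∧ v = q then 1 else 0) a γ z = 0
  | [], a, z, ha, _ => by simp [lin, ha]
  | c :: γ, a, z, ha, hγ => by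
    rw [lin, EvSt_f1z γ c z (hγ c (by simp)) (fun y hy => hγ y (by simp [hy]))]
    simp [ha]

theorem EvSt_f1 {x q : Fin 3 × Bool} (γ : List (Fin 3 × Bool)) (a z : Fin 3 × Bool)
    (hγ : ∀ y ∈ γ, y ≠ x) :
    lin (fun u v : Fin 3 × Bool => if u = x ∧ v = q then 1 else 0) a γ z =
      if a = x ∧ γ.headD z = q then 1 else 0 := by
  cases γ with
  | nil => simp [lin]
  | cons c γ =>
    rw [lin, EvSt_f1z γ c z (hγ c (by simp)) (fun y hy => hγ y (by simp [hy]))]
    simp

theorem EvSt_f2 {x q : Fin 3 × Bool} : ∀ (γ : List (Fin 3 × Bool)) (a z : Fin 3 × Bool),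
    (∀ y ∈ γ, y ≠ bar x) →
    lin (fun u v : Fin 3 × Bool => if u = bar q ∧ v = bar x then 1 else 0) a γ z =
      if γ.getLastD a = bar q ∧ z = bar x then 1 else 0
  | [], a, z, _ => by simp [lin]
  | c :: γ, a, z, hγ => by
    rw [lin, EvSt_f2 γ c z (fun y hy => hγ y (by simp [hy]))]
    have h1 : ¬ (a = bar q ∧ c = bar x) := fun h => hγ c (by simp) h.2
    rw [if_neg h1, zero_add, List.getLastD_cons]

theorem st_eq {V : CC} (hd : ∀ y : Fin 3 × Bool, y.1 ≠ 0 → DetL V y)
    {γ δ : List (Fin 3 × Bool)} (hγ : ∀ y ∈ γ, y.1 ≠ 0) (hδ : ∀ y ∈ δ, y.1 ≠ 0)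
    {x x' y y' : Fin 3 × Bool} (hx' : x'.1 = 0) (hy' : y'.1 = 0)
    (h1 : FI V (x :: (γ ++ [x']))) (h2 : FI V (y :: (δ ++ [y'])))
    (h : evss x γ x' = evss y δ y') : x = y ∧ γ = δ ∧ x' = y' := by
  simp only [evss, Prod.mk.injEq] at h
  obtain ⟨hxy, hh⟩ := h
  subst hxy
  have h3 := det_path hd hγ hδ hx' hy' h1 h2 (by rw [EvSt_head, EvSt_head, hh])
  exact ⟨rfl, h3.1, h3.2⟩

theorem st_ne {V : CC} (hd : ∀ y : Fin 3 × Bool, y.1 ≠ 0 → DetL V y)
    {γ : List (Fin 3 × Bool)} (hγ : ∀ y ∈ γ, y.1 ≠ 0)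
    {x x' : Fin 3 × Bool} (hx : x.1 = 0) (hx' : x'.1 = 0)
    (h1 : FI V (x :: (γ ++ [x']))) : evss x γ x' ≠ es x γ x' := by
  intro h
  by_cases hn : γ = []
  · subst hn
    have h2 : FI V [x, x'] := by simpa using h1
    apply EvSt_red2 h2
    have := congrArg Prod.fst h
    simpa [evss, es] using this
  · have h3 := st_eq hd hγ (EvSt_inv0 hγ) hx' (by simpa using hx) h1 (EvSt_inv h1) h
    have h4 : FreeGroup.IsReduced γ := red_mid (fi_red h1) ⟨[x], [x'], by simp⟩
    exact no_pal h4 hn h3.2.1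

theorem st_four {n : ℕ} {V : CC} (E : Eq3 n V) (hF : Full n V) :
    ∃ S : Finset ((Fin 3 × Bool) × (Fin 3 × Bool)), S.card = 4 ∧
      (∀ s ∈ S, s.1.1 = 0 ∧ 2 * edgS V (sgl s.1) (sgl (bar s.2)) = n) ∧
      ∀ x q : Fin 3 × Bool, x.1 = 0 → FI V [x, q] → (x, q) ∈ S := by
  obtain ⟨r, hr, he⟩ := hF
  have hb := EvFX_bij hr
  have hl : 2 ≤ cycLen V := by
    rw [cycLen_eq_sum, Fin.sum_univ_three, E.c, E.c, E.c]
    have := E.h4
    omega
  have hz : ∀ i j : Fin 6, 0 < edgS V (sgl (r i)) (sgl (r j)) → j = i + 1 ∨ i = j + 1 := by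
    intro i j h
    by_contra hcon
    rw [not_or] at hcon
    by_cases hij : j = i
    · subst hij
      rw [EvSt_diag hl] at h
      exact absurd h (lt_irrefl _)
    · rw [full_zero E hr he hij hcon.1 hcon.2] at h
      exact absurd h (lt_irrefl _)
  obtain ⟨i0, h0⟩ := hb.2 ((0 : Fin 3), true)
  obtain ⟨i1, h1⟩ := hb.2 ((0 : Fin 3), false)
  have h01 : i0 ≠ i1 := by
    rintro rfl
    rw [h0] at h1
    simp at h1
  have hs : ∀ i : Fin 6, i - 1 + 1 = i := by decide
  have hne : ∀ i : Fin 6, i - 1 ≠ i + 1 := by decide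
  have hb1 : ∀ i j : Fin 6, bar (r i) = bar (r j) → i = j := by
    intro i j h
    rw [bar_inj] at h
    exact hr h
  have hS : ∀ i : Fin 6, 2 * edgS V (sgl (r i)) (sgl (bar (bar (r (i + 1))))) = n ∧
      2 * edgS V (sgl (r i)) (sgl (bar (bar (r (i - 1))))) = n := by
    intro i
    rw [bar_bar, bar_bar]
    refine ⟨he i, ?_⟩
    have := he (i - 1)
    rw [hs, edgS_comm] at this
    exact this
  refine ⟨{(r i0, bar (r (i0 + 1))), (r i0, bar (r (i0 - 1))), (r i1, bar (r (i1 + 1))),
    (r i1, bar (r (i1 - 1)))}, ?_, ?_, ?_⟩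
  · rw [Finset.card_insert_of_notMem, Finset.card_insert_of_notMem,
        Finset.card_insert_of_notMem, Finset.card_singleton]
    · rw [Finset.mem_singleton, Prod.mk.injEq]
      exact fun h => hne i1 (hb1 _ _ h.2).symm
    · simp only [Finset.mem_insert, Finset.mem_singleton, Prod.mk.injEq, not_or]
      exact ⟨fun h => h01 (hr h.1), fun h => h01 (hr h.1)⟩
    · simp only [Finset.mem_insert, Finset.mem_singleton, Prod.mk.injEq, not_or]
      exact ⟨fun h => hne i0 (hb1 _ _ h.2).symm, fun h => h01 (hr h.1), fun h => h01 (hr h.1)⟩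
  · intro s hs'
    simp only [Finset.mem_insert, Finset.mem_singleton] at hs'
    rcases hs' with rfl | rfl | rfl | rfl
    · exact ⟨by rw [h0], (hS i0).1⟩
    · exact ⟨by rw [h0], (hS i0).2⟩
    · exact ⟨by rw [h1], (hS i1).1⟩
    · exact ⟨by rw [h1], (hS i1).2⟩
  · intro x q hx hfi
    have h2 := (fi_edge hl (EvSt_red2 hfi)).2 hfi
    obtain ⟨j, hj⟩ := hb.2 (bar q)
    have hq : q = bar (r j) := by rw [hj, bar_bar]
    have key : ∀ i : Fin 6, r i = x → (x, q) = (r i, bar (r (i + 1))) ∨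
        (x, q) = (r i, bar (r (i - 1))) := by
      intro i hi
      rw [← hi, ← hj] at h2
      rcases hz i j h2 with h3 | h3
      · left
        rw [hq, h3, hi]
      · right
        have h4 : j = i - 1 := by
          rw [h3]
          have : ∀ a : Fin 6, a = a + 1 - 1 := by decide
          exact this j
        rw [hq, h4, hi]
    simp only [Finset.mem_insert, Finset.mem_singleton]
    have hx2 : x = ((0 : Fin 3), true) ∨ x = ((0 : Fin 3), false) := by
      obtain ⟨a, b⟩ := x
      simp only at hx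
      subst hx
      cases b <;> simp
    rcases hx2 with h3 | h3
    · rcases key i0 (by rw [h0, h3]) with h4 | h4
      · exact Or.inl h4
      · exact Or.inr (Or.inl h4)
    · rcases key i1 (by rw [h1, h3]) with h4 | h4
      · exact Or.inr (Or.inr (Or.inl h4))
      · exact Or.inr (Or.inr (Or.inr h4))

theorem st_cnt {V : CC} {B : List (Bool × List (Fin 3 × Bool))}
    (hB : ∀ t ∈ B, ∀ x ∈ t.2, x.1 ≠ 0) (hC : CR (wB B)) (hV : cls (wB B) = V)
    {x q : Fin 3 × Bool} (hx : x.1 = 0) (hq : q ≠ bar x) :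
    edgS V (sgl x) (sgl (bar q)) = cyc (fun t t' : Bool × List (Fin 3 × Bool) =>
      (if evss ((0 : Fin 3), t.1) t.2 ((0 : Fin 3), t'.1) = (x, q) then 1 else 0) +
        (if es ((0 : Fin 3), t.1) t.2 ((0 : Fin 3), t'.1) = (x, q) then 1 else 0)) B := by
  unfold edgS
  have hr : rep V ~r wB B := by rw [← hV]; exact rep_rotated hC
  rw [cyc_rotated _ hr]
  have h1 : (fun u v : Fin 3 × Bool => if (sgl x u && sgl (bar q) (bar v) ||
      sgl (bar q) u && sgl x (bar v)) = true then 1 else 0) =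
      (fun u v : Fin 3 × Bool => (if u = x ∧ v = q then 1 else 0) +
        (if u = bar q ∧ v = bar x then 1 else 0)) := by
    funext u v
    have e1 : (bar v = bar q) ↔ v = q := bar_inj
    have e2 : (bar v = x) ↔ v = bar x := by
      constructor
      · intro h; rw [← h, bar_bar]
      · intro h; rw [h, bar_bar]
    simp only [sgl, Bool.or_eq_true, Bool.and_eq_true, decide_eq_true_eq, e1, e2]
    by_cases h2 : u = x ∧ v = q
    · have h3 : ¬ (u = bar q ∧ v = bar x) := by
        intro h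
        exact hq (h2.2.symm.trans h.2)
      rw [if_pos h2, if_neg h3, if_pos (Or.inl h2)]
    · by_cases h3 : u = bar q ∧ v = bar x
      · rw [if_neg h2, if_pos h3, if_pos (Or.inr h3)]
      · rw [if_neg h2, if_neg h3, if_neg (not_or.2 ⟨h2, h3⟩)]
  rw [h1, EvSt_cyc]
  have h5 : ∀ (C : List (Bool × List (Fin 3 × Bool))) (t z : Bool × List (Fin 3 × Bool)),
      (∀ s ∈ t :: C, ∀ x ∈ s.2, x.1 ≠ 0) →
      lin (fun t t' : Bool × List (Fin 3 × Bool) => lin (fun u v : Fin 3 × Bool =>
        (if u = x ∧ v = q then 1 else 0) + (if u = bar q ∧ v = bar x then 1 else 0))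
        ((0 : Fin 3), t.1) t.2 ((0 : Fin 3), t'.1)) t C z =
      lin (fun t t' : Bool × List (Fin 3 × Bool) =>
        (if evss ((0 : Fin 3), t.1) t.2 ((0 : Fin 3), t'.1) = (x, q) then 1 else 0) +
        (if es ((0 : Fin 3), t.1) t.2 ((0 : Fin 3), t'.1) = (x, q) then 1 else 0)) t C z := by
    have h6 : ∀ (t t' : Bool × List (Fin 3 × Bool)), (∀ x ∈ t.2, x.1 ≠ 0) →
        lin (fun u v : Fin 3 × Bool => (if u = x ∧ v = q then 1 else 0) +
          (if u = bar q ∧ v = bar x then 1 else 0)) ((0 : Fin 3), t.1) t.2 ((0 : Fin 3), t'.1) =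
        (if evss ((0 : Fin 3), t.1) t.2 ((0 : Fin 3), t'.1) = (x, q) then 1 else 0) +
        (if es ((0 : Fin 3), t.1) t.2 ((0 : Fin 3), t'.1) = (x, q) then 1 else 0) := by
      intro t t' ht
      rw [Lin_add, EvSt_f1 _ _ _ (fun y hy h => ht y hy (by rw [h, hx])),
        EvSt_f2 _ _ _ (fun y hy h => ht y hy (by rw [h, bar_fst, hx]))]
      congr 1
      · simp [evss]
      · apply if_congr _ rfl rfl
        unfold es evss
        rw [EvSt_last]
        constructor
        · intro h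
          rw [h.1, h.2, bar_bar, bar_bar]
        · intro h
          have h7 : bar ((0 : Fin 3), t'.1) = x := congrArg Prod.fst h
          have h8 : bar (t.2.getLastD ((0 : Fin 3), t.1)) = q := congrArg Prod.snd h
          rw [← h7, ← h8, bar_bar, bar_bar]
          exact ⟨rfl, rfl⟩
    intro C
    induction C with
    | nil =>
      intro t z h
      exact h6 t z (h t (by simp))
    | cons c C ih =>
      intro t z h
      rw [lin, lin, ih c z (fun s hs => h s (by simp [hs])), h6 t c (h t (by simp))]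
  cases B with
  | nil => rfl
  | cons t C => exact h5 C t t hB

end Pool.Agent.Sims
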