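import Pool.Agent.Sims.TwBasic

/-!
# Module `TwUp` : twists and moves without twist commute up to moves without twist

Submodularity `capC_submod`, `capC_submod'` and `OMin.le_cap` (a cut separating `x_i` has capacity `≥ cnt V i`).
By `Mv_fb`, `Mv_swp`, `NT_SPerm`, `Cl_SPerm` (both `fb` and `swp` fix `0`; `act_fb_fb`, `act_swp_swp`) it is enough to prove `mv_uniq`, `mv_NT` for `d = up`.
Let `n_c = cnt V 2`, `n_b = cnt V 1`.  `up` at `V`: a cut `A ∋ c, b`, `A ∌ c⁻¹, b⁻¹`, `cap A = n_c`, `V1 = act (wh c A) V`.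
(0) Auxiliary (`up_nest`): if `A ⊆ A'` are two such cuts at `V` then `act (wh c A') V ∈ Cl (act (wh c A) V)`: by `act_wh_mono` the second is
    `act (wh c D)` of the first, `D = (A'∖A) ∪ {c}`, which contains neither `b` nor `b⁻¹` (so not separated); it is level because both words have
    the same length (`cycLen_wh`, `Lv_Sm`): `NT`.
(1) `mv_uniq`: two cuts `A₁, A₂`: `A₁ ∪ A₂` and `A₁ ∩ A₂` both separate `c`, `cap (A₁∩A₂) + cap (A₁∪A₂) ≤ 2 n_c`, so `A₁ ∪ A₂` is again such a cut; (0) twice.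
(2) `mv_NT`: `V' = act (wh z B) V` level without twist, `z.1 ≠ 0`.
  `z.1 = 2`: by `Lv_compl` we may assume `z = c`; `B ∋ c`, `B ∌ c⁻¹`, `b` not separated.
   (2a) `b, b⁻¹ ∉ B`: `A' = A ∪ B` is a cut as in (0) (submodularity as in (1)).  `V1' = act (wh c A') V ∈ Cl V1`; by `act_wh_mono` (`B ⊆ A'`)
        `V1' = act (wh c D) V'` with `D = (A'∖B) ∪ {c} ∋ b`, `∌ b⁻¹, c⁻¹`: `Mv up V' V1'` (level: same length).
   (2b) `b, b⁻¹ ∈ B`: `A' = A ∩ B` is such a cut, `V1' = act (wh c A') V`, `V1 ∈ Cl V1'`.  `V' = act (wh c D) V1'`, `D = (B∖A') ∪ {c} ∋ b⁻¹`, `∌ b`, so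
        `Mv dn V1' V'` and `Mv up V' V1'` by `Mv_rev`.
  `z.1 = 1`: by `Lv_compl` we may assume `c, c⁻¹ ∉ B`; `z = b` or `z = b⁻¹`; `cap B = n_b`.
   (2c) `z = b`: `A ∩ B ∋ b, ∌ b⁻¹` has capacity `≥ n_b`, `A' = A ∪ B ∋ c, b`, `∌ c⁻¹, b⁻¹` has capacity `≥ n_c`; so `cap A' = n_c`.
        `V1' = act (wh c A') V ∈ Cl V1` by (0).  The sets `B` (letter `b`) and `A'ᶜ` (letter `c⁻¹`) are disjoint, `b⁻¹ ∈ A'ᶜ`, `c ∉ B`.
        `act_wh_comm'` (with `a := b, A := B, b := c⁻¹, B := A'ᶜ`) and `act_wh_compl`: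
        `act (wh c⁻¹ (A'ᶜ ∪ (B∖b))) V' = act (wh b B) V1' =: V1''`.  `V1''` is obtained from `V1'` by a level move (`capC_wh_disj`: the capacity of
        `B` in `V1' = act (wh c⁻¹ A'ᶜ) V` is that in `V`) without twist (`c, c⁻¹ ∉ B`), so `V1'' ∈ Cl V1`; the cut `A'ᶜ ∪ (B∖b)` contains `c⁻¹, b⁻¹` and
        not `c, b`; its complement with the letter `c` shows `Mv up V' V1''` (level: same length).
   (2d) `z = b⁻¹`: `A∖B ∋ c`, `∌ c⁻¹`, `b ∈ A∖B`, `b⁻¹ ∉ A∖B`, capacity `≥ n_c`; `B∖A ∋ b⁻¹`, `∌ b`, capacity `≥ n_b`; so (`capC_submod'`) `A' = A∖B`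
        is a cut as in (0), `A' ⊆ A`, `V1' = act (wh c A') V`, `V1 ∈ Cl V1'`.  `B` (letter `b⁻¹`) and `A'` (letter `c`) are disjoint, `b ∈ A'`, `c⁻¹ ∉ B`.
        `act_wh_comm'` (with `a := b⁻¹, A := B, b := c, B := A'`): `act (wh c (A' ∪ (B∖b⁻¹))) V' = act (wh b⁻¹ B) V1' =: V1''`; as before `V1'' ∈ Cl V1'` and
        `Mv up V' V1''`.
Difficulty 3.
-/

namespace Pool.Agent.Sims

open FreeGroup (of)

theorem TwUp_Lv_of_len {V : CC} {z : Fin 3 × Bool} {A : Fin 3 × Bool → Bool} (hz : A z = true)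
    (hz' : A (bar z) = false) (h : cycLen (act (wh z A) V) = cycLen V) : Lv V z A := by
  refine ⟨hz, hz', ?_⟩
  have h1 := cycLen_wh V z A hz hz'
  omega

theorem TwUp_nest_Lv {V : CC} {z : Fin 3 × Bool} {A A' : Fin 3 × Bool → Bool} (hA : Lv V z A)
    (hA' : Lv V z A') (hsub : ∀ x, A x = true → A' x = true) :
    Lv (act (wh z A) V) z (fun x => (A' x && !A x) || decide (x = z)) ∧
      act (wh z A') V = act (wh z (fun x => (A' x && !A x) || decide (x = z)))
        (act (wh z A) V) := by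
  have e := act_wh_mono z A A' hsub V
  refine ⟨TwUp_Lv_of_len (by simp) ?_ ?_, e⟩
  · have h1 := hA'.2.1
    have h2 : bar z ≠ z := bar_ne z
    simp [h1, h2]
  · rw [← e, Sm_len (Lv_Sm hA'), Sm_len (Lv_Sm hA)]

/-- level move with multiplier `c` -/
theorem TwUp_NT {V : CC} {A A' : Fin 3 × Bool → Bool} (hA : Lv V (2, true) A)
    (hA' : Lv V (2, true) A') (hsub : ∀ x, A x = true → A' x = true)
    (hb : (A' (1, true) && !A (1, true)) = (A' (1, false) && !A (1, false))) :
    NT (act (wh (2, true) A) V) (act (wh (2, true) A') V) := by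
  obtain ⟨h1, h2⟩ := TwUp_nest_Lv hA hA' hsub
  refine ⟨(2, true), _, h1, by decide, ?_, h2⟩
  intro i hi0 hi2
  have : i = 1 := by
    fin_cases i
    · exact absurd rfl hi0
    · rfl
    · exact absurd rfl hi2
  subst this
  unfold NSep
  simpa using hb

theorem TwUp_cl {V V' : CC} (h : NT V V') : V' ∈ Cl V := Relation.ReflTransGen.single h

/-- union of two level cuts with the same multiplier -/
theorem TwUp_union {V : CC} (hO : OMin V) {z : Fin 3 × Bool} {A B : Fin 3 × Bool → Bool}
    (hA : Lv V z A) (hB : Lv V z B) :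
    Lv V z (fun x => A x || B x) ∧ Lv V z (fun x => A x && B x) := by
  have h := capC_submod V A B
  have u1 : (fun x => A x || B x) z = true := by simp [hA.1]
  have u2 : (fun x => A x || B x) (bar z) = false := by simp [hA.2.1, hB.2.1]
  have i1 : (fun x => A x && B x) z = true := by simp [hA.1, hB.1]
  have i2 : (fun x => A x && B x) (bar z) = false := by simp [hA.2.1]
  have h1 := hO.le_cap z (fun x => A x || B x) u1 u2
  have h2 := hO.le_cap z (fun x => A x && B x) i1 i2
  have h3 := hA.2.2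
  have h4 := hB.2.2
  exact ⟨⟨u1, u2, by omega⟩, ⟨i1, i2, by omega⟩⟩

theorem TwUp_uniq {V V1 V2 : CC} (hO : OMin V) (h1 : Mv .up V V1) (h2 : Mv .up V V2) :
    V2 ∈ Cl V1 := by
  obtain ⟨A, hA, hb, hb', rfl⟩ := h1
  obtain ⟨B, hB, gb, gb', rfl⟩ := h2
  have hA0 : Lv V (2, true) A := hA
  have hB0 : Lv V (2, true) B := hB
  have hb0 : A (1, true) = true := hb
  have hb0' : A (1, false) = false := hb'
  have gb0 : B (1, true) = true := gb
  have gb0' : B (1, false) = false := gb'
  obtain ⟨hU, -⟩ := TwUp_union hO hA0 hB0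
  have n1 : NT (act (wh (2, true) A) V) (act (wh (2, true) (fun x => A x || B x)) V) :=
    TwUp_NT hA0 hU (fun x hx => by simp [hx]) (by simp [hb0, hb0', gb0'])
  have n2 : NT (act (wh (2, true) B) V) (act (wh (2, true) (fun x => A x || B x)) V) :=
    TwUp_NT hB0 hU (fun x hx => by simp [hx]) (by simp [hb0', gb0, gb0'])
  exact Cl_trans (TwUp_cl n1) (Cl_symm (TwUp_cl n2))

/-- case `z = c` -/
theorem TwUp_c {V V' V1 : CC} (hO : OMin V) {B : Fin 3 × Bool → Bool} (hB : Lv V (2, true) B)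
    (hns : NSep B 1) (hV' : V' = act (wh (2, true) B) V) (h1 : Mv .up V V1) :
    ∃ V1', Mv .up V' V1' ∧ V1' ∈ Cl V1 := by
  obtain ⟨A, hA, hb, hb', rfl⟩ := h1
  subst hV'
  have hA0 : Lv V (2, true) A := hA
  have hb0 : A (1, true) = true := hb
  have hb0' : A (1, false) = false := hb'
  obtain ⟨hU, hI⟩ := TwUp_union hO hA0 hB
  have hns' : B (1, true) = B (1, false) := hns
  by_cases hB1 : B (1, true) = true
  · -- (2b)
    have hB2 : B (1, false) = true := by rw [← hns']; exact hB1
    refine ⟨act (wh (2, true) (fun x => A x && B x)) V, ?_, ?_⟩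
    · obtain ⟨g1, g2⟩ := TwUp_nest_Lv hI hB (fun x hx => by
        simp only [Bool.and_eq_true] at hx
        exact hx.2)
      have : Mv .dn (act (wh (2, true) (fun x => A x && B x)) V) (act (wh (2, true) B) V) := by
        refine ⟨_, g1, ?_, ?_, g2⟩
        · show ((B (1, false) && !(A (1, false) && B (1, false))) ||
            decide (((1, false) : Fin 3 × Bool) = (2, true))) = true
          simp [hB2, hb0']
        · show ((B (1, true) && !(A (1, true) && B (1, true))) ||
            decide (((1, true) : Fin 3 × Bool) = (2, true))) = false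
          simp [hB1, hb0]
      exact Mv_rev this
    · have n1 : NT (act (wh (2, true) (fun x => A x && B x)) V) (act (wh (2, true) A) V) :=
        TwUp_NT hI hA0 (fun x hx => by
          simp only [Bool.and_eq_true] at hx
          exact hx.1) (by simp [hb0, hb0', hB1])
      exact Cl_symm (TwUp_cl n1)
  · -- (2a)
    have hB1' : B (1, true) = false := by simpa using hB1
    have hB2' : B (1, false) = false := by rw [← hns']; exact hB1'
    refine ⟨act (wh (2, true) (fun x => A x || B x)) V, ?_, ?_⟩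
    · obtain ⟨g1, g2⟩ := TwUp_nest_Lv hB hU (fun x hx => by simp [hx])
      refine ⟨_, g1, ?_, ?_, g2⟩
      · show (((A (1, true) || B (1, true)) && !B (1, true)) ||
            decide (((1, true) : Fin 3 × Bool) = (2, true))) = true
        simp [hB1', hb0]
      · show (((A (1, false) || B (1, false)) && !B (1, false)) ||
            decide (((1, false) : Fin 3 × Bool) = (2, true))) = false
        simp [hB2', hb0']
    · have n1 : NT (act (wh (2, true) A) V) (act (wh (2, true) (fun x => A x || B x)) V) :=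
        TwUp_NT hA0 hU (fun x hx => by simp [hx]) (by simp [hb0, hb0', hB2'])
      exact TwUp_cl n1

/-- case `z = b` -/
theorem TwUp_b {V V' V1 : CC} (hO : OMin V) {B : Fin 3 × Bool → Bool} (hB : Lv V (1, true) B)
    (hc : B (2, true) = false) (hc' : B (2, false) = false)
    (hV' : V' = act (wh (1, true) B) V) (h1 : Mv .up V V1) :
    ∃ V1', Mv .up V' V1' ∧ V1' ∈ Cl V1 := by
  obtain ⟨A, hA, hb, hb', rfl⟩ := h1
  subst hV'
  have hA0 : Lv V (2, true) A := hA
  have hb0 : A (1, true) = true := hb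
  have hb0' : A (1, false) = false := hb'
  have hAc : A (2, true) = true := hA0.1
  have hAc' : A (2, false) = false := hA0.2.1
  have hBb : B (1, true) = true := hB.1
  have hBb' : B (1, false) = false := hB.2.1
  have hsub := capC_submod V A B
  have l1 := hO.le_cap (1, true) (fun x => A x && B x) (by simp [hb0, hBb])
    (by simp [bar, hb0', hBb'])
  have l2 := hO.le_cap (2, true) (fun x => A x || B x) (by simp [hAc]) (by simp [bar, hAc', hc'])
  have c1 := hA0.2.2
  have c2 := hB.2.2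
  simp only at l1 l2 c1 c2
  have hA' : Lv V (2, true) (fun x => A x || B x) :=
    ⟨by simp [hAc], by simp [bar, hAc', hc'], by simp only; omega⟩
  have n1 : NT (act (wh (2, true) A) V) (act (wh (2, true) (fun x => A x || B x)) V) :=
    TwUp_NT hA0 hA' (fun x hx => by simp [hx]) (by simp [hb0, hb0', hBb'])
  set V2 := act (wh (2, true) (fun x => A x || B x)) V with hV2
  have eV2 : act (wh (2, false) (fun x => !(A x || B x))) V = V2 :=
    act_wh_compl (2, true) (fun x => A x || B x) V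
  have hcap : capC V2 B = capC V B := by
    rw [← eV2]
    apply capC_wh_disj
    · simp [hAc', hc']
    · simp [bar, hAc]
    · exact hc'
    · exact hc
    · intro x hx
      simp only [Bool.not_eq_true', Bool.or_eq_false_iff] at hx
      exact hx.2
  have hSm2 : Sm V V2 := Lv_Sm hA'
  have hLv : Lv V2 (1, true) B := ⟨hBb, hBb', by rw [hcap, c2, hSm2.2]⟩
  have n2 : NT V2 (act (wh (1, true) B) V2) := by
    refine ⟨(1, true), B, hLv, by decide, ?_, rfl⟩
    intro i hi0 hi1
    have : i = 2 := by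
      fin_cases i
      · exact absurd rfl hi0
      · exact absurd rfl hi1
      · rfl
    subst this
    unfold NSep
    rw [hc, hc']
  have hcomm := act_wh_comm' ((1, true) : Fin 3 × Bool) (2, false) (by decide) B
    (fun x => !(A x || B x)) hBb hBb' (by simp [hAc', hc']) (by simp [bar, hAc])
    (fun x hx => by simp [hx]) (by simp [bar, hb0', hBb']) (by simpa [bar] using hc) V
  rw [eV2] at hcomm
  have hcompl := act_wh_compl ((2, false) : Fin 3 × Bool)
    (fun x => !(A x || B x) || (B x && decide (x ≠ (1, true)))) (act (wh (1, true) B) V)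
  have hfin := hcompl.trans hcomm
  refine ⟨act (wh (1, true) B) V2, ?_, Cl_trans (TwUp_cl n1) (TwUp_cl n2)⟩
  have hlen : cycLen (act (wh (1, true) B) V2) = cycLen (act (wh (1, true) B) V) := by
    rw [Sm_len (Lv_Sm hLv), Sm_len (Lv_Sm hB), Sm_len hSm2]
  refine ⟨fun x => !(!(A x || B x) || (B x && decide (x ≠ (1, true)))), ?_, ?_, ?_, hfin.symm⟩
  · apply TwUp_Lv_of_len
    · show (!(!(A (2, true) || B (2, true)) || (B (2, true) &&
        decide (((2, true) : Fin 3 × Bool) ≠ (1, true))))) = true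
      simp [hAc, hc]
    · show (!(!(A (2, false) || B (2, false)) || (B (2, false) &&
        decide (((2, false) : Fin 3 × Bool) ≠ (1, true))))) = false
      simp [hAc', hc']
    · exact (congrArg cycLen hfin).trans hlen
  · show (!(!(A (1, true) || B (1, true)) || (B (1, true) &&
        decide (((1, true) : Fin 3 × Bool) ≠ (1, true))))) = true
    simp [hb0]
  · show (!(!(A (1, false) || B (1, false)) || (B (1, false) &&
        decide (((1, false) : Fin 3 × Bool) ≠ (1, true))))) = false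
    simp [hb0', hBb']

/-- case `z = b⁻¹` -/
theorem TwUp_b' {V V' V1 : CC} (hO : OMin V) {B : Fin 3 × Bool → Bool} (hB : Lv V (1, false) B)
    (hc : B (2, true) = false) (hc' : B (2, false) = false)
    (hV' : V' = act (wh (1, false) B) V) (h1 : Mv .up V V1) :
    ∃ V1', Mv .up V' V1' ∧ V1' ∈ Cl V1 := by
  obtain ⟨A, hA, hb, hb', rfl⟩ := h1
  subst hV'
  have hA0 : Lv V (2, true) A := hA
  have hb0 : A (1, true) = true := hb
  have hb0' : A (1, false) = false := hb'
  have hAc : A (2, true) = true := hA0.1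
  have hAc' : A (2, false) = false := hA0.2.1
  have hBb' : B (1, false) = true := hB.1
  have hBb : B (1, true) = false := hB.2.1
  have hsub := capC_submod' V A B
  have l1 := hO.le_cap (1, false) (fun x => !A x && B x) (by simp [hb0', hBb'])
    (by simp [bar, hBb])
  have l2 := hO.le_cap (2, true) (fun x => A x && !B x) (by simp [hAc, hc]) (by simp [bar, hAc'])
  have c1 := hA0.2.2
  have c2 := hB.2.2
  simp only at l1 l2 c1 c2
  have hA' : Lv V (2, true) (fun x => A x && !B x) :=
    ⟨by simp [hAc, hc], by simp [bar, hAc'], by simp only; omega⟩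
  have n1 : NT (act (wh (2, true) (fun x => A x && !B x)) V) (act (wh (2, true) A) V) :=
    TwUp_NT hA' hA0 (fun x hx => by
      simp only [Bool.and_eq_true] at hx
      exact hx.1) (by simp [hb0, hb0', hBb])
  set V2 := act (wh (2, true) (fun x => A x && !B x)) V with hV2
  have hcap : capC V2 B = capC V B := by
    rw [hV2]
    apply capC_wh_disj
    · simp [hAc, hc]
    · simp [bar, hAc']
    · exact hc
    · exact hc'
    · intro x hx
      simp only [Bool.and_eq_true, Bool.not_eq_true'] at hx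
      exact hx.2
  have hSm2 : Sm V V2 := Lv_Sm hA'
  have hLv : Lv V2 (1, false) B := ⟨hBb', hBb, by rw [hcap, c2, hSm2.2]⟩
  have n2 : NT V2 (act (wh (1, false) B) V2) := by
    refine ⟨(1, false), B, hLv, by decide, ?_, rfl⟩
    intro i hi0 hi1
    have : i = 2 := by
      fin_cases i
      · exact absurd rfl hi0
      · exact absurd rfl hi1
      · rfl
    subst this
    unfold NSep
    rw [hc, hc']
  have hcomm := act_wh_comm' ((1, false) : Fin 3 × Bool) (2, true) (by decide) B
    (fun x => A x && !B x) hBb' hBb (by simp [hAc, hc]) (by simp [bar, hAc'])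
    (fun x hx => by simp [hx]) (by simp [bar, hb0, hBb]) (by simpa [bar] using hc') V
  rw [← hV2] at hcomm
  refine ⟨act (wh (1, false) B) V2, ?_, Cl_trans (Cl_symm (TwUp_cl n1)) (TwUp_cl n2)⟩
  have hlen : cycLen (act (wh (1, false) B) V2) = cycLen (act (wh (1, false) B) V) := by
    rw [Sm_len (Lv_Sm hLv), Sm_len (Lv_Sm hB), Sm_len hSm2]
  refine ⟨fun x => (A x && !B x) || (B x && decide (x ≠ (1, false))), ?_, ?_, ?_, hcomm.symm⟩
  · apply TwUp_Lv_of_len
    · show ((A (2, true) && !B (2, true)) || (B (2, true) &&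
        decide (((2, true) : Fin 3 × Bool) ≠ (1, false)))) = true
      simp [hAc, hc]
    · show ((A (2, false) && !B (2, false)) || (B (2, false) &&
        decide (((2, false) : Fin 3 × Bool) ≠ (1, false)))) = false
      simp [hAc', hc']
    · exact (congrArg cycLen hcomm).trans hlen
  · show ((A (1, true) && !B (1, true)) || (B (1, true) &&
        decide (((1, true) : Fin 3 × Bool) ≠ (1, false)))) = true
    simp [hb0, hBb]
  · show ((A (1, false) && !B (1, false)) || (B (1, false) &&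
        decide (((1, false) : Fin 3 × Bool) ≠ (1, false)))) = false
    simp [hb0']

theorem TwUp_up {V V' V1 : CC} (hO : OMin V) (h : NT V V') (h1 : Mv .up V V1) :
    ∃ V1', Mv .up V' V1' ∧ V1' ∈ Cl V1 := by
  obtain ⟨z, B, hB, hz0, hns, hV'⟩ := h
  obtain ⟨gB, gV⟩ := Lv_compl hB
  obtain ⟨i, s⟩ := z
  have hi : i = 1 ∨ i = 2 := by
    fin_cases i
    · exact absurd rfl hz0
    · exact Or.inl rfl
    · exact Or.inr rfl
  rcases hi with rfl | rfl
  · -- multiplier b
    have hn2 : B (2, true) = B (2, false) := hns 2 (by decide) (by simp)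
    by_cases hc : B (2, true) = true
    · have hc' : B (2, false) = true := by rw [← hn2]; exact hc
      cases s with
      | true =>
        exact TwUp_b' hO gB (by simp [hc]) (by simp [hc']) (hV'.trans gV.symm) h1
      | false =>
        exact TwUp_b hO gB (by simp [hc]) (by simp [hc']) (hV'.trans gV.symm) h1
    · have hc0 : B (2, true) = false := by simpa using hc
      have hc' : B (2, false) = false := by rw [← hn2]; exact hc0
      cases s with
      | true => exact TwUp_b hO hB hc0 hc' hV' h1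
      | false => exact TwUp_b' hO hB hc0 hc' hV' h1
  · -- multiplier c
    have hn1 : B (1, true) = B (1, false) := hns 1 (by decide) (by simp)
    cases s with
    | true => exact TwUp_c hO hB hn1 hV' h1
    | false =>
      refine TwUp_c hO gB ?_ (hV'.trans gV.symm) h1
      unfold NSep
      simp only
      rw [hn1]

theorem TwUp_fb0 : fb.perm 0 = 0 := by decide

theorem TwUp_swp0 : swp.perm 0 = 0 := by decide

/-- transfer by the sign change of `b` -/
theorem TwUp_uniq_dn {V V1 V2 : CC} (hO : OMin V) (h1 : Mv .dn V V1) (h2 : Mv .dn V V2) :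
    V2 ∈ Cl V1 := by
  have g1 := Mv_fb h1
  have g2 := Mv_fb h2
  have := Cl_SPerm TwUp_fb0 (TwUp_uniq (OMin_SPerm fb hO) g1 g2)
  rwa [act_fb_fb, act_fb_fb] at this

theorem mv_uniq {d : Dir} {V V1 V2 : CC} (hO : OMin V) (h1 : Mv d V V1) (h2 : Mv d V V2) :
    V2 ∈ Cl V1 := by
  cases d with
  | up => exact TwUp_uniq hO h1 h2
  | dn => exact TwUp_uniq_dn hO h1 h2
  | upB =>
    have g1 := Mv_swp h1
    have g2 := Mv_swp h2
    have := Cl_SPerm TwUp_swp0 (TwUp_uniq (OMin_SPerm swp hO) g1 g2)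
    rwa [act_swp_swp, act_swp_swp] at this
  | dnB =>
    have g1 := Mv_swp h1
    have g2 := Mv_swp h2
    have := Cl_SPerm TwUp_swp0 (TwUp_uniq_dn (OMin_SPerm swp hO) g1 g2)
    rwa [act_swp_swp, act_swp_swp] at this

theorem TwUp_dn {V V' V1 : CC} (hO : OMin V) (h : NT V V') (h1 : Mv .dn V V1) :
    ∃ V1', Mv .dn V' V1' ∧ V1' ∈ Cl V1 := by
  obtain ⟨W, hW, hW'⟩ := TwUp_up (OMin_SPerm fb hO) (NT_SPerm TwUp_fb0 h) (Mv_fb h1)
  have g := Mv_fb hW
  have g' := Cl_SPerm TwUp_fb0 hW'
  rw [act_fb_fb] at g g'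
  exact ⟨_, g, g'⟩

theorem mv_NT {d : Dir} {V V' V1 : CC} (hO : OMin V) (h : NT V V') (h1 : Mv d V V1) :
    ∃ V1', Mv d V' V1' ∧ V1' ∈ Cl V1 := by
  cases d with
  | up => exact TwUp_up hO h h1
  | dn => exact TwUp_dn hO h h1
  | upB =>
    obtain ⟨W, hW, hW'⟩ := TwUp_up (OMin_SPerm swp hO) (NT_SPerm TwUp_swp0 h) (Mv_swp h1)
    have g := Mv_swp hW
    have g' := Cl_SPerm TwUp_swp0 hW'
    rw [act_swp_swp] at g g'
    exact ⟨_, g, g'⟩
  | dnB =>
    obtain ⟨W, hW, hW'⟩ := TwUp_dn (OMin_SPerm swp hO) (NT_SPerm TwUp_swp0 h) (Mv_swp h1)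
    have g := Mv_swp hW
    have g' := Cl_SPerm TwUp_swp0 hW'
    rw [act_swp_swp] at g g'
    exact ⟨_, g, g'⟩

theorem mv_Cl {d : Dir} {V V' V1 : CC} (hO : OMin V) (h : V' ∈ Cl V) (h1 : Mv d V V1) :
    ∃ V1', Mv d V' V1' ∧ V1' ∈ Cl V1 := by
  have h' : Relation.ReflTransGen NT V V' := h
  induction h' with
  | refl => exact ⟨V1, h1, Cl_refl V1⟩
  | tail hab hbc ih =>
    obtain ⟨W, hW, hW'⟩ := ih hab
    obtain ⟨W', g, g'⟩ := mv_NT (Sm_OMin hO (Cl_Sm hab)) hbc hW
    exact ⟨W', g, Cl_trans hW' g'⟩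

theorem mv_Cl' {d : Dir} {V V' V1 V1' : CC} (hO : OMin V) (h : V' ∈ Cl V) (h1 : Mv d V V1)
    (h1' : Mv d V' V1') : V1' ∈ Cl V1 := by
  obtain ⟨W, hW, hW'⟩ := mv_Cl hO h h1
  exact Cl_trans hW' (mv_uniq (Sm_OMin hO (Cl_Sm h)) hW h1')

end Pool.Agent.Sims
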