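import Pool.Agent.Sims.EvX0a
import Pool.Agent.Sims.EvTri

/-!
# Module `EvX0` : opposite moves at a 4-cycle have the same visible crossing

Notation of `x0a`: `D = rs j A`, `D' = rs j Aᶜ`, `V₁ = act (wh z A) V`, `V₂ = act (wh z A') V`, `A' = opc z A`; `Q = stc A z = D ∪ z⁻¹`, `Q₂ = stc A' z = D' ∪ z⁻¹`.
Let `C` (capacity `n` at `V₁`) cross `Q`; replacing `C` by its complement we may assume `z⁻¹ ∈ C`.  `f1e` at `V₁` (`Eq3.lv`; `Q` has capacity `n` by `Lv_inv`).
Let `s = edgS V₁ D D'` (`= edgS V₁ {z} {z⁻¹} = edgS V₂ {z} {z⁻¹}` by `x0a`).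
(i) `z ∉ C`: `{z⁻¹} ⊆ C ∧ Q`, `{z} ⊆ ¬C ∧ ¬Q`, so `edgS V₁ {z} {z⁻¹} = 0` (`edgS_mono`), `s = 0`, hence `V₁ = V = V₂`.  The complement of `A'` is `D ∪ z⁻¹`, of capacity `n` at `V = V₂`, and it crosses
`Q₂ = D' ∪ z⁻¹` (`z⁻¹` in both, `D`, `D'`, and `z` outside of both).
(ii) `z ∈ C`: `¬C ∧ Q ⊆ D`, `¬C ∧ ¬Q ⊆ D'`, so `n = 2 edgS V₁ (¬C ∧ Q) (¬C ∧ ¬Q) ≤ 2 s` (`edgS_mono`).  So `2 edgS V₂ {z} {z⁻¹} ≥ n`; by `capC_pr` (`pr z (bar z)`) the cut `{z, z⁻¹}` has capacity
`≤ 2 n - n = n` at `V₂`, so `= n` (`Eq3.low`), and it crosses `Q₂` (`z⁻¹` in both, `z`, `D'`, and `D` outside of both).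
Difficulty 2.
-/

namespace Pool.Agent.Sims

theorem EvX0_let {x z : Fin 3 × Bool} (h : x.1 = z.1) : x = z ∨ x = bar z := by
  rcases x with ⟨i, b⟩
  rcases z with ⟨j, c⟩
  have h' : i = j := h
  subst h'
  cases b <;> cases c <;> simp [bar]

theorem EvX0_in {z : Fin 3 × Bool} {A : Ct} (hn : Ntr A) (h2 : A (bar z) = false) :
    ∃ x, A x = true ∧ x.1 ≠ z.1 := by
  obtain ⟨⟨x, y, hxy, hx, hy⟩, -⟩ := hn
  by_cases hxz : x = z
  · refine ⟨y, hy, fun h => ?_⟩
    rcases EvX0_let h with h' | h'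
    · exact hxy (hxz.trans h'.symm)
    · rw [h', h2] at hy
      exact Bool.false_ne_true hy
  · refine ⟨x, hx, fun h => ?_⟩
    rcases EvX0_let h with h' | h'
    · exact hxz h'
    · rw [h', h2] at hx
      exact Bool.false_ne_true hx

theorem EvX0_out {z : Fin 3 × Bool} {A : Ct} (hn : Ntr A) (h1 : A z = true) :
    ∃ x, A x = false ∧ x.1 ≠ z.1 := by
  obtain ⟨-, ⟨x, y, hxy, hx, hy⟩⟩ := hn
  by_cases hxz : x = bar z
  · refine ⟨y, hy, fun h => ?_⟩
    rcases EvX0_let h with h' | h'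
    · rw [h', h1] at hy
      exact Bool.false_ne_true hy.symm
    · exact hxy (hxz.trans h'.symm)
  · refine ⟨x, hx, fun h => ?_⟩
    rcases EvX0_let h with h' | h'
    · rw [h', h1] at hx
      exact Bool.false_ne_true hx.symm
    · exact hxz h'

theorem x0 {n : ℕ} {V : CC} (E : Eq3 n V) {z : Fin 3 × Bool} {A : Ct} (hA : Lv V z A)
    (hA' : Lv V z (opc z A)) (hn : Ntr A) (hn' : Ntr (opc z A))
    (h : VX n (act (wh z A) V) (stc A z)) :
    VX n (act (wh z (opc z A)) V) (stc (opc z A) z) := by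
  have E₁ := E.lv hA
  have E₂ := E.lv hA'
  have hz1 : A z = true := hA.1
  have hz2 : A (bar z) = false := hA.2.1
  have hbz : bar z ≠ z := bar_ne z
  have hQ : NC n (act (wh z A) V) (stc A z) := ((Lv_NC E₁).1 (Lv_inv hA).1).2.2
  obtain ⟨d, hd, hdz⟩ := EvX0_in hn hz2
  obtain ⟨d', hd', hdz'⟩ := EvX0_out hn hz1
  have hdz1 : d ≠ z := fun h => hdz (by rw [h])
  have hdz2 : d ≠ bar z := fun h => hdz (by rw [h]; rfl)
  have hdz1' : d' ≠ z := fun h => hdz' (by rw [h])
  have hdz2' : d' ≠ bar z := fun h => hdz' (by rw [h]; rfl)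
  -- values of `Q₂`
  have q2z : stc (opc z A) z z = false := by simp [stc, hbz.symm]
  have q2bz : stc (opc z A) z (bar z) = true := by simp [stc]
  have q2d : stc (opc z A) z d = false := by simp [stc, opc, hdz, hd, hdz2]
  have q2d' : stc (opc z A) z d' = true := by simp [stc, opc, hdz', hd', hdz1']
  obtain ⟨C, hC, hX, hCz⟩ : ∃ C, NC n (act (wh z A) V) C ∧ Crossg C (stc A z) ∧
      C (bar z) = true := by
    obtain ⟨C, hC, hX⟩ := h
    by_cases hc : C (bar z) = true
    · exact ⟨C, hC, hX, hc⟩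
    · refine ⟨fun x => !C x, NC_compl hC, Crossg_compl hX, ?_⟩
      simp only [Bool.not_eq_true] at hc
      simp [hc]
  obtain ⟨e1, -, -, -, -, e6⟩ := f1e E₁ hC hQ hX
  obtain ⟨s1, s2, s3, s4⟩ := x0a E hA hA' hn hn'
  cases hcz : C z with
  | false =>
    have h0 : edgS (act (wh z A) V) (sgl z) (sgl (bar z)) = 0 := by
      rw [edgS_comm]
      refine Nat.le_zero.1 (le_trans (edgS_mono _ ?_ ?_) e1.le)
      · intro x hx
        simp only [sgl, decide_eq_true_eq] at hx
        subst hx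
        simp [hCz, stc]
      · intro x hx
        simp only [sgl, decide_eq_true_eq] at hx
        subst hx
        simp [hcz, stc, hbz.symm]
    rw [s2] at h0
    obtain ⟨-, hV2⟩ := s4 h0
    rw [hV2]
    refine ⟨fun x => !opc z A x, NC_compl ((Lv_NC E).1 hA').2.2, ?_, ?_, ?_, ?_⟩
    · exact ⟨bar z, by simp [opc, hz2], q2bz⟩
    · exact ⟨d, by simp [opc, hdz, hd], q2d⟩
    · exact ⟨d', by simp [opc, hdz', hd'], q2d'⟩
    · exact ⟨z, by simp [opc, hz1], q2z⟩
  | true =>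
    have hle : edgS (act (wh z A) V) (fun x => !C x && stc A z x) (fun x => !C x && !stc A z x) ≤
        edgS (act (wh z A) V) (rs z.1 A) (rs z.1 (fun x => !A x)) := by
      refine edgS_mono _ ?_ ?_
      · intro x hx
        simp only [Bool.and_eq_true, Bool.not_eq_true'] at hx
        obtain ⟨hx1, hx2⟩ := hx
        have hxz : x ≠ z := fun h => by rw [h, hcz] at hx1; exact Bool.false_ne_true hx1.symm
        have hxb : x ≠ bar z := fun h => by rw [h, hCz] at hx1; exact Bool.false_ne_true hx1.symm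
        have hxj : x.1 ≠ z.1 := fun h => by
          rcases EvX0_let h with h | h
          · exact hxz h
          · exact hxb h
        simp only [stc, hxz, hxb, ne_eq, not_false_eq_true, decide_true, Bool.and_true,
          decide_false, Bool.or_false] at hx2
        simp [rs, hx2, hxj]
      · intro x hx
        simp only [Bool.and_eq_true, Bool.not_eq_true'] at hx
        obtain ⟨hx1, hx2⟩ := hx
        have hxz : x ≠ z := fun h => by rw [h, hcz] at hx1; exact Bool.false_ne_true hx1.symm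
        have hxb : x ≠ bar z := fun h => by rw [h, hCz] at hx1; exact Bool.false_ne_true hx1.symm
        have hxj : x.1 ≠ z.1 := fun h => by
          rcases EvX0_let h with h | h
          · exact hxz h
          · exact hxb h
        simp only [stc, hxz, hxb, ne_eq, not_false_eq_true, decide_true, Bool.and_true,
          decide_false, Bool.or_false] at hx2
        simp [rs, hx2, hxj]
    have hcap := capC_pr (act (wh z (opc z A)) V) (z := z) (y := bar z) hbz.symm
    rw [E₂.c, E₂.c] at hcap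
    have hP : Prp (pr z (bar z)) := by
      refine ⟨⟨z, by simp [pr]⟩, ⟨d, by simp [pr, hdz1, hdz2]⟩⟩
    have hlow := E₂.low hP
    refine ⟨pr z (bar z), ⟨hP, by omega⟩, ?_, ?_, ?_, ?_⟩
    · exact ⟨bar z, by simp [pr], q2bz⟩
    · exact ⟨z, by simp [pr], q2z⟩
    · exact ⟨d', by simp [pr, hdz1', hdz2'], q2d'⟩
    · exact ⟨d, by simp [pr, hdz1, hdz2], q2d⟩

end Pool.Agent.Sims
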