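import Pool.Agent.Sims.EvF1
import Pool.Agent.Sims.SylEdge

/-!
# Module `EvX0a` : the two opposite moves at a 4-cycle

`A` and `A' = opc z A` are both level `z`-cuts at `V`, nontrivial.  `j = z.1`, `D = rs j A`, `D' = rs j Aᶜ` (the letters `≠ z^{±1}` inside, outside of `A`; both nonempty).
`A` and `A'` cross with corners `{z}`, `D`, `D'`, `{z⁻¹}`; `f1e` gives `edgS V D D' = 0` and `edgS V {z} {z⁻¹} = 0`.
Take a syllable form `V = cls (expand j s)`; the potentials `ind A` and `-ind A` give the two images.  For a syllable the exponent is `k`, `|k| ≤ 1`, and `k = ±1` for the mixed syllables.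
-/

namespace Pool.Agent.Sims

theorem EvX0a_lin {β : Type*} (P : β → Prop) (f g h : β → β → ℕ)
    (hh : ∀ q r, P q → P r → f q r = 0 → g q r = h q r) :
    ∀ (l : List β) (x z : β), P x → (∀ y ∈ l, P y) → P z → lin f x l z = 0 →
      lin g x l z = lin h x l z := by
  intro l
  induction l with
  | nil =>
    intro x z hx _ hz h0
    exact hh x z hx hz h0
  | cons y l ih =>
    intro x z hx hl hz h0
    rw [lin] at h0 ⊢
    rw [lin]
    have h1 : P y := hl y List.mem_cons_self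
    rw [hh x y hx h1 (by omega), ih y z h1 (fun w hw => hl w (List.mem_cons_of_mem _ hw)) hz (by omega)]

theorem EvX0a_cyc {β : Type*} (P : β → Prop) (f g h : β → β → ℕ)
    (hh : ∀ q r, P q → P r → f q r = 0 → g q r = h q r) (l : List β) (hl : ∀ y ∈ l, P y)
    (h0 : cyc f l = 0) : cyc g l = cyc h l := by
  cases l with
  | nil => rfl
  | cons x l =>
    exact EvX0a_lin P f g h hh l x x (hl x List.mem_cons_self)
      (fun w hw => hl w (List.mem_cons_of_mem _ hw)) (hl x List.mem_cons_self) h0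

/-- mixed pairs -/
def EvX0a_mix (j : Fin 3) (A : Ct) (x y : Fin 3 × Bool) : Bool :=
  (rs j A x && rs j (fun x => !A x) (bar y)) || (rs j (fun x => !A x) x && rs j A (bar y))

theorem EvX0a_mix_iff {j : Fin 3} {A : Ct} {x y : Fin 3 × Bool} (hx : x.1 ≠ j) (hy : y.1 ≠ j) :
    EvX0a_mix j A x y = true ↔ A x ≠ A (bar y) := by
  have hy' : (bar y).1 ≠ j := hy
  unfold EvX0a_mix rs
  simp only [hx, hy', ne_eq, not_false_eq_true, decide_true, Bool.and_true]
  cases A x <;> cases A (bar y) <;> simp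

theorem EvX0a_edge {j : Fin 3} {s : List ((Fin 3 × Bool) × ℤ)} (hs : SValid j s) (A : Ct) :
    edgS (cls (expand j s)) (rs j A) (rs j (fun x => !A x)) =
      cyc (fun q r => if q.2 = 0 ∧ EvX0a_mix j A q.1 r.1 = true then 1 else 0) s := by
  rw [edgS_zero hs (by simp [rs]) (by simp [rs]) (by simp [rs]) (by simp [rs])]
  rfl

theorem EvX0a_edge' {j : Fin 3} {s : List ((Fin 3 × Bool) × ℤ)} (hs : SValid j s) (A : Ct)
    (p : Fin 3 × Bool → ℤ) :
    edgS (cls (expand j (shift p s))) (rs j A) (rs j (fun x => !A x)) =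
      cyc (fun q r => if q.2 + p q.1 - p (bar r.1) = 0 ∧ EvX0a_mix j A q.1 r.1 = true
        then 1 else 0) s := by
  rw [EvX0a_edge (SValid_shift j p s hs)]
  exact cyc_shift (fun (q : (Fin 3 × Bool) × ℤ) (y : Fin 3 × Bool) =>
    if q.2 = 0 ∧ EvX0a_mix j A q.1 y = true then 1 else 0) p s

theorem EvX0a_jj' {j : Fin 3} {s : List ((Fin 3 × Bool) × ℤ)} (hs : SValid j s)
    (p : Fin 3 × Bool → ℤ) :
    edgS (cls (expand j (shift p s))) (sgl (j, true)) (sgl (j, false)) =
      cyc (fun q r => (q.2 + p q.1 - p (bar r.1)).natAbs - 1) s := by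
  rw [edgS_jj (SValid_shift j p s hs), ← cyc_fst]
  exact cyc_shift (fun (q : (Fin 3 × Bool) × ℤ) (_ : Fin 3 × Bool) => q.2.natAbs - 1) p s

theorem EvX0a_cnt {j : Fin 3} {s : List ((Fin 3 × Bool) × ℤ)} (hs : SValid j s)
    (p : Fin 3 × Bool → ℤ) :
    cnt (cls (expand j (shift p s))) j =
      cyc (fun q r => (q.2 + p q.1 - p (bar r.1)).natAbs) s := by
  have hs' := SValid_shift j p s hs
  rw [cnt_cls hs'.2, cntL_expand_self _ _ hs'.1, sum_shift]

theorem EvX0a_num {k a b : ℤ} {A B : Bool} (ha : a = if A then 1 else 0)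
    (hb : b = if B then 1 else 0) {m : Bool} (hm : m = true ↔ A ≠ B)
    (h0 : (k.natAbs - 1) + (if k = 0 ∧ m = true then 1 else 0) = 0) :
    ((if k + a - b = 0 ∧ m = true then 1 else 0) = (k + (-a) - (-b)).natAbs - 1) ∧
    ((if k + (-a) - (-b) = 0 ∧ m = true then 1 else 0) = (k + a - b).natAbs - 1) ∧
    ((k + a - b).natAbs + (if k + a - b = 0 ∧ m = true then 1 else 0) =
      k.natAbs + ((k + a - b).natAbs - 1)) ∧
    ((if A = B then 0 else 1) = (if k + a - b = 0 ∧ m = true then 1 else 0) +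
      ((k + a - b).natAbs - 1)) := by
  have hk : k = 0 ∨ k = 1 ∨ k = -1 := by omega
  cases A <;> cases B <;> simp at ha hb hm <;> subst ha hb <;>
    rcases hk with rfl | rfl | rfl <;> simp_all

theorem EvX0a_true {n : ℕ} {V : CC} (E : Eq3 n V) {j : Fin 3} {A : Ct} (hA : Lv V (j, true) A)
    (hA' : Lv V (j, true) (opc (j, true) A)) (hn : Ntr A) :
    edgS (act (wh (j, true) A) V) (rs j A) (rs j (fun x => !A x)) =
      edgS (act (wh (j, true) (opc (j, true) A)) V) (rs j A) (rs j (fun x => !A x)) ∧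
    edgS (act (wh (j, true) A) V) (sgl (j, true)) (sgl (j, false)) =
      edgS (act (wh (j, true) A) V) (rs j A) (rs j (fun x => !A x)) ∧
    edgS (act (wh (j, true) (opc (j, true) A)) V) (sgl (j, true)) (sgl (j, false)) =
      edgS (act (wh (j, true) A) V) (rs j A) (rs j (fun x => !A x)) ∧
    (edgS (act (wh (j, true) A) V) (rs j A) (rs j (fun x => !A x)) = 0 →
      act (wh (j, true) A) V = V ∧ act (wh (j, true) (opc (j, true) A)) V = V) := by
  have hz : A (j, true) = true := hA.1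
  have hz' : A (j, false) = false := hA.2.1
  obtain ⟨⟨x1, x2, hx12, hx1, hx2⟩, ⟨y1, y2, hy12, hy1, hy2⟩⟩ := hn
  -- a letter inside and a letter outside
  have hin : ∃ x, x.1 ≠ j ∧ A x = true := by
    have key : ∀ x : Fin 3 × Bool, A x = true → x ≠ (j, true) → x.1 ≠ j := by
      rintro ⟨i, b⟩ h1 h2 h3
      simp only at h3
      subst h3
      cases b
      · rw [hz'] at h1; exact absurd h1 (by simp)
      · exact h2 rfl
    by_cases h : x1 = (j, true)
    · exact ⟨x2, key x2 hx2 (fun h' => hx12 (h.trans h'.symm)), hx2⟩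
    · exact ⟨x1, key x1 hx1 h, hx1⟩
  have hout : ∃ x, x.1 ≠ j ∧ A x = false := by
    have key : ∀ x : Fin 3 × Bool, A x = false → x ≠ (j, false) → x.1 ≠ j := by
      rintro ⟨i, b⟩ h1 h2 h3
      simp only at h3
      subst h3
      cases b
      · exact h2 rfl
      · rw [hz] at h1; exact absurd h1 (by simp)
    by_cases h : y1 = (j, false)
    · exact ⟨y2, key y2 hy2 (fun h' => hy12 (h.trans h'.symm)), hy2⟩
    · exact ⟨y1, key y1 hy1 h, hy1⟩
  obtain ⟨x, hxj, hxA⟩ := hin
  obtain ⟨y, hyj, hyA⟩ := hout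
  have hX : Crossg A (opc (j, true) A) := by
    refine ⟨⟨(j, true), hz, ?_⟩, ⟨x, hxA, ?_⟩, ⟨y, hyA, ?_⟩, ⟨(j, false), hz', ?_⟩⟩
    · simp [opc, hz]
    · simp [opc, hxj, hxA]
    · simp [opc, hyj, hyA]
    · simp [opc, hz']
  have hf := f1e E ((Lv_NC E).1 hA).2.2 ((Lv_NC E).1 hA').2.2 hX
  have hjj : edgS V (sgl (j, true)) (sgl (j, false)) = 0 := by
    rw [← hf.1]
    apply edgS_congr
    · rintro ⟨i, b⟩
      by_cases hi : i = j
      · subst hi
        cases b <;> simp [sgl, opc, hz, hz']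
      · have : ¬ ((i, b) = (j, true)) := fun h => hi (congrArg Prod.fst h)
        simp [sgl, opc, hi]
    · rintro ⟨i, b⟩
      by_cases hi : i = j
      · subst hi
        cases b <;> simp [sgl, opc, hz, hz']
      · have : ¬ ((i, b) = (j, true)) := fun h => hi (congrArg Prod.fst h)
        simp [sgl, opc, hi]
  have hDD : edgS V (rs j A) (rs j (fun x => !A x)) = 0 := by
    rw [← hf.2.1]
    apply edgS_congr
    · rintro ⟨i, b⟩
      by_cases hi : i = j
      · subst hi
        cases b <;> simp [rs, opc, hz, hz']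
      · simp [rs, opc, hi]
    · rintro ⟨i, b⟩
      by_cases hi : i = j
      · subst hi
        cases b <;> simp [rs, opc, hz, hz']
      · simp [rs, opc, hi]
  have hc1 : cnt (act (wh (j, true) A) V) j = cnt V j := (Lv_Sm hA).2 j
  have e2 : act (wh (j, true) (opc (j, true) A)) V = act (pot j (-ind A)) V := by
    rw [wh_pot]
    apply pot_const 1
    intro x hx
    have h' : opc (j, true) A x = !A x := if_neg hx
    cases hA : A x <;> simp [ind, h', hA]
  rw [e2]
  rw [wh_pot] at hc1 ⊢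
  rcases WhEff_cases j V with ⟨k, rfl⟩ | ⟨s, -, hs, rfl⟩
  · rw [act_pot_pow, act_pot_pow, hjj, hDD]
    simp
  · have hv : ∀ q : Fin 3 × Bool → ℤ, act (pot j q) (cls (expand j s)) = cls (expand j (shift q s)) :=
      fun q => act_pot _ _ _ hs.1
    have hP : ∀ q ∈ s, q.1.1 ≠ j := hs.1
    rw [EvX0a_edge hs] at hDD
    rw [edgS_jj hs, ← cyc_fst] at hjj
    have herr : cyc (fun (q r : (Fin 3 × Bool) × ℤ) => (q.2.natAbs - 1) +
        (if q.2 = 0 ∧ EvX0a_mix j A q.1 r.1 = true then 1 else 0)) s = 0 := by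
      rw [cyc_add (fun (q _ : (Fin 3 × Bool) × ℤ) => (q.2.natAbs - 1))
        (fun (q r : (Fin 3 × Bool) × ℤ) =>
          (if q.2 = 0 ∧ EvX0a_mix j A q.1 r.1 = true then 1 else 0)) s, hjj, hDD]
    rw [hv] at hc1
    rw [EvX0a_cnt hs, cnt_cls hs.2, cntL_expand_self _ _ hs.1, ← cyc_fst] at hc1
    have E1 := EvX0a_cyc (fun q : (Fin 3 × Bool) × ℤ => q.1.1 ≠ j) _
      (fun q r => if q.2 + ind A q.1 - ind A (bar r.1) = 0 ∧ EvX0a_mix j A q.1 r.1 = true
        then 1 else 0)
      (fun q r => (q.2 + (-ind A) q.1 - (-ind A) (bar r.1)).natAbs - 1)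
      (fun q r hq hr h0 => (EvX0a_num (A := A q.1) (B := A (bar r.1)) rfl rfl
        (EvX0a_mix_iff hq hr) h0).1) s hP herr
    have E2 := EvX0a_cyc (fun q : (Fin 3 × Bool) × ℤ => q.1.1 ≠ j) _
      (fun q r => if q.2 + (-ind A) q.1 - (-ind A) (bar r.1) = 0 ∧
        EvX0a_mix j A q.1 r.1 = true then 1 else 0)
      (fun q r => (q.2 + ind A q.1 - ind A (bar r.1)).natAbs - 1)
      (fun q r hq hr h0 => (EvX0a_num (A := A q.1) (B := A (bar r.1)) rfl rfl
        (EvX0a_mix_iff hq hr) h0).2.1) s hP herr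
    have E3 := EvX0a_cyc (fun q : (Fin 3 × Bool) × ℤ => q.1.1 ≠ j) _
      (fun q r => (q.2 + ind A q.1 - ind A (bar r.1)).natAbs +
        (if q.2 + ind A q.1 - ind A (bar r.1) = 0 ∧ EvX0a_mix j A q.1 r.1 = true
        then 1 else 0))
      (fun q r => q.2.natAbs + ((q.2 + ind A q.1 - ind A (bar r.1)).natAbs - 1))
      (fun q r hq hr h0 => (EvX0a_num (A := A q.1) (B := A (bar r.1)) rfl rfl
        (EvX0a_mix_iff hq hr) h0).2.2.1) s hP herr
    have E4 := EvX0a_cyc (fun q : (Fin 3 × Bool) × ℤ => q.1.1 ≠ j) _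
      (fun q r => if A q.1 = A (bar r.1) then 0 else 1)
      (fun q r => (if q.2 + ind A q.1 - ind A (bar r.1) = 0 ∧ EvX0a_mix j A q.1 r.1 = true
        then 1 else 0) + ((q.2 + ind A q.1 - ind A (bar r.1)).natAbs - 1))
      (fun q r hq hr h0 => (EvX0a_num (A := A q.1) (B := A (bar r.1)) rfl rfl
        (EvX0a_mix_iff hq hr) h0).2.2.2) s hP herr
    have A3 := cyc_add (fun (q r : (Fin 3 × Bool) × ℤ) =>
        (q.2 + ind A q.1 - ind A (bar r.1)).natAbs)
      (fun q r => (if q.2 + ind A q.1 - ind A (bar r.1) = 0 ∧ EvX0a_mix j A q.1 r.1 = true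
        then 1 else 0)) s
    have A3' := cyc_add (fun (q _ : (Fin 3 × Bool) × ℤ) => q.2.natAbs)
      (fun q r => ((q.2 + ind A q.1 - ind A (bar r.1)).natAbs - 1)) s
    have A4 := cyc_add (fun (q r : (Fin 3 × Bool) × ℤ) =>
      (if q.2 + ind A q.1 - ind A (bar r.1) = 0 ∧ EvX0a_mix j A q.1 r.1 = true
        then 1 else 0)) (fun q r => ((q.2 + ind A q.1 - ind A (bar r.1)).natAbs - 1)) s
    have e12 : cyc (fun (q r : (Fin 3 × Bool) × ℤ) =>
        (if q.2 + ind A q.1 - ind A (bar r.1) = 0 ∧ EvX0a_mix j A q.1 r.1 = true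
        then 1 else 0)) s = cyc (fun (q r : (Fin 3 × Bool) × ℤ) =>
        ((q.2 + ind A q.1 - ind A (bar r.1)).natAbs - 1)) s := by
      omega
    rw [hv, hv, EvX0a_edge' hs, EvX0a_edge' hs, EvX0a_jj' hs, EvX0a_jj' hs]
    refine ⟨e12.trans E2.symm, e12.symm, E1.symm, ?_⟩
    intro h0
    have hNoX : NoX A s := by
      unfold NoX
      omega
    have h1 := NoX_shift hNoX 0
    have h2 := NoX_shift hNoX (-ind A)
    rw [zero_add] at h1
    rw [neg_add_cancel] at h2
    have h3 : cls (expand j (shift 0 s)) = cls (expand j s) := by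
      rw [← hv, pot_zero]
    rw [h1, ← h2, h3]
    exact ⟨rfl, rfl⟩

theorem x0a {n : ℕ} {V : CC} (E : Eq3 n V) {z : Fin 3 × Bool} {A : Ct} (hA : Lv V z A)
    (hA' : Lv V z (opc z A)) (hn : Ntr A) (hn' : Ntr (opc z A)) :
    edgS (act (wh z A) V) (rs z.1 A) (rs z.1 (fun x => !A x)) =
      edgS (act (wh z (opc z A)) V) (rs z.1 A) (rs z.1 (fun x => !A x)) ∧
    edgS (act (wh z A) V) (sgl z) (sgl (bar z)) =
      edgS (act (wh z A) V) (rs z.1 A) (rs z.1 (fun x => !A x)) ∧
    edgS (act (wh z (opc z A)) V) (sgl z) (sgl (bar z)) =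
      edgS (act (wh z A) V) (rs z.1 A) (rs z.1 (fun x => !A x)) ∧
    (edgS (act (wh z A) V) (rs z.1 A) (rs z.1 (fun x => !A x)) = 0 →
      act (wh z A) V = V ∧ act (wh z (opc z A)) V = V) := by
  obtain ⟨j, b⟩ := z
  cases b
  · have h1 := Lv_compl hA
    have h2 := Lv_compl hA'
    have e1 : (fun x => !opc (j, false) A x) = opc (j, true) (fun x => !A x) := by
      funext x
      by_cases hx : x.1 = j <;> simp [opc, hx]
    have hb : bar (j, false) = (j, true) := rfl
    rw [e1, hb] at h2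
    rw [hb] at h1
    have e3 : (fun x => !!A x) = A := by funext x; simp
    have key := EvX0a_true E h1.1 h2.1 (Ntr_compl hn)
    rw [e3, h1.2, h2.2] at key
    have c1 : ∀ W : CC, edgS W (rs j (fun x => !A x)) (rs j A) =
      edgS W (rs j A) (rs j (fun x => !A x)) := fun W => edgS_comm _ _ _
    have c2 : ∀ W : CC, edgS W (sgl (j, true)) (sgl (j, false)) =
      edgS W (sgl (j, false)) (sgl (j, true)) := fun W => edgS_comm _ _ _
    simp only [c1, c2] at key
    exact key
  · exact EvX0a_true E hA hA' hn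

end Pool.Agent.Sims
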