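import Pool.Agent.Sims.Perm3

/-!
# Module `In12A` : the subgroup `⟨b, c⟩`

* `In12_mk`: reduction only deletes letters (`FreeGroup.reduce`, e.g. via `FreeGroup.Red` and sublists).
  Products, inverses, powers: by `In12_mk` applied to concatenations.
* `cnt_of_In12`: a cyclically reduced word of the class is (a rotation of) a subword of the reduced word of
  `g` (`FreeGroup.reduceCyclically`, `rep_rotated`); conversely (`exists_In12`) `cnt Y 0 = 0` says that the
  letters of `rep Y` are `≠ x_0^{±1}`, take `g = mk (rep Y)`.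
* `hom_In12`: a homomorphism mapping `b, c` into `⟨b,c⟩` preserves it.
* `act_conj12`: if `φ(x) = k ψ(x) k⁻¹` for `x = b, c` then `act φ R = act ψ R` for all `R` with `cnt R 0 = 0`.
Difficulty 2.
-/

namespace Pool.Agent.Sims

open FreeGroup (of)

theorem In12_mk {w : List (Fin 3 × Bool)} (h : ∀ x ∈ w, x.1 ≠ 0) : In12 (FreeGroup.mk w) := by
  intro x hx
  rw [FreeGroup.toWord_mk] at hx
  exact h x ((FreeGroup.Red.sublist FreeGroup.reduce.red).subset hx)

theorem In12_one : In12 1 := by
  intro x hx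
  rw [FreeGroup.toWord_one] at hx
  simp at hx

theorem In12_mul {g h : FreeGroup (Fin 3)} (hg : In12 g) (hh : In12 h) : In12 (g * h) := by
  rw [← FreeGroup.mk_toWord (x := g), ← FreeGroup.mk_toWord (x := h), FreeGroup.mul_mk]
  apply In12_mk
  intro x hx
  rcases List.mem_append.1 hx with hx | hx
  · exact hg x hx
  · exact hh x hx

theorem In12_inv {g : FreeGroup (Fin 3)} (hg : In12 g) : In12 g⁻¹ := by
  rw [← FreeGroup.mk_toWord (x := g), FreeGroup.inv_mk]
  apply In12_mk
  intro x hx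
  simp only [FreeGroup.invRev, List.mem_reverse, List.mem_map] at hx
  obtain ⟨y, hy, rfl⟩ := hx
  exact hg y hy

theorem In12_lett {x : Fin 3 × Bool} (hx : x.1 ≠ 0) : In12 (lett x) := by
  apply In12_mk
  intro y hy
  rw [List.mem_singleton] at hy
  rw [hy]; exact hx

theorem In12_of {i : Fin 3} (hi : i ≠ 0) : In12 (of i) := by
  rw [← lett_true]
  exact In12_lett hi

theorem In12_pow {g : FreeGroup (Fin 3)} (hg : In12 g) (k : ℕ) : In12 (g ^ k) := by
  induction k with
  | zero => rw [pow_zero]; exact In12_one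
  | succ k ih => rw [pow_succ]; exact In12_mul ih hg

theorem In12_zpow {g : FreeGroup (Fin 3)} (hg : In12 g) (k : ℤ) : In12 (g ^ k) := by
  cases k with
  | ofNat k => rw [Int.ofNat_eq_natCast, zpow_natCast]; exact In12_pow hg k
  | negSucc k => rw [zpow_negSucc]; exact In12_inv (In12_pow hg _)

/-- induction principle -/
theorem In12_induction {P : FreeGroup (Fin 3) → Prop} (h1 : P 1)
    (hm : ∀ x : Fin 3 × Bool, x.1 ≠ 0 → ∀ g, In12 g → P g → P (lett x * g))
    {g : FreeGroup (Fin 3)} (hg : In12 g) : P g := by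
  have key : ∀ w : List (Fin 3 × Bool), (∀ x ∈ w, x.1 ≠ 0) → P (FreeGroup.mk w) := by
    intro w
    induction w with
    | nil => intro _; rw [← FreeGroup.one_eq_mk]; exact h1
    | cons x w ih =>
      intro hw
      have h2 : FreeGroup.mk (x :: w) = lett x * FreeGroup.mk w := by
        rw [lett, FreeGroup.mul_mk]; rfl
      rw [h2]
      have h3 : ∀ y ∈ w, y.1 ≠ 0 := fun y hy => hw y (List.mem_cons_of_mem _ hy)
      exact hm x (hw x List.mem_cons_self) _ (In12_mk h3) (ih h3)
  have := key g.toWord hg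
  rwa [FreeGroup.mk_toWord] at this

theorem In12A_cases {x : Fin 3 × Bool} (hx : x.1 ≠ 0) :
    lett x = of 1 ∨ lett x = of 2 ∨ lett x = (of 1)⁻¹ ∨ lett x = (of 2)⁻¹ := by
  rcases x with ⟨i, b⟩
  have h12 : i = 1 ∨ i = 2 := by
    simp only at hx
    fin_cases i
    · exact absurd rfl hx
    · left; rfl
    · right; rfl
  cases b
  · rw [lett_false]
    rcases h12 with rfl | rfl
    · right; right; left; rfl
    · right; right; right; rfl
  · rw [lett_true]
    rcases h12 with rfl | rfl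
    · left; rfl
    · right; left; rfl

theorem hom_In12 (φ : FreeGroup (Fin 3) →* FreeGroup (Fin 3)) (h1 : In12 (φ (of 1)))
    (h2 : In12 (φ (of 2))) {g : FreeGroup (Fin 3)} (hg : In12 g) : In12 (φ g) := by
  refine In12_induction (P := fun g => In12 (φ g)) ?_ ?_ hg
  · rw [map_one]; exact In12_one
  · intro x hx g _ hP
    rw [map_mul]
    refine In12_mul ?_ hP
    rcases In12A_cases hx with h | h | h | h
    · rw [h]; exact h1
    · rw [h]; exact h2
    · rw [h, map_inv]; exact In12_inv h1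
    · rw [h, map_inv]; exact In12_inv h2

/-- homomorphisms that agree on `b, c` agree on `⟨b, c⟩` -/
theorem hom_eq12 {G : Type*} [Group G] (φ ψ : FreeGroup (Fin 3) →* G)
    (h1 : φ (of 1) = ψ (of 1)) (h2 : φ (of 2) = ψ (of 2)) {g : FreeGroup (Fin 3)} (hg : In12 g) :
    φ g = ψ g := by
  refine In12_induction (P := fun g => φ g = ψ g) ?_ ?_ hg
  · rw [map_one, map_one]
  · intro x hx g _ hP
    rw [map_mul, map_mul, hP]
    congr 1
    rcases In12A_cases hx with h | h | h | h
    · rw [h]; exact h1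
    · rw [h]; exact h2
    · rw [h, map_inv, map_inv, h1]
    · rw [h, map_inv, map_inv, h2]

theorem cnt_of_In12 {g : FreeGroup (Fin 3)} (hg : In12 g) : cnt (ConjClasses.mk g) 0 = 0 := by
  obtain ⟨C, R, hR, h⟩ := Cyc_split g
  rw [← Cyc_cls_split h, cnt_cls hR]
  unfold cntL
  rw [List.countP_eq_zero]
  intro x hx
  have hx2 : x ∈ g.toWord := by
    rw [h]
    exact List.mem_append_left _ (List.mem_append_right _ hx)
  simpa using hg x hx2

theorem exists_In12 {Y : CC} (h : cnt Y 0 = 0) :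
    ∃ g, In12 g ∧ ConjClasses.mk g = Y ∧ g.norm = cycLen Y ∧ CR g.toWord := by
  have hCR := rep_CR Y
  have hcls := cls_rep Y
  have hw : (FreeGroup.mk (rep Y)).toWord = rep Y := by
    rw [FreeGroup.toWord_mk, hCR.1.reduce_eq]
  refine ⟨FreeGroup.mk (rep Y), ?_, hcls, ?_, ?_⟩
  · apply In12_mk
    intro x hx h0
    unfold cnt cntL at h
    rw [List.countP_eq_zero] at h
    exact h x hx (by simpa using h0)
  · rw [FreeGroup.norm, hw, cycLen_eq_rep]
  · rw [hw]; exact hCR

theorem act_conj12 (φ ψ : FreeGroup (Fin 3) ≃* FreeGroup (Fin 3)) (k : FreeGroup (Fin 3))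
    (h1 : φ (of 1) = k * ψ (of 1) * k⁻¹) (h2 : φ (of 2) = k * ψ (of 2) * k⁻¹)
    {R : CC} (hR : cnt R 0 = 0) : act φ R = act ψ R := by
  obtain ⟨g, hg, rfl, -, -⟩ := exists_In12 hR
  rw [act_mk, act_mk]
  have h3 : φ g = k * ψ g * k⁻¹ := by
    have := hom_eq12 φ.toMonoidHom ((MulAut.conj k).toMonoidHom.comp ψ.toMonoidHom)
      (by simpa using h1) (by simpa using h2) hg
    simpa using this
  rw [h3, ConjClasses.mk_eq_mk_iff_isConj, isConj_iff]
  refine ⟨k⁻¹, ?_⟩
  group

/-- a class without letters `a^{±1}` stays so -/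
theorem cnt_act12 (φ : FreeGroup (Fin 3) ≃* FreeGroup (Fin 3)) (h : ∀ g, In12 g → In12 (φ g))
    {R : CC} (hR : cnt R 0 = 0) : cnt (act φ R) 0 = 0 := by
  obtain ⟨g, hg, rfl, -, -⟩ := exists_In12 hR
  rw [act_mk]
  exact cnt_of_In12 (h g hg)

end Pool.Agent.Sims
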