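import Pool.Agent.Sims.In12A

/-!
# Module `In12B` : automorphisms compatible with `⟨b, c⟩`

* `exists_tw`: the homomorphism with `a ↦ p a q`, `b ↦ b`, `c ↦ c` has the inverse `a ↦ p⁻¹ a q⁻¹` (`hom_eq12`:
  both fix `⟨b,c⟩` pointwise).
* `Good_wh`: `z.1 ≠ 0`: `wh_lett_ne` for `a` gives `p, q ∈ {1, z^{±1}}`; `b, c` are mapped into `⟨b,c⟩`, use `hom_In12`.
* `Good_tau`, `Good_sig`, `Good_SPerm` (signed permutations with `a ↦ a`; they map `b, c` to letters of the
  generators `b, c`).
* `act_same`: `φ(a g a h) = p a q φ(g) p a q φ(h)` is conjugate (by `p`) to `a (q φ(g) p) a (q φ(h) p)`.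
  `act_opp`: `φ(a g a⁻¹ h) = p a q φ(g) q⁻¹ a⁻¹ p⁻¹ φ(h)`.
* `same_comm`: rotation.
Difficulty 1-2.
-/

namespace Pool.Agent.Sims

open FreeGroup (of)

/-- `a ↦ p a q`, `b ↦ b`, `c ↦ c` -/
def In12B_hom (p q : FreeGroup (Fin 3)) : FreeGroup (Fin 3) →* FreeGroup (Fin 3) :=
  FreeGroup.lift (fun i => if i = 0 then p * of 0 * q else of i)

theorem In12B_hom_zero (p q : FreeGroup (Fin 3)) : In12B_hom p q (of 0) = p * of 0 * q := by
  simp [In12B_hom]

theorem In12B_hom_ne (p q : FreeGroup (Fin 3)) {i : Fin 3} (hi : i ≠ 0) :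
    In12B_hom p q (of i) = of i := by
  simp [In12B_hom, hi]

theorem In12B_hom_fix (p q : FreeGroup (Fin 3)) {g : FreeGroup (Fin 3)} (hg : In12 g) :
    In12B_hom p q g = g := by
  have := hom_eq12 (In12B_hom p q) (MonoidHom.id _) (by rw [In12B_hom_ne _ _ (by decide)]; rfl)
    (by rw [In12B_hom_ne _ _ (by decide)]; rfl) hg
  simpa using this

theorem In12B_hom_hom {p q : FreeGroup (Fin 3)} (hp : In12 p) (hq : In12 q)
    (g : FreeGroup (Fin 3)) : In12B_hom p⁻¹ q⁻¹ (In12B_hom p q g) = g := by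
  have : (In12B_hom p⁻¹ q⁻¹).comp (In12B_hom p q) = MonoidHom.id _ := by
    ext i
    by_cases hi : i = 0
    · subst hi
      rw [MonoidHom.comp_apply, In12B_hom_zero, map_mul, map_mul, In12B_hom_zero,
        In12B_hom_fix _ _ hp, In12B_hom_fix _ _ hq]
      simp only [MonoidHom.id_apply]
      group
    · rw [MonoidHom.comp_apply, In12B_hom_ne _ _ hi, In12B_hom_ne _ _ hi]
      rfl
  exact DFunLike.congr_fun this g

theorem exists_tw {p q : FreeGroup (Fin 3)} (hp : In12 p) (hq : In12 q) :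
    ∃ φ : FreeGroup (Fin 3) ≃* FreeGroup (Fin 3), φ (of 0) = p * of 0 * q ∧
      ∀ g, In12 g → φ g = g := by
  refine ⟨{ toFun := In12B_hom p q
            invFun := In12B_hom p⁻¹ q⁻¹
            left_inv := In12B_hom_hom hp hq
            right_inv := fun g => ?_
            map_mul' := map_mul _ }, ?_, ?_⟩
  · have := In12B_hom_hom (In12_inv hp) (In12_inv hq) g
    simpa using this
  · exact In12B_hom_zero p q
  · intro g hg
    exact In12B_hom_fix p q hg

theorem Good_comp {φ ψ : FreeGroup (Fin 3) ≃* FreeGroup (Fin 3)} {p q p' q' : FreeGroup (Fin 3)}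
    (h : Good φ p q) (h' : Good ψ p' q') : Good (φ.trans ψ) (ψ p * p') (q' * ψ q) := by
  obtain ⟨h1, h2, h3, h4⟩ := h
  obtain ⟨k1, k2, k3, k4⟩ := h'
  refine ⟨In12_mul (k4 _ h1) k1, In12_mul k2 (k4 _ h2), ?_, fun g hg => k4 _ (h4 _ hg)⟩
  rw [MulEquiv.trans_apply, h3, map_mul, map_mul, k3]
  group

theorem In12B_ne_zero {i : Fin 3} (h : i ≠ 0) : i = 1 ∨ i = 2 := by
  fin_cases i
  · exact absurd rfl h
  · exact Or.inl rfl
  · exact Or.inr rfl

theorem Good_wh {z : Fin 3 × Bool} (hz : z.1 ≠ 0) (A : Fin 3 × Bool → Bool) :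
    ∃ p q, Good (wh z A) p q := by
  have hzl : In12 (lett z) := In12_lett hz
  have hite : ∀ b : Bool, In12 (if b then (lett z)⁻¹ else 1) := by
    intro b
    cases b
    · simpa using In12_one
    · simpa using In12_inv hzl
  have hite' : ∀ b : Bool, In12 (if b then lett z else 1) := by
    intro b
    cases b
    · simpa using In12_one
    · simpa using hzl
  have hof : ∀ i : Fin 3, i ≠ 0 → In12 (wh z A (of i)) := by
    intro i hi
    by_cases h : i = z.1
    · have : wh z A (of i) = of i := by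
        subst h
        exact potFun_of_self _ _
      rw [this]
      exact In12_of hi
    · rw [← lett_true, wh_lett_ne z A (x := (i, true)) h]
      exact In12_mul (In12_mul (hite _) (In12_lett hi)) (hite' _)
  refine ⟨if A (bar (0, true)) then (lett z)⁻¹ else 1, if A (0, true) then lett z else 1,
    hite _, hite' _, ?_, ?_⟩
  · have h0 : ((0, true) : Fin 3 × Bool).1 ≠ z.1 := fun h => hz h.symm
    have := wh_lett_ne z A h0
    rw [lett_true] at this
    exact this
  · intro g hg
    exact hom_In12 (wh z A).toMonoidHom (hof 1 (by decide)) (hof 2 (by decide)) hg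

theorem Good_tau (k : ℤ) : Good (tau k) 1 1 := by
  have h0 : tau k (of 0) = of 0 := by
    show potFun (2 : Fin 3) (fun x => if x = (1, true) then k else 0) (of 0) = of 0
    rw [potFun_of_ne _ (by decide)]
    simp
  have h1 : tau k (of 1) = of 1 * of 2 ^ k := by
    show potFun (2 : Fin 3) (fun x => if x = (1, true) then k else 0) (of 1) = _
    rw [potFun_of_ne _ (by decide)]
    simp
  have h2 : tau k (of 2) = of 2 :=
    potFun_of_self (2 : Fin 3) (fun x => if x = (1, true) then k else 0)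
  refine ⟨In12_one, In12_one, by rw [h0]; simp, fun g hg => ?_⟩
  refine hom_In12 (tau k).toMonoidHom ?_ ?_ hg
  · show In12 (tau k (of 1))
    rw [h1]
    exact In12_mul (In12_of (by decide)) (In12_zpow (In12_of (by decide)) k)
  · show In12 (tau k (of 2))
    rw [h2]
    exact In12_of (by decide)

theorem Good_sig (k : ℤ) : Good (sig k) 1 1 := by
  have h0 : sig k (of 0) = of 0 := by
    show potFun (1 : Fin 3) (fun x => if x = (2, true) then k else 0) (of 0) = of 0
    rw [potFun_of_ne _ (by decide)]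
    simp
  have h2 : sig k (of 2) = of 2 * of 1 ^ k := by
    show potFun (1 : Fin 3) (fun x => if x = (2, true) then k else 0) (of 2) = _
    rw [potFun_of_ne _ (by decide)]
    simp
  have h1 : sig k (of 1) = of 1 :=
    potFun_of_self (1 : Fin 3) (fun x => if x = (2, true) then k else 0)
  refine ⟨In12_one, In12_one, by rw [h0]; simp, fun g hg => ?_⟩
  refine hom_In12 (sig k).toMonoidHom ?_ ?_ hg
  · show In12 (sig k (of 1))
    rw [h1]
    exact In12_of (by decide)
  · show In12 (sig k (of 2))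
    rw [h2]
    exact In12_mul (In12_of (by decide)) (In12_zpow (In12_of (by decide)) k)

theorem Good_SPerm {σ : SPerm (Fin 3)} (h : Fix0 σ) : Good σ.aut 1 1 := by
  obtain ⟨hp, hs⟩ := h
  have hof : ∀ i : Fin 3, σ.aut (of i) = lett (σ.letter (i, true)) := by
    intro i
    show σ.hom (of i) = _
    rw [← lett_true, SPerm.hom_lett]
  have hne : ∀ i : Fin 3, i ≠ 0 → In12 (σ.aut (of i)) := by
    intro i hi
    rw [hof]
    apply In12_lett
    intro h0
    apply hi
    have h1 : σ.perm i = 0 := h0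
    rw [← hp] at h1
    exact σ.perm.injective h1
  refine ⟨In12_one, In12_one, ?_, fun g hg => ?_⟩
  · rw [hof]
    simp only [SPerm.letter, hp, hs, if_true, one_mul, mul_one]
    rfl
  · exact hom_In12 σ.aut.toMonoidHom (hne 1 (by decide)) (hne 2 (by decide)) hg

theorem act_same {φ : FreeGroup (Fin 3) ≃* FreeGroup (Fin 3)} {p q : FreeGroup (Fin 3)}
    (h : Good φ p q) (g g' : FreeGroup (Fin 3)) :
    act φ (same g g') = same (q * φ g * p) (q * φ g' * p) := by
  obtain ⟨h1, h2, h3, h4⟩ := h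
  rw [same, same, act_mk, ConjClasses.mk_eq_mk_iff_isConj, isConj_iff]
  refine ⟨p⁻¹, ?_⟩
  simp only [map_mul, h3]
  group

theorem act_opp {φ : FreeGroup (Fin 3) ≃* FreeGroup (Fin 3)} {p q : FreeGroup (Fin 3)}
    (h : Good φ p q) (g g' : FreeGroup (Fin 3)) :
    act φ (opp g g') = opp (q * φ g * q⁻¹) (p⁻¹ * φ g' * p) := by
  obtain ⟨h1, h2, h3, h4⟩ := h
  rw [opp, opp, act_mk, ConjClasses.mk_eq_mk_iff_isConj, isConj_iff]
  refine ⟨p⁻¹, ?_⟩
  simp only [map_mul, map_inv, h3]
  group

/-- the invariant of `act_same` -/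
theorem mk_same {φ : FreeGroup (Fin 3) ≃* FreeGroup (Fin 3)} {p q : FreeGroup (Fin 3)}
    (g g' : FreeGroup (Fin 3)) :
    ConjClasses.mk ((q * φ g * p) * (q * φ g' * p)⁻¹) = act φ (ConjClasses.mk (g * g'⁻¹)) := by
  rw [act_mk, ConjClasses.mk_eq_mk_iff_isConj, isConj_iff]
  refine ⟨q⁻¹, ?_⟩
  simp only [map_mul, map_inv]
  group

theorem mk_opp {φ : FreeGroup (Fin 3) ≃* FreeGroup (Fin 3)} {p q : FreeGroup (Fin 3)}
    (g g' : FreeGroup (Fin 3)) :
    ConjClasses.mk (q * φ g * q⁻¹) = act φ (ConjClasses.mk g) ∧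
      ConjClasses.mk (p⁻¹ * φ g' * p) = act φ (ConjClasses.mk g') := by
  constructor
  · rw [act_mk, ConjClasses.mk_eq_mk_iff_isConj, isConj_iff]
    refine ⟨q⁻¹, ?_⟩
    group
  · rw [act_mk, ConjClasses.mk_eq_mk_iff_isConj, isConj_iff]
    refine ⟨p, ?_⟩
    group

theorem same_comm (g h : FreeGroup (Fin 3)) : same g h = same h g := by
  rw [same, same, ConjClasses.mk_eq_mk_iff_isConj, isConj_iff]
  refine ⟨(of 0 * g)⁻¹, ?_⟩
  group

/-- the sign change of `a` exchanges the two parts of `opp` -/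
theorem opp_flip (g h : FreeGroup (Fin 3)) (hg : In12 g) (hh : In12 h) :
    act (flp (fun i => decide (i ≠ 0))).aut (opp g h) = opp h g := by
  have h0 : (flp (fun i => decide (i ≠ 0))).aut (of (0 : Fin 3)) = (of 0)⁻¹ := by
    rw [flp_of]
    simp
  have hfix : ∀ x : FreeGroup (Fin 3), In12 x → (flp (fun i => decide (i ≠ 0))).aut x = x := by
    intro x hx
    have := hom_eq12 (flp (fun i => decide (i ≠ 0))).aut.toMonoidHom (MonoidHom.id _)
      (by
        show (flp (fun i => decide (i ≠ 0))).aut (of (1 : Fin 3)) = of 1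
        rw [flp_of]; simp)
      (by
        show (flp (fun i => decide (i ≠ 0))).aut (of (2 : Fin 3)) = of 2
        rw [flp_of]; simp) hx
    exact this
  rw [opp, opp, act_mk, ConjClasses.mk_eq_mk_iff_isConj, isConj_iff]
  refine ⟨of 0 * h, ?_⟩
  simp only [map_mul, map_inv, h0, hfix g hg, hfix h hh]
  group

end Pool.Agent.Sims
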