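import Pool.Agent.Sims.Cyc

/-!
# Module `Lin` : cyclic sums, capacities

`lin f x l z` is the sum of `f` over consecutive pairs of the path `x, l₁, …, l_k, z`;
`cyc f (x :: l) = lin f x l x`.  All statements are elementary.
`cap_single`: in a cyclically reduced word no `i` has both `w_i = z` and `w_{i+1} = z⁻¹`; the pair
`(w_i, w_{i+1})` is counted iff exactly one of `w_i = z`, `w_{i+1}⁻¹ = z` holds, i.e. iff `w_i = z` or
`w_{i+1} = z⁻¹`.
`cap_submod`, `cap_submod'` hold for every single pair of letters (16 cases each).
Difficulty 1.
-/

namespace Pool.Agent.Sims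

set_option linter.unusedSectionVars false

variable {α : Type*} [DecidableEq α] {β : Type*}

theorem lin_append (f : β → β → ℕ) (x : β) (l : List β) (y : β) (m : List β) (z : β) :
    lin f x (l ++ y :: m) z = lin f x l y + lin f y m z := by
  induction l generalizing x with
  | nil => rfl
  | cons a l ih =>
    show f x a + lin f a (l ++ y :: m) z = (f x a + lin f a l y) + lin f y m z
    rw [ih, add_assoc]

theorem Lin_rotate_one (f : β → β → ℕ) (l : List β) : cyc f (l.rotate 1) = cyc f l := by
  cases l with
  | nil => rfl
  | cons x l =>
    rw [List.rotate_cons_succ, List.rotate_zero]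
    cases l with
    | nil => rfl
    | cons y m =>
      show lin f y (m ++ [x]) y = f x y + lin f y m x
      rw [lin_append]
      show lin f y m x + f x y = f x y + lin f y m x
      rw [add_comm]

theorem cyc_rotated (f : β → β → ℕ) {u v : List β} (h : u ~r v) : cyc f u = cyc f v := by
  obtain ⟨n, rfl⟩ := h
  induction n with
  | zero => rw [List.rotate_zero]
  | succ n ih => rw [← List.rotate_rotate u n 1, Lin_rotate_one, ih]

theorem lin_mono {f g : β → β → ℕ} (h : ∀ x y, f x y ≤ g x y) (x : β) (l : List β) (z : β) :
    lin f x l z ≤ lin g x l z := by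
  induction l generalizing x with
  | nil => exact h x z
  | cons a l ih => exact Nat.add_le_add (h x a) (ih a)

theorem cyc_mono {f g : β → β → ℕ} (h : ∀ x y, f x y ≤ g x y) (l : List β) :
    cyc f l ≤ cyc g l := by
  cases l with
  | nil => exact le_rfl
  | cons x l => exact lin_mono h x l x

theorem Lin_add (f g : β → β → ℕ) (x : β) (l : List β) (z : β) :
    lin (fun x y => f x y + g x y) x l z = lin f x l z + lin g x l z := by
  induction l generalizing x with
  | nil => rfl
  | cons a l ih =>
    show (f x a + g x a) + lin (fun x y => f x y + g x y) a l z =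
      (f x a + lin f a l z) + (g x a + lin g a l z)
    rw [ih, add_add_add_comm]

theorem cyc_add (f g : β → β → ℕ) (l : List β) :
    cyc (fun x y => f x y + g x y) l = cyc f l + cyc g l := by
  cases l with
  | nil => rfl
  | cons x l => exact Lin_add f g x l x

theorem Lin_fst (f : β → ℕ) (x : β) (l : List β) (z : β) :
    lin (fun x _ => f x) x l z = f x + (l.map f).sum := by
  induction l generalizing x with
  | nil => rfl
  | cons a l ih =>
    show f x + lin (fun x _ => f x) a l z = f x + ((a :: l).map f).sum
    rw [ih, List.map_cons, List.sum_cons]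

/-- a cyclic sum of a function of the first entry -/
theorem cyc_fst (f : β → ℕ) (l : List β) : cyc (fun x _ => f x) l = (l.map f).sum := by
  cases l with
  | nil => rfl
  | cons x l =>
    rw [List.map_cons, List.sum_cons]
    exact Lin_fst f x l x

theorem Lin_snd (f : β → ℕ) (x : β) (l : List β) (z : β) :
    lin (fun _ y => f y) x l z = (l.map f).sum + f z := by
  induction l generalizing x with
  | nil => simp [lin]
  | cons a l ih =>
    show f a + lin (fun _ y => f y) a l z = ((a :: l).map f).sum + f z
    rw [ih, List.map_cons, List.sum_cons, add_assoc]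

theorem cyc_snd (f : β → ℕ) (l : List β) : cyc (fun _ y => f y) l = (l.map f).sum := by
  cases l with
  | nil => rfl
  | cons x l =>
    rw [List.map_cons, List.sum_cons, add_comm (f x)]
    exact Lin_snd f x l x

theorem cap_rotated {u v : List (α × Bool)} (h : u ~r v) (A : α × Bool → Bool) :
    cap u A = cap v A := cyc_rotated _ h

theorem cntL_rotated {u v : List (α × Bool)} (h : u ~r v) (i : α) : cntL u i = cntL v i :=
  h.perm.countP_eq _

theorem cnt_cls {w : List (α × Bool)} (hw : CR w) (i : α) : cnt (cls w) i = cntL w i :=
  cntL_rotated (rep_rotated hw) i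

theorem capC_cls {w : List (α × Bool)} (hw : CR w) (A : α × Bool → Bool) :
    capC (cls w) A = cap w A :=
  cap_rotated (rep_rotated hw) A

theorem cycLen_eq_rep (c : ConjClasses (FreeGroup α)) : cycLen c = (rep c).length := by
  have h := cycLen_cls (rep_CR c)
  rwa [cls_rep] at h

theorem capC_compl (c : ConjClasses (FreeGroup α)) (A : α × Bool → Bool) :
    capC c (fun x => !A x) = capC c A := by
  unfold capC cap
  congr 1
  funext x y
  beta_reduce
  generalize A x = a1
  generalize A (bar y) = a2
  revert a1 a2
  decide

theorem capC_submod (c : ConjClasses (FreeGroup α)) (A B : α × Bool → Bool) :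
    capC c (fun x => A x && B x) + capC c (fun x => A x || B x) ≤ capC c A + capC c B := by
  unfold capC cap
  rw [← cyc_add, ← cyc_add]
  apply cyc_mono
  intro x y
  beta_reduce
  generalize A x = a1
  generalize A (bar y) = a2
  generalize B x = b1
  generalize B (bar y) = b2
  revert a1 a2 b1 b2
  decide

theorem capC_submod' (c : ConjClasses (FreeGroup α)) (A B : α × Bool → Bool) :
    capC c (fun x => A x && !B x) + capC c (fun x => !A x && B x) ≤ capC c A + capC c B := by
  unfold capC cap
  rw [← cyc_add, ← cyc_add]
  apply cyc_mono
  intro x y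
  beta_reduce
  generalize A x = a1
  generalize A (bar y) = a2
  generalize B x = b1
  generalize B (bar y) = b2
  revert a1 a2 b1 b2
  decide

theorem Lin_congr_chain {R : β → β → Prop} {f g : β → β → ℕ} (h : ∀ a b, R a b → f a b = g a b)
    (x : β) (l : List β) (z : β) (hc : List.IsChain R (x :: (l ++ [z]))) :
    lin f x l z = lin g x l z := by
  induction l generalizing x with
  | nil =>
    have h1 : R x z := by
      rw [List.nil_append, List.isChain_cons_cons] at hc
      exact hc.1
    exact h x z h1
  | cons a l ih =>
    rw [List.cons_append, List.isChain_cons_cons] at hc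
    show f x a + lin f a l z = g x a + lin g a l z
    rw [h x a hc.1, ih a hc.2]

theorem Lin_cyc_congr {f g : α × Bool → α × Bool → ℕ}
    (h : ∀ a b : α × Bool, (a.1 = b.1 → a.2 = b.2) → f a b = g a b) {w : List (α × Bool)}
    (hw : CR w) : cyc f w = cyc g w := by
  cases w with
  | nil => rfl
  | cons x l =>
    refine Lin_congr_chain (R := fun a b : α × Bool => a.1 = b.1 → a.2 = b.2) h x l x ?_
    have h1 : List.IsChain (fun a b : α × Bool => a.1 = b.1 → a.2 = b.2) ((x :: l) ++ [x]) := by
      rw [List.isChain_append]
      refine ⟨hw.1, List.isChain_singleton _, ?_⟩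
      intro a ha b hb
      have hb' : b = x := by
        rw [List.head?_cons, Option.mem_def, Option.some_inj] at hb
        exact hb.symm
      subst hb'
      exact hw.2 a ha b (by rw [List.head?_cons]; rfl)
    exact h1

theorem Lin_sum_single (w : List (α × Bool)) (z : α × Bool) :
    (w.map (fun x => if x = z then 1 else 0)).sum + (w.map (fun x => if x = bar z then 1 else 0)).sum
      = cntL w z.1 := by
  unfold cntL
  induction w with
  | nil => rfl
  | cons a w ih =>
    rw [List.map_cons, List.map_cons, List.sum_cons, List.sum_cons, List.countP_cons, ← ih]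
    obtain ⟨i, b⟩ := a
    obtain ⟨j, c⟩ := z
    by_cases hij : i = j
    · subst hij
      cases b <;> cases c <;> simp [bar] <;> omega
    · simp [bar, hij]

theorem capC_single (c : ConjClasses (FreeGroup α)) (z : α × Bool) :
    capC c (fun x => decide (x = z)) = cnt c z.1 := by
  unfold capC cap cnt
  rw [← Lin_sum_single, ← cyc_fst, ← cyc_snd, ← cyc_add]
  refine Lin_cyc_congr ?_ (rep_CR c)
  intro a b hab
  have hbar : (bar b = z) ↔ (b = bar z) := by
    rw [← bar_inj, bar_bar]
  by_cases h1 : a = z
  · by_cases h2 : b = bar z
    · exfalso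
      have h3 : a.1 = b.1 := by rw [h1, h2, bar_fst]
      have h4 := hab h3
      rw [h1, h2, bar_snd] at h4
      cases hz : z.2 <;> simp [hz] at h4
    · have h2' : ¬ bar b = z := fun h => h2 (hbar.1 h)
      simp [h1, h2, h2']
  · by_cases h2 : b = bar z
    · have h2' : bar b = z := hbar.2 h2
      simp [h1, h2]
    · have h2' : ¬ bar b = z := fun h => h2 (hbar.1 h)
      simp [h1, h2, h2']

theorem capC_congr (c : ConjClasses (FreeGroup α)) {A B : α × Bool → Bool} (h : ∀ x, A x = B x) :
    capC c A = capC c B := by
  have : A = B := funext h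
  rw [this]

theorem cycLen_eq_sum [Fintype α] (c : ConjClasses (FreeGroup α)) : cycLen c = ∑ i, cnt c i := by
  rw [cycLen_eq_rep]
  unfold cnt cntL
  generalize rep c = w
  induction w with
  | nil => simp
  | cons a w ih =>
    simp only [List.length_cons, List.countP_cons, Finset.sum_add_distrib, ← ih]
    congr 1
    simp

end Pool.Agent.Sims
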