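import Pool.Agent.Sims.SameA

/-!
# Module `LoA` : the words of the lower bound

`uW M t` : the word `b⁻¹ c b c^{-t} b c^{M-t} b c` (`a = 0`, `b = 1`, `c = 2`; `(i, false)` is the inverse letter), of length `M + 6` for `t ≤ M`.
`loW M t r s` : `a D⁻¹ a T` where `T D` is the rotation by `r` of `uW M t`, `T` of length `s`.
`w0 M` : `a a (uW M 0)`.
All statements: unfold, `simp` (`List.length_replicate`, `FreeGroup.invRev_length`, `List.count..`); for `CR`: `uW_CR` directly (`List.isChain_append`, `List.isChain_replicate`-like, or by cases `t = 0`, `M - t = 0`);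
`loW_CR`: `SameA_CR` with `ε = true` (`G = invRev (drop s x)`, `H = take s x`, `x = (uW M t).rotate r`): a rotation of a cyclically reduced word is cyclically reduced (`CR_of_rotated`, `List.IsRotated`), so reduced, and
so are its prefixes and suffixes (sublists of consecutive letters of a chain) and `invRev` (`Cyc_invRev_reduced`).
Counts: `cntL` of a rotation: `cntL_rotated`; `cntL (invRev l) i = cntL l i` (`SameB_cntL_invRev`), `cntL (take s x) i + cntL (drop s x) i = cntL x i`.
Difficulty 1-2.
-/

namespace Pool.Agent.Sims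

open FreeGroup (of)

/-- the word `b⁻¹ c b c^{-t} b c^{M-t} b c` -/
def uW (M t : ℕ) : List (Fin 3 × Bool) :=
  (1, false) :: (2, true) :: (1, true) :: (List.replicate t (2, false) ++
    (1, true) :: (List.replicate (M - t) (2, true) ++ [(1, true), (2, true)]))

/-- the word `a D⁻¹ a T`, `T D` the rotation by `r` of `uW M t`, `T` of length `s` -/
def loW (M t r s : ℕ) : List (Fin 3 × Bool) :=
  (0, true) :: (FreeGroup.invRev (((uW M t).rotate r).drop s) ++
    (0, true) :: ((uW M t).rotate r).take s)

/-- the word `a a (uW M 0)` -/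
def w0 (M : ℕ) : List (Fin 3 × Bool) := (0, true) :: (0, true) :: uW M 0

theorem LoA_rep (k : ℕ) (e : Bool) : List.IsChain (fun a b : Fin 3 × Bool => a.1 = b.1 → a.2 = b.2)
    (List.replicate k (2, e)) := by
  induction k with
  | zero => simp
  | succ k ih =>
    rw [List.replicate_succ, List.isChain_cons]
    refine ⟨?_, ih⟩
    intro y hy _
    have := List.eq_of_mem_replicate (List.mem_of_mem_head? hy)
    rw [this]

theorem LoA_tail (k : ℕ) : List.IsChain (fun a b : Fin 3 × Bool => a.1 = b.1 → a.2 = b.2)
    ((2, true) :: (List.replicate k (2, true) ++ [(1, true), (2, true)])) := by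
  have h := LoA_rep (k + 1) true
  rw [List.replicate_succ] at h
  rw [← List.cons_append, List.isChain_append]
  refine ⟨h, by simp, ?_⟩
  intro x hx y hy h1
  have hx' : x ∈ (2, true) :: List.replicate k ((2, true) : Fin 3 × Bool) :=
    List.mem_of_mem_getLast? hx
  have hx2 : x = (2, true) := by
    rw [← List.replicate_succ] at hx'
    exact List.eq_of_mem_replicate hx'
  have hy2 : y = (1, true) := by simpa using hy.symm
  rw [hx2, hy2] at h1
  simp at h1

theorem LoA_mid (j : ℕ) (L : List (Fin 3 × Bool))
    (hL : List.IsChain (fun a b : Fin 3 × Bool => a.1 = b.1 → a.2 = b.2) ((1, true) :: L))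
    (_h : True) :
    List.IsChain (fun a b : Fin 3 × Bool => a.1 = b.1 → a.2 = b.2)
    ((2, false) :: (List.replicate j (2, false) ++ (1, true) :: L)) := by
  have h := LoA_rep (j + 1) false
  rw [List.replicate_succ] at h
  rw [← List.cons_append, List.isChain_append]
  refine ⟨h, hL, ?_⟩
  intro x hx y hy h1
  have hx' : x ∈ (2, false) :: List.replicate j ((2, false) : Fin 3 × Bool) :=
    List.mem_of_mem_getLast? hx
  have hx2 : x = (2, false) := by
    rw [← List.replicate_succ] at hx'
    exact List.eq_of_mem_replicate hx'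
  have hy2 : y = (1, true) := by simpa using hy.symm
  rw [hx2, hy2] at h1
  simp at h1

theorem uW_length {M t : ℕ} (ht : t ≤ M) : (uW M t).length = M + 6 := by
  simp [uW]
  omega

theorem uW_CR (M t : ℕ) : CR (uW M t) := by
  refine ⟨?_, ?_⟩
  · unfold FreeGroup.IsReduced uW
    rcases Nat.eq_zero_or_pos t with ht | ht
    · subst ht
      rcases Nat.eq_zero_or_pos (M - 0) with hM | hM
      · rw [hM]
        simp
      · obtain ⟨k, hk⟩ : ∃ k, M - 0 = k + 1 := ⟨M - 0 - 1, by omega⟩
        rw [hk]
        simp only [List.replicate_zero, List.nil_append, List.replicate_succ, List.cons_append,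
          List.isChain_cons_cons]
        refine ⟨by simp, by simp, by simp, by simp, ?_⟩
        exact LoA_tail k
    · obtain ⟨j, hj⟩ : ∃ j, t = j + 1 := ⟨t - 1, by omega⟩
      subst hj
      rcases Nat.eq_zero_or_pos (M - (j + 1)) with hM | hM
      · rw [hM]
        simp only [List.replicate_zero, List.nil_append, List.replicate_succ, List.cons_append,
          List.isChain_cons_cons]
        refine ⟨by simp, by simp, by simp, ?_⟩
        refine LoA_mid j _ ?_ ?_
        · simp
        · simp
      · obtain ⟨k, hk⟩ : ∃ k, M - (j + 1) = k + 1 := ⟨M - (j + 1) - 1, by omega⟩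
        rw [hk]
        simp only [List.replicate_succ, List.cons_append,
          List.isChain_cons_cons]
        refine ⟨by simp, by simp, by simp, ?_⟩
        refine LoA_mid j _ ?_ ?_
        · rw [List.isChain_cons_cons]
          exact ⟨by simp, LoA_tail k⟩
        · simp
  · intro a ha b hb
    have hb' : b = (1, false) := by simpa [uW] using hb.symm
    have ha' : a = (2, true) := by
      have : uW M t = ((1, false) :: (2, true) :: (1, true) :: (List.replicate t (2, false) ++
        (1, true) :: (List.replicate (M - t) (2, true) ++ [(1, true)]))) ++ [(2, true)] := by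
        simp [uW]
      rw [this, List.getLast?_append_of_ne_nil _ (by simp)] at ha
      simpa using ha.symm
    rw [ha', hb']
    simp

theorem uW_ne0 (M t : ℕ) : ∀ x ∈ uW M t, x.1 ≠ 0 := by
  intro x hx
  unfold uW at hx
  simp only [List.mem_cons, List.mem_append, List.mem_replicate, List.not_mem_nil,
    or_false] at hx
  rcases hx with h | h | h | h | h | h | h | h
  all_goals first | (rw [h]; simp) | (rw [h.2]; simp)

theorem uW_cnt {M t : ℕ} (ht : t ≤ M) : cntL (uW M t) 1 = 4 ∧ cntL (uW M t) 2 = M + 2 := by
  unfold cntL uW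
  simp [List.countP_append, List.countP_replicate]
  omega

/-- the letter `b⁻¹` occurs once, the letter `b` three times, `c⁻¹` `t` times -/
theorem uW_count (M t : ℕ) : (uW M t).count (1, false) = 1 ∧ (uW M t).count (1, true) = 3 ∧
    (uW M t).count (2, false) = t := by
  unfold uW
  refine ⟨?_, ?_, ?_⟩
  · simp [List.count_append, List.count_replicate]
  · simp [List.count_append, List.count_replicate]
  · simp [List.count_append, List.count_replicate]

theorem loW_CR (M t r s : ℕ) : CR (loW M t r s) := by
  have hx : CR ((uW M t).rotate r) := CR_of_rotated ⟨r, rfl⟩ (uW_CR M t)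
  have h0 : ∀ x ∈ (uW M t).rotate r, x.1 ≠ 0 := fun x hx => uW_ne0 M t x (List.mem_rotate.1 hx)
  have hr : FreeGroup.IsReduced ((uW M t).rotate r) := hx.1
  rw [← List.take_append_drop s ((uW M t).rotate r)] at hr
  unfold FreeGroup.IsReduced at hr
  rw [List.isChain_append] at hr
  unfold loW
  refine SameA_CR (Cyc_invRev_reduced hr.2.1) hr.1 ?_ ?_ true (Or.inl rfl)
  · intro x hx
    have h1 : bar x ∈ ((uW M t).rotate r).drop s := by
      unfold FreeGroup.invRev at hx
      rw [List.mem_reverse, List.mem_map] at hx
      obtain ⟨y, hy, hyx⟩ := hx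
      have : bar x = y := by
        rw [← hyx]
        simp [bar]
      rw [this]
      exact hy
    exact h0 (bar x) (List.mem_of_mem_drop h1)
  · intro x hx
    exact h0 x (List.mem_of_mem_take hx)

theorem loW_length {M t r s : ℕ} (ht : t ≤ M) (hs : s ≤ M + 6) :
    (loW M t r s).length = M + 8 := by
  have h1 : ((uW M t).rotate r).length = M + 6 := by
    rw [List.length_rotate, uW_length ht]
  unfold loW
  rw [List.length_cons, List.length_append, List.length_cons, FreeGroup.invRev_length,
    List.length_drop, List.length_take, h1]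
  omega

theorem loW_cnt {M t : ℕ} (ht : t ≤ M) (r s : ℕ) : cntL (loW M t r s) 0 = 2 ∧
    cntL (loW M t r s) 1 = 4 ∧ cntL (loW M t r s) 2 = M + 2 := by
  have h0 : ∀ x ∈ (uW M t).rotate r, x.1 ≠ 0 := fun x hx => uW_ne0 M t x (List.mem_rotate.1 hx)
  have hz : cntL ((uW M t).rotate r) 0 = 0 := SameA_cntL_zero h0
  have hc : ∀ i, cntL ((uW M t).rotate r) i = cntL (uW M t) i := by
    intro i
    unfold cntL
    exact (List.rotate_perm (uW M t) r).countP_eq _
  have hs : ∀ i, cntL (((uW M t).rotate r).take s) i + cntL (((uW M t).rotate r).drop s) i =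
      cntL ((uW M t).rotate r) i := by
    intro i
    unfold cntL
    rw [← List.countP_append, List.take_append_drop]
  have hi : ∀ (l : List (Fin 3 × Bool)) (i : Fin 3), cntL (FreeGroup.invRev l) i = cntL l i := by
    intro l i
    unfold cntL FreeGroup.invRev
    rw [List.countP_reverse, List.countP_map]
    rfl
  have hu := uW_cnt ht
  unfold loW
  refine ⟨?_, ?_, ?_⟩
  · rw [SameA_cntL, hi]
    have := hs 0
    simp
    omega
  · rw [SameA_cntL, hi]
    have h2 := hs 1
    have h3 := hc 1
    simp
    omega
  · rw [SameA_cntL, hi]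
    have h2 := hs 2
    have h3 := hc 2
    simp
    omega

theorem w0_eq (M : ℕ) : w0 M = loW M 0 0 (M + 6) := by
  unfold w0 loW
  rw [List.rotate_zero]
  have h : (uW M 0).length = M + 6 := uW_length (Nat.zero_le M)
  rw [← h, List.drop_length, List.take_length]
  rfl

theorem w0_CR (M : ℕ) : CR (w0 M) := by
  rw [w0_eq]
  exact loW_CR M 0 0 (M + 6)

theorem w0_length (M : ℕ) : (w0 M).length = M + 8 := by
  rw [w0_eq]
  exact loW_length (Nat.zero_le M) le_rfl

end Pool.Agent.Sims
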