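import Mathlib

/-!
# Module `LoB` : rotations of lists with one or two marked letters

* `rot_uniq`: `x` occurs once in `l`; the position of `x` in `l.rotate r` is `(i - r) mod l.length`, `i` the position in `l`.  E.g. wlog `r ≤ r'`; `l.rotate r' = (l.rotate r).rotate (r' - r)`, so with `l' = l.rotate r`,
  `d = r' - r < l.length`: `l'.rotate d = l'`; `l' = u ++ x :: v` with `x ∉ u`, `x ∉ v`; if `d > 0`, `l'.rotate d = l'` gives `l' = q ++ p` for `l' = p ++ q` with `p, q ≠ []`
  (`List.rotate_eq_drop_append_take`): `x` is in exactly one of `p`, `q`; compare the number of letters before `x`: contradiction.  Or use `List.idxOf`, `List.getElem_rotate`.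
* `cons_rot_uniq`: `x :: l ~r x :: l'`: `∃ n, (x :: l).rotate n = x :: l'`; `n mod length = 0`, otherwise `x ∈ l'` or `x ∈ l`.
* `two_rot`: `∃ n < length, (x :: (G ++ x :: H)).rotate n = x :: (G' ++ x :: H')`; split `x :: (G ++ x :: H) = p ++ q`, `q ++ p = x :: (G' ++ x :: H')` (`|p| = n`).  The head of `q ++ p` is `x`: if `n = 0` the lists are
  equal and `G = G'`, `H = H'` (`x ∉ G, G'`); otherwise `q ≠ []` starts with `x`, so `q = x :: H`, `p = x :: G`: `G' = H`, `H' = G`.
Difficulty 2.
-/

namespace Pool.Agent.Sims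

theorem LoB_split {β : Type*} {u v : List β} (h : u ~r v) :
    ∃ p q : List β, u = p ++ q ∧ v = q ++ p := by
  obtain ⟨n, hn, rfl⟩ := List.isRotated_iff_mod.1 h
  refine ⟨u.take n, u.drop n, (List.take_append_drop n u).symm, ?_⟩
  exact List.rotate_eq_drop_append_take hn

/-- splitting at the first occurrence of a letter -/
theorem LoB_first {β : Type*} {x : β} : ∀ {p q p' q' : List β}, x ∉ p → x ∉ p' →
    p ++ x :: q = p' ++ x :: q' → p = p' ∧ q = q'
  | [], q, [], q', _, _, h => by
    simp at h
    exact ⟨rfl, h⟩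
  | [], q, b :: p', q', _, h', h => by
    simp at h
    exact absurd (by rw [h.1]; simp) h'
  | a :: p, q, [], q', h1, _, h => by
    simp at h
    exact absurd (by rw [h.1]; simp) h1
  | a :: p, q, b :: p', q', h1, h2, h => by
    simp at h
    have h3 := LoB_first (p := p) (p' := p') (fun hh => h1 (by simp [hh]))
      (fun hh => h2 (by simp [hh])) h.2
    exact ⟨by rw [h.1, h3.1], h3.2⟩

theorem LoB_uniq {β : Type*} {x : β} {G H p q : List β} (hG : x ∉ G) (hH : x ∉ H)
    (h : G ++ x :: H = p ++ x :: q) : G = p ∧ H = q := by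
  rcases List.append_eq_append_iff.1 h with ⟨a, h1, h2⟩ | ⟨c, h1, h2⟩
  · rcases a with _ | ⟨y, a⟩
    · simp at h1 h2
      exact ⟨h1.symm, h2⟩
    · simp only [List.cons_append, List.cons.injEq] at h2
      exact absurd (by rw [h2.2]; simp) hH
  · rcases c with _ | ⟨y, c⟩
    · simp at h1 h2
      exact ⟨h1, h2.symm⟩
    · simp only [List.cons_append, List.cons.injEq] at h2
      exact absurd (by rw [h1, h2.1]; simp) hG

theorem LoB_fix {β : Type*} {x : β} {p q u v : List β} (hu : x ∉ u) (hv : x ∉ v)
    (h1 : p ++ q = u ++ x :: v) (h2 : q ++ p = u ++ x :: v) : p = [] ∨ q = [] := by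
  have hx : x ∈ p ++ q := by rw [h1]; simp
  rcases List.mem_append.1 hx with hp | hq
  · right
    obtain ⟨p1, p2, rfl⟩ := List.append_of_mem hp
    have h3 : u ++ x :: v = p1 ++ x :: (p2 ++ q) := by
      rw [← h1]
      simp
    have h4 : u ++ x :: v = (q ++ p1) ++ x :: p2 := by
      rw [← h2]
      simp
    have h5 := LoB_uniq hu hv h3
    have h6 := LoB_uniq hu hv h4
    have h7 : (q ++ p1).length = p1.length := by rw [← h6.1, ← h5.1]
    rw [List.length_append] at h7
    exact List.length_eq_zero_iff.1 (by omega)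
  · left
    obtain ⟨q1, q2, rfl⟩ := List.append_of_mem hq
    have h3 : u ++ x :: v = (p ++ q1) ++ x :: q2 := by
      rw [← h1]
      simp
    have h4 : u ++ x :: v = q1 ++ x :: (q2 ++ p) := by
      rw [← h2]
      simp
    have h5 := LoB_uniq hu hv h3
    have h6 := LoB_uniq hu hv h4
    have h7 : (p ++ q1).length = q1.length := by rw [← h5.1, ← h6.1]
    rw [List.length_append] at h7
    exact List.length_eq_zero_iff.1 (by omega)

theorem LoB_rot {β : Type*} [DecidableEq β] {l : List β} {x : β} (h : l.count x = 1) {r d : ℕ}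
    (hd : d < l.length) (he : l.rotate r = l.rotate (r + d)) : d = 0 := by
  have h1 : (l.rotate r).rotate d = l.rotate r := by rw [List.rotate_rotate, he]
  have hlen : (l.rotate r).length = l.length := List.length_rotate ..
  have hc : (l.rotate r).count x = 1 := by
    rw [(List.rotate_perm l r).count_eq]
    exact h
  rw [List.rotate_eq_drop_append_take (by omega)] at h1
  have h2 := List.take_append_drop d (l.rotate r)
  have hm : x ∈ l.rotate r := List.count_pos_iff.1 (by omega)
  obtain ⟨u, v, huv⟩ := List.append_of_mem hm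
  rw [huv, List.count_append, List.count_cons_self] at hc
  have hu : x ∉ u := List.count_eq_zero.1 (by omega)
  have hv : x ∉ v := List.count_eq_zero.1 (by omega)
  rcases LoB_fix hu hv (h2.trans huv) (h1.trans huv) with h3 | h3
  · have h4 := congrArg List.length h3
    rw [List.length_take, List.length_nil] at h4
    omega
  · have h4 := congrArg List.length h3
    rw [List.length_drop, List.length_nil] at h4
    omega

theorem rot_uniq {β : Type*} [DecidableEq β] {l : List β} {x : β} (h : l.count x = 1) {r r' : ℕ}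
    (hr : r < l.length) (hr' : r' < l.length) (he : l.rotate r = l.rotate r') : r = r' := by
  rcases le_total r r' with hle | hle
  · obtain ⟨d, rfl⟩ := Nat.exists_eq_add_of_le hle
    have := LoB_rot h (by omega) he
    omega
  · obtain ⟨d, rfl⟩ := Nat.exists_eq_add_of_le hle
    have := LoB_rot h (by omega) he.symm
    omega

theorem cons_rot_uniq {β : Type*} {l l' : List β} {x : β} (hx : x ∉ l) (hx' : x ∉ l')
    (h : (x :: l) ~r (x :: l')) : l = l' := by
  obtain ⟨p, q, h1, h2⟩ := LoB_split h
  rcases p with _ | ⟨a, p⟩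
  · simp at h1 h2
    rw [← h1] at h2
    simp at h2
    exact h2.symm
  · rcases q with _ | ⟨b, q⟩
    · simp at h1 h2
      rw [← h1.2] at h2
      exact h2.2.symm
    · simp at h1 h2
      exfalso
      apply hx
      rw [h1.2, h2.1]
      simp

/-- the same if the letter is in an arbitrary position -/
theorem app_rot_uniq {β : Type*} {p l p' l' : List β} {x : β} (hx : x ∉ p ++ l)
    (hx' : x ∉ p' ++ l') (h : (p ++ x :: l) ~r (p' ++ x :: l')) : l ++ p = l' ++ p' := by
  have h1 : (x :: (l ++ p)) ~r (p ++ x :: l) := by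
    have := @List.IsRotated.symm _ _ _ (List.isRotated_append (l := p) (l' := x :: l))
    simpa using this
  have h2 : (p' ++ x :: l') ~r (x :: (l' ++ p')) := by
    have := List.isRotated_append (l := p') (l' := x :: l')
    simpa using this
  refine cons_rot_uniq ?_ ?_ ((h1.trans h).trans h2)
  · intro hh
    apply hx
    simp at hh ⊢
    tauto
  · intro hh
    apply hx'
    simp at hh ⊢
    tauto

theorem two_rot {β : Type*} {x : β} {G H G' H' : List β} (hG : x ∉ G) (hH : x ∉ H)
    (hG' : x ∉ G') (hH' : x ∉ H')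
    (h : (x :: (G ++ x :: H)) ~r (x :: (G' ++ x :: H'))) :
    (G = G' ∧ H = H') ∨ (G = H' ∧ H = G') := by
  obtain ⟨p, q, h1, h2⟩ := LoB_split h
  rcases p with _ | ⟨a, p⟩
  · simp only [List.nil_append, List.append_nil] at h1 h2
    rw [← h1] at h2
    simp only [List.cons.injEq, true_and] at h2
    have h3 := LoB_first hG' hG h2
    exact Or.inl ⟨h3.1.symm, h3.2.symm⟩
  · rcases q with _ | ⟨b, q⟩
    · simp only [List.append_nil, List.nil_append] at h1 h2
      rw [← h1] at h2
      simp only [List.cons.injEq, true_and] at h2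
      have h3 := LoB_first hG' hG h2
      exact Or.inl ⟨h3.1.symm, h3.2.symm⟩
    · simp only [List.cons_append, List.cons.injEq] at h1 h2
      obtain ⟨h1a, h1⟩ := h1
      obtain ⟨h2b, h2⟩ := h2
      subst h1a
      subst h2b
      have h3 := LoB_uniq hG hH h1
      have hq : x ∉ q := by
        rw [← h3.2]
        exact hH
      have h4 := LoB_first hG' hq h2
      exact Or.inr ⟨by rw [h3.1, h4.2], by rw [h3.2, h4.1]⟩

end Pool.Agent.Sims
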