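import Pool.Agent.Sims.LoA
import Pool.Agent.Sims.LoB

/-!
# Module `LoC` : the cyclic words `uW M t` are different, also up to sign changes and inversion

`(flp ε).letter (i, e) = (i, if ε i then e else !e)`.
* `uW_flp`: counts of `(1, false)` and `(1, true)` (`uW_count`; permutation): `ε 1 = true` (otherwise `1 = 3`).  Then `(1, false)` occurs once in both lists, at the head: `cons_rot_uniq`: the tails are equal; the first letter
  of the tail is `(2, ε 2)`, resp. `(2, true)`: `ε 2 = true`.  Then the lists are equal (`map` of the identity), the count of `(2, false)` gives `t = t'`.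
* `uW_flp_inv`: `invRev (uW M t') = [C, B] ++ C^{M-t'} ++ [B] ++ c^{t'} ++ [B, C, b]` (capital letters: inverses) contains `b` once and `B` three times, so `ε 1 = false`, and by `app_rot_uniq` (letter `b`)
  `[c^ε, B] ++ (C^ε)^t ++ [B] ++ (c^ε)^{M-t} ++ [B, c^ε] = [C, B] ++ C^{M-t'} ++ [B] ++ c^{t'} ++ [B, C]`, `c^ε = C`, so `c^t ++ [B] ++ C^{M-t} ++ [B, C] = C^{M-t'} ++ [B] ++ c^{t'} ++ [B, C]`: compare heads in the cases
  `t = 0` / `t ≥ 1`, `M - t' = 0` / `≥ 1`; if `t = 0` and `M = t'`: `C^M ++ .. = c^M ++ ..`, contradiction since `M ≥ 1`.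
Difficulty 2.
-/

namespace Pool.Agent.Sims

open FreeGroup (of)

theorem LoC_inj (ε : Fin 3 → Bool) : Function.Injective (flp ε).letter :=
  Function.LeftInverse.injective (g := (flp ε).inv.letter) (fun x => (flp ε).inv_letter x)

theorem LoC_letter (ε : Fin 3 → Bool) (i : Fin 3) (e : Bool) :
    (flp ε).letter (i, e) = (i, if ε i then e else !e) := rfl

theorem LoC_count (ε : Fin 3 → Bool) (l : List (Fin 3 × Bool)) (x : Fin 3 × Bool) :
    (l.map (flp ε).letter).count ((flp ε).letter x) = l.count x :=
  List.count_map_of_injective _ _ (LoC_inj ε) _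

theorem LoC_bar_inj : Function.Injective (fun x : Fin 3 × Bool => (x.1, !x.2)) := by
  decide

theorem LoC_count_inv (l : List (Fin 3 × Bool)) (i : Fin 3) (e : Bool) :
    (FreeGroup.invRev l).count (i, e) = l.count (i, !e) := by
  have h1 : ((i, e) : Fin 3 × Bool) = (fun x : Fin 3 × Bool => (x.1, !x.2)) (i, !e) := by simp
  rw [FreeGroup.invRev, List.count_reverse, h1]
  exact List.count_map_of_injective _ _ LoC_bar_inj _

theorem LoC_tail (M t : ℕ) : (1, false) ∉ (uW M t).tail := by
  have h := (uW_count M t).1
  have h2 : uW M t = (1, false) :: (uW M t).tail := rfl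
  rw [h2, List.count_cons_self] at h
  exact List.count_eq_zero.1 (by omega)

theorem uW_flp {M t t' : ℕ} (hM : 1 ≤ M) (ht : t ≤ M) (ht' : t' ≤ M) {ε : Fin 3 → Bool}
    (h : ((uW M t).map (flp ε).letter) ~r (uW M t')) : ε 1 = true ∧ ε 2 = true ∧ t = t' := by
  obtain ⟨c1, c2, c3⟩ := uW_count M t
  obtain ⟨d1, d2, d3⟩ := uW_count M t'
  have hp := h.perm
  have e1 : ε 1 = true := by
    by_contra hcon
    have hf : ε 1 = false := by simpa using hcon
    have h1 := LoC_count ε (uW M t) (1, true)
    have h2 : (flp ε).letter (1, true) = (1, false) := by rw [LoC_letter, hf]; rfl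
    rw [h2, hp.count_eq, c2, d1] at h1
    omega
  have h0 : (flp ε).letter (1, false) = (1, false) := by rw [LoC_letter, e1]; rfl
  have hL : (uW M t).map (flp ε).letter = (1, false) :: ((uW M t).tail.map (flp ε).letter) := by
    rw [← h0, ← List.map_cons]
    rfl
  have hR : uW M t' = (1, false) :: (uW M t').tail := rfl
  have h3 : (uW M t).tail.map (flp ε).letter = (uW M t').tail := by
    apply cons_rot_uniq (x := (1, false)) _ (LoC_tail M t')
    · rw [← hL, ← hR]
      exact h
    · intro hm
      rw [List.mem_map] at hm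
      obtain ⟨y, hy, hy2⟩ := hm
      rw [← h0] at hy2
      rw [LoC_inj ε hy2] at hy
      exact LoC_tail M t hy
  have e2 : ε 2 = true := by
    have h4 : (flp ε).letter (2, true) = (2, true) := by
      have := congrArg (fun l => l.head?) h3
      simpa [uW] using this
    rw [LoC_letter] at h4
    by_contra hcon
    have hf : ε 2 = false := by simpa using hcon
    rw [hf] at h4
    simp at h4
  refine ⟨e1, e2, ?_⟩
  have h1 := LoC_count ε (uW M t) (2, false)
  have h2 : (flp ε).letter (2, false) = (2, false) := by rw [LoC_letter, e2]; rfl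
  rw [h2, hp.count_eq, c3, d3] at h1
  exact h1.symm

theorem LoC_inv (M t : ℕ) : FreeGroup.invRev (uW M t) =
    ((2, false) :: (1, false) :: (List.replicate (M - t) (2, false) ++
      (1, false) :: (List.replicate t (2, true) ++ [(1, false), (2, false)]))) ++ [(1, true)] := by
  simp [uW, FreeGroup.invRev, List.reverse_append, List.reverse_cons, List.map_append,
    List.reverse_replicate]

theorem uW_flp_inv {M t t' : ℕ} (hM : 1 ≤ M) (ht : t ≤ M) (ht' : t' ≤ M) {ε : Fin 3 → Bool} :
    ¬ ((uW M t).map (flp ε).letter) ~r FreeGroup.invRev (uW M t') := by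
  intro h
  obtain ⟨c1, c2, c3⟩ := uW_count M t
  obtain ⟨d1, d2, d3⟩ := uW_count M t'
  have hp := h.perm
  have e1 : ε 1 = false := by
    by_contra hcon
    have hf : ε 1 = true := by simpa using hcon
    have h1 := LoC_count ε (uW M t) (1, true)
    have h2 : (flp ε).letter (1, true) = (1, true) := by rw [LoC_letter, hf]; rfl
    rw [h2, hp.count_eq, c2, LoC_count_inv] at h1
    change (uW M t').count (1, false) = 3 at h1
    omega
  have h0 : (flp ε).letter (1, false) = (1, true) := by rw [LoC_letter, e1]; rfl
  have hL : (uW M t).map (flp ε).letter =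
      [] ++ (1, true) :: ((uW M t).tail.map (flp ε).letter) := by
    rw [← h0, ← List.map_cons]
    rfl
  have hcnt : (1, true) ∉ (FreeGroup.invRev (uW M t')).dropLast := by
    have h5 : (FreeGroup.invRev (uW M t')).count (1, true) = 1 := by
      rw [LoC_count_inv]
      exact d1
    rw [LoC_inv, List.dropLast_concat]
    rw [LoC_inv, List.count_append] at h5
    have h6 : ([(1, true)] : List (Fin 3 × Bool)).count (1, true) = 1 := by decide
    exact List.count_eq_zero.1 (by omega)
  have h3 := app_rot_uniq (p := []) (l := (uW M t).tail.map (flp ε).letter)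
    (p' := (FreeGroup.invRev (uW M t')).dropLast) (l' := []) (x := (1, true)) (by
      intro hm
      rw [List.nil_append, List.mem_map] at hm
      obtain ⟨y, hy, hy2⟩ := hm
      rw [← h0] at hy2
      rw [LoC_inj ε hy2] at hy
      exact LoC_tail M t hy) (by rw [List.append_nil]; exact hcnt) (by
      rw [← hL, LoC_inv, List.dropLast_concat, ← LoC_inv]
      exact h)
  rw [LoC_inv, List.dropLast_concat, List.append_nil, List.nil_append] at h3
  have l1 : (flp ε).letter (1, true) = (1, false) := by rw [LoC_letter, e1]; rfl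
  have hexp : (uW M t).tail.map (flp ε).letter =
      (flp ε).letter (2, true) :: (1, false) :: (List.replicate t ((flp ε).letter (2, false)) ++
        (1, false) :: (List.replicate (M - t) ((flp ε).letter (2, true)) ++
          [(1, false), (flp ε).letter (2, true)])) := by
    simp [uW, l1]
  rw [hexp] at h3
  have e2 : ε 2 = false := by
    have h4 := (List.cons.inj h3).1
    rw [LoC_letter] at h4
    by_contra hcon
    have hf : ε 2 = true := by simpa using hcon
    rw [hf] at h4
    simp at h4
  have l2 : (flp ε).letter (2, true) = (2, false) := by rw [LoC_letter, e2]; rfl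
  have l3 : (flp ε).letter (2, false) = (2, true) := by rw [LoC_letter, e2]; rfl
  rw [l2, l3] at h3
  have h4 := (List.cons.inj (List.cons.inj h3).2).2
  rcases Nat.eq_zero_or_pos t with h5 | h5
  · rcases Nat.eq_zero_or_pos (M - t') with h6 | h6
    · have h7 : t' = M := by omega
      rw [h5, h6, h7] at h4
      obtain ⟨N, rfl⟩ : ∃ N, M = N + 1 := ⟨M - 1, by omega⟩
      simp [List.replicate_succ] at h4
    · obtain ⟨N, hN⟩ : ∃ N, M - t' = N + 1 := ⟨M - t' - 1, by omega⟩
      rw [h5, hN] at h4
      simp [List.replicate_succ] at h4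
  · obtain ⟨N, hN⟩ : ∃ N, t = N + 1 := ⟨t - 1, by omega⟩
    rcases Nat.eq_zero_or_pos (M - t') with h6 | h6
    · rw [h6, hN] at h4
      simp [List.replicate_succ] at h4
    · obtain ⟨K, hK⟩ : ∃ K, M - t' = K + 1 := ⟨M - t' - 1, by omega⟩
      rw [hK, hN] at h4
      simp [List.replicate_succ] at h4

end Pool.Agent.Sims
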