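import Pool.Agent.Sims.LoA
import Pool.Agent.Sims.BddM

/-!
# Module `LoD` : `w0 M = a a b⁻¹ c b b c^M b c` is orbit-minimal

* `w0_cap`: `capC_cls` (`w0_CR`), `cap = cyc ..` over the cyclically consecutive pairs `(x, y)`, each gives the edge `x - bar y`: `a a`: `a - A`; `a B`: `a - b`; `B c`: `B - C`; `c b`: `c - B`; `b b`: `b - B`; `b c`: `b - C`; `c c`
  (`M - 1` times): `c - C`; `c b`: `c - B`; `b c`: `b - C`; `c a`: `c - A` (`A, B, C` inverse letters).  `M = k + 1`; induct on `k` for the block `c^M` (`lin` of a `replicate`).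
* `w0_omin`: `OMin_of_WMin`; by `cycLen_wh` the claim is `cnt c0 z.1 ≤ capC c0 A` for `A z = true`, `A (bar z) = false`; `cnt c0 0 = 2`, `cnt c0 1 = 4`, `cnt c0 2 = M + 2` (`cnt_cls`, `loW_cnt`, `w0_eq`); rewrite with `w0_cap` and
  distinguish the values of `A` on the six letters (`Bool` cases), `omega`.
Difficulty 2.
-/

namespace Pool.Agent.Sims

open FreeGroup (of)

/-- the edge `x - y` crosses the cut -/
def cr (A : Fin 3 × Bool → Bool) (x y : Fin 3 × Bool) : ℕ := if A x = A y then 0 else 1

theorem LoD_rep {β : Type*} (f : β → β → ℕ) (c z : β) (l : List β) (k : ℕ) :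
    lin f c (List.replicate k c ++ l) z = k * f c c + lin f c l z := by
  induction k with
  | zero => simp
  | succ k ih =>
    rw [List.replicate_succ, List.cons_append]
    show f c c + lin f c (List.replicate k c ++ l) z = _
    rw [ih]
    ring

theorem w0_cap {M : ℕ} (hM : 1 ≤ M) (A : Fin 3 × Bool → Bool) :
    capC (cls (w0 M)) A = cr A (0, true) (0, false) + cr A (0, true) (1, true) +
      cr A (1, false) (2, false) + 2 * cr A (2, true) (1, false) + cr A (1, true) (1, false) +
      2 * cr A (1, true) (2, false) + (M - 1) * cr A (2, true) (2, false) +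
      cr A (2, true) (0, false) := by
  obtain ⟨k, rfl⟩ : ∃ k, M = k + 1 := ⟨M - 1, by omega⟩
  rw [capC_cls (w0_CR _)]
  have h1 : w0 (k + 1) = (0, true) :: (0, true) :: (1, false) :: (2, true) :: (1, true) ::
      (1, true) :: (2, true) :: (List.replicate k (2, true) ++ [(1, true), (2, true)]) := by
    unfold w0 uW
    rw [Nat.sub_zero, List.replicate_zero, List.nil_append, List.replicate_succ, List.cons_append]
  rw [h1]
  unfold cap
  show (_ + (_ + (_ + (_ + (_ + (_ + lin _ _ (List.replicate k (2, true) ++ _) _)))))) = _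
  rw [LoD_rep]
  simp only [lin, bar, cr, Bool.not_true, Bool.not_false, Nat.add_sub_cancel]
  ring

theorem w0_omin {M : ℕ} (hM : 3 ≤ M) : OMin (cls (w0 M)) := by
  apply OMin_of_WMin
  intro z A hz hz'
  have h1 := cycLen_wh (cls (w0 M)) z A hz hz'
  have h2 : cnt (cls (w0 M)) z.1 ≤ capC (cls (w0 M)) A := by
    rw [w0_cap (by omega)]
    obtain ⟨c0, c1, c2⟩ : cnt (cls (w0 M)) 0 = 2 ∧ cnt (cls (w0 M)) 1 = 4 ∧
        cnt (cls (w0 M)) 2 = M + 2 := by
      rw [cnt_cls (w0_CR _), cnt_cls (w0_CR _), cnt_cls (w0_CR _), w0_eq]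
      exact loW_cnt (Nat.zero_le _) _ _
    obtain ⟨i, e⟩ := z
    show cnt (cls (w0 M)) i ≤ _
    have hz1 : A (i, !e) = false := hz'
    obtain ⟨k, rfl⟩ : ∃ k, M = k + 3 := ⟨M - 3, by omega⟩
    have h4 : k + 3 - 1 = k + 2 := by omega
    rw [h4]
    unfold cr
    have h3 : ∀ i : Fin 3, i = 0 ∨ i = 1 ∨ i = 2 := by decide
    rcases h3 i with rfl | rfl | rfl
    · rw [c0]
      cases e <;> simp only [Bool.not_true, Bool.not_false] at hz1 <;> rw [hz, hz1] <;>
        cases A (1, true) <;> cases A (1, false) <;> cases A (2, true) <;> cases A (2, false) <;>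
        simp only [if_true, if_false, Bool.true_eq_false, Bool.false_eq_true] <;> omega
    · rw [c1]
      cases e <;> simp only [Bool.not_true, Bool.not_false] at hz1 <;> rw [hz, hz1] <;>
        cases A (0, true) <;> cases A (0, false) <;> cases A (2, true) <;> cases A (2, false) <;>
        simp only [if_true, if_false, Bool.true_eq_false, Bool.false_eq_true] <;> omega
    · rw [c2]
      cases e <;> simp only [Bool.not_true, Bool.not_false] at hz1 <;> rw [hz, hz1] <;>
        cases A (0, true) <;> cases A (0, false) <;> cases A (1, true) <;> cases A (1, false) <;>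
        simp only [if_true, if_false, Bool.true_eq_false, Bool.false_eq_true] <;> omega
  omega

end Pool.Agent.Sims
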