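import Pool.Agent.Sims.LoC

/-!
# Module `LoF` : the words `loW M t r s` are different up to rotation and sign changes

`x = (uW M t).rotate r`, `x' = (uW M t').rotate r'`, `τ = (flp ε).letter`.  The letter `(0, true)` is in the second list, so it is in the first one: `ε 0 = true` (the letters with index `0` of the first list are `(0, ε 0)`).
`map` commutes with `take`, `drop`, `rotate` (`List.map_rotate`) and with `invRev` (`τ (bar y) = bar (τ y)`, `SPerm.letter_bar`).  `two_rot` for the letter `(0, true)` (`uW_ne0`, `List.mem_rotate`):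
* first case: `map τ (drop s x) = drop s' x'` and `map τ (take s x) = take s' x'`, so `map τ x = x'`: `uW_flp` (rotations): `ε 1 = ε 2 = true`, `t = t'`; then `map τ x = x` and `rot_uniq` (`uW_count`, the letter `(1, false)`, `r, r' < M + 6`): `r = r'`;
  the lengths of `take s x`, `take s' x'` (`s, s' ≤ M + 6`) give `s = s'`.
* second case: `map τ (invRev (drop s x)) = take s' x'`, `map τ (take s x) = invRev (drop s' x')`: `x' = take s' x' ++ drop s' x' = invRev (map τ (drop s x)) ++ invRev (map τ (take s x)) = invRev (map τ x)`, so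
  `map τ (uW M t) ~r invRev (uW M t')`, contradiction to `uW_flp_inv` (`invRev` of a rotation is a rotation of `invRev`: `List.IsRotated.reverse`, `map`).
Difficulty 2.
-/

namespace Pool.Agent.Sims

open FreeGroup (of)

theorem LoF_map_invRev (σ : SPerm (Fin 3)) (l : List (Fin 3 × Bool)) :
    (FreeGroup.invRev l).map σ.letter = FreeGroup.invRev (l.map σ.letter) := by
  unfold FreeGroup.invRev
  rw [List.map_reverse, List.map_map, List.map_map]
  congr 1
  apply List.map_congr_left
  intro x _
  exact σ.letter_bar x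

theorem LoF_invRev_append (l l' : List (Fin 3 × Bool)) :
    FreeGroup.invRev (l ++ l') = FreeGroup.invRev l' ++ FreeGroup.invRev l := by
  simp [FreeGroup.invRev]

theorem LoF_invRev_rot {l l' : List (Fin 3 × Bool)} (h : l ~r l') :
    FreeGroup.invRev l ~r FreeGroup.invRev l' := (h.map _).reverse

theorem LoF_not_mem {l : List (Fin 3 × Bool)} (h : ∀ y ∈ l, y.1 ≠ 0) : ((0, true) : Fin 3 × Bool) ∉ l :=
  fun h1 => h _ h1 rfl

theorem LoF_ne_map {l : List (Fin 3 × Bool)} (h : ∀ y ∈ l, y.1 ≠ 0) (ε : Fin 3 → Bool) :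
    ∀ y ∈ l.map (flp ε).letter, y.1 ≠ 0 := by
  intro y hy
  obtain ⟨z, hz, rfl⟩ := List.mem_map.1 hy
  exact h z hz

theorem LoF_ne_invRev {l : List (Fin 3 × Bool)} (h : ∀ y ∈ l, y.1 ≠ 0) :
    ∀ y ∈ FreeGroup.invRev l, y.1 ≠ 0 := by
  intro y hy
  unfold FreeGroup.invRev at hy
  rw [List.mem_reverse] at hy
  obtain ⟨z, hz, rfl⟩ := List.mem_map.1 hy
  exact h z hz

theorem lo_inj0 {M t t' r r' s s' : ℕ} (hM : 1 ≤ M) (ht : t ≤ M) (ht' : t' ≤ M)
    (hr : r < M + 6) (hr' : r' < M + 6) (hs : s ≤ M + 6) (hs' : s' ≤ M + 6) {ε : Fin 3 → Bool}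
    (h : ((loW M t r s).map (flp ε).letter) ~r (loW M t' r' s')) :
    (∀ i, ε i = true) ∧ t = t' ∧ r = r' ∧ s = s' := by
  set x := (uW M t).rotate r with hx
  set x' := (uW M t').rotate r' with hx'
  have hxne : ∀ y ∈ x, y.1 ≠ 0 := by
    intro y hy
    rw [hx, List.mem_rotate] at hy
    exact uW_ne0 M t y hy
  have hxne' : ∀ y ∈ x', y.1 ≠ 0 := by
    intro y hy
    rw [hx', List.mem_rotate] at hy
    exact uW_ne0 M t' y hy
  have hT : ∀ y ∈ x.take s, y.1 ≠ 0 := fun y hy => hxne y (List.mem_of_mem_take hy)
  have hD : ∀ y ∈ x.drop s, y.1 ≠ 0 := fun y hy => hxne y (List.mem_of_mem_drop hy)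
  have hT' : ∀ y ∈ x'.take s', y.1 ≠ 0 := fun y hy => hxne' y (List.mem_of_mem_take hy)
  have hD' : ∀ y ∈ x'.drop s', y.1 ≠ 0 := fun y hy => hxne' y (List.mem_of_mem_drop hy)
  have hlen : x.length = M + 6 := by rw [hx, List.length_rotate, uW_length ht]
  have hlen' : x'.length = M + 6 := by rw [hx', List.length_rotate, uW_length ht']
  have hl : loW M t r s = (0, true) :: (FreeGroup.invRev (x.drop s) ++ (0, true) :: x.take s) := rfl
  have hl' : loW M t' r' s' =
      (0, true) :: (FreeGroup.invRev (x'.drop s') ++ (0, true) :: x'.take s') := rfl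
  have hε0 : ε 0 = true := by
    have h1 : ((0, true) : Fin 3 × Bool) ∈ (loW M t r s).map (flp ε).letter := by
      rw [h.mem_iff, hl']
      exact List.mem_cons_self
    obtain ⟨y, hy, hy2⟩ := List.mem_map.1 h1
    rw [hl, List.mem_cons, List.mem_append, List.mem_cons] at hy
    have h2 : y.1 = 0 := congrArg Prod.fst hy2
    have h3 : y = (0, true) := by
      rcases hy with h3 | h3 | h3 | h3
      · exact h3
      · exact absurd h2 (LoF_ne_invRev hD y h3)
      · exact h3
      · exact absurd h2 (hT y h3)
    rw [h3] at hy2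
    have h4 := congrArg Prod.snd hy2
    change (if ε 0 = true then true else !true) = true at h4
    by_contra h5
    rw [if_neg h5] at h4
    exact absurd h4 (by decide)
  have h0 : (flp ε).letter (0, true) = (0, true) := by
    show ((0 : Fin 3), if ε 0 = true then true else !true) = _
    rw [if_pos hε0]
  rw [hl, hl', List.map_cons, List.map_append, List.map_cons, h0, LoF_map_invRev] at h
  rcases two_rot (LoF_not_mem (LoF_ne_invRev (LoF_ne_map hD ε))) (LoF_not_mem (LoF_ne_map hT ε))
    (LoF_not_mem (LoF_ne_invRev hD')) (LoF_not_mem hT') h with ⟨h1, h2⟩ | ⟨h1, h2⟩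
  · have h3 : (x.drop s).map (flp ε).letter = x'.drop s' := by
      have := congrArg FreeGroup.invRev h1
      rwa [FreeGroup.invRev_invRev, FreeGroup.invRev_invRev] at this
    have h4 : x.map (flp ε).letter = x' := by
      rw [← List.take_append_drop s x, List.map_append, h2, h3, List.take_append_drop]
    have h5 : ((uW M t).map (flp ε).letter) ~r (uW M t') := by
      have e1 : (uW M t).map (flp ε).letter ~r x.map (flp ε).letter :=
        List.IsRotated.map ⟨r, rfl⟩ _
      have e2 : uW M t' ~r x' := ⟨r', rfl⟩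
      rw [h4] at e1
      exact e1.trans e2.symm
    obtain ⟨hε1, hε2, htt⟩ := uW_flp hM ht ht' h5
    have hall : ∀ i, ε i = true := by
      intro i
      fin_cases i
      · exact hε0
      · exact hε1
      · exact hε2
    have hid : ∀ y : Fin 3 × Bool, (flp ε).letter y = y := by
      intro y
      show (y.1, if ε y.1 = true then y.2 else !y.2) = y
      rw [if_pos (hall y.1)]
    have h6 : x = x' := by
      rw [← h4]
      exact (List.map_id'' hid x).symm
    refine ⟨hall, htt, ?_, ?_⟩
    · rw [hx, hx', ← htt] at h6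
      have hc := (uW_count M t).1
      rw [show (instBEqProd : BEq (Fin 3 × Bool)) = instBEqOfDecidableEq from
        lawful_beq_subsingleton _ _] at hc
      exact rot_uniq hc (by rw [uW_length ht]; exact hr)
        (by rw [uW_length ht]; exact hr') h6
    · have h7 := congrArg List.length h2
      rw [List.length_map, List.length_take, List.length_take, hlen, hlen',
        min_eq_left hs, min_eq_left hs'] at h7
      exact h7
  · exfalso
    apply uW_flp_inv (ε := ε) hM ht ht'
    have h3 : x'.drop s' = FreeGroup.invRev ((x.take s).map (flp ε).letter) := by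
      rw [h2, FreeGroup.invRev_invRev]
    have h4 : x' = FreeGroup.invRev (x.map (flp ε).letter) := by
      conv_lhs => rw [← List.take_append_drop s' x', ← h1, h3]
      rw [← LoF_invRev_append, ← List.map_append, List.take_append_drop]
    have e1 : (uW M t).map (flp ε).letter ~r x.map (flp ε).letter :=
      List.IsRotated.map ⟨r, rfl⟩ _
    have e2 : uW M t' ~r x' := ⟨r', rfl⟩
    have e3 := LoF_invRev_rot e2
    rw [h4, FreeGroup.invRev_invRev] at e3
    exact e1.trans e3.symm

end Pool.Agent.Sims
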