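import Mathlib
import Pool.Agent.Sims.Red

/-!
# Module `NielsenA` : Nielsen reduced tuples in free groups

Standard proof (Lyndon–Schupp, Prop. I.2.2-2.3).  A finite tuple `U = (u_1,…,u_n)` of elements of a free
group is *Nielsen reduced* if for all `x, y, z ∈ U^{±1}`:
 (N0) `x ≠ 1`; (N1) `x y ≠ 1 → |x y| ≥ |x|` and `≥ |y|`; (N2) `x y ≠ 1`, `y z ≠ 1` →
 `|x y z| > |x| - |y| + |z|`.
(`norm_prod_ge`) If `U` is Nielsen reduced and `w = x_1 ⋯ x_k` with `x_i ∈ U^{±1}`, `x_i x_{i+1} ≠ 1`, then
`|w| ≥ k`; if `k ≥ 1` also `|w| ≥ |x_i|` (only `|w| ≥ k` is needed below).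
Proof: let `x_i = p_i m_i q_i`, where `p_i` is the part cancelled in `x_{i-1} x_i` and `q_i` the part
cancelled in `x_i x_{i+1}`; by (N1) each has length at most `|x_i|/2`, by (N2) `m_i ≠ 1` (as a reduced word);
`w = p_1 m_1 m_2 ⋯ m_k q_k` is reduced.
The module provides the definition and `norm_prod_ge`.
Difficulty 3.
-/

namespace Pool.Agent.Sims

variable {α : Type*} [DecidableEq α] {n : ℕ}

/-- the symmetrised tuple: `(i, true) ↦ u_i`, `(i, false) ↦ u_i⁻¹` -/
def sym (U : Fin n → FreeGroup α) (x : Fin n × Bool) : FreeGroup α :=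
  if x.2 then U x.1 else (U x.1)⁻¹

/-- Nielsen reduced -/
def NRed (U : Fin n → FreeGroup α) : Prop :=
  (∀ i, U i ≠ 1) ∧
  (∀ x y : Fin n × Bool, sym U x * sym U y ≠ 1 → (sym U x).norm ≤ (sym U x * sym U y).norm ∧
    (sym U y).norm ≤ (sym U x * sym U y).norm) ∧
  (∀ x y z : Fin n × Bool, sym U x * sym U y ≠ 1 → sym U y * sym U z ≠ 1 →
    (sym U x).norm + (sym U z).norm < (sym U x * sym U y * sym U z).norm + (sym U y).norm)

/-- length of the longest common prefix -/
def NielsenA_lcp {β : Type*} [DecidableEq β] : List β → List β → ℕ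
  | a :: l, b :: m => if a = b then NielsenA_lcp l m + 1 else 0
  | _, _ => 0

theorem NielsenA_lcp_spec {β : Type*} [DecidableEq β] (a b : List β) :
    ∃ p r s, a = p ++ r ∧ b = p ++ s ∧ p.length = NielsenA_lcp a b ∧
      (∀ u ∈ r.head?, ∀ v ∈ s.head?, u ≠ v) := by
  induction a generalizing b with
  | nil => exact ⟨[], [], b, rfl, rfl, by simp [NielsenA_lcp], by simp⟩
  | cons x a ih =>
    cases b with
    | nil => exact ⟨[], x :: a, [], rfl, rfl, by simp [NielsenA_lcp], by simp⟩
    | cons y b =>
      by_cases h : x = y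
      · subst h
        obtain ⟨p, r, s, h1, h2, h3, h4⟩ := ih b
        refine ⟨x :: p, r, s, by simp [h1], by simp [h2], by simp [NielsenA_lcp, h3], h4⟩
      · exact ⟨[], x :: a, y :: b, rfl, rfl, by simp [NielsenA_lcp, h], by simpa using h⟩

theorem NielsenA_lcp_comm {β : Type*} [DecidableEq β] (a b : List β) :
    NielsenA_lcp a b = NielsenA_lcp b a := by
  induction a generalizing b with
  | nil => cases b <;> simp [NielsenA_lcp]
  | cons x a ih =>
    cases b with
    | nil => simp [NielsenA_lcp]
    | cons y b =>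
      by_cases h : x = y
      · subst h; simp [NielsenA_lcp, ih b]
      · simp [NielsenA_lcp, h, Ne.symm h]

theorem NielsenA_lcp_min {β : Type*} [DecidableEq β] (a b c : List β) :
    min (NielsenA_lcp a b) (NielsenA_lcp b c) ≤ NielsenA_lcp a c := by
  induction a generalizing b c with
  | nil => simp [NielsenA_lcp]
  | cons x a ih =>
    cases b with
    | nil => simp [NielsenA_lcp]
    | cons y b =>
      cases c with
      | nil => simp [NielsenA_lcp]
      | cons z c =>
        by_cases h : x = y
        · by_cases h' : y = z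
          · subst h; subst h'
            have := ih b c
            simp only [NielsenA_lcp, if_true]
            omega
          · simp [NielsenA_lcp, h']
        · simp [NielsenA_lcp, h]

theorem NielsenA_lcp_le_left {β : Type*} [DecidableEq β] (a b : List β) :
    NielsenA_lcp a b ≤ a.length := by
  obtain ⟨p, r, s, h1, h2, h3, h4⟩ := NielsenA_lcp_spec a b
  rw [← h3, h1]; simp

theorem NielsenA_lcp_le_right {β : Type*} [DecidableEq β] (a b : List β) :
    NielsenA_lcp a b ≤ b.length := by
  rw [NielsenA_lcp_comm]; exact NielsenA_lcp_le_left b a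

theorem NielsenA_eq_of_lt {β : Type*} [DecidableEq β] {a b c : List β}
    (h : NielsenA_lcp b c < NielsenA_lcp a b) : NielsenA_lcp a c = NielsenA_lcp b c := by
  have h1 := NielsenA_lcp_min a b c
  have h2 := NielsenA_lcp_min b a c
  rw [NielsenA_lcp_comm b a] at h2
  omega

theorem NielsenA_norm (x y : FreeGroup α) :
    (x * y).norm + 2 * NielsenA_lcp (x⁻¹).toWord y.toWord = x.norm + y.norm := by
  obtain ⟨p, r, s, h1, h2, h3, h4⟩ := NielsenA_lcp_spec (x⁻¹).toWord y.toWord
  have hr : FreeGroup.IsReduced (x⁻¹).toWord := FreeGroup.isReduced_toWord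
  have hs : FreeGroup.IsReduced y.toWord := FreeGroup.isReduced_toWord
  have hr' : FreeGroup.IsReduced r := red_mid hr ⟨p, [], by simp [h1]⟩
  have hs' : FreeGroup.IsReduced s := red_mid hs ⟨p, [], by simp [h2]⟩
  have hx : x⁻¹ = FreeGroup.mk p * FreeGroup.mk r := by
    rw [FreeGroup.mul_mk, ← h1, FreeGroup.mk_toWord]
  have hy : y = FreeGroup.mk p * FreeGroup.mk s := by
    rw [FreeGroup.mul_mk, ← h2, FreeGroup.mk_toWord]
  have hx' : x = (FreeGroup.mk r)⁻¹ * (FreeGroup.mk p)⁻¹ := by
    rw [← inv_inv x, hx, mul_inv_rev]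
  have hxy : x * y = FreeGroup.mk (FreeGroup.invRev r ++ s) := by
    rw [hx', hy, ← FreeGroup.mul_mk, ← FreeGroup.inv_mk]
    group
  have hred : FreeGroup.IsReduced (FreeGroup.invRev r ++ s) := by
    have hri : FreeGroup.IsReduced (FreeGroup.invRev r) := by
      rw [FreeGroup.isReduced_iff_reduce_eq] at hr' ⊢
      rw [FreeGroup.reduce_invRev, hr']
    unfold FreeGroup.IsReduced at *
    rw [List.isChain_append]
    refine ⟨hri, hs', ?_⟩
    intro u hu v hv h12
    by_contra hne
    have hu' : (u.1, !u.2) ∈ r.head? := by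
      simp only [FreeGroup.invRev, List.getLast?_reverse, List.head?_map] at hu
      cases r with
      | nil => simp at hu
      | cons r0 r1 =>
        simp at hu
        simp [← hu]
    apply h4 _ hu' v hv
    ext
    · exact h12
    · simp only
      cases hu2 : u.2 <;> cases hv2 : v.2 <;> simp_all
  have hnorm : (x * y).norm = r.length + s.length := by
    rw [hxy, FreeGroup.norm, FreeGroup.toWord_mk, hred.reduce_eq]
    simp [FreeGroup.invRev_length]
  have hnx : x.norm = p.length + r.length := by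
    rw [← FreeGroup.norm_inv_eq, FreeGroup.norm, h1]; simp
  have hny : y.norm = p.length + s.length := by
    rw [FreeGroup.norm, h2]; simp
  rw [hnorm, hnx, hny, ← h3]
  ring

theorem NielsenA_mid (x y z : FreeGroup α)
    (h : NielsenA_lcp (x⁻¹).toWord y.toWord + NielsenA_lcp (y⁻¹).toWord z.toWord = y.norm) :
    (x * y * z).norm + y.norm ≤ x.norm + z.norm := by
  obtain ⟨p, r, s, h1, h2, h3, h4⟩ := NielsenA_lcp_spec (x⁻¹).toWord y.toWord
  obtain ⟨p', r', s', h1', h2', h3', h4'⟩ := NielsenA_lcp_spec (y⁻¹).toWord z.toWord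
  have hl : p.length + p'.length = y.norm := by omega
  have hinv : (y⁻¹).toWord = FreeGroup.invRev y.toWord := FreeGroup.toWord_inv y
  have hys : y.toWord.length = y.norm := rfl
  have hsp : s.length = p'.length := by
    rw [h2, List.length_append] at hys
    omega
  have hp' : p' = FreeGroup.invRev s := by
    have e : p' ++ r' = FreeGroup.invRev s ++ FreeGroup.invRev p := by
      rw [← h1', hinv, h2]
      simp [FreeGroup.invRev]
    have := List.append_inj_left e (by simp [FreeGroup.invRev_length, hsp])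
    exact this
  have hx : x⁻¹ = FreeGroup.mk p * FreeGroup.mk r := by
    rw [FreeGroup.mul_mk, ← h1, FreeGroup.mk_toWord]
  have hy : y = FreeGroup.mk p * FreeGroup.mk s := by
    rw [FreeGroup.mul_mk, ← h2, FreeGroup.mk_toWord]
  have hz : z = FreeGroup.mk p' * FreeGroup.mk s' := by
    rw [FreeGroup.mul_mk, ← h2', FreeGroup.mk_toWord]
  have hx' : x = (FreeGroup.mk r)⁻¹ * (FreeGroup.mk p)⁻¹ := by
    rw [← inv_inv x, hx, mul_inv_rev]
  have hmp' : FreeGroup.mk p' = (FreeGroup.mk s)⁻¹ := by rw [hp', FreeGroup.inv_mk]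
  have hxyz : x * y * z = (FreeGroup.mk r)⁻¹ * FreeGroup.mk s' := by
    rw [hz, hmp', hx', hy]; group
  have hle : (x * y * z).norm ≤ r.length + s'.length := by
    rw [hxyz]
    refine (FreeGroup.norm_mul_le _ _).trans ?_
    rw [FreeGroup.norm_inv_eq]
    exact add_le_add FreeGroup.norm_mk_le FreeGroup.norm_mk_le
  have hnx : x.norm = p.length + r.length := by
    rw [← FreeGroup.norm_inv_eq, FreeGroup.norm, h1]; simp
  have hnz : z.norm = p'.length + s'.length := by
    rw [FreeGroup.norm, h2']; simp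
  omega

theorem NielsenA_sym_ne {U : Fin n → FreeGroup α} (hU : NRed U) (x : Fin n × Bool) :
    1 ≤ (sym U x).norm := by
  have h : sym U x ≠ 1 := by
    unfold sym
    split_ifs
    · exact hU.1 _
    · simpa using hU.1 x.1
  have := (FreeGroup.norm_eq_zero (x := sym U x)).not.mpr h
  omega

theorem NielsenA_half {U : Fin n → FreeGroup α} (hU : NRed U) (x y : Fin n × Bool)
    (h : sym U x * sym U y ≠ 1) :
    2 * NielsenA_lcp ((sym U x)⁻¹).toWord (sym U y).toWord ≤ (sym U x).norm ∧
    2 * NielsenA_lcp ((sym U x)⁻¹).toWord (sym U y).toWord ≤ (sym U y).norm := by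
  have h1 := hU.2.1 x y h
  have h2 := NielsenA_norm (sym U x) (sym U y)
  omega

theorem NielsenA_K {U : Fin n → FreeGroup α} (hU : NRed U) (x y z : Fin n × Bool)
    (h : sym U x * sym U y ≠ 1) (h' : sym U y * sym U z ≠ 1) :
    NielsenA_lcp ((sym U x)⁻¹).toWord (sym U y).toWord +
      NielsenA_lcp ((sym U y)⁻¹).toWord (sym U z).toWord < (sym U y).norm := by
  have h1 := NielsenA_half hU x y h
  have h2 := NielsenA_half hU y z h'
  have h3 := hU.2.2 x y z h h'
  by_contra hcon
  have h4 := NielsenA_mid (sym U x) (sym U y) (sym U z) (by omega)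
  omega

theorem NielsenA_main (U : Fin n → FreeGroup α) (hU : NRed U) (l : List (Fin n × Bool)) :
    ∀ y, (y :: l).IsChain (fun x y => sym U x * sym U y ≠ 1) →
    (y :: l).length ≤ (((y :: l).map (sym U)).prod).norm ∧
    ∀ x, sym U x * sym U y ≠ 1 →
      NielsenA_lcp ((sym U x)⁻¹).toWord ((((y :: l).map (sym U)).prod)).toWord =
        NielsenA_lcp ((sym U x)⁻¹).toWord (sym U y).toWord ∧
      NielsenA_lcp ((sym U x)⁻¹).toWord (sym U y).toWord + (y :: l).length ≤
        (((y :: l).map (sym U)).prod).norm := by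
  induction l with
  | nil =>
    intro y _
    have h1 := NielsenA_sym_ne hU y
    refine ⟨by simpa using h1, ?_⟩
    intro x hx
    have h2 := NielsenA_half hU x y hx
    refine ⟨by simp, ?_⟩
    simp only [List.map_cons, List.map_nil, List.prod_cons, List.prod_nil, mul_one,
      List.length_cons, List.length_nil]
    omega
  | cons z l ih =>
    intro y hch
    rw [List.isChain_cons_cons] at hch
    obtain ⟨hyz, hch'⟩ := hch
    obtain ⟨ih1, ih2⟩ := ih z hch'
    obtain ⟨ih3, ih4⟩ := ih2 y hyz
    have h1 := NielsenA_sym_ne hU y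
    have h2 := NielsenA_half hU y z hyz
    set w' := ((z :: l).map (sym U)).prod with hw'
    have hw : ((y :: z :: l).map (sym U)).prod = sym U y * w' := by
      rw [hw']; simp [List.map_cons, List.prod_cons]
    rw [hw]
    have hn := NielsenA_norm (sym U y) w'
    rw [ih3] at hn
    have hlen : (y :: z :: l).length = (z :: l).length + 1 := rfl
    rw [hlen]
    refine ⟨by omega, ?_⟩
    intro x hx
    have hK := NielsenA_K hU x y z hx hyz
    have hlcp : 2 * NielsenA_lcp (sym U y * w').toWord (sym U y).toWord =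
        2 * (sym U y).norm - 2 * NielsenA_lcp ((sym U y)⁻¹).toWord (sym U z).toWord := by
      have h5 := NielsenA_norm ((sym U y * w')⁻¹) (sym U y)
      have h6 : (sym U y * w')⁻¹ * sym U y = w'⁻¹ := by group
      rw [h6, inv_inv, FreeGroup.norm_inv_eq, FreeGroup.norm_inv_eq] at h5
      omega
    refine ⟨?_, by omega⟩
    have h7 : NielsenA_lcp (sym U y).toWord ((sym U x)⁻¹).toWord <
        NielsenA_lcp (sym U y * w').toWord (sym U y).toWord := by
      rw [NielsenA_lcp_comm (sym U y).toWord]
      omega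
    have h8 := NielsenA_eq_of_lt h7
    rw [NielsenA_lcp_comm, h8, NielsenA_lcp_comm]

/-- products of a Nielsen reduced tuple are long -/
theorem norm_prod_ge (U : Fin n → FreeGroup α) (hU : NRed U) (l : List (Fin n × Bool))
    (hl : l.IsChain (fun x y => sym U x * sym U y ≠ 1)) :
    l.length ≤ ((l.map (sym U)).prod).norm := by
  cases l with
  | nil => simp
  | cons y l => exact (NielsenA_main U hU l y hl).1

end Pool.Agent.Sims
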