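import Pool.Agent.Sims.NielsenA

/-!
# Module `NielsenB` : every finite tuple can be Nielsen reduced (up to ones)

Elementary Nielsen moves on tuples: `u_i ↦ u_i⁻¹`; `u_i ↦ u_i u_j^{±1}` or `u_j^{±1} u_i` (`i ≠ j`).
`NEq U V`: `V` is obtained from `U` by finitely many moves.
Claim (for tuples that stay free of `1`, e.g. bases): every `U` none of whose equivalents contains `1` is
equivalent to a Nielsen reduced tuple.
Proof (Lyndon–Schupp I.2.2).  Choose among the equivalents those of minimal total norm `Σ|u_i|`.  Then
(N1) holds.  (If `|x y| < |x|`, `x y ≠ 1`, `x, y ∈ U^{±1}`: if `x = u_i^{±1}`, `y = u_j^{±1}`, `i ≠ j`, replace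
`u_i`: total norm decreases.  If `i = j` then `x = y`, and `|x²| < |x|` is impossible in a free group.  If
`|x y| < |y|` pass to inverses.)
For (N2): for a word `w` let `L(w)` be its initial segment of length `⌊(|w|+1)/2⌋`.  Order reduced words by
length and then lexicographically (a well-order on words of bounded length, `α` finite or just the
finitely many letters involved; any linear order on letters), and compare pairs `{w, w⁻¹}` by
`min(L(w), L(w⁻¹))`, then `max(L(w), L(w⁻¹))`.  Choose the tuple with minimal total norm and, subject to this,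
minimal for this order (sum of ranks, or: no single replacement `u_i ↦ x y` with `|xy| = |u_i|` decreases
the pair of `u_i`).  Suppose (N2) fails for `x, y, z`: by (N1) `|xyz| ≥ |x| - |y| + |z|`, with equality:
`x = a p⁻¹`, `y = p q⁻¹`, `z = q b` reduced, `|p| = |q| = |y|/2` (`a, b ≠ 1`, `|p| ≤ |x|/2`, `|q| ≤ |z|/2`).  If
`p < q` replace `z` by `yz = p b`: same norm, `L(z) = L(qb)` starts with `q`, becomes a word starting with
`p`: smaller; `L(z⁻¹)` starts with ... is unchanged (as `|q| ≤ |z|/2`); so the pair decreases.  If `q < p`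
replace `x⁻¹ = p a⁻¹` by `y⁻¹ x⁻¹ = q a⁻¹` similarly.
(One may also use any other proof of this classical fact; only the statement below matters.)
Difficulty 4.
-/

namespace Pool.Agent.Sims

variable {α : Type*} [DecidableEq α] {n : ℕ}

/-- one elementary Nielsen move -/
inductive NMove : (Fin n → FreeGroup α) → (Fin n → FreeGroup α) → Prop
  | inv (U : Fin n → FreeGroup α) (i : Fin n) : NMove U (Function.update U i (U i)⁻¹)
  | mulR (U : Fin n → FreeGroup α) (i j : Fin n) (h : i ≠ j) :
      NMove U (Function.update U i (U i * U j))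
  | mulRi (U : Fin n → FreeGroup α) (i j : Fin n) (h : i ≠ j) :
      NMove U (Function.update U i (U i * (U j)⁻¹))
  | mulL (U : Fin n → FreeGroup α) (i j : Fin n) (h : i ≠ j) :
      NMove U (Function.update U i (U j * U i))
  | mulLi (U : Fin n → FreeGroup α) (i j : Fin n) (h : i ≠ j) :
      NMove U (Function.update U i ((U j)⁻¹ * U i))

/-- Nielsen equivalence -/
def NEq (U V : Fin n → FreeGroup α) : Prop := Relation.ReflTransGen NMove U V

/-- cancellation in a product of reduced words -/
theorem NielsenB_cancel : ∀ (L₁ L₂ : List (α × Bool)), FreeGroup.IsReduced L₁ → FreeGroup.IsReduced L₂ →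
    ∃ a p b, L₁ = a ++ FreeGroup.invRev p ∧ L₂ = p ++ b ∧ FreeGroup.IsReduced (a ++ b) := by
  intro L₁
  induction L₁ using List.reverseRecOn with
  | nil => intro L₂ _ h2; exact ⟨[], [], L₂, by simp, by simp, by simpa using h2⟩
  | append_singleton L x ih =>
    intro L₂ h1 h2
    cases L₂ with
    | nil => exact ⟨L ++ [x], [], [], by simp, by simp, by simpa using h1⟩
    | cons y M =>
      by_cases hxy : x.1 = y.1 ∧ x.2 ≠ y.2
      · have hL : FreeGroup.IsReduced L := red_mid h1 ⟨[], [x], by simp⟩
        have hM : FreeGroup.IsReduced M := red_mid h2 ⟨[y], [], by simp⟩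
        obtain ⟨a, p, b, e1, e2, e3⟩ := ih M hL hM
        refine ⟨a, y :: p, b, ?_, by simp [e2], e3⟩
        have : FreeGroup.invRev [y] = [x] := by
          rcases x with ⟨i, s⟩; rcases y with ⟨j, t⟩
          simp only at hxy
          obtain ⟨rfl, h⟩ := hxy
          simp only [FreeGroup.invRev, List.map_cons, List.map_nil, List.reverse_cons, List.reverse_nil,
            List.nil_append, List.cons.injEq, Prod.mk.injEq, true_and, and_true]
          cases s <;> cases t <;> simp_all
        rw [FreeGroup.invRev_cons, this, e1, List.append_assoc]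
      · refine ⟨L ++ [x], [], y :: M, by simp, by simp, ?_⟩
        unfold FreeGroup.IsReduced at h1 h2 ⊢
        rw [List.append_assoc, List.singleton_append, List.isChain_split,
          List.isChain_cons_cons]
        refine ⟨h1, ?_, h2⟩
        intro h
        by_contra h'
        exact hxy ⟨h, h'⟩

theorem NielsenB_mul (g h : FreeGroup α) :
    ∃ a p b, g.toWord = a ++ FreeGroup.invRev p ∧ h.toWord = p ++ b ∧ (g * h).toWord = a ++ b := by
  obtain ⟨a, p, b, e1, e2, e3⟩ := NielsenB_cancel g.toWord h.toWord FreeGroup.isReduced_toWord FreeGroup.isReduced_toWord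
  refine ⟨a, p, b, e1, e2, ?_⟩
  have : g * h = FreeGroup.mk (a ++ b) := by
    rw [← @FreeGroup.mk_toWord α _ g, ← @FreeGroup.mk_toWord α _ h, e1, e2, ← FreeGroup.mul_mk, ← FreeGroup.mul_mk, ← FreeGroup.mul_mk, ← FreeGroup.inv_mk]
    group
  rw [this, FreeGroup.toWord_mk, e3.reduce_eq]


section rank
variable [Fintype α]

set_option linter.unusedSectionVars false

/-- base of the digit expansion -/
private def bs (α : Type*) [Fintype α] : ℕ := Fintype.card (α × Bool) + 1

/-- rank of a word: digit expansion -/
private noncomputable def rk : List (α × Bool) → ℕ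
  | [] => 0
  | (x :: w) => (Fintype.equivFin (α × Bool) x : ℕ) * bs α ^ w.length + rk w

private theorem bs_pos : 0 < bs α := Nat.succ_pos _

private theorem rk_lt (w : List (α × Bool)) : rk w < bs α ^ w.length := by
  induction w with
  | nil => simp [rk]
  | cons x w ih =>
    rw [rk, List.length_cons, pow_succ]
    have h1 : (Fintype.equivFin (α × Bool) x : ℕ) + 1 ≤ bs α := by
      have := (Fintype.equivFin (α × Bool) x).2
      unfold bs; omega
    calc _ < (Fintype.equivFin (α × Bool) x : ℕ) * bs α ^ w.length + bs α ^ w.length := by omega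
      _ = ((Fintype.equivFin (α × Bool) x : ℕ) + 1) * bs α ^ w.length := by ring
      _ ≤ bs α * bs α ^ w.length := Nat.mul_le_mul_right _ h1
      _ = _ := by ring

private theorem rk_append (p s : List (α × Bool)) :
    rk (p ++ s) = rk p * bs α ^ s.length + rk s := by
  induction p with
  | nil => simp [rk]
  | cons x w ih =>
    rw [List.cons_append, rk, rk, ih, List.length_append, pow_add]
    ring

private theorem rk_inj : ∀ (p q : List (α × Bool)), p.length = q.length → rk p = rk q → p = q := by
  intro p
  induction p with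
  | nil => intro q hq _; exact (List.length_eq_zero_iff.1 hq.symm).symm
  | cons x p ih =>
    intro q hq h
    cases q with
    | nil => simp at hq
    | cons y q =>
      have hl : p.length = q.length := by simpa using hq
      rw [rk, rk, hl] at h
      have h1 := rk_lt p
      have h2 := rk_lt q
      rw [hl] at h1
      have hpos : 0 < bs α ^ q.length := Nat.pow_pos bs_pos
      have e1 : (Fintype.equivFin (α × Bool) x : ℕ) = (Fintype.equivFin (α × Bool) y : ℕ) := by
        have := congrArg (fun t => t / bs α ^ q.length) h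
        simp only [Nat.mul_comm _ (bs α ^ q.length), Nat.mul_add_div hpos,
          Nat.div_eq_of_lt h1, Nat.div_eq_of_lt h2, Nat.add_zero] at this
        exact this
      have e2 : x = y := by
        have := Fin.ext e1
        exact (Fintype.equivFin (α × Bool)).injective this
      subst e2
      rw [ih q hl (by omega)]

private theorem rk_lt_append (p q s : List (α × Bool)) (h : rk p < rk q) :
    rk (p ++ s) < rk (q ++ s) := by
  rw [rk_append, rk_append]
  have hpos : 0 < bs α ^ s.length := Nat.pow_pos bs_pos
  have := Nat.mul_lt_mul_of_pos_right h hpos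
  omega

/-- initial half -/
private def hf (g : FreeGroup α) : List (α × Bool) := g.toWord.take ((g.norm + 1) / 2)

/-- second functional -/
private noncomputable def pt (g : FreeGroup α) : ℕ := rk (hf g) + rk (hf g⁻¹)

private theorem pt_inv (g : FreeGroup α) : pt g⁻¹ = pt g := by
  unfold pt; rw [inv_inv, add_comm]

private theorem pt_lt (g h : FreeGroup α) (p q b : List (α × Bool)) (hg : g.toWord = p ++ b)
    (hh : h.toWord = q ++ b) (hl : p.length = q.length) (h2 : p.length ≤ b.length)
    (hr : rk p < rk q) : pt g < pt h := by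
  have ng : g.norm = p.length + b.length := by rw [FreeGroup.norm, hg, List.length_append]
  have nh : h.norm = q.length + b.length := by rw [FreeGroup.norm, hh, List.length_append]
  have a1 : hf g = p ++ b.take ((g.norm + 1) / 2 - p.length) := by
    unfold hf; rw [hg, List.take_append, List.take_of_length_le (by omega)]
  have a2 : hf h = q ++ b.take ((g.norm + 1) / 2 - p.length) := by
    unfold hf; rw [hh, List.take_append, List.take_of_length_le (by omega), nh, ng, hl]
  have a3 : hf g⁻¹ = (FreeGroup.invRev b).take ((g.norm + 1) / 2) := by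
    unfold hf
    rw [FreeGroup.norm_inv_eq, FreeGroup.toWord_inv, hg, FreeGroup.invRev_append, List.take_append_of_le_length]
    rw [FreeGroup.invRev_length]; omega
  have a4 : hf h⁻¹ = (FreeGroup.invRev b).take ((g.norm + 1) / 2) := by
    unfold hf
    rw [FreeGroup.norm_inv_eq, FreeGroup.toWord_inv, hh, FreeGroup.invRev_append,
      List.take_append_of_le_length, nh, ng, hl]
    rw [FreeGroup.invRev_length]; omega
  unfold pt
  rw [a1, a2, a3, a4]
  have := rk_lt_append p q (b.take ((g.norm + 1) / 2 - p.length)) hr
  omega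


theorem NielsenB_sq (u : FreeGroup α) : u.norm ≤ (u * u).norm := by
  obtain ⟨a, p, b, e1, e2, e3⟩ := NielsenB_mul u u
  have n1 : u.norm = a.length + p.length := by
    rw [FreeGroup.norm, e1, List.length_append, FreeGroup.invRev_length]
  have n2 : u.norm = p.length + b.length := by
    rw [FreeGroup.norm, e2, List.length_append]
  have n3 : (u * u).norm = a.length + b.length := by
    rw [FreeGroup.norm, e3, List.length_append]
  rw [n3, n1]
  by_contra hcon
  have hlt : a.length < p.length := by omega
  have h12 : p ++ b = a ++ FreeGroup.invRev p := by rw [← e1, ← e2]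
  -- `a` is a proper prefix of `p`
  have hpre : p = a ++ p.drop a.length := by
    have : a <+: p := by
      have h3 : a <+: p ++ b := by rw [h12]; exact List.prefix_append _ _
      exact List.prefix_of_prefix_length_le h3 (List.prefix_append _ _) hlt.le
    obtain ⟨t, rfl⟩ := this
    simp
  set c := p.drop a.length with hc
  have hcl : c ≠ [] := by
    intro h0
    rw [h0] at hpre
    have := congrArg List.length hpre
    simp at this
    omega
  rw [hpre, FreeGroup.invRev_append, List.append_assoc] at h12
  have h13 := List.append_cancel_left h12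
  have h14 : c = FreeGroup.invRev c := (List.append_inj h13 (by simp)).1
  have hred : FreeGroup.IsReduced c := by
    have : FreeGroup.IsReduced (p ++ b) := by rw [← e2]; exact FreeGroup.isReduced_toWord
    exact red_mid this ⟨a, b, by rw [← hpre]⟩
  have hord : (FreeGroup.mk c) * (FreeGroup.mk c) = 1 := by
    have : (FreeGroup.mk c)⁻¹ = FreeGroup.mk c := by rw [FreeGroup.inv_mk, ← h14]
    calc FreeGroup.mk c * FreeGroup.mk c = (FreeGroup.mk c)⁻¹ * FreeGroup.mk c := by rw [this]
      _ = 1 := inv_mul_cancel _
  have h1 : FreeGroup.mk c = 1 := by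
    have h2 : (FreeGroup.mk c) ^ 2 = 1 := by rw [pow_two, hord]
    exact (pow_eq_one_iff_left (two_ne_zero)).1 h2
  have h2 : c = [] := by
    rw [← hred.reduce_eq, ← FreeGroup.toWord_mk, h1, FreeGroup.toWord_one]
  exact hcl h2

theorem NielsenB_repl (V : Fin n → FreeGroup α) (x y : Fin n × Bool) (h : x.1 ≠ y.1) :
    ∃ V', NMove V V' ∧ (∀ k, k ≠ x.1 → V' k = V k) ∧ sym V' x = sym V x * sym V y := by
  rcases x with ⟨i, s⟩
  rcases y with ⟨j, t⟩
  simp only at h
  cases s <;> cases t
  · refine ⟨_, NMove.mulL V i j h, fun k hk => Function.update_of_ne hk _ _, ?_⟩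
    simp [sym]
  · refine ⟨_, NMove.mulLi V i j h, fun k hk => Function.update_of_ne hk _ _, ?_⟩
    simp [sym]
  · refine ⟨_, NMove.mulRi V i j h, fun k hk => Function.update_of_ne hk _ _, ?_⟩
    simp [sym]
  · refine ⟨_, NMove.mulR V i j h, fun k hk => Function.update_of_ne hk _ _, ?_⟩
    simp [sym]

theorem NielsenB_sum (f : FreeGroup α → ℕ) (V V' : Fin n → FreeGroup α) (i : Fin n)
    (h : ∀ k, k ≠ i → V' k = V k) :
    ∑ k, f (V' k) + f (V i) = ∑ k, f (V k) + f (V' i) := by
  rw [← Finset.add_sum_erase _ _ (Finset.mem_univ i),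
    ← Finset.add_sum_erase Finset.univ (fun k => f (V k)) (Finset.mem_univ i)]
  have : ∑ k ∈ Finset.univ.erase i, f (V' k) = ∑ k ∈ Finset.univ.erase i, f (V k) :=
    Finset.sum_congr rfl fun k hk => by rw [h k (Finset.ne_of_mem_erase hk)]
  rw [this]; ring

theorem NielsenB_norm_sym (V : Fin n → FreeGroup α) (x : Fin n × Bool) :
    (sym V x).norm = (V x.1).norm := by
  rcases x with ⟨i, s⟩
  cases s <;> simp [sym]

private theorem pt_sym (V : Fin n → FreeGroup α) (x : Fin n × Bool) :
    pt (sym V x) = pt (V x.1) := by
  rcases x with ⟨i, s⟩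
  cases s
  · simp only [sym, Bool.false_eq_true, if_false]; exact pt_inv _
  · simp [sym]

theorem NielsenB_sym_bar (V : Fin n → FreeGroup α) (x : Fin n × Bool) :
    sym V (x.1, !x.2) = (sym V x)⁻¹ := by
  rcases x with ⟨i, s⟩
  cases s <;> simp [sym]

theorem NielsenB_eq (V : Fin n → FreeGroup α) (x y : Fin n × Bool) (h : x.1 = y.1)
    (h1 : sym V x * sym V y ≠ 1) : x = y := by
  rcases x with ⟨i, s⟩
  rcases y with ⟨j, t⟩
  simp only at h
  subst h
  cases s <;> cases t <;> simp_all [sym]

end rank

/-- every tuple can be Nielsen reduced -/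
theorem exists_NRed [Fintype α] (U : Fin n → FreeGroup α)
    (h1 : ∀ V, NEq U V → ∀ i, V i ≠ 1) : ∃ V, NEq U V ∧ NRed V := by
  let μ : (Fin n → FreeGroup α) → ℕ ×ₗ ℕ := fun V => toLex (∑ i, (V i).norm, ∑ i, pt (V i))
  obtain ⟨V, hV, hmin⟩ := WellFounded.has_min (InvImage.wf μ wellFounded_lt)
    {V | NEq U V} ⟨U, Relation.ReflTransGen.refl⟩
  have hM : ∀ x y : Fin n × Bool, x.1 ≠ y.1 →
      ¬ ((sym V x * sym V y).norm < (sym V x).norm) ∧
      ¬ ((sym V x * sym V y).norm = (sym V x).norm ∧ pt (sym V x * sym V y) < pt (sym V x)) := by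
    intro x y hxy
    obtain ⟨V', hm, hk, hx⟩ := NielsenB_repl V x y hxy
    have hW : NEq U V' := Relation.ReflTransGen.tail hV hm
    have hnot := hmin V' hW
    have s1 := NielsenB_sum (fun g => g.norm) V V' x.1 hk
    have s2 := NielsenB_sum (fun g => pt g) V V' x.1 hk
    have n1 := NielsenB_norm_sym V x
    have n2 := NielsenB_norm_sym V' x
    have p1 := pt_sym V x
    have p2 := pt_sym V' x
    rw [hx] at n2 p2
    constructor
    · intro hlt
      apply hnot
      show toLex (_, _) < toLex (_, _)
      rw [Prod.Lex.toLex_lt_toLex]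
      left
      show ∑ i, (V' i).norm < ∑ i, (V i).norm
      omega
    · rintro ⟨heq, hlt⟩
      apply hnot
      show toLex (_, _) < toLex (_, _)
      rw [Prod.Lex.toLex_lt_toLex]
      right
      constructor
      · show ∑ i, (V' i).norm = ∑ i, (V i).norm
        omega
      · show ∑ i, pt (V' i) < ∑ i, pt (V i)
        omega
  -- left version
  have hML : ∀ x y : Fin n × Bool, x.1 ≠ y.1 →
      ¬ ((sym V x * sym V y).norm < (sym V y).norm) ∧
      ¬ ((sym V x * sym V y).norm = (sym V y).norm ∧ pt (sym V x * sym V y) < pt (sym V y)) := by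
    intro x y hxy
    have := hM (y.1, !y.2) (x.1, !x.2) (Ne.symm hxy)
    rw [NielsenB_sym_bar, NielsenB_sym_bar, ← mul_inv_rev, FreeGroup.norm_inv_eq,
      FreeGroup.norm_inv_eq, pt_inv, pt_inv] at this
    exact this
  have hne : ∀ x : Fin n × Bool, sym V x ≠ 1 := by
    intro x h0
    have := h1 V hV x.1
    apply this
    rw [← FreeGroup.norm_eq_zero, ← NielsenB_norm_sym V x, h0, FreeGroup.norm_one]
  have hN1 : ∀ x y : Fin n × Bool, sym V x * sym V y ≠ 1 →
      (sym V x).norm ≤ (sym V x * sym V y).norm ∧
      (sym V y).norm ≤ (sym V x * sym V y).norm := by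
    intro x y hxy
    by_cases h : x.1 = y.1
    · have := NielsenB_eq V x y h hxy
      subst this
      exact ⟨NielsenB_sq _, NielsenB_sq _⟩
    · exact ⟨not_lt.1 (hM x y h).1, not_lt.1 (hML x y h).1⟩
  refine ⟨V, hV, h1 V hV, hN1, ?_⟩
  intro x y z hxy hyz
  obtain ⟨a, p, c, e1, e2, e3⟩ := NielsenB_mul (sym V x) (sym V y)
  obtain ⟨d, q, b, f1, f2, f3⟩ := NielsenB_mul (sym V y) (sym V z)
  have i1 := hN1 x y hxy
  have i2 := hN1 y z hyz
  have ng : (sym V x).norm = a.length + p.length := by
    rw [FreeGroup.norm, e1, List.length_append, FreeGroup.invRev_length]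
  have nh : (sym V y).norm = p.length + c.length := by
    rw [FreeGroup.norm, e2, List.length_append]
  have nh' : (sym V y).norm = d.length + q.length := by
    rw [FreeGroup.norm, f1, List.length_append, FreeGroup.invRev_length]
  have nk : (sym V z).norm = q.length + b.length := by
    rw [FreeGroup.norm, f2, List.length_append]
  have ngh : (sym V x * sym V y).norm = a.length + c.length := by
    rw [FreeGroup.norm, e3, List.length_append]
  have nhk : (sym V y * sym V z).norm = d.length + b.length := by
    rw [FreeGroup.norm, f3, List.length_append]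
  have hcd : p ++ c = d ++ FreeGroup.invRev q := by rw [← e2, ← f1]
  by_cases hpd : p.length < d.length
  · have hpre : p <+: d := by
      have h3 : p <+: d ++ FreeGroup.invRev q := by rw [← hcd]; exact List.prefix_append _ _
      exact List.prefix_of_prefix_length_le h3 (List.prefix_append _ _) hpd.le
    obtain ⟨m, rfl⟩ := hpre
    rw [List.append_assoc] at hcd
    have hc := List.append_cancel_left hcd
    subst hc
    have hm : m ≠ [] := by
      rintro rfl
      simp at hpd
    have hml : 0 < m.length := List.length_pos_iff.2 hm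
    have r1 : FreeGroup.IsReduced (a ++ m) := by
      have : FreeGroup.IsReduced (a ++ (m ++ FreeGroup.invRev q)) := by
        rw [← e3]; exact FreeGroup.isReduced_toWord
      exact red_mid this ⟨[], FreeGroup.invRev q, by simp⟩
    have r2 : FreeGroup.IsReduced (m ++ b) := by
      have : FreeGroup.IsReduced (p ++ m ++ b) := by
        rw [← f3]; exact FreeGroup.isReduced_toWord
      exact red_mid this ⟨p, [], by simp⟩
    have r3 : FreeGroup.IsReduced (a ++ m ++ b) := r1.append_overlap r2 hm
    have hprod : sym V x * sym V y * sym V z = FreeGroup.mk (a ++ m ++ b) := by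
      rw [← @FreeGroup.mk_toWord α _ (sym V x * sym V y), ← @FreeGroup.mk_toWord α _ (sym V z),
        e3, f2, ← FreeGroup.mul_mk, ← FreeGroup.mul_mk, ← FreeGroup.mul_mk, ← FreeGroup.mul_mk,
        ← FreeGroup.mul_mk, ← FreeGroup.inv_mk]
      group
    have hlen : (sym V x * sym V y * sym V z).norm = (a ++ m ++ b).length := by
      rw [hprod, FreeGroup.norm, FreeGroup.toWord_mk, r3.reduce_eq]
    rw [hlen, ng, nk, nh]
    simp only [List.length_append, FreeGroup.invRev_length]
    omega
  · exfalso
    have l1 : p.length = d.length := by omega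
    have l2 : q.length = p.length := by omega
    obtain ⟨rfl, rfl⟩ := List.append_inj hcd l1
    have hpq : p ≠ q := by
      rintro rfl
      apply hne y
      rw [← @FreeGroup.mk_toWord α _ (sym V y), e2, ← FreeGroup.mul_mk, ← FreeGroup.inv_mk]
      group
    have hrk : rk p ≠ rk q := fun h => hpq (rk_inj p q l2.symm h)
    rcases lt_or_gt_of_ne hrk with hlt | hlt
    · have hpt : pt (sym V y * sym V z) < pt (sym V z) :=
        pt_lt _ _ p q b f3 f2 l2.symm (by omega) hlt
      by_cases hyz1 : y.1 = z.1
      · have := NielsenB_eq V y z hyz1 hyz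
        subst this
        rw [e2] at f2
        exact hpq (List.append_inj f2 l2.symm).1
      · exact (hML y z hyz1).2 ⟨by omega, hpt⟩
    · have hpt : pt (sym V x * sym V y)⁻¹ < pt (sym V x)⁻¹ := by
        refine pt_lt _ _ q p (FreeGroup.invRev a) ?_ ?_ l2 (by rw [FreeGroup.invRev_length]; omega) hlt
        · rw [FreeGroup.toWord_inv, e3, FreeGroup.invRev_append, FreeGroup.invRev_invRev]
        · rw [FreeGroup.toWord_inv, e1, FreeGroup.invRev_append, FreeGroup.invRev_invRev]
      rw [pt_inv, pt_inv] at hpt
      by_cases hxy1 : x.1 = y.1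
      · have := NielsenB_eq V x y hxy1 hxy
        subst this
        rw [e2] at e1
        have h5 := (List.append_inj' e1 (by simp [l2])).2
        exact hpq (FreeGroup.invRev_injective h5).symm
      · refine (hM x y hxy1).2 ⟨?_, hpt⟩
        rw [ngh, ng, FreeGroup.invRev_length, l2]

end Pool.Agent.Sims
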