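import Pool.Agent.Sims.TClosed
import Pool.Agent.Sims.SameB
import Pool.Agent.Sims.SameC
import Pool.Agent.Sims.ACut

/-!
# Module `NotPhiO` : words `a g a⁻¹ h` without nontrivial level moves of multiplier `a^{±1}`

The same proof as in `NotPhiS` with lists of two classes: `c₀ = opp g₀ h₀`, `g₀, h₀ ≠ 1`, `Q = [[g₀], [h₀]]`,
`tcnt Q i = cnt c₀ i` (`opp_norm`, `opp_cnt`), `ℓ = m - 2 ≥ 9`, `𝒬` from `tclosed3`, all members are lists `[Y, Z]` of length 2;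
`E = ⋃ {EOpp Y Z | [Y, Z] ∈ 𝒬}`, contained in a finset with at most `(ℓ - 5) (ℓ²/4) ≤ F3 m` elements (`EOpp_fin`,
`‖Y‖ + ‖Z‖ = ℓ`, `‖Y‖ ‖Z‖ ≤ ℓ² / 4 ≤ ℓ (ℓ+1)`).  Moves: `z.1 = 0`: `acut` and `hP`.  `z.1 ≠ 0`: `act_opp`, `mk_opp`, `tmove`,
`opp_norm`, `opp_norm_min`, `EOpp_SPerm`.  (`g' = q φ(g) q⁻¹ ≠ 1` as `g ≠ 1`.)
Difficulty 2-3.
-/

namespace Pool.Agent.Sims

open FreeGroup (of)

theorem NotPhiO_tcnt (Y Z : CC) (i : Fin 3) : tcnt [Y, Z] i = cnt Y i + cnt Z i := by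
  simp [tcnt]

theorem NotPhiO_tmin {Y Z : CC} (h : ∀ k : ℤ, (k = 1 ∨ k = -1) →
    cycLen Y + cycLen Z ≤ cycLen (act (tau k) Y) + cycLen (act (tau k) Z)) :
    TMin [Y, Z] := by
  have key : ∀ k : ℤ, (k = 1 ∨ k = -1) → tcnt [Y, Z] 2 ≤ tcnt (tact (tau k) [Y, Z]) 2 := by
    intro k hk
    have h1 := h k hk
    have h2 : tact (tau k) [Y, Z] = [act (tau k) Y, act (tau k) Z] := rfl
    rw [h2, NotPhiO_tcnt, NotPhiO_tcnt]
    rw [cycLen_eq_sum Y, cycLen_eq_sum Z, cycLen_eq_sum (act (tau k) Y),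
      cycLen_eq_sum (act (tau k) Z), Fin.sum_univ_three, Fin.sum_univ_three, Fin.sum_univ_three,
      Fin.sum_univ_three,
      cnt_tau k Y (by decide : (0 : Fin 3) ≠ 2), cnt_tau k Y (by decide : (1 : Fin 3) ≠ 2),
      cnt_tau k Z (by decide : (0 : Fin 3) ≠ 2), cnt_tau k Z (by decide : (1 : Fin 3) ≠ 2)] at h1
    omega
  exact ⟨key 1 (Or.inl rfl), key (-1) (Or.inr rfl)⟩

theorem NotPhiO_tstep {Y Z : CC} {φ : FreeGroup (Fin 3) ≃* FreeGroup (Fin 3)}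
    (hφ : (φ = tau 1 ∨ φ = tau (-1)) ∨ (φ = sig 1 ∨ φ = sig (-1)))
    (hlen : cycLen (act φ Y) + cycLen (act φ Z) = cycLen Y + cycLen Z) :
    TStep [Y, Z] [act φ Y, act φ Z] := by
  rw [cycLen_eq_sum, cycLen_eq_sum, cycLen_eq_sum, cycLen_eq_sum,
    Fin.sum_univ_three, Fin.sum_univ_three, Fin.sum_univ_three, Fin.sum_univ_three] at hlen
  rcases hφ with hφ | hφ
  · left
    refine ⟨?_, ?_⟩
    · rcases hφ with rfl | rfl
      · left; rfl
      · right; rfl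
    · have h0 : ∀ W, cnt (act φ W) 0 = cnt W 0 := by
        intro W
        rcases hφ with rfl | rfl
        · exact cnt_tau _ _ (by decide)
        · exact cnt_tau _ _ (by decide)
      have h1 : ∀ W, cnt (act φ W) 1 = cnt W 1 := by
        intro W
        rcases hφ with rfl | rfl
        · exact cnt_tau _ _ (by decide)
        · exact cnt_tau _ _ (by decide)
      rw [NotPhiO_tcnt, NotPhiO_tcnt]
      rw [h0, h0, h1, h1] at hlen
      omega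
  · right
    refine ⟨?_, ?_⟩
    · rcases hφ with rfl | rfl
      · left; rfl
      · right; rfl
    · have h0 : ∀ W, cnt (act φ W) 0 = cnt W 0 := by
        intro W
        rcases hφ with rfl | rfl
        · exact cnt_sig _ _ (by decide)
        · exact cnt_sig _ _ (by decide)
      have h1 : ∀ W, cnt (act φ W) 2 = cnt W 2 := by
        intro W
        rcases hφ with rfl | rfl
        · exact cnt_sig _ _ (by decide)
        · exact cnt_sig _ _ (by decide)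
      rw [NotPhiO_tcnt, NotPhiO_tcnt]
      rw [h0, h0, h1, h1] at hlen
      omega

theorem NotPhiO_conj_ne {g q : FreeGroup (Fin 3)} (φ : FreeGroup (Fin 3) ≃* FreeGroup (Fin 3))
    (hg : g ≠ 1) : q * φ g * q⁻¹ ≠ 1 := by
  intro h
  apply hg
  have h1 : φ g = 1 := by
    rw [mul_inv_eq_one] at h
    exact mul_eq_left.1 h
  exact (MulEquiv.map_eq_one_iff φ).1 h1

theorem notphi_opp {g h : FreeGroup (Fin 3)} (hg : In12 g) (hh : In12 h) (hg1 : g ≠ 1)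
    (hh1 : h ≠ 1) (hO : OMin (opp g h)) (hm : 11 ≤ cycLen (opp g h)) (h1 : 3 ≤ cnt (opp g h) 1)
    (h12 : cnt (opp g h) 1 ≤ cnt (opp g h) 2)
    (hP : ∀ e ∈ orb (opp g h), cnt e 0 = 2 → capC e Sb ≠ 2 ∧ capC e Sc ≠ 2) :
    Bdd (opp g h) (F3 (cycLen (opp g h))) := by
  have hY0 : cnt (ConjClasses.mk g) 0 = 0 := cnt_of_In12 hg
  have hZ0 : cnt (ConjClasses.mk h) 0 = 0 := cnt_of_In12 hh
  have hnorm := opp_norm hg hh hg1 hh1 hO
  have hlen := (opp_len hg hh hg1 hh1).1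
  have hc1 := opp_cnt hg hh hg1 hh1 hnorm.1 hnorm.2 (by decide : (1 : Fin 3) ≠ 0)
  have hc2 := opp_cnt hg hh hg1 hh1 hnorm.1 hnorm.2 (by decide : (2 : Fin 3) ≠ 0)
  have hcycY : cycLen (ConjClasses.mk g) =
      cnt (ConjClasses.mk g) 1 + cnt (ConjClasses.mk g) 2 := by
    rw [cycLen_eq_sum, Fin.sum_univ_three, hY0]; omega
  have hcycZ : cycLen (ConjClasses.mk h) =
      cnt (ConjClasses.mk h) 1 + cnt (ConjClasses.mk h) 2 := by
    rw [cycLen_eq_sum, Fin.sum_univ_three, hZ0]; omega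
  obtain ⟨𝒬, hQ0, hQ1, hQ2, hQ3⟩ := tclosed3 (Q := [ConjClasses.mk g, ConjClasses.mk h])
    (by
      intro c hc
      simp only [List.mem_cons, List.not_mem_nil, or_false] at hc
      rcases hc with rfl | rfl
      · exact hY0
      · exact hZ0)
    (by rw [NotPhiO_tcnt, NotPhiO_tcnt]; omega) (by rw [NotPhiO_tcnt]; omega)
    (by rw [NotPhiO_tcnt, NotPhiO_tcnt]; omega)
  simp only [NotPhiO_tcnt] at hQ1 hQ2
  obtain ⟨ℓ, hℓ⟩ : ∃ ℓ, ℓ = cycLen (ConjClasses.mk g) + cycLen (ConjClasses.mk h) := ⟨_, rfl⟩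
  have hℓ9 : 9 ≤ ℓ := by omega
  -- members
  have hmem : ∀ Y Z : CC, [Y, Z] ∈ 𝒬 → cnt Y 0 = 0 ∧ cnt Z 0 = 0 ∧
      cnt Y 1 + cnt Z 1 = cnt (opp g h) 1 ∧
      cnt Y 2 + cnt Z 2 = cnt (opp g h) 2 ∧ cycLen Y + cycLen Z = ℓ := by
    intro Y Z hY
    obtain ⟨a1, -, a3, a4⟩ := hQ1 _ hY
    rw [NotPhiO_tcnt] at a3 a4
    have a0 : cnt Y 0 = 0 := a1 Y (by simp)
    have a0' : cnt Z 0 = 0 := a1 Z (by simp)
    refine ⟨a0, a0', by omega, by omega, ?_⟩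
    rw [cycLen_eq_sum Y, cycLen_eq_sum Z, Fin.sum_univ_three, Fin.sum_univ_three]
    omega
  have hsing : ∀ R ∈ 𝒬, ∃ Y Z, R = [Y, Z] := by
    intro R hR
    have := (hQ1 R hR).2.1
    exact List.length_eq_two.1 this
  -- the finset
  have hF : ∀ R : List CC, ∃ F : Finset CC, R ∈ 𝒬 → (F.card ≤ ℓ * (ℓ + 1) ∧
      ∀ Y Z, R = [Y, Z] → ∀ e ∈ EOpp Y Z, e ∈ F) := by
    intro R
    by_cases hR : R ∈ 𝒬
    · obtain ⟨Y, Z, rfl⟩ := hsing R hR
      obtain ⟨-, -, -, -, a4⟩ := hmem Y Z hR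
      obtain ⟨F, b1, b2⟩ := EOpp_fin Y Z
      refine ⟨F, fun _ => ⟨le_trans b1 ?_, ?_⟩⟩
      · exact Nat.mul_le_mul (by omega) (by omega)
      · intro Y' Z' hY' e he
        have : Y = Y' ∧ Z = Z' := by simpa using hY'
        obtain ⟨rfl, rfl⟩ := this
        exact b2 e he
    · exact ⟨∅, fun h => absurd h hR⟩
  choose F hF using hF
  classical
  have hcard : (𝒬.biUnion F).card ≤ F3 (cycLen (opp g h)) := by
    calc (𝒬.biUnion F).card ≤ 𝒬.card * (ℓ * (ℓ + 1)) :=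
          Finset.card_biUnion_le_card_mul _ _ _ (fun R hR => (hF R hR).1)
      _ ≤ (ℓ - 5) * (ℓ * (ℓ + 1)) := Nat.mul_le_mul_right _ (by omega)
      _ = F3 (cycLen (opp g h)) := by
          have : cycLen (opp g h) = ℓ + 2 := by omega
          rw [this, F3]
          have e1 : ℓ + 2 - 1 = ℓ + 1 := by omega
          have e2 : ℓ + 2 - 2 = ℓ := by omega
          have e3 : ℓ + 2 - 7 = ℓ - 5 := by omega
          rw [e1, e2, e3]
          ring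
  refine Bdd_mono (Bdd_of_closed hO {e | ∃ Y Z, [Y, Z] ∈ 𝒬 ∧ e ∈ EOpp Y Z} (𝒬.biUnion F)
    ?_ ?_ ?_) hcard
  · rintro e ⟨Y, Z, hY, he⟩ -
    exact Finset.mem_biUnion.2 ⟨_, hY, (hF _ hY).2 Y Z rfl e he⟩
  · obtain ⟨π, hπ, -, -⟩ := exists_SPerm_one
    exact ⟨π, opp g h, ⟨_, _, hQ0, g, h, hg, hh, hg1, hh1, rfl, rfl, hnorm.1, hnorm.2, rfl⟩,
      (hπ _).symm⟩
  · rintro e ⟨Y, Z, hY, he⟩ heo z A hz hz' hcap
    obtain ⟨g3, h3, hg3, hh3, hg3n, hh3n, hYe, hZe, hn1, hn1b, rfl⟩ := he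
    obtain ⟨a0, a0', a1, a2, a3⟩ := hmem Y Z hY
    have hOe : OMin (opp g3 h3) := OMin_orb hO heo
    have hl1 := opp_len hg3 hh3 hg3n hh3n
    have hd1 := opp_cnt hg3 hh3 hg3n hh3n (by rw [hYe]; exact hn1) (by rw [hZe]; exact hn1b)
      (by decide : (1 : Fin 3) ≠ 0)
    have hd2 := opp_cnt hg3 hh3 hg3n hh3n (by rw [hYe]; exact hn1) (by rw [hZe]; exact hn1b)
      (by decide : (2 : Fin 3) ≠ 0)
    rw [hYe, hZe] at hd1 hd2
    obtain ⟨π, hπ, -, -⟩ := exists_SPerm_one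
    by_cases hz0 : z.1 = 0
    · rcases acut hOe hl1.2.1 (by omega) (by omega) hz0 hz hz' hcap with h5 | h5 | h5
      · rw [h5]
        exact ⟨π, _, ⟨Y, Z, hY, g3, h3, hg3, hh3, hg3n, hh3n, hYe, hZe, hn1, hn1b, rfl⟩,
          (hπ _).symm⟩
      · exact absurd h5.1 (hP _ heo hl1.2.1).1
      · exact absurd h5.1 (hP _ heo hl1.2.1).2
    · obtain ⟨p, q, hG⟩ := Good_wh hz0 A
      have horb := orb_level heo hz hz' hcap
      have hlen' : cycLen (act (wh z A) (opp g3 h3)) = cycLen (opp g3 h3) := by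
        rw [horb.2, heo.2]
      have hO' := OMin_orb hO horb
      rw [act_opp hG g3 h3] at horb hlen' hO' ⊢
      obtain ⟨φ, hφ, hφ2⟩ := tmove hz0 A
      have hmk := mk_opp (φ := wh z A) (p := p) (q := q) g3 h3
      rw [hYe, hZe, hφ2 Y a0, hφ2 Z a0'] at hmk
      have hg2n : q * wh z A g3 * q⁻¹ ≠ 1 := NotPhiO_conj_ne _ hg3n
      have hh2n : p⁻¹ * wh z A h3 * p ≠ 1 := by
        have := NotPhiO_conj_ne (q := p⁻¹) (wh z A) hh3n
        rwa [inv_inv] at this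
      have hg2' : In12 (q * wh z A g3 * q⁻¹) :=
        In12_mul (In12_mul hG.2.1 (hG.2.2.2 _ hg3)) (In12_inv hG.2.1)
      have hh2' : In12 (p⁻¹ * wh z A h3 * p) :=
        In12_mul (In12_mul (In12_inv hG.1) (hG.2.2.2 _ hh3)) hG.1
      obtain ⟨g2, hg2⟩ : ∃ g2, g2 = q * wh z A g3 * q⁻¹ := ⟨_, rfl⟩
      obtain ⟨h2, hh2⟩ : ∃ h2, h2 = p⁻¹ * wh z A h3 * p := ⟨_, rfl⟩
      rw [← hg2, ← hh2] at horb hlen' hO' hmk ⊢
      rw [← hg2] at hg2n hg2'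
      rw [← hh2] at hh2n hh2'
      have hn2 := opp_norm hg2' hh2' hg2n hh2n hO'
      rw [hmk.1, hmk.2] at hn2
      have hmem' : opp g2 h2 ∈ EOpp (act φ Y) (act φ Z) :=
        ⟨g2, h2, hg2', hh2', hg2n, hh2n, hmk.1, hmk.2, hn2.1, hn2.2, rfl⟩
      have hlφ : cycLen (act φ Y) + cycLen (act φ Z) = cycLen Y + cycLen Z := by
        rw [(opp_len hg2' hh2' hg2n hh2n).1, hl1.1] at hlen'
        omega
      rcases hφ with rfl | hφ
      · rw [act_refl, act_refl] at hmem'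
        exact ⟨π, _, ⟨Y, Z, hY, hmem'⟩, (hπ _).symm⟩
      · have hφ' : (φ = tau 1 ∨ φ = tau (-1)) ∨ (φ = sig 1 ∨ φ = sig (-1)) := by
          rcases hφ with hφ | hφ
          · exact Or.inl hφ.2
          · exact Or.inr hφ.2
        have hT := NotPhiO_tstep hφ' hlφ
        have hM : TMin [Y, Z] := by
          apply NotPhiO_tmin
          intro k _
          have := opp_norm_min hg3 hh3 hg3n hh3n hOe (Good_tau k)
          rw [hYe, hZe] at this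
          omega
        obtain ⟨σ, hσ, R'', hR'', hR3⟩ := hQ3 _ hY hM _ hT
        obtain ⟨Y'', Z'', rfl⟩ := hsing R'' hR''
        have hYY : act φ Y = act σ.aut Y'' ∧ act φ Z = act σ.aut Z'' := by
          simpa [tact] using hR3
        obtain ⟨e'', he'', hee⟩ := EOpp_SPerm hσ hYY.1 hYY.2 hmem'
        exact ⟨σ, e'', ⟨Y'', Z'', hR'', he''⟩, hee⟩

end Pool.Agent.Sims
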