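import Pool.Agent.Sims.TClosed
import Pool.Agent.Sims.SameB
import Pool.Agent.Sims.SameC
import Pool.Agent.Sims.ACut

/-!
# Module `NotPhiS` : words `a g a h` without nontrivial level moves of multiplier `a^{±1}`

Let `c₀ = same g₀ h₀` be orbit-minimal, `m = cycLen c₀ ≥ 11`, `3 ≤ n_b ≤ n_c`, `ℓ = m - 2 = n_b + n_c ≥ 9`.  `Y₀ = [g₀ h₀⁻¹]`,
`cnt Y₀ 0 = 0` (`cnt_of_In12`), `cnt Y₀ i = cnt c₀ i` (`same_norm`, `same_cnt`).  Let `𝒬` be the set of `tclosed3` for `Q = [Y₀]`,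
`E = ⋃ {ESame Y | [Y] ∈ 𝒬}`, contained in a finset with at most `(ℓ - 5) ℓ (ℓ + 1) = F3 m` elements (`ESame_fin`,
`cycLen Y = tcnt [Y] 1 + tcnt [Y] 2 = ℓ`, `cycLen_eq_sum`).  `c₀ ∈ E`.  `Bdd_of_closed`: let `e ∈ E ∩ orb c₀`,
`e = same g h`, `Y = [g h⁻¹]`; `OMin e`; `cnt e 0 = 2`, `cnt e 1 = n_b`, `cnt e 2 = n_c` (`same_cnt`); `(z, A)` a level move.
* `z.1 = 0`: by `acut` and the hypothesis `hP`, `act (wh z A) e = e ∈ E`.
* `z.1 ≠ 0`: `Good (wh z A) p q` (`Good_wh`); `e' = act (wh z A) e = same g' h'` (`act_same`), `[g' h'⁻¹] = act (wh z A) Y`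
  (`mk_same`) `= act φ Y` with `φ` from `tmove`.  `e' ∈ orb c₀` (`orb_level`), so it is orbit-minimal and
  `|g'| + |h'| = ‖act φ Y‖` (`same_norm`), i.e. `e' ∈ ESame (act φ Y)`; the length of `e'` is `m` so `‖act φ Y‖ = ℓ`.
  `φ = 1`: done.  Otherwise `TStep [Y] [act φ Y]`: for `φ = tau^{±1}` the number of `b`-letters is unchanged
  (`cnt_tau`) and the lengths agree, so `cnt _ 2` agree; similarly `sig`.  `TMin [Y]`: by `same_norm_min` for
  `tau^{±1}` (`Good_tau`): `‖Y‖ = |g| + |h| ≤ ‖act (tau^{±1}) Y‖` and `cnt_tau`.  So `[act φ Y] = tact σ [Y'']`, `[Y''] ∈ 𝒬`,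
  `Fix0 σ`, and `e' = act σ e''` with `e'' ∈ ESame Y''` (`ESame_SPerm`).
Difficulty 2-3.
-/

namespace Pool.Agent.Sims

open FreeGroup (of)

/-- shortest form of the counting of `𝒬` -/
theorem NotPhiS_tmin {Y : CC} (h : ∀ k : ℤ, (k = 1 ∨ k = -1) → cycLen Y ≤ cycLen (act (tau k) Y)) :
    TMin [Y] := by
  have key : ∀ k : ℤ, (k = 1 ∨ k = -1) → tcnt [Y] 2 ≤ tcnt (tact (tau k) [Y]) 2 := by
    intro k hk
    have h1 := h k hk
    rw [cycLen_eq_sum, cycLen_eq_sum, Fin.sum_univ_three, Fin.sum_univ_three,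
      cnt_tau k Y (by decide : (0 : Fin 3) ≠ 2), cnt_tau k Y (by decide : (1 : Fin 3) ≠ 2)] at h1
    simp only [tcnt, tact, List.map_cons, List.map_nil, List.sum_cons, List.sum_nil]
    omega
  exact ⟨key 1 (Or.inl rfl), key (-1) (Or.inr rfl)⟩

theorem NotPhiS_tstep {Y : CC} {φ : FreeGroup (Fin 3) ≃* FreeGroup (Fin 3)}
    (hφ : (φ = tau 1 ∨ φ = tau (-1)) ∨ (φ = sig 1 ∨ φ = sig (-1)))
    (hlen : cycLen (act φ Y) = cycLen Y) : TStep [Y] [act φ Y] := by
  rcases hφ with hφ | hφ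
  · left
    refine ⟨?_, ?_⟩
    · rcases hφ with rfl | rfl
      · left; rfl
      · right; rfl
    · have h0 : cnt (act φ Y) 0 = cnt Y 0 := by
        rcases hφ with rfl | rfl
        · exact cnt_tau _ _ (by decide)
        · exact cnt_tau _ _ (by decide)
      have h1 : cnt (act φ Y) 1 = cnt Y 1 := by
        rcases hφ with rfl | rfl
        · exact cnt_tau _ _ (by decide)
        · exact cnt_tau _ _ (by decide)
      rw [cycLen_eq_sum, cycLen_eq_sum, Fin.sum_univ_three, Fin.sum_univ_three] at hlen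
      simp only [tcnt, List.map_cons, List.map_nil, List.sum_cons, List.sum_nil]
      omega
  · right
    refine ⟨?_, ?_⟩
    · rcases hφ with rfl | rfl
      · left; rfl
      · right; rfl
    · have h0 : cnt (act φ Y) 0 = cnt Y 0 := by
        rcases hφ with rfl | rfl
        · exact cnt_sig _ _ (by decide)
        · exact cnt_sig _ _ (by decide)
      have h1 : cnt (act φ Y) 2 = cnt Y 2 := by
        rcases hφ with rfl | rfl
        · exact cnt_sig _ _ (by decide)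
        · exact cnt_sig _ _ (by decide)
      rw [cycLen_eq_sum, cycLen_eq_sum, Fin.sum_univ_three, Fin.sum_univ_three] at hlen
      simp only [tcnt, List.map_cons, List.map_nil, List.sum_cons, List.sum_nil]
      omega

theorem notphi_same {g h : FreeGroup (Fin 3)} (hg : In12 g) (hh : In12 h)
    (hO : OMin (same g h)) (hm : 11 ≤ cycLen (same g h)) (h1 : 3 ≤ cnt (same g h) 1)
    (h12 : cnt (same g h) 1 ≤ cnt (same g h) 2)
    (hP : ∀ e ∈ orb (same g h), cnt e 0 = 2 → capC e Sb ≠ 2 ∧ capC e Sc ≠ 2) :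
    Bdd (same g h) (F3 (cycLen (same g h))) := by
  have hY0 : cnt (ConjClasses.mk (g * h⁻¹)) 0 = 0 := cnt_of_In12 (In12_mul hg (In12_inv hh))
  have hnorm := same_norm hg hh hO
  have hlen := (same_len hg hh).1
  have hc1 := same_cnt hg hh hnorm (by decide : (1 : Fin 3) ≠ 0)
  have hc2 := same_cnt hg hh hnorm (by decide : (2 : Fin 3) ≠ 0)
  have hcyc : cycLen (ConjClasses.mk (g * h⁻¹)) =
      cnt (ConjClasses.mk (g * h⁻¹)) 1 + cnt (ConjClasses.mk (g * h⁻¹)) 2 := by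
    rw [cycLen_eq_sum, Fin.sum_univ_three, hY0]; omega
  have htc : ∀ (Y : CC) (i : Fin 3), tcnt [Y] i = cnt Y i := by
    intro Y i
    simp [tcnt]
  obtain ⟨𝒬, hQ0, hQ1, hQ2, hQ3⟩ := tclosed3 (Q := [ConjClasses.mk (g * h⁻¹)])
    (by intro c hc; rw [List.mem_singleton] at hc; rw [hc]; exact hY0)
    (by rw [htc, htc]; omega) (by rw [htc]; omega) (by rw [htc, htc]; omega)
  simp only [htc] at hQ1 hQ2
  obtain ⟨ℓ, hℓ⟩ : ∃ ℓ, ℓ = cycLen (ConjClasses.mk (g * h⁻¹)) := ⟨_, rfl⟩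
  have hℓ9 : 9 ≤ ℓ := by omega
  -- members
  have hmem : ∀ Y : CC, [Y] ∈ 𝒬 → cnt Y 0 = 0 ∧ cnt Y 1 = cnt (same g h) 1 ∧
      cnt Y 2 = cnt (same g h) 2 ∧ cycLen Y = ℓ := by
    intro Y hY
    obtain ⟨a1, -, a3, a4⟩ := hQ1 _ hY
    rw [htc] at a3 a4
    have a0 : cnt Y 0 = 0 := a1 Y (List.mem_singleton.2 rfl)
    refine ⟨a0, by omega, by omega, ?_⟩
    rw [cycLen_eq_sum, Fin.sum_univ_three]
    omega
  have hsing : ∀ R ∈ 𝒬, ∃ Y, R = [Y] := by
    intro R hR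
    have := (hQ1 R hR).2.1
    rw [List.length_singleton] at this
    exact List.length_eq_one_iff.1 this
  -- the finset
  have hF : ∀ R : List CC, ∃ F : Finset CC, R ∈ 𝒬 → (F.card ≤ ℓ * (ℓ + 1) ∧
      ∀ Y, R = [Y] → ∀ e ∈ ESame Y, e ∈ F) := by
    intro R
    by_cases hR : R ∈ 𝒬
    · obtain ⟨Y, rfl⟩ := hsing R hR
      obtain ⟨-, -, -, a4⟩ := hmem Y hR
      obtain ⟨F, b1, b2⟩ := ESame_fin Y (by omega)
      refine ⟨F, fun _ => ⟨by rw [a4] at b1; exact b1, ?_⟩⟩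
      intro Y' hY' e he
      have : Y' = Y := by simpa using hY'.symm
      subst this
      exact b2 e he
    · exact ⟨∅, fun h => absurd h hR⟩
  choose F hF using hF
  classical
  have hcard : (𝒬.biUnion F).card ≤ F3 (cycLen (same g h)) := by
    calc (𝒬.biUnion F).card ≤ 𝒬.card * (ℓ * (ℓ + 1)) :=
          Finset.card_biUnion_le_card_mul _ _ _ (fun R hR => (hF R hR).1)
      _ ≤ (ℓ - 5) * (ℓ * (ℓ + 1)) := Nat.mul_le_mul_right _ (by omega)
      _ = F3 (cycLen (same g h)) := by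
          have : cycLen (same g h) = ℓ + 2 := by omega
          rw [this, F3]
          have e1 : ℓ + 2 - 1 = ℓ + 1 := by omega
          have e2 : ℓ + 2 - 2 = ℓ := by omega
          have e3 : ℓ + 2 - 7 = ℓ - 5 := by omega
          rw [e1, e2, e3]
          ring
  refine Bdd_mono (Bdd_of_closed hO {e | ∃ Y, [Y] ∈ 𝒬 ∧ e ∈ ESame Y} (𝒬.biUnion F) ?_ ?_ ?_) hcard
  · rintro e ⟨Y, hY, he⟩ -
    exact Finset.mem_biUnion.2 ⟨_, hY, (hF _ hY).2 Y rfl e he⟩
  · obtain ⟨π, hπ, -, -⟩ := exists_SPerm_one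
    exact ⟨π, same g h, ⟨_, hQ0, g, h, hg, hh, rfl, hnorm, rfl⟩, (hπ _).symm⟩
  · rintro e ⟨Y, hY, he⟩ heo z A hz hz' hcap
    obtain ⟨g1, h1', hg1, hh1, hYe, hn1, rfl⟩ := he
    obtain ⟨a0, a1, a2, a3⟩ := hmem Y hY
    have hOe : OMin (same g1 h1') := OMin_orb hO heo
    have hl1 := same_len hg1 hh1
    have hn1' : g1.norm + h1'.norm = cycLen (ConjClasses.mk (g1 * h1'⁻¹)) := by rw [hYe]; exact hn1
    have hd1 := same_cnt hg1 hh1 hn1' (by decide : (1 : Fin 3) ≠ 0)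
    have hd2 := same_cnt hg1 hh1 hn1' (by decide : (2 : Fin 3) ≠ 0)
    rw [hYe] at hd1 hd2
    obtain ⟨π, hπ, -, -⟩ := exists_SPerm_one
    by_cases hz0 : z.1 = 0
    · rcases acut hOe hl1.2.1 (by omega) (by omega) hz0 hz hz' hcap with h5 | h5 | h5
      · rw [h5]
        exact ⟨π, _, ⟨Y, hY, g1, h1', hg1, hh1, hYe, hn1, rfl⟩, (hπ _).symm⟩
      · exact absurd h5.1 (hP _ heo hl1.2.1).1
      · exact absurd h5.1 (hP _ heo hl1.2.1).2
    · obtain ⟨p, q, hG⟩ := Good_wh hz0 A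
      have horb := orb_level heo hz hz' hcap
      have hlen' : cycLen (act (wh z A) (same g1 h1')) = cycLen (same g1 h1') := by
        rw [horb.2, heo.2]
      have hO' := OMin_orb hO horb
      rw [act_same hG g1 h1'] at horb hlen' hO' ⊢
      obtain ⟨φ, hφ, hφ2⟩ := tmove hz0 A
      have hmk := mk_same (φ := wh z A) (p := p) (q := q) g1 h1'
      rw [hYe, hφ2 Y a0] at hmk
      obtain ⟨g2, hg2⟩ : ∃ g2, g2 = q * wh z A g1 * p := ⟨_, rfl⟩
      obtain ⟨h2, hh2⟩ : ∃ h2, h2 = q * wh z A h1' * p := ⟨_, rfl⟩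
      rw [← hg2, ← hh2] at horb hlen' hO' hmk ⊢
      have hg2' : In12 g2 := by
        rw [hg2]; exact In12_mul (In12_mul hG.2.1 (hG.2.2.2 _ hg1)) hG.1
      have hh2' : In12 h2 := by
        rw [hh2]; exact In12_mul (In12_mul hG.2.1 (hG.2.2.2 _ hh1)) hG.1
      have hn2 := same_norm hg2' hh2' hO'
      rw [hmk] at hn2
      have hmem' : same g2 h2 ∈ ESame (act φ Y) := ⟨g2, h2, hg2', hh2', hmk, hn2, rfl⟩
      have hlφ : cycLen (act φ Y) = cycLen Y := by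
        rw [(same_len hg2' hh2').1, hl1.1] at hlen'
        omega
      rcases hφ with rfl | hφ
      · rw [act_refl] at hmem'
        exact ⟨π, _, ⟨Y, hY, hmem'⟩, (hπ _).symm⟩
      · have hφ' : (φ = tau 1 ∨ φ = tau (-1)) ∨ (φ = sig 1 ∨ φ = sig (-1)) := by
          rcases hφ with hφ | hφ
          · exact Or.inl hφ.2
          · exact Or.inr hφ.2
        have hT := NotPhiS_tstep hφ' hlφ
        have hM : TMin [Y] := by
          apply NotPhiS_tmin
          intro k _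
          have := same_norm_min hg1 hh1 hOe (Good_tau k)
          rw [hYe] at this
          omega
        obtain ⟨σ, hσ, R'', hR'', hR3⟩ := hQ3 _ hY hM _ hT
        obtain ⟨Y'', rfl⟩ := hsing R'' hR''
        have hYY : act φ Y = act σ.aut Y'' := by
          simpa [tact] using hR3
        obtain ⟨e'', he'', hee⟩ := ESame_SPerm hσ hYY hmem'
        exact ⟨σ, e'', ⟨Y'', hR'', he''⟩, hee⟩

end Pool.Agent.Sims
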