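import Pool.Agent.Sims.TwBasic
import Pool.Agent.Sims.TwPot
import Pool.Agent.Sims.Par

/-!
# Module `OddR2` : `n = cnt 0 = cnt 1` odd, `K = cnt 2 > n`, all pair cuts `> n`

`V` orbit-minimal with counts `n, n, K`, `n` odd, all pair capacities `> n`.  Let `Ax x = {x, c, c⁻¹}` for `x ∈ {a, a⁻¹, b, b⁻¹}`.
(A) A cut of capacity `n` does not separate `c`, and by parity it separates exactly one of `a, b`.  So a level move with `z.1 ≠ 2` is trivial, or up to complement
    `A` is `Ax x` for one of the four letters, with `cap (Ax x) = n`.
(B) If `cap (Ax x) = n` for some `x`, then `x` is unique, all `c`-moves are trivial, and the level set consists of `V` and `act (wh x (Ax x)) V`.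
(C) Otherwise all level moves are `c`-moves, and they move along one line of potentials.
-/

namespace Pool.Agent.Sims

open FreeGroup (of)

/-- a cut given by six Booleans -/
def OddR2_m (a a' b b' d d' : Bool) : Fin 3 × Bool → Bool := fun x =>
  if x.1 = 0 then (if x.2 then a else a') else if x.1 = 1 then (if x.2 then b else b')
  else (if x.2 then d else d')

theorem OddR2_eta (A : Fin 3 × Bool → Bool) (x : Fin 3 × Bool) :
    A x = OddR2_m (A (0, true)) (A (0, false)) (A (1, true)) (A (1, false)) (A (2, true))
      (A (2, false)) x := by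
  rcases x with ⟨i, s⟩
  fin_cases i <;> cases s <;> rfl

/-- capacity of a cut given by six Booleans -/
noncomputable def OddR2_f (V : CC) (a a' b b' d d' : Bool) : ℕ := capC V (OddR2_m a a' b b' d d')

theorem OddR2_cap (V : CC) (A : Fin 3 × Bool → Bool) : capC V A =
    OddR2_f V (A (0, true)) (A (0, false)) (A (1, true)) (A (1, false)) (A (2, true))
      (A (2, false)) := capC_congr V (OddR2_eta A)

theorem OddR2_sub (V : CC) (a a' b b' d d' p p' q q' r r' : Bool) :
    OddR2_f V (a && p) (a' && p') (b && q) (b' && q') (d && r) (d' && r') +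
    OddR2_f V (a || p) (a' || p') (b || q) (b' || q') (d || r) (d' || r') ≤
    OddR2_f V a a' b b' d d' + OddR2_f V p p' q q' r r' := by
  have h := capC_submod V (OddR2_m a a' b b' d d') (OddR2_m p p' q q' r r')
  rw [OddR2_cap V (fun x => OddR2_m a a' b b' d d' x && OddR2_m p p' q q' r r' x),
    OddR2_cap V (fun x => OddR2_m a a' b b' d d' x || OddR2_m p p' q q' r r' x)] at h
  exact h

theorem OddR2_sub' (V : CC) (a a' b b' d d' p p' q q' r r' : Bool) :
    OddR2_f V (a && !p) (a' && !p') (b && !q) (b' && !q') (d && !r) (d' && !r') +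
    OddR2_f V (!a && p) (!a' && p') (!b && q) (!b' && q') (!d && r) (!d' && r') ≤
    OddR2_f V a a' b b' d d' + OddR2_f V p p' q q' r r' := by
  have h := capC_submod' V (OddR2_m a a' b b' d d') (OddR2_m p p' q q' r r')
  rw [OddR2_cap V (fun x => OddR2_m a a' b b' d d' x && !OddR2_m p p' q q' r r' x),
    OddR2_cap V (fun x => !OddR2_m a a' b b' d d' x && OddR2_m p p' q q' r r' x)] at h
  exact h

theorem OddR2_compl (V : CC) (a a' b b' d d' : Bool) :
    OddR2_f V (!a) (!a') (!b) (!b') (!d) (!d') = OddR2_f V a a' b b' d d' := by
  have h := capC_compl V (OddR2_m a a' b b' d d')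
  rw [OddR2_cap V (fun x => !OddR2_m a a' b b' d d' x)] at h
  exact h

/-- the hypotheses on a member of the level set -/
structure OddR2_H (n K : ℕ) (V : CC) : Prop where
  hO : OMin V
  c0 : cnt V 0 = n
  c1 : cnt V 1 = n
  c2 : cnt V 2 = K
  pr : ∀ i, n < capC V (PrC i)

theorem OddR2_low {n K : ℕ} {V : CC} (H : OddR2_H n K V) (a a' b b' d d' : Bool) :
    (a ≠ a' → n ≤ OddR2_f V a a' b b' d d') ∧ (b ≠ b' → n ≤ OddR2_f V a a' b b' d d') ∧
    (d ≠ d' → K ≤ OddR2_f V a a' b b' d d') := by
  have key : ∀ i, OddR2_m a a' b b' d d' (i, true) ≠ OddR2_m a a' b b' d d' (i, false) →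
      cnt V i ≤ OddR2_f V a a' b b' d d' := by
    intro i hi
    cases h1 : OddR2_m a a' b b' d d' (i, true)
    · have h2 : OddR2_m a a' b b' d d' (i, false) = true := by
        cases h3 : OddR2_m a a' b b' d d' (i, false)
        · exact absurd (h1.trans h3.symm) hi
        · rfl
      exact H.hO.le_cap (i, false) _ h2 h1
    · have h2 : OddR2_m a a' b b' d d' (i, false) = false := by
        cases h3 : OddR2_m a a' b b' d d' (i, false)
        · rfl
        · exact absurd (h1.trans h3.symm) hi
      exact H.hO.le_cap (i, true) _ h1 h2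
  refine ⟨fun h => ?_, fun h => ?_, fun h => ?_⟩
  · rw [← H.c0]; exact key 0 h
  · rw [← H.c1]; exact key 1 h
  · rw [← H.c2]; exact key 2 h

theorem OddR2_par {n K : ℕ} {V : CC} (H : OddR2_H n K V) (a a' b b' d d' : Bool) :
    OddR2_f V a a' b b' d d' % 2 = ((if a = a' then 0 else n) + (if b = b' then 0 else n) +
      (if d = d' then 0 else K)) % 2 := by
  have h := cap_parity V (OddR2_m a a' b b' d d')
  rw [Fin.sum_univ_three, H.c0, H.c1, H.c2] at h
  exact h

theorem OddR2_pairs {n K : ℕ} {V : CC} (H : OddR2_H n K V) :
    n < OddR2_f V true true false false false false ∧ n < OddR2_f V false false true true false false ∧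
    n < OddR2_f V false false false false true true ∧ n < OddR2_f V false false true true true true ∧
    n < OddR2_f V true true false false true true ∧ n < OddR2_f V true true true true false false := by
  have h0 := H.pr 0
  have h1 := H.pr 1
  have h2 := H.pr 2
  rw [OddR2_cap] at h0 h1 h2
  have e0 := OddR2_compl V true true false false false false
  have e1 := OddR2_compl V false false true true false false
  have e2 := OddR2_compl V false false false false true true
  have h0' : n < OddR2_f V true true false false false false := h0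
  have h1' : n < OddR2_f V false false true true false false := h1
  have h2' : n < OddR2_f V false false false false true true := h2
  refine ⟨h0', h1', h2', ?_, ?_, ?_⟩
  · rw [← e0] at h0'; exact h0'
  · rw [← e1] at h1'; exact h1'
  · rw [← e2] at h2'; exact h2'

/-- the cut `{x, c, c⁻¹}` -/
def OddR2_Ax (x : Fin 3 × Bool) : Fin 3 × Bool → Bool := fun y => decide (y = x) || decide (y.1 = 2)

theorem OddR2_other : ∀ i : Fin 3, i ≠ 2 → ∃ y : Fin 3, y ≠ 2 ∧ y ≠ i ∧ ∀ w : Fin 3, w ≠ 2 → w ≠ i → w = y := by
  decide

theorem OddR2_bar : ∀ x z : Fin 3 × Bool, x.1 = z.1 → x ≠ z → x = bar z := by decide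

/-- `(A)` : level moves with multiplier `a^{±1}` or `b^{±1}` -/
theorem OddR2_A {n K : ℕ} (hn : n % 2 = 1) (hK : n < K) {V : CC} (H : OddR2_H n K V)
    {z : Fin 3 × Bool} {A : Fin 3 × Bool → Bool} (h : Lv V z A) (hz : z.1 ≠ 2) :
    act (wh z A) V = V ∨ ∃ x : Fin 3 × Bool, x.1 ≠ 2 ∧ capC V (OddR2_Ax x) = n ∧
      act (wh z A) V = act (wh x (OddR2_Ax x)) V := by
  have hcap : OddR2_f V (A (0, true)) (A (0, false)) (A (1, true)) (A (1, false)) (A (2, true))
      (A (2, false)) = n := by
    rw [← OddR2_cap, h.2.2]
    rcases z with ⟨i, s⟩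
    fin_cases i
    · exact H.c0
    · exact H.c1
    · exact absurd rfl hz
  have hpar := OddR2_par H (A (0, true)) (A (0, false)) (A (1, true)) (A (1, false)) (A (2, true))
      (A (2, false))
  have hlow := (OddR2_low H (A (0, true)) (A (0, false)) (A (1, true)) (A (1, false)) (A (2, true))
      (A (2, false))).2.2
  rw [hcap] at hpar hlow
  have h2 : A (2, true) = A (2, false) := by
    by_contra hne
    have := hlow hne
    omega
  rw [if_pos h2, hn] at hpar
  have hA1 := h.1
  have hA2 := h.2.1
  -- the other generator is not separated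
  have hother : ∀ y : Fin 3, y ≠ 2 → y ≠ z.1 → A (y, true) = A (y, false) := by
    intro y hy2 hyz
    by_contra hne
    have hsepz : A (z.1, true) ≠ A (z.1, false) := by
      rcases z with ⟨i, s⟩
      cases s
      · have h3 : A (i, false) = true := hA1
        have h4 : A (i, true) = false := hA2
        simp [h3, h4]
      · have h3 : A (i, true) = true := hA1
        have h4 : A (i, false) = false := hA2
        simp [h3, h4]
    have h0 : A (0, true) ≠ A (0, false) ∧ A (1, true) ≠ A (1, false) := by
      rcases z with ⟨i, s⟩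
      fin_cases i <;> fin_cases y <;> first
        | exact absurd rfl hy2
        | exact absurd rfl hyz
        | exact absurd rfl hz
        | exact ⟨hsepz, hne⟩
        | exact ⟨hne, hsepz⟩
    rw [if_neg h0.1, if_neg h0.2] at hpar
    omega
  -- the value on the other generator
  obtain ⟨y, hy2, hyz, hy⟩ := OddR2_other z.1 hz
  have hyy := hother y hy2 hyz
  have hval : ∀ x : Fin 3 × Bool, x.1 ≠ z.1 → A x = if x.1 = 2 then A (2, true) else A (y, true) := by
    rintro ⟨i, s⟩ hx
    by_cases hi : i = 2
    · subst hi
      rw [if_pos rfl]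
      cases s
      · exact h2.symm
      · rfl
    · rw [if_neg hi]
      have := hy i hi hx
      subst this
      cases s
      · exact hyy.symm
      · rfl
  cases hβ : A (y, true) <;> cases hγ : A (2, true)
  · left
    apply Lv_triv
    intro x hx
    rw [hval x hx, hβ, hγ]
    simp
  · right
    have hAx : ∀ x, A x = OddR2_Ax z x := by
      intro x
      unfold OddR2_Ax
      by_cases hx : x.1 = z.1
      · have hx2 : x.1 ≠ 2 := by rw [hx]; exact hz
        by_cases hxz : x = z
        · subst hxz
          simp [hA1]
        · have hxb : x = bar z := OddR2_bar x z hx hxz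
          rw [hxb, hA2]
          have h3 : bar z ≠ z := bar_ne z
          have h4 : (bar z).1 ≠ 2 := hz
          simp [h3, hz]
      · rw [hval x hx, hβ, hγ]
        have hxz : x ≠ z := fun he => hx (by rw [he])
        by_cases hx2 : x.1 = 2 <;> simp [hx2, hxz]
    refine ⟨z, hz, ?_, act_wh_congr V fun x _ => hAx x⟩
    rw [← capC_congr V hAx, OddR2_cap]
    exact hcap
  · right
    have hAx : ∀ x, (!A x) = OddR2_Ax (bar z) x := by
      intro x
      unfold OddR2_Ax
      by_cases hx : x.1 = z.1
      · have hx2 : x.1 ≠ 2 := by rw [hx]; exact hz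
        by_cases hxz : x = z
        · subst hxz
          have h3 : x ≠ bar x := (bar_ne x).symm
          simp [hA1, h3, hx2]
        · have hxb : x = bar z := OddR2_bar x z hx hxz
          rw [hxb, hA2]
          simp
      · rw [hval x hx, hβ, hγ]
        have hxz : x ≠ bar z := fun he => hx (by rw [he]; rfl)
        by_cases hx2 : x.1 = 2 <;> simp [hx2, hxz]
    refine ⟨bar z, hz, ?_, ?_⟩
    · rw [← capC_congr V hAx, capC_compl, OddR2_cap]
      exact hcap
    · rw [← (Lv_compl h).2]
      exact act_wh_congr V fun x _ => hAx x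
  · left
    apply Lv_triv'
    intro x hx
    rw [hval x hx, hβ, hγ]
    simp

/-- the Booleans of `Ax x` -/
theorem OddR2_capAx (V : CC) (x : Fin 3 × Bool) : capC V (OddR2_Ax x) =
    OddR2_f V (decide ((0, true) = x)) (decide ((0, false) = x)) (decide ((1, true) = x))
      (decide ((1, false) = x)) true true := by
  rw [OddR2_cap]
  unfold OddR2_Ax
  simp

/-- `(B1)` -/
theorem OddR2_B1 {n K : ℕ} {V : CC} (H : OddR2_H n K V) {x w : Fin 3 × Bool} (hx2 : x.1 ≠ 2)
    (hw2 : w.1 ≠ 2) (hx : capC V (OddR2_Ax x) = n) (hw : capC V (OddR2_Ax w) = n) : w = x := by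
  by_contra hne
  rw [OddR2_capAx] at hx hw
  have hp := OddR2_pairs H
  rcases x with ⟨i, s⟩
  rcases w with ⟨j, t⟩
  fin_cases i <;> fin_cases j <;> cases s <;> cases t <;> first
    | exact absurd rfl hx2
    | exact absurd rfl hw2
    | exact absurd rfl hne
    | (simp at hx hw
       have h1 := OddR2_sub V _ _ _ _ _ _ _ _ _ _ _ _ |>.trans (le_of_eq (congrArg₂ (· + ·) hx hw))
       simp at h1
       have h2 := OddR2_low H true false true false true true
       have h3 := OddR2_low H true false false true true true
       have h4 := OddR2_low H false true true false true true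
       have h5 := OddR2_low H false true false true true true
       simp at h2 h3 h4 h5
       omega)

theorem OddR2_B2key {n K : ℕ} (hn : n % 2 = 1) (hK : n < K) {V : CC} (H : OddR2_H n K V)
    {x : Fin 3 × Bool} (hx2 : x.1 ≠ 2) (hx : capC V (OddR2_Ax x) = n) (p p' q q' r r' : Bool)
    (h : OddR2_f V p p' q q' r r' = K) (hr : r ≠ r') : p = p' ∧ q = q' ∧ p = q := by
  rw [OddR2_capAx] at hx
  have hp := OddR2_pairs H
  have hpar := OddR2_par H p p' q q' r r'
  rw [h, if_neg hr] at hpar
  rcases x with ⟨i, s⟩
  fin_cases i <;> cases s <;> first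
    | exact absurd rfl hx2
    | (simp at hx
       have h1 := (OddR2_sub V _ _ _ _ _ _ _ _ _ _ _ _).trans (le_of_eq (congrArg₂ (· + ·) h hx))
       have h2 := (OddR2_sub' V _ _ _ _ _ _ _ _ _ _ _ _).trans (le_of_eq (congrArg₂ (· + ·) h hx))
       cases p <;> cases p' <;> cases q <;> cases q' <;> cases r <;> cases r' <;> first
         | exact absurd rfl hr
         | exact ⟨rfl, rfl, rfl⟩
         | (exfalso
            simp at hpar
            omega)
         | (exfalso
            simp at h1 h2
            have a1 := OddR2_low H true false false false true false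
            have a2 := OddR2_low H true false false false false true
            have a3 := OddR2_low H false true false false true false
            have a4 := OddR2_low H false true false false false true
            have a5 := OddR2_low H false false true false true false
            have a6 := OddR2_low H false false true false false true
            have a7 := OddR2_low H false false false true true false
            have a8 := OddR2_low H false false false true false true
            have b1 := OddR2_low H true false true false true true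
            have b2 := OddR2_low H true false false true true true
            have b3 := OddR2_low H false true true false true true
            have b4 := OddR2_low H false true false true true true
            have c1 := OddR2_low H true false true false false false
            have c2 := OddR2_low H true false false true false false
            have c3 := OddR2_low H false true true false false false
            have c4 := OddR2_low H false true false true false false
            have d1 := OddR2_par H true false true false true true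
            have d2 := OddR2_par H true false false true true true
            have d3 := OddR2_par H false true true false true true
            have d4 := OddR2_par H false true false true true true
            have e1 := OddR2_par H true false true false false false
            have e2 := OddR2_par H true false false true false false
            have e3 := OddR2_par H false true true false false false
            have e4 := OddR2_par H false true false true false false
            simp at a1 a2 a3 a4 a5 a6 a7 a8 b1 b2 b3 b4 c1 c2 c3 c4 d1 d2 d3 d4 e1 e2 e3 e4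
            omega))

/-- a level cut with multiplier `c^{±1}` separates `c` -/
theorem OddR2_sep2 {V : CC} {z : Fin 3 × Bool} {A : Fin 3 × Bool → Bool} (h : Lv V z A)
    (hz : z.1 = 2) : A (2, true) ≠ A (2, false) := by
  have h1 := h.1
  have h2 := h.2.1
  rcases z with ⟨i, s⟩
  have hi : i = 2 := hz
  subst hi
  cases s
  · have h3 : A (2, false) = true := h1
    have h4 : A (2, true) = false := h2
    rw [h3, h4]; decide
  · have h3 : A (2, true) = true := h1
    have h4 : A (2, false) = false := h2
    rw [h3, h4]; decide

theorem OddR2_capK {n K : ℕ} {V : CC} (H : OddR2_H n K V) {z : Fin 3 × Bool}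
    {A : Fin 3 × Bool → Bool} (h : Lv V z A) (hz : z.1 = 2) :
    OddR2_f V (A (0, true)) (A (0, false)) (A (1, true)) (A (1, false)) (A (2, true))
      (A (2, false)) = K := by
  rw [← OddR2_cap, h.2.2, hz, H.c2]

/-- a move whose cut has the same value on all letters `a^{±1}, b^{±1}` is trivial -/
theorem OddR2_triv {V : CC} {z : Fin 3 × Bool} {A : Fin 3 × Bool → Bool} (hz : z.1 = 2)
    (h0 : A (0, true) = A (0, false)) (h1 : A (1, true) = A (1, false))
    (h2 : A (0, true) = A (1, true)) : act (wh z A) V = V := by
  have hv : ∀ x : Fin 3 × Bool, x.1 ≠ 2 → A x = A (0, true) := by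
    rintro ⟨i, s⟩ hx
    fin_cases i <;> cases s <;> first
      | exact absurd rfl hx
      | rfl
      | exact h0.symm
      | exact h2.symm
      | exact (h2.trans h1).symm
  cases hA : A (0, true)
  · apply Lv_triv
    intro x hx
    rw [hz] at hx
    rw [hv x hx, hA]
  · apply Lv_triv'
    intro x hx
    rw [hz] at hx
    rw [hv x hx, hA]

/-- `(B2)` -/
theorem OddR2_B2 {n K : ℕ} (hn : n % 2 = 1) (hK : n < K) {V : CC} (H : OddR2_H n K V)
    {x : Fin 3 × Bool} (hx2 : x.1 ≠ 2) (hx : capC V (OddR2_Ax x) = n) {z : Fin 3 × Bool}
    {A : Fin 3 × Bool → Bool} (h : Lv V z A) (hz : z.1 = 2) : act (wh z A) V = V := by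
  obtain ⟨h0, h1, h2⟩ := OddR2_B2key hn hK H hx2 hx _ _ _ _ _ _ (OddR2_capK H h hz)
    (OddR2_sep2 h hz)
  exact OddR2_triv hz h0 h1 h2

/-- `(B)` : all level moves from a class with the cut `Ax x` -/
theorem OddR2_B {n K : ℕ} (hn : n % 2 = 1) (hK : n < K) {V : CC} (H : OddR2_H n K V)
    {x : Fin 3 × Bool} (hx2 : x.1 ≠ 2) (hx : capC V (OddR2_Ax x) = n) {z : Fin 3 × Bool}
    {A : Fin 3 × Bool → Bool} (h : Lv V z A) :
    act (wh z A) V = V ∨ act (wh z A) V = act (wh x (OddR2_Ax x)) V := by
  by_cases hz : z.1 = 2
  · exact Or.inl (OddR2_B2 hn hK H hx2 hx h hz)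
  · rcases OddR2_A hn hK H h hz with h1 | ⟨w, hw2, hw, h1⟩
    · exact Or.inl h1
    · right
      rw [h1, OddR2_B1 H hx2 hw2 hx hw]

/-- exactly two of the four Booleans hold, or by parity none or all of them are separated -/
def OddR2_bal (p p' q q' : Bool) : Prop :=
  (p = p' ∧ q = q' ∧ p ≠ q) ∨ (p ≠ p' ∧ q ≠ q')

instance (p p' q q' : Bool) : Decidable (OddR2_bal p p' q q') := by
  unfold OddR2_bal; infer_instance

theorem OddR2_C1 {n K : ℕ} (hn : n % 2 = 1) {V : CC} (H : OddR2_H n K V) {z : Fin 3 × Bool}
    {A : Fin 3 × Bool → Bool} (h : Lv V z A) (hz : z.1 = 2) :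
    act (wh z A) V = V ∨ OddR2_bal (A (0, true)) (A (0, false)) (A (1, true)) (A (1, false)) := by
  have hpar := OddR2_par H (A (0, true)) (A (0, false)) (A (1, true)) (A (1, false)) (A (2, true))
      (A (2, false))
  rw [OddR2_capK H h hz, if_neg (OddR2_sep2 h hz)] at hpar
  by_cases h0 : A (0, true) = A (0, false) <;> by_cases h1 : A (1, true) = A (1, false)
  · by_cases h2 : A (0, true) = A (1, true)
    · exact Or.inl (OddR2_triv hz h0 h1 h2)
    · exact Or.inr (Or.inl ⟨h0, h1, h2⟩)
  · rw [if_pos h0, if_neg h1] at hpar
    omega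
  · rw [if_neg h0, if_pos h1] at hpar
    omega
  · exact Or.inr (Or.inr ⟨h0, h1⟩)

theorem OddR2_comb : ∀ p p' q q' r r' u u' : Bool, OddR2_bal p p' q q' → OddR2_bal r r' u u' →
    (r = p ∧ r' = p' ∧ u = q ∧ u' = q') ∨ (r = !p ∧ r' = !p' ∧ u = !q ∧ u' = !q') ∨
    (((p && r) = (p' && r') ↔ ¬ ((q && u) = (q' && u'))) ∧
     ((p || r) = (p' || r') ↔ ¬ ((q || u) = (q' || u')))) := by
  decide

/-- `(C2)` : two nontrivial level cuts with multiplier `c` are equal or complementary -/
theorem OddR2_C2 {n K : ℕ} (hn : n % 2 = 1) {V : CC} (H : OddR2_H n K V)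
    {A B : Fin 3 × Bool → Bool} (hA : Lv V (2, true) A) (hB : Lv V (2, true) B)
    (hA' : OddR2_bal (A (0, true)) (A (0, false)) (A (1, true)) (A (1, false)))
    (hB' : OddR2_bal (B (0, true)) (B (0, false)) (B (1, true)) (B (1, false))) :
    (∀ x : Fin 3 × Bool, x.1 ≠ 2 → B x = A x) ∨ (∀ x : Fin 3 × Bool, x.1 ≠ 2 → B x = !A x) := by
  rcases OddR2_comb _ _ _ _ _ _ _ _ hA' hB' with ⟨h1, h2, h3, h4⟩ | ⟨h1, h2, h3, h4⟩ | ⟨h1, h2⟩
  · left
    rintro ⟨i, s⟩ hx
    fin_cases i <;> cases s <;> first
      | exact absurd rfl hx
      | assumption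
  · right
    rintro ⟨i, s⟩ hx
    fin_cases i <;> cases s <;> first
      | exact absurd rfl hx
      | assumption
  · exfalso
    have cA := OddR2_capK H hA rfl
    have cB := OddR2_capK H hB rfl
    have hs := OddR2_sub V (A (0, true)) (A (0, false)) (A (1, true)) (A (1, false)) (A (2, true))
      (A (2, false)) (B (0, true)) (B (0, false)) (B (1, true)) (B (1, false)) (B (2, true))
      (B (2, false))
    rw [cA, cB] at hs
    have a1 : A (2, true) = true := hA.1
    have a2 : A (2, false) = false := hA.2.1
    have b1 : B (2, true) = true := hB.1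
    have b2 : B (2, false) = false := hB.2.1
    rw [a1, a2, b1, b2] at hs
    have l1 := (OddR2_low H (A (0, true) && B (0, true)) (A (0, false) && B (0, false))
      (A (1, true) && B (1, true)) (A (1, false) && B (1, false)) (true && true)
      (false && false)).2.2 (by decide)
    have l2 := (OddR2_low H (A (0, true) || B (0, true)) (A (0, false) || B (0, false))
      (A (1, true) || B (1, true)) (A (1, false) || B (1, false)) (true || true)
      (false || false)).2.2 (by decide)
    have p1 := OddR2_par H (A (0, true) && B (0, true)) (A (0, false) && B (0, false))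
      (A (1, true) && B (1, true)) (A (1, false) && B (1, false)) (true && true)
      (false && false)
    have p2 := OddR2_par H (A (0, true) || B (0, true)) (A (0, false) || B (0, false))
      (A (1, true) || B (1, true)) (A (1, false) || B (1, false)) (true || true)
      (false || false)
    rw [if_neg (by decide : ¬ ((true && true) = (false && false)))] at p1
    rw [if_neg (by decide : ¬ ((true || true) = (false || false)))] at p2
    have q1 : OddR2_f V (A (0, true) && B (0, true)) (A (0, false) && B (0, false))
      (A (1, true) && B (1, true)) (A (1, false) && B (1, false)) (true && true)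
      (false && false) % 2 = (n + K) % 2 := by
      rw [p1]
      by_cases h3 : (A (0, true) && B (0, true)) = (A (0, false) && B (0, false))
      · rw [if_pos h3, if_neg (h1.1 h3)]
        omega
      · have h4 : (A (1, true) && B (1, true)) = (A (1, false) && B (1, false)) := by
          by_contra h5
          exact h3 (h1.2 h5)
        rw [if_neg h3, if_pos h4, Nat.add_zero]
    have q2 : OddR2_f V (A (0, true) || B (0, true)) (A (0, false) || B (0, false))
      (A (1, true) || B (1, true)) (A (1, false) || B (1, false)) (true || true)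
      (false || false) % 2 = (n + K) % 2 := by
      rw [p2]
      by_cases h3 : (A (0, true) || B (0, true)) = (A (0, false) || B (0, false))
      · rw [if_pos h3, if_neg (h2.1 h3)]
        omega
      · have h4 : (A (1, true) || B (1, true)) = (A (1, false) || B (1, false)) := by
          by_contra h5
          exact h3 (h2.2 h5)
        rw [if_neg h3, if_pos h4, Nat.add_zero]
    omega

/-- the line of potentials -/
def OddR2_V (c : CC) (B : Fin 3 × Bool → Bool) (t : ℤ) : CC :=
  act (pot 2 (fun x => t * ind B x)) c

theorem OddR2_V_zero (c : CC) (B : Fin 3 × Bool → Bool) : OddR2_V c B 0 = c := by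
  unfold OddR2_V
  have h : (fun x : Fin 3 × Bool => (0 : ℤ) * ind B x) = 0 := by
    funext x; simp
  rw [h, pot_zero]

theorem OddR2_V_add (c : CC) (B : Fin 3 × Bool → Bool) (s t : ℤ) :
    act (pot 2 (fun x => s * ind B x)) (OddR2_V c B t) = OddR2_V c B (s + t) := by
  unfold OddR2_V
  rw [pot_add]
  have h : (fun x : Fin 3 × Bool => s * ind B x) + (fun x => t * ind B x) =
      fun x => (s + t) * ind B x := by
    funext x
    simp only [Pi.add_apply]
    ring
  rw [h]

/-- the partner of a cut with multiplier `c` -/
def OddR2_opp (B : Fin 3 × Bool → Bool) : Fin 3 × Bool → Bool :=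
  fun x => if x.1 = 2 then x.2 else !B x

theorem OddR2_ind_opp (B : Fin 3 × Bool → Bool) {x : Fin 3 × Bool} (hx : x.1 ≠ 2) :
    ind (OddR2_opp B) x = 1 - ind B x := by
  unfold ind OddR2_opp
  rw [if_neg hx]
  cases B x <;> simp

/-- `(D)` : every member of the line in the level set has a level cut of the type of `B` -/
theorem OddR2_D {c : CC} {B : Fin 3 × Bool → Bool} (hB : Lv c (2, true) B) {t : ℤ}
    (hOV : OMin (OddR2_V c B t)) (hc : cnt (OddR2_V c B t) 2 = cnt c 2) :
    Lv (OddR2_V c B t) (2, true) B ∨ Lv (OddR2_V c B t) (2, true) (OddR2_opp B) := by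
  have hi : ∀ x, ind B x = 0 ∨ ind B x = 1 := by
    intro x
    unfold ind
    cases B x
    · left; rfl
    · right; rfl
  rcases lt_trichotomy t 0 with ht | ht | ht
  · left
    have h1 : act (pot 2 (fun x => (-t) * ind B x)) (OddR2_V c B t) = c := by
      rw [OddR2_V_add, neg_add_cancel, OddR2_V_zero]
    have h2 := (pot_split hOV (j := 2) (q := fun x => (-t) * ind B x) (by rw [h1, hc]) 1).2
    have h3 : (fun x : Fin 3 × Bool => min ((-t) * ind B x) 1) = ind B := by
      funext x
      rcases hi x with h | h
      · rw [h, mul_zero]; rfl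
      · rw [h, mul_one]
        exact min_eq_right (by omega)
    rw [h3] at h2
    exact pot_Lv hB.1 hB.2.1 h2
  · left
    subst ht
    rw [OddR2_V_zero]
    exact hB
  · right
    have h1 : act (pot 2 (fun x => t * ind (OddR2_opp B) x)) (OddR2_V c B t) = c := by
      have h2 : act (pot 2 (fun x => t * ind (OddR2_opp B) x)) (OddR2_V c B t) =
          act (pot 2 (fun x => (-t) * ind B x)) (OddR2_V c B t) := by
        apply pot_const t
        intro x hx
        rw [OddR2_ind_opp B hx]
        ring
      rw [h2, OddR2_V_add, neg_add_cancel, OddR2_V_zero]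
    have h2 := (pot_split hOV (j := 2) (q := fun x => t * ind (OddR2_opp B) x)
      (by rw [h1, hc]) 1).2
    have h3 : (fun x : Fin 3 × Bool => min (t * ind (OddR2_opp B) x) 1) = ind (OddR2_opp B) := by
      funext x
      have hj : ind (OddR2_opp B) x = 0 ∨ ind (OddR2_opp B) x = 1 := by
        unfold ind
        cases OddR2_opp B x
        · left; rfl
        · right; rfl
      rcases hj with h | h
      · rw [h, mul_zero]; rfl
      · rw [h, mul_one]
        exact min_eq_right (by omega)
    rw [h3] at h2
    exact pot_Lv rfl rfl h2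

theorem OddR2_step {c : CC} {B A : Fin 3 × Bool → Bool} {t : ℤ} {V : CC}
    (hV : V = OddR2_V c B t)
    (h : (∀ x : Fin 3 × Bool, x.1 ≠ 2 → A x = B x) ∨ (∀ x : Fin 3 × Bool, x.1 ≠ 2 → A x = !B x)) :
    ∃ s : ℤ, act (wh (2, true) A) V = OddR2_V c B s := by
  rw [wh_pot]
  rcases h with h | h
  · refine ⟨1 + t, ?_⟩
    rw [hV, ← OddR2_V_add]
    apply pot_congr
    intro x hx
    unfold ind
    rw [h x hx]
    simp
  · refine ⟨-1 + t, ?_⟩
    rw [hV, ← OddR2_V_add]
    apply pot_const 1
    intro x hx
    unfold ind
    rw [h x hx]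
    cases B x <;> simp

theorem odd_r2 {c : CC} (hO : OMin c) (h0 : cnt c 0 % 2 = 1) (h01 : cnt c 0 = cnt c 1)
    (h12 : cnt c 1 < cnt c 2) (hI : ∀ W ∈ orb c, ∀ i, cnt c 0 < capC W (PrC i)) :
    Bdd c (4 * cnt c 2 + 1) := by
  classical
  obtain ⟨π, hπ, _, _⟩ := exists_SPerm_one
  set n := cnt c 0 with hn
  set K := cnt c 2 with hK
  have hnK : n < K := by rw [h01]; exact h12
  have HH : ∀ V, Sm c V → OddR2_H n K V := by
    intro V hV
    exact ⟨Sm_OMin hO hV, hV.2 0, by rw [hV.2 1, ← h01], hV.2 2, fun i => hI V hV.1 i⟩
  by_cases hP : ∃ V, Sm c V ∧ ∃ x : Fin 3 × Bool, x.1 ≠ 2 ∧ capC V (OddR2_Ax x) = n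
  · -- case (B)
    obtain ⟨V, hSm, x, hx2, hx⟩ := hP
    have HV := HH V hSm
    have hzz : (x : Fin 3 × Bool).1 ≠ 2 := hx2
    have hcntx : cnt V x.1 = n := by
      rcases x with ⟨i, s⟩
      fin_cases i
      · exact HV.c0
      · exact HV.c1
      · exact absurd rfl hx2
    have hLv : Lv V x (OddR2_Ax x) := by
      refine ⟨by simp [OddR2_Ax], ?_, by rw [hx, hcntx]⟩
      have h3 : bar x ≠ x := bar_ne x
      simp [OddR2_Ax, h3, hx2]
    have hSm' : Sm c (act (wh x (OddR2_Ax x)) V) := Sm_trans hSm (Lv_Sm hLv)
    have HV' := HH _ hSm'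
    have hinv := Lv_inv hLv
    have hcut : ∀ y, ((OddR2_Ax x y && decide (y ≠ x)) || decide (y = bar x)) =
        OddR2_Ax (bar x) y := by
      intro y
      unfold OddR2_Ax
      have h3 : x ≠ bar x := (bar_ne x).symm
      by_cases hy : y = x
      · subst hy
        simp [h3, hx2]
      · by_cases hy2 : y.1 = 2 <;> by_cases hyb : y = bar x <;> simp [hy, hy2, hyb]
    have hx' : capC (act (wh x (OddR2_Ax x)) V) (OddR2_Ax (bar x)) = n := by
      rw [← capC_congr _ hcut, hinv.1.2.2]
      show cnt _ x.1 = n
      rw [hSm'.2, ← hcntx, hSm.2]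
    have hback : act (wh (bar x) (OddR2_Ax (bar x))) (act (wh x (OddR2_Ax x)) V) = V := by
      rw [← act_wh_congr _ (fun y _ => hcut y)]
      exact hinv.2
    have hB : Bdd V 2 := by
      have h1 := Bdd_of_closed (Sm_OMin hO hSm) {e | e = V ∨ e = act (wh x (OddR2_Ax x)) V}
        ({V, act (wh x (OddR2_Ax x)) V} : Finset CC)
        (by
          intro e he _
          rcases he with he | he
          · rw [he]; simp
          · rw [he]; simp)
        ⟨π, V, Or.inl rfl, (hπ V).symm⟩
        (by
          intro e he _ z A hz hz' hl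
          have hLe : Lv e z A := ⟨hz, hz', hl⟩
          rcases he with he | he
          · subst he
            rcases OddR2_B h0 hnK HV hx2 hx hLe with h2 | h2
            · exact ⟨π, e, Or.inl rfl, by rw [h2, hπ]⟩
            · exact ⟨π, _, Or.inr rfl, by rw [h2, hπ]⟩
          · subst he
            rcases OddR2_B h0 hnK HV' (x := bar x) hx2 hx' hLe with h2 | h2
            · exact ⟨π, _, Or.inr rfl, by rw [h2, hπ]⟩
            · rw [hback] at h2
              exact ⟨π, V, Or.inl rfl, by rw [h2, hπ]⟩)
      exact Bdd_mono h1 (by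
        refine le_trans (Finset.card_insert_le _ _) ?_
        simp)
    exact Bdd_mono (Bdd_orb hSm.1 hB) (by omega)
  · -- case (C)
    push Not at hP
    have hA : ∀ V, Sm c V → ∀ z A, Lv V z A → z.1 ≠ 2 → act (wh z A) V = V := by
      intro V hV z A hL hz
      rcases OddR2_A h0 hnK (HH V hV) hL hz with h | ⟨x, hx2, hx, _⟩
      · exact h
      · exact absurd hx (hP V hV x hx2)
    by_cases hT : ∃ B, Lv c (2, true) B ∧ act (wh (2, true) B) c ≠ c
    · obtain ⟨B, hB, hBne⟩ := hT
      have hBbal := (OddR2_C1 h0 (HH c (Sm_refl c)) hB rfl).resolve_left hBne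
      have hline : act (pot 2 (ind B)) c ≠ c := by rwa [← wh_pot]
      let E' : Finset CC := (Finset.Icc (-(2 * (K : ℤ))) (2 * K)).image (OddR2_V c B)
      have hcard : E'.card ≤ 4 * K + 1 := by
        refine le_trans Finset.card_image_le ?_
        rw [Int.card_Icc]
        omega
      refine Bdd_mono (Bdd_of_closed hO {e | ∃ t : ℤ, e = OddR2_V c B t ∧ Sm c e} E' ?_ ?_ ?_) hcard
      · rintro e ⟨t, he, hSm⟩ _
        have h1 : cnt (act (pot 2 (fun x => t * ind B x)) c) 2 ≤ cnt c 2 := by
          have h2 := hSm.2 2
          rw [he] at h2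
          exact le_of_eq h2
        have h3 := line_range hline h1
        refine Finset.mem_image.2 ⟨t, Finset.mem_Icc.2 ⟨by omega, by omega⟩, he.symm⟩
      · exact ⟨π, c, ⟨0, (OddR2_V_zero c B).symm, Sm_refl c⟩, (hπ c).symm⟩
      · rintro e ⟨t, he, hSm⟩ _ z A hz hz' hl
        have hLe : Lv e z A := ⟨hz, hz', hl⟩
        have He := HH e hSm
        by_cases hz2 : z.1 = 2
        · -- reduce to the letter `c`
          have key : ∀ A' : Fin 3 × Bool → Bool, Lv e (2, true) A' →
              ∃ s : ℤ, act (wh (2, true) A') e = OddR2_V c B s := by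
            intro A' hA'
            rcases OddR2_C1 h0 He hA' rfl with h | hbal
            · exact ⟨t, by rw [h, he]⟩
            · rcases OddR2_D hB (t := t) (by rw [← he]; exact Sm_OMin hO hSm)
                (by rw [← he]; exact hSm.2 2) with hD | hD
              · rw [← he] at hD
                exact OddR2_step he (OddR2_C2 h0 He hD hA' hBbal hbal)
              · rw [← he] at hD
                have hobal : OddR2_bal (OddR2_opp B (0, true)) (OddR2_opp B (0, false))
                    (OddR2_opp B (1, true)) (OddR2_opp B (1, false)) := by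
                  have gen : ∀ p p' q q' : Bool, OddR2_bal p p' q q' →
                      OddR2_bal (!p) (!p') (!q) (!q') := by decide
                  exact gen _ _ _ _ hBbal
                have ho : ∀ x : Fin 3 × Bool, x.1 ≠ 2 → OddR2_opp B x = !B x := by
                  intro x hx
                  unfold OddR2_opp
                  rw [if_neg hx]
                rcases OddR2_C2 h0 He hD hA' hobal hbal with h | h
                · exact OddR2_step he (Or.inr fun x hx => by rw [h x hx, ho x hx])
                · exact OddR2_step he (Or.inl fun x hx => by rw [h x hx, ho x hx, Bool.not_not])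
          have key2 : ∃ s : ℤ, act (wh z A) e = OddR2_V c B s := by
            rcases z with ⟨i, b⟩
            have hi : i = 2 := hz2
            subst hi
            cases b
            · obtain ⟨h1, h2⟩ := Lv_compl hLe
              rw [← h2]
              exact key _ h1
            · exact key _ hLe
          obtain ⟨s, hs⟩ := key2
          exact ⟨π, act (wh z A) e, ⟨s, hs, Sm_trans hSm (Lv_Sm hLe)⟩, (hπ _).symm⟩
        · refine ⟨π, e, ⟨t, he, hSm⟩, ?_⟩
          rw [hA e hSm z A hLe hz2, hπ]
    · push Not at hT
      have hall : ∀ z A, Lv c z A → act (wh z A) c = c := by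
        intro z A hL
        by_cases hz2 : z.1 = 2
        · rcases z with ⟨i, b⟩
          have hi : i = 2 := hz2
          subst hi
          cases b
          · obtain ⟨h1, h2⟩ := Lv_compl hL
            rw [← h2]
            exact hT _ h1
          · exact hT _ hL
        · exact hA c (Sm_refl c) z A hL hz2
      have h1 := Bdd_of_closed hO {c} ({c} : Finset CC)
        (by
          intro e he _
          rw [Set.mem_singleton_iff.1 he]
          simp)
        ⟨π, c, rfl, (hπ c).symm⟩
        (by
          intro e he _ z A hz hz' hl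
          have hec : e = c := he
          subst hec
          exact ⟨π, e, rfl, by rw [hall z A ⟨hz, hz', hl⟩, hπ]⟩)
      exact Bdd_mono h1 (by simp)

end Pool.Agent.Sims
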