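import Pool.Agent.Sims.TwBasic
import Pool.Agent.Sims.Par

/-!
# Module `OddR3` : three equal odd counts `n`, all pair cuts `> n`

`V ∈ orb c`; then all counts of `V` are `n` (`cnt_orb`).  A cut of capacity `n` separates one or three generators (`cap_parity`), so it has `1, 3` or `5` letters; with `1` or `5` letters the
level moves are trivial.  Two different, not complementary cuts `A, B` of capacity `n` with three letters: replacing `B` by its complement we may assume `|A∩B| = 2`, `|A∪B| = 4`;
both have even capacity (they separate an even number of generators); each is a pair cut (or the complement of one), `> n`, or it separates some generator, `≥ n`, so `≥ n + 1`.  Contradiction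
to `capC_submod`.  (Direct enumeration: `A` and `B` are Boolean functions on `6` letters; a `decide`/`Finset` argument is possible.)
So `c` has at most one nontrivial cut `A` of capacity `n` up to complement.  If it has none: `E = {c}`.  Otherwise `E = {c} ∪ {V_z}`, `V_z = act (wh z A) c`, `z ∈ A`, `z⁻¹ ∉ A` (at most three
letters `z`; for `z ∈ Aᶜ` use `Lv_compl`).  The only nontrivial cut of `V_z` is `A_z = (A∖z) ∪ {z⁻¹}` (`Lv_inv`); the move with `z⁻¹` leads back to `c`, the moves with the other letters `y ∈ A`, `y⁻¹ ∉ A`:
`act_wh_swap`: `act (wh y A) c = act σ (act (wh y A_z) V_z)`, so `act (wh y A_z) V_z = act σ⁻¹ V_y`.  `Bdd_of_closed`.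
Difficulty 3.
-/

namespace Pool.Agent.Sims

open FreeGroup (of)

/-- number of letters of a cut -/
def OddR3_sz (A : Fin 3 × Bool → Bool) : ℕ := ∑ x, if A x then 1 else 0

theorem OddR3_sz_eq (A : Fin 3 × Bool → Bool) :
    OddR3_sz A = ∑ i : Fin 3, ((if A (i, true) then 1 else 0) + (if A (i, false) then 1 else 0)) := by
  unfold OddR3_sz
  rw [Fintype.sum_prod_type]
  apply Finset.sum_congr rfl
  intro i _
  rw [Fintype.sum_bool]

theorem OddR3_sz_zero {A : Fin 3 × Bool → Bool} (h : OddR3_sz A = 0) (x : Fin 3 × Bool) :
    A x = false := by
  unfold OddR3_sz at h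
  rw [Finset.sum_eq_zero_iff] at h
  have h1 := h x (Finset.mem_univ x)
  by_contra h2
  have h3 : A x = true := by simpa using h2
  simp [h3] at h1

theorem OddR3_split1 (A B : Fin 3 × Bool → Bool) :
    OddR3_sz (fun x => A x && B x) + OddR3_sz (fun x => A x && !B x) = OddR3_sz A := by
  unfold OddR3_sz
  rw [← Finset.sum_add_distrib]
  apply Finset.sum_congr rfl
  intro x _
  beta_reduce
  cases A x <;> cases B x <;> rfl

theorem OddR3_split2 (A B : Fin 3 × Bool → Bool) :
    OddR3_sz (fun x => A x && B x) + OddR3_sz (fun x => !A x && B x) = OddR3_sz B := by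
  unfold OddR3_sz
  rw [← Finset.sum_add_distrib]
  apply Finset.sum_congr rfl
  intro x _
  beta_reduce
  cases A x <;> cases B x <;> rfl

theorem OddR3_split3 (A B : Fin 3 × Bool → Bool) :
    OddR3_sz (fun x => A x && B x) + OddR3_sz (fun x => A x || B x) =
      OddR3_sz A + OddR3_sz B := by
  unfold OddR3_sz
  rw [← Finset.sum_add_distrib, ← Finset.sum_add_distrib]
  apply Finset.sum_congr rfl
  intro x _
  beta_reduce
  cases A x <;> cases B x <;> rfl

theorem OddR3_compl (A : Fin 3 × Bool → Bool) :
    OddR3_sz A + OddR3_sz (fun x => !A x) = 6 := by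
  unfold OddR3_sz
  rw [← Finset.sum_add_distrib]
  have h : ∀ x : Fin 3 × Bool, ((if A x then 1 else 0) + (if (!A x) = true then 1 else 0) : ℕ) = 1 := by
    intro x
    cases A x <;> rfl
  rw [Finset.sum_congr rfl (fun x _ => h x)]
  simp

theorem OddR3_fst {x y : Fin 3 × Bool} (h : x.1 = y.1) : x = y ∨ x = bar y := by
  rcases x with ⟨i, b⟩
  rcases y with ⟨j, b'⟩
  simp only at h
  subst h
  cases b <;> cases b' <;> simp [bar]

/-- the situation for a class `W` -/
def OddR3_P (n : ℕ) (W : CC) : Prop :=
  OMin W ∧ (∀ i, cnt W i = n) ∧ ∀ i, n < capC W (PrC i)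

theorem OddR3_parity {n : ℕ} (hn : n % 2 = 1) {W : CC} (hW : OddR3_P n W)
    (A : Fin 3 × Bool → Bool) : capC W A % 2 = OddR3_sz A % 2 := by
  have h1 := cap_parity W A
  rw [OddR3_sz_eq, h1]
  rw [Fin.sum_univ_three, Fin.sum_univ_three]
  have key : ∀ (i : Fin 3), (if A (i, true) = A (i, false) then 0 else cnt W i) % 2 =
      ((if A (i, true) = true then 1 else 0) + (if A (i, false) = true then 1 else 0)) % 2 := by
    intro i
    rw [hW.2.1 i]
    cases A (i, true) <;> cases A (i, false) <;> simp [hn]
  have k0 := key 0
  have k1 := key 1
  have k2 := key 2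
  omega

theorem OddR3_even {n : ℕ} (hn : n % 2 = 1) {W : CC} (hW : OddR3_P n W)
    {A : Fin 3 × Bool → Bool} (hA : OddR3_sz A = 2 ∨ OddR3_sz A = 4) : n < capC W A := by
  by_cases hs : ∃ i, A (i, true) ≠ A (i, false)
  · obtain ⟨i, hi⟩ := hs
    have h1 : n ≤ capC W A := by
      cases h2 : A (i, true)
      · have h3 : A (i, false) = true := by
          rw [h2] at hi
          simpa using hi
        have := hW.1.le_cap (i, false) A h3 h2
        rwa [hW.2.1] at this
      · have h3 : A (i, false) = false := by
          rw [h2] at hi
          simpa using hi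
        have := hW.1.le_cap (i, true) A h2 h3
        rwa [hW.2.1] at this
    have h2 := OddR3_parity hn hW A
    rcases Nat.lt_or_ge n (capC W A) with h | h
    · exact h
    · exfalso
      have : capC W A = n := le_antisymm h h1
      omega
  · push Not at hs
    rw [OddR3_sz_eq, Fin.sum_univ_three] at hA
    have s0 := hs 0
    have s1 := hs 1
    have s2 := hs 2
    have fin : ∀ (D : Fin 3 × Bool → Bool) (i : Fin 3), (∀ x, D x = PrC i x) → n < capC W D := by
      intro D i h
      rw [capC_congr W h]
      exact hW.2.2 i
    have fin' : ∀ (i : Fin 3), (∀ x, (!A x) = PrC i x) → n < capC W A := by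
      intro i h
      rw [← capC_compl]
      exact fin _ i h
    rw [← s0, ← s1, ← s2] at hA
    cases h0 : A (0, true) <;> cases h1 : A (1, true) <;> cases h2 : A (2, true)
    · simp [h0, h1, h2] at hA
    · apply fin A 2
      rintro ⟨j, b⟩
      rw [h0] at s0; rw [h1] at s1; rw [h2] at s2
      fin_cases j <;> cases b <;> simp [PrC, h0, h1, h2, ← s0, ← s1, ← s2]
    · apply fin A 1
      rintro ⟨j, b⟩
      rw [h0] at s0; rw [h1] at s1; rw [h2] at s2
      fin_cases j <;> cases b <;> simp [PrC, h0, h1, h2, ← s0, ← s1, ← s2]
    · apply fin' 0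
      rintro ⟨j, b⟩
      rw [h0] at s0; rw [h1] at s1; rw [h2] at s2
      fin_cases j <;> cases b <;> simp [PrC, h0, h1, h2, ← s0, ← s1, ← s2]
    · apply fin A 0
      rintro ⟨j, b⟩
      rw [h0] at s0; rw [h1] at s1; rw [h2] at s2
      fin_cases j <;> cases b <;> simp [PrC, h0, h1, h2, ← s0, ← s1, ← s2]
    · apply fin' 1
      rintro ⟨j, b⟩
      rw [h0] at s0; rw [h1] at s1; rw [h2] at s2
      fin_cases j <;> cases b <;> simp [PrC, h0, h1, h2, ← s0, ← s1, ← s2]
    · apply fin' 2
      rintro ⟨j, b⟩
      rw [h0] at s0; rw [h1] at s1; rw [h2] at s2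
      fin_cases j <;> cases b <;> simp [PrC, h0, h1, h2, ← s0, ← s1, ← s2]
    · simp [h0, h1, h2] at hA

/-- two cuts of capacity `n` with three letters are equal or complementary -/
theorem OddR3_uniq {n : ℕ} (hn : n % 2 = 1) {W : CC} (hW : OddR3_P n W)
    {A B : Fin 3 × Bool → Bool} (hA : OddR3_sz A = 3) (hB : OddR3_sz B = 3)
    (hcA : capC W A = n) (hcB : capC W B = n) :
    (∀ x, B x = A x) ∨ (∀ x, B x = !A x) := by
  have e1 := OddR3_split1 A B
  have e2 := OddR3_split2 A B
  have e3 := OddR3_split3 A B
  have s1 := capC_submod W A B
  have s2 := capC_submod' W A B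
  have hk : OddR3_sz (fun x => A x && B x) ≤ 3 := by omega
  have c0 : OddR3_sz (fun x => A x && B x) = 0 ∨ OddR3_sz (fun x => A x && B x) = 1 ∨
    OddR3_sz (fun x => A x && B x) = 2 ∨ OddR3_sz (fun x => A x && B x) = 3 := by omega
  rcases c0 with h | h | h | h
  · right
    have h1 := OddR3_compl (fun x => A x || B x)
    have h2 : OddR3_sz (fun x => !(A x || B x)) = 0 := by omega
    intro x
    have h3 := OddR3_sz_zero h x
    have h4 := OddR3_sz_zero h2 x
    revert h3 h4
    cases A x <;> cases B x <;> simp
  · exfalso
    have h1 := OddR3_even hn hW (A := fun x => A x && !B x) (Or.inl (by omega))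
    have h2 := OddR3_even hn hW (A := fun x => !A x && B x) (Or.inl (by omega))
    omega
  · exfalso
    have h1 := OddR3_even hn hW (A := fun x => A x && B x) (Or.inl (by omega))
    have h2 := OddR3_even hn hW (A := fun x => A x || B x) (Or.inr (by omega))
    omega
  · left
    have h1 : OddR3_sz (fun x => A x && !B x) = 0 := by omega
    have h2 : OddR3_sz (fun x => !A x && B x) = 0 := by omega
    intro x
    have h3 := OddR3_sz_zero h1 x
    have h4 := OddR3_sz_zero h2 x
    revert h3 h4
    cases A x <;> cases B x <;> simp

/-- a level move is trivial or its cut has three letters -/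
theorem OddR3_triv {n : ℕ} (hn : n % 2 = 1) {W : CC} (hW : OddR3_P n W) {z : Fin 3 × Bool}
    {A : Fin 3 × Bool → Bool} (hz : A z = true) (hz' : A (bar z) = false)
    (hc : capC W A = cnt W z.1) :
    act (wh z A) W = W ∨ (OddR3_sz A = 3 ∧ capC W A = n) := by
  rw [hW.2.1] at hc
  have h1 := OddR3_parity hn hW A
  rw [hc, hn] at h1
  have h2 := OddR3_compl A
  by_cases h3 : OddR3_sz A = 3
  · exact Or.inr ⟨h3, hc⟩
  left
  have hzz : (1 : ℕ) = OddR3_sz (fun x => decide (x = z)) := by
    unfold OddR3_sz
    simp
  have hzb : (1 : ℕ) = OddR3_sz (fun x => decide (x = bar z)) := by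
    unfold OddR3_sz
    simp
  have h4 : OddR3_sz A = 1 ∨ OddR3_sz A = 5 := by omega
  rcases h4 with h4 | h4
  · apply Lv_triv
    intro x hx
    have e1 := OddR3_split1 A (fun x => decide (x = z))
    have e2 : OddR3_sz (fun x => A x && decide (x = z)) = OddR3_sz (fun x => decide (x = z)) := by
      congr 1
      funext x
      by_cases h : x = z
      · rw [h, hz]; simp
      · simp [h]
    have e3 : OddR3_sz (fun x => A x && !decide (x = z)) = 0 := by omega
    have e4 := OddR3_sz_zero e3 x
    have hxz : x ≠ z := fun h => hx (by rw [h])
    simpa [hxz] using e4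
  · apply Lv_triv'
    intro x hx
    have e1 := OddR3_split2 A (fun x => decide (x = bar z))
    have e2 := OddR3_split1 (fun x => !A x) (fun x => decide (x = bar z))
    have e3 : OddR3_sz (fun x => !A x && decide (x = bar z)) =
        OddR3_sz (fun x => decide (x = bar z)) := by
      congr 1
      funext x
      by_cases h : x = bar z
      · rw [h, hz']; simp
      · simp [h]
    have e4 : OddR3_sz (fun x => !A x && !decide (x = bar z)) = 0 := by
      have e5 : OddR3_sz (fun x => !A x) = 1 := by omega
      omega
    have e5 := OddR3_sz_zero e4 x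
    have hxz : x ≠ bar z := fun h => hx (by rw [h]; rfl)
    simpa [hxz] using e5

theorem odd_r3 {c : CC} (hO : OMin c) (h0 : cnt c 0 % 2 = 1) (h01 : cnt c 0 = cnt c 1)
    (h12 : cnt c 1 = cnt c 2) (hI : ∀ W ∈ orb c, ∀ i, cnt c 0 < capC W (PrC i)) :
    Bdd c 4 := by
  classical
  obtain ⟨π, hπ, -, -⟩ := exists_SPerm_one
  have hcnt : ∀ i, cnt c i = cnt c 0 := by
    intro i
    fin_cases i
    · rfl
    · exact h01.symm
    · exact (h01.trans h12).symm
  have hP : ∀ W ∈ orb c, OddR3_P (cnt c 0) W := by
    intro W hW
    refine ⟨OMin_orb hO hW, ?_, hI W hW⟩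
    intro i
    obtain ⟨p, hp⟩ := cnt_orb hO hW
    rw [hp, hcnt]
  by_cases hex : ∃ A : Fin 3 × Bool → Bool, OddR3_sz A = 3 ∧ capC c A = cnt c 0
  · obtain ⟨A0, hA3, hAc⟩ := hex
    have hLv : ∀ z : Fin 3 × Bool, A0 z = true → A0 (bar z) = false → Lv c z A0 := by
      intro z h1 h2
      exact ⟨h1, h2, hAc.trans (hcnt z.1).symm⟩
    obtain ⟨Z, hZ⟩ : ∃ Z : Finset (Fin 3 × Bool), Z = Finset.univ.filter
      (fun z => A0 z = true ∧ A0 (bar z) = false) := ⟨_, rfl⟩
    have hZm : ∀ z, z ∈ Z ↔ (A0 z = true ∧ A0 (bar z) = false) := by
      intro z; rw [hZ]; simp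
    have hZc : Z.card ≤ 3 := by
      have h1 : Z.card ≤ (Finset.univ : Finset (Fin 3)).card := by
        apply Finset.card_le_card_of_injOn Prod.fst (fun _ _ => Finset.mem_univ _)
        intro x hx y hy hxy
        have hx' := (hZm x).1 hx
        have hy' := (hZm y).1 hy
        rcases OddR3_fst hxy with h | h
        · exact h
        · exfalso
          rw [h] at hx'
          rw [hx'.1] at hy'
          exact absurd hy'.2 (by simp)
      simpa using h1
    obtain ⟨E', hE'⟩ : ∃ E' : Finset CC, E' = insert c (Z.image (fun z => act (wh z A0) c)) :=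
      ⟨_, rfl⟩
    have hcard : E'.card ≤ 4 := by
      rw [hE']
      refine (Finset.card_insert_le _ _).trans ?_
      have := Finset.card_image_le (s := Z) (f := fun z => act (wh z A0) c)
      omega
    have hcE : c ∈ E' := by rw [hE']; exact Finset.mem_insert_self _ _
    have hzE : ∀ z ∈ Z, act (wh z A0) c ∈ E' := by
      intro z hz
      rw [hE']
      exact Finset.mem_insert_of_mem (Finset.mem_image_of_mem _ hz)
    have main : Bdd c E'.card := by
      apply Bdd_of_closed hO (E' : Set CC) E' (fun e he _ => he)
        ⟨π, c, hcE, (hπ c).symm⟩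
      intro e he heo z A hz hz' hcap
      have hPe := hP e heo
      rcases OddR3_triv h0 hPe hz hz' hcap with h1 | ⟨h1, h2⟩
      · exact ⟨π, e, he, by rw [h1, hπ]⟩
      · have he' : e = c ∨ ∃ w ∈ Z, act (wh w A0) c = e := by
          have := he
          rw [Finset.mem_coe, hE', Finset.mem_insert, Finset.mem_image] at this
          exact this
        rcases he' with rfl | ⟨w, hw, hwe⟩
        · rcases OddR3_uniq h0 hPe hA3 h1 hAc h2 with h3 | h3
          · have h4 : A = A0 := funext h3
            subst h4
            exact ⟨π, act (wh z A) e, hzE z ((hZm z).2 ⟨hz, hz'⟩), (hπ _).symm⟩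
          · have h4 : A = fun x => !A0 x := funext h3
            have h5 : A0 z = false := by
              have := h3 z
              rw [hz] at this
              simpa using this.symm
            have h6 : A0 (bar z) = true := by
              have := h3 (bar z)
              rw [hz'] at this
              simpa using this.symm
            have h7 := Lv_compl (V := e) (z := bar z) (A := A0)
              (hLv (bar z) h6 (by rw [bar_bar]; exact h5))
            rw [bar_bar, ← h4] at h7
            refine ⟨π, act (wh (bar z) A0) e, hzE (bar z) ((hZm _).2 ⟨h6, by rw [bar_bar]; exact h5⟩), ?_⟩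
            rw [hπ]
            exact h7.2
        · have hwZ := (hZm w).1 hw
          have hinv := Lv_inv (hLv w hwZ.1 hwZ.2)
          obtain ⟨C, hC⟩ : ∃ C : Fin 3 × Bool → Bool,
            C = fun x => (A0 x && decide (x ≠ w)) || decide (x = bar w) := ⟨_, rfl⟩
          rw [← hC, hwe] at hinv
          have hwb : w ≠ bar w := fun h => bar_ne w h.symm
          have hCx : ∀ x : Fin 3 × Bool, x.1 ≠ w.1 → C x = A0 x := by
            intro x hx
            have e1 : x ≠ w := fun h => hx (by rw [h])
            have e2 : x ≠ bar w := fun h => hx (by rw [h]; rfl)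
            simp [hC, e1, e2]
          have hCw : C w = false := by simp [hC, hwb]
          have hCw' : C (bar w) = true := by simp [hC]
          have hC3 : OddR3_sz C = 3 := by
            -- the sizes agree
            have f1 := OddR3_split2 A0 C
            have f2 := OddR3_split1 A0 C
            have f3 : OddR3_sz (fun x => !A0 x && C x) = OddR3_sz (fun x => decide (x = bar w)) := by
              congr 1
              funext x
              by_cases hx : x = bar w
              · rw [hx, hwZ.2, hCw']; simp
              · by_cases hx2 : x = w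
                · rw [hx2, hCw]; simp [hwb]
                · have hx3 : x.1 ≠ w.1 := by
                    intro h
                    rcases OddR3_fst h with h | h
                    · exact hx2 h
                    · exact hx h
                  rw [hCx x hx3]
                  simp [hx]
            have f4 : OddR3_sz (fun x => A0 x && !C x) = OddR3_sz (fun x => decide (x = w)) := by
              congr 1
              funext x
              by_cases hx2 : x = w
              · rw [hx2, hCw, hwZ.1]; simp
              · by_cases hx : x = bar w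
                · rw [hx, hwZ.2]; simp [hwb.symm]
                · have hx3 : x.1 ≠ w.1 := by
                    intro h
                    rcases OddR3_fst h with h | h
                    · exact hx2 h
                    · exact hx h
                  rw [hCx x hx3]
                  simp [hx2]
            have hzz : (1 : ℕ) = OddR3_sz (fun x => decide (x = w)) := by
              unfold OddR3_sz
              simp
            have hzb : (1 : ℕ) = OddR3_sz (fun x => decide (x = bar w)) := by
              unfold OddR3_sz
              simp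
            omega
          have hCcap : capC e C = cnt c 0 := by
            have := hinv.1.2.2
            rwa [hPe.2.1] at this
          -- the move with the cut `C`
          have move : ∀ y : Fin 3 × Bool, C y = true → C (bar y) = false →
              ∃ σ : SPerm (Fin 3), ∃ e' ∈ (E' : Set CC), act (wh y C) e = act σ.aut e' := by
            intro y hy hy'
            by_cases hyw : y.1 = w.1
            · have hy2 : y = bar w := by
                rcases OddR3_fst hyw with h | h
                · rw [h, hCw] at hy
                  exact absurd hy (by simp)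
                · exact h
              subst hy2
              exact ⟨π, c, hcE, by rw [hinv.2, hπ]⟩
            · have a1 : A0 y = true := by rw [← hCx y hyw]; exact hy
              have a2 : A0 (bar y) = false := by rw [← hCx (bar y) hyw]; exact hy'
              obtain ⟨σ, hσ⟩ := act_wh_swap w y (fun h => hyw h.symm) A0 hwZ.1 hwZ.2 a1 a2
              have hσc := hσ c
              rw [← hC, hwe] at hσc
              refine ⟨σ.inv, act (wh y A0) c, hzE y ((hZm y).2 ⟨a1, a2⟩), ?_⟩
              rw [hσc, act_SPerm_inv]
          rcases OddR3_uniq h0 hPe hC3 h1 hCcap h2 with h3 | h3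
          · have h4 : A = C := funext h3
            rw [h4]
            rw [h4] at hz hz'
            exact move z hz hz'
          · have h4 : A = fun x => !C x := funext h3
            have h5 : C z = false := by
              have := h3 z
              rw [hz] at this
              simpa using this.symm
            have h6 : C (bar z) = true := by
              have := h3 (bar z)
              rw [hz'] at this
              simpa using this.symm
            have h7 := act_wh_compl (bar z) C e
            rw [bar_bar, ← h4] at h7
            rw [h7]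
            exact move (bar z) h6 (by rw [bar_bar]; exact h5)
    exact Bdd_mono main hcard
  · have main : Bdd c ({c} : Finset CC).card := by
      apply Bdd_of_closed hO {c} {c} (fun e he _ => by simpa using he)
        ⟨π, c, rfl, (hπ c).symm⟩
      intro e he heo z A hz hz' hcap
      have hec : e = c := he
      subst hec
      rcases OddR3_triv h0 (hP e heo) hz hz' hcap with h1 | h1
      · exact ⟨π, e, rfl, by rw [h1, hπ]⟩
      · exact absurd ⟨A, h1⟩ hex
    exact Bdd_mono main (by simp)

end Pool.Agent.Sims
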