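import Pool.Agent.Sims.R2Min

/-!
# Module `R2Cnt` : counting the minimal members of `Z1, Z2, Z3`

`K = cnt e 2 ≥ 1`.
* `cnt_Z1`: `e ∈ Z1 K`, `OMin e`: by `min_W1`, `min_W2`, `min_W3` the four exponents have sum `K > 0` and sum of absolute
  values `K`, so they are natural numbers with sum `K`; there are `(K+3 choose 3)` such quadruples (e.g.
  `Finset.Nat.antidiagonalTuple 4 K`, or triples with sum `≤ K`), three patterns.
* `cnt_Z2`: `K = p + q` (`min_W4`, `min_W5`).  `W4` with `|k1+k2+k4| = p`, `|k3| = q`: up to two signs, determined by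
  `(|k1|, |k2|) ∈ [0,p]²` (`k1, k2, k4` have the same sign): `4 (p+1)²`; with `p, q` exchanged: `4 (q+1)²`.  `W5` with
  `|k1+k3| = p`, `|k2+k4| = q`: two signs, `|k1| ≤ p`, `|k2| ≤ q`: `4 (p+1)(q+1)`, and `p, q` exchanged: the same.  Total
  `4 (p+1+q+1)² = 4 (K+2)²`.
* `cnt_Z3`: `K = p + q + r`; `e = W6 k1 k2 k3 k4` with `k1, k3 ≠ 0` (as `cnt e 0 = cnt e 1 = 2`), so the two loop
  invariants are `≥ 1` and `|k2+k4| ≤ K - 2`: six arrangements of `(p,q,r)`, eight signs, `|k2| ≤ K - 2`: at most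
  `48 (K - 1)` classes.
Difficulty 2.
-/

namespace Pool.Agent.Sims

open FreeGroup (of)

/-! ### cancellation -/

theorem R2Cnt_cnt_zpw {i : Fin 3} (hi : i ≠ 2) (k : ℤ) : cntL (zpw 2 k) i = 0 := by
  unfold cntL zpw
  rw [List.countP_replicate, if_neg]
  simp only [decide_eq_true_eq]
  exact fun h => hi h.symm

theorem R2Cnt_cnt_append (u v : List (Fin 3 × Bool)) (i : Fin 3) :
    cntL (u ++ v) i = cntL u i + cntL v i := by
  unfold cntL
  rw [List.countP_append]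

theorem R2Cnt_W4_ne {k1 k2 k3 k4 : ℤ} (h : cnt (W4 k1 k2 k3 k4) 1 = 2) : k3 ≠ 0 := by
  rintro rfl
  have h1 : W4 k1 k2 0 k4 =
      cls ([(0, true)] ++ zpw 2 k1 ++ [(0, true)] ++ zpw 2 (-k2) ++ zpw 2 (-k4)) := by
    unfold W4
    rw [wd_mk, cls]
    congr 1
    rw [← FreeGroup.mul_mk, ← FreeGroup.mul_mk, ← FreeGroup.mul_mk, ← FreeGroup.mul_mk, mk_zpw,
      mk_zpw, mk_zpw, lett_true, lett_true, lett_false]
    change _ = of 0 * of 2 ^ k1 * of 0 * of 2 ^ (-k2) * of 2 ^ (-k4)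
    group
  have h2 := cnt_le ([(0, true)] ++ zpw 2 k1 ++ [(0, true)] ++ zpw 2 (-k2) ++ zpw 2 (-k4)) 1
  rw [← h1, h] at h2
  simp only [R2Cnt_cnt_append, R2Cnt_cnt_zpw (show (1 : Fin 3) ≠ 2 by decide)] at h2
  have h3 : cntL [((0 : Fin 3), true)] 1 = 0 := by decide
  omega

theorem R2Cnt_W6_ne1 {k1 k2 k3 k4 : ℤ} (h : cnt (W6 k1 k2 k3 k4) 0 = 2) : k1 ≠ 0 := by
  rintro rfl
  have h1 : W6 0 k2 k3 k4 =
      cls (zpw 2 k2 ++ [(1, true)] ++ zpw 2 k3 ++ [(1, false)] ++ zpw 2 k4) := by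
    unfold W6
    rw [wd_mk, cls]
    congr 1
    rw [← FreeGroup.mul_mk, ← FreeGroup.mul_mk, ← FreeGroup.mul_mk, ← FreeGroup.mul_mk, mk_zpw,
      mk_zpw, mk_zpw, lett_true, lett_true, lett_false, lett_false]
    change _ = of 2 ^ k2 * of 1 * of 2 ^ k3 * lett (1, false) * of 2 ^ k4
    rw [lett_false]
    group
  have h2 := cnt_le (zpw 2 k2 ++ [(1, true)] ++ zpw 2 k3 ++ [(1, false)] ++ zpw 2 k4) 0
  rw [← h1, h] at h2
  simp only [R2Cnt_cnt_append, R2Cnt_cnt_zpw (show (0 : Fin 3) ≠ 2 by decide)] at h2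
  have h3 : cntL [((1 : Fin 3), true)] 0 = 0 := by decide
  have h4 : cntL [((1 : Fin 3), false)] 0 = 0 := by decide
  omega

theorem R2Cnt_W6_ne3 {k1 k2 k3 k4 : ℤ} (h : cnt (W6 k1 k2 k3 k4) 1 = 2) : k3 ≠ 0 := by
  rintro rfl
  have h1 : W6 k1 k2 0 k4 =
      cls ([(0, true)] ++ zpw 2 k1 ++ [(0, false)] ++ zpw 2 k2 ++ zpw 2 k4) := by
    unfold W6
    rw [wd_mk, cls]
    congr 1
    rw [← FreeGroup.mul_mk, ← FreeGroup.mul_mk, ← FreeGroup.mul_mk, ← FreeGroup.mul_mk, mk_zpw,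
      mk_zpw, mk_zpw, lett_true, lett_true, lett_false, lett_false]
    change _ = of 0 * of 2 ^ k1 * lett (0, false) * of 2 ^ k2 * of 2 ^ k4
    rw [lett_false]
    group
  have h2 := cnt_le ([(0, true)] ++ zpw 2 k1 ++ [(0, false)] ++ zpw 2 k2 ++ zpw 2 k4) 1
  rw [← h1, h] at h2
  simp only [R2Cnt_cnt_append, R2Cnt_cnt_zpw (show (1 : Fin 3) ≠ 2 by decide)] at h2
  have h3 : cntL [((0 : Fin 3), true)] 1 = 0 := by decide
  have h4 : cntL [((0 : Fin 3), false)] 1 = 0 := by decide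
  omega

/-! ### `Z1` -/

/-- the classes of a pattern with natural exponents with sum `K` -/
noncomputable def R2Cnt_E (W : ℤ → ℤ → ℤ → ℤ → CC) (K : ℕ) : Finset CC :=
  open Classical in
  ((Finset.univ : Finset (Fin 4)).finsuppAntidiag K).image
    (fun f => W (f 0) (f 1) (f 2) (f 3))

theorem R2Cnt_E_card (W : ℤ → ℤ → ℤ → ℤ → CC) (K : ℕ) :
    (R2Cnt_E W K).card ≤ (K + 3).choose 3 := by
  unfold R2Cnt_E
  classical
  refine Finset.card_image_le.trans ?_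
  rw [Finset.card_finsuppAntidiag_nat_eq_choose, Finset.card_univ, Fintype.card_fin]
  have h1 : 4 + K - 1 = K + 3 := by omega
  rw [h1]
  exact (Nat.choose_symm_add (a := K) (b := 3)).le

theorem R2Cnt_E_mem (W : ℤ → ℤ → ℤ → ℤ → CC) {K : ℕ} {k1 k2 k3 k4 : ℤ}
    (hs : k1 + k2 + k3 + k4 = K)
    (ha : k1.natAbs + k2.natAbs + k3.natAbs + k4.natAbs = (k1 + k2 + k3 + k4).natAbs) :
    W k1 k2 k3 k4 ∈ R2Cnt_E W K := by
  unfold R2Cnt_E
  classical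
  rw [Finset.mem_image]
  refine ⟨Finsupp.equivFunOnFinite.symm ![k1.natAbs, k2.natAbs, k3.natAbs, k4.natAbs], ?_, ?_⟩
  · rw [Finset.mem_finsuppAntidiag]
    refine ⟨?_, Finset.subset_univ _⟩
    rw [Fin.sum_univ_four]
    simp only [Finsupp.equivFunOnFinite_symm_apply_apply, Matrix.cons_val]
    omega
  · simp only [Finsupp.equivFunOnFinite_symm_apply_apply, Matrix.cons_val]
    have e1 : ((k1.natAbs : ℕ) : ℤ) = k1 := by omega
    have e2 : ((k2.natAbs : ℕ) : ℤ) = k2 := by omega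
    have e3 : ((k3.natAbs : ℕ) : ℤ) = k3 := by omega
    have e4 : ((k4.natAbs : ℕ) : ℤ) = k4 := by omega
    rw [e1, e2, e3, e4]

theorem cnt_Z1 {K : ℕ} (hK : 1 ≤ K) : ∃ E : Finset CC, E.card ≤ 3 * (K + 3).choose 3 ∧
    ∀ e ∈ Z1 K, OMin e → e ∈ E := by
  classical
  refine ⟨R2Cnt_E W1 K ∪ (R2Cnt_E W2 K ∪ R2Cnt_E W3 K), ?_, ?_⟩
  · have h1 := R2Cnt_E_card W1 K
    have h2 := R2Cnt_E_card W2 K
    have h3 := R2Cnt_E_card W3 K
    have h4 := Finset.card_union_le (R2Cnt_E W1 K) (R2Cnt_E W2 K ∪ R2Cnt_E W3 K)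
    have h5 := Finset.card_union_le (R2Cnt_E W2 K) (R2Cnt_E W3 K)
    omega
  · rintro e ⟨k1, k2, k3, k4, hs, rfl | rfl | rfl⟩ hO
    · exact Finset.mem_union_left _ (R2Cnt_E_mem W1 hs (min_W1 hO).1)
    · exact Finset.mem_union_right _ (Finset.mem_union_left _
        (R2Cnt_E_mem W2 hs (min_W2 hO).1))
    · exact Finset.mem_union_right _ (Finset.mem_union_right _
        (R2Cnt_E_mem W3 hs (min_W3 hO).1))

/-! ### `Z2` -/

/-- signed natural number -/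
def R2Cnt_s (b : Bool) (n : ℤ) : ℤ := if b then n else -n

/-- `W4` classes -/
noncomputable def R2Cnt_F4 (p q : ℕ) : Finset CC :=
  open Classical in
  (((Finset.univ : Finset Bool) ×ˢ (Finset.univ : Finset Bool)) ×ˢ
    (Finset.range (p + 1) ×ˢ Finset.range (p + 1))).image
    (fun x => W4 (R2Cnt_s x.1.1 (x.2.1 : ℤ)) (R2Cnt_s x.1.1 (x.2.2 : ℤ)) (R2Cnt_s x.1.2 (q : ℤ))
      (R2Cnt_s x.1.1 ((p : ℤ) - x.2.1 - x.2.2)))

/-- `W5` classes -/
noncomputable def R2Cnt_F5 (p q : ℕ) : Finset CC :=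
  open Classical in
  (((Finset.univ : Finset Bool) ×ˢ (Finset.univ : Finset Bool)) ×ˢ
    (Finset.range (p + 1) ×ˢ Finset.range (q + 1))).image
    (fun x => W5 (R2Cnt_s x.1.1 (x.2.1 : ℤ)) (R2Cnt_s x.1.2 (x.2.2 : ℤ))
      (R2Cnt_s x.1.1 ((p : ℤ) - x.2.1)) (R2Cnt_s x.1.2 ((q : ℤ) - x.2.2)))

theorem R2Cnt_F4_card (p q : ℕ) : (R2Cnt_F4 p q).card ≤ 4 * ((p + 1) * (p + 1)) := by
  unfold R2Cnt_F4
  classical
  refine Finset.card_image_le.trans ?_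
  rw [Finset.card_product, Finset.card_product, Finset.card_product, Finset.card_range,
    Finset.card_univ, Fintype.card_bool]

theorem R2Cnt_F5_card (p q : ℕ) : (R2Cnt_F5 p q).card ≤ 4 * ((p + 1) * (q + 1)) := by
  unfold R2Cnt_F5
  classical
  refine Finset.card_image_le.trans ?_
  rw [Finset.card_product, Finset.card_product, Finset.card_product, Finset.card_range,
    Finset.card_range, Finset.card_univ, Fintype.card_bool]

theorem R2Cnt_sign (k : ℤ) (n : ℕ) (h : k.natAbs = n) : ∃ b, k = R2Cnt_s b n := by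
  rcases le_or_gt 0 k with hk | hk
  · exact ⟨true, by simp only [R2Cnt_s, if_true]; omega⟩
  · exact ⟨false, by simp only [R2Cnt_s, Bool.false_eq_true, if_false]; omega⟩

theorem R2Cnt_F4_mem {p q : ℕ} {k1 k2 k3 k4 : ℤ} (h1 : (k1 + k2 + k4).natAbs = p)
    (h3 : k3.natAbs = q) (ha : k1.natAbs + k2.natAbs + k4.natAbs = (k1 + k2 + k4).natAbs) :
    W4 k1 k2 k3 k4 ∈ R2Cnt_F4 p q := by
  unfold R2Cnt_F4
  classical
  rw [Finset.mem_image]
  obtain ⟨c, hc⟩ := R2Cnt_sign k3 q h3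
  rcases le_or_gt 0 (k1 + k2 + k4) with hk | hk
  · refine ⟨((true, c), (k1.natAbs, k2.natAbs)), ?_, ?_⟩
    · simp only [Finset.mem_product, Finset.mem_univ, Finset.mem_range, true_and]
      omega
    · simp only [← hc]
      have e1 : R2Cnt_s true (k1.natAbs : ℤ) = k1 := by
        simp only [R2Cnt_s, if_true]; omega
      have e2 : R2Cnt_s true (k2.natAbs : ℤ) = k2 := by
        simp only [R2Cnt_s, if_true]; omega
      have e4 : R2Cnt_s true ((p : ℤ) - k1.natAbs - k2.natAbs) = k4 := by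
        simp only [R2Cnt_s, if_true]; omega
      rw [e1, e2, e4]
  · refine ⟨((false, c), (k1.natAbs, k2.natAbs)), ?_, ?_⟩
    · simp only [Finset.mem_product, Finset.mem_univ, Finset.mem_range, true_and]
      omega
    · simp only [← hc]
      have e1 : R2Cnt_s false (k1.natAbs : ℤ) = k1 := by
        simp only [R2Cnt_s, Bool.false_eq_true, if_false]; omega
      have e2 : R2Cnt_s false (k2.natAbs : ℤ) = k2 := by
        simp only [R2Cnt_s, Bool.false_eq_true, if_false]; omega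
      have e4 : R2Cnt_s false ((p : ℤ) - k1.natAbs - k2.natAbs) = k4 := by
        simp only [R2Cnt_s, Bool.false_eq_true, if_false]; omega
      rw [e1, e2, e4]

theorem R2Cnt_split {p : ℕ} {k l : ℤ} (h1 : (k + l).natAbs = p)
    (ha : k.natAbs + l.natAbs = (k + l).natAbs) : ∃ b : Bool, ∃ n : ℕ, n < p + 1 ∧
    k = R2Cnt_s b n ∧ l = R2Cnt_s b ((p : ℤ) - n) := by
  rcases le_or_gt 0 (k + l) with hk | hk
  · refine ⟨true, k.natAbs, by omega, ?_, ?_⟩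
    · simp only [R2Cnt_s, if_true]; omega
    · simp only [R2Cnt_s, if_true]; omega
  · refine ⟨false, k.natAbs, by omega, ?_, ?_⟩
    · simp only [R2Cnt_s, Bool.false_eq_true, if_false]; omega
    · simp only [R2Cnt_s, Bool.false_eq_true, if_false]; omega

theorem R2Cnt_F5_mem {p q : ℕ} {k1 k2 k3 k4 : ℤ} (h1 : (k1 + k3).natAbs = p)
    (h2 : (k2 + k4).natAbs = q) (ha : k1.natAbs + k3.natAbs = (k1 + k3).natAbs)
    (hb : k2.natAbs + k4.natAbs = (k2 + k4).natAbs) :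
    W5 k1 k2 k3 k4 ∈ R2Cnt_F5 p q := by
  unfold R2Cnt_F5
  classical
  rw [Finset.mem_image]
  obtain ⟨b, n, hn, e1, e3⟩ := R2Cnt_split h1 ha
  obtain ⟨c, m, hm, e2, e4⟩ := R2Cnt_split h2 hb
  refine ⟨((b, c), (n, m)), ?_, ?_⟩
  · simp only [Finset.mem_product, Finset.mem_univ, Finset.mem_range, true_and]
    exact ⟨hn, hm⟩
  · simp only [← e1, ← e2, ← e3, ← e4]

theorem cnt_Z2 (p q K : ℕ) : ∃ E : Finset CC, E.card ≤ 4 * (K + 2) ^ 2 ∧
    ∀ e ∈ Z2 p q, OMin e → cnt e 0 = 2 → cnt e 1 = 2 → cnt e 2 = K → e ∈ E := by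
  classical
  by_cases hK : K = p + q
  · subst hK
    refine ⟨(R2Cnt_F4 p q ∪ R2Cnt_F4 q p) ∪ (R2Cnt_F5 p q ∪ R2Cnt_F5 q p), ?_, ?_⟩
    · have h1 := R2Cnt_F4_card p q
      have h2 := R2Cnt_F4_card q p
      have h3 := R2Cnt_F5_card p q
      have h4 := R2Cnt_F5_card q p
      have h5 := Finset.card_union_le (R2Cnt_F4 p q ∪ R2Cnt_F4 q p)
        (R2Cnt_F5 p q ∪ R2Cnt_F5 q p)
      have h6 := Finset.card_union_le (R2Cnt_F4 p q) (R2Cnt_F4 q p)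
      have h7 := Finset.card_union_le (R2Cnt_F5 p q) (R2Cnt_F5 q p)
      calc ((R2Cnt_F4 p q ∪ R2Cnt_F4 q p) ∪ (R2Cnt_F5 p q ∪ R2Cnt_F5 q p)).card
          ≤ (4 * ((p + 1) * (p + 1)) + 4 * ((q + 1) * (q + 1))) +
            (4 * ((p + 1) * (q + 1)) + 4 * ((q + 1) * (p + 1))) := by omega
        _ = 4 * (p + q + 2) ^ 2 := by ring
    · rintro e ⟨k1, k2, k3, k4, ⟨rfl, he⟩ | ⟨rfl, he⟩⟩ hO h0 h1 h2
      · have h3 := R2Cnt_W4_ne h1
        obtain ⟨ha, _⟩ := min_W4 hO h3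
        apply Finset.mem_union_left
        rcases he with ⟨a, b⟩ | ⟨a, b⟩
        · exact Finset.mem_union_left _ (R2Cnt_F4_mem a b ha)
        · exact Finset.mem_union_right _ (R2Cnt_F4_mem a b ha)
      · obtain ⟨ha, hb, _⟩ := min_W5 hO
        apply Finset.mem_union_right
        rcases he with ⟨a, b⟩ | ⟨a, b⟩
        · exact Finset.mem_union_left _ (R2Cnt_F5_mem a b ha hb)
        · exact Finset.mem_union_right _ (R2Cnt_F5_mem a b ha hb)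
  · refine ⟨∅, by simp, ?_⟩
    rintro e ⟨k1, k2, k3, k4, ⟨rfl, he⟩ | ⟨rfl, he⟩⟩ hO h0 h1 h2
    · exfalso
      obtain ⟨_, hb⟩ := min_W4 hO (R2Cnt_W4_ne h1)
      omega
    · exfalso
      obtain ⟨_, _, hb⟩ := min_W5 hO
      omega

/-! ### `Z3` -/

theorem R2Cnt_pair {b c q r : ℕ} (h : ({b, c} : Multiset ℕ) = {q, r}) :
    (b = q ∧ c = r) ∨ (b = r ∧ c = q) := by
  have hb : b ∈ ({q, r} : Multiset ℕ) := by rw [← h]; simp
  simp only [Multiset.insert_eq_cons, Multiset.mem_cons, Multiset.mem_singleton] at hb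
  rcases hb with rfl | rfl
  · left
    rw [Multiset.insert_eq_cons, Multiset.insert_eq_cons, Multiset.cons_inj_right] at h
    exact ⟨rfl, Multiset.singleton_inj.mp h⟩
  · right
    rw [Multiset.insert_eq_cons, Multiset.insert_eq_cons,
      show q ::ₘ ({b} : Multiset ℕ) = b ::ₘ {q} from Multiset.cons_swap q b 0,
      Multiset.cons_inj_right] at h
    exact ⟨rfl, Multiset.singleton_inj.mp h⟩

theorem R2Cnt_triple {a b c p q r : ℕ} (h : ({a, b, c} : Multiset ℕ) = {p, q, r}) :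
    (a = p ∧ b = q ∧ c = r) ∨ (a = p ∧ b = r ∧ c = q) ∨ (a = q ∧ b = p ∧ c = r) ∨
      (a = q ∧ b = r ∧ c = p) ∨ (a = r ∧ b = p ∧ c = q) ∨ (a = r ∧ b = q ∧ c = p) := by
  have ha : a ∈ ({p, q, r} : Multiset ℕ) := by rw [← h]; simp
  simp only [Multiset.insert_eq_cons, Multiset.mem_cons, Multiset.mem_singleton] at ha h
  rcases ha with rfl | rfl | rfl
  · rw [Multiset.cons_inj_right] at h
    rcases R2Cnt_pair h with ⟨h1, h2⟩ | ⟨h1, h2⟩
    · exact Or.inl ⟨rfl, h1, h2⟩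
    · exact Or.inr (Or.inl ⟨rfl, h1, h2⟩)
  · rw [Multiset.cons_swap p a, Multiset.cons_inj_right] at h
    rcases R2Cnt_pair h with ⟨h1, h2⟩ | ⟨h1, h2⟩
    · exact Or.inr (Or.inr (Or.inl ⟨rfl, h1, h2⟩))
    · exact Or.inr (Or.inr (Or.inr (Or.inl ⟨rfl, h1, h2⟩)))
  · have e : p ::ₘ q ::ₘ ({a} : Multiset ℕ) = a ::ₘ p ::ₘ {q} := by
      rw [show q ::ₘ ({a} : Multiset ℕ) = a ::ₘ {q} from Multiset.cons_swap q a 0,
        Multiset.cons_swap p a]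
    rw [e, Multiset.cons_inj_right] at h
    rcases R2Cnt_pair h with ⟨h1, h2⟩ | ⟨h1, h2⟩
    · exact Or.inr (Or.inr (Or.inr (Or.inr (Or.inl ⟨rfl, h1, h2⟩))))
    · exact Or.inr (Or.inr (Or.inr (Or.inr (Or.inr ⟨rfl, h1, h2⟩))))

/-- `W6` classes -/
noncomputable def R2Cnt_F6 (K s t u : ℕ) : Finset CC :=
  open Classical in
  (((Finset.univ : Finset Bool) ×ˢ ((Finset.univ : Finset Bool) ×ˢ
    (Finset.univ : Finset Bool))) ×ˢ Finset.range (K - 1)).image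
    (fun x => W6 (R2Cnt_s x.1.2.1 (t : ℤ)) (R2Cnt_s x.1.1 (x.2 : ℤ))
      (R2Cnt_s x.1.2.2 (u : ℤ)) (R2Cnt_s x.1.1 ((s : ℤ) - x.2)))

theorem R2Cnt_F6_card (K s t u : ℕ) : (R2Cnt_F6 K s t u).card ≤ 8 * (K - 1) := by
  unfold R2Cnt_F6
  classical
  refine Finset.card_image_le.trans ?_
  rw [Finset.card_product, Finset.card_product, Finset.card_product, Finset.card_range,
    Finset.card_univ, Fintype.card_bool]

theorem R2Cnt_F6_mem {K s t u : ℕ} {k1 k2 k3 k4 : ℤ} (h1 : k1 ≠ 0) (h3 : k3 ≠ 0)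
    (hs : (k2 + k4).natAbs = s) (ht : k1.natAbs = t) (hu : k3.natAbs = u)
    (ha : k2.natAbs + k4.natAbs = (k2 + k4).natAbs)
    (hK : (k2 + k4).natAbs + k1.natAbs + k3.natAbs = K) :
    W6 k1 k2 k3 k4 ∈ R2Cnt_F6 K s t u := by
  unfold R2Cnt_F6
  classical
  rw [Finset.mem_image]
  obtain ⟨b, n, hn, e2, e4⟩ := R2Cnt_split hs ha
  obtain ⟨c, hc⟩ := R2Cnt_sign k1 t ht
  obtain ⟨d, hd⟩ := R2Cnt_sign k3 u hu
  refine ⟨((b, (c, d)), n), ?_, ?_⟩
  · simp only [Finset.mem_product, Finset.mem_univ, Finset.mem_range, true_and]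
    omega
  · simp only [← e2, ← e4, ← hc, ← hd]

theorem cnt_Z3 (p q r K : ℕ) (hK : 2 ≤ K) : ∃ E : Finset CC, E.card ≤ 48 * (K - 1) ∧
    ∀ e ∈ Z3 p q r, OMin e → cnt e 0 = 2 → cnt e 1 = 2 → cnt e 2 = K → e ∈ E := by
  classical
  refine ⟨R2Cnt_F6 K p q r ∪ (R2Cnt_F6 K p r q ∪ (R2Cnt_F6 K q p r ∪ (R2Cnt_F6 K q r p ∪
    (R2Cnt_F6 K r p q ∪ R2Cnt_F6 K r q p)))), ?_, ?_⟩
  · have h1 := R2Cnt_F6_card K p q r
    have h2 := R2Cnt_F6_card K p r q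
    have h3 := R2Cnt_F6_card K q p r
    have h4 := R2Cnt_F6_card K q r p
    have h5 := R2Cnt_F6_card K r p q
    have h6 := R2Cnt_F6_card K r q p
    refine (Finset.card_union_le _ _).trans ?_
    have g1 := Finset.card_union_le (R2Cnt_F6 K p r q) (R2Cnt_F6 K q p r ∪ (R2Cnt_F6 K q r p ∪
      (R2Cnt_F6 K r p q ∪ R2Cnt_F6 K r q p)))
    have g2 := Finset.card_union_le (R2Cnt_F6 K q p r) (R2Cnt_F6 K q r p ∪
      (R2Cnt_F6 K r p q ∪ R2Cnt_F6 K r q p))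
    have g3 := Finset.card_union_le (R2Cnt_F6 K q r p) (R2Cnt_F6 K r p q ∪ R2Cnt_F6 K r q p)
    have g4 := Finset.card_union_le (R2Cnt_F6 K r p q) (R2Cnt_F6 K r q p)
    omega
  · rintro e ⟨k1, k2, k3, k4, rfl, hm⟩ hO h0 h1 h2
    have n1 := R2Cnt_W6_ne1 h0
    have n3 := R2Cnt_W6_ne3 h1
    obtain ⟨ha, hb⟩ := min_W6 hO n1 n3
    rw [h2] at hb
    simp only [Finset.mem_union]
    rcases R2Cnt_triple hm with ⟨a, b, c⟩ | ⟨a, b, c⟩ | ⟨a, b, c⟩ | ⟨a, b, c⟩ | ⟨a, b, c⟩ |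
      ⟨a, b, c⟩
    · exact Or.inl (R2Cnt_F6_mem n1 n3 a b c ha hb.symm)
    · exact Or.inr (Or.inl (R2Cnt_F6_mem n1 n3 a b c ha hb.symm))
    · exact Or.inr (Or.inr (Or.inl (R2Cnt_F6_mem n1 n3 a b c ha hb.symm)))
    · exact Or.inr (Or.inr (Or.inr (Or.inl (R2Cnt_F6_mem n1 n3 a b c ha hb.symm))))
    · exact Or.inr (Or.inr (Or.inr (Or.inr (Or.inl (R2Cnt_F6_mem n1 n3 a b c ha hb.symm)))))
    · exact Or.inr (Or.inr (Or.inr (Or.inr (Or.inr (R2Cnt_F6_mem n1 n3 a b c ha hb.symm)))))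

end Pool.Agent.Sims
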