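import Pool.Agent.Sims.BddM
import Pool.Agent.Sims.EdgeM

/-!
# Module `R2Cut` : reduction of level moves to pair slides

Let `E` be a set of classes closed under all `pot 2 p`, such that pair slides from orbit-minimal members with
`cnt _ 0 = cnt _ 1 = 2` lead to images of members under signed permutations with `c ↦ c^{±1}`.  Claim: the same holds
for all level moves `(z, A)` from an orbit-minimal `e ∈ E` with `cnt e 0 = cnt e 1 = 2`, `cnt e 2 ≥ 3`.
* `z.1 = 2`: `wh z A = pot 2 _` (definition of `wh`; `exists_SPerm_one`).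
* `z.1 ≠ 2`: `capC e A = 2`.  If `A` separates `c` from `c⁻¹` then `3 ≤ cnt e 2 ≤ capC e A` (`OMin.le_cap`): impossible.
  If `A` contains `c, c⁻¹`: replace `(z, A)` by `(z⁻¹, Aᶜ)` (`act_wh_compl`, `capC_compl`).  So `c, c⁻¹ ∉ A`.  Let `y, y⁻¹` be the
  letters of the other generator in `{a, b}`; `A = {z}, {z,y}, {z,y⁻¹}` or `{z,y,y⁻¹}`.
  `A = {z}`: `act (wh z A) e = e` (`wh` fixes all generators).  `A = {z, y^{±1}}`: a pair slide.
  `A = {z, y, y⁻¹}`: `capC e {y, y⁻¹} > 0` (`cap_pair_zero`, as other letters occur), and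
  `2 = capC e A = 2 + capC e {y,y⁻¹} - 2 edgS e {z} {y, y⁻¹}` (`capC_union`), so `edgS e {z} {y,y⁻¹} > 0` and by `edgS_union`
  `edgS e {z} {y'} > 0` for `y' = y` or `y⁻¹`; then `capC e {z, y'} = 4 - 2 edgS ≤ 2` (`capC_pr`) and `≥ 2` (`OMin.le_cap`), so it
  is a pair slide `e₁ = act (wh z {z,y'}) e = act σ₁ e₂`, `e₂ ∈ E`, at constant length, `e₁` and `e₂` orbit-minimal with the
  same counts (`cnt_wh_self`, `cnt_wh_ne`, `cnt_SPerm`; `σ₁.perm` fixes `2`).  By `act_wh_mono`
  `act (wh z A) e = act (wh z {z, ȳ'}) e₁` (the set `A ∖ {z,y'} ∪ {z}`), again level (`cycLen_wh` and the lengths), and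
  `= act σ₁ (act (wh z' {z', y''}) e₂)` with `z' = σ₁⁻¹ z`, `y'' = σ₁⁻¹ ȳ'` (`act_wh_SPerm`, `capC_SPerm`), a pair slide from `e₂`.
  Compose the signed permutations (`SPerm_mul`).
Difficulty 3.
-/

namespace Pool.Agent.Sims

open FreeGroup (of)

private theorem letters6 : ∀ z y x : Fin 3 × Bool, z.1 ≠ 2 → y.1 ≠ 2 → y.1 ≠ z.1 →
    (x = z ∨ x = bar z ∨ x = y ∨ x = bar y ∨ x = (2, true) ∨ x = (2, false)) := by
  decide

private theorem other : ∀ z : Fin 3 × Bool, z.1 ≠ 2 → ∃ y : Fin 3 × Bool, y.1 ≠ 2 ∧ y.1 ≠ z.1 := by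
  decide

private theorem ne2 : ∀ i : Fin 3, i ≠ 2 → i = 0 ∨ i = 1 := by decide

/-- cuts are determined by the values at the six letters -/
private theorem cut_ext {z y : Fin 3 × Bool} (hz : z.1 ≠ 2) (hy : y.1 ≠ 2) (hyz : y.1 ≠ z.1)
    {A B : Fin 3 × Bool → Bool} (h1 : A z = B z) (h2 : A (bar z) = B (bar z)) (h3 : A y = B y)
    (h4 : A (bar y) = B (bar y)) (h5 : A (2, true) = B (2, true))
    (h6 : A (2, false) = B (2, false)) : A = B := by
  funext x
  rcases letters6 z y x hz hy hyz with h | h | h | h | h | h <;> rw [h] <;> assumption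

private theorem letter_inj (σ : SPerm (Fin 3)) {x y : Fin 3 × Bool} (h : σ.letter x = σ.letter y) :
    x = y := by
  have := congrArg σ.inv.letter h
  rwa [SPerm.inv_letter, SPerm.inv_letter] at this

private theorem fst_ne {x y : Fin 3 × Bool} (h : x.1 ≠ y.1) : x ≠ y := fun h' => h (by rw [h'])

/-- level moves with `c, c⁻¹ ∉ A`, `z ≠ c^{±1}` -/
private theorem main_case (E : Set CC)
    (hslide : ∀ e ∈ E, OMin e → cnt e 0 = 2 → cnt e 1 = 2 → ∀ z y : Fin 3 × Bool, z.1 ≠ 2 →
      y.1 ≠ 2 → y.1 ≠ z.1 → capC e (pr z y) = 2 →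
      ∃ σ : SPerm (Fin 3), Fix2 σ ∧ ∃ e' ∈ E, act (wh z (pr z y)) e = act σ.aut e')
    {e : CC} (he : e ∈ E) (hO : OMin e) (h0 : cnt e 0 = 2) (h1 : cnt e 1 = 2)
    (h2 : 3 ≤ cnt e 2) {z : Fin 3 × Bool} {A : Fin 3 × Bool → Bool} (hz : A z = true)
    (hz' : A (bar z) = false) (hc : capC e A = 2) (hz2 : z.1 ≠ 2) (hA1 : A (2, true) = false)
    (hA2 : A (2, false) = false) :
    ∃ σ : SPerm (Fin 3), ∃ e' ∈ E, act (wh z A) e = act σ.aut e' := by
  have hcnt : ∀ i : Fin 3, i ≠ 2 → cnt e i = 2 := by
    intro i hi
    rcases ne2 i hi with rfl | rfl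
    · exact h0
    · exact h1
  obtain ⟨y, hy2, hyz⟩ := other z hz2
  -- the pair slide case
  have hpair : ∀ y' : Fin 3 × Bool, y'.1 ≠ 2 → y'.1 ≠ z.1 → A y' = true → A (bar y') = false →
      ∃ σ : SPerm (Fin 3), ∃ e' ∈ E, act (wh z A) e = act σ.aut e' := by
    intro y' hy' hyz' ha ha'
    have hA : A = pr z y' := by
      apply cut_ext hz2 hy' hyz'
      · simp [pr, hz]
      · rw [hz']
        have e1 : bar z ≠ z := bar_ne z
        have e2 : bar z ≠ y' := fst_ne (by simpa using hyz'.symm)
        simp [pr, e1, e2]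
      · simp [pr, ha]
      · rw [ha']
        have e1 : bar y' ≠ z := fst_ne (by simpa using hyz')
        have e2 : bar y' ≠ y' := bar_ne y'
        simp [pr, e1, e2]
      · rw [hA1]
        have e1 : ((2, true) : Fin 3 × Bool) ≠ z := fst_ne (fun h => hz2 h.symm)
        have e2 : ((2, true) : Fin 3 × Bool) ≠ y' := fst_ne (fun h => hy' h.symm)
        simp [pr, e1, e2]
      · rw [hA2]
        have e1 : ((2, false) : Fin 3 × Bool) ≠ z := fst_ne (fun h => hz2 h.symm)
        have e2 : ((2, false) : Fin 3 × Bool) ≠ y' := fst_ne (fun h => hy' h.symm)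
        simp [pr, e1, e2]
    rw [hA] at hc ⊢
    obtain ⟨σ, -, e', he', h⟩ := hslide e he hO h0 h1 z y' hz2 hy' hyz' hc
    exact ⟨σ, e', he', h⟩
  by_cases hay : A y = true
  · by_cases hay' : A (bar y) = true
    · -- `A = {z, y, ȳ}`
      have hcap : 0 < capC e (fun x => decide (x.1 = y.1)) := by
        rw [Nat.pos_iff_ne_zero]
        intro h
        rcases cap_pair_zero e y.1 h with h' | h'
        · rw [hcnt _ hy2] at h'; omega
        · have := h' 2 (Ne.symm hy2)
          omega
      have hsz : capC e (sgl z) = 2 := by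
        have := capC_single e z
        rw [hcnt _ hz2] at this
        exact this
      have hU := capC_union e (sgl z) (fun x => decide (x.1 = y.1)) (by
        intro x hx
        have : x = z := by simpa [sgl] using hx
        subst this
        simpa using Ne.symm hyz)
      have hAU : A = fun x => sgl z x || decide (x.1 = y.1) := by
        apply cut_ext hz2 hy2 hyz
        · simp [sgl, hz]
        · rw [hz']
          have e1 : bar z ≠ z := bar_ne z
          have e2 : (bar z).1 ≠ y.1 := by simpa using hyz.symm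
          simp only [sgl, e1, e2, decide_false, Bool.or_self]
        · simp [hay]
        · simp [hay']
        · rw [hA1]
          have e1 : ((2, true) : Fin 3 × Bool) ≠ z := fst_ne (fun h => hz2 h.symm)
          have e2 : ((2, true) : Fin 3 × Bool).1 ≠ y.1 := fun h => hy2 h.symm
          simp only [sgl, e1, e2, decide_false, Bool.or_self]
        · rw [hA2]
          have e1 : ((2, false) : Fin 3 × Bool) ≠ z := fst_ne (fun h => hz2 h.symm)
          have e2 : ((2, false) : Fin 3 × Bool).1 ≠ y.1 := fun h => hy2 h.symm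
          simp only [sgl, e1, e2, decide_false, Bool.or_self]
      rw [← hAU, hc, hsz] at hU
      have hedge : 0 < edgS e (sgl z) (fun x => decide (x.1 = y.1)) := by omega
      have hsplit : (fun x : Fin 3 × Bool => decide (x.1 = y.1)) =
          fun x => sgl y x || sgl (bar y) x := by
        funext x
        rcases x with ⟨i, b⟩
        rcases y with ⟨j, t⟩
        simp only [sgl, bar, Prod.mk.injEq]
        by_cases hij : i = j
        · subst hij
          cases b <;> cases t <;> simp
        · simp [hij]
      have hEU := edgS_union e (sgl z) (sgl y) (sgl (bar y)) (by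
          intro x hx
          have : x = z := by simpa [sgl] using hx
          subst this
          have : x ≠ y := fst_ne hyz.symm
          simp [sgl, this]) (by
          intro x hx
          have : x = z := by simpa [sgl] using hx
          subst this
          have : x ≠ bar y := fst_ne (by simpa using hyz.symm)
          simp [sgl, this]) (by
          intro x hx
          have : x = y := by simpa [sgl] using hx
          subst this
          have : x ≠ bar x := (bar_ne x).symm
          simp [sgl, this])
      rw [← hsplit] at hEU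
      have hy' : ∃ y' : Fin 3 × Bool, y'.1 ≠ 2 ∧ y'.1 ≠ z.1 ∧ A y' = true ∧ A (bar y') = true ∧
          0 < edgS e (sgl z) (sgl y') := by
        by_cases h : 0 < edgS e (sgl z) (sgl y)
        · exact ⟨y, hy2, hyz, hay, hay', h⟩
        · exact ⟨bar y, by simpa using hy2, by simpa using hyz, hay', by rw [bar_bar]; exact hay,
            by omega⟩
      obtain ⟨y', hy'2, hy'z, hay1, hay2, hedge'⟩ := hy'
      have hzy' : z ≠ y' := fst_ne hy'z.symm
      have hP := capC_pr e hzy'
      rw [hcnt _ hz2, hcnt _ hy'2] at hP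
      have hprz : pr z y' z = true := by simp [pr]
      have hprz' : pr z y' (bar z) = false := by
        have e1 : bar z ≠ z := bar_ne z
        have e2 : bar z ≠ y' := fst_ne (by simpa using hy'z.symm)
        simp [pr, e1, e2]
      have hle := hO.le_cap z (pr z y') hprz hprz'
      rw [hcnt _ hz2] at hle
      have hcap2 : capC e (pr z y') = 2 := by omega
      obtain ⟨σ₁, hσ₁, e₂, he₂, hE₂⟩ := hslide e he hO h0 h1 z y' hz2 hy'2 hy'z hcap2
      set e₁ := act (wh z (pr z y')) e with he₁
      have hlev : capC e (pr z y') = cnt e z.1 := by rw [hcap2, hcnt _ hz2]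
      have hmem₁ : e₁ ∈ orb e := orb_level (orb_refl e) hprz hprz' hlev
      have hO₁ : OMin e₁ := OMin_orb hO hmem₁
      have hc₁ : ∀ i : Fin 3, i ≠ 2 → cnt e₁ i = 2 := by
        intro i hi
        by_cases hiz : i = z.1
        · rw [hiz, he₁, cnt_wh_self e z _ hprz hprz', hcap2]
        · rw [he₁, cnt_wh_ne e z _ hiz, hcnt i hi]
      have hE₂' : e₂ = act σ₁.inv.aut e₁ := by rw [hE₂, act_SPerm_inv]
      have hO₂ : OMin e₂ := by
        rw [hE₂']
        exact OMin_orb hO₁ (orb_SPerm _ _)
      have hperm : ∀ i : Fin 3, i ≠ 2 → σ₁.perm i ≠ 2 := by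
        intro i hi h
        apply hi
        apply σ₁.perm.injective
        rw [h]
        exact hσ₁.symm
      have hc₂ : ∀ i : Fin 3, i ≠ 2 → cnt e₂ i = 2 := by
        intro i hi
        rw [← cnt_SPerm σ₁ e₂ i, ← hE₂]
        exact hc₁ _ (hperm i hi)
      -- the second slide
      have hmono := act_wh_mono z (pr z y') A (by
        intro x hx
        have : x = z ∨ x = y' := by simpa [pr] using hx
        rcases this with h | h
        · rw [h]; exact hz
        · rw [h]; exact hay1) e
      have hset : (fun x => (A x && !pr z y' x) || decide (x = z)) = pr z (bar y') := by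
        apply cut_ext hz2 hy'2 hy'z
        · simp [pr]
        · have e1 : bar z ≠ z := bar_ne z
          have e2 : bar z ≠ bar y' := fst_ne (by simpa using hy'z.symm)
          simp [pr, e1, e2, hz']
        · have e1 : y' ≠ z := hzy'.symm
          have e2 : y' ≠ bar y' := (bar_ne y').symm
          simp [pr, e1, e2]
        · have e1 : bar y' ≠ z := fst_ne (by simpa using hy'z)
          have e2 : bar y' ≠ y' := bar_ne y'
          simp [pr, e1, e2, hay2]
        · have e1 : ((2, true) : Fin 3 × Bool) ≠ z := fst_ne (fun h => hz2 h.symm)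
          have e2 : ((2, true) : Fin 3 × Bool) ≠ bar y' := fst_ne (fun h => hy'2 h.symm)
          simp [pr, e1, e2, hA1]
        · have e1 : ((2, false) : Fin 3 × Bool) ≠ z := fst_ne (fun h => hz2 h.symm)
          have e2 : ((2, false) : Fin 3 × Bool) ≠ bar y' := fst_ne (fun h => hy'2 h.symm)
          simp [pr, e1, e2, hA2]
      rw [hset, ← he₁] at hmono
      have hb2 : (bar y').1 ≠ 2 := by simpa using hy'2
      have hbz : (bar y').1 ≠ z.1 := by simpa using hy'z
      have hqz : pr z (bar y') z = true := by simp [pr]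
      have hqz' : pr z (bar y') (bar z) = false := by
        have e1 : bar z ≠ z := bar_ne z
        have e2 : bar z ≠ bar y' := fst_ne (by simpa using hy'z.symm)
        simp [pr, e1, e2]
      have hcap₁ : capC e₁ (pr z (bar y')) = 2 := by
        have l1 := cycLen_wh e z A hz hz'
        have l2 := cycLen_wh e z (pr z y') hprz hprz'
        have l3 := cycLen_wh e₁ z (pr z (bar y')) hqz hqz'
        rw [← hmono] at l3
        rw [← he₁] at l2
        rw [hcnt _ hz2] at l1 l2
        rw [hc₁ _ hz2] at l3
        omega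
      set z' := σ₁.inv.letter z with hz'def
      set y'' := σ₁.inv.letter (bar y') with hy''def
      have hlz : σ₁.letter z' = z := SPerm.letter_inv σ₁ z
      have hly : σ₁.letter y'' = bar y' := SPerm.letter_inv σ₁ (bar y')
      have hfz : σ₁.perm z'.1 = z.1 := congrArg Prod.fst hlz
      have hfy : σ₁.perm y''.1 = (bar y').1 := congrArg Prod.fst hly
      have hpull : (fun x => pr z (bar y') (σ₁.letter x)) = pr z' y'' := by
        funext x
        have e1 : decide (σ₁.letter x = z) = decide (x = z') := by
          apply decide_eq_decide.2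
          constructor
          · intro h; apply letter_inj σ₁; rw [h, hlz]
          · intro h; rw [h, hlz]
        have e2 : decide (σ₁.letter x = bar y') = decide (x = y'') := by
          apply decide_eq_decide.2
          constructor
          · intro h; apply letter_inj σ₁; rw [h, hly]
          · intro h; rw [h, hly]
        simp only [pr, e1, e2]
      have hcap₂ : capC e₂ (pr z' y'') = 2 := by
        have := capC_SPerm σ₁ e₂ (pr z (bar y'))
        rw [← hE₂, hpull, hcap₁] at this
        exact this.symm
      have hz'2 : z'.1 ≠ 2 := by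
        intro h
        rw [h] at hfz
        exact hz2 (by rw [← hfz]; exact hσ₁)
      have hy''2 : y''.1 ≠ 2 := by
        intro h
        rw [h] at hfy
        exact hb2 (by rw [← hfy]; exact hσ₁)
      have hyz'' : y''.1 ≠ z'.1 := by
        intro h
        apply hbz
        rw [← hfy, ← hfz, h]
      obtain ⟨σ₂, -, e₃, he₃, hE₃⟩ := hslide e₂ he₂ hO₂ (hc₂ 0 (by decide)) (hc₂ 1 (by decide)) z' y''
        hz'2 hy''2 hyz'' hcap₂
      have hconj := act_wh_SPerm σ₁ z' (pr z (bar y')) e₂
      rw [hlz, hpull, ← hE₂, hE₃] at hconj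
      obtain ⟨π, hπ, -, -, -⟩ := SPerm_mul σ₁ σ₂
      refine ⟨π, e₃, he₃, ?_⟩
      rw [hmono, hconj, hπ]
    · exact hpair y hy2 hyz hay (by simpa using hay')
  · by_cases hay' : A (bar y) = true
    · exact hpair (bar y) (by simpa using hy2) (by simpa using hyz) hay'
        (by rw [bar_bar]; simpa using hay)
    · -- `A = {z}`
      have hid : wh z A = MulEquiv.refl _ := by
        apply Rel_ext
        intro i
        refine ⟨true, ?_⟩
        by_cases hi : i = z.1
        · rw [Rel_wh_self' z A (x := (i, true)) hi]; rfl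
        · rw [wh_lett_ne z A (x := (i, true)) hi]
          have hf : ∀ x : Fin 3 × Bool, x.1 ≠ z.1 → A x = false := by
            intro x hx
            rcases letters6 z y x hz2 hy2 hyz with h | h | h | h | h | h
            · exact absurd (by rw [h]) hx
            · exact absurd (by rw [h]; rfl) hx
            · rw [h]; simpa using hay
            · rw [h]; simpa using hay'
            · rw [h]; exact hA1
            · rw [h]; exact hA2
          rw [hf (i, true) hi, hf (bar (i, true)) hi]
          simp
      obtain ⟨π, hπ, -, -⟩ := exists_SPerm_one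
      exact ⟨π, e, he, by rw [hid, act_refl, hπ]⟩

theorem r2_level (E : Set CC) (hpot : ∀ e ∈ E, ∀ p, act (pot 2 p) e ∈ E)
    (hslide : ∀ e ∈ E, OMin e → cnt e 0 = 2 → cnt e 1 = 2 → ∀ z y : Fin 3 × Bool, z.1 ≠ 2 →
      y.1 ≠ 2 → y.1 ≠ z.1 → capC e (pr z y) = 2 →
      ∃ σ : SPerm (Fin 3), Fix2 σ ∧ ∃ e' ∈ E, act (wh z (pr z y)) e = act σ.aut e')
    {e : CC} (he : e ∈ E) (hO : OMin e) (h0 : cnt e 0 = 2) (h1 : cnt e 1 = 2)
    (h2 : 3 ≤ cnt e 2) {z : Fin 3 × Bool} {A : Fin 3 × Bool → Bool} (hz : A z = true)
    (hz' : A (bar z) = false) (hc : capC e A = cnt e z.1) :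
    ∃ σ : SPerm (Fin 3), ∃ e' ∈ E, act (wh z A) e = act σ.aut e' := by
  by_cases hz2 : z.1 = 2
  · obtain ⟨π, hπ, -, -⟩ := exists_SPerm_one
    refine ⟨π, act (wh z A) e, ?_, by rw [hπ]⟩
    have := hpot e he (whp z A)
    unfold wh
    rw [hz2]
    exact this
  · have hcnt : cnt e z.1 = 2 := by
      rcases ne2 z.1 hz2 with h | h
      · rw [h]; exact h0
      · rw [h]; exact h1
    rw [hcnt] at hc
    by_cases hA1 : A (2, true) = true
    · by_cases hA2 : A (2, false) = true
      · -- pass to the complement
        have hcompl := act_wh_compl z A e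
        have := main_case E hslide he hO h0 h1 h2 (z := bar z) (A := fun x => !A x)
          (by simp [hz']) (by simp [hz]) (by rw [capC_compl]; exact hc) (by simpa using hz2)
          (by simp [hA1]) (by simp [hA2])
        rw [hcompl] at this
        exact this
      · exfalso
        have := hO.le_cap (2, true) A hA1 (by simpa [bar] using hA2)
        simp only at this
        omega
    · by_cases hA2 : A (2, false) = true
      · exfalso
        have := hO.le_cap (2, false) A hA2 (by simpa [bar] using hA1)
        simp only at this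
        omega
      · exact main_case E hslide he hO h0 h1 h2 hz hz' hc hz2 (by simpa using hA1)
          (by simpa using hA2)

end Pool.Agent.Sims
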