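import Pool.Agent.Sims.R2A

/-!
# Module `R2Norm` : normal form of classes with `n_a = n_b = 2`

Take a syllable form (`exists_syl`, generator `c = x_2`, `cnt e 0 = 2 > 0`): it has `cnt e 0 + cnt e 1 = 4` letters
(`cntL_expand_ne`), so `e = wd x1 x2 x3 x4 k1 k2 k3 k4` with exactly two letters of the generator `0` and two of the
generator `1`.  By rotation (`wd_rotate`) `x1.1 = 0` and either the letters of the generator `0` are adjacent
(`x1, x2`, and `x3, x4` of the generator `1`) or they alternate.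
By a sign change (`wd_SPerm` with `flp`) `x1 = a`, and `x3 = b` resp. `x2 = b`.
* adjacent: `a a b b`: `W1`; `a a b b⁻¹`: `W4` (reduced: `k3 ≠ 0`); `a a⁻¹ b b`: exchange `a` and `b` and rotate: `W4`;
  `a a⁻¹ b b⁻¹`: `W6` (`k1, k3 ≠ 0`).
* alternating `a b x3 x4`: `x3 = a, x4 = b`: `W5`; `x3 = a, x4 = b⁻¹`: `W2`; `x3 = a⁻¹, x4 = b`: exchange `a, b` and rotate
  (`b a⁻¹ b a ...`): `W2`; `x3 = a⁻¹, x4 = b⁻¹`: `W3`.
(One can also do this by a finite check over the 96 letter patterns.)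
Difficulty 2.
-/

namespace Pool.Agent.Sims

open FreeGroup (of)

/-- sign changes of `a`, `b` -/
private def R2Norm_sN (s t : Bool) : SPerm (Fin 3) := ⟨Equiv.refl _, ![s, t, true]⟩

/-- exchange of `a` and `b` with signs -/
private def R2Norm_sX (s t : Bool) : SPerm (Fin 3) := ⟨Equiv.swap 0 1, ![s, t, true]⟩

private theorem R2Norm_act {σ : SPerm (Fin 3)} (hσ : Fix2 σ) (hs : σ.sign 2 = true)
    {x1 x2 x3 x4 : Fin 3 × Bool}
    (h1 : x1.1 ≠ 2) (h2 : x2.1 ≠ 2) (h3 : x3.1 ≠ 2) (h4 : x4.1 ≠ 2) (k1 k2 k3 k4 : ℤ) :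
    act σ.aut (wd x1 x2 x3 x4 k1 k2 k3 k4) =
      wd (σ.letter x1) (σ.letter x2) (σ.letter x3) (σ.letter x4) k1 k2 k3 k4 := by
  rw [wd_SPerm hσ h1 h2 h3 h4]
  simp [hs]

private theorem R2Norm_fixN (s t : Bool) : Fix2 (R2Norm_sN s t) := rfl

private theorem R2Norm_fixX (s t : Bool) : Fix2 (R2Norm_sX s t) := by
  change Equiv.swap (0 : Fin 3) 1 2 = 2
  decide

private theorem R2Norm_N0 (s t b : Bool) :
    (R2Norm_sN s t).letter (0, b) = (0, if s then b else !b) := rfl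

private theorem R2Norm_N1 (s t b : Bool) :
    (R2Norm_sN s t).letter (1, b) = (1, if t then b else !b) := rfl

private theorem R2Norm_X0 (s t b : Bool) :
    (R2Norm_sX s t).letter (0, b) = (1, if s then b else !b) := rfl

private theorem R2Norm_X1 (s t b : Bool) :
    (R2Norm_sX s t).letter (1, b) = (0, if t then b else !b) := rfl

/-- the conclusion -/
private def R2Norm_C (e : CC) : Prop :=
    ∃ σ : SPerm (Fin 3), Fix2 σ ∧ ∃ k1 k2 k3 k4 : ℤ,
      (e = act σ.aut (W1 k1 k2 k3 k4) ∨ e = act σ.aut (W2 k1 k2 k3 k4) ∨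
        e = act σ.aut (W3 k1 k2 k3 k4) ∨ (e = act σ.aut (W4 k1 k2 k3 k4) ∧ k3 ≠ 0) ∨
        e = act σ.aut (W5 k1 k2 k3 k4) ∨
        (e = act σ.aut (W6 k1 k2 k3 k4) ∧ k1 ≠ 0 ∧ k3 ≠ 0))

private theorem R2Norm_adj (s1 s2 s3 s4 : Bool) (k1 k2 k3 k4 : ℤ) (h1 : s2 ≠ s1 → k1 ≠ 0)
    (h3 : s4 ≠ s3 → k3 ≠ 0) :
    R2Norm_C (wd (0, s1) (0, s2) (1, s3) (1, s4) k1 k2 k3 k4) := by
  by_cases h12 : s2 = s1
  · by_cases h34 : s4 = s3
    · subst h12 h34
      refine ⟨R2Norm_sN s2 s4, R2Norm_fixN _ _, k1, -k2, k3, -k4, Or.inl ?_⟩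
      rw [W1, R2Norm_act (R2Norm_fixN _ _) rfl (by decide) (by decide) (by decide) (by decide),
        R2Norm_N0, R2Norm_N1, neg_neg, neg_neg]
      cases s2 <;> cases s4 <;> rfl
    · have hs : s4 = !s3 := by cases s3 <;> cases s4 <;> simp_all
      subst h12 hs
      refine ⟨R2Norm_sN s2 s3, R2Norm_fixN _ _, k1, -k2, k3, -k4,
        Or.inr (Or.inr (Or.inr (Or.inl ⟨?_, h3 h34⟩)))⟩
      rw [W4, R2Norm_act (R2Norm_fixN _ _) rfl (by decide) (by decide) (by decide) (by decide),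
        R2Norm_N0, R2Norm_N1, R2Norm_N1, neg_neg, neg_neg]
      cases s2 <;> cases s3 <;> rfl
  · have hs : s2 = !s1 := by cases s1 <;> cases s2 <;> simp_all
    by_cases h34 : s4 = s3
    · subst hs h34
      refine ⟨R2Norm_sX s4 s1, R2Norm_fixX _ _, k3, -k4, k1, -k2,
        Or.inr (Or.inr (Or.inr (Or.inl ⟨?_, h1 h12⟩)))⟩
      rw [W4, R2Norm_act (R2Norm_fixX _ _) rfl (by decide) (by decide) (by decide) (by decide),
        R2Norm_X0, R2Norm_X1, R2Norm_X1, neg_neg, neg_neg, wd_rotate, wd_rotate]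
      cases s1 <;> cases s4 <;> rfl
    · have hs' : s4 = !s3 := by cases s3 <;> cases s4 <;> simp_all
      subst hs hs'
      refine ⟨R2Norm_sN s1 s3, R2Norm_fixN _ _, k1, k2, k3, k4,
        Or.inr (Or.inr (Or.inr (Or.inr (Or.inr ⟨?_, h1 h12, h3 h34⟩))))⟩
      rw [W6, R2Norm_act (R2Norm_fixN _ _) rfl (by decide) (by decide) (by decide) (by decide),
        R2Norm_N0, R2Norm_N0, R2Norm_N1, R2Norm_N1]
      cases s1 <;> cases s3 <;> rfl

private theorem R2Norm_alt (s1 s2 s3 s4 : Bool) (k1 k2 k3 k4 : ℤ) :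
    R2Norm_C (wd (0, s1) (1, s2) (0, s3) (1, s4) k1 k2 k3 k4) := by
  by_cases h13 : s3 = s1
  · by_cases h24 : s4 = s2
    · subst h13 h24
      refine ⟨R2Norm_sN s3 s4, R2Norm_fixN _ _, k1, k2, -k3, -k4,
        Or.inr (Or.inr (Or.inr (Or.inr (Or.inl ?_))))⟩
      rw [W5, R2Norm_act (R2Norm_fixN _ _) rfl (by decide) (by decide) (by decide) (by decide),
        R2Norm_N0, R2Norm_N1, neg_neg, neg_neg]
      cases s3 <;> cases s4 <;> rfl
    · have hs : s4 = !s2 := by cases s2 <;> cases s4 <;> simp_all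
      subst h13 hs
      refine ⟨R2Norm_sN s3 s2, R2Norm_fixN _ _, k1, -k2, -k3, k4, Or.inr (Or.inl ?_)⟩
      rw [W2, R2Norm_act (R2Norm_fixN _ _) rfl (by decide) (by decide) (by decide) (by decide),
        R2Norm_N0, R2Norm_N1, R2Norm_N1, neg_neg, neg_neg]
      cases s3 <;> cases s2 <;> rfl
  · have hs : s3 = !s1 := by cases s1 <;> cases s3 <;> simp_all
    by_cases h24 : s4 = s2
    · subst hs h24
      refine ⟨R2Norm_sX s4 (!s1), R2Norm_fixX _ _, k2, -k3, -k4, k1, Or.inr (Or.inl ?_)⟩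
      rw [W2, R2Norm_act (R2Norm_fixX _ _) rfl (by decide) (by decide) (by decide) (by decide),
        R2Norm_X0, R2Norm_X1, R2Norm_X1, neg_neg, neg_neg, wd_rotate]
      cases s1 <;> cases s4 <;> rfl
    · have hs' : s4 = !s2 := by cases s2 <;> cases s4 <;> simp_all
      subst hs hs'
      refine ⟨R2Norm_sN s1 s2, R2Norm_fixN _ _, k1, k2, k3, k4, Or.inr (Or.inr (Or.inl ?_))⟩
      rw [W3, R2Norm_act (R2Norm_fixN _ _) rfl (by decide) (by decide) (by decide) (by decide),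
        R2Norm_N0, R2Norm_N0, R2Norm_N1, R2Norm_N1]
      cases s1 <;> cases s2 <;> rfl

private theorem R2Norm_len : ∀ (l : List (Fin 3 × Bool)), (∀ x ∈ l, x.1 ≠ 2) →
    l.length = cntL l 0 + cntL l 1 := by
  intro l
  induction l with
  | nil => intro _; rfl
  | cons x l ih =>
    intro h
    have h1 := ih (fun y hy => h y (List.mem_cons_of_mem _ hy))
    have h2 := h x List.mem_cons_self
    unfold cntL at *
    rw [List.length_cons, List.countP_cons, List.countP_cons, h1]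
    rcases x with ⟨i, b⟩
    have h3 : i ≠ 2 := h2
    fin_cases i
    · simp; omega
    · simp; omega
    · exact absurd rfl h3

theorem r2_norm {e : CC} (h0 : cnt e 0 = 2) (h1 : cnt e 1 = 2) :
    ∃ σ : SPerm (Fin 3), Fix2 σ ∧ ∃ k1 k2 k3 k4 : ℤ,
      (e = act σ.aut (W1 k1 k2 k3 k4) ∨ e = act σ.aut (W2 k1 k2 k3 k4) ∨
        e = act σ.aut (W3 k1 k2 k3 k4) ∨ (e = act σ.aut (W4 k1 k2 k3 k4) ∧ k3 ≠ 0) ∨
        e = act σ.aut (W5 k1 k2 k3 k4) ∨
        (e = act σ.aut (W6 k1 k2 k3 k4) ∧ k1 ≠ 0 ∧ k3 ≠ 0)) := by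
  change R2Norm_C e
  obtain ⟨s, -, hs, rfl⟩ := exists_syl 2 e ⟨0, by decide, by omega⟩
  rw [cnt_cls hs.2, cntL_expand_ne 2 s (by decide)] at h0 h1
  have hlen : s.length = 4 := by
    have := R2Norm_len (s.map Prod.fst) (fun x hx => by
      obtain ⟨q, hq, rfl⟩ := List.mem_map.1 hx
      exact hs.1 q hq)
    rw [List.length_map, h0, h1] at this
    exact this
  match s, hlen with
  | [(x1, k1), (x2, k2), (x3, k3), (x4, k4)], _ =>
    have hv := (SValid_iff 2 _ hs.1).1 hs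
    have hx1 := hs.1 (x1, k1) (by simp)
    have hx2 := hs.1 (x2, k2) (by simp)
    have hx3 := hs.1 (x3, k3) (by simp)
    have hx4 := hs.1 (x4, k4) (by simp)
    simp only [cyc, lin] at hv
    have hv1 : ¬ (x2 = bar x1 ∧ k1 = 0) := by intro h; rw [if_pos h] at hv; omega
    have hv2 : ¬ (x3 = bar x2 ∧ k2 = 0) := by intro h; rw [if_pos h] at hv; omega
    have hv3 : ¬ (x4 = bar x3 ∧ k3 = 0) := by intro h; rw [if_pos h] at hv; omega
    have hv4 : ¬ (x1 = bar x4 ∧ k4 = 0) := by intro h; rw [if_pos h] at hv; omega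
    change R2Norm_C (wd x1 x2 x3 x4 k1 k2 k3 k4)
    have hb : ∀ (i : Fin 3) (s s' : Bool) (k : ℤ), ¬ (((i, s') : Fin 3 × Bool) = bar (i, s) ∧ k = 0) →
        s' ≠ s → k ≠ 0 := by
      intro i s s' k h h' hk
      apply h
      refine ⟨?_, hk⟩
      cases s <;> cases s' <;> first | rfl | exact absurd rfl h'
    rcases x1 with ⟨i1, s1⟩
    rcases x2 with ⟨i2, s2⟩
    rcases x3 with ⟨i3, s3⟩
    rcases x4 with ⟨i4, s4⟩
    have h01 : ∀ i : Fin 3, i ≠ 2 → i = 0 ∨ i = 1 := by decide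
    have hc : (if i1 = 0 then 1 else 0) + (if i2 = 0 then 1 else 0) + (if i3 = 0 then 1 else 0) +
        (if i4 = 0 then 1 else 0) = 2 := by
      simp only [List.map_cons, List.map_nil, cntL, List.countP_cons, List.countP_nil,
        decide_eq_true_eq] at h0
      omega
    rcases h01 i1 hx1 with rfl | rfl <;> rcases h01 i2 hx2 with rfl | rfl <;>
      rcases h01 i3 hx3 with rfl | rfl <;> rcases h01 i4 hx4 with rfl | rfl <;>
      first
      | (exfalso; revert hc; decide)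
      | exact R2Norm_adj s1 s2 s3 s4 k1 k2 k3 k4 (hb _ _ _ _ hv1) (hb _ _ _ _ hv3)
      | exact R2Norm_alt s1 s2 s3 s4 k1 k2 k3 k4
      | (rw [wd_rotate]; exact R2Norm_adj s2 s3 s4 s1 k2 k3 k4 k1 (hb _ _ _ _ hv2) (hb _ _ _ _ hv4))
      | (rw [wd_rotate]; exact R2Norm_alt s2 s3 s4 s1 k2 k3 k4 k1)
      | (rw [wd_rotate, wd_rotate]
         exact R2Norm_adj s3 s4 s1 s2 k3 k4 k1 k2 (hb _ _ _ _ hv3) (hb _ _ _ _ hv1))
      | (rw [wd_rotate, wd_rotate, wd_rotate]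
         exact R2Norm_adj s4 s1 s2 s3 k4 k1 k2 k3 (hb _ _ _ _ hv4) (hb _ _ _ _ hv2))

end Pool.Agent.Sims
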