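import Pool.Agent.Sims.R2Z
import Pool.Agent.Sims.R2Cut
import Pool.Agent.Sims.R2Cnt
import Pool.Agent.Sims.R2Norm

/-!
# Module `R2` : two generators occurring exactly twice

`c` orbit-minimal, `cnt c 0 = cnt c 1 = 2`, `m = cycLen c ≥ 11`, `K = cnt c 2 = m - 4 ≥ 7` (`cycLen_eq_sum`).
By `r2_norm` `c = act σ e₀` with `Fix2 σ`, `e₀` one of `W1 … W6`.  `e₀ ∈ orb c`, `OMin e₀`, same counts.
* `e₀ = W1, W2, W3`: `κ := k1+k2+k3+k4`, `|κ| = K` (`min_W1` …).  If `κ = -K` apply the sign change of `c`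
  (`wd_SPerm`), it maps `Wi k` to `Wi (-k)`; so we may assume `κ = K`, `e₀ ∈ Z1 K`.  `E = Z1 K`,
  `E'` from `cnt_Z1`: `3 (K+3 choose 3) = (K+3)(K+2)(K+1)/2 ≤ (K+3)(K+2)(K-3) = F3 m` for `K ≥ 7`.
* `e₀ = W4, W5`: `E = Z2 p q` with `p, q` the invariants; `4 (K+2)² ≤ F3 m` for `K ≥ 7`.
* `e₀ = W6`: `E = Z3 …`; `48 (K-1) ≤ F3 m` for `K ≥ 7`.
In each case apply `Bdd_of_closed`.  For `e ∈ E ∩ orb c`: `OMin e`; by `cnt_orb` the counts of `e` are a permutation of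
`(2, 2, K)` and by `Z_cnt_le` `cnt e 0, cnt e 1 ≤ 2`, so `cnt e 0 = cnt e 1 = 2`, `cnt e 2 = K ≥ 3`; closedness is `r2_level`
with `Z_pot`, `Z_slide`.  Then `Bdd_orb`, `Bdd_mono`.
Difficulty 2.
-/

namespace Pool.Agent.Sims

open FreeGroup (of)

theorem R2_cnt {c e : CC} (h : OMin c) (h0 : cnt c 0 = 2) (h1 : cnt c 1 = 2) (hK : 7 ≤ cnt c 2)
    (he : e ∈ orb c) (hle : cnt e 0 ≤ 2 ∧ cnt e 1 ≤ 2) :
    cnt e 0 = 2 ∧ cnt e 1 = 2 ∧ cnt e 2 = cnt c 2 := by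
  obtain ⟨p, hp⟩ := cnt_orb h he
  have key : ∀ i : Fin 3, cnt e i ≤ 2 → cnt e i = 2 := by
    intro i hi
    have h3 := hp i
    have h4 : ∀ j : Fin 3, j = 0 ∨ j = 1 ∨ j = 2 := by decide
    rcases h4 (p i) with h5 | h5 | h5
    · rw [h3, h5, h0]
    · rw [h3, h5, h1]
    · rw [h5] at h3
      omega
  have e0 := key 0 hle.1
  have e1 := key 1 hle.2
  refine ⟨e0, e1, ?_⟩
  have h5 := he.2
  rw [cycLen_eq_sum, cycLen_eq_sum, Fin.sum_univ_three, Fin.sum_univ_three, e0, e1, h0, h1] at h5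
  omega

theorem R2_main {c : CC} (h : OMin c) (h0 : cnt c 0 = 2) (h1 : cnt c 1 = 2) (hK : 7 ≤ cnt c 2)
    (E : Set CC) (E' : Finset CC) (hle : ∀ e ∈ E, cnt e 0 ≤ 2 ∧ cnt e 1 ≤ 2)
    (hE' : ∀ e ∈ E, OMin e → cnt e 0 = 2 → cnt e 1 = 2 → cnt e 2 = cnt c 2 → e ∈ E')
    (hc0 : ∃ σ : SPerm (Fin 3), ∃ e ∈ E, c = act σ.aut e)
    (hpot : ∀ e ∈ E, ∀ p, act (pot 2 p) e ∈ E)
    (hslide : ∀ e ∈ E, OMin e → cnt e 0 = 2 → cnt e 1 = 2 → ∀ z y : Fin 3 × Bool, z.1 ≠ 2 →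
      y.1 ≠ 2 → y.1 ≠ z.1 → capC e (pr z y) = 2 →
      ∃ σ : SPerm (Fin 3), Fix2 σ ∧ ∃ e' ∈ E, act (wh z (pr z y)) e = act σ.aut e') :
    Bdd c E'.card := by
  refine Bdd_of_closed h E E' ?_ hc0 ?_
  · intro e he heo
    obtain ⟨a0, a1, a2⟩ := R2_cnt h h0 h1 hK heo (hle e he)
    exact hE' e he (OMin_orb h heo) a0 a1 a2
  · intro e he heo z A hz hz' hcap
    obtain ⟨a0, a1, a2⟩ := R2_cnt h h0 h1 hK heo (hle e he)
    exact r2_level E hpot hslide he (OMin_orb h heo) a0 a1 (by omega) hz hz' hcap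

theorem R2_main1 {c : CC} (h : OMin c) (h0 : cnt c 0 = 2) (h1 : cnt c 1 = 2) (hK : 7 ≤ cnt c 2)
    (hc0 : ∃ σ : SPerm (Fin 3), ∃ e ∈ Z1 (cnt c 2), c = act σ.aut e) :
    Bdd c (3 * (cnt c 2 + 3).choose 3) := by
  obtain ⟨E', hcard, hE'⟩ := cnt_Z1 (K := cnt c 2) (by omega)
  refine Bdd_mono (R2_main h h0 h1 hK (Z1 (cnt c 2)) E' ?_ ?_ hc0 ?_ ?_) hcard
  · intro e he
    exact Z_cnt_le (Or.inl ⟨_, he⟩)
  · intro e he hO _ _ _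
    exact hE' e he hO
  · intro e he p
    exact Z1_pot he p
  · intro e he _ _ _ z y hz hy hzy hc
    exact Z1_slide he hz hy hzy hc

theorem R2_main2 {c : CC} (h : OMin c) (h0 : cnt c 0 = 2) (h1 : cnt c 1 = 2) (hK : 7 ≤ cnt c 2)
    (p q : ℕ) (hc0 : ∃ σ : SPerm (Fin 3), ∃ e ∈ Z2 p q, c = act σ.aut e) :
    Bdd c (4 * (cnt c 2 + 2) ^ 2) := by
  obtain ⟨E', hcard, hE'⟩ := cnt_Z2 p q (cnt c 2)
  refine Bdd_mono (R2_main h h0 h1 hK (Z2 p q) E' ?_ ?_ hc0 ?_ ?_) hcard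
  · intro e he
    exact Z_cnt_le (Or.inr (Or.inl ⟨_, _, he⟩))
  · intro e he hO a0 a1 a2
    exact hE' e he hO a0 a1 a2
  · intro e he p
    exact Z2_pot he p
  · intro e he _ _ a1 z y hz hy hzy hc
    exact Z2_slide he a1 hz hy hzy hc

theorem R2_main3 {c : CC} (h : OMin c) (h0 : cnt c 0 = 2) (h1 : cnt c 1 = 2) (hK : 7 ≤ cnt c 2)
    (p q r : ℕ) (hc0 : ∃ σ : SPerm (Fin 3), ∃ e ∈ Z3 p q r, c = act σ.aut e) :
    Bdd c (48 * (cnt c 2 - 1)) := by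
  obtain ⟨E', hcard, hE'⟩ := cnt_Z3 p q r (cnt c 2) (by omega)
  refine Bdd_mono (R2_main h h0 h1 hK (Z3 p q r) E' ?_ ?_ hc0 ?_ ?_) hcard
  · intro e he
    exact Z_cnt_le (Or.inr (Or.inr ⟨_, _, _, he⟩))
  · intro e he hO a0 a1 a2
    exact hE' e he hO a0 a1 a2
  · intro e he p
    exact Z3_pot he p
  · intro e he _ a0 a1 z y hz hy hzy hc
    exact Z3_slide he a0 a1 hz hy hzy hc

/-- the sign change of `c` -/
def R2_s : Fin 3 → Bool := fun i => !decide (i = 2)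

theorem R2_flip (x1 x2 x3 x4 : Fin 3 × Bool) (h1 : x1.1 ≠ 2) (h2 : x2.1 ≠ 2) (h3 : x3.1 ≠ 2)
    (h4 : x4.1 ≠ 2) (k1 k2 k3 k4 : ℤ) :
    wd x1 x2 x3 x4 k1 k2 k3 k4 = act (flp R2_s).aut (wd x1 x2 x3 x4 (-k1) (-k2) (-k3) (-k4)) := by
  have hl : ∀ x : Fin 3 × Bool, x.1 ≠ 2 → (flp R2_s).letter x = x := by
    intro x hx
    rcases x with ⟨i, b⟩
    have hi : R2_s i = true := by
      simp only [R2_s, Bool.not_eq_true', decide_eq_false_iff_not]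
      exact hx
    simp [SPerm.letter, flp, hi]
  have hs : (flp R2_s).sign 2 = false := by decide
  rw [wd_SPerm (σ := flp R2_s) rfl h1 h2 h3 h4, hl x1 h1, hl x2 h2, hl x3 h3, hl x4 h4, hs]
  simp

theorem R2_flip1 (k1 k2 k3 k4 : ℤ) :
    W1 k1 k2 k3 k4 = act (flp R2_s).aut (W1 (-k1) (-k2) (-k3) (-k4)) := by
  unfold W1
  rw [R2_flip _ _ _ _ (by decide) (by decide) (by decide) (by decide)]

theorem R2_flip2 (k1 k2 k3 k4 : ℤ) :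
    W2 k1 k2 k3 k4 = act (flp R2_s).aut (W2 (-k1) (-k2) (-k3) (-k4)) := by
  unfold W2
  rw [R2_flip _ _ _ _ (by decide) (by decide) (by decide) (by decide)]

theorem R2_flip3 (k1 k2 k3 k4 : ℤ) :
    W3 k1 k2 k3 k4 = act (flp R2_s).aut (W3 (-k1) (-k2) (-k3) (-k4)) := by
  unfold W3
  rw [R2_flip _ _ _ _ (by decide) (by decide) (by decide) (by decide)]

theorem R2_num1 {K : ℕ} (hK : 7 ≤ K) : 3 * (K + 3).choose 3 ≤ F3 (K + 4) := by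
  obtain ⟨L, rfl⟩ := Nat.exists_eq_add_of_le hK
  have h1 := Nat.descFactorial_eq_factorial_mul_choose (7 + L + 3) 3
  have h2 : (7 + L + 3).descFactorial 3 = (L + 10) * ((L + 9) * (L + 8)) := by
    simp only [Nat.descFactorial]
    rw [show 7 + L + 3 - 2 = L + 8 by omega, show 7 + L + 3 - 1 = L + 9 by omega,
      show 7 + L + 3 - 0 = L + 10 by omega]
    ring
  rw [h2] at h1
  have h3 : Nat.factorial 3 = 6 := by decide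
  rw [h3] at h1
  have h4 : F3 (7 + L + 4) = (L + 10) * (L + 9) * (L + 4) := by
    unfold F3
    rw [show 7 + L + 4 - 1 = L + 10 by omega, show 7 + L + 4 - 2 = L + 9 by omega,
      show 7 + L + 4 - 7 = L + 4 by omega]
  rw [h4]
  nlinarith

theorem R2_num2 {K : ℕ} (hK : 7 ≤ K) : 4 * (K + 2) ^ 2 ≤ F3 (K + 4) := by
  obtain ⟨L, rfl⟩ := Nat.exists_eq_add_of_le hK
  have h4 : F3 (7 + L + 4) = (L + 10) * (L + 9) * (L + 4) := by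
    unfold F3
    rw [show 7 + L + 4 - 1 = L + 10 by omega, show 7 + L + 4 - 2 = L + 9 by omega,
      show 7 + L + 4 - 7 = L + 4 by omega]
  rw [h4]
  have : 4 * (7 + L + 2) ^ 2 + (L + 9) * (L * L + 10 * L + 4) = (L + 10) * (L + 9) * (L + 4) := by
    ring
  omega

theorem R2_num3 {K : ℕ} (hK : 7 ≤ K) : 48 * (K - 1) ≤ F3 (K + 4) := by
  obtain ⟨L, rfl⟩ := Nat.exists_eq_add_of_le hK
  have h4 : F3 (7 + L + 4) = (L + 10) * (L + 9) * (L + 4) := by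
    unfold F3
    rw [show 7 + L + 4 - 1 = L + 10 by omega, show 7 + L + 4 - 2 = L + 9 by omega,
      show 7 + L + 4 - 7 = L + 4 by omega]
  rw [h4, show 7 + L - 1 = L + 6 by omega]
  have : 48 * (L + 6) + (L * L * L + 23 * L * L + 118 * L + 72) = (L + 10) * (L + 9) * (L + 4) := by
    ring
  omega

theorem r2 {c : CC} (h : OMin c) (hm : 11 ≤ cycLen c) (h0 : cnt c 0 = 2) (h1 : cnt c 1 = 2) :
    Bdd c (F3 (cycLen c)) := by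
  have hlen : cycLen c = cnt c 2 + 4 := by
    rw [cycLen_eq_sum, Fin.sum_univ_three, h0, h1]
    omega
  have hK : 7 ≤ cnt c 2 := by omega
  rw [hlen]
  obtain ⟨σ, hσ, k1, k2, k3, k4, hW⟩ := r2_norm h0 h1
  have hO : ∀ e : CC, c = act σ.aut e → OMin e ∧ cnt e 2 = cnt c 2 := by
    intro e he
    have h2 : e = act σ.inv.aut c := by rw [he, act_SPerm_inv]
    constructor
    · rw [h2]
      exact OMin_orb h (orb_SPerm _ _)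
    · have h3 := cnt_SPerm σ e 2
      rw [← he] at h3
      unfold Fix2 at hσ
      rw [hσ] at h3
      exact h3.symm
  have hZ1 : ∀ e e' : CC, c = act σ.aut e → e = act (flp R2_s).aut e' → e' ∈ Z1 (cnt c 2) →
      ∃ σ : SPerm (Fin 3), ∃ e ∈ Z1 (cnt c 2), c = act σ.aut e := by
    intro e e' he he' hz
    obtain ⟨π, hπ, _⟩ := SPerm_mul σ (flp R2_s)
    exact ⟨π, e', hz, by rw [← hπ, ← he', ← he]⟩
  rcases hW with hc | hc | hc | ⟨hc, hk3⟩ | hc | ⟨hc, hk1, hk3⟩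
  · refine Bdd_mono (R2_main1 h h0 h1 hK ?_) (R2_num1 hK)
    obtain ⟨hO1, hc2⟩ := hO _ hc
    have hmin := (min_W1 hO1).2
    rcases Int.natAbs_eq (k1 + k2 + k3 + k4) with hs | hs
    · exact ⟨σ, _, ⟨k1, k2, k3, k4, by omega, Or.inl rfl⟩, hc⟩
    · exact hZ1 _ _ hc (R2_flip1 k1 k2 k3 k4) ⟨_, _, _, _, by omega, Or.inl rfl⟩
  · refine Bdd_mono (R2_main1 h h0 h1 hK ?_) (R2_num1 hK)
    obtain ⟨hO1, hc2⟩ := hO _ hc
    have hmin := (min_W2 hO1).2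
    rcases Int.natAbs_eq (k1 + k2 + k3 + k4) with hs | hs
    · exact ⟨σ, _, ⟨k1, k2, k3, k4, by omega, Or.inr (Or.inl rfl)⟩, hc⟩
    · exact hZ1 _ _ hc (R2_flip2 k1 k2 k3 k4) ⟨_, _, _, _, by omega, Or.inr (Or.inl rfl)⟩
  · refine Bdd_mono (R2_main1 h h0 h1 hK ?_) (R2_num1 hK)
    obtain ⟨hO1, hc2⟩ := hO _ hc
    have hmin := (min_W3 hO1).2
    rcases Int.natAbs_eq (k1 + k2 + k3 + k4) with hs | hs
    · exact ⟨σ, _, ⟨k1, k2, k3, k4, by omega, Or.inr (Or.inr rfl)⟩, hc⟩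
    · exact hZ1 _ _ hc (R2_flip3 k1 k2 k3 k4) ⟨_, _, _, _, by omega, Or.inr (Or.inr rfl)⟩
  · refine Bdd_mono (R2_main2 h h0 h1 hK (k1 + k2 + k4).natAbs k3.natAbs ?_) (R2_num2 hK)
    exact ⟨σ, _, ⟨k1, k2, k3, k4, Or.inl ⟨rfl, Or.inl ⟨rfl, rfl⟩⟩⟩, hc⟩
  · refine Bdd_mono (R2_main2 h h0 h1 hK (k1 + k3).natAbs (k2 + k4).natAbs ?_) (R2_num2 hK)
    exact ⟨σ, _, ⟨k1, k2, k3, k4, Or.inr ⟨rfl, Or.inl ⟨rfl, rfl⟩⟩⟩, hc⟩
  · refine Bdd_mono (R2_main3 h h0 h1 hK (k2 + k4).natAbs k1.natAbs k3.natAbs ?_) (R2_num3 hK)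
    exact ⟨σ, _, ⟨k1, k2, k3, k4, rfl, rfl⟩, hc⟩

end Pool.Agent.Sims
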