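import Pool.Agent.Sims.TClosed
import Pool.Agent.Sims.BddM
import Pool.Agent.Sims.EdgeM

/-!
# Module `SmallF2` : classes without letters `a^{±1}`

Let `c` be orbit-minimal, `cnt c 0 = 0`, `2 ≤ n_b = cnt c 1 ≤ n_c = cnt c 2`, `m = cycLen c = n_b + n_c ≥ 6`.  Take `𝒬` from
`tclosed2` for `Q = [c]`, `E = {R | [R] ∈ 𝒬}`, `E'` the corresponding finset (image of `𝒬` under the head, at most
`card 𝒬 ≤ m - 1` elements), and apply `Bdd_of_closed`.  Let `R ∈ E ∩ orb c` (so `R` is orbit-minimal, `OMin_orb`),
`(z, A)` a level move.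
* `z.1 = 0`: `capC R A = cnt R 0 = 0`.  If `A` separates `b` from `b⁻¹` then `capC R A ≥ n_b ≥ 2` (`OMin.le_cap` with
  multiplier `b` or `b⁻¹`), same for `c`: impossible.  So `A` contains both or none of `b^{±1}`, of `c^{±1}`.  None or
  all four: `wh z A` fixes or conjugates `⟨b,c⟩` (by `z`), so `act (wh z A) R = R`.  Exactly one pair: the capacity of
  `A` for the word of `R` (which has no letters `a^{±1}`) is that of `{b, b⁻¹}`, so it is positive by
  `cap_pair_zero`: contradiction.
* `z.1 ≠ 0`: `tmove` gives `φ ∈ {1, tau^{±1}, sig^{±1}}` with `act (wh z A) R = act φ R`.  `φ = 1`: clear.  Otherwise the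
  move being level says `cnt (act φ R) z.1 = cnt R z.1` (`cnt_wh_self`), i.e. `TStep [R] [act φ R]`.  `TMin [R]` follows
  from `OMin R` (`cycLen_eq_sum`, `cnt_tau`).  So `[act φ R] = tact σ [R'']`.
Difficulty 2.
-/

namespace Pool.Agent.Sims

open FreeGroup (of)

theorem SmallF2_lin_congr {β : Type*} {f g : β → β → ℕ} (x : β) (l : List β) (z : β)
    (h : ∀ a ∈ x :: l, ∀ b ∈ z :: l, f a b = g a b) : lin f x l z = lin g x l z := by
  induction l generalizing x with
  | nil => exact h x (by simp) z (by simp)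
  | cons y l ih =>
    change f x y + lin f y l z = g x y + lin g y l z
    rw [h x (by simp) y (by simp), ih y]
    intro a ha b hb
    apply h a (List.mem_cons_of_mem _ ha) b
    rcases List.mem_cons.mp hb with rfl | hb
    · simp
    · exact List.mem_cons_of_mem _ (List.mem_cons_of_mem _ hb)

theorem SmallF2_cyc_congr {β : Type*} {f g : β → β → ℕ} (l : List β)
    (h : ∀ a ∈ l, ∀ b ∈ l, f a b = g a b) : cyc f l = cyc g l := by
  cases l with
  | nil => rfl
  | cons x l => exact SmallF2_lin_congr x l x h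

theorem SmallF2_cap_congr {R : CC} (hR : cnt R 0 = 0) {A B : Fin 3 × Bool → Bool}
    (h : ∀ x, x.1 ≠ 0 → A x = B x) : capC R A = capC R B := by
  have h0 : ∀ x ∈ rep R, x.1 ≠ 0 := by
    intro x hx hx0
    rw [cnt, cntL, List.countP_eq_zero] at hR
    exact hR x hx (by simp [hx0])
  unfold capC cap
  apply SmallF2_cyc_congr
  intro a ha b hb
  have e1 := h a (h0 a ha)
  have e2 := h (bar b) (h0 b hb)
  simp only [e1, e2]

theorem SmallF2_tcnt (R : CC) (i : Fin 3) : tcnt [R] i = cnt R i := by
  simp [tcnt]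

theorem SmallF2_level0 {R : CC} (hmin : OMin R) (h0 : cnt R 0 = 0) (h1 : 2 ≤ cnt R 1)
    (h2 : 2 ≤ cnt R 2) {z : Fin 3 × Bool} {A : Fin 3 × Bool → Bool} (hz0 : z.1 = 0)
    (hcap : capC R A = cnt R z.1) : act (wh z A) R = R := by
  rw [hz0, h0] at hcap
  have sep : ∀ i : Fin 3, 2 ≤ cnt R i → A (i, true) = A (i, false) := by
    intro i hi
    by_contra hne
    rcases Bool.eq_false_or_eq_true (A (i, true)) with ht | ht
    · have hf : A (i, false) = false := by
        rcases Bool.eq_false_or_eq_true (A (i, false)) with h | h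
        · exact absurd (by rw [ht, h]) hne
        · exact h
      have := hmin.le_cap (i, true) A ht hf
      simp only at this
      omega
    · have hf : A (i, false) = true := by
        rcases Bool.eq_false_or_eq_true (A (i, false)) with h | h
        · exact h
        · exact absurd (by rw [ht, h]) hne
      have := hmin.le_cap (i, false) A hf ht
      simp only at this
      omega
  have s1 := sep 1 h1
  have s2 := sep 2 h2
  have n1 : ((1, true) : Fin 3 × Bool).1 ≠ z.1 := by rw [hz0]; simp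
  have n2 : ((2, true) : Fin 3 × Bool).1 ≠ z.1 := by rw [hz0]; simp
  have b1 : bar ((1, true) : Fin 3 × Bool) = (1, false) := rfl
  have b2 : bar ((2, true) : Fin 3 × Bool) = (2, false) := rfl
  have w1 := wh_lett_ne z A n1
  have w2 := wh_lett_ne z A n2
  rw [lett_true, b1, ← s1] at w1
  rw [lett_true, b2, ← s2] at w2
  have hfin : ∀ x : Fin 3 × Bool, x.1 ≠ 0 → x = (1, true) ∨ x = (1, false) ∨ x = (2, true) ∨
      x = (2, false) := by decide
  rcases Bool.eq_false_or_eq_true (A (1, true)) with p | p <;>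
  rcases Bool.eq_false_or_eq_true (A (2, true)) with q | q
  · rw [p] at w1
    rw [q] at w2
    have := act_conj12 (wh z A) (MulEquiv.refl _) (lett z)⁻¹ (R := R)
      (by rw [w1]; simp) (by rw [w2]; simp) h0
    rw [this, act_refl]
  · exfalso
    have e : capC R A = capC R (fun x => decide (x.1 = 1)) := by
      apply SmallF2_cap_congr h0
      intro x hx
      rcases hfin x hx with rfl | rfl | rfl | rfl
      · rw [p]; rfl
      · rw [← s1, p]; rfl
      · rw [q]; rfl
      · rw [← s2, q]; rfl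
    rw [e] at hcap
    rcases cap_pair_zero R 1 hcap with h | h
    · omega
    · have := h 2 (by decide); omega
  · exfalso
    have e : capC R A = capC R (fun x => !decide (x.1 = 1)) := by
      apply SmallF2_cap_congr h0
      intro x hx
      rcases hfin x hx with rfl | rfl | rfl | rfl
      · rw [p]; rfl
      · rw [← s1, p]; rfl
      · rw [q]; rfl
      · rw [← s2, q]; rfl
    rw [e, capC_compl R (fun x => decide (x.1 = 1))] at hcap
    rcases cap_pair_zero R 1 hcap with h | h
    · omega
    · have := h 2 (by decide); omega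
  · rw [p] at w1
    rw [q] at w2
    have := act_conj12 (wh z A) (MulEquiv.refl _) 1 (R := R)
      (by rw [w1]; simp) (by rw [w2]; simp) h0
    rw [this, act_refl]

theorem SmallF2_TMin {R : CC} (hmin : OMin R) : TMin [R] := by
  have key : ∀ ε : ℤ, tcnt [R] 2 ≤ tcnt (tact (tau ε) [R]) 2 := by
    intro ε
    have h1 := hmin (tau ε)
    rw [cycLen_eq_sum, cycLen_eq_sum, Fin.sum_univ_three, Fin.sum_univ_three,
      cnt_tau ε R (i := 0) (by decide), cnt_tau ε R (i := 1) (by decide)] at h1
    have e : tact (tau ε) [R] = [act (tau ε) R] := rfl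
    rw [e, SmallF2_tcnt, SmallF2_tcnt]
    omega
  exact ⟨key 1, key (-1)⟩

theorem small_F2 {c : CC} (h : OMin c) (h0 : cnt c 0 = 0) (h1 : 2 ≤ cnt c 1)
    (h12 : cnt c 1 ≤ cnt c 2) (hm : 6 ≤ cycLen c) : Bdd c (cycLen c - 1) := by
  classical
  have hsum : cycLen c = cnt c 0 + cnt c 1 + cnt c 2 := by
    rw [cycLen_eq_sum, Fin.sum_univ_three]
  have hNo : No0 [c] := by
    intro d hd
    rw [List.mem_singleton] at hd
    rw [hd]; exact h0
  obtain ⟨𝒬, hc, hprop, hcard, hclosed⟩ := tclosed2 (Q := [c]) hNo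
    (by rw [SmallF2_tcnt, SmallF2_tcnt]; exact h12)
    (by rw [SmallF2_tcnt]; exact h1)
    (by rw [SmallF2_tcnt, SmallF2_tcnt]; omega)
  rw [SmallF2_tcnt, SmallF2_tcnt] at hcard
  obtain ⟨π1, hπ1, -, -⟩ := exists_SPerm_one
  have hB := Bdd_of_closed h {R | [R] ∈ 𝒬} (𝒬.image (fun l => l.headD c)) ?_ ?_ ?_
  · refine Bdd_mono hB ?_
    have := Finset.card_image_le (s := 𝒬) (f := fun l : List CC => l.headD c)
    omega
  · intro e he _
    rw [Finset.mem_image]
    exact ⟨[e], he, rfl⟩
  · exact ⟨π1, c, hc, (hπ1 c).symm⟩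
  · intro R hR hRorb z A hz hz' hcap
    have hRmin : OMin R := OMin_orb h hRorb
    obtain ⟨q1, q2, q3, q4⟩ := hprop [R] hR
    rw [SmallF2_tcnt, SmallF2_tcnt] at q3 q4
    have hR0 : cnt R 0 = 0 := q1 R (by simp)
    by_cases hz0 : z.1 = 0
    · refine ⟨π1, R, hR, ?_⟩
      rw [hπ1, SmallF2_level0 hRmin hR0 (by omega) (by omega) hz0 hcap]
    · obtain ⟨φ, hφ, hact⟩ := tmove hz0 A
      have hlev : cnt (act φ R) z.1 = cnt R z.1 := by
        rw [← hact R hR0, cnt_wh_self R z A hz hz', hcap]
      have fin : TStep [R] [act φ R] → ∃ σ : SPerm (Fin 3), ∃ e' ∈ {R | [R] ∈ 𝒬},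
          act (wh z A) R = act σ.aut e' := by
        intro hst
        obtain ⟨σ, -, R'', hR'', heq⟩ := hclosed [R] hR (SmallF2_TMin hRmin) _ hst
        have hlen := (hprop R'' hR'').2.1
        obtain ⟨r, rfl⟩ := List.length_eq_one_iff.mp hlen
        refine ⟨σ, r, hR'', ?_⟩
        rw [hact R hR0]
        have e2 : tact σ.aut [r] = [act σ.aut r] := rfl
        rw [e2] at heq
        exact List.head_eq_of_cons_eq heq
      rcases hφ with rfl | ⟨hz2, hφ⟩ | ⟨hz1, hφ⟩
      · refine ⟨π1, R, hR, ?_⟩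
        rw [hπ1, hact R hR0, act_refl]
      · apply fin
        left
        refine ⟨?_, ?_⟩
        · rcases hφ with rfl | rfl
          · left; rfl
          · right; rfl
        · rw [SmallF2_tcnt, SmallF2_tcnt, ← hz2]; exact hlev
      · apply fin
        right
        refine ⟨?_, ?_⟩
        · rcases hφ with rfl | rfl
          · left; rfl
          · right; rfl
        · rw [SmallF2_tcnt, SmallF2_tcnt, ← hz1]; exact hlev

end Pool.Agent.Sims
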