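import Pool.Agent.Sims.BddM
import Pool.Agent.Sims.EdgeM

/-!
# Module `SmallPow` : powers of a generator

Let `cnt c 0 = cnt c 1 = 0`.  By `exists_pow` (`j = 2`) `c = cls (zpw 2 k)`.  Apply `Bdd_of_closed` with
`E = {c}`: let `(z, A)` be a level move.  If `z.1 = 2`: `act_pot_pow`.  If `z.1 ≠ 2`: `cnt c z.1 = 0` (given), so
`capC c A = 0`; if `A` separates `x_2` from `x_2⁻¹` then `cap_zpw_sep` (for `A` or its complement, `cap` of the
complement is the same: `capC_compl`) gives `k = 0`, `c` is the class of `1` and is fixed by everything;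
otherwise `wh z A` maps `x_2` to `x_2` or to `z⁻¹ x_2 z` (`wh_lett_ne`), so it fixes the class of `x_2^k`
(`mk_zpw`, `act_mk`).
Difficulty 1.
-/

namespace Pool.Agent.Sims

open FreeGroup (of)

theorem small_pow {c : CC} (h : OMin c) (h0 : cnt c 0 = 0) (h1 : cnt c 1 = 0) : Bdd c 1 := by
  obtain ⟨k, hk⟩ := exists_pow 2 c (by
    intro i hi
    fin_cases i
    · exact h0
    · exact h1
    · exact absurd rfl hi)
  obtain ⟨π, hπ, _, _⟩ := exists_SPerm_one
  have := Bdd_of_closed h {c} {c} (by intro e he _; simpa using he) ⟨π, c, rfl, (hπ c).symm⟩ (by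
    intro e he _ z A hz hz' hc
    obtain rfl : e = c := he
    refine ⟨π, e, rfl, ?_⟩
    rw [hπ]
    by_cases hz2 : z.1 = 2
    · rw [hk, wh, hz2]
      exact act_pot_pow 2 _ k
    · have hcz : cnt e z.1 = 0 := by
        obtain ⟨i, s⟩ := z
        fin_cases i
        · exact h0
        · exact h1
        · exact absurd rfl hz2
      rw [hcz, hk, capC_cls (CR_zpw 2 k), SylC_cap_zpw] at hc
      by_cases hA : A (2, true) = A (2, false)
      · rw [hk, cls, act_mk, mk_zpw, map_zpow]
        have e1 : wh z A (of 2) = (of z.1) ^ (-(whp z A (2, false))) * of 2 *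
            (of z.1) ^ (whp z A (2, true)) := potFun_of_ne _ (Ne.symm hz2)
        have e2 : whp z A (2, true) = whp z A (2, false) := by simp only [whp, hA]
        rw [e1, e2, ConjClasses.mk_eq_mk_iff_isConj, isConj_iff]
        refine ⟨(of z.1) ^ (whp z A (2, false)), ?_⟩
        have e3 : (of z.1) ^ (-(whp z A (2, false))) * of 2 * (of z.1) ^ (whp z A (2, false)) =
          (of z.1) ^ (-(whp z A (2, false))) * of 2 * ((of z.1) ^ (-(whp z A (2, false))))⁻¹ := by
          group
        rw [e3, conj_zpow]
        group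
      · have hk0 : k = 0 := by
          simp [hA] at hc
          omega
        rw [hk, cls, act_mk, mk_zpw, hk0]
        simp)
  simpa using this

end Pool.Agent.Sims
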