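import Pool.Agent.Sims.R1
import Pool.Agent.Sims.R2
import Pool.Agent.Sims.SmallPow
import Pool.Agent.Sims.SmallF2

/-!
# Module `Stage0` : assembly of part II

`c` orbit-minimal, `m = cycLen c ≥ 11`, some generator occurs at most twice.  By `exists_sorted` take `d = act σ c` with
`cnt d 0 ≤ cnt d 1 ≤ cnt d 2`; `d ∈ orb c`, `OMin d`, `cycLen d = m`, `cnt d 0 ≤ 2` (`cnt_SPerm`).  By `cnt_ne_one` no count is 1.
* `cnt d 0 = 0`: `cnt d 1 = 0`: `small_pow`; otherwise `cnt d 1 ≥ 2`: `small_F2`; `1, m - 1 ≤ F3 m`.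
* `cnt d 0 = 2`: `cnt d 1 = 2`: `r2`; otherwise `cnt d 1 ≥ 3`: `r1`.
Conclude with `Bdd_orb`, `Bdd_mono`, `Bdd_ncard`.
Difficulty 1.
-/

namespace Pool.Agent.Sims

open FreeGroup (of)

theorem Stage0_F3 {m : ℕ} (hm : 11 ≤ m) : m - 1 ≤ F3 m ∧ 1 ≤ F3 m := by
  obtain ⟨k, rfl⟩ : ∃ k, m = k + 11 := ⟨m - 11, by omega⟩
  have h1 : k + 11 - 1 = k + 10 := by omega
  have h2 : k + 11 - 2 = k + 9 := by omega
  have h3 : k + 11 - 7 = k + 4 := by omega
  unfold F3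
  rw [h1, h2, h3]
  constructor <;> nlinarith [Nat.zero_le k, Nat.zero_le (k * k), Nat.zero_le (k * k * k)]

theorem stage0_bdd {c : CC} (h : OMin c) (hm : 11 ≤ cycLen c) (hi : ∃ i, cnt c i ≤ 2) :
    Bdd c (F3 (cycLen c)) := by
  obtain ⟨σ, hs1, hs2⟩ := exists_sorted c
  have hd : act σ.aut c ∈ orb c := orb_SPerm σ c
  have hO : OMin (act σ.aut c) := OMin_orb h hd
  have hL : cycLen (act σ.aut c) = cycLen c := hd.2
  have h0 : cnt (act σ.aut c) 0 ≤ 2 := by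
    obtain ⟨i, hi⟩ := hi
    have : cnt (act σ.aut c) (σ.perm i) = cnt c i := cnt_SPerm σ c i
    have h3 : cnt (act σ.aut c) 0 ≤ cnt (act σ.aut c) (σ.perm i) := by
      generalize σ.perm i = j
      fin_cases j
      · exact le_rfl
      · exact hs1
      · exact hs1.trans hs2
    omega
  apply Bdd_orb hd
  rw [← hL] at hm ⊢
  generalize act σ.aut c = d at *
  have n0 : cnt d 0 ≠ 1 := cnt_ne_one hO (by omega) 0
  have n1 : cnt d 1 ≠ 1 := cnt_ne_one hO (by omega) 1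
  rcases Nat.eq_zero_or_pos (cnt d 0) with h00 | h0p
  · rcases Nat.eq_zero_or_pos (cnt d 1) with h10 | h1p
    · exact Bdd_mono (small_pow hO h00 h10) (Stage0_F3 hm).2
    · exact Bdd_mono (small_F2 hO h00 (by omega) hs2 (by omega)) (Stage0_F3 hm).1
  · have h02 : cnt d 0 = 2 := by omega
    rcases Nat.lt_or_ge (cnt d 1) 3 with h13 | h13
    · exact r2 hO hm h02 (by omega)
    · exact r1 hO hm h02 h13 hs2

theorem stage0 {c : CC} (h : OMin c) (hm : 11 ≤ cycLen c) (hi : ∃ i, cnt c i ≤ 2) :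
    (orb c).Finite ∧ (orb c).ncard ≤ 48 * F3 (cycLen c) :=
  Bdd_ncard (stage0_bdd h hm hi)

end Pool.Agent.Sims
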