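import Pool.Agent.Sims.CaseII
import Pool.Agent.Sims.OddR1
import Pool.Agent.Sims.OddR2
import Pool.Agent.Sims.OddR3
import Pool.Agent.Sims.Stage0

/-!
# Module `OddMain` : the least count is at most two or odd

* `arith3`: `m ≥ 11`, `n₀ + n₁ + n₂ = m`, all `≥ 3`: `(2 n₂ + 1)(2 (m - n₀) + 1) ≤ F3 m`, `4 n₂ + 1 ≤ F3 m`, `8 m + 6 ≤ F3 m`  (`n₂ ≤ m - 6`; `F3 m = (m-1)(m-2)(m-7)`).
* `odd_bdd`: if some count is `≤ 2`: `stage0_bdd`.  Otherwise `exists_sorted` (`Bdd_orb`, `orb_SPerm`, `cycLen_SPerm`): `c' = act σ c` with `n₀ ≤ n₁ ≤ n₂`, `n₀` odd (it is the least count).  If `case_two` applies to `c'`, done.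
  Otherwise for all `W ∈ orb c'` and `i`: `capC W (PrC i) ≥` some count of `W`, so `≥ n₀`, and it is even (`cap_pair_even`), so `> n₀`: `odd_r1`, `odd_r2` or `odd_r3`.
* `odd_main`: `Bdd_ncard`.
Difficulty 2.
-/

namespace Pool.Agent.Sims

theorem arith3 {m a b c : ℕ} (hm : 11 ≤ m) (h : a + b + c = m) (ha : 3 ≤ a) (hb : 3 ≤ b)
    (hc : 3 ≤ c) : (2 * c + 1) * (2 * (m - a) + 1) ≤ F3 m ∧ 4 * c + 1 ≤ F3 m ∧
      8 * m + 6 ≤ F3 m := by
  obtain ⟨k, rfl⟩ : ∃ k, m = k + 11 := ⟨m - 11, by omega⟩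
  have h1 : k + 11 - 1 = k + 10 := by omega
  have h2 : k + 11 - 2 = k + 9 := by omega
  have h3 : k + 11 - 7 = k + 4 := by omega
  have hF : F3 (k + 11) = (k + 10) * (k + 9) * (k + 4) := by
    unfold F3
    rw [h1, h2, h3]
  rw [hF]
  have e1 : (2 * c + 1) * (2 * (k + 11 - a) + 1) ≤ (2 * k + 11) * (2 * k + 17) :=
    Nat.mul_le_mul (by omega) (by omega)
  have e2 : (2 * k + 11) * (2 * k + 17) ≤ (k + 10) * (k + 9) * (k + 4) := by
    nlinarith [Nat.zero_le k, Nat.zero_le (k * k), Nat.zero_le (k * k * k)]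
  have e3 : 8 * (k + 11) + 6 ≤ (k + 10) * (k + 9) * (k + 4) := by
    nlinarith [Nat.zero_le k, Nat.zero_le (k * k), Nat.zero_le (k * k * k)]
  refine ⟨e1.trans e2, ?_, e3⟩
  have e4 : 4 * c + 1 ≤ 8 * (k + 11) + 6 := by omega
  exact e4.trans e3

theorem odd_bdd {c : CC} (hO : OMin c) (hm : 11 ≤ cycLen c) {i : Fin 3}
    (hi : ∀ j, cnt c i ≤ cnt c j) (h : cnt c i ≤ 2 ∨ cnt c i % 2 = 1) :
    Bdd c (F3 (cycLen c)) := by
  by_cases h2 : ∃ i, cnt c i ≤ 2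
  · exact stage0_bdd hO hm h2
  push Not at h2
  have hodd : cnt c i % 2 = 1 := by
    rcases h with h | h
    · have := h2 i
      omega
    · exact h
  obtain ⟨σ, hs1, hs2⟩ := exists_sorted c
  have hd : act σ.aut c ∈ orb c := orb_SPerm σ c
  have hO' : OMin (act σ.aut c) := OMin_orb hO hd
  have hL : cycLen (act σ.aut c) = cycLen c := hd.2
  have hp : ∀ j, cnt (act σ.aut c) (σ.perm j) = cnt c j := cnt_SPerm σ c
  have hmin : ∀ j, cnt (act σ.aut c) 0 ≤ cnt (act σ.aut c) j := by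
    intro j
    fin_cases j
    · exact le_rfl
    · exact hs1
    · exact hs1.trans hs2
  have h0 : cnt (act σ.aut c) 0 = cnt c i := by
    apply le_antisymm
    · rw [← hp i]
      exact hmin _
    · have h3 := hp (σ.perm.symm 0)
      rw [Equiv.apply_symm_apply] at h3
      rw [h3]
      exact hi _
  have h3 : ∀ j, 3 ≤ cnt (act σ.aut c) j := by
    intro j
    have h4 := hp (σ.perm.symm j)
    rw [Equiv.apply_symm_apply] at h4
    rw [h4]
    exact h2 _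
  rw [← h0] at hodd
  clear h0 hp hi h h2
  apply Bdd_orb hd
  rw [← hL] at hm ⊢
  clear hL hd
  generalize act σ.aut c = d at *
  by_cases h4 : ∃ V ∈ orb d, ∃ i, ∀ j, capC V (PrC i) < cnt V j
  · exact case_two hO' hm h3 h4
  push Not at h4
  have hI : ∀ W ∈ orb d, ∀ i, cnt d 0 < capC W (PrC i) := by
    intro W hW i
    obtain ⟨j, hj⟩ := h4 W hW i
    obtain ⟨p, hp⟩ := cnt_orb hO' hW
    have h5 := hmin (p j)
    rw [← hp j] at h5
    have h6 := cap_pair_even W i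
    omega
  have hs : cnt d 0 + cnt d 1 + cnt d 2 = cycLen d := by
    have := cycLen_eq_sum d
    rw [Fin.sum_univ_three] at this
    exact this.symm
  obtain ⟨a1, a2, a3⟩ := arith3 hm hs (h3 0) (h3 1) (h3 2)
  rcases hs1.lt_or_eq with h01 | h01
  · exact Bdd_mono (odd_r1 hO' hodd h01 hs2 hI) a1
  · rcases hs2.lt_or_eq with h12 | h12
    · exact Bdd_mono (odd_r2 hO' hodd h01 h12 hI) a2
    · exact Bdd_mono (odd_r3 hO' hodd h01 h12 hI) (by omega)

theorem odd_main {c : CC} (hO : OMin c) (hm : 11 ≤ cycLen c) {i : Fin 3}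
    (hi : ∀ j, cnt c i ≤ cnt c j) (h : cnt c i ≤ 2 ∨ cnt c i % 2 = 1) :
    (orb c).Finite ∧ (orb c).ncard ≤ 48 * F3 (cycLen c) :=
  Bdd_ncard (odd_bdd hO hm hi h)

end Pool.Agent.Sims
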