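import Pool.Agent.Sims.WhEff
import Pool.Agent.Sims.Rel

/-!
Definitions and first facts for peak reduction.
`Path M c d`: there is a chain of elementary steps from `c` to `d` all of whose members after `c`
have cyclic length `< M`.
-/

namespace Pool.Agent.Sims

variable {α : Type*} [DecidableEq α]

/-- a chain of steps from `c` to `d`, all members after `c` being shorter than `M` -/
def Path (M : ℕ) (c d : ConjClasses (FreeGroup α)) : Prop :=
  Relation.ReflTransGen (fun x y => IsStep x y ∧ cycLen y < M) c d

theorem Path.refl (M : ℕ) (c : ConjClasses (FreeGroup α)) : Path M c c :=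
  Relation.ReflTransGen.refl

theorem Path.trans {M : ℕ} {c d e : ConjClasses (FreeGroup α)} (h : Path M c d)
    (h' : Path M d e) : Path M c e := Relation.ReflTransGen.trans h h'

theorem Path.single {M : ℕ} {c d : ConjClasses (FreeGroup α)} (h : IsStep c d)
    (h' : cycLen d < M) : Path M c d := Relation.ReflTransGen.single ⟨h, h'⟩

end Pool.Agent.Sims
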