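import Pool.Agent.Sims.Step

/-!
# Module `PeakN` : peak reduction, nested case

Let `M = cycLen c`.  `A, B` are disjoint, `a ∈ A`, `a⁻¹ ∉ A`, `b ∈ B`, `b⁻¹ ∉ B`,
`cap A ≤ n_a`, `cap B < n_b` (so `(A,a)c` is not longer, `(B,b)c` is shorter than `c`).
Claim: `Path M (act (wh a A) c) (act (wh b B) c)`.
(0) `a.1 = b.1`: then `b = a⁻¹` (`b = a` is impossible).  `act_wh_compl`: `(B,b)c = (Bᶜ,a)c`, and
    `A ⊆ Bᶜ`: `path_same`.
(1) `a⁻¹ ∉ B`, `b⁻¹ ∉ A`: `m = (B,b)(A,a)c = (A,a)(B,b)c` (`act_wh_comm`).  By `cycLen_wh`,
    `capC_wh_disj`, `cnt_wh_ne`: `cycLen m = cycLen ((A,a)c) + cap_c B - n_b < M`.  Path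
    `(A,a)c → m → (B,b)c` (the second step is the inverse of `(A,a)`; `IsStep_symm`).
(2) `a⁻¹ ∈ B`, `b⁻¹ ∉ A`: the same with `m = (B ∪ A∖a, b)(A,a)c = (A,a)(B,b)c` (`act_wh_comm'`,
    `capC_wh_disj'`).
(3) `a⁻¹ ∉ B`, `b⁻¹ ∈ A`: symmetric to (2) (exchange the roles; then the length of
    `m = (A ∪ B∖b, a)(B,b)c = (B,b)(A,a)c` is `cycLen ((B,b)c) + cap_c A - n_a < M`).
(4) `a⁻¹ ∈ B`, `b⁻¹ ∈ A`.  If `n_b ≤ n_a`: `(Bᶜ, a)c` has length `M + cap B - n_a < M`;
    `A ⊆ Bᶜ`, so `(A,a)c → (Bᶜ,a)c = (B,a⁻¹)c` by `path_same`, `act_wh_compl`, and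
    `(B,a⁻¹)c → (B,b)c` by `path_swap` (`a⁻¹, b ∈ B`, `a, b⁻¹ ∉ B`).
    If `n_a < n_b`: `(A,b⁻¹)c` has length `M + cap A - n_b < M`; `(A,a)c → (A,b⁻¹)c` by `path_swap`,
    `(A,b⁻¹)c = (Aᶜ,b)c → (B,b)c` by `path_same` (`B ⊆ Aᶜ`).
`peak_nested`: the general nested case is reduced to disjoint sets by complementing.
Difficulty 3.
-/

namespace Pool.Agent.Sims

variable {α : Type*} [DecidableEq α]

theorem PeakN_compl (z : α × Bool) (A : α × Bool → Bool) (c : ConjClasses (FreeGroup α)) :
    act (wh (bar z) A) c = act (wh z (fun x => !A x)) c := by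
  have h := act_wh_compl z (fun x => !A x) c
  simpa using h

theorem peak_disj (c : ConjClasses (FreeGroup α)) (a b : α × Bool) (A B : α × Bool → Bool)
    (ha : A a = true) (ha' : A (bar a) = false) (hb : B b = true) (hb' : B (bar b) = false)
    (hAB : ∀ x, A x = true → B x = false) (h1 : capC c A ≤ cnt c a.1)
    (h2 : capC c B < cnt c b.1) :
    Path (cycLen c) (act (wh a A) c) (act (wh b B) c) := by
  have hBA : ∀ x, B x = true → A x = false := by
    intro x hx
    cases hA : A x with
    | false => rfl
    | true => rw [hAB x hA] at hx; exact absurd hx (by simp)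
  have hBa : B a = false := hAB a ha
  have hAb : A b = false := hBA b hb
  have hlt : cycLen (act (wh b B) c) < cycLen c := lt_of_cap hb hb' h2
  have hle : cycLen (act (wh a A) c) ≤ cycLen c := by
    have := cycLen_wh c a A ha ha'
    omega
  by_cases hab : a.1 = b.1
  · have hba : b = bar a := by
      rcases a with ⟨i, s⟩
      rcases b with ⟨j, t⟩
      simp only at hab
      subst hab
      have hst : s ≠ t := by
        rintro rfl
        rw [hBa] at hb
        exact absurd hb (by simp)
      simp only [bar, Prod.mk.injEq, true_and]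
      cases s <;> cases t <;> simp_all
    subst hba
    rw [PeakN_compl a B c] at hlt ⊢
    apply path_same (cycLen c) c a A (fun x => !B x) ha ha' (by simp [hBa]) (by simp [hb])
      (Or.inl fun x hx => by simp [hAB x hx]) hlt
  have hba : b.1 ≠ a.1 := fun h => hab h.symm
  cases h3 : B (bar a) with
  | false =>
    cases h4 : A (bar b) with
    | false =>
      have hcomm := act_wh_comm a b hab A B ha ha' hb hb' hAB h3 h4 c
      have e1 := cycLen_wh (act (wh a A) c) b B hb hb'
      rw [cnt_wh_ne c a A hba, capC_wh_disj c a A B ha ha' hBa h3 hAB] at e1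
      have hm : cycLen (act (wh b B) (act (wh a A) c)) < cycLen c := by omega
      refine Path.trans (Path.single (step_wh hb hb' _) hm) ?_
      rw [hcomm]
      exact Path.single (IsStep_symm (step_wh ha ha' _)) hlt
    | true =>
      have hcomm := act_wh_comm' b a hba B A hb hb' ha ha' hBA h4 h3 c
      have e1 := cycLen_wh (act (wh b B) c) a (fun x => A x || (B x && decide (x ≠ b)))
        (by simp [ha]) (by simp [ha', h3])
      rw [cnt_wh_ne c b B hab, capC_wh_disj' c b B A hb hb' hAb h4 hBA] at e1
      have hm : cycLen (act (wh b B) (act (wh a A) c)) < cycLen c := by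
        rw [← hcomm]
        omega
      refine Path.trans (Path.single (step_wh hb hb' _) hm) ?_
      rw [← hcomm]
      exact Path.single (IsStep_symm (step_wh (by simp [ha]) (by simp [ha', h3]) _)) hlt
  | true =>
    cases h4 : A (bar b) with
    | false =>
      have hcomm := act_wh_comm' a b hab A B ha ha' hb hb' hAB h3 h4 c
      have e1 := cycLen_wh (act (wh a A) c) b (fun x => B x || (A x && decide (x ≠ a)))
        (by simp [hb]) (by simp [hb', h4])
      rw [cnt_wh_ne c a A hba, capC_wh_disj' c a A B ha ha' hBa h3 hAB] at e1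
      have hm : cycLen (act (wh b (fun x => B x || (A x && decide (x ≠ a)))) (act (wh a A) c)) <
          cycLen c := by omega
      refine Path.trans (Path.single (step_wh (by simp [hb]) (by simp [hb', h4]) _) hm) ?_
      rw [hcomm]
      exact Path.single (IsStep_symm (step_wh ha ha' _)) hlt
    | true =>
      rcases Nat.lt_or_ge (cnt c a.1) (cnt c b.1) with hlt' | hge
      · have e1 := cycLen_wh c (bar b) A h4 (by simp [hAb])
        rw [bar_fst] at e1
        have hm : cycLen (act (wh (bar b) A) c) < cycLen c := by omega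
        refine Path.trans (path_swap (cycLen c) c a (bar b) A ha ha' h4 (by simp [hAb]) hm) ?_
        rw [PeakN_compl b A c]
        exact path_same (cycLen c) c b (fun x => !A x) B (by simp [hAb]) (by simp [h4]) hb hb'
          (Or.inr fun x hx => by simp [hBA x hx]) hlt
      · have e1 := cycLen_wh c a (fun x => !B x) (by simp [hBa]) (by simp [h3])
        rw [capC_compl] at e1
        have hm : cycLen (act (wh a (fun x => !B x)) c) < cycLen c := by omega
        refine Path.trans (path_same (cycLen c) c a A (fun x => !B x) ha ha' (by simp [hBa])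
          (by simp [h3]) (Or.inl fun x hx => by simp [hAB x hx]) hm) ?_
        rw [← PeakN_compl a B c]
        exact path_swap (cycLen c) c (bar a) b B h3 (by simp [hBa]) hb hb' hlt

/-- `A, B` nested: one of `A ⊆ B`, `B ⊆ A`, `A ∩ B = ∅`, `A ∪ B = everything` -/
def Nested (A B : α × Bool → Bool) : Prop :=
  (∀ x, A x = true → B x = true) ∨ (∀ x, B x = true → A x = true) ∨
    (∀ x, A x = true → B x = false) ∨ (∀ x, A x = false → B x = true)

theorem peak_nested (c : ConjClasses (FreeGroup α)) (a b : α × Bool) (A B : α × Bool → Bool)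
    (ha : A a = true) (ha' : A (bar a) = false) (hb : B b = true) (hb' : B (bar b) = false)
    (hAB : Nested A B) (h1 : capC c A ≤ cnt c a.1) (h2 : capC c B < cnt c b.1) :
    Path (cycLen c) (act (wh a A) c) (act (wh b B) c) := by
  have eA : act (wh a A) c = act (wh (bar a) (fun x => !A x)) c := (act_wh_compl a A c).symm
  have eB : act (wh b B) c = act (wh (bar b) (fun x => !B x)) c := (act_wh_compl b B c).symm
  rcases hAB with h | h | h | h
  · rw [eB]
    apply peak_disj c a (bar b) A (fun x => !B x) ha ha' (by simp [hb']) (by simp [hb])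
    · intro x hx
      simp [h x hx]
    · exact h1
    · rw [capC_compl]; exact h2
  · rw [eA]
    apply peak_disj c (bar a) b (fun x => !A x) B (by simp [ha']) (by simp [ha]) hb hb'
    · intro x hx
      cases hB : B x with
      | false => rfl
      | true =>
        have := h x hB
        simp [this] at hx
    · rw [capC_compl]; exact h1
    · exact h2
  · exact peak_disj c a b A B ha ha' hb hb' h h1 h2
  · rw [eA, eB]
    apply peak_disj c (bar a) (bar b) (fun x => !A x) (fun x => !B x) (by simp [ha'])
      (by simp [ha]) (by simp [hb']) (by simp [hb])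
    · intro x hx
      have : A x = false := by simpa using hx
      simp [h x this]
    · rw [capC_compl]; exact h1
    · rw [capC_compl]; exact h2

end Pool.Agent.Sims
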