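import Pool.Agent.Sims.PeakN

/-!
# Module `PeakX` : peak reduction, crossing case and conclusion

`A, B` arbitrary, `a ∈ A`, `a⁻¹ ∉ A`, `b ∈ B`, `b⁻¹ ∉ B`, `cap A ≤ n_a`, `cap B < n_b`.
Corners: `Q1 = A∩B`, `Q2 = A∖B`, `Q3 = B∖A`, `Q4 = (A∪B)ᶜ`.  `cap Q1 + cap Q4 ≤ cap A + cap B`,
`cap Q2 + cap Q3 ≤ cap A + cap B` (`capC_submod`, `capC_submod'`, `capC_compl`).
Key claim: some corner `Q` is *good*: either `Q` separates `a^{±1}` (contains exactly one of `a, a⁻¹`) and
`cap Q < n_a`, or `Q` separates `b^{±1}` and `cap Q < n_b`.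
 `a` lies in `Q1` or `Q2`, `a⁻¹` in `Q3` or `Q4`; both these corners separate `a`.
 `b` lies in `Q1` or `Q3`, `b⁻¹` in `Q2` or `Q4`; both these corners separate `b`.
 Opposite corners: `Q1,Q4` and `Q2,Q3`.  Either there are opposite corners `X, X'` such that `X`
 separates `a` and `X'` separates `b`: then `cap X + cap X' ≤ cap A + cap B < n_a + n_b` and one of them
 is good; or (`a ∈ Q1, a⁻¹ ∈ Q4, b ∈ Q3, b⁻¹ ∈ Q2` or `a ∈ Q2, a⁻¹ ∈ Q3, b ∈ Q1, b⁻¹ ∈ Q4`) two
 opposite corners both separate `a` and the other two both separate `b`: then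
 `Σ cap Q_i ≤ 2 (cap A + cap B) < 2 n_a + 2 n_b` and one is good.  (16 cases, `omega` each.)
If `Q` is good for `a`, let `a' ∈ {a, a⁻¹}` be the letter in `Q`.  `Q` or its complement is contained in
`A` or contains `A`, so (using `act_wh_compl` if `a' = a⁻¹`) `(A,a)c → (Q,a')c` by `path_same` (the
length of `(Q,a')c` is `< M`), and `(Q,a')c → (B,b)c` by `peak_nested` (`Q` and `B` are nested).
If `Q` is good for `b`, `b' ∈ Q`: `(A,a)c → (Q,b')c` by `peak_nested`, `(Q,b')c → (B,b)c` by `path_same`.
`peak`: if one of the steps is a signed permutation `σ`: `c' = σc`, `c'' = ψc`: the step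
`σψσ⁻¹` (again an elementary step, `act_wh_SPerm`) leads from `c'` to `σc''`, then `σ⁻¹` to `c''`.
If `c'' = σ c` its length is not smaller: impossible.
Difficulty 3.
-/

namespace Pool.Agent.Sims

variable {α : Type*} [DecidableEq α]

theorem PeakX_goodA {c : ConjClasses (FreeGroup α)} {a b : α × Bool} {A B : α × Bool → Bool}
    (ha : A a = true) (ha' : A (bar a) = false) (hb : B b = true) (hb' : B (bar b) = false)
    (h2 : capC c B < cnt c b.1) (Q : α × Bool → Bool) (hQa : Q a = true)
    (hQa' : Q (bar a) = false) (hQ : capC c Q < cnt c a.1)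
    (hs : (∀ x, A x = true → Q x = true) ∨ (∀ x, Q x = true → A x = true))
    (hn : Nested Q B) :
    Path (cycLen c) (act (wh a A) c) (act (wh b B) c) :=
  Path.trans (path_same (cycLen c) c a A Q ha ha' hQa hQa' hs (lt_of_cap hQa hQa' hQ))
    (peak_nested c a b Q B hQa hQa' hb hb' hn hQ.le h2)

theorem PeakX_goodB {c : ConjClasses (FreeGroup α)} {a b : α × Bool} {A B : α × Bool → Bool}
    (ha : A a = true) (ha' : A (bar a) = false) (hb : B b = true) (hb' : B (bar b) = false)
    (h1 : capC c A ≤ cnt c a.1) (h2 : capC c B < cnt c b.1) (Q : α × Bool → Bool)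
    (hQb : Q b = true)
    (hQb' : Q (bar b) = false) (hQ : capC c Q < cnt c b.1)
    (hs : (∀ x, Q x = true → B x = true) ∨ (∀ x, B x = true → Q x = true))
    (hn : Nested A Q) :
    Path (cycLen c) (act (wh a A) c) (act (wh b B) c) :=
  Path.trans (peak_nested c a b A Q ha ha' hQb hQb' hn h1 hQ)
    (path_same (cycLen c) c b Q B hQb hQb' hb hb' hs (lt_of_cap hb hb' h2))

theorem peak_wh (c : ConjClasses (FreeGroup α)) (a b : α × Bool) (A B : α × Bool → Bool)
    (ha : A a = true) (ha' : A (bar a) = false) (hb : B b = true) (hb' : B (bar b) = false)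
    (h1 : capC c A ≤ cnt c a.1) (h2 : capC c B < cnt c b.1) :
    Path (cycLen c) (act (wh a A) c) (act (wh b B) c) := by
  have s1 := capC_submod c A B
  have s2 := capC_submod' c A B
  have e3 : capC c (fun x => A x || !B x) = capC c (fun x => !A x && B x) := by
    rw [← capC_compl c (fun x => !A x && B x)]
    apply capC_congr
    intro x
    cases A x <;> cases B x <;> rfl
  by_contra hcon
  have i1 : B a = true → ¬ capC c (fun x => A x && B x) < cnt c a.1 := by
    intro h hlt
    apply hcon
    apply PeakX_goodA ha ha' hb hb' h2 (fun x => A x && B x) (by simp [ha, h]) (by simp [ha']) hlt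
    · right; intro x hx; cases hA : A x <;> cases hB : B x <;> simp [hA, hB] at hx ⊢
    · left; intro x hx; cases hA : A x <;> cases hB : B x <;> simp [hA, hB] at hx ⊢
  have i2 : B a = false → ¬ capC c (fun x => A x && !B x) < cnt c a.1 := by
    intro h hlt
    apply hcon
    apply PeakX_goodA ha ha' hb hb' h2 (fun x => A x && !B x) (by simp [ha, h]) (by simp [ha']) hlt
    · right; intro x hx; cases hA : A x <;> cases hB : B x <;> simp [hA, hB] at hx ⊢
    · right; right; left; intro x hx; cases hA : A x <;> cases hB : B x <;> simp [hA, hB] at hx ⊢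
  have i3 : B (bar a) = true → ¬ capC c (fun x => !A x && B x) < cnt c a.1 := by
    intro h hlt
    rw [← e3] at hlt
    apply hcon
    apply PeakX_goodA ha ha' hb hb' h2 (fun x => A x || !B x) (by simp [ha]) (by simp [ha', h]) hlt
    · left; intro x hx; simp [hx]
    · right; right; right; intro x hx; cases hA : A x <;> cases hB : B x <;> simp [hA, hB] at hx ⊢
  have i4 : B (bar a) = false → ¬ capC c (fun x => A x || B x) < cnt c a.1 := by
    intro h hlt
    apply hcon
    apply PeakX_goodA ha ha' hb hb' h2 (fun x => A x || B x) (by simp [ha]) (by simp [ha', h]) hlt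
    · left; intro x hx; simp [hx]
    · right; left; intro x hx; simp [hx]
  have j1 : A b = true → ¬ capC c (fun x => A x && B x) < cnt c b.1 := by
    intro h hlt
    apply hcon
    apply PeakX_goodB ha ha' hb hb' h1 h2 (fun x => A x && B x) (by simp [hb, h]) (by simp [hb']) hlt
    · left; intro x hx; cases hA : A x <;> cases hB : B x <;> simp [hA, hB] at hx ⊢
    · right; left; intro x hx; cases hA : A x <;> cases hB : B x <;> simp [hA, hB] at hx ⊢
  have j2 : A b = false → ¬ capC c (fun x => !A x && B x) < cnt c b.1 := by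
    intro h hlt
    apply hcon
    apply PeakX_goodB ha ha' hb hb' h1 h2 (fun x => !A x && B x) (by simp [hb, h]) (by simp [hb']) hlt
    · left; intro x hx; cases hA : A x <;> cases hB : B x <;> simp [hA, hB] at hx ⊢
    · right; right; left; intro x hx; simp [hx]
  have j3 : A (bar b) = true → ¬ capC c (fun x => A x && !B x) < cnt c b.1 := by
    intro h hlt
    apply hcon
    have e2 : capC c (fun x => !A x || B x) = capC c (fun x => A x && !B x) := by
      rw [← capC_compl c (fun x => A x && !B x)]
      apply capC_congr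
      intro x
      cases A x <;> cases B x <;> rfl
    rw [← e2] at hlt
    apply PeakX_goodB ha ha' hb hb' h1 h2 (fun x => !A x || B x) (by simp [hb]) (by simp [hb', h]) hlt
    · right; intro x hx; simp [hx]
    · right; right; right; intro x hx; simp [hx]
  have j4 : A (bar b) = false → ¬ capC c (fun x => A x || B x) < cnt c b.1 := by
    intro h hlt
    apply hcon
    apply PeakX_goodB ha ha' hb hb' h1 h2 (fun x => A x || B x) (by simp [hb]) (by simp [hb', h]) hlt
    · right; intro x hx; simp [hx]
    · left; intro x hx; simp [hx]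
  cases q1 : B a <;> cases q2 : B (bar a) <;> cases q3 : A b <;> cases q4 : A (bar b) <;>
    simp only [q1, q2, q3, q4, forall_const, reduceCtorEq, false_implies] at i1 i2 i3 i4 j1 j2 j3 j4 <;>
    omega

theorem peak {c c' c'' : ConjClasses (FreeGroup α)} (h' : IsStep c c') (h'' : IsStep c c'')
    (l' : cycLen c' ≤ cycLen c) (l'' : cycLen c'' < cycLen c) : Path (cycLen c) c' c'' := by
  rcases h'' with ⟨σ, rfl⟩ | ⟨b, B, hb, hb', rfl⟩
  · rw [cycLen_SPerm] at l''
    exact absurd l'' (lt_irrefl _)
  rcases h' with ⟨σ, rfl⟩ | ⟨a, A, ha, ha', rfl⟩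
  · have h1 := act_wh_SPerm σ b (fun x => B (σ.inv.letter x)) c
    have h2 : (fun x => (fun x => B (σ.inv.letter x)) (σ.letter x)) = B := by
      funext x
      simp only [SPerm.inv_letter]
    rw [h2] at h1
    have h3 : cycLen (act σ.aut (act (wh b B) c)) < cycLen c := by
      rw [cycLen_SPerm]; exact l''
    refine Path.trans (d := act σ.aut (act (wh b B) c)) (Path.single ?_ h3) ?_
    · rw [← h1]
      apply step_wh
      · rw [SPerm.inv_letter]; exact hb
      · rw [← SPerm.letter_bar, SPerm.inv_letter]; exact hb'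
    · refine Path.single (Or.inl ⟨σ.inv, (act_SPerm_inv σ _).symm⟩) l''
  · have e1 := cycLen_wh c a A ha ha'
    have e2 := cycLen_wh c b B hb hb'
    exact peak_wh c a b A B ha ha' hb hb' (by omega) (by omega)

end Pool.Agent.Sims
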