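import Pool.Agent.Sims.TpF
import Pool.Agent.Sims.Red

/-!
# Module `PhA` : connectivity of the minimal states of a list of arcs (triangle inequality)

Here the labels are arbitrary elements of `F_3`.  `PStp T u v w` : `w` is a prefix state of `u` (each position a prefix), of minimal length, obtained from `v` by moving one or both ports by one letter.
* `arc_lower`: `x, y ≠ 1`, first letters `z, w`, label `g`, `N = [ahd g = z]`, `M = [ahd g⁻¹ = w]`.
  `g ≠ 1`: `|x⁻¹ g y| + 2 |x| N + 2 |y| M ≥ |g| + |x| + |y|`: if `N = 0` then `x⁻¹ g` is reduced as written, etc.: `N = M = 0`: `x⁻¹ g y` reduced; `N = 0, M = 1`: `|x⁻¹ g y| ≥ |x⁻¹ g| - |y|`; `N = 1, M = 0`: `≥ |g y| - |x|`;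
  `N = M = 1`: `≥ |g| - |x| - |y|`.  `g = 1`: `|x⁻¹ y| = |x| + |y|` if `z ≠ w` (`hd_diff`), and `≥ |x| + |y| - 2 min |x| |y|` always.
* `len_lower`: the sum over all arcs (arcs with both ports `true`: `y = x`, `w = z`, `g ≠ 1`; both ports `false` the same; mixed arcs in either orientation).
* `len_lower1`: the same if only the port `p` moves: `atl T + 2h |x| ≤ atl (ast (ps p x) T) + 2 |x| anz p z T`.
* `conn_pre`: induction on `|u true| + |u false|`.  If `u ≠ 1` there is a level prefix state `s ≠ 1` of one of the forms `ps p (lett z)`, `bo (lett z)`: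
   - only one port moves (`u = ps p x`): `len_lower1` gives `h ≤ anz p z T`; `hmin` for the prefix state `ps p (lett z)` and the length formula (`pre_tl_ps` below, as `tl_ps`) give `anz p z T ≤ h`.
   - both move: `x = u true`, `y = u false`, letters `z, w`.  `anz true z T ≤ h`, `anz false w T ≤ h` by `hmin`.  If one is `h`, take it.  Otherwise `z = w` (by `len_lower`: `2h (|x| + |y|) ≤ 2 |x| N + 2 |y| M`), and
     `N + M + Q ≤ 2h` by `hmin` for `bo (lett z)`; if `< 2h`: with e.g. `|y| ≤ |x|`: `2 |x| N + 2 |y| M + 2 Q |y| = 2 (|x| - |y|) N + 2 |y| (N + M + Q) < 2 (|x| - |y|) h + 4 h |y|`, contradiction.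
  Then use the induction hypothesis for `ast s T` and `s⁻¹ * u`: its prefix states `v'` correspond to the prefix states `s * v'` of `u`; transport the chain (`ast_ast`).
Difficulty 3.
-/

namespace Pool.Agent.Sims

open FreeGroup (of)

/-- one step through minimal prefix states of `u` -/
def PStp (T : List Arc) (u v w : PS) : Prop :=
  (∀ p, (w p).toWord <+: (u p).toWord) ∧ atl (ast w T) = atl T ∧
    ((∃ p z, w = v * ps p (lett z)) ∨ ∃ z, w = v * bo (lett z))

theorem PhA_left (z : Fin 3 × Bool) (g : FreeGroup (Fin 3)) :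
    ((lett z)⁻¹ * g).norm + 2 * (if ahd g = some z then 1 else 0) = g.norm + 1 := by
  unfold FreeGroup.norm ahd
  rw [← lett_bar]
  by_cases h : g.toWord.head? = some z
  · rw [if_pos h, ConjA_left_pos (by rw [bar_bar]; exact h)]
    have hne : g.toWord ≠ [] := by
      intro h'
      rw [h'] at h
      simp at h
    have hpos : 1 ≤ g.toWord.length := List.length_pos_iff.2 hne
    rw [List.length_tail]
    omega
  · rw [if_neg h, ConjA_left_neg (by rw [bar_bar]; exact h), List.length_cons]

theorem PhA_arc_ps (p : Bool) (z : Fin 3 × Bool) (e : Arc) (he : e.1 = e.2.1 → e.2.2 ≠ 1) :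
    (alab (ps p (lett z)) e).norm + 2 * ((if e.1 = p ∧ ahd e.2.2 = some z then 1 else 0) +
      (if e.2.1 = p ∧ ahd (e.2.2)⁻¹ = some z then 1 else 0)) =
    e.2.2.norm + ((if e.1 = p then 1 else 0) + (if e.2.1 = p then 1 else 0)) := by
  obtain ⟨q, r, g⟩ := e
  simp only [alab] at he ⊢
  by_cases hq : q = p
  · subst hq
    by_cases hr : r = q
    · subst hr
      have h1 := norm_cj z (he rfl)
      rw [rr_ahd] at h1
      rw [ps_self]
      simp only [true_and, if_true]
      exact h1
    · have hr' : r = !q := by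
        cases q <;> cases r <;> simp_all
      subst hr'
      have h1 := PhA_left z g
      rw [ps_self, ps_not, mul_one]
      simp only [true_and, if_true, if_neg hr]
      have h3 : ¬ ((!q) = q ∧ ahd g⁻¹ = some z) := fun h => hr h.1
      rw [if_neg h3]
      omega
  · have hq' : q = !p := by
      cases q <;> cases p <;> simp_all
    subst hq'
    by_cases hr : r = p
    · subst hr
      have h1 := PhA_left z g⁻¹
      rw [FreeGroup.norm_inv_eq] at h1
      have h2 : (g * lett z).norm = ((lett z)⁻¹ * g⁻¹).norm := by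
        rw [← FreeGroup.norm_inv_eq (x := g * lett z), mul_inv_rev]
      rw [ps_self, ps_not, inv_one, one_mul, h2]
      simp only [true_and, if_true, if_neg hq]
      rw [if_neg (fun h => hq h.1)]
      omega
    · have hr' : r = !p := by
        cases r <;> cases p <;> simp_all
      subst hr'
      rw [ps_not, inv_one, one_mul, mul_one]
      simp only [if_neg hq]
      rw [if_neg (fun h => hq h.1), if_neg (fun h => hq h.1)]

theorem PhA_sum (a b c d : Arc → ℕ) (T : List Arc) (h : ∀ e ∈ T, a e + 2 * b e = c e + d e) :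
    (T.map a).sum + 2 * (T.map b).sum = (T.map c).sum + (T.map d).sum := by
  induction T with
  | nil => rfl
  | cons e T ih =>
    have h1 := h e List.mem_cons_self
    have h2 := ih fun e' he' => h e' (List.mem_cons_of_mem _ he')
    simp only [List.map_cons, List.sum_cons]
    omega

theorem PhA_atl_ast (u : PS) (T : List Arc) :
    atl (ast u T) = (T.map (fun e => (alab u e).norm)).sum := by
  unfold atl ast
  rw [List.map_map]
  rfl

theorem PhA_arc_bo (z : Fin 3 × Bool) (e : Arc) :
    (alab (bo (lett z)) e).norm + 2 * (((if e.1 = true ∧ ahd e.2.2 = some z then 1 else 0) +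
      (if e.2.1 = true ∧ ahd (e.2.2)⁻¹ = some z then 1 else 0)) +
      ((if e.1 = false ∧ ahd e.2.2 = some z then 1 else 0) +
      (if e.2.1 = false ∧ ahd (e.2.2)⁻¹ = some z then 1 else 0)) +
      (if e.2.2 = 1 then 1 else 0)) =
    e.2.2.norm + 2 := by
  obtain ⟨q, r, g⟩ := e
  simp only [alab, bo]
  by_cases hg : g = 1
  · subst hg
    have h1 : (lett z)⁻¹ * 1 * lett z = 1 := by group
    rw [h1, inv_one, ahd_one]
    simp
  · have h1 := norm_cj z hg
    rw [rr_ahd] at h1
    rw [if_neg hg]
    cases q <;> cases r <;>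
      simp only [true_and, false_and, if_false, Bool.false_eq_true, reduceCtorEq] <;> omega

theorem PhA_anz_add (z : Fin 3 × Bool) (T : List Arc) : anz true z T + anz false z T + anq T =
    (T.map (fun e => ((if e.1 = true ∧ ahd e.2.2 = some z then 1 else 0) +
      (if e.2.1 = true ∧ ahd (e.2.2)⁻¹ = some z then 1 else 0)) +
      ((if e.1 = false ∧ ahd e.2.2 = some z then 1 else 0) +
      (if e.2.1 = false ∧ ahd (e.2.2)⁻¹ = some z then 1 else 0)) +
      (if e.2.2 = 1 then 1 else 0))).sum := by
  unfold anz anq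
  rw [← List.sum_map_add, ← List.sum_map_add]

theorem PhA_ane_sum (T : List Arc) : ane true T + ane false T = 2 * T.length := by
  induction T with
  | nil => rfl
  | cons e T ih =>
    have h1 : ∀ p, ane p (e :: T) = ((if e.1 = p then 1 else 0) + (if e.2.1 = p then 1 else 0)) +
      ane p T := fun p => rfl
    rw [h1, h1, List.length_cons]
    obtain ⟨q, r, g⟩ := e
    cases q <;> cases r <;> simp <;> omega

theorem PhA_le1 (x g : FreeGroup (Fin 3)) : g.norm ≤ (x⁻¹ * g).norm + x.norm := by
  have h1 : g = x * (x⁻¹ * g) := by group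
  have h2 := FreeGroup.norm_mul_le x (x⁻¹ * g)
  rw [← h1] at h2
  omega

theorem PhA_le2 (g y : FreeGroup (Fin 3)) : g.norm ≤ (g * y).norm + y.norm := by
  have h1 : g = (g * y) * y⁻¹ := by group
  have h2 := FreeGroup.norm_mul_le (g * y) y⁻¹
  rw [← h1, FreeGroup.norm_inv_eq] at h2
  exact h2

theorem PhA_word {a b : FreeGroup (Fin 3)} (h : (a * b).norm = a.norm + b.norm) :
    (a * b).toWord = a.toWord ++ b.toWord := by
  apply (FreeGroup.toWord_mul_sublist a b).eq_of_length
  rw [List.length_append]
  exact h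

theorem PhA_ahd {a b : FreeGroup (Fin 3)} (ha : a ≠ 1) (h : (a * b).norm = a.norm + b.norm) :
    ahd (a * b) = ahd a := by
  unfold ahd
  rw [PhA_word h]
  have hne : a.toWord ≠ [] := fun h' => ha (FreeGroup.toWord_eq_nil_iff.1 h')
  obtain ⟨c, l, hl⟩ := List.exists_cons_of_ne_nil hne
  rw [hl]
  rfl

/-- left multiplication -/
theorem PhA_mulL {x g : FreeGroup (Fin 3)} {z : Fin 3 × Bool} (hx : ahd x = some z) :
    g.norm + x.norm ≤ (x⁻¹ * g).norm + 2 * x.norm * (if ahd g = some z then 1 else 0) := by
  by_cases h : ahd g = some z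
  · rw [if_pos h]
    have := PhA_le1 x g
    omega
  · rw [if_neg h]
    have h1 : ahd x ≠ ahd g := by
      rw [hx]
      exact fun h' => h h'.symm
    have := hd_diff h1
    omega

theorem arc_lower {x y g : FreeGroup (Fin 3)} {z w : Fin 3 × Bool} (hx : ahd x = some z)
    (hy : ahd y = some w) : g.norm + x.norm + y.norm ≤ (x⁻¹ * g * y).norm +
      2 * x.norm * (if ahd g = some z then 1 else 0) +
      2 * y.norm * (if ahd g⁻¹ = some w then 1 else 0) +
      (if g = 1 ∧ z = w then 2 * min x.norm y.norm else 0) := by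
  by_cases hg : g = 1
  · subst hg
    have h0 : (1 : FreeGroup (Fin 3)).norm = 0 := FreeGroup.norm_one
    rw [inv_one, ahd_one, h0, mul_one]
    simp only [reduceCtorEq, if_false, mul_zero, add_zero, true_and]
    by_cases hzw : z = w
    · rw [if_pos hzw]
      have h1 := PhA_le1 x y
      have h2 := PhA_le2 x⁻¹ y
      rw [FreeGroup.norm_inv_eq] at h2
      omega
    · rw [if_neg hzw]
      have h1 : ahd x ≠ ahd y := by
        rw [hx, hy]
        exact fun h => hzw (Option.some.inj h)
      have := hd_diff h1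
      omega
  · have h0 : ¬ (g = 1 ∧ z = w) := fun h => hg h.1
    rw [if_neg h0]
    by_cases hN : ahd g = some z
    · rw [if_pos hN]
      have h1 := PhA_mulL (g := g⁻¹) hy
      have h2 : (y⁻¹ * g⁻¹).norm = (g * y).norm := by
        rw [← FreeGroup.norm_inv_eq (x := g * y), mul_inv_rev]
      rw [h2, FreeGroup.norm_inv_eq] at h1
      have h3 := PhA_le1 x (g * y)
      rw [← mul_assoc] at h3
      omega
    · rw [if_neg hN]
      have h1 : ahd x ≠ ahd g := by
        rw [hx]
        exact fun h' => hN h'.symm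
      have h2 := hd_diff h1
      by_cases hM : ahd g⁻¹ = some w
      · rw [if_pos hM]
        have h3 := PhA_le2 (x⁻¹ * g) y
        omega
      · rw [if_neg hM]
        have h3 : (g⁻¹ * x).norm = g⁻¹.norm + x.norm := by
          have h4 : (g⁻¹ * x).norm = (x⁻¹ * g).norm := by
            rw [← FreeGroup.norm_inv_eq (x := x⁻¹ * g), mul_inv_rev, inv_inv]
          rw [h4, h2, FreeGroup.norm_inv_eq, add_comm]
        have h4 : ahd (g⁻¹ * x) = ahd g⁻¹ := PhA_ahd (fun h => hg (inv_eq_one.1 h)) h3
        have h5 : ahd (g⁻¹ * x) ≠ ahd y := by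
          rw [h4, hy]
          exact hM
        have h6 := hd_diff h5
        rw [mul_inv_rev, inv_inv, h3, FreeGroup.norm_inv_eq] at h6
        omega

theorem pre_tl_ps {h : ℕ} {T : List Arc} (hends : ∀ p, ane p T = 2 * h)
    (hntr : ∀ e ∈ T, e.1 = e.2.1 → e.2.2 ≠ 1) (p : Bool) (z : Fin 3 × Bool) :
    atl (ast (ps p (lett z)) T) + 2 * anz p z T = atl T + 2 * h := by
  rw [PhA_atl_ast, ← hends p]
  exact PhA_sum _ _ _ _ T fun e he => PhA_arc_ps p z e (hntr e he)

theorem pre_tl_bo {h : ℕ} {T : List Arc} (hends : ∀ p, ane p T = 2 * h)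
    (hntr : ∀ e ∈ T, e.1 = e.2.1 → e.2.2 ≠ 1) (z : Fin 3 × Bool) :
    atl (ast (bo (lett z)) T) + 2 * (anz true z T + anz false z T + anq T) = atl T + 4 * h := by
  have h1 := PhA_sum (fun e => (alab (bo (lett z)) e).norm) _ (fun e => e.2.2.norm) (fun _ => 2)
    T fun e _ => PhA_arc_bo z e
  have h2 := PhA_ane_sum T
  rw [hends, hends] at h2
  rw [← PhA_anz_add, ← PhA_atl_ast, List.map_const', List.sum_replicate, smul_eq_mul] at h1
  have h3 : 4 * h = T.length * 2 := by omega
  rw [h3]
  exact h1

theorem PhA_sum_le (a b : Arc → ℕ) (T : List Arc) (h : ∀ e ∈ T, a e ≤ b e) :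
    (T.map a).sum ≤ (T.map b).sum := by
  induction T with
  | nil => exact le_rfl
  | cons e T ih =>
    simp only [List.map_cons, List.sum_cons]
    exact Nat.add_le_add (h e List.mem_cons_self)
      (ih fun e' he' => h e' (List.mem_cons_of_mem _ he'))

theorem PhA_ane_mul (p : Bool) (T : List Arc) (X : ℕ) :
    (T.map (fun e => X * ((if e.1 = p then 1 else 0) + (if e.2.1 = p then 1 else 0)))).sum =
      X * ane p T := by
  unfold ane
  rw [List.sum_map_mul_left]

theorem PhA_anz_mul (p : Bool) (z : Fin 3 × Bool) (T : List Arc) (X : ℕ) :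
    (T.map (fun e => X * ((if e.1 = p ∧ ahd e.2.2 = some z then 1 else 0) +
      (if e.2.1 = p ∧ ahd (e.2.2)⁻¹ = some z then 1 else 0)))).sum = X * anz p z T := by
  unfold anz
  rw [List.sum_map_mul_left]

theorem PhA_anq_mul (T : List Arc) (X : ℕ) :
    (T.map (fun e => X * (if e.2.2 = 1 then 1 else 0))).sum = X * anq T := by
  unfold anq
  rw [List.sum_map_mul_left]

theorem len_lower {h : ℕ} {T : List Arc} (hends : ∀ p, ane p T = 2 * h)
    (hntr : ∀ e ∈ T, e.1 = e.2.1 → e.2.2 ≠ 1) {u : PS} {z w : Fin 3 × Bool}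
    (hz : ahd (u true) = some z) (hw : ahd (u false) = some w) :
    atl T + 2 * h * ((u true).norm + (u false).norm) ≤ atl (ast u T) +
      2 * (u true).norm * anz true z T + 2 * (u false).norm * anz false w T +
      (if z = w then 2 * min (u true).norm (u false).norm * anq T else 0) := by
  have hQ : (if z = w then 2 * min (u true).norm (u false).norm * anq T else 0) =
      (if z = w then 2 * min (u true).norm (u false).norm else 0) * anq T := by
    split_ifs
    · rfl
    · rw [zero_mul]
  have hL : atl T + 2 * h * ((u true).norm + (u false).norm) =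
      (T.map (fun e => e.2.2.norm +
        ((u true).norm * ((if e.1 = true then 1 else 0) + (if e.2.1 = true then 1 else 0)) +
        (u false).norm * ((if e.1 = false then 1 else 0) +
          (if e.2.1 = false then 1 else 0))))).sum := by
    rw [List.sum_map_add, List.sum_map_add, PhA_ane_mul, PhA_ane_mul, hends, hends]
    unfold atl
    ring
  have hR : atl (ast u T) + 2 * (u true).norm * anz true z T +
      2 * (u false).norm * anz false w T +
      (if z = w then 2 * min (u true).norm (u false).norm else 0) * anq T =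
      (T.map (fun e => (alab u e).norm +
        2 * (u true).norm * ((if e.1 = true ∧ ahd e.2.2 = some z then 1 else 0) +
          (if e.2.1 = true ∧ ahd (e.2.2)⁻¹ = some z then 1 else 0)) +
        2 * (u false).norm * ((if e.1 = false ∧ ahd e.2.2 = some w then 1 else 0) +
          (if e.2.1 = false ∧ ahd (e.2.2)⁻¹ = some w then 1 else 0)) +
        (if z = w then 2 * min (u true).norm (u false).norm else 0) *
          (if e.2.2 = 1 then 1 else 0))).sum := by
    rw [List.sum_map_add, List.sum_map_add, List.sum_map_add, PhA_anz_mul, PhA_anz_mul,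
      PhA_anq_mul, PhA_atl_ast]
  rw [hQ, hL, hR]
  refine PhA_sum_le _ _ T fun e he => ?_
  have hne := hntr e he
  obtain ⟨q, r, g⟩ := e
  simp only [alab] at hne ⊢
  cases q <;> cases r
  · have hg : g ≠ 1 := hne rfl
    have h1 := arc_lower (g := g) hw hw
    have h0 : ¬ (g = 1 ∧ w = w) := fun h => hg h.1
    rw [if_neg h0] at h1
    rw [if_neg hg]
    simp only [false_and, true_and, if_true, if_false, mul_zero,
      add_zero, zero_add, Bool.false_eq_true] at h1 ⊢
    simp only [Nat.mul_add] at h1 ⊢
    omega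
  · have h1 := arc_lower (g := g) hw hz
    simp only [false_and, true_and, if_true, if_false, mul_one,
      add_zero, zero_add, Bool.false_eq_true, Bool.true_eq_false] at h1 ⊢
    have h2 : (if g = 1 ∧ w = z then 2 * min (u false).norm (u true).norm else 0) =
        (if z = w then 2 * min (u true).norm (u false).norm else 0) *
          (if g = 1 then 1 else 0) := by
      rw [min_comm]
      by_cases hg : g = 1 <;> by_cases hzw : z = w <;> simp [hg, hzw, eq_comm]
    omega
  · have h1 := arc_lower (g := g) hz hw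
    simp only [false_and, true_and, if_true, if_false, mul_one,
      add_zero, zero_add, Bool.false_eq_true, Bool.true_eq_false] at h1 ⊢
    have h2 : (if g = 1 ∧ z = w then 2 * min (u true).norm (u false).norm else 0) =
        (if z = w then 2 * min (u true).norm (u false).norm else 0) *
          (if g = 1 then 1 else 0) := by
      by_cases hg : g = 1 <;> by_cases hzw : z = w <;> simp [hg, hzw]
    omega
  · have hg : g ≠ 1 := hne rfl
    have h1 := arc_lower (g := g) hz hz
    have h0 : ¬ (g = 1 ∧ z = z) := fun h => hg h.1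
    rw [if_neg h0] at h1
    rw [if_neg hg]
    simp only [false_and, true_and, if_true, if_false, mul_zero,
      add_zero, Bool.true_eq_false] at h1 ⊢
    simp only [Nat.mul_add] at h1 ⊢
    omega

theorem len_lower1 {h : ℕ} {T : List Arc} (hends : ∀ p, ane p T = 2 * h)
    (hntr : ∀ e ∈ T, e.1 = e.2.1 → e.2.2 ≠ 1) (p : Bool) {x : FreeGroup (Fin 3)}
    {z : Fin 3 × Bool} (hz : ahd x = some z) :
    atl T + 2 * h * x.norm ≤ atl (ast (ps p x) T) + 2 * x.norm * anz p z T := by
  have hL : atl T + 2 * h * x.norm = (T.map (fun e => e.2.2.norm +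
        x.norm * ((if e.1 = p then 1 else 0) + (if e.2.1 = p then 1 else 0)))).sum := by
    rw [List.sum_map_add, PhA_ane_mul, hends]
    unfold atl
    ring
  have hR : atl (ast (ps p x) T) + 2 * x.norm * anz p z T =
      (T.map (fun e => (alab (ps p x) e).norm +
        2 * x.norm * ((if e.1 = p ∧ ahd e.2.2 = some z then 1 else 0) +
          (if e.2.1 = p ∧ ahd (e.2.2)⁻¹ = some z then 1 else 0)))).sum := by
    rw [List.sum_map_add, PhA_anz_mul, PhA_atl_ast]
  rw [hL, hR]
  refine PhA_sum_le _ _ T fun e he => ?_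
  have hne := hntr e he
  obtain ⟨q, r, g⟩ := e
  simp only [alab] at hne ⊢
  by_cases hq : q = p
  · subst hq
    by_cases hr : r = q
    · subst hr
      have hg : g ≠ 1 := hne rfl
      have h1 := arc_lower (g := g) hz hz
      have h0 : ¬ (g = 1 ∧ z = z) := fun h => hg h.1
      rw [if_neg h0] at h1
      rw [ps_self]
      simp only [true_and, if_true, add_zero] at h1 ⊢
      simp only [Nat.mul_add] at h1 ⊢
      omega
    · have hr' : r = !q := by
        cases q <;> cases r <;> simp_all
      subst hr'
      have h1 := PhA_mulL (g := g) hz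
      rw [ps_self, ps_not, mul_one]
      have h3 : ¬ ((!q) = q ∧ ahd g⁻¹ = some z) := fun h => hr h.1
      rw [if_neg h3, if_neg hr]
      simp only [true_and, if_true, mul_one, add_zero] at h1 ⊢
      exact h1
  · have hq' : q = !p := by
      cases q <;> cases p <;> simp_all
    subst hq'
    by_cases hr : r = p
    · subst hr
      have h1 := PhA_mulL (g := g⁻¹) hz
      rw [FreeGroup.norm_inv_eq] at h1
      have h2 : (g * x).norm = (x⁻¹ * g⁻¹).norm := by
        rw [← FreeGroup.norm_inv_eq (x := g * x), mul_inv_rev]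
      rw [ps_self, ps_not, inv_one, one_mul, h2]
      have h3 : ¬ ((!r) = r ∧ ahd g = some z) := fun h => hq h.1
      rw [if_neg h3, if_neg hq]
      simp only [true_and, if_true, mul_one, zero_add] at h1 ⊢
      exact h1
    · have hr' : r = !p := by
        cases r <;> cases p <;> simp_all
      subst hr'
      have h3 : ¬ ((!p) = p ∧ ahd g = some z) := fun h => hq h.1
      have h4 : ¬ ((!p) = p ∧ ahd g⁻¹ = some z) := fun h => hq h.1
      rw [ps_not, inv_one, one_mul, mul_one, if_neg h3, if_neg h4, if_neg hq]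
      simp

theorem PhA_pre_one {x : FreeGroup (Fin 3)} {z : Fin 3 × Bool} (hx : ahd x = some z) :
    (lett z).toWord <+: x.toWord := by
  have h1 : (lett z).toWord = [z] := by
    rw [lett, FreeGroup.toWord_mk]
    exact (FreeGroup.isReduced_iff_reduce_eq).1 (by simp)
  rw [h1]
  unfold ahd at hx
  generalize x.toWord = v at hx
  rcases v with _ | ⟨a, l⟩
  · simp at hx
  · have : a = z := by simpa using hx
    subst this
    exact ⟨l, rfl⟩

theorem PhA_lett_ne (z : Fin 3 × Bool) : (lett z).norm = 1 := by
  have h1 : (lett z).toWord = [z] := by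
    rw [lett, FreeGroup.toWord_mk]
    exact (FreeGroup.isReduced_iff_reduce_eq).1 (by simp)
  unfold FreeGroup.norm
  rw [h1]
  rfl

theorem PhA_pre_mul {s v u : FreeGroup (Fin 3)} (hs : s.toWord <+: u.toWord)
    (hv : v.toWord <+: (s⁻¹ * u).toWord) : (s * v).toWord <+: u.toWord := by
  obtain ⟨-, h1⟩ := pre_mul hs
  obtain ⟨l, hl⟩ := hv
  have h2 : s.toWord ++ v.toWord <+: u.toWord := by
    rw [h1, ← hl]
    exact ⟨l, by rw [List.append_assoc]⟩
  have h3 : FreeGroup.IsReduced (s.toWord ++ v.toWord) :=
    red_mid (FreeGroup.isReduced_toWord (x := u))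
      ⟨[], h2.choose, by rw [List.nil_append]; exact h2.choose_spec⟩
  rw [FreeGroup.toWord_mul, h3.reduce_eq]
  exact h2

theorem PhA_nat {X Y N M Q h : ℕ} (hX : 1 ≤ X) (hY : 1 ≤ Y) (hN : N ≤ h) (hM : M ≤ h)
    (hQ : N + M + Q < 2 * h) (hl : 2 * h * (X + Y) ≤ 2 * X * N + 2 * Y * M +
      2 * min X Y * Q) : False := by
  rcases le_total X Y with hXY | hXY
  · rw [min_eq_left hXY] at hl
    obtain ⟨d, rfl⟩ := Nat.exists_eq_add_of_le hXY
    nlinarith
  · rw [min_eq_right hXY] at hl
    obtain ⟨d, rfl⟩ := Nat.exists_eq_add_of_le hXY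
    nlinarith

/-- the first step -/
theorem PhA_first {h : ℕ} {T : List Arc} (hends : ∀ p, ane p T = 2 * h)
    (hntr : ∀ e ∈ T, e.1 = e.2.1 → e.2.2 ≠ 1) {u : PS}
    (hmin : ∀ v : PS, (∀ p, (v p).toWord <+: (u p).toWord) → atl T ≤ atl (ast v T))
    (hu : atl (ast u T) = atl T) (hne : u ≠ 1) :
    ∃ s : PS, ((∃ p z, s = ps p (lett z)) ∨ ∃ z, s = bo (lett z)) ∧
      (∀ p, (s p).toWord <+: (u p).toWord) ∧ atl (ast s T) = atl T := by
  have hone : ∀ (p : Bool) (z : Fin 3 × Bool), ahd (u p) = some z →
      (∀ q, (ps p (lett z) q).toWord <+: (u q).toWord) := by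
    intro p z hz q
    unfold ps
    split_ifs with hq
    · rw [hq]
      exact PhA_pre_one hz
    · rw [FreeGroup.toWord_one]
      exact List.nil_prefix
  have hle : ∀ (p : Bool) (z : Fin 3 × Bool), ahd (u p) = some z → anz p z T ≤ h := by
    intro p z hz
    have h1 := hmin _ (hone p z hz)
    have h2 := pre_tl_ps hends hntr p z
    omega
  have heq : ∀ (p : Bool) (z : Fin 3 × Bool), ahd (u p) = some z → h ≤ anz p z T →
      ∃ s : PS, ((∃ p z, s = ps p (lett z)) ∨ ∃ z, s = bo (lett z)) ∧
      (∀ p, (s p).toWord <+: (u p).toWord) ∧ atl (ast s T) = atl T := by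
    intro p z hz h3
    have h2 := pre_tl_ps hends hntr p z
    have h4 := hle p z hz
    exact ⟨ps p (lett z), Or.inl ⟨p, z, rfl⟩, hone p z hz, by omega⟩
  have hpos : ∀ (p : Bool) (z : Fin 3 × Bool), ahd (u p) = some z → 1 ≤ (u p).norm := by
    intro p z hz
    have h1 := (PhA_pre_one hz).length_le
    have h2 := PhA_lett_ne z
    unfold FreeGroup.norm at h2 ⊢
    omega
  have hsingle : ∀ p : Bool, u (!p) = 1 → ∀ z, ahd (u p) = some z → h ≤ anz p z T := by
    intro p hp z hz
    have h1 : u = ps p (u p) := PS_ext p (ps_self _ _).symm (by rw [hp, ps_not])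
    have h2 := len_lower1 hends hntr p hz
    rw [← h1, hu] at h2
    have h3 := hpos p z hz
    have h4 : 2 * h * (u p).norm ≤ 2 * (u p).norm * anz p z T := by omega
    have h5 : (2 * (u p).norm) * h ≤ (2 * (u p).norm) * anz p z T := by
      calc (2 * (u p).norm) * h = 2 * h * (u p).norm := by ring
        _ ≤ _ := h4
    exact Nat.le_of_mul_le_mul_left h5 (by omega)
  rcases ht : ahd (u true) with _ | z
  · have ht' : u true = 1 := ahd_eq_none.1 ht
    rcases hf : ahd (u false) with _ | w
    · exfalso
      exact hne (PS_ext true ht' (ahd_eq_none.1 hf))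
    · exact heq false w hf (hsingle false ht' w hf)
  · rcases hf : ahd (u false) with _ | w
    · exact heq true z ht (hsingle true (ahd_eq_none.1 hf) z ht)
    · have h1 := hle true z ht
      have h2 := hle false w hf
      by_cases h3 : h ≤ anz true z T
      · exact heq true z ht h3
      by_cases h4 : h ≤ anz false w T
      · exact heq false w hf h4
      have h5 := len_lower hends hntr ht hf
      rw [hu] at h5
      have h6 := hpos true z ht
      have h7 := hpos false w hf
      by_cases hzw : z = w
      · subst hzw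
        rw [if_pos rfl] at h5
        have h8 := pre_tl_bo hends hntr z
        have h9 : ∀ q, (bo (lett z) q).toWord <+: (u q).toWord := by
          intro q
          cases q
          · exact PhA_pre_one hf
          · exact PhA_pre_one ht
        have h10 := hmin _ h9
        refine ⟨bo (lett z), Or.inr ⟨z, rfl⟩, h9, ?_⟩
        by_contra h11
        have h12 : anz true z T + anz false z T + anq T < 2 * h := by omega
        exact PhA_nat h6 h7 h1 h2 h12 (by omega)
      · rw [if_neg hzw] at h5
        exfalso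
        have h8 : 2 * h * ((u true).norm + (u false).norm) ≤
            2 * (u true).norm * anz true z T + 2 * (u false).norm * anz false w T := by omega
        push Not at h3 h4
        nlinarith

theorem PhA_conn (h : ℕ) : ∀ (N : ℕ) (T : List Arc) (u : PS), (∀ p, ane p T = 2 * h) →
    (∀ e ∈ T, e.1 = e.2.1 → e.2.2 ≠ 1) → (u true).norm + (u false).norm = N →
    (∀ v : PS, (∀ p, (v p).toWord <+: (u p).toWord) → atl T ≤ atl (ast v T)) →
    atl (ast u T) = atl T → Relation.ReflTransGen (PStp T u) 1 u := by
  intro N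
  induction N using Nat.strong_induction_on with
  | _ N ih =>
    intro T u hends hntr hN hmin hu
    by_cases hne : u = 1
    · subst hne
      exact Relation.ReflTransGen.refl
    obtain ⟨s, hs1, hs2, hs3⟩ := PhA_first hends hntr hmin hu hne
    have hnorm : ∀ p, (s⁻¹ * u) p = (s p)⁻¹ * u p := fun p => rfl
    have hle : ∀ p, ((s⁻¹ * u) p).norm + (s p).norm = (u p).norm := by
      intro p
      rw [hnorm]
      exact (pre_mul (hs2 p)).1
    have hspos : 1 ≤ (s true).norm + (s false).norm := by
      rcases hs1 with ⟨p, z, rfl⟩ | ⟨z, rfl⟩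
      · cases p
        · have : ps false (lett z) false = lett z := ps_self _ _
          rw [this, PhA_lett_ne]
          omega
        · have : ps true (lett z) true = lett z := ps_self _ _
          rw [this, PhA_lett_ne]
          omega
      · have : bo (lett z) true = lett z := rfl
        rw [this, PhA_lett_ne]
        omega
    have h1 := hle true
    have h2 := hle false
    have hpre : ∀ v : PS, (∀ p, (v p).toWord <+: ((s⁻¹ * u) p).toWord) →
        ∀ p, ((s * v) p).toWord <+: (u p).toWord := by
      intro v hv p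
      exact PhA_pre_mul (hs2 p) (hv p)
    have hch := ih (((s⁻¹ * u) true).norm + ((s⁻¹ * u) false).norm) (by omega) (ast s T)
      (s⁻¹ * u) (fun p => by rw [ane_st, hends]) (by
        intro e he h1 h2
        unfold ast at he
        rw [List.mem_map] at he
        obtain ⟨e', he', rfl⟩ := he
        refine hntr e' he' h1 ?_
        have h3 : e'.1 = e'.2.1 := h1
        have h4 : (s e'.1)⁻¹ * e'.2.2 * s e'.2.1 = 1 := h2
        rw [← h3] at h4
        have h5 : e'.2.2 = s e'.1 * ((s e'.1)⁻¹ * e'.2.2 * s e'.1) * (s e'.1)⁻¹ := by group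
        rw [h5, h4]
        group) rfl (by
        intro v hv
        rw [ast_ast, hs3]
        exact hmin _ (hpre v hv)) (by
        rw [ast_ast, hs3, mul_inv_cancel_left, hu])
    have hstep : PStp T u 1 s := by
      refine ⟨hs2, hs3, ?_⟩
      rcases hs1 with ⟨p, z, rfl⟩ | ⟨z, rfl⟩
      · exact Or.inl ⟨p, z, by rw [one_mul]⟩
      · exact Or.inr ⟨z, by rw [one_mul]⟩
    have hlift : Relation.ReflTransGen (PStp T u) (s * 1) (s * (s⁻¹ * u)) := by
      refine Relation.ReflTransGen.lift (p := PStp T u) (fun v => s * v) ?_ _ _ hch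
      rintro v w ⟨hw1, hw2, hw3⟩
      show PStp T u (s * v) (s * w)
      refine ⟨hpre w hw1, ?_, ?_⟩
      · rw [← ast_ast, hw2, hs3]
      · rcases hw3 with ⟨p, z, rfl⟩ | ⟨z, rfl⟩
        · exact Or.inl ⟨p, z, by rw [mul_assoc]⟩
        · exact Or.inr ⟨z, by rw [mul_assoc]⟩
    rw [mul_one, mul_inv_cancel_left] at hlift
    exact Relation.ReflTransGen.head hstep hlift

theorem conn_pre {h : ℕ} {T : List Arc} (hends : ∀ p, ane p T = 2 * h)
    (hntr : ∀ e ∈ T, e.1 = e.2.1 → e.2.2 ≠ 1) {u : PS}
    (hmin : ∀ v : PS, (∀ p, (v p).toWord <+: (u p).toWord) → atl T ≤ atl (ast v T))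
    (hu : atl (ast u T) = atl T) : Relation.ReflTransGen (PStp T u) 1 u :=
  PhA_conn h _ T u hends hntr rfl hmin hu

/-- all level states are reachable -/
theorem Rch_of_Lv2 {h : ℕ} {T : List Arc} (hT : TOK h T) {u : PS} (hu : Lv2 T u) :
    Rch T u := by
  have hin : ∀ v : PS, (∀ p, (v p).toWord <+: (u p).toWord) → ∀ p, In12 (v p) := by
    intro v hv p x hx
    exact hu.1 p x ((hv p).subset hx)
  have h1 := conn_pre hT.ends hT.ntr (u := u) (fun v hv => hT.min v (hin v hv)) hu.2
  have h2 : ∀ w, Relation.ReflTransGen (PStp T u) 1 w → Rch T w ∧ ∀ p, In12 (w p) := by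
    intro w hw
    induction hw with
    | refl => exact ⟨Relation.ReflTransGen.refl, fun p => In12_one⟩
    | @tail v w hv hvw ih =>
      obtain ⟨hw1, hw2, hw3⟩ := hvw
      have h3 := hin w hw1
      refine ⟨Relation.ReflTransGen.tail ih.1 ⟨⟨h3, hw2⟩, ?_⟩, h3⟩
      have hz : ∀ (p : Bool) (z : Fin 3 × Bool), w p = v p * lett z → z.1 ≠ 0 := by
        intro p z hz
        have h4 : In12 (lett z) := by
          have h5 : lett z = (v p)⁻¹ * w p := by
            rw [hz]
            group
          rw [h5]
          exact In12_mul (In12_inv (ih.2 p)) (h3 p)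
        apply h4 z
        have h6 : (lett z).toWord = [z] := by
          rw [lett, FreeGroup.toWord_mk]
          exact (FreeGroup.isReduced_iff_reduce_eq).1 (by simp)
        rw [h6]
        exact List.mem_singleton_self z
      rcases hw3 with ⟨p, z, rfl⟩ | ⟨z, rfl⟩
      · refine ⟨z, hz p z ?_, Or.inl ⟨p, rfl⟩⟩
        rw [Pi.mul_apply, ps_self]
      · refine ⟨z, hz true z ?_, Or.inr rfl⟩
        rw [Pi.mul_apply]
        rfl
  exact (h2 u h1).1

end Pool.Agent.Sims
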