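import Pool.Agent.Sims.TpA

/-!
# Module `TpB` : lengths after one move

* `rr_ahd`: `ConjA_head`.
* `tl_ps`: arc by arc.  Let `z` be the letter (`z.1 ≠ 0`), the port `p` moves.  Both ports `p` (then `g ≠ 1`): `norm_cj`.  Left port `p`, right port `≠ p`: the new label is `z⁻¹ g`, its
  norm is `|g| - 1` if the first letter of `g` is `z` and `|g| + 1` otherwise (`ConjA_left_pos`, `ConjA_left_neg` for `lett (bar z)`).  Right port `p` only: the
  new label is `g z`, the inverse of `z⁻¹ g⁻¹`.  None: no change.  So for every arc `new + 2 (number of its p-ends with first letter z) = old + (number of its p-ends)`; sum up, `ends`.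
* `tl_bo`: the new labels are `z⁻¹ g z`: `norm_cj` for `g ≠ 1`, and `0` for `g = 1`: `new + 2 rr z g + 2 [g = 1] = old + 2`; the sum of `rr z g` over all arcs is
  `anz true z T + anz false z T`, the number of arcs is `2h` (`length_eq`).
* `anz_le`, `anz_bo_le`: from `TOK.min` (`ps_in12`, `bo_in12`, `In12_lett`).  `lv_ps`, `lv_bo` the same.
* `anz_zero`: the letters of the labels and of their inverses are `b^{±1}, c^{±1}` (`In12`, `In12_inv`).
* `anz_sum`: every end of a nontrivial arc has exactly one first letter: `∑_z anz p z T + (number of p-ends of trivial arcs) = ane p T`; a trivial arc is mixed (`ntr`), so it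
  has exactly one `p`-end.
Difficulty 2.
-/

namespace Pool.Agent.Sims

open FreeGroup (of)

theorem rr_ahd (z : Fin 3 × Bool) (g : FreeGroup (Fin 3)) :
    rr z g = (if ahd g = some z then 1 else 0) + (if ahd g⁻¹ = some z then 1 else 0) := by
  unfold rr ahd
  simp only [ConjA_head]

theorem ahd_eq_none {g : FreeGroup (Fin 3)} : ahd g = none ↔ g = 1 := by
  unfold ahd
  rw [List.head?_eq_none_iff, FreeGroup.toWord_eq_nil_iff]

theorem ahd_one : ahd 1 = none := ahd_eq_none.2 rfl

theorem ahd_in12 {g : FreeGroup (Fin 3)} (hg : In12 g) {z : Fin 3 × Bool} (h : ahd g = some z) :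
    z.1 ≠ 0 := hg z (List.mem_of_head? h)

theorem TpB_left (z : Fin 3 × Bool) (g : FreeGroup (Fin 3)) :
    ((lett z)⁻¹ * g).norm + 2 * (if ahd g = some z then 1 else 0) = g.norm + 1 := by
  unfold FreeGroup.norm ahd
  rw [← lett_bar]
  by_cases h : g.toWord.head? = some z
  · rw [if_pos h, ConjA_left_pos (by rw [bar_bar]; exact h)]
    have hne : g.toWord ≠ [] := by
      intro h'
      rw [h'] at h
      simp at h
    have hpos : 1 ≤ g.toWord.length := List.length_pos_iff.2 hne
    rw [List.length_tail]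
    omega
  · rw [if_neg h, ConjA_left_neg (by rw [bar_bar]; exact h), List.length_cons]

theorem TpB_arc_ps (p : Bool) (z : Fin 3 × Bool) (e : Arc) (he : e.1 = e.2.1 → e.2.2 ≠ 1) :
    (alab (ps p (lett z)) e).norm + 2 * ((if e.1 = p ∧ ahd e.2.2 = some z then 1 else 0) +
      (if e.2.1 = p ∧ ahd (e.2.2)⁻¹ = some z then 1 else 0)) =
    e.2.2.norm + ((if e.1 = p then 1 else 0) + (if e.2.1 = p then 1 else 0)) := by
  obtain ⟨q, r, g⟩ := e
  simp only [alab] at he ⊢
  by_cases hq : q = p
  · subst hq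
    by_cases hr : r = q
    · subst hr
      have h1 := norm_cj z (he rfl)
      rw [rr_ahd] at h1
      rw [ps_self]
      simp only [true_and, if_true]
      exact h1
    · have hr' : r = !q := by
        cases q <;> cases r <;> simp_all
      subst hr'
      have h1 := TpB_left z g
      rw [ps_self, ps_not, mul_one]
      simp only [true_and, if_true, if_neg hr]
      have h3 : ¬ ((!q) = q ∧ ahd g⁻¹ = some z) := fun h => hr h.1
      rw [if_neg h3]
      omega
  · have hq' : q = !p := by
      cases q <;> cases p <;> simp_all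
    subst hq'
    by_cases hr : r = p
    · subst hr
      have h1 := TpB_left z g⁻¹
      rw [FreeGroup.norm_inv_eq] at h1
      have h2 : (g * lett z).norm = ((lett z)⁻¹ * g⁻¹).norm := by
        rw [← FreeGroup.norm_inv_eq (x := g * lett z), mul_inv_rev]
      rw [ps_self, ps_not, inv_one, one_mul, h2]
      simp only [true_and, if_true, if_neg hq]
      rw [if_neg (fun h => hq h.1)]
      omega
    · have hr' : r = !p := by
        cases r <;> cases p <;> simp_all
      subst hr'
      rw [ps_not, inv_one, one_mul, mul_one]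
      simp only [if_neg hq]
      rw [if_neg (fun h => hq h.1), if_neg (fun h => hq h.1)]

theorem TpB_sum (a b c d : Arc → ℕ) (T : List Arc) (h : ∀ e ∈ T, a e + 2 * b e = c e + d e) :
    (T.map a).sum + 2 * (T.map b).sum = (T.map c).sum + (T.map d).sum := by
  induction T with
  | nil => rfl
  | cons e T ih =>
    have h1 := h e List.mem_cons_self
    have h2 := ih fun e' he' => h e' (List.mem_cons_of_mem _ he')
    simp only [List.map_cons, List.sum_cons]
    omega

theorem TpB_atl_ast (u : PS) (T : List Arc) :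
    atl (ast u T) = (T.map (fun e => (alab u e).norm)).sum := by
  unfold atl ast
  rw [List.map_map]
  rfl

theorem tl_ps {h : ℕ} {T : List Arc} (hT : TOK h T) (p : Bool) {z : Fin 3 × Bool}
    (hz : z.1 ≠ 0) : atl (ast (ps p (lett z)) T) + 2 * anz p z T = atl T + 2 * h := by
  rw [TpB_atl_ast, ← hT.ends p]
  exact TpB_sum _ _ _ _ T fun e he => TpB_arc_ps p z e (hT.ntr e he)

theorem TpB_arc_bo (z : Fin 3 × Bool) (e : Arc) :
    (alab (bo (lett z)) e).norm + 2 * (((if e.1 = true ∧ ahd e.2.2 = some z then 1 else 0) +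
      (if e.2.1 = true ∧ ahd (e.2.2)⁻¹ = some z then 1 else 0)) +
      ((if e.1 = false ∧ ahd e.2.2 = some z then 1 else 0) +
      (if e.2.1 = false ∧ ahd (e.2.2)⁻¹ = some z then 1 else 0)) +
      (if e.2.2 = 1 then 1 else 0)) =
    e.2.2.norm + 2 := by
  obtain ⟨q, r, g⟩ := e
  simp only [alab, bo]
  by_cases hg : g = 1
  · subst hg
    have h1 : (lett z)⁻¹ * 1 * lett z = 1 := by group
    rw [h1, inv_one, ahd_one]
    simp
  · have h1 := norm_cj z hg
    rw [rr_ahd] at h1
    rw [if_neg hg]
    cases q <;> cases r <;>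
      simp only [true_and, false_and, if_false, Bool.false_eq_true, reduceCtorEq] <;> omega

theorem TpB_anz_add (z : Fin 3 × Bool) (T : List Arc) : anz true z T + anz false z T + anq T =
    (T.map (fun e => ((if e.1 = true ∧ ahd e.2.2 = some z then 1 else 0) +
      (if e.2.1 = true ∧ ahd (e.2.2)⁻¹ = some z then 1 else 0)) +
      ((if e.1 = false ∧ ahd e.2.2 = some z then 1 else 0) +
      (if e.2.1 = false ∧ ahd (e.2.2)⁻¹ = some z then 1 else 0)) +
      (if e.2.2 = 1 then 1 else 0))).sum := by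
  unfold anz anq
  rw [← List.sum_map_add, ← List.sum_map_add]

theorem tl_bo {h : ℕ} {T : List Arc} (hT : TOK h T) {z : Fin 3 × Bool} (hz : z.1 ≠ 0) :
    atl (ast (bo (lett z)) T) + 2 * (anz true z T + anz false z T + anq T) = atl T + 4 * h := by
  have h1 := TpB_sum (fun e => (alab (bo (lett z)) e).norm) _ (fun e => e.2.2.norm) (fun _ => 2)
    T fun e _ => TpB_arc_bo z e
  rw [← TpB_anz_add, ← TpB_atl_ast, List.map_const', List.sum_replicate, length_eq hT,
    smul_eq_mul] at h1
  have h2 : 4 * h = 2 * h * 2 := by ring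
  rw [h2]
  exact h1

theorem anz_le {h : ℕ} {T : List Arc} (hT : TOK h T) (p : Bool) {z : Fin 3 × Bool}
    (hz : z.1 ≠ 0) : anz p z T ≤ h := by
  have h1 := tl_ps hT p hz
  have h2 := hT.min (ps p (lett z)) (ps_in12 (In12_lett hz))
  omega

theorem anz_bo_le {h : ℕ} {T : List Arc} (hT : TOK h T) {z : Fin 3 × Bool} (hz : z.1 ≠ 0) :
    anz true z T + anz false z T + anq T ≤ 2 * h := by
  have h1 := tl_bo hT hz
  have h2 := hT.min (bo (lett z)) (bo_in12 (In12_lett hz))
  omega

theorem lv_ps {h : ℕ} {T : List Arc} (hT : TOK h T) (p : Bool) {z : Fin 3 × Bool}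
    (hz : z.1 ≠ 0) : Lv2 T (ps p (lett z)) ↔ anz p z T = h := by
  have h1 := tl_ps hT p hz
  constructor
  · rintro ⟨-, h2⟩
    omega
  · intro h2
    exact ⟨ps_in12 (In12_lett hz), by omega⟩

theorem lv_bo {h : ℕ} {T : List Arc} (hT : TOK h T) {z : Fin 3 × Bool} (hz : z.1 ≠ 0) :
    Lv2 T (bo (lett z)) ↔ anz true z T + anz false z T + anq T = 2 * h := by
  have h1 := tl_bo hT hz
  constructor
  · rintro ⟨-, h2⟩
    omega
  · intro h2
    exact ⟨bo_in12 (In12_lett hz), by omega⟩

theorem anz_zero {T : List Arc} (hT : ∀ e ∈ T, In12 e.2.2) (p : Bool) {z : Fin 3 × Bool}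
    (hz : z.1 = 0) : anz p z T = 0 := by
  unfold anz
  refine List.sum_eq_zero fun x hx => ?_
  rw [List.mem_map] at hx
  obtain ⟨e, he, rfl⟩ := hx
  rw [if_neg (fun h => ahd_in12 (hT e he) h.2 hz),
    if_neg (fun h => ahd_in12 (In12_inv (hT e he)) h.2 hz), zero_add]

theorem TpB_one_letter (P : Prop) [Decidable P] {g : FreeGroup (Fin 3)} (hg : g ≠ 1) :
    ∑ z : Fin 3 × Bool, (if P ∧ ahd g = some z then 1 else 0) = if P then 1 else 0 := by
  by_cases hP : P
  · rw [if_pos hP]
    obtain ⟨a, ha⟩ := Option.ne_none_iff_exists'.1 (fun h => hg (ahd_eq_none.1 h))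
    rw [ha, Finset.sum_eq_single a]
    · rw [if_pos ⟨hP, rfl⟩]
    · intro b _ hb
      rw [if_neg (fun h => hb (Option.some.inj h.2).symm)]
    · intro h
      exact absurd (Finset.mem_univ a) h
  · rw [if_neg hP]
    refine Finset.sum_eq_zero fun z _ => ?_
    rw [if_neg (fun h => hP h.1)]

theorem TpB_sum_arc (p : Bool) (e : Arc) (he : e.1 = e.2.1 → e.2.2 ≠ 1) :
    ∑ z : Fin 3 × Bool, ((if e.1 = p ∧ ahd e.2.2 = some z then 1 else 0) +
      (if e.2.1 = p ∧ ahd (e.2.2)⁻¹ = some z then 1 else 0)) + (if e.2.2 = 1 then 1 else 0) =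
    (if e.1 = p then 1 else 0) + (if e.2.1 = p then 1 else 0) := by
  by_cases hg : e.2.2 = 1
  · rw [if_pos hg]
    have h1 : ∑ z : Fin 3 × Bool, ((if e.1 = p ∧ ahd e.2.2 = some z then 1 else 0) +
      (if e.2.1 = p ∧ ahd (e.2.2)⁻¹ = some z then 1 else 0)) = 0 := by
      refine Finset.sum_eq_zero fun z _ => ?_
      rw [hg, inv_one, ahd_one]
      simp
    rw [h1]
    have h2 : e.1 ≠ e.2.1 := fun h => he h hg
    generalize e.1 = q at h2
    generalize e.2.1 = r at h2
    cases p <;> cases q <;> cases r <;> simp_all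
  · rw [if_neg hg, add_zero, Finset.sum_add_distrib, TpB_one_letter _ hg,
      TpB_one_letter _ (fun h => hg (inv_eq_one.1 h))]

theorem anz_sum {h : ℕ} {T : List Arc} (hT : TOK h T) (p : Bool) :
    ∑ z : Fin 3 × Bool, anz p z T + anq T = 2 * h := by
  rw [← hT.ends p]
  have h1 := hT.ntr
  clear hT
  induction T with
  | nil =>
    have h2 : ∀ z, anz p z [] = 0 := fun _ => rfl
    simp only [h2, Finset.sum_const_zero]
    rfl
  | cons e T ih =>
    have h2 := ih fun e' he' => h1 e' (List.mem_cons_of_mem _ he')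
    have h3 := TpB_sum_arc p e (h1 e List.mem_cons_self)
    have h4 : ∀ z, anz p z (e :: T) = ((if e.1 = p ∧ ahd e.2.2 = some z then 1 else 0) +
      (if e.2.1 = p ∧ ahd (e.2.2)⁻¹ = some z then 1 else 0)) + anz p z T := fun _ => rfl
    have h5 : anq (e :: T) = (if e.2.2 = 1 then 1 else 0) + anq T := rfl
    have h6 : ane p (e :: T) = ((if e.1 = p then 1 else 0) + (if e.2.1 = p then 1 else 0)) +
      ane p T := rfl
    simp only [h4]
    rw [Finset.sum_add_distrib, h5, h6]
    omega

theorem TpB_sum_le {h : ℕ} {T : List Arc} (hT : TOK h T) (p : Bool) (S : Finset (Fin 3 × Bool)) :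
    ∑ z ∈ S, anz p z T + anq T ≤ 2 * h := by
  rw [← anz_sum hT p]
  exact Nat.add_le_add_right (Finset.sum_le_sum_of_subset (Finset.subset_univ S)) _

/-- two or three letters -/
theorem anz_two_le {h : ℕ} {T : List Arc} (hT : TOK h T) (p : Bool) {z w : Fin 3 × Bool}
    (hzw : z ≠ w) : anz p z T + anz p w T + anq T ≤ 2 * h := by
  have h1 := TpB_sum_le hT p {z, w}
  rw [Finset.sum_pair hzw] at h1
  exact h1

theorem anz_three_le {h : ℕ} {T : List Arc} (hT : TOK h T) (p : Bool) {z w y : Fin 3 × Bool}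
    (hzw : z ≠ w) (hzy : z ≠ y) (hwy : w ≠ y) :
    anz p z T + anz p w T + anz p y T + anq T ≤ 2 * h := by
  have h1 := TpB_sum_le hT p {z, w, y}
  rw [Finset.sum_insert (by simp [hzw, hzy]), Finset.sum_pair hwy] at h1
  omega

/-- the number of trivial arcs does not change if both ports move -/
theorem anq_bo (T : List Arc) (x : FreeGroup (Fin 3)) : anq (ast (bo x) T) = anq T := by
  unfold anq ast
  rw [List.map_map]
  congr 1
  refine List.map_congr_left fun e _ => ?_
  simp only [Function.comp_apply, alab, bo]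
  have h : x⁻¹ * e.2.2 * x = 1 ↔ e.2.2 = 1 := by
    constructor
    · intro h
      have h2 : e.2.2 = x * (x⁻¹ * e.2.2 * x) * x⁻¹ := by group
      rw [h2, h]
      group
    · intro h
      rw [h]
      group
  by_cases hg : e.2.2 = 1
  · rw [if_pos hg, if_pos (h.2 hg)]
  · rw [if_neg hg, if_neg (fun h' => hg (h.1 h'))]

end Pool.Agent.Sims
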