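import Pool.Agent.Sims.TpLa
import Pool.Agent.Sims.TpB

/-!
# Module `PhB` : corners and barbell words

Corner `τ : Bool → Bool`: `τ p = true` means that the port `p` is on the side of `c`, `false`: on the side of `b`.
* `cutT τ` : the cut with `b^{±1}` inside, `c^{±1}` outside, the letter `(0, p)` inside iff the port `p` is on the side of `b`.
  Corner (b,b): the complement of `PrC 2`; (X on b, Y on c) = (false, true): `Sb`; the other mixed one: the complement of `Sc`; (c,c): `PrC 1`.
* `xarc τ p q g` : number of crossings of the cut along the arc; `xc τ T` : the sum.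
* `io` : `b ↦ b`, `c ↦ s c s⁻¹` with `s = of 0` (barbell graph: loops `b`, `c` joined by the edge `s`).  `ss t` : `s` or `1`.  `bT T`, `bU u τ` : image list, position of the ports.
* `xc_cap`: `capC (cls w) A = cap w A` (`capC_cls`, `ArcA_mk`, `ArcA_CR_iff`), `cap = cyc ..` over the arcs (`ArcA_cyc`): the segment of the arc `(ε_i, g_i)` is `lin f (0, ε_i) g_i.toWord (0, ε_{i+1})`, and the
  right port is `!ε_{i+1}`, so `(0, !q) = (0, ε_{i+1})` in `xarc`; the sum over `List.zipWith .. L (L.rotate 1)` is the cyclic sum.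
* `io_norm`: the word `W` of `s^{-[τ p]} io g s^{[τ q]}`: go through the letters of `g`, insert `s` when the side changes from `b` to `c`, `s⁻¹` when it changes from `c` to `b` (the starting side is given by `τ p`, the final
  one by `τ q`).  It is reduced, and its length is the number of letters of `g` plus the number of changes = `xarc`.  E.g. by induction on the reduced word `g.toWord = x :: v` with a
  generalization: for a side `t` and a reduced word `v` in `b^{±1}, c^{±1}` the element `(ss t)⁻¹ * io (mk v) * ss t'` has the word `bw t v t'` (recursive definition), reduced.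
* `bT_len`: arc by arc: the label in the state `bU u τ` is `(ss (τ p))⁻¹ (io (u p))⁻¹ (io g) (io (u q)) (ss (τ q)) = (ss (τ p))⁻¹ io (alab u e) ss (τ q)`; `io_norm`.
* `bT_ends`, `bT_ntr`: `io` is injective on `⟨b, c⟩`: `rho (io g) = g` for the homomorphism `rho` with `of 0 ↦ 1`.
* `xc_bb`: corner (b,b): `0` at both ends; `xc_mix` etc.: differences between corners: moving the port `p` from `b` to `c` changes `xc` by `2h - 2 (number of p-ends with first letter c^{±1})`.
Difficulty 3.
-/

namespace Pool.Agent.Sims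

open FreeGroup (of)

/-- the cut of a corner -/
def cutT (τ : Bool → Bool) : Fin 3 × Bool → Bool :=
  fun x => if x.1 = 0 then !(τ x.2) else decide (x.1 = 1)

/-- crossings of the corner cut along an arc -/
def xarc (τ : Bool → Bool) (p q : Bool) (g : FreeGroup (Fin 3)) : ℕ :=
  lin (fun x y => if cutT τ x = cutT τ (bar y) then 0 else 1) (0, p) g.toWord (0, !q)

/-- crossings of the corner cut -/
def xc (τ : Bool → Bool) (T : List Arc) : ℕ := (T.map (fun e => xarc τ e.1 e.2.1 e.2.2)).sum

/-- `b ↦ b`, `c ↦ s c s⁻¹` -/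
def io : FreeGroup (Fin 3) →* FreeGroup (Fin 3) :=
  FreeGroup.lift (fun i => if i = 2 then of 0 * of 2 * (of 0)⁻¹ else of i)

/-- the position of a side -/
def ss (t : Bool) : FreeGroup (Fin 3) := if t then of 0 else 1

/-- the barbell arcs -/
def bT (T : List Arc) : List Arc := T.map (fun e => (e.1, e.2.1, io e.2.2))

/-- the barbell state -/
def bU (u : PS) (τ : Bool → Bool) : PS := fun p => io (u p) * ss (τ p)

/-- forget `s` -/
def rho : FreeGroup (Fin 3) →* FreeGroup (Fin 3) :=
  FreeGroup.lift (fun i => if i = 0 then 1 else of i)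

/-- the side of a letter -/
def PhB_sd (x : Fin 3 × Bool) : Bool := decide (x.1 = 2)

/-- number of changes of the side -/
def PhB_x : Bool → List (Fin 3 × Bool) → Bool → ℕ
  | t, [], t' => if t = t' then 0 else 1
  | t, x :: v, t' => (if t = PhB_sd x then 0 else 1) + PhB_x (PhB_sd x) v t'

/-- the word of a change of the side -/
def PhB_tr (t t' : Bool) : List (Fin 3 × Bool) := if t = t' then [] else [(0, t')]

/-- the barbell word -/
def PhB_bw : Bool → List (Fin 3 × Bool) → Bool → List (Fin 3 × Bool)
  | t, [], t' => PhB_tr t t'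
  | t, x :: v, t' => PhB_tr t (PhB_sd x) ++ x :: PhB_bw (PhB_sd x) v t'

theorem PhB_tr_mk (t t' : Bool) : FreeGroup.mk (PhB_tr t t') = (ss t)⁻¹ * ss t' := by
  cases t <;> cases t'
  · simp [PhB_tr, ss, FreeGroup.one_eq_mk]
  · have h : FreeGroup.mk [((0 : Fin 3), true)] = of 0 := rfl
    simp [PhB_tr, ss, h]
  · have h : FreeGroup.mk [((0 : Fin 3), false)] = (of 0)⁻¹ := lett_false 0
    simp [PhB_tr, ss, h]
  · simp [PhB_tr, ss, FreeGroup.one_eq_mk]

theorem PhB_io_lett {x : Fin 3 × Bool} (hx : x.1 ≠ 0) :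
    io (lett x) = ss (PhB_sd x) * lett x * (ss (PhB_sd x))⁻¹ := by
  rcases x with ⟨i, b⟩
  have hi : i ≠ 0 := hx
  have h12 : i = 1 ∨ i = 2 := by
    have : ∀ i : Fin 3, i ≠ 0 → i = 1 ∨ i = 2 := by decide
    exact this i hi
  have h1 : io (of 1) = of 1 := by simp [io]
  have h2 : io (of 2) = of 0 * of 2 * (of 0)⁻¹ := by simp [io]
  rcases h12 with rfl | rfl
  · have hs : PhB_sd ((1 : Fin 3), b) = false := by simp [PhB_sd]
    rw [hs]
    cases b
    · rw [lett_false, map_inv, h1]
      simp [ss]
    · rw [lett_true, h1]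
      simp [ss]
  · have hs : PhB_sd ((2 : Fin 3), b) = true := by simp [PhB_sd]
    rw [hs]
    cases b
    · rw [lett_false, map_inv, h2]
      simp only [ss, if_true]
      group
    · rw [lett_true, h2]
      simp only [ss, if_true]

theorem PhB_bw_mk (v : List (Fin 3 × Bool)) (hv : ∀ x ∈ v, x.1 ≠ 0) (t t' : Bool) :
    FreeGroup.mk (PhB_bw t v t') = (ss t)⁻¹ * io (FreeGroup.mk v) * ss t' := by
  induction v generalizing t with
  | nil =>
    rw [PhB_bw, PhB_tr_mk, ← FreeGroup.one_eq_mk, map_one, mul_one]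
  | cons x v ih =>
    have h1 := ih (fun y hy => hv y (List.mem_cons_of_mem _ hy)) (PhB_sd x)
    have h2 : FreeGroup.mk (x :: v) = lett x * FreeGroup.mk v := by
      rw [lett, FreeGroup.mul_mk]
      rfl
    have h3 : FreeGroup.mk (PhB_bw t (x :: v) t') = FreeGroup.mk (PhB_tr t (PhB_sd x)) *
        lett x * FreeGroup.mk (PhB_bw (PhB_sd x) v t') := by
      rw [PhB_bw, lett, FreeGroup.mul_mk, FreeGroup.mul_mk]
      simp
    rw [h3, PhB_tr_mk, h1, h2, map_mul, PhB_io_lett (hv x List.mem_cons_self)]
    group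

theorem PhB_tr_length (t t' : Bool) : (PhB_tr t t').length = if t = t' then 0 else 1 := by
  unfold PhB_tr
  split_ifs <;> rfl

theorem PhB_bw_length (v : List (Fin 3 × Bool)) (t t' : Bool) :
    (PhB_bw t v t').length = v.length + PhB_x t v t' := by
  induction v generalizing t with
  | nil => rw [PhB_bw, PhB_tr_length, PhB_x, List.length_nil, zero_add]
  | cons x v ih =>
    rw [PhB_bw, PhB_x, List.length_append, List.length_cons, ih, PhB_tr_length,
      List.length_cons]
    omega

theorem PhB_red_aux (t' : Bool) (v : List (Fin 3 × Bool)) : ∀ x : Fin 3 × Bool,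
    (∀ y ∈ x :: v, y.1 ≠ 0) → FreeGroup.IsReduced (x :: v) →
    FreeGroup.IsReduced (x :: PhB_bw (PhB_sd x) v t') := by
  induction v with
  | nil =>
    intro x hx _
    rw [PhB_bw, PhB_tr]
    split_ifs
    · exact List.isChain_singleton _
    · have h0 : x.1 ≠ 0 := hx x List.mem_cons_self
      refine List.isChain_cons_cons.2 ⟨fun h => absurd h h0, List.isChain_singleton _⟩
  | cons y v ih =>
    intro x hx hr
    have h0 : x.1 ≠ 0 := hx x List.mem_cons_self
    have h1 : y.1 ≠ 0 := hx y (List.mem_cons_of_mem _ List.mem_cons_self)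
    obtain ⟨hr1, hr2⟩ := List.isChain_cons_cons.1 hr
    have h2 := ih y (fun w hw => hx w (List.mem_cons_of_mem _ hw)) hr2
    rw [PhB_bw, PhB_tr]
    split_ifs
    · exact List.isChain_cons_cons.2 ⟨hr1, h2⟩
    · refine List.isChain_cons_cons.2 ⟨fun h => absurd h h0, ?_⟩
      exact List.isChain_cons_cons.2 ⟨fun h => absurd h.symm h1, h2⟩

theorem PhB_red (t t' : Bool) (v : List (Fin 3 × Bool)) (hv : ∀ y ∈ v, y.1 ≠ 0)
    (hr : FreeGroup.IsReduced v) : FreeGroup.IsReduced (PhB_bw t v t') := by
  cases v with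
  | nil =>
    rw [PhB_bw, PhB_tr]
    split_ifs
    · exact List.isChain_nil
    · exact List.isChain_singleton _
  | cons x v =>
    have h1 := PhB_red_aux t' v x hv hr
    rw [PhB_bw, PhB_tr]
    split_ifs
    · exact h1
    · exact List.isChain_cons_cons.2
        ⟨fun h => absurd h.symm (hv x List.mem_cons_self), h1⟩

theorem PhB_norm {g : FreeGroup (Fin 3)} (hg : In12 g) (t t' : Bool) :
    ((ss t)⁻¹ * io g * ss t').norm = g.norm + PhB_x t g.toWord t' := by
  have h1 := PhB_bw_mk g.toWord hg t t'
  rw [FreeGroup.mk_toWord] at h1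
  have h2 := PhB_red t t' g.toWord hg FreeGroup.isReduced_toWord
  rw [← h1]
  unfold FreeGroup.norm
  rw [FreeGroup.toWord_mk, h2.reduce_eq, PhB_bw_length]

theorem PhB_lin (τ : Bool → Bool) (q : Bool) (v : List (Fin 3 × Bool))
    (hv : ∀ x ∈ v, x.1 ≠ 0) : ∀ (x₀ : Fin 3 × Bool) (t₀ : Bool), cutT τ x₀ = !t₀ →
    lin (fun x y => if cutT τ x = cutT τ (bar y) then 0 else 1) x₀ v (0, !q) =
      PhB_x t₀ v (τ q) := by
  induction v with
  | nil =>
    intro x₀ t₀ h0
    rw [lin, PhB_x, h0]
    have h1 : cutT τ (bar (0, !q)) = !(τ q) := by simp [cutT, bar]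
    rw [h1]
    cases t₀ <;> cases τ q <;> rfl
  | cons y v ih =>
    intro x₀ t₀ h0
    have hy : y.1 ≠ 0 := hv y List.mem_cons_self
    have h12 : ∀ i : Fin 3, i ≠ 0 → decide (i = 1) = !(decide (i = 2)) := by decide
    have h1 : cutT τ (bar y) = !(PhB_sd y) := by
      unfold cutT PhB_sd
      rw [bar_fst, if_neg hy, h12 _ hy]
    have h2 : cutT τ y = !(PhB_sd y) := by
      unfold cutT PhB_sd
      rw [if_neg hy, h12 _ hy]
    rw [lin, PhB_x, ih (fun x hx => hv x (List.mem_cons_of_mem _ hx)) y _ h2, h0, h1]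
    congr 1
    cases t₀ <;> cases PhB_sd y <;> rfl

theorem PhB_xarc {g : FreeGroup (Fin 3)} (hg : In12 g) (τ : Bool → Bool) (p q : Bool) :
    xarc τ p q g = PhB_x (τ p) g.toWord (τ q) := by
  unfold xarc
  exact PhB_lin τ q g.toWord hg (0, p) (τ p) (by simp [cutT])

theorem PhB_x_symm {g : FreeGroup (Fin 3)} (hg : In12 g) (t t' : Bool) :
    PhB_x t g.toWord t' = PhB_x t' (g⁻¹).toWord t := by
  have h1 := PhB_norm hg t t'
  have h2 := PhB_norm (In12_inv hg) t' t
  have h3 : ((ss t)⁻¹ * io g * ss t').norm = ((ss t')⁻¹ * io g⁻¹ * ss t).norm := by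
    rw [← FreeGroup.norm_inv_eq (x := (ss t)⁻¹ * io g * ss t')]
    congr 1
    rw [map_inv]
    group
  rw [FreeGroup.norm_inv_eq] at h2
  omega

theorem PhB_first {g : FreeGroup (Fin 3)} (hg1 : g ≠ 1) (t' : Bool) :
    PhB_x true g.toWord t' + 2 * ((if ahd g = some (2, true) then 1 else 0) +
      (if ahd g = some (2, false) then 1 else 0)) = PhB_x false g.toWord t' + 1 := by
  unfold ahd
  have hne : g.toWord ≠ [] := fun h => hg1 (FreeGroup.toWord_eq_nil_iff.1 h)
  generalize g.toWord = v at hne
  rcases v with _ | ⟨x, v⟩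
  · exact absurd rfl hne
  · rw [PhB_x, PhB_x]
    simp only [List.head?_cons, Option.some.injEq]
    rcases x with ⟨i, b⟩
    by_cases hi : i = 2
    · subst hi
      have h1 : PhB_sd ((2 : Fin 3), b) = true := by simp [PhB_sd]
      rw [h1]
      cases b <;> simp <;> omega
    · have h1 : PhB_sd (i, b) = false := by simp [PhB_sd, hi]
      rw [h1]
      have h2 : ¬ ((i, b) = ((2 : Fin 3), true)) := fun h => hi (congrArg Prod.fst h)
      have h3 : ¬ ((i, b) = ((2 : Fin 3), false)) := fun h => hi (congrArg Prod.fst h)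
      rw [if_neg h2, if_neg h3]
      simp
      omega

theorem PhB_last {g : FreeGroup (Fin 3)} (hg : In12 g) (hg1 : g ≠ 1) (t : Bool) :
    PhB_x t g.toWord true + 2 * ((if ahd g⁻¹ = some (2, true) then 1 else 0) +
      (if ahd g⁻¹ = some (2, false) then 1 else 0)) = PhB_x t g.toWord false + 1 := by
  rw [PhB_x_symm hg, PhB_x_symm hg]
  exact PhB_first (fun h => hg1 (inv_eq_one.1 h)) t

theorem rho_io {g : FreeGroup (Fin 3)} (hg : In12 g) : rho (io g) = g := by
  have h1 : rho (io (of 1)) = of 1 := by simp [io, rho]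
  have h2 : rho (io (of 2)) = of 2 := by simp [io, rho]
  refine In12_induction (P := fun g => rho (io g) = g) (by rw [map_one, map_one]) ?_ hg
  intro x hx g _ ih
  rw [map_mul, map_mul, ih]
  congr 1
  rcases In12A_cases hx with h | h | h | h
  · rw [h, h1]
  · rw [h, h2]
  · rw [h, map_inv, map_inv, h1]
  · rw [h, map_inv, map_inv, h2]

theorem rho_ss (t : Bool) : rho (ss t) = 1 := by
  cases t <;> simp [ss, rho]

theorem rho_in12 (g : FreeGroup (Fin 3)) : In12 (rho g) := by
  have h0 : ∀ i : Fin 3, In12 (rho (of i)) := by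
    intro i
    by_cases hi : i = 0
    · subst hi
      have : rho (of 0) = 1 := by simp [rho]
      rw [this]
      exact In12_one
    · have : rho (of i) = of i := by simp [rho, hi]
      rw [this]
      exact In12_of hi
  induction g using FreeGroup.induction_on with
  | C1 =>
    rw [map_one]
    exact In12_one
  | of i => exact h0 i
  | inv_of i _ =>
    rw [map_inv]
    exact In12_inv (h0 i)
  | mul x y hx hy =>
    rw [map_mul]
    exact In12_mul hx hy

theorem PhB_lin_zip {β : Type*} (f : β → β → ℕ) (x : β) (l : List β) (z : β) :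
    lin f x l z = (List.zipWith f (x :: l) (l ++ [z])).sum := by
  induction l generalizing x with
  | nil => simp [lin]
  | cons y l ih =>
    rw [lin, ih]
    simp

theorem PhB_cyc_zip {β : Type*} (f : β → β → ℕ) (l : List β) :
    cyc f l = (List.zipWith f l (l.rotate 1)).sum := by
  cases l with
  | nil => simp [cyc]
  | cons x l => rw [cyc, PhB_lin_zip, List.rotate_cons_succ, List.rotate_zero]

theorem xc_cap {L : List (Bool × FreeGroup (Fin 3))} (hL : ArcOK L) (τ : Bool → Bool) :
    capC (ConjClasses.mk (arcP L)) (cutT τ) = xc τ (tarcs L) := by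
  obtain ⟨_, hIn, hc⟩ := hL
  have hCR : CR (ArcA_W L) := (ArcA_CR_iff hIn).2 hc
  have hcls : ConjClasses.mk (arcP L) = cls (ArcA_W L) := by
    unfold cls
    rw [ArcA_mk]
  rw [hcls, capC_cls hCR]
  unfold cap xc tarcs
  rw [ArcA_cyc, PhB_cyc_zip, List.map_zipWith]
  congr 2
  funext q r
  unfold xarc
  simp only [Bool.not_not]

theorem cutT_Sb (W : CC) : capC W (cutT (fun p => !p)) = capC W Sb := by
  apply capC_congr
  rintro ⟨i, b⟩
  fin_cases i <;> cases b <;> rfl

theorem cutT_Sc (W : CC) : capC W (cutT (fun p => p)) = capC W Sc := by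
  rw [← capC_compl W Sc]
  apply capC_congr
  rintro ⟨i, b⟩
  fin_cases i <;> cases b <;> rfl

theorem cutT_bb (W : CC) : capC W (cutT (fun _ => false)) = capC W (PrC 2) := by
  rw [← capC_compl W (PrC 2)]
  apply capC_congr
  rintro ⟨i, b⟩
  fin_cases i <;> cases b <;> rfl

theorem cutT_cc (W : CC) : capC W (cutT (fun _ => true)) = capC W (PrC 1) := by
  apply capC_congr
  rintro ⟨i, b⟩
  fin_cases i <;> cases b <;> rfl

theorem io_norm {g : FreeGroup (Fin 3)} (hg : In12 g) (τ : Bool → Bool) (p q : Bool) :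
    ((ss (τ p))⁻¹ * io g * ss (τ q)).norm = g.norm + xarc τ p q g := by
  rw [PhB_norm hg, PhB_xarc hg]

theorem bT_len {T : List Arc} (hT : ∀ e ∈ T, In12 e.2.2) {u : PS} (hu : ∀ p, In12 (u p))
    (τ : Bool → Bool) : atl (ast (bU u τ) (bT T)) = atl (ast u T) + xc τ (ast u T) := by
  unfold atl xc ast bT
  simp only [List.map_map]
  rw [← List.sum_map_add]
  congr 1
  refine List.map_congr_left fun e he => ?_
  simp only [Function.comp_apply]
  have h1 : In12 (alab u e) := In12_mul (In12_mul (In12_inv (hu _)) (hT e he)) (hu _)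
  rw [← io_norm h1]
  congr 1
  unfold alab bU
  simp only [map_mul, map_inv]
  group

theorem bT_ends {h : ℕ} {T : List Arc} (hT : TOK h T) (u : PS) (p : Bool) :
    ane p (ast u (bT T)) = 2 * h := by
  rw [ane_st, ← hT.ends p]
  unfold ane bT
  rw [List.map_map]
  rfl

theorem bT_ntr {h : ℕ} {T : List Arc} (hT : TOK h T) (u : PS) :
    ∀ e ∈ ast u (bT T), e.1 = e.2.1 → e.2.2 ≠ 1 := by
  intro e he h1 h2
  unfold ast at he
  rw [List.mem_map] at he
  obtain ⟨e', he', rfl⟩ := he
  unfold bT at he'
  rw [List.mem_map] at he'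
  obtain ⟨e'', he'', rfl⟩ := he'
  have h3 : e''.1 = e''.2.1 := h1
  have h4 : (u e''.1)⁻¹ * io e''.2.2 * u e''.2.1 = 1 := h2
  rw [← h3] at h4
  have h5 : io e''.2.2 = u e''.1 * ((u e''.1)⁻¹ * io e''.2.2 * u e''.1) * (u e''.1)⁻¹ := by
    group
  have h6 : io e''.2.2 = 1 := by
    rw [h5, h4]
    group
  have h7 := rho_io (hT.in12 e'' he'')
  rw [h6, map_one] at h7
  exact hT.ntr e'' he'' h3 h7.symm

theorem PhB_sum3 (a b c d f : Arc → ℕ) (T : List Arc)
    (h : ∀ e ∈ T, a e + 2 * b e + c e = d e + f e) :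
    (T.map a).sum + 2 * (T.map b).sum + (T.map c).sum = (T.map d).sum + (T.map f).sum := by
  induction T with
  | nil => rfl
  | cons e T ih =>
    have h1 := h e List.mem_cons_self
    have h2 := ih fun e' he' => h e' (List.mem_cons_of_mem _ he')
    simp only [List.map_cons, List.sum_cons]
    omega

/-- moving the port `p` to the other side -/
theorem xc_move {h : ℕ} {T : List Arc} (hT : TOK h T) (τ : Bool → Bool) (p : Bool)
    (hp : τ p = false) :
    xc (fun q => if q = p then true else τ q) T + 2 * (anz p (2, true) T + anz p (2, false) T) +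
      (if τ (!p) = true then 2 * anq T else 0) = xc τ T + 2 * h := by
  have hq : (if τ (!p) = true then 2 * anq T else 0) =
      (T.map (fun e => (if τ (!p) = true then 2 else 0) * (if e.2.2 = 1 then 1 else 0))).sum := by
    rw [List.sum_map_mul_left]
    unfold anq
    split_ifs
    · rfl
    · rw [zero_mul]
  have hz : anz p (2, true) T + anz p (2, false) T =
      (T.map (fun e => ((if e.1 = p ∧ ahd e.2.2 = some (2, true) then 1 else 0) +
        (if e.2.1 = p ∧ ahd (e.2.2)⁻¹ = some (2, true) then 1 else 0)) +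
        ((if e.1 = p ∧ ahd e.2.2 = some (2, false) then 1 else 0) +
        (if e.2.1 = p ∧ ahd (e.2.2)⁻¹ = some (2, false) then 1 else 0)))).sum := by
    unfold anz
    rw [← List.sum_map_add]
  rw [hq, hz, ← hT.ends p]
  unfold xc ane
  refine PhB_sum3 _ _ _ _ _ T fun e he => ?_
  have hin := hT.in12 e he
  have hntr := hT.ntr e he
  obtain ⟨q, r, g⟩ := e
  simp only at hin hntr ⊢
  rw [PhB_xarc hin, PhB_xarc hin]
  by_cases hq : q = p
  · subst hq
    by_cases hr : r = q
    · subst hr
      have hg : g ≠ 1 := hntr rfl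
      have h1 := PhB_first hg true
      have h2 := PhB_last hin hg false
      simp only [true_and, if_true, hp, if_neg hg]
      omega
    · have hr' : r = !q := by
        cases q <;> cases r <;> simp_all
      subst hr'
      simp only [true_and, if_true, hp, hr, false_and, if_false]
      by_cases hg : g = 1
      · subst hg
        rw [ahd_one, FreeGroup.toWord_one, PhB_x, PhB_x]
        cases h3 : τ (!q) <;> simp
      · have h1 := PhB_first hg (τ (!q))
        rw [if_neg hg]
        omega
  · have hq' : q = !p := by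
      cases q <;> cases p <;> simp_all
    subst hq'
    by_cases hr : r = p
    · subst hr
      simp only [true_and, if_true, hp, hq, false_and, if_false]
      by_cases hg : g = 1
      · subst hg
        rw [inv_one, ahd_one, FreeGroup.toWord_one, PhB_x, PhB_x]
        cases h3 : τ (!r) <;> simp
      · have h1 := PhB_last hin hg (τ (!r))
        rw [if_neg hg]
        omega
    · have hr' : r = !p := by
        cases r <;> cases p <;> simp_all
      subst hr'
      have hg : g ≠ 1 := hntr rfl
      simp only [hq, false_and, if_false, if_neg hg]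
      omega

end Pool.Agent.Sims
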