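import Pool.Agent.Sims.PhA
import Pool.Agent.Sims.PhB

/-!
# Module `PhC` : connectivity of the level states with a minimal corner cut

Extended state `s = (u, τ)`: a state `u` and a corner `τ` (`PhB`).  `EOK h T s`: `u` is a level state and the corner cut has the minimal capacity `2h` in the state `u`.
`EStp`: one step: a letter on the side of the port (`b^{±1}` on the side `b`, `c^{±1}` on the side `c`) for one port or for both ports (corner unchanged), or a change of the corner (state unchanged).
* `dec_pre`: prefixes of the reduced word of `(ss t0)⁻¹ * io x * ss t1` are of the form `(ss t0)⁻¹ * io y * ss t`.  E.g. with the homomorphism `F_3 → Equiv.Perm (Fin 3)` on three points `B, C, D` (a covering of degree 3 of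
  the barbell graph is not needed): simplest by induction on the length of `x.toWord`: `x = x' * lett z` without cancellation (`z.1 ≠ 0`); the word of `(ss t0)⁻¹ * io x' * ss t` (`t` = the side of `z`) is a prefix of the word
  of `(ss t0)⁻¹ * io x * ss t1` (compare the norms, `io_norm`, and use: `‖g * k‖ = ‖g‖ + ‖k‖` implies that `g.toWord` is a prefix of `(g * k).toWord`); then `lett z` follows, and then `ss t1` against the side of `z`.
  So the prefixes are: the prefixes of the word of `(ss t0)⁻¹ * io x' * ss t` (induction), `(ss t0)⁻¹ * io x' * ss t * lett z = (ss t0)⁻¹ * io x * ss t`, and the full word.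
  Start `x = 1`: `(ss t0)⁻¹ * ss t1` has length at most 1.
* `dec_step`: apply `rho` (`rho_io`, `rho_ss`): `y' = y * rho (lett z)`; if `z.1 = 0` then `y' = y` and `ss t' = ss t * lett z`; otherwise `y' = y * lett z` and `io (lett z) * ss t' = ss t * lett z`, which is false unless
  `t = t' = true` and `z.1 = 2` or `t = t' = false` and `z.1 = 1` (finite check: `z`, `t`, `t'`, `decide`).
* `conn_phi`: `T' = ast (bU s0.1 s0.2) (bT T)` and `v = (bU s0.1 s0.2)⁻¹ * bU s1.1 s1.2`.  `conn_pre` for `T'` (hypotheses: `bT_ends`, `bT_ntr`) and `v`: a prefix state `w` of `v` is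
  `w p = (ss (s0.2 p))⁻¹ * io (y p) * ss (t p)` (`dec_pre` for `x = (s0.1 p)⁻¹ * s1.1 p`), so `bU s0.1 s0.2 * w = bU (s0.1 * y) t`, and `atl (ast w T') = atl (ast (s0.1 * y) T) + xc t (ast (s0.1 * y) T) ≥ atl T + 2h`
  (`ast_ast`, `bT_len`, `TOK.min`, `hX`), with equality iff `(s0.1 * y, t)` is `EOK`.  Transport the chain: by induction on the chain, for every `w` on it and every decoding `(y, t)` of `w`, `(s0.1 * y, t)` is reachable; the
  step is decoded by `dec_step` at the ports which move (the decoding of a given `w` is unique: `dec_inj`).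
Difficulty 3.
-/

namespace Pool.Agent.Sims

open FreeGroup (of)

/-- extended state: state and corner -/
abbrev ES : Type := PS × (Bool → Bool)

/-- level state with minimal corner cut -/
def EOK (h : ℕ) (T : List Arc) (s : ES) : Prop := Lv2 T s.1 ∧ xc s.2 (ast s.1 T) = 2 * h

/-- the letter `z` is on the side `t` -/
def Side (t : Bool) (z : Fin 3 × Bool) : Prop := z.1 = if t then 2 else 1

/-- one step -/
def EStp (h : ℕ) (T : List Arc) (s s' : ES) : Prop :=
  EOK h T s' ∧ ((∃ p z, Side (s.2 p) z ∧ s'.1 = s.1 * ps p (lett z) ∧ s'.2 = s.2) ∨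
    (∃ z, Side (s.2 true) z ∧ Side (s.2 false) z ∧ s'.1 = s.1 * bo (lett z) ∧ s'.2 = s.2) ∨
    s'.1 = s.1)

theorem norm_pre {g k : FreeGroup (Fin 3)} (h : (g * k).norm = g.norm + k.norm) :
    (g * k).toWord = g.toWord ++ k.toWord := by
  have h1 := FreeGroup.toWord_mul_sublist g k
  apply h1.eq_of_length
  rw [List.length_append]
  exact h

/-- reading of a letter in the barbell graph -/
def PhC_rd (t : Bool) (z : Fin 3 × Bool) : Option Bool :=
  if z.1 = 0 then (if t = !z.2 then some z.2 else none)
  else if z.1 = 1 then (if t = false then some false else none)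
  else (if t = true then some true else none)

/-- reading of a word -/
def PhC_rdL : Bool → List (Fin 3 × Bool) → Option Bool
  | t, [] => some t
  | t, z :: l => match PhC_rd t z with
    | none => none
    | some t' => PhC_rdL t' l

theorem PhC_rdL_nil (t : Bool) : PhC_rdL t [] = some t := rfl

theorem PhC_rdL_cons (t : Bool) (z : Fin 3 × Bool) (l : List (Fin 3 × Bool)) :
    PhC_rdL t (z :: l) = (PhC_rd t z).bind (fun t' => PhC_rdL t' l) := by
  rw [PhC_rdL]
  cases PhC_rd t z <;> rfl

theorem PhC_rdL_append (t : Bool) (l l' : List (Fin 3 × Bool)) :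
    PhC_rdL t (l ++ l') = (PhC_rdL t l).bind (fun t' => PhC_rdL t' l') := by
  induction l generalizing t with
  | nil => rfl
  | cons z l ih =>
    rw [List.cons_append, PhC_rdL_cons, PhC_rdL_cons]
    cases h : PhC_rd t z with
    | none => rfl
    | some s =>
      simp only [Option.bind_some]
      exact ih s

theorem PhC_rd_inv : ∀ (t : Bool) (i : Fin 3) (b : Bool) (t' : Bool),
    PhC_rd t (i, b) = some t' → PhC_rd t' (i, !b) = some t := by decide

theorem PhC_step {l l' : List (Fin 3 × Bool)} (h : FreeGroup.Red.Step l l') (t t' : Bool)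
    (hl : PhC_rdL t l = some t') : PhC_rdL t l' = some t' := by
  cases h with
  | @not L₁ L₂ x b =>
    rw [PhC_rdL_append] at hl ⊢
    cases h1 : PhC_rdL t L₁ with
    | none => rw [h1] at hl; exact absurd hl (by simp)
    | some s =>
      rw [h1] at hl
      simp only [Option.bind_some] at hl ⊢
      rw [PhC_rdL_cons] at hl
      cases h2 : PhC_rd s (x, b) with
      | none => rw [h2] at hl; exact absurd hl (by simp)
      | some s' =>
        rw [h2] at hl
        simp only [Option.bind_some] at hl
        rw [PhC_rdL_cons, PhC_rd_inv _ _ _ _ h2] at hl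
        simpa using hl

theorem PhC_red {l l' : List (Fin 3 × Bool)} (h : FreeGroup.Red l l') (t t' : Bool)
    (hl : PhC_rdL t l = some t') : PhC_rdL t l' = some t' := by
  induction h with
  | refl => exact hl
  | tail _ h2 ih => exact PhC_step h2 t t' ih

theorem PhC_io_of (i : Fin 3) : io (of i) = if i = 2 then of 0 * of 2 * (of 0)⁻¹ else of i := by
  unfold io
  rw [FreeGroup.lift_apply_of]

theorem PhC_lett (i : Fin 3) (b : Bool) : lett (i, b) = if b then of i else (of i)⁻¹ := by
  cases b
  · rfl
  · rfl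

theorem PhC_c3 : ∀ i : Fin 3, i = 0 ∨ i = 1 ∨ i = 2 := by decide

theorem PhC_c2 : ∀ i : Fin 3, i ≠ 0 → i = 1 ∨ i = 2 := by decide

theorem PhC_10 : (1 : Fin 3) ≠ 0 := by decide

theorem PhC_20 : (2 : Fin 3) ≠ 0 := by decide

/-- a letter read from `t` to `t'` -/
theorem PhC_rd_el (t t' : Bool) (z : Fin 3 × Bool) (h : PhC_rd t z = some t') :
    ∃ y, In12 y ∧ lett z = (ss t)⁻¹ * io y * ss t' := by
  obtain ⟨i, b⟩ := z
  have hi : i = 0 ∨ i = 1 ∨ i = 2 := PhC_c3 i
  rcases hi with rfl | rfl | rfl
  · refine ⟨1, In12_one, ?_⟩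
    rw [map_one, mul_one, PhC_lett]
    cases b <;> cases t <;> cases t' <;> simp_all [PhC_rd, ss]
  · refine ⟨lett (1, b), In12_lett PhC_10, ?_⟩
    have h1 : io (lett (1, b)) = lett (1, b) := by
      rw [PhC_lett]
      cases b <;> simp [PhC_io_of]
    rw [h1]
    cases t <;> cases t' <;> simp_all [PhC_rd, ss]
  · refine ⟨lett (2, b), In12_lett PhC_20, ?_⟩
    have h1 : io (lett (2, b)) = of 0 * lett (2, b) * (of 0)⁻¹ := by
      rw [PhC_lett]
      cases b <;> simp [PhC_io_of, mul_assoc]
    rw [h1]
    cases t <;> cases t' <;> simp_all [PhC_rd, ss, mul_assoc]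

theorem PhC_rdL_el (l : List (Fin 3 × Bool)) : ∀ (t t' : Bool), PhC_rdL t l = some t' →
    ∃ y, In12 y ∧ FreeGroup.mk l = (ss t)⁻¹ * io y * ss t' := by
  induction l with
  | nil =>
    intro t t' h
    rw [PhC_rdL_nil] at h
    have h' := Option.some.inj h
    subst h'
    refine ⟨1, In12_one, ?_⟩
    rw [map_one, mul_one, inv_mul_cancel, ← FreeGroup.one_eq_mk]
  | cons z l ih =>
    intro t t' h
    rw [PhC_rdL_cons] at h
    cases h1 : PhC_rd t z with
    | none => rw [h1] at h; exact absurd h (by simp)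
    | some s =>
      rw [h1] at h
      simp only [Option.bind_some] at h
      obtain ⟨y, hy, hy2⟩ := PhC_rd_el t s z h1
      obtain ⟨y', hy', hy2'⟩ := ih s t' h
      refine ⟨y * y', In12_mul hy hy', ?_⟩
      have h2 : FreeGroup.mk (z :: l) = lett z * FreeGroup.mk l := by
        rw [lett, FreeGroup.mul_mk]; rfl
      rw [h2, hy2, hy2', map_mul]
      group

/-- a readable word for `io x` -/
theorem PhC_word_io {x : FreeGroup (Fin 3)} (hx : In12 x) :
    ∃ l, PhC_rdL false l = some false ∧ FreeGroup.mk l = io x := by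
  refine In12_induction (P := fun x => ∃ l, PhC_rdL false l = some false ∧
    FreeGroup.mk l = io x) ?_ ?_ hx
  · exact ⟨[], rfl, by rw [map_one, ← FreeGroup.one_eq_mk]⟩
  · rintro ⟨i, b⟩ hi g _ ⟨l, hl, hl2⟩
    have hi' : i = 1 ∨ i = 2 := PhC_c2 i hi
    rcases hi' with rfl | rfl
    · refine ⟨(1, b) :: l, ?_, ?_⟩
      · rw [PhC_rdL_cons]
        have : PhC_rd false (1, b) = some false := by cases b <;> rfl
        rw [this]
        exact hl
      · have h1 : io (lett (1, b)) = lett (1, b) := by
          rw [PhC_lett]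
          cases b <;> simp [PhC_io_of]
        rw [map_mul, h1, ← hl2, lett, FreeGroup.mul_mk]
        rfl
    · refine ⟨(0, true) :: (2, b) :: (0, false) :: l, ?_, ?_⟩
      · rw [PhC_rdL_cons]
        have h1 : PhC_rd false (0, true) = some true := by rfl
        have h2 : PhC_rd true (2, b) = some true := by cases b <;> rfl
        have h3 : PhC_rd true (0, false) = some false := by rfl
        rw [h1, Option.bind_some, PhC_rdL_cons, h2, Option.bind_some, PhC_rdL_cons, h3,
          Option.bind_some]
        exact hl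
      · have h1 : io (lett (2, b)) = lett (0, true) * lett (2, b) * lett (0, false) := by
          have h4 : lett ((0 : Fin 3), true) = of 0 := rfl
          have h5 : lett ((0 : Fin 3), false) = (of 0)⁻¹ := rfl
          rw [h4, h5, PhC_lett]
          cases b <;> simp [PhC_io_of, mul_assoc]
        rw [map_mul, h1, ← hl2, lett, lett, lett, FreeGroup.mul_mk, FreeGroup.mul_mk,
          FreeGroup.mul_mk]
        rfl

theorem PhC_word {x : FreeGroup (Fin 3)} (hx : In12 x) (t0 t1 : Bool) :
    ∃ l, PhC_rdL t0 l = some t1 ∧ FreeGroup.mk l = (ss t0)⁻¹ * io x * ss t1 := by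
  obtain ⟨l, hl, hl2⟩ := PhC_word_io hx
  have h0 : ∃ l0, PhC_rdL t0 l0 = some false ∧ FreeGroup.mk l0 = (ss t0)⁻¹ := by
    cases t0
    · exact ⟨[], rfl, by simp [ss, ← FreeGroup.one_eq_mk]⟩
    · exact ⟨[(0, false)], rfl, by simp only [ss, if_true]; rfl⟩
  have h1 : ∃ l1, PhC_rdL false l1 = some t1 ∧ FreeGroup.mk l1 = ss t1 := by
    cases t1
    · exact ⟨[], rfl, by simp [ss, ← FreeGroup.one_eq_mk]⟩
    · exact ⟨[(0, true)], rfl, by simp only [ss, if_true]; rfl⟩
  obtain ⟨l0, hl0, hl02⟩ := h0
  obtain ⟨l1, hl1, hl12⟩ := h1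
  refine ⟨l0 ++ l ++ l1, ?_, ?_⟩
  · rw [PhC_rdL_append, PhC_rdL_append, hl0]
    simp only [Option.bind_some]
    rw [hl]
    simp only [Option.bind_some]
    exact hl1
  · rw [← FreeGroup.mul_mk, ← FreeGroup.mul_mk, hl02, hl2, hl12]

theorem dec_pre {x w : FreeGroup (Fin 3)} (hx : In12 x) (t0 t1 : Bool)
    (hw : w.toWord <+: ((ss t0)⁻¹ * io x * ss t1).toWord) :
    ∃ y t, In12 y ∧ w = (ss t0)⁻¹ * io y * ss t := by
  obtain ⟨l, hl, hl2⟩ := PhC_word hx t0 t1
  have h1 : PhC_rdL t0 ((ss t0)⁻¹ * io x * ss t1).toWord = some t1 := by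
    rw [← hl2, FreeGroup.toWord_mk]
    exact PhC_red FreeGroup.reduce.red t0 t1 hl
  obtain ⟨r, hr⟩ := hw
  rw [← hr, PhC_rdL_append] at h1
  cases h2 : PhC_rdL t0 w.toWord with
  | none => rw [h2] at h1; exact absurd h1 (by simp)
  | some t =>
    obtain ⟨y, hy, hy2⟩ := PhC_rdL_el _ t0 t h2
    rw [FreeGroup.mk_toWord] at hy2
    exact ⟨y, t, hy, hy2⟩

theorem PhC_ss_inj {t t' : Bool} (h : ss t = ss t') : t = t' := by
  have h1 : (of (0 : Fin 3)) ≠ 1 := FreeGroup.of_ne_one 0
  cases t <;> cases t' <;> simp_all [ss]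

theorem dec_inj {y y' : FreeGroup (Fin 3)} (hy : In12 y) (hy' : In12 y') {t t' : Bool}
    (h : io y * ss t = io y' * ss t') : y = y' ∧ t = t' := by
  have h1 := congrArg rho h
  rw [map_mul, map_mul, rho_io hy, rho_io hy', rho_ss, rho_ss, mul_one, mul_one] at h1
  subst h1
  exact ⟨rfl, PhC_ss_inj (mul_left_cancel h)⟩

theorem PhC_fin : ∀ (z : Fin 3 × Bool) (t t' : Bool), z.1 ≠ 0 →
    io (lett z) * ss t' = ss t * lett z → z.1 = (if t then 2 else 1) ∧ t' = t := by
  decide

theorem dec_step {y y' : FreeGroup (Fin 3)} (hy : In12 y) (hy' : In12 y') {t t' : Bool}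
    {z : Fin 3 × Bool} (h : io y' * ss t' = io y * ss t * lett z) :
    (z.1 = 0 ∧ y' = y) ∨ (z.1 ≠ 0 ∧ Side t z ∧ t' = t ∧ y' = y * lett z) := by
  have h1 := congrArg rho h
  rw [map_mul, map_mul, map_mul, rho_io hy, rho_io hy', rho_ss, rho_ss, mul_one, mul_one] at h1
  by_cases hz : z.1 = 0
  · left
    refine ⟨hz, ?_⟩
    have h2 : rho (lett z) = 1 := by
      obtain ⟨i, b⟩ := z
      simp only at hz
      subst hz
      rw [PhC_lett]
      cases b <;> simp [rho]
    rw [h2, mul_one] at h1
    exact h1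
  · right
    have h2 : rho (lett z) = lett z := by
      obtain ⟨i, b⟩ := z
      simp only at hz
      rw [PhC_lett]
      cases b <;> simp [rho, hz]
    rw [h2] at h1
    rw [h1, map_mul, mul_assoc, mul_assoc] at h
    have h3 := mul_left_cancel h
    have h4 := PhC_fin z t t' hz h3
    exact ⟨hz, h4.1, h4.2, h1⟩

theorem PhC_bU (u : PS) (τ : Bool → Bool) (p : Bool) : bU u τ p = io (u p) * ss (τ p) := rfl

theorem conn_phi {h : ℕ} {T : List Arc} (hT : TOK h T)
    (hX : ∀ u : PS, (∀ p, In12 (u p)) → ∀ τ, 2 * h ≤ xc τ (ast u T)) {s0 s1 : ES}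
    (h0 : EOK h T s0) (h1 : EOK h T s1) : Relation.ReflTransGen (EStp h T) s0 s1 := by
  obtain ⟨u0, τ0⟩ := s0
  obtain ⟨u1, τ1⟩ := s1
  obtain ⟨⟨hu0, hl0⟩, hx0⟩ := h0
  obtain ⟨⟨hu1, hl1⟩, hx1⟩ := h1
  simp only at hu0 hl0 hx0 hu1 hl1 hx1
  set T' := ast (bU u0 τ0) (bT T) with hT'
  set v : PS := (bU u0 τ0)⁻¹ * bU u1 τ1 with hv
  -- decoding of prefix states
  have hdec : ∀ w : PS, (∀ p, (w p).toWord <+: (v p).toWord) →
      ∃ (y : PS) (t : Bool → Bool), (∀ p, In12 (y p)) ∧ bU u0 τ0 * w = bU y t := by
    intro w hw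
    have hp : ∀ p, ∃ y t, In12 y ∧ io (u0 p) * ss (τ0 p) * w p = io y * ss t := by
      intro p
      have hvp : v p = (ss (τ0 p))⁻¹ * io ((u0 p)⁻¹ * u1 p) * ss (τ1 p) := by
        rw [hv, Pi.mul_apply, Pi.inv_apply, PhC_bU, PhC_bU, map_mul, map_inv]
        group
      have hwp := hw p
      rw [hvp] at hwp
      obtain ⟨y, t, hy, hy2⟩ := dec_pre (In12_mul (In12_inv (hu0 p)) (hu1 p)) _ _ hwp
      refine ⟨u0 p * y, t, In12_mul (hu0 p) hy, ?_⟩
      rw [hy2, map_mul]
      group
    choose y t hy hyt using hp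
    refine ⟨y, t, hy, ?_⟩
    funext p
    rw [Pi.mul_apply, PhC_bU, PhC_bU]
    exact hyt p
  have hatl : ∀ (w y : PS) (t : Bool → Bool), (∀ p, In12 (y p)) → bU u0 τ0 * w = bU y t →
      atl (ast w T') = atl (ast y T) + xc t (ast y T) := by
    intro w y t hy hw
    rw [hT', ast_ast, hw, bT_len hT.in12 hy]
  have hT'len : atl T' = atl T + 2 * h := by
    rw [hT', bT_len hT.in12 hu0, hl0, hx0]
  have hmin : ∀ w : PS, (∀ p, (w p).toWord <+: (v p).toWord) → atl T' ≤ atl (ast w T') := by
    intro w hw
    obtain ⟨y, t, hy, hyt⟩ := hdec w hw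
    rw [hatl w y t hy hyt, hT'len]
    exact add_le_add (hT.min y hy) (hX y hy t)
  have hvU : bU u0 τ0 * v = bU u1 τ1 := by
    rw [hv, mul_inv_cancel_left]
  have hvl : atl (ast v T') = atl T' := by
    rw [hatl v u1 τ1 hu1 hvU, hT'len, hl1, hx1]
  have hchain := conn_pre (h := h) (T := T') (fun p => bT_ends hT _ p) (bT_ntr hT _) hmin hvl
  have key : ∀ w : PS, Relation.ReflTransGen (PStp T' v) 1 w →
      ∃ (y : PS) (t : Bool → Bool), (∀ p, In12 (y p)) ∧ bU u0 τ0 * w = bU y t ∧
        Relation.ReflTransGen (EStp h T) (u0, τ0) (y, t) := by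
    intro w hw
    induction hw with
    | refl => exact ⟨u0, τ0, hu0, by rw [mul_one], Relation.ReflTransGen.refl⟩
    | @tail w w' _ hst ih =>
      obtain ⟨y, t, hy, hyt, hch⟩ := ih
      obtain ⟨hpre, hlen, hmv⟩ := hst
      obtain ⟨y', t', hy', hyt'⟩ := hdec w' hpre
      refine ⟨y', t', hy', hyt', hch.tail ?_⟩
      have hEOK : EOK h T (y', t') := by
        rw [hatl w' y' t' hy' hyt', hT'len] at hlen
        have e1 := hT.min y' hy'
        have e2 := hX y' hy' t'
        refine ⟨⟨hy', ?_⟩, ?_⟩
        · show atl (ast y' T) = atl T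
          omega
        · show xc t' (ast y' T) = 2 * h
          omega
      refine ⟨hEOK, ?_⟩
      have hpt : ∀ p, io (y p) * ss (t p) = io (u0 p) * ss (τ0 p) * w p := by
        intro p
        have := congrFun hyt p
        rw [Pi.mul_apply, PhC_bU, PhC_bU] at this
        exact this.symm
      have hpt' : ∀ p, io (y' p) * ss (t' p) = io (u0 p) * ss (τ0 p) * w' p := by
        intro p
        have := congrFun hyt' p
        rw [Pi.mul_apply, PhC_bU, PhC_bU] at this
        exact this.symm
      rcases hmv with ⟨p, z, hz⟩ | ⟨z, hz⟩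
      · have e1 : w' p = w p * lett z := by rw [hz, Pi.mul_apply, ps_self]
        have e2 : w' (!p) = w (!p) := by rw [hz, Pi.mul_apply, ps_not, mul_one]
        have e3 : io (y' p) * ss (t' p) = io (y p) * ss (t p) * lett z := by
          rw [hpt', e1, hpt, mul_assoc _ (w p)]
        have e4 : io (y' (!p)) * ss (t' (!p)) = io (y (!p)) * ss (t (!p)) := by
          rw [hpt', e2, hpt]
        obtain ⟨e5, e6⟩ := dec_inj (hy' _) (hy _) e4
        rcases dec_step (hy p) (hy' p) e3 with ⟨-, e7⟩ | ⟨-, e7, e8, e9⟩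
        · right; right
          exact PS_ext p e7 e5
        · left
          refine ⟨p, z, e7, ?_, ?_⟩
          · refine PS_ext p ?_ ?_
            · show y' p = (y * ps p (lett z)) p
              rw [Pi.mul_apply, ps_self]; exact e9
            · show y' (!p) = (y * ps p (lett z)) (!p)
              rw [Pi.mul_apply, ps_not, mul_one]; exact e5
          · show t' = t
            funext q
            by_cases hq : q = p
            · rw [hq]; exact e8
            · have : q = !p := by cases q <;> cases p <;> simp_all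
              rw [this]; exact e6
      · have e1 : ∀ p, w' p = w p * lett z := by intro p; rw [hz, Pi.mul_apply]; rfl
        have e3 : ∀ p, io (y' p) * ss (t' p) = io (y p) * ss (t p) * lett z := by
          intro p
          rw [hpt', e1, hpt, mul_assoc _ (w p)]
        have d1 := dec_step (hy true) (hy' true) (e3 true)
        have d2 := dec_step (hy false) (hy' false) (e3 false)
        by_cases hz0 : z.1 = 0
        · right; right
          have f1 : y' true = y true := by
            rcases d1 with ⟨-, d⟩ | ⟨d, -⟩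
            · exact d
            · exact absurd hz0 d
          have f2 : y' false = y false := by
            rcases d2 with ⟨-, d⟩ | ⟨d, -⟩
            · exact d
            · exact absurd hz0 d
          exact PS_ext true f1 f2
        · right; left
          have f1 : Side (t true) z ∧ t' true = t true ∧ y' true = y true * lett z := by
            rcases d1 with ⟨d, -⟩ | ⟨-, d⟩
            · exact absurd d hz0
            · exact d
          have f2 : Side (t false) z ∧ t' false = t false ∧ y' false = y false * lett z := by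
            rcases d2 with ⟨d, -⟩ | ⟨-, d⟩
            · exact absurd d hz0
            · exact d
          refine ⟨z, f1.1, f2.1, ?_, ?_⟩
          · refine PS_ext true ?_ ?_
            · exact f1.2.2
            · exact f2.2.2
          · show t' = t
            funext q
            cases q
            · exact f2.2.1
            · exact f1.2.1
  obtain ⟨y, t, hy, hyt, hch⟩ := key v hchain
  have hp : ∀ p, u1 p = y p ∧ τ1 p = t p := by
    intro p
    have := congrFun (hvU.symm.trans hyt) p
    rw [PhC_bU, PhC_bU] at this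
    exact dec_inj (hu1 p) (hy p) this
  have e1 : u1 = y := funext (fun p => (hp p).1)
  have e2 : τ1 = t := funext (fun p => (hp p).2)
  rw [e1, e2]
  exact hch

end Pool.Agent.Sims
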