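import Pool.Agent.Sims.TwBasic
import Pool.Agent.Sims.Par

/-!
# Module `PhLB` : lower bounds for all images

`c` orbit-minimal, all counts `≥ n`.  `φ` is any automorphism, `Y = act φ c` (not necessarily of minimal length).
* `lb_step`: if `Y` is not orbit-minimal there is a Whitehead move which shortens it (`OMin_of_WMin`, `WMin`); `cycLen_wh`: `capC Y A < cnt Y z.1`.
* `lb_cnt`: strong induction on `cycLen Y`.  If `Y` is orbit-minimal then `Y ∈ orb c` (`OMin` of both gives the same length) and its counts are a permutation of those of `c` (`cnt_orb`).  Otherwise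
  `lb_step`: `Y' = act (wh z A) Y = act (φ.trans (wh z A)) c` (`act_act`) is shorter, `cnt Y' i ≤ cnt Y i` for all `i` (`cnt_wh_self`, `cnt_wh_ne`).
* `lb_cap`: `A` or its complement (`capC_compl`) contains `z` and not `bar z` for a `z` with `z.1 = i`; `capC Y A = cnt (act (wh z A) Y) i` (`cnt_wh_self`), `lb_cnt`.
* `lb_pair`: strong induction on `cycLen Y`; suppose some pair cut has capacity `< n`, let `i` be such that `l = capC Y (PrC i) < n` is minimal among the three.  `Y` is not orbit-minimal (otherwise `Y ∈ orb c`, `hI`).
  Let `(z, A)` be a reducing move: `capC Y A < cnt Y z.1`, chosen (among the cuts with `A z`, `¬ A (bar z)`) so that `NSep A i` if possible.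
  Claim: `NSep A i` is possible.  Suppose `A` separates `x_i, x_i⁻¹`; `P = PrC i`.
   - `z.1 ≠ i`: `A ∪ P` contains `z`, not `bar z`; `capC (A ∩ P) = cnt Y i` (one letter: `capC_single`-like) `≥ n > l` (`lb_cnt`), submodularity: `capC (A ∪ P) ≤ capC A + l - cnt Y i < capC A`: `A ∪ P` is
     reducing and `NSep (A ∪ P) i`.
   - `z.1 = i`: `A ∩ P = {z}`, `P \ A = {bar z}`; `capC (A \ P) + capC (P \ A) ≤ capC A + l`, so `capC (A \ P) ≤ capC A + l - cnt Y i < l < n`; by `lb_cap` `A \ P` separates no generator, and it contains no letter of
     `x_i`: it is empty, `PrC j`, or `{x_j^{±1}, x_k^{±1}}` (the complement of `P`).  `PrC j`: capacity `< l`, contradiction to the choice of `i`.  Complement of `P`: capacity `l`, contradiction.  Empty: `A = {z}`,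
     `capC A = cnt Y z.1`, not reducing.
  So with `NSep A i` (and `z.1 ≠ i`): `capC (act (wh z A) Y) (PrC i) = capC Y (PrC i)` (`capC_wh_disj` if `A` contains no letter of `x_i`, otherwise pass to the complement: `capC_compl`, `act_wh_compl`, or
  `capC_wh_disj'`; see `Cross_nocross`, `nocross` in `Cross.lean`), and the image is shorter: induction hypothesis.
Difficulty 3.
-/

namespace Pool.Agent.Sims

open FreeGroup (of)

theorem lb_step {Y : CC} (hY : ¬ OMin Y) : ∃ (z : Fin 3 × Bool) (A : Fin 3 × Bool → Bool),
    A z = true ∧ A (bar z) = false ∧ capC Y A < cnt Y z.1 ∧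
      cycLen (act (wh z A) Y) < cycLen Y := by
  by_contra hcon
  push Not at hcon
  apply hY
  apply OMin_of_WMin
  intro z A hz hz'
  have h1 := cycLen_wh Y z A hz hz'
  by_contra h2
  push Not at h2
  have h3 := hcon z A hz hz' (by omega)
  omega

theorem lb_orb {c : CC} (hO : OMin c) {φ : FreeGroup (Fin 3) ≃* FreeGroup (Fin 3)}
    (hY : OMin (act φ c)) : act φ c ∈ orb c := by
  refine ⟨⟨φ, rfl⟩, ?_⟩
  have h1 := hO φ
  have h2 := hY φ.symm
  have h3 : act φ.symm (act φ c) = c := by
    rw [act_act, MulEquiv.self_trans_symm, act_refl]
  rw [h3] at h2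
  omega

theorem lb_cnt {c : CC} (hO : OMin c) {n : ℕ} (hn : ∀ i, n ≤ cnt c i)
    (φ : FreeGroup (Fin 3) ≃* FreeGroup (Fin 3)) (i : Fin 3) : n ≤ cnt (act φ c) i := by
  have key : ∀ N, ∀ φ : FreeGroup (Fin 3) ≃* FreeGroup (Fin 3), cycLen (act φ c) = N →
      ∀ i, n ≤ cnt (act φ c) i := by
    intro N
    induction N using Nat.strong_induction_on with
    | _ N ih =>
      intro φ hN i
      by_cases hY : OMin (act φ c)
      · obtain ⟨p, hp⟩ := cnt_orb hO (lb_orb hO hY)
        rw [hp]
        exact hn _
      · obtain ⟨z, A, hz, hz', h1, h2⟩ := lb_step hY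
        have h3 := ih (cycLen (act (wh z A) (act φ c))) (by omega) (φ.trans (wh z A))
          (by rw [act_act]) i
        rw [← act_act] at h3
        by_cases hi : i = z.1
        · subst hi
          rw [cnt_wh_self _ z A hz hz'] at h3
          omega
        · rwa [cnt_wh_ne _ z A hi] at h3
  exact key _ φ rfl i

theorem lb_cap {c : CC} (hO : OMin c) {n : ℕ} (hn : ∀ i, n ≤ cnt c i)
    (φ : FreeGroup (Fin 3) ≃* FreeGroup (Fin 3)) {i : Fin 3} {A : Fin 3 × Bool → Bool}
    (hA : A (i, true) ≠ A (i, false)) : n ≤ capC (act φ c) A := by
  have key : ∀ z : Fin 3 × Bool, A z = true → A (bar z) = false → n ≤ capC (act φ c) A := by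
    intro z hz hz'
    have h1 := lb_cnt hO hn (φ.trans (wh z A)) z.1
    rwa [← act_act, cnt_wh_self _ z A hz hz'] at h1
  cases h1 : A (i, true)
  · have h2 : A (i, false) = true := by
      cases h3 : A (i, false)
      · exact absurd (h1.trans h3.symm) hA
      · rfl
    exact key (i, false) h2 h1
  · have h2 : A (i, false) = false := by
      cases h3 : A (i, false)
      · rfl
      · exact absurd (h1.trans h3.symm) hA
    exact key (i, true) h1 h2

theorem PhLB_nsep {A : Fin 3 × Bool → Bool} {i : Fin 3} (h : NSep A i) :
    ∀ x : Fin 3 × Bool, x.1 = i → A x = A (i, true) := by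
  rintro ⟨j, b⟩ hj
  have hj' : j = i := hj
  subst hj'
  cases b
  · exact h.symm
  · rfl

theorem PhLB_nc1 {V : CC} {i : Fin 3} {z : Fin 3 × Bool} {A : Fin 3 × Bool → Bool}
    (hz1 : A z = true) (hz2 : A (bar z) = false) (hs : NSep A i) (ha : A (i, true) = false) :
    capC (act (wh z A) V) (PrC i) = capC V (PrC i) := by
  have hx : ∀ x : Fin 3 × Bool, x.1 = i → A x = false := by
    intro x hx
    rw [PhLB_nsep hs x hx, ha]
  have hzi : z.1 ≠ i := by
    intro hz
    rw [hx z hz] at hz1
    exact absurd hz1 (by decide)
  apply capC_wh_disj V z A (PrC i) hz1 hz2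
  · simp [PrC, hzi]
  · simp [PrC, hzi]
  · intro x hAx
    have : x.1 ≠ i := by
      intro h
      rw [hx x h] at hAx
      exact absurd hAx (by decide)
    simp [PrC, this]

theorem PhLB_nc {V : CC} {i : Fin 3} {z : Fin 3 × Bool} {A : Fin 3 × Bool → Bool}
    (hz1 : A z = true) (hz2 : A (bar z) = false) (hs : NSep A i) :
    capC (act (wh z A) V) (PrC i) = capC V (PrC i) := by
  cases ha : A (i, true)
  · exact PhLB_nc1 hz1 hz2 hs ha
  · rw [← act_wh_compl z A V]
    apply PhLB_nc1
    · simp [hz2]
    · simp [hz1]
    · unfold NSep at hs ⊢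
      simp only
      rw [hs]
    · simp [ha]

/-- a reducing move which does not separate `i` -/
theorem PhLB_choose {c : CC} (hO : OMin c) {n : ℕ} (hn : ∀ i, n ≤ cnt c i)
    (φ : FreeGroup (Fin 3) ≃* FreeGroup (Fin 3)) {i : Fin 3}
    (hl : capC (act φ c) (PrC i) < n)
    (hmin : ∀ j, capC (act φ c) (PrC i) ≤ capC (act φ c) (PrC j))
    {z : Fin 3 × Bool} {A : Fin 3 × Bool → Bool} (hz : A z = true) (hz' : A (bar z) = false)
    (hr : capC (act φ c) A < cnt (act φ c) z.1) :
    ∃ B : Fin 3 × Bool → Bool, B z = true ∧ B (bar z) = false ∧
      capC (act φ c) B < cnt (act φ c) z.1 ∧ NSep B i := by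
  set Y := act φ c with hY
  by_cases hs : NSep A i
  · exact ⟨A, hz, hz', hr, hs⟩
  have hcnt : ∀ j, n ≤ cnt Y j := lb_cnt hO hn φ
  by_cases hzi : z.1 = i
  · exfalso
    have h1 := capC_submod' Y A (PrC i)
    have h2 : capC Y (fun x => !A x && PrC i x) = cnt Y z.1 := by
      have h3 : capC Y (fun x => !A x && PrC i x) = capC Y (fun x => decide (x = bar z)) := by
        apply capC_congr
        intro x
        by_cases hx : x.1 = i
        · have hx' : x = z ∨ x = bar z := by
            rcases x with ⟨j, b⟩
            rcases z with ⟨k, b'⟩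
            have e1 : j = i := hx
            have e2 : k = i := hzi
            subst e1
            subst e2
            cases b <;> cases b' <;> simp [bar]
          rcases hx' with rfl | rfl
          · have hne : ¬ x = bar x := fun h => bar_ne x h.symm
            rw [hz]
            simp [hne]
          · rw [hz']
            simp [PrC, hzi]
        · have hne : ¬ x = bar z := by
            intro h
            rw [h] at hx
            exact hx hzi
          simp [PrC, hx, hne]
      rw [h3, capC_single, bar_fst]
    rw [h2] at h1
    have h4 : capC Y (fun x => A x && !PrC i x) < capC Y (PrC i) := by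
      have := hcnt z.1
      omega
    -- the cut separates nothing
    set E : Fin 3 × Bool → Bool := fun x => A x && !PrC i x with hE
    have hns : ∀ j, NSep E j := by
      intro j
      by_contra hj
      have : n ≤ capC Y E := lb_cap hO hn φ (A := E) (i := j) hj
      omega
    have hEi : E (i, true) = false := by simp [hE, PrC]
    have hA : ∀ x : Fin 3 × Bool, x.1 ≠ i → A x = E x := by
      intro x hx
      simp [hE, PrC, hx]
    obtain ⟨j, k, hj, hk, hjk, hall⟩ : ∃ j k : Fin 3, j ≠ i ∧ k ≠ i ∧ j ≠ k ∧
        ∀ m, m = i ∨ m = j ∨ m = k := by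
      have : ∀ i : Fin 3, ∃ j k : Fin 3, j ≠ i ∧ k ≠ i ∧ j ≠ k ∧
        ∀ m, m = i ∨ m = j ∨ m = k := by decide
      exact this i
    have hval : ∀ x : Fin 3 × Bool, E x = E (x.1, true) := fun x => PhLB_nsep (hns x.1) x rfl
    cases ej : E (j, true)
    · cases ek : E (k, true)
      · -- empty
        have h5 : capC Y A = capC Y (fun x => decide (x = z)) := by
          apply capC_congr
          intro x
          by_cases hx : x.1 = i
          · have hx' : x = z ∨ x = bar z := by
              rcases x with ⟨j, b⟩
              rcases z with ⟨k, b'⟩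
              have e1 : j = i := hx
              have e2 : k = i := hzi
              subst e1
              subst e2
              cases b <;> cases b' <;> simp [bar]
            rcases hx' with rfl | rfl
            · simp [hz]
            · simp [hz', bar_ne]
          · rw [hA x hx, hval x]
            have hne : ¬ x = z := by
              intro h
              rw [h] at hx
              exact hx hzi
            rcases hall x.1 with h | h | h
            · exact absurd h hx
            · rw [h, ej]
              simp [hne]
            · rw [h, ek]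
              simp [hne]
        rw [capC_single] at h5
        omega
      · have h5 : capC Y E = capC Y (PrC k) := by
          apply capC_congr
          intro x
          rw [hval x]
          rcases hall x.1 with h | h | h
          · rw [h, hEi]
            simp [PrC, h, hk.symm]
          · rw [h, ej]
            simp [PrC, h, hjk]
          · rw [h, ek]
            simp [PrC, h]
        have := hmin k
        omega
    · cases ek : E (k, true)
      · have h5 : capC Y E = capC Y (PrC j) := by
          apply capC_congr
          intro x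
          rw [hval x]
          rcases hall x.1 with h | h | h
          · rw [h, hEi]
            simp [PrC, h, hj.symm]
          · rw [h, ej]
            simp [PrC, h]
          · rw [h, ek]
            simp [PrC, h, hjk.symm]
        have := hmin j
        omega
      · have h5 : capC Y E = capC Y (fun x => !PrC i x) := by
          apply capC_congr
          intro x
          rw [hval x]
          rcases hall x.1 with h | h | h
          · rw [h, hEi]
            simp [PrC, h]
          · rw [h, ej]
            simp [PrC, h, hj]
          · rw [h, ek]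
            simp [PrC, h, hk]
        rw [capC_compl] at h5
        omega
  · refine ⟨fun x => A x || PrC i x, by simp [hz], by simp [hz', PrC, hzi], ?_, ?_⟩
    · have h1 := capC_submod Y A (PrC i)
      obtain ⟨y, hy1, hy2⟩ : ∃ y : Fin 3 × Bool, y.1 = i ∧
          ∀ x, (A x && PrC i x) = decide (x = y) := by
        have hs' : A (i, true) ≠ A (i, false) := hs
        cases h3 : A (i, true)
        · have h4 : A (i, false) = true := by
            cases h5 : A (i, false)
            · exact absurd (h3.trans h5.symm) hs'
            · rfl
          refine ⟨(i, false), rfl, ?_⟩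
          rintro ⟨j, b⟩
          by_cases hj : j = i
          · subst hj
            cases b <;> simp [h3, h4, PrC]
          · simp [PrC, hj]
        · have h4 : A (i, false) = false := by
            cases h5 : A (i, false)
            · rfl
            · exact absurd (h3.trans h5.symm) hs'
          refine ⟨(i, true), rfl, ?_⟩
          rintro ⟨j, b⟩
          by_cases hj : j = i
          · subst hj
            cases b <;> simp [h3, h4, PrC]
          · simp [PrC, hj]
      have h2 : capC Y (fun x => A x && PrC i x) = cnt Y i := by
        rw [capC_congr Y hy2, capC_single, hy1]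
      rw [h2] at h1
      have h3 := hcnt i
      omega
    · unfold NSep
      simp [PrC]

theorem lb_pair {c : CC} (hO : OMin c) {n : ℕ} (hn : ∀ i, n ≤ cnt c i)
    (hI : ∀ W ∈ orb c, ∀ i, n ≤ capC W (PrC i))
    (φ : FreeGroup (Fin 3) ≃* FreeGroup (Fin 3)) (i : Fin 3) :
    n ≤ capC (act φ c) (PrC i) := by
  have key : ∀ N, ∀ φ : FreeGroup (Fin 3) ≃* FreeGroup (Fin 3), cycLen (act φ c) = N →
      ∀ i, n ≤ capC (act φ c) (PrC i) := by
    intro N
    induction N using Nat.strong_induction_on with
    | _ N ih =>
      intro φ hN i₀
      by_contra hlt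
      push Not at hlt
      obtain ⟨i, -, hmin⟩ := Finset.exists_min_image Finset.univ
        (fun i : Fin 3 => capC (act φ c) (PrC i)) ⟨i₀, Finset.mem_univ _⟩
      have hl : capC (act φ c) (PrC i) < n := (hmin i₀ (Finset.mem_univ _)).trans_lt hlt
      have hY : ¬ OMin (act φ c) := by
        intro hY
        have := hI _ (lb_orb hO hY) i
        omega
      obtain ⟨z, A, hz, hz', h1, -⟩ := lb_step hY
      obtain ⟨B, hB, hB', hr, hs⟩ := PhLB_choose hO hn φ hl
        (fun j => hmin j (Finset.mem_univ _)) hz hz' h1
      have h2 := cycLen_wh (act φ c) z B hB hB'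
      have h3 := ih (cycLen (act (wh z B) (act φ c))) (by omega) (φ.trans (wh z B))
        (by rw [act_act]) i
      rw [← act_act, PhLB_nc hB hB' hs] at h3
      omega
  exact key _ φ rfl i

end Pool.Agent.Sims
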