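import Pool.Agent.Sims.SameA

/-!
# Module `PhiForm` : words in which the cut `{a, b, b⁻¹}` is tight

Compute `capC` of `Sb = {a, b, b⁻¹}` on the words of `same_word`, `opp_word` with `lin` (`lin_append`).
For a pair `(x, y)` of consecutive letters the indicator is `[Sb x ≠ Sb ȳ]`; `Sb a = 1`, `Sb a⁻¹ = 0`,
`Sb b^{±1} = 1`, `Sb c^{±1} = 0`.  Think of the state `Sb x` before and `Sb ȳ` after each junction; inside a word of
letters `b^{±1}, c^{±1}` we have `Sb x = Sb x̄`, so the state is carried over.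
* `lin_bc`: for a word `G` in `b^{±1}, c^{±1}` and a letter `x` with state `s = Sb x`, and a final letter `y` with
  `s' = Sb ȳ`: `lin f x G y` is the number of changes in the sequence `s, Sb G_1, …, Sb G_k, s'`.
* for the part `a G a` the sequence starts with `1` and ends with `Sb a⁻¹ = 0`: at least one change, and exactly
  one iff `G` consists of letters `b^{±1}` followed by letters `c^{±1}`, i.e. (reduced word) `g = b^s c^t`.  Since the
  capacity is the sum over the two parts, `capC = 2` iff both parts have exactly one change.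
* `a G a⁻¹`: starts with `1`, ends with `Sb a = 1`: an even number of changes; `0` iff `g = b^s`, `2` iff
  `g = b^s c^t b^u`, `t ≠ 0` (nonempty middle part).
* `a⁻¹ H a`: starts with `0`, ends with `0`: `0` iff `h = c^t`, `2` iff `h = c^t b^s c^u`, `s ≠ 0`.
A reduced word in the single generator `x` is a power of `x`.
Difficulty 2-3.
-/

namespace Pool.Agent.Sims

open FreeGroup (of)

/-- number of changes in the sequence `s, l, e` -/
def PhiForm_chg : Bool → List Bool → Bool → ℕ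
  | s, [], e => if s = e then 0 else 1
  | s, (t :: l), e => (if s = t then 0 else 1) + PhiForm_chg t l e

theorem PhiForm_L0 (l : List Bool) : ∀ s e : Bool, PhiForm_chg s l e = 0 →
    e = s ∧ l = List.replicate l.length s := by
  induction l with
  | nil =>
    intro s e h
    unfold PhiForm_chg at h
    by_cases hse : s = e
    · exact ⟨hse.symm, rfl⟩
    · rw [if_neg hse] at h
      omega
  | cons t l ih =>
    intro s e h
    unfold PhiForm_chg at h
    by_cases hst : s = t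
    · subst hst
      obtain ⟨h1, h2⟩ := ih s e (by omega)
      refine ⟨h1, ?_⟩
      rw [List.length_cons, List.replicate_succ, ← h2]
    · rw [if_neg hst] at h
      omega

theorem PhiForm_L1 (l : List Bool) : ∀ s e : Bool, PhiForm_chg s l e = 1 →
    e = (!s) ∧ ∃ m n : ℕ, l = List.replicate m s ++ List.replicate n (!s) := by
  induction l with
  | nil =>
    intro s e h
    unfold PhiForm_chg at h
    by_cases hse : s = e
    · rw [if_pos hse] at h
      omega
    · refine ⟨?_, 0, 0, rfl⟩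
      exact Bool.eq_not.mpr (Ne.symm hse)
  | cons t l ih =>
    intro s e h
    unfold PhiForm_chg at h
    by_cases hst : s = t
    · subst hst
      obtain ⟨h1, m, n, h2⟩ := ih s e (by simpa using h)
      refine ⟨h1, m + 1, n, ?_⟩
      rw [List.replicate_succ, h2]
      rfl
    · rw [if_neg hst] at h
      obtain ⟨h1, h2⟩ := PhiForm_L0 l t e (by omega)
      have ht : t = (!s) := Bool.eq_not.mpr (Ne.symm hst)
      refine ⟨by rw [h1, ht], 0, l.length + 1, ?_⟩
      rw [List.replicate_zero, List.nil_append, List.replicate_succ, ← ht, ← h2]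

theorem PhiForm_L2 (l : List Bool) : ∀ s e : Bool, PhiForm_chg s l e = 2 →
    e = s ∧ ∃ m n p : ℕ, l = List.replicate m s ++ (List.replicate (n + 1) (!s) ++
      List.replicate p s) := by
  induction l with
  | nil =>
    intro s e h
    unfold PhiForm_chg at h
    split_ifs at h
    omega
  | cons t l ih =>
    intro s e h
    unfold PhiForm_chg at h
    by_cases hst : s = t
    · subst hst
      obtain ⟨h1, m, n, p, h2⟩ := ih s e (by simpa using h)
      refine ⟨h1, m + 1, n, p, ?_⟩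
      rw [List.replicate_succ, h2]
      rfl
    · rw [if_neg hst] at h
      obtain ⟨h1, m, n, h2⟩ := PhiForm_L1 l t e (by omega)
      have ht : t = (!s) := Bool.eq_not.mpr (Ne.symm hst)
      refine ⟨by rw [h1, ht, Bool.not_not], 0, m, n, ?_⟩
      rw [List.replicate_zero, List.nil_append, List.replicate_succ, h2, ht, Bool.not_not]
      rfl

/-- the cut `{a, x_i, x_i⁻¹}` -/
def PhiForm_S (i : Fin 3) : Fin 3 × Bool → Bool := fun x => decide (x = (0, true)) || decide (x.1 = i)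

theorem PhiForm_S_ne {i : Fin 3} {y : Fin 3 × Bool} (hy : y.1 ≠ 0) :
    PhiForm_S i y = decide (y.1 = i) ∧ PhiForm_S i (bar y) = decide (y.1 = i) := by
  have h1 : y ≠ (0, true) := fun h => hy (by rw [h])
  have h2 : bar y ≠ (0, true) := fun h => hy (by rw [← bar_fst, h])
  unfold PhiForm_S
  rw [decide_eq_false h1, decide_eq_false h2]
  exact ⟨Bool.false_or _, Bool.false_or _⟩

theorem PhiForm_lin (i : Fin 3) (G : List (Fin 3 × Bool)) (hG : ∀ y ∈ G, y.1 ≠ 0)
    (x z : Fin 3 × Bool) :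
    lin (fun x y => if PhiForm_S i x = PhiForm_S i (bar y) then 0 else 1) x G z =
      PhiForm_chg (PhiForm_S i x) (G.map (fun y => decide (y.1 = i))) (PhiForm_S i (bar z)) := by
  induction G generalizing x with
  | nil => rfl
  | cons y l ih =>
    have hy := hG y (by simp)
    have h1 := ih (fun q hq => hG q (by simp [hq])) y
    rw [lin, List.map_cons, PhiForm_chg, h1, (PhiForm_S_ne hy).1, (PhiForm_S_ne hy).2]

theorem PhiForm_pow (i : Fin 3) (w : List (Fin 3 × Bool)) (h : ∀ x ∈ w, x.1 = i) :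
    ∃ k : ℤ, (FreeGroup.mk w : FreeGroup (Fin 3)) = of i ^ k := by
  induction w with
  | nil => exact ⟨0, by rw [zpow_zero]; rfl⟩
  | cons x l ih =>
    obtain ⟨k, hk⟩ := ih (fun q hq => h q (by simp [hq]))
    have hx := h x (by simp)
    have e1 : (FreeGroup.mk (x :: l) : FreeGroup (Fin 3)) = lett x * FreeGroup.mk l := by
      rw [lett, FreeGroup.mul_mk]; rfl
    rcases x with ⟨i', b⟩
    simp only at hx
    subst hx
    cases b with
    | true =>
      refine ⟨1 + k, ?_⟩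
      rw [e1, hk, lett_true, zpow_add, zpow_one]
    | false =>
      refine ⟨-1 + k, ?_⟩
      rw [e1, hk, lett_false, zpow_add, zpow_neg_one]

/-- splitting a word according to the image -/
theorem PhiForm_split {i : Fin 3} {G : List (Fin 3 × Bool)} {l1 l2 : List Bool}
    (h : G.map (fun y => decide (y.1 = i)) = l1 ++ l2) :
    ∃ G1 G2, G = G1 ++ G2 ∧ G1.map (fun y => decide (y.1 = i)) = l1 ∧
      G2.map (fun y => decide (y.1 = i)) = l2 := by
  rw [List.map_eq_append_iff] at h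
  obtain ⟨G1, G2, h1, h2, h3⟩ := h
  exact ⟨G1, G2, h1, h2, h3⟩

theorem PhiForm_mem {i : Fin 3} {G : List (Fin 3 × Bool)} {m : ℕ} {b : Bool}
    (h : G.map (fun y => decide (y.1 = i)) = List.replicate m b) :
    ∀ y ∈ G, decide (y.1 = i) = b := by
  intro y hy
  have h1 : decide (y.1 = i) ∈ G.map (fun y => decide (y.1 = i)) :=
    List.mem_map_of_mem (f := fun y : Fin 3 × Bool => decide (y.1 = i)) hy
  rw [h] at h1
  exact (List.mem_replicate.mp h1).2

section
variable {i j : Fin 3} (hij : ∀ x : Fin 3, x ≠ 0 → x ≠ i → x = j)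

/-- words with all letters of one kind -/
theorem PhiForm_true {G : List (Fin 3 × Bool)} {m : ℕ}
    (h : G.map (fun y => decide (y.1 = i)) = List.replicate m true) :
    ∃ k : ℤ, (FreeGroup.mk G : FreeGroup (Fin 3)) = of i ^ k := by
  apply PhiForm_pow
  intro x hx
  have := PhiForm_mem h x hx
  exact of_decide_eq_true this

include hij in
theorem PhiForm_false {G : List (Fin 3 × Bool)} (hG : ∀ y ∈ G, y.1 ≠ 0) {m : ℕ}
    (h : G.map (fun y => decide (y.1 = i)) = List.replicate m false) :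
    ∃ k : ℤ, (FreeGroup.mk G : FreeGroup (Fin 3)) = of j ^ k := by
  apply PhiForm_pow
  intro x hx
  have := PhiForm_mem h x hx
  exact hij _ (hG x hx) (of_decide_eq_false this)

theorem PhiForm_ne_one {G : List (Fin 3 × Bool)} (hr : FreeGroup.IsReduced G) (hne : G ≠ [])
    {x : FreeGroup (Fin 3)} {k : ℤ} (h : (FreeGroup.mk G : FreeGroup (Fin 3)) = x ^ k) : k ≠ 0 := by
  rintro rfl
  rw [zpow_zero] at h
  have h1 := congrArg FreeGroup.toWord h
  rw [FreeGroup.toWord_mk, FreeGroup.toWord_one, hr.reduce_eq] at h1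
  exact hne h1

include hij in
theorem PhiForm_bc {g : FreeGroup (Fin 3)} (hg : In12 g) {e : Bool}
    (h : PhiForm_chg true (g.toWord.map (fun y => decide (y.1 = i))) e = 1) :
    ∃ s t : ℤ, g = of i ^ s * of j ^ t := by
  obtain ⟨-, m, n, h1⟩ := PhiForm_L1 _ _ _ h
  obtain ⟨G1, G2, e1, e2, e3⟩ := PhiForm_split h1
  obtain ⟨s, hs⟩ := PhiForm_true e2
  obtain ⟨t, ht⟩ := PhiForm_false hij (fun y hy => hg y (by rw [e1]; simp [hy])) e3
  refine ⟨s, t, ?_⟩
  rw [← hs, ← ht, FreeGroup.mul_mk, ← e1, FreeGroup.mk_toWord]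

include hij in
/-- `chg true G true = 2` -/
theorem PhiForm_bcb {g : FreeGroup (Fin 3)} (hg : In12 g) {e : Bool}
    (h : PhiForm_chg true (g.toWord.map (fun y => decide (y.1 = i))) e = 2) :
    ∃ s t u : ℤ, t ≠ 0 ∧ g = of i ^ s * of j ^ t * of i ^ u := by
  obtain ⟨-, m, n, p, h1⟩ := PhiForm_L2 _ _ _ h
  obtain ⟨G1, G', e1, e2, e3⟩ := PhiForm_split h1
  obtain ⟨G2, G3, e4, e5, e6⟩ := PhiForm_split e3
  obtain ⟨s, hs⟩ := PhiForm_true e2
  obtain ⟨t, ht⟩ := PhiForm_false hij (fun y hy => hg y (by rw [e1, e4]; simp [hy])) e5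
  obtain ⟨u, hu⟩ := PhiForm_true e6
  have hr : FreeGroup.IsReduced G2 := by
    have h7 : FreeGroup.IsReduced g.toWord := FreeGroup.isReduced_toWord
    rw [e1, e4] at h7
    exact red_mid h7 ⟨G1, G3, by simp⟩
  have hne : G2 ≠ [] := by
    rintro rfl
    simp at e5
  refine ⟨s, t, u, PhiForm_ne_one hr hne ht, ?_⟩
  rw [← hs, ← ht, ← hu, FreeGroup.mul_mk, FreeGroup.mul_mk, List.append_assoc, ← e4, ← e1,
    FreeGroup.mk_toWord]

include hij in
/-- `chg false H false = 2` -/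
theorem PhiForm_cbc {g : FreeGroup (Fin 3)} (hg : In12 g) {e : Bool}
    (h : PhiForm_chg false (g.toWord.map (fun y => decide (y.1 = i))) e = 2) :
    ∃ s t u : ℤ, t ≠ 0 ∧ g = of j ^ s * of i ^ t * of j ^ u := by
  obtain ⟨-, m, n, p, h1⟩ := PhiForm_L2 _ _ _ h
  obtain ⟨G1, G', e1, e2, e3⟩ := PhiForm_split h1
  obtain ⟨G2, G3, e4, e5, e6⟩ := PhiForm_split e3
  obtain ⟨s, hs⟩ := PhiForm_false hij (fun y hy => hg y (by rw [e1]; simp [hy])) e2
  obtain ⟨t, ht⟩ := PhiForm_true e5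
  obtain ⟨u, hu⟩ := PhiForm_false hij (fun y hy => hg y (by rw [e1, e4]; simp [hy])) e6
  have hr : FreeGroup.IsReduced G2 := by
    have h7 : FreeGroup.IsReduced g.toWord := FreeGroup.isReduced_toWord
    rw [e1, e4] at h7
    exact red_mid h7 ⟨G1, G3, by simp⟩
  have hne : G2 ≠ [] := by
    rintro rfl
    simp at e5
  refine ⟨s, t, u, PhiForm_ne_one hr hne ht, ?_⟩
  rw [← hs, ← ht, ← hu, FreeGroup.mul_mk, FreeGroup.mul_mk, List.append_assoc, ← e4, ← e1,
    FreeGroup.mk_toWord]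

theorem PhiForm_zero_t {g : FreeGroup (Fin 3)} (hg1 : g ≠ 1) {e : Bool}
    (h : PhiForm_chg true (g.toWord.map (fun y => decide (y.1 = i))) e = 0) :
    ∃ s : ℤ, s ≠ 0 ∧ g = of i ^ s := by
  obtain ⟨-, h1⟩ := PhiForm_L0 _ _ _ h
  obtain ⟨s, hs⟩ := PhiForm_true h1
  rw [FreeGroup.mk_toWord] at hs
  refine ⟨s, ?_, hs⟩
  rintro rfl
  exact hg1 (by rw [hs, zpow_zero])

include hij in
theorem PhiForm_zero_f {g : FreeGroup (Fin 3)} (hg : In12 g) (hg1 : g ≠ 1) {e : Bool}
    (h : PhiForm_chg false (g.toWord.map (fun y => decide (y.1 = i))) e = 0) :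
    ∃ s : ℤ, s ≠ 0 ∧ g = of j ^ s := by
  obtain ⟨-, h1⟩ := PhiForm_L0 _ _ _ h
  obtain ⟨s, hs⟩ := PhiForm_false hij hg h1
  rw [FreeGroup.mk_toWord] at hs
  refine ⟨s, ?_, hs⟩
  rintro rfl
  exact hg1 (by rw [hs, zpow_zero])

theorem PhiForm_cap_same (hi : i ≠ 0) {g h : FreeGroup (Fin 3)} (hg : In12 g) (hh : In12 h) :
    capC (same g h) (PhiForm_S i) =
      PhiForm_chg true (g.toWord.map (fun y => decide (y.1 = i))) false +
      PhiForm_chg true (h.toWord.map (fun y => decide (y.1 = i))) false := by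
  obtain ⟨h1, h2⟩ := same_word hg hh
  rw [← h2, capC_cls h1, cap, cyc, lin_append, PhiForm_lin i _ hg, PhiForm_lin i _ hh]
  have e1 : PhiForm_S i (0, true) = true := by
    unfold PhiForm_S
    simp
  have e2 : PhiForm_S i (bar (0, true)) = false := by
    unfold PhiForm_S bar
    simp [hi.symm]
  rw [e1, e2]

theorem PhiForm_cap_opp (hi : i ≠ 0) {g h : FreeGroup (Fin 3)} (hg : In12 g) (hh : In12 h)
    (hg1 : g ≠ 1) (hh1 : h ≠ 1) :
    capC (opp g h) (PhiForm_S i) =
      PhiForm_chg true (g.toWord.map (fun y => decide (y.1 = i))) true +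
      PhiForm_chg false (h.toWord.map (fun y => decide (y.1 = i))) false := by
  obtain ⟨h1, h2⟩ := opp_word hg hh hg1 hh1
  rw [← h2, capC_cls h1, cap, cyc, lin_append, PhiForm_lin i _ hg, PhiForm_lin i _ hh]
  have e1 : PhiForm_S i (0, true) = true := by
    unfold PhiForm_S
    simp
  have e2 : PhiForm_S i (0, false) = false := by
    unfold PhiForm_S
    simp [hi.symm]
  have e3 : bar ((0, true) : Fin 3 × Bool) = (0, false) := rfl
  have e4 : bar ((0, false) : Fin 3 × Bool) = (0, true) := rfl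
  rw [e3, e4, e1, e2]

include hij in
theorem PhiForm_same (hi : i ≠ 0) {g h : FreeGroup (Fin 3)} (hg : In12 g) (hh : In12 h)
    (hc : capC (same g h) (PhiForm_S i) = 2) :
    (∃ s t : ℤ, g = of i ^ s * of j ^ t) ∧ (∃ s t : ℤ, h = of i ^ s * of j ^ t) := by
  rw [PhiForm_cap_same hi hg hh] at hc
  have h1 : PhiForm_chg true (g.toWord.map (fun y => decide (y.1 = i))) false ≠ 0 := by
    intro h0
    have := (PhiForm_L0 _ _ _ h0).1
    simp at this
  have h2 : PhiForm_chg true (h.toWord.map (fun y => decide (y.1 = i))) false ≠ 0 := by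
    intro h0
    have := (PhiForm_L0 _ _ _ h0).1
    simp at this
  exact ⟨PhiForm_bc hij hg (e := false) (by omega), PhiForm_bc hij hh (e := false) (by omega)⟩

include hij in
theorem PhiForm_opp (hi : i ≠ 0) {g h : FreeGroup (Fin 3)} (hg : In12 g) (hh : In12 h)
    (hg1 : g ≠ 1) (hh1 : h ≠ 1) (hc : capC (opp g h) (PhiForm_S i) = 2) :
    (∃ s t u v : ℤ, t ≠ 0 ∧ v ≠ 0 ∧ g = of i ^ s * of j ^ t * of i ^ u ∧ h = of j ^ v) ∨
    (∃ s t u v : ℤ, s ≠ 0 ∧ u ≠ 0 ∧ g = of i ^ s ∧ h = of j ^ t * of i ^ u * of j ^ v) := by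
  rw [PhiForm_cap_opp hi hg hh hg1 hh1] at hc
  have h1 : PhiForm_chg true (g.toWord.map (fun y => decide (y.1 = i))) true ≠ 1 := by
    intro h0
    have := (PhiForm_L1 _ _ _ h0).1
    simp at this
  rcases Nat.eq_zero_or_pos (PhiForm_chg true (g.toWord.map (fun y => decide (y.1 = i))) true)
    with h0 | h0
  · right
    obtain ⟨s, hs, e1⟩ := PhiForm_zero_t hg1 h0
    obtain ⟨t, u, v, hu, e2⟩ := PhiForm_cbc hij hh (e := false) (by omega)
    exact ⟨s, t, u, v, hs, hu, e1, e2⟩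
  · left
    obtain ⟨s, t, u, ht, e1⟩ := PhiForm_bcb hij hg (e := true) (by omega)
    obtain ⟨v, hv, e2⟩ := PhiForm_zero_f hij hh hh1 (e := false) (by omega)
    exact ⟨s, t, u, v, ht, hv, e1, e2⟩

end

theorem PhiForm_12 : ∀ x : Fin 3, x ≠ 0 → x ≠ 1 → x = 2 := by decide

theorem PhiForm_21 : ∀ x : Fin 3, x ≠ 0 → x ≠ 2 → x = 1 := by decide

theorem same_form {g h : FreeGroup (Fin 3)} (hg : In12 g) (hh : In12 h)
    (hc : capC (same g h) Sb = 2) :
    (∃ s t : ℤ, g = of 1 ^ s * of 2 ^ t) ∧ (∃ s t : ℤ, h = of 1 ^ s * of 2 ^ t) :=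
  PhiForm_same PhiForm_12 (by decide) hg hh hc

theorem opp_form {g h : FreeGroup (Fin 3)} (hg : In12 g) (hh : In12 h) (hg1 : g ≠ 1)
    (hh1 : h ≠ 1) (hc : capC (opp g h) Sb = 2) :
    (∃ s t u v : ℤ, t ≠ 0 ∧ v ≠ 0 ∧ g = of 1 ^ s * of 2 ^ t * of 1 ^ u ∧ h = of 2 ^ v) ∨
    (∃ s t u v : ℤ, s ≠ 0 ∧ u ≠ 0 ∧ g = of 1 ^ s ∧ h = of 2 ^ t * of 1 ^ u * of 2 ^ v) :=
  PhiForm_opp PhiForm_12 (by decide) hg hh hg1 hh1 hc

/-- the mirror images, for the cut `{a, c, c⁻¹}` -/
theorem same_form' {g h : FreeGroup (Fin 3)} (hg : In12 g) (hh : In12 h)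
    (hc : capC (same g h) Sc = 2) :
    (∃ s t : ℤ, g = of 2 ^ s * of 1 ^ t) ∧ (∃ s t : ℤ, h = of 2 ^ s * of 1 ^ t) :=
  PhiForm_same PhiForm_21 (by decide) hg hh hc

theorem opp_form' {g h : FreeGroup (Fin 3)} (hg : In12 g) (hh : In12 h) (hg1 : g ≠ 1)
    (hh1 : h ≠ 1) (hc : capC (opp g h) Sc = 2) :
    (∃ s t u v : ℤ, t ≠ 0 ∧ v ≠ 0 ∧ g = of 2 ^ s * of 1 ^ t * of 2 ^ u ∧ h = of 1 ^ v) ∨
    (∃ s t u v : ℤ, s ≠ 0 ∧ u ≠ 0 ∧ g = of 2 ^ s ∧ h = of 1 ^ t * of 2 ^ u * of 1 ^ v) :=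
  PhiForm_opp PhiForm_21 (by decide) hg hh hg1 hh1 hc

end Pool.Agent.Sims
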