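import Pool.Agent.Sims.TRel
import Pool.Agent.Sims.SameB
import Pool.Agent.Sims.SameC
import Pool.Agent.Sims.ACut
import Pool.Agent.Sims.PhiForm
import Pool.Agent.Sims.YbcM

/-!
# Module `PhiO` : words `a g a⁻¹ h` with tight cut `{a, b, b⁻¹}`

`phi_opp1`: `c₀ = opp (b^s c^t b^u) (c^v)`, `t, v ≠ 0`, orbit-minimal, `n_b, n_c ≥ 3`.  By `opp_norm`, `Ybc_norm`, `Ybc_conj`:
`|s|+|t|+|u| = ‖Ybc (s+u) t‖ ≤ |s+u| + |t|`; so `j := s + u` has `|j| = |s|+|u| = n_b ≥ 3`, and `|t| + |v| = n_c` (`opp_cnt`).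
`E = EOpp (Ybc j t) (Yc v) ∪ EOpp (Yc t) (Ybc j v)`; `ℓ = m - 2 = |j| + |t| + |v|`; by `EOpp_fin` `E` is contained in a finset
with at most `(|j|+|t|)|v| + |t|(|j|+|v|) ≤ ℓ²` elements.  `c₀ ∈ E`.
`Bdd_of_closed`: let `e ∈ E ∩ orb c₀`, `e = opp g h`; `OMin e`, `cnt e 0 = 2`, `cnt e 1 = |j|`, `cnt e 2 = |t|+|v|` (`opp_cnt`,
`Ybc_cyc`, `Yc_cyc`), `(z, A)` a level move, `e' = act (wh z A) e`.
(1) `z.1 ≠ 0`: as in `NotPhiO`: `e' ∈ EOpp (act φ [g]) (act φ [h])`, `φ` from `tmove`, and the sum of the lengths of the two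
classes is `ℓ`.  `φ = tau^{±1}`: the total number of letters `c^{±1}` would be at least `|j| + |t| - 2 + |v| > |t| + |v|`
(`Ybc_tau`, `Yc_tau`; for the second set exchange `t, v`), while the number of letters `b^{±1}` is unchanged
(`cnt_tau`): impossible.  `φ = sig^{±1}`: the total number of letters `b^{±1}` is at least
`|j| + |t| - 2 + |v| > |j|` (`Ybc_sig`, `Yc_sig`; `|t|+|v| ≥ 3`): impossible.  So `φ = 1` and `e' ∈ E`.
(2) `z.1 = 0`, `acut`: `act (wh z A) e = e`, or: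
 (2a) `capC e Sb = 2`, move `wh a Sb`.  `e ∈ EOpp (Ybc j t) (Yc v)`: by `opp_form` either `g = b^{s'} c^{t'} b^{u'}`,
   `h = c^{v'}`; then `[g] = Ybc (s'+u') t'`, so `s'+u' = j`, `t' = t`, `v' = v` (`Ybc_inj`, `Yc_inj`), the move gives
   `opp (c^t) (b^{u'} c^v b^{s'})` (`wh_Sb_opp`) `∈ EOpp (Yc t) (Ybc j v)` (norms: `|s'|+|t|+|u'| = |g| = |j|+|t|`, so the norm of
   the second part is `|u'|+|v|+|s'| = |j|+|v|`); or `g = b^{s'}`: impossible (`cnt [g] 2 = |t| ≠ 0`).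
   `e ∈ EOpp (Yc t) (Ybc j v)`: `g` has `cnt [g] 1 = 0`, `cnt [g] 2 ≠ 0`, so the second form of `opp_form` is impossible; in
   the first form `h = c^{v'}` contradicts `cnt [h] 1 = |j| ≠ 0`.
 (2b) `capC e Sc = 2`, move `wh a Sc`, `opp_form'`: `e ∈ EOpp (Yc t) (Ybc j v)`: the first form `h = b^{v'}` contradicts
   `cnt [h] 2 = |v| ≠ 0`; second form: `g = c^{s'}`, `h = b^{t'} c^{u'} b^{w'}`, so `s' = t`, `u' = v`, `t' + w' = j`, the move gives
   `opp (b^{w'} c^t b^{t'}) (c^v)` (`wh_Sc_opp`) `∈ EOpp (Ybc j t) (Yc v)`.  `e ∈ EOpp (Ybc j t) (Yc v)`: first form: `h = b^{v'}`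
   contradicts `cnt [h] 1 = 0` (`v' ≠ 0`); second form: `g = c^{s'}` contradicts `cnt [g] 1 = |j| ≠ 0`.
`phi_opp`: `capC e Sb = 2`: `opp_form`; first form: `phi_opp1`.  Second form `g = b^s`, `h = c^t b^u c^v`: apply the sign
change of `a` (`opp_flip`: `opp h g`) and `swp`: `opp (b^t c^u b^v) (c^s)`: `phi_opp1` (same orbit, `Bdd_orb`).
`capC e Sc = 2`: apply `swp` first.
Difficulty 3.
-/

namespace Pool.Agent.Sims

open FreeGroup (of)

private theorem o1 : In12 (of 1) := In12_of (by decide)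
private theorem o2 : In12 (of 2) := In12_of (by decide)

private theorem bcb_In12 (s t u : ℤ) : In12 (of 1 ^ s * of 2 ^ t * of 1 ^ u) :=
  In12_mul (In12_mul (In12_zpow o1 s) (In12_zpow o2 t)) (In12_zpow o1 u)

private theorem bcb_ne {s t u : ℤ} (ht : t ≠ 0) :
    (of 1 ^ s * of 2 ^ t * of 1 ^ u : FreeGroup (Fin 3)) ≠ 1 := by
  intro h
  have h1 := Ybc_norm s t u ht
  rw [h, FreeGroup.norm_one] at h1
  have : t.natAbs ≠ 0 := Int.natAbs_ne_zero.2 ht
  omega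

private theorem c_norm (t : ℤ) : (of 2 ^ t : FreeGroup (Fin 3)).norm = t.natAbs := by
  have := (bc_norm 0 t).1
  simpa using this

private theorem c_ne {t : ℤ} (ht : t ≠ 0) : (of 2 ^ t : FreeGroup (Fin 3)) ≠ 1 := by
  intro h
  have h1 := c_norm t
  rw [h, FreeGroup.norm_one] at h1
  have : t.natAbs ≠ 0 := Int.natAbs_ne_zero.2 ht
  omega

private theorem b_cnt (s : ℤ) : cnt (ConjClasses.mk (of 1 ^ s : FreeGroup (Fin 3))) 1 = s.natAbs ∧
    cnt (ConjClasses.mk (of 1 ^ s : FreeGroup (Fin 3))) 2 = 0 := by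
  have h : (ConjClasses.mk (of 1 ^ s : FreeGroup (Fin 3))) = act swp.aut (Yc s) := by
    unfold Yc
    rw [act_mk, map_zpow, swp_of.2.2]
  rw [h]
  obtain ⟨-, h1, h2⟩ := cnt_swp (Yc s)
  rw [h1, h2]
  exact ⟨(Yc_cyc s).2.2.2, (Yc_cyc s).2.2.1⟩

private theorem mem_EOpp1 {j t v s u : ℤ} (hj : j ≠ 0) (ht : t ≠ 0) (hv : v ≠ 0) (h1 : s + u = j)
    (h2 : s.natAbs + u.natAbs = j.natAbs) :
    opp (of 1 ^ s * of 2 ^ t * of 1 ^ u) (of 2 ^ v) ∈ EOpp (Ybc j t) (Yc v) := by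
  refine ⟨_, _, bcb_In12 s t u, In12_zpow o2 v, bcb_ne ht, c_ne hv, ?_, rfl, ?_, ?_, rfl⟩
  · rw [Ybc_conj, h1]
  · rw [Ybc_norm _ _ _ ht, (Ybc_cyc hj ht).1]; omega
  · rw [c_norm, (Yc_cyc v).1]

private theorem mem_EOpp2 {j t v s u : ℤ} (hj : j ≠ 0) (ht : t ≠ 0) (hv : v ≠ 0) (h1 : s + u = j)
    (h2 : s.natAbs + u.natAbs = j.natAbs) :
    opp (of 2 ^ t) (of 1 ^ s * of 2 ^ v * of 1 ^ u) ∈ EOpp (Yc t) (Ybc j v) := by
  refine ⟨_, _, In12_zpow o2 t, bcb_In12 s v u, c_ne ht, bcb_ne hv, rfl, ?_, ?_, ?_, rfl⟩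
  · rw [Ybc_conj, h1]
  · rw [c_norm, (Yc_cyc t).1]
  · rw [Ybc_norm _ _ _ hv, (Ybc_cyc hj hv).1]; omega

/-- moves with multiplier `≠ a^{±1}` -/
private theorem step_bc {Y Z : CC} {g h : FreeGroup (Fin 3)} (hg : In12 g) (hh : In12 h)
    (hg1 : g ≠ 1) (hh1 : h ≠ 1) (hY : ConjClasses.mk g = Y) (hZ : ConjClasses.mk h = Z)
    (hgn : g.norm = cycLen Y) (hhn : h.norm = cycLen Z) (hO : OMin (opp g h))
    {z : Fin 3 × Bool} {A : Fin 3 × Bool → Bool} (hz0 : z.1 ≠ 0) (hz : A z = true)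
    (hz' : A (bar z) = false) (hc : capC (opp g h) A = cnt (opp g h) z.1)
    (htau : ∀ k : ℤ, k = 1 ∨ k = -1 → cnt Y 2 + cnt Z 2 <
      cnt (act (tau k) Y) 2 + cnt (act (tau k) Z) 2)
    (hsig : ∀ k : ℤ, k = 1 ∨ k = -1 → cnt Y 1 + cnt Z 1 <
      cnt (act (sig k) Y) 1 + cnt (act (sig k) Z) 1) :
    act (wh z A) (opp g h) ∈ EOpp Y Z := by
  obtain ⟨p, q, hG⟩ := Good_wh hz0 A
  have hact := act_opp hG g h
  obtain ⟨hp, hq, -, hφ⟩ := hG
  have hmk := @mk_opp (wh z A) p q g h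
  set g' := q * (wh z A) g * q⁻¹ with hg'
  set h' := p⁻¹ * (wh z A) h * p with hh'
  have hg'12 : In12 g' := In12_mul (In12_mul hq (hφ g hg)) (In12_inv hq)
  have hh'12 : In12 h' := In12_mul (In12_mul (In12_inv hp) (hφ h hh)) hp
  have hg'1 : g' ≠ 1 := by
    intro hcon
    apply hg1
    apply (wh z A).injective
    rw [map_one]
    have : (wh z A) g = q⁻¹ * g' * q := by rw [hg']; group
    rw [this, hcon]; group
  have hh'1 : h' ≠ 1 := by
    intro hcon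
    apply hh1
    apply (wh z A).injective
    rw [map_one]
    have : (wh z A) h = p * h' * p⁻¹ := by rw [hh']; group
    rw [this, hcon]; group
  have hmem : act (wh z A) (opp g h) ∈ orb (opp g h) := orb_level (orb_refl _) hz hz' hc
  rw [hact] at hmem ⊢
  have hO' : OMin (opp g' h') := OMin_orb hO hmem
  obtain ⟨n1, n2⟩ := opp_norm hg'12 hh'12 hg'1 hh'1 hO'
  have hself : cnt (opp g' h') z.1 = cnt (opp g h) z.1 := by
    rw [← hact, cnt_wh_self _ z A hz hz', hc]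
  have hg0 : cnt (ConjClasses.mk g) 0 = 0 := cnt_of_In12 hg
  have hh0 : cnt (ConjClasses.mk h) 0 = 0 := cnt_of_In12 hh
  rw [opp_cnt hg'12 hh'12 hg'1 hh'1 n1 n2 hz0,
    opp_cnt hg hh hg1 hh1 (by rw [hY]; exact hgn) (by rw [hZ]; exact hhn) hz0, hmk.1, hmk.2] at hself
  obtain ⟨ψ, hψ, hψ'⟩ := tmove hz0 A
  rw [hψ' _ hg0, hψ' _ hh0] at hself
  rw [hψ' _ hg0, hψ' _ hh0] at hmk
  rcases hψ with rfl | ⟨hz2, hψ2⟩ | ⟨hz1, hψ1⟩
  · rw [act_refl, act_refl] at hmk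
    exact ⟨g', h', hg'12, hh'12, hg'1, hh'1, hmk.1.trans hY, hmk.2.trans hZ,
      by rw [n1, hmk.1, hY], by rw [n2, hmk.2, hZ], rfl⟩
  · exfalso
    rw [hY, hZ, hz2] at hself
    rcases hψ2 with rfl | rfl
    · have := htau 1 (Or.inl rfl); omega
    · have := htau (-1) (Or.inr rfl); omega
  · exfalso
    rw [hY, hZ, hz1] at hself
    rcases hψ1 with rfl | rfl
    · have := hsig 1 (Or.inl rfl); omega
    · have := hsig (-1) (Or.inr rfl); omega

theorem phi_opp1 {s t u v : ℤ} (ht : t ≠ 0) (hv : v ≠ 0)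
    (hO : OMin (opp (of 1 ^ s * of 2 ^ t * of 1 ^ u) (of 2 ^ v)))
    (h1 : 3 ≤ cnt (opp (of 1 ^ s * of 2 ^ t * of 1 ^ u) (of 2 ^ v)) 1)
    (h2 : 3 ≤ cnt (opp (of 1 ^ s * of 2 ^ t * of 1 ^ u) (of 2 ^ v)) 2) :
    Bdd (opp (of 1 ^ s * of 2 ^ t * of 1 ^ u) (of 2 ^ v))
      ((cycLen (opp (of 1 ^ s * of 2 ^ t * of 1 ^ u) (of 2 ^ v)) - 2) ^ 2) := by
  classical
  obtain ⟨j, hj⟩ : ∃ j, j = s + u := ⟨_, rfl⟩
  have hg12 := bcb_In12 s t u
  have hh12 : In12 (of 2 ^ v) := In12_zpow o2 v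
  have hg1 := bcb_ne (s := s) (u := u) ht
  have hh1 := c_ne hv
  have hYc : ConjClasses.mk (of 1 ^ s * of 2 ^ t * of 1 ^ u : FreeGroup (Fin 3)) = Ybc j t := by
    rw [Ybc_conj, hj]
  have hZc : ConjClasses.mk (of 2 ^ v : FreeGroup (Fin 3)) = Yc v := rfl
  obtain ⟨n1, n2⟩ := opp_norm hg12 hh12 hg1 hh1 hO
  have k1 := opp_cnt hg12 hh12 hg1 hh1 n1 n2 (i := 1) (by decide)
  have k2 := opp_cnt hg12 hh12 hg1 hh1 n1 n2 (i := 2) (by decide)
  have hlen := (opp_len hg12 hh12 hg1 hh1).1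
  rw [hYc, hZc, (Yc_cyc v).2.2.1] at k1
  rw [hYc, hZc, (Yc_cyc v).2.2.2] at k2
  have hj0 : j ≠ 0 := by
    intro h0
    have : Ybc j t = Yc t := by rw [h0]; unfold Ybc Yc; rw [zpow_zero, one_mul]
    rw [this, (Yc_cyc t).2.2.1] at k1
    omega
  rw [(Ybc_cyc hj0 ht).2.2.1] at k1
  rw [(Ybc_cyc hj0 ht).2.2.2] at k2
  rw [hYc, (Ybc_cyc hj0 ht).1, Ybc_norm _ _ _ ht] at n1
  rw [Ybc_norm _ _ _ ht, c_norm] at hlen
  have hj3 : 3 ≤ j.natAbs := by omega
  have htv3 : 3 ≤ t.natAbs + v.natAbs := by omega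
  obtain ⟨E1, hE1c, hE1⟩ := EOpp_fin (Ybc j t) (Yc v)
  obtain ⟨E2, hE2c, hE2⟩ := EOpp_fin (Yc t) (Ybc j v)
  rw [(Ybc_cyc hj0 ht).1, (Yc_cyc v).1] at hE1c
  rw [(Ybc_cyc hj0 hv).1, (Yc_cyc t).1] at hE2c
  have hcard : (E1 ∪ E2).card ≤
      (cycLen (opp (of 1 ^ s * of 2 ^ t * of 1 ^ u) (of 2 ^ v)) - 2) ^ 2 := by
    refine le_trans (Finset.card_union_le _ _) ?_
    rw [hlen]
    have e : 2 + (s.natAbs + t.natAbs + u.natAbs) + v.natAbs - 2 =
      j.natAbs + t.natAbs + v.natAbs := by omega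
    rw [e]
    nlinarith [Nat.zero_le (j.natAbs * t.natAbs), Nat.zero_le (j.natAbs * v.natAbs),
      Nat.zero_le (t.natAbs * v.natAbs), Nat.zero_le (j.natAbs * j.natAbs),
      Nat.zero_le (t.natAbs * t.natAbs), Nat.zero_le (v.natAbs * v.natAbs)]
  refine Bdd_mono ?_ hcard
  apply Bdd_of_closed hO (EOpp (Ybc j t) (Yc v) ∪ EOpp (Yc t) (Ybc j v)) (E1 ∪ E2)
  · intro e he _
    rw [Finset.mem_union]
    rcases he with he | he
    · exact Or.inl (hE1 e he)
    · exact Or.inr (hE2 e he)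
  · obtain ⟨π, hπ, -, -⟩ := exists_SPerm_one
    exact ⟨π, _, Or.inl (mem_EOpp1 hj0 ht hv hj.symm (by omega)), (hπ _).symm⟩
  · intro e he horb z A hz hz' hc
    obtain ⟨π, hπ, -, -⟩ := exists_SPerm_one
    suffices hmem : act (wh z A) e ∈ EOpp (Ybc j t) (Yc v) ∪ EOpp (Yc t) (Ybc j v) from
      ⟨π, _, hmem, (hπ _).symm⟩
    have hOe : OMin e := OMin_orb hO horb
    rcases he with ⟨g, h, hg, hh, hg1', hh1', hY, hZ, hgn, hhn, rfl⟩ |
      ⟨g, h, hg, hh, hg1', hh1', hY, hZ, hgn, hhn, rfl⟩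
    · -- first set
      by_cases hz0 : z.1 = 0
      · have c0 := (opp_len hg hh hg1' hh1').2.1
        have c1 := opp_cnt hg hh hg1' hh1' (by rw [hY]; exact hgn) (by rw [hZ]; exact hhn)
          (i := 1) (by decide)
        have c2 := opp_cnt hg hh hg1' hh1' (by rw [hY]; exact hgn) (by rw [hZ]; exact hhn)
          (i := 2) (by decide)
        rw [hY, hZ, (Ybc_cyc hj0 ht).2.2.1, (Yc_cyc v).2.2.1] at c1
        rw [hY, hZ, (Ybc_cyc hj0 ht).2.2.2, (Yc_cyc v).2.2.2] at c2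
        rcases acut hOe c0 (by omega) (by omega) hz0 hz hz' hc with hm | ⟨hS, hm⟩ | ⟨hS, hm⟩
        · rw [hm]
          exact Or.inl ⟨g, h, hg, hh, hg1', hh1', hY, hZ, hgn, hhn, rfl⟩
        · rw [hm]
          rcases opp_form hg hh hg1' hh1' hS with ⟨s', t', u', v', ht', hv', rfl, rfl⟩ |
            ⟨s', t', u', v', hs', hu', rfl, rfl⟩
          · rw [wh_Sb_opp]
            rw [Ybc_conj] at hY
            obtain ⟨e1, e2⟩ := Ybc_inj hY
            have e3 : v' = v := Yc_inj hZ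
            rw [Ybc_norm _ _ _ ht', (Ybc_cyc hj0 ht).1, e2] at hgn
            right
            rw [e2, e3]
            exact mem_EOpp2 hj0 ht hv (by omega) (by omega)
          · exfalso
            have := (b_cnt s').2
            rw [hY, (Ybc_cyc hj0 ht).2.2.2] at this
            exact ht (Int.natAbs_eq_zero.1 this)
        · rw [hm]
          exfalso
          rcases opp_form' hg hh hg1' hh1' hS with ⟨s', t', u', v', ht', hv', rfl, rfl⟩ |
            ⟨s', t', u', v', hs', hu', rfl, rfl⟩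
          · have := (b_cnt v').1
            rw [hZ, (Yc_cyc v).2.2.1] at this
            exact hv' (Int.natAbs_eq_zero.1 this.symm)
          · have h3 : Yc s' = Ybc j t := hY
            have := (Yc_cyc s').2.2.1
            rw [h3, (Ybc_cyc hj0 ht).2.2.1] at this
            omega
      · left
        apply step_bc hg hh hg1' hh1' hY hZ hgn hhn hOe hz0 hz hz' hc
        · intro k hk
          have a1 := Ybc_tau (t := t) hj0 hk
          rw [Yc_tau, (Yc_cyc v).2.2.2, (Ybc_cyc hj0 ht).2.2.2]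
          omega
        · intro k hk
          have a1 := Ybc_sig (j := j) ht hk
          rw [Yc_sig hk, (Yc_cyc v).2.2.1, (Ybc_cyc hj0 ht).2.2.1]
          omega
    · -- second set
      by_cases hz0 : z.1 = 0
      · have c0 := (opp_len hg hh hg1' hh1').2.1
        have c1 := opp_cnt hg hh hg1' hh1' (by rw [hY]; exact hgn) (by rw [hZ]; exact hhn)
          (i := 1) (by decide)
        have c2 := opp_cnt hg hh hg1' hh1' (by rw [hY]; exact hgn) (by rw [hZ]; exact hhn)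
          (i := 2) (by decide)
        rw [hY, hZ, (Ybc_cyc hj0 hv).2.2.1, (Yc_cyc t).2.2.1] at c1
        rw [hY, hZ, (Ybc_cyc hj0 hv).2.2.2, (Yc_cyc t).2.2.2] at c2
        rcases acut hOe c0 (by omega) (by omega) hz0 hz hz' hc with hm | ⟨hS, hm⟩ | ⟨hS, hm⟩
        · rw [hm]
          exact Or.inr ⟨g, h, hg, hh, hg1', hh1', hY, hZ, hgn, hhn, rfl⟩
        · rw [hm]
          exfalso
          rcases opp_form hg hh hg1' hh1' hS with ⟨s', t', u', v', ht', hv', rfl, rfl⟩ |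
            ⟨s', t', u', v', hs', hu', rfl, rfl⟩
          · have h3 : Yc v' = Ybc j v := hZ
            have := (Yc_cyc v').2.2.1
            rw [h3, (Ybc_cyc hj0 hv).2.2.1] at this
            omega
          · have := (b_cnt s').2
            rw [hY, (Yc_cyc t).2.2.2] at this
            exact ht (Int.natAbs_eq_zero.1 this)
        · rw [hm]
          rcases opp_form' hg hh hg1' hh1' hS with ⟨s', t', u', v', ht', hv', rfl, rfl⟩ |
            ⟨s', t', u', v', hs', hu', rfl, rfl⟩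
          · exfalso
            have := (b_cnt v').2
            rw [hZ, (Ybc_cyc hj0 hv).2.2.2] at this
            exact hv (Int.natAbs_eq_zero.1 this)
          · rw [wh_Sc_opp]
            rw [Ybc_conj] at hZ
            obtain ⟨e1, e2⟩ := Ybc_inj hZ
            have e3 : s' = t := Yc_inj hY
            rw [Ybc_norm _ _ _ hu', (Ybc_cyc hj0 hv).1, e2] at hhn
            left
            rw [e2, e3]
            exact mem_EOpp1 hj0 ht hv (by omega) (by omega)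
      · right
        apply step_bc hg hh hg1' hh1' hY hZ hgn hhn hOe hz0 hz hz' hc
        · intro k hk
          have a1 := Ybc_tau (t := v) hj0 hk
          rw [Yc_tau, (Yc_cyc t).2.2.2, (Ybc_cyc hj0 hv).2.2.2]
          omega
        · intro k hk
          have a1 := Ybc_sig (j := j) hv hk
          rw [Yc_sig hk, (Yc_cyc t).2.2.1, (Ybc_cyc hj0 hv).2.2.1]
          omega

private theorem swp_opp (g h : FreeGroup (Fin 3)) :
    act swp.aut (opp g h) = opp (swp.aut g) (swp.aut h) := by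
  unfold opp
  rw [act_mk, map_mul, map_mul, map_mul, map_inv, swp_of.1]

private theorem swp_In12 {g : FreeGroup (Fin 3)} (hg : In12 g) : In12 (swp.aut g) := by
  apply hom_In12 swp.aut.toMonoidHom _ _ hg
  · show In12 (swp.aut (of 1))
    rw [swp_of.2.1]; exact o2
  · show In12 (swp.aut (of 2))
    rw [swp_of.2.2]; exact o1

private theorem phi_opp_Sb {g h : FreeGroup (Fin 3)} (hg : In12 g) (hh : In12 h) (hg1 : g ≠ 1)
    (hh1 : h ≠ 1) (hO : OMin (opp g h)) (h1 : 3 ≤ cnt (opp g h) 1) (h2 : 3 ≤ cnt (opp g h) 2)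
    (hP : capC (opp g h) Sb = 2) : Bdd (opp g h) ((cycLen (opp g h) - 2) ^ 2) := by
  rcases opp_form hg hh hg1 hh1 hP with ⟨s, t, u, v, ht, hv, rfl, rfl⟩ |
    ⟨s, t, u, v, hs, hu, rfl, rfl⟩
  · exact phi_opp1 ht hv hO h1 h2
  · have e1 := opp_flip (of 1 ^ s) (of 2 ^ t * of 1 ^ u * of 2 ^ v) hg hh
    set c := opp (of 1 ^ s) (of 2 ^ t * of 1 ^ u * of 2 ^ v) with hcdef
    have e2 : opp (of 1 ^ t * of 2 ^ u * of 1 ^ v) (of 2 ^ s) =
        act swp.aut (act (flp (fun i => decide (i ≠ 0))).aut c) := by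
      rw [e1, swp_opp, map_mul, map_mul, map_zpow, map_zpow, map_zpow, map_zpow, swp_of.2.1,
        swp_of.2.2]
    have horb : opp (of 1 ^ t * of 2 ^ u * of 1 ^ v) (of 2 ^ s) ∈ orb c := by
      rw [e2]
      exact orb_trans (orb_SPerm _ _) (orb_SPerm _ _)
    have hO' := OMin_orb hO horb
    have hlen : cycLen (opp (of 1 ^ t * of 2 ^ u * of 1 ^ v) (of 2 ^ s)) = cycLen c := horb.2
    obtain ⟨-, q1, q2⟩ := cnt_swp (act (flp (fun i => decide (i ≠ 0))).aut c)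
    rw [cnt_flp] at q1 q2
    rw [← e2] at q1 q2
    have := phi_opp1 (s := t) (t := u) (u := v) (v := s) hu hs hO' (by omega) (by omega)
    rw [hlen] at this
    exact Bdd_orb horb this

theorem phi_opp {g h : FreeGroup (Fin 3)} (hg : In12 g) (hh : In12 h) (hg1 : g ≠ 1)
    (hh1 : h ≠ 1) (hO : OMin (opp g h)) (h1 : 3 ≤ cnt (opp g h) 1) (h2 : 3 ≤ cnt (opp g h) 2)
    (hP : capC (opp g h) Sb = 2 ∨ capC (opp g h) Sc = 2) :
    Bdd (opp g h) ((cycLen (opp g h) - 2) ^ 2) := by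
  rcases hP with hP | hP
  · exact phi_opp_Sb hg hh hg1 hh1 hO h1 h2 hP
  · have e := swp_opp g h
    have horb : opp (swp.aut g) (swp.aut h) ∈ orb (opp g h) := by
      rw [← e]; exact orb_SPerm _ _
    have hO' := OMin_orb hO horb
    have hlen : cycLen (opp (swp.aut g) (swp.aut h)) = cycLen (opp g h) := horb.2
    obtain ⟨-, q1, q2⟩ := cnt_swp (opp g h)
    have q3 := (capC_swp (opp g h)).1
    rw [e] at q1 q2 q3
    have hg1' : swp.aut g ≠ 1 := by
      intro hcon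
      apply hg1
      apply swp.aut.injective
      rw [hcon, map_one]
    have hh1' : swp.aut h ≠ 1 := by
      intro hcon
      apply hh1
      apply swp.aut.injective
      rw [hcon, map_one]
    have := phi_opp_Sb (swp_In12 hg) (swp_In12 hh) hg1' hh1' hO' (by omega) (by omega)
      (by rw [q3]; exact hP)
    rw [hlen] at this
    exact Bdd_orb horb this

end Pool.Agent.Sims
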