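import Pool.Agent.Sims.TRel
import Pool.Agent.Sims.SameB
import Pool.Agent.Sims.SameC
import Pool.Agent.Sims.ACut
import Pool.Agent.Sims.PhiForm
import Pool.Agent.Sims.YbcM

/-!
# Module `PhiS` : words `a g a h` with tight cut `{a, b, b⁻¹}`

`c₀ = same g₀ h₀`, orbit-minimal, `n_b, n_c ≥ 3`, `capC c₀ Sb = 2`.  By `same_form` `g₀ = b^s c^t`, `h₀ = b^u c^v`, so
`[g₀ h₀⁻¹] = [b^s c^{t-v} b^{-u}] = Ybc (s-u) (t-v)` (if `t = v` this is a power of `b`; see below).  By `same_norm`, `bc_norm`: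
`|s|+|t|+|u|+|v| = ‖[g₀ h₀⁻¹]‖ ≤ |s-u| + |t-v|` and by `same_cnt`, `same_len` `n_b = |s|+|u|`, `n_c = |t|+|v|`; as
`|s-u| ≤ |s|+|u|`, `|t-v| ≤ |t|+|v|` we get `|s-u| = n_b`, `|t-v| = n_c` (both `≥ 3`, so nonzero).
Put `E = ESame (Ybc n_b n_c)`, `ℓ = m - 2 = n_b + n_c = ‖Ybc n_b n_c‖` (`Ybc_cyc`); at most `ℓ(ℓ+1)` elements (`ESame_fin`).
`c₀ ∈ ESame (Ybc (s-u) (t-v))`, so `c₀ = act σ e`, `e ∈ E` by `Ybc_abs`, `ESame_SPerm`.
`Bdd_of_closed`: let `e ∈ E ∩ orb c₀`, `e = same g h`, `Y = [g h⁻¹] = Ybc n_b n_c`; `OMin e`; `cnt e 0 = 2`, `cnt e 1 = n_b`,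
`cnt e 2 = n_c` (`same_cnt`, `Ybc_cyc`); `(z, A)` a level move.
* `z.1 ≠ 0`: as in `NotPhiS` `e' = act (wh z A) e ∈ ESame (act φ Y)`, `φ` from `tmove`, `‖act φ Y‖ = ℓ`.  `φ = tau^{±1}` is
  impossible: `cnt (act φ Y) 1 = n_b` (`cnt_tau`), `cnt (act φ Y) 2 ≥ n_b + n_c - 2 > n_c` (`Ybc_tau`).  `φ = sig^{±1}`
  similarly (`Ybc_sig`).  So `φ = 1`, `e' ∈ E`.
* `z.1 = 0`: by `acut` either `act (wh z A) e = e`, or `capC e Sb = 2` and the move is `wh a Sb`: by `same_form`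
  `g = b^s c^t`, `h = b^u c^v`, as above `|s-u| = n_b = |s|+|u|`, `|t-v| = n_c = |t|+|v|`; by `wh_Sb_same` the result is
  `same (c^t b^u) (c^v b^s)`, with `[g' h'⁻¹] = [c^t b^{u-s} c^{-v}] = [b^{u-s} c^{t-v}]` and `|g'|+|h'| = ℓ` (`bc_norm`); so it is in
  `ESame (Ybc (u-s) (t-v))` and equal to `act σ e'`, `e' ∈ E` (`Ybc_abs`, `ESame_SPerm`).  Or `capC e Sc = 2`: the same with
  `same_form'`, `wh_Sc_same`: `g = c^s b^t`, `h = c^u b^v`, the result is `same (b^t c^u) (b^v c^s)`,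
  `[g' h'⁻¹] = [b^t c^{u-s} b^{-v}] = [b^{t-v} c^{u-s}]`.
`phi_same'`: apply `swp`: `act swp (same g h) = same (swp g) (swp h)`, `capC_swp`, `cnt_swp`, `Bdd_orb`.
Difficulty 3.
-/

namespace Pool.Agent.Sims

open FreeGroup (of)

theorem PhiS_mk_conj (x y : FreeGroup (Fin 3)) :
    ConjClasses.mk (x * y * x⁻¹) = ConjClasses.mk y := by
  rw [ConjClasses.mk_eq_mk_iff_isConj]
  exact IsConj.symm (isConj_iff.2 ⟨x, rfl⟩)

theorem PhiS_Ybc_zero (t : ℤ) : Ybc 0 t = Yc t := by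
  unfold Ybc Yc; rw [zpow_zero, one_mul]

theorem PhiS_cnt_zero (j : ℤ) : cnt (Ybc j 0) 2 = 0 := by
  have h : Ybc j 0 = act swp.aut (Yc j) := by
    unfold Ybc Yc
    rw [act_mk, map_zpow, swp_of.2.2, zpow_zero, mul_one]
  rw [h, (cnt_swp _).2.2]
  exact (Yc_cyc j).2.2.1

theorem PhiS_cycLen_le (j t : ℤ) : cycLen (Ybc j t) ≤ j.natAbs + t.natAbs := by
  have h := cycLen_le_norm (of 1 ^ j * of 2 ^ t : FreeGroup (Fin 3))
  rw [(bc_norm j t).1] at h
  exact h

/-- `g h⁻¹` for `g = b^s c^t`, `h = b^u c^v` -/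
theorem PhiS_mk1 (s t u v : ℤ) :
    ConjClasses.mk ((of 1 ^ s * of 2 ^ t) * (of 1 ^ u * of 2 ^ v)⁻¹ : FreeGroup (Fin 3)) =
      Ybc (s - u) (t - v) := by
  rw [sub_eq_add_neg s u, ← Ybc_conj]
  congr 1
  group

/-- `g h⁻¹` for `g = c^t b^u`, `h = c^v b^s` -/
theorem PhiS_mk2 (s t u v : ℤ) :
    ConjClasses.mk ((of 2 ^ t * of 1 ^ u) * (of 2 ^ v * of 1 ^ s)⁻¹ : FreeGroup (Fin 3)) =
      Ybc (u - s) (t - v) := by
  have h : (of 2 ^ t * of 1 ^ u) * (of 2 ^ v * of 1 ^ s)⁻¹ =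
      (of 2 ^ v : FreeGroup (Fin 3)) * (of 2 ^ (t - v) * of 1 ^ (u - s)) * (of 2 ^ v)⁻¹ := by
    group
  rw [h, PhiS_mk_conj]
  have h2 : (of 2 ^ (t - v) * of 1 ^ (u - s) : FreeGroup (Fin 3)) =
      of 2 ^ (t - v) * (of 1 ^ (u - s) * of 2 ^ (t - v)) * (of 2 ^ (t - v))⁻¹ := by
    group
  rw [h2, PhiS_mk_conj]
  rfl

theorem PhiS_In_bc (s t : ℤ) : In12 (of 1 ^ s * of 2 ^ t) :=
  In12_mul (In12_zpow (In12_of (by decide)) s) (In12_zpow (In12_of (by decide)) t)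

theorem PhiS_In_cb (s t : ℤ) : In12 (of 2 ^ t * of 1 ^ s) :=
  In12_mul (In12_zpow (In12_of (by decide)) t) (In12_zpow (In12_of (by decide)) s)

/-- membership up to a signed permutation -/
theorem PhiS_mem {g h : FreeGroup (Fin 3)} (hg : In12 g) (hh : In12 h) {j t : ℤ} {nb nc : ℕ}
    (hj : j.natAbs = nb) (ht : t.natAbs = nc) (hj0 : nb ≠ 0) (ht0 : nc ≠ 0)
    (hmk : ConjClasses.mk (g * h⁻¹) = Ybc j t) (hn : g.norm + h.norm = nb + nc) :
    ∃ σ : SPerm (Fin 3), ∃ e' ∈ ESame (Ybc nb nc), same g h = act σ.aut e' := by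
  obtain ⟨σ, hσ, hY⟩ := Ybc_abs j t
  have e1 : |j| = (nb : ℤ) := by rw [← hj]; simp
  have e2 : |t| = (nc : ℤ) := by rw [← ht]; simp
  rw [e1, e2] at hY
  have hmem : same g h ∈ ESame (Ybc j t) := by
    refine ⟨g, h, hg, hh, hmk, ?_, rfl⟩
    rw [hn, (Ybc_cyc (j := j) (t := t) (by omega) (by omega)).1, hj, ht]
  obtain ⟨e', he', heq⟩ := ESame_SPerm hσ hY hmem
  exact ⟨σ, e', he', heq⟩

theorem phi_same {g h : FreeGroup (Fin 3)} (hg : In12 g) (hh : In12 h)
    (hO : OMin (same g h)) (h1 : 3 ≤ cnt (same g h) 1) (h2 : 3 ≤ cnt (same g h) 2)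
    (hP : capC (same g h) Sb = 2) :
    Bdd (same g h) ((cycLen (same g h) - 2) * (cycLen (same g h) - 1)) := by
  classical
  obtain ⟨⟨s, t, hgs⟩, ⟨u, v, hhs⟩⟩ := same_form hg hh hP
  set nb := cnt (same g h) 1 with hnb
  set nc := cnt (same g h) 2 with hnc
  have hmk : ConjClasses.mk (g * h⁻¹) = Ybc (s - u) (t - v) := by
    rw [hgs, hhs, PhiS_mk1]
  have hgn : g.norm = s.natAbs + t.natAbs := by rw [hgs]; exact (bc_norm s t).1
  have hhn : h.norm = u.natAbs + v.natAbs := by rw [hhs]; exact (bc_norm u v).1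
  have hnorm := same_norm hg hh hO
  have hc1 : cnt (Ybc (s - u) (t - v)) 1 = nb := by
    rw [hnb, same_cnt hg hh hnorm (by decide), hmk]
  have hc2 : cnt (Ybc (s - u) (t - v)) 2 = nc := by
    rw [hnc, same_cnt hg hh hnorm (by decide), hmk]
  have hj0 : s - u ≠ 0 := by
    intro h0
    rw [h0, PhiS_Ybc_zero, (Yc_cyc _).2.2.1] at hc1
    omega
  have ht0 : t - v ≠ 0 := by
    intro h0
    rw [h0, PhiS_cnt_zero] at hc2
    omega
  obtain ⟨y1, y2, y3, y4⟩ := Ybc_cyc hj0 ht0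
  have hjb : (s - u).natAbs = nb := by rw [← y3, hc1]
  have htc : (t - v).natAbs = nc := by rw [← y4, hc2]
  have hsum : g.norm + h.norm = nb + nc := by rw [hnorm, hmk, y1, hjb, htc]
  have hnb0 : (nb : ℤ) ≠ 0 := by omega
  have hnc0 : (nc : ℤ) ≠ 0 := by omega
  obtain ⟨z1, z2, z3, z4⟩ := Ybc_cyc hnb0 hnc0
  simp only [Int.natAbs_natCast] at z1 z3 z4
  obtain ⟨E', hE'c, hE'⟩ := ESame_fin (Ybc nb nc) (by rw [z1]; omega)
  have hlen : cycLen (same g h) = 2 + (nb + nc) := by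
    rw [(same_len hg hh).1, ← hsum]; ring
  have hB : Bdd (same g h) E'.card := by
    refine Bdd_of_closed hO (ESame (Ybc nb nc)) E' (fun e he _ => hE' e he)
      (PhiS_mem hg hh hjb htc (by omega) (by omega) hmk hsum) ?_
    intro e he heo z A hz hz' hcap
    have heO : OMin e := OMin_orb hO heo
    have he'o := orb_level heo hz hz' hcap
    have he'O : OMin (act (wh z A) e) := OMin_orb hO he'o
    obtain ⟨g', h', hg', hh', hmk', hn', rfl⟩ := id he
    have hcn1 : cnt (same g' h') 1 = nb := by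
      rw [same_cnt hg' hh' (by rw [hmk']; exact hn') (by decide), hmk', z3]
    have hcn2 : cnt (same g' h') 2 = nc := by
      rw [same_cnt hg' hh' (by rw [hmk']; exact hn') (by decide), hmk', z4]
    by_cases hz0 : z.1 = 0
    · rcases acut heO (same_len hg' hh').2.1 (by omega) (by omega) hz0 hz hz' hcap with
        h3 | ⟨h3, h4⟩ | ⟨h3, h4⟩
      · obtain ⟨π, hπ, -, -⟩ := exists_SPerm_one
        exact ⟨π, _, he, by rw [h3, hπ]⟩
      · obtain ⟨⟨s', t', hgs'⟩, ⟨u', v', hhs'⟩⟩ := same_form hg' hh' h3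
        have hY : Ybc (s' - u') (t' - v') = Ybc nb nc := by
          rw [← hmk', hgs', hhs', PhiS_mk1]
        obtain ⟨hs1, ht1⟩ := Ybc_inj hY
        have hgn' : g'.norm = s'.natAbs + t'.natAbs := by rw [hgs']; exact (bc_norm s' t').1
        have hhn' : h'.norm = u'.natAbs + v'.natAbs := by rw [hhs']; exact (bc_norm u' v').1
        rw [h4, hgs', hhs', wh_Sb_same]
        refine PhiS_mem (PhiS_In_cb u' t') (PhiS_In_cb s' v') (j := u' - s') (t := t' - v')
          (by omega) (by omega) (by omega) (by omega) (PhiS_mk2 s' t' u' v') ?_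
        rw [(bc_norm u' t').2, (bc_norm s' v').2]
        rw [hgn', hhn', z1] at hn'
        omega
      · obtain ⟨⟨s', t', hgs'⟩, ⟨u', v', hhs'⟩⟩ := same_form' hg' hh' h3
        have hY : Ybc (t' - v') (s' - u') = Ybc nb nc := by
          rw [← hmk', hgs', hhs', PhiS_mk2]
        obtain ⟨hs1, ht1⟩ := Ybc_inj hY
        have hgn' : g'.norm = t'.natAbs + s'.natAbs := by rw [hgs']; exact (bc_norm t' s').2
        have hhn' : h'.norm = v'.natAbs + u'.natAbs := by rw [hhs']; exact (bc_norm v' u').2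
        rw [h4, hgs', hhs', wh_Sc_same]
        refine PhiS_mem (PhiS_In_bc t' u') (PhiS_In_bc v' s') (j := t' - v') (t := u' - s')
          (by omega) (by omega) (by omega) (by omega) (PhiS_mk1 t' u' v' s') ?_
        rw [(bc_norm t' u').1, (bc_norm v' s').1]
        rw [hgn', hhn', z1] at hn'
        omega
    · obtain ⟨p, q, hG⟩ := Good_wh hz0 A
      have hact := act_same hG g' h'
      have hmk2 := mk_same (φ := wh z A) (p := p) (q := q) g' h'
      rw [hmk'] at hmk2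
      have hIg : In12 (q * wh z A g' * p) := In12_mul (In12_mul hG.2.1 (hG.2.2.2 g' hg')) hG.1
      have hIh : In12 (q * wh z A h' * p) := In12_mul (In12_mul hG.2.1 (hG.2.2.2 h' hh')) hG.1
      rw [hact] at he'O
      have hnorm2 := same_norm hIg hIh he'O
      obtain ⟨φ, hφ, hφ2⟩ := tmove hz0 A
      have hφY := hφ2 (Ybc nb nc) z2
      rcases hφ with rfl | ⟨hz2, hk⟩ | ⟨hz1, hk⟩
      · rw [act_refl] at hφY
        obtain ⟨π, hπ, -, -⟩ := exists_SPerm_one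
        refine ⟨π, _, ?_, (hπ _).symm⟩
        rw [hact]
        refine ⟨_, _, hIg, hIh, ?_, ?_, rfl⟩
        · rw [hmk2, hφY]
        · rw [hnorm2, hmk2, hφY]
      · exfalso
        have h5 : cnt (act (wh z A) (same g' h')) 2 = nc := by
          have := cnt_wh_self (same g' h') z A hz hz'
          rw [hcap, hz2, hcn2] at this
          exact this
        rw [hact, same_cnt hIg hIh hnorm2 (by decide), hmk2, hφY] at h5
        obtain ⟨k, hk1, rfl⟩ : ∃ k : ℤ, (k = 1 ∨ k = -1) ∧ φ = tau k := by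
          rcases hk with rfl | rfl
          · exact ⟨1, Or.inl rfl, rfl⟩
          · exact ⟨-1, Or.inr rfl, rfl⟩
        have := Ybc_tau (j := nb) (t := nc) hnb0 hk1
        simp only [Int.natAbs_natCast] at this
        omega
      · exfalso
        have h5 : cnt (act (wh z A) (same g' h')) 1 = nb := by
          have := cnt_wh_self (same g' h') z A hz hz'
          rw [hcap, hz1, hcn1] at this
          exact this
        rw [hact, same_cnt hIg hIh hnorm2 (by decide), hmk2, hφY] at h5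
        obtain ⟨k, hk1, rfl⟩ : ∃ k : ℤ, (k = 1 ∨ k = -1) ∧ φ = sig k := by
          rcases hk with rfl | rfl
          · exact ⟨1, Or.inl rfl, rfl⟩
          · exact ⟨-1, Or.inr rfl, rfl⟩
        have := Ybc_sig (j := nb) (t := nc) hnc0 hk1
        simp only [Int.natAbs_natCast] at this
        omega
  refine Bdd_mono hB (le_trans hE'c ?_)
  rw [z1, hlen]
  have e1 : 2 + (nb + nc) - 2 = nb + nc := by omega
  have e2 : 2 + (nb + nc) - 1 = nb + nc + 1 := by omega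
  rw [e1, e2]

theorem phi_same' {g h : FreeGroup (Fin 3)} (hg : In12 g) (hh : In12 h)
    (hO : OMin (same g h)) (h1 : 3 ≤ cnt (same g h) 1) (h2 : 3 ≤ cnt (same g h) 2)
    (hP : capC (same g h) Sb = 2 ∨ capC (same g h) Sc = 2) :
    Bdd (same g h) ((cycLen (same g h) - 2) * (cycLen (same g h) - 1)) := by
  rcases hP with hP | hP
  · exact phi_same hg hh hO h1 h2 hP
  · have hF : Fix0 swp := by
      refine ⟨?_, rfl⟩
      show (Equiv.swap (1 : Fin 3) 2) 0 = 0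
      decide
    have hG := Good_SPerm hF
    have hact := act_same hG g h
    simp only [one_mul, mul_one] at hact
    have hO' : OMin (act swp.aut (same g h)) := OMin_orb hO (orb_SPerm swp _)
    have c1 := (cnt_swp (same g h)).2.1
    have c2 := (cnt_swp (same g h)).2.2
    have c3 := (capC_swp (same g h)).1
    have c4 := cycLen_SPerm swp (same g h)
    rw [← c4]
    refine Bdd_orb (orb_SPerm swp _) ?_
    rw [hact] at hO' c1 c2 c3 ⊢
    exact phi_same (hG.2.2.2 g hg) (hG.2.2.2 h hh) hO' (by omega) (by omega) (by rw [c3, hP])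

end Pool.Agent.Sims
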