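import Pool.Agent.Sims.PqSy
import Pool.Agent.Sims.PqFl

/-!
# Module `PqSe` : rooms are equivalence classes; sign changes preserve everything

* `q_Rm_refl`: `x = y = 0` (`q_T_refl`).  `q_Rm_symm`: `q_T_symm`, `(of 2 ^ y)⁻¹ = of 2 ^ (-y)`.  `q_Rm_trans`: `q_T_trans` and `zpow_add`.
* `q_fs_HS`: `q_fs_Sm`, `q_fs_capSb`, `q_fs_cnt`.  `q_fs_Rm`: `q_fs_T`, `q_fs_pow`.  `q_fs_Sp`: case `qJb`: `q_fs_T`, `q_fs_pow` (the exponent stays `≠ 0`), `q_fs_capP`; `qJc` the same; `qSw`: `q_fs_th`.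
* `q_fs_fl`: `qfl V = act (...) V` with the automorphism `a ↦ a⁻¹, b ↦ a b a⁻¹, c ↦ c` (`q_fl_act`), it commutes with `(flp s).aut` on generators if `s 0 = true` (`a ↦ a`, `b ↦ b^±`, `c ↦ c^±`).
Difficulty 1-2.
-/

namespace Pool.Agent.Sims

open FreeGroup (of)

theorem q_Rm_refl {c V : CC} (h : qHS c V) : qRm c V V := by
  refine ⟨h, h, 0, 0, ?_⟩
  rw [zpow_zero, zpow_zero]
  exact q_T_refl V

theorem q_Rm_symm {c V W : CC} (h : qRm c V W) : qRm c W V := by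
  obtain ⟨h1, h2, x, y, hT⟩ := h
  refine ⟨h2, h1, -x, -y, ?_⟩
  rw [zpow_neg, zpow_neg]
  exact q_T_symm hT

theorem q_Rm_trans {c V W Z : CC} (h : qRm c V W) (h' : qRm c W Z) : qRm c V Z := by
  obtain ⟨h1, _, x, y, hT⟩ := h
  obtain ⟨_, h2, x', y', hT'⟩ := h'
  refine ⟨h1, h2, x' + x, y + y', ?_⟩
  rw [zpow_add, zpow_add]
  exact q_T_trans hT hT'

theorem q_fs_HS {c V : CC} {s : Fin 3 → Bool} (hs : s 0 = true) (h : qHS c V) :
    qHS c (act (flp s).aut V) := by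
  refine ⟨q_fs_Sm s h.1, ?_⟩
  rw [q_fs_capSb hs, q_fs_cnt]
  exact h.2

theorem q_fs_Rm {c V W : CC} {s : Fin 3 → Bool} (hs : s 0 = true) (h : qRm c V W) :
    qRm c (act (flp s).aut V) (act (flp s).aut W) := by
  obtain ⟨h1, h2, x, y, hT⟩ := h
  refine ⟨q_fs_HS hs h1, q_fs_HS hs h2, if s 1 then x else -x, if s 2 then y else -y, ?_⟩
  have := q_fs_T hs hT
  rwa [q_fs_pow, q_fs_pow] at this

theorem q_fs_Sp {c V W : CC} {s : Fin 3 → Bool} (hs : s 0 = true) (h : qSp c V W) :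
    qSp c (act (flp s).aut V) (act (flp s).aut W) := by
  rcases h with h | h | h
  · obtain ⟨h1, h2, h3, j, hj, hT⟩ := h
    refine Or.inl ⟨q_fs_HS hs h1, q_fs_HS hs h2, ?_, if s 1 then j else -j, ?_, ?_⟩
    · rw [q_fs_capP, q_fs_cnt]
      exact h3
    · split_ifs
      · exact hj
      · exact neg_ne_zero.2 hj
    · have := q_fs_T hs hT
      rwa [q_fs_pow, map_one] at this
  · obtain ⟨h1, h2, h3, j, hj, hT⟩ := h
    refine Or.inr (Or.inl ⟨q_fs_HS hs h1, q_fs_HS hs h2, ?_, if s 2 then j else -j, ?_, ?_⟩)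
    · rw [q_fs_capP, q_fs_cnt]
      exact h3
    · split_ifs
      · exact hj
      · exact neg_ne_zero.2 hj
    · have := q_fs_T hs hT
      rwa [q_fs_pow, map_one] at this
  · obtain ⟨h1, h2, h3⟩ := h
    refine Or.inr (Or.inr ⟨q_fs_HS hs h1, q_fs_HS hs h2, ?_⟩)
    rw [h3, q_fs_th]

theorem q_fs_fl {s : Fin 3 → Bool} (hs : s 0 = true) (V : CC) :
    qfl (act (flp s).aut V) = act (flp s).aut (qfl V) := by
  obtain ⟨β, h0, h1, h2, hβ⟩ := q_fl_act
  rw [hβ, hβ, act_act, act_act]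
  apply act_conj _ _ 1
  intro i
  have e0 : (flp s).aut (of 0) = of 0 := by
    rw [flp_of, if_pos hs]
  rw [one_mul, inv_one, mul_one]
  change β ((flp s).aut (of i)) = (flp s).aut (β (of i))
  fin_cases i
  · change β ((flp s).aut (of 0)) = (flp s).aut (β (of 0))
    rw [e0, h0, map_inv, e0]
  · change β ((flp s).aut (of 1)) = (flp s).aut (β (of 1))
    rw [h1, map_mul, map_mul, map_inv, e0, flp_of]
    by_cases hs1 : s 1 = true
    · rw [if_pos hs1, h1]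
    · rw [if_neg hs1, map_inv, h1]
      group
  · change β ((flp s).aut (of 2)) = (flp s).aut (β (of 2))
    rw [h2, flp_of]
    by_cases hs2 : s 2 = true
    · rw [if_pos hs2, h2]
    · rw [if_neg hs2, map_inv, h2]

end Pool.Agent.Sims
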