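import Pool.Agent.Sims.PqConn
import Pool.Agent.Sims.PqSe

/-!
# Module `PqAs` : closing the orbit by finitely many half-states

* `q_no_twist`: `W ∈ Cl V`, `qHS c V`: no `Mv d W Z`.  The statement `phi_notw'` of `EvR1N` has the hypothesis `cnt V 1 ≤ cnt V 2`, which is not used: copy the proofs of `EvR1N_cut`, `phi_notw`, `phi_notw'` with the hypotheses
  `cnt V 0 < cnt V 1`, `cnt V 0 < cnt V 2` instead (new names `q_...`); `EvR1N_cut` gives in the same way `cnt V 1 < capC V A` and `cnt V 2 < capC V A`: `capC V A ≥ cnt V 1 + cnt V 2 - cnt V 0`.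
* `q_inv`: for a path of steps from `e' = e` or `e' = qfl e`, `e ∈ E0`, to `U` there is `e'' ` with `qIn E0 e''` and `qRm c e'' U ∨ qRm c (qfl e'') U`.  Induction on the path.  Start: `q_Rm_refl` (`q_fl_HS`), `qIn E0 e`: `s = fun _ => true`
  (`act (flp (fun _ => true)).aut V = V`).  Step `U → U'`: `qRm`: `q_Rm_trans`.  Special step: let `e'' = σ e`, `σ = (flp s).aut`, `e ∈ E0`.  Apply `σ` (an involution, `q_fs_inv`, `q_fs_Rm`, `q_fs_Sp`, `q_fs_fl`):
  `qRm c e (σ U)` or `qRm c (qfl e) (σ U)` and `qSp c (σ U) (σ U')`.  By `r1` or `r2`: `qIn E0 (σ U)`: `σ U = σ' e2`; apply `σ'`: `qSp c e2 (σ' σ U')`, by `r3`: `σ' σ U' = σ'' e3`.  So `U' = σ σ' σ'' e3`, a sign change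
  (`flp s ∘ flp s'` acts as `flp (fun i => s i == s' i)`: lemma `q_fs_comp`) with first sign `true`: `qIn E0 U'`, and `qRm c U' U'` by `q_Rm_refl`.
* `q_close`: `e0 ∈ E0`; it suffices to bound `Bdd e0` (`Bdd_orb`).  `Bdd_of_closed` for `e0` (`OMin`) with `E = {W | ∃ e ∈ E0, W ∈ Cl e ∨ W ∈ Cl (qfl e)}`, `E'` = union over `e ∈ E0` of the finite sets of `twoport` for `e` and `qfl e`
  (`Finset.card_biUnion_le`, `Finset.card_union_le`; `cnt e 0 = cnt c 0`, `cycLen e = cycLen c`).  Closed: let `W ∈ E`, `W ∈ Cl e'`, `e' = e` or `qfl e`, `qHS c e'` (`q_fl_HS`), and `Lv W z A`.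
  `z.1 ≠ 0`: `Lv_cases`, `q_no_twist`, `Cl_trans`.  `z.1 = 0`: `odd_amove` (`Sm c W` by `Cl_Sm`; counts): trivial; or `capC W Sb = cnt W 0` and the image is `θ (qfl W)` (`q_wh_Sb`): `U := W`; or `capC W Sc = cnt W 0` and the image is
  `qfl (θ W)` (`q_wh_Sc`): `U := θ W`, `qHS c U` (`q_th_capSb`, `q_th_Sm`).  In both cases `q_conn` joins `e'` and `U` (`q_th_th`).  `q_inv`: `qRm c e'' U` or `qRm c (qfl e'') U`, so (`q_fl_Rm`, `q_fl_fl`) `qRm c (qfl e'') (qfl U)` or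
  `qRm c e'' (qfl U)`; with `e'' = σ e`: apply `σ`: `qRm c (qfl e) (σ (qfl U))` or `qRm c e (σ (qfl U))`; `q_Rm_Cl`: `σ (qfl U) ∈ E`.  So the image `θ (qfl U)` or `qfl U` is `act` of a signed permutation of an element of `E`
  (`SPerm_mul`, `q_fs_inv`).
Difficulty 3.
-/

namespace Pool.Agent.Sims

open FreeGroup (of)

theorem PqAs_cut {V : CC} (hO : OMin V) (hS : capC V Sb = cnt V 0)
    (A : Fin 3 × Bool → Bool)
    (h1 : A (1, true) ≠ A (1, false)) (h2 : A (2, true) ≠ A (2, false)) :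
    cnt V 1 + cnt V 2 ≤ capC V A + cnt V 0 := by
  have hs := capC_submod V A Sb
  have e1 := OddR1_le hO 1 (fun x => A x && Sb x)
  have e2 := OddR1_le hO 2 (fun x => A x || Sb x)
  have s1 : Sb (1, true) = true := by decide
  have s2 : Sb (1, false) = true := by decide
  have s3 : Sb (2, true) = false := by decide
  have s4 : Sb (2, false) = false := by decide
  simp only [s1, s2, s3, s4, Bool.and_true, Bool.or_false] at e1 e2
  rw [if_neg h1] at e1
  rw [if_neg h2] at e2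
  omega

theorem PqAs_notw {V : CC} (hO : OMin V) (h01 : cnt V 0 < cnt V 1) (h02 : cnt V 0 < cnt V 2)
    (hS : capC V Sb = cnt V 0) (d : Dir) (W : CC) : ¬ Mv d V W := by
  rintro ⟨A, ⟨hA, hA', hcap⟩, hy, hy', -⟩
  cases d with
  | up =>
    have a1 : A (2, true) = true := hA
    have a2 : A (2, false) = false := hA'
    have a3 : A (1, true) = true := hy
    have a4 : A (1, false) = false := hy'
    have a5 : capC V A = cnt V 2 := hcap
    have := PqAs_cut hO hS A (by rw [a3, a4]; decide) (by rw [a1, a2]; decide)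
    omega
  | dn =>
    have a1 : A (2, true) = true := hA
    have a2 : A (2, false) = false := hA'
    have a3 : A (1, false) = true := hy
    have a4 : A (1, true) = false := hy'
    have a5 : capC V A = cnt V 2 := hcap
    have := PqAs_cut hO hS A (by rw [a3, a4]; decide) (by rw [a1, a2]; decide)
    omega
  | upB =>
    have a1 : A (1, true) = true := hA
    have a2 : A (1, false) = false := hA'
    have a3 : A (2, true) = true := hy
    have a4 : A (2, false) = false := hy'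
    have a5 : capC V A = cnt V 1 := hcap
    have := PqAs_cut hO hS A (by rw [a1, a2]; decide) (by rw [a3, a4]; decide)
    omega
  | dnB =>
    have a1 : A (1, true) = true := hA
    have a2 : A (1, false) = false := hA'
    have a3 : A (2, false) = true := hy
    have a4 : A (2, true) = false := hy'
    have a5 : capC V A = cnt V 1 := hcap
    have := PqAs_cut hO hS A (by rw [a1, a2]; decide) (by rw [a3, a4]; decide)
    omega

theorem q_no_twist {c V W : CC} (hc : qOK c) (hV : qHS c V) (hW : W ∈ Cl V) (d : Dir) (Z : CC) :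
    ¬ Mv d W Z := by
  intro h
  have hO : OMin V := Sm_OMin hc.om hV.1
  have h01 : cnt V 0 < cnt V 1 := by rw [hV.1.2 0, hV.1.2 1]; exact hc.h1
  have h02 : cnt V 0 < cnt V 2 := by rw [hV.1.2 0, hV.1.2 2]; exact hc.h2
  obtain ⟨W', hW', -⟩ := mv_Cl (Sm_OMin hO (Cl_Sm hW)) (Cl_symm hW) h
  exact PqAs_notw hO h01 h02 hV.2 d W' hW'

theorem PqAs_comp (s s' : Fin 3 → Bool) :
    Conn_comp (flp s) (flp s') = flp (fun i => s i == s' i) := by
  have h : (fun i => s' i == s i) = (fun i => s i == s' i) := by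
    funext i
    cases s i <;> cases s' i <;> rfl
  unfold Conn_comp flp
  simp only [Equiv.refl_apply, h]
  rfl

theorem q_fs_comp (s s' : Fin 3 → Bool) (V : CC) :
    act (flp s).aut (act (flp s').aut V) = act (flp (fun i => s i == s' i)).aut V := by
  rw [Conn_act_comp, PqAs_comp]

theorem PqAs_Sp_HS {c V W : CC} (h : qSp c V W) : qHS c W := by
  rcases h with h | h | h
  · exact h.2.1
  · exact h.2.1
  · exact h.2.1

theorem q_inv {c : CC} {E0 : Finset CC} (hE : ∀ e ∈ E0, qHS c e)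
    (r1 : ∀ V ∈ E0, ∀ W W', qRm c V W → qSp c W W' → qIn E0 W)
    (r2 : ∀ V ∈ E0, ∀ W W', qRm c (qfl V) W → qSp c W W' → qIn E0 W)
    (r3 : ∀ V ∈ E0, ∀ W, qSp c V W → qIn E0 W) {e e' U : CC} (he : e ∈ E0)
    (he' : e' = e ∨ e' = qfl e) (hp : Relation.ReflTransGen (qG c) e' U) :
    ∃ e'', qIn E0 e'' ∧ (qRm c e'' U ∨ qRm c (qfl e'') U) := by
  induction hp with
  | refl =>
    refine ⟨e, ⟨fun _ => true, rfl, e, he, (q_fs_one e).symm⟩, ?_⟩
    rcases he' with h | h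
    · left
      rw [h]
      exact q_Rm_refl (hE e he)
    · right
      rw [h]
      exact q_Rm_refl (q_fl_HS (hE e he))
  | @tail U U' _ hg ih =>
    obtain ⟨e'', ⟨s, hs, e1, he1, rfl⟩, h⟩ := ih
    rcases hg with hr | hsp
    · refine ⟨_, ⟨s, hs, e1, he1, rfl⟩, ?_⟩
      rcases h with h | h
      · exact Or.inl (q_Rm_trans h hr)
      · exact Or.inr (q_Rm_trans h hr)
    · have hsp' := q_fs_Sp hs hsp
      have hin : qIn E0 (act (flp s).aut U) := by
        rcases h with h | h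
        · have h' := q_fs_Rm hs h
          rw [q_fs_inv] at h'
          exact r1 e1 he1 _ _ h' hsp'
        · have h' := q_fs_Rm hs h
          rw [← q_fs_fl hs, q_fs_inv] at h'
          exact r2 e1 he1 _ _ h' hsp'
      obtain ⟨s', hs', e2, he2, h2⟩ := hin
      rw [h2] at hsp'
      have hsp2 := q_fs_Sp hs' hsp'
      rw [q_fs_inv] at hsp2
      obtain ⟨s'', hs'', e3, he3, h3⟩ := r3 e2 he2 _ hsp2
      have hU' : U' = act (flp s).aut (act (flp s').aut (act (flp s'').aut e3)) := by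
        rw [← h3, q_fs_inv, q_fs_inv]
      rw [q_fs_comp, q_fs_comp] at hU'
      refine ⟨U', ⟨_, ?_, e3, he3, hU'⟩, Or.inl (q_Rm_refl (PqAs_Sp_HS hsp))⟩
      simp only [hs, hs', hs'']
      decide

theorem PqAs_back {c : CC} (hc : qOK c) {E0 : Finset CC} {e'' U : CC} (hin : qIn E0 e'')
    (h : qRm c e'' U ∨ qRm c (qfl e'') U) :
    ∃ s : Fin 3 → Bool, ∃ e ∈ E0, act (flp s).aut (qfl U) ∈ Cl e ∨
      act (flp s).aut (qfl U) ∈ Cl (qfl e) := by
  obtain ⟨s, hs, e, he, rfl⟩ := hin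
  refine ⟨s, e, he, ?_⟩
  rcases h with h | h
  · right
    have h1 := q_fs_Rm hs (q_fl_Rm h)
    rw [← q_fs_fl hs, q_fs_inv] at h1
    exact q_Rm_Cl hc h1
  · left
    have h1 := q_fs_Rm hs (q_fl_Rm h)
    rw [q_fl_fl, q_fs_inv] at h1
    exact q_Rm_Cl hc h1

theorem PqAs_step {c : CC} (hc : qOK c) {E0 : Finset CC}
    (hE : ∀ e ∈ E0, qHS c e)
    (r1 : ∀ V ∈ E0, ∀ W W', qRm c V W → qSp c W W' → qIn E0 W)
    (r2 : ∀ V ∈ E0, ∀ W W', qRm c (qfl V) W → qSp c W W' → qIn E0 W)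
    (r3 : ∀ V ∈ E0, ∀ W, qSp c V W → qIn E0 W) {e e' W : CC} (he : e ∈ E0)
    (he' : e' = e ∨ e' = qfl e) (hW : W ∈ Cl e') {z : Fin 3 × Bool} {A : Fin 3 × Bool → Bool}
    (hL : Lv W z A) :
    ∃ σ : SPerm (Fin 3), ∃ Y, (∃ e ∈ E0, Y ∈ Cl e ∨ Y ∈ Cl (qfl e)) ∧
      act (wh z A) W = act σ.aut Y := by
  have hH : qHS c e' := by
    rcases he' with h | h
    · rw [h]
      exact hE e he
    · rw [h]
      exact q_fl_HS (hE e he)
  have hYe : ∀ Y ∈ Cl e', ∃ e ∈ E0, Y ∈ Cl e ∨ Y ∈ Cl (qfl e) := by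
    intro Y hY
    rcases he' with h | h
    · exact ⟨e, he, Or.inl (h ▸ hY)⟩
    · exact ⟨e, he, Or.inr (h ▸ hY)⟩
  have hSW : Sm c W := Sm_trans hH.1 (Cl_Sm hW)
  have hOW : OMin W := Sm_OMin hc.om hSW
  by_cases hz : z.1 = 0
  · have h01 : cnt W 0 < cnt W 1 := by rw [hSW.2 0, hSW.2 1]; exact hc.h1
    have h02 : cnt W 0 < cnt W 2 := by rw [hSW.2 0, hSW.2 2]; exact hc.h2
    rcases odd_amove hOW h01 h02 hL hz with h | ⟨hcap, h⟩ | ⟨hcap, h⟩
    · exact ⟨flp (fun _ => true), W, hYe W hW, by rw [h, q_fs_one]⟩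
    · rw [q_wh_Sb] at h
      have hHW : qHS c W := ⟨hSW, hcap⟩
      obtain ⟨e'', hin, hr⟩ := q_inv hE r1 r2 r3 he he' (q_conn hc hH hHW (Or.inl hW))
      obtain ⟨s, e1, he1, hY⟩ := PqAs_back hc hin hr
      obtain ⟨π, hπ, -⟩ := SPerm_mul qth (flp s)
      refine ⟨π, act (flp s).aut (qfl W), ⟨e1, he1, hY⟩, ?_⟩
      rw [← hπ, q_fs_inv, h]
    · rw [q_wh_Sc] at h
      have hHU : qHS c (act qth.aut W) :=
        ⟨q_th_Sm hSW, by rw [q_th_capSb, hcap, q_th_cnt]⟩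
      have hp := q_conn hc hH hHU (Or.inr (by rw [q_th_th]; exact hW))
      obtain ⟨e'', hin, hr⟩ := q_inv hE r1 r2 r3 he he' hp
      obtain ⟨s, e1, he1, hY⟩ := PqAs_back hc hin hr
      exact ⟨flp s, act (flp s).aut (qfl (act qth.aut W)), ⟨e1, he1, hY⟩, by rw [q_fs_inv, h]⟩
  · rcases Lv_cases hL hz with h | ⟨d, h⟩
    · exact ⟨flp (fun _ => true), _, hYe _ (Cl_trans hW (Relation.ReflTransGen.single h)),
        (q_fs_one _).symm⟩
    · exact absurd h (q_no_twist hc hH hW d _)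

theorem q_close {c : CC} (hc : qOK c) {E0 : Finset CC} (hne : E0.Nonempty)
    (hE : ∀ e ∈ E0, qHS c e)
    (r1 : ∀ V ∈ E0, ∀ W W', qRm c V W → qSp c W W' → qIn E0 W)
    (r2 : ∀ V ∈ E0, ∀ W W', qRm c (qfl V) W → qSp c W W' → qIn E0 W)
    (r3 : ∀ V ∈ E0, ∀ W, qSp c V W → qIn E0 W) :
    Bdd c (2 * E0.card * (cycLen c - cnt c 0 + 1) ^ 2) := by
  classical
  obtain ⟨e0, he0⟩ := hne
  obtain ⟨k, hk⟩ : ∃ k, cnt c 0 = 2 * k := ⟨cnt c 0 / 2, by have := hc.ev; omega⟩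
  have hk1 : 1 ≤ k := by have := hc.h4; omega
  have fin : ∀ V, ∃ F : Finset CC, F.card ≤ (cycLen c - cnt c 0 + 1) ^ 2 ∧
      (qHS c V → ∀ W ∈ Cl V, W ∈ F) := by
    intro V
    by_cases hV : qHS c V
    · have hO := Sm_OMin hc.om hV.1
      have h0 : cnt V 0 = 2 * k := by rw [hV.1.2 0, hk]
      obtain ⟨F, hF, hF'⟩ := twoport hO h0 hk1
      rw [hV.1.2 0, Sm_len hV.1] at hF
      exact ⟨F, hF, fun _ => hF'⟩
    · exact ⟨∅, Nat.zero_le _, fun h => absurd h hV⟩
  choose F hF1 hF2 using fin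
  have hcard : (E0.biUnion (fun e => F e ∪ F (qfl e))).card ≤
      2 * E0.card * (cycLen c - cnt c 0 + 1) ^ 2 := by
    calc (E0.biUnion (fun e => F e ∪ F (qfl e))).card
        ≤ ∑ e ∈ E0, (F e ∪ F (qfl e)).card := Finset.card_biUnion_le
      _ ≤ ∑ _e ∈ E0, (2 * (cycLen c - cnt c 0 + 1) ^ 2) := by
          apply Finset.sum_le_sum
          intro e _
          have h1 := Finset.card_union_le (F e) (F (qfl e))
          have h2 := hF1 e
          have h3 := hF1 (qfl e)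
          omega
      _ = 2 * E0.card * (cycLen c - cnt c 0 + 1) ^ 2 := by
          rw [Finset.sum_const, smul_eq_mul]
          ring
  have hmain : Bdd e0 (E0.biUnion (fun e => F e ∪ F (qfl e))).card := by
    apply Bdd_of_closed (Sm_OMin hc.om (hE e0 he0).1)
      {W | ∃ e ∈ E0, W ∈ Cl e ∨ W ∈ Cl (qfl e)}
    · rintro W ⟨e, he, hW⟩ _
      rw [Finset.mem_biUnion]
      refine ⟨e, he, ?_⟩
      rw [Finset.mem_union]
      rcases hW with hW | hW
      · exact Or.inl (hF2 e (hE e he) W hW)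
      · exact Or.inr (hF2 (qfl e) (q_fl_HS (hE e he)) W hW)
    · exact ⟨flp (fun _ => true), e0, ⟨e0, he0, Or.inl (Cl_refl e0)⟩, (q_fs_one e0).symm⟩
    · rintro W ⟨e, he, hW⟩ _ z A hz hz' hcap
      have hL : Lv W z A := ⟨hz, hz', hcap⟩
      rcases hW with hW | hW
      · exact PqAs_step hc hE r1 r2 r3 he (Or.inl rfl) hW hL
      · exact PqAs_step hc hE r1 r2 r3 he (Or.inr rfl) hW hL
  exact Bdd_mono (Bdd_orb (hE e0 he0).1.1 hmain) hcard

end Pool.Agent.Sims
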