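import Pool.Agent.Sims.PqSy

/-!
# Module `PqCl` : level images by `a ↦ p a q` are reachable by level moves without twist

* `q_upd_mul`: `tarcs (upd (u * v) L) = tarcs (upd v (upd u L))` (`tarcs_upd`, `ast_ast`), then `TpLa_back` (or `upd_inj`-like) gives `upd (u * v) L = upd v (upd u L)`.
* `q_cl_T`: `act_upd` (with the automorphism of `q_T_ex`).
* `q_Rch_Cl`: induction along `Rch` (`Relation.ReflTransGen`), statement `qcl L u ∈ Cl (mk (arcP L))` (and `u` in `⟨b, c⟩`).  Start `u = 1`: `upd 1 L = L` (`TpLa_back`, `tarcs_upd`, `ast_one`).  Step `v → w = v * s`, `s = ps p (lett z)` or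
  `bo (lett z)`, `Lv2 T w` (`T = tarcs L`), `Lv2 T v` (`Rch` states are level; carry it along).  `qcl L w = mk (arcP (upd s (upd v L))) = act ψ (qcl L v)` with `Tw ψ (s false) (s true)⁻¹` (`act_upd`).  `ψ` agrees on generators with the
  Whitehead automorphism `wh (bar z) A` (`whp`, `potFun`): `s = ps true (lett z)`: `a ↦ a z⁻¹`, `A = {bar z, (0, true)}`;  `s = ps false (lett z)`: `a ↦ z a`, `A = {bar z, (0, false)}`;
  `s = bo (lett z)`: `a ↦ z a z⁻¹`, `A = {bar z, (0, true), (0, false)}`; the other generator is fixed.  So `qcl L w = act (wh (bar z) A) (qcl L v)`, both have the same `cycLen` (`TpL_len`, `Lv2`), so `capC (qcl L v) A = cnt (qcl L v) z.1`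
  (`cycLen_wh`) and this is a step `NT` (`NSep A i` for `i ≠ 0, z.1`).
* `q_tw_Cl`: `exists_arc`: `V = mk (arcP L)`, `L.length = cnt V 0 = 2h` (`arc_len`).  `u := fun s => if s then q⁻¹ else p`; `act φ V = qcl L u` (`act_upd`); `Lv2 (tarcs L) u` from the lengths (`TpL_len`, `TpL_len0`); `tarcs_TOK`,
  `Rch_of_Lv2`, `q_Rch_Cl`.
* `q_T_Cl`: `OMin V` from `Sm_OMin`, `cnt V 0 = cnt c 0` even and `≥ 4`.  `q_Rm_Cl`: `Sm_len` of both.
Difficulty 3.
-/

namespace Pool.Agent.Sims

open FreeGroup (of)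

theorem q_upd_mul (u v : PS) (L : List (Bool × FreeGroup (Fin 3))) :
    upd (u * v) L = upd v (upd u L) := by
  have h : tarcs (upd (u * v) L) = tarcs (upd v (upd u L)) := by
    rw [tarcs_upd, tarcs_upd, tarcs_upd, ast_ast]
  rw [← TpLa_back (upd (u * v) L), h, TpLa_back]

theorem PqCl_upd_one (L : List (Bool × FreeGroup (Fin 3))) : upd 1 L = L := by
  rw [← TpLa_back (upd 1 L), tarcs_upd, ast_one, TpLa_back]

theorem q_cl_T {L : List (Bool × FreeGroup (Fin 3))} (hL : ArcOK L) {u : PS}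
    (hu : ∀ p, In12 (u p)) : qT (u false) (u true)⁻¹ (ConjClasses.mk (arcP L)) (qcl L u) := by
  obtain ⟨φ, h1, h2⟩ := exists_tw (hu false) (In12_inv (hu true))
  have hT : Tw φ (u false) (u true)⁻¹ := ⟨hu false, In12_inv (hu true), h1, h2⟩
  exact ⟨φ, hT, (act_upd hT hL).symm⟩

/-- the Whitehead cut of a one letter move -/
def PqCl_A (z : Fin 3 × Bool) (d : Bool → Bool) : Fin 3 × Bool → Bool :=
  fun x => decide (x = bar z) || (decide (x.1 = 0) && d x.2)

theorem PqCl_wh {z : Fin 3 × Bool} (hz : z.1 ≠ 0) (d : Bool → Bool)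
    {L : List (Bool × FreeGroup (Fin 3))} (hL : ArcOK L) :
    ConjClasses.mk (arcP (upd (fun q => if d q then lett z else 1) L)) =
      act (wh (bar z) (PqCl_A z d)) (ConjClasses.mk (arcP L)) := by
  have hzl : In12 (lett z) := In12_lett hz
  have hin : ∀ q, In12 ((fun q => if d q then lett z else 1 : PS) q) := by
    intro q
    show In12 (if d q then lett z else 1)
    by_cases h : d q = true
    · rw [if_pos h]; exact hzl
    · rw [if_neg h]; exact In12_one
  obtain ⟨φ, h1, h2⟩ := exists_tw (hin false) (In12_inv (hin true))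
  have hT : Tw φ ((fun q => if d q then lett z else 1 : PS) false)
      ((fun q => if d q then lett z else 1 : PS) true)⁻¹ := ⟨hin false, In12_inv (hin true), h1, h2⟩
  rw [← act_upd hT hL]
  apply act_conj _ _ 1
  obtain ⟨y, hy0, hyz, hall⟩ : ∃ y : Fin 3, y ≠ 0 ∧ y ≠ z.1 ∧ ∀ i, i = 0 ∨ i = y ∨ i = z.1 := by
    have : ∀ k : Fin 3, k ≠ 0 → ∃ y : Fin 3, y ≠ 0 ∧ y ≠ k ∧ ∀ i, i = 0 ∨ i = y ∨ i = k := by
      decide
    exact this _ hz
  intro i
  rcases hall i with rfl | rfl | rfl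
  · have h3 : ((0, true) : Fin 3 × Bool).1 ≠ (bar z).1 := fun h => hz h.symm
    have h4 := wh_lett_ne (bar z) (PqCl_A z d) h3
    rw [lett_true] at h4
    have hne : ∀ b : Bool, (0, b) ≠ bar z := fun b h => hz (by rw [← bar_fst z, ← h])
    have h5 : ∀ b : Bool, PqCl_A z d (0, b) = d b := by
      intro b
      unfold PqCl_A
      rw [decide_eq_false (hne b)]
      simp
    have h6 : bar ((0, true) : Fin 3 × Bool) = (0, false) := rfl
    rw [h4, h1, h6, h5, h5, lett_bar, inv_inv, one_mul, inv_one, mul_one]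
    congr 1
    by_cases hd : d true = true
    · simp [hd]
    · simp [hd]
  · have h3 : ((i, true) : Fin 3 × Bool).1 ≠ (bar z).1 := hyz
    have h4 := wh_lett_ne (bar z) (PqCl_A z d) h3
    rw [lett_true] at h4
    have h5 : ∀ b : Bool, PqCl_A z d (i, b) = false := by
      intro b
      unfold PqCl_A
      have hne : (i, b) ≠ bar z := fun h => hyz (by rw [← bar_fst z, ← h])
      rw [decide_eq_false hne, decide_eq_false (show ¬ (i, b).1 = 0 from hy0)]
      simp
    have h6 : bar ((i, true) : Fin 3 × Bool) = (i, false) := rfl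
    rw [h4, h2 _ (In12_of hy0), h6, h5, h5]
    simp
  · have h3 : wh (bar z) (PqCl_A z d) (of z.1) = of z.1 := potFun_of_self _ _
    rw [h3, h2 _ (In12_of hz)]
    simp

theorem PqCl_step {L : List (Bool × FreeGroup (Fin 3))} (hL : ArcOK L) {v : PS}
    (hv : ∀ p, In12 (v p)) {z : Fin 3 × Bool} (hz : z.1 ≠ 0) (d : Bool → Bool)
    (hl : cycLen (qcl L (v * fun q => if d q then lett z else 1)) = cycLen (qcl L v)) :
    NT (qcl L v) (qcl L (v * fun q => if d q then lett z else 1)) := by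
  have hE : qcl L (v * fun q => if d q then lett z else 1) =
      act (wh (bar z) (PqCl_A z d)) (qcl L v) := by
    unfold qcl
    rw [q_upd_mul]
    exact PqCl_wh hz d (upd_ArcOK hL hv)
  have hA1 : PqCl_A z d (bar z) = true := by
    unfold PqCl_A
    simp
  have hA2 : PqCl_A z d (bar (bar z)) = false := by
    unfold PqCl_A
    rw [bar_bar, decide_eq_false (fun h => bar_ne z h.symm), decide_eq_false hz]
    simp
  refine ⟨bar z, PqCl_A z d, ⟨hA1, hA2, ?_⟩, hz, ?_, hE⟩
  · have h3 := cycLen_wh (qcl L v) (bar z) (PqCl_A z d) hA1 hA2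
    rw [← hE, hl] at h3
    omega
  · intro i hi hiz
    unfold NSep PqCl_A
    have hne : ∀ b, (i, b) ≠ bar z := fun b h => hiz (by rw [← h])
    rw [decide_eq_false (hne true), decide_eq_false (hne false)]
    simp [hi]

theorem PqCl_ps (p : Bool) (x : FreeGroup (Fin 3)) :
    ps p x = fun q => if (fun q => decide (q = p)) q then x else 1 := by
  funext q
  unfold ps
  by_cases h : q = p <;> simp [h]

theorem PqCl_bo (x : FreeGroup (Fin 3)) :
    bo x = fun q => if (fun _ : Bool => true) q then x else 1 := by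
  funext q
  rfl

theorem PqCl_Rch {L : List (Bool × FreeGroup (Fin 3))} (hL : ArcOK L) {u : PS}
    (hu : Rch (tarcs L) u) : Lv2 (tarcs L) u ∧ qcl L u ∈ Cl (ConjClasses.mk (arcP L)) := by
  induction hu with
  | refl =>
    refine ⟨Lv2_one, ?_⟩
    unfold qcl
    rw [PqCl_upd_one]
    exact Cl_refl _
  | @tail v w h1 h2 ih =>
    obtain ⟨hw, z, hz, hs⟩ := h2
    refine ⟨hw, Cl_trans ih.2 (Relation.ReflTransGen.single ?_)⟩
    have hlen : cycLen (qcl L w) = cycLen (qcl L v) := by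
      unfold qcl
      rw [TpL_len hL hw.1, TpL_len hL ih.1.1, hw.2, ih.1.2]
    rcases hs with ⟨p, rfl⟩ | rfl
    · rw [PqCl_ps] at hlen ⊢
      exact PqCl_step hL ih.1.1 hz (fun q => decide (q = p)) hlen
    · rw [PqCl_bo] at hlen ⊢
      exact PqCl_step hL ih.1.1 hz (fun _ => true) hlen

theorem q_Rch_Cl {L : List (Bool × FreeGroup (Fin 3))} (hL : ArcOK L) {u : PS}
    (hu : Rch (tarcs L) u) : qcl L u ∈ Cl (ConjClasses.mk (arcP L)) :=
  (PqCl_Rch hL hu).2

theorem q_tw_Cl {V : CC} (hO : OMin V) {h : ℕ} (h0 : cnt V 0 = 2 * h) (h1 : 1 ≤ h)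
    {p q : FreeGroup (Fin 3)} {W : CC} (hT : qT p q V W) (hl : cycLen W = cycLen V) :
    W ∈ Cl V := by
  obtain ⟨L, hL, rfl⟩ := exists_arc (V := V) (by omega)
  have hlen : L.length = 2 * h := by
    rw [← h0]
    exact (arc_len hL).2.symm
  obtain ⟨φ, hφ, rfl⟩ := hT
  have hT' : Tw φ ((fun s => if s then q⁻¹ else p : PS) false)
      ((fun s => if s then q⁻¹ else p : PS) true)⁻¹ := by
    simpa using hφ
  have hin : ∀ s, In12 ((fun s => if s then q⁻¹ else p : PS) s) := by
    intro s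
    cases s
    · simpa using hφ.1
    · simpa using In12_inv hφ.2.1
  have hAct := act_upd (u := fun s => if s then q⁻¹ else p) hT' hL
  rw [hAct] at hl ⊢
  have hlv : Lv2 (tarcs L) (fun s => if s then q⁻¹ else p) := by
    refine ⟨hin, ?_⟩
    rw [TpL_len hL hin, TpL_len0 hL] at hl
    omega
  exact q_Rch_Cl hL (Rch_of_Lv2 (tarcs_TOK hL hO hlen) hlv)

theorem q_T_Cl {c V W : CC} (hc : qOK c) (hV : Sm c V) {p q : FreeGroup (Fin 3)}
    (hT : qT p q V W) (hl : cycLen W = cycLen V) : W ∈ Cl V := by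
  have h0 : cnt V 0 = 2 * (cnt c 0 / 2) := by
    have := hc.ev
    rw [hV.2 0]
    omega
  exact q_tw_Cl (Sm_OMin hc.om hV) h0 (by have := hc.h4; omega) hT hl

theorem q_Rm_Cl {c V W : CC} (hc : qOK c) (h : qRm c V W) : W ∈ Cl V := by
  obtain ⟨h1, h2, x, y, hT⟩ := h
  exact q_T_Cl hc h1.1 hT (by rw [Sm_len h1.1, Sm_len h2.1])

end Pool.Agent.Sims
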