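import Pool.Agent.Sims.PqExit

/-!
# Module `PqConn` : two half-states in one block (up to `θ`) are joined by steps

`q_chain`: for a chain `s0 → … → s` of `EStp` from an `EOK` state `s0` with mixed corner, by induction on the chain (`Relation.ReflTransGen`): `EOK h T s` and
 (M) if `s.2 true ≠ s.2 false` then `qhc L s0` and `qhc L s` are joined, and
 (K) for every `t` with `s.2 = fun _ => t` there are `u', p, v` with `(u', qmx t p)`, `(u', fun _ => t)` both `EOK`, `s.1 = u' * qpw t v`, and `qhc L s0`, `qhc L (u', qmx t p)` joined.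
A mixed corner `τ` is `qmx t p` for every `t` with `p` the port with `τ p = !t` (`funext`, cases).
Step `s → s'`:
* letter `z` at the port `p`, `Side (s.2 p) z`, `s'.2 = s.2`, `t := s.2 p`: `lett z = qnat t ^ (±1)` (`z.1 = 1, 2`; `lett_true`, `lett_false`).  Mixed: `s.2 = qmx t (!p)`: `q_step_rm` with the port `!(!p) = p`.  Constant:
  `u' * qpw t v * ps p (x^{±1}) = u' * qpw t v'`.
* letter at both ports: `Side (s.2 true) z`, `Side (s.2 false) z` imply `s.2 true = s.2 false`; constant; `v' = v ± 1`.
* `s'.1 = s.1`, any corner `s'.2`: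
  mixed to mixed: equal corners (then `s' = s`), or `q_step_sw`;
  mixed to `const t`: `u' = s.1`, `v = 0` (`qpw t 0 = 1`);
  `const t` to mixed `s'.2 = qmx t p1`: `q_cross`;
  `const t` to `const t`: nothing;  `const t` to `const (!t)`: `q_pl4` for `T' = ast u' T` gives `q` with `(s.1, qmx t q)` `EOK`; `q_cross` joins; then (K) for `!t` with `u' = s.1`, `v = 0` and `qmx t q = qmx (!t) (!q)` (`q_mx_not`).
`q_conn`: `q_setup` for `V`: `L, h, T = tarcs L`; `s0 = (1, fun p => !p)`: `qcl L 1 = V` (`upd 1 L = L`), `EOK` by `q_eok_b`.  If `W ∈ Cl V`: `Cl_rch`: `W = qcl L u`, `s1 = (u, fun p => !p)`, `EOK` by `q_eok_b` (`Rch` states are level, in `⟨b, c⟩`).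
If `θ W ∈ Cl V`: `θ W = qcl L u`, `s1 = (u, fun p => p)`, `EOK` by `q_eok_c` (`q_th_th`), `qhc L s1 = W`.  `conn_phi` (with `qX`) gives the chain.
Difficulty 3.
-/

namespace Pool.Agent.Sims

open FreeGroup (of)

theorem PqConn_upd (L : List (Bool × FreeGroup (Fin 3))) : upd 1 L = L := by
  unfold upd
  have h : (fun q r : Bool × FreeGroup (Fin 3) =>
      (q.1, ((1 : PS) q.1)⁻¹ * q.2 * (1 : PS) (!r.1))) = fun q _ => id q := by
    funext q r
    simp
  rw [h, TpLa_zl id L (L.rotate 1) (by simp), List.map_id]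

theorem PqConn_lett {t : Bool} {z : Fin 3 × Bool} (hz : Side t z) :
    ∃ e : ℤ, lett z = qnat t ^ e := by
  obtain ⟨i, b⟩ := z
  unfold Side at hz
  simp only at hz
  subst hz
  cases b
  · refine ⟨-1, ?_⟩
    rw [lett_false, zpow_neg_one]
    cases t <;> simp [qnat]
  · refine ⟨1, ?_⟩
    rw [lett_true, zpow_one]
    cases t <;> simp [qnat]

theorem PqConn_ps (u' : PS) (t : Bool) (v : Bool → ℤ) (p : Bool) (e : ℤ) :
    u' * qpw t v * ps p (qnat t ^ e) = u' * qpw t (fun q => v q + if q = p then e else 0) := by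
  funext q
  simp only [Pi.mul_apply, qpw, ps]
  by_cases h : q = p
  · rw [if_pos h, if_pos h, zpow_add, mul_assoc]
  · rw [if_neg h, if_neg h, add_zero, mul_one]

theorem PqConn_bo (u' : PS) (t : Bool) (v : Bool → ℤ) (e : ℤ) :
    u' * qpw t v * bo (qnat t ^ e) = u' * qpw t (fun q => v q + e) := by
  funext q
  simp only [Pi.mul_apply, qpw, bo]
  rw [zpow_add, mul_assoc]

theorem PqConn_z (u' : PS) (t : Bool) : u' = u' * qpw t (fun _ => 0) := by
  funext q
  simp [qpw]

/-- a mixed corner is `qmx t p` for both sides `t` -/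
theorem PqConn_mx {τ : Bool → Bool} (h : τ true ≠ τ false) (t : Bool) : ∃ p, τ = qmx t p := by
  by_cases h1 : τ true = t
  · refine ⟨false, ?_⟩
    funext q
    unfold qmx
    cases q
    · rw [if_pos rfl]
      cases t <;> cases h2 : τ false <;> cases h3 : τ true <;> simp_all
    · rw [if_neg (by decide)]
      exact h1
  · refine ⟨true, ?_⟩
    funext q
    unfold qmx
    cases q
    · rw [if_neg (by decide)]
      cases t <;> cases h2 : τ false <;> cases h3 : τ true <;> simp_all
    · rw [if_pos rfl]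
      cases t <;> cases h3 : τ true <;> simp_all

theorem PqConn_mx2 {τ : Bool → Bool} (h : τ true ≠ τ false) (p : Bool) : τ = qmx (τ p) (!p) := by
  funext q
  unfold qmx
  cases p <;> cases q <;> simp <;> cases h2 : τ false <;> cases h3 : τ true <;> simp_all

theorem PqConn_const {τ : Bool → Bool} (h : τ true = τ false) : τ = fun _ => τ true := by
  funext q
  cases q
  · exact h.symm
  · rfl

/-- invariant along the chain -/
structure PqConn_inv (c : CC) (L : List (Bool × FreeGroup (Fin 3))) (h : ℕ) (s0 s : ES) :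
    Prop where
  ok : EOK h (tarcs L) s
  mx : s.2 true ≠ s.2 false → Relation.ReflTransGen (qG c) (qhc L s0) (qhc L s)
  ct : ∀ t, s.2 = (fun _ => t) → ∃ (u' : PS) (p : Bool) (v : Bool → ℤ),
    EOK h (tarcs L) (u', qmx t p) ∧ EOK h (tarcs L) (u', fun _ => t) ∧ s.1 = u' * qpw t v ∧
      Relation.ReflTransGen (qG c) (qhc L s0) (qhc L (u', qmx t p))

theorem PqConn_step {c : CC} (hc : qOK c) {L : List (Bool × FreeGroup (Fin 3))} (hL : ArcOK L)
    (hV : Sm c (ConjClasses.mk (arcP L))) {h : ℕ} (h0 : cnt c 0 = 2 * h) {s0 s s' : ES}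
    (hs : PqConn_inv c L h s0 s) (hst : EStp h (tarcs L) s s') : PqConn_inv c L h s0 s' := by
  obtain ⟨u, τ⟩ := s
  obtain ⟨u1, τ1⟩ := s'
  obtain ⟨hok', hst⟩ := hst
  obtain ⟨hok, hM, hK⟩ := hs
  simp only at hM hK hst
  refine ⟨hok', ?_, ?_⟩
  · intro hm'
    simp only at hm'
    rcases hst with ⟨p, z, hz, e1, e2⟩ | ⟨z, hz, hz', e1, e2⟩ | e1
    · obtain ⟨k, hk⟩ := PqConn_lett hz
      subst e2
      have hmx := PqConn_mx2 hm' p
      rw [hk] at e1
      subst e1
      have hM' := hM hm'
      generalize τ1 p = t at *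
      subst hmx
      have h3 := q_step_rm hc hL hV h0 (t := t) (p := !p) (u := u) (k := k) hok
        (by rw [Bool.not_not]; exact hok')
      rw [Bool.not_not] at h3
      exact hM'.tail (Or.inl h3)
    · exfalso
      subst e2
      unfold Side at hz hz'
      have h3 : (if τ1 true = true then (2 : Fin 3) else 1) = if τ1 false = true then 2 else 1 :=
        hz.symm.trans hz'
      cases h4 : τ1 true <;> cases h5 : τ1 false <;> rw [h4, h5] at h3 <;> simp_all
    · subst e1
      by_cases hm : τ true ≠ τ false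
      · have hM' := hM hm
        by_cases he : τ true = τ1 true
        · have hτ : τ = τ1 := by
            funext q
            cases q
            · cases h4 : τ true <;> cases h5 : τ false <;> cases h6 : τ1 true <;>
                cases h7 : τ1 false <;> simp_all
            · exact he
          rw [← hτ]
          exact hM'
        · exact hM'.tail (Or.inr (q_step_sw hc hL hV h0 hm hm' he hok hok'))
      · push Not at hm
        have hτ := PqConn_const hm
        obtain ⟨u', p, v, k1, k2, k3, k4⟩ := hK _ hτ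
        obtain ⟨p1, hp1⟩ := PqConn_mx hm' (τ true)
        rw [hp1, k3] at hok' ⊢
        exact k4.trans (q_cross hc hL hV h0 k1 k2 hok')
  · intro t ht
    simp only at ht
    rcases hst with ⟨p, z, hz, e1, e2⟩ | ⟨z, hz, hz', e1, e2⟩ | e1
    · subst e2
      obtain ⟨u', p', v, k1, k2, k3, k4⟩ := hK t ht
      rw [ht] at hz
      obtain ⟨k, hk⟩ := PqConn_lett hz
      rw [hk, k3, PqConn_ps] at e1
      exact ⟨u', p', _, k1, k2, e1, k4⟩
    · subst e2
      obtain ⟨u', p', v, k1, k2, k3, k4⟩ := hK t ht
      rw [ht] at hz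
      obtain ⟨k, hk⟩ := PqConn_lett hz
      rw [hk, k3, PqConn_bo] at e1
      exact ⟨u', p', _, k1, k2, e1, k4⟩
    · subst e1
      by_cases hm : τ true ≠ τ false
      · obtain ⟨p, hp⟩ := PqConn_mx hm t
        have hM' := hM hm
        rw [hp] at hM' hok
        rw [ht] at hok'
        exact ⟨u1, p, fun _ => 0, hok, hok', PqConn_z u1 t, hM'⟩
      · push Not at hm
        have hτ := PqConn_const hm
        by_cases he : τ true = t
        · exact hK t (by rw [hτ, he])
        · have he' : t = !(τ true) := by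
            cases t <;> cases h4 : τ true <;> first | rfl | exact absurd h4 he
          obtain ⟨u', p, v, k1, k2, k3, k4⟩ := hK _ hτ
          generalize τ true = t0 at *
          have hT : TOK h (tarcs L) := (q_qX hc hL hV h0).2.1
          have hT' := TOK_st hT k1.1
          have hl : Lv2 (ast u' (tarcs L)) (qpw t0 v) := by
            rw [Lv2_st k1.1, ← k3]
            exact hok.1
          have h3 : xc (fun _ => !t0) (ast (qpw t0 v) (ast u' (tarcs L))) = 2 * h := by
            rw [ast_ast, ← k3, ← he', ← ht]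
            exact hok'.2
          obtain ⟨q, hq⟩ := q_pl4 hT' t0 p v k2.2 k1.2 hl h3
          rw [ast_ast, ← k3] at hq
          have hokq : EOK h (tarcs L) (u1, qmx t0 q) := ⟨hok.1, hq⟩
          have hcr := q_cross hc hL hV h0 k1 k2 (p1 := q) (v := v) (by rw [← k3]; exact hokq)
          rw [← k3] at hcr
          have hq2 : qmx t (!q) = qmx t0 q := by
            rw [he', q_mx_not]
          refine ⟨u1, !q, fun _ => 0, ?_, ?_, PqConn_z u1 t, ?_⟩
          · rw [hq2]
            exact hokq
          · rw [← ht]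
            exact hok'
          · rw [hq2]
            exact k4.trans hcr

theorem q_chain {c : CC} (hc : qOK c) {L : List (Bool × FreeGroup (Fin 3))} (hL : ArcOK L)
    (hV : Sm c (ConjClasses.mk (arcP L))) {h : ℕ} (h0 : cnt c 0 = 2 * h) {s0 s1 : ES}
    (h1 : EOK h (tarcs L) s0) (hm : s0.2 true ≠ s0.2 false) (hm' : s1.2 true ≠ s1.2 false)
    (hch : Relation.ReflTransGen (EStp h (tarcs L)) s0 s1) :
    Relation.ReflTransGen (qG c) (qhc L s0) (qhc L s1) := by
  have key : PqConn_inv c L h s0 s1 := by
    clear hm'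
    induction hch with
    | refl =>
      refine ⟨h1, fun _ => Relation.ReflTransGen.refl, fun t ht => ?_⟩
      exfalso
      apply hm
      rw [ht]
    | tail _ hst ih => exact PqConn_step hc hL hV h0 ih hst
  exact key.mx hm'

theorem q_conn {c V W : CC} (hc : qOK c) (hV : qHS c V) (hW : qHS c W)
    (h : W ∈ Cl V ∨ act qth.aut W ∈ Cl V) : Relation.ReflTransGen (qG c) V W := by
  obtain ⟨h2, L, hh, h0, hL, hl, hmk, hX⟩ := q_setup hc hV.1
  subst hmk
  have hin1 : ∀ p, In12 ((1 : PS) p) := fun _ => In12_one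
  have hq1 : qcl L 1 = ConjClasses.mk (arcP L) := by
    unfold qcl
    rw [PqConn_upd]
  have ok0 : EOK h2 (tarcs L) ((1 : PS), fun p => !p) := by
    rw [q_eok_b hc hL hV.1 h0 hin1, hq1]
    exact hV
  have e0 : qhc L ((1 : PS), fun p => !p) = ConjClasses.mk (arcP L) := by
    unfold qhc
    rw [if_pos (by rfl), hq1]
  rcases h with h | h
  · obtain ⟨u, hu, hWu⟩ := Cl_rch hL h
    have hWu' : W = qcl L u := hWu
    have ok1 : EOK h2 (tarcs L) (u, fun p => !p) := by
      rw [q_eok_b hc hL hV.1 h0 (Rch_lv hu).1, ← hWu']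
      exact hW
    have hch := q_chain hc hL hV.1 h0 ok0 (by simp) (by simp)
      (conn_phi hX.1 hX.2.2 ok0 ok1)
    have e1 : qhc L (u, fun p => !p) = W := by
      unfold qhc
      rw [if_pos (by rfl), hWu']
    rw [e0, e1] at hch
    exact hch
  · obtain ⟨u, hu, hWu⟩ := Cl_rch hL h
    have hWu' : act qth.aut W = qcl L u := hWu
    have hW2 : act qth.aut (qcl L u) = W := by
      rw [← hWu', q_th_th]
    have ok1 : EOK h2 (tarcs L) (u, fun p => p) := by
      rw [q_eok_c hc hL hV.1 h0 (Rch_lv hu).1, hW2]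
      exact hW
    have hch := q_chain hc hL hV.1 h0 ok0 (by simp) (by simp)
      (conn_phi hX.1 hX.2.2 ok0 ok1)
    have e1 : qhc L (u, fun p => p) = W := by
      unfold qhc
      rw [if_neg (by simp), hW2]
    rw [e0, e1] at hch
    exact hch

end Pool.Agent.Sims
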