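import Pool.Agent.Sims.PqDefs

/-!
# Module `PqCy` : cyclic lists

The cyclically consecutive pairs of `L` are the elements of `L.zip (L.rotate 1)`.
* `q_zip_rot`: if `L ~r L'` the pairs of `L'` are those of `L` (`List.rotate_rotate`, `List.zip_rotate`-like: `(L.rotate n).zip ((L.rotate n).rotate 1) = (L.zip (L.rotate 1)).rotate n` for lists of equal length; `List.zipWith_rotate_distrib`).
* `q_prop`: propagation: `P q` for one element and `P p.1 → P p.2` for all consecutive pairs imply `P` for all.  Rotate so that the element is the first (`q_zip_rot`), `L = x :: l`: the pairs contain those of the chain `x :: l` (induction on `l`).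
* `q_pairs`: `ty` alternates along the cyclic list.  By rotation we may assume that the first element has type `true` (if `L = [x]` the pair `(x, x)` contradicts `ty x ≠ ty x`; if the first has type `false` the second has type `true`: rotate
  by 1).  Then by induction on the length for the linear statement: a list `x :: l` with alternating types (`List.IsChain`), first type `true`, last type `false`, is `Q.flatMap (fun p => [p.1, p.2])`, where the pairs `p ∈ Q` are
  consecutive in the list.  The last type is `false` since the pair (last, first) alternates.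
* `q_regroup`: let `Q = [q_1, …, q_n]`: `Π f(q_i) g(q_i)` is conjugate by `f(q_1)` to `g(q_1) f(q_2) ⋯ g(q_n) f(q_1)`.  For `Q = x :: l` prove `f x * (List.zipWith (fun q r => g q * f r) (x :: l) (l ++ [y])).prod = ((x :: l).map (fun q => f q * g q)).prod * f y`
  by induction on `l`, then `y = x`.
* `q_arcP_rot`: `arcP` is a product of a `map`; `List.IsRotated` and `ConjClasses.mk (a * b) = ConjClasses.mk (b * a)` (`Cyc_rot_split`).
* `q_sum_zip`: the sum over consecutive pairs of `f p.1 + g p.2` is `Σ f + Σ g` (`TpLa_sum`, `List.zip = List.zipWith Prod.mk`).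
Difficulty 2.
-/

namespace Pool.Agent.Sims

open FreeGroup (of)

theorem PqCy_zip_rotate {β : Type*} (L : List β) (n : ℕ) :
    (L.rotate n).zip ((L.rotate n).rotate 1) = (L.zip (L.rotate 1)).rotate n := by
  have h : (L.zip (L.rotate 1)).rotate n = (L.rotate n).zip ((L.rotate 1).rotate n) := by
    unfold List.zip
    rw [List.zipWith_rotate_distrib _ _ _ _ (by simp)]
  rw [h, List.rotate_rotate, List.rotate_rotate, Nat.add_comm]

theorem q_zip_rot {β : Type*} {L L' : List β} (h : L ~r L') (p : β × β) :
    p ∈ L.zip (L.rotate 1) ↔ p ∈ L'.zip (L'.rotate 1) := by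
  obtain ⟨n, rfl⟩ := h
  rw [PqCy_zip_rotate, List.mem_rotate]

theorem PqCy_pair {β : Type*} {L : List β} (i : ℕ) (hi : i < L.length) :
    (L[i], L[(i + 1) % L.length]'(Nat.mod_lt _ (by omega))) ∈ L.zip (L.rotate 1) := by
  rw [List.mem_iff_getElem]
  refine ⟨i, by simpa using hi, ?_⟩
  rw [List.getElem_zip, List.getElem_rotate]

theorem q_prop {β : Type*} {L : List β} {P : β → Prop}
    (h : ∀ p ∈ L.zip (L.rotate 1), P p.1 → P p.2) (h0 : ∃ q ∈ L, P q) : ∀ q ∈ L, P q := by
  obtain ⟨q0, hq0, hP⟩ := h0
  obtain ⟨i0, hi0, rfl⟩ := List.mem_iff_getElem.1 hq0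
  have key : ∀ k : ℕ, P (L[(i0 + k) % L.length]'(Nat.mod_lt _ (by omega))) := by
    intro k
    induction k with
    | zero =>
      have : (i0 + 0) % L.length = i0 := by rw [Nat.add_zero]; exact Nat.mod_eq_of_lt hi0
      simpa only [this] using hP
    | succ k ih =>
      have h1 := h _ (PqCy_pair ((i0 + k) % L.length) (Nat.mod_lt _ (by omega))) ih
      have h2 : ((i0 + k) % L.length + 1) % L.length = (i0 + (k + 1)) % L.length := by
        rw [Nat.mod_add_mod, Nat.add_assoc]
      simpa only [h2] using h1
  intro q hq
  obtain ⟨j, hj, rfl⟩ := List.mem_iff_getElem.1 hq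
  have h3 := key (L.length - i0 + j)
  have h4 : (i0 + (L.length - i0 + j)) % L.length = j := by
    have : i0 + (L.length - i0 + j) = j + L.length := by omega
    rw [this, Nat.add_mod_right]
    exact Nat.mod_eq_of_lt hj
  simpa only [h4] using h3

theorem PqCy_lin {β : Type*} (ty : β → Bool) : ∀ (n : ℕ) (l : List β), l.length ≤ n →
    (∀ p ∈ l.zip l.tail, ty p.1 ≠ ty p.2) → (∀ x ∈ l.head?, ty x = true) →
    (∀ x ∈ l.getLast?, ty x = false) →
    ∃ Q : List (β × β), l = Q.flatMap (fun p => [p.1, p.2]) ∧
      ∀ p ∈ Q, ty p.1 = true ∧ ty p.2 = false ∧ p ∈ l.zip l.tail := by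
  intro n
  induction n with
  | zero =>
    intro l hl _ _ _
    have : l = [] := List.length_eq_zero_iff.1 (by omega)
    subst this
    exact ⟨[], rfl, by simp⟩
  | succ n ih =>
    intro l hl h1 h2 h3
    match l, hl, h1, h2, h3 with
    | [], _, _, _, _ => exact ⟨[], rfl, by simp⟩
    | [x], _, _, h2, h3 =>
      exfalso
      have a := h2 x (by simp)
      have b := h3 x (by simp)
      rw [a] at b
      exact absurd b (by decide)
    | x :: y :: t, hl, h1, h2, h3 =>
      have a := h2 x (by simp)
      have b : ty y = false := by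
        have := h1 (x, y) (by simp)
        simp only [a] at this
        cases hy : ty y
        · rfl
        · exact absurd hy.symm this
      obtain ⟨Q, hQ, hQ2⟩ := ih t (by simp at hl; omega)
        (by
          intro p hp
          apply h1 p
          cases t with
          | nil => simp at hp
          | cons z t' =>
            simp only [List.tail_cons, List.zip_cons_cons, List.mem_cons] at hp ⊢
            exact Or.inr (Or.inr hp))
        (by
          intro z hz
          cases t with
          | nil => simp at hz
          | cons z' t' =>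
            simp only [List.head?_cons, Option.mem_def, Option.some.injEq] at hz
            subst hz
            have := h1 (y, z') (by simp)
            simp only [b] at this
            cases hy : ty z'
            · exact absurd hy.symm this
            · rfl)
        (by
          intro z hz
          apply h3 z
          cases t with
          | nil => simp at hz
          | cons z' t' => simpa using hz)
      refine ⟨(x, y) :: Q, ?_, ?_⟩
      · rw [List.flatMap_cons, ← hQ]
        rfl
      · intro p hp
        rcases List.mem_cons.1 hp with rfl | hp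
        · exact ⟨a, b, by simp⟩
        · obtain ⟨c1, c2, c3⟩ := hQ2 p hp
          refine ⟨c1, c2, ?_⟩
          cases t with
          | nil => simp at c3
          | cons z t' =>
            simp only [List.tail_cons, List.zip_cons_cons, List.mem_cons] at c3 ⊢
            exact Or.inr (Or.inr c3)

theorem PqCy_zip_sub {β : Type*} {L : List β} {p : β × β} (h : p ∈ L.zip L.tail) :
    p ∈ L.zip (L.rotate 1) := by
  cases L with
  | nil => simp at h
  | cons x l =>
    rw [List.rotate_cons_succ, List.rotate_zero]
    rw [List.tail_cons] at h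
    obtain ⟨i, hi, rfl⟩ := List.mem_iff_getElem.1 h
    rw [List.mem_iff_getElem]
    simp only [List.length_zip] at hi
    refine ⟨i, by simp; simp at hi; omega, ?_⟩
    rw [List.getElem_zip, List.getElem_zip]
    rw [List.getElem_append_left (by simp at hi; omega)]

theorem PqCy_last {β : Type*} {L : List β} {x z : β} (h1 : x ∈ L.head?) (h2 : z ∈ L.getLast?) :
    (z, x) ∈ L.zip (L.rotate 1) := by
  cases L with
  | nil => simp at h1
  | cons y l =>
    simp only [List.head?_cons, Option.mem_def, Option.some.injEq] at h1
    subst h1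
    have hlast : (y :: l)[l.length]'(by simp) = z := by
      rw [Option.mem_def, List.getLast?_eq_getElem?] at h2
      simp only [List.length_cons, Nat.add_sub_cancel] at h2
      rw [List.getElem?_eq_getElem (by simp)] at h2
      exact Option.some.inj h2
    have := PqCy_pair (L := y :: l) l.length (by simp)
    rw [hlast] at this
    simpa using this

theorem q_pairs {β : Type*} (ty : β → Bool) {L : List β} (hne : L ≠ [])
    (h : ∀ p ∈ L.zip (L.rotate 1), ty p.1 ≠ ty p.2) :
    ∃ Q : List (β × β), Q ≠ [] ∧ L ~r Q.flatMap (fun p => [p.1, p.2]) ∧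
      ∀ p ∈ Q, ty p.1 = true ∧ ty p.2 = false ∧ p ∈ L.zip (L.rotate 1) := by
  -- a rotation whose first element has type `true`
  have hrot : ∃ L' : List β, L ~r L' ∧ ∀ x ∈ L'.head?, ty x = true := by
    by_cases hall : ∃ x ∈ L, ty x = true
    · obtain ⟨x, hx, hxt⟩ := hall
      obtain ⟨i, hi, rfl⟩ := List.mem_iff_getElem.1 hx
      refine ⟨L.rotate i, ⟨i, rfl⟩, ?_⟩
      intro y hy
      have h1 : (L.rotate i).head? = some (L[i]) := by
        rw [List.head?_rotate hi, List.getElem?_eq_getElem hi]
      rw [h1] at hy
      simp only [Option.mem_def, Option.some.injEq] at hy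
      rw [← hy]
      exact hxt
    · exfalso
      push Not at hall
      have hlen : 0 < L.length := List.length_pos_iff.2 hne
      have h1 := h _ (PqCy_pair 0 hlen)
      have h2 := hall (L[0]) (List.getElem_mem _)
      have h3 := hall (L[(0 + 1) % L.length]'(Nat.mod_lt _ hlen)) (List.getElem_mem _)
      apply h1
      simp only
      rw [Bool.eq_false_of_not_eq_true h2, Bool.eq_false_of_not_eq_true h3]
  obtain ⟨L', hr, hh⟩ := hrot
  have hne' : L' ≠ [] := by
    rintro rfl
    exact hne (List.isRotated_nil_iff.1 hr)
  have h' : ∀ p ∈ L'.zip (L'.rotate 1), ty p.1 ≠ ty p.2 := by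
    intro p hp
    exact h p ((q_zip_rot hr p).2 hp)
  obtain ⟨Q, hQ, hQ2⟩ := PqCy_lin ty L'.length L' le_rfl
    (fun p hp => h' p (PqCy_zip_sub hp)) hh
    (by
      intro z hz
      obtain ⟨x, hx⟩ : ∃ x, x ∈ L'.head? := by
        cases L' with
        | nil => exact absurd rfl hne'
        | cons x l => exact ⟨x, by simp⟩
      have h1 := h' _ (PqCy_last hx hz)
      have h2 := hh x hx
      simp only [h2] at h1
      cases hz' : ty z
      · rfl
      · exact absurd hz' h1)
  refine ⟨Q, ?_, ?_, ?_⟩
  · rintro rfl
    simp at hQ
    exact hne' hQ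
  · rw [← hQ]
    exact hr
  · intro p hp
    obtain ⟨c1, c2, c3⟩ := hQ2 p hp
    exact ⟨c1, c2, (q_zip_rot hr p).2 (PqCy_zip_sub c3)⟩

theorem PqCy_regroup {β G : Type*} [Group G] (f g : β → G) (y : β) :
    ∀ (l : List β) (x : β), f x * (List.zipWith (fun q r => g q * f r) (x :: l) (l ++ [y])).prod =
      ((x :: l).map (fun q => f q * g q)).prod * f y := by
  intro l
  induction l with
  | nil =>
    intro x
    simp [mul_assoc]
  | cons z t ih =>
    intro x
    rw [List.cons_append, List.zipWith_cons_cons, List.prod_cons, List.map_cons, List.prod_cons,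
      mul_assoc (f x * g x), ← ih z]
    simp only [mul_assoc]

theorem q_regroup {β G : Type*} [Group G] (f g : β → G) (Q : List β) :
    ConjClasses.mk ((Q.map (fun q => f q * g q)).prod) =
      ConjClasses.mk ((List.zipWith (fun q r => g q * f r) Q (Q.rotate 1)).prod) := by
  cases Q with
  | nil => simp
  | cons x l =>
    rw [List.rotate_cons_succ, List.rotate_zero]
    rw [ConjClasses.mk_eq_mk_iff_isConj, isConj_iff]
    refine ⟨(f x)⁻¹, ?_⟩
    have := PqCy_regroup f g x l x
    rw [inv_inv, mul_assoc, ← this]
    group

theorem q_arcP_rot {L L' : List (Bool × FreeGroup (Fin 3))} (h : L ~r L') :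
    ConjClasses.mk (arcP L) = ConjClasses.mk (arcP L') := by
  obtain ⟨p, q, rfl, rfl⟩ := Cyc_rot_split h
  unfold arcP
  rw [List.map_append, List.map_append, List.prod_append, List.prod_append]
  rw [ConjClasses.mk_eq_mk_iff_isConj, isConj_iff]
  exact ⟨((List.map (fun q => lett (0, q.1) * q.2) p).prod)⁻¹, by group⟩

theorem q_sum_zip {β : Type*} (f g : β → ℕ) (L : List β) :
    ((L.zip (L.rotate 1)).map (fun p => f p.1 + g p.2)).sum =
      (L.map f).sum + (L.map g).sum := by
  have h1 : (L.zip (L.rotate 1)).map (fun p => f p.1 + g p.2) =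
      List.zipWith (fun q r => f q + g r) L (L.rotate 1) := by
    rw [List.zip, List.map_zipWith]
  rw [h1, TpLa_sum f g L (L.rotate 1) (by simp)]
  congr 1
  exact ((List.rotate_perm L 1).map g).sum_eq

theorem q_tarcs_zip (L : List (Bool × FreeGroup (Fin 3))) :
    tarcs L = (L.zip (L.rotate 1)).map (fun p => (p.1.1, !p.2.1, p.1.2)) := by
  rw [tarcs, List.zip, List.map_zipWith]

end Pool.Agent.Sims
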