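import Pool.Agent.Sims.ConjC

/-!
# Module `TpP` : words rotated along a word

`Rot u g` : `g` is rotated along the word `u` (one letter is cancelled in each conjugation step).
* `rot_W`: as in the proof of `ConjC_entry` (`ConjC_per_of`).  `W ≠ []`: `rr = 1` for `r = 0` needs `g ≠ 1`.
* `per_comm`: `ConjC_per_append` in both orders: `W ++ W' = u.take (..) = W' ++ W`.
* `rot_comm`: `rot_W`, `per_comm`; so `mk W`, `mk W'` commute and so do `g`, `g'` (they are `mk W`, `mk W'` or their inverses).  If `u = []` then the norms are `0`, `g = g' = 1`.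
* `per_shift`: `ConjC_per_take`, and for `i < |u| - |W|`: the letter `|W| + i` of `u` is the letter `i` of `u` (both are the letter `i mod |W|` of `W`): `u.drop |W| = u.take (|u| - |W|)`;
  `mk u = mk W * mk (u.drop |W|)`.
Difficulty 2.
-/

namespace Pool.Agent.Sims

open FreeGroup (of)

/-- `g` is rotated along `u` -/
def Rot (u : List (Fin 3 × Bool)) (g : FreeGroup (Fin 3)) : Prop :=
  ∀ (r : ℕ) (h : r < u.length), rr u[r] (ConjC_g u g r) = 1

theorem rot_W {u : List (Fin 3 × Bool)} (hu : FreeGroup.IsReduced u) (h0 : 0 < u.length)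
    {g : FreeGroup (Fin 3)} (hg : Rot u g) : ∃ W : List (Fin 3 × Bool),
      (FreeGroup.mk W = g ∨ FreeGroup.mk W = g⁻¹) ∧ W.length = g.norm ∧ ConjC_per u W ∧
      W ≠ [] := by
  have h1 : rr u[0] g = 1 := by
    have := hg 0 h0
    rwa [ConjC_g_zero] at this
  have hg1 : g ≠ 1 := by
    rintro rfl
    rw [ConjC_rr_one] at h1
    omega
  by_cases hh : g.toWord.head? = some u[0]
  · refine ⟨g.toWord, Or.inl FreeGroup.mk_toWord, rfl, ConjC_per_of hu h0 hg hh, ?_⟩
    intro hc
    rw [hc] at hh
    simp at hh
  · have hh' : g⁻¹.toWord.head? = some u[0] := by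
      have h3 : g.toWord.getLast? = some (bar u[0]) := by
        unfold rr at h1
        rw [if_neg hh] at h1
        by_contra hc
        rw [if_neg hc] at h1
        omega
      rw [FreeGroup.toWord_inv, FreeGroup.invRev, List.head?_reverse, List.getLast?_map, h3]
      simp [bar]
    refine ⟨g⁻¹.toWord, Or.inr FreeGroup.mk_toWord, ?_, ConjC_per_of hu h0 ?_ hh', ?_⟩
    · have : g⁻¹.norm = g.norm := FreeGroup.norm_inv_eq
      exact this
    · intro r h
      rw [ConjC_g_inv, ConjC_rr_inv]
      exact hg r h
    · intro hc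
      rw [hc] at hh'
      simp at hh'

theorem per_comm {u W W' : List (Fin 3 × Bool)} (h : ConjC_per u W) (h' : ConjC_per u W')
    (hl : W.length + W'.length ≤ u.length) :
    (FreeGroup.mk W : FreeGroup (Fin 3)) * FreeGroup.mk W' = FreeGroup.mk W' * FreeGroup.mk W := by
  have e1 := ConjC_per_append h h' hl
  have e2 := ConjC_per_append h' h (by omega)
  have e3 : W ++ W' = W' ++ W := by rw [e1, e2, add_comm]
  have e5 : FreeGroup.mk (W ++ W') = FreeGroup.mk (W' ++ W) := by rw [e3]
  exact e5

theorem rot_comm {u : List (Fin 3 × Bool)} (hu : FreeGroup.IsReduced u)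
    {g g' : FreeGroup (Fin 3)} (hg : Rot u g) (hg' : Rot u g')
    (hl : g.norm + g'.norm ≤ u.length) : g * g' = g' * g := by
  rcases Nat.eq_zero_or_pos u.length with h0 | h0
  · have h1 : g.norm = 0 := by omega
    have h2 : g = 1 := FreeGroup.norm_eq_zero.1 h1
    rw [h2]; simp
  · obtain ⟨W, hW, hWl, hWp, _⟩ := rot_W hu h0 hg
    obtain ⟨W', hW', hWl', hWp', _⟩ := rot_W hu h0 hg'
    have e : Commute (FreeGroup.mk W) (FreeGroup.mk W') := per_comm hWp hWp' (by omega)
    have e1 : Commute g (FreeGroup.mk W') := by
      rcases hW with h | h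
      · rw [h] at e; exact e
      · rw [h] at e; exact Commute.inv_left_iff.1 e
    have e2 : Commute g g' := by
      rcases hW' with h | h
      · rw [h] at e1; exact e1
      · rw [h] at e1; exact Commute.inv_right_iff.1 e1
    exact e2.eq

theorem per_shift {u W : List (Fin 3 × Bool)} (hW : ConjC_per u W) (h : W ≠ [])
    (hl : W.length ≤ u.length) :
    (FreeGroup.mk W : FreeGroup (Fin 3))⁻¹ * FreeGroup.mk u =
      FreeGroup.mk (u.take (u.length - W.length)) := by
  have hp := ConjC_per_take hW hl
  have hpos : 0 < W.length := List.length_pos_iff.2 h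
  have e1 : u.drop W.length = u.take (u.length - W.length) := by
    apply List.ext_getElem?
    intro i
    rcases Nat.lt_or_ge i (u.length - W.length) with hi | hi
    · rw [List.getElem?_drop, List.getElem?_take_of_lt hi, hW _ (by omega), hW i (by omega),
        Nat.add_mod_left]
    · rw [List.getElem?_eq_none, List.getElem?_eq_none]
      · rw [List.length_take]; omega
      · rw [List.length_drop]; omega
  have e2 : FreeGroup.mk u = FreeGroup.mk W * FreeGroup.mk (u.drop W.length) := by
    have e3 : FreeGroup.mk (u.take W.length ++ u.drop W.length) = FreeGroup.mk u := by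
      rw [List.take_append_drop]
    rw [← e3, ← hp]
    rfl
  rw [e2, inv_mul_cancel_left, e1]

end Pool.Agent.Sims
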