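import Pool.Agent.Sims.TpF
import Pool.Agent.Sims.TpP

/-!
# Module `TpJ` : joint lines and the reduction along them

* `jj_next`: let `T' = ast (bo (lett z)) T`, `Q = anq T = anq T'` (`anq_bo`); `T'` is valid (`TOK_st`, `lv_bo`).  `anz p z T ≤ h - 1`, `anz (!p) z T ≤ h`, so `Q ≥ 1`.  The inverse move is level:
  `anz p (bar z) T' + anz (!p) (bar z) T' + Q = 2h` (`Lv2 T' (bo (lett (bar z)))` since `bo (lett z) * bo (lett (bar z)) = 1`).  Suppose `anz p z' T' = h`.  `anz_two_le` (`z' ≠ bar z`):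
  `anz p (bar z) T' ≤ h - Q`, so `anz (!p) (bar z) T' = h`, so `ps (!p) (lett (bar z))` is level for `T'`, i.e. `bo (lett z) * ps (!p) (lett (bar z)) = ps p (lett z)` is level for `T` (`Lv2_st`, `PS_ext`), i.e.
  `anz p z T = h` (`lv_ps`), contradiction.
* `jline`: `Z = (u p).toWord`.  Let `a ≤ |Z|` be maximal such that `ps p (mk (Z.take a))` is level for `T` (`a = 0` is level).  `fib_diam`.  Put `w r = ps p (mk (Z.take a)) * bo (mk ((Z.take r).drop a))`;
  `w r p = mk (Z.take r)`.  `r = a`: `fib_rch`.  Induction on `r ≥ a`: `Rch T (w r)` and (`r < |Z|` implies `anz p Z[r] (ast (w r) T) ≠ h`).  For `r = a < |Z|`: otherwise `w a * ps p (lett Z[a]) = ps p (mk (Z.take (a+1)))`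
  is level (`lv_ps`, `Lv2_st`), contradiction.  Step: at the base `ast (w r) T` the state `(w r)⁻¹ * u` is reachable (`Rch_diff`), its position of `p` is `mk (Z.drop r)` with first letter `Z[r]`: `dr_of_hd`; the
  first alternative is excluded, so the joint move is level (`lv_bo`): `Rch T (w (r+1))` (`Rch_bo`, `bo_mul`); `jj_next` for `z' = Z[r+1] ≠ bar Z[r]`.
* `four_red`: let `x = mk (Z.take a)`, `wa = ps p x`, `Ta = ast wa T` (valid, `Rch_TOK`), `L = Ta.map (·.2.2)` the list of its labels.  `CMin L`: `TOK.min` for `bo y` (`cjT y L` is the list of labels of `ast (bo y) Ta`,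
  `LT L = atl Ta`).  `r = (v p).norm`, `u' = (Z.take r).drop a` has length `r - a ≥ atl T + 1 > LT L` and `Lw L (mk u')` (hypothesis `hJ`, `Rch_lv`).  `L` has a nontrivial entry `g0` (`atl T ≥ 1`); `ConjC_entry`: `W0`,
  `mk W0 = g0` or `g0⁻¹`, `ConjC_per u' W0`, `1 ≤ |W0| ≤ atl T`.  `q = mk W0` commutes with all entries `g` of `L`: trivial for `g = 1` and `g = g0`; otherwise `ConjC_entry` for `g` and `per_comm`, `|g0| + |g| ≤ LT L` (`ConjC_norm_le2`).  Put `w p = x q⁻¹ x⁻¹ (v p)`, `w (!p) = q⁻¹ (v !p)`, i.e. `w = wa * (bo q⁻¹ * (wa⁻¹ * v))`; all labels of `Ta` commute with `q`, so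
  `ast (bo q⁻¹ * v') Ta = ast v' Ta` for every `v'`; so `ast w T = ast v T`.  `v p = mk (Z.take r) = x * mk u'`, so `w p = x q⁻¹ (mk u') = x * mk (u'.take (|u'| - |W0|)) = mk (Z.take (r - |W0|))`
  (`per_shift`).  `Lv2 T w`, `Rch_prefix`, `Rch_same`.
Difficulty 3.
-/

namespace Pool.Agent.Sims

open FreeGroup (of)

theorem jj_next {h : ℕ} {T : List Arc} (hT : TOK h T) {p : Bool} {z z' : Fin 3 × Bool}
    (hz : z.1 ≠ 0) (hz' : z'.1 ≠ 0) (hzz : z' ≠ bar z)
    (hj : anz true z T + anz false z T + anq T = 2 * h) (hn : anz p z T ≠ h) :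
    anz p z' (ast (bo (lett z)) T) ≠ h := by
  intro hc
  have hL : Lv2 T (bo (lett z)) := (lv_bo hT hz).2 hj
  have hT' := TOK_st hT hL
  have hbz : (bar z).1 ≠ 0 := hz
  have hL2 : Lv2 (ast (bo (lett z)) T) (bo (lett (bar z))) := by
    rw [Lv2_st hL, bo_mul, lett_bar, mul_inv_cancel, bo_one]
    exact Lv2_one
  have h1 := (lv_bo hT' hbz).1 hL2
  have h2 := anz_two_le hT' p hzz
  have h3 := anz_le hT' (!p) hbz
  have h4 : anz (!p) (bar z) (ast (bo (lett z)) T) = h := by
    cases p
    · simp only [Bool.not_false] at h3 ⊢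
      omega
    · simp only [Bool.not_true] at h3 ⊢
      omega
  have h5 := (lv_ps hT' (!p) hbz).2 h4
  rw [Lv2_st hL] at h5
  have h6 : bo (lett z) * ps (!p) (lett (bar z)) = ps p (lett z) := by
    apply PS_ext p
    · have e1 : ps (!p) (lett (bar z)) p = 1 := by
        have := ps_not (!p) (lett (bar z))
        rwa [Bool.not_not] at this
      rw [Pi.mul_apply, e1, ps_self, mul_one]
      rfl
    · rw [Pi.mul_apply, ps_self, ps_not, lett_bar]
      exact mul_inv_cancel _
  rw [h6] at h5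
  exact hn ((lv_ps hT p hz).1 h5)

theorem TpJ_norm {l : List (Fin 3 × Bool)} (hl : FreeGroup.IsReduced l) :
    (FreeGroup.mk l : FreeGroup (Fin 3)).toWord = l := by
  rw [FreeGroup.toWord_mk, hl.reduce_eq]

theorem TpJ_take {l : List (Fin 3 × Bool)} (hl : FreeGroup.IsReduced l) (r : ℕ) :
    FreeGroup.IsReduced (l.take r) :=
  red_mid hl ⟨[], l.drop r, by rw [List.nil_append, List.take_append_drop]⟩

theorem TpJ_drop {l : List (Fin 3 × Bool)} (hl : FreeGroup.IsReduced l) (r : ℕ) :
    FreeGroup.IsReduced (l.drop r) :=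
  red_mid hl ⟨l.take r, [], by rw [List.append_nil, List.take_append_drop]⟩

theorem TpJ_td (Z : List (Fin 3 × Bool)) {a r : ℕ} (h : a ≤ r) :
    Z.take a ++ (Z.take r).drop a = Z.take r := by
  conv_rhs => rw [← List.take_append_drop a (Z.take r)]
  rw [List.take_take, min_eq_left h]

theorem TpJ_td1 (Z : List (Fin 3 × Bool)) {a : ℕ} : (Z.take a).drop a = [] := by
  rw [List.drop_eq_nil_iff, List.length_take]
  exact min_le_left _ _

theorem TpJ_pos (Z : List (Fin 3 × Bool)) (p : Bool) {a r : ℕ} (h : a ≤ r) :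
    (ps p (FreeGroup.mk (Z.take a)) * bo (FreeGroup.mk ((Z.take r).drop a)) : PS) p =
      FreeGroup.mk (Z.take r) := by
  rw [Pi.mul_apply, ps_self]
  change FreeGroup.mk (Z.take a) * FreeGroup.mk ((Z.take r).drop a) = _
  rw [FreeGroup.mul_mk, TpJ_td Z h]

theorem TpJ_ahd {Z : List (Fin 3 × Bool)} (hZ : FreeGroup.IsReduced Z) {r : ℕ}
    (hr : r < Z.length) : ahd ((FreeGroup.mk (Z.take r))⁻¹ * FreeGroup.mk Z) = some Z[r] := by
  have e1 : (FreeGroup.mk Z : FreeGroup (Fin 3)) =
      FreeGroup.mk (Z.take r) * FreeGroup.mk (Z.drop r) := by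
    rw [FreeGroup.mul_mk, List.take_append_drop]
  rw [e1, inv_mul_cancel_left]
  unfold ahd
  rw [TpJ_norm (TpJ_drop hZ r), List.head?_drop, List.getElem?_eq_getElem hr]

theorem jline {h : ℕ} {T : List Arc} (hT : TOK h T) {u : PS} (hu : Rch T u) (p : Bool) :
    ∃ a ≤ (u p).toWord.length, ank T * a ≤ 2 * atl T ∧
      ∀ r, a ≤ r → r ≤ (u p).toWord.length →
        Rch T (ps p (FreeGroup.mk ((u p).toWord.take a)) *
          bo (FreeGroup.mk (((u p).toWord.take r).drop a))) := by
  classical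
  generalize hZe : (u p).toWord = Z
  have hZ : FreeGroup.IsReduced Z := by rw [← hZe]; exact FreeGroup.isReduced_toWord
  have hup : u p = FreeGroup.mk Z := by rw [← hZe, FreeGroup.mk_toWord]
  have hlet : ∀ (r : ℕ) (hr : r < Z.length), Z[r].1 ≠ 0 := by
    intro r hr
    have h1 : In12 (u p) := (Rch_lv hu).1 p
    refine h1 _ ?_
    rw [hZe]
    exact List.getElem_mem hr
  obtain ⟨a, ha, hPa, hmax⟩ : ∃ a ≤ Z.length, Lv2 T (ps p (FreeGroup.mk (Z.take a))) ∧
      ∀ b, a < b → b ≤ Z.length → ¬ Lv2 T (ps p (FreeGroup.mk (Z.take b))) := by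
    have hP0 : Lv2 T (ps p (FreeGroup.mk (Z.take 0))) := by
      have e : (FreeGroup.mk (Z.take 0) : FreeGroup (Fin 3)) = 1 := rfl
      rw [e, ps_one]
      exact Lv2_one
    exact ⟨Nat.findGreatest (fun a => Lv2 T (ps p (FreeGroup.mk (Z.take a)))) Z.length,
      Nat.findGreatest_le _,
      Nat.findGreatest_spec (P := fun a => Lv2 T (ps p (FreeGroup.mk (Z.take a))))
        (Nat.zero_le _) hP0,
      fun b hb hbn => Nat.findGreatest_is_greatest hb hbn⟩
  refine ⟨a, ha, ?_, ?_⟩
  · have h1 := fib_diam hT hPa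
    have h2 : (FreeGroup.mk (Z.take a) : FreeGroup (Fin 3)).norm = a := by
      unfold FreeGroup.norm
      rw [TpJ_norm (TpJ_take hZ a), List.length_take, min_eq_left ha]
    rwa [h2] at h1
  · have key : ∀ r, a ≤ r → r ≤ Z.length →
        Rch T (ps p (FreeGroup.mk (Z.take a)) * bo (FreeGroup.mk ((Z.take r).drop a))) ∧
        ∀ hr : r < Z.length, anz p Z[r] (ast (ps p (FreeGroup.mk (Z.take a)) *
          bo (FreeGroup.mk ((Z.take r).drop a))) T) ≠ h := by
      intro r har
      induction r, har using Nat.le_induction with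
      | base =>
        intro _
        have e1 : (FreeGroup.mk ((Z.take a).drop a) : FreeGroup (Fin 3)) = 1 := by
          rw [TpJ_td1]; rfl
        rw [e1, bo_one, mul_one]
        refine ⟨fib_rch hT hPa, ?_⟩
        intro hr hc
        have hT' := TOK_st hT hPa
        have h1 := (lv_ps hT' p (hlet a hr)).2 hc
        rw [Lv2_st hPa, ps_mul, ← ConjC_mk_succ Z hr] at h1
        exact hmax (a + 1) (by omega) (by omega) h1
      | succ r har ih =>
        intro hr1
        have hr : r < Z.length := by omega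
        obtain ⟨hw, hne⟩ := ih (by omega)
        have hne := hne hr
        have hT' := Rch_TOK hT hw
        have hst : Rch (ast (ps p (FreeGroup.mk (Z.take a)) *
            bo (FreeGroup.mk ((Z.take r).drop a))) T)
            ((ps p (FreeGroup.mk (Z.take a)) * bo (FreeGroup.mk ((Z.take r).drop a)))⁻¹ * u) :=
          Rch_diff hw hu
        have hahd : ahd (((ps p (FreeGroup.mk (Z.take a)) *
            bo (FreeGroup.mk ((Z.take r).drop a)))⁻¹ * u : PS) p) = some Z[r] := by
          rw [Pi.mul_apply, Pi.inv_apply, TpJ_pos Z p har, hup]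
          exact TpJ_ahd hZ hr
        have hdr := dr_of_hd hT' hst hahd
        have hj : anz true Z[r] (ast (ps p (FreeGroup.mk (Z.take a)) *
            bo (FreeGroup.mk ((Z.take r).drop a))) T) +
            anz false Z[r] (ast (ps p (FreeGroup.mk (Z.take a)) *
            bo (FreeGroup.mk ((Z.take r).drop a))) T) +
            anq (ast (ps p (FreeGroup.mk (Z.take a)) *
            bo (FreeGroup.mk ((Z.take r).drop a))) T) = 2 * h := by
          rcases hdr with h1 | h1
          · exact absurd h1 hne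
          · exact h1
        have hlv := (lv_bo hT' (hlet r hr)).2 hj
        rw [Lv2_st (Rch_lv hw)] at hlv
        have e2 : bo (FreeGroup.mk ((Z.take (r + 1)).drop a)) =
            bo (FreeGroup.mk ((Z.take r).drop a)) * bo (lett Z[r]) := by
          rw [bo_mul]
          congr 1
          rw [List.take_succ_eq_append_getElem hr, List.drop_append_of_le_length]
          · rfl
          · rw [List.length_take]; omega
        have e3 : ps p (FreeGroup.mk (Z.take a)) *
            bo (FreeGroup.mk ((Z.take (r + 1)).drop a)) =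
            ps p (FreeGroup.mk (Z.take a)) * bo (FreeGroup.mk ((Z.take r).drop a)) *
              bo (lett Z[r]) := by
          rw [e2, mul_assoc]
        rw [e3]
        refine ⟨Rch_bo hw (hlet r hr) hlv, ?_⟩
        intro hr2
        have h3 := jj_next hT' (p := p) (hlet r hr) (hlet (r + 1) hr2) (ConjC_adj hZ hr2) hj hne
        rwa [ast_ast] at h3
    intro r h1 h2
    exact (key r h1 h2).1

theorem TpJ_bo (x : FreeGroup (Fin 3)) (T : List Arc) :
    (ast (bo x) T).map (fun e => e.2.2) = cjT x (T.map (fun e => e.2.2)) := by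
  unfold ast cjT
  rw [List.map_map, List.map_map]
  rfl

theorem TpJ_atl (T : List Arc) : atl T = LT (T.map (fun e => e.2.2)) := by
  unfold atl LT
  rw [List.map_map]
  rfl

theorem four_red {h : ℕ} {T : List Arc} (hT : TOK h T) (hl : 1 ≤ atl T) {p : Bool}
    {Z : List (Fin 3 × Bool)} (hZ : FreeGroup.IsReduced Z) {a : ℕ}
    (hJ : ∀ r, a ≤ r → r ≤ Z.length →
      Rch T (ps p (FreeGroup.mk (Z.take a)) * bo (FreeGroup.mk ((Z.take r).drop a))))
    {v : PS} (hv : Rch T v) (hvZ : (v p).toWord <+: Z) (hr : a + atl T + 1 ≤ (v p).norm) :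
    ∃ w, Rch T w ∧ ast w T = ast v T ∧ (w p).toWord <+: Z ∧ (w p).norm < (v p).norm := by
  generalize hrn : (v p).norm = r at hr ⊢
  have hrl : (v p).toWord.length = r := hrn
  have hrZ : r ≤ Z.length := by rw [← hrl]; exact hvZ.length_le
  have hvw : (v p).toWord = Z.take r := by
    rw [← hrl]; exact List.prefix_iff_eq_take.1 hvZ
  have hvp : v p = FreeGroup.mk (Z.take r) := by rw [← hvw, FreeGroup.mk_toWord]
  -- the state wa
  have hwa : Rch T (ps p (FreeGroup.mk (Z.take a))) := by
    have h1 := hJ a le_rfl (by omega)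
    rw [TpJ_td1] at h1
    have e1 : (FreeGroup.mk [] : FreeGroup (Fin 3)) = 1 := rfl
    rwa [e1, bo_one, mul_one] at h1
  generalize hxe : (FreeGroup.mk (Z.take a) : FreeGroup (Fin 3)) = x at hwa hJ
  generalize hTae : ast (ps p x) T = Ta
  have hTa : TOK h Ta := by rw [← hTae]; exact Rch_TOK hT hwa
  have hatl : atl Ta = atl T := by rw [← hTae]; exact (Rch_lv hwa).2
  generalize hLe : Ta.map (fun e => e.2.2) = L
  have hLT : LT L = atl T := by rw [← hLe, ← TpJ_atl, hatl]
  have hmin : CMin L := by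
    intro y hy
    have h1 := hTa.min (bo y) (bo_in12 hy)
    rw [TpJ_atl, TpJ_atl, TpJ_bo, hLe] at h1
    exact h1
  generalize hue : (Z.take r).drop a = u'
  have hul : u'.length = r - a := by
    rw [← hue, List.length_drop, List.length_take, min_eq_left hrZ]
  have hured : FreeGroup.IsReduced u' := by
    rw [← hue]; exact TpJ_drop (TpJ_take hZ r) a
  have hJr := Rch_lv (hJ r (by omega) hrZ)
  rw [hue, ← Lv2_st (Rch_lv hwa), hTae] at hJr
  have hLw : Lw L (FreeGroup.mk u') := by
    refine ⟨hJr.1 true, ?_⟩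
    have h2 := hJr.2
    rw [TpJ_atl, TpJ_atl, TpJ_bo, hLe] at h2
    exact h2
  have h0 : 0 < u'.length := by omega
  have hll : LT L < u'.length := by omega
  obtain ⟨g0, hg0, hg01⟩ : ∃ g0 ∈ L, g0 ≠ 1 := by
    by_contra hc
    push Not at hc
    have h3 : LT L = 0 := by
      unfold LT
      rw [List.sum_eq_zero_iff]
      intro b hb
      obtain ⟨g, hg, rfl⟩ := List.mem_map.1 hb
      rw [hc g hg]
      exact FreeGroup.norm_one
    omega
  obtain ⟨W0, hW, hWl, hWp⟩ := ConjC_entry hmin hured hLw h0 hll hg0 hg01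
  have hpos : 1 ≤ g0.norm := by
    rcases Nat.eq_zero_or_pos g0.norm with h | h
    · exact absurd (FreeGroup.norm_eq_zero.1 h) hg01
    · exact h
  have hle : g0.norm ≤ LT L := ConjC_norm_le L hg0
  have hcomm : ∀ g ∈ L, Commute (FreeGroup.mk W0) g := by
    intro g hg
    by_cases hg1 : g = 1
    · rw [hg1]; exact Commute.one_right _
    by_cases hgg : g = g0
    · rw [hgg]
      rcases hW with h | h
      · rw [h]
      · rw [h]; exact (Commute.refl g0).inv_left
    · obtain ⟨W, hW', hWl', hWp'⟩ := ConjC_entry hmin hured hLw h0 hll hg hg1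
      have h3 := ConjC_norm_le2 (Ne.symm hgg) L hg0 hg
      have e4 : Commute (FreeGroup.mk W0 : FreeGroup (Fin 3)) (FreeGroup.mk W) :=
        per_comm hWp hWp' (by omega)
      rcases hW' with h | h
      · rw [h] at e4; exact e4
      · rw [h] at e4; exact Commute.inv_right_iff.1 e4
  generalize hqe : (FreeGroup.mk W0 : FreeGroup (Fin 3)) = q at hcomm hW
  have hL12 : ∀ g ∈ L, In12 g := by
    intro g hg
    rw [← hLe] at hg
    obtain ⟨e, he, rfl⟩ := List.mem_map.1 hg
    exact hTa.in12 e he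
  have hq12 : In12 q := by
    rcases hW with h | h
    · rw [h]; exact hL12 g0 hg0
    · rw [h]; exact In12_inv (hL12 g0 hg0)
  have hW0 : W0 ≠ [] := by
    rintro rfl
    simp at hWl
    omega
  have hshift := per_shift hWp hW0 (by omega)
  rw [hqe] at hshift
  -- the new state
  have hast : ∀ v' : PS, ast (bo q⁻¹ * v') Ta = ast v' Ta := by
    intro v'
    unfold ast
    apply List.map_congr_left
    intro e he
    have h4 := (hcomm e.2.2 (by rw [← hLe]; exact List.mem_map.2 ⟨e, he, rfl⟩)).eq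
    have h5 : alab (bo q⁻¹ * v') e = alab v' e := by
      unfold alab
      change (q⁻¹ * v' e.1)⁻¹ * e.2.2 * (q⁻¹ * v' e.2.1) = _
      have h6 : (q⁻¹ * v' e.1)⁻¹ * e.2.2 * (q⁻¹ * v' e.2.1) =
          (v' e.1)⁻¹ * (q * e.2.2) * q⁻¹ * v' e.2.1 := by group
      rw [h6, h4]
      group
    rw [h5]
  refine ⟨ps p x * (bo q⁻¹ * ((ps p x)⁻¹ * v)), ?_⟩
  have hastw : ast (ps p x * (bo q⁻¹ * ((ps p x)⁻¹ * v))) T = ast v T := by
    rw [← ast_ast, hTae, hast, ← hTae, ast_ast, mul_inv_cancel_left]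
  have hxv : x⁻¹ * v p = FreeGroup.mk u' := by
    rw [hvp, ← hxe, ← TpJ_td Z (by omega : a ≤ r), hue, ← FreeGroup.mul_mk, inv_mul_cancel_left]
  have hwp : (ps p x * (bo q⁻¹ * ((ps p x)⁻¹ * v)) : PS) p =
      FreeGroup.mk (Z.take (r - W0.length)) := by
    rw [Pi.mul_apply, Pi.mul_apply, Pi.mul_apply, Pi.inv_apply, ps_self, hxv]
    change x * (q⁻¹ * FreeGroup.mk u') = _
    rw [hshift, ← hxe, FreeGroup.mul_mk, hul, ← hue]
    congr 1
    rw [List.take_drop, List.take_take]
    rw [show min (a + (r - a - W0.length)) r = r - W0.length by omega]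
    exact TpJ_td Z (by omega)
  have hlv : Lv2 T (ps p x * (bo q⁻¹ * ((ps p x)⁻¹ * v))) := by
    refine ⟨?_, ?_⟩
    · intro p'
      have h7 := (Rch_lv hwa).1 p'
      have h8 := (Rch_lv hv).1 p'
      exact In12_mul h7 (In12_mul (In12_inv hq12) (In12_mul (In12_inv h7) h8))
    · rw [hastw]; exact (Rch_lv hv).2
  have hwword : ((ps p x * (bo q⁻¹ * ((ps p x)⁻¹ * v)) : PS) p).toWord =
      Z.take (r - W0.length) := by
    rw [hwp, TpJ_norm (TpJ_take hZ _)]
  refine ⟨?_, hastw, ?_, ?_⟩
  · have hpre : Z.take (r - W0.length) <+: (v p).toWord := by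
      rw [hvw]
      exact List.take_prefix_take_left (by omega)
    obtain ⟨w', hw', hw'p⟩ := Rch_prefix hv p hpre
    exact Rch_same hT hw' hlv (hwp.trans hw'p.symm)
  · rw [hwword]; exact List.take_prefix _ _
  · unfold FreeGroup.norm
    rw [hwword, List.length_take]
    omega

end Pool.Agent.Sims
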