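import Pool.Agent.Sims.TpKc
import Pool.Agent.Sims.TpJ

/-!
# Module `TpK` : the number of lists of arcs

* `tp_k4`: `end_pair`, `rebase`, `jline` for `u0⁻¹ * u1`: `a` with `4 a ≤ 2 atl T`; `red_count` with `R = a + atl T + 1`, `D = atl T / 2` (`fib_dist`: `4 d ≤ 2 atl T`), `hred` by `four_red`;
  `(a + m + 1)(m/2 + 1) ≤ (m + 1)^2`.
* `tp_count`: `ank_add`: `ank T` is even.
Difficulty 2.
-/

namespace Pool.Agent.Sims

open FreeGroup (of)

theorem tp_k4 {h : ℕ} {T : List Arc} (hT : TOK h T) (hl : 1 ≤ atl T) (h4 : 4 ≤ ank T)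
    {S : Finset PS} (hS : ∀ u ∈ S, Rch T u)
    (hinj : ∀ u ∈ S, ∀ v ∈ S, ast u T = ast v T → u = v) : S.card ≤ (atl T + 1) ^ 2 := by
  rcases S.eq_empty_or_nonempty with rfl | hne
  · simp
  obtain ⟨u0, hu0, u1, hu1, hp⟩ := end_pair hT hl hne hS true
  obtain ⟨S', hc, hSu, hR, hI⟩ := rebase hS hinj (hS u0 hu0)
  have hT0 : TOK h (ast u0 T) := Rch_TOK hT (hS u0 hu0)
  have ha0 : atl (ast u0 T) = atl T := Lv2_atl (Rch_lv (hS u0 hu0))
  have hk0 : ank (ast u0 T) = ank T := ank_st u0 T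
  have hu10 : Rch (ast u0 T) (u0⁻¹ * u1) := Rch_diff (hS u0 hu0) (hS u1 hu1)
  obtain ⟨a, hale, ha, hJ⟩ := jline hT0 hu10 true
  have ha2 : 2 * a ≤ atl T := by
    have : 4 * a ≤ ank (ast u0 T) * a := Nat.mul_le_mul_right a (by omega)
    omega
  have key := red_count hT0 (by omega : 1 ≤ ank (ast u0 T)) (p := true)
    (Z := ((u0⁻¹ * u1) true).toWord) (R := a + atl T + 1)
    (D := atl T / 2) (S := S') ?_ hI ?_ ?_
  · rw [hc] at key
    have h5 : (a + atl T + 1) * (atl T / 2 + 1) ≤ (atl T + 1) ^ 2 := by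
      obtain ⟨b, hb⟩ : ∃ b, atl T / 2 = b := ⟨_, rfl⟩
      have hb2 : 2 * b ≤ atl T := by omega
      rw [hb]
      nlinarith
    exact key.trans h5
  · intro v hv
    refine ⟨hR v hv, ?_⟩
    obtain ⟨u, hu, rfl⟩ := hSu v hv
    exact hp u hu
  · intro u v hu hv huv
    have h6 := fib_dist hT0 hu hv huv
    have h7 : 4 * ((u (!true))⁻¹ * v (!true)).norm ≤
        ank (ast u0 T) * ((u (!true))⁻¹ * v (!true)).norm := Nat.mul_le_mul_right _ (by omega)
    omega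
  · intro v hv hvZ hr
    exact four_red hT0 (by omega) FreeGroup.isReduced_toWord hJ hv hvZ (by omega)

theorem tp_count {h : ℕ} {T : List Arc} (hT : TOK h T) {S : Finset PS}
    (hS : ∀ u ∈ S, Rch T u) (hinj : ∀ u ∈ S, ∀ v ∈ S, ast u T = ast v T → u = v) :
    S.card ≤ (atl T + 1) ^ 2 := by
  rcases Nat.eq_zero_or_pos (atl T) with h0 | hl
  · have := tp_zero hT h0 hS hinj
    rw [h0]
    simpa using this
  · have hk := ank_add hT true
    rcases Nat.lt_or_ge (ank T) 1 with h1 | h1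
    · exact tp_k0 hT (by omega) hS hinj
    rcases Nat.lt_or_ge (ank T) 3 with h3 | h3
    · exact tp_k2 hT hl (by omega) hS hinj
    · exact tp_k4 hT hl (by omega) hS hinj

end Pool.Agent.Sims
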