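import Pool.Agent.Sims.TpLa
import Pool.Agent.Sims.TpK

/-!
# Module `TpL` : the two-port lemma

* `tarcs_TOK`: `in12`, `ntr`, `ends` from `TpLa` (`ane_tarcs`, `L.length = 2h`); `min`: for `u` in `⟨b, c⟩` take `φ` with `φ a = (u false) a (u true)⁻¹` (`exists_tw`), `hO φ`, `act_upd`, `arc_len` for `L` and for
  `upd u L` (`upd_ArcOK`), `atl_tarcs`, `tarcs_upd`: `cycLen = L.length + atl`.
* `Cl_rch`: induction on `W ∈ Cl V`: `W = act φ V`, `Tw φ (u false) (u true)⁻¹`, `Rch (tarcs L) u`.  `refl`: `u = 1`, `φ = MulEquiv.refl _`.  Step: `nt_tw2`, `tw_comp2`, `act_act`; if `v = 1` the state does not change; otherwise the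
  new state `u * v` is level: `In12` and the length: `cycLen (act (wh z A) W) = cycLen V` (`Cl_Sm`/`NT_Sm`, `Sm_len`) `= L.length + atl (ast (u * v) (tarcs L))`; so `Rch_ps`, `Rch_bo`.
* `twoport`: `exists_arc`: `V = mk (arcP L)`; `arc_len`: `L.length = cnt V 0 = 2h`, `atl (tarcs L) = cycLen V - cnt V 0`.  It is enough that every finite set `F ⊆ Cl V` has at most `N = (atl + 1)^2` elements (if `Cl V` were
  infinite or larger there would be a finite subset with `N + 1` elements: `Set.Infinite.exists_subset_card_eq`, then `Set.Finite.toFinset`).  Choose `u_W` for `W ∈ F` (`Cl_rch`), `S = F.image u`; `ast u (tarcs L)`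
  determines `upd u L` (`upd_inj`) and so `W`: `W ↦ u_W` is injective and `tp_count` applies to `S`.
Difficulty 2-3.
-/

namespace Pool.Agent.Sims

open FreeGroup (of)

theorem TpL_len {L : List (Bool × FreeGroup (Fin 3))} (hL : ArcOK L) {u : PS}
    (hu : ∀ p, In12 (u p)) :
    cycLen (ConjClasses.mk (arcP (upd u L))) = L.length + atl (ast u (tarcs L)) := by
  rw [(arc_len (upd_ArcOK hL hu)).1, ← atl_tarcs, tarcs_upd, upd_length]

theorem TpL_len0 {L : List (Bool × FreeGroup (Fin 3))} (hL : ArcOK L) :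
    cycLen (ConjClasses.mk (arcP L)) = L.length + atl (tarcs L) := by
  rw [(arc_len hL).1, ← atl_tarcs]

theorem tarcs_TOK {L : List (Bool × FreeGroup (Fin 3))} (hL : ArcOK L)
    (hO : OMin (ConjClasses.mk (arcP L))) {h : ℕ} (hl : L.length = 2 * h) : TOK h (tarcs L) := by
  refine ⟨tarcs_in12 hL, tarcs_ntr hL, fun p => by rw [ane_tarcs, hl], ?_⟩
  intro u hu
  obtain ⟨φ, h1, h2⟩ := exists_tw (hu false) (In12_inv (hu true))
  have hTw : Tw φ (u false) (u true)⁻¹ := ⟨hu false, In12_inv (hu true), h1, h2⟩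
  have h3 := hO φ
  rw [act_upd hTw hL, TpL_len hL hu, TpL_len0 hL] at h3
  omega

theorem TpL_key {L : List (Bool × FreeGroup (Fin 3))} (hL : ArcOK L)
    {W : CC} (hW : W ∈ Cl (ConjClasses.mk (arcP L))) :
    ∃ (φ : FreeGroup (Fin 3) ≃* FreeGroup (Fin 3)) (u : PS), Tw φ (u false) (u true)⁻¹ ∧
      Rch (tarcs L) u ∧ W = act φ (ConjClasses.mk (arcP L)) := by
  have hW' : Relation.ReflTransGen NT (ConjClasses.mk (arcP L)) W := hW
  induction hW' with
  | refl =>
    refine ⟨MulEquiv.refl _, 1, ⟨In12_one, ?_, ?_, fun g _ => rfl⟩, Rch_one _, ?_⟩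
    · simpa using In12_one
    · simp
    · rw [act_refl]
  | @tail W W' h1 h2 ih =>
    have hWc : W ∈ Cl (ConjClasses.mk (arcP L)) := h1
    obtain ⟨φ, u, hφ, hu, hWe⟩ := ih hWc
    obtain ⟨z, A, hLv, hz, hn, rfl⟩ := h2
    obtain ⟨ψ, v, hψ, hv, he⟩ := nt_tw2 W hz hn
    have hc := tw_comp2 hφ hψ
    have hact : act (wh z A) W = act (φ.trans ψ) (ConjClasses.mk (arcP L)) := by
      rw [he, hWe, act_act]
    refine ⟨φ.trans ψ, u * v, hc, ?_, hact⟩
    have hin : ∀ p, In12 ((u * v) p) := by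
      intro p
      cases p
      · exact hc.1
      · have := In12_inv hc.2.1
        rwa [inv_inv] at this
    have hlv : Lv2 (tarcs L) (u * v) := by
      refine ⟨hin, ?_⟩
      have h3 := Sm_len (Cl_Sm hW)
      rw [hact, act_upd hc hL, TpL_len hL hin, TpL_len0 hL] at h3
      omega
    rcases hv with hv | ⟨y, hy, ⟨q, hv⟩ | hv⟩
    · rw [hv, mul_one]
      exact hu
    · rw [hv] at hlv ⊢
      exact Rch_ps hu hy hlv
    · rw [hv] at hlv ⊢
      exact Rch_bo hu hy hlv

theorem Cl_rch {L : List (Bool × FreeGroup (Fin 3))} (hL : ArcOK L)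
    {W : CC} (hW : W ∈ Cl (ConjClasses.mk (arcP L))) :
    ∃ u, Rch (tarcs L) u ∧ W = ConjClasses.mk (arcP (upd u L)) := by
  obtain ⟨φ, u, hφ, hu, he⟩ := TpL_key hL hW
  exact ⟨u, hu, by rw [he, act_upd hφ hL]⟩

theorem twoport {V : CC} (hO : OMin V) {h : ℕ} (h0 : cnt V 0 = 2 * h) (h1 : 1 ≤ h) :
    ∃ E : Finset CC, E.card ≤ (cycLen V - cnt V 0 + 1) ^ 2 ∧ ∀ W ∈ Cl V, W ∈ E := by
  classical
  obtain ⟨L, hL, rfl⟩ := exists_arc (V := V) (by omega)
  have hl2 := (arc_len hL).2
  have hll : L.length = 2 * h := by omega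
  have hT := tarcs_TOK hL hO hll
  have hN : cycLen (ConjClasses.mk (arcP L)) - cnt (ConjClasses.mk (arcP L)) 0 =
      atl (tarcs L) := by
    rw [TpL_len0 hL, hl2]
    omega
  rw [hN]
  have key : ∀ F : Finset CC, (∀ W ∈ F, W ∈ Cl (ConjClasses.mk (arcP L))) →
      F.card ≤ (atl (tarcs L) + 1) ^ 2 := by
    intro F hF
    have hex : ∀ W : CC, ∃ u : PS, W ∈ F → Rch (tarcs L) u ∧
        W = ConjClasses.mk (arcP (upd u L)) := by
      intro W
      by_cases hW : W ∈ F
      · obtain ⟨u, hu, he⟩ := Cl_rch hL (hF W hW)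
        exact ⟨u, fun _ => ⟨hu, he⟩⟩
      · exact ⟨1, fun h => absurd h hW⟩
    choose f hf using hex
    have hcard : (F.image f).card = F.card := by
      apply Finset.card_image_of_injOn
      intro W hW W' hW' he
      rw [(hf W hW).2, (hf W' hW').2, he]
    rw [← hcard]
    refine tp_count hT ?_ ?_
    · intro u hu
      rw [Finset.mem_image] at hu
      obtain ⟨W, hW, rfl⟩ := hu
      exact (hf W hW).1
    · intro u hu v hv he
      rw [Finset.mem_image] at hu hv
      obtain ⟨W, hW, rfl⟩ := hu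
      obtain ⟨W', hW', rfl⟩ := hv
      have h3 := upd_inj he
      have h4 : W = W' := by
        rw [(hf W hW).2, (hf W' hW').2, h3]
      rw [h4]
  have hfin : (Cl (ConjClasses.mk (arcP L))).Finite := by
    by_contra hinf
    obtain ⟨t, ht, htc⟩ := Set.Infinite.exists_subset_card_eq hinf
      ((atl (tarcs L) + 1) ^ 2 + 1)
    have := key t (fun W hW => ht hW)
    omega
  refine ⟨hfin.toFinset, key _ ?_, ?_⟩
  · intro W hW
    exact hfin.mem_toFinset.1 hW
  · intro W hW
    exact hfin.mem_toFinset.2 hW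

end Pool.Agent.Sims
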