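import Pool.Agent.Sims.PhC
import Pool.Agent.Sims.PhLB
import Pool.Agent.Sims.TpL
import Pool.Agent.Sims.EvR1N

/-!
# Definitions for part VII, wave 2 (the case Φ: a cut `Sb` or `Sc` has capacity `cnt 0 = 2h`)

Letter `a = (0, true)`; port `true` = right side of `a` (called X), port `false` = left side of `a` (called Y).
* `qOK c`    : standing hypotheses on the reference class `c`
* `qth`      : `a ↦ a⁻¹` (exchanges the ports X, Y and the cuts `Sb`, `Sc`);  `qro` : `a ↦ a⁻¹`, `b ↔ c`
* `qab`      : `b ↦ a⁻¹ b a`, the move of the cut `Sb`;  `qfl V = θ (qab V)`, automorphism `a ↦ a⁻¹`, `b ↦ a b a⁻¹`, `c ↦ c` (an involution)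
* `qHS c V`  : half-state: `V` has the length and the counts of `c`, in the orbit of `c`, and the cut `Sb` (X on the side of `b`, Y on the side of `c`) has the capacity `cnt V 0`
* `qT p q V W` : `W = φ V` with `φ a = p a q`, `φ` fixes `b, c`
* `qRm c V W`: `V, W` half-states in one room: `φ a = c^y a b^x`
* `qJb`, `qJc` : jumps through the corner (b,b), (c,c);  `qSw` : change of the corner, `W = θ V`
* `qSp`, `qG` : special step, step;  `qTB c V` : `V` and `θ V` are half-states
* `qIn E V`  : `V` is an element of `E` up to sign changes of `b`, `c`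
* `qX h T`   : `T` is a valid minimal list of arcs, all corner cuts have capacity at least `2h` in all states
* `qcl L u`  : the class of the arc form `L` in the state `u`;  `qhc L s` : the half-state of an extended state with mixed corner
* `qnat t`   : the native generator of the side `t` (`b` for `false`, `c` for `true`);  `qfo t g` : the first letter of `g` is foreign on the side `t`
* `qmx t p`  : the mixed corner with the port `p` on the side `!t` and the other port on the side `t`
* `qe t p k T` : number of ends at the port `p` such that `x^{-k} g` begins with a foreign letter (`x = qnat t`, `g` the label read from this end)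
* `qpw t e`  : the state `p ↦ x^{e p}`
-/

namespace Pool.Agent.Sims

open FreeGroup (of)

/-- standing hypotheses -/
structure qOK (c : CC) : Prop where
  /-- orbit-minimal -/
  om : OMin c
  /-- at least 4 letters `a` -/
  h4 : 4 ≤ cnt c 0
  /-- an even number of letters `a` -/
  ev : cnt c 0 % 2 = 0
  /-- more letters `b` -/
  h1 : cnt c 0 < cnt c 1
  /-- more letters `c` -/
  h2 : cnt c 0 < cnt c 2
  /-- the pair cuts -/
  pr : ∀ W ∈ orb c, ∀ i, cnt c 0 ≤ capC W (PrC i)

/-- `a ↦ a⁻¹` -/
def qth : SPerm (Fin 3) := flp (fun i => decide (i ≠ 0))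

/-- `a ↦ a⁻¹`, `b ↔ c` -/
def qro : SPerm (Fin 3) := ⟨Equiv.swap 1 2, fun i => decide (i ≠ 0)⟩

/-- `b ↦ a⁻¹ b a` -/
def qab : FreeGroup (Fin 3) ≃* FreeGroup (Fin 3) := wh (0, true) Sb

/-- `V ↦ θ (qab V)`, the automorphism is `a ↦ a⁻¹`, `b ↦ a b a⁻¹`, `c ↦ c` -/
def qfl (V : CC) : CC := act qth.aut (act qab V)

/-- half-state -/
def qHS (c V : CC) : Prop := Sm c V ∧ capC V Sb = cnt V 0

/-- `W` is the image of `V` by `a ↦ p a q` -/
def qT (p q : FreeGroup (Fin 3)) (V W : CC) : Prop :=
  ∃ φ : FreeGroup (Fin 3) ≃* FreeGroup (Fin 3), Tw φ p q ∧ W = act φ V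

/-- one room -/
def qRm (c V W : CC) : Prop := qHS c V ∧ qHS c W ∧ ∃ x y : ℤ, qT (of 2 ^ y) (of 1 ^ x) V W

/-- jump through the corner (b,b) -/
def qJb (c V W : CC) : Prop := qHS c V ∧ qHS c W ∧ capC V (PrC 2) = cnt V 0 ∧
  ∃ j : ℤ, j ≠ 0 ∧ qT (of 1 ^ j) 1 V W

/-- jump through the corner (c,c) -/
def qJc (c V W : CC) : Prop := qHS c V ∧ qHS c W ∧ capC V (PrC 1) = cnt V 0 ∧
  ∃ j : ℤ, j ≠ 0 ∧ qT 1 (of 2 ^ j) V W

/-- change of the corner -/
def qSw (c V W : CC) : Prop := qHS c V ∧ qHS c W ∧ W = act qth.aut V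

/-- special step -/
def qSp (c V W : CC) : Prop := qJb c V W ∨ qJc c V W ∨ qSw c V W

/-- step -/
def qG (c V W : CC) : Prop := qRm c V W ∨ qSp c V W

/-- both mixed corners are minimal -/
def qTB (c V : CC) : Prop := qHS c V ∧ qHS c (act qth.aut V)

/-- element of `E` up to sign changes of `b`, `c` -/
def qIn (E : Finset CC) (V : CC) : Prop :=
  ∃ s : Fin 3 → Bool, s 0 = true ∧ ∃ e ∈ E, V = act (flp s).aut e

/-- minimal list of arcs, all corner cuts at least `2h` -/
def qX (h : ℕ) (T : List Arc) : Prop := TOK h T ∧ 1 ≤ h ∧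
  ∀ u : PS, (∀ p, In12 (u p)) → ∀ τ, 2 * h ≤ xc τ (ast u T)

/-- the class of an arc form in a state -/
def qcl (L : List (Bool × FreeGroup (Fin 3))) (u : PS) : CC := ConjClasses.mk (arcP (upd u L))

/-- the half-state of an extended state with mixed corner -/
def qhc (L : List (Bool × FreeGroup (Fin 3))) (s : ES) : CC :=
  if s.2 true = false then qcl L s.1 else act qth.aut (qcl L s.1)

/-- the native generator of a side -/
def qnat (t : Bool) : FreeGroup (Fin 3) := if t then of 2 else of 1

/-- the first letter is foreign on the side `t` -/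
def qfo (t : Bool) (g : FreeGroup (Fin 3)) : Bool :=
  match ahd g with
  | some x => decide (x.1 = if t then 1 else 2)
  | none => false

/-- mixed corner, the port `p` is on the side `!t`, the other port on the side `t` -/
def qmx (t p : Bool) : Bool → Bool := fun q => if q = p then !t else t

/-- number of ends at the port `p` with leading exponent `k` -/
def qe (t p : Bool) (k : ℤ) (T : List Arc) : ℕ :=
  (T.map (fun e => (if e.1 = p ∧ qfo t (qnat t ^ (-k) * e.2.2) = true then 1 else 0) +
    (if e.2.1 = p ∧ qfo t (qnat t ^ (-k) * (e.2.2)⁻¹) = true then 1 else 0))).sum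

/-- state with powers of the native generator -/
def qpw (t : Bool) (e : Bool → ℤ) : PS := fun p => qnat t ^ (e p)

/-- the state: port `p` at `b^i`, the other port at `c^j` -/
def qbc (p : Bool) (i j : ℤ) : PS := fun q => if q = p then of 1 ^ i else of 2 ^ j

/-- nontrivial power of `b` -/
def qB (g : FreeGroup (Fin 3)) : Prop := ∃ k : ℤ, k ≠ 0 ∧ g = of 1 ^ k

/-- nontrivial power of `c` -/
def qC (g : FreeGroup (Fin 3)) : Prop := ∃ k : ℤ, k ≠ 0 ∧ g = of 2 ^ k

/-- arcs of a class with both mixed corners minimal: one syllable, `h` ends of each kind at each port -/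
structure qTA (h : ℕ) (T : List Arc) : Prop where
  /-- one syllable -/
  one : ∀ e ∈ T, qB e.2.2 ∨ qC e.2.2
  /-- ends of kind `b` -/
  nb : ∀ p, qe true p 0 T = h
  /-- ends of kind `c` -/
  nc : ∀ p, qe false p 0 T = h

/-- arcs of a class with a jump through the corner (b,b): the arcs at X are powers of `b`, the arcs at Y are
`b^d c^l b^{-d'}` with `d, d' ∈ {0, j}`, half of these exponents vanish -/
structure qSA (h : ℕ) (j : ℤ) (T : List Arc) : Prop where
  /-- equal ports -/
  eq : ∀ e ∈ T, e.1 = e.2.1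
  /-- arcs at X -/
  ax : ∀ e ∈ T, e.1 = true → qB e.2.2
  /-- arcs at Y -/
  ay : ∀ e ∈ T, e.1 = false → ∃ d l d' : ℤ, (d = 0 ∨ d = j) ∧ (d' = 0 ∨ d' = j) ∧ l ≠ 0 ∧
    e.2.2 = of 1 ^ d * of 2 ^ l * of 1 ^ (-d')
  /-- vanishing exponents -/
  n0 : qe false false 0 T = h
  /-- exponents `j` -/
  nj : qe false false j T = h
  /-- number of arcs at each port -/
  len : ∀ p, (T.filter (fun e => decide (e.1 = p))).length = h

end Pool.Agent.Sims
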