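import Pool.Agent.Sims.PqTC
import Pool.Agent.Sims.PqNp

/-!
# Module `PqE1` : a neighbour room containing a class `qTB` (case `a ↦ a b^{-i}`)

`qTB c V`, `U` = image of `V` by `a ↦ a b^{-i}`, `i ≠ 0`, `U` a half-state, `qTB c (qfl U)`.  Then `qfl U = σ θ V`, `σ` the sign change of `b`.
* `q_E1_prod`.  `V = mk (arcP L)`, `T = tarcs L`, `qTA h T`; `u = qbc true i 0` (port X at `b^i`, port Y at `1`), `U = qcl L u` (`q_cl_T`, `q_T_uniq`).
  1. `capC U (PrC 1) = capC (qfl U) (PrC 1) = 2h` (`q_fl_capP`, `q_TB_pr`), so `xc (const true) (ast u T) = 2h` (`cutT_cc`, `q_cap_cl`); `q_TA_mv` (`p = true`): every `qB` arc is mixed with the label `b^i` from X, i.e. for a consecutive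
     pair `(q, r)` of `L` with `qB q.2`: `r.1 = q.1` and `q.2 = b^i` if `q.1 = true`, `q.2 = b^{-i}` if `q.1 = false`.
  2. No two consecutive arcs are both `qC`: `q_nopat` for `upd u L` (`upd_ArcOK`; `mk (arcP (upd u L)) = U`; hypotheses: `U` is a half-state, `θ (qfl U)` is a half-state, `q_th_capSb`; counts), the pair of `upd u L` over `(q, r)`
     (`upd` is a `zipWith` over the same cyclic positions; the labels are `(u q.1)⁻¹ q.2 (u (!r.1))`).  If `r.1 = true`: the label over `q` ends at Y: it is `(u q.1)⁻¹ c^l`, its inverse begins with `(2, ·)`; the label over `r` begins at X: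
     `b^{-i} c^{l'} ⋯` begins with `(1, ·)`: forbidden.  If `r.1 = false`: the label over `q` is `⋯ c^l b^i`, the inverse begins with `(1, ·)`; the label over `r` is `c^{l'} ⋯`: forbidden.
  3. The number of `qC` arcs is `h`, of `qB` arcs `h` (`qTA`: ends; `L.length = 2h`).  By 2. `[q is qC] ≤ [r is qB]` for all consecutive pairs, both sums over all pairs are `h`: equality for all pairs; so the kinds alternate.
  4. `q_pairs` with `ty = (q is qB)` (classical `decide`, or `ahd q.2 = some (1, ·)`): `L ~r Q.flatMap`, the pairs are `((ε, b^{±i}), (ε, c^l))` by 1., and `a^ε b^{ε i} a^ε c^l = (a b^i a)^ε c^l`.  `q_arcP_rot`.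
* `q_E1_main`: `V = mk g`, `g = Π (a b^i a)^{±1} c^{l}`.  Let `φ a = a b^{-i}` (`Tw φ 1 (b^{-i})`), `β` of `q_fl_act`: `β (φ (a b^i a)) = β (a a b^{-i}) = a⁻¹ a⁻¹ a b^{-i} a⁻¹ = a⁻¹ b^{-i} a⁻¹`, `β (φ c) = c`.
  `σ θ (a b^i a) = a⁻¹ b^{-i} a⁻¹`, `σ θ c = c`.  So `β (φ g) = σ (θ g)` (product over the list) and `qfl U = act β (act φ V) = act σ (act θ V)`.
Difficulty 3.
-/

namespace Pool.Agent.Sims

open FreeGroup (of)

theorem PqE1_word (j : Fin 3) (k : ℤ) : ((of j : FreeGroup (Fin 3)) ^ k).toWord = zpw j k := by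
  rw [← mk_zpw, FreeGroup.toWord_mk]
  exact (CR_zpw j k).1.reduce_eq

theorem PqE1_fo (t : Bool) {k : ℤ} (hk : k ≠ 0) : qfo t (qnat (!t) ^ k) = true := by
  obtain ⟨n, hn⟩ : ∃ n, k.natAbs = n + 1 := ⟨k.natAbs - 1, by omega⟩
  cases t
  · have h1 : qnat (!false) = of 2 := rfl
    unfold qfo ahd
    rw [h1, PqE1_word, zpw, hn, List.replicate_succ]
    rfl
  · have h1 : qnat (!true) = of 1 := rfl
    unfold qfo ahd
    rw [h1, PqE1_word, zpw, hn, List.replicate_succ]
    rfl

theorem PqE1_fo_inv (t : Bool) {k : ℤ} (hk : k ≠ 0) : qfo t (qnat (!t) ^ k)⁻¹ = true := by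
  rw [← zpow_neg]
  exact PqE1_fo t (neg_ne_zero.2 hk)

theorem PqE1_or {u : FreeGroup (Fin 3)} (hu : In12 u) (hu1 : u ≠ 1) (h : qfo false u = false) :
    qfo true u = true := by
  unfold qfo ahd at h ⊢
  have hne : u.toWord ≠ [] := fun h => hu1 (FreeGroup.toWord_eq_nil_iff.1 h)
  unfold In12 at hu
  generalize u.toWord = v at hne h hu
  rcases v with _ | ⟨⟨i, b⟩, v⟩
  · exact absurd rfl hne
  · have h0 := hu (i, b) List.mem_cons_self
    fin_cases i
    · exact absurd rfl h0
    · rfl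
    · simp at h

theorem PqE1_2 {g : FreeGroup (Fin 3)} (h : qfo false g = true) : ∃ e, ahd g = some (2, e) := by
  unfold qfo at h
  rcases hu : ahd g with _ | ⟨i, b⟩
  · simp [hu] at h
  · simp only [hu] at h
    simp only [Bool.false_eq_true, if_false, decide_eq_true_eq] at h
    subst h
    exact ⟨b, rfl⟩

theorem PqE1_1 {g : FreeGroup (Fin 3)} (h : qfo true g = true) : ∃ e, ahd g = some (1, e) := by
  unfold qfo at h
  rcases hu : ahd g with _ | ⟨i, b⟩
  · simp [hu] at h
  · simp only [hu] at h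
    simp only [if_true, decide_eq_true_eq] at h
    subst h
    exact ⟨b, rfl⟩

theorem PqE1_A {l : ℤ} (hl : l ≠ 0) (x : ℤ) :
    qfo false ((of 2 : FreeGroup (Fin 3)) ^ l * of 1 ^ x) = true := by
  have h1 := q_core_fo (t := false) (q_nat_in12 true l) (PqE1_fo false hl) (PqE1_fo_inv false hl)
    0 (-x)
  have e : (of 2 : FreeGroup (Fin 3)) ^ l * of 1 ^ x =
      qnat false ^ (0 : ℤ) * qnat true ^ l * qnat false ^ (-(-x)) := by
    rw [zpow_zero, one_mul, neg_neg]
    rfl
  rw [e, h1]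

theorem PqE1_B {l : ℤ} (hl : l ≠ 0) {y : ℤ} (hy : y ≠ 0) (x : ℤ) :
    qfo true ((of 1 : FreeGroup (Fin 3)) ^ y * of 2 ^ l * of 1 ^ x) = true := by
  have h1 := q_core_fo (t := false) (q_nat_in12 true l) (PqE1_fo false hl) (PqE1_fo_inv false hl)
    y (-x)
  have e : (of 1 : FreeGroup (Fin 3)) ^ y * of 2 ^ l * of 1 ^ x =
      qnat false ^ y * qnat true ^ l * qnat false ^ (-(-x)) := by
    rw [neg_neg]
    rfl
  have hn := q_core_norm (t := false) (q_nat_in12 true l) (PqE1_fo false hl)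
    (PqE1_fo_inv false hl) y (-x)
  rw [← e] at h1 hn
  apply PqE1_or
  · exact In12_mul (In12_mul (q_nat_in12 false y) (q_nat_in12 true l)) (q_nat_in12 false x)
  · intro h2
    rw [h2, FreeGroup.norm_one] at hn
    omega
  · rw [← Bool.not_eq_true, h1]
    exact hy

theorem PqE1_next (u : PS) {L : List (Bool × FreeGroup (Fin 3))} {q r : Bool × FreeGroup (Fin 3)}
    (h : (q, r) ∈ L.zip (L.rotate 1)) : ∃ s, (r, s) ∈ L.zip (L.rotate 1) ∧
      ((q.1, (u q.1)⁻¹ * q.2 * u (!r.1)), (r.1, (u r.1)⁻¹ * r.2 * u (!s.1))) ∈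
        (upd u L).zip ((upd u L).rotate 1) := by
  obtain ⟨n, hn, hqr⟩ := List.mem_iff_getElem.1 h
  have hn' : n < L.length := by
    rw [List.length_zip, List.length_rotate, min_self] at hn
    exact hn
  rw [List.getElem_zip, List.getElem_rotate] at hqr
  have hq : L[n] = q := congrArg Prod.fst hqr
  have hm : (n + 1) % L.length < L.length := Nat.mod_lt _ (by omega)
  have hr : L[(n + 1) % L.length] = r := congrArg Prod.snd hqr
  have hm2 : ((n + 1) % L.length + 1) % L.length < L.length := Nat.mod_lt _ (by omega)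
  refine ⟨L[((n + 1) % L.length + 1) % L.length], ?_, ?_⟩
  · rw [List.mem_iff_getElem]
    refine ⟨(n + 1) % L.length, ?_, ?_⟩
    · rw [List.length_zip, List.length_rotate, min_self]
      exact hm
    · rw [List.getElem_zip, List.getElem_rotate, hr]
  · rw [List.mem_iff_getElem]
    refine ⟨n, ?_, ?_⟩
    · rw [List.length_zip, List.length_rotate, min_self, upd_length]
      exact hn'
    · rw [List.getElem_zip, List.getElem_rotate]
      simp only [upd_length]
      unfold upd
      simp only [List.getElem_zipWith, List.getElem_rotate, hq, hr]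

theorem PqE1_nocc {L : List (Bool × FreeGroup (Fin 3))} (hL : ArcOK L) {i : ℤ} (hi : i ≠ 0)
    (h1 : capC (qcl L (qbc true i 0)) Sb = cnt (qcl L (qbc true i 0)) 0)
    (h2 : capC (qfl (qcl L (qbc true i 0))) Sc = cnt (qcl L (qbc true i 0)) 0)
    {q r : Bool × FreeGroup (Fin 3)} (h : (q, r) ∈ L.zip (L.rotate 1)) (hq : qC q.2)
    (hr : qC r.2) : False := by
  have hup : ∀ p, qbc true i 0 p = of 1 ^ (if p = true then i else 0) := by
    intro p
    unfold qbc
    cases p
    · simp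
    · rfl
  have hu : ∀ p, In12 (qbc true i 0 p) := fun p => by
    rw [hup]
    exact q_nat_in12 false _
  obtain ⟨s, hs, hpair⟩ := PqE1_next (qbc true i 0) h
  have hnp := q_nopat (upd_ArcOK hL hu) h1 h2 hpair
  obtain ⟨l, hl, hl'⟩ := hq
  obtain ⟨m, hm, hm'⟩ := hr
  simp only [hup, hl', hm'] at hnp
  rcases hr1 : r.1 with _ | _
  · rw [hr1] at hnp
    refine hnp.2 ⟨rfl, PqE1_1 ?_, PqE1_2 ?_⟩
    · have e : (((of 1 : FreeGroup (Fin 3)) ^ (if q.1 = true then i else 0))⁻¹ * of 2 ^ l *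
          of 1 ^ (if (!false) = true then i else 0))⁻¹ =
          of 1 ^ (-i) * of 2 ^ (-l) * of 1 ^ (if q.1 = true then i else 0) := by
        rw [if_pos (show (!false) = true from rfl)]
        group
      rw [e]
      exact PqE1_B (neg_ne_zero.2 hl) (neg_ne_zero.2 hi) _
    · have e : ((of 1 : FreeGroup (Fin 3)) ^ (if false = true then i else 0))⁻¹ * of 2 ^ m *
          of 1 ^ (if (!s.1) = true then i else 0) =
          of 2 ^ m * of 1 ^ (if (!s.1) = true then i else 0) := by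
        rw [if_neg (by decide), zpow_zero, inv_one, one_mul]
      rw [e]
      exact PqE1_A hm _
  · rw [hr1] at hnp
    refine hnp.1 ⟨rfl, PqE1_2 ?_, PqE1_1 ?_⟩
    · have e : (((of 1 : FreeGroup (Fin 3)) ^ (if q.1 = true then i else 0))⁻¹ * of 2 ^ l *
          of 1 ^ (if (!true) = true then i else 0))⁻¹ =
          of 2 ^ (-l) * of 1 ^ (if q.1 = true then i else 0) := by
        rw [if_neg (show ¬ ((!true) = true) by decide)]
        group
      rw [e]
      exact PqE1_A (neg_ne_zero.2 hl) _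
    · have e : ((of 1 : FreeGroup (Fin 3)) ^ (if true = true then i else 0))⁻¹ * of 2 ^ m *
          of 1 ^ (if (!s.1) = true then i else 0) =
          of 1 ^ (-i) * of 2 ^ m * of 1 ^ (if (!s.1) = true then i else 0) := by
        rw [if_pos rfl, zpow_neg]
      rw [e]
      exact PqE1_B hm (neg_ne_zero.2 hi) _

theorem PqE1_ne {a b : Bool} (h : a ≠ !b) : b = a := by
  cases a <;> cases b <;> simp_all

theorem PqE1_eq {β : Type*} {T : List β} {f g : β → ℕ} (h : ∀ e ∈ T, f e ≤ g e)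
    (hs : (T.map g).sum ≤ (T.map f).sum) : ∀ e ∈ T, f e = g e := by
  induction T with
  | nil => intro e he; exact absurd he List.not_mem_nil
  | cons e T ih =>
    have h1 := h e List.mem_cons_self
    have h2 : (T.map f).sum ≤ (T.map g).sum :=
      List.sum_le_sum fun x hx => h x (List.mem_cons_of_mem _ hx)
    simp only [List.map_cons, List.sum_cons] at hs
    intro e' he'
    rcases List.mem_cons.1 he' with rfl | he''
    · omega
    · exact ih (fun x hx => h x (List.mem_cons_of_mem _ hx)) (by omega) e' he''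

theorem PqE1_inv (t : Bool) {g : FreeGroup (Fin 3)} (h : qB g ∨ qC g) :
    qfo t g⁻¹ = qfo t g := by
  rcases h with h | h
  · have h' : qB g⁻¹ := by
      obtain ⟨k, hk, rfl⟩ := h
      exact ⟨-k, neg_ne_zero.2 hk, (zpow_neg _ _).symm⟩
    obtain ⟨-, -, a1, a2⟩ := q_x_B h true true
    obtain ⟨-, -, b1, b2⟩ := q_x_B h' true true
    cases t
    · rw [a2, b2]
    · rw [a1, b1]
  · have h' : qC g⁻¹ := by
      obtain ⟨k, hk, rfl⟩ := h
      exact ⟨-k, neg_ne_zero.2 hk, (zpow_neg _ _).symm⟩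
    obtain ⟨-, -, a1, a2⟩ := q_x_C h true true
    obtain ⟨-, -, b1, b2⟩ := q_x_C h' true true
    cases t
    · rw [a1, b1]
    · rw [a2, b2]

theorem PqE1_cnt {h : ℕ} {T : List Arc} (t : Bool) (h1 : ∀ e ∈ T, qB e.2.2 ∨ qC e.2.2)
    (h2 : ∀ p, qe t p 0 T = h) :
    (T.map (fun e => if qfo t e.2.2 = true then 1 else 0)).sum = h := by
  have h3 : qe t true 0 T + qe t false 0 T =
      (T.map (fun e => 2 * (if qfo t e.2.2 = true then 1 else 0))).sum := by
    unfold qe
    rw [← List.sum_map_add]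
    congr 1
    apply List.map_congr_left
    intro e he
    rw [neg_zero, zpow_zero, one_mul, one_mul, PqE1_inv t (h1 e he)]
    rcases e with ⟨p, q, g⟩
    simp only
    cases p <;> cases q <;> by_cases hg : qfo t g = true <;> simp [hg]
  rw [h2, h2, List.sum_map_mul_left] at h3
  omega

theorem PqE1_flat (Q : List ((Bool × FreeGroup (Fin 3)) × (Bool × FreeGroup (Fin 3)))) :
    arcP (Q.flatMap (fun p => [p.1, p.2])) =
      (Q.map (fun p => lett (0, p.1.1) * p.1.2 * (lett (0, p.2.1) * p.2.2))).prod := by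
  induction Q with
  | nil => rfl
  | cons p Q ih =>
    rw [List.map_cons, List.prod_cons, ← ih]
    unfold arcP
    simp [mul_assoc]

theorem q_E1_prod {c : CC} (hc : qOK c) {L : List (Bool × FreeGroup (Fin 3))} (hL : ArcOK L)
    (hV : qTB c (ConjClasses.mk (arcP L))) {i : ℤ} (hi : i ≠ 0)
    (hU : qHS c (qcl L (qbc true i 0))) (hW : qTB c (qfl (qcl L (qbc true i 0)))) :
    ∃ Q : List (Bool × ℤ), ConjClasses.mk (arcP L) = ConjClasses.mk
      ((Q.map (fun q => (of 0 * of 1 ^ i * of 0) ^ (if q.1 then (1 : ℤ) else -1) *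
        of 2 ^ q.2)).prod) := by
  have hev := hc.ev
  obtain ⟨h, h0⟩ : ∃ h, cnt c 0 = 2 * h := ⟨cnt c 0 / 2, by omega⟩
  have hA := q_TB_TA hc hL hV h0
  obtain ⟨hlen, hX⟩ := q_qX hc hL hV.1.1 h0
  have hT := hX.1
  have hu : ∀ p, In12 (qbc true i 0 p) := fun p => by
    unfold qbc
    split_ifs
    · exact q_nat_in12 false _
    · exact q_nat_in12 true _
  have hx : xc (fun _ => true) (ast (qbc true i 0) (tarcs L)) = 2 * h := by
    rw [← q_cap_cl hL hu, cutT_cc, ← q_fl_capP _ (by decide), (q_TB_pr hc hW).1, h0]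
  have hmv := q_TA_mv hT hA hx hi
  have hcU : cnt (qcl L (qbc true i 0)) 0 = cnt c 0 := hU.1.2 0
  have h2 : capC (qfl (qcl L (qbc true i 0))) Sc = cnt (qcl L (qbc true i 0)) 0 := by
    have a1 := hW.2.2
    rw [q_th_capSb, q_th_cnt] at a1
    rw [a1, hcU]
    exact hW.1.1.2 0
  have hnocc : ∀ q r, (q, r) ∈ L.zip (L.rotate 1) → qC q.2 → qC r.2 → False :=
    fun q r => PqE1_nocc hL hi hU.2 h2
  have hmemT : ∀ q r, (q, r) ∈ L.zip (L.rotate 1) → (q.1, !r.1, q.2) ∈ tarcs L := by
    intro q r hqr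
    rw [q_tarcs_zip]
    exact List.mem_map.2 ⟨(q, r), hqr, rfl⟩
  have hone : ∀ q r, (q, r) ∈ L.zip (L.rotate 1) → qB q.2 ∨ qC q.2 := fun q r hqr =>
    hA.one _ (hmemT q r hqr)
  have hone' : ∀ q r, (q, r) ∈ L.zip (L.rotate 1) → qB r.2 ∨ qC r.2 := by
    intro q r hqr
    obtain ⟨s, hs, -⟩ := PqE1_next 1 hqr
    exact hone r s hs
  -- counts
  have hsum : ∀ t, (∀ p, qe t p 0 (tarcs L) = h) →
      (L.map (fun q => if qfo t q.2 = true then 1 else 0)).sum = h := by
    intro t ht
    have a1 := PqE1_cnt t hA.one ht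
    rw [q_tarcs_zip, List.map_map] at a1
    have a2 := q_sum_zip (fun q : Bool × FreeGroup (Fin 3) => if qfo t q.2 = true then 1 else 0)
      (fun _ => 0) L
    have a3 : (L.map (fun _ => 0)).sum = 0 := by simp
    rw [a3, add_zero] at a2
    rw [← a2, ← a1]
    rfl
  have hNB := hsum true hA.nb
  have hNC := hsum false hA.nc
  have hle : ∀ p ∈ L.zip (L.rotate 1), (if qfo false p.1.2 = true then 1 else 0) ≤
      (if qfo true p.2.2 = true then 1 else 0) := by
    rintro ⟨q, r⟩ hqr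
    simp only
    rcases hone q r hqr with h3 | h3
    · rw [(q_x_B h3 true true).2.2.2]
      simp
    · rcases hone' q r hqr with h4 | h4
      · rw [(q_x_B h4 true true).2.2.1, if_pos rfl]
        split_ifs <;> omega
      · exact absurd h4 (fun h4 => hnocc q r hqr h3 h4)
  have heq := PqE1_eq hle (by
    have a1 := q_sum_zip (fun q : Bool × FreeGroup (Fin 3) => if qfo false q.2 = true then 1 else 0)
      (fun _ => 0) L
    have a2 := q_sum_zip (fun _ => 0)
      (fun q : Bool × FreeGroup (Fin 3) => if qfo true q.2 = true then 1 else 0) L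
    have a3 : (L.map (fun _ => 0)).sum = 0 := by simp
    rw [a3, hNC] at a1
    rw [a3, hNB] at a2
    simp only [add_zero] at a1
    simp only [zero_add] at a2
    rw [a1, a2])
  obtain ⟨Q, -, hQ, hQp⟩ := q_pairs (fun q : Bool × FreeGroup (Fin 3) => qfo true q.2) hL.1 (by
    rintro ⟨q, r⟩ hqr
    have h3 := heq _ hqr
    simp only at h3 ⊢
    rcases hone q r hqr with h4 | h4
    · rw [(q_x_B h4 true true).2.2.2] at h3
      rw [(q_x_B h4 true true).2.2.1]
      intro h5
      rw [← h5] at h3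
      simp at h3
    · rw [(q_x_C h4 true true).2.2.1] at h3
      rw [(q_x_C h4 true true).2.2.2]
      intro h5
      rw [← h5] at h3
      simp at h3)
  have hex : ∀ p : (Bool × FreeGroup (Fin 3)) × (Bool × FreeGroup (Fin 3)), ∃ l : ℤ,
      p ∈ Q → p.2.1 = p.1.1 ∧ p.1.2 = of 1 ^ (if p.1.1 = true then i else -i) ∧
        p.2.2 = of 2 ^ l := by
    rintro ⟨q, r⟩
    by_cases hp : (q, r) ∈ Q
    · obtain ⟨a1, a2, a3⟩ := hQp _ hp
      simp only at a1 a2
      have b1 : qB q.2 := by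
        rcases hone q r a3 with h4 | h4
        · exact h4
        · rw [(q_x_C h4 true true).2.2.2] at a1
          exact absurd a1 (by decide)
      have b2 : qC r.2 := by
        rcases hone' q r a3 with h4 | h4
        · rw [(q_x_B h4 true true).2.2.1] at a2
          exact absurd a2 (by decide)
        · exact h4
      obtain ⟨c1, c2⟩ := hmv _ (hmemT q r a3) b1
      obtain ⟨l, -, hl⟩ := b2
      refine ⟨l, fun _ => ⟨?_, c2, hl⟩⟩
      exact PqE1_ne c1
    · exact ⟨0, fun h => absurd h hp⟩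
  choose f hf using hex
  refine ⟨Q.map (fun p => (p.1.1, f p)), ?_⟩
  rw [q_arcP_rot hQ, PqE1_flat, List.map_map]
  congr 2
  apply List.map_congr_left
  intro p hp
  obtain ⟨a1, a2, a3⟩ := hf p hp
  simp only [Function.comp_apply]
  rw [a1, a2, a3]
  cases p.1.1
  · have e : (lett ((0 : Fin 3), false)) = (of 0)⁻¹ := lett_false 0
    rw [e, if_neg (by decide), if_neg (by decide)]
    group
  · have e : (lett ((0 : Fin 3), true)) = of 0 := rfl
    rw [e, if_pos rfl, if_pos rfl]
    group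

theorem q_E1_main {c V U : CC} (hc : qOK c) (hV : qTB c V) {i : ℤ} (hi : i ≠ 0)
    (hT : qT 1 (of 1 ^ (-i)) V U) (hU : qHS c U) (hW : qTB c (qfl U)) :
    qfl U = act (flp (fun k => decide (k ≠ 1))).aut (act qth.aut V) := by
  obtain ⟨h, L, -, -, hL, -, rfl, -⟩ := q_setup hc hV.1.1
  have hu : ∀ p, In12 (qbc true i 0 p) := fun p => by
    unfold qbc
    split_ifs
    · exact q_nat_in12 false _
    · exact q_nat_in12 true _
  have h1 := q_cl_T hL hu
  have e1 : qbc true i 0 false = 1 := by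
    unfold qbc
    simp
  have e2 : (qbc true i 0 true)⁻¹ = of 1 ^ (-i) := by
    unfold qbc
    rw [if_pos rfl, zpow_neg]
  rw [e1, e2] at h1
  have hUe := q_T_uniq hT h1
  subst hUe
  obtain ⟨Q, hQ⟩ := q_E1_prod hc hL hV hi hU hW
  obtain ⟨β, b0, b1, b2, hβ⟩ := q_fl_act
  obtain ⟨φ, ⟨-, -, p0, p1⟩, hφ⟩ := hT
  rw [hβ, hφ, hQ, act_mk, act_mk, act_mk, act_mk]
  congr 1
  rw [map_list_prod, map_list_prod, map_list_prod, map_list_prod, List.map_map, List.map_map,
    List.map_map, List.map_map]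
  congr 1
  apply List.map_congr_left
  intro q _
  simp only [Function.comp_apply, map_mul, map_zpow]
  have c0 : φ (of 1) = of 1 := by
    have := p1 (of 1 ^ (1 : ℤ)) (q_nat_in12 false 1)
    rwa [zpow_one] at this
  have c1 : φ (of 2) = of 2 := by
    have := p1 (of 2 ^ (1 : ℤ)) (q_nat_in12 true 1)
    rwa [zpow_one] at this
  have t0 : qth.aut (of 0) = (of 0)⁻¹ := by
    unfold qth
    rw [flp_of]
    rfl
  have t1 : qth.aut (of 1) = of 1 := by
    unfold qth
    rw [flp_of]
    rfl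
  have t2 : qth.aut (of 2) = of 2 := by
    unfold qth
    rw [flp_of]
    rfl
  have s0 : (flp (fun k => decide (k ≠ (1 : Fin 3)))).aut (of 0) = of 0 := by
    rw [flp_of]
    rfl
  have s1 : (flp (fun k => decide (k ≠ (1 : Fin 3)))).aut (of 1) = (of 1)⁻¹ := by
    rw [flp_of]
    rfl
  have s2 : (flp (fun k => decide (k ≠ (1 : Fin 3)))).aut (of 2) = of 2 := by
    rw [flp_of]
    rfl
  have hp0 : φ (of 0) = of 0 * of 1 ^ (-i) := by
    rw [p0, one_mul]
  simp only [hp0, c0, c1, t0, t1, t2, s0, s1, s2, map_mul, map_zpow, b0, b1, b2, map_inv]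
  simp only [conj_zpow]
  congr 2
  group

end Pool.Agent.Sims
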