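import Pool.Agent.Sims.PqHc

/-!
# Module `PqExit` : crossing a component with constant corner

`T = tarcs L`.  The extended states `(u', qmx t p0)`, `(u', const t)` and `(u' * qpw t v, qmx t p1)` are `EOK`.  Then the half-states of the first and of the last are joined by steps.
Proof.  `T' = ast u' T`, `TOK h T'` (`TOK_st`), `x = qnat t`, `i = v p1`, `w = u' * ps p1 (x^i)`.
1. `xc (const t) (ast (qpw t v) T') = 2h` (`q_shift_x`), so `q_exit` for `ast (qpw t v) T'` (`TOK_st`, `Lv2_st`) and `qmx t p1` gives `qe t p1 0 (ast (qpw t v) T') = h`, i.e. `qe t p1 i T' = h` (`q_shift`).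
2. `q_lev`: `Lv2 T' (ps p1 (x^i))`, so `w` is level (`Lv2_st`).  `ps p1 (x^i) = qpw t (fun q => if q = p1 then i else 0)`; `q_shift_x`: `xc (const t) (ast w T) = 2h`; `q_shift`: `qe t p1 0 (ast w T) = qe t p1 i T' = h`; `q_exit`:
   `(w, qmx t p1)` is `EOK`.
3. `u' * qpw t v = w * ps (!p1) (x^{v (!p1)})`: `q_step_rm` with the corner `qmx t p1`: a room step from `(w, qmx t p1)` to the last state.
4. `p0 = p1`: `i = 0`: `w = u'`; `i ≠ 0`: `q_step_sp`.
   `p0 = !p1`: `qe t p0 0 (ast w T) = qe t p0 0 T' = h` (`q_shift`, and `q_exit` for `T'`), so `(w, qmx t p0)` is `EOK`; `q_step_rm` with the corner `qmx t p0` (the moved port is `!p0 = p1`) joins `(u', qmx t p0)` and `(w, qmx t p0)`;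
   `q_step_sw` joins `(w, qmx t p0)` and `(w, qmx t p1)`.
Difficulty 2-3.
-/

namespace Pool.Agent.Sims

open FreeGroup (of)

theorem PqExit_ps (t p1 : Bool) (i : ℤ) :
    ps p1 (qnat t ^ i) = qpw t (fun q => if q = p1 then i else 0) := by
  funext q
  unfold ps qpw
  by_cases h : q = p1
  · simp [h]
  · simp [h]

theorem PqExit_ps0 (p : Bool) : ps p (1 : FreeGroup (Fin 3)) = 1 := by
  funext q
  unfold ps
  by_cases h : q = p
  · simp [h]
  · simp [h]

theorem PqExit_split (t p1 : Bool) (v : Bool → ℤ) (u' : PS) :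
    u' * qpw t v = u' * ps p1 (qnat t ^ (v p1)) * ps (!p1) (qnat t ^ (v (!p1))) := by
  funext q
  simp only [Pi.mul_apply]
  unfold ps qpw
  cases p1 <;> cases q <;> simp

theorem PqExit_mx (t p : Bool) : qmx t p true ≠ qmx t p false := by
  unfold qmx
  cases t <;> cases p <;> simp

theorem PqExit_mx2 (t p : Bool) : qmx t p true ≠ qmx t (!p) true := by
  unfold qmx
  cases t <;> cases p <;> simp

theorem PqExit_eq (p1 p0 : Bool) (hp : p0 ≠ p1) : p0 = !p1 := by
  cases p0 <;> cases p1 <;> simp_all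

theorem q_cross {c : CC} (hc : qOK c) {L : List (Bool × FreeGroup (Fin 3))} (hL : ArcOK L)
    (hV : Sm c (ConjClasses.mk (arcP L))) {h : ℕ} (h0 : cnt c 0 = 2 * h) {t p0 p1 : Bool}
    {u' : PS} {v : Bool → ℤ} (h1 : EOK h (tarcs L) (u', qmx t p0))
    (h1' : EOK h (tarcs L) (u', fun _ => t))
    (h2 : EOK h (tarcs L) (u' * qpw t v, qmx t p1)) :
    Relation.ReflTransGen (qG c) (qhc L (u', qmx t p0)) (qhc L (u' * qpw t v, qmx t p1)) := by
  have hT : TOK h (tarcs L) := (q_qX hc hL hV h0).2.1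
  obtain ⟨hu, hx0⟩ := h1
  obtain ⟨-, hxt⟩ := h1'
  obtain ⟨huv, hx1⟩ := h2
  simp only at hu hx0 hxt huv hx1
  have hT' : TOK h (ast u' (tarcs L)) := TOK_st hT hu
  have hlv : Lv2 (ast u' (tarcs L)) (qpw t v) := (Lv2_st hu).2 huv
  have hT'' : TOK h (ast (qpw t v) (ast u' (tarcs L))) := TOK_st hT' hlv
  have e1 : qe t p1 (v p1) (ast u' (tarcs L)) = h := by
    have h3 := q_exit hT'' t p1
    rw [q_shift_x hT'.in12, hxt, q_shift hT'.in12, ast_ast, hx1, zero_add] at h3
    omega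
  have hlw : Lv2 (ast u' (tarcs L)) (ps p1 (qnat t ^ (v p1))) := q_lev hT' e1
  have hw : Lv2 (tarcs L) (u' * ps p1 (qnat t ^ (v p1))) := (Lv2_st hu).1 hlw
  have hW : TOK h (ast (u' * ps p1 (qnat t ^ (v p1))) (tarcs L)) := TOK_st hT hw
  have hWe : ast (u' * ps p1 (qnat t ^ (v p1))) (tarcs L) =
      ast (qpw t (fun q => if q = p1 then v p1 else 0)) (ast u' (tarcs L)) := by
    rw [ast_ast, PqExit_ps]
  have hWt : xc (fun _ => t) (ast (u' * ps p1 (qnat t ^ (v p1))) (tarcs L)) = 2 * h := by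
    rw [hWe, q_shift_x hT'.in12, hxt]
  have hW1 : xc (qmx t p1) (ast (u' * ps p1 (qnat t ^ (v p1))) (tarcs L)) = 2 * h := by
    have h3 := q_exit hW t p1
    rw [hWt, hWe, q_shift hT'.in12] at h3
    simp only [if_true, zero_add] at h3
    rw [e1] at h3
    rw [hWe]
    omega
  have hE1 : EOK h (tarcs L) (u' * ps p1 (qnat t ^ (v p1)), qmx t p1) := ⟨hw, hW1⟩
  -- the last step
  have hlast : Relation.ReflTransGen (qG c) (qhc L (u' * ps p1 (qnat t ^ (v p1)), qmx t p1))
      (qhc L (u' * qpw t v, qmx t p1)) := by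
    rw [PqExit_split t p1 v u']
    refine Relation.ReflTransGen.single (Or.inl ?_)
    refine q_step_rm hc hL hV h0 hE1 ⟨?_, ?_⟩
    · simp only
      rw [← PqExit_split t p1 v u']
      exact huv
    · simp only
      rw [← PqExit_split t p1 v u']
      exact hx1
  refine Relation.ReflTransGen.trans ?_ hlast
  by_cases hp : p0 = p1
  · subst hp
    by_cases hi : v p0 = 0
    · rw [hi, zpow_zero, PqExit_ps0, mul_one]
    · refine Relation.ReflTransGen.single (Or.inr ?_)
      exact q_step_sp hc hL hV h0 hi ⟨hu, hx0⟩ ⟨hu, hxt⟩ hE1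
  · have hp' : p0 = !p1 := PqExit_eq p1 p0 hp
    have e2 : qe t p0 0 (ast u' (tarcs L)) = h := by
      have h3 := q_exit hT' t p0
      rw [hxt, hx0] at h3
      omega
    have hW0 : xc (qmx t p0) (ast (u' * ps p1 (qnat t ^ (v p1))) (tarcs L)) = 2 * h := by
      have h3 := q_exit hW t p0
      rw [hWt, hWe, q_shift hT'.in12] at h3
      simp only [hp, if_false, zero_add] at h3
      rw [e2] at h3
      rw [hWe]
      omega
    have hE0 : EOK h (tarcs L) (u' * ps p1 (qnat t ^ (v p1)), qmx t p0) := ⟨hw, hW0⟩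
    have hpp : (!p0) = p1 := by rw [hp', Bool.not_not]
    have hrm : qRm c (qhc L (u', qmx t p0)) (qhc L (u' * ps p1 (qnat t ^ (v p1)), qmx t p0)) := by
      have h3 := q_step_rm hc hL hV h0 (t := t) (p := p0) (u := u') (k := v p1) ⟨hu, hx0⟩
        (by rw [hpp]; exact hE0)
      rw [hpp] at h3
      exact h3
    have hsw : qSp c (qhc L (u' * ps p1 (qnat t ^ (v p1)), qmx t p0))
        (qhc L (u' * ps p1 (qnat t ^ (v p1)), qmx t p1)) := by
      refine q_step_sw hc hL hV h0 (PqExit_mx t p0) (PqExit_mx t p1) ?_ hE0 hE1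
      rw [hp']
      exact (PqExit_mx2 t p1).symm
    have hg1 : qG c (qhc L (u', qmx t p0)) (qhc L (u' * ps p1 (qnat t ^ (v p1)), qmx t p0)) :=
      Or.inl hrm
    have hg2 : qG c (qhc L (u' * ps p1 (qnat t ^ (v p1)), qmx t p0))
        (qhc L (u' * ps p1 (qnat t ^ (v p1)), qmx t p1)) := Or.inr hsw
    exact (Relation.ReflTransGen.single hg1).tail hg2

end Pool.Agent.Sims
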