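import Pool.Agent.Sims.PqW

/-!
# Module `PqF` : counting ends with a given leading exponent

`x = qnat t`.  `qe t p k T` counts the ends at the port `p` whose label `g` (read from this end) has the property: `x^{-k} g` begins with a foreign letter; with `q_core`: this holds iff `g = x^d m x^{-d'}` with `d = k` (`q_core_fo` for
`x^{d-k} m x^{-d'}`), and never for `g = x^m` (`q_pow_fo`).  The inverse label is `x^{d'} m⁻¹ x^{-d}`.  So for every arc (`q_core`) both summands of `qe` are known for all `k`.  All statements are sums of statements for one arc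
(`List.sum_map_add`, induction on `T`, or `PhB_sum3`, `PhA_sum_le`).
* `q_shift`: the label at a `p`-end becomes `x^{-e p} g x^{e q}`: `x^{-k} (x^{-e p} g x^{e q})` begins with a foreign letter iff `d = k + e p`.  `q_shift_x`: `q_core_x`, `q_pow_x`.
* `q_end`: a `p`-end has a nontrivial label beginning with `(1, ·)` or `(2, ·)`, or a trivial label; a trivial arc has different ports (`TOK.ntr`), so exactly one `p`-end.  Sum: `ane p T = 2h`.
* `q_exit`, `t = false`: `xc_move` with `τ = fun _ => false` at `p`; `anz p (2,true) T + anz p (2,false) T = qe false p 0 T`.  `t = true`: `xc_move` with `τ = qmx true p` at `p` (`τ p = false`, `τ (!p) = true`) gives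
  `xc (const true) T + 2 (anz p (2,·)) + 2 anq T = xc (qmx true p) T + 2h`, with `anz p (2,true) T + anz p (2,false) T = qe false p 0 T` and `q_end`: `qe true p 0 T + qe false p 0 T + anq T = 2h`.  (The functions
  `fun q => if q = p then true else τ q` and the constant one agree: `funext`, cases.)
* `q_lev`: for every arc: `|alab (ps p x^i) e| + 2 |i| (number of p-ends with leading exponent i) ≤ |e| + |i| (number of p-ends)`: by `q_core_norm`: the leading exponent `d` of a `p`-end becomes `d - i`: `|d - i| = |d| - |i|` if `d = i`,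
  `≤ |d| + |i|` always; for powers of `x`: `|m - i| ≤ |m| + |i|` (one `p`-end), `|m| = |m|` (two).  Sum: `atl (ast (ps p x^i) T) + 2 |i| h ≤ atl T + 2h |i|`, so `≤ atl T`; `TOK.min` gives equality.
* `q_cap3`: for one arc the three counts are at most 2 and `0` for powers of `x`, `xarc (const t) ≥ 2` otherwise (`q_x_ge`, `q_core_x`): at one `p`-end only one of `k ≠ k'` is the leading exponent.
* `q_end3`: at a `p`-end at most one of the three (leading exponent `k`, leading exponent `k'`, trivial label) holds.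
Difficulty 3.
-/

namespace Pool.Agent.Sims

open FreeGroup (of)

/-- contribution of one arc -/
def PqF_t (t p : Bool) (k : ℤ) (e : Arc) : ℕ :=
  (if e.1 = p ∧ qfo t (qnat t ^ (-k) * e.2.2) = true then 1 else 0) +
    (if e.2.1 = p ∧ qfo t (qnat t ^ (-k) * (e.2.2)⁻¹) = true then 1 else 0)

theorem PqF_qe (t p : Bool) (k : ℤ) (T : List Arc) : qe t p k T = (T.map (PqF_t t p k)).sum := rfl

/-- the leading exponents of a label -/
theorem PqF_dat {g : FreeGroup (Fin 3)} (hg : In12 g) (t : Bool) :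
    (∃ m : ℤ, g = qnat t ^ m ∧ (∀ k : ℤ, qfo t (qnat t ^ (-k) * g) = false) ∧
      ∀ k : ℤ, qfo t (qnat t ^ (-k) * g⁻¹) = false) ∨
    ∃ (d d' : ℤ) (m : FreeGroup (Fin 3)), In12 m ∧ qfo t m = true ∧ qfo t m⁻¹ = true ∧
      g = qnat t ^ d * m * qnat t ^ (-d') ∧
      (∀ k : ℤ, qfo t (qnat t ^ (-k) * g) = true ↔ k = d) ∧
      ∀ k : ℤ, qfo t (qnat t ^ (-k) * g⁻¹) = true ↔ k = d' := by
  rcases q_core hg t with ⟨m, rfl⟩ | ⟨d, d', m, h1, h2, h3, rfl⟩
  · left
    refine ⟨m, rfl, fun k => ?_, fun k => ?_⟩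
    · rw [← zpow_add]
      exact q_pow_fo t _
    · rw [← zpow_neg, ← zpow_add]
      exact q_pow_fo t _
  · right
    refine ⟨d, d', m, h1, h2, h3, rfl, fun k => ?_, fun k => ?_⟩
    · have e : qnat t ^ (-k) * (qnat t ^ d * m * qnat t ^ (-d')) =
          qnat t ^ (d - k) * m * qnat t ^ (-d') := by
        rw [sub_eq_neg_add, zpow_add]
        group
      rw [e, q_core_fo h1 h2 h3]
      constructor <;> intro h <;> omega
    · have e : qnat t ^ (-k) * (qnat t ^ d * m * qnat t ^ (-d'))⁻¹ =
          qnat t ^ (d' - k) * m⁻¹ * qnat t ^ (-d) := by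
        rw [sub_eq_neg_add, zpow_add]
        group
      rw [e, q_core_fo (In12_inv h1) h3 (by rw [inv_inv]; exact h2)]
      constructor <;> intro h <;> omega

theorem PqF_right {g : FreeGroup (Fin 3)} (hg : In12 g) (t : Bool) (a b : ℤ) :
    qfo t (qnat t ^ a * g * qnat t ^ b) = qfo t (qnat t ^ a * g) := by
  rcases q_core hg t with ⟨m, rfl⟩ | ⟨d, d', m, h1, h2, h3, rfl⟩
  · rw [← zpow_add, ← zpow_add, q_pow_fo, q_pow_fo]
  · have e1 : qnat t ^ a * (qnat t ^ d * m * qnat t ^ (-d')) * qnat t ^ b =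
        qnat t ^ (a + d) * m * qnat t ^ (-(d' - b)) := by
      rw [zpow_add, neg_sub, sub_eq_add_neg, zpow_add]
      group
    have e2 : qnat t ^ a * (qnat t ^ d * m * qnat t ^ (-d')) =
        qnat t ^ (a + d) * m * qnat t ^ (-d') := by
      rw [zpow_add]
      group
    rw [e1, e2, Bool.eq_iff_iff, q_core_fo h1 h2 h3, q_core_fo h1 h2 h3]

theorem PqF_alab (t : Bool) (v : Bool → ℤ) (e : Arc) :
    alab (qpw t v) e = qnat t ^ (-v e.1) * e.2.2 * qnat t ^ (v e.2.1) := by
  unfold alab qpw
  rw [zpow_neg]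

theorem q_shift {T : List Arc} (hT : ∀ e ∈ T, In12 e.2.2) (t : Bool) (v : Bool → ℤ) (p : Bool)
    (k : ℤ) : qe t p k (ast (qpw t v) T) = qe t p (k + v p) T := by
  rw [PqF_qe, PqF_qe, ast, List.map_map]
  congr 1
  apply List.map_congr_left
  intro e he
  have h12 := hT e he
  have h12' := In12_inv h12
  change (if e.1 = p ∧ qfo t (qnat t ^ (-k) * alab (qpw t v) e) = true then 1 else 0) +
    (if e.2.1 = p ∧ qfo t (qnat t ^ (-k) * (alab (qpw t v) e)⁻¹) = true then 1 else 0) =
    (if e.1 = p ∧ qfo t (qnat t ^ (-(k + v p)) * e.2.2) = true then 1 else 0) +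
    (if e.2.1 = p ∧ qfo t (qnat t ^ (-(k + v p)) * (e.2.2)⁻¹) = true then 1 else 0)
  have h1 : (e.1 = p ∧ qfo t (qnat t ^ (-k) * alab (qpw t v) e) = true) ↔
      (e.1 = p ∧ qfo t (qnat t ^ (-(k + v p)) * e.2.2) = true) := by
    constructor
    · rintro ⟨h, h'⟩
      refine ⟨h, ?_⟩
      rw [← PqF_right h12 t (-(k + v p)) (v e.2.1), ← h']
      congr 1
      rw [PqF_alab, h, neg_add, zpow_add]
      group
    · rintro ⟨h, h'⟩
      refine ⟨h, ?_⟩
      rw [← PqF_right h12 t (-(k + v p)) (v e.2.1)] at h'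
      rw [← h']
      congr 1
      rw [PqF_alab, h, neg_add, zpow_add]
      group
  have h2 : (e.2.1 = p ∧ qfo t (qnat t ^ (-k) * (alab (qpw t v) e)⁻¹) = true) ↔
      (e.2.1 = p ∧ qfo t (qnat t ^ (-(k + v p)) * (e.2.2)⁻¹) = true) := by
    constructor
    · rintro ⟨h, h'⟩
      refine ⟨h, ?_⟩
      rw [← PqF_right h12' t (-(k + v p)) (v e.1), ← h']
      congr 1
      rw [PqF_alab, h, neg_add, zpow_add]
      group
    · rintro ⟨h, h'⟩
      refine ⟨h, ?_⟩
      rw [← PqF_right h12' t (-(k + v p)) (v e.1)] at h'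
      rw [← h']
      congr 1
      rw [PqF_alab, h, neg_add, zpow_add]
      group
  simp only [h1, h2]

theorem q_shift_x {T : List Arc} (hT : ∀ e ∈ T, In12 e.2.2) (t : Bool) (v : Bool → ℤ) :
    xc (fun _ => t) (ast (qpw t v) T) = xc (fun _ => t) T := by
  unfold xc
  rw [ast, List.map_map]
  congr 1
  apply List.map_congr_left
  intro e he
  change xarc (fun _ => t) e.1 e.2.1 (alab (qpw t v) e) = xarc (fun _ => t) e.1 e.2.1 e.2.2
  rw [PqF_alab]
  rcases q_core (hT e he) t with ⟨m, hm⟩ | ⟨d, d', m, h1, h2, h3, hm⟩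
  · rw [hm, ← zpow_add, ← zpow_add, q_pow_x, q_pow_x]
  · have e1 : qnat t ^ (-v e.1) * (qnat t ^ d * m * qnat t ^ (-d')) * qnat t ^ (v e.2.1) =
        qnat t ^ (-v e.1 + d) * m * qnat t ^ (-(d' - v e.2.1)) := by
      rw [zpow_add, neg_sub, sub_eq_neg_add, zpow_add]
      group
    rw [hm, e1, q_core_x h1 h2 h3, q_core_x h1 h2 h3]

theorem PqF_tf {g : FreeGroup (Fin 3)} (hg : In12 g) (h1 : g ≠ 1) : qfo false g = !(qfo true g) := by
  have hne : g.toWord ≠ [] := fun h => h1 (FreeGroup.toWord_eq_nil_iff.1 h)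
  unfold qfo ahd
  cases h : g.toWord with
  | nil => exact absurd h hne
  | cons x v =>
    have h0 : x.1 ≠ 0 := hg x (by rw [h]; exact List.mem_cons_self)
    simp only [List.head?_cons]
    revert h0
    generalize x.1 = i
    revert i
    decide

theorem q_end {h : ℕ} {T : List Arc} (hT : TOK h T) (p : Bool) :
    qe true p 0 T + qe false p 0 T + anq T = 2 * h := by
  rw [← hT.ends p]
  unfold ane anq
  rw [PqF_qe, PqF_qe, ← List.sum_map_add, ← List.sum_map_add]
  congr 1
  apply List.map_congr_left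
  intro e he
  have h12 := hT.in12 e he
  have hn := hT.ntr e he
  unfold PqF_t
  simp only [neg_zero, zpow_zero, one_mul]
  by_cases h1 : e.2.2 = 1
  · have hne : e.1 ≠ e.2.1 := fun h => hn h h1
    have e1 : qfo true (1 : FreeGroup (Fin 3)) = false := by
      have := q_pow_fo true 0
      rwa [zpow_zero] at this
    have e2 : qfo false (1 : FreeGroup (Fin 3)) = false := by
      have := q_pow_fo false 0
      rwa [zpow_zero] at this
    rw [h1, inv_one, e1, e2]
    revert hne
    generalize e.1 = a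
    generalize e.2.1 = b
    revert a b p
    decide
  · have h1' : (e.2.2)⁻¹ ≠ 1 := fun h => h1 (inv_eq_one.1 h)
    rw [PqF_tf h12 h1, PqF_tf (In12_inv h12) h1', if_neg h1]
    generalize e.1 = a
    generalize e.2.1 = b
    generalize qfo true e.2.2 = x
    generalize qfo true (e.2.2)⁻¹ = y
    revert a b x y p
    decide

theorem PqF_first (t : Bool) {g : FreeGroup (Fin 3)} (s : Bool) (h : g = 1 → s = t) (hg : In12 g) :
    PhB_x (!t) g.toWord s + 2 * (if qfo t g = true then 1 else 0) = PhB_x t g.toWord s + 1 := by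
  unfold qfo ahd
  cases hw : g.toWord with
  | nil =>
    have h1 := h (FreeGroup.toWord_eq_nil_iff.1 hw)
    subst h1
    cases s <;> simp [PhB_x]
  | cons x v =>
    have h0 : x.1 ≠ 0 := hg x (by rw [hw]; exact List.mem_cons_self)
    simp only [List.head?_cons, PhB_x]
    unfold PhB_sd
    obtain ⟨i, b⟩ := x
    have h12 : i = 1 ∨ i = 2 := by
      have : ∀ i : Fin 3, i ≠ 0 → i = 1 ∨ i = 2 := by decide
      exact this i h0
    rcases h12 with rfl | rfl <;> cases t <;> simp <;> omega

theorem PqF_exit1 {h : ℕ} {T : List Arc} (hT : TOK h T) (t p : Bool) (e : Arc) (he : e ∈ T) :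
    xarc (qmx t p) e.1 e.2.1 e.2.2 + 2 * PqF_t t p 0 e = xarc (fun _ => t) e.1 e.2.1 e.2.2 +
      ((if e.1 = p then 1 else 0) + (if e.2.1 = p then 1 else 0)) := by
  have h12 := hT.in12 e he
  have h12' := In12_inv h12
  have hn := hT.ntr e he
  rw [PhB_xarc h12, PhB_xarc h12]
  unfold PqF_t qmx
  simp only [neg_zero, zpow_zero, one_mul]
  by_cases ha : e.1 = p <;> by_cases hb : e.2.1 = p
  · have h1 : e.2.2 ≠ 1 := hn (ha.trans hb.symm)
    have h1' : (e.2.2)⁻¹ ≠ 1 := fun h => h1 (inv_eq_one.1 h)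
    simp only [ha, hb, if_true, true_and]
    have e1 := PqF_first t (g := e.2.2) (!t) (fun h => absurd h h1) h12
    have e2 := PqF_first t (g := (e.2.2)⁻¹) t (fun _ => rfl) h12'
    have e3 := PhB_x_symm h12 t (!t)
    have e4 := PhB_x_symm h12 t t
    omega
  · simp only [ha, hb, if_true, if_false, true_and, false_and]
    have e1 := PqF_first t (g := e.2.2) t (fun _ => rfl) h12
    omega
  · simp only [ha, hb, if_true, if_false, true_and, false_and]
    have e2 := PqF_first t (g := (e.2.2)⁻¹) t (fun _ => rfl) h12'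
    have e3 := PhB_x_symm h12 t (!t)
    have e4 := PhB_x_symm h12 t t
    omega
  · simp only [ha, hb, if_false, false_and]

theorem q_exit {h : ℕ} {T : List Arc} (hT : TOK h T) (t p : Bool) :
    xc (qmx t p) T + 2 * qe t p 0 T = xc (fun _ => t) T + 2 * h := by
  rw [← hT.ends p]
  unfold ane xc
  rw [PqF_qe, ← List.sum_map_mul_left, ← List.sum_map_add, ← List.sum_map_add]
  congr 1
  apply List.map_congr_left
  intro e he
  exact PqF_exit1 hT t p e he

theorem PqF_lev1 {t p : Bool} {i : ℤ} (e : Arc) (h12 : In12 e.2.2) :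
    (alab (ps p (qnat t ^ i)) e).norm + 2 * i.natAbs * PqF_t t p i e ≤ (e.2.2).norm +
      i.natAbs * ((if e.1 = p then 1 else 0) + (if e.2.1 = p then 1 else 0)) := by
  have hal : alab (ps p (qnat t ^ i)) e = qnat t ^ (-(if e.1 = p then i else 0)) * e.2.2 *
      qnat t ^ (if e.2.1 = p then i else 0) := by
    unfold alab ps
    split_ifs <;> simp
  rw [hal]
  unfold PqF_t
  rcases PqF_dat h12 t with ⟨m, hm, f1, f2⟩ | ⟨d, d', m, h1, h2, h3, hm, f1, f2⟩
  · simp only [f1, f2, and_false, if_false, Bool.false_eq_true]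
    rw [hm, ← zpow_add, ← zpow_add, q_pow_norm, q_pow_norm]
    split_ifs <;> simp <;> omega
  · simp only [f1, f2]
    have e1 : qnat t ^ (-(if e.1 = p then i else 0)) * e.2.2 * qnat t ^ (if e.2.1 = p then i else 0)
        = qnat t ^ (d - (if e.1 = p then i else 0)) * m *
          qnat t ^ (-(d' - (if e.2.1 = p then i else 0))) := by
      rw [hm, sub_eq_neg_add, zpow_add, neg_sub, sub_eq_neg_add, zpow_add]
      group
    rw [e1, q_core_norm h1 h2 h3, hm, q_core_norm h1 h2 h3]
    by_cases ha : e.1 = p <;> by_cases hb : e.2.1 = p <;>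
      simp only [ha, hb, true_and, false_and, if_true, if_false] <;> (try split_ifs) <;> omega

theorem q_lev {h : ℕ} {T : List Arc} (hT : TOK h T) {t p : Bool} {i : ℤ}
    (hi : qe t p i T = h) : Lv2 T (ps p (qnat t ^ i)) := by
  have hin : ∀ q, In12 ((ps p (qnat t ^ i) : PS) q) := by
    intro q
    unfold ps
    split_ifs
    · exact q_nat_in12 t i
    · exact In12_one
  refine ⟨hin, le_antisymm ?_ (hT.min _ hin)⟩
  have h1 : ((ast (ps p (qnat t ^ i)) T).map (fun e => e.2.2.norm)).sum +
      2 * i.natAbs * (T.map (PqF_t t p i)).sum ≤ (T.map (fun e => (e.2.2).norm)).sum +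
      i.natAbs * (T.map (fun e : Arc => (if e.1 = p then 1 else 0) +
        (if e.2.1 = p then 1 else 0))).sum := by
    rw [ast, List.map_map, ← List.sum_map_mul_left, ← List.sum_map_mul_left, ← List.sum_map_add,
      ← List.sum_map_add]
    apply List.sum_le_sum
    intro e he
    exact PqF_lev1 e (hT.in12 e he)
  have h2 : (T.map (fun e : Arc => (if e.1 = p then 1 else 0) +
        (if e.2.1 = p then 1 else 0))).sum = 2 * h := hT.ends p
  rw [PqF_qe] at hi
  rw [hi, h2] at h1
  change ((ast (ps p (qnat t ^ i)) T).map (fun e => e.2.2.norm)).sum ≤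
    (T.map (fun e => (e.2.2).norm)).sum
  have h3 : 2 * i.natAbs * h = i.natAbs * (2 * h) := by ring
  omega

theorem q_cap3 {T : List Arc} (hT : ∀ e ∈ T, In12 e.2.2) (t p : Bool) {k k' : ℤ}
    (hk : k ≠ k') (k'' : ℤ) :
    qe t p k T + qe t p k' T + qe t (!p) k'' T ≤ xc (fun _ => t) T := by
  unfold xc
  rw [PqF_qe, PqF_qe, PqF_qe, ← List.sum_map_add, ← List.sum_map_add]
  apply List.sum_le_sum
  intro e he
  have h12 := hT e he
  unfold PqF_t
  rcases PqF_dat h12 t with ⟨m, hm, f1, f2⟩ | ⟨d, d', m, h1, h2, h3, hm, f1, f2⟩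
  · simp only [f1, f2, and_false, if_false, Bool.false_eq_true]
    omega
  · simp only [f1, f2]
    have h4 : 2 ≤ xarc (fun _ => t) e.1 e.2.1 e.2.2 := by
      rw [hm, q_core_x h1 h2 h3]
      exact q_x_ge h1 h2 h3 _ _
    refine le_trans ?_ h4
    have nn : ∀ a b : Bool, (a = !b) ↔ ¬ (a = b) := by decide
    have na := nn e.1 p
    have nb := nn e.2.1 p
    simp only [na, nb]
    by_cases ha : e.1 = p <;> by_cases hb : e.2.1 = p <;>
      simp only [ha, hb, true_and, false_and, if_false, not_true_eq_false, not_false_eq_true] <;>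
      (try split_ifs) <;> omega

theorem q_end3 {h : ℕ} {T : List Arc} (hT : TOK h T) (t p : Bool) {k k' : ℤ} (hk : k ≠ k') :
    qe t p k T + qe t p k' T + anq T ≤ 2 * h := by
  rw [← hT.ends p]
  unfold ane anq
  rw [PqF_qe, PqF_qe, ← List.sum_map_add, ← List.sum_map_add]
  apply List.sum_le_sum
  intro e he
  have h12 := hT.in12 e he
  have hn := hT.ntr e he
  unfold PqF_t
  by_cases h1 : e.2.2 = 1
  · have hne : e.1 ≠ e.2.1 := fun h => hn h h1
    have f : ∀ j : ℤ, qfo t (qnat t ^ j * 1) = false := by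
      intro j
      rw [mul_one]
      exact q_pow_fo t j
    simp only [h1, inv_one, f, and_false, if_false, if_true, Bool.false_eq_true]
    revert hne
    generalize e.1 = a
    generalize e.2.1 = b
    revert a b p
    decide
  · rw [if_neg h1]
    rcases PqF_dat h12 t with ⟨m, hm, f1, f2⟩ | ⟨d, d', m, h1, h2, h3, hm, f1, f2⟩
    · simp only [f1, f2, and_false, if_false, Bool.false_eq_true]
      omega
    · simp only [f1, f2]
      by_cases ha : e.1 = p <;> by_cases hb : e.2.1 = p <;>
        simp only [ha, hb, true_and, false_and, if_true, if_false] <;> (try split_ifs) <;> omega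

end Pool.Agent.Sims
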