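import Pool.Agent.Sims.PqF

/-!
# Module `PqP4` : from one constant corner to the other constant corner

`T` with the minimal corner cuts `const t` and `qmx t p`; `W = ast (qpw t v) T` a level state in which `const t` and `const (!t)` are minimal.  Then a mixed corner is minimal in `W`.
Proof.  `TOK h W` (`TOK_st`).  `f q := qe t q 0 W = qe t q (v q) T` (`q_shift`).  `qe t p 0 T = h` (`q_exit` for `T`).
`q_exit` for `W`, `t`, `q`: `xc (qmx t q) W + 2 f q = 4h` (`q_shift_x`).  `q_exit` for `W`, `!t`, `!q`: `qmx (!t) (!q) = qmx t q`, so `xc (qmx t q) W + 2 qe (!t) (!q) 0 W = 4h`; hence `qe (!t) (!q) 0 W = f q`.  `q_end` for `W` at `!q`: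
`f (!q) + f q + anq W = 2h` (for `t = true`, `false`).
* `v p = 0`: `f p = qe t p 0 T = h`, so `xc (qmx t p) W = 2h`.
* `v p ≠ 0`: `q_cap3` for `T` (`k = 0`, `k' = v p`, `k'' = v (!p)`): `h + f p + f (!p) ≤ xc (const t) T = 2h`, so `anq W ≥ h`.  `q_end3` for `W` with `k = -v p`, `k' = 0`: `qe t p (-v p) W = qe t p 0 T = h` (`q_shift`):
  `h + f p + anq W ≤ 2h`.  So `f p = 0`, `anq W = h`, `f (!p) = h` and `xc (qmx t (!p)) W = 2h`.
Difficulty 2.
-/

namespace Pool.Agent.Sims

open FreeGroup (of)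

theorem q_mx_not (t p : Bool) : qmx (!t) (!p) = qmx t p := by
  funext q
  cases t <;> cases p <;> cases q <;> rfl

theorem q_pl4 {h : ℕ} {T : List Arc} (hT : TOK h T) (t p : Bool) (v : Bool → ℤ)
    (h1 : xc (fun _ => t) T = 2 * h) (h2 : xc (qmx t p) T = 2 * h) (hl : Lv2 T (qpw t v))
    (h3 : xc (fun _ => !t) (ast (qpw t v) T) = 2 * h) :
    ∃ q, xc (qmx t q) (ast (qpw t v) T) = 2 * h := by
  have hW := TOK_st hT hl
  have hx := q_shift_x hT.in12 t v
  rw [h1] at hx
  have hs := fun q k => q_shift hT.in12 t v q k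
  obtain ⟨W, hWe⟩ : ∃ W, W = ast (qpw t v) T := ⟨_, rfl⟩
  rw [← hWe] at hW hx h3 ⊢
  simp only [← hWe] at hs
  have hA := fun q => q_exit hW t q
  have hB : ∀ q, xc (qmx t q) W + 2 * qe (!t) (!q) 0 W = 2 * h + 2 * h := by
    intro q
    have h4 := q_exit hW (!t) (!q)
    rw [q_mx_not, h3] at h4
    exact h4
  have hE : ∀ q, qe t q 0 W + qe (!t) q 0 W + anq W = 2 * h := by
    intro q
    have h4 := q_end hW q
    cases t
    · have h5 : (!false) = true := rfl
      rw [h5]
      omega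
    · have h5 : (!true) = false := rfl
      rw [h5]
      exact h4
  have hp := q_exit hT t p
  rw [h1, h2] at hp
  have hAp := hA p
  have hBp := hB p
  have hAn := hA (!p)
  have hBn := hB (!p)
  have hEp := hE p
  have hEn := hE (!p)
  rw [Bool.not_not] at hBn
  rw [hx] at hAp hAn
  by_cases hv : v p = 0
  · refine ⟨p, ?_⟩
    have h5 := hs p 0
    rw [hv, add_zero] at h5
    omega
  · refine ⟨!p, ?_⟩
    have h5 := q_cap3 hT.in12 t p (k := 0) (k' := v p) (fun h => hv h.symm) (v (!p))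
    rw [h1] at h5
    have h6 := q_end3 hW t p (k := -v p) (k' := 0) (by omega)
    have h7 := hs p (-v p)
    rw [neg_add_cancel] at h7
    have h8 := hs p 0
    rw [zero_add] at h8
    have h9 := hs (!p) 0
    rw [zero_add] at h9
    omega

end Pool.Agent.Sims
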