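import Pool.Agent.Sims.PqCl
import Pool.Agent.Sims.PqFl
import Pool.Agent.Sims.PqP4

/-!
# Module `PqHc` : half-states and steps from extended states

`T = tarcs L`, `cnt c 0 = 2h = L.length`, `V = mk (arcP L)`, `Sm c V`.
* `q_setup`: `exists_arc`, `arc_len`, `tarcs_TOK`; the corner cuts: `xc τ (ast u T) = capC (qcl L u) (cutT τ)` (`q_cap_cl`), `qcl L u = act φ V` with some `φ` (`q_cl_T`), `V = act ψ c`.  If `τ true ≠ τ false`: `cutT τ` separates `a, a⁻¹`,
  `lb_cap` (with `n = cnt c 0`).  If `τ` is constant: `cutT_bb`, `cutT_cc` (for `τ = fun _ => t`, after `funext`) and `lb_pair`.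
* `q_cap_cl`: `xc_cap` for `upd u L` (`upd_ArcOK`), `tarcs_upd`.
* `q_Sm_cl`: `Rch_of_Lv2`, `q_Rch_Cl`, `Cl_Sm`, `Sm_trans`.
* `q_eok_b`: `EOK h T (u, fun p => !p) ↔ qHS c (qcl L u)` for `u` in `⟨b, c⟩`: `cutT_Sb`, `q_cap_cl`, `cnt (qcl L u) 0 = 2h`; `Lv2` from `cycLen` (`TpL_len`, `TpL_len0`).  `q_eok_c`: the same with `cutT_Sc`, `q_th_capSb`, `q_th_Sm`, `q_th_cnt`.
* `q_qhc_HS`: a mixed corner is `fun p => !p` or `fun p => p`.
* `q_step_rm`: the corner `qmx t p` (port `p` on the side `!t`), the port `!p` moves by `x^k`, `x = qnat t`.  `qcl L (u * s) = act φ (qcl L u)` with `Tw φ (s false) (s true)⁻¹` (`q_upd_mul`, `q_cl_T` for `upd u L`).  Four cases: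
  `t = false, p = false`: X moves by `b^k`: `φ a = a b^{-k}`, `qhc = qcl`.  `t = true, p = true`: Y moves by `c^k`: `φ a = c^k a`, `qhc = qcl`.  `t = false, p = true`: Y moves by `b^k`, `φ a = b^k a`, `qhc = θ qcl`, `q_th_T`: `a ↦ a b^{-k}`.
  `t = true, p = false`: X moves by `c^k`, `φ a = a c^{-k}`, `q_th_T`: `a ↦ c^k a`.  All are of the form `c^y a b^x` (one exponent `0`).
* `q_step_sp`: the port `p` moves by `x^k`, `k ≠ 0`.  `t = false`: `capC (PrC 2) = xc (const false) = 2h` (`cutT_bb`; `q_th_capP`).  `p = false`: `φ a = b^k a`: `qJb` with `j = k`; `p = true`: `φ a = a b^{-k}`, `q_th_T`: `a ↦ b^k a`: `qJb`.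
  `t = true`: `capC (PrC 1) = xc (const true)`.  `p = true`: `φ a = a c^{-k}`: `qJc` with `j = -k`;  `p = false`: `φ a = c^k a`, `q_th_T`: `a ↦ a c^{-k}`: `qJc`.
* `q_step_sw`: `qSw` (`q_th_th` for the second direction).
Difficulty 3.
-/

namespace Pool.Agent.Sims

open FreeGroup (of)

theorem q_cap_cl {L : List (Bool × FreeGroup (Fin 3))} (hL : ArcOK L) {u : PS}
    (hu : ∀ p, In12 (u p)) (τ : Bool → Bool) :
    capC (qcl L u) (cutT τ) = xc τ (ast u (tarcs L)) := by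
  unfold qcl
  rw [xc_cap (upd_ArcOK hL hu) τ, tarcs_upd]

theorem q_cnt_cl {L : List (Bool × FreeGroup (Fin 3))} (hL : ArcOK L) {u : PS}
    (hu : ∀ p, In12 (u p)) : cnt (qcl L u) 0 = L.length := by
  unfold qcl
  rw [(arc_len (upd_ArcOK hL hu)).2, upd_length]

theorem PqHc_le {c : CC} (hc : qOK c) : ∀ i, cnt c 0 ≤ cnt c i := by
  intro i
  have h : i = 0 ∨ i = 1 ∨ i = 2 := by
    have : ∀ i : Fin 3, i = 0 ∨ i = 1 ∨ i = 2 := by decide
    exact this i
  rcases h with rfl | rfl | rfl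
  · exact le_rfl
  · exact hc.h1.le
  · exact hc.h2.le

theorem q_qX {c : CC} (hc : qOK c) {L : List (Bool × FreeGroup (Fin 3))} (hL : ArcOK L)
    (hV : Sm c (ConjClasses.mk (arcP L))) {h : ℕ} (h0 : cnt c 0 = 2 * h) :
    L.length = 2 * h ∧ qX h (tarcs L) := by
  have hlen : L.length = 2 * h := by
    rw [← (arc_len hL).2, hV.2 0, h0]
  have h4 := hc.h4
  refine ⟨hlen, tarcs_TOK hL (Sm_OMin hc.om hV) hlen, by omega, ?_⟩
  intro u hu τ
  rw [← q_cap_cl hL hu, ← h0]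
  obtain ⟨φ, -, h1⟩ := q_cl_T hL hu
  obtain ⟨ψ, h2⟩ := hV.1.1
  rw [h2, act_act] at h1
  rw [h1]
  by_cases ht : τ true = τ false
  · have hτ : τ = fun _ => τ false := by
      funext q
      cases q
      · rfl
      · exact ht
    rw [hτ]
    cases τ false
    · rw [cutT_bb]
      exact lb_pair hc.om (PqHc_le hc) hc.pr _ 2
    · rw [cutT_cc]
      exact lb_pair hc.om (PqHc_le hc) hc.pr _ 1
  · refine lb_cap hc.om (PqHc_le hc) _ (i := 0) ?_
    intro h3
    apply ht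
    have h4 : (!(τ true)) = !(τ false) := h3
    cases h5 : τ true <;> cases h6 : τ false <;> simp_all

theorem q_setup {c V : CC} (hc : qOK c) (hV : Sm c V) :
    ∃ (h : ℕ) (L : List (Bool × FreeGroup (Fin 3))), 2 ≤ h ∧ cnt c 0 = 2 * h ∧ ArcOK L ∧
      L.length = 2 * h ∧ ConjClasses.mk (arcP L) = V ∧ qX h (tarcs L) := by
  have h4 := hc.h4
  have hev := hc.ev
  have h5 : 1 ≤ cnt V 0 := by
    rw [hV.2 0]
    omega
  obtain ⟨L, hL, rfl⟩ := exists_arc h5
  have h0 : cnt c 0 = 2 * (cnt c 0 / 2) := by omega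
  obtain ⟨h6, h7⟩ := q_qX hc hL hV h0
  exact ⟨cnt c 0 / 2, L, by omega, h0, hL, h6, rfl, h7⟩

theorem q_Sm_cl {c : CC} (hc : qOK c) {L : List (Bool × FreeGroup (Fin 3))} (hL : ArcOK L)
    (hV : Sm c (ConjClasses.mk (arcP L))) {u : PS} (hu : Lv2 (tarcs L) u) :
    Sm c (qcl L u) := by
  have hev := hc.ev
  have h0 : cnt c 0 = 2 * (cnt c 0 / 2) := by omega
  obtain ⟨h6, h7⟩ := q_qX hc hL hV h0
  exact Sm_trans hV (Cl_Sm (q_Rch_Cl hL (Rch_of_Lv2 h7.1 hu)))

theorem PqHc_lv {c : CC} {L : List (Bool × FreeGroup (Fin 3))} (hL : ArcOK L)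
    (hV : Sm c (ConjClasses.mk (arcP L))) {u : PS} (hu : ∀ p, In12 (u p))
    (hS : Sm c (qcl L u)) : Lv2 (tarcs L) u := by
  refine ⟨hu, ?_⟩
  have h1 := TpL_len hL hu
  have h2 := TpL_len0 hL
  have h3 := Sm_len hS
  have h4 := Sm_len hV
  unfold qcl at h3
  omega

theorem q_eok_b {c : CC} (hc : qOK c) {L : List (Bool × FreeGroup (Fin 3))} (hL : ArcOK L)
    (hV : Sm c (ConjClasses.mk (arcP L))) {h : ℕ} (h0 : cnt c 0 = 2 * h) {u : PS}
    (hu : ∀ p, In12 (u p)) :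
    EOK h (tarcs L) (u, fun p => !p) ↔ qHS c (qcl L u) := by
  obtain ⟨h6, -⟩ := q_qX hc hL hV h0
  have h7 := q_cap_cl hL hu (fun p => !p)
  rw [cutT_Sb] at h7
  have h8 := q_cnt_cl hL hu
  constructor
  · rintro ⟨h1, h2⟩
    have h2' : xc (fun p => !p) (ast u (tarcs L)) = 2 * h := h2
    refine ⟨q_Sm_cl hc hL hV h1, ?_⟩
    rw [h7, h8, h2', h6]
  · rintro ⟨h1, h2⟩
    refine ⟨PqHc_lv hL hV hu h1, ?_⟩
    show xc (fun p => !p) (ast u (tarcs L)) = 2 * h
    rw [← h7, h2, h8, h6]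

theorem q_eok_c {c : CC} (hc : qOK c) {L : List (Bool × FreeGroup (Fin 3))} (hL : ArcOK L)
    (hV : Sm c (ConjClasses.mk (arcP L))) {h : ℕ} (h0 : cnt c 0 = 2 * h) {u : PS}
    (hu : ∀ p, In12 (u p)) :
    EOK h (tarcs L) (u, fun p => p) ↔ qHS c (act qth.aut (qcl L u)) := by
  obtain ⟨h6, -⟩ := q_qX hc hL hV h0
  have h7 := q_cap_cl hL hu (fun p => p)
  rw [cutT_Sc] at h7
  have h8 := q_cnt_cl hL hu
  constructor
  · rintro ⟨h1, h2⟩
    have h2' : xc (fun p => p) (ast u (tarcs L)) = 2 * h := h2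
    refine ⟨q_th_Sm (q_Sm_cl hc hL hV h1), ?_⟩
    rw [q_th_capSb, q_th_cnt, h7, h8, h2', h6]
  · rintro ⟨h1, h2⟩
    have h3 := q_th_Sm h1
    rw [q_th_th] at h3
    refine ⟨PqHc_lv hL hV hu h3, ?_⟩
    show xc (fun p => p) (ast u (tarcs L)) = 2 * h
    rw [q_th_capSb, q_th_cnt] at h2
    rw [← h7, h2, h8, h6]

theorem q_qhc_HS {c : CC} (hc : qOK c) {L : List (Bool × FreeGroup (Fin 3))} (hL : ArcOK L)
    (hV : Sm c (ConjClasses.mk (arcP L))) {h : ℕ} (h0 : cnt c 0 = 2 * h) {s : ES}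
    (hs : EOK h (tarcs L) s) (hm : s.2 true ≠ s.2 false) : qHS c (qhc L s) := by
  obtain ⟨u, τ⟩ := s
  have hu : ∀ p, In12 (u p) := hs.1.1
  have hm' : τ true ≠ τ false := hm
  unfold qhc
  show qHS c (if τ true = false then qcl L u else act qth.aut (qcl L u))
  by_cases ht : τ true = false
  · rw [if_pos ht]
    have hτ : τ = fun p => !p := by
      funext q
      cases q
      · cases h1 : τ false
        · exact absurd (ht.trans h1.symm) hm'
        · rfl
      · exact ht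
    rw [hτ] at hs
    exact (q_eok_b hc hL hV h0 hu).1 hs
  · rw [if_neg ht]
    have ht' : τ true = true := by
      cases h1 : τ true
      · exact absurd h1 ht
      · rfl
    have hτ : τ = fun p => p := by
      funext q
      cases q
      · cases h1 : τ false
        · rfl
        · exact absurd (ht'.trans h1.symm) hm'
      · exact ht'
    rw [hτ] at hs
    exact (q_eok_c hc hL hV h0 hu).1 hs

theorem PqHc_T {L : List (Bool × FreeGroup (Fin 3))} (hL : ArcOK L) {u s : PS}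
    (hu : ∀ p, In12 (u p)) (hs : ∀ p, In12 (s p)) :
    qT (s false) (s true)⁻¹ (qcl L u) (qcl L (u * s)) := by
  have h1 := q_cl_T (upd_ArcOK hL hu) hs
  unfold qcl at h1 ⊢
  rw [q_upd_mul]
  exact h1

theorem PqHc_in (t : Bool) (k : ℤ) : In12 (qnat t ^ k) := by
  unfold qnat
  cases t
  · rw [if_neg (by decide)]
    exact In12_zpow (In12_of (by decide)) k
  · rw [if_pos rfl]
    exact In12_zpow (In12_of (by decide)) k

theorem PqHc_ps (p : Bool) {x : FreeGroup (Fin 3)} (hx : In12 x) : ∀ q, In12 (ps p x q) := by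
  intro q
  unfold ps
  split_ifs
  · exact hx
  · exact In12_one

theorem PqHc_TX {L : List (Bool × FreeGroup (Fin 3))} (hL : ArcOK L) {u : PS}
    (hu : ∀ p, In12 (u p)) {x : FreeGroup (Fin 3)} (hx : In12 x) :
    qT 1 x⁻¹ (qcl L u) (qcl L (u * ps true x)) := PqHc_T hL hu (PqHc_ps true hx)

theorem PqHc_TY {L : List (Bool × FreeGroup (Fin 3))} (hL : ArcOK L) {u : PS}
    (hu : ∀ p, In12 (u p)) {x : FreeGroup (Fin 3)} (hx : In12 x) :
    qT x 1 (qcl L u) (qcl L (u * ps false x)) := by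
  have h1 := PqHc_T hL hu (PqHc_ps false hx)
  have h2 : (ps false x true)⁻¹ = 1 := by
    unfold ps
    rw [if_neg (by decide), inv_one]
  rw [h2] at h1
  exact h1

theorem PqHc_mx (t p : Bool) : qmx t p true ≠ qmx t p false := by
  revert t p
  decide

theorem q_step_rm {c : CC} (hc : qOK c) {L : List (Bool × FreeGroup (Fin 3))} (hL : ArcOK L)
    (hV : Sm c (ConjClasses.mk (arcP L))) {h : ℕ} (h0 : cnt c 0 = 2 * h) {t p : Bool} {u : PS}
    {k : ℤ} (h1 : EOK h (tarcs L) (u, qmx t p))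
    (h2 : EOK h (tarcs L) (u * ps (!p) (qnat t ^ k), qmx t p)) :
    qRm c (qhc L (u, qmx t p)) (qhc L (u * ps (!p) (qnat t ^ k), qmx t p)) := by
  refine ⟨q_qhc_HS hc hL hV h0 h1 (PqHc_mx t p), q_qhc_HS hc hL hV h0 h2 (PqHc_mx t p), ?_⟩
  have hu : ∀ p, In12 (u p) := h1.1.1
  have hin := PqHc_in t k
  cases t
  · cases p
    · -- X moves by a power of `b`
      refine ⟨-k, 0, ?_⟩
      have h3 := PqHc_TX hL hu hin
      rw [zpow_zero, zpow_neg]
      exact h3
    · refine ⟨-k, 0, ?_⟩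
      have h3 := q_th_T (PqHc_TY hL hu hin)
      rw [inv_one] at h3
      rw [zpow_zero, zpow_neg]
      exact h3
  · cases p
    · refine ⟨0, k, ?_⟩
      have h3 := q_th_T (PqHc_TX hL hu hin)
      rw [inv_one, inv_inv] at h3
      rw [zpow_zero]
      exact h3
    · refine ⟨0, k, ?_⟩
      have h3 := PqHc_TY hL hu hin
      rw [zpow_zero]
      exact h3

theorem q_step_sp {c : CC} (hc : qOK c) {L : List (Bool × FreeGroup (Fin 3))} (hL : ArcOK L)
    (hV : Sm c (ConjClasses.mk (arcP L))) {h : ℕ} (h0 : cnt c 0 = 2 * h) {t p : Bool} {u : PS}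
    {k : ℤ} (hk : k ≠ 0) (h1 : EOK h (tarcs L) (u, qmx t p))
    (h1' : EOK h (tarcs L) (u, fun _ => t))
    (h2 : EOK h (tarcs L) (u * ps p (qnat t ^ k), qmx t p)) :
    qSp c (qhc L (u, qmx t p)) (qhc L (u * ps p (qnat t ^ k), qmx t p)) := by
  have hS1 := q_qhc_HS hc hL hV h0 h1 (PqHc_mx t p)
  have hS2 := q_qhc_HS hc hL hV h0 h2 (PqHc_mx t p)
  have hu : ∀ p, In12 (u p) := h1.1.1
  have hin := PqHc_in t k
  obtain ⟨h6, -⟩ := q_qX hc hL hV h0
  have h7 := q_cap_cl hL hu (fun _ => t)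
  have h8 := q_cnt_cl hL hu
  have h9 : xc (fun _ => t) (ast u (tarcs L)) = 2 * h := h1'.2
  rw [h9, ← h6, ← h8] at h7
  cases t
  · left
    rw [cutT_bb] at h7
    cases p
    · refine ⟨hS1, hS2, h7, k, hk, ?_⟩
      exact PqHc_TY hL hu hin
    · refine ⟨hS1, hS2, ?_, k, hk, ?_⟩
      · show capC (act qth.aut (qcl L u)) (PrC 2) = cnt (act qth.aut (qcl L u)) 0
        rw [q_th_capP, q_th_cnt, h7]
      · have h3 := q_th_T (PqHc_TX hL hu hin)
        rw [inv_one, inv_inv] at h3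
        exact h3
  · right
    left
    rw [cutT_cc] at h7
    cases p
    · refine ⟨hS1, hS2, ?_, -k, by omega, ?_⟩
      · show capC (act qth.aut (qcl L u)) (PrC 1) = cnt (act qth.aut (qcl L u)) 0
        rw [q_th_capP, q_th_cnt, h7]
      · have h3 := q_th_T (PqHc_TY hL hu hin)
        rw [inv_one] at h3
        rw [zpow_neg]
        exact h3
    · refine ⟨hS1, hS2, h7, -k, by omega, ?_⟩
      rw [zpow_neg]
      exact PqHc_TX hL hu hin

theorem q_step_sw {c : CC} (hc : qOK c) {L : List (Bool × FreeGroup (Fin 3))} (hL : ArcOK L)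
    (hV : Sm c (ConjClasses.mk (arcP L))) {h : ℕ} (h0 : cnt c 0 = 2 * h) {τ τ' : Bool → Bool}
    {u : PS} (hm : τ true ≠ τ false) (hm' : τ' true ≠ τ' false) (hne : τ true ≠ τ' true)
    (h1 : EOK h (tarcs L) (u, τ)) (h2 : EOK h (tarcs L) (u, τ')) :
    qSp c (qhc L (u, τ)) (qhc L (u, τ')) := by
  right
  right
  refine ⟨q_qhc_HS hc hL hV h0 h1 hm, q_qhc_HS hc hL hV h0 h2 hm', ?_⟩
  unfold qhc
  show (if τ' true = false then qcl L u else act qth.aut (qcl L u)) =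
    act qth.aut (if τ true = false then qcl L u else act qth.aut (qcl L u))
  cases h3 : τ true
  · have h4 : τ' true = true := by
      cases h5 : τ' true
      · exact absurd (h3.trans h5.symm) hne
      · rfl
    rw [h4, if_neg (by decide), if_pos rfl]
  · have h4 : τ' true = false := by
      cases h5 : τ' true
      · rfl
      · exact absurd (h3.trans h5.symm) hne
    rw [h4, if_pos rfl, if_neg (by decide), q_th_th]

end Pool.Agent.Sims
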