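import Pool.Agent.Sims.PqF

/-!
# Module `PqSA` : arcs of a class with a jump through the corner (b,b)

Side `t = false`: native `b = of 1`, foreign `c = of 2`; port Y = `false`.  `qSA h j T`: all arcs have equal ports, the arcs at X are nontrivial powers of `b`, the arcs at Y are `b^d c^l b^{-d'}`, `d, d' ∈ {0, j}`, `l ≠ 0`.
* `q_SA_of`: `fun p => !p = qmx false false`.  `q_exit` for `T`: `qe false false 0 T = h`; `T' = ast (ps false (b^j)) T` (`ps false (b^j) = qpw false (fun q => if q = false then j else 0)`): `xc (const false) T' = 2h` (`q_shift_x`), `q_exit` for `T'`: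
  `qe false false 0 T' = h`, so `qe false false j T = h` (`q_shift`).  For an arc `e` let `κ(e)` be the number of its Y-ends with leading exponent `0` or `j`.  `κ(e) ≤ xarc (const false) e` (`q_core`: `0` for powers of `b`, otherwise
  `xarc ≥ 2`), `κ(e) ≤ (number of Y-ends)`.  `Σ κ = 2h = xc (const false) T = ane false T`, so `κ(e) = xarc (const false) e = number of Y-ends of e` for every arc.  It is even (`q_x_even`), so `e` is not mixed; arcs at X: `xarc = 0`, so a power
  of `b` (`q_core`, `q_x_ge`, `q_core_x`), nontrivial by `TOK.ntr`; arcs at Y: `xarc = 2`, both ends counted: `g = b^d m b^{-d'}` with `d, d' ∈ {0, j}` and `m = c^l` (`q_x_two`).  `len`: the arcs are not mixed, `ane p T = 2h`.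
* `q_SA_x`: `u = qbc true i y`: port X at `b^i`, port Y at `c^y`.  Arcs at X: `b^{-i} b^k b^i = b^k`: `xarc (const true) = 2` (`h` arcs).  Arcs at Y: `c^{-y} b^d c^l b^{-d'} c^y`: `xarc (const true) = 2 [d ≠ 0] + 2 [d' ≠ 0]` (`q_core_x` for
  `t = true` removes the powers of `c` at the ends; `d = 0 ≠ d'`: `c^l b^{-d'}`; both `≠ 0`: `b^d c^l b^{-d'}`, one computes `4` by `q_core_x`, or with `PhB_x`).  The number of nonzero exponents is `nj = h`.  Sum: `2h + 2h`.
* `q_SA_same`: `xarc (const false)` of the arcs at X is `0`, of the arcs at Y (`c^{-y} b^d c^l b^{-d'} c^y`) it is twice the number of syllables `c`: `y = 0`: then `ast u T = T` (X-arcs are not changed).  `y ≠ 0`: `(0,0)`: `c^l`: `2`;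
  `d = 0, d' = j`: `c^{l-y} b^{-j} c^y`: `4`, or `2` if `l = y`;  `d = j, d' = 0`: `c^{-y} b^j c^{l+y}`: `4`, or `2` if `l = -y`;  `(j,j)`: `6`.  The sum over `h` arcs is `2h`, so each is `2`: no `(j,j)`.  `Σ ([d = 0] + [d' = 0]) = n0 = h`
  and each arc at Y has at least one `0`: each has exactly one.  So the arcs at Y are `c^y b^{-j}` or `b^j c^{-y}`, in `ast u T`: `c^{-y} c^y b^{-j} c^y = b^{-j} c^y` or `c^{-y} b^j`; in `ast (ps false (b^j)) T`:
  `b^{-j} c^y b^{-j} b^j = b^{-j} c^y`, `b^{-j} b^j c^{-y} b^j = c^{-y} b^j`: equal.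
* `q_SA_uniq`: `h ≥ 1`: there is a Y-end with leading exponent `j`; all leading exponents at Y are `0` or `j'`; so `j = j'` (`j ≠ 0`).  (Or: `qe false false 0 T = qe false false j T = qe false false j' T = h`, three different exponents
  would give `3h ≤ 2h`; use the formula for the arcs.)
* `q_SA_back`: `q_SA_of` for `T' = ast (ps false (b^j)) T` and `-j`: or directly from the form: `b^{-j} b^d c^l b^{-d'} b^j`, exponents `d - j, d' - j ∈ {0, -j}`; `n0`, `nj`: `q_shift`.
Difficulty 3.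
-/

namespace Pool.Agent.Sims

open FreeGroup (of)

theorem PqSA_word (j : Fin 3) (k : ℤ) : ((of j : FreeGroup (Fin 3)) ^ k).toWord = zpw j k := by
  rw [← mk_zpw, FreeGroup.toWord_mk]
  exact (CR_zpw j k).1.reduce_eq

theorem PqSA_x_rep (t' : Bool) (x : Fin 3 × Bool) (n : ℕ) : ∀ t,
    PhB_x t (List.replicate (n + 1) x) t' =
      (if t = PhB_sd x then 0 else 1) + (if PhB_sd x = t' then 0 else 1) := by
  induction n with
  | zero => intro t; rfl
  | succ n ih =>
    intro t
    rw [List.replicate_succ, PhB_x, ih, if_pos rfl, zero_add]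

theorem PqSA_pow (t p q : Bool) {k : ℤ} (hk : k ≠ 0) :
    xarc (fun _ => t) p q (qnat (!t) ^ k) = 2 := by
  rw [PhB_xarc (q_nat_in12 _ _)]
  obtain ⟨n, hn⟩ : ∃ n, k.natAbs = n + 1 := ⟨k.natAbs - 1, by omega⟩
  cases t
  · have h1 : qnat (!false) = of 2 := rfl
    rw [h1, PqSA_word, zpw, hn, PqSA_x_rep]
    rfl
  · have h1 : qnat (!true) = of 1 := rfl
    rw [h1, PqSA_word, zpw, hn, PqSA_x_rep]
    rfl

theorem PqSA_fo (t : Bool) {k : ℤ} (hk : k ≠ 0) : qfo t (qnat (!t) ^ k) = true := by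
  obtain ⟨n, hn⟩ : ∃ n, k.natAbs = n + 1 := ⟨k.natAbs - 1, by omega⟩
  cases t
  · have h1 : qnat (!false) = of 2 := rfl
    unfold qfo ahd
    rw [h1, PqSA_word, zpw, hn, List.replicate_succ]
    rfl
  · have h1 : qnat (!true) = of 1 := rfl
    unfold qfo ahd
    rw [h1, PqSA_word, zpw, hn, List.replicate_succ]
    rfl

theorem PqSA_fo_inv (t : Bool) {k : ℤ} (hk : k ≠ 0) : qfo t (qnat (!t) ^ k)⁻¹ = true := by
  rw [← zpow_neg]
  exact PqSA_fo t (neg_ne_zero.2 hk)

theorem PqSA_inv (t : Bool) {g : FreeGroup (Fin 3)} (hg : In12 g) (a b : ℤ) (p q : Bool) :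
    xarc (fun _ => t) p q (qnat t ^ a * g * qnat t ^ b) = xarc (fun _ => t) p q g := by
  rcases q_core hg t with ⟨m, rfl⟩ | ⟨d, d', m, hm, h1, h2, rfl⟩
  · rw [← zpow_add, ← zpow_add, q_pow_x, q_pow_x]
  · have e : qnat t ^ a * (qnat t ^ d * m * qnat t ^ (-d')) * qnat t ^ b =
        qnat t ^ (a + d) * m * qnat t ^ (-(d' - b)) := by
      rw [zpow_add, show -(d' - b) = -d' + b by ring, zpow_add]
      group
    rw [e, q_core_x hm h1 h2, q_core_x hm h1 h2]

theorem PqSA_F {g : FreeGroup (Fin 3)} (hg1 : g ≠ 1) :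
    ((if ahd g = some (2, true) then 1 else 0) + (if ahd g = some (2, false) then 1 else 0) : ℕ) =
      if qfo false g = true then 1 else 0 := by
  unfold qfo ahd
  have hne : g.toWord ≠ [] := fun h => hg1 (FreeGroup.toWord_eq_nil_iff.1 h)
  generalize g.toWord = v at hne
  rcases v with _ | ⟨⟨i, b⟩, v⟩
  · exact absurd rfl hne
  · simp only [List.head?_cons, Option.some.injEq]
    fin_cases i <;> cases b <;> simp

theorem PqSA_sw {g : FreeGroup (Fin 3)} (hg : In12 g) (hg1 : g ≠ 1) (p q : Bool) :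
    xarc (fun _ => true) p q g + 2 * ((if qfo false g = true then 1 else 0) +
      (if qfo false g⁻¹ = true then 1 else 0)) = xarc (fun _ => false) p q g + 2 := by
  have h1 := PhB_first hg1 true
  have h4 := PhB_last hg hg1 false
  rw [PqSA_F hg1] at h1
  rw [PqSA_F (fun h => hg1 (inv_eq_one.1 h))] at h4
  rw [PhB_xarc hg, PhB_xarc hg]
  change PhB_x true g.toWord true + 2 * ((if qfo false g = true then 1 else 0) +
      (if qfo false g⁻¹ = true then 1 else 0)) = PhB_x false g.toWord false + 2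
  omega

/-- if the first letter is not `b` it is `c` and conversely -/
theorem PqSA_or {u : FreeGroup (Fin 3)} (hu : In12 u) (hu1 : u ≠ 1) (h : qfo true u = false) :
    qfo false u = true := by
  unfold qfo ahd at h ⊢
  have hne : u.toWord ≠ [] := fun h => hu1 (FreeGroup.toWord_eq_nil_iff.1 h)
  unfold In12 at hu
  generalize u.toWord = v at hne h hu
  rcases v with _ | ⟨⟨i, b⟩, v⟩
  · exact absurd rfl hne
  · have h0 := hu (i, b) List.mem_cons_self
    fin_cases i
    · exact absurd rfl h0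
    · simp at h
    · rfl

theorem PqSA_sub {t : Bool} {u : FreeGroup (Fin 3)} (h : qfo t u = true) : qfo (!t) u = false := by
  unfold qfo at h ⊢
  rcases hu : ahd u with _ | ⟨i, b⟩
  · simp [hu] at h
  · simp only [hu] at h ⊢
    cases t
    · simp only [Bool.false_eq_true, if_false, decide_eq_true_eq] at h
      subst h
      rfl
    · simp only [if_true, decide_eq_true_eq] at h
      subst h
      rfl

theorem PqSA_one {g : FreeGroup (Fin 3)} {t : Bool} (h : qfo t g = true) : g ≠ 1 := by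
  rintro rfl
  unfold qfo ahd at h
  rw [FreeGroup.toWord_one] at h
  simp at h

theorem PqSA_eq {T : List Arc} {f g : Arc → ℕ} (h : ∀ e ∈ T, f e ≤ g e)
    (hs : (T.map g).sum ≤ (T.map f).sum) : ∀ e ∈ T, f e = g e := by
  induction T with
  | nil => intro e he; exact absurd he List.not_mem_nil
  | cons e T ih =>
    have h1 := h e List.mem_cons_self
    have h2 : (T.map f).sum ≤ (T.map g).sum :=
      List.sum_le_sum fun x hx => h x (List.mem_cons_of_mem _ hx)
    simp only [List.map_cons, List.sum_cons] at hs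
    intro e' he'
    rcases List.mem_cons.1 he' with rfl | he''
    · omega
    · exact ih (fun x hx => h x (List.mem_cons_of_mem _ hx)) (by omega) e' he''

/-- the number of ends of one arc at Y with leading exponent `k` -/
def PqSA_k (k : ℤ) (e : Arc) : ℕ :=
  (if e.1 = false ∧ qfo false (of 1 ^ (-k) * e.2.2) = true then 1 else 0) +
    (if e.2.1 = false ∧ qfo false (of 1 ^ (-k) * (e.2.2)⁻¹) = true then 1 else 0)

theorem PqSA_qe (k : ℤ) (T : List Arc) : qe false false k T = (T.map (PqSA_k k)).sum := rfl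

theorem PqSA_fo1 {m : FreeGroup (Fin 3)} (hm : In12 m) (h1 : qfo false m = true)
    (h2 : qfo false m⁻¹ = true) (d d' k : ℤ) :
    (qfo false (of 1 ^ (-k) * (of 1 ^ d * m * of 1 ^ (-d'))) = true ↔ d = k) ∧
    (qfo false (of 1 ^ (-k) * (of 1 ^ d * m * of 1 ^ (-d'))⁻¹) = true ↔ d' = k) := by
  constructor
  · have e : (of 1 : FreeGroup (Fin 3)) ^ (-k) * (of 1 ^ d * m * of 1 ^ (-d')) =
        qnat false ^ (d - k) * m * qnat false ^ (-d') := by
      change (of 1 : FreeGroup (Fin 3)) ^ (-k) * (of 1 ^ d * m * of 1 ^ (-d')) =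
        of 1 ^ (d - k) * m * of 1 ^ (-d')
      rw [show d - k = -k + d by ring, zpow_add]
      group
    rw [e, q_core_fo hm h1 h2]
    omega
  · have e : (of 1 : FreeGroup (Fin 3)) ^ (-k) * (of 1 ^ d * m * of 1 ^ (-d'))⁻¹ =
        qnat false ^ (d' - k) * m⁻¹ * qnat false ^ (-d) := by
      change (of 1 : FreeGroup (Fin 3)) ^ (-k) * (of 1 ^ d * m * of 1 ^ (-d'))⁻¹ =
        of 1 ^ (d' - k) * m⁻¹ * of 1 ^ (-d)
      rw [show d' - k = -k + d' by ring, zpow_add]
      group
    rw [e, q_core_fo (In12_inv hm) h2 (by rw [inv_inv]; exact h1)]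
    omega

theorem PqSA_fo0 (m k : ℤ) :
    qfo false ((of 1 : FreeGroup (Fin 3)) ^ (-k) * of 1 ^ m) = false ∧
    qfo false ((of 1 : FreeGroup (Fin 3)) ^ (-k) * (of 1 ^ m)⁻¹) = false := by
  constructor
  · rw [← zpow_add]
    exact q_pow_fo false _
  · rw [← zpow_neg, ← zpow_add]
    exact q_pow_fo false _

theorem PqSA_k0 (k : ℤ) (p q : Bool) (m : ℤ) : PqSA_k k (p, q, of 1 ^ m) = 0 := by
  unfold PqSA_k
  simp only [(PqSA_fo0 m k).1, (PqSA_fo0 m k).2, Bool.false_eq_true, and_false, if_false,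
    add_zero]

theorem PqSA_kc (k : ℤ) (p q : Bool) {m : FreeGroup (Fin 3)} (hm : In12 m)
    (h1 : qfo false m = true) (h2 : qfo false m⁻¹ = true) (d d' : ℤ) :
    PqSA_k k (p, q, of 1 ^ d * m * of 1 ^ (-d')) =
      (if p = false ∧ d = k then 1 else 0) + (if q = false ∧ d' = k then 1 else 0) := by
  unfold PqSA_k
  simp only [(PqSA_fo1 hm h1 h2 d d' k).1, (PqSA_fo1 hm h1 h2 d d' k).2]

theorem q_SA_of {h : ℕ} {T : List Arc} {j : ℤ} (hT : TOK h T) (hj : j ≠ 0)
    (hx : xc (fun _ => false) T = 2 * h) (hb : xc (fun p => !p) T = 2 * h)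
    (hl : Lv2 T (ps false (of 1 ^ j)))
    (hb' : xc (fun p => !p) (ast (ps false (of 1 ^ j)) T) = 2 * h) : qSA h j T := by
  have hT' := TOK_st hT hl
  have e1 : qmx false false = fun p => !p := by
    funext q
    cases q <;> rfl
  have e2 : ps false (of 1 ^ j) = qpw false (fun q => if q = false then j else 0) := by
    funext q
    cases q
    · rfl
    · unfold ps qpw
      simp
  have n0 : qe false false 0 T = h := by
    have h1 := q_exit hT false false
    rw [e1, hb, hx] at h1
    omega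
  have nj : qe false false j T = h := by
    have h1 := q_exit hT' false false
    rw [e1, hb'] at h1
    have h2 : xc (fun _ => false) (ast (ps false (of 1 ^ j)) T) = 2 * h := by
      rw [e2, q_shift_x hT.in12, hx]
    rw [h2] at h1
    rw [e2, q_shift hT.in12] at h1
    rw [if_pos rfl, zero_add] at h1
    omega
  -- one arc
  have key : ∀ e ∈ T, PqSA_k 0 e + PqSA_k j e ≤ xarc (fun _ => false) e.1 e.2.1 e.2.2 ∧
      PqSA_k 0 e + PqSA_k j e ≤ (if e.1 = false then 1 else 0) + (if e.2.1 = false then 1 else 0) := by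
    intro e he
    have hin := hT.in12 e he
    obtain ⟨p, q, g⟩ := e
    simp only at hin ⊢
    rcases q_core hin false with ⟨m, rfl⟩ | ⟨d, d', m, hm, h1, h2, rfl⟩
    · change PqSA_k 0 (p, q, of 1 ^ m) + PqSA_k j (p, q, of 1 ^ m) ≤ _ ∧
        PqSA_k 0 (p, q, of 1 ^ m) + PqSA_k j (p, q, of 1 ^ m) ≤ _
      rw [PqSA_k0, PqSA_k0]
      simp
    · have h3 := q_x_ge hm h1 h2 p q
      rw [q_core_x hm h1 h2]
      change PqSA_k 0 (p, q, of 1 ^ d * m * of 1 ^ (-d')) +
        PqSA_k j (p, q, of 1 ^ d * m * of 1 ^ (-d')) ≤ _ ∧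
        PqSA_k 0 (p, q, of 1 ^ d * m * of 1 ^ (-d')) +
        PqSA_k j (p, q, of 1 ^ d * m * of 1 ^ (-d')) ≤ _
      rw [PqSA_kc 0 p q hm h1 h2, PqSA_kc j p q hm h1 h2]
      have h4 : (if p = false ∧ d = 0 then 1 else 0) + (if p = false ∧ d = j then 1 else 0) ≤
          (if p = false then 1 else 0 : ℕ) := by
        by_cases hp : p = false
        · simp only [hp, true_and, if_true]
          split_ifs <;> omega
        · simp [hp]
      have h5 : (if q = false ∧ d' = 0 then 1 else 0) + (if q = false ∧ d' = j then 1 else 0) ≤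
          (if q = false then 1 else 0 : ℕ) := by
        by_cases hp : q = false
        · simp only [hp, true_and, if_true]
          split_ifs <;> omega
        · simp [hp]
      have h6 : (if p = false then 1 else 0 : ℕ) ≤ 1 := by split_ifs <;> omega
      have h7 : (if q = false then 1 else 0 : ℕ) ≤ 1 := by split_ifs <;> omega
      constructor <;> omega
  have hsum : (T.map (fun e => PqSA_k 0 e + PqSA_k j e)).sum = 2 * h := by
    rw [List.sum_map_add, ← PqSA_qe, ← PqSA_qe, n0, nj]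
    omega
  have hA := PqSA_eq (fun e he => (key e he).1) (by
    rw [hsum]
    exact le_of_eq hx)
  have hN := PqSA_eq (fun e he => (key e he).2) (by
    rw [hsum]
    exact le_of_eq (hT.ends false))
  -- structure of one arc
  have str : ∀ e ∈ T, (e.1 = true ∧ e.2.1 = true ∧ qB e.2.2) ∨
      (e.1 = false ∧ e.2.1 = false ∧ ∃ d l d' : ℤ, (d = 0 ∨ d = j) ∧ (d' = 0 ∨ d' = j) ∧ l ≠ 0 ∧
        e.2.2 = of 1 ^ d * of 2 ^ l * of 1 ^ (-d')) := by
    intro e he
    have hin := hT.in12 e he
    have hntr := hT.ntr e he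
    have hA1 := hA e he
    have hN1 := hN e he
    obtain ⟨p, q, g⟩ := e
    simp only at hin hntr hA1 hN1 ⊢
    rcases q_core hin false with ⟨m, hg⟩ | ⟨d, d', m, hm, h1, h2, hg⟩
    · left
      change g = of 1 ^ m at hg
      subst hg
      rw [PqSA_k0, PqSA_k0] at hN1
      have hp : p = true := by
        cases p
        · simp only [if_true] at hN1
          omega
        · rfl
      have hq : q = true := by
        cases q
        · subst hp
          simp at hN1
        · rfl
      subst hp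
      subst hq
      refine ⟨rfl, rfl, m, ?_, rfl⟩
      rintro rfl
      exact hntr rfl (zpow_zero _)
    · right
      have h3 := q_x_ge hm h1 h2 p q
      have h8 : xarc (fun _ => false) p q g = xarc (fun _ => false) p q m := by
        rw [hg, q_core_x hm h1 h2]
      change g = of 1 ^ d * m * of 1 ^ (-d') at hg
      rw [h8, hg] at hA1
      rw [hg] at hN1
      rw [PqSA_kc 0 p q hm h1 h2, PqSA_kc j p q hm h1 h2] at hA1 hN1
      have h6 : (if p = false then 1 else 0 : ℕ) ≤ 1 := by split_ifs <;> omega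
      have h7 : (if q = false then 1 else 0 : ℕ) ≤ 1 := by split_ifs <;> omega
      have hp : p = false := by
        by_contra hp
        rw [if_neg hp] at hN1
        omega
      have hq : q = false := by
        by_contra hq
        rw [if_neg hq] at hN1
        omega
      subst hp
      subst hq
      simp only [true_and, if_true] at hA1 hN1
      have hd : d = 0 ∨ d = j := by
        by_contra hd
        rw [not_or] at hd
        rw [if_neg hd.1, if_neg hd.2] at hN1
        have : (if d' = 0 then 1 else 0) + (if d' = j then 1 else 0) ≤ (1 : ℕ) := by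
          split_ifs <;> omega
        omega
      have hd' : d' = 0 ∨ d' = j := by
        by_contra hd
        rw [not_or] at hd
        rw [if_neg hd.1, if_neg hd.2] at hN1
        have : (if d = 0 then 1 else 0) + (if d = j then 1 else 0) ≤ (1 : ℕ) := by
          split_ifs <;> omega
        omega
      have hx2 : xarc (fun _ => false) false false m = 2 := by omega
      obtain ⟨l, hl0, hl1⟩ := q_x_two hm h1 h2 hx2
      change m = of 2 ^ l at hl1
      refine ⟨rfl, rfl, d, l, d', hd, hd', hl0, ?_⟩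
      rw [hg, hl1]
  refine ⟨?_, ?_, ?_, n0, nj, ?_⟩
  · intro e he
    rcases str e he with ⟨h1, h2, -⟩ | ⟨h1, h2, -⟩ <;> rw [h1, h2]
  · intro e he h3
    rcases str e he with ⟨h1, h2, h4⟩ | ⟨h1, h2, -⟩
    · exact h4
    · rw [h1] at h3
      exact absurd h3 (by decide)
  · intro e he h3
    rcases str e he with ⟨h1, h2, h4⟩ | ⟨h1, h2, h4⟩
    · rw [h1] at h3
      exact absurd h3 (by decide)
    · exact h4
  · intro p
    have h1 : ∀ S : List Arc, (∀ e ∈ S, e.1 = e.2.1) →
        2 * (S.filter (fun e => decide (e.1 = p))).length = ane p S := by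
      intro S
      induction S with
      | nil => intro _; rfl
      | cons e S ih =>
        intro hS
        have h2 := ih fun x hx => hS x (List.mem_cons_of_mem _ hx)
        have h3 := hS e List.mem_cons_self
        have h4 : ane p (e :: S) = ((if e.1 = p then 1 else 0) + (if e.2.1 = p then 1 else 0)) +
          ane p S := rfl
        rw [h4, ← h3]
        by_cases h5 : e.1 = p
        · rw [List.filter_cons_of_pos (by simpa using h5), if_pos h5, List.length_cons]
          omega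
        · rw [List.filter_cons_of_neg (by simpa using h5), if_neg h5]
          omega
    have h2 := h1 T (fun e he => by
      rcases str e he with ⟨h1, h2, -⟩ | ⟨h1, h2, -⟩ <;> rw [h1, h2])
    rw [hT.ends p] at h2
    omega

/-- the crossings of the arcs at Y -/
theorem PqSA_xt (p q : Bool) {l : ℤ} (hl : l ≠ 0) (d d' y : ℤ) :
    xarc (fun _ => true) p q ((of 2 ^ y)⁻¹ * (of 1 ^ d * of 2 ^ l * of 1 ^ (-d')) * of 2 ^ y) +
      2 * ((if d = 0 then 1 else 0) + (if d' = 0 then 1 else 0)) = 4 := by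
  have hl12 : In12 ((of 2 : FreeGroup (Fin 3)) ^ l) := q_nat_in12 true l
  have f1 : qfo false ((of 2 : FreeGroup (Fin 3)) ^ l) = true := PqSA_fo false hl
  have f2 : qfo false ((of 2 : FreeGroup (Fin 3)) ^ l)⁻¹ = true := PqSA_fo_inv false hl
  obtain ⟨g, hg⟩ : ∃ g : FreeGroup (Fin 3), g = of 1 ^ d * of 2 ^ l * of 1 ^ (-d') := ⟨_, rfl⟩
  have hg12 : In12 g := by
    rw [hg]
    exact In12_mul (In12_mul (q_nat_in12 false d) hl12) (q_nat_in12 false (-d'))
  have hx : xarc (fun _ => false) p q g = 2 := by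
    rw [hg]
    have h1 := q_core_x hl12 f1 f2 d d' p q
    have h2 : xarc (fun _ => false) p q ((of 2 : FreeGroup (Fin 3)) ^ l) = 2 := PqSA_pow false p q hl
    rw [h2] at h1
    exact h1
  have hg1 : g ≠ 1 := by
    rintro rfl
    rw [PhB_xarc In12_one, FreeGroup.toWord_one] at hx
    simp [PhB_x] at hx
  have hsw := PqSA_sw hg12 hg1 p q
  have a1 : (qfo false g = true) = (d = 0) := by
    have := (PqSA_fo1 hl12 f1 f2 d d' 0).1
    rw [← hg, neg_zero, zpow_zero, one_mul] at this
    exact propext this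
  have a2 : (qfo false g⁻¹ = true) = (d' = 0) := by
    have := (PqSA_fo1 hl12 f1 f2 d d' 0).2
    rw [← hg, neg_zero, zpow_zero, one_mul] at this
    exact propext this
  simp only [a1, a2] at hsw
  rw [← hg]
  have e1 : ((of 2 : FreeGroup (Fin 3)) ^ y)⁻¹ * g * of 2 ^ y =
      qnat true ^ (-y) * g * qnat true ^ y := by
    rw [zpow_neg]
    rfl
  rw [e1, PqSA_inv true hg12]
  omega

theorem PqSA_tg {l : ℤ} (hl : l ≠ 0) (d d' : ℤ) {y : ℤ} (hy : y ≠ 0)
    (h : qfo false ((of 2 ^ y)⁻¹ * (of 1 ^ d * of 2 ^ l * of 1 ^ (-d')) * of 2 ^ y :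
      FreeGroup (Fin 3)) = false) : d = 0 ∧ d' ≠ 0 ∧ l = y := by
  have hl12 : In12 ((of 2 : FreeGroup (Fin 3)) ^ l) := q_nat_in12 true l
  obtain ⟨G, hG⟩ : ∃ G : FreeGroup (Fin 3),
    G = (of 2 ^ y)⁻¹ * (of 1 ^ d * of 2 ^ l * of 1 ^ (-d')) * of 2 ^ y := ⟨_, rfl⟩
  rw [← hG] at h
  have hM12 : In12 ((of 1 : FreeGroup (Fin 3)) ^ d * of 2 ^ l * of 1 ^ (-d')) :=
    In12_mul (In12_mul (q_nat_in12 false d) hl12) (q_nat_in12 false (-d'))
  have hM1 : (of 1 : FreeGroup (Fin 3)) ^ d * of 2 ^ l * of 1 ^ (-d') ≠ 1 := by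
    intro h2
    have h4 := q_core_x hl12 (PqSA_fo false hl) (PqSA_fo_inv false hl) d d' true true
    have h5 : xarc (fun _ => false) true true ((of 2 : FreeGroup (Fin 3)) ^ l) = 2 :=
      PqSA_pow false true true hl
    rw [h5] at h4
    change xarc (fun _ => false) true true
      ((of 1 : FreeGroup (Fin 3)) ^ d * of 2 ^ l * of 1 ^ (-d')) = 2 at h4
    rw [h2, PhB_xarc In12_one, FreeGroup.toWord_one] at h4
    simp [PhB_x] at h4
  have hG12 : In12 G := by
    rw [hG]
    exact In12_mul (In12_mul (In12_inv (q_nat_in12 true y)) hM12) (q_nat_in12 true y)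
  have hG1 : G ≠ 1 := by
    intro h1
    apply hM1
    have h3 : (of 1 : FreeGroup (Fin 3)) ^ d * of 2 ^ l * of 1 ^ (-d') = of 2 ^ y *
      ((of 2 ^ y)⁻¹ * (of 1 ^ d * of 2 ^ l * of 1 ^ (-d')) * of 2 ^ y) * (of 2 ^ y)⁻¹ := by group
    rw [h3, ← hG, h1]
    group
  have hft : qfo true G = true := by
    by_contra hc
    rw [Bool.not_eq_true] at hc
    rw [PqSA_or hG12 hG1 hc] at h
    exact absurd h (by decide)
  have fM := (PqSA_fo1 hl12 (PqSA_fo false hl) (PqSA_fo_inv false hl) d d' 0).1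
  have fM' := (PqSA_fo1 hl12 (PqSA_fo false hl) (PqSA_fo_inv false hl) d d' 0).2
  rw [neg_zero, zpow_zero, one_mul] at fM fM'
  by_cases hd : d = 0
  · by_cases hd' : d' = 0
    · exfalso
      subst hd
      subst hd'
      have e1 : G = of 2 ^ l := by
        rw [hG]
        group
      rw [e1] at hft
      have := q_pow_fo true l
      change qfo true (of 2 ^ l) = false at this
      rw [this] at hft
      exact absurd hft (by decide)
    · refine ⟨hd, hd', ?_⟩
      subst hd
      have e1 : G = qnat true ^ (l - y) * qnat (!true) ^ (-d') * qnat true ^ (-(-y)) := by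
        rw [hG]
        change _ = (of 2 : FreeGroup (Fin 3)) ^ (l - y) * of 1 ^ (-d') * of 2 ^ (-(-y))
        rw [show l - y = -y + l by ring, zpow_add]
        group
      rw [e1, q_core_fo (q_nat_in12 _ _) (PqSA_fo true (neg_ne_zero.2 hd'))
        (PqSA_fo_inv true (neg_ne_zero.2 hd'))] at hft
      omega
  · exfalso
    by_cases hd' : d' = 0
    · subst hd'
      have e1 : G = qnat true ^ (-y) * qnat (!true) ^ d * qnat true ^ (-(-(l + y))) := by
        rw [hG]
        change _ = (of 2 : FreeGroup (Fin 3)) ^ (-y) * of 1 ^ d * of 2 ^ (-(-(l + y)))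
        rw [neg_neg, zpow_add]
        group
      rw [e1, q_core_fo (q_nat_in12 _ _) (PqSA_fo true hd) (PqSA_fo_inv true hd)] at hft
      omega
    · have g1 : qfo true ((of 1 : FreeGroup (Fin 3)) ^ d * of 2 ^ l * of 1 ^ (-d')) = true := by
        by_contra hc
        rw [Bool.not_eq_true] at hc
        exact hd (fM.1 (PqSA_or hM12 hM1 hc))
      have g2 : qfo true ((of 1 : FreeGroup (Fin 3)) ^ d * of 2 ^ l * of 1 ^ (-d'))⁻¹ = true := by
        by_contra hc
        rw [Bool.not_eq_true] at hc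
        exact hd' (fM'.1 (PqSA_or (In12_inv hM12) (fun h => hM1 (inv_eq_one.1 h)) hc))
      have e1 : G = qnat true ^ (-y) * (of 1 ^ d * of 2 ^ l * of 1 ^ (-d')) *
          qnat true ^ (-(-y)) := by
        rw [hG]
        change _ = (of 2 : FreeGroup (Fin 3)) ^ (-y) * (of 1 ^ d * of 2 ^ l * of 1 ^ (-d')) *
          of 2 ^ (-(-y))
        rw [neg_neg, zpow_neg (of 2 : FreeGroup (Fin 3)) y]
      rw [e1, q_core_fo hM12 g1 g2] at hft
      omega

theorem PqSA_tf (p q : Bool) {l : ℤ} (hl : l ≠ 0) (d d' y : ℤ) (hy : y ≠ 0) :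
    2 ≤ xarc (fun _ => false) p q ((of 2 ^ y)⁻¹ * (of 1 ^ d * of 2 ^ l * of 1 ^ (-d')) * of 2 ^ y) ∧
    (xarc (fun _ => false) p q ((of 2 ^ y)⁻¹ * (of 1 ^ d * of 2 ^ l * of 1 ^ (-d')) * of 2 ^ y) = 2 →
      (d = 0 ∧ d' = 0) ∨ (d = 0 ∧ l = y) ∨ (d' = 0 ∧ l = -y)) := by
  have hl12 : In12 ((of 2 : FreeGroup (Fin 3)) ^ l) := q_nat_in12 true l
  obtain ⟨G, hG⟩ : ∃ G : FreeGroup (Fin 3),
    G = (of 2 ^ y)⁻¹ * (of 1 ^ d * of 2 ^ l * of 1 ^ (-d')) * of 2 ^ y := ⟨_, rfl⟩
  have hxt := PqSA_xt p q hl d d' y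
  rw [← hG] at hxt ⊢
  have hG12 : In12 G := by
    rw [hG]
    exact In12_mul (In12_mul (In12_inv (q_nat_in12 true y))
      (In12_mul (In12_mul (q_nat_in12 false d) hl12) (q_nat_in12 false (-d')))) (q_nat_in12 true y)
  have hG1 : G ≠ 1 := by
    intro h1
    rw [hG] at h1
    have h2 : (of 1 : FreeGroup (Fin 3)) ^ d * of 2 ^ l * of 1 ^ (-d') = 1 := by
      have h3 : (of 1 : FreeGroup (Fin 3)) ^ d * of 2 ^ l * of 1 ^ (-d') = of 2 ^ y *
        ((of 2 ^ y)⁻¹ * (of 1 ^ d * of 2 ^ l * of 1 ^ (-d')) * of 2 ^ y) * (of 2 ^ y)⁻¹ := by group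
      rw [h3, h1]
      group
    have h4 := q_core_x hl12 (PqSA_fo false hl) (PqSA_fo_inv false hl) d d' p q
    have h5 : xarc (fun _ => false) p q ((of 2 : FreeGroup (Fin 3)) ^ l) = 2 := PqSA_pow false p q hl
    rw [h5] at h4
    change xarc (fun _ => false) p q ((of 1 : FreeGroup (Fin 3)) ^ d * of 2 ^ l * of 1 ^ (-d')) = 2
      at h4
    rw [h2, PhB_xarc In12_one, FreeGroup.toWord_one] at h4
    simp [PhB_x] at h4
  have hsw := PqSA_sw hG12 hG1 p q
  have hb1 := fun h => PqSA_tg hl d d' hy (hG ▸ h : qfo false ((of 2 ^ y)⁻¹ *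
    (of 1 ^ d * of 2 ^ l * of 1 ^ (-d')) * of 2 ^ y : FreeGroup (Fin 3)) = false)
  have e2 : G⁻¹ = (of 2 ^ y)⁻¹ * (of 1 ^ d' * of 2 ^ (-l) * of 1 ^ (-d)) * of 2 ^ y := by
    rw [hG]
    group
  have hb2 := fun h => PqSA_tg (neg_ne_zero.2 hl) d' d hy (e2 ▸ h : qfo false ((of 2 ^ y)⁻¹ *
    (of 1 ^ d' * of 2 ^ (-l) * of 1 ^ (-d)) * of 2 ^ y : FreeGroup (Fin 3)) = false)
  rcases hc1 : qfo false G with _ | _ <;> rcases hc2 : qfo false G⁻¹ with _ | _
  · have c1 := hb1 hc1
    have c2 := hb2 hc2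
    exact absurd c2.1 c1.2.1
  · obtain ⟨c1, c2, c3⟩ := hb1 hc1
    rw [hc1, hc2, if_neg (by decide), if_pos rfl] at hsw
    rw [if_pos c1, if_neg c2] at hxt
    constructor
    · omega
    · intro _
      exact Or.inr (Or.inl ⟨c1, c3⟩)
  · obtain ⟨c1, c2, c3⟩ := hb2 hc2
    rw [hc1, hc2, if_pos rfl, if_neg (by decide)] at hsw
    rw [if_pos c1, if_neg c2] at hxt
    constructor
    · omega
    · intro _
      exact Or.inr (Or.inr ⟨c1, by omega⟩)
  · rw [hc1, hc2, if_pos rfl] at hsw
    by_cases c1 : d = 0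
    · by_cases c2 : d' = 0
      · rw [if_pos c1, if_pos c2] at hxt
        exact ⟨by omega, fun _ => Or.inl ⟨c1, c2⟩⟩
      · rw [if_pos c1, if_neg c2] at hxt
        exact ⟨by omega, fun _ => by omega⟩
    · by_cases c2 : d' = 0
      · rw [if_neg c1, if_pos c2] at hxt
        exact ⟨by omega, fun _ => by omega⟩
      · rw [if_neg c1, if_neg c2] at hxt
        exact ⟨by omega, fun _ => by omega⟩

theorem PqSA_fl (p : Bool) (T : List Arc) : (T.map (fun e => if e.1 = p then 1 else 0)).sum =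
    (T.filter (fun e => decide (e.1 = p))).length := by
  induction T with
  | nil => rfl
  | cons e T ih =>
    rw [List.map_cons, List.sum_cons, ih]
    by_cases h5 : e.1 = p
    · rw [List.filter_cons_of_pos (by simpa using h5), if_pos h5, List.length_cons]
      omega
    · rw [List.filter_cons_of_neg (by simpa using h5), if_neg h5]
      omega

theorem PqSA_al1 (i y k : ℤ) : alab (qbc true i y) (true, true, of 1 ^ k) = of 1 ^ k := by
  unfold alab qbc
  simp only [if_true]
  group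

theorem PqSA_al2 (i y : ℤ) (g : FreeGroup (Fin 3)) : alab (qbc true i y) (false, false, g) =
    (of 2 ^ y)⁻¹ * g * of 2 ^ y := rfl

theorem PqSA_al3 (j : ℤ) (g : FreeGroup (Fin 3)) : alab (ps false (of 1 ^ j)) (true, true, g) =
    g := by
  unfold alab ps
  simp

theorem PqSA_al4 (j : ℤ) (g : FreeGroup (Fin 3)) : alab (ps false (of 1 ^ j)) (false, false, g) =
    (of 1 ^ j)⁻¹ * g * of 1 ^ j := rfl

theorem PqSA_str {h : ℕ} {T : List Arc} {j : ℤ} (hS : qSA h j T) : ∀ e ∈ T,
    (∃ k : ℤ, k ≠ 0 ∧ e = (true, true, of 1 ^ k)) ∨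
      ∃ d l d' : ℤ, (d = 0 ∨ d = j) ∧ (d' = 0 ∨ d' = j) ∧ l ≠ 0 ∧
        e = (false, false, of 1 ^ d * of 2 ^ l * of 1 ^ (-d')) := by
  intro e he
  have h1 := hS.eq e he
  have h2 := hS.ax e he
  have h3 := hS.ay e he
  obtain ⟨p, q, g⟩ := e
  simp only at h1 h2 h3
  subst h1
  cases p
  · obtain ⟨d, l, d', a1, a2, a3, rfl⟩ := h3 rfl
    exact Or.inr ⟨d, l, d', a1, a2, a3, rfl⟩
  · obtain ⟨k, a1, rfl⟩ := h2 rfl
    exact Or.inl ⟨k, a1, rfl⟩

theorem PqSA_in12 {h : ℕ} {T : List Arc} {j : ℤ} (hS : qSA h j T) : ∀ e ∈ T, In12 e.2.2 := by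
  intro e he
  rcases PqSA_str hS e he with ⟨k, -, rfl⟩ | ⟨d, l, d', -, -, -, rfl⟩
  · exact q_nat_in12 false k
  · exact In12_mul (In12_mul (q_nat_in12 false d) (q_nat_in12 true l)) (q_nat_in12 false (-d'))

theorem PqSA_kl (k : ℤ) (p q : Bool) {l : ℤ} (hl : l ≠ 0) (d d' : ℤ) :
    PqSA_k k (p, q, of 1 ^ d * of 2 ^ l * of 1 ^ (-d')) =
      (if p = false ∧ d = k then 1 else 0) + (if q = false ∧ d' = k then 1 else 0) :=
  PqSA_kc k p q (q_nat_in12 true l) (PqSA_fo false hl) (PqSA_fo_inv false hl) d d'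

theorem q_SA_x {h : ℕ} {T : List Arc} {j : ℤ} (hj : j ≠ 0) (hS : qSA h j T) (i y : ℤ) :
    xc (fun _ => true) (ast (qbc true i y) T) = 4 * h := by
  have h1 : xc (fun _ => true) (ast (qbc true i y) T) =
      (T.map (fun e => xarc (fun _ => true) e.1 e.2.1 (alab (qbc true i y) e))).sum := by
    unfold xc ast
    rw [List.map_map]
    rfl
  have h2 : (T.map (fun e => xarc (fun _ => true) e.1 e.2.1 (alab (qbc true i y) e) +
      2 * PqSA_k 0 e)).sum = (T.map (fun e => 2 * (if e.1 = true then 1 else 0) +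
      4 * (if e.1 = false then 1 else 0))).sum := by
    congr 1
    apply List.map_congr_left
    intro e he
    rcases PqSA_str hS e he with ⟨k, hk, rfl⟩ | ⟨d, l, d', -, -, hl, rfl⟩
    · rw [PqSA_al1, PqSA_k0]
      have h3 : xarc (fun _ => true) true true ((of 1 : FreeGroup (Fin 3)) ^ k) = 2 :=
        PqSA_pow true true true hk
      simp only [h3]
      simp
    · rw [PqSA_al2, PqSA_kl 0 false false hl]
      have h3 := PqSA_xt false false hl d d' y
      simp only [true_and]
      rw [h3]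
      simp
  rw [List.sum_map_add, List.sum_map_add, List.sum_map_mul_left, List.sum_map_mul_left,
    List.sum_map_mul_left, ← h1, ← PqSA_qe, hS.n0, PqSA_fl, PqSA_fl, hS.len, hS.len] at h2
  omega

theorem q_SA_same {h : ℕ} {T : List Arc} {j : ℤ} (hj : j ≠ 0) (hS : qSA h j T) {i y : ℤ}
    (hx : xc (fun _ => false) (ast (qbc true i y) T) = 2 * h) :
    ast (qbc true i y) T = T ∨ ast (qbc true i y) T = ast (ps false (of 1 ^ j)) T := by
  by_cases hy : y = 0
  · left
    subst hy
    unfold ast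
    conv_rhs => rw [← List.map_id T]
    apply List.map_congr_left
    intro e he
    rcases PqSA_str hS e he with ⟨k, hk, rfl⟩ | ⟨d, l, d', -, -, hl, rfl⟩
    · rw [PqSA_al1]
      rfl
    · rw [PqSA_al2, zpow_zero, inv_one, one_mul, mul_one]
      rfl
  · right
    have h1 : xc (fun _ => false) (ast (qbc true i y) T) =
        (T.map (fun e => xarc (fun _ => false) e.1 e.2.1 (alab (qbc true i y) e))).sum := by
      unfold xc ast
      rw [List.map_map]
      rfl
    have k1 : ∀ e ∈ T, 2 * (if e.1 = false then 1 else 0) ≤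
        xarc (fun _ => false) e.1 e.2.1 (alab (qbc true i y) e) := by
      intro e he
      rcases PqSA_str hS e he with ⟨k, hk, rfl⟩ | ⟨d, l, d', -, -, hl, rfl⟩
      · simp
      · rw [PqSA_al2]
        exact (PqSA_tf false false hl d d' y hy).1
    have k2 := PqSA_eq k1 (by
      rw [← h1, hx, List.sum_map_mul_left, PqSA_fl, hS.len])
    have k3 : ∀ e ∈ T, (if e.1 = false then 1 else 0) ≤ PqSA_k 0 e := by
      intro e he
      have h2 := k2 e he
      rcases PqSA_str hS e he with ⟨k, hk, rfl⟩ | ⟨d, l, d', -, -, hl, rfl⟩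
      · simp
      · rw [PqSA_al2, if_pos rfl] at h2
        rw [PqSA_kl 0 false false hl]
        simp only [true_and, if_true]
        rcases (PqSA_tf false false hl d d' y hy).2 h2.symm with ⟨h3, h4⟩ | ⟨h3, h4⟩ | ⟨h3, h4⟩
        · rw [if_pos h3]
          omega
        · rw [if_pos h3]
          omega
        · rw [if_pos h3]
          omega
    have k4 := PqSA_eq k3 (by
      rw [← PqSA_qe, hS.n0, PqSA_fl, hS.len])
    unfold ast
    apply List.map_congr_left
    intro e he
    have h2 := k2 e he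
    have h5 := k4 e he
    rcases PqSA_str hS e he with ⟨k, hk, rfl⟩ | ⟨d, l, d', hd, hd', hl, rfl⟩
    · rw [PqSA_al1, PqSA_al3]
    · rw [PqSA_al2, if_pos rfl] at h2
      rw [PqSA_kl 0 false false hl] at h5
      simp only [true_and, if_true] at h5
      rw [PqSA_al2, PqSA_al4]
      have h6 : (d = 0 ∧ d' = j ∧ l = y) ∨ (d' = 0 ∧ d = j ∧ l = -y) := by
        rcases (PqSA_tf false false hl d d' y hy).2 h2.symm with ⟨h3, h4⟩ | ⟨h3, h4⟩ | ⟨h3, h4⟩
        · rw [if_pos h3, if_pos h4] at h5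
          omega
        · left
          refine ⟨h3, ?_, h4⟩
          rcases hd' with h6 | h6
          · rw [if_pos h3, if_pos h6] at h5
            omega
          · exact h6
        · right
          refine ⟨h3, ?_, h4⟩
          rcases hd with h6 | h6
          · rw [if_pos h3, if_pos h6] at h5
            omega
          · exact h6
      have h7 : ((of 2 : FreeGroup (Fin 3)) ^ y)⁻¹ * (of 1 ^ d * of 2 ^ l * of 1 ^ (-d')) *
          of 2 ^ y = (of 1 ^ j)⁻¹ * (of 1 ^ d * of 2 ^ l * of 1 ^ (-d')) * of 1 ^ j := by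
        rcases h6 with ⟨rfl, rfl, rfl⟩ | ⟨rfl, rfl, rfl⟩
        · group
        · group
      rw [h7]

theorem q_SA_uniq {h : ℕ} {T : List Arc} {j j' : ℤ} (h1 : 1 ≤ h) (hj : j ≠ 0) (hj' : j' ≠ 0)
    (hS : qSA h j T) (hS' : qSA h j' T) : j = j' := by
  by_contra hne
  have h2 : ∀ e ∈ T, PqSA_k j e = 0 := by
    intro e he
    rcases PqSA_str hS' e he with ⟨k, hk, rfl⟩ | ⟨d, l, d', hd, hd', hl, rfl⟩
    · exact PqSA_k0 j true true k
    · rw [PqSA_kl j false false hl]
      have a1 : d ≠ j := by omega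
      have a2 : d' ≠ j := by omega
      simp [a1, a2]
  have h3 := hS.nj
  rw [PqSA_qe, List.map_congr_left h2] at h3
  simp at h3
  omega

theorem q_SA_back {h : ℕ} {T : List Arc} {j : ℤ} (hS : qSA h j T) :
    qSA h (-j) (ast (ps false (of 1 ^ j)) T) := by
  have e2 : ps false (of 1 ^ j) = qpw false (fun q => if q = false then j else 0) := by
    funext q
    cases q
    · rfl
    · unfold ps qpw
      simp
  refine ⟨?_, ?_, ?_, ?_, ?_, ?_⟩
  · intro e he
    unfold ast at he
    rw [List.mem_map] at he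
    obtain ⟨e', he', rfl⟩ := he
    exact hS.eq e' he'
  · intro e he h1
    unfold ast at he
    rw [List.mem_map] at he
    obtain ⟨e', he', rfl⟩ := he
    rcases PqSA_str hS e' he' with ⟨k, hk, rfl⟩ | ⟨d, l, d', hd, hd', hl, rfl⟩
    · rw [PqSA_al3]
      exact ⟨k, hk, rfl⟩
    · exact absurd (show false = true from h1) (by decide)
  · intro e he h1
    unfold ast at he
    rw [List.mem_map] at he
    obtain ⟨e', he', rfl⟩ := he
    rcases PqSA_str hS e' he' with ⟨k, hk, rfl⟩ | ⟨d, l, d', hd, hd', hl, rfl⟩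
    · exact absurd (show true = false from h1) (by decide)
    · rw [PqSA_al4]
      refine ⟨d - j, l, d' - j, by omega, by omega, hl, ?_⟩
      change (of 1 ^ j)⁻¹ * (of 1 ^ d * of 2 ^ l * of 1 ^ (-d')) * of 1 ^ j =
        of 1 ^ (d - j) * of 2 ^ l * of 1 ^ (-(d' - j))
      rw [show d - j = -j + d by ring, show -(d' - j) = -d' + j by ring, zpow_add, zpow_add]
      group
  · rw [e2, q_shift (PqSA_in12 hS), if_pos rfl, zero_add]
    exact hS.nj
  · rw [e2, q_shift (PqSA_in12 hS), if_pos rfl, neg_add_cancel]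
    exact hS.n0
  · intro p
    rw [← hS.len p, ← PqSA_fl, ← PqSA_fl]
    unfold ast
    rw [List.map_map]
    rfl

end Pool.Agent.Sims
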