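import Pool.Agent.Sims.PqTM
import Pool.Agent.Sims.PqHc
import Pool.Agent.Sims.PqSe

/-!
# Module `PqTC` : classes with both mixed corners minimal in one room

`qTB c V`: `V` and `θ V` are half-states.
* `q_TB_TA`: `q_eok_b`, `q_eok_c` with `u = 1` (`qcl L 1 = V`: `upd 1 L = L`), or directly `capC V (cutT τ) = xc τ (tarcs L)` (`xc_cap`), `cutT_Sb`, `cutT_Sc`; `q_TA_of` (`qX` for the constant corners).  `q_TA_TB`: conversely for `qcl L u`:
  `ast u T = tarcs (upd u L)`, `q_TA_xc`, `q_eok_b`, `q_eok_c`.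
* `q_TB_pr`: `cutT_bb`, `cutT_cc`, `q_TA_xc`.
* `q_Rm_bc`: `qRm c V W`: `W = qcl L (qbc true (-x) y)`: `u false = of 2 ^ y`, `(u true)⁻¹ = of 1 ^ x` (`q_cl_T`, `q_T_uniq`).  `q_Rm_bc'`: `qRm c (θ V) (θ W)`: by `q_th_T`, `q_th_th`: `qT (of 1 ^ (-x)) (of 2 ^ (-y)) V W`, so
  `W = qcl L (qbc false (-x) y)`.  Conversely `q_bc_Rm`, `q_bc_Rm'` (`q_cl_T`, `q_th_T`).
* `q_TB_pair`: `V = mk (arcP L)` (`q_setup`), `T = tarcs L`, `W = qcl L (qbc p i j)`, `p = true` in the first case, `p = false` in the second.  `qTA h T` (`q_TB_TA`), `qTA h (ast (qbc p i j) T)` (`q_TB_TA` for `upd (qbc p i j) L`, `tarcs_upd`),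
  `Lv2` (same `cycLen`, `TpL_len`).  `ast (qbc p i j) T ≠ T` since otherwise `upd .. = L` (`upd_inj` with `u = 1`) and `W = V`.  `q_TM_two`: `ast (qbc p i j) T = ast (qbc (!p) (-i) (-j)) T`, so `W = qcl L (qbc (!p) (-i) (-j))` (`upd_inj`):
  both relations.  For `W'` in the same way `W' = qcl L (qbc true i' j')` (after possibly exchanging), and `W = qcl L (qbc true i0 j0)`; `q_TM_uniq`: equal.
Difficulty 3.
-/

namespace Pool.Agent.Sims

open FreeGroup (of)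

theorem PqTC_len {c V : CC} (h : Sm c V) : cycLen V = cycLen c := by
  rw [cycLen_eq_sum, cycLen_eq_sum]
  exact Finset.sum_congr rfl fun i _ => h.2 i

theorem q_TB_TA {c : CC} (hc : qOK c) {L : List (Bool × FreeGroup (Fin 3))} (hL : ArcOK L)
    (hV : qTB c (ConjClasses.mk (arcP L))) {h : ℕ} (h0 : cnt c 0 = 2 * h) :
    qTA h (tarcs L) := by
  obtain ⟨⟨hS, h1⟩, ⟨-, h2⟩⟩ := hV
  obtain ⟨-, hT, -, hX⟩ := q_qX hc hL hS h0
  have h3 : cnt (ConjClasses.mk (arcP L)) 0 = 2 * h := by rw [hS.2 0, h0]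
  rw [q_th_capSb, q_th_cnt] at h2
  apply q_TA_of hT
  · rw [← xc_cap hL, cutT_Sb, h1, h3]
  · rw [← xc_cap hL, cutT_Sc, h2, h3]
  · have := hX 1 (fun _ => In12_one) (fun _ => false)
    rwa [ast_one] at this
  · have := hX 1 (fun _ => In12_one) (fun _ => true)
    rwa [ast_one] at this

theorem q_TA_TB {c : CC} (hc : qOK c) {L : List (Bool × FreeGroup (Fin 3))} (hL : ArcOK L)
    (hV : Sm c (ConjClasses.mk (arcP L))) {h : ℕ} (h0 : cnt c 0 = 2 * h)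
    (hb : xc (fun p => !p) (tarcs L) = 2 * h) (hc' : xc (fun p => p) (tarcs L) = 2 * h) :
    qTB c (ConjClasses.mk (arcP L)) := by
  have h3 : cnt (ConjClasses.mk (arcP L)) 0 = 2 * h := by rw [hV.2 0, h0]
  refine ⟨⟨hV, ?_⟩, ⟨q_th_Sm hV, ?_⟩⟩
  · rw [h3, ← hb, ← xc_cap hL, cutT_Sb]
  · rw [q_th_cnt, q_th_capSb, h3, ← hc', ← xc_cap hL, cutT_Sc]

theorem q_TB_pr {c V : CC} (hc : qOK c) (hV : qTB c V) :
    capC V (PrC 1) = cnt c 0 ∧ capC V (PrC 2) = cnt c 0 := by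
  obtain ⟨h, L, -, h0, hL, -, rfl, hT, -, -⟩ := q_setup hc hV.1.1
  have hA := q_TB_TA hc hL hV h0
  obtain ⟨e1, e2, -, -⟩ := q_TA_xc hT hA
  rw [h0]
  constructor
  · rw [← cutT_cc, xc_cap hL, e2]
  · rw [← cutT_bb, xc_cap hL, e1]

theorem PqTC_bc (p : Bool) (i j : ℤ) (q : Bool) : In12 (qbc p i j q) := by
  unfold qbc
  split_ifs
  · exact In12_zpow (In12_of (by decide)) _
  · exact In12_zpow (In12_of (by decide)) _

theorem q_Rm_bc {c W : CC} {L : List (Bool × FreeGroup (Fin 3))} (hL : ArcOK L)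
    (h : qRm c (ConjClasses.mk (arcP L)) W) : ∃ i j : ℤ, W = qcl L (qbc true i j) := by
  obtain ⟨-, -, x, y, hT⟩ := h
  refine ⟨-x, y, ?_⟩
  have h1 := q_cl_T hL (u := qbc true (-x) y) (PqTC_bc _ _ _)
  have e1 : qbc true (-x) y false = of 2 ^ y := by simp [qbc]
  have e2 : (qbc true (-x) y true)⁻¹ = of 1 ^ x := by simp [qbc]
  rw [e1, e2] at h1
  exact q_T_uniq hT h1

theorem q_Rm_bc' {c W : CC} {L : List (Bool × FreeGroup (Fin 3))} (hL : ArcOK L)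
    (h : qRm c (act qth.aut (ConjClasses.mk (arcP L))) (act qth.aut W)) :
    ∃ i j : ℤ, W = qcl L (qbc false i j) := by
  obtain ⟨-, -, x, y, hT⟩ := h
  refine ⟨-x, y, ?_⟩
  have h2 := q_th_T hT
  rw [q_th_th, q_th_th] at h2
  have h1 := q_cl_T hL (u := qbc false (-x) y) (PqTC_bc _ _ _)
  have e1 : qbc false (-x) y false = (of 1 ^ x)⁻¹ := by simp [qbc]
  have e2 : (qbc false (-x) y true)⁻¹ = (of 2 ^ y)⁻¹ := by simp [qbc]
  rw [e1, e2] at h1
  exact q_T_uniq h2 h1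

theorem q_bc_Rm {c : CC} {L : List (Bool × FreeGroup (Fin 3))} (hL : ArcOK L) {i j : ℤ}
    (h1 : qHS c (ConjClasses.mk (arcP L))) (h2 : qHS c (qcl L (qbc true i j))) :
    qRm c (ConjClasses.mk (arcP L)) (qcl L (qbc true i j)) := by
  refine ⟨h1, h2, -i, j, ?_⟩
  have h3 := q_cl_T hL (u := qbc true i j) (PqTC_bc _ _ _)
  have e1 : qbc true i j false = of 2 ^ j := by simp [qbc]
  have e2 : (qbc true i j true)⁻¹ = of 1 ^ (-i) := by simp [qbc]
  rw [e1, e2] at h3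
  exact h3

theorem q_bc_Rm' {c : CC} {L : List (Bool × FreeGroup (Fin 3))} (hL : ArcOK L) {i j : ℤ}
    (h1 : qHS c (act qth.aut (ConjClasses.mk (arcP L))))
    (h2 : qHS c (act qth.aut (qcl L (qbc false i j)))) :
    qRm c (act qth.aut (ConjClasses.mk (arcP L))) (act qth.aut (qcl L (qbc false i j))) := by
  refine ⟨h1, h2, -i, j, ?_⟩
  have h3 := q_th_T (q_cl_T hL (u := qbc false i j) (PqTC_bc _ _ _))
  have e1 : (qbc false i j false)⁻¹ = of 1 ^ (-i) := by simp [qbc]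
  have e2 : (qbc false i j true)⁻¹⁻¹ = of 2 ^ j := by simp [qbc]
  rw [e1, e2] at h3
  exact h3

theorem PqTC_key {c : CC} (hc : qOK c) {L : List (Bool × FreeGroup (Fin 3))} (hL : ArcOK L)
    (hV : qTB c (ConjClasses.mk (arcP L))) {h : ℕ} (h0 : cnt c 0 = 2 * h) (h1 : 1 ≤ h)
    (hT : TOK h (tarcs L)) {p : Bool} {i j : ℤ} (hW : qTB c (qcl L (qbc p i j)))
    (hne : qcl L (qbc p i j) ≠ ConjClasses.mk (arcP L)) :
    Lv2 (tarcs L) (qbc p i j) ∧ qTA h (ast (qbc p i j) (tarcs L)) ∧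
      ast (qbc p i j) (tarcs L) ≠ tarcs L ∧
      qcl L (qbc p i j) = qcl L (qbc (!p) (-i) (-j)) := by
  have hu : ∀ q, In12 (qbc p i j q) := PqTC_bc p i j
  have hA := q_TB_TA hc hL hV h0
  have hl : Lv2 (tarcs L) (qbc p i j) := by
    refine ⟨hu, ?_⟩
    have e1 := TpL_len hL hu
    have e2 := TpL_len0 hL
    have e3 := PqTC_len hV.1.1
    have e4 : cycLen (ConjClasses.mk (arcP (upd (qbc p i j) L))) = cycLen c := PqTC_len hW.1.1
    omega
  have hA' : qTA h (ast (qbc p i j) (tarcs L)) := by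
    rw [← tarcs_upd]
    exact q_TB_TA hc (upd_ArcOK hL hu) hW h0
  have hne' : ast (qbc p i j) (tarcs L) ≠ tarcs L := by
    intro he
    apply hne
    rw [← tarcs_upd] at he
    have h2 : upd (qbc p i j) L = L := by
      rw [← TpLa_back (upd (qbc p i j) L), he, TpLa_back]
    show ConjClasses.mk (arcP (upd (qbc p i j) L)) = _
    rw [h2]
  refine ⟨hl, hA', hne', ?_⟩
  obtain ⟨-, -, h3⟩ := q_TM_two hT h1 hA hl hA' hne'
  show ConjClasses.mk (arcP (upd (qbc p i j) L)) = ConjClasses.mk (arcP (upd (qbc (!p) (-i) (-j)) L))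
  rw [upd_inj h3]

theorem q_TB_pair {c V W : CC} (hc : qOK c) (hV : qTB c V) (hW : qTB c W) (hne : W ≠ V)
    (h : qRm c V W ∨ qRm c (act qth.aut V) (act qth.aut W)) :
    qRm c V W ∧ qRm c (act qth.aut V) (act qth.aut W) ∧
      ∀ W', qTB c W' → W' ≠ V → (qRm c V W' ∨ qRm c (act qth.aut V) (act qth.aut W')) →
        W' = W := by
  obtain ⟨k, L, hk, h0, hL, -, rfl, hT, -, -⟩ := q_setup hc hV.1.1
  have h1 : 1 ≤ k := by omega
  have key : ∀ W', qTB c W' → W' ≠ ConjClasses.mk (arcP L) →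
      (qRm c (ConjClasses.mk (arcP L)) W' ∨
        qRm c (act qth.aut (ConjClasses.mk (arcP L))) (act qth.aut W')) →
      ∃ i j : ℤ, W' = qcl L (qbc true i j) := by
    intro W' hW' hne' h'
    rcases h' with h' | h'
    · exact q_Rm_bc hL h'
    · obtain ⟨i, j, rfl⟩ := q_Rm_bc' hL h'
      obtain ⟨-, -, -, h2⟩ := PqTC_key hc hL hV h0 h1 hT hW' hne'
      exact ⟨-i, -j, h2⟩
  obtain ⟨i, j, rfl⟩ := key W hW hne h
  obtain ⟨l1, a1, n1, e1⟩ := PqTC_key hc hL hV h0 h1 hT hW hne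
  refine ⟨q_bc_Rm hL hV.1 hW.1, ?_, ?_⟩
  · have h2 := hW.2
    rw [e1] at h2 ⊢
    exact q_bc_Rm' hL hV.2 h2
  · intro W' hW' hne' h'
    obtain ⟨i', j', rfl⟩ := key W' hW' hne' h'
    obtain ⟨l2, a2, n2, -⟩ := PqTC_key hc hL hV h0 h1 hT hW' hne'
    obtain ⟨rfl, rfl⟩ := q_TM_uniq hT h1 (q_TB_TA hc hL hV h0) l1 a1 n1 l2 a2 n2
    rfl

end Pool.Agent.Sims
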