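import Pool.Agent.Sims.PqSA
import Pool.Agent.Sims.PqTC
import Pool.Agent.Sims.PqRo

/-!
# Module `PqSB` : classes with a jump: rooms

* `q_Jb_SA`: `qJb c V W`, `V = mk (arcP L)`: `W = qcl L (ps false (of 1 ^ j))`: `qT (of 1 ^ j) 1 V W`, `u false = of 1 ^ j`, `u true = 1` (`q_cl_T`, `q_T_uniq`); `q_SA_of`: `xc (const false) T = capC V (PrC 2) = 2h` (`cutT_bb`, `xc_cap`), the corner
  cut `fun p => !p`: `q_eok_b` or `cutT_Sb` for `V` and `W`; `Lv2` from the same `cycLen` (`TpL_len`).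
* `q_Jb_pr`: `U = qcl L (qbc true i y)` (`q_Rm_bc`), `capC U (PrC 1) = xc (const true) (ast u T) = 4h` (`cutT_cc`, `q_cap_cl`, `q_SA_x`), `cnt c 0 = 2h`.
* `q_Jb_same`: `capC U (PrC 2) = xc (const false) (ast u T) = 2h`: `q_SA_same`, `upd_inj` (`q_SA_same` gives equal lists `ast ..`).
* `q_Jb_symm`: `q_SA_back` for `L' = upd (ps false (of 1 ^ j)) L`: `capC W (PrC 2) = 2h`: `q_shift_x` (or the form); `qT (of 1 ^ (-j)) 1 W V` (`q_T_symm`).
* `q_Jb_uniq`: both jumps have the exponents `j, j'`; `qSA h j T`, `qSA h j' T`; `q_SA_uniq`, `q_T_uniq`.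
* `q_Jc_pr`: `q_ro_Jc`, `q_ro_Rm`, `q_Jb_pr` for `ρ c`, `q_ro_capP1`, `q_ro_cnt`, `q_ro_OK`.
* `q_no_TB_Jb`: if `qJb c U U'` and `V` is in the room of `U` or of `qfl U` then not `qTB c V`: `capC V (PrC 1) = 2 cnt c 0` (`q_Jb_pr`; for the room of `qfl U`: `qRm c U (qfl V)` by `q_fl_Rm`, `q_fl_fl`, and `q_fl_capP`) against
  `capC V (PrC 1) = cnt c 0` (`q_TB_pr`), `cnt c 0 ≥ 4`.
* `q_no_TB_Jc`: the same with `PrC 2` (`q_Jc_pr`).  `q_no_Jc_Jb`: `qJc c V V'` has `capC V (PrC 1) = cnt V 0 = cnt c 0`.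
Difficulty 2-3.
-/

namespace Pool.Agent.Sims

open FreeGroup (of)

theorem PqSB_upd1 (L : List (Bool × FreeGroup (Fin 3))) : upd 1 L = L := by
  rw [← TpLa_back (upd 1 L), tarcs_upd, ast_one, TpLa_back]

theorem PqSB_in_ps (i : Fin 3) (hi : i ≠ 0) (p : Bool) (j : ℤ) (q : Bool) :
    In12 (ps p (of i ^ j) q) := by
  unfold ps
  split_ifs
  · exact In12_zpow (In12_of hi) j
  · exact In12_one

theorem PqSB_in_bc (p : Bool) (i j : ℤ) (q : Bool) : In12 (qbc p i j q) := by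
  unfold qbc
  split_ifs
  · exact In12_zpow (In12_of (by decide)) i
  · exact In12_zpow (In12_of (by decide)) j

theorem PqSB_pw (j : ℤ) : qpw false (fun q => if q = false then j else 0) =
    ps false (of 1 ^ j) := by
  funext q
  cases q <;> simp [qpw, qnat, ps]

theorem q_Jb_SA {c W : CC} (hc : qOK c) {L : List (Bool × FreeGroup (Fin 3))} (hL : ArcOK L)
    (h : qJb c (ConjClasses.mk (arcP L)) W) {h' : ℕ} (h0 : cnt c 0 = 2 * h') :
    ∃ j : ℤ, j ≠ 0 ∧ qSA h' j (tarcs L) ∧ qT (of 1 ^ j) 1 (ConjClasses.mk (arcP L)) W ∧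
      W = qcl L (ps false (of 1 ^ j)) := by
  obtain ⟨hV, hW, hP, j, hj, hT⟩ := h
  have hu := PqSB_in_ps 1 (by decide) false j
  have h1 := q_cl_T hL hu
  have e1 : ps false (of (1 : Fin 3) ^ j) false = of 1 ^ j := by simp [ps]
  have e2 : (ps false (of (1 : Fin 3) ^ j) true)⁻¹ = 1 := by simp [ps]
  rw [e1, e2] at h1
  have hWe : W = qcl L (ps false (of 1 ^ j)) := q_T_uniq hT h1
  have hcnt : cnt (ConjClasses.mk (arcP L)) 0 = 2 * h' := by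
    rw [hV.1.2 0, h0]
  refine ⟨j, hj, ?_, hT, hWe⟩
  have hX := (q_qX hc hL hV.1 h0).2
  have hE := (q_eok_b hc hL hV.1 h0 hu).2 (hWe ▸ hW)
  have hx := xc_cap hL (fun _ => false)
  rw [cutT_bb, hP, hcnt] at hx
  have hb := xc_cap hL (fun p => !p)
  rw [cutT_Sb, hV.2, hcnt] at hb
  exact q_SA_of hX.1 hj hx.symm hb.symm hE.1 hE.2

theorem PqSB_set {c V W : CC} (hc : qOK c) (h : qJb c V W) :
    ∃ (h' : ℕ) (L : List (Bool × FreeGroup (Fin 3))) (j : ℤ), 2 ≤ h' ∧ cnt c 0 = 2 * h' ∧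
      ArcOK L ∧ V = ConjClasses.mk (arcP L) ∧ TOK h' (tarcs L) ∧ j ≠ 0 ∧
      qSA h' j (tarcs L) ∧ qT (of 1 ^ j) 1 V W ∧ W = qcl L (ps false (of 1 ^ j)) := by
  obtain ⟨h', L, h2, h0, hL, -, hV, hX⟩ := q_setup hc h.1.1
  subst hV
  obtain ⟨j, hj, hS, hT, hW⟩ := q_Jb_SA hc hL h h0
  exact ⟨h', L, j, h2, h0, hL, rfl, hX.1, hj, hS, hT, hW⟩

theorem q_Jb_pr {c V W U : CC} (hc : qOK c) (h : qJb c V W) (hU : qRm c V U) :
    capC U (PrC 1) = 2 * cnt c 0 := by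
  obtain ⟨h', L, j, h2, h0, hL, rfl, hX, hj, hS, hT, hW⟩ := PqSB_set hc h
  obtain ⟨i, y, rfl⟩ := q_Rm_bc hL hU
  have h1 := q_cap_cl hL (PqSB_in_bc true i y) (fun _ => true)
  rw [cutT_cc, q_SA_x hj hS] at h1
  omega

theorem q_Jb_same {c V W U : CC} (hc : qOK c) (h : qJb c V W) (hU : qRm c V U)
    (h2 : capC U (PrC 2) = cnt c 0) : U = V ∨ U = W := by
  obtain ⟨h', L, j, h2', h0, hL, rfl, hX, hj, hS, hT, hW⟩ := PqSB_set hc h
  obtain ⟨i, y, rfl⟩ := q_Rm_bc hL hU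
  have h1 := q_cap_cl hL (PqSB_in_bc true i y) (fun _ => false)
  rw [cutT_bb, h2, h0] at h1
  rcases q_SA_same hj hS h1.symm with h3 | h3
  · left
    have h4 : upd (qbc true i y) L = upd 1 L := upd_inj (by rw [ast_one]; exact h3)
    unfold qcl
    rw [h4, PqSB_upd1]
  · right
    have h4 : upd (qbc true i y) L = upd (ps false (of 1 ^ j)) L := upd_inj h3
    rw [hW]
    unfold qcl
    rw [h4]

theorem q_Jb_symm {c V W : CC} (hc : qOK c) (h : qJb c V W) : qJb c W V := by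
  obtain ⟨h', L, j, h2', h0, hL, hVe, hX, hj, hS, hT, hW⟩ := PqSB_set hc h
  obtain ⟨hV, hWs, hP, -⟩ := h
  refine ⟨hWs, hV, ?_, -j, neg_ne_zero.2 hj, ?_⟩
  · have h1 := q_cap_cl hL (PqSB_in_ps 1 (by decide) false j) (fun _ => false)
    rw [cutT_bb, ← hW, ← PqSB_pw, q_shift_x hX.in12, ← xc_cap hL, cutT_bb, ← hVe, hP] at h1
    rw [h1, hV.1.2 0, hWs.1.2 0]
  · have h1 := q_T_symm hT
    rwa [inv_one, ← zpow_neg] at h1

theorem q_Jb_uniq {c V W W' : CC} (hc : qOK c) (h : qJb c V W) (h' : qJb c V W') :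
    W = W' := by
  obtain ⟨h1, L, j, h2', h0, hL, rfl, hX, hj, hS, hT, hW⟩ := PqSB_set hc h
  obtain ⟨j', hj', hS', hT', hW'⟩ := q_Jb_SA hc hL h' h0
  have h3 := q_SA_uniq (by omega) hj hj' hS hS'
  subst h3
  exact q_T_uniq hT hT'

theorem q_Jc_pr {c V W U : CC} (hc : qOK c) (h : qJc c V W) (hU : qRm c V U) :
    capC U (PrC 2) = 2 * cnt c 0 := by
  have h1 := q_Jb_pr (q_ro_OK hc) (q_ro_Jc h) (q_ro_Rm hU)
  rwa [q_ro_capP1, q_ro_cnt] at h1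

theorem PqSB_fl {c U V : CC} (hV : qRm c (qfl U) V) : qRm c U (qfl V) := by
  have h1 := q_fl_Rm hV
  rwa [q_fl_fl] at h1

theorem PqSB_pr1 {c U U' V : CC} (hc : qOK c) (h : qJb c U U')
    (hV : qRm c U V ∨ qRm c (qfl U) V) : capC V (PrC 1) = 2 * cnt c 0 := by
  rcases hV with hV | hV
  · exact q_Jb_pr hc h hV
  · have h1 := q_Jb_pr hc h (PqSB_fl hV)
    rwa [q_fl_capP V (by decide)] at h1

theorem PqSB_pr2 {c U U' V : CC} (hc : qOK c) (h : qJc c U U')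
    (hV : qRm c U V ∨ qRm c (qfl U) V) : capC V (PrC 2) = 2 * cnt c 0 := by
  rcases hV with hV | hV
  · exact q_Jc_pr hc h hV
  · have h1 := q_Jc_pr hc h (PqSB_fl hV)
    rwa [q_fl_capP V (by decide)] at h1

theorem q_no_TB_Jb {c U U' V : CC} (hc : qOK c) (h : qJb c U U')
    (hV : qRm c U V ∨ qRm c (qfl U) V) : ¬ qTB c V := by
  intro hTB
  have h1 := (q_TB_pr hc hTB).1
  have h2 := PqSB_pr1 hc h hV
  have h3 := hc.h4
  omega

theorem q_no_TB_Jc {c U U' V : CC} (hc : qOK c) (h : qJc c U U')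
    (hV : qRm c U V ∨ qRm c (qfl U) V) : ¬ qTB c V := by
  intro hTB
  have h1 := (q_TB_pr hc hTB).2
  have h2 := PqSB_pr2 hc h hV
  have h3 := hc.h4
  omega

theorem q_no_Jc_Jb {c U U' V V' : CC} (hc : qOK c) (h : qJb c U U')
    (hV : qRm c U V ∨ qRm c (qfl U) V) : ¬ qJc c V V' := by
  intro hJ
  have h1 : capC V (PrC 1) = cnt V 0 := hJ.2.2.1
  rw [hJ.1.1.2 0] at h1
  have h2 := PqSB_pr1 hc h hV
  have h3 := hc.h4
  omega

end Pool.Agent.Sims
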