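import Pool.Agent.Sims.PqDefs

/-!
# Module `PqSy` : sign changes, `θ`, and the relation `qT`

* `q_th_th`, `q_fs_inv`: `(flp s).letter` is an involution: `act_act` and `act_conj` with `g = 1` (or: `SPerm_mul` gives `π` with `π.letter x = x`; or `act_SPerm_inv` since `(flp s).inv` and `flp s` have the same letter map;
  or the maps on generators: `(flp s).aut (of i) = lett (i, s i)`).
* `q_th_capSb` etc.: `capC_SPerm`, then `capC_congr` with the cut `fun x => A (qth.letter x)`; for `Sb`: `Sb (qth.letter x)` is `{a⁻¹, b, b⁻¹}`, the complement of `Sc` (`capC_compl`).  The cuts `PrC i` are invariant under all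
  `(flp s).letter`, and `Sb`, `Sc` are invariant if `s 0 = true`.
* `q_th_cnt`, `q_fs_cnt`: `cnt_SPerm` (`perm = Equiv.refl`).  `q_th_Sm`, `q_fs_Sm`: `orb_SPerm`, `orb_trans`, `cnt_SPerm`.
* `q_T_refl`: the identity.  `q_T_trans`: `φ a = p a q`, `ψ a = p' a q'`: `(ψ φ) a = p (p' a q') q`, since `ψ p = p`, `ψ q = q` (`In12_mul`; `act_act`).
* `q_T_ex`: there is an automorphism `a ↦ p a q` fixing `b, c` for all `p, q` in `⟨b, c⟩` (`In12B_hom`, inverse `In12B_hom p⁻¹ q⁻¹`; see the lemmas of `In12B.lean`, `Good`-lemmas, or compose `pot`s by `In12_induction`).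
* `q_T_uniq`: two automorphisms with the same values on `of 0, of 1, of 2` are equal (`of 1`, `of 2` are in `⟨b, c⟩`); `act_conj` with `g = 1` is enough.
* `q_T_symm`: by `q_T_ex` take `ψ` with `Tw ψ p⁻¹ q⁻¹`; `ψ ∘ φ` maps `a ↦ p (p⁻¹ a q⁻¹) q = a`: so `act ψ W = V` (`q_T_trans`, `q_T_uniq`, `q_T_refl`).
* `q_th_T`: `θ φ θ : a ↦ a⁻¹ ↦ q⁻¹ a⁻¹ p⁻¹ ↦ q⁻¹ a p⁻¹`, and `θ` fixes `⟨b, c⟩` pointwise (`In12_induction`).  `q_fs_T`: `σ φ σ` with `σ = (flp s).aut`, `σ a = a`: `a ↦ σ(p) a σ(q)`, and `σ φ σ g = g` on `⟨b, c⟩`, since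
  `σ` preserves `⟨b, c⟩` (`In12_induction`).  Here the statement is only needed for powers: `q_fs_pow`: `(flp s).aut (of i ^ k) = of i ^ (if s i then k else -k)`.
* `q_fs_th`: both sides are `act` of automorphisms with the same values on generators.
Difficulty 2.
-/

namespace Pool.Agent.Sims

open FreeGroup (of)

theorem PqSy_ext (φ ψ : FreeGroup (Fin 3) ≃* FreeGroup (Fin 3)) (h : ∀ i, φ (of i) = ψ (of i))
    (c : CC) : act φ c = act ψ c := by
  apply act_conj φ ψ 1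
  intro i
  rw [h i]
  simp

theorem PqSy_fs_fs (s : Fin 3 → Bool) (i : Fin 3) : (flp s).aut ((flp s).aut (of i)) = of i := by
  rw [flp_of]
  by_cases hs : s i = true
  · rw [if_pos hs, flp_of, if_pos hs]
  · rw [if_neg hs, map_inv, flp_of, if_neg hs, inv_inv]

theorem PqSy_fs_fs_all (s : Fin 3 → Bool) (g : FreeGroup (Fin 3)) :
    (flp s).aut ((flp s).aut g) = g := by
  have : ((flp s).aut.toMonoidHom).comp (flp s).aut.toMonoidHom = MonoidHom.id _ := by
    apply FreeGroup.ext_hom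
    intro i
    exact PqSy_fs_fs s i
  exact DFunLike.congr_fun this g

theorem PqSy_letter (s : Fin 3 → Bool) (x : Fin 3 × Bool) :
    (flp s).letter x = (x.1, if s x.1 then x.2 else !x.2) := rfl

theorem PqSy_th0 : qth.aut (of (0 : Fin 3)) = (of 0)⁻¹ := by
  unfold qth
  rw [flp_of]
  simp

theorem PqSy_thfix {x : FreeGroup (Fin 3)} (hx : In12 x) : qth.aut x = x := by
  have := hom_eq12 qth.aut.toMonoidHom (MonoidHom.id _)
    (by
      show qth.aut (of (1 : Fin 3)) = of 1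
      unfold qth
      rw [flp_of]; simp)
    (by
      show qth.aut (of (2 : Fin 3)) = of 2
      unfold qth
      rw [flp_of]; simp) hx
  exact this

theorem PqSy_fs_In12 (s : Fin 3 → Bool) {x : FreeGroup (Fin 3)} (hx : In12 x) :
    In12 ((flp s).aut x) := by
  refine In12_induction (P := fun g => In12 ((flp s).aut g)) ?_ ?_ hx
  · rw [map_one]; exact In12_one
  · intro y hy g _ hg
    rw [map_mul]
    refine In12_mul ?_ hg
    have h : (flp s).aut (lett y) = lett ((flp s).letter y) := SPerm.hom_lett _ y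
    rw [h]
    exact In12_lett hy

theorem q_th_th (V : CC) : act qth.aut (act qth.aut V) = V := by
  rw [act_act]
  have h := PqSy_ext (qth.aut.trans qth.aut) (MulEquiv.refl _) (fun i => by
    simp only [MulEquiv.trans_apply]
    exact PqSy_fs_fs _ i) V
  rw [h, act_refl]

theorem q_th_capSb (V : CC) : capC (act qth.aut V) Sb = capC V Sc := by
  rw [capC_SPerm, ← capC_compl V Sc]
  apply capC_congr
  rintro ⟨i, b⟩
  fin_cases i <;> cases b <;> rfl

theorem q_th_capSc (V : CC) : capC (act qth.aut V) Sc = capC V Sb := by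
  rw [capC_SPerm, ← capC_compl V Sb]
  apply capC_congr
  rintro ⟨i, b⟩
  fin_cases i <;> cases b <;> rfl

theorem q_th_capP (V : CC) (i : Fin 3) : capC (act qth.aut V) (PrC i) = capC V (PrC i) := by
  rw [capC_SPerm]
  apply capC_congr
  intro x
  rfl

theorem q_th_cnt (V : CC) (i : Fin 3) : cnt (act qth.aut V) i = cnt V i := by
  exact cnt_SPerm qth V i

theorem q_th_Sm {c V : CC} (h : Sm c V) : Sm c (act qth.aut V) := by
  exact ⟨orb_trans h.1 (orb_SPerm _ _), fun i => (q_th_cnt V i).trans (h.2 i)⟩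

theorem q_fs_inv (s : Fin 3 → Bool) (V : CC) : act (flp s).aut (act (flp s).aut V) = V := by
  rw [act_act]
  have h := PqSy_ext ((flp s).aut.trans (flp s).aut) (MulEquiv.refl _) (fun i => by
    simp only [MulEquiv.trans_apply]
    exact PqSy_fs_fs _ i) V
  rw [h, act_refl]

theorem q_fs_one (V : CC) : act (flp (fun _ => true)).aut V = V := by
  have h := PqSy_ext (flp (fun _ => true)).aut (MulEquiv.refl _) (fun i => by
    rw [flp_of]; simp) V
  rw [h, act_refl]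

theorem q_fs_capSb {s : Fin 3 → Bool} (hs : s 0 = true) (V : CC) :
    capC (act (flp s).aut V) Sb = capC V Sb := by
  rw [capC_SPerm]
  apply capC_congr
  rintro ⟨i, b⟩
  rw [PqSy_letter]
  fin_cases i
  · simp [Sb, hs]
  · simp [Sb]
  · simp [Sb]

theorem q_fs_capP (s : Fin 3 → Bool) (V : CC) (i : Fin 3) :
    capC (act (flp s).aut V) (PrC i) = capC V (PrC i) := by
  rw [capC_SPerm]
  apply capC_congr
  intro x
  rfl

theorem q_fs_cnt (s : Fin 3 → Bool) (V : CC) (i : Fin 3) :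
    cnt (act (flp s).aut V) i = cnt V i := by
  exact cnt_SPerm (flp s) V i

theorem q_fs_Sm {c V : CC} (s : Fin 3 → Bool) (h : Sm c V) : Sm c (act (flp s).aut V) := by
  exact ⟨orb_trans h.1 (orb_SPerm _ _), fun i => (q_fs_cnt s V i).trans (h.2 i)⟩

theorem q_fs_th (s : Fin 3 → Bool) (V : CC) :
    act (flp s).aut (act qth.aut V) = act qth.aut (act (flp s).aut V) := by
  rw [act_act, act_act]
  apply PqSy_ext
  intro i
  simp only [MulEquiv.trans_apply]
  unfold qth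
  rw [flp_of, flp_of]
  by_cases h1 : s i = true <;> by_cases h2 : i ≠ 0 <;>
    simp [h1, h2, flp_of]

theorem q_fs_pow (s : Fin 3 → Bool) (i : Fin 3) (k : ℤ) :
    (flp s).aut (of i ^ k) = of i ^ (if s i then k else -k) := by
  rw [map_zpow, flp_of]
  by_cases hs : s i = true
  · rw [if_pos hs, if_pos hs]
  · rw [if_neg hs, if_neg hs, inv_zpow, zpow_neg]

theorem q_T_refl (V : CC) : qT 1 1 V V := by
  refine ⟨MulEquiv.refl _, ⟨In12_one, In12_one, by simp, fun g _ => rfl⟩, (act_refl V).symm⟩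

theorem q_T_ex {p q : FreeGroup (Fin 3)} (hp : In12 p) (hq : In12 q) :
    ∃ φ : FreeGroup (Fin 3) ≃* FreeGroup (Fin 3), Tw φ p q := by
  obtain ⟨φ, h1, h2⟩ := exists_tw hp hq
  exact ⟨φ, hp, hq, h1, h2⟩

theorem q_T_uniq {p q : FreeGroup (Fin 3)} {V W W' : CC} (h : qT p q V W) (h' : qT p q V W') :
    W = W' := by
  obtain ⟨φ, ⟨-, -, h3, h4⟩, rfl⟩ := h
  obtain ⟨ψ, ⟨-, -, k3, k4⟩, rfl⟩ := h'
  apply PqSy_ext
  intro i
  by_cases hi : i = 0
  · subst hi
    rw [h3, k3]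
  · rw [h4 _ (In12_of hi), k4 _ (In12_of hi)]

theorem q_T_trans {p q p' q' : FreeGroup (Fin 3)} {V W Z : CC} (h : qT p q V W)
    (h' : qT p' q' W Z) : qT (p * p') (q' * q) V Z := by
  obtain ⟨φ, ⟨h1, h2, h3, h4⟩, rfl⟩ := h
  obtain ⟨ψ, ⟨k1, k2, k3, k4⟩, rfl⟩ := h'
  refine ⟨φ.trans ψ, ⟨In12_mul h1 k1, In12_mul k2 h2, ?_, ?_⟩, act_act _ _ _⟩
  · rw [MulEquiv.trans_apply, h3, map_mul, map_mul, k3, k4 _ h1, k4 _ h2]
    group
  · intro g hg
    rw [MulEquiv.trans_apply, h4 g hg, k4 g hg]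

theorem q_T_symm {p q : FreeGroup (Fin 3)} {V W : CC} (h : qT p q V W) : qT p⁻¹ q⁻¹ W V := by
  have hh := h
  obtain ⟨φ, ⟨h1, h2, h3, h4⟩, hW⟩ := hh
  obtain ⟨ψ, hψ⟩ := q_T_ex (In12_inv h1) (In12_inv h2)
  have h5 : qT p⁻¹ q⁻¹ W (act ψ W) := ⟨ψ, hψ, rfl⟩
  have h6 := q_T_trans h h5
  rw [mul_inv_cancel, inv_mul_cancel] at h6
  have h7 := q_T_uniq h6 (q_T_refl V)
  rw [h7] at h5
  exact h5

theorem q_th_T {p q : FreeGroup (Fin 3)} {V W : CC} (h : qT p q V W) :
    qT q⁻¹ p⁻¹ (act qth.aut V) (act qth.aut W) := by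
  obtain ⟨φ, ⟨h1, h2, h3, h4⟩, rfl⟩ := h
  refine ⟨(qth.aut.trans φ).trans qth.aut, ⟨In12_inv h2, In12_inv h1, ?_, ?_⟩, ?_⟩
  · simp only [MulEquiv.trans_apply]
    rw [PqSy_th0, map_inv, h3, map_inv, map_mul, map_mul, PqSy_th0, PqSy_thfix h1, PqSy_thfix h2]
    group
  · intro g hg
    simp only [MulEquiv.trans_apply]
    rw [PqSy_thfix hg, h4 g hg, PqSy_thfix hg]
  · rw [← act_act, ← act_act, q_th_th]

theorem q_fs_T {s : Fin 3 → Bool} (hs : s 0 = true) {p q : FreeGroup (Fin 3)} {V W : CC}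
    (h : qT p q V W) : qT ((flp s).aut p) ((flp s).aut q) (act (flp s).aut V)
      (act (flp s).aut W) := by
  obtain ⟨φ, ⟨h1, h2, h3, h4⟩, rfl⟩ := h
  refine ⟨((flp s).aut.trans φ).trans (flp s).aut, ⟨PqSy_fs_In12 s h1, PqSy_fs_In12 s h2, ?_, ?_⟩,
    ?_⟩
  · simp only [MulEquiv.trans_apply]
    have h0 : (flp s).aut (of (0 : Fin 3)) = of 0 := by rw [flp_of, if_pos hs]
    rw [h0, h3, map_mul, map_mul, h0]
  · intro g hg
    simp only [MulEquiv.trans_apply]
    rw [h4 _ (PqSy_fs_In12 s hg), PqSy_fs_fs_all]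
  · rw [← act_act, ← act_act, q_fs_inv]

end Pool.Agent.Sims
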