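import Pool.Agent.Sims.PqF

/-!
# Module `PqTA` : arcs of a class with all four corner cuts minimal

`τ_b = fun p => !p`, `τ_c = fun p => p`.
* `q_one`: for `g ∈ ⟨b, c⟩`, ports `p, q` (with `p ≠ q` if `g = 1`): `2 ≤ xarc τ_b p q g + xarc τ_c p q g`, and if this is `≤ 2` then `g = 1` or `qB g` or `qC g`.
  Proof: `PhB_xarc`.  If `g ≠ 1`: `PhB_x a w b + PhB_x (!a) w (!b) = PhB_x true w true + PhB_x false w false` for `w = g.toWord` and all sides `a, b` (`PhB_first`, `PhB_last`), that is `xarc (const true) + xarc (const false)`.  By `q_core`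
  for `t = false`: `g = b^m` (`m ≠ 0`: `qB`), or `g = b^d m b^{-d'}`, `xarc (const false) ≥ 2` (`q_x_ge`); so the sum is `≥ 2`, and if it is `≤ 2`: `xarc (const true) p q g = 0`, so by `q_core` for `t = true` (`q_x_ge`, `q_core_x`)
  `g` is a power of `c`.  For `g = b^m`, `m ≠ 0`: `xarc (const true) ≥ 2` (`q_core` for `t = true`, `g` itself is `c^0 m c^0`), so the sum is `≥ 2`.  `g = 1`, `p ≠ q`: both are `1`.
* `q_x_B`: `qB g`: `xarc (const false) = 0`, `xarc (const true) = 2`, `qfo true g = true`, `qfo false g = false`.  `q_x_C` symmetric.  (`g.toWord = zpw 1 k`.)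
* `q_TA_of`: `Σ (xarc τ_b + xarc τ_c) = 4h` over the `2h` arcs (`length_eq`), so each is `2`, and each arc is trivial or `qB` or `qC` (`q_one`).  `xc (const false) T + xc (const true) T ≥ 4h`, a trivial arc contributes `0`, the others `2`: no
  trivial arc, and `xc (const false) T = 2 #(qC) ≥ 2h`, `xc (const true) T = 2 #(qB) ≥ 2h`, the sum is `4h`: both are `2h`.  `τ_b = qmx false false = qmx true true`, `τ_c = qmx false true = qmx true false`: `q_exit` gives
  `qe t p 0 T = h` for all `t, p`.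
* `q_TA_xc`: from `qTA`: `xc (const false) T = Σ_p qe false p 0 T = 2h` (each `qC` arc has two ends counted, `xarc = 2`), and the same for `true`; then `q_exit` gives `xc (qmx t p) T = 2h`.
* `q_TA_ex`: `h ≥ 1`: `qe true true 0 T = h ≥ 1` so there is an arc with `qB`; the same for `qC`.
* `q_TA_mv`: `T' = ast (qbc p i j) T`, `xc (const true) T' = 2h`, `i ≠ 0`.  For every arc `e`, with `[..] ∈ {0, 1}`:
  `xarc (const true) (alab u e) + 2 [e is qB, mixed, label from p equal to b^i] = xarc (const true) e + 2 (number of p-ends of e with first letter c)`.  Cases: both ends `p`: `b^k ↦ b^k`; `c^l ↦ b^{-i} c^l b^i`: `4 = 0 + 4`.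
  Mixed, label from `p`: `b^k ↦ b^{k-i} c^j`: `2 [k ≠ i]`;  `c^l ↦ b^{-i} c^{l+j}`: `2`.  Both ends `!p`: `b^k ↦ c^{-j} b^k c^j`: `2`;  `c^l ↦ c^l`: `0`.  (`xarc (const true)` is not changed by powers of `c` on the left or right:
  `q_core_x` for `t = true`, `q_pow_x`.)  Sum: `2h + 2N = 2h + 2h`, so `N = h` is the number of `qB` arcs (`= xc (const true) T / 2`): all `qB` arcs are mixed with label `b^i` from `p`.
* `q_TA_mv'`: the same for `c`: `xarc (const false) (alab u e) + 2 [e is qC, mixed, label from !p equal to c^j] = xarc (const false) e + 2 (number of !p-ends with first letter b)`, `j ≠ 0`.  The label from `!p` is `c^j` iff the label from `p` is `c^{-j}`.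
Difficulty 3.
-/

namespace Pool.Agent.Sims

open FreeGroup (of)

theorem PqTA_word (j : Fin 3) (k : ℤ) : ((of j : FreeGroup (Fin 3)) ^ k).toWord = zpw j k := by
  rw [← mk_zpw, FreeGroup.toWord_mk]
  exact (CR_zpw j k).1.reduce_eq

theorem PqTA_x_rep (t' : Bool) (x : Fin 3 × Bool) (n : ℕ) : ∀ t,
    PhB_x t (List.replicate (n + 1) x) t' =
      (if t = PhB_sd x then 0 else 1) + (if PhB_sd x = t' then 0 else 1) := by
  induction n with
  | zero => intro t; rfl
  | succ n ih =>
    intro t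
    rw [List.replicate_succ, PhB_x, ih, if_pos rfl, zero_add]

theorem PqTA_nat (t : Bool) (k : ℤ) : In12 (qnat t ^ k) := q_nat_in12 t k

theorem PqTA_pow (t p q : Bool) {k : ℤ} (hk : k ≠ 0) :
    xarc (fun _ => t) p q (qnat (!t) ^ k) = 2 := by
  rw [PhB_xarc (PqTA_nat _ _)]
  obtain ⟨n, hn⟩ : ∃ n, k.natAbs = n + 1 := ⟨k.natAbs - 1, by omega⟩
  cases t
  · have h1 : qnat (!false) = of 2 := rfl
    rw [h1, PqTA_word, zpw, hn, PqTA_x_rep]
    rfl
  · have h1 : qnat (!true) = of 1 := rfl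
    rw [h1, PqTA_word, zpw, hn, PqTA_x_rep]
    rfl

theorem PqTA_fo (t : Bool) {k : ℤ} (hk : k ≠ 0) : qfo t (qnat (!t) ^ k) = true := by
  obtain ⟨n, hn⟩ : ∃ n, k.natAbs = n + 1 := ⟨k.natAbs - 1, by omega⟩
  cases t
  · have h1 : qnat (!false) = of 2 := rfl
    unfold qfo ahd
    rw [h1, PqTA_word, zpw, hn, List.replicate_succ]
    rfl
  · have h1 : qnat (!true) = of 1 := rfl
    unfold qfo ahd
    rw [h1, PqTA_word, zpw, hn, List.replicate_succ]
    rfl

theorem PqTA_fo_inv (t : Bool) {k : ℤ} (hk : k ≠ 0) : qfo t (qnat (!t) ^ k)⁻¹ = true := by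
  rw [← zpow_neg]
  exact PqTA_fo t (neg_ne_zero.2 hk)

theorem PqTA_inv (t : Bool) {g : FreeGroup (Fin 3)} (hg : In12 g) (a b : ℤ) (p q : Bool) :
    xarc (fun _ => t) p q (qnat t ^ a * g * qnat t ^ b) = xarc (fun _ => t) p q g := by
  rcases q_core hg t with ⟨m, rfl⟩ | ⟨d, d', m, hm, h1, h2, rfl⟩
  · rw [← zpow_add, ← zpow_add, q_pow_x, q_pow_x]
  · have e : qnat t ^ a * (qnat t ^ d * m * qnat t ^ (-d')) * qnat t ^ b =
        qnat t ^ (a + d) * m * qnat t ^ (-(d' - b)) := by
      rw [zpow_add, show -(d' - b) = -d' + b by ring, zpow_add]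
      group
    rw [e, q_core_x hm h1 h2, q_core_x hm h1 h2]

theorem PqTA_sum {g : FreeGroup (Fin 3)} (hg : In12 g) (hg1 : g ≠ 1) (a b : Bool) :
    PhB_x a g.toWord b + PhB_x (!a) g.toWord (!b) =
      PhB_x true g.toWord true + PhB_x false g.toWord false := by
  have h1 := PhB_first hg1 true
  have h2 := PhB_first hg1 false
  have h3 := PhB_last hg hg1 true
  have h4 := PhB_last hg hg1 false
  cases a <;> cases b
  · exact add_comm _ _
  · show PhB_x false g.toWord true + PhB_x true g.toWord false = _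
    omega
  · show PhB_x true g.toWord false + PhB_x false g.toWord true = _
    omega
  · rfl

/-- first letter -/
theorem PqTA_F {g : FreeGroup (Fin 3)} (hg1 : g ≠ 1) :
    ((if ahd g = some (2, true) then 1 else 0) + (if ahd g = some (2, false) then 1 else 0) : ℕ) =
      if qfo false g = true then 1 else 0 := by
  unfold qfo ahd
  have hne : g.toWord ≠ [] := fun h => hg1 (FreeGroup.toWord_eq_nil_iff.1 h)
  generalize g.toWord = v at hne
  rcases v with _ | ⟨⟨i, b⟩, v⟩
  · exact absurd rfl hne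
  · simp only [List.head?_cons, Option.some.injEq]
    fin_cases i <;> cases b <;> simp

theorem PqTA_sw {g : FreeGroup (Fin 3)} (hg : In12 g) (hg1 : g ≠ 1) :
    PhB_x true g.toWord true + 2 * ((if qfo false g = true then 1 else 0) +
      (if qfo false g⁻¹ = true then 1 else 0)) = PhB_x false g.toWord false + 2 := by
  have h1 := PhB_first hg1 true
  have h4 := PhB_last hg hg1 false
  rw [PqTA_F hg1] at h1
  rw [PqTA_F (fun h => hg1 (inv_eq_one.1 h))] at h4
  omega

theorem PqTA_four (t p q : Bool) {i l : ℤ} (hi : i ≠ 0) (hl : l ≠ 0) :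
    xarc (fun _ => t) p q (qnat (!t) ^ (-i) * qnat t ^ l * qnat (!t) ^ i) = 4 := by
  obtain ⟨g, hg⟩ : ∃ g, g = qnat (!t) ^ (-i) * qnat t ^ l * qnat (!t) ^ i := ⟨_, rfl⟩
  have hg12 : In12 g := by
    rw [hg]
    exact In12_mul (In12_mul (PqTA_nat _ _) (PqTA_nat _ _)) (PqTA_nat _ _)
  have hm1 : qfo (!t) (qnat t ^ l) = true := by
    have := PqTA_fo (!t) hl
    rwa [Bool.not_not] at this
  have hm2 : qfo (!t) (qnat t ^ l)⁻¹ = true := by
    have := PqTA_fo_inv (!t) hl
    rwa [Bool.not_not] at this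
  have e1 : g = qnat (!t) ^ (-i) * qnat t ^ l * qnat (!t) ^ (-(-i)) := by rw [hg, neg_neg]
  have hx : xarc (fun _ => !t) p q g = 2 := by
    rw [e1, q_core_x (PqTA_nat _ _) hm1 hm2]
    have := PqTA_pow (!t) p q hl
    rwa [Bool.not_not] at this
  have hf : qfo (!t) g = false := by
    have h1 := q_core_fo (PqTA_nat t l) hm1 hm2 (-i) (-i)
    rw [← e1] at h1
    by_contra hc
    rw [Bool.not_eq_false] at hc
    exact (neg_ne_zero.2 hi) (h1.1 hc)
  have e2 : g⁻¹ = qnat (!t) ^ (-i) * qnat t ^ (-l) * qnat (!t) ^ (-(-i)) := by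
    rw [hg, neg_neg, mul_inv_rev, mul_inv_rev, zpow_neg, zpow_neg, inv_inv, mul_assoc]
  have hm1' : qfo (!t) (qnat t ^ (-l)) = true := by
    rw [zpow_neg]
    exact hm2
  have hm2' : qfo (!t) (qnat t ^ (-l))⁻¹ = true := by
    rw [zpow_neg, inv_inv]
    exact hm1
  have hf' : qfo (!t) g⁻¹ = false := by
    have h1 := q_core_fo (PqTA_nat t (-l)) hm1' hm2' (-i) (-i)
    rw [← e2] at h1
    by_contra hc
    rw [Bool.not_eq_false] at hc
    exact (neg_ne_zero.2 hi) (h1.1 hc)
  have hg1 : g ≠ 1 := by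
    intro h
    rw [h, PhB_xarc In12_one, FreeGroup.toWord_one] at hx
    cases t <;> simp [PhB_x] at hx
  have hsw := PqTA_sw hg12 hg1
  have hor : ∀ u : FreeGroup (Fin 3), In12 u → u ≠ 1 → qfo true u = false → qfo false u = true := by
    intro u hu hu1 h
    unfold qfo ahd at h ⊢
    have hne : u.toWord ≠ [] := fun h => hu1 (FreeGroup.toWord_eq_nil_iff.1 h)
    unfold In12 at hu
    generalize u.toWord = v at hne h hu
    rcases v with _ | ⟨⟨i, b⟩, v⟩
    · exact absurd rfl hne
    · have h0 := hu (i, b) List.mem_cons_self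
      fin_cases i
      · exact absurd rfl h0
      · simp at h
      · rfl
  rw [← hg]
  rw [PhB_xarc hg12] at hx ⊢
  cases t
  · have hx' : PhB_x true g.toWord true = 2 := hx
    have f1 := hor g hg12 hg1 hf
    have f2 := hor g⁻¹ (In12_inv hg12) (fun h => hg1 (inv_eq_one.1 h)) hf'
    rw [f1, f2, if_pos rfl, hx'] at hsw
    show PhB_x false g.toWord false = 4
    omega
  · have hx' : PhB_x false g.toWord false = 2 := hx
    have f1 : qfo false g = false := hf
    have f2 : qfo false g⁻¹ = false := hf'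
    rw [f1, f2, hx'] at hsw
    simp only [Bool.false_eq_true, if_false, add_zero, mul_zero] at hsw
    show PhB_x true g.toWord true = 4
    omega

theorem q_one {g : FreeGroup (Fin 3)} (hg : In12 g) {p q : Bool} (h1 : p = q → g ≠ 1) :
    2 ≤ xarc (fun p => !p) p q g + xarc (fun p => p) p q g ∧
      (xarc (fun p => !p) p q g + xarc (fun p => p) p q g ≤ 2 → g = 1 ∨ qB g ∨ qC g) := by
  rw [PhB_xarc hg, PhB_xarc hg]
  by_cases hg1 : g = 1
  · have hpq : p ≠ q := fun h => h1 h hg1
    refine ⟨?_, fun _ => Or.inl hg1⟩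
    rw [hg1, FreeGroup.toWord_one]
    cases p <;> cases q <;> simp [PhB_x] at hpq ⊢
  · have hs := PqTA_sum hg hg1 p q
    have hs' : PhB_x (!p) g.toWord (!q) + PhB_x p g.toWord q =
        xarc (fun _ => true) p q g + xarc (fun _ => false) p q g := by
      rw [PhB_xarc hg, PhB_xarc hg, add_comm]
      exact hs
    show 2 ≤ PhB_x (!p) g.toWord (!q) + PhB_x p g.toWord q ∧
      (PhB_x (!p) g.toWord (!q) + PhB_x p g.toWord q ≤ 2 → _)
    rw [hs']
    rcases q_core hg false with ⟨m, hm⟩ | ⟨d, d', m, hm, h1, h2, he⟩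
    · have hm0 : m ≠ 0 := by
        rintro rfl
        exact hg1 (by rw [hm, zpow_zero])
      have h3 : xarc (fun _ => true) p q g = 2 := by
        rw [hm]
        exact PqTA_pow true p q hm0
      refine ⟨by omega, fun _ => Or.inr (Or.inl ⟨m, hm0, hm⟩)⟩
    · have h3 : 2 ≤ xarc (fun _ => false) p q g := by
        rw [he, q_core_x hm h1 h2]
        exact q_x_ge hm h1 h2 p q
      refine ⟨by omega, fun h4 => ?_⟩
      rcases q_core hg true with ⟨m', hm'⟩ | ⟨e, e', m', hm', h1', h2', he'⟩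
      · have hm0 : m' ≠ 0 := by
          rintro rfl
          exact hg1 (by rw [hm', zpow_zero])
        exact Or.inr (Or.inr ⟨m', hm0, hm'⟩)
      · exfalso
        have h5 : 2 ≤ xarc (fun _ => true) p q g := by
          rw [he', q_core_x hm' h1' h2']
          exact q_x_ge hm' h1' h2' p q
        omega

theorem q_x_B {g : FreeGroup (Fin 3)} (hg : qB g) (p q : Bool) :
    xarc (fun _ => false) p q g = 0 ∧ xarc (fun _ => true) p q g = 2 ∧ qfo true g = true ∧
      qfo false g = false := by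
  obtain ⟨k, hk, rfl⟩ := hg
  exact ⟨q_pow_x false p q k, PqTA_pow true p q hk, PqTA_fo true hk, q_pow_fo false k⟩

theorem q_x_C {g : FreeGroup (Fin 3)} (hg : qC g) (p q : Bool) :
    xarc (fun _ => true) p q g = 0 ∧ xarc (fun _ => false) p q g = 2 ∧ qfo false g = true ∧
      qfo true g = false := by
  obtain ⟨k, hk, rfl⟩ := hg
  exact ⟨q_pow_x true p q k, PqTA_pow false p q hk, PqTA_fo false hk, q_pow_fo true k⟩

theorem PqTA_tight (f : Arc → ℕ) (T : List Arc) (h : ∀ e ∈ T, 2 ≤ f e)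
    (hs : (T.map f).sum ≤ 2 * T.length) : ∀ e ∈ T, f e = 2 := by
  induction T with
  | nil => intro e he; exact absurd he List.not_mem_nil
  | cons e T ih =>
    have h1 := h e List.mem_cons_self
    have h2 : 2 * T.length ≤ (T.map f).sum := by
      have h3 : ∀ e' ∈ T, 2 ≤ f e' := fun e' he' => h e' (List.mem_cons_of_mem _ he')
      clear ih hs h h1
      induction T with
      | nil => exact le_refl _
      | cons e' T ih' =>
        have h4 := h3 e' List.mem_cons_self
        have h5 := ih' fun x hx => h3 x (List.mem_cons_of_mem _ hx)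
        simp only [List.map_cons, List.sum_cons, List.length_cons]
        omega
    simp only [List.map_cons, List.sum_cons, List.length_cons] at hs
    intro e' he'
    rcases List.mem_cons.1 he' with rfl | he''
    · omega
    · exact ih (fun x hx => h x (List.mem_cons_of_mem _ hx)) (by omega) e' he''

theorem PqTA_tight' (f g : Arc → ℕ) (T : List Arc) (h : ∀ e ∈ T, f e ≤ g e)
    (hs : (T.map g).sum ≤ (T.map f).sum) : ∀ e ∈ T, f e = g e := by
  induction T with
  | nil => intro e he; exact absurd he List.not_mem_nil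
  | cons e T ih =>
    have h1 := h e List.mem_cons_self
    have h2 := PhA_sum_le f g T fun e' he' => h e' (List.mem_cons_of_mem _ he')
    simp only [List.map_cons, List.sum_cons] at hs
    intro e' he'
    rcases List.mem_cons.1 he' with rfl | he''
    · omega
    · exact ih (fun x hx => h x (List.mem_cons_of_mem _ hx)) (by omega) e' he''

theorem PqTA_mx (t p : Bool) : qmx t p = (fun q => if t = p then !q else q) := by
  funext q
  cases t <;> cases p <;> cases q <;> rfl

theorem PqTA_inv_B {g : FreeGroup (Fin 3)} (hg : qB g) : qB g⁻¹ := by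
  obtain ⟨k, hk, rfl⟩ := hg
  exact ⟨-k, neg_ne_zero.2 hk, (zpow_neg _ _).symm⟩

theorem PqTA_inv_C {g : FreeGroup (Fin 3)} (hg : qC g) : qC g⁻¹ := by
  obtain ⟨k, hk, rfl⟩ := hg
  exact ⟨-k, neg_ne_zero.2 hk, (zpow_neg _ _).symm⟩

theorem PqTA_len {h : ℕ} {T : List Arc} (hT : TOK h T) : T.length = 2 * h := by
  have h1 := PhA_ane_sum T
  rw [hT.ends, hT.ends] at h1
  omega

theorem q_TA_of {h : ℕ} {T : List Arc} (hT : TOK h T) (hb : xc (fun p => !p) T = 2 * h)
    (hc : xc (fun p => p) T = 2 * h) (h0 : 2 * h ≤ xc (fun _ => false) T)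
    (h0' : 2 * h ≤ xc (fun _ => true) T) : qTA h T := by
  have hlen := PqTA_len hT
  have hsum1 : (T.map (fun e => xarc (fun p => !p) e.1 e.2.1 e.2.2 +
      xarc (fun p => p) e.1 e.2.1 e.2.2)).sum ≤ 2 * T.length := by
    rw [List.sum_map_add, hlen]
    unfold xc at hb hc
    omega
  have ht1 := PqTA_tight _ T (fun e he => (q_one (hT.in12 e he) (hT.ntr e he)).1) hsum1
  have hcase : ∀ e ∈ T, e.2.2 = 1 ∨ qB e.2.2 ∨ qC e.2.2 := fun e he =>
    (q_one (hT.in12 e he) (hT.ntr e he)).2 (ht1 e he).le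
  have hle : ∀ e ∈ T, xarc (fun _ => false) e.1 e.2.1 e.2.2 +
      xarc (fun _ => true) e.1 e.2.1 e.2.2 ≤ 2 := by
    intro e he
    rcases hcase e he with h1 | h1 | h1
    · rw [h1, PhB_xarc In12_one, PhB_xarc In12_one, FreeGroup.toWord_one]
      simp [PhB_x]
    · obtain ⟨a, b, -, -⟩ := q_x_B h1 e.1 e.2.1
      omega
    · obtain ⟨a, b, -, -⟩ := q_x_C h1 e.1 e.2.1
      omega
  have hsum2 : (T.map (fun _ : Arc => 2)).sum ≤ (T.map (fun e => xarc (fun _ => false) e.1 e.2.1 e.2.2 +
      xarc (fun _ => true) e.1 e.2.1 e.2.2)).sum := by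
    rw [List.sum_map_add, List.map_const', List.sum_replicate, hlen]
    unfold xc at h0 h0'
    rw [smul_eq_mul]
    omega
  have ht2 := PqTA_tight' _ _ T hle hsum2
  have hone : ∀ e ∈ T, qB e.2.2 ∨ qC e.2.2 := by
    intro e he
    rcases hcase e he with h1 | h1
    · exfalso
      have h2 := ht2 e he
      rw [h1, PhB_xarc In12_one, PhB_xarc In12_one, FreeGroup.toWord_one] at h2
      simp [PhB_x] at h2
    · exact h1
  have hsum3 : xc (fun _ => false) T + xc (fun _ => true) T = 4 * h := by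
    have h1 : (T.map (fun e => xarc (fun _ => false) e.1 e.2.1 e.2.2 +
      xarc (fun _ => true) e.1 e.2.1 e.2.2)).sum = (T.map (fun _ : Arc => 2)).sum := by
      congr 1
      exact List.map_congr_left ht2
    rw [List.sum_map_add, List.map_const', List.sum_replicate, hlen, smul_eq_mul] at h1
    unfold xc
    omega
  have hall : ∀ t p, qe t p 0 T = h := by
    intro t p
    have h1 := q_exit hT t p
    have h2 : xc (qmx t p) T = 2 * h := by
      rw [PqTA_mx]
      by_cases htp : t = p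
      · simp only [if_pos htp]
        exact hb
      · simp only [if_neg htp]
        exact hc
    have h3 : xc (fun _ => t) T = 2 * h := by
      cases t
      · omega
      · omega
    omega
  exact ⟨hone, fun p => hall true p, fun p => hall false p⟩

theorem PqTA_all {h : ℕ} {T : List Arc} (hA : qTA h T) (t p : Bool) : qe t p 0 T = h := by
  cases t
  · exact hA.nc p
  · exact hA.nb p

/-- the value of `xarc` and the two flags of a one syllable label -/
theorem PqTA_val {g : FreeGroup (Fin 3)} (hg : qB g ∨ qC g) (t p q : Bool) :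
    (∃ k : ℤ, k ≠ 0 ∧ g = qnat (!t) ^ k ∧ xarc (fun _ => t) p q g = 2 ∧ qfo t g = true ∧
      qfo t g⁻¹ = true ∧ qfo (!t) g = false ∧ qfo (!t) g⁻¹ = false) ∨
    (∃ k : ℤ, k ≠ 0 ∧ g = qnat t ^ k ∧ xarc (fun _ => t) p q g = 0 ∧ qfo t g = false ∧
      qfo t g⁻¹ = false ∧ qfo (!t) g = true ∧ qfo (!t) g⁻¹ = true) := by
  rcases hg with hg | hg
  · obtain ⟨a1, a2, a3, a4⟩ := q_x_B hg p q
    obtain ⟨b1, b2, b3, b4⟩ := q_x_B (PqTA_inv_B hg) p q
    obtain ⟨k, hk, hgk⟩ := hg
    cases t
    · exact Or.inr ⟨k, hk, hgk, a1, a4, b4, a3, b3⟩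
    · exact Or.inl ⟨k, hk, hgk, a2, a3, b3, a4, b4⟩
  · obtain ⟨a1, a2, a3, a4⟩ := q_x_C hg p q
    obtain ⟨b1, b2, b3, b4⟩ := q_x_C (PqTA_inv_C hg) p q
    obtain ⟨k, hk, hgk⟩ := hg
    cases t
    · exact Or.inl ⟨k, hk, hgk, a2, a3, b3, a4, b4⟩
    · exact Or.inr ⟨k, hk, hgk, a1, a4, b4, a3, b3⟩

theorem PqTA_xt {h : ℕ} {T : List Arc} (hA : qTA h T) (t : Bool) :
    xc (fun _ => t) T = 2 * h := by
  have h1 := PqTA_all hA t true
  have h2 := PqTA_all hA t false
  have h3 : qe t true 0 T + qe t false 0 T = xc (fun _ => t) T := by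
    unfold qe xc
    rw [← List.sum_map_add]
    congr 1
    refine List.map_congr_left fun e he => ?_
    have hv := PqTA_val (hA.one e he) t e.1 e.2.1
    have e1 : qnat t ^ (-(0 : ℤ)) = 1 := by rw [neg_zero, zpow_zero]
    rw [e1, one_mul, one_mul]
    rcases hv with ⟨k, hk, hg, hx, f1, f2, -⟩ | ⟨k, hk, hg, hx, f1, f2, -⟩
    · rw [hx, f1, f2]
      cases e.1 <;> cases e.2.1 <;> simp
    · rw [hx, f1, f2]
      simp
  omega

theorem q_TA_xc {h : ℕ} {T : List Arc} (hT : TOK h T) (hA : qTA h T) :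
    xc (fun _ => false) T = 2 * h ∧ xc (fun _ => true) T = 2 * h ∧
      xc (fun p => !p) T = 2 * h ∧ xc (fun p => p) T = 2 * h := by
  have h1 := PqTA_xt hA false
  have h2 := PqTA_xt hA true
  have h3 : ∀ t p, xc (qmx t p) T = 2 * h := by
    intro t p
    have h4 := q_exit hT t p
    have h5 := PqTA_all hA t p
    have h6 := PqTA_xt hA t
    omega
  refine ⟨h1, h2, ?_, ?_⟩
  · have h4 := h3 true true
    rw [PqTA_mx] at h4
    exact h4
  · have h4 := h3 true false
    rw [PqTA_mx] at h4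
    exact h4

theorem PqTA_ex {h : ℕ} {T : List Arc} (h1 : 1 ≤ h) (hA : qTA h T) (t : Bool) :
    ∃ e ∈ T, qfo t e.2.2 = true := by
  by_contra hcon
  push Not at hcon
  have h2 := PqTA_xt hA t
  have h3 : xc (fun _ => t) T = (T.map (fun _ : Arc => 0)).sum := by
    unfold xc
    congr 1
    refine List.map_congr_left fun e he => ?_
    rcases PqTA_val (hA.one e he) t e.1 e.2.1 with ⟨k, hk, hg, hx, f1, -⟩ | ⟨k, hk, hg, hx, f1, -⟩
    · exact absurd f1 (hcon e he)
    · exact hx
  rw [h3] at h2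
  simp at h2
  omega

theorem q_TA_ex {h : ℕ} {T : List Arc} (h1 : 1 ≤ h) (hA : qTA h T) :
    (∃ e ∈ T, qB e.2.2) ∧ ∃ e ∈ T, qC e.2.2 := by
  constructor
  · obtain ⟨e, he, hf⟩ := PqTA_ex h1 hA true
    refine ⟨e, he, ?_⟩
    rcases hA.one e he with h2 | h2
    · exact h2
    · have h3 := (q_x_C h2 e.1 e.2.1).2.2.2
      rw [hf] at h3
      exact absurd h3 (by decide)
  · obtain ⟨e, he, hf⟩ := PqTA_ex h1 hA false
    refine ⟨e, he, ?_⟩
    rcases hA.one e he with h2 | h2
    · have h3 := (q_x_B h2 e.1 e.2.1).2.2.2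
      rw [hf] at h3
      exact absurd h3 (by decide)
    · exact h2

/-- state: port `p` at a power of the foreign generator, the other port at a power of the native one -/
def PqTA_u (t p : Bool) (i j : ℤ) : PS := fun q => if q = p then qnat (!t) ^ i else qnat t ^ j

theorem PqTA_arc (t p : Bool) {i j : ℤ} (hi : i ≠ 0) (e : Arc) (he : qB e.2.2 ∨ qC e.2.2) :
    xarc (fun _ => t) e.1 e.2.1 (alab (PqTA_u t p i j) e) +
      2 * (if e.1 ≠ e.2.1 ∧ e.2.2 = qnat (!t) ^ (if e.1 = p then i else -i) then 1 else 0) =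
    xarc (fun _ => t) e.1 e.2.1 e.2.2 +
      2 * ((if e.1 = p ∧ qfo (!t) (qnat (!t) ^ (-(0 : ℤ)) * e.2.2) = true then 1 else 0) +
        (if e.2.1 = p ∧ qfo (!t) (qnat (!t) ^ (-(0 : ℤ)) * (e.2.2)⁻¹) = true then 1 else 0)) := by
  have e1 : qnat (!t) ^ (-(0 : ℤ)) = 1 := by rw [neg_zero, zpow_zero]
  rw [e1, one_mul, one_mul]
  obtain ⟨q, r, g⟩ := e
  simp only at he ⊢
  unfold alab PqTA_u
  simp only
  have hinv : ∀ (u : FreeGroup (Fin 3)) (a b : ℤ), In12 u →
      xarc (fun _ => t) q r (qnat t ^ a * u * qnat t ^ b) = xarc (fun _ => t) q r u :=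
    fun u a b hu => PqTA_inv t hu a b q r
  have hpw : ∀ k : ℤ, k ≠ 0 → xarc (fun _ => t) q r (qnat (!t) ^ k) = 2 :=
    fun k hk => PqTA_pow t q r hk
  have hpw' : ∀ k : ℤ, xarc (fun _ => t) q r (qnat (!t) ^ k) = if k = 0 then 0 else 2 := by
    intro k
    split_ifs with hk
    · rw [hk, zpow_zero]
      have := q_pow_x t q r 0
      rwa [zpow_zero] at this
    · exact hpw k hk
  have hinj : ∀ a b : ℤ, qnat (!t) ^ a = qnat (!t) ^ b ↔ a = b := by
    intro a b
    constructor
    · intro h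
      have h2 : qnat (!t) ^ (a - b) = 1 := by rw [zpow_sub, h, mul_inv_cancel]
      by_contra hab
      have h3 := q_pow_norm (!t) (a - b)
      rw [h2, FreeGroup.norm_one] at h3
      omega
    · rintro rfl
      rfl
  rcases PqTA_val he t q r with ⟨k, hk, hg, hx, f1, f2, f3, f4⟩ | ⟨k, hk, hg, hx, f1, f2, f3, f4⟩
  · -- foreign label
    rw [hx, f3, f4]
    simp only [Bool.false_eq_true, and_false, if_false, add_zero, mul_zero]
    rw [hg]
    by_cases hq : q = p
    · by_cases hr : r = p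
      · rw [if_pos hq, if_pos hr, if_neg (fun h => h.1 (hq.trans hr.symm))]
        have e2 : (qnat (!t) ^ i)⁻¹ * qnat (!t) ^ k * qnat (!t) ^ i = qnat (!t) ^ k := by
          rw [← zpow_neg, ← zpow_add, ← zpow_add]
          congr 1
          ring
        rw [e2, hpw k hk]
      · have hqr : q ≠ r := fun h => hr (h ▸ hq)
        rw [if_pos hq, if_neg hr, if_pos hq]
        have e2 : (qnat (!t) ^ i)⁻¹ * qnat (!t) ^ k * qnat t ^ j =
            qnat t ^ (0 : ℤ) * qnat (!t) ^ (k - i) * qnat t ^ j := by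
          rw [zpow_zero, one_mul, ← zpow_neg, ← zpow_add]
          congr 2
          ring
        rw [e2, hinv _ _ _ (PqTA_nat _ _), hpw']
        by_cases hki : k = i
        · rw [if_pos (by omega), if_pos ⟨hqr, by rw [hki]⟩]
        · rw [if_neg (by omega), if_neg (fun h => hki ((hinj _ _).1 h.2))]
    · by_cases hr : r = p
      · have hqr : q ≠ r := fun h => hq (h.trans hr)
        rw [if_neg hq, if_pos hr, if_neg hq]
        have e2 : (qnat t ^ j)⁻¹ * qnat (!t) ^ k * qnat (!t) ^ i =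
            qnat t ^ (-j) * qnat (!t) ^ (k + i) * qnat t ^ (0 : ℤ) := by
          rw [zpow_zero, mul_one, ← zpow_neg, mul_assoc, ← zpow_add]
        rw [e2, hinv _ _ _ (PqTA_nat _ _), hpw']
        by_cases hki : k = -i
        · rw [if_pos (by omega), if_pos ⟨hqr, by rw [hki]⟩]
        · rw [if_neg (by omega), if_neg (fun h => hki ((hinj _ _).1 h.2))]
      · have hqr : q = r := by
          cases q <;> cases r <;> cases p <;> simp_all
        rw [if_neg hq, if_neg hr, if_neg (fun h => h.1 hqr)]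
        rw [← zpow_neg, hinv _ _ _ (PqTA_nat _ _), hpw k hk]
  · -- native label
    have hI : ¬ (q ≠ r ∧ g = qnat (!t) ^ (if q = p then i else -i)) := by
      rintro ⟨-, h2⟩
      have h3 : qfo t (qnat (!t) ^ (if q = p then i else -i)) = true := by
        refine PqTA_fo t ?_
        split_ifs
        · exact hi
        · exact neg_ne_zero.2 hi
      rw [← h2, f1] at h3
      exact absurd h3 (by decide)
    rw [if_neg hI, hx, f3, f4]
    rw [hg]
    by_cases hq : q = p
    · by_cases hr : r = p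
      · rw [if_pos hq, if_pos hr, ← zpow_neg, PqTA_four t q r hi hk]
        simp [hq, hr]
      · rw [if_pos hq, if_neg hr]
        have e2 : (qnat (!t) ^ i)⁻¹ * qnat t ^ k * qnat t ^ j =
            qnat t ^ (0 : ℤ) * qnat (!t) ^ (-i) * qnat t ^ (k + j) := by
          rw [zpow_zero, one_mul, ← zpow_neg, mul_assoc, ← zpow_add]
        rw [e2, hinv _ _ _ (PqTA_nat _ _), hpw _ (neg_ne_zero.2 hi)]
        simp [hq, hr]
    · by_cases hr : r = p
      · rw [if_neg hq, if_pos hr]
        have e2 : (qnat t ^ j)⁻¹ * qnat t ^ k * qnat (!t) ^ i =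
            qnat t ^ (k - j) * qnat (!t) ^ i * qnat t ^ (0 : ℤ) := by
          rw [zpow_zero, mul_one, ← zpow_neg, ← zpow_add]
          congr 2
          ring
        rw [e2, hinv _ _ _ (PqTA_nat _ _), hpw _ hi]
        simp [hq, hr]
      · rw [if_neg hq, if_neg hr]
        have e2 : (qnat t ^ j)⁻¹ * qnat t ^ k * qnat t ^ j = qnat t ^ k := by
          rw [← zpow_neg, ← zpow_add, ← zpow_add]
          congr 1
          ring
        rw [e2, q_pow_x]
        simp [hq, hr]

theorem PqTA_mv {h : ℕ} {T : List Arc} (hA : qTA h T) {t p : Bool} {i j : ℤ}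
    (hx : xc (fun _ => t) (ast (PqTA_u t p i j) T) = 2 * h) (hi : i ≠ 0) :
    ∀ e ∈ T, qfo t e.2.2 = true →
      e.1 ≠ e.2.1 ∧ e.2.2 = qnat (!t) ^ (if e.1 = p then i else -i) := by
  have h1 : xc (fun _ => t) (ast (PqTA_u t p i j) T) +
      2 * (T.map (fun e : Arc => if e.1 ≠ e.2.1 ∧
        e.2.2 = qnat (!t) ^ (if e.1 = p then i else -i) then 1 else 0)).sum =
      xc (fun _ => t) T + 2 * qe (!t) p 0 T := by
    have h2 : xc (fun _ => t) (ast (PqTA_u t p i j) T) =
        (T.map (fun e => xarc (fun _ => t) e.1 e.2.1 (alab (PqTA_u t p i j) e))).sum := by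
      unfold xc ast
      rw [List.map_map]
      rfl
    rw [h2]
    unfold xc qe
    have h9 := PhA_sum _ _ _ _ T fun e he => PqTA_arc t p (j := j) hi e (hA.one e he)
    rw [List.sum_map_mul_left] at h9
    exact h9
  have h3 := PqTA_all hA (!t) p
  have h4 := PqTA_xt hA t
  have h5 : xc (fun _ => t) T =
      2 * (T.map (fun e : Arc => if qfo t e.2.2 = true then 1 else 0)).sum := by
    unfold xc
    rw [← List.sum_map_mul_left]
    congr 1
    refine List.map_congr_left fun e he => ?_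
    rcases PqTA_val (hA.one e he) t e.1 e.2.1 with ⟨k, hk, hg, hx, f1, -⟩ | ⟨k, hk, hg, hx, f1, -⟩
    · rw [hx, f1]
      rfl
    · rw [hx, f1]
      rfl
  have h6 := PqTA_tight' (fun e : Arc => if e.1 ≠ e.2.1 ∧
        e.2.2 = qnat (!t) ^ (if e.1 = p then i else -i) then 1 else 0)
      (fun e : Arc => if qfo t e.2.2 = true then 1 else 0) T (fun e he => by
        by_cases h7 : e.1 ≠ e.2.1 ∧ e.2.2 = qnat (!t) ^ (if e.1 = p then i else -i)
        · have h8 : qfo t e.2.2 = true := by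
            rw [h7.2]
            refine PqTA_fo t ?_
            split_ifs
            · exact hi
            · exact neg_ne_zero.2 hi
          simp only [if_pos h7, if_pos h8, le_refl]
        · simp only [if_neg h7, Nat.zero_le]) (by omega)
  intro e he hf
  have h7 := h6 e he
  simp only [hf, if_true] at h7
  by_contra hcon
  rw [if_neg hcon] at h7
  exact absurd h7 (by decide)

theorem q_TA_mv {h : ℕ} {T : List Arc} (hT : TOK h T) (hA : qTA h T) {p : Bool} {i j : ℤ}
    (hx : xc (fun _ => true) (ast (qbc p i j) T) = 2 * h) (hi : i ≠ 0) :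
    ∀ e ∈ T, qB e.2.2 → e.1 ≠ e.2.1 ∧ e.2.2 = of 1 ^ (if e.1 = p then i else -i) := by
  intro e he hB
  exact PqTA_mv (t := true) hA hx hi e he (q_x_B hB e.1 e.2.1).2.2.1

theorem q_TA_mv' {h : ℕ} {T : List Arc} (hT : TOK h T) (hA : qTA h T) {p : Bool} {i j : ℤ}
    (hx : xc (fun _ => false) (ast (qbc p i j) T) = 2 * h) (hj : j ≠ 0) :
    ∀ e ∈ T, qC e.2.2 → e.1 ≠ e.2.1 ∧ e.2.2 = of 2 ^ (if e.1 = p then -j else j) := by
  intro e he hC
  have h0 : qbc p i j = PqTA_u false (!p) j i := by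
    funext q
    unfold qbc PqTA_u
    cases q <;> cases p <;> rfl
  rw [h0] at hx
  obtain ⟨h1, h2⟩ := PqTA_mv (t := false) hA hx hj e he (q_x_C hC e.1 e.2.1).2.2.1
  refine ⟨h1, h2.trans ?_⟩
  have h3 : qnat (!false) = of 2 := rfl
  rw [h3]
  congr 1
  cases e.1 <;> cases p <;> rfl

end Pool.Agent.Sims
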