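import Pool.Agent.Sims.PqTA

/-!
# Module `PqTM` : two states of the form `qTA` in one room

`T` with `qTA h T`, `T' = ast (qbc p i j) T` (port `p` at `b^i`, port `!p` at `c^j`).
* `q_TM_mix`: if `i ≠ 0`, `j ≠ 0` and `xc (const true) T' = xc (const false) T' = 2h` then all arcs are mixed (`q_TA_mv`, `q_TA_mv'`, `qTA.one`), with labels from `p`: `b^i` or `c^{-j}`.  In `T'` the labels from `p` are
  `b^{-i} b^i c^j = c^j` and `b^{-i} c^{-j} c^j = b^{-i}`.  In `ast (qbc (!p) (-i) (-j)) T` (port `!p` at `b^{-i}`, port `p` at `c^{-j}`): `c^j b^i b^{-i} = c^j`, `c^j c^{-j} b^{-i} = b^{-i}`: the same arcs.  So the first conclusion.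
  For `xc τ T' = 2h` with a mixed corner `τ`: each arc of `T'` is mixed and one syllable, so `xarc τ = 1` (`PhB_xarc`: for a power of `b` or `c`, `≠ 1`, between different sides there is exactly one change), and `T` has `2h` arcs.
* `q_TM_two`: `qTA h T'` gives `xc (const ..) T' = 2h` (`q_TA_xc` for `T'`, `TOK h T'` from `TOK_st`).  `i = j = 0`: `T' = T`.  `i ≠ 0 = j`: there is a `qB` arc (`q_TA_ex`), it is mixed with label `b^i` from `p`, its label in `T'` is
  `(b^i)⁻¹ b^i c^0 = 1` (or the inverse), contradiction to `qTA.one` for `T'` (`qB 1`, `qC 1` are false).  `i = 0 ≠ j`: the same with a `qC` arc.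
* `q_TM_uniq`: both pairs are nonzero; a `qB` arc has the label `b^{±i} = b^{±i'}`, a `qC` arc `c^{∓j} = c^{∓j'}` (exponents of powers are unique: norm and sign, or abelianization).
Difficulty 2-3.
-/

namespace Pool.Agent.Sims

open FreeGroup (of)

theorem PqTM_inj {t : Bool} {i j : ℤ} (h : qnat t ^ i = qnat t ^ j) : i = j := by
  have h1 : qnat t ^ (i - j) = 1 := by
    rw [zpow_sub, h, mul_inv_cancel]
  have h2 := q_pow_norm t (i - j)
  rw [h1, FreeGroup.norm_one] at h2
  omega

theorem PqTM_one {g : FreeGroup (Fin 3)} (h : qB g ∨ qC g) : g ≠ 1 := by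
  rcases h with ⟨k, hk, rfl⟩ | ⟨k, hk, rfl⟩
  · intro h1
    have h2 := q_pow_norm false k
    have h3 : qnat false = of 1 := rfl
    rw [h3, h1, FreeGroup.norm_one] at h2
    omega
  · intro h1
    have h2 := q_pow_norm true k
    have h3 : qnat true = of 2 := rfl
    rw [h3, h1, FreeGroup.norm_one] at h2
    omega

theorem PqTM_in {g : FreeGroup (Fin 3)} (h : qB g ∨ qC g) : In12 g := by
  rcases h with ⟨k, hk, rfl⟩ | ⟨k, hk, rfl⟩
  · exact q_nat_in12 false k
  · exact q_nat_in12 true k

theorem PqTM_mixed {g : FreeGroup (Fin 3)} (h : qB g ∨ qC g) :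
    PhB_x true g.toWord false = 1 ∧ PhB_x false g.toWord true = 1 := by
  have h1 := PqTM_one h
  have hin := PqTM_in h
  have f1 := PhB_first h1 false
  have f2 := PhB_first h1 true
  rcases h with h | h
  · obtain ⟨a1, a2, a3, a4⟩ := q_x_B h true true
    rw [PhB_xarc hin] at a1 a2
    have e1 : ¬ (ahd g = some (2, true)) := by
      intro h5
      unfold qfo at a4
      rw [h5] at a4
      simp at a4
    have e2 : ¬ (ahd g = some (2, false)) := by
      intro h5
      unfold qfo at a4
      rw [h5] at a4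
      simp at a4
    rw [if_neg e1, if_neg e2] at f1 f2
    omega
  · obtain ⟨a1, a2, a3, a4⟩ := q_x_C h true true
    rw [PhB_xarc hin] at a1 a2
    have e1 : ahd g = some (2, true) ∨ ahd g = some (2, false) := by
      unfold qfo at a3
      rcases hg : ahd g with _ | ⟨i, b⟩
      · rw [hg] at a3
        simp at a3
      · rw [hg] at a3
        simp at a3
        subst a3
        cases b
        · exact Or.inr rfl
        · exact Or.inl rfl
    rcases e1 with e1 | e1
    · rw [e1] at f1 f2
      simp at f1 f2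
      omega
    · rw [e1] at f1 f2
      simp at f1 f2
      omega

theorem PqTM_x {g : FreeGroup (Fin 3)} (h : qB g ∨ qC g) {τ : Bool → Bool} {p q : Bool}
    (hpq : τ p ≠ τ q) : xarc τ p q g = 1 := by
  rw [PhB_xarc (PqTM_in h)]
  obtain ⟨h1, h2⟩ := PqTM_mixed h
  rcases hp : τ p <;> rcases hq : τ q
  · rw [hp, hq] at hpq
    exact absurd rfl hpq
  · exact h2
  · exact h1
  · rw [hp, hq] at hpq
    exact absurd rfl hpq

theorem PqTM_lab {p : Bool} {i j : ℤ} {e : Arc} (hne : e.1 ≠ e.2.1)
    (h : e.2.2 = of 1 ^ (if e.1 = p then i else -i) ∨ e.2.2 = of 2 ^ (if e.1 = p then -j else j)) :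
    alab (qbc p i j) e = alab (qbc (!p) (-i) (-j)) e ∧
      (alab (qbc p i j) e = (if e.1 = p then of 2 ^ j else of 2 ^ (-j)) ∨
        alab (qbc p i j) e = (if e.1 = p then of 1 ^ (-i) else of 1 ^ i)) := by
  rcases e with ⟨q, r, g⟩
  simp only at hne h
  unfold alab qbc
  by_cases hq : q = p
  · subst hq
    have hr : r = !q := by cases q <;> cases r <;> simp_all
    subst hr
    rw [if_pos rfl, if_pos rfl] at h
    have e1 : ((!q) = q) = False := by simp
    have e2 : (q = !q) = False := by simp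
    simp only [e1, e2, if_true, if_false]
    rcases h with rfl | rfl
    · refine ⟨?_, Or.inl ?_⟩ <;> group
    · refine ⟨?_, Or.inr ?_⟩ <;> group
  · have hr : r = p := by cases q <;> cases r <;> cases p <;> simp_all
    subst hr
    have hq' : q = !r := by cases q <;> cases r <;> simp_all
    subst hq'
    rw [if_neg hq, if_neg hq] at h
    have e1 : ((!r) = r) = False := by simp
    have e2 : (r = !r) = False := by simp
    simp only [e1, e2, if_true, if_false]
    rcases h with rfl | rfl
    · refine ⟨?_, Or.inl ?_⟩ <;> group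
    · refine ⟨?_, Or.inr ?_⟩ <;> group

theorem q_TM_mix {h : ℕ} {T : List Arc} (hT : TOK h T) (hA : qTA h T) {p : Bool} {i j : ℤ}
    (hx : xc (fun _ => true) (ast (qbc p i j) T) = 2 * h)
    (hx' : xc (fun _ => false) (ast (qbc p i j) T) = 2 * h) (hi : i ≠ 0) (hj : j ≠ 0) :
    ast (qbc p i j) T = ast (qbc (!p) (-i) (-j)) T ∧
      xc (fun p => !p) (ast (qbc p i j) T) = 2 * h ∧
      xc (fun p => p) (ast (qbc p i j) T) = 2 * h := by
  have hmv := q_TA_mv hT hA hx hi
  have hmv' := q_TA_mv' hT hA hx' hj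
  have key : ∀ e ∈ T, e.1 ≠ e.2.1 ∧
      (e.2.2 = of 1 ^ (if e.1 = p then i else -i) ∨
        e.2.2 = of 2 ^ (if e.1 = p then -j else j)) := by
    intro e he
    rcases hA.one e he with h1 | h1
    · exact ⟨(hmv e he h1).1, Or.inl (hmv e he h1).2⟩
    · exact ⟨(hmv' e he h1).1, Or.inr (hmv' e he h1).2⟩
  have hlab : ∀ e ∈ T, qB (alab (qbc p i j) e) ∨ qC (alab (qbc p i j) e) := by
    intro e he
    obtain ⟨hne, h1⟩ := key e he
    rcases (PqTM_lab hne h1).2 with h2 | h2
    · right
      rw [h2]
      split_ifs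
      · exact ⟨j, hj, rfl⟩
      · exact ⟨-j, by omega, rfl⟩
    · left
      rw [h2]
      split_ifs
      · exact ⟨-i, by omega, rfl⟩
      · exact ⟨i, hi, rfl⟩
  have hxc : ∀ τ : Bool → Bool, τ true ≠ τ false → xc τ (ast (qbc p i j) T) = 2 * h := by
    intro τ hτ
    rw [← length_eq hT]
    unfold xc ast
    rw [List.map_map]
    have : ∀ e ∈ T, ((fun e : Arc => xarc τ e.1 e.2.1 e.2.2) ∘
        (fun e : Arc => (e.1, e.2.1, alab (qbc p i j) e))) e = 1 := by
      intro e he
      obtain ⟨hne, h1⟩ := key e he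
      change xarc τ e.1 e.2.1 (alab (qbc p i j) e) = 1
      apply PqTM_x (hlab e he)
      rcases e with ⟨q, r, g⟩
      simp only at hne
      cases q <;> cases r
      · exact absurd rfl hne
      · exact fun h => hτ h.symm
      · exact hτ
      · exact absurd rfl hne
    rw [List.map_congr_left this]
    simp
  refine ⟨?_, hxc _ (by simp), hxc _ (by simp)⟩
  unfold ast
  apply List.map_congr_left
  intro e he
  obtain ⟨hne, h1⟩ := key e he
  rw [(PqTM_lab hne h1).1]

theorem q_TM_two {h : ℕ} {T : List Arc} (hT : TOK h T) (h1 : 1 ≤ h) (hA : qTA h T) {p : Bool}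
    {i j : ℤ} (hl : Lv2 T (qbc p i j)) (hA' : qTA h (ast (qbc p i j) T))
    (hne : ast (qbc p i j) T ≠ T) : i ≠ 0 ∧ j ≠ 0 ∧
      ast (qbc p i j) T = ast (qbc (!p) (-i) (-j)) T := by
  have hT' := TOK_st hT hl
  obtain ⟨x1, x2, -, -⟩ := q_TA_xc hT' hA'
  obtain ⟨⟨eb, heb, hb⟩, ec, hec, hc⟩ := q_TA_ex h1 hA
  have hi : i ≠ 0 := by
    intro hi
    by_cases hj : j = 0
    · apply hne
      subst hi
      subst hj
      have : qbc p 0 0 = 1 := by
        funext q
        unfold qbc
        simp
      rw [this, ast_one]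
    · obtain ⟨m1, m2⟩ := q_TA_mv' hT hA x1 hj ec hec hc
      have m3 := PqTM_lab (i := i) m1 (Or.inr m2)
      have m4 : alab (qbc p i j) ec = 1 := by
        rcases ec with ⟨q, r, g⟩
        simp only at m1 m2
        subst hi
        unfold alab qbc
        by_cases hq : q = p
        · subst hq
          have hr : r = !q := by cases q <;> cases r <;> simp_all
          subst hr
          rw [if_pos rfl] at m2
          have e1 : ((!q) = q) = False := by simp
          simp only [e1, if_true, if_false, m2]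
          group
        · have hr : r = p := by cases q <;> cases r <;> cases p <;> simp_all
          subst hr
          rw [if_neg hq] at m2
          simp only [hq, if_true, if_false, m2]
          group
      have m5 := hA'.one (ec.1, ec.2.1, alab (qbc p i j) ec) (List.mem_map_of_mem hec)
      exact PqTM_one m5 m4
  have hj : j ≠ 0 := by
    intro hj
    obtain ⟨m1, m2⟩ := q_TA_mv hT hA x2 hi eb heb hb
    have m4 : alab (qbc p i j) eb = 1 := by
      rcases eb with ⟨q, r, g⟩
      simp only at m1 m2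
      subst hj
      unfold alab qbc
      by_cases hq : q = p
      · subst hq
        have hr : r = !q := by cases q <;> cases r <;> simp_all
        subst hr
        rw [if_pos rfl] at m2
        have e1 : ((!q) = q) = False := by simp
        simp only [e1, if_true, if_false, m2]
        group
      · have hr : r = p := by cases q <;> cases r <;> cases p <;> simp_all
        subst hr
        rw [if_neg hq] at m2
        simp only [hq, if_true, if_false, m2]
        group
    have m5 := hA'.one (eb.1, eb.2.1, alab (qbc p i j) eb) (List.mem_map_of_mem heb)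
    exact PqTM_one m5 m4
  exact ⟨hi, hj, (q_TM_mix hT hA x2 x1 hi hj).1⟩

theorem q_TM_uniq {h : ℕ} {T : List Arc} (hT : TOK h T) (h1 : 1 ≤ h) (hA : qTA h T) {p : Bool}
    {i j i' j' : ℤ} (hl : Lv2 T (qbc p i j)) (hA1 : qTA h (ast (qbc p i j) T))
    (hne : ast (qbc p i j) T ≠ T) (hl' : Lv2 T (qbc p i' j'))
    (hA2 : qTA h (ast (qbc p i' j') T)) (hne' : ast (qbc p i' j') T ≠ T) : i = i' ∧ j = j' := by
  obtain ⟨hi, hj, -⟩ := q_TM_two hT h1 hA hl hA1 hne
  obtain ⟨hi', hj', -⟩ := q_TM_two hT h1 hA hl' hA2 hne'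
  obtain ⟨x1, x2, -, -⟩ := q_TA_xc (TOK_st hT hl) hA1
  obtain ⟨y1, y2, -, -⟩ := q_TA_xc (TOK_st hT hl') hA2
  obtain ⟨⟨eb, heb, hb⟩, ec, hec, hc⟩ := q_TA_ex h1 hA
  have a1 := (q_TA_mv hT hA x2 hi eb heb hb).2
  have a2 := (q_TA_mv hT hA y2 hi' eb heb hb).2
  have b1 := (q_TA_mv' hT hA x1 hj ec hec hc).2
  have b2 := (q_TA_mv' hT hA y1 hj' ec hec hc).2
  rw [a1] at a2
  rw [b1] at b2
  have a3 := PqTM_inj (t := false) a2
  have b3 := PqTM_inj (t := true) b2
  split_ifs at a3 b3 <;> constructor <;> omega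

end Pool.Agent.Sims
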