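import Pool.Agent.Sims.PqDefs

/-!
# Module `PqW` : words with respect to one side

Side `t`, native generator `x = qnat t` (`b` for `t = false`, `c` for `t = true`), foreign generator `y = qnat (!t)`.
* `q_core`: `g ∈ ⟨b, c⟩` is a power of `x`, or `g = x^d m x^{-d'}` with `m` beginning and ending with a foreign letter.  By the reduced word `w = g.toWord` (letters `(1, ·)`, `(2, ·)`): if no foreign letter occurs it is constant
  (`List.replicate`, reduced), a power of `x`; otherwise let `w = w1 ++ w2` with `w1` the maximal prefix of native letters (`List.takeWhile`), and `w2 = w3 ++ w4`, `w4` the maximal native suffix; `w1, w4` are reduced native words, so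
  powers of `x` (`mk_zpw`, `SylA`), `m = mk w3`, `w3` is reduced, nonempty, begins and ends with a foreign letter (`ahd m⁻¹` is the bar of the last letter: `FreeGroup.toWord_inv`, `invRev`).
  Alternative: induction with `In12_induction` (multiply by one letter on the left).
* `q_core_norm`: the word of `x^d m x^{-d'}` is `zpw x d ++ m.toWord ++ zpw x (-d')` (reduced: at the two joints a native and a foreign letter meet; if `d = 0` nothing to check).
* `q_core_fo`: the first letter of this word is native if `d ≠ 0` and the first letter of `m` if `d = 0`.  `q_pow_fo`: the word of `x^m` is empty or native.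
* `q_pow_x`, `q_core_x`: `PhB_xarc`: `xarc (const t) p q g = PhB_x t g.toWord t`; `PhB_x` along native letters does not change the side: `PhB_x t (zpw .. ++ v) t' = PhB_x t v t'`; at the end the same: use `PhB_x_symm` or prove the
  general `PhB_x t (v ++ zpw ..) t = PhB_x t v t`.
* `q_x_ge`, `q_x_even`: for `m` beginning and ending with foreign letters `PhB_x t m.toWord t = 2 + ...`: the side of the first letter is `!t`, so one change at the beginning, and one at the end; parity: every `PhB_x t v t'` has the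
  parity of `(if t = t' then 0 else 1)` (induction on `v`, cases on the sides).
* `q_x_two`: if `PhB_x t m.toWord t = 2` and `m` begins with a foreign letter, then all letters are on the side `!t` (after the first change the sum of the remaining changes is 1, so no change until the end), so `m` is a power of `y`.
Here `xarc (const t) p q g` does not depend on the ports `p, q` (`PhB_xarc`).
Difficulty 3.
-/

namespace Pool.Agent.Sims

open FreeGroup (of)

/-- native index -/
def PqW_j (t : Bool) : Fin 3 := if t then 2 else 1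

/-- foreign index -/
def PqW_f (t : Bool) : Fin 3 := if t then 1 else 2

theorem PqW_j_ne (t : Bool) : PqW_j t ≠ PqW_f t := by cases t <;> decide

theorem PqW_j_zero (t : Bool) : PqW_j t ≠ 0 := by cases t <;> decide

theorem PqW_cases (t : Bool) {i : Fin 3} (hi : i ≠ 0) : i = PqW_j t ∨ i = PqW_f t := by
  revert i t
  decide

theorem PqW_nat (t : Bool) : qnat t = of (PqW_j t) := by cases t <;> rfl

theorem PqW_nat' (t : Bool) : qnat (!t) = of (PqW_f t) := by cases t <;> rfl

theorem PqW_sd_j (t : Bool) {x : Fin 3 × Bool} (hx : x.1 = PqW_j t) : PhB_sd x = t := by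
  unfold PhB_sd
  rw [hx]
  cases t <;> rfl

theorem PqW_sd_f (t : Bool) {x : Fin 3 × Bool} (hx : x.1 = PqW_f t) : PhB_sd x = !t := by
  unfold PhB_sd
  rw [hx]
  cases t <;> rfl

theorem PqW_fo (t : Bool) (g : FreeGroup (Fin 3)) :
    qfo t g = true ↔ ∃ x, g.toWord.head? = some x ∧ x.1 = PqW_f t := by
  unfold qfo ahd
  cases h : g.toWord.head? with
  | none => simp
  | some x =>
    simp only [decide_eq_true_eq, Option.some.injEq]
    constructor
    · intro h1
      exact ⟨x, rfl, h1⟩
    · rintro ⟨y, rfl, h1⟩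
      exact h1

theorem PqW_zpw_mem {j : Fin 3} {k : ℤ} {x : Fin 3 × Bool} (hx : x ∈ zpw j k) : x.1 = j := by
  unfold zpw at hx
  rw [List.eq_of_mem_replicate hx]

theorem PqW_zpw_red (j : Fin 3) (k : ℤ) : FreeGroup.IsReduced (zpw j k) := by
  unfold zpw FreeGroup.IsReduced
  exact List.isChain_replicate_of_rel _ (fun _ => rfl)

theorem PqW_zpw_len (j : Fin 3) (k : ℤ) : (zpw j k).length = k.natAbs := by
  unfold zpw
  rw [List.length_replicate]

theorem PqW_zpw_word (j : Fin 3) (k : ℤ) : ((of j : FreeGroup (Fin 3)) ^ k).toWord = zpw j k := by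
  rw [← mk_zpw, FreeGroup.toWord_mk, (PqW_zpw_red j k).reduce_eq]

theorem PqW_last {t : Bool} {m : FreeGroup (Fin 3)} (h : qfo t m⁻¹ = true) :
    ∃ y, m.toWord.getLast? = some y ∧ y.1 = PqW_f t := by
  obtain ⟨x, h1, h2⟩ := (PqW_fo t _).1 h
  rw [FreeGroup.toWord_inv, FreeGroup.invRev, List.head?_reverse, List.getLast?_map] at h1
  cases h3 : m.toWord.getLast? with
  | none => rw [h3] at h1; simp at h1
  | some y =>
    rw [h3] at h1
    simp only [Option.map_some, Option.some.injEq] at h1
    refine ⟨y, rfl, ?_⟩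
    rw [← h2, ← h1]

theorem PqW_word {t : Bool} {m : FreeGroup (Fin 3)} (h1 : qfo t m = true)
    (h2 : qfo t m⁻¹ = true) (d d' : ℤ) :
    (qnat t ^ d * m * qnat t ^ (-d')).toWord =
      zpw (PqW_j t) d ++ m.toWord ++ zpw (PqW_j t) (-d') := by
  obtain ⟨x, hx, hx1⟩ := (PqW_fo t m).1 h1
  obtain ⟨y, hy, hy1⟩ := PqW_last h2
  have hne : m.toWord ≠ [] := by
    intro h
    rw [h] at hx
    simp at hx
  have hred : FreeGroup.IsReduced (zpw (PqW_j t) d ++ m.toWord ++ zpw (PqW_j t) (-d')) := by
    have hm : FreeGroup.IsReduced m.toWord := FreeGroup.isReduced_toWord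
    unfold FreeGroup.IsReduced at hm ⊢
    rw [List.isChain_append, List.isChain_append]
    refine ⟨⟨PqW_zpw_red _ _, hm, ?_⟩, PqW_zpw_red _ _, ?_⟩
    · intro a ha b hb hab
      have e1 := PqW_zpw_mem (List.mem_of_getLast? ha)
      rw [hx] at hb
      have e2 : b = x := by simpa using hb.symm
      rw [e2, hx1, e1] at hab
      exact absurd hab (PqW_j_ne t)
    · intro a ha b hb hab
      have e1 := PqW_zpw_mem (List.mem_of_head? hb)
      rw [List.getLast?_append_of_ne_nil _ hne, hy] at ha
      have e2 : a = y := by simpa using ha.symm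
      rw [e2, hy1, e1] at hab
      exact absurd hab.symm (PqW_j_ne t)
  rw [← hred.reduce_eq, ← FreeGroup.toWord_mk, ← FreeGroup.mul_mk, ← FreeGroup.mul_mk, mk_zpw, mk_zpw,
    FreeGroup.mk_toWord, PqW_nat]

theorem q_nat_in12 (t : Bool) (k : ℤ) : In12 (qnat t ^ k) := by
  rw [PqW_nat]
  exact In12_zpow (In12_of (PqW_j_zero t)) k

theorem q_pow_fo (t : Bool) (k : ℤ) : qfo t (qnat t ^ k) = false := by
  rw [← Bool.not_eq_true, PqW_fo]
  rintro ⟨x, h1, h2⟩
  rw [PqW_nat, PqW_zpw_word] at h1
  have h3 := PqW_zpw_mem (List.mem_of_head? h1)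
  exact PqW_j_ne t (h3.symm.trans h2)

theorem PqW_expand_head {j : Fin 3} {s : List ((Fin 3 × Bool) × ℤ)} (hs : ∀ q ∈ s, q.1.1 ≠ j)
    (hne : s ≠ []) : ∃ x, (expand j s).head? = some x ∧ x.1 ≠ j := by
  cases s with
  | nil => exact absurd rfl hne
  | cons q s =>
    refine ⟨q.1, ?_, hs q List.mem_cons_self⟩
    unfold expand
    rw [List.flatMap_cons]
    rfl

theorem PqW_left {g : FreeGroup (Fin 3)} (hg : In12 g) (t : Bool) :
    (∃ m : ℤ, g = qnat t ^ m) ∨ ∃ (d : ℤ) (m : FreeGroup (Fin 3)), In12 m ∧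
      qfo t m = true ∧ g = qnat t ^ d * m ∧ g.toWord = zpw (PqW_j t) d ++ m.toWord := by
  obtain ⟨k, s, hs, hq⟩ := SylA_group (PqW_j t) g.toWord FreeGroup.isReduced_toWord
  by_cases hne : s = []
  · left
    refine ⟨k, ?_⟩
    rw [hne] at hs
    have h1 : g.toWord = zpw (PqW_j t) k := by rw [hs]; simp [expand]
    rw [← FreeGroup.mk_toWord (x := g), h1, mk_zpw, PqW_nat]
  · right
    have hred : FreeGroup.IsReduced (expand (PqW_j t) s) := by
      have h1 : FreeGroup.IsReduced g.toWord := FreeGroup.isReduced_toWord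
      rw [hs] at h1
      unfold FreeGroup.IsReduced at h1 ⊢
      rw [List.isChain_append] at h1
      exact h1.2.1
    have hw : (FreeGroup.mk (expand (PqW_j t) s)).toWord = expand (PqW_j t) s := by
      rw [FreeGroup.toWord_mk, hred.reduce_eq]
    have h12 : In12 (FreeGroup.mk (expand (PqW_j t) s)) := by
      intro x hx
      rw [hw] at hx
      apply hg x
      rw [hs]
      exact List.mem_append_right _ hx
    refine ⟨k, FreeGroup.mk (expand (PqW_j t) s), h12, ?_, ?_, ?_⟩
    · rw [PqW_fo, hw]
      obtain ⟨x, hx, hx1⟩ := PqW_expand_head hq hne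
      refine ⟨x, hx, ?_⟩
      have h0 : x.1 ≠ 0 := by
        apply h12 x
        rw [hw]
        exact List.mem_of_head? hx
      rcases PqW_cases t h0 with h | h
      · exact absurd h hx1
      · exact h
    · rw [PqW_nat, ← mk_zpw, FreeGroup.mul_mk, ← hs, FreeGroup.mk_toWord]
    · rw [hw, hs]

theorem q_core {g : FreeGroup (Fin 3)} (hg : In12 g) (t : Bool) :
    (∃ m : ℤ, g = qnat t ^ m) ∨ ∃ (d d' : ℤ) (m : FreeGroup (Fin 3)), In12 m ∧
      qfo t m = true ∧ qfo t m⁻¹ = true ∧ g = qnat t ^ d * m * qnat t ^ (-d') := by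
  rcases PqW_left hg t with h | ⟨d, g₁, h1, h2, h3, -⟩
  · exact Or.inl h
  · right
    rcases PqW_left (In12_inv h1) t with ⟨k, hk⟩ | ⟨k, g₂, h4, h5, h6, h7⟩
    · exfalso
      have h8 : g₁ = qnat t ^ (-k) := by rw [zpow_neg, ← hk, inv_inv]
      rw [h8, q_pow_fo] at h2
      exact absurd h2 (by decide)
    · refine ⟨d, k, g₂⁻¹, In12_inv h4, ?_, ?_, ?_⟩
      · have h9 : g₁.toWord = FreeGroup.invRev g₂.toWord ++ FreeGroup.invRev (zpw (PqW_j t) k) := by
          have h10 : g₁.toWord = FreeGroup.invRev g₁⁻¹.toWord := by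
            rw [← FreeGroup.toWord_inv, inv_inv]
          rw [h10, h7]
          unfold FreeGroup.invRev
          rw [List.map_append, List.reverse_append]
        obtain ⟨x, hx, hx1⟩ := (PqW_fo t g₁).1 h2
        have hne : g₂⁻¹.toWord ≠ [] := by
          intro h
          rw [FreeGroup.toWord_eq_nil_iff, inv_eq_one] at h
          rw [h] at h5
          obtain ⟨y, hy, -⟩ := (PqW_fo t _).1 h5
          rw [FreeGroup.toWord_one] at hy
          simp at hy
        rw [PqW_fo]
        refine ⟨x, ?_, hx1⟩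
        rw [h9, ← FreeGroup.toWord_inv, List.head?_append_of_ne_nil _ hne] at hx
        exact hx
      · rw [inv_inv]
        exact h5
      · have h11 : g₁ = g₂⁻¹ * qnat t ^ (-k) := by
          rw [← inv_inv g₁, h6, mul_inv_rev, zpow_neg]
        rw [h3, h11, mul_assoc]

theorem q_core_norm {t : Bool} {m : FreeGroup (Fin 3)} (hm : In12 m) (h1 : qfo t m = true)
    (h2 : qfo t m⁻¹ = true) (d d' : ℤ) :
    (qnat t ^ d * m * qnat t ^ (-d')).norm = d.natAbs + m.norm + d'.natAbs := by
  unfold FreeGroup.norm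
  rw [PqW_word h1 h2, List.length_append, List.length_append, PqW_zpw_len, PqW_zpw_len,
    Int.natAbs_neg]

theorem q_pow_norm (t : Bool) (k : ℤ) : (qnat t ^ k).norm = k.natAbs := by
  unfold FreeGroup.norm
  rw [PqW_nat, PqW_zpw_word, PqW_zpw_len]

theorem q_core_fo {t : Bool} {m : FreeGroup (Fin 3)} (hm : In12 m) (h1 : qfo t m = true)
    (h2 : qfo t m⁻¹ = true) (d d' : ℤ) :
    qfo t (qnat t ^ d * m * qnat t ^ (-d')) = true ↔ d = 0 := by
  rw [PqW_fo, PqW_word h1 h2]
  obtain ⟨x, hx, hx1⟩ := (PqW_fo t m).1 h1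
  constructor
  · rintro ⟨y, hy, hy1⟩
    by_contra hd
    have hne : zpw (PqW_j t) d ≠ [] := by
      intro h
      have h3 := PqW_zpw_len (PqW_j t) d
      rw [h, List.length_nil] at h3
      omega
    rw [List.append_assoc, List.head?_append_of_ne_nil _ hne] at hy
    have h4 := PqW_zpw_mem (List.mem_of_head? hy)
    exact PqW_j_ne t (h4.symm.trans hy1)
  · rintro rfl
    refine ⟨x, ?_, hx1⟩
    have h5 : zpw (PqW_j t) 0 = [] := rfl
    have hne : m.toWord ≠ [] := by
      intro h
      rw [h] at hx
      simp at hx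
    rw [h5, List.nil_append, List.head?_append_of_ne_nil _ hne, hx]

theorem PqW_x_pre (t : Bool) (l v : List (Fin 3 × Bool)) (t' : Bool) (hl : ∀ x ∈ l, PhB_sd x = t) :
    PhB_x t (l ++ v) t' = PhB_x t v t' := by
  induction l with
  | nil => rfl
  | cons x l ih =>
    have h1 := hl x List.mem_cons_self
    rw [List.cons_append, PhB_x, h1, if_pos rfl, zero_add]
    exact ih (fun y hy => hl y (List.mem_cons_of_mem _ hy))

theorem PqW_x_all (t : Bool) (l : List (Fin 3 × Bool)) (hl : ∀ x ∈ l, PhB_sd x = t) :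
    PhB_x t l t = 0 := by
  have h1 := PqW_x_pre t l [] t hl
  rw [List.append_nil] at h1
  rw [h1, PhB_x, if_pos rfl]

theorem PqW_x_suf (t : Bool) (l : List (Fin 3 × Bool)) (hl : ∀ x ∈ l, PhB_sd x = t)
    (v : List (Fin 3 × Bool)) (t₀ : Bool) : PhB_x t₀ (v ++ l) t = PhB_x t₀ v t := by
  induction v generalizing t₀ with
  | nil =>
    rw [List.nil_append, PhB_x]
    cases l with
    | nil => rfl
    | cons x l =>
      have h1 := hl x List.mem_cons_self
      rw [PhB_x, h1, PqW_x_all t l (fun y hy => hl y (List.mem_cons_of_mem _ hy)), add_zero]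
  | cons x v ih =>
    rw [List.cons_append, PhB_x, PhB_x, ih]

theorem q_pow_x (t p q : Bool) (k : ℤ) : xarc (fun _ => t) p q (qnat t ^ k) = 0 := by
  rw [PhB_xarc (q_nat_in12 t k), PqW_nat, PqW_zpw_word]
  exact PqW_x_all t _ (fun x hx => PqW_sd_j t (PqW_zpw_mem hx))

theorem q_core_x {t : Bool} {m : FreeGroup (Fin 3)} (hm : In12 m) (h1 : qfo t m = true)
    (h2 : qfo t m⁻¹ = true) (d d' : ℤ) (p q : Bool) :
    xarc (fun _ => t) p q (qnat t ^ d * m * qnat t ^ (-d')) = xarc (fun _ => t) p q m := by
  rw [PhB_xarc (In12_mul (In12_mul (q_nat_in12 t d) hm) (q_nat_in12 t _)), PhB_xarc hm,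
    PqW_word h1 h2, PqW_x_suf t _ (fun x hx => PqW_sd_j t (PqW_zpw_mem hx)),
    PqW_x_pre t _ _ _ (fun x hx => PqW_sd_j t (PqW_zpw_mem hx))]

theorem PqW_x_par (v : List (Fin 3 × Bool)) (t t' : Bool) :
    PhB_x t v t' % 2 = if t = t' then 0 else 1 := by
  induction v generalizing t with
  | nil => rw [PhB_x]; cases t <;> cases t' <;> rfl
  | cons x v ih =>
    rw [PhB_x]
    have h1 := ih (PhB_sd x)
    revert h1
    generalize PhB_x (PhB_sd x) v t' = n
    generalize PhB_sd x = s
    cases t <;> cases t' <;> cases s <;> simp <;> omega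

theorem PqW_head {t : Bool} {m : FreeGroup (Fin 3)} (h1 : qfo t m = true) :
    ∃ x v, m.toWord = x :: v ∧ x.1 = PqW_f t := by
  obtain ⟨x, hx, hx1⟩ := (PqW_fo t m).1 h1
  cases h : m.toWord with
  | nil => rw [h] at hx; simp at hx
  | cons y v =>
    rw [h] at hx
    simp only [List.head?_cons, Option.some.injEq] at hx
    exact ⟨y, v, rfl, by rw [hx, hx1]⟩

theorem q_x_ge {t : Bool} {m : FreeGroup (Fin 3)} (hm : In12 m) (h1 : qfo t m = true)
    (h2 : qfo t m⁻¹ = true) (p q : Bool) : 2 ≤ xarc (fun _ => t) p q m := by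
  obtain ⟨x, v, hw, hx⟩ := PqW_head h1
  have h3 := PqW_x_par v (!t) t
  rw [PhB_xarc hm, hw, PhB_x, PqW_sd_f t hx]
  have h4 : ¬ (t = !t) := by cases t <;> decide
  have h5 : ¬ ((!t) = t) := by cases t <;> decide
  rw [if_neg h4]
  rw [if_neg h5] at h3
  omega

theorem q_x_even {g : FreeGroup (Fin 3)} (hg : In12 g) (t p q : Bool) :
    xarc (fun _ => t) p q g % 2 = 0 := by
  rw [PhB_xarc hg, PqW_x_par, if_pos rfl]

theorem PqW_x_one (v : List (Fin 3 × Bool)) (s s' : Bool) (hs : s ≠ s')
    (hv : ∀ y, v.getLast? = some y → PhB_sd y = s) (h : PhB_x s v s' = 1) :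
    ∀ y ∈ v, PhB_sd y = s := by
  have hzero : ∀ (v : List (Fin 3 × Bool)), PhB_x s' v s' = 0 → ∀ y ∈ v, PhB_sd y = s' := by
    intro v
    induction v with
    | nil => intro _ y hy; simp at hy
    | cons x v ih =>
      intro h0 y hy
      rw [PhB_x] at h0
      have h1 : s' = PhB_sd x := by
        by_contra hc
        rw [if_neg hc] at h0
        omega
      rw [← h1, if_pos rfl, zero_add] at h0
      rcases List.mem_cons.1 hy with rfl | hy
      · exact h1.symm
      · exact ih h0 y hy
  induction v with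
  | nil => intro y hy; simp at hy
  | cons x v ih =>
    intro y hy
    rw [PhB_x] at h
    by_cases hx : s = PhB_sd x
    · rw [← hx, if_pos rfl, zero_add] at h
      rcases List.mem_cons.1 hy with rfl | hy
      · exact hx.symm
      · refine ih ?_ h y hy
        intro z hz
        apply hv z
        cases v with
        | nil => simp at hz
        | cons a v => rw [List.getLast?_cons_cons]; exact hz
    · exfalso
      have hx' : PhB_sd x = s' := by
        revert hs hx
        cases s <;> cases s' <;> cases PhB_sd x <;> simp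
      rw [if_neg hx, hx'] at h
      have h0 : PhB_x s' v s' = 0 := by omega
      have h1 := hzero v h0
      have h2 : ∀ y ∈ x :: v, PhB_sd y = s' := by
        intro y hy
        rcases List.mem_cons.1 hy with rfl | hy
        · exact hx'
        · exact h1 y hy
      have hl : (x :: v).getLast? = some ((x :: v).getLast (List.cons_ne_nil _ _)) :=
        List.getLast?_eq_some_getLast _
      have h3 := hv _ hl
      have h4 := h2 _ (List.getLast_mem (List.cons_ne_nil x v))
      exact hs (h3.symm.trans h4)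

theorem q_x_two {t : Bool} {m : FreeGroup (Fin 3)} (hm : In12 m) (h1 : qfo t m = true)
    (h2 : qfo t m⁻¹ = true) {p q : Bool} (hx : xarc (fun _ => t) p q m = 2) :
    ∃ l : ℤ, l ≠ 0 ∧ m = qnat (!t) ^ l := by
  obtain ⟨x, v, hw, hx1⟩ := PqW_head h1
  have h4 : ¬ (t = !t) := by cases t <;> decide
  have h5 : (!t) ≠ t := by cases t <;> decide
  rw [PhB_xarc hm, hw, PhB_x, PqW_sd_f t hx1, if_neg h4] at hx
  have hlast := PqW_last h2
  have hall : ∀ y ∈ v, PhB_sd y = !t := by
    refine PqW_x_one v (!t) t h5 ?_ (by omega)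
    intro y hy
    obtain ⟨z, hz, hz1⟩ := hlast
    rw [hw] at hz
    cases v with
    | nil => simp at hy
    | cons a v =>
      rw [List.getLast?_cons_cons, hy] at hz
      simp only [Option.some.injEq] at hz
      rw [hz]
      exact PqW_sd_f t hz1
  have hall' : ∀ y ∈ m.toWord, y.1 = PqW_f t := by
    intro y hy
    have h0 := hm y hy
    rcases PqW_cases t h0 with h | h
    · exfalso
      rw [hw] at hy
      rcases List.mem_cons.1 hy with rfl | hy
      · exact PqW_j_ne t (h.symm.trans hx1)
      · have h6 := hall y hy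
        rw [PqW_sd_j t h] at h6
        exact h4 h6
    · exact h
  obtain ⟨k, s, hs, hq⟩ := SylA_group (PqW_f t) m.toWord FreeGroup.isReduced_toWord
  have hs0 : s = [] := by
    cases s with
    | nil => rfl
    | cons a s =>
      exfalso
      apply hq a List.mem_cons_self
      apply hall'
      rw [hs]
      apply List.mem_append_right
      unfold expand
      rw [List.flatMap_cons]
      exact List.mem_append_left _ List.mem_cons_self
  have h7 : m.toWord = zpw (PqW_f t) k := by
    rw [hs, hs0]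
    simp [expand]
  refine ⟨k, ?_, ?_⟩
  · rintro rfl
    rw [hw] at h7
    exact absurd h7 (by simp [zpw])
  · rw [← FreeGroup.mk_toWord (x := m), h7, mk_zpw, PqW_nat']

end Pool.Agent.Sims
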