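import Pool.Agent.Sims.NotPhiS
import Pool.Agent.Sims.NotPhiO
import Pool.Agent.Sims.PhiS
import Pool.Agent.Sims.PhiO

/-!
# Module `R1` : exactly two letters `a^{±1}`, at least three of each other generator

`c` orbit-minimal, `cnt c 0 = 2`, `3 ≤ cnt c 1 ≤ cnt c 2`, `m = cycLen c ≥ 11`.
Suppose first that some `e ∈ orb c` has `cnt e 0 = 2` and (`capC e Sb = 2` or `capC e Sc = 2`).  `OMin e` (`OMin_orb`), and
`cnt e 1, cnt e 2 ≥ 3` (`cnt_orb`: the counts of `e` are a permutation of those of `c`; exactly one of them is `2`).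
`exists_form` for `e`: `e = same g h`: `phi_same'`; `e = opp g h`: `phi_opp`; or `e' = act (flp ..) e = same g h`: `e' ∈ orb c`,
and (`capC_SPerm`) `capC e' S = capC e (S ∘ flip)`, where `Sb ∘ flip = {a⁻¹, b, b⁻¹}` is the complement of `Sc`, so
`capC e' Sb = capC e Sc`, `capC e' Sc = capC e Sb` (`capC_compl`): `phi_same'` for `e'`.  Conclude with `Bdd_orb`, `Bdd_mono`
(`(m-2)(m-1) ≤ F3 m`, `(m-2)² ≤ F3 m` for `m ≥ 11`).
Otherwise: `exists_form` for `c`; `same`: `notphi_same`; `opp`: `notphi_opp`; the sign changed case: `c' = act (flp ..) c`,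
`orb c' = orb c`, `cnt_flp`, `notphi_same` for `c'`.
Difficulty 2.
-/

namespace Pool.Agent.Sims

open FreeGroup (of)

theorem R1_arith {m : ℕ} (hm : 11 ≤ m) :
    (m - 2) * (m - 1) ≤ F3 m ∧ (m - 2) ^ 2 ≤ F3 m := by
  obtain ⟨k, rfl⟩ : ∃ k, m = k + 11 := ⟨m - 11, by omega⟩
  unfold F3
  have h1 : k + 11 - 2 = k + 9 := by omega
  have h2 : k + 11 - 1 = k + 10 := by omega
  have h3 : k + 11 - 7 = k + 4 := by omega
  rw [h1, h2, h3]
  constructor <;> nlinarith [Nat.zero_le k, Nat.zero_le (k * k), Nat.zero_le (k * k * k)]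

theorem R1_Sb_flip (e : CC) :
    capC (act (flp (fun i => decide (i ≠ 0))).aut e) Sb = capC e Sc ∧
      capC (act (flp (fun i => decide (i ≠ 0))).aut e) Sc = capC e Sb := by
  rw [capC_SPerm, capC_SPerm]
  have key : ∀ x : Fin 3 × Bool,
      Sb ((flp (fun i => decide (i ≠ 0))).letter x) = !(Sc x) ∧
      Sc ((flp (fun i => decide (i ≠ 0))).letter x) = !(Sb x) := by
    decide
  constructor
  · rw [capC_congr e (fun x => (key x).1)]
    exact capC_compl e Sc
  · rw [capC_congr e (fun x => (key x).2)]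
    exact capC_compl e Sb

theorem r1 {c : CC} (h : OMin c) (hm : 11 ≤ cycLen c) (h0 : cnt c 0 = 2) (h1 : 3 ≤ cnt c 1)
    (h12 : cnt c 1 ≤ cnt c 2) : Bdd c (F3 (cycLen c)) := by
  set F : SPerm (Fin 3) := flp (fun i => decide (i ≠ 0)) with hF
  have hA := R1_arith hm
  by_cases hP : ∃ e ∈ orb c, cnt e 0 = 2 ∧ (capC e Sb = 2 ∨ capC e Sc = 2)
  · obtain ⟨e, he, he0, heP⟩ := hP
    have heO := OMin_orb h he
    have hlen : cycLen e = cycLen c := he.2
    obtain ⟨p, hp⟩ := cnt_orb h he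
    have hp0 : p 0 = 0 := by
      have := hp 0
      rw [he0] at this
      have h3 : ∀ i : Fin 3, i = 0 ∨ i = 1 ∨ i = 2 := by decide
      rcases h3 (p 0) with h | h | h
      · exact h
      · rw [h] at this; omega
      · rw [h] at this; omega
    have hne : ∀ i : Fin 3, i ≠ 0 → 3 ≤ cnt e i := by
      intro i hi
      rw [hp i]
      have h3 : ∀ i : Fin 3, i = 0 ∨ i = 1 ∨ i = 2 := by decide
      rcases h3 (p i) with h | h | h
      · exact absurd (p.injective (h.trans hp0.symm)) hi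
      · rw [h]; exact h1
      · rw [h]; omega
    have he1 := hne 1 (by decide)
    have he2 := hne 2 (by decide)
    rcases exists_form he0 with ⟨g, k, hg, hk, rfl⟩ | ⟨g, k, hg, hk, hgk⟩ |
      ⟨g, k, hg, hk, hg1, hk1, rfl⟩
    · apply Bdd_orb he
      rw [← hlen] at hA ⊢
      exact Bdd_mono (phi_same' hg hk heO he1 he2 heP) hA.1
    · have he' : act F.aut e ∈ orb c := orb_trans he (orb_SPerm F e)
      have hO' := OMin_orb h he'
      have hlen' : cycLen (act F.aut e) = cycLen c := he'.2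
      have hc1 : 3 ≤ cnt (act F.aut e) 1 := by rw [hF, cnt_flp]; exact he1
      have hc2 : 3 ≤ cnt (act F.aut e) 2 := by rw [hF, cnt_flp]; exact he2
      have hcP : capC (act F.aut e) Sb = 2 ∨ capC (act F.aut e) Sc = 2 := by
        rw [hF, (R1_Sb_flip e).1, (R1_Sb_flip e).2]
        exact heP.symm
      rw [hgk] at he' hO' hlen' hc1 hc2 hcP
      apply Bdd_orb he'
      rw [← hlen'] at hA ⊢
      exact Bdd_mono (phi_same' hg hk hO' hc1 hc2 hcP) hA.1
    · apply Bdd_orb he
      rw [← hlen] at hA ⊢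
      exact Bdd_mono (phi_opp hg hk hg1 hk1 heO he1 he2 heP) hA.2
  · have hP' : ∀ e ∈ orb c, cnt e 0 = 2 → capC e Sb ≠ 2 ∧ capC e Sc ≠ 2 := by
      intro e he he0
      constructor
      · intro hb; exact hP ⟨e, he, he0, Or.inl hb⟩
      · intro hb; exact hP ⟨e, he, he0, Or.inr hb⟩
    rcases exists_form h0 with ⟨g, k, hg, hk, rfl⟩ | ⟨g, k, hg, hk, hgk⟩ |
      ⟨g, k, hg, hk, hg1, hk1, rfl⟩
    · exact notphi_same hg hk h hm h1 h12 hP'
    · have hc' : act F.aut c ∈ orb c := orb_SPerm F c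
      have hO' := OMin_orb h hc'
      have hlen' : cycLen (act F.aut c) = cycLen c := hc'.2
      have hm' : 11 ≤ cycLen (act F.aut c) := by rw [hlen']; exact hm
      have hc1 : 3 ≤ cnt (act F.aut c) 1 := by rw [hF, cnt_flp]; exact h1
      have hc12 : cnt (act F.aut c) 1 ≤ cnt (act F.aut c) 2 := by
        rw [hF, cnt_flp, cnt_flp]; exact h12
      have horb : orb (act F.aut c) = orb c := orb_eq hc'
      rw [← horb] at hP'
      rw [hgk] at hc' hO' hlen' hm' hc1 hc12 hP'
      apply Bdd_orb hc'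
      rw [← hlen']
      exact notphi_same hg hk hO' hm' hc1 hc12 hP'
    · exact notphi_opp hg hk hg1 hk1 h hm h1 h12 hP'

end Pool.Agent.Sims
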