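import Pool.Agent.Sims.R2Defs

/-!
# Module `R2A` : basic facts on the words `wd`

* `wd_mk`: `mk_zpow`; `FreeGroup.mk` of a concatenation.
* `wd_rotate`: rotation of the word (`cls_append_comm`).
* `wd_SPerm`: `act_SPerm_cls`; a signed permutation with `c ↦ c^{±1}` maps `zpw 2 k` to `zpw 2 (± k)`.
* `wd_pot`: `act_pot`.
* `wd_valid`: `SValid_iff`.  `wd_cnt2`, `wd_cnt`: `cnt_cls`, `cntL_expand_self`, `cntL_expand_ne`.
* `wd_cap`: `capC_cls`, `cap_expand_nonsep`.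
* `cnt_le`: reduction to a cyclically reduced word only deletes letters.
Difficulty 1-2.
-/

namespace Pool.Agent.Sims

open FreeGroup (of)

theorem R2A_mk_cons (x : Fin 3 × Bool) (l : List (Fin 3 × Bool)) :
    (FreeGroup.mk (x :: l) : FreeGroup (Fin 3)) = lett x * FreeGroup.mk l := by
  rw [lett, FreeGroup.mul_mk]; rfl

theorem wd_mk (x1 x2 x3 x4 : Fin 3 × Bool) (k1 k2 k3 k4 : ℤ) :
    wd x1 x2 x3 x4 k1 k2 k3 k4 = ConjClasses.mk (lett x1 * of 2 ^ k1 * lett x2 * of 2 ^ k2 *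
      lett x3 * of 2 ^ k3 * lett x4 * of 2 ^ k4) := by
  unfold wd cls
  congr 1
  have : expand 2 [(x1, k1), (x2, k2), (x3, k3), (x4, k4)] =
      x1 :: (zpw 2 k1 ++ (x2 :: (zpw 2 k2 ++ (x3 :: (zpw 2 k3 ++ (x4 :: zpw 2 k4)))))) := by
    simp [expand, List.flatMap_cons]
  rw [this, R2A_mk_cons, ← FreeGroup.mul_mk, R2A_mk_cons, ← FreeGroup.mul_mk, R2A_mk_cons,
    ← FreeGroup.mul_mk, R2A_mk_cons, mk_zpw, mk_zpw, mk_zpw, mk_zpw]
  simp only [mul_assoc]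

theorem wd_rotate (x1 x2 x3 x4 : Fin 3 × Bool) (k1 k2 k3 k4 : ℤ) :
    wd x1 x2 x3 x4 k1 k2 k3 k4 = wd x2 x3 x4 x1 k2 k3 k4 k1 := by
  rw [wd_mk, wd_mk, ConjClasses.mk_eq_mk_iff_isConj, isConj_iff]
  refine ⟨(lett x1 * of 2 ^ k1)⁻¹, ?_⟩
  group

theorem wd_SPerm {σ : SPerm (Fin 3)} (hσ : Fix2 σ) {x1 x2 x3 x4 : Fin 3 × Bool}
    (h1 : x1.1 ≠ 2) (h2 : x2.1 ≠ 2) (h3 : x3.1 ≠ 2) (h4 : x4.1 ≠ 2) (k1 k2 k3 k4 : ℤ) :
    act σ.aut (wd x1 x2 x3 x4 k1 k2 k3 k4) =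
      wd (σ.letter x1) (σ.letter x2) (σ.letter x3) (σ.letter x4)
        ((if σ.sign 2 then 1 else -1) * k1) ((if σ.sign 2 then 1 else -1) * k2)
        ((if σ.sign 2 then 1 else -1) * k3) ((if σ.sign 2 then 1 else -1) * k4) := by
  have hl : ∀ x : Fin 3 × Bool, σ.aut (lett x) = lett (σ.letter x) := fun x => SPerm.hom_lett _ x
  have h2' : σ.aut (of 2) = of 2 ^ (if σ.sign 2 then (1 : ℤ) else -1) := by
    have e1 : (of 2 : FreeGroup (Fin 3)) = lett (2, true) := rfl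
    rw [e1, hl]
    have hσ' : σ.perm 2 = 2 := hσ
    unfold SPerm.letter
    simp only
    rw [hσ']
    cases hs : σ.sign 2 with
    | true => simp
    | false => simp [lett_false, lett_true]
  rw [wd_mk, wd_mk, act_mk]
  congr 1
  simp only [map_mul, map_zpow, hl, h2', ← zpow_mul]

theorem wd_pot (p : Fin 3 × Bool → ℤ) {x1 x2 x3 x4 : Fin 3 × Bool}
    (h1 : x1.1 ≠ 2) (h2 : x2.1 ≠ 2) (h3 : x3.1 ≠ 2) (h4 : x4.1 ≠ 2) (k1 k2 k3 k4 : ℤ) :
    act (pot 2 p) (wd x1 x2 x3 x4 k1 k2 k3 k4) =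
      wd x1 x2 x3 x4 (k1 + p x1 - p (bar x2)) (k2 + p x2 - p (bar x3))
        (k3 + p x3 - p (bar x4)) (k4 + p x4 - p (bar x1)) := by
  have hs : ∀ q ∈ [(x1, k1), (x2, k2), (x3, k3), (x4, k4)], q.1.1 ≠ 2 := by
    intro q hq
    simp only [List.mem_cons, List.not_mem_nil, or_false] at hq
    rcases hq with rfl | rfl | rfl | rfl <;> assumption
  unfold wd
  rw [act_pot 2 p _ hs]
  rfl

/-- conditions for cyclic reducedness -/
def WV (x1 x2 x3 x4 : Fin 3 × Bool) (k1 k2 k3 k4 : ℤ) : Prop :=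
  x1.1 ≠ 2 ∧ x2.1 ≠ 2 ∧ x3.1 ≠ 2 ∧ x4.1 ≠ 2 ∧ (x2 = bar x1 → k1 ≠ 0) ∧ (x3 = bar x2 → k2 ≠ 0) ∧
    (x4 = bar x3 → k3 ≠ 0) ∧ (x1 = bar x4 → k4 ≠ 0)

theorem wd_valid {x1 x2 x3 x4 : Fin 3 × Bool} {k1 k2 k3 k4 : ℤ}
    (h : WV x1 x2 x3 x4 k1 k2 k3 k4) :
    SValid 2 [(x1, k1), (x2, k2), (x3, k3), (x4, k4)] := by
  obtain ⟨h1, h2, h3, h4, a1, a2, a3, a4⟩ := h
  have hs : ∀ q ∈ [(x1, k1), (x2, k2), (x3, k3), (x4, k4)], q.1.1 ≠ 2 := by
    intro q hq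
    simp only [List.mem_cons, List.not_mem_nil, or_false] at hq
    rcases hq with rfl | rfl | rfl | rfl <;> assumption
  rw [SValid_iff 2 _ hs]
  simp only [cyc, lin]
  rw [if_neg (fun h => a1 h.1 h.2), if_neg (fun h => a2 h.1 h.2), if_neg (fun h => a3 h.1 h.2),
    if_neg (fun h => a4 h.1 h.2)]

theorem wd_cnt2 {x1 x2 x3 x4 : Fin 3 × Bool} {k1 k2 k3 k4 : ℤ}
    (h : WV x1 x2 x3 x4 k1 k2 k3 k4) :
    cnt (wd x1 x2 x3 x4 k1 k2 k3 k4) 2 = k1.natAbs + k2.natAbs + k3.natAbs + k4.natAbs := by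
  have hv := wd_valid h
  unfold wd
  rw [cnt_cls hv.2, cntL_expand_self 2 _ hv.1]
  simp [add_assoc]

theorem wd_cnt {x1 x2 x3 x4 : Fin 3 × Bool} {k1 k2 k3 k4 : ℤ}
    (h : WV x1 x2 x3 x4 k1 k2 k3 k4) {i : Fin 3} (hi : i ≠ 2) :
    cnt (wd x1 x2 x3 x4 k1 k2 k3 k4) i = cntL [x1, x2, x3, x4] i := by
  have hv := wd_valid h
  unfold wd
  rw [cnt_cls hv.2, cntL_expand_ne 2 _ hi]
  rfl

theorem wd_cap {x1 x2 x3 x4 : Fin 3 × Bool} {k1 k2 k3 k4 : ℤ}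
    (h : WV x1 x2 x3 x4 k1 k2 k3 k4) {A : Fin 3 × Bool → Bool} (hA : A (2, true) = false)
    (hA' : A (2, false) = false) :
    capC (wd x1 x2 x3 x4 k1 k2 k3 k4) A =
      (if k1 = 0 then (if A x1 = A (bar x2) then 0 else 1) else
        (if A x1 then 1 else 0) + (if A (bar x2) then 1 else 0)) +
      (if k2 = 0 then (if A x2 = A (bar x3) then 0 else 1) else
        (if A x2 then 1 else 0) + (if A (bar x3) then 1 else 0)) +
      (if k3 = 0 then (if A x3 = A (bar x4) then 0 else 1) else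
        (if A x3 then 1 else 0) + (if A (bar x4) then 1 else 0)) +
      (if k4 = 0 then (if A x4 = A (bar x1) then 0 else 1) else
        (if A x4 then 1 else 0) + (if A (bar x1) then 1 else 0)) := by
  have hv := wd_valid h
  unfold wd
  rw [capC_cls hv.2, cap_expand_nonsep 2 _ hv.1 A hA hA']
  simp only [cyc, lin, add_assoc]

theorem cnt_le (w : List (Fin 3 × Bool)) (i : Fin 3) : cnt (cls w) i ≤ cntL w i := by
  obtain ⟨C, R, hR, h⟩ := Cyc_split (FreeGroup.mk w)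
  have h1 : cls R = cls w := Cyc_cls_split h
  rw [← h1, cnt_cls hR]
  have h2 : List.Sublist R (FreeGroup.mk w).toWord := by
    rw [h]
    exact (List.sublist_append_right _ _).trans (List.sublist_append_left _ _)
  have h3 : List.Sublist (FreeGroup.mk w).toWord w := by
    rw [FreeGroup.toWord_mk]
    exact FreeGroup.Red.sublist FreeGroup.reduce.red
  unfold cntL
  exact (h2.trans h3).countP_le

end Pool.Agent.Sims
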