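import Pool.Agent.Sims.BddM
import Pool.Agent.Sims.EdgeM

/-!
Definitions for the case `n_a = n_b = 2`.  `wd x₁ x₂ x₃ x₄ k₁ k₂ k₃ k₄` is the class of the word
`x₁ c^{k₁} x₂ c^{k₂} x₃ c^{k₃} x₄ c^{k₄}`, `x_i` letters of the generators `a, b`.

The six patterns (with sign conventions such that the invariants become sums):
* `W1 = a c^{k1} a c^{-k2} b c^{k3} b c^{-k4}`,      invariant `k1+k2+k3+k4`
* `W2 = a c^{k1} b c^{-k2} a c^{-k3} b⁻¹ c^{k4}`,    invariant `k1+k2+k3+k4`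
* `W3 = a c^{k1} b c^{k2} a⁻¹ c^{k3} b⁻¹ c^{k4}`,    invariant `k1+k2+k3+k4`
* `W4 = a c^{k1} a c^{-k2} b c^{k3} b⁻¹ c^{-k4}`,    invariants `k1+k2+k4`, `k3`
* `W5 = a c^{k1} b c^{k2} a c^{-k3} b c^{-k4}`,      invariants `k1+k3`, `k2+k4`
* `W6 = a c^{k1} a⁻¹ c^{k2} b c^{k3} b⁻¹ c^{k4}`,    invariants `k2+k4`, `k1`, `k3`
-/

namespace Pool.Agent.Sims

open FreeGroup (of)

/-- the class of `x₁ c^{k₁} x₂ c^{k₂} x₃ c^{k₃} x₄ c^{k₄}` -/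
def wd (x1 x2 x3 x4 : Fin 3 × Bool) (k1 k2 k3 k4 : ℤ) : CC :=
  cls (expand 2 [(x1, k1), (x2, k2), (x3, k3), (x4, k4)])

/-- pattern 1 -/
def W1 (k1 k2 k3 k4 : ℤ) : CC := wd (0, true) (0, true) (1, true) (1, true) k1 (-k2) k3 (-k4)
/-- pattern 2 -/
def W2 (k1 k2 k3 k4 : ℤ) : CC := wd (0, true) (1, true) (0, true) (1, false) k1 (-k2) (-k3) k4
/-- pattern 3 -/
def W3 (k1 k2 k3 k4 : ℤ) : CC := wd (0, true) (1, true) (0, false) (1, false) k1 k2 k3 k4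
/-- pattern 4 -/
def W4 (k1 k2 k3 k4 : ℤ) : CC := wd (0, true) (0, true) (1, true) (1, false) k1 (-k2) k3 (-k4)
/-- pattern 5 -/
def W5 (k1 k2 k3 k4 : ℤ) : CC := wd (0, true) (1, true) (0, true) (1, true) k1 k2 (-k3) (-k4)
/-- pattern 6 -/
def W6 (k1 k2 k3 k4 : ℤ) : CC := wd (0, true) (0, false) (1, true) (1, false) k1 k2 k3 k4

/-- one cycle, invariant `κ` -/
def Z1 (κ : ℤ) : Set CC :=
  {e | ∃ k1 k2 k3 k4 : ℤ, k1 + k2 + k3 + k4 = κ ∧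
    (e = W1 k1 k2 k3 k4 ∨ e = W2 k1 k2 k3 k4 ∨ e = W3 k1 k2 k3 k4)}

/-- two cycles, invariants `±p`, `±q` -/
def Z2 (p q : ℕ) : Set CC :=
  {e | ∃ k1 k2 k3 k4 : ℤ,
    (e = W4 k1 k2 k3 k4 ∧ (((k1 + k2 + k4).natAbs = p ∧ k3.natAbs = q) ∨
      ((k1 + k2 + k4).natAbs = q ∧ k3.natAbs = p))) ∨
    (e = W5 k1 k2 k3 k4 ∧ (((k1 + k3).natAbs = p ∧ (k2 + k4).natAbs = q) ∨
      ((k1 + k3).natAbs = q ∧ (k2 + k4).natAbs = p)))}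

/-- three cycles, invariants `±p`, `±q`, `±r` -/
def Z3 (p q r : ℕ) : Set CC :=
  {e | ∃ k1 k2 k3 k4 : ℤ, e = W6 k1 k2 k3 k4 ∧
    ({(k2 + k4).natAbs, k1.natAbs, k3.natAbs} : Multiset ℕ) = {p, q, r}}

end Pool.Agent.Sims
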