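import Pool.Agent.Sims.R2A

/-!
# Module `R2Min` : minimality with respect to the multiplier `c`

For an orbit-minimal class `e = wd …` and any potential `p` the class `act (pot 2 p) e` is not shorter; its counts of
`a, b` are the same (`cnt_pot_ne`), so its number of letters `c^{±1}` is not smaller (`wd_pot`, `wd_cnt2`; validity
is preserved by a shift, and holds for `W1, W2, W3, W5` anyway).  For each pattern choose `p` such that all but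
one exponent (of each cycle) become zero; write `p(a), p(ā), p(b), p(b̄)` for the values.
* `W1` (exponents `k1, -k2, k3, -k4`; they change by `p(a)-p(ā)`, `p(a)-p(b̄)`, `p(b)-p(b̄)`, `p(b)-p(ā)`):
  `p(ā) = 0`, `p(b) = k4`, `p(b̄) = k3+k4`, `p(a) = k2+k3+k4`: new exponents `(k1+k2+k3+k4, 0, 0, 0)`.
* `W2` (`k1, -k2, -k3, k4`; changes `p(a)-p(b̄)`, `p(b)-p(ā)`, `p(a)-p(b)`, `p(b̄)-p(ā)`):
  `p(ā) = 0`, `p(b) = k2`, `p(a) = k2+k3`, `p(b̄) = -k4`: `(k1+k2+k3+k4, 0, 0, 0)`.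
* `W3` (`k1, k2, k3, k4`; changes `p(a)-p(b̄)`, `p(b)-p(a)`, `p(ā)-p(b)`, `p(b̄)-p(ā)`):
  `p(ā) = 0`, `p(b̄) = -k4`, `p(b) = k3`, `p(a) = k2+k3`: `(k1+k2+k3+k4, 0, 0, 0)`.
* `W4` (`k1, -k2, k3, -k4`; changes `p(a)-p(ā)`, `p(a)-p(b̄)`, `p(b)-p(b) = 0`, `p(b̄)-p(ā)`):
  `p(ā) = 0`, `p(b̄) = k4`, `p(a) = k2+k4`: `(k1+k2+k4, 0, k3, 0)`.
* `W5` (`k1, k2, -k3, -k4`; changes `p(a)-p(b̄)`, `p(b)-p(ā)`, `p(a)-p(b̄)`, `p(b)-p(ā)`):
  `p(a) = k3, p(b̄) = 0, p(b) = k4, p(ā) = 0`: `(k1+k3, k2+k4, 0, 0)`.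
* `W6` (`k1, k2, k3, k4`; changes `0`, `p(ā)-p(b̄)`, `0`, `p(b̄)-p(ā)`): `p(ā) = k4`, `p(b̄) = 0`: `(k1, k2+k4, k3, 0)`.
The reverse inequality is the triangle inequality.
Difficulty 2.
-/

namespace Pool.Agent.Sims

open FreeGroup (of)

/-- a potential with prescribed values -/
def R2Min_p (A A' B B' : ℤ) : Fin 3 × Bool → ℤ := fun x =>
  if x = (0, true) then A else if x = (0, false) then A' else if x = (1, true) then B else
    if x = (1, false) then B' else 0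

theorem R2Min_p1 (A A' B B' : ℤ) : R2Min_p A A' B B' (0, true) = A := by simp [R2Min_p]
theorem R2Min_p2 (A A' B B' : ℤ) : R2Min_p A A' B B' (0, false) = A' := by simp [R2Min_p]
theorem R2Min_p3 (A A' B B' : ℤ) : R2Min_p A A' B B' (1, true) = B := by simp [R2Min_p]
theorem R2Min_p4 (A A' B B' : ℤ) : R2Min_p A A' B B' (1, false) = B' := by simp [R2Min_p]

theorem R2Min_key {x1 x2 x3 x4 : Fin 3 × Bool} {k1 k2 k3 k4 : ℤ}
    (hv : WV x1 x2 x3 x4 k1 k2 k3 k4) (h : OMin (wd x1 x2 x3 x4 k1 k2 k3 k4))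
    (p : Fin 3 × Bool → ℤ) {l1 l2 l3 l4 : ℤ} (e1 : k1 + p x1 - p (bar x2) = l1)
    (e2 : k2 + p x2 - p (bar x3) = l2) (e3 : k3 + p x3 - p (bar x4) = l3)
    (e4 : k4 + p x4 - p (bar x1) = l4) (hv' : WV x1 x2 x3 x4 l1 l2 l3 l4) :
    k1.natAbs + k2.natAbs + k3.natAbs + k4.natAbs ≤
      l1.natAbs + l2.natAbs + l3.natAbs + l4.natAbs := by
  have h1 := h (pot 2 p)
  rw [cycLen_eq_sum, cycLen_eq_sum, Fin.sum_univ_three, Fin.sum_univ_three,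
    cnt_pot_ne _ 2 p (i := 0) (by decide), cnt_pot_ne _ 2 p (i := 1) (by decide),
    wd_pot p hv.1 hv.2.1 hv.2.2.1 hv.2.2.2.1, e1, e2, e3, e4, wd_cnt2 hv, wd_cnt2 hv'] at h1
  omega

theorem min_W1 {k1 k2 k3 k4 : ℤ} (h : OMin (W1 k1 k2 k3 k4)) :
    k1.natAbs + k2.natAbs + k3.natAbs + k4.natAbs = (k1 + k2 + k3 + k4).natAbs ∧
      cnt (W1 k1 k2 k3 k4) 2 = (k1 + k2 + k3 + k4).natAbs := by
  have hv : ∀ k1 k2 k3 k4 : ℤ, WV (0, true) (0, true) (1, true) (1, true) k1 k2 k3 k4 := by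
    intro k1 k2 k3 k4; simp [WV, bar]
  have h1 := R2Min_key (hv _ _ _ _) h (R2Min_p (k2 + k3 + k4) 0 k4 (k3 + k4))
    (l1 := k1 + k2 + k3 + k4) (l2 := 0) (l3 := 0) (l4 := 0)
    (by simp only [bar, Bool.not_true, R2Min_p1, R2Min_p2]; ring)
    (by simp only [bar, Bool.not_true, R2Min_p1, R2Min_p4]; ring)
    (by simp only [bar, Bool.not_true, R2Min_p3, R2Min_p4]; ring)
    (by simp only [bar, Bool.not_true, R2Min_p3, R2Min_p2]; ring) (hv _ _ _ _)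
  have h2 : cnt (W1 k1 k2 k3 k4) 2 = k1.natAbs + (-k2).natAbs + k3.natAbs + (-k4).natAbs :=
    wd_cnt2 (hv _ _ _ _)
  rw [h2]
  omega

theorem min_W2 {k1 k2 k3 k4 : ℤ} (h : OMin (W2 k1 k2 k3 k4)) :
    k1.natAbs + k2.natAbs + k3.natAbs + k4.natAbs = (k1 + k2 + k3 + k4).natAbs ∧
      cnt (W2 k1 k2 k3 k4) 2 = (k1 + k2 + k3 + k4).natAbs := by
  have hv : ∀ k1 k2 k3 k4 : ℤ, WV (0, true) (1, true) (0, true) (1, false) k1 k2 k3 k4 := by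
    intro k1 k2 k3 k4; simp [WV, bar]
  have h1 := R2Min_key (hv _ _ _ _) h (R2Min_p (k2 + k3) 0 k2 (-k4))
    (l1 := k1 + k2 + k3 + k4) (l2 := 0) (l3 := 0) (l4 := 0)
    (by simp only [bar, Bool.not_true, R2Min_p1, R2Min_p4]; ring)
    (by simp only [bar, Bool.not_true, R2Min_p3, R2Min_p2]; ring)
    (by simp only [bar, Bool.not_false, R2Min_p1, R2Min_p3]; ring)
    (by simp only [bar, Bool.not_true, R2Min_p4, R2Min_p2]; ring) (hv _ _ _ _)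
  have h2 : cnt (W2 k1 k2 k3 k4) 2 = k1.natAbs + (-k2).natAbs + (-k3).natAbs + k4.natAbs :=
    wd_cnt2 (hv _ _ _ _)
  rw [h2]
  omega

theorem min_W3 {k1 k2 k3 k4 : ℤ} (h : OMin (W3 k1 k2 k3 k4)) :
    k1.natAbs + k2.natAbs + k3.natAbs + k4.natAbs = (k1 + k2 + k3 + k4).natAbs ∧
      cnt (W3 k1 k2 k3 k4) 2 = (k1 + k2 + k3 + k4).natAbs := by
  have hv : ∀ k1 k2 k3 k4 : ℤ, WV (0, true) (1, true) (0, false) (1, false) k1 k2 k3 k4 := by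
    intro k1 k2 k3 k4; simp [WV, bar]
  have h1 := R2Min_key (hv _ _ _ _) h (R2Min_p (k2 + k3) 0 k3 (-k4))
    (l1 := k1 + k2 + k3 + k4) (l2 := 0) (l3 := 0) (l4 := 0)
    (by simp only [bar, Bool.not_true, R2Min_p1, R2Min_p4]; ring)
    (by simp only [bar, Bool.not_false, R2Min_p3, R2Min_p1]; ring)
    (by simp only [bar, Bool.not_false, R2Min_p2, R2Min_p3]; ring)
    (by simp only [bar, Bool.not_true, R2Min_p4, R2Min_p2]; ring) (hv _ _ _ _)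
  have h2 : cnt (W3 k1 k2 k3 k4) 2 = k1.natAbs + k2.natAbs + k3.natAbs + k4.natAbs :=
    wd_cnt2 (hv _ _ _ _)
  rw [h2]
  omega

theorem min_W4 {k1 k2 k3 k4 : ℤ} (h : OMin (W4 k1 k2 k3 k4)) (h3 : k3 ≠ 0) :
    k1.natAbs + k2.natAbs + k4.natAbs = (k1 + k2 + k4).natAbs ∧
      cnt (W4 k1 k2 k3 k4) 2 = (k1 + k2 + k4).natAbs + k3.natAbs := by
  have hv : ∀ k1 k2 k4 : ℤ, WV (0, true) (0, true) (1, true) (1, false) k1 k2 k3 k4 := by
    intro k1 k2 k4; simp [WV, bar, h3]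
  have h1 := R2Min_key (hv _ _ _) h (R2Min_p (k2 + k4) 0 0 k4)
    (l1 := k1 + k2 + k4) (l2 := 0) (l3 := k3) (l4 := 0)
    (by simp only [bar, Bool.not_true, R2Min_p1, R2Min_p2]; ring)
    (by simp only [bar, Bool.not_true, R2Min_p1, R2Min_p4]; ring)
    (by simp only [bar, Bool.not_false, R2Min_p3]; ring)
    (by simp only [bar, Bool.not_true, R2Min_p4, R2Min_p2]; ring) (hv _ _ _)
  have h2 : cnt (W4 k1 k2 k3 k4) 2 = k1.natAbs + (-k2).natAbs + k3.natAbs + (-k4).natAbs :=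
    wd_cnt2 (hv _ _ _)
  rw [h2]
  omega

theorem min_W5 {k1 k2 k3 k4 : ℤ} (h : OMin (W5 k1 k2 k3 k4)) :
    k1.natAbs + k3.natAbs = (k1 + k3).natAbs ∧ k2.natAbs + k4.natAbs = (k2 + k4).natAbs ∧
      cnt (W5 k1 k2 k3 k4) 2 = (k1 + k3).natAbs + (k2 + k4).natAbs := by
  have hv : ∀ k1 k2 k3 k4 : ℤ, WV (0, true) (1, true) (0, true) (1, true) k1 k2 k3 k4 := by
    intro k1 k2 k3 k4; simp [WV, bar]
  have h1 := R2Min_key (hv _ _ _ _) h (R2Min_p k3 0 k4 0)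
    (l1 := k1 + k3) (l2 := k2 + k4) (l3 := 0) (l4 := 0)
    (by simp only [bar, Bool.not_true, R2Min_p1, R2Min_p4]; ring)
    (by simp only [bar, Bool.not_true, R2Min_p3, R2Min_p2]; ring)
    (by simp only [bar, Bool.not_true, R2Min_p1, R2Min_p4]; ring)
    (by simp only [bar, Bool.not_true, R2Min_p3, R2Min_p2]; ring) (hv _ _ _ _)
  have h2 : cnt (W5 k1 k2 k3 k4) 2 = k1.natAbs + k2.natAbs + (-k3).natAbs + (-k4).natAbs :=
    wd_cnt2 (hv _ _ _ _)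
  rw [h2]
  omega

theorem min_W6 {k1 k2 k3 k4 : ℤ} (h : OMin (W6 k1 k2 k3 k4)) (h1 : k1 ≠ 0) (h3 : k3 ≠ 0) :
    k2.natAbs + k4.natAbs = (k2 + k4).natAbs ∧
      cnt (W6 k1 k2 k3 k4) 2 = (k2 + k4).natAbs + k1.natAbs + k3.natAbs := by
  have hv : ∀ k2 k4 : ℤ, WV (0, true) (0, false) (1, true) (1, false) k1 k2 k3 k4 := by
    intro k2 k4; simp [WV, bar, h1, h3]
  have h1' := R2Min_key (hv _ _) h (R2Min_p 0 k4 0 0)
    (l1 := k1) (l2 := k2 + k4) (l3 := k3) (l4 := 0)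
    (by simp only [bar, Bool.not_false, R2Min_p1]; ring)
    (by simp only [bar, Bool.not_true, R2Min_p2, R2Min_p4]; ring)
    (by simp only [bar, Bool.not_false, R2Min_p3]; ring)
    (by simp only [bar, Bool.not_true, R2Min_p4, R2Min_p2]; ring) (hv _ _)
  have h2 : cnt (W6 k1 k2 k3 k4) 2 = k1.natAbs + k2.natAbs + k3.natAbs + k4.natAbs :=
    wd_cnt2 (hv _ _)
  rw [h2]
  omega

end Pool.Agent.Sims
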