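import Pool.Agent.Sims.R2A

/-!
# Module `SlideB` : pair slides, patterns 3, 6

For letters `z, y` of the two generators `a, b` (`A, B` stand for `a⁻¹, b⁻¹`) with `capC e (pr z y) = 2`, `pr z y = {z, y}`.
By `wd_cap` (the word is valid, `WV`; for `W6` this needs `k1, k3 ≠ 0`) each pass `(x_i, x̄_{i+1}, k_i)` contributes `0` if both ends are outside,
`1` if one end is inside, and `2` or (if the exponent is `0`) `0` if both ends are `z, y`.  The four single passes at `z`, `y`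
sum to 4, so `capC = 2` iff exactly one pass joining `z` and `y` has exponent `0` (`simp` with `wd_cap` and case splits on
`k_i = 0`).  This leaves the following cases; in each the class `act (wh z (pr z y)) e` (the automorphism maps `y ↦ y z`
and fixes the other generators; as a letter `y`, so e.g. for `y = B`: `b ↦ z⁻¹ b`) is given after the colon, as the image of
the class under the signed permutation in brackets (all checked by computer):
  W3 k2=0 z=a y=b : W3(k1, k3, 0, k4) [a->a b->b c->c]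
  W3 k1=0 z=a y=B : W3(k4, k2, k3, 0) [a->a b->b c->c]
  W3 k3=0 z=A y=b : W3(k1, 0, k2, k4) [a->a b->b c->c]
  W3 k4=0 z=A y=B : W3(0, k2, k3, k1) [a->a b->b c->c]
  W3 k2=0 z=b y=a : W3(0, k1, k3, k4) [a->a b->b c->c]
  W3 k3=0 z=b y=A : W3(k1, k2, k4, 0) [a->a b->b c->c]
  W3 k1=0 z=B y=a : W3(k2, 0, k3, k4) [a->a b->b c->c]
  W3 k4=0 z=B y=A : W3(k1, k2, 0, k3) [a->a b->b c->c]
  W6 k2=0 z=A y=B : W6(k4, k1, k3, 0) [a->a^-1 b->b c->c]
  W6 k4=0 z=A y=B : W6(k2, 0, k3, k1) [a->a^-1 b->b c->c]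
  W6 k2=0 z=B y=A : W6(k1, k3, k4, 0) [a->a b->b^-1 c->c]
  W6 k4=0 z=B y=A : W6(k1, 0, k2, k3) [a->a b->b^-1 c->c]
The invariants (see `R2Defs`) are preserved (up to order for `W6`).
Proof of each line: `wd_mk`, `act_mk`, compute both sides as products in the free group (`wh_lett_self`,
`wh_lett_ne`, the signed permutation on `lett` by `SPerm.hom_lett`), and give a conjugating element (a prefix of the
word; `isConj_iff`, `group`), or manipulate with `wd_rotate`, `wd_SPerm`.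
Difficulty 2 (case work).
-/

namespace Pool.Agent.Sims

open FreeGroup (of)

theorem SlideB_whof (z : Fin 3 × Bool) (A : Fin 3 × Bool → Bool) (i : Fin 3) (h : i ≠ z.1)
    (b1 b2 : Bool) (h1 : A (i, false) = b1) (h2 : A (i, true) = b2) :
    wh z A (of i) = (if b1 then (lett z)⁻¹ else 1) * of i * (if b2 then lett z else 1) := by
  have h3 := wh_lett_ne z A (x := (i, true)) h
  have h4 : bar (i, true) = (i, false) := rfl
  rw [h4, h1, h2, lett_true] at h3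
  exact h3

theorem SlideB_whself (z : Fin 3 × Bool) (A : Fin 3 × Bool → Bool) (i : Fin 3) (h : i = z.1) :
    wh z A (of i) = of i := by
  have h3 := Rel_wh_self' z A (x := (i, true)) h
  rw [lett_true] at h3
  exact h3

theorem SlideB_autof (σ : SPerm (Fin 3)) (i : Fin 3) :
    σ.aut (of i) = lett (σ.perm i, σ.sign i) := by
  have h1 : σ.aut (of i) = σ.hom (lett (i, true)) := rfl
  rw [h1, SPerm.hom_lett]
  have h2 : σ.letter (i, true) = (σ.perm i, σ.sign i) := by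
    unfold SPerm.letter
    cases h : σ.sign i <;> simp
  rw [h2]

theorem SlideB_c1 (k1 k3 k4 : ℤ) :
    act (wh (0, true) (pr (0, true) (1, true))) (W3 k1 0 k3 k4) =
      act (SPerm.aut (⟨Equiv.refl _, ![true, true, true]⟩ : SPerm (Fin 3))) (W3 k1 k3 0 k4) := by
  have hz : wh ((0, true) : Fin 3 × Bool) (pr (0, true) (1, true)) (of 0) = of 0 := SlideB_whself _ _ 0 rfl
  have hy : wh ((0, true) : Fin 3 × Bool) (pr (0, true) (1, true)) (of 1) = of 1 * of 0 := by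
    rw [SlideB_whof (0, true) _ 1 (by decide) false true rfl rfl]
    simp [lett_true, lett_false]
  have hc : wh ((0, true) : Fin 3 × Bool) (pr (0, true) (1, true)) (of 2) = of 2 := by
    rw [SlideB_whof (0, true) _ 2 (by decide) false false rfl rfl]
    simp
  have s0 : SPerm.aut (⟨Equiv.refl _, ![true, true, true]⟩ : SPerm (Fin 3)) (of 0) = of 0 := by
    rw [SlideB_autof]
    exact lett_true 0
  have s1 : SPerm.aut (⟨Equiv.refl _, ![true, true, true]⟩ : SPerm (Fin 3)) (of 1) = of 1 := by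
    rw [SlideB_autof]
    exact lett_true 1
  have s2 : SPerm.aut (⟨Equiv.refl _, ![true, true, true]⟩ : SPerm (Fin 3)) (of 2) = of 2 := by
    rw [SlideB_autof]
    exact lett_true 2
  simp only [W3, wd_mk, act_mk]
  simp only [lett_true, lett_false, map_mul, map_inv, map_zpow, hz, hy, hc, s0, s1, s2]
  refine ConjClasses.mk_eq_mk_iff_isConj.2 (isConj_iff.2 ⟨1, ?_⟩)
  group

theorem SlideB_c2 (k2 k3 k4 : ℤ) :
    act (wh (0, true) (pr (0, true) (1, false))) (W3 0 k2 k3 k4) =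
      act (SPerm.aut (⟨Equiv.refl _, ![true, true, true]⟩ : SPerm (Fin 3))) (W3 k4 k2 k3 0) := by
  have hz : wh ((0, true) : Fin 3 × Bool) (pr (0, true) (1, false)) (of 0) = of 0 := SlideB_whself _ _ 0 rfl
  have hy : wh ((0, true) : Fin 3 × Bool) (pr (0, true) (1, false)) (of 1) = (of 0)⁻¹ * of 1 := by
    rw [SlideB_whof (0, true) _ 1 (by decide) true false rfl rfl]
    simp [lett_true, lett_false]
  have hc : wh ((0, true) : Fin 3 × Bool) (pr (0, true) (1, false)) (of 2) = of 2 := by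
    rw [SlideB_whof (0, true) _ 2 (by decide) false false rfl rfl]
    simp
  have s0 : SPerm.aut (⟨Equiv.refl _, ![true, true, true]⟩ : SPerm (Fin 3)) (of 0) = of 0 := by
    rw [SlideB_autof]
    exact lett_true 0
  have s1 : SPerm.aut (⟨Equiv.refl _, ![true, true, true]⟩ : SPerm (Fin 3)) (of 1) = of 1 := by
    rw [SlideB_autof]
    exact lett_true 1
  have s2 : SPerm.aut (⟨Equiv.refl _, ![true, true, true]⟩ : SPerm (Fin 3)) (of 2) = of 2 := by
    rw [SlideB_autof]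
    exact lett_true 2
  simp only [W3, wd_mk, act_mk]
  simp only [lett_true, lett_false, map_mul, map_inv, map_zpow, hz, hy, hc, s0, s1, s2]
  refine ConjClasses.mk_eq_mk_iff_isConj.2 (isConj_iff.2 ⟨of 0 * of 2 ^ (k4), ?_⟩)
  group

theorem SlideB_c3 (k1 k2 k4 : ℤ) :
    act (wh (0, false) (pr (0, false) (1, true))) (W3 k1 k2 0 k4) =
      act (SPerm.aut (⟨Equiv.refl _, ![true, true, true]⟩ : SPerm (Fin 3))) (W3 k1 0 k2 k4) := by
  have hz : wh ((0, false) : Fin 3 × Bool) (pr (0, false) (1, true)) (of 0) = of 0 := SlideB_whself _ _ 0 rfl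
  have hy : wh ((0, false) : Fin 3 × Bool) (pr (0, false) (1, true)) (of 1) = of 1 * (of 0)⁻¹ := by
    rw [SlideB_whof (0, false) _ 1 (by decide) false true rfl rfl]
    simp [lett_true, lett_false]
  have hc : wh ((0, false) : Fin 3 × Bool) (pr (0, false) (1, true)) (of 2) = of 2 := by
    rw [SlideB_whof (0, false) _ 2 (by decide) false false rfl rfl]
    simp
  have s0 : SPerm.aut (⟨Equiv.refl _, ![true, true, true]⟩ : SPerm (Fin 3)) (of 0) = of 0 := by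
    rw [SlideB_autof]
    exact lett_true 0
  have s1 : SPerm.aut (⟨Equiv.refl _, ![true, true, true]⟩ : SPerm (Fin 3)) (of 1) = of 1 := by
    rw [SlideB_autof]
    exact lett_true 1
  have s2 : SPerm.aut (⟨Equiv.refl _, ![true, true, true]⟩ : SPerm (Fin 3)) (of 2) = of 2 := by
    rw [SlideB_autof]
    exact lett_true 2
  simp only [W3, wd_mk, act_mk]
  simp only [lett_true, lett_false, map_mul, map_inv, map_zpow, hz, hy, hc, s0, s1, s2]
  refine ConjClasses.mk_eq_mk_iff_isConj.2 (isConj_iff.2 ⟨1, ?_⟩)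
  group

theorem SlideB_c4 (k1 k2 k3 : ℤ) :
    act (wh (0, false) (pr (0, false) (1, false))) (W3 k1 k2 k3 0) =
      act (SPerm.aut (⟨Equiv.refl _, ![true, true, true]⟩ : SPerm (Fin 3))) (W3 0 k2 k3 k1) := by
  have hz : wh ((0, false) : Fin 3 × Bool) (pr (0, false) (1, false)) (of 0) = of 0 := SlideB_whself _ _ 0 rfl
  have hy : wh ((0, false) : Fin 3 × Bool) (pr (0, false) (1, false)) (of 1) = of 0 * of 1 := by
    rw [SlideB_whof (0, false) _ 1 (by decide) true false rfl rfl]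
    simp [lett_true, lett_false]
  have hc : wh ((0, false) : Fin 3 × Bool) (pr (0, false) (1, false)) (of 2) = of 2 := by
    rw [SlideB_whof (0, false) _ 2 (by decide) false false rfl rfl]
    simp
  have s0 : SPerm.aut (⟨Equiv.refl _, ![true, true, true]⟩ : SPerm (Fin 3)) (of 0) = of 0 := by
    rw [SlideB_autof]
    exact lett_true 0
  have s1 : SPerm.aut (⟨Equiv.refl _, ![true, true, true]⟩ : SPerm (Fin 3)) (of 1) = of 1 := by
    rw [SlideB_autof]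
    exact lett_true 1
  have s2 : SPerm.aut (⟨Equiv.refl _, ![true, true, true]⟩ : SPerm (Fin 3)) (of 2) = of 2 := by
    rw [SlideB_autof]
    exact lett_true 2
  simp only [W3, wd_mk, act_mk]
  simp only [lett_true, lett_false, map_mul, map_inv, map_zpow, hz, hy, hc, s0, s1, s2]
  refine ConjClasses.mk_eq_mk_iff_isConj.2 (isConj_iff.2 ⟨of 0 * of 1 * of 2 ^ (k2) * (of 0)⁻¹ * of 2 ^ (k3) * (of 1)⁻¹ * (of 0)⁻¹, ?_⟩)
  group

theorem SlideB_c5 (k1 k3 k4 : ℤ) :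
    act (wh (1, true) (pr (1, true) (0, true))) (W3 k1 0 k3 k4) =
      act (SPerm.aut (⟨Equiv.refl _, ![true, true, true]⟩ : SPerm (Fin 3))) (W3 0 k1 k3 k4) := by
  have hz : wh ((1, true) : Fin 3 × Bool) (pr (1, true) (0, true)) (of 1) = of 1 := SlideB_whself _ _ 1 rfl
  have hy : wh ((1, true) : Fin 3 × Bool) (pr (1, true) (0, true)) (of 0) = of 0 * of 1 := by
    rw [SlideB_whof (1, true) _ 0 (by decide) false true rfl rfl]
    simp [lett_true, lett_false]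
  have hc : wh ((1, true) : Fin 3 × Bool) (pr (1, true) (0, true)) (of 2) = of 2 := by
    rw [SlideB_whof (1, true) _ 2 (by decide) false false rfl rfl]
    simp
  have s0 : SPerm.aut (⟨Equiv.refl _, ![true, true, true]⟩ : SPerm (Fin 3)) (of 0) = of 0 := by
    rw [SlideB_autof]
    exact lett_true 0
  have s1 : SPerm.aut (⟨Equiv.refl _, ![true, true, true]⟩ : SPerm (Fin 3)) (of 1) = of 1 := by
    rw [SlideB_autof]
    exact lett_true 1
  have s2 : SPerm.aut (⟨Equiv.refl _, ![true, true, true]⟩ : SPerm (Fin 3)) (of 2) = of 2 := by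
    rw [SlideB_autof]
    exact lett_true 2
  simp only [W3, wd_mk, act_mk]
  simp only [lett_true, lett_false, map_mul, map_inv, map_zpow, hz, hy, hc, s0, s1, s2]
  refine ConjClasses.mk_eq_mk_iff_isConj.2 (isConj_iff.2 ⟨1, ?_⟩)
  group

theorem SlideB_c6 (k1 k2 k4 : ℤ) :
    act (wh (1, true) (pr (1, true) (0, false))) (W3 k1 k2 0 k4) =
      act (SPerm.aut (⟨Equiv.refl _, ![true, true, true]⟩ : SPerm (Fin 3))) (W3 k1 k2 k4 0) := by
  have hz : wh ((1, true) : Fin 3 × Bool) (pr (1, true) (0, false)) (of 1) = of 1 := SlideB_whself _ _ 1 rfl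
  have hy : wh ((1, true) : Fin 3 × Bool) (pr (1, true) (0, false)) (of 0) = (of 1)⁻¹ * of 0 := by
    rw [SlideB_whof (1, true) _ 0 (by decide) true false rfl rfl]
    simp [lett_true, lett_false]
  have hc : wh ((1, true) : Fin 3 × Bool) (pr (1, true) (0, false)) (of 2) = of 2 := by
    rw [SlideB_whof (1, true) _ 2 (by decide) false false rfl rfl]
    simp
  have s0 : SPerm.aut (⟨Equiv.refl _, ![true, true, true]⟩ : SPerm (Fin 3)) (of 0) = of 0 := by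
    rw [SlideB_autof]
    exact lett_true 0
  have s1 : SPerm.aut (⟨Equiv.refl _, ![true, true, true]⟩ : SPerm (Fin 3)) (of 1) = of 1 := by
    rw [SlideB_autof]
    exact lett_true 1
  have s2 : SPerm.aut (⟨Equiv.refl _, ![true, true, true]⟩ : SPerm (Fin 3)) (of 2) = of 2 := by
    rw [SlideB_autof]
    exact lett_true 2
  simp only [W3, wd_mk, act_mk]
  simp only [lett_true, lett_false, map_mul, map_inv, map_zpow, hz, hy, hc, s0, s1, s2]
  refine ConjClasses.mk_eq_mk_iff_isConj.2 (isConj_iff.2 ⟨of 0 * of 2 ^ (k1) * of 1 * of 2 ^ (k2) * (of 0)⁻¹ * of 2 ^ (k4), ?_⟩)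
  group

theorem SlideB_c7 (k2 k3 k4 : ℤ) :
    act (wh (1, false) (pr (1, false) (0, true))) (W3 0 k2 k3 k4) =
      act (SPerm.aut (⟨Equiv.refl _, ![true, true, true]⟩ : SPerm (Fin 3))) (W3 k2 0 k3 k4) := by
  have hz : wh ((1, false) : Fin 3 × Bool) (pr (1, false) (0, true)) (of 1) = of 1 := SlideB_whself _ _ 1 rfl
  have hy : wh ((1, false) : Fin 3 × Bool) (pr (1, false) (0, true)) (of 0) = of 0 * (of 1)⁻¹ := by
    rw [SlideB_whof (1, false) _ 0 (by decide) false true rfl rfl]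
    simp [lett_true, lett_false]
  have hc : wh ((1, false) : Fin 3 × Bool) (pr (1, false) (0, true)) (of 2) = of 2 := by
    rw [SlideB_whof (1, false) _ 2 (by decide) false false rfl rfl]
    simp
  have s0 : SPerm.aut (⟨Equiv.refl _, ![true, true, true]⟩ : SPerm (Fin 3)) (of 0) = of 0 := by
    rw [SlideB_autof]
    exact lett_true 0
  have s1 : SPerm.aut (⟨Equiv.refl _, ![true, true, true]⟩ : SPerm (Fin 3)) (of 1) = of 1 := by
    rw [SlideB_autof]
    exact lett_true 1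
  have s2 : SPerm.aut (⟨Equiv.refl _, ![true, true, true]⟩ : SPerm (Fin 3)) (of 2) = of 2 := by
    rw [SlideB_autof]
    exact lett_true 2
  simp only [W3, wd_mk, act_mk]
  simp only [lett_true, lett_false, map_mul, map_inv, map_zpow, hz, hy, hc, s0, s1, s2]
  refine ConjClasses.mk_eq_mk_iff_isConj.2 (isConj_iff.2 ⟨1, ?_⟩)
  group

theorem SlideB_c8 (k1 k2 k3 : ℤ) :
    act (wh (1, false) (pr (1, false) (0, false))) (W3 k1 k2 k3 0) =
      act (SPerm.aut (⟨Equiv.refl _, ![true, true, true]⟩ : SPerm (Fin 3))) (W3 k1 k2 0 k3) := by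
  have hz : wh ((1, false) : Fin 3 × Bool) (pr (1, false) (0, false)) (of 1) = of 1 := SlideB_whself _ _ 1 rfl
  have hy : wh ((1, false) : Fin 3 × Bool) (pr (1, false) (0, false)) (of 0) = of 1 * of 0 := by
    rw [SlideB_whof (1, false) _ 0 (by decide) true false rfl rfl]
    simp [lett_true, lett_false]
  have hc : wh ((1, false) : Fin 3 × Bool) (pr (1, false) (0, false)) (of 2) = of 2 := by
    rw [SlideB_whof (1, false) _ 2 (by decide) false false rfl rfl]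
    simp
  have s0 : SPerm.aut (⟨Equiv.refl _, ![true, true, true]⟩ : SPerm (Fin 3)) (of 0) = of 0 := by
    rw [SlideB_autof]
    exact lett_true 0
  have s1 : SPerm.aut (⟨Equiv.refl _, ![true, true, true]⟩ : SPerm (Fin 3)) (of 1) = of 1 := by
    rw [SlideB_autof]
    exact lett_true 1
  have s2 : SPerm.aut (⟨Equiv.refl _, ![true, true, true]⟩ : SPerm (Fin 3)) (of 2) = of 2 := by
    rw [SlideB_autof]
    exact lett_true 2
  simp only [W3, wd_mk, act_mk]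
  simp only [lett_true, lett_false, map_mul, map_inv, map_zpow, hz, hy, hc, s0, s1, s2]
  refine ConjClasses.mk_eq_mk_iff_isConj.2 (isConj_iff.2 ⟨(of 1)⁻¹, ?_⟩)
  group

theorem SlideB_c9 (k1 k3 k4 : ℤ) :
    act (wh (0, false) (pr (0, false) (1, false))) (W6 k1 0 k3 k4) =
      act (SPerm.aut (⟨Equiv.refl _, ![false, true, true]⟩ : SPerm (Fin 3))) (W6 k4 k1 k3 0) := by
  have hz : wh ((0, false) : Fin 3 × Bool) (pr (0, false) (1, false)) (of 0) = of 0 := SlideB_whself _ _ 0 rfl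
  have hy : wh ((0, false) : Fin 3 × Bool) (pr (0, false) (1, false)) (of 1) = of 0 * of 1 := by
    rw [SlideB_whof (0, false) _ 1 (by decide) true false rfl rfl]
    simp [lett_true, lett_false]
  have hc : wh ((0, false) : Fin 3 × Bool) (pr (0, false) (1, false)) (of 2) = of 2 := by
    rw [SlideB_whof (0, false) _ 2 (by decide) false false rfl rfl]
    simp
  have s0 : SPerm.aut (⟨Equiv.refl _, ![false, true, true]⟩ : SPerm (Fin 3)) (of 0) = (of 0)⁻¹ := by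
    rw [SlideB_autof]
    exact lett_false 0
  have s1 : SPerm.aut (⟨Equiv.refl _, ![false, true, true]⟩ : SPerm (Fin 3)) (of 1) = of 1 := by
    rw [SlideB_autof]
    exact lett_true 1
  have s2 : SPerm.aut (⟨Equiv.refl _, ![false, true, true]⟩ : SPerm (Fin 3)) (of 2) = of 2 := by
    rw [SlideB_autof]
    exact lett_true 2
  simp only [W6, wd_mk, act_mk]
  simp only [lett_true, lett_false, map_mul, map_inv, map_zpow, hz, hy, hc, s0, s1, s2]
  refine ConjClasses.mk_eq_mk_iff_isConj.2 (isConj_iff.2 ⟨(of 0)⁻¹ * of 2 ^ (k4), ?_⟩)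
  group

theorem SlideB_c10 (k1 k2 k3 : ℤ) :
    act (wh (0, false) (pr (0, false) (1, false))) (W6 k1 k2 k3 0) =
      act (SPerm.aut (⟨Equiv.refl _, ![false, true, true]⟩ : SPerm (Fin 3))) (W6 k2 0 k3 k1) := by
  have hz : wh ((0, false) : Fin 3 × Bool) (pr (0, false) (1, false)) (of 0) = of 0 := SlideB_whself _ _ 0 rfl
  have hy : wh ((0, false) : Fin 3 × Bool) (pr (0, false) (1, false)) (of 1) = of 0 * of 1 := by
    rw [SlideB_whof (0, false) _ 1 (by decide) true false rfl rfl]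
    simp [lett_true, lett_false]
  have hc : wh ((0, false) : Fin 3 × Bool) (pr (0, false) (1, false)) (of 2) = of 2 := by
    rw [SlideB_whof (0, false) _ 2 (by decide) false false rfl rfl]
    simp
  have s0 : SPerm.aut (⟨Equiv.refl _, ![false, true, true]⟩ : SPerm (Fin 3)) (of 0) = (of 0)⁻¹ := by
    rw [SlideB_autof]
    exact lett_false 0
  have s1 : SPerm.aut (⟨Equiv.refl _, ![false, true, true]⟩ : SPerm (Fin 3)) (of 1) = of 1 := by
    rw [SlideB_autof]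
    exact lett_true 1
  have s2 : SPerm.aut (⟨Equiv.refl _, ![false, true, true]⟩ : SPerm (Fin 3)) (of 2) = of 2 := by
    rw [SlideB_autof]
    exact lett_true 2
  simp only [W6, wd_mk, act_mk]
  simp only [lett_true, lett_false, map_mul, map_inv, map_zpow, hz, hy, hc, s0, s1, s2]
  refine ConjClasses.mk_eq_mk_iff_isConj.2 (isConj_iff.2 ⟨(of 0)⁻¹ * of 2 ^ (k2) * of 0 * of 1 * of 2 ^ (k3) * (of 1)⁻¹ * (of 0)⁻¹, ?_⟩)
  group

theorem SlideB_c11 (k1 k3 k4 : ℤ) :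
    act (wh (1, false) (pr (1, false) (0, false))) (W6 k1 0 k3 k4) =
      act (SPerm.aut (⟨Equiv.refl _, ![true, false, true]⟩ : SPerm (Fin 3))) (W6 k1 k3 k4 0) := by
  have hz : wh ((1, false) : Fin 3 × Bool) (pr (1, false) (0, false)) (of 1) = of 1 := SlideB_whself _ _ 1 rfl
  have hy : wh ((1, false) : Fin 3 × Bool) (pr (1, false) (0, false)) (of 0) = of 1 * of 0 := by
    rw [SlideB_whof (1, false) _ 0 (by decide) true false rfl rfl]
    simp [lett_true, lett_false]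
  have hc : wh ((1, false) : Fin 3 × Bool) (pr (1, false) (0, false)) (of 2) = of 2 := by
    rw [SlideB_whof (1, false) _ 2 (by decide) false false rfl rfl]
    simp
  have s0 : SPerm.aut (⟨Equiv.refl _, ![true, false, true]⟩ : SPerm (Fin 3)) (of 0) = of 0 := by
    rw [SlideB_autof]
    exact lett_true 0
  have s1 : SPerm.aut (⟨Equiv.refl _, ![true, false, true]⟩ : SPerm (Fin 3)) (of 1) = (of 1)⁻¹ := by
    rw [SlideB_autof]
    exact lett_false 1
  have s2 : SPerm.aut (⟨Equiv.refl _, ![true, false, true]⟩ : SPerm (Fin 3)) (of 2) = of 2 := by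
    rw [SlideB_autof]
    exact lett_true 2
  simp only [W6, wd_mk, act_mk]
  simp only [lett_true, lett_false, map_mul, map_inv, map_zpow, hz, hy, hc, s0, s1, s2]
  refine ConjClasses.mk_eq_mk_iff_isConj.2 (isConj_iff.2 ⟨of 0 * of 2 ^ (k1) * (of 0)⁻¹ * of 2 ^ (k3) * (of 1)⁻¹ * of 2 ^ (k4), ?_⟩)
  group

theorem SlideB_c12 (k1 k2 k3 : ℤ) :
    act (wh (1, false) (pr (1, false) (0, false))) (W6 k1 k2 k3 0) =
      act (SPerm.aut (⟨Equiv.refl _, ![true, false, true]⟩ : SPerm (Fin 3))) (W6 k1 0 k2 k3) := by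
  have hz : wh ((1, false) : Fin 3 × Bool) (pr (1, false) (0, false)) (of 1) = of 1 := SlideB_whself _ _ 1 rfl
  have hy : wh ((1, false) : Fin 3 × Bool) (pr (1, false) (0, false)) (of 0) = of 1 * of 0 := by
    rw [SlideB_whof (1, false) _ 0 (by decide) true false rfl rfl]
    simp [lett_true, lett_false]
  have hc : wh ((1, false) : Fin 3 × Bool) (pr (1, false) (0, false)) (of 2) = of 2 := by
    rw [SlideB_whof (1, false) _ 2 (by decide) false false rfl rfl]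
    simp
  have s0 : SPerm.aut (⟨Equiv.refl _, ![true, false, true]⟩ : SPerm (Fin 3)) (of 0) = of 0 := by
    rw [SlideB_autof]
    exact lett_true 0
  have s1 : SPerm.aut (⟨Equiv.refl _, ![true, false, true]⟩ : SPerm (Fin 3)) (of 1) = (of 1)⁻¹ := by
    rw [SlideB_autof]
    exact lett_false 1
  have s2 : SPerm.aut (⟨Equiv.refl _, ![true, false, true]⟩ : SPerm (Fin 3)) (of 2) = of 2 := by
    rw [SlideB_autof]
    exact lett_true 2
  simp only [W6, wd_mk, act_mk]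
  simp only [lett_true, lett_false, map_mul, map_inv, map_zpow, hz, hy, hc, s0, s1, s2]
  refine ConjClasses.mk_eq_mk_iff_isConj.2 (isConj_iff.2 ⟨(of 1)⁻¹, ?_⟩)
  group

theorem SlideB_sw12 (x y z : ℕ) : ({x, y, z} : Multiset ℕ) = {y, x, z} :=
  Multiset.cons_swap x y {z}

theorem SlideB_sw13 (x y z : ℕ) : ({x, y, z} : Multiset ℕ) = {z, y, x} :=
  Multiset.coe_eq_coe.2 (List.reverse_perm [x, y, z]).symm

theorem SlideB_wv3 (k1 k2 k3 k4 : ℤ) : WV (0, true) (1, true) (0, false) (1, false) k1 k2 k3 k4 :=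
  ⟨by decide, by decide, by decide, by decide, fun h => absurd h (by decide),
    fun h => absurd h (by decide), fun h => absurd h (by decide), fun h => absurd h (by decide)⟩

theorem SlideB_wv6 {k1 k3 : ℤ} (h1 : k1 ≠ 0) (h3 : k3 ≠ 0) (k2 k4 : ℤ) :
    WV (0, true) (0, false) (1, true) (1, false) k1 k2 k3 k4 :=
  ⟨by decide, by decide, by decide, by decide, fun _ => h1,
    fun h => absurd h (by decide), fun _ => h3, fun h => absurd h (by decide)⟩

theorem SlideB_m3_atbt {k1 k2 k3 k4 : ℤ}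
    (hc : capC (W3 k1 k2 k3 k4) (pr (0, true) (1, true)) = 2) :
    ∃ σ : SPerm (Fin 3), Fix2 σ ∧ ∃ l1 l2 l3 l4 : ℤ, l1 + l2 + l3 + l4 = k1 + k2 + k3 + k4 ∧
      act (wh (0, true) (pr (0, true) (1, true))) (W3 k1 k2 k3 k4) = act σ.aut (W3 l1 l2 l3 l4) := by
  have hk : k2 = 0 := by
    by_contra hk
    rw [W3, wd_cap (SlideB_wv3 k1 k2 k3 k4) rfl rfl] at hc
    simp [pr, bar, hk] at hc
  subst hk
  exact ⟨⟨Equiv.refl _, ![true, true, true]⟩, rfl, k1, k3, 0, k4, by ring, SlideB_c1 k1 k3 k4⟩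

theorem SlideB_m3_atbf {k1 k2 k3 k4 : ℤ}
    (hc : capC (W3 k1 k2 k3 k4) (pr (0, true) (1, false)) = 2) :
    ∃ σ : SPerm (Fin 3), Fix2 σ ∧ ∃ l1 l2 l3 l4 : ℤ, l1 + l2 + l3 + l4 = k1 + k2 + k3 + k4 ∧
      act (wh (0, true) (pr (0, true) (1, false))) (W3 k1 k2 k3 k4) = act σ.aut (W3 l1 l2 l3 l4) := by
  have hk : k1 = 0 := by
    by_contra hk
    rw [W3, wd_cap (SlideB_wv3 k1 k2 k3 k4) rfl rfl] at hc
    simp [pr, bar, hk] at hc
  subst hk
  exact ⟨⟨Equiv.refl _, ![true, true, true]⟩, rfl, k4, k2, k3, 0, by ring, SlideB_c2 k2 k3 k4⟩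

theorem SlideB_m3_afbt {k1 k2 k3 k4 : ℤ}
    (hc : capC (W3 k1 k2 k3 k4) (pr (0, false) (1, true)) = 2) :
    ∃ σ : SPerm (Fin 3), Fix2 σ ∧ ∃ l1 l2 l3 l4 : ℤ, l1 + l2 + l3 + l4 = k1 + k2 + k3 + k4 ∧
      act (wh (0, false) (pr (0, false) (1, true))) (W3 k1 k2 k3 k4) = act σ.aut (W3 l1 l2 l3 l4) := by
  have hk : k3 = 0 := by
    by_contra hk
    rw [W3, wd_cap (SlideB_wv3 k1 k2 k3 k4) rfl rfl] at hc
    simp [pr, bar, hk] at hc
  subst hk
  exact ⟨⟨Equiv.refl _, ![true, true, true]⟩, rfl, k1, 0, k2, k4, by ring, SlideB_c3 k1 k2 k4⟩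

theorem SlideB_m3_afbf {k1 k2 k3 k4 : ℤ}
    (hc : capC (W3 k1 k2 k3 k4) (pr (0, false) (1, false)) = 2) :
    ∃ σ : SPerm (Fin 3), Fix2 σ ∧ ∃ l1 l2 l3 l4 : ℤ, l1 + l2 + l3 + l4 = k1 + k2 + k3 + k4 ∧
      act (wh (0, false) (pr (0, false) (1, false))) (W3 k1 k2 k3 k4) = act σ.aut (W3 l1 l2 l3 l4) := by
  have hk : k4 = 0 := by
    by_contra hk
    rw [W3, wd_cap (SlideB_wv3 k1 k2 k3 k4) rfl rfl] at hc
    simp [pr, bar, hk] at hc
  subst hk
  exact ⟨⟨Equiv.refl _, ![true, true, true]⟩, rfl, 0, k2, k3, k1, by ring, SlideB_c4 k1 k2 k3⟩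

theorem SlideB_m3_btat {k1 k2 k3 k4 : ℤ}
    (hc : capC (W3 k1 k2 k3 k4) (pr (1, true) (0, true)) = 2) :
    ∃ σ : SPerm (Fin 3), Fix2 σ ∧ ∃ l1 l2 l3 l4 : ℤ, l1 + l2 + l3 + l4 = k1 + k2 + k3 + k4 ∧
      act (wh (1, true) (pr (1, true) (0, true))) (W3 k1 k2 k3 k4) = act σ.aut (W3 l1 l2 l3 l4) := by
  have hk : k2 = 0 := by
    by_contra hk
    rw [W3, wd_cap (SlideB_wv3 k1 k2 k3 k4) rfl rfl] at hc
    simp [pr, bar, hk] at hc
  subst hk
  exact ⟨⟨Equiv.refl _, ![true, true, true]⟩, rfl, 0, k1, k3, k4, by ring, SlideB_c5 k1 k3 k4⟩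

theorem SlideB_m3_btaf {k1 k2 k3 k4 : ℤ}
    (hc : capC (W3 k1 k2 k3 k4) (pr (1, true) (0, false)) = 2) :
    ∃ σ : SPerm (Fin 3), Fix2 σ ∧ ∃ l1 l2 l3 l4 : ℤ, l1 + l2 + l3 + l4 = k1 + k2 + k3 + k4 ∧
      act (wh (1, true) (pr (1, true) (0, false))) (W3 k1 k2 k3 k4) = act σ.aut (W3 l1 l2 l3 l4) := by
  have hk : k3 = 0 := by
    by_contra hk
    rw [W3, wd_cap (SlideB_wv3 k1 k2 k3 k4) rfl rfl] at hc
    simp [pr, bar, hk] at hc
  subst hk
  exact ⟨⟨Equiv.refl _, ![true, true, true]⟩, rfl, k1, k2, k4, 0, by ring, SlideB_c6 k1 k2 k4⟩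

theorem SlideB_m3_bfat {k1 k2 k3 k4 : ℤ}
    (hc : capC (W3 k1 k2 k3 k4) (pr (1, false) (0, true)) = 2) :
    ∃ σ : SPerm (Fin 3), Fix2 σ ∧ ∃ l1 l2 l3 l4 : ℤ, l1 + l2 + l3 + l4 = k1 + k2 + k3 + k4 ∧
      act (wh (1, false) (pr (1, false) (0, true))) (W3 k1 k2 k3 k4) = act σ.aut (W3 l1 l2 l3 l4) := by
  have hk : k1 = 0 := by
    by_contra hk
    rw [W3, wd_cap (SlideB_wv3 k1 k2 k3 k4) rfl rfl] at hc
    simp [pr, bar, hk] at hc
  subst hk
  exact ⟨⟨Equiv.refl _, ![true, true, true]⟩, rfl, k2, 0, k3, k4, by ring, SlideB_c7 k2 k3 k4⟩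

theorem SlideB_m3_bfaf {k1 k2 k3 k4 : ℤ}
    (hc : capC (W3 k1 k2 k3 k4) (pr (1, false) (0, false)) = 2) :
    ∃ σ : SPerm (Fin 3), Fix2 σ ∧ ∃ l1 l2 l3 l4 : ℤ, l1 + l2 + l3 + l4 = k1 + k2 + k3 + k4 ∧
      act (wh (1, false) (pr (1, false) (0, false))) (W3 k1 k2 k3 k4) = act σ.aut (W3 l1 l2 l3 l4) := by
  have hk : k4 = 0 := by
    by_contra hk
    rw [W3, wd_cap (SlideB_wv3 k1 k2 k3 k4) rfl rfl] at hc
    simp [pr, bar, hk] at hc
  subst hk
  exact ⟨⟨Equiv.refl _, ![true, true, true]⟩, rfl, k1, k2, 0, k3, by ring, SlideB_c8 k1 k2 k3⟩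

theorem SlideB_m6_atbt {k1 k2 k3 k4 : ℤ} (h1 : k1 ≠ 0) (h3 : k3 ≠ 0)
    (hc : capC (W6 k1 k2 k3 k4) (pr (0, true) (1, true)) = 2) :
    ∃ σ : SPerm (Fin 3), Fix2 σ ∧ ∃ l1 l2 l3 l4 : ℤ,
      ({(l2 + l4).natAbs, l1.natAbs, l3.natAbs} : Multiset ℕ) =
        {(k2 + k4).natAbs, k1.natAbs, k3.natAbs} ∧
      act (wh (0, true) (pr (0, true) (1, true))) (W6 k1 k2 k3 k4) = act σ.aut (W6 l1 l2 l3 l4) := by
  exfalso
  rw [W6, wd_cap (SlideB_wv6 h1 h3 k2 k4) rfl rfl] at hc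
  simp [pr, bar, h1, h3] at hc

theorem SlideB_m6_atbf {k1 k2 k3 k4 : ℤ} (h1 : k1 ≠ 0) (h3 : k3 ≠ 0)
    (hc : capC (W6 k1 k2 k3 k4) (pr (0, true) (1, false)) = 2) :
    ∃ σ : SPerm (Fin 3), Fix2 σ ∧ ∃ l1 l2 l3 l4 : ℤ,
      ({(l2 + l4).natAbs, l1.natAbs, l3.natAbs} : Multiset ℕ) =
        {(k2 + k4).natAbs, k1.natAbs, k3.natAbs} ∧
      act (wh (0, true) (pr (0, true) (1, false))) (W6 k1 k2 k3 k4) = act σ.aut (W6 l1 l2 l3 l4) := by
  exfalso
  rw [W6, wd_cap (SlideB_wv6 h1 h3 k2 k4) rfl rfl] at hc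
  simp [pr, bar, h1, h3] at hc

theorem SlideB_m6_afbt {k1 k2 k3 k4 : ℤ} (h1 : k1 ≠ 0) (h3 : k3 ≠ 0)
    (hc : capC (W6 k1 k2 k3 k4) (pr (0, false) (1, true)) = 2) :
    ∃ σ : SPerm (Fin 3), Fix2 σ ∧ ∃ l1 l2 l3 l4 : ℤ,
      ({(l2 + l4).natAbs, l1.natAbs, l3.natAbs} : Multiset ℕ) =
        {(k2 + k4).natAbs, k1.natAbs, k3.natAbs} ∧
      act (wh (0, false) (pr (0, false) (1, true))) (W6 k1 k2 k3 k4) = act σ.aut (W6 l1 l2 l3 l4) := by
  exfalso
  rw [W6, wd_cap (SlideB_wv6 h1 h3 k2 k4) rfl rfl] at hc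
  simp [pr, bar, h1, h3] at hc

theorem SlideB_m6_afbf {k1 k2 k3 k4 : ℤ} (h1 : k1 ≠ 0) (h3 : k3 ≠ 0)
    (hc : capC (W6 k1 k2 k3 k4) (pr (0, false) (1, false)) = 2) :
    ∃ σ : SPerm (Fin 3), Fix2 σ ∧ ∃ l1 l2 l3 l4 : ℤ,
      ({(l2 + l4).natAbs, l1.natAbs, l3.natAbs} : Multiset ℕ) =
        {(k2 + k4).natAbs, k1.natAbs, k3.natAbs} ∧
      act (wh (0, false) (pr (0, false) (1, false))) (W6 k1 k2 k3 k4) = act σ.aut (W6 l1 l2 l3 l4) := by
  have hk : k2 = 0 ∨ k4 = 0 := by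
    by_contra hk
    rw [not_or] at hk
    rw [W6, wd_cap (SlideB_wv6 h1 h3 k2 k4) rfl rfl] at hc
    simp [pr, bar, hk.1, hk.2, h1, h3] at hc
  rcases hk with rfl | rfl
  · exact ⟨⟨Equiv.refl _, ![false, true, true]⟩, rfl, k4, k1, k3, 0, by
      simp only [zero_add, add_zero]
      exact SlideB_sw12 _ _ _, SlideB_c9 k1 k3 k4⟩
  · exact ⟨⟨Equiv.refl _, ![false, true, true]⟩, rfl, k2, 0, k3, k1, by
      simp only [zero_add, add_zero]
      exact SlideB_sw12 _ _ _, SlideB_c10 k1 k2 k3⟩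

theorem SlideB_m6_btat {k1 k2 k3 k4 : ℤ} (h1 : k1 ≠ 0) (h3 : k3 ≠ 0)
    (hc : capC (W6 k1 k2 k3 k4) (pr (1, true) (0, true)) = 2) :
    ∃ σ : SPerm (Fin 3), Fix2 σ ∧ ∃ l1 l2 l3 l4 : ℤ,
      ({(l2 + l4).natAbs, l1.natAbs, l3.natAbs} : Multiset ℕ) =
        {(k2 + k4).natAbs, k1.natAbs, k3.natAbs} ∧
      act (wh (1, true) (pr (1, true) (0, true))) (W6 k1 k2 k3 k4) = act σ.aut (W6 l1 l2 l3 l4) := by
  exfalso
  rw [W6, wd_cap (SlideB_wv6 h1 h3 k2 k4) rfl rfl] at hc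
  simp [pr, bar, h1, h3] at hc

theorem SlideB_m6_btaf {k1 k2 k3 k4 : ℤ} (h1 : k1 ≠ 0) (h3 : k3 ≠ 0)
    (hc : capC (W6 k1 k2 k3 k4) (pr (1, true) (0, false)) = 2) :
    ∃ σ : SPerm (Fin 3), Fix2 σ ∧ ∃ l1 l2 l3 l4 : ℤ,
      ({(l2 + l4).natAbs, l1.natAbs, l3.natAbs} : Multiset ℕ) =
        {(k2 + k4).natAbs, k1.natAbs, k3.natAbs} ∧
      act (wh (1, true) (pr (1, true) (0, false))) (W6 k1 k2 k3 k4) = act σ.aut (W6 l1 l2 l3 l4) := by
  exfalso
  rw [W6, wd_cap (SlideB_wv6 h1 h3 k2 k4) rfl rfl] at hc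
  simp [pr, bar, h1, h3] at hc

theorem SlideB_m6_bfat {k1 k2 k3 k4 : ℤ} (h1 : k1 ≠ 0) (h3 : k3 ≠ 0)
    (hc : capC (W6 k1 k2 k3 k4) (pr (1, false) (0, true)) = 2) :
    ∃ σ : SPerm (Fin 3), Fix2 σ ∧ ∃ l1 l2 l3 l4 : ℤ,
      ({(l2 + l4).natAbs, l1.natAbs, l3.natAbs} : Multiset ℕ) =
        {(k2 + k4).natAbs, k1.natAbs, k3.natAbs} ∧
      act (wh (1, false) (pr (1, false) (0, true))) (W6 k1 k2 k3 k4) = act σ.aut (W6 l1 l2 l3 l4) := by
  exfalso
  rw [W6, wd_cap (SlideB_wv6 h1 h3 k2 k4) rfl rfl] at hc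
  simp [pr, bar, h1, h3] at hc

theorem SlideB_m6_bfaf {k1 k2 k3 k4 : ℤ} (h1 : k1 ≠ 0) (h3 : k3 ≠ 0)
    (hc : capC (W6 k1 k2 k3 k4) (pr (1, false) (0, false)) = 2) :
    ∃ σ : SPerm (Fin 3), Fix2 σ ∧ ∃ l1 l2 l3 l4 : ℤ,
      ({(l2 + l4).natAbs, l1.natAbs, l3.natAbs} : Multiset ℕ) =
        {(k2 + k4).natAbs, k1.natAbs, k3.natAbs} ∧
      act (wh (1, false) (pr (1, false) (0, false))) (W6 k1 k2 k3 k4) = act σ.aut (W6 l1 l2 l3 l4) := by
  have hk : k2 = 0 ∨ k4 = 0 := by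
    by_contra hk
    rw [not_or] at hk
    rw [W6, wd_cap (SlideB_wv6 h1 h3 k2 k4) rfl rfl] at hc
    simp [pr, bar, hk.1, hk.2, h1, h3] at hc
  rcases hk with rfl | rfl
  · exact ⟨⟨Equiv.refl _, ![true, false, true]⟩, rfl, k1, k3, k4, 0, by
      simp only [zero_add, add_zero]
      exact SlideB_sw13 _ _ _, SlideB_c11 k1 k3 k4⟩
  · exact ⟨⟨Equiv.refl _, ![true, false, true]⟩, rfl, k1, 0, k2, k3, by
      simp only [zero_add, add_zero]
      exact SlideB_sw13 _ _ _, SlideB_c12 k1 k2 k3⟩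

theorem slide_W3 {k1 k2 k3 k4 : ℤ} {z y : Fin 3 × Bool} (hz : z.1 ≠ 2) (hy : y.1 ≠ 2)
    (hzy : y.1 ≠ z.1) (hc : capC (W3 k1 k2 k3 k4) (pr z y) = 2) :
    ∃ σ : SPerm (Fin 3), Fix2 σ ∧ ∃ l1 l2 l3 l4 : ℤ, l1 + l2 + l3 + l4 = k1 + k2 + k3 + k4 ∧
      act (wh z (pr z y)) (W3 k1 k2 k3 k4) = act σ.aut (W3 l1 l2 l3 l4) := by
  obtain ⟨zi, zb⟩ := z
  obtain ⟨yi, yb⟩ := y
  have hz1 : zi = 0 ∨ zi = 1 := by
    have h : zi ≠ 2 := hz
    omega
  have hy1 : yi = 0 ∨ yi = 1 := by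
    have h : yi ≠ 2 := hy
    omega
  rcases hz1 with rfl | rfl <;> rcases hy1 with rfl | rfl
  · exact (hzy rfl).elim
  · cases zb <;> cases yb
    · exact SlideB_m3_afbf hc
    · exact SlideB_m3_afbt hc
    · exact SlideB_m3_atbf hc
    · exact SlideB_m3_atbt hc
  · cases zb <;> cases yb
    · exact SlideB_m3_bfaf hc
    · exact SlideB_m3_bfat hc
    · exact SlideB_m3_btaf hc
    · exact SlideB_m3_btat hc
  · exact (hzy rfl).elim

theorem slide_W6 {k1 k2 k3 k4 : ℤ} (h1 : k1 ≠ 0) (h3 : k3 ≠ 0) {z y : Fin 3 × Bool}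
    (hz : z.1 ≠ 2) (hy : y.1 ≠ 2) (hzy : y.1 ≠ z.1)
    (hc : capC (W6 k1 k2 k3 k4) (pr z y) = 2) :
    ∃ σ : SPerm (Fin 3), Fix2 σ ∧ ∃ l1 l2 l3 l4 : ℤ,
      ({(l2 + l4).natAbs, l1.natAbs, l3.natAbs} : Multiset ℕ) =
        {(k2 + k4).natAbs, k1.natAbs, k3.natAbs} ∧
      act (wh z (pr z y)) (W6 k1 k2 k3 k4) = act σ.aut (W6 l1 l2 l3 l4) := by
  obtain ⟨zi, zb⟩ := z
  obtain ⟨yi, yb⟩ := y
  have hz1 : zi = 0 ∨ zi = 1 := by
    have h : zi ≠ 2 := hz
    omega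
  have hy1 : yi = 0 ∨ yi = 1 := by
    have h : yi ≠ 2 := hy
    omega
  rcases hz1 with rfl | rfl <;> rcases hy1 with rfl | rfl
  · exact (hzy rfl).elim
  · cases zb <;> cases yb
    · exact SlideB_m6_afbf h1 h3 hc
    · exact SlideB_m6_afbt h1 h3 hc
    · exact SlideB_m6_atbf h1 h3 hc
    · exact SlideB_m6_atbt h1 h3 hc
  · cases zb <;> cases yb
    · exact SlideB_m6_bfaf h1 h3 hc
    · exact SlideB_m6_bfat h1 h3 hc
    · exact SlideB_m6_btaf h1 h3 hc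
    · exact SlideB_m6_btat h1 h3 hc
  · exact (hzy rfl).elim

end Pool.Agent.Sims
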