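import Pool.Agent.Sims.R2A

/-!
# Module `SlideC` : pair slides, patterns 4, 5

For letters `z, y` of the two generators `a, b` (`A, B` stand for `a⁻¹, b⁻¹`) with `capC e (pr z y) = 2`, `pr z y = {z, y}`.
By `wd_cap` (the word is valid, `WV`; for `W4` this needs `k3 ≠ 0`) each pass `(x_i, x̄_{i+1}, k_i)` contributes `0` if both ends are outside,
`1` if one end is inside, and `2` or (if the exponent is `0`) `0` if both ends are `z, y`.  The four single passes at `z`, `y`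
sum to 4, so `capC = 2` iff exactly one pass joining `z` and `y` has exponent `0` (`simp` with `wd_cap` and case splits on
`k_i = 0`).  This leaves the following cases; in each the class `act (wh z (pr z y)) e` (the automorphism maps `y ↦ y z`
and fixes the other generators; as a letter `y`, so e.g. for `y = B`: `b ↦ z⁻¹ b`) is given after the colon, as the image of
the class under the signed permutation in brackets (all checked by computer):
  W4 k2=0 z=a y=B : W4(-k4, -k1, k3, 0) [a->a b->b c->c]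
  W4 k4=0 z=A y=B : W4(-k2, 0, k3, -k1) [a->a b->b c->c]
  W4 k2=0 z=B y=a : W5(k1, k3, k4, 0) [a->b^-1 b->a c->c]
  W4 k4=0 z=B y=A : W5(k1, 0, k2, -k3) [a->a b->b c->c]
  W5 k1=0 z=a y=B : W4(-k4, -k2, -k3, 0) [a->b b->a c->c]
  W5 k3=0 z=a y=B : W4(k2, k4, k1, 0) [a->b b->a c->c]
  W5 k2=0 z=A y=b : W4(k3, 0, k4, k1) [a->b b->a^-1 c->c^-1]
  W5 k4=0 z=A y=b : W4(k1, 0, k2, k3) [a->b b->a^-1 c->c]
  W5 k2=0 z=b y=A : W4(k1, k3, -k4, 0) [a->a b->b c->c]
  W5 k4=0 z=b y=A : W4(-k3, -k1, k2, 0) [a->a b->b c->c]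
  W5 k1=0 z=B y=a : W4(k2, 0, -k3, k4) [a->a b->b^-1 c->c]
  W5 k3=0 z=B y=a : W4(-k4, 0, k1, -k2) [a->a b->b^-1 c->c]
The invariants (see `R2Defs`) are preserved up to sign and order.
Proof of each line: `wd_mk`, `act_mk`, compute both sides as products in the free group (`wh_lett_self`,
`wh_lett_ne`, the signed permutation on `lett` by `SPerm.hom_lett`), and give a conjugating element (a prefix of the
word; `isConj_iff`, `group`), or manipulate with `wd_rotate`, `wd_SPerm`.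
Difficulty 2 (case work).
-/

namespace Pool.Agent.Sims

open FreeGroup (of)

set_option linter.unusedSimpArgs false
set_option linter.unusedVariables false

theorem SlideC_apply (z : Fin 3 × Bool) (A : Fin 3 × Bool → Bool) (i : Fin 3) :
    wh z A (of i) = if i = z.1 then of i else
      (of z.1) ^ (-(whp z A (i, false))) * of i * (of z.1) ^ (whp z A (i, true)) := by
  change potFun z.1 (whp z A) (of i) = _
  by_cases h : i = z.1
  · rw [if_pos h, h, potFun_of_self]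
  · rw [if_neg h, potFun_of_ne _ h]

theorem SlideC_perm (σ : SPerm (Fin 3)) (i : Fin 3) :
    σ.aut (of i) = lett (σ.letter (i, true)) := by
  change σ.hom (of i) = _
  rw [← lett_true, SPerm.hom_lett]

theorem SlideC_conj {φ ψ : FreeGroup (Fin 3) ≃* FreeGroup (Fin 3)}
    {x1 x2 x3 x4 y1 y2 y3 y4 : Fin 3 × Bool} {k1 k2 k3 k4 m1 m2 m3 m4 : ℤ}
    (u : FreeGroup (Fin 3))
    (h : u * φ (lett x1 * of 2 ^ k1 * lett x2 * of 2 ^ k2 * lett x3 * of 2 ^ k3 * lett x4 *
      of 2 ^ k4) * u⁻¹ = ψ (lett y1 * of 2 ^ m1 * lett y2 * of 2 ^ m2 * lett y3 * of 2 ^ m3 *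
      lett y4 * of 2 ^ m4)) :
    act φ (wd x1 x2 x3 x4 k1 k2 k3 k4) = act ψ (wd y1 y2 y3 y4 m1 m2 m3 m4) := by
  rw [wd_mk, wd_mk, act_mk, act_mk, ConjClasses.mk_eq_mk_iff_isConj, isConj_iff]
  exact ⟨u, h⟩

/-- the permutations -/
def SlideC_s0 : SPerm (Fin 3) := ⟨Equiv.refl _, fun _ => true⟩
def SlideC_s1 : SPerm (Fin 3) := ⟨Equiv.swap 0 1, fun i => decide (i ≠ 0)⟩
def SlideC_s2 : SPerm (Fin 3) := ⟨Equiv.swap 0 1, fun _ => true⟩
def SlideC_s3 : SPerm (Fin 3) := ⟨Equiv.swap 0 1, fun i => decide (i = 0)⟩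
def SlideC_s4 : SPerm (Fin 3) := ⟨Equiv.swap 0 1, fun i => decide (i ≠ 1)⟩
def SlideC_s5 : SPerm (Fin 3) := ⟨Equiv.refl _, fun i => decide (i ≠ 1)⟩

theorem SlideC_f0 : Fix2 SlideC_s0 := rfl
theorem SlideC_f1 : Fix2 SlideC_s1 := by unfold Fix2 SlideC_s1; decide
theorem SlideC_f2 : Fix2 SlideC_s2 := by unfold Fix2 SlideC_s2; decide
theorem SlideC_f3 : Fix2 SlideC_s3 := by unfold Fix2 SlideC_s3; decide
theorem SlideC_f4 : Fix2 SlideC_s4 := by unfold Fix2 SlideC_s4; decide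
theorem SlideC_f5 : Fix2 SlideC_s5 := rfl

theorem SlideC_l00 : SlideC_s0.letter (0, true) = (0, true) := by decide
theorem SlideC_l01 : SlideC_s0.letter (1, true) = (1, true) := by decide
theorem SlideC_l02 : SlideC_s0.letter (2, true) = (2, true) := by decide
theorem SlideC_l10 : SlideC_s1.letter (0, true) = (1, false) := by decide
theorem SlideC_l11 : SlideC_s1.letter (1, true) = (0, true) := by decide
theorem SlideC_l12 : SlideC_s1.letter (2, true) = (2, true) := by decide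
theorem SlideC_l20 : SlideC_s2.letter (0, true) = (1, true) := by decide
theorem SlideC_l21 : SlideC_s2.letter (1, true) = (0, true) := by decide
theorem SlideC_l22 : SlideC_s2.letter (2, true) = (2, true) := by decide
theorem SlideC_l30 : SlideC_s3.letter (0, true) = (1, true) := by decide
theorem SlideC_l31 : SlideC_s3.letter (1, true) = (0, false) := by decide
theorem SlideC_l32 : SlideC_s3.letter (2, true) = (2, false) := by decide
theorem SlideC_l40 : SlideC_s4.letter (0, true) = (1, true) := by decide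
theorem SlideC_l41 : SlideC_s4.letter (1, true) = (0, false) := by decide
theorem SlideC_l42 : SlideC_s4.letter (2, true) = (2, true) := by decide
theorem SlideC_l50 : SlideC_s5.letter (0, true) = (0, true) := by decide
theorem SlideC_l51 : SlideC_s5.letter (1, true) = (1, false) := by decide
theorem SlideC_l52 : SlideC_s5.letter (2, true) = (2, true) := by decide

theorem SlideC_WV4 {k1 k2 k3 k4 : ℤ} (h3 : k3 ≠ 0) :
    WV (0, true) (0, true) (1, true) (1, false) k1 (-k2) k3 (-k4) := by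
  simp [WV, bar, h3]

theorem SlideC_WV5 {k1 k2 k3 k4 : ℤ} :
    WV (0, true) (1, true) (0, true) (1, true) k1 k2 (-k3) (-k4) := by
  simp [WV, bar]


theorem SlideC_img {s t : Bool} :
    (wh ((0 : Fin 3), s) (pr (0, s) (1, t)) (of 0) = of 0) ∧
    (wh ((0 : Fin 3), s) (pr (0, s) (1, t)) (of 1) =
      (of 0) ^ (-(if t = false then (if s = true then 1 else -1 : ℤ) else 0)) * of 1 *
      (of 0) ^ (if t = true then (if s = true then 1 else -1 : ℤ) else 0)) ∧
    (wh ((0 : Fin 3), s) (pr (0, s) (1, t)) (of 2) = of 2) ∧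
    (wh ((1 : Fin 3), s) (pr (1, s) (0, t)) (of 1) = of 1) ∧
    (wh ((1 : Fin 3), s) (pr (1, s) (0, t)) (of 0) =
      (of 1) ^ (-(if t = false then (if s = true then 1 else -1 : ℤ) else 0)) * of 0 *
      (of 1) ^ (if t = true then (if s = true then 1 else -1 : ℤ) else 0)) ∧
    (wh ((1 : Fin 3), s) (pr (1, s) (0, t)) (of 2) = of 2) := by
  refine ⟨?_, ?_, ?_, ?_, ?_, ?_⟩ <;> rw [SlideC_apply] <;>
    cases s <;> cases t <;> simp [whp, pr, sgn]

theorem SlideC_c1 (k1 k3 k4 : ℤ) :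
    act (wh (0, true) (pr (0, true) (1, false))) (W4 k1 0 k3 k4) =
      act SlideC_s0.aut (W4 (-k4) (-k1) k3 0) := by
  obtain ⟨h1, h2, h3, h4, h5, h6⟩ := SlideC_img (s := true) (t := false)
  refine SlideC_conj (of 0 * of 2 ^ (-k4)) ?_
  simp only [lett_true, lett_false, map_mul, map_zpow, map_inv, h1, h2, h3, h4, h5, h6, SlideC_perm,
    SlideC_l00, SlideC_l01, SlideC_l02]
  simp only [reduceCtorEq, if_true, if_false, Bool.false_eq_true, Bool.true_eq_false]
  group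

theorem SlideC_c2 (k1 k2 k3 : ℤ) :
    act (wh (0, false) (pr (0, false) (1, false))) (W4 k1 k2 k3 0) =
      act SlideC_s0.aut (W4 (-k2) 0 k3 (-k1)) := by
  obtain ⟨h1, h2, h3, h4, h5, h6⟩ := SlideC_img (s := false) (t := false)
  refine SlideC_conj (of 2 ^ (-k1) * (of 0)⁻¹) ?_
  simp only [lett_true, lett_false, map_mul, map_zpow, map_inv, h1, h2, h3, h4, h5, h6, SlideC_perm,
    SlideC_l00, SlideC_l01, SlideC_l02]
  simp only [reduceCtorEq, if_true, if_false, Bool.false_eq_true, Bool.true_eq_false]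
  group

theorem SlideC_c3 (k1 k3 k4 : ℤ) :
    act (wh (1, false) (pr (1, false) (0, true))) (W4 k1 0 k3 k4) =
      act SlideC_s1.aut (W5 k1 k3 k4 0) := by
  obtain ⟨h1, h2, h3, h4, h5, h6⟩ := SlideC_img (s := false) (t := true)
  refine SlideC_conj ((of 0)⁻¹) ?_
  simp only [lett_true, lett_false, map_mul, map_zpow, map_inv, h1, h2, h3, h4, h5, h6, SlideC_perm,
    SlideC_l10, SlideC_l11, SlideC_l12]
  simp only [reduceCtorEq, if_true, if_false, Bool.false_eq_true, Bool.true_eq_false]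
  group

theorem SlideC_c4 (k1 k2 k3 : ℤ) :
    act (wh (1, false) (pr (1, false) (0, false))) (W4 k1 k2 k3 0) =
      act SlideC_s0.aut (W5 k1 0 k2 (-k3)) := by
  obtain ⟨h1, h2, h3, h4, h5, h6⟩ := SlideC_img (s := false) (t := false)
  refine SlideC_conj ((of 1)⁻¹) ?_
  simp only [lett_true, lett_false, map_mul, map_zpow, map_inv, h1, h2, h3, h4, h5, h6, SlideC_perm,
    SlideC_l00, SlideC_l01, SlideC_l02]
  simp only [reduceCtorEq, if_true, if_false, Bool.false_eq_true, Bool.true_eq_false]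
  group

theorem SlideC_c5 (k2 k3 k4 : ℤ) :
    act (wh (0, true) (pr (0, true) (1, false))) (W5 0 k2 k3 k4) =
      act SlideC_s2.aut (W4 (-k4) (-k2) (-k3) 0) := by
  obtain ⟨h1, h2, h3, h4, h5, h6⟩ := SlideC_img (s := true) (t := false)
  refine SlideC_conj (of 1 * of 2 ^ (-k4)) ?_
  simp only [lett_true, lett_false, map_mul, map_zpow, map_inv, h1, h2, h3, h4, h5, h6, SlideC_perm,
    SlideC_l20, SlideC_l21, SlideC_l22]
  simp only [reduceCtorEq, if_true, if_false, Bool.false_eq_true, Bool.true_eq_false]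
  group

theorem SlideC_c6 (k1 k2 k4 : ℤ) :
    act (wh (0, true) (pr (0, true) (1, false))) (W5 k1 k2 0 k4) =
      act SlideC_s2.aut (W4 k2 k4 k1 0) := by
  obtain ⟨h1, h2, h3, h4, h5, h6⟩ := SlideC_img (s := true) (t := false)
  refine SlideC_conj (of 1 * of 2 ^ k2 * of 1 * of 2 ^ (-k4)) ?_
  simp only [lett_true, lett_false, map_mul, map_zpow, map_inv, h1, h2, h3, h4, h5, h6, SlideC_perm,
    SlideC_l20, SlideC_l21, SlideC_l22]
  simp only [reduceCtorEq, if_true, if_false, Bool.false_eq_true, Bool.true_eq_false]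
  group

theorem SlideC_c7 (k1 k3 k4 : ℤ) :
    act (wh (0, false) (pr (0, false) (1, true))) (W5 k1 0 k3 k4) =
      act SlideC_s3.aut (W4 k3 0 k4 k1) := by
  obtain ⟨h1, h2, h3, h4, h5, h6⟩ := SlideC_img (s := false) (t := true)
  refine SlideC_conj (of 2 ^ (-k1) * (of 0)⁻¹) ?_
  simp only [lett_true, lett_false, map_mul, map_zpow, map_inv, h1, h2, h3, h4, h5, h6, SlideC_perm,
    SlideC_l30, SlideC_l31, SlideC_l32]
  simp only [reduceCtorEq, if_true, if_false, Bool.false_eq_true, Bool.true_eq_false]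
  group

theorem SlideC_c8 (k1 k2 k3 : ℤ) :
    act (wh (0, false) (pr (0, false) (1, true))) (W5 k1 k2 k3 0) =
      act SlideC_s4.aut (W4 k1 0 k2 k3) := by
  obtain ⟨h1, h2, h3, h4, h5, h6⟩ := SlideC_img (s := false) (t := true)
  refine SlideC_conj (of 1 * (of 0)⁻¹) ?_
  simp only [lett_true, lett_false, map_mul, map_zpow, map_inv, h1, h2, h3, h4, h5, h6, SlideC_perm,
    SlideC_l40, SlideC_l41, SlideC_l42]
  simp only [reduceCtorEq, if_true, if_false, Bool.false_eq_true, Bool.true_eq_false]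
  group

theorem SlideC_c9 (k1 k3 k4 : ℤ) :
    act (wh (1, true) (pr (1, true) (0, false))) (W5 k1 0 k3 k4) =
      act SlideC_s0.aut (W4 k1 k3 (-k4) 0) := by
  obtain ⟨h1, h2, h3, h4, h5, h6⟩ := SlideC_img (s := true) (t := false)
  refine SlideC_conj (of 1) ?_
  simp only [lett_true, lett_false, map_mul, map_zpow, map_inv, h1, h2, h3, h4, h5, h6, SlideC_perm,
    SlideC_l00, SlideC_l01, SlideC_l02]
  simp only [reduceCtorEq, if_true, if_false, Bool.false_eq_true, Bool.true_eq_false]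
  group

theorem SlideC_c10 (k1 k2 k3 : ℤ) :
    act (wh (1, true) (pr (1, true) (0, false))) (W5 k1 k2 k3 0) =
      act SlideC_s0.aut (W4 (-k3) (-k1) k2 0) := by
  obtain ⟨h1, h2, h3, h4, h5, h6⟩ := SlideC_img (s := true) (t := false)
  refine SlideC_conj (of 0 * of 2 ^ (-k3) * of 1) ?_
  simp only [lett_true, lett_false, map_mul, map_zpow, map_inv, h1, h2, h3, h4, h5, h6, SlideC_perm,
    SlideC_l00, SlideC_l01, SlideC_l02]
  simp only [reduceCtorEq, if_true, if_false, Bool.false_eq_true, Bool.true_eq_false]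
  group

theorem SlideC_c11 (k2 k3 k4 : ℤ) :
    act (wh (1, false) (pr (1, false) (0, true))) (W5 0 k2 k3 k4) =
      act SlideC_s5.aut (W4 k2 0 (-k3) k4) := by
  obtain ⟨h1, h2, h3, h4, h5, h6⟩ := SlideC_img (s := false) (t := true)
  refine SlideC_conj (1) ?_
  simp only [lett_true, lett_false, map_mul, map_zpow, map_inv, h1, h2, h3, h4, h5, h6, SlideC_perm,
    SlideC_l50, SlideC_l51, SlideC_l52]
  simp only [reduceCtorEq, if_true, if_false, Bool.false_eq_true, Bool.true_eq_false]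
  group

theorem SlideC_c12 (k1 k2 k4 : ℤ) :
    act (wh (1, false) (pr (1, false) (0, true))) (W5 k1 k2 0 k4) =
      act SlideC_s5.aut (W4 (-k4) 0 k1 (-k2)) := by
  obtain ⟨h1, h2, h3, h4, h5, h6⟩ := SlideC_img (s := false) (t := true)
  refine SlideC_conj (of 0 * of 2 ^ (-k4)) ?_
  simp only [lett_true, lett_false, map_mul, map_zpow, map_inv, h1, h2, h3, h4, h5, h6, SlideC_perm,
    SlideC_l50, SlideC_l51, SlideC_l52]
  simp only [reduceCtorEq, if_true, if_false, Bool.false_eq_true, Bool.true_eq_false]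
  group


theorem slide_W4 {k1 k2 k3 k4 : ℤ} (h3 : k3 ≠ 0) {z y : Fin 3 × Bool}
    (hz : z.1 ≠ 2) (hy : y.1 ≠ 2) (hzy : y.1 ≠ z.1)
    (hc : capC (W4 k1 k2 k3 k4) (pr z y) = 2) :
    ∃ σ : SPerm (Fin 3), Fix2 σ ∧ ∃ e ∈ Z2 (k1 + k2 + k4).natAbs k3.natAbs,
      act (wh z (pr z y)) (W4 k1 k2 k3 k4) = act σ.aut e := by
  have hp1 : pr z y (2, true) = false := by
    simp only [pr, Bool.or_eq_false_iff, decide_eq_false_iff_not]
    exact ⟨fun h => hz (by rw [← h]), fun h => hy (by rw [← h])⟩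
  have hp2 : pr z y (2, false) = false := by
    simp only [pr, Bool.or_eq_false_iff, decide_eq_false_iff_not]
    exact ⟨fun h => hz (by rw [← h]), fun h => hy (by rw [← h])⟩
  rw [W4, wd_cap (SlideC_WV4 h3) hp1 hp2] at hc
  obtain ⟨i, s⟩ := z
  obtain ⟨j, t⟩ := y
  simp only at hz hy hzy
  fin_cases i <;> fin_cases j <;> simp at hz hy hzy <;> cases s <;> cases t <;>
    simp [pr, bar, h3] at hc <;> subst hc
  · exact ⟨_, SlideC_f0, _, ⟨-k2, 0, k3, -k1, Or.inl ⟨rfl, by omega⟩⟩, SlideC_c2 k1 k2 k3⟩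
  · exact ⟨_, SlideC_f0, _, ⟨-k4, -k1, k3, 0, Or.inl ⟨rfl, by omega⟩⟩, SlideC_c1 k1 k3 k4⟩
  · exact ⟨_, SlideC_f0, _, ⟨k1, 0, k2, -k3, Or.inr ⟨rfl, by omega⟩⟩, SlideC_c4 k1 k2 k3⟩
  · exact ⟨_, SlideC_f1, _, ⟨k1, k3, k4, 0, Or.inr ⟨rfl, by omega⟩⟩, SlideC_c3 k1 k3 k4⟩

theorem slide_W5 {k1 k2 k3 k4 : ℤ} {z y : Fin 3 × Bool}
    (hz : z.1 ≠ 2) (hy : y.1 ≠ 2) (hzy : y.1 ≠ z.1)
    (hc : capC (W5 k1 k2 k3 k4) (pr z y) = 2) :
    ∃ σ : SPerm (Fin 3), Fix2 σ ∧ ∃ e ∈ Z2 (k1 + k3).natAbs (k2 + k4).natAbs,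
      act (wh z (pr z y)) (W5 k1 k2 k3 k4) = act σ.aut e := by
  have hp1 : pr z y (2, true) = false := by
    simp only [pr, Bool.or_eq_false_iff, decide_eq_false_iff_not]
    exact ⟨fun h => hz (by rw [← h]), fun h => hy (by rw [← h])⟩
  have hp2 : pr z y (2, false) = false := by
    simp only [pr, Bool.or_eq_false_iff, decide_eq_false_iff_not]
    exact ⟨fun h => hz (by rw [← h]), fun h => hy (by rw [← h])⟩
  rw [W5, wd_cap SlideC_WV5 hp1 hp2] at hc
  obtain ⟨i, s⟩ := z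
  obtain ⟨j, t⟩ := y
  simp only at hz hy hzy
  by_cases e1 : k1 = 0 <;> by_cases e2 : k2 = 0 <;> by_cases e3 : k3 = 0 <;> by_cases e4 : k4 = 0 <;>
  fin_cases i <;> fin_cases j <;> simp at hz hy hzy <;> cases s <;> cases t <;>
    simp [pr, bar, e1, e2, e3, e4] at hc
  all_goals first
    | (subst e2; exact ⟨_, SlideC_f3, _, ⟨k3, 0, k4, k1, Or.inl ⟨rfl, by omega⟩⟩,
        SlideC_c7 k1 k3 k4⟩)
    | (subst e4; exact ⟨_, SlideC_f4, _, ⟨k1, 0, k2, k3, Or.inl ⟨rfl, by omega⟩⟩,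
        SlideC_c8 k1 k2 k3⟩)
    | (subst e2; exact ⟨_, SlideC_f0, _, ⟨k1, k3, -k4, 0, Or.inl ⟨rfl, by omega⟩⟩,
        SlideC_c9 k1 k3 k4⟩)
    | (subst e4; exact ⟨_, SlideC_f0, _, ⟨-k3, -k1, k2, 0, Or.inl ⟨rfl, by omega⟩⟩,
        SlideC_c10 k1 k2 k3⟩)
    | (subst e1; exact ⟨_, SlideC_f2, _, ⟨-k4, -k2, -k3, 0, Or.inl ⟨rfl, by omega⟩⟩,
        SlideC_c5 k2 k3 k4⟩)
    | (subst e3; exact ⟨_, SlideC_f2, _, ⟨k2, k4, k1, 0, Or.inl ⟨rfl, by omega⟩⟩,
        SlideC_c6 k1 k2 k4⟩)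
    | (subst e1; exact ⟨_, SlideC_f5, _, ⟨k2, 0, -k3, k4, Or.inl ⟨rfl, by omega⟩⟩,
        SlideC_c11 k2 k3 k4⟩)
    | (subst e3; exact ⟨_, SlideC_f5, _, ⟨-k4, 0, k1, -k2, Or.inl ⟨rfl, by omega⟩⟩,
        SlideC_c12 k1 k2 k4⟩)

end Pool.Agent.Sims
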