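import Pool.Agent.Sims.SlideA
import Pool.Agent.Sims.SlideB
import Pool.Agent.Sims.SlideC

/-!
# Module `R2Z` : the sets `Z1, Z2, Z3` are closed under `pot 2 p` and pair slides

* `Z_cnt_le`: `wd` has two letters of the generator `0` and two of the generator `1` (`cnt_le`).
* `Z_pot`: `wd_pot`; the changes of the exponents are listed in the header of `R2Min`; the invariants do not
  change (`W1`: `(p(a)-p(ā)) - (p(a)-p(b̄)) + (p(b)-p(b̄)) - (p(b)-p(ā)) = 0`, etc.).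
* `Z_slide`: `slide_W1` ... `slide_W6`.  If `e = W4 …` and `cnt e 1 = 2` then `k3 ≠ 0` (otherwise `b b⁻¹` cancels, and
  `cnt e 1 = 0`); if `e = W6 …` and `cnt e 0 = cnt e 1 = 2` then `k1, k3 ≠ 0`.
Difficulty 2.
-/

namespace Pool.Agent.Sims

open FreeGroup (of)

theorem R2Z_cnt_zpw {i : Fin 3} (hi : i ≠ 2) (k : ℤ) : cntL (zpw 2 k) i = 0 := by
  unfold cntL zpw
  rw [List.countP_replicate, if_neg]
  simp only [decide_eq_true_eq]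
  exact fun h => hi h.symm

theorem R2Z_cnt_append (u v : List (Fin 3 × Bool)) (i : Fin 3) :
    cntL (u ++ v) i = cntL u i + cntL v i := by
  unfold cntL
  rw [List.countP_append]

theorem R2Z_cnt (x1 x2 x3 x4 : Fin 3 × Bool) (k1 k2 k3 k4 : ℤ) {i : Fin 3} (hi : i ≠ 2) :
    cnt (wd x1 x2 x3 x4 k1 k2 k3 k4) i ≤ cntL [x1, x2, x3, x4] i := by
  unfold wd
  refine (cnt_le _ _).trans ?_
  rw [cntL_expand_ne _ _ hi]
  exact le_rfl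

theorem Z_cnt_le {e : CC} (he : (∃ κ, e ∈ Z1 κ) ∨ (∃ p q, e ∈ Z2 p q) ∨ (∃ p q r, e ∈ Z3 p q r)) :
    cnt e 0 ≤ 2 ∧ cnt e 1 ≤ 2 := by
  have h0 : (0 : Fin 3) ≠ 2 := by decide
  have h1 : (1 : Fin 3) ≠ 2 := by decide
  rcases he with ⟨κ, k1, k2, k3, k4, -, rfl | rfl | rfl⟩ | ⟨p, q, k1, k2, k3, k4, ⟨rfl, -⟩ | ⟨rfl, -⟩⟩ |
    ⟨p, q, r, k1, k2, k3, k4, rfl, -⟩
  · exact ⟨(R2Z_cnt _ _ _ _ _ _ _ _ h0).trans (by decide),
      (R2Z_cnt _ _ _ _ _ _ _ _ h1).trans (by decide)⟩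
  · exact ⟨(R2Z_cnt _ _ _ _ _ _ _ _ h0).trans (by decide),
      (R2Z_cnt _ _ _ _ _ _ _ _ h1).trans (by decide)⟩
  · exact ⟨(R2Z_cnt _ _ _ _ _ _ _ _ h0).trans (by decide),
      (R2Z_cnt _ _ _ _ _ _ _ _ h1).trans (by decide)⟩
  · exact ⟨(R2Z_cnt _ _ _ _ _ _ _ _ h0).trans (by decide),
      (R2Z_cnt _ _ _ _ _ _ _ _ h1).trans (by decide)⟩
  · exact ⟨(R2Z_cnt _ _ _ _ _ _ _ _ h0).trans (by decide),
      (R2Z_cnt _ _ _ _ _ _ _ _ h1).trans (by decide)⟩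
  · exact ⟨(R2Z_cnt _ _ _ _ _ _ _ _ h0).trans (by decide),
      (R2Z_cnt _ _ _ _ _ _ _ _ h1).trans (by decide)⟩

theorem W4_ne {k1 k2 k3 k4 : ℤ} (h : cnt (W4 k1 k2 k3 k4) 1 = 2) : k3 ≠ 0 := by
  rintro rfl
  have h1 : W4 k1 k2 0 k4 =
      cls ([(0, true)] ++ zpw 2 k1 ++ [(0, true)] ++ zpw 2 (-k2) ++ zpw 2 (-k4)) := by
    unfold W4
    rw [wd_mk, cls]
    congr 1
    rw [← FreeGroup.mul_mk, ← FreeGroup.mul_mk, ← FreeGroup.mul_mk, ← FreeGroup.mul_mk, mk_zpw,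
      mk_zpw, mk_zpw, lett_true, lett_true, lett_false]
    change _ = of 0 * of 2 ^ k1 * of 0 * of 2 ^ (-k2) * of 2 ^ (-k4)
    group
  have h2 := cnt_le ([(0, true)] ++ zpw 2 k1 ++ [(0, true)] ++ zpw 2 (-k2) ++ zpw 2 (-k4)) 1
  rw [← h1, h] at h2
  simp only [R2Z_cnt_append, R2Z_cnt_zpw (show (1 : Fin 3) ≠ 2 by decide)] at h2
  have h3 : cntL [((0 : Fin 3), true)] 1 = 0 := by decide
  omega

theorem W6_ne {k1 k2 k3 k4 : ℤ} (h0 : cnt (W6 k1 k2 k3 k4) 0 = 2)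
    (h1 : cnt (W6 k1 k2 k3 k4) 1 = 2) : k1 ≠ 0 ∧ k3 ≠ 0 := by
  constructor
  · rintro rfl
    have h1 : W6 0 k2 k3 k4 =
        cls (zpw 2 k2 ++ [(1, true)] ++ zpw 2 k3 ++ [(1, false)] ++ zpw 2 k4) := by
      unfold W6
      rw [wd_mk, cls]
      congr 1
      rw [← FreeGroup.mul_mk, ← FreeGroup.mul_mk, ← FreeGroup.mul_mk, ← FreeGroup.mul_mk, mk_zpw,
        mk_zpw, mk_zpw, lett_true, lett_true, lett_false, lett_false]
      change _ = of 2 ^ k2 * of 1 * of 2 ^ k3 * lett (1, false) * of 2 ^ k4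
      rw [lett_false]
      group
    have h2 := cnt_le (zpw 2 k2 ++ [(1, true)] ++ zpw 2 k3 ++ [(1, false)] ++ zpw 2 k4) 0
    rw [← h1, h0] at h2
    simp only [R2Z_cnt_append, R2Z_cnt_zpw (show (0 : Fin 3) ≠ 2 by decide)] at h2
    have h3 : cntL [((1 : Fin 3), true)] 0 = 0 := by decide
    have h4 : cntL [((1 : Fin 3), false)] 0 = 0 := by decide
    omega
  · rintro rfl
    have h1' : W6 k1 k2 0 k4 =
        cls ([(0, true)] ++ zpw 2 k1 ++ [(0, false)] ++ zpw 2 k2 ++ zpw 2 k4) := by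
      unfold W6
      rw [wd_mk, cls]
      congr 1
      rw [← FreeGroup.mul_mk, ← FreeGroup.mul_mk, ← FreeGroup.mul_mk, ← FreeGroup.mul_mk, mk_zpw,
        mk_zpw, mk_zpw, lett_true, lett_true, lett_false, lett_false]
      change _ = of 0 * of 2 ^ k1 * lett (0, false) * of 2 ^ k2 * of 2 ^ k4
      rw [lett_false]
      group
    have h2 := cnt_le ([(0, true)] ++ zpw 2 k1 ++ [(0, false)] ++ zpw 2 k2 ++ zpw 2 k4) 1
    rw [← h1', h1] at h2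
    simp only [R2Z_cnt_append, R2Z_cnt_zpw (show (1 : Fin 3) ≠ 2 by decide)] at h2
    have h3 : cntL [((0 : Fin 3), true)] 1 = 0 := by decide
    have h4 : cntL [((0 : Fin 3), false)] 1 = 0 := by decide
    omega

theorem R2Z_pot1 (p : Fin 3 × Bool → ℤ) (k1 k2 k3 k4 : ℤ) : act (pot 2 p) (W1 k1 k2 k3 k4) =
    W1 (k1 + p (0, true) - p (0, false)) (k2 - p (0, true) + p (1, false))
      (k3 + p (1, true) - p (1, false)) (k4 - p (1, true) + p (0, false)) := by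
  unfold W1
  rw [wd_pot p (by decide) (by decide) (by decide) (by decide)]
  simp only [bar, Bool.not_true]
  congr 1 <;> ring

theorem R2Z_pot2 (p : Fin 3 × Bool → ℤ) (k1 k2 k3 k4 : ℤ) : act (pot 2 p) (W2 k1 k2 k3 k4) =
    W2 (k1 + p (0, true) - p (1, false)) (k2 - p (1, true) + p (0, false))
      (k3 - p (0, true) + p (1, true)) (k4 + p (1, false) - p (0, false)) := by
  unfold W2
  rw [wd_pot p (by decide) (by decide) (by decide) (by decide)]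
  simp only [bar, Bool.not_true, Bool.not_false]
  congr 1 <;> ring

theorem R2Z_pot3 (p : Fin 3 × Bool → ℤ) (k1 k2 k3 k4 : ℤ) : act (pot 2 p) (W3 k1 k2 k3 k4) =
    W3 (k1 + p (0, true) - p (1, false)) (k2 + p (1, true) - p (0, true))
      (k3 + p (0, false) - p (1, true)) (k4 + p (1, false) - p (0, false)) := by
  unfold W3
  rw [wd_pot p (by decide) (by decide) (by decide) (by decide)]
  simp only [bar, Bool.not_true, Bool.not_false]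

theorem R2Z_pot4 (p : Fin 3 × Bool → ℤ) (k1 k2 k3 k4 : ℤ) : act (pot 2 p) (W4 k1 k2 k3 k4) =
    W4 (k1 + p (0, true) - p (0, false)) (k2 - p (0, true) + p (1, false))
      k3 (k4 - p (1, false) + p (0, false)) := by
  unfold W4
  rw [wd_pot p (by decide) (by decide) (by decide) (by decide)]
  simp only [bar, Bool.not_true, Bool.not_false]
  congr 1 <;> ring

theorem R2Z_pot5 (p : Fin 3 × Bool → ℤ) (k1 k2 k3 k4 : ℤ) : act (pot 2 p) (W5 k1 k2 k3 k4) =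
    W5 (k1 + p (0, true) - p (1, false)) (k2 + p (1, true) - p (0, false))
      (k3 - p (0, true) + p (1, false)) (k4 - p (1, true) + p (0, false)) := by
  unfold W5
  rw [wd_pot p (by decide) (by decide) (by decide) (by decide)]
  simp only [bar, Bool.not_true]
  congr 1 <;> ring

theorem R2Z_pot6 (p : Fin 3 × Bool → ℤ) (k1 k2 k3 k4 : ℤ) : act (pot 2 p) (W6 k1 k2 k3 k4) =
    W6 k1 (k2 + p (0, false) - p (1, false)) k3 (k4 + p (1, false) - p (0, false)) := by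
  unfold W6
  rw [wd_pot p (by decide) (by decide) (by decide) (by decide)]
  simp only [bar, Bool.not_true, Bool.not_false]
  congr 1 <;> ring

theorem Z1_pot {κ : ℤ} {e : CC} (he : e ∈ Z1 κ) (p : Fin 3 × Bool → ℤ) :
    act (pot 2 p) e ∈ Z1 κ := by
  obtain ⟨k1, k2, k3, k4, hs, rfl | rfl | rfl⟩ := he
  · exact ⟨_, _, _, _, by rw [← hs]; ring, Or.inl (R2Z_pot1 p k1 k2 k3 k4)⟩
  · exact ⟨_, _, _, _, by rw [← hs]; ring, Or.inr (Or.inl (R2Z_pot2 p k1 k2 k3 k4))⟩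
  · exact ⟨_, _, _, _, by rw [← hs]; ring, Or.inr (Or.inr (R2Z_pot3 p k1 k2 k3 k4))⟩

theorem Z2_pot {p q : ℕ} {e : CC} (he : e ∈ Z2 p q) (r : Fin 3 × Bool → ℤ) :
    act (pot 2 r) e ∈ Z2 p q := by
  obtain ⟨k1, k2, k3, k4, ⟨rfl, h⟩ | ⟨rfl, h⟩⟩ := he
  · refine ⟨_, _, _, _, Or.inl ⟨R2Z_pot4 r k1 k2 k3 k4, ?_⟩⟩
    have e1 : k1 + r (0, true) - r (0, false) + (k2 - r (0, true) + r (1, false)) +
        (k4 - r (1, false) + r (0, false)) = k1 + k2 + k4 := by ring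
    rw [e1]
    exact h
  · refine ⟨_, _, _, _, Or.inr ⟨R2Z_pot5 r k1 k2 k3 k4, ?_⟩⟩
    have e1 : k1 + r (0, true) - r (1, false) + (k3 - r (0, true) + r (1, false)) = k1 + k3 := by
      ring
    have e2 : k2 + r (1, true) - r (0, false) + (k4 - r (1, true) + r (0, false)) = k2 + k4 := by
      ring
    rw [e1, e2]
    exact h

theorem Z3_pot {p q r : ℕ} {e : CC} (he : e ∈ Z3 p q r) (s : Fin 3 × Bool → ℤ) :
    act (pot 2 s) e ∈ Z3 p q r := by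
  obtain ⟨k1, k2, k3, k4, rfl, h⟩ := he
  refine ⟨_, _, _, _, R2Z_pot6 s k1 k2 k3 k4, ?_⟩
  have e1 : k2 + s (0, false) - s (1, false) + (k4 + s (1, false) - s (0, false)) = k2 + k4 := by
    ring
  rw [e1]
  exact h

theorem Z1_slide {κ : ℤ} {e : CC} (he : e ∈ Z1 κ) {z y : Fin 3 × Bool} (hz : z.1 ≠ 2)
    (hy : y.1 ≠ 2) (hzy : y.1 ≠ z.1) (hc : capC e (pr z y) = 2) :
    ∃ σ : SPerm (Fin 3), Fix2 σ ∧ ∃ e' ∈ Z1 κ, act (wh z (pr z y)) e = act σ.aut e' := by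
  obtain ⟨k1, k2, k3, k4, hs, rfl | rfl | rfl⟩ := he
  · obtain ⟨σ, hσ, l1, l2, l3, l4, hl, h | h⟩ := slide_W1 hz hy hzy hc
    · exact ⟨σ, hσ, _, ⟨l1, l2, l3, l4, hl.trans hs, Or.inl rfl⟩, h⟩
    · exact ⟨σ, hσ, _, ⟨l1, l2, l3, l4, hl.trans hs, Or.inr (Or.inl rfl)⟩, h⟩
  · obtain ⟨σ, hσ, l1, l2, l3, l4, hl, h | h⟩ := slide_W2 hz hy hzy hc
    · exact ⟨σ, hσ, _, ⟨l1, l2, l3, l4, hl.trans hs, Or.inl rfl⟩, h⟩
    · exact ⟨σ, hσ, _, ⟨l1, l2, l3, l4, hl.trans hs, Or.inr (Or.inl rfl)⟩, h⟩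
  · obtain ⟨σ, hσ, l1, l2, l3, l4, hl, h⟩ := slide_W3 hz hy hzy hc
    exact ⟨σ, hσ, _, ⟨l1, l2, l3, l4, hl.trans hs, Or.inr (Or.inr rfl)⟩, h⟩

theorem R2Z_symm {p q : ℕ} {e : CC} (he : e ∈ Z2 p q) : e ∈ Z2 q p := by
  obtain ⟨k1, k2, k3, k4, ⟨rfl, h⟩ | ⟨rfl, h⟩⟩ := he
  · exact ⟨k1, k2, k3, k4, Or.inl ⟨rfl, h.symm⟩⟩
  · exact ⟨k1, k2, k3, k4, Or.inr ⟨rfl, h.symm⟩⟩

theorem Z2_slide {p q : ℕ} {e : CC} (he : e ∈ Z2 p q) (h1 : cnt e 1 = 2) {z y : Fin 3 × Bool}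
    (hz : z.1 ≠ 2) (hy : y.1 ≠ 2) (hzy : y.1 ≠ z.1) (hc : capC e (pr z y) = 2) :
    ∃ σ : SPerm (Fin 3), Fix2 σ ∧ ∃ e' ∈ Z2 p q, act (wh z (pr z y)) e = act σ.aut e' := by
  obtain ⟨k1, k2, k3, k4, ⟨rfl, h⟩ | ⟨rfl, h⟩⟩ := he
  · obtain ⟨σ, hσ, e', he', h'⟩ := slide_W4 (W4_ne h1) hz hy hzy hc
    rcases h with ⟨rfl, rfl⟩ | ⟨rfl, rfl⟩
    · exact ⟨σ, hσ, e', he', h'⟩
    · exact ⟨σ, hσ, e', R2Z_symm he', h'⟩
  · obtain ⟨σ, hσ, e', he', h'⟩ := slide_W5 hz hy hzy hc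
    rcases h with ⟨rfl, rfl⟩ | ⟨rfl, rfl⟩
    · exact ⟨σ, hσ, e', he', h'⟩
    · exact ⟨σ, hσ, e', R2Z_symm he', h'⟩

theorem Z3_slide {p q r : ℕ} {e : CC} (he : e ∈ Z3 p q r) (h0 : cnt e 0 = 2)
    (h1 : cnt e 1 = 2) {z y : Fin 3 × Bool}
    (hz : z.1 ≠ 2) (hy : y.1 ≠ 2) (hzy : y.1 ≠ z.1) (hc : capC e (pr z y) = 2) :
    ∃ σ : SPerm (Fin 3), Fix2 σ ∧ ∃ e' ∈ Z3 p q r, act (wh z (pr z y)) e = act σ.aut e' := by
  obtain ⟨k1, k2, k3, k4, rfl, h⟩ := he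
  obtain ⟨n1, n3⟩ := W6_ne h0 h1
  obtain ⟨σ, hσ, l1, l2, l3, l4, hl, h'⟩ := slide_W6 n1 n3 hz hy hzy hc
  exact ⟨σ, hσ, _, ⟨l1, l2, l3, l4, rfl, hl.trans h⟩, h'⟩

end Pool.Agent.Sims
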