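import Pool.Agent.Sims.RtDef2

/-!
# Module `RtB0` : the substitution `x_i ↦ x_i^{e i}`

`pwh e` the homomorphism, `pw e` its action on classes, `pwL e w` the word with every letter `x` replaced by `e x.1` copies.
* `pw_cls`: `pwh e (lett x) = (lett x)^{e x.1}`; for `e ≥ 1` the word `pwL e w` is cyclically reduced if `w` is (two consecutive letters of `pwL e w` are equal or are consecutive letters `x, y` of `w`).
* `pw_cnt`: `cntL (pwL e w) i = e i * cntL w i`.
* `pw_cap`: the cyclic pairs of `pwL e w` are the cyclic pairs of `w` and, for every letter `x` of `w`, `e x.1 - 1` pairs `(x, x)`; such a pair is cut by `A` iff `A x ≠ A (bar x)`.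
* `pw_edg`: the same for `edgS`: the pair `(x, x)` counts iff `(A x && B (bar x)) || (B x && A (bar x))`, which depends only on `x.1` up to symmetry.
* `pw_one`, `pw_pw`: on generators.
* `pw_pot`: if `p (i, true) = p (i, false)` for all `i ≠ j` with `e i ≠ 1`: both sides are induced by homomorphisms which agree on the generators: `x_i ↦ (c^{-p} x_i c^{p'})` with `c = x_j`; for `e i = 1`: `c^{-e_j p(i,false)} x_i c^{e_j p(i,true)}`;
  for `p(i,true) = p(i,false) = r`: `(c^{-e_j r} x_i c^{e_j r})^{e_i} = c^{-e_j r} x_i^{e_i} c^{e_j r}`.  (`pwh e (pot j p g) = pot j (e_j p) (pwh e g)` for all `g`: two homomorphisms `FreeGroup → FreeGroup`.)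
* `pw_wh`: special case `e z.1 = 1` (`wh z A = pot z.1 (whp z A)`).
* `pw_SPerm`: `e (σ.perm i) = e i`: on generators.
Difficulty 3.
-/

namespace Pool.Agent.Sims

open FreeGroup (of)

/-- `x_i ↦ x_i^{e i}` -/
def pwh (e : Fin 3 → ℕ) : FreeGroup (Fin 3) →* FreeGroup (Fin 3) := FreeGroup.lift (fun i => of i ^ e i)

/-- action on classes -/
def pw (e : Fin 3 → ℕ) (V : CC) : CC := ConjClasses.map (pwh e) V

/-- action on words -/
def pwL (e : Fin 3 → ℕ) (w : List (Fin 3 × Bool)) : List (Fin 3 × Bool) :=
  w.flatMap (fun x => List.replicate (e x.1) x)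

theorem RtB0_cons (e : Fin 3 → ℕ) (x : Fin 3 × Bool) (l : List (Fin 3 × Bool)) :
    pwL e (x :: l) = List.replicate (e x.1) x ++ pwL e l := by
  simp [pwL]

/-- cyclic sums over the word `pwL e w` -/
theorem RtB0_lin (f : Fin 3 × Bool → Fin 3 × Bool → ℕ) {e : Fin 3 → ℕ} (he : ∀ i, 1 ≤ e i)
    (l : List (Fin 3 × Bool)) : ∀ (k : ℕ) (x z : Fin 3 × Bool),
    lin f x (List.replicate k x ++ pwL e l) z =
      lin f x l z + k * f x x + (l.map (fun y => (e y.1 - 1) * f y y)).sum := by
  induction l with
  | nil =>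
    intro k x z
    have h1 : pwL e [] = [] := rfl
    rw [h1, List.append_nil, SylB_lin_replicate]
    simp only [lin, List.map_nil, List.sum_nil]
    omega
  | cons y l ih =>
    intro k x z
    obtain ⟨m, hm⟩ : ∃ m, e y.1 = m + 1 := Nat.exists_eq_succ_of_ne_zero (by have := he y.1; omega)
    have hm' : e y.1 - 1 = m := by omega
    rw [RtB0_cons, hm, List.replicate_succ, List.cons_append, Rel_lin_append, SylB_lin_replicate, ih]
    simp only [lin, List.map_cons, List.sum_cons, hm']
    omega

theorem RtB0_cyc (f : Fin 3 × Bool → Fin 3 × Bool → ℕ) {e : Fin 3 → ℕ} (he : ∀ i, 1 ≤ e i)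
    (w : List (Fin 3 × Bool)) :
    cyc f (pwL e w) = cyc f w + (w.map (fun y => (e y.1 - 1) * f y y)).sum := by
  cases w with
  | nil => simp [pwL, cyc]
  | cons x l =>
    obtain ⟨m, hm⟩ : ∃ m, e x.1 = m + 1 := Nat.exists_eq_succ_of_ne_zero (by have := he x.1; omega)
    have hm' : e x.1 - 1 = m := by omega
    rw [RtB0_cons, hm, List.replicate_succ, List.cons_append, cyc, cyc, RtB0_lin f he]
    simp only [List.map_cons, List.sum_cons, hm']
    omega

/-- sum over the letters of a word -/
theorem RtB0_sum (g : Fin 3 → ℕ) (w : List (Fin 3 × Bool)) :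
    (w.map (fun y => g y.1)).sum = ∑ i : Fin 3, g i * cntL w i := by
  induction w with
  | nil => simp [cntL]
  | cons x w ih =>
    rw [List.map_cons, List.sum_cons, ih]
    have h1 : ∀ i : Fin 3, cntL (x :: w) i = cntL w i + (if x.1 = i then 1 else 0) := by
      intro i
      simp only [cntL, List.countP_cons, decide_eq_true_eq]
    simp only [h1, mul_add, Finset.sum_add_distrib, mul_ite, mul_one, mul_zero,
      Finset.sum_ite_eq, Finset.mem_univ, if_true]
    omega

theorem RtB0_mk (e : Fin 3 → ℕ) (w : List (Fin 3 × Bool)) :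
    pwh e (FreeGroup.mk w) = FreeGroup.mk (pwL e w) := by
  have h1 : ∀ x : Fin 3 × Bool, pwh e (lett x) = (lett x) ^ e x.1 := by
    rintro ⟨i, b⟩
    cases b with
    | true => rw [lett_true, pwh, FreeGroup.lift_apply_of]
    | false => rw [lett_false, map_inv, pwh, FreeGroup.lift_apply_of, inv_pow]
  induction w with
  | nil => exact map_one _
  | cons x w ih =>
    have h2 : (FreeGroup.mk (x :: w) : FreeGroup (Fin 3)) = lett x * FreeGroup.mk w := by
      rw [lett, FreeGroup.mul_mk]
      rfl
    rw [h2, map_mul, h1, ih, RtB0_cons, ← FreeGroup.mul_mk, SylA_mk_replicate]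

theorem RtB0_lett (e : Fin 3 → ℕ) (x : Fin 3 × Bool) : pwh e (lett x) = (lett x) ^ e x.1 := by
  rcases x with ⟨i, b⟩
  cases b with
  | true => rw [lett_true, pwh, FreeGroup.lift_apply_of]
  | false => rw [lett_false, map_inv, pwh, FreeGroup.lift_apply_of, inv_pow]

theorem pw_cls {e : Fin 3 → ℕ} (he : ∀ i, 1 ≤ e i) {w : List (Fin 3 × Bool)} (hw : CR w) :
    CR (pwL e w) ∧ pw e (cls w) = cls (pwL e w) := by
  constructor
  · rw [SylB_CR_iff] at hw ⊢
    rw [RtB0_cyc _ he, hw, zero_add]
    apply List.sum_eq_zero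
    intro n hn
    obtain ⟨y, -, rfl⟩ := List.mem_map.1 hn
    have : ¬ (y = bar y) := fun h => bar_ne y h.symm
    simp [this]
  · show ConjClasses.map (pwh e) (ConjClasses.mk (FreeGroup.mk w)) = _
    rw [cls, ← RtB0_mk]
    rfl

theorem RtB0_cntL (e : Fin 3 → ℕ) (w : List (Fin 3 × Bool)) (i : Fin 3) :
    cntL (pwL e w) i = e i * cntL w i := by
  induction w with
  | nil => simp [pwL, cntL]
  | cons x w ih =>
    rw [RtB0_cons, cntL, List.countP_append, List.countP_replicate]
    rw [cntL] at ih
    rw [ih, cntL, cntL, List.countP_cons]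
    by_cases h : x.1 = i
    · subst h
      simp [mul_add]
      omega
    · simp [h]

theorem RtB0_pw {e : Fin 3 → ℕ} (he : ∀ i, 1 ≤ e i) (V : CC) :
    rep (pw e V) ~r pwL e (rep V) := by
  obtain ⟨h1, h2⟩ := pw_cls he (rep_CR V)
  rw [cls_rep] at h2
  rw [h2]
  exact rep_rotated h1

theorem pw_cnt {e : Fin 3 → ℕ} (he : ∀ i, 1 ≤ e i) (V : CC) (i : Fin 3) :
    cnt (pw e V) i = e i * cnt V i := by
  rw [cnt, cntL, (RtB0_pw he V).perm.countP_eq]
  exact RtB0_cntL e (rep V) i

theorem pw_cap {e : Fin 3 → ℕ} (he : ∀ i, 1 ≤ e i) (V : CC) (A : Ct) :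
    capC (pw e V) A = capC V A + ∑ i : Fin 3,
      (if A (i, true) = A (i, false) then 0 else (e i - 1) * cnt V i) := by
  rw [capC, cap, Rel_cyc_rotated _ (RtB0_pw he V), RtB0_cyc _ he]
  congr 1
  have h1 : ∀ y : Fin 3 × Bool, (e y.1 - 1) * (if A y = A (bar y) then 0 else 1) =
      (fun i => if A (i, true) = A (i, false) then 0 else (e i - 1)) y.1 := by
    rintro ⟨i, b⟩
    cases b
    · by_cases h : A (i, true) = A (i, false)
      · simp [bar, h]
      · have h' : ¬ A (i, false) = A (i, true) := fun h0 => h h0.symm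
        simp [bar, h, h']
    · by_cases h : A (i, true) = A (i, false)
      · simp [bar, h]
      · simp [bar, h]
  have h2 : (rep V).map (fun y => (e y.1 - 1) * (if A y = A (bar y) then 0 else 1)) =
      (rep V).map (fun y => (fun i => if A (i, true) = A (i, false) then 0 else (e i - 1)) y.1) :=
    List.map_congr_left (fun y _ => h1 y)
  rw [h2, RtB0_sum (fun i => if A (i, true) = A (i, false) then 0 else (e i - 1))]
  apply Finset.sum_congr rfl
  intro i _
  rw [cnt]
  show (if A (i, true) = A (i, false) then 0 else (e i - 1)) * cntL (rep V) i = _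
  split_ifs <;> simp

theorem pw_edg {e : Fin 3 → ℕ} (he : ∀ i, 1 ≤ e i) (V : CC) (A B : Ct) :
    edgS (pw e V) A B = edgS V A B + ∑ i : Fin 3,
      (if ((A (i, true) && B (i, false)) || (B (i, true) && A (i, false))) = true then
        (e i - 1) * cnt V i else 0) := by
  rw [edgS, Rel_cyc_rotated _ (RtB0_pw he V), RtB0_cyc _ he]
  congr 1
  have h1 : ∀ y : Fin 3 × Bool,
      (e y.1 - 1) * (if (A y && B (bar y)) || (B y && A (bar y)) then 1 else 0) =
      (fun i => if ((A (i, true) && B (i, false)) || (B (i, true) && A (i, false))) = true then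
        (e i - 1) else 0) y.1 := by
    rintro ⟨i, b⟩
    cases b
    · simp only [bar, Bool.not_false]
      cases A (i, true) <;> cases A (i, false) <;> cases B (i, true) <;> cases B (i, false) <;> simp
    · simp only [bar, Bool.not_true]
      cases A (i, true) <;> cases A (i, false) <;> cases B (i, true) <;> cases B (i, false) <;> simp
  have h2 : (rep V).map (fun y => (e y.1 - 1) *
        (if (A y && B (bar y)) || (B y && A (bar y)) then 1 else 0)) =
      (rep V).map (fun y =>
        (fun i => if ((A (i, true) && B (i, false)) || (B (i, true) && A (i, false))) = true then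
        (e i - 1) else 0) y.1) :=
    List.map_congr_left (fun y _ => h1 y)
  rw [h2, RtB0_sum (fun i =>
    if ((A (i, true) && B (i, false)) || (B (i, true) && A (i, false))) = true then
        (e i - 1) else 0)]
  apply Finset.sum_congr rfl
  intro i _
  rw [cnt]
  show (if ((A (i, true) && B (i, false)) || (B (i, true) && A (i, false))) = true then
        (e i - 1) else 0) * cntL (rep V) i = _
  split_ifs <;> simp

theorem pw_one (V : CC) : pw (fun _ => 1) V = V := by
  induction V using Quotient.inductionOn with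
  | h g =>
    show ConjClasses.mk (pwh (fun _ => 1) g) = ConjClasses.mk g
    have h1 : pwh (fun _ => 1) = MonoidHom.id _ := by
      ext i
      simp [pwh]
    rw [h1]
    rfl

theorem pw_pw (e e' : Fin 3 → ℕ) (V : CC) : pw e (pw e' V) = pw (fun i => e i * e' i) V := by
  induction V using Quotient.inductionOn with
  | h g =>
    show ConjClasses.mk (pwh e (pwh e' g)) = ConjClasses.mk (pwh (fun i => e i * e' i) g)
    have h1 : (pwh e).comp (pwh e') = pwh (fun i => e i * e' i) := by
      ext i
      simp only [MonoidHom.comp_apply, pwh, FreeGroup.lift_apply_of, map_pow, pow_mul]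
    rw [← h1]
    rfl

theorem pw_pot {e : Fin 3 → ℕ} {j : Fin 3} {p : Fin 3 × Bool → ℤ}
    (hp : ∀ i, i ≠ j → e i ≠ 1 → p (i, true) = p (i, false)) (V : CC) :
    pw e (act (pot j p) V) = act (pot j (fun x => (e j : ℤ) * p x)) (pw e V) := by
  induction V using Quotient.inductionOn with
  | h g =>
    show ConjClasses.mk (pwh e (potFun j p g)) =
      ConjClasses.mk (potFun j (fun x => (e j : ℤ) * p x) (pwh e g))
    have h1 : (pwh e).comp (potFun j p) = (potFun j (fun x => (e j : ℤ) * p x)).comp (pwh e) := by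
      ext i
      rw [MonoidHom.comp_apply, MonoidHom.comp_apply]
      by_cases hi : i = j
      · subst hi
        rw [potFun_of_self, pwh, FreeGroup.lift_apply_of, map_pow, potFun_of_self]
      · rw [potFun_of_ne _ hi, map_mul, map_mul, map_zpow, map_zpow]
        rw [pwh, FreeGroup.lift_apply_of, FreeGroup.lift_apply_of, map_pow, potFun_of_ne _ hi]
        by_cases h2 : e i = 1
        · rw [h2, pow_one, pow_one]
          rw [← zpow_natCast, ← zpow_mul, ← zpow_mul]
          simp only [mul_neg]
        · have h3 := hp i hi h2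
          rw [h3]
          generalize p (i, false) = r
          have h4 : ((of j : FreeGroup (Fin 3)) ^ e j) ^ r = (of j) ^ ((e j : ℤ) * r) := by
            rw [← zpow_natCast, ← zpow_mul]
          have h5 : ((of j : FreeGroup (Fin 3)) ^ e j) ^ (-r) = ((of j) ^ ((e j : ℤ) * r))⁻¹ := by
            rw [zpow_neg, h4]
          rw [h4, h5, zpow_neg]
          generalize (of j : FreeGroup (Fin 3)) ^ ((e j : ℤ) * r) = c
          have h6 := conj_pow (i := e i) (a := c⁻¹) (b := (of i : FreeGroup (Fin 3)))
          rw [inv_inv] at h6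
          rw [h6]
    have h2 := DFunLike.congr_fun h1 g
    rw [MonoidHom.comp_apply, MonoidHom.comp_apply] at h2
    rw [h2]

theorem pw_wh {e : Fin 3 → ℕ} {z : Fin 3 × Bool} {A : Ct} (hz : e z.1 = 1)
    (hA : ∀ i, i ≠ z.1 → e i ≠ 1 → A (i, true) = A (i, false)) (V : CC) :
    pw e (act (wh z A) V) = act (wh z A) (pw e V) := by
  rw [wh, pw_pot (e := e) (j := z.1) (p := whp z A)
    (fun i hi h => by simp only [whp, hA i hi h]) V, hz]
  simp

theorem pw_SPerm {e : Fin 3 → ℕ} {σ : SPerm (Fin 3)} (h : ∀ i, e (σ.perm i) = e i) (V : CC) :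
    pw e (act σ.aut V) = act σ.aut (pw e V) := by
  induction V using Quotient.inductionOn with
  | h g =>
    show ConjClasses.mk (pwh e (σ.hom g)) = ConjClasses.mk (σ.hom (pwh e g))
    have h1 : (pwh e).comp σ.hom = σ.hom.comp (pwh e) := by
      ext i
      rw [MonoidHom.comp_apply, MonoidHom.comp_apply, ← lett_true, SPerm.hom_lett, RtB0_lett,
        RtB0_lett, map_pow, SPerm.hom_lett]
      congr 1
      exact h i
    have h2 := DFunLike.congr_fun h1 g
    rw [MonoidHom.comp_apply, MonoidHom.comp_apply] at h2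
    rw [h2]

end Pool.Agent.Sims
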