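import Pool.Agent.Sims.RtB0

/-!
# Module `RtB1` : uniqueness of the syllable list; `pw e` is injective

* `syl_app`: `expand j s = l₁ ++ l₂` where `l₂` is empty or starts with a letter `≠ x_j^{±1}`: then `s = s₁ ++ s₂`, `l₁ = expand j s₁`, `l₂ = expand j s₂`.  Induction on `s` (`expand j (q :: t) = q.1 :: (zpw j q.2 ++ expand j t)`).
* `syl_inj`: `expand j s = expand j s'` (both with letters `≠ x_j^{±1}`) implies `s = s'`: induction; `zpw j k ++ u = zpw j k' ++ u'` with `u, u'` empty or starting with a letter `≠ x_j^{±1}` implies `k = k'` (`takeWhile`).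
* `syl_uniq`: both words are cyclically reduced (`SValid`), so equality of the classes gives `expand j s ~r expand j s'` (`rep_rotated` or the lemma used in `Rel_CR_map`/`cls_of_rotated`; in `Lin`/`Defs` there is a lemma that cyclically
  reduced words of the same class are rotations of each other): `expand j s = l₁ ++ l₂`, `expand j s' = l₂ ++ l₁`.  If `l₁` or `l₂` is empty: `syl_inj`.  Otherwise `l₂` starts with the first letter of `expand j s'`, a letter `≠ x_j^{±1}`:
  `syl_app`, `syl_inj`: `s' = s₂ ++ s₁`.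
* `pw_syl`: `pw (1,..,k,..,1) (cls (expand j s)) = cls (expand j (s.map (fun q => (q.1, k * q.2))))` for `e = Function.update (fun _ => 1) j k`: on group elements (`SylA_mk_expand_cons`).
* `pw_inj`: `e i ≥ 1`, all counts positive.  `pw e` is the composition of the three maps for `Function.update (fun _ => 1) j (e j)` (`pw_pw`), each preserves positive counts (`pw_cnt`), so it is enough to treat one of them:
  `exists_syl j`, `pw_syl`, `syl_uniq` (validity of the list with the exponents multiplied by `k ≥ 1`: same zero exponents), and `List.map` with an injective function reflects rotations.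
Difficulty 3.
-/

namespace Pool.Agent.Sims

open FreeGroup (of)

/-- decoding of syllables: the exponent of the leading power of `x_j` and the syllable list -/
def RtB1_dec (j : Fin 3) : List (Fin 3 × Bool) → ℤ × List ((Fin 3 × Bool) × ℤ)
  | [] => (0, [])
  | y :: l => if y.1 = j then ((RtB1_dec j l).1 + (if y.2 = true then 1 else -1), (RtB1_dec j l).2)
      else (0, (y, (RtB1_dec j l).1) :: (RtB1_dec j l).2)

theorem RtB1_rep (j : Fin 3) (b : Bool) (n : ℕ) (l : List (Fin 3 × Bool)) :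
    RtB1_dec j (List.replicate n (j, b) ++ l) =
      ((RtB1_dec j l).1 + n * (if b = true then 1 else -1), (RtB1_dec j l).2) := by
  induction n with
  | zero => simp
  | succ n ih =>
    rw [List.replicate_succ, List.cons_append, RtB1_dec, if_pos rfl, ih]
    refine Prod.ext ?_ rfl
    show (RtB1_dec j l).1 + (n : ℤ) * (if b = true then 1 else -1) + (if b = true then 1 else -1) =
      (RtB1_dec j l).1 + ((n + 1 : ℕ) : ℤ) * (if b = true then 1 else -1)
    push_cast
    ring

theorem RtB1_zpw (j : Fin 3) (k : ℤ) (l : List (Fin 3 × Bool)) :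
    RtB1_dec j (zpw j k ++ l) = ((RtB1_dec j l).1 + k, (RtB1_dec j l).2) := by
  rw [zpw, RtB1_rep]
  refine Prod.ext ?_ rfl
  show (RtB1_dec j l).1 + ((k.natAbs : ℕ) : ℤ) * (if decide (0 ≤ k) = true then 1 else -1) =
    (RtB1_dec j l).1 + k
  rcases le_or_gt 0 k with h | h
  · rw [if_pos (by simpa using h)]
    omega
  · rw [if_neg (by simpa using h)]
    omega

theorem RtB1_expand (j : Fin 3) (s : List ((Fin 3 × Bool) × ℤ)) (hs : ∀ q ∈ s, q.1.1 ≠ j) :
    RtB1_dec j (expand j s) = (0, s) := by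
  induction s with
  | nil => rfl
  | cons q t ih =>
    rw [SylB_expand_cons, RtB1_dec, if_neg (hs q (by simp)), RtB1_zpw,
      ih (fun r hr => hs r (by simp [hr]))]
    simp

theorem RtB1_append (j : Fin 3) (l₁ l₂ : List (Fin 3 × Bool)) (h : (RtB1_dec j l₂).1 = 0) :
    RtB1_dec j (l₁ ++ l₂) = ((RtB1_dec j l₁).1, (RtB1_dec j l₁).2 ++ (RtB1_dec j l₂).2) := by
  induction l₁ with
  | nil => exact Prod.ext h rfl
  | cons y l ih =>
    rw [List.cons_append, RtB1_dec, RtB1_dec, ih]
    by_cases hy : y.1 = j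
    · rw [if_pos hy, if_pos hy]
    · rw [if_neg hy, if_neg hy]
      rfl

theorem syl_inj {j : Fin 3} {s s' : List ((Fin 3 × Bool) × ℤ)} (hs : ∀ q ∈ s, q.1.1 ≠ j)
    (hs' : ∀ q ∈ s', q.1.1 ≠ j) (h : expand j s = expand j s') : s = s' := by
  have h1 := RtB1_expand j s hs
  have h2 := RtB1_expand j s' hs'
  rw [h, h2] at h1
  exact (congrArg Prod.snd h1).symm

theorem RtB1_head {j : Fin 3} {s : List ((Fin 3 × Bool) × ℤ)} (hs : ∀ q ∈ s, q.1.1 ≠ j)
    {l₁ l₂ : List (Fin 3 × Bool)} (h : expand j s = l₁ ++ l₂) : (RtB1_dec j l₁).1 = 0 := by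
  cases l₁ with
  | nil => rfl
  | cons y l =>
    cases s with
    | nil => simp [expand] at h
    | cons q t =>
      rw [SylB_expand_cons, List.cons_append] at h
      have h1 : q.1 = y := (List.cons.inj h).1
      have h2 := hs q (by simp)
      rw [h1] at h2
      rw [RtB1_dec, if_neg h2]

theorem syl_uniq {j : Fin 3} {s s' : List ((Fin 3 × Bool) × ℤ)} (hs : SValid j s)
    (hs' : SValid j s') (hn : s ≠ []) (h : cls (expand j s) = cls (expand j s')) :
    s.IsRotated s' := by
  obtain ⟨l₁, l₂, h1, h2⟩ := Cyc_rot_split (rotated_of_cls_eq hs.2 hs'.2 h)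
  have h3 := RtB1_head hs.1 h1
  have h4 := RtB1_head hs'.1 h2
  have h5 := RtB1_expand j s hs.1
  have h6 := RtB1_expand j s' hs'.1
  rw [h1, RtB1_append j l₁ l₂ h4] at h5
  rw [h2, RtB1_append j l₂ l₁ h3] at h6
  have h7 : (RtB1_dec j l₁).2 ++ (RtB1_dec j l₂).2 = s := congrArg Prod.snd h5
  have h8 : (RtB1_dec j l₂).2 ++ (RtB1_dec j l₁).2 = s' := congrArg Prod.snd h6
  rw [← h7, ← h8]
  exact List.isRotated_append

theorem RtB1_pwh (j : Fin 3) (k : ℕ) (s : List ((Fin 3 × Bool) × ℤ)) (hs : ∀ q ∈ s, q.1.1 ≠ j) :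
    pwh (Function.update (fun _ => 1) j k) (FreeGroup.mk (expand j s)) =
      FreeGroup.mk (expand j (s.map (fun q => (q.1, (k : ℤ) * q.2)))) := by
  induction s with
  | nil => exact map_one _
  | cons q t ih =>
    rw [List.map_cons, SylA_mk_expand_cons, SylA_mk_expand_cons, map_mul, map_mul, map_zpow,
      ih (fun r hr => hs r (by simp [hr])), RtB0_lett, Function.update_of_ne (hs q (by simp)),
      pow_one]
    have h1 : pwh (Function.update (fun _ => 1) j k) (of j) = (of j : FreeGroup (Fin 3)) ^ k := by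
      rw [pwh, FreeGroup.lift_apply_of, Function.update_self]
    rw [h1, ← zpow_natCast, ← zpow_mul]

theorem pw_syl (j : Fin 3) (k : ℕ) (s : List ((Fin 3 × Bool) × ℤ)) (hs : ∀ q ∈ s, q.1.1 ≠ j) :
    pw (Function.update (fun _ => 1) j k) (cls (expand j s)) =
      cls (expand j (s.map (fun q => (q.1, (k : ℤ) * q.2)))) := by
  show ConjClasses.map (pwh _) (ConjClasses.mk (FreeGroup.mk (expand j s))) = _
  rw [cls, ← RtB1_pwh j k s hs]
  rfl

theorem RtB1_upd (j : Fin 3) {k : ℕ} (hk : 1 ≤ k) :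
    ∀ i, 1 ≤ (Function.update (fun _ => 1) j k : Fin 3 → ℕ) i := by
  intro i
  by_cases h : i = j
  · subst h
    rw [Function.update_self]
    exact hk
  · rw [Function.update_of_ne h]

theorem RtB1_valid {j : Fin 3} {k : ℕ} (hk : 1 ≤ k) {s : List ((Fin 3 × Bool) × ℤ)}
    (hs : SValid j s) : SValid j (s.map (fun q => (q.1, (k : ℤ) * q.2))) := by
  rw [SValid_iff j _ (by
    intro q hq
    obtain ⟨q', h1, rfl⟩ := List.mem_map.1 hq
    exact hs.1 q' h1), Rel_cyc_map]
  rw [SValid_iff j s hs.1] at hs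
  refine Eq.trans (SylB_cyc_congr s ?_) hs
  intro a _ b _
  have hk' : ¬ k = 0 := by omega
  simp [hk']

theorem RtB1_rot (j : Fin 3) {s s' : List ((Fin 3 × Bool) × ℤ)} (h : s ~r s') :
    cls (expand j s) = cls (expand j s') := by
  obtain ⟨p, q, rfl, rfl⟩ := Cyc_rot_split h
  rw [expand, expand, List.flatMap_append, List.flatMap_append]
  exact cls_append_comm _ _

theorem RtB1_step (j : Fin 3) {k : ℕ} (hk : 1 ≤ k) {V W : CC} (hV : ∀ i, 0 < cnt V i)
    (hW : ∀ i, 0 < cnt W i)
    (h : pw (Function.update (fun _ => 1) j k) V = pw (Function.update (fun _ => 1) j k) W) :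
    V = W := by
  obtain ⟨i, hi⟩ : ∃ i : Fin 3, i ≠ j := ⟨j + 1, by fin_cases j <;> decide⟩
  obtain ⟨s, hn, hs, rfl⟩ := exists_syl j V ⟨i, hi, hV i⟩
  obtain ⟨s', hn', hs', rfl⟩ := exists_syl j W ⟨i, hi, hW i⟩
  rw [pw_syl j k s hs.1, pw_syl j k s' hs'.1] at h
  obtain ⟨n, hr⟩ := syl_uniq (RtB1_valid hk hs) (RtB1_valid hk hs') (by simpa using hn) h
  rw [← List.map_rotate] at hr
  have hinj : Function.Injective (fun q : (Fin 3 × Bool) × ℤ => (q.1, (k : ℤ) * q.2)) := by
    rintro ⟨a, m⟩ ⟨b, m'⟩ hab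
    have h1 : a = b := congrArg Prod.fst hab
    have h2 : (k : ℤ) * m = (k : ℤ) * m' := congrArg Prod.snd hab
    have hk' : (k : ℤ) ≠ 0 := by omega
    rw [h1, mul_left_cancel₀ hk' h2]
  exact RtB1_rot j ⟨n, List.map_injective_iff.2 hinj hr⟩

theorem pw_inj {e : Fin 3 → ℕ} (he : ∀ i, 1 ≤ e i) {V W : CC} (hV : ∀ i, 0 < cnt V i)
    (hW : ∀ i, 0 < cnt W i) (h : pw e V = pw e W) : V = W := by
  have h0 : e = fun i => (Function.update (fun _ => 1) 0 (e 0) : Fin 3 → ℕ) i *
      (fun i => (Function.update (fun _ => 1) 1 (e 1) : Fin 3 → ℕ) i *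
        (Function.update (fun _ => 1) 2 (e 2) : Fin 3 → ℕ) i) i := by
    funext i
    fin_cases i <;> simp [Function.update]
  have hpos : ∀ (j : Fin 3) (V : CC), (∀ i, 0 < cnt V i) →
      ∀ i, 0 < cnt (pw (Function.update (fun _ => 1) j (e j)) V) i := by
    intro j V hV i
    rw [pw_cnt (RtB1_upd j (he j))]
    exact Nat.mul_pos (RtB1_upd j (he j) i) (hV i)
  rw [h0, ← pw_pw, ← pw_pw, ← pw_pw, ← pw_pw] at h
  have h1 := RtB1_step 0 (he 0) (hpos 1 _ (hpos 2 V hV)) (hpos 1 _ (hpos 2 W hW)) h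
  have h2 := RtB1_step 1 (he 1) (hpos 2 V hV) (hpos 2 W hW) h1
  exact RtB1_step 2 (he 2) hV hW h2

end Pool.Agent.Sims
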