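import Pool.Agent.Sims.RtEM

/-!
# Module `RtPot` : potentials in the world with fixed letters
-/

namespace Pool.Agent.Sims

namespace Pw

open FreeGroup (of)

variable {P : Fin 3 → Prop}

/-- potentials fixed by `P` -/
def PQ (P : Fin 3 → Prop) (q : Fin 3 × Bool → ℤ) : Prop := ∀ i, P i → q (i, true) = q (i, false)

theorem RtPot_key (V : CC) (j : Fin 3) (q : Fin 3 × Bool → ℤ) (α : ℤ) :
    cnt (act (pot j (fun x => max (q x - α) 0)) V) j +
    cnt (act (pot j (fun x => min (q x) α)) V) j ≤ cnt (act (pot j q) V) j + cnt V j := by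
  rcases TwPot_cases V j with h0 | ⟨s, hs⟩
  · rw [h0, h0, h0]
  · have e1 := (hs (fun x => max (q x - α) 0)).2
    have e2 := (hs (fun x => min (q x) α)).2
    have e3 := (hs q).2
    have e4 := (hs 0).2
    rw [pot_zero] at e4
    have key : cyc (fun a b : (Fin 3 × Bool) × ℤ =>
        (a.2 + (max (q a.1 - α) 0) - (max (q (bar b.1) - α) 0)).natAbs) s +
        cyc (fun a b : (Fin 3 × Bool) × ℤ =>
        (a.2 + (min (q a.1) α) - (min (q (bar b.1)) α)).natAbs) s ≤
        cyc (fun a b : (Fin 3 × Bool) × ℤ => (a.2 + q a.1 - q (bar b.1)).natAbs) s +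
        cyc (fun a b : (Fin 3 × Bool) × ℤ =>
          (a.2 + (0 : Fin 3 × Bool → ℤ) a.1 - (0 : Fin 3 × Bool → ℤ) (bar b.1)).natAbs) s := by
      rw [← cyc_add, ← cyc_add]
      apply cyc_mono
      intro a b
      simp only [Pi.zero_apply]
      omega
    omega

/-- `A` with the letters `x_j` inside and `x_j⁻¹` outside -/
def RtPot_up (j : Fin 3) (A : Ct) : Ct := fun x => if x.1 = j then x.2 else A x

theorem RtPot_up_act (j : Fin 3) (A : Ct) (V : CC) :
    act (wh (j, true) (RtPot_up j A)) V = act (pot j (ind A)) V := by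
  rw [wh_pot]
  apply pot_congr
  intro x hx
  simp [ind, RtPot_up, hx]

theorem RtPot_PF {j : Fin 3} (hj : ¬ P j) {A : Ct} (hA : PF P A) : PF P (RtPot_up j A) := by
  intro i hi
  have h1 : i ≠ j := by
    rintro rfl
    exact hj hi
  simp [RtPot_up, h1, hA i hi]

theorem RtPot_ind {n : ℕ} {V : CC} (E : EqP n P V) {j : Fin 3} (hj : ¬ P j)
    {A : Ct} (hA : PF P A) : n ≤ cnt (act (pot j (ind A)) V) j := by
  have h1 := cnt_wh_self V (j, true) (RtPot_up j A) (by simp [RtPot_up]) (by simp [RtPot_up, bar])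
  rw [RtPot_up_act] at h1
  have h2 : cnt (act (pot j (ind A)) V) j = capC V (RtPot_up j A) := h1
  rw [h2]
  apply E.low
  exact ⟨⟨⟨(j, true), by simp [RtPot_up]⟩, ⟨(j, false), by simp [RtPot_up]⟩⟩, RtPot_PF hj hA⟩

theorem RtPot_min1 {q : Fin 3 × Bool → ℤ} (hq : ∀ x, 0 ≤ q x) :
    (fun x => min (q x) 1) = ind (fun x => decide (1 ≤ q x)) := by
  funext x
  unfold ind
  have := hq x
  by_cases h : 1 ≤ q x
  · simp [h]
  · have h2 : q x = 0 := by omega
    simp [h2]

theorem RtPot_pfA {q : Fin 3 × Bool → ℤ} (hq : PQ P q) : PF P (fun x => decide (1 ≤ q x)) := by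
  intro i hi
  simp [hq i hi]

theorem RtPot_shift (q : Fin 3 × Bool → ℤ) : ∃ k : ℤ, (∀ x, 0 ≤ q x + k) := by
  refine ⟨∑ x, |q x|, ?_⟩
  intro x
  have h1 : |q x| ≤ ∑ x, |q x| :=
    Finset.single_le_sum (f := fun x => |q x|) (fun y _ => abs_nonneg (q y)) (Finset.mem_univ x)
  have h2 := neg_abs_le (q x)
  omega

theorem RtPot_bound (q : Fin 3 × Bool → ℤ) : ∃ M : ℕ, ∀ x, q x ≤ M := by
  refine ⟨∑ x, (q x).natAbs, ?_⟩
  intro x
  have h1 : (q x).natAbs ≤ ∑ x, (q x).natAbs :=
    Finset.single_le_sum (f := fun x => (q x).natAbs) (fun y _ => Nat.zero_le _) (Finset.mem_univ x)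
  omega

theorem RtPot_min_aux {n : ℕ} {V : CC} (E : EqP n P V) {j : Fin 3} (hj : ¬ P j) (M : ℕ) :
    ∀ q : Fin 3 × Bool → ℤ, PQ P q → (∀ x, 0 ≤ q x) → (∀ x, q x ≤ M) →
      n ≤ cnt (act (pot j q) V) j := by
  induction M with
  | zero =>
    intro q _ h0 h1
    have h2 : q = 0 := by
      funext x
      have h3 := h0 x
      have h4 := h1 x
      simp only [Nat.cast_zero] at h4
      simp only [Pi.zero_apply]
      omega
    rw [h2, pot_zero, E.c j hj]
  | succ M ih =>
    intro q hq h0 h1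
    have h2 := RtPot_key V j q 1
    rw [RtPot_min1 h0] at h2
    have h3 := RtPot_ind E hj (RtPot_pfA hq)
    have h4 := ih (fun x => max (q x - 1) 0) (fun i hi => by simp [hq i hi])
      (fun x => le_max_right _ _) (fun x => by
        have := h1 x
        push_cast at this
        simp only [sup_le_iff]
        omega)
    rw [E.c j hj] at h2
    omega

theorem pot_min {n : ℕ} {V : CC} (E : EqP n P V) {j : Fin 3} (hj : ¬ P j)
    {q : Fin 3 × Bool → ℤ} (hq : PQ P q) : n ≤ cnt (act (pot j q) V) j := by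
  obtain ⟨k, hk⟩ := RtPot_shift q
  obtain ⟨M, hM⟩ := RtPot_bound (fun x => q x + k)
  have h1 : act (pot j (fun x => q x + k)) V = act (pot j q) V := pot_const k (fun x _ => rfl) V
  rw [← h1]
  exact RtPot_min_aux E hj M _ (fun i hi => by simp [hq i hi]) hk hM

theorem pot_split {n : ℕ} {V : CC} (E : EqP n P V) {j : Fin 3} (hj : ¬ P j)
    {q : Fin 3 × Bool → ℤ} (hq : PQ P q) (h : cnt (act (pot j q) V) j = n) (α : ℤ) :
    cnt (act (pot j (fun x => max (q x - α) 0)) V) j = n ∧
    cnt (act (pot j (fun x => min (q x) α)) V) j = n := by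
  have h1 := RtPot_key V j q α
  have h2 := pot_min E hj (q := fun x => max (q x - α) 0) (fun i hi => by simp [hq i hi])
  have h3 := pot_min E hj (q := fun x => min (q x) α) (fun i hi => by simp [hq i hi])
  rw [E.c j hj, h] at h1
  omega

theorem pot_Lv {n : ℕ} {V : CC} (E : EqP n P V) {j : Fin 3} (hj : ¬ P j) {A : Ct}
    (h1 : A (j, true) = true) (h2 : A (j, false) = false) (hA : PF P A)
    (h : cnt (act (pot j (ind A)) V) j = n) : LP P V (j, true) A := by
  have h3 := Pool.Agent.Sims.pot_Lv h1 h2 (by rw [h, E.c j hj])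
  exact ⟨h3.1, h3.2.1, h3.2.2, hA⟩

theorem RtPot_em_aux {n : ℕ} {j : Fin 3} (hj : ¬ P j) (M : ℕ) :
    ∀ (V : CC), EqP n P V → ∀ q : Fin 3 × Bool → ℤ, PQ P q → (∀ x, 0 ≤ q x) → (∀ x, q x ≤ M) →
      cnt (act (pot j q) V) j = n → act (pot j q) V ∈ EP P (fun i => i = j) V := by
  induction M with
  | zero =>
    intro V E q _ h0 h1 _
    have h2 : q = 0 := by
      funext x
      have h3 := h0 x
      have h4 := h1 x
      simp only [Nat.cast_zero] at h4
      simp only [Pi.zero_apply]
      omega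
    rw [h2, pot_zero]
    exact EM_refl _ _
  | succ M ih =>
    intro V E q hq h0 h1 hn
    obtain ⟨h2, h3⟩ := pot_split E hj hq hn 1
    rw [RtPot_min1 h0] at h3
    set A : Ct := fun x => decide (1 ≤ q x) with hA
    have hPA : PF P A := RtPot_pfA hq
    have hL : LP P V (j, true) (RtPot_up j A) := by
      refine pot_Lv E hj (by simp [RtPot_up]) (by simp [RtPot_up]) (RtPot_PF hj hPA) ?_
      rw [← wh_pot, RtPot_up_act, h3]
    have hV1 := RtPot_up_act j A V
    have E1 : EqP n P (act (pot j (ind A)) V) := by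
      rw [← hV1]
      exact E.lv hL
    have e : act (pot j (fun x => max (q x - 1) 0)) (act (pot j (ind A)) V) = act (pot j q) V := by
      rw [pot_add]
      congr 2
      rw [← RtPot_min1 h0]
      funext x
      simp only [Pi.add_apply]
      omega
    have h5 := ih _ E1 (fun x => max (q x - 1) 0) (fun i hi => by simp [hq i hi])
      (fun x => le_max_right _ _) (fun x => by
        have := h1 x
        push_cast at this
        simp only [sup_le_iff]
        omega) (by rw [e, hn])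
    rw [e] at h5
    refine EM_trans ?_ h5
    rw [← hV1]
    exact EM_step (EM_refl _ _) rfl hL

/-- a potential with the same count is a sequence of level moves -/
theorem pot_em {n : ℕ} {V : CC} (E : EqP n P V) {j : Fin 3} (hj : ¬ P j)
    {q : Fin 3 × Bool → ℤ} (hq : PQ P q) (h : cnt (act (pot j q) V) j = n) :
    act (pot j q) V ∈ EP P (fun i => i = j) V := by
  obtain ⟨k, hk⟩ := RtPot_shift q
  obtain ⟨M, hM⟩ := RtPot_bound (fun x => q x + k)
  have h1 : act (pot j (fun x => q x + k)) V = act (pot j q) V := pot_const k (fun x _ => rfl) V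
  rw [← h1]
  exact RtPot_em_aux hj M V E _ (fun i hi => by simp [hq i hi]) hk hM (by rw [h1, h])

theorem pot_EqP {n : ℕ} {V : CC} (E : EqP n P V) {j : Fin 3} (hj : ¬ P j)
    {q : Fin 3 × Bool → ℤ} (hq : PQ P q) (h : cnt (act (pot j q) V) j = n) :
    EqP n P (act (pot j q) V) := E.em (pot_em E hj hq h)

end Pw

end Pool.Agent.Sims
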