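import Pool.Agent.Sims.RtB1
import Pool.Agent.Sims.RtPot

/-!
# Module `RtB2` : base classes with square letters

`Q : Fin 3 → Bool` the square letters, `sq Q V` : all letters of `Q` replaced by their squares.
* `BQ n P Q V` : `EqP n P (sq Q V)`, `{x_j, x_j⁻¹}` tight for `Q j`, `Q` disjoint from `P`
* `StQ P Q M V W` : level move at `V` with multiplier in `M`, along a cut which is `P`-fixed and fixed on the letters of `Q` different from the multiplier;  `SQ P Q M V` : the classes reachable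
* `bq_cnt`, `bq_cnt'`: `pw_cnt`.  `bq_pos`: all counts are positive if `0 < cnt V i` for `P i`.
* `bq_e0`: `capC V (PrC j) = n`, `2 * cnt V j = n`; `PrC j = pr (j,true) (j,false)`, `capC_pr`: `edgS V {x_j} {x_j⁻¹} = 0`.  `bq_e1`: `pw_edg`: `edgS (sq Q V) {x_j} {x_j⁻¹} = cnt V j`, twice this is `n`.
* `bq_st`: let `W = act (wh z A) V`.  (1) `z.1 ∉ Q`: `sq Q W = act (wh z A) (sq Q V)` (`pw_wh`; `A` is fixed on all letters of `Q`), `capC (sq Q V) A = capC V A` (`pw_cap`) `= cnt V z.1 = cnt (sq Q V) z.1` (`pw_cnt`): `LP P (sq Q V) z A`: one step of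
  `StP`.  (2) `z.1 = j ∈ Q`: `wh z A = pot j (whp z A)`, `sq Q W = act (pot j (2 · whp z A)) (sq Q V)` (`pw_pot`), `cnt (sq Q W) j = 2 cnt W j = 2 cnt V j = n` (`cnt_wh_self`), `Pw.pot_em`: `sq Q W ∈ EP P (· = j) (sq Q V)`.  In both cases
  `EqP n P (sq Q W)` (`Pw.EqP.em`).  Tightness of `PrC j'`, `Q j'`: if `j' ≠ z.1`: `A` or its complement is disjoint from `PrC j'`: `capC_wh_disj` (`Lv_compl`).  If `j' = z.1`: `n ≤ capC (sq Q W) (PrC j') = capC W (PrC j')` (`E.low`; `PrC j'` is
  proper and `P`-fixed; `pw_cap`), and `capC W (PrC j') ≤ 2 cnt W j' = n` (`capC_pr`).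
* `sq_bq`: induction.  `SQ_refl`, `SQ_step`, `SQ_trans`, `SQ_symm` (`Lv_inv`), `SQ_eq`, `SQ_mono`: as in `EvEM`.  `SQ_SPerm`: `σ` with `P i ↔ P (σ.perm i)`, `Q (σ.perm i) = Q i`, `M i → M' (σ.perm i)`: `TwBasic_SPerm`.
* `bq_SPerm`: `pw_SPerm`, `capC_SPerm`, and the equivariance of `EqP` (`Pw.Eq3_SPerm`).
Difficulty 3.
-/

namespace Pool.Agent.Sims

/-- squares of the letters in `Q` -/
def sq (Q : Fin 3 → Bool) (V : CC) : CC := pw (fun i => if Q i then 2 else 1) V

/-- base class with square letters -/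
structure BQ (n : ℕ) (P : Fin 3 → Prop) (Q : Fin 3 → Bool) (V : CC) : Prop where
  e : EqP n P (sq Q V)
  t : ∀ j, Q j = true → capC V (PrC j) = n
  d : ∀ j, Q j = true → ¬ P j

/-- fixed on the letters of `Q` different from `j` -/
def QF (Q : Fin 3 → Bool) (j : Fin 3) (A : Ct) : Prop :=
  ∀ i, Q i = true → i ≠ j → A (i, true) = A (i, false)

/-- one level move -/
def StQ (P : Fin 3 → Prop) (Q : Fin 3 → Bool) (M : Fin 3 → Prop) (V W : CC) : Prop :=
  ∃ (z : Fin 3 × Bool) (A : Ct), M z.1 ∧ Lv V z A ∧ PF P A ∧ QF Q z.1 A ∧ W = act (wh z A) V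

/-- reachable classes -/
def SQ (P : Fin 3 → Prop) (Q : Fin 3 → Bool) (M : Fin 3 → Prop) (V : CC) : Set CC :=
  {W | Relation.ReflTransGen (StQ P Q M) V W}

variable {n : ℕ} {P : Fin 3 → Prop} {Q : Fin 3 → Bool} {V W : CC}

private theorem RtB2_e1 (Q : Fin 3 → Bool) : ∀ i, 1 ≤ (fun i => if Q i then 2 else 1 : Fin 3 → ℕ) i := by
  intro i
  beta_reduce
  split <;> decide

private theorem RtB2_cnt (Q : Fin 3 → Bool) (V : CC) (i : Fin 3) :
    cnt (sq Q V) i = (if Q i then 2 else 1) * cnt V i :=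
  pw_cnt (RtB2_e1 Q) V i

private theorem RtB2_cap {A : Ct} (V : CC) (h : ∀ i, Q i = true → A (i, true) = A (i, false)) :
    capC (sq Q V) A = capC V A := by
  unfold sq
  rw [pw_cap (RtB2_e1 Q)]
  have h1 : (∑ i : Fin 3, (if A (i, true) = A (i, false) then 0 else
      ((fun i => if Q i then 2 else 1 : Fin 3 → ℕ) i - 1) * cnt V i)) = 0 := by
    apply Finset.sum_eq_zero
    intro i _
    by_cases hi : Q i = true
    · rw [if_pos (h i hi)]
    · simp [hi]
  rw [h1, add_zero]

theorem bq_cnt (B : BQ n P Q V) {j : Fin 3} (hj : Q j = true) : 2 * cnt V j = n := by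
  have h := B.e.c j (B.d j hj)
  rw [RtB2_cnt, if_pos hj] at h
  exact h

theorem bq_cnt' (B : BQ n P Q V) {j : Fin 3} (hj : Q j = false) (hP : ¬ P j) : cnt V j = n := by
  have h := B.e.c j hP
  rw [RtB2_cnt, if_neg (by rw [hj]; decide), one_mul] at h
  exact h

theorem bq_pos (B : BQ n P Q V) (hP : ∀ i, P i → 0 < cnt V i) : ∀ i, 0 < cnt V i := by
  intro i
  have h4 := B.e.h4
  by_cases hi : P i
  · exact hP i hi
  · cases hq : Q i with
    | true => have := bq_cnt B hq; omega
    | false => have := bq_cnt' B hq hi; omega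

private theorem RtB2_prc (j : Fin 3) (V : CC) :
    capC V (PrC j) = capC V (pr (j, true) (j, false)) := by
  apply capC_congr
  intro x
  obtain ⟨i, b⟩ := x
  unfold PrC pr
  cases b <;> simp [Prod.ext_iff]

private theorem RtB2_pr (j : Fin 3) (V : CC) :
    capC V (PrC j) + 2 * edgS V (sgl (j, true)) (sgl (j, false)) = 2 * cnt V j := by
  rw [RtB2_prc]
  have h := capC_pr V (z := (j, true)) (y := (j, false)) (by
    intro h
    exact Bool.noConfusion (congrArg Prod.snd h))
  rw [h]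
  simp only
  omega

theorem bq_e0 (B : BQ n P Q V) {j : Fin 3} (hj : Q j = true) :
    edgS V (sgl (j, true)) (sgl (j, false)) = 0 := by
  have h1 := RtB2_pr j V
  have h2 := B.t j hj
  have h3 := bq_cnt B hj
  omega

theorem bq_e1 (B : BQ n P Q V) {j : Fin 3} (hj : Q j = true) :
    2 * edgS (sq Q V) (sgl (j, true)) (sgl (j, false)) = n := by
  have h0 := bq_e0 B hj
  have h3 := bq_cnt B hj
  unfold sq
  rw [pw_edg (RtB2_e1 Q), h0]
  have h1 : (∑ i : Fin 3, (if ((sgl (j, true) (i, true) && sgl (j, false) (i, false)) ||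
      (sgl (j, false) (i, true) && sgl (j, true) (i, false))) = true then
        ((fun i => if Q i then 2 else 1 : Fin 3 → ℕ) i - 1) * cnt V i else 0)) = cnt V j := by
    rw [Finset.sum_eq_single j]
    · simp [sgl, hj]
    · intro i _ hi
      have hi' : ¬ ((i, true) = (j, true)) := fun h => hi (congrArg Prod.fst h)
      have hi2 : ¬ ((i, false) = (j, true)) := fun h => hi (congrArg Prod.fst h)
      simp [sgl, hi]
    · intro h
      exact absurd (Finset.mem_univ j) h
  rw [h1]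
  omega

private theorem RtB2_tight {z : Fin 3 × Bool} {A : Ct} (B : BQ n P Q V) (hL : Lv V z A)
    (hQ : QF Q z.1 A) {j : Fin 3} (hj : Q j = true) (hjz : j ≠ z.1) :
    capC (act (wh z A) V) (PrC j) = n := by
  have h1 : PrC j z = false := by
    unfold PrC
    exact decide_eq_false (fun h => hjz h.symm)
  have h2 : PrC j (bar z) = false := h1
  have hA := hQ j hj hjz
  have hx : ∀ x, PrC j x = true → A x = A (j, true) := by
    rintro ⟨i, b⟩ hx
    have hi : i = j := by simpa [PrC] using hx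
    subst hi
    cases b with
    | true => rfl
    | false => exact hA.symm
  cases hc : A (j, true) with
  | false =>
    rw [capC_wh_disj V z A (PrC j) hL.1 hL.2.1 h1 h2, B.t j hj]
    intro x hx'
    by_contra hcon
    have h3 : PrC j x = true := by simpa using hcon
    rw [hx x h3, hc] at hx'
    exact Bool.noConfusion hx'
  | true =>
    obtain ⟨hL', hW⟩ := Lv_compl hL
    rw [← hW, capC_wh_disj V (bar z) (fun x => !A x) (PrC j) hL'.1 hL'.2.1 h2
      (by rw [bar_bar]; exact h1), B.t j hj]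
    intro x hx'
    by_contra hcon
    have h3 : PrC j x = true := by simpa using hcon
    simp only [hx x h3, hc] at hx'
    exact Bool.noConfusion hx'

theorem bq_st {M : Fin 3 → Prop} (B : BQ n P Q V) (h : StQ P Q M V W) :
    BQ n P Q W ∧ sq Q W ∈ EP P M (sq Q V) := by
  obtain ⟨z, A, hz, hL, hP, hQ, rfl⟩ := h
  have hmem : sq Q (act (wh z A) V) ∈ EP P M (sq Q V) := by
    cases hq : Q z.1 with
    | false =>
      have h1 : sq Q (act (wh z A) V) = act (wh z A) (sq Q V) := by
        unfold sq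
        apply pw_wh
        · simp [hq]
        · intro i hi he
          apply hQ i _ hi
          by_contra hcon
          apply he
          simp [hcon]
      rw [h1]
      refine Pw.EM_step (Pw.EM_refl M _) hz ⟨hL.1, hL.2.1, ?_, hP⟩
      have h2 : ∀ i, Q i = true → A (i, true) = A (i, false) := by
        intro i hi
        apply hQ i hi
        rintro rfl
        rw [hq] at hi
        exact Bool.noConfusion hi
      rw [RtB2_cap V h2, hL.2.2, RtB2_cnt, hq]
      simp
    | true =>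
      have h1 : sq Q (act (wh z A) V) =
          act (pot z.1 (fun x => (((fun i => if Q i then 2 else 1 : Fin 3 → ℕ) z.1 : ℕ) : ℤ) *
            whp z A x)) (sq Q V) := by
        unfold sq wh
        apply pw_pot
        intro i hi he
        have h2 : A (i, true) = A (i, false) := by
          apply hQ i _ hi
          by_contra hcon
          apply he
          simp [hcon]
        unfold whp
        rw [h2]
      have hPQ : Pw.PQ P (fun x => (((fun i => if Q i then 2 else 1 : Fin 3 → ℕ) z.1 : ℕ) : ℤ) *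
            whp z A x) := by
        intro i hi
        beta_reduce
        unfold whp
        rw [hP i hi]
      have hcn : cnt (act (pot z.1 (fun x =>
          (((fun i => if Q i then 2 else 1 : Fin 3 → ℕ) z.1 : ℕ) : ℤ) *
            whp z A x)) (sq Q V)) z.1 = n := by
        rw [← h1, RtB2_cnt, if_pos hq, cnt_wh_self V z A hL.1 hL.2.1, hL.2.2]
        exact bq_cnt B hq
      rw [h1]
      refine Pw.EM_mono ?_ (Pw.pot_em B.e (B.d _ hq) hPQ hcn)
      intro i hi
      rw [hi]
      exact hz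
  have hE : EqP n P (sq Q (act (wh z A) V)) := Pw.EqP.em B.e hmem
  refine ⟨⟨hE, ?_, B.d⟩, hmem⟩
  intro j hj
  by_cases hjz : j = z.1
  · have h1 : n ≤ capC (sq Q (act (wh z A) V)) (PrC j) := by
      apply hE.low
      refine ⟨⟨⟨(j, true), ?_⟩, ⟨(j + 1, true), ?_⟩⟩, ?_⟩
      · simp [PrC]
      · simp [PrC]
      · intro i _
        rfl
    rw [RtB2_cap _ (fun i _ => rfl)] at h1
    have h2 := RtB2_pr j (act (wh z A) V)
    have h3 : cnt (act (wh z A) V) j = cnt V j := by
      subst hjz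
      rw [cnt_wh_self V z A hL.1 hL.2.1, hL.2.2]
    have h4 := bq_cnt B hj
    omega
  · exact RtB2_tight B hL hQ hj hjz

theorem sq_bq {M : Fin 3 → Prop} (B : BQ n P Q V) (h : W ∈ SQ P Q M V) :
    BQ n P Q W ∧ sq Q W ∈ EP P M (sq Q V) := by
  have h1 : Relation.ReflTransGen (StQ P Q M) V W := h
  clear h
  induction h1 with
  | refl => exact ⟨B, Pw.EM_refl M _⟩
  | tail _ h3 ih =>
    obtain ⟨B', h4⟩ := bq_st ih.1 h3
    exact ⟨B', Pw.EM_trans ih.2 h4⟩

theorem SQ_refl (M : Fin 3 → Prop) (V : CC) : V ∈ SQ P Q M V :=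
  Relation.ReflTransGen.refl

theorem SQ_step {M : Fin 3 → Prop} (h : W ∈ SQ P Q M V) {z : Fin 3 × Bool} {A : Ct} (hz : M z.1)
    (hA : Lv W z A) (hP : PF P A) (hQ : QF Q z.1 A) : act (wh z A) W ∈ SQ P Q M V :=
  Relation.ReflTransGen.tail h ⟨z, A, hz, hA, hP, hQ, rfl⟩

theorem SQ_trans {M : Fin 3 → Prop} {U : CC} (h : V ∈ SQ P Q M U) (h' : W ∈ SQ P Q M V) :
    W ∈ SQ P Q M U :=
  Relation.ReflTransGen.trans h h'

private theorem RtB2_symm {M : Fin 3 → Prop} {V W : CC} (h : StQ P Q M V W) :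
    StQ P Q M W V := by
  obtain ⟨z, A, hz, hA, hP, hQ, rfl⟩ := h
  have h1 := Lv_inv hA
  have hf : ¬ P z.1 := Pw.PF_ne hP hA.1 hA.2.1
  refine ⟨bar z, _, hz, h1.1, Pw.PF_stc hf hP, ?_, h1.2.symm⟩
  intro i hi hiz
  have hiz' : i ≠ z.1 := hiz
  have h2 : ∀ b : Bool, ((i, b) : Fin 3 × Bool) ≠ z := by
    rintro b rfl
    exact hiz' rfl
  have h3 : ∀ b : Bool, ((i, b) : Fin 3 × Bool) ≠ bar z := by
    intro b hb
    apply hiz'
    have : (bar z).1 = i := by rw [← hb]
    exact this.symm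
  simp [h2, h3, hQ i hi hiz']

theorem SQ_symm {M : Fin 3 → Prop} (h : W ∈ SQ P Q M V) : V ∈ SQ P Q M W := by
  have h1 : Relation.ReflTransGen (StQ P Q M) V W := h
  change Relation.ReflTransGen (StQ P Q M) W V
  clear h
  induction h1 with
  | refl => exact Relation.ReflTransGen.refl
  | tail _ h3 ih => exact Relation.ReflTransGen.head (RtB2_symm h3) ih

theorem SQ_eq {M : Fin 3 → Prop} (h : W ∈ SQ P Q M V) : SQ P Q M W = SQ P Q M V := by
  ext U
  exact ⟨fun h' => SQ_trans h h', fun h' => SQ_trans (SQ_symm h) h'⟩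

theorem SQ_mono {M M' : Fin 3 → Prop} (hM : ∀ i, M i → M' i) (h : W ∈ SQ P Q M V) :
    W ∈ SQ P Q M' V := by
  refine Relation.ReflTransGen.mono ?_ _ _ h
  rintro x y ⟨z, A, hz, h⟩
  exact ⟨z, A, hM _ hz, h⟩

theorem SQ_cnt {M : Fin 3 → Prop} (h : W ∈ SQ P Q M V) (i : Fin 3) : cnt W i = cnt V i := by
  have h1 : Relation.ReflTransGen (StQ P Q M) V W := h
  clear h
  induction h1 with
  | refl => rfl
  | tail _ h3 ih =>
    obtain ⟨z, A, hz, hA, hP, hQ, rfl⟩ := h3
    rw [(Lv_Sm hA).2 i, ih]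

private theorem RtB2_inv (σ : SPerm (Fin 3)) (A : Ct) (i : Fin 3)
    (h : A (σ.perm.symm i, true) = A (σ.perm.symm i, false)) :
    A (σ.inv.letter (i, true)) = A (σ.inv.letter (i, false)) := by
  have h1 : ∀ b b' : Bool, A (σ.perm.symm i, b) = A (σ.perm.symm i, b') := by
    intro b b'
    cases b <;> cases b' <;> simp [h]
  exact h1 _ _

theorem SQ_SPerm {M M' : Fin 3 → Prop} {σ : SPerm (Fin 3)} (hP : ∀ i, P i ↔ P (σ.perm i))
    (hQ : ∀ i, Q (σ.perm i) = Q i) (hM : ∀ i, M i → M' (σ.perm i)) (h : W ∈ SQ P Q M V) :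
    act σ.aut W ∈ SQ P Q M' (act σ.aut V) := by
  have h1 : Relation.ReflTransGen (StQ P Q M) V W := h
  clear h
  induction h1 with
  | refl => exact SQ_refl M' _
  | tail _ h3 ih =>
    obtain ⟨z, A, hz, hA, hPA, hQA, rfl⟩ := h3
    have h4 := TwBasic_SPerm σ hA
    rw [← h4.2]
    refine SQ_step ih (by rw [letter_fst]; exact hM _ hz) h4.1 ?_ ?_
    · intro i hi
      apply RtB2_inv
      apply hPA
      rw [hP, Equiv.apply_symm_apply]
      exact hi
    · intro i hi hiz
      apply RtB2_inv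
      apply hQA
      · rw [← hQ, Equiv.apply_symm_apply]
        exact hi
      · intro hcon
        apply hiz
        rw [letter_fst, ← hcon, Equiv.apply_symm_apply]

theorem bq_SPerm {σ : SPerm (Fin 3)} (hP : ∀ i, P i ↔ P (σ.perm i))
    (hQ : ∀ i, Q (σ.perm i) = Q i) (B : BQ n P Q V) : BQ n P Q (act σ.aut V) := by
  have h1 : sq Q (act σ.aut V) = act σ.aut (sq Q V) := by
    unfold sq
    apply pw_SPerm
    intro i
    rw [hQ]
  refine ⟨?_, ?_, B.d⟩
  · rw [h1]
    exact Pw.Eq3_SPerm B.e σ hP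
  · intro j hj
    rw [capC_SPerm]
    have h2 : Q (σ.perm.symm j) = true := by
      rw [← hQ, Equiv.apply_symm_apply]
      exact hj
    rw [← B.t _ h2]
    apply capC_congr
    intro x
    unfold PrC
    rw [decide_eq_decide, letter_fst, Equiv.eq_symm_apply]

end Pool.Agent.Sims
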