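import Pool.Agent.Sims.RtBas

/-!
# Module `RtF1` : port of `EvF1`
-/

namespace Pool.Agent.Sims

namespace Pw

open FreeGroup (of)

variable {P : Fin 3 → Prop}

/-- the four corners of two crossing cuts of capacity `n` -/
theorem EvF1_caps {n : ℕ} {V : CC} (E : EqP n P V) {A B : Ct} (hA : NP n P V A) (hB : NP n P V B)
    (hX : Crossg A B) :
    capC V (fun x => A x && B x) = n ∧ capC V (fun x => A x && !B x) = n ∧
    capC V (fun x => !A x && B x) = n ∧ capC V (fun x => !A x && !B x) = n := by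
  obtain ⟨⟨x, h1, h2⟩, ⟨y, h3, h4⟩, ⟨z, h5, h6⟩, ⟨w, h7, h8⟩⟩ := hX
  have p1 : PrpP P (fun x => A x && B x) := ⟨⟨⟨x, by simp [h1, h2]⟩, ⟨w, by simp [h7]⟩⟩, PF_and hA.1.2 hB.1.2⟩
  have p2 : PrpP P (fun x => A x && !B x) := ⟨⟨⟨y, by simp [h3, h4]⟩, ⟨w, by simp [h7]⟩⟩, PF_andn hA.1.2 hB.1.2⟩
  have p3 : PrpP P (fun x => !A x && B x) := ⟨⟨⟨z, by simp [h5, h6]⟩, ⟨w, by simp [h8]⟩⟩, PF_nand hA.1.2 hB.1.2⟩
  have p4 : PrpP P (fun x => !A x && !B x) := ⟨⟨⟨w, by simp [h7, h8]⟩, ⟨x, by simp [h1]⟩⟩, PF_nn hA.1.2 hB.1.2⟩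
  have e4 : capC V (fun x => A x || B x) = capC V (fun x => !A x && !B x) := by
    rw [← capC_compl V (fun x => A x || B x)]
    apply capC_congr
    intro x
    cases A x <;> cases B x <;> rfl
  have l1 := E.low p1
  have l2 := E.low p2
  have l3 := E.low p3
  have l4 := E.low p4
  have s1 := capC_submod V A B
  have s2 := capC_submod' V A B
  rw [hA.2, hB.2] at s1 s2
  rw [e4] at s1
  omega

theorem f1 {n : ℕ} {V : CC} (E : EqP n P V) {A B : Ct} (hA : NP n P V A) (hB : NP n P V B)
    (hX : Crossg A B) :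
    NP n P V (fun x => A x && B x) ∧ NP n P V (fun x => A x && !B x) ∧
    NP n P V (fun x => !A x && B x) ∧ NP n P V (fun x => !A x && !B x) ∧
    NP n P V (fun x => A x || B x) := by
  obtain ⟨c1, c2, c3, c4⟩ := EvF1_caps E hA hB hX
  obtain ⟨⟨x, h1, h2⟩, ⟨y, h3, h4⟩, ⟨z, h5, h6⟩, ⟨w, h7, h8⟩⟩ := hX
  have p4 : NP n P V (fun x => !A x && !B x) :=
    ⟨⟨⟨⟨w, by simp [h7, h8]⟩, ⟨x, by simp [h1]⟩⟩, PF_nn hA.1.2 hB.1.2⟩, c4⟩
  refine ⟨⟨⟨⟨⟨x, by simp [h1, h2]⟩, ⟨w, by simp [h7]⟩⟩, PF_and hA.1.2 hB.1.2⟩, c1⟩,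
    ⟨⟨⟨⟨y, by simp [h3, h4]⟩, ⟨w, by simp [h7]⟩⟩, PF_andn hA.1.2 hB.1.2⟩, c2⟩,
    ⟨⟨⟨⟨z, by simp [h5, h6]⟩, ⟨w, by simp [h8]⟩⟩, PF_nand hA.1.2 hB.1.2⟩, c3⟩, p4, ?_⟩
  apply NC_congr (NC_compl p4)
  intro x
  cases A x <;> cases B x <;> rfl

theorem f1e {n : ℕ} {V : CC} (E : EqP n P V) {A B : Ct} (hA : NP n P V A) (hB : NP n P V B)
    (hX : Crossg A B) :
    edgS V (fun x => A x && B x) (fun x => !A x && !B x) = 0 ∧
    edgS V (fun x => A x && !B x) (fun x => !A x && B x) = 0 ∧
    2 * edgS V (fun x => A x && B x) (fun x => A x && !B x) = n ∧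
    2 * edgS V (fun x => A x && B x) (fun x => !A x && B x) = n ∧
    2 * edgS V (fun x => A x && !B x) (fun x => !A x && !B x) = n ∧
    2 * edgS V (fun x => !A x && B x) (fun x => !A x && !B x) = n := by
  obtain ⟨c1, c2, c3, c4⟩ := EvF1_caps E hA hB hX
  have cA := hA.2
  have cB := hB.2
  have cA' := capC_compl V A
  have cB' := capC_compl V B
  have u12 := capC_union V (fun x => A x && B x) (fun x => A x && !B x)
    (by intro x; cases A x <;> cases B x <;> decide)
  have u13 := capC_union V (fun x => A x && B x) (fun x => !A x && B x)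
    (by intro x; cases A x <;> cases B x <;> decide)
  have u24 := capC_union V (fun x => A x && !B x) (fun x => !A x && !B x)
    (by intro x; cases A x <;> cases B x <;> decide)
  have u34 := capC_union V (fun x => !A x && B x) (fun x => !A x && !B x)
    (by intro x; cases A x <;> cases B x <;> decide)
  have e12 : (fun x => (A x && B x) || (A x && !B x)) = A := by
    funext x; cases A x <;> cases B x <;> rfl
  have e13 : (fun x => (A x && B x) || (!A x && B x)) = B := by
    funext x; cases A x <;> cases B x <;> rfl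
  have e24 : (fun x => (A x && !B x) || (!A x && !B x)) = fun x => !B x := by
    funext x; cases A x <;> cases B x <;> rfl
  have e34 : (fun x => (!A x && B x) || (!A x && !B x)) = fun x => !A x := by
    funext x; cases A x <;> cases B x <;> rfl
  beta_reduce at u12 u13 u24 u34
  rw [e12] at u12
  rw [e13] at u13
  rw [e24] at u24
  rw [e34] at u34
  -- capacity of the first corner
  have k1 := capC_edgS V (fun x => A x && B x)
  rw [edgS_split V A (by intro x; cases A x <;> cases B x <;> decide)] at k1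
  have k1a : edgS V (fun x => A x && B x) (fun x => !(A x && B x) && A x) =
      edgS V (fun x => A x && B x) (fun x => A x && !B x) := by
    apply edgS_congr V (fun _ => rfl)
    intro x; cases A x <;> cases B x <;> rfl
  have k1b : edgS V (fun x => A x && B x) (fun x => !(A x && B x) && !A x) =
      edgS V (fun x => A x && B x) (fun x => !A x && B x) +
      edgS V (fun x => A x && B x) (fun x => !A x && !B x) := by
    rw [edgS_split V B (by intro x; cases A x <;> cases B x <;> decide)]
    congr 1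
    · apply edgS_congr V (fun _ => rfl)
      intro x; cases A x <;> cases B x <;> rfl
    · apply edgS_congr V (fun _ => rfl)
      intro x; cases A x <;> cases B x <;> rfl
  rw [k1a, k1b] at k1
  -- capacity of the second corner
  have k2 := capC_edgS V (fun x => A x && !B x)
  rw [edgS_split V A (by intro x; cases A x <;> cases B x <;> decide)] at k2
  have k2a : edgS V (fun x => A x && !B x) (fun x => !(A x && !B x) && A x) =
      edgS V (fun x => A x && B x) (fun x => A x && !B x) := by
    rw [edgS_comm]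
    apply edgS_congr V _ (fun _ => rfl)
    intro x; cases A x <;> cases B x <;> rfl
  have k2b : edgS V (fun x => A x && !B x) (fun x => !(A x && !B x) && !A x) =
      edgS V (fun x => A x && !B x) (fun x => !A x && B x) +
      edgS V (fun x => A x && !B x) (fun x => !A x && !B x) := by
    rw [edgS_split V B (by intro x; cases A x <;> cases B x <;> decide)]
    congr 1
    · apply edgS_congr V (fun _ => rfl)
      intro x; cases A x <;> cases B x <;> rfl
    · apply edgS_congr V (fun _ => rfl)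
      intro x; cases A x <;> cases B x <;> rfl
  rw [k2a, k2b] at k2
  omega

end Pw

end Pool.Agent.Sims
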