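import Pool.Agent.Sims.RtCL
import Pool.Agent.Sims.RtF1
import Pool.Agent.Sims.RtPot

/-!
# Module `RtLem2` : port of `EvLem2`
-/

namespace Pool.Agent.Sims

namespace Pw

open FreeGroup (of)

variable {P : Fin 3 → Prop}

set_option linter.unusedVariables false

set_option linter.unusedSimpArgs false

theorem PQ_ind {A : Ct} (h : PF P A) : PQ P (ind A) := by
  intro i hi
  unfold ind
  rw [h i hi]

theorem PQ_add {p q : Fin 3 × Bool → ℤ} (h : PQ P p) (h' : PQ P q) : PQ P (p + q) := by
  intro i hi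
  simp only [Pi.add_apply, h i hi, h' i hi]

theorem PQ_sub {p q : Fin 3 × Bool → ℤ} (h : PQ P p) (h' : PQ P q) : PQ P (p - q) := by
  intro i hi
  simp only [Pi.sub_apply, h i hi, h' i hi]

theorem PQ_smul {p : Fin 3 × Bool → ℤ} (h : PQ P p) (k : ℤ) : PQ P (fun x => k * p x) := by
  intro i hi
  simp only [h i hi]

theorem RtLem2_up {j : Fin 3} (hj : ¬ P j) {X : Ct} (hX : PF P X) : PF P (EvLem2_up j X) := by
  intro i hi
  have h1 : i ≠ j := by
    rintro rfl
    exact hj hi
  simp [EvLem2_up, rs, h1, hX i hi]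

theorem RtLem2_dn {j : Fin 3} (hj : ¬ P j) {X : Ct} (hX : PF P X) : PF P (EvLem2_dn j X) := by
  intro i hi
  have h1 : i ≠ j := by
    rintro rfl
    exact hj hi
  simp [EvLem2_dn, rs, h1, hX i hi]

theorem EvLem2_NCup {n : ℕ} {V : CC} (E : EqP n P V) {j : Fin 3} (hj : ¬ P j) {X : Ct} (hX : PF P X)
    (h : cnt (act (pot j (ind X)) V) j = n) : NP n P V (EvLem2_up j X) := by
  have h0 : act (pot j (ind (EvLem2_up j X))) V = act (pot j (ind X)) V := by
    apply pot_congr
    intro x hx
    apply EvLem2_ind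
    have h1 : x ≠ (j, true) := fun h => hx (by rw [h])
    simp [EvLem2_up, rs, h1, hx]
  have h1 : LP P V (j, true) (EvLem2_up j X) := by
    apply pot_Lv E hj
    · simp [EvLem2_up]
    · simp [EvLem2_up, rs]
    · exact RtLem2_up hj hX
    · rw [h0, h]
  exact ((Lv_NC E).1 h1).2.2

theorem EvLem2_NCdn {n : ℕ} {V : CC} (E : EqP n P V) {j : Fin 3} (hj : ¬ P j) {X : Ct} (hX : PF P X)
    (h : cnt (act (pot j (fun x => - ind X x)) V) j = n) : NP n P V (EvLem2_dn j X) := by
  have h0 : act (pot j (ind (fun x => !(EvLem2_dn j X x)))) V =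
      act (pot j (fun x => - ind X x)) V := by
    apply pot_const 1
    intro x hx
    have h1 : x ≠ (j, false) := fun h => hx (by rw [h])
    have h2 : (EvLem2_dn j X x) = X x := by simp [EvLem2_dn, rs, h1, hx]
    simp only [ind, h2]
    cases X x <;> simp
  have h1 : LP P V (j, true) (fun x => !(EvLem2_dn j X x)) := by
    apply pot_Lv E hj
    · simp [EvLem2_dn, rs]
    · simp [EvLem2_dn]
    · exact PF_compl (RtLem2_dn hj hX)
    · rw [h0, h]
  exact NC_congr (NC_compl ((Lv_NC E).1 h1).2.2) (fun x => by simp)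

/-- the crossing of the cuts given by adding `1_U` and subtracting `1_D` -/
theorem EvLem2_cross {n : ℕ} {V : CC} (E : EqP n P V) {j : Fin 3} (hj : ¬ P j) {U D : Ct}
    (hPU : PF P U) (hPD : PF P D)
    (hU : cnt (act (pot j (ind U)) V) j = n)
    (hD : cnt (act (pot j (fun x => - ind D x)) V) j = n)
    (h1 : ∃ x : Fin 3 × Bool, x.1 ≠ j ∧ U x = true ∧ D x = true)
    (h2 : ∃ x : Fin 3 × Bool, x.1 ≠ j ∧ U x = false ∧ D x = false) :
    edgS V (sgl (j, true)) (sgl (j, false)) = 0 ∧
    edgS V (rs j (fun x => U x && D x)) (rs j (fun x => !U x && !D x)) = 0 ∧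
    2 * edgS V (rs j (fun x => U x && D x))
      (fun x => sgl (j, true) x || rs j (fun x => U x && !D x) x) = n := by
  have a1 := EvLem2_NCup E hj hPU hU
  have a2 := EvLem2_NCdn E hj hPD hD
  obtain ⟨x, x0, x1, x2⟩ := h1
  obtain ⟨y, y0, y1, y2⟩ := h2
  have x3 : x ≠ (j, true) := fun h => x0 (by rw [h])
  have x4 : x ≠ (j, false) := fun h => x0 (by rw [h])
  have y3 : y ≠ (j, true) := fun h => y0 (by rw [h])
  have y4 : y ≠ (j, false) := fun h => y0 (by rw [h])
  have hX : Crossg (EvLem2_up j U) (EvLem2_dn j D) := by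
    refine ⟨⟨x, ?_, ?_⟩, ⟨(j, true), ?_, ?_⟩, ⟨(j, false), ?_, ?_⟩, ⟨y, ?_, ?_⟩⟩
    · simp [EvLem2_up, rs, x0, x1]
    · simp [EvLem2_dn, rs, x0, x2]
    · simp [EvLem2_up]
    · simp [EvLem2_dn, rs]
    · simp [EvLem2_up, rs]
    · simp [EvLem2_dn]
    · simp [EvLem2_up, y1, y3, rs]
    · simp [EvLem2_dn, y2, y4, rs]
  obtain ⟨f1, f2, f3, -, -, -⟩ := f1e E a1 a2 hX
  have up : ∀ z, EvLem2_up j U z = (decide (z = (j, true)) || (U z && decide (z.1 ≠ j))) :=
    fun z => rfl
  have dn : ∀ z, EvLem2_dn j D z = (decide (z = (j, false)) || (D z && decide (z.1 ≠ j))) :=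
    fun z => rfl
  have hk : ∀ z : Fin 3 × Bool, z = (j, true) ∨ z = (j, false) ∨ z.1 ≠ j := by
    rintro ⟨i, b⟩
    by_cases hi : i = j
    · subst hi
      cases b
      · right; left; rfl
      · left; rfl
    · right; right; exact hi
  refine ⟨?_, ?_, ?_⟩
  · refine Nat.eq_zero_of_le_zero ((edgS_mono V ?_ ?_).trans f2.le)
    · intro z hz
      have hz' : z = (j, true) := by simpa [sgl] using hz
      subst hz'
      simp [up, dn]
    · intro z hz
      have hz' : z = (j, false) := by simpa [sgl] using hz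
      subst hz'
      simp [up, dn]
  · refine Nat.eq_zero_of_le_zero ((edgS_mono V ?_ ?_).trans f1.le)
    · intro z hz
      simp only [rs, Bool.and_eq_true, decide_eq_true_eq] at hz
      simp [up, dn, hz]
    · intro z hz
      simp only [rs, Bool.and_eq_true, decide_eq_true_eq] at hz
      have z3 : z ≠ (j, true) := fun h => hz.2 (by rw [h])
      have z4 : z ≠ (j, false) := fun h => hz.2 (by rw [h])
      have z5 : U z = false := by simpa using hz.1.1
      have z6 : D z = false := by simpa using hz.1.2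
      simp [up, dn, z3, z4, z5, z6]
  · rw [← f3]
    congr 1
    apply edgS_congr
    · intro z
      rcases hk z with rfl | rfl | hz
      · simp [up, dn, rs]
      · simp [up, dn, rs]
      · have z3 : z ≠ (j, true) := fun h => hz (by rw [h])
        have z4 : z ≠ (j, false) := fun h => hz (by rw [h])
        simp [up, dn, rs, z3, z4, hz]
    · intro z
      rcases hk z with rfl | rfl | hz
      · simp [up, dn, rs, sgl]
      · simp [up, dn, rs, sgl]
      · have z3 : z ≠ (j, true) := fun h => hz (by rw [h])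
        have z4 : z ≠ (j, false) := fun h => hz (by rw [h])
        simp [up, dn, rs, sgl, z3, z4, hz]

/-- the potentials with the same count -/
theorem EvLem2_Eq3 {n : ℕ} {V : CC} (E : EqP n P V) {j : Fin 3} (hj : ¬ P j) {p : Fin 3 × Bool → ℤ}
    (hp : PQ P p)
    (h : cnt (act (pot j p) V) j = n) : EqP n P (act (pot j p) V) :=
  pot_EqP E hj hp h

/-- comparison of three points on a line -/
theorem EvLem2_at {n : ℕ} {V : CC} (E : EqP n P V) {j : Fin 3} (hj : ¬ P j) {p : Fin 3 × Bool → ℤ}
    (hp : PQ P p)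
    {U D : Ct} (hPU : PF P U) (hPD : PF P D) (h : cnt (act (pot j p) V) j = n)
    (hU : cnt (act (pot j (p + ind U)) V) j = n) (hD : cnt (act (pot j (p - ind D)) V) j = n)
    (h1 : ∃ x : Fin 3 × Bool, x.1 ≠ j ∧ U x = true ∧ D x = true)
    (h2 : ∃ x : Fin 3 × Bool, x.1 ≠ j ∧ U x = false ∧ D x = false) :
    edgS (act (pot j p) V) (sgl (j, true)) (sgl (j, false)) = 0 ∧
    edgS (act (pot j p) V) (rs j (fun x => U x && D x)) (rs j (fun x => !U x && !D x)) = 0 ∧
    2 * edgS (act (pot j p) V) (rs j (fun x => U x && D x))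
      (fun x => sgl (j, true) x || rs j (fun x => U x && !D x) x) = n := by
  apply EvLem2_cross (EvLem2_Eq3 E hj hp h) hj hPU hPD _ _ h1 h2
  · rw [pot_add, add_comm]
    exact hU
  · rw [pot_add]
    have e : (fun x => - ind D x) + p = p - ind D := by
      funext x
      simp only [Pi.add_apply, Pi.sub_apply]
      ring
    rw [e]
    exact hD

theorem lemS2 {n : ℕ} {V : CC} (E : EqP n P V) {j : Fin 3} (hj : ¬ P j) {X : Ct} (hX : PF P X)
    (h1 : ∃ x : Fin 3 × Bool, x.1 ≠ j ∧ X x = true) (h2 : ∃ x : Fin 3 × Bool, x.1 ≠ j ∧ X x = false)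
    (hn : cnt (act (pot j (fun x => 2 * ind X x)) V) j = n)
    (he : edgS V (sgl (j, true)) (sgl (j, false)) = 0) : Clo j V X := by
  rcases WhEff_cases j V with ⟨k, rfl⟩ | ⟨s, -, hs, rfl⟩
  · intro p
    rw [act_pot_pow, act_pot_pow]
  · have hind : ∀ x, ind X x = 0 ∨ ind X x = 1 := by
      intro x
      unfold ind
      cases X x <;> simp
    have hc : cnt (cls (expand j s)) j = n := E.c j hj
    have hX1 : cnt (act (pot j (ind X)) (cls (expand j s))) j = n := by
      have := (pot_split E hj (q := fun x => 2 * ind X x) (PQ_smul (PQ_ind hX) 2) hn 1).2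
      rw [← this]
      congr 2
      congr 1
      funext x
      rcases hind x with h | h <;> rw [h] <;> simp
    obtain ⟨x, x0, x1⟩ := h1
    obtain ⟨y, y0, y1⟩ := h2
    obtain ⟨g1, g2, -⟩ := EvLem2_at E hj (p := ind X) (PQ_ind hX) (U := X) (D := X) hX hX
      hX1 (by
      rw [← hn]
      congr 2
      congr 1
      funext x
      simp only [Pi.add_apply]
      ring) (by
      rw [sub_self, pot_zero, hc]) ⟨x, x0, x1, x1⟩ ⟨y, y0, y1, y1⟩
    -- the counts
    have c0 : cyc (fun a b : (Fin 3 × Bool) × ℤ => a.2.natAbs) s = n := by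
      rw [cyc_fst (fun a : (Fin 3 × Bool) × ℤ => a.2.natAbs), ← cntL_expand_self j s hs.1,
        ← cnt_cls hs.2, hc]
    have c1 : cyc (fun a b : (Fin 3 × Bool) × ℤ =>
        (a.2 + ind X a.1 - ind X (bar b.1)).natAbs) s = n := by
      rw [← hX1, act_pot j _ s hs.1, cnt_cls (SValid_shift j _ s hs).2,
        cntL_expand_self _ _ (SValid_shift j _ s hs).1, sum_shift]
    have e0 := EvLem2_jj hs 0
    rw [pot_zero, he] at e0
    have e1 := EvLem2_jj hs (ind X)
    rw [g1] at e1
    have e2 := EvLem2_rs hs (ind X) (fun x => X x && X x) (fun x => !X x && !X x)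
    rw [g2] at e2
    have hsum : cyc (fun a b : (Fin 3 × Bool) × ℤ =>
        ((a.2 + (0 : Fin 3 × Bool → ℤ) a.1 - (0 : Fin 3 × Bool → ℤ) (bar b.1)).natAbs - 1) +
        (((a.2 + ind X a.1 - ind X (bar b.1)).natAbs - 1) +
        (if a.2 + ind X a.1 - ind X (bar b.1) = 0 ∧
          (((X a.1 && X a.1) && (!X (bar b.1) && !X (bar b.1))) ||
            ((!X a.1 && !X a.1) && (X (bar b.1) && X (bar b.1)))) = true then 1 else 0))) s = 0 := by
      rw [cyc_add, cyc_add, ← e0, ← e1, ← e2]
    have key := EvLem2_cyc (f := fun a b : (Fin 3 × Bool) × ℤ =>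
        (a.2 + ind X a.1 - ind X (bar b.1)).natAbs)
      (h := fun a b : (Fin 3 × Bool) × ℤ => a.2.natAbs + (if X a.1 = X (bar b.1) then 0 else 1))
      s hsum (by
      intro a _ b _ hab
      simp only [Pi.zero_apply] at hab
      unfold ind at hab ⊢
      cases hXa : X a.1 <;> cases hXb : X (bar b.1) <;>
        simp only [hXa, hXb, Bool.not_true, Bool.not_false, Bool.and_self, Bool.and_true,
          Bool.true_and, Bool.false_and, Bool.and_false, Bool.or_self, Bool.or_true,
          Bool.or_false, Bool.false_or, and_true, and_false, if_true, if_false,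
          Bool.false_eq_true, Bool.true_eq_false, reduceCtorEq] at hab ⊢
      · omega
      · split_ifs at hab <;> omega
      · split_ifs at hab <;> omega
      · omega)
    rw [cyc_add, c0, c1] at key
    refine clo_of_nox (s := s) (fun q => act_pot j q s hs.1) ?_
    unfold NoX
    omega

end Pw

end Pool.Agent.Sims
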