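import Pool.Agent.Sims.RtLem2
import Pool.Agent.Sims.RtLem3
import Pool.Agent.Sims.RtPot

/-!
# Module `RtLem` : port of `EvLem`
-/

namespace Pool.Agent.Sims

namespace Pw

open FreeGroup (of)

variable {P : Fin 3 → Prop}

set_option linter.unusedVariables false

set_option linter.unusedSimpArgs false

theorem RtLem_pf {q : Fin 3 × Bool → ℤ} (hq : PQ P q) (k : ℤ) : PF P (fun x => decide (k ≤ q x)) := by
  intro i hi
  simp [hq i hi]

theorem EvLem_le {n : ℕ} {V : CC} (E : EqP n P V) {j : Fin 3} (hj : ¬ P j) {q : Fin 3 × Bool → ℤ}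
    (hqP : PQ P q)
    (hq : ∀ x, 0 ≤ q x)
    (hmin : ∀ X, PF P X → Clo j V X → (∃ x : Fin 3 × Bool, x.1 ≠ j ∧ X x = true) →
      ∃ x : Fin 3 × Bool, x.1 ≠ j ∧ X x = true ∧ q x = 0)
    (hn : cnt (act (pot j q) V) j = n) (x0 : Fin 3 × Bool) (hx0 : x0.1 ≠ j) : q x0 ≤ 2 := by
  by_contra hcon
  obtain ⟨v, v0, -, v1⟩ := hmin _ (fun _ _ => rfl) (clo_all j V) ⟨x0, hx0, rfl⟩
  have h3 := (pot_split E hj hqP hn 3).2
  have hcl : Clo j V (fun x => decide (2 ≤ q x)) := by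
    refine lemS3 E hj (X1 := fun x => decide (1 ≤ q x)) (X2 := fun x => decide (2 ≤ q x))
      (X3 := fun x => decide (3 ≤ q x)) (RtLem_pf hqP 1) (RtLem_pf hqP 2) (RtLem_pf hqP 3) ?_ ?_ ⟨x0, hx0, ?_⟩ ⟨v, v0, ?_⟩ ?_
    · intro x hx
      simp only [decide_eq_true_eq] at hx ⊢
      omega
    · intro x hx
      simp only [decide_eq_true_eq] at hx ⊢
      omega
    · simp only [decide_eq_true_eq]
      omega
    · simp only [decide_eq_false_iff_not]
      omega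
    · rw [← h3]
      congr 2
      congr 1
      funext x
      simp only [Pi.add_apply, EvLem_ind]
      have := hq x
      split_ifs <;> omega
  obtain ⟨w, -, w1, w2⟩ := hmin _ (RtLem_pf hqP 2) hcl ⟨x0, hx0, by
    simp only [decide_eq_true_eq]
    omega⟩
  simp only [decide_eq_true_eq] at w1
  omega

theorem lemS {n : ℕ} {V : CC} (E : EqP n P V) {j : Fin 3} (hj : ¬ P j) {q : Fin 3 × Bool → ℤ}
    (hqP : PQ P q)
    (hq : ∀ x, 0 ≤ q x)
    (hmin : ∀ X, PF P X → Clo j V X → (∃ x : Fin 3 × Bool, x.1 ≠ j ∧ X x = true) →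
      ∃ x : Fin 3 × Bool, x.1 ≠ j ∧ X x = true ∧ q x = 0)
    (hn : cnt (act (pot j q) V) j = n) :
    (∀ x : Fin 3 × Bool, x.1 ≠ j → q x ≤ 2) ∧
    ((∀ x : Fin 3 × Bool, x.1 ≠ j → q x ≠ 1) → (∃ x : Fin 3 × Bool, x.1 ≠ j ∧ q x ≠ 0) →
      0 < edgS V (sgl (j, true)) (sgl (j, false))) := by
  refine ⟨EvLem_le E hj hqP hq hmin hn, ?_⟩
  rintro h1 ⟨x0, hx0, hx0'⟩
  by_contra hcon
  obtain ⟨v, v0, -, v1⟩ := hmin _ (fun _ _ => rfl) (clo_all j V) ⟨x0, hx0, rfl⟩
  have hx1 : 1 ≤ q x0 := by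
    have := hq x0
    omega
  have hcl : Clo j V (fun x => decide (1 ≤ q x)) := by
    refine lemS2 E hj (X := fun x => decide (1 ≤ q x)) (RtLem_pf hqP 1) ⟨x0, hx0, ?_⟩ ⟨v, v0, ?_⟩ ?_ (by omega)
    · simp only [decide_eq_true_eq]
      exact hx1
    · simp only [decide_eq_false_iff_not]
      omega
    · rw [← hn]
      congr 1
      apply pot_congr
      intro x hx
      simp only [EvLem_ind]
      have h2 := hq x
      have h3 := EvLem_le E hj hqP hq hmin hn x hx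
      have h4 := h1 x hx
      split_ifs <;> omega
  obtain ⟨w, -, w1, w2⟩ := hmin _ (RtLem_pf hqP 1) hcl ⟨x0, hx0, by
    simp only [decide_eq_true_eq]
    exact hx1⟩
  simp only [decide_eq_true_eq] at w1
  omega

end Pw

end Pool.Agent.Sims
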