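import Pool.Agent.Sims.RtDef2
import Pool.Agent.Sims.RtLS
import Pool.Agent.Sims.RtRep

/-!
# Module `RtC1` : at most four level `z`-cuts, at most nine classes in `EP P2 (· = j)`

World `P2`, `z` a light letter, `y, y⁻¹` the other two light letters (`y.1 ≠ z.1`, `y.1 ≠ 2`), `T = {c, c⁻¹}`.  A nontrivial `P2`-fixed level `z`-cut is `{z} ∪ X`, `X` a nonempty proper subset of the three blocks `{y}, {y⁻¹}, T`.
* `ls4`: not all three cuts `{z,y}`, `{z,y⁻¹}`, `{z} ∪ T` are level: otherwise `2 e(z,y) = n`, `2 e(z,y⁻¹) = n` (`cap2`), `2 e(z,T) = capC V (PrC 2) + n - n ≥ n` (`capC_union`, `E.low` for `PrC 2`), and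
  `e(z,y) + e(z,y⁻¹) + e(z,T) ≤ capC V {z} = n`: `3n/2 ≤ n`.  Not all three cuts with two blocks are level: the complements are the cuts `{z⁻¹} ∪` (one block), same argument for `z⁻¹` (`Pw.Lv_compl`).  So at most `2 + 2` members.
* `em9`: `Pw.rep2`: `W = act (pot j (ind A₁ + ind A₂)) V`, `A₂ ⊆ A₁` level `(j, true)`-cuts.  Let `S` be the set of the nontrivial ones, `s₁ ≤ 2` of them with one block, `s₂ ≤ 2` with two blocks.
  A trivial level cut acts trivially (`ind A = 0` or `= 1` on the letters `≠ x_j^{±1}`: `pot_const`, `pot_congr`).  If `A₁` or `A₂` is trivial: `W = V` or `W = act (wh (j, true) A) V` with `A ∈ S`: `1 + 4` classes.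
  If both are nontrivial and `A₁ ≠ A₂`: `A₂` has one block, `A₁` has two blocks: at most `2 · 2` classes.  If `A₁ = A₂` is nontrivial then `0 < e(c, c⁻¹)` for `c = (j, true)`, so by `Pw.ls_cross0` any two members of `S` are comparable,
  `s₁, s₂ ≤ 1`, and the total number is at most `1 + 2 + 1 + 2 = 6 ≤ 9`.  In both cases the cover has at most `9` elements.
Difficulty 3.
-/

namespace Pool.Agent.Sims

namespace Pw

/-- the code of a `z`-cut: its values at `y`, `y⁻¹`, `c` -/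
def RtC1_T (y : Fin 3 × Bool) (A : Ct) : Bool × Bool × Bool := (A y, A (bar y), A (2, true))

/-- the number of the blocks -/
def RtC1_pc (c : Bool × Bool × Bool) : ℕ := c.1.toNat + c.2.1.toNat + c.2.2.toNat

theorem RtC1_six : ∀ z y x : Fin 3 × Bool, z.1 ≠ 2 → y.1 ≠ 2 → y.1 ≠ z.1 →
    x = z ∨ x = bar z ∨ x = y ∨ x = bar y ∨ x = (2, true) ∨ x = (2, false) := by
  decide

theorem RtC1_ext {z y : Fin 3 × Bool} (hz : z.1 ≠ 2) (hy : y.1 ≠ 2) (hzy : y.1 ≠ z.1) {A B : Ct}
    (hA : A z = true) (hA' : A (bar z) = false) (hPA : PF P2 A) (hB : B z = true)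
    (hB' : B (bar z) = false) (hPB : PF P2 B) (h : RtC1_T y A = RtC1_T y B) : A = B := by
  have h1 : A y = B y := congrArg Prod.fst h
  have h2 : A (bar y) = B (bar y) := congrArg (fun t => t.2.1) h
  have h3 : A (2, true) = B (2, true) := congrArg (fun t => t.2.2) h
  have h4 : A (2, false) = B (2, false) := by
    rw [← hPA 2 rfl, ← hPB 2 rfl]
    exact h3
  funext x
  rcases RtC1_six z y x hz hy hzy with e | e | e | e | e | e
  · rw [e, hA, hB]
  · rw [e, hA', hB']
  · rw [e, h1]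
  · rw [e, h2]
  · rw [e, h3]
  · rw [e, h4]

theorem RtC1_barne (z : Fin 3 × Bool) : bar z ≠ z := by
  intro h
  have := congrArg Prod.snd h
  simp [bar] at this

theorem RtC1_bb (z : Fin 3 × Bool) : bar (bar z) = z := by
  rcases z with ⟨i, b⟩
  simp [bar]

theorem RtC1_ntr {z y : Fin 3 × Bool} (hz : z.1 ≠ 2) (hy : y.1 ≠ 2) (hzy : y.1 ≠ z.1) {A : Ct}
    (hA : A z = true) (hA' : A (bar z) = false) (hPA : PF P2 A) (hn : Ntr A) :
    RtC1_pc (RtC1_T y A) = 1 ∨ RtC1_pc (RtC1_T y A) = 2 := by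
  have h4 : A (2, true) = A (2, false) := hPA 2 rfl
  have h0 : ¬ (A y = false ∧ A (bar y) = false ∧ A (2, true) = false) := by
    rintro ⟨h1, h2, h3⟩
    obtain ⟨⟨u, v, huv, hu, hv⟩, -⟩ := hn
    have key : ∀ x, A x = true → x = z := by
      intro x hx
      rcases RtC1_six z y x hz hy hzy with e | e | e | e | e | e
      · exact e
      · rw [e, hA'] at hx; exact absurd hx (by decide)
      · rw [e, h1] at hx; exact absurd hx (by decide)
      · rw [e, h2] at hx; exact absurd hx (by decide)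
      · rw [e, h3] at hx; exact absurd hx (by decide)
      · rw [e, ← h4, h3] at hx; exact absurd hx (by decide)
    exact huv ((key u hu).trans (key v hv).symm)
  have h7 : ¬ (A y = true ∧ A (bar y) = true ∧ A (2, true) = true) := by
    rintro ⟨h1, h2, h3⟩
    obtain ⟨-, ⟨u, v, huv, hu, hv⟩⟩ := hn
    have key : ∀ x, A x = false → x = bar z := by
      intro x hx
      rcases RtC1_six z y x hz hy hzy with e | e | e | e | e | e
      · rw [e, hA] at hx; exact absurd hx (by decide)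
      · exact e
      · rw [e, h1] at hx; exact absurd hx (by decide)
      · rw [e, h2] at hx; exact absurd hx (by decide)
      · rw [e, h3] at hx; exact absurd hx (by decide)
      · rw [e, ← h4, h3] at hx; exact absurd hx (by decide)
    exact huv ((key u hu).trans (key v hv).symm)
  revert h0 h7
  simp only [RtC1_T, RtC1_pc]
  generalize A y = a
  generalize A (bar y) = b
  generalize A (2, true) = c
  revert a b c
  decide

/-- a trivial `z`-cut is constant on the other letters -/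
theorem RtC1_triv {z y : Fin 3 × Bool} (hz : z.1 ≠ 2) (hy : y.1 ≠ 2) (hzy : y.1 ≠ z.1) {A : Ct}
    (hA : A z = true) (hA' : A (bar z) = false) (hPA : PF P2 A) (hn : ¬ Ntr A) :
    ∃ t : Bool, ∀ x, x.1 ≠ z.1 → A x = t := by
  have h4 : A (2, true) = A (2, false) := hPA 2 rfl
  have hyz : y ≠ z := fun h => hzy (by rw [h])
  have hbyz : bar y ≠ z := fun h => hzy (by rw [← h]; rfl)
  have hcz : ((2, true) : Fin 3 × Bool) ≠ z := fun h => hz (by rw [← h])
  have hyz' : y ≠ bar z := fun h => hzy (by rw [h]; rfl)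
  have hbyz' : bar y ≠ bar z := fun h => hzy (by
    have := congrArg Prod.fst h
    exact this)
  have hcz' : ((2, true) : Fin 3 × Bool) ≠ bar z := fun h => hz (by
    have := congrArg Prod.fst h
    exact this.symm)
  have key : ∀ u v : Fin 3 × Bool, u ≠ z → u ≠ bar z → v ≠ z → v ≠ bar z → A u = true →
      A v = false → False := by
    intro u v hu _ _ hv' h1 h2
    exact hn ⟨⟨u, z, hu, h1, hA⟩, ⟨v, bar z, hv', h2, hA'⟩⟩
  have h5 : A y = A (bar y) := by
    cases h1 : A y <;> cases h2 : A (bar y)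
    · rfl
    · exact (key _ _ hbyz hbyz' hyz hyz' h2 h1).elim
    · exact (key _ _ hyz hyz' hbyz hbyz' h1 h2).elim
    · rfl
  have h6 : A y = A (2, true) := by
    cases h1 : A y <;> cases h2 : A (2, true)
    · rfl
    · exact (key _ _ hcz hcz' hyz hyz' h2 h1).elim
    · exact (key _ _ hyz hyz' hcz hcz' h1 h2).elim
    · rfl
  refine ⟨A y, fun x hx => ?_⟩
  rcases RtC1_six z y x hz hy hzy with e | e | e | e | e | e
  · exact absurd (by rw [e]) hx
  · exact absurd (by rw [e]; rfl) hx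
  · rw [e]
  · rw [e, h5]
  · rw [e, h6]
  · rw [e, ← h4, h6]

theorem RtC1_three {n : ℕ} {V : CC} (E : EqP n P2 V) {z y : Fin 3 × Bool} (hz : z.1 ≠ 2)
    (hy : y.1 ≠ 2) (hzy : y.1 ≠ z.1) (h1 : LP P2 V z (pr z y)) (h2 : LP P2 V z (pr z (bar y)))
    (h3 : LP P2 V z (fun x => sgl z x || PrC 2 x)) : False := by
  have hcz : cnt V z.1 = n := E.c _ hz
  have hcy : cnt V y.1 = n := E.c _ hy
  have hne : z ≠ y := fun h => hzy (by rw [h])
  have hne' : z ≠ bar y := fun h => hzy (by rw [h]; rfl)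
  have hyy : bar y ≠ y := RtC1_barne y
  have e1 := cap2 (V := V) (u := z) (v := y) hcz hcy hne
  have e2 := cap2 (V := V) (u := z) (v := bar y) hcz hcy hne'
  have c1 := h1.2.2.1
  have c2 := h2.2.2.1
  have c3 := h3.2.2.1
  have d3 : ∀ x, sgl z x = true → PrC 2 x = false := by
    intro x hx
    simp only [sgl, decide_eq_true_eq] at hx
    simp only [PrC, decide_eq_false_iff_not]
    rw [hx]
    exact hz
  have e3 := capC_union V (sgl z) (PrC 2) d3
  have e4 : capC V (sgl z) = cnt V z.1 := capC_sgl V z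
  have e5 : n ≤ capC V (PrC 2) := by
    apply E.low
    refine ⟨⟨⟨(2, true), by simp [PrC]⟩, ⟨z, by simp [PrC, hz]⟩⟩, ?_⟩
    intro i _
    simp [PrC]
  have e6 : edgS V (sgl z) (fun x => sgl y x || (sgl (bar y) x || PrC 2 x)) =
      edgS V (sgl z) (sgl y) + edgS V (sgl z) (fun x => sgl (bar y) x || PrC 2 x) := by
    apply edgS_union
    · intro x hx
      simp only [sgl, decide_eq_true_eq] at hx
      simp only [sgl, decide_eq_false_iff_not]
      rw [hx]
      exact hne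
    · intro x hx
      simp only [sgl, decide_eq_true_eq] at hx
      subst hx
      simp [sgl, PrC, hne', hz]
    · intro x hx
      simp only [sgl, decide_eq_true_eq] at hx
      subst hx
      simp [sgl, PrC, hyy.symm, hy]
  have e7 : edgS V (sgl z) (fun x => sgl (bar y) x || PrC 2 x) =
      edgS V (sgl z) (sgl (bar y)) + edgS V (sgl z) (PrC 2) := by
    apply edgS_union
    · intro x hx
      simp only [sgl, decide_eq_true_eq] at hx
      simp only [sgl, decide_eq_false_iff_not]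
      rw [hx]
      exact hne'
    · exact d3
    · intro x hx
      simp only [sgl, decide_eq_true_eq] at hx
      subst hx
      simp only [PrC, decide_eq_false_iff_not]
      exact hy
  have e8 : edgS V (sgl z) (fun x => sgl y x || (sgl (bar y) x || PrC 2 x)) ≤
      edgS V (sgl z) (fun x => !sgl z x) := by
    apply edgS_mono
    · exact fun x hx => hx
    · intro x hx
      by_contra hc
      have hxz : x = z := by simpa [sgl] using hc
      subst hxz
      simp [sgl, PrC, hne, hne', hz] at hx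
  have e9 := capC_edgS V (sgl z)
  have h4 := E.h4
  have c3' : capC V (fun x => sgl z x || PrC 2 x) = n := by rw [c3, hcz]
  rw [c3'] at e3
  rw [c1, hcz] at e1
  rw [c2, hcz] at e2
  rw [e6, e7] at e8
  rw [← e9, e4, hcz] at e8
  rw [e4, hcz] at e3
  omega

theorem RtC1_nosing {n : ℕ} {V : CC} (E : EqP n P2 V) {z y : Fin 3 × Bool} (hz : z.1 ≠ 2)
    (hy : y.1 ≠ 2) (hzy : y.1 ≠ z.1) (h1 : ∃ A, LP P2 V z A ∧ RtC1_T y A = (true, false, false))
    (h2 : ∃ A, LP P2 V z A ∧ RtC1_T y A = (false, true, false))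
    (h3 : ∃ A, LP P2 V z A ∧ RtC1_T y A = (false, false, true)) : False := by
  have hne : z ≠ y := fun h => hzy (by rw [h])
  have hne' : z ≠ bar y := fun h => hzy (by rw [h]; rfl)
  have hyy : bar y ≠ y := RtC1_barne y
  have hzz : bar z ≠ z := RtC1_barne z
  have hbzy : bar z ≠ y := fun h => hzy (by rw [← h]; rfl)
  have hbzy' : bar z ≠ bar y := fun h => hzy (congrArg Prod.fst h).symm
  have h2y : ((2, true) : Fin 3 × Bool) ≠ y := fun h => hy (by rw [← h])
  have h2z : ((2, true) : Fin 3 × Bool) ≠ z := fun h => hz (by rw [← h])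
  have h2by : ((2, true) : Fin 3 × Bool) ≠ bar y := fun h => hy (congrArg Prod.fst h).symm
  have h2y' : ((2, false) : Fin 3 × Bool) ≠ y := fun h => hy (by rw [← h])
  have h2z' : ((2, false) : Fin 3 × Bool) ≠ z := fun h => hz (by rw [← h])
  have h2by' : ((2, false) : Fin 3 × Bool) ≠ bar y := fun h => hy (congrArg Prod.fst h).symm
  obtain ⟨A, hA, hTA⟩ := h1
  obtain ⟨B, hB, hTB⟩ := h2
  obtain ⟨C, hC, hTC⟩ := h3
  have pf : ∀ v : Fin 3 × Bool, v.1 ≠ 2 → PF P2 (pr z v) := by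
    intro v hv i hi
    have hi' : i = 2 := hi
    subst hi'
    have k1 : ((2, true) : Fin 3 × Bool) ≠ v := fun h => hv (by rw [← h])
    have k2 : ((2, false) : Fin 3 × Bool) ≠ v := fun h => hv (by rw [← h])
    simp [pr, h2z, h2z', k1, k2]
  have eA : A = pr z y := by
    refine RtC1_ext hz hy hzy hA.1 hA.2.1 hA.2.2.2 (by simp [pr]) (by simp [pr, hzz, hbzy])
      (pf y hy) ?_
    rw [hTA]
    simp [RtC1_T, pr, hyy, hne'.symm, h2y, h2z]
  have eB : B = pr z (bar y) := by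
    refine RtC1_ext hz hy hzy hB.1 hB.2.1 hB.2.2.2 (by simp [pr]) (by simp [pr, hzz, hbzy'])
      (pf (bar y) hy) ?_
    rw [hTB]
    simp [RtC1_T, pr, hyy.symm, hne.symm, h2by, h2z]
  have eC : C = fun x => sgl z x || PrC 2 x := by
    refine RtC1_ext hz hy hzy hC.1 hC.2.1 hC.2.2.2 (by simp [sgl]) ?_ ?_ ?_
    · simp [sgl, PrC, hzz, hz]
    · intro i hi
      have hi' : i = 2 := hi
      subst hi'
      simp [sgl, PrC]
    · rw [hTC]
      have hby2 : (bar y).1 ≠ 2 := hy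
      simp [RtC1_T, sgl, PrC, hne.symm, hne'.symm, hy, hby2]
  subst eA eB eC
  exact RtC1_three E hz hy hzy hA hB hC

open Classical in
/-- the nontrivial level cuts with `k` blocks -/
noncomputable def RtC1_S (V : CC) (z y : Fin 3 × Bool) (k : ℕ) : Finset Ct :=
  (LSP P2 V z).filter (fun A => RtC1_pc (RtC1_T y A) = k)

theorem RtC1_mem {V : CC} {z y : Fin 3 × Bool} {k : ℕ} {A : Ct} :
    A ∈ RtC1_S V z y k ↔ (LP P2 V z A ∧ Ntr A) ∧ RtC1_pc (RtC1_T y A) = k := by
  rw [RtC1_S, Finset.mem_filter, ls_mem]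

theorem RtC1_inj {V : CC} {z y : Fin 3 × Bool} (hz : z.1 ≠ 2) (hy : y.1 ≠ 2) (hzy : y.1 ≠ z.1)
    {A B : Ct} (hA : LP P2 V z A) (hB : LP P2 V z B) (h : RtC1_T y A = RtC1_T y B) : A = B :=
  RtC1_ext hz hy hzy hA.1 hA.2.1 hA.2.2.2 hB.1 hB.2.1 hB.2.2.2 h

theorem RtC1_le2 {V : CC} {z y : Fin 3 × Bool} (hz : z.1 ≠ 2) (hy : y.1 ≠ 2) (hzy : y.1 ≠ z.1)
    (k : ℕ) (F : Finset (Bool × Bool × Bool)) (hF : F.card ≤ 3)
    (hk : ∀ c, RtC1_pc c = k → c ∈ F)
    (hno : ¬ ∀ c ∈ F, ∃ A, LP P2 V z A ∧ RtC1_T y A = c) : (RtC1_S V z y k).card ≤ 2 := by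
  have h1 : ∃ c ∈ F, ∀ A, LP P2 V z A → RtC1_T y A ≠ c := by
    by_contra hc
    apply hno
    intro c hcF
    by_contra hc'
    exact hc ⟨c, hcF, fun A hA hT => hc' ⟨A, hA, hT⟩⟩
  obtain ⟨c, hcF, hc⟩ := h1
  have h2 : (RtC1_S V z y k).card ≤ (F.erase c).card := by
    apply Finset.card_le_card_of_injOn (RtC1_T y)
    · intro A hA
      have hA' := RtC1_mem.1 hA
      simp only [Finset.coe_erase, Set.mem_sdiff, Finset.mem_coe, Set.mem_singleton_iff]
      exact ⟨hk _ hA'.2, hc A hA'.1.1⟩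
    · intro A hA B hB h
      exact RtC1_inj hz hy hzy (RtC1_mem.1 hA).1.1 (RtC1_mem.1 hB).1.1 h
  have h3 : (F.erase c).card = F.card - 1 := Finset.card_erase_of_mem hcF
  omega

theorem RtC1_s1 {n : ℕ} {V : CC} (E : EqP n P2 V) {z y : Fin 3 × Bool} (hz : z.1 ≠ 2)
    (hy : y.1 ≠ 2) (hzy : y.1 ≠ z.1) : (RtC1_S V z y 1).card ≤ 2 := by
  refine RtC1_le2 hz hy hzy 1 {(true, false, false), (false, true, false), (false, false, true)}
    (by decide) (by decide) ?_
  intro h
  exact RtC1_nosing E hz hy hzy (h _ (by decide)) (h _ (by decide)) (h _ (by decide))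

theorem RtC1_s2 {n : ℕ} {V : CC} (E : EqP n P2 V) {z y : Fin 3 × Bool} (hz : z.1 ≠ 2)
    (hy : y.1 ≠ 2) (hzy : y.1 ≠ z.1) : (RtC1_S V z y 2).card ≤ 2 := by
  refine RtC1_le2 hz hy hzy 2 {(false, true, true), (true, false, true), (true, true, false)}
    (by decide) (by decide) ?_
  intro h
  have key : ∀ c : Bool × Bool × Bool, (∃ A, LP P2 V z A ∧ RtC1_T y A = c) →
      ∃ A, LP P2 V (bar z) A ∧ RtC1_T y A = (!c.1, !c.2.1, !c.2.2) := by
    rintro c ⟨A, hA, hT⟩
    refine ⟨fun x => !A x, (Lv_compl hA).1, ?_⟩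
    rw [← hT]
    rfl
  exact RtC1_nosing E (z := bar z) (y := y) hz hy hzy (key _ (h (false, true, true) (by decide)))
    (key _ (h (true, false, true) (by decide))) (key _ (h (true, true, false) (by decide)))

theorem RtC1_y {z : Fin 3 × Bool} (hz : z.1 ≠ 2) : ∃ y : Fin 3 × Bool, y.1 ≠ 2 ∧ y.1 ≠ z.1 := by
  revert z
  decide

theorem RtC1_split {n : ℕ} {V : CC} {z y : Fin 3 × Bool} (hz : z.1 ≠ 2)
    (hy : y.1 ≠ 2) (hzy : y.1 ≠ z.1) (h : n ≤ n) : (LSP P2 V z).card ≤
      (RtC1_S V z y 1).card + (RtC1_S V z y 2).card := by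
  classical
  refine le_trans (Finset.card_le_card ?_) (Finset.card_union_le _ _)
  intro A hA
  have hA' := ls_mem.1 hA
  rw [Finset.mem_union, RtC1_mem, RtC1_mem]
  rcases RtC1_ntr hz hy hzy hA'.1.1 hA'.1.2.1 hA'.1.2.2.2 hA'.2 with h | h
  · exact Or.inl ⟨hA', h⟩
  · exact Or.inr ⟨hA', h⟩

theorem ls4 {n : ℕ} {V : CC} (E : EqP n P2 V) {z : Fin 3 × Bool} (hz : z.1 ≠ 2) :
    (LSP P2 V z).card ≤ 4 := by
  obtain ⟨y, hy, hzy⟩ := RtC1_y hz
  have h1 := RtC1_s1 E hz hy hzy
  have h2 := RtC1_s2 E hz hy hzy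
  have h3 := RtC1_split (n := n) (V := V) hz hy hzy le_rfl
  omega

theorem RtC1_incomp {y : Fin 3 × Bool} {A B : Ct}
    (h : RtC1_pc (RtC1_T y A) = RtC1_pc (RtC1_T y B)) (hne : RtC1_T y A ≠ RtC1_T y B) :
    (∃ x, A x = true ∧ B x = false) ∧ ∃ x, A x = false ∧ B x = true := by
  have key : ∀ a b c a' b' c' : Bool, RtC1_pc (a, b, c) = RtC1_pc (a', b', c') →
      (a, b, c) ≠ (a', b', c') →
      ((a = true ∧ a' = false) ∨ (b = true ∧ b' = false) ∨ (c = true ∧ c' = false)) ∧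
      ((a = false ∧ a' = true) ∨ (b = false ∧ b' = true) ∨ (c = false ∧ c' = true)) := by
    intro a b c a' b' c'
    cases a <;> cases b <;> cases c <;> cases a' <;> cases b' <;> cases c' <;> simp [RtC1_pc]
  obtain ⟨h1, h2⟩ := key _ _ _ _ _ _ h hne
  constructor
  · rcases h1 with h | h | h
    · exact ⟨_, h⟩
    · exact ⟨_, h⟩
    · exact ⟨_, h⟩
  · rcases h2 with h | h | h
    · exact ⟨_, h⟩
    · exact ⟨_, h⟩
    · exact ⟨_, h⟩

theorem RtC1_one {n : ℕ} {V : CC} (E : EqP n P2 V) {z y : Fin 3 × Bool} (hz : z.1 ≠ 2)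
    (hy : y.1 ≠ 2) (hzy : y.1 ≠ z.1) (he : 0 < edgS V (sgl z) (sgl (bar z))) (k : ℕ) :
    (RtC1_S V z y k).card ≤ 1 := by
  rw [Finset.card_le_one]
  intro A hA B hB
  have hA' := RtC1_mem.1 hA
  have hB' := RtC1_mem.1 hB
  by_contra hne
  have hT : RtC1_T y A ≠ RtC1_T y B := fun h => hne (RtC1_inj hz hy hzy hA'.1.1 hB'.1.1 h)
  obtain ⟨h1, h2⟩ := RtC1_incomp (hA'.2.trans hB'.2.symm) hT
  have := ls_cross0 E hA'.1.1 hB'.1.1 h1 h2
  omega

theorem RtC1_add {V : CC} {j : Fin 3} {A B : Ct} {t : Bool} (h : ∀ x : Fin 3 × Bool, x.1 ≠ j → B x = t) :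
    act (pot j (ind A + ind B)) V = act (wh (j, true) A) V := by
  rw [wh_pot]
  apply pot_const (if t then 1 else 0)
  intro x hx
  simp only [Pi.add_apply, ind, h x hx]

theorem RtC1_lt {y : Fin 3 × Bool} {A1 A2 : Ct} (hs : ∀ x, A2 x = true → A1 x = true)
    (hne : RtC1_T y A1 ≠ RtC1_T y A2)
    (h1 : RtC1_pc (RtC1_T y A1) = 1 ∨ RtC1_pc (RtC1_T y A1) = 2)
    (h2 : RtC1_pc (RtC1_T y A2) = 1 ∨ RtC1_pc (RtC1_T y A2) = 2) :
    RtC1_pc (RtC1_T y A2) = 1 ∧ RtC1_pc (RtC1_T y A1) = 2 := by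
  have key : ∀ a b c a' b' c' : Bool, (a' = true → a = true) → (b' = true → b = true) →
      (c' = true → c = true) → (a, b, c) ≠ (a', b', c') →
      (RtC1_pc (a, b, c) = 1 ∨ RtC1_pc (a, b, c) = 2) →
      (RtC1_pc (a', b', c') = 1 ∨ RtC1_pc (a', b', c') = 2) →
      RtC1_pc (a', b', c') = 1 ∧ RtC1_pc (a, b, c) = 2 := by
    intro a b c a' b' c'
    cases a <;> cases b <;> cases c <;> cases a' <;> cases b' <;> cases c' <;> simp [RtC1_pc]
  exact key _ _ _ _ _ _ (hs _) (hs _) (hs _) hne h1 h2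

open Classical in
theorem em9 {n : ℕ} {V : CC} (E : EqP n P2 V) {j : Fin 3} (hj : j ≠ 2) :
    Cov (EP P2 (fun i => i = j) V) 9 := by
  obtain ⟨y, hy, hzy⟩ := RtC1_y (z := (j, true)) hj
  have hz : ((j, true) : Fin 3 × Bool).1 ≠ 2 := hj
  have b1 := RtC1_s1 E hz hy hzy
  have b2 := RtC1_s2 E hz hy hzy
  have b3 := RtC1_split (n := n) (V := V) hz hy hzy le_rfl
  have hrep : ∀ W ∈ EP P2 (fun i => i = j) V,
      W = V ∨ (∃ A ∈ LSP P2 V (j, true), W = act (wh (j, true) A) V) ∨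
      (∃ A2 ∈ RtC1_S V (j, true) y 1, ∃ A1 ∈ RtC1_S V (j, true) y 2,
        W = act (pot j (ind A1 + ind A2)) V) ∨
      (0 < edgS V (sgl (j, true)) (sgl (j, false)) ∧
        ∃ A ∈ LSP P2 V (j, true), W = act (pot j (ind A + ind A)) V) := by
    intro W hW
    obtain ⟨A1, A2, hA1, hA2, hs, he, -, hWe⟩ := rep2 E hj hW
    by_cases hn1 : Ntr A1
    · by_cases hn2 : Ntr A2
      · by_cases heq : A1 = A2
        · subst heq
          exact Or.inr (Or.inr (Or.inr ⟨he rfl hn1, A1, ls_mem.2 ⟨hA1, hn1⟩, hWe⟩))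
        · have hT : RtC1_T y A1 ≠ RtC1_T y A2 := fun h => heq (RtC1_inj hz hy hzy hA1 hA2 h)
          have p1 := RtC1_ntr hz hy hzy hA1.1 hA1.2.1 hA1.2.2.2 hn1
          have p2 := RtC1_ntr hz hy hzy hA2.1 hA2.2.1 hA2.2.2.2 hn2
          obtain ⟨q2, q1⟩ := RtC1_lt hs hT p1 p2
          exact Or.inr (Or.inr (Or.inl ⟨A2, RtC1_mem.2 ⟨⟨hA2, hn2⟩, q2⟩, A1,
            RtC1_mem.2 ⟨⟨hA1, hn1⟩, q1⟩, hWe⟩))
      · obtain ⟨t, ht⟩ := RtC1_triv hz hy hzy hA2.1 hA2.2.1 hA2.2.2.2 hn2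
        refine Or.inr (Or.inl ⟨A1, ls_mem.2 ⟨hA1, hn1⟩, ?_⟩)
        rw [hWe]
        exact RtC1_add ht
    · obtain ⟨t, ht⟩ := RtC1_triv hz hy hzy hA1.1 hA1.2.1 hA1.2.2.2 hn1
      have hWe' : W = act (wh (j, true) A2) V := by
        rw [hWe, add_comm]
        exact RtC1_add ht
      by_cases hn2 : Ntr A2
      · exact Or.inr (Or.inl ⟨A2, ls_mem.2 ⟨hA2, hn2⟩, hWe'⟩)
      · left
        rw [hWe']
        exact Lv_ntr hA2 hn2
  by_cases he : 0 < edgS V (sgl (j, true)) (sgl (j, false))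
  · have c1 := RtC1_one E hz hy hzy he 1
    have c2 := RtC1_one E hz hy hzy he 2
    refine ⟨({V} ∪ (LSP P2 V (j, true)).image (fun A => act (wh (j, true) A) V)) ∪
      ((RtC1_S V (j, true) y 1 ×ˢ RtC1_S V (j, true) y 2).image
        (fun p => act (pot j (ind p.2 + ind p.1)) V) ∪
      (LSP P2 V (j, true)).image (fun A => act (pot j (ind A + ind A)) V)), ?_, ?_⟩
    · have k1 := Finset.card_union_le ({V} ∪ (LSP P2 V (j, true)).image
        (fun A => act (wh (j, true) A) V)) ((RtC1_S V (j, true) y 1 ×ˢ RtC1_S V (j, true) y 2).image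
        (fun p => act (pot j (ind p.2 + ind p.1)) V) ∪
        (LSP P2 V (j, true)).image (fun A => act (pot j (ind A + ind A)) V))
      have k2 := Finset.card_union_le ({V} : Finset CC) ((LSP P2 V (j, true)).image
        (fun A => act (wh (j, true) A) V))
      have k3 := Finset.card_union_le ((RtC1_S V (j, true) y 1 ×ˢ RtC1_S V (j, true) y 2).image
        (fun p => act (pot j (ind p.2 + ind p.1)) V))
        ((LSP P2 V (j, true)).image (fun A => act (pot j (ind A + ind A)) V))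
      have k4 : ((LSP P2 V (j, true)).image (fun A => act (wh (j, true) A) V)).card ≤
        (LSP P2 V (j, true)).card := Finset.card_image_le
      have k5 : ((LSP P2 V (j, true)).image (fun A => act (pot j (ind A + ind A)) V)).card ≤
        (LSP P2 V (j, true)).card := Finset.card_image_le
      have k6 : ((RtC1_S V (j, true) y 1 ×ˢ RtC1_S V (j, true) y 2).image
        (fun p => act (pot j (ind p.2 + ind p.1)) V)).card ≤
        (RtC1_S V (j, true) y 1 ×ˢ RtC1_S V (j, true) y 2).card := Finset.card_image_le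
      rw [Finset.card_product] at k6
      have k7 : (RtC1_S V (j, true) y 1).card * (RtC1_S V (j, true) y 2).card ≤ 1 * 1 :=
        Nat.mul_le_mul c1 c2
      have k8 : ({V} : Finset CC).card = 1 := Finset.card_singleton V
      omega
    · intro W hW
      rw [Finset.mem_union, Finset.mem_union, Finset.mem_union, Finset.mem_image, Finset.mem_image,
        Finset.mem_image, Finset.mem_singleton]
      rcases hrep W hW with h | ⟨A, hA, h⟩ | ⟨A2, hA2, A1, hA1, h⟩ | ⟨-, A, hA, h⟩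
      · exact Or.inl (Or.inl h)
      · exact Or.inl (Or.inr ⟨A, hA, h.symm⟩)
      · exact Or.inr (Or.inl ⟨(A2, A1), Finset.mem_product.2 ⟨hA2, hA1⟩, h.symm⟩)
      · exact Or.inr (Or.inr ⟨A, hA, h.symm⟩)
  · refine ⟨({V} ∪ (LSP P2 V (j, true)).image (fun A => act (wh (j, true) A) V)) ∪
      (RtC1_S V (j, true) y 1 ×ˢ RtC1_S V (j, true) y 2).image
        (fun p => act (pot j (ind p.2 + ind p.1)) V), ?_, ?_⟩
    · have k1 := Finset.card_union_le ({V} ∪ (LSP P2 V (j, true)).image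
        (fun A => act (wh (j, true) A) V)) ((RtC1_S V (j, true) y 1 ×ˢ RtC1_S V (j, true) y 2).image
        (fun p => act (pot j (ind p.2 + ind p.1)) V))
      have k2 := Finset.card_union_le ({V} : Finset CC) ((LSP P2 V (j, true)).image
        (fun A => act (wh (j, true) A) V))
      have k4 : ((LSP P2 V (j, true)).image (fun A => act (wh (j, true) A) V)).card ≤
        (LSP P2 V (j, true)).card := Finset.card_image_le
      have k6 : ((RtC1_S V (j, true) y 1 ×ˢ RtC1_S V (j, true) y 2).image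
        (fun p => act (pot j (ind p.2 + ind p.1)) V)).card ≤
        (RtC1_S V (j, true) y 1 ×ˢ RtC1_S V (j, true) y 2).card := Finset.card_image_le
      rw [Finset.card_product] at k6
      have k7 : (RtC1_S V (j, true) y 1).card * (RtC1_S V (j, true) y 2).card ≤ 2 * 2 :=
        Nat.mul_le_mul b1 b2
      have k8 : ({V} : Finset CC).card = 1 := Finset.card_singleton V
      omega
    · intro W hW
      rw [Finset.mem_union, Finset.mem_union, Finset.mem_image, Finset.mem_image,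
        Finset.mem_singleton]
      rcases hrep W hW with h | ⟨A, hA, h⟩ | ⟨A2, hA2, A1, hA1, h⟩ | ⟨h', -⟩
      · exact Or.inl (Or.inl h)
      · exact Or.inl (Or.inr ⟨A, hA, h.symm⟩)
      · exact Or.inr ⟨(A2, A1), Finset.mem_product.2 ⟨hA2, hA1⟩, h.symm⟩
      · exact absurd h' he

end Pw

end Pool.Agent.Sims
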