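import Pool.Agent.Sims.RtF1

/-!
# Module `RtTr` : port of `EvTr`
-/

namespace Pool.Agent.Sims

namespace Pw

open FreeGroup (of)

variable {P : Fin 3 → Prop}

theorem EvTr_y {V : CC} {y : Fin 3 × Bool} {B Q : Ct} (hB : LP P V y B)
    (hd : ∀ x, Q x = true → B x = false) : Q y = false := by
  by_contra h
  have h1 := hd y (by simpa using h)
  rw [hB.1] at h1
  exact absurd h1 (by decide)

theorem trNC {n : ℕ} {V : CC} (E : EqP n P V) {y : Fin 3 × Bool} {B Q : Ct} (hQ : NP n P V Q)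
    (hB : LP P V y B) (hd : ∀ x, Q x = true → B x = false) :
    NP n P (act (wh y B) V) (tp y B Q) := by
  have hy := EvTr_y hB hd
  have hs := EvTr_swap hd
  cases h : Q (bar y) with
  | false =>
    have h1 : NP n P (act (wh y B) V) Q :=
      ⟨hQ.1, by rw [capC_wh_disj V y B Q hB.1 hB.2.1 hy h hs, hQ.2]⟩
    exact NC_congr h1 (fun x => (EvTr_tp h x).symm)
  | true =>
    have e : tp y B Q = fun x => Q x || (B x && decide (x ≠ y)) := by
      funext x
      simp [tp, h]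
    rw [e]
    have hyP : ¬ P y.1 := LP_fst hB
    refine ⟨⟨⟨⟨bar y, by simp [h]⟩, ⟨y, by simp [hy]⟩⟩, ?_⟩, ?_⟩
    · intro i hi
      have h2 : ∀ b : Bool, ((i, b) : Fin 3 × Bool) ≠ y := by
        rintro b rfl
        exact hyP hi
      simp [h2, hB.2.2.2 i hi, hQ.1.2 i hi]
    rw [capC_wh_disj' V y B Q hB.1 hB.2.1 hy h hs, hQ.2]

theorem EvTr_disj {n : ℕ} {V : CC} (E : EqP n P V) {y : Fin 3 × Bool} {B Q : Ct}
    (hB : LP P V y B) (hd : ∀ x, Q x = true → B x = false) (hne : ∃ x, Q x = false ∧ B x = false)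
    (hX : VP n P V Q) : ∃ C, NP n P V C ∧ Crossg C Q ∧ ∀ x, C x = true → B x = false := by
  obtain ⟨C, hC, hX⟩ := hX
  have hy := EvTr_y hB hd
  obtain ⟨⟨x, x1, x2⟩, ⟨w, w1, w2⟩, ⟨z, z1, z2⟩, ⟨v, v1, v2⟩⟩ := id hX
  by_cases hc : Crossg C B
  · have hBn : NP n P V B := ((Lv_NC E).1 hB).2.2
    obtain ⟨-, f2, -, -, f5⟩ := f1 E hC hBn hc
    obtain ⟨u, u1, u2⟩ := hne
    cases hu : C u with
    | true =>
      refine ⟨_, f2, ⟨⟨x, ?_, x2⟩, ⟨u, ?_, u1⟩, ⟨z, ?_, z2⟩, ⟨y, ?_, hy⟩⟩, ?_⟩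
      · simp [x1, hd x x2]
      · simp [hu, u2]
      · simp [z1]
      · simp [hB.1]
      · intro t ht
        have ht' : (C t && !B t) = true := ht
        simp only [Bool.and_eq_true] at ht'
        simpa using ht'.2
    | false =>
      refine ⟨_, NC_compl f5, ⟨⟨z, ?_, z2⟩, ⟨u, ?_, u1⟩, ⟨x, ?_, x2⟩, ⟨y, ?_, hy⟩⟩, ?_⟩
      · simp [z1, hd z z2]
      · simp [hu, u2]
      · simp [x1]
      · simp [hB.1]
      · intro t ht
        have ht' : (!(C t || B t)) = true := ht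
        revert ht'
        cases C t <;> cases B t <;> decide
  · rcases not_Crossg hc with h | h | h | h
    · exact ⟨C, hC, hX, h⟩
    · exfalso
      have h1 := h x x1
      rw [hd x x2] at h1
      exact absurd h1 (by decide)
    · refine ⟨_, NC_compl hC, Crossg_compl hX, ?_⟩
      intro t ht
      have ht' : (!C t) = true := ht
      by_contra hb
      have h1 := h t (by simpa using hb)
      rw [h1] at ht'
      exact absurd ht' (by decide)
    · exfalso
      rcases h z with h1 | h1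
      · rw [z1] at h1
        exact absurd h1 (by decide)
      · rw [hd z z2] at h1
        exact absurd h1 (by decide)

theorem trX {n : ℕ} {V : CC} (E : EqP n P V) {y : Fin 3 × Bool} {B Q : Ct} (hQ : NP n P V Q)
    (hB : LP P V y B) (hd : ∀ x, Q x = true → B x = false) (hne : ∃ x, Q x = false ∧ B x = false)
    (hX : VP n P V Q) : VP n P (act (wh y B) V) (tp y B Q) := by
  obtain ⟨C, hC, hXC, hdC⟩ := EvTr_disj E hB hd hne hX
  have hyQ := EvTr_y hB hd
  have hyC := EvTr_y hB hdC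
  refine ⟨tp y B C, trNC E hC hB hdC, ?_⟩
  obtain ⟨⟨x, x1, x2⟩, ⟨w, w1, w2⟩, ⟨z, z1, z2⟩, ⟨v, v1, v2⟩⟩ := hXC
  refine ⟨⟨x, ?_, ?_⟩, ⟨w, ?_, ?_⟩, ⟨z, ?_, ?_⟩, ⟨y, ?_, ?_⟩⟩
  · simp [tp, x1]
  · simp [tp, x2]
  · simp [tp, w1]
  · simp [tp, w2, hdC w w1]
  · simp [tp, z1, hd z z2]
  · simp [tp, z2]
  · simp [tp, hyC]
  · simp [tp, hyQ]

theorem nest_unc {n : ℕ} {V : CC} {B Q : Ct} (hB : NP n P V B) (hu : ¬ VP n P V Q) : ¬ Crossg B Q :=
  fun h => hu ⟨B, hB, h⟩

theorem EvTr_per {n : ℕ} {V : CC} (E : EqP n P V) {y : Fin 3 × Bool} {B Q : Ct} (hQ : NP n P V Q)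
    (hu : ¬ VP n P V Q) (hB : LP P V y B) (hy' : Q (bar y) = false)
    (hd : ∀ x, Q x = true → B x = false) :
    NP n P (act (wh y B) V) Q ∧ ¬ VP n P (act (wh y B) V) Q := by
  have hy := EvTr_y hB hd
  have h1 : NP n P (act (wh y B) V) Q := NC_congr (trNC E hQ hB hd) (EvTr_tp hy')
  refine ⟨h1, fun hX => hu ?_⟩
  obtain ⟨hL, hV⟩ := Lv_inv hB
  have hbb : bar (bar y) = y := by
    rw [bar_bar]
  have hd' : ∀ x, Q x = true →
      (fun x => (B x && decide (x ≠ y)) || decide (x = bar y)) x = false := by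
    intro x hx
    have hxy : x ≠ bar y := by
      rintro rfl
      rw [hy'] at hx
      exact absurd hx (by decide)
    simp [hd x hx, hxy]
  have hyy : y ≠ bar y := fun h => bar_ne y h.symm
  have h2 := trX (E.lv hB) h1 hL hd' ⟨y, hy, by simp [hyy]⟩ hX
  rw [hV] at h2
  refine (VX_congr (fun x => ?_)).1 h2
  exact EvTr_tp (by rw [hbb]; exact hy) x

theorem EvTr_per' {n : ℕ} {V : CC} (E : EqP n P V) {y : Fin 3 × Bool} {B Q : Ct} (hQ : NP n P V Q)
    (hu : ¬ VP n P V Q) (hB : LP P V y B) (hy : Q y = false) (hy' : Q (bar y) = false) :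
    NP n P (act (wh y B) V) Q ∧ ¬ VP n P (act (wh y B) V) Q := by
  have hBn : NP n P V B := ((Lv_NC E).1 hB).2.2
  rcases not_Crossg (nest_unc hBn hu) with h | h | h | h
  · exact EvTr_per E hQ hu hB hy' (EvTr_swap h)
  · exfalso
    have h1 := h y hB.1
    rw [hy] at h1
    exact absurd h1 (by decide)
  · obtain ⟨hL, hV⟩ := Lv_compl hB
    have hbb : bar (bar y) = y := by rw [bar_bar]
    have := EvTr_per E hQ hu hL (by rw [hbb]; exact hy) (by
      intro x hx
      simp [h x hx])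
    rwa [hV] at this
  · exfalso
    rcases h (bar y) with h1 | h1
    · rw [hB.2.1] at h1
      exact absurd h1 (by decide)
    · rw [hy'] at h1
      exact absurd h1 (by decide)

theorem per {n : ℕ} {V : CC} (E : EqP n P V) {y : Fin 3 × Bool} {B Q : Ct} (hQ : NP n P V Q)
    (hu : ¬ VP n P V Q) (hB : LP P V y B) (hy : Q y = Q (bar y)) :
    NP n P (act (wh y B) V) Q ∧ ¬ VP n P (act (wh y B) V) Q := by
  cases h : Q y with
  | false =>
    exact EvTr_per' E hQ hu hB h (by rw [← hy, h])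
  | true =>
    have h' : Q (bar y) = true := by rw [← hy, h]
    obtain ⟨h1, h2⟩ := EvTr_per' E (NC_compl hQ) (fun hX => hu (VX_compl.1 hX)) hB
      (by simp [h]) (by simp [h'])
    refine ⟨NC_congr (NC_compl h1) (fun x => by simp), fun hX => h2 (VX_compl.2 hX)⟩

end Pw

end Pool.Agent.Sims
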