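import Pool.Agent.Sims.RtB2
import Pool.Agent.Sims.RtTr
import Pool.Agent.Sims.RtLem
import Pool.Agent.Sims.RtLS
import Pool.Agent.Sims.RtC1

/-!
# Module `RtB4` : persistence of the crossing of `{x_j, x_j⁻¹}`; the line of a square letter; level cuts

* `pr_em`: `PrC j` of capacity `n` at `V` in the world `P` (`EqP n P V`), crossed by an `NP n P`-cut at `V`; then the same at every `W ∈ EP P M V`.  `PrC j` does not separate any pair `y, y⁻¹`, and it is `P`-fixed.  Its capacity is preserved by `Pw.per` if it is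
  uncrossed, and in general: a level cut `B` (multiplier `y`) either separates `x_j, x_j⁻¹`... To get both statements: if `PrC j` were not crossed at `W` (with capacity `n` there), then `Pw.per` along the path from `W` back to `V` (`Pw.EM_symm`) would give
  that it is not crossed at `V`.  Capacity at the next chart `act (wh y B) V`: if `B` does not separate `x_j^{±1}` and `y.1 ≠ j`: `capC_wh_disj` (`Lv_compl`).  If `y.1 = j`, or `B` separates `x_j^{±1}`: it may change; therefore the statement has the hypothesis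
  `hT : ∀ W ∈ EP P M V, capC W (PrC j) = n`.
* `sq_pr`: for `BQ n P Q V`, `Q j`: `PrC j` crossed at `sq Q V` in the world `P` implies crossed at `sq Q W` for `W ∈ SQ P Q M V`: step by step: the intermediate class of a double move (`act (pot k (whp z A)) (sq Q W)`, `Pw.pot_split`) also has
  `capC _ (PrC j) = n`: for `k = j`: between `n` (`E.low`) and `2 cnt = ` ... the count of `j` there is `n`, and `capC _ (PrC j) = 2 n - 2 edgS {x_j} {x_j⁻¹}`.  To avoid the intermediate class argue directly: suppose `PrC j` is not crossed at `sq Q W'`,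
  `W' = act (wh z A) W`.  If `z.1 ∉ Q`: one step, `Pw.per` backwards (`Pw.Lv_inv`, `bq_st`).  If `z.1 = k ∈ Q`: `sq Q W = act (pot k (2 · whp ..)) (sq Q W')` is reached from `sq Q W'` by two level moves (`Pw.pot_split`); `Pw.per` twice: it also gives the capacity `n`
  at the intermediate class.  (`PrC j` separates no pair.)
* `sq_cross`: a nontrivial cut `A` (at least two letters inside and outside) separating `x_j, x_j⁻¹` crosses `PrC j`.
* `sq_line`: the classes of `SQ P Q (· = j) V`, `Q j`: `W = act (pot j q) V`, `q` fixed on `P` and on `Q ∖ j`, `cnt W j = cnt V j` (induction, `pot_add`, `pot_congr`: `q = 0` on `x_j^{±1}`).  Work in the world `P' = P ∪ (Q ∖ j)`: `EqP n P' (sq Q V)`.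
  Choose `q ≥ 0` (`P'`-fixed, `0` on `x_j^{±1}`) with `W = act (pot j q) V` and minimal sum (as in `Pw.minrep`): for a `P'`-fixed closed `X` (`Clo j (sq Q V) X`; then by `pw_pot`, `pw_inj` also `act (pot j (q - 1_X)) V = act (pot j q) V`) containing a letter
  `≠ x_j^{±1}` there is a letter `x ∈ X`, `x.1 ≠ j`, `q x = 0`.  `Pw.lemS` for `sq Q V` and the potential `2 q`: `2 q ≤ 2`, so `q = 1_Y`: `W = V` or `W = act (wh (j,true) ({c} ∪ Y)) V` with a nontrivial level cut `A = {c} ∪ Y` (`c = (j,true)`; if `Y` contains all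
  letters `≠ x_j^{±1}` then `W = V`).  All these cuts are level at `sq Q V` too (`Pw.pot_split` for `2 · 1_Y`), and pairwise comparable: otherwise `edgS (sq Q V) {c} {c⁻¹} = 0` (`Pw.ls_cross0`), but it is `n/2` (`bq_e1`).  A chain of nonempty proper
  `P'`-fixed subsets of the four letters `≠ x_j^{±1}` has at most `3` members; at most `2` if one of the other generators is in `P'`; at most `1` if both are.
* `lsq4`: for a single letter `z` (`Q z.1 = false`, `¬ P z.1`), the nontrivial level `z`-cuts fixed on `P` and `Q`.  If a generator `k ≠ z.1` is in `P` or `Q`: they are `LP` in a world with fixed letter `k`, transport `ls4` (`k = 2`; for `k ≠ 2` the same proof, or a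
  signed permutation): stated for `k = 2`: at most `4`.  * `lsq2`: if both generators `≠ z.1` are in `P` or `Q`: `{z} ∪ X`, `X` one of two blocks: at most `2`.
Difficulty 4.
-/

namespace Pool.Agent.Sims

theorem RtB4_nc {n : ℕ} {P : Fin 3 → Prop} {V : CC} {j : Fin 3} (h : capC V (PrC j) = n) :
    NP n P V (PrC j) := by
  obtain ⟨k, hk⟩ : ∃ k : Fin 3, k ≠ j := exists_ne j
  refine ⟨⟨⟨⟨(j, true), by simp [PrC]⟩, ⟨(k, true), by simp [PrC, hk]⟩⟩, fun i _ => rfl⟩, h⟩

theorem RtB4_back {n : ℕ} {P : Fin 3 → Prop} {V : CC} (E : EqP n P V) {M : Fin 3 → Prop}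
    {j : Fin 3} (hT : NP n P V (PrC j)) (hX : ¬ VP n P V (PrC j)) {W : CC} (hW : W ∈ EP P M V) :
    NP n P W (PrC j) ∧ ¬ VP n P W (PrC j) := by
  have h : Relation.ReflTransGen (StP P M) V W := hW
  clear hW
  induction h with
  | refl => exact ⟨hT, hX⟩
  | @tail U U' hU hst ih =>
    obtain ⟨y, B, hy, hB, rfl⟩ := hst
    exact Pw.per (E.em (show U ∈ EP P M V from hU)) ih.1 ih.2 hB rfl

theorem pr_em {n : ℕ} {P : Fin 3 → Prop} {V : CC} (E : EqP n P V) {M : Fin 3 → Prop} {j : Fin 3}
    (hT : ∀ W ∈ EP P M V, capC W (PrC j) = n) (hX : VP n P V (PrC j)) {W : CC}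
    (hW : W ∈ EP P M V) : VP n P W (PrC j) := by
  by_contra hc
  exact (RtB4_back (E.em hW) (RtB4_nc (hT W hW)) hc (Pw.EM_symm hW)).2 hX

theorem RtB4_e1 (Q : Fin 3 → Bool) (i : Fin 3) : 1 ≤ (if Q i = true then 2 else 1) := by
  split_ifs <;> omega

theorem RtB4_cap {Q : Fin 3 → Bool} {A : Ct} (V : CC)
    (h : ∀ i, Q i = true → A (i, true) = A (i, false)) : capC (sq Q V) A = capC V A := by
  unfold sq
  rw [pw_cap (RtB4_e1 Q)]
  have h1 : (∑ i : Fin 3, (if A (i, true) = A (i, false) then 0 else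
      ((if Q i = true then 2 else 1) - 1) * cnt V i)) = 0 := by
    apply Finset.sum_eq_zero
    intro i _
    by_cases hi : Q i = true
    · rw [if_pos (h i hi)]
    · simp [hi]
  rw [h1, add_zero]

theorem RtB4_cnt (Q : Fin 3 → Bool) (V : CC) (i : Fin 3) :
    cnt (sq Q V) i = (if Q i = true then 2 else 1) * cnt V i := pw_cnt (RtB4_e1 Q) V i

theorem sq_pr {n : ℕ} {P : Fin 3 → Prop} {Q : Fin 3 → Bool} {V : CC} (B : BQ n P Q V)
    {M : Fin 3 → Prop} {j : Fin 3} (hj : Q j = true) (hX : VP n P (sq Q V) (PrC j)) {W : CC}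
    (hW : W ∈ SQ P Q M V) : VP n P (sq Q W) (PrC j) := by
  obtain ⟨BW, hW'⟩ := sq_bq B hW
  by_contra hc
  have h1 : capC (sq Q W) (PrC j) = n := by
    rw [RtB4_cap W (fun i _ => rfl)]
    exact BW.t j hj
  exact (RtB4_back BW.e (RtB4_nc h1) hc (Pw.EM_symm hW')).2 hX

theorem RtB4_cr {A : Ct} {z : Fin 3 × Bool} (hN : Ntr A) (h1 : A z = true)
    (h2 : A (bar z) = false) : Crossg A (PrC z.1) := by
  obtain ⟨u, hu, hu'⟩ := (EvNB_two hN z).1
  obtain ⟨v, hv, hv'⟩ := (EvNB_two hN (bar z)).2
  have hu1 : u.1 ≠ z.1 := by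
    intro h0
    rcases EvNB_fst h0 with h3 | h3
    · exact hu h3
    · rw [h3, h2] at hu'
      exact Bool.false_ne_true hu'
  have hv1 : v.1 ≠ z.1 := by
    intro h0
    rcases EvNB_fst h0 with h3 | h3
    · rw [h3, h1] at hv'
      exact Bool.false_ne_true hv'.symm
    · exact hv h3
  exact ⟨⟨z, h1, by simp [PrC]⟩, ⟨u, hu', by simp [PrC, hu1]⟩,
    ⟨bar z, h2, by simp [PrC]⟩, ⟨v, hv', by simp [PrC, hv1]⟩⟩

theorem sq_cross {A : Ct} {j : Fin 3} (hn : Ntr A) (h : A (j, true) ≠ A (j, false)) :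
    Crossg (PrC j) A ∧ Crossg A (PrC j) := by
  have key : Crossg A (PrC j) := by
    cases h1 : A (j, true)
    · have h2 : A (j, false) = true := by
        cases h3 : A (j, false)
        · exact absurd (h1.trans h3.symm) h
        · rfl
      exact RtB4_cr (z := (j, false)) hn h2 h1
    · have h2 : A (j, false) = false := by
        cases h3 : A (j, false)
        · rfl
        · exact absurd (h1.trans h3.symm) h
      exact RtB4_cr (z := (j, true)) hn h1 h2
  exact ⟨Crossg_symm key, key⟩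

/-- the fixed letters of the line of the square letter `j` -/
def RtB4_P (P : Fin 3 → Prop) (Q : Fin 3 → Bool) (j : Fin 3) : Fin 3 → Prop :=
  fun i => P i ∨ (Q i = true ∧ i ≠ j)

theorem RtB4_E {n : ℕ} {P : Fin 3 → Prop} {Q : Fin 3 → Bool} {V : CC} (B : BQ n P Q V)
    (j : Fin 3) : EqP n (RtB4_P P Q j) (sq Q V) :=
  ⟨B.e.h4, fun i hi => B.e.c i (fun h => hi (Or.inl h)),
    fun h => B.e.low ⟨h.1, fun i hi => h.2 i (Or.inl hi)⟩⟩

theorem RtB4_pot {P : Fin 3 → Prop} {Q : Fin 3 → Bool} {j : Fin 3} (hj : Q j = true)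
    {q : Fin 3 × Bool → ℤ} (hq : Pw.PQ (RtB4_P P Q j) q) (V : CC) :
    sq Q (act (pot j q) V) = act (pot j (fun x => 2 * q x)) (sq Q V) := by
  unfold sq
  rw [pw_pot (e := fun i => if Q i = true then 2 else 1) (j := j) (p := q) ?_ V]
  · simp [hj]
  · intro i hi h
    have h1 : Q i = true := by
      by_contra hc
      simp [hc] at h
    exact hq i (Or.inr ⟨h1, hi⟩)

theorem RtB4_form {n : ℕ} {P : Fin 3 → Prop} {Q : Fin 3 → Bool} {V : CC} (B : BQ n P Q V)
    {j : Fin 3} (hj : Q j = true) {W : CC} (hW : W ∈ SQ P Q (fun i => i = j) V) :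
    ∃ q : Fin 3 × Bool → ℤ, Pw.PQ (RtB4_P P Q j) q ∧ (∀ x : Fin 3 × Bool, x.1 = j → q x = 0) ∧
      W = act (pot j q) V := by
  have h : Relation.ReflTransGen (StQ P Q (fun i => i = j)) V W := hW
  clear hW
  induction h with
  | refl => exact ⟨0, fun _ _ => rfl, fun x _ => rfl, (pot_zero j V).symm⟩
  | tail _ hst ih =>
    obtain ⟨q, hqP, hq, rfl⟩ := ih
    obtain ⟨z, A, hz, hA, hAP, hAQ, rfl⟩ := hst
    subst hz
    refine ⟨fun x => if x.1 = z.1 then 0 else (whp z A + q) x, ?_, fun x hx => if_pos hx, ?_⟩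
    · intro i hi
      have h2 : A (i, true) = A (i, false) := by
        rcases hi with hi | hi
        · exact hAP i hi
        · exact hAQ i hi.1 hi.2
      simp [whp, hqP i hi, h2]
    have h1 : act (wh z A) (act (pot z.1 q) V) = act (pot z.1 (whp z A + q)) V := by
      unfold wh
      rw [pot_add]
    rw [h1]
    apply pot_congr
    intro x hx
    rw [if_neg hx]

theorem RtB4_minrep {n : ℕ} {P : Fin 3 → Prop} {Q : Fin 3 → Bool} {V : CC} (B : BQ n P Q V)
    (hc : ∀ i, 0 < cnt V i) {j : Fin 3} (hj : Q j = true) {W : CC}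
    (hW : W ∈ SQ P Q (fun i => i = j) V) :
    ∃ q : Fin 3 × Bool → ℤ, Pw.PQ (RtB4_P P Q j) q ∧ (∀ x, 0 ≤ q x) ∧
      (∀ x : Fin 3 × Bool, x.1 = j → q x = 0) ∧ W = act (pot j q) V ∧
      ∀ X, PF (RtB4_P P Q j) X → Clo j (sq Q V) X → (∃ x : Fin 3 × Bool, x.1 ≠ j ∧ X x = true) →
        ∃ x : Fin 3 × Bool, x.1 ≠ j ∧ X x = true ∧ q x = 0 := by
  classical
  obtain ⟨q0, hq0P, hq0, hW0⟩ := RtB4_form B hj hW
  have hWc : ∀ i, 0 < cnt W i := by
    intro i
    rw [SQ_cnt hW i]
    exact hc i
  let S : ℕ → Prop := fun N => ∃ q : Fin 3 × Bool → ℤ, Pw.PQ (RtB4_P P Q j) q ∧ (∀ x, 0 ≤ q x) ∧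
    (∀ x : Fin 3 × Bool, x.1 = j → q x = 0) ∧ W = act (pot j q) V ∧ ∑ x, q x = (N : ℤ)
  have hS : ∃ N, S N := by
    set k : ℤ := ∑ x, |q0 x| with hk
    have hle : ∀ x, |q0 x| ≤ k := fun x =>
      Finset.single_le_sum (f := fun x => |q0 x|) (fun y _ => abs_nonneg _) (Finset.mem_univ x)
    have hnn : ∀ x, 0 ≤ (fun x : Fin 3 × Bool => if x.1 = j then (0 : ℤ) else q0 x + k) x := by
      intro x
      by_cases hx : x.1 = j
      · simp [hx]
      · have h1 := hle x
        have h2 := neg_abs_le (q0 x)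
        simp only [hx, if_false]
        omega
    refine ⟨(∑ x, (fun x : Fin 3 × Bool => if x.1 = j then (0 : ℤ) else q0 x + k) x).toNat,
      fun x => if x.1 = j then 0 else q0 x + k, fun i hi => by simp [hq0P i hi], hnn,
      fun x hx => if_pos hx, ?_, ?_⟩
    · rw [hW0]
      symm
      apply pot_const k
      intro x hx
      rw [if_neg hx]
    · rw [Int.toNat_of_nonneg (Finset.sum_nonneg fun x _ => hnn x)]
  obtain ⟨q, hqP, h1, h2, h3, h4⟩ := Nat.find_spec hS
  refine ⟨q, hqP, h1, h2, h3, ?_⟩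
  intro X hXP hX hx
  by_contra hcon
  obtain ⟨x0, hx0, hx0'⟩ := hx
  have hge : ∀ x : Fin 3 × Bool, x.1 ≠ j → X x = true → 1 ≤ q x := by
    intro x hxj hXx
    have h5 := h1 x
    by_contra h6
    exact hcon ⟨x, hxj, hXx, by omega⟩
  set q' : Fin 3 × Bool → ℤ := fun x => if x.1 = j then 0 else q x - ind X x with hq'
  have hnn : ∀ x, 0 ≤ q' x := by
    intro x
    rw [hq']
    by_cases hxj : x.1 = j
    · simp [hxj]
    · simp only [hxj, if_false]
      have h5 := h1 x
      by_cases hXx : X x = true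
      · have h6 := hge x hxj hXx
        simp only [ind, hXx, if_true]
        omega
      · simp only [ind, hXx]
        simp
        exact h5
  have hle : ∀ x, q' x ≤ q x := by
    intro x
    rw [hq']
    by_cases hxj : x.1 = j
    · simp only [hxj, if_true]
      exact h1 x
    · simp only [hxj, if_false]
      have : 0 ≤ ind X x := by
        unfold ind
        split_ifs <;> omega
      omega
  have hlt : q' x0 < q x0 := by
    rw [hq']
    simp only [hx0, if_false, ind, hx0', if_true]
    omega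
  have hsum : ∑ x, q' x < ∑ x, q x :=
    Finset.sum_lt_sum (fun x _ => hle x) ⟨x0, Finset.mem_univ _, hlt⟩
  have hqP' : Pw.PQ (RtB4_P P Q j) q' := fun i hi => by simp [hq', hqP i hi, ind, hXP i hi]
  have hW' : W = act (pot j q') V := by
    have e1 : sq Q W = sq Q (act (pot j q') V) := by
      rw [h3, RtB4_pot hj hqP, RtB4_pot hj hqP']
      rw [← hX (fun x => 2 * q' x), ← hX ((fun x => 2 * q' x) + ind X)]
      apply pot_congr
      intro x hx
      rw [hq']
      simp only [Pi.add_apply, hx, if_false]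
      ring
    have e2 : ∀ i, 0 < cnt (act (pot j q') V) i := by
      intro i
      have e3 := RtB4_cnt Q W i
      rw [e1, RtB4_cnt] at e3
      have e4 := hWc i
      have e5 := RtB4_e1 Q i
      exact Nat.pos_of_ne_zero fun e6 => by
        rw [e6, mul_zero] at e3
        have := Nat.mul_pos e5 e4
        omega
    exact pw_inj (RtB4_e1 Q) hWc e2 e1
  have hpos : 0 ≤ ∑ x, q' x := Finset.sum_nonneg fun x _ => hnn x
  have hmin := Nat.find_min' hS (m := (∑ x, q' x).toNat)
    ⟨q', hqP', hnn, fun x hx => if_pos hx, hW',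
      by rw [Int.toNat_of_nonneg hpos]⟩
  rw [h4] at hsum
  omega

theorem RtB4_rep {n : ℕ} {P : Fin 3 → Prop} {Q : Fin 3 → Bool} {V : CC} (B : BQ n P Q V)
    (hc : ∀ i, 0 < cnt V i) {j : Fin 3} (hj : Q j = true) {W : CC}
    (hW : W ∈ SQ P Q (fun i => i = j) V) :
    W = V ∨ ∃ A ∈ LSP (RtB4_P P Q j) (sq Q V) (j, true), W = act (wh (j, true) A) V := by
  obtain ⟨q, hqP, h1, h2, h3, h5⟩ := RtB4_minrep B hc hj hW
  have E' := RtB4_E B j
  have hj' : ¬ RtB4_P P Q j j := by
    rintro (h | h)
    · exact B.d j hj h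
    · exact h.2 rfl
  have hqP2 : Pw.PQ (RtB4_P P Q j) (fun x => 2 * q x) := fun i hi => by simp [hqP i hi]
  have hcW : cnt (act (pot j (fun x => 2 * q x)) (sq Q V)) j = n := by
    rw [← RtB4_pot hj hqP V, ← h3, RtB4_cnt, if_pos hj, SQ_cnt hW j]
    exact bq_cnt B hj
  obtain ⟨h6, -⟩ := Pw.lemS E' hj' hqP2 (fun x => by have := h1 x; omega) (fun X hXP hX hx => by
    obtain ⟨x, a1, a2, a3⟩ := h5 X hXP hX hx
    exact ⟨x, a1, a2, by simp [a3]⟩) hcW
  obtain ⟨A, hAd⟩ : ∃ A : Ct, A = fun x => decide (x = (j, true)) || decide (1 ≤ q x) := ⟨_, rfl⟩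
  have hqA : ∀ x : Fin 3 × Bool, x.1 ≠ j → q x = ind A x := by
    intro x hx
    have e1 := h1 x
    have e2 := h6 x hx
    have e3 : x ≠ (j, true) := fun h => hx (by rw [h])
    rw [hAd]
    by_cases e4 : 1 ≤ q x
    · simp only [ind, e3, e4, decide_true, Bool.or_true, if_true]
      omega
    · simp only [ind, e3, e4, decide_false, Bool.or_false]
      simp
      omega
  have hA1 : A (j, true) = true := by rw [hAd]; simp
  have hA2 : A (j, false) = false := by
    rw [hAd]
    simp [h2 (j, false) rfl]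
  have hAP : PF (RtB4_P P Q j) A := by
    intro i hi
    have hij : i ≠ j := by
      rintro rfl
      exact hj' hi
    rw [hAd]
    simp [hij, hqP i hi]
  have hWA : W = act (wh (j, true) A) V := by
    rw [h3]
    unfold wh
    apply pot_congr
    intro x hx
    rw [hqA x hx]
    simp [whp, sgn, ind]
  have hL : LP (RtB4_P P Q j) (sq Q V) (j, true) A := by
    apply Pw.pot_Lv E' hj' hA1 hA2 hAP
    have e1 := (Pw.pot_split E' hj' hqP2 hcW 1).2
    rw [← e1]
    congr 1
    apply pot_congr
    intro x hx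
    have e2 := hqA x hx
    rw [← e2]
    have e3 := h1 x
    have e4 := h6 x hx
    rcases (by omega : q x = 0 ∨ q x = 1) with e5 | e5 <;> rw [e5] <;> rfl
  by_cases hN : Ntr A
  · exact Or.inr ⟨A, Pw.ls_mem.2 ⟨hL, hN⟩, hWA⟩
  · left
    rw [hWA]
    apply Lv_ntr _ hN
    refine ⟨hA1, hA2, ?_⟩
    rw [← cnt_wh_self V (j, true) A hA1 hA2, ← hWA]
    exact SQ_cnt hW j

theorem RtB4_chain {n : ℕ} {P : Fin 3 → Prop} {Q : Fin 3 → Bool} {V : CC} (B : BQ n P Q V)
    {j : Fin 3} (hj : Q j = true) :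
    ∀ A ∈ LSP (RtB4_P P Q j) (sq Q V) (j, true), ∀ A' ∈ LSP (RtB4_P P Q j) (sq Q V) (j, true),
      (∀ x, A x = true → A' x = true) ∨ (∀ x, A' x = true → A x = true) := by
  intro A hA A' hA'
  have h1 := (Pw.ls_mem.1 hA).1
  have h2 := (Pw.ls_mem.1 hA').1
  rcases Pw.EvLS_cmp h1 h2 with h | h | h
  · exact Or.inl h
  · exact Or.inr h
  · exfalso
    have h3 := Pw.ls_cross0 (RtB4_E B j) h1 h2 h.2.1 h.2.2.1
    have h4 := bq_e1 B hj
    have h5 := B.e.h4
    have h6 : bar (j, true) = (j, false) := rfl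
    rw [h6] at h3
    omega

theorem RtB4_chain2 {P : Fin 3 → Prop} {V : CC} {z : Fin 3 × Bool} {k : Fin 3} (hk : k ≠ z.1)
    (hP : P k)
    (h : ∀ A ∈ LSP P V z, ∀ B ∈ LSP P V z, (∀ x, A x = true → B x = true) ∨
      (∀ x, B x = true → A x = true)) : (LSP P V z).card ≤ 2 := by
  obtain ⟨l, hl, hlk⟩ : ∃ l : Fin 3, l ≠ z.1 ∧ l ≠ k := by
    clear * - hk
    generalize z.1 = i at hk
    revert i k
    decide
  have hall : ∀ i : Fin 3, i = z.1 ∨ i = k ∨ i = l := by
    clear * - hk hl hlk
    generalize z.1 = i at hk hl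
    revert i k l
    decide
  have hc : (LSP P V z).card ≤ (Finset.Icc 1 2).card := by
    refine Finset.card_le_card_of_injOn
      (fun A => (A (k, true)).toNat + (A (l, true)).toNat + (A (l, false)).toNat) ?_ ?_
    · intro A hA
      obtain ⟨hL, hN⟩ := Pw.ls_mem.1 hA
      obtain ⟨u, hu, hu'⟩ := (EvNB_two hN z).1
      obtain ⟨v, hv, hv'⟩ := (EvNB_two hN (bar z)).2
      have hf : A (k, true) = A (k, false) := hL.2.2.2 k hP
      have hu1 : u.1 ≠ z.1 := by
        intro h0
        rcases EvNB_fst h0 with h3 | h3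
        · exact hu h3
        · rw [h3, hL.2.1] at hu'
          exact Bool.false_ne_true hu'
      have hv1 : v.1 ≠ z.1 := by
        intro h0
        rcases EvNB_fst h0 with h3 | h3
        · rw [h3, hL.1] at hv'
          exact Bool.false_ne_true hv'.symm
        · exact hv h3
      have key1 : A (k, true) = true ∨ A (l, true) = true ∨ A (l, false) = true := by
        rcases hall u.1 with h3 | h3 | h3
        · exact absurd h3 hu1
        · left
          rcases u with ⟨i, b⟩
          simp only at h3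
          subst h3
          cases b
          · rw [hf]; exact hu'
          · exact hu'
        · right
          rcases u with ⟨i, b⟩
          simp only at h3
          subst h3
          cases b
          · exact Or.inr hu'
          · exact Or.inl hu'
      have key2 : A (k, true) = false ∨ A (l, true) = false ∨ A (l, false) = false := by
        rcases hall v.1 with h3 | h3 | h3
        · exact absurd h3 hv1
        · left
          rcases v with ⟨i, b⟩
          simp only at h3
          subst h3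
          cases b
          · rw [hf]; exact hv'
          · exact hv'
        · right
          rcases v with ⟨i, b⟩
          simp only at h3
          subst h3
          cases b
          · exact Or.inr hv'
          · exact Or.inl hv'
      simp only [Finset.coe_Icc, Set.mem_Icc]
      revert key1 key2
      cases A (k, true) <;> cases A (l, true) <;> cases A (l, false) <;> simp
    · intro A hA B hB hAB
      have hAB' : (A (k, true)).toNat + (A (l, true)).toNat + (A (l, false)).toNat =
        (B (k, true)).toNat + (B (l, true)).toNat + (B (l, false)).toNat := hAB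
      have key : ∀ A B : Ct, LP P V z A → LP P V z B → (∀ x, A x = true → B x = true) →
          (A (k, true)).toNat + (A (l, true)).toNat + (A (l, false)).toNat =
          (B (k, true)).toNat + (B (l, true)).toNat + (B (l, false)).toNat → A = B := by
        intro A B hA hB hs hc
        have hfA : A (k, true) = A (k, false) := hA.2.2.2 k hP
        have hfB : B (k, true) = B (k, false) := hB.2.2.2 k hP
        have s1 := hs (k, true)
        have s2 := hs (l, true)
        have s3 := hs (l, false)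
        have e : A (k, true) = B (k, true) ∧ A (l, true) = B (l, true) ∧
            A (l, false) = B (l, false) := by
          revert s1 s2 s3 hc
          cases A (k, true) <;> cases A (l, true) <;> cases A (l, false) <;>
            cases B (k, true) <;> cases B (l, true) <;> cases B (l, false) <;> simp
        funext x
        rcases hall x.1 with h3 | h3 | h3
        · rcases EvNB_fst h3 with h4 | h4
          · rw [h4, hA.1, hB.1]
          · rw [h4, hA.2.1, hB.2.1]
        · rcases x with ⟨i, b⟩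
          simp only at h3
          subst h3
          cases b
          · rw [← hfA, ← hfB]; exact e.1
          · exact e.1
        · rcases x with ⟨i, b⟩
          simp only at h3
          subst h3
          cases b
          · exact e.2.2
          · exact e.2.1
      have hA' := (Pw.ls_mem.1 hA).1
      have hB' := (Pw.ls_mem.1 hB).1
      rcases h A hA B hB with h1 | h1
      · exact key A B hA' hB' h1 hAB'
      · exact (key B A hB' hA' h1 hAB'.symm).symm
  simpa using hc

theorem RtB4_cov {n : ℕ} {P : Fin 3 → Prop} {Q : Fin 3 → Bool} {V : CC} (B : BQ n P Q V)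
    (hc : ∀ i, 0 < cnt V i) {j : Fin 3} (hj : Q j = true) {N : ℕ}
    (hN : (LSP (RtB4_P P Q j) (sq Q V) (j, true)).card ≤ N) :
    Cov (SQ P Q (fun i => i = j) V) (N + 1) := by
  classical
  refine ⟨insert V ((LSP (RtB4_P P Q j) (sq Q V) (j, true)).image
    (fun A => act (wh (j, true) A) V)), ?_, ?_⟩
  · exact (Finset.card_insert_le _ _).trans
      (Nat.succ_le_succ (Finset.card_image_le.trans hN))
  · intro W hW
    rcases RtB4_rep B hc hj hW with h | ⟨A, hA, h⟩
    · rw [h]
      exact Finset.mem_insert_self _ _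
    · rw [h]
      exact Finset.mem_insert_of_mem (Finset.mem_image_of_mem _ hA)

theorem sq_line {n : ℕ} {P : Fin 3 → Prop} {Q : Fin 3 → Bool} {V : CC} (B : BQ n P Q V)
    (hc : ∀ i, 0 < cnt V i) {j : Fin 3} (hj : Q j = true) :
    Cov (SQ P Q (fun i => i = j) V) 4 ∧
    ((∃ k, k ≠ j ∧ (P k ∨ Q k = true)) → Cov (SQ P Q (fun i => i = j) V) 3) := by
  constructor
  · exact RtB4_cov B hc hj (Pw.ls_chain3 (RtB4_chain B hj))
  · rintro ⟨k, hk, h⟩
    refine RtB4_cov B hc hj (RtB4_chain2 (z := (j, true)) hk ?_ (RtB4_chain B hj))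
    rcases h with h | h
    · exact Or.inl h
    · exact Or.inr ⟨h, hk⟩

/-- nontrivial level `z`-cuts fixed on `P` and `Q` -/
def LSQ (P : Fin 3 → Prop) (Q : Fin 3 → Bool) (V : CC) (z : Fin 3 × Bool) : Set Ct :=
  {A | Lv V z A ∧ Ntr A ∧ PF P A ∧ QF Q z.1 A}

theorem lsq2 {P : Fin 3 → Prop} {Q : Fin 3 → Bool} {V : CC} {z : Fin 3 × Bool}
    (h : ∀ k, k ≠ z.1 → P k ∨ Q k = true) :
    ∃ F : Finset Ct, F.card ≤ 2 ∧ ∀ A ∈ LSQ P Q V z, A ∈ F := by
  classical
  refine ⟨(Finset.univ.filter (fun k : Fin 3 => k ≠ z.1)).image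
    (fun k => fun x => decide (x = z) || decide (x.1 = k)), ?_, ?_⟩
  · refine Finset.card_image_le.trans ?_
    generalize z.1 = i
    revert i
    decide
  · rintro A ⟨hL, hN, hP, hQ⟩
    have hf : ∀ k, k ≠ z.1 → A (k, true) = A (k, false) := by
      intro k hk
      rcases h k hk with h1 | h1
      · exact hP k h1
      · exact hQ k h1 hk
    have hf' : ∀ x y : Fin 3 × Bool, x.1 = y.1 → x.1 ≠ z.1 → A x = A y := by
      rintro ⟨i, b⟩ ⟨i', b'⟩ h1 h2
      simp only at h1 h2
      subst h1
      cases b <;> cases b'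
      · rfl
      · exact (hf i h2).symm
      · exact hf i h2
      · rfl
    obtain ⟨u, hu, hu'⟩ := (EvNB_two hN z).1
    obtain ⟨v, hv, hv'⟩ := (EvNB_two hN (bar z)).2
    have hu1 : u.1 ≠ z.1 := by
      intro h0
      rcases EvNB_fst h0 with h3 | h3
      · exact hu h3
      · rw [h3, hL.2.1] at hu'
        exact Bool.false_ne_true hu'
    have hv1 : v.1 ≠ z.1 := by
      intro h0
      rcases EvNB_fst h0 with h3 | h3
      · rw [h3, hL.1] at hv'
        exact Bool.false_ne_true hv'.symm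
      · exact hv h3
    have huv : u.1 ≠ v.1 := by
      intro h0
      have := hf' u v h0 hu1
      rw [hu', hv'] at this
      exact Bool.false_ne_true this.symm
    have hall : ∀ i : Fin 3, i = z.1 ∨ i = u.1 ∨ i = v.1 := by
      clear * - hu1 hv1 huv
      generalize z.1 = i at *
      generalize u.1 = j at *
      generalize v.1 = k at *
      revert i j k
      decide
    refine Finset.mem_image.2 ⟨u.1, Finset.mem_filter.2 ⟨Finset.mem_univ _, hu1⟩, ?_⟩
    funext x
    rcases hall x.1 with h3 | h3 | h3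
    · rcases EvNB_fst h3 with h4 | h4
      · rw [h4, hL.1]
        simp
      · rw [h4, hL.2.1]
        have e1 : ¬ ((bar z).1 = u.1) := fun h => hu1 (by rw [← h]; rfl)
        have e2 : ¬ (bar z = z) := bar_ne z
        rw [decide_eq_false e1, decide_eq_false e2]
        rfl
    · rw [hf' x u h3 (by rw [h3]; exact hu1), hu']
      simp [h3]
    · rw [hf' x v h3 (by rw [h3]; exact hv1), hv']
      have e1 : ¬ (x.1 = u.1) := by rw [h3]; exact fun h => huv h.symm
      have e2 : x ≠ z := fun h => hv1 (by rw [← h3, h])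
      simp [e1, e2]

theorem lsq4 {n : ℕ} {P : Fin 3 → Prop} {Q : Fin 3 → Bool} {V : CC} (B : BQ n P Q V)
    {z : Fin 3 × Bool} (hz : z.1 ≠ 2) (hQ : Q z.1 = false) (hP : ¬ P z.1)
    (h2 : P 2 ∨ Q 2 = true) (hc : ∀ i, i ≠ 2 → cnt (sq Q V) i = n) :
    ∃ F : Finset Ct, F.card ≤ 4 ∧ ∀ A ∈ LSQ P Q V z, A ∈ F := by
  classical
  by_cases hk : ∃ k : Fin 3, k ≠ z.1 ∧ k ≠ 2 ∧ P k
  · obtain ⟨k, hk1, hk2, hk3⟩ := hk
    have hall : ∀ i : Fin 3, i ≠ z.1 → i = 2 ∨ i = k := by
      clear * - hz hk1 hk2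
      generalize z.1 = i at *
      revert i k
      decide
    obtain ⟨F, hF, hF'⟩ := lsq2 (P := P) (Q := Q) (V := V) (z := z) (by
      intro i hi
      rcases hall i hi with h | h
      · rw [h]; exact h2
      · rw [h]; exact Or.inl hk3)
    exact ⟨F, hF.trans (by norm_num), hF'⟩
  · have hP2 : ∀ i, P i → P2 i := by
      intro i hi
      by_contra h
      exact hk ⟨i, fun h' => hP (by rw [← h']; exact hi), h, hi⟩
    have E : EqP n P2 (sq Q V) := by
      refine ⟨B.e.h4, fun i hi => hc i hi, fun hA => B.e.low ⟨hA.1, fun i hi => ?_⟩⟩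
      exact hA.2 i (hP2 i hi)
    refine ⟨LSP P2 (sq Q V) z, Pw.ls4 E hz, ?_⟩
    rintro A ⟨hL, hN, hPA, hQA⟩
    refine Pw.ls_mem.2 ⟨⟨hL.1, hL.2.1, ?_, ?_⟩, hN⟩
    · rw [RtB4_cap V (fun i hi => hQA i hi (fun h => by rw [h, hQ] at hi; exact absurd hi (by decide))),
        RtB4_cnt, if_neg (by rw [hQ]; decide), one_mul]
      exact hL.2.2
    · intro i hi
      have hi' : i = 2 := hi
      subst hi'
      rcases h2 with h | h
      · exact hPA 2 h
      · exact hQA 2 h (fun h => hz h.symm)

theorem lsq_cov {P : Fin 3 → Prop} {Q : Fin 3 → Bool} {V : CC} {z : Fin 3 × Bool} {N : ℕ}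
    (h : ∃ F : Finset Ct, F.card ≤ N ∧ ∀ A ∈ LSQ P Q V z, A ∈ F) :
    Cov {W | ∃ A, Lv V z A ∧ PF P A ∧ QF Q z.1 A ∧ W = act (wh z A) V} (1 + N) := by
  classical
  obtain ⟨F, hF, hF'⟩ := h
  refine ⟨insert V (F.image (fun A => act (wh z A) V)), ?_, ?_⟩
  · rw [add_comm 1 N]
    exact (Finset.card_insert_le _ _).trans
      (Nat.succ_le_succ (Finset.card_image_le.trans hF))
  · rintro W ⟨A, hL, hP, hQ, rfl⟩
    by_cases hN : Ntr A
    · exact Finset.mem_insert_of_mem (Finset.mem_image_of_mem _ (hF' A ⟨hL, hN, hP, hQ⟩))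
    · rw [Lv_ntr hL hN]
      exact Finset.mem_insert_self _ _

end Pool.Agent.Sims
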