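import Pool.Agent.Sims.RtDefs

namespace Pool.Agent.Sims

namespace Pw

variable {P : Fin 3 → Prop}

theorem PF_compl {A : Ct} (h : PF P A) : PF P (fun x => !A x) := by
  intro i hi
  simp [h i hi]

theorem PF_and {A B : Ct} (h : PF P A) (h' : PF P B) : PF P (fun x => A x && B x) := by
  intro i hi
  simp [h i hi, h' i hi]

theorem PF_andn {A B : Ct} (h : PF P A) (h' : PF P B) : PF P (fun x => A x && !B x) := by
  intro i hi
  simp [h i hi, h' i hi]

theorem PF_nand {A B : Ct} (h : PF P A) (h' : PF P B) : PF P (fun x => !A x && B x) := by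
  intro i hi
  simp [h i hi, h' i hi]

theorem PF_nn {A B : Ct} (h : PF P A) (h' : PF P B) : PF P (fun x => !A x && !B x) := by
  intro i hi
  simp [h i hi, h' i hi]

theorem PF_or {A B : Ct} (h : PF P A) (h' : PF P B) : PF P (fun x => A x || B x) := by
  intro i hi
  simp [h i hi, h' i hi]

theorem PF_congr {A B : Ct} (h : PF P A) (hAB : ∀ x, A x = B x) : PF P B := by
  intro i hi
  rw [← hAB, ← hAB, h i hi]

theorem LP_fst {V : CC} {z : Fin 3 × Bool} {A : Ct} (h : LP P V z A) : ¬ P z.1 := by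
  intro hp
  have h1 := h.2.2.2 z.1 hp
  have h2 := h.1
  have h3 := h.2.1
  rcases z with ⟨i, b⟩
  cases b
  · rw [h2] at h1
    have h3' : A (i, true) = false := h3
    rw [h3'] at h1
    exact absurd h1 (by decide)
  · have h3' : A (i, false) = false := h3
    rw [h2, h3'] at h1
    exact absurd h1 (by decide)

theorem PF_ne {A : Ct} (h : PF P A) {z : Fin 3 × Bool} (h1 : A z = true)
    (h2 : A (bar z) = false) : ¬ P z.1 := by
  intro hp
  have h3 := h z.1 hp
  rcases z with ⟨i, b⟩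
  cases b
  · have h3' : A (i, true) = false := h2
    rw [h1, h3'] at h3
    exact absurd h3 (by decide)
  · have h3' : A (i, false) = false := h2
    rw [h1, h3'] at h3
    exact absurd h3 (by decide)

theorem LP_Lv {V : CC} {z : Fin 3 × Bool} {A : Ct} (h : LP P V z A) : Lv V z A :=
  ⟨h.1, h.2.1, h.2.2.1⟩

/-- letters of `P` are different from `z`, `z⁻¹` -/
theorem P_ne {z : Fin 3 × Bool} (hz : ¬ P z.1) {i : Fin 3} (hi : P i) (b : Bool) :
    ((i, b) : Fin 3 × Bool) ≠ z ∧ ((i, b) : Fin 3 × Bool) ≠ bar z := by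
  constructor
  · rintro rfl
    exact hz hi
  · intro h
    apply hz
    have h1 : (bar z).1 = i := by rw [← h]
    have h2 : z.1 = i := h1
    rw [h2]
    exact hi

theorem PF_stc {A : Ct} {z : Fin 3 × Bool} (hz : ¬ P z.1) (h : PF P A) : PF P (stc A z) := by
  intro i hi
  have h1 : ∀ b : Bool, ((i, b) : Fin 3 × Bool) ≠ z := by
    rintro b rfl
    exact hz hi
  have h2 : ∀ b : Bool, ((i, b) : Fin 3 × Bool) ≠ bar z := by
    rintro b hb
    apply hz
    have : (bar z).1 = i := by rw [← hb]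
    have h3 : z.1 = i := this
    rw [h3]
    exact hi
  simp [stc, h1, h2, h i hi]

theorem PF_tp {y : Fin 3 × Bool} (hy : ¬ P y.1) {B Q : Ct} (h : PF P B) (h' : PF P Q) :
    PF P (tp y B Q) := by
  intro i hi
  have h1 : ∀ b : Bool, ((i, b) : Fin 3 × Bool) ≠ y := by
    rintro b rfl
    exact hy hi
  simp [tp, h1, h i hi, h' i hi]

theorem Lv_compl {V : CC} {z : Fin 3 × Bool} {A : Ct} (h : LP P V z A) :
    LP P V (bar z) (fun x => !A x) ∧ act (wh (bar z) (fun x => !A x)) V = act (wh z A) V := by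
  obtain ⟨h1, h2⟩ := Pool.Agent.Sims.Lv_compl (LP_Lv h)
  exact ⟨⟨h1.1, h1.2.1, h1.2.2, PF_compl h.2.2.2⟩, h2⟩

theorem Lv_inv {V : CC} {z : Fin 3 × Bool} {A : Ct} (h : LP P V z A) :
    LP P (act (wh z A) V) (bar z) (fun x => (A x && decide (x ≠ z)) || decide (x = bar z)) ∧
    act (wh (bar z) (fun x => (A x && decide (x ≠ z)) || decide (x = bar z)))
      (act (wh z A) V) = V := by
  obtain ⟨h1, h2⟩ := Pool.Agent.Sims.Lv_inv (LP_Lv h)
  exact ⟨⟨h1.1, h1.2.1, h1.2.2, PF_stc (LP_fst h) h.2.2.2⟩, h2⟩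

theorem Prp_compl {A : Ct} (h : PrpP P A) : PrpP P (fun x => !A x) :=
  ⟨Pool.Agent.Sims.Prp_compl h.1, PF_compl h.2⟩

theorem Lv_Prp {V : CC} {z : Fin 3 × Bool} {A : Ct} (h : LP P V z A) : PrpP P A :=
  ⟨⟨⟨z, h.1⟩, ⟨bar z, h.2.1⟩⟩, h.2.2.2⟩

theorem Lv_NC {n : ℕ} {V : CC} (E : EqP n P V) {z : Fin 3 × Bool} {A : Ct} :
    LP P V z A ↔ (A z = true ∧ A (bar z) = false ∧ NP n P V A) := by
  constructor
  · intro h
    refine ⟨h.1, h.2.1, Lv_Prp h, ?_⟩
    rw [h.2.2.1, E.c _ (LP_fst h)]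
  · rintro ⟨h1, h2, h0, h3⟩
    exact ⟨h1, h2, by rw [h3, E.c _ (PF_ne h0.2 h1 h2)], h0.2⟩

theorem NC_compl {n : ℕ} {V : CC} {A : Ct} (h : NP n P V A) : NP n P V (fun x => !A x) :=
  ⟨Prp_compl h.1, by rw [capC_compl, h.2]⟩

theorem NC_congr {n : ℕ} {V : CC} {A B : Ct} (h : NP n P V A) (hAB : ∀ x, A x = B x) :
    NP n P V B := by
  have : A = B := funext hAB
  rwa [← this]

theorem EvBas_VX {n : ℕ} {V : CC} {Q : Ct} (h : VP n P V Q) : VP n P V (fun x => !Q x) := by
  obtain ⟨C, hC, hX⟩ := h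
  exact ⟨C, hC, Crossg_compl' hX⟩

theorem VX_congr {n : ℕ} {V : CC} {Q Q' : Ct} (h : ∀ x, Q x = Q' x) :
    VP n P V Q ↔ VP n P V Q' := by
  have : Q = Q' := funext h
  rw [this]

theorem VX_compl {n : ℕ} {V : CC} {Q : Ct} : VP n P V (fun x => !Q x) ↔ VP n P V Q := by
  constructor
  · intro h
    exact (VX_congr (fun x => by simp)).1 (EvBas_VX h)
  · exact EvBas_VX

theorem VX_Ntr {n : ℕ} {V : CC} {Q : Ct} (h : VP n P V Q) : Ntr Q := by
  obtain ⟨C, hC, hX⟩ := h
  exact Crossg_Ntr hX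

theorem Lv_ntr {V : CC} {z : Fin 3 × Bool} {A : Ct} (h : LP P V z A) (hn : ¬ Ntr A) :
    act (wh z A) V = V := Pool.Agent.Sims.Lv_ntr (LP_Lv h) hn

/-- a cut nested with the old sphere after a level move comes from a cut before the move -/
theorem RtBas_nest {n : ℕ} {V : CC} (E : EqP n P V) {z : Fin 3 × Bool} {A Q : Ct}
    (h : LP P V z A) (hQ : PrpP P Q) (hn : ¬ Crossg Q (stc A z)) :
    n ≤ capC (act (wh z A) V) Q := by
  have key : ∀ (V' : CC) (y : Fin 3 × Bool) (B Q : Ct), B y = true → B (bar y) = false →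
      PF P B → act (wh y B) V' = V → PrpP P Q → (∀ x, Q x = true → B x = false) →
      n ≤ capC V' Q := by
    intro V' y B Q hy hy' hB hV hQ hd
    have hQy : Q y = false := by
      by_contra hc
      have := hd y (by simpa using hc)
      rw [hy] at this
      exact absurd this (by decide)
    have hs : ∀ x, B x = true → Q x = false := by
      intro x hx
      by_contra hc
      have := hd x (by simpa using hc)
      rw [hx] at this
      exact absurd this (by decide)
    have hyP : ¬ P y.1 := PF_ne hB hy hy'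
    cases hb : Q (bar y) with
    | false =>
      have h1 := capC_wh_disj V' y B Q hy hy' hQy hb hs
      rw [hV] at h1
      rw [← h1]
      exact E.low hQ
    | true =>
      have h1 := capC_wh_disj' V' y B Q hy hy' hQy hb hs
      rw [hV] at h1
      rw [← h1]
      apply E.low
      refine ⟨⟨⟨bar y, by simp [hb]⟩, ⟨y, by simp [hQy]⟩⟩, ?_⟩
      intro i hi
      have h2 : ∀ b : Bool, ((i, b) : Fin 3 × Bool) ≠ y := by
        rintro b rfl
        exact hyP hi
      simp [h2, hB i hi, hQ.2 i hi]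
  obtain ⟨hL, hV⟩ := Lv_inv h
  obtain ⟨hL', hV'⟩ := Lv_compl hL
  rw [hV] at hV'
  rcases not_Crossg hn with h1 | h1 | h1 | h1
  · exact key _ _ _ Q hL.1 hL.2.1 hL.2.2.2 hV hQ h1
  · exact key _ _ _ Q hL'.1 hL'.2.1 hL'.2.2.2 hV' hQ (fun x hx => by
      have := h1 x hx
      have h2 : (fun x => (A x && decide (x ≠ z)) || decide (x = bar z)) x = true := this
      simp only [Bool.not_eq_false']
      exact h2)
  · have h3 := key _ _ _ (fun x => !Q x) hL.1 hL.2.1 hL.2.2.2 hV (Prp_compl hQ) (fun x hx => by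
      by_contra hc
      have hc' : stc A z x = true := by
        have hc2 : ¬ (stc A z x = false) := hc
        simpa using hc2
      have := h1 x hc'
      simp [this] at hx)
    rwa [capC_compl] at h3
  · have h3 := key _ _ _ (fun x => !Q x) hL'.1 hL'.2.1 hL'.2.2.2 hV' (Prp_compl hQ) (fun x hx => by
      rcases h1 x with h2 | h2
      · simp [h2] at hx
      · have h4 : (fun x => (A x && decide (x ≠ z)) || decide (x = bar z)) x = true := h2
        simp only [Bool.not_eq_false']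
        exact h4)
    rwa [capC_compl] at h3

theorem _root_.Pool.Agent.Sims.EqP.lv {n : ℕ} {V : CC} (E : EqP n P V) {z : Fin 3 × Bool} {A : Ct} (h : LP P V z A) :
    EqP n P (act (wh z A) V) := by
  refine ⟨E.h4, ?_, ?_⟩
  · intro i hi
    by_cases hiz : i = z.1
    · subst hiz
      rw [cnt_wh_self _ _ _ h.1 h.2.1, h.2.2.1, E.c _ hi]
    · rw [cnt_wh_ne _ _ _ hiz, E.c _ hi]
  · intro Q hQ
    by_cases hc : Crossg Q (stc A z)
    · obtain ⟨⟨x, x1, x2⟩, ⟨y, y1, y2⟩, ⟨u, u1, u2⟩, ⟨v, v1, v2⟩⟩ := id hc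
      have hS : capC (act (wh z A) V) (stc A z) = n := by
        have hL := (Lv_inv h).1
        have h1 := hL.2.2.1
        have h2 : capC (act (wh z A) V) (stc A z) = cnt (act (wh z A) V) (bar z).1 := h1
        rw [h2]
        show cnt (act (wh z A) V) z.1 = n
        rw [cnt_wh_self _ _ _ h.1 h.2.1, h.2.2.1, E.c _ (LP_fst h)]
      have hSP : PF P (stc A z) := PF_stc (LP_fst h) h.2.2.2
      have h1 := RtBas_nest E h (Q := fun x => Q x && stc A z x)
        ⟨⟨⟨x, by simp [x1, x2]⟩, ⟨v, by simp [v1]⟩⟩, PF_and hQ.2 hSP⟩ (by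
          rintro ⟨-, ⟨w, w1, w2⟩, -⟩
          simp [w2] at w1)
      have h2 := RtBas_nest E h (Q := fun x => Q x || stc A z x)
        ⟨⟨⟨x, by simp [x1]⟩, ⟨v, by simp [v1, v2]⟩⟩, PF_or hQ.2 hSP⟩ (by
          rintro ⟨-, -, ⟨w, w1, w2⟩, -⟩
          simp [w2] at w1)
      have h3 := capC_submod (act (wh z A) V) Q (stc A z)
      omega
    · exact RtBas_nest E h hQ hc

/-- all letters occur -/
theorem _root_.Pool.Agent.Sims.EqP.pos {n : ℕ} {V : CC} (E : EqP n P V) (i : Fin 3) :
    0 < cnt V i := by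
  by_contra h0
  have h0' : cnt V i = 0 := by omega
  have h4 := E.h4
  obtain ⟨j, hj⟩ : ∃ j : Fin 3, j ≠ i := exists_ne i
  have h1 : PrpP P (PrC i) := by
    refine ⟨⟨⟨(i, true), by simp [PrC]⟩, ⟨(j, true), by simp [PrC, hj]⟩⟩, ?_⟩
    intro k _
    simp [PrC]
  have h2 := E.low h1
  have h3 : capC V (PrC i) = edgS V (fun x => !PrC i x) (PrC i) := by
    rw [capC_edgS, edgS_comm]
  have h5 := edgS_split V (P := fun x => !PrC i x) (Q := PrC i) (sgl (i, true)) (by
    intro x hx
    simpa using hx)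
  have h6 : edgS V (fun x => !PrC i x) (fun x => PrC i x && sgl (i, true) x) ≤ cnt V i := by
    rw [← capC_sgl V (i, true), capC_edgS, edgS_comm]
    apply edgS_mono
    · intro x hx
      simp only [Bool.and_eq_true] at hx
      exact hx.2
    · intro x hx
      simp only [PrC, sgl, Bool.not_eq_true', decide_eq_false_iff_not] at hx ⊢
      rintro rfl
      exact hx rfl
  have h7 : edgS V (fun x => !PrC i x) (fun x => PrC i x && !sgl (i, true) x) ≤ cnt V i := by
    rw [← capC_sgl V (i, false), capC_edgS, edgS_comm]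
    apply edgS_mono
    · intro x hx
      obtain ⟨k, b⟩ := x
      simp only [PrC, sgl, Bool.and_eq_true, decide_eq_true_eq, Bool.not_eq_true',
        decide_eq_false_iff_not] at hx ⊢
      obtain ⟨rfl, hx2⟩ := hx
      cases b
      · rfl
      · exact absurd rfl hx2
    · intro x hx
      simp only [PrC, sgl, Bool.not_eq_true', decide_eq_false_iff_not] at hx ⊢
      rintro rfl
      exact hx rfl
  omega

end Pw

end Pool.Agent.Sims
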