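import Pool.Agent.Sims.RtBas

/-!
# Module `RtBasS` : port of `EvBasS` (signed permutations which preserve `P`)
-/

namespace Pool.Agent.Sims

namespace Pw

open FreeGroup (of)

variable {P : Fin 3 → Prop}

theorem PF_SPerm {A : Ct} (h : PF P A) (σ : SPerm (Fin 3)) (hσ : ∀ i, P i ↔ P (σ.perm i)) :
    PF P (fun x => A (σ.inv.letter x)) := by
  intro i hi
  have hp : P (σ.perm.symm i) := by
    rw [hσ, Equiv.apply_symm_apply]
    exact hi
  have key : ∀ b, A (σ.perm.symm i, b) = A (σ.perm.symm i, true) := by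
    intro b
    cases b
    · exact (h _ hp).symm
    · rfl
  exact (key _).trans (key _).symm

theorem PF_SPerm' {A : Ct} (h : PF P A) (σ : SPerm (Fin 3)) (hσ : ∀ i, P i ↔ P (σ.perm i)) :
    PF P (fun x => A (σ.letter x)) := by
  intro i hi
  have hp : P (σ.perm i) := (hσ i).1 hi
  have key : ∀ b, A (σ.perm i, b) = A (σ.perm i, true) := by
    intro b
    cases b
    · exact (h _ hp).symm
    · rfl
  exact (key _).trans (key _).symm

theorem P_swap {a b : Fin 3 × Bool} (ha : ¬ P a.1) (hb : ¬ P b.1) (i : Fin 3) :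
    P i ↔ P ((Rel_swapPerm a b).perm i) := by
  show P i ↔ P (Equiv.swap a.1 b.1 i)
  by_cases h1 : i = a.1
  · subst h1
    rw [Equiv.swap_apply_left]
    exact ⟨fun h => absurd h ha, fun h => absurd h hb⟩
  · by_cases h2 : i = b.1
    · subst h2
      rw [Equiv.swap_apply_right]
      exact ⟨fun h => absurd h hb, fun h => absurd h ha⟩
    · rw [Equiv.swap_apply_of_ne_of_ne h1 h2]

theorem P_inv {σ : SPerm (Fin 3)} (hσ : ∀ i, P i ↔ P (σ.perm i)) (i : Fin 3) :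
    P i ↔ P (σ.inv.perm i) := by
  show P i ↔ P (σ.perm.symm i)
  rw [hσ (σ.perm.symm i), Equiv.apply_symm_apply]

theorem Eq3_SPerm {n : ℕ} {V : CC} (E : EqP n P V) (σ : SPerm (Fin 3))
    (hσ : ∀ i, P i ↔ P (σ.perm i)) : EqP n P (act σ.aut V) := by
  refine ⟨E.h4, ?_, ?_⟩
  · intro i hi
    have h1 := cnt_SPerm σ V (σ.perm.symm i)
    rw [Equiv.apply_symm_apply] at h1
    rw [h1]
    apply E.c
    rw [hσ, Equiv.apply_symm_apply]
    exact hi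
  · intro A hA
    rw [capC_SPerm]
    apply E.low
    obtain ⟨⟨⟨x, hx⟩, ⟨y, hy⟩⟩, hP⟩ := hA
    refine ⟨⟨⟨σ.inv.letter x, ?_⟩, ⟨σ.inv.letter y, ?_⟩⟩, PF_SPerm' hP σ hσ⟩
    · show A (σ.letter (σ.inv.letter x)) = true
      rw [SPerm.letter_inv, hx]
    · show A (σ.letter (σ.inv.letter y)) = false
      rw [SPerm.letter_inv, hy]

theorem NC_SPerm {n : ℕ} {V : CC} {A : Ct} (h : NP n P V A) (σ : SPerm (Fin 3))
    (hσ : ∀ i, P i ↔ P (σ.perm i)) :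
    NP n P (act σ.aut V) (fun x => A (σ.inv.letter x)) := by
  obtain ⟨⟨⟨⟨x, hx⟩, ⟨y, hy⟩⟩, hP⟩, hc⟩ := h
  refine ⟨⟨⟨⟨σ.letter x, ?_⟩, ⟨σ.letter y, ?_⟩⟩, PF_SPerm hP σ hσ⟩, ?_⟩
  · show A (σ.inv.letter (σ.letter x)) = true
    rw [SPerm.inv_letter, hx]
  · show A (σ.inv.letter (σ.letter y)) = false
    rw [SPerm.inv_letter, hy]
  · rw [capC_SPerm, ← hc]
    apply capC_congr
    intro x
    rw [SPerm.inv_letter]

theorem VX_SPerm {n : ℕ} {V : CC} {Q : Ct} (h : VP n P V Q) (σ : SPerm (Fin 3))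
    (hσ : ∀ i, P i ↔ P (σ.perm i)) :
    VP n P (act σ.aut V) (fun x => Q (σ.inv.letter x)) := by
  obtain ⟨C, hC, hX⟩ := h
  exact ⟨_, NC_SPerm hC σ hσ, Crossg_SPerm hX σ.inv⟩

theorem LP_SPerm (σ : SPerm (Fin 3)) (hσ : ∀ i, P i ↔ P (σ.perm i)) {V : CC} {z : Fin 3 × Bool}
    {A : Ct} (h : LP P V z A) : LP P (act σ.aut V) (σ.letter z) (fun x => A (σ.inv.letter x)) ∧
    act (wh (σ.letter z) (fun x => A (σ.inv.letter x))) (act σ.aut V) =
      act σ.aut (act (wh z A) V) := by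
  obtain ⟨h1, h2⟩ := TwBasic_SPerm σ (LP_Lv h)
  exact ⟨⟨h1.1, h1.2.1, h1.2.2, PF_SPerm h.2.2.2 σ hσ⟩, h2⟩

theorem Crs_SPerm {n : ℕ} {V : CC} {z : Fin 3 × Bool} (h : CrP n P V z) (σ : SPerm (Fin 3))
    (hσ : ∀ i, P i ↔ P (σ.perm i)) :
    CrP n P (act σ.aut V) (σ.letter z) := by
  obtain ⟨A, hL, hX⟩ := h
  obtain ⟨h1, h2⟩ := LP_SPerm σ hσ hL
  refine ⟨_, h1, ?_⟩
  rw [h2]
  exact (VX_congr (fun x => stc_SPerm σ A z x)).1 (VX_SPerm hX σ hσ)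

end Pw

end Pool.Agent.Sims
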