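import Pool.Agent.Sims.RtDef2
import Pool.Agent.Sims.RtNB
import Pool.Agent.Sims.RtF1

/-!
# Module `RtC3` : `{c, c⁻¹}` not tight: some light letter is uncrossed at some chart

World `P2`, `n < capC V (PrC 2)`; by `capT` this holds for all `W ∈ EP P2 (· ≠ 2) V`.  Suppose `CrP n P2 W (i, true)` for all `W ∈ EP P2 (· ≠ 2) V` and `i ≠ 2`.
(1) `Pw.crs_ntr` for `(0, true)` at `V`: a nontrivial level `(0, true)`-cut `A`; `act (wh (0,true) A) V ∈ EP`, so by `Pw.nb'` `A` is crossed by some `C` with `NP n P2 V C`.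
(2) Replacing `A`, `C` by their complements we may assume that `c, c⁻¹ ∉ A`, `c, c⁻¹ ∉ C` (both are `P2`-fixed; crossing is invariant under complements).  `Pw.f1`: the four corners are tight.  `¬A ∧ ¬C` contains `c, c⁻¹`; it is not
    `{c, c⁻¹}` because `PrC 2` is not tight.  So it contains a light letter `s`, and the other three corners are nonempty sets of light letters: there are exactly the letters `p, q, r` (one in each corner), and
    `X = A ∨ C = {p, q, r}` is the set of all light letters except `s`, tight (`Pw.f1`, last part).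
(3) `X` contains `s⁻¹`, not `s`: it is a level `s⁻¹`-cut (`Pw.Lv_NC`), nontrivial.  `act (wh s⁻¹ X) V ∈ EP`; `Pw.nb'` (and `Pw.crs_bar`): some `C'` with `NP n P2 V C'` crosses `X`; let `c, c⁻¹ ∉ C'` (complement).  `C' ∖ X` is a nonempty
    subset of the light letters outside of `X`: `C' ∖ X = {s}`, and the fourth corner `¬C' ∧ ¬X` is `{c, c⁻¹}`.  It is tight by `Pw.f1`: contradiction.
Difficulty 3.
-/

namespace Pool.Agent.Sims

namespace Pw

theorem RtC3_four {p q r s x : Fin 3 × Bool} (hp : p.1 ≠ 2) (hq : q.1 ≠ 2) (hr : r.1 ≠ 2)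
    (hs : s.1 ≠ 2) (hx : x.1 ≠ 2) (hpq : p ≠ q) (hpr : p ≠ r) (hps : p ≠ s) (hqr : q ≠ r)
    (hqs : q ≠ s) (hrs : r ≠ s) : x = p ∨ x = q ∨ x = r ∨ x = s := by
  have h1 : ({p, q, r, s} : Finset (Fin 3 × Bool)) = Finset.univ.filter (fun x => x.1 ≠ 2) := by
    apply Finset.eq_of_subset_of_card_le
    · intro y hy
      simp only [Finset.mem_insert, Finset.mem_singleton] at hy
      simp only [Finset.mem_filter, Finset.mem_univ, true_and]
      rcases hy with rfl | rfl | rfl | rfl
      · exact hp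
      · exact hq
      · exact hr
      · exact hs
    · have h2 : (Finset.univ.filter (fun x : Fin 3 × Bool => x.1 ≠ 2)).card = 4 := by decide
      have h3 : ({p, q, r, s} : Finset (Fin 3 × Bool)).card = 4 := by
        rw [Finset.card_insert_of_notMem, Finset.card_insert_of_notMem, Finset.card_insert_of_notMem,
          Finset.card_singleton]
        · simpa using hrs
        · simp only [Finset.mem_insert, Finset.mem_singleton, not_or]
          exact ⟨hqr, hqs⟩
        · simp only [Finset.mem_insert, Finset.mem_singleton, not_or]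
          exact ⟨hpq, hpr, hps⟩
      rw [h2, h3]
  have h4 : x ∈ ({p, q, r, s} : Finset (Fin 3 × Bool)) := by
    rw [h1]
    simp [hx]
  simpa only [Finset.mem_insert, Finset.mem_singleton] using h4

theorem RtC3_fst {A : Ct} (h1 : A (2, true) = false) (h2 : A (2, false) = false) {x : Fin 3 × Bool}
    (hx : x.1 = 2) : A x = false := by
  rcases x with ⟨i, b⟩
  have hi : i = 2 := hx
  subst hi
  cases b
  · exact h2
  · exact h1

theorem RtC3_norm {n : ℕ} {V : CC} {A : Ct} (hA : NP n P2 V A) : ∃ A' : Ct, NP n P2 V A' ∧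
    A' (2, true) = false ∧ A' (2, false) = false ∧ (∀ C : Ct, Crossg C A → Crossg C A') ∧
    (∀ C : Ct, Crossg A C → Crossg A' C) := by
  have hf : A (2, true) = A (2, false) := hA.1.2 2 rfl
  cases h : A (2, true) with
  | false => exact ⟨A, hA, h, by rw [← hf]; exact h, fun C hC => hC, fun C hC => hC⟩
  | true =>
    refine ⟨fun x => !A x, NC_compl hA, by simp [h], by simp [← hf, h], fun C hC => ?_, fun C hC => ?_⟩
    · exact Crossg_compl' hC
    · exact Crossg_compl hC

theorem nd_unc {n : ℕ} {V : CC} (E : EqP n P2 V) (hD : n < capC V (PrC 2)) :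
    ∃ W ∈ EP P2 (fun i => i ≠ 2) V, ∃ i : Fin 3, i ≠ 2 ∧ ¬ CrP n P2 W (i, true) := by
  by_contra hcon
  have hall : ∀ W ∈ EP P2 (fun i => i ≠ 2) V, ∀ z : Fin 3 × Bool, z.1 ≠ 2 → CrP n P2 W z := by
    intro W hW z hz
    have h1 : CrP n P2 W (z.1, true) := by
      by_contra hc
      exact hcon ⟨W, hW, z.1, hz, hc⟩
    rcases z with ⟨i, b⟩
    cases b
    · exact crs_bar h1
    · exact h1
  have key : ∀ (z : Fin 3 × Bool) (A : Ct), z.1 ≠ 2 → LP P2 V z A → Ntr A →
      ∃ C, NP n P2 V C ∧ Crossg C A := by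
    intro z A hz hA hn
    have hW : act (wh z A) V ∈ EP P2 (fun i => i ≠ 2) V := EM_step (EM_refl _ V) hz hA
    exact nb' E hA hn (hall _ hW z hz)
  obtain ⟨A0, hA0, hn0, -⟩ := crs_ntr (hall V (EM_refl _ V) (0, true) (by decide))
  obtain ⟨C0, hC0, hX0⟩ := key (0, true) A0 (by decide) hA0 hn0
  have hNA0 : NP n P2 V A0 := ((Lv_NC E).1 hA0).2.2
  obtain ⟨A, hNA, hA1, hA2, hA3, -⟩ := RtC3_norm hNA0
  obtain ⟨C, hNC, hC1, hC2, -, hC4⟩ := RtC3_norm hC0
  have hX : Crossg C A := hC4 _ (hA3 _ hX0)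
  obtain ⟨-, -, -, hN4, hNX⟩ := f1 E hNC hNA hX
  have hs : ∃ s : Fin 3 × Bool, s.1 ≠ 2 ∧ C s = false ∧ A s = false := by
    by_contra hc
    have h1 : (fun x => !C x && !A x) = PrC 2 := by
      funext x
      by_cases hx : x.1 = 2
      · simp [PrC, hx, RtC3_fst hC1 hC2 hx, RtC3_fst hA1 hA2 hx]
      · have h2 : ¬ (C x = false ∧ A x = false) := fun h => hc ⟨x, hx, h.1, h.2⟩
        simp only [PrC, hx, decide_false]
        cases h3 : C x <;> cases h4 : A x <;> simp_all
    have h2 := hN4.2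
    rw [h1] at h2
    omega
  obtain ⟨s, hs2, hCs, hAs⟩ := hs
  obtain ⟨⟨p, hp1, hp2⟩, ⟨q, hq1, hq2⟩, ⟨r, hr1, hr2⟩, -⟩ := id hX
  have hp : p.1 ≠ 2 := fun h => by rw [RtC3_fst hC1 hC2 h] at hp1; exact absurd hp1 (by decide)
  have hq : q.1 ≠ 2 := fun h => by rw [RtC3_fst hC1 hC2 h] at hq1; exact absurd hq1 (by decide)
  have hr : r.1 ≠ 2 := fun h => by rw [RtC3_fst hA1 hA2 h] at hr2; exact absurd hr2 (by decide)
  have hpq : p ≠ q := by rintro rfl; rw [hp2] at hq2; exact absurd hq2 (by decide)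
  have hpr : p ≠ r := by rintro rfl; rw [hp1] at hr1; exact absurd hr1 (by decide)
  have hps : p ≠ s := by rintro rfl; rw [hp1] at hCs; exact absurd hCs (by decide)
  have hqr : q ≠ r := by rintro rfl; rw [hq1] at hr1; exact absurd hr1 (by decide)
  have hqs : q ≠ s := by rintro rfl; rw [hq1] at hCs; exact absurd hCs (by decide)
  have hrs : r ≠ s := by rintro rfl; rw [hr2] at hAs; exact absurd hAs (by decide)
  have hXall : ∀ x : Fin 3 × Bool, x.1 ≠ 2 → x ≠ s → (C x || A x) = true := by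
    intro x hx hxs
    rcases RtC3_four hp hq hr hs2 hx hpq hpr hps hqr hqs hrs with h | h | h | h
    · rw [h, hp1]; rfl
    · rw [h, hq1]; rfl
    · rw [h, hr2]; simp
    · exact absurd h hxs
  have hbs : bar s ≠ s := by
    intro h
    have := congrArg Prod.snd h
    simp [bar] at this
  have hbb : bar (bar s) = s := by
    rcases s with ⟨i, b⟩
    simp [bar]
  have hLX : LP P2 V (bar s) (fun x => C x || A x) := by
    refine (Lv_NC E).2 ⟨hXall (bar s) hs2 hbs, ?_, hNX⟩
    rw [hbb]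
    simp [hCs, hAs]
  have hnX : Ntr (fun x => C x || A x) := by
    refine ⟨⟨p, q, hpq, by simp [hp1], by simp [hq1]⟩, ⟨s, (2, true), ?_, by simp [hCs, hAs],
      by simp [hC1, hA1]⟩⟩
    intro h
    exact hs2 (by rw [h])
  obtain ⟨C1', hNC1, hX1⟩ := key (bar s) _ hs2 hLX hnX
  obtain ⟨D, hND, hD1, hD2, -, hD4⟩ := RtC3_norm hNC1
  have hX2 : Crossg D (fun x => C x || A x) := hD4 _ hX1
  obtain ⟨-, -, -, hN5, -⟩ := f1 E hND hNX hX2
  obtain ⟨-, ⟨u, hu1, hu2⟩, -, -⟩ := id hX2
  have hu : u.1 ≠ 2 := fun h => by rw [RtC3_fst hD1 hD2 h] at hu1; exact absurd hu1 (by decide)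
  have hus : u = s := by
    by_contra hne
    have := hXall u hu hne
    have hu2' : (C u || A u) = false := hu2
    rw [this] at hu2'
    exact absurd hu2' (by decide)
  subst hus
  have h1 : (fun x => !D x && !(fun x => C x || A x) x) = PrC 2 := by
    funext x
    by_cases hx : x.1 = 2
    · simp [PrC, hx, RtC3_fst hC1 hC2 hx, RtC3_fst hA1 hA2 hx, RtC3_fst hD1 hD2 hx]
    · by_cases hxu : x = u
      · simp [PrC, hxu, hu1, hu]
      · have h3 := hXall x hx hxu
        simp [PrC, hx, h3]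
  have h2 := hN5.2
  rw [h1] at h2
  omega

end Pw

end Pool.Agent.Sims
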