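import Pool.Agent.Sims.RtDef2
import Pool.Agent.Sims.RtLS

/-!
# Module `RtC4` : `{c, c⁻¹}` not tight: numbers of level cuts

World `P2`, `n < capC V (PrC 2)`.  `z` a light letter, `y` a light letter with `y.1 ≠ z.1`.  Write `e₁ = e(z,y)`, `e₂ = e(z,y⁻¹)`, `e₃ = e(z⁻¹,y)`, `e₄ = e(z⁻¹,y⁻¹)`, `e₅ = e(z,z⁻¹)`, `e₆ = e(y,y⁻¹)` (`edgS V (sgl _) (sgl _)`).
By `E.low` and `cap2`, `cap3`, `cap4`: `2 e_i ≤ n`, `e₁+e₂+e₆ ≤ n`, `e₃+e₄+e₆ ≤ n`, `e₁+e₃+e₅ ≤ n`, `e₂+e₄+e₅ ≤ n`, `2 (e₁+...+e₆) < 3 n`.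
* `nd_six`: a member `A` of `LSP P2 V z` is determined by its values at `y, y⁻¹, c` (`A c = A c⁻¹`); either `c ∉ A` and `A = {z,y}`, `{z,y⁻¹}`, `{z,y,y⁻¹}`, which is level iff `2e₁ = n`, `2e₂ = n`, `e₁+e₂+e₆ = n`, or `c ∈ A` and the complement is
  `{z⁻¹,y}`, `{z⁻¹,y⁻¹}`, `{z⁻¹,y,y⁻¹}`, level iff `2e₃ = n`, `2e₄ = n`, `e₃+e₄+e₆ = n`.
* `nd_ls3`, `nd_ls2`: by `omega`: at most three of the six equations hold, and if three hold then `2e₁ = 2e₂ = n` or `2e₃ = 2e₄ = n`.  (E.g. `2e₁ = n`, `e₁+e₂+e₆ = n`, `2e₃ = n` give a total `≥ 3n/2`.)  In the first case `b = z` has the two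
  bonds `2 e(z,y) = 2 e(z,y⁻¹) = n`.
The statement `nd_ineq` collects the inequalities for later use.
Difficulty 2.
-/

namespace Pool.Agent.Sims

namespace Pw

theorem RtC4_ne : ∀ z y : Fin 3 × Bool, z.1 ≠ 2 → y.1 ≠ 2 → y.1 ≠ z.1 →
    (z ≠ y ∧ z ≠ bar y ∧ z ≠ bar z ∧ bar z ≠ z ∧ bar z ≠ y ∧ bar z ≠ bar y ∧ y ≠ z ∧ y ≠ bar z ∧
      y ≠ bar y ∧ bar y ≠ y ∧ bar y ≠ z ∧ bar y ≠ bar z) := by decide

theorem RtC4_nc : ∀ z : Fin 3 × Bool, z.1 ≠ 2 → ∀ b : Bool,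
    (((2 : Fin 3), b) ≠ z ∧ ((2 : Fin 3), b) ≠ bar z) := by decide

theorem RtC4_all : ∀ z y : Fin 3 × Bool, z.1 ≠ 2 → y.1 ≠ 2 → y.1 ≠ z.1 → ∀ x : Fin 3 × Bool,
    x = z ∨ x = bar z ∨ x = y ∨ x = bar y ∨ x = (2, true) ∨ x = (2, false) := by decide

/-- pairs and triples of light letters are proper fixed cuts -/
theorem RtC4_pr {u v : Fin 3 × Bool} (hu : u.1 ≠ 2) (hv : v.1 ≠ 2) : PrpP P2 (pr u v) := by
  refine ⟨⟨⟨u, by simp [pr]⟩, ⟨(2, true), ?_⟩⟩, ?_⟩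
  · simp [pr, (RtC4_nc u hu true).1, (RtC4_nc v hv true).1]
  · rintro i rfl
    simp [pr, (RtC4_nc u hu true).1, (RtC4_nc v hv true).1, (RtC4_nc u hu false).1, (RtC4_nc v hv false).1]

theorem RtC4_tr {u v w : Fin 3 × Bool} (hu : u.1 ≠ 2) (hv : v.1 ≠ 2) (hw : w.1 ≠ 2) :
    PrpP P2 (fun x => pr u v x || sgl w x) := by
  refine ⟨⟨⟨u, by simp [pr]⟩, ⟨(2, true), ?_⟩⟩, ?_⟩
  · simp [pr, sgl, (RtC4_nc u hu true).1, (RtC4_nc v hv true).1, (RtC4_nc w hw true).1]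
  · rintro i rfl
    simp [pr, sgl, (RtC4_nc u hu true).1, (RtC4_nc v hv true).1, (RtC4_nc u hu false).1,
      (RtC4_nc v hv false).1, (RtC4_nc w hw true).1, (RtC4_nc w hw false).1]

theorem RtC4_two {n : ℕ} {V : CC} (E : EqP n P2 V) {u v : Fin 3 × Bool} (hu : u.1 ≠ 2) (hv : v.1 ≠ 2)
    (huv : u ≠ v) : 2 * edgS V (sgl u) (sgl v) ≤ n := by
  have h1 := cap2 (V := V) (E.c u.1 hu) (E.c v.1 hv) huv
  have h2 := E.low (RtC4_pr hu hv)
  omega

theorem RtC4_three {n : ℕ} {V : CC} (E : EqP n P2 V) {u v w : Fin 3 × Bool} (hu : u.1 ≠ 2) (hv : v.1 ≠ 2)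
    (hw : w.1 ≠ 2) (huv : u ≠ v) (huw : u ≠ w) (hvw : v ≠ w) :
    edgS V (sgl u) (sgl v) + edgS V (sgl u) (sgl w) + edgS V (sgl v) (sgl w) ≤ n := by
  have h1 := cap3 (V := V) (E.c u.1 hu) (E.c v.1 hv) (E.c w.1 hw) huv huw hvw
  have h2 := E.low (RtC4_tr hu hv hw)
  omega

theorem nd_ineq {n : ℕ} {V : CC} (E : EqP n P2 V) (hD : n < capC V (PrC 2)) {z y : Fin 3 × Bool}
    (hz : z.1 ≠ 2) (hy : y.1 ≠ 2) (hzy : y.1 ≠ z.1) :
    2 * edgS V (sgl z) (sgl y) ≤ n ∧ 2 * edgS V (sgl z) (sgl (bar y)) ≤ n ∧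
    2 * edgS V (sgl (bar z)) (sgl y) ≤ n ∧ 2 * edgS V (sgl (bar z)) (sgl (bar y)) ≤ n ∧
    2 * edgS V (sgl z) (sgl (bar z)) ≤ n ∧ 2 * edgS V (sgl y) (sgl (bar y)) ≤ n ∧
    edgS V (sgl z) (sgl y) + edgS V (sgl z) (sgl (bar y)) + edgS V (sgl y) (sgl (bar y)) ≤ n ∧
    edgS V (sgl (bar z)) (sgl y) + edgS V (sgl (bar z)) (sgl (bar y)) +
      edgS V (sgl y) (sgl (bar y)) ≤ n ∧
    edgS V (sgl z) (sgl y) + edgS V (sgl (bar z)) (sgl y) + edgS V (sgl z) (sgl (bar z)) ≤ n ∧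
    edgS V (sgl z) (sgl (bar y)) + edgS V (sgl (bar z)) (sgl (bar y)) +
      edgS V (sgl z) (sgl (bar z)) ≤ n ∧
    2 * (edgS V (sgl z) (sgl y) + edgS V (sgl z) (sgl (bar y)) +
      edgS V (sgl (bar z)) (sgl y) + edgS V (sgl (bar z)) (sgl (bar y)) +
      edgS V (sgl z) (sgl (bar z)) + edgS V (sgl y) (sgl (bar y))) < 3 * n := by
  obtain ⟨n1, n2, n3, n4, n5, n6, n7, n8, n9, n10, n11, n12⟩ := RtC4_ne z y hz hy hzy
  have hz' : (bar z).1 ≠ 2 := hz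
  have hy' : (bar y).1 ≠ 2 := hy
  have a1 := RtC4_two E hz hy n1
  have a2 := RtC4_two E hz hy' n2
  have a3 := RtC4_two E hz' hy n5
  have a4 := RtC4_two E hz' hy' n6
  have a5 := RtC4_two E hz hz' n3
  have a6 := RtC4_two E hy hy' n9
  have b1 := RtC4_three E hz hy hy' n1 n2 n9
  have b2 := RtC4_three E hz' hy hy' n5 n6 n9
  have b3 := RtC4_three E hz hz' hy n3 n1 n5
  have b4 := RtC4_three E hz hz' hy' n3 n2 n6
  have c1 := cap4 (V := V) hz hy hzy (E.c z.1 hz) (E.c y.1 hy)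
  refine ⟨a1, a2, a3, a4, a5, a6, b1, b2, ?_, ?_, ?_⟩ <;> omega

theorem RtC4_ext {z y : Fin 3 × Bool} (hz : z.1 ≠ 2) (hy : y.1 ≠ 2) (hzy : y.1 ≠ z.1) {A B : Ct}
    (h1 : A z = B z) (h2 : A (bar z) = B (bar z)) (h3 : A y = B y) (h4 : A (bar y) = B (bar y))
    (h5 : A (2, true) = B (2, true)) (h6 : A (2, false) = B (2, false)) : A = B := by
  funext x
  rcases RtC4_all z y hz hy hzy x with h | h | h | h | h | h <;> rw [h] <;> assumption

theorem nd_six {n : ℕ} {V : CC} (E : EqP n P2 V) {z y : Fin 3 × Bool}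
    (hz : z.1 ≠ 2) (hy : y.1 ≠ 2) (hzy : y.1 ≠ z.1) {A : Ct} (hA : LP P2 V z A) (hn : Ntr A) :
    (A (2, true) = false ∧ A y = true ∧ A (bar y) = false ∧ 2 * edgS V (sgl z) (sgl y) = n) ∨
    (A (2, true) = false ∧ A y = false ∧ A (bar y) = true ∧
      2 * edgS V (sgl z) (sgl (bar y)) = n) ∨
    (A (2, true) = false ∧ A y = true ∧ A (bar y) = true ∧
      edgS V (sgl z) (sgl y) + edgS V (sgl z) (sgl (bar y)) + edgS V (sgl y) (sgl (bar y)) = n) ∨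
    (A (2, true) = true ∧ A y = false ∧ A (bar y) = true ∧
      2 * edgS V (sgl (bar z)) (sgl y) = n) ∨
    (A (2, true) = true ∧ A y = true ∧ A (bar y) = false ∧
      2 * edgS V (sgl (bar z)) (sgl (bar y)) = n) ∨
    (A (2, true) = true ∧ A y = false ∧ A (bar y) = false ∧
      edgS V (sgl (bar z)) (sgl y) + edgS V (sgl (bar z)) (sgl (bar y)) +
        edgS V (sgl y) (sgl (bar y)) = n) := by
  obtain ⟨n1, n2, n3, n4, n5, n6, n7, n8, n9, n10, n11, n12⟩ := RtC4_ne z y hz hy hzy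
  obtain ⟨m1, m2⟩ := RtC4_nc z hz true
  obtain ⟨m3, m4⟩ := RtC4_nc z hz false
  obtain ⟨m5, m6⟩ := RtC4_nc y hy true
  obtain ⟨m7, m8⟩ := RtC4_nc y hy false
  have hz' : (bar z).1 ≠ 2 := hz
  have hy' : (bar y).1 ≠ 2 := hy
  obtain ⟨h1, h2, h3, h4⟩ := hA
  have h5 : A (2, true) = A (2, false) := h4 2 rfl
  rw [E.c z.1 hz] at h3
  obtain ⟨⟨x1, x2, hx, hx1, hx2⟩, ⟨w1, w2, hw, hw1, hw2⟩⟩ := hn
  rcases Bool.eq_false_or_eq_true (A (2, true)) with hc | hc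
  · have hc' : A (2, false) = true := by rw [← h5, hc]
    rcases Bool.eq_false_or_eq_true (A y) with h6 | h6 <;> rcases Bool.eq_false_or_eq_true (A (bar y)) with h7 | h7
    · exfalso
      have e : ∀ x, A x = false → x = bar z := by
        intro x hx0
        rcases RtC4_all z y hz hy hzy x with h | h | h | h | h | h <;> subst h <;> simp_all
      exact hw ((e w1 hw1).trans (e w2 hw2).symm)
    · right; right; right; right; left
      refine ⟨hc, h6, h7, ?_⟩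
      have e : (fun x => !A x) = pr (bar z) (bar y) := by
        refine RtC4_ext hz hy hzy ?_ ?_ ?_ ?_ ?_ ?_ <;> simp [pr, *]
      have h8 := capC_compl V A
      rw [e, h3] at h8
      have h9 := cap2 (V := V) (E.c (bar z).1 hz') (E.c (bar y).1 hy') n6
      omega
    · right; right; right; left
      refine ⟨hc, h6, h7, ?_⟩
      have e : (fun x => !A x) = pr (bar z) y := by
        refine RtC4_ext hz hy hzy ?_ ?_ ?_ ?_ ?_ ?_ <;> simp [pr, *]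
      have h8 := capC_compl V A
      rw [e, h3] at h8
      have h9 := cap2 (V := V) (E.c (bar z).1 hz') (E.c y.1 hy) n5
      omega
    · right; right; right; right; right
      refine ⟨hc, h6, h7, ?_⟩
      have e : (fun x => !A x) = (fun x => pr (bar z) y x || sgl (bar y) x) := by
        refine RtC4_ext hz hy hzy ?_ ?_ ?_ ?_ ?_ ?_ <;> simp [pr, sgl, *]
      have h8 := capC_compl V A
      rw [e, h3] at h8
      have h9 := cap3 (V := V) (E.c (bar z).1 hz') (E.c y.1 hy) (E.c (bar y).1 hy') n5 n6 n9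
      omega
  · have hc' : A (2, false) = false := by rw [← h5, hc]
    rcases Bool.eq_false_or_eq_true (A y) with h6 | h6 <;> rcases Bool.eq_false_or_eq_true (A (bar y)) with h7 | h7
    · right; right; left
      refine ⟨hc, h6, h7, ?_⟩
      have e : A = (fun x => pr z y x || sgl (bar y) x) := by
        refine RtC4_ext hz hy hzy ?_ ?_ ?_ ?_ ?_ ?_ <;> simp [pr, sgl, *]
      rw [e] at h3
      have h9 := cap3 (V := V) (E.c z.1 hz) (E.c y.1 hy) (E.c (bar y).1 hy') n1 n2 n9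
      omega
    · left
      refine ⟨hc, h6, h7, ?_⟩
      have e : A = pr z y := by
        refine RtC4_ext hz hy hzy ?_ ?_ ?_ ?_ ?_ ?_ <;> simp [pr, *]
      rw [e] at h3
      have h9 := cap2 (V := V) (E.c z.1 hz) (E.c y.1 hy) n1
      omega
    · right; left
      refine ⟨hc, h6, h7, ?_⟩
      have e : A = pr z (bar y) := by
        refine RtC4_ext hz hy hzy ?_ ?_ ?_ ?_ ?_ ?_ <;> simp [pr, *]
      rw [e] at h3
      have h9 := cap2 (V := V) (E.c z.1 hz) (E.c (bar y).1 hy') n2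
      omega
    · exfalso
      have e : ∀ x, A x = true → x = z := by
        intro x hx0
        rcases RtC4_all z y hz hy hzy x with h | h | h | h | h | h <;> subst h <;> simp_all
      exact hx ((e x1 hx1).trans (e x2 hx2).symm)

/-- the six equations -/
def RtC4_Q (n e1 e2 e3 e4 e6 : ℕ) : Bool × Bool × Bool → Prop
  | (false, true, false) => 2 * e1 = n
  | (false, false, true) => 2 * e2 = n
  | (false, true, true) => e1 + e2 + e6 = n
  | (true, false, true) => 2 * e3 = n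
  | (true, true, false) => 2 * e4 = n
  | (true, false, false) => e3 + e4 + e6 = n
  | (false, false, false) => n + 1 = n
  | (true, true, true) => n + 1 = n

open Classical in
theorem RtC4_card {n : ℕ} {V : CC} (E : EqP n P2 V) {z y : Fin 3 × Bool}
    (hz : z.1 ≠ 2) (hy : y.1 ≠ 2) (hzy : y.1 ≠ z.1) : (LSP P2 V z).card ≤
      (Finset.univ.filter (RtC4_Q n (edgS V (sgl z) (sgl y)) (edgS V (sgl z) (sgl (bar y)))
        (edgS V (sgl (bar z)) (sgl y)) (edgS V (sgl (bar z)) (sgl (bar y)))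
        (edgS V (sgl y) (sgl (bar y))))).card := by
  refine Finset.card_le_card_of_injOn (fun A => (A (2, true), A y, A (bar y))) ?_ ?_
  · intro A hA
    rw [Finset.mem_coe, ls_mem] at hA
    rw [Finset.mem_coe, Finset.mem_filter]
    refine ⟨Finset.mem_univ _, ?_⟩
    rcases nd_six E hz hy hzy hA.1 hA.2 with ⟨h1, h2, h3, h4⟩ | ⟨h1, h2, h3, h4⟩ | ⟨h1, h2, h3, h4⟩ |
      ⟨h1, h2, h3, h4⟩ | ⟨h1, h2, h3, h4⟩ | ⟨h1, h2, h3, h4⟩ <;> simp only [h1, h2, h3] <;> exact h4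
  · intro A hA B hB he
    rw [Finset.mem_coe, ls_mem] at hA hB
    simp only [Prod.mk.injEq] at he
    obtain ⟨e1, e2, e3⟩ := he
    obtain ⟨a1, a2, -, a4⟩ := hA.1
    obtain ⟨b1, b2, -, b4⟩ := hB.1
    have a5 : A (2, true) = A (2, false) := a4 2 rfl
    have b5 : B (2, true) = B (2, false) := b4 2 rfl
    exact RtC4_ext hz hy hzy (a1.trans b1.symm) (a2.trans b2.symm) e2 e3 e1 (by rw [← a5, ← b5, e1])

theorem RtC4_other : ∀ z : Fin 3 × Bool, z.1 ≠ 2 → ∃ y : Fin 3 × Bool, y.1 ≠ 2 ∧ y.1 ≠ z.1 := by decide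

theorem nd_ls3 {n : ℕ} {V : CC} (E : EqP n P2 V) (hD : n < capC V (PrC 2)) {z : Fin 3 × Bool}
    (hz : z.1 ≠ 2) : (LSP P2 V z).card ≤ 3 := by
  classical
  obtain ⟨y, hy, hzy⟩ := RtC4_other z hz
  refine (RtC4_card E hz hy hzy).trans ?_
  obtain ⟨a1, a2, a3, a4, a5, a6, b1, b2, b3, b4, c1⟩ := nd_ineq E hD hz hy hzy
  have h4 := E.h4
  rw [Finset.card_filter, Fintype.sum_prod_type]
  simp only [Fintype.sum_prod_type, Fintype.sum_bool, RtC4_Q]
  generalize edgS V (sgl z) (sgl y) = e1 at *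
  generalize edgS V (sgl z) (sgl (bar y)) = e2 at *
  generalize edgS V (sgl (bar z)) (sgl y) = e3 at *
  generalize edgS V (sgl (bar z)) (sgl (bar y)) = e4 at *
  generalize edgS V (sgl z) (sgl (bar z)) = e5 at *
  generalize edgS V (sgl y) (sgl (bar y)) = e6 at *
  have q0 : ¬ (n + 1 = n) := by omega
  by_cases q1 : 2 * e1 = n <;> by_cases q2 : 2 * e2 = n <;> by_cases q3 : e1 + e2 + e6 = n <;>
    by_cases q4 : 2 * e3 = n <;> by_cases q5 : 2 * e4 = n <;> by_cases q6 : e3 + e4 + e6 = n <;>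
    simp only [q1, q2, q3, q4, q5, q6, q0, if_true, if_false] <;> omega

theorem nd_ls2 {n : ℕ} {V : CC} (E : EqP n P2 V) (hD : n < capC V (PrC 2)) {z y : Fin 3 × Bool}
    (hz : z.1 ≠ 2) (hy : y.1 ≠ 2) (hzy : y.1 ≠ z.1)
    (h : ∀ b : Fin 3 × Bool, b.1 = z.1 →
      ¬ (2 * edgS V (sgl b) (sgl y) = n ∧ 2 * edgS V (sgl b) (sgl (bar y)) = n)) :
    (LSP P2 V z).card ≤ 2 := by
  classical
  refine (RtC4_card E hz hy hzy).trans ?_
  obtain ⟨a1, a2, a3, a4, a5, a6, b1, b2, b3, b4, c1⟩ := nd_ineq E hD hz hy hzy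
  have h4 := E.h4
  have h5 := h z rfl
  have h6 := h (bar z) rfl
  clear h
  rw [Finset.card_filter, Fintype.sum_prod_type]
  simp only [Fintype.sum_prod_type, Fintype.sum_bool, RtC4_Q]
  generalize edgS V (sgl z) (sgl y) = e1 at *
  generalize edgS V (sgl z) (sgl (bar y)) = e2 at *
  generalize edgS V (sgl (bar z)) (sgl y) = e3 at *
  generalize edgS V (sgl (bar z)) (sgl (bar y)) = e4 at *
  generalize edgS V (sgl z) (sgl (bar z)) = e5 at *
  generalize edgS V (sgl y) (sgl (bar y)) = e6 at *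
  have q0 : ¬ (n + 1 = n) := by omega
  by_cases q1 : 2 * e1 = n <;> by_cases q2 : 2 * e2 = n <;> by_cases q3 : e1 + e2 + e6 = n <;>
    by_cases q4 : 2 * e3 = n <;> by_cases q5 : 2 * e4 = n <;> by_cases q6 : e3 + e4 + e6 = n <;>
    simp only [q1, q2, q3, q4, q5, q6, q0, if_true, if_false] <;> omega

end Pw

end Pool.Agent.Sims
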