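import Pool.Agent.Sims.RtLem3
import Pool.Agent.Sims.RtPot

/-!
# Module `RtL3` : port of `EvL3`
-/

namespace Pool.Agent.Sims

namespace Pw

open FreeGroup (of)

variable {P : Fin 3 → Prop}

set_option linter.unusedVariables false

set_option linter.unusedSimpArgs false

/-- two level points at distance at least three -/
theorem EvL3_far {n : ℕ} {V : CC} (E : EqP n P V) {j : Fin 3} (hj : ¬ P j) {X : Ct} (hX : PF P X)
    {s t : ℤ} (hst : s + 3 ≤ t)
    (hs : cnt (act (pot j (fun x => s * ind X x)) V) j = n)
    (ht : cnt (act (pot j (fun x => t * ind X x)) V) j = n) : Clo j V X := by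
  by_cases h1 : ∃ x : Fin 3 × Bool, x.1 ≠ j ∧ X x = true
  · by_cases h2 : ∃ x : Fin 3 × Bool, x.1 ≠ j ∧ X x = false
    · have E0 : EqP n P (act (pot j (fun x => s * ind X x)) V) :=
        pot_EqP E hj (PQ_smul (PQ_ind hX) s) hs
      have hq : cnt (act (pot j (fun x => (t - s) * ind X x))
          (act (pot j (fun x => s * ind X x)) V)) j = n := by
        rw [pot_add, ← ht]
        congr 2
        congr 1
        funext x
        simp only [Pi.add_apply]
        ring
      have h3 := (pot_split E0 hj (q := fun x => (t - s) * ind X x)
        (PQ_smul (PQ_ind hX) _) hq 3).2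
      have hcl := lemS3 E0 hj (X1 := X) (X2 := X) (X3 := X) hX hX hX (fun _ h => h) (fun _ h => h)
        h1 h2 (by
          rw [← h3]
          congr 2
          congr 1
          funext x
          simp only [Pi.add_apply]
          have hi : ind X x = 0 ∨ ind X x = 1 := by
            unfold ind
            cases X x <;> simp
          rcases hi with h | h
          · rw [h]
            simp
          · rw [h]
            omega)
      have h5 := clo_pot hcl (fun x => (-s) * ind X x)
      rw [pot_add] at h5
      have h6 : (fun x => (-s) * ind X x) + (fun x => s * ind X x) = 0 := by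
        funext x
        simp only [Pi.add_apply, Pi.zero_apply]
        ring
      rwa [h6, pot_zero] at h5
    · apply clo_congr _ (clo_all j V)
      intro x hx
      by_contra hc
      exact h2 ⟨x, hx, by
        cases h : X x with
        | true => rw [h] at hc; exact absurd rfl hc
        | false => rfl⟩
  · intro p
    apply pot_congr
    intro x hx
    have h3 : X x = false := by
      by_contra hc
      exact h1 ⟨x, hx, by simpa using hc⟩
    simp [ind, h3]

theorem line3 {n : ℕ} {V : CC} (E : EqP n P V) {j : Fin 3} (hj : ¬ P j)
    {X : Ct} (hX : PF P X) :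
    Cov {W | ∃ s : ℤ, W = act (pot j (fun x => s * ind X x)) V ∧ cnt W j = n} 3 := by
  classical
  by_cases hXc : Clo j V X
  · refine ⟨{V}, by simp, ?_⟩
    rintro W ⟨s, rfl, -⟩
    rw [EvL3_clo hXc]
    simp
  · have h0 : cnt (act (pot j (fun x => (0 : ℤ) * ind X x)) V) j = n := by
      have : (fun x => (0 : ℤ) * ind X x) = 0 := by
        funext x
        simp
      rw [this, pot_zero, E.c j hj]
    have hfar : ∀ s t : ℤ, cnt (act (pot j (fun x => s * ind X x)) V) j = n →
        cnt (act (pot j (fun x => t * ind X x)) V) j = n → t < s + 3 := by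
      intro s t hs ht
      by_contra hc
      exact hXc (EvL3_far E hj hX (by omega) hs ht)
    obtain ⟨m, hm⟩ : ∃ m : ℤ, ∀ s : ℤ, cnt (act (pot j (fun x => s * ind X x)) V) j = n →
        s = m ∨ s = m + 1 ∨ s = m + 2 := by
      by_cases h2 : cnt (act (pot j (fun x => (-2 : ℤ) * ind X x)) V) j = n
      · refine ⟨-2, fun s hs => ?_⟩
        have a1 := hfar _ _ h2 hs
        have a2 := hfar _ _ hs h0
        omega
      · by_cases h1 : cnt (act (pot j (fun x => (-1 : ℤ) * ind X x)) V) j = n
        · refine ⟨-1, fun s hs => ?_⟩
          have a1 := hfar _ _ h1 hs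
          have a2 := hfar _ _ hs h0
          have a3 : s ≠ -2 := by
            rintro rfl
            exact h2 hs
          omega
        · refine ⟨0, fun s hs => ?_⟩
          have a1 := hfar _ _ h0 hs
          have a2 := hfar _ _ hs h0
          have a3 : s ≠ -2 := by
            rintro rfl
            exact h2 hs
          have a4 : s ≠ -1 := by
            rintro rfl
            exact h1 hs
          omega
    refine ⟨{act (pot j (fun x => m * ind X x)) V, act (pot j (fun x => (m + 1) * ind X x)) V,
      act (pot j (fun x => (m + 2) * ind X x)) V}, Finset.card_le_three, ?_⟩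
    rintro W ⟨s, rfl, hs⟩
    rcases hm s hs with rfl | rfl | rfl <;> simp

end Pw

end Pool.Agent.Sims
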