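import Pool.Agent.Sims.RtC4
import Pool.Agent.Sims.RtL3
import Pool.Agent.Sims.RtPot
import Pool.Agent.Sims.RtRep

/-!
# Module `RtC5` : `{c, c⁻¹}` not tight: the classes reachable with one light letter

World `P2`, `n < capC V (PrC 2)`, `x = (j, true)`, `b` a light letter with `b.1 ≠ j`.  By `Pw.em_pot` every `W ∈ EP P2 (· = j) V` is `act (pot j q) V`, `cnt W j = n`, `q = 0` on `x_j^{±1}`, `q c = q c⁻¹`; subtracting the constant `q c` (`pot_const`,
`pot_congr`) we normalise `q c = q c⁻¹ = 0`, `q` arbitrary on `x_j^{±1}`.  So `W` is given by the two integers `q b`, `q b⁻¹` (feasible pairs).  Feasibility of truncations: `Pw.pot_split`; if `ind Y` (resp. `- ind Y`) is feasible, `Y ⊆ {b, b⁻¹}`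
nonempty, then `{x} ∪ Y` (resp. `{x⁻¹} ∪ Y`) is a level cut (`Pw.pot_Lv`; for `- ind Y` use the complement: `- ind Y = ind Yᶜ - 1`, and `Pw.Lv_compl`), and `nd_six` (for `z = x`, `y = b`) gives the equations: with `e₁ = e(x,b)`, `e₂ = e(x,b⁻¹)`,
`e₃ = e(x⁻¹,b)`, `e₄ = e(x⁻¹,b⁻¹)`, `e₆ = e(b,b⁻¹)`: `(1,0)`: `2e₁ = n`; `(0,1)`: `2e₂ = n`; `(1,1)`: `e₁+e₂+e₆ = n`; `(-1,0)`: `2e₃ = n`; `(0,-1)`: `2e₄ = n`; `(-1,-1)`: `e₃+e₄+e₆ = n`.  `nd_ineq` for contradictions (`omega`).
* `nd_line`: let `2 e(x,b) = 2 e(x⁻¹,b) = n` at `V`.  If `(s, t)` is feasible and `t ≥ 1`: `min (max q 0) 1 = ind Y` is feasible with `b⁻¹ ∈ Y`: `(0,1)` or `(1,1)`: `2e₂ = n` or `e₁+e₂+e₆ = n`, the sum of all edges is `≥ 3n/2`: contradiction.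
  If `t ≤ -1`: `max (min q 0) (-1) = - ind Y`, `b⁻¹ ∈ Y`: `2e₄ = n` or `e₃+e₄+e₆ = n`: contradiction.  So `t = 0`: `W = act (pot j (s·1_b)) V`: `Pw.line3` (`X = sgl b`, `P2`-fixed).
* `nd_box`: hypothesis `h`: at no `W₁ ∈ EP P2 (· = j) V` there is `b'` with `b'.1 = b.1` and the two bonds `2 e(x,b') = 2 e(x⁻¹,b') = n`.  Claim: for two feasible pairs `q, q'`: `|q b - q' b| ≤ 1` and `|q b⁻¹ - q' b⁻¹| ≤ 1`; then
  all feasible pairs lie in a set `{m, m+1} × {m', m'+1}`: at most `4` classes.  Proof of the claim: let `d = q' - q`, feasible at `W = act (pot j q) V` (`pot_add`; `EqP` at `W`: `Pw.EqP.em`; `capT`), and suppose `d b ≥ 2` (the other cases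
  are symmetric: exchange `q, q'` and/or `b, b⁻¹`).
  - `d b⁻¹ ≤ 0`: `max d 0 = (d b, 0)`, `min _ 2 = (2, 0)`, `(1, 0)` are feasible.  At `W₁ = act (pot j (1_b)) W`: `(1,0)` and `(-1,0)` are feasible: `2e₁ = n`, `2e₃ = n`: `b` has the two bonds at `W₁`: contradiction to `h`.
  - `d b⁻¹ = 1`: `min d 1 = (1,1)`, `min d 2 = (2,1)` are feasible; at `W₁ = act (pot j (1,1)) W`: `(1,0)` and `(-1,-1)`: `2e₁ = n`, `e₃+e₄+e₆ = n`: the total is `≥ 3n/2`: contradiction.
  - `d b⁻¹ ≥ 2`: `(1,1)`, `(2,2)` are feasible; at `W₁`: `(1,1)` and `(-1,-1)`: `e₁+e₂+e₆ = n`, `e₃+e₄+e₆ = n`, `2e₆ ≤ n`: the total is `≥ 3n/2`: contradiction.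
Difficulty 4.
-/

namespace Pool.Agent.Sims

namespace Pw

/-- the potential with the value `s` at `b` and `t` at `b⁻¹` -/
def RtC5_q (b : Fin 3 × Bool) (s t : ℤ) : Fin 3 × Bool → ℤ :=
  fun x => if x = b then s else if x = bar b then t else 0

theorem RtC5_q_b (b : Fin 3 × Bool) (s t : ℤ) : RtC5_q b s t b = s := by simp [RtC5_q]

theorem RtC5_q_bar (b : Fin 3 × Bool) (s t : ℤ) : RtC5_q b s t (bar b) = t := by
  simp [RtC5_q, bar_ne b]

theorem RtC5_q_ne {b x : Fin 3 × Bool} (s t : ℤ) (h : x.1 ≠ b.1) : RtC5_q b s t x = 0 := by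
  have h1 : x ≠ b := by
    rintro rfl
    exact h rfl
  have h2 : x ≠ bar b := by
    rintro rfl
    exact h rfl
  simp [RtC5_q, h1, h2]

theorem RtC5_add (b : Fin 3 × Bool) (s t s' t' : ℤ) :
    RtC5_q b s t + RtC5_q b s' t' = RtC5_q b (s + s') (t + t') := by
  funext x
  simp only [Pi.add_apply, RtC5_q]
  split_ifs <;> simp

theorem RtC5_zero (b : Fin 3 × Bool) : RtC5_q b 0 0 = 0 := by
  funext x
  simp [RtC5_q]

theorem RtC5_swap (b : Fin 3 × Bool) (s t : ℤ) : RtC5_q (bar b) t s = RtC5_q b s t := by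
  funext x
  simp only [RtC5_q, bar_bar]
  by_cases h1 : x = b
  · have h2 : x ≠ bar b := by
      rw [h1]
      exact (bar_ne b).symm
    simp [h1, (bar_ne b).symm]
  · by_cases h2 : x = bar b
    · simp [h2, bar_ne b]
    · simp [h1, h2]

theorem RtC5_PQ {b : Fin 3 × Bool} (hb : b.1 ≠ 2) (s t : ℤ) : PQ P2 (RtC5_q b s t) := by
  intro i hi
  have hi' : i = 2 := hi
  subst hi'
  rw [RtC5_q_ne s t (x := (2, true)) (fun h => hb h.symm),
    RtC5_q_ne s t (x := (2, false)) (fun h => hb h.symm)]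

/-- feasible pairs -/
def RtC5_F (n : ℕ) (V : CC) (j : Fin 3) (b : Fin 3 × Bool) (s t : ℤ) : Prop :=
  cnt (act (pot j (RtC5_q b s t)) V) j = n

theorem RtC5_zeroF {n : ℕ} {V : CC} {j : Fin 3} (h : cnt V j = n) (b : Fin 3 × Bool) :
    RtC5_F n V j b 0 0 := by
  unfold RtC5_F
  rw [RtC5_zero, pot_zero, h]

theorem RtC5_min {n : ℕ} {V : CC} (E : EqP n P2 V) {j : Fin 3} (hj : j ≠ 2) {b : Fin 3 × Bool}
    (hb : b.1 ≠ 2) {s t : ℤ} (h : RtC5_F n V j b s t) {α : ℤ} (hα : 0 ≤ α) :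
    RtC5_F n V j b (min s α) (min t α) := by
  have h1 := (pot_split E hj (RtC5_PQ hb s t) h α).2
  have e : (fun x => min (RtC5_q b s t x) α) = RtC5_q b (min s α) (min t α) := by
    funext x
    simp only [RtC5_q]
    split_ifs
    · rfl
    · rfl
    · omega
  rw [e] at h1
  exact h1

theorem RtC5_max {n : ℕ} {V : CC} (E : EqP n P2 V) {j : Fin 3} (hj : j ≠ 2) {b : Fin 3 × Bool}
    (hb : b.1 ≠ 2) {s t : ℤ} (h : RtC5_F n V j b s t) {α : ℤ} (hα : α ≤ 0) :
    RtC5_F n V j b (max s α) (max t α) := by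
  have h1 := (pot_split E hj (RtC5_PQ hb s t) h α).1
  have e : act (pot j (fun x => max (RtC5_q b s t x - α) 0)) V =
      act (pot j (RtC5_q b (max s α) (max t α))) V := by
    refine pot_const (-α) ?_ V
    intro x _
    simp only [RtC5_q]
    split_ifs <;> omega
  rw [e] at h1
  exact h1

theorem RtC5_tr {n : ℕ} {V : CC} {j : Fin 3} {b : Fin 3 × Bool} {s t s' t' : ℤ} :
    RtC5_F n (act (pot j (RtC5_q b s t)) V) j b s' t' ↔ RtC5_F n V j b (s' + s) (t' + t) := by
  unfold RtC5_F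
  rw [pot_add, RtC5_add]

/-- `x_j` inside, `x_j⁻¹` outside, `f` elsewhere -/
def RtC5_A (j : Fin 3) (f : Ct) : Ct := fun x => if x.1 = j then x.2 else f x

theorem RtC5_lv {n : ℕ} {V : CC} (E : EqP n P2 V) {j : Fin 3} (hj : j ≠ 2) {b : Fin 3 × Bool}
    {s t k : ℤ} {f : Ct} (hf : f (2, true) = f (2, false))
    (hk : ∀ x, x.1 ≠ j → RtC5_q b s t x = ind f x + k) (h : RtC5_F n V j b s t) :
    LP P2 V (j, true) (RtC5_A j f) := by
  refine pot_Lv E hj (by simp [RtC5_A]) (by simp [RtC5_A]) ?_ ?_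
  · intro i hi
    have hi' : i = 2 := hi
    subst hi'
    have h2 : (2 : Fin 3) ≠ j := fun h => hj h.symm
    simp [RtC5_A, h2, hf]
  · have e : act (pot j (ind (RtC5_A j f))) V = act (pot j (RtC5_q b s t)) V := by
      refine pot_const (-k) ?_ V
      intro x hx
      rw [hk x hx]
      simp [ind, RtC5_A, hx]
    rw [e]
    exact h

/-- the subset of `{b, b⁻¹}` -/
def RtC5_Y (b : Fin 3 × Bool) (B0 B1 : Bool) : Ct :=
  fun x => (decide (x = b) && B0) || (decide (x = bar b) && B1)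

theorem RtC5_Y_b (b : Fin 3 × Bool) (B0 B1 : Bool) : RtC5_Y b B0 B1 b = B0 := by
  simp [RtC5_Y, (bar_ne b).symm]

theorem RtC5_Y_bar (b : Fin 3 × Bool) (B0 B1 : Bool) : RtC5_Y b B0 B1 (bar b) = B1 := by
  simp [RtC5_Y, bar_ne b]

theorem RtC5_Y_ne {b x : Fin 3 × Bool} (B0 B1 : Bool) (h : x.1 ≠ b.1) :
    RtC5_Y b B0 B1 x = false := by
  have h1 : x ≠ b := by
    rintro rfl
    exact h rfl
  have h2 : x ≠ bar b := by
    rintro rfl
    exact h rfl
  simp [RtC5_Y, h1, h2]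

theorem RtC5_up {n : ℕ} {V : CC} (E : EqP n P2 V) {j : Fin 3} (hj : j ≠ 2) {b : Fin 3 × Bool}
    (hb : b.1 ≠ 2) (hbj : b.1 ≠ j) (B0 B1 : Bool) (hB : B0 = true ∨ B1 = true)
    (h : RtC5_F n V j b (if B0 then 1 else 0) (if B1 then 1 else 0)) :
    ∃ A, LP P2 V (j, true) A ∧ Ntr A ∧ A (2, true) = false ∧ A b = B0 ∧ A (bar b) = B1 := by
  have h2j : (2 : Fin 3) ≠ j := fun h => hj h.symm
  have hbj' : (bar b).1 ≠ j := hbj
  have hA := RtC5_lv E hj (b := b) (s := if B0 then 1 else 0) (t := if B1 then 1 else 0) (k := 0)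
    (f := RtC5_Y b B0 B1)
    (by rw [RtC5_Y_ne B0 B1 (x := (2, true)) (fun h => hb h.symm),
      RtC5_Y_ne B0 B1 (x := (2, false)) (fun h => hb h.symm)]) (by
      intro x _
      by_cases h1 : x = b
      · rw [h1, RtC5_q_b]
        simp only [ind, RtC5_Y_b, add_zero]
      · by_cases h3 : x = bar b
        · rw [h3, RtC5_q_bar]
          simp only [ind, RtC5_Y_bar, add_zero]
        · simp [RtC5_q, h1, h3, ind, RtC5_Y]) h
  have eb : RtC5_A j (RtC5_Y b B0 B1) b = B0 := by simp [RtC5_A, hbj, RtC5_Y_b]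
  have ebb : RtC5_A j (RtC5_Y b B0 B1) (bar b) = B1 := by
    simp only [RtC5_A, hbj', if_false, RtC5_Y_bar]
  have e2 : RtC5_A j (RtC5_Y b B0 B1) (2, true) = false := by
    simp only [RtC5_A, h2j, if_false]
    exact RtC5_Y_ne B0 B1 (x := (2, true)) (fun h => hb h.symm)
  refine ⟨_, hA, ⟨?_, ⟨(j, false), (2, true), fun h => h2j (congrArg Prod.fst h).symm, hA.2.1, e2⟩⟩,
    e2, eb, ebb⟩
  rcases hB with hB | hB
  · exact ⟨(j, true), b, fun h => hbj (congrArg Prod.fst h).symm, hA.1, by rw [eb, hB]⟩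
  · exact ⟨(j, true), bar b, fun h => hbj (congrArg Prod.fst h).symm, hA.1, by rw [ebb, hB]⟩

theorem RtC5_dn {n : ℕ} {V : CC} (E : EqP n P2 V) {j : Fin 3} (hj : j ≠ 2) {b : Fin 3 × Bool}
    (hb : b.1 ≠ 2) (hbj : b.1 ≠ j) (B0 B1 : Bool) (hB : B0 = true ∨ B1 = true)
    (h : RtC5_F n V j b (if B0 then -1 else 0) (if B1 then -1 else 0)) :
    ∃ A, LP P2 V (j, true) A ∧ Ntr A ∧ A (2, true) = true ∧ A b = !B0 ∧ A (bar b) = !B1 := by
  have h2j : (2 : Fin 3) ≠ j := fun h => hj h.symm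
  have hbj' : (bar b).1 ≠ j := hbj
  have hA := RtC5_lv E hj (b := b) (s := if B0 then -1 else 0) (t := if B1 then -1 else 0) (k := -1)
    (f := fun x => !RtC5_Y b B0 B1 x)
    (by rw [RtC5_Y_ne B0 B1 (x := (2, true)) (fun h => hb h.symm),
      RtC5_Y_ne B0 B1 (x := (2, false)) (fun h => hb h.symm)]) (by
      intro x _
      by_cases h1 : x = b
      · rw [h1, RtC5_q_b]
        simp only [ind, RtC5_Y_b]
        cases B0 <;> simp
      · by_cases h3 : x = bar b
        · rw [h3, RtC5_q_bar]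
          simp only [ind, RtC5_Y_bar]
          cases B1 <;> simp
        · simp [RtC5_q, h1, h3, ind, RtC5_Y]) h
  have eb : RtC5_A j (fun x => !RtC5_Y b B0 B1 x) b = !B0 := by simp [RtC5_A, hbj, RtC5_Y_b]
  have ebb : RtC5_A j (fun x => !RtC5_Y b B0 B1 x) (bar b) = !B1 := by
    simp only [RtC5_A, hbj', if_false, RtC5_Y_bar]
  have e2 : RtC5_A j (fun x => !RtC5_Y b B0 B1 x) (2, true) = true := by
    simp only [RtC5_A, h2j, if_false]
    rw [RtC5_Y_ne B0 B1 (x := (2, true)) (fun h => hb h.symm)]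
    rfl
  refine ⟨_, hA, ⟨⟨(j, true), (2, true), fun h => h2j (congrArg Prod.fst h).symm, hA.1, e2⟩, ?_⟩,
    e2, eb, ebb⟩
  rcases hB with hB | hB
  · exact ⟨(j, false), b, fun h => hbj (congrArg Prod.fst h).symm, hA.2.1, by rw [eb, hB]; rfl⟩
  · exact ⟨(j, false), bar b, fun h => hbj (congrArg Prod.fst h).symm, hA.2.1, by rw [ebb, hB]; rfl⟩

theorem RtC5_E {n : ℕ} {V : CC} (E : EqP n P2 V) {j : Fin 3} (hj : j ≠ 2) {b : Fin 3 × Bool}
    (hb : b.1 ≠ 2) (hbj : b.1 ≠ j) :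
    (RtC5_F n V j b 1 0 → 2 * edgS V (sgl (j, true)) (sgl b) = n) ∧
    (RtC5_F n V j b 0 1 → 2 * edgS V (sgl (j, true)) (sgl (bar b)) = n) ∧
    (RtC5_F n V j b 1 1 → edgS V (sgl (j, true)) (sgl b) + edgS V (sgl (j, true)) (sgl (bar b)) +
      edgS V (sgl b) (sgl (bar b)) = n) ∧
    (RtC5_F n V j b (-1) 0 → 2 * edgS V (sgl (bar (j, true))) (sgl b) = n) ∧
    (RtC5_F n V j b 0 (-1) → 2 * edgS V (sgl (bar (j, true))) (sgl (bar b)) = n) ∧
    (RtC5_F n V j b (-1) (-1) → edgS V (sgl (bar (j, true))) (sgl b) +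
      edgS V (sgl (bar (j, true))) (sgl (bar b)) + edgS V (sgl b) (sgl (bar b)) = n) := by
  refine ⟨fun h => ?_, fun h => ?_, fun h => ?_, fun h => ?_, fun h => ?_, fun h => ?_⟩
  · obtain ⟨A, hA, hn, h1, h2, h3⟩ := RtC5_up E hj hb hbj true false (Or.inl rfl) (by simpa using h)
    rcases nd_six E (z := (j, true)) hj hb hbj hA hn with h4 | h4 | h4 | h4 | h4 | h4
    · exact h4.2.2.2
    · rw [h2] at h4; exact absurd h4.2.1 (by decide)
    · rw [h3] at h4; exact absurd h4.2.2.1 (by decide)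
    · rw [h1] at h4; exact absurd h4.1 (by decide)
    · rw [h1] at h4; exact absurd h4.1 (by decide)
    · rw [h1] at h4; exact absurd h4.1 (by decide)
  · obtain ⟨A, hA, hn, h1, h2, h3⟩ := RtC5_up E hj hb hbj false true (Or.inr rfl) (by simpa using h)
    rcases nd_six E (z := (j, true)) hj hb hbj hA hn with h4 | h4 | h4 | h4 | h4 | h4
    · rw [h2] at h4; exact absurd h4.2.1 (by decide)
    · exact h4.2.2.2
    · rw [h2] at h4; exact absurd h4.2.1 (by decide)
    · rw [h1] at h4; exact absurd h4.1 (by decide)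
    · rw [h1] at h4; exact absurd h4.1 (by decide)
    · rw [h1] at h4; exact absurd h4.1 (by decide)
  · obtain ⟨A, hA, hn, h1, h2, h3⟩ := RtC5_up E hj hb hbj true true (Or.inl rfl) (by simpa using h)
    rcases nd_six E (z := (j, true)) hj hb hbj hA hn with h4 | h4 | h4 | h4 | h4 | h4
    · rw [h3] at h4; exact absurd h4.2.2.1 (by decide)
    · rw [h2] at h4; exact absurd h4.2.1 (by decide)
    · exact h4.2.2.2
    · rw [h1] at h4; exact absurd h4.1 (by decide)
    · rw [h1] at h4; exact absurd h4.1 (by decide)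
    · rw [h1] at h4; exact absurd h4.1 (by decide)
  · obtain ⟨A, hA, hn, h1, h2, h3⟩ := RtC5_dn E hj hb hbj true false (Or.inl rfl) (by simpa using h)
    rcases nd_six E (z := (j, true)) hj hb hbj hA hn with h4 | h4 | h4 | h4 | h4 | h4
    · rw [h1] at h4; exact absurd h4.1 (by decide)
    · rw [h1] at h4; exact absurd h4.1 (by decide)
    · rw [h1] at h4; exact absurd h4.1 (by decide)
    · exact h4.2.2.2
    · rw [h2] at h4; exact absurd h4.2.1 (by decide)
    · rw [h3] at h4; exact absurd h4.2.2.1 (by decide)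
  · obtain ⟨A, hA, hn, h1, h2, h3⟩ := RtC5_dn E hj hb hbj false true (Or.inr rfl) (by simpa using h)
    rcases nd_six E (z := (j, true)) hj hb hbj hA hn with h4 | h4 | h4 | h4 | h4 | h4
    · rw [h1] at h4; exact absurd h4.1 (by decide)
    · rw [h1] at h4; exact absurd h4.1 (by decide)
    · rw [h1] at h4; exact absurd h4.1 (by decide)
    · rw [h2] at h4; exact absurd h4.2.1 (by decide)
    · exact h4.2.2.2
    · rw [h2] at h4; exact absurd h4.2.1 (by decide)
  · obtain ⟨A, hA, hn, h1, h2, h3⟩ := RtC5_dn E hj hb hbj true true (Or.inl rfl) (by simpa using h)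
    rcases nd_six E (z := (j, true)) hj hb hbj hA hn with h4 | h4 | h4 | h4 | h4 | h4
    · rw [h1] at h4; exact absurd h4.1 (by decide)
    · rw [h1] at h4; exact absurd h4.1 (by decide)
    · rw [h1] at h4; exact absurd h4.1 (by decide)
    · rw [h3] at h4; exact absurd h4.2.2.1 (by decide)
    · rw [h2] at h4; exact absurd h4.2.1 (by decide)
    · exact h4.2.2.2

/-- the classes are given by pairs -/
theorem RtC5_rep {n : ℕ} {V : CC} (E : EqP n P2 V) {j : Fin 3} (hj : j ≠ 2) {b : Fin 3 × Bool}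
    (hb : b.1 ≠ 2) (hbj : b.1 ≠ j) {W : CC} (hW : W ∈ EP P2 (fun i => i = j) V) :
    ∃ s t, W = act (pot j (RtC5_q b s t)) V ∧ RtC5_F n V j b s t := by
  obtain ⟨h1, q, h2, h3, h4⟩ := em_pot E hj hW
  have hq2 : q (2, true) = q (2, false) := h2 2 rfl
  have e : act (pot j q) V =
      act (pot j (RtC5_q b (q b - q (2, true)) (q (bar b) - q (2, true)))) V := by
    refine pot_const (q (2, true)) ?_ V
    intro x hx
    by_cases hxb : x.1 = b.1
    · have hx' : x = b ∨ x = bar b := by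
        rcases x with ⟨x1, x2⟩
        rcases b with ⟨b1, b2⟩
        simp only at hxb
        subst hxb
        cases x2 <;> cases b2 <;> simp [bar]
      rcases hx' with rfl | rfl
      · rw [RtC5_q_b]
        ring
      · rw [RtC5_q_bar]
        ring
    · rw [RtC5_q_ne _ _ hxb]
      have hx2 : x.1 = 2 := by
        have a1 := x.1.isLt
        have a2 := b.1.isLt
        have a3 := j.isLt
        have a4 : (x.1 : ℕ) ≠ b.1 := fun h => hxb (Fin.ext h)
        have a5 : (x.1 : ℕ) ≠ j := fun h => hx (Fin.ext h)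
        have a6 : (b.1 : ℕ) ≠ j := fun h => hbj (Fin.ext h)
        have a7 : (b.1 : ℕ) ≠ 2 := fun h => hb (Fin.ext h)
        have a8 : (j : ℕ) ≠ 2 := fun h => hj (Fin.ext h)
        apply Fin.ext
        change (x.1 : ℕ) = 2
        omega
      rcases x with ⟨x1, x2⟩
      simp only at hx2
      subst hx2
      cases x2
      · rw [← hq2]
        ring
      · ring
  refine ⟨_, _, h4.trans e, ?_⟩
  unfold RtC5_F
  rw [← e, ← h4, h1]

theorem nd_line {n : ℕ} {V : CC} (E : EqP n P2 V) (hD : n < capC V (PrC 2)) {j : Fin 3}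
    (hj : j ≠ 2) {b : Fin 3 × Bool} (hb : b.1 ≠ 2) (hbj : b.1 ≠ j)
    (h1 : 2 * edgS V (sgl b) (sgl (j, true)) = n) (h2 : 2 * edgS V (sgl b) (sgl (j, false)) = n) :
    Cov (EP P2 (fun i => i = j) V) 3 := by
  have hX : PF P2 (sgl b) := by
    intro i hi
    have hi' : i = 2 := hi
    subst hi'
    have e1 : ((2 : Fin 3), true) ≠ b := by
      rintro rfl
      exact hb rfl
    have e2 : ((2 : Fin 3), false) ≠ b := by
      rintro rfl
      exact hb rfl
    simp [sgl, e1, e2]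
  refine cov_mono (line3 E (j := j) hj hX) ?_ le_rfl
  intro W hW
  obtain ⟨s, t, h3, h4⟩ := RtC5_rep E hj hb hbj hW
  have hI := nd_ineq E hD (z := (j, true)) (y := b) hj hb hbj
  have hE := RtC5_E E hj hb hbj
  have h1' : 2 * edgS V (sgl (j, true)) (sgl b) = n := by
    rw [edgS_comm]
    exact h1
  have h2' : 2 * edgS V (sgl (bar (j, true))) (sgl b) = n := by
    rw [edgS_comm]
    exact h2
  have ht : t = 0 := by
    rcases lt_trichotomy t 0 with h5 | h5 | h5
    · exfalso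
      have h6 := RtC5_min E hj hb h4 (α := 0) le_rfl
      have h7 := RtC5_max E hj hb h6 (α := -1) (by norm_num)
      have e1 : max (min t 0) (-1) = -1 := by omega
      rw [e1] at h7
      rcases le_or_gt 0 s with h8 | h8
      · have e2 : max (min s 0) (-1) = 0 := by omega
        rw [e2] at h7
        have h9 := hE.2.2.2.2.1 h7
        omega
      · have e2 : max (min s 0) (-1) = -1 := by omega
        rw [e2] at h7
        have h9 := hE.2.2.2.2.2 h7
        omega
    · exact h5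
    · exfalso
      have h6 := RtC5_max E hj hb h4 (α := 0) le_rfl
      have h7 := RtC5_min E hj hb h6 (α := 1) (by norm_num)
      have e1 : min (max t 0) 1 = 1 := by omega
      rw [e1] at h7
      rcases le_or_gt s 0 with h8 | h8
      · have e2 : min (max s 0) 1 = 0 := by omega
        rw [e2] at h7
        have h9 := hE.2.1 h7
        omega
      · have e2 : min (max s 0) 1 = 1 := by omega
        rw [e2] at h7
        have h9 := hE.2.2.1 h7
        omega
  subst ht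
  have e : RtC5_q b s 0 = fun x => s * ind (sgl b) x := by
    funext x
    simp only [RtC5_q, ind, sgl]
    by_cases hx : x = b <;> simp [hx]
  refine ⟨s, ?_, ?_⟩
  · rw [h3, e]
  · rw [h3]
    exact h4

/-- feasible pairs are close -/
theorem RtC5_close {n : ℕ} {W : CC} (E : EqP n P2 W) (hD : n < capC W (PrC 2)) {j : Fin 3}
    (hj : j ≠ 2) {b : Fin 3 × Bool} (hb : b.1 ≠ 2) (hbj : b.1 ≠ j)
    (h : ∀ W' ∈ EP P2 (fun i => i = j) W,
      ¬ (2 * edgS W' (sgl b) (sgl (j, true)) = n ∧ 2 * edgS W' (sgl b) (sgl (j, false)) = n))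
    {s t : ℤ} (hF : RtC5_F n W j b s t) : s ≤ 1 := by
  by_contra hs
  push Not at hs
  -- the class after a feasible step
  have step : ∀ s1 t1 : ℤ, RtC5_F n W j b s1 t1 →
      act (pot j (RtC5_q b s1 t1)) W ∈ EP P2 (fun i => i = j) W := fun s1 t1 h1 =>
    pot_em E hj (RtC5_PQ hb s1 t1) h1
  have hW0 : RtC5_F n W j b 0 0 := RtC5_zeroF (E.c j hj) b
  rcases le_or_gt t 0 with ht | ht
  · have a1 := RtC5_max E hj hb hF (α := 0) le_rfl
    have a2 := RtC5_min E hj hb a1 (α := 2) (by norm_num)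
    have a3 := RtC5_min E hj hb a2 (α := 1) (by norm_num)
    have e1 : min (max s 0) 2 = 2 := by omega
    have e2 : min (max t 0) 2 = 0 := by omega
    rw [e1, e2] at a2 a3
    have a3' : RtC5_F n W j b 1 0 := a3
    have hm := step 1 0 a3'
    have E1 := E.em hm
    have hE := RtC5_E E1 hj hb hbj
    have b1 := hE.1 (RtC5_tr.2 a2)
    have b2 := hE.2.2.2.1 (RtC5_tr.2 hW0)
    refine h _ hm ⟨?_, ?_⟩
    · rw [edgS_comm]
      exact b1
    · rw [edgS_comm]
      exact b2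
  · rcases eq_or_lt_of_le (show (1 : ℤ) ≤ t by omega) with ht1 | ht1
    · subst ht1
      have a1 := RtC5_min E hj hb hF (α := 1) (by norm_num)
      have a2 := RtC5_min E hj hb hF (α := 2) (by norm_num)
      have e1 : min s 1 = 1 := by omega
      have e2 : min s 2 = 2 := by omega
      rw [e1] at a1
      rw [e2] at a2
      have a1' : RtC5_F n W j b 1 1 := a1
      have a2' : RtC5_F n W j b 2 1 := a2
      have hm := step 1 1 a1'
      have E1 := E.em hm
      have hD1 : n < capC (act (pot j (RtC5_q b 1 1)) W) (PrC 2) := by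
        rw [capT hm]
        exact hD
      have hE := RtC5_E E1 hj hb hbj
      have hI := nd_ineq E1 hD1 (z := (j, true)) (y := b) hj hb hbj
      have b1 := hE.1 (RtC5_tr.2 a2')
      have b2 := hE.2.2.2.2.2 (RtC5_tr.2 hW0)
      omega
    · have a1 := RtC5_min E hj hb hF (α := 1) (by norm_num)
      have a2 := RtC5_min E hj hb hF (α := 2) (by norm_num)
      have e1 : min s 1 = 1 := by omega
      have e2 : min s 2 = 2 := by omega
      have e3 : min t 1 = 1 := by omega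
      have e4 : min t 2 = 2 := by omega
      rw [e1, e3] at a1
      rw [e2, e4] at a2
      have hm := step 1 1 a1
      have E1 := E.em hm
      have hD1 : n < capC (act (pot j (RtC5_q b 1 1)) W) (PrC 2) := by
        rw [capT hm]
        exact hD
      have hE := RtC5_E E1 hj hb hbj
      have hI := nd_ineq E1 hD1 (z := (j, true)) (y := b) hj hb hbj
      have b1 := hE.2.2.1 (RtC5_tr.2 a2)
      have b2 := hE.2.2.2.2.2 (RtC5_tr.2 hW0)
      omega

theorem nd_box {n : ℕ} {V : CC} (E : EqP n P2 V) (hD : n < capC V (PrC 2)) {j i : Fin 3}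
    (hj : j ≠ 2) (hi : i ≠ 2) (hij : i ≠ j)
    (h : ∀ W ∈ EP P2 (fun i => i = j) V, ∀ b : Fin 3 × Bool, b.1 = i →
      ¬ (2 * edgS W (sgl b) (sgl (j, true)) = n ∧ 2 * edgS W (sgl b) (sgl (j, false)) = n)) :
    Cov (EP P2 (fun i => i = j) V) 4 := by
  classical
  -- two feasible pairs
  have key : ∀ b : Fin 3 × Bool, b.1 = i → ∀ s t s' t' : ℤ, RtC5_F n V j b s t →
      RtC5_F n V j b s' t' → s' ≤ s + 1 := by
    intro b hbi s t s' t' h1 h2
    have hb : b.1 ≠ 2 := by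
      rw [hbi]
      exact hi
    have hbj : b.1 ≠ j := by
      rw [hbi]
      exact hij
    have hm : act (pot j (RtC5_q b s t)) V ∈ EP P2 (fun i => i = j) V :=
      pot_em E hj (RtC5_PQ hb s t) h1
    have h3 : RtC5_F n (act (pot j (RtC5_q b s t)) V) j b (s' - s) (t' - t) := by
      rw [RtC5_tr, sub_add_cancel, sub_add_cancel]
      exact h2
    have h4 := RtC5_close (E.em hm) (by rw [capT hm]; exact hD) hj hb hbj
      (fun W' hW' => h W' (EM_trans hm hW') b hbi) h3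
    omega
  have hb : ((i, true) : Fin 3 × Bool).1 ≠ 2 := hi
  have hbj : ((i, true) : Fin 3 × Bool).1 ≠ j := hij
  have key1 : ∀ s t s' t' : ℤ, RtC5_F n V j (i, true) s t → RtC5_F n V j (i, true) s' t' →
      s' ≤ s + 1 ∧ t' ≤ t + 1 := by
    intro s t s' t' h1 h2
    refine ⟨key (i, true) rfl s t s' t' h1 h2, ?_⟩
    have sw : ∀ s t : ℤ, RtC5_F n V j (i, true) s t → RtC5_F n V j (bar (i, true)) t s := by
      intro s t h3
      unfold RtC5_F at h3 ⊢
      rw [RtC5_swap]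
      exact h3
    exact key (bar (i, true)) rfl t s t' s' (sw _ _ h1) (sw _ _ h2)
  have h0 : RtC5_F n V j (i, true) 0 0 := RtC5_zeroF (E.c j hj) _
  obtain ⟨m, hm⟩ : ∃ m : ℤ, ∀ s t : ℤ, RtC5_F n V j (i, true) s t → s = m ∨ s = m + 1 := by
    by_cases hc : ∃ t, RtC5_F n V j (i, true) (-1) t
    · obtain ⟨t, ht⟩ := hc
      refine ⟨-1, fun s' t' h' => ?_⟩
      have a1 := (key1 _ _ _ _ ht h').1
      have a2 := (key1 _ _ _ _ h' h0).1
      omega
    · refine ⟨0, fun s' t' h' => ?_⟩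
      have a1 := (key1 _ _ _ _ h0 h').1
      have a2 := (key1 _ _ _ _ h' h0).1
      have a3 : s' ≠ -1 := by
        rintro rfl
        exact hc ⟨t', h'⟩
      omega
  obtain ⟨m', hm'⟩ : ∃ m : ℤ, ∀ s t : ℤ, RtC5_F n V j (i, true) s t → t = m ∨ t = m + 1 := by
    by_cases hc : ∃ s, RtC5_F n V j (i, true) s (-1)
    · obtain ⟨s, hs⟩ := hc
      refine ⟨-1, fun s' t' h' => ?_⟩
      have a1 := (key1 _ _ _ _ hs h').2
      have a2 := (key1 _ _ _ _ h' h0).2
      omega
    · refine ⟨0, fun s' t' h' => ?_⟩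
      have a1 := (key1 _ _ _ _ h0 h').2
      have a2 := (key1 _ _ _ _ h' h0).2
      have a3 : t' ≠ -1 := by
        rintro rfl
        exact hc ⟨s', h'⟩
      omega
  refine ⟨{act (pot j (RtC5_q (i, true) m m')) V, act (pot j (RtC5_q (i, true) (m + 1) m')) V,
    act (pot j (RtC5_q (i, true) m (m' + 1))) V, act (pot j (RtC5_q (i, true) (m + 1) (m' + 1))) V},
    Finset.card_le_four, ?_⟩
  intro W hW
  obtain ⟨s, t, rfl, h3⟩ := RtC5_rep E hj hb hbj hW
  rcases hm s t h3 with rfl | rfl <;> rcases hm' _ _ h3 with rfl | rfl <;> simp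

end Pw

end Pool.Agent.Sims
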