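import Pool.Agent.Sims.RtUe
import Pool.Agent.Sims.RtI
import Pool.Agent.Sims.EvU
import Pool.Agent.Sims.RtBasS

/-!
# Module `RtU` : moves of a rigid letter can be done last (world with fixed letters)

Copy of the proof of `lemU` (module `EvU`) with the translations `Eq3 n → EqP n P`, `Lv → LP P`, `Crs n → CrP n P`, `EM → EP P`, and the lemmas of the namespace `Pw` (`Pw.exch_same`, `Pw.exch_diff`, `Pw.Lv_compl`, `Pw.crs_em`).
The hypothesis is only `¬ CrP n P V (i, true)` (by `Pw.crs_em` it holds for all `W ∈ EP P (M ∖ i) V`).  `σ` fixes the letters outside of `M`; the cuts `B ∘ σ` are `P`-fixed since `σ` fixes the letters of `P` (hypothesis `hM`: the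
generators in `M` are not in `P`; a generator in `P` is therefore not in `M`).
Difficulty 2.
-/

namespace Pool.Agent.Sims

namespace Pw

variable {P : Fin 3 → Prop}

theorem RtU_P {M : Fin 3 → Prop} (hM : ∀ k, M k → ¬ P k) {σ : SPerm (Fin 3)}
    (hσ : ∀ x : Fin 3 × Bool, ¬ M x.1 → σ.letter x = x) (i : Fin 3) : P i ↔ P (σ.perm i) := by
  have key : ∀ j, P j → σ.perm j = j := by
    intro j hj
    exact congrArg Prod.fst (hσ (j, true) (fun h => hM j h hj))
  constructor
  · intro h
    rw [key i h]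
    exact h
  · intro h
    have h1 := key _ h
    have h2 := σ.perm.injective h1
    rwa [h2] at h

theorem RtU_pull (σ : SPerm (Fin 3)) (hσ : ∀ i, P i ↔ P (σ.perm i)) {U : CC} {y : Fin 3 × Bool}
    {B : Ct} (h : LP P (act σ.aut U) y B) :
    LP P U (σ.inv.letter y) (fun x => B (σ.letter x)) ∧
    act (wh y B) (act σ.aut U) =
      act σ.aut (act (wh (σ.inv.letter y) (fun x => B (σ.letter x))) U) := by
  obtain ⟨h1, h2⟩ := EvU_pull σ (LP_Lv h)
  exact ⟨⟨h1.1, h1.2.1, h1.2.2, PF_SPerm' h.2.2.2 σ hσ⟩, h2⟩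

theorem lemU {n : ℕ} {V : CC} (E : EqP n P V) {M : Fin 3 → Prop} {i : Fin 3} (hi : M i)
    (hM : ∀ k, M k → ¬ P k) (hr : ¬ CrP n P V (i, true)) {W : CC} (hW : W ∈ EP P M V) :
    ∃ (σ : SPerm (Fin 3)) (W1 : CC) (A : Ct), W1 ∈ EP P (fun j => M j ∧ j ≠ i) V ∧
      LP P W1 (i, true) A ∧ (∀ x : Fin 3 × Bool, ¬ M x.1 → σ.letter x = x) ∧
      W = act σ.aut (act (wh (i, true) A) W1) := by
  have h1 : Relation.ReflTransGen (StP P M) V W := hW
  clear hW
  induction h1 with
  | refl =>
    have hπ' : ∀ x : Fin 3 × Bool,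
        (⟨Equiv.refl _, fun _ => true⟩ : SPerm (Fin 3)).letter x = x := by
      rintro ⟨i, b⟩
      simp [SPerm.letter]
    have hπ := EvU_act_id _ hπ'
    have hL : LP P V (i, true) (sgl (i, true)) := by
      refine ⟨by simp [sgl], ?_, capC_sgl V _, ?_⟩
      · simp only [sgl, decide_eq_false_iff_not]
        exact bar_ne _
      · intro k hk
        have h1 := P_ne (z := (i, true)) (hM i hi) hk true
        have h2 := P_ne (z := (i, true)) (hM i hi) hk false
        simp [sgl, h1.1, h2.1]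
    refine ⟨⟨Equiv.refl _, fun _ => true⟩, V, sgl (i, true), Relation.ReflTransGen.refl, hL, fun x _ => hπ' x, ?_⟩
    rw [hπ, Lv_triv]
    intro x hx
    simp only [sgl, decide_eq_false_iff_not]
    rintro rfl
    exact hx rfl
  | @tail W' W'' _ h3 ih =>
    obtain ⟨σ, W1, A, hW1, hA, hσ, rfl⟩ := ih
    obtain ⟨y, B, hy, hB, rfl⟩ := h3
    have hE1 : EqP n P W1 := E.em hW1
    have hu : ¬ VP n P (act (wh (i, true) A) W1) (stc A (i, true)) :=
      fun hc => hr ((crs_em E (fun h => h.2 rfl) hW1).1 ⟨A, hA, hc⟩)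
    obtain ⟨hB', hact⟩ := RtU_pull σ (RtU_P hM hσ) hB
    have hMy : M (σ.inv.letter y).1 := by
      by_contra hc
      have h4 := hσ _ hc
      rw [SPerm.letter_inv] at h4
      rw [← h4] at hc
      exact hc hy
    rw [hact]
    by_cases hyi : (σ.inv.letter y).1 = i
    · obtain ⟨A', hA', h5⟩ := exch_same hE1 hA hu hB' hyi
      exact ⟨σ, W1, A', hW1, hA', hσ, by rw [h5]⟩
    · obtain ⟨σ2, z', y', A', B', hz', hy', hL1, hL2, hσ2, h5⟩ := exch_diff hE1 hA hu hB' hyi
      have hfix : ∀ x : Fin 3 × Bool, ¬ M x.1 → (Conn_comp σ σ2).letter x = x := by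
        intro x hx
        rw [Conn_comp_letter]
        have e1 : x.1 ≠ i := fun h => hx (by rw [h]; exact hi)
        have e2 : x.1 ≠ (σ.inv.letter y).1 := fun h => hx (by rw [h]; exact hMy)
        rw [hσ2 x e1 e2, hσ x hx]
      have hW1' : act (wh y' B') W1 ∈ EP P (fun j => M j ∧ j ≠ i) V :=
        Relation.ReflTransGen.tail hW1 ⟨y', B', ⟨by rw [hy']; exact hMy, by rw [hy']; exact hyi⟩,
          hL1, rfl⟩
      obtain ⟨j, b⟩ := z'
      change j = i at hz'
      subst hz'
      cases b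
      · have h6 := Lv_compl hL2
        refine ⟨Conn_comp σ σ2, act (wh y' B') W1, fun x => !A' x, hW1', h6.1, hfix, ?_⟩
        have h7 : act (wh (j, true) (fun x => !A' x)) (act (wh y' B') W1) =
          act (wh (j, false) A') (act (wh y' B') W1) := h6.2
        rw [h5, Conn_act_comp, h7]
      · refine ⟨Conn_comp σ σ2, act (wh y' B') W1, A', hW1', hL2, hfix, ?_⟩
        rw [h5, Conn_act_comp]

end Pw

end Pool.Agent.Sims
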