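import Pool.Agent.Sims.RtC3
import Pool.Agent.Sims.RtC5
import Pool.Agent.Sims.RtU

/-!
# Module `RtC6` : `{c, c⁻¹}` not tight: at most `12` classes

`nd_unc`: `V₁ ∈ EP P2 (· ≠ 2) V` and `i ≠ 2` with `¬ CrP n P2 V₁ (i, true)`; `EP P2 (· ≠ 2) V₁ = EP P2 (· ≠ 2) V` (`Pw.EM_eq`).  Let `j` be the other light generator.  `Pw.lemU`: every `W ∈ EP P2 (· ≠ 2) V₁` is
`act σ.aut (act (wh (i, true) A) W₁)`, `W₁ ∈ EP P2 (· = j) V₁` (`k ≠ 2 ∧ k ≠ i` iff `k = j`), `A` a level `(i, true)`-cut at `W₁`, `σ` fixes the letters `x_2^{±1}` (so `Fix2 σ`).  For a fixed `W₁` the classes `act (wh (i, true) A) W₁` are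
covered by `1 + card (LSP P2 W₁ (i, true))` classes (`Pw.cntMv`).  All `W₁` satisfy `EqP n P2` (`Pw.EqP.em`) and `n < capC W₁ (PrC 2)` (`capT`).
* If some `W₁ ∈ EP P2 (· = j) V₁` has a letter `b`, `b.1 = i`, with `2 e(b, x) = 2 e(b, x⁻¹) = n`, `x = (j, true)`: `EP P2 (· = j) V₁ = EP P2 (· = j) W₁` is covered by `3` classes (`nd_line`), and `card LSP ≤ 3` (`nd_ls3`): `3 · 4 = 12`.
* Otherwise it is covered by `4` classes (`nd_box`) and `card LSP ≤ 2` (`nd_ls2` with `z = (i, true)`, `y = (j, true)`): `4 · 3 = 12`.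
(`cov_bind`; the cover of `EP P2 (· = j) V₁` can be chosen inside this set.)
Difficulty 2.
-/

namespace Pool.Agent.Sims

namespace Pw

theorem RtC6_other : ∀ i : Fin 3, i ≠ 2 → ∃ j : Fin 3, j ≠ 2 ∧ i ≠ j ∧ ∀ k : Fin 3, (k ≠ 2 ∧ k ≠ i) ↔ k = j := by
  decide

theorem RtC6_fin {n : ℕ} {V V1 : CC} {i : Fin 3} (E1 : EqP n P2 V1)
    (hV1 : V1 ∈ EP P2 (fun i => i ≠ 2) V) (hi : i ≠ 2) (hr : ¬ CrP n P2 V1 (i, true)) {N L : ℕ}
    (hN : N * (1 + L) ≤ 12) (hc : Cov (EP P2 (fun k => k ≠ 2 ∧ k ≠ i) V1) N)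
    (hL : ∀ W ∈ EP P2 (fun k => k ≠ 2 ∧ k ≠ i) V1, (LSP P2 W (i, true)).card ≤ L) :
    CovF2 (EP P2 (fun i => i ≠ 2) V) 12 := by
  have h1 := cov_bind hc (fun q => {W | ∃ A, LP P2 q (i, true) A ∧ W = act (wh (i, true) A) q})
    (K := 1 + L)
    (fun q hq => cov_mono (cntMv q (i, true)) (fun _ h => h) (by have := hL q hq; omega))
  obtain ⟨F, hF, hFS⟩ := h1
  refine ⟨F, hF.trans hN, ?_⟩
  intro W hW
  rw [← EM_eq hV1] at hW
  obtain ⟨σ, W1, A, h2, h3, h4, h5⟩ := lemU E1 (i := i) hi (fun k hk hp => hk hp) hr hW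
  refine ⟨σ, ?_, _, hFS _ ⟨W1, h2, A, h3, rfl⟩, h5⟩
  have h6 := h4 (2, true) (fun h => h rfl)
  exact congrArg Prod.fst h6

theorem nd_count {n : ℕ} {V : CC} (E : EqP n P2 V) (hD : n < capC V (PrC 2)) :
    CovF2 (EP P2 (fun i => i ≠ 2) V) 12 := by
  obtain ⟨V1, hV1, i, hi, hr⟩ := nd_unc E hD
  have E1 : EqP n P2 V1 := EqP.em E hV1
  have hD1 : n < capC V1 (PrC 2) := by rw [capT hV1]; exact hD
  obtain ⟨j, hj, hij, hk⟩ := RtC6_other i hi
  have hM : (fun k : Fin 3 => k ≠ 2 ∧ k ≠ i) = (fun k => k = j) := by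
    funext k; exact propext (hk k)
  by_cases h : ∃ W ∈ EP P2 (fun k => k = j) V1, ∃ b : Fin 3 × Bool, b.1 = i ∧
      2 * edgS W (sgl b) (sgl (j, true)) = n ∧ 2 * edgS W (sgl b) (sgl (j, false)) = n
  · obtain ⟨W, hW, b, hb, h1, h2⟩ := h
    have EW : EqP n P2 W := EqP.em E1 hW
    have hDW : n < capC W (PrC 2) := by rw [capT hW]; exact hD1
    have h3 := nd_line EW hDW hj (b := b) (by rw [hb]; exact hi) (by rw [hb]; exact hij) h1 h2
    rw [EM_eq hW] at h3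
    refine RtC6_fin (N := 3) (L := 3) E1 hV1 hi hr (by norm_num) (by rw [hM]; exact h3) ?_
    intro U hU
    rw [hM] at hU
    have EU : EqP n P2 U := EqP.em E1 hU
    have hDU : n < capC U (PrC 2) := by rw [capT hU]; exact hD1
    exact nd_ls3 EU hDU hi
  · push Not at h
    have h0 : ∀ W ∈ EP P2 (fun k => k = j) V1, ∀ b : Fin 3 × Bool, b.1 = i →
      ¬ (2 * edgS W (sgl b) (sgl (j, true)) = n ∧ 2 * edgS W (sgl b) (sgl (j, false)) = n) :=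
      fun W hW b hb hh => h W hW b hb hh.1 hh.2
    have h3 := nd_box E1 hD1 hj hi hij h0
    refine RtC6_fin (N := 4) (L := 2) E1 hV1 hi hr (by norm_num) (by rw [hM]; exact h3) ?_
    intro U hU
    rw [hM] at hU
    have EU : EqP n P2 U := EqP.em E1 hU
    have hDU : n < capC U (PrC 2) := by rw [capT hU]; exact hD1
    exact nd_ls2 EU hDU (z := (i, true)) (y := (j, true)) hi hj (fun h => hij h.symm)
      (fun b hb => h0 U hU b hb)

end Pw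

end Pool.Agent.Sims
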