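import Pool.Agent.Sims.RtF1
import Pool.Agent.Sims.SylEdge

/-!
# Module `RtDetC` : port of `EvDetC`
-/

namespace Pool.Agent.Sims

namespace Pw

open FreeGroup (of)

variable {P : Fin 3 → Prop}

theorem det_core {n : ℕ} {V : CC} (E : EqP n P V) {z : Fin 3 × Bool} {A C : Ct} (hA : LP P V z A)
    (hC : NP n P (act (wh z A) V) C) (hX : Crossg C (stc A z)) (hz : C (bar z) = true)
    (hX' : ∀ x, rs z.1 A x = true → C x = false) {x t : Fin 3 × Bool} (h : Ps V x (bar z) t) :
    (rs z.1 A (bar t) = false → (rs z.1 A x = true ↔ C (bar t) = false)) ∧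
    (rs z.1 A (bar t) = true → (rs z.1 A x = true ↔ C z = false)) := by
  have E1 : EqP n P (act (wh z A) V) := E.lv hA
  have hQ : NP n P (act (wh z A) V) (stc A z) := by
    have h1 := (Lv_inv hA).1
    exact ((Lv_NC E1).1 h1).2.2
  obtain ⟨hf1, hf2, -⟩ := f1e E1 hC hQ hX
  have hne : z ≠ bar z := (bar_ne z).symm
  -- values of `stc A z`
  have q1 : stc A z (bar z) = true := by simp [stc]
  have q2 : stc A z z = false := by simp [stc, hne]
  have q3 : ∀ u : Fin 3 × Bool, u.1 ≠ z.1 → stc A z u = A u := by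
    intro u hu
    have h1 : u ≠ z := fun h => hu (by rw [h])
    have h2 : u ≠ bar z := fun h => hu (by rw [h, bar_fst])
    simp [stc, h1, h2]
  have hX2 : ∀ u : Fin 3 × Bool, u.1 ≠ z.1 → A u = true → C u = false := by
    intro u hu hAu
    exact hX' u (by simp [rs, hu, hAu])
  have hVn : ∃ i, i ≠ z.1 ∧ 0 < cnt V i := by
    have h4 := E.h4
    obtain ⟨i, hi⟩ : ∃ i : Fin 3, i ≠ z.1 := exists_ne z.1
    exact ⟨i, hi, E.pos i⟩
  have hi01 : ∀ u, ind A u = 0 ∨ ind A u = 1 := by
    intro u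
    unfold ind
    split_ifs
    · right; rfl
    · left; rfl
  have hp : ∀ u, whp z A u = sgn z * ind A u := by
    intro u
    unfold whp ind
    split_ifs <;> simp
  have hsz : sgn (bar z) = - sgn z := by
    rcases z with ⟨i, b⟩
    cases b <;> simp [sgn]
  -- from the absence of edges to the conclusions
  have N1 : ∀ u, u.1 ≠ z.1 → A u = false →
      ((fun x => C x && stc A z x) (bar z) && (fun x => !C x && !stc A z x) u ||
        (fun x => !C x && !stc A z x) (bar z) && (fun x => C x && stc A z x) u) = false →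
      C u = true := by
    intro u hu hAu hN
    simp only [hz, q1, q3 u hu, hAu] at hN
    simpa using hN
  have N2 : ((fun x => C x && stc A z x) z && (fun x => !C x && !stc A z x) (bar z) ||
        (fun x => !C x && !stc A z x) z && (fun x => C x && stc A z x) (bar z)) = false →
      C z = true := by
    intro hN
    simp only [hz, q1, q2] at hN
    simpa using hN
  have N3 : ∀ u, u.1 ≠ z.1 → A u = true →
      ((fun x => C x && !stc A z x) u && (fun x => !C x && stc A z x) z ||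
        (fun x => !C x && stc A z x) u && (fun x => C x && !stc A z x) z) = false →
      C z = false := by
    intro u hu hAu hN
    simp only [hX2 u hu hAu, q2, q3 u hu, hAu] at hN
    simpa using hN
  have N4 : ∀ u v, u.1 ≠ z.1 → v.1 ≠ z.1 → A u = true → A v = false →
      ((fun x => C x && !stc A z x) u && (fun x => !C x && stc A z x) v ||
        (fun x => !C x && stc A z x) u && (fun x => C x && !stc A z x) v) = false →
      C v = false := by
    intro u v hu hv hAu hAv hN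
    simp only [hX2 u hu hAu, q3 u hu, q3 v hv, hAu, hAv] at hN
    simpa using hN
  have sw : ∀ (P R : Ct) (a b : Fin 3 × Bool), (P a && R b || R a && P b) = false →
      (P b && R a || R b && P a) = false := by
    intro P R a b h1
    rw [Bool.or_comm, Bool.and_comm (R b), Bool.and_comm (P b)]
    exact h1
  unfold wh at hf1 hf2
  rcases h with h | h
  · obtain ⟨s, q, r, hs, hV, hqj, hrj, hadj, m, hm1, hqm, hcase⟩ :=
      EvDetC_loc hVn (bar_fst z) h
    rw [hV] at hf1 hf2
    have hm' : q.2 + whp z A q.1 - whp z A (bar r.1) =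
        sgn (bar z) * (m - ind A q.1 + ind A (bar r.1)) := by
      rw [hqm, hp, hp, hsz]
      ring
    have hm0 : 0 ≤ m - ind A q.1 + ind A (bar r.1) := by
      rcases hi01 q.1 with h1 | h1 <;> rcases hi01 (bar r.1) with h2 | h2 <;> omega
    obtain ⟨a0, a1, a2, a3⟩ := EvDetC_vanish hs hadj (whp z A) hf1 (bar_fst z) hm' hm0
    obtain ⟨b0, b1, b2, b3⟩ := EvDetC_vanish hs hadj (whp z A) hf2 (bar_fst z) hm' hm0
    rw [bar_bar] at a1 a3 b1 b3
    have hrj' : (bar r.1).1 ≠ z.1 := hrj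
    refine EvDetC_core (m := m) (x₀ := q.1) (u₀ := bar r.1) hqj hrj rfl ?_ ?_ ?_ ?_ ?_
    · intro h0 h1 h2
      exact N4 _ _ hqj hrj' h1 h2 (b0 h0)
    · intro h0 h1
      exact N3 _ hqj h1 (b1 h0)
    · intro h0 h1
      exact N1 _ hrj' h1 (a2 h0)
    · intro h0
      exact N2 (sw (fun x => C x && stc A z x) (fun x => !C x && !stc A z x) _ _ (a3 h0))
    · rcases hcase with ⟨c1, c2, c3⟩ | ⟨c1, c2, c3⟩ | ⟨c1, c2, c3⟩ | ⟨c1, c2, c3⟩
      · exact Or.inl ⟨c1, by rw [c2], c3⟩
      · exact Or.inr (Or.inl ⟨c1, by rw [c2, bar_bar], c3⟩)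
      · exact Or.inr (Or.inr (Or.inl ⟨c1, by rw [c2, bar_bar], c3⟩))
      · exact Or.inr (Or.inr (Or.inr ⟨c1, by rw [c2], c3⟩))
  · rw [bar_bar] at h
    obtain ⟨s, q, r, hs, hV, hqj, hrj, hadj, m, hm1, hqm, hcase⟩ := EvDetC_loc hVn rfl h
    rw [hV] at hf1 hf2
    have hm' : q.2 + whp z A q.1 - whp z A (bar r.1) =
        sgn z * (m - ind A (bar r.1) + ind A q.1) := by
      rw [hqm, hp, hp]
      ring
    have hm0 : 0 ≤ m - ind A (bar r.1) + ind A q.1 := by
      rcases hi01 q.1 with h1 | h1 <;> rcases hi01 (bar r.1) with h2 | h2 <;> omega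
    obtain ⟨a0, a1, a2, a3⟩ := EvDetC_vanish hs hadj (whp z A) hf1 rfl hm' hm0
    obtain ⟨b0, b1, b2, b3⟩ := EvDetC_vanish hs hadj (whp z A) hf2 rfl hm' hm0
    have hrj' : (bar r.1).1 ≠ z.1 := hrj
    have sx : ∀ a b : Fin 3 × Bool, bar a = b → a = bar b := by
      intro a b h1
      rw [← h1, bar_bar]
    refine EvDetC_core (m := m) (x₀ := bar r.1) (u₀ := q.1) hrj' hqj rfl ?_ ?_ ?_ ?_ ?_
    · intro h0 h1 h2
      exact N4 _ _ hrj' hqj h1 h2
        (sw (fun x => C x && !stc A z x) (fun x => !C x && stc A z x) _ _ (b0 h0))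
    · intro h0 h1
      exact N3 _ hrj' h1
        (sw (fun x => C x && !stc A z x) (fun x => !C x && stc A z x) _ _ (b2 h0))
    · intro h0 h1
      exact N1 _ hqj h1
        (sw (fun x => C x && stc A z x) (fun x => !C x && !stc A z x) _ _ (a1 h0))
    · intro h0
      exact N2 (a3 h0)
    · rcases hcase with ⟨c1, c2, c3⟩ | ⟨c1, c2, c3⟩ | ⟨c1, c2, c3⟩ | ⟨c1, c2, c3⟩
      · exact Or.inl ⟨sx _ _ c2, c1, c3⟩
      · exact Or.inr (Or.inr (Or.inr ⟨sx _ _ c2, c1, c3⟩))
      · exact Or.inr (Or.inr (Or.inl ⟨sx _ _ c2, c1, c3⟩))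
      · exact Or.inr (Or.inl ⟨sx _ _ c2, c1, c3⟩)

end Pw

end Pool.Agent.Sims
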