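import Pool.Agent.Sims.EvFac
import Pool.Agent.Sims.RtDetC
import Pool.Agent.Sims.RtNB

/-!
# Module `RtDet5` : port of `EvDet5`
-/

namespace Pool.Agent.Sims

namespace Pw

open FreeGroup (of)

variable {P : Fin 3 → Prop}

theorem PF_sgl {z : Fin 3 × Bool} (hz : ¬ P z.1) : PF P (sgl z) := by
  intro i hi
  have h1 := P_ne hz hi true
  have h2 := P_ne hz hi false
  simp [sgl, h1.1, h2.1]

theorem EvDet5_Blk_NC {n : ℕ} {V : CC} (E : EqP n P V)
    (hP : ∀ i, i ≠ 0 → ¬ P i) (hT : NP n P V (PrC 0)) {X : Ct}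
    (h : EvDet5_Blk X) : NP n P V X := by
  rcases h with rfl | ⟨u, hu, rfl⟩
  · exact hT
  · refine ⟨⟨⟨⟨u, by simp [sgl]⟩, ⟨bar u, by simp [sgl, bar_ne]⟩⟩, PF_sgl (hP _ hu)⟩, ?_⟩
    rw [capC_sgl, E.c _ (hP _ hu)]

/-- the letters which are not in the two neighbour blocks are not neighbours -/
theorem EvDet5_nbr {n : ℕ} {V : CC} (E : EqP n P V) {z : Fin 3 × Bool} (hz : ¬ P z.1) {X Y : Ct}
    (hXz : X z = false) (hYz : Y z = false) (hXY : ∀ x, X x = true → Y x = false)
    (h1 : 2 * edgS V (sgl z) X = n) (h2 : 2 * edgS V (sgl z) Y = n) {x : Fin 3 × Bool}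
    (hx : x ≠ z) (hx1 : X x = false) (hx2 : Y x = false) : edgS V (sgl z) (sgl x) = 0 := by
  have e1 : edgS V (sgl z) (fun y => !sgl z y) = n := by
    rw [← capC_edgS, capC_sgl, E.c _ hz]
  have hd : ∀ y, sgl z y = true → (!sgl z y) = false := by intro y hy; rw [hy]; rfl
  have e2 := edgS_split V (P := sgl z) (Q := fun y => !sgl z y) X hd
  have e3 := edgS_split V (P := sgl z) (Q := fun y => !sgl z y && !X y) Y (by
    intro y hy
    simp [hy])
  have e4 : edgS V (sgl z) (fun y => !sgl z y && X y) = edgS V (sgl z) X := by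
    refine edgS_congr V (fun _ => rfl) fun y => ?_
    by_cases hy : y = z
    · rw [hy, hXz]; simp
    · simp [sgl, hy]
  have e5 : edgS V (sgl z) (fun y => (!sgl z y && !X y) && Y y) = edgS V (sgl z) Y := by
    refine edgS_congr V (fun _ => rfl) fun y => ?_
    by_cases hy : y = z
    · rw [hy, hYz]; simp
    · cases hY : Y y
      · simp
      · cases hX : X y
        · simp [sgl, hy]
        · rw [hXY y hX] at hY
          exact absurd hY (by decide)
  have e6 : edgS V (sgl z) (sgl x) ≤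
      edgS V (sgl z) (fun y => (!sgl z y && !X y) && !Y y) := by
    refine edgS_mono V (fun _ h => h) fun y hy => ?_
    simp only [sgl, decide_eq_true_eq] at hy
    subst hy
    simp [sgl, hx, hx1, hx2]
  omega

/-- the side of a passage depends only on the class of the other end -/
theorem EvDet5_core {n : ℕ} {V : CC} (E : EqP n P V)
    (hP : ∀ i, i ≠ 0 → ¬ P i) (hT : NP n P V (PrC 0))
    (hu : ¬ VP n P V (PrC 0)) {z : Fin 3 × Bool} (hz : z.1 ≠ 0) (h : CrP n P V z) {X : Ct}
    (hB : EvDet5_Blk X) (hXz : X z = false) (hXb : X (bar z) = false)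
    (he : 2 * edgS V (sgl z) X = n) {x t x' t' : Fin 3 × Bool} (h1 : Ps V x (bar z) t)
    (h2 : Ps V x' (bar z) t') (h3 : eT t t') : X x = true ↔ X x' = true := by
  have hXN := EvDet5_Blk_NC E hP hT hB
  obtain ⟨A, hAd⟩ : ∃ A : Ct, A = fun y => sgl z y || X y := ⟨_, rfl⟩
  have hsz : sgl z z = true := by simp [sgl]
  have hszb : sgl z (bar z) = false := by simp [sgl, bar_ne]
  have hdis : ∀ y, sgl z y = true → X y = false := by
    intro y hy
    simp only [sgl, decide_eq_true_eq] at hy
    rw [hy]; exact hXz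
  have hA : LP P V z A := by
    refine ⟨by rw [hAd]; simp [hsz], by rw [hAd]; simp [hszb, hXb], ?_, ?_⟩
    · have e1 := capC_union V (sgl z) X hdis
      rw [capC_sgl, E.c _ (hP _ hz), hXN.2, he] at e1
      rw [hAd, E.c _ (hP _ hz)]
      omega
    · rw [hAd]
      exact PF_or (PF_sgl (hP _ hz)) hXN.1.2
  have hAx : ∀ y, X y = true → A y = true := by intro y hy; rw [hAd]; simp [hy]
  have hzb0 : (bar z).1 ≠ 0 := hz
  have hAn : Ntr A := by
    have hX1 : ∃ y, X y = true := hXN.1.1.1
    obtain ⟨y, hy⟩ := hX1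
    refine ⟨⟨z, y, ?_, hA.1, hAx y hy⟩, ?_⟩
    · rintro rfl
      rw [hXz] at hy
      exact absurd hy (by decide)
    · rcases hB with rfl | ⟨u, hu0, rfl⟩
      · obtain ⟨k, hk0, hk1⟩ : ∃ k : Fin 3, k ≠ 0 ∧ k ≠ z.1 := by
          clear * - hz
          generalize z.1 = i at hz
          revert i; decide
        refine ⟨bar z, (k, true), ?_, hA.2.1, ?_⟩
        · intro h9
          exact hk1 (congrArg Prod.fst h9).symm
        · rw [hAd]
          simp only [sgl, PrC, Bool.or_eq_false_iff, decide_eq_false_iff_not]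
          refine ⟨?_, hk0⟩
          intro h9
          exact hk1 (congrArg Prod.fst h9)
      · refine ⟨bar z, (0, true), ?_, hA.2.1, ?_⟩
        · intro h9
          exact hzb0 (congrArg Prod.fst h9)
        · rw [hAd]
          simp only [sgl, Bool.or_eq_false_iff, decide_eq_false_iff_not]
          refine ⟨?_, ?_⟩
          · intro h9
            exact hz (congrArg Prod.fst h9).symm
          · intro h9
            exact hu0 (congrArg Prod.fst h9).symm
  have hvx := nb E h hA hAn
  have hTz : PrC 0 z = PrC 0 (bar z) := rfl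
  have hper := per E hT hu hA hTz
  -- the crossing cut, normalized
  obtain ⟨C, hC, hX, hCz⟩ : ∃ C, NP n P (act (wh z A) V) C ∧ Crossg C (stc A z) ∧
      C (bar z) = true := by
    obtain ⟨C, hC, hX⟩ := hvx
    cases hCb : C (bar z)
    · exact ⟨_, NC_compl hC, Crossg_compl hX, by simp [hCb]⟩
    · exact ⟨C, hC, hX, hCb⟩
  have hst : ∀ y, stc A z y = true ↔ (X y = true ∨ y = bar z) := by
    intro y
    simp only [stc, Bool.or_eq_true, Bool.and_eq_true, decide_eq_true_eq]
    constructor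
    · rintro (⟨h4, h5⟩ | h4)
      · left
        rw [hAd] at h4
        simp only [sgl, Bool.or_eq_true, decide_eq_true_eq] at h4
        rcases h4 with h4 | h4
        · exact absurd h4 h5
        · exact h4
      · exact Or.inr h4
    · rintro (h4 | h4)
      · left
        refine ⟨hAx y h4, ?_⟩
        rintro rfl
        rw [hXz] at h4
        exact absurd h4 (by decide)
      · exact Or.inr h4
  obtain ⟨-, -, ⟨y3, hy3, hy3'⟩, ⟨y4, hy4, hy4'⟩⟩ := id hX
  have hX3 : X y3 = true := by
    rcases (hst y3).1 hy3' with h4 | h4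
    · exact h4
    · rw [h4, hCz] at hy3
      exact absurd hy3 (by decide)
  have hX4 : X y4 = false := by
    cases h4 : X y4
    · rfl
    · rw [(hst y4).2 (Or.inl h4)] at hy4'
      exact absurd hy4' (by decide)
  have hCT : C (0, true) = C (0, false) := by
    by_contra hne
    have hv : ∃ v : Fin 3 × Bool, v.1 ≠ 0 ∧ C v = false := by
      rcases hB with rfl | ⟨u, hu0, rfl⟩
      · refine ⟨y4, ?_, hy4⟩
        simpa [PrC] using hX4
      · refine ⟨y3, ?_, hy3⟩
        simp only [sgl, decide_eq_true_eq] at hX3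
        rw [hX3]; exact hu0
    obtain ⟨v, hv0, hv1⟩ := hv
    exact hper.2 ⟨C, hC, EvDet5_cross hne hzb0 hv0 hCz hv1⟩
  have hXC : ∀ y, X y = true → C y = false := by
    intro y hy
    rcases hB with rfl | ⟨u, hu0, rfl⟩
    · simp only [PrC, decide_eq_true_eq] at hy hX3
      rcases EvDet5_T hy with rfl | rfl <;> rcases EvDet5_T hX3 with rfl | rfl
      · exact hy3
      · rw [hCT]; exact hy3
      · rw [← hCT]; exact hy3
      · exact hy3
    · simp only [sgl, decide_eq_true_eq] at hy hX3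
      rw [hy, ← hX3]; exact hy3
  have hrs : ∀ y, rs z.1 A y = X y := by
    intro y
    by_cases hy : y.1 = z.1
    · have e1 : X y = false := by
        rcases EvDet5_fst hy with rfl | rfl
        · exact hXz
        · exact hXb
      rw [e1]
      simp [rs, hy]
    · have e2 : y ≠ z := by rintro rfl; exact hy rfl
      simp [rs, hAd, sgl, hy, e2]
  have hcore := fun {x t : Fin 3 × Bool} (h : Ps V x (bar z) t) =>
    det_core E hA hC hX hCz (fun y hy => hXC y (by rw [← hrs]; exact hy)) h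
  have hXT : X (0, true) = X (0, false) := by
    rcases hB with rfl | ⟨u, hu0, rfl⟩
    · rfl
    · have e1 : ∀ s, sgl u (0, s) = false := by
        intro s
        simp only [sgl, decide_eq_false_iff_not]
        intro h9
        exact hu0 (congrArg Prod.fst h9).symm
      rw [e1, e1]
  have k1 := hcore h1
  have k2 := hcore h2
  simp only [hrs] at k1 k2
  have g1 : X (bar t) = X (bar t') := EvDet5_eT hXT h3
  have g2 : C (bar t) = C (bar t') := EvDet5_eT hCT h3
  cases hXt : X (bar t)
  · rw [k1.1 hXt, k2.1 (by rw [← g1]; exact hXt), g2]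
  · rw [k1.2 hXt, k2.2 (by rw [← g1]; exact hXt)]

theorem EvDet5_half {n : ℕ} {V : CC} (E : EqP n P V)
    (hP : ∀ i, i ≠ 0 → ¬ P i) (h5 : Five n V) (hT : NP n P V (PrC 0))
    (hu : ¬ VP n P V (PrC 0)) {z : Fin 3 × Bool} (hz : z.1 ≠ 0) (h : CrP n P V z)
    {x t x' t' : Fin 3 × Bool} (h1 : Ps V x (bar z) t) (h2 : Ps V x' (bar z) t')
    (h3 : eT t t') : eT x x' := by
  obtain ⟨X, Y, a1, a2, a3, a4, a5, a6, a7, a8⟩ := EvDet5_blocks h5 hz
  have hiff := EvDet5_core E hP hT hu hz h a1 a3 a5 a7 h1 h2 h3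
  have hl : 2 ≤ cycLen V := by
    rw [cycLen_eq_sum, Fin.sum_univ_three]
    have e0 := E.pos 0
    have e1 := E.pos 1
    omega
  have hin : ∀ {x t : Fin 3 × Bool}, Ps V x (bar z) t → X x = true ∨ Y x = true := by
    intro x t hp
    have e1 := (ps_edge hl hp).1
    rw [bar_bar, edgS_comm] at e1
    by_contra hcon
    rw [not_or, Bool.not_eq_true, Bool.not_eq_true] at hcon
    have hxz : x ≠ z := by
      intro hxz
      have e3 := fi_red (ps_fi.1 hp)
      rw [hxz] at e3
      unfold FreeGroup.IsReduced at e3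
      rw [List.isChain_cons_cons] at e3
      have e4 := e3.1 rfl
      rw [bar_snd] at e4
      cases hz2 : z.2 <;> rw [hz2] at e4 <;> exact absurd e4 (by decide)
    have e2 := EvDet5_nbr E (hP _ hz) a3 a4 a6 a7 a8 hxz hcon.1 hcon.2
    omega
  rcases hin h1 with e1 | e1
  · exact EvDet5_Blk_eT a1 e1 (hiff.1 e1)
  · rcases hin h2 with e2 | e2
    · exact EvDet5_Blk_eT a1 (hiff.2 e2) e2
    · exact EvDet5_Blk_eT a2 e1 e2

theorem det_five {n : ℕ} {V : CC} (E : EqP n P V)
    (hP : ∀ i, i ≠ 0 → ¬ P i) (h5 : Five n V) (hT : NP n P V (PrC 0))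
    (hu : ¬ VP n P V (PrC 0)) {z : Fin 3 × Bool} (hz : z.1 ≠ 0) (h : CrP n P V z) : DetT V z := by
  intro x t x' t' h1 h2
  have hbar : ∀ {y y' : Fin 3 × Bool}, eT y y' → eT (bar y) (bar y') := by
    rintro y y' (rfl | ⟨h3, h4⟩)
    · exact Or.inl rfl
    · exact Or.inr ⟨h3, h4⟩
  constructor
  · intro h3
    have h4 := EvDet5_half E hP h5 hT hu hz h (ps_inv h1) (ps_inv h2) (hbar h3)
    have h5 := hbar h4
    rwa [bar_bar, bar_bar] at h5
  · intro h3
    have hz' : (bar z).1 ≠ 0 := hz
    refine EvDet5_half E hP h5 hT hu hz' (crs_bar h) ?_ ?_ h3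
    · rw [bar_bar]; exact h1
    · rw [bar_bar]; exact h2

end Pw

end Pool.Agent.Sims
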