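import Pool.Agent.Sims.EvPath
import Pool.Agent.Sims.Red
import Pool.Agent.Sims.RtBas

/-!
# Module `RtPatT` : port of `EvPatT`
-/

namespace Pool.Agent.Sims

namespace Pw

open FreeGroup (of)

variable {P : Fin 3 → Prop}

/-- the degrees in the contracted graph -/
theorem EvPatT_deg {n : ℕ} {V : CC} (E : EqP n P V)
    (hP : ∀ i, i ≠ 0 → ¬ P i) {r : Fin 4 → Fin 3 × Bool}
    (hr : Function.Injective r) (h0 : ∀ i, (r i).1 ≠ 0)
    (e0 : 2 * edgS V (PrC 0) (sgl (r 0)) = n) (e1 : 2 * edgS V (sgl (r 0)) (sgl (r 1)) = n)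
    (e2 : 2 * edgS V (sgl (r 1)) (sgl (r 2)) = n) (e3 : 2 * edgS V (sgl (r 2)) (sgl (r 3)) = n)
    (e4 : 2 * edgS V (sgl (r 3)) (PrC 0) = n) :
    edgS V (PrC 0) (sgl (r 1)) = 0 ∧ edgS V (PrC 0) (sgl (r 2)) = 0 ∧ capC V (PrC 0) = n := by
  have hne : ∀ i j : Fin 4, i ≠ j → r i ≠ r j := fun i j h hc => h (hr hc)
  have f1 : edgS V (PrC 0) (sgl (r 1)) = 0 := by
    have h := EvPatT_three V (sgl (r 1)) (sgl (r 0)) (sgl (r 2)) (PrC 0)
      (EvPatT_sgl_disj (hne _ _ (by decide))) (EvPatT_sgl_disj (hne _ _ (by decide)))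
      (EvPatT_sgl_PrC (h0 _)) (EvPatT_sgl_disj (hne _ _ (by decide)))
      (EvPatT_sgl_PrC (h0 _)) (EvPatT_sgl_PrC (h0 _))
    rw [capC_sgl, E.c _ (hP _ (h0 _)), edgS_comm V (sgl (r 1)) (sgl (r 0)), edgS_comm V (sgl (r 1)) (PrC 0)] at h
    omega
  have f2 : edgS V (PrC 0) (sgl (r 2)) = 0 := by
    have h := EvPatT_three V (sgl (r 2)) (sgl (r 1)) (sgl (r 3)) (PrC 0)
      (EvPatT_sgl_disj (hne _ _ (by decide))) (EvPatT_sgl_disj (hne _ _ (by decide)))
      (EvPatT_sgl_PrC (h0 _)) (EvPatT_sgl_disj (hne _ _ (by decide)))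
      (EvPatT_sgl_PrC (h0 _)) (EvPatT_sgl_PrC (h0 _))
    rw [capC_sgl, E.c _ (hP _ (h0 _)), edgS_comm V (sgl (r 2)) (sgl (r 1)), edgS_comm V (sgl (r 2)) (PrC 0)] at h
    omega
  refine ⟨f1, f2, ?_⟩
  rw [capC_edgS]
  have g : edgS V (PrC 0) (fun x => !PrC 0 x) =
      edgS V (PrC 0) (fun x => sgl (r 0) x || (sgl (r 1) x || (sgl (r 2) x || sgl (r 3) x))) := by
    apply edgS_congr V (fun x => rfl)
    intro x
    by_cases hx : x.1 = 0
    · have h1 : PrC 0 x = true := by simpa [PrC] using hx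
      rw [h1, EvPatT_PrC_sgl (h0 0) x h1, EvPatT_PrC_sgl (h0 1) x h1, EvPatT_PrC_sgl (h0 2) x h1,
        EvPatT_PrC_sgl (h0 3) x h1]
      rfl
    · have h1 : PrC 0 x = false := by simpa [PrC] using hx
      obtain ⟨i, hi⟩ := EvPatT_surj hr h0 x hx
      rw [h1]
      have h2 : sgl (r i) x = true := by simp [sgl, hi]
      fin_cases i <;> simp_all
  have g1 := edgS_union V (PrC 0) (sgl (r 0)) (fun x => sgl (r 1) x || (sgl (r 2) x || sgl (r 3) x))
    (EvPatT_PrC_sgl (h0 0))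
    (fun x hx => by
      simp [EvPatT_PrC_sgl (h0 1) x hx, EvPatT_PrC_sgl (h0 2) x hx, EvPatT_PrC_sgl (h0 3) x hx])
    (fun x hx => by
      simp [EvPatT_sgl_disj (hne 0 1 (by decide)) x hx, EvPatT_sgl_disj (hne 0 2 (by decide)) x hx,
        EvPatT_sgl_disj (hne 0 3 (by decide)) x hx])
  have g2 := edgS_union V (PrC 0) (sgl (r 1)) (fun x => sgl (r 2) x || sgl (r 3) x)
    (EvPatT_PrC_sgl (h0 1))
    (fun x hx => by
      simp [EvPatT_PrC_sgl (h0 2) x hx, EvPatT_PrC_sgl (h0 3) x hx])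
    (fun x hx => by
      simp [EvPatT_sgl_disj (hne 1 2 (by decide)) x hx,
        EvPatT_sgl_disj (hne 1 3 (by decide)) x hx])
  have g3 := edgS_union V (PrC 0) (sgl (r 2)) (sgl (r 3))
    (EvPatT_PrC_sgl (h0 2)) (EvPatT_PrC_sgl (h0 3)) (EvPatT_sgl_disj (hne 2 3 (by decide)))
  rw [edgS_comm V (sgl (r 3)) (PrC 0)] at e4
  omega

theorem EvPatT_head {V : CC} (hl : 2 ≤ cycLen V) {r : Fin 4 → Fin 3 × Bool}
    (hr : Function.Injective r) (h0 : ∀ i, (r i).1 ≠ 0)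
    (f1 : edgS V (PrC 0) (sgl (r 1)) = 0) (f2 : edgS V (PrC 0) (sgl (r 2)) = 0)
    {γ : List (Fin 3 × Bool)} (h : EvPatT_P V γ) (hn : γ ≠ []) :
    γ.head? = some (bar (r 0)) ∨ γ.head? = some (bar (r 3)) := by
  obtain ⟨h1, ε, ε', h2⟩ := h
  obtain ⟨q, γ', rfl⟩ := List.exists_cons_of_ne_nil hn
  have hq : q.1 ≠ 0 := h1 q (by simp)
  have h3 : FI V [((0 : Fin 3), ε), q] := by
    apply fi_sub (u := []) (w := γ' ++ [((0 : Fin 3), ε')])
    simpa using h2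
  have hne : ((0 : Fin 3), ε) ≠ bar q := by
    intro hc
    have := congrArg Prod.fst hc
    exact hq this.symm
  have h4 := (fi_edge hl hne).2 h3
  have h5 : edgS V (sgl ((0 : Fin 3), ε)) (sgl (bar q)) ≤ edgS V (PrC 0) (sgl (bar q)) := by
    apply edgS_mono V ?_ (fun x hx => hx)
    intro x hx
    have : x = ((0 : Fin 3), ε) := by simpa [sgl] using hx
    subst this
    simp [PrC]
  obtain ⟨i, hi⟩ := EvPatT_surj hr h0 (bar q) hq
  rw [← hi] at h4 h5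
  have h6 : 0 < edgS V (PrC 0) (sgl (r i)) := lt_of_lt_of_le h4 h5
  have h7 : q = bar (r i) := by rw [hi, bar_bar]
  have h8 : i = 0 ∨ i = 3 := by
    fin_cases i
    · exact Or.inl rfl
    · exact absurd f1 (by simpa using h6.ne')
    · exact absurd f2 (by simpa using h6.ne')
    · exact Or.inr rfl
  rcases h8 with h8 | h8
  · left
    rw [h7, h8]
    rfl
  · right
    rw [h7, h8]
    rfl

theorem pat_five {n : ℕ} {V : CC} (E : EqP n P V)
    (hP : ∀ i, i ≠ 0 → ¬ P i) (h0 : 0 < cnt V 0) (h5 : Five n V)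
    (hd : ∀ y : Fin 3 × Bool, y.1 ≠ 0 → DetT V y) :
    ∃ (j : List (ℤ × Bool)) (g : FreeGroup (Fin 3)), 2 * j.length = n ∧ (∀ t ∈ j, t.1 ≠ 0) ∧
      In12 g ∧ g ≠ 1 ∧ V = ConjClasses.mk (gT j g) := by
  classical
  have h0c := h0
  clear h0
  obtain ⟨r, hr, h0, e0, e1, e2, e3, e4⟩ := h5
  obtain ⟨f1, f2, hcap⟩ := EvPatT_deg E hP hr h0 e0 e1 e2 e3 e4
  have hn4 := E.h4
  obtain ⟨B, hBne, hBl, hBC, hBV, hBlen⟩ := blk (V := V) (by omega)
  have hcnt : 2 * B.countP (fun t => decide (t.2 ≠ [])) = n := by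
    rw [← EvPatT_cap B hBne hBl, ← capC_cls hBC, hBV, hcap]
  obtain ⟨t, htB, ht⟩ : ∃ t ∈ B, t.2 ≠ [] := by
    have : 0 < B.countP (fun t => decide (t.2 ≠ [])) := by omega
    obtain ⟨t, h1, h2⟩ := List.countP_pos_iff.1 this
    exact ⟨t, h1, by simpa using h2⟩
  obtain ⟨B1, B2, rfl⟩ := List.append_of_mem htB
  obtain ⟨B', hB'⟩ : ∃ B', B' = B2 ++ (B1 ++ [t]) := ⟨_, rfl⟩
  have hperm : B'.Perm (B1 ++ t :: B2) := by
    rw [hB']
    have : B1 ++ t :: B2 = (B1 ++ [t]) ++ B2 := by simp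
    rw [this]
    exact List.perm_append_comm
  have hrot : wB (B1 ++ t :: B2) ~r wB B' := by
    have h1 : B1 ++ t :: B2 = (B1 ++ [t]) ++ B2 := by simp
    rw [h1, hB', EvPatT_wB_append (B1 ++ [t]) B2, EvPatT_wB_append B2 (B1 ++ [t])]
    exact List.isRotated_append
  have hC' : CR (wB B') := CR_of_rotated hrot hBC
  have hV' : cls (wB B') = V := by rw [← cls_of_rotated hrot, hBV]
  have hl' : ∀ s ∈ B', ∀ x ∈ s.2, x.1 ≠ 0 := fun s hs => hBl s (hperm.mem_iff.1 hs)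
  have hne' : B' ≠ [] := by
    rw [hB']
    simp
  have hlast' : (B'.getLast hne').2 ≠ [] := by
    have : B'.getLast hne' = t := by
      subst hB'
      simp
    rw [this]
    exact ht
  have hlen' : 2 ≤ B'.length := by
    rw [hperm.length_eq]
    have h9 := List.countP_le_length (p := fun t : Bool × List (Fin 3 × Bool) => decide (t.2 ≠ []))
      (l := B1 ++ t :: B2)
    omega
  have hcyc : 2 ≤ cycLen V := by
    rw [cycLen_eq_sum, Fin.sum_univ_three]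
    have e0 := E.pos 0
    have e1 := E.pos 1
    omega
  obtain ⟨L, hLne, hLlen, hLmem, hLprod, _⟩ := EvPatT_group B' hne' hC'.isReduced hlast'
  have hLn : 2 * L.length = n := by
    rw [hLlen, ← EvPatT_cap B' hne' hl', ← capC_cls hC', hV', hcap]
  have hPL : ∀ s ∈ L, EvPatT_P V s.2 := by
    intro s hs
    obtain ⟨_, _, ε, hε⟩ := hLmem s hs
    exact EvPatT_block hl' hC' hV' hlen' hε
  -- the standard path
  have hkey : ∀ γ : List (Fin 3 × Bool), EvPatT_P V γ → γ ≠ [] →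
      γ.head? = some (bar (r 0)) ∨ (FreeGroup.invRev γ).head? = some (bar (r 0)) := by
    intro γ hγ hγn
    have hinv := EvPatT_P_inv hγ
    have hinvn : FreeGroup.invRev γ ≠ [] := by
      intro hc
      apply hγn
      simpa [FreeGroup.invRev] using hc
    rcases EvPatT_head hcyc hr h0 f1 f2 hγ hγn with h1 | h1
    · exact Or.inl h1
    · rcases EvPatT_head hcyc hr h0 f1 f2 hinv hinvn with h2 | h2
      · exact Or.inr h2
      · exfalso
        exact no_pal (EvPatT_P_red hγ) hγn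
          (EvPatT_P_eq hd hγ hinv hγn (by rw [h1, h2]))
  obtain ⟨γ₀, hγ₀, hγ₀n, hγ₀h⟩ : ∃ γ₀, EvPatT_P V γ₀ ∧ γ₀ ≠ [] ∧
      γ₀.head? = some (bar (r 0)) := by
    obtain ⟨s, hs⟩ := List.exists_mem_of_ne_nil L hLne
    have hsn := (hLmem s hs).2.1
    rcases hkey s.2 (hPL s hs) hsn with h1 | h1
    · exact ⟨s.2, hPL s hs, hsn, h1⟩
    · refine ⟨FreeGroup.invRev s.2, EvPatT_P_inv (hPL s hs), ?_, h1⟩
      intro hc
      apply hsn
      simpa [FreeGroup.invRev] using hc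
  have hall : ∀ s ∈ L, s.2 ≠ γ₀ → FreeGroup.invRev s.2 = γ₀ := by
    intro s hs hne
    have hsn := (hLmem s hs).2.1
    rcases hkey s.2 (hPL s hs) hsn with h1 | h1
    · exact absurd (EvPatT_P_eq hd (hPL s hs) hγ₀ hsn (by rw [h1, hγ₀h])) hne
    · symm
      exact EvPatT_P_eq hd hγ₀ (EvPatT_P_inv (hPL s hs)) hγ₀n (by rw [h1, hγ₀h])
  refine ⟨L.map (fun s => (s.1, decide (s.2 = γ₀))), FreeGroup.mk γ₀, ?_, ?_, ?_, ?_, ?_⟩
  · rw [List.length_map, hLn]
  · intro u hu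
    obtain ⟨s, hs, rfl⟩ := List.mem_map.1 hu
    exact (hLmem s hs).1
  · exact In12_mk hγ₀.1
  · intro hc
    apply hγ₀n
    have h1 : (FreeGroup.mk γ₀).toWord = γ₀ := by
      rw [FreeGroup.toWord_mk]
      exact (EvPatT_P_red hγ₀).reduce_eq
    rw [hc, FreeGroup.toWord_one] at h1
    exact h1.symm
  · rw [← hV']
    unfold cls gT
    rw [hLprod, List.map_map]
    congr 2
    apply List.map_congr_left
    intro s hs
    show of 0 ^ s.1 * FreeGroup.mk s.2 =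
      of 0 ^ s.1 * (if decide (s.2 = γ₀) = true then FreeGroup.mk γ₀ else (FreeGroup.mk γ₀)⁻¹)
    by_cases h : s.2 = γ₀
    · simp [h]
    · have h1 := hall s hs h
      rw [← h1, FreeGroup.inv_mk, FreeGroup.invRev_invRev]
      have h2 : ¬ (s.2 = FreeGroup.invRev s.2) := by
        rw [h1]
        exact h
      simp [h2]

end Pw

end Pool.Agent.Sims
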