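import Pool.Agent.Sims.RtDef2
import Pool.Agent.Sims.RtST
import Pool.Agent.Sims.RtDet5
import Pool.Agent.Sims.RtPatT
import Pool.Agent.Sims.RtNB
import Pool.Agent.Sims.EvCt
import Pool.Agent.Sims.EvUnc
import Pool.Agent.Sims.RtEM

/-!
# Module `RtC7` : `{a, a⁻¹}` fixed and tight, both other letters crossed everywhere: at most `12` classes

* `ct12'`: the proof of `ct12` (module `EvCt`) uses the counts of the generators `1, 2` only.
* `t_cut`: `P0`-fixed cuts never cross `PrC 0`: `C (0, true) = C (0, false)`.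
* `t_all`: World `P0`, `T = PrC 0` tight, `CrP n P0 W (i, true)` for all `W ∈ EP P0 (· ≠ 0) V` and `i ≠ 0`.  Then `W = mk (gT j g)` with one `j` for all `W`.
  `capC W (PrC 0) = n` for all `W` in the set (as `capT`).  At `V`: let `Q` be `NP`, nontrivial, not `PrC 0` and not its complement (in the form of `starT`).  If `Q` separates `x_i, x_i⁻¹`, `i ≠ 0`: WLOG `(i, true) ∈ Q` (complement:
  `Pw.VX_compl`, `Pw.NC_compl`); it is a level `(i, true)`-cut (`Pw.Lv_NC`), `act (wh (i,true) Q) V ∈ EP`, `Pw.nb'`: crossed.  Otherwise `Q` does not separate any pair, so `Q` or its complement is `PrC 1` or `PrC 2`: `Pw.crs_pair`.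
  `hex`: `Pw.crs_ntr` for `(1, true)`.  So `Pw.starT`: `Five n V`.  `Pw.det_five` (for `(i, false)`: `Pw.crs_bar`): `DetT V y` for `y.1 ≠ 0`.  `Pw.pat_five` (`P0 i` iff `i = 0`): `V = mk (gT j g)`, `2 * j.length = n`.
  Induction along the path from `V`: if `W = mk (gT j g)`, `In12 g`, `g ≠ 1`, `(A, z)` a step with `A` `P0`-fixed: if `(0, true) ∈ A` replace `(z, A)` by `(z⁻¹, Aᶜ)` (`Pw.Lv_compl`); `gT_move`; `In12 (wh z A g)` (`Good_wh`), `≠ 1`.
* `t12`: `ct12'` (`cnt W i = n` for `i ≠ 0`: `EqP.c`).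
Difficulty 3.
-/

namespace Pool.Agent.Sims

theorem ct12' {n : ℕ} (hn : 0 < n) (j : List (ℤ × Bool)) (hj : ∀ t ∈ j, t.1 ≠ 0)
    (hl : 2 * j.length = n) : ∃ F : Finset CC, F.card ≤ 12 ∧
      ∀ g : FreeGroup (Fin 3), In12 g → g ≠ 1 →
        (∀ i : Fin 3, i ≠ 0 → cnt (ConjClasses.mk (gT j g)) i = n) →
        ∃ τ : SPerm (Fin 3), Fix0 τ ∧ ∃ e ∈ F, ConjClasses.mk (gT j g) = act τ.aut e := by
  classical
  obtain ⟨F, hF, h⟩ := norm4
  refine ⟨F.image (fun u => ConjClasses.mk (gT j (FreeGroup.mk u))),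
    Finset.card_image_le.trans hF, ?_⟩
  intro g hg hg1 hc
  have hpos : 0 < j.length := by omega
  have key : ∀ i : Fin 3, i ≠ 0 → cntL g.toWord i = 2 := by
    intro i hi
    have h1 := hc i hi
    rw [gT_cnt hj hg hg1 hi, ← hl, mul_comm 2] at h1
    exact Nat.eq_of_mul_eq_mul_left hpos h1
  obtain ⟨τ, hτ, u0, hu0, hu⟩ := h g.toWord (EvCt_zero hg) (key 1 (by decide)) (key 2 (by decide))
  refine ⟨τ, hτ, _, Finset.mem_image_of_mem _ hu0, ?_⟩
  rw [gT_tau τ hτ, ← EvCt_aut τ u0 g hu]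

namespace Pw

/-- fixed cuts do not cross the pair `T` -/
theorem RtC7_nx {n : ℕ} {V : CC} : ¬ VP n P0 V (PrC 0) := by
  rintro ⟨C, hC, ⟨x1, a1, b1⟩, -, ⟨x2, a2, b2⟩, -⟩
  have h0 : C (0, true) = C (0, false) := hC.1.2 0 rfl
  have key : ∀ x : Fin 3 × Bool, PrC 0 x = true → C x = C (0, true) := by
    rintro ⟨i, b⟩ hx
    simp only [PrC, decide_eq_true_eq] at hx
    subst hx
    cases b
    · exact h0.symm
    · rfl
  rw [key x1 b1] at a1
  rw [key x2 b2, a1] at a2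
  exact absurd a2 (by decide)

theorem RtC7_nc {n : ℕ} {V : CC} (hT : capC V (PrC 0) = n) : NP n P0 V (PrC 0) := by
  refine ⟨⟨⟨⟨(0, true), rfl⟩, ⟨(1, true), rfl⟩⟩, ?_⟩, hT⟩
  intro i _
  rfl

theorem RtC7_sep {n : ℕ} {V : CC} (E : EqP n P0 V)
    (hc : ∀ W ∈ EP P0 (fun i => i ≠ 0) V, ∀ i : Fin 3, i ≠ 0 → CrP n P0 W (i, true))
    {Q : Ct} (hQ : NP n P0 V Q) (hn : Ntr Q) {i : Fin 3} (hi : i ≠ 0)
    (hz : Q (i, true) ≠ Q (i, false)) : VP n P0 V Q := by
  have hb : bar (i, true) = (i, false) := rfl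
  cases h1 : Q (i, true)
  · have h2 : Q (i, false) = true := by
      cases h3 : Q (i, false)
      · exact absurd (h1.trans h3.symm) hz
      · rfl
    have hL : LP P0 V (i, true) (fun x => !Q x) := by
      rw [Lv_NC E]
      exact ⟨by simp [h1], by simp [hb, h2], NC_compl hQ⟩
    have hn' := Ntr_compl hn
    have h5 : act (wh (i, true) (fun x => !Q x)) V ∈ EP P0 (fun i => i ≠ 0) V :=
      EM_step (EM_refl _ V) hi hL
    have := nb' E hL hn' (hc _ h5 i hi)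
    rwa [VX_compl] at this
  · have h2 : Q (i, false) = false := by
      cases h3 : Q (i, false)
      · rfl
      · exact absurd (h1.trans h3.symm) hz
    have hL : LP P0 V (i, true) Q := by
      rw [Lv_NC E]
      exact ⟨h1, h2, hQ⟩
    have h5 : act (wh (i, true) Q) V ∈ EP P0 (fun i => i ≠ 0) V :=
      EM_step (EM_refl _ V) hi hL
    exact nb' E hL hn (hc _ h5 i hi)

theorem RtC7_cases {n : ℕ} {V : CC} (E : EqP n P0 V)
    (hc : ∀ W ∈ EP P0 (fun i => i ≠ 0) V, ∀ i : Fin 3, i ≠ 0 → CrP n P0 W (i, true))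
    {Q : Ct} (hQ : NP n P0 V Q) (hn : Ntr Q) (hv : ¬ VP n P0 V Q) :
    (∀ x, Q x = PrC 0 x) ∨ (∀ x, Q x = !PrC 0 x) := by
  have h1 : Q (1, true) = Q (1, false) := by
    by_contra hne
    exact hv (RtC7_sep E hc hQ hn (by decide) hne)
  have h2 : Q (2, true) = Q (2, false) := by
    by_contra hne
    exact hv (RtC7_sep E hc hQ hn (by decide) hne)
  have h0 : Q (0, true) = Q (0, false) := hQ.1.2 0 rfl
  have hx1 : VP n P0 V (PrC 1) := crs_pair E (z := (1, true)) (hc V (EM_refl _ V) 1 (by decide))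
  have hx2 : VP n P0 V (PrC 2) := crs_pair E (z := (2, true)) (hc V (EM_refl _ V) 2 (by decide))
  have hdec := EvUnc_dec (Q (0, true)) (Q (0, false)) (Q (1, true)) (Q (2, true))
  rw [← EvUnc_eq h1 h2] at hdec
  rcases hdec hn with h | h | h | h | h | h | h | h
  · exact Or.inl h
  · exact Or.inr h
  · exact absurd ((VX_congr h).2 hx1) hv
  · exact absurd ((VX_congr h).2 (VX_compl.2 hx1)) hv
  · exact absurd ((VX_congr h).2 hx2) hv
  · exact absurd ((VX_congr h).2 (VX_compl.2 hx2)) hv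
  · exfalso
    rcases h with h | h
    · rw [h, h] at h0
      exact absurd h0 (by decide)
    · rw [h, h] at h0
      exact absurd h0 (by decide)
  · exfalso
    rcases h with h | h
    · rw [h, h] at h0
      exact absurd h0 (by decide)
    · rw [h, h] at h0
      exact absurd h0 (by decide)

theorem RtC7_path {n : ℕ} {V : CC} (E : EqP n P0 V) {j : List (ℤ × Bool)}
    (hT : NP n P0 V (PrC 0))
    {g : FreeGroup (Fin 3)} (hg : In12 g) (hg1 : g ≠ 1) (hV : V = ConjClasses.mk (gT j g))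
    {W : CC} (hW : W ∈ EP P0 (fun i => i ≠ 0) V) :
    ∃ g' : FreeGroup (Fin 3), In12 g' ∧ g' ≠ 1 ∧ W = ConjClasses.mk (gT j g') := by
  change Relation.ReflTransGen (StP P0 (fun i => i ≠ 0)) V W at hW
  induction hW with
  | refl => exact ⟨g, hg, hg1, hV⟩
  | @tail W W' hW hst ih =>
    obtain ⟨g', hg', hg1', hW'⟩ := ih
    obtain ⟨y, B, hy, hB, rfl⟩ := hst
    have hB0 : B (0, true) = B (0, false) := hB.2.2.2 0 rfl
    cases b1 : B (0, true)
    · have b2 : B (0, false) = false := by rw [← hB0, b1]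
      refine ⟨wh y B g', wh_In12 hy B hg', fun h => hg1' ?_, ?_⟩
      · exact (map_eq_one_iff _ (MulEquiv.injective _)).1 h
      · rw [hW', gT_move hy b1 b2]
    · have b2 : B (0, false) = true := by rw [← hB0, b1]
      have hc := Lv_compl hB
      have hy' : (bar y).1 ≠ 0 := hy
      have c1 : (fun x => !B x) (0, true) = false := by
        change (!B (0, true)) = false
        rw [b1]; rfl
      have c2 : (fun x => !B x) (0, false) = false := by
        change (!B (0, false)) = false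
        rw [b2]; rfl
      refine ⟨wh (bar y) (fun x => !B x) g', wh_In12 hy' _ hg', fun h => hg1' ?_, ?_⟩
      · exact (map_eq_one_iff _ (MulEquiv.injective _)).1 h
      · rw [← hc.2, hW', gT_move hy' c1 c2]

theorem t_all {n : ℕ} {V : CC} (E : EqP n P0 V) (h0 : 0 < cnt V 0) (hT : capC V (PrC 0) = n)
    (hc : ∀ W ∈ EP P0 (fun i => i ≠ 0) V, ∀ i : Fin 3, i ≠ 0 → CrP n P0 W (i, true)) :
    ∃ j : List (ℤ × Bool), 2 * j.length = n ∧ (∀ t ∈ j, t.1 ≠ 0) ∧
      ∀ W ∈ EP P0 (fun i => i ≠ 0) V, ∃ g : FreeGroup (Fin 3), In12 g ∧ g ≠ 1 ∧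
        W = ConjClasses.mk (gT j g) := by
  have hN := RtC7_nc hT
  have hu : ¬ VP n P0 V (PrC 0) := RtC7_nx
  have hP : ∀ i : Fin 3, i ≠ 0 → ¬ P0 i := fun i hi h => hi h
  have hcr : ∀ y : Fin 3 × Bool, y.1 ≠ 0 → CrP n P0 V y := by
    rintro ⟨i, s⟩ hy
    have h1 := hc V (EM_refl _ V) i hy
    cases s with
    | true => exact h1
    | false => exact crs_bar h1
  obtain ⟨Q, hQ, hQn, -⟩ := crs_ntr (hc V (EM_refl _ V) 1 (by decide))
  have hex : ∃ Q, NP n P0 V Q ∧ Ntr Q ∧ (∃ x, Q x ≠ PrC 0 x) ∧ ∃ x, Q x = PrC 0 x := by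
    refine ⟨Q, ((Lv_NC E).1 hQ).2.2, hQn, ⟨(1, true), ?_⟩, ⟨(1, false), ?_⟩⟩
    · rw [hQ.1]
      decide
    · have h1 : Q (1, false) = false := hQ.2.1
      rw [h1]
      decide
  have h5 : Five n V := by
    refine starT E hN hu hex ?_
    intro Q hQ hn ⟨x1, hx1⟩ ⟨x2, hx2⟩
    by_contra hv
    rcases RtC7_cases E hc hQ hn hv with h | h
    · exact hx1 (h x1)
    · rw [h x2] at hx2
      cases h3 : PrC 0 x2 <;> rw [h3] at hx2 <;> exact absurd hx2 (by decide)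
  obtain ⟨j, g, hl, hj, hg, hg1, hV⟩ := pat_five E hP h0 h5
    (fun y hy => det_five E hP h5 hN hu hy (hcr y hy))
  refine ⟨j, hl, hj, ?_⟩
  intro W hW
  exact RtC7_path E hN hg hg1 hV hW

theorem t12 {n : ℕ} {V : CC} (E : EqP n P0 V) (h0 : 0 < cnt V 0) (hT : capC V (PrC 0) = n)
    (hc : ∀ W ∈ EP P0 (fun i => i ≠ 0) V, ∀ i : Fin 3, i ≠ 0 → CrP n P0 W (i, true)) :
    CovF0 (EP P0 (fun i => i ≠ 0) V) 12 := by
  have hn : 0 < n := by
    have := E.h4
    omega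
  obtain ⟨j, hl, hj, hall⟩ := t_all E h0 hT hc
  obtain ⟨F, hF1, hF2⟩ := ct12' hn j hj hl
  refine ⟨F, hF1, ?_⟩
  intro W hW
  obtain ⟨g', hg', hg1', hW'⟩ := hall W hW
  obtain ⟨τ, hτ, e, he, hh⟩ := hF2 g' hg' hg1' (by
    intro i hi
    rw [← hW']
    exact (E.em hW).c i hi)
  exact ⟨τ, hτ, e, he, by rw [hW']; exact hh⟩

end Pw

end Pool.Agent.Sims
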