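import Pool.Agent.Sims.RtC1
import Pool.Agent.Sims.RtC7
import Pool.Agent.Sims.RtU
import Pool.Agent.Sims.RtBasS

/-!
# Module `RtC8` : `{c, c⁻¹}` tight: at most `45` classes

* `sw02`: `τ` the signed permutation exchanging `x_0` and `x_2` (signs `true`).  `P2 i ↔ P0 (τ.perm i)`.  `swap_ep`: `W ∈ EP P2 (· ≠ 2) V` iff `act τ.aut W ∈ EP P0 (· ≠ 0) (act τ.aut V)`; `EqP`, `CrP` are transported (restate or
  copy `Pw.EM_SPerm`, `Pw.Eq3_SPerm`, `Pw.Crs_SPerm`; these lemmas are stated for one `P` with `P i ↔ P (σ.perm i)`, here the two worlds are different, so prove the needed instances directly with `TwBasic_SPerm`, `capC_SPerm`,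
  `cnt_SPerm`).
* `dt_count`: if `CrP n P2 W (i, true)` for all `W ∈ EP P2 (· ≠ 2) V`, `i ≠ 2`: transport to the world `P0` by `τ`, `Pw.t12`, and back: `act τ.aut W = act ρ.aut e`, `Fix0 ρ`, so `W = act (τ⁻¹ ρ τ).aut (act τ⁻¹.aut e)`,
  `Fix2 (τ⁻¹ ρ τ)`: `12` classes.
  Otherwise let `V₁ ∈ EP P2 (· ≠ 2) V` and `i ≠ 2` with `¬ CrP n P2 V₁ (i, true)`, `j` the other light generator.  `Pw.lemU` as in `RtC6`: `W = act σ.aut (act (wh (i, true) A) W₁)`, `W₁ ∈ EP P2 (· = j) V₁`: `em9`, `ls4`, `Pw.cntMv`: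
  `9 · (1 + 4) = 45` classes.
Difficulty 3.
-/

namespace Pool.Agent.Sims

namespace Pw

theorem RtC8_PF {P P' : Fin 3 → Prop} {A : Ct} (σ : SPerm (Fin 3)) (hσ : ∀ i, P i ↔ P' (σ.perm i))
    (h : PF P A) : PF P' (fun x => A (σ.inv.letter x)) := by
  intro i hi
  have hk : P (σ.perm.symm i) := (hσ _).2 (by rw [Equiv.apply_symm_apply]; exact hi)
  have h1 := h _ hk
  show A (σ.perm.symm i, if σ.sign (σ.perm.symm i) then true else !true) =
    A (σ.perm.symm i, if σ.sign (σ.perm.symm i) then false else !false)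
  by_cases hs : σ.sign (σ.perm.symm i) = true
  · simp only [hs, if_true]
    exact h1
  · simp only [hs, Bool.not_true, Bool.not_false]
    exact h1.symm

theorem RtC8_inv {P P' : Fin 3 → Prop} (σ : SPerm (Fin 3)) (hσ : ∀ i, P i ↔ P' (σ.perm i)) :
    ∀ i, P' i ↔ P (σ.inv.perm i) := by
  intro i
  have h := hσ (σ.perm.symm i)
  rw [Equiv.apply_symm_apply] at h
  exact h.symm

theorem RtC8_Prp {A : Ct} (σ : SPerm (Fin 3)) (h : Prp A) : Prp (fun x => A (σ.inv.letter x)) := by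
  obtain ⟨⟨x, hx⟩, ⟨y, hy⟩⟩ := h
  refine ⟨⟨σ.letter x, ?_⟩, ⟨σ.letter y, ?_⟩⟩
  · show A (σ.inv.letter (σ.letter x)) = true
    rw [SPerm.inv_letter, hx]
  · show A (σ.inv.letter (σ.letter y)) = false
    rw [SPerm.inv_letter, hy]

theorem RtC8_ii (σ : SPerm (Fin 3)) (x : Fin 3 × Bool) : σ.inv.inv.letter x = σ.letter x := by
  have h := SPerm.inv_letter σ.inv (σ.letter x)
  rw [show σ.inv.letter (σ.letter x) = x from SPerm.inv_letter σ x] at h
  exact h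

theorem RtC8_EqP {P P' : Fin 3 → Prop} {n : ℕ} {V : CC} (E : EqP n P V) (σ : SPerm (Fin 3))
    (hσ : ∀ i, P i ↔ P' (σ.perm i)) : EqP n P' (act σ.aut V) := by
  refine ⟨E.h4, ?_, ?_⟩
  · intro i hi
    have h1 : ¬ P (σ.perm.symm i) := by
      intro h
      have := (hσ _).1 h
      rw [Equiv.apply_symm_apply] at this
      exact hi this
    have h2 := cnt_SPerm σ V (σ.perm.symm i)
    rw [Equiv.apply_symm_apply] at h2
    rw [h2]
    exact E.c _ h1
  · intro A hA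
    rw [capC_SPerm]
    apply E.low
    have h1 := RtC8_Prp σ.inv hA.1
    have h2 := RtC8_PF σ.inv (RtC8_inv σ hσ) hA.2
    have e : (fun x => A (σ.inv.inv.letter x)) = fun x => A (σ.letter x) := by
      funext x
      rw [RtC8_ii]
    rw [e] at h1 h2
    exact ⟨h1, h2⟩

theorem RtC8_NP {P P' : Fin 3 → Prop} {n : ℕ} {V : CC} {A : Ct} (h : NP n P V A) (σ : SPerm (Fin 3))
    (hσ : ∀ i, P i ↔ P' (σ.perm i)) : NP n P' (act σ.aut V) (fun x => A (σ.inv.letter x)) := by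
  refine ⟨⟨RtC8_Prp σ h.1.1, RtC8_PF σ hσ h.1.2⟩, ?_⟩
  rw [capC_SPerm, ← h.2]
  apply capC_congr
  intro x
  rw [SPerm.inv_letter]

theorem RtC8_VP {P P' : Fin 3 → Prop} {n : ℕ} {V : CC} {Q Q' : Ct} (h : VP n P V Q)
    (σ : SPerm (Fin 3)) (hσ : ∀ i, P i ↔ P' (σ.perm i)) (hQ : ∀ x, Q (σ.inv.letter x) = Q' x) :
    VP n P' (act σ.aut V) Q' := by
  obtain ⟨C, hC, hX⟩ := h
  refine ⟨_, RtC8_NP hC σ hσ, ?_⟩
  have h1 := Crossg_SPerm hX σ.inv
  have h2 : (fun x => Q (σ.inv.letter x)) = Q' := funext hQ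
  rw [h2] at h1
  exact h1

theorem RtC8_CrP {P P' : Fin 3 → Prop} {n : ℕ} {V : CC} {z : Fin 3 × Bool} (h : CrP n P V z)
    (σ : SPerm (Fin 3)) (hσ : ∀ i, P i ↔ P' (σ.perm i)) : CrP n P' (act σ.aut V) (σ.letter z) := by
  obtain ⟨A, hL, hX⟩ := h
  obtain ⟨h1, h2⟩ := TwBasic_SPerm σ (V := V) (z := z) (A := A) ⟨hL.1, hL.2.1, hL.2.2.1⟩
  refine ⟨_, ⟨h1.1, h1.2.1, h1.2.2, RtC8_PF σ hσ hL.2.2.2⟩, ?_⟩
  rw [h2]
  exact RtC8_VP hX σ hσ (fun x => stc_SPerm σ A z x)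

theorem RtC8_EP {P P' M M' : Fin 3 → Prop} {V W : CC} (h : W ∈ EP P M V) (σ : SPerm (Fin 3))
    (hσ : ∀ i, P i ↔ P' (σ.perm i)) (hM : ∀ i, M i → M' (σ.perm i)) :
    act σ.aut W ∈ EP P' M' (act σ.aut V) := by
  have h' : Relation.ReflTransGen (StP P M) V W := h
  show Relation.ReflTransGen (StP P' M') (act σ.aut V) (act σ.aut W)
  induction h' with
  | refl => exact Relation.ReflTransGen.refl
  | tail hab hbc ih =>
    refine (ih hab).tail ?_
    obtain ⟨z, A, hz, hA, rfl⟩ := hbc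
    obtain ⟨h1, h2⟩ := TwBasic_SPerm σ ⟨hA.1, hA.2.1, hA.2.2.1⟩
    exact ⟨σ.letter z, _, hM _ hz, ⟨h1.1, h1.2.1, h1.2.2, RtC8_PF σ hσ hA.2.2.2⟩, h2.symm⟩

/-- exchange of the generators `0` and `2` -/
def sw02 : SPerm (Fin 3) := ⟨Equiv.swap 0 2, fun _ => true⟩

theorem sw02_perm : ∀ i : Fin 3, P2 i ↔ P0 (sw02.perm i) := by
  unfold P2 P0 sw02
  decide

theorem RtC8_other : ∀ i : Fin 3, i ≠ 2 → ∃ j : Fin 3, j ≠ 2 ∧ ∀ k : Fin 3, k ≠ 2 ∧ k ≠ i → k = j := by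
  decide

theorem dt_count {n : ℕ} {V : CC} (E : EqP n P2 V) (h2 : 0 < cnt V 2) (hT : capC V (PrC 2) = n) :
    CovF2 (EP P2 (fun i => i ≠ 2) V) 45 := by
  classical
  by_cases hall : ∀ W ∈ EP P2 (fun i => i ≠ 2) V, ∀ i : Fin 3, i ≠ 2 → CrP n P2 W (i, true)
  · have E' : EqP n P0 (act sw02.aut V) := RtC8_EqP E sw02 sw02_perm
    have h0' : 0 < cnt (act sw02.aut V) 0 := by
      have := cnt_SPerm sw02 V 2
      have e : sw02.perm 2 = 0 := by decide
      rw [e] at this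
      rw [this]; exact h2
    have hT' : capC (act sw02.aut V) (PrC 0) = n := by
      rw [capC_SPerm, ← hT]
      apply capC_congr
      intro x
      show decide (sw02.perm x.1 = 0) = decide (x.1 = 2)
      have key : ∀ k : Fin 3, decide (sw02.perm k = 0) = decide (k = 2) := by decide
      exact key x.1
    have hinvM : ∀ i : Fin 3, i ≠ 0 → sw02.inv.perm i ≠ 2 := by decide
    have hM : ∀ i : Fin 3, i ≠ 2 → sw02.perm i ≠ 0 := by decide
    have hc : ∀ W ∈ EP P0 (fun i => i ≠ 0) (act sw02.aut V), ∀ i : Fin 3, i ≠ 0 →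
        CrP n P0 W (i, true) := by
      intro W' hW' i hi
      have h1 := RtC8_EP (M' := fun i => i ≠ 2) hW' sw02.inv (RtC8_inv sw02 sw02_perm) hinvM
      rw [act_SPerm_inv] at h1
      have h3 := hall _ h1 (sw02.inv.perm i) (hinvM i hi)
      have h4 := RtC8_CrP h3 sw02 sw02_perm
      rw [act_SPerm_inv'] at h4
      have h5 : ∀ i : Fin 3, sw02.letter (sw02.inv.perm i, true) = (i, true) := by decide
      rw [h5] at h4
      exact h4
    obtain ⟨F, hF, hFW⟩ := t12 E' h0' hT' hc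
    refine ⟨F.image (act sw02.inv.aut), (Finset.card_image_le).trans (hF.trans (by norm_num)), ?_⟩
    intro W hW
    have h1 := RtC8_EP (M' := fun i => i ≠ 0) hW sw02 sw02_perm hM
    obtain ⟨σ, hσ, e, he, hWe⟩ := hFW _ h1
    refine ⟨Conn_comp sw02.inv (Conn_comp σ sw02), ?_, act sw02.inv.aut e,
      Finset.mem_image_of_mem _ he, ?_⟩
    · have e2 : sw02.perm 2 = 0 := by decide
      have e3 : sw02.inv.perm 0 = 2 := by decide
      show (Conn_comp sw02.inv (Conn_comp σ sw02)).perm 2 = 2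
      show sw02.inv.perm (σ.perm (sw02.perm 2)) = 2
      rw [e2, hσ.1, e3]
    · rw [← Conn_act_comp, ← Conn_act_comp, act_SPerm_inv', ← hWe, act_SPerm_inv]
  · push Not at hall
    obtain ⟨V1, hV1, i, hi, hr⟩ := hall
    obtain ⟨j, hj, hij⟩ := RtC8_other i hi
    have E1 : EqP n P2 V1 := EqP.em E hV1
    have hcov : Cov {W | ∃ q ∈ EP P2 (fun k => k = j) V1,
        W ∈ (fun q => {W | ∃ A, LP P2 q (i, true) A ∧ W = act (wh (i, true) A) q}) q} (9 * 5) := by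
      refine cov_bind (em9 E1 hj) _ ?_
      intro q hq
      have h4 := ls4 (EqP.em E1 hq) (z := (i, true)) hi
      exact cov_mono (cntMv q (i, true)) (fun W hW => hW) (by omega)
    obtain ⟨F, hF, hFW⟩ := hcov
    refine ⟨F, hF, ?_⟩
    intro W hW
    rw [← EM_eq hV1] at hW
    obtain ⟨σ, W1, A, hW1, hA, hσ, hWe⟩ := lemU E1 (M := fun k => k ≠ 2) (i := i) hi
      (fun k hk hk2 => hk hk2) hr hW
    refine ⟨σ, ?_, act (wh (i, true) A) W1, ?_, hWe⟩
    · have h := hσ (2, true) (by simp)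
      exact congrArg Prod.fst h
    · exact hFW _ ⟨W1, EM_mono hij hW1, A, hA, rfl⟩

end Pw

end Pool.Agent.Sims
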