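import Pool.Agent.Sims.RtEM
import Pool.Agent.Sims.SylEdge

/-!
# Module `RtCL` : port of `EvCL`
-/

namespace Pool.Agent.Sims

namespace Pw

open FreeGroup (of)

variable {P : Fin 3 → Prop}

theorem cl {n : ℕ} {V : CC} (E : EqP n P V) {j : Fin 3} {A : Ct} (hA : LP P V (j, true) A)
    (h0 : edgS V (rs j A) (rs j (fun x => !A x)) = 0)
    (h1 : edgS V (sgl (j, true)) (sgl (j, false)) = 0)
    (h2 : edgS (act (wh (j, true) A) V) (sgl (j, true)) (sgl (j, false)) = 0) : Clo j V A := by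
  have hw := cnt_wh_self V (j, true) A hA.1 hA.2.1
  have hL : capC V A = cnt V j := hA.2.2.1
  rw [hL] at hw
  rw [wh_pot] at h2 hw
  rcases WhEff_cases j V with ⟨k, rfl⟩ | ⟨s, -, hs, rfl⟩
  · intro p
    rw [act_pot_pow, act_pot_pow]
  · have hact : ∀ q : Fin 3 × Bool → ℤ, act (pot j q) (cls (expand j s)) =
        cls (expand j (shift q s)) := fun q => act_pot _ _ _ hs.1
    have hs' := SValid_shift j (ind A) s hs
    apply clo_of_nox hact
    rw [hact, edgS_jj hs', ← cyc_fst (fun q : (Fin 3 × Bool) × ℤ => q.2.natAbs - 1),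
      cyc_shift (fun (q : (Fin 3 × Bool) × ℤ) (_ : Fin 3 × Bool) => q.2.natAbs - 1)] at h2
    rw [edgS_jj hs, ← cyc_fst (fun q : (Fin 3 × Bool) × ℤ => q.2.natAbs - 1)] at h1
    rw [hact, cnt_cls hs'.2, cnt_cls hs.2, cntL_expand_self _ _ hs'.1,
      cntL_expand_self _ _ hs.1, sum_shift,
      ← cyc_fst (fun q : (Fin 3 × Bool) × ℤ => q.2.natAbs)] at hw
    rw [edgS_zero hs (by simp [rs]) (by simp [rs]) (by simp [rs]) (by simp [rs])] at h0
    have h3 : cyc (fun q r : (Fin 3 × Bool) × ℤ =>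
        if q.2 = 0 ∧ ((A q.1 && !A (bar r.1)) || (!A q.1 && A (bar r.1))) = true
        then 1 else 0) s = 0 := by
      refine Eq.trans ?_ h0
      apply EvCL_cyc_congr
      intro q hq r hr
      have hqj : q.1.1 ≠ j := hs.1 q hq
      have hrj : (bar r.1).1 ≠ j := hs.1 r hr
      simp only [rs, hqj, hrj, ne_eq, not_false_eq_true, decide_true, Bool.and_true]
    have h3' : cyc (fun q r : (Fin 3 × Bool) × ℤ =>
        if q.2 = 0 ∧ ((A q.1 && !A (bar r.1)) || (!A q.1 && A (bar r.1))) = true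
        then 2 else 0) s = 0 := by
      have h4 := EvCL_two (fun q r : (Fin 3 × Bool) × ℤ =>
        if q.2 = 0 ∧ ((A q.1 && !A (bar r.1)) || (!A q.1 && A (bar r.1))) = true
        then 1 else 0) s
      rw [h3, mul_zero] at h4
      refine Eq.trans ?_ h4
      congr 1
      funext q r
      split_ifs <;> rfl
    have key : cyc (fun q r : (Fin 3 × Bool) × ℤ =>
        (q.2 + ind A q.1 - ind A (bar r.1)).natAbs +
          (if A q.1 = A (bar r.1) then 0 else 1)) s ≤
        cyc (fun q r : (Fin 3 × Bool) × ℤ => q.2.natAbs +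
          ((if q.2 = 0 ∧ ((A q.1 && !A (bar r.1)) || (!A q.1 && A (bar r.1))) = true
          then 2 else 0) + (2 * (q.2.natAbs - 1) +
          2 * ((q.2 + ind A q.1 - ind A (bar r.1)).natAbs - 1)))) s := by
      apply cyc_mono
      intro q r
      exact EvCL_pt q.2 (A q.1) (A (bar r.1))
    rw [cyc_add (fun q r : (Fin 3 × Bool) × ℤ => (q.2 + ind A q.1 - ind A (bar r.1)).natAbs)
      (fun q r => if A q.1 = A (bar r.1) then 0 else 1)] at key
    rw [cyc_add (fun q _ : (Fin 3 × Bool) × ℤ => q.2.natAbs), cyc_add, cyc_add, EvCL_two,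
      EvCL_two, h3', h1, h2, hw] at key
    unfold NoX
    omega

end Pw

end Pool.Agent.Sims
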