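import Pool.Agent.Sims.RtF1

/-!
# Module `RtCP` : port of `EvCP`
-/

namespace Pool.Agent.Sims

namespace Pw

open FreeGroup (of)

variable {P : Fin 3 → Prop}

/-- cyclic partitions fixed by `P` -/
def CPF (P : Fin 3 → Prop) (n : ℕ) (V : CC) (m : ℕ) [NeZero m] (f : Fin 3 × Bool → Fin m) : Prop :=
  CPm n V m f ∧ ∀ i, P i → f (i, true) = f (i, false)

theorem cp_four {n : ℕ} {V : CC} (E : EqP n P V) {A B : Ct} (hA : NP n P V A) (hB : NP n P V B)
    (hX : Crossg A B) : ∃ f : Fin 3 × Bool → Fin 4, CPF P n V 4 f ∧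
      (∀ x, f x = 0 ↔ A x = true ∧ B x = true) ∧ (∀ x, f x = 1 ↔ A x = true ∧ B x = false) ∧
      (∀ x, f x = 2 ↔ A x = false ∧ B x = false) ∧ (∀ x, f x = 3 ↔ A x = false ∧ B x = true) := by
  obtain ⟨g1, g2, g3, g4, g5, g6⟩ := f1e E hA hB hX
  obtain ⟨f, hf⟩ : ∃ f : Fin 3 × Bool → Fin 4, f = fun x =>
    if A x = true then (if B x = true then 0 else 1) else (if B x = true then 3 else 2) := ⟨_, rfl⟩
  have h0 : ∀ x, f x = 0 ↔ A x = true ∧ B x = true := by
    intro x; rw [hf]; cases hAx : A x <;> cases hBx : B x <;> simp [hAx, hBx]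
  have h1 : ∀ x, f x = 1 ↔ A x = true ∧ B x = false := by
    intro x; rw [hf]; cases hAx : A x <;> cases hBx : B x <;> simp [hAx, hBx]
  have h2 : ∀ x, f x = 2 ↔ A x = false ∧ B x = false := by
    intro x; rw [hf]; cases hAx : A x <;> cases hBx : B x <;> simp [hAx, hBx]
  have h3 : ∀ x, f x = 3 ↔ A x = false ∧ B x = true := by
    intro x; rw [hf]; cases hAx : A x <;> cases hBx : B x <;> simp [hAx, hBx]
  have b0 : ∀ x, bk f 0 x = (A x && B x) := by
    intro x; rw [Bool.eq_iff_iff, EvCP_bk, h0]; simp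
  have b1 : ∀ x, bk f 1 x = (A x && !B x) := by
    intro x; rw [Bool.eq_iff_iff, EvCP_bk, h1]; simp
  have b2 : ∀ x, bk f 2 x = (!A x && !B x) := by
    intro x; rw [Bool.eq_iff_iff, EvCP_bk, h2]; simp
  have b3 : ∀ x, bk f 3 x = (!A x && B x) := by
    intro x; rw [Bool.eq_iff_iff, EvCP_bk, h3]; simp
  refine ⟨f, ?_, h0, h1, h2, h3⟩
  obtain ⟨⟨x0, hx0⟩, ⟨x1, hx1⟩, ⟨x3, hx3⟩, ⟨x2, hx2⟩⟩ := hX
  refine ⟨?_, by
    intro i hi
    rw [hf]
    simp [hA.1.2 i hi, hB.1.2 i hi]⟩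
  apply EvCP_mk4
  · intro i
    fin_cases i
    · exact ⟨x0, (h0 _).2 hx0⟩
    · exact ⟨x1, (h1 _).2 hx1⟩
    · exact ⟨x2, (h2 _).2 hx2⟩
    · exact ⟨x3, (h3 _).2 hx3⟩
  · rw [edgS_congr V b0 b1]; exact g3
  · rw [edgS_congr V b1 b2]; exact g5
  · rw [edgS_congr V b2 b3, edgS_comm]; exact g6
  · rw [edgS_congr V b3 b0, edgS_comm]; exact g4
  · rw [edgS_congr V b0 b2]; exact g1
  · rw [edgS_congr V b1 b3]; exact g2

theorem EvCP_prp {m : ℕ} [NeZero m] (hm : 2 ≤ m) {f : Fin 3 × Bool → Fin m}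
    (h : Function.Surjective f)
    (hf : ∀ j, P j → f (j, true) = f (j, false)) (i : Fin m) : PrpP P (bk f i) := by
  obtain ⟨x, hx⟩ := h i
  haveI : Nontrivial (Fin m) := Fin.nontrivial_iff_two_le.2 hm
  obtain ⟨j, hj⟩ := exists_ne i
  obtain ⟨y, hy⟩ := h j
  exact ⟨⟨⟨x, (EvCP_bk _ _ _).2 hx⟩, ⟨y, (EvCP_bkf _ _ _).2 (by rw [hy]; exact hj)⟩⟩,
    fun k hk => by simp [bk, hf k hk]⟩

theorem cp_cap4 {n : ℕ} {V : CC} (E : EqP n P V) {f : Fin 3 × Bool → Fin 4} (h : CPF P n V 4 f)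
    (i : Fin 4) : NP n P V (bk f i) := by
  obtain ⟨h, hfP⟩ := h
  refine ⟨EvCP_prp (by norm_num) h.1 hfP i, ?_⟩
  have e01 := h.2.1 0
  have e12 := h.2.1 1
  have e23 := h.2.1 2
  have e30 := h.2.1 3
  have z02 := h.2.2 0 2 (by decide) (by decide) (by decide)
  have z13 := h.2.2 1 3 (by decide) (by decide) (by decide)
  have c01 := edgS_comm V (bk f 0) (bk f 1)
  have c12 := edgS_comm V (bk f 1) (bk f 2)
  have c23 := edgS_comm V (bk f 2) (bk f 3)
  have c03 := edgS_comm V (bk f 0) (bk f 3)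
  have c02 := edgS_comm V (bk f 0) (bk f 2)
  have c13 := edgS_comm V (bk f 1) (bk f 3)
  change 2 * edgS V (bk f 0) (bk f 1) = n at e01
  change 2 * edgS V (bk f 1) (bk f 2) = n at e12
  change 2 * edgS V (bk f 2) (bk f 3) = n at e23
  change 2 * edgS V (bk f 3) (bk f 0) = n at e30
  rw [EvCP_cap, Fin.sum_univ_four]
  fin_cases i
  · change 0 + edgS V (bk f 0) (bk f 1) + edgS V (bk f 0) (bk f 2) + edgS V (bk f 0) (bk f 3) = n
    omega
  · change edgS V (bk f 1) (bk f 0) + 0 + edgS V (bk f 1) (bk f 2) + edgS V (bk f 1) (bk f 3) = n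
    omega
  · change edgS V (bk f 2) (bk f 0) + edgS V (bk f 2) (bk f 1) + 0 + edgS V (bk f 2) (bk f 3) = n
    omega
  · change edgS V (bk f 3) (bk f 0) + edgS V (bk f 3) (bk f 1) + edgS V (bk f 3) (bk f 2) + 0 = n
    omega

theorem cp_cap5 {n : ℕ} {V : CC} (E : EqP n P V) {f : Fin 3 × Bool → Fin 5} (h : CPF P n V 5 f)
    (i : Fin 5) : NP n P V (bk f i) := by
  obtain ⟨h, hfP⟩ := h
  refine ⟨EvCP_prp (by norm_num) h.1 hfP i, ?_⟩
  have e01 := h.2.1 0
  have e12 := h.2.1 1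
  have e23 := h.2.1 2
  have e34 := h.2.1 3
  have e40 := h.2.1 4
  have z02 := h.2.2 0 2 (by decide) (by decide) (by decide)
  have z03 := h.2.2 0 3 (by decide) (by decide) (by decide)
  have z13 := h.2.2 1 3 (by decide) (by decide) (by decide)
  have z14 := h.2.2 1 4 (by decide) (by decide) (by decide)
  have z24 := h.2.2 2 4 (by decide) (by decide) (by decide)
  have c01 := edgS_comm V (bk f 0) (bk f 1)
  have c12 := edgS_comm V (bk f 1) (bk f 2)
  have c23 := edgS_comm V (bk f 2) (bk f 3)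
  have c34 := edgS_comm V (bk f 3) (bk f 4)
  have c04 := edgS_comm V (bk f 0) (bk f 4)
  have c02 := edgS_comm V (bk f 0) (bk f 2)
  have c03 := edgS_comm V (bk f 0) (bk f 3)
  have c13 := edgS_comm V (bk f 1) (bk f 3)
  have c14 := edgS_comm V (bk f 1) (bk f 4)
  have c24 := edgS_comm V (bk f 2) (bk f 4)
  change 2 * edgS V (bk f 0) (bk f 1) = n at e01
  change 2 * edgS V (bk f 1) (bk f 2) = n at e12
  change 2 * edgS V (bk f 2) (bk f 3) = n at e23
  change 2 * edgS V (bk f 3) (bk f 4) = n at e34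
  change 2 * edgS V (bk f 4) (bk f 0) = n at e40
  rw [EvCP_cap, Fin.sum_univ_five]
  fin_cases i
  · change 0 + edgS V (bk f 0) (bk f 1) + edgS V (bk f 0) (bk f 2) + edgS V (bk f 0) (bk f 3) +
      edgS V (bk f 0) (bk f 4) = n
    omega
  · change edgS V (bk f 1) (bk f 0) + 0 + edgS V (bk f 1) (bk f 2) + edgS V (bk f 1) (bk f 3) +
      edgS V (bk f 1) (bk f 4) = n
    omega
  · change edgS V (bk f 2) (bk f 0) + edgS V (bk f 2) (bk f 1) + 0 + edgS V (bk f 2) (bk f 3) +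
      edgS V (bk f 2) (bk f 4) = n
    omega
  · change edgS V (bk f 3) (bk f 0) + edgS V (bk f 3) (bk f 1) + edgS V (bk f 3) (bk f 2) + 0 +
      edgS V (bk f 3) (bk f 4) = n
    omega
  · change edgS V (bk f 4) (bk f 0) + edgS V (bk f 4) (bk f 1) + edgS V (bk f 4) (bk f 2) +
      edgS V (bk f 4) (bk f 3) + 0 = n
    omega

theorem cp_arc4 {n : ℕ} {V : CC} (E : EqP n P V) {f : Fin 3 × Bool → Fin 4} (h : CPF P n V 4 f)
    (i : Fin 4) : NP n P V (fun x => bk f i x || bk f (i + 1) x) := by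
  have hne : i + 1 ≠ i := by revert i; decide
  have hne2 : i + 2 ≠ i := by revert i; decide
  have hne3 : i + 2 ≠ i + 1 := by revert i; decide
  have hu := capC_union V (bk f i) (bk f (i + 1)) (by
    intro x hx
    rw [EvCP_bk] at hx
    rw [EvCP_bkf, hx]
    exact fun h => hne h.symm)
  have h1 := (cp_cap4 E h i).2
  have h2 := (cp_cap4 E h (i + 1)).2
  obtain ⟨h, hfP⟩ := h
  have h3 := h.2.1 i
  refine ⟨⟨⟨?_, ?_⟩, fun k hk => by simp [bk, hfP k hk]⟩, by omega⟩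
  · obtain ⟨x, hx⟩ := h.1 i
    exact ⟨x, by simp [bk, hx]⟩
  · obtain ⟨x, hx⟩ := h.1 (i + 2)
    refine ⟨x, ?_⟩
    simp [bk, hx, hne2, hne3]

/-- the common part of the refinement lemmas -/
theorem EvCP_ref {n : ℕ} {V : CC} (E : EqP n P V) {m : ℕ} {f : Fin 3 × Bool → Fin m}
    {i0 i1 i2 : Fin m} (h01 : i1 ≠ i0) (h02 : i2 ≠ i0) (h12 : i1 ≠ i2)
    {C : Ct} (hC : NP n P V C) (hY : NP n P V (bk f i0)) (hX : Crossg C (bk f i0))
    (e1 : 2 * edgS V (bk f i0) (bk f i1) = n) (e2 : 2 * edgS V (bk f i0) (bk f i2) = n)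
    (h1 : ∀ x, f x = i1 → C x = false) :
    2 * edgS V (fun x => bk f i0 x && C x) (fun x => bk f i0 x && !C x) = n ∧
    edgS V (fun x => bk f i0 x && C x) (bk f i1) = 0 ∧
    2 * edgS V (fun x => bk f i0 x && !C x) (bk f i1) = n ∧
    edgS V (fun x => bk f i0 x && !C x) (bk f i2) = 0 ∧
    2 * edgS V (fun x => bk f i0 x && C x) (bk f i2) = n := by
  obtain ⟨g1, g2, g3, g4, g5, g6⟩ := f1e E hC hY hX
  -- g1 : e (C ∧ Y) (¬C ∧ ¬Y) = 0 ; g2 : e (C ∧ ¬Y) (¬C ∧ Y) = 0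
  -- g4 : 2 e (C ∧ Y) (¬C ∧ Y) = n ; g6 : 2 e (¬C ∧ Y) (¬C ∧ ¬Y) = n
  have d1 : ∀ x, bk f i1 x = true → bk f i0 x = false := by
    intro x hx
    rw [EvCP_bk] at hx
    rw [EvCP_bkf, hx]
    exact h01
  have d2 : ∀ x, bk f i2 x = true → bk f i0 x = false := by
    intro x hx
    rw [EvCP_bk] at hx
    rw [EvCP_bkf, hx]
    exact h02
  have sp : ∀ j : Fin m, (∀ x, bk f j x = true → bk f i0 x = false) →
      edgS V (bk f i0) (bk f j) = edgS V (fun x => bk f i0 x && C x) (bk f j) +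
        edgS V (fun x => bk f i0 x && !C x) (bk f j) := by
    intro j hj
    rw [edgS_comm V (bk f i0), edgS_split V C hj, edgS_comm V (bk f j),
      edgS_comm V (bk f j)]
  have a1 : edgS V (fun x => bk f i0 x && C x) (bk f i1) = 0 := by
    have : edgS V (fun x => bk f i0 x && C x) (bk f i1) ≤
        edgS V (fun x => C x && bk f i0 x) (fun x => !C x && !bk f i0 x) := by
      apply edgS_mono
      · intro x hx
        simp only [Bool.and_eq_true] at hx ⊢
        exact ⟨hx.2, hx.1⟩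
      · intro x hx
        have := h1 x ((EvCP_bk _ _ _).1 hx)
        have := d1 x hx
        simp [*]
    omega
  have s1 := sp i1 d1
  have s2 := sp i2 d2
  have a2 : 2 * edgS V (fun x => bk f i0 x && !C x) (bk f i1) = n := by omega
  have a3 : edgS V (fun x => bk f i0 x && !C x) (bk f i2) = 0 := by
    rw [edgS_split V C (P := fun x => bk f i0 x && !C x) (Q := bk f i2)]
    · have b1 : edgS V (fun x => bk f i0 x && !C x) (fun x => bk f i2 x && C x) = 0 := by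
        have : edgS V (fun x => bk f i0 x && !C x) (fun x => bk f i2 x && C x) ≤
            edgS V (fun x => !C x && bk f i0 x) (fun x => C x && !bk f i0 x) := by
          apply edgS_mono
          · intro x hx
            simp only [Bool.and_eq_true] at hx ⊢
            exact ⟨hx.2, hx.1⟩
          · intro x hx
            simp only [Bool.and_eq_true] at hx ⊢
            exact ⟨hx.2, by simp [d2 x hx.1]⟩
        rw [edgS_comm V (fun x => C x && !bk f i0 x)] at g2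
        omega
      have b2 : edgS V (fun x => bk f i0 x && !C x) (fun x => bk f i2 x && !C x) = 0 := by
        have hsp := edgS_split V (bk f i1) (P := fun x => !C x && bk f i0 x)
          (Q := fun x => !C x && !bk f i0 x) (by
            intro x hx
            simp only [Bool.and_eq_true] at hx
            simp [hx.2])
        have c1 : edgS V (fun x => bk f i0 x && !C x) (bk f i1) ≤
            edgS V (fun x => !C x && bk f i0 x)
              (fun x => (!C x && !bk f i0 x) && bk f i1 x) := by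
          apply edgS_mono
          · intro x hx
            simp only [Bool.and_eq_true] at hx ⊢
            exact ⟨hx.2, hx.1⟩
          · intro x hx
            have q1 := h1 x ((EvCP_bk _ _ _).1 hx)
            have q2 := d1 x hx
            simp [q1, q2, hx]
        have c2 : edgS V (fun x => bk f i0 x && !C x) (fun x => bk f i2 x && !C x) ≤
            edgS V (fun x => !C x && bk f i0 x)
              (fun x => (!C x && !bk f i0 x) && !bk f i1 x) := by
          apply edgS_mono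
          · intro x hx
            simp only [Bool.and_eq_true] at hx ⊢
            exact ⟨hx.2, hx.1⟩
          · intro x hx
            simp only [Bool.and_eq_true] at hx
            have q2 := d2 x hx.1
            have q3 : bk f i1 x = false := by
              rw [EvCP_bkf, (EvCP_bk _ _ _).1 hx.1]
              exact fun h => h12 h.symm
            simp [q2, q3, hx.2]
        omega
      omega
    · intro x hx
      simp only [Bool.and_eq_true] at hx
      by_contra hcon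
      have := d2 x (by simpa using hcon)
      rw [this] at hx
      simp at hx
  have a4 : 2 * edgS V (fun x => bk f i0 x && C x) (fun x => bk f i0 x && !C x) = n := by
    rw [← g4]
    congr 1
    apply edgS_congr V
    · intro x; exact Bool.and_comm _ _
    · intro x; exact Bool.and_comm _ _
  refine ⟨a4, a1, a2, a3, ?_⟩
  omega

theorem EvCP_refine4 {n : ℕ} {V : CC} (E : EqP n P V) {f : Fin 3 × Bool → Fin 4} (h : CPF P n V 4 f)
    {C : Ct} (hC : NP n P V C) (hX : Crossg C (bk f 0))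
    (h1 : ∀ x, f x = 1 → C x = false) :
    ∃ f' : Fin 3 × Bool → Fin 5, CPF P n V 5 f' ∧ (∀ x, f x = 0 ↔ (f' x = 0 ∨ f' x = 1)) ∧
      (∀ x, f x = 1 ↔ f' x = 2) ∧ (∀ x, f x = 2 ↔ f' x = 3) ∧ (∀ x, f x = 3 ↔ f' x = 4) := by
  have h' := h
  obtain ⟨h, hfP⟩ := h
  have e01 : 2 * edgS V (bk f 0) (bk f 1) = n := h.2.1 0
  have e12 : 2 * edgS V (bk f 1) (bk f 2) = n := h.2.1 1
  have e23 : 2 * edgS V (bk f 2) (bk f 3) = n := h.2.1 2
  have e30 : 2 * edgS V (bk f 3) (bk f 0) = n := h.2.1 3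
  have z02 := h.2.2 0 2 (by decide) (by decide) (by decide)
  have z13 := h.2.2 1 3 (by decide) (by decide) (by decide)
  obtain ⟨r1, r2, r3, r4, r5⟩ := EvCP_ref E (i0 := 0) (i1 := 1) (i2 := 3) (by decide) (by decide)
    (by decide) hC (cp_cap4 E h' 0) hX e01 (by rw [edgS_comm]; exact e30) h1
  obtain ⟨f', hf'⟩ : ∃ f' : Fin 3 × Bool → Fin 5, f' = fun x =>
    if f x = 0 then (if C x = true then 0 else 1) else (if f x = 1 then 2 else if f x = 2 then 3 else 4) :=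
    ⟨_, rfl⟩
  have hcase : ∀ x, f x = 0 ∨ f x = 1 ∨ f x = 2 ∨ f x = 3 := by
    intro x
    generalize f x = y
    revert y
    decide
  have k0 : ∀ x, f' x = 0 ↔ f x = 0 ∧ C x = true := by
    intro x; rw [hf']; rcases hcase x with hx | hx | hx | hx <;> cases hCx : C x <;> simp [hx, hCx]
  have k1 : ∀ x, f' x = 1 ↔ f x = 0 ∧ C x = false := by
    intro x; rw [hf']; rcases hcase x with hx | hx | hx | hx <;> cases hCx : C x <;> simp [hx, hCx]
  have k2 : ∀ x, f' x = 2 ↔ f x = 1 := by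
    intro x; rw [hf']; rcases hcase x with hx | hx | hx | hx <;> cases hCx : C x <;> simp [hx, hCx]
  have k3 : ∀ x, f' x = 3 ↔ f x = 2 := by
    intro x; rw [hf']; rcases hcase x with hx | hx | hx | hx <;> cases hCx : C x <;> simp [hx, hCx]
  have k4 : ∀ x, f' x = 4 ↔ f x = 3 := by
    intro x; rw [hf']; rcases hcase x with hx | hx | hx | hx <;> cases hCx : C x <;> simp [hx, hCx]
  have b0 : ∀ x, bk f' 0 x = (bk f 0 x && C x) := by
    intro x; rw [Bool.eq_iff_iff, EvCP_bk, k0, Bool.and_eq_true, EvCP_bk]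
  have b1 : ∀ x, bk f' 1 x = (bk f 0 x && !C x) := by
    intro x; rw [Bool.eq_iff_iff, EvCP_bk, k1, Bool.and_eq_true, EvCP_bk]; simp
  have b2 : ∀ x, bk f' 2 x = bk f 1 x := by
    intro x; rw [Bool.eq_iff_iff, EvCP_bk, k2, EvCP_bk]
  have b3 : ∀ x, bk f' 3 x = bk f 2 x := by
    intro x; rw [Bool.eq_iff_iff, EvCP_bk, k3, EvCP_bk]
  have b4 : ∀ x, bk f' 4 x = bk f 3 x := by
    intro x; rw [Bool.eq_iff_iff, EvCP_bk, k4, EvCP_bk]
  refine ⟨f', ?_, ?_, fun x => (k2 x).symm, fun x => (k3 x).symm, fun x => (k4 x).symm⟩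
  · obtain ⟨⟨x0, hx0⟩, -, ⟨x1, hx1⟩, -⟩ := hX
    obtain ⟨x2, hx2⟩ := h.1 1
    obtain ⟨x3, hx3⟩ := h.1 2
    obtain ⟨x4, hx4⟩ := h.1 3
    refine ⟨?_, by
      intro i hi
      rw [hf']
      simp [hfP i hi, hC.1.2 i hi]⟩
    apply EvCP_mk5
    · intro i
      fin_cases i
      · exact ⟨x0, (k0 _).2 ⟨(EvCP_bk _ _ _).1 hx0.2, hx0.1⟩⟩
      · exact ⟨x1, (k1 _).2 ⟨(EvCP_bk _ _ _).1 hx1.2, hx1.1⟩⟩
      · exact ⟨x2, (k2 _).2 hx2⟩
      · exact ⟨x3, (k3 _).2 hx3⟩
      · exact ⟨x4, (k4 _).2 hx4⟩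
    · rw [edgS_congr V b0 b1]; exact r1
    · rw [edgS_congr V b1 b2]; exact r3
    · rw [edgS_congr V b2 b3]; exact e12
    · rw [edgS_congr V b3 b4]; exact e23
    · rw [edgS_congr V b4 b0, edgS_comm]; exact r5
    · rw [edgS_congr V b0 b2]; exact r2
    · rw [edgS_congr V b0 b3]; exact (EvCP_far C z02).1
    · rw [edgS_congr V b1 b3]; exact (EvCP_far C z02).2
    · rw [edgS_congr V b1 b4]; exact r4
    · rw [edgS_congr V b2 b4]; exact z13
  · intro x
    rw [k0, k1]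
    constructor
    · intro hx
      cases hCx : C x
      · exact Or.inr ⟨hx, rfl⟩
      · exact Or.inl ⟨hx, rfl⟩
    · rintro (hx | hx) <;> exact hx.1

theorem cp_refine4 {n : ℕ} {V : CC} (E : EqP n P V) {f : Fin 3 × Bool → Fin 4} (h : CPF P n V 4 f)
    {C : Ct} (hC : NP n P V C) (hX : Crossg C (bk f 0))
    (h1 : (∀ x, f x = 1 → C x = true) ∨ (∀ x, f x = 1 → C x = false)) :
    ∃ f' : Fin 3 × Bool → Fin 5, CPF P n V 5 f' ∧ (∀ x, f x = 0 ↔ (f' x = 0 ∨ f' x = 1)) ∧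
      (∀ x, f x = 1 ↔ f' x = 2) ∧ (∀ x, f x = 2 ↔ f' x = 3) ∧ (∀ x, f x = 3 ↔ f' x = 4) := by
  rcases h1 with h1 | h1
  · exact EvCP_refine4 E h (NC_compl hC) (Crossg_compl hX) (by intro x hx; simp [h1 x hx])
  · exact EvCP_refine4 E h hC hX h1

theorem EvCP_refine5 {n : ℕ} {V : CC} (E : EqP n P V) {f : Fin 3 × Bool → Fin 5} (h : CPF P n V 5 f)
    {C : Ct} (hC : NP n P V C) (hX : Crossg C (bk f 0))
    (h1 : ∀ x, f x = 1 → C x = false) :
    ∃ f' : Fin 3 × Bool → Fin 6, CPF P n V 6 f' := by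
  have h' := h
  obtain ⟨h, hfP⟩ := h
  have e01 : 2 * edgS V (bk f 0) (bk f 1) = n := h.2.1 0
  have e12 : 2 * edgS V (bk f 1) (bk f 2) = n := h.2.1 1
  have e23 : 2 * edgS V (bk f 2) (bk f 3) = n := h.2.1 2
  have e34 : 2 * edgS V (bk f 3) (bk f 4) = n := h.2.1 3
  have e40 : 2 * edgS V (bk f 4) (bk f 0) = n := h.2.1 4
  have z02 := h.2.2 0 2 (by decide) (by decide) (by decide)
  have z03 := h.2.2 0 3 (by decide) (by decide) (by decide)
  have z13 := h.2.2 1 3 (by decide) (by decide) (by decide)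
  have z14 := h.2.2 1 4 (by decide) (by decide) (by decide)
  have z24 := h.2.2 2 4 (by decide) (by decide) (by decide)
  obtain ⟨r1, r2, r3, r4, r5⟩ := EvCP_ref E (i0 := 0) (i1 := 1) (i2 := 4) (by decide) (by decide)
    (by decide) hC (cp_cap5 E h' 0) hX e01 (by rw [edgS_comm]; exact e40) h1
  obtain ⟨f', hf'⟩ : ∃ f' : Fin 3 × Bool → Fin 6, f' = fun x =>
    if f x = 0 then (if C x = true then 0 else 1) else
      (if f x = 1 then 2 else if f x = 2 then 3 else if f x = 3 then 4 else 5) :=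
    ⟨_, rfl⟩
  have hcase : ∀ x, f x = 0 ∨ f x = 1 ∨ f x = 2 ∨ f x = 3 ∨ f x = 4 := by
    intro x
    generalize f x = y
    revert y
    decide
  have k0 : ∀ x, f' x = 0 ↔ f x = 0 ∧ C x = true := by
    intro x; rw [hf']; rcases hcase x with hx | hx | hx | hx | hx <;> cases hCx : C x <;> simp [hx, hCx]
  have k1 : ∀ x, f' x = 1 ↔ f x = 0 ∧ C x = false := by
    intro x; rw [hf']; rcases hcase x with hx | hx | hx | hx | hx <;> cases hCx : C x <;> simp [hx, hCx]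
  have k2 : ∀ x, f' x = 2 ↔ f x = 1 := by
    intro x; rw [hf']; rcases hcase x with hx | hx | hx | hx | hx <;> cases hCx : C x <;> simp [hx, hCx]
  have k3 : ∀ x, f' x = 3 ↔ f x = 2 := by
    intro x; rw [hf']; rcases hcase x with hx | hx | hx | hx | hx <;> cases hCx : C x <;> simp [hx, hCx]
  have k4 : ∀ x, f' x = 4 ↔ f x = 3 := by
    intro x; rw [hf']; rcases hcase x with hx | hx | hx | hx | hx <;> cases hCx : C x <;> simp [hx, hCx]
  have k5 : ∀ x, f' x = 5 ↔ f x = 4 := by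
    intro x; rw [hf']; rcases hcase x with hx | hx | hx | hx | hx <;> cases hCx : C x <;> simp [hx, hCx]
  have b0 : ∀ x, bk f' 0 x = (bk f 0 x && C x) := by
    intro x; rw [Bool.eq_iff_iff, EvCP_bk, k0, Bool.and_eq_true, EvCP_bk]
  have b1 : ∀ x, bk f' 1 x = (bk f 0 x && !C x) := by
    intro x; rw [Bool.eq_iff_iff, EvCP_bk, k1, Bool.and_eq_true, EvCP_bk]; simp
  have b2 : ∀ x, bk f' 2 x = bk f 1 x := by
    intro x; rw [Bool.eq_iff_iff, EvCP_bk, k2, EvCP_bk]
  have b3 : ∀ x, bk f' 3 x = bk f 2 x := by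
    intro x; rw [Bool.eq_iff_iff, EvCP_bk, k3, EvCP_bk]
  have b4 : ∀ x, bk f' 4 x = bk f 3 x := by
    intro x; rw [Bool.eq_iff_iff, EvCP_bk, k4, EvCP_bk]
  have b5 : ∀ x, bk f' 5 x = bk f 4 x := by
    intro x; rw [Bool.eq_iff_iff, EvCP_bk, k5, EvCP_bk]
  refine ⟨f', ?_⟩
  obtain ⟨⟨x0, hx0⟩, -, ⟨x1, hx1⟩, -⟩ := hX
  obtain ⟨x2, hx2⟩ := h.1 1
  obtain ⟨x3, hx3⟩ := h.1 2
  obtain ⟨x4, hx4⟩ := h.1 3
  obtain ⟨x5, hx5⟩ := h.1 4
  refine ⟨?_, by
    intro i hi
    rw [hf']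
    simp [hfP i hi, hC.1.2 i hi]⟩
  apply EvCP_mk6
  · intro i
    fin_cases i
    · exact ⟨x0, (k0 _).2 ⟨(EvCP_bk _ _ _).1 hx0.2, hx0.1⟩⟩
    · exact ⟨x1, (k1 _).2 ⟨(EvCP_bk _ _ _).1 hx1.2, hx1.1⟩⟩
    · exact ⟨x2, (k2 _).2 hx2⟩
    · exact ⟨x3, (k3 _).2 hx3⟩
    · exact ⟨x4, (k4 _).2 hx4⟩
    · exact ⟨x5, (k5 _).2 hx5⟩
  · rw [edgS_congr V b0 b1]; exact r1
  · rw [edgS_congr V b1 b2]; exact r3
  · rw [edgS_congr V b2 b3]; exact e12
  · rw [edgS_congr V b3 b4]; exact e23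
  · rw [edgS_congr V b4 b5]; exact e34
  · rw [edgS_congr V b5 b0, edgS_comm]; exact r5
  · rw [edgS_congr V b0 b2]; exact r2
  · rw [edgS_congr V b0 b3]; exact (EvCP_far C z02).1
  · rw [edgS_congr V b0 b4]; exact (EvCP_far C z03).1
  · rw [edgS_congr V b1 b3]; exact (EvCP_far C z02).2
  · rw [edgS_congr V b1 b4]; exact (EvCP_far C z03).2
  · rw [edgS_congr V b1 b5]; exact r4
  · rw [edgS_congr V b2 b4]; exact z13
  · rw [edgS_congr V b2 b5]; exact z14
  · rw [edgS_congr V b3 b5]; exact z24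

theorem cp_refine5 {n : ℕ} {V : CC} (E : EqP n P V) {f : Fin 3 × Bool → Fin 5} (h : CPF P n V 5 f)
    {C : Ct} (hC : NP n P V C) (hX : Crossg C (bk f 0))
    (h1 : (∀ x, f x = 1 → C x = true) ∨ (∀ x, f x = 1 → C x = false)) :
    ∃ f' : Fin 3 × Bool → Fin 6, CPF P n V 6 f' := by
  rcases h1 with h1 | h1
  · exact EvCP_refine5 E h (NC_compl hC) (Crossg_compl hX) (by intro x hx; simp [h1 x hx])
  · exact EvCP_refine5 E h hC hX h1

end Pw

end Pool.Agent.Sims
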