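import Pool.Agent.Sims.RtG5

/-!
# Module `RtG8` : rotations preserve good charts

Write `q = κ·1_I`, `V' = act (pot 2 q) V`, `s` a syllable list of `V` (`hv_gl`).
* `rot_in`: `l3_in` for `X = Y = U`, `q` (`u ∈ U ∖ I`, `v ∈ I`): `I` and `U ∖ I` are visible.
* `rot_cnt`: let `κ > 0`: for `0 ≤ j ≤ κ` the count of `act (pot 2 (j·1_I)) V` is `K`: induction on `j`: at `V_j = act (pot 2 (j·1_I)) V` (`hv_orb`) the pair `((κ - j)·1_I, U)` is tight (`hv_pot`), and if `j < κ` `hv_step` with `Y₀ = I`
  gives the count `K` for `act (pot 2 (ind I)) V_j`.  If `κ < 0`: `Ec` contains `Clo 2 V U`: `act (pot 2 (κ 1_I)) V = act (pot 2 (κ 1_I - κ 1_U)) V` (`Clo` applied `|κ|` times) `= act (pot 2 (-κ 1_{U ∖ I})) V`, and `-κ > 0`, the pair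
  `(-κ 1_{U ∖ I}, U)` is tight (`hv_loc`).
* `rot_str`: in the proof of `g_b` with `X = Y = U`, `I₁ = U ∖ I`, `I₂ = I` both sides are equal: `gc s 0 I₁ + gc s 0 I₂ + gl s U = n + n + 0` and `gc s 0 U + gc s q U = n + n` (`gl s U = 0` is not a hypothesis here: it follows from the
  inequality `g_b`, since `gc s 0 I₁`, `gc s 0 I₂ ≥ n`).  So the termwise inequality is an equality for every cyclic pair `(a, r)`; let `x = a.1`, `y = bar r.1`, `k = a.2`.  One end in `U`, the other one outside: `1` on the left from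
  `gl`, plus `1` from `gc s 0 I_i`, `2` on the right: this is an equality, but `gl s U = 0` excludes it.  Both ends in the same part: the left side is `c(k)`, the right side `2 c(k)`, `c(k) = 0` if `k = 0` and `2` otherwise: so
  `k = 0`.  `x ∈ I`, `y ∈ U ∖ I`: the left side is `2`, the right side `c(k) + c(k + κ)`: so `k = 0` or `k = -κ`.  `x ∈ U ∖ I`, `y ∈ I`: `k = 0` or `k = κ`.  (Technically: a `cyc` sum of termwise nonnegative defects is `0`, so every term
  is `0`: compare `EvLem2_cyc`, `SylB_lin_zero`.)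
* `rot_inv`: at `V'` the window `(U, I, -κ)` is a rotation (`hv_pot`, `ec_pot`).
* `gd_rot`: let `(q', Y)` be tight at `V'`, not constant on `Y`.  `(q' + κ 1_I, Y)` is tight at `V` (`hv_pot`).  If `q' + κ 1_I` is not constant on `Y`: `good_win`: a closed visible `U' ⊇ Y` at `V`.  If `U'` meets `U` then `U' ⊆ U` and
  `U ⊆ U'` (`ec_sub`), so `U' = U`, visible at `V'` (`t1`), take `X = U`.  If not, `U'` is visible at `V'` (`hv_loc`, `κ 1_I = 0` on `U'`); take `X = U'`.  If `q' + κ 1_I` is constant on `Y` then `Y` is visible at `V` (`hv_loc`) and `Y`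
  meets `I` (otherwise `q'` is constant on `Y`), so `Y ⊆ U` (`ec_sub`); take `X = U`.
Difficulty 4.
-/

namespace Pool.Agent.Sims

theorem RtG8_congr {n : ℕ} {V : CC} {q q' : Fin 3 × Bool → ℤ} {X Y : Ct} (hq : q = q') (h : X = Y)
    (hX : Ti n V q X) : Ti n V q' Y := by
  subst hq
  subst h
  exact hX

theorem rot_in {n K : ℕ} {V : CC} (H : Hv n K V) {U I : Ct} {κ : ℤ} (hR : RotW n V U I κ) :
    Ti n V 0 I ∧ Ti n V 0 (fun x => U x && !I x) := by
  obtain ⟨v, hv⟩ := hR.ne
  obtain ⟨u, hu, hu'⟩ := hR.ne'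
  have hvU := hR.sub v hv
  have h0 := hR.h0
  have hq : ∀ x, κ * ind I x = κ * ind I v ↔ I x = true := by
    intro x
    unfold ind
    rw [hv]
    cases hx : I x
    · simp only [Bool.false_eq_true, if_false, if_true, mul_zero, mul_one, iff_false]
      exact fun h => h0 h.symm
    · simp
  have huv : κ * ind I u ≠ κ * ind I v := by
    intro h
    rw [(hq u).1 h] at hu'
    exact absurd hu' (by simp)
  obtain ⟨h1, h2, _⟩ := l3_in H hR.t0 hR.t1 hu hu hvU hvU huv
  have e : ∀ x, (U x && decide (κ * ind I x = κ * ind I v)) = I x := by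
    intro x
    have h3 : decide (κ * ind I x = κ * ind I v) = I x := by
      cases hx : I x
      · rw [decide_eq_false_iff_not, hq x, hx]
        simp
      · rw [decide_eq_true_iff, hq x, hx]
    rw [h3]
    cases hx : I x
    · simp
    · rw [hR.sub x hx]
      rfl
  refine ⟨RtG8_congr rfl ?_ h1, RtG8_congr rfl ?_ h2⟩
  · funext x
    show (U x && (U x && decide (κ * ind I x = κ * ind I v))) = I x
    rw [e]
    cases hx : I x
    · simp
    · rw [hR.sub x hx]
      rfl
  · funext x
    show (U x && !(U x && decide (κ * ind I x = κ * ind I v))) = (U x && !I x)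
    rw [e]

/-- the complementary rotation -/
theorem RtG8_flip {n K : ℕ} {V : CC} (H : Hv n K V) {U I : Ct} {κ : ℤ} (hR : RotW n V U I κ) :
    RotW n V U (fun x => U x && !I x) (-κ) := by
  obtain ⟨v, hv⟩ := hR.ne
  obtain ⟨u, hu, hu'⟩ := hR.ne'
  have hc : 0 < cnt V 0 := by
    have := H.c0
    have := H.h4
    omega
  refine ⟨neg_ne_zero.2 hR.h0, hR.ec, hR.t0, hv_loc hc κ ?_ hR.t1, ?_, ⟨u, by simp [hu, hu']⟩, ⟨v, hR.sub v hv, by simp [hv]⟩⟩
  · intro x hx
    unfold ind
    simp only [hx, Bool.true_and]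
    cases I x <;> simp
  · intro x hx
    rw [Bool.and_eq_true] at hx
    exact hx.1

theorem RtG8_cnt {n K : ℕ} {V : CC} (H : Hv n K V) {U I : Ct} {κ : ℤ} (hR : RotW n V U I κ) (hκ : 0 < κ) :
    cnt (act (pot 2 (fun x => κ * ind I x)) V) 2 = K := by
  have key : ∀ j : ℕ, (j : ℤ) ≤ κ → cnt (act (pot 2 (fun x => (j : ℤ) * ind I x)) V) 2 = K := by
    intro j
    induction j with
    | zero =>
      intro _
      have e : (fun x => ((0 : ℕ) : ℤ) * ind I x) = (0 : Fin 3 × Bool → ℤ) := by
        funext x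
        simp
      rw [e, pot_zero]
      exact H.c2
    | succ j ih =>
      intro hj
      have hj' : (j : ℤ) < κ := by push_cast at hj; omega
      have h1 := hv_orb H (ih hj'.le)
      have h2 : Ti n (act (pot 2 (fun x => (j : ℤ) * ind I x)) V) (fun x => (κ - j) * ind I x) U := by
        rw [hv_pot]
        refine RtG8_congr ?_ rfl hR.t1
        funext x
        simp only [Pi.add_apply]
        ring
      have h3 := hv_step h1 h2 (Y0 := I) hR.sub (by
        intro x y hx _ hy
        unfold ind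
        rw [hx, hy]
        simp only [Bool.false_eq_true, if_false, if_true, mul_zero, mul_one]
        omega) hR.ne'
      rw [pot_add] at h3
      have e : (fun x => ((j + 1 : ℕ) : ℤ) * ind I x) = ind I + fun x => (j : ℤ) * ind I x := by
        funext x
        simp only [Pi.add_apply]
        push_cast
        ring
      rw [e]
      exact h3
  have h1 := key κ.toNat (by rw [Int.toNat_of_nonneg hκ.le])
  rw [Int.toNat_of_nonneg hκ.le] at h1
  exact h1

theorem RtG8_clo {V : CC} {U : Ct} (h : Clo 2 V U) (j : ℕ) (p : Fin 3 × Bool → ℤ) :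
    act (pot 2 (fun x => p x + j * ind U x)) V = act (pot 2 p) V := by
  induction j with
  | zero =>
    congr 2
    funext x
    simp
  | succ j ih =>
    rw [← ih]
    refine Eq.trans ?_ (h _)
    congr 2
    funext x
    simp only [Pi.add_apply]
    push_cast
    ring

theorem rot_cnt {n K : ℕ} {V : CC} (H : Hv n K V) {U I : Ct} {κ : ℤ} (hR : RotW n V U I κ) :
    cnt (act (pot 2 (fun x => κ * ind I x)) V) 2 = K := by
  rcases lt_trichotomy κ 0 with h | h | h
  · have hR' := RtG8_flip H hR
    have h1 := RtG8_cnt H hR' (by omega)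
    rw [← h1]
    have h2 := RtG8_clo hR.ec.2.1 (-κ).toNat (fun x => κ * ind I x)
    rw [← h2]
    congr 3
    funext x
    have e : (((-κ).toNat : ℕ) : ℤ) = -κ := Int.toNat_of_nonneg (by omega)
    rw [e]
    unfold ind
    cases hx : I x
    · cases hu : U x <;> simp [hx, hu]
    · simp [hR.sub x hx, hx]
  · exact absurd h hR.h0
  · exact RtG8_cnt H hR h

theorem rot_inv {n : ℕ} {V : CC} {U I : Ct} {κ : ℤ} (hR : RotW n V U I κ) :
    RotW n (act (pot 2 (fun x => κ * ind I x)) V) U I (-κ) := by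
  refine ⟨neg_ne_zero.2 hR.h0, ec_pot hR.ec _, ?_, ?_, hR.sub, hR.ne, hR.ne'⟩
  · rw [hv_pot, zero_add]
    exact hR.t1
  · rw [hv_pot]
    refine RtG8_congr ?_ rfl hR.t0
    funext x
    simp only [Pi.add_apply, Pi.zero_apply]
    ring

theorem RtG8_term (ux uy ix iy : Bool) (k κ : ℤ) (h0 : κ ≠ 0) (hx : ix = true → ux = true)
    (hy : iy = true → uy = true) :
    ((if k = 0 then (if ix = iy then 0 else 1) else (if ix then 1 else 0) + (if iy then 1 else 0)) +
      (if k = 0 then (if (ux && !ix) = (uy && !iy) then 0 else 1) else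
        (if (ux && !ix) then 1 else 0) + (if (uy && !iy) then 1 else 0))) +
      (if (ux = uy ∧ (ux = true → (ix = iy → k = 0) ∧ (ix = true → iy = false → (k = 0 ∨ k = -κ)) ∧
        (ix = false → iy = true → (k = 0 ∨ k = κ)))) then 0 else 1) ≤
    ((if k = 0 then (if ux = uy then 0 else 1) else (if ux then 1 else 0) + (if uy then 1 else 0)) +
      (if k + κ * (if ix then 1 else 0) - κ * (if iy then 1 else 0) = 0 then (if ux = uy then 0 else 1) else
        (if ux then 1 else 0) + (if uy then 1 else 0))) +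
      ((if ux = uy then 0 else 1) + (if ux = uy then 0 else 1)) := by
  cases ux <;> cases uy <;> cases ix <;> cases iy <;> simp at hx hy ⊢ <;> split_ifs <;> omega

theorem rot_str {n K : ℕ} {V : CC} (H : Hv n K V) {U I : Ct} {κ : ℤ} (hR : RotW n V U I κ)
    {s : List ((Fin 3 × Bool) × ℤ)} (hs : SValid 2 s) (hV : cls (expand 2 s) = V) :
    cyc (fun a r => if (U a.1 = U (bar r.1) ∧ (U a.1 = true →
      (I a.1 = I (bar r.1) → a.2 = 0) ∧ (I a.1 = true → I (bar r.1) = false → (a.2 = 0 ∨ a.2 = -κ)) ∧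
      (I a.1 = false → I (bar r.1) = true → (a.2 = 0 ∨ a.2 = κ)))) then 0 else 1) s = 0 := by
  obtain ⟨hI, hJ⟩ := rot_in H hR
  have g1 : gc s 0 I = n := by
    rw [← g_cap hs hV 0 hI.1.1]
    exact hI.2
  have g2 : gc s 0 (fun x => U x && !I x) = n := by
    rw [← g_cap hs hV 0 hJ.1.1]
    exact hJ.2
  have g3 : gc s 0 U = n := by
    rw [← g_cap hs hV 0 hR.t0.1.1]
    exact hR.t0.2
  have g4 : gc s (fun x => κ * ind I x) U = n := by
    rw [← g_cap hs hV _ hR.t1.1.1]
    exact hR.t1.2
  have g5 := g_b s (q := fun x => κ * ind I x) (X := U) (Y := U) (I1 := fun x => U x && !I x) (I2 := I)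
    (by
      intro x
      cases hx : I x
      · simp
      · simp [hR.sub x hx])
    (by
      intro x y hx hy
      have hx' : I x = false := by
        cases h : I x
        · rfl
        · simp [h] at hx
      show κ * ind I x ≠ κ * ind I y
      unfold ind
      rw [hx', hy]
      simp only [Bool.false_eq_true, if_false, if_true, mul_zero, mul_one]
      exact hR.h0.symm)
  have e : (fun x => U x || U x) = U := by
    funext x
    simp
  rw [e, g1, g2, g3, g4] at g5
  have g6 : gl s U = 0 := by omega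
  have g7 := cyc_mono (f := fun a r : (Fin 3 × Bool) × ℤ =>
    ((if a.2 = 0 then (if I a.1 = I (bar r.1) then 0 else 1) else
      (if I a.1 then 1 else 0) + (if I (bar r.1) then 1 else 0)) +
      (if a.2 = 0 then (if (U a.1 && !I a.1) = (U (bar r.1) && !I (bar r.1)) then 0 else 1) else
        (if (U a.1 && !I a.1) then 1 else 0) + (if (U (bar r.1) && !I (bar r.1)) then 1 else 0))) +
      (if (U a.1 = U (bar r.1) ∧ (U a.1 = true →
      (I a.1 = I (bar r.1) → a.2 = 0) ∧ (I a.1 = true → I (bar r.1) = false → (a.2 = 0 ∨ a.2 = -κ)) ∧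
      (I a.1 = false → I (bar r.1) = true → (a.2 = 0 ∨ a.2 = κ)))) then 0 else 1))
    (g := fun a r : (Fin 3 × Bool) × ℤ =>
    ((if a.2 = 0 then (if U a.1 = U (bar r.1) then 0 else 1) else
      (if U a.1 then 1 else 0) + (if U (bar r.1) then 1 else 0)) +
      (if a.2 + κ * (if I a.1 then 1 else 0) - κ * (if I (bar r.1) then 1 else 0) = 0 then
        (if U a.1 = U (bar r.1) then 0 else 1) else
        (if U a.1 then 1 else 0) + (if U (bar r.1) then 1 else 0))) +
      ((if U a.1 = U (bar r.1) then 0 else 1) + (if U a.1 = U (bar r.1) then 0 else 1)))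
    (fun a r => RtG8_term (U a.1) (U (bar r.1)) (I a.1) (I (bar r.1)) a.2 κ hR.h0 (hR.sub _) (hR.sub _)) s
  rw [cyc_add, cyc_add, cyc_add, cyc_add, cyc_add] at g7
  have z1 : ∀ Y : Ct, gc s 0 Y = cyc (fun a r : (Fin 3 × Bool) × ℤ =>
      if a.2 = 0 then (if Y a.1 = Y (bar r.1) then 0 else 1) else
      (if Y a.1 then 1 else 0) + (if Y (bar r.1) then 1 else 0)) s := by
    intro Y
    unfold gc
    simp only [Pi.zero_apply, add_zero, sub_zero]
  have z2 : gc s (fun x => κ * ind I x) U = cyc (fun a r : (Fin 3 × Bool) × ℤ =>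
      if a.2 + κ * (if I a.1 then 1 else 0) - κ * (if I (bar r.1) then 1 else 0) = 0 then
        (if U a.1 = U (bar r.1) then 0 else 1) else
        (if U a.1 then 1 else 0) + (if U (bar r.1) then 1 else 0)) s := rfl
  rw [← z1 I, ← z1 (fun x => U x && !I x), ← z1 U, ← z2, g1, g2, g3, g4] at g7
  unfold gl at g6
  rw [g6] at g7
  omega

theorem gd_rot {n K : ℕ} {V : CC} (H : Hv n K V) (hG : GdC n V) {U I : Ct} {κ : ℤ}
    (hR : RotW n V U I κ) : GdC n (act (pot 2 (fun x => κ * ind I x)) V) := by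
  have hc : 0 < cnt V 0 := by
    have := H.c0
    have := H.h4
    omega
  have hRi := rot_inv hR
  intro q' Y hT
  by_cases hcon : ∀ x y, Y x = true → Y y = true → q' x = q' y
  · exact Or.inl hcon
  right
  push Not at hcon
  obtain ⟨u, v, hu, hv, huv⟩ := hcon
  rw [hv_pot] at hT
  set q : Fin 3 × Bool → ℤ := q' + fun x => κ * ind I x with hq
  by_cases hq2 : ∃ x y, Y x = true ∧ Y y = true ∧ q x ≠ q y
  · obtain ⟨U', I', κ', hR', hYU, -, -, -⟩ := good_win H hG hT hq2
    by_cases hm : ∃ x, U' x = true ∧ U x = true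
    · have h1 := ec_sub H hR.ec hR'.t0 hm
      exact ⟨U, hRi.t0, u, v, h1 u (hYU u hu), hu, h1 v (hYU v hv), hv, huv⟩
    · refine ⟨U', ?_, u, v, hYU u hu, hu, hYU v hv, hv, huv⟩
      rw [hv_pot]
      refine hv_loc hc 0 ?_ hR'.t0
      intro x hx
      have hx' : I x = false := by
        cases h : I x
        · rfl
        · exact absurd ⟨x, hx, hR.sub x h⟩ hm
      simp only [Pi.add_apply, Pi.zero_apply]
      unfold ind
      rw [hx']
      simp
  · push Not at hq2
    have h1 : Ti n V 0 Y := by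
      refine hv_loc hc (q u) ?_ hT
      intro x hx
      rw [hq2 x u hx hu]
      simp
    have h2 : ∃ x, Y x = true ∧ U x = true := by
      by_contra hno
      have hI : ∀ x, Y x = true → I x = false := by
        intro x hx
        cases h : I x
        · rfl
        · exact absurd ⟨x, hx, hR.sub x h⟩ hno
      apply huv
      have h3 := hq2 u v hu hv
      rw [hq] at h3
      simp only [Pi.add_apply] at h3
      unfold ind at h3
      rw [hI u hu, hI v hv] at h3
      simpa using h3
    have h3 := ec_sub H hR.ec h1 h2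
    exact ⟨U, hRi.t0, u, v, h3 u hu, hu, h3 v hv, hv, huv⟩

end Pool.Agent.Sims
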