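import Pool.Agent.Sims.RtG7
import Pool.Agent.Sims.RtG8

/-!
# Module `RtG9` : all classes of the orbit are potentials of good charts

* `StR n V W`: a light level move along a set of light letters, or a rotation of a window;  `ER n V` : the classes reachable from `V`
* `er_inv`: `Hv` and `GdC` along `StR`: `hv_lv`, `gd_light`; `rot_cnt`, `hv_orb`, `gd_rot`.
* `r2_cover`: `closure_principle` for `E = {W | ∃ G ∈ ER n V, ∃ p, W = act (pot 2 p) G ∧ cnt W 2 = K}`.  Let `W = act (pot 2 p) G ∈ E` (`Hv n K W` by `hv_orb`), `(z, A)` with `capC W A = cnt W z.1`.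
  - `z.1 = 2`: `wh z A = pot 2 (whp z A)` (definition of `wh`), `pot_add`; the count of `c` is `capC W A = K` (`cnt_wh_self`).
  - `z.1 ≠ 2`: `capC W A = n`.  If `A` separates `c, c⁻¹`: `K = cnt W 2 ≤ capC W A = n` (`OMin.le_cap`): contradiction.  If `c, c⁻¹ ∈ A`: replace `(z, A)` by `(z⁻¹, Aᶜ)` (`act_wh_compl`, `capC_compl`).  So `Lt A`, `(p, A)` is tight at `G`.
    If `p` is not constant on `A`: `good_win`: `RotW n G U I κ`, `A ⊆ U`, `p = t + κ 1_I` on `A`; replace `G` by `G' = act (pot 2 (κ 1_I)) G ∈ ER n V` and `p` by `p - κ 1_I`, constant on `A` (`pot_add`).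
    Now `p` is constant on `A`: `A` is a level `z`-cut at `G` (`hv_loc`, `hv_ti0`), `G₁ = act (wh z A) G ∈ ER n V`, and `act (wh z A) W = act (pot 2 p̂) G₁` (`tr_pot`), with the count `K` of `c` (`cnt_wh_ne`).
  In all cases the result is in `E`, so take the identity as the signed permutation (`exists_SPerm_one`).
Difficulty 3.
-/

namespace Pool.Agent.Sims

/-- one step between good charts -/
def StR (n : ℕ) (V W : CC) : Prop :=
  (∃ (z : Fin 3 × Bool) (A : Ct), z.1 ≠ 2 ∧ Lt A ∧ Lv V z A ∧ W = act (wh z A) V) ∨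
  ∃ (U I : Ct) (κ : ℤ), RotW n V U I κ ∧ W = act (pot 2 (fun x => κ * ind I x)) V

/-- reachable good charts -/
def ER (n : ℕ) (V : CC) : Set CC := {W | Relation.ReflTransGen (StR n) V W}

theorem er_inv {n K : ℕ} {V W : CC} (H : Hv n K V) (hG : GdC n V) (hW : W ∈ ER n V) :
    Hv n K W ∧ GdC n W := by
  have hW' : Relation.ReflTransGen (StR n) V W := hW
  induction hW' with
  | refl => exact ⟨H, hG⟩
  | tail h1 h2 ih =>
    obtain ⟨H', hG'⟩ := ih h1
    rcases h2 with ⟨z, A, hz, hA, hL, rfl⟩ | ⟨U, I, κ, hR, rfl⟩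
    · exact ⟨hv_lv H' hL, gd_light H' hG' hz hA hL⟩
    · exact ⟨hv_orb H' (rot_cnt H' hR), gd_rot H' hG' hR⟩

theorem RtG9_cz {n K : ℕ} {V : CC} (H : Hv n K V) {z : Fin 3 × Bool} (hz : z.1 ≠ 2) : cnt V z.1 = n := by
  have h : ∀ i : Fin 3, i ≠ 2 → i = 0 ∨ i = 1 := by decide
  rcases h z.1 hz with h | h
  · rw [h]
    exact H.c0
  · rw [h]
    exact H.c1

/-- the potential is constant on the cut -/
theorem RtG9_const {n K : ℕ} {V : CC} (H : Hv n K V) (hG : GdC n V) {G : CC} (hGE : G ∈ ER n V)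
    {p : Fin 3 × Bool → ℤ} (hp : cnt (act (pot 2 p) G) 2 = K) {z : Fin 3 × Bool} {A : Ct}
    (hz : z.1 ≠ 2) (hA : Lt A) (h1 : A z = true) (h2 : A (bar z) = false)
    (hc : capC (act (pot 2 p) G) A = n) (hconst : ∀ x, A x = true → p x = p z) :
    ∃ G' ∈ ER n V, ∃ p' : Fin 3 × Bool → ℤ,
      act (wh z A) (act (pot 2 p) G) = act (pot 2 p') G' ∧ cnt (act (wh z A) (act (pot 2 p) G)) 2 = K := by
  obtain ⟨HG, hGG⟩ := er_inv H hG hGE
  have hT : Ti n G p A := ⟨⟨hA, z, h1⟩, hc⟩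
  have hn : 0 < cnt G 0 := by
    rw [HG.c0]
    have := HG.h4
    omega
  have hT0 : Ti n G 0 A := hv_loc hn (p z) (fun x hx => by rw [hconst x hx, Pi.zero_apply, zero_add]) hT
  have hL : Lv G z A := ⟨h1, h2, by rw [(hv_ti0.1 hT0).2, RtG9_cz HG hz]⟩
  refine ⟨act (wh z A) G, ?_, _, tr_pot G hz hA h1 h2 hconst, ?_⟩
  · exact Relation.ReflTransGen.tail hGE (Or.inl ⟨z, A, hz, hA, hL, rfl⟩)
  · rw [cnt_wh_ne _ z A (Ne.symm hz), hp]

/-- light cuts -/
theorem RtG9_light {n K : ℕ} {V : CC} (H : Hv n K V) (hG : GdC n V) {G : CC} (hGE : G ∈ ER n V)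
    {p : Fin 3 × Bool → ℤ} (hp : cnt (act (pot 2 p) G) 2 = K) {z : Fin 3 × Bool} {A : Ct}
    (hz : z.1 ≠ 2) (hA : Lt A) (h1 : A z = true) (h2 : A (bar z) = false)
    (hc : capC (act (pot 2 p) G) A = n) :
    ∃ G' ∈ ER n V, ∃ p' : Fin 3 × Bool → ℤ,
      act (wh z A) (act (pot 2 p) G) = act (pot 2 p') G' ∧ cnt (act (wh z A) (act (pot 2 p) G)) 2 = K := by
  by_cases hconst : ∀ x, A x = true → p x = p z
  · exact RtG9_const H hG hGE hp hz hA h1 h2 hc hconst
  · push Not at hconst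
    obtain ⟨x, hx, hxz⟩ := hconst
    obtain ⟨HG, hGG⟩ := er_inv H hG hGE
    have hT : Ti n G p A := ⟨⟨hA, z, h1⟩, hc⟩
    obtain ⟨U, I, κ, hR, hAU, ⟨t, ht⟩, -, -⟩ := good_win HG hGG hT ⟨x, z, hx, h1, hxz⟩
    have hG' : act (pot 2 (fun x => κ * ind I x)) G ∈ ER n V :=
      Relation.ReflTransGen.tail hGE (Or.inr ⟨U, I, κ, hR, rfl⟩)
    have he : act (pot 2 p) G = act (pot 2 (p - fun x => κ * ind I x)) (act (pot 2 (fun x => κ * ind I x)) G) := by
      rw [pot_add, sub_add_cancel]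
    rw [he] at hp hc ⊢
    refine RtG9_const H hG hG' hp hz hA h1 h2 hc fun y hy => ?_
    rw [Pi.sub_apply, Pi.sub_apply, ht y hy, ht z h1]
    ring

theorem r2_cover {n K : ℕ} {V : CC} (H : Hv n K V) (hG : GdC n V) {d : CC} (hd : d ∈ orb V) :
    ∃ (σ : SPerm (Fin 3)) (G : CC) (p : Fin 3 × Bool → ℤ), G ∈ ER n V ∧
      cnt (act (pot 2 p) G) 2 = K ∧ d = act σ.aut (act (pot 2 p) G) := by
  obtain ⟨π, hπ, -, -⟩ := exists_SPerm_one
  have hmain := closure_principle H.hO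
    {W | ∃ G ∈ ER n V, ∃ p : Fin 3 × Bool → ℤ, W = act (pot 2 p) G ∧ cnt W 2 = K}
    ⟨π, V, ⟨V, Relation.ReflTransGen.refl, 0, (pot_zero 2 V).symm, H.c2⟩, (hπ V).symm⟩ ?_ d hd
  · obtain ⟨σ, e, ⟨G, hGE, p, rfl, hp⟩, hd'⟩ := hmain
    exact ⟨σ, G, p, hGE, hp, hd'⟩
  · rintro e ⟨G, hGE, p, rfl, hp⟩ hO z A h1 h2 hc
    refine ⟨π, act (wh z A) (act (pot 2 p) G), ?_, (hπ _).symm⟩
    obtain ⟨HG, hGG⟩ := er_inv H hG hGE
    have He := hv_orb HG hp
    by_cases hz : z.1 = 2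
    · refine ⟨G, hGE, whp z A + p, ?_, ?_⟩
      · rw [← pot_add, wh, hz]
      · have h3 := cnt_wh_self (act (pot 2 p) G) z A h1 h2
        rw [hc, hz, hp] at h3
        exact h3
    · rw [RtG9_cz He hz] at hc
      have hsep : A (2, true) = A (2, false) := by
        by_contra hne
        have h5 : ∃ y : Fin 3 × Bool, y.1 = 2 ∧ A y = true ∧ A (bar y) = false := by
          cases h3 : A (2, true)
          · refine ⟨(2, false), rfl, ?_, h3⟩
            rw [h3] at hne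
            cases h4 : A (2, false)
            · exact absurd h4.symm hne
            · rfl
          · refine ⟨(2, true), rfl, h3, ?_⟩
            rw [h3] at hne
            cases h4 : A (2, false)
            · exact h4
            · exact absurd h4.symm hne
        obtain ⟨y, hy, hy1, hy2⟩ := h5
        have h6 := hO.le_cap y A hy1 hy2
        rw [hy, hp, hc] at h6
        have := H.hK
        omega
      cases h3 : A (2, true)
      · have hA : Lt A := ⟨h3, by rw [← hsep]; exact h3⟩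
        obtain ⟨G', hG', p', h4, h5⟩ := RtG9_light H hG hGE hp hz hA h1 h2 hc
        exact ⟨G', hG', p', h4, h5⟩
      · have hA : Lt (fun x => !A x) := ⟨by simp [h3], by simp [← hsep, h3]⟩
        obtain ⟨G', hG', p', h4, h5⟩ := RtG9_light H hG hGE hp (z := bar z) (A := fun x => !A x) hz hA
          (by simp [h2]) (by simp [h1]) (by rw [capC_compl]; exact hc)
        rw [act_wh_compl] at h4 h5
        exact ⟨G', hG', p', h4, h5⟩

end Pool.Agent.Sims
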