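import Pool.Agent.Sims.RtPN
import Pool.Agent.Sims.RtG9
import Pool.Agent.Sims.RtDef2

/-!
# Module `RtD0` : a rotation whose window is the set of all light letters

* `rw_neg`: the complementary rotation: `κ 1_I = (-κ) 1_{U∖I} + κ 1_U` on all letters (`I ⊆ U`), and `κ 1_U` acts trivially on `V` and its images (`Clo 2 V U` from `hR.ec`, iterate `|κ|` times; induction on `κ.natAbs`; for negative multiples use
  `act (pot 2 (p + ind U)) V = act (pot 2 p) V` backwards).  `t1`: `hv_loc` with `t = κ` (on `U`: `κ 1_I = (-κ) 1_{U∖I} + κ`).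
* `e4_all`: `capC V U = n` (`hR.t0`, `pot_zero`), `U` and `PrC 2` are complementary (`hU`, `Lt U`): `capC V (PrC 2) = n` (`capC_compl`).  Let `s` be a syllable list (`hv_gl`), `gf s 0 = cnt V 2 = K` (`g_cnt`), `gc s 0 U = capC V U = n` (`g_cap`).  `rot_str` with `U` = all
  light letters: every gain is `0` or `± κ`.  `gf s 0 = Σ |gain| = |κ| m`, `m` the number of nonzero gains; `gc s 0 U = 2 m` (each syllable with nonzero gain contributes its two ends, both in `U`; a syllable with zero gain contributes `0`): `2 K = n |κ|`.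
* `e4_LL`: if `{c, c⁻¹}` has capacity `n`, every window `U` of a rotation is the set of all light letters: otherwise `Z = LL ∖ U` is nonempty, `LtN Z`, `capC V Z ≥ n` (`hv_low` with `q = 0`), `capC V U = n`; `hR.ec` (`q = 0`, `Z = LL`): `capC V LL = capC V U + capC V Z ≥ 2 n`;
  but `capC V LL = capC V (PrC 2) = n` (`capC_compl`), `n ≥ 4`.
* `e4_ext`: WLOG `κ > 0` (`rw_neg`; `|−κ| = |κ|`), `k = κ.toNat`.  All gains of `s` are `0, ± κ`: `s = s'.map (fun q => (q.1, (k:ℤ) * q.2))` with gains of `s'` in `{0, ±1}`, `Ω = cls (expand 2 s')`, `pw_syl`: `V = pw (e2 k) Ω`.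
  Counts: `pw_cnt`: `cnt Ω i = n` (`i ≠ 2`), `k * cnt Ω 2 = K`, so `2 cnt Ω 2 = n` (`2 K = n k`, `k ≥ 1`).  `BQ n PN Qc Ω`: `t`: `capC Ω (PrC 2) = capC V (PrC 2) = n` (`pw_cap`); `d`: clear; `e`: `h4`, counts (`pw_cnt`), and `low`: let `A` be
  proper.  `A (2,true) = A (2,false)`: `capC (sq Qc Ω) A = capC Ω A = capC V A ≥ n` (`pw_cap`, `H.lo`).  Otherwise `capC V A = capC Ω A + (k-1) cnt Ω 2` and `capC V A ≥ cnt V 2 = K = k cnt Ω 2` (`OMin.le_cap` for `z = (2, A (2,true))`), so `capC Ω A ≥ cnt Ω 2`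
  and `capC (sq Qc Ω) A = capC Ω A + cnt Ω 2 ≥ n`.
  Crossing: `C = {c} ∪ I`, `c = (2,true)`: `cnt (act (pot 2 (κ 1_I)) V) 2 = K` (`rot_cnt`), `= k * cnt (act (pot 2 (ind I)) Ω) 2` (`pw_pot`, `pw_cnt`), so `cnt (act (pot 2 (ind I)) Ω) 2 = cnt Ω 2`; `act (wh c C) Ω = act (pot 2 (ind I)) Ω` (`wh_pot`, `pot_congr`), and
  `capC Ω C = cnt (act (wh c C) Ω) 2 = cnt Ω 2` (`cnt_wh_self`).  `capC (sq Qc Ω) C = 2 cnt Ω 2 = n` (`pw_cap`).  `C` crosses `PrC 2`: `c ∈ C`, `c⁻¹ ∉ C` (`Lt I`), `I ≠ ∅`, some light letter is not in `I` (`hR.ne'`).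
Difficulty 4.
-/

namespace Pool.Agent.Sims

/-- exponent `k` on `c` -/
def e2 (k : ℕ) : Fin 3 → ℕ := Function.update (fun _ => 1) 2 k

private theorem RtD0_light {X : Ct} (hX : Lt X) {x : Fin 3 × Bool} (h : X x = true) : x.1 ≠ 2 := by
  intro h2
  obtain ⟨i, b⟩ := x
  simp only at h2
  subst h2
  cases b with
  | true => rw [hX.1] at h; exact Bool.noConfusion h
  | false => rw [hX.2] at h; exact Bool.noConfusion h

private theorem RtD0_iter {V : CC} {U : Ct} (h : Clo 2 V U) (k : ℤ) :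
    ∀ p : Fin 3 × Bool → ℤ, act (pot 2 (p + fun x => k * ind U x)) V = act (pot 2 p) V := by
  induction k using Int.induction_on with
  | zero =>
    intro p
    congr 2
    funext x
    simp
  | succ k ih =>
    intro p
    have h1 := h (p + fun x => (k : ℤ) * ind U x)
    rw [ih p] at h1
    rw [← h1]
    congr 2
    funext x
    simp only [Pi.add_apply]
    ring
  | pred k ih =>
    intro p
    have h1 := h (p + fun x => (-(k : ℤ) - 1) * ind U x)
    rw [← h1, ← ih p]
    congr 2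
    funext x
    simp only [Pi.add_apply]
    ring

theorem rw_neg {n K : ℕ} {V : CC} (H : Hv n K V) {U I : Ct} {κ : ℤ} (hR : RotW n V U I κ) :
    RotW n V U (fun x => U x && !I x) (-κ) ∧
    act (pot 2 (fun x => (-κ) * ind (fun x => U x && !I x) x)) V =
      act (pot 2 (fun x => κ * ind I x)) V := by
  have hV : 0 < cnt V 0 := by have := H.h4; rw [H.c0]; omega
  refine ⟨⟨by have := hR.h0; omega, hR.ec, hR.t0, ?_, ?_, ?_, ?_⟩, ?_⟩
  · refine hv_loc hV κ ?_ hR.t1
    intro x hx
    simp only [ind, hx, Bool.true_and]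
    cases I x <;> simp
  · intro x hx
    simp only [Bool.and_eq_true] at hx
    exact hx.1
  · obtain ⟨x, h1, h2⟩ := hR.ne'
    exact ⟨x, by simp [h1, h2]⟩
  · obtain ⟨x, h1⟩ := hR.ne
    exact ⟨x, hR.sub x h1, by simp [h1]⟩
  · rw [← RtD0_iter hR.ec.2.1 κ (fun x => (-κ) * ind (fun x => U x && !I x) x)]
    congr 2
    funext x
    simp only [Pi.add_apply, ind]
    rcases Bool.eq_false_or_eq_true (I x) with h1 | h1
    · simp [h1, hR.sub x h1]
    · rcases Bool.eq_false_or_eq_true (U x) with h2 | h2 <;> simp [h1, h2]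

private theorem RtD0_lin {β : Type*} (m : ℕ) (g : β → β → ℕ) : ∀ (l : List β) (x z : β),
    lin (fun a r => m * g a r) x l z = m * lin g x l z
  | [], x, z => rfl
  | y :: l, x, z => by
    rw [lin, lin, RtD0_lin m g l y z, mul_add]

private theorem RtD0_mul {β : Type*} (m : ℕ) (g : β → β → ℕ) (l : List β) :
    cyc (fun a r => m * g a r) l = m * cyc g l := by
  cases l with
  | nil => rfl
  | cons x l => exact RtD0_lin m g l x x

private theorem RtD0_prc {n : ℕ} {V : CC} {U : Ct} (hT : Ti n V 0 U)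
    (hU : ∀ x : Fin 3 × Bool, x.1 ≠ 2 → U x = true) : capC V (PrC 2) = n := by
  obtain ⟨⟨hL, _⟩, h1⟩ := hv_ti0.1 hT
  rw [← h1, ← capC_compl V U]
  apply capC_congr
  intro x
  by_cases hx : x.1 = 2
  · have h2 : U x = false := by
      by_contra hc
      exact RtD0_light hL (by simpa using hc) hx
    simp [PrC, hx, h2]
  · simp [PrC, hx, hU x hx]

theorem e4_all {n K : ℕ} {V : CC} (H : Hv n K V) {U I : Ct} {κ : ℤ} (hR : RotW n V U I κ)
    (hU : ∀ x : Fin 3 × Bool, x.1 ≠ 2 → U x = true) :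
    capC V (PrC 2) = n ∧ 2 * K = n * κ.natAbs := by
  refine ⟨RtD0_prc hR.t0 hU, ?_⟩
  obtain ⟨s, _, hs, hV⟩ := hv_gl H
  have h1 := g_cnt hs hV 0
  rw [pot_zero, H.c2] at h1
  have h2 := g_cap hs hV 0 hR.t0.1.1
  rw [hR.t0.2] at h2
  have hst := rot_str H hR hs hV
  have key : 2 * gf s 0 = κ.natAbs * gc s 0 U := by
    unfold gf gc
    rw [← RtD0_mul, ← RtD0_mul]
    refine EvLem2_cyc s hst ?_
    intro a ha r hr hG
    have hc : U a.1 = U (bar r.1) ∧ (U a.1 = true →
      (I a.1 = I (bar r.1) → a.2 = 0) ∧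
      (I a.1 = true → I (bar r.1) = false → (a.2 = 0 ∨ a.2 = -κ)) ∧
      (I a.1 = false → I (bar r.1) = true → (a.2 = 0 ∨ a.2 = κ))) := by
      by_contra hcon
      rw [if_neg hcon] at hG
      exact absurd hG (by decide)
    have hUa : U a.1 = true := hU _ (hs.1 a ha)
    have hUr : U (bar r.1) = true := hU _ (by rw [bar_fst]; exact hs.1 r hr)
    obtain ⟨_, h3⟩ := hc
    obtain ⟨h4, h5, h6⟩ := h3 hUa
    have h7 : a.2 = 0 ∨ a.2 = κ ∨ a.2 = -κ := by
      cases hI : I a.1 <;> cases hI' : I (bar r.1)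
      · exact Or.inl (h4 (by rw [hI, hI']))
      · rcases h6 hI hI' with h | h
        · exact Or.inl h
        · exact Or.inr (Or.inl h)
      · rcases h5 hI hI' with h | h
        · exact Or.inl h
        · exact Or.inr (Or.inr h)
      · exact Or.inl (h4 (by rw [hI, hI']))
    have hk := hR.h0
    simp only [Pi.zero_apply, add_zero, sub_zero, hUa, hUr, if_true]
    rcases h7 with h | h | h
    · simp [h]
    · have : a.2 ≠ 0 := by omega
      rw [if_neg this, h]
      omega
    · have : a.2 ≠ 0 := by omega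
      rw [if_neg this, h, Int.natAbs_neg]
      omega
  rw [← h1, ← h2] at key
  rw [key, mul_comm]

theorem e4_LL {n K : ℕ} {V : CC} (H : Hv n K V) (hT : capC V (PrC 2) = n) {U I : Ct} {κ : ℤ}
    (hR : RotW n V U I κ) : ∀ x : Fin 3 × Bool, x.1 ≠ 2 → U x = true := by
  intro x hx
  by_contra hcon
  have hUx : U x = false := by simpa using hcon
  have hZ : LtN (fun y => LL y && !U y) := by
    refine ⟨⟨rfl, rfl⟩, x, ?_⟩
    simp [LL, hx, hUx]
  have h1 := hv_low H 0 hZ
  have h2 := hR.ec.2.2 0 LL ⟨rfl, rfl⟩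
  have h3 := hR.t0.2
  have h4 : capC (act (pot 2 0) V) (fun y => LL y && U y) = capC (act (pot 2 0) V) U := by
    apply capC_congr
    intro y
    cases hy : U y with
    | false => simp
    | true => simp [LL, RtD0_light hR.t0.1.1 hy]
  rw [pot_zero] at h1 h2 h3 h4
  have h5 : capC V LL = capC V (PrC 2) := by
    rw [← capC_compl V LL]
    apply capC_congr
    intro y
    simp [LL, PrC]
  have := H.h4
  omega

private theorem RtD0_sum {A : Ct} (e : Fin 3 → ℕ) (V : CC) (h0 : e 0 = 1) (h1 : e 1 = 1) :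
    (∑ i : Fin 3, (if A (i, true) = A (i, false) then 0 else (e i - 1) * cnt V i)) =
      (if A (2, true) = A (2, false) then 0 else (e 2 - 1) * cnt V 2) := by
  rw [Fin.sum_univ_three, h0, h1]
  simp

private theorem RtD0_e2 {k : ℕ} (hk : 1 ≤ k) : ∀ i, 1 ≤ e2 k i := by
  intro i
  unfold e2
  by_cases hi : i = 2
  · subst hi
    rw [Function.update_self]
    exact hk
  · rw [Function.update_of_ne hi]

private theorem RtD0_capk {k : ℕ} (hk : 1 ≤ k) (V : CC) (A : Ct) :
    capC (pw (e2 k) V) A = capC V A +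
      (if A (2, true) = A (2, false) then 0 else (k - 1) * cnt V 2) := by
  rw [pw_cap (RtD0_e2 hk), RtD0_sum (e2 k) V rfl rfl]
  rfl

private theorem RtD0_caps (V : CC) (A : Ct) :
    capC (sq Qc V) A = capC V A + (if A (2, true) = A (2, false) then 0 else cnt V 2) := by
  unfold sq
  rw [pw_cap (e := fun i => if Qc i then 2 else 1) (by
    intro i
    split <;> decide), RtD0_sum (fun i => if Qc i then 2 else 1) V rfl rfl]
  congr 1
  split
  · rfl
  · show (2 - 1) * cnt V 2 = cnt V 2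
    omega

private theorem RtD0_cnts (V : CC) (i : Fin 3) :
    cnt (sq Qc V) i = (if Qc i then 2 else 1) * cnt V i := by
  unfold sq
  rw [pw_cnt (e := fun i => if Qc i then 2 else 1) (by
    intro i
    split <;> decide)]

private theorem RtD0_pos {n K : ℕ} {V : CC} (H : Hv n K V) {U I : Ct} {κ : ℤ}
    (hR : RotW n V U I κ) (hκ : 0 < κ)
    (hU : ∀ x : Fin 3 × Bool, x.1 ≠ 2 → U x = true) :
    ∃ (k : ℕ) (Ω : CC), 1 ≤ k ∧ 2 * K = n * k ∧ V = pw (e2 k) Ω ∧ BQ n PN Qc Ω ∧
      VX n (sq Qc Ω) (PrC 2) := by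
  obtain ⟨hall1, hall2⟩ := e4_all H hR hU
  obtain ⟨s, _, hs, hV⟩ := hv_gl H
  have hst := rot_str H hR hs hV
  have hgain : ∀ a ∈ s, a.2 = 0 ∨ a.2 = κ ∨ a.2 = -κ := by
    have h1 : cyc (fun a _ => if (a.2 = 0 ∨ a.2 = κ ∨ a.2 = -κ) then 0 else 1) s =
        cyc (fun (_ _ : (Fin 3 × Bool) × ℤ) => 0) s := by
      refine EvLem2_cyc s hst ?_
      intro a ha r hr hG
      have hc : U a.1 = U (bar r.1) ∧ (U a.1 = true →
        (I a.1 = I (bar r.1) → a.2 = 0) ∧
        (I a.1 = true → I (bar r.1) = false → (a.2 = 0 ∨ a.2 = -κ)) ∧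
        (I a.1 = false → I (bar r.1) = true → (a.2 = 0 ∨ a.2 = κ))) := by
        by_contra hcon
        rw [if_neg hcon] at hG
        exact absurd hG (by decide)
      have hUa : U a.1 = true := hU _ (hs.1 a ha)
      obtain ⟨_, h3⟩ := hc
      obtain ⟨h4, h5, h6⟩ := h3 hUa
      have h7 : a.2 = 0 ∨ a.2 = κ ∨ a.2 = -κ := by
        cases hI : I a.1 <;> cases hI' : I (bar r.1)
        · exact Or.inl (h4 (by rw [hI, hI']))
        · rcases h6 hI hI' with h | h
          · exact Or.inl h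
          · exact Or.inr (Or.inl h)
        · rcases h5 hI hI' with h | h
          · exact Or.inl h
          · exact Or.inr (Or.inr h)
        · exact Or.inl (h4 (by rw [hI, hI']))
      rw [if_pos h7]
    rw [cyc_fst, cyc_fst] at h1
    have h2 : (s.map (fun (_ : (Fin 3 × Bool) × ℤ) => 0)).sum = 0 := by simp
    rw [h2] at h1
    intro a ha
    have h3 := List.sum_eq_zero_iff.1 h1
      (if (a.2 = 0 ∨ a.2 = κ ∨ a.2 = -κ) then 0 else 1) (List.mem_map.2 ⟨a, ha, rfl⟩)
    by_contra hcon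
    rw [if_neg hcon] at h3
    exact absurd h3 (by decide)
  obtain ⟨k, hk⟩ : ∃ k : ℕ, (k : ℤ) = κ := ⟨κ.toNat, Int.toNat_of_nonneg hκ.le⟩
  have hk1 : 1 ≤ k := by omega
  have hkn : κ.natAbs = k := by omega
  set s' := s.map (fun q => (q.1, q.2 / κ)) with hs'
  have hs2 : s'.map (fun q => (q.1, (k : ℤ) * q.2)) = s := by
    rw [hs', List.map_map]
    conv_rhs => rw [← List.map_id s]
    apply List.map_congr_left
    intro a ha
    simp only [Function.comp, id]
    refine Prod.ext rfl ?_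
    simp only
    rw [hk]
    rcases hgain a ha with h | h | h
    · rw [h]; simp
    · rw [h, Int.ediv_self hκ.ne', mul_one]
    · rw [h, Int.neg_ediv_self κ hκ.ne']
      ring
  have hs'1 : ∀ q ∈ s', q.1.1 ≠ 2 := by
    intro q hq
    rw [hs', List.mem_map] at hq
    obtain ⟨a, ha, rfl⟩ := hq
    exact hs.1 a ha
  have hpw := pw_syl 2 k s' hs'1
  rw [hs2, hV] at hpw
  set Ω := cls (expand 2 s') with hΩ
  have hVe : pw (e2 k) Ω = V := hpw
  have hc := fun i => pw_cnt (RtD0_e2 hk1) Ω i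
  rw [hVe] at hc
  have hc0 : cnt Ω 0 = n := by
    have := hc 0
    rw [H.c0, show e2 k 0 = 1 from rfl, one_mul] at this
    exact this.symm
  have hc1 : cnt Ω 1 = n := by
    have := hc 1
    rw [H.c1, show e2 k 1 = 1 from rfl, one_mul] at this
    exact this.symm
  have hc2 : K = k * cnt Ω 2 := by
    have := hc 2
    rw [H.c2, show e2 k 2 = k from rfl] at this
    exact this
  rw [hkn] at hall2
  have hc2' : 2 * cnt Ω 2 = n := by
    have h1 : k * (2 * cnt Ω 2) = k * n := by
      rw [mul_comm k n, ← hall2, hc2]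
      ring
    exact Nat.eq_of_mul_eq_mul_left (by omega) h1
  have hcap := fun A => RtD0_capk hk1 Ω A
  rw [hVe] at hcap
  have hP : capC Ω (PrC 2) = n := by
    have := hcap (PrC 2)
    rw [if_pos (show PrC 2 (2, true) = PrC 2 (2, false) from rfl), add_zero, hall1] at this
    exact this.symm
  refine ⟨k, Ω, hk1, hall2, hVe.symm, ⟨⟨H.h4, ?_, ?_⟩, ?_, fun j _ h => h⟩, ?_⟩
  · intro i _
    rw [RtD0_cnts]
    fin_cases i
    · show (if Qc 0 then 2 else 1) * cnt Ω 0 = n
      rw [hc0, if_neg (by decide), one_mul]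
    · show (if Qc 1 then 2 else 1) * cnt Ω 1 = n
      rw [hc1, if_neg (by decide), one_mul]
    · show (if Qc 2 then 2 else 1) * cnt Ω 2 = n
      rw [if_pos (by decide)]
      exact hc2'
  · intro A hA
    rw [RtD0_caps]
    have h1 := hcap A
    by_cases hs2 : A (2, true) = A (2, false)
    · rw [if_pos hs2, add_zero] at h1 ⊢
      rw [← h1]
      exact H.lo V (orb_refl V) A hA.1
    · rw [if_neg hs2] at h1 ⊢
      have h2 : K ≤ capC V A := by
        rw [← H.c2]
        cases hb : A (2, true) with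
        | true =>
          have hb' : A (2, false) = false := by
            rw [hb] at hs2
            cases hf : A (2, false) with
            | true => rw [hf] at hs2; exact absurd rfl hs2
            | false => rfl
          exact OMin.le_cap H.hO (2, true) A hb hb'
        | false =>
          have hb' : A (2, false) = true := by
            rw [hb] at hs2
            cases hf : A (2, false) with
            | true => rfl
            | false => rw [hf] at hs2; exact absurd rfl hs2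
          exact OMin.le_cap H.hO (2, false) A hb' hb
      rw [h1, hc2] at h2
      obtain ⟨k', rfl⟩ : ∃ k', k = k' + 1 := ⟨k - 1, by omega⟩
      rw [Nat.add_sub_cancel, add_mul, one_mul] at h2
      omega
  · intro j hj
    have hj2 : j = 2 := by simpa [Qc] using hj
    subst hj2
    exact hP
  · have hL := hR.t0.1.1
    have hIL : ∀ x, I x = true → x.1 ≠ 2 := fun x hx => RtD0_light hL (hR.sub x hx)
    have hI2 : I (2, false) = false := by
      by_contra hcon
      exact hIL (2, false) (by simpa using hcon) rfl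
    let C : Ct := fun x => decide (x = (2, true)) || I x
    have hC1 : C (2, true) = true := by simp [C]
    have hC2 : C (2, false) = false := by simp [C, hI2]
    obtain ⟨x1, hx1⟩ := hR.ne
    obtain ⟨x2, hx2, hx2'⟩ := hR.ne'
    have hx2l := RtD0_light hL hx2
    have hcr : Crossg C (PrC 2) := by
      refine ⟨⟨(2, true), hC1, rfl⟩, ⟨x1, ?_, ?_⟩, ⟨(2, false), hC2, rfl⟩, ⟨x2, ?_, ?_⟩⟩
      · simp [C, hx1]
      · exact decide_eq_false (hIL x1 hx1)
      · have : x2 ≠ (2, true) := fun h => hx2l (by rw [h])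
        simp [C, this, hx2']
      · exact decide_eq_false hx2l
    refine ⟨C, ⟨⟨⟨_, hC1⟩, ⟨_, hC2⟩⟩, ?_⟩, hcr⟩
    rw [RtD0_caps, if_neg (by rw [hC1, hC2]; decide)]
    have h1 := cnt_wh_self Ω (2, true) C hC1 hC2
    have h2 : act (wh (2, true) C) Ω = act (pot 2 (ind I)) Ω := by
      rw [wh_pot]
      apply pot_congr
      intro x hx
      have : x ≠ (2, true) := fun h => hx (by rw [h])
      simp [ind, C, this]
    rw [h2] at h1
    have h3 := rot_cnt H hR
    have h4 := pw_pot (e := e2 k) (j := 2) (p := ind I) (by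
      intro i hi he
      exact absurd (Function.update_of_ne hi _ _) he) Ω
    rw [hVe, show e2 k 2 = k from rfl, hk] at h4
    rw [← h4, pw_cnt (RtD0_e2 hk1), show e2 k 2 = k from rfl, hc2] at h3
    have h5 := Nat.eq_of_mul_eq_mul_left (by omega : 0 < k) h3
    rw [h5] at h1
    rw [← h1]
    show cnt Ω 2 + cnt Ω 2 = n
    omega

theorem e4_ext {n K : ℕ} {V : CC} (H : Hv n K V) {U I : Ct} {κ : ℤ} (hR : RotW n V U I κ)
    (hU : ∀ x : Fin 3 × Bool, x.1 ≠ 2 → U x = true) :
    ∃ (k : ℕ) (Ω : CC), 1 ≤ k ∧ 2 * K = n * k ∧ V = pw (e2 k) Ω ∧ BQ n PN Qc Ω ∧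
      VX n (sq Qc Ω) (PrC 2) := by
  rcases lt_or_gt_of_ne hR.h0 with h | h
  · exact RtD0_pos H (rw_neg H hR).1 (by omega) hU
  · exact RtD0_pos H hR h hU

end Pool.Agent.Sims
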