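import Pool.Agent.Sims.RtD0

/-!
# Module `RtD1` : the charts reachable by light moves and rotations, window = all light letters

`W = pw (e2 k) Ω'`, `Ω' ∈ SQ PN Qc ⊤ Ω`, `2 K = n k`.
* `pw_hv`: induction on the path.  `BQ n PN Qc Ω'` (`pn_sq`).  Step `Ω'' = act (wh z A) Ω'`, `Lv Ω' z A`, `QF Qc z.1 A`.  (1) `z.1 ≠ 2`: `A (2,true) = A (2,false)`; `pw_wh`: `pw (e2 k) Ω'' = act (wh z A) (pw (e2 k) Ω')`; `Lv (pw (e2 k) Ω') z A` (`pw_cap`, `pw_cnt`);
  `hv_lv`.  (2) `z.1 = 2`: `wh z A = pot 2 (whp z A)`, `pw_pot`: `pw (e2 k) Ω'' = act (pot 2 (k · whp z A)) (pw (e2 k) Ω')`, its count of `c` is `k * cnt Ω'' 2 = K` (`pw_cnt`, `bq_cnt`, `2 K = n k`): `hv_orb`.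
  `capC (pw (e2 k) Ω') (PrC 2) = capC Ω' (PrC 2) = n` (`pw_cap`, `BQ.t`).
* `er_e4`: induction on the path in `ER n V`.  `H' : Hv n K W` (`er_inv`), `W = pw (e2 k) Ω'`.  (1) light move `z, A`, `z.1 ≠ 2`, `Lt A`: `A` vanishes on `c^{±1}`: `pw_wh`, `Lv Ω' z A` (`pw_cap`, `pw_cnt`): `SQ_step`.  (2) rotation `U, I, κ`: by `e4_LL` (`capC W (PrC 2) = n`,
  `pw_hv`) and `e4_all`: `2 K = n |κ|`, so `|κ| = k` (`n ≥ 4`).  WLOG `κ = k` (`rw_neg` gives the window `U`, `J = U ∖ I`, and the same class).  `act (pot 2 (k 1_J)) W = pw (e2 k) (act (pot 2 (ind J)) Ω')` (`pw_pot`), and by `rot_cnt` and `pw_cnt`: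
  `cnt (act (pot 2 (ind J)) Ω') 2 = cnt Ω' 2`: this is the level move `wh (2,true) ({(2,true)} ∪ J)` of `Ω'` (`wh_pot`, `pot_congr`; `capC Ω' A = cnt (act (wh ..) Ω') 2`, `cnt_wh_self`): `SQ_step` (`QF Qc 2 _` is empty).
* `lvl_step`: `cnt (act (pot 2 (ind Y)) Ω') 2 = cnt Ω' 2` implies `act (pot 2 (ind Y)) Ω' ∈ SQ PN Qc ⊤ Ω'` (as in (2)).
* `lvl_one`: if `2 cnt Ω' 2 = capC Ω' (PrC 2)` (all gains of `Ω'` are `0, ± 1`: with a syllable list `s'`, `cnt Ω' 2 = Σ |gain|`, `capC Ω' (PrC 2) = gc s' 0 LL = 2 · #(nonzero gains)`), `k ≥ 1`, and `cnt (act (pot 2 (ind Y)) (pw (e2 k) Ω')) 2 = cnt (pw (e2 k) Ω') 2`, then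
  `cnt (act (pot 2 (ind Y)) Ω') 2 = cnt Ω' 2`.  `pw (e2 k) Ω' = cls (expand 2 (s'.map (k ·)))` (`pw_syl`), `gf` of both lists at `ind Y` (`g_cnt`): a syllable with gain `g ∈ {0, ±1}` and shift `d ∈ {0, ±1}` contributes `|k g + d|`, resp. `|g + d|`, and
  `|k g + d| - |k g| = |g + d| - |g|` for all `g, d ∈ {-1,0,1}`, `k ≥ 1`.  Sum up (`SValid` for the mapped list: `k ≠ 0`, as `s'` is valid).
Difficulty 4.
-/

namespace Pool.Agent.Sims

theorem RtD1_he {k : ℕ} (hk : 1 ≤ k) : ∀ i, 1 ≤ e2 k i := by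
  intro i
  unfold e2
  by_cases hi : i = 2
  · subst hi
    simpa using hk
  · rw [Function.update_of_ne hi]

theorem RtD1_e2 (k : ℕ) : e2 k 2 = k := by simp [e2]

theorem RtD1_ene {k : ℕ} {i : Fin 3} (hi : i ≠ 2) : e2 k i = 1 := by
  simp [e2, hi]

/-- capacity of a cut which does not separate `c, c⁻¹` -/
theorem RtD1_cap {k : ℕ} (hk : 1 ≤ k) {A : Ct} (hA : A (2, true) = A (2, false)) (V : CC) :
    capC (pw (e2 k) V) A = capC V A := by
  have h := pw_cap (RtD1_he hk) V A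
  have h0 : (∑ i : Fin 3, (if A (i, true) = A (i, false) then 0 else
      (e2 k i - 1) * cnt V i)) = 0 := by
    apply Finset.sum_eq_zero
    intro i _
    by_cases hi : i = 2
    · subst hi
      rw [if_pos hA]
    · rw [RtD1_ene hi]
      simp
  rw [h0, add_zero] at h
  exact h

theorem RtD1_cnt {k : ℕ} (hk : 1 ≤ k) {i : Fin 3} (hi : i ≠ 2) (V : CC) :
    cnt (pw (e2 k) V) i = cnt V i := by
  rw [pw_cnt (RtD1_he hk), RtD1_ene hi, one_mul]

theorem RtD1_cnt2 {k : ℕ} (hk : 1 ≤ k) (V : CC) : cnt (pw (e2 k) V) 2 = k * cnt V 2 := by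
  rw [pw_cnt (RtD1_he hk), RtD1_e2]

theorem RtD1_wh {k : ℕ} {z : Fin 3 × Bool} {A : Ct} (hz : z.1 ≠ 2)
    (hA : A (2, true) = A (2, false)) (V : CC) :
    pw (e2 k) (act (wh z A) V) = act (wh z A) (pw (e2 k) V) := by
  apply pw_wh (RtD1_ene hz)
  intro i _ hi'
  have : i = 2 := by
    by_contra h
    exact hi' (RtD1_ene h)
  subst this
  exact hA

theorem RtD1_pot (k : ℕ) (p : Fin 3 × Bool → ℤ) (V : CC) :
    pw (e2 k) (act (pot 2 p) V) = act (pot 2 (fun x => (k : ℤ) * p x)) (pw (e2 k) V) := by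
  have h := pw_pot (e := e2 k) (j := 2) (p := p)
    (fun i hi hi' => absurd (RtD1_ene hi) hi') V
  rw [RtD1_e2] at h
  exact h

theorem RtD1_Lv {k : ℕ} (hk : 1 ≤ k) {z : Fin 3 × Bool} {A : Ct} (hz : z.1 ≠ 2)
    (hA : A (2, true) = A (2, false)) (V : CC) : Lv (pw (e2 k) V) z A ↔ Lv V z A := by
  constructor
  · intro h
    have h3 := h.2.2
    rw [RtD1_cap hk hA, RtD1_cnt hk hz] at h3
    exact ⟨h.1, h.2.1, h3⟩
  · intro h
    refine ⟨h.1, h.2.1, ?_⟩
    rw [RtD1_cap hk hA, RtD1_cnt hk hz]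
    exact h.2.2

theorem RtD1_PF (A : Ct) : PF PN A := fun _ h => absurd h (fun h => h)

theorem RtD1_Qc : Qc 2 = true := by simp [Qc]

theorem pw_hv {n K k : ℕ} {Ω Ω' : CC} (hk : 1 ≤ k) (hK : 2 * K = n * k) (B : BQ n PN Qc Ω)
    (H : Hv n K (pw (e2 k) Ω)) (h : Ω' ∈ SQ PN Qc (fun _ => True) Ω) :
    Hv n K (pw (e2 k) Ω') ∧ capC (pw (e2 k) Ω') (PrC 2) = n := by
  have key : Hv n K (pw (e2 k) Ω') := by
    have h1 : Relation.ReflTransGen (StQ PN Qc (fun _ => True)) Ω Ω' := h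
    clear h
    induction h1 with
    | refl => exact H
    | @tail Ω1 Ω2 hp h3 ih =>
      have hmem : Ω2 ∈ SQ PN Qc (fun _ => True) Ω := Relation.ReflTransGen.tail hp h3
      have B2 := (pn_sq B hmem).1
      obtain ⟨z, A, -, hA, -, hQ, rfl⟩ := h3
      by_cases hz : z.1 = 2
      · have e1 : act (wh z A) Ω1 = act (pot 2 (whp z A)) Ω1 := by
          unfold wh
          rw [hz]
        have e2' : pw (e2 k) (act (wh z A) Ω1) =
            act (pot 2 (fun x => (k : ℤ) * whp z A x)) (pw (e2 k) Ω1) := by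
          rw [e1, RtD1_pot]
        have h5 : cnt (pw (e2 k) (act (wh z A) Ω1)) 2 = K := by
          rw [RtD1_cnt2 hk]
          have h6 := bq_cnt B2 RtD1_Qc
          have h7 : 2 * (k * cnt (act (wh z A) Ω1) 2) = 2 * K := by
            rw [hK, ← h6]
            ring
          omega
        rw [e2'] at h5 ⊢
        exact hv_orb ih h5
      · have hA2 : A (2, true) = A (2, false) := hQ 2 RtD1_Qc (fun h => hz h.symm)
        rw [RtD1_wh hz hA2]
        exact hv_lv ih ((RtD1_Lv hk hz hA2 Ω1).2 hA)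
  refine ⟨key, ?_⟩
  have B' := (pn_sq B h).1
  rw [RtD1_cap hk (A := PrC 2) (by simp [PrC])]
  exact B'.t 2 RtD1_Qc

theorem lvl_step {Ω Ω' : CC} (h : Ω' ∈ SQ PN Qc (fun _ => True) Ω) {Y : Ct}
    (hY : cnt (act (pot 2 (ind Y)) Ω') 2 = cnt Ω' 2) :
    act (pot 2 (ind Y)) Ω' ∈ SQ PN Qc (fun _ => True) Ω := by
  set A : Ct := fun x => if x.1 = 2 then x.2 else Y x with hA
  have e1 : act (wh (2, true) A) Ω' = act (pot 2 (ind Y)) Ω' := by
    rw [wh_pot]
    apply pot_congr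
    intro x hx
    simp [ind, hA, hx]
  have hA1 : A (2, true) = true := by simp [hA]
  have hA2 : A (bar (2, true)) = false := by simp [hA, bar]
  have hL : Lv Ω' (2, true) A := by
    refine ⟨hA1, hA2, ?_⟩
    have h1 := cnt_wh_self Ω' (2, true) A hA1 hA2
    rw [e1] at h1
    show capC Ω' A = cnt Ω' 2
    rw [← hY]
    exact h1.symm
  rw [← e1]
  refine SQ_step h (z := (2, true)) trivial hL (RtD1_PF A) ?_
  intro i hi hi'
  simp only [Qc, decide_eq_true_eq] at hi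
  exact absurd hi hi'

theorem RtD1_sum {β : Type*} (l : List β) (f g : β → ℕ) (h : ∀ x ∈ l, f x ≤ g x)
    (he : (l.map g).sum = (l.map f).sum) : ∀ x ∈ l, f x = g x := by
  induction l with
  | nil => intro x hx; simp at hx
  | cons a l ih =>
    have h1 : f a ≤ g a := h a (by simp)
    have h2 : (l.map f).sum ≤ (l.map g).sum := by
      apply List.sum_le_sum
      intro x hx
      exact h x (List.mem_cons_of_mem _ hx)
    simp only [List.map_cons, List.sum_cons] at he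
    intro x hx
    rcases List.mem_cons.1 hx with rfl | hx
    · omega
    · exact ih (fun y hy => h y (List.mem_cons_of_mem _ hy)) (by omega) x hx

theorem RtD1_light {s : List ((Fin 3 × Bool) × ℤ)} (hs : SValid 2 s) :
    ∀ e ∈ EvPatE_pr s, e.1.1.1 ≠ 2 ∧ e.2.1.1 ≠ 2 := by
  intro e he
  have h1 := List.of_mem_zip (a := e.1) (b := e.2) he
  refine ⟨hs.1 _ h1.1, hs.1 _ ?_⟩
  exact List.mem_rotate.1 h1.2

theorem RtD1_term {k : ℕ} (hk : 1 ≤ k) {g d : ℤ} (hg : g.natAbs ≤ 1) (hd : d.natAbs ≤ 1) :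
    ((k : ℤ) * g + d).natAbs + g.natAbs = (g + d).natAbs + ((k : ℤ) * g).natAbs := by
  have h1 : g = -1 ∨ g = 0 ∨ g = 1 := by omega
  rcases h1 with rfl | rfl | rfl
  · simp only [mul_neg, mul_one]
    omega
  · simp
  · simp only [mul_one]
    omega

theorem lvl_one {k : ℕ} (hk : 1 ≤ k) {Ω' : CC} (hp : ∀ i, 0 < cnt Ω' i)
    (h1 : 2 * cnt Ω' 2 = capC Ω' (PrC 2)) {Y : Ct}
    (hY : cnt (act (pot 2 (ind Y)) (pw (e2 k) Ω')) 2 = cnt (pw (e2 k) Ω') 2) :
    cnt (act (pot 2 (ind Y)) Ω') 2 = cnt Ω' 2 := by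
  obtain ⟨s, -, hs, hV⟩ := exists_syl 2 Ω' ⟨0, by decide, hp 0⟩
  set g : (Fin 3 × Bool) × ℤ → (Fin 3 × Bool) × ℤ := fun q => (q.1, (k : ℤ) * q.2) with hg
  have hk0 : k ≠ 0 := by omega
  -- the mapped list
  have hs1 : ∀ q ∈ s.map g, q.1.1 ≠ 2 := by
    intro q hq
    obtain ⟨r, hr, rfl⟩ := List.mem_map.1 hq
    exact hs.1 r hr
  have hs2 : SValid 2 (s.map g) := by
    rw [SValid_iff 2 _ hs1, Rel_cyc_map]
    have h2 := (SValid_iff 2 s hs.1).1 hs
    have h3 : (fun q r : (Fin 3 × Bool) × ℤ => if (g r).1 = bar (g q).1 ∧ (g q).2 = 0 then 1 else 0)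
        = (fun q r : (Fin 3 × Bool) × ℤ => if r.1 = bar q.1 ∧ q.2 = 0 then 1 else 0) := by
      funext q r
      simp [hg, hk0]
    rw [h3]
    exact h2
  have hV2 : cls (expand 2 (s.map g)) = pw (e2 k) Ω' := by
    rw [← hV]
    exact (pw_syl 2 k s hs.1).symm
  have c1 : cnt (act (pot 2 (ind Y)) (pw (e2 k) Ω')) 2 = gf (s.map g) (ind Y) := g_cnt hs2 hV2 _
  have c2 : cnt (pw (e2 k) Ω') 2 = gf (s.map g) 0 := by
    rw [← g_cnt hs2 hV2 0, pot_zero]
  have c3 : cnt (act (pot 2 (ind Y)) Ω') 2 = gf s (ind Y) := g_cnt hs hV _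
  have c4 : cnt Ω' 2 = gf s 0 := by
    rw [← g_cnt hs hV 0, pot_zero]
  have c5 : capC Ω' (PrC 2) = gc s 0 LL := by
    rw [← g_cap hs hV 0 (Y := LL) (by constructor <;> simp [LL]), pot_zero, ← capC_compl Ω' LL]
    congr 1
    funext x
    simp [LL, PrC]
  -- as sums
  set L := EvPatE_pr s with hL
  have d3 : gf s (ind Y) = (L.map (fun p => (p.1.2 + ind Y p.1.1 - ind Y (bar p.2.1)).natAbs)).sum := by
    rw [gf, EvPatE_cyc]
  have d4 : gf s 0 = (L.map (fun p => (p.1.2).natAbs)).sum := by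
    rw [gf, EvPatE_cyc]
    simp [hL]
  have d1 : gf (s.map g) (ind Y) =
      (L.map (fun p => ((k : ℤ) * p.1.2 + ind Y p.1.1 - ind Y (bar p.2.1)).natAbs)).sum := by
    rw [gf, Rel_cyc_map, EvPatE_cyc]
  have d2 : gf (s.map g) 0 = (L.map (fun p => ((k : ℤ) * p.1.2).natAbs)).sum := by
    rw [gf, Rel_cyc_map, EvPatE_cyc]
    simp [hL, hg]
  have d5 : gc s 0 LL = (L.map (fun p => if p.1.2 = 0 then 0 else 2)).sum := by
    rw [gc, EvPatE_cyc]
    congr 1
    apply List.map_congr_left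
    intro p hp'
    obtain ⟨l1, l2⟩ := RtD1_light hs p hp'
    have l3 : LL p.1.1 = true := by simp [LL, l1]
    have l4 : LL (bar p.2.1) = true := by simp [LL, l2]
    simp only [Pi.zero_apply, add_zero, sub_zero, l3, l4, if_true]
  have e1 : ∀ p ∈ L, (if p.1.2 = 0 then 0 else 2) = 2 * (p.1.2).natAbs := by
    apply RtD1_sum
    · intro p _
      split_ifs with h0
      · omega
      · omega
    · rw [List.sum_map_mul_left, ← d4, ← d5, ← c4, ← c5, h1]
  have e2' : ∀ p ∈ L, (p.1.2).natAbs ≤ 1 := by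
    intro p hp'
    have := e1 p hp'
    split_ifs at this with h0
    · omega
    · omega
  have e3 : (L.map (fun p => ((k : ℤ) * p.1.2 + ind Y p.1.1 - ind Y (bar p.2.1)).natAbs)).sum +
      (L.map (fun p => (p.1.2).natAbs)).sum =
      (L.map (fun p => (p.1.2 + ind Y p.1.1 - ind Y (bar p.2.1)).natAbs)).sum +
      (L.map (fun p => ((k : ℤ) * p.1.2).natAbs)).sum := by
    rw [← List.sum_map_add, ← List.sum_map_add]
    congr 1
    apply List.map_congr_left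
    intro p hp'
    have hd : (ind Y p.1.1 - ind Y (bar p.2.1)).natAbs ≤ 1 := by
      unfold ind
      split_ifs <;> simp
    have h2 := RtD1_term hk (e2' p hp') hd
    have h3 : (k : ℤ) * p.1.2 + ind Y p.1.1 - ind Y (bar p.2.1) =
        (k : ℤ) * p.1.2 + (ind Y p.1.1 - ind Y (bar p.2.1)) := by ring
    have h4 : p.1.2 + ind Y p.1.1 - ind Y (bar p.2.1) =
        p.1.2 + (ind Y p.1.1 - ind Y (bar p.2.1)) := by ring
    rw [h3, h4]
    exact h2
  rw [← d1, ← d2, ← d3, ← d4, ← c1, ← c2, ← c3, ← c4] at e3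
  omega

theorem er_e4 {n K k : ℕ} {V Ω : CC} (H : Hv n K V) (hG : GdC n V) (hk : 1 ≤ k)
    (hK : 2 * K = n * k) (B : BQ n PN Qc Ω) (hV : V = pw (e2 k) Ω) {W : CC} (hW : W ∈ ER n V) :
    ∃ Ω' ∈ SQ PN Qc (fun _ => True) Ω, W = pw (e2 k) Ω' := by
  have h1 : Relation.ReflTransGen (StR n) V W := hW
  clear hW
  induction h1 with
  | refl => exact ⟨Ω, SQ_refl _ _, hV⟩
  | @tail W1 W2 hp h3 ih =>
    obtain ⟨Ω', hΩ, rfl⟩ := ih
    obtain ⟨H', -⟩ := er_inv H hG (show pw (e2 k) Ω' ∈ ER n V from hp)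
    have B' := (pn_sq B hΩ).1
    rcases h3 with ⟨z, A, hz, hLt, hA, rfl⟩ | ⟨U, I, κ, hR, rfl⟩
    · have hA2 : A (2, true) = A (2, false) := by rw [hLt.1, hLt.2]
      refine ⟨act (wh z A) Ω', ?_, (RtD1_wh hz hA2 Ω').symm⟩
      refine SQ_step hΩ trivial ((RtD1_Lv hk hz hA2 Ω').1 hA) (RtD1_PF A) ?_
      intro i hi _
      simp only [Qc, decide_eq_true_eq] at hi
      subst hi
      exact hA2
    · have hT : capC (pw (e2 k) Ω') (PrC 2) = n := by
        rw [RtD1_cap hk (A := PrC 2) (by simp [PrC])]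
        exact B'.t 2 RtD1_Qc
      have hU := e4_LL H' hT hR
      obtain ⟨-, h5⟩ := e4_all H' hR hU
      have hn := H.h4
      have hκ : κ.natAbs = k := by
        rw [hK] at h5
        exact (Nat.eq_of_mul_eq_mul_left (by omega) h5).symm
      -- the normalised rotation
      have main : ∀ J : Ct, RotW n (pw (e2 k) Ω') U J (k : ℤ) →
          ∃ Ω'' ∈ SQ PN Qc (fun _ => True) Ω,
            act (pot 2 (fun x => (k : ℤ) * ind J x)) (pw (e2 k) Ω') = pw (e2 k) Ω'' := by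
        intro J hJ
        have h6 := rot_cnt H' hJ
        have h7 : pw (e2 k) (act (pot 2 (ind J)) Ω') =
            act (pot 2 (fun x => (k : ℤ) * ind J x)) (pw (e2 k) Ω') := RtD1_pot k (ind J) Ω'
        refine ⟨act (pot 2 (ind J)) Ω', lvl_step hΩ ?_, h7.symm⟩
        rw [← h7, RtD1_cnt2 hk] at h6
        have h8 := H'.c2
        rw [RtD1_cnt2 hk] at h8
        exact Nat.eq_of_mul_eq_mul_left (by omega) (h6.trans h8.symm)
      rcases Int.natAbs_eq κ with h6 | h6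
      · rw [hκ] at h6
        subst h6
        exact main I hR
      · rw [hκ] at h6
        obtain ⟨r1, r2⟩ := rw_neg H' hR
        have h7 : -κ = (k : ℤ) := by rw [h6]; ring
        rw [h7] at r1 r2
        rw [← r2]
        exact main _ r1

end Pool.Agent.Sims
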