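import Pool.Agent.Sims.EvR3

/-!
# Definitions for part VI (case R2), first part: worlds with fixed letters

`P : Fin 3 → Prop` is the set of the fixed generators.
* `PF P A`      : the cut `A` does not separate `x_i, x_i⁻¹` for `P i`;  `PrpP P A` : proper and `P`-fixed
* `EqP n P V`   : the counts of the generators `≠ P` are `n ≥ 4`, all proper `P`-fixed cuts of `V` are `≥ n`
* `NP n P V A`  : `P`-fixed proper cut of capacity `n`;  `LP P V z A` : `P`-fixed level `z`-cut (so `¬ P z.1`)
* `VP n P V E`  : `E` is crossed by some `NP`-cut;  `CrP n P V z` : crossed sphere in the `P`-world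
* `StP P M`, `EP P M V` : level moves along `P`-fixed cuts with multipliers in `M`, and the classes reachable by them
* `LSP P V z`   : the nontrivial `P`-fixed level `z`-cuts
(For `P = ∅` these are the notions of part V.)
-/

namespace Pool.Agent.Sims

/-- `P`-fixed cuts -/
def PF (P : Fin 3 → Prop) (A : Ct) : Prop := ∀ i, P i → A (i, true) = A (i, false)

/-- proper `P`-fixed cuts -/
def PrpP (P : Fin 3 → Prop) (A : Ct) : Prop := Prp A ∧ PF P A

/-- counts `n`, `P`-fixed cuts `≥ n` -/
structure EqP (n : ℕ) (P : Fin 3 → Prop) (V : CC) : Prop where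
  h4 : 4 ≤ n
  c : ∀ i, ¬ P i → cnt V i = n
  low : ∀ {A}, PrpP P A → n ≤ capC V A

/-- `P`-fixed proper cut of capacity `n` -/
def NP (n : ℕ) (P : Fin 3 → Prop) (V : CC) (A : Ct) : Prop := PrpP P A ∧ capC V A = n

/-- `P`-fixed level `z`-cut -/
def LP (P : Fin 3 → Prop) (V : CC) (z : Fin 3 × Bool) (A : Ct) : Prop :=
  A z = true ∧ A (bar z) = false ∧ capC V A = cnt V z.1 ∧ PF P A

/-- visibly crossed in the `P`-world -/
def VP (n : ℕ) (P : Fin 3 → Prop) (V : CC) (E : Ct) : Prop := ∃ C, NP n P V C ∧ Crossg C E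

/-- the sphere `S_z` is crossed in the `P`-world -/
def CrP (n : ℕ) (P : Fin 3 → Prop) (V : CC) (z : Fin 3 × Bool) : Prop :=
  ∃ A, LP P V z A ∧ VP n P (act (wh z A) V) (stc A z)

/-- one level move along a `P`-fixed cut with multiplier in `M` -/
def StP (P M : Fin 3 → Prop) (V W : CC) : Prop :=
  ∃ (z : Fin 3 × Bool) (A : Ct), M z.1 ∧ LP P V z A ∧ W = act (wh z A) V

/-- classes reachable by `StP P M` -/
def EP (P M : Fin 3 → Prop) (V : CC) : Set CC := {W | Relation.ReflTransGen (StP P M) V W}

open Classical in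
/-- nontrivial `P`-fixed level `z`-cuts -/
noncomputable def LSP (P : Fin 3 → Prop) (V : CC) (z : Fin 3 × Bool) : Finset Ct :=
  Finset.univ.filter (fun A => LP P V z A ∧ Ntr A)

end Pool.Agent.Sims
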