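import Pool.Agent.Sims.RtG5

/-!
# Module `RtG6` : potentials, cuts and light moves

`z` a light letter, `z ∈ A`, `z⁻¹ ∉ A`, `A` a set of light letters.
* `tr_pot`: `p = p z` on `A`, `p̂ = p` outside of `A ∖ z`, `p̂ x = p z⁻¹` for `x ∈ A ∖ z`.  Both sides are given by automorphisms (`act_act`); they agree on the generators (`Rel_ext`): for a light letter `x ≠ z^{±1}`:
  `x ↦ c^{-p(x⁻¹)} [x⁻¹ ∈ A : z⁻¹] x [x ∈ A : z] c^{p(x)}` on the left; on the right `x ↦ [x⁻¹ ∈ A : π(z)⁻¹] c^{-p̂(x⁻¹)} x c^{p̂(x)} [x ∈ A : π(z)]` with `π(z) = c^{-p̂(z⁻¹)} z c^{p̂(z)} = c^{-p(z⁻¹)} z c^{p(z)}`, and for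
  `x ∈ A`: `c^{p̂(x)} π(z) = c^{p(z⁻¹)} c^{-p(z⁻¹)} z c^{p(z)} = z c^{p(x)}`.  `z ↦ π(z)` and `c ↦ c` on both sides.  (`wh_lett_ne`, `wh_lett_self`, `Rel_pot_ne`, `Rel_pot_self`, `Rel_wh_self'`.)
* `tr_cut`: the cut `Y` is disjoint from `A` or contains `A` (`Y z = Y x` for all `x ∈ A`).  `psi z A Y` is the image of `Y` at `act (wh z A) V`: outside of `A ∖ z` it is `Y`, on `A ∖ z` it is `Y z⁻¹`.
  `capC (act (wh z A) V) (psi z A Y) = capC V Y`:
  `Y ∧ A = ∅`: `z⁻¹ ∉ Y`: `capC_wh_disj`, `psi z A Y = Y`.  `z⁻¹ ∈ Y`: `capC_wh_disj'`, `psi z A Y = Y ∨ (A ∖ z)`.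
  `Y ⊇ A`: apply this to the complement of `Y` (`capC_compl`; `psi z A Yᶜ = (psi z A Y)ᶜ`).
* `tr_psi`: with `S = stc A z` (`= (A ∖ z) ∪ z⁻¹`) `psi z⁻¹ S (psi z A Y) = Y` if `Y z = Y x` for `x ∈ A`.
Difficulty 3.
-/

namespace Pool.Agent.Sims

/-- image of the cut `Y` under the move `(A, z)` -/
def psi (z : Fin 3 × Bool) (A Y : Ct) : Ct := fun x => if A x && decide (x ≠ z) then Y (bar z) else Y x

theorem RtG6_c {z : Fin 3 × Bool} {A : Ct} (hz : z.1 ≠ 2) (hA : Lt A) :
    wh z A (FreeGroup.of 2) = FreeGroup.of 2 := by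
  have h := wh_lett_ne z A (x := (2, true)) (fun h => hz h.symm)
  have h1 : A (bar (2, true)) = false := hA.2
  have h2 : A (2, true) = false := hA.1
  rw [h1, h2] at h
  simpa [lett_true] using h

theorem tr_pot (V : CC) {z : Fin 3 × Bool} {A : Ct} (hz : z.1 ≠ 2) (hA : Lt A) (h1 : A z = true)
    (h2 : A (bar z) = false) {p : Fin 3 × Bool → ℤ} (hp : ∀ x, A x = true → p x = p z) :
    act (wh z A) (act (pot 2 p) V) =
      act (pot 2 (fun x => if A x && decide (x ≠ z) then p (bar z) else p x)) (act (wh z A) V) := by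
  obtain ⟨p', hp'⟩ : ∃ p' : Fin 3 × Bool → ℤ,
    p' = fun x => if A x && decide (x ≠ z) then p (bar z) else p x := ⟨_, rfl⟩
  rw [← hp', act_act, act_act]
  congr 1
  have hc := RtG6_c hz hA
  have hz1 : p' z = p z := by rw [hp']; simp
  have hz2 : p' (bar z) = p (bar z) := by rw [hp']; simp [h2]
  apply Rel_ext
  intro i
  by_cases hi2 : i = 2
  · refine ⟨true, ?_⟩
    subst hi2
    rw [MulEquiv.trans_apply, MulEquiv.trans_apply, lett_true, hc, ← lett_true,
      Rel_pot_self 2 p rfl, Rel_pot_self 2 p' rfl, lett_true, hc]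
  · by_cases hiz : i = z.1
    · refine ⟨z.2, ?_⟩
      have e : ((i, z.2) : Fin 3 × Bool) = z := by rw [hiz]
      rw [e, MulEquiv.trans_apply, MulEquiv.trans_apply, wh_lett_self, Rel_pot_ne p hz,
        Rel_pot_ne p' hz, map_mul, map_mul, map_zpow, map_zpow, hc, wh_lett_self, hz1, hz2]
    · refine ⟨true, ?_⟩
      have hxz : ((i, true) : Fin 3 × Bool).1 ≠ z.1 := hiz
      have hx2 : ((i, true) : Fin 3 × Bool).1 ≠ 2 := hi2
      generalize ((i, true) : Fin 3 × Bool) = x at hxz hx2
      have hne : x ≠ z := fun h => hxz (by rw [h])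
      have hne' : bar x ≠ z := fun h => hxz (by rw [← h]; rfl)
      have ex : A x = true → p' x = p (bar z) := by
        intro h; rw [hp']; simp [h, hne]
      have ex0 : A x = false → p' x = p x := by
        intro h; rw [hp']; simp [h]
      have ey : A (bar x) = true → p' (bar x) = p (bar z) := by
        intro h; rw [hp']; simp [h, hne']
      have ey0 : A (bar x) = false → p' (bar x) = p (bar x) := by
        intro h; rw [hp']; simp [h]
      rw [MulEquiv.trans_apply, MulEquiv.trans_apply, wh_lett_ne z A hxz, Rel_pot_ne p hx2,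
        map_mul, map_mul, map_zpow, map_zpow, hc, wh_lett_ne z A hxz, map_mul, map_mul,
        Rel_pot_ne p' hx2]
      cases hAx : A x <;> cases hAy : A (bar x)
      · rw [ex0 hAx, ey0 hAy]
        simp
      · rw [ex0 hAx, ey hAy, hp _ hAy]
        simp only [if_true, if_false, map_inv, map_one, Rel_pot_ne p' hz, hz1, hz2,
          Bool.false_eq_true]
        group
      · rw [ex hAx, ey0 hAy, hp _ hAx]
        simp only [if_true, if_false, map_inv, map_one, Rel_pot_ne p' hz, hz1, hz2,
          Bool.false_eq_true]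
        group
      · rw [ex hAx, ey hAy, hp _ hAx, hp _ hAy]
        simp only [if_true, if_false, map_inv, map_one, Rel_pot_ne p' hz, hz1, hz2,
          Bool.false_eq_true]
        group

theorem RtG6_cut0 (V : CC) {z : Fin 3 × Bool} {A Y : Ct} (h1 : A z = true)
    (h2 : A (bar z) = false) (hY : ∀ x, A x = true → Y x = Y z) (h0 : Y z = false) :
    capC (act (wh z A) V) (psi z A Y) = capC V Y := by
  have hd : ∀ x, A x = true → Y x = false := fun x hx => by rw [hY x hx, h0]
  cases hb : Y (bar z)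
  · have e : psi z A Y = Y := by
      funext x
      unfold psi
      by_cases hx : (A x && decide (x ≠ z)) = true
      · rw [if_pos hx, hb]
        have : A x = true := by
          revert hx; cases A x <;> simp
        rw [hd x this]
      · rw [if_neg hx]
    rw [e]
    exact capC_wh_disj V z A Y h1 h2 h0 hb hd
  · have e : psi z A Y = fun x => Y x || (A x && decide (x ≠ z)) := by
      funext x
      unfold psi
      by_cases hx : (A x && decide (x ≠ z)) = true
      · rw [if_pos hx, hb, hx, Bool.or_true]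
      · rw [if_neg hx]
        have : (A x && decide (x ≠ z)) = false := by simpa using hx
        rw [this, Bool.or_false]
    rw [e]
    exact capC_wh_disj' V z A Y h1 h2 h0 hb hd

theorem tr_cut (V : CC) {z : Fin 3 × Bool} {A Y : Ct} (h1 : A z = true) (h2 : A (bar z) = false)
    (hY : ∀ x, A x = true → Y x = Y z) : capC (act (wh z A) V) (psi z A Y) = capC V Y := by
  cases h0 : Y z
  · exact RtG6_cut0 V h1 h2 hY h0
  · have h := RtG6_cut0 V (Y := fun x => !Y x) h1 h2 (fun x hx => by
      show (!Y x) = (!Y z)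
      rw [hY x hx]) (by show (!Y z) = false; rw [h0]; rfl)
    rw [capC_compl] at h
    have e : psi z A (fun x => !Y x) = fun x => !(psi z A Y x) := by
      funext x
      unfold psi
      by_cases hx : (A x && decide (x ≠ z)) = true
      · rw [if_pos hx, if_pos hx]
      · rw [if_neg hx, if_neg hx]
    rw [e, capC_compl] at h
    exact h

theorem tr_psi {z : Fin 3 × Bool} {A Y : Ct} (h1 : A z = true) (h2 : A (bar z) = false)
    (hY : ∀ x, A x = true → Y x = Y z) : ∀ x, psi (bar z) (stc A z) (psi z A Y) x = Y x := by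
  intro x
  have hzz : psi z A Y z = Y z := by unfold psi; simp
  by_cases hx : (A x && decide (x ≠ z)) = true
  · have hA : A x = true := by revert hx; cases A x <;> simp
    have hxb : x ≠ bar z := by rintro rfl; rw [h2] at hA; cases hA
    have hs : (stc A z x && decide (x ≠ bar z)) = true := by
      unfold stc
      rw [hx]
      simp [hxb]
    show (if stc A z x && decide (x ≠ bar z) then psi z A Y (bar (bar z)) else psi z A Y x) = Y x
    rw [if_pos hs, bar_bar, hzz, hY x hA]
  · have hx' : (A x && decide (x ≠ z)) = false := by simpa using hx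
    have hs : ¬ (stc A z x && decide (x ≠ bar z)) = true := by
      unfold stc
      rw [hx']
      by_cases hxb : x = bar z <;> simp [hxb]
    show (if stc A z x && decide (x ≠ bar z) then psi z A Y (bar (bar z)) else psi z A Y x) = Y x
    rw [if_neg hs]
    unfold psi
    rw [if_neg hx]

theorem psi_const {z : Fin 3 × Bool} {A Y : Ct} (h1 : A z = true) (h2 : A (bar z) = false) :
    ∀ x, stc A z x = true → psi z A Y x = psi z A Y (bar z) := by
  intro x hx
  have hb : psi z A Y (bar z) = Y (bar z) := by unfold psi; simp [h2]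
  rw [hb]
  unfold stc at hx
  by_cases h : (A x && decide (x ≠ z)) = true
  · unfold psi
    rw [if_pos h]
  · have h' : (A x && decide (x ≠ z)) = false := by simpa using h
    rw [h', Bool.false_or] at hx
    have : x = bar z := by simpa using hx
    rw [this, hb]

theorem psi_Lt {z : Fin 3 × Bool} {A Y : Ct} (hA : Lt A) (hY : Lt Y) : Lt (psi z A Y) := by
  constructor
  · unfold psi; simp [hA.1, hY.1]
  · unfold psi; simp [hA.2, hY.2]

end Pool.Agent.Sims
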