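import Pool.Agent.Sims.RtQ6
import Pool.Agent.Sims.RtG6

/-!
# Module `RtE0` : the substitution `b ↦ b c^k b⁻¹`

`thh k` : the endomorphism `a ↦ a`, `b ↦ b c^k b⁻¹`, `c ↦ c`; `th k V` its action on classes.  In `th k Ω` the letter `b` of `Ω` is called `t`, the letter `b` of `th k Ω` is called `z`.  All identities: compare two homomorphisms on the generators `0, 1, 2`
(`FreeGroup.ext_hom`, `potFun_of_ne`, `potFun_of_self`, `group`), then pass to classes (`ConjClasses.map` composed).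
* `th_pot`: `pot 2 p : t ↦ c^{-p(t⁻¹)} t c^{p(t)}`, `thh k` of it is `c^{-p(t⁻¹)} z c^k z⁻¹ c^{p(t)}`; `pot 2 p' (z c^k z⁻¹) = c^{-p'(z⁻¹)} z c^{p'(z)} c^k c^{-p'(z)} z⁻¹ c^{p'(z⁻¹)} = c^{-p'(z⁻¹)} z c^k z⁻¹ c^{p'(z⁻¹)}`.
* `th_wh0`: `wh y A = pot 0 (whp y A)`, `q = whp y A`: `t ↦ a^{-q(t)} t a^{q(t)}`, `c ↦ c`; `q' = whp y A'`: `z ↦ a^{-q'(z⁻¹)} z`, `q'(z) = 0`, `c ↦ c`: `z c^k z⁻¹ ↦ a^{-q'(z⁻¹)} z c^k z⁻¹ a^{q'(z⁻¹)}`.
* `th_t`: on `a` (`x` a letter of generator 0): with `δ = sgn (1,b)`: `wh (1,b) (I ∪ t^δ) : x ↦ t^{-δ I(x⁻¹)} x t^{δ I(x)}`, then `thh k`: `z c^{-δ k I(x⁻¹)} z⁻¹ x z c^{δ k I(x)} z⁻¹`, then `wh (1,false) B : x ↦ z^{B(x⁻¹)} x z^{-B(x)}`, `z ↦ z`, `c ↦ c`: the right end becomes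
  `x z^{-B(x)} z c^{δ k I(x)} z⁻¹`, which is `x c^{δ k} z⁻¹` if `I(x)` (then `B(x)`), and `x z^{-B(x)}` if not.  The other side: `x ↦ x z^{-B(x)} ↦ x c^{δ k I(x)} z^{-B(x)}` (`pot 2` of a potential vanishing on `z^{±1}` fixes `z`).  The left ends are symmetric.  On `t`: both sides
  give `z c^k z⁻¹`; `c ↦ c`.
* `th_fx`: `σ` changes at most the sign of `a`.  * `th_ja`: `σ` with `σ.perm = 1`, `σ.sign 1 = σ.sign 2 = s`: `thh k (t^s) = z c^{s k} z⁻¹ = τ (z c^k z⁻¹)` with `τ.perm = 1`, `τ.sign = (σ.sign 0, true, s)`.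
Difficulty 2.
-/

namespace Pool.Agent.Sims

/-- `b ↦ b c^k b⁻¹` -/
def thh (k : ℤ) : FreeGroup (Fin 3) →* FreeGroup (Fin 3) :=
  FreeGroup.lift (fun i => if i = 1 then FreeGroup.of 1 * FreeGroup.of 2 ^ k * (FreeGroup.of 1)⁻¹
    else FreeGroup.of i)

/-- action on classes -/
def th (k : ℕ) (V : CC) : CC := ConjClasses.map (thh k) V

/-- sign change of `a` -/
def Fx (σ : SPerm (Fin 3)) : Prop := σ.perm = 1 ∧ σ.sign 1 = true ∧ σ.sign 2 = true

theorem RtE0_h0 (k : ℤ) : thh k (FreeGroup.of 0) = FreeGroup.of 0 := by simp [thh]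
theorem RtE0_h1 (k : ℤ) : thh k (FreeGroup.of 1) =
    FreeGroup.of 1 * FreeGroup.of 2 ^ k * (FreeGroup.of 1)⁻¹ := by simp [thh]
theorem RtE0_h2 (k : ℤ) : thh k (FreeGroup.of 2) = FreeGroup.of 2 := by simp [thh]

theorem RtE0_map {f g f' g' : FreeGroup (Fin 3) →* FreeGroup (Fin 3)}
    (h0 : f (g (FreeGroup.of 0)) = f' (g' (FreeGroup.of 0)))
    (h1 : f (g (FreeGroup.of 1)) = f' (g' (FreeGroup.of 1)))
    (h2 : f (g (FreeGroup.of 2)) = f' (g' (FreeGroup.of 2))) (V : CC) :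
    ConjClasses.map f (ConjClasses.map g V) = ConjClasses.map f' (ConjClasses.map g' V) := by
  have h : f.comp g = f'.comp g' := by
    refine FreeGroup.ext_hom _ _ ?_
    intro i
    rw [MonoidHom.comp_apply, MonoidHom.comp_apply]
    fin_cases i
    · exact h0
    · exact h1
    · exact h2
  induction V using Quotient.inductionOn with
  | h x => exact congrArg ConjClasses.mk (DFunLike.congr_fun h x)

theorem RtE0_map3 {f f' g g' e e' : FreeGroup (Fin 3) →* FreeGroup (Fin 3)}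
    (h0 : f (g (e (FreeGroup.of 0))) = f' (g' (e' (FreeGroup.of 0))))
    (h1 : f (g (e (FreeGroup.of 1))) = f' (g' (e' (FreeGroup.of 1))))
    (h2 : f (g (e (FreeGroup.of 2))) = f' (g' (e' (FreeGroup.of 2)))) (V : CC) :
    ConjClasses.map f (ConjClasses.map g (ConjClasses.map e V)) =
      ConjClasses.map f' (ConjClasses.map g' (ConjClasses.map e' V)) := by
  have h : f.comp (g.comp e) = f'.comp (g'.comp e') := by
    refine FreeGroup.ext_hom _ _ ?_
    intro i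
    rw [MonoidHom.comp_apply, MonoidHom.comp_apply, MonoidHom.comp_apply, MonoidHom.comp_apply]
    fin_cases i
    · exact h0
    · exact h1
    · exact h2
  induction V using Quotient.inductionOn with
  | h x => exact congrArg ConjClasses.mk (DFunLike.congr_fun h x)

theorem RtE0_pot (j : Fin 3) (p : Fin 3 × Bool → ℤ) (g : FreeGroup (Fin 3)) :
    (pot j p).toMonoidHom g = potFun j p g := rfl

theorem RtE0_au (σ : SPerm (Fin 3)) (g : FreeGroup (Fin 3)) :
    σ.aut.toMonoidHom g = σ.hom g := rfl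

theorem th_pot (k : ℕ) {p p' : Fin 3 × Bool → ℤ} (h0 : ∀ b, p' (0, b) = p (0, b))
    (h1 : p (1, true) = p (1, false)) (h2 : p' (1, false) = p (1, false)) (V : CC) :
    th k (act (pot 2 p) V) = act (pot 2 p') (th k V) := by
  unfold th act
  refine RtE0_map ?_ ?_ ?_ V
  · rw [RtE0_pot, RtE0_pot, RtE0_h0, potFun_of_ne _ (by decide), potFun_of_ne _ (by decide)]
    simp only [map_mul, map_zpow, RtE0_h0, RtE0_h2, h0]
  · rw [RtE0_pot, RtE0_pot, RtE0_h1, potFun_of_ne _ (by decide)]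
    simp only [map_mul, map_zpow, map_inv, RtE0_h1, RtE0_h2]
    rw [potFun_of_ne _ (by decide), potFun_of_self, h1, h2]
    group
  · rw [RtE0_pot, RtE0_pot, RtE0_h2, potFun_of_self, potFun_of_self, RtE0_h2]

theorem th_wh0 (k : ℕ) {y : Fin 3 × Bool} (hy : y.1 = 0) {A A' : Ct} (hA : Lt A) (hA' : Lt A')
    (h0 : ∀ b, A' (0, b) = A (0, b)) (h1 : A (1, true) = A (1, false))
    (h2 : A' (1, false) = A (1, false)) (h3 : A' (1, true) = false) (V : CC) :
    th k (act (wh y A) V) = act (wh y A') (th k V) := by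
  obtain ⟨y1, y2⟩ := y
  simp only at hy
  subst hy
  unfold th act wh
  refine RtE0_map ?_ ?_ ?_ V
  · simp only [RtE0_pot]
    rw [RtE0_h0, potFun_of_self, potFun_of_self, RtE0_h0]
  · simp only [RtE0_pot]
    rw [RtE0_h1, potFun_of_ne _ (by decide : (1 : Fin 3) ≠ 0)]
    simp only [map_mul, map_zpow, map_inv, RtE0_h1, RtE0_h0]
    rw [potFun_of_ne _ (by decide : (1 : Fin 3) ≠ 0), potFun_of_ne _ (by decide : (2 : Fin 3) ≠ 0)]
    simp only [whp, h1, h2, h3, hA'.1, hA'.2, Bool.false_eq_true, if_false, neg_zero, zpow_zero,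
      one_mul, mul_one]
    group
  · simp only [RtE0_pot]
    rw [RtE0_h2, potFun_of_ne _ (by decide : (2 : Fin 3) ≠ 0),
      potFun_of_ne _ (by decide : (2 : Fin 3) ≠ 0)]
    simp only [map_mul, map_zpow, RtE0_h0, RtE0_h2, whp, hA.1, hA.2, hA'.1, hA'.2]

theorem th_t (k : ℕ) {B I : Ct} (b : Bool) (hB : Lt B)
    (hI : ∀ x, I x = true → x.1 = 0 ∧ B x = true) (V : CC) :
    act (pot 2 (fun x => sgn ((1 : Fin 3), b) * k * ind I x)) (act (wh (1, false) B) (th k V)) =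
      act (wh (1, false) B)
        (th k (act (wh (1, b) (fun x => I x || decide (x = ((1 : Fin 3), b)))) V)) := by
  have hI1 : ∀ s, I (1, s) = false := by
    intro s
    cases h : I (1, s) with
    | false => rfl
    | true => exact absurd (hI _ h).1 (by decide : (1 : Fin 3) ≠ 0)
  have hI2 : ∀ s, I (2, s) = false := by
    intro s
    cases h : I (2, s) with
    | false => rfl
    | true => exact absurd (hI _ h).1 (by decide : (2 : Fin 3) ≠ 0)
  unfold th act wh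
  refine RtE0_map3 ?_ ?_ ?_ V
  · simp only [RtE0_pot]
    rw [RtE0_h0, potFun_of_ne _ (by decide : (0 : Fin 3) ≠ 1),
      potFun_of_ne _ (by decide : (0 : Fin 3) ≠ 1)]
    simp only [map_mul, map_zpow, map_inv, RtE0_h0, RtE0_h1]
    rw [potFun_of_ne _ (by decide : (0 : Fin 3) ≠ 2), potFun_of_ne _ (by decide : (1 : Fin 3) ≠ 2),
      potFun_of_ne _ (by decide : (0 : Fin 3) ≠ 1), potFun_of_ne _ (by decide : (2 : Fin 3) ≠ 1),
      potFun_of_self]
    have e1 : ∀ s, I (0, s) = true → B (0, s) = true := fun s h => (hI _ h).2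
    cases hIt : I (0, true) <;> cases hIf : I (0, false) <;>
      (try have b1 := e1 _ hIt) <;> (try have b2 := e1 _ hIf) <;>
      cases hBt : B (0, true) <;> cases hBf : B (0, false) <;>
      (try (exfalso; revert b1; rw [hBt]; exact Bool.noConfusion)) <;>
      (try (exfalso; revert b2; rw [hBf]; exact Bool.noConfusion)) <;>
      cases b <;>
      simp [whp, sgn, ind, hI1, hIt, hIf, hBt, hBf, hB.1, hB.2] <;> group
  · simp only [RtE0_pot]
    rw [RtE0_h1, potFun_of_self]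
    simp only [map_mul, map_zpow, map_inv, RtE0_h1, potFun_of_self]
    rw [potFun_of_ne _ (by decide : (2 : Fin 3) ≠ 1)]
    simp only [map_mul, map_zpow]
    rw [potFun_of_ne _ (by decide : (1 : Fin 3) ≠ 2), potFun_of_self]
    simp [whp, ind, hI1, hB.1, hB.2]
  · simp only [RtE0_pot]
    rw [RtE0_h2, potFun_of_ne _ (by decide : (2 : Fin 3) ≠ 1),
      potFun_of_ne _ (by decide : (2 : Fin 3) ≠ 1)]
    simp [whp, hB.1, hB.2, hI2, potFun_of_self, RtE0_h2, potFun_of_ne]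

theorem th_fx (k : ℕ) {σ : SPerm (Fin 3)} (h : Fx σ) (V : CC) :
    th k (act σ.aut V) = act σ.aut (th k V) := by
  obtain ⟨hp, h1, h2⟩ := h
  have l0 : σ.hom (FreeGroup.of 0) = lett (0, σ.sign 0) := by
    rw [← lett_true, SPerm.hom_lett]
    cases hs : σ.sign 0 <;> simp [SPerm.letter, hp, hs]
  have l1 : σ.hom (FreeGroup.of 1) = FreeGroup.of 1 := by
    rw [← lett_true, SPerm.hom_lett]
    simp [SPerm.letter, hp, h1]
  have l2 : σ.hom (FreeGroup.of 2) = FreeGroup.of 2 := by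
    rw [← lett_true, SPerm.hom_lett]
    simp [SPerm.letter, hp, h2]
  have t0 : thh k (lett (0, σ.sign 0)) = lett (0, σ.sign 0) := by
    cases σ.sign 0
    · rw [lett_false, map_inv, RtE0_h0]
    · rw [lett_true, RtE0_h0]
  unfold th act
  refine RtE0_map ?_ ?_ ?_ V
  · rw [RtE0_au, RtE0_au, RtE0_h0, l0, t0]
  · rw [RtE0_au, RtE0_au, RtE0_h1, l1, RtE0_h1]
    simp only [map_mul, map_zpow, map_inv, l1, l2]
  · rw [RtE0_au, RtE0_au, RtE0_h2, l2, RtE0_h2]

theorem th_ja (k : ℕ) {σ : SPerm (Fin 3)} (h : Ja σ) :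
    ∃ τ : SPerm (Fin 3), τ.perm = 1 ∧ τ.sign 1 = true ∧
      ∀ V : CC, th k (act σ.aut V) = act τ.aut (th k V) := by
  obtain ⟨hp, h12⟩ := h
  refine ⟨⟨1, fun i => if i = 1 then true else σ.sign i⟩, rfl, by simp, ?_⟩
  intro V
  set τ : SPerm (Fin 3) := ⟨1, fun i => if i = 1 then true else σ.sign i⟩ with hτ
  have l0 : σ.hom (FreeGroup.of 0) = lett (0, σ.sign 0) := by
    rw [← lett_true, SPerm.hom_lett]
    cases hs : σ.sign 0 <;> simp [SPerm.letter, hp, hs]
  have l1 : σ.hom (FreeGroup.of 1) = lett (1, σ.sign 2) := by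
    rw [← lett_true, SPerm.hom_lett]
    cases hs : σ.sign 2 <;> simp [SPerm.letter, hp, h12, hs]
  have l2 : σ.hom (FreeGroup.of 2) = lett (2, σ.sign 2) := by
    rw [← lett_true, SPerm.hom_lett]
    cases hs : σ.sign 2 <;> simp [SPerm.letter, hp, hs]
  have m0 : τ.hom (FreeGroup.of 0) = lett (0, σ.sign 0) := by
    rw [← lett_true, SPerm.hom_lett]
    cases hs : σ.sign 0 <;> simp [SPerm.letter, hτ, hs]
  have m1 : τ.hom (FreeGroup.of 1) = FreeGroup.of 1 := by
    rw [← lett_true, SPerm.hom_lett]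
    simp [SPerm.letter, hτ]
  have m2 : τ.hom (FreeGroup.of 2) = lett (2, σ.sign 2) := by
    rw [← lett_true, SPerm.hom_lett]
    cases hs : σ.sign 2 <;> simp [SPerm.letter, hτ, hs]
  have t0 : thh k (lett (0, σ.sign 0)) = lett (0, σ.sign 0) := by
    cases σ.sign 0
    · rw [lett_false, map_inv, RtE0_h0]
    · rw [lett_true, RtE0_h0]
  have t2 : thh k (lett (2, σ.sign 2)) = lett (2, σ.sign 2) := by
    cases σ.sign 2
    · rw [lett_false, map_inv, RtE0_h2]
    · rw [lett_true, RtE0_h2]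
  unfold th act
  refine RtE0_map ?_ ?_ ?_ V
  · rw [RtE0_au, RtE0_au, RtE0_h0, l0, t0, m0]
  · rw [RtE0_au, RtE0_au, RtE0_h1, l1]
    simp only [map_mul, map_zpow, map_inv, m1, m2]
    cases σ.sign 2
    · rw [lett_false, lett_false, map_inv, RtE0_h1]
      group
    · rw [lett_true, lett_true, RtE0_h1]
  · rw [RtE0_au, RtE0_au, RtE0_h2, l2, t2, m2]

end Pool.Agent.Sims
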