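import Pool.Agent.Sims.RtE0
import Pool.Agent.Sims.RtP3
import Pool.Agent.Sims.RtB1

/-!
# Module `RtE1` : counts, capacities, loops of `th k Ω`

`1 ≤ k`, `Ω = cls (expand 1 s)` with a syllable list `s` for the generator 1: letters `y_i` of generators `0, 2`, exponents `m_i` of `t` (`s ≠ []` as soon as `0 < cnt Ω 0`; `WhEff_cases`, `TwPot_cases`).
* `th_list`: `thh k (t^m) = z c^{k m} z⁻¹`: `th k Ω = cls (thw k s)`.  `thw k s` is cyclically reduced: consecutive letters: inside `z c^{km} z⁻¹`; `y_i, z` and `z⁻¹, y_{i+1}`; if `m_i = 0`: `y_i y_{i+1}` is a subword of the cyclically reduced word `expand 1 s`.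
* `th_cnt0`, `th_cnt1`, `th_cnt2`: count letters: `cnt (th k Ω) 1 = 2 #{i : m_i ≠ 0} = capC Ω (PrC 1)` (each run of `t` is entered and left once); `cnt (th k Ω) 2 = #{y_i of generator 2} + k Σ |m_i|`.
* `th_cap`: `A'` is constant `γ = A (2,·)` on `z, c, c⁻¹`, and `A' (z⁻¹) = A (t^{±1})`.  Capacity of `thw k s`: for `m_i ≠ 0` the edges are `{y_i, z⁻¹}` (next letter `z`), `{z, c^{∓}}`, `{c,c⁻¹}` inside the run, `{c^{±}, z}` (next letter `z⁻¹`), `{z⁻¹, y_{i+1}⁻¹}`.  In `Ω`: `{y_i, t^{∓}}`, `{t,t⁻¹}` inside,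
  `{t^{±}, y_{i+1}⁻¹}`: same contributions.
* `th_gx`: `gx s2 0 {z}` for a syllable list `s2` (generator 2) of `th k Ω` is `k cnt Ω 1`.  By `syl_uniq` it does not depend on `s2` (`gx` is a cyclic sum, invariant under rotation), so take the list of the word `thw k s` (rotated so that it starts with a light letter): the pairs
  `(a, r)` with `a.1 = z` and `r.1⁻¹ = z`: `z` is always followed by `c^{k m_i} z⁻¹`: the sum is `Σ k |m_i| = k cnt Ω 1`.
* `th_ec`: `act (pot 2 (ind {z})) (th k Ω) = th k Ω`: `th_pot` with `p = 0`, `p' = ind {z}` (`pot_zero`).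
Difficulty 3.
-/

namespace Pool.Agent.Sims

/-- the word of `th k` -/
def thw (k : ℕ) (s : List ((Fin 3 × Bool) × ℤ)) : List (Fin 3 × Bool) :=
  s.flatMap (fun q => q.1 :: (if q.2 = 0 then [] else
    ((1 : Fin 3), true) :: (zpw (2 : Fin 3) (k * q.2) ++ [((1 : Fin 3), false)])))

/-- the tail of a block -/
def RtE1_tl (k : ℕ) (q : (Fin 3 × Bool) × ℤ) : List (Fin 3 × Bool) :=
  if q.2 = 0 then [] else ((1 : Fin 3), true) :: (zpw (2 : Fin 3) (k * q.2) ++ [((1 : Fin 3), false)])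

theorem RtE1_cons (k : ℕ) (q : (Fin 3 × Bool) × ℤ) (t : List ((Fin 3 × Bool) × ℤ)) :
    thw k (q :: t) = q.1 :: (RtE1_tl k q ++ thw k t) := by
  simp [thw, RtE1_tl]

theorem RtE1_lin (f : Fin 3 × Bool → Fin 3 × Bool → ℕ) (k : ℕ) (q : (Fin 3 × Bool) × ℤ)
    (t : List ((Fin 3 × Bool) × ℤ)) (w : (Fin 3 × Bool) × ℤ) :
    lin f q.1 (RtE1_tl k q ++ thw k t) w.1 =
      lin (fun q r : (Fin 3 × Bool) × ℤ => lin f q.1 (RtE1_tl k q) r.1) q t w := by
  induction t generalizing q with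
  | nil => simp [thw, lin]
  | cons r t ih =>
    rw [RtE1_cons, lin_append, ih, lin]

theorem RtE1_cyc (f : Fin 3 × Bool → Fin 3 × Bool → ℕ) (k : ℕ) (s : List ((Fin 3 × Bool) × ℤ)) :
    cyc f (thw k s) = cyc (fun q r : (Fin 3 × Bool) × ℤ => lin f q.1 (RtE1_tl k q) r.1) s := by
  cases s with
  | nil => simp [thw, cyc]
  | cons q t => rw [RtE1_cons, cyc, cyc, RtE1_lin]

theorem RtE1_blk (f : Fin 3 × Bool → Fin 3 × Bool → ℕ) {k : ℕ} (hk : 1 ≤ k) (x : Fin 3 × Bool)
    (m : ℤ) (y : Fin 3 × Bool) :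
    (m = 0 ∧ lin f x (RtE1_tl k (x, m)) y = f x y) ∨
    (m ≠ 0 ∧ ∃ (n : ℕ) (b : Bool), lin f x (RtE1_tl k (x, m)) y =
      f x (1, true) + (f (1, true) (2, b) + (n * f (2, b) (2, b) + f (2, b) (1, false)) +
        f (1, false) y)) := by
  by_cases hm : m = 0
  · left
    refine ⟨hm, ?_⟩
    simp [RtE1_tl, hm, lin]
  · right
    refine ⟨hm, ?_⟩
    have h0 : RtE1_tl k (x, m) = ((1 : Fin 3), true) :: (zpw (2 : Fin 3) (k * m) ++
        ((1 : Fin 3), false) :: []) := by simp [RtE1_tl, hm]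
    rw [h0, lin, lin_append]
    have hkm : (k : ℤ) * m ≠ 0 := mul_ne_zero (by positivity) hm
    rcases SylC_lin_zpw f ((1 : Fin 3), true) (2 : Fin 3) (k * m) ((1 : Fin 3), false) with
      ⟨h, -⟩ | ⟨n, h, h'⟩ | ⟨n, h, h'⟩
    · exact absurd h hkm
    · exact ⟨n, true, by rw [h', lin]⟩
    · exact ⟨n, false, by rw [h', lin]⟩

theorem RtE1_blk' (f : Fin 3 × Bool → Fin 3 × Bool → ℕ) {k : ℕ} (hk : 1 ≤ k)
    (q : (Fin 3 × Bool) × ℤ) (y : Fin 3 × Bool) :
    (q.2 = 0 ∧ lin f q.1 (RtE1_tl k q) y = f q.1 y) ∨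
    (q.2 ≠ 0 ∧ ∃ (n : ℕ) (b : Bool), lin f q.1 (RtE1_tl k q) y =
      f q.1 (1, true) + (f (1, true) (2, b) + (n * f (2, b) (2, b) + f (2, b) (1, false)) +
        f (1, false) y)) := by
  rcases q with ⟨x, m⟩
  exact RtE1_blk f hk x m y

theorem RtE1_CR {k : ℕ} (hk : 1 ≤ k) {s : List ((Fin 3 × Bool) × ℤ)} (hs : SValid 1 s) :
    CR (thw k s) := by
  rw [SylB_CR_iff, RtE1_cyc]
  have h := (SValid_iff 1 s hs.1).1 hs
  refine Eq.trans ?_ h
  apply WhEff_cyc_congr
  intro q hq r hr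
  have hq1 := hs.1 q hq
  have hr1 := hs.1 r hr
  rcases RtE1_blk' (fun a b => if b = bar a then 1 else 0) hk q r.1 with ⟨h0, h1⟩ | ⟨h0, n, b, h1⟩
  · rw [h1]
    simp [h0]
  · rw [h1]
    have e1 : ¬ (((1 : Fin 3), true) = bar q.1) := fun e => hq1 (by rw [← bar_fst, ← e])
    have e2 : ¬ (((2 : Fin 3), b) = bar ((1 : Fin 3), true)) := fun e => by
      simpa using congrArg Prod.fst e
    have e3 : ¬ (((2 : Fin 3), b) = bar ((2 : Fin 3), b)) := fun e => bar_ne _ e.symm
    have e4 : ¬ (((1 : Fin 3), false) = bar ((2 : Fin 3), b)) := fun e => by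
      simpa using congrArg Prod.fst e
    have e5 : ¬ (r.1 = bar ((1 : Fin 3), false)) := fun e => hr1 (by rw [e]; rfl)
    simp only [e1, e2, e3, e4, e5, if_false, h0, and_false]
    ring

theorem RtE1_thh_self (k : ℕ) (m : ℤ) : thh k ((FreeGroup.of (1 : Fin 3)) ^ m) =
    FreeGroup.of 1 * (FreeGroup.of 2) ^ ((k : ℤ) * m) * (FreeGroup.of 1)⁻¹ := by
  rw [map_zpow]
  have h : thh k (FreeGroup.of (1 : Fin 3)) =
      FreeGroup.of 1 * FreeGroup.of 2 ^ (k : ℤ) * (FreeGroup.of 1)⁻¹ := by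
    simp [thh]
  rw [h, conj_zpow, zpow_mul]

theorem RtE1_thh_lett (k : ℤ) {x : Fin 3 × Bool} (h : x.1 ≠ 1) : thh k (lett x) = lett x := by
  rcases x with ⟨i, b⟩
  have h' : i ≠ 1 := h
  cases b with
  | true => rw [lett_true]; simp [thh, h']
  | false => rw [lett_false]; simp [thh, h']

theorem RtE1_map (k : ℕ) (s : List ((Fin 3 × Bool) × ℤ)) (hs : ∀ q ∈ s, q.1.1 ≠ 1) :
    thh k (FreeGroup.mk (expand 1 s)) = FreeGroup.mk (thw k s) := by
  induction s with
  | nil =>
    show thh k 1 = 1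
    exact map_one _
  | cons q t ih =>
    have h1 := ih (fun r hr => hs r (by simp [hr]))
    have h2 := hs q (by simp)
    rw [SylA_mk_expand_cons, map_mul, map_mul, RtE1_thh_lett _ h2, RtE1_thh_self, h1, RtE1_cons]
    have h3 : (FreeGroup.mk (q.1 :: (RtE1_tl k q ++ thw k t)) : FreeGroup (Fin 3)) =
        lett q.1 * FreeGroup.mk (RtE1_tl k q) * FreeGroup.mk (thw k t) := by
      rw [lett, FreeGroup.mul_mk, FreeGroup.mul_mk]
      simp
    rw [h3]
    congr 2
    unfold RtE1_tl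
    by_cases hq : q.2 = 0
    · rw [if_pos hq, hq]
      simp [← FreeGroup.one_eq_mk]
    · rw [if_neg hq]
      have h4 : (FreeGroup.mk (((1 : Fin 3), true) :: (zpw (2 : Fin 3) (k * q.2) ++
          [((1 : Fin 3), false)])) : FreeGroup (Fin 3)) =
          lett ((1 : Fin 3), true) * FreeGroup.mk (zpw (2 : Fin 3) (k * q.2)) *
            lett ((1 : Fin 3), false) := by
        rw [lett, lett, FreeGroup.mul_mk, FreeGroup.mul_mk]
        simp
      rw [h4, mk_zpw, lett_true, lett_false]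

theorem th_list {k : ℕ} (hk : 1 ≤ k) {s : List ((Fin 3 × Bool) × ℤ)} (hs : SValid 1 s)
    (hne : s ≠ []) : th k (cls (expand 1 s)) = cls (thw k s) ∧ CR (thw k s) := by
  refine ⟨?_, RtE1_CR hk hs⟩
  unfold cls
  rw [← RtE1_map k s hs.1]
  rfl

/-- a list of `Ω` -/
theorem RtE1_ex {Ω : CC} (hp : 0 < cnt Ω 0) :
    ∃ s : List ((Fin 3 × Bool) × ℤ), s ≠ [] ∧ SValid 1 s ∧ cls (expand 1 s) = Ω :=
  exists_syl 1 Ω ⟨0, by decide, hp⟩

theorem RtE1_cntL (k : ℕ) (s : List ((Fin 3 × Bool) × ℤ)) (hs : ∀ q ∈ s, q.1.1 ≠ 1) :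
    cntL (thw k s) 0 = cntL (s.map Prod.fst) 0 ∧
    cntL (thw k s) 1 = (s.map (fun q => if q.2 = 0 then 0 else 2)).sum ∧
    cntL (thw k s) 2 = k * (s.map (fun q => q.2.natAbs)).sum + cntL (s.map Prod.fst) 2 := by
  induction s with
  | nil => simp [thw, cntL]
  | cons q t ih =>
    obtain ⟨h1, h2, h3⟩ := ih (fun r hr => hs r (by simp [hr]))
    have hq := hs q (by simp)
    rw [RtE1_cons]
    have key : ∀ i, cntL (q.1 :: (RtE1_tl k q ++ thw k t)) i =
        (if q.1.1 = i then 1 else 0) + cntL (RtE1_tl k q) i + cntL (thw k t) i := by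
      intro i
      unfold cntL
      rw [List.countP_cons, List.countP_append]
      simp only [decide_eq_true_eq]
      ring
    have key2 : ∀ i, cntL (List.map Prod.fst (q :: t)) i =
        (if q.1.1 = i then 1 else 0) + cntL (List.map Prod.fst t) i := by
      intro i
      unfold cntL
      rw [List.map_cons, List.countP_cons]
      simp only [decide_eq_true_eq]
      ring
    have key3 : ∀ i, cntL (RtE1_tl k q) i = if q.2 = 0 then 0 else
        (if (1 : Fin 3) = i then 2 else 0) + (if (2 : Fin 3) = i then (k * q.2.natAbs) else 0) := by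
      intro i
      unfold RtE1_tl
      by_cases h : q.2 = 0
      · simp [h, cntL]
      · rw [if_neg h, if_neg h]
        unfold cntL
        rw [List.countP_cons, List.countP_append, zpw, List.countP_replicate, Int.natAbs_mul,
          Int.natAbs_natCast]
        simp only [decide_eq_true_eq, List.countP_cons, List.countP_nil]
        split_ifs <;> ring
    refine ⟨?_, ?_, ?_⟩
    · rw [key, key2, key3, h1]
      simp
    · rw [key, key3, h2, List.map_cons, List.sum_cons]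
      simp [hq]
    · rw [key, key2, key3, h3, List.map_cons, List.sum_cons]
      by_cases h : q.2 = 0
      · simp [h]; ring
      · simp [h]; ring

theorem th_cnt0 {k : ℕ} (hk : 1 ≤ k) {Ω : CC} (hp : 0 < cnt Ω 0) : cnt (th k Ω) 0 = cnt Ω 0 := by
  obtain ⟨s, hne, hs, rfl⟩ := RtE1_ex hp
  obtain ⟨h1, h2⟩ := th_list hk hs hne
  rw [h1, cnt_cls h2, cnt_cls hs.2, (RtE1_cntL k s hs.1).1, cntL_expand_ne 1 s (by decide)]

theorem th_cnt1 {k : ℕ} (hk : 1 ≤ k) {Ω : CC} (hp : 0 < cnt Ω 0) :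
    cnt (th k Ω) 1 = capC Ω (PrC 1) := by
  obtain ⟨s, hne, hs, rfl⟩ := RtE1_ex hp
  obtain ⟨h1, h2⟩ := th_list hk hs hne
  rw [h1, cnt_cls h2, (RtE1_cntL k s hs.1).2.1, ← capC_compl, capC_cls hs.2,
    cap_expand_nonsep 1 s hs.1 _ (by simp [PrC]) (by simp [PrC]), ← cyc_fst]
  apply WhEff_cyc_congr
  intro q hq r hr
  have hq1 := hs.1 q hq
  have hr1 := hs.1 r hr
  simp [PrC, hq1, hr1]

theorem th_cnt2 {k : ℕ} (hk : 1 ≤ k) {Ω : CC} (hp : 0 < cnt Ω 0) :
    cnt (th k Ω) 2 = k * cnt Ω 1 + cnt Ω 2 := by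
  obtain ⟨s, hne, hs, rfl⟩ := RtE1_ex hp
  obtain ⟨h1, h2⟩ := th_list hk hs hne
  rw [h1, cnt_cls h2, cnt_cls hs.2, cnt_cls hs.2, (RtE1_cntL k s hs.1).2.2,
    cntL_expand_self 1 s hs.1, cntL_expand_ne 1 s (i := 2) (by decide)]

/-- sum of `|m|` over the subwords `z c^m z⁻¹` -/
def RtE1_scan : Option ℕ → List (Fin 3 × Bool) → ℕ
  | _, [] => 0
  | none, (x :: w) => if x = (1, true) then RtE1_scan (some 0) w else RtE1_scan none w
  | some n, (x :: w) => if x.1 = 2 then RtE1_scan (some (n + 1)) w else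
      if x = (1, false) then n + RtE1_scan none w else
      if x = (1, true) then RtE1_scan (some 0) w else RtE1_scan none w

theorem RtE1_scan_none (m : ℕ) (b : Bool) (w : List (Fin 3 × Bool)) :
    RtE1_scan none (List.replicate m ((2 : Fin 3), b) ++ w) = RtE1_scan none w := by
  induction m with
  | zero => simp
  | succ m ih => rw [List.replicate_succ, List.cons_append, RtE1_scan, if_neg (by simp), ih]

theorem RtE1_scan_some (n m : ℕ) (b : Bool) (w : List (Fin 3 × Bool)) :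
    RtE1_scan (some n) (List.replicate m ((2 : Fin 3), b) ++ w) = RtE1_scan (some (n + m)) w := by
  induction m generalizing n with
  | zero => simp
  | succ m ih =>
    rw [List.replicate_succ, List.cons_append, RtE1_scan, if_pos rfl, ih]
    congr 2
    ring

/-- state after a syllable -/
def RtE1_st (a : (Fin 3 × Bool) × ℤ) : Option ℕ := if a.1 = (1, true) then some a.2.natAbs else none

theorem RtE1_scan_cons (st : Option ℕ) (a : (Fin 3 × Bool) × ℤ) (ha : a.1.1 ≠ 2)
    (L : List ((Fin 3 × Bool) × ℤ)) :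
    RtE1_scan st (expand 2 (a :: L)) =
      (if a.1 = (1, false) then st.getD 0 else 0) + RtE1_scan (RtE1_st a) (expand 2 L) := by
  rw [SylB_expand_cons, zpw, RtE1_st]
  rcases st with _ | n
  · rw [RtE1_scan]
    by_cases h : a.1 = (1, true)
    · rw [if_pos h, if_pos h, RtE1_scan_some]
      simp [h]
    · rw [if_neg h, if_neg h, RtE1_scan_none]
      simp
  · rw [RtE1_scan, if_neg ha]
    by_cases h : a.1 = (1, false)
    · rw [if_pos h, RtE1_scan_none]
      simp [h]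
    · rw [if_neg h]
      by_cases h' : a.1 = (1, true)
      · rw [if_pos h', if_pos h', RtE1_scan_some]
        simp [h']
      · rw [if_neg h', if_neg h', RtE1_scan_none]
        simp [h]

theorem RtE1_scan_lin (a : (Fin 3 × Bool) × ℤ) (L : List ((Fin 3 × Bool) × ℤ))
    (hL : ∀ q ∈ L, q.1.1 ≠ 2) (w : (Fin 3 × Bool) × ℤ) (hw : w.1 ≠ (1, false)) :
    lin (fun a r : (Fin 3 × Bool) × ℤ => if r.1 = (1, false) then (RtE1_st a).getD 0 else 0) a L w =
      RtE1_scan (RtE1_st a) (expand 2 L) := by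
  induction L generalizing a with
  | nil =>
    rw [lin, if_neg hw]
    cases h : RtE1_st a <;> simp [expand, RtE1_scan]
  | cons r L ih =>
    rw [lin, ih r (fun q hq => hL q (by simp [hq])), RtE1_scan_cons _ r (hL r (by simp))]

theorem RtE1_scan_thw {k : ℕ} (s : List ((Fin 3 × Bool) × ℤ)) (hs : ∀ q ∈ s, q.1.1 ≠ 1) :
    RtE1_scan none (thw k s) = k * (s.map (fun q => q.2.natAbs)).sum := by
  induction s with
  | nil => simp [thw, RtE1_scan]
  | cons q t ih =>
    have h1 := ih (fun r hr => hs r (by simp [hr]))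
    have hq := hs q (by simp)
    have hq' : q.1 ≠ (1, true) := fun e => hq (by rw [e])
    rw [RtE1_cons, RtE1_scan, if_neg hq']
    unfold RtE1_tl
    by_cases h : q.2 = 0
    · rw [if_pos h, List.nil_append, h1]
      simp [h]
    · rw [if_neg h, List.cons_append, RtE1_scan, if_pos rfl, List.append_assoc, zpw, RtE1_scan_some,
        List.singleton_append, RtE1_scan, if_neg (by decide), if_pos rfl, h1, Int.natAbs_mul,
        Int.natAbs_natCast, List.map_cons, List.sum_cons]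
      ring

theorem th_cap {k : ℕ} (hk : 1 ≤ k) {Ω : CC} (hp : 0 < cnt Ω 0) {A A' : Ct}
    (h0 : ∀ b, A' (0, b) = A (0, b)) (h1 : A (1, true) = A (1, false))
    (h2 : A (2, true) = A (2, false)) (h3 : A' (1, false) = A (1, false))
    (h4 : A' (1, true) = A (2, true)) (h5 : ∀ b, A' (2, b) = A (2, true)) :
    capC (th k Ω) A' = capC Ω A := by
  obtain ⟨s, hne, hs, rfl⟩ := RtE1_ex hp
  obtain ⟨e1, e2⟩ := th_list hk hs hne
  have hA : ∀ x : Fin 3 × Bool, x.1 ≠ 1 → A' x = A x := by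
    rintro ⟨i, b⟩ hi
    fin_cases i
    · exact h0 b
    · exact absurd rfl hi
    · cases b
      · exact (h5 false).trans h2
      · exact h5 true
  rw [e1, capC_cls e2, capC_cls hs.2, cap, cap, RtE1_cyc, SylC_cyc_expand]
  apply WhEff_cyc_congr
  intro q hq r hr
  have hq1 := hs.1 q hq
  have hr1 := hs.1 r hr
  have hq2 := hA q.1 hq1
  have hr2 := hA (bar r.1) (by rw [bar_fst]; exact hr1)
  rcases RtE1_blk' (fun x y => if A' x = A' (bar y) then 0 else 1) hk q r.1 with
    ⟨g0, g1⟩ | ⟨g0, n, b, g1⟩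
  · rw [g1]
    rcases SylC_lin_zpw (fun x y => if A x = A (bar y) then 0 else 1) q.1 1 q.2 r.1 with
      ⟨f0, f1⟩ | ⟨m, f0, f1⟩ | ⟨m, f0, f1⟩
    · rw [f1]
      simp only [hq2, hr2]
    · omega
    · omega
  · rw [g1]
    have b1 : bar ((1 : Fin 3), true) = (1, false) := rfl
    have b2 : bar ((1 : Fin 3), false) = (1, true) := rfl
    have b3 : bar ((2 : Fin 3), b) = (2, !b) := rfl
    have k1 : A' ((2 : Fin 3), b) = A (2, true) := h5 b
    have k2 : A' ((2 : Fin 3), !b) = A (2, true) := h5 _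
    rcases SylC_lin_zpw (fun x y => if A x = A (bar y) then 0 else 1) q.1 1 q.2 r.1 with
      ⟨f0, f1⟩ | ⟨m, f0, f1⟩ | ⟨m, f0, f1⟩
    · exact absurd f0 g0
    · rw [f1]
      simp only [b1, b2, b3, k1, k2, hq2, hr2, h3, h4, h1]
      simp
    · rw [f1]
      simp only [b1, b2, b3, k1, k2, hq2, hr2, h3, h4, h1]
      simp

theorem RtE1_gx {s s' : List ((Fin 3 × Bool) × ℤ)} (h : s ~r s') (X : Ct) :
    gx s 0 X = gx s' 0 X := cyc_rotated _ h

theorem th_gx {k : ℕ} (hk : 1 ≤ k) {Ω : CC} (hp : 0 < cnt Ω 0)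
    {s : List ((Fin 3 × Bool) × ℤ)} (hs : SValid 2 s) (hV : cls (expand 2 s) = th k Ω) :
    gx s 0 (sgl ((1 : Fin 3), true)) = k * cnt Ω 1 := by
  obtain ⟨s0, hne0, hs0, e0⟩ := RtE1_ex hp
  -- a letter of generator 0
  have h0 : 0 < cntL (s0.map Prod.fst) 0 := by
    rw [← cntL_expand_ne 1 s0 (i := 0) (by decide), ← cnt_cls hs0.2, e0]
    exact hp
  obtain ⟨x, hx, hx0⟩ : ∃ x ∈ s0.map Prod.fst, x.1 = (0 : Fin 3) := by
    unfold cntL at h0
    rw [List.countP_pos_iff] at h0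
    obtain ⟨x, hx, hx'⟩ := h0
    exact ⟨x, hx, by simpa using hx'⟩
  obtain ⟨q, hq, rfl⟩ := List.mem_map.1 hx
  obtain ⟨u, v, huv⟩ := List.append_of_mem hq
  have hrot : s0 ~r (q :: (v ++ u)) := by
    rw [huv]
    have := List.isRotated_append (l := u) (l' := q :: v)
    simpa using this
  have hmem : ∀ r ∈ q :: (v ++ u), r.1.1 ≠ 1 := fun r hr =>
    hs0.1 r (hrot.mem_iff.2 hr)
  have hexp : expand 1 s0 ~r expand 1 (q :: (v ++ u)) := by
    rw [huv]
    unfold expand
    rw [List.flatMap_append, ← List.cons_append, List.flatMap_append]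
    exact List.isRotated_append
  have hs1 : SValid 1 (q :: (v ++ u)) := ⟨hmem, CR_of_rotated hexp hs0.2⟩
  have e1 : cls (expand 1 (q :: (v ++ u))) = Ω := by rw [← cls_of_rotated hexp, e0]
  obtain ⟨g1, g2⟩ := th_list hk hs1 (by simp)
  rw [e1] at g1
  obtain ⟨e, L, hL, hL2⟩ := SylA_group 2 (thw k (q :: (v ++ u))) g2.1
  have he : e = 0 := by
    by_contra hne
    have h1 := congrArg List.head? hL
    rw [RtE1_cons, zpw] at h1
    obtain ⟨n, hn⟩ : ∃ n, e.natAbs = n + 1 := Nat.exists_eq_succ_of_ne_zero (by omega)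
    rw [hn, List.replicate_succ, List.cons_append, List.head?_cons, List.head?_cons] at h1
    have h2 := congrArg Prod.fst (Option.some.inj h1)
    rw [hx0] at h2
    exact absurd h2 (show ¬ (0 : Fin 3) = 2 by decide)
  rw [he] at hL
  have hL' : thw k (q :: (v ++ u)) = expand 2 L := by rw [hL]; simp [zpw]
  have hSL : SValid 2 L := ⟨hL2, by rw [← hL']; exact g2⟩
  cases L with
  | nil =>
    rw [RtE1_cons] at hL'
    simp [expand] at hL'
  | cons a L =>
    have ha : a.1 = q.1 := by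
      rw [RtE1_cons, SylB_expand_cons] at hL'
      exact (List.cons_eq_cons.1 hL').1.symm
    have hrotL : (a :: L) ~r s := syl_uniq hSL hs (by simp) (by rw [← hL', ← g1, hV])
    rw [← RtE1_gx hrotL]
    have ha' : a.1 ≠ ((1 : Fin 3), false) := fun h => by
      rw [ha] at h
      rw [h] at hx0
      exact absurd hx0 (by decide)
    have k1 : gx (a :: L) 0 (sgl ((1 : Fin 3), true)) =
        cyc (fun a r : (Fin 3 × Bool) × ℤ => if r.1 = (1, false) then (RtE1_st a).getD 0 else 0)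
          (a :: L) := by
      unfold gx
      apply WhEff_cyc_congr
      intro x _ y _
      have hy : sgl ((1 : Fin 3), true) (bar y.1) = decide (y.1 = ((1 : Fin 3), false)) := by
        unfold sgl
        rw [decide_eq_decide]
        constructor
        · intro h
          rw [← bar_bar y.1, h]
          rfl
        · intro h
          rw [h]
          rfl
      rw [hy]
      unfold sgl RtE1_st
      by_cases h1 : x.1 = ((1 : Fin 3), true)
      · by_cases h2 : y.1 = ((1 : Fin 3), false)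
        · simp [h1, h2]
        · simp [h1, h2]
      · by_cases h2 : y.1 = ((1 : Fin 3), false)
        · simp [h1, h2]
        · simp [h1, h2]
    rw [k1, cyc, RtE1_scan_lin a L (fun r hr => hL2 r (by simp [hr])) a ha']
    have k2 := RtE1_scan_cons none a (hL2 a (by simp)) L
    rw [if_neg ha', zero_add] at k2
    rw [← k2, ← hL', RtE1_scan_thw _ hs1.1, ← cntL_expand_self 1 _ hs1.1, ← cnt_cls hs1.2, e1]

theorem th_ec (k : ℕ) (Ω : CC) :
    act (pot 2 (ind (sgl ((1 : Fin 3), true)))) (th k Ω) = th k Ω := by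
  have h := th_pot k (p := 0) (p' := ind (sgl ((1 : Fin 3), true)))
    (fun b => by simp [ind, sgl]) rfl (by simp [ind, sgl]) Ω
  rw [← h, pot_zero]

end Pool.Agent.Sims
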