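import Pool.Agent.Sims.RtQ5

/-!
# Module `RtQ6` : counting the patterns, square letters `b` and `c`

`Jf σ` : `σ = 1` or `σ` changes the signs of both `b` and `c` (`σ.perm = 1`, `σ.sign 0 = true`, `σ.sign 1 = σ.sign 2`).
* `cj12`: as `ct24` (module `RtQ5`): now `u = (g true).toWord ++ (g false).toWord` has 2 letters, one of generator 1, one of generator 2: 2 orders, 3 splittings, up to `Jf` the letter of generator 1 is positive, 2 signs of the letter of generator 2: 12.
* `cjT4`: `g.toWord` has one letter of generator 1 and one of generator 2: 2 orders, 2 signs up to `Jf`: 4.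
* `cjP12`: `V = cls (v^h)`, `v` with two letters of generator 0 and one letter of generators 1, 2 each.  Rotate: `v = b^{±} y1 y2 y3`.  Up to `σ` with `σ.perm = 1`, `σ.sign 1 = σ.sign 2` (`σ.sign 0` arbitrary): `b` positive, the first letter of generator 0 positive; 3 positions
  and 2 signs of `c`, 2 signs of the second `a`: 12.
Difficulty 3.
-/

namespace Pool.Agent.Sims

/-- joint sign changes of `b` and `c` -/
def Jf (σ : SPerm (Fin 3)) : Prop := σ.perm = 1 ∧ σ.sign 0 = true ∧ σ.sign 1 = σ.sign 2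

/-- sign changes of `a`, and joint sign changes of `b` and `c` -/
def Ja (σ : SPerm (Fin 3)) : Prop := σ.perm = 1 ∧ σ.sign 1 = σ.sign 2

/-- cover up to `Jf` -/
def CovJ (S : Set CC) (N : ℕ) : Prop := ∃ F : Finset CC, F.card ≤ N ∧
  ∀ W ∈ S, ∃ σ : SPerm (Fin 3), Jf σ ∧ ∃ e ∈ F, W = act σ.aut e

/-- cover up to `Ja` -/
def CovA (S : Set CC) (N : ℕ) : Prop := ∃ F : Finset CC, F.card ≤ N ∧
  ∀ W ∈ S, ∃ σ : SPerm (Fin 3), Ja σ ∧ ∃ e ∈ F, W = act σ.aut e

open FreeGroup (of)

/-- the signed permutation with signs `s0` for `a` and `s1` for `b`, `c` -/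
def RtQ6_s (s0 s1 : Bool) : SPerm (Fin 3) := ⟨1, fun i => if i = 0 then s0 else s1⟩

/-- the corresponding map of letters -/
def RtQ6_l (s0 s1 : Bool) (z : Fin 3 × Bool) : Fin 3 × Bool :=
  (z.1, if (if z.1 = 0 then s0 else s1) then z.2 else !z.2)

theorem RtQ6_letter (s0 s1 : Bool) : (RtQ6_s s0 s1).letter = RtQ6_l s0 s1 := rfl

theorem RtQ6_jf (s : Bool) : Jf (RtQ6_s true s) := ⟨rfl, rfl, rfl⟩

theorem RtQ6_ja (s0 s : Bool) : Ja (RtQ6_s s0 s) := ⟨rfl, rfl⟩

theorem RtQ6_fix (s : Bool) : Fix0 (RtQ6_s true s) := ⟨rfl, rfl⟩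

/-- the words with two letters -/
def RtQ6_v (o b : Bool) : List (Fin 3 × Bool) := if o then [(1, true), (2, b)] else [(2, b), (1, true)]

theorem RtQ6_two : ∀ x y : Fin 3 × Bool, (cntL [x, y] 0, cntL [x, y] 1, cntL [x, y] 2) = (0, 1, 1) →
    ∃ s o b : Bool, [x, y] = (RtQ6_v o b).map (RtQ6_l true s) := by
  unfold cntL
  decide

theorem RtQ6_two' {u : List (Fin 3 × Bool)} (h0 : cntL u 0 = 0) (h1 : cntL u 1 = 1) (h2 : cntL u 2 = 1) :
    ∃ s o b : Bool, u = (RtQ6_v o b).map (RtQ6_s true s).letter := by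
  have hl := EvN6_len u
  rw [h0, h1, h2] at hl
  obtain ⟨x, y, rfl⟩ : ∃ x y, u = [x, y] := by
    match u, hl with
    | [x, y], _ => exact ⟨x, y, rfl⟩
  exact RtQ6_two x y (by rw [h0, h1, h2])

/-- the words with four letters -/
def RtQ6_w (p : Fin 3) (b c : Bool) : List (Fin 3 × Bool) :=
  if p = 0 then [(1, true), (2, b), (0, true), (0, c)]
  else if p = 1 then [(1, true), (0, true), (2, b), (0, c)]
  else [(1, true), (0, true), (0, c), (2, b)]

set_option maxRecDepth 100000 in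
theorem RtQ6_four : ∀ (s : Bool) (x y z : Fin 3 × Bool),
    (cntL [(1, s), x, y, z] 0, cntL [(1, s), x, y, z] 1, cntL [(1, s), x, y, z] 2) = (2, 1, 1) →
    ∃ (s0 s1 : Bool) (p : Fin 3) (b c : Bool), [(1, s), x, y, z] = (RtQ6_w p b c).map (RtQ6_l s0 s1) := by
  unfold cntL
  decide

theorem RtQ6_flat (h : ℕ) (v : List (Fin 3 × Bool)) :
    FreeGroup.mk (List.replicate h v).flatten = (FreeGroup.mk v) ^ h := by
  induction h with
  | zero => rfl
  | succ h ih =>
    rw [List.replicate_succ, List.flatten_cons, ← FreeGroup.mul_mk, ih, pow_succ']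

theorem RtQ6_rot (h : ℕ) (u v : List (Fin 3 × Bool)) :
    cls (List.replicate h (u ++ v)).flatten = cls (List.replicate h (v ++ u)).flatten := by
  unfold cls
  rw [RtQ6_flat, RtQ6_flat, ConjClasses.mk_eq_mk_iff_isConj, ← FreeGroup.mul_mk, ← FreeGroup.mul_mk]
  have h1 : IsConj (FreeGroup.mk u * FreeGroup.mk v) (FreeGroup.mk v * FreeGroup.mk u) := by
    rw [isConj_iff]
    exact ⟨(FreeGroup.mk u)⁻¹, by group⟩
  exact h1.pow h

theorem RtQ6_norm {v : List (Fin 3 × Bool)} (h0 : cntL v 0 = 2) (h1 : cntL v 1 = 1) (h2 : cntL v 2 = 1)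
    (h : ℕ) : ∃ (s0 s1 : Bool) (p : Fin 3) (b c : Bool),
      cls (List.replicate h v).flatten =
        act (RtQ6_s s0 s1).aut (cls (List.replicate h (RtQ6_w p b c)).flatten) := by
  have h3 : 0 < v.countP (fun x => decide (x.1 = 1)) := by
    have : v.countP (fun x => decide (x.1 = (1 : Fin 3))) = 1 := h1
    omega
  obtain ⟨a, ha, hp⟩ := List.countP_pos_iff.1 h3
  obtain ⟨i, s⟩ := a
  have hi : i = 1 := by simpa using hp
  subst hi
  obtain ⟨u, w, rfl⟩ := List.append_of_mem ha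
  have hl := EvN6_len ((1, s) :: w ++ u)
  have hcc : ∀ i, cntL ((1, s) :: w ++ u) i = cntL (u ++ (1, s) :: w) i := by
    intro i
    unfold cntL
    rw [List.countP_append, List.countP_append, add_comm]
  have g0 := (hcc 0).trans h0
  have g1 := (hcc 1).trans h1
  have g2 := (hcc 2).trans h2
  rw [g0, g1, g2] at hl
  rw [List.cons_append] at hl g0 g1 g2
  rw [RtQ6_rot h u ((1, s) :: w), List.cons_append]
  obtain ⟨x, y, z, hxyz⟩ : ∃ x y z, w ++ u = [x, y, z] := by
    have hl' : (w ++ u).length = 3 := by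
      rw [List.length_cons] at hl
      omega
    generalize w ++ u = t at hl'
    match t, hl' with
    | [x, y, z], _ => exact ⟨x, y, z, rfl⟩
  rw [hxyz] at g0 g1 g2 ⊢
  obtain ⟨s0, s1, p, b, c, hw⟩ := RtQ6_four s x y z (by rw [g0, g1, g2])
  refine ⟨s0, s1, p, b, c, ?_⟩
  rw [hw, Rel_act_cls, ← RtQ6_letter, EvN6_flat]

theorem cj12 {n : ℕ} (hn : 0 < n) {port : Bool → Bool → Bool} {π : List (Bool × Bool)}
    (hc : Cons port π) (h1 : 2 * π.countP (fun t => t.1) = n)
    (h2 : 2 * π.countP (fun t => !t.1) = n) :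
    CovJ {V | Pat port π V ∧ 2 * cnt V 1 = n ∧ 2 * cnt V 2 = n} 12 := by
  classical
  refine ⟨(Finset.univ : Finset (Bool × Bool × Fin 3)).image (fun q => ConjClasses.mk (gw port
    (fun k => FreeGroup.mk (if k then (RtQ6_v q.1 q.2.1).take q.2.2 else (RtQ6_v q.1 q.2.1).drop q.2.2)) π)), ?_, ?_⟩
  · refine Finset.card_image_le.trans ?_
    decide
  · rintro V ⟨⟨g, hg, hg1, rfl⟩, hc1, hc2⟩
    set m := π.countP (fun t => t.1) with hm
    have h2' : π.countP (fun t => !t.1) = m := by omega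
    have hpos : 0 < m := by omega
    have key : ∀ i : Fin 3, i ≠ 0 → 2 * cnt (ConjClasses.mk (gw port g π)) i = n →
        cntL ((g true).toWord ++ (g false).toWord) i = 1 := by
      intro i hi h3
      rw [pat_cnt hc hg hg1 hi, h2', ← hm, ← Nat.mul_add, ← h1] at h3
      rw [EvCt_append]
      have h4 : m * (cntL (g true).toWord i + cntL (g false).toWord i) = m * 1 := by omega
      exact Nat.eq_of_mul_eq_mul_left hpos h4
    have key0 : cntL ((g true).toWord ++ (g false).toWord) 0 = 0 := by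
      rw [EvCt_append, EvCt_zero (hg true), EvCt_zero (hg false)]
    obtain ⟨s, o, b, hu⟩ := RtQ6_two' key0 (key 1 (by decide) hc1) (key 2 (by decide) hc2)
    have hlen : ((g true).toWord ++ (g false).toWord).length = 2 := by
      rw [EvCt_length, key0, key 1 (by decide) hc1, key 2 (by decide) hc2]
    rw [List.length_append] at hlen
    have ht : (g true).toWord = ((RtQ6_v o b).take (g true).toWord.length).map (RtQ6_s true s).letter := by
      rw [List.map_take, ← hu, List.take_left]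
    have hf : (g false).toWord = ((RtQ6_v o b).drop (g true).toWord.length).map (RtQ6_s true s).letter := by
      rw [List.map_drop, ← hu, List.drop_left]
    have hlt : (g true).toWord.length < 3 := by omega
    refine ⟨RtQ6_s true s, RtQ6_jf s, _, Finset.mem_image_of_mem _
      (Finset.mem_univ (o, b, (⟨(g true).toWord.length, hlt⟩ : Fin 3))), ?_⟩
    rw [pat_tau (RtQ6_s true s) (RtQ6_fix s)]
    have hfun : (fun k => (RtQ6_s true s).aut (FreeGroup.mk (if k = true then
        (RtQ6_v o b).take (g true).toWord.length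
        else (RtQ6_v o b).drop (g true).toWord.length))) = g := by
      funext k
      cases k
      · rw [if_neg (by decide)]
        exact (EvCt_aut _ _ _ hf).symm
      · rw [if_pos rfl]
        exact (EvCt_aut _ _ _ ht).symm
    exact congrArg (fun f => ConjClasses.mk (gw port f π)) hfun.symm

theorem cjT4 {n : ℕ} (hn : 0 < n) {j : List (ℤ × Bool)} (hj : ∀ t ∈ j, t.1 ≠ 0)
    (hl : 2 * j.length = n) :
    CovJ {V | (∃ g : FreeGroup (Fin 3), In12 g ∧ g ≠ 1 ∧ V = ConjClasses.mk (gT j g)) ∧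
      2 * cnt V 1 = n ∧ 2 * cnt V 2 = n} 4 := by
  classical
  refine ⟨(Finset.univ : Finset (Bool × Bool)).image
    (fun q => ConjClasses.mk (gT j (FreeGroup.mk (RtQ6_v q.1 q.2)))), ?_, ?_⟩
  · refine Finset.card_image_le.trans ?_
    decide
  · rintro V ⟨⟨g, hg, hg1, rfl⟩, hc1, hc2⟩
    have hpos : 0 < j.length := by omega
    have key : ∀ i : Fin 3, i ≠ 0 → 2 * cnt (ConjClasses.mk (gT j g)) i = n → cntL g.toWord i = 1 := by
      intro i hi h1
      rw [gT_cnt hj hg hg1 hi, ← hl] at h1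
      have h4 : j.length * cntL g.toWord i = j.length * 1 := by omega
      exact Nat.eq_of_mul_eq_mul_left hpos h4
    obtain ⟨s, o, b, hu⟩ := RtQ6_two' (EvCt_zero hg) (key 1 (by decide) hc1) (key 2 (by decide) hc2)
    refine ⟨RtQ6_s true s, RtQ6_jf s, _, Finset.mem_image_of_mem _ (Finset.mem_univ (o, b)), ?_⟩
    rw [gT_tau (RtQ6_s true s) (RtQ6_fix s), ← EvCt_aut _ _ g hu]

theorem cjP12 (n : ℕ) : CovA {V | ∃ (v : List (Fin 3 × Bool)) (h : ℕ), 2 * h = n ∧
    cntL v 0 = 2 ∧ cntL v 1 = 1 ∧ cntL v 2 = 1 ∧ V = cls (List.replicate h v).flatten} 12 := by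
  classical
  refine ⟨(Finset.univ : Finset (Fin 3 × Bool × Bool)).image
    (fun q => cls (List.replicate (n / 2) (RtQ6_w q.1 q.2.1 q.2.2)).flatten), ?_, ?_⟩
  · refine Finset.card_image_le.trans ?_
    decide
  · rintro V ⟨v, h, hh, h0, h1, h2, rfl⟩
    obtain ⟨s0, s1, p, b, c, hw⟩ := RtQ6_norm h0 h1 h2 h
    have hn : n / 2 = h := by omega
    refine ⟨RtQ6_s s0 s1, RtQ6_ja s0 s1, _, Finset.mem_image_of_mem _ (Finset.mem_univ (p, b, c)), ?_⟩
    rw [hn]
    exact hw

end Pool.Agent.Sims
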