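import Pool.Agent.Sims.RtE6
import Pool.Agent.Sims.RtD1
import Pool.Agent.Sims.RtQ6

/-!
# Module `RtE9` : double data: `V = th k (pw (e2 k') Ω0)`

Square letters `b = t` and `c` (`Qtc`), world without fixed letters.  `Ω = pw (e2 k') Ω0`.
* `th2_ex`: `T : Th1 n K k Ω`, `capC Ω (PrC 2) = n`, a rotation `U, I, κ'` of `V = th k Ω`.  `cs_z`, `cs_dt`: `U = {z⁻¹, a, a⁻¹}`.  WLOG `κ' > 0` (`rw_neg`), `k' = κ'.toNat`.  Let `s` be a syllable list (generator 2) of `Ω`, `s'` the list obtained by replacing `(t^δ, g)` by `(z, δ k), (z⁻¹, g)`: `V = cls (expand 2 s')`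
  (no two `t`-letters with gain 0 between them, `capC Ω (PrC 1) = n = 2 cnt Ω 1`; as in `cs_nd`).  `rot_str` for `V`, `s'`: all gains of `s` are `0, ± κ'`.  So `Ω = pw (e2 k') Ω0`, `Ω0 = cls (expand 2 (s with gains divided by k'))` (`pw_syl`).  `capC Ω (PrC 2) = n = 2 #{nonzero gains of s}`, so
  `cnt Ω 2 = k' n/2`, `2 cnt Ω0 2 = n`; `cnt Ω0 0 = n`, `2 cnt Ω0 1 = n` (`pw_cnt`), `2 K = n (k + k')` (`th1_facts`).
  `BQ n PN Qtc Ω0`: tight: `capC Ω0 (PrC j) = capC Ω (PrC j) = n`, `j = 1, 2` (`pw_cap`).  `low`: `A` proper.  `A` separates neither `t` nor `c`, or only `t`: `A` is `P2`-fixed: `capC (sq Qtc Ω0) A = capC (sq Qt Ω) A ≥ n` (`pw_cap`, `pw_cnt`; `T.B.e.low`).  `A` separates both: `capC (sq Qtc Ω0) A ≥ cnt Ω0 1 + cnt Ω0 2 = n`.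
  `A` separates only `c`: `c ∈ A` say (complement); `q = ind A`, `q (t) = q (t⁻¹)`: `cnt (act (pot 2 q) Ω0) 2 = capC Ω0 A =: m` (`wh_pot`, `cnt_wh_self`); `pw_pot`, `th_pot`: `act (pot 2 (k' q')) V = th k (pw (e2 k') (act (pot 2 q) Ω0))` (`q'` = `q` on `a^{±1}`, `z⁻¹`), its count of `c` is `k n/2 + k' m`
  (`th_cnt2`, `pw_cnt`; the count of `t` is unchanged by `pot 2`), and `≥ K = (k + k') n/2` (`hv_min`): `m ≥ n/2`, `capC (sq Qtc Ω0) A = m + n/2 ≥ n`.
  `X1`: `T.X` gives `C` with `NP n P2 (sq Qt Ω) C` crossing `PrC 1`; `C` is `P2`-fixed: `capC (sq Qtc Ω0) C = capC (sq Qt Ω) C = n`.  `X2`: `C = {(2,true)} ∪ I°`, `I°` = `I` on `a^{±1}`, on `t^{±1}` the value `I (z⁻¹)`: by `rot_cnt` (and `th_pot`, `pw_pot`, `th_cnt2` as above) `cnt (act (pot 2 (ind I°)) Ω0) 2 = n/2`: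
  `capC Ω0 C = n/2`, `capC (sq Qtc Ω0) C = n`; it crosses `PrC 2` (`I` is a nonempty proper subset of `U`).
* `th2_th1`: `Th1 n K k (pw (e2 k') Ω0)`: `B`: `2 cnt _ 1 = n` (`pw_cnt`, `bq_cnt`), `th_bq`.  `capC (pw (e2 k') Ω0) (PrC 2) = n` (`pw_cap`, `B.t`).  `X`: let `S = sq Qtc Ω0` (`Eq3 n S`, `pn_eq3`).  A `P2`-fixed cut `D` with `NC n S D` crossing `PrC 1` gives `X` (`capC (sq Qt (pw (e2 k') Ω0)) D = capC S D`,
  `pw_cap`, `pw_cnt`).  `X1`: some `C`, `NC n S C`, crosses `PrC 1`; so `C` contains exactly one of `t, t⁻¹`.  If `C (2,true) = C (2,false)`: `D = C`.  Otherwise `PrC 2` (tight: `B.t`, `pw_cap`) and `C` cross (`t^{±1}` give the two corners outside `PrC 2`): `f1`: `C ∖ PrC 2` and `Cᶜ ∖ PrC 2` are tight.  Together they contain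
  `a, a⁻¹`, each contains exactly one of `t, t⁻¹`; `D` = one of them containing a letter `a^{±1}`: it crosses `PrC 1` (`c ∉ D`).
* `th2_sq`: one step `StQ PN Qtc ⊤ Ω0 Ω0'`, `Ω0' = act (wh y A) Ω0`, `QF Qtc y.1 A`.  If `y.1 ≠ 2` we may assume `c^{±1} ∉ A` (complement).  `y.1 = 0`: `A` constant on `t^{±1}` and `c^{±1}`: `pw_wh`, `th_wh0`.  `y.1 = 1`: `A` constant on `c^{±1}`: `pw_wh`, `th_t` (`B = {a, a⁻¹, z⁻¹}`).  `y.1 = 2`: `A`
  constant on `t^{±1}`: `wh y A = pot 2 (whp y A)`, `pw_pot`, `th_pot`.  In all cases `th k (pw (e2 k') Ω0')` is in the automorphic orbit of `V`, with counts `n, n, K` (`th_cnt*`, `pw_cnt`, `bq_cnt`, `BQ.t` for `Ω0'`, `pn_sq`): `hv_of`.  `X1`, `X2`: `pn_pr`.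
* `clg2`: `S = {pw (e2 k') Ω0' | Ω0' ∈ SQ PN Qtc ⊤ Ω0}`.  `t`: `th2_th1`, `th2_sq`.  `s`: `StQ P2 Qt (· ≠ 2) Ω' Ω''` with `Ω' = pw (e2 k') Ω0'`: `y.1 ≠ 2`, `A` constant on `c^{±1}`: `Ω'' = pw (e2 k') (act (wh y A) Ω0')` (`pw_wh`), `Lv Ω0' y A` (`pw_cap`, `pw_cnt`), `QF Qtc y.1 A`: `SQ_step`.
  `r`: a rotation `U, I, κ` of `th k Ω'`: `th2_ex`: `Ω' = pw (e2 k1) Ω1` with `2 K = n (k + k1)`, `k1 = |κ|`, so `|κ| = k'`.  `cs_z`, `cs_dt`.  WLOG `κ = k'` (`rw_neg`).  `act (pot 2 (κ 1_I)) (th k Ω') = th k (pw (e2 k') (act (pot 2 (ind I°)) Ω0'))` (`th_pot`, `pw_pot`), by `rot_cnt` the count of `c` of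
  `act (pot 2 (ind I°)) Ω0'` is `n/2`: it is the level move `wh (2,true) ({(2,true)} ∪ I°)` (`wh_pot`, `cnt_wh_self`), `QF Qtc 2 _` (`I°` constant on `t^{±1}`): `SQ_step`.
Difficulty 5.
-/

namespace Pool.Agent.Sims

/-- `b` and `c` are square letters -/
def Qtc : Fin 3 → Bool := fun i => decide (i ≠ 0)

/-- double data -/
structure Th2 (n K k k' : ℕ) (Ω0 : CC) : Prop where
  hk : 1 ≤ k
  hk' : 1 ≤ k'
  hK : 2 * K = n * (k + k')
  H : Hv n K (th k (pw (e2 k') Ω0))
  B : BQ n PN Qtc Ω0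
  X1 : VX n (sq Qtc Ω0) (PrC 1)
  X2 : VX n (sq Qtc Ω0) (PrC 2)

theorem RtE9_Q1 : Qtc 1 = true := by simp [Qtc]
theorem RtE9_Q2 : Qtc 2 = true := by simp [Qtc]
theorem RtE9_Q0 : Qtc 0 = false := by simp [Qtc]

theorem RtE9_caps (V : CC) (A : Ct) : capC (sq Qtc V) A = capC V A +
    (if A (1, true) = A (1, false) then 0 else cnt V 1) +
    (if A (2, true) = A (2, false) then 0 else cnt V 2) := by
  unfold sq
  rw [pw_cap (e := fun i => if Qtc i then 2 else 1) (by
    intro i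
    split <;> decide), Fin.sum_univ_three]
  simp only [RtE9_Q0, RtE9_Q1, RtE9_Q2, if_true, Bool.false_eq_true, if_false]
  simp only [Nat.sub_self, zero_mul, ite_self, zero_add, show 2 - 1 = 1 from rfl, one_mul]
  ring

theorem RtE9_capt (V : CC) (A : Ct) : capC (sq Qt V) A = capC V A +
    (if A (1, true) = A (1, false) then 0 else cnt V 1) := by
  unfold sq
  rw [pw_cap (e := fun i => if Qt i then 2 else 1) (by
    intro i
    split <;> decide), Fin.sum_univ_three]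
  have q0 : Qt 0 = false := by simp [Qt]
  have q1 : Qt 1 = true := by simp [Qt]
  have q2 : Qt 2 = false := by simp [Qt]
  simp only [q0, q1, q2, if_true, Bool.false_eq_true, if_false]
  simp only [Nat.sub_self, zero_mul, ite_self, zero_add, show 2 - 1 = 1 from rfl, one_mul,
    add_zero]

theorem RtE9_cnts (V : CC) (i : Fin 3) :
    cnt (sq Qtc V) i = (if Qtc i then 2 else 1) * cnt V i := by
  unfold sq
  rw [pw_cnt (e := fun i => if Qtc i then 2 else 1) (by
    intro i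
    split <;> decide)]

theorem RtE9_same {k' : ℕ} (hk' : 1 ≤ k') (Ω0 : CC) {A : Ct} (hA : A (2, true) = A (2, false)) :
    capC (sq Qt (pw (e2 k') Ω0)) A = capC (sq Qtc Ω0) A := by
  rw [RtE9_capt, RtE9_caps, RtD1_cap hk' hA, RtD1_cnt hk' (by decide), if_pos hA, add_zero]

theorem RtE9_bb {a b : Bool} (h : a ≠ b) : (a = true ∧ b = false) ∨ (a = false ∧ b = true) := by
  cases a <;> cases b <;> simp_all

theorem RtE9_p1 : PrC 1 (2, true) = PrC 1 (2, false) := rfl
theorem RtE9_p2 : PrC 2 (2, true) = PrC 2 (2, false) := rfl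

theorem RtE9_c0 {k k' : ℕ} (hk : 1 ≤ k) (hk' : 1 ≤ k') {Ω0 : CC} (hp : 0 < cnt Ω0 0) :
    cnt (th k (pw (e2 k') Ω0)) 0 = cnt Ω0 0 := by
  rw [th_cnt0 hk (by rw [RtD1_cnt hk' (by decide)]; exact hp), RtD1_cnt hk' (by decide)]

theorem RtE9_c1 {k k' : ℕ} (hk : 1 ≤ k) (hk' : 1 ≤ k') {Ω0 : CC} (hp : 0 < cnt Ω0 0) :
    cnt (th k (pw (e2 k') Ω0)) 1 = capC Ω0 (PrC 1) := by
  rw [th_cnt1 hk (by rw [RtD1_cnt hk' (by decide)]; exact hp), RtD1_cap hk' RtE9_p1]

theorem RtE9_c2 {k k' : ℕ} (hk : 1 ≤ k) (hk' : 1 ≤ k') {Ω0 : CC} (hp : 0 < cnt Ω0 0) :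
    cnt (th k (pw (e2 k') Ω0)) 2 = k * cnt Ω0 1 + k' * cnt Ω0 2 := by
  rw [th_cnt2 hk (by rw [RtD1_cnt hk' (by decide)]; exact hp), RtD1_cnt hk' (by decide),
    RtD1_cnt2 hk']

theorem RtE9_pot (k k' : ℕ) {q q' : Fin 3 × Bool → ℤ} (h0 : ∀ b, q' (0, b) = k' * q (0, b))
    (h1 : q (1, true) = q (1, false)) (h2 : q' (1, false) = k' * q (1, false)) (Ω0 : CC) :
    th k (pw (e2 k') (act (pot 2 q) Ω0)) = act (pot 2 q') (th k (pw (e2 k') Ω0)) := by
  rw [RtD1_pot]
  exact th_pot k h0 (by simp only [h1]) h2 _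

/-- the cut of the second type -/
def RtE9_C (I : Ct) : Ct := fun x => if x.1 = 2 then x.2 else if x.1 = 1 then I (1, false) else I x

theorem RtE9_lev {n K k k' : ℕ} {Ω0 : CC} (hk : 1 ≤ k) (hk' : 1 ≤ k')
    (hK : 2 * K = n * (k + k')) (H : Hv n K (th k (pw (e2 k') Ω0))) (h1 : 2 * cnt Ω0 1 = n)
    (hp : 0 < cnt Ω0 0) {U I : Ct} {κ : ℤ} (hκ : κ = k')
    (hR : RotW n (th k (pw (e2 k') Ω0)) U I κ) :
    2 * capC Ω0 (RtE9_C I) = n ∧ th k (pw (e2 k') (act (wh (2, true) (RtE9_C I)) Ω0)) =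
      act (pot 2 (fun x => κ * ind I x)) (th k (pw (e2 k') Ω0)) := by
  have e1 : act (wh (2, true) (RtE9_C I)) Ω0 = act (pot 2 (ind (RtE9_C I))) Ω0 := wh_pot _ _ _
  have e2' : th k (pw (e2 k') (act (wh (2, true) (RtE9_C I)) Ω0)) =
      act (pot 2 (fun x => κ * ind I x)) (th k (pw (e2 k') Ω0)) := by
    rw [e1]
    refine RtE9_pot k k' ?_ ?_ ?_ Ω0
    · intro b
      simp [ind, RtE9_C, hκ]
    · simp [ind, RtE9_C]
    · simp [ind, RtE9_C, hκ]
  refine ⟨?_, e2'⟩
  have h2 := rot_cnt H hR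
  rw [← e2'] at h2
  have h3 : cnt (act (wh (2, true) (RtE9_C I)) Ω0) 0 = cnt Ω0 0 := by
    rw [e1]
    exact cnt_pot_ne _ _ _ (by decide)
  have h4 : cnt (act (wh (2, true) (RtE9_C I)) Ω0) 1 = cnt Ω0 1 := by
    rw [e1]
    exact cnt_pot_ne _ _ _ (by decide)
  have h5 : cnt (act (wh (2, true) (RtE9_C I)) Ω0) 2 = capC Ω0 (RtE9_C I) :=
    cnt_wh_self Ω0 (2, true) (RtE9_C I) (by simp [RtE9_C]) (by simp [RtE9_C, bar])
  rw [RtE9_c2 hk hk' (by rw [h3]; exact hp), h4, h5] at h2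
  have h6 : k' * (2 * capC Ω0 (RtE9_C I)) = k' * n := by
    rw [← h2, ← h1] at hK
    rw [← h1]
    linarith
  exact Nat.eq_of_mul_eq_mul_left (by omega) h6

/-- a proper cut which separates only `c` -/
theorem RtE9_sep {n K k k' : ℕ} {Ω0 : CC} (hk : 1 ≤ k) (hk' : 1 ≤ k')
    (hK : 2 * K = n * (k + k')) (H : Hv n K (th k (pw (e2 k') Ω0))) (h1 : 2 * cnt Ω0 1 = n)
    (hp : 0 < cnt Ω0 0) {A : Ct} (hA1 : A (1, true) = A (1, false)) (hA : A (2, true) = true)
    (hA' : A (2, false) = false) : n ≤ 2 * capC Ω0 A := by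
  have e1 : act (wh (2, true) A) Ω0 = act (pot 2 (ind A)) Ω0 := wh_pot _ _ _
  have h5 : cnt (act (wh (2, true) A) Ω0) 2 = capC Ω0 A :=
    cnt_wh_self Ω0 (2, true) A hA (by simpa [bar] using hA')
  rw [e1] at h5
  have h2 := hv_min H (fun x => (k' : ℤ) * ind A x)
  have h3 : th k (pw (e2 k') (act (pot 2 (ind A)) Ω0)) =
      act (pot 2 (fun x => (k' : ℤ) * ind A x)) (th k (pw (e2 k') Ω0)) :=
    RtE9_pot k k' (fun b => rfl) (by simp [ind, hA1]) rfl Ω0
  have h6 : cnt (act (pot 2 (ind A)) Ω0) 0 = cnt Ω0 0 := cnt_pot_ne _ _ _ (by decide)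
  have h7 : cnt (act (pot 2 (ind A)) Ω0) 1 = cnt Ω0 1 := cnt_pot_ne _ _ _ (by decide)
  rw [← h3, RtE9_c2 hk hk' (by rw [h6]; exact hp), h7, h5] at h2
  have h8 : k' * n ≤ k' * (2 * capC Ω0 A) := by
    have h9 : 2 * K ≤ 2 * (k * cnt Ω0 1 + k' * capC Ω0 A) := by omega
    rw [hK] at h9
    rw [← h1] at h9 ⊢
    linarith
  exact Nat.le_of_mul_le_mul_left h8 (by omega)

/-- the syllables of `th k` -/
def RtE9_f (k : ℕ) (q : (Fin 3 × Bool) × ℤ) : List ((Fin 3 × Bool) × ℤ) :=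
  if q.1.1 = 1 then [(((1 : Fin 3), true), sgn q.1 * k), (((1 : Fin 3), false), q.2)] else [q]

theorem RtE9_hom (k : ℕ) : ∀ s : List ((Fin 3 × Bool) × ℤ), (∀ q ∈ s, q.1.1 ≠ 2) →
    thh k (FreeGroup.mk (expand 2 s)) = FreeGroup.mk (expand 2 (s.flatMap (RtE9_f k)))
  | [], _ => by
    have : (FreeGroup.mk (expand 2 ([] : List ((Fin 3 × Bool) × ℤ))) : FreeGroup (Fin 3)) = 1 := rfl
    simp only [List.flatMap_nil]
    rw [this, map_one]
  | q :: t, hs => by
    have ih := RtE9_hom k t (fun r hr => hs r (by simp [hr]))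
    have hq := hs q (by simp)
    rw [SylA_mk_expand_cons, map_mul, map_mul, map_zpow, RtE0_h2, ih, List.flatMap_cons]
    unfold RtE9_f
    by_cases h1 : q.1.1 = 1
    · rw [if_pos h1]
      have e1 : thh k (lett q.1) = lett ((1 : Fin 3), true) * (FreeGroup.of 2) ^ (sgn q.1 * k) *
          lett ((1 : Fin 3), false) := by
        obtain ⟨⟨i, b⟩, g⟩ := q
        simp only at h1
        subst h1
        rw [lett_true, lett_false]
        cases b
        · rw [lett_false, map_inv, RtE0_h1]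
          simp only [sgn, Bool.false_eq_true, if_false]
          group
        · rw [lett_true, RtE0_h1]
          simp [sgn]
      rw [e1]
      simp only [List.cons_append, List.nil_append]
      rw [SylA_mk_expand_cons, SylA_mk_expand_cons]
      simp only [mul_assoc]
    · rw [if_neg h1]
      have h0 : q.1.1 = 0 := by
        have := q.1.1.isLt
        have h1' : q.1.1.val ≠ 1 := fun h => h1 (Fin.ext h)
        have h2' : q.1.1.val ≠ 2 := fun h => hq (Fin.ext h)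
        apply Fin.ext
        show q.1.1.val = 0
        omega
      have e1 : thh k (lett q.1) = lett q.1 := by
        obtain ⟨⟨i, b⟩, g⟩ := q
        simp only at h0
        subst h0
        cases b
        · rw [lett_false, map_inv, RtE0_h0]
        · rw [lett_true, RtE0_h0]
      rw [e1]
      simp only [List.cons_append, List.nil_append]
      rw [SylA_mk_expand_cons]

theorem RtE9_len (k : ℕ) : ∀ s : List ((Fin 3 × Bool) × ℤ),
    (expand 2 (s.flatMap (RtE9_f k))).length =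
      (expand 2 s).length + (k + 1) * cntL (s.map Prod.fst) 1
  | [] => by simp [expand, cntL]
  | q :: t => by
    have ih := RtE9_len k t
    rw [length_expand, length_expand] at ih ⊢
    rw [List.flatMap_cons, List.map_append, List.sum_append, List.length_append]
    have e1 : cntL ((q :: t).map Prod.fst) 1 = cntL (t.map Prod.fst) 1 +
        (if q.1.1 = 1 then 1 else 0) := by
      unfold cntL
      rw [List.map_cons, List.countP_cons]
      simp
    rw [e1, List.map_cons, List.sum_cons, List.length_cons]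
    unfold RtE9_f at ih ⊢
    by_cases h1 : q.1.1 = 1
    · simp only [h1, if_true, List.length_cons, List.length_nil, List.map_cons, List.map_nil,
        List.sum_cons, List.sum_nil]
      have h2 : (sgn q.1 * (k : ℤ)).natAbs = k := by
        unfold sgn
        split <;> simp
      rw [h2]
      linarith
    · simp only [h1, if_false, List.length_cons, List.length_nil, List.map_cons, List.map_nil,
        List.sum_cons, List.sum_nil]
      linarith

theorem RtE9_CR {w : List (Fin 3 × Bool)} (h : w.length = cycLen (cls w)) : CR w := by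
  have h1 : (FreeGroup.mk w : FreeGroup (Fin 3)).norm ≤ w.length := FreeGroup.norm_mk_le
  have h2 := cycLen_le_norm (FreeGroup.mk w : FreeGroup (Fin 3))
  have h3 : cycLen (cls w) = cycLen (ConjClasses.mk (FreeGroup.mk w : FreeGroup (Fin 3))) := rfl
  have h4 : (FreeGroup.mk w : FreeGroup (Fin 3)).toWord = w := by
    have h5 : FreeGroup.Red w (FreeGroup.reduce w) := FreeGroup.reduce.red
    have h6 := h5.sublist
    have h7 : (FreeGroup.mk w : FreeGroup (Fin 3)).toWord = FreeGroup.reduce w :=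
      FreeGroup.toWord_mk
    rw [h7]
    refine h6.eq_of_length ?_
    have h8 : (FreeGroup.mk w : FreeGroup (Fin 3)).norm = (FreeGroup.reduce w).length := by
      rw [← h7]
      rfl
    omega
  rw [← h4]
  rw [CR_iff_norm]
  omega

theorem RtE9_mul {β : Type*} (m : ℕ) (g : β → β → ℕ) (l : List β) :
    cyc (fun a r => m * g a r) l = m * cyc g l := by
  have h1 : ∀ (l : List β) (x z : β), lin (fun a r => m * g a r) x l z = m * lin g x l z := by
    intro l
    induction l with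
    | nil => intro x z; rfl
    | cons y l ih =>
      intro x z
      rw [lin, lin, ih, mul_add]
  cases l with
  | nil => rfl
  | cons x l => exact h1 l x x

theorem RtE9_light {X : Ct} (hX : Lt X) {x : Fin 3 × Bool} (h : X x = true) : x.1 ≠ 2 := by
  intro h2
  obtain ⟨i, b⟩ := x
  simp only at h2
  subst h2
  cases b with
  | true => rw [hX.1] at h; exact Bool.noConfusion h
  | false => rw [hX.2] at h; exact Bool.noConfusion h

theorem RtE9_gain {n K k : ℕ} {Ω : CC} (T : Th1 n K k Ω) (hD : capC Ω (PrC 2) = n) {U I : Ct}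
    {κ : ℤ} (hR : RotW n (th k Ω) U I κ) {s : List ((Fin 3 × Bool) × ℤ)} (hs : SValid 2 s)
    (hV : cls (expand 2 s) = Ω) : ∀ a ∈ s, a.2 = 0 ∨ a.2 = κ ∨ a.2 = -κ := by
  obtain ⟨f0, f1, f2, f3, f4, f5, f6⟩ := th1_facts T
  set s' := s.flatMap (RtE9_f k) with hs'
  have hV' : cls (expand 2 s') = th k Ω := by
    rw [← hV]
    unfold cls th
    exact (congrArg ConjClasses.mk (RtE9_hom k s hs.1)).symm
  have hc0 : cnt Ω 0 = cntL (expand 2 s) 0 := by rw [← hV, cnt_cls hs.2]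
  have hc1 : cnt Ω 1 = cntL (s.map Prod.fst) 1 := by
    rw [← hV, cnt_cls hs.2, cntL_expand_ne _ _ (by decide)]
  have hlen : (expand 2 s).length = cnt Ω 0 + cnt Ω 1 + cnt Ω 2 := by
    have h1 := cycLen_cls hs.2
    rw [hV, cycLen_eq_sum, Fin.sum_univ_three] at h1
    exact h1.symm
  have hlen' : (expand 2 s').length = cycLen (cls (expand 2 s')) := by
    rw [hV', cycLen_eq_sum, Fin.sum_univ_three, T.H.c0, T.H.c1, T.H.c2, RtE9_len, hlen, ← hc1,
      f0, ← f5]
    linarith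
  have hst' : SValid 2 s' := by
    refine ⟨?_, RtE9_CR hlen'⟩
    intro q hq
    rw [hs', List.mem_flatMap] at hq
    obtain ⟨a, ha, hqa⟩ := hq
    unfold RtE9_f at hqa
    by_cases h1 : a.1.1 = 1
    · rw [if_pos h1] at hqa
      simp only [List.mem_cons, List.not_mem_nil, or_false] at hqa
      rcases hqa with rfl | rfl
      · show (1 : Fin 3) ≠ 2
        decide
      · show (1 : Fin 3) ≠ 2
        decide
    · rw [if_neg h1] at hqa
      simp only [List.mem_cons, List.not_mem_nil, or_false] at hqa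
      rw [hqa]
      exact hs.1 a ha
  have hst := rot_str T.H hR hst' hV'
  have hU : ∀ a ∈ s', U a.1 = true → a.2 = 0 ∨ a.2 = κ ∨ a.2 = -κ := by
    have h1 : cyc (fun a _ => if (U a.1 = true → a.2 = 0 ∨ a.2 = κ ∨ a.2 = -κ) then 0 else 1) s' =
        cyc (fun (_ _ : (Fin 3 × Bool) × ℤ) => 0) s' := by
      refine EvLem2_cyc s' hst ?_
      intro a ha r hr hG
      have hc : U a.1 = U (bar r.1) ∧ (U a.1 = true →
        (I a.1 = I (bar r.1) → a.2 = 0) ∧
        (I a.1 = true → I (bar r.1) = false → (a.2 = 0 ∨ a.2 = -κ)) ∧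
        (I a.1 = false → I (bar r.1) = true → (a.2 = 0 ∨ a.2 = κ))) := by
        by_contra hcon
        rw [if_neg hcon] at hG
        exact absurd hG (by decide)
      rw [if_pos]
      intro hUa
      obtain ⟨_, h3⟩ := hc
      obtain ⟨h4, h5, h6⟩ := h3 hUa
      cases hI : I a.1 <;> cases hI' : I (bar r.1)
      · exact Or.inl (h4 (by rw [hI, hI']))
      · rcases h6 hI hI' with h | h
        · exact Or.inl h
        · exact Or.inr (Or.inl h)
      · rcases h5 hI hI' with h | h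
        · exact Or.inl h
        · exact Or.inr (Or.inr h)
      · exact Or.inl (h4 (by rw [hI, hI']))
    rw [cyc_fst, cyc_fst] at h1
    have h2 : (s'.map (fun (_ : (Fin 3 × Bool) × ℤ) => 0)).sum = 0 := by simp
    rw [h2] at h1
    intro a ha hUa
    have h3 := List.sum_eq_zero_iff.1 h1
      (if (U a.1 = true → a.2 = 0 ∨ a.2 = κ ∨ a.2 = -κ) then 0 else 1)
      (List.mem_map.2 ⟨a, ha, rfl⟩)
    by_contra hcon
    rw [if_neg (fun h => hcon (h hUa))] at h3
    exact absurd h3 (by decide)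
  intro a ha
  have hdt := cs_dt T hD hR
  by_cases h1 : a.1.1 = 1
  · refine hU (((1 : Fin 3), false), a.2) ?_ (hdt ((1 : Fin 3), false) (by decide) (by decide))
    rw [hs', List.mem_flatMap]
    refine ⟨a, ha, ?_⟩
    unfold RtE9_f
    rw [if_pos h1]
    simp
  · refine hU a ?_ (hdt _ (hs.1 a ha) (fun h => h1 (by rw [h])))
    rw [hs', List.mem_flatMap]
    refine ⟨a, ha, ?_⟩
    unfold RtE9_f
    rw [if_neg h1]
    simp

theorem RtE9_pos {n K k : ℕ} {Ω : CC} (T : Th1 n K k Ω) (hD : capC Ω (PrC 2) = n) {U I : Ct}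
    {κ : ℤ} (hR : RotW n (th k Ω) U I κ) (hκ : 0 < κ) :
    ∃ (k' : ℕ) (Ω0 : CC), (k' : ℤ) = κ ∧ Ω = pw (e2 k') Ω0 ∧ Th2 n K k k' Ω0 := by
  obtain ⟨f0, f1, f2, f3, f4, f5, f6⟩ := th1_facts T
  have hn4 := T.H.h4
  obtain ⟨s, _, hs, hV⟩ := exists_syl 2 Ω ⟨0, by decide, by omega⟩
  have hgain := RtE9_gain T hD hR hs hV
  obtain ⟨k', hk⟩ : ∃ k' : ℕ, (k' : ℤ) = κ := ⟨κ.toNat, Int.toNat_of_nonneg hκ.le⟩
  have hk1 : 1 ≤ k' := by omega
  set s' := s.map (fun q => (q.1, q.2 / κ)) with hs'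
  have hs2 : s'.map (fun q => (q.1, (k' : ℤ) * q.2)) = s := by
    rw [hs', List.map_map]
    conv_rhs => rw [← List.map_id s]
    apply List.map_congr_left
    intro a ha
    simp only [Function.comp, id]
    refine Prod.ext rfl ?_
    simp only
    rw [hk]
    rcases hgain a ha with h | h | h
    · rw [h]; simp
    · rw [h, Int.ediv_self hκ.ne', mul_one]
    · rw [h, Int.neg_ediv_self κ hκ.ne']
      ring
  have hs'1 : ∀ q ∈ s', q.1.1 ≠ 2 := by
    intro q hq
    rw [hs', List.mem_map] at hq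
    obtain ⟨a, ha, rfl⟩ := hq
    exact hs.1 a ha
  have hpw := pw_syl 2 k' s' hs'1
  rw [hs2, hV] at hpw
  set Ω0 := cls (expand 2 s') with hΩ
  have hVe : pw (e2 k') Ω0 = Ω := hpw
  have hc0 : cnt Ω0 0 = n := by
    have := RtD1_cnt hk1 (i := 0) (by decide) Ω0
    rw [hVe, f0] at this
    exact this.symm
  have hc1 : 2 * cnt Ω0 1 = n := by
    have := RtD1_cnt hk1 (i := 1) (by decide) Ω0
    rw [hVe] at this
    rw [← this]
    exact f1
  have hc2 : cnt Ω 2 = k' * cnt Ω0 2 := by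
    rw [← hVe]
    exact RtD1_cnt2 hk1 Ω0
  -- the number of the nonzero gains
  have hLL : capC Ω LL = n := by
    rw [← hD, ← capC_compl Ω LL]
    apply capC_congr
    intro y
    simp [LL, PrC]
  have key : 2 * gf s 0 = κ.natAbs * gc s 0 LL := by
    unfold gf gc
    rw [← RtE9_mul, ← RtE9_mul]
    have hG : cyc (fun (a _ : (Fin 3 × Bool) × ℤ) =>
        if (a.2 = 0 ∨ a.2 = κ ∨ a.2 = -κ) then 0 else 1) s = 0 := by
      rw [cyc_fst]
      apply List.sum_eq_zero
      intro m hm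
      obtain ⟨a, ha, rfl⟩ := List.mem_map.1 hm
      rw [if_pos (hgain a ha)]
    refine EvLem2_cyc s hG ?_
    intro a ha r hr hG'
    have h7 := hgain a ha
    have hUa : LL a.1 = true := by simp [LL, hs.1 a ha]
    have hUr : LL (bar r.1) = true := by
      have : (bar r.1).1 ≠ 2 := by rw [bar_fst]; exact hs.1 r hr
      exact decide_eq_true this
    simp only [Pi.zero_apply, add_zero, sub_zero, hUa, hUr, if_true]
    rcases h7 with h | h | h
    · simp [h]
    · have : a.2 ≠ 0 := by omega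
      rw [if_neg this, h]
      omega
    · have : a.2 ≠ 0 := by omega
      rw [if_neg this, h, Int.natAbs_neg]
      omega
  have hg1 := g_cnt hs hV 0
  rw [pot_zero] at hg1
  have hg2 := g_cap hs hV 0 (Y := LL) ⟨rfl, rfl⟩
  rw [pot_zero, hLL] at hg2
  have hkn : κ.natAbs = k' := by omega
  rw [← hg1, ← hg2, hkn, hc2] at key
  have hc2' : 2 * cnt Ω0 2 = n := by
    have h1 : k' * (2 * cnt Ω0 2) = k' * n := by linarith
    exact Nat.eq_of_mul_eq_mul_left (by omega) h1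
  have hK : 2 * K = n * (k + k') := by
    rw [← f5, hc2]
    have e1 : cnt Ω 1 = cnt Ω0 1 := by
      rw [← hVe]
      exact RtD1_cnt hk1 (by decide) Ω0
    rw [e1]
    have e2 : 2 * (k * cnt Ω0 1 + k' * cnt Ω0 2) = k * (2 * cnt Ω0 1) + k' * (2 * cnt Ω0 2) := by
      ring
    rw [e2, hc1, hc2']
    ring
  have hp : 0 < cnt Ω0 0 := by omega
  have H' : Hv n K (th k (pw (e2 k') Ω0)) := by rw [hVe]; exact T.H
  have hP1 : capC Ω0 (PrC 1) = n := by
    rw [← f2, ← hVe, RtD1_cap hk1 RtE9_p1]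
  have hP2 : capC Ω0 (PrC 2) = n := by
    rw [← hD, ← hVe, RtD1_cap hk1 RtE9_p2]
  have hB : BQ n PN Qtc Ω0 := by
    refine ⟨⟨hn4, ?_, ?_⟩, ?_, fun j _ h => h⟩
    · intro i _
      rw [RtE9_cnts]
      fin_cases i
      · show (if Qtc 0 then 2 else 1) * cnt Ω0 0 = n
        rw [hc0, if_neg (by rw [RtE9_Q0]; decide), one_mul]
      · show (if Qtc 1 then 2 else 1) * cnt Ω0 1 = n
        rw [if_pos RtE9_Q1]
        exact hc1
      · show (if Qtc 2 then 2 else 1) * cnt Ω0 2 = n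
        rw [if_pos RtE9_Q2]
        exact hc2'
    · intro A hA
      by_cases h2 : A (2, true) = A (2, false)
      · rw [← RtE9_same hk1 Ω0 h2, hVe]
        refine T.B.e.low ⟨hA.1, ?_⟩
        intro i hi
        have : i = 2 := hi
        rw [this]
        exact h2
      · rw [RtE9_caps, if_neg h2]
        by_cases h1 : A (1, true) = A (1, false)
        · rw [if_pos h1, add_zero]
          have h3 : n ≤ 2 * capC Ω0 A := by
            cases hb : A (2, true) with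
            | true =>
              have hb' : A (2, false) = false := by
                cases hf : A (2, false) with
                | true => exact absurd (by rw [hb, hf]) h2
                | false => rfl
              exact RtE9_sep T.hk hk1 hK H' hc1 hp h1 hb hb'
            | false =>
              have hb' : A (2, false) = true := by
                cases hf : A (2, false) with
                | true => rfl
                | false => exact absurd (by rw [hb, hf]) h2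
              rw [← capC_compl]
              exact RtE9_sep T.hk hk1 hK H' hc1 hp (by rw [h1]) (by rw [hb]; rfl)
                (by rw [hb']; rfl)
          omega
        · rw [if_neg h1]
          omega
    · intro j hj
      fin_cases j
      · exact absurd hj (by
          show ¬ (Qtc 0 = true)
          rw [RtE9_Q0]
          decide)
      · exact hP1
      · exact hP2
  refine ⟨k', Ω0, hk, hVe.symm, ⟨T.hk, hk1, hK, H', hB, ?_, ?_⟩⟩
  · obtain ⟨C, hC, hX⟩ := T.X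
    refine ⟨C, ⟨hC.1.1, ?_⟩, hX⟩
    rw [← RtE9_same hk1 Ω0 (hC.1.2 2 rfl), hVe]
    exact hC.2
  · have hR' : RotW n (th k (pw (e2 k') Ω0)) U I κ := by rw [hVe]; exact hR
    obtain ⟨l1, l2⟩ := RtE9_lev T.hk hk1 hK H' hc1 hp hk.symm hR'
    have hL := hR.t0.1.1
    have hz := cs_z T hR
    have hUx : ∀ x, U x = true → RtE9_C I x = I x ∧ x.1 ≠ 2 := by
      intro x hx
      have hx2 := RtE9_light hL hx
      refine ⟨?_, hx2⟩
      unfold RtE9_C
      rw [if_neg hx2]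
      by_cases h1 : x.1 = 1
      · rw [if_pos h1]
        obtain ⟨i, b⟩ := x
        simp only at h1
        subst h1
        cases b with
        | true => rw [hz] at hx; exact Bool.noConfusion hx
        | false => rfl
      · rw [if_neg h1]
    obtain ⟨x1, hx1⟩ := hR.ne
    obtain ⟨x2, hx2, hx2'⟩ := hR.ne'
    have g1 := hUx x1 (hR.sub x1 hx1)
    have g2 := hUx x2 hx2
    have hC1 : RtE9_C I (2, true) = true := by simp [RtE9_C]
    have hC2 : RtE9_C I (2, false) = false := by simp [RtE9_C]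
    refine ⟨RtE9_C I, ⟨⟨⟨_, hC1⟩, ⟨_, hC2⟩⟩, ?_⟩, ⟨(2, true), hC1, rfl⟩, ⟨x1, ?_, ?_⟩,
      ⟨(2, false), hC2, rfl⟩, ⟨x2, ?_, ?_⟩⟩
    · have hC3 : RtE9_C I (1, true) = RtE9_C I (1, false) := by simp [RtE9_C]
      have hC4 : ¬ RtE9_C I (2, true) = RtE9_C I (2, false) := by rw [hC1, hC2]; decide
      rw [RtE9_caps, if_neg hC4, if_pos hC3]
      omega
    · rw [g1.1]; exact hx1
    · exact decide_eq_false g1.2
    · rw [g2.1]; exact hx2'
    · exact decide_eq_false g2.2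

theorem th2_ex {n K k : ℕ} {Ω : CC} (T : Th1 n K k Ω) (hD : capC Ω (PrC 2) = n) {U I : Ct} {κ : ℤ}
    (hR : RotW n (th k Ω) U I κ) :
    ∃ (k' : ℕ) (Ω0 : CC), (k' : ℤ) = |κ| ∧ Ω = pw (e2 k') Ω0 ∧ Th2 n K k k' Ω0 := by
  rcases lt_or_gt_of_ne hR.h0 with h | h
  · obtain ⟨k', Ω0, h1, h2, h3⟩ := RtE9_pos T hD (rw_neg T.H hR).1 (by omega)
    exact ⟨k', Ω0, by rw [h1, abs_of_neg h], h2, h3⟩
  · obtain ⟨k', Ω0, h1, h2, h3⟩ := RtE9_pos T hD hR h
    exact ⟨k', Ω0, by rw [h1, abs_of_pos h], h2, h3⟩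

theorem th2_th1 {n K k k' : ℕ} {Ω0 : CC} (T : Th2 n K k k' Ω0) :
    Th1 n K k (pw (e2 k') Ω0) ∧ capC (pw (e2 k') Ω0) (PrC 2) = n := by
  have h1 : 2 * cnt (pw (e2 k') Ω0) 1 = n := by
    rw [RtD1_cnt T.hk' (by decide)]
    exact bq_cnt T.B RtE9_Q1
  have hP2 : capC (pw (e2 k') Ω0) (PrC 2) = n := by
    rw [RtD1_cap T.hk' RtE9_p2]
    exact T.B.t 2 RtE9_Q2
  refine ⟨⟨T.hk, T.H, th_bq T.hk T.H h1, ?_⟩, hP2⟩
  have key : ∃ D, NC n (sq Qtc Ω0) D ∧ D (2, true) = D (2, false) ∧ Crossg D (PrC 1) := by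
    obtain ⟨C, hC, hX⟩ := T.X1
    by_cases hc : C (2, true) = C (2, false)
    · exact ⟨C, hC, hc, hX⟩
    have hs1 : C (1, true) ≠ C (1, false) := by
      obtain ⟨⟨x, hx1, hx2⟩, _, ⟨y, hy1, hy2⟩, _⟩ := hX
      have ex : x.1 = 1 := by simpa [PrC] using hx2
      have ey : y.1 = 1 := by simpa [PrC] using hy2
      obtain ⟨i, b⟩ := x
      obtain ⟨j, d⟩ := y
      simp only at ex ey
      subst ex
      subst ey
      intro h
      cases b <;> cases d <;> simp_all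
    have hT2 : NC n (sq Qtc Ω0) (PrC 2) := by
      refine ⟨⟨⟨(2, true), rfl⟩, ⟨(0, true), rfl⟩⟩, ?_⟩
      have e1 : PrC 2 (1, true) = PrC 2 (1, false) := rfl
      rw [RtE9_caps, if_pos e1, if_pos RtE9_p2, add_zero, add_zero]
      exact T.B.t 2 RtE9_Q2
    have hcr : Crossg C (PrC 2) := by
      rcases RtE9_bb hc with ⟨h2t, h2f⟩ | ⟨h2t, h2f⟩ <;>
        rcases RtE9_bb hs1 with ⟨h1t, h1f⟩ | ⟨h1t, h1f⟩
      · exact ⟨⟨_, h2t, rfl⟩, ⟨_, h1t, rfl⟩, ⟨_, h2f, rfl⟩, ⟨_, h1f, rfl⟩⟩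
      · exact ⟨⟨_, h2t, rfl⟩, ⟨_, h1f, rfl⟩, ⟨_, h2f, rfl⟩, ⟨_, h1t, rfl⟩⟩
      · exact ⟨⟨_, h2f, rfl⟩, ⟨_, h1t, rfl⟩, ⟨_, h2t, rfl⟩, ⟨_, h1f, rfl⟩⟩
      · exact ⟨⟨_, h2f, rfl⟩, ⟨_, h1f, rfl⟩, ⟨_, h2t, rfl⟩, ⟨_, h1t, rfl⟩⟩
    obtain ⟨_, k1, _, k2, _⟩ := f1 (pn_eq3 T.B.e) hC hT2 hcr
    cases h0 : C (0, true) with
    | true =>
      refine ⟨_, k1, by simp [PrC], ?_⟩
      rcases RtE9_bb hs1 with ⟨h1t, h1f⟩ | ⟨h1t, h1f⟩
      · exact ⟨⟨(1, true), by simp [h1t, PrC], rfl⟩, ⟨(0, true), by simp [h0, PrC], rfl⟩,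
          ⟨(1, false), by simp [h1f, PrC], rfl⟩, ⟨(2, true), by simp [PrC], rfl⟩⟩
      · exact ⟨⟨(1, false), by simp [h1f, PrC], rfl⟩, ⟨(0, true), by simp [h0, PrC], rfl⟩,
          ⟨(1, true), by simp [h1t, PrC], rfl⟩, ⟨(2, true), by simp [PrC], rfl⟩⟩
    | false =>
      refine ⟨_, k2, by simp [PrC], ?_⟩
      rcases RtE9_bb hs1 with ⟨h1t, h1f⟩ | ⟨h1t, h1f⟩
      · exact ⟨⟨(1, false), by simp [h1f, PrC], rfl⟩, ⟨(0, true), by simp [h0, PrC], rfl⟩,
          ⟨(1, true), by simp [h1t, PrC], rfl⟩, ⟨(2, true), by simp [PrC], rfl⟩⟩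
      · exact ⟨⟨(1, true), by simp [h1t, PrC], rfl⟩, ⟨(0, true), by simp [h0, PrC], rfl⟩,
          ⟨(1, false), by simp [h1f, PrC], rfl⟩, ⟨(2, true), by simp [PrC], rfl⟩⟩
  obtain ⟨D, hD, hD2, hX⟩ := key
  refine ⟨D, ⟨⟨hD.1, ?_⟩, ?_⟩, hX⟩
  · intro i hi
    have : i = 2 := hi
    rw [this]
    exact hD2
  · rw [RtE9_same T.hk' Ω0 hD2]
    exact hD.2

theorem RtE9_inv (φ : FreeGroup (Fin 3) ≃* FreeGroup (Fin 3)) (V : CC) :
    act φ.symm (act φ V) = V := by
  rw [act_act, MulEquiv.self_trans_symm, act_refl]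

/-- the image of one level move -/
theorem RtE9_phi {k k' : ℕ} {Ω0 : CC} {y : Fin 3 × Bool} {A : Ct} (hy : A y = true)
    (hy' : A (bar y) = false) (hQ : QF Qtc y.1 A) :
    ∃ φ : FreeGroup (Fin 3) ≃* FreeGroup (Fin 3),
      th k (pw (e2 k') (act (wh y A) Ω0)) = act φ (th k (pw (e2 k') Ω0)) := by
  -- it is enough to treat the case `A` light if `y.1 ≠ 2`
  have main : ∀ (y : Fin 3 × Bool) (A : Ct), y.1 ≠ 2 → A y = true → A (bar y) = false →
      QF Qtc y.1 A → Lt A → ∃ φ : FreeGroup (Fin 3) ≃* FreeGroup (Fin 3),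
      th k (pw (e2 k') (act (wh y A) Ω0)) = act φ (th k (pw (e2 k') Ω0)) := by
    intro y A hy2 hy hy' hQ hL
    have hc2 : A (2, true) = A (2, false) := by rw [hL.1, hL.2]
    rw [RtD1_wh hy2 hc2]
    by_cases hy0 : y.1 = 0
    · have h1 : A (1, true) = A (1, false) := hQ 1 RtE9_Q1 (by rw [hy0]; decide)
      refine ⟨wh y (fun x => if x = ((1 : Fin 3), true) then false else A x), ?_⟩
      refine th_wh0 k hy0 hL ?_ ?_ h1 ?_ ?_ _
      · exact ⟨by simp [hL.1], by simp [hL.2]⟩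
      · intro b
        simp
      · simp
      · simp
    · have hy1 : y.1 = 1 := by
        have := y.1.isLt
        have h1' : y.1.val ≠ 0 := fun h => hy0 (Fin.ext h)
        have h2' : y.1.val ≠ 2 := fun h => hy2 (Fin.ext h)
        apply Fin.ext
        show y.1.val = 1
        omega
      obtain ⟨i, b⟩ := y
      simp only at hy1
      subst hy1
      set B : Ct := fun x => decide (x.1 = 0) || decide (x = ((1 : Fin 3), false)) with hB
      set J : Ct := fun x => A x && decide (x.1 = 0) with hJ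
      have hBL : Lt B := ⟨by simp [hB], by simp [hB]⟩
      have hJ' : ∀ x, J x = true → x.1 = 0 ∧ B x = true := by
        intro x hx
        simp only [hJ, Bool.and_eq_true, decide_eq_true_eq] at hx
        exact ⟨hx.2, by simp [hB, hx.2]⟩
      have h1 := th_t k b hBL hJ' (pw (e2 k') Ω0)
      have h2 : act (wh ((1 : Fin 3), b) (fun x => J x || decide (x = ((1 : Fin 3), b))))
          (pw (e2 k') Ω0) = act (wh ((1 : Fin 3), b) A) (pw (e2 k') Ω0) := by
        apply act_wh_congr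
        intro x hx
        have hx1 : x.1 ≠ 1 := hx
        have hx2 : x ≠ ((1 : Fin 3), b) := fun h => hx1 (by rw [h])
        simp only [hJ, hx2, decide_false, Bool.or_false]
        by_cases hx0 : x.1 = 0
        · simp [hx0]
        · have hx3 : x.1 = 2 := by
            have := x.1.isLt
            have h1' : x.1.val ≠ 0 := fun h => hx0 (Fin.ext h)
            have h2' : x.1.val ≠ 1 := fun h => hx1 (Fin.ext h)
            apply Fin.ext
            show x.1.val = 2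
            omega
          obtain ⟨i, d⟩ := x
          simp only at hx3
          subst hx3
          cases d
          · simp [hL.2]
          · simp [hL.1]
      rw [h2] at h1
      refine ⟨(wh ((1 : Fin 3), false) B).trans ((pot 2
        (fun x => sgn ((1 : Fin 3), b) * k * ind J x)).trans (wh ((1 : Fin 3), false) B).symm), ?_⟩
      rw [← act_act, ← act_act, h1, RtE9_inv]
  by_cases hy2 : y.1 = 2
  · have h1 : A (1, true) = A (1, false) := hQ 1 RtE9_Q1 (by rw [hy2]; decide)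
    refine ⟨pot 2 (fun x => (k' : ℤ) * whp y A x), ?_⟩
    unfold wh
    rw [hy2]
    exact RtE9_pot k k' (fun b => rfl) (by simp [whp, h1]) rfl Ω0
  · have hc2 : A (2, true) = A (2, false) := hQ 2 RtE9_Q2 (fun h => hy2 h.symm)
    cases hc : A (2, true) with
    | false => exact main y A hy2 hy hy' hQ ⟨hc, by rw [← hc2, hc]⟩
    | true =>
      have h3 := main (bar y) (fun x => !A x) hy2 (by simp [hy']) (by simp [hy])
        (by
          intro i hi hi'
          show (!A (i, true)) = !A (i, false)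
          rw [hQ i hi hi'])
        ⟨by simp [hc], by simp [← hc2, hc]⟩
      rw [act_wh_compl] at h3
      exact h3

theorem th2_sq {n K k k' : ℕ} {Ω0 Ω0' : CC} (T : Th2 n K k k' Ω0)
    (h : Ω0' ∈ SQ PN Qtc (fun _ => True) Ω0) : Th2 n K k k' Ω0' := by
  have key : Hv n K (th k (pw (e2 k') Ω0')) := by
    have h1 : Relation.ReflTransGen (StQ PN Qtc (fun _ => True)) Ω0 Ω0' := h
    clear h
    induction h1 with
    | refl => exact T.H
    | @tail Ω1 Ω2 hp h3 ih =>
      have hmem : Ω2 ∈ SQ PN Qtc (fun _ => True) Ω0 := Relation.ReflTransGen.tail hp h3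
      have B2 := (pn_sq T.B hmem).1
      have hn4 := B2.e.h4
      have hc0 : cnt Ω2 0 = n := bq_cnt' B2 RtE9_Q0 (fun h => h)
      have hc1 := bq_cnt B2 RtE9_Q1
      have hc2 := bq_cnt B2 RtE9_Q2
      have hpos : 0 < cnt Ω2 0 := by omega
      obtain ⟨y, A, -, hA, -, hQ, rfl⟩ := h3
      refine (hv_of ih (RtE9_phi hA.1 hA.2.1 hQ) ?_ ?_ ?_).1
      · rw [RtE9_c0 T.hk T.hk' hpos, hc0]
      · rw [RtE9_c1 T.hk T.hk' hpos]
        exact B2.t 1 RtE9_Q1
      · rw [RtE9_c2 T.hk T.hk' hpos]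
        have hK := T.hK
        have e2 : ∀ a b : ℕ, 2 * (k * a + k' * b) = k * (2 * a) + k' * (2 * b) := by
          intro a b
          ring
        have e3 := e2 (cnt (act (wh y A) Ω1) 1) (cnt (act (wh y A) Ω1) 2)
        rw [hc1, hc2] at e3
        have e4 : k * n + k' * n = n * (k + k') := by ring
        omega
  exact ⟨T.hk, T.hk', T.hK, key, (pn_sq T.B h).1, pn_pr T.B RtE9_Q1 T.X1 h,
    pn_pr T.B RtE9_Q2 T.X2 h⟩

theorem clg2 {n K k k' : ℕ} {Ω0 : CC} (T : Th2 n K k k' Ω0) :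
    ClG n K k {Ω | ∃ Ω0' ∈ SQ PN Qtc (fun _ => True) Ω0, Ω = pw (e2 k') Ω0'} := by
  refine ⟨?_, ?_, ?_⟩
  · rintro Ω ⟨Ω0', h, rfl⟩
    exact (th2_th1 (th2_sq T h)).1
  · rintro Ω ⟨Ω0', h, rfl⟩ Ω' ⟨z, A, hz, hL, hP, hQ, rfl⟩
    have hc2 : A (2, true) = A (2, false) := hP 2 rfl
    refine ⟨act (wh z A) Ω0', ?_, (RtD1_wh hz hc2 Ω0').symm⟩
    refine SQ_step h trivial ((RtD1_Lv T.hk' hz hc2 Ω0').1 hL) (RtD1_PF A) ?_
    intro i hi hi'
    by_cases h2 : i = 2
    · rw [h2]; exact hc2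
    · refine hQ i ?_ hi'
      have h0 : i ≠ 0 := by
        intro h0
        rw [h0, RtE9_Q0] at hi
        exact Bool.noConfusion hi
      have h1 : i = 1 := by
        have := i.isLt
        have h1' : i.val ≠ 0 := fun h => h0 (Fin.ext h)
        have h2' : i.val ≠ 2 := fun h => h2 (Fin.ext h)
        apply Fin.ext
        show i.val = 1
        omega
      rw [h1]
      simp [Qt]
  · rintro Ω ⟨Ω0', h, rfl⟩ U I κ hR
    have T' := th2_sq T h
    obtain ⟨T1, hD⟩ := th2_th1 T'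
    obtain ⟨k1, Ω1, hk1, hΩ1, T2⟩ := th2_ex T1 hD hR
    have hn4 := T.H.h4
    have hkk : k1 = k' := by
      have h1 := T2.hK
      have h2 := T'.hK
      have h3 : n * (k + k1) = n * (k + k') := by omega
      have h4 := Nat.eq_of_mul_eq_mul_left (by omega : 0 < n) h3
      omega
    rw [hkk] at hk1
    have hc1 : 2 * cnt Ω0' 1 = n := bq_cnt T'.B RtE9_Q1
    have hc2 : 2 * cnt Ω0' 2 = n := bq_cnt T'.B RtE9_Q2
    have hc0 : cnt Ω0' 0 = n := bq_cnt' T'.B RtE9_Q0 (fun h => h)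
    -- the case of positive `κ`
    have main : ∀ (I : Ct) (κ : ℤ), RotW n (th k (pw (e2 k') Ω0')) U I κ → κ = k' →
        ∃ Ω' ∈ {Ω | ∃ Ω0' ∈ SQ PN Qtc (fun _ => True) Ω0, Ω = pw (e2 k') Ω0'},
          act (pot 2 (fun x => κ * ind I x)) (th k (pw (e2 k') Ω0')) = th k Ω' := by
      intro I κ hR hκ
      obtain ⟨l1, l2⟩ := RtE9_lev T.hk T.hk' T.hK T'.H hc1 (by omega) hκ hR
      refine ⟨_, ⟨act (wh (2, true) (RtE9_C I)) Ω0', ?_, rfl⟩, l2.symm⟩
      refine SQ_step h trivial ⟨by simp [RtE9_C], by simp [RtE9_C, bar], ?_⟩ (RtD1_PF _) ?_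
      · show capC Ω0' (RtE9_C I) = cnt Ω0' 2
        omega
      · intro i hi hi'
        have h2 : i ≠ 2 := hi'
        simp only [RtE9_C, if_neg h2]
        by_cases h1 : i = 1
        · simp [h1]
        · exfalso
          have h0 : i = 0 := by
            have := i.isLt
            have h1' : i.val ≠ 1 := fun h => h1 (Fin.ext h)
            have h2' : i.val ≠ 2 := fun h => h2 (Fin.ext h)
            apply Fin.ext
            show i.val = 0
            omega
          rw [h0, RtE9_Q0] at hi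
          exact Bool.noConfusion hi
    rcases lt_or_gt_of_ne hR.h0 with h5 | h5
    · obtain ⟨r1, r2⟩ := rw_neg T'.H hR
      rw [← r2]
      exact main _ _ r1 (by rw [hk1, abs_of_neg h5])
    · exact main _ _ hR (by rw [hk1, abs_of_pos h5])

end Pool.Agent.Sims
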