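import Pool.Agent.Sims.RtQ6
import Pool.Agent.Sims.RtB3
import Pool.Agent.Sims.RtE9

/-!
# Module `RtE10` : the classes `SQ PN Qtc ⊤ Ω0`: at most 36 up to `Ja`

`BQ n PN Qtc Ω0`, `PrC 1`, `PrC 2` crossed at `sq Qtc Ω0` (hence at all `sq Qtc Ω0'`, `pn_pr`).
* `covJ_sub`, `covA_sub`: as `covF2_sub` (module `RtDef2`): `Jf`, `Ja` are closed under composition and inverses.
* `s36`: (α) some `Ω1 ∈ SQ PN Qtc ⊤ Ω0` with `¬ Crs n (sq Qtc Ω1) (0,true)`; `SQ_eq`.  `lemUQ` (`i = 0`, `M = ⊤`, `pn_crp`): `W = act σ.aut (act (wh (0,true) A) W1)`, `W1 ∈ SQ PN Qtc (· ≠ 0) Ω1`, `σ` fixes the letters of generators 1, 2 (square letters).  `CX n Qtc (· ≠ 0) Ω1 1`, `.. 2` (square,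
  crossed).  `q_three` with `cj12`, `Cov 9`, `cjT4` (counts `bq_cnt`): `CovJ (SQ PN Qtc (· ≠ 0) Ω1) 12`, `covJ_sub`: `W1 = act τ.aut e`, `Jf τ`; `act (wh (0,true) A) (act τ.aut e) = act τ.aut (act (wh (0,true) (A ∘ τ.letter)) e)` (`TwBasic_SPerm`; `τ` fixes `a^{±1}`); `lsq2`, `lsq_cov` for `e`: 3 classes: `12 * 3 = 36`,
  `σ τ` satisfies `Ja`.  (β) otherwise `CX n Qtc ⊤ Ω0 i` for all `i`: `q_pow`, `cjP12`: `12`.
Difficulty 3.
-/

namespace Pool.Agent.Sims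

private theorem RtE10_sub {R : SPerm (Fin 3) → Prop}
    (hc : ∀ σ τ, R σ → R τ → R (Conn_comp σ τ)) (hi : ∀ σ, R σ → R σ.inv) {S : Set CC} {N : ℕ}
    (h : ∃ F : Finset CC, F.card ≤ N ∧
      ∀ W ∈ S, ∃ σ : SPerm (Fin 3), R σ ∧ ∃ e ∈ F, W = act σ.aut e) :
    ∃ F : Finset CC, F.card ≤ N ∧
      (∀ e ∈ F, e ∈ S) ∧ ∀ W ∈ S, ∃ σ : SPerm (Fin 3), R σ ∧ ∃ e ∈ F, W = act σ.aut e := by
  classical
  obtain ⟨F, h1, h2⟩ := h
  obtain ⟨g, hg⟩ : ∃ g : CC → CC, ∀ e, (∃ W ∈ S, ∃ σ : SPerm (Fin 3), R σ ∧ W = act σ.aut e) →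
      g e ∈ S ∧ ∃ σ : SPerm (Fin 3), R σ ∧ g e = act σ.aut e := by
    have h3 : ∀ e : CC, ∃ W, (∃ W ∈ S, ∃ σ : SPerm (Fin 3), R σ ∧ W = act σ.aut e) →
        W ∈ S ∧ ∃ σ : SPerm (Fin 3), R σ ∧ W = act σ.aut e := by
      intro e
      by_cases h4 : ∃ W ∈ S, ∃ σ : SPerm (Fin 3), R σ ∧ W = act σ.aut e
      · obtain ⟨W, hW, hσ⟩ := h4
        exact ⟨W, fun _ => ⟨hW, hσ⟩⟩
      · exact ⟨e, fun h => absurd h h4⟩
    choose g hg using h3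
    exact ⟨g, hg⟩
  refine ⟨(F.filter (fun e => ∃ W ∈ S, ∃ σ : SPerm (Fin 3), R σ ∧ W = act σ.aut e)).image g,
    (Finset.card_image_le.trans (Finset.card_filter_le _ _)).trans h1, ?_, ?_⟩
  · intro e he
    obtain ⟨e', he', rfl⟩ := Finset.mem_image.1 he
    exact (hg e' (Finset.mem_filter.1 he').2).1
  · intro W hW
    obtain ⟨σ, hσ, e, he, hWe⟩ := h2 W hW
    have h3 : ∃ W ∈ S, ∃ σ : SPerm (Fin 3), R σ ∧ W = act σ.aut e := ⟨W, hW, σ, hσ, hWe⟩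
    obtain ⟨h4, τ, hτ, h5⟩ := hg e h3
    refine ⟨Conn_comp σ τ.inv, hc _ _ hσ (hi _ hτ), g e,
      Finset.mem_image.2 ⟨e, Finset.mem_filter.2 ⟨he, h3⟩, rfl⟩, ?_⟩
    rw [← Conn_act_comp, h5, act_SPerm_inv, hWe]

private theorem RtE10_ja_comp (σ τ : SPerm (Fin 3)) (hσ : Ja σ) (hτ : Ja τ) :
    Ja (Conn_comp σ τ) := by
  refine ⟨?_, ?_⟩
  · show τ.perm.trans σ.perm = 1
    rw [hσ.1, hτ.1]; rfl
  · simp [Conn_comp, hτ.1, hτ.2, hσ.2]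

private theorem RtE10_ja_inv (σ : SPerm (Fin 3)) (hσ : Ja σ) : Ja σ.inv := by
  refine ⟨?_, ?_⟩
  · show σ.perm.symm = 1
    rw [hσ.1]; rfl
  · show σ.sign (σ.perm.symm 1) = σ.sign (σ.perm.symm 2)
    rw [hσ.1]; exact hσ.2

private theorem RtE10_jf_comp (σ τ : SPerm (Fin 3)) (hσ : Jf σ) (hτ : Jf τ) :
    Jf (Conn_comp σ τ) := by
  refine ⟨?_, ?_, ?_⟩
  · show τ.perm.trans σ.perm = 1
    rw [hσ.1, hτ.1]; rfl
  · simp [Conn_comp, hτ.1, hτ.2.1, hσ.2.1]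
  · simp [Conn_comp, hτ.1, hτ.2.2, hσ.2.2]

private theorem RtE10_jf_inv (σ : SPerm (Fin 3)) (hσ : Jf σ) : Jf σ.inv := by
  refine ⟨?_, ?_, ?_⟩
  · show σ.perm.symm = 1
    rw [hσ.1]; rfl
  · show σ.sign (σ.perm.symm 0) = true
    rw [hσ.1]; exact hσ.2.1
  · show σ.sign (σ.perm.symm 1) = σ.sign (σ.perm.symm 2)
    rw [hσ.1]; exact hσ.2.2

theorem covA_sub {S : Set CC} {N : ℕ} (h : CovA S N) : ∃ F : Finset CC, F.card ≤ N ∧
    (∀ e ∈ F, e ∈ S) ∧ ∀ W ∈ S, ∃ σ : SPerm (Fin 3), Ja σ ∧ ∃ e ∈ F, W = act σ.aut e :=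
  RtE10_sub RtE10_ja_comp RtE10_ja_inv h

theorem covJ_sub {S : Set CC} {N : ℕ} (h : CovJ S N) : ∃ F : Finset CC, F.card ≤ N ∧
    (∀ e ∈ F, e ∈ S) ∧ ∀ W ∈ S, ∃ σ : SPerm (Fin 3), Jf σ ∧ ∃ e ∈ F, W = act σ.aut e :=
  RtE10_sub RtE10_jf_comp RtE10_jf_inv h

private theorem RtE10_id (c : CC) : act (SPerm.aut ⟨1, fun _ => true⟩) c = c := by
  obtain ⟨w, _, rfl⟩ := exists_CR c
  rw [act_SPerm_cls]
  congr 1
  have : (SPerm.letter (⟨1, fun _ => true⟩ : SPerm (Fin 3))) = id := by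
    funext x
    simp [SPerm.letter]
  rw [this, List.map_id]

private theorem RtE10_ofcov {S : Set CC} {N : ℕ} (h : Cov S N) : CovJ S N := by
  obtain ⟨F, h1, h2⟩ := h
  exact ⟨F, h1, fun W hW => ⟨⟨1, fun _ => true⟩, ⟨rfl, rfl, rfl⟩, W, h2 W hW, (RtE10_id W).symm⟩⟩

private theorem RtE10_mono {S S' : Set CC} {N N' : ℕ} (h : CovJ S N) (hS : ∀ W ∈ S', W ∈ S)
    (hN : N ≤ N') : CovJ S' N' := by
  obtain ⟨F, h1, h2⟩ := h
  exact ⟨F, h1.trans hN, fun W hW => h2 W (hS W hW)⟩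

private theorem RtE10_12 {n : ℕ} {Ω1 : CC} (B : BQ n PN Qtc Ω1) (X1 : VX n (sq Qtc Ω1) (PrC 1))
    (X2 : VX n (sq Qtc Ω1) (PrC 2)) : CovJ (SQ PN Qtc (fun i => i ≠ 0) Ω1) 12 := by
  have h1 : CX n Qtc (fun i => i ≠ 0) Ω1 1 := Or.inl ⟨rfl, X1⟩
  have h2 : CX n Qtc (fun i => i ≠ 0) Ω1 2 := Or.inl ⟨rfl, X2⟩
  have hn : 0 < n := by have := B.e.h4; omega
  have hcnt : ∀ Ω' ∈ SQ PN Qtc (fun i => i ≠ 0) Ω1, 2 * cnt Ω' 1 = n ∧ 2 * cnt Ω' 2 = n := by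
    intro Ω' hΩ'
    have B' := (pn_sq B hΩ').1
    exact ⟨bq_cnt B' rfl, bq_cnt B' rfl⟩
  rcases q_three B rfl h1 h2 with ⟨port, π, hc, h3, h4, h5⟩ | h3 | ⟨j, h3, h4, h5⟩
  · exact RtE10_mono (cj12 hn hc h3 h4) (fun W hW => ⟨h5 W hW, hcnt W hW⟩) le_rfl
  · exact RtE10_mono (RtE10_ofcov h3) (fun W hW => hW) (by norm_num)
  · exact RtE10_mono (cjT4 hn h4 h3) (fun W hW => ⟨h5 W hW, hcnt W hW⟩) (by norm_num)

private theorem RtE10_ja {σ τ : SPerm (Fin 3)}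
    (hσ : ∀ x : Fin 3 × Bool, (¬ True ∨ Qtc x.1 = true) → σ.letter x = x) (hτ : Jf τ) :
    Ja (Conn_comp σ τ) := by
  have h1 := hσ (1, true) (Or.inr rfl)
  have h2 := hσ (2, true) (Or.inr rfl)
  simp only [SPerm.letter, Prod.mk.injEq] at h1 h2
  have h3 : σ.sign 1 = true := by
    by_contra hc
    rw [if_neg hc] at h1
    exact absurd h1.2 (by decide)
  have h4 : σ.sign 2 = true := by
    by_contra hc
    rw [if_neg hc] at h2
    exact absurd h2.2 (by decide)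
  have h0 : σ.perm 0 = 0 := by
    have h5 : σ.perm 0 ≠ 1 := fun h => absurd (σ.perm.injective (h.trans h1.1.symm)) (by decide)
    have h6 : σ.perm 0 ≠ 2 := fun h => absurd (σ.perm.injective (h.trans h2.1.symm)) (by decide)
    generalize σ.perm 0 = y at h5 h6
    fin_cases y
    · rfl
    · exact absurd rfl h5
    · exact absurd rfl h6
  have h7 : σ.perm = 1 := by
    apply Equiv.ext
    intro i
    fin_cases i
    · exact h0
    · exact h1.1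
    · exact h2.1
  refine RtE10_ja_comp σ τ ⟨h7, by rw [h3, h4]⟩ ⟨hτ.1, hτ.2.2⟩

theorem s36 {n : ℕ} {Ω0 : CC} (B : BQ n PN Qtc Ω0) (X1 : VX n (sq Qtc Ω0) (PrC 1))
    (X2 : VX n (sq Qtc Ω0) (PrC 2)) : CovA (SQ PN Qtc (fun _ => True) Ω0) 36 := by
  classical
  by_cases hα : ∃ Ω1 ∈ SQ PN Qtc (fun _ => True) Ω0, ¬ Crs n (sq Qtc Ω1) (0, true)
  · obtain ⟨Ω1, hΩ1, hnc⟩ := hα
    have B1 := (pn_sq B hΩ1).1
    have Y1 := pn_pr B (j := 1) rfl X1 hΩ1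
    have Y2 := pn_pr B (j := 2) rfl X2 hΩ1
    rw [← SQ_eq hΩ1]
    obtain ⟨F, hF, hFS, hFc⟩ := covJ_sub (RtE10_12 B1 Y1 Y2)
    have hk : ∀ k : Fin 3, k ≠ ((0 : Fin 3), true).1 → PN k ∨ Qtc k = true := by
      intro k hk
      exact Or.inr (by simpa [Qtc] using hk)
    have hcov := fun e : CC => lsq_cov (lsq2 (P := PN) (Q := Qtc) (V := e) hk)
    choose FF hFF hFF' using hcov
    refine ⟨F.biUnion FF, ?_, ?_⟩
    · have h1 : (F.biUnion FF).card ≤ F.card * (1 + 2) :=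
        Finset.card_biUnion_le_card_mul _ _ _ fun x _ => hFF x
      have h2 : F.card * (1 + 2) ≤ 12 * (1 + 2) := Nat.mul_le_mul_right _ hF
      omega
    · intro W hW
      obtain ⟨σ, W1, A, hW1, hL, hPF, hQF, hσ, rfl⟩ := lemUQ B1 (pn_pos B1) (i := 0) trivial
        (fun k _ h => h) rfl (fun h => hnc (pn_crp.1 h)) hW
      have hM : (fun j : Fin 3 => True ∧ j ≠ 0) = fun j => j ≠ 0 := by
        funext j
        simp
      rw [hM] at hW1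
      obtain ⟨τ, hτ, e, he, rfl⟩ := hFc W1 hW1
      have hl : τ.letter (0, true) = (0, true) := by
        simp [SPerm.letter, hτ.1, hτ.2.1]
      have hl' : τ.letter (bar (0, true)) = bar (0, true) := by
        rw [SPerm.letter_bar, hl]
      have h4 := act_wh_SPerm τ (0, true) A e
      rw [hl] at h4
      refine ⟨Conn_comp σ τ, RtE10_ja hσ hτ, act (wh (0, true) (fun x => A (τ.letter x))) e, ?_, ?_⟩
      · rw [Finset.mem_biUnion]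
        refine ⟨e, he, hFF' e _ ⟨fun x => A (τ.letter x), ⟨?_, ?_, ?_⟩, ?_, ?_, rfl⟩⟩
        · show A (τ.letter (0, true)) = true
          rw [hl]; exact hL.1
        · show A (τ.letter (bar (0, true))) = false
          rw [hl']; exact hL.2.1
        · rw [← capC_SPerm, hL.2.2]
          have := cnt_SPerm τ e 0
          rw [hτ.1] at this
          exact this
        · intro i hi
          exact absurd hi id
        · intro i hi hi0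
          have h5 := hQF i hi hi0
          simp only [SPerm.letter, hτ.1, Equiv.Perm.one_apply]
          cases τ.sign i
          · simp [h5]
          · simp [h5]
      · rw [h4, Conn_act_comp]
  · push Not at hα
    have h : ∀ i, CX n Qtc (fun _ => True) Ω0 i := by
      intro i
      fin_cases i
      · exact Or.inr ⟨rfl, hα⟩
      · exact Or.inl ⟨rfl, X1⟩
      · exact Or.inl ⟨rfl, X2⟩
    obtain ⟨F, hF, hF'⟩ := cjP12 n
    refine ⟨F, by omega, ?_⟩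
    intro W hW
    obtain ⟨v, m, hm, hv, hW'⟩ := q_pow B rfl h W hW
    apply hF'
    exact ⟨v, m, hm, by rw [hv 0]; rfl, by rw [hv 1]; rfl, by rw [hv 2]; rfl, hW'⟩

end Pool.Agent.Sims
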