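import Pool.Agent.Sims.RtP1

/-!
# Module `RtP2` : numbers of minimal potentials

`PSc K V` : the classes `act (pot 2 p) V` with count `K` of the letter `c`.  `TB0`, `TB1`, `TC` : sets of triples (pairs) of natural numbers.
Let `s` be as in `hv_gl`, `L = EvPatE_pr s`, `act (pot 2 p) V = cls (expand 2 (shift p s))` (`act_pot`).  If `l ⊆ L` is as in `bas3`, the class is determined by the gains `gk p e`, `e ∈ l` (`shift_gk`), hence by their absolute values
(`p_sign`, `gk_eq`; `K ≤ gf s q` is `hv_min`), and the sum of these absolute values is at most `gf s p = K` (`gf_sum`, `List.Sublist.sum_le_sum` or similar).  So the map `p ↦ (|gk p e|)_{e ∈ l}` (padded with `0` to length `3`) maps the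
minimal potentials to `TB0 K`, and classes with the same image are equal.
* `ps_rank`: `bas3`.   * `ps_closed`: `bas2`; from `Ec V X` one needs `gl s X = 0`: by the third part of `Ec` for `Z = LL` (or any `Z`) `gc s q (X) + gc s q (LL ∖ X) = gc s q LL` for all `q`; choose `q` large multiple of ... or take
  `ec_gl` below.
* `ec_gl`: if `Ec V X` then `gl s X = 0`: for an edge `e` with exactly one end in `X` choose `q` with gain `0` at `e` (change `q` at one end); then `gc s q LL < gc s q X + gc s q (LL ∖ X)` (`gc s q LL` counts `0` for `e`, the right side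
  counts `2`, and for every other edge the left term is at most the right one): contradiction to the third part of `Ec` with `Z = LL`.
* `ps_pair`: `2 ≤ edgS V (sgl x) (sgl y)`, `x ≠ y` light: there are two different edges of `L` with the ends `x, y` and gain `0` (`edgS_zero` / `EvPatE_cyc`): `e₀`, `e₀'`; `|gk p e₀| = |gk p e₀'|` (the gain of `e₀` at `p` is `± (p x - p y)`);
  `bas3p`: `2 u₁ + u₂ + u₃ ≤ K`.
* `tb0_card`, `tc_card`: stars and bars; or `TB0 K ⊆` ... any proof of `card ≤ choose`.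
Difficulty 4.
-/

namespace Pool.Agent.Sims

set_option linter.unusedVariables false

/-- classes of minimal potentials -/
def PSc (K : ℕ) (V : CC) : Set CC := {W | ∃ p : Fin 3 × Bool → ℤ, W = act (pot 2 p) V ∧ cnt W 2 = K}

/-- triples with sum at most `K` -/
def TB0 (K : ℕ) : Finset (ℕ × ℕ × ℕ) :=
  ((Finset.range (K + 1)) ×ˢ (Finset.range (K + 1)) ×ˢ (Finset.range (K + 1))).filter
    (fun u => u.1 + u.2.1 + u.2.2 ≤ K)

/-- triples with `2 u₁ + u₂ + u₃ ≤ K` -/
def TB1 (K : ℕ) : Finset (ℕ × ℕ × ℕ) :=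
  ((Finset.range (K + 1)) ×ˢ (Finset.range (K + 1)) ×ˢ (Finset.range (K + 1))).filter
    (fun u => 2 * u.1 + u.2.1 + u.2.2 ≤ K)

/-- pairs with sum at most `K` -/
def TC (K : ℕ) : Finset (ℕ × ℕ) :=
  ((Finset.range (K + 1)) ×ˢ (Finset.range (K + 1))).filter (fun u => u.1 + u.2 ≤ K)

private theorem RtP2_tc_step (K : ℕ) : (TC (K + 1)).card ≤ (TC K).card + (K + 2) := by
  classical
  have h : TC (K + 1) ⊆ TC K ∪ (Finset.range (K + 2)).image (fun a => (a, K + 1 - a)) := by
    intro u hu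
    simp only [TC, Finset.mem_filter, Finset.mem_product, Finset.mem_range] at hu
    obtain ⟨⟨h1, h2⟩, h3⟩ := hu
    by_cases h4 : u.1 + u.2 ≤ K
    · apply Finset.mem_union_left
      simp only [TC, Finset.mem_filter, Finset.mem_product, Finset.mem_range]
      omega
    · apply Finset.mem_union_right
      refine Finset.mem_image.2 ⟨u.1, Finset.mem_range.2 (by omega), ?_⟩
      refine Prod.ext rfl ?_
      simp only
      omega
  refine (Finset.card_le_card h).trans ((Finset.card_union_le _ _).trans ?_)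
  refine Nat.add_le_add_left ?_ _
  exact Finset.card_image_le.trans (by rw [Finset.card_range])

theorem tc_card (K : ℕ) : (TC K).card ≤ Nat.choose (K + 2) 2 := by
  induction K with
  | zero => decide
  | succ K ih =>
    refine (RtP2_tc_step K).trans ?_
    have h := Nat.choose_succ_succ (K + 2) 1
    rw [show K + 1 + 2 = (K + 2) + 1 from rfl, show (2 : ℕ) = 1 + 1 from rfl, h]
    rw [Nat.choose_one_right]
    simp only [Nat.succ_eq_add_one, Nat.reduceAdd] at *
    omega

theorem tb0_card (K : ℕ) : (TB0 K).card ≤ Nat.choose (K + 3) 3 := by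
  classical
  induction K with
  | zero => decide
  | succ K ih =>
    have h : TB0 (K + 1) ⊆ TB0 K ∪ (TC (K + 1)).image (fun a => (a.1, a.2, K + 1 - a.1 - a.2)) := by
      intro u hu
      simp only [TB0, Finset.mem_filter, Finset.mem_product, Finset.mem_range] at hu
      obtain ⟨⟨h1, h2, h3⟩, h4⟩ := hu
      by_cases h5 : u.1 + u.2.1 + u.2.2 ≤ K
      · apply Finset.mem_union_left
        simp only [TB0, Finset.mem_filter, Finset.mem_product, Finset.mem_range]
        omega
      · apply Finset.mem_union_right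
        refine Finset.mem_image.2 ⟨(u.1, u.2.1), ?_, ?_⟩
        · simp only [TC, Finset.mem_filter, Finset.mem_product, Finset.mem_range]
          omega
        · refine Prod.ext rfl (Prod.ext rfl ?_)
          simp only
          omega
    refine (Finset.card_le_card h).trans ((Finset.card_union_le _ _).trans ?_)
    have h1 : ((TC (K + 1)).image (fun a => (a.1, a.2, K + 1 - a.1 - a.2))).card ≤
        Nat.choose (K + 1 + 2) 2 := Finset.card_image_le.trans (tc_card (K + 1))
    have h2 := Nat.choose_succ_succ (K + 3) 2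
    rw [show K + 1 + 3 = (K + 3) + 1 from rfl, show (3 : ℕ) = 2 + 1 from rfl]
    simp only [Nat.succ_eq_add_one, Nat.reduceAdd] at *
    have h3 : K + 1 + 2 = K + 3 := rfl
    rw [h3] at h1
    omega

private theorem RtP2_lt {X : Ct} (hX : Lt X) {x : Fin 3 × Bool} (h : X x = true) : x.1 ≠ 2 := by
  intro h2
  obtain ⟨i, b⟩ := x
  simp only at h2
  subst h2
  cases b with
  | true => rw [hX.1] at h; exact Bool.noConfusion h
  | false => rw [hX.2] at h; exact Bool.noConfusion h

private theorem RtP2_gc (s : List ((Fin 3 × Bool) × ℤ)) (q : Fin 3 × Bool → ℤ) (Y : Ct) :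
    gc s q Y = ((EvPatE_pr s).map (fun e : Edg =>
      if gk q e = 0 then (if Y e.1.1 = Y (bar e.2.1) then 0 else 1) else
      (if Y e.1.1 then 1 else 0) + (if Y (bar e.2.1) then 1 else 0))).sum := by
  unfold gc
  rw [EvPatE_cyc]
  rfl

theorem ec_gl {n K : ℕ} {V : CC} (H : Hv n K V) {s : List ((Fin 3 × Bool) × ℤ)}
    (hs : SValid 2 s) (hV : cls (expand 2 s) = V) {X : Ct} (hX : Ec V X) : gl s X = 0 := by
  rw [gl_iff]
  by_contra hcon
  push Not at hcon
  obtain ⟨e0, he0, hne⟩ := hcon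
  obtain ⟨hLt, _, h3⟩ := hX
  have hl := gf_light hs
  have hxy : e0.1.1 ≠ bar e0.2.1 := fun h => hne (by rw [← h])
  let q : Fin 3 × Bool → ℤ := fun z => if z = e0.1.1 then - e0.1.2 else 0
  have hq : gk q e0 = 0 := by
    have h4 : ¬ (bar e0.2.1 = e0.1.1) := fun h => hxy h.symm
    simp only [gk, q, h4, if_true, if_false]
    omega
  let LL : Ct := fun x => decide (x.1 ≠ 2)
  have hLL : Lt LL := ⟨rfl, rfl⟩
  have h5 := h3 q LL hLL
  have hA : Lt (fun x => LL x && X x) := ⟨rfl, rfl⟩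
  have hB : Lt (fun x => LL x && !X x) := ⟨rfl, rfl⟩
  rw [g_cap hs hV q hLL, g_cap hs hV q hA, g_cap hs hV q hB, RtP2_gc, RtP2_gc, RtP2_gc,
    ← List.sum_map_add] at h5
  have hll : ∀ e ∈ EvPatE_pr s, LL e.1.1 = true ∧ LL (bar e.2.1) = true := by
    intro e he
    obtain ⟨h6, h7⟩ := hl e he
    refine ⟨decide_eq_true h6, decide_eq_true ?_⟩
    rw [bar_fst]
    exact h7
  have key : ((EvPatE_pr s).map (fun e : Edg =>
      if gk q e = 0 then (if LL e.1.1 = LL (bar e.2.1) then 0 else 1) else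
      (if LL e.1.1 then 1 else 0) + (if LL (bar e.2.1) then 1 else 0))).sum <
      ((EvPatE_pr s).map (fun e : Edg =>
      (if gk q e = 0 then (if (LL e.1.1 && X e.1.1) = (LL (bar e.2.1) && X (bar e.2.1))
        then 0 else 1) else
      (if (LL e.1.1 && X e.1.1) then 1 else 0) +
        (if (LL (bar e.2.1) && X (bar e.2.1)) then 1 else 0)) +
      (if gk q e = 0 then (if (LL e.1.1 && !X e.1.1) = (LL (bar e.2.1) && !X (bar e.2.1))
        then 0 else 1) else
      (if (LL e.1.1 && !X e.1.1) then 1 else 0) +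
        (if (LL (bar e.2.1) && !X (bar e.2.1)) then 1 else 0)))).sum := by
    apply List.sum_lt_sum
    · intro e he
      obtain ⟨h6, h7⟩ := hll e he
      rw [h6, h7]
      by_cases h8 : gk q e = 0
      · simp [h8]
      · simp only [h8, if_false, if_true, Bool.true_and]
        cases X e.1.1 <;> cases X (bar e.2.1) <;> simp
    · refine ⟨e0, he0, ?_⟩
      obtain ⟨h6, h7⟩ := hll e0 he0
      rw [h6, h7, hq]
      cases h8 : X e0.1.1 <;> cases h9 : X (bar e0.2.1)
      · rw [h8, h9] at hne; exact absurd rfl hne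
      · simp
      · simp
      · rw [h8, h9] at hne; exact absurd rfl hne
  rw [h5] at key
  exact lt_irrefl _ key

private theorem RtP2_cov {ι : Type*} [DecidableEq ι] {S : Set CC} (T : Finset ι)
    (R : CC → ι → Prop) (h1 : ∀ W ∈ S, ∃ t ∈ T, R W t)
    (h2 : ∀ W ∈ S, ∀ W' ∈ S, ∀ t, R W t → R W' t → W = W') : Cov S T.card := by
  classical
  refine ⟨T.image (fun t => if h : ∃ W, W ∈ S ∧ R W t then h.choose else ConjClasses.mk 1),
    Finset.card_image_le, ?_⟩
  intro W hW
  obtain ⟨t, ht, hR⟩ := h1 W hW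
  refine Finset.mem_image.2 ⟨t, ht, ?_⟩
  have h : ∃ W, W ∈ S ∧ R W t := ⟨W, hW, hR⟩
  rw [dif_pos h]
  exact h2 _ h.choose_spec.1 _ hW t h.choose_spec.2 hR

/-- the main reduction -/
private theorem RtP2_red {n K : ℕ} {V : CC} (H : Hv n K V) :
    ∃ s : List ((Fin 3 × Bool) × ℤ), SValid 2 s ∧ cls (expand 2 s) = V ∧
      (∀ p, cnt (act (pot 2 p) V) 2 = gf s p) ∧
      ∀ l : List Edg, (∀ e ∈ l, e ∈ EvPatE_pr s) →
        (∀ p p' : Fin 3 × Bool → ℤ, (∀ e ∈ l, gk p e = gk p' e) →
          ∀ e ∈ EvPatE_pr s, gk p e = gk p' e) →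
        ∀ p p' : Fin 3 × Bool → ℤ, cnt (act (pot 2 p) V) 2 = K → cnt (act (pot 2 p') V) 2 = K →
          (∀ e ∈ l, (gk p e).natAbs = (gk p' e).natAbs) → act (pot 2 p) V = act (pot 2 p') V := by
  obtain ⟨s, _, hs, hV⟩ := hv_gl H
  have hc : ∀ p, cnt (act (pot 2 p) V) 2 = gf s p := g_cnt hs hV
  refine ⟨s, hs, hV, hc, ?_⟩
  intro l hl hb p p' hp hp' he
  have hm : ∀ q, K ≤ gf s q := fun q => by rw [← hc]; exact hv_min H q
  rw [hc] at hp hp'
  have hsg := p_sign hm hp hp'
  have h1 : ∀ e ∈ l, gk p e = gk p' e := fun e he' => gk_eq (hsg e (hl e he')) (he e he')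
  have h2 := shift_gk (hb p p' h1)
  rw [← hV, act_pot 2 p s hs.1, act_pot 2 p' s hs.1, h2]

private theorem RtP2_sub (s : List ((Fin 3 × Bool) × ℤ)) (p : Fin 3 × Bool → ℤ) {l : List Edg}
    (h : List.Subperm l (EvPatE_pr s)) : (l.map (fun e => (gk p e).natAbs)).sum ≤ gf s p := by
  rw [gf_sum]
  obtain ⟨l', hp, hs⟩ := h
  have h1 : (l.map (fun e => (gk p e).natAbs)).sum = (l'.map (fun e => (gk p e).natAbs)).sum :=
    ((hp.map _).sum_eq).symm
  rw [h1]
  exact (hs.map _).sum_le_sum (fun _ _ => Nat.zero_le _)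

/-- the first three members -/
private def RtP2_t3 (m : List ℕ) : ℕ × ℕ × ℕ := (m.getD 0 0, m.getD 1 0, m.getD 2 0)

private theorem RtP2_t3_sum {m : List ℕ} (h : m.length ≤ 3) :
    (RtP2_t3 m).1 + (RtP2_t3 m).2.1 + (RtP2_t3 m).2.2 = m.sum := by
  match m, h with
  | [], _ => rfl
  | [a], _ => simp [RtP2_t3]
  | [a, b], _ => simp [RtP2_t3]
  | [a, b, c], _ => simp [RtP2_t3, add_assoc]
  | a :: b :: c :: d :: m, h =>
    simp only [List.length_cons] at h
    omega

private theorem RtP2_t3_inj {m m' : List ℕ} (h : m.length ≤ 3) (h' : m.length = m'.length)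
    (e : RtP2_t3 m = RtP2_t3 m') : m = m' := by
  apply List.ext_getElem h'
  intro i h1 h2
  have e1 : m.getD 0 0 = m'.getD 0 0 := congrArg Prod.fst e
  have e2 : m.getD 1 0 = m'.getD 1 0 := congrArg (fun t => t.2.1) e
  have e3 : m.getD 2 0 = m'.getD 2 0 := congrArg (fun t => t.2.2) e
  have hi : i < 3 := by omega
  rw [← List.getD_eq_getElem m 0 h1, ← List.getD_eq_getElem m' 0 h2]
  interval_cases i
  · exact e1
  · exact e2
  · exact e3

private theorem RtP2_t2_inj {m m' : List ℕ} (h : m.length ≤ 2) (h' : m.length = m'.length)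
    (e1 : m.getD 0 0 = m'.getD 0 0) (e2 : m.getD 1 0 = m'.getD 1 0) : m = m' := by
  apply List.ext_getElem h'
  intro i h1 h2
  have hi : i < 2 := by omega
  rw [← List.getD_eq_getElem m 0 h1, ← List.getD_eq_getElem m' 0 h2]
  interval_cases i
  · exact e1
  · exact e2

private theorem RtP2_t2_sum {m : List ℕ} (h : m.length ≤ 2) :
    m.getD 0 0 + m.getD 1 0 = m.sum := by
  match m, h with
  | [], _ => rfl
  | [a], _ => simp
  | [a, b], _ => simp
  | a :: b :: c :: m, h =>
    simp only [List.length_cons] at h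
    omega

theorem ps_rank {n K : ℕ} {V : CC} (H : Hv n K V) : Cov (PSc K V) (Nat.choose (K + 3) 3) := by
  obtain ⟨s, hs, hV, hc, hred⟩ := RtP2_red H
  obtain ⟨l, hl, hlen, hb⟩ := bas3 (EvPatE_pr s) (gf_light hs)
  have hred' := hred l (fun e he => hl.subset he) hb
  have hcov : Cov (PSc K V) (TB0 K).card := by
    refine RtP2_cov (TB0 K) (fun W t => ∃ p : Fin 3 × Bool → ℤ, W = act (pot 2 p) V ∧
      cnt W 2 = K ∧ t = RtP2_t3 (l.map (fun e => (gk p e).natAbs))) ?_ ?_
    · rintro W ⟨p, hW, hK⟩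
      refine ⟨_, ?_, p, hW, hK, rfl⟩
      have h1 := RtP2_sub s p hl.subperm
      rw [← hc, ← hW, hK] at h1
      have h2 := RtP2_t3_sum (m := l.map (fun e => (gk p e).natAbs)) (by simpa using hlen)
      simp only [TB0, Finset.mem_filter, Finset.mem_product, Finset.mem_range]
      omega
    · rintro W _ W' _ t ⟨p, hW, hK, ht⟩ ⟨p', hW', hK', ht'⟩
      have h1 := RtP2_t3_inj (m := l.map (fun e => (gk p e).natAbs))
        (m' := l.map (fun e => (gk p' e).natAbs)) (by simpa using hlen) (by simp)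
        (by rw [← ht, ← ht'])
      rw [List.map_inj_left] at h1
      rw [hW, hW']
      exact hred' p p' (by rw [← hW]; exact hK) (by rw [← hW']; exact hK') h1
  obtain ⟨F, hF, hF'⟩ := hcov
  exact ⟨F, hF.trans (tb0_card K), hF'⟩

theorem ps_closed {n K : ℕ} {V : CC} (H : Hv n K V) {X : Ct} (hX : Ec V X)
    (h1 : ∃ x, X x = true) (h2 : ∃ x : Fin 3 × Bool, x.1 ≠ 2 ∧ X x = false) :
    Cov (PSc K V) (Nat.choose (K + 2) 2) := by
  obtain ⟨s, hs, hV, hc, hred⟩ := RtP2_red H
  have hgl := gl_iff.1 (ec_gl H hs hV hX)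
  have h1' : ∃ x : Fin 3 × Bool, x.1 ≠ 2 ∧ X x = true := by
    obtain ⟨x, hx⟩ := h1
    exact ⟨x, RtP2_lt hX.1 hx, hx⟩
  obtain ⟨l, hl, hlen, hb⟩ := bas2 (EvPatE_pr s) (gf_light hs) hgl h1' h2
  have hred' := hred l (fun e he => hl.subset he) hb
  have hcov : Cov (PSc K V) (TC K).card := by
    refine RtP2_cov (TC K) (fun W t => ∃ p : Fin 3 × Bool → ℤ, W = act (pot 2 p) V ∧
      cnt W 2 = K ∧ t = ((l.map (fun e => (gk p e).natAbs)).getD 0 0,
        (l.map (fun e => (gk p e).natAbs)).getD 1 0)) ?_ ?_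
    · rintro W ⟨p, hW, hK⟩
      refine ⟨_, ?_, p, hW, hK, rfl⟩
      have h1 := RtP2_sub s p hl.subperm
      rw [← hc, ← hW, hK] at h1
      have h2 := RtP2_t2_sum (m := l.map (fun e => (gk p e).natAbs)) (by simpa using hlen)
      simp only [TC, Finset.mem_filter, Finset.mem_product, Finset.mem_range]
      omega
    · rintro W _ W' _ t ⟨p, hW, hK, ht⟩ ⟨p', hW', hK', ht'⟩
      rw [ht] at ht'
      have h1 := RtP2_t2_inj (m := l.map (fun e => (gk p e).natAbs))
        (m' := l.map (fun e => (gk p' e).natAbs)) (by simpa using hlen) (by simp)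
        (congrArg Prod.fst ht') (congrArg Prod.snd ht')
      rw [List.map_inj_left] at h1
      rw [hW, hW']
      exact hred' p p' (by rw [← hW]; exact hK) (by rw [← hW']; exact hK') h1
  obtain ⟨F, hF, hF'⟩ := hcov
  exact ⟨F, hF.trans (tc_card K), hF'⟩

private theorem RtP2_sum_ite {β : Type*} (P : β → Prop) [DecidablePred P] (L : List β) :
    (L.map (fun e => if P e then 1 else 0)).sum = (L.filter (fun e => decide (P e))).length := by
  induction L with
  | nil => rfl
  | cons a L ih =>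
    rw [List.map_cons, List.sum_cons, ih]
    by_cases h : P a
    · rw [if_pos h, List.filter_cons_of_pos (by simpa using h), List.length_cons, add_comm]
    · rw [if_neg h, List.filter_cons_of_neg (by simpa using h), zero_add]

theorem ps_pair {n K : ℕ} {V : CC} (H : Hv n K V) {x y : Fin 3 × Bool} (hx : x.1 ≠ 2)
    (hy : y.1 ≠ 2) (hxy : x ≠ y) (h : 2 ≤ edgS V (sgl x) (sgl y)) : Cov (PSc K V) (TB1 K).card := by
  obtain ⟨s, hs, hV, hc, hred⟩ := RtP2_red H
  have hz : ∀ z : Fin 3 × Bool, z.1 ≠ 2 → ∀ b, sgl z (2, b) = false := by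
    intro z hz b
    unfold sgl
    exact decide_eq_false (fun h => hz (by rw [← h]))
  rw [← hV, edgS_zero hs (hz x hx true) (hz x hx false) (hz y hy true) (hz y hy false),
    EvPatE_cyc] at h
  rw [RtP2_sum_ite (fun e : Edg => e.1.2 = 0 ∧ ((sgl x e.1.1 && sgl y (bar e.2.1)) ||
    (sgl y e.1.1 && sgl x (bar e.2.1))) = true)] at h
  obtain ⟨e0, e0', r, hr⟩ : ∃ e0 e0' : Edg, ∃ r, (EvPatE_pr s).filter (fun e : Edg =>
      decide (e.1.2 = 0 ∧ ((sgl x e.1.1 && sgl y (bar e.2.1)) ||
      (sgl y e.1.1 && sgl x (bar e.2.1))) = true)) = e0 :: e0' :: r := by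
    generalize (EvPatE_pr s).filter (fun e : Edg =>
      decide (e.1.2 = 0 ∧ ((sgl x e.1.1 && sgl y (bar e.2.1)) ||
      (sgl y e.1.1 && sgl x (bar e.2.1))) = true)) = m at h
    match m, h with
    | [], h => simp at h
    | [a], h => simp at h
    | a :: b :: r, _ => exact ⟨a, b, r, rfl⟩
  have hsub : [e0, e0'].Sublist (EvPatE_pr s) := by
    have h1 : [e0, e0'].Sublist (e0 :: e0' :: r) :=
      List.Sublist.cons_cons e0 (List.Sublist.cons_cons e0' (List.nil_sublist r))
    rw [← hr] at h1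
    exact h1.trans List.filter_sublist
  have hprop : ∀ e ∈ [e0, e0'], e.1.2 = 0 ∧ ((e.1.1 = x ∧ bar e.2.1 = y) ∨
      (e.1.1 = y ∧ bar e.2.1 = x)) := by
    intro e he
    have h1 : e ∈ (EvPatE_pr s).filter (fun e : Edg =>
      decide (e.1.2 = 0 ∧ ((sgl x e.1.1 && sgl y (bar e.2.1)) ||
      (sgl y e.1.1 && sgl x (bar e.2.1))) = true)) := by
      rw [hr]
      simp only [List.mem_cons, List.not_mem_nil, or_false] at he ⊢
      tauto
    have h2 := (List.mem_filter.1 h1).2
    simpa [sgl] using h2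
  have hgk : ∀ e ∈ [e0, e0'], ∀ p : Fin 3 × Bool → ℤ,
      (gk p e = p x - p y ∨ gk p e = p y - p x) ∧
      (∀ p' : Fin 3 × Bool → ℤ, gk p e = gk p' e ↔ p x - p y = p' x - p' y) := by
    intro e he p
    obtain ⟨h1, h2⟩ := hprop e he
    rcases h2 with ⟨h2, h3⟩ | ⟨h2, h3⟩
    · simp only [gk, h1, h2, h3]
      refine ⟨Or.inl (by omega), fun p' => ⟨fun h => by omega, fun h => by omega⟩⟩
    · simp only [gk, h1, h2, h3]
      refine ⟨Or.inr (by omega), fun p' => ⟨fun h => by omega, fun h => by omega⟩⟩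
  have hm0 : e0 ∈ [e0, e0'] := by simp
  have hm1 : e0' ∈ [e0, e0'] := by simp
  have hd : e0.1.1 ≠ bar e0.2.1 := by
    rcases (hprop e0 hm0).2 with ⟨h2, h3⟩ | ⟨h2, h3⟩
    · rw [h2, h3]; exact hxy
    · rw [h2, h3]; exact hxy.symm
  obtain ⟨l, hl, hlen, hb⟩ := bas3p (EvPatE_pr s) (gf_light hs) hsub.subperm hd
    (fun p p' hpp => ((hgk e0' hm1 p).2 p').2 (((hgk e0 hm0 p).2 p').1 hpp))
  have hsubset : ∀ e ∈ e0 :: l, e ∈ EvPatE_pr s := by
    intro e he
    apply hl.subset
    simp only [List.mem_cons] at he ⊢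
    tauto
  have hred' := hred (e0 :: l) hsubset hb
  have hab : ∀ p : Fin 3 × Bool → ℤ, (gk p e0).natAbs = (gk p e0').natAbs := by
    intro p
    have h1 := (hgk e0 hm0 p).1
    have h2 := (hgk e0' hm1 p).1
    omega
  refine RtP2_cov (TB1 K) (fun W t => ∃ p : Fin 3 × Bool → ℤ, W = act (pot 2 p) V ∧
    cnt W 2 = K ∧ t = ((gk p e0).natAbs, (l.map (fun e => (gk p e).natAbs)).getD 0 0,
      (l.map (fun e => (gk p e).natAbs)).getD 1 0)) ?_ ?_
  · rintro W ⟨p, hW, hK⟩
    refine ⟨_, ?_, p, hW, hK, rfl⟩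
    have h1 := RtP2_sub s p hl
    rw [← hc, ← hW, hK] at h1
    have h2 := RtP2_t2_sum (m := l.map (fun e => (gk p e).natAbs)) (by simpa using hlen)
    have h3 := hab p
    simp only [List.map_cons, List.sum_cons] at h1
    simp only [TB1, Finset.mem_filter, Finset.mem_product, Finset.mem_range]
    omega
  · rintro W _ W' _ t ⟨p, hW, hK, ht⟩ ⟨p', hW', hK', ht'⟩
    rw [ht] at ht'
    have h1 := RtP2_t2_inj (m := l.map (fun e => (gk p e).natAbs))
      (m' := l.map (fun e => (gk p' e).natAbs)) (by simpa using hlen) (by simp)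
      (congrArg (fun t => t.2.1) ht') (congrArg (fun t => t.2.2) ht')
    rw [List.map_inj_left] at h1
    rw [hW, hW']
    refine hred' p p' (by rw [← hW]; exact hK) (by rw [← hW']; exact hK') ?_
    intro e he
    rcases List.mem_cons.1 he with rfl | he
    · exact congrArg Prod.fst ht'
    · exact h1 e he

private theorem RtP2_zpow (b : Bool) (k : ℤ) :
    (lett ((2 : Fin 3), b) : FreeGroup (Fin 3)) ^ k =
      (FreeGroup.of 2) ^ (if b = true then k else -k) := by
  cases b with
  | true => rw [lett_true, if_pos rfl]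
  | false => rw [lett_false, if_neg (by decide), zpow_neg, inv_zpow]

private theorem RtP2_comm {σ : SPerm (Fin 3)} (hσ : Fix2 σ) (p : Fin 3 × Bool → ℤ) (V : CC) :
    act σ.aut (act (pot 2 (fun x => if σ.sign 2 = true then p (σ.letter x) else
      - p (σ.letter x))) V) = act (pot 2 p) (act σ.aut V) := by
  have hσ' : σ.perm 2 = 2 := hσ
  rw [act_act, act_act]
  congr 1
  apply Rel_ext
  intro i
  refine ⟨true, ?_⟩
  have hof : σ.aut (FreeGroup.of 2) = lett ((2 : Fin 3), σ.sign 2) := by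
    rw [← lett_true, Rel_aut_apply, SPerm.hom_lett]
    simp only [SPerm.letter, hσ']
    cases σ.sign 2 <;> rfl
  show σ.aut (pot 2 _ (lett (i, true))) = pot 2 p (σ.aut (lett (i, true)))
  by_cases hi : i = 2
  · subst hi
    rw [Rel_pot_self 2 _ (x := ((2 : Fin 3), true)) rfl, Rel_aut_apply, SPerm.hom_lett,
      Rel_pot_self 2 p (x := σ.letter ((2 : Fin 3), true)) hσ']
  · have h2 : (σ.letter (i, true)).1 ≠ 2 := by
      intro h
      apply hi
      have h3 : σ.perm i = 2 := h
      rw [← hσ'] at h3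
      exact σ.perm.injective h3
    rw [Rel_pot_ne _ (x := (i, true)) hi, map_mul, map_mul, map_zpow, map_zpow, hof,
      Rel_aut_apply, SPerm.hom_lett, Rel_pot_ne p h2, RtP2_zpow, RtP2_zpow, SPerm.letter_bar]
    cases σ.sign 2 <;> simp

theorem ps_SPerm {K : ℕ} {V : CC} {σ : SPerm (Fin 3)} (hσ : Fix2 σ) {W : CC}
    (h : W ∈ PSc K (act σ.aut V)) : ∃ W' ∈ PSc K V, W = act σ.aut W' := by
  obtain ⟨p, hW, hK⟩ := h
  have hcomm := RtP2_comm hσ p V
  refine ⟨act (pot 2 (fun x => if σ.sign 2 = true then p (σ.letter x) else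
      - p (σ.letter x))) V, ⟨_, rfl, ?_⟩, ?_⟩
  · have hσ' : σ.perm 2 = 2 := hσ
    have h1 := cnt_SPerm σ (act (pot 2 (fun x => if σ.sign 2 = true then p (σ.letter x) else
      - p (σ.letter x))) V) 2
    rw [hσ', hcomm, ← hW, hK] at h1
    exact h1.symm
  · rw [hcomm, hW]

end Pool.Agent.Sims
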