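import Pool.Agent.Sims.RtP3
import Pool.Agent.Sims.RtP2

/-!
# Module `RtE11` : potentials at a chart with two complementary closed tight windows

`S` closed and tight, `S' = LL ∖ S` tight, `2 gx s 0 S = n k`, `2 gx s 0 S' = n k'`, where `s` is a syllable list of `G`, `Hv n K G`.  `cS X k` : `1`, `k + 1`, `choose (k + 2) 2` if `X` has 1, 2, 3 elements.
* `ps_two`: `gl s S = 0` (`ec_gl`), `gl s S' = 0`, so every syllable has both ends in `S` or both in `S'`: `gf s p = gx s p S + gx s p S'` for all `p`.  `K = gf s 0`.  Let `p` be feasible: `gf s p = K` (`g_cnt`).  With `p_S` = `p` on `S`, `0` elsewhere: `gf s p_S = gx s p S + gx s 0 S' ≥ K` (`hv_min`, `g_cnt`), so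
  `gx s p S ≥ gx s 0 S`, likewise for `S'`; the sum is `K`: both are equalities.  `win_rep` for `X = S` (`Ti n G 0 S`: `hv_ti0`, `LtN`): `p = t + Σ ti ind Yi` on `S`, `n Σ ti ≤ 2 gx s p S = n k`, so `Σ ti ≤ k`.  If `S` has 3 elements, one light letter is outside: `t3 = 0`: `(t1, t2)` with `t1 + t2 ≤ k`:
  `choose (k+2) 2` values (`tc_card`-type count: pairs with sum `≤ k`).  If `S` has 2 elements: `t2 = t3 = 0`: `k + 1` values.  If `S` has one element: no `Yi ⊆ S` is nonempty and proper, so all `ti = 0`.  The same for `S'` (`|S| + |S'| = 4`).  The class `act (pot 2 p) G` is determined by the `ti`, `ti'`: the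
  constants `t` on `S` and `t'` on `S'` act trivially (`Clo 2 G S` from `Ec`, iterated, and `pot_const`): so at most `cS S k * cS S' k'` classes.
* `s_card`: `|S| + |S'| = 4` and both are `1`, `2` or `3`: `decide`-free: `Finset.card_filter` over the four light letters.
Difficulty 3.
-/

namespace Pool.Agent.Sims

/-- number of classes of potentials on a window -/
def cS (X : Ct) (k : ℕ) : ℕ :=
  if (Finset.univ.filter (fun x => X x = true)).card = 1 then 1
  else if (Finset.univ.filter (fun x => X x = true)).card = 2 then k + 1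
  else Nat.choose (k + 2) 2

/-- the light letters not in `S` -/
def coL (S : Ct) : Ct := fun x => !S x && decide (x.1 ≠ 2)

private theorem E11_gx_congr {s : List ((Fin 3 × Bool) × ℤ)} {p q : Fin 3 × Bool → ℤ} {X : Ct}
    (h : ∀ x, X x = true → p x = q x) : gx s p X = gx s q X := by
  unfold gx
  congr 1
  funext a r
  by_cases h1 : (X a.1 && X (bar r.1)) = true
  · rw [if_pos h1, if_pos h1]
    rw [Bool.and_eq_true] at h1
    rw [h _ h1.1, h _ h1.2]
  · rw [if_neg h1, if_neg h1]

private theorem E11_split {s : List ((Fin 3 × Bool) × ℤ)} (hs : SValid 2 s) {S : Ct}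
    (hS : gl s S = 0) (p : Fin 3 × Bool → ℤ) : gf s p = gx s p S + gx s p (coL S) := by
  rw [gf_sum]
  unfold gx
  rw [EvPatE_cyc, EvPatE_cyc, ← List.sum_map_add]
  congr 1
  apply List.map_congr_left
  intro e he
  obtain ⟨h1, h2⟩ := gf_light hs e he
  have h3 := gl_iff.1 hS e he
  have h2' : (bar e.2.1).1 ≠ 2 := h2
  show (gk p e).natAbs = (if (S e.1.1 && S (bar e.2.1)) = true then (gk p e).natAbs else 0) +
    (if (coL S e.1.1 && coL S (bar e.2.1)) = true then (gk p e).natAbs else 0)
  rcases Bool.eq_false_or_eq_true (S (bar e.2.1)) with hb | hb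
  · have a1 : (S e.1.1 && S (bar e.2.1)) = true := by rw [h3, hb]; rfl
    have a2 : ¬ (coL S e.1.1 && coL S (bar e.2.1)) = true := by simp [coL, hb]
    rw [if_pos a1, if_neg a2, Nat.add_zero]
  · have a1 : ¬ (S e.1.1 && S (bar e.2.1)) = true := by rw [hb]; simp
    have a2 : (coL S e.1.1 && coL S (bar e.2.1)) = true := by
      have b1 : coL S e.1.1 = true := by simp [coL, h3, hb, h1]
      have b2 : coL S (bar e.2.1) = true := by
        show (!S (bar e.2.1) && decide ((bar e.2.1).1 ≠ 2)) = true
        rw [hb, decide_eq_true h2']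
        rfl
      rw [b1, b2]
      rfl
    rw [if_neg a1, if_pos a2, Nat.zero_add]

private theorem E11_clo {G : CC} {S : Ct} (hS : Clo 2 G S) (p : Fin 3 × Bool → ℤ) (m : ℤ) :
    act (pot 2 (fun x => p x + m * ind S x)) G = act (pot 2 p) G := by
  induction m using Int.induction_on with
  | zero =>
    congr 2
    funext x
    simp
  | succ i ih =>
    rw [← ih, ← hS (fun x => p x + i * ind S x)]
    congr 2
    funext x
    simp only [Pi.add_apply]
    ring
  | pred i ih =>
    rw [← ih, ← hS (fun x => p x + (-(i : ℤ) - 1) * ind S x)]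
    congr 2
    funext x
    simp only [Pi.add_apply]
    ring

/-- the possible triples -/
private def E11_T (X : Ct) (k : ℕ) : Finset (ℕ × ℕ × ℕ) :=
  if (Finset.univ.filter (fun x => X x = true)).card = 1 then {(0, 0, 0)}
  else if (Finset.univ.filter (fun x => X x = true)).card = 2 then
    (Finset.range (k + 1)).image (fun t => (t, 0, 0))
  else (TC k).image (fun t => (t.1, t.2, 0))

private theorem E11_T_card (X : Ct) (k : ℕ) : (E11_T X k).card ≤ cS X k := by
  unfold E11_T cS
  split_ifs with h1 h2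
  · simp
  · exact Finset.card_image_le.trans (by simp)
  · exact Finset.card_image_le.trans (tc_card k)

private theorem E11_two {X : Ct} (hX : Lt X)
    (h : (Finset.univ.filter (fun x => X x = true)).card = 2) :
    ∃ u v : Fin 3 × Bool, u ≠ v ∧ u.1 ≠ 2 ∧ v.1 ≠ 2 ∧ X u = false ∧ X v = false := by
  obtain ⟨l1, l2⟩ := hX
  have key : ∀ a b c d : Bool, X (0, true) = a → X (0, false) = b → X (1, true) = c →
      X (1, false) = d →
      ∃ u v : Fin 3 × Bool, u ≠ v ∧ u.1 ≠ 2 ∧ v.1 ≠ 2 ∧ X u = false ∧ X v = false := by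
    intro a b c d ha hb hc hd
    have hx : ∀ x : Fin 3 × Bool, X x = (if x = (0, true) then a else if x = (0, false) then b else
        if x = (1, true) then c else if x = (1, false) then d else false) := by
      rintro ⟨i, t⟩
      fin_cases i <;> cases t <;> simp [ha, hb, hc, hd, l1, l2]
    have hY : X = fun x : Fin 3 × Bool => (if x = (0, true) then a else if x = (0, false) then b else
        if x = (1, true) then c else if x = (1, false) then d else false) := funext hx
    subst hY
    clear ha hb hc hd l1 l2 hx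
    revert h
    revert a b c d
    decide
  exact key _ _ _ _ rfl rfl rfl rfl

/-- the potential given by a triple -/
private def E11_p (Y1 Y2 Y3 : Ct) (u : ℕ × ℕ × ℕ) : Fin 3 × Bool → ℤ :=
  fun x => u.1 * ind Y1 x + u.2.1 * ind Y2 x + u.2.2 * ind Y3 x

private theorem E11_win {n K k : ℕ} {G : CC} (H : Hv n K G) {s : List ((Fin 3 × Bool) × ℤ)}
    (hs : SValid 2 s) (hV : cls (expand 2 s) = G) {X : Ct} (hX : gl s X = 0) (hT : Ti n G 0 X)
    (h1 : 2 * gx s 0 X = n * k) (hout : ∃ u : Fin 3 × Bool, u.1 ≠ 2 ∧ X u = false) :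
    ∃ Y1 Y2 Y3 : Ct, (∀ x, X x = false → Y1 x = false ∧ Y2 x = false ∧ Y3 x = false) ∧
      ∀ p : Fin 3 × Bool → ℤ, gf s p = K → gx s p X = gx s 0 X →
        ∃ (t : ℤ) (u : ℕ × ℕ × ℕ), u ∈ E11_T X k ∧
          ∀ x, X x = true → p x = t + E11_p Y1 Y2 Y3 u x := by
  obtain ⟨Y1, Y2, Y3, c1, c2, c3, hp⟩ := win_rep H hs hV hX hT
  have d3 : ∀ x, X x = false → Y3 x = false := by
    intro x hx
    cases h : Y3 x
    · rfl
    · rw [c3 x h] at hx
      exact absurd hx (by decide)
  have d2 : ∀ x, X x = false → Y2 x = false := by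
    intro x hx
    cases h : Y2 x
    · rfl
    · have := c2 x h
      rw [d3 x hx] at this
      exact absurd this (by decide)
  have d1 : ∀ x, X x = false → Y1 x = false := by
    intro x hx
    cases h : Y1 x
    · rfl
    · have := c1 x h
      rw [d2 x hx] at this
      exact absurd this (by decide)
  refine ⟨Y1, Y2, Y3, fun x hx => ⟨d1 x hx, d2 x hx, d3 x hx⟩, ?_⟩
  intro p hpK hgx
  obtain ⟨t, t1, t2, t3, e1, e2, e3, e4, e5, e6, e7⟩ := hp p hpK
  have hn : 0 < n := by have := H.h4; omega
  have hsum : t1 + t2 + t3 ≤ k := by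
    rw [hgx, h1] at e2
    exact Nat.le_of_mul_le_mul_left e2 hn
  refine ⟨t, (t1, t2, t3), ?_, ?_⟩
  · unfold E11_T
    by_cases a1 : (Finset.univ.filter (fun x => X x = true)).card = 1
    · rw [if_pos a1]
      have key : ∀ Y : Ct, (∀ x, X x = false → Y x = false) → (∃ x, Y x = true) →
          (∃ x, X x = true ∧ Y x = false) → False := by
        rintro Y hY ⟨x, hx⟩ ⟨y, hy1, hy2⟩
        obtain ⟨z, hz⟩ := Finset.card_eq_one.1 a1
        have m1 : x ∈ Finset.univ.filter (fun x => X x = true) := by
          rw [Finset.mem_filter]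
          refine ⟨Finset.mem_univ _, ?_⟩
          cases h : X x
          · rw [hY x h] at hx
            exact absurd hx (by decide)
          · rfl
        have m2 : y ∈ Finset.univ.filter (fun x => X x = true) := by
          rw [Finset.mem_filter]
          exact ⟨Finset.mem_univ _, hy1⟩
        rw [hz, Finset.mem_singleton] at m1 m2
        rw [m1] at hx
        rw [m2, hx] at hy2
        exact absurd hy2 (by decide)
      have z1 : t1 = 0 := by
        by_contra h
        obtain ⟨f1, f2, _⟩ := e3 (Nat.pos_of_ne_zero h)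
        exact key Y1 d1 f1 f2
      have z2 : t2 = 0 := by
        by_contra h
        obtain ⟨f1, f2, _⟩ := e4 (Nat.pos_of_ne_zero h)
        exact key Y2 d2 f1 f2
      have z3 : t3 = 0 := by
        by_contra h
        obtain ⟨f1, f2, _⟩ := e5 (Nat.pos_of_ne_zero h)
        exact key Y3 d3 f1 f2
      rw [z1, z2, z3]
      exact Finset.mem_singleton_self _
    · rw [if_neg a1]
      by_cases a2 : (Finset.univ.filter (fun x => X x = true)).card = 2
      · rw [if_pos a2]
        obtain ⟨z2, z3⟩ := e7 (E11_two hT.1.1 a2)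
        rw [z2, z3, Finset.mem_image]
        exact ⟨t1, Finset.mem_range.2 (by omega), rfl⟩
      · rw [if_neg a2]
        have z3 := e6 hout
        rw [z3, Finset.mem_image]
        refine ⟨(t1, t2), ?_, rfl⟩
        unfold TC
        rw [Finset.mem_filter, Finset.mem_product, Finset.mem_range, Finset.mem_range]
        refine ⟨⟨?_, ?_⟩, ?_⟩
        · show t1 < k + 1
          omega
        · show t2 < k + 1
          omega
        · show t1 + t2 ≤ k
          omega
  · intro x hx
    rw [e1 x hx]
    unfold E11_p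
    ring

theorem ps_two {n K k k' : ℕ} {G : CC} (H : Hv n K G) {S : Ct} (hS : Ec G S)
    (hT : capC G S = n) (hT' : capC G (coL S) = n) (hz : ∃ x, S x = true)
    (hz' : ∃ x, coL S x = true) {s : List ((Fin 3 × Bool) × ℤ)} (hs : SValid 2 s)
    (hV : cls (expand 2 s) = G) (h1 : 2 * gx s 0 S = n * k) (h2 : 2 * gx s 0 (coL S) = n * k') :
    Cov (PSc K G) (cS S k * cS (coL S) k') := by
  classical
  have h4 := H.h4
  have hc0 : 0 < cnt G 0 := by rw [H.c0]; omega
  have hS' : Ec G (coL S) := ec_compl hc0 hS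
  have gS : gl s S = 0 := ec_gl H hs hV hS
  have gS' : gl s (coL S) = 0 := ec_gl H hs hV hS'
  have lt1 : Lt S := hS.1
  have lt2 : Lt (coL S) := hS'.1
  have tS : Ti n G 0 S := hv_ti0.2 ⟨⟨lt1, hz⟩, hT⟩
  have tS' : Ti n G 0 (coL S) := hv_ti0.2 ⟨⟨lt2, hz'⟩, hT'⟩
  have dis : ∀ x, S x = true → coL S x = false := by
    intro x hx
    simp [coL, hx]
  have o1 : ∃ u : Fin 3 × Bool, u.1 ≠ 2 ∧ S u = false := by
    obtain ⟨x, hx⟩ := hz'
    refine ⟨x, ?_, ?_⟩
    · intro h
      simp [coL, h] at hx
    · cases h : S x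
      · rfl
      · rw [dis x h] at hx
        exact absurd hx (by decide)
  have o2 : ∃ u : Fin 3 × Bool, u.1 ≠ 2 ∧ coL S u = false := by
    obtain ⟨x, hx⟩ := hz
    refine ⟨x, ?_, dis x hx⟩
    intro h
    rcases x with ⟨i, b⟩
    have hi : i = 2 := h
    subst hi
    cases b
    · rw [lt1.2] at hx
      exact absurd hx (by decide)
    · rw [lt1.1] at hx
      exact absurd hx (by decide)
  obtain ⟨Y1, Y2, Y3, dY, hY⟩ := E11_win H hs hV gS tS h1 o1
  obtain ⟨Z1, Z2, Z3, dZ, hZ⟩ := E11_win H hs hV gS' tS' h2 o2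
  have hK0 : gf s 0 = K := by
    rw [← g_cnt hs hV 0, pot_zero, H.c2]
  refine ⟨((E11_T S k) ×ˢ (E11_T (coL S) k')).image
    (fun u => act (pot 2 (fun x => E11_p Y1 Y2 Y3 u.1 x + E11_p Z1 Z2 Z3 u.2 x)) G), ?_, ?_⟩
  · refine Finset.card_image_le.trans ?_
    rw [Finset.card_product]
    exact Nat.mul_le_mul (E11_T_card S k) (E11_T_card (coL S) k')
  · rintro W ⟨p, rfl, hp⟩
    have hpK : gf s p = K := by rw [← g_cnt hs hV p]; exact hp
    have low : ∀ q, K ≤ gf s q := by
      intro q
      rw [← g_cnt hs hV q]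
      exact hv_min H q
    have q1 : K ≤ gx s p S + gx s 0 (coL S) := by
      have e := low (fun x => if S x then p x else 0)
      rw [E11_split hs gS] at e
      have e1 : gx s (fun x => if S x then p x else 0) S = gx s p S :=
        E11_gx_congr (fun x hx => by simp [hx])
      have e2 : gx s (fun x => if S x then p x else 0) (coL S) = gx s 0 (coL S) := by
        refine E11_gx_congr (fun x hx => ?_)
        have : S x = false := by
          cases h : S x
          · rfl
          · rw [dis x h] at hx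
            exact absurd hx (by decide)
        simp [this]
      rw [e1, e2] at e
      exact e
    have q2 : K ≤ gx s 0 S + gx s p (coL S) := by
      have e := low (fun x => if coL S x then p x else 0)
      rw [E11_split hs gS] at e
      have e1 : gx s (fun x => if coL S x then p x else 0) (coL S) = gx s p (coL S) :=
        E11_gx_congr (fun x hx => by simp [hx])
      have e2 : gx s (fun x => if coL S x then p x else 0) S = gx s 0 S :=
        E11_gx_congr (fun x hx => by simp [dis x hx])
      rw [e1, e2] at e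
      exact e
    have q3 := E11_split hs gS p
    have q4 := E11_split hs gS (0 : Fin 3 × Bool → ℤ)
    rw [hpK] at q3
    rw [hK0] at q4
    obtain ⟨t, u, hu, hu2⟩ := hY p hpK (by omega)
    obtain ⟨t', u', hu', hu2'⟩ := hZ p hpK (by omega)
    rw [Finset.mem_image]
    refine ⟨(u, u'), Finset.mem_product.2 ⟨hu, hu'⟩, ?_⟩
    have k1 := E11_clo hS.2.1 (fun x => E11_p Y1 Y2 Y3 u x + E11_p Z1 Z2 Z3 u' x) t
    have k2 := E11_clo hS'.2.1 (fun x => (E11_p Y1 Y2 Y3 u x + E11_p Z1 Z2 Z3 u' x) + t * ind S x) t'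
    show act (pot 2 (fun x => E11_p Y1 Y2 Y3 u x + E11_p Z1 Z2 Z3 u' x)) G = act (pot 2 p) G
    rw [← k1, ← k2]
    apply pot_congr
    intro x hx
    cases hSx : S x
    · have hcx : coL S x = true := by
        simp [coL, hSx, hx]
      have y1 := dY x hSx
      have e1 : E11_p Y1 Y2 Y3 u x = 0 := by
        simp [E11_p, ind, y1.1, y1.2.1, y1.2.2]
      rw [hu2' x hcx, e1]
      simp only [ind, hSx, hcx, if_true, Bool.false_eq_true, if_false]
      ring
    · have hcx := dis x hSx
      have z1 := dZ x hcx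
      have e1 : E11_p Z1 Z2 Z3 u' x = 0 := by
        simp [E11_p, ind, z1.1, z1.2.1, z1.2.2]
      rw [hu2 x hSx, e1]
      simp only [ind, hSx, hcx, if_true, Bool.false_eq_true, if_false]
      ring

end Pool.Agent.Sims
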