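import Pool.Agent.Sims.RtE8
import Pool.Agent.Sims.RtE10
import Pool.Agent.Sims.RtE11

/-!
# Module `RtE12` : conclusion in the double case

`T : Th2 n K k k' Ω0`, `Ω = pw (e2 k') Ω0'`, `Ω0' ∈ SQ PN Qtc ⊤ Ω0`, `V = th k Ω` good.  `S = {pw (e2 k') Ω0' | ..}` (`clg2`).
* `s1_two`: `Th2 n K k k' Ω0`, `S1 n k G (pw (e2 k') Ω0) B`: `Cov (PSc K G) (cS S k * cS (coL S) k')`, `S = stc B z⁻¹` : `ps_two`.  `Hv`, `Ec G S`, `capC G S = n`: `th1_lv` (`th2_th1`).  `th_gxs` (with `act (wh z S) G = th k _`, `th1_lv`): `gx s 0 S = k cnt _ 1`, `2 cnt _ 1 = n`; `gx s 0 (coL S) = K - k n/2`, and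
  `2 K = n (k + k')`: `2 gx s 0 (coL S) = n k'`.  `capC G (coL S) = n`: `hS` (`Ec`, `Z = LL`, `q = 0`): `capC G LL = n + capC G (coL S)`, and `capC G LL = capC G (PrC 2) = capC (th k _) (PrC 2)` (`capC_wh_disj`: `B` does not contain `c^{±1}`; `capC_compl`) `= capC (th k _) LL = capC {z} + capC (LL ∖ {z}) = n + n`
  (`Ec` of `{z}`; `capC {z} = cnt _ 1 = n`; `capC (LL ∖ z) = capC Ω (PrC 2) = n` by `th_cap`, `capC_compl`).
* `cs_sum`: for the four light sets `B` with `z⁻¹ ∈ B`, `z ∉ B` the sum of `cS (stc B z⁻¹) k * cS (coL (stc B z⁻¹)) k'` is `choose (k'+2) 2 + 2 (k+1)(k'+1) + choose (k+2) 2` (`|stc B z⁻¹| = |B| = 1, 2, 2, 3`, `|coL| = 4 - |B|`).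
* `e_double`: `covA_sub`, `s36`: `F`, 36 elements of `SQ PN Qtc ⊤ Ω0`.  `d ∈ orb V`: `r2_cover` (`Hv` by `clg2`, `T`), `er_th` with `clg2`: as in `e_single` (module `RtE8`): `Ω' = pw (e2 k') Ω0''`, `Ω0'' = act τ.aut e`, `Ja τ`, `pw_SPerm` (`τ.perm = 1`), `th_ja`, `s1_tr`, `ps_SPerm`.  Total:
  `36 (choose (k'+2) 2 + 2 (k+1)(k'+1) + choose (k+2) 2) ≤ F3 (8 + 2 (k + k')) ≤ F3 (2 n + K)` (`n_cc`: `k + k' ≥ 3` since `2 K = n (k + k')`, `K > n`; `n_mono`: `8 + 2 (k + k') ≤ 2 n + K`, as `2 K = n (k+k') ≥ 4 (k + k')`).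
Difficulty 4.
-/

namespace Pool.Agent.Sims

theorem RtE12_LL (V : CC) : capC V LL = capC V (PrC 2) := by
  rw [← capC_compl V (PrC 2)]
  have e : (fun x : Fin 3 × Bool => !PrC 2 x) = LL := by
    funext x
    unfold PrC LL
    by_cases h : x.1 = 2
    · simp [h]
    · simp [h]
  rw [e]

/-- the four sets -/
def RtE12_f (u : Bool × Bool) : Ct := fun x => if x = (0, true) then u.1 else if x = (0, false) then u.2
    else decide (x = (1, false))

theorem RtE12_inj : Function.Injective RtE12_f := by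
  intro u v h
  have h1 := congrFun h (0, true)
  have h2 := congrFun h (0, false)
  simp only [RtE12_f, if_true] at h1
  simp [RtE12_f] at h2
  exact Prod.ext h1 h2

theorem s1_two {n K k k' : ℕ} {G Ω0 : CC} {B : Ct} (T : Th2 n K k k' Ω0)
    (h : S1 n k G (pw (e2 k') Ω0) B) :
    Cov (PSc K G) (cS (stc B (1, false)) k * cS (coL (stc B (1, false))) k') := by
  obtain ⟨T1, hD⟩ := th2_th1 T
  obtain ⟨hB, h1, h2, h3, rfl⟩ := h
  obtain ⟨H, hE, hT, -, he⟩ := th1_lv T1 hB h1 h2 h3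
  obtain ⟨f0, f1, f2, f3, f4, f5, f6⟩ := th1_facts T1
  obtain ⟨s, -, hs, hV⟩ := hv_gl H
  have hz : stc B (1, false) (1, true) = true := by simp [stc, bar]
  have hz' : stc B (1, false) (1, false) = false := by simp [stc, bar]
  obtain ⟨g1, g2⟩ := th_gxs H hE hT hz hz' T1.hk he hs hV
  have hlt : Lt (stc B (1, false)) := hE.1
  have e1 : (fun x => LL x && stc B (1, false) x) = stc B (1, false) := by
    funext x
    unfold LL
    by_cases h : x.1 = 2
    · have hx : stc B (1, false) x = false := by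
        obtain ⟨i, b⟩ := x
        have hi : i = 2 := h
        subst hi
        cases b
        · exact hlt.2
        · exact hlt.1
      simp [h, hx]
    · simp [h]
  have eq2 : (fun x => LL x && !stc B (1, false) x) = coL (stc B (1, false)) := by
    funext x
    unfold LL coL
    rw [Bool.and_comm]
  have hLLt : Lt LL := ⟨by decide, by decide⟩
  have h5 := hE.2.2 0 LL hLLt
  rw [pot_zero, e1, eq2, hT, RtE12_LL] at h5
  have h6 : capC (act (wh (1, false) B) (th k (pw (e2 k') Ω0))) (PrC 2) = capC (th k (pw (e2 k') Ω0)) (PrC 2) := by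
    refine capC_wh_disj _ _ _ _ h1 ?_ (by decide) (by decide) ?_
    · exact h2
    · intro x hx
      unfold PrC
      by_contra hc
      have hc2 : x.1 = 2 := by simpa using hc
      obtain ⟨i, b⟩ := x
      have hi : i = 2 := hc2
      subst hi
      cases b
      · rw [hB.2] at hx; exact absurd hx (by decide)
      · rw [hB.1] at hx; exact absurd hx (by decide)
  have h7 := f6.2.2 0 LL hLLt
  rw [pot_zero] at h7
  have e3 : (fun x => LL x && sgl ((1 : Fin 3), true) x) = sgl ((1 : Fin 3), true) := by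
    funext x
    unfold LL sgl
    by_cases h : x = ((1 : Fin 3), true)
    · rw [h]; decide
    · simp [h]
  rw [e3, capC_sgl, RtE12_LL] at h7
  have h8 : cnt (th k (pw (e2 k') Ω0)) 1 = n := T1.H.c1
  have h9 : capC (th k (pw (e2 k') Ω0)) (fun x => LL x && !sgl ((1 : Fin 3), true) x) = n := by
    rw [← hD, ← capC_compl]
    refine th_cap T1.hk ?_ ?_ ?_ ?_ ?_ ?_ ?_
    · rw [f0]; have := T1.H.h4; omega
    · intro b; cases b <;> decide
    · decide
    · decide
    · decide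
    · decide
    · intro b; cases b <;> decide
  change capC (th k (pw (e2 k') Ω0)) (PrC 2) = cnt (th k (pw (e2 k') Ω0)) 1 + _ at h7
  rw [h8, h9] at h7
  rw [h6, h7] at h5
  have hT' : capC (act (wh (1, false) B) (th k (pw (e2 k') Ω0))) (coL (stc B (1, false))) = n := by omega
  refine ps_two H hE hT hT' ⟨_, hz⟩ ⟨(1, false), ?_⟩ hs hV ?_ ?_
  · unfold coL
    rw [hz']
    decide
  · rw [g1, ← f1]
    ring
  · have hg : gx s 0 (coL (stc B (1, false))) + k * cnt (pw (e2 k') Ω0) 1 = K := g2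
    have hK := T.hK
    rw [← f1] at hK ⊢
    have : 2 * (gx s 0 (coL (stc B (1, false))) + k * cnt (pw (e2 k') Ω0) 1) = 2 * K := by rw [hg]
    rw [hK] at this
    nlinarith

theorem cs_sum (k k' : ℕ) {F : Finset Ct} (hF : F.card = 4)
    (h : ∀ B : Ct, Lt B → B (1, false) = true → B (1, true) = false → B ∈ F) :
    ∑ B ∈ F, cS (stc B (1, false)) k * cS (coL (stc B (1, false))) k' =
      Nat.choose (k' + 2) 2 + 2 * ((k + 1) * (k' + 1)) + Nat.choose (k + 2) 2 := by
  classical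
  have hlt : ∀ u, Lt (RtE12_f u) := fun u => ⟨by simp [RtE12_f], by simp [RtE12_f]⟩
  have h1 : Finset.univ.image RtE12_f = F := by
    refine Finset.eq_of_subset_of_card_le ?_ ?_
    · intro B hB
      rw [Finset.mem_image] at hB
      obtain ⟨u, -, rfl⟩ := hB
      exact h _ (hlt u) (by simp [RtE12_f]) (by simp [RtE12_f])
    · rw [Finset.card_image_of_injective _ RtE12_inj, hF]
      decide
  rw [← h1, Finset.sum_image fun x _ y _ hxy => RtE12_inj hxy, Fintype.sum_prod_type, Fintype.sum_bool, Fintype.sum_bool, Fintype.sum_bool]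
  have a1 : cS (stc (RtE12_f (true, true)) (1, false)) k = Nat.choose (k + 2) 2 := by
    unfold cS
    rw [if_neg (by decide), if_neg (by decide)]
  have a2 : cS (coL (stc (RtE12_f (true, true)) (1, false))) k' = 1 := by
    unfold cS
    rw [if_pos (by decide)]
  have b1 : cS (stc (RtE12_f (true, false)) (1, false)) k = k + 1 := by
    unfold cS
    rw [if_neg (by decide), if_pos (by decide)]
  have b2 : cS (coL (stc (RtE12_f (true, false)) (1, false))) k' = k' + 1 := by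
    unfold cS
    rw [if_neg (by decide), if_pos (by decide)]
  have c1 : cS (stc (RtE12_f (false, true)) (1, false)) k = k + 1 := by
    unfold cS
    rw [if_neg (by decide), if_pos (by decide)]
  have c2 : cS (coL (stc (RtE12_f (false, true)) (1, false))) k' = k' + 1 := by
    unfold cS
    rw [if_neg (by decide), if_pos (by decide)]
  have d1 : cS (stc (RtE12_f (false, false)) (1, false)) k = 1 := by
    unfold cS
    rw [if_pos (by decide)]
  have d2 : cS (coL (stc (RtE12_f (false, false)) (1, false))) k' = Nat.choose (k' + 2) 2 := by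
    unfold cS
    rw [if_neg (by decide), if_neg (by decide)]
  rw [a1, a2, b1, b2, c1, c2, d1, d2]
  ring

theorem e_double {n K k k' : ℕ} {Ω0 Ω : CC} (T : Th2 n K k k' Ω0)
    (hΩ : ∃ Ω0' ∈ SQ PN Qtc (fun _ => True) Ω0, Ω = pw (e2 k') Ω0') (hG : GdC n (th k Ω)) :
    Bdd (th k Ω) (F3 (2 * n + K)) := by
  classical
  have hC := clg2 T
  have T1 : Th1 n K k Ω := hC.t Ω hΩ
  obtain ⟨F, hF36, hFS, hFc⟩ := covA_sub (s36 T.B T.X1 T.X2)
  obtain ⟨F4, hF4, hF4m⟩ := s1_four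
  have hex : ∀ eB : CC × Ct, ∃ E : Finset CC,
      E.card ≤ cS (stc eB.2 (1, false)) k * cS (coL (stc eB.2 (1, false))) k' ∧
      (eB.1 ∈ F → ∀ G, S1 n k G (pw (e2 k') eB.1) eB.2 → ∀ W ∈ PSc K G, W ∈ E) := by
    rintro ⟨e, B⟩
    by_cases h : e ∈ F ∧ ∃ G, S1 n k G (pw (e2 k') e) B
    · obtain ⟨he, G, hS⟩ := h
      obtain ⟨E, hE, hE'⟩ := s1_two (th2_sq T (hFS e he)) hS
      refine ⟨E, hE, ?_⟩
      intro _ G' hS' W hW
      have : G' = G := by
        rw [hS'.2.2.2.2, hS.2.2.2.2]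
      subst this
      exact hE' W hW
    · refine ⟨∅, by simp, ?_⟩
      intro he G hS
      exact absurd ⟨he, G, hS⟩ h
  choose FF hFF hFF' using hex
  refine ⟨(F ×ˢ F4).biUnion FF, ?_, ?_⟩
  · have h1 : ((F ×ˢ F4).biUnion FF).card ≤
        ∑ eB ∈ F ×ˢ F4, cS (stc eB.2 (1, false)) k * cS (coL (stc eB.2 (1, false))) k' :=
      Finset.card_biUnion_le.trans (Finset.sum_le_sum fun x _ => hFF x)
    rw [Finset.sum_product] at h1
    change _ ≤ ∑ x ∈ F, ∑ B ∈ F4, cS (stc B (1, false)) k * cS (coL (stc B (1, false))) k' at h1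
    rw [Finset.sum_const, smul_eq_mul, cs_sum k k' hF4 hF4m] at h1
    have h4 := T1.H.h4
    have hK := T1.H.hK
    have hKk := T.hK
    have h3 : 3 ≤ k + k' := by
      by_contra hc
      have h5 : k + k' ≤ 2 := by omega
      have h6 : n * (k + k') ≤ n * 2 := Nat.mul_le_mul_left n h5
      omega
    have h6 := n_cc T.hk T.hk' h3
    have h7 : 4 * (k + k') ≤ n * (k + k') := Nat.mul_le_mul_right _ h4
    have h8 : F3 (8 + 2 * (k + k')) ≤ F3 (2 * n + K) := n_mono (by omega) (by omega)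
    have h9 := Nat.mul_le_mul_right (Nat.choose (k' + 2) 2 + 2 * ((k + 1) * (k' + 1)) + Nat.choose (k + 2) 2) hF36
    omega
  · intro d hd
    obtain ⟨σ, G, p, hGE, hcnt, rfl⟩ := r2_cover T1.H hG hd
    obtain ⟨σ', Ω', G', B', hσ', hΩ', hS, rfl⟩ := er_th hC hΩ hGE
    have hW : act (pot 2 p) (act σ'.aut G') ∈ PSc K (act σ'.aut G') := ⟨p, rfl, hcnt⟩
    obtain ⟨W', hW', hWe⟩ := ps_SPerm hσ' hW
    obtain ⟨Ω0', hΩ0', rfl⟩ := hΩ'
    obtain ⟨τ, hτ, e, he, rfl⟩ := hFc Ω0' hΩ0'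
    have hpw : pw (e2 k') (act τ.aut e) = act τ.aut (pw (e2 k') e) := by
      refine pw_SPerm (fun i => ?_) e
      rw [hτ.1]
      rfl
    obtain ⟨τ', hτ1, hτ2, hτ3⟩ := th_ja k hτ
    rw [hpw] at hS
    obtain ⟨G'', B'', hS'', rfl⟩ := s1_tr hτ1 hτ2 (hτ3 (pw (e2 k') e)) hS
    have hτ4 : Fix2 τ' := by
      show τ'.perm 2 = 2
      rw [hτ1]; rfl
    obtain ⟨W'', hW'', rfl⟩ := ps_SPerm hτ4 hW'
    refine ⟨Conn_comp (Conn_comp σ σ') τ', W'', ?_, ?_⟩
    · rw [Finset.mem_biUnion]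
      exact ⟨(e, B''), Finset.mem_product.2 ⟨he, hF4m _ hS''.1 hS''.2.1 hS''.2.2.1⟩,
        hFF' (e, B'') he G'' hS'' W'' hW''⟩
    · rw [hWe, Conn_act_comp, Conn_act_comp]

end Pool.Agent.Sims
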