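import Pool.Agent.Sims.RtG9
import Pool.Agent.Sims.RtP2

/-!
# Module `RtE2` : closed sets and rotations: transport under light moves and signed permutations

* `ec_fix`: `Clo 2 V U` with `p = 0` (`pot_zero`, `0 + ind U`).
* `ec_alg`: syllable list `s` of `V` (`hv_gl`).  Iterating: `act (pot 2 (N ind U)) V = V` for all `N : ℕ` (`pot_add`, induction), so `gf s (N ind U) = K` (`g_cnt`).  If `gl s U ≠ 0` some syllable `(a, r)` has `U a.1 ≠ U (bar r.1)`, its contribution to `gf s (N ind U)` is `|a.2 ± N|`, larger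
  than `K` for `N = K + |a.2| + 1`.  So `gl s U = 0`, `ec_of_gl`.
* `ec_npr`: a closed set is not `{x_i, x_i⁻¹}`, `i ≠ 2`: `ec_gl`: `gl s U = 0`: for all consecutive syllables `(a, r)`: `a.1.1 = i ↔ r.1.1 = i`; so either all or none of the letters of `s` have generator `i`, but the counts of both light generators are `n > 0` (`H.c0`, `H.c1`; the count of
  a light generator is the number of syllables with it).  * `ec_npr'`: the same for the complement (all light letters of one generator): apply `ec_npr` to it, `ec_compl`.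
* `ec_psi`: `tr_pot` with `p = ind Y` (constant on `A`): `act (pot 2 (ind (psi z A Y))) (act (wh z A) V) = act (wh z A) (act (pot 2 (ind Y)) V) = act (wh z A) V`; `ec_alg`, `psi_Lt`.
* `rot_psi`: window disjoint from `A`: `U, I` vanish on `A`, so `tr_pot` (potential `κ ind I`, `0` on `A`), `tr_cut` (for the class `V` and for `act (pot 2 (κ ind I)) V`; `pot_zero`), `ec_psi`.  `psi z A U`, `psi z A I` agree with `U`, `I` outside of `A ∖ z`; `LtN`: a letter of `U` is not in `A`.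
* `hv_sp`, `gd_sp`, `ti_sp`, `ec_sp`, `rot_sp`: `Fix2 σ`; `act (pot 2 q) (act σ.aut V) = act σ.aut (act (pot 2 (fun x => s * q (σ.letter x))) V)`, `s = 1` if `σ.sign 2`, else `-1` (compare on generators); `capC_SPerm`, `cnt_SPerm` (`σ` permutes the generators `0, 1`), `OMin_SPerm`, `orb` of
  `act σ.aut V` is `orb V` (`orb_eq`).
* `str_sp`: `StR n (act σ.aut V) W`: a light move: `TwBasic_SPerm` for `σ.inv`; a rotation: `rot_sp`.
* `bdd_orb`: `Bdd` depends only on the orbit (`orb_eq`).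
Difficulty 3.
-/

namespace Pool.Agent.Sims

open FreeGroup (of)

theorem ec_fix {V : CC} {U : Ct} (h : Ec V U) : act (pot 2 (ind U)) V = V := by
  have h1 := h.2.1 0
  rw [zero_add, pot_zero] at h1
  exact h1

theorem RtE2_iter {V : CC} {U : Ct} (h : act (pot 2 (ind U)) V = V) (N : ℕ) :
    act (pot 2 (fun x => (N : ℤ) * ind U x)) V = V := by
  induction N with
  | zero =>
    have h1 : (fun x => ((0 : ℕ) : ℤ) * ind U x) = 0 := by
      funext x
      simp
    rw [h1, pot_zero]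
  | succ k ih =>
    have h1 : (fun x => ((k + 1 : ℕ) : ℤ) * ind U x) = ind U + fun x => (k : ℤ) * ind U x := by
      funext x
      simp only [Pi.add_apply]
      push_cast
      ring
    rw [h1, ← pot_add, ih, h]

theorem RtE2_le_sum {β : Type*} (l : List β) (f : β → ℕ) {e : β} (he : e ∈ l) : f e ≤ (l.map f).sum :=
  List.le_sum_of_mem (List.mem_map_of_mem he)

theorem ec_alg {n K : ℕ} {V : CC} (H : Hv n K V) {U : Ct} (hU : Lt U)
    (h : act (pot 2 (ind U)) V = V) : Ec V U := by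
  obtain ⟨s, -, hs, hV⟩ := hv_gl H
  refine ec_of_gl hs hV hU ?_
  rw [gl_iff]
  intro e he
  by_contra hne
  have h1 := g_cnt hs hV (fun x => ((K + e.1.2.natAbs + 1 : ℕ) : ℤ) * ind U x)
  rw [RtE2_iter h, H.c2, gf_sum] at h1
  have h2 := RtE2_le_sum (EvPatE_pr s)
    (fun e => (gk (fun x => ((K + e.1.2.natAbs + 1 : ℕ) : ℤ) * ind U x) e).natAbs) he
  have h2' := RtE2_le_sum (EvPatE_pr s)
    (fun e' => (gk (fun x => ((K + e.1.2.natAbs + 1 : ℕ) : ℤ) * ind U x) e').natAbs) he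
  rw [← h1] at h2'
  have h3 : ind U e.1.1 = 1 ∧ ind U (bar e.2.1) = 0 ∨ ind U e.1.1 = 0 ∧ ind U (bar e.2.1) = 1 := by
    unfold ind
    cases h4 : U e.1.1 <;> cases h5 : U (bar e.2.1)
    · exact absurd (h4.trans h5.symm) hne
    · right; exact ⟨rfl, rfl⟩
    · left; exact ⟨rfl, rfl⟩
    · exact absurd (h4.trans h5.symm) hne
  have h6 : (gk (fun x => ((K + e.1.2.natAbs + 1 : ℕ) : ℤ) * ind U x) e) =
      e.1.2 + ((K + e.1.2.natAbs + 1 : ℕ) : ℤ) * ind U e.1.1 -
        ((K + e.1.2.natAbs + 1 : ℕ) : ℤ) * ind U (bar e.2.1) := rfl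
  rw [h6] at h2'
  rcases h3 with ⟨h4, h5⟩ | ⟨h4, h5⟩
  · rw [h4, h5, mul_one, mul_zero] at h2'
    omega
  · rw [h4, h5, mul_one, mul_zero] at h2'
    omega

theorem RtE2_lin {β : Type*} (f : β → Bool) (l : List β) : ∀ (x z : β),
    lin (fun a r => if f a = f r then 0 else 1) x l z = 0 → ∀ a ∈ x :: l, f a = f z := by
  induction l with
  | nil =>
    intro x z h a ha
    simp only [lin] at h
    rw [List.mem_singleton] at ha
    subst ha
    by_contra hne
    rw [if_neg hne] at h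
    exact one_ne_zero h
  | cons y l ih =>
    intro x z h a ha
    simp only [lin] at h
    have h1 : f x = f y := by
      by_contra hne
      rw [if_neg hne] at h
      omega
    have h2 : lin (fun a r => if f a = f r then 0 else 1) y l z = 0 := by omega
    have h3 := ih y z h2
    rcases List.mem_cons.1 ha with h4 | h4
    · rw [h4, h1]
      exact h3 y List.mem_cons_self
    · exact h3 a h4

theorem RtE2_cyc {β : Type*} (f : β → Bool) (s : List β)
    (h : cyc (fun a r => if f a = f r then 0 else 1) s = 0) : ∀ a ∈ s, ∀ b ∈ s, f a = f b := by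
  cases s with
  | nil => intro a ha; simp at ha
  | cons x l =>
    intro a ha b hb
    rw [RtE2_lin f l x x h a ha, RtE2_lin f l x x h b hb]

theorem RtE2_mem {V : CC} {s : List ((Fin 3 × Bool) × ℤ)} (hs : SValid 2 s)
    (hV : cls (expand 2 s) = V) {i : Fin 3} (hi : i ≠ 2) (h : 0 < cnt V i) : ∃ q ∈ s, q.1.1 = i := by
  rw [← hV, cnt_cls hs.2, cntL, List.countP_pos_iff] at h
  obtain ⟨x, hx, hxi⟩ := h
  rw [expand, List.mem_flatMap] at hx
  obtain ⟨q, hq, hx⟩ := hx
  refine ⟨q, hq, ?_⟩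
  have hxi' : x.1 = i := by simpa using hxi
  rcases List.mem_cons.1 hx with h1 | h1
  · rw [← h1, hxi']
  · exfalso
    rw [zpw] at h1
    have h2 := List.eq_of_mem_replicate h1
    rw [h2] at hxi'
    exact hi hxi'.symm

theorem ec_npr {n K : ℕ} {V : CC} (H : Hv n K V) {U : Ct} (h : Ec V U) {i : Fin 3} (hi : i ≠ 2) :
    ¬ ∀ x : Fin 3 × Bool, x.1 ≠ 2 → U x = PrC i x := by
  intro hU
  obtain ⟨s, -, hs, hV⟩ := hv_gl H
  have h1 := gl_iff.1 (ec_gl H hs hV h)
  have h2 := gf_light hs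
  have h3 : cyc (fun a r : (Fin 3 × Bool) × ℤ =>
      if (decide (a.1.1 = i)) = (decide (r.1.1 = i)) then 0 else 1) s = 0 := by
    rw [EvPatE_cyc]
    rw [List.sum_eq_zero_iff]
    intro k hk
    rw [List.mem_map] at hk
    obtain ⟨e, he, rfl⟩ := hk
    have h4 := h1 e he
    rw [hU _ (h2 e he).1, hU (bar e.2.1) (h2 e he).2] at h4
    rw [if_pos]
    exact h4
  have h4 := RtE2_cyc (fun a : (Fin 3 × Bool) × ℤ => decide (a.1.1 = i)) s h3
  have h0 : (4 : ℕ) ≤ n := H.h4
  obtain ⟨q0, hq0, h50⟩ := RtE2_mem hs hV (i := 0) (by decide) (by rw [H.c0]; omega)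
  obtain ⟨q1, hq1, h51⟩ := RtE2_mem hs hV (i := 1) (by decide) (by rw [H.c1]; omega)
  have h6 := h4 q0 hq0 q1 hq1
  simp only [h50, h51] at h6
  revert h6 hi
  fin_cases i <;> decide

theorem ec_psi {n K : ℕ} {V : CC} {z : Fin 3 × Bool} {A : Ct} (H : Hv n K (act (wh z A) V))
    (hz : z.1 ≠ 2) (hA : Lt A) (h1 : A z = true) (h2 : A (bar z) = false) {Y : Ct}
    (hY : ∀ x, A x = true → Y x = Y z) (h : Ec V Y) : Ec (act (wh z A) V) (psi z A Y) := by
  refine ec_alg H (psi_Lt hA h.1) ?_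
  have h3 := tr_pot V hz hA h1 h2 (p := ind Y) (fun x hx => by unfold ind; rw [hY x hx])
  rw [ec_fix h] at h3
  conv_rhs => rw [h3]
  congr 2
  funext x
  unfold ind psi
  cases A x && decide (x ≠ z) <;> simp

theorem RtE2_off {U A : Ct} {z x : Fin 3 × Bool} (hd : ∀ x, A x = true → U x = false) (hx : U x = true)
    (Y : Ct) : psi z A Y x = Y x := by
  have h1 : A x = false := by
    cases h : A x with
    | false => rfl
    | true => rw [hd x h] at hx; exact absurd hx (by decide)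
  unfold psi
  rw [h1]
  simp

theorem rot_psi {n K : ℕ} {V : CC} {z : Fin 3 × Bool} {A : Ct} (H : Hv n K (act (wh z A) V))
    (hz : z.1 ≠ 2) (hA : Lt A) (h1 : A z = true) (h2 : A (bar z) = false) {U I : Ct} {κ : ℤ}
    (hR : RotW n V U I κ) (hd : ∀ x, A x = true → U x = false) :
    RotW n (act (wh z A) V) (psi z A U) (psi z A I) κ ∧
      act (pot 2 (fun x => κ * ind (psi z A I) x)) (act (wh z A) V) =
        act (wh z A) (act (pot 2 (fun x => κ * ind I x)) V) := by
  have hU : ∀ x, A x = true → U x = U z := fun x hx => by rw [hd x hx, hd z h1]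
  have hI : ∀ x, A x = true → I x = false := by
    intro x hx
    cases h : I x with
    | false => rfl
    | true =>
      have := hR.sub x h
      rw [hd x hx] at this
      exact absurd this (by decide)
  have hpot : act (pot 2 (fun x => κ * ind (psi z A I) x)) (act (wh z A) V) =
        act (wh z A) (act (pot 2 (fun x => κ * ind I x)) V) := by
    rw [tr_pot V hz hA h1 h2 (p := fun x => κ * ind I x) (fun x hx => by
      simp only [ind, hI x hx, hI z h1])]
    congr 2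
    funext x
    unfold ind psi
    cases A x && decide (x ≠ z) <;> simp
  have hLt : LtN (psi z A U) := by
    refine ⟨psi_Lt hA hR.ec.1, ?_⟩
    obtain ⟨x, hx⟩ := hR.t0.1.2
    exact ⟨x, by rw [RtE2_off hd hx]; exact hx⟩
  refine ⟨⟨hR.h0, ec_psi H hz hA h1 h2 hU hR.ec, ?_, ?_, ?_, ?_, ?_⟩, hpot⟩
  · rw [hv_ti0]
    refine ⟨hLt, ?_⟩
    rw [tr_cut V h1 h2 hU]
    exact (hv_ti0.1 hR.t0).2
  · refine ⟨hLt, ?_⟩
    rw [hpot, tr_cut _ h1 h2 hU]
    exact hR.t1.2
  · intro x hx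
    unfold psi at hx ⊢
    cases h : A x && decide (x ≠ z) with
    | false =>
      rw [h] at hx
      simp only [Bool.false_eq_true, if_false] at hx ⊢
      exact hR.sub x hx
    | true =>
      rw [h] at hx
      simp only [if_true] at hx ⊢
      exact hR.sub _ hx
  · obtain ⟨x, hx⟩ := hR.ne
    exact ⟨x, by rw [RtE2_off hd (hR.sub x hx)]; exact hx⟩
  · obtain ⟨x, hx, hx'⟩ := hR.ne'
    exact ⟨x, by rw [RtE2_off hd hx]; exact hx, by rw [RtE2_off hd hx]; exact hx'⟩

theorem hv_sp {n K : ℕ} {V : CC} {σ : SPerm (Fin 3)} (hσ : Fix2 σ) (H : Hv n K V) :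
    Hv n K (act σ.aut V) := by
  have hc : ∀ i : Fin 3, i ≠ 2 → cnt (act σ.aut V) i = n := by
    intro i hi
    obtain ⟨j, rfl⟩ := σ.perm.surjective i
    rw [cnt_SPerm]
    have hj : j ≠ 2 := by
      rintro rfl
      exact hi hσ
    have h01 : j = 0 ∨ j = 1 := by
      revert hj
      fin_cases j <;> decide
    rcases h01 with rfl | rfl
    · exact H.c0
    · exact H.c1
  refine ⟨OMin_SPerm σ H.hO, H.h4, hc 0 (by decide), hc 1 (by decide), ?_, H.hK, ?_⟩
  · have h1 := cnt_SPerm σ V 2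
    rw [show σ.perm 2 = 2 from hσ, H.c2] at h1
    exact h1
  · intro W hW
    rw [orb_eq (orb_SPerm σ V)] at hW
    exact H.lo W hW

/-- the sign of the letter `c` -/
def RtE2_s (σ : SPerm (Fin 3)) : ℤ := if σ.sign 2 then 1 else -1

theorem RtE2_ss (σ : SPerm (Fin 3)) : RtE2_s σ * RtE2_s σ = 1 := by
  unfold RtE2_s
  cases σ.sign 2 <;> rfl

theorem RtE2_s0 (σ : SPerm (Fin 3)) : RtE2_s σ ≠ 0 := by
  unfold RtE2_s
  cases σ.sign 2 <;> decide

theorem RtE2_pot {σ : SPerm (Fin 3)} (hσ : Fix2 σ) (q : Fin 3 × Bool → ℤ) (V : CC) :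
    act (pot 2 q) (act σ.aut V) = act σ.aut (act (pot 2 (fun x => RtE2_s σ * q (σ.letter x))) V) := by
  rw [act_act, act_act]
  congr 1
  apply Rel_ext
  intro i
  refine ⟨true, ?_⟩
  rw [MulEquiv.trans_apply, MulEquiv.trans_apply]
  have hp : σ.perm 2 = 2 := hσ
  by_cases hi : i = 2
  · subst hi
    have h1 : (pot 2 fun x => RtE2_s σ * q (σ.letter x)) (lett ((2 : Fin 3), true)) = lett ((2 : Fin 3), true) :=
      Rel_pot_self _ _ rfl
    rw [h1, Rel_aut_apply, SPerm.hom_lett]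
    apply Rel_pot_self
    rw [letter_fst]
    exact hp
  · have h1 : (σ.letter (i, true)).1 ≠ 2 := by
      rw [letter_fst]
      intro h
      exact hi (σ.perm.injective (h.trans hp.symm))
    have h2 : σ.aut (of (2 : Fin 3)) = (of 2) ^ (RtE2_s σ) := by
      rw [← lett_true, Rel_aut_apply, SPerm.hom_lett, SPerm.letter, hp]
      unfold RtE2_s
      cases σ.sign 2 with
      | false => simp [lett_false, lett_true]
      | true => simp [lett_true]
    rw [Rel_aut_apply, SPerm.hom_lett, Rel_pot_ne _ h1, Rel_pot_ne _ (show ((i, true) : Fin 3 × Bool).1 ≠ 2 from hi),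
      map_mul, map_mul, map_zpow, map_zpow, h2, Rel_aut_apply, SPerm.hom_lett, ← zpow_mul, ← zpow_mul,
      SPerm.letter_bar]
    have h3 : ∀ k : ℤ, RtE2_s σ * (RtE2_s σ * k) = k := fun k => by rw [← mul_assoc, RtE2_ss, one_mul]
    rw [mul_neg, h3, h3]

theorem RtE2_Lt {σ : SPerm (Fin 3)} (hσ : Fix2 σ) {Y : Ct} (hY : Lt Y) : Lt (fun x => Y (σ.letter x)) := by
  have hp : σ.perm 2 = 2 := hσ
  constructor
  · show Y (σ.letter (2, true)) = false
    rw [SPerm.letter, hp]
    cases σ.sign 2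
    · exact hY.2
    · exact hY.1
  · show Y (σ.letter (2, false)) = false
    rw [SPerm.letter, hp]
    cases σ.sign 2
    · exact hY.1
    · exact hY.2

theorem RtE2_fix_inv {σ : SPerm (Fin 3)} (hσ : Fix2 σ) : Fix2 σ.inv := by
  show σ.perm.symm 2 = 2
  rw [Equiv.symm_apply_eq]
  exact (show σ.perm 2 = 2 from hσ).symm

theorem RtE2_Lt' {σ : SPerm (Fin 3)} (hσ : Fix2 σ) {Y : Ct} (hY : Lt Y) :
    Lt (fun x => Y (σ.inv.letter x)) := RtE2_Lt (RtE2_fix_inv hσ) hY

theorem RtE2_ti {n : ℕ} {V : CC} {σ : SPerm (Fin 3)} (hσ : Fix2 σ) {q : Fin 3 × Bool → ℤ} {Y : Ct}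
    (h : Ti n (act σ.aut V) q Y) :
    Ti n V (fun x => RtE2_s σ * q (σ.letter x)) (fun x => Y (σ.letter x)) := by
  obtain ⟨⟨h1, x, hx⟩, h2⟩ := h
  rw [RtE2_pot hσ, capC_SPerm] at h2
  exact ⟨⟨RtE2_Lt hσ h1, σ.inv.letter x, by simp only [SPerm.letter_inv]; exact hx⟩, h2⟩

theorem RtE2_ti' {n : ℕ} {V : CC} {σ : SPerm (Fin 3)} (hσ : Fix2 σ) {q : Fin 3 × Bool → ℤ} {Y : Ct}
    (h : Ti n V (fun x => RtE2_s σ * q (σ.letter x)) Y) :
    Ti n (act σ.aut V) q (fun x => Y (σ.inv.letter x)) := by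
  obtain ⟨⟨h1, x, hx⟩, h2⟩ := h
  refine ⟨⟨RtE2_Lt' hσ h1, σ.letter x, by simp only [SPerm.inv_letter]; exact hx⟩, ?_⟩
  rw [RtE2_pot hσ, capC_SPerm]
  simp only [SPerm.inv_letter]
  exact h2

theorem gd_sp {n : ℕ} {V : CC} {σ : SPerm (Fin 3)} (hσ : Fix2 σ) (H : GdC n V) :
    GdC n (act σ.aut V) := by
  intro q Y hT
  rcases H _ _ (RtE2_ti hσ hT) with h | ⟨X, hX, u, v, h1, h2, h3, h4, h5⟩
  · left
    intro x y hx hy
    have h1 := h (σ.inv.letter x) (σ.inv.letter y) (by simp only [SPerm.letter_inv]; exact hx)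
      (by simp only [SPerm.letter_inv]; exact hy)
    simp only [SPerm.letter_inv] at h1
    exact mul_left_cancel₀ (RtE2_s0 σ) h1
  · right
    refine ⟨fun x => X (σ.inv.letter x), ?_, σ.letter u, σ.letter v, ?_, h2, ?_, h4, ?_⟩
    · refine RtE2_ti' hσ ?_
      have h6 : (fun x => RtE2_s σ * (0 : Fin 3 × Bool → ℤ) (σ.letter x)) = 0 := by
        funext x
        simp
      rw [h6]
      exact hX
    · simp only [SPerm.inv_letter]; exact h1
    · simp only [SPerm.inv_letter]; exact h3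
    · intro h6
      exact h5 (by rw [h6])

theorem ec_sp {V : CC} {σ : SPerm (Fin 3)} (hσ : Fix2 σ) {U : Ct} (h : Ec V U) :
    Ec (act σ.aut V) (fun x => U (σ.inv.letter x)) := by
  refine ⟨RtE2_Lt' hσ h.1, ?_, ?_⟩
  · intro p
    rw [RtE2_pot hσ, RtE2_pot hσ]
    congr 1
    have h1 : (fun x => RtE2_s σ * (p + ind fun x => U (σ.inv.letter x)) (σ.letter x)) =
        (fun x => RtE2_s σ * p (σ.letter x)) + fun x => RtE2_s σ * ind U x := by
      funext x
      simp only [Pi.add_apply, ind, SPerm.inv_letter]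
      ring
    rw [h1]
    unfold RtE2_s
    cases σ.sign 2 with
    | true =>
      simp only [if_true, one_mul]
      exact h.2.1 _
    | false =>
      simp only [Bool.false_eq_true, if_false]
      have h2 := h.2.1 ((fun x => -1 * p (σ.letter x)) + fun x => -1 * ind U x)
      rw [← h2]
      congr 2
      funext x
      simp only [Pi.add_apply]
      ring
  · intro q Z hZ
    rw [RtE2_pot hσ, capC_SPerm, capC_SPerm, capC_SPerm]
    simp only [SPerm.inv_letter]
    exact h.2.2 _ _ (RtE2_Lt hσ hZ)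

theorem rot_sp {n : ℕ} {V : CC} {σ : SPerm (Fin 3)} (hσ : Fix2 σ) {U I : Ct} {κ : ℤ}
    (h : RotW n V U I κ) : ∃ κ' : ℤ,
      RotW n (act σ.aut V) (fun x => U (σ.inv.letter x)) (fun x => I (σ.inv.letter x)) κ' ∧
      act (pot 2 (fun x => κ' * ind (fun x => I (σ.inv.letter x)) x)) (act σ.aut V) =
        act σ.aut (act (pot 2 (fun x => κ * ind I x)) V) := by
  have h1 : (fun x => RtE2_s σ * (RtE2_s σ * κ * ind (fun x => I (σ.inv.letter x)) (σ.letter x))) =
      fun x => κ * ind I x := by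
    funext x
    simp only [ind, SPerm.inv_letter]
    rw [← mul_assoc, ← mul_assoc, RtE2_ss, one_mul]
  refine ⟨RtE2_s σ * κ, ⟨mul_ne_zero (RtE2_s0 σ) h.h0, ec_sp hσ h.ec, ?_, ?_, ?_, ?_, ?_⟩, ?_⟩
  · refine RtE2_ti' hσ ?_
    have h6 : (fun x => RtE2_s σ * (0 : Fin 3 × Bool → ℤ) (σ.letter x)) = 0 := by
      funext x
      simp
    rw [h6]
    exact h.t0
  · refine RtE2_ti' hσ ?_
    rw [h1]
    exact h.t1
  · intro x hx
    exact h.sub _ hx
  · obtain ⟨x, hx⟩ := h.ne
    exact ⟨σ.letter x, by simp only [SPerm.inv_letter]; exact hx⟩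
  · obtain ⟨x, hx, hx'⟩ := h.ne'
    exact ⟨σ.letter x, by simp only [SPerm.inv_letter]; exact hx, by simp only [SPerm.inv_letter]; exact hx'⟩
  · rw [RtE2_pot hσ, h1]

theorem str_sp {n : ℕ} {V W : CC} {σ : SPerm (Fin 3)} (hσ : Fix2 σ)
    (h : StR n (act σ.aut V) W) : ∃ W', StR n V W' ∧ W = act σ.aut W' := by
  have hp : σ.perm 2 = 2 := hσ
  rcases h with ⟨z, A, hz, hA, hL, hW⟩ | ⟨U, I, κ, hR, hW⟩
  · obtain ⟨z', rfl⟩ : ∃ z', z = σ.letter z' := ⟨σ.inv.letter z, by rw [SPerm.letter_inv]⟩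
    refine ⟨act (wh z' (fun x => A (σ.letter x))) V, Or.inl ⟨z', fun x => A (σ.letter x), ?_, RtE2_Lt hσ hA,
      ⟨hL.1, ?_, ?_⟩, rfl⟩, ?_⟩
    · intro h
      apply hz
      rw [letter_fst, h, hp]
    · show A (σ.letter (bar z')) = false
      rw [SPerm.letter_bar]
      exact hL.2.1
    · rw [← capC_SPerm, hL.2.2, letter_fst, cnt_SPerm]
    · rw [hW, act_wh_SPerm]
  · obtain ⟨κ', h1, h2⟩ := rot_sp (RtE2_fix_inv hσ) hR
    rw [act_SPerm_inv] at h1 h2
    refine ⟨act σ.inv.aut W, Or.inr ⟨_, _, κ', h1, ?_⟩, by rw [act_SPerm_inv']⟩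
    rw [h2, hW]

theorem bdd_orb {V W : CC} (h : W ∈ orb V) {N : ℕ} (hB : Bdd W N) : Bdd V N := by
  obtain ⟨E, h1, h2⟩ := hB
  refine ⟨E, h1, ?_⟩
  rw [orb_eq h] at h2
  exact h2

end Pool.Agent.Sims
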