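import Pool.Agent.Sims.RtE1
import Pool.Agent.Sims.RtE2
import Pool.Agent.Sims.RtD0

/-!
# Module `RtE3` : extraction of `Ω` with `act (wh z U) V = th k Ω`, `z = (1,true) ∈ U`, `z⁻¹ ∉ U`, `U` closed

* `cnt_leT`: the counts of the cyclically reduced word of a class are at most those of any word of the class (free reduction and cyclic reduction delete letters).
* `th_wd`: `V = cls (expand 2 s)`, i.e. the product over the syllables `a ∈ s` of `a.1 c^{a.2}`.  For a light letter `x` put `u x = z` if `U x`, else `1`, and `e x = lett x` if `x.1 = 0`, `e x = 1` if `x.1 = 1`.  `wh z U x = (u (bar x))⁻¹ e(x) u(x)`: for `x.1 = 0` by definition, for `x = z`: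
  `U z`, `¬ U z⁻¹`: `1 · 1 · z`; for `x = z⁻¹`: `z⁻¹ · 1 · 1`.  `c` is fixed (`Lt U`).  So the image of the product is cyclically the product of `e(a.1) · [u(a.1) c^{a.2} u(bar r.1)⁻¹]`, `r` the cyclic successor of `a`; `U a.1 = U (bar r.1)` (`gl s U = 0`), so the bracket is
  `z c^{a.2} z⁻¹` if `U a.1`, else `c^{a.2}`.  (Product over a list, cyclic shift of the first factor `u(bar a_1.1)⁻¹` to the end: conjugation.)  And `thh k` maps `mk (wdT k U s)` to the same product: `thh k (t^{a.2/k}) = z c^{k (a.2/k)} z⁻¹ = z c^{a.2} z⁻¹`.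
* `th_zero`: if `0 < cnt (th k Ω) 0` then `0 < cnt Ω 0` (`Ω = cls w`, `w` without 0-letters: `th k Ω` is the class of a word without 0-letters, `cnt_leT`).
* `th_one`: `th k Ω = th 1 (pw (update 1 1 k) Ω)` (compare `thh 1 ∘ pwh = thh k` on generators).
* `th_gxs`: `S` closed, `G` with `Hv n K G`, `act (wh z S) G = th k Ω`, `s` a syllable list of `G`.  `gl s S = 0` (`ec_gl`).  `th_wd` with `k = 1`: `th k Ω = th 1 Ω1`, `Ω1 = cls (wdT 1 S s)`.  `cnt Ω1 1 ≤ Σ_{a : S a.1} |a.2| = gx s 0 S` (closed: `S a.1 = S (bar r.1)`),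
  `cnt Ω1 2 ≤ Σ_{a : ¬ S a.1} |a.2| = gx s 0 (LL ∖ S)` (`cnt_leT`), and `gx s 0 S + gx s 0 (LL ∖ S) = gf s 0 = K = cnt (act (wh z S) G) 2` (`wh z S` does not change the count of `c`) `= cnt (th 1 Ω1) 2 = cnt Ω1 1 + cnt Ω1 2` (`th_cnt2`).  So both are equalities.
  `th_gx` for `th 1 Ω1 = th k Ω` with `k = 1` and with `k`: `cnt Ω1 1 = k cnt Ω 1`.
* `th_chart`: `0 < κ`, `k = κ.toNat`.  `rot_str`: for `U a.1` the gain `a.2` is `0` or `± κ`; `th_wd`: `act (wh z U) V = th k Ω`, `Ω = cls (wdT k U s)`.  `cnt Ω 1 ≤ #{a : U a.1, a.2 ≠ 0}`, and `n = capC V U = gc s 0 U = 2 #{a : U a.1, a.2 ≠ 0}` (`hR.t0`, `g_cap`; `gl s U = 0`).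
  `cnt (th k Ω) 1 = capC V U = n` (`cnt_wh_self`), `= capC Ω (PrC 1) ≤ 2 cnt Ω 1` (`th_cnt1`; `capC_pr`): `2 cnt Ω 1 = n`.  `act (wh z U) V` satisfies `Hv` (`hv_lv`: `capC V U = n = cnt V 1`).
  Second part (level cut): WLOG `z ∉ I` is not assumed; let `J = I` if `z ∉ I`, else `J = U ∖ I`, `s = ±1` accordingly (`rw_neg`): `cnt (act (pot 2 (s κ 1_J)) V) 2 = K` (`rot_cnt`).  `J ⊆ U ∖ z`, `B = stc U z = (U ∖ z) ∪ z⁻¹`, `V = act (wh z⁻¹ B) (th k Ω)` (`Lv_inv`).
  `th_t` (`sgn (1,b) = s`): `act (pot 2 (s κ 1_J)) V = act (wh z⁻¹ B) (th k Ω2)`, `Ω2 = act (wh (1,b) ({(1,b)} ∪ J)) Ω`.  Counts of `c`: `K = cnt (th k Ω2) 2 = k cnt Ω2 1 + cnt Ω2 2` (`th_cnt2`), `cnt Ω2 2 = cnt Ω 2`, `K = k cnt Ω 1 + cnt Ω 2`; so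
  `capC Ω ({(1,b)} ∪ J) = cnt Ω2 1 = cnt Ω 1` (`cnt_wh_self`; `k ≥ 1`).
Difficulty 4.
-/

namespace Pool.Agent.Sims

/-- the word of `Ω` -/
def wdT (k : ℕ) (U : Ct) (s : List ((Fin 3 × Bool) × ℤ)) : List (Fin 3 × Bool) :=
  s.flatMap (fun a => (if a.1.1 = 1 then [] else [a.1]) ++
    (if U a.1 = true then zpw (1 : Fin 3) (a.2 / k) else zpw (2 : Fin 3) a.2))

theorem cnt_leT (w : List (Fin 3 × Bool)) (i : Fin 3) : cnt (cls w) i ≤ cntL w i := by
  obtain ⟨C, R, hR, h⟩ := Cyc_split (FreeGroup.mk w)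
  have h1 : cls R = cls w := Cyc_cls_split h
  rw [← h1, cnt_cls hR]
  have h2 : cntL R i ≤ cntL (FreeGroup.mk w).toWord i := by
    rw [h]
    unfold cntL
    rw [List.countP_append, List.countP_append]
    omega
  have h3 : cntL (FreeGroup.mk w).toWord i ≤ cntL w i := by
    rw [FreeGroup.toWord_mk]
    unfold cntL
    exact List.Sublist.countP_le (FreeGroup.Red.sublist FreeGroup.reduce.red)
  exact h2.trans h3

/-- one syllable block of `wdT` -/
def RtE3_b (k : ℕ) (U : Ct) (a : (Fin 3 × Bool) × ℤ) : List (Fin 3 × Bool) :=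
  (if a.1.1 = 1 then [] else [a.1]) ++
    (if U a.1 = true then zpw (1 : Fin 3) (a.2 / k) else zpw (2 : Fin 3) a.2)

theorem RtE3_wd_cons (k : ℕ) (U : Ct) (a : (Fin 3 × Bool) × ℤ) (t : List ((Fin 3 × Bool) × ℤ)) :
    wdT k U (a :: t) = RtE3_b k U a ++ wdT k U t := by
  simp [wdT, RtE3_b]

/-- the side factor -/
def RtE3_u (U : Ct) (x : Fin 3 × Bool) : FreeGroup (Fin 3) :=
  if U x = true then FreeGroup.of 1 else 1

theorem RtE3_let {U : Ct} (hz : U (1, true) = true)
    (hz' : U (1, false) = false) (x : Fin 3 × Bool) :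
    wh (1, true) U (lett x) = (RtE3_u U (bar x))⁻¹ * (if x.1 = 1 then 1 else lett x) *
      RtE3_u U x := by
  by_cases hx : x.1 = 1
  · rw [Rel_wh_self' _ _ hx]
    rcases x with ⟨i, b⟩
    simp only at hx
    subst hx
    cases b with
    | true => simp [RtE3_u, bar, hz, hz', lett_true]
    | false => simp [RtE3_u, bar, hz, hz', lett_false]
  · rw [wh_lett_ne _ _ hx]
    simp only [hx, if_false, RtE3_u, lett_true]
    by_cases h : U (bar x) = true
    · simp [h]
    · simp [h]

theorem RtE3_c {U : Ct} (hU : Lt U) (m : ℤ) :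
    wh (1, true) U ((FreeGroup.of (2 : Fin 3)) ^ m) = (FreeGroup.of 2) ^ m := by
  rw [map_zpow]
  congr 1
  rw [← lett_true, wh_lett_ne _ _ (by decide)]
  have h1 : bar ((2 : Fin 3), true) = (2, false) := rfl
  rw [h1, hU.1, hU.2]
  simp

theorem RtE3_blk {U : Ct} (hU : Lt U) (hz : U (1, true) = true)
    (hz' : U (1, false) = false) {k : ℕ} (hk : 1 ≤ k) (a : (Fin 3 × Bool) × ℤ) (ha : a.1.1 ≠ 2)
    (y : Fin 3 × Bool) (h : U a.1 = U y) (hd : U a.1 = true → (k : ℤ) ∣ a.2) :
    wh (1, true) U (lett a.1 * (FreeGroup.of 2) ^ a.2) * (RtE3_u U y)⁻¹ =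
      (RtE3_u U (bar a.1))⁻¹ * thh k (FreeGroup.mk (RtE3_b k U a)) := by
  rw [map_mul, RtE3_let hz hz', RtE3_c hU]
  have e1 : thh k (FreeGroup.mk (if a.1.1 = 1 then [] else [a.1])) =
      (if a.1.1 = 1 then 1 else lett a.1) := by
    by_cases h1 : a.1.1 = 1
    · simp only [h1, if_true]
      exact map_one _
    · simp only [h1, if_false]
      exact RtE1_thh_lett k h1
  have e2 : RtE3_u U a.1 * (FreeGroup.of 2) ^ a.2 * (RtE3_u U y)⁻¹ =
      thh k (FreeGroup.mk (if U a.1 = true then zpw (1 : Fin 3) (a.2 / k) else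
        zpw (2 : Fin 3) a.2)) := by
    by_cases h1 : U a.1 = true
    · have h2 : U y = true := by rw [← h, h1]
      have h3 : (k : ℤ) * (a.2 / k) = a.2 := Int.mul_ediv_cancel' (hd h1)
      simp only [h1, if_true, RtE3_u, h2]
      rw [mk_zpw, RtE1_thh_self, h3]
    · have h1' : U a.1 = false := by simpa using h1
      have h2 : U y = false := by rw [← h, h1']
      simp only [h1', RtE3_u, h2, Bool.false_eq_true, if_false]
      rw [mk_zpw, map_zpow]
      have h4 : thh k (FreeGroup.of (2 : Fin 3)) = FreeGroup.of 2 := by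
        have := RtE1_thh_lett k (x := ((2 : Fin 3), true)) (by decide)
        simpa [lett_true] using this
      rw [h4]
      simp
  unfold RtE3_b
  rw [← FreeGroup.mul_mk, map_mul, e1, ← e2]
  group

theorem RtE3_lin {U : Ct} (hU : Lt U) (hz : U (1, true) = true)
    (hz' : U (1, false) = false) {k : ℕ} (hk : 1 ≤ k) (t : List ((Fin 3 × Bool) × ℤ)) :
    ∀ (a w : (Fin 3 × Bool) × ℤ), (∀ q ∈ a :: t, q.1.1 ≠ 2) →
      (∀ q ∈ a :: t, U q.1 = true → (k : ℤ) ∣ q.2) →
      lin (fun a r => if U a.1 = U (bar r.1) then 0 else 1) a t w = 0 →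
      wh (1, true) U (FreeGroup.mk (expand 2 (a :: t))) * (RtE3_u U (bar w.1))⁻¹ =
        (RtE3_u U (bar a.1))⁻¹ * thh k (FreeGroup.mk (wdT k U (a :: t))) := by
  induction t with
  | nil =>
    intro a w h2 hd hl
    have hl' : U a.1 = U (bar w.1) := by
      by_contra hh
      simp [lin, hh] at hl
    have e1 : (FreeGroup.mk (expand 2 [a]) : FreeGroup (Fin 3)) =
        lett a.1 * (FreeGroup.of 2) ^ a.2 := by
      rw [SylA_mk_expand_cons]
      simp [expand, FreeGroup.one_eq_mk.symm]
    have e2 : wdT k U [a] = RtE3_b k U a := by simp [wdT, RtE3_b]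
    rw [e1, e2]
    exact RtE3_blk hU hz hz' hk a (h2 a (by simp)) _ hl' (hd a (by simp))
  | cons b t ih =>
    intro a w h2 hd hl
    rw [lin] at hl
    have hl1 : U a.1 = U (bar b.1) := by
      by_contra hh
      simp [hh] at hl
    have hl2 : lin (fun a r : (Fin 3 × Bool) × ℤ => if U a.1 = U (bar r.1) then 0 else 1) b t w
        = 0 := by omega
    have ih' := ih b w (fun q hq => h2 q (List.mem_cons_of_mem _ hq))
      (fun q hq => hd q (List.mem_cons_of_mem _ hq)) hl2
    have hb := RtE3_blk hU hz hz' hk a (h2 a (by simp)) _ hl1 (hd a (by simp))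
    rw [SylA_mk_expand_cons, map_mul (wh (1, true) U) (lett a.1 * (FreeGroup.of 2) ^ a.2) _,
      RtE3_wd_cons, ← FreeGroup.mul_mk, map_mul (thh k), mul_assoc, ih', ← mul_assoc, hb,
      mul_assoc]

theorem th_wd {V : CC} {s : List ((Fin 3 × Bool) × ℤ)} (hs : SValid 2 s)
    (hV : cls (expand 2 s) = V) {U : Ct} (hU : Lt U) (hg : gl s U = 0) (hz : U (1, true) = true)
    (hz' : U (1, false) = false) {k : ℕ} (hk : 1 ≤ k)
    (hd : ∀ a ∈ s, U a.1 = true → (k : ℤ) ∣ a.2) :
    act (wh (1, true) U) V = th k (cls (wdT k U s)) := by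
  rw [← hV]
  cases s with
  | nil =>
    have e1 : wdT k U [] = [] := rfl
    have e2 : expand (2 : Fin 3) [] = [] := rfl
    rw [e1, e2]
    show ConjClasses.mk (wh (1, true) U (FreeGroup.mk [])) =
      ConjClasses.mk (thh k (FreeGroup.mk []))
    have e3 : (FreeGroup.mk [] : FreeGroup (Fin 3)) = 1 := FreeGroup.one_eq_mk.symm
    rw [e3, map_one, map_one]
  | cons a t =>
    have h := RtE3_lin hU hz hz' hk t a a hs.1 hd hg
    show ConjClasses.mk (wh (1, true) U (FreeGroup.mk (expand 2 (a :: t)))) =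
      ConjClasses.mk (thh k (FreeGroup.mk (wdT k U (a :: t))))
    rw [ConjClasses.mk_eq_mk_iff_isConj, isConj_iff]
    refine ⟨RtE3_u U (bar a.1), ?_⟩
    rw [mul_assoc, h]
    group

/-- the word of `thh k` -/
def RtE3_w (k : ℕ) (w : List (Fin 3 × Bool)) : List (Fin 3 × Bool) :=
  w.flatMap (fun x => if x.1 = 1 then
    ((1 : Fin 3), true) :: (zpw (2 : Fin 3) (if x.2 = true then (k : ℤ) else -(k : ℤ)) ++
      [((1 : Fin 3), false)]) else [x])

theorem RtE3_wmk (k : ℕ) (w : List (Fin 3 × Bool)) :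
    thh k (FreeGroup.mk w) = FreeGroup.mk (RtE3_w k w) := by
  induction w with
  | nil =>
    have e1 : RtE3_w k [] = [] := rfl
    have e3 : (FreeGroup.mk [] : FreeGroup (Fin 3)) = 1 := FreeGroup.one_eq_mk.symm
    rw [e1, e3, map_one]
  | cons x w ih =>
    have e1 : (FreeGroup.mk (x :: w) : FreeGroup (Fin 3)) = lett x * FreeGroup.mk w := by
      simp [lett]
    have e2 : RtE3_w k (x :: w) = (if x.1 = 1 then
      ((1 : Fin 3), true) :: (zpw (2 : Fin 3) (if x.2 = true then (k : ℤ) else -(k : ℤ)) ++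
        [((1 : Fin 3), false)]) else [x]) ++ RtE3_w k w := by
      simp [RtE3_w]
    rw [e1, map_mul, ih, e2, ← FreeGroup.mul_mk]
    congr 1
    by_cases hx : x.1 = 1
    · simp only [hx, if_true]
      have e3 : (FreeGroup.mk (((1 : Fin 3), true) :: (zpw (2 : Fin 3)
          (if x.2 = true then (k : ℤ) else -(k : ℤ)) ++ [((1 : Fin 3), false)])) :
          FreeGroup (Fin 3)) = lett (1, true) * (FreeGroup.of 2) ^
            (if x.2 = true then (k : ℤ) else -(k : ℤ)) * lett (1, false) := by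
        rw [← mk_zpw]
        simp [lett]
      rw [e3, lett_true, lett_false]
      rcases x with ⟨i, b⟩
      simp only at hx
      subst hx
      cases b with
      | true =>
        have := RtE1_thh_self k 1
        simpa [lett_true] using this
      | false =>
        have := RtE1_thh_self k (-1)
        simpa [lett_false] using this
    · simp only [hx, if_false]
      exact RtE1_thh_lett k hx

theorem RtE3_w0 (k : ℕ) (w : List (Fin 3 × Bool)) : cntL (RtE3_w k w) 0 = cntL w 0 := by
  induction w with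
  | nil => rfl
  | cons x w ih =>
    have e2 : RtE3_w k (x :: w) = (if x.1 = 1 then
      ((1 : Fin 3), true) :: (zpw (2 : Fin 3) (if x.2 = true then (k : ℤ) else -(k : ℤ)) ++
        [((1 : Fin 3), false)]) else [x]) ++ RtE3_w k w := by
      simp [RtE3_w]
    rw [e2]
    have e3 : cntL (x :: w) 0 = cntL [x] 0 + cntL w 0 := by
      unfold cntL
      rw [← List.countP_append]
      rfl
    have e4 : ∀ u v : List (Fin 3 × Bool), cntL (u ++ v) 0 = cntL u 0 + cntL v 0 := by
      intro u v
      unfold cntL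
      exact List.countP_append
    rw [e3, e4, ih]
    congr 1
    by_cases hx : x.1 = 1
    · simp only [hx, if_true]
      have e5 : cntL [x] 0 = 0 := by
        simp [cntL, hx]
      rw [e5]
      simp [cntL, zpw, List.countP_replicate]
    · simp only [hx, if_false]

theorem RtE3_zle (k : ℕ) (Ω : CC) : cnt (th k Ω) 0 ≤ cnt Ω 0 := by
  obtain ⟨w, hw, rfl⟩ := exists_CR Ω
  have h1 : th k (cls w) = cls (RtE3_w k w) := by
    show ConjClasses.mk (thh k (FreeGroup.mk w)) = ConjClasses.mk (FreeGroup.mk (RtE3_w k w))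
    rw [RtE3_wmk]
  rw [h1, cnt_cls hw, ← RtE3_w0 k w]
  exact cnt_leT _ _

theorem th_zero {k : ℕ} {Ω : CC} (h : 0 < cnt (th k Ω) 0) : 0 < cnt Ω 0 :=
  lt_of_lt_of_le h (RtE3_zle k Ω)

/-- termwise comparison if no edge leaves `S` -/
theorem RtE3_cg {s : List ((Fin 3 × Bool) × ℤ)} {S : Ct} (h : gl s S = 0)
    {f g : (Fin 3 × Bool) × ℤ → (Fin 3 × Bool) × ℤ → ℕ}
    (hfg : ∀ a r : (Fin 3 × Bool) × ℤ, S a.1 = S (bar r.1) → f a r = g a r) :
    cyc f s = cyc g s := by
  cases s with
  | nil => rfl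
  | cons a t =>
    unfold gl cyc at h
    rw [SylB_lin_zero] at h
    exact Lin_congr_chain (fun x y hxy => hfg x y (by
      by_contra hh
      simp [hh] at hxy)) _ _ _ h

theorem RtE3_lm {β : Type*} {f : β → β → ℕ} (l : List β) : ∀ (x z : β), lin f x l z = 0 →
    ∀ a ∈ x :: l, ∃ r, f a r = 0 := by
  induction l with
  | nil =>
    intro x z h a ha
    simp only [List.mem_cons, List.not_mem_nil, or_false] at ha
    subst ha
    exact ⟨z, h⟩
  | cons y l ih =>
    intro x z h a ha
    rw [lin] at h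
    rcases List.mem_cons.1 ha with rfl | ha
    · exact ⟨y, by omega⟩
    · exact ih y z (by omega) a ha

theorem RtE3_mem {β : Type*} {f : β → β → ℕ} {s : List β} (h : cyc f s = 0) :
    ∀ a ∈ s, ∃ r, f a r = 0 := by
  cases s with
  | nil => intro a ha; simp at ha
  | cons x l => exact RtE3_lm l x x h

theorem RtE3_wd1 (k : ℕ) (U : Ct) (s : List ((Fin 3 × Bool) × ℤ)) :
    cntL (wdT k U s) 1 =
      (s.map (fun a : (Fin 3 × Bool) × ℤ => if U a.1 = true then (a.2 / (k : ℤ)).natAbs else 0)).sum := by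
  induction s with
  | nil => rfl
  | cons a t ih =>
    have e4 : ∀ u v : List (Fin 3 × Bool), cntL (u ++ v) 1 = cntL u 1 + cntL v 1 := by
      intro u v
      unfold cntL
      exact List.countP_append
    rw [RtE3_wd_cons, e4, ih, List.map_cons, List.sum_cons]
    congr 1
    unfold RtE3_b
    rw [e4]
    have e5 : cntL (if a.1.1 = 1 then [] else [a.1]) 1 = 0 := by
      by_cases h : a.1.1 = 1
      · simp [h, cntL]
      · simp [h, cntL]
    rw [e5, zero_add]
    by_cases h : U a.1 = true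
    · simp only [h, if_true]
      exact WhEff_cntL_zpw _ _
    · simp only [h, if_false]
      simp [cntL, zpw, List.countP_replicate]

theorem RtE3_wd2 (k : ℕ) (U : Ct) (s : List ((Fin 3 × Bool) × ℤ)) (hs : ∀ q ∈ s, q.1.1 ≠ 2) :
    cntL (wdT k U s) 2 = (s.map (fun a => if U a.1 = true then 0 else a.2.natAbs)).sum := by
  induction s with
  | nil => rfl
  | cons a t ih =>
    have e4 : ∀ u v : List (Fin 3 × Bool), cntL (u ++ v) 2 = cntL u 2 + cntL v 2 := by
      intro u v
      unfold cntL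
      exact List.countP_append
    rw [RtE3_wd_cons, e4, ih (fun q hq => hs q (List.mem_cons_of_mem _ hq)), List.map_cons,
      List.sum_cons]
    congr 1
    unfold RtE3_b
    rw [e4]
    have ha : a.1.1 ≠ 2 := hs a (by simp)
    have e5 : cntL (if a.1.1 = 1 then [] else [a.1]) 2 = 0 := by
      by_cases h : a.1.1 = 1
      · simp [h, cntL]
      · simp [h, cntL, ha]
    rw [e5, zero_add]
    by_cases h : U a.1 = true
    · simp only [h, if_true]
      simp [cntL, zpw, List.countP_replicate]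
    · simp only [h, if_false]
      exact WhEff_cntL_zpw _ _

theorem RtE3_gx1 {s : List ((Fin 3 × Bool) × ℤ)} {S : Ct} (h : gl s S = 0) :
    gx s 0 S = (s.map (fun a => if S a.1 = true then a.2.natAbs else 0)).sum := by
  rw [← cyc_fst]
  unfold gx
  apply RtE3_cg h
  intro a r hr
  rw [← hr]
  by_cases hS : S a.1 = true
  · simp [hS]
  · simp [hS]

theorem RtE3_gx2 {s : List ((Fin 3 × Bool) × ℤ)} (hs : ∀ q ∈ s, q.1.1 ≠ 2) {S : Ct}
    (h : gl s S = 0) :
    gx s 0 (fun x => !S x && decide (x.1 ≠ 2)) =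
      (s.map (fun a => if S a.1 = true then 0 else a.2.natAbs)).sum := by
  rw [← cyc_fst]
  have h1 : gx s 0 (fun x => !S x && decide (x.1 ≠ 2)) =
      cyc (fun a r : (Fin 3 × Bool) × ℤ => if (!S a.1 && !S (bar r.1)) = true then a.2.natAbs
        else 0) s := by
    unfold gx
    apply SylB_cyc_congr
    intro a ha r hr
    have ha' := hs a ha
    have hr' := hs r hr
    have hr2 : (bar r.1).1 = r.1.1 := rfl
    simp only [hr2]
    simp [ha', hr']
  rw [h1]
  apply RtE3_cg h
  intro a r hr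
  rw [← hr]
  by_cases hS : S a.1 = true
  · simp [hS]
  · simp [hS]

theorem RtE3_add (s : List ((Fin 3 × Bool) × ℤ)) (S : Ct) :
    (s.map (fun a => if S a.1 = true then a.2.natAbs else 0)).sum +
      (s.map (fun a => if S a.1 = true then 0 else a.2.natAbs)).sum =
      (s.map (fun a => a.2.natAbs)).sum := by
  induction s with
  | nil => rfl
  | cons a t ih =>
    simp only [List.map_cons, List.sum_cons]
    by_cases h : S a.1 = true
    · rw [if_pos h, if_pos h]
      omega
    · rw [if_neg h, if_neg h]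
      omega

theorem th_gxs {n K k : ℕ} {G Ω : CC} (H : Hv n K G) {S : Ct} (hS : Ec G S)
    (hT : capC G S = n) (hz : S (1, true) = true) (hz' : S (1, false) = false) (hk : 1 ≤ k)
    (he : act (wh (1, true) S) G = th k Ω) {s : List ((Fin 3 × Bool) × ℤ)} (hs : SValid 2 s)
    (hV : cls (expand 2 s) = G) :
    gx s 0 S = k * cnt Ω 1 ∧ gx s 0 (fun x => !S x && decide (x.1 ≠ 2)) + k * cnt Ω 1 = K := by
  have hgl : gl s S = 0 := ec_gl H hs hV hS
  have h1 : act (wh (1, true) S) G = th 1 (cls (wdT 1 S s)) :=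
    th_wd hs hV hS.1 hgl hz hz' (le_refl 1) (fun a _ _ => by simp)
  set Ω1 : CC := cls (wdT 1 S s) with hΩ1
  have hp : 0 < cnt (act (wh (1, true) S) G) 0 := by
    rw [cnt_wh_ne _ _ _ (by decide), H.c0]
    have := H.h4
    omega
  have hpk : 0 < cnt (th k Ω) 0 := by rw [← he]; exact hp
  have hp1 : 0 < cnt (th 1 Ω1) 0 := by rw [← h1]; exact hp
  have hpΩ : 0 < cnt Ω 0 := th_zero hpk
  have hpΩ1 : 0 < cnt Ω1 0 := th_zero hp1
  have hc1 : cnt Ω1 1 ≤ gx s 0 S := by
    rw [RtE3_gx1 hgl]
    refine (cnt_leT _ _).trans (le_of_eq ?_)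
    rw [RtE3_wd1]
    simp
  have hc2 : cnt Ω1 2 ≤ gx s 0 (fun x => !S x && decide (x.1 ≠ 2)) := by
    rw [RtE3_gx2 hs.1 hgl]
    refine (cnt_leT _ _).trans (le_of_eq ?_)
    rw [RtE3_wd2 _ _ _ hs.1]
  have hsum : gx s 0 S + gx s 0 (fun x => !S x && decide (x.1 ≠ 2)) = K := by
    rw [RtE3_gx1 hgl, RtE3_gx2 hs.1 hgl, RtE3_add, ← cntL_expand_self 2 s hs.1, ← cnt_cls hs.2,
      hV, H.c2]
  have hK : cnt Ω1 1 + cnt Ω1 2 = K := by
    have e1 := th_cnt2 (le_refl 1) hpΩ1
    rw [← h1, cnt_wh_ne _ _ _ (by decide), H.c2] at e1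
    omega
  obtain ⟨s', -, hs', hV'⟩ := exists_syl (2 : Fin 3) (th k Ω) ⟨0, by decide, hpk⟩
  have g1 := th_gx hk hpΩ hs' hV'
  have g2 := th_gx (le_refl 1) hpΩ1 hs' (by rw [hV', ← he, h1])
  constructor <;> omega

theorem th_chart {n K : ℕ} {V : CC} (H : Hv n K V) {U I : Ct} {κ : ℤ} (hR : RotW n V U I κ)
    (hκ : 0 < κ) (hz : U (1, true) = true) (hz' : U (1, false) = false) :
    ∃ Ω : CC, act (wh (1, true) U) V = th κ.toNat Ω ∧ Hv n K (th κ.toNat Ω) ∧ 2 * cnt Ω 1 = n ∧
      ∃ (b : Bool) (J : Ct), (∀ x, J x = true → x.1 = 0) ∧ (∃ x, J x = true) ∧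
        capC Ω (fun x => J x || decide (x = ((1 : Fin 3), b))) = cnt Ω 1 := by
  obtain ⟨k, rfl⟩ : ∃ k : ℕ, κ = k := ⟨κ.toNat, by omega⟩
  have hk : 1 ≤ k := by omega
  have hkk : ((k : ℤ)).toNat = k := by simp
  rw [hkk]
  obtain ⟨s, hne, hs, hV⟩ := hv_gl H
  have hgl : gl s U = 0 := ec_gl H hs hV hR.ec
  have hstr := RtE3_mem (rot_str H hR hs hV)
  have hval : ∀ a ∈ s, U a.1 = true → a.2 = 0 ∨ a.2 = k ∨ a.2 = -k := by
    intro a ha hUa
    obtain ⟨r, hr⟩ := hstr a ha
    have hr' : (U a.1 = U (bar r.1) ∧ (U a.1 = true →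
      (I a.1 = I (bar r.1) → a.2 = 0) ∧
      (I a.1 = true → I (bar r.1) = false → (a.2 = 0 ∨ a.2 = -(k : ℤ))) ∧
      (I a.1 = false → I (bar r.1) = true → (a.2 = 0 ∨ a.2 = (k : ℤ))))) := by
      by_contra hh
      simp only [if_neg hh] at hr
      exact absurd hr one_ne_zero
    obtain ⟨-, h2⟩ := hr'
    obtain ⟨h3, h4, h5⟩ := h2 hUa
    by_cases i1 : I a.1 = true
    · by_cases i2 : I (bar r.1) = true
      · exact Or.inl (h3 (by rw [i1, i2]))
      · rcases h4 i1 (by simpa using i2) with h | h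
        · exact Or.inl h
        · exact Or.inr (Or.inr h)
    · by_cases i2 : I (bar r.1) = true
      · rcases h5 (by simpa using i1) i2 with h | h
        · exact Or.inl h
        · exact Or.inr (Or.inl h)
      · have i1' : I a.1 = false := by simpa using i1
        have i2' : I (bar r.1) = false := by simpa using i2
        exact Or.inl (h3 (by rw [i1', i2']))
  have hd : ∀ a ∈ s, U a.1 = true → (k : ℤ) ∣ a.2 := by
    intro a ha hUa
    rcases hval a ha hUa with h | h | h
    · rw [h]; exact dvd_zero _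
    · rw [h]
    · rw [h]; exact (dvd_neg).2 (dvd_refl _)
  have hL : Lt U := hR.ec.1
  have he : act (wh (1, true) U) V = th k (cls (wdT k U s)) := th_wd hs hV hL hgl hz hz' hk hd
  have hTn : capC V U = n := (hv_ti0.1 hR.t0).2
  have hp : 0 < cnt (th k (cls (wdT k U s))) 0 := by
    rw [← he, cnt_wh_ne _ _ _ (by decide), H.c0]
    have := H.h4
    omega
  have hpΩ : 0 < cnt (cls (wdT k U s)) 0 := th_zero hp
  have hle : 2 * cnt (cls (wdT k U s)) 1 ≤ n := by
    have e1 : cnt (cls (wdT k U s)) 1 ≤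
        (s.map (fun a : (Fin 3 × Bool) × ℤ =>
          if U a.1 = true then (a.2 / (k : ℤ)).natAbs else 0)).sum := by
      rw [← RtE3_wd1]
      exact cnt_leT _ _
    have e2 : gc s 0 U = (s.map (fun a => if a.2 = 0 then 0 else if U a.1 = true then 2 else 0)).sum := by
      rw [← cyc_fst]
      unfold gc
      apply RtE3_cg hgl
      intro a r hr
      rw [← hr]
      by_cases h0 : a.2 = 0
      · simp [h0]
      · by_cases h1 : U a.1 = true
        · simp [h0, h1]
        · simp [h0, h1]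
    have e3 : n = gc s 0 U := by
      have := g_cap hs hV 0 hL
      rw [pot_zero] at this
      rw [← this, hTn]
    have e4 : ∀ t : List ((Fin 3 × Bool) × ℤ), (∀ a ∈ t, U a.1 = true → a.2 = 0 ∨ a.2 = k ∨ a.2 = -k) →
        2 * (t.map (fun a : (Fin 3 × Bool) × ℤ =>
          if U a.1 = true then (a.2 / (k : ℤ)).natAbs else 0)).sum =
        (t.map (fun a => if a.2 = 0 then 0 else if U a.1 = true then 2 else 0)).sum := by
      intro t
      induction t with
      | nil => intro _; rfl
      | cons a t ih =>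
        intro ht
        have ih' := ih (fun q hq => ht q (List.mem_cons_of_mem _ hq))
        simp only [List.map_cons, List.sum_cons]
        rw [mul_add, ih']
        congr 1
        by_cases h1 : U a.1 = true
        · simp only [h1, if_true]
          have hk0 : (k : ℤ) ≠ 0 := by omega
          rcases ht a (by simp) h1 with h | h | h
          · simp [h]
          · rw [h, if_neg hk0, Int.ediv_self hk0]
            simp
          · rw [h, if_neg (by omega), Int.neg_ediv_of_dvd (dvd_refl _), Int.ediv_self hk0]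
            simp
        · simp [h1]
    rw [e3, e2, ← e4 s hval]
    omega
  have hge : n ≤ 2 * cnt (cls (wdT k U s)) 1 := by
    have e1 : cnt (th k (cls (wdT k U s))) 1 = n := by
      rw [← he]
      have := cnt_wh_self V (1, true) U hz hz'
      rw [hTn] at this
      exact this
    rw [th_cnt1 hk hpΩ] at e1
    have e2 := capC_pr (cls (wdT k U s)) (z := ((1 : Fin 3), true)) (y := ((1 : Fin 3), false))
      (by decide)
    have e3 : capC (cls (wdT k U s)) (PrC 1) =
        capC (cls (wdT k U s)) (pr ((1 : Fin 3), true) ((1 : Fin 3), false)) := by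
      apply capC_congr
      intro x
      revert x
      decide
    rw [e1] at e3
    simp only at e2
    omega
  have hΩn : 2 * cnt (cls (wdT k U s)) 1 = n := le_antisymm hle hge
  refine ⟨cls (wdT k U s), he, ?_, hΩn, ?_⟩
  · rw [← he]
    refine hv_lv H ⟨hz, hz', ?_⟩
    rw [hTn]
    exact H.c1.symm
  · -- level cut
    obtain ⟨b, J, hRJ, hzJ⟩ : ∃ (b : Bool) (J : Ct), RotW n V U J (sgn ((1 : Fin 3), b) * k) ∧
        J (1, true) = false := by
      by_cases hI : I (1, true) = true
      · refine ⟨false, fun x => U x && !I x, ?_, by simp [hI]⟩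
        have := (rw_neg H hR).1
        simpa [sgn] using this
      · refine ⟨true, I, ?_, by simpa using hI⟩
        simpa [sgn] using hR
    have hJ0 : ∀ x, J x = true → x.1 = 0 := by
      intro x hx
      have hUx := hRJ.sub x hx
      rcases x with ⟨i, c⟩
      fin_cases i
      · rfl
      · exfalso
        cases c with
        | true =>
          have : J (1, true) = true := hx
          rw [hzJ] at this
          exact absurd this (by decide)
        | false =>
          have : U (1, false) = true := hUx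
          rw [hz'] at this
          exact absurd this (by decide)
      · exfalso
        cases c with
        | true =>
          have : U (2, true) = true := hUx
          rw [hL.1] at this
          exact absurd this (by decide)
        | false =>
          have : U (2, false) = true := hUx
          rw [hL.2] at this
          exact absurd this (by decide)
    refine ⟨b, J, hJ0, hRJ.ne, ?_⟩
    have hinv := act_wh_inv (1, true) U V
    rw [he] at hinv
    have hB : Lt (fun x : Fin 3 × Bool => (U x && decide (x ≠ ((1 : Fin 3), true))) ||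
        decide (x = bar ((1 : Fin 3), true))) := by
      constructor
      · simp [hL.1, bar]
      · simp [hL.2, bar]
    have hcnt := rot_cnt H hRJ
    have ht := th_t k b (B := fun x : Fin 3 × Bool => (U x && decide (x ≠ ((1 : Fin 3), true))) ||
        decide (x = bar ((1 : Fin 3), true))) (I := J) hB (fun x hx => ⟨hJ0 x hx, by
          have hx0 := hJ0 x hx
          have : x ≠ ((1 : Fin 3), true) := by
            intro h
            rw [h] at hx0
            exact absurd hx0 (by decide)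
          simp [hRJ.sub x hx, this]⟩) (cls (wdT k U s))
    have hinv' : act (wh ((1 : Fin 3), false) (fun x : Fin 3 × Bool => (U x && decide (x ≠ ((1 : Fin 3), true))) ||
        decide (x = bar ((1 : Fin 3), true)))) (th k (cls (wdT k U s))) = V := hinv
    rw [hinv'] at ht
    rw [ht, cnt_wh_ne _ _ _ (by decide)] at hcnt
    have hp2 : 0 < cnt (act (wh ((1 : Fin 3), b) (fun x => J x || decide (x = ((1 : Fin 3), b))))
        (cls (wdT k U s))) 0 := by
      rw [cnt_wh_ne _ _ _ (by simp)]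
      exact hpΩ
    rw [th_cnt2 hk hp2, cnt_wh_ne (cls (wdT k U s)) ((1 : Fin 3), b) _ (i := 2)
      (show (2 : Fin 3) ≠ 1 by decide)]
      at hcnt
    have hcV : cnt (th k (cls (wdT k U s))) 2 = K := by
      rw [← he, cnt_wh_ne _ _ _ (by decide), H.c2]
    rw [th_cnt2 hk hpΩ] at hcV
    have heq : k * cnt (act (wh ((1 : Fin 3), b) (fun x => J x || decide (x = ((1 : Fin 3), b))))
        (cls (wdT k U s))) 1 = k * cnt (cls (wdT k U s)) 1 := by omega
    have heq' := Nat.eq_of_mul_eq_mul_left (by omega : 0 < k) heq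
    have hJb : J (bar ((1 : Fin 3), b)) = false := by
      by_contra hh
      have := hJ0 _ (by simpa using hh)
      simp [bar] at this
    have hself := cnt_wh_self (cls (wdT k U s)) ((1 : Fin 3), b)
      (fun x => J x || decide (x = ((1 : Fin 3), b))) (by simp) (by
        simp only [hJb, Bool.false_or, decide_eq_false_iff_not]
        intro h
        have := congrArg Prod.snd h
        simp [bar] at this)
    simp only at hself
    rw [← hself, heq']

end Pool.Agent.Sims
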