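import Pool.Agent.Sims.RtE3
import Pool.Agent.Sims.RtB4

/-!
# Module `RtE4` : type-1 charts `th k Ω`

World `P2` (letter `c` fixed), square letter `t = (1,·)` (`Qt`).
* `hv_of`: a class in the automorphic orbit with the same counts `n, n, K` satisfies `Hv`: the cyclic length is the same (`cycLen_eq_sum`), so it is in `orb V`; `OMin_orb`, `orb_eq`.
* `th_bq`: `1 ≤ k`, `Hv n K (th k Ω)`, `2 cnt Ω 1 = n`.  `0 < cnt Ω 0` (`th_zero`).  `cnt Ω 0 = n` (`th_cnt0`), `capC Ω (PrC 1) = cnt (th k Ω) 1 = n` (`th_cnt1`).  `BQ n P2 Qt Ω`: counts: `pw_cnt`.  `low`: let `A` be proper and `P2`-fixed.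
  (a) `A (1,true) = A (1,false)`: `capC (sq Qt Ω) A = capC Ω A` (`pw_cap`) `= capC (th k Ω) A'` (`th_cap`; `A' = A` on generators 0, 2 and on `z⁻¹`, `A' z = A (2,true)`), `A'` is proper (all values of `A` are taken by `A'`), `≥ n` (`H.lo`, `orb_refl`).
  (b) otherwise, after taking the complement, `c^{±1} ∉ A`: `A = {(1,b)} ∪ I`, `I ⊆ {a, a⁻¹}`.  `Ω2 = act (wh (1,b) A) Ω`, `cnt Ω2 1 = capC Ω A =: m` (`cnt_wh_self`), `cnt Ω2 2 = cnt Ω 2`, `cnt Ω2 0 = cnt Ω 0`.  `th_t` with `B = {a, a⁻¹, z⁻¹}`: `th k Ω2` is in the automorphic orbit of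
  `th k Ω`; `OMin`: `n + n + K ≤ cycLen (th k Ω2) = n + capC Ω2 (PrC 1) + k m + cnt Ω 2 ≤ n + 2 m + k m + cnt Ω 2` (`th_cnt0..2`), and `K = k n/2 + cnt Ω 2`: `(2 + k) m ≥ (2 + k) n/2`, `m ≥ n/2`, `capC (sq Qt Ω) A = m + n/2 ≥ n`.
* `th1_mk`: from `th_chart`: `VP n P2 (sq Qt Ω) (PrC 1)`: the cut `C = {(1,b)} ∪ J`: `capC (sq Qt Ω) C = n/2 + n/2`; it crosses `PrC 1`: `(1,b) ∈ C`, `bar (1,b) ∉ C`, `J ≠ ∅`, `c ∉ C`.
* `th1_sq`: `Th1` is preserved by `SQ P2 Qt (· ≠ 2)`: one step `Ω' = act (wh y A) Ω`, `A` `P2`-fixed, `y.1 ≠ 2`.  `BQ` (`bq_st`), `VP` (`sq_pr`).  WLOG `c^{±1} ∉ A` (`TwBasic` `Lv_compl`: replace `(y, A)` by `(y⁻¹, Aᶜ)`).  `y.1 = 0`: `QF Qt 0 A`, `A` constant on `t^{±1}`: `th_wh0`: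
  `th k Ω' = act (wh y A') (th k Ω)`.  `y.1 = 1`: `th_t` with `B = {a, a⁻¹, z⁻¹}`.  So `th k Ω'` is in the automorphic orbit of `th k Ω`, with counts `cnt Ω' 0 = n`, `capC Ω' (PrC 1) = n` (`BQ.t`), `k cnt Ω' 1 + cnt Ω' 2 = K` (`th_cnt*`; level moves preserve all counts of `Ω`): `hv_of`.
* `th1_facts`: counts: `cnt Ω 0 = n`, `2 cnt Ω 1 = n`, `capC Ω (PrC 1) = n`, `n ≤ capC Ω (PrC 2)` (`BQ.e.low`, `pw_cap`), so `0 < cnt Ω 2`, and `k cnt Ω 1 + cnt Ω 2 = K`; `Ec (th k Ω) {z}` (`th_ec`, `ec_alg`).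
* `th1_D`: `capC Ω' (PrC 2) = capC Ω (PrC 2)` on `SQ P2 Qt (· ≠ 2) Ω` (`sq_bq`, `capT`, `pw_cap`).
* `th1_lv`: the level cuts `B` at `th k Ω` with `z⁻¹ ∈ B`, `z ∉ B`, `c^{±1} ∉ B`; the old sphere `S = stc B z⁻¹ = {z} ∪ (B ∖ z⁻¹)` is closed, tight and not crossed at `G = act (wh z⁻¹ B) (th k Ω)`: `ec_psi` for `{z}` (`psi z⁻¹ B {z} = S`), `capC G S = n` (`tr_cut`); `C` with `NP n P2 G C`
  crossing `S`: WLOG `c^{±1} ∉ C` (complement); `hS` (`Ec`, `q = 0`): `capC G C = capC G (C ∩ S) + capC G (C ∖ S) ≥ 2 n`.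
Difficulty 4.
-/

namespace Pool.Agent.Sims

/-- `t = (1,·)` is the only square letter -/
def Qt : Fin 3 → Bool := fun i => decide (i = 1)

/-- type-1 chart -/
structure Th1 (n K k : ℕ) (Ω : CC) : Prop where
  hk : 1 ≤ k
  H : Hv n K (th k Ω)
  B : BQ n P2 Qt Ω
  X : VP n P2 (sq Qt Ω) (PrC 1)

theorem hv_of {n K : ℕ} {V W : CC} (H : Hv n K V)
    (h : ∃ φ : FreeGroup (Fin 3) ≃* FreeGroup (Fin 3), W = act φ V) (h0 : cnt W 0 = n)
    (h1 : cnt W 1 = n) (h2 : cnt W 2 = K) : Hv n K W ∧ W ∈ orb V := by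
  have hmem : W ∈ orb V := by
    refine ⟨h, ?_⟩
    rw [cycLen_eq_sum, cycLen_eq_sum]
    simp only [Fin.sum_univ_three, h0, h1, h2, H.c0, H.c1, H.c2]
  exact ⟨⟨OMin_orb H.hO hmem, H.h4, h0, h1, h2, H.hK,
    fun W' hW' A hA => H.lo W' (orb_trans hmem hW') A hA⟩, hmem⟩

theorem RtE4_inv (φ : FreeGroup (Fin 3) ≃* FreeGroup (Fin 3)) (V : CC) :
    act φ.symm (act φ V) = V := by
  rw [act_act, MulEquiv.self_trans_symm, act_refl]

theorem RtE4_Q0 : Qt 0 = false := rfl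
theorem RtE4_Q1 : Qt 1 = true := rfl
theorem RtE4_Q2 : Qt 2 = false := rfl

theorem RtE4_Q {i : Fin 3} (h : Qt i = true) : i = 1 := of_decide_eq_true h

/-- the image of one light level move -/
theorem RtE4_phi {k : ℕ} {Ω : CC} {y : Fin 3 × Bool} {A : Ct} (hy2 : y.1 ≠ 2) (hQ : QF Qt y.1 A)
    (hP : PF P2 A) :
    ∃ φ : FreeGroup (Fin 3) ≃* FreeGroup (Fin 3), th k (act (wh y A) Ω) = act φ (th k Ω) := by
  have main : ∀ (y : Fin 3 × Bool) (A : Ct), y.1 ≠ 2 → QF Qt y.1 A → Lt A →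
      ∃ φ : FreeGroup (Fin 3) ≃* FreeGroup (Fin 3), th k (act (wh y A) Ω) = act φ (th k Ω) := by
    intro y A hy2 hQ hL
    by_cases hy0 : y.1 = 0
    · have h1 : A (1, true) = A (1, false) := hQ 1 RtE4_Q1 (by rw [hy0]; decide)
      refine ⟨wh y (fun x => if x = ((1 : Fin 3), true) then false else A x), ?_⟩
      refine th_wh0 k hy0 hL ?_ ?_ h1 ?_ ?_ _
      · exact ⟨by simp [hL.1], by simp [hL.2]⟩
      · intro b
        simp
      · simp
      · simp
    · have hy1 : y.1 = 1 := by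
        have h3 : ∀ i : Fin 3, i ≠ 0 → i ≠ 2 → i = 1 := by decide
        exact h3 y.1 hy0 hy2
      obtain ⟨i, b⟩ := y
      simp only at hy1
      subst hy1
      set B : Ct := fun x => decide (x.1 = 0) || decide (x = ((1 : Fin 3), false)) with hB
      set J : Ct := fun x => A x && decide (x.1 = 0) with hJ
      have hBL : Lt B := ⟨by simp [hB], by simp [hB]⟩
      have hJ' : ∀ x, J x = true → x.1 = 0 ∧ B x = true := by
        intro x hx
        simp only [hJ, Bool.and_eq_true, decide_eq_true_eq] at hx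
        exact ⟨hx.2, by simp [hB, hx.2]⟩
      have h1 := th_t k b hBL hJ' Ω
      have h2 : act (wh ((1 : Fin 3), b) (fun x => J x || decide (x = ((1 : Fin 3), b))))
          Ω = act (wh ((1 : Fin 3), b) A) Ω := by
        apply act_wh_congr
        intro x hx
        have hx1 : x.1 ≠ 1 := hx
        have hx2 : x ≠ ((1 : Fin 3), b) := fun h => hx1 (by rw [h])
        simp only [hJ, hx2, decide_false, Bool.or_false]
        by_cases hx0 : x.1 = 0
        · simp [hx0]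
        · have hx3 : x.1 = 2 := by
            have h3 : ∀ i : Fin 3, i ≠ 0 → i ≠ 1 → i = 2 := by decide
            exact h3 x.1 hx0 hx1
          obtain ⟨i, d⟩ := x
          simp only at hx3
          subst hx3
          cases d
          · simp [hL.2]
          · simp [hL.1]
      rw [h2] at h1
      refine ⟨(wh ((1 : Fin 3), false) B).trans ((pot 2
        (fun x => sgn ((1 : Fin 3), b) * k * ind J x)).trans (wh ((1 : Fin 3), false) B).symm), ?_⟩
      rw [← act_act, ← act_act, h1, RtE4_inv]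
  have hc2 : A (2, true) = A (2, false) := hP 2 rfl
  cases hc : A (2, true) with
  | false => exact main y A hy2 hQ ⟨hc, by rw [← hc2, hc]⟩
  | true =>
    have h3 := main (bar y) (fun x => !A x) hy2
      (by
        intro i hi hi'
        show (!A (i, true)) = !A (i, false)
        rw [hQ i hi hi'])
      ⟨by simp [hc], by simp [← hc2, hc]⟩
    rw [act_wh_compl] at h3
    exact h3

theorem RtE4_sqcap {A : Ct} (V : CC) (h2 : A (2, true) = A (2, false))
    (h1 : A (1, true) ≠ A (1, false)) : capC (sq Qt V) A = capC V A + cnt V 1 := by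
  unfold sq
  rw [pw_cap (RtB4_e1 Qt), Fin.sum_univ_three, if_neg h1, if_pos h2]
  simp [Qt]

theorem RtE4_l2 (V : CC) (j : Fin 3) : capC V (PrC j) ≤ 2 * cnt V j := by
  have h := capC_pr V (z := (j, true)) (y := (j, false)) (by simp)
  have h2 : capC V (pr (j, true) (j, false)) = capC V (PrC j) := by
    apply capC_congr
    intro x
    obtain ⟨i, b⟩ := x
    cases b <;> simp [pr, PrC]
  rw [h2] at h
  simp only at h
  omega

theorem th_bq {n K k : ℕ} {Ω : CC} (hk : 1 ≤ k) (H : Hv n K (th k Ω)) (h1 : 2 * cnt Ω 1 = n) :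
    BQ n P2 Qt Ω := by
  have h4 := H.h4
  have hp : 0 < cnt Ω 0 := th_zero (k := k) (by rw [H.c0]; omega)
  have c0 : cnt Ω 0 = n := by rw [← th_cnt0 hk hp, H.c0]
  have c1 : capC Ω (PrC 1) = n := by rw [← th_cnt1 hk hp, H.c1]
  have c2 : k * cnt Ω 1 + cnt Ω 2 = K := by rw [← th_cnt2 hk hp, H.c2]
  -- case (b), light cut
  have caseb : ∀ A : Ct, Lt A → A (1, true) ≠ A (1, false) → n ≤ capC (sq Qt Ω) A := by
    intro A hL hA
    rw [RtE4_sqcap Ω (by rw [hL.1, hL.2]) hA]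
    obtain ⟨b, hb, hb'⟩ : ∃ b : Bool, A (1, b) = true ∧ A (bar (1, b)) = false := by
      cases h3 : A (1, true) with
      | true =>
        refine ⟨true, h3, ?_⟩
        show A (1, false) = false
        cases h5 : A (1, false) with
        | true => exact absurd (h3.trans h5.symm) hA
        | false => rfl
      | false =>
        refine ⟨false, ?_, h3⟩
        cases h5 : A (1, false) with
        | true => rfl
        | false => exact absurd (h3.trans h5.symm) hA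
    have hQ : QF Qt ((1 : Fin 3), b).1 A := fun i hi hi' => absurd (RtE4_Q hi) hi'
    have hP : PF P2 A := by
      intro i hi
      have : i = 2 := hi
      subst this
      rw [hL.1, hL.2]
    obtain ⟨φ, hφ⟩ := RtE4_phi (k := k) (Ω := Ω) (y := ((1 : Fin 3), b)) (A := A) (by simp) hQ hP
    set Ω2 := act (wh ((1 : Fin 3), b) A) Ω with hΩ2
    have d0 : cnt Ω2 0 = n := by
      rw [hΩ2, cnt_wh_ne Ω _ A (by simp), c0]
    have d1 : cnt Ω2 1 = capC Ω A := cnt_wh_self Ω ((1 : Fin 3), b) A hb hb'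
    have d2 : cnt Ω2 2 = cnt Ω 2 := by
      rw [hΩ2, cnt_wh_ne Ω _ A (by simp)]
    have hp2 : 0 < cnt Ω2 0 := by omega
    have hm := H.hO φ
    rw [← hφ, cycLen_eq_sum, cycLen_eq_sum, Fin.sum_univ_three, Fin.sum_univ_three, H.c0, H.c1, H.c2,
      th_cnt0 hk hp2, th_cnt1 hk hp2, th_cnt2 hk hp2, d0, d1, d2] at hm
    have e1 := RtE4_l2 Ω2 1
    rw [d1] at e1
    by_contra hcon
    have e2 : capC Ω A < cnt Ω 1 := by omega
    have e3 : k * capC Ω A ≤ k * cnt Ω 1 := Nat.mul_le_mul_left k e2.le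
    omega
  refine ⟨⟨h4, ?_, ?_⟩, ?_, ?_⟩
  · intro i hi
    have h2 : i ≠ 2 := hi
    rw [RtB4_cnt]
    have key : ∀ i : Fin 3, i ≠ 2 → i = 0 ∨ i = 1 := by decide
    rcases key i h2 with rfl | rfl
    · rw [RtE4_Q0, if_neg (by decide), one_mul, c0]
    · rw [RtE4_Q1, if_pos rfl, h1]
  · intro A hA
    have hA2 : A (2, true) = A (2, false) := hA.2 2 rfl
    by_cases hA1 : A (1, true) = A (1, false)
    · rw [RtB4_cap Ω (fun i hi => by rw [RtE4_Q hi]; exact hA1)]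
      set A' : Ct := fun x => if x = ((1 : Fin 3), true) then A (2, true) else A x with hA'
      have h3 := th_cap hk hp (A := A) (A' := A') (fun b => by simp [hA']) hA1 hA2 (by simp [hA'])
        (by simp [hA']) (fun b => by cases b <;> simp [hA', hA2])
      rw [← h3]
      refine H.lo _ (orb_refl _) A' ?_
      have hv : ∀ c : Bool, (∃ x, A x = c) → ∃ x, A' x = c := by
        rintro c ⟨⟨i, b⟩, hx⟩
        by_cases hi : i = 1
        · subst hi
          refine ⟨(1, false), ?_⟩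
          have : A' (1, false) = A (1, false) := by simp [hA']
          rw [this]
          cases b
          · exact hx
          · rw [← hA1]
            exact hx
        · refine ⟨(i, b), ?_⟩
          have : A' (i, b) = A (i, b) := by simp [hA', hi]
          rw [this]
          exact hx
      exact ⟨hv true hA.1.1, hv false hA.1.2⟩
    · cases hc : A (2, true) with
      | false => exact caseb A ⟨hc, by rw [← hA2, hc]⟩ hA1
      | true =>
        have h3 := caseb (fun x => !A x) ⟨by simp [hc], by simp [← hA2, hc]⟩ (by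
          intro h
          apply hA1
          simpa using h)
        rw [capC_compl] at h3
        exact h3
  · intro j hj
    rw [RtE4_Q hj]
    exact c1
  · intro j hj h
    have h2 : j = 2 := h
    rw [RtE4_Q hj] at h2
    exact absurd h2 (by decide)

theorem RtE4_mk {n K : ℕ} {V : CC} (H : Hv n K V) {U I : Ct} {κ : ℤ} (hR : RotW n V U I κ)
    (hκ : 0 < κ) (hz : U (1, true) = true) (hz' : U (1, false) = false) :
    ∃ (k : ℕ) (Ω : CC), (k : ℤ) = κ ∧ act (wh (1, true) U) V = th k Ω ∧ Th1 n K k Ω := by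
  obtain ⟨Ω, he, HΩ, hc, b, J, hJ, ⟨y, hy⟩, hcap⟩ := th_chart H hR hκ hz hz'
  have hk : 1 ≤ κ.toNat := by omega
  have B := th_bq hk HΩ hc
  refine ⟨κ.toNat, Ω, by omega, he, hk, HΩ, B, ?_⟩
  set C : Ct := fun x => J x || decide (x = ((1 : Fin 3), b)) with hC
  have hJ0 : ∀ x : Fin 3 × Bool, x.1 ≠ 0 → J x = false := by
    intro x hx
    cases h : J x with
    | true => exact absurd (hJ x h) hx
    | false => rfl
  have hC2 : ∀ d : Bool, C (2, d) = false := by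
    intro d
    simp [hC, hJ0 (2, d) (by simp)]
  have hC1 : C (1, b) = true := by simp [hC]
  have hC1' : C (bar (1, b)) = false := by
    have h3 : J (bar ((1 : Fin 3), b)) = false := hJ0 _ (by simp [bar])
    have h4 : bar ((1 : Fin 3), b) ≠ ((1 : Fin 3), b) := bar_ne _
    simp only [hC, h3, h4, decide_false, Bool.or_false]
  have hne : C (1, true) ≠ C (1, false) := by
    cases b with
    | true =>
      have h6 : C (1, false) = false := hC1'
      rw [hC1, h6]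
      decide
    | false =>
      have h6 : C (1, true) = false := hC1'
      rw [hC1, h6]
      decide
  refine ⟨C, ⟨⟨⟨⟨(1, b), hC1⟩, ⟨_, hC1'⟩⟩, ?_⟩, ?_⟩, ?_⟩
  · intro i hi
    have : i = 2 := hi
    subst this
    rw [hC2, hC2]
  · rw [RtE4_sqcap Ω (by rw [hC2, hC2]) hne, hcap]
    omega
  · refine ⟨⟨(1, b), hC1, by simp [PrC]⟩, ⟨y, ?_, ?_⟩, ⟨_, hC1', by simp [PrC, bar]⟩,
      ⟨(2, true), hC2 true, by simp [PrC]⟩⟩
    · simp [hC, hy]
    · have := hJ y hy
      simp [PrC, this]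

theorem th1_mk {n K : ℕ} {V : CC} (H : Hv n K V) {U I : Ct} {κ : ℤ} (hR : RotW n V U I κ)
    (hz : U (1, true) = true) (hz' : U (1, false) = false) :
    ∃ (k : ℕ) (Ω : CC), (k : ℤ) = |κ| ∧ act (wh (1, true) U) V = th k Ω ∧ Th1 n K k Ω := by
  have h0 := hR.h0
  rcases lt_or_gt_of_ne h0 with h | h
  · obtain ⟨k, Ω, h1, h2⟩ := RtE4_mk H (rw_neg H hR).1 (by omega) hz hz'
    exact ⟨k, Ω, by rw [h1, abs_of_neg h], h2⟩
  · obtain ⟨k, Ω, h1, h2⟩ := RtE4_mk H hR h hz hz'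
    exact ⟨k, Ω, by rw [h1, abs_of_pos h], h2⟩

theorem th1_sq {n K k : ℕ} {Ω Ω' : CC} (T : Th1 n K k Ω)
    (h : Ω' ∈ SQ P2 Qt (fun i => i ≠ 2) Ω) : Th1 n K k Ω' ∧ th k Ω' ∈ orb (th k Ω) := by
  have h4 := T.H.h4
  have p0 : ¬ P2 0 := by
    intro h
    have h2 : (0 : Fin 3) = 2 := h
    exact absurd h2 (by decide)
  have hpos : 0 < cnt Ω 0 := by
    rw [bq_cnt' T.B RtE4_Q0 p0]
    omega
  have hK : k * cnt Ω 1 + cnt Ω 2 = K := by rw [← th_cnt2 T.hk hpos, T.H.c2]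
  have key : Hv n K (th k Ω') ∧ th k Ω' ∈ orb (th k Ω) := by
    have h1 : Relation.ReflTransGen (StQ P2 Qt (fun i => i ≠ 2)) Ω Ω' := h
    clear h
    induction h1 with
    | refl => exact ⟨T.H, orb_refl _⟩
    | @tail Ω1 Ω2 hp h3 ih =>
      have hmem : Ω2 ∈ SQ P2 Qt (fun i => i ≠ 2) Ω := Relation.ReflTransGen.tail hp h3
      have B2 := (sq_bq T.B hmem).1
      have hc0 : cnt Ω2 0 = n := bq_cnt' B2 RtE4_Q0 p0
      have hc1 := SQ_cnt hmem 1
      have hc2 := SQ_cnt hmem 2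
      have hpos2 : 0 < cnt Ω2 0 := by omega
      obtain ⟨y, A, hM, hA, hP, hQ, rfl⟩ := h3
      have h5 := hv_of ih.1 (RtE4_phi hM hQ hP) (by rw [th_cnt0 T.hk hpos2, hc0])
        (by rw [th_cnt1 T.hk hpos2]; exact B2.t 1 RtE4_Q1)
        (by rw [th_cnt2 T.hk hpos2, hc1, hc2, hK])
      exact ⟨h5.1, orb_trans ih.2 h5.2⟩
  exact ⟨⟨T.hk, key.1, (sq_bq T.B h).1, sq_pr T.B RtE4_Q1 T.X h⟩, key.2⟩

theorem th1_facts {n K k : ℕ} {Ω : CC} (T : Th1 n K k Ω) : cnt Ω 0 = n ∧ 2 * cnt Ω 1 = n ∧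
    capC Ω (PrC 1) = n ∧ n ≤ capC Ω (PrC 2) ∧ 0 < cnt Ω 2 ∧ k * cnt Ω 1 + cnt Ω 2 = K ∧
    Ec (th k Ω) (sgl ((1 : Fin 3), true)) := by
  have h4 := T.H.h4
  have p0 : ¬ P2 0 := by
    intro h
    have h2 : (0 : Fin 3) = 2 := h
    exact absurd h2 (by decide)
  have c0 : cnt Ω 0 = n := bq_cnt' T.B RtE4_Q0 p0
  have hpos : 0 < cnt Ω 0 := by omega
  have hn : n ≤ capC Ω (PrC 2) := by
    have h := T.B.e.low (A := PrC 2) ⟨⟨⟨(2, true), by simp [PrC]⟩, ⟨(0, true), by simp [PrC]⟩⟩,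
      fun i _ => rfl⟩
    rw [RtB4_cap Ω (fun i _ => rfl)] at h
    exact h
  have hl := RtE4_l2 Ω 2
  refine ⟨c0, bq_cnt T.B RtE4_Q1, T.B.t 1 RtE4_Q1, hn, by omega, ?_, ?_⟩
  · rw [← th_cnt2 T.hk hpos, T.H.c2]
  · exact ec_alg T.H ⟨by simp [sgl], by simp [sgl]⟩ (th_ec k Ω)

theorem th1_D {n K k : ℕ} {Ω Ω' : CC} (T : Th1 n K k Ω)
    (h : Ω' ∈ SQ P2 Qt (fun i => i ≠ 2) Ω) : capC Ω' (PrC 2) = capC Ω (PrC 2) := by
  have h1 := capT (sq_bq T.B h).2
  rw [RtB4_cap Ω' (fun i _ => rfl), RtB4_cap Ω (fun i _ => rfl)] at h1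
  exact h1

theorem th1_lv {n K k : ℕ} {Ω : CC} (T : Th1 n K k Ω) {B : Ct} (hB : Lt B)
    (h1 : B (1, false) = true) (h2 : B (1, true) = false) (h3 : capC (th k Ω) B = n) :
    Hv n K (act (wh (1, false) B) (th k Ω)) ∧
    Ec (act (wh (1, false) B) (th k Ω)) (stc B (1, false)) ∧
    capC (act (wh (1, false) B) (th k Ω)) (stc B (1, false)) = n ∧
    ¬ VP n P2 (act (wh (1, false) B) (th k Ω)) (stc B (1, false)) ∧
    act (wh (1, true) (stc B (1, false))) (act (wh (1, false) B) (th k Ω)) = th k Ω := by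
  have h4 := T.H.h4
  have hLv : Lv (th k Ω) (1, false) B := ⟨h1, h2, by rw [h3]; exact T.H.c1.symm⟩
  have HG : Hv n K (act (wh (1, false) B) (th k Ω)) := hv_lv T.H hLv
  have hY : ∀ x, B x = true → sgl ((1 : Fin 3), true) x = sgl ((1 : Fin 3), true) (1, false) := by
    intro x hx
    have hne : x ≠ ((1 : Fin 3), true) := by
      rintro rfl
      rw [h2] at hx
      exact Bool.false_ne_true hx
    simp [sgl, hne]
  have hpsi : psi (1, false) B (sgl ((1 : Fin 3), true)) = stc B (1, false) := by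
    funext x
    show (if (B x && decide (x ≠ ((1 : Fin 3), false))) = true then
      sgl ((1 : Fin 3), true) (bar (1, false)) else sgl ((1 : Fin 3), true) x) =
      ((B x && decide (x ≠ ((1 : Fin 3), false))) || decide (x = bar (1, false)))
    by_cases h : (B x && decide (x ≠ ((1 : Fin 3), false))) = true
    · rw [if_pos h, h]
      rfl
    · rw [if_neg h]
      have h' : (B x && decide (x ≠ ((1 : Fin 3), false))) = false := by simpa using h
      rw [h', Bool.false_or]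
      rfl
  have hEc : Ec (act (wh (1, false) B) (th k Ω)) (stc B (1, false)) := by
    rw [← hpsi]
    exact ec_psi HG (by simp) hB h1 h2 hY (th1_facts T).2.2.2.2.2.2
  have hcap : capC (act (wh (1, false) B) (th k Ω)) (stc B (1, false)) = n := by
    rw [← hpsi, tr_cut (th k Ω) h1 h2 hY, capC_sgl]
    exact T.H.c1
  refine ⟨HG, hEc, hcap, ?_, (Lv_inv hLv).2⟩
  rintro ⟨C, hC, hX⟩
  have hC2 : C (2, true) = C (2, false) := hC.1.2 2 rfl
  have main : ∀ D : Ct, Lt D → capC (act (wh (1, false) B) (th k Ω)) D = n →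
      (∃ x, D x = true ∧ stc B (1, false) x = true) →
      (∃ x, D x = true ∧ stc B (1, false) x = false) → False := by
    intro D hD hDn ⟨x, hx, hx'⟩ ⟨y, hy, hy'⟩
    have e1 := hEc.2.2 0 D hD
    rw [pot_zero, hDn] at e1
    have e2 := hv_low HG 0 (Y := fun x => D x && stc B (1, false) x)
      ⟨RtG2_and hD, x, by simp [hx, hx']⟩
    have e3 := hv_low HG 0 (Y := fun x => D x && !stc B (1, false) x)
      ⟨RtG2_and (U := fun x => !stc B (1, false) x) hD, y, by simp [hy, hy']⟩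
    rw [pot_zero] at e2 e3
    omega
  cases hc : C (2, true) with
  | false => exact main C ⟨hc, by rw [← hC2, hc]⟩ hC.2 hX.1 hX.2.1
  | true =>
    refine main (fun x => !C x) ⟨by simp [hc], by simp [← hC2, hc]⟩ ?_ ?_ ?_
    · rw [capC_compl]
      exact hC.2
    · obtain ⟨x, hx, hx'⟩ := hX.2.2.1
      exact ⟨x, by simp [hx], hx'⟩
    · obtain ⟨x, hx, hx'⟩ := hX.2.2.2
      exact ⟨x, by simp [hx], hx'⟩

end Pool.Agent.Sims
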