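import Pool.Agent.Sims.RtE4
import Pool.Agent.Sims.RtUe

/-!
# Module `RtE5` : closure theorem for the charts reachable from a type-1 chart

`S1 n k G Ω B` : `G = act (wh z⁻¹ B) (th k Ω)`, `z = (1,true)`, `B` light, `z⁻¹ ∈ B`, `z ∉ B`, `capC (th k Ω) B = n`.  `ClG n K k S` : all members are type-1 data, closed under the `P2`-fixed level moves (`a`- and `t`-moves) and under the rotations of `th k Ω`.
* `gl_ne`: no tight light set other than `{z}` contains `z` at `th k Ω`: if `X z`, `Ti n (th k Ω) 0 X`, then `X ⊆ {z}` (`ec_sub` with the closed set `{z}`, `th1_facts`).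
* `er_light`: one light move (`w, A`) from `G`.  `E = hv_eqp T.H : EqP n P2 (th k Ω)`, `LP P2 (th k Ω) z⁻¹ B`, `LP P2 G w A` (light cuts are `P2`-fixed; `cnt = n`), old sphere uncrossed (`th1_lv`).
  `w.1 = 1`: `Pw.exch_same`: `act (wh w A) G = act (wh z⁻¹ A') (th k Ω)`, `LP P2 (th k Ω) z⁻¹ A'`.  If `c ∈ A'` (then `c⁻¹ ∈ A'`): `Lv_compl`: `act (wh z⁻¹ A') = act (wh z (A'ᶜ))`, `A'ᶜ` light, tight, contains `z`: by `gl_ne` `A'ᶜ = {z}`, so the move is trivial (`Lv_triv`-type: all other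
  letters on one side): the class is `th k Ω = act (wh z⁻¹ {z⁻¹}) (th k Ω)`, `B = {z⁻¹}` (capacity `cnt (th k Ω) 1 = n`).  Otherwise `A'` is light: done.
  `w.1 = 0`: `Pw.exch_diff`: `= act σ.aut (act (wh z' A') (act (wh y' B') (th k Ω)))`, `z'.1 = 1`, `y'.1 = 0`, `σ.letter` fixes `c^{±1}`: `Fix2 σ`.  Replace `(y', B')` by its complement if `c ∈ B'`: `B'` light (`Pw.Lv_compl`).  `B' z = false` (`gl_ne`, `y' ∈ B'`).  Let `B''` be `B'` with the value at
  `t` replaced by the value at `t⁻¹` (i.e. `z⁻¹`): `capC Ω B'' = capC (th k Ω) B' = n` (`th_cap`), so `StQ P2 Qt (· ≠ 2) Ω Ω''` with `Ω'' = act (wh y' B'') Ω`, `th k Ω'' = act (wh y' B') (th k Ω)` (`th_wh0`).  Then `(z', A')` at `th k Ω''` as in the case `w.1 = 1` (`Th1` for `Ω''` by `hC.s`, `hC.t`).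
* `er_rotS`: a rotation `U, I, κ` of `G` with `U = S = stc B z⁻¹` (as functions).  WLOG `z ∉ I` (`rw_neg`).  `|κ| = k`: `th1_mk`/`th_chart` for `G`, `S`: `act (wh z S) G = th |κ| Ω°` with `2 cnt Ω° 1 = n`, and `act (wh z S) G = th k Ω` (`th1_lv`); `th_gx` twice (`gx s 0 {z} = k n/2 = |κ| n/2`).
  `κ = s k`, `s = sgn (1,b)`, `I ⊆ B ∖ z⁻¹`: `th_t`: `act (pot 2 (κ 1_I)) G = act (wh z⁻¹ B) (th k Ω2)`, `Ω2 = act (wh (1,b) ({(1,b)} ∪ I)) Ω`.  Level: `cnt (act (pot 2 (κ 1_I)) G) 2 = K` (`rot_cnt`) and `th_cnt2`: `cnt Ω2 1 = cnt Ω 1`, so `capC Ω ({(1,b)} ∪ I) = cnt Ω 1`: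
  `StQ P2 Qt (· ≠ 2) Ω Ω2` (`QF Qt 1 _` is empty).  `capC (th k Ω2) B = cnt (act (wh z⁻¹ B) (th k Ω2)) 1 = n` (`cnt_wh_self`; the rotated class satisfies `Hv`, `hv_orb`).
* `er_rotD`: a rotation `U, I, κ` of `G` with `U` disjoint from `S`.  `rot_psi` for `G` and the move `(z, S)`: `RotW n (th k Ω) (psi z S U) (psi z S I) κ` and `act (pot 2 (κ 1_{psi z S I})) (th k Ω) = act (wh z S) (act (pot 2 (κ 1_I)) G)`.  `hC.r`: the left hand side is `th k Ω'`, `Ω' ∈ S`.
  `act (wh z⁻¹ B)` is the inverse of `act (wh z S)` on all classes (`S = stc B z⁻¹`; potentials cancel, `pot_add`, `pot_zero`, `pot_congr`): `act (pot 2 (κ 1_I)) G = act (wh z⁻¹ B) (th k Ω')`; `capC (th k Ω') B = n` by `cnt_wh_self` and `Hv` of the rotated class.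
* `er_step`: every rotation window `U` of `G` is `S` or disjoint from `S`: if `U` meets `S`: `ec_sub` with the closed set `S` and the tight set `U` (`hR.t0`): `U ⊆ S`; and with the closed set `U` and the tight set `S`: `S ⊆ U`.
* `er_th`: induction on the path; each step from `act σ.aut G` is transported by `str_sp`; compositions of `Fix2` permutations (`Conn_act_comp`).
Difficulty 4.
-/

namespace Pool.Agent.Sims

/-- `G = act (wh z⁻¹ B) (th k Ω)` -/
def S1 (n k : ℕ) (G Ω : CC) (B : Ct) : Prop := Lt B ∧ B (1, false) = true ∧ B (1, true) = false ∧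
  capC (th k Ω) B = n ∧ G = act (wh (1, false) B) (th k Ω)

/-- closed set of type-1 data -/
structure ClG (n K k : ℕ) (S : Set CC) : Prop where
  t : ∀ Ω ∈ S, Th1 n K k Ω
  s : ∀ Ω ∈ S, ∀ Ω', StQ P2 Qt (fun i => i ≠ 2) Ω Ω' → Ω' ∈ S
  r : ∀ Ω ∈ S, ∀ (U I : Ct) (κ : ℤ), RotW n (th k Ω) U I κ →
    ∃ Ω' ∈ S, act (pot 2 (fun x => κ * ind I x)) (th k Ω) = th k Ω'

theorem RtE5_id : ∃ σ : SPerm (Fin 3), Fix2 σ ∧ ∀ c : CC, act σ.aut c = c := by
  obtain ⟨π, h1, _, h2⟩ := exists_SPerm_one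
  exact ⟨π, h2, h1⟩

theorem gl_ne {n K k : ℕ} {Ω : CC} (T : Th1 n K k Ω) {X : Ct} (hX : Lt X)
    (hz : X (1, true) = true) (hc : capC (th k Ω) X = n) : ∀ x, X x = true → x = (1, true) := by
  have h1 : Ti n (th k Ω) 0 X := hv_ti0.2 ⟨⟨hX, ⟨_, hz⟩⟩, hc⟩
  have h2 := ec_sub T.H (th1_facts T).2.2.2.2.2.2 h1 ⟨(1, true), hz, by simp [sgl]⟩
  intro x hx
  have h3 := h2 x hx
  simpa [sgl] using h3

theorem RtE5_base {n K k : ℕ} {Ω : CC} (T : Th1 n K k Ω) :
    S1 n k (th k Ω) Ω (fun x => decide (x = ((1 : Fin 3), false))) := by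
  refine ⟨⟨by decide, by decide⟩, by decide, by decide, ?_, ?_⟩
  · rw [capC_single]
    exact T.H.c1
  · symm
    apply Lv_triv
    intro x hx
    have h1 : x ≠ ((1 : Fin 3), false) := by
      rintro rfl
      exact hx rfl
    simp [h1]

theorem RtE5_same {n K k : ℕ} {Ω : CC} (T : Th1 n K k Ω) {A : Ct}
    (hA : LP P2 (th k Ω) (1, false) A) :
    ∃ B', S1 n k (act (wh (1, false) A) (th k Ω)) Ω B' := by
  obtain ⟨h1, h2, h3, h4⟩ := hA
  have h5 : A (2, true) = A (2, false) := h4 2 rfl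
  have h3' : capC (th k Ω) A = n := by
    rw [h3]
    exact T.H.c1
  have h2' : A (1, true) = false := h2
  rcases hb : A (2, true) with _ | _
  · exact ⟨A, ⟨hb, by rw [← h5]; exact hb⟩, h1, h2', h3', rfl⟩
  · have hL : Lt (fun x => !A x) := by
      refine ⟨?_, ?_⟩
      · simp [hb]
      · simp [← h5, hb]
    have h6 := gl_ne T hL (by simp [h2']) (by rw [capC_compl]; exact h3')
    have h7 : act (wh (1, false) A) (th k Ω) = th k Ω := by
      have e1 := act_wh_compl ((1 : Fin 3), false) A (th k Ω)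
      rw [← e1]
      apply Lv_triv
      intro x hx
      by_contra hc
      have hc' : (!A x) = true := by
        simpa using hc
      have h8 := h6 x hc'
      apply hx
      rw [h8]
      rfl
    rw [h7]
    exact ⟨_, RtE5_base T⟩

theorem er_light {n K k : ℕ} {S : Set CC} (hC : ClG n K k S) {Ω G : CC} (hΩ : Ω ∈ S) {B : Ct}
    (hG : S1 n k G Ω B) {w : Fin 3 × Bool} {A : Ct} (hw : w.1 ≠ 2) (hA : Lt A) (hL : Lv G w A) :
    ∃ (σ : SPerm (Fin 3)) (Ω' G' : CC) (B' : Ct), Fix2 σ ∧ Ω' ∈ S ∧ S1 n k G' Ω' B' ∧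
      act (wh w A) G = act σ.aut G' := by
  have T := hC.t Ω hΩ
  obtain ⟨hB, b1, b2, b3, rfl⟩ := hG
  have E : EqP n P2 (th k Ω) := hv_eqp T.H
  have hpf : ∀ {D : Ct}, Lt D → PF P2 D := by
    intro D hD i hi
    have hi' : i = 2 := hi
    subst hi'
    rw [hD.1, hD.2]
  have hB2 : LP P2 (th k Ω) (1, false) B := by
    refine ⟨b1, b2, ?_, hpf hB⟩
    rw [b3]
    exact T.H.c1.symm
  obtain ⟨g1, g2, g3, g4, g5⟩ := th1_lv T hB b1 b2 b3
  have hA2 : LP P2 (act (wh (1, false) B) (th k Ω)) w A := ⟨hL.1, hL.2.1, hL.2.2, hpf hA⟩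
  by_cases h1 : w.1 = 1
  · obtain ⟨A', hA', he⟩ := Pw.exch_same E hB2 g4 hA2 h1
    obtain ⟨B', hB'⟩ := RtE5_same T hA'
    obtain ⟨π, hπ, hπ1⟩ := RtE5_id
    refine ⟨π, Ω, _, B', hπ, hΩ, hB', ?_⟩
    rw [he, hπ1]
  · have h0 : w.1 = 0 := by
      revert hw h1
      generalize w.1 = i
      fin_cases i <;> simp
    obtain ⟨σ, z', y', A', B', hz', hy', l1, l2, hσ, he⟩ := Pw.exch_diff E hB2 g4 hA2 h1
    have hz1 : z'.1 = 1 := hz'
    have hy0 : y'.1 = 0 := by rw [hy', h0]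
    have hF : Fix2 σ := by
      have h2 := hσ (2, true) (by show (2 : Fin 3) ≠ 1; decide) (by rw [h0]; show (2 : Fin 3) ≠ 0; decide)
      have h3 := congrArg Prod.fst h2
      exact h3
    -- make the second cut light
    obtain ⟨y, D', hy, hD', l3, he3⟩ : ∃ (y : Fin 3 × Bool) (D' : Ct), y.1 = 0 ∧ Lt D' ∧
        LP P2 (th k Ω) y D' ∧ act (wh y D') (th k Ω) = act (wh y' B') (th k Ω) := by
      have h5 : B' (2, true) = B' (2, false) := l1.2.2.2 2 rfl
      rcases hb : B' (2, true) with _ | _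
      · exact ⟨y', B', hy0, ⟨hb, by rw [← h5]; exact hb⟩, l1, rfl⟩
      · obtain ⟨m1, m2⟩ := Pw.Lv_compl l1
        refine ⟨bar y', fun x => !B' x, hy0, ⟨?_, ?_⟩, m1, m2⟩
        · simp [hb]
        · simp [← h5, hb]
    have hcn : capC (th k Ω) D' = n := by
      rw [l3.2.2.1, hy]
      exact T.H.c0
    have hDz : D' (1, true) = false := by
      by_contra hc
      have hc' : D' (1, true) = true := by simpa using hc
      have h5 := gl_ne T hD' hc' hcn y l3.1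
      rw [h5] at hy
      exact absurd hy (by decide)
    obtain ⟨f1, f2, f3, f4, f5, f6, f7⟩ := th1_facts T
    have hn : 4 ≤ n := T.H.h4
    have hp : 0 < cnt Ω 0 := by omega
    obtain ⟨D, hD⟩ : ∃ D : Ct, D = fun x => if x = (1, true) then D' (1, false) else D' x := ⟨_, rfl⟩
    have d0 : ∀ b, D (0, b) = D' (0, b) := by
      intro b
      rw [hD]
      exact if_neg (by simp)
    have d2 : ∀ b, D (2, b) = D' (2, b) := by
      intro b
      rw [hD]
      exact if_neg (by simp)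
    have d1 : D (1, true) = D' (1, false) := by
      rw [hD]
      exact if_pos rfl
    have d1' : D (1, false) = D' (1, false) := by
      rw [hD]
      exact if_neg (by simp)
    have hDL : Lt D := ⟨by rw [d2]; exact hD'.1, by rw [d2]; exact hD'.2⟩
    have hcap : capC (th k Ω) D' = capC Ω D := by
      refine th_cap T.hk hp (fun b => (d0 b).symm) (by rw [d1, d1']) (by rw [hDL.1, hDL.2]) d1'.symm
        (by rw [hDz, hDL.1]) (fun b => ?_)
      rw [hDL.1]
      cases b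
      · exact hD'.2
      · exact hD'.1
    obtain ⟨j, c⟩ := y
    have hj : j = 0 := hy
    subst hj
    have hLv : Lv Ω (0, c) D := by
      refine ⟨?_, ?_, ?_⟩
      · rw [d0]
        exact l3.1
      · have := l3.2.1
        show D (0, !c) = false
        rw [d0]
        exact this
      · rw [← hcap, hcn]
        exact f1.symm
    have hSt : StQ P2 Qt (fun i => i ≠ 2) Ω (act (wh (0, c) D) Ω) := by
      refine ⟨(0, c), D, by show (0 : Fin 3) ≠ 2; decide, hLv, hpf hDL, ?_, rfl⟩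
      intro i hi _
      have hi' : i = 1 := by simpa [Qt] using hi
      subst hi'
      rw [d1, d1']
    have hΩ2 := hC.s Ω hΩ _ hSt
    have hth : th k (act (wh (0, c) D) Ω) = act (wh (0, c) D') (th k Ω) :=
      th_wh0 k rfl hDL hD' (fun b => (d0 b).symm) (by rw [d1, d1']) d1'.symm hDz Ω
    have l4 : LP P2 (th k (act (wh (0, c) D) Ω)) z' A' := by
      rw [hth, he3]
      exact l2
    have T2 := hC.t _ hΩ2
    have key : ∃ B'', S1 n k (act (wh z' A') (th k (act (wh (0, c) D) Ω))) (act (wh (0, c) D) Ω) B'' := by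
      obtain ⟨i, e⟩ := z'
      have hi : i = 1 := hz1
      subst hi
      cases e
      · exact RtE5_same T2 l4
      · obtain ⟨m1, m2⟩ := Pw.Lv_compl l4
        rw [← m2]
        exact RtE5_same T2 m1
    obtain ⟨B'', hB''⟩ := key
    refine ⟨σ, _, _, B'', hF, hΩ2, hB'', ?_⟩
    rw [he, hth, he3]

theorem RtE5_stc {B : Ct} (hB : Lt B) : Lt (stc B (1, false)) ∧
    stc B (1, false) (1, true) = true ∧ stc B (1, false) (1, false) = false ∧
    ∀ x : Fin 3 × Bool, x ≠ (1, true) → x ≠ (1, false) → stc B (1, false) x = B x := by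
  refine ⟨⟨?_, ?_⟩, ?_, ?_, ?_⟩
  · simp [stc, hB.1, bar]
  · simp [stc, hB.2, bar]
  · simp [stc, bar]
  · simp [stc, bar]
  · intro x h1 h2
    have h3 : bar ((1 : Fin 3), false) = (1, true) := rfl
    simp [stc, h1, h2, h3]

theorem er_rotS {n K k : ℕ} {S : Set CC} (hC : ClG n K k S) {Ω G : CC} (hΩ : Ω ∈ S) {B : Ct}
    (hG : S1 n k G Ω B) {U I : Ct} {κ : ℤ} (hR : RotW n G U I κ)
    (hU : ∀ x, U x = stc B (1, false) x) :
    ∃ (Ω' G' : CC) (B' : Ct), Ω' ∈ S ∧ S1 n k G' Ω' B' ∧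
      act (pot 2 (fun x => κ * ind I x)) G = G' := by
  have T := hC.t Ω hΩ
  obtain ⟨hB, b1, b2, b3, rfl⟩ := hG
  obtain ⟨g1, g2, g3, g4, g5⟩ := th1_lv T hB b1 b2 b3
  obtain ⟨s0, s1, s2, s3⟩ := RtE5_stc hB
  have hUe : U = stc B (1, false) := funext hU
  -- without loss of generality the letter z is not in I
  obtain ⟨I', κ', hR', hI', he'⟩ : ∃ (I' : Ct) (κ' : ℤ),
      RotW n (act (wh (1, false) B) (th k Ω)) U I' κ' ∧ I' (1, true) = false ∧
      act (pot 2 (fun x => κ' * ind I' x)) (act (wh (1, false) B) (th k Ω)) =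
        act (pot 2 (fun x => κ * ind I x)) (act (wh (1, false) B) (th k Ω)) := by
    rcases hb : I (1, true) with _ | _
    · exact ⟨I, κ, hR, hb, rfl⟩
    · obtain ⟨m1, m2⟩ := rw_neg g1 hR
      exact ⟨_, _, m1, by simp [hb], m2⟩
  rw [← he']
  have hUz : U (1, true) = true := by rw [hU]; exact s1
  have hUz' : U (1, false) = false := by rw [hU]; exact s2
  have hI1 : ∀ x, I' x = true → x.1 = 0 ∧ B x = true := by
    intro x hx
    have h1 : U x = true := hR'.sub x hx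
    have h2 : x ≠ (1, true) := by
      rintro rfl
      rw [hI'] at hx
      exact absurd hx (by decide)
    have h3 : x ≠ (1, false) := by
      rintro rfl
      rw [hUz'] at h1
      exact absurd h1 (by decide)
    have h4 : B x = true := by
      rw [← s3 x h2 h3, ← hU]
      exact h1
    refine ⟨?_, h4⟩
    obtain ⟨i, e⟩ := x
    fin_cases i
    · rfl
    · cases e
      · exact absurd rfl h3
      · exact absurd rfl h2
    · exfalso
      cases e
      · have := hB.2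
        rw [show ((⟨2, by decide⟩ : Fin 3), false) = ((2 : Fin 3), false) from rfl] at h4
        rw [this] at h4
        exact absurd h4 (by decide)
      · have := hB.1
        rw [show ((⟨2, by decide⟩ : Fin 3), true) = ((2 : Fin 3), true) from rfl] at h4
        rw [this] at h4
        exact absurd h4 (by decide)
  obtain ⟨f1, f2, f3, f4, f5, f6, f7⟩ := th1_facts T
  have hn : 4 ≤ n := T.H.h4
  have hk := T.hk
  have hp : 0 < cnt Ω 0 := by omega
  -- the absolute value of κ'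
  have habs : κ'.natAbs = k := by
    obtain ⟨k', Ω', hk', hth, T'⟩ := th1_mk g1 hR' hUz hUz'
    rw [hUe, g5] at hth
    obtain ⟨q1, q2, q3, q4, q5, q6, q7⟩ := th1_facts T'
    obtain ⟨s, hs0, hs, hsV⟩ := hv_gl T.H
    have e1 := th_gx hk hp hs hsV
    have e2 := th_gx T'.hk (by omega) hs (hsV.trans hth)
    have e3 : k * cnt Ω 1 = k' * cnt Ω' 1 := by rw [← e1, ← e2]
    have e4 : cnt Ω' 1 = cnt Ω 1 := by omega
    rw [e4] at e3
    have e5 : k = k' := Nat.eq_of_mul_eq_mul_right (by omega) e3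
    have e6 : (k' : ℤ) = |κ'| := hk'
    rw [Int.abs_eq_natAbs] at e6
    omega
  obtain ⟨b, hb⟩ : ∃ b : Bool, κ' = sgn ((1 : Fin 3), b) * (k : ℤ) := by
    rcases Int.natAbs_eq κ' with h | h
    · exact ⟨true, by simp only [sgn]; rw [h, habs]; simp⟩
    · exact ⟨false, by simp only [sgn]; rw [h, habs]; simp⟩
  have hcn2 : cnt (act (pot 2 (fun x => κ' * ind I' x)) (act (wh (1, false) B) (th k Ω))) 2 = K :=
    rot_cnt g1 hR'
  have hHv : Hv n K (act (pot 2 (fun x => κ' * ind I' x)) (act (wh (1, false) B) (th k Ω))) :=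
    hv_orb g1 hcn2
  have hth := th_t k b hB hI1 Ω
  have hfe : (fun x => κ' * ind I' x) = fun x => sgn ((1 : Fin 3), b) * (k : ℤ) * ind I' x := by
    rw [hb]
  rw [hfe] at hcn2 hHv ⊢
  rw [hth] at hcn2 hHv ⊢
  obtain ⟨D, hD⟩ : ∃ D : Ct, D = fun x => I' x || decide (x = ((1 : Fin 3), b)) := ⟨_, rfl⟩
  rw [← hD] at hcn2 hHv ⊢
  have hI2 : ∀ x : Fin 3 × Bool, x.1 ≠ 0 → I' x = false := by
    intro x hx
    by_contra hc
    exact hx (hI1 x (by simpa using hc)).1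
  have D1 : D (1, b) = true := by rw [hD]; simp
  have D2 : D (bar (1, b)) = false := by
    rw [hD]
    have h1 : I' (bar (1, b)) = false := hI2 _ (by show (1 : Fin 3) ≠ 0; decide)
    have h2 : bar ((1 : Fin 3), b) ≠ (1, b) := bar_ne _
    simp [h1, h2]
  have D3 : ∀ e, D (2, e) = false := by
    intro e
    rw [hD]
    have h1 : I' (2, e) = false := hI2 _ (by show (2 : Fin 3) ≠ 0; decide)
    simp [h1]
  have c0 : cnt (act (wh (1, b) D) Ω) 0 = cnt Ω 0 := cnt_wh_ne _ _ _ (by show (0 : Fin 3) ≠ 1; decide)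
  have c2 : cnt (act (wh (1, b) D) Ω) 2 = cnt Ω 2 := cnt_wh_ne _ _ _ (by show (2 : Fin 3) ≠ 1; decide)
  have c1 : cnt (act (wh (1, b) D) Ω) 1 = capC Ω D := cnt_wh_self Ω (1, b) D D1 D2
  have c3 := cnt_wh_ne (th k (act (wh (1, b) D) Ω)) ((1 : Fin 3), false) B
    (i := 2) (by show (2 : Fin 3) ≠ 1; decide)
  have c4 := th_cnt2 hk (Ω := act (wh (1, b) D) Ω) (by rw [c0]; exact hp)
  have c5 : capC Ω D = cnt Ω 1 := by
    rw [c3, c4, c1, c2] at hcn2
    have h1 : k * capC Ω D = k * cnt Ω 1 := by omega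
    exact Nat.eq_of_mul_eq_mul_left (by omega) h1
  have hSt : StQ P2 Qt (fun i => i ≠ 2) Ω (act (wh (1, b) D) Ω) := by
    refine ⟨(1, b), D, by show (1 : Fin 3) ≠ 2; decide, ⟨D1, D2, c5⟩, ?_, ?_, rfl⟩
    · intro i hi
      have hi' : i = 2 := hi
      subst hi'
      rw [D3, D3]
    · intro i hi hne
      exfalso
      have hi' : i = 1 := by simpa [Qt] using hi
      exact hne hi'
  have hΩ2 := hC.s Ω hΩ _ hSt
  refine ⟨_, _, B, hΩ2, ⟨hB, b1, b2, ?_, rfl⟩, rfl⟩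
  have c6 := cnt_wh_self (th k (act (wh (1, b) D) Ω)) ((1 : Fin 3), false) B b1 b2
  rw [← c6]
  exact hHv.c1

theorem er_rotD {n K k : ℕ} {S : Set CC} (hC : ClG n K k S) {Ω G : CC} (hΩ : Ω ∈ S) {B : Ct}
    (hG : S1 n k G Ω B) {U I : Ct} {κ : ℤ} (hR : RotW n G U I κ)
    (hU : ∀ x, U x = true → stc B (1, false) x = false) :
    ∃ (Ω' G' : CC) (B' : Ct), Ω' ∈ S ∧ S1 n k G' Ω' B' ∧
      act (pot 2 (fun x => κ * ind I x)) G = G' := by
  have T := hC.t Ω hΩ
  obtain ⟨hB, b1, b2, b3, rfl⟩ := hG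
  obtain ⟨g1, g2, g3, g4, g5⟩ := th1_lv T hB b1 b2 b3
  obtain ⟨s0, s1, s2, s3⟩ := RtE5_stc hB
  have hcn2 : cnt (act (pot 2 (fun x => κ * ind I x)) (act (wh (1, false) B) (th k Ω))) 2 = K :=
    rot_cnt g1 hR
  have hHv : Hv n K (act (pot 2 (fun x => κ * ind I x)) (act (wh (1, false) B) (th k Ω))) :=
    hv_orb g1 hcn2
  obtain ⟨r1, r2⟩ := rot_psi (z := (1, true)) (A := stc B (1, false)) (n := n) (K := K)
    (V := act (wh (1, false) B) (th k Ω)) (by rw [g5]; exact T.H) (by show (1 : Fin 3) ≠ 2; decide)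
    s0 s1 s2 hR (fun x hx => by
      by_contra hc
      have h1 := hU x (by simpa using hc)
      rw [hx] at h1
      exact absurd h1 (by decide))
  rw [g5] at r1 r2
  obtain ⟨Ω', hΩ', he⟩ := hC.r Ω hΩ _ _ _ r1
  rw [he] at r2
  have hback : ∀ W : CC, act (wh (1, false) B) (act (wh (1, true) (stc B (1, false))) W) = W := by
    intro W
    show act (pot 1 (whp (1, false) B)) (act (pot 1 (whp (1, true) (stc B (1, false)))) W) = W
    rw [pot_add]
    have h1 : act (pot 1 (whp (1, false) B + whp (1, true) (stc B (1, false)))) W = act (pot 1 0) W := by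
      apply pot_congr
      intro x hx
      have h2 : x ≠ (1, true) := by
        rintro rfl
        exact hx rfl
      have h3 : x ≠ (1, false) := by
        rintro rfl
        exact hx rfl
      simp only [Pi.add_apply, whp, s3 x h2 h3, sgn, Pi.zero_apply]
      split_ifs <;> simp at *
    rw [h1, pot_zero]
  have hGe : act (pot 2 (fun x => κ * ind I x)) (act (wh (1, false) B) (th k Ω)) =
      act (wh (1, false) B) (th k Ω') := by
    rw [r2, hback]
  rw [hGe] at hHv ⊢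
  refine ⟨Ω', _, B, hΩ', ⟨hB, b1, b2, ?_, rfl⟩, rfl⟩
  have c6 := cnt_wh_self (th k Ω') ((1 : Fin 3), false) B b1 b2
  rw [← c6]
  exact hHv.c1

theorem er_step {n K k : ℕ} {S : Set CC} (hC : ClG n K k S) {Ω G W : CC} (hΩ : Ω ∈ S) {B : Ct}
    (hG : S1 n k G Ω B) (h : StR n G W) :
    ∃ (σ : SPerm (Fin 3)) (Ω' G' : CC) (B' : Ct), Fix2 σ ∧ Ω' ∈ S ∧ S1 n k G' Ω' B' ∧
      W = act σ.aut G' := by
  rcases h with ⟨w, A, hw, hA, hL, rfl⟩ | ⟨U, I, κ, hR, rfl⟩
  · exact er_light hC hΩ hG hw hA hL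
  · have T := hC.t Ω hΩ
    obtain ⟨π, hπ, hπ1⟩ := RtE5_id
    obtain ⟨g1, g2, g3, g4, g5⟩ := th1_lv T hG.1 hG.2.1 hG.2.2.1 hG.2.2.2.1
    rw [← hG.2.2.2.2] at g1 g2 g3 g4 g5
    obtain ⟨s0, s1, s2, s3⟩ := RtE5_stc hG.1
    by_cases hm : ∃ x, U x = true ∧ stc B (1, false) x = true
    · have i1 := ec_sub g1 g2 hR.t0 hm
      have i2 := ec_sub g1 hR.ec (hv_ti0.2 ⟨⟨s0, ⟨_, s1⟩⟩, g3⟩)
        (by obtain ⟨x, h1, h2⟩ := hm; exact ⟨x, h2, h1⟩)
      obtain ⟨Ω', G', B', h1, h2, h3⟩ := er_rotS hC hΩ hG hR (fun x => by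
        rcases hx : U x with _ | _
        · rcases hy : stc B (1, false) x with _ | _
          · rfl
          · rw [i2 x hy] at hx
            exact absurd hx (by decide)
        · exact (i1 x hx).symm)
      exact ⟨π, Ω', G', B', hπ, h1, h2, by rw [h3, hπ1]⟩
    · obtain ⟨Ω', G', B', h1, h2, h3⟩ := er_rotD hC hΩ hG hR (fun x hx => by
        by_contra hc
        exact hm ⟨x, hx, by simpa using hc⟩)
      exact ⟨π, Ω', G', B', hπ, h1, h2, by rw [h3, hπ1]⟩

theorem er_th {n K k : ℕ} {S : Set CC} (hC : ClG n K k S) {Ω W : CC} (hΩ : Ω ∈ S)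
    (hW : W ∈ ER n (th k Ω)) :
    ∃ (σ : SPerm (Fin 3)) (Ω' G' : CC) (B' : Ct), Fix2 σ ∧ Ω' ∈ S ∧ S1 n k G' Ω' B' ∧
      W = act σ.aut G' := by
  have h1 : Relation.ReflTransGen (StR n) (th k Ω) W := hW
  clear hW
  induction h1 with
  | refl =>
    obtain ⟨π, hπ, hπ1⟩ := RtE5_id
    exact ⟨π, Ω, th k Ω, _, hπ, hΩ, RtE5_base (hC.t Ω hΩ), (hπ1 _).symm⟩
  | tail _ h3 ih =>
    obtain ⟨σ, Ω1, G1, B1, hσ, hΩ1, hS1, rfl⟩ := ih
    obtain ⟨W', hW', rfl⟩ := str_sp hσ h3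
    obtain ⟨τ, Ω2, G2, B2, hτ, hΩ2, hS2, rfl⟩ := er_step hC hΩ1 hS1 hW'
    refine ⟨Conn_comp σ τ, Ω2, G2, B2, ?_, hΩ2, hS2, Conn_act_comp σ τ G2⟩
    show σ.perm (τ.perm 2) = 2
    rw [show τ.perm 2 = 2 from hτ]
    exact hσ

end Pool.Agent.Sims
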