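import Pool.Agent.Sims.RtE5

/-!
# Module `RtE6` : rotations of the type-1 charts

`T : Th1 n K k Ω`, `V = th k Ω`, `z = (1,true)`; a rotation `U, I, κ` of `V`.
* `cs_z`: `z ∉ U`: otherwise `U ⊆ {z}` (`ec_sub` with the closed set `{z}`, `hR.t0`), but `U` has two elements (`hR.ne`, `hR.ne'`, `hR.sub`).
* `cs_dt`: `capC Ω (PrC 2) = n`: `U = {z⁻¹, a, a⁻¹}`: let `L1` be this set, closed (`ec_compl` of `{z}`) with `capC V L1 = capC Ω (PrC 2) = n` (`th_cap`: complement of `{z, c, c⁻¹}`, i.e. of `PrC 2` in `Ω`; `capC_compl`).  `U ⊆ L1`; `hR.ec` with `Z = L1`: `n = capC V U + capC V (L1 ∖ U)`, and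
  `capC V (L1 ∖ U) ≥ n` if it is nonempty (`hv_low`, `pot_zero`).
* `cs_pair`: `n < capC Ω (PrC 2)`: `U = {z⁻¹, x}` with a letter `x` of generator 0: `U ≠ L1` since `capC V L1 = capC Ω (PrC 2) > n`; `U` has at least two elements, all in `L1`; `U ≠ {a, a⁻¹}` (`ec_npr`).
* `cs_nd`: `n < capC Ω (PrC 2)`.  `U = {z⁻¹, x}`, `x.1 = 0`.  After `rw_neg` we may assume `I = {x}` (as functions on `U`; `I` is a nonempty proper subset of `U`).  The set `{x⁻¹}` is closed at `V` too: complement of `U ∪ {z}` (`ec_compl`, union of closed sets: `act (pot 2 (ind U + ind {z})) V = V`).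
  (1) `syllables of Ω`: let `s` be a syllable list (generator 2) of `Ω`; letters `a^{±1}`, `t^{±1}`.  No `t t` (gain 0 between two `t`-letters): `capC Ω (PrC 1) = n = 2 cnt Ω 1` (every `t`-letter is a run).  So `V = cls (expand 2 s')`, where `s'` is `s` with each `(t^δ, g)` replaced by `(z, δ k), (z⁻¹, g)`
  (`thh k (t^δ c^g) = z c^{δ k} z⁻¹ c^g`; cyclically reduced).  `rot_str` for `V`, `s'`, and closedness of `{x⁻¹}` (`ec_gl`), `U` (`ec_gl`): for consecutive syllables `(a, r)` of `s` with end letters `a.1`, `r.1⁻¹`: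
     - `a.1 = x⁻¹` iff `r.1⁻¹ = x⁻¹`, i.e. `x⁻¹` is followed by `x`;
     - both ends in `{t, t⁻¹, x}` otherwise; both ends `t^{±1}`: gain 0, excluded; both ends `x`: `a.1 = x, r.1 = x⁻¹`, gain 0: excluded (reduced); `a.1 = x`, `r.1 = t^{±1}`: gain `0` or `-κ`; `a.1 = t^{±1}`, `r.1 = x⁻¹`: gain `0` or `κ`.
     So `s` is cyclically a concatenation of triples `(x⁻¹, k_i), (x, g_i), (t^{δ_i}, g_i')`, `g_i ∈ {0, -κ}`, `g_i' ∈ {0, κ}`.
  (2) Level cut: `T.X`: a cut `C`, `P2`-fixed, `capC (sq Qt Ω) C = n`, crossing `PrC 1`; so `C` separates `t, t⁻¹` and (complement) `c^{±1} ∉ C`, `C = {t^δ} ∪ J`, `∅ ≠ J ⊆ {x, x⁻¹}`, `capC Ω C = n/2` (`pw_cap`).  The vertex `x⁻¹` has all its `n` edges going to `c^{±1}` (the gains `k_i ≠ 0`), so `x⁻¹ ∈ J`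
  would give `capC Ω C ≥ n` (the edges at `x⁻¹` leave `C`).  So `J = {x}`, and `n/2 = capC Ω C = n/2 + n - 2 e(t^δ, x)` (`capC_pr`, `cnt Ω 0 = n`; degree of `t^δ` is `n/2`): `e(t^δ, x) = n/2`: every end `t^δ` is attached to `x` with gain 0.  As `U` is tight at `V` exactly `n/2` of the `n` edges `x - t^{±1}` have
  gain 0 (`capC V U = n = 2 #{nonzero gains of edges in U}`, `n` edges at `x`): the `n/2` ends `t^{-δ}` all have nonzero gain.  So the triples are `(x⁻¹, k_i), (x, -κ), (t^δ, 0)` or `(x⁻¹, k_i), (x, 0), (t^{-δ}, κ)`: `Ω` is the class of `Π x⁻¹ c^{k_i} x (c^{-κ} t^δ)^{±1}`.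
  (3) `φ1 = pot 2 (κ 1_{x}) : x ↦ x c^κ`, `φ2 = wh t^δ ({t^δ} ∪ {x}) : x ↦ x t^δ`.  `φ1` and `φ2` agree on `Ω`: on the element `g = Π (x⁻¹ c^{k_i} x (c^{-κ} t^δ)^{±1})`: `φ1 g = Π (c^{-κ} x⁻¹ c^{k_i} x c^κ (c^{-κ} t^δ)^{±1})`, `φ2 g = Π (t^{-δ} x⁻¹ c^{k_i} x t^δ (c^{-κ} t^δ)^{±1})`; with `D = t^{-δ} c^κ = (c^{-κ} t^δ)⁻¹`:
  `c^{-κ} = D⁻¹ t^{-δ}`, so `φ1 g = Π (D⁻¹ t^{-δ} x⁻¹ c^{k_i} x t^δ D (D⁻¹)^{±1}) = D⁻¹ (φ2 g) D` (each factor is conjugated by `D`, which commutes with `D^{±1}`).  So `act φ1 Ω = act φ2 Ω =: Ω'`, `StQ P2 Qt (· ≠ 2) Ω Ω'` (`capC Ω ({t^δ} ∪ {x}) = n/2 = cnt Ω 1`).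
  `th_pot` with `p = κ 1_{x}`: `th k Ω' = act (pot 2 (κ 1_I)) V`.  (For general `I` use the second part of `rw_neg`.)
* `clg_nd`, `clg_dt`: `ClG n K k (SQ P2 Qt (· ≠ 2) Ω)`: `t`: `th1_sq`; `s`: `SQ` is closed under steps; `r`: `cs_nd` (`th1_D`), resp. there are no rotations.
Difficulty 5.
-/

namespace Pool.Agent.Sims

open FreeGroup (of)

theorem RtE6_pos {n K k : ℕ} {Ω : CC} (T : Th1 n K k Ω) : 0 < cnt (th k Ω) 0 := by
  have := T.H.c0
  have := T.H.h4
  omega

theorem cs_z {n K k : ℕ} {Ω : CC} (T : Th1 n K k Ω) {U I : Ct} {κ : ℤ}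
    (hR : RotW n (th k Ω) U I κ) : U (1, true) = false := by
  cases hU : U (1, true)
  · rfl
  exfalso
  have hE := (th1_facts T).2.2.2.2.2.2
  have h1 := ec_sub T.H hE hR.t0 ⟨(1, true), hU, by simp [sgl]⟩
  obtain ⟨v, hv⟩ := hR.ne
  obtain ⟨u, hu, hu'⟩ := hR.ne'
  have h2 : v = (1, true) := by simpa [sgl] using h1 v (hR.sub v hv)
  have h3 : u = (1, true) := by simpa [sgl] using h1 u hu
  rw [h3, ← h2, hv] at hu'
  exact absurd hu' (by simp)

/-- the letters `z⁻¹, a, a⁻¹` -/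
def RtE6_L : Ct := fun x => !(sgl ((1 : Fin 3), true) x) && decide (x.1 ≠ 2)

theorem RtE6_LE {n K k : ℕ} {Ω : CC} (T : Th1 n K k Ω) : Ec (th k Ω) RtE6_L :=
  ec_compl (RtE6_pos T) (th1_facts T).2.2.2.2.2.2

theorem RtE6_Lc {n K k : ℕ} {Ω : CC} (T : Th1 n K k Ω) : capC (th k Ω) RtE6_L = capC Ω (PrC 2) := by
  have hp : 0 < cnt Ω 0 := th_zero (RtE6_pos T)
  have h1 : capC (th k Ω) (fun x => !(RtE6_L x)) = capC Ω (PrC 2) := by
    apply th_cap T.hk hp
    · intro b
      simp [RtE6_L, PrC, sgl]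
    · simp [PrC]
    · simp [PrC]
    · simp [RtE6_L, PrC, sgl]
    · simp [RtE6_L, PrC, sgl]
    · intro b
      simp [RtE6_L, PrC, sgl]
  rw [capC_compl] at h1
  exact h1

theorem RtE6_U {n K k : ℕ} {Ω : CC} (T : Th1 n K k Ω) {U I : Ct} {κ : ℤ}
    (hR : RotW n (th k Ω) U I κ) : capC (th k Ω) U = n ∧ ∀ x, U x = true → RtE6_L x = true := by
  have hz := cs_z T hR
  refine ⟨?_, ?_⟩
  · have := hR.t0.2
    rw [pot_zero] at this
    exact this
  · intro x hx
    have hL := hR.t0.1.1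
    unfold RtE6_L
    rcases x with ⟨i, b⟩
    by_cases h2 : i = 2
    · subst h2
      cases b
      · rw [hL.2] at hx; exact absurd hx (by simp)
      · rw [hL.1] at hx; exact absurd hx (by simp)
    · by_cases h3 : ((i, b) : Fin 3 × Bool) = (1, true)
      · rw [h3, hz] at hx
        exact absurd hx (by simp)
      · simp [sgl, h3, h2]

theorem cs_dt {n K k : ℕ} {Ω : CC} (T : Th1 n K k Ω) (hD : capC Ω (PrC 2) = n) {U I : Ct} {κ : ℤ}
    (hR : RotW n (th k Ω) U I κ) : ∀ x : Fin 3 × Bool, x.1 ≠ 2 → x ≠ (1, true) → U x = true := by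
  obtain ⟨h1, h2⟩ := RtE6_U T hR
  have h3 := hR.ec.2.2 0 RtE6_L (RtE6_LE T).1
  rw [pot_zero, RtE6_Lc T, hD] at h3
  have h4 : (fun x => RtE6_L x && U x) = U := by
    funext x
    cases hU : U x
    · simp
    · rw [h2 x hU]
      rfl
  rw [h4, h1] at h3
  intro x hx hxz
  by_contra hc
  have hL : RtE6_L x = true := by
    simp [RtE6_L, sgl, hx, hxz]
  have h5 := hv_low T.H 0 (Y := fun x => RtE6_L x && !U x) ⟨⟨by simp [RtE6_L], by simp [RtE6_L]⟩, x, by
    have : U x = false := by simpa using hc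
    simp [hL, this]⟩
  rw [pot_zero] at h5
  have := T.H.h4
  omega

theorem cs_pair {n K k : ℕ} {Ω : CC} (T : Th1 n K k Ω) (hD : n < capC Ω (PrC 2)) {U I : Ct}
    {κ : ℤ} (hR : RotW n (th k Ω) U I κ) :
    ∃ b : Bool, ∀ x, U x = true ↔ (x = (1, false) ∨ x = (0, b)) := by
  obtain ⟨h1, h2⟩ := RtE6_U T hR
  have hz := cs_z T hR
  have hL := hR.t0.1.1
  obtain ⟨v, hv⟩ := hR.ne
  obtain ⟨u, hu, hu'⟩ := hR.ne'
  have hvU := hR.sub v hv
  have huv : u ≠ v := by
    intro h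
    rw [h, hv] at hu'
    exact absurd hu' (by simp)
  have hnL : U ≠ RtE6_L := by
    intro h
    rw [h, RtE6_Lc T] at h1
    omega
  have hn0 := ec_npr T.H hR.ec (i := 0) (by decide)
  have ev : ∀ x : Fin 3 × Bool, x = (0, true) ∨ x = (0, false) ∨ x = (1, true) ∨ x = (1, false) ∨
      x = (2, true) ∨ x = (2, false) := by decide
  cases e1 : U (1, false)
  · exfalso
    cases e2 : U (0, true)
    · -- only (0, false)
      have h3 : ∀ x, U x = true → x = (0, false) := by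
        intro x hx
        rcases ev x with rfl | rfl | rfl | rfl | rfl | rfl
        · rw [e2] at hx; exact absurd hx (by simp)
        · rfl
        · rw [hz] at hx; exact absurd hx (by simp)
        · rw [e1] at hx; exact absurd hx (by simp)
        · rw [hL.1] at hx; exact absurd hx (by simp)
        · rw [hL.2] at hx; exact absurd hx (by simp)
      exact huv ((h3 u hu).trans (h3 v hvU).symm)
    · cases e3 : U (0, false)
      · have h3 : ∀ x, U x = true → x = (0, true) := by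
          intro x hx
          rcases ev x with rfl | rfl | rfl | rfl | rfl | rfl
          · rfl
          · rw [e3] at hx; exact absurd hx (by simp)
          · rw [hz] at hx; exact absurd hx (by simp)
          · rw [e1] at hx; exact absurd hx (by simp)
          · rw [hL.1] at hx; exact absurd hx (by simp)
          · rw [hL.2] at hx; exact absurd hx (by simp)
        exact huv ((h3 u hu).trans (h3 v hvU).symm)
      · apply hn0
        intro x hx
        rcases ev x with rfl | rfl | rfl | rfl | rfl | rfl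
        · rw [e2]; rfl
        · rw [e3]; rfl
        · rw [hz]; rfl
        · rw [e1]; rfl
        · exact absurd rfl hx
        · exact absurd rfl hx
  · cases e2 : U (0, true)
    · cases e3 : U (0, false)
      · exfalso
        have h3 : ∀ x, U x = true → x = (1, false) := by
          intro x hx
          rcases ev x with rfl | rfl | rfl | rfl | rfl | rfl
          · rw [e2] at hx; exact absurd hx (by simp)
          · rw [e3] at hx; exact absurd hx (by simp)
          · rw [hz] at hx; exact absurd hx (by simp)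
          · rfl
          · rw [hL.1] at hx; exact absurd hx (by simp)
          · rw [hL.2] at hx; exact absurd hx (by simp)
        exact huv ((h3 u hu).trans (h3 v hvU).symm)
      · refine ⟨false, fun x => ?_⟩
        rcases ev x with rfl | rfl | rfl | rfl | rfl | rfl
        · rw [e2]; decide
        · rw [e3]; decide
        · rw [hz]; decide
        · rw [e1]; decide
        · rw [hL.1]; decide
        · rw [hL.2]; decide
    · cases e3 : U (0, false)
      · refine ⟨true, fun x => ?_⟩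
        rcases ev x with rfl | rfl | rfl | rfl | rfl | rfl
        · rw [e2]; decide
        · rw [e3]; decide
        · rw [hz]; decide
        · rw [e1]; decide
        · rw [hL.1]; decide
        · rw [hL.2]; decide
      · exfalso
        apply hnL
        funext x
        rcases ev x with rfl | rfl | rfl | rfl | rfl | rfl
        · rw [e2]; decide
        · rw [e3]; decide
        · rw [hz]; decide
        · rw [e1]; decide
        · rw [hL.1]; decide
        · rw [hL.2]; decide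

/-! ### cyclic sums -/

/-- comparison on pairs where a cyclic sum vanishes -/
theorem RtE6_le {β : Type*} {G f h : β → β → ℕ} (s : List β) (h0 : cyc G s = 0)
    (hf : ∀ x ∈ s, ∀ y ∈ s, G x y = 0 → f x y ≤ h x y) : cyc f s ≤ cyc h s := by
  have h1 : cyc f s = cyc (fun x y => min (f x y) (h x y)) s :=
    EvLem2_cyc s h0 (fun x hx y hy hG => (min_eq_left (hf x hx y hy hG)).symm)
  rw [h1]
  exact cyc_mono (fun x y => min_le_right _ _) s

/-- the syllables of `thh k` -/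
def RtE6_f (k : ℕ) (q : (Fin 3 × Bool) × ℤ) : List ((Fin 3 × Bool) × ℤ) :=
  if q.1.1 = 1 then [((1, true), sgn q.1 * k), ((1, false), q.2)] else [q]

def RtE6_hd (k : ℕ) (q : (Fin 3 × Bool) × ℤ) : (Fin 3 × Bool) × ℤ :=
  if q.1.1 = 1 then ((1, true), sgn q.1 * k) else q

def RtE6_ls (q : (Fin 3 × Bool) × ℤ) : (Fin 3 × Bool) × ℤ :=
  if q.1.1 = 1 then ((1, false), q.2) else q

def RtE6_in (f : (Fin 3 × Bool) × ℤ → (Fin 3 × Bool) × ℤ → ℕ) (k : ℕ) (q : (Fin 3 × Bool) × ℤ) : ℕ :=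
  if q.1.1 = 1 then f ((1, true), sgn q.1 * k) ((1, false), q.2) else 0

theorem RtE6_lin (f : (Fin 3 × Bool) × ℤ → (Fin 3 × Bool) × ℤ → ℕ) (k : ℕ) (l : List ((Fin 3 × Bool) × ℤ)) :
    ∀ a z : (Fin 3 × Bool) × ℤ, RtE6_in f k a + lin f (RtE6_ls a) (l.flatMap (RtE6_f k)) (RtE6_hd k z) =
      lin (fun a r => RtE6_in f k a + f (RtE6_ls a) (RtE6_hd k r)) a l z := by
  induction l with
  | nil => intro a z; rfl
  | cons b l ih =>
    intro a z
    rw [List.flatMap_cons, lin, ← ih b z]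
    by_cases hb : b.1.1 = 1
    · have e1 : RtE6_f k b = [((1, true), sgn b.1 * k), ((1, false), b.2)] := by simp [RtE6_f, hb]
      have e2 : RtE6_hd k b = ((1, true), sgn b.1 * k) := by simp [RtE6_hd, hb]
      have e3 : RtE6_ls b = ((1, false), b.2) := by simp [RtE6_ls, hb]
      have e4 : RtE6_in f k b = f ((1, true), sgn b.1 * k) ((1, false), b.2) := by simp [RtE6_in, hb]
      rw [e1, e2, e3, e4]
      simp only [List.cons_append, List.nil_append, lin]
      ring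
    · have e1 : RtE6_f k b = [b] := by simp [RtE6_f, hb]
      have e2 : RtE6_hd k b = b := by simp [RtE6_hd, hb]
      have e3 : RtE6_ls b = b := by simp [RtE6_ls, hb]
      have e4 : RtE6_in f k b = 0 := by simp [RtE6_in, hb]
      rw [e1, e2, e3, e4]
      simp only [List.cons_append, List.nil_append, lin]
      ring

theorem RtE6_cyc (f : (Fin 3 × Bool) × ℤ → (Fin 3 × Bool) × ℤ → ℕ) (k : ℕ) (s : List ((Fin 3 × Bool) × ℤ)) :
    cyc f (s.flatMap (RtE6_f k)) = cyc (fun a r => RtE6_in f k a + f (RtE6_ls a) (RtE6_hd k r)) s := by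
  cases s with
  | nil => rfl
  | cons a l =>
    rw [List.flatMap_cons]
    show _ = lin _ a l a
    rw [← RtE6_lin]
    by_cases hb : a.1.1 = 1
    · have e1 : RtE6_f k a = [((1, true), sgn a.1 * k), ((1, false), a.2)] := by simp [RtE6_f, hb]
      have e2 : RtE6_hd k a = ((1, true), sgn a.1 * k) := by simp [RtE6_hd, hb]
      have e3 : RtE6_ls a = ((1, false), a.2) := by simp [RtE6_ls, hb]
      have e4 : RtE6_in f k a = f ((1, true), sgn a.1 * k) ((1, false), a.2) := by simp [RtE6_in, hb]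
      rw [e1, e2, e3, e4]
      rfl
    · have e1 : RtE6_f k a = [a] := by simp [RtE6_f, hb]
      have e2 : RtE6_hd k a = a := by simp [RtE6_hd, hb]
      have e3 : RtE6_ls a = a := by simp [RtE6_ls, hb]
      have e4 : RtE6_in f k a = 0 := by simp [RtE6_in, hb]
      rw [e1, e2, e3, e4, zero_add]
      rfl

/-! ### the word of `th k` -/

theorem RtE6_lett (k : ℕ) (x : Fin 3 × Bool) : thh k (lett x) =
    if x.1 = 1 then lett ((1 : Fin 3), true) * of 2 ^ (sgn x * k) * (lett ((1 : Fin 3), true))⁻¹ else lett x := by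
  rcases x with ⟨i, b⟩
  by_cases h : i = 1
  · subst h
    cases b
    · simp [lett_false, lett_true, thh, sgn, mul_assoc]
    · simp [lett_true, thh, sgn]
  · cases b
    · simp [lett_false, thh, h]
    · simp [lett_true, thh, h]

theorem RtE6_of2 (k : ℕ) : thh k (of 2) = of 2 := by
  simp [thh]

theorem RtE6_mk (k : ℕ) (s : List ((Fin 3 × Bool) × ℤ)) :
    thh k (FreeGroup.mk (expand 2 s)) = FreeGroup.mk (expand 2 (s.flatMap (RtE6_f k))) := by
  induction s with
  | nil => exact map_one _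
  | cons q s ih =>
    rw [SylA_mk_expand_cons, map_mul, map_mul, map_zpow, RtE6_of2, ih, List.flatMap_cons, RtE6_lett]
    by_cases hb : q.1.1 = 1
    · have e1 : RtE6_f k q = [((1, true), sgn q.1 * k), ((1, false), q.2)] := by simp [RtE6_f, hb]
      rw [e1, if_pos hb]
      simp only [List.cons_append, List.nil_append]
      rw [SylA_mk_expand_cons, SylA_mk_expand_cons]
      have e2 : lett ((1 : Fin 3), false) = (lett ((1 : Fin 3), true))⁻¹ := by
        rw [lett_false, lett_true]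
      simp only [e2]
      group
    · have e1 : RtE6_f k q = [q] := by simp [RtE6_f, hb]
      rw [e1, if_neg hb]
      simp only [List.cons_append, List.nil_append]
      rw [SylA_mk_expand_cons]

theorem RtE6_cls (k : ℕ) (s : List ((Fin 3 × Bool) × ℤ)) :
    th k (cls (expand 2 s)) = cls (expand 2 (s.flatMap (RtE6_f k))) := by
  unfold cls
  rw [← RtE6_mk]
  rfl

/-! ### conditions on consecutive pairs -/

open Classical in
/-- `P` holds for all cyclically consecutive pairs -/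
noncomputable def RtE6_Al {β : Type*} (P : β → β → Prop) (s : List β) : Prop :=
  cyc (fun a r => if P a r then 0 else 1) s = 0

theorem RtE6_Al_of {β : Type*} {P : β → β → Prop} {G : β → β → ℕ} {s : List β} (h0 : cyc G s = 0)
    (h : ∀ a ∈ s, ∀ r ∈ s, G a r = 0 → P a r) : RtE6_Al P s := by
  classical
  have := RtE6_le (f := fun a r => if P a r then 0 else 1) (h := fun _ _ => 0) s h0
    (fun x hx y hy hG => by simp [h x hx y hy hG])
  have h1 : cyc (fun _ _ : β => 0) s = 0 := by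
    rw [cyc_fst]
    simp
  unfold RtE6_Al
  rw [h1] at this
  have h2 := Nat.le_zero.mp this
  convert h2

theorem RtE6_Al_le {β : Type*} {P : β → β → Prop} {f h : β → β → ℕ} {s : List β} (h0 : RtE6_Al P s)
    (hf : ∀ a r, P a r → f a r ≤ h a r) : cyc f s ≤ cyc h s := by
  classical
  refine RtE6_le s (G := fun a r => if P a r then 0 else 1) ?_ ?_
  · unfold RtE6_Al at h0
    convert h0
  · intro x _ y _ hG
    apply hf
    by_contra hc
    simp [hc] at hG

theorem RtE6_Al_and {β : Type*} {P Q : β → β → Prop} {s : List β} (h1 : RtE6_Al P s)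
    (h2 : RtE6_Al Q s) : RtE6_Al (fun a r => P a r ∧ Q a r) s := by
  classical
  unfold RtE6_Al at h1 h2
  refine RtE6_Al_of (G := fun a r => (if P a r then 0 else 1) + (if Q a r then 0 else 1)) ?_ ?_
  · rw [cyc_add]
    have e1 : cyc (fun a r => if P a r then 0 else 1) s = 0 := by convert h1
    have e2 : cyc (fun a r => if Q a r then 0 else 1) s = 0 := by convert h2
    rw [e1, e2]
  · intro a _ r _ h
    constructor
    · by_contra hc
      simp [hc] at h
    · by_contra hc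
      simp [hc] at h

theorem RtE6_Al_imp {β : Type*} {P Q : β → β → Prop} {s : List β} (h1 : RtE6_Al P s)
    (h : ∀ a r, P a r → Q a r) : RtE6_Al Q s := by
  classical
  unfold RtE6_Al at h1
  refine RtE6_Al_of (G := fun a r => (if P a r then 0 else 1)) ?_ ?_
  · convert h1
  · intro a _ r _ h2
    apply h
    by_contra hc
    simp [hc] at h2

theorem RtE6_Al_mem {β : Type*} {P : β → Prop} {s : List β} (h : ∀ a ∈ s, P a) :
    RtE6_Al (fun a r => P a ∧ P r) s := by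
  refine RtE6_Al_of (G := fun _ _ => 0) ?_ ?_
  · rw [cyc_fst]
    simp
  · intro a ha r hr _
    exact ⟨h a ha, h r hr⟩

/-- from an inequality of cyclic sums to vanishing of the defect -/
theorem RtE6_Al_def {β : Type*} {P : β → β → Prop} {f d h : β → β → ℕ} {s : List β}
    (h0 : RtE6_Al P s) (hf : ∀ a r, P a r → f a r + d a r ≤ h a r) (hs : cyc h s ≤ cyc f s) :
    cyc d s = 0 := by
  have h1 := RtE6_Al_le h0 (f := fun a r => f a r + d a r) (h := h) hf
  rw [cyc_add] at h1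
  omega

abbrev RtE6_S := (Fin 3 × Bool) × ℤ

theorem RtE6_cnt {s : List RtE6_S} (hs : SValid 2 s) {Ω : CC} (hΩ : cls (expand 2 s) = Ω)
    {i : Fin 3} (hi : i ≠ 2) : (s.map (fun a => if a.1.1 = i then 1 else 0)).sum = cnt Ω i := by
  rw [← hΩ, cnt_cls hs.2, cntL_expand_ne 2 s hi]
  unfold cntL
  clear hs hΩ
  induction s with
  | nil => rfl
  | cons a s ih =>
    rw [List.map_cons, List.sum_cons, List.map_cons, List.countP_cons, ih]
    by_cases h : a.1.1 = i
    · simp [h, add_comm]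
    · simp [h]

theorem RtE6_cnt1 {s : List RtE6_S} (hs : SValid 2 s) {Ω : CC} (hΩ : cls (expand 2 s) = Ω)
    {i : Fin 3} (hi : i ≠ 2) : cyc (fun a _ => if a.1.1 = i then 1 else 0) s = cnt Ω i := by
  rw [cyc_fst, RtE6_cnt hs hΩ hi]

theorem RtE6_cnt2 {s : List RtE6_S} (hs : SValid 2 s) {Ω : CC} (hΩ : cls (expand 2 s) = Ω)
    {i : Fin 3} (hi : i ≠ 2) : cyc (fun _ r => if r.1.1 = i then 1 else 0) s = cnt Ω i := by
  rw [cyc_snd, RtE6_cnt hs hΩ hi]

/-- basic facts on pairs -/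
def RtE6_P0 (a r : RtE6_S) : Prop := (a.1.1 ≠ 2 ∧ r.1.1 ≠ 2) ∧ ¬ (r.1 = bar a.1 ∧ a.2 = 0)

theorem RtE6_AP0 {s : List RtE6_S} (hs : SValid 2 s) : RtE6_Al RtE6_P0 s := by
  refine RtE6_Al_and (RtE6_Al_mem hs.1) ?_
  refine RtE6_Al_of ((SValid_iff 2 s hs.1).mp hs) ?_
  intro a _ r _ h hc
  simp [hc] at h

/-- the crossing term -/
def RtE6_g (Y : Ct) (a r : RtE6_S) : ℕ :=
  if a.2 = 0 then (if Y a.1 = Y (bar r.1) then 0 else 1) else
    (if Y a.1 then 1 else 0) + (if Y (bar r.1) then 1 else 0)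

theorem RtE6_gc {V : CC} {s : List RtE6_S} (hs : SValid 2 s) (hV : cls (expand 2 s) = V) {Y : Ct}
    (hY : Lt Y) : cyc (RtE6_g Y) s = capC V Y := by
  have h := g_cap hs hV 0 hY
  rw [pot_zero] at h
  rw [h]
  unfold gc
  congr 1
  funext a r
  simp only [RtE6_g, Pi.zero_apply, add_zero, sub_zero]

/-- no two consecutive `t` letters -/
theorem RtE6_ntt {n K k : ℕ} {Ω : CC} (T : Th1 n K k Ω) {s : List RtE6_S} (hs : SValid 2 s)
    (hΩ : cls (expand 2 s) = Ω) :
    RtE6_Al (fun a r => ¬ (a.2 = 0 ∧ a.1.1 = 1 ∧ r.1.1 = 1)) s := by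
  obtain ⟨_, h2, h3, _⟩ := th1_facts T
  have h4 : cyc (fun a r : RtE6_S => 2 * (if a.2 = 0 ∧ a.1.1 = 1 ∧ r.1.1 = 1 then 1 else 0)) s = 0 := by
    refine RtE6_Al_def (P := fun _ _ => True) (f := RtE6_g (PrC 1))
      (h := fun a r => (if a.1.1 = 1 then 1 else 0) + (if r.1.1 = 1 then 1 else 0)) ?_ ?_ ?_
    · refine RtE6_Al_of (G := fun _ _ => 0) ?_ (fun _ _ _ _ _ => trivial)
      rw [cyc_fst]
      simp
    · rintro ⟨⟨i, x⟩, p⟩ ⟨⟨j, y⟩, q⟩ -
      simp only [RtE6_g, PrC, bar]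
      by_cases hp : p = 0 <;> by_cases hi : i = 1 <;> by_cases hj : j = 1 <;> simp [hp, hi, hj]
    · rw [cyc_add, RtE6_cnt1 hs hΩ (by decide), RtE6_cnt2 hs hΩ (by decide), RtE6_gc hs hΩ
        (by simp [Lt, PrC]), h3]
      omega
  refine RtE6_Al_of h4 ?_
  intro a _ r _ h hc
  simp [hc] at h

theorem RtE6_sv {n K k : ℕ} {Ω : CC} (T : Th1 n K k Ω) {s : List RtE6_S} (hs : SValid 2 s)
    (hΩ : cls (expand 2 s) = Ω) : SValid 2 (s.flatMap (RtE6_f k)) := by
  rw [SValid_iff]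
  · rw [RtE6_cyc]
    refine Nat.le_zero.mp (le_trans (RtE6_Al_le (RtE6_Al_and (RtE6_AP0 hs) (RtE6_ntt T hs hΩ))
      (h := fun _ _ => 0) ?_) (le_of_eq ?_))
    · have hk := T.hk
      rintro ⟨⟨i, x⟩, p⟩ ⟨⟨j, y⟩, q⟩ ⟨⟨⟨h1, h2⟩, h3⟩, h4⟩
      simp only [ne_eq, Nat.le_zero] at h1 h2 h3 h4 ⊢
      have hi : i = 0 ∨ i = 1 := by omega
      have hj : j = 0 ∨ j = 1 := by omega
      have hk0 : (k : ℤ) ≠ 0 := by omega
      have hk1 : k ≠ 0 := by omega
      rcases hi with rfl | rfl <;> rcases hj with rfl | rfl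
      · simp [RtE6_in, RtE6_ls, RtE6_hd, bar] at h3 ⊢
        exact h3
      · simp [RtE6_in, RtE6_ls, RtE6_hd, bar]
      · cases x <;> simp [RtE6_in, RtE6_ls, RtE6_hd, bar, sgn, hk1]
      · have : p ≠ 0 := by simpa using h4
        cases x <;> simp [RtE6_in, RtE6_ls, RtE6_hd, bar, sgn, hk1, this]
    · rw [cyc_fst]
      simp
  · intro q hq
    obtain ⟨a, ha, hq⟩ := List.mem_flatMap.mp hq
    have h2 := hs.1 a ha
    unfold RtE6_f at hq
    split_ifs at hq with h
    · simp only [List.mem_cons, List.not_mem_nil, or_false] at hq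
      rcases hq with rfl | rfl
      · simp
      · simp
    · simp only [List.mem_cons, List.not_mem_nil, or_false] at hq
      rw [hq]
      exact h2

/-- the window -/
def RtE6_W (b : Bool) : Ct := fun x => decide (x = (1, false)) || decide (x = (0, b))

/-- the structure of the syllables -/
def RtE6_P1 (b : Bool) (κ : ℤ) (a r : RtE6_S) : Prop :=
  (a.1 = (0, !b) ∧ r.1 = (0, b) ∧ a.2 ≠ 0) ∨ (a.1 = (0, b) ∧ r.1.1 = 1 ∧ (a.2 = 0 ∨ a.2 = -κ)) ∨
    (a.1.1 = 1 ∧ r.1 = (0, !b) ∧ (a.2 = 0 ∨ a.2 = κ))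

theorem RtE6_AP1 {n K k : ℕ} {Ω : CC} (T : Th1 n K k Ω) {s : List RtE6_S} (hs : SValid 2 s)
    (hΩ : cls (expand 2 s) = Ω) {b : Bool} {κ : ℤ}
    (hR : RotW n (th k Ω) (RtE6_W b) (sgl (0, b)) κ) : RtE6_Al (RtE6_P1 b κ) s := by
  have hV : cls (expand 2 (s.flatMap (RtE6_f k))) = th k Ω := by
    rw [← RtE6_cls, hΩ]
  have h1 := rot_str T.H hR (RtE6_sv T hs hΩ) hV
  rw [RtE6_cyc] at h1
  refine RtE6_Al_imp (RtE6_Al_and (RtE6_Al_and (RtE6_AP0 hs) (RtE6_ntt T hs hΩ))
    (RtE6_Al_of (P := fun a r => RtE6_P0 a r → ¬ (a.2 = 0 ∧ a.1.1 = 1 ∧ r.1.1 = 1) →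
      RtE6_P1 b κ a r) h1 ?_)) (fun a r h => h.2 h.1.1 h.1.2)
  rintro ⟨⟨i, x⟩, p⟩ _ ⟨⟨j, y⟩, q⟩ _ h0 ⟨⟨h1, h2⟩, h3⟩ h4
  have h5 := (Nat.add_eq_zero_iff.mp h0).2
  clear h0
  simp only [ne_eq] at h1 h2 h3 h4
  have hi : i = 0 ∨ i = 1 := by omega
  have hj : j = 0 ∨ j = 1 := by omega
  rw [ite_eq_left_iff] at h5
  simp only [one_ne_zero, imp_false, not_not] at h5
  rcases hi with rfl | rfl <;> rcases hj with rfl | rfl
  · cases b <;> cases x <;> cases y <;>
      simp [RtE6_ls, RtE6_hd, RtE6_W, sgl, bar, RtE6_P1] at h3 h5 ⊢ <;> tauto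
  · cases b <;> cases x <;> cases y <;>
      simp [RtE6_ls, RtE6_hd, RtE6_W, sgl, bar, RtE6_P1] at h3 h5 ⊢ <;> tauto
  · cases b <;> cases x <;> cases y <;>
      simp [RtE6_ls, RtE6_hd, RtE6_W, sgl, bar, RtE6_P1] at h3 h5 ⊢ <;> tauto
  · cases b <;> cases x <;> cases y <;>
      simp [RtE6_ls, RtE6_hd, RtE6_W, sgl, bar, RtE6_P1] at h3 h4 h5 ⊢ <;> tauto

/-- the number of letters `(0, !b)` is at least `cnt Ω 1` -/
theorem RtE6_y {s : List RtE6_S} (hs : SValid 2 s) {Ω : CC}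
    (hΩ : cls (expand 2 s) = Ω) {b : Bool} {κ : ℤ} (h : RtE6_Al (RtE6_P1 b κ) s) :
    cnt Ω 1 ≤ cyc (fun a _ : RtE6_S => if a.1 = (0, !b) then 1 else 0) s := by
  rw [cyc_fst, ← cyc_snd, ← RtE6_cnt1 hs hΩ (i := 1) (by decide)]
  apply RtE6_Al_le h
  rintro a r (⟨h1, h2, h3⟩ | ⟨h1, h2, h3⟩ | ⟨h1, h2, h3⟩)
  · rw [h1]; simp
  · rw [h1]; simp
  · rw [h2, if_pos rfl]
    split_ifs <;> omega

/-- the cut `{(1, δ), (0, b)}` -/
def RtE6_C (b δ : Bool) : Ct := fun x => decide (x = (1, δ)) || decide (x = (0, b))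

theorem RtE6_cut {n K k : ℕ} {Ω : CC} (T : Th1 n K k Ω) {s : List RtE6_S} (hs : SValid 2 s)
    (hΩ : cls (expand 2 s) = Ω) {b : Bool} {κ : ℤ}
    (hR : RotW n (th k Ω) (RtE6_W b) (sgl (0, b)) κ) :
    ∃ δ : Bool, capC Ω (RtE6_C b δ) = cnt Ω 1 := by
  have hA := RtE6_AP1 T hs hΩ hR
  obtain ⟨f0, f1, f2, _⟩ := th1_facts T
  have h4 := T.H.h4
  have main : ∀ C : Ct, Lt C → capC (sq Qt Ω) C = n → Crossg C (PrC 1) →
      ∃ δ : Bool, capC Ω (RtE6_C b δ) = cnt Ω 1 := by
    intro C hL hc hX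
    -- the value on the generator 1
    have hd : ∃ δ : Bool, C (1, δ) = true ∧ C (1, !δ) = false := by
      obtain ⟨⟨⟨i, x⟩, hx, hx1⟩, _, ⟨⟨j, y⟩, hy, hy1⟩, _⟩ := hX
      have e1 : i = 1 := by simpa [PrC] using hx1
      have e2 : j = 1 := by simpa [PrC] using hy1
      subst e1
      subst e2
      refine ⟨x, hx, ?_⟩
      have : y ≠ x := by
        intro h
        rw [h, hx] at hy
        exact absurd hy (by simp)
      have hy' : y = !x := by
        cases x <;> cases y <;> simp_all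
      rw [← hy']
      exact hy
    obtain ⟨δ, hd1, hd2⟩ := hd
    have h0 : ∃ c : Bool, C (0, c) = true := by
      obtain ⟨_, ⟨⟨i, x⟩, hx, hx1⟩, _, _⟩ := hX
      have e1 : i ≠ 1 := by simpa [PrC] using hx1
      by_cases e2 : i = 2
      · subst e2
        cases x
        · rw [hL.2] at hx; exact absurd hx (by simp)
        · rw [hL.1] at hx; exact absurd hx (by simp)
      · have e3 : i = 0 := by omega
        subst e3
        exact ⟨x, hx⟩
    have hcap : capC Ω C = cnt Ω 1 := by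
      have e := pw_cap (e := fun i => if Qt i then 2 else 1) (by intro i; split_ifs <;> omega) Ω C
      have e' : capC (pw (fun i => if Qt i then 2 else 1) Ω) C = n := hc
      rw [e'] at e
      have hne : C (1, true) ≠ C (1, false) := by
        cases δ
        · simp at hd2; rw [hd1, hd2]; simp
        · simp at hd2; rw [hd1, hd2]; simp
      simp only [Fin.sum_univ_three, Qt] at e
      rw [if_neg hne] at e
      simp at e
      omega
    have hg := RtE6_gc hs hΩ hL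
    rw [hcap] at hg
    have hyC : C (0, !b) = false := by
      cases hyc : C (0, !b)
      · rfl
      exfalso
      have h1 : cyc (fun a _ : RtE6_S => 2 * (if a.1 = (0, !b) then 1 else 0)) s ≤
          cyc (RtE6_g C) s := by
        apply RtE6_Al_le hA
        rintro ⟨a, p⟩ ⟨r, q⟩ (⟨h1, h2, h3⟩ | ⟨h1, h2, h3⟩ | ⟨h1, h2, h3⟩)
        · simp only at h1 h2 h3
          subst h1
          subst h2
          simp [RtE6_g, h3, hyc, bar]
        · simp only at h1
          subst h1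
          simp
        · simp only at h1
          have : a ≠ (0, !b) := by
            intro h
            rw [h] at h1
            simp at h1
          simp [this]
      have h2 := RtE6_y hs hΩ hA
      have h3 : cyc (fun a _ : RtE6_S => 2 * (if a.1 = (0, !b) then 1 else 0)) s =
          2 * cyc (fun a _ : RtE6_S => (if a.1 = (0, !b) then 1 else 0)) s := by
        simp only [two_mul]
        rw [cyc_add]
      omega
    have hxC : C (0, b) = true := by
      obtain ⟨c, hc0⟩ := h0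
      have : c = b := by
        cases b <;> cases c <;> simp_all
      rw [← this]
      exact hc0
    refine ⟨δ, ?_⟩
    rw [← hcap]
    apply capC_congr
    rintro ⟨i, x⟩
    have hi : i = 0 ∨ i = 1 ∨ i = 2 := by omega
    rcases hi with rfl | rfl | rfl
    · cases b <;> cases x <;> simp_all [RtE6_C]
    · cases δ <;> cases x <;> simp_all [RtE6_C]
    · have h1 := hL.1
      have h2 := hL.2
      cases x <;> simp_all [RtE6_C]
  obtain ⟨C, hC, hX⟩ := T.X
  have h2 := hC.1.2 2 rfl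
  cases hc : C (2, true)
  · exact main C ⟨hc, h2 ▸ hc⟩ hC.2 hX
  · refine main (fun x => !C x) ⟨by simp [hc], by simp [← h2, hc]⟩ ?_ (Crossg_compl hX)
    rw [capC_compl]
    exact hC.2

/-- first structure condition from the cut -/
theorem RtE6_AP2 {n K k : ℕ} {Ω : CC} (T : Th1 n K k Ω) {s : List RtE6_S} (hs : SValid 2 s)
    (hΩ : cls (expand 2 s) = Ω) {b δ : Bool} {κ : ℤ}
    (hR : RotW n (th k Ω) (RtE6_W b) (sgl (0, b)) κ) (hC : capC Ω (RtE6_C b δ) = cnt Ω 1) :
    RtE6_Al (fun a r => ¬ ((a.1 = (0, b) ∧ r.1 = (1, !δ) ∧ a.2 ≠ 0) ∨ (a.1 = (1, δ) ∧ a.2 ≠ 0))) s := by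
  have hA := RtE6_AP1 T hs hΩ hR
  have hg := RtE6_gc hs hΩ (Y := RtE6_C b δ) (by simp [Lt, RtE6_C])
  rw [hC] at hg
  have h1 : cyc (fun a r : RtE6_S => if (a.1 = (0, b) ∧ r.1 = (1, !δ) ∧ a.2 ≠ 0) ∨
      (a.1 = (1, δ) ∧ a.2 ≠ 0) then 1 else 0) s = 0 := by
    refine RtE6_Al_def hA (f := fun a r => (if r.1 = (1, δ) then 1 else 0) +
      (if a.1 = (1, !δ) then 1 else 0)) (h := RtE6_g (RtE6_C b δ)) ?_ ?_
    · rintro ⟨⟨i, x⟩, p⟩ ⟨⟨j, y⟩, q⟩ h
      unfold RtE6_P1 at h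
      simp only [Prod.mk.injEq] at h
      rcases h with ⟨⟨rfl, rfl⟩, ⟨rfl, rfl⟩, h3⟩ | ⟨⟨rfl, rfl⟩, rfl, h3⟩ | ⟨rfl, ⟨rfl, rfl⟩, h3⟩
      · simp [RtE6_g, RtE6_C, bar]
      · by_cases hp : p = 0
        · cases y <;> cases δ <;> simp [RtE6_g, RtE6_C, bar, hp]
        · cases y <;> cases δ <;> simp [RtE6_g, RtE6_C, bar, hp]
      · by_cases hp : p = 0
        · cases x <;> cases δ <;> simp [RtE6_g, RtE6_C, bar, hp]
        · cases x <;> cases δ <;> simp [RtE6_g, RtE6_C, bar, hp]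
    · rw [hg, cyc_add, cyc_snd, ← cyc_fst, ← cyc_add, ← RtE6_cnt1 hs hΩ (i := 1) (by decide)]
      apply cyc_mono
      rintro ⟨⟨i, x⟩, p⟩ _
      by_cases hi : i = 1
      · subst hi
        cases x <;> cases δ <;> simp
      · simp [hi]
  refine RtE6_Al_of h1 ?_
  intro a _ r _ h hc
  rw [if_pos hc] at h
  exact absurd h (by simp)

/-- second structure condition from the window -/
theorem RtE6_AP3 {n K k : ℕ} {Ω : CC} (T : Th1 n K k Ω) {s : List RtE6_S} (hs : SValid 2 s)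
    (hΩ : cls (expand 2 s) = Ω) {b δ : Bool} {κ : ℤ}
    (hR : RotW n (th k Ω) (RtE6_W b) (sgl (0, b)) κ) (hC : capC Ω (RtE6_C b δ) = cnt Ω 1) :
    RtE6_Al (fun a r => ¬ ((a.1 = (0, b) ∧ r.1 = (1, δ) ∧ a.2 = 0) ∨ (a.1 = (1, !δ) ∧ a.2 = 0))) s := by
  have hA := RtE6_Al_and (RtE6_AP1 T hs hΩ hR) (RtE6_AP2 T hs hΩ hR hC)
  have hV : cls (expand 2 (s.flatMap (RtE6_f k))) = th k Ω := by
    rw [← RtE6_cls, hΩ]
  obtain ⟨f0, f1, f2, _⟩ := th1_facts T
  have hg := RtE6_gc (RtE6_sv T hs hΩ) hV (Y := RtE6_W b) (by simp [Lt, RtE6_W])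
  rw [(RtE6_U T hR).1, RtE6_cyc] at hg
  have hk := T.hk
  have hk0 : (k : ℤ) ≠ 0 := by omega
  have hk1 : k ≠ 0 := by omega
  have h1 : cyc (fun a r : RtE6_S => 2 * if (a.1 = (0, b) ∧ r.1 = (1, δ) ∧ a.2 = 0) ∨
      (a.1 = (1, !δ) ∧ a.2 = 0) then 1 else 0) s = 0 := by
    refine RtE6_Al_def hA
      (f := fun a r => RtE6_in (RtE6_g (RtE6_W b)) k a + RtE6_g (RtE6_W b) (RtE6_ls a) (RtE6_hd k r))
      (h := fun a r => 2 * ((if r.1 = (1, δ) then 1 else 0) + (if a.1 = (1, !δ) then 1 else 0))) ?_ ?_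
    · rintro ⟨⟨i, x⟩, p⟩ ⟨⟨j, y⟩, q⟩ ⟨h, h'⟩
      unfold RtE6_P1 at h
      simp only [Prod.mk.injEq] at h
      rcases h with ⟨⟨rfl, rfl⟩, ⟨rfl, rfl⟩, h3⟩ | ⟨⟨rfl, rfl⟩, rfl, h3⟩ | ⟨rfl, ⟨rfl, rfl⟩, h3⟩
      · cases y <;> simp [RtE6_g, RtE6_W, RtE6_in, RtE6_ls, RtE6_hd, bar]
      · by_cases hp : p = 0
        · cases y <;> cases δ <;> simp [RtE6_g, RtE6_W, RtE6_in, RtE6_ls, RtE6_hd, bar, hp]
        · cases y <;> cases δ <;>
            simp [RtE6_g, RtE6_W, RtE6_in, RtE6_ls, RtE6_hd, bar, hp] at h' ⊢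
      · by_cases hp : p = 0
        · cases x <;> cases δ <;>
            simp [RtE6_g, RtE6_W, RtE6_in, RtE6_ls, RtE6_hd, bar, hp, sgn, hk1]
        · cases x <;> cases δ <;>
            simp [RtE6_g, RtE6_W, RtE6_in, RtE6_ls, RtE6_hd, bar, hp, sgn, hk1] at h' ⊢
    · rw [hg]
      simp only [two_mul]
      have e : cyc (fun a r : RtE6_S => (if r.1 = (1, δ) then 1 else 0) +
          (if a.1 = (1, !δ) then 1 else 0)) s ≤ cnt Ω 1 := by
        rw [cyc_add, cyc_snd, ← cyc_fst, ← cyc_add, ← RtE6_cnt1 hs hΩ (i := 1) (by decide)]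
        apply cyc_mono
        rintro ⟨⟨i, x⟩, p⟩ _
        by_cases hi : i = 1
        · subst hi
          cases x <;> cases δ <;> simp
        · simp [hi]
      rw [cyc_add]
      refine le_trans (Nat.add_le_add e e) ?_
      omega
  refine RtE6_Al_of h1 ?_
  intro a _ r _ h hc
  rw [if_pos hc] at h
  exact absurd h (by simp)

/-- the final structure condition -/
def RtE6_F (b δ : Bool) (κ : ℤ) (a r : RtE6_S) : Prop :=
  (a.1 = (0, !b) ∧ r.1 = (0, b)) ∨ (a.1 = (0, b) ∧ r.1 = (1, δ) ∧ a.2 = -κ) ∨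
    (a.1 = (0, b) ∧ r.1 = (1, !δ) ∧ a.2 = 0) ∨ (a.1 = (1, δ) ∧ r.1 = (0, !b) ∧ a.2 = 0) ∨
    (a.1 = (1, !δ) ∧ r.1 = (0, !b) ∧ a.2 = κ)

theorem RtE6_AF {n K k : ℕ} {Ω : CC} (T : Th1 n K k Ω) {s : List RtE6_S} (hs : SValid 2 s)
    (hΩ : cls (expand 2 s) = Ω) {b δ : Bool} {κ : ℤ}
    (hR : RotW n (th k Ω) (RtE6_W b) (sgl (0, b)) κ) (hC : capC Ω (RtE6_C b δ) = cnt Ω 1) :
    RtE6_Al (RtE6_F b δ κ) s := by
  refine RtE6_Al_imp (RtE6_Al_and (RtE6_AP1 T hs hΩ hR) (RtE6_Al_and (RtE6_AP2 T hs hΩ hR hC)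
    (RtE6_AP3 T hs hΩ hR hC))) ?_
  rintro ⟨⟨i, x⟩, p⟩ ⟨⟨j, y⟩, q⟩ ⟨h, h', h''⟩
  unfold RtE6_P1 at h
  simp only [Prod.mk.injEq] at h
  rcases h with ⟨⟨rfl, rfl⟩, ⟨rfl, rfl⟩, h3⟩ | ⟨⟨rfl, rfl⟩, rfl, h3⟩ | ⟨rfl, ⟨rfl, rfl⟩, h3⟩
  · simp [RtE6_F]
  · cases y <;> cases δ <;> simp [RtE6_F] at h' h'' ⊢ <;> tauto
  · cases x <;> cases δ <;> simp [RtE6_F] at h' h'' ⊢ <;> tauto

/-! ### the two automorphisms agree up to conjugation -/

def RtE6_D (δ : Bool) (κ : ℤ) : FreeGroup (Fin 3) := (lett ((1 : Fin 3), δ))⁻¹ * of 2 ^ κ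

def RtE6_Q (b δ : Bool) (κ : ℤ) (g : FreeGroup (Fin 3)) : Prop :=
  pot 2 (fun x => κ * ind (sgl ((0 : Fin 3), b)) x) g =
    (RtE6_D δ κ)⁻¹ * wh (1, δ) (RtE6_C b δ) g * RtE6_D δ κ

theorem RtE6_Qmul {b δ : Bool} {κ : ℤ} {g h : FreeGroup (Fin 3)} (h1 : RtE6_Q b δ κ g)
    (h2 : RtE6_Q b δ κ h) : RtE6_Q b δ κ (g * h) := by
  unfold RtE6_Q at *
  rw [map_mul, map_mul, h1, h2]
  group

theorem RtE6_Qone (b δ : Bool) (κ : ℤ) : RtE6_Q b δ κ 1 := by
  unfold RtE6_Q
  rw [map_one, map_one]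
  group

theorem RtE6_pc (p : Fin 3 × Bool → ℤ) : pot 2 p (of 2) = of 2 := by
  simp [pot, potFun]

theorem RtE6_px (κ : ℤ) (b : Bool) : pot 2 (fun x => κ * ind (sgl ((0 : Fin 3), b)) x)
    (lett ((0 : Fin 3), b)) = lett (0, b) * of 2 ^ κ := by
  rw [pot_lett_ne _ (show ((0 : Fin 3), b).1 ≠ 2 by simp)]
  cases b <;> simp [ind, sgl, bar]

theorem RtE6_pt (κ : ℤ) (b δ : Bool) : pot 2 (fun x => κ * ind (sgl ((0 : Fin 3), b)) x)
    (lett ((1 : Fin 3), δ)) = lett (1, δ) := by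
  rw [pot_lett_ne _ (show ((1 : Fin 3), δ).1 ≠ 2 by simp)]
  cases b <;> cases δ <;> simp [ind, sgl, bar]

theorem RtE6_wc (b δ : Bool) : wh (1, δ) (RtE6_C b δ) (of 2) = of 2 := by
  have := wh_lett_ne (1, δ) (RtE6_C b δ) (x := (2, true)) (by simp)
  rw [lett_true] at this
  rw [this]
  simp [RtE6_C, bar]

theorem RtE6_wx (b δ : Bool) : wh (1, δ) (RtE6_C b δ) (lett ((0 : Fin 3), b)) =
    lett (0, b) * lett (1, δ) := by
  rw [wh_lett_ne (1, δ) (RtE6_C b δ) (x := (0, b)) (by simp)]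
  cases b <;> simp [RtE6_C, bar]

theorem RtE6_ly (b : Bool) : lett ((0 : Fin 3), !b) = (lett (0, b))⁻¹ := lett_bar (0, b)

theorem RtE6_lt (δ : Bool) : lett ((1 : Fin 3), !δ) = (lett (1, δ))⁻¹ := lett_bar (1, δ)

theorem RtE6_t1 (b δ : Bool) (κ m : ℤ) : RtE6_Q b δ κ (lett (0, !b) * of 2 ^ m *
    (lett (0, b) * of 2 ^ (-κ) * (lett (1, δ) * of 2 ^ (0 : ℤ)))) := by
  unfold RtE6_Q RtE6_D
  simp only [map_mul, map_zpow, RtE6_ly, RtE6_lt, map_inv, RtE6_pc, RtE6_px, RtE6_pt, RtE6_wc,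
    RtE6_wx, wh_lett_self]
  group

theorem RtE6_t2 (b δ : Bool) (κ m : ℤ) : RtE6_Q b δ κ (lett (0, !b) * of 2 ^ m *
    (lett (0, b) * of 2 ^ (0 : ℤ) * (lett (1, !δ) * of 2 ^ κ))) := by
  unfold RtE6_Q RtE6_D
  simp only [map_mul, map_zpow, RtE6_ly, RtE6_lt, map_inv, RtE6_pc, RtE6_px, RtE6_pt, RtE6_wc,
    RtE6_wx, wh_lett_self]
  group

open Classical in
theorem RtE6_ind (b δ : Bool) (κ : ℤ) : ∀ (m : ℕ) (a : RtE6_S) (l : List RtE6_S) (z : RtE6_S),
    l.length ≤ m → a.1 = (0, !b) → z.1 = (0, !b) →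
    lin (fun a r => if RtE6_F b δ κ a r then 0 else 1) a l z = 0 →
    RtE6_Q b δ κ (FreeGroup.mk (expand 2 (a :: l))) := by
  intro m
  induction m using Nat.strong_induction_on with
  | _ m ih =>
  intro a l z hl ha hz h
  obtain ⟨a1, m1⟩ := a
  simp only at ha
  subst ha
  have F1 : ∀ (r : RtE6_S) , RtE6_F b δ κ ((0, !b), m1) r → r.1 = (0, b) := by
    rintro ⟨r, q⟩ h
    unfold RtE6_F at h
    rcases h with h | h | h | h | h
    · exact h.2
    · have := h.1; cases b <;> simp at this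
    · have := h.1; cases b <;> simp at this
    · have := h.1; simp at this
    · have := h.1; simp at this
  rcases l with _ | ⟨⟨a2, m2⟩, l⟩
  · exfalso
    simp only [lin] at h
    have h1 : RtE6_F b δ κ ((0, !b), m1) z := by
      by_contra hc
      simp [hc] at h
    have h2 := F1 z h1
    rw [hz] at h2
    cases b <;> simp at h2
  · simp only [lin] at h
    have h1 : RtE6_F b δ κ ((0, !b), m1) (a2, m2) := by
      by_contra hc
      simp [hc] at h
    have h2 : a2 = (0, b) := F1 _ h1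
    subst h2
    rw [if_pos h1, zero_add] at h
    have F2 : ∀ (r : RtE6_S) , RtE6_F b δ κ ((0, b), m2) r →
        (r.1 = (1, δ) ∧ m2 = -κ) ∨ (r.1 = (1, !δ) ∧ m2 = 0) := by
      rintro ⟨r, q⟩ h
      unfold RtE6_F at h
      rcases h with h | h | h | h | h
      · have := h.1; cases b <;> simp at this
      · exact Or.inl h.2
      · exact Or.inr h.2
      · have := h.1; simp at this
      · have := h.1; simp at this
    rcases l with _ | ⟨⟨a3, m3⟩, l⟩
    · exfalso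
      simp only [lin] at h
      have h3 : RtE6_F b δ κ ((0, b), m2) z := by
        by_contra hc
        simp [hc] at h
      rcases F2 z h3 with h4 | h4
      · rw [hz] at h4; simp at h4
      · rw [hz] at h4; simp at h4
    · simp only [lin] at h
      have h3 : RtE6_F b δ κ ((0, b), m2) (a3, m3) := by
        by_contra hc
        simp [hc] at h
      rw [if_pos h3, zero_add] at h
      have h4 := F2 _ h3
      simp only at h4
      -- the third syllable
      have F3 : ∀ (r : RtE6_S), RtE6_F b δ κ (a3, m3) r → r.1 = (0, !b) ∧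
          (a3 = (1, δ) → m3 = 0) ∧ (a3 = (1, !δ) → m3 = κ) := by
        rintro ⟨r, q⟩ h
        unfold RtE6_F at h
        simp only at h
        rcases h4 with ⟨rfl, _⟩ | ⟨rfl, _⟩
        · rcases h with h | h | h | h | h
          · have := h.1; simp at this
          · have := h.1; simp at this
          · have := h.1; simp at this
          · refine ⟨h.2.1, fun _ => h.2.2, fun h' => ?_⟩
            cases δ <;> simp at h'
          · have := h.1; cases δ <;> simp at this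
        · rcases h with h | h | h | h | h
          · have := h.1; simp at this
          · have := h.1; simp at this
          · have := h.1; simp at this
          · have := h.1; cases δ <;> simp at this
          · refine ⟨h.2.1, fun h' => ?_, fun _ => h.2.2⟩
            cases δ <;> simp at h'
      have tri : (a3 = (1, δ) → m3 = 0) → (a3 = (1, !δ) → m3 = κ) →
          RtE6_Q b δ κ (lett (0, !b) * of 2 ^ m1 * (lett (0, b) * of 2 ^ m2 *
            (lett a3 * of 2 ^ m3))) := by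
        intro e1 e2
        rcases h4 with ⟨rfl, rfl⟩ | ⟨rfl, rfl⟩
        · rw [e1 rfl]
          exact RtE6_t1 b δ κ m1
        · rw [e2 rfl]
          exact RtE6_t2 b δ κ m1
      have key : (a3 = (1, δ) → m3 = 0) → (a3 = (1, !δ) → m3 = κ) →
          RtE6_Q b δ κ (FreeGroup.mk (expand 2 l)) →
          RtE6_Q b δ κ (FreeGroup.mk (expand 2 (((0, !b), m1) :: ((0, b), m2) :: (a3, m3) :: l))) := by
        intro e1 e2 e3
        rw [SylA_mk_expand_cons, SylA_mk_expand_cons, SylA_mk_expand_cons]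
        have e4 := RtE6_Qmul (tri e1 e2) e3
        simp only [mul_assoc] at e4 ⊢
        exact e4
      rcases l with _ | ⟨a4, l⟩
      · simp only [lin] at h
        have h5 : RtE6_F b δ κ (a3, m3) z := by
          by_contra hc
          simp [hc] at h
        obtain ⟨_, e1, e2⟩ := F3 z h5
        refine key e1 e2 ?_
        exact RtE6_Qone b δ κ
      · simp only [lin] at h
        have h5 : RtE6_F b δ κ (a3, m3) a4 := by
          by_contra hc
          simp [hc] at h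
        rw [if_pos h5, zero_add] at h
        obtain ⟨e0, e1, e2⟩ := F3 a4 h5
        refine key e1 e2 ?_
        simp only [List.length_cons] at hl
        exact ih (m - 1) (by omega) a4 l z (by omega) e0 hz h

/-- the case `I = {(0,b)}` -/
theorem RtE6_main {n K k : ℕ} {Ω : CC} (T : Th1 n K k Ω) {b : Bool} {κ : ℤ}
    (hR : RotW n (th k Ω) (RtE6_W b) (sgl (0, b)) κ) :
    ∃ Ω', StQ P2 Qt (fun i => i ≠ 2) Ω Ω' ∧
      act (pot 2 (fun x => κ * ind (sgl (0, b)) x)) (th k Ω) = th k Ω' := by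
  classical
  obtain ⟨f0, f1, f2, _⟩ := th1_facts T
  have h4 := T.H.h4
  obtain ⟨s, hne, hs, hΩ⟩ := exists_syl 2 Ω ⟨0, by decide, by omega⟩
  obtain ⟨δ, hC⟩ := RtE6_cut T hs hΩ hR
  have hF := RtE6_AF T hs hΩ hR hC
  have hy := RtE6_y hs hΩ (RtE6_AP1 T hs hΩ hR)
  -- an element `(0, !b)` in the list
  have hex : ∃ a ∈ s, a.1 = (0, !b) := by
    by_contra hc
    push Not at hc
    have h1 : cyc (fun a _ : RtE6_S => if a.1 = (0, !b) then 1 else 0) s ≤ cyc (fun _ _ => 0) s :=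
      RtE6_Al_le (RtE6_Al_mem hc) (by
        rintro a r ⟨h, _⟩
        simp [h])
    have h2 : cyc (fun _ _ : RtE6_S => 0) s = 0 := by
      rw [cyc_fst]
      simp
    have h3 := le_trans hy (le_trans h1 (le_of_eq h2))
    omega
  obtain ⟨a, ha, hay⟩ := hex
  obtain ⟨l1, l2, rfl⟩ := List.append_of_mem ha
  have hrot : (l1 ++ a :: l2) ~r (a :: (l2 ++ l1)) := ⟨l1.length, by simp⟩
  have hcyc : cyc (fun a r => if RtE6_F b δ κ a r then 0 else 1) (a :: (l2 ++ l1)) = 0 := by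
    rw [← cyc_rotated _ hrot]
    exact hF
  have hQ := RtE6_ind b δ κ (l2 ++ l1).length a (l2 ++ l1) a le_rfl hay hay hcyc
  have hcls : cls (expand 2 (a :: (l2 ++ l1))) = Ω := by
    rw [← hΩ]
    apply cls_of_rotated
    refine ⟨(expand 2 (a :: l2)).length, ?_⟩
    have e1 : expand 2 (a :: (l2 ++ l1)) = expand 2 (a :: l2) ++ expand 2 l1 := by
      unfold expand
      simp [List.flatMap_append]
    have e2 : expand 2 (l1 ++ a :: l2) = expand 2 l1 ++ expand 2 (a :: l2) := by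
      unfold expand
      simp [List.flatMap_append]
    rw [e1, e2, List.rotate_append_length_eq]
  have hact : act (pot 2 (fun x => κ * ind (sgl ((0 : Fin 3), b)) x)) Ω =
      act (wh (1, δ) (RtE6_C b δ)) Ω := by
    rw [← hcls]
    unfold cls
    rw [act_mk, act_mk, hQ]
    apply ConjClasses.mk_eq_mk_iff_isConj.mpr
    refine isConj_iff.mpr ⟨RtE6_D δ κ, ?_⟩
    group
  refine ⟨act (wh (1, δ) (RtE6_C b δ)) Ω, ⟨(1, δ), RtE6_C b δ, by simp, ⟨by simp [RtE6_C], by
    simp [RtE6_C, bar], hC⟩, ?_, ?_, rfl⟩, ?_⟩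
  · intro i hi
    have : i = 2 := hi
    subst this
    simp [RtE6_C]
  · intro i hi hi'
    exact absurd (by simpa [Qt] using hi) hi'
  · rw [← hact]
    exact (th_pot k (fun _ => rfl) (by simp [ind, sgl]) rfl Ω).symm

theorem cs_nd {n K k : ℕ} {Ω : CC} (T : Th1 n K k Ω) (hD : n < capC Ω (PrC 2)) {U I : Ct} {κ : ℤ}
    (hR : RotW n (th k Ω) U I κ) :
    ∃ Ω', StQ P2 Qt (fun i => i ≠ 2) Ω Ω' ∧
      act (pot 2 (fun x => κ * ind I x)) (th k Ω) = th k Ω' := by
  obtain ⟨b, hb⟩ := cs_pair T hD hR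
  have hU : U = RtE6_W b := by
    funext x
    have := hb x
    cases hx : U x
    · have h1 : ¬ (x = (1, false) ∨ x = (0, b)) := by
        rw [← this, hx]
        simp
      push Not at h1
      simp [RtE6_W, h1.1, h1.2]
    · have h1 := this.mp hx
      rcases h1 with rfl | rfl
      · simp [RtE6_W]
      · simp [RtE6_W]
  subst hU
  cases hx : I (0, b)
  · obtain ⟨h1, h2⟩ := rw_neg T.H hR
    have h3 : (fun x => RtE6_W b x && !I x) = sgl (0, b) := by
      obtain ⟨v, hv⟩ := hR.ne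
      have hvU := (hb v).mp (hR.sub v hv)
      have hv1 : v = (1, false) := by
        rcases hvU with h | h
        · exact h
        · rw [h, hx] at hv
          exact absurd hv (by simp)
      rw [hv1] at hv
      funext x
      by_cases e1 : x = (1, false)
      · subst e1
        simp [RtE6_W, hv, sgl]
      · by_cases e2 : x = (0, b)
        · subst e2
          simp [RtE6_W, hx, sgl]
        · simp [RtE6_W, e1, e2, sgl]
    rw [h3] at h1 h2
    obtain ⟨Ω', h4, h5⟩ := RtE6_main T h1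
    exact ⟨Ω', h4, h2 ▸ h5⟩
  · have h3 : I = sgl (0, b) := by
      obtain ⟨v, hv, hv'⟩ := hR.ne'
      have hvU := (hb v).mp hv
      have hv1 : v = (1, false) := by
        rcases hvU with h | h
        · exact h
        · rw [h, hx] at hv'
          exact absurd hv' (by simp)
      rw [hv1] at hv'
      funext x
      by_cases e1 : x = (1, false)
      · subst e1
        simp [hv', sgl]
      · by_cases e2 : x = (0, b)
        · subst e2
          simp [hx, sgl]
        · have e3 : I x = false := by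
            cases e : I x
            · rfl
            · have := (hb x).mp (hR.sub x e)
              tauto
          simp [e3, e2, sgl]
    subst h3
    exact RtE6_main T hR

theorem clg_nd {n K k : ℕ} {Ω : CC} (T : Th1 n K k Ω) (hD : n < capC Ω (PrC 2)) :
    ClG n K k (SQ P2 Qt (fun i => i ≠ 2) Ω) := by
  refine ⟨fun Ω' h => (th1_sq T h).1, fun Ω' h Ω'' h' => Relation.ReflTransGen.tail h h', ?_⟩
  intro Ω' h U I κ hR
  obtain ⟨Ω'', h1, h2⟩ := cs_nd (th1_sq T h).1 (by rw [th1_D T h]; exact hD) hR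
  exact ⟨Ω'', Relation.ReflTransGen.tail h h1, h2⟩

theorem clg_dt {n K k : ℕ} {Ω : CC} (T : Th1 n K k Ω)
    (hN : ∀ Ω' ∈ SQ P2 Qt (fun i => i ≠ 2) Ω, ∀ (U I : Ct) (κ : ℤ), ¬ RotW n (th k Ω') U I κ) :
    ClG n K k (SQ P2 Qt (fun i => i ≠ 2) Ω) := by
  refine ⟨fun Ω' h => (th1_sq T h).1, fun Ω' h Ω'' h' => Relation.ReflTransGen.tail h h', ?_⟩
  intro Ω' h U I κ hR
  exact absurd hR (hN Ω' h U I κ)

end Pool.Agent.Sims
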