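import Pool.Agent.Sims.RtQ2
import Pool.Agent.Sims.EvMvC
import Pool.Agent.Sims.EvMvT
import Pool.Agent.Sims.EvPow
import Pool.Agent.Sims.ArcA

/-!
# Module `RtQ3` : patterns of `sq Q Ω` are patterns of `Ω`

`e i = 2` for `Q i`, `e i = 1` else, `e 0 = 1`; `sq Q Ω = pw e Ω`, `pwL e` on words (each letter `x` replaced by `x^{e x.1}`).
* `q3_cut`: if `pwL e w = u ++ v` (`w` any word), and `v` starts with a letter `x` with `x.1 = 0` or is empty, and `u` is empty or `v ≠ []`..., precisely: `v = []` or `v.head.1 = 0`; then `w = w1 ++ w2`, `u = pwL e w1`, `v = pwL e w2` (induction on `w`: the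
  block of the first letter `y` has length `e y.1 ∈ {1,2}`; a block of length 2 cannot be cut by `v` starting with a 0-letter).
* `q3_rot`: if `CR w`, `pwL e w ~r u`, `u` starts with a 0-letter, then there is `w' ~r w` with `pwL e w' = u` (`pwL e w = l1 ++ l2`, `u = l2 ++ l1`; `q3_cut`).
* `q3_inj`: `pwL e` is injective on words (`e ≥ 1`: first letters agree; cancel).  `q3_inv`: `pwL e (invRev w) = invRev (pwL e w)`.
* `pat_sq`: `sq Q Ω = mk (gw port g π)`.  The word `U = π.flatMap (fun t => (0, port t.1 t.2) :: (if t.2 then g t.1 else (g t.1)⁻¹).toWord)` is cyclically reduced with class `mk (gw port g π)` (this is shown in the proof of `pat_cnt`, module `EvMvC`), `Ω = cls w`,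
  `CR w`, `pwL e w ~r U` (both cyclically reduced, same class).  `U` starts with a 0-letter (`π ≠ []` by `h1`).  `q3_rot`: `pwL e w' = U`.  Induction on `π` with `q3_cut`: `w' = π.flatMap (fun t => (0, port ..) :: h_t)` with `pwL e h_t = (g^{±})` word (the
  cut after each 0-letter is at a block boundary since the block of a 0-letter has length 1); `h_t` is a subword of a cyclically reduced word, hence reduced, without 0-letters.  For `t = (k, true)`: `pwL e h_t = (g k).toWord`; for `t = (k, false)`: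
  `pwL e (invRev h_t) = (g k).toWord` (`q3_inv`): by `q3_inj` all occurrences of `k` give the same reduced word; `g' k := mk` of it (both `k` occur by `h1`, `h2`).  `g' k = 1 → g k = 1` (`pwL e [] = []`).  `Ω = cls w' = mk (gw port g' π)`.
* `gT_sq`: the same for `gT j g`: the word `j.flatMap (fun t => x_0^{t.1} ++ (g^{±}).toWord)` is cyclically reduced (module `EvMvT`, proof of `gT_cnt`), all blocks of 0-letters have length 1.
* `pow_sq`: `sq Q Ω = cls (v^h)`, `v.length = 6`, `cntL v i = 2`, `Q 2`, no edge `c — c⁻¹` in `Ω`, `h ≥ 1`.  `CR (v^h)` (from `hcr`), let `c' = (2,b)` be a letter of `v`.  By `sq_run` its two cyclic neighbours in `v^h` are one `c'` and one other letter; so the two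
  letters of `v` with generator 2 are cyclically adjacent and equal; rotate `v` (then `(v^h)` rotates, `cls` unchanged): `v = c' :: c' :: x`, no letter of `x` has generator 2.  `Ω = cls w`, `pwL e w ~r v^h`; the rotation starts at a block boundary of
  `pwL e w` (the block of `c'` has length 2, and the letter before `c' c'` has generator `≠ 2`), similarly every copy of `v`: so `w' ~r w`, `w' = w1 ++ ... ++ wh`, `pwL e wi = v`, all `wi` are equal by `q3_inj`.  `cntL v i = e i * cntL w1 i`.
Difficulty 4.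
-/

namespace Pool.Agent.Sims

open FreeGroup (of)

/-! ### words -/

theorem RtQ3_cons (e : Fin 3 → ℕ) (x : Fin 3 × Bool) (l : List (Fin 3 × Bool)) :
    pwL e (x :: l) = List.replicate (e x.1) x ++ pwL e l := by
  simp [pwL]

theorem RtQ3_append (e : Fin 3 → ℕ) (l l' : List (Fin 3 × Bool)) :
    pwL e (l ++ l') = pwL e l ++ pwL e l' := by
  simp [pwL]

theorem RtQ3_getLast {β : Type*} (R a : List β) {y : β} (h : y ∈ a.getLast?) :
    y ∈ (R ++ a).getLast? := by
  rw [Option.mem_def] at h ⊢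
  rw [List.getLast?_append, h]
  rfl

/-- cutting between blocks -/
theorem RtQ3_cut {e : Fin 3 → ℕ} (w : List (Fin 3 × Bool)) : ∀ u v : List (Fin 3 × Bool),
    pwL e w = u ++ v → (∀ x ∈ v.head?, e x.1 = 1 ∨ ∀ y ∈ u.getLast?, y ≠ x) →
    ∃ w1 w2, w = w1 ++ w2 ∧ pwL e w1 = u ∧ pwL e w2 = v := by
  induction w with
  | nil =>
    intro u v h _
    have h1 : u ++ v = [] := h.symm
    obtain ⟨rfl, rfl⟩ := List.append_eq_nil_iff.1 h1
    exact ⟨[], [], rfl, rfl, rfl⟩
  | cons y t ih =>
    intro u v h hC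
    rw [RtQ3_cons] at h
    rcases List.append_eq_append_iff.1 h with ⟨a', hu, hv⟩ | ⟨c', hu, hv⟩
    · obtain ⟨w1, w2, h1, h2, h3⟩ := ih a' v hv (by
        intro x hx
        rcases hC x hx with h4 | h4
        · exact Or.inl h4
        · refine Or.inr fun z hz => h4 z ?_
          rw [hu]
          exact RtQ3_getLast _ _ hz)
      refine ⟨y :: w1, w2, by rw [h1]; rfl, ?_, h3⟩
      rw [RtQ3_cons, h2, hu]
    · rcases List.eq_nil_or_concat u with rfl | ⟨u', z, rfl⟩
      · refine ⟨[], y :: t, rfl, rfl, ?_⟩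
        rw [RtQ3_cons, hv, hu, List.nil_append]
      · cases c' with
        | nil =>
          refine ⟨[y], t, rfl, ?_, ?_⟩
          · rw [RtQ3_cons, hu]
            simp [pwL]
          · rw [hv, List.nil_append]
        | cons x c'' =>
          exfalso
          have hz : z = y := by
            have : z ∈ List.replicate (e y.1) y := by rw [hu]; simp
            exact List.eq_of_mem_replicate this
          have hx : x = y := by
            have : x ∈ List.replicate (e y.1) y := by rw [hu]; simp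
            exact List.eq_of_mem_replicate this
          rcases hC x (by rw [hv]; rfl) with h4 | h4
          · have h5 := congrArg List.length hu
            rw [List.length_replicate, ← hx, h4] at h5
            simp at h5
            omega
          · exact h4 z (by simp) (by rw [hz, hx])

theorem RtQ3_inj {e : Fin 3 → ℕ} (he : ∀ i, 1 ≤ e i) : ∀ a b : List (Fin 3 × Bool),
    pwL e a = pwL e b → a = b := by
  intro a
  induction a with
  | nil =>
    intro b h
    cases b with
    | nil => rfl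
    | cons y b =>
      exfalso
      rw [RtQ3_cons] at h
      have h1 := congrArg List.length h
      rw [List.length_append, List.length_replicate] at h1
      have h2 : (pwL e []).length = 0 := rfl
      have := he y.1
      omega
  | cons x a ih =>
    intro b h
    cases b with
    | nil =>
      exfalso
      rw [RtQ3_cons] at h
      have h1 := congrArg List.length h
      rw [List.length_append, List.length_replicate] at h1
      have h2 : (pwL e []).length = 0 := rfl
      have := he x.1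
      omega
    | cons y b =>
      obtain ⟨m, hm⟩ : ∃ m, e x.1 = m + 1 := Nat.exists_eq_succ_of_ne_zero (by have := he x.1; omega)
      obtain ⟨m', hm'⟩ : ∃ m, e y.1 = m + 1 := Nat.exists_eq_succ_of_ne_zero (by have := he y.1; omega)
      have h' := h
      rw [RtQ3_cons, RtQ3_cons, hm, hm', List.replicate_succ, List.replicate_succ, List.cons_append,
        List.cons_append] at h'
      have hxy : x = y := (List.cons.inj h').1
      subst hxy
      rw [RtQ3_cons, RtQ3_cons] at h
      rw [ih b (List.append_cancel_left h)]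

theorem RtQ3_mk (e : Fin 3 → ℕ) (w : List (Fin 3 × Bool)) :
    pwh e (FreeGroup.mk w) = FreeGroup.mk (pwL e w) := by
  have h1 : ∀ x : Fin 3 × Bool, pwh e (lett x) = (lett x) ^ e x.1 := by
    rintro ⟨i, b⟩
    cases b with
    | true => rw [lett_true, pwh, FreeGroup.lift_apply_of]
    | false => rw [lett_false, map_inv, pwh, FreeGroup.lift_apply_of, inv_pow]
  induction w with
  | nil => exact map_one _
  | cons x w ih =>
    have h2 : (FreeGroup.mk (x :: w) : FreeGroup (Fin 3)) = lett x * FreeGroup.mk w := by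
      rw [lett, FreeGroup.mul_mk]
      rfl
    rw [h2, map_mul, h1, ih, RtQ3_cons, ← FreeGroup.mul_mk, SylA_mk_replicate]

theorem RtQ3_head {e : Fin 3 → ℕ} (he : ∀ i, 1 ≤ e i) (w : List (Fin 3 × Bool)) :
    (pwL e w).head? = w.head? := by
  cases w with
  | nil => rfl
  | cons x w =>
    obtain ⟨m, hm⟩ : ∃ m, e x.1 = m + 1 := Nat.exists_eq_succ_of_ne_zero (by have := he x.1; omega)
    rw [RtQ3_cons, hm, List.replicate_succ, List.cons_append]
    rfl

theorem RtQ3_redr (x : Fin 3 × Bool) (l : List (Fin 3 × Bool)) (hl : FreeGroup.IsReduced l)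
    (h : ∀ y ∈ l.head?, x.1 = y.1 → x.2 = y.2) (k : ℕ) :
    FreeGroup.IsReduced (List.replicate k x ++ l) := by
  induction k with
  | zero => exact hl
  | succ k ih =>
    rw [List.replicate_succ, List.cons_append]
    unfold FreeGroup.IsReduced at ih ⊢
    rw [List.isChain_cons]
    refine ⟨?_, ih⟩
    intro y hy
    cases k with
    | zero => exact h y hy
    | succ k =>
      rw [List.replicate_succ, List.cons_append] at hy
      have : y = x := by simpa using hy.symm
      rw [this]
      exact fun _ => rfl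

theorem RtQ3_red {e : Fin 3 → ℕ} (he : ∀ i, 1 ≤ e i) {w : List (Fin 3 × Bool)}
    (h : FreeGroup.IsReduced w) : FreeGroup.IsReduced (pwL e w) := by
  induction w with
  | nil => exact h
  | cons x w ih =>
    unfold FreeGroup.IsReduced at h
    rw [List.isChain_cons] at h
    rw [RtQ3_cons]
    refine RtQ3_redr x _ (ih h.2) ?_ _
    rw [RtQ3_head he]
    exact h.1

theorem RtQ3_pinj {e : Fin 3 → ℕ} (he : ∀ i, 1 ≤ e i) {a b : FreeGroup (Fin 3)}
    (h : pwh e a = pwh e b) : a = b := by
  apply FreeGroup.toWord_injective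
  apply RtQ3_inj he
  rw [← FreeGroup.mk_toWord (x := a), ← FreeGroup.mk_toWord (x := b), RtQ3_mk, RtQ3_mk] at h
  have h1 := congrArg FreeGroup.toWord h
  rw [FreeGroup.toWord_mk, FreeGroup.toWord_mk,
    FreeGroup.isReduced_iff_reduce_eq.1 (RtQ3_red he FreeGroup.isReduced_toWord),
    FreeGroup.isReduced_iff_reduce_eq.1 (RtQ3_red he FreeGroup.isReduced_toWord)] at h1
  exact h1

/-- the powers of the arcs -/
def RtQ3_F (e : Fin 3 → ℕ) (q : Bool × FreeGroup (Fin 3)) : Bool × FreeGroup (Fin 3) := (q.1, pwh e q.2)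

theorem RtQ3_Finj {e : Fin 3 → ℕ} (he : ∀ i, 1 ≤ e i) : Function.Injective (RtQ3_F e) := by
  rintro ⟨a, g⟩ ⟨b, h⟩ h1
  have h2 : a = b := congrArg Prod.fst h1
  have h3 : pwh e g = pwh e h := congrArg Prod.snd h1
  rw [h2, RtQ3_pinj he h3]

theorem RtQ3_whead {L : List (Bool × FreeGroup (Fin 3))} {x : Fin 3 × Bool} (h : x ∈ (ArcA_W L).head?) :
    x.1 = 0 := by
  cases L with
  | nil => simp [ArcA_W] at h
  | cons q L =>
    rw [ArcA_W_cons] at h
    have : x = (0, q.1) := by simpa using h.symm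
    rw [this]

theorem RtQ3_arcs {e : Fin 3 → ℕ} (he : ∀ i, 1 ≤ e i) (h0 : e 0 = 1)
    (L : List (Bool × FreeGroup (Fin 3))) : ∀ w : List (Fin 3 × Bool), FreeGroup.IsReduced w →
    (∀ q ∈ L, In12 q.2) → pwL e w = ArcA_W L →
    ∃ L' : List (Bool × FreeGroup (Fin 3)), w = ArcA_W L' ∧ (∀ q ∈ L', In12 q.2) ∧
      L = L'.map (RtQ3_F e) := by
  induction L with
  | nil =>
    intro w _ _ h
    have h1 : w = [] := RtQ3_inj he w [] h
    exact ⟨[], h1, by simp, rfl⟩
  | cons q L ih =>
    intro w hr hIn h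
    have h' : pwL e w = ((0, q.1) :: q.2.toWord) ++ ArcA_W L := by rw [h, ArcA_W_cons]; rfl
    obtain ⟨w1, w2, h1, h2, h3⟩ := RtQ3_cut w _ _ h' (by
      intro x hx
      left
      rw [RtQ3_whead hx]
      exact h0)
    subst h1
    obtain ⟨L'', h4, h5, h6⟩ := ih w2 (red_mid hr ⟨w1, [], by simp⟩)
      (fun q hq => hIn q (List.mem_cons_of_mem _ hq)) h3
    cases w1 with
    | nil => exact absurd h2 (by simp [pwL])
    | cons y x' =>
      obtain ⟨m, hm⟩ : ∃ m, e y.1 = m + 1 := Nat.exists_eq_succ_of_ne_zero (by have := he y.1; omega)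
      rw [RtQ3_cons, hm, List.replicate_succ, List.cons_append] at h2
      have hy : y = (0, q.1) := (List.cons.inj h2).1
      have h7 := (List.cons.inj h2).2
      have hm0 : m = 0 := by
        rw [hy, h0] at hm
        omega
      rw [hm0, List.replicate_zero, List.nil_append] at h7
      have hrx : FreeGroup.IsReduced x' := red_mid hr ⟨[y], w2, by simp⟩
      have hx' : (FreeGroup.mk x').toWord = x' := by
        rw [FreeGroup.toWord_mk]
        exact FreeGroup.isReduced_iff_reduce_eq.1 hrx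
      refine ⟨(q.1, FreeGroup.mk x') :: L'', ?_, ?_, ?_⟩
      · rw [ArcA_W_cons, hx', ← h4, hy]
        rfl
      · intro r hr'
        rcases List.mem_cons.1 hr' with rfl | hr'
        · refine In12_mk fun z hz => hIn q List.mem_cons_self z ?_
          rw [← h7, pwL, List.mem_flatMap]
          exact ⟨z, hz, List.mem_replicate.2 ⟨by have := he z.1; omega, rfl⟩⟩
        · exact h5 r hr'
      · rw [List.map_cons, ← h6, RtQ3_F, RtQ3_mk, h7, FreeGroup.mk_toWord]

/-- rotation to a given word -/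
theorem RtQ3_rot {e : Fin 3 → ℕ} (he : ∀ i, 1 ≤ e i) {Ω : CC} {U : List (Fin 3 × Bool)} (hU : CR U)
    (h : pw e Ω = cls U) (hC : ∀ x ∈ U.head?, e x.1 = 1 ∨ ∀ y ∈ U.getLast?, y ≠ x) :
    ∃ w, CR w ∧ cls w = Ω ∧ pwL e w = U := by
  obtain ⟨h1, h2⟩ := pw_cls he (rep_CR Ω)
  rw [cls_rep, h] at h2
  obtain ⟨l1, l2, h3, h4⟩ := Cyc_rot_split (rotated_of_cls_eq h1 hU h2.symm)
  obtain ⟨w1, w2, h5, h6, h7⟩ := RtQ3_cut (rep Ω) l1 l2 h3 (by
    intro x hx
    have hx' : x ∈ U.head? := by
      rw [Option.mem_def] at hx ⊢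
      rw [h4, List.head?_append, hx]
      rfl
    rcases hC x hx' with h8 | h8
    · exact Or.inl h8
    · refine Or.inr fun y hy => h8 y ?_
      rw [h4]
      exact RtQ3_getLast _ _ hy)
  have hr : rep Ω ~r (w2 ++ w1) := by
    rw [h5]
    exact List.isRotated_append
  refine ⟨w2 ++ w1, CR_of_rotated hr (rep_CR Ω), ?_, ?_⟩
  · rw [← cls_of_rotated hr, cls_rep]
  · rw [RtQ3_append, h6, h7, h4]

theorem RtQ3_main {e : Fin 3 → ℕ} (he : ∀ i, 1 ≤ e i) (h0 : e 0 = 1) {Ω : CC}
    {L : List (Bool × FreeGroup (Fin 3))} (hIn : ∀ q ∈ L, In12 q.2) (hU : CR (ArcA_W L))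
    (h : pw e Ω = ConjClasses.mk (arcP L)) :
    ∃ L' : List (Bool × FreeGroup (Fin 3)), (∀ q ∈ L', In12 q.2) ∧ L = L'.map (RtQ3_F e) ∧
      Ω = ConjClasses.mk (arcP L') := by
  have hcls : ConjClasses.mk (arcP L) = cls (ArcA_W L) := by
    unfold cls
    rw [ArcA_mk]
  rw [hcls] at h
  obtain ⟨w, h1, h2, h3⟩ := RtQ3_rot he hU h (by
    intro x hx
    left
    rw [RtQ3_whead hx]
    exact h0)
  obtain ⟨L', h4, h5, h6⟩ := RtQ3_arcs he h0 L w h1.1 hIn h3
  refine ⟨L', h5, h6, ?_⟩
  rw [← h2, h4]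
  unfold cls
  rw [ArcA_mk]

/-- the exponents of `sq Q` -/
def RtQ3_e (Q : Fin 3 → Bool) (i : Fin 3) : ℕ := if Q i then 2 else 1

theorem RtQ3_e1 (Q : Fin 3 → Bool) (i : Fin 3) : 1 ≤ RtQ3_e Q i := by
  unfold RtQ3_e
  split_ifs <;> omega

theorem RtQ3_e0 {Q : Fin 3 → Bool} (hQ : Q 0 = false) : RtQ3_e Q 0 = 1 := by
  unfold RtQ3_e
  rw [hQ]
  rfl

/-! ### patterns -/

/-- the arcs of a pattern -/
def RtQ3_L (port : Bool → Bool → Bool) (g : Bool → FreeGroup (Fin 3)) (t : Bool × Bool) :
    Bool × FreeGroup (Fin 3) :=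
  (port t.1 t.2, if t.2 then g t.1 else (g t.1)⁻¹)

theorem RtQ3_gw (port : Bool → Bool → Bool) (g : Bool → FreeGroup (Fin 3))
    (π : List (Bool × Bool)) : arcP (π.map (RtQ3_L port g)) = gw port g π := by
  unfold arcP gw
  rw [List.map_map]
  rfl

theorem RtQ3_lin {β : Type*} {f g : β → β → ℕ} (h : ∀ x y, f x y = 0 → g x y = 0) (x : β)
    (l : List β) (z : β) (h0 : lin f x l z = 0) : lin g x l z = 0 := by
  induction l generalizing x with
  | nil => exact h x z h0
  | cons y l ih =>
    rw [lin] at h0 ⊢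
    rw [h x y (by omega), ih y (by omega)]

theorem RtQ3_patCR {port : Bool → Bool → Bool} {π : List (Bool × Bool)} (hc : Cons port π)
    {g : Bool → FreeGroup (Fin 3)} (hg : ∀ k, In12 (g k))
    (hg1 : ∀ k, g k = 1 → port k true ≠ port k false) :
    (∀ q ∈ π.map (RtQ3_L port g), In12 q.2) ∧ CR (ArcA_W (π.map (RtQ3_L port g))) := by
  have hIn : ∀ q ∈ π.map (RtQ3_L port g), In12 q.2 := by
    intro q hq
    obtain ⟨t, -, rfl⟩ := List.mem_map.1 hq
    rcases t with ⟨k, d⟩
    cases d
    · simpa [RtQ3_L] using In12_inv (hg k)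
    · simpa [RtQ3_L] using hg k
  refine ⟨hIn, (ArcA_CR_iff hIn).2 ?_⟩
  rw [Rel_cyc_map]
  unfold Cons at hc
  cases π with
  | nil => rfl
  | cons t π =>
    rw [cyc] at hc ⊢
    refine RtQ3_lin ?_ t π t hc
    rintro ⟨k, d⟩ ⟨k', d'⟩ h0
    have h1 : port k' d' = !port k (!d) := by
      by_contra hne
      rw [if_neg hne] at h0
      omega
    rw [if_neg]
    rintro ⟨h2, h3⟩
    simp only [RtQ3_L] at h2 h3
    have h4 : g k = 1 := by
      cases d
      · simpa using h2
      · simpa using h2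
    have h5 := hg1 k h4
    rw [h1] at h3
    cases d
    · simp only [Bool.not_false] at h3
      revert h3 h5
      cases port k true <;> cases port k false <;> simp
    · simp only [Bool.not_true] at h3
      revert h3 h5
      cases port k true <;> cases port k false <;> simp

theorem RtQ3_pre {e : Fin 3 → ℕ} {a g : FreeGroup (Fin 3)} {d : Bool} (ha : In12 a)
    (h : pwh e a = if d then g else g⁻¹) : ∃ g', In12 g' ∧ pwh e g' = g := by
  cases d
  · refine ⟨a⁻¹, In12_inv ha, ?_⟩
    rw [map_inv, h]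
    simp
  · refine ⟨a, ha, ?_⟩
    rw [h]
    simp

theorem RtQ3_img (e : Fin 3 → ℕ) (g : FreeGroup (Fin 3)) (d : Bool) :
    pwh e (if d then g else g⁻¹) = if d then pwh e g else (pwh e g)⁻¹ := by
  cases d <;> simp

theorem pat_sq {port : Bool → Bool → Bool} {π : List (Bool × Bool)} (hc : Cons port π)
    (h1 : 0 < π.countP (fun t => t.1)) (h2 : 0 < π.countP (fun t => !t.1)) {Q : Fin 3 → Bool}
    (hQ : Q 0 = false) {Ω : CC} (hp : ∀ i, 0 < cnt Ω i) (h : Pat port π (sq Q Ω)) :
    Pat port π Ω := by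
  obtain ⟨g, hg, hg1, hV⟩ := h
  have he := RtQ3_e1 Q
  obtain ⟨hIn, hCR⟩ := RtQ3_patCR hc hg hg1
  obtain ⟨L', hL', hLL, hΩ⟩ := RtQ3_main he (RtQ3_e0 hQ) hIn hCR (Ω := Ω) (by
    rw [RtQ3_gw, ← hV]
    rfl)
  have hk : ∀ k : Bool, ∃ g', In12 g' ∧ pwh (RtQ3_e Q) g' = g k := by
    intro k
    have h3 : ∃ t ∈ π, t.1 = k := by
      cases k
      · obtain ⟨t, ht, ht'⟩ := List.countP_pos_iff.1 h2
        exact ⟨t, ht, by simpa using ht'⟩
      · obtain ⟨t, ht, ht'⟩ := List.countP_pos_iff.1 h1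
        exact ⟨t, ht, by simpa using ht'⟩
    obtain ⟨t, ht, rfl⟩ := h3
    have h4 : RtQ3_L port g t ∈ L'.map (RtQ3_F (RtQ3_e Q)) := by
      rw [← hLL]
      exact List.mem_map.2 ⟨t, ht, rfl⟩
    obtain ⟨q, hq, hqt⟩ := List.mem_map.1 h4
    exact RtQ3_pre (hL' q hq) (congrArg Prod.snd hqt)
  choose g' hg' hgg using hk
  have hLeq : L' = π.map (RtQ3_L port g') := by
    apply (List.map_injective_iff.2 (RtQ3_Finj he))
    rw [← hLL, List.map_map]
    apply List.map_congr_left
    intro t _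
    show (port t.1 t.2, _) = (port t.1 t.2, pwh (RtQ3_e Q) (if t.2 then g' t.1 else (g' t.1)⁻¹))
    rw [RtQ3_img, hgg]
  refine ⟨g', hg', ?_, ?_⟩
  · intro k hk1
    refine hg1 k ?_
    rw [← hgg, hk1, map_one]
  · rw [hΩ, hLeq, RtQ3_gw]

/-! ### patterns `a^j g^{±1}` -/

/-- the arcs of `a^k h` -/
def RtQ3_b (g : FreeGroup (Fin 3)) (t : ℤ × Bool) : List (Bool × FreeGroup (Fin 3)) :=
  List.replicate (t.1.natAbs - 1) (decide (0 < t.1), 1) ++
    [(decide (0 < t.1), if t.2 then g else g⁻¹)]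

theorem RtQ3_arcP_append (L L' : List (Bool × FreeGroup (Fin 3))) :
    arcP (L ++ L') = arcP L * arcP L' := by
  unfold arcP
  rw [List.map_append, List.prod_append]

theorem RtQ3_b_prod (g : FreeGroup (Fin 3)) {t : ℤ × Bool} (ht : t.1 ≠ 0) :
    arcP (RtQ3_b g t) = of 0 ^ t.1 * (if t.2 then g else g⁻¹) := by
  unfold RtQ3_b
  rw [RtQ3_arcP_append]
  have h1 : ∀ s : Bool, arcP (List.replicate (t.1.natAbs - 1) (s, 1)) =
      lett (0, s) ^ (t.1.natAbs - 1) := by
    intro s
    unfold arcP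
    rw [List.map_replicate, List.prod_replicate, mul_one]
  rw [h1]
  have h2 : arcP [(decide (0 < t.1), if t.2 then g else g⁻¹)] =
      lett (0, decide (0 < t.1)) * (if t.2 then g else g⁻¹) := by
    simp [arcP]
  rw [h2, ← mul_assoc, ← pow_succ]
  congr 1
  have h3 : t.1.natAbs - 1 + 1 = t.1.natAbs := by
    have := Int.natAbs_pos.2 ht
    omega
  rw [h3]
  rcases lt_or_gt_of_ne ht with h | h
  · rw [decide_eq_false (by omega), lett_false, inv_pow, ← zpow_natCast, ← zpow_neg]
    congr 1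
    omega
  · rw [decide_eq_true h, lett_true, ← zpow_natCast]
    congr 1
    omega

/-- the mismatch function -/
def RtQ3_f (q r : Bool × FreeGroup (Fin 3)) : ℕ := if q.2 = 1 ∧ q.1 ≠ r.1 then 1 else 0

theorem RtQ3_rep (s : Bool) (h : FreeGroup (Fin 3)) (m : ℕ) : ∀ x : Bool × FreeGroup (Fin 3),
    (x.2 ≠ 1 ∨ x.1 = s) → lin RtQ3_f x (List.replicate m (s, 1)) (s, h) = 0 := by
  induction m with
  | zero =>
    intro x hx
    rw [List.replicate_zero, lin, RtQ3_f, if_neg]
    rintro ⟨h1, h2⟩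
    rcases hx with hx | hx
    · exact hx h1
    · exact h2 hx
  | succ m ih =>
    intro x hx
    rw [List.replicate_succ, lin, ih (s, 1) (Or.inr rfl), RtQ3_f, if_neg]
    rintro ⟨h1, h2⟩
    rcases hx with hx | hx
    · exact hx h1
    · exact h2 hx

theorem RtQ3_ne (g : FreeGroup (Fin 3)) (hg : g ≠ 1) (d : Bool) :
    (if d then g else g⁻¹) ≠ 1 := by
  cases d
  · simpa using hg
  · simpa using hg

theorem RtQ3_lin2 (g : FreeGroup (Fin 3)) (hg : g ≠ 1) (j : List (ℤ × Bool)) :
    ∀ x z : Bool × FreeGroup (Fin 3), x.2 ≠ 1 →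
      lin RtQ3_f x (j.flatMap (RtQ3_b g)) z = 0 := by
  induction j with
  | nil =>
    intro x z hx
    rw [List.flatMap_nil, lin, RtQ3_f, if_neg]
    exact fun h => hx h.1
  | cons t j ih =>
    intro x z hx
    rw [List.flatMap_cons]
    unfold RtQ3_b
    rw [List.append_assoc, List.singleton_append, lin_append, RtQ3_rep _ _ _ _ (Or.inl hx)]
    have h := ih (decide (0 < t.1), if t.2 then g else g⁻¹) z (RtQ3_ne g hg t.2)
    unfold RtQ3_b at h
    rw [h]

theorem RtQ3_cyc (g : FreeGroup (Fin 3)) (hg : g ≠ 1) (j : List (ℤ × Bool)) :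
    cyc RtQ3_f (j.flatMap (RtQ3_b g)) = 0 := by
  cases j with
  | nil => rfl
  | cons t j =>
    rw [List.flatMap_cons]
    have h : RtQ3_b g t = List.replicate (t.1.natAbs - 1) (decide (0 < t.1), 1) ++
        [(decide (0 < t.1), if t.2 then g else g⁻¹)] := rfl
    rw [h, List.append_assoc, List.singleton_append,
      cyc_rotated RtQ3_f (List.isRotated_append), List.cons_append, cyc]
    rcases hm : t.1.natAbs - 1 with _ | m
    · rw [List.replicate_zero, List.append_nil]
      exact RtQ3_lin2 g hg j _ _ (RtQ3_ne g hg t.2)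
    · rw [List.replicate_succ, lin_append, RtQ3_lin2 g hg j _ _ (RtQ3_ne g hg t.2),
        RtQ3_rep _ _ _ _ (Or.inr rfl)]

theorem RtQ3_gT {j : List (ℤ × Bool)} (hj : ∀ t ∈ j, t.1 ≠ 0) (g : FreeGroup (Fin 3)) :
    gT j g = arcP (j.flatMap (RtQ3_b g)) := by
  induction j with
  | nil => simp [gT, arcP]
  | cons t j ih =>
    rw [List.flatMap_cons, RtQ3_arcP_append, RtQ3_b_prod g (hj t List.mem_cons_self),
      ← ih (fun t ht => hj t (List.mem_cons_of_mem _ ht))]
    unfold gT
    rw [List.map_cons, List.prod_cons]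

theorem RtQ3_bmap (e : Fin 3 → ℕ) (g : FreeGroup (Fin 3)) (j : List (ℤ × Bool)) :
    (j.flatMap (RtQ3_b g)).map (RtQ3_F e) = j.flatMap (RtQ3_b (pwh e g)) := by
  rw [List.map_flatMap]
  congr 1
  funext t
  unfold RtQ3_b
  rw [List.map_append, List.map_replicate]
  simp only [RtQ3_F, List.map_cons, List.map_nil, map_one, RtQ3_img]

theorem gT_sq {j : List (ℤ × Bool)} (hj : ∀ t ∈ j, t.1 ≠ 0) (hne : j ≠ []) {Q : Fin 3 → Bool}
    (hQ : Q 0 = false) {Ω : CC} (hp : ∀ i, 0 < cnt Ω i) {g : FreeGroup (Fin 3)} (hg : In12 g)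
    (hg1 : g ≠ 1) (h : sq Q Ω = ConjClasses.mk (gT j g)) :
    ∃ g' : FreeGroup (Fin 3), In12 g' ∧ g' ≠ 1 ∧ Ω = ConjClasses.mk (gT j g') := by
  have he := RtQ3_e1 Q
  have hIn : ∀ q ∈ j.flatMap (RtQ3_b g), In12 q.2 := by
    intro q hq
    rw [List.mem_flatMap] at hq
    obtain ⟨t, -, ht⟩ := hq
    unfold RtQ3_b at ht
    rw [List.mem_append] at ht
    rcases ht with ht | ht
    · rw [List.eq_of_mem_replicate ht]
      exact In12_one
    · rw [List.mem_singleton.1 ht]
      show In12 (if t.2 then g else g⁻¹)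
      split_ifs
      · exact hg
      · exact In12_inv hg
  obtain ⟨L', hL', hLL, hΩ⟩ := RtQ3_main he (RtQ3_e0 hQ) hIn ((ArcA_CR_iff hIn).2 (RtQ3_cyc g hg1 j))
    (Ω := Ω) (by
      rw [← RtQ3_gT hj, ← h]
      rfl)
  obtain ⟨t, ht⟩ := List.exists_mem_of_ne_nil j hne
  have h4 : (decide (0 < t.1), if t.2 then g else g⁻¹) ∈ L'.map (RtQ3_F (RtQ3_e Q)) := by
    rw [← hLL, List.mem_flatMap]
    exact ⟨t, ht, by unfold RtQ3_b; simp⟩
  obtain ⟨q, hq, hqt⟩ := List.mem_map.1 h4
  obtain ⟨g', hg', hgg⟩ := RtQ3_pre (hL' q hq) (congrArg Prod.snd hqt)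
  refine ⟨g', hg', ?_, ?_⟩
  · rintro rfl
    exact hg1 (by rw [← hgg, map_one])
  · have hLeq : L' = j.flatMap (RtQ3_b g') := by
      apply (List.map_injective_iff.2 (RtQ3_Finj he))
      rw [← hLL, RtQ3_bmap, hgg]
    rw [hΩ, hLeq, RtQ3_gT hj]

/-! ### powers -/

theorem RtQ3_split {β : Type*} : ∀ (l : List β) (x : β), (∃ y ∈ l, y ≠ x) →
    ∃ p y z q, x :: l = p ++ (y :: z :: q) ∧ y ≠ z := by
  intro l
  induction l with
  | nil =>
    rintro x ⟨y, hy, -⟩
    simp at hy
  | cons z l ih =>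
    rintro x ⟨y, hy, hyx⟩
    by_cases hzx : x = z
    · subst hzx
      obtain ⟨p, a, b, q, h1, h2⟩ := ih x ⟨y, (List.mem_cons.1 hy).resolve_left hyx, hyx⟩
      exact ⟨x :: p, a, b, q, by rw [h1]; rfl, h2⟩
    · exact ⟨[], x, z, l, rfl, hzx⟩

theorem RtQ3_powrot {β : Type*} (a b : List β) (m : ℕ) :
    (List.replicate (m + 1) (a ++ b)).flatten = a ++ ((List.replicate m (b ++ a)).flatten ++ b) := by
  induction m with
  | zero => simp
  | succ m ih =>
    rw [List.replicate_succ, List.flatten_cons, ih, List.replicate_succ, List.flatten_cons]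
    simp only [List.append_assoc]

theorem RtQ3_last {β : Type*} (A : List β) (y x : β) (h : x ∈ (A ++ [y]).getLast?) : x = y := by
  rw [List.getLast?_concat] at h
  simpa using h.symm

theorem RtQ3_pwr (e : Fin 3 → ℕ) (v : List (Fin 3 × Bool)) (m : ℕ) :
    pwL e (List.replicate m v).flatten = (List.replicate m (pwL e v)).flatten := by
  induction m with
  | zero => rfl
  | succ m ih =>
    rw [List.replicate_succ, List.flatten_cons, RtQ3_append, ih, List.replicate_succ,
      List.flatten_cons]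

theorem RtQ3_cntL (e : Fin 3 → ℕ) (w : List (Fin 3 × Bool)) (i : Fin 3) :
    cntL (pwL e w) i = e i * cntL w i := by
  induction w with
  | nil => simp [pwL, cntL]
  | cons x w ih =>
    rw [RtQ3_cons, cntL, List.countP_append, List.countP_replicate]
    rw [cntL] at ih
    rw [ih, cntL, cntL, List.countP_cons]
    by_cases h : x.1 = i
    · subst h
      simp [mul_add]
      omega
    · simp [h]

theorem pow_sq {Q : Fin 3 → Bool} (hQ : Q 2 = true) {Ω : CC} (hp : ∀ i, 0 < cnt Ω i)
    (h0 : edgS Ω (sgl ((2 : Fin 3), true)) (sgl ((2 : Fin 3), false)) = 0)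
    {v : List (Fin 3 × Bool)} {h : ℕ} (hh : 1 ≤ h) (hv : v.length = 6) (hv' : ∀ i, cntL v i = 2)
    (hcr : CR (List.replicate h v).flatten) (he : sq Q Ω = cls (List.replicate h v).flatten) :
    ∃ v' : List (Fin 3 × Bool), (∀ i, cntL v' i = if Q i = true then 1 else 2) ∧
      Ω = cls (List.replicate h v').flatten := by
  have he1 := RtQ3_e1 Q
  obtain ⟨m, rfl⟩ : ∃ m, h = m + 1 := Nat.exists_eq_succ_of_ne_zero (by omega)
  -- a place in `v` where the letter changes
  obtain ⟨p, y, z, q, hvs, hyz⟩ : ∃ p y z q, v = p ++ (y :: z :: q) ∧ y ≠ z := by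
    cases v with
    | nil => simp at hv
    | cons x l =>
      refine RtQ3_split l x ?_
      by_contra hcon
      push Not at hcon
      obtain ⟨i, hi⟩ : ∃ i : Fin 3, i ≠ x.1 := by
        by_cases hx : x.1 = 0
        · exact ⟨1, by rw [hx]; decide⟩
        · exact ⟨0, fun h => hx h.symm⟩
      have h3 := hv' i
      rw [cntL, List.countP_eq_zero.2] at h3
      · omega
      · intro t ht
        rcases List.mem_cons.1 ht with rfl | ht
        · simpa using fun h => hi h.symm
        · rw [hcon t ht]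
          simpa using fun h => hi h.symm
  have hva : v = (p ++ [y]) ++ (z :: q) := by rw [hvs]; simp
  obtain ⟨v1, hv1⟩ : ∃ v1, v1 = (z :: q) ++ (p ++ [y]) := ⟨_, rfl⟩
  have hrotv : v ~r v1 := by
    rw [hva, hv1]
    exact List.isRotated_append
  obtain ⟨U, hU⟩ : ∃ U, U = (List.replicate (m + 1) v1).flatten := ⟨_, rfl⟩
  have hrot : (List.replicate (m + 1) v).flatten ~r U := by
    rw [hva, RtQ3_powrot, hU, List.replicate_succ', List.flatten_append, ← hv1]
    have h5 : (p ++ [y]) ++ ((List.replicate m v1).flatten ++ (z :: q)) ~r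
        ((List.replicate m v1).flatten ++ (z :: q)) ++ (p ++ [y]) := List.isRotated_append
    have h6 : ((List.replicate m v1).flatten ++ (z :: q)) ++ (p ++ [y]) =
        (List.replicate m v1).flatten ++ [v1].flatten := by
      rw [List.append_assoc, ← hv1]
      simp
    rw [h6] at h5
    exact h5
  have hUh : ∀ x ∈ U.head?, x = z := by
    intro x hx
    rw [hU, List.replicate_succ, List.flatten_cons, hv1] at hx
    simpa using hx.symm
  have hUl : ∀ x ∈ U.getLast?, x = y := by
    intro x hx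
    have h5 : U = ((List.replicate m v1).flatten ++ (z :: q) ++ p) ++ [y] := by
      have h6 : [v1].flatten = (z :: q) ++ (p ++ [y]) := by rw [← hv1]; simp
      rw [hU, List.replicate_succ', List.flatten_append, h6]
      simp only [List.append_assoc]
    rw [h5] at hx
    exact RtQ3_last _ _ _ hx
  obtain ⟨w, hw1, hw2, hw3⟩ := RtQ3_rot he1 (CR_of_rotated hrot hcr) (Ω := Ω) (by
    rw [← cls_of_rotated hrot, ← he]
    rfl) (by
      intro x hx
      right
      intro y' hy'
      rw [hUh x hx, hUl y' hy']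
      exact hyz)
  have hw4 : pwL (RtQ3_e Q) w = v1 ++ (List.replicate m v1).flatten := by
    rw [hw3, hU, List.replicate_succ, List.flatten_cons]
  obtain ⟨x1, w'', h7, h8, -⟩ := RtQ3_cut w _ _ hw4 (by
    intro x hx
    right
    intro y' hy'
    have h9 : x = z := by
      cases m with
      | zero => simp at hx
      | succ m =>
        rw [List.replicate_succ, List.flatten_cons, hv1] at hx
        simpa using hx.symm
    have h10 : y' = y := by
      have h11 : v1 = ((z :: q) ++ p) ++ [y] := by rw [hv1, List.append_assoc]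
      rw [h11] at hy'
      exact RtQ3_last _ _ _ hy'
    rw [h9, h10]
    exact hyz)
  have hw5 : w = (List.replicate (m + 1) x1).flatten := by
    apply RtQ3_inj he1
    rw [RtQ3_pwr, h8, hw3, hU]
  refine ⟨x1, ?_, ?_⟩
  · intro i
    have h9 := RtQ3_cntL (RtQ3_e Q) x1 i
    rw [h8, ← cntL_rotated hrotv, hv' i] at h9
    unfold RtQ3_e at h9
    split_ifs at h9 ⊢
    · omega
    · omega
  · rw [← hw2, ← hw5]

end Pool.Agent.Sims
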