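import Pool.Agent.Sims.RtE4
import Pool.Agent.Sims.RtB3
import Pool.Agent.Sims.RtB4
import Pool.Agent.Sims.RtQ3
import Pool.Agent.Sims.RtC3
import Pool.Agent.Sims.RtC7
import Pool.Agent.Sims.EvUnc
import Pool.Agent.Sims.EvCt
import Pool.Agent.Sims.EvN4
import Pool.Agent.Sims.EvDet5
import Pool.Agent.Sims.EvMvT

/-!
# Module `RtE7` : the classes `SQ P2 Qt (· ≠ 2) Ω`: at most 9 up to the sign of `a`

* `cp_sep`: `BQ n P Q Ω`, `i` single (`Q i = false`, `¬ P i`, `M i`), crossed (`CrP n P (sq Q Ω') (i,true)`) for all `Ω' ∈ SQ P Q M Ω`; `A` with `NP n P (sq Q Ω) A`, nontrivial, separating `x_i, x_i⁻¹`: `VP n P (sq Q Ω) A`.  If `A` separates `x_j, x_j⁻¹`, `Q j`: `PrC j` is `NP` (`B.t`, `pw_cap`; it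
  separates no pair) and crosses `A` (`sq_cross`).  Otherwise `QF Q i A`; WLOG `(i,true) ∈ A` (`Pw.NC_compl`, `Pw.VX_compl`); `A` is level at `Ω` (`pw_cap`, `pw_cnt`), `Ω' = act (wh (i,true) A) Ω`, `sq Q Ω' = act (wh (i,true) A) (sq Q Ω)` (`pw_wh`); `Pw.nb'`.
* `sq_detTP`: copy of `sq_detT` (module `RtQ2`) for the world `P`: only the counts `n` of the generators `≠ 0` are used.
* `nd_star`: `EqP n P2 V`, `n < capC V (PrC 2)`, some nontrivial `NP` cut, all nontrivial `NP` cuts crossed: contradiction.  As in `RtC3`: `A` nontrivial `NP`, `C` crossing it; WLOG `c^{±1} ∉ A, C`; `Pw.f1`: the four corners are tight; the corner `¬A ∧ ¬C` contains `c^{±1}` and (as `PrC 2` is not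
  tight) a light letter `s`, so `X = A ∨ C` is the set of all light letters except `s`, tight, nontrivial; `C'` crossing `X`, `c^{±1} ∈ C'`: the corner `¬C' ∧ ¬X`... the corners outside `X` are `{s}` and `{c, c⁻¹}`: `{c, c⁻¹}` tight, contradiction.
* `t8`: world `P0`, `PrC 0` tight, `1` square with `PrC 1` crossed, `2` crossed for all `Ω' ∈ SQ P0 Qt (· ≠ 0) Ω`.  `P0`-fixed cuts never cross `PrC 0`.  Nontrivial `NP` cuts of `S = sq Qt Ω` other than `PrC 0` and its complement are crossed: separating `1`: `PrC 1` (`sq_cross`); separating `2`: `cp_sep`;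
  otherwise it is `PrC 1` (`hX`) or `PrC 2` (`Pw.crs_pair`) or a complement.  `Pw.starT` (`hex`: `PrC 1`): `Five n S`.  `DetT` for `(1,·)`: `sq_detTP`; for `(2,·)`: `Pw.det_five`, `Pw.crs_bar`.  `Pw.pat_five`: `S = mk (gT j g)`, `2 * j.length = n`.  For `Ω' ∈ SQ`: `sq Qt Ω' ∈ EP P0 (· ≠ 0) S`
  (`sq_bq`), so `sq Qt Ω' = mk (gT j g')` (induction as in `t_all`, module `RtC7`: `gT_move`, `Pw.Lv_compl`), `gT_sq`: `Ω' = mk (gT j g'')`, `In12 g''`; `gT_cnt` and `2 cnt Ω' 1 = n`, `cnt Ω' 2 = n` (`bq_cnt`, `bq_cnt'`): `g''.toWord` is a reduced word with one letter `t = (1,·)` and two letters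
  `x = (2,·)`: `t x x`, `x x t` (`x x` of equal signs: 4 words each) or `x t x` (8 words): 16 words, up to the sign change `τ` of generator 2 (`gT_tau`): 8.
* `sx9`: (α) some `Ω1 ∈ SQ P2 Qt (· ≠ 2) Ω` with `¬ CrP n P2 (sq Qt Ω1) (0,true)`: `SQ_eq`; `lemUQ` (`i = 0`): `W = act σ.aut (act (wh (0,true) A) W1)`, `W1 ∈ SQ P2 Qt (· = 1) Ω1`, `σ` fixes the letters of generators 1, 2: `Fx σ`.  `sq_line` (second part, `k = 2`): 3 classes `W1`; `lsq2`, `lsq_cov`: 3
  classes `act (wh (0,true) A) W1`: 9.  (β) otherwise: (β1) `n < capC Ω (PrC 2)`: all nontrivial `NP` cuts of `sq Qt Ω` are crossed (separating 1: `PrC 1`; separating 0: `cp_sep`; else `PrC 0` (`Pw.crs_pair`), `PrC 1` (`hX`), not `PrC 2` (not tight), or complements): `nd_star` (`capC (sq Qt Ω) (PrC 2) =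
  capC Ω (PrC 2)`).  (β2) `capC Ω (PrC 2) = n` (`≥ n` by `B.e.low`): `ρ` the exchange of the generators 0 and 2; `t8` for `act ρ.aut Ω` (`bq_SPerm`-type transport between the worlds `P2` and `P0`: `P2 i ↔ P0 (ρ.perm i)`, `Qt (ρ.perm i) = Qt i`; `pw_SPerm`, `capC_SPerm`, `TwBasic_SPerm`), and back: `τ` becomes a
  sign change of `a`.
* `covX_sub`: as `covF2_sub`.
Difficulty 4.
-/

namespace Pool.Agent.Sims

/-- cover up to the sign of `a` -/
def CovX (S : Set CC) (N : ℕ) : Prop := ∃ F : Finset CC, F.card ≤ N ∧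
  ∀ W ∈ S, ∃ σ : SPerm (Fin 3), Fx σ ∧ ∃ e ∈ F, W = act σ.aut e

theorem RtE7_fx (σ : SPerm (Fin 3)) :
    Fx σ ↔ ∀ x : Fin 3 × Bool, x.1 ≠ 0 → σ.letter x = x := by
  constructor
  · rintro ⟨h1, h2, h3⟩ ⟨i, b⟩ hi
    have key : ∀ i : Fin 3, i ≠ 0 → i = 1 ∨ i = 2 := by decide
    rcases key i hi with rfl | rfl
    · simp [SPerm.letter, h1, h2]
    · simp [SPerm.letter, h1, h3]
  · intro h
    have a1 := h (1, true) (by decide)
    have a2 := h (2, true) (by decide)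
    have b1 : σ.perm 1 = 1 := congrArg Prod.fst a1
    have b2 : σ.perm 2 = 2 := congrArg Prod.fst a2
    have c1 : (if σ.sign 1 = true then true else !true) = true := congrArg Prod.snd a1
    have c2 : (if σ.sign 2 = true then true else !true) = true := congrArg Prod.snd a2
    have b0 : σ.perm 0 = 0 := by
      have d1 : σ.perm 0 ≠ 1 := fun hh => absurd (σ.perm.injective (hh.trans b1.symm)) (by decide)
      have d2 : σ.perm 0 ≠ 2 := fun hh => absurd (σ.perm.injective (hh.trans b2.symm)) (by decide)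
      have key : ∀ i : Fin 3, i ≠ 1 → i ≠ 2 → i = 0 := by decide
      exact key _ d1 d2
    refine ⟨?_, ?_, ?_⟩
    · apply Equiv.ext
      intro i
      have key : ∀ i : Fin 3, i = 0 ∨ i = 1 ∨ i = 2 := by decide
      rcases key i with rfl | rfl | rfl
      · exact b0
      · exact b1
      · exact b2
    · by_contra hs
      simp [hs] at c1
    · by_contra hs
      simp [hs] at c2

theorem RtE7_fx_inv {σ : SPerm (Fin 3)} (h : Fx σ) {x : Fin 3 × Bool} (hx : x.1 ≠ 0) :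
    σ.inv.letter x = x := by
  have h1 := (RtE7_fx σ).1 h x hx
  conv_lhs => rw [← h1]
  rw [SPerm.inv_letter]

theorem covX_sub {S : Set CC} {N : ℕ} (h : CovX S N) : ∃ F : Finset CC, F.card ≤ N ∧
    (∀ e ∈ F, e ∈ S) ∧ ∀ W ∈ S, ∃ σ : SPerm (Fin 3), Fx σ ∧ ∃ e ∈ F, W = act σ.aut e := by
  classical
  obtain ⟨F, h1, h2⟩ := h
  obtain ⟨g, hg⟩ : ∃ g : CC → CC, ∀ e, (∃ W ∈ S, ∃ σ : SPerm (Fin 3), Fx σ ∧ W = act σ.aut e) →
      g e ∈ S ∧ ∃ σ : SPerm (Fin 3), Fx σ ∧ g e = act σ.aut e := by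
    have h3 : ∀ e : CC, ∃ W, (∃ W ∈ S, ∃ σ : SPerm (Fin 3), Fx σ ∧ W = act σ.aut e) →
        W ∈ S ∧ ∃ σ : SPerm (Fin 3), Fx σ ∧ W = act σ.aut e := by
      intro e
      by_cases h4 : ∃ W ∈ S, ∃ σ : SPerm (Fin 3), Fx σ ∧ W = act σ.aut e
      · obtain ⟨W, hW, hσ⟩ := h4
        exact ⟨W, fun _ => ⟨hW, hσ⟩⟩
      · exact ⟨e, fun h => absurd h h4⟩
    choose g hg using h3
    exact ⟨g, hg⟩
  refine ⟨(F.filter (fun e => ∃ W ∈ S, ∃ σ : SPerm (Fin 3), Fx σ ∧ W = act σ.aut e)).image g,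
    (Finset.card_image_le.trans (Finset.card_filter_le _ _)).trans h1, ?_, ?_⟩
  · intro e he
    obtain ⟨e', he', rfl⟩ := Finset.mem_image.1 he
    exact (hg e' (Finset.mem_filter.1 he').2).1
  · intro W hW
    obtain ⟨σ, hσ, e, he, hWe⟩ := h2 W hW
    have h3 : ∃ W ∈ S, ∃ σ : SPerm (Fin 3), Fx σ ∧ W = act σ.aut e := ⟨W, hW, σ, hσ, hWe⟩
    obtain ⟨h4, τ, hτ, h5⟩ := hg e h3
    obtain ⟨π, hπ, _, _, hl⟩ := SPerm_mul σ τ.inv
    refine ⟨π, ?_, g e, Finset.mem_image.2 ⟨e, Finset.mem_filter.2 ⟨he, h3⟩, rfl⟩, ?_⟩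
    · rw [RtE7_fx]
      intro x hx
      rw [hl, RtE7_fx_inv hτ hx, (RtE7_fx σ).1 hσ x hx]
    · rw [← hπ, h5, act_SPerm_inv, hWe]

theorem RtE7_cap {Q : Fin 3 → Bool} {Ω : CC} {A : Ct}
    (h : ∀ k, Q k = true → A (k, true) = A (k, false)) : capC (sq Q Ω) A = capC Ω A := by
  unfold sq
  rw [pw_cap (by intro k; split_ifs <;> omega)]
  have h0 : ∑ i : Fin 3, (if A (i, true) = A (i, false) then 0 else
      ((if Q i = true then 2 else 1) - 1) * cnt Ω i) = 0 := by
    apply Finset.sum_eq_zero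
    intro k _
    by_cases h1 : A (k, true) = A (k, false)
    · rw [if_pos h1]
    · rw [if_neg h1]
      have h2 : Q k = false := by
        by_contra hq
        rw [Bool.not_eq_false] at hq
        exact h1 (h k hq)
      rw [h2]
      simp
  rw [h0, add_zero]

theorem RtE7_cnt {Q : Fin 3 → Bool} {Ω : CC} (i : Fin 3) :
    cnt (sq Q Ω) i = (if Q i = true then 2 else 1) * cnt Ω i := by
  unfold sq
  rw [pw_cnt (by intro k; split_ifs <;> omega)]

/-- the pair of a square letter is tight -/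
theorem RtE7_prc {n : ℕ} {P : Fin 3 → Prop} {Q : Fin 3 → Bool} {Ω : CC} (B : BQ n P Q Ω) {j : Fin 3}
    (hj : Q j = true) : NP n P (sq Q Ω) (PrC j) := by
  refine ⟨⟨⟨⟨(j, true), by simp [PrC]⟩, ?_⟩, ?_⟩, ?_⟩
  · have key : ∀ j : Fin 3, ∃ i : Fin 3, i ≠ j := by decide
    obtain ⟨i, hi⟩ := key j
    exact ⟨(i, true), by simp [PrC, hi]⟩
  · intro i _
    rfl
  · rw [RtE7_cap (fun k _ => rfl), B.t j hj]

theorem RtE7_prcN (j : Fin 3) : Ntr (PrC j) := by
  revert j
  unfold Ntr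
  decide

theorem RtE7_sep1 {n : ℕ} {P : Fin 3 → Prop} {Q : Fin 3 → Bool} {Ω : CC} (B : BQ n P Q Ω)
    {j : Fin 3} (hj : Q j = true) {A : Ct} (hn : Ntr A) (h : A (j, true) ≠ A (j, false)) :
    VP n P (sq Q Ω) A := ⟨PrC j, RtE7_prc B hj, (sq_cross hn h).1⟩


theorem cp_sep {n : ℕ} {P : Fin 3 → Prop} {Q : Fin 3 → Bool} {M : Fin 3 → Prop} {Ω : CC}
    {i : Fin 3} (B : BQ n P Q Ω) (hi : M i) (hQ : Q i = false) (hP : ¬ P i)
    (h : ∀ Ω' ∈ SQ P Q M Ω, CrP n P (sq Q Ω') (i, true)) {A : Ct} (hA : NP n P (sq Q Ω) A)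
    (hn : Ntr A) (hs : A (i, true) ≠ A (i, false)) : VP n P (sq Q Ω) A := by
  by_cases hq : ∃ j, Q j = true ∧ A (j, true) ≠ A (j, false)
  · obtain ⟨j, hj, hjs⟩ := hq
    exact RtE7_sep1 B hj hn hjs
  · have hq' : ∀ k, Q k = true → A (k, true) = A (k, false) := by
      intro k hk
      by_contra hc
      exact hq ⟨k, hk, hc⟩
    have main : ∀ A : Ct, NP n P (sq Q Ω) A → Ntr A →
        (∀ k, Q k = true → A (k, true) = A (k, false)) → A (i, true) = true →
        A (i, false) = false → VP n P (sq Q Ω) A := by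
      intro A hA hn hqA h1 h2
      have hLP : LP P (sq Q Ω) (i, true) A := (Pw.Lv_NC B.e).2 ⟨h1, h2, hA⟩
      have hLv : Lv Ω (i, true) A := by
        refine ⟨h1, h2, ?_⟩
        rw [← RtE7_cap hqA, hA.2]
        exact (bq_cnt' B hQ hP).symm
      have hQF : QF Q i A := fun k hk _ => hqA k hk
      have hmem : act (wh (i, true) A) Ω ∈ SQ P Q M Ω :=
        SQ_step (SQ_refl M Ω) hi hLv hA.1.2 hQF
      have hcr := h _ hmem
      have he : sq Q (act (wh (i, true) A) Ω) = act (wh (i, true) A) (sq Q Ω) := by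
        unfold sq
        apply pw_wh
        · simp [hQ]
        · intro k _ hk
          apply hqA
          by_contra hc
          apply hk
          simp [hc]
      rw [he] at hcr
      exact Pw.nb' B.e hLP hn hcr
    cases h1 : A (i, true)
    · have h2 : A (i, false) = true := by
        cases h3 : A (i, false)
        · exact absurd (h1.trans h3.symm) hs
        · rfl
      have := main (fun x => !A x) (Pw.NC_compl hA) (Ntr_compl hn)
        (fun k hk => by simp only [hq' k hk]) (by simp [h1]) (by simp [h2])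
      rwa [Pw.VX_compl] at this
    · have h2 : A (i, false) = false := by
        cases h3 : A (i, false)
        · rfl
        · exact absurd (h1.trans h3.symm) hs
      exact main A hA hn hq' h1 h2

theorem RtE7_ne {V : CC} {x y t : Fin 3 × Bool} (h : Ps V x y t) : x ≠ bar y ∧ y ≠ bar t := by
  have h1 := fi_red (ps_fi.1 h)
  rw [FreeGroup.IsReduced, List.isChain_cons_cons, List.isChain_cons_cons] at h1
  have aux : ∀ a b : Fin 3 × Bool, (a.1 = b.1 → a.2 = b.2) → a ≠ bar b := by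
    rintro ⟨a1, a2⟩ ⟨b1, b2⟩ h2 h3
    simp only [bar, Prod.mk.injEq] at h3
    have h4 := h2 h3.1
    simp only at h4
    rw [h4] at h3
    cases b2 <;> simp at h3
  exact ⟨aux _ _ h1.1, aux _ _ h1.2.1⟩

theorem RtE7_len {n : ℕ} {P : Fin 3 → Prop} {V : CC} (E : EqP n P V) (hP : ∀ i, i ≠ 0 → ¬ P i) :
    2 ≤ cycLen V := by
  rw [cycLen_eq_sum, Fin.sum_univ_three, E.c 1 (hP 1 (by decide)), E.c 2 (hP 2 (by decide))]
  have := E.h4
  omega

/-- the neighbours of a letter off `T` in the 5-cycle case -/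
theorem RtE7_nbrT {n : ℕ} {P : Fin 3 → Prop} {V : CC} (E : EqP n P V) (hP : ∀ i, i ≠ 0 → ¬ P i)
    (h5 : Five n V) {u p p' : Fin 3 × Bool}
    (hu : u.1 ≠ 0) (hv' : 0 < edgS V (sgl u) (sgl (bar u))) (hp : p ≠ u)
    (hpe : 0 < edgS V (sgl u) (sgl p))
    (hp' : p' ≠ u) (hpe' : 0 < edgS V (sgl u) (sgl p')) (h1 : p ≠ bar u) (h2 : p' ≠ bar u) :
    eT p p' := by
  obtain ⟨X, Y, a1, a2, a3, a4, a5, a6, a7, a8⟩ := EvDet5_blocks h5 hu
  have key : ∀ q : Fin 3 × Bool, q ≠ u → 0 < edgS V (sgl u) (sgl q) → X q = true ∨ Y q = true := by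
    intro q hq hqe
    by_contra hcon
    rw [not_or, Bool.not_eq_true, Bool.not_eq_true] at hcon
    have e2 := Pw.EvDet5_nbr E (hP _ hu) a3 a4 a6 a7 a8 hq hcon.1 hcon.2
    omega
  have hY : Y (bar u) = true := by
    rcases key (bar u) (bar_ne u) hv' with h3 | h3
    · rw [a5] at h3; exact absurd h3 (by decide)
    · exact h3
  have hYs : ∀ q, Y q = true → q = bar u := by
    intro q hq
    rcases a2 with h3 | ⟨s, hs, h3⟩
    · rw [h3] at hY
      simp only [PrC, decide_eq_true_eq] at hY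
      exact absurd hY hu
    · rw [h3] at hY hq
      simp only [sgl, decide_eq_true_eq] at hY hq
      rw [hq, hY]
  have hX : ∀ q : Fin 3 × Bool, q ≠ u → 0 < edgS V (sgl u) (sgl q) → q ≠ bar u → X q = true := by
    intro q hq hqe hqb
    rcases key q hq hqe with h3 | h3
    · exact h3
    · exact absurd (hYs q h3) hqb
  exact EvDet5_Blk_eT a1 (hX p hp hpe h1) (hX p' hp' hpe' h2)


theorem sq_detTP {n : ℕ} {P : Fin 3 → Prop} {Q : Fin 3 → Bool} {Ω : CC}
    (E : EqP n P (sq Q Ω)) (hP : ∀ i, i ≠ 0 → ¬ P i) (h5 : Five n (sq Q Ω)) {j : Fin 3}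
    (hj : Q j = true) (hj0 : j ≠ 0) (h0 : edgS Ω (sgl (j, true)) (sgl (j, false)) = 0)
    (h1 : 2 * edgS (sq Q Ω) (sgl (j, true)) (sgl (j, false)) = n) (b : Bool) :
    DetT (sq Q Ω) (j, b) := by
  have hlen := RtE7_len E hP
  have h4 := E.h4
  have hbb : ∀ b : Bool, 0 < edgS (sq Q Ω) (sgl (j, b)) (sgl (bar (j, b))) := by
    intro b
    cases b
    · have : (bar (j, false) : Fin 3 × Bool) = (j, true) := rfl
      rw [this, edgS_comm]
      omega
    · have : (bar (j, true) : Fin 3 × Bool) = (j, false) := rfl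
      rw [this]
      omega
  have hT : ∀ u v : Fin 3 × Bool, u = (j, b) → v ≠ (j, b) → ¬ eT u v ∧ ¬ eT v u := by
    intro u v hu hv
    constructor
    · rintro (h | ⟨h, -⟩)
      · exact hv (h ▸ hu)
      · rw [hu] at h; exact hj0 h
    · rintro (h | ⟨-, h⟩)
      · exact hv (h.trans hu)
      · rw [hu] at h; exact hj0 h
  intro x t x' t' p p'
  have q1 := sq_run hj h0 p
  have q2 := sq_run hj h0 p'
  obtain ⟨n1, n2⟩ := RtE7_ne p
  obtain ⟨n3, n4⟩ := RtE7_ne p'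
  obtain ⟨e1, e2⟩ := ps_edge hlen p
  obtain ⟨e3, e4⟩ := ps_edge hlen p'
  by_cases c1 : t = (j, b) <;> by_cases c2 : t' = (j, b)
  · have d1 : x ≠ (j, b) := fun h => (q1.1 h) c1
    have d2 : x' ≠ (j, b) := fun h => (q2.1 h) c2
    have hxx : eT x x' := by
      have f1 : (bar (j, b) : Fin 3 × Bool) = (j, !b) := rfl
      have f2 : (bar (j, !b) : Fin 3 × Bool) = (j, b) := by simp [bar]
      rw [f1] at n1 n3 e1 e3
      rw [edgS_comm] at e1 e3
      refine RtE7_nbrT E hP h5 (u := (j, !b)) hj0 (hbb (!b)) n1 e1 n3 e3 ?_ ?_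
      · rw [f2]; exact d1
      · rw [f2]; exact d2
    exact ⟨fun _ => Or.inl (c1.trans c2.symm), fun _ => hxx⟩
  · have d1 : x ≠ (j, b) := fun h => (q1.1 h) c1
    have d2 : x' = (j, b) := q2.2 c2
    constructor
    · intro h; exact absurd h (hT x' x d2 d1).2
    · intro h; exact absurd h (hT t t' c1 c2).1
  · have d1 : x = (j, b) := q1.2 c1
    have d2 : x' ≠ (j, b) := fun h => (q2.1 h) c2
    constructor
    · intro h; exact absurd h (hT x x' d1 d2).1
    · intro h; exact absurd h (hT t' t c2 c1).2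
  · have d1 : x = (j, b) := q1.2 c1
    have d2 : x' = (j, b) := q2.2 c2
    have htt : eT (bar t) (bar t') := by
      refine RtE7_nbrT E hP h5 (u := (j, b)) hj0 (hbb b) n2.symm e2 n4.symm e4 ?_ ?_
      · rw [ne_eq, bar_inj]; exact c1
      · rw [ne_eq, bar_inj]; exact c2
    have htt' : eT t t' := by
      rcases htt with h | ⟨h, h'⟩
      · exact Or.inl (bar_inj.1 h)
      · exact Or.inr ⟨h, h'⟩
    exact ⟨fun _ => htt', fun _ => Or.inl (d1.trans d2.symm)⟩

theorem RtE7_four {p q r s x : Fin 3 × Bool} (hp : p.1 ≠ 2) (hq : q.1 ≠ 2) (hr : r.1 ≠ 2)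
    (hs : s.1 ≠ 2) (hx : x.1 ≠ 2) (hpq : p ≠ q) (hpr : p ≠ r) (hps : p ≠ s) (hqr : q ≠ r)
    (hqs : q ≠ s) (hrs : r ≠ s) : x = p ∨ x = q ∨ x = r ∨ x = s := by
  have h1 : ({p, q, r, s} : Finset (Fin 3 × Bool)) = Finset.univ.filter (fun x => x.1 ≠ 2) := by
    apply Finset.eq_of_subset_of_card_le
    · intro y hy
      simp only [Finset.mem_insert, Finset.mem_singleton] at hy
      simp only [Finset.mem_filter, Finset.mem_univ, true_and]
      rcases hy with rfl | rfl | rfl | rfl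
      · exact hp
      · exact hq
      · exact hr
      · exact hs
    · have h2 : (Finset.univ.filter (fun x : Fin 3 × Bool => x.1 ≠ 2)).card = 4 := by decide
      have h3 : ({p, q, r, s} : Finset (Fin 3 × Bool)).card = 4 := by
        rw [Finset.card_insert_of_notMem, Finset.card_insert_of_notMem, Finset.card_insert_of_notMem,
          Finset.card_singleton]
        · simpa using hrs
        · simp only [Finset.mem_insert, Finset.mem_singleton, not_or]
          exact ⟨hqr, hqs⟩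
        · simp only [Finset.mem_insert, Finset.mem_singleton, not_or]
          exact ⟨hpq, hpr, hps⟩
      rw [h2, h3]
  have h4 : x ∈ ({p, q, r, s} : Finset (Fin 3 × Bool)) := by
    rw [h1]
    simp [hx]
  simpa only [Finset.mem_insert, Finset.mem_singleton] using h4

theorem RtE7_fst {A : Ct} (h1 : A (2, true) = false) (h2 : A (2, false) = false) {x : Fin 3 × Bool}
    (hx : x.1 = 2) : A x = false := by
  rcases x with ⟨i, b⟩
  have hi : i = 2 := hx
  subst hi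
  cases b
  · exact h2
  · exact h1

theorem RtE7_nrm {n : ℕ} {V : CC} {A : Ct} (hA : NP n P2 V A) : ∃ A' : Ct, NP n P2 V A' ∧
    A' (2, true) = false ∧ A' (2, false) = false ∧ (∀ C : Ct, Crossg C A → Crossg C A') ∧
    (∀ C : Ct, Crossg A C → Crossg A' C) := by
  have hf : A (2, true) = A (2, false) := hA.1.2 2 rfl
  cases h : A (2, true) with
  | false => exact ⟨A, hA, h, by rw [← hf]; exact h, fun C hC => hC, fun C hC => hC⟩
  | true =>
    refine ⟨fun x => !A x, Pw.NC_compl hA, by simp [h], by simp [← hf, h], fun C hC => ?_,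
      fun C hC => ?_⟩
    · exact Crossg_compl' hC
    · exact Crossg_compl hC


theorem nd_star {n : ℕ} {V : CC} (E : EqP n P2 V) (hD : n < capC V (PrC 2))
    (hex : ∃ A, NP n P2 V A ∧ Ntr A) (hall : ∀ A, NP n P2 V A → Ntr A → VP n P2 V A) : False := by
  have key : ∀ A : Ct, NP n P2 V A → Ntr A → ∃ C, NP n P2 V C ∧ Crossg C A :=
    fun A hA hn => hall A hA hn
  obtain ⟨A0, hNA0, hn0⟩ := hex
  obtain ⟨C0, hC0, hX0⟩ := key A0 hNA0 hn0
  obtain ⟨A, hNA, hA1, hA2, hA3, -⟩ := RtE7_nrm hNA0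
  obtain ⟨C, hNC, hC1, hC2, -, hC4⟩ := RtE7_nrm hC0
  have hX : Crossg C A := hC4 _ (hA3 _ hX0)
  obtain ⟨-, -, -, hN4, hNX⟩ := Pw.f1 E hNC hNA hX
  have hs : ∃ s : Fin 3 × Bool, s.1 ≠ 2 ∧ C s = false ∧ A s = false := by
    by_contra hc
    have h1 : (fun x => !C x && !A x) = PrC 2 := by
      funext x
      by_cases hx : x.1 = 2
      · simp [PrC, hx, RtE7_fst hC1 hC2 hx, RtE7_fst hA1 hA2 hx]
      · have h2 : ¬ (C x = false ∧ A x = false) := fun h => hc ⟨x, hx, h.1, h.2⟩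
        simp only [PrC, hx, decide_false]
        cases h3 : C x <;> cases h4 : A x <;> simp_all
    have h2 := hN4.2
    rw [h1] at h2
    omega
  obtain ⟨s, hs2, hCs, hAs⟩ := hs
  obtain ⟨⟨p, hp1, hp2⟩, ⟨q, hq1, hq2⟩, ⟨r, hr1, hr2⟩, -⟩ := id hX
  have hp : p.1 ≠ 2 := fun h => by rw [RtE7_fst hC1 hC2 h] at hp1; exact absurd hp1 (by decide)
  have hq : q.1 ≠ 2 := fun h => by rw [RtE7_fst hC1 hC2 h] at hq1; exact absurd hq1 (by decide)
  have hr : r.1 ≠ 2 := fun h => by rw [RtE7_fst hA1 hA2 h] at hr2; exact absurd hr2 (by decide)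
  have hpq : p ≠ q := by rintro rfl; rw [hp2] at hq2; exact absurd hq2 (by decide)
  have hpr : p ≠ r := by rintro rfl; rw [hp1] at hr1; exact absurd hr1 (by decide)
  have hps : p ≠ s := by rintro rfl; rw [hp1] at hCs; exact absurd hCs (by decide)
  have hqr : q ≠ r := by rintro rfl; rw [hq1] at hr1; exact absurd hr1 (by decide)
  have hqs : q ≠ s := by rintro rfl; rw [hq1] at hCs; exact absurd hCs (by decide)
  have hrs : r ≠ s := by rintro rfl; rw [hr2] at hAs; exact absurd hAs (by decide)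
  have hXall : ∀ x : Fin 3 × Bool, x.1 ≠ 2 → x ≠ s → (C x || A x) = true := by
    intro x hx hxs
    rcases RtE7_four hp hq hr hs2 hx hpq hpr hps hqr hqs hrs with h | h | h | h
    · rw [h, hp1]; rfl
    · rw [h, hq1]; rfl
    · rw [h, hr2]; simp
    · exact absurd h hxs
  have hnX : Ntr (fun x => C x || A x) := by
    refine ⟨⟨p, q, hpq, by simp [hp1], by simp [hq1]⟩, ⟨s, (2, true), ?_, by simp [hCs, hAs],
      by simp [hC1, hA1]⟩⟩
    intro h
    exact hs2 (by rw [h])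
  obtain ⟨C1', hNC1, hX1⟩ := key _ hNX hnX
  obtain ⟨D, hND, hD1, hD2, -, hD4⟩ := RtE7_nrm hNC1
  have hX2 : Crossg D (fun x => C x || A x) := hD4 _ hX1
  obtain ⟨-, -, -, hN5, -⟩ := Pw.f1 E hND hNX hX2
  obtain ⟨-, ⟨u, hu1, hu2⟩, -, -⟩ := id hX2
  have hu : u.1 ≠ 2 := fun h => by rw [RtE7_fst hD1 hD2 h] at hu1; exact absurd hu1 (by decide)
  have hus : u = s := by
    by_contra hne
    have := hXall u hu hne
    have hu2' : (C u || A u) = false := hu2
    rw [this] at hu2'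
    exact absurd hu2' (by decide)
  subst hus
  have h1 : (fun x => !D x && !(fun x => C x || A x) x) = PrC 2 := by
    funext x
    by_cases hx : x.1 = 2
    · simp [PrC, hx, RtE7_fst hC1 hC2 hx, RtE7_fst hA1 hA2 hx, RtE7_fst hD1 hD2 hx]
    · by_cases hxu : x = u
      · simp [PrC, hxu, hu1, hu]
      · have h3 := hXall x hx hxu
        simp [PrC, hx, h3]
  have h2 := hN5.2
  rw [h1] at h2
  omega

/-- fixed cuts do not cross the pair `T` -/
theorem RtE7_nx {n : ℕ} {V : CC} : ¬ VP n P0 V (PrC 0) := by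
  rintro ⟨C, hC, ⟨x1, a1, b1⟩, -, ⟨x2, a2, b2⟩, -⟩
  have h0 : C (0, true) = C (0, false) := hC.1.2 0 rfl
  have key : ∀ x : Fin 3 × Bool, PrC 0 x = true → C x = C (0, true) := by
    rintro ⟨i, b⟩ hx
    simp only [PrC, decide_eq_true_eq] at hx
    subst hx
    cases b
    · exact h0.symm
    · rfl
  rw [key x1 b1] at a1
  rw [key x2 b2, a1] at a2
  exact absurd a2 (by decide)

theorem RtE7_path {V : CC} {j : List (ℤ × Bool)}
    {g : FreeGroup (Fin 3)} (hg : In12 g) (hg1 : g ≠ 1) (hV : V = ConjClasses.mk (gT j g))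
    {W : CC} (hW : W ∈ EP P0 (fun i => i ≠ 0) V) :
    ∃ g' : FreeGroup (Fin 3), In12 g' ∧ g' ≠ 1 ∧ W = ConjClasses.mk (gT j g') := by
  change Relation.ReflTransGen (StP P0 (fun i => i ≠ 0)) V W at hW
  induction hW with
  | refl => exact ⟨g, hg, hg1, hV⟩
  | @tail W W' hW hst ih =>
    obtain ⟨g', hg', hg1', hW'⟩ := ih
    obtain ⟨y, B, hy, hB, rfl⟩ := hst
    have hB0 : B (0, true) = B (0, false) := hB.2.2.2 0 rfl
    cases b1 : B (0, true)
    · have b2 : B (0, false) = false := by rw [← hB0, b1]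
      refine ⟨wh y B g', wh_In12 hy B hg', fun h => hg1' ?_, ?_⟩
      · exact (map_eq_one_iff _ (MulEquiv.injective _)).1 h
      · rw [hW', gT_move hy b1 b2]
    · have b2 : B (0, false) = true := by rw [← hB0, b1]
      have hc := Pw.Lv_compl hB
      have hy' : (bar y).1 ≠ 0 := hy
      have c1 : (fun x => !B x) (0, true) = false := by
        change (!B (0, true)) = false
        rw [b1]; rfl
      have c2 : (fun x => !B x) (0, false) = false := by
        change (!B (0, false)) = false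
        rw [b2]; rfl
      refine ⟨wh (bar y) (fun x => !B x) g', wh_In12 hy' _ hg', fun h => hg1' ?_, ?_⟩
      · exact (map_eq_one_iff _ (MulEquiv.injective _)).1 h
      · rw [← hc.2, hW', gT_move hy' c1 c2]

/-- the sign change of the generator 2 -/
def RtE7_sp (s : Bool) : SPerm (Fin 3) := ⟨1, fun i => if i = 2 then s else true⟩

/-- the eight normal forms -/
def RtE7_F : Finset (List (Fin 3 × Bool)) :=
  {[(1, true), (2, true), (2, true)], [(1, false), (2, true), (2, true)],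
    [(2, true), (2, true), (1, true)], [(2, true), (2, true), (1, false)],
    [(2, true), (1, true), (2, true)], [(2, true), (1, true), (2, false)],
    [(2, true), (1, false), (2, true)], [(2, true), (1, false), (2, false)]}

theorem RtE7_check : ∀ a b c : Fin 3 × Bool, ((a.1 ≠ b.1 ∨ a.2 = b.2) ∧ (b.1 ≠ c.1 ∨ b.2 = c.2) ∧
    cntL [a, b, c] 0 = 0 ∧ cntL [a, b, c] 1 = 1 ∧ cntL [a, b, c] 2 = 2) →
    ∃ s : Bool, ∃ u0 ∈ RtE7_F, [a, b, c] = u0.map (RtE7_sp s).letter := by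
  decide +kernel

theorem RtE7_norm {u : List (Fin 3 × Bool)} (hr : FreeGroup.IsReduced u) (h0 : cntL u 0 = 0)
    (h1 : cntL u 1 = 1) (h2 : cntL u 2 = 2) :
    ∃ s : Bool, ∃ u0 ∈ RtE7_F, u = u0.map (RtE7_sp s).letter := by
  have hl : u.length = 3 := by rw [EvCt_length, h0, h1, h2]
  match u, hl with
  | [a, b, c], _ =>
    rw [FreeGroup.IsReduced, List.isChain_cons_cons, List.isChain_cons_cons] at hr
    have f1 : a.1 ≠ b.1 ∨ a.2 = b.2 := by
      by_cases h : a.1 = b.1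
      · exact Or.inr (hr.1 h)
      · exact Or.inl h
    have f2 : b.1 ≠ c.1 ∨ b.2 = c.2 := by
      by_cases h : b.1 = c.1
      · exact Or.inr (hr.2.1 h)
      · exact Or.inl h
    exact RtE7_check a b c ⟨f1, f2, h0, h1, h2⟩


theorem t8 {n : ℕ} {Ω : CC} (B : BQ n P0 Qt Ω) (h0 : 0 < cnt Ω 0) (hT : capC Ω (PrC 0) = n)
    (hX : VP n P0 (sq Qt Ω) (PrC 1))
    (hc : ∀ Ω' ∈ SQ P0 Qt (fun i => i ≠ 0) Ω, CrP n P0 (sq Qt Ω') (2, true)) :
    ∃ F : Finset CC, F.card ≤ 8 ∧ ∀ Ω' ∈ SQ P0 Qt (fun i => i ≠ 0) Ω,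
      ∃ τ : SPerm (Fin 3), (τ.perm = 1 ∧ τ.sign 0 = true ∧ τ.sign 1 = true) ∧
        ∃ e ∈ F, Ω' = act τ.aut e := by
  classical
  have E := B.e
  have hQ1 : Qt 1 = true := rfl
  have hQ0 : Qt 0 = false := rfl
  have hQ2 : Qt 2 = false := rfl
  have hP : ∀ i : Fin 3, i ≠ 0 → ¬ P0 i := fun i hi h => hi h
  have hN : NP n P0 (sq Qt Ω) (PrC 0) := by
    refine ⟨⟨⟨⟨(0, true), rfl⟩, ⟨(1, true), rfl⟩⟩, fun i _ => rfl⟩, ?_⟩
    rw [RtE7_cap (fun k _ => rfl), hT]
  have hu : ¬ VP n P0 (sq Qt Ω) (PrC 0) := RtE7_nx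
  have hcr2 : CrP n P0 (sq Qt Ω) (2, true) := hc Ω (SQ_refl _ Ω)
  have hX2 : VP n P0 (sq Qt Ω) (PrC 2) := Pw.crs_pair E (z := (2, true)) hcr2
  have hcases : ∀ Q : Ct, NP n P0 (sq Qt Ω) Q → Ntr Q → ¬ VP n P0 (sq Qt Ω) Q →
      (∀ x, Q x = PrC 0 x) ∨ (∀ x, Q x = !PrC 0 x) := by
    intro Q hQ hn hv
    have h1 : Q (1, true) = Q (1, false) := by
      by_contra hne
      exact hv (RtE7_sep1 B hQ1 hn hne)
    have h2 : Q (2, true) = Q (2, false) := by
      by_contra hne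
      exact hv (cp_sep B (M := fun i => i ≠ 0) (i := 2) (by decide) hQ2 (hP 2 (by decide)) hc hQ
        hn hne)
    have h0 : Q (0, true) = Q (0, false) := hQ.1.2 0 rfl
    have hdec := EvUnc_dec (Q (0, true)) (Q (0, false)) (Q (1, true)) (Q (2, true))
    rw [← EvUnc_eq h1 h2] at hdec
    rcases hdec hn with h | h | h | h | h | h | h | h
    · exact Or.inl h
    · exact Or.inr h
    · exact absurd ((Pw.VX_congr h).2 hX) hv
    · exact absurd ((Pw.VX_congr h).2 (Pw.VX_compl.2 hX)) hv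
    · exact absurd ((Pw.VX_congr h).2 hX2) hv
    · exact absurd ((Pw.VX_congr h).2 (Pw.VX_compl.2 hX2)) hv
    · exfalso
      rcases h with h | h
      · rw [h, h] at h0
        exact absurd h0 (by decide)
      · rw [h, h] at h0
        exact absurd h0 (by decide)
    · exfalso
      rcases h with h | h
      · rw [h, h] at h0
        exact absurd h0 (by decide)
      · rw [h, h] at h0
        exact absurd h0 (by decide)
  have h5 : Five n (sq Qt Ω) := by
    refine Pw.starT E hN hu ⟨PrC 1, RtE7_prc B hQ1, RtE7_prcN 1, ⟨(1, true), by decide⟩,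
      ⟨(2, true), by decide⟩⟩ ?_
    intro Q hQ hn ⟨x1, hx1⟩ ⟨x2, hx2⟩
    by_contra hv
    rcases hcases Q hQ hn hv with h | h
    · exact hx1 (h x1)
    · rw [h x2] at hx2
      cases h3 : PrC 0 x2 <;> rw [h3] at hx2 <;> exact absurd hx2 (by decide)
  have hd : ∀ y : Fin 3 × Bool, y.1 ≠ 0 → DetT (sq Qt Ω) y := by
    rintro ⟨i, b⟩ hi
    have key : ∀ i : Fin 3, i ≠ 0 → i = 1 ∨ i = 2 := by decide
    rcases key i hi with rfl | rfl
    · exact sq_detTP E hP h5 hQ1 (by decide) (bq_e0 B hQ1) (bq_e1 B hQ1) b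
    · have hcr : CrP n P0 (sq Qt Ω) (2, b) := by
        cases b
        · exact Pw.crs_bar hcr2
        · exact hcr2
      have hi2 : (((2 : Fin 3), b) : Fin 3 × Bool).1 ≠ 0 := by
        show (2 : Fin 3) ≠ 0
        decide
      exact Pw.det_five E hP h5 hN hu hi2 hcr
  have h0' : 0 < cnt (sq Qt Ω) 0 := by
    rw [RtE7_cnt, hQ0]
    simpa using h0
  obtain ⟨j, g, hl, hj, hg, hg1, hV⟩ := Pw.pat_five E hP h0' h5 hd
  have hn4 := E.h4
  have hjpos : 0 < j.length := by omega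
  have hjne : j ≠ [] := by
    rintro rfl
    simp at hjpos
  refine ⟨RtE7_F.image (fun u => ConjClasses.mk (gT j (FreeGroup.mk u))),
    Finset.card_image_le.trans (by decide), ?_⟩
  intro Ω' hΩ'
  obtain ⟨B', hE'⟩ := sq_bq B hΩ'
  obtain ⟨g', hg', hg1', hS'⟩ := RtE7_path hg hg1 hV hE'
  have hp : ∀ i, 0 < cnt Ω' i := by
    apply bq_pos B'
    intro i hi
    have hi0 : i = 0 := hi
    rw [hi0, SQ_cnt hΩ']
    exact h0
  obtain ⟨g2, hg2, hg21, hΩ2⟩ := gT_sq hj hjne hQ0 hp hg' hg1' hS'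
  have c1 : cntL g2.toWord 1 = 1 := by
    have h1 := bq_cnt B' hQ1
    rw [hΩ2, gT_cnt hj hg2 hg21 (by decide), ← hl] at h1
    have h2 : j.length * cntL g2.toWord 1 = j.length * 1 := by omega
    exact Nat.eq_of_mul_eq_mul_left hjpos h2
  have c2 : cntL g2.toWord 2 = 2 := by
    have h1 := bq_cnt' B' hQ2 (hP 2 (by decide))
    rw [hΩ2, gT_cnt hj hg2 hg21 (by decide), ← hl, mul_comm 2] at h1
    exact Nat.eq_of_mul_eq_mul_left hjpos h1
  obtain ⟨s, u0, hu0, hu⟩ := RtE7_norm FreeGroup.isReduced_toWord (EvCt_zero hg2) c1 c2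
  have hfix : Fix0 (RtE7_sp s) := ⟨rfl, rfl⟩
  refine ⟨RtE7_sp s, ⟨rfl, rfl, rfl⟩, _, Finset.mem_image_of_mem _ hu0, ?_⟩
  rw [gT_tau _ hfix, ← EvCt_aut _ u0 g2 hu, hΩ2]

section transport
variable {n : ℕ} {P P' : Fin 3 → Prop} {Q : Fin 3 → Bool} {V W : CC} {σ : SPerm (Fin 3)}

theorem RtE7_PF {A : Ct} (h : PF P A) (hσ : ∀ i, P i ↔ P' (σ.perm i)) :
    PF P' (fun x => A (σ.inv.letter x)) := by
  intro i hi
  have hp : P (σ.perm.symm i) := by
    rw [hσ, Equiv.apply_symm_apply]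
    exact hi
  have key : ∀ b, A (σ.perm.symm i, b) = A (σ.perm.symm i, true) := by
    intro b
    cases b
    · exact (h _ hp).symm
    · rfl
  exact (key _).trans (key _).symm

theorem RtE7_PF' {A : Ct} (h : PF P' A) (hσ : ∀ i, P i ↔ P' (σ.perm i)) :
    PF P (fun x => A (σ.letter x)) := by
  intro i hi
  have hp : P' (σ.perm i) := (hσ i).1 hi
  have key : ∀ b, A (σ.perm i, b) = A (σ.perm i, true) := by
    intro b
    cases b
    · exact (h _ hp).symm
    · rfl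
  exact (key _).trans (key _).symm

theorem RtE7_Eq (E : EqP n P V) (hσ : ∀ i, P i ↔ P' (σ.perm i)) : EqP n P' (act σ.aut V) := by
  refine ⟨E.h4, ?_, ?_⟩
  · intro i hi
    have h1 := cnt_SPerm σ V (σ.perm.symm i)
    rw [Equiv.apply_symm_apply] at h1
    rw [h1]
    apply E.c
    rw [hσ, Equiv.apply_symm_apply]
    exact hi
  · intro A hA
    rw [capC_SPerm]
    apply E.low
    obtain ⟨⟨⟨x, hx⟩, ⟨y, hy⟩⟩, hP⟩ := hA
    refine ⟨⟨⟨σ.inv.letter x, ?_⟩, ⟨σ.inv.letter y, ?_⟩⟩, RtE7_PF' hP hσ⟩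
    · show A (σ.letter (σ.inv.letter x)) = true
      rw [SPerm.letter_inv, hx]
    · show A (σ.letter (σ.inv.letter y)) = false
      rw [SPerm.letter_inv, hy]

theorem RtE7_NP {A : Ct} (h : NP n P V A) (hσ : ∀ i, P i ↔ P' (σ.perm i)) :
    NP n P' (act σ.aut V) (fun x => A (σ.inv.letter x)) := by
  obtain ⟨⟨⟨⟨x, hx⟩, ⟨y, hy⟩⟩, hP⟩, hc⟩ := h
  refine ⟨⟨⟨⟨σ.letter x, ?_⟩, ⟨σ.letter y, ?_⟩⟩, RtE7_PF hP hσ⟩, ?_⟩
  · show A (σ.inv.letter (σ.letter x)) = true
    rw [SPerm.inv_letter, hx]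
  · show A (σ.inv.letter (σ.letter y)) = false
    rw [SPerm.inv_letter, hy]
  · rw [capC_SPerm, ← hc]
    apply capC_congr
    intro x
    rw [SPerm.inv_letter]

theorem RtE7_VP {A : Ct} (h : VP n P V A) (hσ : ∀ i, P i ↔ P' (σ.perm i)) :
    VP n P' (act σ.aut V) (fun x => A (σ.inv.letter x)) := by
  obtain ⟨C, hC, hX⟩ := h
  exact ⟨_, RtE7_NP hC hσ, Crossg_SPerm hX σ.inv⟩

theorem RtE7_Cr {z : Fin 3 × Bool} (h : CrP n P V z) (hσ : ∀ i, P i ↔ P' (σ.perm i)) :
    CrP n P' (act σ.aut V) (σ.letter z) := by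
  obtain ⟨A, hL, hX⟩ := h
  obtain ⟨h1, h2⟩ := TwBasic_SPerm σ (Pw.LP_Lv hL)
  refine ⟨_, ⟨h1.1, h1.2.1, h1.2.2, RtE7_PF hL.2.2.2 hσ⟩, ?_⟩
  rw [h2]
  exact (Pw.VX_congr (fun x => stc_SPerm σ A z x)).1 (RtE7_VP hX hσ)

theorem RtE7_SQ {M M' : Fin 3 → Prop} (hσ : ∀ i, P i ↔ P' (σ.perm i))
    (hQ : ∀ i, Q (σ.perm i) = Q i) (hM : ∀ i, M i → M' (σ.perm i)) (h : W ∈ SQ P Q M V) :
    act σ.aut W ∈ SQ P' Q M' (act σ.aut V) := by
  have h1 : Relation.ReflTransGen (StQ P Q M) V W := h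
  clear h
  induction h1 with
  | refl => exact SQ_refl M' _
  | tail _ h3 ih =>
    obtain ⟨z, A, hz, hA, hPA, hQA, rfl⟩ := h3
    have h4 := TwBasic_SPerm σ hA
    rw [← h4.2]
    refine SQ_step ih (by rw [letter_fst]; exact hM _ hz) h4.1 (RtE7_PF hPA hσ) ?_
    intro i hi hiz
    have hp : A (σ.perm.symm i, true) = A (σ.perm.symm i, false) := by
      apply hQA
      · rw [← hQ, Equiv.apply_symm_apply]
        exact hi
      · intro hcon
        apply hiz
        rw [letter_fst, ← hcon, Equiv.apply_symm_apply]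
    have key : ∀ b, A (σ.perm.symm i, b) = A (σ.perm.symm i, true) := by
      intro b
      cases b
      · exact hp.symm
      · rfl
    exact (key _).trans (key _).symm

theorem RtE7_sq (hQ : ∀ i, Q (σ.perm i) = Q i) : sq Q (act σ.aut V) = act σ.aut (sq Q V) := by
  unfold sq
  apply pw_SPerm
  intro i
  rw [hQ]

theorem RtE7_PrC (j : Fin 3) (x : Fin 3 × Bool) :
    PrC j (σ.letter x) = PrC (σ.perm.symm j) x := by
  unfold PrC
  rw [decide_eq_decide, letter_fst, Equiv.eq_symm_apply]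

theorem RtE7_BQ (B : BQ n P Q V) (hσ : ∀ i, P i ↔ P' (σ.perm i)) (hQ : ∀ i, Q (σ.perm i) = Q i) :
    BQ n P' Q (act σ.aut V) := by
  have h2 : ∀ j, Q j = true → Q (σ.perm.symm j) = true := by
    intro j hj
    rw [← hQ, Equiv.apply_symm_apply]
    exact hj
  refine ⟨?_, ?_, ?_⟩
  · rw [RtE7_sq hQ]
    exact RtE7_Eq B.e hσ
  · intro j hj
    rw [capC_SPerm, ← B.t _ (h2 j hj)]
    exact capC_congr _ (fun x => RtE7_PrC j x)
  · intro j hj hPj
    apply B.d _ (h2 j hj)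
    rw [hσ, Equiv.apply_symm_apply]
    exact hPj

end transport

/-- the exchange of the generators 0 and 2 -/
def RtE7_r : SPerm (Fin 3) := ⟨Equiv.swap 0 2, fun _ => true⟩

theorem RtE7_union {S : Set CC} {F1 : Finset CC} {k : ℕ} (T : CC → Set CC)
    (hT : ∀ e ∈ F1, Cov (T e) k)
    (hS : ∀ W ∈ S, ∃ σ : SPerm (Fin 3), Fx σ ∧ ∃ W1 ∈ F1, ∃ W2 ∈ T W1, W = act σ.aut W2) :
    CovX S (F1.card * k) := by
  classical
  choose G hG hGT using hT
  refine ⟨F1.attach.biUnion (fun e => G e.1 e.2), ?_, ?_⟩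
  · refine (Finset.card_biUnion_le).trans ?_
    have h1 : ∀ e ∈ F1.attach, (G e.1 e.2).card ≤ k := fun e _ => hG e.1 e.2
    refine (Finset.sum_le_card_nsmul _ _ k h1).trans ?_
    rw [Finset.card_attach, smul_eq_mul]
  · intro W hW
    obtain ⟨σ, hσ, W1, hW1, W2, hW2, he⟩ := hS W hW
    exact ⟨σ, hσ, W2, Finset.mem_biUnion.2 ⟨⟨W1, hW1⟩, Finset.mem_attach _ _, hGT W1 hW1 W2 hW2⟩, he⟩


theorem sx9 {n : ℕ} {Ω : CC} (B : BQ n P2 Qt Ω) (hX : VP n P2 (sq Qt Ω) (PrC 1))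
    (h2 : 0 < cnt Ω 2) : CovX (SQ P2 Qt (fun i => i ≠ 2) Ω) 9 := by
  classical
  have E := B.e
  have hQ1 : Qt 1 = true := rfl
  have hQ0 : Qt 0 = false := rfl
  have hQ2 : Qt 2 = false := rfl
  have hP : ∀ i : Fin 3, i ≠ 2 → ¬ P2 i := fun i hi h => hi h
  by_cases hα : ∃ Ω1 ∈ SQ P2 Qt (fun i => i ≠ 2) Ω, ¬ CrP n P2 (sq Qt Ω1) (0, true)
  · obtain ⟨Ω1, hΩ1, hr⟩ := hα
    rw [← SQ_eq hΩ1]
    obtain ⟨B1, -⟩ := sq_bq B hΩ1
    have hpos : ∀ i, 0 < cnt Ω1 i := by
      apply bq_pos B1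
      intro i hi
      have hi2 : i = 2 := hi
      rw [hi2, SQ_cnt hΩ1]
      exact h2
    obtain ⟨F1, hF1c, hF1⟩ := (sq_line B1 hpos hQ1).2 ⟨2, by decide, Or.inl rfl⟩
    have hT : ∀ e ∈ F1, Cov {W | ∃ A, Lv e (0, true) A ∧ PF P2 A ∧ QF Qt ((0 : Fin 3), true).1 A ∧
        W = act (wh (0, true) A) e} (1 + 2) := by
      intro e _
      apply lsq_cov
      apply lsq2
      intro k hk
      have key : ∀ k : Fin 3, k ≠ 0 → k = 1 ∨ k = 2 := by decide
      rcases key k hk with rfl | rfl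
      · exact Or.inr hQ1
      · exact Or.inl rfl
    have hun := RtE7_union (S := SQ P2 Qt (fun i => i ≠ 2) Ω1) _ hT (by
      intro W hW
      obtain ⟨σ, W1, A, hW1, hLv, hPF, hQF, hl, he⟩ := lemUQ B1 hpos (M := fun i => i ≠ 2) (i := 0)
        (by decide) (fun k hk => hP k hk) hQ0 hr hW
      refine ⟨σ, ?_, W1, ?_, act (wh (0, true) A) W1, ⟨A, hLv, hPF, hQF, rfl⟩, he⟩
      · rw [RtE7_fx]
        rintro ⟨i, b⟩ hi
        apply hl
        have key : ∀ k : Fin 3, k ≠ 0 → k = 1 ∨ k = 2 := by decide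
        rcases key i hi with rfl | rfl
        · exact Or.inr hQ1
        · exact Or.inl (fun h => h rfl)
      · apply hF1
        refine SQ_mono ?_ hW1
        intro i hi
        have key : ∀ k : Fin 3, k ≠ 2 → k ≠ 0 → k = 1 := by decide
        exact key i hi.1 hi.2)
    obtain ⟨F, hFc, hF⟩ := hun
    exact ⟨F, hFc.trans (by omega), hF⟩
  · have hc : ∀ Ω1 ∈ SQ P2 Qt (fun i => i ≠ 2) Ω, CrP n P2 (sq Qt Ω1) (0, true) := by
      intro Ω1 hΩ1
      by_contra hcon
      exact hα ⟨Ω1, hΩ1, hcon⟩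
    have hN2 : PrpP P2 (PrC 2) := by
      refine ⟨⟨⟨(2, true), rfl⟩, ⟨(1, true), rfl⟩⟩, fun i _ => rfl⟩
    have hcapS : capC (sq Qt Ω) (PrC 2) = capC Ω (PrC 2) := RtE7_cap (fun k _ => rfl)
    have hlow : n ≤ capC Ω (PrC 2) := by
      rw [← hcapS]
      exact E.low hN2
    rcases hlow.lt_or_eq with hlt | heq
    · exfalso
      refine nd_star E (by rw [hcapS]; exact hlt) ⟨PrC 1, RtE7_prc B hQ1, RtE7_prcN 1⟩ ?_
      intro A hA hn
      by_contra hv
      have hX0 : VP n P2 (sq Qt Ω) (PrC 0) :=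
        Pw.crs_pair E (z := (0, true)) (hc Ω (SQ_refl _ Ω))
      have h1 : A (1, true) = A (1, false) := by
        by_contra hne
        exact hv (RtE7_sep1 B hQ1 hn hne)
      have h0 : A (0, true) = A (0, false) := by
        by_contra hne
        exact hv (cp_sep B (M := fun i => i ≠ 2) (i := 0) (by decide) hQ0 (hP 0 (by decide)) hc hA
          hn hne)
      have h2' : A (2, true) = A (2, false) := hA.1.2 2 rfl
      have hdec := EvUnc_dec (A (0, true)) (A (0, false)) (A (1, true)) (A (2, true))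
      rw [← EvUnc_eq h1 h2'] at hdec
      have hcA := hA.2
      rcases hdec hn with h | h | h | h | h | h | h | h
      · exact absurd ((Pw.VX_congr h).2 hX0) hv
      · exact absurd ((Pw.VX_congr h).2 (Pw.VX_compl.2 hX0)) hv
      · exact absurd ((Pw.VX_congr h).2 hX) hv
      · exact absurd ((Pw.VX_congr h).2 (Pw.VX_compl.2 hX)) hv
      · rw [capC_congr _ h, hcapS] at hcA
        omega
      · rw [capC_congr _ h, capC_compl, hcapS] at hcA
        omega
      · rcases h with h | h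
        · rw [h, h] at h0
          exact absurd h0 (by decide)
        · rw [h, h] at h0
          exact absurd h0 (by decide)
      · rcases h with h | h
        · rw [h, h] at h0
          exact absurd h0 (by decide)
        · rw [h, h] at h0
          exact absurd h0 (by decide)
    · -- the pair of `c` is tight: exchange the generators 0 and 2
      obtain ⟨ρ, hρd⟩ : ∃ ρ : SPerm (Fin 3), ρ = RtE7_r := ⟨_, rfl⟩
      have hρP : ∀ i, P2 i ↔ P0 (ρ.perm i) := by
        intro i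
        rw [hρd]
        show i = 2 ↔ Equiv.swap (0 : Fin 3) 2 i = 0
        revert i
        decide
      have hρP' : ∀ i, P0 i ↔ P2 (ρ.inv.perm i) := by
        intro i
        rw [hρd]
        show i = 0 ↔ (Equiv.swap (0 : Fin 3) 2).symm i = 2
        revert i
        decide
      have hρQ : ∀ i, Qt (ρ.perm i) = Qt i := by
        rw [hρd]
        show ∀ i, Qt (Equiv.swap (0 : Fin 3) 2 i) = Qt i
        decide
      have hρQ' : ∀ i, Qt (ρ.inv.perm i) = Qt i := by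
        rw [hρd]
        show ∀ i, Qt ((Equiv.swap (0 : Fin 3) 2).symm i) = Qt i
        decide
      have hρM : ∀ i : Fin 3, i ≠ 2 → ρ.perm i ≠ 0 := by
        rw [hρd]
        show ∀ i : Fin 3, i ≠ 2 → Equiv.swap (0 : Fin 3) 2 i ≠ 0
        decide
      have hρM' : ∀ i : Fin 3, i ≠ 0 → ρ.inv.perm i ≠ 2 := by
        rw [hρd]
        show ∀ i : Fin 3, i ≠ 0 → (Equiv.swap (0 : Fin 3) 2).symm i ≠ 2
        decide
      have e0 : ρ.perm 2 = 0 := by rw [hρd]; rfl
      have e0' : ρ.perm.symm 0 = 2 := by rw [hρd]; rfl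
      have e1' : ρ.perm.symm 1 = 1 := by
        rw [hρd]
        show (Equiv.swap (0 : Fin 3) 2).symm 1 = 1
        decide
      have el : ρ.letter (0, true) = (2, true) := by rw [hρd]; rfl
      have hB' : BQ n P0 Qt (act ρ.aut Ω) := RtE7_BQ B hρP hρQ
      have h0' : 0 < cnt (act ρ.aut Ω) 0 := by
        have h1 := cnt_SPerm ρ Ω 2
        rw [e0] at h1
        rw [h1]
        exact h2
      have hT' : capC (act ρ.aut Ω) (PrC 0) = n := by
        rw [capC_SPerm, capC_congr _ (fun x => RtE7_PrC 0 x), e0', ← heq]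
      have hX' : VP n P0 (sq Qt (act ρ.aut Ω)) (PrC 1) := by
        rw [RtE7_sq hρQ]
        have h1 := RtE7_VP hX hρP
        refine (Pw.VX_congr (fun x => ?_)).1 h1
        have h3 := RtE7_PrC (σ := ρ) 1 (ρ.inv.letter x)
        rw [SPerm.letter_inv, e1'] at h3
        exact h3.symm
      have hc' : ∀ Ω' ∈ SQ P0 Qt (fun i => i ≠ 0) (act ρ.aut Ω), CrP n P0 (sq Qt Ω') (2, true) := by
        intro Ω' hΩ'
        have h1 := RtE7_SQ (σ := ρ.inv) (M' := fun i => i ≠ 2) hρP' hρQ' (fun i hi => hρM' i hi) hΩ'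
        rw [act_SPerm_inv] at h1
        have h3 := RtE7_Cr (hc _ h1) hρP
        rw [← RtE7_sq hρQ, act_SPerm_inv', el] at h3
        exact h3
      obtain ⟨F, hFc, hF⟩ := t8 hB' h0' hT' hX' hc'
      refine ⟨F.image (fun e => act ρ.inv.aut e), (Finset.card_image_le.trans hFc).trans (by omega),
        ?_⟩
      intro W hW
      have h1 := RtE7_SQ (σ := ρ) (M' := fun i => i ≠ 0) hρP hρQ (fun i hi => hρM i hi) hW
      obtain ⟨τ, ⟨ht1, ht2, ht3⟩, e, he, hWe⟩ := hF _ h1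
      obtain ⟨π1, hπ1, -, -, hl1⟩ := SPerm_mul τ ρ
      obtain ⟨π2, hπ2, -, -, hl2⟩ := SPerm_mul ρ.inv π1
      refine ⟨π2, ?_, act ρ.inv.aut e, Finset.mem_image_of_mem _ he, ?_⟩
      · rw [RtE7_fx]
        intro x hx
        rw [hl2, hl1]
        have h3 : τ.letter (ρ.letter x) = ρ.letter x := by
          have h4 : (ρ.letter x).1 ≠ 2 := by
            rw [letter_fst, hρd]
            show Equiv.swap (0 : Fin 3) 2 x.1 ≠ 2
            have key : ∀ i : Fin 3, i ≠ 0 → Equiv.swap (0 : Fin 3) 2 i ≠ 2 := by decide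
            exact key _ hx
          generalize ρ.letter x = y at h4 ⊢
          obtain ⟨i, b⟩ := y
          have key : ∀ i : Fin 3, i ≠ 2 → i = 0 ∨ i = 1 := by decide
          rcases key i h4 with rfl | rfl
          · simp [SPerm.letter, ht1, ht2]
          · simp [SPerm.letter, ht1, ht3]
        rw [h3, SPerm.inv_letter]
      · rw [← hπ2, ← hπ1, act_SPerm_inv', ← hWe, act_SPerm_inv]

end Pool.Agent.Sims
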