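import Pool.Agent.Sims.RtE5
import Pool.Agent.Sims.RtE7
import Pool.Agent.Sims.RtN

/-!
# Module `RtE8` : conclusion when the type-1 data form one set `SQ P2 Qt (· ≠ 2) Ω`

`T : Th1 n K k Ω`, `hC : ClG n K k (SQ P2 Qt (· ≠ 2) Ω)`, `V = th k Ω` good.
* `s1_ps`: `S1 n k G Ω' B`, `Th1 n K k Ω'`: `Cov (PSc K G) (choose (K + 2) 2)`: `ps_closed` with the closed set `S = stc B z⁻¹` (`th1_lv`): it contains `z = (1,true)`, not the light letter `z⁻¹`.
* `s1_tr`: `τ` with `τ.perm = 1`, `τ.sign 1 = true` and `th k (act σ.aut e) = act τ.aut (th k e)`; if `S1 n k G (act σ.aut e) B` then `G = act τ.aut G'` with `S1 n k G' e (B ∘ τ.letter)`: `τ` fixes `z^{±1}` and permutes `a^{±1}` and `c^{±1}` (`capC_SPerm`; `act (wh z⁻¹ B) (act τ.aut y) = act τ.aut (act (wh z⁻¹ (B ∘ τ.letter)) y)`: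
  compare on generators, or `TwBasic_SPerm`).
* `s1_four`: there are four sets `B` (as functions) with `B` light, `z⁻¹ ∈ B`, `z ∉ B`: values at `(0,true)`, `(0,false)`.
* `e_single`: `covX_sub` and `sx9` (`th1_facts`): `F`, 9 elements of `SQ`.  `d ∈ orb V`: `r2_cover` (`T.H`): `d = act σ.aut (act (pot 2 p) G)`, `G ∈ ER n V`, count `K`; `er_th`: `G = act σ'.aut G'`, `S1 n k G' Ω' B'`, `Ω' ∈ SQ`; `Ω' = act τ.aut e`, `Fx τ`, `th_fx`, `s1_tr`: `G' = act τ.aut G''`,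
  `S1 n k G'' e B''`.  `act (pot 2 p) G ∈ PSc K G`; `ps_SPerm` (`Fix2`) twice: `d = act _ W''`, `W'' ∈ PSc K G''`.  For `e ∈ F` and the four `B` (those with `S1`; for the others take the empty set): at most `9 * 4 * choose (K+2) 2 = 36 * choose (K+2) 2 ≤ F3 (8 + K) ≤ F3 (2 n + K)` classes (`n_c`, `n_mono`;
  `K > n ≥ 4`).  `act` of compositions: `Conn_act_comp`.
Difficulty 3.
-/

namespace Pool.Agent.Sims

theorem s1_ps {n K k : ℕ} {G Ω : CC} {B : Ct} (T : Th1 n K k Ω) (h : S1 n k G Ω B) :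
    Cov (PSc K G) (Nat.choose (K + 2) 2) := by
  obtain ⟨hB, h1, h2, h3, rfl⟩ := h
  obtain ⟨H, hE, -, -, -⟩ := th1_lv T hB h1 h2 h3
  refine ps_closed H hE ⟨(1, true), ?_⟩ ⟨(1, false), by decide, ?_⟩
  · simp [stc, bar]
  · simp [stc, bar]

private theorem RtE8_l1 {τ : SPerm (Fin 3)} (hτ : τ.perm = 1) (hτ1 : τ.sign 1 = true) (b : Bool) :
    τ.letter (1, b) = (1, b) := by
  simp [SPerm.letter, hτ, hτ1]

theorem s1_tr {n k : ℕ} {G e : CC} {B : Ct} {σ τ : SPerm (Fin 3)} (hτ : τ.perm = 1)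
    (hτ1 : τ.sign 1 = true) (he : th k (act σ.aut e) = act τ.aut (th k e))
    (h : S1 n k G (act σ.aut e) B) :
    ∃ (G' : CC) (B' : Ct), S1 n k G' e B' ∧ G = act τ.aut G' := by
  obtain ⟨hB, h1, h2, h3, rfl⟩ := h
  have hlt : ∀ b, ∃ b', τ.letter ((2 : Fin 3), b) = (2, b') := by
    intro b
    refine ⟨if τ.sign 2 then b else !b, ?_⟩
    simp [SPerm.letter, hτ]
  refine ⟨act (wh (1, false) (fun x => B (τ.letter x))) (th k e), fun x => B (τ.letter x),
    ⟨⟨?_, ?_⟩, ?_, ?_, ?_, rfl⟩, ?_⟩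
  · obtain ⟨b', hb'⟩ := hlt true
    show B (τ.letter (2, true)) = false
    rw [hb']
    cases b'
    · exact hB.2
    · exact hB.1
  · obtain ⟨b', hb'⟩ := hlt false
    show B (τ.letter (2, false)) = false
    rw [hb']
    cases b'
    · exact hB.2
    · exact hB.1
  · show B (τ.letter (1, false)) = true
    rw [RtE8_l1 hτ hτ1]; exact h1
  · show B (τ.letter (1, true)) = false
    rw [RtE8_l1 hτ hτ1]; exact h2
  · rw [← capC_SPerm, ← he]; exact h3
  · have h4 := act_wh_SPerm τ (1, false) B (th k e)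
    rw [RtE8_l1 hτ hτ1] at h4
    rw [he, h4]

theorem s1_four : ∃ F : Finset Ct, F.card = 4 ∧
    ∀ B : Ct, Lt B → B (1, false) = true → B (1, true) = false → B ∈ F := by
  classical
  let f : Bool × Bool → Ct := fun u x => if x = (0, true) then u.1 else if x = (0, false) then u.2
    else decide (x = (1, false))
  have hf : Function.Injective f := by
    intro u v h
    have h1 := congrFun h (0, true)
    have h2 := congrFun h (0, false)
    simp only [f, if_true] at h1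
    simp [f] at h2
    exact Prod.ext h1 h2
  refine ⟨Finset.univ.image f, ?_, ?_⟩
  · rw [Finset.card_image_of_injective _ hf]
    rfl
  · intro B hB h1 h2
    rw [Finset.mem_image]
    refine ⟨(B (0, true), B (0, false)), Finset.mem_univ _, ?_⟩
    funext x
    obtain ⟨i, b⟩ := x
    fin_cases i <;> cases b
    · simp [f]
    · simp [f]
    · simp [f, h1]
    · simp [f, h2]
    · have := hB.2
      simp [f, this]
    · have := hB.1
      simp [f, this]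

theorem e_single {n K k : ℕ} {Ω : CC} (T : Th1 n K k Ω)
    (hC : ClG n K k (SQ P2 Qt (fun i => i ≠ 2) Ω)) (hG : GdC n (th k Ω)) :
    Bdd (th k Ω) (F3 (2 * n + K)) := by
  classical
  obtain ⟨F, hF9, hFS, hFc⟩ := covX_sub (sx9 T.B T.X (th1_facts T).2.2.2.2.1)
  obtain ⟨F4, hF4, hF4m⟩ := s1_four
  have hex : ∀ eB : CC × Ct, ∃ E : Finset CC, E.card ≤ Nat.choose (K + 2) 2 ∧
      (eB.1 ∈ F → ∀ G, S1 n k G eB.1 eB.2 → ∀ W ∈ PSc K G, W ∈ E) := by
    rintro ⟨e, B⟩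
    by_cases h : e ∈ F ∧ ∃ G, S1 n k G e B
    · obtain ⟨he, G, hS⟩ := h
      obtain ⟨E, hE, hE'⟩ := s1_ps (th1_sq T (hFS e he)).1 hS
      refine ⟨E, hE, ?_⟩
      intro _ G' hS' W hW
      have : G' = G := by
        rw [hS'.2.2.2.2, hS.2.2.2.2]
      subst this
      exact hE' W hW
    · refine ⟨∅, by simp, ?_⟩
      intro he G hS
      exact absurd ⟨he, G, hS⟩ h
  choose FF hFF hFF' using hex
  refine ⟨(F ×ˢ F4).biUnion FF, ?_, ?_⟩
  · have h1 : ((F ×ˢ F4).biUnion FF).card ≤ (F ×ˢ F4).card * Nat.choose (K + 2) 2 :=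
      Finset.card_biUnion_le_card_mul _ _ _ fun x _ => hFF x
    rw [Finset.card_product, hF4] at h1
    have h4 := T.H.h4
    have hK := T.H.hK
    have h5 : 5 ≤ K := by omega
    have h6 := n_c h5
    have h7 : F3 (8 + K) ≤ F3 (2 * n + K) := n_mono (by omega) (by omega)
    have h8 : F.card * 4 * Nat.choose (K + 2) 2 ≤ 9 * 4 * Nat.choose (K + 2) 2 :=
      Nat.mul_le_mul_right _ (Nat.mul_le_mul_right _ hF9)
    omega
  · intro d hd
    obtain ⟨σ, G, p, hGE, hcnt, rfl⟩ := r2_cover T.H hG hd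
    have hΩ : Ω ∈ SQ P2 Qt (fun i => i ≠ 2) Ω := Relation.ReflTransGen.refl
    obtain ⟨σ', Ω', G', B', hσ', hΩ', hS, rfl⟩ := er_th hC hΩ hGE
    have hW : act (pot 2 p) (act σ'.aut G') ∈ PSc K (act σ'.aut G') := ⟨p, rfl, hcnt⟩
    obtain ⟨W', hW', hWe⟩ := ps_SPerm hσ' hW
    obtain ⟨τ, hτ, e, he, rfl⟩ := hFc Ω' hΩ'
    obtain ⟨G'', B'', hS'', rfl⟩ := s1_tr hτ.1 hτ.2.1 (th_fx k hτ e) hS
    have hτ2 : Fix2 τ := by
      show τ.perm 2 = 2
      rw [hτ.1]; rfl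
    obtain ⟨W'', hW'', rfl⟩ := ps_SPerm hτ2 hW'
    refine ⟨Conn_comp (Conn_comp σ σ') τ, W'', ?_, ?_⟩
    · rw [Finset.mem_biUnion]
      exact ⟨(e, B''), Finset.mem_product.2 ⟨he, hF4m _ hS''.1 hS''.2.1 hS''.2.2.1⟩,
        hFF' (e, B'') he G'' hS'' W'' hW''⟩
    · rw [hWe, Conn_act_comp, Conn_act_comp]

end Pool.Agent.Sims
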