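import Pool.Agent.Sims.RtDefs

/-!
# Module `RtG0` : the gain list of a class (multiplier `c = x_2`)

`V = cls (expand 2 s)`, `s` a valid syllable list (`exists_syl 2`).  The consecutive pairs `(a, r)` of `s` are the edges from `a.1` to `bar r.1` with the gain `a.2`; the potential `q` changes the gain to
`a.2 + q a.1 - q (bar r.1)`.
* `gf s q`   : sum of the absolute values of the gains at `q`
* `gc s q Y` : number of the ends in `Y` of the edges, minus twice the number of the edges with both ends in `Y` and gain `0` at `q`, written edge by edge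
* `gl s Y`   : number of the edges with exactly one end in `Y`
Proofs: `act_pot` (`act (pot 2 q) V = cls (expand 2 (shift q s))`, the letters of `s` are `≠ c^{±1}` by `SValid`), `SValid_shift`, `cntL_expand_self` and `sum_shift` (or `TwPot_cases`) for `g_cnt`;
`capC_cls`, `cap_expand_nonsep` and `cyc_shift` for `g_cap`; `g_clo`: `clo_of_nox` (`NoX U s` is `gl s U = 0` by definition).
`g_split`: `gl s U = 0` : every edge has both ends in `U` or both ends outside of `U`; compare termwise (the list of the pairs with `gl`-term `0`: `EvLem2_cyc` or `EvX0a_cyc`, or prove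
`gc s q Z + 0 = ...` by induction; in the form `gc s q (Z ∧ U) + gc s q (Z ∧ ¬U) ≤ gc s q Z + 2 * gl s U` and `gc s q Z ≤ gc s q (Z ∧ U) + gc s q (Z ∧ ¬U)` it is termwise: `cyc_mono`, `cyc_add`).
Difficulty 2.
-/

namespace Pool.Agent.Sims

/-- sum of the absolute values of the gains at `q` -/
def gf (s : List ((Fin 3 × Bool) × ℤ)) (q : Fin 3 × Bool → ℤ) : ℕ :=
  cyc (fun a r => (a.2 + q a.1 - q (bar r.1)).natAbs) s

/-- capacity of `Y` at `q` -/
def gc (s : List ((Fin 3 × Bool) × ℤ)) (q : Fin 3 × Bool → ℤ) (Y : Ct) : ℕ :=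
  cyc (fun a r => if a.2 + q a.1 - q (bar r.1) = 0 then (if Y a.1 = Y (bar r.1) then 0 else 1) else
    (if Y a.1 then 1 else 0) + (if Y (bar r.1) then 1 else 0)) s

/-- number of the edges leaving `Y` -/
def gl (s : List ((Fin 3 × Bool) × ℤ)) (Y : Ct) : ℕ :=
  cyc (fun a r => if Y a.1 = Y (bar r.1) then 0 else 1) s

/-- `Y` does not contain `c^{±1}` -/
def Lt (Y : Ct) : Prop := Y (2, true) = false ∧ Y (2, false) = false

/-- nonempty sets of light letters -/
def LtN (Y : Ct) : Prop := Lt Y ∧ ∃ x, Y x = true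

theorem g_cnt {V : CC} {s : List ((Fin 3 × Bool) × ℤ)} (hs : SValid 2 s)
    (hV : cls (expand 2 s) = V) (q : Fin 3 × Bool → ℤ) : cnt (act (pot 2 q) V) 2 = gf s q := by
  have h1 := SValid_shift 2 q s hs
  rw [← hV, act_pot 2 q s hs.1, cnt_cls h1.2, cntL_expand_self _ _ h1.1, sum_shift]
  rfl

theorem g_cap {V : CC} {s : List ((Fin 3 × Bool) × ℤ)} (hs : SValid 2 s)
    (hV : cls (expand 2 s) = V) (q : Fin 3 × Bool → ℤ) {Y : Ct} (hY : Lt Y) :
    capC (act (pot 2 q) V) Y = gc s q Y := by
  have h1 := SValid_shift 2 q s hs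
  rw [← hV, act_pot 2 q s hs.1, capC_cls h1.2, cap_expand_nonsep 2 _ h1.1 Y hY.1 hY.2]
  exact cyc_shift (fun (a : (Fin 3 × Bool) × ℤ) (y : Fin 3 × Bool) =>
    if a.2 = 0 then (if Y a.1 = Y (bar y) then 0 else 1) else
      (if Y a.1 then 1 else 0) + (if Y (bar y) then 1 else 0)) q s

theorem g_clo {V : CC} {s : List ((Fin 3 × Bool) × ℤ)} (hs : SValid 2 s)
    (hV : cls (expand 2 s) = V) {U : Ct} (h : gl s U = 0) : Clo 2 V U := by
  subst hV
  exact clo_of_nox (fun q => act_pot 2 q s hs.1) h

theorem RtG0_pt1 (a b c d : Bool) (g : ℤ) :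
    ((if g = 0 then (if (a && c) = (b && d) then 0 else 1) else
      (if (a && c) = true then 1 else 0) + (if (b && d) = true then 1 else 0)) +
    (if g = 0 then (if (a && !c) = (b && !d) then 0 else 1) else
      (if (a && !c) = true then 1 else 0) + (if (b && !d) = true then 1 else 0)) : ℕ) ≤
    (if g = 0 then (if a = b then 0 else 1) else
      (if a = true then 1 else 0) + (if b = true then 1 else 0)) + 2 * (if c = d then 0 else 1) := by
  by_cases hg : g = 0
  · simp only [if_pos hg]
    revert a b c d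
    decide
  · simp only [if_neg hg]
    revert a b c d
    decide

theorem RtG0_pt2 (a b c d : Bool) (g : ℤ) :
    (if g = 0 then (if a = b then 0 else 1) else
      (if a = true then 1 else 0) + (if b = true then 1 else 0)) ≤
    ((if g = 0 then (if (a && c) = (b && d) then 0 else 1) else
      (if (a && c) = true then 1 else 0) + (if (b && d) = true then 1 else 0)) +
    (if g = 0 then (if (a && !c) = (b && !d) then 0 else 1) else
      (if (a && !c) = true then 1 else 0) + (if (b && !d) = true then 1 else 0)) : ℕ) := by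
  by_cases hg : g = 0
  · simp only [if_pos hg]
    revert a b c d
    decide
  · simp only [if_neg hg]
    revert a b c d
    decide

theorem g_split {s : List ((Fin 3 × Bool) × ℤ)} {U : Ct} (h : gl s U = 0)
    (q : Fin 3 × Bool → ℤ) (Z : Ct) :
    gc s q Z = gc s q (fun x => Z x && U x) + gc s q (fun x => Z x && !U x) := by
  have e1 : gc s q (fun x => Z x && U x) + gc s q (fun x => Z x && !U x) ≤ gc s q Z + 2 * gl s U := by
    unfold gc gl
    rw [← cyc_add, ← EvCL_two, ← cyc_add]
    exact cyc_mono (fun a r => RtG0_pt1 (Z a.1) (Z (bar r.1)) (U a.1) (U (bar r.1)) _) s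
  have e2 : gc s q Z ≤ gc s q (fun x => Z x && U x) + gc s q (fun x => Z x && !U x) := by
    unfold gc
    rw [← cyc_add]
    exact cyc_mono (fun a r => RtG0_pt2 (Z a.1) (Z (bar r.1)) (U a.1) (U (bar r.1)) _) s
  omega

end Pool.Agent.Sims
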