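import Pool.Agent.Sims.RtG0

/-!
# Module `RtG1` : inequalities for gain lists

All inequalities are true edge by edge (`cyc_mono`, `cyc_add`, or induction over the list): for the edge with ends `x = a.1`, `y = bar r.1`, gain `k = a.2`, gain `k + q x - q y` at `q`.
* `gc_loc`: `q` and `q'` differ by a constant on `Y`: an edge with both ends in `Y` has the same gain at `q` and at `q'`; the other edges contribute the number of their ends in `Y` in any case.
* `gc_sub`: submodularity (check the four positions of each end with respect to `X`, `Y`, and the two cases for the gain).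
* `g_step`: `Y₀ ⊆ Y`, `q y < q x` for `x ∈ Y₀`, `y ∈ Y ∖ Y₀`.  Both ends outside of `Y₀`: equality.  Both in `Y₀`: `|k| + 0 ≤ |k| + _`.  `x ∈ Y₀`, `y ∉ Y₀`: if `y ∈ Y` and the gain at `q` is `0` then
  `k = q y - q x < 0`, `|k + 1| = |k| - 1`, and the terms are `|k| - 1 + 1 ≤ |k| + 0`; if `y ∈ Y` and the gain is `≠ 0`: `|k + 1| + 1 ≤ |k| + 2`; if `y ∉ Y`: `|k + 1| + 0 ≤ |k| + 1`.  `y ∈ Y₀`, `x ∉ Y₀`: the same with `|k - 1|`.
* `g_a`: `J ⊆ X ∧ Y`, and `q x ≠ q y` for `x ∈ J`, `y ∈ (X ∧ Y) ∖ J`.  With both sides rewritten as (number of ends) `- 2 ·` (number of edges inside with gain `0`) the claim is: an edge with exactly one end in `J` is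
  not counted both in `X` at `0` and in `Y` at `q` (its other end would be in `X ∧ Y ∖ J`, and `k = 0 = k + q x - q y`).
* `g_b`: `I = X ∧ Y` is the disjoint union of `I₁` and `I₂`, `q` is different on `I₁` and `I₂`.  An edge which has gain `0` at `0` and at `q` and both ends in `I` has both ends in `I₁` or both in `I₂`.
* `g_c`: the same with three parts (no term `gl` needed).
* `g_d`: `X' ⊆ Y`, `X ∧ X' = ∅`, `I = X ∧ Y = I₁ ⊔ I₂`, `X' = J₁ ⊔ J₂`, `q` different on `I₁`, `I₂` and on `J₁`, `J₂`.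
All of them: a finite case distinction (`split_ifs`/`by_cases` on the Boolean values, `omega` for the gains).
Difficulty 3.
-/

namespace Pool.Agent.Sims

/-- the term of an edge with gain `k` and the ends in `Y` iff `x`, `y` -/
private def RtG1_e (k : ℤ) (x y : Bool) : ℕ :=
  if k = 0 then (if x = y then 0 else 1) else (if x then 1 else 0) + (if y then 1 else 0)

private theorem RtG1_gc (s : List ((Fin 3 × Bool) × ℤ)) (q : Fin 3 × Bool → ℤ) (Y : Ct) :
    gc s q Y = cyc (fun a r => RtG1_e (a.2 + q a.1 - q (bar r.1)) (Y a.1) (Y (bar r.1))) s := rfl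

private theorem RtG1_sub (k : ℤ) (x x' y y' : Bool) :
    RtG1_e k (x && y) (x' && y') + RtG1_e k (x || y) (x' || y') ≤ RtG1_e k x x' + RtG1_e k y y' := by
  cases x <;> cases x' <;> cases y <;> cases y' <;> simp [RtG1_e] <;> split_ifs <;> omega

private theorem RtG1_step (k u v : ℤ) (y y' z z' : Bool) (h1 : z = true → y = true)
    (h2 : z' = true → y' = true) (h3 : z = true → y' = true → z' = false → v < u)
    (h4 : z' = true → y = true → z = false → u < v) :
    (k + (if z then 1 else 0) - (if z' then 1 else 0) : ℤ).natAbs +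
      RtG1_e (k + u - v) (y && !z) (y' && !z') ≤ (k + 0 - 0 : ℤ).natAbs + RtG1_e (k + u - v) y y' := by
  cases y <;> cases y' <;> cases z <;> cases z' <;> simp [RtG1_e] at h1 h2 h3 h4 ⊢ <;>
    (try split_ifs) <;> omega

private theorem RtG1_a (k u v : ℤ) (x x' y y' j j' : Bool) (h1 : j = true → x = true ∧ y = true)
    (h2 : j' = true → x' = true ∧ y' = true)
    (h3 : j = true → x' = true → y' = true → j' = false → u ≠ v)
    (h4 : j' = true → x = true → y = true → j = false → v ≠ u) :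
    RtG1_e (k + 0 - 0) (x && !j) (x' && !j') + RtG1_e (k + u - v) (y && !j) (y' && !j') ≤
      RtG1_e (k + 0 - 0) x x' + RtG1_e (k + u - v) y y' := by
  cases x <;> cases x' <;> cases y <;> cases y' <;> cases j <;> cases j' <;>
    simp [RtG1_e] at h1 h2 h3 h4 ⊢ <;> (try split_ifs) <;> omega

private theorem RtG1_b (k u v : ℤ) (x x' y y' i i' j j' : Bool)
    (h1 : (x = true ∧ y = true) ↔ (i = true ∨ j = true))
    (h2 : (x' = true ∧ y' = true) ↔ (i' = true ∨ j' = true))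
    (h3 : i = true → j' = true → u ≠ v) (h4 : i' = true → j = true → v ≠ u)
    (h5 : i = true → j = true → u ≠ u) (h6 : i' = true → j' = true → v ≠ v) :
    RtG1_e (k + 0 - 0) i i' + RtG1_e (k + 0 - 0) j j' +
      (if (x || y) = (x' || y') then 0 else 1) ≤
      RtG1_e (k + 0 - 0) x x' + RtG1_e (k + u - v) y y' := by
  cases x <;> cases x' <;> cases y <;> cases y' <;> cases i <;> cases i' <;> cases j <;> cases j' <;>
    simp [RtG1_e] at h1 h2 h3 h4 h5 h6 ⊢ <;> (try split_ifs) <;> omega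

private theorem RtG1_c (k u v : ℤ) (x x' y y' i i' j j' l l' : Bool)
    (h1 : (x = true ∧ y = true) ↔ (i = true ∨ j = true ∨ l = true))
    (h2 : (x' = true ∧ y' = true) ↔ (i' = true ∨ j' = true ∨ l' = true))
    (a1 : i = true → j' = true → u ≠ v) (a2 : i' = true → j = true → v ≠ u)
    (a3 : i = true → j = true → u ≠ u) (a4 : i' = true → j' = true → v ≠ v)
    (b1 : i = true → l' = true → u ≠ v) (b2 : i' = true → l = true → v ≠ u)
    (b3 : i = true → l = true → u ≠ u) (b4 : i' = true → l' = true → v ≠ v)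
    (c1 : j = true → l' = true → u ≠ v) (c2 : j' = true → l = true → v ≠ u)
    (c3 : j = true → l = true → u ≠ u) (c4 : j' = true → l' = true → v ≠ v) :
    RtG1_e (k + 0 - 0) i i' + RtG1_e (k + 0 - 0) j j' + RtG1_e (k + 0 - 0) l l' ≤
      RtG1_e (k + 0 - 0) x x' + RtG1_e (k + u - v) y y' := by
  cases i <;> cases j <;> cases l <;> simp at h1 a3 b3 c3 <;>
    cases i' <;> cases j' <;> cases l' <;> simp at h2 a4 b4 c4 <;>
    cases x <;> cases y <;> simp at h1 <;> cases x' <;> cases y' <;> simp at h2 <;>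
    simp [RtG1_e] at a1 a2 b1 b2 c1 c2 ⊢ <;> (try split_ifs) <;> omega

private theorem RtG1_d (k u v : ℤ) (x x' z z' y y' i i' j j' l l' m m' : Bool)
    (x1 : x = true → z = false) (x2 : x' = true → z' = false)
    (y1 : z = true → y = true) (y2 : z' = true → y' = true)
    (h1 : (x = true ∧ y = true) ↔ (i = true ∨ j = true))
    (h2 : (x' = true ∧ y' = true) ↔ (i' = true ∨ j' = true))
    (j1 : z = true ↔ (l = true ∨ m = true)) (j2 : z' = true ↔ (l' = true ∨ m' = true))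
    (a1 : i = true → j' = true → u ≠ v) (a2 : i' = true → j = true → v ≠ u)
    (a3 : i = true → j = true → u ≠ u) (a4 : i' = true → j' = true → v ≠ v)
    (b1 : l = true → m' = true → u ≠ v) (b2 : l' = true → m = true → v ≠ u)
    (b3 : l = true → m = true → u ≠ u) (b4 : l' = true → m' = true → v ≠ v) :
    RtG1_e (k + 0 - 0) i i' + RtG1_e (k + 0 - 0) j j' + RtG1_e (k + 0 - 0) l l' +
      RtG1_e (k + 0 - 0) m m' ≤
      RtG1_e (k + 0 - 0) x x' + RtG1_e (k + 0 - 0) z z' + RtG1_e (k + u - v) y y' := by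
  cases x <;> cases z <;> simp at x1 <;> cases y <;> simp at y1 <;>
    cases i <;> cases j <;> simp at h1 a3 <;> cases l <;> cases m <;> simp at j1 b3 <;>
    cases x' <;> cases z' <;> simp at x2 <;> cases y' <;> simp at y2 <;>
    cases i' <;> cases j' <;> simp at h2 a4 <;> cases l' <;> cases m' <;> simp at j2 b4 <;>
    simp [RtG1_e] at a1 a2 b1 b2 ⊢ <;> (try split_ifs) <;> omega

theorem gc_loc {s : List ((Fin 3 × Bool) × ℤ)} {q q' : Fin 3 × Bool → ℤ} {Y : Ct} (t : ℤ)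
    (h : ∀ x, Y x = true → q x = q' x + t) : gc s q Y = gc s q' Y := by
  rw [RtG1_gc, RtG1_gc]
  congr 1
  funext a r
  have h1 := h a.1
  have h2 := h (bar r.1)
  revert h1 h2
  generalize Y a.1 = x
  generalize Y (bar r.1) = y
  intro h1 h2
  cases x <;> cases y <;> simp [RtG1_e] at h1 h2 ⊢
  rw [h1, h2]
  have : a.2 + (q' a.1 + t) - (q' (bar r.1) + t) = a.2 + q' a.1 - q' (bar r.1) := by ring
  rw [this]

theorem gc_sub (s : List ((Fin 3 × Bool) × ℤ)) (q : Fin 3 × Bool → ℤ) (X Y : Ct) :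
    gc s q (fun x => X x && Y x) + gc s q (fun x => X x || Y x) ≤ gc s q X + gc s q Y := by
  simp only [RtG1_gc, ← cyc_add]
  exact cyc_mono (fun a r => RtG1_sub _ _ _ _ _) s

theorem g_step (s : List ((Fin 3 × Bool) × ℤ)) {q : Fin 3 × Bool → ℤ} {Y Y0 : Ct}
    (h0 : ∀ x, Y0 x = true → Y x = true)
    (hq : ∀ x y, Y0 x = true → Y y = true → Y0 y = false → q y < q x) :
    gf s (ind Y0) + gc s q (fun x => Y x && !Y0 x) ≤ gf s 0 + gc s q Y := by
  simp only [RtG1_gc, gf, ← cyc_add]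
  exact cyc_mono (fun a r => RtG1_step a.2 (q a.1) (q (bar r.1)) (Y a.1) (Y (bar r.1)) (Y0 a.1)
    (Y0 (bar r.1)) (h0 _) (h0 _) (hq _ _) (hq _ _)) s

theorem g_a (s : List ((Fin 3 × Bool) × ℤ)) {q : Fin 3 × Bool → ℤ} {X Y J : Ct}
    (hJ : ∀ x, J x = true → X x = true ∧ Y x = true)
    (hq : ∀ x y, J x = true → X y = true → Y y = true → J y = false → q x ≠ q y) :
    gc s 0 (fun x => X x && !J x) + gc s q (fun x => Y x && !J x) ≤ gc s 0 X + gc s q Y := by
  simp only [RtG1_gc, ← cyc_add]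
  exact cyc_mono (fun a r => RtG1_a a.2 (q a.1) (q (bar r.1)) (X a.1) (X (bar r.1)) (Y a.1)
    (Y (bar r.1)) (J a.1) (J (bar r.1)) (hJ _) (hJ _) (hq _ _) (hq _ _)) s

theorem g_b (s : List ((Fin 3 × Bool) × ℤ)) {q : Fin 3 × Bool → ℤ} {X Y I1 I2 : Ct}
    (hI : ∀ x, (X x = true ∧ Y x = true) ↔ (I1 x = true ∨ I2 x = true))
    (hd : ∀ x y, I1 x = true → I2 y = true → q x ≠ q y) :
    gc s 0 I1 + gc s 0 I2 + gl s (fun x => X x || Y x) ≤ gc s 0 X + gc s q Y := by
  simp only [RtG1_gc, gl, ← cyc_add]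
  exact cyc_mono (fun a r => RtG1_b a.2 (q a.1) (q (bar r.1)) (X a.1) (X (bar r.1)) (Y a.1)
    (Y (bar r.1)) (I1 a.1) (I1 (bar r.1)) (I2 a.1) (I2 (bar r.1)) (hI _) (hI _) (hd _ _) (hd _ _)
    (hd _ _) (hd _ _)) s

theorem g_c (s : List ((Fin 3 × Bool) × ℤ)) {q : Fin 3 × Bool → ℤ} {X Y I1 I2 I3 : Ct}
    (hI : ∀ x, (X x = true ∧ Y x = true) ↔ (I1 x = true ∨ I2 x = true ∨ I3 x = true))
    (h12 : ∀ x y, I1 x = true → I2 y = true → q x ≠ q y)
    (h13 : ∀ x y, I1 x = true → I3 y = true → q x ≠ q y)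
    (h23 : ∀ x y, I2 x = true → I3 y = true → q x ≠ q y) :
    gc s 0 I1 + gc s 0 I2 + gc s 0 I3 ≤ gc s 0 X + gc s q Y := by
  simp only [RtG1_gc, ← cyc_add]
  exact cyc_mono (fun a r => RtG1_c a.2 (q a.1) (q (bar r.1)) (X a.1) (X (bar r.1)) (Y a.1)
    (Y (bar r.1)) (I1 a.1) (I1 (bar r.1)) (I2 a.1) (I2 (bar r.1)) (I3 a.1) (I3 (bar r.1)) (hI _) (hI _)
    (h12 _ _) (h12 _ _) (h12 _ _) (h12 _ _) (h13 _ _) (h13 _ _) (h13 _ _) (h13 _ _)
    (h23 _ _) (h23 _ _) (h23 _ _) (h23 _ _)) s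

theorem g_d (s : List ((Fin 3 × Bool) × ℤ)) {q : Fin 3 × Bool → ℤ} {X X' Y I1 I2 J1 J2 : Ct}
    (hXX : ∀ x, X x = true → X' x = false) (hX' : ∀ x, X' x = true → Y x = true)
    (hI : ∀ x, (X x = true ∧ Y x = true) ↔ (I1 x = true ∨ I2 x = true))
    (hJ : ∀ x, X' x = true ↔ (J1 x = true ∨ J2 x = true))
    (hdI : ∀ x y, I1 x = true → I2 y = true → q x ≠ q y)
    (hdJ : ∀ x y, J1 x = true → J2 y = true → q x ≠ q y) :
    gc s 0 I1 + gc s 0 I2 + gc s 0 J1 + gc s 0 J2 ≤ gc s 0 X + gc s 0 X' + gc s q Y := by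
  simp only [RtG1_gc, ← cyc_add]
  exact cyc_mono (fun a r => RtG1_d a.2 (q a.1) (q (bar r.1)) (X a.1) (X (bar r.1)) (X' a.1)
    (X' (bar r.1)) (Y a.1) (Y (bar r.1)) (I1 a.1) (I1 (bar r.1)) (I2 a.1) (I2 (bar r.1)) (J1 a.1)
    (J1 (bar r.1)) (J2 a.1) (J2 (bar r.1)) (hXX _) (hXX _) (hX' _) (hX' _) (hI _) (hI _) (hJ _) (hJ _)
    (hdI _ _) (hdI _ _) (hdI _ _) (hdI _ _) (hdJ _ _) (hdJ _ _) (hdJ _ _) (hdJ _ _)) s

end Pool.Agent.Sims
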