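import Pool.Agent.Sims.RtG1

/-!
# Module `RtG2` : classes with two equal light counts `n` and a heavy count `K > n`

* `Hv n K V`   : the hypotheses of case R2 at `V`;  `Ti n V q Y` : `Y` is a nonempty set of light letters, of capacity `n` at `act (pot 2 q) V` (we say that (q, Y) is tight at V)
* `Ec V U`     : no edge leaves `U` (`gl s U = 0`), stated with classes only
* `ec_of_gl`: `g_clo`, `g_cap`, `g_split`.
* `hv_gl`: `exists_syl 2 V` (`cnt V 0 = n > 0`): a valid syllable list.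
* `hv_min`: `cnt V 2 ≤ cnt (act (pot 2 q) V) 2`: `pot_min`.
* `hv_low`: with `s` from `hv_gl`.  `n ≤ gc s 0 Y` for `LtN Y` (`Hv.lo` for `V` itself; `Y` is proper since `c ∉ Y`; `pot_zero`).  Induction on the number of the letters in `Y` (`∀ q`): if `q` is constant on `Y`: `gc_loc`.
  Otherwise let `Y₀` be the set of the letters of `Y` where `q` is maximal (on `Y`); `Y ∖ Y₀` is nonempty; `g_step`, `gf s 0 ≤ gf s (ind Y₀)` (`hv_min`, `g_cnt`), and the induction hypothesis for `Y ∖ Y₀`.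
* `hv_step`: `(q, Y)` tight, `Y₀ ⊆ Y`, `q y < q x` for `x ∈ Y₀`, `y ∈ Y ∖ Y₀`, both nonempty: `g_step` with `gc s q (Y ∖ Y₀) ≥ n` (`hv_low`): `gf s (ind Y₀) ≤ gf s 0`, and `hv_min`.
* `hv_loc`: `gc_loc`.  `hv_sub`: `gc_sub` and `hv_low`.
* `hv_orb`: `Hv n K` for `act (pot 2 q) V` if its count of `c` is `K` (`pot_Sm`); `hv_lv`: for `act (wh z A) V`, `Lv V z A` (`Lv_Sm`, `Sm_OMin`, `orb_trans`).
* `ec_pot`: `Ec` for `act (pot 2 p) V` (`pot_add`, `clo_pot`).
* `ec_sub`: `X` visible (`Ti n V 0 X`), `U` with `Ec V U`, `X` meets `U`: then `X ⊆ U`: `capC V X = capC V (X ∧ U) + capC V (X ∧ ¬U)`, and if `X ∖ U` were nonempty both terms would be `≥ n`.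
* `ec_compl`: the complement of `U` inside the light letters is also closed.
Difficulty 3.
-/

namespace Pool.Agent.Sims

/-- hypotheses of case R2 -/
structure Hv (n K : ℕ) (V : CC) : Prop where
  hO : OMin V
  h4 : 4 ≤ n
  c0 : cnt V 0 = n
  c1 : cnt V 1 = n
  c2 : cnt V 2 = K
  hK : n < K
  lo : ∀ W ∈ orb V, ∀ A, Prp A → n ≤ capC W A

/-- `(q, Y)` is tight -/
def Ti (n : ℕ) (V : CC) (q : Fin 3 × Bool → ℤ) (Y : Ct) : Prop :=
  LtN Y ∧ capC (act (pot 2 q) V) Y = n

/-- no edge leaves `U` -/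
def Ec (V : CC) (U : Ct) : Prop := Lt U ∧ Clo 2 V U ∧ ∀ (q : Fin 3 × Bool → ℤ) (Z : Ct), Lt Z →
  capC (act (pot 2 q) V) Z = capC (act (pot 2 q) V) (fun x => Z x && U x) +
    capC (act (pot 2 q) V) (fun x => Z x && !U x)

theorem RtG2_and {Z U : Ct} (hZ : Lt Z) : Lt (fun x => Z x && U x) := by
  constructor
  · show (Z (2, true) && U (2, true)) = false
    rw [hZ.1, Bool.false_and]
  · show (Z (2, false) && U (2, false)) = false
    rw [hZ.2, Bool.false_and]

theorem RtG2_or {Z U : Ct} (hZ : Lt Z) (hU : Lt U) : Lt (fun x => Z x || U x) := by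
  constructor
  · show (Z (2, true) || U (2, true)) = false
    rw [hZ.1, hU.1, Bool.false_or]
  · show (Z (2, false) || U (2, false)) = false
    rw [hZ.2, hU.2, Bool.false_or]

theorem RtG2_prp {Y : Ct} (hY : LtN Y) : Prp Y := ⟨hY.2, ⟨(2, true), hY.1.1⟩⟩

theorem ec_of_gl {V : CC} {s : List ((Fin 3 × Bool) × ℤ)} (hs : SValid 2 s)
    (hV : cls (expand 2 s) = V) {U : Ct} (hU : Lt U) (h : gl s U = 0) : Ec V U := by
  refine ⟨hU, g_clo hs hV h, fun q Z hZ => ?_⟩
  rw [g_cap hs hV q hZ, g_cap hs hV q (RtG2_and hZ), g_cap hs hV q (RtG2_and (U := fun x => !U x) hZ)]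
  exact g_split h q Z

theorem hv_gl {n K : ℕ} {V : CC} (H : Hv n K V) :
    ∃ s : List ((Fin 3 × Bool) × ℤ), s ≠ [] ∧ SValid 2 s ∧ cls (expand 2 s) = V := by
  refine exists_syl 2 V ⟨0, by decide, ?_⟩
  rw [H.c0]
  have := H.h4
  omega

theorem hv_min {n K : ℕ} {V : CC} (H : Hv n K V) (q : Fin 3 × Bool → ℤ) :
    K ≤ cnt (act (pot 2 q) V) 2 := by
  have h := pot_min H.hO 2 q
  rwa [H.c2] at h

theorem RtG2_gf {n K : ℕ} {V : CC} (H : Hv n K V) {s : List ((Fin 3 × Bool) × ℤ)} (hs : SValid 2 s)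
    (hV : cls (expand 2 s) = V) : gf s 0 = K := by
  rw [← g_cnt hs hV 0, pot_zero, H.c2]

theorem RtG2_gf_le {n K : ℕ} {V : CC} (H : Hv n K V) {s : List ((Fin 3 × Bool) × ℤ)} (hs : SValid 2 s)
    (hV : cls (expand 2 s) = V) (q : Fin 3 × Bool → ℤ) : K ≤ gf s q := by
  rw [← g_cnt hs hV q]
  exact hv_min H q

theorem RtG2_low {n K : ℕ} {V : CC} (H : Hv n K V) {s : List ((Fin 3 × Bool) × ℤ)} (hs : SValid 2 s)
    (hV : cls (expand 2 s) = V) (q : Fin 3 × Bool → ℤ) : ∀ (k : ℕ) (Y : Ct), LtN Y →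
    (Finset.univ.filter fun x => Y x = true).card ≤ k → n ≤ gc s q Y := by
  intro k
  induction k with
  | zero =>
    intro Y hY hk
    exfalso
    obtain ⟨x, hx⟩ := hY.2
    have h1 : x ∈ Finset.univ.filter fun x => Y x = true := Finset.mem_filter.2 ⟨Finset.mem_univ _, hx⟩
    rw [Nat.le_zero, Finset.card_eq_zero] at hk
    rw [hk] at h1
    exact absurd h1 (Finset.notMem_empty _)
  | succ k ih =>
    intro Y hY hk
    obtain ⟨x1, hx1⟩ := hY.2
    obtain ⟨x0, hx0, hmax⟩ := Finset.exists_max_image (Finset.univ.filter fun x => Y x = true) q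
      ⟨x1, Finset.mem_filter.2 ⟨Finset.mem_univ _, hx1⟩⟩
    have hx0' : Y x0 = true := (Finset.mem_filter.1 hx0).2
    have hmax' : ∀ x, Y x = true → q x ≤ q x0 := fun x hx =>
      hmax x (Finset.mem_filter.2 ⟨Finset.mem_univ _, hx⟩)
    by_cases hc : ∀ x, Y x = true → q x = q x0
    · have h1 : gc s q Y = gc s 0 Y := gc_loc (q x0) (fun x hx => by
        rw [hc x hx]
        show q x0 = 0 + q x0
        rw [zero_add])
      rw [h1, ← g_cap hs hV 0 hY.1, pot_zero]
      exact H.lo V (orb_refl V) Y (RtG2_prp hY)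
    · push Not at hc
      obtain ⟨y, hy, hyne⟩ := hc
      set Y0 : Ct := fun x => Y x && decide (q x = q x0) with hY0
      have hY0x0 : Y0 x0 = true := by
        show (Y x0 && decide (q x0 = q x0)) = true
        rw [hx0', decide_eq_true rfl, Bool.and_true]
      have hY0y : Y0 y = false := by
        show (Y y && decide (q y = q x0)) = false
        rw [decide_eq_false hyne, Bool.and_false]
      have h0 : ∀ x, Y0 x = true → Y x = true := by
        intro x hx
        exact (Bool.and_eq_true_iff.1 hx).1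
      have hqq : ∀ x y, Y0 x = true → Y y = true → Y0 y = false → q y < q x := by
        intro x y hx hy hy0
        have e1 : q x = q x0 := of_decide_eq_true (Bool.and_eq_true_iff.1 hx).2
        have e2 : q y ≠ q x0 := by
          intro e
          have : Y0 y = true := by
            show (Y y && decide (q y = q x0)) = true
            rw [hy, decide_eq_true e, Bool.and_true]
          rw [this] at hy0
          exact Bool.noConfusion hy0
        have e3 := hmax' y hy
        omega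
      have h1 := g_step s h0 hqq
      rw [RtG2_gf H hs hV] at h1
      have h2 := RtG2_gf_le H hs hV (ind Y0)
      have h3 : n ≤ gc s q (fun x => Y x && !Y0 x) := by
        refine ih (fun x => Y x && !Y0 x) ⟨RtG2_and (U := fun x => !Y0 x) hY.1, y, ?_⟩ ?_
        · show (Y y && !Y0 y) = true
          rw [hy, hY0y]
          rfl
        · have hlt : (Finset.univ.filter fun x => (Y x && !Y0 x) = true).card <
              (Finset.univ.filter fun x => Y x = true).card := by
            refine Finset.card_lt_card ⟨fun x hx => ?_, fun hsub => ?_⟩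
            · rw [Finset.mem_filter] at hx ⊢
              exact ⟨hx.1, (Bool.and_eq_true_iff.1 hx.2).1⟩
            · have h4 := hsub hx0
              rw [Finset.mem_filter] at h4
              have h5 := (Bool.and_eq_true_iff.1 h4.2).2
              rw [hY0x0] at h5
              exact Bool.noConfusion h5
          omega
      omega

theorem hv_low {n K : ℕ} {V : CC} (H : Hv n K V) (q : Fin 3 × Bool → ℤ) {Y : Ct} (hY : LtN Y) :
    n ≤ capC (act (pot 2 q) V) Y := by
  obtain ⟨s, -, hs, hV⟩ := hv_gl H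
  rw [g_cap hs hV q hY.1]
  exact RtG2_low H hs hV q _ Y hY le_rfl

theorem hv_step {n K : ℕ} {V : CC} (H : Hv n K V) {q : Fin 3 × Bool → ℤ} {Y Y0 : Ct}
    (hT : Ti n V q Y) (h0 : ∀ x, Y0 x = true → Y x = true)
    (hq : ∀ x y, Y0 x = true → Y y = true → Y0 y = false → q y < q x)
    (hne : ∃ y, Y y = true ∧ Y0 y = false) : cnt (act (pot 2 (ind Y0)) V) 2 = K := by
  obtain ⟨s, -, hs, hV⟩ := hv_gl H
  obtain ⟨hY, hcap⟩ := hT
  obtain ⟨y, hy, hy0⟩ := hne
  rw [g_cap hs hV q hY.1] at hcap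
  have h1 := g_step s h0 hq
  rw [RtG2_gf H hs hV, hcap] at h1
  have h2 := RtG2_gf_le H hs hV (ind Y0)
  have h3 : n ≤ gc s q (fun x => Y x && !Y0 x) := by
    refine RtG2_low H hs hV q _ (fun x => Y x && !Y0 x) ⟨RtG2_and (U := fun x => !Y0 x) hY.1, y, ?_⟩ le_rfl
    show (Y y && !Y0 y) = true
    rw [hy, hy0]
    rfl
  rw [g_cnt hs hV]
  omega

theorem hv_loc {n : ℕ} {V : CC} (hV : 0 < cnt V 0) {q q' : Fin 3 × Bool → ℤ} {Y : Ct} (t : ℤ)
    (h : ∀ x, Y x = true → q x = q' x + t) (hT : Ti n V q Y) : Ti n V q' Y := by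
  obtain ⟨s, -, hs, hV'⟩ := exists_syl 2 V ⟨0, by decide, hV⟩
  obtain ⟨hY, hcap⟩ := hT
  refine ⟨hY, ?_⟩
  rw [g_cap hs hV' q hY.1] at hcap
  rw [g_cap hs hV' q' hY.1, ← gc_loc t h]
  exact hcap

theorem hv_sub {n K : ℕ} {V : CC} (H : Hv n K V) {q : Fin 3 × Bool → ℤ} {X Y : Ct}
    (hX : Ti n V q X) (hY : Ti n V q Y) (hXY : ∃ x, X x = true ∧ Y x = true) :
    Ti n V q (fun x => X x || Y x) ∧ Ti n V q (fun x => X x && Y x) := by
  obtain ⟨s, -, hs, hV⟩ := hv_gl H
  obtain ⟨hX1, hX2⟩ := hX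
  obtain ⟨hY1, hY2⟩ := hY
  obtain ⟨x, hx1, hx2⟩ := hXY
  have ho : LtN (fun x => X x || Y x) := ⟨RtG2_or hX1.1 hY1.1, x, by
    show (X x || Y x) = true
    rw [hx1, Bool.true_or]⟩
  have ha : LtN (fun x => X x && Y x) := ⟨RtG2_and hX1.1, x, by
    show (X x && Y x) = true
    rw [hx1, hx2]
    rfl⟩
  have h1 := gc_sub s q X Y
  rw [← g_cap hs hV q hX1.1, ← g_cap hs hV q hY1.1, ← g_cap hs hV q ho.1, ← g_cap hs hV q ha.1, hX2, hY2] at h1
  have h2 := hv_low H q ho
  have h3 := hv_low H q ha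
  exact ⟨⟨ho, by omega⟩, ⟨ha, by omega⟩⟩

theorem RtG2_Sm {n K : ℕ} {V V' : CC} (H : Hv n K V) (h : Sm V V') : Hv n K V' where
  hO := Sm_OMin H.hO h
  h4 := H.h4
  c0 := by rw [h.2, H.c0]
  c1 := by rw [h.2, H.c1]
  c2 := by rw [h.2, H.c2]
  hK := H.hK
  lo := fun W hW A hA => H.lo W (orb_trans h.1 hW) A hA

theorem hv_orb {n K : ℕ} {V : CC} (H : Hv n K V) {q : Fin 3 × Bool → ℤ}
    (h : cnt (act (pot 2 q) V) 2 = K) : Hv n K (act (pot 2 q) V) :=
  RtG2_Sm H (pot_Sm (by rw [h, H.c2]))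

theorem hv_lv {n K : ℕ} {V : CC} (H : Hv n K V) {z : Fin 3 × Bool} {A : Ct} (h : Lv V z A) :
    Hv n K (act (wh z A) V) := RtG2_Sm H (Lv_Sm h)

theorem hv_ti0 {n : ℕ} {V : CC} {Y : Ct} : Ti n V 0 Y ↔ (LtN Y ∧ capC V Y = n) := by
  unfold Ti
  rw [pot_zero]

theorem hv_pot {n : ℕ} {V : CC} {p q : Fin 3 × Bool → ℤ} {Y : Ct} :
    Ti n (act (pot 2 p) V) q Y ↔ Ti n V (q + p) Y := by
  unfold Ti
  rw [pot_add]

theorem ec_pot {V : CC} {U : Ct} (h : Ec V U) (p : Fin 3 × Bool → ℤ) : Ec (act (pot 2 p) V) U := by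
  refine ⟨h.1, clo_pot h.2.1 p, fun q Z hZ => ?_⟩
  rw [pot_add]
  exact h.2.2 (q + p) Z hZ

theorem ec_sub {n K : ℕ} {V : CC} (H : Hv n K V) {U X : Ct} (hU : Ec V U) (hX : Ti n V 0 X)
    (h : ∃ x, X x = true ∧ U x = true) : ∀ x, X x = true → U x = true := by
  intro y hy
  by_contra hc
  have hUy : U y = false := by
    cases hh : U y with
    | false => rfl
    | true => exact absurd hh hc
  obtain ⟨x, hx1, hx2⟩ := h
  rw [hv_ti0] at hX
  have h1 := hU.2.2 0 X hX.1.1
  rw [pot_zero, hX.2] at h1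
  have h2 : n ≤ capC V (fun x => X x && U x) := H.lo V (orb_refl V) _
    (RtG2_prp ⟨RtG2_and hX.1.1, x, by
      show (X x && U x) = true
      rw [hx1, hx2]
      rfl⟩)
  have h3 : n ≤ capC V (fun x => X x && !U x) := H.lo V (orb_refl V) _
    (RtG2_prp ⟨RtG2_and (U := fun x => !U x) hX.1.1, y, by
      show (X y && !U y) = true
      rw [hy, hUy]
      rfl⟩)
  have h4 := H.h4
  omega

theorem ec_compl {V : CC} {U : Ct} (hV : 0 < cnt V 0) (h : Ec V U) :
    Ec V (fun x => !U x && decide (x.1 ≠ 2)) := by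
  obtain ⟨h1, h2, h3⟩ := h
  refine ⟨⟨?_, ?_⟩, ?_, ?_⟩
  · show (!U (2, true) && decide ((2 : Fin 3) ≠ 2)) = false
    rw [decide_eq_false (by simp), Bool.and_false]
  · show (!U (2, false) && decide ((2 : Fin 3) ≠ 2)) = false
    rw [decide_eq_false (by simp), Bool.and_false]
  · intro p
    have e1 : act (pot 2 (p + ind (fun x => !U x && decide (x.1 ≠ 2)))) V = act (pot 2 (p - ind U)) V := by
      refine pot_const 1 (fun x hx => ?_) V
      show p x + (if (!U x && decide (x.1 ≠ 2)) = true then 1 else 0) = p x - (if U x = true then 1 else 0) + 1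
      rw [decide_eq_true hx, Bool.and_true]
      cases U x <;> simp
    rw [e1]
    have e2 := h2 (p - ind U)
    rw [sub_add_cancel] at e2
    exact e2.symm
  · intro q Z hZ
    have e1 : (fun x => Z x && (!U x && decide (x.1 ≠ 2))) = fun x => Z x && !U x := by
      funext x
      rcases x with ⟨i, b⟩
      by_cases hi : i = 2
      · subst hi
        have hz : Z (2, b) = false := by
          cases b
          · exact hZ.2
          · exact hZ.1
        rw [hz, Bool.false_and, Bool.false_and]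
      · rw [decide_eq_true (show ((i, b) : Fin 3 × Bool).1 ≠ 2 from hi), Bool.and_true]
    have e2 : (fun x => Z x && !(!U x && decide (x.1 ≠ 2))) = fun x => Z x && U x := by
      funext x
      rcases x with ⟨i, b⟩
      by_cases hi : i = 2
      · subst hi
        have hz : Z (2, b) = false := by
          cases b
          · exact hZ.2
          · exact hZ.1
        rw [hz, Bool.false_and, Bool.false_and]
      · rw [decide_eq_true (show ((i, b) : Fin 3 × Bool).1 ≠ 2 from hi), Bool.and_true, Bool.not_not]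
    rw [e1, e2, h3 q Z hZ, Nat.add_comm]

end Pool.Agent.Sims
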