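import Pool.Agent.Sims.RtG2

/-!
# Module `RtG3` : a visible set and a tight pair

`X` visible (`Ti n V 0 X`), `(q, Y)` tight, `q u ≠ q v` for some `u, v ∈ X ∧ Y`.  Let `I₂ = {x ∈ X ∧ Y | q x = q v}`, `I₁ = {x ∈ X ∧ Y | q x ≠ q v}`.  With `s` from `hv_gl`; all `gc s _ _` of nonempty sets are `≥ n`
(`hv_low`, `g_cap`).
* `l3_two`: `q` takes only the two values `q u`, `q v` on `X ∧ Y`: otherwise `I₁` splits into two parts with different values (`{x ∈ I₁ | q x = q u}` and the rest), `g_c`: `3 n ≤ 2 n`.
* `l3_ec`: `g_b`: `2 n + gl s (X ∨ Y) ≤ 2 n`: `gl s (X ∨ Y) = 0`, `ec_of_gl`.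
* `l3_in`: `g_b`: `gc s 0 I₁ = gc s 0 I₂ = n`; `g_a` with `J = I₂`: `X ∖ I₂` is tight at `0` and `Y ∖ I₂` is tight at `q` (both contain `u`).
* `l3_win`: `g = 0` on `X`, `g = q - q u` on `Y ∖ X`.  `(g, X)` is tight (`hv_loc`), `(g, Y ∖ I₂)` is tight (`g = q - q u` on `Y ∖ I₂`: on `I₁` both are `0` by `l3_two`; `hv_loc` and `l3_in`), they meet in `u`:
  `hv_sub`.
* `l3_full`: if moreover `g = 0` on `Y ∖ X`, i.e. `q x = q u` for all `x ∈ Y ∖ X`: then with `I = {x ∈ Y | q x = q v}` (`= I₂`) and `κ = q v - q u`: `X ∨ Y` is visible (`l3_win`), `(κ·1_I, X ∨ Y)` is tight: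
  `(κ 1_I, Y)` is tight (`hv_loc`), `(κ 1_I, X ∖ I)` is tight (`l3_in`, `hv_loc`), `hv_sub`.
* `g_d'`: (`g_d`): if `X'` is visible, disjoint from `X`, contained in `Y`, and `q` is not constant on `X'`: contradiction (`4 n ≤ 3 n`).
Difficulty 3.
-/

namespace Pool.Agent.Sims

theorem RtG3_bas {n K : ℕ} {V : CC} (H : Hv n K V) : ∃ s : List ((Fin 3 × Bool) × ℤ),
    (∀ (q : Fin 3 × Bool → ℤ) (Y : Ct), LtN Y → n ≤ gc s q Y) ∧
    (∀ (q : Fin 3 × Bool → ℤ) (Y : Ct), Ti n V q Y ↔ (LtN Y ∧ gc s q Y = n)) ∧
    ∀ U : Ct, Lt U → gl s U = 0 → Ec V U := by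
  obtain ⟨s, -, hs, hV⟩ := hv_gl H
  refine ⟨s, fun q Y hY => ?_, fun q Y => ?_, fun U hU h => ec_of_gl hs hV hU h⟩
  · rw [← g_cap hs hV q hY.1]
    exact hv_low H q hY
  · constructor
    · rintro ⟨h1, h2⟩
      exact ⟨h1, by rw [← g_cap hs hV q h1.1]; exact h2⟩
    · rintro ⟨h1, h2⟩
      exact ⟨h1, by rw [g_cap hs hV q h1.1]; exact h2⟩

theorem RtG3_lt {X Y : Ct} (hX : Lt X) (h : ∀ x, Y x = true → X x = true) : Lt Y := by
  constructor
  · by_contra h1
    have h2 := h _ (by simpa using h1)
    rw [hX.1] at h2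
    exact Bool.false_ne_true h2
  · by_contra h1
    have h2 := h _ (by simpa using h1)
    rw [hX.2] at h2
    exact Bool.false_ne_true h2

theorem RtG3_ltn {X Y : Ct} (hX : LtN X) (h : ∀ x, Y x = true → X x = true) {u : Fin 3 × Bool}
    (hu : Y u = true) : LtN Y := ⟨RtG3_lt hX.1 h, u, hu⟩

theorem l3_two {n K : ℕ} {V : CC} (H : Hv n K V) {q : Fin 3 × Bool → ℤ} {X Y : Ct}
    (hX : Ti n V 0 X) (hY : Ti n V q Y) {u v : Fin 3 × Bool} (hu : X u = true) (hu' : Y u = true)
    (hv : X v = true) (hv' : Y v = true) (huv : q u ≠ q v) :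
    ∀ x, X x = true → Y x = true → q x = q u ∨ q x = q v := by
  intro x hx hx'
  by_contra hcon
  push Not at hcon
  obtain ⟨hxu, hxv⟩ := hcon
  obtain ⟨s, low, ti, -⟩ := RtG3_bas H
  have e1 := ((ti 0 X).1 hX).2
  have e2 := ((ti q Y).1 hY).2
  have key := g_c s (q := q) (X := X) (Y := Y) (I1 := fun y => X y && (Y y && decide (q y = q u)))
    (I2 := fun y => X y && (Y y && decide (q y = q v)))
    (I3 := fun y => X y && (Y y && (!decide (q y = q u) && !decide (q y = q v))))
    (by
      intro y
      simp only [Bool.and_eq_true, decide_eq_true_eq, Bool.not_eq_true', decide_eq_false_iff_not]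
      tauto)
    (by
      intro y z h1 h2
      simp only [Bool.and_eq_true, decide_eq_true_eq] at h1 h2
      rw [h1.2.2, h2.2.2]; exact huv)
    (by
      intro y z h1 h2
      simp only [Bool.and_eq_true, decide_eq_true_eq, Bool.not_eq_true', decide_eq_false_iff_not] at h1 h2
      rw [h1.2.2]; exact fun h => h2.2.2.1 h.symm)
    (by
      intro y z h1 h2
      simp only [Bool.and_eq_true, decide_eq_true_eq, Bool.not_eq_true', decide_eq_false_iff_not] at h1 h2
      rw [h1.2.2]; exact fun h => h2.2.2.2 h.symm)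
  have l1 := low 0 (fun y => X y && (Y y && decide (q y = q u)))
    (RtG3_ltn hX.1 (fun y hy => by simp only [Bool.and_eq_true] at hy; exact hy.1) (u := u)
      (by simp [hu, hu']))
  have l2 := low 0 (fun y => X y && (Y y && decide (q y = q v)))
    (RtG3_ltn hX.1 (fun y hy => by simp only [Bool.and_eq_true] at hy; exact hy.1) (u := v)
      (by simp [hv, hv']))
  have l3 := low 0 (fun y => X y && (Y y && (!decide (q y = q u) && !decide (q y = q v))))
    (RtG3_ltn hX.1 (fun y hy => by simp only [Bool.and_eq_true] at hy; exact hy.1) (u := x)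
      (by simp [hx, hx', hxu, hxv]))
  have h4 := H.h4
  omega

/-- the inequality `g_b` for the two parts of `X ∧ Y` -/
theorem RtG3_two {n K : ℕ} {V : CC} (H : Hv n K V) {q : Fin 3 × Bool → ℤ} {X Y : Ct}
    (hX : Ti n V 0 X) (hY : Ti n V q Y) {u v : Fin 3 × Bool} (hu : X u = true) (hu' : Y u = true)
    (hv : X v = true) (hv' : Y v = true) (huv : q u ≠ q v) :
    Ti n V 0 (fun x => X x && (Y x && decide (q x = q v))) ∧ Ec V (fun x => X x || Y x) := by
  obtain ⟨s, low, ti, ec⟩ := RtG3_bas H
  have e1 := ((ti 0 X).1 hX).2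
  have e2 := ((ti q Y).1 hY).2
  have key := g_b s (q := q) (X := X) (Y := Y) (I1 := fun y => X y && (Y y && !decide (q y = q v)))
    (I2 := fun y => X y && (Y y && decide (q y = q v)))
    (by
      intro y
      simp only [Bool.and_eq_true, decide_eq_true_eq, Bool.not_eq_true', decide_eq_false_iff_not]
      tauto)
    (by
      intro y z h1 h2
      simp only [Bool.and_eq_true, decide_eq_true_eq, Bool.not_eq_true', decide_eq_false_iff_not] at h1 h2
      rw [h2.2.2]; exact h1.2.2)
  have n2 : LtN (fun y => X y && (Y y && decide (q y = q v))) :=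
    RtG3_ltn hX.1 (fun y hy => by simp only [Bool.and_eq_true] at hy; exact hy.1) (u := v)
      (by simp [hv, hv'])
  have l1 := low 0 (fun y => X y && (Y y && !decide (q y = q v)))
    (RtG3_ltn hX.1 (fun y hy => by simp only [Bool.and_eq_true] at hy; exact hy.1) (u := u)
      (by simp [hu, hu', huv]))
  have l2 := low 0 (fun y => X y && (Y y && decide (q y = q v))) n2
  refine ⟨(ti 0 _).2 ⟨n2, by omega⟩, ec _ ⟨?_, ?_⟩ (by omega)⟩
  · simp [hX.1.1.1, hY.1.1.1]
  · simp [hX.1.1.2, hY.1.1.2]

theorem l3_ec {n K : ℕ} {V : CC} (H : Hv n K V) {q : Fin 3 × Bool → ℤ} {X Y : Ct}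
    (hX : Ti n V 0 X) (hY : Ti n V q Y) {u v : Fin 3 × Bool} (hu : X u = true) (hu' : Y u = true)
    (hv : X v = true) (hv' : Y v = true) (huv : q u ≠ q v) : Ec V (fun x => X x || Y x) :=
  (RtG3_two H hX hY hu hu' hv hv' huv).2

theorem l3_in {n K : ℕ} {V : CC} (H : Hv n K V) {q : Fin 3 × Bool → ℤ} {X Y : Ct}
    (hX : Ti n V 0 X) (hY : Ti n V q Y) {u v : Fin 3 × Bool} (hu : X u = true) (hu' : Y u = true)
    (hv : X v = true) (hv' : Y v = true) (huv : q u ≠ q v) :
    Ti n V 0 (fun x => X x && (Y x && decide (q x = q v))) ∧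
    Ti n V 0 (fun x => X x && !(Y x && decide (q x = q v))) ∧
    Ti n V q (fun x => Y x && !(X x && decide (q x = q v))) := by
  refine ⟨(RtG3_two H hX hY hu hu' hv hv' huv).1, ?_⟩
  obtain ⟨s, low, ti, ec⟩ := RtG3_bas H
  have e1 := ((ti 0 X).1 hX).2
  have e2 := ((ti q Y).1 hY).2
  have key := g_a s (q := q) (X := X) (Y := Y) (J := fun y => X y && (Y y && decide (q y = q v)))
    (by
      intro y hy
      simp only [Bool.and_eq_true] at hy
      exact ⟨hy.1, hy.2.1⟩)
    (by
      intro y z h1 h2 h3 h4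
      simp only [Bool.and_eq_true, decide_eq_true_eq] at h1
      rw [h1.2.2]
      intro h5
      simp [h2, h3, h5.symm] at h4)
  have s1 : (fun x => X x && !(X x && (Y x && decide (q x = q v)))) =
      fun x => X x && !(Y x && decide (q x = q v)) := by
    funext x
    cases X x <;> simp
  have s2 : (fun x => Y x && !(X x && (Y x && decide (q x = q v)))) =
      fun x => Y x && !(X x && decide (q x = q v)) := by
    funext x
    cases Y x <;> simp
  rw [s1, s2] at key
  have n1 : LtN (fun x => X x && !(Y x && decide (q x = q v))) :=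
    RtG3_ltn hX.1 (fun y hy => by simp only [Bool.and_eq_true] at hy; exact hy.1) (u := u)
      (by simp [hu, hu', huv])
  have n2 : LtN (fun x => Y x && !(X x && decide (q x = q v))) :=
    RtG3_ltn hY.1 (fun y hy => by simp only [Bool.and_eq_true] at hy; exact hy.1) (u := u)
      (by simp [hu, hu', huv])
  have l1 := low 0 _ n1
  have l2 := low q _ n2
  exact ⟨(ti 0 _).2 ⟨n1, by omega⟩, (ti q _).2 ⟨n2, by omega⟩⟩

theorem l3_win {n K : ℕ} {V : CC} (H : Hv n K V) {q : Fin 3 × Bool → ℤ} {X Y : Ct}
    (hX : Ti n V 0 X) (hY : Ti n V q Y) {u v : Fin 3 × Bool} (hu : X u = true) (hu' : Y u = true)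
    (hv : X v = true) (hv' : Y v = true) (huv : q u ≠ q v) :
    Ti n V (fun x => if X x = true then 0 else q x - q u) (fun x => X x || Y x) := by
  have hpos : 0 < cnt V 0 := by
    rw [H.c0]
    have := H.h4
    omega
  have t1 : Ti n V (fun x => if X x = true then 0 else q x - q u) X := by
    refine hv_loc hpos 0 (fun x hx => ?_) hX
    simp [hx]
  have t2 : Ti n V (fun x => if X x = true then 0 else q x - q u)
      (fun x => Y x && !(X x && decide (q x = q v))) := by
    refine hv_loc hpos (q u) (fun x hx => ?_) (l3_in H hX hY hu hu' hv hv' huv).2.2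
    simp only [Bool.and_eq_true, Bool.not_eq_true', Bool.and_eq_false_iff, decide_eq_false_iff_not] at hx
    by_cases hXx : X x = true
    · rcases hx.2 with h1 | h1
      · rw [hXx] at h1
        exact absurd h1.symm Bool.false_ne_true
      · rcases l3_two H hX hY hu hu' hv hv' huv x hXx hx.1 with h2 | h2
        · simp [hXx, h2]
        · exact absurd h2 h1
    · simp [hXx]
  have t3 := (hv_sub H t1 t2 ⟨u, hu, by simp [hu, hu', huv]⟩).1
  have s1 : (fun x => X x || (Y x && !(X x && decide (q x = q v)))) = fun x => X x || Y x := by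
    funext x
    cases X x <;> simp
  rwa [s1] at t3

theorem l3_full {n K : ℕ} {V : CC} (H : Hv n K V) {q : Fin 3 × Bool → ℤ} {X Y : Ct}
    (hX : Ti n V 0 X) (hY : Ti n V q Y) {u v : Fin 3 × Bool} (hu : X u = true) (hu' : Y u = true)
    (hv : X v = true) (hv' : Y v = true) (huv : q u ≠ q v)
    (h : ∀ x, Y x = true → X x = false → q x = q u) :
    Ti n V 0 (fun x => X x || Y x) ∧
    Ti n V (fun x => (q v - q u) * ind (fun x => Y x && decide (q x = q v)) x)
      (fun x => X x || Y x) := by
  have hpos : 0 < cnt V 0 := by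
    rw [H.c0]
    have := H.h4
    omega
  constructor
  · refine hv_loc hpos 0 (fun x hx => ?_) (l3_win H hX hY hu hu' hv hv' huv)
    simp only [Bool.or_eq_true] at hx
    by_cases hXx : X x = true
    · simp [hXx]
    · rcases hx with h1 | h1
      · exact absurd h1 hXx
      · rw [if_neg hXx, h x h1 (by simpa using hXx)]
        simp
  · have t1 : Ti n V (fun x => (q v - q u) * ind (fun x => Y x && decide (q x = q v)) x) Y := by
      refine hv_loc hpos (q u) (fun x hx => ?_) hY
      show q x = (q v - q u) * ind (fun x => Y x && decide (q x = q v)) x + q u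
      by_cases h1 : q x = q v
      · simp [ind, hx, h1]
      · have h2 : q x = q u := by
          by_cases hXx : X x = true
          · rcases l3_two H hX hY hu hu' hv hv' huv x hXx hx with h2 | h2
            · exact h2
            · exact absurd h2 h1
          · exact h x hx (by simpa using hXx)
        simp [ind, h1, h2]
        intro _ h3
        exact absurd h3 huv
    have t2 : Ti n V (fun x => (q v - q u) * ind (fun x => Y x && decide (q x = q v)) x)
        (fun x => X x && !(Y x && decide (q x = q v))) := by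
      refine hv_loc hpos 0 (fun x hx => ?_) (l3_in H hX hY hu hu' hv hv' huv).2.1
      simp only [Bool.and_eq_true, Bool.not_eq_true'] at hx
      show 0 = (q v - q u) * ind (fun x => Y x && decide (q x = q v)) x + 0
      have h2 : ind (fun x => Y x && decide (q x = q v)) x = 0 := by
        simp only [ind, hx.2]
        rfl
      rw [h2, mul_zero, add_zero]
    have t3 := (hv_sub H t1 t2 ⟨u, hu', by simp [hu, hu', huv]⟩).1
    have s1 : (fun x => Y x || (X x && !(Y x && decide (q x = q v)))) = fun x => X x || Y x := by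
      funext x
      cases X x <;> cases Y x <;> simp
    rwa [s1] at t3

theorem l3_d {n K : ℕ} {V : CC} (H : Hv n K V) {q : Fin 3 × Bool → ℤ} {X X' Y : Ct}
    (hX : Ti n V 0 X) (hX' : Ti n V 0 X') (hY : Ti n V q Y) {u v u' v' : Fin 3 × Bool}
    (hu : X u = true) (hu' : Y u = true) (hv : X v = true) (hv' : Y v = true) (huv : q u ≠ q v)
    (hd : ∀ x, X x = true → X' x = false) (hs : ∀ x, X' x = true → Y x = true)
    (h1 : X' u' = true) (h2 : X' v' = true) (h3 : q u' ≠ q v') : False := by
  obtain ⟨s, low, ti, -⟩ := RtG3_bas H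
  have e1 := ((ti 0 X).1 hX).2
  have e2 := ((ti q Y).1 hY).2
  have e3 := ((ti 0 X').1 hX').2
  have key := g_d s (q := q) (X := X) (X' := X') (Y := Y)
    (I1 := fun y => X y && (Y y && !decide (q y = q v)))
    (I2 := fun y => X y && (Y y && decide (q y = q v)))
    (J1 := fun y => X' y && !decide (q y = q v'))
    (J2 := fun y => X' y && decide (q y = q v')) hd hs
    (by
      intro y
      simp only [Bool.and_eq_true, decide_eq_true_eq, Bool.not_eq_true', decide_eq_false_iff_not]
      tauto)
    (by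
      intro y
      simp only [Bool.and_eq_true, decide_eq_true_eq, Bool.not_eq_true', decide_eq_false_iff_not]
      tauto)
    (by
      intro y z h1 h2
      simp only [Bool.and_eq_true, decide_eq_true_eq, Bool.not_eq_true', decide_eq_false_iff_not] at h1 h2
      rw [h2.2.2]; exact h1.2.2)
    (by
      intro y z h1 h2
      simp only [Bool.and_eq_true, decide_eq_true_eq, Bool.not_eq_true', decide_eq_false_iff_not] at h1 h2
      rw [h2.2]; exact h1.2)
  have l1 := low 0 (fun y => X y && (Y y && !decide (q y = q v)))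
    (RtG3_ltn hX.1 (fun y hy => by simp only [Bool.and_eq_true] at hy; exact hy.1) (u := u)
      (by simp [hu, hu', huv]))
  have l2 := low 0 (fun y => X y && (Y y && decide (q y = q v)))
    (RtG3_ltn hX.1 (fun y hy => by simp only [Bool.and_eq_true] at hy; exact hy.1) (u := v)
      (by simp [hv, hv']))
  have l3 := low 0 (fun y => X' y && !decide (q y = q v'))
    (RtG3_ltn hX'.1 (fun y hy => by simp only [Bool.and_eq_true] at hy; exact hy.1) (u := u')
      (by simp [h1, h3]))
  have l4 := low 0 (fun y => X' y && decide (q y = q v'))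
    (RtG3_ltn hX'.1 (fun y hy => by simp only [Bool.and_eq_true] at hy; exact hy.1) (u := v')
      (by simp [h2]))
  have h4 := H.h4
  omega

end Pool.Agent.Sims
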