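import Pool.Agent.Sims.RtG4

/-!
# Module `RtG5` : tight pairs at a good chart

`RotW n V U I κ`: `U` is closed, visible, `(κ·1_I, U)` is tight, `I` a nonempty proper subset of `U`, `κ ≠ 0` (a rotation of the window `U`).

`good_win`: `V` good, `(q, Y)` tight, `q x₀ ≠ q y₀` for some `x₀, y₀ ∈ Y`.  Among the visible `X` with `q` not constant on `X ∧ Y` choose one with the maximal number of letters; `u, v ∈ X ∧ Y`, `q u ≠ q v`.
`U = X ∨ Y` is closed (`l3_ec`), `(g, U)` is tight, `g = 0` on `X`, `g = q - q u` on `Y ∖ X` (`l3_win`).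
Claim: `g = 0` on `U`.  Otherwise `g` is not constant on `U` (`g u = 0`), so by `GdC` there is a visible `X'` and `u', v' ∈ X' ∧ U` with `g u' ≠ g v'`.  `X' ⊆ U` (`ec_sub`).
 - If `X'` meets `X`: `X ∨ X'` is visible (`hv_sub`), `q` is not constant on `(X ∨ X') ∧ Y`; by the choice of `X` it has not more letters than `X`, so `X' ⊆ X`, but `g = 0` on `X`: contradiction.
 - If `X' ∧ X = ∅`: `X' ⊆ Y`, and `q u' ≠ q v'`: `l3_d` gives a contradiction.
So `q = q u` on `Y ∖ X`, and `l3_full` gives: `U` visible, `(κ 1_I, U)` tight, `κ = q v - q u`, `I = {x ∈ Y | q x = q v}`.  On `Y`: `q = q u + κ 1_I`: on `Y ∖ X` `q = q u` (and `q u ≠ q v`), on `X ∧ Y` by `l3_two`.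
`v ∈ I`, `u ∉ I`.
Difficulty 2.
-/

namespace Pool.Agent.Sims

/-- rotation of a window -/
structure RotW (n : ℕ) (V : CC) (U I : Ct) (κ : ℤ) : Prop where
  h0 : κ ≠ 0
  ec : Ec V U
  t0 : Ti n V 0 U
  t1 : Ti n V (fun x => κ * ind I x) U
  sub : ∀ x, I x = true → U x = true
  ne : ∃ x, I x = true
  ne' : ∃ x, U x = true ∧ I x = false

theorem good_win {n K : ℕ} {V : CC} (H : Hv n K V) (hG : GdC n V) {q : Fin 3 × Bool → ℤ} {Y : Ct}
    (hT : Ti n V q Y) (hq : ∃ x y, Y x = true ∧ Y y = true ∧ q x ≠ q y) :
    ∃ (U I : Ct) (κ : ℤ), RotW n V U I κ ∧ (∀ x, Y x = true → U x = true) ∧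
      (∃ t : ℤ, ∀ x, Y x = true → q x = t + κ * ind I x) ∧ (∃ x, Y x = true ∧ I x = true) ∧
      ∃ x, Y x = true ∧ I x = false := by
  classical
  -- a visible set with the maximal number of letters
  have hex : ∃ X : Ct, X ∈ Finset.univ.filter (fun X : Ct => Ti n V 0 X ∧ ∃ u v, X u = true ∧ Y u = true ∧
      X v = true ∧ Y v = true ∧ q u ≠ q v) := by
    rcases hG q Y hT with h1 | ⟨X, h1, h2⟩
    · obtain ⟨x, y, hx, hy, hxy⟩ := hq
      exact absurd (h1 x y hx hy) hxy
    · exact ⟨X, Finset.mem_filter.2 ⟨Finset.mem_univ _, h1, h2⟩⟩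
  obtain ⟨X, hXm, hmax⟩ := Finset.exists_max_image _
    (fun X : Ct => (Finset.univ.filter (fun x : Fin 3 × Bool => X x = true)).card) hex
  obtain ⟨-, hX, u, v, hu, hu', hv, hv', huv⟩ := Finset.mem_filter.1 hXm
  have hU := l3_ec H hX hT hu hu' hv hv' huv
  have hw := l3_win H hX hT hu hu' hv hv' huv
  have claim : ∀ x, (X x || Y x) = true → (if X x = true then (0 : ℤ) else q x - q u) = 0 := by
    by_contra hcon
    push Not at hcon
    obtain ⟨x, hx, hgx⟩ := hcon
    rcases hG _ _ hw with h1 | ⟨X', hX', u', v', a1, a2, a3, a4, a5⟩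
    · have h2 := h1 x u hx (by simp [hu])
      apply hgx
      rw [h2, if_pos hu]
    · have hsub := ec_sub H hU hX' ⟨u', a1, a2⟩
      by_cases hm : ∃ x, X x = true ∧ X' x = true
      · have h3 := (hv_sub H hX hX' hm).1
        have h4 := hmax (fun x => X x || X' x) (Finset.mem_filter.2 ⟨Finset.mem_univ _, h3, u, v,
          by simp [hu], hu', by simp [hv], hv', huv⟩)
        have h5 : Finset.univ.filter (fun x : Fin 3 × Bool => X x = true) ⊆
            Finset.univ.filter (fun x : Fin 3 × Bool => (X x || X' x) = true) := by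
          intro y hy
          rw [Finset.mem_filter] at hy ⊢
          exact ⟨hy.1, by simp [hy.2]⟩
        have h6 := Finset.eq_of_subset_of_card_le h5 h4
        have h7 : ∀ y, X' y = true → X y = true := by
          intro y hy
          have h8 : y ∈ Finset.univ.filter (fun x : Fin 3 × Bool => (X x || X' x) = true) :=
            Finset.mem_filter.2 ⟨Finset.mem_univ _, by simp [hy]⟩
          rw [← h6] at h8
          exact (Finset.mem_filter.1 h8).2
        apply a5
        rw [if_pos (h7 _ a1), if_pos (h7 _ a3)]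
      · push Not at hm
        have hd : ∀ x, X x = true → X' x = false := fun x hx => by
          have := hm x hx
          simpa using this
        have hnX : ∀ x, X' x = true → ¬ X x = true := fun x hx hx' => hm x hx' hx
        have hs : ∀ x, X' x = true → Y x = true := fun x hx => by
          have h8 := hsub x hx
          rw [Bool.or_eq_true] at h8
          rcases h8 with h8 | h8
          · exact absurd h8 (hnX x hx)
          · exact h8
        refine l3_d H hX hX' hT hu hu' hv hv' huv hd hs a1 a3 ?_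
        intro h9
        apply a5
        rw [if_neg (hnX _ a1), if_neg (hnX _ a3), h9]
  have hc : ∀ x, Y x = true → X x = false → q x = q u := by
    intro x hx hx'
    have h1 := claim x (by simp [hx])
    rw [if_neg (by simp [hx'])] at h1
    linarith
  obtain ⟨t0, t1⟩ := l3_full H hX hT hu hu' hv hv' huv hc
  have htwo := l3_two H hX hT hu hu' hv hv' huv
  refine ⟨fun x => X x || Y x, fun x => Y x && decide (q x = q v), q v - q u,
    ⟨sub_ne_zero.2 huv.symm, hU, t0, t1, fun x hx => ?_, ⟨v, by simp [hv']⟩, ⟨u, by simp [hu], by simp [huv]⟩⟩,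
    fun x hx => by simp [hx], ⟨q u, fun x hx => ?_⟩, ⟨v, hv', by simp [hv']⟩, ⟨u, hu', by simp [huv]⟩⟩
  · simp only [Bool.and_eq_true] at hx
    simp [hx.1]
  · by_cases h1 : q x = q v
    · simp [ind, hx, h1]
    · have h2 : q x = q u := by
        by_cases hXx : X x = true
        · rcases htwo x hXx hx with h2 | h2
          · exact h2
          · exact absurd h2 h1
        · exact hc x hx (by simpa using hXx)
      have h3 : ind (fun x => Y x && decide (q x = q v)) x = 0 := by
        simp [ind, h1]
      rw [h3, mul_zero, add_zero]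
      exact h2

end Pool.Agent.Sims
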