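import Pool.Agent.Sims.RtG6

/-!
# Module `RtG7` : light moves preserve good charts

`V` good, `(A, z)` a light level move with `A` a set of light letters, `V' = act (wh z A) V`, `S = stc A z` (visible at `V'`: `Lv_inv`; `A` is visible at `V`).
Let `(q', Y)` be tight at `V'`, `q'` not constant on `Y`.  Wanted: a visible `X₂` at `V'` with `q'` not constant on `X₂ ∧ Y`.
(1) If `q'` is not constant on `S ∧ Y`: `X₂ = S`.  So let `q'` be constant on `S ∧ Y`.
(2) If `S ∧ Y ≠ ∅`, value `s`: let `q* = s` on `S`, `q* = q'` elsewhere; `(q*, S)`, `(q*, Y)` are tight (`hv_loc`), so `(q*, S ∨ Y)` is tight (`hv_sub`), `q*` not constant on it.  It is enough to find a visible `X` with `q*` not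
    constant on `X ∧ (S ∨ Y)`: let `x, y` be two points with different values, not both in `S`; if none is in `S`, `X₂ = X` works; if `x ∈ S`, `y ∉ S`, then `q' y ≠ s`, `X ∨ S` is visible (`hv_sub`), and contains `y` and a point of `S ∧ Y`.
    If `S ∧ Y = ∅` change `q'` on `S` to a constant (`hv_loc`).
    So we may assume: `q'` is constant on `S`, and `S ⊆ Y` or `S ∧ Y = ∅` (`core` below).
(3) `q = q'` outside of `S ∖ z⁻¹ = A ∖ z`, `q = q' z` on `A ∖ z`; so `q` is constant on `A`.  `tr_pot` for `V'`, `z⁻¹`, `S` and the potential `q'`: `act (wh z⁻¹ S) (act (pot 2 q') V') = act (pot 2 q) (act (wh z⁻¹ S) V') = act (pot 2 q) V`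
    (`Lv_inv`).  `Y₁ = psi z⁻¹ S Y`: by `tr_cut` its capacity at `act (pot 2 q) V` is that of `Y` at `act (pot 2 q') V'`, i.e. `n`; `Y₁` is constant on `A` (`psi_const`), nonempty (`z⁻¹ ∈ Y₁` iff `z⁻¹ ∈ Y`; a point of `Y` outside of `S` is in
    `Y₁`).  So `(q, Y₁)` is tight at `V`.
(4) `q` is not constant on `Y₁`: the points of `Y` outside of `S ∖ z⁻¹` are in `Y₁` with the same value; if `S ⊆ Y` a point of `S` has the value `q' z⁻¹ = q z⁻¹`, `z⁻¹ ∈ Y₁`.
(5) `GdC`: a visible `X` at `V`, `u, v ∈ X ∧ Y₁`, `q u ≠ q v`.  If `X` meets `A` replace `X` by `X ∨ A` (`hv_sub`); so `X ⊇ A` or `X ∧ A = ∅`.  `X₂ = psi z A X` is visible at `V'` (`tr_cut`; nonempty as before).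
(6) For `w ∈ X ∧ Y₁` there is `w' ∈ X₂ ∧ Y` with `q' w' = q w`: if `w ∉ A`: `w' = w` (`Y₁`, `X₂` agree with `Y`, `X` outside of `A ∖ z`, resp. `S ∖ z⁻¹ = A ∖ z`; `q' w = q w`).  If `w ∈ A`: `z ∈ Y₁`, so `z ∈ Y`; `A ⊆ X`, so `z ∈ X₂`; `w' = z`,
    `q w = q' z`.
Difficulty 4.
-/

namespace Pool.Agent.Sims

theorem RtG7_S {z : Fin 3 × Bool} {A : Ct} (x : Fin 3 × Bool) :
    (stc A z x && decide (x ≠ bar z)) = (A x && decide (x ≠ z) && decide (x ≠ bar z)) := by
  unfold stc
  by_cases h : x = bar z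
  · simp [h]
  · simp [h]

theorem RtG7_S2 {z : Fin 3 × Bool} {A : Ct} (h2 : A (bar z) = false) (x : Fin 3 × Bool) :
    (stc A z x && decide (x ≠ bar z)) = (A x && decide (x ≠ z)) := by
  rw [RtG7_S]
  by_cases h : x = bar z
  · simp [h, h2]
  · simp [h]

theorem RtG7_Lt {z : Fin 3 × Bool} {A : Ct} (hz : z.1 ≠ 2) (hA : Lt A) : Lt (stc A z) := by
  constructor
  · have h : ((2, true) : Fin 3 × Bool) ≠ bar z := by
      intro h
      exact hz (congrArg Prod.fst h).symm
    unfold stc
    rw [hA.1]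
    simpa using h
  · have h : ((2, false) : Fin 3 × Bool) ≠ bar z := by
      intro h
      exact hz (congrArg Prod.fst h).symm
    unfold stc
    rw [hA.2]
    simpa using h

theorem RtG7_cnt {n K : ℕ} {V : CC} (H : Hv n K V) {z : Fin 3 × Bool} (hz : z.1 ≠ 2) :
    cnt V z.1 = n := by
  have : z.1 = 0 ∨ z.1 = 1 := by
    have h := z.1.isLt
    rcases z with ⟨i, b⟩
    fin_cases i
    · left; rfl
    · right; rfl
    · exact absurd rfl hz
  rcases this with h | h
  · rw [h]; exact H.c0
  · rw [h]; exact H.c1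

theorem RtG7_core {n K : ℕ} {V : CC} (H : Hv n K V) (hG : GdC n V) {z : Fin 3 × Bool} {A : Ct}
    (hz : z.1 ≠ 2) (hA : Lt A) (hL : Lv V z A) {q' : Fin 3 × Bool → ℤ} {Y : Ct}
    (hT : Ti n (act (wh z A) V) q' Y) (hc : ∀ x, stc A z x = true → q' x = q' (bar z))
    (hSY : ∀ x, stc A z x = true → Y x = Y (bar z))
    (hn : ∃ x y, Y x = true ∧ Y y = true ∧ q' x ≠ q' y) :
    ∃ X, Ti n (act (wh z A) V) 0 X ∧ ∃ u v, X u = true ∧ Y u = true ∧ X v = true ∧ Y v = true ∧
      q' u ≠ q' v := by
  have hA1 := hL.1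
  have hA2 := hL.2.1
  have hinv := Lv_inv hL
  have hinv1 : Lv (act (wh z A) V) (bar z) (stc A z) := hinv.1
  have hinv2 : act (wh (bar z) (stc A z)) (act (wh z A) V) = V := hinv.2
  have hSl := RtG7_Lt hz hA
  have hzb : (bar z).1 ≠ 2 := hz
  have hp := tr_pot (act (wh z A) V) hzb hSl hinv1.1 hinv1.2.1 (p := q') hc
  rw [hinv2] at hp
  have hcut := tr_cut (act (pot 2 q') (act (wh z A) V)) (Y := Y) hinv1.1 hinv1.2.1 hSY
  rw [hp, hT.2] at hcut
  have hq : ∀ x, (if stc A z x && decide (x ≠ bar z) then q' (bar (bar z)) else q' x) =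
      (if A x && decide (x ≠ z) then q' z else q' x) := by
    intro x
    rw [RtG7_S2 hA2, bar_bar]
  have hY1 : ∀ x, psi (bar z) (stc A z) Y x = (if A x && decide (x ≠ z) then Y z else Y x) := by
    intro x
    unfold psi
    rw [RtG7_S2 hA2, bar_bar]
  have hmem : ∀ w, Y w = true → ∃ w1, psi (bar z) (stc A z) Y w1 = true ∧
      (if stc A z w1 && decide (w1 ≠ bar z) then q' (bar (bar z)) else q' w1) = q' w := by
    intro w hw
    by_cases h : (A w && decide (w ≠ z)) = true
    · have hS : stc A z w = true := by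
        unfold stc
        rw [h]
        rfl
      refine ⟨bar z, ?_, ?_⟩
      · rw [hY1, hA2]
        have := hSY w hS
        rw [← this, hw]
        simp
      · rw [hq, hA2]
        have := hc w hS
        rw [this]
        simp
    · refine ⟨w, ?_, ?_⟩
      · rw [hY1, if_neg h, hw]
      · rw [hq, if_neg h]
  have hT1 : Ti n V (fun x => if stc A z x && decide (x ≠ bar z) then q' (bar (bar z)) else q' x)
      (psi (bar z) (stc A z) Y) := by
    refine ⟨⟨psi_Lt hSl hT.1.1, ?_⟩, hcut⟩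
    obtain ⟨x, y, hx, hy, hxy⟩ := hn
    obtain ⟨w1, h1, h2⟩ := hmem x hx
    exact ⟨w1, h1⟩
  rcases hG _ _ hT1 with hcon | ⟨X, hX, u, v, hXu, hYu, hXv, hYv, huv⟩
  · exfalso
    obtain ⟨x, y, hx, hy, hxy⟩ := hn
    obtain ⟨x1, hx1, hx2⟩ := hmem x hx
    obtain ⟨y1, hy1, hy2⟩ := hmem y hy
    apply hxy
    rw [← hx2, ← hy2]
    exact hcon x1 y1 hx1 hy1
  have hTA : Ti n V 0 A := hv_ti0.2 ⟨⟨hA, ⟨z, hA1⟩⟩, by rw [hL.2.2]; exact RtG7_cnt H hz⟩
  obtain ⟨X', hX', hXX', hXA⟩ : ∃ X' : Ct, Ti n V 0 X' ∧ (∀ x, X x = true → X' x = true) ∧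
      ∀ x, A x = true → X' x = X' z := by
    by_cases hm : ∃ x, X x = true ∧ A x = true
    · refine ⟨fun x => X x || A x, (hv_sub H hX hTA hm).1, fun x hx => by simp [hx], fun x hx => ?_⟩
      simp [hx, hA1]
    · refine ⟨X, hX, fun x hx => hx, fun x hx => ?_⟩
      have h1 : X x = false := by
        by_contra h
        exact hm ⟨x, by simpa using h, hx⟩
      have h2 : X z = false := by
        by_contra h
        exact hm ⟨z, by simpa using h, hA1⟩
      rw [h1, h2]
  have hcut2 := tr_cut V (Y := X') hA1 hA2 hXA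
  rw [(hv_ti0.1 hX').2] at hcut2
  have hnd : ∀ w, X' w = true → psi (bar z) (stc A z) Y w = true → ∃ w', psi z A X' w' = true ∧
      Y w' = true ∧ q' w' = (if stc A z w && decide (w ≠ bar z) then q' (bar (bar z)) else q' w) := by
    intro w hXw hYw
    rw [hY1] at hYw
    rw [hq]
    by_cases hAw : A w = true
    · refine ⟨z, ?_, ?_, ?_⟩
      · unfold psi
        have := hXA w hAw
        rw [← this, hXw]
        simp
      · by_cases hwz : w = z
        · rw [hwz] at hYw
          simpa using hYw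
        · simpa [hAw, hwz] using hYw
      · by_cases hwz : w = z
        · rw [hwz]; simp
        · simp [hAw, hwz]
    · have hAw' : A w = false := by simpa using hAw
      refine ⟨w, ?_, ?_, ?_⟩
      · unfold psi
        rw [hAw', hXw]
        simp
      · rw [hAw'] at hYw
        simpa using hYw
      · rw [hAw']
        simp
  obtain ⟨u', hu1, hu2, hu3⟩ := hnd u (hXX' u hXu) hYu
  obtain ⟨v', hv1, hv2, hv3⟩ := hnd v (hXX' v hXv) hYv
  refine ⟨psi z A X', hv_ti0.2 ⟨⟨psi_Lt hA hX'.1.1, ⟨u', hu1⟩⟩, hcut2⟩, u', v', hu1, hu2, hv1, hv2, ?_⟩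
  rw [hu3, hv3]
  exact huv

theorem gd_light {n K : ℕ} {V : CC} (H : Hv n K V) (hG : GdC n V) {z : Fin 3 × Bool} {A : Ct}
    (hz : z.1 ≠ 2) (hA : Lt A) (hL : Lv V z A) : GdC n (act (wh z A) V) := by
  intro q' Y hT
  by_cases hn : ∃ x y, Y x = true ∧ Y y = true ∧ q' x ≠ q' y
  swap
  · left
    intro x y hx hy
    by_contra h
    exact hn ⟨x, y, hx, hy, h⟩
  right
  have H' : Hv n K (act (wh z A) V) := hv_lv H hL
  have hinv1 : Lv (act (wh z A) V) (bar z) (stc A z) := (Lv_inv hL).1
  have hpos : 0 < cnt (act (wh z A) V) 0 := by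
    rw [H'.c0]
    exact lt_of_lt_of_le (by norm_num) H'.h4
  have hTS : Ti n (act (wh z A) V) 0 (stc A z) := by
    refine hv_ti0.2 ⟨⟨RtG7_Lt hz hA, ⟨bar z, hinv1.1⟩⟩, ?_⟩
    rw [hinv1.2.2]
    exact RtG7_cnt H' hz
  by_cases hSn : ∃ u v, stc A z u = true ∧ Y u = true ∧ stc A z v = true ∧ Y v = true ∧ q' u ≠ q' v
  · obtain ⟨u, v, h⟩ := hSn
    exact ⟨stc A z, hTS, u, v, h⟩
  by_cases hm : ∃ x, stc A z x = true ∧ Y x = true
  · obtain ⟨x0, hx0S, hx0Y⟩ := hm
    have hqs : ∀ x, Y x = true → q' x = (if stc A z x = true then q' x0 else q' x) + 0 := by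
      intro x hx
      rw [add_zero]
      by_cases hS : stc A z x = true
      · rw [if_pos hS]
        by_contra h
        exact hSn ⟨x, x0, hS, hx, hx0S, hx0Y, h⟩
      · rw [if_neg hS]
    have hTY := hv_loc hpos (q' := fun x => if stc A z x = true then q' x0 else q' x) 0 hqs hT
    have hTS2 : Ti n (act (wh z A) V) (fun x => if stc A z x = true then q' x0 else q' x) (stc A z) := by
      refine hv_loc hpos (q := 0) (-(q' x0)) ?_ hTS
      intro x hx
      simp [hx]
    have hTU := (hv_sub H' hTS2 hTY ⟨x0, hx0S, hx0Y⟩).1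
    obtain ⟨X, hX, u, v, hXu, hYu, hXv, hYv, huv⟩ := RtG7_core H hG hz hA hL hTU
      (by
        intro x hx
        simp only [hx, hinv1.1, if_true])
      (by
        intro x hx
        simp only [hx, hinv1.1, Bool.true_or])
      (by
        obtain ⟨x, y, hx, hy, hxy⟩ := hn
        refine ⟨x, y, by simp [hx], by simp [hy], ?_⟩
        have e1 := hqs x hx
        have e2 := hqs y hy
        rw [add_zero] at e1 e2
        intro h
        exact hxy (e1.trans (h.trans e2.symm)))
    have hside : ∀ u v, X u = true → (stc A z u || Y u) = true → X v = true → (stc A z v || Y v) = true →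
        (if stc A z u = true then q' x0 else q' u) ≠ (if stc A z v = true then q' x0 else q' v) →
        stc A z u = true → ∃ X, Ti n (act (wh z A) V) 0 X ∧ ∃ u v, X u = true ∧ Y u = true ∧
          X v = true ∧ Y v = true ∧ q' u ≠ q' v := by
      intro u v hXu hYu hXv hYv huv hSu
      rw [if_pos hSu] at huv
      have hSv : ¬ stc A z v = true := by
        intro h
        rw [if_pos h] at huv
        exact huv rfl
      rw [if_neg hSv] at huv
      have hSv' : stc A z v = false := by simpa using hSv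
      rw [hSv'] at hYv
      refine ⟨fun x => X x || stc A z x, (hv_sub H' hX hTS ⟨u, hXu, hSu⟩).1, x0, v, ?_, hx0Y, ?_, ?_, huv⟩
      · simp [hx0S]
      · simp [hXv]
      · simpa using hYv
    by_cases hSu : stc A z u = true
    · exact hside u v hXu hYu hXv hYv huv hSu
    · by_cases hSv : stc A z v = true
      · exact hside v u hXv hYv hXu hYu huv.symm hSv
      · have hSu' : stc A z u = false := by simpa using hSu
        have hSv' : stc A z v = false := by simpa using hSv
        refine ⟨X, hX, u, v, hXu, ?_, hXv, ?_, ?_⟩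
        · simpa [hSu'] using hYu
        · simpa [hSv'] using hYv
        · simpa [hSu', hSv'] using huv
  · have hqs : ∀ x, Y x = true → q' x = (if stc A z x = true then 0 else q' x) + 0 := by
      intro x hx
      rw [add_zero, if_neg (fun h => hm ⟨x, h, hx⟩)]
    have hTY := hv_loc hpos (q' := fun x => if stc A z x = true then 0 else q' x) 0 hqs hT
    obtain ⟨X, hX, u, v, hXu, hYu, hXv, hYv, huv⟩ := RtG7_core H hG hz hA hL hTY
      (by
        intro x hx
        simp only [hx, hinv1.1, if_true])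
      (by
        intro x hx
        have h1 : Y x = false := by
          by_contra h
          exact hm ⟨x, hx, by simpa using h⟩
        have h2 : Y (bar z) = false := by
          by_contra h
          exact hm ⟨bar z, hinv1.1, by simpa using h⟩
        rw [h1, h2])
      (by
        obtain ⟨x, y, hx, hy, hxy⟩ := hn
        refine ⟨x, y, hx, hy, ?_⟩
        have e1 := hqs x hx
        have e2 := hqs y hy
        rw [add_zero] at e1 e2
        intro h
        exact hxy (e1.trans (h.trans e2.symm)))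
    refine ⟨X, hX, u, v, hXu, hYu, hXv, hYv, ?_⟩
    have e1 := hqs u hYu
    have e2 := hqs v hYv
    rw [add_zero] at e1 e2
    rw [e1, e2]
    exact huv

end Pool.Agent.Sims
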