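import Pool.Agent.Sims.EvAlg
import Pool.Agent.Sims.RtNB

/-!
# Module `RtId` : port of `EvId`
-/

namespace Pool.Agent.Sims

namespace Pw

open FreeGroup (of)

variable {P : Fin 3 → Prop}

theorem crs_disj {n : ℕ} {V : CC} (E : EqP n P V) {y z : Fin 3 × Bool} {A B : Ct} (hB : LP P V y B)
    (hyz : y.1 ≠ z.1) (hz : B z = false) (hz' : B (bar z) = false) (hA : LP P V z A)
    (hd : ∀ x, A x = true → B x = false) (h : VP n P (act (wh z A) V) (stc A z)) :
    CrP n P (act (wh y B) V) z := by
  have hzy : z.1 ≠ y.1 := fun e => hyz e.symm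
  have hd' : ∀ x, B x = true → A x = false := by
    intro x hx
    by_contra hc
    have hc' : A x = true := by simpa using hc
    rw [hd x hc'] at hx
    exact absurd hx (by decide)
  have E1 := E.lv hA
  have hB1 : LP P (act (wh z A) V) y B :=
    ⟨hB.1, hB.2.1, by
      rw [capC_wh_disj V z A B hA.1 hA.2.1 hz hz' hd, cnt_wh_ne V z A hyz]; exact hB.2.2⟩
  have hQ : NP n P (act (wh z A) V) (stc A z) := ((Lv_NC E1).1 (Lv_inv hA).1).2.2
  have hdQ : ∀ x, stc A z x = true → B x = false := by
    intro x hx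
    simp only [stc, Bool.or_eq_true, Bool.and_eq_true, decide_eq_true_eq] at hx
    rcases hx with hx | hx
    · exact hd x hx.1
    · rw [hx]; exact hz'
  have hne : ∃ x, stc A z x = false ∧ B x = false :=
    ⟨z, by simp [stc, (bar_ne z).symm], hz⟩
  have X := trX E1 hQ hB1 hdQ hne h
  have hyz2 : bar y ≠ bar z := by
    intro e
    exact hyz (by have := congrArg Prod.fst e; simpa [bar] using this)
  have hyz3 : bar y ≠ z := by
    intro e
    exact hyz (by have := congrArg Prod.fst e; simpa [bar] using this)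
  by_cases hc : A (bar y) = true
  · have e1 := act_wh_comm' y z hyz B A hB.1 hB.2.1 hA.1 hA.2.1 hd' hc hz' V
    refine ⟨fun x => A x || (B x && decide (x ≠ y)), ⟨?_, ?_, ?_, ?_⟩, ?_⟩
    · simp [hA.1]
    · simp [hA.2.1, hz']
    · rw [capC_wh_disj' V y B A hB.1 hB.2.1 (hd' y hB.1) hc hd', cnt_wh_ne V y B hzy]
      exact hA.2.2.1
    · intro i hi
      simp [(fun b => (P_ne (LP_fst hB) hi b).1), hA.2.2.2 i hi, hB.2.2.2 i hi]
    · rw [e1]
      refine (VX_congr ?_).1 X
      intro x
      simp only [tp, stc, hc]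
      by_cases hxz : x = z
      · subst hxz
        simp [hz, hyz3]
      · simp [hxz, hyz3]
        cases A x <;> cases B x <;> by_cases hxb : x = bar z <;> simp [hxb]
  · have hc' : A (bar y) = false := by simpa using hc
    have e1 := act_wh_comm z y hzy A B hA.1 hA.2.1 hB.1 hB.2.1 hd hz' hc' V
    refine ⟨A, ⟨hA.1, hA.2.1, ?_⟩, ?_⟩
    · rw [capC_wh_disj V y B A hB.1 hB.2.1 (hd' y hB.1) hc' hd', cnt_wh_ne V y B hzy]
      exact hA.2.2
    · rw [← e1]
      refine (VX_congr ?_).1 X
      intro x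
      simp [tp, stc, hc', hyz2]

end Pw

end Pool.Agent.Sims
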