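import Pool.Agent.Sims.RtP2
import Pool.Agent.Sims.RtP3
import Pool.Agent.Sims.RtDef2

/-!
# Module `RtP4` : number of the minimal potentials if `{c, c⁻¹}` is tight

`capC V (PrC 2) = n`: `LL` is visible (`capC_compl`: `PrC 2` is the complement of `LL`), `gl s LL = 0` trivially (all ends are light).  `win_rep` for `X = LL`: every class of `PSc K V` is `act (pot 2 (t₁ 1_{Y₁} + t₂ 1_{Y₂} + t₃ 1_{Y₃})) V` (`pot_const`,
`pot_congr`) with fixed `Y_i` and `n (t₁ + t₂ + t₃) ≤ 2 gx s p LL = 2 gf s p = 2 K`.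
Difficulty 2.
-/

namespace Pool.Agent.Sims

/-- triples with `n · sum ≤ 2 K` -/
def TD (n K : ℕ) : Finset (ℕ × ℕ × ℕ) :=
  ((Finset.range (K + 1)) ×ˢ (Finset.range (K + 1)) ×ˢ (Finset.range (K + 1))).filter
    (fun u => n * (u.1 + u.2.1 + u.2.2) ≤ 2 * K)

theorem ps_D {n K : ℕ} {V : CC} (H : Hv n K V) (hD : capC V (PrC 2) = n) :
    Cov (PSc K V) (TD n K).card := by
  classical
  obtain ⟨s, -, hs, hV⟩ := hv_gl H
  have hbar : ∀ x : Fin 3 × Bool, (bar x).1 = x.1 := fun _ => rfl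
  have hLL : gl s LL = 0 := by
    rw [gl_iff]
    intro e he
    obtain ⟨h1, h2⟩ := gf_light hs e he
    unfold LL
    rw [hbar, decide_eq_decide]
    exact ⟨fun _ => h2, fun _ => h1⟩
  have hT : Ti n V 0 LL := by
    rw [hv_ti0]
    refine ⟨⟨⟨rfl, rfl⟩, ⟨(0, true), rfl⟩⟩, ?_⟩
    rw [← hD, ← capC_compl V (PrC 2)]
    apply capC_congr
    intro x
    unfold LL PrC
    rw [decide_not]
  obtain ⟨Y1, Y2, Y3, -, -, -, hrep⟩ := win_rep H hs hV hLL hT
  refine ⟨(TD n K).image (fun u : ℕ × ℕ × ℕ =>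
    act (pot 2 (fun x => (u.1 : ℤ) * ind Y1 x + (u.2.1 : ℤ) * ind Y2 x + (u.2.2 : ℤ) * ind Y3 x)) V),
    Finset.card_image_le, ?_⟩
  rintro W ⟨p, rfl, hW⟩
  have hp : gf s p = K := by rw [← g_cnt hs hV p]; exact hW
  obtain ⟨t, t1, t2, t3, h1, h2, -⟩ := hrep p hp
  have hgx : gx s p LL = K := by
    rw [← hp]
    unfold gx gf
    have hl : ∀ a ∈ s, a.1.1 ≠ 2 := hs.1
    apply SylB_cyc_congr
    intro a ha r hr
    have e1 : LL a.1 = true := decide_eq_true (hl a ha)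
    have e2 : LL (bar r.1) = true := decide_eq_true (by rw [hbar]; exact hl r hr)
    rw [e1, e2]
    rfl
  rw [hgx] at h2
  refine Finset.mem_image.2 ⟨(t1, t2, t3), ?_, ?_⟩
  · have h4 := H.h4
    have h5 : 4 * (t1 + t2 + t3) ≤ 2 * K := (Nat.mul_le_mul_right _ h4).trans h2
    refine Finset.mem_filter.2 ⟨?_, h2⟩
    simp only [Finset.mem_product, Finset.mem_range]
    omega
  · show act (pot 2 (fun x => (t1 : ℤ) * ind Y1 x + (t2 : ℤ) * ind Y2 x + (t3 : ℤ) * ind Y3 x)) V =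
      act (pot 2 p) V
    symm
    refine pot_const t (fun x hx => ?_) V
    rw [h1 x (decide_eq_true hx)]
    ring

end Pool.Agent.Sims
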