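import Pool.Agent.Sims.RtC6
import Pool.Agent.Sims.RtC8
import Pool.Agent.Sims.RtG9
import Pool.Agent.Sims.RtP2
import Pool.Agent.Sims.RtP4
import Pool.Agent.Sims.RtN

/-!
# Module `RtNE` : conclusion if no reachable good chart has a rotation

* `ne_ep`: every `G ∈ ER n V` is in `EP P2 (· ≠ 2) V`: all steps are light moves: `LP P2 G z A` (`Lt A`: `P2`-fixed).
* `ne_step`: if `EP P2 (· ≠ 2) G ≠ {G}` (`∃ W ∈ EP P2 (· ≠ 2) G, W ≠ G`), `Hv n K G`, there is a light set `X`, tight (`capC G X = n`), with at least two elements and not containing `x, x⁻¹` both for some...: some step from `G` is nontrivial (otherwise by induction all classes of `EP` are `G`): `LP P2 G z A`, `act (wh z A) G ≠ G`, so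
  `Ntr A` (`Pw.Lv_ntr`).  If `c ∉ A` let `X = A`, else `X = Aᶜ` (then `c^{±1} ∉ X`): light, tight, nontrivial, and it does not contain all light letters (`z` or `z⁻¹` is missing): `2` or `3` elements.
* `ne_pair`: then there are light `x ≠ y` in `X` with `2 ≤ edgS G {x} {y}`: two elements `u, v`: `cap2`: `n + 2 e = 2 n`, `e = n/2 ≥ 2`; three elements: `cap3`: `n + 2 (e1 + e2 + e3) = 3 n`, `e1 + e2 + e3 = n ≥ 4`, one of them is `≥ 2`.
* `ne_bdd`: `cycLen V = 2 n + K ≥ 8 + K` (`cycLen_eq_sum`), `K > n ≥ 4`.  `d ∈ orb V`: `r2_cover`: `d = act σ.aut (act (pot 2 p) G)`, `G ∈ EP P2 (· ≠ 2) V`.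
  (A) `n < capC V (PrC 2)`.  (A1) `EP P2 (· ≠ 2) V = {V}`: `ps_rank`: `choose (K+3) 3 ≤ F3 (8 + K)` (`n_b0`).  (A2) otherwise for every `G ∈ EP` also `EP P2 (· ≠ 2) G ≠ {G}` (the sets are equal, `Pw.EM_eq`-type): `ne_step`, `ne_pair`, `ps_pair`: `Cov (PSc K G) (TB1 K).card`.  `nd_count` (`hv_eqp`): `CovF2 (EP) 12`, `covF2_sub`:
  `G = act τ.aut e`, `ps_SPerm`: `12 * (TB1 K).card ≤ F3 (8 + K)` (`n_b1`).  (B) `capC V (PrC 2) = n` (`≥ n`: `H.lo`): `dt_count`: `45`, for every `e ∈ EP`: `capC e (PrC 2) = n` (`capT`), `hv_ep`, `ps_D`: `45 * (TD n K).card ≤ F3 (8 + K)` (`n_d`).  `n_mono`.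
Difficulty 3.
-/

namespace Pool.Agent.Sims

private theorem RtNE_P2 (i : Fin 3) : P2 i ↔ i = 2 := Iff.rfl

theorem ne_ep {n : ℕ} {V G : CC} (hN : ∀ G ∈ ER n V, ∀ (U I : Ct) (κ : ℤ), ¬ RotW n G U I κ)
    (hG : G ∈ ER n V) : G ∈ EP P2 (fun i => i ≠ 2) V := by
  have h1 : Relation.ReflTransGen (StR n) V G := hG
  clear hG
  induction h1 with
  | refl => exact Pw.EM_refl _ _
  | @tail b c h2 h3 ih =>
    rcases h3 with ⟨z, A, hz, hL, hA, rfl⟩ | ⟨U, I, κ, hR, _⟩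
    · refine Pw.EM_step ih hz ⟨hA.1, hA.2.1, hA.2.2, ?_⟩
      intro i hi
      have hi2 : i = 2 := hi
      subst hi2
      rw [hL.1, hL.2]
    · exact absurd hR (hN b h2 U I κ)

theorem ne_step {n K : ℕ} {G : CC} (H : Hv n K G) (h : ∃ W ∈ EP P2 (fun i => i ≠ 2) G, W ≠ G) :
    ∃ X : Ct, Lt X ∧ capC G X = n ∧ (∃ x y, x ≠ y ∧ X x = true ∧ X y = true) ∧
      ∃ x : Fin 3 × Bool, x.1 ≠ 2 ∧ X x = false := by
  have hc : ∀ i : Fin 3, i ≠ 2 → cnt G i = n := by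
    intro i hi
    have : i = 0 ∨ i = 1 := by
      revert hi
      revert i
      decide
    rcases this with rfl | rfl
    · exact H.c0
    · exact H.c1
  obtain ⟨z, A, hz, hA, hne⟩ : ∃ (z : Fin 3 × Bool) (A : Ct), z.1 ≠ 2 ∧ LP P2 G z A ∧
      act (wh z A) G ≠ G := by
    by_contra hcon
    push Not at hcon
    obtain ⟨W, hW, hWG⟩ := h
    apply hWG
    have h1 : Relation.ReflTransGen (StP P2 (fun i => i ≠ 2)) G W := hW
    clear hW hWG
    induction h1 with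
    | refl => rfl
    | tail _ h3 ih =>
      obtain ⟨z, A, hz, hA, rfl⟩ := h3
      rw [ih] at hA ⊢
      exact hcon z A hz hA
  have hn : Ntr A := by
    by_contra hn
    exact hne (Pw.Lv_ntr hA hn)
  obtain ⟨a1, a2, a3, a4⟩ := hA
  rw [hc _ hz] at a3
  have a5 : A (2, true) = A (2, false) := a4 2 rfl
  obtain ⟨⟨x, y, n1, n2, n3⟩, x', y', m1, m2, m3⟩ := hn
  cases h2 : A (2, true)
  · refine ⟨A, ⟨h2, a5 ▸ h2⟩, a3, ⟨x, y, n1, n2, n3⟩, bar z, hz, a2⟩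
  · have h3 : A (2, false) = true := a5 ▸ h2
    refine ⟨fun x => !A x, ⟨?_, ?_⟩, ?_, ⟨x', y', m1, ?_, ?_⟩, z, hz, ?_⟩
    · simp [h2]
    · simp [h3]
    · rw [capC_compl]; exact a3
    · simp [m2]
    · simp [m3]
    · simp [a1]

private theorem RtNE_two {X : Ct} (hX : Lt X)
    (h2 : ∃ x y, x ≠ y ∧ X x = true ∧ X y = true) (h3 : ∃ x : Fin 3 × Bool, x.1 ≠ 2 ∧ X x = false) :
    (∃ u v : Fin 3 × Bool, u.1 ≠ 2 ∧ v.1 ≠ 2 ∧ u ≠ v ∧ ∀ x, X x = pr u v x) ∨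
    ∃ u v w : Fin 3 × Bool, u.1 ≠ 2 ∧ v.1 ≠ 2 ∧ w.1 ≠ 2 ∧ u ≠ v ∧ u ≠ w ∧ v ≠ w ∧
      ∀ x, X x = (pr u v x || sgl w x) := by
  obtain ⟨l1, l2⟩ := hX
  have key : ∀ a b c d : Bool, X (0, true) = a → X (0, false) = b → X (1, true) = c →
      X (1, false) = d →
      (∃ u v : Fin 3 × Bool, u.1 ≠ 2 ∧ v.1 ≠ 2 ∧ u ≠ v ∧ ∀ x, X x = pr u v x) ∨
      ∃ u v w : Fin 3 × Bool, u.1 ≠ 2 ∧ v.1 ≠ 2 ∧ w.1 ≠ 2 ∧ u ≠ v ∧ u ≠ w ∧ v ≠ w ∧
        ∀ x, X x = (pr u v x || sgl w x) := by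
    intro a b c d ha hb hc hd
    have hx : ∀ x : Fin 3 × Bool, X x = (if x = (0, true) then a else if x = (0, false) then b else
        if x = (1, true) then c else if x = (1, false) then d else false) := by
      rintro ⟨i, t⟩
      fin_cases i <;> cases t <;> simp [ha, hb, hc, hd, l1, l2]
    have hY : X = fun x : Fin 3 × Bool => (if x = (0, true) then a else if x = (0, false) then b else
        if x = (1, true) then c else if x = (1, false) then d else false) := funext hx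
    subst hY
    clear ha hb hc hd l1 l2 hx
    revert h2 h3
    revert a b c d
    decide
  exact key _ _ _ _ rfl rfl rfl rfl

theorem ne_pair {n K : ℕ} {G : CC} (H : Hv n K G) {X : Ct} (hX : Lt X) (hT : capC G X = n)
    (h2 : ∃ x y, x ≠ y ∧ X x = true ∧ X y = true) (h3 : ∃ x : Fin 3 × Bool, x.1 ≠ 2 ∧ X x = false) :
    ∃ x y : Fin 3 × Bool, x.1 ≠ 2 ∧ y.1 ≠ 2 ∧ x ≠ y ∧ 2 ≤ edgS G (sgl x) (sgl y) := by
  have hc : ∀ i : Fin 3, i ≠ 2 → cnt G i = n := by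
    intro i hi
    have : i = 0 ∨ i = 1 := by
      revert hi
      revert i
      decide
    rcases this with rfl | rfl
    · exact H.c0
    · exact H.c1
  have h4 := H.h4
  rcases RtNE_two hX h2 h3 with ⟨u, v, hu, hv, huv, he⟩ | ⟨u, v, w, hu, hv, hw, huv, huw, hvw, he⟩
  · have e1 := cap2 (V := G) (hc _ hu) (hc _ hv) huv
    rw [← capC_congr G he, hT] at e1
    exact ⟨u, v, hu, hv, huv, by omega⟩
  · have e1 := cap3 (V := G) (hc _ hu) (hc _ hv) (hc _ hw) huv huw hvw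
    rw [← capC_congr G he, hT] at e1
    by_cases b1 : 2 ≤ edgS G (sgl u) (sgl v)
    · exact ⟨u, v, hu, hv, huv, b1⟩
    · by_cases b2 : 2 ≤ edgS G (sgl u) (sgl w)
      · exact ⟨u, w, hu, hw, huw, b2⟩
      · exact ⟨v, w, hv, hw, hvw, by omega⟩

private theorem RtNE_bd {n K N1 N2 : ℕ} {V : CC} (H : Hv n K V) (hG : GdC n V)
    (hN : ∀ G ∈ ER n V, ∀ (U I : Ct) (κ : ℤ), ¬ RotW n G U I κ)
    (h1 : CovF2 (EP P2 (fun i => i ≠ 2) V) N1)
    (h2 : ∀ G ∈ EP P2 (fun i => i ≠ 2) V, Cov (PSc K G) N2) : Bdd V (N1 * N2) := by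
  classical
  obtain ⟨F, hF, hFS, hFc⟩ := covF2_sub h1
  choose Q hQ hQc using h2
  refine ⟨F.attach.biUnion (fun e => Q e.1 (hFS e.1 e.2)), ?_, ?_⟩
  · refine Finset.card_biUnion_le.trans ?_
    refine (Finset.sum_le_card_nsmul _ _ N2 (fun e _ => hQ e.1 (hFS e.1 e.2))).trans ?_
    rw [Finset.card_attach, smul_eq_mul]
    exact Nat.mul_le_mul_right _ hF
  · intro d hd
    obtain ⟨σ, G, p, hG1, hG2, hd'⟩ := r2_cover H hG hd
    obtain ⟨τ, hτ, e, he, hGe⟩ := hFc G (ne_ep hN hG1)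
    have h3 : act (pot 2 p) G ∈ PSc K (act τ.aut e) := by
      refine ⟨p, ?_, hG2⟩
      rw [hGe]
    obtain ⟨W', hW', hW2⟩ := ps_SPerm hτ h3
    refine ⟨Conn_comp σ τ, W', ?_, ?_⟩
    · exact Finset.mem_biUnion.2 ⟨⟨e, he⟩, Finset.mem_attach _ _, hQc e (hFS e he) W' hW'⟩
    · rw [hd', hW2, Conn_act_comp]

theorem ne_bdd {n K : ℕ} {V : CC} (H : Hv n K V) (hG : GdC n V)
    (hN : ∀ G ∈ ER n V, ∀ (U I : Ct) (κ : ℤ), ¬ RotW n G U I κ) : Bdd V (F3 (cycLen V)) := by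
  have hlen : cycLen V = 2 * n + K := by
    rw [cycLen_eq_sum, Fin.sum_univ_three, H.c0, H.c1, H.c2]
    ring
  have h4 := H.h4
  have hK := H.hK
  have hmono : F3 (8 + K) ≤ F3 (cycLen V) := by
    rw [hlen]
    exact n_mono (by omega) (by omega)
  have E := hv_eqp H
  have hprp : n ≤ capC V (PrC 2) := by
    refine H.lo V (orb_refl V) _ ⟨⟨(2, true), by decide⟩, (0, true), by decide⟩
  rcases Nat.lt_or_ge n (capC V (PrC 2)) with hD | hD
  · by_cases h1 : ∃ W ∈ EP P2 (fun i => i ≠ 2) V, W ≠ V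
    · refine Bdd_mono (RtNE_bd H hG hN (N2 := (TB1 K).card) (Pw.nd_count E hD) ?_)
        ((n_b1 (by omega)).trans hmono)
      intro G hG'
      have H' := hv_ep H hG'
      have h2 : ∃ W ∈ EP P2 (fun i => i ≠ 2) G, W ≠ G := by
        obtain ⟨W, hW, hWV⟩ := h1
        rw [Pw.EM_eq hG']
        by_cases hGV : V = G
        · exact ⟨W, hW, fun h => hWV (h.trans hGV.symm)⟩
        · exact ⟨V, Pw.EM_refl _ _, hGV⟩
      obtain ⟨X, x1, x2, x3, x4⟩ := ne_step H' h2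
      obtain ⟨x, y, y1, y2, y3, y4⟩ := ne_pair H' x1 x2 x3 x4
      exact ps_pair H' y1 y2 y3 y4
    · push Not at h1
      have h2 : CovF2 (EP P2 (fun i => i ≠ 2) V) 1 := by
        apply covF2_of_cov
        exact ⟨{V}, by simp, fun W hW => by rw [h1 W hW]; exact Finset.mem_singleton_self V⟩
      refine Bdd_mono (RtNE_bd H hG hN (N2 := Nat.choose (K + 3) 3) h2 ?_) ?_
      · intro G hG'
        exact ps_rank (hv_ep H hG')
      · rw [one_mul]
        exact (n_b0 (by omega)).trans hmono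
  · have hD' : capC V (PrC 2) = n := le_antisymm hD hprp
    refine Bdd_mono (RtNE_bd H hG hN (N2 := (TD n K).card)
      (Pw.dt_count E (by rw [H.c2]; omega) hD') ?_) ((n_d h4 (by omega)).trans hmono)
    intro G hG'
    refine ps_D (hv_ep H hG') ?_
    rw [capT hG', hD']

end Pool.Agent.Sims
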