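import Pool.Agent.Sims.RtG2
import Pool.Agent.Sims.EvPatE

/-!
# Module `RtP0` : sign constancy

`gk p e` : the gain of the edge `e` (a cyclic pair of the syllable list, `EvPatE_pr s`) at the potential `p`.
* `gf_sum`: `EvPatE_cyc`.
* `shift_gk`: the exponents of `shift p s` are the `gk p e`; prove it with `SylB_shiftLin`/the recursion of `shiftLin` and `EvPatE_pr`/`EvPatE_zip` (induction over the list as in `EvPatE_lin`), or through
  `SylA_shiftLin_fst` and the list of the second components.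
* `p_sign`: `K ≤ gf s q` for all `q`, `gf s p = gf s p' = K`.  Let `m₁ x = (p x + p' x + 1) / 2`, `m₂ x = (p x + p' x) / 2` (integer division, rounding down): `m₁ + m₂ = p + p'`, `m₁ x - m₂ x ∈ {0, 1}`.  For an edge `e`:
  `gk m₁ e + gk m₂ e = gk p e + gk p' e`, `|gk m₁ e - gk m₂ e| ≤ 1`, hence `|gk m₁ e| + |gk m₂ e| = |gk p e + gk p' e| ≤ |gk p e| + |gk p' e|` (two integers with distance `≤ 1` are not of strictly opposite signs), with strict inequality if
  `gk p e * gk p' e < 0`.  Summing over all edges: `2 K ≤ gf s m₁ + gf s m₂ ≤ 2 K`, so no edge has `gk p e * gk p' e < 0`.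
* `gk_eq`: `|gk p e| = |gk p' e|` and `0 ≤ gk p e * gk p' e` imply `gk p e = gk p' e`.
Difficulty 3.
-/

namespace Pool.Agent.Sims

/-- edges: cyclic pairs of syllables -/
abbrev Edg := ((Fin 3 × Bool) × ℤ) × ((Fin 3 × Bool) × ℤ)

/-- gain of `e` at `p` -/
def gk (p : Fin 3 × Bool → ℤ) (e : Edg) : ℤ := e.1.2 + p e.1.1 - p (bar e.2.1)

theorem gf_sum (s : List ((Fin 3 × Bool) × ℤ)) (p : Fin 3 × Bool → ℤ) :
    gf s p = ((EvPatE_pr s).map (fun e => (gk p e).natAbs)).sum := by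
  unfold gf
  rw [EvPatE_cyc]
  rfl

theorem gf_light {s : List ((Fin 3 × Bool) × ℤ)} (hs : SValid 2 s) :
    ∀ e ∈ EvPatE_pr s, e.1.1.1 ≠ 2 ∧ e.2.1.1 ≠ 2 := by
  intro e he
  have h1 : (e.1, e.2) ∈ List.zip s (s.rotate 1) := he
  obtain ⟨h2, h3⟩ := List.of_mem_zip h1
  rw [List.mem_rotate] at h3
  exact ⟨hs.1 _ h2, hs.1 _ h3⟩

theorem gl_iff {s : List ((Fin 3 × Bool) × ℤ)} {X : Ct} :
    gl s X = 0 ↔ ∀ e ∈ EvPatE_pr s, X e.1.1 = X (bar e.2.1) := by
  unfold gl
  rw [EvPatE_cyc, List.sum_eq_zero_iff]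
  constructor
  · intro h e he
    have h1 := h _ (List.mem_map_of_mem he)
    by_contra hne
    rw [if_neg hne] at h1
    exact absurd h1 one_ne_zero
  · intro h x hx
    rw [List.mem_map] at hx
    obtain ⟨e, he, rfl⟩ := hx
    rw [if_pos (h e he)]

theorem RtP0_lin (p : Fin 3 × Bool → ℤ) (w : (Fin 3 × Bool) × ℤ) :
    ∀ (t : List ((Fin 3 × Bool) × ℤ)) (q : (Fin 3 × Bool) × ℤ),
    shiftLin p (q :: t) w.1 = (List.zip (q :: t) (t ++ [w])).map (fun e => (e.1.1, gk p e))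
  | [], q => rfl
  | r :: t, q => by
    have ih := RtP0_lin p w t r
    rw [shiftLin, ih]
    rfl

theorem RtP0_shift (p : Fin 3 × Bool → ℤ) (s : List ((Fin 3 × Bool) × ℤ)) :
    shift p s = (EvPatE_pr s).map (fun e => (e.1.1, gk p e)) := by
  cases s with
  | nil => rfl
  | cons q t =>
    rw [shift, RtP0_lin p q t q, EvPatE_pr, List.rotate_cons_succ, List.rotate_zero]

theorem shift_gk {s : List ((Fin 3 × Bool) × ℤ)} {p p' : Fin 3 × Bool → ℤ}
    (h : ∀ e ∈ EvPatE_pr s, gk p e = gk p' e) : shift p s = shift p' s := by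
  rw [RtP0_shift, RtP0_shift]
  refine List.map_congr_left fun e he => ?_
  rw [h e he]

theorem p_sign {s : List ((Fin 3 × Bool) × ℤ)} {K : ℕ} (hm : ∀ q, K ≤ gf s q)
    {p p' : Fin 3 × Bool → ℤ} (hp : gf s p = K) (hp' : gf s p' = K) :
    ∀ e ∈ EvPatE_pr s, 0 ≤ gk p e * gk p' e := by
  let m1 : Fin 3 × Bool → ℤ := fun x => (p x + p' x + 1) / 2
  let m2 : Fin 3 × Bool → ℤ := fun x => (p x + p' x) / 2
  have hm1 : ∀ x, m1 x + m2 x = p x + p' x := by
    intro x
    change (p x + p' x + 1) / 2 + (p x + p' x) / 2 = p x + p' x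
    omega
  have hm2 : ∀ x, m1 x - m2 x = 0 ∨ m1 x - m2 x = 1 := by
    intro x
    change (p x + p' x + 1) / 2 - (p x + p' x) / 2 = 0 ∨ (p x + p' x + 1) / 2 - (p x + p' x) / 2 = 1
    omega
  have hsum : ∀ e : Edg, gk m1 e + gk m2 e = gk p e + gk p' e := by
    intro e
    unfold gk
    have h1 := hm1 e.1.1
    have h2 := hm1 (bar e.2.1)
    omega
  have hdif : ∀ e : Edg, -1 ≤ gk m1 e - gk m2 e ∧ gk m1 e - gk m2 e ≤ 1 := by
    intro e
    unfold gk
    have h1 := hm2 e.1.1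
    have h2 := hm2 (bar e.2.1)
    omega
  have hle : ∀ e : Edg, (gk m1 e).natAbs + (gk m2 e).natAbs ≤ (gk p e).natAbs + (gk p' e).natAbs := by
    intro e
    have h1 := hsum e
    have h2 := hdif e
    omega
  by_contra hcon
  push Not at hcon
  obtain ⟨e, he, hneg⟩ := hcon
  have hlt : (gk m1 e).natAbs + (gk m2 e).natAbs < (gk p e).natAbs + (gk p' e).natAbs := by
    have h1 := hsum e
    have h2 := hdif e
    rcases mul_neg_iff.1 hneg with ⟨h3, h4⟩ | ⟨h3, h4⟩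
    · omega
    · omega
  have h5 := List.sum_lt_sum (l := EvPatE_pr s) (fun e => (gk m1 e).natAbs + (gk m2 e).natAbs)
    (fun e => (gk p e).natAbs + (gk p' e).natAbs) (fun e _ => hle e) ⟨e, he, hlt⟩
  rw [List.sum_map_add, List.sum_map_add, ← gf_sum, ← gf_sum, ← gf_sum, ← gf_sum, hp, hp'] at h5
  have h6 := hm m1
  have h7 := hm m2
  omega

theorem gk_eq {p p' : Fin 3 × Bool → ℤ} {e : Edg} (h : 0 ≤ gk p e * gk p' e)
    (h' : (gk p e).natAbs = (gk p' e).natAbs) : gk p e = gk p' e := by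
  rcases Int.natAbs_eq_natAbs_iff.1 h' with h1 | h1
  · exact h1
  · rw [h1] at h ⊢
    have h2 : gk p' e = 0 := by nlinarith [mul_self_nonneg (gk p' e)]
    rw [h2, neg_zero]

end Pool.Agent.Sims
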