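import Pool.Agent.Sims.RtP0

/-!
# Module `RtP1` : a basis of the gains

`L` a list of edges with light ends.  For an edge `e` with the ends `x = e.1.1`, `y = bar e.2.1` the difference `gk p e - gk p' e` is `d x - d y`, `d = p - p'`, a linear functional `δ_e` of `d` which depends only on the values of `d` at the
four light letters and vanishes on constants: it lies in a `3`-dimensional space.
* `bas3`: among the sublists `l` of `L` with the property that `gk p e = gk p' e` for all `e ∈ l` implies it for all `e ∈ L` (`L` itself has this property) take one of minimal length.  If `l` has length `≥ 4`, the functionals `δ_e`, `e ∈ l`,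
  (vectors in `ℚ³` after normalising, e.g. the coordinates `d ↦ d(x_i) - d(x_4)`) are linearly dependent, so one of them is a rational combination of the other ones, and `e` can be deleted: contradiction.
* `bas2`: `X` a set such that every edge has both ends in `X` or both outside, with light letters inside and outside of `X`: the functionals vanish also on `1_X`: they lie in a `2`-dimensional space.
* `bas3p`: `e₀`, `e₀'` two different members (positions) of `L` with the same pair of different ends (`gk p e₀ = gk p' e₀` implies `gk p e₀' = gk p' e₀'`).  Take `l` minimal among the lists `l` such that `e₀ :: e₀' :: l` is (up to order)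
  contained in `L` and `gk p e = gk p' e` for all `e ∈ e₀ :: l` implies it for all `e ∈ L`.  `δ_{e₀} ≠ 0`.  If `l` has length `≥ 3` then `δ_{e₀}` and the `δ_e`, `e ∈ l`, are dependent, and some `δ_e`, `e ∈ l`, is a combination of the other
  ones and `δ_{e₀}` (a relation with all coefficients of `l` equal to `0` would give `δ_{e₀} = 0`).
(One may also avoid linear algebra: a graph on four vertices; a spanning forest of the graph with edge set `L` has at most `3` edges; every edge of `L` is a signed sum along a path of the forest.)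
Difficulty 4.
-/

namespace Pool.Agent.Sims

/-- the coordinates of a letter in `ℚ³` (the light letters other than the last one are the unit
vectors) -/
def RtP1_c (x : Fin 3 × Bool) : Fin 3 → ℚ :=
  ![if x = (0, true) then 1 else 0, if x = (0, false) then 1 else 0,
    if x = (1, true) then 1 else 0]

/-- the vector of an edge -/
def RtP1_f (e : Edg) : Fin 3 → ℚ := RtP1_c e.1.1 - RtP1_c (bar e.2.1)

/-- the functional of a potential difference -/
def RtP1_phi (d : Fin 3 × Bool → ℚ) : (Fin 3 → ℚ) →ₗ[ℚ] ℚ where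
  toFun v := v 0 * (d (0, true) - d (1, false)) + v 1 * (d (0, false) - d (1, false)) +
    v 2 * (d (1, true) - d (1, false))
  map_add' := by intro v w; simp only [Pi.add_apply]; ring
  map_smul' := by intro c v; simp only [Pi.smul_apply, smul_eq_mul, RingHom.id_apply]; ring

theorem RtP1_phi_c (d : Fin 3 × Bool → ℚ) {x : Fin 3 × Bool} (hx : x.1 ≠ 2) :
    RtP1_phi d (RtP1_c x) = d x - d (1, false) := by
  obtain ⟨i, b⟩ := x
  fin_cases i
  · cases b <;> simp [RtP1_phi, RtP1_c]
  · cases b <;> simp [RtP1_phi, RtP1_c]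
  · exact absurd rfl hx

theorem RtP1_phi_f (d : Fin 3 × Bool → ℚ) {e : Edg} (h1 : e.1.1.1 ≠ 2) (h2 : e.2.1.1 ≠ 2) :
    RtP1_phi d (RtP1_f e) = d e.1.1 - d (bar e.2.1) := by
  have h3 : (bar e.2.1).1 ≠ 2 := h2
  rw [RtP1_f, map_sub, RtP1_phi_c d h1, RtP1_phi_c d h3]
  ring

/-- `gk p e = gk p' e` in terms of `phi` -/
theorem RtP1_gk {p p' : Fin 3 × Bool → ℤ} {e : Edg} (h1 : e.1.1.1 ≠ 2) (h2 : e.2.1.1 ≠ 2) :
    gk p e = gk p' e ↔ RtP1_phi (fun x => (p x : ℚ) - p' x) (RtP1_f e) = 0 := by
  rw [RtP1_phi_f _ h1 h2]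
  unfold gk
  constructor
  · intro h
    have h4 : (p e.1.1 - p (bar e.2.1) : ℤ) = p' e.1.1 - p' (bar e.2.1) := by linarith
    have h5 : (p e.1.1 : ℚ) - p (bar e.2.1) = p' e.1.1 - p' (bar e.2.1) := by exact_mod_cast h4
    linarith
  · intro h
    have h5 : (p e.1.1 : ℚ) - p (bar e.2.1) = p' e.1.1 - p' (bar e.2.1) := by linarith
    have h4 : (p e.1.1 - p (bar e.2.1) : ℤ) = p' e.1.1 - p' (bar e.2.1) := by exact_mod_cast h5
    linarith

theorem RtP1_cons (e : Edg) (l : List Edg) :
    (fun i : Fin (e :: l).length => RtP1_f ((e :: l).get i)) =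
      (Fin.cons (RtP1_f e) (fun i : Fin l.length => RtP1_f (l.get i)) :
        Fin (l.length + 1) → (Fin 3 → ℚ)) := by
  funext i
  refine Fin.cases rfl (fun i => rfl) i

theorem RtP1_nil : LinearIndependent ℚ
    (fun i : Fin ([] : List Edg).length => RtP1_f (([] : List Edg).get i)) := by
  haveI : IsEmpty (Fin ([] : List Edg).length) := by
    rw [List.length_nil]; infer_instance
  exact linearIndependent_empty_type

/-- extension of an independent list -/
theorem RtP1_ext (b : List Edg)
    (hb : LinearIndependent ℚ (fun i : Fin b.length => RtP1_f (b.get i))) :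
    ∀ L : List Edg, ∃ l : List Edg, l.Sublist L ∧
      LinearIndependent ℚ (fun i : Fin (l ++ b).length => RtP1_f ((l ++ b).get i)) ∧
      ∀ e ∈ L, RtP1_f e ∈
        Submodule.span ℚ (Set.range (fun i : Fin (l ++ b).length => RtP1_f ((l ++ b).get i))) := by
  intro L
  induction L with
  | nil => exact ⟨[], List.Sublist.refl _, hb, by simp⟩
  | cons a L ih =>
    obtain ⟨l, h1, h2, h3⟩ := ih
    by_cases h : RtP1_f a ∈
        Submodule.span ℚ (Set.range (fun i : Fin (l ++ b).length => RtP1_f ((l ++ b).get i)))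
    · refine ⟨l, h1.cons a, h2, ?_⟩
      intro e he
      rcases List.mem_cons.1 he with rfl | he
      · exact h
      · exact h3 e he
    · refine ⟨a :: l, h1.cons_cons a, ?_, ?_⟩
      · have h4 := RtP1_cons a (l ++ b)
        have h5 : LinearIndependent ℚ
            (Fin.cons (RtP1_f a) (fun i : Fin (l ++ b).length => RtP1_f ((l ++ b).get i)) :
              Fin ((l ++ b).length + 1) → (Fin 3 → ℚ)) :=
          linearIndependent_finCons.2 ⟨h2, h⟩
        rw [← h4] at h5
        exact h5
      · have h6 : Submodule.span ℚ (Set.range (fun i : Fin (l ++ b).length =>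
            RtP1_f ((l ++ b).get i))) ≤ Submodule.span ℚ (Set.range
              (fun i : Fin (a :: l ++ b).length => RtP1_f ((a :: l ++ b).get i))) := by
          apply Submodule.span_mono
          rintro _ ⟨i, rfl⟩
          exact ⟨i.succ, rfl⟩
        intro e he
        rcases List.mem_cons.1 he with rfl | he
        · exact Submodule.subset_span ⟨⟨0, by simp⟩, rfl⟩
        · exact h6 (h3 e he)

/-- transfer of the vanishing -/
theorem RtP1_tr {l : List Edg} {e : Edg} (hl : ∀ e ∈ l, e.1.1.1 ≠ 2 ∧ e.2.1.1 ≠ 2)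
    (he : e.1.1.1 ≠ 2 ∧ e.2.1.1 ≠ 2)
    (h : RtP1_f e ∈ Submodule.span ℚ (Set.range (fun i : Fin l.length => RtP1_f (l.get i))))
    {p p' : Fin 3 × Bool → ℤ} (hp : ∀ e ∈ l, gk p e = gk p' e) : gk p e = gk p' e := by
  rw [RtP1_gk he.1 he.2]
  have h1 : Submodule.span ℚ (Set.range (fun i : Fin l.length => RtP1_f (l.get i))) ≤
      LinearMap.ker (RtP1_phi (fun x => (p x : ℚ) - p' x)) := by
    rw [Submodule.span_le]
    rintro _ ⟨i, rfl⟩
    have h2 : l.get i ∈ l := List.get_mem l i
    exact (RtP1_gk (hl _ h2).1 (hl _ h2).2).1 (hp _ h2)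
  exact h1 h

theorem RtP1_len {l : List Edg}
    (h : LinearIndependent ℚ (fun i : Fin l.length => RtP1_f (l.get i))) : l.length ≤ 3 := by
  have h1 := h.fintype_card_le_finrank
  simpa using h1

theorem bas3 (L : List Edg) (hL : ∀ e ∈ L, e.1.1.1 ≠ 2 ∧ e.2.1.1 ≠ 2) :
    ∃ l : List Edg, l.Sublist L ∧ l.length ≤ 3 ∧ ∀ p p' : Fin 3 × Bool → ℤ,
      (∀ e ∈ l, gk p e = gk p' e) → ∀ e ∈ L, gk p e = gk p' e := by
  obtain ⟨l, h1, h2, h3⟩ := RtP1_ext [] RtP1_nil L
  rw [List.append_nil] at h2 h3
  refine ⟨l, h1, RtP1_len h2, ?_⟩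
  intro p p' hp e he
  exact RtP1_tr (fun e he => hL e (h1.subset he)) (hL e he) (h3 e he) hp

theorem bas2 (L : List Edg) (hL : ∀ e ∈ L, e.1.1.1 ≠ 2 ∧ e.2.1.1 ≠ 2) {X : Ct}
    (hX : ∀ e ∈ L, X e.1.1 = X (bar e.2.1)) (h1 : ∃ x : Fin 3 × Bool, x.1 ≠ 2 ∧ X x = true)
    (h2 : ∃ x : Fin 3 × Bool, x.1 ≠ 2 ∧ X x = false) :
    ∃ l : List Edg, l.Sublist L ∧ l.length ≤ 2 ∧ ∀ p p' : Fin 3 × Bool → ℤ,
      (∀ e ∈ l, gk p e = gk p' e) → ∀ e ∈ L, gk p e = gk p' e := by
  obtain ⟨l, g1, g2, g3⟩ := RtP1_ext [] RtP1_nil L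
  rw [List.append_nil] at g2 g3
  refine ⟨l, g1, ?_, ?_⟩
  · set φ := RtP1_phi (fun x => if X x = true then (1 : ℚ) else 0) with hφ
    have h4 : Submodule.span ℚ (Set.range (fun i : Fin l.length => RtP1_f (l.get i))) ≤
        LinearMap.ker φ := by
      rw [Submodule.span_le]
      rintro _ ⟨i, rfl⟩
      have h5 : l.get i ∈ L := g1.subset (List.get_mem l i)
      show φ (RtP1_f (l.get i)) = 0
      rw [hφ, RtP1_phi_f _ (hL _ h5).1 (hL _ h5).2, hX _ h5, sub_self]
    have h6 : LinearMap.ker φ < ⊤ := by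
      rw [lt_top_iff_ne_top]
      intro h7
      obtain ⟨x, hx, hx1⟩ := h1
      obtain ⟨y, hy, hy1⟩ := h2
      have h8 : φ (RtP1_c x - RtP1_c y) = 0 := by
        have : RtP1_c x - RtP1_c y ∈ LinearMap.ker φ := by rw [h7]; trivial
        exact this
      rw [map_sub, hφ, RtP1_phi_c _ hx, RtP1_phi_c _ hy, hx1, hy1] at h8
      norm_num at h8
    have h9 := Submodule.finrank_lt h6.ne
    have h10 := Submodule.finrank_mono h4
    have h11 := finrank_span_eq_card g2
    rw [h11] at h10
    simp only [Module.finrank_fintype_fun_eq_card, Fintype.card_fin] at h9 h10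
    omega
  · intro p p' hp e he
    exact RtP1_tr (fun e he => hL e (g1.subset he)) (hL e he) (g3 e he) hp

theorem RtP1_ne {e : Edg} (h1 : e.1.1.1 ≠ 2) (h2 : e.2.1.1 ≠ 2) (hd : e.1.1 ≠ bar e.2.1) :
    RtP1_f e ≠ 0 := by
  intro h
  have h3 := RtP1_phi_f (fun x => if x = e.1.1 then (1 : ℚ) else 0) h1 h2
  rw [h, map_zero] at h3
  simp only [if_true, if_neg (Ne.symm hd)] at h3
  norm_num at h3

theorem bas3p (L : List Edg) (hL : ∀ e ∈ L, e.1.1.1 ≠ 2 ∧ e.2.1.1 ≠ 2) {e0 e0' : Edg}
    (h : List.Subperm [e0, e0'] L) (hd : e0.1.1 ≠ bar e0.2.1)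
    (hp : ∀ p p' : Fin 3 × Bool → ℤ, gk p e0 = gk p' e0 → gk p e0' = gk p' e0') :
    ∃ l : List Edg, List.Subperm (e0 :: e0' :: l) L ∧ l.length ≤ 2 ∧
      ∀ p p' : Fin 3 × Bool → ℤ, (∀ e ∈ e0 :: l, gk p e = gk p' e) →
        ∀ e ∈ L, gk p e = gk p' e := by
  obtain ⟨L', hL'⟩ : ∃ L', List.Perm L (e0 :: e0' :: L') := by
    obtain ⟨l', h1, h2⟩ := h
    obtain ⟨m, hm⟩ := h2.exists_perm_append
    exact ⟨m, hm.trans (h1.append_right m)⟩
  have he0 : e0 ∈ L := h.subset (by simp)
  have hn := RtP1_ne (hL _ he0).1 (hL _ he0).2 hd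
  have hb : LinearIndependent ℚ (fun i : Fin [e0].length => RtP1_f ([e0].get i)) := by
    have h1 : LinearIndependent ℚ
        (Fin.cons (RtP1_f e0) (fun i : Fin ([] : List Edg).length => RtP1_f (([] : List Edg).get i)) :
          Fin (([] : List Edg).length + 1) → (Fin 3 → ℚ)) := by
      refine linearIndependent_finCons.2 ⟨RtP1_nil, ?_⟩
      intro h2
      have h3 : Set.range (fun i : Fin ([] : List Edg).length => RtP1_f (([] : List Edg).get i)) =
          ∅ := by
        ext v
        simp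
      rw [h3, Submodule.span_empty, Submodule.mem_bot] at h2
      exact hn h2
    rw [← RtP1_cons] at h1
    exact h1
  obtain ⟨l, g1, g2, g3⟩ := RtP1_ext [e0] hb L'
  refine ⟨l, ?_, ?_, ?_⟩
  · have h4 : (e0 :: e0' :: l).Sublist (e0 :: e0' :: L') := (g1.cons_cons e0').cons_cons e0
    exact h4.subperm.trans hL'.symm.subperm
  · have h5 := RtP1_len g2
    rw [List.length_append, List.length_singleton] at h5
    omega
  · intro p p' hq e he
    have h6 := (hL'.mem_iff).1 he
    have hsub : ∀ e ∈ l ++ [e0], e ∈ e0 :: l := by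
      intro e he
      simp only [List.mem_append, List.mem_singleton, List.mem_cons] at he ⊢
      tauto
    rcases List.mem_cons.1 h6 with rfl | h6
    · exact hq _ (by simp)
    rcases List.mem_cons.1 h6 with rfl | h6
    · exact hp p p' (hq _ (by simp))
    · refine RtP1_tr ?_ (hL e he) (g3 e h6) (fun e he => hq e (hsub e he))
      intro e he
      have h7 := hsub e he
      rcases List.mem_cons.1 h7 with rfl | h7
      · exact hL _ he0
      · exact hL _ (hL'.mem_iff.2 (by
          simp only [List.mem_cons]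
          exact Or.inr (Or.inr (g1.subset h7))))

end Pool.Agent.Sims
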