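import Pool.Agent.Sims.RtB2
import Pool.Agent.Sims.RtB4
import Pool.Agent.Sims.EvEM
import Pool.Agent.Sims.EvBas

/-!
# Module `RtPN` : the world without fixed letters

`PN` : no letter is fixed.  `Qc` : only `c = (2,·)` is a square letter.
* `pn_np`, `pn_lp`, `pn_vp`, `pn_crp`, `pn_ep`: unfold (`PF PN A` is trivially true); for `pn_ep`: `StP PN M = StM M` (`funext`, `propext`).
* `pn_eq3`: `EqP n PN V` implies `Eq3 n V`.  `c`: clear.  `hO`: `OMin_of_WMin`: for `A z = true`, `A (bar z) = false`: `cycLen_wh` (length changes by `capC V A - cnt V z.1`) and `E.low` (`A` is proper).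
  `lo`: let `W ∈ orb V`.  `orb_em hO`: `W = act σ.aut e`, `e ∈ EM (fun _ => True) V`; `EqP n PN e` by induction (`EqP.lv`, `pn_lp`), `Pw.Eq3_SPerm` (`σ`): `E'.low` for `W`.
* `pn_pos`: `bq_pos`.
* `pn_sq`: for `BQ n PN Q Ω` and `Ω' ∈ SQ PN Q M Ω`: `BQ n PN Q Ω'` and `sq Q Ω' ∈ EM M (sq Q Ω)` (`sq_bq`, `pn_ep`).
* `pn_pr`: persistence of the crossing of `PrC j`, `Q j` (`sq_pr`, `pn_vp`).
Difficulty 2.
-/

namespace Pool.Agent.Sims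

/-- no fixed letter -/
def PN : Fin 3 → Prop := fun _ => False

/-- `c` is the only square letter -/
def Qc : Fin 3 → Bool := fun i => decide (i = 2)

theorem RtPN_pf (A : Ct) : PF PN A := fun _ h => h.elim

theorem pn_np {n : ℕ} {V : CC} {A : Ct} : NP n PN V A ↔ NC n V A :=
  ⟨fun h => ⟨h.1.1, h.2⟩, fun h => ⟨⟨h.1, RtPN_pf A⟩, h.2⟩⟩

theorem pn_lp {V : CC} {z : Fin 3 × Bool} {A : Ct} : LP PN V z A ↔ Lv V z A :=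
  ⟨fun h => ⟨h.1, h.2.1, h.2.2.1⟩, fun h => ⟨h.1, h.2.1, h.2.2, RtPN_pf A⟩⟩

theorem pn_vp {n : ℕ} {V : CC} {A : Ct} : VP n PN V A ↔ VX n V A :=
  ⟨fun ⟨C, h1, h2⟩ => ⟨C, pn_np.1 h1, h2⟩, fun ⟨C, h1, h2⟩ => ⟨C, pn_np.2 h1, h2⟩⟩

theorem pn_crp {n : ℕ} {V : CC} {z : Fin 3 × Bool} : CrP n PN V z ↔ Crs n V z :=
  ⟨fun ⟨A, h1, h2⟩ => ⟨A, pn_lp.1 h1, pn_vp.1 h2⟩, fun ⟨A, h1, h2⟩ => ⟨A, pn_lp.2 h1, pn_vp.2 h2⟩⟩

theorem pn_ep {V : CC} {M : Fin 3 → Prop} : EP PN M V = EM M V := by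
  have h : StP PN M = StM M := by
    funext V W
    apply propext
    exact ⟨fun ⟨z, A, h1, h2, h3⟩ => ⟨z, A, h1, pn_lp.1 h2, h3⟩,
      fun ⟨z, A, h1, h2, h3⟩ => ⟨z, A, h1, pn_lp.2 h2, h3⟩⟩
  unfold EP EM
  rw [h]

theorem pn_eq3 {n : ℕ} {V : CC} (E : EqP n PN V) : Eq3 n V := by
  have hO : OMin V := by
    apply OMin_of_WMin
    intro z A hz hz'
    have h1 := cycLen_wh V z A hz hz'
    have h2 : n ≤ capC V A := E.low ⟨⟨⟨z, hz⟩, ⟨bar z, hz'⟩⟩, RtPN_pf A⟩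
    have h3 : cnt V z.1 = n := E.c z.1 (fun h => h)
    omega
  refine ⟨hO, E.h4, fun i => E.c i (fun h => h), ?_⟩
  intro W hW A hA
  obtain ⟨σ, e, he, rfl⟩ := orb_em hO hW
  rw [← pn_ep] at he
  have E' : EqP n PN e := E.em he
  have E'' : EqP n PN (act σ.aut e) := Pw.Eq3_SPerm E' σ (fun i => Iff.rfl)
  exact E''.low ⟨hA, RtPN_pf A⟩

theorem pn_pos {n : ℕ} {Q : Fin 3 → Bool} {Ω : CC} (B : BQ n PN Q Ω) : ∀ i, 0 < cnt Ω i :=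
  bq_pos B (fun _ h => h.elim)

theorem pn_sq {n : ℕ} {Q : Fin 3 → Bool} {M : Fin 3 → Prop} {Ω Ω' : CC} (B : BQ n PN Q Ω)
    (h : Ω' ∈ SQ PN Q M Ω) : BQ n PN Q Ω' ∧ sq Q Ω' ∈ EM M (sq Q Ω) := by
  have h1 := sq_bq B h
  rw [pn_ep] at h1
  exact h1

theorem pn_pr {n : ℕ} {Q : Fin 3 → Bool} {M : Fin 3 → Prop} {Ω Ω' : CC} {j : Fin 3}
    (B : BQ n PN Q Ω) (hj : Q j = true) (hX : VX n (sq Q Ω) (PrC j)) (h : Ω' ∈ SQ PN Q M Ω) :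
    VX n (sq Q Ω') (PrC j) :=
  pn_vp.1 (sq_pr B hj (pn_vp.2 hX) h)

end Pool.Agent.Sims
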