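import Pool.Agent.Sims.RtPN
import Pool.Agent.Sims.RtB4
import Pool.Agent.Sims.EvUnc

/-!
# Module `RtQ1` : trichotomy with square letters (world without fixed letters)

`Ω` a base class (`BQ n PN Q Ω`), `S = sq Q Ω` (`Eq3 n S` : `pn_eq3 B.e`).
* `CX n Q M Ω i`: either `i` is a square letter and `{x_i, x_i⁻¹}` is visibly crossed at `sq Q Ω`, or `i` is a single letter, crossed at `sq Q Ω'` for all `Ω' ∈ SQ PN Q M Ω`.
* `cx_mem`: `pn_pr`, resp. `SQ_trans`.
* `cx_sep`: a nontrivial tight cut `A` of `S` separating `x_i, x_i⁻¹` is crossed.  If `A` separates `x_j, x_j⁻¹` for a square letter `j`: `PrC j` is tight at `S` (`B.t`, `pw_cap`: the two values on `x_j^{±1}` are equal; proper) and crosses `A`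
  (`sq_cross`).  Otherwise `i` is single and `QF Q i A`.  WLOG `A (i,true) = true` (complement, `VX_compl`, `NC_compl`).  `A` is level for `S` (`Lv_NC`), and for `Ω`: `capC Ω A = capC (sq Q Ω) A` (`pw_cap`), `cnt Ω i = cnt (sq Q Ω) i` (`pw_cnt`).
  `Ω' = act (wh (i,true) A) Ω ∈ SQ PN Q M Ω` (`SQ_step`), `sq Q Ω' = act (wh (i,true) A) S` (`pw_wh`), crossed by hypothesis; `nb'`.
* `cx_pr`: `PrC i` is crossed at `S`: for a single letter `crs_pair` (`SQ_refl`).
* `e_tri`: copy of `unc3` (module `EvUnc`), `unc_sep` replaced by `cx_sep`, `crs_pair` by `cx_pr`.  (A nontrivial tight cut exists and separates `b` or is `PrC 1`: for a square letter 1: `PrC 1`; for a single letter `crs_ntr`.  In the third case `starT` needs a tight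
  nontrivial cut different from `PrC 0` and its complement: `PrC 1` if it is tight, else a level `b`-cut.)
* `e_star`: all three generators: `starG`: a nontrivial tight `A` separates some pair (`cx_sep`) or is `PrC i` or its complement (`cx_pr`, `VX_compl`).  A nontrivial tight cut exists: `hex` (some square letter: `PrC j`).
Difficulty 3.
-/

namespace Pool.Agent.Sims

/-- the generator `i` is crossed -/
def CX (n : ℕ) (Q : Fin 3 → Bool) (M : Fin 3 → Prop) (Ω : CC) (i : Fin 3) : Prop :=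
  (Q i = true ∧ VX n (sq Q Ω) (PrC i)) ∨
    (Q i = false ∧ ∀ Ω' ∈ SQ PN Q M Ω, Crs n (sq Q Ω') (i, true))

theorem cx_mem {n : ℕ} {Q : Fin 3 → Bool} {M : Fin 3 → Prop} {Ω Ω' : CC} {i : Fin 3}
    (B : BQ n PN Q Ω) (h : CX n Q M Ω i) (hm : Ω' ∈ SQ PN Q M Ω) : CX n Q M Ω' i := by
  rcases h with ⟨hq, hX⟩ | ⟨hq, h⟩
  · exact Or.inl ⟨hq, pn_pr B hq hX hm⟩
  · exact Or.inr ⟨hq, fun W hW => h W (SQ_trans hm hW)⟩

theorem RtQ1_e (Q : Fin 3 → Bool) : ∀ i, 1 ≤ (fun i => if Q i then 2 else 1 : Fin 3 → ℕ) i := by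
  intro i
  show 1 ≤ (if Q i then 2 else 1)
  split_ifs <;> norm_num

/-- the capacity of a cut fixed on the square letters -/
theorem RtQ1_cap {Q : Fin 3 → Bool} {Ω : CC} {A : Ct}
    (h : ∀ j, Q j = true → A (j, true) = A (j, false)) : capC (sq Q Ω) A = capC Ω A := by
  unfold sq
  rw [pw_cap (RtQ1_e Q)]
  have h1 : ∑ i : Fin 3, (if A (i, true) = A (i, false) then 0 else
      ((fun i => if Q i then 2 else 1 : Fin 3 → ℕ) i - 1) * cnt Ω i) = 0 := by
    apply Finset.sum_eq_zero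
    intro i _
    cases hQ : Q i
    · simp [hQ]
    · rw [if_pos (h i hQ)]
  rw [h1, add_zero]

theorem RtQ1_prp (j : Fin 3) : Ntr (PrC j) := by
  fin_cases j
  · exact ⟨⟨(0, true), (0, false), by decide, by decide, by decide⟩, (1, true), (1, false), by decide, by decide, by decide⟩
  · exact ⟨⟨(1, true), (1, false), by decide, by decide, by decide⟩, (0, true), (0, false), by decide, by decide, by decide⟩
  · exact ⟨⟨(2, true), (2, false), by decide, by decide, by decide⟩, (1, true), (1, false), by decide, by decide, by decide⟩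

theorem RtQ1_nc {n : ℕ} {Q : Fin 3 → Bool} {Ω : CC} (B : BQ n PN Q Ω) {j : Fin 3} (hj : Q j = true) :
    NC n (sq Q Ω) (PrC j) := by
  refine ⟨Ntr_Prp (RtQ1_prp j), ?_⟩
  rw [RtQ1_cap (fun i _ => by simp [PrC])]
  exact B.t j hj

theorem RtQ1_sep {n : ℕ} {Q : Fin 3 → Bool} {M : Fin 3 → Prop} {Ω : CC} {i : Fin 3}
    (B : BQ n PN Q Ω) (hi : M i) (hQi : Q i = false)
    (h : ∀ Ω' ∈ SQ PN Q M Ω, Crs n (sq Q Ω') (i, true)) {A : Ct} (hA : NC n (sq Q Ω) A) (hn : Ntr A)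
    (hf : ∀ j, Q j = true → A (j, true) = A (j, false)) (h1 : A (i, true) = true)
    (h2 : A (i, false) = false) : VX n (sq Q Ω) A := by
  have E : Eq3 n (sq Q Ω) := pn_eq3 B.e
  have hL : Lv (sq Q Ω) (i, true) A := (Lv_NC E).2 ⟨h1, h2, hA⟩
  have hL' : Lv Ω (i, true) A := by
    refine ⟨h1, h2, ?_⟩
    have h3 : cnt Ω i = n := bq_cnt' B hQi (fun h => h)
    show capC Ω A = cnt Ω i
    rw [h3, ← RtQ1_cap hf]
    exact hA.2
  have hm : act (wh (i, true) A) Ω ∈ SQ PN Q M Ω :=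
    SQ_step (SQ_refl M Ω) (z := (i, true)) hi hL' (fun j hj => absurd hj (fun h => h)) (fun j hj _ => hf j hj)
  have hw : sq Q (act (wh (i, true) A) Ω) = act (wh (i, true) A) (sq Q Ω) := by
    unfold sq
    refine pw_wh (e := fun i => if Q i then 2 else 1) (z := (i, true)) ?_ ?_ Ω
    · show (if Q i then 2 else 1) = 1
      rw [hQi]
      rfl
    · intro j _ hj
      apply hf j
      by_contra hc
      apply hj
      show (if Q j then 2 else 1) = 1
      rw [if_neg hc]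
  have hc := h _ hm
  rw [hw] at hc
  exact nb' E hL hn hc

theorem cx_sep {n : ℕ} {Q : Fin 3 → Bool} {M : Fin 3 → Prop} {Ω : CC} {i : Fin 3}
    (B : BQ n PN Q Ω) (hi : M i) (h : CX n Q M Ω i) {A : Ct} (hA : NC n (sq Q Ω) A) (hn : Ntr A)
    (hs : A (i, true) ≠ A (i, false)) : VX n (sq Q Ω) A := by
  by_cases hj : ∃ j, Q j = true ∧ A (j, true) ≠ A (j, false)
  · obtain ⟨j, hj, hj'⟩ := hj
    exact ⟨PrC j, RtQ1_nc B hj, (sq_cross hn hj').1⟩
  · push Not at hj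
    rcases h with ⟨hq, -⟩ | ⟨hq, h⟩
    · exact absurd (hj i hq) hs
    · cases h1 : A (i, true)
      · have h2 : A (i, false) = true := by
          cases h3 : A (i, false)
          · exact absurd (h1.trans h3.symm) hs
          · rfl
        rw [← VX_compl]
        refine RtQ1_sep B hi hq h (NC_compl hA) (Ntr_compl hn) ?_ ?_ ?_
        · intro j hQ
          rw [hj j hQ]
        · rw [h1]
          rfl
        · rw [h2]
          rfl
      · have h2 : A (i, false) = false := by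
          cases h3 : A (i, false)
          · rfl
          · exact absurd (h1.trans h3.symm) hs
        exact RtQ1_sep B hi hq h hA hn hj h1 h2

theorem cx_pr {n : ℕ} {Q : Fin 3 → Bool} {M : Fin 3 → Prop} {Ω : CC} {i : Fin 3}
    (B : BQ n PN Q Ω) (h : CX n Q M Ω i) : VX n (sq Q Ω) (PrC i) := by
  rcases h with ⟨-, hX⟩ | ⟨-, h⟩
  · exact hX
  · exact crs_pair (pn_eq3 B.e) (z := (i, true)) (h Ω (SQ_refl M Ω))

theorem RtQ1_cases {n : ℕ} {Q : Fin 3 → Bool} {Ω : CC} (B : BQ n PN Q Ω)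
    (h1 : CX n Q (fun i => i ≠ 0) Ω 1) (h2 : CX n Q (fun i => i ≠ 0) Ω 2) {A : Ct}
    (hA : NC n (sq Q Ω) A) (hn : Ntr A) (hv : ¬ VX n (sq Q Ω) A) :
    (∀ x, A x = PrC 0 x) ∨ (∀ x, A x = !PrC 0 x) ∨
      ∃ x : Fin 3 × Bool, x.1 = 0 ∧ ((∀ y, A y = UU x y) ∨ (∀ y, A y = !UU x y)) := by
  have g1 : A (1, true) = A (1, false) := by
    by_contra hne
    exact hv (cx_sep B (by decide) h1 hA hn hne)
  have g2 : A (2, true) = A (2, false) := by
    by_contra hne
    exact hv (cx_sep B (by decide) h2 hA hn hne)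
  have hx1 : VX n (sq Q Ω) (PrC 1) := cx_pr B h1
  have hx2 : VX n (sq Q Ω) (PrC 2) := cx_pr B h2
  have hdec := EvUnc_dec (A (0, true)) (A (0, false)) (A (1, true)) (A (2, true))
  rw [← EvUnc_eq g1 g2] at hdec
  rcases hdec hn with h | h | h | h | h | h | h | h
  · exact Or.inl h
  · exact Or.inr (Or.inl h)
  · exact absurd ((VX_congr h).2 hx1) hv
  · exact absurd ((VX_congr h).2 (VX_compl.2 hx1)) hv
  · exact absurd ((VX_congr h).2 hx2) hv
  · exact absurd ((VX_congr h).2 (VX_compl.2 hx2)) hv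
  · exact Or.inr (Or.inr ⟨(0, true), rfl, h⟩)
  · exact Or.inr (Or.inr ⟨(0, false), rfl, h⟩)

theorem RtQ1_ex {n : ℕ} {Q : Fin 3 → Bool} {M : Fin 3 → Prop} {Ω : CC} (B : BQ n PN Q Ω)
    (h1 : CX n Q M Ω 1) : ∃ A, NC n (sq Q Ω) A ∧ Ntr A ∧ (∃ x, A x ≠ PrC 0 x) ∧ ∃ x, A x = PrC 0 x := by
  rcases h1 with ⟨hq, -⟩ | ⟨-, h⟩
  · exact ⟨PrC 1, RtQ1_nc B hq, RtQ1_prp 1, ⟨(1, true), by decide⟩, (2, true), by decide⟩
  · obtain ⟨A, hA, hAn, -⟩ := crs_ntr (h Ω (SQ_refl M Ω))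
    have hA' := (Lv_NC (pn_eq3 B.e)).1 hA
    refine ⟨A, hA'.2.2, hAn, ⟨(1, true), ?_⟩, (1, false), ?_⟩
    · rw [hA'.1]
      simp [PrC]
    · have := hA'.2.1
      rw [EvUnc_bar] at this
      rw [this]
      simp [PrC]

theorem e_tri {n : ℕ} {Q : Fin 3 → Bool} {Ω : CC} (B : BQ n PN Q Ω)
    (h1 : CX n Q (fun i => i ≠ 0) Ω 1) (h2 : CX n Q (fun i => i ≠ 0) Ω 2) :
    Full n (sq Q Ω) ∨
      (∃ x : Fin 3 × Bool, x.1 = 0 ∧ NC n (sq Q Ω) (UU x) ∧ ¬ VX n (sq Q Ω) (UU x)) ∨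
      (NC n (sq Q Ω) (PrC 0) ∧ ¬ VX n (sq Q Ω) (PrC 0) ∧ Five n (sq Q Ω)) := by
  have E : Eq3 n (sq Q Ω) := pn_eq3 B.e
  obtain ⟨A, hA, hAn, hA1, hA2⟩ := RtQ1_ex B h1
  by_cases hall : ∀ Q', NC n (sq Q Ω) Q' → Ntr Q' → VX n (sq Q Ω) Q'
  · exact Or.inl (starG E ⟨A, hA, hAn⟩ hall)
  · by_cases hU : ∃ x : Fin 3 × Bool, x.1 = 0 ∧ NC n (sq Q Ω) (UU x) ∧ ¬ VX n (sq Q Ω) (UU x)
    · exact Or.inr (Or.inl hU)
    · right; right
      have key : ∀ Q', NC n (sq Q Ω) Q' → Ntr Q' → ¬ VX n (sq Q Ω) Q' →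
          (∀ x, Q' x = PrC 0 x) ∨ (∀ x, Q' x = !PrC 0 x) := by
        intro Q' hQ hn hv
        rcases RtQ1_cases B h1 h2 hQ hn hv with h | h | ⟨x, hx, h | h⟩
        · exact Or.inl h
        · exact Or.inr h
        · exact absurd ⟨x, hx, NC_congr hQ h, fun hc => hv ((VX_congr h).2 hc)⟩ hU
        · refine absurd ⟨x, hx, ?_, ?_⟩ hU
          · exact NC_congr (NC_compl hQ) (fun y => by rw [h y, Bool.not_not])
          · intro hc
            exact hv ((VX_congr h).2 (VX_compl.2 hc))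
      push Not at hall
      obtain ⟨Q', hQ, hn, hv⟩ := hall
      have hT : NC n (sq Q Ω) (PrC 0) ∧ ¬ VX n (sq Q Ω) (PrC 0) := by
        rcases key Q' hQ hn hv with h | h
        · exact ⟨NC_congr hQ h, fun hc => hv ((VX_congr h).2 hc)⟩
        · refine ⟨NC_congr (NC_compl hQ) (fun y => by rw [h y, Bool.not_not]), ?_⟩
          intro hc
          exact hv ((VX_congr h).2 (VX_compl.2 hc))
      refine ⟨hT.1, hT.2, starT E hT.1 hT.2 ⟨A, hA, hAn, hA1, hA2⟩ ?_⟩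
      intro P hP hPn h1 h2
      by_contra hv'
      rcases key P hP hPn hv' with h | h
      · obtain ⟨x, hx⟩ := h1
        exact hx (h x)
      · obtain ⟨x, hx⟩ := h2
        have := h x
        rw [hx] at this
        cases hp : PrC 0 x <;> simp [hp] at this

theorem e_star {n : ℕ} {Q : Fin 3 → Bool} {Ω : CC} (B : BQ n PN Q Ω) (hex : ∃ j, Q j = true)
    (h : ∀ i, CX n Q (fun _ => True) Ω i) : Full n (sq Q Ω) := by
  have E : Eq3 n (sq Q Ω) := pn_eq3 B.e
  obtain ⟨j, hj⟩ := hex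
  refine starG E ⟨PrC j, RtQ1_nc B hj, RtQ1_prp j⟩ ?_
  intro A hA hn
  by_contra hv
  have g : ∀ i, A (i, true) = A (i, false) := by
    intro i
    by_contra hne
    exact hv (cx_sep B trivial (h i) hA hn hne)
  have hdec := EvUnc_dec (A (0, true)) (A (0, false)) (A (1, true)) (A (2, true))
  rw [← EvUnc_eq (g 1) (g 2)] at hdec
  have hU : ∀ x : Fin 3 × Bool, x.1 = 0 → UU x (0, true) ≠ UU x (0, false) := by
    intro x hx
    rcases x with ⟨i, b⟩
    simp only at hx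
    subst hx
    cases b <;> simp [UU]
  have hU1 : ∀ x : Fin 3 × Bool, x.1 = 0 → ¬ ((∀ y, A y = UU x y) ∨ ∀ y, A y = !UU x y) := by
    rintro x hx (h1 | h1)
    · have h2 := g 0
      rw [h1, h1] at h2
      exact hU x hx h2
    · have h2 := g 0
      rw [h1, h1] at h2
      exact hU x hx (Bool.not_inj h2)
  rcases hdec hn with h1 | h1 | h1 | h1 | h1 | h1 | h1 | h1
  · exact hv ((VX_congr h1).2 (cx_pr B (h 0)))
  · exact hv ((VX_congr h1).2 (VX_compl.2 (cx_pr B (h 0))))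
  · exact hv ((VX_congr h1).2 (cx_pr B (h 1)))
  · exact hv ((VX_congr h1).2 (VX_compl.2 (cx_pr B (h 1))))
  · exact hv ((VX_congr h1).2 (cx_pr B (h 2)))
  · exact hv ((VX_congr h1).2 (VX_compl.2 (cx_pr B (h 2))))
  · exact hU1 _ rfl h1
  · exact hU1 _ rfl h1

end Pool.Agent.Sims
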