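import Pool.Agent.Sims.RtQ1
import Pool.Agent.Sims.EvDet
import Pool.Agent.Sims.EvDet5

/-!
# Module `RtQ2` : deterministic passages through square letters

`S = sq Q Ω`, `Q j`, no edge `x_j — x_j⁻¹` in the Whitehead graph of `Ω` (`edgS Ω {x_j} {x_j⁻¹} = 0`).
* `sq_run`: in a passage `x, (j,b), y` of `S` exactly one of `x`, `y` is `(j,b)`.  Let `Ω = cls w`, `CR w`; `S = cls (pwL e w)`, `CR (pwL e w)` (`pw_cls`), `e j = 2`.  No two cyclically consecutive letters of `w` have generator `j` (equal ones would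
  give an edge `x_j — x_j⁻¹`: `edgS_cls`-type formula for the word `w`; inverse ones are excluded by `CR w`; `w` has length `≥ 2` since the list in `Ps` has length `≥ 3`).  So in the cyclic word `pwL e w` every letter `(j,b)` lies in exactly one block
  `(j,b)(j,b)`, preceded and followed by letters of other generators.  `Ps` is invariant under inversion, so assume `x, (j,b), y, l` is a rotation of `pwL e w`; rotate so that it starts at a block boundary.
* `sq_detL`: `S` Full: the vertex `y = (j,b)` has exactly two neighbours, with `n/2` edges each, all other edges at `y` vanish (`cnt = n`, as in `EvDet`); `y⁻¹` is one of them (`bq_e1`: hypothesis `h1`).  A passage `x, y, t` gives edges `{x, y⁻¹}`,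
  `{y, t⁻¹}`.  Both `t, t' ≠ y` (then `x = x' = y` by `sq_run`): `t⁻¹, t'⁻¹` are neighbours of `y` different from `y⁻¹`, hence equal.  Both `x, x' ≠ y`: the same for `y⁻¹`.  Otherwise both sides of the equivalence are false.
* `sq_detT`: `S` Five, `j ≠ 0`: the same in the graph with `{a, a⁻¹}` contracted (`eT`).  In `Five` the four letters `r i` are all the letters with generator `≠ 0`, every `r i` has capacity `n` and two neighbours.
* `cx_detL`: `Full`, `CX n Q M Ω i`: single letter: `det_full` with `Crs n (sq Q Ω) (i,true)` (`SQ_refl`), `crs_bar` for `(i,false)`; square: `sq_detL` (`bq_e0`, `bq_e1`).  * `cx_detT`: `det_five`, `sq_detT`.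
Difficulty 3.
-/

namespace Pool.Agent.Sims

/-- words in the rotation class of `pwL e w`, up to the phase in the first block -/
def RtQ2_P (e : Fin 3 → ℕ) (w W : List (Fin 3 × Bool)) : Prop :=
  ∃ w', w' ~r w ∧ (W = pwL e w' ∨ ∃ a t, w' = a :: t ∧ e a.1 = 2 ∧ W = a :: (pwL e t ++ [a]))

theorem RtQ2_cons (e : Fin 3 → ℕ) (a : Fin 3 × Bool) (t : List (Fin 3 × Bool)) :
    pwL e (a :: t) = List.replicate (e a.1) a ++ pwL e t := by
  simp [pwL]

theorem RtQ2_snoc (e : Fin 3 → ℕ) (a : Fin 3 × Bool) (t : List (Fin 3 × Bool)) :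
    pwL e (t ++ [a]) = pwL e t ++ List.replicate (e a.1) a := by
  simp [pwL]

theorem RtQ2_rot {e : Fin 3 → ℕ} (he : ∀ i, e i = 1 ∨ e i = 2) {w W : List (Fin 3 × Bool)}
    (h : RtQ2_P e w W) : RtQ2_P e w (W.rotate 1) := by
  obtain ⟨w', hw, h1 | ⟨a, t, h2, h3, h4⟩⟩ := h
  · cases w' with
    | nil =>
      refine ⟨[], hw, Or.inl ?_⟩
      rw [h1]
      simp [pwL]
    | cons a t =>
      rcases he a.1 with h5 | h5
      · refine ⟨t ++ [a], ?_, Or.inl ?_⟩
        · refine List.IsRotated.trans ?_ hw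
          have := (List.isRotated_append (l := [a]) (l' := t)).symm
          simpa using this
        · rw [h1, RtQ2_cons, RtQ2_snoc, h5]
          simp
      · refine ⟨a :: t, hw, Or.inr ⟨a, t, rfl, h5, ?_⟩⟩
        rw [h1, RtQ2_cons, h5]
        simp [List.replicate]
  · refine ⟨t ++ [a], ?_, Or.inl ?_⟩
    · refine List.IsRotated.trans ?_ hw
      rw [h2]
      have := (List.isRotated_append (l := [a]) (l' := t)).symm
      simpa using this
    · rw [h4, RtQ2_snoc, h3]
      simp [List.replicate]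

theorem RtQ2_rotn {e : Fin 3 → ℕ} (he : ∀ i, e i = 1 ∨ e i = 2) {w W : List (Fin 3 × Bool)}
    (h : W ~r pwL e w) : RtQ2_P e w W := by
  obtain ⟨k, hk⟩ := h.symm
  have h0 : RtQ2_P e w (pwL e w) := ⟨w, List.IsRotated.refl w, Or.inl rfl⟩
  have h1 : ∀ k, RtQ2_P e w ((pwL e w).rotate k) := by
    intro k
    induction k with
    | zero => rw [List.rotate_zero]; exact h0
    | succ k ih =>
      rw [← List.rotate_rotate]
      exact RtQ2_rot he ih
  rw [← hk]
  exact h1 k

theorem RtQ2_nocons {Ω : CC} {j : Fin 3}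
    (h0 : edgS Ω (sgl (j, true)) (sgl (j, false)) = 0) {w' : List (Fin 3 × Bool)}
    (hw : w' ~r rep Ω) {a c : Fin 3 × Bool} {t : List (Fin 3 × Bool)} (h : w' = a :: c :: t)
    (ha : a.1 = j) (hc : c.1 = j) : False := by
  have hcr : CR w' := CR_of_rotated hw.symm (rep_CR Ω)
  have h2 : a.2 = c.2 := by
    have h3 := hcr.1
    rw [h, FreeGroup.IsReduced, List.isChain_cons_cons] at h3
    exact h3.1 (by rw [ha, hc])
  unfold edgS at h0
  rw [← cyc_rotated _ hw, h] at h0
  simp only [cyc, lin] at h0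
  have h4 := Nat.eq_zero_of_add_eq_zero_right h0
  obtain ⟨a1, a2⟩ := a
  obtain ⟨c1, c2⟩ := c
  simp only at ha hc h2
  subst ha hc h2
  cases a2 <;> simp [sgl, bar] at h4

theorem RtQ2_run {Q : Fin 3 → Bool} {Ω : CC} {j : Fin 3} (hj : Q j = true)
    (h0 : edgS Ω (sgl (j, true)) (sgl (j, false)) = 0) {x y : Fin 3 × Bool} {b : Bool}
    (h : Tg (sq Q Ω) x (j, b) y) : x = (j, b) ↔ y ≠ (j, b) := by
  obtain ⟨l, h1, h2⟩ := h
  obtain ⟨e, hed⟩ : ∃ e : Fin 3 → ℕ, e = fun i => if Q i then 2 else 1 := ⟨_, rfl⟩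
  have he1 : ∀ i, 1 ≤ e i := by
    intro i; rw [hed]; simp only; split_ifs <;> omega
  have he2 : ∀ i, e i = 1 ∨ e i = 2 := by
    intro i; rw [hed]; simp only; split_ifs <;> simp
  have hej : e j = 2 := by rw [hed]; simp [hj]
  have h3 := pw_cls he1 (rep_CR Ω)
  rw [cls_rep] at h3
  have h4 : sq Q Ω = pw e Ω := by rw [hed]; rfl
  have h5 : (x :: (j, b) :: y :: l) ~r pwL e (rep Ω) := by
    refine rotated_of_cls_eq h1 h3.1 ?_
    rw [h2, h4, h3.2]
  obtain ⟨w', hw, h6 | ⟨a, t, h7, h8, h9⟩⟩ := RtQ2_rotn he2 h5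
  · cases w' with
    | nil => simp [pwL] at h6
    | cons a t =>
      rw [RtQ2_cons] at h6
      rcases he2 a.1 with h10 | h10
      · rw [h10] at h6
        simp only [List.replicate_one, List.cons_append, List.nil_append, List.cons.injEq] at h6
        obtain ⟨rfl, h11⟩ := h6
        have hxj : x.1 ≠ j := by
          intro h12
          rw [h12, hej] at h10
          omega
        cases t with
        | nil => simp [pwL] at h11
        | cons c t' =>
          rw [RtQ2_cons] at h11
          have hc : c = (j, b) := by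
            rcases he2 c.1 with h13 | h13
            · rw [h13] at h11
              simp only [List.replicate_one, List.cons_append, List.nil_append,
                List.cons.injEq] at h11
              exact h11.1.symm
            · rw [h13] at h11
              simp only [List.replicate, List.cons_append, List.nil_append,
                List.cons.injEq] at h11
              exact h11.1.symm
          subst hc
          simp only [hej, List.replicate, List.cons_append, List.nil_append,
            List.cons.injEq, true_and] at h11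
          obtain ⟨rfl, -⟩ := h11
          constructor
          · intro h12
            exact absurd (by rw [h12]) hxj
          · intro h12
            exact absurd rfl h12
      · rw [h10] at h6
        simp only [List.replicate, List.cons_append, List.nil_append, List.cons.injEq] at h6
        obtain ⟨rfl, h11, h12⟩ := h6
        cases t with
        | nil => simp [pwL] at h12
        | cons c t' =>
          have hy : y = c := by
            rw [RtQ2_cons] at h12
            rcases he2 c.1 with h13 | h13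
            · rw [h13] at h12
              simp only [List.replicate_one, List.cons_append, List.nil_append,
                List.cons.injEq] at h12
              exact h12.1
            · rw [h13] at h12
              simp only [List.replicate, List.cons_append, List.nil_append,
                List.cons.injEq] at h12
              exact h12.1
          constructor
          · intro _ h13
            exact RtQ2_nocons h0 hw rfl (by rw [← h11]) (by rw [← hy, h13])
          · intro _
            exact h11.symm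
  · simp only [List.cons.injEq] at h9
    obtain ⟨rfl, h10⟩ := h9
    cases t with
    | nil => simp [pwL] at h10
    | cons c t' =>
      rw [RtQ2_cons] at h10
      have hc : c = (j, b) := by
        rcases he2 c.1 with h13 | h13
        · rw [h13] at h10
          simp only [List.replicate_one, List.cons_append, List.nil_append,
            List.cons.injEq] at h10
          exact h10.1.symm
        · rw [h13] at h10
          simp only [List.replicate, List.cons_append, List.nil_append,
            List.cons.injEq] at h10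
          exact h10.1.symm
      subst hc
      simp only [hej, List.replicate, List.cons_append, List.nil_append,
        List.cons.injEq, true_and] at h10
      obtain ⟨rfl, -⟩ := h10
      constructor
      · intro h12
        exact (RtQ2_nocons h0 hw h7 (by rw [h12]) rfl).elim
      · intro h12
        exact absurd rfl h12

theorem RtQ2_ne {V : CC} {x y t : Fin 3 × Bool} (h : Ps V x y t) : x ≠ bar y ∧ y ≠ bar t := by
  have h1 := fi_red (ps_fi.1 h)
  rw [FreeGroup.IsReduced, List.isChain_cons_cons, List.isChain_cons_cons] at h1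
  have aux : ∀ a b : Fin 3 × Bool, (a.1 = b.1 → a.2 = b.2) → a ≠ bar b := by
    rintro ⟨a1, a2⟩ ⟨b1, b2⟩ h2 h3
    simp only [bar, Prod.mk.injEq] at h3
    have h4 := h2 h3.1
    simp only at h4
    rw [h4] at h3
    cases b2 <;> simp at h3
  exact ⟨aux _ _ h1.1, aux _ _ h1.2.1⟩

theorem RtQ2_len {n : ℕ} {V : CC} (E : Eq3 n V) : 2 ≤ cycLen V := by
  rw [cycLen_eq_sum, Fin.sum_univ_three, E.c 0, E.c 1, E.c 2]
  have := E.h4
  omega

/-- the neighbours of a letter in a full class -/
theorem RtQ2_nbr {n : ℕ} {V : CC} (E : Eq3 n V) (hF : Full n V) {u v p p' : Fin 3 × Bool}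
    (hv : v ≠ u) (hv' : 0 < edgS V (sgl u) (sgl v)) (hp : p ≠ u) (hpe : 0 < edgS V (sgl u) (sgl p))
    (hp' : p' ≠ u) (hpe' : 0 < edgS V (sgl u) (sgl p')) (h1 : p ≠ v) (h2 : p' ≠ v) : p = p' := by
  obtain ⟨r, hr, he⟩ := hF
  have hbij : Function.Bijective r := by
    rw [Fintype.bijective_iff_injective_and_card]
    exact ⟨hr, by simp⟩
  obtain ⟨i, hi⟩ := hbij.2 u
  have key : ∀ q : Fin 3 × Bool, q ≠ u → 0 < edgS V (sgl u) (sgl q) →
      q = r (i + 1) ∨ q = r (i - 1) := by
    intro q hq hqe
    obtain ⟨k, hk⟩ := hbij.2 q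
    by_contra hcon
    push Not at hcon
    have h1 : k ≠ i + 1 := fun h0 => hcon.1 (by rw [← hk, h0])
    have h2 : i ≠ k + 1 := fun h0 => hcon.2 (by rw [← hk, ← EvDet_f6 i k h0])
    have h3 : k ≠ i := fun h0 => hq (by rw [← hk, ← hi, h0])
    have h4 := full_zero E hr he h3 h1 h2
    rw [hi, hk] at h4
    omega
  rcases key v hv hv' with h3 | h3 <;> rcases key p hp hpe with h4 | h4 <;>
    rcases key p' hp' hpe' with h5 | h5
  · exact absurd (h4.trans h3.symm) h1
  · exact absurd (h4.trans h3.symm) h1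
  · exact absurd (h5.trans h3.symm) h2
  · exact h4.trans h5.symm
  · exact h4.trans h5.symm
  · exact absurd (h5.trans h3.symm) h2
  · exact absurd (h4.trans h3.symm) h1
  · exact absurd (h4.trans h3.symm) h1

/-- the neighbours of a letter off `T` in the 5-cycle case -/
theorem RtQ2_nbrT {n : ℕ} {V : CC} (E : Eq3 n V) (h5 : Five n V) {u p p' : Fin 3 × Bool}
    (hu : u.1 ≠ 0) (hv' : 0 < edgS V (sgl u) (sgl (bar u))) (hp : p ≠ u)
    (hpe : 0 < edgS V (sgl u) (sgl p))
    (hp' : p' ≠ u) (hpe' : 0 < edgS V (sgl u) (sgl p')) (h1 : p ≠ bar u) (h2 : p' ≠ bar u) :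
    eT p p' := by
  obtain ⟨X, Y, a1, a2, a3, a4, a5, a6, a7, a8⟩ := EvDet5_blocks h5 hu
  have key : ∀ q : Fin 3 × Bool, q ≠ u → 0 < edgS V (sgl u) (sgl q) → X q = true ∨ Y q = true := by
    intro q hq hqe
    by_contra hcon
    rw [not_or, Bool.not_eq_true, Bool.not_eq_true] at hcon
    have e2 := EvDet5_nbr E a3 a4 a6 a7 a8 hq hcon.1 hcon.2
    omega
  have hY : Y (bar u) = true := by
    rcases key (bar u) (bar_ne u) hv' with h3 | h3
    · rw [a5] at h3; exact absurd h3 (by decide)
    · exact h3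
  have hYs : ∀ q, Y q = true → q = bar u := by
    intro q hq
    rcases a2 with h3 | ⟨s, hs, h3⟩
    · rw [h3] at hY
      simp only [PrC, decide_eq_true_eq] at hY
      exact absurd hY hu
    · rw [h3] at hY hq
      simp only [sgl, decide_eq_true_eq] at hY hq
      rw [hq, hY]
  have hX : ∀ q : Fin 3 × Bool, q ≠ u → 0 < edgS V (sgl u) (sgl q) → q ≠ bar u → X q = true := by
    intro q hq hqe hqb
    rcases key q hq hqe with h3 | h3
    · exact h3
    · exact absurd (hYs q h3) hqb
  exact EvDet5_Blk_eT a1 (hX p hp hpe h1) (hX p' hp' hpe' h2)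

theorem sq_run {Q : Fin 3 → Bool} {Ω : CC} {j : Fin 3} (hj : Q j = true)
    (h0 : edgS Ω (sgl (j, true)) (sgl (j, false)) = 0) {x y : Fin 3 × Bool} {b : Bool}
    (h : Ps (sq Q Ω) x (j, b) y) : x = (j, b) ↔ y ≠ (j, b) := by
  rcases h with h | h
  · exact RtQ2_run hj h0 h
  · have h1 := RtQ2_run (b := !b) hj h0 h
    have h2 : ∀ u : Fin 3 × Bool, bar u = (j, !b) ↔ u = (j, b) := by
      intro u
      have : ((j, !b) : Fin 3 × Bool) = bar (j, b) := rfl
      rw [this, bar_inj]
    rw [ne_eq, h2, h2] at h1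
    tauto

theorem sq_detL {n : ℕ} {Q : Fin 3 → Bool} {Ω : CC} (E : Eq3 n (sq Q Ω)) (hF : Full n (sq Q Ω))
    {j : Fin 3} (hj : Q j = true) (h0 : edgS Ω (sgl (j, true)) (sgl (j, false)) = 0)
    (h1 : 2 * edgS (sq Q Ω) (sgl (j, true)) (sgl (j, false)) = n) (b : Bool) :
    DetL (sq Q Ω) (j, b) := by
  have hlen := RtQ2_len E
  have h4 := E.h4
  have hbb : ∀ b : Bool, 0 < edgS (sq Q Ω) (sgl (j, b)) (sgl (bar (j, b))) := by
    intro b
    cases b
    · have : (bar (j, false) : Fin 3 × Bool) = (j, true) := rfl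
      rw [this, edgS_comm]
      omega
    · have : (bar (j, true) : Fin 3 × Bool) = (j, false) := rfl
      rw [this]
      omega
  intro x t x' t' p p'
  have q1 := sq_run hj h0 p
  have q2 := sq_run hj h0 p'
  obtain ⟨n1, n2⟩ := RtQ2_ne p
  obtain ⟨n3, n4⟩ := RtQ2_ne p'
  obtain ⟨e1, e2⟩ := ps_edge hlen p
  obtain ⟨e3, e4⟩ := ps_edge hlen p'
  by_cases c1 : t = (j, b) <;> by_cases c2 : t' = (j, b)
  · have d1 : x ≠ (j, b) := fun h => (q1.1 h) c1
    have d2 : x' ≠ (j, b) := fun h => (q2.1 h) c2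
    have hxx : x = x' := by
      have f1 : (bar (j, b) : Fin 3 × Bool) = (j, !b) := rfl
      have f2 : (bar (j, !b) : Fin 3 × Bool) = (j, b) := by simp [bar]
      have f3 := hbb (!b)
      rw [f2] at f3
      rw [f1] at n1 n3 e1 e3
      rw [edgS_comm] at e1 e3
      refine RtQ2_nbr E hF (u := (j, !b)) (v := (j, b)) ?_ f3 n1 e1 n3 e3 d1 d2
      intro h
      rw [← f1] at h
      exact bar_ne _ h.symm
    exact ⟨fun _ => c1.trans c2.symm, fun _ => hxx⟩
  · have d1 : x ≠ (j, b) := fun h => (q1.1 h) c1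
    have d2 : x' = (j, b) := q2.2 c2
    constructor
    · intro h; exact absurd (h.trans d2) d1
    · intro h; exact absurd (h ▸ c1) c2
  · have d1 : x = (j, b) := q1.2 c1
    have d2 : x' ≠ (j, b) := fun h => (q2.1 h) c2
    constructor
    · intro h; exact absurd (h ▸ d1) d2
    · intro h; exact absurd (h.trans c2) c1
  · have d1 : x = (j, b) := q1.2 c1
    have d2 : x' = (j, b) := q2.2 c2
    have htt : bar t = bar t' := by
      refine RtQ2_nbr E hF (u := (j, b)) (v := bar (j, b)) (bar_ne _) (hbb b) n2.symm e2 n4.symm e4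
        ?_ ?_
      · rw [ne_eq, bar_inj]; exact c1
      · rw [ne_eq, bar_inj]; exact c2
    exact ⟨fun _ => bar_inj.1 htt, fun _ => d1.trans d2.symm⟩

theorem sq_detT {n : ℕ} {Q : Fin 3 → Bool} {Ω : CC} (E : Eq3 n (sq Q Ω)) (h5 : Five n (sq Q Ω))
    {j : Fin 3} (hj : Q j = true) (hj0 : j ≠ 0)
    (h0 : edgS Ω (sgl (j, true)) (sgl (j, false)) = 0)
    (h1 : 2 * edgS (sq Q Ω) (sgl (j, true)) (sgl (j, false)) = n) (b : Bool) :
    DetT (sq Q Ω) (j, b) := by
  have hlen := RtQ2_len E
  have h4 := E.h4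
  have hbb : ∀ b : Bool, 0 < edgS (sq Q Ω) (sgl (j, b)) (sgl (bar (j, b))) := by
    intro b
    cases b
    · have : (bar (j, false) : Fin 3 × Bool) = (j, true) := rfl
      rw [this, edgS_comm]
      omega
    · have : (bar (j, true) : Fin 3 × Bool) = (j, false) := rfl
      rw [this]
      omega
  have hT : ∀ u v : Fin 3 × Bool, u = (j, b) → v ≠ (j, b) → ¬ eT u v ∧ ¬ eT v u := by
    intro u v hu hv
    constructor
    · rintro (h | ⟨h, -⟩)
      · exact hv (h ▸ hu)
      · rw [hu] at h; exact hj0 h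
    · rintro (h | ⟨-, h⟩)
      · exact hv (h.trans hu)
      · rw [hu] at h; exact hj0 h
  intro x t x' t' p p'
  have q1 := sq_run hj h0 p
  have q2 := sq_run hj h0 p'
  obtain ⟨n1, n2⟩ := RtQ2_ne p
  obtain ⟨n3, n4⟩ := RtQ2_ne p'
  obtain ⟨e1, e2⟩ := ps_edge hlen p
  obtain ⟨e3, e4⟩ := ps_edge hlen p'
  by_cases c1 : t = (j, b) <;> by_cases c2 : t' = (j, b)
  · have d1 : x ≠ (j, b) := fun h => (q1.1 h) c1
    have d2 : x' ≠ (j, b) := fun h => (q2.1 h) c2
    have hxx : eT x x' := by
      have f1 : (bar (j, b) : Fin 3 × Bool) = (j, !b) := rfl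
      have f2 : (bar (j, !b) : Fin 3 × Bool) = (j, b) := by simp [bar]
      rw [f1] at n1 n3 e1 e3
      rw [edgS_comm] at e1 e3
      refine RtQ2_nbrT E h5 (u := (j, !b)) hj0 (hbb (!b)) n1 e1 n3 e3 ?_ ?_
      · rw [f2]; exact d1
      · rw [f2]; exact d2
    exact ⟨fun _ => Or.inl (c1.trans c2.symm), fun _ => hxx⟩
  · have d1 : x ≠ (j, b) := fun h => (q1.1 h) c1
    have d2 : x' = (j, b) := q2.2 c2
    constructor
    · intro h; exact absurd h (hT x' x d2 d1).2
    · intro h; exact absurd h (hT t t' c1 c2).1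
  · have d1 : x = (j, b) := q1.2 c1
    have d2 : x' ≠ (j, b) := fun h => (q2.1 h) c2
    constructor
    · intro h; exact absurd h (hT x x' d1 d2).1
    · intro h; exact absurd h (hT t' t c2 c1).2
  · have d1 : x = (j, b) := q1.2 c1
    have d2 : x' = (j, b) := q2.2 c2
    have htt : eT (bar t) (bar t') := by
      refine RtQ2_nbrT E h5 (u := (j, b)) hj0 (hbb b) n2.symm e2 n4.symm e4 ?_ ?_
      · rw [ne_eq, bar_inj]; exact c1
      · rw [ne_eq, bar_inj]; exact c2
    refine ⟨fun _ => ?_, fun _ => Or.inl (d1.trans d2.symm)⟩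
    rcases htt with h | ⟨h, h'⟩
    · exact Or.inl (bar_inj.1 h)
    · exact Or.inr ⟨h, h'⟩

theorem cx_detL {n : ℕ} {Q : Fin 3 → Bool} {M : Fin 3 → Prop} {Ω : CC} {i : Fin 3}
    (B : BQ n PN Q Ω) (h : CX n Q M Ω i) (hF : Full n (sq Q Ω)) (b : Bool) :
    DetL (sq Q Ω) (i, b) := by
  have E := pn_eq3 B.e
  rcases h with ⟨h1, -⟩ | ⟨-, h1⟩
  · exact sq_detL E hF h1 (bq_e0 B h1) (bq_e1 B h1) b
  · have h2 := h1 Ω (SQ_refl M Ω)
    cases b
    · have h3 := crs_bar h2
      exact det_full E hF h3
    · exact det_full E hF h2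

theorem cx_detT {n : ℕ} {Q : Fin 3 → Bool} {M : Fin 3 → Prop} {Ω : CC} {i : Fin 3}
    (B : BQ n PN Q Ω) (h : CX n Q M Ω i) (hi : i ≠ 0) (hT : NC n (sq Q Ω) (PrC 0))
    (hu : ¬ VX n (sq Q Ω) (PrC 0)) (h5 : Five n (sq Q Ω)) (b : Bool) :
    DetT (sq Q Ω) (i, b) := by
  have E := pn_eq3 B.e
  rcases h with ⟨h1, -⟩ | ⟨-, h1⟩
  · exact sq_detT E h5 h1 hi (bq_e0 B h1) (bq_e1 B h1) b
  · have h2 := h1 Ω (SQ_refl M Ω)
    cases b
    · have h3 := crs_bar h2
      exact det_five E h5 hT hu hi h3
    · exact det_five E h5 hT hu hi h2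

end Pool.Agent.Sims
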