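import Pool.Agent.Sims.RtQ3
import Pool.Agent.Sims.EvC3
import Pool.Agent.Sims.EvPatE
import Pool.Agent.Sims.EvPatT
import Pool.Agent.Sims.EvEU

/-!
# Module `RtQ4` : structure of `SQ PN Q (· ≠ 0) Ω` and of `SQ PN Q ⊤ Ω`

* `q_three`: `E := pn_eq3 B.e`; `e_tri`.
  - Full: `cx_detL` for the letters of generators 1, 2; `pat_full`: `port`, `π` with `Cons port π`, `Pat port π (sq Q Ω)`.  For `Ω' ∈ SQ PN Q (· ≠ 0) Ω`: `sq Q Ω' ∈ EM (· ≠ 0) (sq Q Ω)` (`pn_sq`), `evc3_pat`: `Pat port π (sq Q Ω')`, `pat_sq` (`pn_pos`; `n ≥ 4`, so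
    the two counts are positive): `Pat port π Ω'`.
  - `UU x`: `eu`: `Cov (EM (· ≠ 0) (sq Q Ω)) 9` with a finite set `F`; the classes `Ω'` inject into it: `sq Q Ω' ∈ F` and `pw_inj` (all counts positive, `pn_pos`): `Cov (SQ PN Q (· ≠ 0) Ω) 9` (choose for each element of `F` at most one `Ω'`).
  - Five: `cx_detT` for generators 1, 2, `pat_five`: `sq Q Ω = mk (gT j g)`; `evc3_five` for `sq Q Ω'`; `gT_sq` (`j ≠ []` since `2 * j.length = n ≥ 4`).
* `q_pow`: all generators are crossed (`Q 2 = true`).  For `Ω' ∈ SQ PN Q ⊤ Ω`: `cx_mem`, `e_star`, `cx_detL` for all letters, `pow_full`: `sq Q Ω' = cls (v^h)`, `2 h = n`, `v.length = 6`, all counts 2.  `CR (v^h)`: its length `6 h = 3 n` is the cyclic length of its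
  class (`cycLen_eq_sum`, counts `n`), and a word of minimal length in its conjugacy class is cyclically reduced (otherwise free or cyclic reduction gives a shorter word with the same class; compare with the cyclically reduced representative).  `pow_sq` (`bq_e0`).
* `cov_pw`: the injection argument: `Cov T N`, `∀ Ω' ∈ S, sq Q Ω' ∈ T`, all counts of classes of `S` positive: `Cov S N`.
Difficulty 3.
-/

namespace Pool.Agent.Sims

theorem RtQ4_ge (Q : Fin 3 → Bool) (i : Fin 3) : 1 ≤ (if Q i then 2 else 1 : ℕ) := by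
  split <;> norm_num

theorem cov_pw {Q : Fin 3 → Bool} {S T : Set CC} {N : ℕ} (hT : Cov T N)
    (h : ∀ Ω ∈ S, sq Q Ω ∈ T ∧ ∀ i, 0 < cnt Ω i) : Cov S N := by
  classical
  obtain ⟨F, hF, hF'⟩ := hT
  let g : CC → CC := fun W => if hW : ∃ Ω ∈ S, sq Q Ω = W then hW.choose else W
  refine ⟨F.image g, Finset.card_image_le.trans hF, ?_⟩
  intro Ω hΩ
  rw [Finset.mem_image]
  refine ⟨sq Q Ω, hF' _ (h Ω hΩ).1, ?_⟩
  have hex : ∃ Ω' ∈ S, sq Q Ω' = sq Q Ω := ⟨Ω, hΩ, rfl⟩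
  have h1 : g (sq Q Ω) = hex.choose := dif_pos hex
  rw [h1]
  obtain ⟨h2, h3⟩ := hex.choose_spec
  exact pw_inj (RtQ4_ge Q) (h _ h2).2 (h Ω hΩ).2 h3

theorem RtQ4_red {w : List (Fin 3 × Bool)} (h : cycLen (cls w) = w.length) : CR w := by
  have h1 : cycLen (cls w) ≤ (FreeGroup.mk w).norm := cycLen_le_norm _
  have h2 : (FreeGroup.mk w).norm = (FreeGroup.reduce w).length := rfl
  have h3 : FreeGroup.Red w (FreeGroup.reduce w) := FreeGroup.reduce.red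
  have h4 : FreeGroup.reduce w = w := by
    rcases Relation.ReflTransGen.cases_head h3 with h5 | ⟨w', h5, h6⟩
    · exact h5.symm
    · exfalso
      have h7 := FreeGroup.Red.Step.length h5
      obtain ⟨k, h8⟩ := FreeGroup.Red.length h6
      omega
  have h5 : (FreeGroup.mk w).toWord = w := h4
  have h6 := (CR_iff_norm (FreeGroup.mk w)).2 ?_
  · rwa [h5] at h6
  · rw [h2, h4]
    exact h.symm

theorem q_three {n : ℕ} {Q : Fin 3 → Bool} {Ω : CC} (B : BQ n PN Q Ω) (hQ0 : Q 0 = false)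
    (h1 : CX n Q (fun i => i ≠ 0) Ω 1) (h2 : CX n Q (fun i => i ≠ 0) Ω 2) :
    (∃ (port : Bool → Bool → Bool) (π : List (Bool × Bool)), Cons port π ∧
      2 * π.countP (fun t => t.1) = n ∧ 2 * π.countP (fun t => !t.1) = n ∧
      ∀ Ω' ∈ SQ PN Q (fun i => i ≠ 0) Ω, Pat port π Ω') ∨
    Cov (SQ PN Q (fun i => i ≠ 0) Ω) 9 ∨
    ∃ j : List (ℤ × Bool), 2 * j.length = n ∧ (∀ t ∈ j, t.1 ≠ 0) ∧
      ∀ Ω' ∈ SQ PN Q (fun i => i ≠ 0) Ω, ∃ g : FreeGroup (Fin 3), In12 g ∧ g ≠ 1 ∧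
        Ω' = ConjClasses.mk (gT j g) := by
  have E : Eq3 n (sq Q Ω) := pn_eq3 B.e
  have h4 := E.h4
  have hcx : ∀ i : Fin 3, i ≠ 0 → CX n Q (fun i => i ≠ 0) Ω i := by
    intro i hi
    fin_cases i
    · exact absurd rfl hi
    · exact h1
    · exact h2
  rcases e_tri B h1 h2 with hF | ⟨x, hx, hU, hu⟩ | ⟨hT, hu, h5⟩
  · left
    obtain ⟨port, π, hcons, k1, k2, hP⟩ := pat_full E hF
      (fun y hy => cx_detL B (hcx y.1 hy) hF y.2)
    refine ⟨port, π, hcons, k1, k2, ?_⟩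
    intro Ω' hΩ'
    obtain ⟨B', hm⟩ := pn_sq B hΩ'
    exact pat_sq hcons (by omega) (by omega) hQ0 (pn_pos B') (evc3_pat hcons hP hm)
  · right; left
    refine cov_pw (Q := Q) (eu E hx hU hu) ?_
    intro Ω' hΩ'
    obtain ⟨B', hm⟩ := pn_sq B hΩ'
    exact ⟨hm, pn_pos B'⟩
  · right; right
    obtain ⟨j, g, hl, hj, hg, hg1, hV⟩ := pat_five E h5
      (fun y hy => cx_detT B (hcx y.1 hy) hy hT hu h5 y.2)
    refine ⟨j, hl, hj, ?_⟩
    intro Ω' hΩ'
    obtain ⟨B', hm⟩ := pn_sq B hΩ'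
    obtain ⟨-, -, g', hg', hg1', hW'⟩ := evc3_five E hT hu hg hg1 hV hm
    have hne : j ≠ [] := by
      rintro rfl
      simp at hl
      omega
    exact gT_sq hj hne hQ0 (pn_pos B') hg' hg1' hW'

theorem q_pow {n : ℕ} {Q : Fin 3 → Bool} {Ω : CC} (B : BQ n PN Q Ω) (hQ2 : Q 2 = true)
    (h : ∀ i, CX n Q (fun _ => True) Ω i) :
    ∀ Ω' ∈ SQ PN Q (fun _ => True) Ω, ∃ (v : List (Fin 3 × Bool)) (h : ℕ), 2 * h = n ∧
      (∀ i, cntL v i = if Q i = true then 1 else 2) ∧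
      Ω' = cls (List.replicate h v).flatten := by
  intro Ω' hΩ'
  obtain ⟨B', -⟩ := pn_sq B hΩ'
  have E : Eq3 n (sq Q Ω') := pn_eq3 B'.e
  have h4 := E.h4
  have h' : ∀ i, CX n Q (fun _ => True) Ω' i := fun i => cx_mem B (h i) hΩ'
  have hF : Full n (sq Q Ω') := e_star B' ⟨2, hQ2⟩ h'
  obtain ⟨v, k, hv6, hv2, hk, hV⟩ := pow_full E hF (fun y => cx_detL B' (h' y.1) hF y.2)
  have hlen : cycLen (sq Q Ω') = 3 * n := by
    rw [cycLen_eq_sum, Fin.sum_univ_three, E.c 0, E.c 1, E.c 2]; ring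
  have hlen2 : (List.replicate k v).flatten.length = 3 * n := by
    rw [List.length_flatten, List.map_replicate, List.sum_replicate, hv6, smul_eq_mul]
    omega
  have hCR : CR (List.replicate k v).flatten := by
    apply RtQ4_red
    rw [← hV, hlen, hlen2]
  obtain ⟨v', h5, h6⟩ := pow_sq hQ2 (pn_pos B') (bq_e0 B' hQ2) (by omega : 1 ≤ k) hv6 hv2 hCR hV
  exact ⟨v', k, hk, h5, h6⟩

end Pool.Agent.Sims
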