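import Pool.Agent.Sims.RtQ4
import Pool.Agent.Sims.EvCt
import Pool.Agent.Sims.EvN6

/-!
# Module `RtQ5` : counting the patterns, square letter `c`

`Fl0 σ` : `σ` is a sign change of `b` and `c` (`σ.perm = 1`, `σ.sign 0 = true`), so `Fix0 σ` and `Fix2 σ`.
* `ct24`: `V = mk (gw port g π)`; `pat_cnt` for `i = 1, 2`: with `h = n/2 > 0`: `h (cntL (g true).toWord i + cntL (g false).toWord i) = cnt V i`, so the word `u = (g true).toWord ++ (g false).toWord` has exactly 3 letters (no 0-letter, `In12`), two of generator 1,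
  one of generator 2.  Let `l ≤ 3` be the length of `(g true).toWord`.  After a flip the letter of generator 2 and the first letter of generator 1 are positive (`pat_tau`; `(τ.aut g).toWord` is the word with letters mapped by `τ.letter`): `u` is one of
  6 words (3 positions of `c`, 2 signs of the second `b`), 4 values of `l`: 24 classes `mk (gw port (fun k => mk (take/drop l u)) π)`.
* `ctT6`: `gT_cnt`: `g.toWord` has two letters of generator 1, one of generator 2: 6 words up to flips (`gT_tau`).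
* `ctP12`: `V = cls (v^h)`, `v` with two letters of generator 0, two of generator 1, one of generator 2.  Rotate `v` (the class of `v^h` does not change): `v = c^{±} x1 x2 x3 x4`; up to signed permutations `σ` with `Fix2 σ` (exchange of `a`, `b`, signs): `c`, `x1 = a`, the
  first letter of generator 1 is positive: 12 words (position and sign of the other `a`-letter: 3 * 2, sign of the second `b`-letter: 2).  `act σ.aut (cls w) = cls (w.map σ.letter)`; `EvN6_flat`.  The number `h` is determined by `n` (`2 h = n`).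
Difficulty 3.
-/

namespace Pool.Agent.Sims

/-- sign changes of `b` and `c` -/
def Fl0 (σ : SPerm (Fin 3)) : Prop := σ.perm = 1 ∧ σ.sign 0 = true

/-- cover up to sign changes of `b` and `c` -/
def CovFl (S : Set CC) (N : ℕ) : Prop := ∃ F : Finset CC, F.card ≤ N ∧
  ∀ W ∈ S, ∃ σ : SPerm (Fin 3), Fl0 σ ∧ ∃ e ∈ F, W = act σ.aut e

/-- the six normal forms with two letters `b`, one letter `c` -/
def RtQ5_F3 : Finset (List (Fin 3 × Bool)) :=
  {[(1, true), (1, true), (2, true)], [(1, true), (1, false), (2, true)],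
    [(1, true), (2, true), (1, true)], [(1, true), (2, true), (1, false)],
    [(2, true), (1, true), (1, true)], [(2, true), (1, true), (1, false)]}

theorem RtQ5_fl (s1 s2 : Bool) : Fl0 (EvN4_sp true s1 s2) := by
  refine ⟨rfl, rfl⟩

theorem RtQ5_fix {σ : SPerm (Fin 3)} (h : Fl0 σ) : Fix0 σ := by
  refine ⟨?_, h.2⟩
  rw [h.1]
  rfl

theorem RtQ5_check3 : ∀ a b c : Fin 3 × Bool, cntL [a, b, c] 0 = 0 → cntL [a, b, c] 1 = 2 →
    cntL [a, b, c] 2 = 1 → ∃ p s1 s2 : Bool, ∃ u0 ∈ RtQ5_F3,
      p = true ∧ [a, b, c] = u0.map (EvN4_sp p s1 s2).letter := by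
  decide +kernel

theorem RtQ5_norm3 : RtQ5_F3.card ≤ 6 ∧
    ∀ u : List (Fin 3 × Bool), cntL u 0 = 0 → cntL u 1 = 2 → cntL u 2 = 1 →
      ∃ τ : SPerm (Fin 3), Fl0 τ ∧ ∃ u0 ∈ RtQ5_F3, u = u0.map τ.letter := by
  refine ⟨by decide, ?_⟩
  intro u h0 h1 h2
  have hl : u.length = 3 := by rw [EvN4_len, h0, h1, h2]
  match u, hl with
  | [a, b, c], _ =>
    obtain ⟨p, s1, s2, u0, hu0, rfl, h⟩ := RtQ5_check3 a b c h0 h1 h2
    exact ⟨EvN4_sp true s1 s2, RtQ5_fl s1 s2, u0, hu0, h⟩

theorem ct24 {n : ℕ} (hn : 0 < n) {port : Bool → Bool → Bool} {π : List (Bool × Bool)}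
    (hc : Cons port π) (h1 : 2 * π.countP (fun t => t.1) = n)
    (h2 : 2 * π.countP (fun t => !t.1) = n) :
    CovFl {V | Pat port π V ∧ cnt V 1 = n ∧ 2 * cnt V 2 = n} 24 := by
  classical
  obtain ⟨hF, h⟩ := RtQ5_norm3
  refine ⟨(RtQ5_F3 ×ˢ Finset.range 4).image (fun q => ConjClasses.mk (gw port
    (fun k => FreeGroup.mk (if k then q.1.take q.2 else q.1.drop q.2)) π)), ?_, ?_⟩
  · refine Finset.card_image_le.trans ?_
    rw [Finset.card_product, Finset.card_range]
    omega
  · rintro V ⟨⟨g, hg, hg1, rfl⟩, hb, hcc⟩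
    set m := π.countP (fun t => t.1) with hm
    have h2' : π.countP (fun t => !t.1) = m := by omega
    have hpos : 0 < m := by omega
    have key1 : cntL ((g true).toWord ++ (g false).toWord) 1 = 2 := by
      rw [pat_cnt hc hg hg1 (by decide), h2', ← hm, ← Nat.mul_add, ← h1, mul_comm 2 m] at hb
      rw [EvCt_append]
      exact Nat.eq_of_mul_eq_mul_left hpos hb
    have key2 : cntL ((g true).toWord ++ (g false).toWord) 2 = 1 := by
      rw [pat_cnt hc hg hg1 (by decide), h2', ← hm, ← Nat.mul_add, ← h1] at hcc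
      rw [EvCt_append]
      have h3 := Nat.eq_of_mul_eq_mul_left (show 0 < 2 by decide) hcc
      exact Nat.eq_of_mul_eq_mul_left hpos (h3.trans (mul_one m).symm)
    have key0 : cntL ((g true).toWord ++ (g false).toWord) 0 = 0 := by
      rw [EvCt_append, EvCt_zero (hg true), EvCt_zero (hg false)]
    obtain ⟨τ, hτ, u0, hu0, hu⟩ := h _ key0 key1 key2
    have hlen : ((g true).toWord ++ (g false).toWord).length = 3 := by
      rw [EvCt_length, key0, key1, key2]
    rw [List.length_append] at hlen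
    have ht : (g true).toWord = (u0.take (g true).toWord.length).map τ.letter := by
      rw [List.map_take, ← hu, List.take_left]
    have hf : (g false).toWord = (u0.drop (g true).toWord.length).map τ.letter := by
      rw [List.map_drop, ← hu, List.drop_left]
    have hmem : (u0, (g true).toWord.length) ∈ RtQ5_F3 ×ˢ Finset.range 4 :=
      Finset.mem_product.2 ⟨hu0, Finset.mem_range.2
        (show (g true).toWord.length < 4 by omega)⟩
    refine ⟨τ, hτ, _, Finset.mem_image_of_mem _ hmem, ?_⟩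
    rw [pat_tau τ (RtQ5_fix hτ)]
    have hfun : (fun k => τ.aut (FreeGroup.mk (if k = true then
        (u0, (g true).toWord.length).1.take (u0, (g true).toWord.length).2
        else (u0, (g true).toWord.length).1.drop (u0, (g true).toWord.length).2))) = g := by
      funext k
      cases k
      · rw [if_neg (by decide)]
        exact (EvCt_aut τ _ _ hf).symm
      · rw [if_pos rfl]
        exact (EvCt_aut τ _ _ ht).symm
    rw [hfun]

theorem ctT6 {n : ℕ} (hn : 0 < n) {j : List (ℤ × Bool)} (hj : ∀ t ∈ j, t.1 ≠ 0)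
    (hl : 2 * j.length = n) :
    CovFl {V | (∃ g : FreeGroup (Fin 3), In12 g ∧ g ≠ 1 ∧ V = ConjClasses.mk (gT j g)) ∧
      cnt V 1 = n ∧ 2 * cnt V 2 = n} 6 := by
  classical
  obtain ⟨hF, h⟩ := RtQ5_norm3
  refine ⟨RtQ5_F3.image (fun u => ConjClasses.mk (gT j (FreeGroup.mk u))),
    Finset.card_image_le.trans hF, ?_⟩
  rintro V ⟨⟨g, hg, hg1, rfl⟩, hb, hcc⟩
  have hpos : 0 < j.length := by omega
  have key1 : cntL g.toWord 1 = 2 := by
    rw [gT_cnt hj hg hg1 (by decide), ← hl, mul_comm 2] at hb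
    exact Nat.eq_of_mul_eq_mul_left hpos hb
  have key2 : cntL g.toWord 2 = 1 := by
    rw [gT_cnt hj hg hg1 (by decide), ← hl] at hcc
    have h3 := Nat.eq_of_mul_eq_mul_left (show 0 < 2 by decide) hcc
    exact Nat.eq_of_mul_eq_mul_left hpos (h3.trans (mul_one _).symm)
  obtain ⟨τ, hτ, u0, hu0, hu⟩ := h g.toWord (EvCt_zero hg) key1 key2
  refine ⟨τ, hτ, _, Finset.mem_image_of_mem _ hu0, ?_⟩
  rw [gT_tau τ (RtQ5_fix hτ), ← EvCt_aut τ u0 g hu]

/-- the signed permutations which fix `c` up to sign -/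
def RtQ5_sp (p s0 s1 s2 : Bool) : SPerm (Fin 3) :=
  ⟨if p then 1 else Equiv.swap 0 1, fun i => if i = 0 then s0 else if i = 1 then s1 else s2⟩

theorem RtQ5_fix2 (p s0 s1 s2 : Bool) : Fix2 (RtQ5_sp p s0 s1 s2) := by
  revert p s0 s1 s2
  unfold Fix2
  decide

/-- the twelve normal forms with two letters `a`, two letters `b`, one letter `c` -/
def RtQ5_F12 : Finset (List (Fin 3 × Bool)) :=
  {[(2, true), (0, true), (0, true), (1, true), (1, true)],
    [(2, true), (0, true), (0, true), (1, true), (1, false)],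
    [(2, true), (0, true), (0, false), (1, true), (1, true)],
    [(2, true), (0, true), (0, false), (1, true), (1, false)],
    [(2, true), (0, true), (1, true), (0, true), (1, true)],
    [(2, true), (0, true), (1, true), (0, true), (1, false)],
    [(2, true), (0, true), (1, true), (0, false), (1, true)],
    [(2, true), (0, true), (1, true), (0, false), (1, false)],
    [(2, true), (0, true), (1, true), (1, true), (0, true)],
    [(2, true), (0, true), (1, true), (1, true), (0, false)],
    [(2, true), (0, true), (1, true), (1, false), (0, true)],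
    [(2, true), (0, true), (1, true), (1, false), (0, false)]}

theorem RtQ5_check12 : ∀ s : Bool, ∀ a b c d : Fin 3 × Bool, cntL [a, b, c, d] 0 = 2 →
    cntL [a, b, c, d] 1 = 2 → cntL [a, b, c, d] 2 = 0 → ∃ p s0 s1 : Bool, ∃ u0 ∈ RtQ5_F12,
      (2, s) :: [a, b, c, d] = u0.map (RtQ5_sp p s0 s1 s).letter := by
  decide +kernel

theorem RtQ5_rot (h : ℕ) (u v : List (Fin 3 × Bool)) :
    cls (List.replicate h (u ++ v)).flatten = cls (List.replicate h (v ++ u)).flatten := by
  have key : ∀ (h : ℕ) (w : List (Fin 3 × Bool)),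
      FreeGroup.mk (List.replicate h w).flatten = (FreeGroup.mk w) ^ h := by
    intro h w
    induction h with
    | zero => simp [FreeGroup.one_eq_mk]
    | succ h ih =>
      rw [List.replicate_succ, List.flatten_cons, ← FreeGroup.mul_mk, ih, pow_succ']
  unfold cls
  rw [key, key, ConjClasses.mk_eq_mk_iff_isConj]
  have h1 : IsConj (FreeGroup.mk (u ++ v)) (FreeGroup.mk (v ++ u)) := by
    rw [← FreeGroup.mul_mk, ← FreeGroup.mul_mk, isConj_iff]
    refine ⟨(FreeGroup.mk u)⁻¹, ?_⟩
    group
  rw [isConj_iff] at h1 ⊢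
  obtain ⟨c, hc⟩ := h1
  refine ⟨c, ?_⟩
  rw [← hc, conj_pow]

theorem RtQ5_head (v : List (Fin 3 × Bool)) (h : cntL v 2 = 1) :
    ∃ (s t : List (Fin 3 × Bool)) (b : Bool), v = s ++ (2, b) :: t := by
  have h1 : 0 < v.countP (fun x => decide (x.1 = 2)) := by
    have : v.countP (fun x => decide (x.1 = 2)) = 1 := h
    omega
  obtain ⟨a, ha, hp⟩ := List.countP_pos_iff.1 h1
  obtain ⟨s, t, rfl⟩ := List.append_of_mem ha
  have hp' : a.1 = 2 := by simpa using hp
  refine ⟨s, t, a.2, ?_⟩
  rw [← hp']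

theorem ctP12 (n : ℕ) : CovF2 {V | ∃ (v : List (Fin 3 × Bool)) (h : ℕ), 2 * h = n ∧
    cntL v 0 = 2 ∧ cntL v 1 = 2 ∧ cntL v 2 = 1 ∧ V = cls (List.replicate h v).flatten} 12 := by
  classical
  refine ⟨RtQ5_F12.image (fun v => cls (List.replicate (n / 2) v).flatten),
    Finset.card_image_le.trans (by decide), ?_⟩
  rintro V ⟨v, h, hn, h0, h1, h2, rfl⟩
  have hh : h = n / 2 := by omega
  obtain ⟨s, t, b, rfl⟩ := RtQ5_head v h2
  have e0 : cntL (t ++ s) 0 = 2 := by
    unfold cntL at h0 ⊢
    rw [List.countP_append, List.countP_cons] at h0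
    rw [List.countP_append]
    simp at h0 ⊢
    omega
  have e1 : cntL (t ++ s) 1 = 2 := by
    unfold cntL at h1 ⊢
    rw [List.countP_append, List.countP_cons] at h1
    rw [List.countP_append]
    simp at h1 ⊢
    omega
  have e2 : cntL (t ++ s) 2 = 0 := by
    unfold cntL at h2 ⊢
    rw [List.countP_append, List.countP_cons] at h2
    rw [List.countP_append]
    simp at h2
    omega
  have hl : (t ++ s).length = 4 := by rw [EvCt_length, e0, e1, e2]
  have hrot : cls (List.replicate h (s ++ (2, b) :: t)).flatten =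
      cls (List.replicate h ((2, b) :: (t ++ s))).flatten := by
    rw [RtQ5_rot, List.cons_append]
  rw [hrot]
  generalize t ++ s = w at *
  match w, hl with
  | [x, y, z, r], _ =>
    obtain ⟨p, s0, s1, u0, hu0, hu⟩ := RtQ5_check12 b x y z r e0 e1 e2
    refine ⟨RtQ5_sp p s0 s1 b, RtQ5_fix2 p s0 s1 b, _, Finset.mem_image_of_mem _ hu0, ?_⟩
    rw [hu, EvN6_flat, Rel_act_cls, hh]

end Pool.Agent.Sims
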