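import Pool.Agent.Sims.RtTr
import Pool.Agent.Sims.TwUp

/-!
# Module `RtTri` : port of `EvTri`
-/

namespace Pool.Agent.Sims

namespace Pw

open FreeGroup (of)

variable {P : Fin 3 → Prop}

theorem tri_up {n : ℕ} {V : CC} (E : EqP n P V) {z : Fin 3 × Bool} {A A' : Ct} (hA : LP P V z A)
    (hA' : LP P V z A') (hn' : Ntr A') (hsub : ∀ x, A x = true → A' x = true)
    (h : VP n P (act (wh z A) V) (stc A z)) : VP n P (act (wh z A') V) (stc A' z) := by
  obtain ⟨hB', hV⟩ := TwUp_nest_Lv (LP_Lv hA) (LP_Lv hA') hsub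
  have hB : LP P (act (wh z A) V) z (fun x => (A' x && !A x) || decide (x = z)) := by
    refine ⟨hB'.1, hB'.2.1, hB'.2.2, ?_⟩
    intro i hi
    have n1 := fun b => (P_ne (LP_fst hA) hi b).1
    simp [n1, hA.2.2.2 i hi, hA'.2.2.2 i hi]
  have hQ : NP n P (act (wh z A) V) (stc A z) := ((Lv_NC (E.lv hA)).1 (Lv_inv hA).1).2.2
  have hz : z ≠ bar z := fun h => bar_ne z h.symm
  have hz' : bar z ≠ z := bar_ne z
  have hd : ∀ x, stc A z x = true → (fun x => (A' x && !A x) || decide (x = z)) x = false := by
    intro x hx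
    by_cases h1 : x = z
    · subst h1
      simp [stc, hz] at hx
    · by_cases h2 : x = bar z
      · subst h2
        simp [hz', hA'.2.1]
      · simp [stc, h1, h2] at hx
        simp [h1, hx]
  have hne : ∃ x, stc A z x = false ∧
      (fun x => (A' x && !A x) || decide (x = z)) x = false := by
    obtain ⟨-, w1, w2, hw, e1, e2⟩ := hn'
    obtain ⟨w, e, hwz⟩ : ∃ w, A' w = false ∧ w ≠ bar z := by
      by_cases h1 : w1 = bar z
      · exact ⟨w2, e2, fun h => hw (h1.trans h.symm)⟩
      · exact ⟨w1, e1, h1⟩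
    have e3 : w ≠ z := by
      rintro rfl
      rw [hA'.1] at e
      exact absurd e (by decide)
    have e4 : A w = false := by
      by_contra hc
      rw [hsub w (by simpa using hc)] at e
      exact absurd e (by decide)
    exact ⟨w, by simp [stc, e4, hwz], by simp [e, e3]⟩
  have h1 := trX (E.lv hA) hQ hB hd hne h
  rw [← hV] at h1
  refine (VX_congr (fun x => ?_)).1 h1
  have hb : stc A z (bar z) = true := by simp [stc]
  unfold tp
  rw [hb]
  by_cases h1 : x = z
  · subst h1
    simp [stc, hz]
  · by_cases h2 : x = bar z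
    · subst h2
      simp [stc]
    · have hs := hsub x
      simp only [stc, h1, h2, ne_eq, not_false_eq_true, decide_true, decide_false, Bool.and_true,
        Bool.or_false, Bool.true_and]
      revert hs
      cases A x <;> cases A' x <;> decide

theorem tri_down {n : ℕ} {V : CC} (E : EqP n P V) {z : Fin 3 × Bool} {A A' : Ct} (hA : LP P V z A)
    (hn : Ntr A) (hA' : LP P V z A') (hsub : ∀ x, A x = true → A' x = true)
    (h : VP n P (act (wh z A') V) (stc A' z)) : VP n P (act (wh z A) V) (stc A z) := by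
  obtain ⟨h1, h2⟩ := Lv_compl hA
  obtain ⟨h3, h4⟩ := Lv_compl hA'
  have h5 := tri_up E h3 h1 (Ntr_compl hn) (by
    intro x hx
    have hs := hsub x
    revert hs hx
    cases A x <;> cases A' x <;> decide) (by
    rw [h4]
    refine (VX_congr (fun x => ?_)).1 (VX_compl.2 h)
    exact (stc_compl x).symm)
  rw [h2] at h5
  refine VX_compl.1 ((VX_congr (fun x => ?_)).1 h5)
  exact stc_compl x

end Pw

end Pool.Agent.Sims
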