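import Pool.Agent.Sims.In12B
import Pool.Agent.Sims.EdgeM

/-!
# Module `SameA` : words with exactly two letters `a^{±1}`

Let `G, H` be the reduced words of `g, h ∈ ⟨b,c⟩`.
* `same_word`: `a G a H` is cyclically reduced (adjacent letters: inside `G`, `H` reduced; `a` next to a letter
  of `G`, `H` or next to `a`), so it represents `same g h`; lengths, counts and capacities can be read off
  (`cycLen_cls`, `cnt_cls`, `capC_cls`).
* `opp_word`: the same for `a G a⁻¹ H` if `G, H ≠ []`.
* `exists_form`: let `cnt c 0 = 2`; rotate `rep c` so that it starts with `a^{±1}`: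
  `rep c ~r a^ε G a^{ε'} H` with `G, H` words without `a^{±1}` (split the list at the second letter `a^{±1}`).
  `ε = ε' = 1`: `c = same`; `ε = ε' = -1`: apply the sign change of `a`; `ε = 1, ε' = -1`: `c = opp G H`, and
  `G, H ≠ []` because the word is cyclically reduced; `ε = -1, ε' = 1`: rotate.
Difficulty 2.
-/

namespace Pool.Agent.Sims

open FreeGroup (of)

theorem SameA_last {G : List (Fin 3 × Bool)} (hG0 : ∀ x ∈ G, x.1 ≠ 0) (ε ε' : Bool)
    (h : ε = ε' ∨ G ≠ []) : ∀ a ∈ ((0, ε) :: G : List (Fin 3 × Bool)).getLast?,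
      a.1 = ((0, ε') : Fin 3 × Bool).1 → a.2 = ((0, ε') : Fin 3 × Bool).2 := by
  intro a ha h0
  rcases List.eq_nil_or_concat G with hG | ⟨G', b, hG⟩
  · rw [hG] at ha
    rw [List.getLast?_singleton] at ha
    have ha' : a = (0, ε) := by simpa using ha.symm
    rcases h with h | h
    · rw [ha', h]
    · exact absurd hG h
  · have hb : a = b := by
      rw [hG, List.concat_eq_append, ← List.cons_append,
        List.getLast?_append_of_ne_nil _ (by simp), List.getLast?_singleton] at ha
      simpa using ha.symm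
    have hbG : b ∈ G := by rw [hG]; simp
    exact absurd (hb ▸ h0) (hG0 b hbG)

theorem SameA_cons {G : List (Fin 3 × Bool)} (hG : FreeGroup.IsReduced G)
    (hG0 : ∀ x ∈ G, x.1 ≠ 0) (ε : Bool) :
    FreeGroup.IsReduced ((0, ε) :: G : List (Fin 3 × Bool)) := by
  unfold FreeGroup.IsReduced
  rw [List.isChain_cons]
  refine ⟨?_, hG⟩
  intro y hy h0
  have hyG : y ∈ G := List.mem_of_mem_head? hy
  exact absurd h0.symm (hG0 y hyG)

theorem SameA_CR {G H : List (Fin 3 × Bool)} (hG : FreeGroup.IsReduced G)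
    (hH : FreeGroup.IsReduced H) (hG0 : ∀ x ∈ G, x.1 ≠ 0) (hH0 : ∀ x ∈ H, x.1 ≠ 0) (ε : Bool)
    (h : ε = true ∨ (G ≠ [] ∧ H ≠ [])) :
    CR ((0, true) :: (G ++ (0, ε) :: H) : List (Fin 3 × Bool)) := by
  refine ⟨?_, ?_⟩
  · have h1 : FreeGroup.IsReduced (((0, true) :: G) ++ (0, ε) :: H : List (Fin 3 × Bool)) := by
      unfold FreeGroup.IsReduced
      rw [List.isChain_append]
      refine ⟨SameA_cons hG hG0 true, SameA_cons hH hH0 ε, ?_⟩
      intro a ha b hb
      have hb' : b = (0, ε) := by simpa using hb.symm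
      rw [hb']
      refine SameA_last hG0 true ε ?_ a ha
      rcases h with h | h
      · left; exact h.symm
      · right; exact h.1
    simpa using h1
  · intro a ha b hb
    have hb' : b = (0, true) := by simpa using hb.symm
    have ha' : a ∈ ((0, ε) :: H : List (Fin 3 × Bool)).getLast? := by
      rw [← List.cons_append, List.getLast?_append_of_ne_nil _ (by simp)] at ha
      exact ha
    rw [hb']
    refine SameA_last hH0 ε true ?_ a ha'
    rcases h with h | h
    · left; exact h
    · right; exact h.2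

theorem SameA_mk (G H : List (Fin 3 × Bool)) (ε : Bool) :
    (FreeGroup.mk ((0, true) :: (G ++ (0, ε) :: H) : List (Fin 3 × Bool))) =
      of 0 * FreeGroup.mk G * lett (0, ε) * FreeGroup.mk H := by
  rw [← lett_true 0, lett, lett, FreeGroup.mul_mk, FreeGroup.mul_mk, FreeGroup.mul_mk]
  simp

theorem SameA_cls (g h : FreeGroup (Fin 3)) (ε : Bool) :
    cls ((0, true) :: (g.toWord ++ (0, ε) :: h.toWord)) =
      ConjClasses.mk (of 0 * g * lett (0, ε) * h) := by
  unfold cls
  rw [SameA_mk, FreeGroup.mk_toWord, FreeGroup.mk_toWord]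

theorem SameA_word_ne {g : FreeGroup (Fin 3)} (hg : g ≠ 1) : g.toWord ≠ [] := by
  intro h
  exact hg (FreeGroup.toWord_eq_nil_iff.1 h)

theorem same_word {g h : FreeGroup (Fin 3)} (hg : In12 g) (hh : In12 h) :
    CR ((0, true) :: (g.toWord ++ (0, true) :: h.toWord)) ∧
      cls ((0, true) :: (g.toWord ++ (0, true) :: h.toWord)) = same g h := by
  refine ⟨SameA_CR FreeGroup.isReduced_toWord FreeGroup.isReduced_toWord hg hh true (Or.inl rfl),
    ?_⟩
  rw [SameA_cls, lett_true]
  rfl

theorem opp_word {g h : FreeGroup (Fin 3)} (hg : In12 g) (hh : In12 h) (hg1 : g ≠ 1)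
    (hh1 : h ≠ 1) :
    CR ((0, true) :: (g.toWord ++ (0, false) :: h.toWord)) ∧
      cls ((0, true) :: (g.toWord ++ (0, false) :: h.toWord)) = opp g h := by
  refine ⟨SameA_CR FreeGroup.isReduced_toWord FreeGroup.isReduced_toWord hg hh false
    (Or.inr ⟨SameA_word_ne hg1, SameA_word_ne hh1⟩), ?_⟩
  rw [SameA_cls, lett_false]
  rfl

theorem SameA_cntL_zero {G : List (Fin 3 × Bool)} (hG0 : ∀ x ∈ G, x.1 ≠ 0) : cntL G 0 = 0 := by
  unfold cntL
  rw [List.countP_eq_zero]
  intro x hx
  simpa using hG0 x hx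

theorem SameA_cntL (G H : List (Fin 3 × Bool)) (ε : Bool) (i : Fin 3) :
    cntL ((0, true) :: (G ++ (0, ε) :: H)) i =
      cntL G i + cntL H i + if i = 0 then 2 else 0 := by
  unfold cntL
  rw [List.countP_cons, List.countP_append, List.countP_cons]
  by_cases hi : i = 0
  · subst hi
    simp
    omega
  · have h0 : ¬ ((0 : Fin 3) = i) := fun h => hi h.symm
    simp [h0, hi]

theorem SameA_len {g h : FreeGroup (Fin 3)} (hg : In12 g) (hh : In12 h) (ε : Bool)
    (hCR : CR ((0, true) :: (g.toWord ++ (0, ε) :: h.toWord))) {c : CC}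
    (hc : cls ((0, true) :: (g.toWord ++ (0, ε) :: h.toWord)) = c) :
    cycLen c = 2 + g.norm + h.norm ∧ cnt c 0 = 2 ∧
      ∀ i, i ≠ 0 → cnt c i = cntL g.toWord i + cntL h.toWord i := by
  rw [← hc]
  refine ⟨?_, ?_, ?_⟩
  · rw [cycLen_cls hCR]
    simp [FreeGroup.norm]
    omega
  · rw [cnt_cls hCR, SameA_cntL, SameA_cntL_zero hg, SameA_cntL_zero hh]
    simp
  · intro i hi
    rw [cnt_cls hCR, SameA_cntL]
    simp [hi]

theorem same_len {g h : FreeGroup (Fin 3)} (hg : In12 g) (hh : In12 h) :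
    cycLen (same g h) = 2 + g.norm + h.norm ∧ cnt (same g h) 0 = 2 ∧
      ∀ i, i ≠ 0 → cnt (same g h) i = cntL g.toWord i + cntL h.toWord i :=
  SameA_len hg hh true (same_word hg hh).1 (same_word hg hh).2

theorem opp_len {g h : FreeGroup (Fin 3)} (hg : In12 g) (hh : In12 h) (hg1 : g ≠ 1)
    (hh1 : h ≠ 1) :
    cycLen (opp g h) = 2 + g.norm + h.norm ∧ cnt (opp g h) 0 = 2 ∧
      ∀ i, i ≠ 0 → cnt (opp g h) i = cntL g.toWord i + cntL h.toWord i :=
  SameA_len hg hh false (opp_word hg hh hg1 hh1).1 (opp_word hg hh hg1 hh1).2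

theorem SameA_split {c : CC} (h : cnt c 0 = 2) : ∃ (ε ε' : Bool) (G H : List (Fin 3 × Bool)),
    (∀ x ∈ G, x.1 ≠ 0) ∧ (∀ x ∈ H, x.1 ≠ 0) ∧ CR ((0, ε) :: (G ++ (0, ε') :: H)) ∧
      cls ((0, ε) :: (G ++ (0, ε') :: H)) = c := by
  have h1 : (rep c).countP (fun x => decide (x.1 = 0)) = 2 := h
  have h2 : ∃ x ∈ rep c, x.1 = 0 := by
    by_contra hne
    push Not at hne
    have : (rep c).countP (fun x => decide (x.1 = 0)) = 0 := by
      rw [List.countP_eq_zero]
      intro x hx
      simpa using hne x hx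
    omega
  obtain ⟨⟨i, ε⟩, hx, hi⟩ := h2
  simp only at hi
  subst hi
  obtain ⟨p, q, hpq⟩ := List.append_of_mem hx
  have hrot : rep c ~r ((0, ε) :: (q ++ p)) := by
    rw [hpq]
    have := List.isRotated_append (l := p) (l' := (0, ε) :: q)
    simpa using this
  have h3 : (q ++ p).countP (fun x => decide (x.1 = 0)) = 1 := by
    have := hrot.perm.countP_eq (fun x => decide (x.1 = 0))
    rw [h1, List.countP_cons] at this
    simp only [decide_true, if_true] at this
    omega
  have h4 : ∃ x ∈ q ++ p, x.1 = 0 := by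
    by_contra hne
    push Not at hne
    have : (q ++ p).countP (fun x => decide (x.1 = 0)) = 0 := by
      rw [List.countP_eq_zero]
      intro x hx
      simpa using hne x hx
    omega
  obtain ⟨⟨j, ε'⟩, hy, hj⟩ := h4
  simp only at hj
  subst hj
  obtain ⟨G, H, hGH⟩ := List.append_of_mem hy
  rw [hGH] at h3 hrot
  rw [List.countP_append, List.countP_cons] at h3
  simp only [decide_true, if_true] at h3
  have hG : G.countP (fun x => decide (x.1 = 0)) = 0 := by omega
  have hH : H.countP (fun x => decide (x.1 = 0)) = 0 := by omega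
  rw [List.countP_eq_zero] at hG hH
  refine ⟨ε, ε', G, H, ?_, ?_, CR_of_rotated hrot (rep_CR c), ?_⟩
  · intro x hx h0
    exact hG x hx (by simpa using h0)
  · intro x hx h0
    exact hH x hx (by simpa using h0)
  · rw [← cls_of_rotated hrot, cls_rep]

theorem SameA_red {G H : List (Fin 3 × Bool)} {ε ε' : Bool}
    (h : CR ((0, ε) :: (G ++ (0, ε') :: H))) : FreeGroup.IsReduced G ∧ FreeGroup.IsReduced H := by
  have h1 : FreeGroup.IsReduced ((0, ε) :: (G ++ (0, ε') :: H)) := h.1
  constructor
  · refine red_mid h1 ?_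
    exact ⟨[(0, ε)], (0, ε') :: H, by simp⟩
  · refine red_mid h1 ?_
    exact ⟨(0, ε) :: (G ++ [(0, ε')]), [], by simp⟩

theorem SameA_ne {G H : List (Fin 3 × Bool)}
    (h : CR ((0, true) :: (G ++ (0, false) :: H))) : G ≠ [] ∧ H ≠ [] := by
  constructor
  · rintro rfl
    have h1 := h.1
    unfold FreeGroup.IsReduced at h1
    simp at h1
  · rintro rfl
    have h1 := h.2
    have h2 := h1 (0, false) (by
      rw [← List.cons_append, List.getLast?_append_of_ne_nil _ (by simp)]
      simp) (0, true) (by simp) rfl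
    simp at h2

theorem SameA_mk_ne {G : List (Fin 3 × Bool)} (hG : FreeGroup.IsReduced G) (h : G ≠ []) :
    FreeGroup.mk G ≠ 1 := by
  intro h1
  have h2 : (FreeGroup.mk G).toWord = [] := by rw [h1, FreeGroup.toWord_one]
  rw [FreeGroup.toWord_mk, hG.reduce_eq] at h2
  exact h h2

theorem exists_form {c : CC} (h : cnt c 0 = 2) :
    (∃ g h, In12 g ∧ In12 h ∧ c = same g h) ∨
    (∃ g h, In12 g ∧ In12 h ∧ act (flp (fun i => decide (i ≠ 0))).aut c = same g h) ∨
    (∃ g h, In12 g ∧ In12 h ∧ g ≠ 1 ∧ h ≠ 1 ∧ c = opp g h) := by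
  obtain ⟨ε, ε', G, H, hG, hH, hCR, hc⟩ := SameA_split h
  have hred := SameA_red hCR
  cases ε
  · cases ε'
    · right; left
      refine ⟨FreeGroup.mk G, FreeGroup.mk H, In12_mk hG, In12_mk hH, ?_⟩
      rw [← hc, act_SPerm_cls]
      have hmap : ∀ L : List (Fin 3 × Bool), (∀ x ∈ L, x.1 ≠ 0) →
          L.map (flp (fun i => decide (i ≠ 0))).letter = L := by
        intro L hL
        conv_rhs => rw [← List.map_id L]
        apply List.map_congr_left
        intro x hx
        have := hL x hx
        simp [SPerm.letter, flp, this]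
      have h0 : (flp (fun i => decide (i ≠ 0))).letter ((0, false) : Fin 3 × Bool) = (0, true) := by
        simp [SPerm.letter, flp]
      rw [List.map_cons, List.map_append, List.map_cons, hmap G hG, hmap H hH, h0]
      unfold cls same
      rw [SameA_mk, lett_true]
    · right; right
      have hrot : ((0, false) :: (G ++ (0, true) :: H) : List (Fin 3 × Bool)) ~r
          ((0, true) :: (H ++ (0, false) :: G)) := by
        have := List.isRotated_append (l := ((0, false) :: G : List (Fin 3 × Bool)))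
          (l' := (0, true) :: H)
        simpa using this
      have hCR' := CR_of_rotated hrot hCR
      have hne := SameA_ne hCR'
      refine ⟨FreeGroup.mk H, FreeGroup.mk G, In12_mk hH, In12_mk hG,
        SameA_mk_ne hred.2 hne.1, SameA_mk_ne hred.1 hne.2, ?_⟩
      rw [← hc, cls_of_rotated hrot]
      unfold cls opp
      rw [SameA_mk, lett_false]
  · cases ε'
    · right; right
      have hne := SameA_ne hCR
      refine ⟨FreeGroup.mk G, FreeGroup.mk H, In12_mk hG, In12_mk hH,
        SameA_mk_ne hred.1 hne.1, SameA_mk_ne hred.2 hne.2, ?_⟩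
      rw [← hc]
      unfold cls opp
      rw [SameA_mk, lett_false]
    · left
      refine ⟨FreeGroup.mk G, FreeGroup.mk H, In12_mk hG, In12_mk hH, ?_⟩
      rw [← hc]
      unfold cls same
      rw [SameA_mk, lett_true]

end Pool.Agent.Sims
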