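import Pool.Agent.Sims.R2A

/-!
# Module `SlideA` : pair slides, patterns 1, 2

For letters `z, y` of the two generators `a, b` (`A, B` stand for `a⁻¹, b⁻¹`) with `capC e (pr z y) = 2`, `pr z y = {z, y}`.
By `wd_cap` (the word is valid, `WV`) each pass `(x_i, x̄_{i+1}, k_i)` contributes `0` if both ends are outside,
`1` if one end is inside, and `2` or (if the exponent is `0`) `0` if both ends are `z, y`.  The four single passes at `z`, `y`
sum to 4, so `capC = 2` iff exactly one pass joining `z` and `y` has exponent `0` (`simp` with `wd_cap` and case splits on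
`k_i = 0`).  This leaves the following cases; in each the class `act (wh z (pr z y)) e` (the automorphism maps `y ↦ y z`
and fixes the other generators; as a letter `y`, so e.g. for `y = B`: `b ↦ z⁻¹ b`) is given after the colon, as the image of
the class under the signed permutation in brackets (all checked by computer):
  W1 k2=0 z=a y=B : W2(k4, k1, k3, 0) [a->b b->a c->c^-1]
  W1 k4=0 z=A y=b : W2(k1, k2, 0, k3) [a->b b->a c->c]
  W1 k4=0 z=b y=A : W2(k2, k3, k1, 0) [a->a b->b c->c^-1]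
  W1 k2=0 z=B y=a : W2(k3, k4, 0, k1) [a->a b->b c->c]
  W2 k3=0 z=a y=b : W2(k1, 0, k2, k4) [a->a b->b c->c]
  W2 k1=0 z=a y=B : W2(k4, k2, k3, 0) [a->a b->b c->c]
  W2 k2=0 z=A y=b : W2(k1, k3, 0, k4) [a->a b->b c->c]
  W2 k4=0 z=A y=B : W2(0, k2, k3, k1) [a->a b->b c->c]
  W2 k3=0 z=b y=a : W1(k4, 0, k1, k2) [a->a b->b c->c]
  W2 k2=0 z=b y=A : W1(k1, k3, k4, 0) [a->a b->b^-1 c->c]
  W2 k1=0 z=B y=a : W1(k2, 0, k3, k4) [a->a b->b^-1 c->c^-1]
  W2 k4=0 z=B y=A : W1(k3, k1, k2, 0) [a->a b->b c->c^-1]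
The invariants (see `R2Defs`) are preserved.
Proof of each line: `wd_mk`, `act_mk`, compute both sides as products in the free group (`wh_lett_self`,
`wh_lett_ne`, the signed permutation on `lett` by `SPerm.hom_lett`), and give a conjugating element (a prefix of the
word; `isConj_iff`, `group`), or manipulate with `wd_rotate`, `wd_SPerm`.
Difficulty 2 (case work).
-/

namespace Pool.Agent.Sims

open FreeGroup (of)

theorem SlideA_whof (z : Fin 3 × Bool) (A : Fin 3 × Bool → Bool) (i : Fin 3) (h : i ≠ z.1)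
    (b1 b2 : Bool) (h1 : A (i, false) = b1) (h2 : A (i, true) = b2) :
    wh z A (of i) = (if b1 then (lett z)⁻¹ else 1) * of i * (if b2 then lett z else 1) := by
  have h3 := wh_lett_ne z A (x := (i, true)) h
  have h4 : bar (i, true) = (i, false) := rfl
  rw [h4, h1, h2, lett_true] at h3
  exact h3

theorem SlideA_whself (z : Fin 3 × Bool) (A : Fin 3 × Bool → Bool) (i : Fin 3) (h : i = z.1) :
    wh z A (of i) = of i := by
  have h3 := Rel_wh_self' z A (x := (i, true)) h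
  rw [lett_true] at h3
  exact h3

theorem SlideA_autof (σ : SPerm (Fin 3)) (i : Fin 3) :
    σ.aut (of i) = lett (σ.perm i, σ.sign i) := by
  have h1 : σ.aut (of i) = σ.hom (lett (i, true)) := rfl
  rw [h1, SPerm.hom_lett]
  have h2 : σ.letter (i, true) = (σ.perm i, σ.sign i) := by
    unfold SPerm.letter
    cases h : σ.sign i <;> simp
  rw [h2]

theorem SlideA_c1 (k1 k3 k4 : ℤ) :
    act (wh (0, true) (pr (0, true) (1, false))) (W1 k1 0 k3 k4) =
      act (SPerm.aut (⟨Equiv.swap 0 1, ![true, true, false]⟩ : SPerm (Fin 3))) (W2 k4 k1 k3 0) := by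
  have hz : wh ((0, true) : Fin 3 × Bool) (pr (0, true) (1, false)) (of 0) = of 0 := SlideA_whself _ _ 0 rfl
  have hy : wh ((0, true) : Fin 3 × Bool) (pr (0, true) (1, false)) (of 1) = (of 0)⁻¹ * of 1 := by
    rw [SlideA_whof (0, true) _ 1 (by decide) true false rfl rfl]
    simp [lett_true, lett_false]
  have hc : wh ((0, true) : Fin 3 × Bool) (pr (0, true) (1, false)) (of 2) = of 2 := by
    rw [SlideA_whof (0, true) _ 2 (by decide) false false rfl rfl]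
    simp
  have s0 : SPerm.aut (⟨Equiv.swap 0 1, ![true, true, false]⟩ : SPerm (Fin 3)) (of 0) = of 1 := by
    rw [SlideA_autof]
    exact lett_true 1
  have s1 : SPerm.aut (⟨Equiv.swap 0 1, ![true, true, false]⟩ : SPerm (Fin 3)) (of 1) = of 0 := by
    rw [SlideA_autof]
    exact lett_true 0
  have s2 : SPerm.aut (⟨Equiv.swap 0 1, ![true, true, false]⟩ : SPerm (Fin 3)) (of 2) = (of 2)⁻¹ := by
    rw [SlideA_autof]
    exact lett_false 2
  simp only [W1, W2, wd_mk, act_mk]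
  simp only [lett_true, lett_false, map_mul, map_inv, map_zpow, hz, hy, hc, s0, s1, s2]
  refine ConjClasses.mk_eq_mk_iff_isConj.2 (isConj_iff.2 ⟨of 1 * of 2 ^ (-k4), ?_⟩)
  group

theorem SlideA_c2 (k1 k2 k3 : ℤ) :
    act (wh (0, false) (pr (0, false) (1, true))) (W1 k1 k2 k3 0) =
      act (SPerm.aut (⟨Equiv.swap 0 1, ![true, true, true]⟩ : SPerm (Fin 3))) (W2 k1 k2 0 k3) := by
  have hz : wh ((0, false) : Fin 3 × Bool) (pr (0, false) (1, true)) (of 0) = of 0 := SlideA_whself _ _ 0 rfl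
  have hy : wh ((0, false) : Fin 3 × Bool) (pr (0, false) (1, true)) (of 1) = of 1 * (of 0)⁻¹ := by
    rw [SlideA_whof (0, false) _ 1 (by decide) false true rfl rfl]
    simp [lett_true, lett_false]
  have hc : wh ((0, false) : Fin 3 × Bool) (pr (0, false) (1, true)) (of 2) = of 2 := by
    rw [SlideA_whof (0, false) _ 2 (by decide) false false rfl rfl]
    simp
  have s0 : SPerm.aut (⟨Equiv.swap 0 1, ![true, true, true]⟩ : SPerm (Fin 3)) (of 0) = of 1 := by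
    rw [SlideA_autof]
    exact lett_true 1
  have s1 : SPerm.aut (⟨Equiv.swap 0 1, ![true, true, true]⟩ : SPerm (Fin 3)) (of 1) = of 0 := by
    rw [SlideA_autof]
    exact lett_true 0
  have s2 : SPerm.aut (⟨Equiv.swap 0 1, ![true, true, true]⟩ : SPerm (Fin 3)) (of 2) = of 2 := by
    rw [SlideA_autof]
    exact lett_true 2
  simp only [W1, W2, wd_mk, act_mk]
  simp only [lett_true, lett_false, map_mul, map_inv, map_zpow, hz, hy, hc, s0, s1, s2]
  refine ConjClasses.mk_eq_mk_iff_isConj.2 (isConj_iff.2 ⟨of 1 * (of 0)⁻¹, ?_⟩)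
  group

theorem SlideA_c3 (k1 k2 k3 : ℤ) :
    act (wh (1, true) (pr (1, true) (0, false))) (W1 k1 k2 k3 0) =
      act (SPerm.aut (⟨Equiv.refl _, ![true, true, false]⟩ : SPerm (Fin 3))) (W2 k2 k3 k1 0) := by
  have hz : wh ((1, true) : Fin 3 × Bool) (pr (1, true) (0, false)) (of 1) = of 1 := SlideA_whself _ _ 1 rfl
  have hy : wh ((1, true) : Fin 3 × Bool) (pr (1, true) (0, false)) (of 0) = (of 1)⁻¹ * of 0 := by
    rw [SlideA_whof (1, true) _ 0 (by decide) true false rfl rfl]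
    simp [lett_true, lett_false]
  have hc : wh ((1, true) : Fin 3 × Bool) (pr (1, true) (0, false)) (of 2) = of 2 := by
    rw [SlideA_whof (1, true) _ 2 (by decide) false false rfl rfl]
    simp
  have s0 : SPerm.aut (⟨Equiv.refl _, ![true, true, false]⟩ : SPerm (Fin 3)) (of 0) = of 0 := by
    rw [SlideA_autof]
    exact lett_true 0
  have s1 : SPerm.aut (⟨Equiv.refl _, ![true, true, false]⟩ : SPerm (Fin 3)) (of 1) = of 1 := by
    rw [SlideA_autof]
    exact lett_true 1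
  have s2 : SPerm.aut (⟨Equiv.refl _, ![true, true, false]⟩ : SPerm (Fin 3)) (of 2) = (of 2)⁻¹ := by
    rw [SlideA_autof]
    exact lett_false 2
  simp only [W1, W2, wd_mk, act_mk]
  simp only [lett_true, lett_false, map_mul, map_inv, map_zpow, hz, hy, hc, s0, s1, s2]
  refine ConjClasses.mk_eq_mk_iff_isConj.2 (isConj_iff.2 ⟨of 0 * of 2 ^ (-k2) * of 1 * of 2 ^ (k3) * of 1, ?_⟩)
  group

theorem SlideA_c4 (k1 k3 k4 : ℤ) :
    act (wh (1, false) (pr (1, false) (0, true))) (W1 k1 0 k3 k4) =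
      act (SPerm.aut (⟨Equiv.refl _, ![true, true, true]⟩ : SPerm (Fin 3))) (W2 k3 k4 0 k1) := by
  have hz : wh ((1, false) : Fin 3 × Bool) (pr (1, false) (0, true)) (of 1) = of 1 := SlideA_whself _ _ 1 rfl
  have hy : wh ((1, false) : Fin 3 × Bool) (pr (1, false) (0, true)) (of 0) = of 0 * (of 1)⁻¹ := by
    rw [SlideA_whof (1, false) _ 0 (by decide) false true rfl rfl]
    simp [lett_true, lett_false]
  have hc : wh ((1, false) : Fin 3 × Bool) (pr (1, false) (0, true)) (of 2) = of 2 := by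
    rw [SlideA_whof (1, false) _ 2 (by decide) false false rfl rfl]
    simp
  have s0 : SPerm.aut (⟨Equiv.refl _, ![true, true, true]⟩ : SPerm (Fin 3)) (of 0) = of 0 := by
    rw [SlideA_autof]
    exact lett_true 0
  have s1 : SPerm.aut (⟨Equiv.refl _, ![true, true, true]⟩ : SPerm (Fin 3)) (of 1) = of 1 := by
    rw [SlideA_autof]
    exact lett_true 1
  have s2 : SPerm.aut (⟨Equiv.refl _, ![true, true, true]⟩ : SPerm (Fin 3)) (of 2) = of 2 := by
    rw [SlideA_autof]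
    exact lett_true 2
  simp only [W1, W2, wd_mk, act_mk]
  simp only [lett_true, lett_false, map_mul, map_inv, map_zpow, hz, hy, hc, s0, s1, s2]
  refine ConjClasses.mk_eq_mk_iff_isConj.2 (isConj_iff.2 ⟨of 0 * of 2 ^ (k3) * of 1 * of 2 ^ (-k4), ?_⟩)
  group

theorem SlideA_c5 (k1 k2 k4 : ℤ) :
    act (wh (0, true) (pr (0, true) (1, true))) (W2 k1 k2 0 k4) =
      act (SPerm.aut (⟨Equiv.refl _, ![true, true, true]⟩ : SPerm (Fin 3))) (W2 k1 0 k2 k4) := by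
  have hz : wh ((0, true) : Fin 3 × Bool) (pr (0, true) (1, true)) (of 0) = of 0 := SlideA_whself _ _ 0 rfl
  have hy : wh ((0, true) : Fin 3 × Bool) (pr (0, true) (1, true)) (of 1) = of 1 * of 0 := by
    rw [SlideA_whof (0, true) _ 1 (by decide) false true rfl rfl]
    simp [lett_true, lett_false]
  have hc : wh ((0, true) : Fin 3 × Bool) (pr (0, true) (1, true)) (of 2) = of 2 := by
    rw [SlideA_whof (0, true) _ 2 (by decide) false false rfl rfl]
    simp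
  have s0 : SPerm.aut (⟨Equiv.refl _, ![true, true, true]⟩ : SPerm (Fin 3)) (of 0) = of 0 := by
    rw [SlideA_autof]
    exact lett_true 0
  have s1 : SPerm.aut (⟨Equiv.refl _, ![true, true, true]⟩ : SPerm (Fin 3)) (of 1) = of 1 := by
    rw [SlideA_autof]
    exact lett_true 1
  have s2 : SPerm.aut (⟨Equiv.refl _, ![true, true, true]⟩ : SPerm (Fin 3)) (of 2) = of 2 := by
    rw [SlideA_autof]
    exact lett_true 2
  simp only [W2, wd_mk, act_mk]
  simp only [lett_true, lett_false, map_mul, map_inv, map_zpow, hz, hy, hc, s0, s1, s2]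
  refine ConjClasses.mk_eq_mk_iff_isConj.2 (isConj_iff.2 ⟨1, ?_⟩)
  group

theorem SlideA_c6 (k2 k3 k4 : ℤ) :
    act (wh (0, true) (pr (0, true) (1, false))) (W2 0 k2 k3 k4) =
      act (SPerm.aut (⟨Equiv.refl _, ![true, true, true]⟩ : SPerm (Fin 3))) (W2 k4 k2 k3 0) := by
  have hz : wh ((0, true) : Fin 3 × Bool) (pr (0, true) (1, false)) (of 0) = of 0 := SlideA_whself _ _ 0 rfl
  have hy : wh ((0, true) : Fin 3 × Bool) (pr (0, true) (1, false)) (of 1) = (of 0)⁻¹ * of 1 := by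
    rw [SlideA_whof (0, true) _ 1 (by decide) true false rfl rfl]
    simp [lett_true, lett_false]
  have hc : wh ((0, true) : Fin 3 × Bool) (pr (0, true) (1, false)) (of 2) = of 2 := by
    rw [SlideA_whof (0, true) _ 2 (by decide) false false rfl rfl]
    simp
  have s0 : SPerm.aut (⟨Equiv.refl _, ![true, true, true]⟩ : SPerm (Fin 3)) (of 0) = of 0 := by
    rw [SlideA_autof]
    exact lett_true 0
  have s1 : SPerm.aut (⟨Equiv.refl _, ![true, true, true]⟩ : SPerm (Fin 3)) (of 1) = of 1 := by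
    rw [SlideA_autof]
    exact lett_true 1
  have s2 : SPerm.aut (⟨Equiv.refl _, ![true, true, true]⟩ : SPerm (Fin 3)) (of 2) = of 2 := by
    rw [SlideA_autof]
    exact lett_true 2
  simp only [W2, wd_mk, act_mk]
  simp only [lett_true, lett_false, map_mul, map_inv, map_zpow, hz, hy, hc, s0, s1, s2]
  refine ConjClasses.mk_eq_mk_iff_isConj.2 (isConj_iff.2 ⟨of 0 * of 2 ^ (k4), ?_⟩)
  group

theorem SlideA_c7 (k1 k3 k4 : ℤ) :
    act (wh (0, false) (pr (0, false) (1, true))) (W2 k1 0 k3 k4) =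
      act (SPerm.aut (⟨Equiv.refl _, ![true, true, true]⟩ : SPerm (Fin 3))) (W2 k1 k3 0 k4) := by
  have hz : wh ((0, false) : Fin 3 × Bool) (pr (0, false) (1, true)) (of 0) = of 0 := SlideA_whself _ _ 0 rfl
  have hy : wh ((0, false) : Fin 3 × Bool) (pr (0, false) (1, true)) (of 1) = of 1 * (of 0)⁻¹ := by
    rw [SlideA_whof (0, false) _ 1 (by decide) false true rfl rfl]
    simp [lett_true, lett_false]
  have hc : wh ((0, false) : Fin 3 × Bool) (pr (0, false) (1, true)) (of 2) = of 2 := by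
    rw [SlideA_whof (0, false) _ 2 (by decide) false false rfl rfl]
    simp
  have s0 : SPerm.aut (⟨Equiv.refl _, ![true, true, true]⟩ : SPerm (Fin 3)) (of 0) = of 0 := by
    rw [SlideA_autof]
    exact lett_true 0
  have s1 : SPerm.aut (⟨Equiv.refl _, ![true, true, true]⟩ : SPerm (Fin 3)) (of 1) = of 1 := by
    rw [SlideA_autof]
    exact lett_true 1
  have s2 : SPerm.aut (⟨Equiv.refl _, ![true, true, true]⟩ : SPerm (Fin 3)) (of 2) = of 2 := by
    rw [SlideA_autof]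
    exact lett_true 2
  simp only [W2, wd_mk, act_mk]
  simp only [lett_true, lett_false, map_mul, map_inv, map_zpow, hz, hy, hc, s0, s1, s2]
  refine ConjClasses.mk_eq_mk_iff_isConj.2 (isConj_iff.2 ⟨1, ?_⟩)
  group

theorem SlideA_c8 (k1 k2 k3 : ℤ) :
    act (wh (0, false) (pr (0, false) (1, false))) (W2 k1 k2 k3 0) =
      act (SPerm.aut (⟨Equiv.refl _, ![true, true, true]⟩ : SPerm (Fin 3))) (W2 0 k2 k3 k1) := by
  have hz : wh ((0, false) : Fin 3 × Bool) (pr (0, false) (1, false)) (of 0) = of 0 := SlideA_whself _ _ 0 rfl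
  have hy : wh ((0, false) : Fin 3 × Bool) (pr (0, false) (1, false)) (of 1) = of 0 * of 1 := by
    rw [SlideA_whof (0, false) _ 1 (by decide) true false rfl rfl]
    simp [lett_true, lett_false]
  have hc : wh ((0, false) : Fin 3 × Bool) (pr (0, false) (1, false)) (of 2) = of 2 := by
    rw [SlideA_whof (0, false) _ 2 (by decide) false false rfl rfl]
    simp
  have s0 : SPerm.aut (⟨Equiv.refl _, ![true, true, true]⟩ : SPerm (Fin 3)) (of 0) = of 0 := by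
    rw [SlideA_autof]
    exact lett_true 0
  have s1 : SPerm.aut (⟨Equiv.refl _, ![true, true, true]⟩ : SPerm (Fin 3)) (of 1) = of 1 := by
    rw [SlideA_autof]
    exact lett_true 1
  have s2 : SPerm.aut (⟨Equiv.refl _, ![true, true, true]⟩ : SPerm (Fin 3)) (of 2) = of 2 := by
    rw [SlideA_autof]
    exact lett_true 2
  simp only [W2, wd_mk, act_mk]
  simp only [lett_true, lett_false, map_mul, map_inv, map_zpow, hz, hy, hc, s0, s1, s2]
  refine ConjClasses.mk_eq_mk_iff_isConj.2 (isConj_iff.2 ⟨of 0 * of 1 * of 2 ^ (-k2) * of 0 * of 2 ^ (-k3) * (of 1)⁻¹ * (of 0)⁻¹, ?_⟩)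
  group

theorem SlideA_c9 (k1 k2 k4 : ℤ) :
    act (wh (1, true) (pr (1, true) (0, true))) (W2 k1 k2 0 k4) =
      act (SPerm.aut (⟨Equiv.refl _, ![true, true, true]⟩ : SPerm (Fin 3))) (W1 k4 0 k1 k2) := by
  have hz : wh ((1, true) : Fin 3 × Bool) (pr (1, true) (0, true)) (of 1) = of 1 := SlideA_whself _ _ 1 rfl
  have hy : wh ((1, true) : Fin 3 × Bool) (pr (1, true) (0, true)) (of 0) = of 0 * of 1 := by
    rw [SlideA_whof (1, true) _ 0 (by decide) false true rfl rfl]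
    simp [lett_true, lett_false]
  have hc : wh ((1, true) : Fin 3 × Bool) (pr (1, true) (0, true)) (of 2) = of 2 := by
    rw [SlideA_whof (1, true) _ 2 (by decide) false false rfl rfl]
    simp
  have s0 : SPerm.aut (⟨Equiv.refl _, ![true, true, true]⟩ : SPerm (Fin 3)) (of 0) = of 0 := by
    rw [SlideA_autof]
    exact lett_true 0
  have s1 : SPerm.aut (⟨Equiv.refl _, ![true, true, true]⟩ : SPerm (Fin 3)) (of 1) = of 1 := by
    rw [SlideA_autof]
    exact lett_true 1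
  have s2 : SPerm.aut (⟨Equiv.refl _, ![true, true, true]⟩ : SPerm (Fin 3)) (of 2) = of 2 := by
    rw [SlideA_autof]
    exact lett_true 2
  simp only [W1, W2, wd_mk, act_mk]
  simp only [lett_true, lett_false, map_mul, map_inv, map_zpow, hz, hy, hc, s0, s1, s2]
  refine ConjClasses.mk_eq_mk_iff_isConj.2 (isConj_iff.2 ⟨of 0 * of 2 ^ (k4), ?_⟩)
  group

theorem SlideA_c10 (k1 k3 k4 : ℤ) :
    act (wh (1, true) (pr (1, true) (0, false))) (W2 k1 0 k3 k4) =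
      act (SPerm.aut (⟨Equiv.refl _, ![true, false, true]⟩ : SPerm (Fin 3))) (W1 k1 k3 k4 0) := by
  have hz : wh ((1, true) : Fin 3 × Bool) (pr (1, true) (0, false)) (of 1) = of 1 := SlideA_whself _ _ 1 rfl
  have hy : wh ((1, true) : Fin 3 × Bool) (pr (1, true) (0, false)) (of 0) = (of 1)⁻¹ * of 0 := by
    rw [SlideA_whof (1, true) _ 0 (by decide) true false rfl rfl]
    simp [lett_true, lett_false]
  have hc : wh ((1, true) : Fin 3 × Bool) (pr (1, true) (0, false)) (of 2) = of 2 := by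
    rw [SlideA_whof (1, true) _ 2 (by decide) false false rfl rfl]
    simp
  have s0 : SPerm.aut (⟨Equiv.refl _, ![true, false, true]⟩ : SPerm (Fin 3)) (of 0) = of 0 := by
    rw [SlideA_autof]
    exact lett_true 0
  have s1 : SPerm.aut (⟨Equiv.refl _, ![true, false, true]⟩ : SPerm (Fin 3)) (of 1) = (of 1)⁻¹ := by
    rw [SlideA_autof]
    exact lett_false 1
  have s2 : SPerm.aut (⟨Equiv.refl _, ![true, false, true]⟩ : SPerm (Fin 3)) (of 2) = of 2 := by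
    rw [SlideA_autof]
    exact lett_true 2
  simp only [W1, W2, wd_mk, act_mk]
  simp only [lett_true, lett_false, map_mul, map_inv, map_zpow, hz, hy, hc, s0, s1, s2]
  refine ConjClasses.mk_eq_mk_iff_isConj.2 (isConj_iff.2 ⟨of 0 * of 2 ^ (k1) * of 0 * of 2 ^ (-k3) * (of 1)⁻¹ * of 2 ^ (k4), ?_⟩)
  group

theorem SlideA_c11 (k2 k3 k4 : ℤ) :
    act (wh (1, false) (pr (1, false) (0, true))) (W2 0 k2 k3 k4) =
      act (SPerm.aut (⟨Equiv.refl _, ![true, false, false]⟩ : SPerm (Fin 3))) (W1 k2 0 k3 k4) := by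
  have hz : wh ((1, false) : Fin 3 × Bool) (pr (1, false) (0, true)) (of 1) = of 1 := SlideA_whself _ _ 1 rfl
  have hy : wh ((1, false) : Fin 3 × Bool) (pr (1, false) (0, true)) (of 0) = of 0 * (of 1)⁻¹ := by
    rw [SlideA_whof (1, false) _ 0 (by decide) false true rfl rfl]
    simp [lett_true, lett_false]
  have hc : wh ((1, false) : Fin 3 × Bool) (pr (1, false) (0, true)) (of 2) = of 2 := by
    rw [SlideA_whof (1, false) _ 2 (by decide) false false rfl rfl]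
    simp
  have s0 : SPerm.aut (⟨Equiv.refl _, ![true, false, false]⟩ : SPerm (Fin 3)) (of 0) = of 0 := by
    rw [SlideA_autof]
    exact lett_true 0
  have s1 : SPerm.aut (⟨Equiv.refl _, ![true, false, false]⟩ : SPerm (Fin 3)) (of 1) = (of 1)⁻¹ := by
    rw [SlideA_autof]
    exact lett_false 1
  have s2 : SPerm.aut (⟨Equiv.refl _, ![true, false, false]⟩ : SPerm (Fin 3)) (of 2) = (of 2)⁻¹ := by
    rw [SlideA_autof]
    exact lett_false 2
  simp only [W1, W2, wd_mk, act_mk]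
  simp only [lett_true, lett_false, map_mul, map_inv, map_zpow, hz, hy, hc, s0, s1, s2]
  refine ConjClasses.mk_eq_mk_iff_isConj.2 (isConj_iff.2 ⟨1, ?_⟩)
  group

theorem SlideA_c12 (k1 k2 k3 : ℤ) :
    act (wh (1, false) (pr (1, false) (0, false))) (W2 k1 k2 k3 0) =
      act (SPerm.aut (⟨Equiv.refl _, ![true, true, false]⟩ : SPerm (Fin 3))) (W1 k3 k1 k2 0) := by
  have hz : wh ((1, false) : Fin 3 × Bool) (pr (1, false) (0, false)) (of 1) = of 1 := SlideA_whself _ _ 1 rfl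
  have hy : wh ((1, false) : Fin 3 × Bool) (pr (1, false) (0, false)) (of 0) = of 1 * of 0 := by
    rw [SlideA_whof (1, false) _ 0 (by decide) true false rfl rfl]
    simp [lett_true, lett_false]
  have hc : wh ((1, false) : Fin 3 × Bool) (pr (1, false) (0, false)) (of 2) = of 2 := by
    rw [SlideA_whof (1, false) _ 2 (by decide) false false rfl rfl]
    simp
  have s0 : SPerm.aut (⟨Equiv.refl _, ![true, true, false]⟩ : SPerm (Fin 3)) (of 0) = of 0 := by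
    rw [SlideA_autof]
    exact lett_true 0
  have s1 : SPerm.aut (⟨Equiv.refl _, ![true, true, false]⟩ : SPerm (Fin 3)) (of 1) = of 1 := by
    rw [SlideA_autof]
    exact lett_true 1
  have s2 : SPerm.aut (⟨Equiv.refl _, ![true, true, false]⟩ : SPerm (Fin 3)) (of 2) = (of 2)⁻¹ := by
    rw [SlideA_autof]
    exact lett_false 2
  simp only [W1, W2, wd_mk, act_mk]
  simp only [lett_true, lett_false, map_mul, map_inv, map_zpow, hz, hy, hc, s0, s1, s2]
  refine ConjClasses.mk_eq_mk_iff_isConj.2 (isConj_iff.2 ⟨of 0 * of 2 ^ (-k3) * (of 1)⁻¹, ?_⟩)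
  group

theorem SlideA_wv1 (k1 k2 k3 k4 : ℤ) : WV (0, true) (0, true) (1, true) (1, true) k1 (-k2) k3 (-k4) :=
  ⟨by decide, by decide, by decide, by decide, fun h => absurd h (by decide),
    fun h => absurd h (by decide), fun h => absurd h (by decide), fun h => absurd h (by decide)⟩

theorem SlideA_wv2 (k1 k2 k3 k4 : ℤ) : WV (0, true) (1, true) (0, true) (1, false) k1 (-k2) (-k3) k4 :=
  ⟨by decide, by decide, by decide, by decide, fun h => absurd h (by decide),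
    fun h => absurd h (by decide), fun h => absurd h (by decide), fun h => absurd h (by decide)⟩

theorem SlideA_m1_atbt {k1 k2 k3 k4 : ℤ}
    (hc : capC (W1 k1 k2 k3 k4) (pr (0, true) (1, true)) = 2) :
    ∃ σ : SPerm (Fin 3), Fix2 σ ∧ ∃ l1 l2 l3 l4 : ℤ, l1 + l2 + l3 + l4 = k1 + k2 + k3 + k4 ∧
      (act (wh (0, true) (pr (0, true) (1, true))) (W1 k1 k2 k3 k4) = act σ.aut (W1 l1 l2 l3 l4) ∨
        act (wh (0, true) (pr (0, true) (1, true))) (W1 k1 k2 k3 k4) = act σ.aut (W2 l1 l2 l3 l4)) := by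
  exfalso
  rw [W1, wd_cap (SlideA_wv1 k1 k2 k3 k4) rfl rfl] at hc
  simp [pr, bar] at hc

theorem SlideA_m1_atbf {k1 k2 k3 k4 : ℤ}
    (hc : capC (W1 k1 k2 k3 k4) (pr (0, true) (1, false)) = 2) :
    ∃ σ : SPerm (Fin 3), Fix2 σ ∧ ∃ l1 l2 l3 l4 : ℤ, l1 + l2 + l3 + l4 = k1 + k2 + k3 + k4 ∧
      (act (wh (0, true) (pr (0, true) (1, false))) (W1 k1 k2 k3 k4) = act σ.aut (W1 l1 l2 l3 l4) ∨
        act (wh (0, true) (pr (0, true) (1, false))) (W1 k1 k2 k3 k4) = act σ.aut (W2 l1 l2 l3 l4)) := by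
  have hk : k2 = 0 := by
    by_contra hk
    rw [W1, wd_cap (SlideA_wv1 k1 k2 k3 k4) rfl rfl] at hc
    simp [pr, bar, hk] at hc
  subst hk
  exact ⟨⟨Equiv.swap 0 1, ![true, true, false]⟩, rfl, k4, k1, k3, 0, by ring, Or.inr (SlideA_c1 k1 k3 k4)⟩

theorem SlideA_m1_afbt {k1 k2 k3 k4 : ℤ}
    (hc : capC (W1 k1 k2 k3 k4) (pr (0, false) (1, true)) = 2) :
    ∃ σ : SPerm (Fin 3), Fix2 σ ∧ ∃ l1 l2 l3 l4 : ℤ, l1 + l2 + l3 + l4 = k1 + k2 + k3 + k4 ∧
      (act (wh (0, false) (pr (0, false) (1, true))) (W1 k1 k2 k3 k4) = act σ.aut (W1 l1 l2 l3 l4) ∨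
        act (wh (0, false) (pr (0, false) (1, true))) (W1 k1 k2 k3 k4) = act σ.aut (W2 l1 l2 l3 l4)) := by
  have hk : k4 = 0 := by
    by_contra hk
    rw [W1, wd_cap (SlideA_wv1 k1 k2 k3 k4) rfl rfl] at hc
    simp [pr, bar, hk] at hc
  subst hk
  exact ⟨⟨Equiv.swap 0 1, ![true, true, true]⟩, rfl, k1, k2, 0, k3, by ring, Or.inr (SlideA_c2 k1 k2 k3)⟩

theorem SlideA_m1_afbf {k1 k2 k3 k4 : ℤ}
    (hc : capC (W1 k1 k2 k3 k4) (pr (0, false) (1, false)) = 2) :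
    ∃ σ : SPerm (Fin 3), Fix2 σ ∧ ∃ l1 l2 l3 l4 : ℤ, l1 + l2 + l3 + l4 = k1 + k2 + k3 + k4 ∧
      (act (wh (0, false) (pr (0, false) (1, false))) (W1 k1 k2 k3 k4) = act σ.aut (W1 l1 l2 l3 l4) ∨
        act (wh (0, false) (pr (0, false) (1, false))) (W1 k1 k2 k3 k4) = act σ.aut (W2 l1 l2 l3 l4)) := by
  exfalso
  rw [W1, wd_cap (SlideA_wv1 k1 k2 k3 k4) rfl rfl] at hc
  simp [pr, bar] at hc

theorem SlideA_m1_btat {k1 k2 k3 k4 : ℤ}
    (hc : capC (W1 k1 k2 k3 k4) (pr (1, true) (0, true)) = 2) :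
    ∃ σ : SPerm (Fin 3), Fix2 σ ∧ ∃ l1 l2 l3 l4 : ℤ, l1 + l2 + l3 + l4 = k1 + k2 + k3 + k4 ∧
      (act (wh (1, true) (pr (1, true) (0, true))) (W1 k1 k2 k3 k4) = act σ.aut (W1 l1 l2 l3 l4) ∨
        act (wh (1, true) (pr (1, true) (0, true))) (W1 k1 k2 k3 k4) = act σ.aut (W2 l1 l2 l3 l4)) := by
  exfalso
  rw [W1, wd_cap (SlideA_wv1 k1 k2 k3 k4) rfl rfl] at hc
  simp [pr, bar] at hc

theorem SlideA_m1_btaf {k1 k2 k3 k4 : ℤ}
    (hc : capC (W1 k1 k2 k3 k4) (pr (1, true) (0, false)) = 2) :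
    ∃ σ : SPerm (Fin 3), Fix2 σ ∧ ∃ l1 l2 l3 l4 : ℤ, l1 + l2 + l3 + l4 = k1 + k2 + k3 + k4 ∧
      (act (wh (1, true) (pr (1, true) (0, false))) (W1 k1 k2 k3 k4) = act σ.aut (W1 l1 l2 l3 l4) ∨
        act (wh (1, true) (pr (1, true) (0, false))) (W1 k1 k2 k3 k4) = act σ.aut (W2 l1 l2 l3 l4)) := by
  have hk : k4 = 0 := by
    by_contra hk
    rw [W1, wd_cap (SlideA_wv1 k1 k2 k3 k4) rfl rfl] at hc
    simp [pr, bar, hk] at hc
  subst hk
  exact ⟨⟨Equiv.refl _, ![true, true, false]⟩, rfl, k2, k3, k1, 0, by ring, Or.inr (SlideA_c3 k1 k2 k3)⟩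

theorem SlideA_m1_bfat {k1 k2 k3 k4 : ℤ}
    (hc : capC (W1 k1 k2 k3 k4) (pr (1, false) (0, true)) = 2) :
    ∃ σ : SPerm (Fin 3), Fix2 σ ∧ ∃ l1 l2 l3 l4 : ℤ, l1 + l2 + l3 + l4 = k1 + k2 + k3 + k4 ∧
      (act (wh (1, false) (pr (1, false) (0, true))) (W1 k1 k2 k3 k4) = act σ.aut (W1 l1 l2 l3 l4) ∨
        act (wh (1, false) (pr (1, false) (0, true))) (W1 k1 k2 k3 k4) = act σ.aut (W2 l1 l2 l3 l4)) := by
  have hk : k2 = 0 := by
    by_contra hk
    rw [W1, wd_cap (SlideA_wv1 k1 k2 k3 k4) rfl rfl] at hc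
    simp [pr, bar, hk] at hc
  subst hk
  exact ⟨⟨Equiv.refl _, ![true, true, true]⟩, rfl, k3, k4, 0, k1, by ring, Or.inr (SlideA_c4 k1 k3 k4)⟩

theorem SlideA_m1_bfaf {k1 k2 k3 k4 : ℤ}
    (hc : capC (W1 k1 k2 k3 k4) (pr (1, false) (0, false)) = 2) :
    ∃ σ : SPerm (Fin 3), Fix2 σ ∧ ∃ l1 l2 l3 l4 : ℤ, l1 + l2 + l3 + l4 = k1 + k2 + k3 + k4 ∧
      (act (wh (1, false) (pr (1, false) (0, false))) (W1 k1 k2 k3 k4) = act σ.aut (W1 l1 l2 l3 l4) ∨
        act (wh (1, false) (pr (1, false) (0, false))) (W1 k1 k2 k3 k4) = act σ.aut (W2 l1 l2 l3 l4)) := by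
  exfalso
  rw [W1, wd_cap (SlideA_wv1 k1 k2 k3 k4) rfl rfl] at hc
  simp [pr, bar] at hc

theorem SlideA_m2_atbt {k1 k2 k3 k4 : ℤ}
    (hc : capC (W2 k1 k2 k3 k4) (pr (0, true) (1, true)) = 2) :
    ∃ σ : SPerm (Fin 3), Fix2 σ ∧ ∃ l1 l2 l3 l4 : ℤ, l1 + l2 + l3 + l4 = k1 + k2 + k3 + k4 ∧
      (act (wh (0, true) (pr (0, true) (1, true))) (W2 k1 k2 k3 k4) = act σ.aut (W1 l1 l2 l3 l4) ∨
        act (wh (0, true) (pr (0, true) (1, true))) (W2 k1 k2 k3 k4) = act σ.aut (W2 l1 l2 l3 l4)) := by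
  have hk : k3 = 0 := by
    by_contra hk
    rw [W2, wd_cap (SlideA_wv2 k1 k2 k3 k4) rfl rfl] at hc
    simp [pr, bar, hk] at hc
  subst hk
  exact ⟨⟨Equiv.refl _, ![true, true, true]⟩, rfl, k1, 0, k2, k4, by ring, Or.inr (SlideA_c5 k1 k2 k4)⟩

theorem SlideA_m2_atbf {k1 k2 k3 k4 : ℤ}
    (hc : capC (W2 k1 k2 k3 k4) (pr (0, true) (1, false)) = 2) :
    ∃ σ : SPerm (Fin 3), Fix2 σ ∧ ∃ l1 l2 l3 l4 : ℤ, l1 + l2 + l3 + l4 = k1 + k2 + k3 + k4 ∧
      (act (wh (0, true) (pr (0, true) (1, false))) (W2 k1 k2 k3 k4) = act σ.aut (W1 l1 l2 l3 l4) ∨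
        act (wh (0, true) (pr (0, true) (1, false))) (W2 k1 k2 k3 k4) = act σ.aut (W2 l1 l2 l3 l4)) := by
  have hk : k1 = 0 := by
    by_contra hk
    rw [W2, wd_cap (SlideA_wv2 k1 k2 k3 k4) rfl rfl] at hc
    simp [pr, bar, hk] at hc
  subst hk
  exact ⟨⟨Equiv.refl _, ![true, true, true]⟩, rfl, k4, k2, k3, 0, by ring, Or.inr (SlideA_c6 k2 k3 k4)⟩

theorem SlideA_m2_afbt {k1 k2 k3 k4 : ℤ}
    (hc : capC (W2 k1 k2 k3 k4) (pr (0, false) (1, true)) = 2) :
    ∃ σ : SPerm (Fin 3), Fix2 σ ∧ ∃ l1 l2 l3 l4 : ℤ, l1 + l2 + l3 + l4 = k1 + k2 + k3 + k4 ∧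
      (act (wh (0, false) (pr (0, false) (1, true))) (W2 k1 k2 k3 k4) = act σ.aut (W1 l1 l2 l3 l4) ∨
        act (wh (0, false) (pr (0, false) (1, true))) (W2 k1 k2 k3 k4) = act σ.aut (W2 l1 l2 l3 l4)) := by
  have hk : k2 = 0 := by
    by_contra hk
    rw [W2, wd_cap (SlideA_wv2 k1 k2 k3 k4) rfl rfl] at hc
    simp [pr, bar, hk] at hc
  subst hk
  exact ⟨⟨Equiv.refl _, ![true, true, true]⟩, rfl, k1, k3, 0, k4, by ring, Or.inr (SlideA_c7 k1 k3 k4)⟩

theorem SlideA_m2_afbf {k1 k2 k3 k4 : ℤ}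
    (hc : capC (W2 k1 k2 k3 k4) (pr (0, false) (1, false)) = 2) :
    ∃ σ : SPerm (Fin 3), Fix2 σ ∧ ∃ l1 l2 l3 l4 : ℤ, l1 + l2 + l3 + l4 = k1 + k2 + k3 + k4 ∧
      (act (wh (0, false) (pr (0, false) (1, false))) (W2 k1 k2 k3 k4) = act σ.aut (W1 l1 l2 l3 l4) ∨
        act (wh (0, false) (pr (0, false) (1, false))) (W2 k1 k2 k3 k4) = act σ.aut (W2 l1 l2 l3 l4)) := by
  have hk : k4 = 0 := by
    by_contra hk
    rw [W2, wd_cap (SlideA_wv2 k1 k2 k3 k4) rfl rfl] at hc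
    simp [pr, bar, hk] at hc
  subst hk
  exact ⟨⟨Equiv.refl _, ![true, true, true]⟩, rfl, 0, k2, k3, k1, by ring, Or.inr (SlideA_c8 k1 k2 k3)⟩

theorem SlideA_m2_btat {k1 k2 k3 k4 : ℤ}
    (hc : capC (W2 k1 k2 k3 k4) (pr (1, true) (0, true)) = 2) :
    ∃ σ : SPerm (Fin 3), Fix2 σ ∧ ∃ l1 l2 l3 l4 : ℤ, l1 + l2 + l3 + l4 = k1 + k2 + k3 + k4 ∧
      (act (wh (1, true) (pr (1, true) (0, true))) (W2 k1 k2 k3 k4) = act σ.aut (W1 l1 l2 l3 l4) ∨
        act (wh (1, true) (pr (1, true) (0, true))) (W2 k1 k2 k3 k4) = act σ.aut (W2 l1 l2 l3 l4)) := by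
  have hk : k3 = 0 := by
    by_contra hk
    rw [W2, wd_cap (SlideA_wv2 k1 k2 k3 k4) rfl rfl] at hc
    simp [pr, bar, hk] at hc
  subst hk
  exact ⟨⟨Equiv.refl _, ![true, true, true]⟩, rfl, k4, 0, k1, k2, by ring, Or.inl (SlideA_c9 k1 k2 k4)⟩

theorem SlideA_m2_btaf {k1 k2 k3 k4 : ℤ}
    (hc : capC (W2 k1 k2 k3 k4) (pr (1, true) (0, false)) = 2) :
    ∃ σ : SPerm (Fin 3), Fix2 σ ∧ ∃ l1 l2 l3 l4 : ℤ, l1 + l2 + l3 + l4 = k1 + k2 + k3 + k4 ∧
      (act (wh (1, true) (pr (1, true) (0, false))) (W2 k1 k2 k3 k4) = act σ.aut (W1 l1 l2 l3 l4) ∨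
        act (wh (1, true) (pr (1, true) (0, false))) (W2 k1 k2 k3 k4) = act σ.aut (W2 l1 l2 l3 l4)) := by
  have hk : k2 = 0 := by
    by_contra hk
    rw [W2, wd_cap (SlideA_wv2 k1 k2 k3 k4) rfl rfl] at hc
    simp [pr, bar, hk] at hc
  subst hk
  exact ⟨⟨Equiv.refl _, ![true, false, true]⟩, rfl, k1, k3, k4, 0, by ring, Or.inl (SlideA_c10 k1 k3 k4)⟩

theorem SlideA_m2_bfat {k1 k2 k3 k4 : ℤ}
    (hc : capC (W2 k1 k2 k3 k4) (pr (1, false) (0, true)) = 2) :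
    ∃ σ : SPerm (Fin 3), Fix2 σ ∧ ∃ l1 l2 l3 l4 : ℤ, l1 + l2 + l3 + l4 = k1 + k2 + k3 + k4 ∧
      (act (wh (1, false) (pr (1, false) (0, true))) (W2 k1 k2 k3 k4) = act σ.aut (W1 l1 l2 l3 l4) ∨
        act (wh (1, false) (pr (1, false) (0, true))) (W2 k1 k2 k3 k4) = act σ.aut (W2 l1 l2 l3 l4)) := by
  have hk : k1 = 0 := by
    by_contra hk
    rw [W2, wd_cap (SlideA_wv2 k1 k2 k3 k4) rfl rfl] at hc
    simp [pr, bar, hk] at hc
  subst hk
  exact ⟨⟨Equiv.refl _, ![true, false, false]⟩, rfl, k2, 0, k3, k4, by ring, Or.inl (SlideA_c11 k2 k3 k4)⟩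

theorem SlideA_m2_bfaf {k1 k2 k3 k4 : ℤ}
    (hc : capC (W2 k1 k2 k3 k4) (pr (1, false) (0, false)) = 2) :
    ∃ σ : SPerm (Fin 3), Fix2 σ ∧ ∃ l1 l2 l3 l4 : ℤ, l1 + l2 + l3 + l4 = k1 + k2 + k3 + k4 ∧
      (act (wh (1, false) (pr (1, false) (0, false))) (W2 k1 k2 k3 k4) = act σ.aut (W1 l1 l2 l3 l4) ∨
        act (wh (1, false) (pr (1, false) (0, false))) (W2 k1 k2 k3 k4) = act σ.aut (W2 l1 l2 l3 l4)) := by
  have hk : k4 = 0 := by
    by_contra hk
    rw [W2, wd_cap (SlideA_wv2 k1 k2 k3 k4) rfl rfl] at hc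
    simp [pr, bar, hk] at hc
  subst hk
  exact ⟨⟨Equiv.refl _, ![true, true, false]⟩, rfl, k3, k1, k2, 0, by ring, Or.inl (SlideA_c12 k1 k2 k3)⟩

theorem slide_W1 {k1 k2 k3 k4 : ℤ} {z y : Fin 3 × Bool} (hz : z.1 ≠ 2) (hy : y.1 ≠ 2)
    (hzy : y.1 ≠ z.1) (hc : capC (W1 k1 k2 k3 k4) (pr z y) = 2) :
    ∃ σ : SPerm (Fin 3), Fix2 σ ∧ ∃ l1 l2 l3 l4 : ℤ, l1 + l2 + l3 + l4 = k1 + k2 + k3 + k4 ∧
      (act (wh z (pr z y)) (W1 k1 k2 k3 k4) = act σ.aut (W1 l1 l2 l3 l4) ∨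
        act (wh z (pr z y)) (W1 k1 k2 k3 k4) = act σ.aut (W2 l1 l2 l3 l4)) := by
  obtain ⟨zi, zb⟩ := z
  obtain ⟨yi, yb⟩ := y
  have hz1 : zi = 0 ∨ zi = 1 := by
    have h : zi ≠ 2 := hz
    omega
  have hy1 : yi = 0 ∨ yi = 1 := by
    have h : yi ≠ 2 := hy
    omega
  rcases hz1 with rfl | rfl <;> rcases hy1 with rfl | rfl
  · exact (hzy rfl).elim
  · cases zb <;> cases yb
    · exact SlideA_m1_afbf hc
    · exact SlideA_m1_afbt hc
    · exact SlideA_m1_atbf hc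
    · exact SlideA_m1_atbt hc
  · cases zb <;> cases yb
    · exact SlideA_m1_bfaf hc
    · exact SlideA_m1_bfat hc
    · exact SlideA_m1_btaf hc
    · exact SlideA_m1_btat hc
  · exact (hzy rfl).elim

theorem slide_W2 {k1 k2 k3 k4 : ℤ} {z y : Fin 3 × Bool} (hz : z.1 ≠ 2) (hy : y.1 ≠ 2)
    (hzy : y.1 ≠ z.1) (hc : capC (W2 k1 k2 k3 k4) (pr z y) = 2) :
    ∃ σ : SPerm (Fin 3), Fix2 σ ∧ ∃ l1 l2 l3 l4 : ℤ, l1 + l2 + l3 + l4 = k1 + k2 + k3 + k4 ∧
      (act (wh z (pr z y)) (W2 k1 k2 k3 k4) = act σ.aut (W1 l1 l2 l3 l4) ∨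
        act (wh z (pr z y)) (W2 k1 k2 k3 k4) = act σ.aut (W2 l1 l2 l3 l4)) := by
  obtain ⟨zi, zb⟩ := z
  obtain ⟨yi, yb⟩ := y
  have hz1 : zi = 0 ∨ zi = 1 := by
    have h : zi ≠ 2 := hz
    omega
  have hy1 : yi = 0 ∨ yi = 1 := by
    have h : yi ≠ 2 := hy
    omega
  rcases hz1 with rfl | rfl <;> rcases hy1 with rfl | rfl
  · exact (hzy rfl).elim
  · cases zb <;> cases yb
    · exact SlideA_m2_afbf hc
    · exact SlideA_m2_afbt hc
    · exact SlideA_m2_atbf hc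
    · exact SlideA_m2_atbt hc
  · cases zb <;> cases yb
    · exact SlideA_m2_bfaf hc
    · exact SlideA_m2_bfat hc
    · exact SlideA_m2_btaf hc
    · exact SlideA_m2_btat hc
  · exact (hzy rfl).elim

end Pool.Agent.Sims
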