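import Pool.Agent.Sims.PeakDefs

/-!
# Module `Step` : symmetry of steps, reversal of paths, the moves E1, E2 as paths

* `IsStep_symm`: `act_SPerm_inv`, `act_wh_inv` (the inverse of `(A,z)` is `(A∖z ∪ z⁻¹, z⁻¹)`).
* `Path.reverse`: reverse a chain; if the first member is also shorter than `M` the reversed chain
  is a `Path` (induction on `ReflTransGen`).
* `path_same`: (E1) `A ⊆ B` both separate `z` from `z⁻¹`: `act (wh z A) c` and `act (wh z B) c` are one
  step apart (`act_wh_mono`; the set `B∖A ∪ {z}` contains `z`, not `z⁻¹`).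
* `path_swap`: (E2) `a, b ∈ A`, `a⁻¹, b⁻¹ ∉ A`: from `act (wh a A) c` to `act (wh b A) c` there is a
  path of two steps `(C,b)` and a signed permutation (`act_wh_swap`; signed permutations preserve
  the length, so both members have the length of `act (wh b A) c`).  If `a.1 = b.1` then `a = b`.
Difficulty 1-2.
-/

namespace Pool.Agent.Sims

variable {α : Type*} [DecidableEq α]

theorem IsStep_symm {c d : ConjClasses (FreeGroup α)} (h : IsStep c d) : IsStep d c := by
  rcases h with ⟨σ, rfl⟩ | ⟨z, A, hz, hz', rfl⟩
  · exact Or.inl ⟨σ.inv, (act_SPerm_inv σ c).symm⟩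
  · refine Or.inr ⟨bar z, fun x => (A x && decide (x ≠ z)) || decide (x = bar z), ?_, ?_,
      (act_wh_inv z A c).symm⟩
    · simp
    · simp [(bar_ne z).symm]

theorem Step_rev {M : ℕ} {c d : ConjClasses (FreeGroup α)} (h : Path M c d)
    (hc : cycLen c < M) : cycLen d < M ∧ Path M d c := by
  induction h with
  | refl => exact ⟨hc, Path.refl M c⟩
  | tail _ hb ih => exact ⟨hb.2, (Path.single (IsStep_symm hb.1) ih.1).trans ih.2⟩

theorem Path.reverse {M : ℕ} {c d : ConjClasses (FreeGroup α)} (h : Path M c d)
    (hc : cycLen c < M) : Path M d c := (Step_rev h hc).2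

theorem step_wh {z : α × Bool} {A : α × Bool → Bool} (hz : A z = true) (hz' : A (bar z) = false)
    (c : ConjClasses (FreeGroup α)) : IsStep c (act (wh z A) c) :=
  Or.inr ⟨z, A, hz, hz', rfl⟩

theorem Step_same {c : ConjClasses (FreeGroup α)} {z : α × Bool} {A B : α × Bool → Bool}
    (hB' : B (bar z) = false) (h : ∀ x, A x = true → B x = true) :
    IsStep (act (wh z A) c) (act (wh z B) c) := by
  rw [act_wh_mono z A B h c]
  apply step_wh
  · simp
  · simp [hB', bar_ne z]

/-- E1: one step from `(A,z)c` to `(B,z)c` if `A ⊆ B` or `B ⊆ A` -/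
theorem path_same (M : ℕ) (c : ConjClasses (FreeGroup α)) (z : α × Bool) (A B : α × Bool → Bool)
    (hA : A z = true) (hA' : A (bar z) = false) (hB : B z = true) (hB' : B (bar z) = false)
    (h : (∀ x, A x = true → B x = true) ∨ (∀ x, B x = true → A x = true))
    (hM : cycLen (act (wh z B) c) < M) : Path M (act (wh z A) c) (act (wh z B) c) := by
  rcases h with h | h
  · exact Path.single (Step_same hB' h) hM
  · exact Path.single (IsStep_symm (Step_same hA' h)) hM

/-- E2 -/
theorem path_swap (M : ℕ) (c : ConjClasses (FreeGroup α)) (a b : α × Bool)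
    (A : α × Bool → Bool) (ha : A a = true) (ha' : A (bar a) = false) (hb : A b = true)
    (hb' : A (bar b) = false) (hM : cycLen (act (wh b A) c) < M) :
    Path M (act (wh a A) c) (act (wh b A) c) := by
  by_cases hab : a.1 = b.1
  · have h : a = b := by
      rcases a with ⟨i, x⟩
      rcases b with ⟨j, y⟩
      simp only at hab
      subst hab
      by_cases hxy : x = y
      · rw [hxy]
      · exfalso
        have : bar (i, x) = (i, y) := by
          cases x <;> cases y <;> simp_all [bar]
        rw [this] at ha'
        rw [ha'] at hb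
        exact Bool.noConfusion hb
    rw [h]
    exact Path.refl _ _
  · obtain ⟨σ, hσ⟩ := act_wh_swap a b hab A ha ha' hb hb'
    have hne : b ≠ a := fun h => hab (by rw [h])
    have e := hσ c
    have h1 : cycLen (act (wh b (fun x => (A x && decide (x ≠ a)) || decide (x = bar a)))
        (act (wh a A) c)) < M := by
      rw [← cycLen_SPerm σ, ← e]
      exact hM
    have h2 : IsStep (act (wh a A) c)
        (act (wh b (fun x => (A x && decide (x ≠ a)) || decide (x = bar a))) (act (wh a A) c)) := by
      apply step_wh
      · simp [hb, hne]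
      · simp [hb', bar_inj, hne]
    rw [e]
    exact (Path.single h2 h1).trans (Path.single (Or.inl ⟨σ, rfl⟩) (by rw [← e]; exact hM))

/-- a shorter member obtained from a decreasing cut -/
theorem lt_of_cap {c : ConjClasses (FreeGroup α)} {z : α × Bool} {A : α × Bool → Bool}
    (hz : A z = true) (hz' : A (bar z) = false) (h : capC c A < cnt c z.1) :
    cycLen (act (wh z A) c) < cycLen c := by
  have := cycLen_wh c z A hz hz'
  omega

end Pool.Agent.Sims
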