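import Pool.Agent.Sims.SylDefs

/-!
# Module `SylA` : syllable forms, algebra

* `exists_syl`: rotate `w` so that it starts with a letter `≠ x_j^{±1}`, then group the runs of
  `x_j^{±1}` (a reduced run of `x_j^{±1}` is `zpw j k`): induction on the list.
* `act_pot`: in the free group `pot j p (lett x) = x_j^{-p(x⁻¹)} x x_j^{p(x)}` for a letter `x` with
  `x.1 ≠ j` (check both signs), so `pot j p (∏ x_i x_j^{k_i}) = ∏ x_j^{-p(x_i⁻¹)} x_i x_j^{p(x_i)+k_i}`,
  which is conjugate (by `x_j^{p(x_1⁻¹)}`) to `∏ x_i x_j^{k_i + p(x_i) - p(x_{i+1}⁻¹)}`.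
Difficulty 2.
-/

namespace Pool.Agent.Sims

open FreeGroup (of)

set_option linter.unusedSimpArgs false
set_option linter.unusedVariables false
set_option linter.unusedSectionVars false

variable {α : Type*} [DecidableEq α]

theorem SylA_mk_replicate (x : α × Bool) (n : ℕ) :
    FreeGroup.mk (List.replicate n x) = (lett x : FreeGroup α) ^ n := by
  induction n with
  | zero => rfl
  | succ n ih =>
    rw [pow_succ', ← ih, lett, FreeGroup.mul_mk]
    rfl

theorem mk_zpw (j : α) (k : ℤ) : FreeGroup.mk (zpw j k) = (of j : FreeGroup α) ^ k := by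
  rw [zpw, SylA_mk_replicate]
  rcases le_or_gt 0 k with h | h
  · rw [decide_eq_true h, lett_true]
    conv_rhs => rw [← Int.natAbs_of_nonneg h]
    rw [zpow_natCast]
  · rw [decide_eq_false (not_le.mpr h), lett_false]
    have e : k = -((k.natAbs : ℕ) : ℤ) := by omega
    conv_rhs => rw [e]
    rw [zpow_neg, zpow_natCast, inv_pow]

theorem pot_lett_ne {j : α} (p : α × Bool → ℤ) {x : α × Bool} (h : x.1 ≠ j) :
    pot j p (lett x) = (of j) ^ (-(p (bar x))) * lett x * (of j) ^ (p x) := by
  rcases x with ⟨i, b⟩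
  simp only at h
  cases b with
  | true =>
    change potFun j p (lett (i, true)) = _
    rw [lett_true, potFun_of_ne p h]
    rfl
  | false =>
    change potFun j p (lett (i, false)) = _
    rw [lett_false, map_inv, potFun_of_ne p h]
    have : bar ((i, false) : α × Bool) = (i, true) := rfl
    rw [this]
    group

theorem pot_lett_self (j : α) (p : α × Bool → ℤ) {x : α × Bool} (h : x.1 = j) :
    pot j p (lett x) = lett x := by
  rcases x with ⟨i, b⟩
  simp only at h
  subst h
  cases b with
  | true =>
    change potFun i p (lett (i, true)) = _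
    rw [lett_true, potFun_of_self]
  | false =>
    change potFun i p (lett (i, false)) = _
    rw [lett_false, map_inv, potFun_of_self]

theorem SylA_zpw_cons_pos (j : α) (k : ℤ) (h : 0 ≤ k) :
    (j, true) :: zpw j k = zpw j (k + 1) := by
  rw [zpw, zpw, decide_eq_true h, decide_eq_true (by omega : (0 : ℤ) ≤ k + 1)]
  have e : (k + 1).natAbs = k.natAbs + 1 := by omega
  rw [e]
  rfl

theorem SylA_zpw_cons_neg (j : α) (k : ℤ) (h : k < 0) :
    (j, false) :: zpw j k = zpw j (k - 1) := by
  rw [zpw, zpw, decide_eq_false (by omega : ¬ (0 : ℤ) ≤ k),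
    decide_eq_false (by omega : ¬ (0 : ℤ) ≤ k - 1)]
  have e : (k - 1).natAbs = k.natAbs + 1 := by omega
  rw [e]
  rfl

theorem SylA_group (j : α) (l : List (α × Bool)) (hl : FreeGroup.IsReduced l) :
    ∃ (k : ℤ) (s : List ((α × Bool) × ℤ)), l = zpw j k ++ expand j s ∧ ∀ q ∈ s, q.1.1 ≠ j := by
  induction l with
  | nil => exact ⟨0, [], rfl, by simp⟩
  | cons y l ih =>
    have hl' : FreeGroup.IsReduced l := by
      unfold FreeGroup.IsReduced at hl ⊢
      exact hl.tail
    obtain ⟨k, s, hs, hq⟩ := ih hl'
    by_cases hy : y.1 = j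
    · rcases y with ⟨i, b⟩
      simp only at hy
      subst hy
      rcases lt_trichotomy k 0 with hk | hk | hk
      · -- k < 0, l starts with (i,false)
        have hb : b = false := by
          obtain ⟨m, hm⟩ : ∃ m, k.natAbs = m + 1 := ⟨k.natAbs - 1, by omega⟩
          rw [zpw, decide_eq_false (by omega : ¬ (0 : ℤ) ≤ k), hm, List.replicate_succ] at hs
          rw [hs] at hl
          unfold FreeGroup.IsReduced at hl
          simp only [List.cons_append, List.isChain_cons_cons] at hl
          exact hl.1 trivial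
        subst hb
        refine ⟨k - 1, s, ?_, hq⟩
        rw [← SylA_zpw_cons_neg _ _ hk, List.cons_append, ← hs]
      · subst hk
        cases b with
        | true =>
          refine ⟨1, s, ?_, hq⟩
          rw [hs]
          rfl
        | false =>
          refine ⟨-1, s, ?_, hq⟩
          rw [hs]
          rfl
      · have hb : b = true := by
          obtain ⟨m, hm⟩ : ∃ m, k.natAbs = m + 1 := ⟨k.natAbs - 1, by omega⟩
          rw [zpw, decide_eq_true (by omega : (0 : ℤ) ≤ k), hm, List.replicate_succ] at hs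
          rw [hs] at hl
          unfold FreeGroup.IsReduced at hl
          simp only [List.cons_append, List.isChain_cons_cons] at hl
          exact hl.1 trivial
        subst hb
        refine ⟨k + 1, s, ?_, hq⟩
        rw [← SylA_zpw_cons_pos _ _ hk.le, List.cons_append, ← hs]
    · refine ⟨0, (y, k) :: s, ?_, ?_⟩
      · rw [hs]
        rfl
      · intro q hq'
        rcases List.mem_cons.mp hq' with rfl | h
        · exact hy
        · exact hq q h

theorem exists_syl (j : α) (c : ConjClasses (FreeGroup α)) (h : ∃ i, i ≠ j ∧ 0 < cnt c i) :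
    ∃ s : List ((α × Bool) × ℤ), s ≠ [] ∧ SValid j s ∧ cls (expand j s) = c := by
  obtain ⟨i, hij, hi⟩ := h
  have hw := rep_CR c
  have hc := cls_rep c
  rw [cnt, cntL, List.countP_pos_iff] at hi
  obtain ⟨x, hx, hxi⟩ := hi
  have hxi' : x.1 = i := by simpa using hxi
  obtain ⟨u, v, huv⟩ := List.append_of_mem hx
  have hrot : rep c ~r (x :: (v ++ u)) := by
    rw [huv]
    have := List.isRotated_append (l := u) (l' := x :: v)
    simpa using this
  have hCR : CR (x :: (v ++ u)) := CR_of_rotated hrot hw
  have hcls : cls (x :: (v ++ u)) = c := by rw [← cls_of_rotated hrot, hc]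
  have hred : FreeGroup.IsReduced (v ++ u) := by
    have := hCR.1
    unfold FreeGroup.IsReduced at this ⊢
    exact this.tail
  obtain ⟨k, s, hs, hq⟩ := SylA_group j (v ++ u) hred
  have he : x :: (v ++ u) = expand j ((x, k) :: s) := by
    rw [hs]
    rfl
  refine ⟨(x, k) :: s, by simp, ⟨?_, ?_⟩, ?_⟩
  · intro q hq'
    rcases List.mem_cons.mp hq' with rfl | h
    · simp only
      rw [hxi']
      exact hij
    · exact hq q h
  · rw [← he]; exact hCR
  · rw [← he]; exact hcls

/-- a class without letters other than `x_j^{±1}` -/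
theorem exists_pow (j : α) (c : ConjClasses (FreeGroup α)) (h : ∀ i, i ≠ j → cnt c i = 0) :
    ∃ k : ℤ, c = cls (zpw j k) := by
  have hw := rep_CR c
  have hc := cls_rep c
  obtain ⟨k, s, hs, hq⟩ := SylA_group j (rep c) hw.1
  refine ⟨k, ?_⟩
  have hsn : s = [] := by
    cases s with
    | nil => rfl
    | cons q t =>
      exfalso
      have h1 := hq q (by simp)
      have h2 := h q.1.1 h1
      rw [cnt, cntL, List.countP_eq_zero] at h2
      have h3 : q.1 ∈ rep c := by
        rw [hs, expand]
        simp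
      exact h2 q.1 h3 (by simp)
  rw [← hc]
  rw [hs, hsn]
  simp [expand]

theorem SylA_shiftLin_fst (p : α × Bool → ℤ) (s : List ((α × Bool) × ℤ)) (z : α × Bool) :
    (shiftLin p s z).map Prod.fst = s.map Prod.fst := by
  induction s with
  | nil => rfl
  | cons q t ih =>
    cases t with
    | nil => rfl
    | cons r t =>
      simp only [shiftLin, List.map_cons]
      rw [ih]
      rfl

theorem shift_map_fst (p : α × Bool → ℤ) (s : List ((α × Bool) × ℤ)) :
    (shift p s).map Prod.fst = s.map Prod.fst := by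
  cases s with
  | nil => rfl
  | cons q t => exact SylA_shiftLin_fst p (q :: t) q.1

theorem SylA_mk_expand_cons (j : α) (q : (α × Bool) × ℤ) (s : List ((α × Bool) × ℤ)) :
    (FreeGroup.mk (expand j (q :: s)) : FreeGroup α) =
      lett q.1 * (of j) ^ q.2 * FreeGroup.mk (expand j s) := by
  rw [← mk_zpw, lett, FreeGroup.mul_mk, FreeGroup.mul_mk]
  congr 1

theorem SylA_pot_expand (j : α) (p : α × Bool → ℤ) (t : List ((α × Bool) × ℤ))
    (q : (α × Bool) × ℤ) (z : α × Bool) (hs : ∀ r ∈ q :: t, r.1.1 ≠ j) :
    pot j p (FreeGroup.mk (expand j (q :: t))) =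
      (of j) ^ (-(p (bar q.1))) * FreeGroup.mk (expand j (shiftLin p (q :: t) z)) *
        (of j) ^ (p (bar z)) := by
  have hof : pot j p (of j) = of j := pot_lett_self j p (x := (j, true)) rfl
  induction t generalizing q with
  | nil =>
    have h1 : q.1.1 ≠ j := hs q (by simp)
    rw [SylA_mk_expand_cons, map_mul, map_mul, map_zpow, hof, pot_lett_ne p h1]
    have e : shiftLin p [q] z = [(q.1, q.2 + p q.1 - p (bar z))] := rfl
    rw [e, SylA_mk_expand_cons]
    have e2 : (FreeGroup.mk (expand j ([] : List ((α × Bool) × ℤ))) : FreeGroup α) = 1 := rfl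
    rw [e2, map_one]
    group
  | cons r t ih =>
    have h1 : q.1.1 ≠ j := hs q (by simp)
    have h2 : ∀ r' ∈ r :: t, r'.1.1 ≠ j := fun r' hr' => hs r' (List.mem_cons_of_mem _ hr')
    rw [SylA_mk_expand_cons, map_mul, map_mul, map_zpow, hof, pot_lett_ne p h1, ih r h2]
    have e : shiftLin p (q :: r :: t) z =
      (q.1, q.2 + p q.1 - p (bar r.1)) :: shiftLin p (r :: t) z := rfl
    rw [e, SylA_mk_expand_cons]
    group

theorem act_pot (j : α) (p : α × Bool → ℤ) (s : List ((α × Bool) × ℤ))
    (hs : ∀ q ∈ s, q.1.1 ≠ j) :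
    act (pot j p) (cls (expand j s)) = cls (expand j (shift p s)) := by
  cases s with
  | nil =>
    rw [cls, act_mk]
    have e2 : (FreeGroup.mk (expand j ([] : List ((α × Bool) × ℤ))) : FreeGroup α) = 1 := rfl
    rw [e2, map_one]
    rfl
  | cons q t =>
    rw [cls, cls, act_mk, SylA_pot_expand j p t q q.1 hs, ConjClasses.mk_eq_mk_iff_isConj,
      isConj_iff]
    refine ⟨(of j) ^ (p (bar q.1)), ?_⟩
    have e : shift p (q :: t) = shiftLin p (q :: t) q.1 := rfl
    rw [e]
    group

theorem act_pot_pow (j : α) (p : α × Bool → ℤ) (k : ℤ) :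
    act (pot j p) (cls (zpw j k)) = cls (zpw j k) := by
  have hof : pot j p (of j) = of j := pot_lett_self j p (x := (j, true)) rfl
  rw [cls, act_mk, mk_zpw, map_zpow, hof]

end Pool.Agent.Sims
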