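import Pool.Agent.Sims.SylDefs

/-!
# Module `SylB` : syllable forms, cyclic reducedness and sums

* `SValid_iff`: `expand j s` (all letters `≠ x_j^{±1}`, `s ≠ []`) is cyclically reduced iff for all
  cyclically consecutive `(x,k), (y,l)`: `y = x⁻¹ → k ≠ 0`.
* `SValid_shift`: if `y = x⁻¹` then `p(x) - p(y⁻¹) = 0`, so the exponent between them is unchanged.
* `sum_shift`: by definition of `shift`.
Difficulty 2.
-/

namespace Pool.Agent.Sims

variable {α : Type*} [DecidableEq α]

theorem SylB_lin_zero {β : Type*} (f : β → β → ℕ) (x : β) (l : List β) (z : β) :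
    lin f x l z = 0 ↔ List.IsChain (fun a b => f a b = 0) (x :: (l ++ [z])) := by
  induction l generalizing x with
  | nil => simp [lin]
  | cons y l ih =>
    rw [lin, List.cons_append, List.isChain_cons_cons, ← ih, Nat.add_eq_zero_iff]

theorem SylB_CR_iff (w : List (α × Bool)) :
    CR w ↔ cyc (fun a b => if b = bar a then 1 else 0) w = 0 := by
  have hR : ∀ a b : α × Bool, ((if b = bar a then 1 else 0) = 0) ↔ (a.1 = b.1 → a.2 = b.2) := by
    rintro ⟨i, a⟩ ⟨j, b⟩
    by_cases h : i = j
    · subst h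
      cases a <;> cases b <;> simp [bar]
    · have h' : ¬ j = i := fun h0 => h h0.symm
      simp [bar, h, h']
  cases w with
  | nil => simp [cyc, CR, FreeGroup.IsCyclicallyReduced.nil]
  | cons x l =>
    rw [cyc, SylB_lin_zero]
    have h1 : (x :: (l ++ [x])) = (x :: l) ++ [x] := rfl
    rw [h1, List.isChain_append]
    unfold CR
    rw [FreeGroup.isCyclicallyReduced_iff]
    unfold FreeGroup.IsReduced
    constructor
    · rintro ⟨ha, hb⟩
      refine ⟨?_, List.isChain_singleton _, ?_⟩
      · exact List.IsChain.imp (fun a b h => (hR a b).2 h) ha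
      intro a h3 b h4
      exact (hR a b).2 (hb a h3 b (by simpa using h4))
    · rintro ⟨ha, _, hb⟩
      refine ⟨List.IsChain.imp (fun a b h => (hR a b).1 h) ha, ?_⟩
      intro a h3 b h4
      exact (hR a b).1 (hb a h3 b (by simpa using h4))

theorem SylB_lin_replicate {β : Type*} (f : β → β → ℕ) (c : β) (n : ℕ) (y : β) :
    lin f c (List.replicate n c) y = n * f c c + f c y := by
  induction n with
  | zero => simp [lin]
  | succ n ih => rw [List.replicate_succ, lin, ih]; ring

theorem SylB_lin_congr {β : Type*} {f g : β → β → ℕ} (S : β → Prop)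
    (h : ∀ a b, S a → S b → f a b = g a b) (x : β) (l : List β) (z : β) (hx : S x)
    (hl : ∀ a ∈ l, S a) (hz : S z) : lin f x l z = lin g x l z := by
  induction l generalizing x with
  | nil => simp only [lin]; exact h _ _ hx hz
  | cons y l ih =>
    have hy : S y := hl y (by simp)
    rw [lin, lin, h _ _ hx hy, ih y hy (fun a ha => hl a (by simp [ha]))]

theorem SylB_cyc_congr {β : Type*} {f g : β → β → ℕ} (s : List β)
    (h : ∀ a ∈ s, ∀ b ∈ s, f a b = g a b) : cyc f s = cyc g s := by
  cases s with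
  | nil => rfl
  | cons x l =>
    rw [cyc, cyc]
    exact SylB_lin_congr (fun a => a ∈ x :: l) (fun a b ha hb => h a ha b hb) x l x (by simp)
      (fun a ha => by simp [ha]) (by simp)

theorem SylB_expand_cons (j : α) (q : (α × Bool) × ℤ) (t : List ((α × Bool) × ℤ)) :
    expand j (q :: t) = q.1 :: (zpw j q.2 ++ expand j t) := by
  simp [expand]

theorem SylB_lin_expand (f : α × Bool → α × Bool → ℕ) (j : α) (q : (α × Bool) × ℤ)
    (t : List ((α × Bool) × ℤ)) (w : (α × Bool) × ℤ) :
    lin f q.1 (zpw j q.2 ++ expand j t) w.1 =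
      lin (fun q r : (α × Bool) × ℤ => lin f q.1 (zpw j q.2) r.1) q t w := by
  induction t generalizing q with
  | nil => simp [expand, lin]
  | cons r t ih =>
    rw [SylB_expand_cons, lin_append, ih, lin]

theorem SylB_cyc_expand (f : α × Bool → α × Bool → ℕ) (j : α) (s : List ((α × Bool) × ℤ)) :
    cyc f (expand j s) = cyc (fun q r : (α × Bool) × ℤ => lin f q.1 (zpw j q.2) r.1) s := by
  cases s with
  | nil => simp [expand, cyc]
  | cons q t =>
    rw [SylB_expand_cons, cyc, cyc, SylB_lin_expand]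

theorem CR_zpw (j : α) (k : ℤ) : CR (zpw j k) := by
  rw [SylB_CR_iff, zpw]
  cases hn : k.natAbs with
  | zero => simp [cyc]
  | succ n =>
    rw [List.replicate_succ, cyc, SylB_lin_replicate]
    simp [bar]

/-- `CR` in terms of cyclically consecutive syllables -/
theorem SValid_iff (j : α) (s : List ((α × Bool) × ℤ)) (hs : ∀ q ∈ s, q.1.1 ≠ j) :
    SValid j s ↔ cyc (fun q r => if r.1 = bar q.1 ∧ q.2 = 0 then 1 else 0) s = 0 := by
  have h1 : SValid j s ↔ CR (expand j s) := ⟨fun h => h.2, fun h => ⟨hs, h⟩⟩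
  rw [h1, SylB_CR_iff, SylB_cyc_expand]
  rw [SylB_cyc_congr (g := fun q r : (α × Bool) × ℤ =>
    if r.1 = bar q.1 ∧ q.2 = 0 then 1 else 0) s]
  intro q hq r hr
  have hq' := hs q hq
  have hr' := hs r hr
  rcases q with ⟨x, k⟩
  rcases r with ⟨y, m⟩
  simp only at hq' hr' ⊢
  by_cases hk : k = 0
  · subst hk
    simp [zpw, lin]
  · obtain ⟨n, hn⟩ : ∃ n, k.natAbs = n + 1 := Nat.exists_eq_succ_of_ne_zero (by omega)
    rw [zpw, hn, List.replicate_succ, lin, SylB_lin_replicate]
    have h2 : ∀ b : Bool, ((j, b) : α × Bool) ≠ bar x := by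
      intro b h; apply hq'; have := congrArg Prod.fst h; simpa using this.symm
    have h3 : ∀ b : Bool, y ≠ bar (j, b) := by
      intro b h; apply hr'; have := congrArg Prod.fst h; simpa using this
    have h4 : ∀ b : Bool, ((j, b) : α × Bool) ≠ bar (j, b) := by
      intro b h; exact bar_ne _ h.symm
    simp [hk, h2, h3, h4]

/-- the structure of `shiftLin` -/
theorem SylB_shiftLin (p : α × Bool → ℤ) (q : (α × Bool) × ℤ) (t : List ((α × Bool) × ℤ))
    (z : α × Bool) : ∃ (q' : (α × Bool) × ℤ) (t' : List ((α × Bool) × ℤ)),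
      shiftLin p (q :: t) z = q' :: t' ∧ q'.1 = q.1 ∧ t'.map Prod.fst = t.map Prod.fst ∧
      ∀ (f : (α × Bool) × ℤ → α × Bool → ℕ) (w w' : (α × Bool) × ℤ), w.1 = z → w'.1 = z →
        lin (fun q r => f q r.1) q' t' w =
          lin (fun q r => f (q.1, q.2 + p q.1 - p (bar r.1)) r.1) q t w' := by
  induction t generalizing q with
  | nil =>
    refine ⟨_, _, rfl, rfl, rfl, ?_⟩
    intro f w w' hw hw'
    simp only [lin]
    rw [hw, hw']
  | cons r t ih =>
    obtain ⟨r', t', h1, h2, h3, h4⟩ := ih r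
    refine ⟨(q.1, q.2 + p q.1 - p (bar r.1)), r' :: t', ?_, rfl, ?_, ?_⟩
    · rw [shiftLin, h1]
    · rw [List.map_cons, List.map_cons, h2, h3]
    · intro f w w' hw hw'
      rw [lin, lin, h4 f w w' hw hw', h2]

theorem SylB_shift_fst (p : α × Bool → ℤ) (s : List ((α × Bool) × ℤ)) :
    (shift p s).map Prod.fst = s.map Prod.fst := by
  cases s with
  | nil => rfl
  | cons q t =>
    obtain ⟨q', t', h1, h2, h3, h4⟩ := SylB_shiftLin p q t q.1
    rw [shift, h1, List.map_cons, List.map_cons, h2, h3]

/-- cyclic sums over a shifted form -/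
theorem cyc_shift (f : (α × Bool) × ℤ → α × Bool → ℕ) (p : α × Bool → ℤ)
    (s : List ((α × Bool) × ℤ)) :
    cyc (fun q r => f q r.1) (shift p s) =
      cyc (fun q r => f (q.1, q.2 + p q.1 - p (bar r.1)) r.1) s := by
  cases s with
  | nil => rfl
  | cons q t =>
    obtain ⟨q', t', h1, h2, h3, h4⟩ := SylB_shiftLin p q t q.1
    rw [shift, h1, cyc, cyc, h4 f q' q h2 rfl]

theorem SValid_shift (j : α) (p : α × Bool → ℤ) (s : List ((α × Bool) × ℤ)) (h : SValid j s) :
    SValid j (shift p s) := by
  have hs' : ∀ q ∈ shift p s, q.1.1 ≠ j := by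
    intro q hq
    have h1 : q.1 ∈ (shift p s).map Prod.fst := List.mem_map_of_mem hq
    rw [SylB_shift_fst] at h1
    obtain ⟨r, hr, h2⟩ := List.mem_map.1 h1
    rw [← h2]; exact h.1 r hr
  rw [SValid_iff j _ hs']
  rw [SValid_iff j s h.1] at h
  have h1 := cyc_shift (fun (q : (α × Bool) × ℤ) (y : α × Bool) =>
    if y = bar q.1 ∧ q.2 = 0 then 1 else 0) p s
  rw [h1]
  refine Eq.trans ?_ h
  apply SylB_cyc_congr
  intro q _ r _
  by_cases hr : r.1 = bar q.1
  · simp [hr]
  · simp [hr]

theorem shift_ne_nil (p : α × Bool → ℤ) {s : List ((α × Bool) × ℤ)} (h : s ≠ []) :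
    shift p s ≠ [] := by
  intro h0
  apply h
  have h1 := SylB_shift_fst p s
  rw [h0] at h1
  simpa using h1.symm

theorem sum_shift (p : α × Bool → ℤ) (s : List ((α × Bool) × ℤ)) :
    ((shift p s).map (fun q => q.2.natAbs)).sum =
      cyc (fun q r => (q.2 + p q.1 - p (bar r.1)).natAbs) s := by
  rw [← cyc_fst (fun q : (α × Bool) × ℤ => q.2.natAbs) (shift p s)]
  exact cyc_shift (fun (q : (α × Bool) × ℤ) (_ : α × Bool) => q.2.natAbs) p s

theorem cntL_expand_self (j : α) (s : List ((α × Bool) × ℤ)) (hs : ∀ q ∈ s, q.1.1 ≠ j) :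
    cntL (expand j s) j = (s.map (fun q => q.2.natAbs)).sum := by
  induction s with
  | nil => simp [expand, cntL]
  | cons q t ih =>
    have h1 := ih (fun r hr => hs r (by simp [hr]))
    have h2 := hs q (by simp)
    rw [SylB_expand_cons, List.map_cons, List.sum_cons, ← h1]
    unfold cntL
    rw [List.countP_cons, List.countP_append, zpw, List.countP_replicate]
    simp [h2]

theorem cntL_expand_ne (j : α) (s : List ((α × Bool) × ℤ)) {i : α} (hi : i ≠ j) :
    cntL (expand j s) i = cntL (s.map Prod.fst) i := by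
  have hi' : ¬ j = i := fun h => hi h.symm
  induction s with
  | nil => simp [expand, cntL]
  | cons q t ih =>
    rw [SylB_expand_cons, List.map_cons]
    unfold cntL at ih ⊢
    rw [List.countP_cons, List.countP_append, zpw, List.countP_replicate, ih, List.countP_cons]
    simp [hi']

theorem length_expand (j : α) (s : List ((α × Bool) × ℤ)) :
    (expand j s).length = s.length + (s.map (fun q => q.2.natAbs)).sum := by
  induction s with
  | nil => simp [expand]
  | cons q t ih =>
    rw [SylB_expand_cons, List.length_cons, List.length_append, ih, zpw, List.length_replicate,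
      List.map_cons, List.sum_cons, List.length_cons]
    omega

end Pool.Agent.Sims
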