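import Pool.Agent.Sims.SylDefs

/-!
# Module `SylC` : capacities in terms of syllable forms

The contribution of a syllable `x x_j^k y` (path from `x` to the next letter `y`) to the capacity of
`A` is computed by `lin` over `zpw j k` (induction on `|k|`).
* (a) `A` separates `z` from `z⁻¹`, `z = x_j^{±1}` (`A z`, `¬ A z⁻¹`): the contribution is
  `|k + sgn z * ([A x] - [A y⁻¹])|`.  E.g. `z = x_j`, `k > 0`: pairs `(x,x_j)`: `[A x ≠ A x_j⁻¹] = [A x]`,
  `k-1` pairs `(x_j,x_j)`: 1 each, `(x_j,y)`: `[A x_j ≠ A y⁻¹] = 1 - [A y⁻¹]`.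
* (b) `A` contains neither `x_j` nor `x_j⁻¹`: for `k = 0` it is `[A x ≠ A y⁻¹]`, for `k ≠ 0` it is
  `[A x] + [A y⁻¹]`.
Difficulty 2.
-/

namespace Pool.Agent.Sims

variable {α : Type*} [DecidableEq α]

theorem SylC_lin_replicate {β : Type*} (f : β → β → ℕ) (c : β) (n : ℕ) (y : β) :
    lin f c (List.replicate n c) y = n * f c c + f c y := by
  induction n with
  | zero => simp [lin]
  | succ n ih => rw [List.replicate_succ, lin, ih]; ring

theorem SylC_expand_cons (j : α) (q : (α × Bool) × ℤ) (t : List ((α × Bool) × ℤ)) :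
    expand j (q :: t) = q.1 :: (zpw j q.2 ++ expand j t) := by
  simp [expand]

theorem SylC_lin_expand (f : α × Bool → α × Bool → ℕ) (j : α) (q : (α × Bool) × ℤ)
    (t : List ((α × Bool) × ℤ)) (w : (α × Bool) × ℤ) :
    lin f q.1 (zpw j q.2 ++ expand j t) w.1 =
      lin (fun q r : (α × Bool) × ℤ => lin f q.1 (zpw j q.2) r.1) q t w := by
  induction t generalizing q with
  | nil => simp [expand, lin]
  | cons r t ih =>
    rw [SylC_expand_cons, lin_append, ih, lin]

theorem SylC_cyc_expand (f : α × Bool → α × Bool → ℕ) (j : α) (s : List ((α × Bool) × ℤ)) :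
    cyc f (expand j s) = cyc (fun q r : (α × Bool) × ℤ => lin f q.1 (zpw j q.2) r.1) s := by
  cases s with
  | nil => simp [expand, cyc]
  | cons q t =>
    rw [SylC_expand_cons, cyc, cyc, SylC_lin_expand]

theorem SylC_lin_zpw (f : α × Bool → α × Bool → ℕ) (x : α × Bool) (j : α) (k : ℤ) (y : α × Bool) :
    (k = 0 ∧ lin f x (zpw j k) y = f x y) ∨
    (∃ n : ℕ, k = n + 1 ∧ lin f x (zpw j k) y =
      f x (j, true) + (n * f (j, true) (j, true) + f (j, true) y)) ∨
    (∃ n : ℕ, k = -(n + 1) ∧ lin f x (zpw j k) y =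
      f x (j, false) + (n * f (j, false) (j, false) + f (j, false) y)) := by
  rcases lt_trichotomy k 0 with hk | hk | hk
  · right; right
    obtain ⟨n, hn⟩ : ∃ n, k.natAbs = n + 1 := Nat.exists_eq_succ_of_ne_zero (by omega)
    refine ⟨n, by omega, ?_⟩
    have h1 : ¬ (0 ≤ k) := by omega
    rw [zpw, hn, List.replicate_succ, lin, SylC_lin_replicate]
    simp [h1]
  · left
    subst hk
    simp [zpw, lin]
  · right; left
    obtain ⟨n, hn⟩ : ∃ n, k.natAbs = n + 1 := Nat.exists_eq_succ_of_ne_zero (by omega)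
    refine ⟨n, by omega, ?_⟩
    have h1 : 0 ≤ k := by omega
    rw [zpw, hn, List.replicate_succ, lin, SylC_lin_replicate]
    simp [h1]

theorem cap_expand_sep (s : List ((α × Bool) × ℤ)) (z : α × Bool) (hs : ∀ q ∈ s, q.1.1 ≠ z.1)
    (A : α × Bool → Bool) (hz : A z = true) (hz' : A (bar z) = false) :
    cap (expand z.1 s) A =
      cyc (fun q r => (q.2 + sgn z * ((if A q.1 then 1 else 0) -
        (if A (bar r.1) then 1 else 0))).natAbs) s := by
  rw [cap, SylC_cyc_expand]
  congr 1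
  funext q r
  rcases z with ⟨j, b⟩
  simp only
  rcases SylC_lin_zpw (fun x y => if A x = A (bar y) then 0 else 1) q.1 j q.2 r.1 with
    ⟨h1, h2⟩ | ⟨n, h1, h2⟩ | ⟨n, h1, h2⟩
  · rw [h2, h1]
    cases b <;> cases h3 : A q.1 <;> cases h4 : A (bar r.1) <;> simp [sgn]
  · rw [h2, h1]
    cases b <;> cases h3 : A q.1 <;> cases h4 : A (bar r.1) <;> simp [bar] at hz hz' <;>
      simp [bar, sgn, hz, hz', h3] <;> omega
  · rw [h2, h1]
    cases b <;> cases h3 : A q.1 <;> cases h4 : A (bar r.1) <;> simp [bar] at hz hz' <;>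
      simp [bar, sgn, hz, hz', h3] <;> omega

theorem cap_expand_nonsep (j : α) (s : List ((α × Bool) × ℤ)) (hs : ∀ q ∈ s, q.1.1 ≠ j)
    (A : α × Bool → Bool) (h1 : A (j, true) = false) (h2 : A (j, false) = false) :
    cap (expand j s) A =
      cyc (fun q r => if q.2 = 0 then (if A q.1 = A (bar r.1) then 0 else 1) else
        (if A q.1 then 1 else 0) + (if A (bar r.1) then 1 else 0)) s := by
  rw [cap, SylC_cyc_expand]
  congr 1
  funext q r
  rcases SylC_lin_zpw (fun x y => if A x = A (bar y) then 0 else 1) q.1 j q.2 r.1 with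
    ⟨h3, h4⟩ | ⟨n, h3, h4⟩ | ⟨n, h3, h4⟩
  · rw [h4, h3]; simp
  · have h5 : ¬ (q.2 = 0) := by omega
    rw [h4, if_neg h5]
    cases h6 : A q.1 <;> cases h7 : A (bar r.1) <;> simp [bar, h1, h2]
  · have h5 : ¬ (q.2 = 0) := by omega
    rw [h4, if_neg h5]
    cases h6 : A q.1 <;> cases h7 : A (bar r.1) <;> simp [bar, h1, h2]

theorem SylC_cap_zpw (j : α) (k : ℤ) (A : α × Bool → Bool) :
    cap (zpw j k) A = k.natAbs * (if A (j, true) = A (j, false) then 0 else 1) := by
  rw [cap, zpw]
  cases hn : k.natAbs with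
  | zero => simp [cyc]
  | succ n =>
    rw [List.replicate_succ, cyc, SylC_lin_replicate]
    by_cases hk : 0 ≤ k
    · simp only [hk, decide_true, bar, Bool.not_true]
      ring
    · simp only [hk, decide_false, bar, Bool.not_false]
      by_cases h : A (j, true) = A (j, false)
      · simp [h]
      · have h' : ¬ A (j, false) = A (j, true) := fun h0 => h h0.symm
        simp [h, h']

/-- the case of a power of `x_j` -/
theorem cap_zpw_sep (z : α × Bool) (k : ℤ) (A : α × Bool → Bool) (hz : A z = true)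
    (hz' : A (bar z) = false) : cap (zpw z.1 k) A = k.natAbs := by
  rw [SylC_cap_zpw]
  rcases z with ⟨j, b⟩
  cases b <;> simp [bar] at hz hz' <;> simp [hz, hz']

theorem cap_zpw_nonsep (j : α) (k : ℤ) (A : α × Bool → Bool) (h : A (j, true) = A (j, false)) :
    cap (zpw j k) A = 0 := by
  rw [SylC_cap_zpw]
  simp [h]

end Pool.Agent.Sims
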