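import Pool.Agent.Sims.Lin

/-!
Definitions: syllable forms with respect to a generator `x_j`.
A list `s = [(x_1,k_1),…,(x_r,k_r)]` of letters `x_i ≠ x_j^{±1}` and integers stands for the cyclic
word `x_1 x_j^{k_1} x_2 x_j^{k_2} … x_r x_j^{k_r}`.
-/

namespace Pool.Agent.Sims

variable {α : Type*} [DecidableEq α]

/-- the word `x_j^k` -/
def zpw (j : α) (k : ℤ) : List (α × Bool) := List.replicate k.natAbs (j, decide (0 ≤ k))

/-- the word of a syllable form -/
def expand (j : α) (s : List ((α × Bool) × ℤ)) : List (α × Bool) :=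
  s.flatMap (fun q => q.1 :: zpw j q.2)

/-- shift of the exponents by a potential, the cyclic successor of the last letter being `z` -/
def shiftLin (p : α × Bool → ℤ) : List ((α × Bool) × ℤ) → α × Bool → List ((α × Bool) × ℤ)
  | [], _ => []
  | [q], z => [(q.1, q.2 + p q.1 - p (bar z))]
  | q :: r :: t, z => (q.1, q.2 + p q.1 - p (bar r.1)) :: shiftLin p (r :: t) z

/-- cyclic shift of the exponents by a potential: `k_i ↦ k_i + p(x_i) - p(x_{i+1}⁻¹)` -/
def shift (p : α × Bool → ℤ) : List ((α × Bool) × ℤ) → List ((α × Bool) × ℤ)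
  | [] => []
  | (q :: t) => shiftLin p (q :: t) q.1

/-- valid syllable form -/
def SValid (j : α) (s : List ((α × Bool) × ℤ)) : Prop :=
  (∀ q ∈ s, q.1.1 ≠ j) ∧ CR (expand j s)

end Pool.Agent.Sims
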