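import Mathlib

/-!
# Module `TArith` : the function `k ↦ C + Σ |m_i + k κ_i|`

* `lineF_even`: `|m + (k+1)κ| - |m + kκ|` is odd for `κ = ±1`; if the two sums are equal the number of terms is
  even.
* `lineF_range`: `|k - k'| = |(m + kκ) - (m + k'κ)| ≤ |m + kκ| + |m + k'κ|`; sum over `L`.
* `lineF_set`: the set `{k | f k = N}` is contained in an interval of length `D`: if `L.length ≥ 2` and
  `L.length * |k - k'| ≤ 2 (N - C)` for all `k, k'` in it, `N - C ≤ L.length + E` then `|k - k'| ≤ 2 + E`
  (`L.length * (|k-k'| - 2) ≤ 2 E`), so it has at most `E + 3` elements.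
Difficulty 1.
-/

namespace Pool.Agent.Sims

/-- the function of a line -/
def lineF (L : List (ℤ × ℤ)) (C : ℕ) (k : ℤ) : ℕ :=
  C + (L.map (fun q => (q.1 + k * q.2).natAbs)).sum

theorem TArith_even_aux {L : List (ℤ × ℤ)} (hL : ∀ q ∈ L, q.2 = 1 ∨ q.2 = -1) (k : ℤ) :
    ((L.map (fun q => (q.1 + (k + 1) * q.2).natAbs)).sum + (L.map (fun q => (q.1 + k * q.2).natAbs)).sum
      + L.length) % 2 = 0 := by
  induction L with
  | nil => simp
  | cons q L ih =>
    have ih' := ih (fun q hq => hL q (List.mem_cons_of_mem _ hq))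
    have hq := hL q List.mem_cons_self
    simp only [List.map_cons, List.sum_cons, List.length_cons]
    have h1 : (q.1 + (k + 1) * q.2).natAbs % 2 = ((q.1 + k * q.2).natAbs + 1) % 2 := by
      rcases hq with h | h <;> rw [h] <;> omega
    omega

theorem lineF_even {L : List (ℤ × ℤ)} (hL : ∀ q ∈ L, q.2 = 1 ∨ q.2 = -1) {C : ℕ} {k : ℤ}
    (h : lineF L C (k + 1) = lineF L C k) : Even L.length := by
  have h1 := TArith_even_aux hL k
  unfold lineF at h
  rw [Nat.even_iff]
  omega

theorem TArith_range_aux {L : List (ℤ × ℤ)} (hL : ∀ q ∈ L, q.2 = 1 ∨ q.2 = -1) (k k' : ℤ) :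
    L.length * (k - k').natAbs ≤ (L.map (fun q => (q.1 + k * q.2).natAbs)).sum +
      (L.map (fun q => (q.1 + k' * q.2).natAbs)).sum := by
  induction L with
  | nil => simp
  | cons q L ih =>
    have ih' := ih (fun q hq => hL q (List.mem_cons_of_mem _ hq))
    have hq := hL q List.mem_cons_self
    simp only [List.map_cons, List.sum_cons, List.length_cons]
    have h1 : (k - k').natAbs ≤ (q.1 + k * q.2).natAbs + (q.1 + k' * q.2).natAbs := by
      rcases hq with h | h <;> rw [h] <;> omega
    rw [Nat.add_mul, Nat.one_mul]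
    omega

theorem lineF_range {L : List (ℤ × ℤ)} (hL : ∀ q ∈ L, q.2 = 1 ∨ q.2 = -1) {C N : ℕ} {k k' : ℤ}
    (h : lineF L C k = N) (h' : lineF L C k' = N) :
    L.length * (k - k').natAbs + 2 * C ≤ 2 * N := by
  have h1 := TArith_range_aux hL k k'
  unfold lineF at h h'
  omega

theorem lineF_set {L : List (ℤ × ℤ)} (hL : ∀ q ∈ L, q.2 = 1 ∨ q.2 = -1) {C N E : ℕ}
    (hl : 2 ≤ L.length) (hN : N ≤ C + L.length + E) :
    ∃ S : Finset ℤ, S.card ≤ E + 3 ∧ ∀ k, lineF L C k = N ↔ k ∈ S := by
  by_cases hne : ∃ k, lineF L C k = N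
  · obtain ⟨k0, hk0⟩ := hne
    have hdist : ∀ k k', lineF L C k = N → lineF L C k' = N → (k - k').natAbs ≤ 2 + E := by
      intro k k' h h'
      have h1 := lineF_range hL h h'
      by_contra hcon
      push Not at hcon
      have h2 : L.length * (2 + E + 1) ≤ L.length * (k - k').natAbs := Nat.mul_le_mul_left _ hcon
      have h3 : L.length * (2 + E + 1) = L.length * 2 + L.length * E + L.length := by ring
      have h4 : 2 * E ≤ L.length * E := Nat.mul_le_mul_right _ hl
      omega
    -- the set is bounded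
    have hfin : {k | lineF L C k = N}.Finite := by
      apply (Set.finite_Icc (k0 - (2 + E : ℕ)) (k0 + (2 + E : ℕ))).subset
      intro k hk
      have := hdist k k0 hk hk0
      simp only [Set.mem_Icc]
      omega
    have hneS : hfin.toFinset.Nonempty := ⟨k0, by simpa using hk0⟩
    refine ⟨hfin.toFinset, ?_, fun k => by simp⟩
    set S := hfin.toFinset with hS
    have hmem : ∀ k ∈ S, lineF L C k = N := fun k hk => by simpa [hS] using hk
    have hmin := hmem _ (S.min'_mem hneS)
    have hsub : S ⊆ Finset.Icc (S.min' hneS) (S.min' hneS + (2 + E : ℕ)) := by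
      intro k hk
      have h1 := hdist k _ (hmem k hk) hmin
      have h2 := S.min'_le k hk
      simp only [Finset.mem_Icc]
      omega
    have := Finset.card_le_card hsub
    rw [Int.card_Icc] at this
    omega
  · push Not at hne
    exact ⟨∅, by simp, fun k => by simp [hne k]⟩

end Pool.Agent.Sims
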