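import Pool.Agent.Sims.TClosedB

/-!
# Module `TClosed` : summary (proved from `tclosedA`, `tclosedB`)

Let `n_b = tcnt Q 1 ≤ n_c = tcnt Q 2`, `ℓ = n_b + n_c`.
* `tclosed3`: `n_b ≥ 3`, `ℓ ≥ 9`: the closed set has at most `ℓ - 5` elements.  If `card ≤ 1`: clear.  `n_b < n_c`, `n_b` even:
  `n_b ≥ 4`, `card ≤ n_c - n_b + 3 = ℓ - 2 n_b + 3 ≤ ℓ - 5`.  `n_b = n_c` even: `2 n_b ≥ 9` so `n_b ≥ 6`, `ℓ ≥ 12`,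
  `card ≤ 5 ≤ ℓ - 5`.
* `tclosed2`: `n_b ≥ 2`, `ℓ ≥ 6`: at most `ℓ - 1` elements.
Difficulty 1.
-/

namespace Pool.Agent.Sims

open FreeGroup (of)

theorem tclosed3 {Q : List CC} (hQ : No0 Q) (h : tcnt Q 1 ≤ tcnt Q 2) (h3 : 3 ≤ tcnt Q 1)
    (h9 : 9 ≤ tcnt Q 1 + tcnt Q 2) :
    ∃ 𝒬 : Finset (List CC), Q ∈ 𝒬 ∧
      (∀ R ∈ 𝒬, No0 R ∧ R.length = Q.length ∧ tcnt R 1 = tcnt Q 1 ∧ tcnt R 2 = tcnt Q 2) ∧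
      𝒬.card + 5 ≤ tcnt Q 1 + tcnt Q 2 ∧
      (∀ R ∈ 𝒬, TMin R → ∀ R', TStep R R' →
        ∃ σ : SPerm (Fin 3), Fix0 σ ∧ ∃ R'' ∈ 𝒬, R' = tact σ.aut R'') := by
  rcases Nat.lt_or_ge (tcnt Q 1) (tcnt Q 2) with hlt | hge
  · obtain ⟨𝒬, h1, h2, h3', h4⟩ := tclosedA hQ hlt
    refine ⟨𝒬, h1, h2, ?_, h4⟩
    rcases h3' with hc | ⟨⟨r, hr⟩, hc⟩
    · omega
    · omega
  · have he : tcnt Q 1 = tcnt Q 2 := le_antisymm h hge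
    obtain ⟨𝒬, h1, h2, h3', h4⟩ := tclosedB hQ he
    refine ⟨𝒬, h1, h2, ?_, fun R hR _ R' hs => h4 R hR R' hs⟩
    rcases h3' with hc | ⟨⟨r, hr⟩, hc⟩
    · omega
    · omega

theorem tclosed2 {Q : List CC} (hQ : No0 Q) (h : tcnt Q 1 ≤ tcnt Q 2) (h2 : 2 ≤ tcnt Q 1)
    (h6 : 6 ≤ tcnt Q 1 + tcnt Q 2) :
    ∃ 𝒬 : Finset (List CC), Q ∈ 𝒬 ∧
      (∀ R ∈ 𝒬, No0 R ∧ R.length = Q.length ∧ tcnt R 1 = tcnt Q 1 ∧ tcnt R 2 = tcnt Q 2) ∧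
      𝒬.card + 1 ≤ tcnt Q 1 + tcnt Q 2 ∧
      (∀ R ∈ 𝒬, TMin R → ∀ R', TStep R R' →
        ∃ σ : SPerm (Fin 3), Fix0 σ ∧ ∃ R'' ∈ 𝒬, R' = tact σ.aut R'') := by
  rcases Nat.lt_or_ge (tcnt Q 1) (tcnt Q 2) with hlt | hge
  · obtain ⟨𝒬, h1, h2', h3', h4⟩ := tclosedA hQ hlt
    refine ⟨𝒬, h1, h2', ?_, h4⟩
    rcases h3' with hc | ⟨⟨r, hr⟩, hc⟩
    · omega
    · omega
  · have he : tcnt Q 1 = tcnt Q 2 := le_antisymm h hge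
    obtain ⟨𝒬, h1, h2', h3', h4⟩ := tclosedB hQ he
    refine ⟨𝒬, h1, h2', ?_, fun R hR _ R' hs => h4 R hR R' hs⟩
    rcases h3' with hc | ⟨⟨r, hr⟩, hc⟩
    · omega
    · omega

end Pool.Agent.Sims
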