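import Pool.Agent.Sims.TLine

/-!
# Module `TRel` : relations between `tau^{±1}`, `sig^{±1}` on classes of `⟨b, c⟩`

Use `act_conj12`.  The signed permutations (all with `a ↦ a`):
* `rel1`: `tau⁻¹ sig`: `c ↦ c b ↦ c b c⁻¹`, `b ↦ b c⁻¹`.  `π tau` with `π: b ↦ c⁻¹, c ↦ b`: `b ↦ c⁻¹ b`, `c ↦ b`;
  conjugate by `c`.
* `rel2`: `sig⁻¹ tau`: `b ↦ b c ↦ b c b⁻¹`, `c ↦ c b⁻¹`.  `π sig`, `π: b ↦ c, c ↦ b⁻¹`: `b ↦ c`, `c ↦ b⁻¹ c`; conjugate by `b`.
* `rel3`: `tau sig⁻¹`: `c ↦ c b⁻¹ ↦ c c⁻¹ b⁻¹ = b⁻¹`, `b ↦ b c`.  `π tau⁻¹`, `π: b ↦ c, c ↦ b⁻¹`: `b ↦ c b`, `c ↦ b⁻¹`;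
  conjugate by `b`.
* `rel4`: `sig tau⁻¹`: `b ↦ b c⁻¹ ↦ b b⁻¹ c⁻¹ = c⁻¹`, `c ↦ c b`.  `π sig⁻¹`, `π: b ↦ c⁻¹, c ↦ b`: `b ↦ c⁻¹`, `c ↦ b c`;
  conjugate by `c`.
* `tcap_single`: `ε = 1`: by `cnt_wh_self` both sides are the capacity of `{b, c}`: `tau 1 = wh c {b, c}`,
  `sig 1 = wh b {b, c}`.  `ε = -1`: `tau (-1) = wh c⁻¹ {c⁻¹, b}`, `sig (-1) = wh b⁻¹ {b⁻¹, c}`; the complement of
  `{c⁻¹, b}` is `{a, a⁻¹, b⁻¹, c}` (`capC_compl`), and it has the same capacity as `{b⁻¹, c}`, because the word has no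
  letters `a^{±1}` (all indicators only see letters of `b, c`: write `capC` as a cyclic sum over `rep`).
* `tmove`: `z.1 = 2`: on `b, c` the automorphism `wh z A` is one of: identity; `b ↦ b z`; `b ↦ z⁻¹ b` (conjugate by
  `z` to `b ↦ b z⁻¹`, `c ↦ c`); conjugation by `z`.  `z.1 = 1`: exchange `b` and `c`.
Difficulty 2.
-/

namespace Pool.Agent.Sims

set_option linter.unusedSimpArgs false

open FreeGroup (of)

theorem TRel_tau_b (k : ℤ) : tau k (of 1) = of 1 * (of 2) ^ k := by
  change potFun (2 : Fin 3) (fun x => if x = (1, true) then k else 0) (of 1) = _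
  rw [potFun_of_ne _ (by decide)]
  simp

theorem TRel_tau_c (k : ℤ) : tau k (of 2) = of 2 := by
  change potFun (2 : Fin 3) (fun x => if x = (1, true) then k else 0) (of 2) = _
  rw [potFun_of_self]

theorem TRel_sig_c (k : ℤ) : sig k (of 2) = of 2 * (of 1) ^ k := by
  change potFun (1 : Fin 3) (fun x => if x = (2, true) then k else 0) (of 2) = _
  rw [potFun_of_ne _ (by decide)]
  simp

theorem TRel_sig_b (k : ℤ) : sig k (of 1) = of 1 := by
  change potFun (1 : Fin 3) (fun x => if x = (2, true) then k else 0) (of 1) = _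
  rw [potFun_of_self]

theorem TRel_aut (σ : SPerm (Fin 3)) (i : Fin 3) : σ.aut (of i) = lett (σ.letter (i, true)) := by
  have h := SPerm.hom_lett σ (i, true)
  rw [lett_true] at h
  exact h

/-- `b ↦ c⁻¹`, `c ↦ b` -/
def TRel_p1 : SPerm (Fin 3) := ⟨Equiv.swap 1 2, fun i => decide (i ≠ 1)⟩

/-- `b ↦ c`, `c ↦ b⁻¹` -/
def TRel_p2 : SPerm (Fin 3) := ⟨Equiv.swap 1 2, fun i => decide (i ≠ 2)⟩

theorem TRel_p1_b : TRel_p1.aut (of 1) = (of 2)⁻¹ := by
  rw [TRel_aut]
  have : TRel_p1.letter (1, true) = (2, false) := by decide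
  rw [this, lett_false]

theorem TRel_p1_c : TRel_p1.aut (of 2) = of 1 := by
  rw [TRel_aut]
  have : TRel_p1.letter (2, true) = (1, true) := by decide
  rw [this, lett_true]

theorem TRel_p2_b : TRel_p2.aut (of 1) = of 2 := by
  rw [TRel_aut]
  have : TRel_p2.letter (1, true) = (2, true) := by decide
  rw [this, lett_true]

theorem TRel_p2_c : TRel_p2.aut (of 2) = (of 1)⁻¹ := by
  rw [TRel_aut]
  have : TRel_p2.letter (2, true) = (1, false) := by decide
  rw [this, lett_false]

theorem rel1 : ∃ π : SPerm (Fin 3), Fix0 π ∧ ∀ R : CC, cnt R 0 = 0 →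
    act (tau (-1)) (act (sig 1) R) = act π.aut (act (tau 1) R) := by
  refine ⟨TRel_p1, ⟨by decide, by decide⟩, fun R hR => ?_⟩
  rw [act_act, act_act]
  apply act_conj12 _ _ (of 2) _ _ hR
  · simp only [MulEquiv.trans_apply, TRel_sig_b, TRel_tau_b, map_mul, map_zpow, TRel_p1_b,
      TRel_p1_c]
    group
  · simp only [MulEquiv.trans_apply, TRel_sig_c, TRel_tau_b, TRel_tau_c, map_mul, map_zpow,
      TRel_p1_b, TRel_p1_c]
    group

theorem rel2 : ∃ π : SPerm (Fin 3), Fix0 π ∧ ∀ R : CC, cnt R 0 = 0 →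
    act (sig (-1)) (act (tau 1) R) = act π.aut (act (sig 1) R) := by
  refine ⟨TRel_p2, ⟨by decide, by decide⟩, fun R hR => ?_⟩
  rw [act_act, act_act]
  apply act_conj12 _ _ (of 1) _ _ hR
  · simp only [MulEquiv.trans_apply, TRel_sig_b, TRel_sig_c, TRel_tau_b, map_mul, map_zpow,
      TRel_p2_b, TRel_p2_c]
    group
  · simp only [MulEquiv.trans_apply, TRel_sig_c, TRel_tau_b, TRel_tau_c, map_mul, map_zpow,
      TRel_p2_b, TRel_p2_c]
    group

theorem rel3 : ∃ π : SPerm (Fin 3), Fix0 π ∧ ∀ R : CC, cnt R 0 = 0 →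
    act (tau 1) (act (sig (-1)) R) = act π.aut (act (tau (-1)) R) := by
  refine ⟨TRel_p2, ⟨by decide, by decide⟩, fun R hR => ?_⟩
  rw [act_act, act_act]
  apply act_conj12 _ _ (of 1) _ _ hR
  · simp only [MulEquiv.trans_apply, TRel_sig_b, TRel_sig_c, TRel_tau_b, map_mul, map_zpow,
      TRel_p2_b, TRel_p2_c]
    group
  · simp only [MulEquiv.trans_apply, TRel_sig_c, TRel_tau_b, TRel_tau_c, map_mul, map_zpow,
      TRel_p2_b, TRel_p2_c]
    group

theorem rel4 : ∃ π : SPerm (Fin 3), Fix0 π ∧ ∀ R : CC, cnt R 0 = 0 →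
    act (sig 1) (act (tau (-1)) R) = act π.aut (act (sig (-1)) R) := by
  refine ⟨TRel_p1, ⟨by decide, by decide⟩, fun R hR => ?_⟩
  rw [act_act, act_act]
  apply act_conj12 _ _ (of 2) _ _ hR
  · simp only [MulEquiv.trans_apply, TRel_sig_b, TRel_sig_c, TRel_tau_b, map_mul, map_zpow,
      TRel_p1_b, TRel_p1_c]
    group
  · simp only [MulEquiv.trans_apply, TRel_sig_b, TRel_sig_c, TRel_tau_b, TRel_tau_c, map_mul,
      map_zpow, TRel_p1_b, TRel_p1_c]
    group

/-- `pot j p` does not depend on `p` at the letters `x_j^{±1}` -/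
theorem TRel_pot_congr (j : Fin 3) {p q : Fin 3 × Bool → ℤ} (h : ∀ x, x.1 ≠ j → p x = q x) :
    pot j p = pot j q := by
  apply Rel_ext
  intro i
  refine ⟨true, ?_⟩
  by_cases hi : i = j
  · rw [Rel_pot_self j p (x := (i, true)) hi, Rel_pot_self j q (x := (i, true)) hi]
  · rw [Rel_pot_ne p (x := (i, true)) hi, Rel_pot_ne q (x := (i, true)) hi, h (i, true) hi,
      h (bar (i, true)) hi]

/-- `tau ε` and `sig ε` as Whitehead automorphisms -/
theorem TRel_tau_wh {ε : ℤ} (hε : ε = 1 ∨ ε = -1) :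
    tau ε = wh ((2 : Fin 3), decide (0 ≤ ε)) (pr (2, decide (0 ≤ ε)) (1, true)) := by
  unfold tau wh
  apply TRel_pot_congr
  intro x hx
  obtain ⟨i, b⟩ := x
  simp only at hx
  rcases hε with rfl | rfl
  · fin_cases i
    · cases b <;> simp [whp, pr, sgn]
    · cases b <;> simp [whp, pr, sgn]
    · exact absurd rfl hx
  · fin_cases i
    · cases b <;> simp [whp, pr, sgn]
    · cases b <;> simp [whp, pr, sgn]
    · exact absurd rfl hx

theorem TRel_sig_wh {ε : ℤ} (hε : ε = 1 ∨ ε = -1) :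
    sig ε = wh ((1 : Fin 3), decide (0 ≤ ε)) (pr (1, decide (0 ≤ ε)) (2, true)) := by
  unfold sig wh
  apply TRel_pot_congr
  intro x hx
  obtain ⟨i, b⟩ := x
  simp only at hx
  rcases hε with rfl | rfl
  · fin_cases i
    · cases b <;> simp [whp, pr, sgn]
    · exact absurd rfl hx
    · cases b <;> simp [whp, pr, sgn]
  · fin_cases i
    · cases b <;> simp [whp, pr, sgn]
    · exact absurd rfl hx
    · cases b <;> simp [whp, pr, sgn]

/-- capacities of a class without letters `a^{±1}` only see the letters of `b, c` -/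
theorem TRel_capC_congr {R : CC} (hR : cnt R 0 = 0) {A B : Fin 3 × Bool → Bool}
    (h : ∀ x, x.1 ≠ 0 → A x = B x) : capC R A = capC R B := by
  unfold capC cap
  apply SylB_cyc_congr
  have hl : ∀ x ∈ rep R, x.1 ≠ 0 := by
    intro x hx h0
    unfold cnt cntL at hR
    rw [List.countP_eq_zero] at hR
    have := hR x hx
    simp [h0] at this
  intro x hx y hy
  rw [h x (hl x hx), h (bar y) (hl y hy)]

theorem tcap_single {R : CC} (hR : cnt R 0 = 0) {ε : ℤ} (hε : ε = 1 ∨ ε = -1) :
    cnt (act (sig ε) R) 1 = cnt (act (tau ε) R) 2 := by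
  rw [TRel_tau_wh hε, TRel_sig_wh hε]
  have h1 := cnt_wh_self R ((2 : Fin 3), decide (0 ≤ ε)) (pr (2, decide (0 ≤ ε)) (1, true))
    (by simp [pr]) (by simp [pr, bar])
  have h2 := cnt_wh_self R ((1 : Fin 3), decide (0 ≤ ε)) (pr (1, decide (0 ≤ ε)) (2, true))
    (by simp [pr]) (by simp [pr, bar])
  simp only at h1 h2
  rw [h1, h2]
  rcases hε with rfl | rfl
  · apply TRel_capC_congr hR
    intro x _
    simp only [pr]
    rw [Bool.or_comm]
    simp
  · rw [← capC_compl R (pr (2, decide ((0 : ℤ) ≤ -1)) (1, true))]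
    apply TRel_capC_congr hR
    intro x hx
    obtain ⟨i, b⟩ := x
    simp only at hx
    fin_cases i
    · exact absurd rfl hx
    · cases b <;> simp [pr]
    · cases b <;> simp [pr]

theorem TRel_wh_self (z : Fin 3 × Bool) (A : Fin 3 × Bool → Bool) {i : Fin 3} (h : z.1 = i) :
    wh z A (of i) = of i := by
  have := Rel_wh_self' z A (x := (i, true)) h.symm
  rwa [lett_true] at this

theorem TRel_wh_ne (z : Fin 3 × Bool) (A : Fin 3 × Bool → Bool) {i : Fin 3} (h : i ≠ z.1) :
    wh z A (of i) = (if A (i, false) then (lett z)⁻¹ else 1) * of i *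
      (if A (i, true) then lett z else 1) := by
  have := wh_lett_ne z A (x := (i, true)) h
  rw [lett_true] at this
  exact this

theorem tmove {z : Fin 3 × Bool} (hz : z.1 ≠ 0) (A : Fin 3 × Bool → Bool) :
    ∃ φ : FreeGroup (Fin 3) ≃* FreeGroup (Fin 3),
      (φ = MulEquiv.refl _ ∨ (z.1 = 2 ∧ (φ = tau 1 ∨ φ = tau (-1))) ∨
        (z.1 = 1 ∧ (φ = sig 1 ∨ φ = sig (-1)))) ∧
      ∀ R : CC, cnt R 0 = 0 → act (wh z A) R = act φ R := by
  obtain ⟨i, s⟩ := z
  simp only at hz
  have hi : i = 1 ∨ i = 2 := by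
    revert i
    decide
  rcases hi with rfl | rfl
  · -- multiplier `b`
    have hb := TRel_wh_self (1, s) A (i := 1) rfl
    have hc := TRel_wh_ne (1, s) A (i := 2) (show (2 : Fin 3) ≠ 1 by decide)
    have hz' : lett ((1 : Fin 3), s) = of 1 ∨ lett ((1 : Fin 3), s) = (of 1)⁻¹ := by
      cases s
      · exact Or.inr (lett_false 1)
      · exact Or.inl (lett_true 1)
    by_cases h1 : A (2, true) = true
    · by_cases h2 : A (2, false) = true
      · refine ⟨MulEquiv.refl _, Or.inl rfl, fun R hR => ?_⟩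
        apply act_conj12 _ _ (lett ((1 : Fin 3), s))⁻¹ _ _ hR
        · rw [hb]
          simp only [MulEquiv.refl_apply]
          rcases hz' with h | h <;> rw [h] <;> group
        · rw [hc]
          simp only [MulEquiv.refl_apply, h1, h2, if_true]
          group
      · rcases hz' with h | h
        · refine ⟨sig 1, Or.inr (Or.inr ⟨rfl, Or.inl rfl⟩), fun R hR => ?_⟩
          apply act_conj12 _ _ 1 _ _ hR
          · rw [hb, TRel_sig_b]; group
          · rw [hc, TRel_sig_c]
            simp only [h1, h2, if_true, h]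
            simp
        · refine ⟨sig (-1), Or.inr (Or.inr ⟨rfl, Or.inr rfl⟩), fun R hR => ?_⟩
          apply act_conj12 _ _ 1 _ _ hR
          · rw [hb, TRel_sig_b]; group
          · rw [hc, TRel_sig_c]
            simp only [h1, h2, if_true, h]
            simp
    · by_cases h2 : A (2, false) = true
      · rcases hz' with h | h
        · refine ⟨sig (-1), Or.inr (Or.inr ⟨rfl, Or.inr rfl⟩), fun R hR => ?_⟩
          apply act_conj12 _ _ (of 1)⁻¹ _ _ hR
          · rw [hb, TRel_sig_b]; group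
          · rw [hc, TRel_sig_c]
            simp only [h1, h2, if_true, h]
            simp
            group
        · refine ⟨sig 1, Or.inr (Or.inr ⟨rfl, Or.inl rfl⟩), fun R hR => ?_⟩
          apply act_conj12 _ _ (of 1) _ _ hR
          · rw [hb, TRel_sig_b]; group
          · rw [hc, TRel_sig_c]
            simp only [h1, h2, if_true, h]
            simp
            group
      · refine ⟨MulEquiv.refl _, Or.inl rfl, fun R hR => ?_⟩
        apply act_conj12 _ _ 1 _ _ hR
        · rw [hb]; simp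
        · rw [hc]
          simp [h1, h2]
  · -- multiplier `c`
    have hc := TRel_wh_self (2, s) A (i := 2) rfl
    have hb := TRel_wh_ne (2, s) A (i := 1) (show (1 : Fin 3) ≠ 2 by decide)
    have hz' : lett ((2 : Fin 3), s) = of 2 ∨ lett ((2 : Fin 3), s) = (of 2)⁻¹ := by
      cases s
      · exact Or.inr (lett_false 2)
      · exact Or.inl (lett_true 2)
    by_cases h1 : A (1, true) = true
    · by_cases h2 : A (1, false) = true
      · refine ⟨MulEquiv.refl _, Or.inl rfl, fun R hR => ?_⟩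
        apply act_conj12 _ _ (lett ((2 : Fin 3), s))⁻¹ _ _ hR
        · rw [hb]
          simp only [MulEquiv.refl_apply, h1, h2, if_true]
          group
        · rw [hc]
          simp only [MulEquiv.refl_apply]
          rcases hz' with h | h <;> rw [h] <;> group
      · rcases hz' with h | h
        · refine ⟨tau 1, Or.inr (Or.inl ⟨rfl, Or.inl rfl⟩), fun R hR => ?_⟩
          apply act_conj12 _ _ 1 _ _ hR
          · rw [hb, TRel_tau_b]
            simp only [h1, h2, if_true, h]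
            simp
          · rw [hc, TRel_tau_c]; group
        · refine ⟨tau (-1), Or.inr (Or.inl ⟨rfl, Or.inr rfl⟩), fun R hR => ?_⟩
          apply act_conj12 _ _ 1 _ _ hR
          · rw [hb, TRel_tau_b]
            simp only [h1, h2, if_true, h]
            simp
          · rw [hc, TRel_tau_c]; group
    · by_cases h2 : A (1, false) = true
      · rcases hz' with h | h
        · refine ⟨tau (-1), Or.inr (Or.inl ⟨rfl, Or.inr rfl⟩), fun R hR => ?_⟩
          apply act_conj12 _ _ (of 2)⁻¹ _ _ hR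
          · rw [hb, TRel_tau_b]
            simp only [h1, h2, if_true, h]
            simp
            group
          · rw [hc, TRel_tau_c]; group
        · refine ⟨tau 1, Or.inr (Or.inl ⟨rfl, Or.inl rfl⟩), fun R hR => ?_⟩
          apply act_conj12 _ _ (of 2) _ _ hR
          · rw [hb, TRel_tau_b]
            simp only [h1, h2, if_true, h]
            simp
            group
          · rw [hc, TRel_tau_c]; group
      · refine ⟨MulEquiv.refl _, Or.inl rfl, fun R hR => ?_⟩
        apply act_conj12 _ _ 1 _ _ hR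
        · rw [hb]
          simp [h1, h2]
        · rw [hc]; simp

end Pool.Agent.Sims
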