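import Pool.Agent.Sims.TArith
import Pool.Agent.Sims.TRel

/-!
# Module `TClosedA` : closed sets of lists of classes, unequal counts

`Q` a list of classes of `⟨b,c⟩`, `n_b = tcnt Q 1 < n_c = tcnt Q 2`.  `L, C, δ` from `line_list`.
If neither `tau 1` nor `tau (-1)` preserves `tcnt _ 2` of `Q`: `𝒬 = {Q}`.  Let `TMin Q` and `TStep Q R'`: it is not a
`tau`-step; for a `sig ε`-step: `tcnt (sig^ε Q) 1 = tcnt (tau^ε Q) 2 ≥ tcnt Q 2 > tcnt Q 1` (`tcap_single` summed over the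
list, `TMin`): contradiction.
If some `tau^{±1}` preserves `tcnt Q 2`: `L.length` is even (`lineF_even` for `k = 0` or `k = -1`), so `n_b = L.length + δ`
is even.  If `L = []`: `tact (tau k) Q = Q`, `𝒬 = {Q}` works (`tau`-steps lead to `Q`, no `sig`-steps as before).
Otherwise `L.length ≥ 2` and `n_c ≤ C + L.length + (n_c - n_b)` (as `C ≥ δ = n_b - L.length`); let `S` be the finite set
`lineF_set` with `N = n_c`, `E = n_c - n_b`, and `𝒬 = {tact (tau k) Q | k ∈ S}`; it contains `Q` (`k = 0`) and is closed under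
`tau`-steps (`tau_add`); `sig`-steps are impossible for `TMin` members as before (all members have the same
counts).
Difficulty 2.
-/

namespace Pool.Agent.Sims

open FreeGroup (of)

theorem tcap {Q : List CC} (hQ : No0 Q) {ε : ℤ} (hε : ε = 1 ∨ ε = -1) :
    tcnt (tact (sig ε) Q) 1 = tcnt (tact (tau ε) Q) 2 := by
  unfold tcnt tact
  rw [List.map_map, List.map_map]
  congr 1
  apply List.map_congr_left
  intro c hc
  exact tcap_single (hQ c hc) hε

/-- the trivial signed permutation -/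
theorem TClosedA_id (c : CC) : act (flp (fun _ => true)).aut c = c := by
  have h := act_conj (flp (fun _ : Fin 3 => true)).aut (MulEquiv.refl (FreeGroup (Fin 3))) 1 (by
    intro i
    change (flp (fun _ : Fin 3 => true)).hom (of i) = 1 * of i * 1⁻¹
    rw [← lett_true, SPerm.hom_lett]
    simp [SPerm.letter, flp]) c
  rw [h, act_refl]

theorem TClosedA_tid (Q : List CC) : Q = tact (flp (fun _ => true)).aut Q := by
  unfold tact
  conv_lhs => rw [← List.map_id Q]
  apply List.map_congr_left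
  intro c _
  rw [TClosedA_id]
  rfl

theorem TClosedA_fix : Fix0 (flp (fun _ => true)) := ⟨rfl, rfl⟩

theorem TClosedA_nosig {R : List CC} (hR : No0 R) (h : tcnt R 1 < tcnt R 2) (hm : TMin R)
    {ε : ℤ} (hε : ε = 1 ∨ ε = -1) : tcnt (tact (sig ε) R) 1 ≠ tcnt R 1 := by
  rw [tcap hR hε]
  rcases hε with rfl | rfl
  · have := hm.1
    omega
  · have := hm.2
    omega

theorem TClosedA_tau_tau (k l : ℤ) (Q : List CC) :
    tact (tau k) (tact (tau l) Q) = tact (tau (k + l)) Q := by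
  unfold tact
  rw [List.map_map]
  apply List.map_congr_left
  intro c _
  exact tau_add k l c

theorem TClosedA_tau_zero (Q : List CC) : tact (tau 0) Q = Q := by
  unfold tact
  conv_rhs => rw [← List.map_id Q]
  apply List.map_congr_left
  intro c _
  exact tau_zero c

theorem TClosedA_cnt (k : ℤ) (Q : List CC) {i : Fin 3} (hi : i ≠ 2) :
    tcnt (tact (tau k) Q) i = tcnt Q i := by
  unfold tcnt tact
  rw [List.map_map]
  congr 1
  apply List.map_congr_left
  intro c _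
  exact cnt_tau k c hi

theorem TClosedA_no0 (k : ℤ) {Q : List CC} (hQ : No0 Q) : No0 (tact (tau k) Q) := by
  intro c hc
  unfold tact at hc
  obtain ⟨c', hc', rfl⟩ := List.mem_map.1 hc
  rw [cnt_tau k c' (by decide)]
  exact hQ c' hc'

theorem TClosedA_one {Q : List CC} (hQ : No0 Q) (h : tcnt Q 1 < tcnt Q 2)
    (hs : ∀ ε : ℤ, ε = 1 ∨ ε = -1 → tcnt (tact (tau ε) Q) 2 = tcnt Q 2 → tact (tau ε) Q = Q) :
    ∃ 𝒬 : Finset (List CC), Q ∈ 𝒬 ∧
      (∀ R ∈ 𝒬, No0 R ∧ R.length = Q.length ∧ tcnt R 1 = tcnt Q 1 ∧ tcnt R 2 = tcnt Q 2) ∧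
      (𝒬.card ≤ 1 ∨ (Even (tcnt Q 1) ∧ 𝒬.card ≤ tcnt Q 2 - tcnt Q 1 + 3)) ∧
      (∀ R ∈ 𝒬, TMin R → ∀ R', TStep R R' →
        ∃ σ : SPerm (Fin 3), Fix0 σ ∧ ∃ R'' ∈ 𝒬, R' = tact σ.aut R'') := by
  refine ⟨{Q}, Finset.mem_singleton_self Q, ?_, Or.inl (by simp), ?_⟩
  · intro R hR
    rw [Finset.mem_singleton] at hR
    subst hR
    exact ⟨hQ, rfl, rfl, rfl⟩
  · intro R hR hm R' hst
    rw [Finset.mem_singleton] at hR
    subst hR
    refine ⟨flp (fun _ => true), TClosedA_fix, R, Finset.mem_singleton_self R, ?_⟩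
    rw [← TClosedA_tid]
    rcases hst with ⟨h1 | h1, h2⟩ | ⟨h1 | h1, h2⟩
    · rw [h1] at h2 ⊢
      exact hs 1 (Or.inl rfl) h2
    · rw [h1] at h2 ⊢
      exact hs (-1) (Or.inr rfl) h2
    · rw [h1] at h2
      exact absurd h2 (TClosedA_nosig hQ h hm (Or.inl rfl))
    · rw [h1] at h2
      exact absurd h2 (TClosedA_nosig hQ h hm (Or.inr rfl))

theorem tclosedA {Q : List CC} (hQ : No0 Q) (h : tcnt Q 1 < tcnt Q 2) :
    ∃ 𝒬 : Finset (List CC), Q ∈ 𝒬 ∧
      (∀ R ∈ 𝒬, No0 R ∧ R.length = Q.length ∧ tcnt R 1 = tcnt Q 1 ∧ tcnt R 2 = tcnt Q 2) ∧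
      (𝒬.card ≤ 1 ∨ (Even (tcnt Q 1) ∧ 𝒬.card ≤ tcnt Q 2 - tcnt Q 1 + 3)) ∧
      (∀ R ∈ 𝒬, TMin R → ∀ R', TStep R R' →
        ∃ σ : SPerm (Fin 3), Fix0 σ ∧ ∃ R'' ∈ 𝒬, R' = tact σ.aut R'') := by
  classical
  by_cases hcase : tcnt (tact (tau 1) Q) 2 = tcnt Q 2 ∨ tcnt (tact (tau (-1)) Q) 2 = tcnt Q 2
  swap
  · push Not at hcase
    apply TClosedA_one hQ h
    rintro ε (rfl | rfl) h2
    · exact absurd h2 hcase.1
    · exact absurd h2 hcase.2
  obtain ⟨L, C, δ, hL, hδ, hδC, hb, hline, hnil⟩ := line_list hQ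
  by_cases hLn : L = []
  · exact TClosedA_one hQ h (fun ε _ _ => hnil hLn ε)
  have h0 : lineF L C 0 = tcnt Q 2 := by
    have := hline 0
    rw [TClosedA_tau_zero] at this
    exact this.symm
  have heven : Even L.length := by
    rcases hcase with h1 | h1
    · apply lineF_even hL (C := C) (k := 0)
      rw [h0, zero_add, ← h1, hline 1]
      rfl
    · apply lineF_even hL (C := C) (k := -1)
      rw [neg_add_cancel, h0, ← h1, hline (-1)]
      rfl
  have hlen : 2 ≤ L.length := by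
    have h1 : L.length ≠ 0 := fun h => hLn (List.length_eq_zero_iff.1 h)
    obtain ⟨q, hq⟩ := heven
    omega
  obtain ⟨S, hS, hSm⟩ := lineF_set hL (C := C) (N := tcnt Q 2) (E := tcnt Q 2 - tcnt Q 1) hlen
    (by omega)
  refine ⟨S.image (fun k => tact (tau k) Q), ?_, ?_, Or.inr ⟨?_, ?_⟩, ?_⟩
  · rw [Finset.mem_image]
    exact ⟨0, (hSm 0).1 h0, TClosedA_tau_zero Q⟩
  · intro R hR
    rw [Finset.mem_image] at hR
    obtain ⟨k, hk, rfl⟩ := hR
    refine ⟨TClosedA_no0 k hQ, by unfold tact; simp, TClosedA_cnt k Q (by decide), ?_⟩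
    rw [hline k]
    exact (hSm k).2 hk
  · rw [hb]
    exact heven.add hδ
  · exact Finset.card_image_le.trans hS
  · intro R hR hm R' hst
    rw [Finset.mem_image] at hR
    obtain ⟨k, hk, rfl⟩ := hR
    have hk2 : tcnt (tact (tau k) Q) 2 = tcnt Q 2 := by
      rw [hline k]; exact (hSm k).2 hk
    have hk1 : tcnt (tact (tau k) Q) 1 = tcnt Q 1 := TClosedA_cnt k Q (by decide)
    have hlt : tcnt (tact (tau k) Q) 1 < tcnt (tact (tau k) Q) 2 := by
      rw [hk1, hk2]; exact h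
    have key : ∀ ε : ℤ, R' = tact (tau ε) (tact (tau k) Q) →
        tcnt R' 2 = tcnt (tact (tau k) Q) 2 →
        ∃ σ : SPerm (Fin 3), Fix0 σ ∧ ∃ R'' ∈ S.image (fun k => tact (tau k) Q),
          R' = tact σ.aut R'' := by
      intro ε h1 h2
      refine ⟨flp (fun _ => true), TClosedA_fix, R', ?_, TClosedA_tid R'⟩
      rw [TClosedA_tau_tau] at h1
      rw [Finset.mem_image]
      refine ⟨ε + k, ?_, h1.symm⟩
      rw [← hSm]
      rw [h1, hk2] at h2
      rw [← h2, hline]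
      rfl
    rcases hst with ⟨h1 | h1, h2⟩ | ⟨h1 | h1, h2⟩
    · exact key 1 h1 h2
    · exact key (-1) h1 h2
    · rw [h1] at h2
      exact absurd h2 (TClosedA_nosig (TClosedA_no0 k hQ) hlt hm (Or.inl rfl))
    · rw [h1] at h2
      exact absurd h2 (TClosedA_nosig (TClosedA_no0 k hQ) hlt hm (Or.inr rfl))

end Pool.Agent.Sims
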