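import Pool.Agent.Sims.TClosedA

/-!
# Module `TClosedB` : closed sets of lists of classes, equal counts

`Q` a list of classes of `⟨b,c⟩` with `tcnt Q 1 = tcnt Q 2 = n`.  Call `R` *good* if `No0 R`, `tcnt R 1 = tcnt R 2 = n`, and
write `P R ε` (`ε = ±1`) for `tcnt (tact (tau ε) R) 2 = n`; by `tcap` this is equivalent to
`tcnt (tact (sig ε) R) 1 = n`.  So for good `R`: `tau^ε R`, `sig^ε R` are good iff `P R ε`, and these are the only `TStep`s.
(a) Line bound (`tie_line`): if `R` is good, `P R 1`, `P R (-1)` and (`tact (tau 2) R` or `tact (tau (-2)) R` has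
    `tcnt _ 2 = n`) then `tact (tau k) R = R` for all `k`.  Proof: `line_list` for `R`: `L, C, δ`; the line takes the
    value `n` at two parameters at distance 3, so `3 L.length + 2 C ≤ 2 n = 2 L.length + 2 δ ≤ 2 L.length + 2 C`
    (`lineF_range`), hence `L = []`.  The same for `sig` (`act_sig_eq`, exchange `b` and `c`).
(b) If `P Q 1` and `P Q (-1)`: the set `𝒬 = {Q, tau Q, sig Q, tau⁻¹ Q, sig⁻¹ Q}` is closed.  From `Q`: clear.  From `tau Q`:
    `tau⁻¹` leads to `Q`; `sig⁻¹` to `π (sig Q)` (`rel2`); `tau` and `sig` are steps iff `P (tau Q) 1`, i.e.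
    `tcnt (tau² Q) 2 = n`, and then `tau Q = Q` by (a), and the step is one from `Q`.  From `sig Q`: `sig⁻¹` to `Q`, `tau⁻¹` to
    `π (tau Q)` (`rel1`); `sig`, `tau` are steps iff `P (sig Q) 1`, i.e. `tcnt (sig² Q) 1 = n`, then `sig Q = Q`.  From
    `tau⁻¹ Q`: `tau` to `Q`, `sig` to `π (sig⁻¹ Q)` (`rel4`); the others as before.  From `sig⁻¹ Q`: `sig` to `Q`, `tau` to
    `π (tau⁻¹ Q)` (`rel3`); the others as before.
(c) If `P Q 1` and not `P Q (-1)`: `tau Q`, `sig Q` are good.  `P (tau Q) (-1)` and `P (sig Q) (-1)` hold (these steps lead back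
    to `Q`).  If `P (tau Q) 1`: apply (b) to `tau Q`; the set contains `Q = tau⁻¹ (tau Q)`.  If `P (sig Q) 1`: apply (b) to
    `sig Q`.  Otherwise `{Q, tau Q, sig Q}` is closed.
(d) If `P Q (-1)` and not `P Q 1`: the same with signs reversed.
(e) If neither: `{Q}` is closed.
In the cases (b), (c), (d) `n` is even: `L.length` is even by `lineF_even` (`k = 0` or `-1`), `n = L.length + δ`.
Difficulty 3.
-/

namespace Pool.Agent.Sims

open FreeGroup (of)

theorem TClosedB_tau_add (k l : ℤ) (R : List CC) :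
    tact (tau k) (tact (tau l) R) = tact (tau (k + l)) R := by
  unfold tact
  rw [List.map_map]
  apply List.map_congr_left
  intro c _
  exact tau_add k l c

theorem TClosedB_sig_add (k l : ℤ) (R : List CC) :
    tact (sig k) (tact (sig l) R) = tact (sig (k + l)) R := by
  unfold tact
  rw [List.map_map]
  apply List.map_congr_left
  intro c _
  exact sig_add k l c

theorem TClosedB_tau_zero (R : List CC) : tact (tau 0) R = R := by
  unfold tact
  conv_rhs => rw [← List.map_id R]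
  apply List.map_congr_left
  intro c _
  exact tau_zero c

theorem TClosedB_sig_zero (R : List CC) : tact (sig 0) R = R := by
  unfold tact
  conv_rhs => rw [← List.map_id R]
  apply List.map_congr_left
  intro c _
  exact sig_zero c

theorem TClosedB_tcnt_tact {φ : FreeGroup (Fin 3) ≃* FreeGroup (Fin 3)} {R : List CC} {i j : Fin 3}
    (h : ∀ c : CC, cnt (act φ c) i = cnt c j) : tcnt (tact φ R) i = tcnt R j := by
  unfold tcnt tact
  rw [List.map_map]
  congr 1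
  apply List.map_congr_left
  intro c _
  exact h c

theorem TClosedB_No0_tau (k : ℤ) {R : List CC} (hR : No0 R) : No0 (tact (tau k) R) := by
  intro c hc
  unfold tact at hc
  obtain ⟨d, hd, rfl⟩ := List.mem_map.1 hc
  rw [cnt_tau k d (by decide)]
  exact hR d hd

theorem TClosedB_No0_sig (k : ℤ) {R : List CC} (hR : No0 R) : No0 (tact (sig k) R) := by
  intro c hc
  unfold tact at hc
  obtain ⟨d, hd, rfl⟩ := List.mem_map.1 hc
  rw [cnt_sig k d (by decide)]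
  exact hR d hd

theorem TClosedB_length (φ : FreeGroup (Fin 3) ≃* FreeGroup (Fin 3)) (R : List CC) :
    (tact φ R).length = R.length := by
  unfold tact; rw [List.length_map]

theorem TClosedB_tie {R : List CC} (hR : No0 R) {n : ℕ} (h1 : tcnt R 1 = n) {k k' : ℤ}
    (hk : tcnt (tact (tau k) R) 2 = n) (hk' : tcnt (tact (tau k') R) 2 = n)
    (h3 : 3 ≤ (k - k').natAbs) (j : ℤ) : tact (tau j) R = R := by
  obtain ⟨L, C, δ, hL, -, hδ, hlen, hf, hnil⟩ := line_list hR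
  refine hnil ?_ j
  have e1 : lineF L C k = n := by unfold lineF; rw [← hf]; exact hk
  have e2 : lineF L C k' = n := by unfold lineF; rw [← hf]; exact hk'
  have h := lineF_range hL e1 e2
  have h4 : L.length * 3 ≤ L.length * (k - k').natAbs := Nat.mul_le_mul_left _ h3
  have : L.length = 0 := by omega
  exact List.eq_nil_of_length_eq_zero this

theorem TClosedB_sig_eq (k : ℤ) (R : List CC) :
    tact (sig k) R = tact swp.aut (tact (tau k) (tact swp.aut R)) := by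
  unfold tact
  rw [List.map_map, List.map_map]
  apply List.map_congr_left
  intro c _
  exact act_sig_eq k c

theorem TClosedB_swp_swp (R : List CC) : tact swp.aut (tact swp.aut R) = R := by
  unfold tact
  rw [List.map_map]
  conv_rhs => rw [← List.map_id R]
  apply List.map_congr_left
  intro c _
  exact act_swp_swp c

theorem TClosedB_tie' {R : List CC} (hR : No0 R) {n : ℕ} (h2 : tcnt R 2 = n) {k k' : ℤ}
    (hk : tcnt (tact (sig k) R) 1 = n) (hk' : tcnt (tact (sig k') R) 1 = n)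
    (h3 : 3 ≤ (k - k').natAbs) (j : ℤ) : tact (sig j) R = R := by
  have hN : No0 (tact swp.aut R) := by
    intro c hc
    unfold tact at hc
    obtain ⟨d, hd, rfl⟩ := List.mem_map.1 hc
    rw [(cnt_swp d).1]
    exact hR d hd
  have e (l : ℤ) : tcnt (tact (sig l) R) 1 = tcnt (tact (tau l) (tact swp.aut R)) 2 := by
    rw [TClosedB_sig_eq]
    exact TClosedB_tcnt_tact (fun c => (cnt_swp c).2.1)
  rw [e] at hk hk'
  have h1' : tcnt (tact swp.aut R) 1 = n := by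
    rw [TClosedB_tcnt_tact (i := 1) (j := 2) (fun c => (cnt_swp c).2.1)]
    exact h2
  have := TClosedB_tie hN h1' hk hk' h3 j
  rw [TClosedB_sig_eq, this, TClosedB_swp_swp]

/-- a good list: equal counts `n` -/
def TClosedB_good (m n : ℕ) (R : List CC) : Prop :=
  No0 R ∧ R.length = m ∧ tcnt R 1 = n ∧ tcnt R 2 = n

theorem TClosedB_good_tau {m n : ℕ} {R : List CC} (hR : TClosedB_good m n R) {ε : ℤ}
    (h : tcnt (tact (tau ε) R) 2 = n) : TClosedB_good m n (tact (tau ε) R) := by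
  obtain ⟨h0, hl, h1, h2⟩ := hR
  refine ⟨TClosedB_No0_tau ε h0, by rw [TClosedB_length, hl], ?_, h⟩
  rw [TClosedB_tcnt_tact (i := 1) (j := 1) (fun c => cnt_tau ε c (by decide))]
  exact h1

theorem TClosedB_good_sig {m n : ℕ} {R : List CC} (hR : TClosedB_good m n R) {ε : ℤ}
    (hε : ε = 1 ∨ ε = -1) (h : tcnt (tact (tau ε) R) 2 = n) :
    TClosedB_good m n (tact (sig ε) R) := by
  obtain ⟨h0, hl, h1, h2⟩ := hR
  refine ⟨TClosedB_No0_sig ε h0, by rw [TClosedB_length, hl], ?_, ?_⟩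
  · rw [tcap h0 hε]; exact h
  · rw [TClosedB_tcnt_tact (i := 2) (j := 2) (fun c => cnt_sig ε c (by decide))]
    exact h2

theorem TClosedB_step {m n : ℕ} {R R' : List CC} (hR : TClosedB_good m n R) (h : TStep R R') :
    ∃ ε : ℤ, (ε = 1 ∨ ε = -1) ∧ tcnt (tact (tau ε) R) 2 = n ∧
      (R' = tact (tau ε) R ∨ R' = tact (sig ε) R) := by
  obtain ⟨h0, hl, h1, h2⟩ := hR
  rcases h with ⟨h | h, h'⟩ | ⟨h | h, h'⟩
  · exact ⟨1, Or.inl rfl, by rw [← h, h', h2], Or.inl h⟩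
  · exact ⟨-1, Or.inr rfl, by rw [← h, h', h2], Or.inl h⟩
  · exact ⟨1, Or.inl rfl, by rw [← tcap h0 (Or.inl rfl), ← h, h', h1], Or.inr h⟩
  · exact ⟨-1, Or.inr rfl, by rw [← tcap h0 (Or.inr rfl), ← h, h', h1], Or.inr h⟩

theorem TClosedB_lift {φ ψ χ : FreeGroup (Fin 3) ≃* FreeGroup (Fin 3)}
    {π : SPerm (Fin 3)}
    (h : ∀ R : CC, cnt R 0 = 0 → act φ (act ψ R) = act π.aut (act χ R)) (R : List CC) (hR : No0 R) :
    tact φ (tact ψ R) = tact π.aut (tact χ R) := by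
  unfold tact
  rw [List.map_map, List.map_map]
  apply List.map_congr_left
  intro c hc
  exact h c (hR c hc)

theorem TClosedB_relA {ε : ℤ} (hε : ε = 1 ∨ ε = -1) : ∃ π : SPerm (Fin 3), Fix0 π ∧
    ∀ R : List CC, No0 R →
      tact (sig (-ε)) (tact (tau ε) R) = tact π.aut (tact (sig ε) R) := by
  rcases hε with rfl | rfl
  · obtain ⟨π, h, h'⟩ := rel2
    exact ⟨π, h, TClosedB_lift h'⟩
  · obtain ⟨π, h, h'⟩ := rel4
    refine ⟨π, h, fun R hR => ?_⟩
    rw [neg_neg]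
    exact TClosedB_lift h' R hR

theorem TClosedB_relB {ε : ℤ} (hε : ε = 1 ∨ ε = -1) : ∃ π : SPerm (Fin 3), Fix0 π ∧
    ∀ R : List CC, No0 R →
      tact (tau (-ε)) (tact (sig ε) R) = tact π.aut (tact (tau ε) R) := by
  rcases hε with rfl | rfl
  · obtain ⟨π, h, h'⟩ := rel1
    exact ⟨π, h, TClosedB_lift h'⟩
  · obtain ⟨π, h, h'⟩ := rel3
    refine ⟨π, h, fun R hR => ?_⟩
    rw [neg_neg]
    exact TClosedB_lift h' R hR

/-- reachable up to a signed permutation -/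
def TClosedB_rch (𝒬 : Finset (List CC)) (X : List CC) : Prop :=
  ∃ σ : SPerm (Fin 3), Fix0 σ ∧ ∃ R'' ∈ 𝒬, X = tact σ.aut R''

theorem TClosedB_rch_mem {𝒬 : Finset (List CC)} {X : List CC} (h : X ∈ 𝒬) :
    TClosedB_rch 𝒬 X := by
  obtain ⟨π, h1, h2, -⟩ := exists_SPerm_one
  refine ⟨π, h2, X, h, ?_⟩
  unfold tact
  conv_lhs => rw [← List.map_id X]
  apply List.map_congr_left
  intro c _
  exact (h1 c).symm

/-- steps from `tau ε R` -/
theorem TClosedB_from_tau {m n : ℕ} {R : List CC} (hR : TClosedB_good m n R) {ε : ℤ}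
    (hε : ε = 1 ∨ ε = -1) (hP : tcnt (tact (tau ε) R) 2 = n) {𝒬 : Finset (List CC)}
    (hm1 : R ∈ 𝒬) (hm2 : tact (sig ε) R ∈ 𝒬)
    (hm : tcnt (tact (tau ε) (tact (tau ε) R)) 2 = n →
      TClosedB_rch 𝒬 (tact (tau ε) (tact (tau ε) R)) ∧
      TClosedB_rch 𝒬 (tact (sig ε) (tact (tau ε) R)))
    {X' : List CC} (h : TStep (tact (tau ε) R) X') : TClosedB_rch 𝒬 X' := by
  obtain ⟨ε', hε', hP', hX⟩ := TClosedB_step (TClosedB_good_tau hR hP) h
  have hcase : ε' = ε ∨ ε' = -ε := by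
    rcases hε with rfl | rfl <;> rcases hε' with rfl | rfl <;> simp
  rcases hcase with rfl | rfl
  · obtain ⟨ha, hb⟩ := hm hP'
    rcases hX with rfl | rfl
    · exact ha
    · exact hb
  · rcases hX with rfl | rfl
    · rw [TClosedB_tau_add, neg_add_cancel, TClosedB_tau_zero]
      exact TClosedB_rch_mem hm1
    · obtain ⟨π, hπ, hrel⟩ := TClosedB_relA hε
      rw [hrel R hR.1]
      exact ⟨π, hπ, _, hm2, rfl⟩

/-- steps from `sig ε R` -/
theorem TClosedB_from_sig {m n : ℕ} {R : List CC} (hR : TClosedB_good m n R) {ε : ℤ}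
    (hε : ε = 1 ∨ ε = -1) (hP : tcnt (tact (tau ε) R) 2 = n) {𝒬 : Finset (List CC)}
    (hm1 : R ∈ 𝒬) (hm2 : tact (tau ε) R ∈ 𝒬)
    (hm : tcnt (tact (tau ε) (tact (sig ε) R)) 2 = n →
      TClosedB_rch 𝒬 (tact (tau ε) (tact (sig ε) R)) ∧
      TClosedB_rch 𝒬 (tact (sig ε) (tact (sig ε) R)))
    {X' : List CC} (h : TStep (tact (sig ε) R) X') : TClosedB_rch 𝒬 X' := by
  obtain ⟨ε', hε', hP', hX⟩ := TClosedB_step (TClosedB_good_sig hR hε hP) h
  have hcase : ε' = ε ∨ ε' = -ε := by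
    rcases hε with rfl | rfl <;> rcases hε' with rfl | rfl <;> simp
  rcases hcase with rfl | rfl
  · obtain ⟨ha, hb⟩ := hm hP'
    rcases hX with rfl | rfl
    · exact ha
    · exact hb
  · rcases hX with rfl | rfl
    · obtain ⟨π, hπ, hrel⟩ := TClosedB_relB hε
      rw [hrel R hR.1]
      exact ⟨π, hπ, _, hm2, rfl⟩
    · rw [TClosedB_sig_add, neg_add_cancel, TClosedB_sig_zero]
      exact TClosedB_rch_mem hm1

/-- case (b) -/
theorem TClosedB_five {m n : ℕ} {R : List CC} (hR : TClosedB_good m n R)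
    (hP : tcnt (tact (tau 1) R) 2 = n) (hP' : tcnt (tact (tau (-1)) R) 2 = n) :
    ∃ 𝒬 : Finset (List CC), 𝒬.card ≤ 5 ∧ R ∈ 𝒬 ∧ tact (tau 1) R ∈ 𝒬 ∧ tact (tau (-1)) R ∈ 𝒬 ∧
      tact (sig 1) R ∈ 𝒬 ∧ tact (sig (-1)) R ∈ 𝒬 ∧
      (∀ X ∈ 𝒬, TClosedB_good m n X) ∧
      (∀ X ∈ 𝒬, ∀ X', TStep X X' → TClosedB_rch 𝒬 X') := by
  classical
  have hPe : ∀ ε : ℤ, ε = 1 ∨ ε = -1 → tcnt (tact (tau ε) R) 2 = n := by
    rintro ε (rfl | rfl)
    · exact hP
    · exact hP'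
  set 𝒬 : Finset (List CC) :=
    {R, tact (tau 1) R, tact (tau (-1)) R, tact (sig 1) R, tact (sig (-1)) R} with h𝒬
  have m0 : R ∈ 𝒬 := by simp [h𝒬]
  have mt : ∀ ε : ℤ, ε = 1 ∨ ε = -1 → tact (tau ε) R ∈ 𝒬 := by
    rintro ε (rfl | rfl) <;> simp [h𝒬]
  have ms : ∀ ε : ℤ, ε = 1 ∨ ε = -1 → tact (sig ε) R ∈ 𝒬 := by
    rintro ε (rfl | rfl) <;> simp [h𝒬]
  have ht : ∀ ε : ℤ, ε = 1 ∨ ε = -1 → ∀ X', TStep (tact (tau ε) R) X' → TClosedB_rch 𝒬 X' := by
    intro ε hε X' hX'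
    refine TClosedB_from_tau hR hε (hPe ε hε) m0 (ms ε hε) ?_ hX'
    intro h2
    rw [TClosedB_tau_add] at h2
    have hε' : -ε = 1 ∨ -ε = -1 := by rcases hε with rfl | rfl <;> simp
    have hall := TClosedB_tie hR.1 hR.2.2.1 h2 (hPe (-ε) hε')
      (by rcases hε with rfl | rfl <;> simp)
    rw [hall, hall]
    exact ⟨TClosedB_rch_mem m0, TClosedB_rch_mem (ms ε hε)⟩
  have hs : ∀ ε : ℤ, ε = 1 ∨ ε = -1 → ∀ X', TStep (tact (sig ε) R) X' → TClosedB_rch 𝒬 X' := by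
    intro ε hε X' hX'
    refine TClosedB_from_sig hR hε (hPe ε hε) m0 (mt ε hε) ?_ hX'
    intro h2
    have hε' : -ε = 1 ∨ -ε = -1 := by rcases hε with rfl | rfl <;> simp
    rw [← tcap (TClosedB_No0_sig ε hR.1) hε, TClosedB_sig_add] at h2
    have h3 : tcnt (tact (sig (-ε)) R) 1 = n := by
      rw [tcap hR.1 hε']; exact hPe (-ε) hε'
    have hall := TClosedB_tie' hR.1 hR.2.2.2 h2 h3
      (by rcases hε with rfl | rfl <;> simp)
    rw [hall, hall]
    exact ⟨TClosedB_rch_mem (mt ε hε), TClosedB_rch_mem m0⟩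
  refine ⟨𝒬, Finset.card_le_five, m0, mt 1 (Or.inl rfl), mt (-1) (Or.inr rfl), ms 1 (Or.inl rfl),
    ms (-1) (Or.inr rfl), ?_, ?_⟩
  · intro X hX
    simp only [h𝒬, Finset.mem_insert, Finset.mem_singleton] at hX
    rcases hX with rfl | rfl | rfl | rfl | rfl
    · exact hR
    · exact TClosedB_good_tau hR hP
    · exact TClosedB_good_tau hR hP'
    · exact TClosedB_good_sig hR (Or.inl rfl) hP
    · exact TClosedB_good_sig hR (Or.inr rfl) hP'
  · intro X hX X' hX'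
    simp only [h𝒬, Finset.mem_insert, Finset.mem_singleton] at hX
    rcases hX with rfl | rfl | rfl | rfl | rfl
    · obtain ⟨ε, hε, -, h | h⟩ := TClosedB_step hR hX'
      · rw [h]; exact TClosedB_rch_mem (mt ε hε)
      · rw [h]; exact TClosedB_rch_mem (ms ε hε)
    · exact ht 1 (Or.inl rfl) X' hX'
    · exact ht (-1) (Or.inr rfl) X' hX'
    · exact hs 1 (Or.inl rfl) X' hX'
    · exact hs (-1) (Or.inr rfl) X' hX'

theorem TClosedB_even {m n : ℕ} {Q : List CC} (hQ : TClosedB_good m n Q) {ε : ℤ}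
    (hε : ε = 1 ∨ ε = -1) (hP : tcnt (tact (tau ε) Q) 2 = n) : Even n := by
  obtain ⟨L, C, δ, hL, hev, hδ, hlen, hf, hnil⟩ := line_list hQ.1
  have h0 : lineF L C 0 = n := by
    unfold lineF; rw [← hf, TClosedB_tau_zero]; exact hQ.2.2.2
  have h1 : lineF L C ε = n := by
    unfold lineF; rw [← hf]; exact hP
  have hE : Even L.length := by
    rcases hε with rfl | rfl
    · exact lineF_even hL (C := C) (k := 0) (by rw [zero_add, h0, h1])
    · exact lineF_even hL (C := C) (k := -1) (by rw [neg_add_cancel, h0, h1])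
  rw [← hQ.2.2.1, hlen]
  exact hE.add hev

/-- the case where some `P Q ε` holds -/
theorem TClosedB_main {m n : ℕ} {Q : List CC} (hQ : TClosedB_good m n Q) {ε : ℤ}
    (hε : ε = 1 ∨ ε = -1) (hP : tcnt (tact (tau ε) Q) 2 = n) :
    ∃ 𝒬 : Finset (List CC), Q ∈ 𝒬 ∧ 𝒬.card ≤ 5 ∧ (∀ X ∈ 𝒬, TClosedB_good m n X) ∧
      (∀ X ∈ 𝒬, ∀ X', TStep X X' → TClosedB_rch 𝒬 X') := by
  classical
  have hε' : -ε = 1 ∨ -ε = -1 := by rcases hε with rfl | rfl <;> simp
  -- case (b)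
  have hb : ∀ R : List CC, TClosedB_good m n R → tcnt (tact (tau ε) R) 2 = n →
      tcnt (tact (tau (-ε)) R) 2 = n →
      ∃ 𝒬 : Finset (List CC), 𝒬.card ≤ 5 ∧ R ∈ 𝒬 ∧ tact (tau ε) R ∈ 𝒬 ∧ tact (tau (-ε)) R ∈ 𝒬 ∧
      tact (sig ε) R ∈ 𝒬 ∧ tact (sig (-ε)) R ∈ 𝒬 ∧
      (∀ X ∈ 𝒬, TClosedB_good m n X) ∧
      (∀ X ∈ 𝒬, ∀ X', TStep X X' → TClosedB_rch 𝒬 X') := by
    intro R hR h1 h2
    rcases hε with rfl | rfl
    · obtain ⟨𝒬, a1, a2, a3, a4, a5, a6, a7, a8⟩ := TClosedB_five hR h1 h2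
      exact ⟨𝒬, a1, a2, a3, a4, a5, a6, a7, a8⟩
    · rw [neg_neg] at h2
      obtain ⟨𝒬, a1, a2, a3, a4, a5, a6, a7, a8⟩ := TClosedB_five hR h2 h1
      refine ⟨𝒬, a1, a2, a4, ?_, a6, ?_, a7, a8⟩
      · rw [neg_neg]; exact a3
      · rw [neg_neg]; exact a5
  by_cases hN : tcnt (tact (tau (-ε)) Q) 2 = n
  · obtain ⟨𝒬, a1, a2, -, -, -, -, a7, a8⟩ := hb Q hQ hP hN
    exact ⟨𝒬, a2, a1, a7, a8⟩
  by_cases hT : tcnt (tact (tau ε) (tact (tau ε) Q)) 2 = n
  · have hback : tact (tau (-ε)) (tact (tau ε) Q) = Q := by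
      rw [TClosedB_tau_add, neg_add_cancel, TClosedB_tau_zero]
    obtain ⟨𝒬, a1, a2, -, a4, -, -, a7, a8⟩ := hb (tact (tau ε) Q) (TClosedB_good_tau hQ hP) hT
      (by rw [hback]; exact hQ.2.2.2)
    rw [hback] at a4
    exact ⟨𝒬, a4, a1, a7, a8⟩
  by_cases hS : tcnt (tact (tau ε) (tact (sig ε) Q)) 2 = n
  · have hback : tact (sig (-ε)) (tact (sig ε) Q) = Q := by
      rw [TClosedB_sig_add, neg_add_cancel, TClosedB_sig_zero]
    obtain ⟨𝒬, a1, a2, -, -, -, a6, a7, a8⟩ := hb (tact (sig ε) Q) (TClosedB_good_sig hQ hε hP) hS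
      (by
        rw [← tcap (TClosedB_No0_sig ε hQ.1) hε', hback]; exact hQ.2.2.1)
    rw [hback] at a6
    exact ⟨𝒬, a6, a1, a7, a8⟩
  refine ⟨{Q, tact (tau ε) Q, tact (sig ε) Q}, by simp, le_trans Finset.card_le_three (by norm_num),
    ?_, ?_⟩
  · intro X hX
    simp only [Finset.mem_insert, Finset.mem_singleton] at hX
    rcases hX with rfl | rfl | rfl
    · exact hQ
    · exact TClosedB_good_tau hQ hP
    · exact TClosedB_good_sig hQ hε hP
  · intro X hX X' hX'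
    simp only [Finset.mem_insert, Finset.mem_singleton] at hX
    rcases hX with rfl | rfl | rfl
    · obtain ⟨ε', hε1, hP1, h⟩ := TClosedB_step hQ hX'
      have hcase : ε' = ε ∨ ε' = -ε := by
        rcases hε with rfl | rfl <;> rcases hε1 with rfl | rfl <;> simp
      rcases hcase with rfl | rfl
      · rcases h with h | h
        · rw [h]; exact TClosedB_rch_mem (by simp)
        · rw [h]; exact TClosedB_rch_mem (by simp)
      · exact absurd hP1 hN
    · exact TClosedB_from_tau hQ hε hP (by simp) (by simp) (fun h => absurd h hT) hX'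
    · exact TClosedB_from_sig hQ hε hP (by simp) (by simp) (fun h => absurd h hS) hX'

theorem tclosedB {Q : List CC} (hQ : No0 Q) (h : tcnt Q 1 = tcnt Q 2) :
    ∃ 𝒬 : Finset (List CC), Q ∈ 𝒬 ∧
      (∀ R ∈ 𝒬, No0 R ∧ R.length = Q.length ∧ tcnt R 1 = tcnt Q 1 ∧ tcnt R 2 = tcnt Q 2) ∧
      (𝒬.card ≤ 1 ∨ (Even (tcnt Q 1) ∧ 𝒬.card ≤ 5)) ∧
      (∀ R ∈ 𝒬, ∀ R', TStep R R' →
        ∃ σ : SPerm (Fin 3), Fix0 σ ∧ ∃ R'' ∈ 𝒬, R' = tact σ.aut R'') := by
  classical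
  have hg : TClosedB_good Q.length (tcnt Q 1) Q := ⟨hQ, rfl, rfl, h.symm⟩
  by_cases hP : ∃ ε : ℤ, (ε = 1 ∨ ε = -1) ∧ tcnt (tact (tau ε) Q) 2 = tcnt Q 1
  · obtain ⟨ε, hε, hP⟩ := hP
    obtain ⟨𝒬, a1, a2, a3, a4⟩ := TClosedB_main hg hε hP
    refine ⟨𝒬, a1, ?_, Or.inr ⟨TClosedB_even hg hε hP, a2⟩, a4⟩
    intro R hR
    obtain ⟨b1, b2, b3, b4⟩ := a3 R hR
    exact ⟨b1, b2, b3, by rw [b4, h]⟩
  · refine ⟨{Q}, by simp, ?_, Or.inl (by simp), ?_⟩
    · intro R hR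
      rw [Finset.mem_singleton] at hR
      subst hR
      exact ⟨hQ, rfl, rfl, rfl⟩
    · intro R hR R' hR'
      rw [Finset.mem_singleton] at hR
      subst hR
      obtain ⟨ε, hε, h1, -⟩ := TClosedB_step hg hR'
      exact absurd ⟨ε, hε, h1⟩ hP

end Pool.Agent.Sims
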