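import Pool.Agent.Sims.In12A

/-!
# Module `TLine` : the lines `k ↦ tau k`

* `tau_add`, `sig_add`: `potFun_comp`.  `cnt_tau`, `cnt_sig`: `cnt_pot_ne`.
* `line_single`: `R` has no letters `a^{±1}`.  If `cnt R 1 = 0` then `R = cls (zpw 2 t)` (`exists_pow`), fixed by `tau k`
  (`act_pot_pow`): take `L = []`, `δ = 0`, `C = |t|`.  Otherwise let `s` be a syllable form with respect to `c`
  (`exists_syl`), all letters are `b^{±1}`.  By `act_pot` the class `act (tau k) R` has the valid syllable form
  `shift p s`, `p = k` at `b` and `0` elsewhere; by `cntL_expand_self`, `sum_shift` its number of letters `c^{±1}` is the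
  cyclic sum of `|m + p(x) - p(y⁻¹)|` over consecutive `(x, m), (y, _)`.  For `x = y = b`: `|m + k|`; `x = y = b⁻¹`:
  `|m - k|`; `y = x⁻¹`: `|m|`, and `m ≠ 0` by `SValid_iff`.  `L` := the list of `(m, ±1)` for the pairs with `x = y`, `δ` := the
  number of pairs with `y = x⁻¹` (the number of sign changes in a cyclic sequence, hence even), `C` := the sum of
  `|m|` over these pairs, `≥ δ`.  `cnt R 1` is the number of syllables.  If `L = []` then `shift p s = s`.
* `line_list`: induction on the list, adding up (append the `L`'s).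
Difficulty 3.
-/

namespace Pool.Agent.Sims

open FreeGroup (of)

theorem TLine_add (j : Fin 3) (p q : Fin 3 × Bool → ℤ) (R : CC) :
    act (pot j p) (act (pot j q) R) = act (pot j (p + q)) R := by
  rw [act_act]
  congr 1
  ext g
  have h := DFunLike.congr_fun (potFun_comp j p q) g
  exact h

theorem TLine_zero (j : Fin 3) (R : CC) : act (pot j 0) R = R := by
  have h : (pot j 0 : FreeGroup (Fin 3) ≃* FreeGroup (Fin 3)) = MulEquiv.refl _ := by
    ext g
    have h := DFunLike.congr_fun (potFun_zero j) g
    exact h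
  rw [h, act_refl]

theorem tau_add (k l : ℤ) (R : CC) : act (tau k) (act (tau l) R) = act (tau (k + l)) R := by
  unfold tau
  rw [TLine_add]
  congr 2
  funext x
  by_cases h : x = (1, true) <;> simp [h]

theorem sig_add (k l : ℤ) (R : CC) : act (sig k) (act (sig l) R) = act (sig (k + l)) R := by
  unfold sig
  rw [TLine_add]
  congr 2
  funext x
  by_cases h : x = (2, true) <;> simp [h]

theorem tau_zero (R : CC) : act (tau 0) R = R := by
  have h := TLine_zero 2 R
  have e : (0 : Fin 3 × Bool → ℤ) = fun x => if x = (1, true) then (0 : ℤ) else 0 := by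
    funext x; simp
  rw [e] at h
  exact h

theorem sig_zero (R : CC) : act (sig 0) R = R := by
  have h := TLine_zero 1 R
  have e : (0 : Fin 3 × Bool → ℤ) = fun x => if x = (2, true) then (0 : ℤ) else 0 := by
    funext x; simp
  rw [e] at h
  exact h

theorem cnt_tau (k : ℤ) (R : CC) {i : Fin 3} (hi : i ≠ 2) : cnt (act (tau k) R) i = cnt R i :=
  cnt_pot_ne R 2 _ hi

theorem cnt_sig (k : ℤ) (R : CC) {i : Fin 3} (hi : i ≠ 1) : cnt (act (sig k) R) i = cnt R i :=
  cnt_pot_ne R 1 _ hi

/-- the potential of `tau k` -/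
def TLine_p (k : ℤ) : Fin 3 × Bool → ℤ := fun x => if x = (1, true) then k else 0

theorem TLine_same {x y : Fin 3 × Bool} (hx : x.1 = 1) (hxy : x = y) (k : ℤ) :
    TLine_p k x - TLine_p k (bar y) = k * (if x.2 then 1 else -1) := by
  subst hxy
  obtain ⟨i, b⟩ := x
  simp only at hx
  subst hx
  cases b <;> simp [TLine_p, bar]

theorem TLine_opp {x y : Fin 3 × Bool} (hx : x.1 = 1) (hy : y.1 = 1) (hxy : x ≠ y) (k : ℤ) :
    TLine_p k x - TLine_p k (bar y) = 0 := by
  obtain ⟨i, b⟩ := x
  obtain ⟨i', b'⟩ := y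
  simp only at hx hy
  subst hx; subst hy
  have hb : b' = !b := by
    cases b <;> cases b' <;> simp_all
  subst hb
  simp [bar]

theorem TLine_bar {x y : Fin 3 × Bool} (hx : x.1 = 1) (hy : y.1 = 1) (hxy : x ≠ y) : y = bar x := by
  obtain ⟨i, b⟩ := x
  obtain ⟨i', b'⟩ := y
  simp only at hx hy
  subst hx; subst hy
  cases b <;> cases b' <;> simp_all [bar]

theorem TLine_lin (l : List ((Fin 3 × Bool) × ℤ)) : ∀ (x z : (Fin 3 × Bool) × ℤ), x.1.1 = 1 →
    z.1.1 = 1 → (∀ q ∈ l, q.1.1 = 1) →
    lin (fun q r => if r.1 = bar q.1 ∧ q.2 = 0 then 1 else 0) x l z = 0 →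
    ∃ (L : List (ℤ × ℤ)) (C δ : ℕ), (∀ q ∈ L, q.2 = 1 ∨ q.2 = -1) ∧ (Even δ ↔ x.1 = z.1) ∧
      δ ≤ C ∧ l.length + 1 = L.length + δ ∧
      (∀ k : ℤ, lin (fun q r => (q.2 + TLine_p k q.1 - TLine_p k (bar r.1)).natAbs) x l z =
        C + (L.map (fun q => (q.1 + k * q.2).natAbs)).sum) ∧
      (L = [] → ∀ k, shiftLin (TLine_p k) (x :: l) z.1 = x :: l) := by
  induction l with
  | nil =>
    intro x z hx hz _ hv
    by_cases hxz : x.1 = z.1
    · refine ⟨[(x.2, if x.1.2 then 1 else -1)], 0, 0, ?_, ?_, le_refl _, by simp, ?_, by simp⟩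
      · intro q hq
        simp only [List.mem_singleton] at hq
        subst hq
        by_cases h : x.1.2 = true <;> simp [h]
      · simp [hxz]
      · intro k
        have := TLine_same hx hxz k
        simp only [lin, List.map_cons, List.map_nil, List.sum_cons, List.sum_nil]
        rw [← this]
        ring_nf
    · refine ⟨[], x.2.natAbs, 1, by simp, ?_, ?_, by simp, ?_, ?_⟩
      · simp [hxz]
      · have hb := TLine_bar hx hz hxz
        simp only [lin, hb, true_and] at hv
        by_contra hcon
        have h0 : x.2 = 0 := by omega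
        simp [h0] at hv
      · intro k
        have := TLine_opp hx hz hxz k
        simp only [lin, List.map_nil, List.sum_nil]
        congr 1
        omega
      · intro _ k
        have := TLine_opp hx hz hxz k
        have e : shiftLin (TLine_p k) [x] z.1 =
          [(x.1, x.2 + TLine_p k x.1 - TLine_p k (bar z.1))] := rfl
        rw [e]
        have : x.2 + TLine_p k x.1 - TLine_p k (bar z.1) = x.2 := by omega
        rw [this]
  | cons y l ih =>
    intro x z hx hz hl hv
    have hy : y.1.1 = 1 := hl y (by simp)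
    have hv' : (if y.1 = bar x.1 ∧ x.2 = 0 then 1 else 0) +
      lin (fun q r => if r.1 = bar q.1 ∧ q.2 = 0 then 1 else 0) y l z = 0 := hv
    have hv1 : (if y.1 = bar x.1 ∧ x.2 = 0 then 1 else 0) = 0 := by omega
    have hv2 : lin (fun q r => if r.1 = bar q.1 ∧ q.2 = 0 then 1 else 0) y l z = 0 := by omega
    obtain ⟨L, C, δ, hL, hδ, hδC, hlen, hsum, hnil⟩ :=
      ih y z hy hz (fun q hq => hl q (by simp [hq])) hv2
    by_cases hxy : x.1 = y.1
    · refine ⟨(x.2, if x.1.2 then 1 else -1) :: L, C, δ, ?_, ?_, hδC, ?_, ?_, by simp⟩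
      · intro q hq
        rcases List.mem_cons.mp hq with rfl | hq
        · by_cases h : x.1.2 = true <;> simp [h]
        · exact hL q hq
      · rw [hδ, hxy]
      · simp only [List.length_cons]
        omega
      · intro k
        have := TLine_same hx hxy k
        have e : lin (fun q r => (q.2 + TLine_p k q.1 - TLine_p k (bar r.1)).natAbs) x (y :: l) z
          = (x.2 + TLine_p k x.1 - TLine_p k (bar y.1)).natAbs +
            lin (fun q r => (q.2 + TLine_p k q.1 - TLine_p k (bar r.1)).natAbs) y l z := rfl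
        rw [e, hsum k, List.map_cons, List.sum_cons, ← this]
        have e2 : x.2 + TLine_p k x.1 - TLine_p k (bar y.1) =
          x.2 + (TLine_p k x.1 - TLine_p k (bar y.1)) := by ring
        rw [e2]
        ring
    · have hb := TLine_bar hx hy hxy
      have hx2 : x.2 ≠ 0 := by
        intro h0
        simp [hb, h0] at hv1
      refine ⟨L, C + x.2.natAbs, δ + 1, hL, ?_, ?_, ?_, ?_, ?_⟩
      · rw [Nat.even_add_one, hδ]
        constructor
        · intro h
          have h' := TLine_bar (x := y.1) (y := z.1) hy hz h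
          rw [h', hb, bar_bar]
        · intro h h'
          exact hxy (h.trans h'.symm)
      · omega
      · simp only [List.length_cons]
        omega
      · intro k
        have := TLine_opp hx hy hxy k
        have e : lin (fun q r => (q.2 + TLine_p k q.1 - TLine_p k (bar r.1)).natAbs) x (y :: l) z
          = (x.2 + TLine_p k x.1 - TLine_p k (bar y.1)).natAbs +
            lin (fun q r => (q.2 + TLine_p k q.1 - TLine_p k (bar r.1)).natAbs) y l z := rfl
        rw [e, hsum k]
        have e2 : x.2 + TLine_p k x.1 - TLine_p k (bar y.1) = x.2 := by omega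
        rw [e2]
        ring
      · intro hn k
        have := TLine_opp hx hy hxy k
        have e : shiftLin (TLine_p k) (x :: y :: l) z.1 =
          (x.1, x.2 + TLine_p k x.1 - TLine_p k (bar y.1)) ::
            shiftLin (TLine_p k) (y :: l) z.1 := rfl
        rw [e, hnil hn k]
        have e2 : x.2 + TLine_p k x.1 - TLine_p k (bar y.1) = x.2 := by omega
        rw [e2]

theorem line_single {R : CC} (hR : cnt R 0 = 0) :
    ∃ (L : List (ℤ × ℤ)) (C δ : ℕ), (∀ q ∈ L, q.2 = 1 ∨ q.2 = -1) ∧ Even δ ∧ δ ≤ C ∧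
      cnt R 1 = L.length + δ ∧
      (∀ k : ℤ, cnt (act (tau k) R) 2 = C + (L.map (fun q => (q.1 + k * q.2).natAbs)).sum) ∧
      (L = [] → ∀ k, act (tau k) R = R) := by
  by_cases h1 : cnt R 1 = 0
  · have hall : ∀ i, i ≠ 2 → cnt R i = 0 := by
      intro i hi
      fin_cases i
      · exact hR
      · exact h1
      · exact absurd rfl hi
    obtain ⟨t, rfl⟩ := exists_pow 2 R hall
    have hact : ∀ k, act (tau k) (cls (zpw 2 t)) = cls (zpw 2 t) := fun k => act_pot_pow 2 _ t
    refine ⟨[], t.natAbs, 0, by simp, by simp, by simp, by simpa using h1, ?_, fun _ => hact⟩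
    intro k
    rw [hact k, cnt_cls (CR_zpw _ _), WhEff_cntL_zpw]
    simp
  · obtain ⟨s, hs0, hs, hsR⟩ := exists_syl 2 R ⟨1, by decide, Nat.pos_of_ne_zero h1⟩
    have h0 : cntL (s.map Prod.fst) 0 = 0 := by
      rw [← cntL_expand_ne 2 s (i := 0) (by decide), ← cnt_cls hs.2, hsR, hR]
    have hone : ∀ q ∈ s, q.1.1 = 1 := by
      intro q hq
      have h2 : q.1.1 ≠ 2 := hs.1 q hq
      have h3 : q.1.1 ≠ 0 := by
        intro h
        unfold cntL at h0
        rw [List.countP_eq_zero] at h0
        have := h0 q.1 (List.mem_map_of_mem hq)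
        simp [h] at this
      have : ∀ i : Fin 3, i ≠ 2 → i ≠ 0 → i = 1 := by decide
      exact this _ h2 h3
    have hcnt1 : cnt R 1 = s.length := by
      rw [← hsR, cnt_cls hs.2, cntL_expand_ne 2 s (i := 1) (by decide)]
      unfold cntL
      rw [List.countP_eq_length.mpr]
      · simp
      · intro x hx
        obtain ⟨q, hq, rfl⟩ := List.mem_map.mp hx
        simp [hone q hq]
    cases s with
    | nil => exact absurd rfl hs0
    | cons q t =>
      have hq1 : q.1.1 = 1 := hone q (by simp)
      have hval : lin (fun q r => if r.1 = bar q.1 ∧ q.2 = 0 then 1 else 0) q t q = 0 := by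
        have := (SValid_iff 2 (q :: t) hs.1).mp hs
        exact this
      obtain ⟨L, C, δ, hL, hδ, hδC, hlen, hsum, hnil⟩ :=
        TLine_lin t q q hq1 hq1 (fun r hr => hone r (by simp [hr])) hval
      refine ⟨L, C, δ, hL, hδ.mpr rfl, hδC, ?_, ?_, ?_⟩
      · rw [hcnt1, List.length_cons, hlen]
      · intro k
        have hs' := SValid_shift 2 (TLine_p k) (q :: t) hs
        have e : act (tau k) R = cls (expand 2 (shift (TLine_p k) (q :: t))) := by
          rw [← hsR]
          exact act_pot 2 (TLine_p k) (q :: t) hs.1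
        rw [e, cnt_cls hs'.2, cntL_expand_self _ _ hs'.1, sum_shift]
        exact hsum k
      · intro hn k
        have e : act (tau k) R = cls (expand 2 (shift (TLine_p k) (q :: t))) := by
          rw [← hsR]
          exact act_pot 2 (TLine_p k) (q :: t) hs.1
        rw [e]
        have e2 : shift (TLine_p k) (q :: t) = q :: t := hnil hn k
        rw [e2, hsR]

theorem line_list {Q : List CC} (hQ : No0 Q) :
    ∃ (L : List (ℤ × ℤ)) (C δ : ℕ), (∀ q ∈ L, q.2 = 1 ∨ q.2 = -1) ∧ Even δ ∧ δ ≤ C ∧
      tcnt Q 1 = L.length + δ ∧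
      (∀ k : ℤ, tcnt (tact (tau k) Q) 2 = C + (L.map (fun q => (q.1 + k * q.2).natAbs)).sum) ∧
      (L = [] → ∀ k, tact (tau k) Q = Q) := by
  induction Q with
  | nil =>
    exact ⟨[], 0, 0, by simp, by simp, le_refl _, by simp [tcnt], by simp [tcnt, tact],
      by simp [tact]⟩
  | cons R Q ih =>
    obtain ⟨L, C, δ, hL, hδ, hδC, hlen, hsum, hnil⟩ :=
      ih (fun c hc => hQ c (by simp [hc]))
    obtain ⟨L', C', δ', hL', hδ', hδC', hlen', hsum', hnil'⟩ :=
      line_single (hQ R (by simp))
    refine ⟨L' ++ L, C' + C, δ' + δ, ?_, hδ'.add hδ, by omega, ?_, ?_, ?_⟩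
    · intro q hq
      rcases List.mem_append.mp hq with h | h
      · exact hL' q h
      · exact hL q h
    · have e : tcnt (R :: Q) 1 = cnt R 1 + tcnt Q 1 := by simp [tcnt]
      rw [e, hlen, hlen', List.length_append]
      omega
    · intro k
      have e : tcnt (tact (tau k) (R :: Q)) 2 = cnt (act (tau k) R) 2 + tcnt (tact (tau k) Q) 2 := by
        simp [tcnt, tact]
      rw [e, hsum k, hsum' k, List.map_append, List.sum_append]
      omega
    · intro hn k
      have h1 : L' = [] := (List.append_eq_nil_iff.mp hn).1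
      have h2 : L = [] := (List.append_eq_nil_iff.mp hn).2
      have e : tact (tau k) (R :: Q) = act (tau k) R :: tact (tau k) Q := rfl
      rw [e, hnil' h1 k, hnil h2 k]

end Pool.Agent.Sims
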