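import Pool.Agent.Sims.TpDefs

/-!
# Module `TpA` : algebra of arcs and states

* `ast_ast`, `ast_one`: `((u v) p)⁻¹ g (u v) q = (v p)⁻¹ ((u p)⁻¹ g (u q)) (v q)`.
* `TOK_st`: `in12` (`In12_mul`, `In12_inv`), `ntr` (`(u p)⁻¹ g (u p) = 1` iff `g = 1`), `ends` (`ane_st`), `min`: for a state `v` with values in `⟨b,c⟩`,
  `atl (ast v (ast u T)) = atl (ast (u*v) T) ≥ atl T = atl (ast u T)`.
* `Lv2_st`: the same.
* `mixL_st`: entrywise: if `e.1 = p` then `e.2.1 = !p` (the arc is mixed) and the label is `(u p)⁻¹ g (u !p)`; otherwise `e.1 = !p`, `e.2.1 = p` and the inverse of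
  `(u !p)⁻¹ g (u p)` is `(u p)⁻¹ g⁻¹ (u !p)`.
* `mixL_not`, `mixL_length`.
* `length_eq`: `ane true T + ane false T = 2 * T.length` (each end has exactly one port).
* `ank_add`: the ends at `p` of the arcs with both ports `p` are `2`, of the mixed arcs `1`, of the other arcs `0`.
* `anq_mixL`: trivial arcs are mixed (`ntr`).
* `atl_mem`, `atl_mem2`, `atl_mem3`: sums of naturals; the three entries are at different places of the list (`e ∉ mixed`, two different places of the mixed arcs).
  For `atl_mem3` e.g. `T.Perm (T.filter mixed ++ T.filter (not mixed))` and `(T.filter mixed)` has two entries with (oriented) labels `g1, g2`; `norm_inv_eq`.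
Difficulty 1-2.
-/

namespace Pool.Agent.Sims

open FreeGroup (of)

theorem ps_self (p : Bool) (x : FreeGroup (Fin 3)) : ps p x p = x := by
  simp [ps]

theorem ps_not (p : Bool) (x : FreeGroup (Fin 3)) : ps p x (!p) = 1 := by
  cases p <;> simp [ps]

theorem ps_one (p : Bool) : ps p 1 = 1 := by
  funext q
  simp [ps]

theorem bo_one : bo 1 = 1 := by
  funext q
  simp [bo]

theorem ps_mul (p : Bool) (x y : FreeGroup (Fin 3)) : ps p x * ps p y = ps p (x * y) := by
  funext q
  simp only [ps, Pi.mul_apply]
  split_ifs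
  · rfl
  · rw [one_mul]

theorem bo_mul (x y : FreeGroup (Fin 3)) : bo x * bo y = bo (x * y) := by
  funext q
  simp [bo]

theorem PS_ext {u v : PS} (p : Bool) (h : u p = v p) (h' : u (!p) = v (!p)) : u = v := by
  funext q
  cases p <;> cases q <;> simp_all

theorem ps_in12 {p : Bool} {x : FreeGroup (Fin 3)} (hx : In12 x) : ∀ q, In12 (ps p x q) := by
  intro q
  unfold ps
  split_ifs
  · exact hx
  · exact In12_one

theorem bo_in12 {x : FreeGroup (Fin 3)} (hx : In12 x) : ∀ q, In12 (bo x q) := fun _ => hx

theorem ast_ast (u v : PS) (T : List Arc) : ast v (ast u T) = ast (u * v) T := by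
  unfold ast
  rw [List.map_map]
  refine List.map_congr_left fun e _ => ?_
  simp only [Function.comp_apply, alab, Pi.mul_apply, mul_inv_rev, mul_assoc]

theorem ast_one (T : List Arc) : ast 1 T = T := by
  unfold ast
  conv_rhs => rw [← List.map_id T]
  refine List.map_congr_left fun e _ => ?_
  simp [alab]

theorem ast_length (u : PS) (T : List Arc) : (ast u T).length = T.length := by
  unfold ast
  rw [List.length_map]

theorem ane_st (p : Bool) (u : PS) (T : List Arc) : ane p (ast u T) = ane p T := by
  unfold ane ast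
  rw [List.map_map]
  rfl

theorem ank_st (u : PS) (T : List Arc) : ank (ast u T) = ank T := by
  unfold ank ast
  rw [List.map_map]
  rfl

theorem st_in12 {T : List Arc} (hT : ∀ e ∈ T, In12 e.2.2) {u : PS} (hu : ∀ p, In12 (u p)) :
    ∀ e ∈ ast u T, In12 e.2.2 := by
  intro e he
  unfold ast at he
  rw [List.mem_map] at he
  obtain ⟨e', he', rfl⟩ := he
  exact In12_mul (In12_mul (In12_inv (hu _)) (hT e' he')) (hu _)

theorem Lv2_one {T : List Arc} : Lv2 T 1 := by
  refine ⟨fun _ => In12_one, ?_⟩
  rw [ast_one]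

theorem TOK_st {h : ℕ} {T : List Arc} (hT : TOK h T) {u : PS} (hu : Lv2 T u) :
    TOK h (ast u T) := by
  refine ⟨st_in12 hT.in12 hu.1, ?_, ?_, ?_⟩
  · intro e he h1 h2
    unfold ast at he
    rw [List.mem_map] at he
    obtain ⟨e', he', rfl⟩ := he
    refine hT.ntr e' he' h1 ?_
    have h3 : e'.1 = e'.2.1 := h1
    have h4 : (u e'.1)⁻¹ * e'.2.2 * u e'.2.1 = 1 := h2
    rw [← h3] at h4
    have h5 : e'.2.2 = u e'.1 * ((u e'.1)⁻¹ * e'.2.2 * u e'.1) * (u e'.1)⁻¹ := by group
    rw [h5, h4]
    group
  · intro p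
    rw [ane_st]
    exact hT.ends p
  · intro v hv
    rw [ast_ast, hu.2]
    exact hT.min _ fun p => In12_mul (hu.1 p) (hv p)

theorem Lv2_st {T : List Arc} {u v : PS} (hu : Lv2 T u) :
    Lv2 (ast u T) v ↔ Lv2 T (u * v) := by
  unfold Lv2
  rw [ast_ast, hu.2]
  constructor
  · rintro ⟨h1, h2⟩
    exact ⟨fun p => In12_mul (hu.1 p) (h1 p), h2⟩
  · rintro ⟨h1, h2⟩
    refine ⟨fun p => ?_, h2⟩
    have h3 : v p = (u p)⁻¹ * ((u * v) p) := by
      rw [Pi.mul_apply]
      group
    rw [h3]
    exact In12_mul (In12_inv (hu.1 p)) (h1 p)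

theorem Lv2_atl {T : List Arc} {u : PS} (hu : Lv2 T u) : atl (ast u T) = atl T := hu.2

theorem TpA_mixL_cons (p : Bool) (e : Arc) (T : List Arc) :
    mixL p (e :: T) = if e.1 ≠ e.2.1 then (if e.1 = p then e.2.2 else (e.2.2)⁻¹) :: mixL p T
      else mixL p T := by
  unfold mixL
  by_cases h : e.1 ≠ e.2.1
  · rw [if_pos h, List.filter_cons_of_pos (by simpa using h), List.map_cons]
  · rw [if_neg h, List.filter_cons_of_neg (by simpa using h)]

theorem mixL_st (p : Bool) (u : PS) (T : List Arc) :
    mixL p (ast u T) = (mixL p T).map (fun g => (u p)⁻¹ * g * u (!p)) := by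
  induction T with
  | nil => rfl
  | cons e T ih =>
    have h1 : ast u (e :: T) = (e.1, e.2.1, alab u e) :: ast u T := rfl
    rw [h1, TpA_mixL_cons, TpA_mixL_cons, ih]
    obtain ⟨q, r, g⟩ := e
    unfold alab
    cases p <;> cases q <;> cases r <;> simp <;> group

theorem mixL_not (p : Bool) (T : List Arc) : mixL (!p) T = (mixL p T).map (fun g => g⁻¹) := by
  induction T with
  | nil => rfl
  | cons e T ih =>
    rw [TpA_mixL_cons, TpA_mixL_cons, ih]
    obtain ⟨q, r, g⟩ := e
    cases p <;> cases q <;> cases r <;> simp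

theorem TpA_ank_cons (e : Arc) (T : List Arc) :
    ank (e :: T) = (if e.1 = e.2.1 then 0 else 1) + ank T := rfl

theorem mixL_length (p : Bool) (T : List Arc) : (mixL p T).length = ank T := by
  induction T with
  | nil => rfl
  | cons e T ih =>
    rw [TpA_mixL_cons, TpA_ank_cons, ← ih]
    by_cases h : e.1 = e.2.1
    · rw [if_neg (by simpa using h), if_pos h, zero_add]
    · rw [if_pos h, if_neg h, List.length_cons, add_comm]

theorem TpA_ane_sum (T : List Arc) : ane true T + ane false T = 2 * T.length := by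
  induction T with
  | nil => rfl
  | cons e T ih =>
    have h1 : ∀ p, ane p (e :: T) = ((if e.1 = p then 1 else 0) + (if e.2.1 = p then 1 else 0)) +
      ane p T := fun p => rfl
    rw [h1, h1, List.length_cons]
    obtain ⟨q, r, g⟩ := e
    cases q <;> cases r <;> simp <;> omega

theorem length_eq {h : ℕ} {T : List Arc} (hT : TOK h T) : T.length = 2 * h := by
  have h1 := TpA_ane_sum T
  rw [hT.ends, hT.ends] at h1
  omega

theorem TpA_ank_add (T : List Arc) (p : Bool) :
    ank T + 2 * (T.countP (fun e => decide (e.1 = p ∧ e.2.1 = p))) = ane p T := by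
  induction T with
  | nil => rfl
  | cons e T ih =>
    have h1 : ane p (e :: T) = ((if e.1 = p then 1 else 0) + (if e.2.1 = p then 1 else 0)) +
      ane p T := rfl
    rw [h1, TpA_ank_cons, List.countP_cons, ← ih]
    obtain ⟨q, r, g⟩ := e
    cases p <;> cases q <;> cases r <;> simp <;> omega

/-- number of arcs with both ports `p` -/
theorem ank_add {h : ℕ} {T : List Arc} (hT : TOK h T) (p : Bool) :
    ank T + 2 * (T.countP (fun e => decide (e.1 = p ∧ e.2.1 = p))) = 2 * h := by
  rw [TpA_ank_add, hT.ends]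

theorem TpA_anq_mixL (p : Bool) : ∀ T : List Arc, (∀ e ∈ T, e.1 = e.2.1 → e.2.2 ≠ 1) →
    anq T = ((mixL p T).map (fun g => if g = 1 then 1 else 0)).sum := by
  intro T
  induction T with
  | nil => intro _; rfl
  | cons e T ih =>
    intro hT
    have h1 : anq (e :: T) = (if e.2.2 = 1 then 1 else 0) + anq T := rfl
    rw [h1, TpA_mixL_cons, ih (fun e' he' => hT e' (List.mem_cons_of_mem _ he'))]
    by_cases h : e.1 = e.2.1
    · rw [if_neg (hT e List.mem_cons_self h), if_neg (not_not.2 h), zero_add]
    · rw [if_pos (c := e.1 ≠ e.2.1) h, List.map_cons, List.sum_cons]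
      congr 1
      by_cases h2 : e.1 = p
      · rw [if_pos h2]
      · rw [if_neg h2]
        simp only [inv_eq_one]

theorem anq_mixL {h : ℕ} {T : List Arc} (hT : TOK h T) (p : Bool) :
    anq T = ((mixL p T).map (fun g => if g = 1 then 1 else 0)).sum :=
  TpA_anq_mixL p T hT.ntr

theorem TpA_anq_lt : ∀ T : List Arc, 1 ≤ atl T → anq T < T.length := by
  have hle : ∀ T : List Arc, anq T ≤ T.length := by
    intro T
    induction T with
    | nil => exact le_rfl
    | cons e T ih =>
      have h1 : anq (e :: T) = (if e.2.2 = 1 then 1 else 0) + anq T := rfl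
      rw [h1, List.length_cons]
      split_ifs <;> omega
  intro T
  induction T with
  | nil =>
    intro h
    have : atl [] = 0 := rfl
    omega
  | cons e T ih =>
    intro h
    have h1 : anq (e :: T) = (if e.2.2 = 1 then 1 else 0) + anq T := rfl
    have h2 : atl (e :: T) = e.2.2.norm + atl T := rfl
    have h3 := hle T
    rw [h1, List.length_cons]
    by_cases h4 : e.2.2 = 1
    · have h5 : e.2.2.norm = 0 := FreeGroup.norm_eq_zero.2 h4
      rw [h2, h5, zero_add] at h
      have := ih h
      rw [if_pos h4]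
      omega
    · rw [if_neg h4]
      omega

theorem anq_lt {h : ℕ} {T : List Arc} (hT : TOK h T) (h1 : 1 ≤ atl T) : anq T < 2 * h := by
  rw [← length_eq hT]
  exact TpA_anq_lt T h1

theorem atl_mem {T : List Arc} {e : Arc} (he : e ∈ T) : e.2.2.norm ≤ atl T := by
  induction T with
  | nil => simp at he
  | cons e' T ih =>
    have h2 : atl (e' :: T) = e'.2.2.norm + atl T := rfl
    rcases List.mem_cons.1 he with rfl | he
    · omega
    · have := ih he
      omega

theorem TpA_atl_split (p : Bool) (T : List Arc) : atl T = ((mixL p T).map FreeGroup.norm).sum +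
    ((T.filter (fun e => decide (e.1 = e.2.1))).map (fun e => e.2.2.norm)).sum := by
  induction T with
  | nil => rfl
  | cons e T ih =>
    have h2 : atl (e :: T) = e.2.2.norm + atl T := rfl
    rw [h2, TpA_mixL_cons, ih]
    by_cases h : e.1 = e.2.1
    · rw [if_neg (by simpa using h), List.filter_cons_of_pos (by simpa using h), List.map_cons,
        List.sum_cons]
      omega
    · rw [if_pos h, List.filter_cons_of_neg (by simpa using h), List.map_cons, List.sum_cons]
      have h3 : (if e.1 = p then e.2.2 else (e.2.2)⁻¹).norm = e.2.2.norm := by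
        split_ifs
        · rfl
        · exact FreeGroup.norm_inv_eq
      rw [h3]
      omega

theorem atl_mem2 {T : List Arc} {p : Bool} {g1 g2 : FreeGroup (Fin 3)}
    (hm : mixL p T = [g1, g2]) : g1.norm + g2.norm ≤ atl T := by
  rw [TpA_atl_split p T, hm]
  simp only [List.map_cons, List.map_nil, List.sum_cons, List.sum_nil]
  omega

theorem atl_mem3 {T : List Arc} {p : Bool} {g1 g2 : FreeGroup (Fin 3)}
    (hm : mixL p T = [g1, g2]) {e : Arc} (he : e ∈ T) (he' : e.1 = e.2.1) :
    e.2.2.norm + g1.norm + g2.norm ≤ atl T := by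
  rw [TpA_atl_split p T, hm]
  simp only [List.map_cons, List.map_nil, List.sum_cons, List.sum_nil]
  have h1 : e.2.2.norm ≤
      ((T.filter (fun e => decide (e.1 = e.2.1))).map (fun e => e.2.2.norm)).sum := by
    have h2 : e ∈ T.filter (fun e => decide (e.1 = e.2.1)) := by
      rw [List.mem_filter]
      exact ⟨he, by simpa using he'⟩
    exact atl_mem (T := T.filter (fun e => decide (e.1 = e.2.1))) h2
  omega

/-- the label of an arc in a state obtained by commuting elements -/
theorem alab_eq {T : List Arc} {p : Bool} {s t : FreeGroup (Fin 3)}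
    (h1 : ∀ e ∈ T, e.1 = p → e.2.1 = p → e.2.2 * s = s * e.2.2)
    (h2 : ∀ e ∈ T, e.1 = !p → e.2.1 = !p → e.2.2 * t = t * e.2.2)
    (h3 : ∀ g ∈ mixL p T, g * t = s * g) (u v : PS) (hu : u p = s * v p)
    (hu' : u (!p) = t * v (!p)) : ast u T = ast v T := by
  unfold ast
  refine List.map_congr_left fun e he => ?_
  have key : alab u e = alab v e := by
    unfold alab
    by_cases hm : e.1 = e.2.1
    · by_cases hp : e.1 = p
      · have h4 := h1 e he hp (hm ▸ hp)
        rw [← hm, hp, hu, mul_inv_rev]
        have h5 : (v p)⁻¹ * s⁻¹ * e.2.2 * (s * v p) = (v p)⁻¹ * (s⁻¹ * (e.2.2 * s)) * v p := by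
          group
        rw [h5, h4]
        group
      · have hp' : e.1 = !p := by
          cases p <;> cases h : e.1 <;> simp_all
        have h4 := h2 e he hp' (hm ▸ hp')
        rw [← hm, hp', hu', mul_inv_rev]
        have h5 : (v (!p))⁻¹ * t⁻¹ * e.2.2 * (t * v (!p)) =
            (v (!p))⁻¹ * (t⁻¹ * (e.2.2 * t)) * v (!p) := by
          group
        rw [h5, h4]
        group
    · have hmem : (if e.1 = p then e.2.2 else (e.2.2)⁻¹) ∈ mixL p T := by
        unfold mixL
        refine List.mem_map.2 ⟨e, List.mem_filter.2 ⟨he, by simpa using hm⟩, rfl⟩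
      have h4 := h3 _ hmem
      by_cases hp : e.1 = p
      · rw [if_pos hp] at h4
        have hp' : e.2.1 = !p := by
          cases p <;> cases h : e.1 <;> cases h' : e.2.1 <;> simp_all
        rw [hp, hp', hu, hu', mul_inv_rev]
        have h5 : (v p)⁻¹ * s⁻¹ * e.2.2 * (t * v (!p)) =
            (v p)⁻¹ * (s⁻¹ * (e.2.2 * t)) * v (!p) := by
          group
        rw [h5, h4]
        group
      · rw [if_neg hp] at h4
        have hp1 : e.1 = !p := by
          cases p <;> cases h : e.1 <;> simp_all
        have hp2 : e.2.1 = p := by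
          cases p <;> cases h : e.1 <;> cases h' : e.2.1 <;> simp_all
        rw [hp1, hp2, hu, hu', mul_inv_rev]
        have h6 : t = e.2.2 * s * (e.2.2)⁻¹ := by
          calc t = e.2.2 * ((e.2.2)⁻¹ * t) := by group
            _ = e.2.2 * (s * (e.2.2)⁻¹) := by rw [h4]
            _ = _ := by group
        rw [h6]
        group
  rw [key]

end Pool.Agent.Sims
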