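import Pool.Agent.Sims.TpB

/-!
# Module `TpC` : the doubled list (one port moves), fibres

* `dbl_cj`: entry by entry: both ports `p`: `x⁻¹ g x` twice; left port `p` only: the new label is `x⁻¹ g` and `(x⁻¹ g) a (x⁻¹ g)⁻¹ = x⁻¹ (g a g⁻¹) x`; right port `p` only: the new
  label is `g x`, `(g x)⁻¹ a (g x) = x⁻¹ (g⁻¹ a g) x`; no port `p`: nothing.
* `norm_mark`: `g` is a word in `b^{±1}, c^{±1}`: `g.toWord ++ (0, true) :: (g⁻¹).toWord` is reduced.
* `LT_dbl`: both sides count: arcs with both ports `p`: `2 |g|`, mixed: `2 |g| + 1`; arcs without port `p`: they have the same label in both states.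
* `dbl_CMin`: by `dbl_cj`, `LT_dbl`, `TOK.min` (`ps_in12`).  `dbl_Lw`: the same with equality.
* `nn_dbl`: all entries are nontrivial (`ntr`; `g a g⁻¹ ≠ 1` since its norm is `2|g| + 1`); their number is the number of ends at `p` (2 for arcs with both ports `p`, 1 for mixed arcs).
* `RR_dbl`: `rr z (g a g⁻¹) = 2 [ahd g = z]` if `z.1 ≠ 0` (the first letter of `g a g⁻¹` is that of `g`, or `a` if `g = 1`; it is conjugate-palindromic: `(g a g⁻¹)⁻¹ = g a⁻¹ g⁻¹`).
* `fib_prefix`: `lvl_path` for `dbl p T` (with `u = x.toWord`, `FreeGroup.mk_toWord`, `FreeGroup.isReduced_toWord`), `dbl_Lw`.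
* `fib_head`: the first part `v = []` of `lvl_path`: `RR z (dbl p T) = nn (dbl p T)`, so `2 anz p z T = 2 h`.
* `fib_mixed`: let `G = g a g⁻¹` be the entry of the mixed arc (`g` the label read from `p`: `mixL`), `u = x.toWord`, `z = u[0]`.  By `ConjC_rr_const` (`rr u[r] (ConjC_g u G r)` is constant, here `0` or
  `2` since all conjugates `(v⁻¹ g) a (v⁻¹ g)⁻¹` are of the same form): either at each step the letter `u[r]` is the first letter of `(mk (u.take r))⁻¹ g` (it is cancelled: norm `-1` in each
  step) or at no step (norm `+1` in each step).  The first case occurs iff `ahd g = some z = ahd x`.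
* `fib_diam`: for each mixed arc, by `fib_mixed`, `|g| ≥ |x|` or `|x⁻¹ g| ≥ |x|`.  So `|g| + |x⁻¹ g| ≥ |x|`, and the sum over all mixed arcs is at most `atl T + atl (ast (ps p x) T) = 2 atl T`
  (`mixL_st`, norms of the labels read in either direction are the same).
* `fib_rch`: by `fib_prefix` all prefixes are level; `ps p (mk (v ++ [z])) = ps p (mk v) * ps p (lett z)`; induction on the word (`List.reverseRecOn`), `z.1 ≠ 0` from `In12`.
Difficulty 3.
-/

namespace Pool.Agent.Sims

open FreeGroup (of)

theorem TpC_dbl_nil (p : Bool) : dbl p [] = [] := rfl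

theorem TpC_dbl_cons (p : Bool) (e : Arc) (T : List Arc) :
    dbl p (e :: T) = (if e.1 = p then (if e.2.1 = p then [e.2.2, e.2.2] else
      [e.2.2 * of 0 * (e.2.2)⁻¹]) else if e.2.1 = p then [(e.2.2)⁻¹ * of 0 * e.2.2] else []) ++
      dbl p T := by
  unfold dbl
  rw [List.flatMap_cons]

theorem TpC_ast_cons (u : PS) (e : Arc) (T : List Arc) :
    ast u (e :: T) = (e.1, e.2.1, alab u e) :: ast u T := rfl

theorem TpC_atl_cons (e : Arc) (T : List Arc) : atl (e :: T) = e.2.2.norm + atl T := by
  unfold atl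
  simp

theorem TpC_LT_append (S T : List (FreeGroup (Fin 3))) : LT (S ++ T) = LT S + LT T := by
  unfold LT
  simp

theorem TpC_nn_append (S T : List (FreeGroup (Fin 3))) : nn (S ++ T) = nn S + nn T := by
  unfold nn
  rw [List.map_append, List.sum_append]

theorem TpC_RR_append (z : Fin 3 × Bool) (S T : List (FreeGroup (Fin 3))) :
    RR z (S ++ T) = RR z S + RR z T := by
  unfold RR
  rw [List.map_append, List.sum_append]

theorem TpC_cjT_append (x : FreeGroup (Fin 3)) (S T : List (FreeGroup (Fin 3))) :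
    cjT x (S ++ T) = cjT x S ++ cjT x T := by
  unfold cjT
  rw [List.map_append]

theorem TpC_alab {p : Bool} {x : FreeGroup (Fin 3)} (e : Arc) :
    alab (ps p x) e = (if e.1 = p then x else 1)⁻¹ * e.2.2 * (if e.2.1 = p then x else 1) := rfl

theorem dbl_cj (p : Bool) (x : FreeGroup (Fin 3)) (T : List Arc) :
    cjT x (dbl p T) = dbl p (ast (ps p x) T) := by
  induction T with
  | nil => rfl
  | cons e T ih =>
    rw [TpC_dbl_cons, TpC_ast_cons, TpC_dbl_cons, TpC_cjT_append, ih]
    congr 1
    simp only [TpC_alab]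
    by_cases h1 : e.1 = p
    · by_cases h2 : e.2.1 = p
      · simp only [h1, h2, if_true]
        rfl
      · simp only [h1, h2, if_true, if_false]
        unfold cjT
        simp only [List.map_cons, List.map_nil]
        congr 1
        group
    · by_cases h2 : e.2.1 = p
      · simp only [h1, h2, if_true, if_false]
        unfold cjT
        simp only [List.map_cons, List.map_nil]
        congr 1
        group
      · simp only [h1, h2, if_false]
        rfl

theorem TpC_word {g : FreeGroup (Fin 3)} (hg : In12 g) :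
    (g * of 0 * g⁻¹).toWord = g.toWord ++ (0, true) :: (g⁻¹).toWord := by
  have h1 : g * of 0 * g⁻¹ = FreeGroup.mk (g.toWord ++ (0, true) :: (g⁻¹).toWord) := by
    have e1 : FreeGroup.mk (g.toWord ++ (0, true) :: (g⁻¹).toWord) =
        FreeGroup.mk g.toWord * (of 0 * FreeGroup.mk (g⁻¹).toWord) := rfl
    rw [e1, FreeGroup.mk_toWord, FreeGroup.mk_toWord, mul_assoc]
  have hr : FreeGroup.IsReduced (g.toWord ++ (0, true) :: (g⁻¹).toWord) := by
    unfold FreeGroup.IsReduced
    rw [List.isChain_append]
    refine ⟨FreeGroup.isReduced_toWord, ?_, ?_⟩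
    · rw [List.isChain_cons]
      refine ⟨?_, FreeGroup.isReduced_toWord⟩
      intro y hy h0
      exact absurd h0.symm (In12_inv hg y (List.mem_of_mem_head? hy))
    · intro y hy z hz h0
      rw [List.head?_cons, Option.mem_def, Option.some.injEq] at hz
      subst hz
      exact absurd h0 (hg y (List.mem_of_mem_getLast? hy))
  rw [h1, FreeGroup.toWord_mk, hr.reduce_eq]

theorem norm_mark {g : FreeGroup (Fin 3)} (hg : In12 g) :
    (g * of 0 * g⁻¹).norm = 2 * g.norm + 1 := by
  have h1 : (g⁻¹).norm = g.norm := FreeGroup.norm_inv_eq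
  have h2 : (g * of 0 * g⁻¹).norm = (g * of 0 * g⁻¹).toWord.length := rfl
  rw [h2, TpC_word hg, List.length_append, List.length_cons]
  unfold FreeGroup.norm at h1 ⊢
  omega

theorem TpC_norm_mark' {g : FreeGroup (Fin 3)} (hg : In12 g) :
    (g⁻¹ * of 0 * g).norm = 2 * g.norm + 1 := by
  have h1 := norm_mark (In12_inv hg)
  rw [inv_inv, FreeGroup.norm_inv_eq] at h1
  exact h1

theorem TpC_LT_one (g : FreeGroup (Fin 3)) : LT [g] = g.norm := by
  unfold LT
  simp

theorem TpC_LT_two (g h : FreeGroup (Fin 3)) : LT [g, h] = g.norm + h.norm := by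
  unfold LT
  simp

theorem LT_dbl {T : List Arc} (hT : ∀ e ∈ T, In12 e.2.2) (p : Bool) {x : FreeGroup (Fin 3)}
    (hx : In12 x) : LT (dbl p (ast (ps p x) T)) + 2 * atl T =
      LT (dbl p T) + 2 * atl (ast (ps p x) T) := by
  induction T with
  | nil => rfl
  | cons e T ih =>
    have ih' := ih (fun e' he' => hT e' (List.mem_cons_of_mem _ he'))
    have he : In12 e.2.2 := hT e (List.mem_cons_self)
    rw [TpC_ast_cons, TpC_dbl_cons, TpC_dbl_cons, TpC_atl_cons, TpC_atl_cons, TpC_LT_append,
      TpC_LT_append]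
    simp only [TpC_alab]
    by_cases h1 : e.1 = p
    · by_cases h2 : e.2.1 = p
      · simp only [h1, h2, if_true, TpC_LT_two]
        omega
      · simp only [h1, h2, if_true, if_false, TpC_LT_one]
        have hh : In12 (x⁻¹ * e.2.2 * 1) := In12_mul (In12_mul (In12_inv hx) he) In12_one
        rw [norm_mark he, norm_mark hh]
        omega
    · by_cases h2 : e.2.1 = p
      · simp only [h1, h2, if_true, if_false, TpC_LT_one]
        have hh : In12 (1⁻¹ * e.2.2 * x) := In12_mul (In12_mul (In12_inv In12_one) he) hx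
        rw [TpC_norm_mark' he, TpC_norm_mark' hh]
        omega
      · simp only [h1, h2, if_false]
        have e1 : (1 : FreeGroup (Fin 3))⁻¹ * e.2.2 * 1 = e.2.2 := by group
        rw [e1]
        omega

theorem dbl_CMin {h : ℕ} {T : List Arc} (hT : TOK h T) (p : Bool) : CMin (dbl p T) := by
  intro x hx
  rw [dbl_cj]
  have h1 := LT_dbl hT.in12 p hx
  have h2 := hT.min (ps p x) (ps_in12 hx)
  omega

theorem TpC_in12 {p : Bool} {x : FreeGroup (Fin 3)} (h : ∀ q, In12 (ps p x q)) : In12 x := by
  have := h p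
  rwa [ps_self] at this

theorem dbl_Lw {h : ℕ} {T : List Arc} (hT : TOK h T) (p : Bool) {x : FreeGroup (Fin 3)} :
    Lw (dbl p T) x ↔ Lv2 T (ps p x) := by
  constructor
  · rintro ⟨hx, h1⟩
    refine ⟨ps_in12 hx, ?_⟩
    rw [dbl_cj] at h1
    have h2 := LT_dbl hT.in12 p hx
    omega
  · rintro ⟨hx, h1⟩
    have hx' : In12 x := TpC_in12 hx
    refine ⟨hx', ?_⟩
    rw [dbl_cj]
    have h2 := LT_dbl hT.in12 p hx'
    omega

theorem TpC_mark_ne {g : FreeGroup (Fin 3)} : g * of 0 * g⁻¹ ≠ 1 := by
  intro h
  have h1 : of 0 = (1 : FreeGroup (Fin 3)) := by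
    have : of 0 = g⁻¹ * (g * of 0 * g⁻¹) * g := by group
    rw [this, h]
    group
  exact FreeGroup.of_ne_one _ h1

theorem TpC_mark_ne' {g : FreeGroup (Fin 3)} : g⁻¹ * of 0 * g ≠ 1 := by
  have := TpC_mark_ne (g := g⁻¹)
  rwa [inv_inv] at this

theorem TpC_nn_eq {p : Bool} : ∀ (T : List Arc), (∀ e ∈ T, e.1 = e.2.1 → e.2.2 ≠ 1) →
    nn (dbl p T) = ane p T := by
  intro T
  induction T with
  | nil => intro _; rfl
  | cons e T ih =>
    intro hT
    have ih' := ih (fun e' he' => hT e' (List.mem_cons_of_mem _ he'))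
    have he : e.1 = e.2.1 → e.2.2 ≠ 1 := hT e (List.mem_cons_self)
    have e1 : ane p (e :: T) = ((if e.1 = p then 1 else 0) + (if e.2.1 = p then 1 else 0)) +
        ane p T := by
      unfold ane
      rw [List.map_cons, List.sum_cons]
    rw [TpC_dbl_cons, TpC_nn_append, ih', e1]
    congr 1
    by_cases h1 : e.1 = p
    · by_cases h2 : e.2.1 = p
      · have h3 : e.2.2 ≠ 1 := he (h1.trans h2.symm)
        simp only [h1, h2, if_true]
        unfold nn
        simp [h3]
      · simp only [h1, h2, if_true, if_false]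
        unfold nn
        simp only [List.map_cons, List.map_nil, List.sum_cons, List.sum_nil]
        rw [if_neg TpC_mark_ne]
    · by_cases h2 : e.2.1 = p
      · simp only [h1, h2, if_true, if_false]
        unfold nn
        simp only [List.map_cons, List.map_nil, List.sum_cons, List.sum_nil]
        rw [if_neg TpC_mark_ne', Nat.add_comm]
      · simp only [h1, h2, if_false]
        rfl

theorem nn_dbl {h : ℕ} {T : List Arc} (hT : TOK h T) (p : Bool) : nn (dbl p T) = 2 * h := by
  rw [TpC_nn_eq T hT.ntr, hT.ends p]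

theorem TpC_rr_mark {g : FreeGroup (Fin 3)} (hg : In12 g) {z : Fin 3 × Bool} (hz : z.1 ≠ 0) :
    rr z (g * of 0 * g⁻¹) = 2 * (if ahd g = some z then 1 else 0) := by
  unfold rr
  have h1 : (g * of 0 * g⁻¹).toWord.head? = some z ↔ ahd g = some z := by
    rw [TpC_word hg]
    unfold ahd
    rcases hw : g.toWord with _ | ⟨y, w⟩
    · rw [List.nil_append, List.head?_cons, List.head?_nil]
      constructor
      · intro h0
        rw [Option.some.injEq] at h0
        rw [← h0] at hz
        exact absurd rfl hz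
      · intro h0
        simp at h0
    · rw [List.cons_append, List.head?_cons, List.head?_cons]
  have h2 : (g * of 0 * g⁻¹).toWord.getLast? = some (bar z) ↔ ahd g = some z := by
    have e1 : g.toWord.head? = some z ↔ (g⁻¹).toWord.getLast? = some (bar z) := by
      have := ConjA_head z g⁻¹
      rwa [inv_inv] at this
    rw [TpC_word hg, List.getLast?_append]
    unfold ahd
    rw [e1]
    rcases hw : (g⁻¹).toWord with _ | ⟨y, w⟩
    · rw [List.getLast?_singleton, List.getLast?_nil]
      constructor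
      · intro h0
        rw [Option.some_or, Option.some.injEq] at h0
        have h3 : (bar z).1 = 0 := by rw [← h0]
        exact absurd h3 hz
      · intro h0
        simp at h0
    · rw [List.getLast?_cons_cons]
      rcases hv : (y :: w).getLast? with _ | t
      · rw [List.getLast?_eq_none_iff] at hv
        simp at hv
      · rw [Option.some_or]
  by_cases h3 : ahd g = some z
  · rw [if_pos (h1.2 h3), if_pos (h2.2 h3), if_pos h3]
  · rw [if_neg (fun h => h3 (h1.1 h)), if_neg (fun h => h3 (h2.1 h)), if_neg h3]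

theorem TpC_rr_mark' {g : FreeGroup (Fin 3)} (hg : In12 g) {z : Fin 3 × Bool} (hz : z.1 ≠ 0) :
    rr z (g⁻¹ * of 0 * g) = 2 * (if ahd g⁻¹ = some z then 1 else 0) := by
  have := TpC_rr_mark (In12_inv hg) hz
  rwa [inv_inv] at this

theorem TpC_RR_eq {p : Bool} {z : Fin 3 × Bool} (hz : z.1 ≠ 0) : ∀ (T : List Arc),
    (∀ e ∈ T, In12 e.2.2) → RR z (dbl p T) = 2 * anz p z T := by
  intro T
  induction T with
  | nil => intro _; rfl
  | cons e T ih =>
    intro hT
    have ih' := ih (fun e' he' => hT e' (List.mem_cons_of_mem _ he'))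
    have he : In12 e.2.2 := hT e (List.mem_cons_self)
    have e1 : anz p z (e :: T) = ((if e.1 = p ∧ ahd e.2.2 = some z then 1 else 0) +
        (if e.2.1 = p ∧ ahd (e.2.2)⁻¹ = some z then 1 else 0)) + anz p z T := by
      unfold anz
      rw [List.map_cons, List.sum_cons]
    rw [TpC_dbl_cons, TpC_RR_append, ih', e1, Nat.mul_add]
    congr 1
    by_cases h1 : e.1 = p
    · by_cases h2 : e.2.1 = p
      · simp only [h1, h2, if_true, true_and]
        unfold RR
        simp only [List.map_cons, List.map_nil, List.sum_cons, List.sum_nil]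
        rw [rr_ahd]
        omega
      · simp only [h1, h2, if_true, if_false, true_and, false_and]
        unfold RR
        simp only [List.map_cons, List.map_nil, List.sum_cons, List.sum_nil]
        rw [TpC_rr_mark he hz, Nat.add_zero, Nat.add_zero]
    · by_cases h2 : e.2.1 = p
      · simp only [h1, h2, if_true, if_false, true_and, false_and]
        unfold RR
        simp only [List.map_cons, List.map_nil, List.sum_cons, List.sum_nil]
        rw [TpC_rr_mark' he hz]
        omega
      · simp only [h1, h2, if_false, false_and]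
        rfl

theorem RR_dbl {h : ℕ} {T : List Arc} (hT : TOK h T) (p : Bool) {z : Fin 3 × Bool}
    (hz : z.1 ≠ 0) : RR z (dbl p T) = 2 * anz p z T :=
  TpC_RR_eq hz T hT.in12

theorem fib_prefix {h : ℕ} {T : List Arc} (hT : TOK h T) {p : Bool} {x : FreeGroup (Fin 3)}
    (hx : Lv2 T (ps p x)) {v : List (Fin 3 × Bool)} (hv : v <+: x.toWord) :
    Lv2 T (ps p (FreeGroup.mk v)) := by
  obtain ⟨v', hv'⟩ := hv
  rcases v' with _ | ⟨z, s⟩
  · rw [List.append_nil] at hv'
    rw [hv', FreeGroup.mk_toWord]
    exact hx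
  · have hx' : Lw (dbl p T) (FreeGroup.mk x.toWord) := by
      rw [FreeGroup.mk_toWord]
      exact (dbl_Lw hT p).2 hx
    exact (dbl_Lw hT p).1
      (lvl_path (dbl_CMin hT p) FreeGroup.isReduced_toWord hx' hv'.symm).1

theorem fib_head {h : ℕ} {T : List Arc} (hT : TOK h T) {p : Bool} {x : FreeGroup (Fin 3)}
    (hx : Lv2 T (ps p x)) {z : Fin 3 × Bool} (hz : ahd x = some z) : anz p z T = h := by
  have hx12 : In12 x := TpC_in12 hx.1
  have hz0 : z.1 ≠ 0 := ahd_in12 hx12 hz
  obtain ⟨s, hs⟩ : ∃ s, x.toWord = z :: s := by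
    unfold ahd at hz
    rcases hw : x.toWord with _ | ⟨y, w⟩
    · rw [hw] at hz; simp at hz
    · rw [hw, List.head?_cons, Option.some.injEq] at hz
      exact ⟨w, by rw [hz]⟩
  have h1 := ConjB_dir (dbl_CMin hT p) ((dbl_Lw hT p).2 hx) hs
  rw [RR_dbl hT p hz0, nn_dbl hT p] at h1
  omega

theorem TpC_mem {p : Bool} {T : List Arc} {g : FreeGroup (Fin 3)} (hg : g ∈ mixL p T) :
    g * of 0 * g⁻¹ ∈ dbl p T := by
  unfold mixL at hg
  obtain ⟨e, he, rfl⟩ := List.mem_map.1 hg
  obtain ⟨he1, he2⟩ := List.mem_filter.1 he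
  have he3 : e.1 ≠ e.2.1 := of_decide_eq_true he2
  unfold dbl
  refine List.mem_flatMap.2 ⟨e, he1, ?_⟩
  by_cases h1 : e.1 = p
  · have h2 : ¬ e.2.1 = p := fun h => he3 (h1.trans h.symm)
    rw [if_pos h1, if_neg h2, if_pos h1]
    exact List.mem_singleton.2 rfl
  · have h2 : e.2.1 = p := by
      revert h1 he3
      cases e.1 <;> cases e.2.1 <;> cases p <;> simp
    rw [if_neg h1, if_pos h2, if_neg h1, inv_inv]
    exact List.mem_singleton.2 rfl

theorem TpC_mix12 {p : Bool} {T : List Arc} (hT : ∀ e ∈ T, In12 e.2.2) {g : FreeGroup (Fin 3)}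
    (hg : g ∈ mixL p T) : In12 g := by
  unfold mixL at hg
  obtain ⟨e, he, rfl⟩ := List.mem_map.1 hg
  obtain ⟨he1, -⟩ := List.mem_filter.1 he
  by_cases h1 : e.1 = p
  · rw [if_pos h1]; exact hT e he1
  · rw [if_neg h1]; exact In12_inv (hT e he1)

theorem fib_mixed {h : ℕ} {T : List Arc} (hT : TOK h T) {p : Bool} {x : FreeGroup (Fin 3)}
    (hx : Lv2 T (ps p x)) (hx1 : x ≠ 1) {g : FreeGroup (Fin 3)} (hg : g ∈ mixL p T) :
    (ahd g = ahd x ∧ (x⁻¹ * g).norm + x.norm = g.norm) ∨
      (ahd g ≠ ahd x ∧ (x⁻¹ * g).norm = g.norm + x.norm) := by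
  have hx12 : In12 x := TpC_in12 hx.1
  have hg12 : In12 g := TpC_mix12 hT.in12 hg
  set u := x.toWord with hu
  have hured : FreeGroup.IsReduced u := FreeGroup.isReduced_toWord
  have hLw : Lw (dbl p T) (FreeGroup.mk u) := by
    rw [hu, FreeGroup.mk_toWord]
    exact (dbl_Lw hT p).2 hx
  have h0 : 0 < u.length := by
    apply List.length_pos_iff.2
    intro h
    exact hx1 (FreeGroup.toWord_eq_nil_iff.1 h)
  have hmem := TpC_mem hg
  have hne : g * of 0 * g⁻¹ ≠ 1 := TpC_mark_ne
  have hc := ConjC_rr_const (dbl_CMin hT p) hured hLw hmem hne h0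
  -- the letters
  have hlet : ∀ (r : ℕ) (hr : r < u.length), (u[r]).1 ≠ 0 := by
    intro r hr
    exact hx12 _ (List.getElem_mem hr)
  have hv12 : ∀ r, In12 (FreeGroup.mk (u.take r)) := by
    intro r
    apply In12_mk
    intro y hy
    exact hx12 y (List.mem_of_mem_take hy)
  have hCg : ∀ r, ConjC_g u (g * of 0 * g⁻¹) r =
      ((FreeGroup.mk (u.take r))⁻¹ * g) * of 0 * ((FreeGroup.mk (u.take r))⁻¹ * g)⁻¹ := by
    intro r
    unfold ConjC_g
    group
  have hvg : ∀ r, In12 ((FreeGroup.mk (u.take r))⁻¹ * g) := fun r =>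
    In12_mul (In12_inv (hv12 r)) hg12
  have hstep : ∀ (r : ℕ) (hr : r < u.length),
      (ahd ((FreeGroup.mk (u.take r))⁻¹ * g) = some u[r] ↔ ahd g = some u[0]) := by
    intro r hr
    have h1 := hc r hr
    rw [hCg r, TpC_rr_mark (hvg r) (hlet r hr), TpC_rr_mark hg12 (hlet 0 h0)] at h1
    by_cases h2 : ahd ((FreeGroup.mk (u.take r))⁻¹ * g) = some u[r]
    · by_cases h3 : ahd g = some u[0]
      · exact ⟨fun _ => h3, fun _ => h2⟩
      · rw [if_pos h2, if_neg h3] at h1; omega
    · by_cases h3 : ahd g = some u[0]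
      · rw [if_neg h2, if_pos h3] at h1; omega
      · exact ⟨fun h => absurd h h2, fun h => absurd h h3⟩
  have hnext : ∀ (r : ℕ) (hr : r < u.length), (FreeGroup.mk (u.take (r + 1)))⁻¹ * g =
      lett (bar u[r]) * ((FreeGroup.mk (u.take r))⁻¹ * g) := by
    intro r hr
    rw [ConjC_mk_succ u hr, lett_bar]
    group
  have hax : ahd x = some u[0] := by
    unfold ahd
    rw [← hu, List.head?_eq_getElem?, List.getElem?_eq_getElem h0]
  have htop : FreeGroup.mk (u.take u.length) = x := by
    rw [List.take_length, hu, FreeGroup.mk_toWord]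
  have hlen : u.length = x.norm := rfl
  by_cases h3 : ahd g = some u[0]
  · left
    refine ⟨by rw [h3, hax], ?_⟩
    have hn : ∀ r, r ≤ u.length → ((FreeGroup.mk (u.take r))⁻¹ * g).norm + r = g.norm := by
      intro r
      induction r with
      | zero =>
        intro _
        have e1 : FreeGroup.mk (List.take 0 u) = (1 : FreeGroup (Fin 3)) := rfl
        rw [e1]; simp
      | succ r ih =>
        intro hr
        have ih' := ih (by omega)
        have h4 := (hstep r (by omega)).2 h3
        rw [hnext r (by omega)]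
        have h5 := ConjA_left_pos (x := bar (u[r]'(by omega)))
          (g := (FreeGroup.mk (u.take r))⁻¹ * g) (by rw [bar_bar]; exact h4)
        have h6 : 1 ≤ ((FreeGroup.mk (u.take r))⁻¹ * g).toWord.length := by
          unfold ahd at h4
          rcases hw : ((FreeGroup.mk (u.take r))⁻¹ * g).toWord with _ | ⟨y, w⟩
          · rw [hw] at h4; simp at h4
          · simp
        unfold FreeGroup.norm at ih' ⊢
        rw [h5, List.length_tail]
        omega
    have h7 := hn u.length le_rfl
    rw [htop] at h7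
    rw [← hlen]
    exact h7
  · right
    refine ⟨by rw [hax]; exact h3, ?_⟩
    have hn : ∀ r, r ≤ u.length → ((FreeGroup.mk (u.take r))⁻¹ * g).norm = g.norm + r := by
      intro r
      induction r with
      | zero =>
        intro _
        have e1 : FreeGroup.mk (List.take 0 u) = (1 : FreeGroup (Fin 3)) := rfl
        rw [e1]; simp
      | succ r ih =>
        intro hr
        have ih' := ih (by omega)
        have h4 : ¬ ahd ((FreeGroup.mk (u.take r))⁻¹ * g) = some (u[r]'(by omega)) := fun h =>
          h3 ((hstep r (by omega)).1 h)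
        rw [hnext r (by omega)]
        have h5 := ConjA_left_neg (x := bar (u[r]'(by omega)))
          (g := (FreeGroup.mk (u.take r))⁻¹ * g) (by rw [bar_bar]; exact h4)
        unfold FreeGroup.norm at ih' ⊢
        rw [h5, List.length_cons]
        omega
    have h7 := hn u.length le_rfl
    rw [htop] at h7
    rw [← hlen]
    exact h7

theorem TpC_mix_le (p : Bool) (T : List Arc) : ((mixL p T).map FreeGroup.norm).sum ≤ atl T := by
  induction T with
  | nil => exact le_rfl
  | cons e T ih =>
    rw [TpC_atl_cons]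
    unfold mixL at ih ⊢
    by_cases h1 : e.1 ≠ e.2.1
    · rw [List.filter_cons_of_pos (by simpa using h1), List.map_cons, List.map_cons,
        List.sum_cons]
      have h2 : (if e.1 = p then e.2.2 else (e.2.2)⁻¹).norm = e.2.2.norm := by
        split_ifs
        · rfl
        · exact FreeGroup.norm_inv_eq
      rw [h2]
      exact Nat.add_le_add_left ih _
    · rw [List.filter_cons_of_neg (by simpa using h1)]
      exact le_trans ih (Nat.le_add_left _ _)

theorem TpC_sum_le (x : FreeGroup (Fin 3)) : ∀ (L : List (FreeGroup (Fin 3))),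
    L.length * x.norm ≤ (L.map FreeGroup.norm).sum +
      ((L.map (fun g => x⁻¹ * g * 1)).map FreeGroup.norm).sum := by
  intro L
  induction L with
  | nil => simp
  | cons g L ih =>
    simp only [List.map_cons, List.sum_cons, List.length_cons] at ih ⊢
    have h1 : x.norm ≤ g.norm + (x⁻¹ * g * 1).norm := by
      have h2 : x = g * (x⁻¹ * g * 1)⁻¹ := by group
      calc x.norm = (g * (x⁻¹ * g * 1)⁻¹).norm := by rw [← h2]
        _ ≤ g.norm + ((x⁻¹ * g * 1)⁻¹).norm := FreeGroup.norm_mul_le _ _
        _ = _ := by rw [FreeGroup.norm_inv_eq]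
    have h3 : (L.length + 1) * x.norm = L.length * x.norm + x.norm := by ring
    rw [h3]
    omega

theorem fib_diam {h : ℕ} {T : List Arc} (hT : TOK h T) {p : Bool} {x : FreeGroup (Fin 3)}
    (hx : Lv2 T (ps p x)) : ank T * x.norm ≤ 2 * atl T := by
  have h1 := TpC_mix_le p T
  have h2 := TpC_mix_le p (ast (ps p x) T)
  rw [mixL_st, ps_self, ps_not, hx.2] at h2
  have h3 := TpC_sum_le x (mixL p T)
  rw [mixL_length] at h3
  omega

theorem fib_rch {h : ℕ} {T : List Arc} (hT : TOK h T) {p : Bool} {x : FreeGroup (Fin 3)}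
    (hx : Lv2 T (ps p x)) : Rch T (ps p x) := by
  have hx12 : In12 x := TpC_in12 hx.1
  have key : ∀ v : List (Fin 3 × Bool), v <+: x.toWord → Rch T (ps p (FreeGroup.mk v)) := by
    intro v
    induction v using List.reverseRecOn with
    | nil =>
      intro _
      have e1 : FreeGroup.mk ([] : List (Fin 3 × Bool)) = 1 := rfl
      rw [e1, ps_one]
      exact Relation.ReflTransGen.refl
    | append_singleton v z ih =>
      intro hv
      have hv1 : v <+: x.toWord := (List.prefix_append v [z]).trans hv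
      refine Relation.ReflTransGen.tail (ih hv1) ⟨fib_prefix hT hx hv, z, ?_, Or.inl ⟨p, ?_⟩⟩
      · exact hx12 z (hv.subset (by simp))
      · rw [ps_mul]
        rfl
  have := key x.toWord List.prefix_rfl
  rwa [FreeGroup.mk_toWord] at this

end Pool.Agent.Sims
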