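import Pool.Agent.Sims.TpB

/-!
# Module `TpD` : reachable states

* `Rch_lv`: cases on the last step (`Lv2_one`).
* `Rch_tail`: `Relation.ReflTransGen.tail`.
* `Stp_st`: if `Lv2 T u` and `Stp (ast u T) v w` then `Stp T (u * v) (u * w)` (`Lv2_st`, `mul_assoc`).
* `Rch_trans`: induction on the second path.
* `Rch_inv`: a step from `u` to `v = u * ps p (lett z)` (both level) has the inverse step `u = v * ps p (lett (bar z))` (`lett_bar`, `ps_mul`); induction.  E.g. prove: if `Rch T u` then
  `Relation.ReflTransGen (Stp T) u 1`, and transport with `u⁻¹` (all states of the path are level: `Rch_lv`).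
* `Rch_diff`: `Rch_inv`, `Rch_trans` at the base `ast u T`: `ast u⁻¹ (ast u T) = T` (`ast_ast`, `ast_one`).
* `Rch_prefix`: induction on the path: the position of the port `p` changes by at most one letter in one step: if `(w p).toWord = v ++ s` with `s ≠ []` then `v` is a prefix of the
  previous position or ... (the new word is the old one, the old one with one letter more, or with the last letter removed: `ConjA_right_pos`, `ConjA_right_neg`).
* `Rch_cross`: on the path from `1` to `u` take the first step after which the first letter of the position of `p` is `z` for the rest / simply the induction: if the head of `u p` is `z` and that of the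
  previous position is not, then (one letter) the previous position is `1` and the letter of the step is `z`; otherwise use the induction hypothesis.
Difficulty 2.
-/

namespace Pool.Agent.Sims

open FreeGroup (of)

theorem Rch_one (T : List Arc) : Rch T 1 := Relation.ReflTransGen.refl

theorem Rch_lv {T : List Arc} {u : PS} (hu : Rch T u) : Lv2 T u := by
  rcases Relation.ReflTransGen.cases_tail hu with h | ⟨w, -, h⟩
  · rw [h]
    exact Lv2_one
  · exact h.1

theorem Rch_ps {T : List Arc} {u : PS} (hu : Rch T u) {p : Bool} {z : Fin 3 × Bool}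
    (hz : z.1 ≠ 0) (h : Lv2 T (u * ps p (lett z))) : Rch T (u * ps p (lett z)) :=
  Relation.ReflTransGen.tail hu ⟨h, z, hz, Or.inl ⟨p, rfl⟩⟩

theorem Rch_bo {T : List Arc} {u : PS} (hu : Rch T u) {z : Fin 3 × Bool} (hz : z.1 ≠ 0)
    (h : Lv2 T (u * bo (lett z))) : Rch T (u * bo (lett z)) :=
  Relation.ReflTransGen.tail hu ⟨h, z, hz, Or.inr rfl⟩

/-- induction on reachable states -/
theorem TpD_ind {T : List Arc} {P : PS → Prop} (h1 : P 1)
    (hps : ∀ u p (z : Fin 3 × Bool), Rch T u → P u → z.1 ≠ 0 → Lv2 T (u * ps p (lett z)) →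
      P (u * ps p (lett z)))
    (hbo : ∀ u (z : Fin 3 × Bool), Rch T u → P u → z.1 ≠ 0 → Lv2 T (u * bo (lett z)) →
      P (u * bo (lett z))) {u : PS} (hu : Rch T u) : P u := by
  unfold Rch at hu
  induction hu with
  | refl => exact h1
  | tail hab hbc ih =>
    obtain ⟨hl, z, hz, ⟨p, rfl⟩ | rfl⟩ := hbc
    · exact hps _ p z hab ih hz hl
    · exact hbo _ z hab ih hz hl

theorem Rch_trans {T : List Arc} {u v : PS} (hu : Rch T u) (hv : Rch (ast u T) v) :
    Rch T (u * v) := by
  refine TpD_ind (P := fun v => Rch T (u * v)) ?_ ?_ ?_ hv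
  · rw [mul_one]
    exact hu
  · intro w p z hw ih hz hl
    rw [← mul_assoc]
    apply Rch_ps ih hz
    rw [mul_assoc]
    exact (Lv2_st (Rch_lv hu)).1 hl
  · intro w z hw ih hz hl
    rw [← mul_assoc]
    apply Rch_bo ih hz
    rw [mul_assoc]
    exact (Lv2_st (Rch_lv hu)).1 hl

theorem TpD_back {T : List Arc} {u x y : PS}
    (hxy : x * y = 1) (ih : Rch (ast u T) u⁻¹) (hy : Rch (ast (u * x) T) y) :
    Rch (ast (u * x) T) (u * x)⁻¹ := by
  have h1 : (u * x)⁻¹ = y * u⁻¹ := by
    rw [mul_inv_rev]
    congr 1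
    exact inv_eq_of_mul_eq_one_right hxy
  rw [h1]
  apply Rch_trans hy
  rw [ast_ast, mul_assoc, hxy, mul_one]
  exact ih

theorem Rch_inv {T : List Arc} {u : PS} (hu : Rch T u) : Rch (ast u T) u⁻¹ := by
  refine TpD_ind (P := fun u => Rch (ast u T) u⁻¹) ?_ ?_ ?_ hu
  · rw [ast_one, inv_one]
    exact Rch_one T
  · intro u p z hw ih hz hl
    have hxy : ps p (lett z) * ps p (lett (bar z)) = 1 := by
      rw [ps_mul, lett_bar, mul_inv_cancel, ps_one]
    refine TpD_back hxy ih ?_
    have h1 := Rch_ps (T := ast (u * ps p (lett z)) T) (Rch_one _) (p := p) (z := bar z)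
      (by rw [bar_fst]; exact hz) (by
        rw [one_mul]
        apply (Lv2_st hl).2
        rw [mul_assoc, hxy, mul_one]
        exact Rch_lv hw)
    rwa [one_mul] at h1
  · intro u z hw ih hz hl
    have hxy : bo (lett z) * bo (lett (bar z)) = 1 := by
      rw [bo_mul, lett_bar, mul_inv_cancel, bo_one]
    refine TpD_back hxy ih ?_
    have h1 := Rch_bo (T := ast (u * bo (lett z)) T) (Rch_one _) (z := bar z)
      (by rw [bar_fst]; exact hz) (by
        rw [one_mul]
        apply (Lv2_st hl).2
        rw [mul_assoc, hxy, mul_one]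
        exact Rch_lv hw)
    rwa [one_mul] at h1

theorem Rch_diff {T : List Arc} {u v : PS} (hu : Rch T u) (hv : Rch T v) :
    Rch (ast u T) (u⁻¹ * v) := by
  apply Rch_trans (Rch_inv hu)
  rw [ast_ast, mul_inv_cancel, ast_one]
  exact hv

theorem Rch_TOK {h : ℕ} {T : List Arc} (hT : TOK h T) {u : PS} (hu : Rch T u) :
    TOK h (ast u T) := TOK_st hT (Rch_lv hu)

theorem TpD_pre {g : FreeGroup (Fin 3)} {z : Fin 3 × Bool} {v : List (Fin 3 × Bool)}
    (hv : v <+: (g * lett z).toWord) : v <+: g.toWord ∨ FreeGroup.mk v = g * lett z := by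
  by_cases h : g.toWord.getLast? = some (bar z)
  · rw [ConjA_right_pos h] at hv
    exact Or.inl (hv.trans (List.dropLast_prefix _))
  · have hw := ConjA_right_neg h
    rw [hw] at hv
    rcases List.prefix_concat_iff.1 hv with h1 | h1
    · right
      rw [h1, ← hw, FreeGroup.mk_toWord]
    · exact Or.inl h1

theorem TpD_ps (u : PS) (p q : Bool) (x : FreeGroup (Fin 3)) :
    (q = p ∧ (u * ps q x) p = u p * x) ∨ (u * ps q x) p = u p := by
  by_cases h : q = p
  · subst h
    left
    refine ⟨rfl, ?_⟩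
    rw [Pi.mul_apply, ps_self]
  · right
    have h1 : p = !q := by
      revert h
      revert p q
      decide
    rw [h1, Pi.mul_apply, ps_not, mul_one]

theorem Rch_prefix {T : List Arc} {u : PS} (hu : Rch T u) (p : Bool) {v : List (Fin 3 × Bool)}
    (hv : v <+: (u p).toWord) : ∃ w, Rch T w ∧ w p = FreeGroup.mk v := by
  revert v
  refine TpD_ind (P := fun u => ∀ {v : List (Fin 3 × Bool)}, v <+: (u p).toWord →
    ∃ w, Rch T w ∧ w p = FreeGroup.mk v) ?_ ?_ ?_ hu
  · intro v hv
    rw [Pi.one_apply, FreeGroup.toWord_one, List.prefix_nil] at hv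
    subst hv
    exact ⟨1, Rch_one T, rfl⟩
  · intro u q z hw ih hz hl v hv
    rcases TpD_ps u p q (lett z) with ⟨-, h⟩ | h
    · rw [h] at hv
      rcases TpD_pre hv with h1 | h1
      · exact ih h1
      · exact ⟨_, Rch_ps hw hz hl, h.trans h1.symm⟩
    · rw [h] at hv
      exact ih hv
  · intro u z hw ih hz hl v hv
    have h : (u * bo (lett z)) p = u p * lett z := rfl
    rw [h] at hv
    rcases TpD_pre hv with h1 | h1
    · exact ih h1
    · exact ⟨_, Rch_bo hw hz hl, h.trans h1.symm⟩

theorem TpD_head {g : FreeGroup (Fin 3)} {z y : Fin 3 × Bool}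
    (h : ahd (g * lett y) = some z) : ahd g = some z ∨ (g = 1 ∧ y = z) := by
  unfold ahd at h ⊢
  by_cases h1 : g.toWord.getLast? = some (bar y)
  · rw [ConjA_right_pos h1] at h
    left
    generalize g.toWord = l at h h1
    rcases l with _ | ⟨a, l⟩
    · simp at h
    · rcases l with _ | ⟨b, l⟩
      · simp at h
      · simpa using h
  · rw [ConjA_right_neg h1] at h
    rcases hg : g.toWord with _ | ⟨a, l⟩
    · right
      refine ⟨FreeGroup.toWord_eq_nil_iff.1 hg, ?_⟩
      rw [hg] at h
      simpa using h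
    · left
      rw [hg] at h
      simpa using h

theorem Rch_cross {T : List Arc} {u : PS} (hu : Rch T u) {p : Bool} {z : Fin 3 × Bool}
    (hz : ahd (u p) = some z) : ∃ w, Rch T w ∧ w p = 1 ∧ z.1 ≠ 0 ∧
      (Lv2 T (w * ps p (lett z)) ∨ Lv2 T (w * bo (lett z))) := by
  revert hz
  refine TpD_ind (P := fun u => ahd (u p) = some z → ∃ w, Rch T w ∧ w p = 1 ∧ z.1 ≠ 0 ∧
      (Lv2 T (w * ps p (lett z)) ∨ Lv2 T (w * bo (lett z)))) ?_ ?_ ?_ hu
  · intro h
    rw [Pi.one_apply, ahd_one] at h
    exact absurd h (by simp)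
  · intro u q y hw ih hy hl hz
    rcases TpD_ps u p q (lett y) with ⟨hq, h⟩ | h
    · rw [h] at hz
      rcases TpD_head hz with h1 | ⟨h1, h2⟩
      · exact ih h1
      · subst hq
        subst h2
        exact ⟨u, hw, h1, hy, Or.inl hl⟩
    · rw [h] at hz
      exact ih hz
  · intro u y hw ih hy hl hz
    have h : (u * bo (lett y)) p = u p * lett y := rfl
    rw [h] at hz
    rcases TpD_head hz with h1 | ⟨h1, h2⟩
    · exact ih h1
    · subst h2
      exact ⟨u, hw, h1, hy, Or.inr hl⟩

/-- induction on reachable states -/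
theorem Rch_ind {T : List Arc} {P : PS → Prop} (h1 : P 1)
    (hps : ∀ u p (z : Fin 3 × Bool), Rch T u → P u → z.1 ≠ 0 → Lv2 T (u * ps p (lett z)) →
      P (u * ps p (lett z)))
    (hbo : ∀ u (z : Fin 3 × Bool), Rch T u → P u → z.1 ≠ 0 → Lv2 T (u * bo (lett z)) →
      P (u * bo (lett z))) {u : PS} (hu : Rch T u) : P u :=
  TpD_ind h1 hps hbo hu

end Pool.Agent.Sims
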