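import Pool.Agent.Sims.ConjD
import Pool.Agent.Sims.ArcA
import Pool.Agent.Sims.TwBasic

/-!
# Definitions for the two-port lemma (part IV)

An arc is a triple `(p, q, g)`: `p, q` are the ports (`true`, `false`) of its left and right end, `g` its label.  A state `u : PS` gives the
positions `u true, u false` of the two ports; in the state `u` the label is `(u p)⁻¹ g (u q)`.
* `alab u e`, `ast u T` : label / list of arcs in the state `u`;  `atl T` : total length
* `ahd g` : first letter of `g`
* `anz p z T` : number of ends at the port `p` with first letter `z` (left end: first letter of `g`, right end: first letter of `g⁻¹`)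
* `anq T` : number of trivial arcs, `ank T` : number of mixed arcs (`p ≠ q`), `ane p T` : number of ends at the port `p`
* `TOK h T` : labels in `⟨b, c⟩`, the arcs with equal ports are nontrivial, `2h` ends at each port, minimal total length
* `ps p x` : the port `p` moved to `x`;  `bo x` : both ports moved to `x`
* `Lv2 T u` : `u` is in `⟨b, c⟩` and has the same total length
* `Rch T u` : `u` is reachable from `1` by level moves (one port, or both ports, by one letter)
* `Dr h p z T` : the move of the port `p` by `z` or the move of both ports by `z` is level (see `lv_ps`, `lv_bo`)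
* `mixL p T` : labels of the mixed arcs, read from the port `p` to the other one
* `dbl p T` : the doubled list: its simultaneous conjugation by `x` is the move of the port `p` to `x` (`a = of 0` is a marker)
* `Long p T` : the positions of the port `p` in the reachable states have diameter greater than the total length
PS is a group (pointwise): `(u * v) q = u q * v q`.
-/

namespace Pool.Agent.Sims

open FreeGroup (of)

/-- an arc: ports of its two ends, label -/
abbrev Arc : Type := Bool × Bool × FreeGroup (Fin 3)

/-- positions of the two ports -/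
abbrev PS : Type := Bool → FreeGroup (Fin 3)

/-- label of an arc in a state -/
def alab (u : PS) (e : Arc) : FreeGroup (Fin 3) := (u e.1)⁻¹ * e.2.2 * u e.2.1

/-- the arcs in a state -/
def ast (u : PS) (T : List Arc) : List Arc := T.map (fun e => (e.1, e.2.1, alab u e))

/-- total length -/
def atl (T : List Arc) : ℕ := (T.map (fun e => e.2.2.norm)).sum

/-- first letter -/
def ahd (g : FreeGroup (Fin 3)) : Option (Fin 3 × Bool) := g.toWord.head?

/-- number of ends at the port `p` with first letter `z` -/
def anz (p : Bool) (z : Fin 3 × Bool) (T : List Arc) : ℕ :=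
  (T.map (fun e => (if e.1 = p ∧ ahd e.2.2 = some z then 1 else 0) +
    (if e.2.1 = p ∧ ahd (e.2.2)⁻¹ = some z then 1 else 0))).sum

/-- number of trivial arcs -/
def anq (T : List Arc) : ℕ := (T.map (fun e => if e.2.2 = 1 then 1 else 0)).sum

/-- number of mixed arcs -/
def ank (T : List Arc) : ℕ := (T.map (fun e => if e.1 = e.2.1 then 0 else 1)).sum

/-- number of ends at the port `p` -/
def ane (p : Bool) (T : List Arc) : ℕ :=
  (T.map (fun e => (if e.1 = p then 1 else 0) + (if e.2.1 = p then 1 else 0))).sum

/-- valid minimal list of arcs -/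
structure TOK (h : ℕ) (T : List Arc) : Prop where
  /-- labels in `⟨b, c⟩` -/
  in12 : ∀ e ∈ T, In12 e.2.2
  /-- arcs with equal ports are nontrivial -/
  ntr : ∀ e ∈ T, e.1 = e.2.1 → e.2.2 ≠ 1
  /-- `2h` ends at each port -/
  ends : ∀ p, ane p T = 2 * h
  /-- minimality -/
  min : ∀ u : PS, (∀ p, In12 (u p)) → atl T ≤ atl (ast u T)

/-- one port moved -/
def ps (p : Bool) (x : FreeGroup (Fin 3)) : PS := fun q => if q = p then x else 1

/-- both ports moved -/
def bo (x : FreeGroup (Fin 3)) : PS := fun _ => x

/-- level state -/
def Lv2 (T : List Arc) (u : PS) : Prop := (∀ p, In12 (u p)) ∧ atl (ast u T) = atl T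

/-- one level move -/
def Stp (T : List Arc) (u v : PS) : Prop :=
  Lv2 T v ∧ ∃ z : Fin 3 × Bool, z.1 ≠ 0 ∧ ((∃ p, v = u * ps p (lett z)) ∨ v = u * bo (lett z))

/-- reachable states -/
def Rch (T : List Arc) (u : PS) : Prop := Relation.ReflTransGen (Stp T) 1 u

/-- the move of the port `p` or of both ports by `z` is level -/
def Dr (h : ℕ) (p : Bool) (z : Fin 3 × Bool) (T : List Arc) : Prop :=
  anz p z T = h ∨ anz true z T + anz false z T + anq T = 2 * h

/-- labels of the mixed arcs, read from the port `p` -/
def mixL (p : Bool) (T : List Arc) : List (FreeGroup (Fin 3)) :=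
  (T.filter (fun e => decide (e.1 ≠ e.2.1))).map (fun e => if e.1 = p then e.2.2 else (e.2.2)⁻¹)

/-- the doubled list -/
def dbl (p : Bool) (T : List Arc) : List (FreeGroup (Fin 3)) :=
  T.flatMap (fun e => if e.1 = p then (if e.2.1 = p then [e.2.2, e.2.2] else
      [e.2.2 * of 0 * (e.2.2)⁻¹]) else if e.2.1 = p then [(e.2.2)⁻¹ * of 0 * e.2.2] else [])

/-- large diameter of the positions of the port `p` -/
def Long (p : Bool) (T : List Arc) : Prop :=
  ∃ u v, Rch T u ∧ Rch T v ∧ atl T + 1 ≤ ((u p)⁻¹ * v p).norm

end Pool.Agent.Sims
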