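import Pool.Agent.Sims.TpC
import Pool.Agent.Sims.TpD

/-!
# Module `TpE` : the directions of a port

* `Rch_same`: `v = u * ps (!p) y` with `y = (u !p)⁻¹ (v !p)` (`PS_ext`), `ps (!p) y` is level for `ast u T` (`Lv2_st`), `fib_rch`, `Rch_trans`.
* `anz_fib`: the port `!p` moves to `y ≠ 1`, level.  Arcs with both ports `p` do not change, arcs with both ports `!p` have no `p`-end.  Mixed arcs: read them from `!p` (`mixL (!p) T`, labels
  `g`, new labels `y⁻¹ g`); the `p`-end letter of the arc is `ahd g⁻¹`.  `fib_mixed` (for `!p`): if `|y⁻¹ g| = |g| - |y|` then `g = y (y⁻¹ g)` without cancellation, so if `y⁻¹ g ≠ 1` the last letter of `g`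
  and of `y⁻¹ g` agree (`ahd g⁻¹ = ahd (y⁻¹ g)⁻¹`).  If `|y⁻¹ g| = |g| + |y|` then `y⁻¹ g` is reduced as written; if `g ≠ 1` the last letters agree; if `g = 1` then the new label is `y⁻¹`, its `p`-end letter is
  `ahd y = some w`.  So each `p`-end with letter `z` in the new state has the letter `z` in the old one, or its arc was trivial and `z = w`.
* `anz_fib1` (one letter, used in `dr_fib`): `y = lett w`: the trivial arcs get the `p`-end letter `w`, the other arcs keep their `p`-end letter unless they become trivial, and this happens only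
  if their `p`-end letter was `bar w`.
* `dr_fib`: put `T' = ast (ps (!p) y) T`, `w' = ahd y⁻¹` (so `ps (!p) y⁻¹` is level for `T'`, `fib_head`: `anz (!p) w' T' = h`), `w = ahd y`: `anz (!p) w T = h`.  We may assume `y ≠ 1`.
  Step 1: there is `y''` with `ps (!p) y''` level for `T` and `anz p z (ast (ps (!p) y'') T) = h`: if not `y'' = y`, then `anz true z T' + anz false z T' + anq T' = 2h` and `anz p z T' < h`; if `w' ≠ z` then
  `anz (!p) z T' ≤ h - anq T'` (`anz_two_le`), so `anz p z T' ≥ h`, contradiction.  So `w' = z`, `anz (!p) z T' = h`, `anz p z T' = h - anq T'`, the move of `!p` by `z` is level (`lv_ps`) and by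
  `anz_fib1` (`z ≠ bar z`) the new value of `anz p z` is `≥ h`, hence `= h` (`anz_le`): `y'' = y * lett z`.
  Step 2: if `y'' = 1` done (left alternative).  Otherwise let `w = ahd y''`.  `anz_fib`: `h ≤ anz p z T + [z = w] anq T`.  If `w ≠ z`: `anz p z T = h`.  If `w = z`: `anz (!p) z T = h` (`fib_head`), so
  `anz p z T + anz (!p) z T + anq T ≥ 2h`, with `anz_bo_le`: right alternative.
* `dr_of_hd`: `Rch_cross`: `w` with `w p = 1`, so `w = ps (!p) y`; at `ast w T` the move by `z` of `p` or of both ports is level (`Lv2_st`, `lv_ps`, `lv_bo`): `Dr h p z (ast w T)`; `dr_fib`.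
Difficulty 3.
-/

namespace Pool.Agent.Sims

open FreeGroup (of)

private theorem ps_at (p : Bool) (x : FreeGroup (Fin 3)) : ps (!p) x p = 1 := by
  have h := ps_not (!p) x
  rwa [Bool.not_not] at h

theorem TpE_eq_ps {w : PS} {p : Bool} (hw : w p = 1) : w = ps (!p) (w (!p)) := by
  refine PS_ext p ?_ ?_
  · rw [hw, ps_at]
  · rw [ps_self]

theorem Rch_same {h : ℕ} {T : List Arc} (hT : TOK h T) {u v : PS} (hu : Rch T u)
    (hv : Lv2 T v) {p : Bool} (hp : v p = u p) : Rch T v := by
  have h1 : u * ps (!p) ((u (!p))⁻¹ * v (!p)) = v := by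
    refine PS_ext p ?_ ?_
    · rw [Pi.mul_apply, ps_at, mul_one, hp]
    · rw [Pi.mul_apply, ps_self, mul_inv_cancel_left]
  have h2 : Lv2 (ast u T) (ps (!p) ((u (!p))⁻¹ * v (!p))) := by
    rw [Lv2_st (Rch_lv hu), h1]; exact hv
  have h3 := Rch_trans hu (fib_rch (TOK_st hT (Rch_lv hu)) h2)
  rwa [h1] at h3

/-- reduced product -/
theorem TpE_mul {a b : FreeGroup (Fin 3)} (h : (a * b).norm = a.norm + b.norm) :
    (a * b).toWord = a.toWord ++ b.toWord := by
  apply (FreeGroup.toWord_mul_sublist a b).eq_of_length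
  rw [List.length_append]
  exact h

theorem TpE_last {a b : FreeGroup (Fin 3)} (h : (a * b).norm = a.norm + b.norm) (hb : b ≠ 1) :
    (a * b).toWord.getLast? = b.toWord.getLast? := by
  rw [TpE_mul h]
  have hne : b.toWord ≠ [] := fun h => hb (FreeGroup.toWord_eq_nil_iff.1 h)
  obtain ⟨c, hc⟩ : ∃ c, b.toWord.getLast? = some c := ⟨_, List.getLast?_eq_some_getLast hne⟩
  rw [List.getLast?_append, hc]
  rfl

theorem TpE_inv_last {a b : FreeGroup (Fin 3)} (h : a.toWord.getLast? = b.toWord.getLast?)
    (z : Fin 3 × Bool) : ahd a⁻¹ = some z ↔ ahd b⁻¹ = some z := by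
  unfold ahd
  rw [ConjA_head, ConjA_head, h]

/-- the key statement on one mixed arc -/
theorem TpE_key {h : ℕ} {T : List Arc} (hT : TOK h T) {p : Bool} {y : FreeGroup (Fin 3)}
    (hy : Lv2 T (ps p y)) {w : Fin 3 × Bool} (hw : ahd y = some w) (z : Fin 3 × Bool)
    {G : FreeGroup (Fin 3)} (hG : G ∈ mixL p T) (hz : ahd (y⁻¹ * G)⁻¹ = some z) :
    ahd G⁻¹ = some z ∨ (z = w ∧ G = 1) := by
  have hy1 : y ≠ 1 := by
    intro h
    rw [h, ahd_one] at hw
    exact absurd hw (by simp)
  rcases fib_mixed hT hy hy1 hG with ⟨-, h2⟩ | ⟨-, h2⟩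
  · left
    have h3 : y⁻¹ * G ≠ 1 := by
      intro h
      rw [h, inv_one, ahd_one] at hz
      exact absurd hz (by simp)
    have h4 : (y * (y⁻¹ * G)).norm = y.norm + (y⁻¹ * G).norm := by
      rw [mul_inv_cancel_left]; omega
    have h5 := TpE_last h4 h3
    rw [mul_inv_cancel_left] at h5
    exact (TpE_inv_last h5 z).2 hz
  · by_cases hG1 : G = 1
    · right
      refine ⟨?_, hG1⟩
      rw [hG1, mul_one, inv_inv, hw] at hz
      exact (Option.some.inj hz).symm
    · left
      have h4 : (y⁻¹ * G).norm = (y⁻¹).norm + G.norm := by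
        rw [FreeGroup.norm_inv_eq, h2]; omega
      exact (TpE_inv_last (TpE_last h4 hG1) z).1 hz

/-- the ends of one arc -/
def TpE_f (p : Bool) (z : Fin 3 × Bool) (e : Arc) : ℕ :=
  (if e.1 = p ∧ ahd e.2.2 = some z then 1 else 0) +
    (if e.2.1 = p ∧ ahd (e.2.2)⁻¹ = some z then 1 else 0)

theorem TpE_anz (p : Bool) (z : Fin 3 × Bool) (T : List Arc) :
    anz p z T = (T.map (TpE_f p z)).sum := rfl

theorem TpE_anz_st (p : Bool) (z : Fin 3 × Bool) (u : PS) (T : List Arc) :
    anz p z (ast u T) = (T.map (fun e => TpE_f p z (e.1, e.2.1, alab u e))).sum := by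
  rw [TpE_anz]
  unfold ast
  rw [List.map_map]
  rfl

theorem TpE_sum {T : List Arc} {f g q : Arc → ℕ} (h : ∀ e ∈ T, f e ≤ g e + q e) :
    (T.map f).sum ≤ (T.map g).sum + (T.map q).sum := by
  induction T with
  | nil => simp
  | cons a T ih =>
    simp only [List.map_cons, List.sum_cons]
    have h1 := h a (by simp)
    have h2 := ih (fun e he => h e (by simp [he]))
    omega

theorem TpE_mem {T : List Arc} {e : Arc} (he : e ∈ T) (h : e.1 ≠ e.2.1) (p : Bool) :
    (if e.1 = p then e.2.2 else (e.2.2)⁻¹) ∈ mixL p T := by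
  unfold mixL
  rw [List.mem_map]
  exact ⟨e, List.mem_filter.2 ⟨he, by simpa using h⟩, rfl⟩

theorem anz_fib {h : ℕ} {T : List Arc} (hT : TOK h T) {p : Bool} {y : FreeGroup (Fin 3)}
    (hy : Lv2 T (ps (!p) y)) {w : Fin 3 × Bool} (hw : ahd y = some w) (z : Fin 3 × Bool) :
    anz p z (ast (ps (!p) y) T) ≤ anz p z T + (if z = w then anq T else 0) := by
  have key := fun {G : FreeGroup (Fin 3)} (hG : G ∈ mixL (!p) T) => TpE_key hT hy hw z hG
  have h1 : (if z = w then anq T else 0) =
      (T.map (fun e : Arc => if z = w ∧ e.2.2 = 1 then 1 else 0)).sum := by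
    by_cases hzw : z = w
    · rw [if_pos hzw]
      unfold anq
      congr 1
      apply List.map_congr_left
      intro e _
      simp [hzw]
    · rw [if_neg hzw]
      symm
      rw [List.sum_eq_zero_iff]
      intro x hx
      obtain ⟨e, -, he⟩ := List.mem_map.1 hx
      rw [← he, if_neg (fun h => hzw h.1)]
  rw [TpE_anz_st, TpE_anz, h1]
  apply TpE_sum
  rintro ⟨a, b, g⟩ he
  unfold TpE_f alab
  simp only
  by_cases ha : a = p
  · by_cases hb : b = p
    · subst ha
      subst hb
      rw [ps_at, inv_one, one_mul, mul_one]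
      exact Nat.le_add_right _ _
    · have hb' : b = !p := by cases b <;> cases p <;> simp_all
      subst ha
      subst hb'
      have hm := TpE_mem he (by cases a <;> simp) (!a)
      simp only at hm
      rw [if_neg (by cases a <;> simp)] at hm
      have hk := key hm
      rw [ps_at, ps_self, inv_one, one_mul]
      rw [mul_inv_rev, inv_inv, inv_inv, inv_eq_one] at hk
      have hf : ¬ ((!a) = a) := by cases a <;> simp
      simp only [hf, false_and, if_false, true_and, add_zero]
      by_cases h3 : ahd (g * y) = some z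
      · rw [if_pos h3]
        rcases hk h3 with h4 | ⟨h4, h5⟩
        · rw [if_pos h4]; omega
        · rw [if_pos (show z = w ∧ g = 1 from ⟨h4, h5⟩)]; omega
      · rw [if_neg h3]; omega
  · have ha' : a = !p := by cases a <;> cases p <;> simp_all
    by_cases hb : b = p
    · subst hb
      subst ha'
      have hm := TpE_mem he (by cases b <;> simp) (!b)
      simp only [if_true] at hm
      have hk := key hm
      rw [ps_at, ps_self, mul_one]
      have hf : ¬ ((!b) = b) := by cases b <;> simp
      simp only [hf, false_and, if_false, true_and, zero_add]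
      by_cases h3 : ahd (y⁻¹ * g)⁻¹ = some z
      · rw [if_pos h3]
        rcases hk h3 with h4 | ⟨h4, h5⟩
        · rw [if_pos h4]; omega
        · rw [if_pos (show z = w ∧ g = 1 from ⟨h4, h5⟩)]; omega
      · rw [if_neg h3]; omega
    · simp [ha, hb]

/-- one letter, one mixed arc -/
theorem TpE_key1 {z : Fin 3 × Bool} {G : FreeGroup (Fin 3)} (hG : G = 1 ∨ ahd G⁻¹ = some z) :
    ahd ((lett z)⁻¹ * G)⁻¹ = some z := by
  have hb : bar z ≠ z := by
    intro h
    have := congrArg Prod.snd h
    simp [bar] at this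
  rcases hG with hG | hG
  · rw [hG, mul_one, inv_inv]
    have h1 : (lett z * 1).toWord = z :: (1 : FreeGroup (Fin 3)).toWord :=
      ConjA_left_neg (by rw [FreeGroup.toWord_one]; simp)
    rw [mul_one] at h1
    unfold ahd
    rw [h1]
    rfl
  · unfold ahd at hG ⊢
    rw [ConjA_head] at hG ⊢
    rw [← lett_bar]
    by_cases h1 : G.toWord.head? = some z
    · rw [ConjA_left_pos (by rw [bar_bar]; exact h1)]
      generalize G.toWord = v at h1 hG
      rcases v with _ | ⟨c, v⟩
      · simp at h1
      · rcases v with _ | ⟨d, v⟩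
        · exfalso
          simp only [List.head?_cons, Option.some.injEq] at h1
          simp only [List.getLast?_singleton, Option.some.injEq] at hG
          exact hb (hG.symm.trans h1)
        · rw [List.tail_cons]
          rwa [List.getLast?_cons_cons] at hG
    · rw [ConjA_left_neg (by rw [bar_bar]; exact h1)]
      rw [ConjA_last (by intro h; rw [h] at hG; simp at hG)]
      exact hG

theorem anz_fib1 {h : ℕ} {T : List Arc} (hT : TOK h T) {p : Bool} {z : Fin 3 × Bool}
    (hz : z.1 ≠ 0) : anz p z T + anq T ≤ anz p z (ast (ps (!p) (lett z)) T) := by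
  have h1 : anz p z T + anq T =
      (T.map (fun e : Arc => TpE_f p z e + (if e.2.2 = 1 then 1 else 0))).sum := by
    rw [List.sum_map_add]
    rfl
  have h2 : anz p z (ast (ps (!p) (lett z)) T) =
      (T.map (fun e => TpE_f p z (e.1, e.2.1, alab (ps (!p) (lett z)) e))).sum +
        (T.map (fun _ : Arc => 0)).sum := by
    rw [TpE_anz_st]
    simp
  rw [h1, h2]
  apply TpE_sum
  rintro ⟨a, b, g⟩ he
  have hn := hT.ntr _ he
  unfold TpE_f alab
  simp only at hn ⊢
  by_cases ha : a = p
  · by_cases hb : b = p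
    · subst ha
      subst hb
      rw [ps_at, inv_one, one_mul, mul_one, if_neg (hn rfl)]
    · have hb' : b = !p := by cases b <;> cases p <;> simp_all
      subst ha
      subst hb'
      rw [ps_at, ps_self, inv_one, one_mul]
      have hf : ¬ ((!a) = a) := by cases a <;> simp
      simp only [hf, false_and, if_false, true_and, add_zero]
      have h3 : g = 1 ∨ ahd g = some z → ahd (g * lett z) = some z := by
        intro h
        have h4 := TpE_key1 (z := z) (G := g⁻¹) (by rw [inv_inv, inv_eq_one]; exact h)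
        rwa [mul_inv_rev, inv_inv, inv_inv] at h4
      by_cases h5 : g = 1
      · rw [if_pos (h3 (Or.inl h5)), if_pos h5, if_neg]
        rw [h5, ahd_one]; simp
      · rw [if_neg h5]
        by_cases h6 : ahd g = some z
        · rw [if_pos h6, if_pos (h3 (Or.inr h6))]
        · rw [if_neg h6]; omega
  · have ha' : a = !p := by cases a <;> cases p <;> simp_all
    by_cases hb : b = p
    · subst hb
      subst ha'
      rw [ps_at, ps_self, mul_one]
      have hf : ¬ ((!b) = b) := by cases b <;> simp
      simp only [hf, false_and, if_false, true_and, zero_add]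
      by_cases h5 : g = 1
      · rw [if_pos (TpE_key1 (Or.inl h5)), if_pos h5, if_neg]
        rw [h5, inv_one, ahd_one]; simp
      · rw [if_neg h5]
        by_cases h6 : ahd g⁻¹ = some z
        · rw [if_pos h6, if_pos (TpE_key1 (Or.inr h6))]
        · rw [if_neg h6]; omega
    · have hab : a = b := by
        rw [ha']; cases b <;> cases p <;> simp_all
      rw [if_neg (hn hab)]
      simp [ha, hb]

theorem TpE_two (p : Bool) (z : Fin 3 × Bool) (T : List Arc) :
    anz true z T + anz false z T = anz p z T + anz (!p) z T := by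
  cases p
  · rw [Bool.not_false]; omega
  · rw [Bool.not_true]

theorem dr_fib {h : ℕ} {T : List Arc} (hT : TOK h T) {p : Bool} {y : FreeGroup (Fin 3)}
    (hy : Lv2 T (ps (!p) y)) {z : Fin 3 × Bool} (hz : z.1 ≠ 0)
    (hd : Dr h p z (ast (ps (!p) y) T)) : Dr h p z T := by
  by_cases hy1 : y = 1
  · rwa [hy1, ps_one, ast_one] at hd
  have hT' : TOK h (ast (ps (!p) y) T) := TOK_st hT hy
  -- step 1
  obtain ⟨y2, hy2, hz2⟩ : ∃ y2, Lv2 T (ps (!p) y2) ∧ anz p z (ast (ps (!p) y2) T) = h := by
    by_cases hd1 : anz p z (ast (ps (!p) y) T) = h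
    · exact ⟨y, hy, hd1⟩
    · rcases hd with hd | hd
      · exact absurd hd hd1
      have hle := anz_le hT' p hz
      have hy3 : y⁻¹ ≠ 1 := by rwa [Ne, inv_eq_one]
      obtain ⟨w, hw⟩ : ∃ w, ahd y⁻¹ = some w := by
        rcases hh : ahd y⁻¹ with _ | w
        · exact absurd (ahd_eq_none.1 hh) hy3
        · exact ⟨w, rfl⟩
      have hlv : Lv2 (ast (ps (!p) y) T) (ps (!p) y⁻¹) := by
        rw [Lv2_st hy, ps_mul, mul_inv_cancel, ps_one]
        exact Lv2_one
      have hh := fib_head hT' hlv hw
      rw [TpE_two p] at hd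
      have hwz : w = z := by
        by_contra hne
        have h2 := anz_two_le hT' (!p) hne
        omega
      subst hwz
      have hlv2 : Lv2 (ast (ps (!p) y) T) (ps (!p) (lett w)) := (lv_ps hT' (!p) hz).2 hh
      have h3 := anz_fib1 hT' (p := p) hz
      have h4 := anz_le (TOK_st hT' hlv2) p hz
      refine ⟨y * lett w, ?_, ?_⟩
      · rw [Lv2_st hy, ps_mul] at hlv2
        exact hlv2
      · rw [ast_ast, ps_mul] at h3 h4
        omega
  -- step 2
  by_cases h1 : y2 = 1
  · rw [h1, ps_one, ast_one] at hz2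
    exact Or.inl hz2
  obtain ⟨w, hw⟩ : ∃ w, ahd y2 = some w := by
    rcases hh : ahd y2 with _ | w
    · exact absurd (ahd_eq_none.1 hh) h1
    · exact ⟨w, rfl⟩
  have h2 := anz_fib hT hy2 hw z
  have h3 := anz_le hT p hz
  rw [hz2] at h2
  by_cases hzw : z = w
  · rw [if_pos hzw] at h2
    subst hzw
    have h4 := fib_head hT hy2 hw
    have h5 := anz_bo_le hT hz
    right
    rw [TpE_two p] at h5 ⊢
    omega
  · rw [if_neg hzw] at h2
    left
    omega

theorem dr_of_hd {h : ℕ} {T : List Arc} (hT : TOK h T) {u : PS} (hu : Rch T u) {p : Bool}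
    {z : Fin 3 × Bool} (hz : ahd (u p) = some z) : Dr h p z T := by
  obtain ⟨w, hw, hwp, hz0, hc⟩ := Rch_cross hu hz
  have hlw := Rch_lv hw
  have hTw := TOK_st hT hlw
  have hd : Dr h p z (ast w T) := by
    rcases hc with hc | hc
    · left
      exact (lv_ps hTw p hz0).1 ((Lv2_st hlw).2 hc)
    · right
      exact (lv_bo hTw hz0).1 ((Lv2_st hlw).2 hc)
  have he := TpE_eq_ps hwp
  rw [he] at hd hlw
  exact dr_fib hT hlw hz0 hd

end Pool.Agent.Sims
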