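import Pool.Agent.Sims.TpE

/-!
# Module `TpF` : the positions of a port form a path

* `dr_two`: write `Q = anq T`, `N = anz p`, `M = anz (!p)`; `N z + M z + Q = 2h` in the joint case (the order of `true, false` does not matter), `N, M ≤ h` (`anz_le`), `N z1 + N z2 + Q ≤ 2h` and
  the same for `M` (`anz_two_le`).  Both single: `N z1 + N z2 = 2h`, so `Q = 0`.  Single, joint: `N z1 = h`, so `N z2 ≤ h - Q`, `M z2 ≤ h`, `N z2 + M z2 = 2h - Q`: equality.  Both joint: the sum of the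
  two is `4h - 2Q`, and `N z1 + N z2 ≤ 2h - Q`, `M z1 + M z2 ≤ 2h - Q`: equality.
* `dr_three`: by `dr_two` for the three pairs and `anz_three_le`: `N z1 + N z2 + Q = 2h`, so `N z3 = 0`; in the same way `N z1 = N z2 = 0`, `Q = 2h`, contradiction to `anq_lt`.
* `pre_comp`: let `u p`, `v p` have different words, none a prefix of the other; `ConjB_first`-like: `(u p).toWord = l ++ z :: s`, `(v p).toWord = l ++ z' :: s'`, `z ≠ z'`; `l ≠ []` since the first
  letters agree; let `t` be the last letter of `l`.  `Rch_prefix`: `w` reachable with `w p = mk l`; at the base `ast w T` (`Rch_TOK`, `Rch_diff`) there are reachable states with the first letter `z`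
  (`(mk l)⁻¹ * u p = mk (z :: s)`), `z'` and `bar t` (the inverse of `w`: `(mk l)⁻¹`), three different letters: `dr_of_hd`, `dr_three` (`Lv2_atl`).
* `hd_diff`: `u p`, `v p` nontrivial with different first letters: `((u p)⁻¹ * v p).norm = (u p).norm + (v p).norm` (pure free group).
* `end_pair`: choose `u0, u1 ∈ S` with `((u0 p)⁻¹ * u1 p).norm` maximal (`Finset.exists_max_image` on `S ×ˢ S`).  For `u ∈ S` let `x = (u0 p)⁻¹ * u p`, `y = (u0 p)⁻¹ * u1 p`; at the base
  `ast u0 T` both are positions of reachable states (`Rch_diff`).  If `x = 1`: prefix.  If the first letters are different (`y ≠ 1` by maximality if `x ≠ 1`), `hd_diff`: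
  `((u p)⁻¹ * u1 p).norm = (x⁻¹ y).norm > y.norm`, contradiction.  So `pre_comp`, and `x.norm ≤ y.norm` gives the prefix (`FreeGroup.norm = length`).
Difficulty 2-3.
-/

namespace Pool.Agent.Sims

open FreeGroup (of)

theorem TpF_mul {x y : FreeGroup (Fin 3)}
    (h : ∀ a, x.toWord.getLast? = some a → ¬ y.toWord.head? = some (bar a)) :
    (x * y).toWord = x.toWord ++ y.toWord := by
  have e : x * y = FreeGroup.mk (x.toWord ++ y.toWord) := by
    rw [← FreeGroup.mul_mk, FreeGroup.mk_toWord, FreeGroup.mk_toWord]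
  have hr : FreeGroup.IsReduced (x.toWord ++ y.toWord) := by
    unfold FreeGroup.IsReduced
    rw [List.isChain_append]
    refine ⟨FreeGroup.isReduced_toWord, FreeGroup.isReduced_toWord, ?_⟩
    intro a ha b hb h1
    rw [Option.mem_def] at ha hb
    by_contra h2
    apply h a ha
    rw [hb]
    congr 1
    refine Prod.ext h1.symm ?_
    simp only [bar_snd]
    revert h2
    cases a.2 <;> cases b.2 <;> simp
  rw [e, FreeGroup.toWord_mk, hr.reduce_eq]

theorem TpF_split : ∀ (l l' : List (Fin 3 × Bool)), l <+: l' ∨ l' <+: l ∨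
    ∃ (v s s' : List (Fin 3 × Bool)) (z z' : Fin 3 × Bool), l = v ++ z :: s ∧
      l' = v ++ z' :: s' ∧ z ≠ z' := by
  intro l
  induction l with
  | nil => intro l'; exact Or.inl (List.nil_prefix)
  | cons a l ih =>
    intro l'
    cases l' with
    | nil => exact Or.inr (Or.inl List.nil_prefix)
    | cons b l' =>
      by_cases hab : a = b
      · subst hab
        rcases ih l' with h | h | ⟨v, s, s', z, z', h1, h2, h3⟩
        · exact Or.inl ((List.prefix_cons_inj a).2 h)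
        · exact Or.inr (Or.inl ((List.prefix_cons_inj a).2 h))
        · refine Or.inr (Or.inr ⟨a :: v, s, s', z, z', ?_, ?_, h3⟩)
          · rw [h1]; rfl
          · rw [h2]; rfl
      · exact Or.inr (Or.inr ⟨[], l, l', a, b, rfl, rfl, hab⟩)

theorem TpF_mk {l : List (Fin 3 × Bool)} (h : FreeGroup.IsReduced l) :
    (FreeGroup.mk l).toWord = l := by
  rw [FreeGroup.toWord_mk, h.reduce_eq]

theorem dr_two {h : ℕ} {T : List Arc} (hT : TOK h T) {p : Bool} {z1 z2 : Fin 3 × Bool}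
    (h10 : z1.1 ≠ 0) (h20 : z2.1 ≠ 0) (h12 : z1 ≠ z2) (h1 : Dr h p z1 T) (h2 : Dr h p z2 T) :
    anz p z1 T + anz p z2 T + anq T = 2 * h := by
  have a1 := anz_le hT true h10
  have a2 := anz_le hT true h20
  have a3 := anz_le hT false h10
  have a4 := anz_le hT false h20
  have b1 := anz_two_le hT true h12
  have b2 := anz_two_le hT false h12
  unfold Dr at h1 h2
  cases p
  · rcases h1 with h1 | h1 <;> rcases h2 with h2 | h2 <;> omega
  · rcases h1 with h1 | h1 <;> rcases h2 with h2 | h2 <;> omega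

theorem dr_three {h : ℕ} {T : List Arc} (hT : TOK h T) (hl : 1 ≤ atl T) {p : Bool}
    {z1 z2 z3 : Fin 3 × Bool} (h10 : z1.1 ≠ 0) (h20 : z2.1 ≠ 0) (h30 : z3.1 ≠ 0) (h12 : z1 ≠ z2)
    (h13 : z1 ≠ z3) (h23 : z2 ≠ z3) (h1 : Dr h p z1 T) (h2 : Dr h p z2 T) :
    ¬ Dr h p z3 T := by
  intro h3
  have a1 := dr_two hT h10 h20 h12 h1 h2
  have a2 := dr_two hT h10 h30 h13 h1 h3
  have a3 := dr_two hT h20 h30 h23 h2 h3
  have b := anz_three_le hT p h12 h13 h23
  have c := anq_lt hT hl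
  omega

theorem pre_comp {h : ℕ} {T : List Arc} (hT : TOK h T) (hl : 1 ≤ atl T) {u v : PS}
    (hu : Rch T u) (hv : Rch T v) {p : Bool} (hh : ahd (u p) = ahd (v p)) :
    (u p).toWord <+: (v p).toWord ∨ (v p).toWord <+: (u p).toWord := by
  rcases TpF_split (u p).toWord (v p).toWord with h1 | h1 | ⟨l, s, s', z, z', e1, e2, hz⟩
  · exact Or.inl h1
  · exact Or.inr h1
  exfalso
  have hr1 : FreeGroup.IsReduced (l ++ z :: s) := by rw [← e1]; exact FreeGroup.isReduced_toWord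
  have hr2 : FreeGroup.IsReduced (l ++ z' :: s') := by rw [← e2]; exact FreeGroup.isReduced_toWord
  have hl0 : l ≠ [] := by
    rintro rfl
    unfold ahd at hh
    rw [e1, e2] at hh
    simp only [List.nil_append, List.head?_cons, Option.some.injEq] at hh
    exact hz hh
  obtain ⟨l0, t, rfl⟩ := List.eq_nil_or_concat l |>.resolve_left hl0
  rw [List.concat_eq_append] at hr1 hr2 e1 e2
  obtain ⟨w, hw, hwp⟩ := Rch_prefix hu p (v := l0 ++ [t]) ⟨z :: s, e1.symm⟩
  have hT' := Rch_TOK hT hw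
  have hl' : 1 ≤ atl (ast w T) := by rw [Lv2_atl (Rch_lv hw)]; exact hl
  have hrl : FreeGroup.IsReduced (l0 ++ [t]) := red_mid hr1 ⟨[], z :: s, by simp⟩
  have key : ∀ (u' : PS) (y : Fin 3 × Bool) (r : List (Fin 3 × Bool)), Rch T u' →
      (u' p).toWord = l0 ++ [t] ++ y :: r → FreeGroup.IsReduced (l0 ++ [t] ++ y :: r) →
      Dr h p y (ast w T) ∧ y.1 ≠ 0 ∧ y ≠ bar t := by
    intro u' y r hu' e hr
    have h2 := Rch_diff hw hu'
    have h3 : (w⁻¹ * u') p = FreeGroup.mk (y :: r) := by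
      show (w p)⁻¹ * u' p = _
      have h2' : FreeGroup.mk (l0 ++ [t] ++ y :: r) =
          FreeGroup.mk (l0 ++ [t]) * FreeGroup.mk (y :: r) := rfl
      rw [hwp, ← FreeGroup.mk_toWord (x := u' p), e, h2', inv_mul_cancel_left]
    have hr' : FreeGroup.IsReduced (y :: r) := red_mid hr ⟨l0 ++ [t], [], by simp⟩
    have h4 : ahd ((w⁻¹ * u') p) = some y := by
      unfold ahd
      rw [h3, TpF_mk hr']
      rfl
    refine ⟨dr_of_hd hT' h2 h4, ahd_in12 ((Rch_lv h2).1 p) h4, ?_⟩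
    rw [List.append_assoc] at hr
    exact ConjB_ne hr
  obtain ⟨d1, n1, b1⟩ := key u z s hu e1 hr1
  obtain ⟨d2, n2, b2⟩ := key v z' s' hv e2 hr2
  have h5 := Rch_inv hw
  have h6 : ahd (w⁻¹ p) = some (bar t) := by
    show ahd ((w p)⁻¹) = _
    rw [hwp]
    unfold ahd
    rw [ConjA_head, TpF_mk hrl, bar_bar, List.getLast?_concat]
  have n3 := ahd_in12 ((Rch_lv h5).1 p) h6
  have d3 := dr_of_hd hT' h5 h6
  exact dr_three hT' hl' n1 n2 n3 hz b1 b2 d1 d2 d3

theorem hd_diff {x y : FreeGroup (Fin 3)} (h : ahd x ≠ ahd y) :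
    (x⁻¹ * y).norm = x.norm + y.norm := by
  have h1 : (x⁻¹ * y).toWord = x⁻¹.toWord ++ y.toWord := by
    apply TpF_mul
    intro a ha hy
    apply h
    unfold ahd
    rw [hy]
    have := (ConjA_head (bar a) x⁻¹).2 (by rw [bar_bar]; exact ha)
    rwa [inv_inv] at this
  unfold FreeGroup.norm
  rw [h1, List.length_append]
  congr 1
  exact FreeGroup.norm_inv_eq

theorem pre_mul {x y : FreeGroup (Fin 3)} (h : x.toWord <+: y.toWord) :
    (x⁻¹ * y).norm + x.norm = y.norm ∧ y.toWord = x.toWord ++ (x⁻¹ * y).toWord := by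
  obtain ⟨t, ht⟩ := h
  have hr : FreeGroup.IsReduced t :=
    red_mid (FreeGroup.isReduced_toWord (x := y)) ⟨x.toWord, [], by rw [List.append_nil, ht]⟩
  have h1 : x⁻¹ * y = FreeGroup.mk t := by
    rw [← FreeGroup.mk_toWord (x := y), ← ht, ← FreeGroup.mul_mk, FreeGroup.mk_toWord,
      inv_mul_cancel_left]
  have h2 : (x⁻¹ * y).toWord = t := by rw [h1, TpF_mk hr]
  refine ⟨?_, by rw [h2, ht]⟩
  unfold FreeGroup.norm
  rw [h2, ← ht, List.length_append, add_comm]

theorem end_pair {h : ℕ} {T : List Arc} (hT : TOK h T) (hl : 1 ≤ atl T) {S : Finset PS}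
    (hS : S.Nonempty) (hR : ∀ u ∈ S, Rch T u) (p : Bool) :
    ∃ u0 ∈ S, ∃ u1 ∈ S, ∀ u ∈ S, ((u0 p)⁻¹ * u p).toWord <+: ((u0 p)⁻¹ * u1 p).toWord := by
  obtain ⟨⟨u0, u1⟩, h01, hmax⟩ := Finset.exists_max_image (S ×ˢ S)
    (fun q => ((q.1 p)⁻¹ * q.2 p).norm) (hS.product hS)
  rw [Finset.mem_product] at h01
  refine ⟨u0, h01.1, u1, h01.2, fun u hu => ?_⟩
  have hx1 : ((u0 p)⁻¹ * u p).norm ≤ ((u0 p)⁻¹ * u1 p).norm :=
    hmax (u0, u) (Finset.mem_product.2 ⟨h01.1, hu⟩)
  have hx2 : ((u p)⁻¹ * u1 p).norm ≤ ((u0 p)⁻¹ * u1 p).norm :=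
    hmax (u, u1) (Finset.mem_product.2 ⟨hu, h01.2⟩)
  by_cases hx : (u0 p)⁻¹ * u p = 1
  · rw [hx, FreeGroup.toWord_one]
    exact List.nil_prefix
  have hpos : 0 < ((u0 p)⁻¹ * u p).norm := by
    rw [Nat.pos_iff_ne_zero, Ne, FreeGroup.norm_eq_zero]
    exact hx
  have hh : ahd ((u0 p)⁻¹ * u p) = ahd ((u0 p)⁻¹ * u1 p) := by
    by_contra hne
    have h1 := hd_diff hne
    have h2 : ((u0 p)⁻¹ * u p)⁻¹ * ((u0 p)⁻¹ * u1 p) = (u p)⁻¹ * u1 p := by group
    rw [h2] at h1
    omega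
  have hR0 := hR u0 h01.1
  have hT' := Rch_TOK hT hR0
  have hl' : 1 ≤ atl (ast u0 T) := by rw [Lv2_atl (Rch_lv hR0)]; exact hl
  rcases pre_comp hT' hl' (Rch_diff hR0 (hR u hu)) (Rch_diff hR0 (hR u1 h01.2)) (p := p) hh
    with h3 | h3
  · exact h3
  · have h3' : ((u0 p)⁻¹ * u1 p).toWord <+: ((u0 p)⁻¹ * u p).toWord := h3
    have h4 : ((u0 p)⁻¹ * u1 p).toWord = ((u0 p)⁻¹ * u p).toWord :=
      h3'.eq_of_length_le hx1
    rw [h4]

end Pool.Agent.Sims
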