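import Pool.Agent.Sims.TpF

/-!
# Module `TpG` : arcs with equal ports along a path of positions

* `norm_pair`: `norm_cj` for `g` and for `(lett z)⁻¹ * g * lett z` with `bar z`: `rr (bar z) (z⁻¹ g z) + rr z g = 2`.
* `rr_step`: two different directions `z1, z2` of the port `p` at `T` (`Dr`): all ends at `p` of nontrivial arcs have the first letter `z1` or `z2` (`dr_two` and the count `anz_sum`/ `anz_three_le`: for every other letter `w`
  `anz p w T = 0`), so an arc `g` with both ports `p` has `rr z1 g + rr z2 g = 2` (`rr_ahd`: both ends have a first letter, `g ≠ 1`).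
* `rr_path`: `u` reachable, `(u p).toWord = v ++ z' :: s`, `e ∈ T` with both ports `p`, `g = e.2.2`, `z` the first letter of `u p`: `rr z' ((mk v)⁻¹ g (mk v)) = rr z g`.  Induction on `v` (reversed):
  `v = v' ++ [t]`: `Rch_prefix`: `w` with `w p = mk v`; at `ast w T` the directions `z'` and `bar t` (`Rch_diff`, `dr_of_hd`), different since the word is reduced; `rr_step`:
  `rr z' G = 2 - rr (bar t) G = rr t (old G)` by `norm_pair`.
* `rr_norm`: sum up `norm_cj` along the word (`rr_path`): the norm changes by `2 - 2 rr z g` in each step.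
* `long_far`: triangle inequality `norm (x⁻¹ y) ≤ norm x + norm y` (`FreeGroup.norm_mul_le`, `norm_inv_eq`).
* `long_st`: `Rch_diff`, `Lv2_atl`.
* `long_rr`: by `long_far` there is a reachable `w` with `2 (w p).norm ≥ atl T + 1`.  If `ahd (w p) = some z`: `rr_norm`: the new norm is `|g| + (2 - 2 rr z g) |w p|`, and both norms are `≤ atl T`
  (`atl_mem`, `Rch_lv`), `|g| ≥ 1`, so `rr z g = 1` (`rr ≤ 2`: `ConjA_rr_le`).  Otherwise take `v` reachable with `v p = lett z` (`Rch_prefix`); at the base `ast v T` the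
  position `(v p)⁻¹ * w p` has the first letter `bar z` and norm `(w p).norm + 1`, so `rr (bar z) (z⁻¹ g z) = 1`; `norm_pair`.
* `long_nb`: otherwise all positions of `p` would be `1`.
Difficulty 2-3.
-/

namespace Pool.Agent.Sims

open FreeGroup (of)


theorem norm_pair (z : Fin 3 × Bool) {g : FreeGroup (Fin 3)} (hg : g ≠ 1) :
    rr (bar z) ((lett z)⁻¹ * g * lett z) + rr z g = 2 := by
  have h1 := norm_cj z hg
  have hg2 : (lett z)⁻¹ * g * lett z ≠ 1 := by
    intro h
    apply hg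
    have h2 : g = lett z * ((lett z)⁻¹ * g * lett z) * (lett z)⁻¹ := by group
    rw [h2, h]
    group
  have h3 := norm_cj (bar z) hg2
  have h4 : (lett (bar z))⁻¹ * ((lett z)⁻¹ * g * lett z) * lett (bar z) = g := by
    rw [lett_bar]
    group
  rw [h4] at h3
  omega

/-- sum of naturals over a list: a member is at most the sum -/
theorem TpG_mem_sum {α : Type*} (f : α → ℕ) {T : List α} {e : α} (he : e ∈ T) :
    f e ≤ (T.map f).sum :=
  List.single_le_sum (fun _ _ => Nat.zero_le _) _ (List.mem_map_of_mem he)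

/-- the first letters of the two ends -/
theorem TpG_ends {p : Bool} {z : Fin 3 × Bool} {T : List Arc} {e : Arc} (he : e ∈ T)
    (he1 : e.1 = p) (he2 : e.2.1 = p) : rr z e.2.2 ≤ anz p z T := by
  rw [rr_ahd]
  have h := TpG_mem_sum (fun e : Arc => (if e.1 = p ∧ ahd e.2.2 = some z then 1 else 0) +
    (if e.2.1 = p ∧ ahd (e.2.2)⁻¹ = some z then 1 else 0)) he
  simp only [he1, he2, true_and] at h
  exact h

theorem rr_step {h : ℕ} {T : List Arc} (hT : TOK h T) {p : Bool} {z1 z2 : Fin 3 × Bool}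
    (h10 : z1.1 ≠ 0) (h20 : z2.1 ≠ 0) (h12 : z1 ≠ z2) (h1 : Dr h p z1 T) (h2 : Dr h p z2 T)
    {e : Arc} (he : e ∈ T) (he1 : e.1 = p) (he2 : e.2.1 = p) :
    rr z1 e.2.2 + rr z2 e.2.2 = 2 := by
  have hd := dr_two hT h10 h20 h12 h1 h2
  have hg : e.2.2 ≠ 1 := hT.ntr e he (he1.trans he2.symm)
  have hs := rr_sum hg
  have hz : ∀ w : Fin 3 × Bool, w ≠ z1 → w ≠ z2 → rr w e.2.2 = 0 := by
    intro w hw1 hw2
    have h3 := anz_three_le hT p h12 hw1.symm hw2.symm
    have h4 := TpG_ends (z := w) he he1 he2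
    omega
  have h5 : ∑ z : Fin 3 × Bool, rr z e.2.2 = ∑ z ∈ {z1, z2}, rr z e.2.2 := by
    symm
    apply Finset.sum_subset (Finset.subset_univ _)
    intro w _ hw
    simp only [Finset.mem_insert, Finset.mem_singleton, not_or] at hw
    exact hz w hw.1 hw.2
  rw [h5, Finset.sum_pair h12] at hs
  exact hs

/-- word of a suffix -/
theorem TpG_word {x : FreeGroup (Fin 3)} {v s : List (Fin 3 × Bool)} (hw : x.toWord = v ++ s) :
    ((FreeGroup.mk v)⁻¹ * x).toWord = s ∧ (FreeGroup.mk v).toWord = v := by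
  have hr : FreeGroup.IsReduced (v ++ s) := by
    rw [← hw]
    exact FreeGroup.isReduced_toWord
  have h1 : x = FreeGroup.mk v * FreeGroup.mk s := by
    rw [FreeGroup.mul_mk, ← hw, FreeGroup.mk_toWord]
  constructor
  · rw [h1]
    rw [inv_mul_cancel_left, FreeGroup.toWord_mk]
    exact FreeGroup.IsReduced.reduce_eq (red_mid hr ⟨v, [], by simp⟩)
  · rw [FreeGroup.toWord_mk]
    exact FreeGroup.IsReduced.reduce_eq (red_mid hr ⟨[], s, by simp⟩)

theorem TpG_mem {u : PS} {T : List Arc} {e : Arc} (he : e ∈ T) :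
    (e.1, e.2.1, alab u e) ∈ ast u T := List.mem_map.2 ⟨e, he, rfl⟩

theorem TpG_ne {T : List Arc} {u : PS} (hu : Rch T u) {p : Bool} {z : Fin 3 × Bool}
    (hz : ahd (u p) = some z) : z.1 ≠ 0 := ahd_in12 ((Rch_lv hu).1 p) hz

theorem TpG_snoc (v : List (Fin 3 × Bool)) (t : Fin 3 × Bool) :
    (FreeGroup.mk (v ++ [t]) : FreeGroup (Fin 3)) = FreeGroup.mk v * lett t := by
  rw [lett, FreeGroup.mul_mk]

theorem TpG_path {h : ℕ} {T : List Arc} (hT : TOK h T) {u : PS}
    (hu : Rch T u) {p : Bool} {e : Arc} (he : e ∈ T) (he1 : e.1 = p) (he2 : e.2.1 = p)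
    {z : Fin 3 × Bool} (hz : ahd (u p) = some z) : ∀ (v : List (Fin 3 × Bool))
    (z' : Fin 3 × Bool) (s : List (Fin 3 × Bool)), (u p).toWord = v ++ z' :: s →
    rr z' ((FreeGroup.mk v)⁻¹ * e.2.2 * FreeGroup.mk v) = rr z e.2.2 := by
  intro v
  induction v using List.reverseRecOn with
  | nil =>
    intro z' s hw
    have h1 : z' = z := by
      have h2 : (u p).toWord.head? = some z := hz
      rw [hw] at h2
      simpa using h2
    rw [h1, ← FreeGroup.one_eq_mk, inv_one, one_mul, mul_one]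
  | append_singleton v t ih =>
    intro z' s hw
    have hg : e.2.2 ≠ 1 := hT.ntr e he (he1.trans he2.symm)
    have hw2 : (u p).toWord = v ++ t :: (z' :: s) := by rw [hw]; simp
    have h1 := ih t (z' :: s) hw2
    obtain ⟨w, hw3, hw4⟩ := Rch_prefix hu p (v := v ++ [t]) ⟨z' :: s, by rw [hw]⟩
    have hT' := Rch_TOK hT hw3
    have hne : z' ≠ bar t := by
      have h3 : FreeGroup.IsReduced (v ++ t :: z' :: s) := by
        rw [← hw2]
        exact FreeGroup.isReduced_toWord
      exact ConjB_ne h3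
    have hword := TpG_word (x := u p) (v := v ++ [t]) (s := z' :: s) (by rw [hw])
    have hA : ahd ((w⁻¹ * u) p) = some z' := by
      change ((w p)⁻¹ * u p).toWord.head? = some z'
      rw [hw4, hword.1]
      rfl
    have hB : ahd ((w⁻¹) p) = some (bar t) := by
      change ((w p)⁻¹).toWord.head? = some (bar t)
      rw [hw4, ConjA_head, hword.2, bar_bar]
      simp
    have hRA := Rch_diff hw3 hu
    have hRB := Rch_inv hw3
    have hDA := dr_of_hd hT' hRA hA
    have hDB := dr_of_hd hT' hRB hB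
    have h5 := rr_step hT' (TpG_ne hRA hA) (TpG_ne hRB hB) hne hDA hDB
      (e := (e.1, e.2.1, alab w e)) (TpG_mem he) he1 he2
    have h6 : alab w e = (FreeGroup.mk (v ++ [t]))⁻¹ * e.2.2 * FreeGroup.mk (v ++ [t]) := by
      unfold alab
      rw [he1, he2, hw4]
    have h7 : (FreeGroup.mk (v ++ [t]))⁻¹ * e.2.2 * FreeGroup.mk (v ++ [t]) =
        (lett t)⁻¹ * ((FreeGroup.mk v)⁻¹ * e.2.2 * FreeGroup.mk v) * lett t := by
      rw [TpG_snoc]
      group
    have hg2 : (FreeGroup.mk v)⁻¹ * e.2.2 * FreeGroup.mk v ≠ 1 := by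
      intro h8
      apply hg
      have h9 : e.2.2 = FreeGroup.mk v * ((FreeGroup.mk v)⁻¹ * e.2.2 * FreeGroup.mk v) *
        (FreeGroup.mk v)⁻¹ := by group
      rw [h9, h8]
      group
    have h8 := norm_pair t hg2
    rw [← h7] at h8
    simp only [h6] at h5
    omega

theorem rr_path {h : ℕ} {T : List Arc} (hT : TOK h T) {u : PS}
    (hu : Rch T u) {p : Bool} {e : Arc} (he : e ∈ T) (he1 : e.1 = p) (he2 : e.2.1 = p)
    {z z' : Fin 3 × Bool} {v s : List (Fin 3 × Bool)} (hz : ahd (u p) = some z)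
    (hw : (u p).toWord = v ++ z' :: s) :
    rr z' ((FreeGroup.mk v)⁻¹ * e.2.2 * FreeGroup.mk v) = rr z e.2.2 :=
  TpG_path hT hu he he1 he2 hz v z' s hw

theorem TpG_norm {h : ℕ} {T : List Arc} (hT : TOK h T) {u : PS}
    (hu : Rch T u) {p : Bool} {e : Arc} (he : e ∈ T) (he1 : e.1 = p) (he2 : e.2.1 = p)
    {z : Fin 3 × Bool} (hz : ahd (u p) = some z) : ∀ (v s : List (Fin 3 × Bool)),
    (u p).toWord = v ++ s →
    ((FreeGroup.mk v)⁻¹ * e.2.2 * FreeGroup.mk v).norm + 2 * rr z e.2.2 * v.length =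
      e.2.2.norm + 2 * v.length := by
  intro v
  induction v using List.reverseRecOn with
  | nil =>
    intro s _
    rw [← FreeGroup.one_eq_mk, inv_one, one_mul, mul_one]
    simp
  | append_singleton v t ih =>
    intro s hw
    have hg : e.2.2 ≠ 1 := hT.ntr e he (he1.trans he2.symm)
    have hw2 : (u p).toWord = v ++ t :: s := by rw [hw]; simp
    have h1 := ih (t :: s) hw2
    have h2 := rr_path hT hu he he1 he2 hz hw2
    have h7 : (FreeGroup.mk (v ++ [t]))⁻¹ * e.2.2 * FreeGroup.mk (v ++ [t]) =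
        (lett t)⁻¹ * ((FreeGroup.mk v)⁻¹ * e.2.2 * FreeGroup.mk v) * lett t := by
      rw [TpG_snoc]
      group
    have hg2 : (FreeGroup.mk v)⁻¹ * e.2.2 * FreeGroup.mk v ≠ 1 := by
      intro h8
      apply hg
      have h9 : e.2.2 = FreeGroup.mk v * ((FreeGroup.mk v)⁻¹ * e.2.2 * FreeGroup.mk v) *
        (FreeGroup.mk v)⁻¹ := by group
      rw [h9, h8]
      group
    have h8 := norm_cj t hg2
    rw [h2] at h8
    rw [h7, List.length_append, List.length_singleton]
    have h9 : 2 * rr z e.2.2 * (v.length + 1) = 2 * rr z e.2.2 * v.length + 2 * rr z e.2.2 := by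
      ring
    omega

theorem rr_norm {h : ℕ} {T : List Arc} (hT : TOK h T) {u : PS}
    (hu : Rch T u) {p : Bool} {e : Arc} (he : e ∈ T) (he1 : e.1 = p) (he2 : e.2.1 = p)
    {z : Fin 3 × Bool} (hz : ahd (u p) = some z) :
    ((u p)⁻¹ * e.2.2 * u p).norm + 2 * rr z e.2.2 * (u p).norm =
      e.2.2.norm + 2 * (u p).norm := by
  have h1 := TpG_norm hT hu he he1 he2 hz (u p).toWord [] (by simp)
  rw [FreeGroup.mk_toWord] at h1
  exact h1

theorem long_far {T : List Arc} {p : Bool} (h : Long p T) :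
    ∃ w, Rch T w ∧ atl T + 1 ≤ 2 * (w p).norm := by
  obtain ⟨u, v, hu, hv, h1⟩ := h
  have h2 : ((u p)⁻¹ * v p).norm ≤ (u p).norm + (v p).norm := by
    have h3 := FreeGroup.norm_mul_le (u p)⁻¹ (v p)
    rw [FreeGroup.norm_inv_eq] at h3
    exact h3
  by_cases h4 : atl T + 1 ≤ 2 * (u p).norm
  · exact ⟨u, hu, h4⟩
  · exact ⟨v, hv, by omega⟩

theorem long_st {T : List Arc} {p : Bool} (h : Long p T) {u : PS} (hu : Rch T u) :
    Long p (ast u T) := by
  obtain ⟨u1, v1, hu1, hv1, h1⟩ := h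
  refine ⟨u⁻¹ * u1, u⁻¹ * v1, Rch_diff hu hu1, Rch_diff hu hv1, ?_⟩
  have h2 : ((u⁻¹ * u1) p)⁻¹ * (u⁻¹ * v1) p = (u1 p)⁻¹ * v1 p := by
    simp only [Pi.mul_apply, Pi.inv_apply]
    group
  rw [h2, Lv2_atl (Rch_lv hu)]
  exact h1

theorem TpG_one {h : ℕ} {T : List Arc} (hT : TOK h T) {p : Bool} {u : PS}
    (hu : Rch T u) (hl : atl T + 1 ≤ 2 * (u p).norm) {z : Fin 3 × Bool}
    (hz : ahd (u p) = some z) {e : Arc} (he : e ∈ T)
    (he1 : e.1 = p) (he2 : e.2.1 = p) : rr z e.2.2 = 1 := by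
  have hg : e.2.2 ≠ 1 := hT.ntr e he (he1.trans he2.symm)
  have h1 := rr_norm hT hu he he1 he2 hz
  have h2 := atl_mem he
  have h3 := atl_mem (TpG_mem (u := u) he)
  rw [Lv2_atl (Rch_lv hu)] at h3
  simp only [alab, he1, he2] at h3
  have h4 : 1 ≤ e.2.2.norm := by
    rcases Nat.eq_zero_or_pos e.2.2.norm with h5 | h5
    · exact absurd (FreeGroup.norm_eq_zero.1 h5) hg
    · exact h5
  have h6 := ConjA_rr_le z e.2.2
  generalize rr z e.2.2 = r at h1 h6 ⊢
  interval_cases r
  · omega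
  · rfl
  · omega

theorem TpG_some {x : FreeGroup (Fin 3)} (hx : 1 ≤ x.norm) : ∃ z, ahd x = some z := by
  rcases h : ahd x with _ | z
  · rw [ahd_eq_none.1 h, FreeGroup.norm_one] at hx
    omega
  · exact ⟨z, rfl⟩

theorem long_rr {h : ℕ} {T : List Arc} (hT : TOK h T) {p : Bool} (hL : Long p T) {u : PS}
    (hu : Rch T u) {z : Fin 3 × Bool} (hz : ahd (u p) = some z) {e : Arc} (he : e ∈ T)
    (he1 : e.1 = p) (he2 : e.2.1 = p) : rr z e.2.2 = 1 := by
  obtain ⟨w, hw, hw1⟩ := long_far hL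
  by_cases hc : ahd (w p) = some z
  · exact TpG_one hT hw hw1 hc he he1 he2
  · have hpre : [z] <+: (u p).toWord := by
      have h1 : (u p).toWord.head? = some z := hz
      rcases h2 : (u p).toWord with _ | ⟨y, l⟩
      · rw [h2] at h1
        simp at h1
      · rw [h2] at h1
        have h3 : y = z := by simpa using h1
        exact ⟨l, by rw [h3]; rfl⟩
    obtain ⟨v, hv, hv1⟩ := Rch_prefix hu p hpre
    have hT' := Rch_TOK hT hv
    have hR := Rch_diff hv hw
    have hval : (v⁻¹ * w) p = lett (bar z) * w p := by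
      rw [lett_bar]
      change (v p)⁻¹ * w p = (lett z)⁻¹ * w p
      rw [hv1]
      rfl
    have hword : ((v⁻¹ * w) p).toWord = bar z :: (w p).toWord := by
      rw [hval]
      exact ConjA_left_neg (by rw [bar_bar]; exact hc)
    have hA : ahd ((v⁻¹ * w) p) = some (bar z) := by
      change ((v⁻¹ * w) p).toWord.head? = some (bar z)
      rw [hword]
      rfl
    have hn : ((v⁻¹ * w) p).norm = (w p).norm + 1 := by
      change ((v⁻¹ * w) p).toWord.length = (w p).toWord.length + 1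
      rw [hword]
      rfl
    have h5 := TpG_one hT' hR (by rw [hn, Lv2_atl (Rch_lv hv)]; omega) hA
      (e := (e.1, e.2.1, alab v e)) (TpG_mem he) he1 he2
    have h6 : alab v e = (lett z)⁻¹ * e.2.2 * lett z := by
      unfold alab
      rw [he1, he2, hv1]
      rfl
    simp only [h6] at h5
    have hg : e.2.2 ≠ 1 := hT.ntr e he (he1.trans he2.symm)
    have h7 := norm_pair z hg
    omega

theorem long_nb {T : List Arc} {p : Bool} (hL : Long p T) :
    ∃ u z, Rch T u ∧ ahd (u p) = some z := by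
  obtain ⟨w, hw, hw1⟩ := long_far hL
  obtain ⟨z, hz⟩ := TpG_some (x := w p) (by omega)
  exact ⟨w, z, hw, hz⟩

end Pool.Agent.Sims
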