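import Pool.Agent.Sims.TpG

/-!
# Module `TpH` : two mixed arcs, both ports long

Let `mixL p T = [g1, g2]` (exactly two mixed arcs, labels read from `p` to `!p`), `Long p T`, `Long (!p) T`.
* `two_h`: `ank T = 2` (`mixL_length`), `ank_add`: `1 ≤ h` and the number of arcs with both ports `p` is `h - 1`.
* `nz_two`: if `rr z = 1` for all arcs with both ports `p` then `anz p z T = (h - 1) + [ahd g1 = z] + [ahd g2 = z]`: the arcs with both ports `p` contribute `rr z` each (`rr_ahd`), the mixed ones
  their `p`-end letter, which is `ahd` of the label read from `p`; the arcs with both ports `!p` nothing.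
* `nz_two'`: the same for the port `!p`: the `!p`-end letters of the mixed arcs are `ahd g1⁻¹`, `ahd g2⁻¹` (`mixL_not`, `nz_two` for `!p`).
* `nq_two`: `anq_mixL`.
* `comp_rr`: let `z = ahd (u p)`, so `Dr h p z T` (`dr_of_hd`), and `rr z = 1` for the arcs with both ports `p` (`long_rr`); `w` a direction of `!p`: `long_nb`, `Dr h (!p) w T`, `rr w = 1` for the
  arcs with both ports `!p`.  Put `U = g1 g2⁻¹`.  Note: if `g1, g2 ≠ 1` and `ahd g1⁻¹ ≠ ahd g2⁻¹` then `U` is reduced as written, `ahd U = ahd g1`, `ahd U⁻¹ = ahd g2`.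
  (a) `anz p z T = h`: by `nz_two` exactly one of `ahd g1, ahd g2` is `z`.  By symmetry (`U⁻¹ = g2 g1⁻¹`, `rr z U⁻¹ = rr z U`) let it be `g1`.
      (a1) `anz (!p) w T = h`: exactly one of `ahd g1⁻¹, ahd g2⁻¹` is `w`.  If `g2 ≠ 1`: they are different (one is `w`, the other is not), so `ahd U = z`, `ahd U⁻¹ = ahd g2 ≠ z`: `rr z U = 1`.
           If `g2 = 1`: `U = g1`, `anq T = 1` (`nq_two`), `ahd g1⁻¹ = w`; `w ≠ z` since otherwise `anz p z T + anz (!p) z T + anq T = 2h + 1` (`anz_bo_le`).  So `rr z U = 1`.
      (a2) otherwise `anz p w T + anz (!p) w T + anq T = 2h`, `anz (!p) w T ≤ h - 1`; `g1 ≠ 1`.  If `anq T = 0` then `anz p w T > h`, contradiction (`anz_le`).  So `g2 = 1`, `anq T = 1`.  If `w ≠ z`: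
           `anz p w T ≤ h - 1` (`anz_two_le`), the sum is `≤ 2h - 1`, contradiction.  So `w = z`, `anz (!p) z T = 2h - 1 - h = h - 1`, by `nz_two'` `ahd g1⁻¹ ≠ z`.  `U = g1`, `rr z U = 1`.
  (b) `anz p z T ≠ h`, so `anz p z T + anz (!p) z T + anq T = 2h` with `anz p z T ≤ h - 1`, so `anq T ≥ 1`; and `g1 ≠ g2` so `anq T = 1`; let `g1 = 1` (symmetry), `U = g2⁻¹`.
      We need `rr z = 1` also for the arcs with both ports `!p`: the state `bo (lett z)` is level (`lv_bo`), reachable, and `ahd (bo (lett z) (!p)) = some z`: `long_rr` for `!p`.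
      By `nz_two`, `nz_two'`: `2(h-1) + [ahd g2 = z] + [ahd g2⁻¹ = z] + 1 = 2h`, so `rr z g2 = 1`, `rr z U = rr z g2 = 1`.
* `degen`: `Rch_ind` with `P u := u p = u (!p)`.  A one port move is impossible: at the base `ast u T` (`mixL_st`: two equal labels `g`, `Long` by `long_st`) the level move of `q` by `z` gives `anz q z = h` (`lv_ps`), but
  `nz_two`/`nz_two'` (with `long_rr` for the reachable state `ps q (lett z)`) gives `h - 1` or `h + 1`.
Difficulty 3.
-/

namespace Pool.Agent.Sims

open FreeGroup (of)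

theorem two_h {h : ℕ} {T : List Arc} (hT : TOK h T) {p : Bool} {g1 g2 : FreeGroup (Fin 3)}
    (hm : mixL p T = [g1, g2]) : 1 ≤ h ∧
      T.countP (fun e => decide (e.1 = p ∧ e.2.1 = p)) = h - 1 := by
  have h1 := mixL_length p T
  rw [hm] at h1
  have h2 := ank_add hT p
  have h3 : ank T = 2 := h1.symm
  omega

theorem TpH_sum (p : Bool) (z : Fin 3 × Bool) : ∀ {T : List Arc},
    (∀ e ∈ T, e.1 = p → e.2.1 = p → rr z e.2.2 = 1) →
    anz p z T = T.countP (fun e => decide (e.1 = p ∧ e.2.1 = p)) +
      ((mixL p T).map (fun g => if ahd g = some z then 1 else 0)).sum := by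
  intro T
  induction T with
  | nil => intro _; rfl
  | cons e T ih =>
    intro hT
    have ih' := ih (fun e' he' => hT e' (List.mem_cons_of_mem _ he'))
    have he := hT e List.mem_cons_self
    have h1 : anz p z (e :: T) = ((if e.1 = p ∧ ahd e.2.2 = some z then 1 else 0) +
      (if e.2.1 = p ∧ ahd (e.2.2)⁻¹ = some z then 1 else 0)) + anz p z T := rfl
    rw [h1, ih', List.countP_cons]
    rcases e with ⟨a, b, g⟩
    simp only at he
    by_cases ha : a = p
    · by_cases hb : b = p
      · subst ha
        subst hb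
        have h2 := he rfl rfl
        rw [rr_ahd] at h2
        have h3 : mixL b ((b, b, g) :: T) = mixL b T := by simp [mixL]
        rw [h3]
        simp only [true_and, and_self, decide_true, if_true]
        omega
      · subst ha
        have hab : a ≠ b := fun h => hb h.symm
        have h3 : mixL a ((a, b, g) :: T) = g :: mixL a T := by simp [mixL, hab]
        rw [h3]
        simp only [true_and, hb, false_and, and_false, decide_false, List.map_cons, List.sum_cons,
          if_false, Bool.false_eq_true]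
        omega
    · by_cases hb : b = p
      · subst hb
        have h3 : mixL b ((a, b, g) :: T) = g⁻¹ :: mixL b T := by simp [mixL, ha]
        rw [h3]
        simp only [true_and, ha, false_and, decide_false, List.map_cons, List.sum_cons,
          if_false, Bool.false_eq_true]
        omega
      · have hab : a = b := by
          cases a <;> cases b <;> cases p <;> simp_all
        subst hab
        have h3 : mixL p ((a, a, g) :: T) = mixL p T := by simp [mixL]
        rw [h3]
        simp only [ha, false_and, decide_false, if_false, Bool.false_eq_true]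
        omega

theorem nz_two {h : ℕ} {T : List Arc} (hT : TOK h T) {p : Bool} {g1 g2 : FreeGroup (Fin 3)}
    (hm : mixL p T = [g1, g2]) {z : Fin 3 × Bool}
    (hz : ∀ e ∈ T, e.1 = p → e.2.1 = p → rr z e.2.2 = 1) :
    anz p z T + 1 = h + (if ahd g1 = some z then 1 else 0) + (if ahd g2 = some z then 1 else 0) := by
  have h1 := TpH_sum p z hz
  have h2 := two_h hT hm
  rw [h2.2, hm] at h1
  simp only [List.map_cons, List.map_nil, List.sum_cons, List.sum_nil] at h1
  omega

theorem nz_two' {h : ℕ} {T : List Arc} (hT : TOK h T) {p : Bool} {g1 g2 : FreeGroup (Fin 3)}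
    (hm : mixL p T = [g1, g2]) {z : Fin 3 × Bool}
    (hz : ∀ e ∈ T, e.1 = !p → e.2.1 = !p → rr z e.2.2 = 1) :
    anz (!p) z T + 1 = h + (if ahd g1⁻¹ = some z then 1 else 0) +
      (if ahd g2⁻¹ = some z then 1 else 0) := by
  have hm' : mixL (!p) T = [g1⁻¹, g2⁻¹] := by
    rw [mixL_not, hm]; rfl
  exact nz_two hT hm' hz

theorem nq_two {h : ℕ} {T : List Arc} (hT : TOK h T) {p : Bool} {g1 g2 : FreeGroup (Fin 3)}
    (hm : mixL p T = [g1, g2]) :
    anq T = (if g1 = 1 then 1 else 0) + (if g2 = 1 then 1 else 0) := by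
  rw [anq_mixL hT p, hm]
  simp only [List.map_cons, List.map_nil, List.sum_cons, List.sum_nil, add_zero]

theorem TpH_word {x y : FreeGroup (Fin 3)} (h : ahd x⁻¹ ≠ ahd y) :
    (x * y).toWord = x.toWord ++ y.toWord := by
  have h1 := hd_diff h
  rw [inv_inv, FreeGroup.norm_inv_eq] at h1
  apply (FreeGroup.toWord_mul_sublist x y).eq_of_length
  rw [List.length_append]
  exact h1

theorem TpH_hd {x y : FreeGroup (Fin 3)} (h : ahd x⁻¹ ≠ ahd y) (hx : x ≠ 1) :
    ahd (x * y) = ahd x := by
  unfold ahd
  rw [TpH_word h, List.head?_append_of_ne_nil]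
  intro hc
  exact hx (FreeGroup.toWord_eq_nil_iff.1 hc)

/-- the case (a) of `comp_rr` -/
theorem TpH_a {h : ℕ} {T : List Arc} (hT : TOK h T) {p : Bool} {g1 g2 : FreeGroup (Fin 3)}
    {z w : Fin 3 × Bool} (hz0 : z.1 ≠ 0)
    (hN : anz p z T + 1 =
      h + (if ahd g1 = some z then 1 else 0) + (if ahd g2 = some z then 1 else 0))
    (hM : anz (!p) w T + 1 =
      h + (if ahd g1⁻¹ = some w then 1 else 0) + (if ahd g2⁻¹ = some w then 1 else 0))
    (hQ : anq T = (if g1 = 1 then 1 else 0) + (if g2 = 1 then 1 else 0))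
    (hw0 : w.1 ≠ 0) (h1 : ahd g1 = some z) (h2 : ahd g2 ≠ some z)
    (hd : Dr h (!p) w T) : rr z (g1 * g2⁻¹) = 1 := by
  have hg1 : g1 ≠ 1 := by
    rintro rfl
    rw [ahd_one] at h1
    cases h1
  rw [if_pos h1, if_neg h2] at hN
  rw [if_neg hg1] at hQ
  have hbz := anz_bo_le hT hz0
  have hcomm : ∀ x : Fin 3 × Bool, anz true x T + anz false x T = anz p x T + anz (!p) x T := by
    intro x
    cases p
    · exact Nat.add_comm _ _
    · rfl
  rw [hcomm] at hbz
  by_cases hg2 : g2 = 1
  · subst hg2
    rw [inv_one, mul_one, rr_ahd, if_pos h1]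
    rw [if_pos rfl] at hQ
    rw [inv_one, ahd_one, if_neg (by simp : ¬ (none = some w))] at hM
    rcases hd with h3 | h3
    · -- (a1)
      have h4 : ahd g1⁻¹ = some w := by
        by_contra hc
        rw [if_neg hc] at hM
        omega
      have h5 : w ≠ z := by
        rintro rfl
        omega
      rw [if_neg]
      rw [h4]
      intro hc
      exact h5 (Option.some.inj hc)
    · -- (a2)
      rw [hcomm] at h3
      by_cases h6 : anz (!p) w T = h
      · have h4 : ahd g1⁻¹ = some w := by
          by_contra hc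
          rw [if_neg hc] at hM
          omega
        have h5 : w ≠ z := by
          rintro rfl
          omega
        rw [if_neg]
        rw [h4]
        intro hc
        exact h5 (Option.some.inj hc)
      · have h7 := anz_le hT (!p) hw0
        by_cases hwz : w = z
        · subst hwz
          have h8 : ¬ ahd g1⁻¹ = some w := by
            intro hc
            rw [if_pos hc] at hM
            omega
          rw [if_neg h8]
        · have h8 := anz_two_le hT p (fun h => hwz h.symm : z ≠ w)
          omega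
  · rw [if_neg hg2] at hQ
    have h3 : anz (!p) w T = h := by
      rcases hd with h3 | h3
      · exact h3
      · rw [hcomm] at h3
        have h4 := anz_le hT p hw0
        have h5 := anz_le hT (!p) hw0
        omega
    have h6 : ahd g1⁻¹ ≠ ahd g2⁻¹ := by
      intro hc
      rw [hc] at hM
      split_ifs at hM <;> omega
    have e1 : ahd (g1 * g2⁻¹) = ahd g1 := TpH_hd h6 hg1
    have e2 : ahd (g1 * g2⁻¹)⁻¹ = ahd g2 := by
      rw [mul_inv_rev, inv_inv]
      exact TpH_hd h6.symm hg2
    rw [rr_ahd, e1, e2, if_pos h1, if_neg h2]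

theorem comp_rr {h : ℕ} {T : List Arc} (hT : TOK h T) {p : Bool} {g1 g2 : FreeGroup (Fin 3)}
    (hm : mixL p T = [g1, g2]) (hne : g1 ≠ g2) (hL : Long p T) (hL' : Long (!p) T) {u : PS}
    (hu : Rch T u) {z : Fin 3 × Bool} (hz : ahd (u p) = some z) :
    rr z (g1 * g2⁻¹) = 1 := by
  have hz0 : z.1 ≠ 0 := ahd_in12 ((Rch_lv hu).1 p) hz
  have hd := dr_of_hd hT hu hz
  have hN := nz_two hT hm (fun e he h1 h2 => long_rr hT hL hu hz he h1 h2)
  obtain ⟨u', w, hu', hw⟩ := long_nb hL'
  have hw0 : w.1 ≠ 0 := ahd_in12 ((Rch_lv hu').1 (!p)) hw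
  have hd' := dr_of_hd hT hu' hw
  have hM := nz_two' hT hm (fun e he h1 h2 => long_rr hT hL' hu' hw he h1 h2)
  have hQ := nq_two hT hm
  have hcomm : ∀ x : Fin 3 × Bool, anz true x T + anz false x T = anz p x T + anz (!p) x T := by
    intro x
    cases p
    · exact Nat.add_comm _ _
    · rfl
  by_cases ha : anz p z T = h
  · by_cases h1 : ahd g1 = some z
    · have h2 : ahd g2 ≠ some z := by
        intro hc
        rw [if_pos h1, if_pos hc] at hN
        omega
      exact TpH_a hT hz0 hN hM hQ hw0 h1 h2 hd'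
    · have h2 : ahd g2 = some z := by
        by_contra hc
        rw [if_neg h1, if_neg hc] at hN
        omega
      have h3 : g1 * g2⁻¹ = (g2 * g1⁻¹)⁻¹ := by group
      rw [h3, ConjC_rr_inv]
      refine TpH_a (p := p) (w := w) hT hz0 ?_ ?_ ?_ hw0 h2 h1 hd'
      · omega
      · omega
      · omega
  · have hj : anz true z T + anz false z T + anq T = 2 * h := by
      rcases hd with h1 | h1
      · exact absurd h1 ha
      · exact h1
    have hlv := (lv_bo hT hz0).2 hj
    have hrch : Rch T (bo (lett z)) := by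
      have := Rch_bo (Rch_one T) hz0 (by rw [one_mul]; exact hlv)
      rwa [one_mul] at this
    have hhd : ahd ((bo (lett z)) (!p)) = some z := by
      change ahd (lett z) = some z
      unfold ahd lett
      rw [FreeGroup.toWord_mk]
      rfl
    have hM' := nz_two' hT hm (fun e he h1 h2 => long_rr hT hL' hrch hhd he h1 h2)
    rw [hcomm] at hj
    have h3 := anz_le hT p hz0
    have h4 := anz_le hT (!p) hz0
    by_cases hg1 : g1 = 1
    · subst hg1
      have hg2 : g2 ≠ 1 := fun h => hne h.symm
      rw [if_pos rfl, if_neg hg2] at hQ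
      rw [ahd_one, if_neg (by simp : ¬ (none = some z))] at hN
      rw [inv_one, ahd_one, if_neg (by simp : ¬ (none = some z))] at hM'
      rw [one_mul, ConjC_rr_inv, rr_ahd]
      omega
    · by_cases hg2 : g2 = 1
      · subst hg2
        rw [if_pos rfl, if_neg hg1] at hQ
        rw [ahd_one, if_neg (by simp : ¬ (none = some z))] at hN
        rw [inv_one, ahd_one, if_neg (by simp : ¬ (none = some z))] at hM'
        rw [inv_one, mul_one, rr_ahd]
        omega
      · rw [if_neg hg1, if_neg hg2] at hQ
        omega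

theorem degen {h : ℕ} {T : List Arc} (hT : TOK h T) {p : Bool} {g : FreeGroup (Fin 3)}
    (hm : mixL p T = [g, g]) (hL : Long p T) (hL' : Long (!p) T) {u : PS} (hu : Rch T u) :
    u p = u (!p) := by
  refine Rch_ind (P := fun u => u p = u (!p)) rfl ?_ ?_ hu
  · intro u q z hu _ hz hlv
    exfalso
    have hT' := Rch_TOK hT hu
    have hm' : mixL p (ast u T) = [(u p)⁻¹ * g * u (!p), (u p)⁻¹ * g * u (!p)] := by
      rw [mixL_st, hm]; rfl
    have hlv' : Lv2 (ast u T) (ps q (lett z)) := (Lv2_st (Rch_lv hu)).2 hlv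
    have hrch : Rch (ast u T) (ps q (lett z)) := by
      have := Rch_ps (Rch_one (ast u T)) (p := q) hz (by rw [one_mul]; exact hlv')
      rwa [one_mul] at this
    have hhd : ahd ((ps q (lett z)) q) = some z := by
      rw [ps_self]
      unfold ahd lett
      rw [FreeGroup.toWord_mk]
      rfl
    have hh := (lv_ps hT' q hz).1 hlv'
    rcases (by cases p <;> cases q <;> simp : q = p ∨ q = !p) with hq | hq
    · subst hq
      have h1 := nz_two hT' hm'
        (fun e he h1 h2 => long_rr hT' (long_st hL hu) hrch hhd he h1 h2)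
      split_ifs at h1 <;> omega
    · subst hq
      have h1 := nz_two' hT' hm'
        (fun e he h1 h2 => long_rr hT' (long_st hL' hu) hrch hhd he h1 h2)
      split_ifs at h1 <;> omega
  · intro u z hu hP hz hlv
    change u p * lett z = u (!p) * lett z
    rw [hP]

end Pool.Agent.Sims
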