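import Pool.Agent.Sims.TpH
import Pool.Agent.Sims.TpP

/-!
# Module `TpI` : two mixed arcs: commuting elements and the reduction

(`Rot`, `rot_W`, `rot_comm`, `per_comm`, `per_shift` are in `TpP`.)
* `rot_arc`: `rr_path` with `v = (u p).toWord.take r`, and `long_rr`.
* `rot_comp`: for `r`: `Rch_prefix`: `w` with `w p = mk ((u p).toWord.take r)`; at the base `ast w T` (`Rch_TOK`, `long_st`, `mixL_st`) the labels are `g_i' = (w p)⁻¹ g_i (w !p)`, different, and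
  `g1' g2'⁻¹ = (w p)⁻¹ (g1 g2⁻¹) (w p) = ConjC_g ..`; `comp_rr` for the state `w⁻¹ * u` (`Rch_diff`), whose position of `p` is `mk` of the dropped word, with first letter number `r`.
* `two_comm`: `Long p T`: `u, v` with `((u p)⁻¹ * v p).norm ≥ atl T + 1`.  At the base `ast u T` the state `u⁻¹ * v` is reachable, `x = (u p)⁻¹ * v p`; `rot_arc`, `rot_comp`, `rot_comm` for
  `G = (u p)⁻¹ g (u p)` and `U = (u p)⁻¹ (g1 g2⁻¹) (u p) = g1' g2'⁻¹`, `|G| + |U| ≤ |G| + |g1'| + |g2'| ≤ atl T` (`atl_mem3`, `FreeGroup.norm_mul_le`, `Lv2_atl`).  Conjugate back.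
* `two_comm'`: `two_comm` for `!p` (`mixL_not`): `g1⁻¹ * g2` commutes, take the inverse.
* `two_red`: `s = g1 g2⁻¹`, `t = g2⁻¹ g1`; `rot_comp` for `u`, `rot_W`: `W` with `mk W = s` or `s⁻¹`; `s' = mk W`, `t'` accordingly `t` or `t⁻¹`; `v p = s'⁻¹ * u p`, `v (!p) = t'⁻¹ * u (!p)`.
  `alab_eq` (`u p = s' * v p` ...): `ast u T = ast v T`.  `per_shift`: `v p = mk ((u p).toWord.take (|u p| - |W|))` (`|W| = |s| ≤ |g1| + |g2| ≤ atl T < |u p|`, `atl_mem2`), a prefix.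
  `Lv2 T v` (`In12` of all factors: labels `in12`, `Rch_lv`).  `Rch_prefix` gives `w` reachable with `w p = v p`; `Rch_same`.
Difficulty 3.
-/

namespace Pool.Agent.Sims

open FreeGroup (of)

theorem TpI_red (x : FreeGroup (Fin 3)) : FreeGroup.IsReduced x.toWord :=
  FreeGroup.isReduced_toWord

theorem TpI_toWord {v : List (Fin 3 × Bool)} (hv : FreeGroup.IsReduced v) :
    (FreeGroup.mk v).toWord = v := by
  rw [FreeGroup.toWord_mk]
  exact hv.reduce_eq

theorem TpI_take {v : List (Fin 3 × Bool)} (hv : FreeGroup.IsReduced v) (n : ℕ) :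
    FreeGroup.IsReduced (v.take n) := by
  exact List.IsChain.take hv n

theorem TpI_drop {v : List (Fin 3 × Bool)} (hv : FreeGroup.IsReduced v) (n : ℕ) :
    FreeGroup.IsReduced (v.drop n) := by
  exact List.IsChain.drop hv n

theorem TpI_mk_drop (x : FreeGroup (Fin 3)) (r : ℕ) :
    (FreeGroup.mk (x.toWord.take r))⁻¹ * x = FreeGroup.mk (x.toWord.drop r) := by
  rw [inv_mul_eq_iff_eq_mul, FreeGroup.mul_mk, List.take_append_drop, FreeGroup.mk_toWord]

theorem TpI_ahd {x : FreeGroup (Fin 3)} {r : ℕ} (hr : r < x.toWord.length) :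
    ahd ((FreeGroup.mk (x.toWord.take r))⁻¹ * x) = some x.toWord[r] := by
  rw [TpI_mk_drop]
  unfold ahd
  rw [TpI_toWord (TpI_drop (TpI_red x) r), List.head?_drop, List.getElem?_eq_getElem hr]

theorem TpI_mixL_in {h : ℕ} {T : List Arc} (hT : TOK h T) {p : Bool} {g : FreeGroup (Fin 3)}
    (hg : g ∈ mixL p T) : In12 g := by
  unfold mixL at hg
  rw [List.mem_map] at hg
  obtain ⟨e, he, rfl⟩ := hg
  rw [List.mem_filter] at he
  split_ifs
  · exact hT.in12 e he.1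
  · exact In12_inv (hT.in12 e he.1)

theorem TpI_mix_two {T : List Arc} {p : Bool} {g1 g2 : FreeGroup (Fin 3)}
    (hm : mixL p T = [g1, g2]) (w : PS) : mixL p (ast w T) =
      [(w p)⁻¹ * g1 * w (!p), (w p)⁻¹ * g2 * w (!p)] := by
  rw [mixL_st, hm]
  rfl

theorem TpI_ne {g1 g2 a b : FreeGroup (Fin 3)} (hne : g1 ≠ g2) :
    a⁻¹ * g1 * b ≠ a⁻¹ * g2 * b := by
  intro h
  exact hne (mul_left_cancel (mul_right_cancel h))

theorem TpI_prod (g1 g2 a b : FreeGroup (Fin 3)) :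
    a⁻¹ * g1 * b * (a⁻¹ * g2 * b)⁻¹ = a⁻¹ * (g1 * g2⁻¹) * a := by
  group

theorem rot_arc {h : ℕ} {T : List Arc} (hT : TOK h T) {p : Bool} (hL : Long p T) {u : PS}
    (hu : Rch T u) {e : Arc} (he : e ∈ T) (he1 : e.1 = p) (he2 : e.2.1 = p) :
    Rot (u p).toWord e.2.2 := by
  intro r hr
  have hz : ahd (u p) = some ((u p).toWord[0]'(by omega)) := by
    unfold ahd
    rw [List.head?_eq_getElem?, List.getElem?_eq_getElem (by omega)]
  have h1 := rr_path hT hu he he1 he2 hz (ConjC_decomp _ hr)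
  have h2 := long_rr hT hL hu hz he he1 he2
  unfold ConjC_g
  rw [h1, h2]

theorem rot_comp {h : ℕ} {T : List Arc} (hT : TOK h T) {p : Bool} {g1 g2 : FreeGroup (Fin 3)}
    (hm : mixL p T = [g1, g2]) (hne : g1 ≠ g2) (hL : Long p T) (hL' : Long (!p) T) {u : PS}
    (hu : Rch T u) : Rot (u p).toWord (g1 * g2⁻¹) := by
  intro r hr
  obtain ⟨w, hw, hwp⟩ := Rch_prefix hu p (List.take_prefix r (u p).toWord)
  have hz : ahd ((w⁻¹ * u) p) = some (u p).toWord[r] := by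
    have : (w⁻¹ * u) p = (FreeGroup.mk ((u p).toWord.take r))⁻¹ * u p := by
      rw [Pi.mul_apply, Pi.inv_apply, hwp]
    rw [this, TpI_ahd hr]
  have h1 := comp_rr (Rch_TOK hT hw) (TpI_mix_two hm w) (TpI_ne hne) (long_st hL hw)
    (long_st hL' hw) (Rch_diff hw hu) hz
  rw [TpI_prod, hwp] at h1
  exact h1

theorem two_comm {h : ℕ} {T : List Arc} (hT : TOK h T) {p : Bool} {g1 g2 : FreeGroup (Fin 3)}
    (hm : mixL p T = [g1, g2]) (hne : g1 ≠ g2) (hL : Long p T) (hL' : Long (!p) T) {e : Arc}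
    (he : e ∈ T) (he1 : e.1 = p) (he2 : e.2.1 = p) :
    e.2.2 * (g1 * g2⁻¹) = (g1 * g2⁻¹) * e.2.2 := by
  obtain ⟨u, v, hu, hv, hlen⟩ := id hL
  have hT' := Rch_TOK hT hu
  have hm' := TpI_mix_two hm u
  have hL1 := long_st hL hu
  have hL2 := long_st hL' hu
  have hx := Rch_diff hu hv
  have he' : ((e.1, e.2.1, alab u e) : Arc) ∈ ast u T := by
    unfold ast
    exact List.mem_map.2 ⟨e, he, rfl⟩
  have h1 := rot_arc hT' hL1 hx he' he1 he2
  have h2 := rot_comp hT' hm' (TpI_ne hne) hL1 hL2 hx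
  have h3 := atl_mem3 hm' he' (by simp only; rw [he1, he2])
  rw [Lv2_atl (Rch_lv hu)] at h3
  have h4 : ((u p)⁻¹ * g1 * u (!p) * ((u p)⁻¹ * g2 * u (!p))⁻¹).norm ≤
      ((u p)⁻¹ * g1 * u (!p)).norm + ((u p)⁻¹ * g2 * u (!p)).norm := by
    refine (FreeGroup.norm_mul_le _ _).trans ?_
    rw [FreeGroup.norm_inv_eq]
  have h5 : (u⁻¹ * v) p = (u p)⁻¹ * v p := rfl
  have h6 := rot_comm (TpI_red _) h1 h2 (by
    have : ((u⁻¹ * v) p).toWord.length = ((u p)⁻¹ * v p).norm := rfl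
    rw [this]
    simp only at h3 ⊢
    omega)
  rw [TpI_prod] at h6
  simp only [alab] at h6
  rw [he1, he2] at h6
  have h7 : (u p) * ((u p)⁻¹ * e.2.2 * u p * ((u p)⁻¹ * (g1 * g2⁻¹) * u p)) * (u p)⁻¹ =
      (u p) * ((u p)⁻¹ * (g1 * g2⁻¹) * u p * ((u p)⁻¹ * e.2.2 * u p)) * (u p)⁻¹ := by
    rw [h6]
  calc e.2.2 * (g1 * g2⁻¹) =
      (u p) * ((u p)⁻¹ * e.2.2 * u p * ((u p)⁻¹ * (g1 * g2⁻¹) * u p)) * (u p)⁻¹ := by group
    _ = _ := h7
    _ = _ := by group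

theorem two_comm' {h : ℕ} {T : List Arc} (hT : TOK h T) {p : Bool} {g1 g2 : FreeGroup (Fin 3)}
    (hm : mixL p T = [g1, g2]) (hne : g1 ≠ g2) (hL : Long p T) (hL' : Long (!p) T) {e : Arc}
    (he : e ∈ T) (he1 : e.1 = !p) (he2 : e.2.1 = !p) :
    e.2.2 * (g2⁻¹ * g1) = (g2⁻¹ * g1) * e.2.2 := by
  have hm' : mixL (!p) T = [g1⁻¹, g2⁻¹] := by
    rw [mixL_not, hm]
    rfl
  have h1 := two_comm hT hm' (fun hh => hne (inv_injective hh)) hL' (by rw [Bool.not_not]; exact hL)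
    he he1 he2
  have h2 : Commute e.2.2 (g1⁻¹ * (g2⁻¹)⁻¹) := h1
  have h3 := h2.inv_right
  have h4 : (g1⁻¹ * (g2⁻¹)⁻¹)⁻¹ = g2⁻¹ * g1 := by group
  rw [h4] at h3
  exact h3

theorem TpI_red2 {h : ℕ} {T : List Arc} (hT : TOK h T) {p : Bool} {u : PS} (hu : Rch T u)
    {s t : FreeGroup (Fin 3)} (hs : In12 s) (ht : In12 t)
    (h1 : ∀ e ∈ T, e.1 = p → e.2.1 = p → e.2.2 * s = s * e.2.2)
    (h2 : ∀ e ∈ T, e.1 = !p → e.2.1 = !p → e.2.2 * t = t * e.2.2)
    (h3 : ∀ g ∈ mixL p T, g * t = s * g) {W : List (Fin 3 × Bool)} (hW : FreeGroup.mk W = s)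
    (hper : ConjC_per (u p).toWord W) (hne : W ≠ []) (hl : W.length ≤ (u p).toWord.length) :
    ∃ v, Rch T v ∧ ast v T = ast u T ∧ (v p).toWord <+: (u p).toWord ∧
      (v p).norm < (u p).norm := by
  have hvp : s⁻¹ * u p =
      FreeGroup.mk ((u p).toWord.take ((u p).toWord.length - W.length)) := by
    have := per_shift hper hne hl
    rw [hW, FreeGroup.mk_toWord] at this
    exact this
  set v : PS := fun q => if q = p then s⁻¹ * u p else t⁻¹ * u (!p) with hv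
  have hv1 : v p = s⁻¹ * u p := by simp [hv]
  have hv2 : v (!p) = t⁻¹ * u (!p) := by simp [hv]
  have hast : ast u T = ast v T := alab_eq h1 h2 h3 u v (by rw [hv1]; group) (by rw [hv2]; group)
  have hlu := Rch_lv hu
  have hlv : Lv2 T v := by
    refine ⟨?_, ?_⟩
    · intro q
      simp only [hv]
      split_ifs
      · exact In12_mul (In12_inv hs) (hlu.1 p)
      · exact In12_mul (In12_inv ht) (hlu.1 (!p))
    · rw [← hast]
      exact hlu.2
  obtain ⟨w, hw, hwp⟩ := Rch_prefix hu p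
    (List.take_prefix ((u p).toWord.length - W.length) (u p).toWord)
  have hword : (v p).toWord = (u p).toWord.take ((u p).toWord.length - W.length) := by
    rw [hv1, hvp, TpI_toWord (TpI_take (TpI_red _) _)]
  refine ⟨v, Rch_same hT hw hlv (by rw [hv1, hvp, hwp]), hast.symm, ?_, ?_⟩
  · rw [hword]
    exact List.take_prefix _ _
  · have hpos : 0 < W.length := List.length_pos_iff.2 hne
    unfold FreeGroup.norm
    rw [hword, List.length_take]
    omega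

theorem two_red {h : ℕ} {T : List Arc} (hT : TOK h T) {p : Bool} {g1 g2 : FreeGroup (Fin 3)}
    (hm : mixL p T = [g1, g2]) (hne : g1 ≠ g2) (hL : Long p T) (hL' : Long (!p) T) {u : PS}
    (hu : Rch T u) (hl : atl T + 1 ≤ (u p).norm) :
    ∃ v, Rch T v ∧ ast v T = ast u T ∧ (v p).toWord <+: (u p).toWord ∧
      (v p).norm < (u p).norm := by
  have hlen : (u p).toWord.length = (u p).norm := rfl
  obtain ⟨W, hW, hWl, hper, hWne⟩ := rot_W (TpI_red (u p)) (by omega)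
    (rot_comp hT hm hne hL hL' hu)
  have hi1 : In12 g1 := TpI_mixL_in hT (p := p) (by rw [hm]; simp)
  have hi2 : In12 g2 := TpI_mixL_in hT (p := p) (by rw [hm]; simp)
  have hn : (g1 * g2⁻¹).norm ≤ g1.norm + g2.norm := by
    refine (FreeGroup.norm_mul_le _ _).trans ?_
    rw [FreeGroup.norm_inv_eq]
  have hn2 := atl_mem2 hm
  have hWle : W.length ≤ (u p).toWord.length := by omega
  have c1 : ∀ e ∈ T, e.1 = p → e.2.1 = p → e.2.2 * (g1 * g2⁻¹) = (g1 * g2⁻¹) * e.2.2 :=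
    fun e he he1 he2 => two_comm hT hm hne hL hL' he he1 he2
  have c2 : ∀ e ∈ T, e.1 = !p → e.2.1 = !p → e.2.2 * (g2⁻¹ * g1) = (g2⁻¹ * g1) * e.2.2 :=
    fun e he he1 he2 => two_comm' hT hm hne hL hL' he he1 he2
  have c3 : ∀ g ∈ mixL p T, g * (g2⁻¹ * g1) = (g1 * g2⁻¹) * g := by
    intro g hg
    rw [hm] at hg
    simp only [List.mem_cons, List.not_mem_nil, or_false] at hg
    rcases hg with rfl | rfl
    · group
    · group
  rcases hW with hW | hW
  · exact TpI_red2 hT hu (In12_mul hi1 (In12_inv hi2)) (In12_mul (In12_inv hi2) hi1) c1 c2 c3 hW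
      hper hWne hWle
  · refine TpI_red2 hT hu (s := (g1 * g2⁻¹)⁻¹) (t := (g2⁻¹ * g1)⁻¹)
      (In12_inv (In12_mul hi1 (In12_inv hi2))) (In12_inv (In12_mul (In12_inv hi2) hi1)) ?_ ?_ ?_ hW
      hper hWne hWle
    · intro e he he1 he2
      have : Commute e.2.2 (g1 * g2⁻¹) := c1 e he he1 he2
      exact this.inv_right
    · intro e he he1 he2
      have : Commute e.2.2 (g2⁻¹ * g1) := c2 e he he1 he2
      exact this.inv_right
    · intro g hg
      have h1 := c3 g hg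
      have h2 : (g1 * g2⁻¹)⁻¹ * (g * (g2⁻¹ * g1)) * (g2⁻¹ * g1)⁻¹ =
          (g1 * g2⁻¹)⁻¹ * ((g1 * g2⁻¹) * g) * (g2⁻¹ * g1)⁻¹ := by rw [h1]
      calc g * (g2⁻¹ * g1)⁻¹ = (g1 * g2⁻¹)⁻¹ * ((g1 * g2⁻¹) * g) * (g2⁻¹ * g1)⁻¹ := by group
        _ = _ := h2.symm
        _ = _ := by group

end Pool.Agent.Sims
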