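import Pool.Agent.Sims.TpF

/-!
# Module `TpKa` : distances in a fibre, the counting lemma

* `lab_dist`: `v = u * ps (!p) x` with `x = (u !p)⁻¹ (v !p)`; `Rch_TOK`, at the base `ast u T` the state `ps (!p) x` is level; `fib_mixed` for the port `!p` and the label
  `(u !p)⁻¹ g⁻¹ (u p)` read from `!p` (`mixL_not`, `mixL_st`); norms of inverses are equal; `x = 1` is trivial.
* `fib_dist`: `fib_diam` for the port `!p` at the base `ast u T` (`ank_st`).
* `red_count`: for `u ∈ S` there is (strong induction on the norm) `f u` reachable with `ast (f u) T = ast u T`, `(f u p).toWord <+: Z`, `(f u p).norm < R`.  Fix a mixed arc, `g ∈ mixL p T`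
  (`mixL_length`), `l w = ((w p)⁻¹ g (w !p)).norm`.  For each `r < R` the elements `f u` with `(f u p).norm = r` have the same position of `p` (prefix of `Z` of length `r`); by `lab_dist` `l` is injective on
  them (equal values: distance `0`) and two values differ by at most `D`, so there are at most `D + 1` of them.  `u ↦ f u` is injective on `S` (`hinj`).
  (E.g. `Finset.card_le_mul_card_image`, and: a finite set of naturals with pairwise differences `≤ D` has at most `D + 1` elements: it is contained in `Finset.Icc m (m + D)`, `m` the minimum.)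
Difficulty 3.
-/

namespace Pool.Agent.Sims

open FreeGroup (of)

theorem TpKa_base {T : List Arc} {p : Bool} {u v : PS} (hu : Rch T u)
    (hv : Rch T v) (huv : u p = v p) : Lv2 (ast u T) (ps (!p) ((u (!p))⁻¹ * v (!p))) := by
  have h1 : u * ps (!p) ((u (!p))⁻¹ * v (!p)) = v := by
    apply PS_ext p
    · rw [Pi.mul_apply]
      have h2 : ps (!p) ((u (!p))⁻¹ * v (!p)) p = 1 := by
        have h3 := ps_not (!p) ((u (!p))⁻¹ * v (!p))
        rwa [Bool.not_not] at h3
      rw [h2, mul_one, huv]
    · rw [Pi.mul_apply, ps_self, mul_inv_cancel_left]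
  have h2 := (Lv2_st (Rch_lv hu) (v := ps (!p) ((u (!p))⁻¹ * v (!p))))
  rw [h1] at h2
  exact h2.2 (Rch_lv hv)

theorem lab_dist {h : ℕ} {T : List Arc} (hT : TOK h T) {p : Bool} {u v : PS} (hu : Rch T u)
    (hv : Rch T v) (huv : u p = v p) {g : FreeGroup (Fin 3)} (hg : g ∈ mixL p T) :
    ((v p)⁻¹ * g * v (!p)).norm = ((u p)⁻¹ * g * u (!p)).norm + ((u (!p))⁻¹ * v (!p)).norm ∨
      ((v p)⁻¹ * g * v (!p)).norm + ((u (!p))⁻¹ * v (!p)).norm =
        ((u p)⁻¹ * g * u (!p)).norm := by
  by_cases hx : (u (!p))⁻¹ * v (!p) = 1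
  · left
    rw [hx, FreeGroup.norm_one, add_zero]
    have h1 : v (!p) = u (!p) := by
      have h2 : v (!p) = u (!p) * ((u (!p))⁻¹ * v (!p)) := by
        rw [mul_inv_cancel_left]
      rw [h2, hx, mul_one]
    rw [h1, huv]
  · have hb := TpKa_base hu hv huv
    have hmem : (u (!p))⁻¹ * g⁻¹ * u p ∈ mixL (!p) (ast u T) := by
      rw [mixL_st, mixL_not, Bool.not_not, List.map_map]
      exact List.mem_map.2 ⟨g, hg, rfl⟩
    have h1 := fib_mixed (Rch_TOK hT hu) hb hx hmem
    have h2 : ((u (!p))⁻¹ * v (!p))⁻¹ * ((u (!p))⁻¹ * g⁻¹ * u p) =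
        ((v p)⁻¹ * g * v (!p))⁻¹ := by
      rw [← huv]
      group
    have h3 : (u (!p))⁻¹ * g⁻¹ * u p = ((u p)⁻¹ * g * u (!p))⁻¹ := by
      group
    rw [h2] at h1
    rw [h3] at h1
    rw [FreeGroup.norm_inv_eq, FreeGroup.norm_inv_eq] at h1
    rcases h1 with h1 | h1
    · right
      exact h1.2
    · left
      exact h1.2

theorem fib_dist {h : ℕ} {T : List Arc} (hT : TOK h T) {p : Bool} {u v : PS} (hu : Rch T u)
    (hv : Rch T v) (huv : u p = v p) :
    ank T * ((u (!p))⁻¹ * v (!p)).norm ≤ 2 * atl T := by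
  have h1 := fib_diam (Rch_TOK hT hu) (TpKa_base hu hv huv)
  rwa [ank_st, Lv2_atl (Rch_lv hu)] at h1

theorem TpKa_card {s : Finset PS} {l : PS → ℕ} {D : ℕ} (hinj : ∀ a ∈ s, ∀ b ∈ s, l a = l b → a = b)
    (hd : ∀ a ∈ s, ∀ b ∈ s, l a ≤ l b + D) : s.card ≤ D + 1 := by
  classical
  rcases s.eq_empty_or_nonempty with h0 | h0
  · rw [h0]
    simp
  · obtain ⟨a0, ha0, hmin⟩ := Finset.exists_min_image s l h0
    have h1 : s.card = (s.image l).card := by
      rw [Finset.card_image_of_injOn]
      intro a ha b hb hab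
      exact hinj a ha b hb hab
    have h2 : s.image l ⊆ Finset.Icc (l a0) (l a0 + D) := by
      intro x hx
      rw [Finset.mem_image] at hx
      obtain ⟨a, ha, rfl⟩ := hx
      rw [Finset.mem_Icc]
      exact ⟨hmin a ha, hd a ha a0 ha0⟩
    have h3 := Finset.card_le_card h2
    rw [Nat.card_Icc] at h3
    omega

theorem TpKa_pre {Z v w : List (Fin 3 × Bool)} (hv : v <+: Z) (hw : w <+: Z)
    (h : v.length = w.length) : v = w := by
  rw [List.prefix_iff_eq_take.1 hv, List.prefix_iff_eq_take.1 hw, h]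

theorem red_count {h : ℕ} {T : List Arc} (hT : TOK h T) (hk : 1 ≤ ank T) {p : Bool}
    {Z : List (Fin 3 × Bool)} {R D : ℕ} {S : Finset PS}
    (hS : ∀ u ∈ S, Rch T u ∧ (u p).toWord <+: Z)
    (hinj : ∀ u ∈ S, ∀ v ∈ S, ast u T = ast v T → u = v)
    (hD : ∀ u v, Rch T u → Rch T v → u p = v p → ((u (!p))⁻¹ * v (!p)).norm ≤ D)
    (hred : ∀ u, Rch T u → (u p).toWord <+: Z → R ≤ (u p).norm →
      ∃ v, Rch T v ∧ ast v T = ast u T ∧ (v p).toWord <+: Z ∧ (v p).norm < (u p).norm) :
    S.card ≤ R * (D + 1) := by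
  classical
  have hind : ∀ n : ℕ, ∀ u, Rch T u → (u p).toWord <+: Z → (u p).norm = n →
      ∃ w, Rch T w ∧ ast w T = ast u T ∧ (w p).toWord <+: Z ∧ (w p).norm < R := by
    intro n
    induction n using Nat.strong_induction_on with
    | _ n ih =>
      intro u hu hZ hn
      by_cases hR : (u p).norm < R
      · exact ⟨u, hu, rfl, hZ, hR⟩
      · obtain ⟨v, hv, hvu, hvZ, hlt⟩ := hred u hu hZ (not_lt.1 hR)
        obtain ⟨w, hw, hwv, hwZ, hwR⟩ := ih (v p).norm (by omega) v hv hvZ rfl
        exact ⟨w, hw, hwv.trans hvu, hwZ, hwR⟩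
  have hch : ∀ u : PS, ∃ w : PS, u ∈ S → Rch T w ∧ ast w T = ast u T ∧ (w p).toWord <+: Z ∧
      (w p).norm < R := by
    intro u
    by_cases hu : u ∈ S
    · obtain ⟨w, hw⟩ := hind _ u (hS u hu).1 (hS u hu).2 rfl
      exact ⟨w, fun _ => hw⟩
    · exact ⟨u, fun h => absurd h hu⟩
  choose f hf using hch
  have hm : ∃ g, g ∈ mixL p T := by
    have h1 := mixL_length p T
    have h2 : 0 < (mixL p T).length := by omega
    exact List.exists_mem_of_length_pos h2
  obtain ⟨g, hg⟩ := hm
  have hcard : S.card = (S.image f).card := by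
    rw [Finset.card_image_of_injOn]
    intro a ha b hb hab
    apply hinj a ha b hb
    have h1 := (hf a ha).2.1
    have h2 := (hf b hb).2.1
    have h3 : f a = f b := hab
    rw [← h1, ← h2, h3]
  have hS' : ∀ w ∈ S.image f, Rch T w ∧ (w p).toWord <+: Z ∧ (w p).norm < R := by
    intro w hw
    rw [Finset.mem_image] at hw
    obtain ⟨a, ha, rfl⟩ := hw
    exact ⟨(hf a ha).1, (hf a ha).2.2.1, (hf a ha).2.2.2⟩
  rw [hcard]
  have hmain := Finset.card_le_mul_card_image (f := fun w : PS => (w p).norm) (S.image f) (D + 1)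
    (by
      intro b _
      refine TpKa_card (l := fun w => ((w p)⁻¹ * g * w (!p)).norm) ?_ ?_
      · intro a ha c hc hac
        rw [Finset.mem_filter] at ha hc
        obtain ⟨ha1, ha2, ha3⟩ := hS' a ha.1
        obtain ⟨hc1, hc2, hc3⟩ := hS' c hc.1
        have hpp : a p = c p := by
          apply FreeGroup.toWord_injective
          apply TpKa_pre ha2 hc2
          have h1 : (a p).norm = (c p).norm := by
            rw [ha.2, hc.2]
          exact h1
        have hac' : ((a p)⁻¹ * g * a (!p)).norm = ((c p)⁻¹ * g * c (!p)).norm := hac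
        have h0 : ((a (!p))⁻¹ * c (!p)).norm = 0 := by
          rcases lab_dist hT ha1 hc1 hpp hg with h | h
          · omega
          · omega
        rw [FreeGroup.norm_eq_zero] at h0
        apply PS_ext p hpp
        exact inv_mul_eq_one.1 h0
      · intro a ha c hc
        rw [Finset.mem_filter] at ha hc
        obtain ⟨ha1, ha2, ha3⟩ := hS' a ha.1
        obtain ⟨hc1, hc2, hc3⟩ := hS' c hc.1
        have hpp : a p = c p := by
          apply FreeGroup.toWord_injective
          apply TpKa_pre ha2 hc2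
          have h1 : (a p).norm = (c p).norm := by
            rw [ha.2, hc.2]
          exact h1
        have h0 := hD a c ha1 hc1 hpp
        have hl := lab_dist hT ha1 hc1 hpp hg
        show ((a p)⁻¹ * g * a (!p)).norm ≤ ((c p)⁻¹ * g * c (!p)).norm + D
        rcases hl with h | h
        · omega
        · omega)
  have himg : ((S.image f).image (fun w : PS => (w p).norm)).card ≤ R := by
    have h1 : (S.image f).image (fun w : PS => (w p).norm) ⊆ Finset.range R := by
      intro x hx
      rw [Finset.mem_image] at hx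
      obtain ⟨w, hw, rfl⟩ := hx
      rw [Finset.mem_range]
      exact (hS' w hw).2.2
    have h2 := Finset.card_le_card h1
    rwa [Finset.card_range] at h2
  calc (S.image f).card ≤ (D + 1) * ((S.image f).image (fun w : PS => (w p).norm)).card := hmain
    _ ≤ (D + 1) * R := Nat.mul_le_mul_left _ himg
    _ = R * (D + 1) := Nat.mul_comm _ _

end Pool.Agent.Sims
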