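import Pool.Agent.Sims.TpF
import Pool.Agent.Sims.ConjD

/-!
# Module `TpKb` : rebasing, no mixed arcs, the diagonal

* `rebase`: `S' = S.image (fun u => u0⁻¹ * u)`; `ast (u0⁻¹ * u) (ast u0 T) = ast u T` (`ast_ast`); `Rch_diff`.
* `tp_zero`: all labels of a reachable state have norm `0`, so `ast u T = T` for all `u`.
* `tp_k0`: `ank T = 0`: all arcs have equal ports.  `A q = (T.filter (e.1 = q)).map (·.2.2)` for `q = true, false`; `atl (ast u T) = LT (cjT (u true) (A true)) + LT (cjT (u false) (A false))`; `CMin (A q)` (move only one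
  port, `TOK.min`), so both summands are minimal for a reachable state: `Lw (A q) (u q)`; `conj_count`: `E q`, card `≤ 2 LT (A q) + 1`.  `ast u T` is determined by `cjT (u true) (A true)` and
  `cjT (u false) (A false)`.  So `S.card ≤ (2 x + 1)(2 y + 1) ≤ (x + y + 1)^2`, `x + y = atl T`.
* `tp_diag`: `CMin` of the list of labels, `ast u T` is determined by `cjT (u true) (labels)`: `conj_count`: `S.card ≤ 2 atl T + 1 ≤ (atl T + 1)^2`.
Difficulty 2-3.
-/

namespace Pool.Agent.Sims

open FreeGroup (of)

theorem rebase {T : List Arc} {S : Finset PS} (hS : ∀ u ∈ S, Rch T u)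
    (hinj : ∀ u ∈ S, ∀ v ∈ S, ast u T = ast v T → u = v) {u0 : PS} (hu0 : Rch T u0) :
    ∃ S' : Finset PS, S'.card = S.card ∧ (∀ v ∈ S', ∃ u ∈ S, v = u0⁻¹ * u) ∧
      (∀ v ∈ S', Rch (ast u0 T) v) ∧
      ∀ u ∈ S', ∀ v ∈ S', ast u (ast u0 T) = ast v (ast u0 T) → u = v := by
  classical
  refine ⟨S.image (fun u => u0⁻¹ * u), ?_, ?_, ?_, ?_⟩
  · exact Finset.card_image_of_injective _ (mul_right_injective _)
  · intro v hv
    obtain ⟨u, hu, rfl⟩ := Finset.mem_image.1 hv
    exact ⟨u, hu, rfl⟩
  · intro v hv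
    obtain ⟨u, hu, rfl⟩ := Finset.mem_image.1 hv
    exact Rch_diff hu0 (hS u hu)
  · intro a ha b hb hab
    obtain ⟨u, hu, rfl⟩ := Finset.mem_image.1 ha
    obtain ⟨v, hv, rfl⟩ := Finset.mem_image.1 hb
    rw [ast_ast, ast_ast, mul_inv_cancel_left, mul_inv_cancel_left] at hab
    rw [hinj u hu v hv hab]

theorem TpKb_zero {T : List Arc} (h0 : atl T = 0) : T = T.map (fun e => (e.1, e.2.1, 1)) := by
  have h1 : ∀ e ∈ T, e.2.2 = 1 := by
    intro e he
    unfold atl at h0
    rw [List.sum_eq_zero_iff] at h0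
    exact FreeGroup.norm_eq_zero.1 (h0 _ (List.mem_map.2 ⟨e, he, rfl⟩))
  conv_lhs => rw [← List.map_id T]
  apply List.map_congr_left
  intro e he
  rw [← h1 e he]
  rfl

theorem tp_zero {h : ℕ} {T : List Arc} (hT : TOK h T) (h0 : atl T = 0) {S : Finset PS}
    (hS : ∀ u ∈ S, Rch T u) (hinj : ∀ u ∈ S, ∀ v ∈ S, ast u T = ast v T → u = v) :
    S.card ≤ 1 := by
  have key : ∀ u ∈ S, ast u T = T := by
    intro u hu
    have h1 : atl (ast u T) = 0 := by rw [(Rch_lv (hS u hu)).2, h0]
    rw [TpKb_zero h1, TpKb_zero h0]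
    unfold ast
    rw [List.map_map, List.map_map]
    rfl
  rw [Finset.card_le_one]
  intro a ha b hb
  exact hinj a ha b hb ((key a ha).trans (key b hb).symm)

/-- labels of the arcs with left port `q` -/
def TpKb_A (q : Bool) (T : List Arc) : List (FreeGroup (Fin 3)) :=
  (T.filter (fun e => decide (e.1 = q))).map (fun e => e.2.2)

theorem TpKb_eq {T : List Arc} (h0 : ank T = 0) : ∀ e ∈ T, e.1 = e.2.1 := by
  intro e he
  unfold ank at h0
  rw [List.sum_eq_zero_iff] at h0
  by_contra hne
  have := h0 1 (List.mem_map.2 ⟨e, he, by simp [hne]⟩)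
  exact one_ne_zero this

theorem TpKb_sum (u : PS) : ∀ {T : List Arc}, (∀ e ∈ T, e.1 = e.2.1) →
    atl (ast u T) = LT (cjT (u true) (TpKb_A true T)) + LT (cjT (u false) (TpKb_A false T)) := by
  intro T
  induction T with
  | nil => intro _; rfl
  | cons e T ih =>
    intro hT
    have ih' := ih (fun e' he' => hT e' (List.mem_cons_of_mem _ he'))
    have he := hT e List.mem_cons_self
    have h1 : atl (ast u (e :: T)) = (alab u e).norm + atl (ast u T) := rfl
    rw [h1, ih']
    rcases e with ⟨p, q, g⟩
    simp only at he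
    subst he
    cases p
    · have h2 : TpKb_A true ((false, false, g) :: T) = TpKb_A true T := by
        simp [TpKb_A]
      have h3 : TpKb_A false ((false, false, g) :: T) = g :: TpKb_A false T := by
        simp [TpKb_A]
      rw [h2, h3]
      simp only [LT, cjT, List.map_cons, List.sum_cons, alab]
      omega
    · have h2 : TpKb_A false ((true, true, g) :: T) = TpKb_A false T := by
        simp [TpKb_A]
      have h3 : TpKb_A true ((true, true, g) :: T) = g :: TpKb_A true T := by
        simp [TpKb_A]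
      rw [h2, h3]
      simp only [LT, cjT, List.map_cons, List.sum_cons, alab]
      omega

theorem TpKb_cjT_one (L : List (FreeGroup (Fin 3))) : cjT 1 L = L := by
  unfold cjT
  conv_rhs => rw [← List.map_id L]
  apply List.map_congr_left
  intro g _
  simp

theorem TpKb_det {T : List Arc} (hT : ∀ e ∈ T, e.1 = e.2.1) {u v : PS}
    (h : ∀ q, cjT (u q) (TpKb_A q T) = cjT (v q) (TpKb_A q T)) : ast u T = ast v T := by
  unfold ast
  apply List.map_congr_left
  intro e he
  have hq := h e.1
  unfold cjT TpKb_A at hq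
  rw [List.map_map, List.map_map, List.map_inj_left] at hq
  have h1 := hq e (List.mem_filter.2 ⟨he, by simp⟩)
  simp only [Function.comp] at h1
  have h2 : alab u e = alab v e := by
    unfold alab
    rw [← hT e he]
    exact h1
  rw [h2]

theorem tp_k0 {h : ℕ} {T : List Arc} (hT : TOK h T) (h0 : ank T = 0) {S : Finset PS}
    (hS : ∀ u ∈ S, Rch T u) (hinj : ∀ u ∈ S, ∀ v ∈ S, ast u T = ast v T → u = v) :
    S.card ≤ (atl T + 1) ^ 2 := by
  classical
  have hE := TpKb_eq h0
  have hbase : atl T = LT (TpKb_A true T) + LT (TpKb_A false T) := by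
    have := TpKb_sum 1 hE
    rw [ast_one] at this
    rw [this]
    simp only [Pi.one_apply, TpKb_cjT_one]
  have hmin : ∀ q, CMin (TpKb_A q T) := by
    intro q x hx
    have h1 := hT.min (ps q x) (ps_in12 hx)
    rw [TpKb_sum _ hE, hbase] at h1
    cases q
    · have e1 : ps false x true = 1 := ps_not false x
      have e2 : ps false x false = x := ps_self false x
      rw [e1, e2, TpKb_cjT_one] at h1
      omega
    · have e1 : ps true x false = 1 := ps_not true x
      have e2 : ps true x true = x := ps_self true x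
      rw [e1, e2, TpKb_cjT_one] at h1
      omega
  have hLw : ∀ u ∈ S, ∀ q, Lw (TpKb_A q T) (u q) := by
    intro u hu q
    have h1 := Rch_lv (hS u hu)
    have h2 := h1.2
    rw [TpKb_sum _ hE, hbase] at h2
    have h3 := hmin true (u true) (h1.1 true)
    have h4 := hmin false (u false) (h1.1 false)
    refine ⟨h1.1 q, ?_⟩
    cases q
    · omega
    · omega
  obtain ⟨E1, hc1, hE1⟩ := conj_count (hmin true)
  obtain ⟨E2, hc2, hE2⟩ := conj_count (hmin false)
  have hcard : S.card ≤ (E1 ×ˢ E2).card := by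
    apply Finset.card_le_card_of_injOn
      (fun u => (cjT (u true) (TpKb_A true T), cjT (u false) (TpKb_A false T)))
    · intro u hu
      simp only [Finset.coe_product, Set.mem_prod, Finset.mem_coe]
      exact ⟨hE1 _ (hLw u hu true), hE2 _ (hLw u hu false)⟩
    · intro u hu v hv huv
      simp only [Prod.mk.injEq] at huv
      apply hinj u hu v hv
      apply TpKb_det hE
      intro q
      cases q
      · exact huv.2
      · exact huv.1
  rw [Finset.card_product] at hcard
  refine hcard.trans ((Nat.mul_le_mul hc1 hc2).trans ?_)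
  rw [hbase]
  nlinarith [sq_nonneg ((LT (TpKb_A true T) : ℤ) - LT (TpKb_A false T)),
    sq_nonneg (LT (TpKb_A true T)), two_mul_le_add_sq (LT (TpKb_A true T)) (LT (TpKb_A false T))]

theorem TpKb_bo (x : FreeGroup (Fin 3)) (T : List Arc) :
    (ast (bo x) T).map (fun e => e.2.2) = cjT x (T.map (fun e => e.2.2)) := by
  unfold ast cjT
  rw [List.map_map, List.map_map]
  rfl

theorem TpKb_atl (T : List Arc) : atl T = LT (T.map (fun e => e.2.2)) := by
  unfold atl LT
  rw [List.map_map]
  rfl

theorem tp_diag {h : ℕ} {T : List Arc} (hT : TOK h T) {S : Finset PS}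
    (hS : ∀ u ∈ S, Rch T u ∧ u true = u false)
    (hinj : ∀ u ∈ S, ∀ v ∈ S, ast u T = ast v T → u = v) :
    S.card ≤ (atl T + 1) ^ 2 := by
  classical
  have hbo : ∀ u ∈ S, u = bo (u true) := by
    intro u hu
    funext q
    cases q
    · exact (hS u hu).2.symm
    · rfl
  have hmin : CMin (T.map (fun e => e.2.2)) := by
    intro x hx
    have h1 := hT.min (bo x) (bo_in12 hx)
    rw [TpKb_atl, TpKb_atl, TpKb_bo] at h1
    exact h1
  have hLw : ∀ u ∈ S, Lw (T.map (fun e => e.2.2)) (u true) := by
    intro u hu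
    have h1 := Rch_lv (hS u hu).1
    refine ⟨h1.1 true, ?_⟩
    have h2 := h1.2
    rw [hbo u hu, TpKb_atl, TpKb_atl, TpKb_bo] at h2
    exact h2
  obtain ⟨E, hc, hE⟩ := conj_count hmin
  have hcard : S.card ≤ E.card := by
    apply Finset.card_le_card_of_injOn (fun u => cjT (u true) (T.map (fun e => e.2.2)))
    · intro u hu
      exact hE _ (hLw u hu)
    · intro u hu v hv huv
      apply hinj u hu v hv
      rw [hbo u hu, hbo v hv]
      unfold ast
      apply List.map_congr_left
      intro e he
      simp only at huv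
      unfold cjT at huv
      rw [List.map_map, List.map_map, List.map_inj_left] at huv
      have h1 := huv e he
      simp only [Function.comp] at h1
      have h2 : alab (bo (u true)) e = alab (bo (v true)) e := h1
      rw [h2]
  rw [← TpKb_atl] at hc
  nlinarith

end Pool.Agent.Sims
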