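import Pool.Agent.Sims.TpKa
import Pool.Agent.Sims.TpKb
import Pool.Agent.Sims.TpI

/-!
# Module `TpKc` : two mixed arcs

* `tp_k2`: `mixL true T = [g1, g2]` (`mixL_length`).  For a port `q`: `end_pair` for `S` and `q`: `u0, u1`, `Z = ((u0 q)⁻¹ * u1 q).toWord`.  If `Z.length ≤ atl T`: `rebase`, `red_count` with `R = D = atl T + 1`
  resp. `atl T` (`hred` is empty, `hD` by `fib_dist`: `2 * d ≤ 2 * atl T`): done.  Otherwise `Long q T`.  So assume `Long true T`, `Long false T`.  `g1 = g2`: `degen`, `tp_diag`.  `g1 ≠ g2`: `rebase` at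
  `u0` (for `q = true`), `red_count` with `R = atl T + 1`, `D = atl T`, `hred` by `two_red` at the base `ast u0 T` (`mixL_st`: the labels are still different; `long_st`).
Difficulty 2.
-/

namespace Pool.Agent.Sims

open FreeGroup (of)

/-- the count from a reduction at the base `u0` -/
theorem TpKc_count {h : ℕ} {T : List Arc} (hT : TOK h T) (h2 : ank T = 2)
    {S : Finset PS} (hS : ∀ u ∈ S, Rch T u)
    (hinj : ∀ u ∈ S, ∀ v ∈ S, ast u T = ast v T → u = v) {q : Bool} {u0 : PS} (hu0 : u0 ∈ S)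
    {Z : List (Fin 3 × Bool)}
    (hZ : ∀ u ∈ S, ((u0 q)⁻¹ * u q).toWord <+: Z)
    (hred : ∀ u, Rch (ast u0 T) u → (u q).toWord <+: Z → atl T + 1 ≤ (u q).norm →
      ∃ v, Rch (ast u0 T) v ∧ ast v (ast u0 T) = ast u (ast u0 T) ∧ (v q).toWord <+: Z ∧
        (v q).norm < (u q).norm) :
    S.card ≤ (atl T + 1) ^ 2 := by
  obtain ⟨S', hc, hSu, hR, hI⟩ := rebase hS hinj (hS u0 hu0)
  have hT0 : TOK h (ast u0 T) := Rch_TOK hT (hS u0 hu0)
  have ha0 : atl (ast u0 T) = atl T := Lv2_atl (Rch_lv (hS u0 hu0))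
  have hk0 : ank (ast u0 T) = 2 := by rw [ank_st, h2]
  have key := red_count hT0 (by omega : 1 ≤ ank (ast u0 T)) (p := q) (Z := Z) (R := atl T + 1)
    (D := atl T) (S := S') ?_ hI ?_ hred
  · rw [hc] at key
    calc S.card ≤ (atl T + 1) * (atl T + 1) := key
      _ = (atl T + 1) ^ 2 := by ring
  · intro v hv
    refine ⟨hR v hv, ?_⟩
    obtain ⟨u, hu, rfl⟩ := hSu v hv
    exact hZ u hu
  · intro u v hu hv huv
    have := fib_dist hT0 hu hv huv
    rw [hk0, ha0] at this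
    omega

/-- short positions of one port -/
theorem TpKc_short {h : ℕ} {T : List Arc} (hT : TOK h T) (hl : 1 ≤ atl T) (h2 : ank T = 2)
    {S : Finset PS} (hne : S.Nonempty) (hS : ∀ u ∈ S, Rch T u)
    (hinj : ∀ u ∈ S, ∀ v ∈ S, ast u T = ast v T → u = v) (q : Bool) :
    S.card ≤ (atl T + 1) ^ 2 ∨ Long q T := by
  obtain ⟨u0, hu0, u1, hu1, hp⟩ := end_pair hT hl hne hS q
  by_cases hlen : atl T + 1 ≤ ((u0 q)⁻¹ * u1 q).norm
  · exact Or.inr ⟨u0, u1, hS u0 hu0, hS u1 hu1, hlen⟩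
  · left
    refine TpKc_count hT h2 hS hinj hu0 hp ?_
    intro u hu hpre hR
    exfalso
    have h1 := hpre.length_le
    have h3 : (u q).norm = (u q).toWord.length := rfl
    have h4 : ((u0 q)⁻¹ * u1 q).norm = ((u0 q)⁻¹ * u1 q).toWord.length := rfl
    omega

theorem tp_k2 {h : ℕ} {T : List Arc} (hT : TOK h T) (hl : 1 ≤ atl T) (h2 : ank T = 2)
    {S : Finset PS} (hS : ∀ u ∈ S, Rch T u)
    (hinj : ∀ u ∈ S, ∀ v ∈ S, ast u T = ast v T → u = v) : S.card ≤ (atl T + 1) ^ 2 := by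
  rcases S.eq_empty_or_nonempty with rfl | hne
  · simp
  rcases TpKc_short hT hl h2 hne hS hinj true with h | hL
  · exact h
  rcases TpKc_short hT hl h2 hne hS hinj false with h | hL'
  · exact h
  have hlen := mixL_length true T
  rw [h2] at hlen
  obtain ⟨g1, g2, hm⟩ := List.length_eq_two.mp hlen
  by_cases hg : g1 = g2
  · subst hg
    refine tp_diag hT (fun u hu => ⟨hS u hu, ?_⟩) hinj
    exact degen hT hm hL hL' (hS u hu)
  · obtain ⟨u0, hu0, u1, hu1, hp⟩ := end_pair hT hl hne hS true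
    refine TpKc_count hT h2 hS hinj hu0 hp ?_
    intro u hu hpre hR
    have hT0 : TOK h (ast u0 T) := Rch_TOK hT (hS u0 hu0)
    have ha0 : atl (ast u0 T) = atl T := Lv2_atl (Rch_lv (hS u0 hu0))
    have hm0 : mixL true (ast u0 T) = [(u0 true)⁻¹ * g1 * u0 (!true), (u0 true)⁻¹ * g2 * u0 (!true)] := by
      rw [mixL_st, hm]; rfl
    have hne0 : (u0 true)⁻¹ * g1 * u0 (!true) ≠ (u0 true)⁻¹ * g2 * u0 (!true) := by
      intro he
      apply hg
      exact mul_left_cancel (mul_right_cancel he)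
    obtain ⟨v, hv, hva, hvp, hvn⟩ := two_red hT0 hm0 hne0 (long_st hL (hS u0 hu0))
      (long_st hL' (hS u0 hu0)) hu (by rw [ha0]; exact hR)
    exact ⟨v, hv, hva, hvp.trans hpre, hvn⟩

end Pool.Agent.Sims
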