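import Pool.Agent.Sims.TpA
import Pool.Agent.Sims.ArcA

/-!
# Module `TpLa` : the arcs of a class

`L = [(ε_1, g_1), …, (ε_n, g_n)]` is an arc form (`ArcA`): `arcP L = a^{ε_1} g_1 ⋯ a^{ε_n} g_n`.  The right side of the letter `a` and the left side of `a⁻¹` ... : port `true` = the side after `a` (before
`a⁻¹`), port `false` = the side before `a` (after `a⁻¹`).  So the arc `g_i` has the left port `ε_i` and the right port `!ε_{i+1}` (cyclically).
`tarcs L` : the list of arcs;  `upd u L` : the arc form in the state `u`.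
* `tarcs_upd`, `upd_fst`, `upd_length`, `upd_lab`: `List.zipWith`, `List.rotate`; the signs do not change.
* `ane_tarcs`: `ane true = #{i | ε_i} + #{i | !ε_{i+1}} = L.length`, in the same way `false` (rotation does not change counts).
* `tarcs_ntr`: if the ports are equal then `ε_i ≠ ε_{i+1}`, and `ArcOK` (the cyclic sum is `0`) says `g_i ≠ 1`.
* `upd_ArcOK`: not empty; `In12`; an arc with label `1` in the state `u` and different signs has equal ports `q`: `(u q)⁻¹ g (u q) = 1` iff `g = 1`.
* `act_upd`: `φ a = P a Q` with `P = u false`, `Q = (u true)⁻¹`, so `φ (lett (0, ε)) = u (!ε) * lett (0, ε) * (u ε)⁻¹` for both signs; `φ g = g` on `⟨b, c⟩`.  So `φ (arcP L)` is the product of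
  `u (!ε_i) a^{ε_i} (u ε_i)⁻¹ g_i`, conjugate by `u (!ε_1)` to the product of `a^{ε_i} (u ε_i)⁻¹ g_i u (!ε_{i+1})`.
* `tw_comp2`: `(φ.trans ψ) a = ψ (P a Q) = P (ψ a) Q`.
* `nt_tw2`: as `nt_tw` (`OnePort`): let `y` be the other one of `b, c`, `A (y, ·)` constant (`hn`).  If it is `false`: `wh z A` maps `a` to `z^{-[A a⁻¹]} a z^{[A a]}` and fixes `b, c`: `v false = z⁻¹` if
  `A (0,false)`, `v true = z⁻¹` if `A (0,true)`, otherwise `1`.  If it is `true`: compose with the conjugation by `z` (`act_conj`): `a ↦ z^{1 - [A a⁻¹]} a z^{[A a] - 1}`: `v false = z` if `A (0,false) = false`, `v true = z` if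
  `A (0,true) = false`.  In all cases `v` is `1`, `ps q (lett y')` or `bo (lett y')` with `y' = z` or `bar z`.
Difficulty 2-3.
-/

namespace Pool.Agent.Sims

open FreeGroup (of)

/-- the arcs of an arc form -/
def tarcs (L : List (Bool × FreeGroup (Fin 3))) : List Arc :=
  List.zipWith (fun q r : Bool × FreeGroup (Fin 3) => (q.1, !r.1, q.2)) L (L.rotate 1)

/-- the arc form in the state `u` -/
def upd (u : PS) (L : List (Bool × FreeGroup (Fin 3))) : List (Bool × FreeGroup (Fin 3)) :=
  List.zipWith (fun q r : Bool × FreeGroup (Fin 3) => (q.1, (u q.1)⁻¹ * q.2 * u (!r.1))) L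
    (L.rotate 1)

theorem TpLa_zl {α β γ : Type*} (f : α → γ) : ∀ (L : List α) (L' : List β),
    L.length ≤ L'.length → List.zipWith (fun q _ => f q) L L' = L.map f := by
  intro L
  induction L with
  | nil => intro L' _; simp
  | cons x t ih =>
    intro L' h
    cases L' with
    | nil => simp at h
    | cons y t' =>
      simp only [List.length_cons, Nat.add_le_add_iff_right] at h
      simp only [List.zipWith_cons_cons, List.map_cons]
      rw [ih t' h]

theorem TpLa_mem {α β γ : Type*} (f : α → β → γ) {c : γ} : ∀ (L : List α) (L' : List β),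
    c ∈ List.zipWith f L L' → ∃ q ∈ L, ∃ r ∈ L', c = f q r := by
  intro L
  induction L with
  | nil => intro L' h; simp at h
  | cons x t ih =>
    intro L' h
    cases L' with
    | nil => simp at h
    | cons y t' =>
      simp only [List.zipWith_cons_cons, List.mem_cons] at h
      rcases h with h | h
      · exact ⟨x, by simp, y, by simp, h⟩
      · obtain ⟨q, hq, r, hr, h1⟩ := ih t' h
        exact ⟨q, List.mem_cons_of_mem _ hq, r, List.mem_cons_of_mem _ hr, h1⟩

theorem TpLa_lin {β : Type*} (f : β → β → ℕ) (x : β) (l : List β) (y : β) :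
    lin f x l y = (List.zipWith f (x :: l) (l ++ [y])).sum := by
  induction l generalizing x with
  | nil => simp [lin]
  | cons a l ih =>
    rw [lin, ih]
    simp

theorem TpLa_cyc {β : Type*} (f : β → β → ℕ) (L : List β) :
    cyc f L = (List.zipWith f L (L.rotate 1)).sum := by
  cases L with
  | nil => simp [cyc]
  | cons x l =>
    rw [cyc, TpLa_lin]
    simp

theorem TpLa_sum {α β : Type*} (f : α → ℕ) (g : β → ℕ) : ∀ (L : List α) (L' : List β),
    L.length = L'.length → (List.zipWith (fun q r => f q + g r) L L').sum =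
      (L.map f).sum + (L'.map g).sum := by
  intro L
  induction L with
  | nil =>
    intro L' h
    cases L' with
    | nil => simp
    | cons y t => simp at h
  | cons x t ih =>
    intro L' h
    cases L' with
    | nil => simp at h
    | cons y t' =>
      simp only [List.length_cons, Nat.add_right_cancel_iff] at h
      simp only [List.zipWith_cons_cons, List.map_cons, List.sum_cons]
      rw [ih t' h]
      omega

theorem upd_length (u : PS) (L : List (Bool × FreeGroup (Fin 3))) :
    (upd u L).length = L.length := by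
  unfold upd
  rw [List.length_zipWith, List.length_rotate, min_self]

theorem upd_fst (u : PS) (L : List (Bool × FreeGroup (Fin 3))) :
    (upd u L).map Prod.fst = L.map Prod.fst := by
  unfold upd
  rw [List.map_zipWith]
  exact TpLa_zl Prod.fst L (L.rotate 1) (by rw [List.length_rotate])

theorem tarcs_upd (u : PS) (L : List (Bool × FreeGroup (Fin 3))) :
    tarcs (upd u L) = ast u (tarcs L) := by
  apply List.ext_getElem
  · simp [tarcs, ast, upd_length]
  · intro i h1 h2
    simp only [tarcs, ast, upd, alab, List.getElem_zipWith, List.getElem_map,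
      List.getElem_rotate, List.length_zipWith, List.length_rotate, min_self]

theorem TpLa_back (L : List (Bool × FreeGroup (Fin 3))) :
    (tarcs L).map (fun e => (e.1, e.2.2)) = L := by
  unfold tarcs
  rw [List.map_zipWith]
  have h1 := TpLa_zl (fun q : Bool × FreeGroup (Fin 3) => (q.1, q.2)) L (L.rotate 1)
    (by rw [List.length_rotate])
  rw [List.map_id'' (fun q => rfl)] at h1
  exact h1

/-- the arc form is determined by the signs and the arcs -/
theorem upd_inj {u v : PS} {L : List (Bool × FreeGroup (Fin 3))}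
    (h : ast u (tarcs L) = ast v (tarcs L)) : upd u L = upd v L := by
  rw [← tarcs_upd, ← tarcs_upd] at h
  rw [← TpLa_back (upd u L), ← TpLa_back (upd v L), h]

theorem atl_tarcs (L : List (Bool × FreeGroup (Fin 3))) :
    atl (tarcs L) = (L.map (fun q => q.2.norm)).sum := by
  have h1 : atl (tarcs L) = (((tarcs L).map (fun e => (e.1, e.2.2))).map
      (fun q : Bool × FreeGroup (Fin 3) => q.2.norm)).sum := by
    rw [List.map_map]
    rfl
  rw [h1, TpLa_back]

theorem ane_tarcs (L : List (Bool × FreeGroup (Fin 3))) (p : Bool) :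
    ane p (tarcs L) = L.length := by
  unfold ane tarcs
  rw [List.map_zipWith]
  have h1 := TpLa_sum (fun q : Bool × FreeGroup (Fin 3) => if q.1 = p then 1 else 0)
    (fun r : Bool × FreeGroup (Fin 3) => if (!r.1) = p then 1 else 0) L (L.rotate 1)
    (by rw [List.length_rotate])
  have h2 : ((L.rotate 1).map (fun r : Bool × FreeGroup (Fin 3) =>
      if (!r.1) = p then 1 else 0)).sum =
      (L.map (fun r : Bool × FreeGroup (Fin 3) => if (!r.1) = p then 1 else 0)).sum :=
    ((List.rotate_perm L 1).map _).sum_eq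
  rw [h2, ← List.sum_map_add] at h1
  have h3 : (L.map (fun q : Bool × FreeGroup (Fin 3) =>
      (if q.1 = p then 1 else 0) + (if (!q.1) = p then 1 else 0))).sum = L.length := by
    have h4 : ∀ b : Bool, ((if b = p then 1 else 0) + (if (!b) = p then 1 else 0) : ℕ) = 1 := by
      intro b
      cases b <;> cases p <;> rfl
    have h5 : (fun q : Bool × FreeGroup (Fin 3) =>
      ((if q.1 = p then 1 else 0) + (if (!q.1) = p then 1 else 0) : ℕ)) = fun _ => 1 := by
      funext q
      exact h4 q.1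
    rw [h5]
    simp
  rw [h3] at h1
  exact h1

theorem tarcs_in12 {L : List (Bool × FreeGroup (Fin 3))} (hL : ArcOK L) :
    ∀ e ∈ tarcs L, In12 e.2.2 := by
  intro e he
  obtain ⟨q, hq, r, _, rfl⟩ := TpLa_mem _ _ _ he
  exact hL.2.1 q hq

theorem TpLa_cyc2 (L : List (Bool × FreeGroup (Fin 3))) :
    cyc (fun q r => if q.2 = 1 ∧ q.1 ≠ r.1 then 1 else 0) L =
      ((tarcs L).map (fun e => if e.2.2 = 1 ∧ e.1 = e.2.1 then 1 else 0)).sum := by
  rw [TpLa_cyc]
  unfold tarcs
  rw [List.map_zipWith]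
  congr 2
  funext q r
  have h1 : q.1 ≠ r.1 ↔ q.1 = !r.1 := by
    cases q.1 <;> cases r.1 <;> simp
  simp only [h1]

theorem TpLa_zero {T : List Arc}
    (h : (T.map (fun e => if e.2.2 = 1 ∧ e.1 = e.2.1 then 1 else 0)).sum = 0) :
    ∀ e ∈ T, e.1 = e.2.1 → e.2.2 ≠ 1 := by
  intro e he h1 h2
  rw [List.sum_eq_zero_iff] at h
  have h3 := h (if e.2.2 = 1 ∧ e.1 = e.2.1 then 1 else 0) (List.mem_map.2 ⟨e, he, rfl⟩)
  rw [if_pos ⟨h2, h1⟩] at h3
  exact one_ne_zero h3

theorem TpLa_zero' {T : List Arc} (h : ∀ e ∈ T, e.1 = e.2.1 → e.2.2 ≠ 1) :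
    (T.map (fun e => if e.2.2 = 1 ∧ e.1 = e.2.1 then 1 else 0)).sum = 0 := by
  rw [List.sum_eq_zero_iff]
  intro x hx
  obtain ⟨e, he, rfl⟩ := List.mem_map.1 hx
  exact if_neg (fun h1 => h e he h1.2 h1.1)

theorem tarcs_ntr {L : List (Bool × FreeGroup (Fin 3))} (hL : ArcOK L) :
    ∀ e ∈ tarcs L, e.1 = e.2.1 → e.2.2 ≠ 1 := by
  apply TpLa_zero
  rw [← TpLa_cyc2]
  exact hL.2.2

theorem upd_ArcOK {L : List (Bool × FreeGroup (Fin 3))} (hL : ArcOK L) {u : PS}
    (hu : ∀ p, In12 (u p)) : ArcOK (upd u L) := by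
  refine ⟨?_, ?_, ?_⟩
  · intro h
    have h1 := upd_length u L
    rw [h] at h1
    exact hL.1 (List.length_eq_zero_iff.1 h1.symm)
  · intro q hq
    obtain ⟨q', hq', r, _, rfl⟩ := TpLa_mem _ _ _ hq
    exact In12_mul (In12_mul (In12_inv (hu _)) (hL.2.1 q' hq')) (hu _)
  · rw [TpLa_cyc2, tarcs_upd]
    apply TpLa_zero'
    intro e he
    obtain ⟨e', he', rfl⟩ := List.mem_map.1 he
    intro h1 h2
    have h1' : e'.1 = e'.2.1 := h1
    have h2' : (u e'.1)⁻¹ * e'.2.2 * u e'.2.1 = 1 := h2
    apply tarcs_ntr hL e' he' h1'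
    rw [← h1'] at h2'
    have h3 : e'.2.2 = u e'.1 * ((u e'.1)⁻¹ * e'.2.2 * u e'.1) * (u e'.1)⁻¹ := by group
    rw [h3, h2']
    group

theorem TpLa_act {φ : FreeGroup (Fin 3) ≃* FreeGroup (Fin 3)} {u : PS}
    (h : Tw φ (u false) (u true)⁻¹) (y : Bool × FreeGroup (Fin 3)) :
    ∀ (l : List (Bool × FreeGroup (Fin 3))) (x : Bool × FreeGroup (Fin 3)),
      (∀ q ∈ x :: l, In12 q.2) → φ (arcP (x :: l)) = u (!x.1) *
        arcP (List.zipWith (fun q r : Bool × FreeGroup (Fin 3) =>
          (q.1, (u q.1)⁻¹ * q.2 * u (!r.1))) (x :: l) (l ++ [y])) * (u (!y.1))⁻¹ := by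
  obtain ⟨_, _, h0, hφ⟩ := h
  have hlett : ∀ ε : Bool, φ (lett (0, ε)) = u (!ε) * lett (0, ε) * (u ε)⁻¹ := by
    intro ε
    cases ε with
    | true =>
      rw [lett_true, h0]
      rfl
    | false =>
      rw [lett_false, map_inv, h0]
      show _ = u true * (of 0)⁻¹ * (u false)⁻¹
      group
  intro l
  induction l with
  | nil =>
    intro x hx
    simp only [arcP, List.map_cons, List.map_nil, List.prod_cons, List.prod_nil, mul_one,
      List.nil_append, List.zipWith_cons_cons, List.zipWith_nil_left]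
    rw [map_mul, hlett, hφ _ (hx x List.mem_cons_self)]
    group
  | cons a l ih =>
    intro x hx
    have ih' := ih a (fun q hq => hx q (List.mem_cons_of_mem _ hq))
    have h1 : arcP (x :: a :: l) = lett (0, x.1) * x.2 * arcP (a :: l) := by simp [arcP]
    rw [h1, map_mul, map_mul, ih', hlett, hφ _ (hx x List.mem_cons_self)]
    rw [List.cons_append, List.zipWith_cons_cons]
    have h2 : ∀ (b : Bool) (g : FreeGroup (Fin 3)) (t : List (Bool × FreeGroup (Fin 3))),
        arcP ((b, g) :: t) = lett (0, b) * g * arcP t := by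
      intro b g t
      simp [arcP]
    rw [h2]
    group

theorem act_upd {φ : FreeGroup (Fin 3) ≃* FreeGroup (Fin 3)} {u : PS}
    (h : Tw φ (u false) (u true)⁻¹) {L : List (Bool × FreeGroup (Fin 3))} (hL : ArcOK L) :
    act φ (ConjClasses.mk (arcP L)) = ConjClasses.mk (arcP (upd u L)) := by
  cases L with
  | nil => exact absurd rfl hL.1
  | cons x l =>
    rw [act_mk, TpLa_act h x l x hL.2.1, ArcA_isConj]
    unfold upd
    rw [List.rotate_cons_succ, List.rotate_zero]

theorem tw_comp2 {φ ψ : FreeGroup (Fin 3) ≃* FreeGroup (Fin 3)} {u v : PS}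
    (h : Tw φ (u false) (u true)⁻¹) (h' : Tw ψ (v false) (v true)⁻¹) :
    Tw (φ.trans ψ) ((u * v) false) ((u * v) true)⁻¹ := by
  obtain ⟨a1, a2, a3, a4⟩ := h
  obtain ⟨b1, b2, b3, b4⟩ := h'
  have hu : (u * v) false = u false * v false := rfl
  have hv : ((u * v) true)⁻¹ = (v true)⁻¹ * (u true)⁻¹ := by
    rw [Pi.mul_apply, mul_inv_rev]
  rw [hu, hv]
  refine ⟨In12_mul a1 b1, In12_mul b2 a2, ?_, ?_⟩
  · rw [MulEquiv.trans_apply, a3, map_mul, map_mul, b3, b4 _ a1, b4 _ a2]
    group
  · intro g hg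
    rw [MulEquiv.trans_apply, a4 g hg, b4 g hg]

theorem TpLa_v {z : Fin 3 × Bool} (hz : z.1 ≠ 0) (c : Bool) (d : Bool → Bool) :
    ((fun q => (if c then lett z else 1) * (if d q then lett z else 1)⁻¹ : PS) = 1 ∨
      ∃ y : Fin 3 × Bool, y.1 ≠ 0 ∧
        ((∃ q, (fun q => (if c then lett z else 1) * (if d q then lett z else 1)⁻¹ : PS) =
          ps q (lett y)) ∨
        (fun q => (if c then lett z else 1) * (if d q then lett z else 1)⁻¹ : PS) =
          bo (lett y))) := by
  cases c <;> cases hd : d true <;> cases hd' : d false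
  · left; funext q; cases q <;> simp [hd, hd']
  · right
    refine ⟨bar z, hz, Or.inl ⟨false, ?_⟩⟩
    funext q; cases q <;> simp [hd, hd', ps, lett_bar]
  · right
    refine ⟨bar z, hz, Or.inl ⟨true, ?_⟩⟩
    funext q; cases q <;> simp [hd, hd', ps, lett_bar]
  · right
    refine ⟨bar z, hz, Or.inr ?_⟩
    funext q; cases q <;> simp [hd, hd', bo, lett_bar]
  · right
    refine ⟨z, hz, Or.inr ?_⟩
    funext q; cases q <;> simp [hd, hd', bo]
  · right
    refine ⟨z, hz, Or.inl ⟨true, ?_⟩⟩
    funext q; cases q <;> simp [hd, hd', ps]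
  · right
    refine ⟨z, hz, Or.inl ⟨false, ?_⟩⟩
    funext q; cases q <;> simp [hd, hd', ps]
  · left; funext q; cases q <;> simp [hd, hd']

theorem nt_tw2 (W : CC) {z : Fin 3 × Bool} {A : Fin 3 × Bool → Bool} (hz : z.1 ≠ 0)
    (hn : ∀ i, i ≠ 0 → i ≠ z.1 → NSep A i) :
    ∃ (ψ : FreeGroup (Fin 3) ≃* FreeGroup (Fin 3)) (v : PS), Tw ψ (v false) (v true)⁻¹ ∧
      (v = 1 ∨ ∃ y : Fin 3 × Bool, y.1 ≠ 0 ∧ ((∃ q, v = ps q (lett y)) ∨ v = bo (lett y))) ∧
      act (wh z A) W = act ψ W := by
  obtain ⟨y, hy0, hyz, hall⟩ : ∃ y : Fin 3, y ≠ 0 ∧ y ≠ z.1 ∧ ∀ i, i = 0 ∨ i = y ∨ i = z.1 := by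
    have : ∀ k : Fin 3, k ≠ 0 → ∃ y : Fin 3, y ≠ 0 ∧ y ≠ k ∧ ∀ i, i = 0 ∨ i = y ∨ i = k := by
      decide
    exact this _ hz
  have hzl : In12 (lett z) := In12_lett hz
  have hee : ∀ b : Bool, In12 (if b then lett z else 1) := by
    intro b
    cases b
    · simpa using In12_one
    · simpa using hzl
  have heinv : ∀ b : Bool, (if b then (lett z)⁻¹ else 1) = (if b then lett z else 1)⁻¹ := by
    intro b
    cases b <;> simp
  have hy := hn y hy0 hyz
  unfold NSep at hy
  set v : PS := fun q => (if A (y, true) then lett z else 1) *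
    (if A (0, q) then lett z else 1)⁻¹ with hv
  have hv12 : ∀ q, In12 (v q) := fun q => In12_mul (hee _) (In12_inv (hee _))
  obtain ⟨φ, h1, h2⟩ := exists_tw (hv12 false) (In12_inv (hv12 true))
  refine ⟨φ, v, ⟨hv12 false, In12_inv (hv12 true), h1, h2⟩,
    TpLa_v hz (A (y, true)) (fun q => A (0, q)), ?_⟩
  apply act_conj _ _ (if A (y, true) then lett z else 1)⁻¹
  intro i
  rcases hall i with rfl | rfl | rfl
  · have h3 : ((0, true) : Fin 3 × Bool).1 ≠ z.1 := fun h => hz h.symm
    have h4 := wh_lett_ne z A h3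
    rw [lett_true] at h4
    have h5 : bar ((0, true) : Fin 3 × Bool) = (0, false) := rfl
    rw [h4, h1, h5, heinv]
    simp only [hv]
    group
  · have h3 : ((i, true) : Fin 3 × Bool).1 ≠ z.1 := hyz
    have h4 := wh_lett_ne z A h3
    rw [lett_true] at h4
    have h5 : A (bar (i, true)) = A (i, true) := hy.symm
    rw [h4, h2 _ (In12_of hy0), h5, heinv]
    group
  · have h3 : wh z A (of z.1) = of z.1 := potFun_of_self _ _
    rw [h3, h2 _ (In12_of hz)]
    have h4 : ∀ b : Bool, Commute (if b then lett z else 1) (of z.1) := by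
      intro b
      cases b
      · simp
      · obtain ⟨k, c⟩ := z
        cases c
        · show Commute (lett (k, false)) (of k)
          rw [lett_false]
          exact (Commute.refl _).inv_left
        · exact Commute.refl _
    have h5 := (h4 (A (y, true))).eq
    rw [inv_inv, mul_assoc, ← h5]
    group

end Pool.Agent.Sims
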