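import Pool.Agent.Sims.Conn

/-!
# Definitions for part II (rank 3: generators `a = 0`, `b = 1`, `c = 2`)

* `Bdd c N`   : up to signed permutations the level orbit `orb c` has at most `N` elements
* `In12 g`    : `g ∈ ⟨b, c⟩`
* `same g h`  : the class of `a g a h`;  `opp g h` : the class of `a g a⁻¹ h`
* `Sb`, `Sc`  : the cuts `{a, b, b⁻¹}` and `{a, c, c⁻¹}`
* `tau k`     : `b ↦ b c^k`;  `sig k` : `c ↦ c b^k`
* `Ybc j t`   : the class of `b^j c^t`;  `Yc t` : the class of `c^t`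
* `flp s`, `swp` : sign changes, exchange of `b` and `c`;  `sgl z`, `pr z y` : cuts with one or two elements
* `edgS c A B` : number of edges of the Whitehead graph between `A` and `B`
* `Fix0 σ`, `Fix2 σ` : the signed permutation `σ` maps `a ↦ a`, resp. maps `c` to `c^{±1}`
-/

namespace Pool.Agent.Sims

open FreeGroup (of)

/-- conjugacy classes of the free group of rank 3 -/
abbrev CC := ConjClasses (FreeGroup (Fin 3))

/-- up to signed permutations `orb c` has at most `N` elements -/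
def Bdd (c : CC) (N : ℕ) : Prop :=
  ∃ E : Finset CC, E.card ≤ N ∧ ∀ d ∈ orb c, ∃ σ : SPerm (Fin 3), ∃ e ∈ E, d = act σ.aut e

/-- `g` lies in the subgroup generated by `b = x_1`, `c = x_2` -/
def In12 (g : FreeGroup (Fin 3)) : Prop := ∀ x ∈ g.toWord, x.1 ≠ 0

/-- the class of `a g a h` -/
def same (g h : FreeGroup (Fin 3)) : CC := ConjClasses.mk (of 0 * g * of 0 * h)

/-- the class of `a g a⁻¹ h` -/
def opp (g h : FreeGroup (Fin 3)) : CC := ConjClasses.mk (of 0 * g * (of 0)⁻¹ * h)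

/-- `φ` maps `a` to `p a q` and preserves `⟨b, c⟩` -/
def Good (φ : FreeGroup (Fin 3) ≃* FreeGroup (Fin 3)) (p q : FreeGroup (Fin 3)) : Prop :=
  In12 p ∧ In12 q ∧ φ (of 0) = p * of 0 * q ∧ ∀ g, In12 g → In12 (φ g)

/-- the cut `{a, b, b⁻¹}` -/
def Sb : Fin 3 × Bool → Bool := fun x => decide (x = (0, true)) || decide (x.1 = 1)

/-- the cut `{a, c, c⁻¹}` -/
def Sc : Fin 3 × Bool → Bool := fun x => decide (x = (0, true)) || decide (x.1 = 2)

/-- `b ↦ b c^k` -/
def tau (k : ℤ) : FreeGroup (Fin 3) ≃* FreeGroup (Fin 3) :=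
  pot 2 (fun x => if x = (1, true) then k else 0)

/-- `c ↦ c b^k` -/
def sig (k : ℤ) : FreeGroup (Fin 3) ≃* FreeGroup (Fin 3) :=
  pot 1 (fun x => if x = (2, true) then k else 0)

/-- the class of `b^j c^t` -/
def Ybc (j t : ℤ) : CC := ConjClasses.mk (of 1 ^ j * of 2 ^ t)

/-- the class of `c^t` -/
def Yc (t : ℤ) : CC := ConjClasses.mk (of 2 ^ t)

/-- signed permutation with `a ↦ a` -/
def Fix0 (σ : SPerm (Fin 3)) : Prop := σ.perm 0 = 0 ∧ σ.sign 0 = true

/-- signed permutation with `c ↦ c^{±1}` -/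
def Fix2 (σ : SPerm (Fin 3)) : Prop := σ.perm 2 = 2

/-- sign changes -/
def flp (s : Fin 3 → Bool) : SPerm (Fin 3) := ⟨Equiv.refl _, s⟩

/-- the signed permutation exchanging `b` and `c` -/
def swp : SPerm (Fin 3) := ⟨Equiv.swap 1 2, fun _ => true⟩

/-- number of edges of the Whitehead graph between (disjoint) sets of vertices -/
noncomputable def edgS {α : Type*} [DecidableEq α] (c : ConjClasses (FreeGroup α))
    (A B : α × Bool → Bool) : ℕ :=
  cyc (fun x y => if (A x && B (bar y)) || (B x && A (bar y)) then 1 else 0) (rep c)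

/-- the singleton cut -/
def sgl {α : Type*} [DecidableEq α] (z : α × Bool) : α × Bool → Bool := fun x => decide (x = z)

/-- the cut `{z, y}` -/
def pr {α : Type*} [DecidableEq α] (z y : α × Bool) : α × Bool → Bool :=
  fun x => decide (x = z) || decide (x = y)

/-- the set of classes `same g h` with `[g h⁻¹] = Y` and `|g| + |h| = ‖Y‖` -/
def ESame (Y : CC) : Set CC :=
  {e | ∃ g h, In12 g ∧ In12 h ∧ ConjClasses.mk (g * h⁻¹) = Y ∧ g.norm + h.norm = cycLen Y ∧
    e = same g h}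

/-- the set of classes `opp g h` with `[g] = Y`, `[h] = Z` and `|g| = ‖Y‖`, `|h| = ‖Z‖` -/
def EOpp (Y Z : CC) : Set CC :=
  {e | ∃ g h, In12 g ∧ In12 h ∧ g ≠ 1 ∧ h ≠ 1 ∧ ConjClasses.mk g = Y ∧ ConjClasses.mk h = Z ∧
    g.norm = cycLen Y ∧ h.norm = cycLen Z ∧ e = opp g h}

/-- total number of letters `x_i^{±1}` in a list of classes -/
noncomputable def tcnt (Q : List CC) (i : Fin 3) : ℕ := (Q.map (fun c => cnt c i)).sum

/-- action on lists of classes -/
def tact (φ : FreeGroup (Fin 3) ≃* FreeGroup (Fin 3)) (Q : List CC) : List CC := Q.map (act φ)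

/-- no letters `a^{±1}` in the classes of the list -/
def No0 (Q : List CC) : Prop := ∀ c ∈ Q, cnt c 0 = 0

/-- the list is not shortened by `tau 1`, `tau (-1)` -/
def TMin (Q : List CC) : Prop :=
  tcnt Q 2 ≤ tcnt (tact (tau 1) Q) 2 ∧ tcnt Q 2 ≤ tcnt (tact (tau (-1)) Q) 2

/-- level steps `tau^{±1}`, `sig^{±1}` -/
def TStep (Q Q' : List CC) : Prop :=
  ((Q' = tact (tau 1) Q ∨ Q' = tact (tau (-1)) Q) ∧ tcnt Q' 2 = tcnt Q 2) ∨
    ((Q' = tact (sig 1) Q ∨ Q' = tact (sig (-1)) Q) ∧ tcnt Q' 1 = tcnt Q 1)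

/-- the bound: `48 * F3 m = 48 m^3 - 480 m^2 + 1104 m - 672` -/
def F3 (m : ℕ) : ℕ := (m - 1) * (m - 2) * (m - 7)

end Pool.Agent.Sims
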