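import Pool.Agent.Sims.TripDefs
import Pool.Agent.Sims.TwPot
import Pool.Agent.Sims.Par

/-!
# Module `TripA` : lines and tripods

* `Ln_add`, `Ln_zero`: `pot_add`, `pot_zero`.
* `Ln_cap`: syllable forms (`WhEff_cases`, `act_pot`, `SValid_shift`, `capC_cls`, `cap_expand_nonsep` with `A = PrC j`, `cyc_shift`): for a pair `(x,k), (y,k')` the term is `[x.1=j] + [y.1=j]` if
  exactly one of `x.1, y.1` is `j`: `1`, whether `k = 0` or not; if none is `j`: `0`; if both are `j` the exponent `k` does not change (the potential takes the same value at `x` and at `y⁻¹`).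
* `trip_loc`: let `s` be a valid syllable form of `V` with respect to `i`, `j = i+1`, `k = i+2`.  Call a cyclic pair `(x,q), (y,q')` of syllables cross if `x.1 ≠ y.1`.  Let `X` be the number of cross pairs,
  `X₀` the number of cross pairs with `q = 0`, `S_j` (`S_k`) the number of pairs with `x.1 = y.1 = j` (`= k`) and `q ≠ 0`.  `cap_expand_nonsep` for `PrC j`, `PrC k` and for the complement of `PrC i` (`capC_compl`):
  `l = X + 2 S_j = X + 2 S_k` and `l = 2 (X - X₀) + 2 S_j + 2 S_k`, so `l = 2 X₀`.  The same for `Ln V i t`, whose form is `shift (lp i t) s` (`X` is the same, and the cross pairs with new exponent `0` are those with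
  `q = -t` (`x.1 = j, y.1 = k`), resp. `q = t` (`x.1 = k, y.1 = j`)): their number `X₀'` satisfies `l = 2 X₀'`.  As `t ≠ 0` these are disjoint sets of cross pairs, `X ≥ X₀ + X₀' = l ≥ X`, so every cross pair is of one
  of the two kinds, and `S_j = S_k = 0`.
* `trip_uniq`: `l ≥ 1` so `X₀' ≥ 1`: there is a cross pair with `q ≠ 0`; its exponent determines `t`.  (Formally: compare `trip_loc` for `t` and `t'`: if `t ≠ t'` the sum of the two kinds of terms shows
  `X₀' = 0`.)
* `trip_ne`: if `Ln V i t = V` then `Ln V i (2t) = V` as well; `trip_uniq` for `t`, `2 t`.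
* `trip_LocW`: if `w = x :: zpw i q ++ y :: r` then `SylA_group` for the reduced word `y :: r` gives `w = expand i ((x, q) :: s')` with `s' = (y, _) :: _`; `trip_loc`.  If `w = x :: zpw i q` then
  `w = expand i [(x, q)]`.
Difficulty 3.
-/

namespace Pool.Agent.Sims

theorem TripA_lp_add (i : Fin 3) (s t : ℤ) : lp i s + lp i t = lp i (s + t) := by
  funext x
  simp only [Pi.add_apply, lp]
  split_ifs <;> simp

theorem Ln_add (V : CC) (i : Fin 3) (s t : ℤ) : Ln (Ln V i t) i s = Ln V i (s + t) := by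
  unfold Ln
  rw [pot_add, TripA_lp_add]

theorem Ln_zero (V : CC) (i : Fin 3) : Ln V i 0 = V := by
  unfold Ln
  have h : lp i 0 = 0 := by
    funext x
    simp [lp]
  rw [h, pot_zero]

theorem TripA_PrC (i j : Fin 3) (hj : j ≠ i) (b : Bool) : PrC j (i, b) = false := by
  simp [PrC, Ne.symm hj]

theorem TripA_dec (i j u v : Fin 3) (hj : j ≠ i) (hu : u ≠ i) (hv : v ≠ i) (h : u ≠ v) :
    (u = j ∧ v ≠ j) ∨ (u ≠ j ∧ v = j) := by
  revert i j u v
  decide

theorem Ln_cap (V : CC) (i : Fin 3) (t : ℤ) {j : Fin 3} (hj : j ≠ i) :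
    capC (Ln V i t) (PrC j) = capC V (PrC j) := by
  unfold Ln
  rcases WhEff_cases i V with ⟨k, rfl⟩ | ⟨s, -, hs, rfl⟩
  · rw [act_pot_pow]
  · have hs' := SValid_shift i (lp i t) s hs
    rw [act_pot _ _ _ hs.1, capC_cls hs'.2, capC_cls hs.2,
      cap_expand_nonsep i _ hs'.1 (PrC j) (TripA_PrC i j hj _) (TripA_PrC i j hj _),
      cap_expand_nonsep i _ hs.1 (PrC j) (TripA_PrC i j hj _) (TripA_PrC i j hj _)]
    rw [cyc_shift (fun q y => if q.2 = 0 then (if PrC j q.1 = PrC j (bar y) then 0 else 1) else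
        (if PrC j q.1 then 1 else 0) + (if PrC j (bar y) then 1 else 0)) (lp i t) s]
    apply WhEff_cyc_congr
    intro q hq r hr
    have h1 := hs.1 q hq
    have h2 := hs.1 r hr
    have hk : q.1.1 = r.1.1 → q.2 + lp i t q.1 - lp i t (bar r.1) = q.2 := by
      intro h
      have e : lp i t q.1 = lp i t (bar r.1) := by
        show (if q.1.1 = i + 1 then t else 0) = (if r.1.1 = i + 1 then t else 0)
        rw [h]
      rw [e]
      ring
    show (if q.2 + lp i t q.1 - lp i t (bar r.1) = 0 then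
      (if PrC j q.1 = PrC j (bar r.1) then 0 else 1) else
        (if PrC j q.1 then 1 else 0) + (if PrC j (bar r.1) then 1 else 0)) =
      (if q.2 = 0 then
      (if PrC j q.1 = PrC j (bar r.1) then 0 else 1) else
        (if PrC j q.1 then 1 else 0) + (if PrC j (bar r.1) then 1 else 0))
    by_cases h3 : q.1.1 = r.1.1
    · rw [hk h3]
    · rcases TripA_dec i j q.1.1 r.1.1 hj h1 h2 h3 with ⟨h5, h6⟩ | ⟨h5, h6⟩
      · simp [PrC, h5, h6]
      · simp [PrC, h5, h6]

/-- the number of cross pairs with exponent `0` -/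
def TripA_X0 : (Fin 3 × Bool) × ℤ → (Fin 3 × Bool) × ℤ → ℕ :=
  fun q r => if q.1.1 ≠ r.1.1 ∧ q.2 = 0 then 1 else 0

/-- the number of cross pairs and of parallel pairs with nonzero exponent -/
def TripA_Y : (Fin 3 × Bool) × ℤ → (Fin 3 × Bool) × ℤ → ℕ :=
  fun q r => if q.1.1 ≠ r.1.1 ∨ q.2 ≠ 0 then 1 else 0

theorem TripA_term (i u v : Fin 3) (k : ℤ) (hu : u ≠ i) (hv : v ≠ i) :
    ((if k = 0 then (if decide (u = i + 1) = decide (v = i + 1) then 0 else 1) else
        (if decide (u = i + 1) = true then 1 else 0) +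
          (if decide (v = i + 1) = true then 1 else 0)) +
      (if k = 0 then (if decide (u = i + 2) = decide (v = i + 2) then 0 else 1) else
        (if decide (u = i + 2) = true then 1 else 0) +
          (if decide (v = i + 2) = true then 1 else 0)) : ℕ) =
      (if u ≠ v ∨ k ≠ 0 then 1 else 0) + (if u ≠ v ∨ k ≠ 0 then 1 else 0) := by
  by_cases hk : k = 0
  · simp only [hk, if_true, ne_eq, not_true_eq_false, or_false]
    revert hu hv
    revert i u v
    decide
  · simp only [hk, if_false, ne_eq, not_false_eq_true, or_true, if_true]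
    revert hu hv
    revert i u v
    decide

theorem TripA_term' (i u v : Fin 3) (k : ℤ) (hu : u ≠ i) (hv : v ≠ i) :
    ((if k = 0 then (if decide (u = i + 1) = decide (v = i + 1) then 0 else 1) else
        (if decide (u = i + 1) = true then 1 else 0) +
          (if decide (v = i + 1) = true then 1 else 0)) +
      (if k = 0 then (if decide (u = i + 2) = decide (v = i + 2) then 0 else 1) else
        (if decide (u = i + 2) = true then 1 else 0) +
          (if decide (v = i + 2) = true then 1 else 0)) : ℕ) =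
      (if k = 0 then (if (!decide (u = i)) = (!decide (v = i)) then 0 else 1) else
        (if (!decide (u = i)) = true then 1 else 0) +
          (if (!decide (v = i)) = true then 1 else 0)) +
      ((if u ≠ v ∧ k = 0 then 1 else 0) + (if u ≠ v ∧ k = 0 then 1 else 0)) := by
  by_cases hk : k = 0
  · simp only [hk, if_true, ne_eq, and_true]
    revert hu hv
    revert i u v
    decide
  · simp only [hk, if_false, ne_eq, and_false]
    revert hu hv
    revert i u v
    decide

theorem TripA_ne1 (i : Fin 3) : i + 1 ≠ i := by revert i; decide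
theorem TripA_ne2 (i : Fin 3) : i + 2 ≠ i := by revert i; decide
theorem TripA_ne12 (i : Fin 3) : i + 1 ≠ i + 2 := by revert i; decide

theorem TripA_forms {l : ℕ} {i : Fin 3} {s : List ((Fin 3 × Bool) × ℤ)} (hs : SValid i s)
    (hT : TP l (cls (expand i s))) : 2 * cyc TripA_X0 s = l ∧ cyc TripA_Y s = l := by
  have h1 := hT (i + 1)
  have h2 := hT (i + 2)
  have h3 := hT i
  rw [capC_cls hs.2, cap_expand_nonsep i _ hs.1 (PrC (i + 1)) (TripA_PrC i _ (TripA_ne1 i) _)
    (TripA_PrC i _ (TripA_ne1 i) _)] at h1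
  rw [capC_cls hs.2, cap_expand_nonsep i _ hs.1 (PrC (i + 2)) (TripA_PrC i _ (TripA_ne2 i) _)
    (TripA_PrC i _ (TripA_ne2 i) _)] at h2
  rw [← capC_compl, capC_cls hs.2, cap_expand_nonsep i _ hs.1 (fun x => !PrC i x)
    (by simp [PrC]) (by simp [PrC])] at h3
  have e1 := cyc_add (fun q r : (Fin 3 × Bool) × ℤ => if q.2 = 0 then
      (if PrC (i + 1) q.1 = PrC (i + 1) (bar r.1) then 0 else 1) else
        (if PrC (i + 1) q.1 then 1 else 0) + (if PrC (i + 1) (bar r.1) then 1 else 0))
      (fun q r : (Fin 3 × Bool) × ℤ => if q.2 = 0 then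
      (if PrC (i + 2) q.1 = PrC (i + 2) (bar r.1) then 0 else 1) else
        (if PrC (i + 2) q.1 then 1 else 0) + (if PrC (i + 2) (bar r.1) then 1 else 0)) s
  rw [h1, h2] at e1
  have e2 : cyc (fun q r => TripA_Y q r + TripA_Y q r) s = l + l := by
    rw [← e1]
    apply WhEff_cyc_congr
    intro q hq r hr
    simp only [PrC, bar_fst, TripA_Y]
    exact (TripA_term i q.1.1 r.1.1 q.2 (hs.1 q hq) (hs.1 r hr)).symm
  have e3 : cyc (fun q r : (Fin 3 × Bool) × ℤ => (if q.2 = 0 then
      (if (!PrC i q.1) = (!PrC i (bar r.1)) then 0 else 1) else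
        (if (!PrC i q.1) = true then 1 else 0) + (if (!PrC i (bar r.1)) = true then 1 else 0)) +
        (TripA_X0 q r + TripA_X0 q r)) s = l + l := by
    rw [← e1]
    apply WhEff_cyc_congr
    intro q hq r hr
    simp only [PrC, bar_fst, TripA_X0]
    exact (TripA_term' i q.1.1 r.1.1 q.2 (hs.1 q hq) (hs.1 r hr)).symm
  rw [cyc_add] at e2
  rw [cyc_add, cyc_add, h3] at e3
  omega

/-- cross pairs with exponent zero after the shift -/
def TripA_Z (i : Fin 3) (t : ℤ) : (Fin 3 × Bool) × ℤ → (Fin 3 × Bool) × ℤ → ℕ :=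
  fun q r => if (q.1.1 = i + 1 ∧ r.1.1 = i + 2 ∧ q.2 = -t) ∨
    (q.1.1 = i + 2 ∧ r.1.1 = i + 1 ∧ q.2 = t) then 1 else 0

theorem TripA_cases {i u : Fin 3} (hu : u ≠ i) : u = i + 1 ∨ u = i + 2 := by
  revert i u; decide

theorem TripA_forms' {l : ℕ} {i : Fin 3} {t : ℤ} {s : List ((Fin 3 × Bool) × ℤ)}
    (hs : SValid i s) (hT : TP l (Ln (cls (expand i s)) i t)) :
    2 * cyc (TripA_Z i t) s = l := by
  unfold Ln at hT
  rw [act_pot _ _ _ hs.1] at hT
  have h1 := (TripA_forms (SValid_shift i (lp i t) s hs) hT).1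
  rw [← h1]
  congr 1
  have h2 := cyc_shift (fun (q : (Fin 3 × Bool) × ℤ) (y : Fin 3 × Bool) =>
    if q.1.1 ≠ y.1 ∧ q.2 = 0 then 1 else 0) (lp i t) s
  refine Eq.trans ?_ h2.symm
  apply WhEff_cyc_congr
  intro q hq r hr
  have h12 := TripA_ne12 i
  show (if (q.1.1 = i + 1 ∧ r.1.1 = i + 2 ∧ q.2 = -t) ∨
    (q.1.1 = i + 2 ∧ r.1.1 = i + 1 ∧ q.2 = t) then 1 else 0) =
    (if q.1.1 ≠ r.1.1 ∧ q.2 + lp i t q.1 - lp i t (bar r.1) = 0 then 1 else 0)
  rcases TripA_cases (hs.1 q hq) with h3 | h3 <;> rcases TripA_cases (hs.1 r hr) with h4 | h4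
  · simp [h3, h4, h12]
  · have e1 : lp i t q.1 = t := by simp [lp, h3]
    have e2 : lp i t (bar r.1) = 0 := by simp [lp, h4]
    rw [e1, e2, h3, h4]
    simp only [h12, h12.symm, ne_eq, not_false_eq_true, true_and, false_and, or_false]
    congr 1
    apply propext
    constructor <;> intro h <;> omega
  · have e1 : lp i t q.1 = 0 := by simp [lp, h3]
    have e2 : lp i t (bar r.1) = t := by simp [lp, h4]
    rw [e1, e2, h3, h4]
    simp only [h12, h12.symm, ne_eq, not_false_eq_true, true_and, false_and, false_or]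
    congr 1
    apply propext
    constructor <;> intro h <;> omega
  · simp [h3, h4, h12.symm]

theorem trip_loc {V : CC} {l : ℕ} (hT : TP l V) {i : Fin 3} {t : ℤ} (ht : t ≠ 0)
    (hT' : TP l (Ln V i t)) {s : List ((Fin 3 × Bool) × ℤ)} (hs : SValid i s) (hs' : s ≠ [])
    (hV : cls (expand i s) = V) :
    cyc (fun q r => if q.2 = 0 ∨ (q.1.1 = i + 1 ∧ r.1.1 = i + 2 ∧ q.2 = -t) ∨
      (q.1.1 = i + 2 ∧ r.1.1 = i + 1 ∧ q.2 = t) then 0 else 1) s = 0 := by
  subst hV
  have h1 := TripA_forms hs hT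
  have h2 := TripA_forms' hs hT'
  have h3 : cyc (fun q r => (if q.2 = 0 ∨ (q.1.1 = i + 1 ∧ r.1.1 = i + 2 ∧ q.2 = -t) ∨
      (q.1.1 = i + 2 ∧ r.1.1 = i + 1 ∧ q.2 = t) then 0 else 1) +
      (TripA_X0 q r + TripA_Z i t q r)) s = cyc TripA_Y s := by
    apply WhEff_cyc_congr
    intro q hq r hr
    simp only [TripA_X0, TripA_Z, TripA_Y]
    have h12 := TripA_ne12 i
    rcases TripA_cases (hs.1 q hq) with h3 | h3 <;> rcases TripA_cases (hs.1 r hr) with h4 | h4
    · rw [h3, h4]
      simp only [h12, h12.symm, ne_eq, not_true_eq_false, false_and, and_false, false_or, or_false,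
        if_false, add_zero]
      by_cases h5 : q.2 = 0 <;> simp [h5]
    · rw [h3, h4]
      simp only [h12, h12.symm, ne_eq, not_false_eq_true, true_and, false_and, or_false,
        true_or, if_true]
      by_cases h5 : q.2 = 0
      · have h6 : ¬ q.2 = -t := by omega
        simp [h5, ht]
      · by_cases h6 : q.2 = -t
        · simp [h6, ht]
        · simp [h5, h6]
    · rw [h3, h4]
      simp only [h12, h12.symm, ne_eq, not_false_eq_true, true_and, false_and, false_or,
        true_or, if_true]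
      by_cases h5 : q.2 = 0
      · have h6 : ¬ q.2 = t := by omega
        simp [h5, ht.symm]
      · by_cases h6 : q.2 = t
        · simp [h6, ht]
        · simp [h5, h6]
    · rw [h3, h4]
      simp only [h12, h12.symm, ne_eq, not_true_eq_false, false_and, and_false, false_or, or_false,
        if_false, add_zero]
      by_cases h5 : q.2 = 0 <;> simp [h5]
  rw [cyc_add, cyc_add] at h3
  omega

theorem TripA_syl {V : CC} {l : ℕ} (hl : 1 ≤ l) (hT : TP l V) (i : Fin 3) :
    ∃ s : List ((Fin 3 × Bool) × ℤ), s ≠ [] ∧ SValid i s ∧ cls (expand i s) = V := by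
  rcases WhEff_cases i V with ⟨k, rfl⟩ | h
  · exfalso
    have h1 := hT i
    rw [capC_cls (CR_zpw _ _), cap_zpw_nonsep i k (PrC i) (by simp [PrC])] at h1
    omega
  · exact h

theorem trip_uniq {V : CC} {l : ℕ} (hl : 1 ≤ l) (hT : TP l V) {i : Fin 3} {t t' : ℤ} (ht : t ≠ 0)
    (ht' : t' ≠ 0) (hT1 : TP l (Ln V i t)) (hT2 : TP l (Ln V i t')) : t = t' := by
  by_contra hne
  obtain ⟨s, hs0, hs, rfl⟩ := TripA_syl hl hT i
  have h1 := TripA_forms' hs hT1
  have h2 := trip_loc hT ht' hT2 hs hs0 rfl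
  have h3 : cyc (TripA_Z i t) s ≤ cyc (fun q r : (Fin 3 × Bool) × ℤ => if q.2 = 0 ∨ (q.1.1 = i + 1 ∧ r.1.1 = i + 2 ∧ q.2 = -t') ∨
      (q.1.1 = i + 2 ∧ r.1.1 = i + 1 ∧ q.2 = t') then 0 else 1) s := by
    apply cyc_mono
    intro q r
    simp only [TripA_Z]
    have h12 := TripA_ne12 i
    split_ifs with h4 h5
    · exfalso
      rcases h4 with ⟨a1, a2, a3⟩ | ⟨a1, a2, a3⟩
      · rcases h5 with b | ⟨b1, b2, b3⟩ | ⟨b1, b2, b3⟩
        · omega
        · omega
        · exact h12 (a1.symm.trans b1)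
      · rcases h5 with b | ⟨b1, b2, b3⟩ | ⟨b1, b2, b3⟩
        · omega
        · exact h12 (b1.symm.trans a1)
        · omega
    · omega
    · omega
    · omega
  omega

theorem trip_ne {V : CC} {l : ℕ} (hl : 1 ≤ l) (hT : TP l V) {i : Fin 3} {t : ℤ} (ht : t ≠ 0) :
    Ln V i t ≠ V := by
  intro h
  have h2 : Ln V i (t + t) = V := by
    rw [← Ln_add, h, h]
  have h3 := trip_uniq hl hT (i := i) ht (t' := t + t) (by omega) (by rw [h]; exact hT)
    (by rw [h2]; exact hT)
  omega

theorem trip_LocW {V : CC} {l : ℕ} (hl : 1 ≤ l) (hT : TP l V) {i : Fin 3} {t : ℤ} (ht : t ≠ 0)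
    (hT' : TP l (Ln V i t)) {w : List (Fin 3 × Bool)} (hw : CR w) (hV : cls w = V) :
    LocW i t w := by
  constructor
  · intro x y q r hwe hx hy hq
    have hred : FreeGroup.IsReduced (y :: r) := by
      have h1 := hw.1
      rw [hwe] at h1
      unfold FreeGroup.IsReduced at h1 ⊢
      exact (List.isChain_append.1 h1).2.1
    obtain ⟨k, s, hs, hs1⟩ := SylA_group i (y :: r) hred
    have hk : k = 0 := by
      by_contra hk
      obtain ⟨n, hn⟩ : ∃ n, k.natAbs = n + 1 := Nat.exists_eq_succ_of_ne_zero (by omega)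
      rw [zpw, hn, List.replicate_succ, List.cons_append] at hs
      have h2 := (List.cons.inj hs).1
      exact hy (by rw [h2])
    subst hk
    have hs2 : y :: r = expand i s := by
      rw [hs]; rfl
    cases s with
    | nil => exact absurd hs2 (by simp [expand])
    | cons a s =>
      have ha : a.1 = y := by
        rw [SylB_expand_cons] at hs2
        exact (List.cons.inj hs2).1.symm
      have hwe2 : w = expand i ((x, q) :: a :: s) := by
        rw [hwe, hs2, SylB_expand_cons i (x, q)]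
        rfl
      have hval : SValid i ((x, q) :: a :: s) := by
        refine ⟨?_, ?_⟩
        · intro b hb
          rcases List.mem_cons.mp hb with rfl | hb
          · exact hx
          · exact hs1 b hb
        · rw [← hwe2]; exact hw
      have h3 := trip_loc hT ht hT' hval (by simp) (by rw [← hwe2]; exact hV)
      simp only [cyc, lin] at h3
      have h4 := (Nat.add_eq_zero_iff.1 h3).1
      rw [ha] at h4
      split_ifs at h4 with h5
      rcases h5 with h5 | h5
      · exact absurd h5 hq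
      · exact h5
  · intro x q hwe hx
    have hwe2 : w = expand i [(x, q)] := by
      rw [hwe, SylB_expand_cons i (x, q)]
      simp [expand]
    have hval : SValid i [(x, q)] := by
      refine ⟨?_, ?_⟩
      · intro b hb
        rw [List.mem_singleton] at hb
        rw [hb]; exact hx
      · rw [← hwe2]; exact hw
    have h3 := trip_loc hT ht hT' hval (by simp) (by rw [← hwe2]; exact hV)
    simp only [cyc, lin] at h3
    have h12 := TripA_ne12 i
    split_ifs at h3 with h5
    rcases h5 with h5 | ⟨b1, b2, b3⟩ | ⟨b1, b2, b3⟩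
    · exact h5
    · exact absurd (b1.symm.trans b2) h12
    · exact absurd (b2.symm.trans b1) h12

end Pool.Agent.Sims
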