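import Pool.Agent.Sims.TripDefs
import Pool.Agent.Sims.Conn

/-!
# Module `TripB` : two structures, the words

Let `j = i + 1`, `k = i + 2` (so `j + 1 = k`, `j + 2 = i`), `t, s ≠ 0`, `D = x_i^t x_j^s`.  `V` is a class with `cnt V k ≥ 1` such that every cyclically reduced word `w` of `V` satisfies `LocW i t w` and
`LocW j s w`.  Then `V` is the class of an element of the subgroup generated by `D` and `x_k`.
Proof.  `w = rep V`, rotated so that it starts with a letter of `x_k`.  Claim (strong induction on the length of `v`): if `v ++ pre` is a rotation of `w`, `pre ≠ []` starts with a letter of `x_k`, and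
(`pre` ends with a letter of `x_k`, or `v = []`, or `v` starts with a letter of `x_k`), then `mk v ∈ closure {D, x_k}`.
`v = []`: clear.  `v = y :: v'` with `y.1 = k`: apply the induction hypothesis to `v'`, `pre ++ [y]`.
Otherwise `pre` ends with a letter `x`, `x.1 = k`.
- `y.1 = i`: `v = zpw i q ++ v''`, `q ≠ 0`, `v''` empty or starting with a letter of another generator.  The rotation `x :: (zpw i q ++ (v'' ++ pre.dropLast))` of `w`: if `v'' ++ pre.dropLast` is empty then
  `LocW i` gives `q = 0`, contradiction; otherwise the next letter is (as `x.1 = k = i+2`) of the generator `i + 1 = j`, `q = t`; so `v'' ≠ []` (the first letter of `pre` has generator `k`), `v'' = zpw j q' ++ v4`,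
  `q' ≠ 0`, `v4` empty or starting with another generator.  The letter before this block is of generator `i = j + 2`; `LocW j s` for the rotation starting there: the next letter (the first one of `v4 ++ pre`) has generator
  `j + 1 = k`, `q' = s`.  So `v = zpw i t ++ zpw j s ++ v4`, `mk v = D * mk v4`, and the induction hypothesis applies to `v4`, `pre ++ zpw i t ++ zpw j s`.
- `y.1 = j`: similarly `v = zpw j q ++ zpw i q' ++ v4` with (`x.1 = k = j + 1`) `q = -s`, the next generator is `j + 2 = i`, and then (`x.1 = j = i + 1`) `q' = -t`, the next generator is `i + 2 = k`: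
  `mk v = D⁻¹ * mk v4`.
(`SylA_group`, `zpw`, `mk_zpw`; to split off a maximal block use `List.takeWhile` or `SylA_group`.)
Difficulty 3.
-/

namespace Pool.Agent.Sims

open FreeGroup (of)

/-- `w` is a cyclically reduced word of the class `V` -/
def TripB_Rot (V : CC) (w : List (Fin 3 × Bool)) : Prop := CR w ∧ cls w = V

theorem TripB_rot {V : CC} {a b : List (Fin 3 × Bool)} (h : TripB_Rot V (a ++ b)) :
    TripB_Rot V (b ++ a) := by
  refine ⟨CR_of_rotated List.isRotated_append h.1, ?_⟩
  rw [cls_append_comm]
  exact h.2

theorem TripB_fin1 : ∀ a i : Fin 3, a ≠ i + 2 → a = i ∨ a = i + 1 := by decide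
theorem TripB_fin2 : ∀ i : Fin 3, i + 2 ≠ i + 1 := by decide
theorem TripB_fin3 : ∀ i : Fin 3, i + 2 ≠ i := by decide
theorem TripB_fin4 : ∀ i : Fin 3, i + 1 ≠ i := by decide
theorem TripB_fin5 : ∀ i : Fin 3, i + 1 + 1 = i + 2 := by decide
theorem TripB_fin6 : ∀ i : Fin 3, i + 1 + 2 = i := by decide

theorem TripB_block {i : Fin 3} {v v' : List (Fin 3 × Bool)} {y : Fin 3 × Bool}
    (hr : FreeGroup.IsReduced v) (hv : v = y :: v') (hy : y.1 = i) :
    ∃ (q : ℤ) (v2 : List (Fin 3 × Bool)), q ≠ 0 ∧ v = zpw i q ++ v2 ∧
      (∀ z r, v2 = z :: r → z.1 ≠ i) := by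
  obtain ⟨q, s, hs, hq⟩ := SylA_group i v hr
  have hst : ∀ z r, expand i s = z :: r → z.1 ≠ i := by
    intro z r hz
    cases s with
    | nil => simp [expand] at hz
    | cons p s' =>
      simp only [expand, List.flatMap_cons, List.cons_append, List.cons.injEq] at hz
      rw [← hz.1]
      exact hq p List.mem_cons_self
  refine ⟨q, expand i s, ?_, hs, hst⟩
  intro h0
  subst h0
  have h1 : v = expand i s := by
    rw [hs]
    simp [zpw]
  exact hst y v' (by rw [← h1, hv]) hy

theorem TripB_last {i : Fin 3} {q : ℤ} (hq : q ≠ 0) :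
    ∃ z1 u, zpw i q = z1 ++ [u] ∧ u.1 = i := by
  have h : q.natAbs = (q.natAbs - 1) + 1 := by omega
  refine ⟨List.replicate (q.natAbs - 1) (i, decide (0 ≤ q)), (i, decide (0 ≤ q)), ?_, rfl⟩
  rw [zpw]
  conv_lhs => rw [h]
  rw [List.replicate_succ']

theorem TripB_step {i : Fin 3} {t q : ℤ} {x : Fin 3 × Bool} {u : List (Fin 3 × Bool)}
    (hL : LocW i t (x :: (zpw i q ++ u))) (hx : x.1 ≠ i) (hq : q ≠ 0)
    (hu : ∀ z r, u = z :: r → z.1 ≠ i) :
    ∃ y r, u = y :: r ∧ ((x.1 = i + 1 ∧ y.1 = i + 2 ∧ q = -t) ∨
      (x.1 = i + 2 ∧ y.1 = i + 1 ∧ q = t)) := by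
  cases u with
  | nil =>
    exfalso
    exact hq (hL.2 x q (by rw [List.append_nil]) hx)
  | cons y r =>
    exact ⟨y, r, rfl, hL.1 x y q r (by rw [List.cons_append]) hx (hu y r rfl) hq⟩

theorem TripB_lett {g : FreeGroup (Fin 3)} {k : Fin 3} {y : Fin 3 × Bool} (hy : y.1 = k) :
    lett y ∈ Subgroup.closure {g, of k} := by
  have h1 : of k ∈ Subgroup.closure {g, of k} :=
    Subgroup.subset_closure (Or.inr rfl)
  rcases y with ⟨a, b⟩
  simp only at hy
  subst hy
  cases b with
  | true => rw [lett_true]; exact h1
  | false => rw [lett_false]; exact Subgroup.inv_mem _ h1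

theorem TripB_cons (y : Fin 3 × Bool) (v : List (Fin 3 × Bool)) :
    (FreeGroup.mk (y :: v) : FreeGroup (Fin 3)) = lett y * FreeGroup.mk v := by
  rw [lett, FreeGroup.mul_mk]
  rfl

theorem TripB_main {V : CC} {i : Fin 3} {t s : ℤ}
    (h1 : ∀ w, CR w → cls w = V → LocW i t w)
    (h2 : ∀ w, CR w → cls w = V → LocW (i + 1) s w) :
    ∀ (n : ℕ) (v pre : List (Fin 3 × Bool)), v.length ≤ n → TripB_Rot V (v ++ pre) →
      (∃ p0 pr, pre = p0 :: pr ∧ p0.1 = i + 2) →
      (v = [] ∨ (∃ y r, v = y :: r ∧ y.1 = i + 2) ∨ (∃ pr x, pre = pr ++ [x] ∧ x.1 = i + 2)) →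
      (FreeGroup.mk v : FreeGroup (Fin 3)) ∈
        Subgroup.closure {of i ^ t * of (i + 1) ^ s, of (i + 2)} := by
  have hnil : (FreeGroup.mk [] : FreeGroup (Fin 3)) ∈
        Subgroup.closure {of i ^ t * of (i + 1) ^ s, of (i + 2)} := by
    have : (FreeGroup.mk [] : FreeGroup (Fin 3)) = 1 := rfl
    rw [this]
    exact Subgroup.one_mem _
  have hD : of i ^ t * of (i + 1) ^ s ∈
        Subgroup.closure {of i ^ t * of (i + 1) ^ s, of (i + 2)} :=
    Subgroup.subset_closure (Or.inl rfl)
  intro n
  induction n with
  | zero =>
    intro v pre hn _ _ _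
    have : v = [] := List.length_eq_zero_iff.mp (Nat.le_zero.mp hn)
    rw [this]
    exact hnil
  | succ n ih =>
    intro v pre hn hR hpre hcond
    obtain ⟨p0, pr0, hpre0, hp0⟩ := hpre
    cases v with
    | nil => exact hnil
    | cons y v' =>
      by_cases hyk : y.1 = i + 2
      · rw [TripB_cons]
        refine Subgroup.mul_mem _ (TripB_lett hyk) ?_
        refine ih v' (pre ++ [y]) (by simpa using hn) ?_ ?_ ?_
        · have h3 : TripB_Rot V ([y] ++ (v' ++ pre)) := by simpa using hR
          have h4 := TripB_rot h3
          simpa using h4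
        · exact ⟨p0, pr0 ++ [y], by rw [hpre0]; rfl, hp0⟩
        · exact Or.inr (Or.inr ⟨pre, y, rfl, hyk⟩)
      · -- the last letter of pre
        have hlast : ∃ pr x, pre = pr ++ [x] ∧ x.1 = i + 2 := by
          rcases hcond with h | ⟨y', r, h, hy'⟩ | h
          · exact absurd h (by simp)
          · rw [List.cons.injEq] at h
            rw [← h.1] at hy'
            exact absurd hy' hyk
          · exact h
        obtain ⟨pr, x, hprx, hx⟩ := hlast
        have hred : FreeGroup.IsReduced (y :: v') :=
          red_mid hR.1.1 ⟨[], pre, by simp⟩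
        have hprhead : ∀ z r, pr = z :: r → z.1 = i + 2 := by
          intro z r hz
          rw [hprx, hz] at hpre0
          simp only [List.cons_append, List.cons.injEq] at hpre0
          rw [hpre0.1]
          exact hp0
        -- generic two block step
        have key : ∀ (a b : Fin 3) (ta sb : ℤ), y.1 = a → (a = i ∨ a = i + 1) →
            (b = i ∨ b = i + 1) → a ≠ b →
            (∀ w, CR w → cls w = V → LocW a ta w) → (∀ w, CR w → cls w = V → LocW b sb w) →
            ∃ (q q' : ℤ) (v4 : List (Fin 3 × Bool)), q ≠ 0 ∧ q' ≠ 0 ∧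
              y :: v' = zpw a q ++ (zpw b q' ++ v4) ∧
              ((x.1 = a + 1 ∧ b = a + 2 ∧ q = -ta) ∨ (x.1 = a + 2 ∧ b = a + 1 ∧ q = ta)) ∧
              ∃ (y' : Fin 3 × Bool) (r : List (Fin 3 × Bool)), v4 ++ pre = y' :: r ∧
                ((a = b + 1 ∧ y'.1 = b + 2 ∧ q' = -sb) ∨ (a = b + 2 ∧ y'.1 = b + 1 ∧ q' = sb)) := by
          intro a b ta sb hya ha hb hab hLa hLb
          have hak : i + 2 ≠ a := by
            rcases ha with rfl | rfl
            · exact TripB_fin3 _
            · exact TripB_fin2 _
          have hbk : i + 2 ≠ b := by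
            rcases hb with rfl | rfl
            · exact TripB_fin3 _
            · exact TripB_fin2 _
          obtain ⟨q, v2, hq, hv2, hv2h⟩ := TripB_block hred rfl hya
          have hR2 : TripB_Rot V (x :: (zpw a q ++ (v2 ++ pr))) := by
            have h3 : TripB_Rot V ((zpw a q ++ (v2 ++ pr)) ++ [x]) := by
              rw [hv2, hprx] at hR
              simpa [List.append_assoc] using hR
            have h4 := TripB_rot h3
            simpa using h4
          have hxa : x.1 ≠ a := by rw [hx]; exact hak
          obtain ⟨y', r, hy'r, halt⟩ := TripB_step (hLa _ hR2.1 hR2.2) hxa hq (by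
            intro z r hz
            cases v2 with
            | nil =>
              rw [List.nil_append] at hz
              rw [hprhead z r hz]
              exact hak
            | cons z' v3 =>
              simp only [List.cons_append, List.cons.injEq] at hz
              rw [← hz.1]
              exact hv2h z' v3 rfl)
          have hy'b : y'.1 = b := by
            have e1 : y'.1 ≠ x.1 := by
              rcases halt with ⟨e1, e2, _⟩ | ⟨e1, e2, _⟩
              · rw [e1, e2]; exact TripB_fin2 _
              · rw [e1, e2]; exact (TripB_fin2 _).symm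
            have e2 : y'.1 ≠ a := by
              rcases halt with ⟨_, e2, _⟩ | ⟨_, e2, _⟩
              · rw [e2]; exact TripB_fin3 _
              · rw [e2]; exact TripB_fin4 _
            rw [hx] at e1
            rcases TripB_fin1 y'.1 i e1 with e | e
            · rcases ha with e3 | e3
              · exact absurd (e.trans e3.symm) e2
              · rcases hb with e4 | e4
                · rw [e, e4]
                · exact absurd (e3.trans e4.symm) hab
            · rcases ha with e3 | e3
              · rcases hb with e4 | e4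
                · exact absurd (e3.trans e4.symm) hab
                · rw [e, e4]
              · exact absurd (e.trans e3.symm) e2
          cases v2 with
          | nil =>
            exfalso
            rw [List.nil_append] at hy'r
            have := hprhead y' r hy'r
            rw [hy'b] at this
            exact hbk this.symm
          | cons z' v3 =>
            simp only [List.cons_append, List.cons.injEq] at hy'r
            have hz'b : z'.1 = b := by rw [hy'r.1]; exact hy'b
            have hred2 : FreeGroup.IsReduced (z' :: v3) :=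
              red_mid hred ⟨zpw a q, [], by rw [List.append_nil]; exact hv2.symm⟩
            obtain ⟨q', v4, hq', hv4, hv4h⟩ := TripB_block hred2 rfl hz'b
            obtain ⟨z1, u, hzu, hu⟩ := TripB_last (i := a) hq
            have hR3 : TripB_Rot V (u :: (zpw b q' ++ (v4 ++ pre ++ z1))) := by
              have h3 : TripB_Rot V (z1 ++ (u :: (zpw b q' ++ (v4 ++ pre)))) := by
                rw [hv2, hv4, hzu] at hR
                simpa [List.append_assoc] using hR
              have h4 := TripB_rot h3
              simpa [List.append_assoc] using h4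
            have hub : u.1 ≠ b := by rw [hu]; exact hab
            obtain ⟨y2, r2, hy2, halt2⟩ := TripB_step (hLb _ hR3.1 hR3.2) hub hq' (by
              intro z r hz
              cases v4 with
              | nil =>
                rw [List.nil_append, hpre0] at hz
                simp only [List.cons_append, List.cons.injEq] at hz
                rw [← hz.1, hp0]
                exact hbk
              | cons z'' v5 =>
                simp only [List.cons_append, List.cons.injEq] at hz
                rw [← hz.1]
                exact hv4h z'' v5 rfl)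
            refine ⟨q, q', v4, hq, hq', by rw [hv2, hv4], ?_, ?_⟩
            · rw [hy'b] at halt
              exact halt
            · have h5 : ∃ r3, v4 ++ pre = y2 :: r3 := by
                cases v4 with
                | nil =>
                  rw [List.nil_append, hpre0] at hy2 ⊢
                  simp only [List.cons_append, List.cons.injEq] at hy2
                  exact ⟨pr0, by rw [hy2.1]⟩
                | cons z'' v5 =>
                  simp only [List.cons_append, List.cons.injEq] at hy2
                  exact ⟨v5 ++ pre, by rw [List.cons_append, hy2.1]⟩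
              obtain ⟨r3, h5⟩ := h5
              refine ⟨y2, r3, h5, ?_⟩
              rw [hu] at halt2
              exact halt2
        -- the tail
        have tail : ∀ (a b : Fin 3) (q q' : ℤ) (v4 : List (Fin 3 × Bool)) (y' : Fin 3 × Bool)
            (r : List (Fin 3 × Bool)), q ≠ 0 →
            y :: v' = zpw a q ++ (zpw b q' ++ v4) → v4 ++ pre = y' :: r → y'.1 = i + 2 →
            (FreeGroup.mk v4 : FreeGroup (Fin 3)) ∈
              Subgroup.closure {of i ^ t * of (i + 1) ^ s, of (i + 2)} := by
          intro a b q q' v4 y' r hq hv hy'r hy'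
          refine ih v4 (pre ++ (zpw a q ++ zpw b q')) ?_ ?_ ?_ ?_
          · have hl := congrArg List.length hv
            have hz : 1 ≤ (zpw a q).length := by
              rw [zpw, List.length_replicate]
              omega
            simp only [List.length_cons, List.length_append] at hl hn
            omega
          · have h3 : TripB_Rot V ((zpw a q ++ zpw b q') ++ (v4 ++ pre)) := by
              rw [hv] at hR
              simpa [List.append_assoc] using hR
            have h4 := TripB_rot h3
            simpa [List.append_assoc] using h4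
          · exact ⟨p0, pr0 ++ (zpw a q ++ zpw b q'), by rw [hpre0]; rfl, hp0⟩
          · cases v4 with
            | nil => exact Or.inl rfl
            | cons z v5 =>
              refine Or.inr (Or.inl ⟨z, v5, rfl, ?_⟩)
              simp only [List.cons_append, List.cons.injEq] at hy'r
              rw [hy'r.1]
              exact hy'
        rcases TripB_fin1 y.1 i hyk with hyi | hyi
        · obtain ⟨q, q', v4, hq, hq', hv, halt, y', r, hy'r, halt2⟩ :=
            key i (i + 1) t s hyi (Or.inl rfl) (Or.inr rfl) (TripB_fin4 i).symm h1 h2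
          have eq : q = t := by
            rcases halt with ⟨e, _, _⟩ | ⟨_, _, e⟩
            · exact absurd (hx.symm.trans e) (TripB_fin2 i)
            · exact e
          have eq' : y'.1 = i + 2 ∧ q' = s := by
            rcases halt2 with ⟨e, _, _⟩ | ⟨_, e1, e2⟩
            · rw [TripB_fin5] at e
              exact absurd e.symm (TripB_fin3 i)
            · rw [TripB_fin5] at e1
              exact ⟨e1, e2⟩
          have ht4 := tail i (i + 1) q q' v4 y' r hq hv hy'r eq'.1
          rw [hv, ← FreeGroup.mul_mk, ← FreeGroup.mul_mk, mk_zpw, mk_zpw, eq, eq'.2, ← mul_assoc]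
          exact Subgroup.mul_mem _ hD ht4
        · obtain ⟨q, q', v4, hq, hq', hv, halt, y', r, hy'r, halt2⟩ :=
            key (i + 1) i s t hyi (Or.inr rfl) (Or.inl rfl) (TripB_fin4 i) h2 h1
          have eq : q = -s := by
            rcases halt with ⟨_, _, e⟩ | ⟨e, _, _⟩
            · exact e
            · rw [TripB_fin6] at e
              exact absurd (hx.symm.trans e) (TripB_fin3 i)
          have eq' : y'.1 = i + 2 ∧ q' = -t := by
            rcases halt2 with ⟨_, e1, e2⟩ | ⟨e, _, _⟩
            · exact ⟨e1, e2⟩
            · exact absurd e.symm (TripB_fin2 i)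
          have ht4 := tail (i + 1) i q q' v4 y' r hq hv hy'r eq'.1
          have hmk : (FreeGroup.mk (y :: v') : FreeGroup (Fin 3))
              = (of i ^ t * of (i + 1) ^ s)⁻¹ * FreeGroup.mk v4 := by
            rw [hv, ← FreeGroup.mul_mk, ← FreeGroup.mul_mk, mk_zpw, mk_zpw, eq, eq'.2]
            group
          rw [hmk]
          exact Subgroup.mul_mem _ (Subgroup.inv_mem _ hD) ht4

theorem trip_closure {V : CC} {i : Fin 3} {t s : ℤ} (ht : t ≠ 0) (hs : s ≠ 0)
    (hk : 1 ≤ cnt V (i + 2)) (h1 : ∀ w, CR w → cls w = V → LocW i t w)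
    (h2 : ∀ w, CR w → cls w = V → LocW (i + 1) s w) :
    ∃ g ∈ Subgroup.closure {of i ^ t * of (i + 1) ^ s, of (i + 2)},
      V = ConjClasses.mk g := by
  have h3 : 0 < (rep V).countP (fun x => decide (x.1 = i + 2)) := hk
  rw [List.countP_pos_iff] at h3
  obtain ⟨x, hx, hxi⟩ := h3
  have hxk : x.1 = i + 2 := of_decide_eq_true hxi
  obtain ⟨a, b, hab⟩ := List.append_of_mem hx
  have hR : TripB_Rot V (a ++ x :: b) := by
    rw [← hab]
    exact ⟨rep_CR V, cls_rep V⟩
  have hR2 : TripB_Rot V ((x :: b) ++ a) := TripB_rot hR
  have hR3 : TripB_Rot V ((b ++ a) ++ [x]) := by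
    have h4 : TripB_Rot V ([x] ++ (b ++ a)) := by simpa using hR2
    exact TripB_rot h4
  have hm := TripB_main h1 h2 (b ++ a).length (b ++ a) [x] le_rfl hR3 ⟨x, [], rfl, hxk⟩
    (Or.inr (Or.inr ⟨[], x, rfl, hxk⟩))
  refine ⟨FreeGroup.mk (x :: (b ++ a)), ?_, ?_⟩
  · rw [TripB_cons]
    exact Subgroup.mul_mem _ (TripB_lett hxk) hm
  · rw [← hR2.2]
    rfl

end Pool.Agent.Sims
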