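import Pool.Agent.Sims.TripA
import Pool.Agent.Sims.TripB

/-!
# Module `TripC` : the second tripods on different lines coincide

`j = i + 1`, `k = i + 2`.  `trip_LocW` for `(i, t)` and `(j, s)`; `trip_closure`: `V` is the class of `g` in the subgroup generated by `D = x_i^t x_j^s` and `x_k`.
`φ = pot i (lp i t)`: `x_i ↦ x_i`, `x_j ↦ x_i^{-t} x_j x_i^t`, `x_k ↦ x_k`; `D ↦ x_i^t x_i^{-t} x_j^s x_i^t = x_j^s x_i^t`.
`ψ = pot j (lp j s)`: `x_j ↦ x_j`, `x_k ↦ x_j^{-s} x_k x_j^s`, `x_i ↦ x_i`; `D ↦ D`.  `x_j^s ψ(·) x_j^{-s}`: `D ↦ x_j^s x_i^t`, `x_k ↦ x_k`.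
The two homomorphisms `φ` and `x_j^s ψ(·) x_j^{-s}` agree on the subgroup (`Subgroup.closure_induction`), so `act φ V = act ψ V`.
Difficulty 2.
-/

namespace Pool.Agent.Sims

open FreeGroup (of)

theorem TripC_eq (i : Fin 3) (t s : ℤ) (g : FreeGroup (Fin 3))
    (hg : g ∈ Subgroup.closure {of i ^ t * of (i + 1) ^ s, of (i + 2)}) :
    pot i (lp i t) g = of (i + 1) ^ s * pot (i + 1) (lp (i + 1) s) g * (of (i + 1) ^ s)⁻¹ := by
  have n1 : i + 1 ≠ i := by fin_cases i <;> decide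
  have n2 : i + 2 ≠ i := by fin_cases i <;> decide
  have n3 : i + 2 ≠ i + 1 := by fin_cases i <;> decide
  have n4 : i ≠ i + 1 := n1.symm
  have n5 : i + 2 = i + 1 + 1 := by fin_cases i <;> decide
  have n6 : i ≠ i + 1 + 1 := by fin_cases i <;> decide
  have e1 : pot i (lp i t) (of i) = of i := potFun_of_self i _
  have e2 : pot i (lp i t) (of (i + 1)) = of i ^ (-t) * of (i + 1) * of i ^ t := by
    show potFun i (lp i t) (of (i + 1)) = _
    have := potFun_of_ne (lp i t) n1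
    simpa [lp] using this
  have e3 : pot i (lp i t) (of (i + 2)) = of (i + 2) := by
    show potFun i (lp i t) (of (i + 2)) = _
    have := potFun_of_ne (lp i t) n2
    simpa [lp, n3] using this
  have f1 : pot (i + 1) (lp (i + 1) s) (of (i + 1)) = of (i + 1) := potFun_of_self (i + 1) _
  have f2 : pot (i + 1) (lp (i + 1) s) (of (i + 2)) =
      of (i + 1) ^ (-s) * of (i + 2) * of (i + 1) ^ s := by
    show potFun (i + 1) (lp (i + 1) s) (of (i + 2)) = _
    have := potFun_of_ne (lp (i + 1) s) n3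
    simpa [lp, ← n5] using this
  have f3 : pot (i + 1) (lp (i + 1) s) (of i) = of i := by
    show potFun (i + 1) (lp (i + 1) s) (of i) = _
    have := potFun_of_ne (lp (i + 1) s) n4
    simpa [lp, n6] using this
  have hconj : ∀ (x y : FreeGroup (Fin 3)) (n : ℤ), (x⁻¹ * y * x) ^ n = x⁻¹ * y ^ n * x := by
    intro x y n
    have := conj_zpow (i := n) (a := x⁻¹) (b := y)
    simpa using this
  induction hg using Subgroup.closure_induction with
  | mem x hx =>
    rcases hx with rfl | hx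
    · rw [map_mul, map_mul, map_zpow, map_zpow, map_zpow, map_zpow, e1, e2, f1, f3, zpow_neg,
        hconj]
      group
    · rw [Set.mem_singleton_iff] at hx
      subst hx
      rw [e3, f2]
      group
  | one => simp
  | mul x y _ _ hx hy => rw [map_mul, map_mul, hx, hy]; group
  | inv x _ hx => rw [map_inv, map_inv, hx]; group

theorem trip_same {V : CC} {l : ℕ} (hl : 1 ≤ l) (hc : ∀ i, 1 ≤ cnt V i) (hT : TP l V) {i : Fin 3}
    {t s : ℤ} (ht : t ≠ 0) (hs : s ≠ 0) (hT1 : TP l (Ln V i t)) (hT2 : TP l (Ln V (i + 1) s)) :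
    Ln V i t = Ln V (i + 1) s := by
  obtain ⟨g, hg, rfl⟩ := trip_closure ht hs (hc (i + 2))
    (fun w hw hV => trip_LocW hl hT ht hT1 hw hV) (fun w hw hV => trip_LocW hl hT hs hT2 hw hV)
  show ConjClasses.mk (pot i (lp i t) g) = ConjClasses.mk (pot (i + 1) (lp (i + 1) s) g)
  rw [TripC_eq i t s g hg]
  exact ConjClasses.mk_eq_mk_iff_isConj.2 (isConj_iff.2 ⟨of (i + 1) ^ s, rfl⟩).symm

/-- the same for any two different lines -/
theorem trip_same' {V : CC} {l : ℕ} (hl : 1 ≤ l) (hc : ∀ i, 1 ≤ cnt V i) (hT : TP l V)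
    {i j : Fin 3} (hij : i ≠ j)
    {t s : ℤ} (ht : t ≠ 0) (hs : s ≠ 0) (hT1 : TP l (Ln V i t)) (hT2 : TP l (Ln V j s)) :
    Ln V i t = Ln V j s := by
  have h : j = i + 1 ∨ i = j + 1 := by
    revert hij
    clear hT1 hT2
    revert i j
    decide
  rcases h with rfl | rfl
  · exact trip_same hl hc hT ht hs hT1 hT2
  · exact (trip_same hl hc hT hs ht hT2 hT1).symm

end Pool.Agent.Sims
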