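import Pool.Agent.Sims.Cross
import Pool.Agent.Sims.TripC

/-!
# Module `TripD` : the bound in the tripod case

Let `V` be a tripod.  All classes are in `orb V` with the counts of `V` (`Sm V`), so they are orbit-minimal and `l ≤` all pair capacities (`hm`).
Let `V' = V` if no line through `V` contains a class `Ln V i t` with `t ≠ 0`, `Sm V (Ln V i t)`, `TP l (Ln V i t)`, and `V' = Ln V i₀ t₀` for one such pair otherwise.
`X = {W | Sm V W, ∃ i t, W = Ln V i t ∨ W = Ln V' i t}`.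
* Every tripod `W ∈ X` is `V` or `V'`: `W = Ln V i s`, `s ≠ 0`: if `i = i₀` then `s = t₀` (`trip_uniq`), if `i ≠ i₀`: `trip_same'`.  `W = Ln V' i s`, `s ≠ 0`: `V = Ln V' i₀ (-t₀)` (`Ln_add`, `Ln_zero`) is a tripod, so by
  the same arguments for `V'`: `W = V`.
* `X` is closed under level moves (`ln_move`): for `W = Ln V i t ∈ X` the pair cuts `j ≠ i` have capacity `l` (`Ln_cap`), so a nontrivial level move gives `Ln W z.1 e` with `z.1 = i`: `Ln V i (t + e)`, or `TP l W`: then `W ∈ {V, V'}` and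
  `Ln W z.1 e ∈ X`.  (The image of a level move is in the same orbit with the same counts: `Lv_Sm`.)
* Cardinality: the members `Ln V i t` of `X` for fixed `i` are contained in `{Ln V i t | |t| ≤ 2 cnt V i}`: `line_range` (`Ln V i t = act (pot i (t * ind (PrC (i+1)))) V`) if `Ln V i 1 ≠ V`; otherwise all `Ln V i t` are `V`.
  `∑_i 2 (4 cnt V i + 1) = 8 cycLen V + 6` (`cycLen_eq_sum`; `cnt V' i = cnt V i`).
`Bdd_of_closed`.
Difficulty 2-3.
-/

namespace Pool.Agent.Sims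

theorem TripD_star {V V' : CC} {l : ℕ} (hl : 1 ≤ l) (hc : ∀ j, 1 ≤ cnt V j)
    (hT : TP l V) (hSV' : Sm V V') (hT' : TP l V')
    (hV' : (∃ (i₀ : Fin 3) (t₀ : ℤ), t₀ ≠ 0 ∧ V' = Ln V i₀ t₀) ∨
      (V' = V ∧ ∀ (i : Fin 3) (t : ℤ), t ≠ 0 → Sm V (Ln V i t) → ¬ TP l (Ln V i t)))
    {U : CC} (hU : U = V ∨ U = V') {i : Fin 3} {s : ℤ} (hS : Sm V (Ln U i s))
    (hTs : TP l (Ln U i s)) : Ln U i s = V ∨ Ln U i s = V' := by
  by_cases hs : s = 0
  · rw [hs, Ln_zero]
    exact hU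
  rcases hV' with ⟨i₀, t₀, ht₀, hV'⟩ | ⟨hV', hno⟩
  · have hback : Ln V' i₀ (-t₀) = V := by
      rw [hV', Ln_add, neg_add_cancel, Ln_zero]
    rcases hU with hU | hU
    · right
      rw [hU] at hTs ⊢
      rw [hV'] at hT' ⊢
      by_cases hi : i = i₀
      · subst hi
        rw [trip_uniq hl hT hs ht₀ hTs hT']
      · exact trip_same' hl hc hT hi hs ht₀ hTs hT'
    · left
      rw [hU] at hTs ⊢
      have hT2 : TP l (Ln V' i₀ (-t₀)) := by rw [hback]; exact hT
      have hc' : ∀ j, 1 ≤ cnt V' j := fun j => by rw [hSV'.2 j]; exact hc j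
      by_cases hi : i = i₀
      · subst hi
        rw [trip_uniq hl hT' hs (neg_ne_zero.mpr ht₀) hTs hT2]
        exact hback
      · rw [trip_same' hl hc' hT' hi hs (neg_ne_zero.mpr ht₀) hTs hT2]
        exact hback
  · exfalso
    have hUV : U = V := by
      rcases hU with hU | hU
      · exact hU
      · rw [hU, hV']
    rw [hUV] at hS hTs
    exact hno i s hs hS hTs

theorem TripD_range {V U : CC} {l : ℕ} (hl : 1 ≤ l) (hSU : Sm V U) (hTU : TP l U) {i : Fin 3}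
    {t : ℤ} (hS : Sm V (Ln U i t)) : t.natAbs ≤ 2 * cnt V i := by
  have h1 : (fun x => t * ind (PrC (i + 1)) x) = lp i t := by
    funext x
    unfold ind PrC lp
    by_cases h : x.1 = i + 1
    · simp [h]
    · simp [h]
  have h2 : ind (PrC (i + 1)) = lp i 1 := by
    funext x
    unfold ind PrC lp
    by_cases h : x.1 = i + 1
    · simp [h]
    · simp [h]
  have h3 : act (pot i (ind (PrC (i + 1)))) U ≠ U := by
    rw [h2]
    exact trip_ne hl hTU one_ne_zero
  have h4 : cnt (act (pot i (fun x => t * ind (PrC (i + 1)) x)) U) i ≤ cnt U i := by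
    rw [h1]
    have h5 := hS.2 i
    have h6 := hSU.2 i
    unfold Ln at h5
    rw [h5, h6]
  have h7 := line_range h3 h4
  rw [hSU.2 i] at h7
  exact h7

theorem TripD_card (n : ℕ) : (Finset.Icc (-(2 * (n : ℤ))) (2 * n)).card = 4 * n + 1 := by
  rw [Int.card_Icc]
  omega

theorem trip_bound {V : CC} {l : ℕ} (hO : OMin V) (hl : 1 ≤ l) (hc : ∀ j, l < cnt V j)
    (hm : ∀ W ∈ orb V, ∀ j, l ≤ capC W (PrC j)) (hT : TP l V) :
    Bdd V (8 * cycLen V + 6) := by
  classical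
  have hc1 : ∀ j, 1 ≤ cnt V j := fun j => by have := hc j; omega
  obtain ⟨V', hSV', hT', hV'⟩ : ∃ V', Sm V V' ∧ TP l V' ∧
      ((∃ (i₀ : Fin 3) (t₀ : ℤ), t₀ ≠ 0 ∧ V' = Ln V i₀ t₀) ∨
      (V' = V ∧ ∀ (i : Fin 3) (t : ℤ), t ≠ 0 → Sm V (Ln V i t) → ¬ TP l (Ln V i t))) := by
    by_cases hex : ∃ (i₀ : Fin 3) (t₀ : ℤ), t₀ ≠ 0 ∧ Sm V (Ln V i₀ t₀) ∧ TP l (Ln V i₀ t₀)
    · obtain ⟨i₀, t₀, h1, h2, h3⟩ := hex
      exact ⟨Ln V i₀ t₀, h2, h3, Or.inl ⟨i₀, t₀, h1, rfl⟩⟩
    · push Not at hex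
      exact ⟨V, Sm_refl V, hT, Or.inr ⟨rfl, fun i t ht hS => hex i t ht hS⟩⟩
  have hUall : ∀ U, (U = V ∨ U = V') → Sm V U ∧ TP l U := by
    rintro U (hU | hU)
    · rw [hU]; exact ⟨Sm_refl V, hT⟩
    · rw [hU]; exact ⟨hSV', hT'⟩
  set X : Set CC := {W | Sm V W ∧ ∃ (U : CC) (i : Fin 3) (t : ℤ), (U = V ∨ U = V') ∧
    W = Ln U i t} with hX
  set E' : Finset CC := Finset.univ.biUnion (fun i : Fin 3 =>
    (Finset.Icc (-(2 * (cnt V i : ℤ))) (2 * cnt V i)).image (fun t => Ln V i t) ∪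
    (Finset.Icc (-(2 * (cnt V i : ℤ))) (2 * cnt V i)).image (fun t => Ln V' i t)) with hE'
  have hcard : E'.card ≤ 8 * cycLen V + 6 := by
    have h1 : E'.card ≤ ∑ i : Fin 3, 2 * (4 * cnt V i + 1) := by
      rw [hE']
      refine Finset.card_biUnion_le.trans (Finset.sum_le_sum (fun i _ => ?_))
      refine (Finset.card_union_le _ _).trans ?_
      have h2 := Finset.card_image_le (s := Finset.Icc (-(2 * (cnt V i : ℤ))) (2 * cnt V i))
        (f := fun t => Ln V i t)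
      have h3 := Finset.card_image_le (s := Finset.Icc (-(2 * (cnt V i : ℤ))) (2 * cnt V i))
        (f := fun t => Ln V' i t)
      rw [TripD_card] at h2 h3
      omega
    rw [Fin.sum_univ_three] at h1
    have h2 := cycLen_eq_sum V
    rw [Fin.sum_univ_three] at h2
    omega
  obtain ⟨π, hπ, -, -⟩ := exists_SPerm_one
  refine Bdd_mono (Bdd_of_closed hO X E' ?_ ?_ ?_) hcard
  · intro W hW _
    obtain ⟨hS, U, i, t, hU, rfl⟩ := hW
    have hr := TripD_range hl (hUall U hU).1 (hUall U hU).2 hS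
    have ht : t ∈ Finset.Icc (-(2 * (cnt V i : ℤ))) (2 * cnt V i) := by
      rw [Finset.mem_Icc]
      omega
    rw [hE', Finset.mem_biUnion]
    refine ⟨i, Finset.mem_univ i, ?_⟩
    rw [Finset.mem_union]
    rcases hU with hU | hU
    · left
      rw [hU]
      exact Finset.mem_image_of_mem _ ht
    · right
      rw [hU]
      exact Finset.mem_image_of_mem _ ht
  · refine ⟨π, V, ⟨Sm_refl V, V, 0, 0, Or.inl rfl, (Ln_zero V 0).symm⟩, (hπ V).symm⟩
  · intro W hW _ z A hz hz' hl'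
    obtain ⟨hS, U, i, t, hU, hWU⟩ := hW
    have hLv : Lv W z A := ⟨hz, hz', hl'⟩
    have hOW : OMin W := Sm_OMin hO hS
    have hcW : ∀ j, l < cnt W j := fun j => by rw [hS.2 j]; exact hc j
    have hmW : ∀ j, l ≤ capC W (PrC j) := hm W hS.1
    have hSn : Sm V (act (wh z A) W) := Sm_trans hS (Lv_Sm hLv)
    have hi : ∀ j, j ≠ i → capC W (PrC j) = l := by
      intro j hj
      rw [hWU, Ln_cap U i t hj]
      exact (hUall U hU).2 j
    refine ⟨π, act (wh z A) W, ⟨hSn, ?_⟩, (hπ _).symm⟩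
    rcases ln_move hOW hcW hmW hi hLv with h | ⟨e, _, h, h'⟩
    · rw [h]
      exact ⟨U, i, t, hU, hWU⟩
    · rw [h]
      rcases h' with h' | h'
      · refine ⟨U, i, e + t, hU, ?_⟩
        rw [h', hWU, Ln_add]
      · have hWT : W = V ∨ W = V' := by
          rw [hWU] at hS h' ⊢
          exact TripD_star hl hc1 hT hSV' hT' hV' hU hS h'
        exact ⟨W, z.1, e, hWT, rfl⟩

end Pool.Agent.Sims
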