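import Pool.Agent.Sims.TwDefs

/-!
# Definitions: pair cuts and tripods

* `TP l V` : all three pair cuts have capacity `l`
* `lp i t` : the potential `t` on the letters of `x_{i+1}`;  `Ln V i t = act (pot i (lp i t)) V`
* `LocW i t w` : in the word `w` every maximal block `x_i^q` between two letters of other generators is
  between `x_{i+1}^{±1}` and `x_{i+2}^{±1}` with `q = -t`, or between `x_{i+2}^{±1}` and `x_{i+1}^{±1}` with `q = t`
-/

namespace Pool.Agent.Sims

/-- all pair cuts have capacity `l` -/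
def TP (l : ℕ) (V : CC) : Prop := ∀ i, capC V (PrC i) = l

/-- potential of the line number `i` -/
def lp (i : Fin 3) (t : ℤ) : Fin 3 × Bool → ℤ := fun x => if x.1 = i + 1 then t else 0

/-- the line number `i` through `V` -/
def Ln (V : CC) (i : Fin 3) (t : ℤ) : CC := act (pot i (lp i t)) V

/-- local structure of a word -/
def LocW (i : Fin 3) (t : ℤ) (w : List (Fin 3 × Bool)) : Prop :=
  (∀ (x y : Fin 3 × Bool) (q : ℤ) (r : List (Fin 3 × Bool)), w = x :: zpw i q ++ y :: r →
    x.1 ≠ i → y.1 ≠ i → q ≠ 0 →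
    (x.1 = i + 1 ∧ y.1 = i + 2 ∧ q = -t) ∨ (x.1 = i + 2 ∧ y.1 = i + 1 ∧ q = t)) ∧
  (∀ (x : Fin 3 × Bool) (q : ℤ), w = x :: zpw i q → x.1 ≠ i → q = 0)

end Pool.Agent.Sims
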