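import Pool.Agent.Sims.TwUp
import Pool.Agent.Sims.TwCo

/-!
# Module `TwChain` : one chain of twists

`chain_bound`.  All classes below are in `G`, so they are orbit-minimal (`Sm_OMin`) and have the counts of `c`.
(1) Some `V ∈ G` has `Mv up V V`.  Then `Mv dn V V` (`Mv_rev`).  `Cl V` is closed under all level moves: let `W ∈ Cl V` (`W ∈ G` by `hcl`, induction);
    `z.1 = 0`: `h0`; otherwise `Lv_cases`: `NT` stays in `Cl V`; `Mv up W W'`: `mv_Cl'` (with `V' := W`, `V1 := V`, `V1' := W'`) gives `W' ∈ Cl V`; the same for `dn`;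
    `upB`, `dnB` do not occur.  `Bdd_of_closed` (for `V`, `E = Cl V`) gives `Bdd V B`, and `Bdd_orb`, `Bdd_mono`.
(2) Otherwise no `UpN (K+1) V V'` with `V ∈ G`.  Let `k` be maximal (`≤ K`) such that `UpN k V₀ c` for some `V₀ ∈ G` (`Mv_rev`: it is reached by `dn` moves);
    then `V₀` has no `dn` move (`Mv dn V₀ V'` gives `Mv up V' V₀`, `V' ∈ G`, a longer chain).  Starting from `W₀ = V₀` choose `up` moves
    `W₀, W₁, …, W_l` as long as possible; `UpN l W₀ W_l`, `l ≤ K`, `W_l` has no `up` move.  `E = ⋃ Cl W_i` is closed: if `W ∈ Cl W_i` then `NT` stays in `Cl W_i`;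
    `Mv up W W'`: if `i < l` then `W' ∈ Cl W_{i+1}` (`mv_Cl'`), if `i = l` then `mv_Cl` (with `Cl_symm`) gives an `up` move of `W_l`, a contradiction;
    `Mv dn W W'`: `Mv dn W_i W_{i-1}` if `i > 0`, and a contradiction for `i = 0`.  `E` is contained in a finset with at most `(l+1) B` elements.
    `Bdd_of_closed` for `W₀`, then `Bdd_orb` (`W₀ ∈ orb c`).
`strict_bound`: `K = 2 cnt c 2`; an `upB`, `dnB` move at `V` has a cut separating `x_2` of capacity `cnt V 1 < cnt V 2`, contradicting `OMin.le_cap`;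
   `hK` is `up_self_of_long`.
Difficulty 3.
-/

namespace Pool.Agent.Sims

open FreeGroup (of)

theorem TwChain_mem {G : Set CC}
    (hcl : ∀ V ∈ G, ∀ (z : Fin 3 × Bool) (A : Fin 3 × Bool → Bool), Lv V z A →
      act (wh z A) V ∈ G) {V W : CC} (hV : V ∈ G) (h : W ∈ Cl V) : W ∈ G := by
  have h' : Relation.ReflTransGen NT V W := h
  induction h' with
  | refl => exact hV
  | tail hab hbc ih =>
    obtain ⟨z, A, hL, _, _, rfl⟩ := hbc
    exact hcl _ (ih hab) z A hL

theorem TwChain_mv_mem {G : Set CC}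
    (hcl : ∀ V ∈ G, ∀ (z : Fin 3 × Bool) (A : Fin 3 × Bool → Bool), Lv V z A →
      act (wh z A) V ∈ G) {d : Dir} {V W : CC} (hV : V ∈ G) (h : Mv d V W) : W ∈ G := by
  obtain ⟨A, hL, _, _, rfl⟩ := h
  exact hcl _ hV _ A hL

theorem TwChain_seq : ∀ (l : ℕ) {V W : CC}, UpN l V W →
    ∃ f : ℕ → CC, f 0 = V ∧ f l = W ∧ ∀ i < l, Mv .up (f i) (f (i + 1)) := by
  intro l
  induction l with
  | zero =>
    intro V W h
    have h' : W = V := h
    exact ⟨fun _ => V, rfl, h'.symm, fun i hi => absurd hi (Nat.not_lt_zero i)⟩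
  | succ l ih =>
    intro V W h
    obtain ⟨U, hU, hUW⟩ := h
    obtain ⟨f, h0, hl, hf⟩ := ih hUW
    refine ⟨fun i => Nat.casesOn i V f, rfl, hl, ?_⟩
    intro i hi
    cases i with
    | zero =>
      show Mv .up V (f 0)
      rw [h0]
      exact hU
    | succ i =>
      show Mv .up (f i) (f (i + 1))
      exact hf i (by omega)

theorem TwChain_nt {V e e' : CC} (he : e ∈ Cl V) (h : NT e e') : e' ∈ Cl V :=
  Cl_trans he (Relation.ReflTransGen.single h)

theorem TwChain_last {P : ℕ → Prop} {K : ℕ} (h0 : P 0) (hK : ¬ P (K + 1)) :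
    ∃ k, k ≤ K ∧ P k ∧ ¬ P (k + 1) := by
  classical
  have hex : ∃ m, ¬ P m := ⟨K + 1, hK⟩
  have h1 := Nat.find_spec hex
  have h2 : Nat.find hex ≤ K + 1 := Nat.find_min' hex hK
  have h3 : Nat.find hex ≠ 0 := by
    intro h
    rw [h] at h1
    exact h1 h0
  obtain ⟨k, hk⟩ := Nat.exists_eq_succ_of_ne_zero h3
  refine ⟨k, by omega, ?_, ?_⟩
  · by_contra hc
    have := Nat.find_min' hex hc
    omega
  · have h4 : k + 1 = Nat.find hex := hk.symm
    rw [h4]
    exact h1

theorem chain_bound {c : CC} {G : Set CC} {K B : ℕ} (hO : OMin c) (hc : c ∈ G)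
    (hG : ∀ V ∈ G, Sm c V)
    (hcl : ∀ V ∈ G, ∀ (z : Fin 3 × Bool) (A : Fin 3 × Bool → Bool), Lv V z A →
      act (wh z A) V ∈ G)
    (h0 : ∀ V ∈ G, ∀ (z : Fin 3 × Bool) (A : Fin 3 × Bool → Bool), Lv V z A → z.1 = 0 →
      act (wh z A) V = V)
    (hud : ∀ V ∈ G, ∀ V', ¬ Mv .upB V V' ∧ ¬ Mv .dnB V V')
    (hK : ∀ V ∈ G, ∀ V', UpN (K + 1) V V' → Mv .up V V)
    (hB : ∀ V ∈ G, ∃ E : Finset CC, E.card ≤ B ∧ ∀ W ∈ Cl V, W ∈ E) :
    Bdd c ((K + 1) * B) := by
  classical
  obtain ⟨π, hπ, _, _⟩ := exists_SPerm_one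
  have hOG : ∀ V ∈ G, OMin V := fun V hV => Sm_OMin hO (hG V hV)
  by_cases hcase : ∃ V ∈ G, Mv .up V V
  · obtain ⟨V, hV, hup⟩ := hcase
    have hdn : Mv .dn V V := Mv_rev hup
    obtain ⟨E', hE'c, hE'⟩ := hB V hV
    have hb : Bdd V E'.card := by
      refine Bdd_of_closed (hOG V hV) (Cl V) E' (fun e he _ => hE' e he)
        ⟨π, V, Cl_refl V, (hπ V).symm⟩ ?_
      intro e he _ z A hz hz' hl
      refine ⟨π, act (wh z A) e, ?_, (hπ _).symm⟩
      have heG := TwChain_mem hcl hV he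
      have hL : Lv e z A := ⟨hz, hz', hl⟩
      by_cases hz0 : z.1 = 0
      · rw [h0 e heG z A hL hz0]
        exact he
      · rcases Lv_cases hL hz0 with h | ⟨d, h⟩
        · exact TwChain_nt he h
        · cases d with
          | up => exact mv_Cl' (hOG V hV) he hup h
          | dn => exact mv_Cl' (hOG V hV) he hdn h
          | upB => exact absurd h (hud e heG _).1
          | dnB => exact absurd h (hud e heG _).2
    refine Bdd_mono (Bdd_orb (hG V hV).1 hb) ?_
    calc E'.card ≤ B := hE'c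
      _ ≤ (K + 1) * B := Nat.le_mul_of_pos_left _ (Nat.succ_pos K)
  · have hno : ∀ V ∈ G, ∀ V', ¬ UpN (K + 1) V V' := fun V hV V' h =>
      hcase ⟨V, hV, hK V hV V' h⟩
    obtain ⟨k, -, ⟨V₀, hV₀, hV₀c⟩, hk⟩ := TwChain_last (P := fun k => ∃ V ∈ G, UpN k V c) (K := K)
      ⟨c, hc, rfl⟩ (fun ⟨V, hV, h⟩ => hno V hV c h)
    have hnodn : ∀ V', ¬ Mv .dn V₀ V' := by
      intro V' h
      exact hk ⟨V', TwChain_mv_mem hcl hV₀ h, V₀, Mv_rev h, hV₀c⟩
    obtain ⟨l, hlK, ⟨Wl, hWl⟩, hl⟩ := TwChain_last (P := fun l => ∃ W, UpN l V₀ W) (K := K)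
      ⟨V₀, rfl⟩ (fun ⟨W, h⟩ => hno V₀ hV₀ W h)
    obtain ⟨f, hf0, hfl, hf⟩ := TwChain_seq l hWl
    have hnoup : ∀ V', ¬ Mv .up (f l) V' := by
      intro V' h
      rw [hfl] at h
      exact hl ⟨V', UpN_succ hWl h⟩
    have hfG : ∀ i ≤ l, f i ∈ G := by
      intro i
      induction i with
      | zero => intro _; rw [hf0]; exact hV₀
      | succ i ih => intro hi; exact TwChain_mv_mem hcl (ih (by omega)) (hf i (by omega))
    have hF : ∀ i, ∃ F : Finset CC, F.card ≤ B ∧ (i ≤ l → ∀ W ∈ Cl (f i), W ∈ F) := by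
      intro i
      by_cases hi : i ≤ l
      · obtain ⟨F, h1, h2⟩ := hB (f i) (hfG i hi)
        exact ⟨F, h1, fun _ => h2⟩
      · exact ⟨∅, by simp, fun h => absurd h hi⟩
    choose F hFc hF using hF
    have hcard : ((Finset.range (l + 1)).biUnion F).card ≤ (K + 1) * B := by
      calc ((Finset.range (l + 1)).biUnion F).card ≤ ∑ i ∈ Finset.range (l + 1), (F i).card :=
            Finset.card_biUnion_le
        _ ≤ ∑ i ∈ Finset.range (l + 1), B := Finset.sum_le_sum fun i _ => hFc i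
        _ = (l + 1) * B := by simp
        _ ≤ (K + 1) * B := Nat.mul_le_mul_right B (by omega)
    have hO0 : OMin V₀ := hOG V₀ hV₀
    have hb : Bdd V₀ ((Finset.range (l + 1)).biUnion F).card := by
      refine Bdd_of_closed hO0 {e | ∃ i ≤ l, e ∈ Cl (f i)} ((Finset.range (l + 1)).biUnion F)
        ?_ ?_ ?_
      · rintro e ⟨i, hi, he⟩ _
        exact Finset.mem_biUnion.2 ⟨i, Finset.mem_range.2 (by omega), hF i hi e he⟩
      · refine ⟨π, V₀, ⟨0, Nat.zero_le _, ?_⟩, (hπ _).symm⟩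
        rw [hf0]
        exact Cl_refl V₀
      · rintro e ⟨i, hi, he⟩ _ z A hz hz' hl'
        refine ⟨π, act (wh z A) e, ?_, (hπ _).symm⟩
        have hfi := hfG i hi
        have heG := TwChain_mem hcl hfi he
        have hL : Lv e z A := ⟨hz, hz', hl'⟩
        by_cases hz0 : z.1 = 0
        · rw [h0 e heG z A hL hz0]
          exact ⟨i, hi, he⟩
        · rcases Lv_cases hL hz0 with h | ⟨d, h⟩
          · exact ⟨i, hi, TwChain_nt he h⟩
          · cases d with
            | up =>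
              rcases Nat.lt_or_ge i l with hil | hil
              · exact ⟨i + 1, hil, mv_Cl' (hOG _ hfi) he (hf i hil) h⟩
              · obtain rfl : i = l := le_antisymm hi hil
                obtain ⟨V1', h1, _⟩ := mv_Cl (hOG e heG) (Cl_symm he) h
                exact absurd h1 (hnoup V1')
            | dn =>
              cases i with
              | zero =>
                rw [hf0] at he
                obtain ⟨V1', h1, _⟩ := mv_Cl (hOG e heG) (Cl_symm he) h
                exact absurd h1 (hnodn V1')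
              | succ i =>
                have h1 : Mv .dn (f (i + 1)) (f i) := Mv_rev (hf i (by omega))
                exact ⟨i, by omega, mv_Cl' (hOG _ hfi) he h1 h⟩
            | upB => exact absurd h (hud e heG _).1
            | dnB => exact absurd h (hud e heG _).2
    exact Bdd_mono (Bdd_orb (hG V₀ hV₀).1 hb) hcard

theorem strict_bound {c : CC} {G : Set CC} {B : ℕ} (hO : OMin c) (hc : c ∈ G)
    (hG : ∀ V ∈ G, Sm c V)
    (hcl : ∀ V ∈ G, ∀ (z : Fin 3 × Bool) (A : Fin 3 × Bool → Bool), Lv V z A →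
      act (wh z A) V ∈ G)
    (h0 : ∀ V ∈ G, ∀ (z : Fin 3 × Bool) (A : Fin 3 × Bool → Bool), Lv V z A → z.1 = 0 →
      act (wh z A) V = V)
    (hB : ∀ V ∈ G, ∃ E : Finset CC, E.card ≤ B ∧ ∀ W ∈ Cl V, W ∈ E)
    (h12 : cnt c 1 < cnt c 2) : Bdd c ((2 * cnt c 2 + 1) * B) := by
  refine chain_bound hO hc hG hcl h0 ?_ ?_ hB
  · intro V hV V'
    have hOV : OMin V := Sm_OMin hO (hG V hV)
    have e1 := (hG V hV).2 1
    have e2 := (hG V hV).2 2
    constructor
    · rintro ⟨A, ⟨_, _, h⟩, hy, hy', _⟩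
      have h3 := hOV.le_cap (Dir.y .upB) A hy hy'
      have h4 : capC V A = cnt V 1 := h
      have h5 : cnt V 2 ≤ capC V A := h3
      omega
    · rintro ⟨A, ⟨_, _, h⟩, hy, hy', _⟩
      have h3 := hOV.le_cap (Dir.y .dnB) A hy hy'
      have h4 : capC V A = cnt V 1 := h
      have h5 : cnt V 2 ≤ capC V A := h3
      omega
  · intro V hV V' h
    refine up_self_of_long h ?_
    have e2 := (hG V hV).2 2
    omega

end Pool.Agent.Sims
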