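import Pool.Agent.Sims.BddM
import Pool.Agent.Sims.EdgeM
import Pool.Agent.Sims.In12B

/-!
# Definitions for part III (all three generators occur at least three times)

Letters `a = (0,·)`, `b = (1,·)`, `c = (2,·)`.
* `Lv V z A`  : the Whitehead automorphism `(A, z)` is a level move at `V`
* `NSep A i`  : the cut `A` does not separate `x_i`, `x_i⁻¹`
* `Sm V V'`   : same orbit and length, same counts
* `NT V V'`   : one level move with multiplier `b^{±1}` or `c^{±1}` without twist (the other one of `b, c` is
  not separated)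
* `Cl V`      : classes reachable from `V` by such moves
* `Mv d V V'` : one level move with a twist, `d = up, dn` (multiplier `c`), `upB, dnB` (multiplier `b`)
* `PrC i`     : the cut `{x_i, x_i⁻¹}`;  `ind A` : the potential `1_A`
* `Tw φ p q`  : `φ` maps `a` to `p a q` and fixes `b, c`  (`p, q ∈ ⟨b, c⟩`)
* `fb`        : sign change of `b`
-/

namespace Pool.Agent.Sims

open FreeGroup (of)

/-- level Whitehead move -/
def Lv (V : CC) (z : Fin 3 × Bool) (A : Fin 3 × Bool → Bool) : Prop :=
  A z = true ∧ A (bar z) = false ∧ capC V A = cnt V z.1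

/-- the cut `A` does not separate `x_i` from `x_i⁻¹` -/
def NSep (A : Fin 3 × Bool → Bool) (i : Fin 3) : Prop := A (i, true) = A (i, false)

/-- same orbit and length, same counts -/
def Sm (V V' : CC) : Prop := V' ∈ orb V ∧ ∀ i, cnt V' i = cnt V i

/-- level move with multiplier `b^{±1}` or `c^{±1}` without twist -/
def NT (V V' : CC) : Prop := ∃ (z : Fin 3 × Bool) (A : Fin 3 × Bool → Bool), Lv V z A ∧ z.1 ≠ 0 ∧
  (∀ i, i ≠ 0 → i ≠ z.1 → NSep A i) ∧ V' = act (wh z A) V

/-- classes reachable by level moves without twist -/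
def Cl (V : CC) : Set CC := {V' | Relation.ReflTransGen NT V V'}

/-- the four kinds of twists -/
inductive Dir
  | up | dn | upB | dnB

/-- the multiplier -/
def Dir.z : Dir → Fin 3 × Bool
  | .up => (2, true)
  | .dn => (2, true)
  | .upB => (1, true)
  | .dnB => (1, true)

/-- the other letter on the side of the multiplier -/
def Dir.y : Dir → Fin 3 × Bool
  | .up => (1, true)
  | .dn => (1, false)
  | .upB => (2, true)
  | .dnB => (2, false)

/-- the inverse direction -/
def Dir.rev : Dir → Dir
  | .up => .dn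
  | .dn => .up
  | .upB => .dnB
  | .dnB => .upB

/-- the direction with the same cuts and the other multiplier -/
def Dir.par : Dir → Dir
  | .up => .upB
  | .dn => .dnB
  | .upB => .up
  | .dnB => .dn

/-- level move with a twist -/
def Mv (d : Dir) (V V' : CC) : Prop := ∃ A : Fin 3 × Bool → Bool, Lv V d.z A ∧ A d.y = true ∧
  A (bar d.y) = false ∧ V' = act (wh d.z A) V

/-- `k` moves `up` -/
def UpN : ℕ → CC → CC → Prop
  | 0, V, V' => V' = V
  | k + 1, V, V' => ∃ W, Mv .up V W ∧ UpN k W V'

/-- the pair cut `{x_i, x_i⁻¹}` -/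
def PrC (i : Fin 3) : Fin 3 × Bool → Bool := fun x => decide (x.1 = i)

/-- the potential `1_A` -/
def ind (A : Fin 3 × Bool → Bool) : Fin 3 × Bool → ℤ := fun x => if A x then 1 else 0

/-- `φ` maps `a` to `p a q` and fixes `⟨b, c⟩` -/
def Tw (φ : FreeGroup (Fin 3) ≃* FreeGroup (Fin 3)) (p q : FreeGroup (Fin 3)) : Prop :=
  In12 p ∧ In12 q ∧ φ (of 0) = p * of 0 * q ∧ ∀ g, In12 g → φ g = g

/-- sign change of `b` -/
def fb : SPerm (Fin 3) := flp (fun i => decide (i ≠ 1))

end Pool.Agent.Sims
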