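import Pool.Agent.Sims.SylA
import Pool.Agent.Sims.SylB
import Pool.Agent.Sims.SylC

/-!
# Module `WhEff` : effect of a Whitehead automorphism on a cyclic word

Let `z` be a letter, `A z`, `¬ A z⁻¹`, `j = z.1`, `c' = act (wh z A) c`.
If `c` has no letters `≠ x_j^{±1}` then `c = cls (zpw j k)` (`exists_pow`), `c' = c` (`act_pot_pow`)
and everything follows from `cap_zpw_sep`, `cap_zpw_nonsep`, `CR_zpw`.
Otherwise take a syllable form `s` of `c` (`exists_syl`); `shift (whp z A) s` is a syllable form of
`c'`, it is valid, so counts and capacities of `c'` can be computed from it.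
* lengths and counts: `sum_shift`, `cap_expand_sep`, `cntL_expand_self`, `cntL_expand_ne`,
  `length_expand`, `shift_map_fst`.
* `capC_wh_disj`: `B` contains neither `z` nor `z⁻¹` and is disjoint from `A`.  For consecutive
  `(x,k),(y,l)` compare the terms of `cap_expand_nonsep` for `B`: the new exponent is
  `k' = k ± ([A x] - [A y⁻¹])`.  If `k = 0 ↔ k' = 0` nothing changes.  If exactly one of `k, k'` is `0`
  then exactly one of `x, y⁻¹` is in `A`, so it is not in `B`, and both formulas give the indicator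
  of the other letter.
* `capC_wh_disj'`: `B` contains `z⁻¹` but not `z`, disjoint from `A`; with `ε = sgn z`, by
  `cap_expand_sep` for `z⁻¹`: `cap_c B = Σ |k - ε([B x] - [B y⁻¹])|` and
  `cap_{c'} (B ∪ A∖z) = Σ |k' - ε([(A∪B) x] - [(A∪B) y⁻¹])|`, `k' = k + ε([A x] - [A y⁻¹])`
  (letters `x, y⁻¹` are `≠ z^{±1}`, and `[(A∪B) x] = [A x] + [B x]`).
Difficulty 2.
-/

namespace Pool.Agent.Sims

variable {α : Type*} [DecidableEq α]

theorem WhEff_lin_congr {β : Type*} {f g : β → β → ℕ} (l : List β) : ∀ (x z : β),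
    (∀ a ∈ x :: l, ∀ b ∈ l ++ [z], f a b = g a b) → lin f x l z = lin g x l z := by
  induction l with
  | nil =>
    intro x z h
    exact h x (by simp) z (by simp)
  | cons y l ih =>
    intro x z h
    simp only [lin]
    rw [h x (by simp) y (by simp), ih y z (fun a ha b hb => h a (List.mem_cons_of_mem _ ha) b
      (by simpa using Or.inr (by simpa using hb)))]

theorem WhEff_cyc_congr {β : Type*} {f g : β → β → ℕ} (l : List β)
    (h : ∀ a ∈ l, ∀ b ∈ l, f a b = g a b) : cyc f l = cyc g l := by
  cases l with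
  | nil => rfl
  | cons x l =>
    apply WhEff_lin_congr
    intro a ha b hb
    apply h a ha b
    simp only [List.mem_append, List.mem_singleton] at hb
    rcases hb with hb | rfl
    · exact List.mem_cons_of_mem _ hb
    · simp

theorem WhEff_cases (j : α) (c : ConjClasses (FreeGroup α)) :
    (∃ k : ℤ, c = cls (zpw j k)) ∨
      ∃ s : List ((α × Bool) × ℤ), s ≠ [] ∧ SValid j s ∧ cls (expand j s) = c := by
  by_cases h : ∃ i, i ≠ j ∧ 0 < cnt c i
  · exact Or.inr (exists_syl j c h)
  · refine Or.inl (exists_pow j c fun i hi => ?_)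
    by_contra h0
    exact h ⟨i, hi, Nat.pos_of_ne_zero h0⟩

theorem WhEff_cntL_zpw (j : α) (k : ℤ) : cntL (zpw j k) j = k.natAbs := by
  unfold cntL zpw
  rw [List.countP_replicate]
  simp

theorem WhEff_shift_length (p : α × Bool → ℤ) (s : List ((α × Bool) × ℤ)) :
    (shift p s).length = s.length := by
  have h := congrArg List.length (shift_map_fst p s)
  simpa using h

theorem cnt_wh_self (c : ConjClasses (FreeGroup α)) (z : α × Bool) (A : α × Bool → Bool)
    (hz : A z = true) (hz' : A (bar z) = false) : cnt (act (wh z A) c) z.1 = capC c A := by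
  unfold wh
  rcases WhEff_cases z.1 c with ⟨k, rfl⟩ | ⟨s, -, hs, rfl⟩
  · rw [act_pot_pow, cnt_cls (CR_zpw _ _), capC_cls (CR_zpw _ _), WhEff_cntL_zpw,
      cap_zpw_sep z k A hz hz']
  · have hs' := SValid_shift z.1 (whp z A) s hs
    rw [act_pot _ _ _ hs.1, cnt_cls hs'.2, capC_cls hs.2, cntL_expand_self _ _ hs'.1, sum_shift,
      cap_expand_sep s z hs.1 A hz hz']
    apply WhEff_cyc_congr
    intro q _ r _
    congr 1
    unfold whp
    split_ifs <;> ring

/-- same for a general potential: only letters of the generator `j` change -/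
theorem cnt_pot_ne (c : ConjClasses (FreeGroup α)) (j : α) (p : α × Bool → ℤ)
    {i : α} (hi : i ≠ j) : cnt (act (pot j p) c) i = cnt c i := by
  rcases WhEff_cases j c with ⟨k, rfl⟩ | ⟨s, -, hs, rfl⟩
  · rw [act_pot_pow]
  · have hs' := SValid_shift j p s hs
    rw [act_pot _ _ _ hs.1, cnt_cls hs'.2, cnt_cls hs.2, cntL_expand_ne _ _ hi,
      cntL_expand_ne _ _ hi, shift_map_fst]

theorem cnt_wh_ne (c : ConjClasses (FreeGroup α)) (z : α × Bool) (A : α × Bool → Bool)
    {i : α} (hi : i ≠ z.1) : cnt (act (wh z A) c) i = cnt c i :=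
  cnt_pot_ne c z.1 (whp z A) hi

theorem cycLen_wh (c : ConjClasses (FreeGroup α)) (z : α × Bool) (A : α × Bool → Bool)
    (hz : A z = true) (hz' : A (bar z) = false) :
    cycLen (act (wh z A) c) + cnt c z.1 = cycLen c + capC c A := by
  rw [← cnt_wh_self c z A hz hz']
  unfold wh
  rcases WhEff_cases z.1 c with ⟨k, rfl⟩ | ⟨s, -, hs, rfl⟩
  · rw [act_pot_pow]
  · have hs' := SValid_shift z.1 (whp z A) s hs
    rw [act_pot _ _ _ hs.1, cycLen_cls hs'.2, cycLen_cls hs.2, cnt_cls hs'.2, cnt_cls hs.2,
      length_expand, length_expand, cntL_expand_self _ _ hs'.1, cntL_expand_self _ _ hs.1,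
      WhEff_shift_length]
    omega

theorem capC_wh_disj (c : ConjClasses (FreeGroup α)) (z : α × Bool) (A B : α × Bool → Bool)
    (hz : A z = true) (hz' : A (bar z) = false) (hB : B z = false) (hB' : B (bar z) = false)
    (hAB : ∀ x, A x = true → B x = false) : capC (act (wh z A) c) B = capC c B := by
  unfold wh
  rcases WhEff_cases z.1 c with ⟨k, rfl⟩ | ⟨s, -, hs, rfl⟩
  · rw [act_pot_pow]
  · have hs' := SValid_shift z.1 (whp z A) s hs
    have h1 : B (z.1, true) = false := by
      rcases z with ⟨j, b⟩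
      cases b
      · exact hB'
      · exact hB
    have h2 : B (z.1, false) = false := by
      rcases z with ⟨j, b⟩
      cases b
      · exact hB
      · exact hB'
    rw [act_pot _ _ _ hs.1, capC_cls hs'.2, capC_cls hs.2,
      cap_expand_nonsep z.1 _ hs'.1 B h1 h2, cap_expand_nonsep z.1 _ hs.1 B h1 h2]
    rw [cyc_shift (fun q y => if q.2 = 0 then (if B q.1 = B (bar y) then 0 else 1) else
        (if B q.1 then 1 else 0) + (if B (bar y) then 1 else 0)) (whp z A) s]
    apply WhEff_cyc_congr
    intro q _ r _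
    simp only [whp]
    by_cases hq : A q.1 = true <;> by_cases hr : A (bar r.1) = true
    · simp [hq, hr]
    · have h3 := hAB _ hq
      simp only [hq, hr, h3]
      cases B (bar r.1) <;> simp
    · have h3 := hAB _ hr
      simp only [hq, hr, h3]
      cases B q.1 <;> simp
    · simp [hq, hr]

theorem capC_wh_disj' (c : ConjClasses (FreeGroup α)) (z : α × Bool) (A B : α × Bool → Bool)
    (hz : A z = true) (hz' : A (bar z) = false) (hB : B z = false) (hB' : B (bar z) = true)
    (hAB : ∀ x, A x = true → B x = false) :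
    capC (act (wh z A) c) (fun x => B x || (A x && decide (x ≠ z))) = capC c B := by
  unfold wh
  obtain ⟨D, hD⟩ : ∃ D : α × Bool → Bool, D = fun x => B x || (A x && decide (x ≠ z)) :=
    ⟨_, rfl⟩
  rw [← hD]
  have hD1 : D (bar z) = true := by
    simp [hD, hB']
  have hD2 : D (bar (bar z)) = false := by
    simp [hD, hB]
  have hB2 : B (bar (bar z)) = false := by rw [bar_bar]; exact hB
  rcases WhEff_cases z.1 c with ⟨k, rfl⟩ | ⟨s, -, hs, rfl⟩
  · rw [act_pot_pow, capC_cls (CR_zpw _ _), capC_cls (CR_zpw _ _)]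
    have e1 := cap_zpw_sep (bar z) k _ hD1 hD2
    have e2 := cap_zpw_sep (bar z) k B hB' hB2
    rw [bar_fst] at e1 e2
    rw [e1, e2]
  · have hs' := SValid_shift z.1 (whp z A) s hs
    have e1 := cap_expand_sep (shift (whp z A) s) (bar z) hs'.1 _ hD1 hD2
    have e2 := cap_expand_sep s (bar z) hs.1 B hB' hB2
    rw [bar_fst] at e1 e2
    rw [act_pot _ _ _ hs.1, capC_cls hs'.2, capC_cls hs.2, e1, e2]
    rw [cyc_shift (fun q y => (q.2 + sgn (bar z) *
      ((if D q.1 then 1 else 0) - (if D (bar y) then 1 else 0))).natAbs) (whp z A) s]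
    apply WhEff_cyc_congr
    intro q hq r hr
    have hsgn : sgn (bar z) = - sgn z := by
      rcases z with ⟨j, b⟩
      cases b <;> simp [sgn, bar]
    have key : ∀ x : α × Bool, x.1 ≠ z.1 →
        whp z A x + sgn (bar z) * (if D x = true then (1 : ℤ) else 0)
          = sgn (bar z) * (if B x = true then (1 : ℤ) else 0) := by
      intro x hx
      have hxz : x ≠ z := fun h => hx (by rw [h])
      rw [hsgn, hD]
      unfold whp
      by_cases hA : A x = true
      · have := hAB x hA
        simp [hA, this, hxz]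
      · simp [hA]
    have k1 := key q.1 (hs.1 q hq)
    have k2 := key (bar r.1) (hs.1 r hr)
    congr 1
    simp only
    linear_combination k1 - k2

end Pool.Agent.Sims
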